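import Pool.Agent.P.MP_63735c_ag.SPLoc

/-! Pointwise linear algebra in a chart: rank, minors. -/

open Set Filter Topology
open scoped ComplexOrder ContDiff Matrix

namespace Pool.Agent.SPF

variable {N n : ℕ}

namespace Chart

variable {C : Chart N} {z : E N} {ι : Fin n → Fin N}

lemma π_mul_σ (hz : z ∈ C.W) : C.π z * C.σ z = 1 := by
  exact Matrix.nonsing_inv_mul _ (isUnit_iff_ne_zero.2 (C.σ_det z hz))

lemma σ_mul_π (hz : z ∈ C.W) : C.σ z * C.π z = 1 := by
  exact Matrix.mul_nonsing_inv _ (isUnit_iff_ne_zero.2 (C.σ_det z hz))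

lemma π_skew (hz : z ∈ C.W) (a b : Fin N) : C.π z a b = -C.π z b a := by
  have h : (C.π z)ᵀ = -C.π z := by
    rw [π, Matrix.transpose_nonsing_inv, C.σ_skew z hz]
    refine Matrix.inv_eq_right_inv ?_
    rw [neg_mul_neg]
    exact σ_mul_π hz
  exact congrFun (congrFun h b) a

lemma G_psd (hz : z ∈ C.W) : (C.G z).PosSemidef := by
  exact (C.η_psd z hz).mul_mul_conjTranspose_same _

lemma g_psd (hz : z ∈ C.W) (ι : Fin n → Fin N) : (C.g ι z).PosSemidef := by
  exact (C.η_psd z hz).submatrix ι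

lemma ac_eq (hz : z ∈ C.W) (ι : Fin n → Fin N) : C.ac ι z = (C.a ι z : ℂ) := by
  have h := Complex.nonneg_iff.1 (g_psd hz ι).det_nonneg
  exact Complex.ext rfl h.2.symm

lemma a_nonneg (hz : z ∈ C.W) (ι : Fin n → Fin N) : 0 ≤ C.a ι z := by
  exact (Complex.nonneg_iff.1 (g_psd hz ι).det_nonneg).1

lemma ac_ne (hz : z ∈ C.U ι) : C.ac ι z ≠ 0 := by
  intro h
  have h1 := hz.2
  rw [a, h] at h1
  exact lt_irrefl _ h1

lemma g_posDef (hz : z ∈ C.U ι) : (C.g ι z).PosDef := by
  exact (g_psd hz.1 ι).posDef_iff_det_ne_zero.2 (ac_ne hz)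

lemma exists_max (C : Chart N) (hN : N = 2 * n) (z : E N) : ∃ ι : Fin n → Fin N, C.Max ι z := by
  haveI : Nonempty (Fin n → Fin N) := ⟨fun i => ⟨i, by omega⟩⟩
  exact Finite.exists_max fun ι : Fin n → Fin N => C.a ι z

lemma rank_le (hN : N = 2 * n) (hC : C.Iso) (hz : z ∈ C.W) : (C.η z).rank ≤ n := by
  have hd : IsUnit (C.π z).det := Matrix.isUnit_det_of_right_inverse (π_mul_σ hz)
  have h := Matrix.rank_add_rank_le_card_of_mul_eq_zero (hC z hz)
  rw [Matrix.rank_mul_eq_left_of_isUnit_det _ _ hd, Matrix.rank_transpose, Fintype.card_fin] at h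
  omega

lemma le_rank (hz : z ∈ C.U ι) : n ≤ (C.η z).rank := by
  have h := Matrix.rank_of_isUnit _ (g_posDef hz).isUnit
  rw [Fintype.card_fin] at h
  exact h.symm.trans_le (Matrix.rank_submatrix_le _ _ _)

lemma exists_U (hz : z ∈ C.W) (h : n ≤ (C.η z).rank) : ∃ ι : Fin n → Fin N, z ∈ C.U ι := by
  obtain ⟨κ, a, ha, hsp, hli⟩ := exists_linearIndependent' ℂ (C.η z).col
  haveI : Finite κ := Finite.of_injective a ha
  haveI := Fintype.ofFinite κ
  have hc : Fintype.card (Fin n) ≤ Fintype.card κ := by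
    rw [Fintype.card_fin, ← finrank_span_eq_card hli, hsp, ← Matrix.rank_eq_finrank_span_cols]
    exact h
  obtain ⟨f⟩ := Function.Embedding.nonempty_of_card_le hc
  have hli' : LinearIndependent ℂ fun j => (C.η z).col (a (f j)) := hli.comp f f.injective
  refine ⟨fun j => a (f j), hz, ?_⟩
  have hne : C.ac (fun j => a (f j)) z ≠ 0 := by
    intro h0
    obtain ⟨x, hx, hx0⟩ := Matrix.exists_mulVec_eq_zero_iff.2 h0
    let P : Matrix (Fin N) (Fin n) ℂ :=
      (1 : Matrix (Fin N) (Fin N) ℂ).submatrix id fun j => a (f j)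
    have hP : C.η z * P = (C.η z).submatrix id fun j => a (f j) := by
      ext i j
      simp [P, Matrix.mul_apply, Matrix.one_apply]
    have hg : Pᴴ * (C.η z * P) = C.g (fun j => a (f j)) z := by
      rw [hP]
      ext i j
      simp [P, g, Matrix.mul_apply, Matrix.one_apply]
    have h1 : star (P *ᵥ x) ⬝ᵥ C.η z *ᵥ (P *ᵥ x) = 0 := by
      rw [Matrix.star_mulVec, Matrix.mulVec_mulVec, ← Matrix.dotProduct_mulVec,
        Matrix.mulVec_mulVec, hg, hx0, dotProduct_zero]
    have h2 := ((C.η_psd z hz).dotProduct_mulVec_zero_iff _).1 h1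
    rw [Matrix.mulVec_mulVec, hP] at h2
    refine hx (funext (Fintype.linearIndependent_iff.1 hli' x ?_))
    funext i
    have h3 := congrFun h2 i
    simpa [Matrix.mulVec, dotProduct, mul_comm] using h3
  refine lt_of_le_of_ne (a_nonneg hz _) fun h0 => hne ?_
  rw [ac_eq hz, ← h0, Complex.ofReal_zero]

lemma F1 (hz : z ∈ C.U ι) (h : (C.η z).rank ≤ n) (b c : Fin N) :
    C.η z b c = ∑ i, ∑ j, C.η z b (ι i) * (C.g ι z)⁻¹ i j * C.η z (ι j) c := by
  have hu : IsUnit (C.g ι z).det := isUnit_iff_ne_zero.2 (ac_ne hz)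
  have hli : LinearIndependent ℂ fun j => (C.η z).col (ι j) := by
    refine Fintype.linearIndependent_iff.2 fun x hx => ?_
    have h1 : C.g ι z *ᵥ x = 0 := by
      funext i
      have h3 := congrFun hx (ι i)
      simpa [g, Matrix.mulVec, dotProduct, mul_comm] using h3
    exact congrFun (Matrix.eq_zero_of_mulVec_eq_zero hu.ne_zero h1)
  have hsp : Submodule.span ℂ (Set.range fun j => (C.η z).col (ι j))
      = Submodule.span ℂ (Set.range (C.η z).col) := by
    refine Submodule.eq_of_le_of_finrank_le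
      (Submodule.span_mono (Set.range_comp_subset_range ι (C.η z).col)) ?_
    rw [finrank_span_eq_card hli, Fintype.card_fin, ← Matrix.rank_eq_finrank_span_cols]
    exact h
  have hc : (C.η z).col c ∈ Submodule.span ℂ (Set.range fun j => (C.η z).col (ι j)) := by
    rw [hsp]
    exact Submodule.subset_span ⟨c, rfl⟩
  obtain ⟨y, hy⟩ := (Submodule.mem_span_range_iff_exists_fun ℂ).1 hc
  have hy' : ∀ b, C.η z b c = ∑ i, C.η z b (ι i) * y i := fun b => by
    have h3 := congrFun hy b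
    simpa [mul_comm] using h3.symm
  have h1 : (fun j => C.η z (ι j) c) = C.g ι z *ᵥ y := funext fun j => hy' (ι j)
  have h2 : y = (C.g ι z)⁻¹ *ᵥ fun j => C.η z (ι j) c := by
    rw [h1, Matrix.mulVec_mulVec, Matrix.nonsing_inv_mul _ hu, Matrix.one_mulVec]
  rw [hy' b]
  refine Finset.sum_congr rfl fun i _ => ?_
  rw [congrFun h2 i, Matrix.mulVec, dotProduct, Finset.mul_sum]
  exact Finset.sum_congr rfl fun j _ => (mul_assoc _ _ _).symm

lemma det_conj (hz : z ∈ C.U ι) (h : (C.η z).rank ≤ n) (M : Matrix (Fin N) (Fin n) ℂ) :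
    (Mᵀ * C.η z * M.map star).det =
      (Matrix.of fun i j => ∑ c, C.e ι z i c * M c j).det *
        star (Matrix.of fun i j => ∑ c, C.e ι z i c * M c j).det * C.ac ι z := by
  have hu : IsUnit (C.g ι z).det := isUnit_iff_ne_zero.2 (ac_ne hz)
  let K : Matrix (Fin N) (Fin n) ℂ := (C.η z).submatrix id ι
  let Em : Matrix (Fin n) (Fin N) ℂ := Matrix.of fun i c => C.e ι z i c
  have hE : Emᵀ = K * (C.g ι z)⁻¹ := rfl
  have hK : Kᴴ = (C.η z).submatrix ι id := by
    rw [Matrix.conjTranspose_submatrix, (C.η_psd z hz.1).1.eq]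
  have hE' : Em.map star = (C.g ι z)⁻¹ * Kᴴ := by
    have e1 : Em.map star = Emᵀᴴ := rfl
    rw [e1, hE, Matrix.conjTranspose_mul, (g_psd hz.1 ι).1.inv.eq]
  have hη : C.η z = Emᵀ * C.g ι z * Em.map star := by
    rw [hE, hE', Matrix.mul_assoc K, Matrix.nonsing_inv_mul _ hu, Matrix.mul_one, hK]
    ext b c
    rw [F1 hz h b c, Matrix.mul_apply]
    refine Finset.sum_congr rfl fun i _ => ?_
    rw [Matrix.mul_apply, Finset.mul_sum]
    exact Finset.sum_congr rfl fun j _ => mul_assoc _ _ _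
  have hQ : (Matrix.of fun i j => ∑ c, C.e ι z i c * M c j) = Em * M := rfl
  have hs : (Em * M).map star = Em.map star * M.map star :=
    Matrix.map_mul (f := starRingEnd ℂ)
  have h1 : Mᵀ * C.η z * M.map star = (Em * M)ᵀ * C.g ι z * (Em * M).map star := by
    rw [hs, Matrix.transpose_mul]
    conv_lhs => rw [hη]
    simp only [Matrix.mul_assoc]
  have h2 : ((Em * M).map star).det = star (Em * M).det :=
    ((starRingEnd ℂ).map_det (Em * M)).symm
  rw [h1, hQ, Matrix.det_mul, Matrix.det_mul, Matrix.det_transpose, h2, ac]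
  ring

lemma e_le_one (hz : z ∈ C.U ι) (h : (C.η z).rank ≤ n) (hm : C.Max ι z) (i : Fin n) (b : Fin N) :
    ‖C.e ι z i b‖ ≤ 1 := by
  have hu : IsUnit (C.g ι z).det := isUnit_iff_ne_zero.2 (ac_ne hz)
  have h0 := det_conj hz h
    ((1 : Matrix (Fin N) (Fin N) ℂ).submatrix id (Function.update ι i b))
  have h1 : ((1 : Matrix (Fin N) (Fin N) ℂ).submatrix id (Function.update ι i b))ᵀ * C.η z *
      ((1 : Matrix (Fin N) (Fin N) ℂ).submatrix id (Function.update ι i b)).map star
      = C.g (Function.update ι i b) z := by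
    ext p q
    simp [g, Matrix.mul_apply, Matrix.one_apply]
  have h2 : (Matrix.of fun p q => ∑ c, C.e ι z p c *
      ((1 : Matrix (Fin N) (Fin N) ℂ).submatrix id (Function.update ι i b)) c q)
      = (1 : Matrix (Fin n) (Fin n) ℂ).updateCol i fun p => C.e ι z p b := by
    ext p q
    have e1 : (∑ c, C.e ι z p c *
        ((1 : Matrix (Fin N) (Fin N) ℂ).submatrix id (Function.update ι i b)) c q)
        = C.e ι z p (Function.update ι i b q) := by
      simp [Matrix.one_apply]
    rw [Matrix.of_apply, e1, Matrix.updateCol_apply]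
    by_cases hq : q = i
    · rw [if_pos hq, hq, Function.update_self]
    · rw [if_neg hq, Function.update_of_ne hq]
      have e2 : C.e ι z p (ι q) = (C.g ι z * (C.g ι z)⁻¹) q p := rfl
      rw [e2, Matrix.mul_nonsing_inv _ hu, Matrix.one_apply, Matrix.one_apply]
      simp only [eq_comm]
  have h3 : ((1 : Matrix (Fin n) (Fin n) ℂ).updateCol i fun p => C.e ι z p b).det
      = C.e ι z i b := by
    rw [← Matrix.cramer_apply, Matrix.cramer_one]
    rfl
  rw [h1, h2, h3, Complex.star_def, Complex.mul_conj, ac_eq hz.1, ← Complex.ofReal_mul] at h0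
  have h4 : C.a (Function.update ι i b) z = Complex.normSq (C.e ι z i b) * C.a ι z := by
    rw [a, ac, h0, Complex.ofReal_re]
  have h5 := hm (Function.update ι i b)
  rw [h4, Complex.normSq_eq_norm_sq] at h5
  have h6 : ‖C.e ι z i b‖ ^ 2 ≤ 1 := le_of_mul_le_mul_right (by linarith) hz.2
  exact (sq_le_one_iff₀ (norm_nonneg _)).1 h6

lemma det_conj_le (hz : z ∈ C.W) (h : (C.η z).rank ≤ n) (hm : C.Max ι z)
    (M : Matrix (Fin N) (Fin n) ℂ) {B : ℝ} (hB : ∀ c j, ‖M c j‖ ≤ B) :
    (Mᵀ * C.η z * M.map star).det.re ≤ (n.factorial * (N * B) ^ n) ^ 2 * C.a ι z := by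
  rcases (a_nonneg hz ι).eq_or_lt with h0 | h0
  · have h1 : (C.η z).rank < n := by
      by_contra h2
      obtain ⟨ι', h3⟩ := exists_U hz (not_lt.1 h2)
      exact absurd (h3.2.trans_le (hm ι')) (by rw [← h0]; exact lt_irrefl _)
    have h2 : (Mᵀ * C.η z * M.map star).det = 0 := by
      by_contra h3
      have h4 := Matrix.rank_of_isUnit _
        ((Matrix.isUnit_iff_isUnit_det _).2 (isUnit_iff_ne_zero.2 h3))
      rw [Fintype.card_fin] at h4
      have h5 := (Matrix.rank_mul_le_left (Mᵀ * C.η z) (M.map star)).trans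
        (Matrix.rank_mul_le_right Mᵀ (C.η z))
      omega
    rw [h2, ← h0, Complex.zero_re, mul_zero]
  · have hU : z ∈ C.U ι := ⟨hz, h0⟩
    rw [det_conj hU h M, Complex.star_def, Complex.mul_conj, ac_eq hz, ← Complex.ofReal_mul,
      Complex.ofReal_re, Complex.normSq_eq_norm_sq]
    refine mul_le_mul_of_nonneg_right (pow_le_pow_left₀ (norm_nonneg _) ?_ 2) h0.le
    have h1 := Matrix.det_le (A := Matrix.of fun i j => ∑ c, C.e ι z i c * M c j)
      (abv := NormedField.toAbsoluteValue ℂ) (x := N * B) fun i j => by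
        change ‖∑ c, C.e ι z i c * M c j‖ ≤ N * B
        calc ‖∑ c, C.e ι z i c * M c j‖ ≤ ∑ c, ‖C.e ι z i c * M c j‖ := norm_sum_le _ _
          _ ≤ ∑ _c : Fin N, B := Finset.sum_le_sum fun c _ => by
              rw [norm_mul]
              exact (mul_le_of_le_one_left (norm_nonneg _) (e_le_one hU h hm i c)).trans (hB c j)
          _ = N * B := by simp
    rw [Fintype.card_fin, nsmul_eq_mul] at h1
    exact h1

end Chart

end Pool.Agent.SPF
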