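import Pool.Agent.P.MP_63735c_ag.SPSm
import Pool.Agent.P.MP_63735c_ag.SPLin2

/-! Regularity of the local objects. -/

open Set Filter Topology
open scoped ComplexOrder ContDiff Matrix

namespace Pool.Agent.SPF

variable {N n : ℕ}

lemma reg_fd {f : E N → ℂ} {s : Set (E N)} (hs : IsOpen s) (hf : ContDiffOn ℝ ∞ f s) (v : E N) :
    ContDiffOn ℝ ∞ (fun z => fderiv ℝ f z v) s :=
  (hf.fderiv_of_isOpen hs (by simp)).clm_apply contDiffOn_const

lemma reg_star {f : E N → ℂ} {s : Set (E N)} (hf : ContDiffOn ℝ ∞ f s) :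
    ContDiffOn ℝ ∞ (fun z => star (f z)) s :=
  Complex.conjCLE.contDiff.comp_contDiffOn hf

section
variable {𝕜 : Type} [NontriviallyNormedField 𝕜] [NormedAlgebra 𝕜 ℂ] [NormedSpace 𝕜 (E N)]
  {s : Set (E N)} {m : ℕ} {M : E N → Matrix (Fin m) (Fin m) ℂ}

lemma reg_det (h : ∀ a b, ContDiffOn 𝕜 ∞ (fun z => M z a b) s) :
    ContDiffOn 𝕜 ∞ (fun z => (M z).det) s := by
  simp only [Matrix.det_apply']
  exact ContDiffOn.sum fun σ _ => contDiffOn_const.mul (contDiffOn_prod fun i _ => h _ _)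

lemma reg_inv (h : ∀ a b, ContDiffOn 𝕜 ∞ (fun z => M z a b) s) (hd : ∀ z ∈ s, (M z).det ≠ 0)
    (a b : Fin m) : ContDiffOn 𝕜 ∞ (fun z => (M z)⁻¹ a b) s := by
  simp only [Matrix.inv_def, Ring.inverse_eq_inv', Matrix.smul_apply, smul_eq_mul,
    Matrix.adjugate_apply]
  refine ((reg_det h).inv hd).mul (reg_det (M := fun z => (M z).updateRow b (Pi.single a 1))
    fun i j => ?_)
  by_cases hi : i = b
  · subst hi
    simp only [Matrix.updateRow_self]
    exact contDiffOn_const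
  · simp only [Matrix.updateRow_ne hi]
    exact h i j

end

lemma smooth_dz {f : E N → ℂ} {s : Set (E N)} (hs : IsOpen s) (hf : ContDiffOn ℝ ∞ f s)
    (a : Fin N) : ContDiffOn ℝ ∞ (dz a f) s := 
  ((reg_fd hs hf _).sub (contDiffOn_const.mul (reg_fd hs hf _))).div_const 2

lemma smooth_dzb {f : E N → ℂ} {s : Set (E N)} (hs : IsOpen s) (hf : ContDiffOn ℝ ∞ f s)
    (a : Fin N) : ContDiffOn ℝ ∞ (dzb a f) s := 
  ((reg_fd hs hf _).add (contDiffOn_const.mul (reg_fd hs hf _))).div_const 2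

lemma hol_dz {f : E N → ℂ} {s : Set (E N)} (hs : IsOpen s) (hf : DifferentiableOn ℂ f s)
    (a : Fin N) : DifferentiableOn ℂ (dz a f) s := 
  (Lib.SCV.differentiableOn_fderiv_apply hs hf (Pi.single a 1)).congr fun _ hz =>
    (dz_of_diff (hf.differentiableAt (hs.mem_nhds hz)) a).1

namespace Chart

variable (C : Chart N) (ι : Fin n → Fin N)

lemma π_hol (a b : Fin N) : DifferentiableOn ℂ (fun z => C.π z a b) C.W := 
  (reg_inv (𝕜 := ℂ) (M := C.σ) (fun a b => Lib.SCV.contDiffOn_of_differentiableOn C.isOpen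
    (C.σ_hol a b)) C.σ_det a b).differentiableOn (by simp)

lemma reg_π (a b : Fin N) : ContDiffOn ℝ ∞ (fun z => C.π z a b) C.W :=
  (Lib.SCV.contDiffOn_of_differentiableOn C.isOpen (C.π_hol a b)).restrict_scalars ℝ

lemma G_smooth (a b : Fin N) : ContDiffOn ℝ ∞ (fun z => C.G z a b) C.W := by
  simp only [G, Matrix.mul_apply, Matrix.conjTranspose_apply]
  exact ContDiffOn.sum fun j _ => (ContDiffOn.sum fun i _ =>
    (C.reg_π a i).mul (C.η_smooth i j)).mul (reg_star (C.reg_π b j))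

lemma ac_smooth : ContDiffOn ℝ ∞ (C.ac ι) C.W := 
  reg_det (𝕜 := ℝ) (M := C.g ι) fun a b => C.η_smooth (ι a) (ι b)

lemma a_smooth : ContDiffOn ℝ ∞ (C.a ι) C.W := 
  Complex.reCLM.contDiff.comp_contDiffOn (C.ac_smooth ι)

lemma isOpen_U : IsOpen (C.U ι) := 
  (C.a_smooth ι).continuousOn.isOpen_inter_preimage C.isOpen isOpen_Ioi

lemma reg_sub : C.U ι ⊆ C.W := fun _ hz => hz.1

lemma h_smooth (i j : Fin n) : ContDiffOn ℝ ∞ (fun z => (C.g ι z)⁻¹ i j) (C.U ι) := 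
  reg_inv (𝕜 := ℝ) (M := C.g ι) (fun a b => (C.η_smooth (ι a) (ι b)).mono (C.reg_sub ι))
    (fun _ hz => ac_ne hz) i j

lemma e_smooth (i : Fin n) (b : Fin N) : ContDiffOn ℝ ∞ (fun z => C.e ι z i b) (C.U ι) := 
  ContDiffOn.sum fun j _ => ((C.η_smooth b (ι j)).mono (C.reg_sub ι)).mul (C.h_smooth ι j i)

lemma S_smooth : ContDiffOn ℝ ∞ (C.S ι) (C.U ι) := by
  have h0 := C.ac_smooth ι
  have h1 : ContDiffOn ℝ ∞ (fun z => lapM (C.G z) (C.ac ι) z) C.W :=
    ContDiffOn.sum fun a _ => ContDiffOn.sum fun b _ =>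
      (C.G_smooth a b).mul (smooth_dz C.isOpen (smooth_dzb C.isOpen h0 b) a)
  have h2 : ContDiffOn ℝ ∞ (fun z => gamM (C.G z) (C.ac ι) (C.ac ι) z) C.W :=
    ContDiffOn.sum fun a _ => ContDiffOn.sum fun b _ =>
      ((C.G_smooth a b).mul (smooth_dz C.isOpen h0 a)).mul (smooth_dzb C.isOpen h0 b)
  have h3 := (((h0.mul h1).sub h2).mono (C.reg_sub ι)).mul
    (((h0.pow 2).mono (C.reg_sub ι)).inv fun z hz => pow_ne_zero 2 (ac_ne hz))
  refine (Complex.reCLM.contDiff.comp_contDiffOn h3).congr fun z _ => ?_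
  simp only [S, dlogM, div_eq_mul_inv, Function.comp_apply, Complex.reCLM_apply, Pi.inv_apply]

lemma X_hol (h : C.Hol n) (k : Fin n) (a : Fin N) :
    DifferentiableOn ℂ (fun z => C.X ι z k a) (C.U ι) := 
  DifferentiableOn.fun_sum fun b _ => ((C.π_hol a b).mono (C.reg_sub ι)).mul (h ι k b)

lemma A_hol (h : C.Hol n) (k m i : Fin n) :
    DifferentiableOn ℂ (fun z => C.A ι z k m i) (C.U ι) := 
  (DifferentiableOn.fun_sum fun c _ =>
    (C.X_hol ι h k c).mul (hol_dz (C.isOpen_U ι) (h ι m c) (ι i))).neg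

lemma V_hol (h : C.Hol n) : DifferentiableOn ℂ (C.V ι) (C.U ι ×ˢ univ) := by
  have hf : ∀ {f : E N → ℂ}, DifferentiableOn ℂ f (C.U ι) → DifferentiableOn ℂ
      (fun y : E N × (Fin n → Fin n → ℂ) => f y.1) (C.U ι ×ˢ univ) := fun hf =>
    hf.comp differentiableOn_fst fun y hy => hy.1
  have hm : ∀ q p, DifferentiableOn ℂ (fun y : E N × (Fin n → Fin n → ℂ) => y.2 q p)
      (C.U ι ×ˢ univ) := fun q p => by fun_prop
  refine DifferentiableOn.fun_sum fun q _ => ?_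
  refine ((ContinuousLinearMap.smulRightL ℂ (E n) (E N × (Fin n → Fin n → ℂ))
    (ContinuousLinearMap.proj q)).differentiable.comp_differentiableOn
      (DifferentiableOn.prodMk (differentiableOn_pi.2 fun a => ?_)
        (differentiableOn_pi.2 fun k => differentiableOn_pi.2 fun i => ?_)))
  · exact DifferentiableOn.fun_sum fun p _ => (hm q p).mul (hf (C.X_hol ι h p a))
  · exact (DifferentiableOn.fun_sum fun p _ => DifferentiableOn.fun_sum fun r _ =>
      ((hm q p).mul (hm k r)).mul (hf (C.A_hol ι h p r i))).neg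

lemma V_apply (y : E N × (Fin n → Fin n → ℂ)) (t : E n) : C.V ι y t =
    (fun a => ∑ q, ∑ p, t q * y.2 q p * C.X ι y.1 p a,
      fun k i => -∑ q, ∑ p, ∑ r, t q * y.2 q p * y.2 k r * C.A ι y.1 p r i) := by
  simp only [V, sum_apply, ContinuousLinearMap.smulRight_apply,
    ContinuousLinearMap.proj_apply]
  refine Prod.ext ?_ ?_
  · funext a
    simp only [Prod.fst_sum, Prod.smul_fst, Finset.sum_apply, Pi.smul_apply, smul_eq_mul,
      Finset.mul_sum, mul_assoc]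
  · funext k i
    simp only [Prod.snd_sum, Prod.smul_snd, Finset.sum_apply, Pi.smul_apply, smul_eq_mul,
      Finset.mul_sum, mul_assoc, mul_neg, Finset.sum_neg_distrib]

/-- Uniform bounds on a compact set. -/
lemma bounds {K : Set (E N)} (hK : IsCompact K) (hKW : K ⊆ C.W) : ∃ B : ℝ, 0 ≤ B ∧ ∀ z ∈ K,
    ∀ a b c, ‖C.π z a b‖ ≤ B ∧ ‖C.η z a b‖ ≤ B ∧ ‖C.G z a b‖ ≤ B ∧
      ‖dz c (fun w => C.π w a b) z‖ ≤ B := by
  have hc : ContinuousOn (fun z => fun x : Fin N × Fin N × Fin N =>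
      (C.π z x.1 x.2.1, C.η z x.1 x.2.1, C.G z x.1 x.2.1,
        dz x.2.2 (fun w => C.π w x.1 x.2.1) z)) K :=
    (continuousOn_pi.2 fun x => (C.reg_π _ _).continuousOn.prodMk
      ((C.η_smooth _ _).continuousOn.prodMk ((C.G_smooth _ _).continuousOn.prodMk
        (smooth_dz C.isOpen (C.reg_π _ _) _).continuousOn))).mono hKW
  obtain ⟨B, hB⟩ := hK.exists_bound_of_continuousOn hc
  refine ⟨max B 0, le_max_right _ _, fun z hz a b c => ?_⟩
  have h1 := (norm_le_pi_norm _ (a, b, c)).trans ((hB z hz).trans (le_max_left B 0))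
  simpa only [norm_prod_le_iff] using h1

end Chart

end Pool.Agent.SPF
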