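import Pool.Agent.P.MP_63735c_ag.SPExt1
import Pool.Agent.P.MP_63735c_ag.SPReg

/-! From the vanishing integral to pointwise isotropy. -/

open Set Filter Topology
open scoped ComplexOrder ContDiff Matrix

namespace Pool.Agent.SPF

open MeasureTheory

variable {N n : ℕ}

lemma ext2_swap (u v : Fin N ⊕ Fin N → ℂ) :
    (ExteriorAlgebra.ι ℂ u * ExteriorAlgebra.ι ℂ v : Ext N) =
      -(ExteriorAlgebra.ι ℂ v * ExteriorAlgebra.ι ℂ u) :=
  eq_neg_of_add_eq_zero_left (ExteriorAlgebra.ι_add_mul_swap u v)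

lemma ext2_comm (u w v : Fin N ⊕ Fin N → ℂ) :
    Commute (ExteriorAlgebra.ι ℂ v : Ext N) (ExteriorAlgebra.ι ℂ u * ExteriorAlgebra.ι ℂ w) := by
  unfold Commute SemiconjBy
  rw [← mul_assoc, ext2_swap v u, neg_mul, mul_assoc, ext2_swap v w, mul_neg, neg_neg, mul_assoc]

lemma ext2_comm20 (s : Matrix (Fin N) (Fin N) ℂ) (b : Fin N) : Commute (xb b) (form20 s) := by
  unfold form20
  refine Commute.smul_right (Commute.sum_right _ _ _ fun a _ =>
    Commute.sum_right _ _ _ fun c _ => Commute.smul_right ?_ _) _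
  exact ext2_comm _ _ _

lemma ext2_term (hN : N = 2 * n) (hn : 1 ≤ n) {s : Matrix (Fin N) (Fin N) ℂ} (hs : sᵀ = -s)
    (hd : s.det ≠ 0) (a b c d : Fin N) :
    xz a * xb b * (xz c * xb d) * form20 s ^ (n - 1) * form02 s ^ (n - 1) =
      (-(((n : ℂ) ^ 2)⁻¹ * (s⁻¹ a c * star (s⁻¹ b d)))) • (form20 s ^ n * form02 s ^ n) := by
  have hn0 : (n : ℂ) ≠ 0 := Nat.cast_ne_zero.2 (by omega)
  have hsk : ∀ i j, s⁻¹ i j = -s⁻¹ j i := by
    intro i j
    have h1 : (s⁻¹)ᵀ = -s⁻¹ := by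
      rw [Matrix.transpose_nonsing_inv, hs]
      refine Matrix.inv_eq_left_inv ?_
      rw [neg_mul_neg, Matrix.nonsing_inv_mul _ (isUnit_iff_ne_zero.2 hd)]
    exact congrFun (congrFun h1 j) i
  have e1 : xb b * xz c = -(xz c * xb b) := ext2_swap _ _
  have e2 : xb b * xb d * form20 s ^ (n - 1) = form20 s ^ (n - 1) * (xb b * xb d) :=
    (((ext2_comm20 s b).mul_left (ext2_comm20 s d)).pow_right _).eq
  have e3 : xz a * xb b * (xz c * xb d) * form20 s ^ (n - 1) * form02 s ^ (n - 1) =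
      -((xz a * xz c * form20 s ^ (n - 1)) * (xb b * xb d * form02 s ^ (n - 1))) := by
    calc xz a * xb b * (xz c * xb d) * form20 s ^ (n - 1) * form02 s ^ (n - 1)
        = xz a * (xb b * xz c) * xb d * form20 s ^ (n - 1) * form02 s ^ (n - 1) := by
          simp only [mul_assoc]
      _ = -(xz a * xz c * (xb b * xb d * form20 s ^ (n - 1)) * form02 s ^ (n - 1)) := by
          rw [e1]
          simp only [mul_neg, neg_mul, mul_assoc]
      _ = _ := by
          rw [e2]
          simp only [mul_assoc]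
  have f1 : xz a * xz c * form20 s ^ (n - 1) = ((n : ℂ)⁻¹ * s⁻¹ c a) • form20 s ^ n := by
    rw [mul_smul, ← xz_xz hN hn hs hd, inv_smul_smul₀ hn0]
  have f2 : xb b * xb d * form02 s ^ (n - 1) = ((n : ℂ)⁻¹ * star (s⁻¹ d b)) • form02 s ^ n := by
    rw [mul_smul, ← xb_xb hN hn hs hd, inv_smul_smul₀ hn0]
  rw [e3, f1, f2, smul_mul_smul_comm, ← neg_smul, hsk c a, hsk d b, star_neg]
  congr 1
  ring

lemma density_eq (hN : N = 2 * n) (hn : 1 ≤ n) {s : Matrix (Fin N) (Fin N) ℂ} (hs : sᵀ = -s)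
    (hd : s.det ≠ 0) (h : Matrix (Fin N) (Fin N) ℂ) :
    form11 h ^ 2 * form20 s ^ (n - 1) * form02 s ^ (n - 1) =
      (((n : ℂ) ^ 2)⁻¹ * ∑ a, ∑ b, ∑ c, ∑ d, h a b * h c d * s⁻¹ a c * star (s⁻¹ b d)) •
        (form20 s ^ n * form02 s ^ n) := by
  have e : form11 h ^ 2 =
      ∑ a, ∑ b, ∑ c, ∑ d, (-(h a b * h c d)) • (xz a * xb b * (xz c * xb d)) := by
    rw [sq, form11, smul_mul_smul_comm, Complex.I_mul_I, Finset.sum_mul, Finset.smul_sum]
    refine Finset.sum_congr rfl fun a _ => ?_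
    rw [Finset.sum_mul, Finset.smul_sum]
    refine Finset.sum_congr rfl fun b _ => ?_
    rw [Finset.mul_sum, Finset.smul_sum]
    refine Finset.sum_congr rfl fun c _ => ?_
    rw [Finset.mul_sum, Finset.smul_sum]
    refine Finset.sum_congr rfl fun d _ => ?_
    rw [smul_mul_smul_comm, smul_smul, neg_one_mul]
  rw [e]
  simp only [Finset.sum_mul, Finset.mul_sum, Finset.sum_smul, smul_mul_assoc]
  refine Finset.sum_congr rfl fun a _ => Finset.sum_congr rfl fun b _ =>
    Finset.sum_congr rfl fun c _ => Finset.sum_congr rfl fun d _ => ?_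
  rw [ext2_term hN hn hs hd, smul_smul]
  congr 1
  ring

/-- The contracted form. -/
noncomputable def ext2_T (C : Chart N) (z : E N) : ℂ :=
  ∑ a, ∑ b, ∑ c, ∑ d, C.η z a b * C.η z c d * C.π z a c * star (C.π z b d)

lemma ext2_T_eq (C : Chart N) (z : E N) : ext2_T C z =
    star (fun q : Fin N × Fin N => star (C.π z q.1 q.2)) ⬝ᵥ
      (Matrix.kroneckerMap (· * ·) (C.η z) (C.η z)) *ᵥ
        (fun q : Fin N × Fin N => star (C.π z q.1 q.2)) := by
  simp only [ext2_T, dotProduct, Matrix.mulVec, Fintype.sum_prod_type, Pi.star_apply, star_star,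
    Matrix.kroneckerMap_apply, Finset.mul_sum]
  refine Finset.sum_congr rfl fun a _ => ?_
  rw [Finset.sum_comm]
  refine Finset.sum_congr rfl fun c _ => Finset.sum_congr rfl fun b _ =>
    Finset.sum_congr rfl fun d _ => ?_
  ring

lemma ext2_T_cont (C : Chart N) : ContinuousOn (ext2_T C) C.W := by
  unfold ext2_T
  refine continuousOn_finsetSum _ fun a _ => continuousOn_finsetSum _ fun b _ =>
    continuousOn_finsetSum _ fun c _ => continuousOn_finsetSum _ fun d _ => ?_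
  exact (((C.η_smooth a b).continuousOn.mul (C.η_smooth c d).continuousOn).mul
    (C.π_hol a c).continuousOn).mul (C.π_hol b d).continuousOn.star

lemma ext2_iso (C : Chart N) {z : E N} (hz : z ∈ C.W) (h : ext2_T C z = 0) :
    (C.η z)ᵀ * C.π z * C.η z = 0 := by
  have hp := C.η_psd z hz
  rw [ext2_T_eq] at h
  have h1 := ((hp.kronecker hp).dotProduct_mulVec_zero_iff _).1 h
  ext a c
  have h2 := congrFun h1 (a, c)
  simp only [dotProduct, Matrix.mulVec, Fintype.sum_prod_type, Matrix.kroneckerMap_apply,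
    Pi.zero_apply] at h2
  have h3 := congrArg star h2
  simp only [star_sum, star_mul', star_star, star_zero, hp.1.apply] at h3
  simp only [Matrix.mul_apply, Matrix.transpose_apply, Finset.sum_mul, Matrix.zero_apply]
  rw [Finset.sum_comm, ← h3]
  refine Finset.sum_congr rfl fun b _ => Finset.sum_congr rfl fun d _ => ?_
  ring

theorem Atlas.iso_of_integral (hN : N = 2 * n) (hn : 1 ≤ n) {X : Type} [TopologicalSpace X]
    [CompactSpace X] [MeasurableSpace X] [BorelSpace X] (A : Atlas X N) (μ : Measure X)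
    [IsFiniteMeasure μ] [μ.IsOpenPosMeasure] (F : X → ℝ) (hF : IsDensity n A F)
    (h0 : ∫ x, F x ∂μ = 0) (i : A.ι) : (A.C i).Iso := by
  have hn0 : (n : ℂ) ≠ 0 := Nat.cast_ne_zero.2 (by omega)
  have hv : ∀ j, ∀ z ∈ (A.C j).W, (F (A.p j z) : ℂ) = ((n : ℂ) ^ 2)⁻¹ * ext2_T (A.C j) z := by
    intro j z hz
    have h1 := hF j z hz
    rw [density_eq hN hn ((A.C j).σ_skew z hz) ((A.C j).σ_det z hz)] at h1
    exact (smul_left_injective ℂ
      (top_ne_zero hN ((A.C j).σ_skew z hz) ((A.C j).σ_det z hz)) h1).symm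
  have hc : Continuous F := by
    refine continuous_def.2 fun U hU => isOpen_iff_forall_mem_open.2 fun x hx => ?_
    obtain ⟨j, z, hz, rfl⟩ := A.cover x
    have h1 : ContinuousOn (fun w => F (A.p j w)) (A.C j).W :=
      (Complex.continuous_re.comp_continuousOn
        (continuousOn_const.mul (ext2_T_cont (A.C j)))).congr fun w hw => by
          show F (A.p j w) = (((n : ℂ) ^ 2)⁻¹ * ext2_T (A.C j) w).re
          rw [← hv j w hw, Complex.ofReal_re]
    refine ⟨A.p j '' ((A.C j).W ∩ (fun w => F (A.p j w)) ⁻¹' U), ?_,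
      A.opn j _ (h1.isOpen_inter_preimage (A.C j).isOpen hU) inter_subset_left,
      ⟨z, ⟨hz, hx⟩, rfl⟩⟩
    rintro _ ⟨w, hw, rfl⟩
    exact hw.2
  have hpos : ∀ x, 0 ≤ F x := by
    intro x
    obtain ⟨j, z, hz, rfl⟩ := A.cover x
    have hp := (A.C j).η_psd z hz
    have h1 : 0 ≤ ext2_T (A.C j) z := by
      rw [ext2_T_eq]
      exact (hp.kronecker hp).dotProduct_mulVec_nonneg _
    have h2 : (0 : ℂ) ≤ ((n : ℂ) ^ 2)⁻¹ := by
      have : (0 : ℝ) ≤ ((n : ℝ) ^ 2)⁻¹ := by positivity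
      have h4 := Complex.zero_le_real.2 this
      rwa [Complex.ofReal_inv, Complex.ofReal_pow, Complex.ofReal_natCast] at h4
    have h3 := mul_nonneg h2 h1
    rw [← hv j z hz] at h3
    exact_mod_cast h3
  have hint : Integrable F μ :=
    (BoundedContinuousFunction.mkOfCompact ⟨F, hc⟩).integrable μ
  have hz0 : F = 0 :=
    (hc.ae_eq_iff_eq μ continuous_zero).1 ((integral_eq_zero_iff_of_nonneg hpos hint).1 h0)
  intro z hz
  refine ext2_iso _ hz ?_
  have h1 := hv i z hz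
  rw [hz0] at h1
  simp only [Pi.zero_apply, Complex.ofReal_zero] at h1
  exact (mul_eq_zero.1 h1.symm).resolve_left (inv_ne_zero (pow_ne_zero _ hn0))

end Pool.Agent.SPF
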