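import Pool.Agent.P.MP_63735c_ag.SPSm

/-! Identity theorem for maps with local holomorphic lifts, and an abstract continuation lemma. -/

open Set Filter Topology
open scoped ComplexOrder ContDiff Matrix

namespace Pool.Agent.SPF

variable {N n : ℕ}

lemma spident_scv {F : Type} [NormedAddCommGroup F] [NormedSpace ℂ F] [CompleteSpace F]
    {B : Set (E n)} (hB : IsOpen B) (hc : Convex ℝ B) {f g : E n → F}
    (hf : DifferentiableOn ℂ f B) (hg : DifferentiableOn ℂ g B) {a : E n} (ha : a ∈ B)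
    (h : f =ᶠ[𝓝 a] g) : EqOn f g B := by
  intro b hb
  set l : ℂ → E n := fun τ => a + τ • (b - a) with hl
  have hld : Differentiable ℂ l := by rw [hl]; fun_prop
  have hU : IsOpen (l ⁻¹' B) := hB.preimage hld.continuous
  have hUc : Convex ℝ (l ⁻¹' B) := by
    intro x hx y hy u v hu hv huv
    have := hc hx hy hu hv huv
    have e : l (u • x + v • y) = u • l x + v • l y := by
      have h1 : a = u • a + v • a := by rw [← add_smul, huv, one_smul]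
      simp only [hl, add_smul, smul_add, smul_assoc]
      conv_lhs => rw [h1]
      rw [← h1]
      conv_lhs => enter [1]; rw [h1]
      abel
    show l _ ∈ B
    rw [e]; exact this
  have h0 : l 0 = a := by simp [hl]
  have h1 : l 1 = b := by simp [hl]
  have hf' : AnalyticOnNhd ℂ (f ∘ l) (l ⁻¹' B) :=
    (hf.comp hld.differentiableOn fun _ hx => hx).analyticOnNhd hU
  have hg' : AnalyticOnNhd ℂ (g ∘ l) (l ⁻¹' B) :=
    (hg.comp hld.differentiableOn fun _ hx => hx).analyticOnNhd hU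
  have he : f ∘ l =ᶠ[𝓝 0] g ∘ l := by
    have ht : Tendsto l (𝓝 0) (𝓝 a) := h0 ▸ hld.continuous.tendsto 0
    exact ht.eventually h
  have := hf'.eqOn_of_preconnected_of_eventuallyEq hg' hUc.isPreconnected
    (show (0 : ℂ) ∈ l ⁻¹' B by simpa [h0] using ha) he
    (show (1 : ℂ) ∈ l ⁻¹' B by simpa [h1] using hb)
  simpa [h1] using this

lemma spident_fin {Y Z κ : Type} [TopologicalSpace Y] [TopologicalSpace Z] [T2Space Z]
    {T : Set κ} (hT : T.Finite) (u : κ → Y → Z) (v : Y → Z) :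
    ∀ V : Set Y, IsOpen V → V.Nonempty → (∀ k ∈ T, ContinuousOn (u k) V) → ContinuousOn v V →
      (∀ s ∈ V, ∃ k ∈ T, u k s = v s) → ∃ k ∈ T, ∃ s ∈ V, u k =ᶠ[𝓝 s] v := by
  induction T, hT using Set.Finite.induction_on with
  | empty =>
    rintro V - ⟨s, hs⟩ - - h
    obtain ⟨k, hk, -⟩ := h s hs
    exact hk.elim
  | @insert k T _ _ ih =>
    intro V hV hne hu hv h
    by_cases hk : ∀ s ∈ V, u k s = v s
    · obtain ⟨s, hs⟩ := hne
      exact ⟨k, mem_insert _ _, s, hs, Filter.mem_of_superset (hV.mem_nhds hs) hk⟩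
    · push Not at hk
      obtain ⟨s, hs, hne'⟩ := hk
      have ho : IsOpen (V ∩ (fun y => (u k y, v y)) ⁻¹' (diagonal Z)ᶜ) :=
        ((hu k (mem_insert _ _)).prodMk hv).isOpen_inter_preimage hV isClosed_diagonal.isOpen_compl
      obtain ⟨k', hk', s', hs', he⟩ := ih _ ho ⟨s, hs, hne'⟩
        (fun k' hk' => (hu k' (mem_insert_of_mem _ hk')).mono inter_subset_left)
        (hv.mono inter_subset_left) (by
          rintro y ⟨hy, hy'⟩
          obtain ⟨k', hk', e⟩ := h y hy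
          rcases hk' with rfl | hk'
          · exact (hy' e).elim
          · exact ⟨k', hk', e⟩)
      exact ⟨k', mem_insert_of_mem _ hk', s', hs'.1, he⟩

lemma spident_cont {X : Type} [TopologicalSpace X] (A : Atlas X N) {Φ : E n → X} {t : E n}
    (h : A.Lift Φ t) : ContinuousAt Φ t := by
  obtain ⟨i, f, hf⟩ := h
  obtain ⟨h1, h2, -⟩ := hf.self_of_nhds
  have := ((A.cont i).continuousAt ((A.C i).isOpen.mem_nhds h1)).comp h2.continuousAt
  exact this.congr (hf.mono fun s hs => hs.2.2)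

theorem Atlas.lift_ident {X : Type} [TopologicalSpace X] [T2Space X] (A : Atlas X N)
    {Ω : Set (E n)} (hΩ : IsOpen Ω) (hc : IsPreconnected Ω) {Φ Ψ : E n → X}
    (hΦ : ∀ t ∈ Ω, A.Lift Φ t) (hΨ : ∀ t ∈ Ω, A.Lift Ψ t) {t₀ : E n} (ht : t₀ ∈ Ω)
    (h : Φ =ᶠ[𝓝 t₀] Ψ) : EqOn Φ Ψ Ω := by
  have hZ : IsOpen {t | Φ =ᶠ[𝓝 t] Ψ} := isOpen_setOfPred_eventually_nhds
  have key : Ω ⊆ {t | Φ =ᶠ[𝓝 t] Ψ} := by
    refine hc.subset_of_closure_inter_subset hZ ⟨t₀, ht, h⟩ ?_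
    rintro t ⟨hcl, htΩ⟩
    have hfr : ∃ᶠ s in 𝓝 t, Φ s = Ψ s :=
      (mem_closure_iff_frequently.1 hcl).mono fun s hs => Filter.EventuallyEq.eq_of_nhds hs
    have heq : Φ t = Ψ t := tendsto_nhds_unique_of_frequently_eq
      (spident_cont A (hΦ t htΩ)) (spident_cont A (hΨ t htΩ)) hfr
    obtain ⟨i, f₁, h₁⟩ := hΦ t htΩ
    obtain ⟨j, f₂, h₂⟩ := hΨ t htΩ
    obtain ⟨a1, a2, a3⟩ := h₁.self_of_nhds
    obtain ⟨b1, b2, b3⟩ := h₂.self_of_nhds
    obtain ⟨O, φ, hφ, hO, -, hp⟩ := A.trans i j _ a1 _ b1 (by rw [a3, b3, heq])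
    have hev : ∀ᶠ s in 𝓝 t, f₁ s ∈ O := a2.continuousAt.eventually (hφ.isOpen.mem_nhds hO)
    obtain ⟨r, hr, hB⟩ := Metric.eventually_nhds_iff_ball.1 ((h₁.and h₂).and hev)
    have hd₁ : DifferentiableOn ℂ (φ ∘ f₁) (Metric.ball t r) :=
      hφ.hol.comp (fun s hs => (hB s hs).1.1.2.1.differentiableWithinAt) fun s hs => (hB s hs).2
    have hd₂ : DifferentiableOn ℂ f₂ (Metric.ball t r) :=
      fun s hs => (hB s hs).1.2.2.1.differentiableWithinAt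
    have hm : MapsTo (φ ∘ f₁) (Metric.ball t r) (A.C j).W := fun s hs => hφ.maps (hB s hs).2
    have hdg : ∀ g ∈ A.G j, DifferentiableOn ℂ (g ∘ φ ∘ f₁) (Metric.ball t r) :=
      fun g hg => (A.G_iso j g hg).1.hol.comp hd₁ hm
    have hΦ' : ∀ s ∈ Metric.ball t r, A.p j (φ (f₁ s)) = Φ s := fun s hs => by
      rw [hp _ (hB s hs).2, (hB s hs).1.1.2.2]
    obtain ⟨g, hg, s, hs, he⟩ := spident_fin (A.G_fin j) (fun g => g ∘ φ ∘ f₁) f₂
      (Metric.ball t r ∩ {t | Φ =ᶠ[𝓝 t] Ψ}) (Metric.isOpen_ball.inter hZ)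
      (mem_closure_iff.1 hcl _ Metric.isOpen_ball (Metric.mem_ball_self hr))
      (fun g hg => (hdg g hg).continuousOn.mono inter_subset_left)
      (hd₂.continuousOn.mono inter_subset_left) (by
        rintro s ⟨hs, hs'⟩
        refine A.G_fib j _ (hm hs) _ (hB s hs).1.2.1 ?_
        rw [(hB s hs).1.2.2.2, ← Filter.EventuallyEq.eq_of_nhds hs']
        exact hΦ' s hs)
    have hall := spident_scv Metric.isOpen_ball (convex_ball t r) (hdg g hg) hd₂ hs.1 he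
    refine Filter.mem_of_superset (Metric.ball_mem_nhds t hr) fun s hs => ?_
    show Φ s = Ψ s
    rw [← hΦ' s hs, ← (hB s hs).1.2.2.2, ← hall hs]
    exact ((A.G_iso j g hg).2 _ (hm hs)).symm
  exact fun t ht => Filter.EventuallyEq.eq_of_nhds (key ht)

lemma spident_step {F X : Type} [NormedAddCommGroup F] [NormedSpace ℝ F]
    (P : (F → X) → F → Prop)
    (germ : ∀ Φ Ψ t, Φ =ᶠ[𝓝 t] Ψ → P Φ t → P Ψ t)
    (ident : ∀ (Ω : Set F) Φ Ψ t₀, IsOpen Ω → Convex ℝ Ω → (∀ t ∈ Ω, P Φ t) → (∀ t ∈ Ω, P Ψ t) →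
      t₀ ∈ Ω → Φ =ᶠ[𝓝 t₀] Ψ → EqOn Φ Ψ Ω)
    {r δ : ℝ} (hr : 0 < r) (hδ : 0 < δ) {Φ : F → X} (hΦ : ∀ t ∈ Metric.ball (0 : F) r, P Φ t)
    (hext : ∀ t ∈ Metric.ball (0 : F) r, ∃ Ψ, (∀ s ∈ Metric.ball t δ, P Ψ s) ∧ Ψ =ᶠ[𝓝 t] Φ) :
    ∃ Φ', Φ' =ᶠ[𝓝 0] Φ ∧ ∀ t ∈ Metric.ball (0 : F) (r + δ), P Φ' t := by
  classical
  have : Nonempty (F → X) := ⟨Φ⟩
  choose! Ψ hP hE using hext
  have h1 : ∀ t ∈ Metric.ball (0 : F) r,
      EqOn (Ψ t) Φ (Metric.ball t δ ∩ Metric.ball (0 : F) r) := fun t ht =>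
    ident _ _ _ t (Metric.isOpen_ball.inter Metric.isOpen_ball)
      ((convex_ball _ _).inter (convex_ball _ _)) (fun s hs => hP t ht s hs.1)
      (fun s hs => hΦ s hs.2) ⟨Metric.mem_ball_self hδ, ht⟩ (hE t ht)
  have h2 : ∀ t ∈ Metric.ball (0 : F) r, ∀ u ∈ Metric.ball (0 : F) r,
      EqOn (Ψ t) (Ψ u) (Metric.ball t δ ∩ Metric.ball u δ) := by
    intro t ht u hu s hs
    have hd : dist t u < δ + δ := by
      have a1 := Metric.mem_ball'.1 hs.1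
      have a2 := Metric.mem_ball.1 hs.2
      linarith [dist_triangle t s u]
    have m1 : midpoint ℝ t u ∈ Metric.ball t δ := by
      rw [Metric.mem_ball, dist_midpoint_left]
      norm_num
      linarith
    have m2 : midpoint ℝ t u ∈ Metric.ball u δ := by
      rw [Metric.mem_ball, dist_midpoint_right]
      norm_num
      linarith
    have m3 : midpoint ℝ t u ∈ Metric.ball (0 : F) r :=
      (convex_ball (0 : F) r).segment_subset ht hu (midpoint_mem_segment t u)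
    refine ident _ _ _ (midpoint ℝ t u) (Metric.isOpen_ball.inter Metric.isOpen_ball)
      ((convex_ball _ _).inter (convex_ball _ _)) (fun s hs => hP t ht s hs.1)
      (fun s hs => hP u hu s hs.2) ⟨m1, m2⟩ ?_ hs
    filter_upwards [Metric.isOpen_ball.mem_nhds m1, Metric.isOpen_ball.mem_nhds m2,
      Metric.isOpen_ball.mem_nhds m3] with y y1 y2 y3
    rw [h1 t ht ⟨y1, y3⟩, h1 u hu ⟨y2, y3⟩]
  set Φ' : F → X := fun s =>
    if h : ∃ t ∈ Metric.ball (0 : F) r, s ∈ Metric.ball t δ then Ψ h.choose s else Φ s with hΦ'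
  have h3 : ∀ t ∈ Metric.ball (0 : F) r, EqOn Φ' (Ψ t) (Metric.ball t δ) := by
    intro t ht s hs
    have h : ∃ t ∈ Metric.ball (0 : F) r, s ∈ Metric.ball t δ := ⟨t, ht, hs⟩
    simp only [hΦ', dif_pos h]
    exact h2 _ h.choose_spec.1 t ht ⟨h.choose_spec.2, hs⟩
  refine ⟨Φ', ?_, fun s hs => ?_⟩
  · have h0 : (0 : F) ∈ Metric.ball (0 : F) r := Metric.mem_ball_self hr
    exact ((h3 0 h0).eventuallyEq_of_mem (Metric.ball_mem_nhds _ hδ)).trans (hE 0 h0)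
  · obtain ⟨t, a1, a2⟩ := exists_dist_lt_lt hδ hr (Metric.mem_ball.1 hs)
    have a1' : s ∈ Metric.ball t δ := a1
    exact germ _ _ _ ((h3 t a2).eventuallyEq_of_mem (Metric.isOpen_ball.mem_nhds a1')).symm
      (hP t a2 s a1')

theorem continuation {F X : Type} [NormedAddCommGroup F] [NormedSpace ℝ F]
    (P : (F → X) → F → Prop)
    (germ : ∀ Φ Ψ t, Φ =ᶠ[𝓝 t] Ψ → P Φ t → P Ψ t)
    (ident : ∀ (Ω : Set F) Φ Ψ t₀, IsOpen Ω → Convex ℝ Ω → (∀ t ∈ Ω, P Φ t) → (∀ t ∈ Ω, P Ψ t) →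
      t₀ ∈ Ω → Φ =ᶠ[𝓝 t₀] Ψ → EqOn Φ Ψ Ω)
    (Φ₀ : F → X) (h0 : ∀ᶠ t in 𝓝 0, P Φ₀ t)
    (ext : ∀ R : ℝ, ∃ δ : ℝ, 0 < δ ∧ ∀ r ≤ R, ∀ Φ, Φ 0 = Φ₀ 0 → (∀ t ∈ Metric.ball (0 : F) r, P Φ t) →
      ∀ t ∈ Metric.ball (0 : F) r, ∃ Ψ, (∀ s ∈ Metric.ball t δ, P Ψ s) ∧ Ψ =ᶠ[𝓝 t] Φ) :
    ∃ Φ, Φ 0 = Φ₀ 0 ∧ ∀ t, P Φ t := by
  obtain ⟨r₀, hr₀, hB⟩ := Metric.eventually_nhds_iff_ball.1 h0
  have big : ∀ R : ℝ, ∃ Φ, Φ =ᶠ[𝓝 0] Φ₀ ∧ ∀ t ∈ Metric.ball (0 : F) R, P Φ t := by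
    intro R
    obtain ⟨δ, hδ, hx⟩ := ext R
    have it : ∀ k : ℕ, ∃ Φ, ∃ r, 0 < r ∧ Φ =ᶠ[𝓝 0] Φ₀ ∧ (∀ t ∈ Metric.ball (0 : F) r, P Φ t) ∧
        (R ≤ r ∨ k * δ ≤ r) := by
      intro k
      induction k with
      | zero => exact ⟨Φ₀, r₀, hr₀, EventuallyEq.rfl, hB, Or.inr (by simpa using hr₀.le)⟩
      | succ k ih =>
        obtain ⟨Φ, r, hr, he, hP, hk⟩ := ih
        by_cases hR : R ≤ r
        · exact ⟨Φ, r, hr, he, hP, Or.inl hR⟩
        · obtain ⟨Φ', he', hP'⟩ := spident_step P germ ident hr hδ hP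
            (hx r (not_le.1 hR).le Φ he.eq_of_nhds hP)
          refine ⟨Φ', r + δ, by linarith, he'.trans he, hP', Or.inr ?_⟩
          have := hk.resolve_left hR
          push_cast
          linarith
    obtain ⟨k, hk⟩ := exists_nat_ge (R / δ)
    obtain ⟨Φ, r, -, he, hP, hr⟩ := it k
    have hR : R ≤ r := hr.elim id fun h => ((div_le_iff₀ hδ).1 hk).trans h
    exact ⟨Φ, he, fun t ht => hP t (Metric.ball_subset_ball hR ht)⟩
  choose Θ hE hP using big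
  have agree : ∀ R R' : ℝ, 0 < R → 0 < R' →
      EqOn (Θ R) (Θ R') (Metric.ball (0 : F) R ∩ Metric.ball (0 : F) R') := fun R R' a b =>
    ident _ _ _ 0 (Metric.isOpen_ball.inter Metric.isOpen_ball)
      ((convex_ball _ _).inter (convex_ball _ _)) (fun s hs => hP R s hs.1)
      (fun s hs => hP R' s hs.2) ⟨Metric.mem_ball_self a, Metric.mem_ball_self b⟩
      ((hE R).trans (hE R').symm)
  have hm : ∀ t : F, t ∈ Metric.ball (0 : F) (‖t‖ + 1) := fun t => by simp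
  refine ⟨fun t => Θ (‖t‖ + 1) t, (hE _).eq_of_nhds, fun t => ?_⟩
  refine germ (Θ (‖t‖ + 1)) _ t ?_ (hP _ t (hm t))
  filter_upwards [Metric.isOpen_ball.mem_nhds (hm t)] with s hs
  exact agree _ _ (by positivity) (by positivity) ⟨hs, hm s⟩

end Pool.Agent.SPF
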