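import Pool.Agent.P.MP_63735c_ag.SPAlg

/-! The Bochner formula of Lu. -/

open scoped Matrix

namespace Pool.Agent.SPF

variable {R : Type} [CommRing R] [StarRing R] [Algebra ℂ R] {α κ : Type} [Fintype α] [Fintype κ]
  [DecidableEq α] [DecidableEq κ]

/-- The tensor `w` with its three slots lowered. -/
def a3_low (g : Matrix κ κ R) (w : κ → κ → κ → R) (m j q : κ) : R :=
  ∑ m', ∑ j', ∑ q', star (w m' j' q') * g m m' * g j j' * g q q'

omit [Algebra ℂ R] [DecidableEq κ] in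
lemma a3_ip3_eq (g : Matrix κ κ R) (v w : κ → κ → κ → R) :
    ip3 g v w = ∑ m, ∑ j, ∑ q, v m j q * a3_low g w m j q := by
  simp only [ip3, a3_low, Finset.mul_sum, mul_assoc]

omit [StarRing R] [Algebra ℂ R] [DecidableEq κ] in
lemma a3_comm4 (f : κ → κ → κ → κ → R) :
    ∑ a, ∑ x, ∑ y, ∑ z, f a x y z = ∑ x, ∑ y, ∑ z, ∑ a, f a x y z := by
  rw [Finset.sum_comm]
  refine Finset.sum_congr rfl fun x _ => ?_
  rw [Finset.sum_comm]
  refine Finset.sum_congr rfl fun y _ => ?_
  rw [Finset.sum_comm]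

omit [StarRing R] [Algebra ℂ R] [DecidableEq κ] in
lemma a3_comm6 (f : κ → κ → κ → κ → κ → κ → R) :
    ∑ a, ∑ b, ∑ c, ∑ x, ∑ y, ∑ z, f a b c x y z =
      ∑ x, ∑ y, ∑ z, ∑ a, ∑ b, ∑ c, f a b c x y z := by
  have h1 : ∀ a b, ∑ c, ∑ x, ∑ y, ∑ z, f a b c x y z = ∑ x, ∑ y, ∑ z, ∑ c, f a b c x y z :=
    fun a b => a3_comm4 _
  simp only [h1]
  have h2 : ∀ a, ∑ b, ∑ x, ∑ y, ∑ z, ∑ c, f a b c x y z =
      ∑ x, ∑ y, ∑ z, ∑ b, ∑ c, f a b c x y z := fun a => a3_comm4 _
  simp only [h2]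
  exact a3_comm4 _

omit [Algebra ℂ R] [DecidableEq κ] in
lemma a3_star_ip3 (g : Matrix κ κ R) (hg : ∀ i j, star (g i j) = g j i)
    (v w : κ → κ → κ → R) : star (ip3 g v w) = ip3 g w v := by
  simp only [ip3, star_sum, star_mul', star_star, hg]
  rw [a3_comm6]
  refine Finset.sum_congr rfl fun m _ => Finset.sum_congr rfl fun j _ =>
    Finset.sum_congr rfl fun q _ => Finset.sum_congr rfl fun m' _ =>
    Finset.sum_congr rfl fun j' _ => Finset.sum_congr rfl fun q' _ => ?_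
  ring

omit [Algebra ℂ R] [DecidableEq κ] in
lemma a3_low12 (g : Matrix κ κ R) (w : κ → κ → κ → R) (hw : ∀ k i p, w k i p = w i k p)
    (m j q : κ) : a3_low g w m j q = a3_low g w j m q := by
  unfold a3_low
  rw [Finset.sum_comm]
  refine Finset.sum_congr rfl fun m' _ => Finset.sum_congr rfl fun j' _ =>
    Finset.sum_congr rfl fun q' _ => ?_
  rw [hw j' m' q']
  ring

omit [Algebra ℂ R] [DecidableEq κ] in
lemma a3_low23 (g : Matrix κ κ R) (w : κ → κ → κ → R) (hw : ∀ k i p, w k i p = w k p i)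
    (m j q : κ) : a3_low g w m j q = a3_low g w m q j := by
  unfold a3_low
  refine Finset.sum_congr rfl fun m' _ => ?_
  rw [Finset.sum_comm]
  refine Finset.sum_congr rfl fun j' _ => Finset.sum_congr rfl fun q' _ => ?_
  rw [hw m' q' j']
  ring

omit [StarRing R] [Algebra ℂ R] [DecidableEq κ] in
lemma a3_pull (C : κ → R) (u : κ → κ → κ → R) (F : κ → κ → R) :
    ∑ j, ∑ q, (∑ i, C i * u i j q) * F j q = ∑ i, C i * ∑ j, ∑ q, u i j q * F j q := by
  simp only [Finset.mul_sum, Finset.sum_mul]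
  have e : ∀ j, ∑ q, ∑ i, C i * u i j q * F j q = ∑ i, ∑ q, C i * u i j q * F j q :=
    fun j => Finset.sum_comm
  simp only [e]
  rw [Finset.sum_comm]
  simp only [mul_assoc]

omit [StarRing R] [Algebra ℂ R] [DecidableEq κ] in
lemma a3_pull2 (g : κ → κ → R) (B : κ → κ → κ → R) (u : κ → R) :
    ∑ k, ∑ l, g k l * ∑ i, B k l i * u i = ∑ i, (∑ k, ∑ l, g k l * B k l i) * u i := by
  simp only [Finset.mul_sum, Finset.sum_mul]
  have e : ∀ k, ∑ l, ∑ i, g k l * (B k l i * u i) = ∑ i, ∑ l, g k l * (B k l i * u i) :=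
    fun j => Finset.sum_comm
  simp only [e]
  rw [Finset.sum_comm]
  simp only [mul_assoc]

omit [StarRing R] [Algebra ℂ R] [DecidableEq κ] in
lemma a3_pull3 (g : κ → κ → R) (v : κ → κ → κ → κ → κ → R) (F : κ → κ → κ → R) :
    ∑ k, ∑ l, g k l * ∑ m, ∑ j, ∑ q, v k l m j q * F m j q =
      ∑ m, ∑ j, ∑ q, (∑ k, ∑ l, g k l * v k l m j q) * F m j q := by
  simp only [Finset.mul_sum, Finset.sum_mul]
  have e : ∀ k, ∑ l, ∑ m, ∑ j, ∑ q, g k l * (v k l m j q * F m j q) =
      ∑ m, ∑ j, ∑ q, ∑ l, g k l * (v k l m j q * F m j q) := fun k => a3_comm4 _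
  simp only [e]
  rw [a3_comm4]
  simp only [mul_assoc]

omit [StarRing R] [DecidableEq κ] in
lemma a3_der_prod (D : Derivation ℂ R R) {β : Type} [DecidableEq β] (s : Finset β) (f : β → R) :
    D (∏ i ∈ s, f i) = ∑ i ∈ s, D (f i) * ∏ j ∈ s.erase i, f j := by
  induction s using Finset.induction_on with
  | empty => simp
  | insert b s hb ih =>
    rw [Finset.prod_insert hb, Finset.sum_insert hb, Derivation.leibniz, ih, Finset.erase_insert hb,
      smul_eq_mul, smul_eq_mul, Finset.mul_sum, add_comm, mul_comm (∏ i ∈ s, f i)]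
    congr 1
    refine Finset.sum_congr rfl fun i hi => ?_
    have hbi : b ≠ i := fun h => hb (h ▸ hi)
    rw [Finset.erase_insert_of_ne hbi, Finset.prod_insert (fun h => hb (Finset.mem_of_mem_erase h))]
    ring

omit [StarRing R] in
lemma a3_der_det (D : Derivation ℂ R R) (g : Matrix κ κ R) :
    D g.det = ∑ i, (g.updateRow i fun j => D (g i j)).det := by
  have h1 : ∀ M : Matrix κ κ R,
      M.det = ∑ σ : Equiv.Perm κ, ((Equiv.Perm.sign σ : ℤ) : R) * ∏ i, M i (σ i) := by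
    intro M
    rw [← Matrix.det_transpose, Matrix.det_apply']
    rfl
  simp only [h1, map_sum]
  rw [Finset.sum_comm]
  refine Finset.sum_congr rfl fun σ _ => ?_
  rw [Derivation.leibniz, Derivation.map_intCast, smul_zero, add_zero, smul_eq_mul, a3_der_prod,
    Finset.mul_sum]
  refine Finset.sum_congr rfl fun i _ => ?_
  congr 1
  rw [← Finset.mul_prod_erase _ _ (Finset.mem_univ i), Matrix.updateRow_self]
  congr 1
  refine Finset.prod_congr rfl fun j hj => ?_
  rw [Matrix.updateRow_ne (Finset.ne_of_mem_erase hj)]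

namespace Leaf

variable (L : Leaf R κ)

omit [DecidableEq κ] in
lemma a3_X_star (k : κ) (f : R) : L.X k (star f) = star (L.Xb k f) := by
  have h := L.star_X k (star f)
  rw [star_star] at h
  rw [← h, star_star]

/-- Covariant derivative of an arbitrary tensor. -/
def a3_nab (v : κ → κ → κ → R) (k m j q : κ) : R :=
  L.X k (v m j q) - ∑ i, L.A k m i * v i j q - ∑ i, L.A k j i * v m i q -
    ∑ i, L.A k q i * v m j i

omit [DecidableEq κ] in
lemma a3_X_low (w : κ → κ → κ → R) (k m j q : κ) :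
    L.X k (a3_low L.g w m j q) = a3_low L.g (fun a b c => L.Xb k (w a b c)) m j q -
      ∑ a, L.A k a m * a3_low L.g w a j q - ∑ a, L.A k a j * a3_low L.g w m a q -
      ∑ a, L.A k a q * a3_low L.g w m j a := by
  simp only [a3_low, map_sum, Finset.mul_sum]
  rw [a3_comm4 (fun a x y z => L.A k a m * (star (w x y z) * L.g a x * L.g j y * L.g q z)),
    a3_comm4 (fun a x y z => L.A k a j * (star (w x y z) * L.g m x * L.g a y * L.g q z)),
    a3_comm4 (fun a x y z => L.A k a q * (star (w x y z) * L.g m x * L.g j y * L.g a z))]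
  simp only [← Finset.sum_sub_distrib]
  refine Finset.sum_congr rfl fun x _ => Finset.sum_congr rfl fun y _ =>
    Finset.sum_congr rfl fun z _ => ?_
  have h1 : ∑ a, L.A k a m * (star (w x y z) * L.g a x * L.g j y * L.g q z) =
      star (w x y z) * (∑ a, L.A k a m * L.g a x) * L.g j y * L.g q z := by
    simp only [Finset.mul_sum, Finset.sum_mul]
    exact Finset.sum_congr rfl fun a _ => by ring
  have h2 : ∑ a, L.A k a j * (star (w x y z) * L.g m x * L.g a y * L.g q z) =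
      star (w x y z) * L.g m x * (∑ a, L.A k a j * L.g a y) * L.g q z := by
    simp only [Finset.mul_sum, Finset.sum_mul]
    exact Finset.sum_congr rfl fun a _ => by ring
  have h3 : ∑ a, L.A k a q * (star (w x y z) * L.g m x * L.g j y * L.g a z) =
      star (w x y z) * L.g m x * L.g j y * (∑ a, L.A k a q * L.g a z) := by
    simp only [Finset.mul_sum]
    exact Finset.sum_congr rfl fun a _ => by ring
  rw [h1, h2, h3]
  simp only [Derivation.leibniz, smul_eq_mul, L.Xg, a3_X_star]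
  ring

omit [DecidableEq κ] in
lemma a3_X_ip3 (v w : κ → κ → κ → R) (k : κ) :
    L.X k (ip3 L.g v w) =
      ip3 L.g (L.a3_nab v k) w + ip3 L.g v (fun a b c => L.Xb k (w a b c)) := by
  simp only [a3_ip3_eq, map_sum, Derivation.leibniz, smul_eq_mul, a3_X_low, a3_nab, mul_sub,
    sub_mul, Finset.sum_add_distrib, Finset.sum_sub_distrib, Finset.mul_sum, Finset.sum_mul]
  have h1 : ∑ m, ∑ j, ∑ q, ∑ a, v m j q * (L.A k a m * a3_low L.g w a j q) =
      ∑ m, ∑ j, ∑ q, ∑ i, L.A k m i * v i j q * a3_low L.g w m j q := by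
    rw [← a3_comm4 (fun a m j q => v m j q * (L.A k a m * a3_low L.g w a j q))]
    refine Finset.sum_congr rfl fun a _ => ?_
    rw [Finset.sum_comm]
    refine Finset.sum_congr rfl fun j _ => ?_
    rw [Finset.sum_comm]
    refine Finset.sum_congr rfl fun q _ => Finset.sum_congr rfl fun i _ => ?_
    ring
  have h2 : ∑ m, ∑ j, ∑ q, ∑ a, v m j q * (L.A k a j * a3_low L.g w m a q) =
      ∑ m, ∑ j, ∑ q, ∑ i, L.A k j i * v m i q * a3_low L.g w m j q := by
    refine Finset.sum_congr rfl fun m _ => ?_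
    have e1 : ∀ j, ∑ q, ∑ a, v m j q * (L.A k a j * a3_low L.g w m a q) =
        ∑ a, ∑ q, v m j q * (L.A k a j * a3_low L.g w m a q) := fun j => Finset.sum_comm
    simp only [e1]
    rw [Finset.sum_comm]
    refine Finset.sum_congr rfl fun a _ => ?_
    rw [Finset.sum_comm]
    refine Finset.sum_congr rfl fun q _ => Finset.sum_congr rfl fun i _ => ?_
    ring
  have h3 : ∑ m, ∑ j, ∑ q, ∑ a, v m j q * (L.A k a q * a3_low L.g w m j a) =
      ∑ m, ∑ j, ∑ q, ∑ i, L.A k q i * v m j i * a3_low L.g w m j q := by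
    refine Finset.sum_congr rfl fun m _ => Finset.sum_congr rfl fun j _ => ?_
    rw [Finset.sum_comm]
    refine Finset.sum_congr rfl fun q _ => Finset.sum_congr rfl fun i _ => ?_
    ring
  have h4 : ∑ m, ∑ j, ∑ q, a3_low L.g w m j q * L.X k (v m j q) =
      ∑ m, ∑ j, ∑ q, L.X k (v m j q) * a3_low L.g w m j q := by
    simp only [mul_comm]
  rw [h1, h2, h3, h4]
  ring

omit [DecidableEq κ] in
lemma a3_Xb_ip3 (v w : κ → κ → κ → R) (l : κ) :
    L.Xb l (ip3 L.g v w) =
      ip3 L.g v (L.a3_nab w l) + ip3 L.g (fun a b c => L.Xb l (v a b c)) w := by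
  rw [← a3_star_ip3 L.g L.herm w v, ← L.star_X, a3_X_ip3, star_add, a3_star_ip3 L.g L.herm,
    a3_star_ip3 L.g L.herm]

lemma X_S (k : κ) : L.X k (ip3 L.g L.u L.u) = ip3 L.g (L.nab k) L.u := by
  rw [a3_X_ip3]
  have h : ip3 L.g L.u (fun a b c => L.Xb k (L.u a b c)) = 0 := by
    simp only [ip3, L.Xbu, star_zero, mul_zero, zero_mul, Finset.sum_const_zero]
  rw [h, add_zero]
  rfl

lemma Xb_S (l : κ) : L.Xb l (ip3 L.g L.u L.u) = star (ip3 L.g (L.nab l) L.u) := by
  rw [← X_S, L.star_X, a3_star_ip3 L.g L.herm]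

omit [DecidableEq κ] in
lemma a3_trace_XbA (m i : κ) :
    ∑ k, ∑ l, L.g k l * L.Xb l (L.A k m i) = -∑ s, L.g i s * pc3 L.g L.u m s := by
  simp only [L.XbA, pc3, mul_neg, Finset.sum_neg_distrib, Finset.mul_sum, Finset.sum_mul]
  congr 1
  have e1 : ∀ k l, ∑ p, ∑ r, ∑ s, L.g k l * (star (L.u l p s) * L.g i s * (L.u k m r * L.g r p)) =
      ∑ s, ∑ r, ∑ p, L.g k l * (star (L.u l p s) * L.g i s * (L.u k m r * L.g r p)) := by
    intro k l
    rw [Finset.sum_comm]
    have e2 : ∀ r, ∑ p, ∑ s, L.g k l * (star (L.u l p s) * L.g i s * (L.u k m r * L.g r p)) =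
        ∑ s, ∑ p, L.g k l * (star (L.u l p s) * L.g i s * (L.u k m r * L.g r p)) :=
      fun r => Finset.sum_comm
    simp only [e2]
    exact Finset.sum_comm
  simp only [e1]
  have e3 : ∀ k, ∑ l, ∑ s, ∑ r, ∑ p,
      L.g k l * (star (L.u l p s) * L.g i s * (L.u k m r * L.g r p)) =
      ∑ s, ∑ r, ∑ l, ∑ p, L.g k l * (star (L.u l p s) * L.g i s * (L.u k m r * L.g r p)) := by
    intro k
    rw [Finset.sum_comm]
    exact Finset.sum_congr rfl fun s _ => Finset.sum_comm
  simp only [e3]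
  rw [Finset.sum_comm]
  refine Finset.sum_congr rfl fun s _ => Finset.sum_congr rfl fun k _ =>
    Finset.sum_congr rfl fun r _ => Finset.sum_congr rfl fun l _ =>
    Finset.sum_congr rfl fun p _ => ?_
  rw [L.sym1 k m r, L.sym2 l p s, L.sym1 l s p]
  ring

omit [DecidableEq κ] in
lemma a3_Xb_nab (l k m j q : κ) :
    L.Xb l (L.nab k m j q) = -(∑ i, L.Xb l (L.A k m i) * L.u i j q) -
      ∑ i, L.Xb l (L.A k j i) * L.u m i q - ∑ i, L.Xb l (L.A k q i) * L.u m j i := by
  simp only [nab, map_sub, map_sum, Derivation.leibniz, smul_eq_mul, L.Xbu, ← L.comm, map_zero,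
    mul_zero, zero_add, zero_sub]
  simp only [mul_comm]

omit [DecidableEq κ] in
lemma a3_slot : ∑ m, ∑ j, ∑ q, (∑ i, (∑ s, L.g i s * pc3 L.g L.u m s) * L.u i j q) *
    a3_low L.g L.u m j q = qt3 L.g L.u := by
  unfold qt3
  refine Finset.sum_congr rfl fun m _ => ?_
  have e1 : ∀ i, ∑ j, ∑ q, L.u i j q * a3_low L.g L.u m j q = ∑ t, pc3 L.g L.u i t * L.g m t := by
    intro i
    simp only [a3_low, pc3, Finset.mul_sum, Finset.sum_mul]
    have e2 : ∀ j, ∑ q, ∑ t, ∑ j', ∑ q',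
        L.u i j q * (star (L.u t j' q') * L.g m t * L.g j j' * L.g q q') =
        ∑ t, ∑ q, ∑ j', ∑ q', L.u i j q * (star (L.u t j' q') * L.g m t * L.g j j' * L.g q q') :=
      fun j => Finset.sum_comm
    simp only [e2]
    rw [Finset.sum_comm]
    refine Finset.sum_congr rfl fun t _ => Finset.sum_congr rfl fun j _ =>
      Finset.sum_congr rfl fun q _ => Finset.sum_congr rfl fun j' _ =>
      Finset.sum_congr rfl fun q' _ => ?_
    ring
  have e3 : ∑ j, ∑ q, (∑ i, (∑ s, L.g i s * pc3 L.g L.u m s) * L.u i j q) *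
      a3_low L.g L.u m j q =
      ∑ i, (∑ s, L.g i s * pc3 L.g L.u m s) * ∑ j, ∑ q, L.u i j q * a3_low L.g L.u m j q := by
    exact a3_pull _ _ _
  rw [e3]
  simp only [e1]
  rw [Finset.sum_comm]
  refine Finset.sum_congr rfl fun i _ => ?_
  rw [Finset.sum_mul]
  refine Finset.sum_congr rfl fun s _ => ?_
  rw [Finset.mul_sum]
  refine Finset.sum_congr rfl fun t _ => ?_
  ring

lemma lap_S : ∑ k, ∑ l, L.g k l * L.Xb l (L.X k (ip3 L.g L.u L.u)) =
    ∑ k, ∑ l, L.g k l * ip3 L.g (L.nab k) (L.nab l) + 3 * qt3 L.g L.u := by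
  have h0 : ∀ l, L.a3_nab L.u l = L.nab l := fun l => rfl
  simp only [X_S, a3_Xb_ip3, h0, mul_add, Finset.sum_add_distrib]
  congr 1
  have h1 : ∀ m j q, ∑ k, ∑ l, L.g k l * L.Xb l (L.nab k m j q) =
      ∑ i, (∑ s, L.g i s * pc3 L.g L.u m s) * L.u i j q +
      ∑ i, (∑ s, L.g i s * pc3 L.g L.u j s) * L.u m i q +
      ∑ i, (∑ s, L.g i s * pc3 L.g L.u q s) * L.u m j i := by
    intro m j q
    simp only [a3_Xb_nab, mul_sub, mul_neg, Finset.sum_sub_distrib, Finset.sum_neg_distrib]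
    rw [a3_pull2 L.g (fun k l i => L.Xb l (L.A k m i)),
      a3_pull2 L.g (fun k l i => L.Xb l (L.A k j i)),
      a3_pull2 L.g (fun k l i => L.Xb l (L.A k q i))]
    simp only [a3_trace_XbA, neg_mul, Finset.sum_neg_distrib]
    ring
  simp only [a3_ip3_eq]
  rw [a3_pull3 L.g (fun k l m j q => L.Xb l (L.nab k m j q))]
  simp only [h1, add_mul, Finset.sum_add_distrib]
  have h2 : ∑ m, ∑ j, ∑ q, (∑ i, (∑ s, L.g i s * pc3 L.g L.u j s) * L.u m i q) *
      a3_low L.g L.u m j q = qt3 L.g L.u := by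
    rw [← a3_slot, Finset.sum_comm]
    refine Finset.sum_congr rfl fun j _ => Finset.sum_congr rfl fun m _ =>
      Finset.sum_congr rfl fun q _ => ?_
    rw [a3_low12 L.g L.u L.sym1 m j q]
    congr 1
    exact Finset.sum_congr rfl fun i _ => by rw [L.sym1 m i q]
  have h3 : ∑ m, ∑ j, ∑ q, (∑ i, (∑ s, L.g i s * pc3 L.g L.u q s) * L.u m j i) *
      a3_low L.g L.u m j q = qt3 L.g L.u := by
    rw [← h2]
    refine Finset.sum_congr rfl fun m _ => ?_
    rw [Finset.sum_comm]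
    refine Finset.sum_congr rfl fun q _ => Finset.sum_congr rfl fun j _ => ?_
    rw [a3_low23 L.g L.u L.sym2 m j q]
    congr 1
    exact Finset.sum_congr rfl fun i _ => by rw [L.sym2 m j i]
  rw [a3_slot, h2, h3]
  ring

lemma X_det (k : κ) : L.X k L.g.det = -(∑ i, L.A k i i) * L.g.det := by
  rw [a3_der_det, neg_mul, Finset.sum_mul, ← Finset.sum_neg_distrib]
  refine Finset.sum_congr rfl fun i _ => ?_
  have h : (fun j => L.X k (L.g i j)) = ∑ m, (-L.A k m i) • L.g m := by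
    funext j
    simp only [L.Xg, Finset.sum_apply, Pi.smul_apply, smul_eq_mul, neg_mul,
      Finset.sum_neg_distrib]
  rw [h, Matrix.det_updateRow_sum, smul_eq_mul, neg_mul]

lemma lap_tr : ∑ k, ∑ l, L.g k l * L.Xb l (∑ i, L.A k i i) = -ip3 L.g L.u L.u := by
  simp only [map_sum, Finset.mul_sum]
  have e1 : ∀ k, ∑ l, ∑ i, L.g k l * L.Xb l (L.A k i i) =
      ∑ i, ∑ l, L.g k l * L.Xb l (L.A k i i) := fun k => Finset.sum_comm
  simp only [e1]
  rw [Finset.sum_comm]
  simp only [a3_trace_XbA, Finset.sum_neg_distrib]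
  congr 1
  unfold ip3 pc3
  refine Finset.sum_congr rfl fun m _ => ?_
  simp only [Finset.mul_sum]
  rw [Finset.sum_comm]
  refine Finset.sum_congr rfl fun j _ => ?_
  rw [Finset.sum_comm]
  refine Finset.sum_congr rfl fun q _ => Finset.sum_congr rfl fun s _ =>
    Finset.sum_congr rfl fun j' _ => Finset.sum_congr rfl fun q' _ => ?_
  ring

end Leaf

end Pool.Agent.SPF
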