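import Pool.Agent.P.MP_63735c_ag.SPA2
import Pool.Agent.P.MP_63735c_ag.SPA3

/-! Output identities. -/

open scoped Matrix

namespace Pool.Agent.SPF

variable {R : Type} [CommRing R] [StarRing R] [Algebra ℂ R] {α κ : Type} [Fintype α] [Fintype κ]
  [DecidableEq α] [DecidableEq κ]

namespace Dat

variable (D : Dat R α κ)

lemma star_det : star D.g.det = D.g.det := by
  rw [← Matrix.det_conjTranspose]
  congr 1
  ext i j
  rw [Matrix.conjTranspose_apply, D.g_herm]

lemma a4_X_det (k : κ) : D.X k D.g.det = -D.trA k * D.g.det := D.leaf.X_det k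

lemma a4_Xb_det (l : κ) : D.Xb l D.g.det = -star (D.trA l) * D.g.det := by
  have h := D.star_X l D.g.det
  rw [D.star_det, D.a4_X_det, star_mul', star_neg, D.star_det] at h
  exact h.symm

lemma a4_lap_tr : ∑ k, ∑ l, D.g k l * D.Xb l (D.trA k) = -D.S := D.leaf.lap_tr

lemma gam_det : D.gam D.g.det D.g.det = ip1 D.g D.trA D.trA * D.g.det ^ 2 := by
  rw [D.gam_eq, ip1, Finset.sum_mul]
  refine Finset.sum_congr rfl fun k _ => ?_
  rw [Finset.sum_mul]
  refine Finset.sum_congr rfl fun l _ => ?_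
  rw [D.a4_X_det, D.a4_Xb_det]
  ring

lemma a4_lap_det : D.lap D.g.det = (D.S + ip1 D.g D.trA D.trA) * D.g.det := by
  have h : D.S = -∑ k, ∑ l, D.g k l * D.Xb l (D.trA k) := by rw [D.a4_lap_tr, neg_neg]
  rw [D.lap_eq, h, ip1, ← Finset.sum_neg_distrib, ← Finset.sum_add_distrib, Finset.sum_mul]
  refine Finset.sum_congr rfl fun k _ => ?_
  rw [← Finset.sum_neg_distrib, ← Finset.sum_add_distrib, Finset.sum_mul]
  refine Finset.sum_congr rfl fun l _ => ?_
  rw [D.a4_X_det, Derivation.leibniz, map_neg, D.a4_Xb_det, smul_eq_mul, smul_eq_mul]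
  ring

lemma W_det : D.W D.g.det = D.S * D.g.det ^ 2 := by
  rw [W, D.a4_lap_det, D.gam_det]
  ring

lemma lap_S : D.lap D.S =
    ∑ k, ∑ l, D.g k l * ip3 D.g (D.leaf.nab k) (D.leaf.nab l) + 3 * qt3 D.g D.u := by
  rw [D.lap_eq]
  exact D.leaf.lap_S

lemma gam_S : D.gam D.S D.S =
    ∑ k, ∑ l, D.g k l * ip3 D.g (D.leaf.nab k) D.u * star (ip3 D.g (D.leaf.nab l) D.u) := by
  rw [D.gam_eq]
  refine Finset.sum_congr rfl fun k _ => Finset.sum_congr rfl fun l _ => ?_
  have h1 : D.X k D.S = ip3 D.g (D.leaf.nab k) D.u := D.leaf.X_S k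
  have h2 : D.Xb l D.S = star (ip3 D.g (D.leaf.nab l) D.u) := D.leaf.Xb_S l
  rw [h1, h2]

lemma a4_lap_mul (x y : R) :
    D.lap (x * y) = x * D.lap y + y * D.lap x + D.gam x y + D.gam y x := by
  simp only [lap, gam, Finset.mul_sum, ← Finset.sum_add_distrib]
  refine Finset.sum_congr rfl fun a _ => Finset.sum_congr rfl fun b _ => ?_
  simp only [Derivation.leibniz, map_add, smul_eq_mul]
  ring

lemma a4_gam_mul (x y : R) :
    D.gam (x * y) (x * y) =
      x ^ 2 * D.gam y y + y ^ 2 * D.gam x x + x * y * D.gam x y + x * y * D.gam y x := by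
  simp only [gam, Finset.mul_sum, ← Finset.sum_add_distrib]
  refine Finset.sum_congr rfl fun a _ => Finset.sum_congr rfl fun b _ => ?_
  simp only [Derivation.leibniz, smul_eq_mul]
  ring

lemma W_mul (x y : R) : D.W (x * y) = x ^ 2 * D.W y + y ^ 2 * D.W x := by
  rw [W, W, W, D.a4_lap_mul, D.a4_gam_mul]
  ring

lemma W_eq_zero (f : R) (hf : ∀ l, D.Xb l f = 0) : D.W f = 0 ∧ D.W (star f) = 0 := by
  have hs : ∀ k, D.X k (star f) = 0 := fun k => by
    have h := D.star_X k (star f)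
    rw [star_star, hf] at h
    exact star_eq_zero.1 h
  constructor
  · rw [W, D.lap_eq, D.gam_eq]
    simp only [← D.comm, hf, map_zero, mul_zero, Finset.sum_const_zero, sub_zero]
  · rw [W, D.lap_eq, D.gam_eq]
    simp only [hs, map_zero, mul_zero, zero_mul, Finset.sum_const_zero, sub_zero]

omit [StarRing R] [Algebra ℂ R] [DecidableEq κ] in
lemma a4_reorder (F : κ → κ → κ → κ → κ → R) :
    ∑ k, ∑ a, ∑ b, ∑ l, ∑ p, F p k l a b = ∑ p, ∑ k, ∑ l, ∑ a, ∑ b, F p k l a b := by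
  rw [Finset.sum_comm (f := fun p k => ∑ l, ∑ a, ∑ b, F p k l a b)]
  refine Finset.sum_congr rfl fun k _ => ?_
  calc ∑ a, ∑ b, ∑ l, ∑ p, F p k l a b = ∑ a, ∑ l, ∑ b, ∑ p, F p k l a b :=
        Finset.sum_congr rfl fun a _ => Finset.sum_comm
    _ = ∑ l, ∑ a, ∑ b, ∑ p, F p k l a b := Finset.sum_comm
    _ = ∑ l, ∑ a, ∑ p, ∑ b, F p k l a b :=
        Finset.sum_congr rfl fun l _ => Finset.sum_congr rfl fun a _ => Finset.sum_comm
    _ = ∑ l, ∑ p, ∑ a, ∑ b, F p k l a b := Finset.sum_congr rfl fun l _ => Finset.sum_comm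
    _ = ∑ p, ∑ l, ∑ a, ∑ b, F p k l a b := Finset.sum_comm

lemma S_eq : D.S = ∑ i, ∑ p, ip1 D.g (fun k => D.T i k p) (fun k => D.T p k i) := by
  rw [S, ip3]
  refine Finset.sum_congr rfl fun i _ => ?_
  refine (a4_reorder fun p k l a b =>
    D.u i k a * star (D.u b l p) * D.g i b * D.g k l * D.g a p).trans ?_
  refine Finset.sum_congr rfl fun p _ => ?_
  rw [ip1]
  refine Finset.sum_congr rfl fun k _ => Finset.sum_congr rfl fun l _ => ?_
  rw [D.T_eq i k p, D.T_eq p l i, star_sum, Finset.sum_mul, Finset.sum_mul]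
  refine Finset.sum_congr rfl fun a _ => ?_
  rw [Finset.mul_sum]
  refine Finset.sum_congr rfl fun b _ => ?_
  rw [star_mul', D.g_herm, D.sym1 p l b, D.sym2 l p b, D.sym1 l b p]
  ring

lemma Ag (i j l : κ) :
    ∑ k, D.A i k j * D.g k l = -∑ c, D.Xc i c * D.d (D.ι j) (D.η c (D.ι l)) := by
  have h1 : ∑ c, D.Xc i c * D.d (D.ι j) (D.η c (D.ι l)) =
      ∑ k, ((∑ c, D.Xc i c * D.e k c) * D.d (D.ι j) (D.g k l) +
        (∑ c, D.Xc i c * D.d (D.ι j) (D.e k c)) * D.g k l) := by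
    simp only [Finset.sum_mul, ← Finset.sum_add_distrib]
    rw [Finset.sum_comm]
    refine Finset.sum_congr rfl fun c _ => ?_
    rw [D.η_ι, map_sum, Finset.mul_sum]
    refine Finset.sum_congr rfl fun k _ => ?_
    rw [Derivation.leibniz, smul_eq_mul, smul_eq_mul]
    ring
  rw [h1, ← Finset.sum_neg_distrib]
  refine Finset.sum_congr rfl fun k _ => ?_
  rw [D.Xe, A]
  ring

lemma A_sub (k m i : κ) :
    D.A k m i - D.A m k i = -∑ a, ∑ b, D.d (D.ι i) (D.π a b) * D.e k a * D.e m b := by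
  have h0 := congrArg (D.d (D.ι i)) (D.F2 k m)
  have h1 : D.A m k i = -∑ a, ∑ b, D.π a b * D.e m b * D.d (D.ι i) (D.e k a) := by
    simp only [A, Xc, Finset.sum_mul]
  have h2 : D.A k m i = ∑ a, ∑ b, D.π a b * D.e k a * D.d (D.ι i) (D.e m b) := by
    rw [Finset.sum_comm, A, ← Finset.sum_neg_distrib]
    refine Finset.sum_congr rfl fun b _ => ?_
    rw [Xc, Finset.sum_mul, ← Finset.sum_neg_distrib]
    refine Finset.sum_congr rfl fun a _ => ?_
    rw [D.skew a b]
    ring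
  have h3 : D.d (D.ι i) (∑ a, ∑ b, D.π a b * D.e k a * D.e m b) =
      ∑ a, ∑ b, D.d (D.ι i) (D.π a b) * D.e k a * D.e m b +
        ∑ a, ∑ b, D.π a b * D.e m b * D.d (D.ι i) (D.e k a) +
        ∑ a, ∑ b, D.π a b * D.e k a * D.d (D.ι i) (D.e m b) := by
    simp only [map_sum, ← Finset.sum_add_distrib]
    refine Finset.sum_congr rfl fun a _ => Finset.sum_congr rfl fun b _ => ?_
    simp only [Derivation.leibniz, smul_eq_mul]
    ring
  rw [h3, map_zero] at h0
  rw [h1, h2]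
  linear_combination h0

end Dat

end Pool.Agent.SPF
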