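import Pool.Agent.P.MP_63735c_ag.SPA1

/-! Brackets of the frame and flatness of the connection. -/

open scoped Matrix

namespace Pool.Agent.SPF

variable {R : Type} [CommRing R] [StarRing R] [Algebra ℂ R] {α κ : Type} [Fintype α] [Fintype κ]
  [DecidableEq α] [DecidableEq κ]

omit [StarRing R] in
lemma a5_leib (δ : Derivation ℂ R R) (x y : R) : δ (x * y) = δ x * y + x * δ y := by
  rw [Derivation.leibniz, smul_eq_mul, smul_eq_mul]
  ring

omit [StarRing R] [Algebra ℂ R] [DecidableEq α] in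
lemma a5_cyc (f : α → α → α → R) : ∑ c, ∑ x, ∑ y, f c x y = ∑ c, ∑ x, ∑ y, f x y c := by
  rw [Finset.sum_comm (f := fun c x => ∑ y, f x y c)]
  exact Finset.sum_congr rfl fun x _ => Finset.sum_comm

omit [StarRing R] in
lemma a5_dmul {β : Type} [Fintype β] [DecidableEq β] (δ : Derivation ℂ R R) (M N : Matrix β β R)
    (h : M * N = 1) (a b : β) : ∑ c, δ (M a c) * N c b + ∑ c, M a c * δ (N c b) = 0 := by
  have e : δ ((M * N) a b) = 0 := by
    rw [h, Matrix.one_apply]
    split_ifs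
    · exact δ.map_one_eq_zero
    · exact map_zero δ
  rw [Matrix.mul_apply, map_sum] at e
  rw [← Finset.sum_add_distrib, ← e]
  exact Finset.sum_congr rfl fun c _ => (a5_leib δ _ _).symm

namespace Dat

variable (D : Dat R α κ)

lemma a5_dπ (c a b : α) :
    D.d c (D.π a b) = ∑ x, ∑ y, D.π x a * D.π y b * D.d c (D.σ x y) := by
  have hσ : D.σ * D.π = 1 := mul_eq_one_comm.mp D.πσ
  have e1 : D.π.map (D.d c) * D.σ = -(D.π * D.σ.map (D.d c)) := by
    ext a b
    have e := a5_dmul (D.d c) D.π D.σ D.πσ a b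
    rw [Matrix.neg_apply, Matrix.mul_apply, Matrix.mul_apply]
    simp only [Matrix.map_apply]
    linear_combination e
  have e2 : D.π.map (D.d c) = -(D.π * (D.σ.map (D.d c) * D.π)) := by
    rw [← Matrix.mul_assoc, ← Matrix.neg_mul, ← e1, Matrix.mul_assoc, hσ, Matrix.mul_one]
  have e3 := congrFun (congrFun e2 a) b
  rw [Matrix.map_apply, Matrix.neg_apply, Matrix.mul_apply] at e3
  rw [e3, ← Finset.sum_neg_distrib]
  refine Finset.sum_congr rfl fun x _ => ?_
  rw [Matrix.mul_apply, Finset.mul_sum, ← Finset.sum_neg_distrib]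
  refine Finset.sum_congr rfl fun y _ => ?_
  rw [Matrix.map_apply, D.skew a x]
  ring

lemma jacobi (a b s : α) : ∑ c, (D.π c s * D.d c (D.π a b) + D.π c a * D.d c (D.π b s) +
    D.π c b * D.d c (D.π s a)) = 0 := by
  have key : ∀ s a b : α, ∑ c, D.π c s * D.d c (D.π a b) =
      ∑ c, ∑ x, ∑ y, D.π c s * D.π x a * D.π y b * D.d c (D.σ x y) := by
    intro s a b
    refine Finset.sum_congr rfl fun c _ => ?_
    rw [D.a5_dπ, Finset.mul_sum]
    refine Finset.sum_congr rfl fun x _ => ?_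
    rw [Finset.mul_sum]
    exact Finset.sum_congr rfl fun y _ => by ring
  rw [Finset.sum_add_distrib, Finset.sum_add_distrib, key, key, key,
    a5_cyc fun c x y => D.π c a * D.π x b * D.π y s * D.d c (D.σ x y),
    a5_cyc fun c x y => D.π c b * D.π x s * D.π y a * D.d c (D.σ x y),
    a5_cyc fun c x y => D.π x b * D.π y s * D.π c a * D.d x (D.σ y c)]
  simp only [← Finset.sum_add_distrib]
  refine Finset.sum_eq_zero fun c _ => Finset.sum_eq_zero fun x _ =>
    Finset.sum_eq_zero fun y _ => ?_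
  linear_combination (D.π c s * D.π x a * D.π y b) * D.σclos c x y

lemma a5_gXh (j i p : κ) : ∑ m, D.g i m * D.X j (D.h m p) = D.A j p i := by
  have e := a5_dmul (D.X j) D.g D.h D.g_mul_h i p
  have e2 : ∑ m, D.X j (D.g i m) * D.h m p = -D.A j p i := by
    have e3 : ∀ m, D.X j (D.g i m) * D.h m p = -∑ r, D.A j r i * (D.g r m * D.h m p) := by
      intro m
      rw [D.Xg, neg_mul, Finset.sum_mul]
      exact congrArg Neg.neg (Finset.sum_congr rfl fun r _ => mul_assoc _ _ _)
    simp only [e3]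
    rw [Finset.sum_neg_distrib, Finset.sum_comm]
    simp only [← Finset.mul_sum, ← Matrix.mul_apply, D.g_mul_h, Matrix.one_apply, mul_ite, mul_one,
      mul_zero, Finset.sum_ite_eq', Finset.mem_univ, if_true]
  linear_combination e - e2

lemma a5_curl (j p : κ) (b : α) :
    ∑ c, D.Xc j c * D.d c (D.e p b) - ∑ c, D.Xc j c * D.d b (D.e p c) =
      ∑ i, D.A j p i * D.e i b := by
  have e1 : ∀ c, D.Xc j c * D.d c (D.e p b) - D.Xc j c * D.d b (D.e p c) =
      ∑ m, (D.η b (D.ι m) * (D.Xc j c * D.d c (D.h m p)) -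
        D.Xc j c * D.η c (D.ι m) * D.d b (D.h m p)) := by
    intro c
    unfold e
    rw [map_sum, map_sum, Finset.mul_sum, Finset.mul_sum, ← Finset.sum_sub_distrib]
    refine Finset.sum_congr rfl fun m _ => ?_
    rw [a5_leib, a5_leib, D.clos b (D.ι m) c]
    ring
  rw [← Finset.sum_sub_distrib]
  simp only [e1]
  rw [Finset.sum_comm]
  have e2 : ∀ m, ∑ c, (D.η b (D.ι m) * (D.Xc j c * D.d c (D.h m p)) -
      D.Xc j c * D.η c (D.ι m) * D.d b (D.h m p)) =
      ∑ i, D.e i b * (D.g i m * D.X j (D.h m p)) := by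
    intro m
    rw [Finset.sum_sub_distrib, ← Finset.mul_sum, ← Finset.sum_mul, D.Xη, zero_mul, sub_zero,
      ← D.X_apply, D.η_ι, Finset.sum_mul]
    exact Finset.sum_congr rfl fun i _ => mul_assoc _ _ _
  simp only [e2]
  rw [Finset.sum_comm]
  refine Finset.sum_congr rfl fun i _ => ?_
  rw [← Finset.mul_sum, D.a5_gXh, mul_comm]

lemma a5_dF2 (p j : κ) (c : α) : ∑ b, ∑ s, D.d c (D.π b s) * D.e p b * D.e j s =
    ∑ s, D.Xc p s * D.d c (D.e j s) - ∑ b, D.Xc j b * D.d c (D.e p b) := by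
  have e := congrArg (D.d c) (D.F2 p j)
  rw [map_zero, map_sum] at e
  simp only [map_sum, a5_leib, add_mul, Finset.sum_add_distrib] at e
  have e1 : ∑ b, ∑ s, D.π b s * D.d c (D.e p b) * D.e j s = ∑ b, D.Xc j b * D.d c (D.e p b) := by
    refine Finset.sum_congr rfl fun b _ => ?_
    unfold Xc
    rw [Finset.sum_mul]
    exact Finset.sum_congr rfl fun s _ => by ring
  have e2 : ∑ b, ∑ s, D.π b s * D.e p b * D.d c (D.e j s) =
      -∑ s, D.Xc p s * D.d c (D.e j s) := by
    rw [Finset.sum_comm, ← Finset.sum_neg_distrib]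
    refine Finset.sum_congr rfl fun s _ => ?_
    unfold Xc
    rw [Finset.sum_mul, ← Finset.sum_neg_distrib]
    refine Finset.sum_congr rfl fun b _ => ?_
    rw [D.skew b s]
    ring
  linear_combination e - e1 - e2

lemma a5_XXc (j p : κ) (a : α) : D.X j (D.Xc p a) =
    ∑ b, ∑ s, D.e p b * D.e j s * ∑ c, D.π c s * D.d c (D.π a b) +
      ∑ b, D.π a b * ∑ c, D.Xc j c * D.d c (D.e p b) := by
  have e : D.X j (D.Xc p a) = D.X j (∑ b, D.π a b * D.e p b) := rfl
  rw [e, map_sum, ← Finset.sum_add_distrib]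
  refine Finset.sum_congr rfl fun b _ => ?_
  rw [a5_leib, D.X_apply, D.X_apply]
  congr 1
  simp only [Finset.mul_sum]
  rw [Finset.sum_comm, Finset.sum_mul]
  refine Finset.sum_congr rfl fun c _ => ?_
  unfold Xc
  rw [Finset.sum_mul, Finset.sum_mul]
  exact Finset.sum_congr rfl fun s _ => by ring

lemma bracket (j p : κ) (a : α) : D.X j (D.Xc p a) - D.X p (D.Xc j a) =
    ∑ i, (D.A j p i - D.A p j i) * D.Xc i a := by
  have h1 : ∑ b, ∑ s, D.e p b * D.e j s * ∑ c, D.π c s * D.d c (D.π a b) -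
      ∑ b, ∑ s, D.e j b * D.e p s * ∑ c, D.π c s * D.d c (D.π a b) =
      ∑ c, D.π a c * ∑ b, ∑ s, D.d c (D.π b s) * D.e p b * D.e j s := by
    rw [Finset.sum_comm (f := fun b s => D.e j b * D.e p s * ∑ c, D.π c s * D.d c (D.π a b))]
    have e0 : ∑ c, D.π a c * ∑ b, ∑ s, D.d c (D.π b s) * D.e p b * D.e j s =
        ∑ c, ∑ b, ∑ s, D.π a c * (D.d c (D.π b s) * D.e p b * D.e j s) := by
      simp only [Finset.mul_sum]
    rw [e0, a5_cyc fun c b s => D.π a c * (D.d c (D.π b s) * D.e p b * D.e j s),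
      a5_cyc fun c b s => D.π a b * (D.d b (D.π s c) * D.e p s * D.e j c),
      ← Finset.sum_sub_distrib]
    refine Finset.sum_congr rfl fun b _ => ?_
    rw [← Finset.sum_sub_distrib]
    refine Finset.sum_congr rfl fun s _ => ?_
    have e := D.jacobi a b s
    rw [Finset.sum_add_distrib, Finset.sum_add_distrib] at e
    have e1 : ∑ c, D.π c b * D.d c (D.π a s) = -∑ c, D.π c b * D.d c (D.π s a) := by
      rw [← Finset.sum_neg_distrib]
      refine Finset.sum_congr rfl fun c _ => ?_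
      rw [D.skew a s, map_neg, mul_neg]
    have e2 : ∑ c, D.π a c * (D.d c (D.π b s) * D.e p b * D.e j s) =
        -(D.e p b * D.e j s * ∑ c, D.π c a * D.d c (D.π b s)) := by
      rw [Finset.mul_sum, ← Finset.sum_neg_distrib]
      refine Finset.sum_congr rfl fun c _ => ?_
      rw [D.skew a c]
      ring
    rw [e1, e2]
    linear_combination (D.e p b * D.e j s) * e
  have h2 : ∑ i, (D.A j p i - D.A p j i) * D.Xc i a =
      ∑ b, D.π a b * (∑ i, D.A j p i * D.e i b - ∑ i, D.A p j i * D.e i b) := by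
    unfold Xc
    simp only [Finset.mul_sum, ← Finset.sum_sub_distrib]
    rw [Finset.sum_comm]
    exact Finset.sum_congr rfl fun b _ => Finset.sum_congr rfl fun i _ => by ring
  rw [h2, D.a5_XXc j p, D.a5_XXc p j, add_sub_add_comm, h1, ← Finset.sum_sub_distrib,
    ← Finset.sum_add_distrib]
  refine Finset.sum_congr rfl fun b _ => ?_
  rw [D.a5_dF2, ← D.a5_curl, ← D.a5_curl]
  ring

lemma a5_comm (a b : κ) (f : R) : D.X a (D.X b f) - D.X b (D.X a f) =
    ∑ p, (D.A a b p - D.A b a p) * D.X p f := by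
  have e : ∀ a b : κ, D.X a (D.X b f) = ∑ c, D.X a (D.Xc b c) * D.d c f +
      ∑ c, ∑ c', D.Xc b c * D.Xc a c' * D.d c' (D.d c f) := by
    intro a b
    rw [D.X_apply b, map_sum, ← Finset.sum_add_distrib]
    refine Finset.sum_congr rfl fun c _ => ?_
    rw [a5_leib, D.X_apply a (D.d c f), Finset.mul_sum]
    congr 1
    exact Finset.sum_congr rfl fun c' _ => by ring
  have e2 : ∑ c, ∑ c', D.Xc b c * D.Xc a c' * D.d c' (D.d c f) =
      ∑ c, ∑ c', D.Xc a c * D.Xc b c' * D.d c' (D.d c f) := by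
    rw [Finset.sum_comm]
    refine Finset.sum_congr rfl fun c _ => Finset.sum_congr rfl fun c' _ => ?_
    rw [D.dd c c']
    ring
  rw [e a b, e b a, e2, add_sub_add_right_eq_sub, ← Finset.sum_sub_distrib]
  simp only [← sub_mul, D.bracket, D.X_apply _ f, Finset.sum_mul, Finset.mul_sum]
  rw [Finset.sum_comm]
  exact Finset.sum_congr rfl fun p _ => Finset.sum_congr rfl fun c _ => by ring

lemma a5_cancel (v : κ → R) (hv : ∀ j, ∑ r, v r * D.g r j = 0) (r : κ) : v r = 0 := by
  have e : v ᵥ* D.g = 0 := funext hv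
  have e2 : v ᵥ* D.g ᵥ* D.h = v := by rw [Matrix.vecMul_vecMul, D.g_mul_h, Matrix.vecMul_one]
  rw [e, Matrix.zero_vecMul] at e2
  exact (congrFun e2 r).symm

lemma flat (a b r i : κ) : D.X a (D.A b r i) - D.X b (D.A a r i) =
    ∑ p, (D.A a b p - D.A b a p) * D.A p r i +
      ∑ c, (D.A a r c * D.A b c i - D.A b r c * D.A a c i) := by
  rw [← sub_eq_zero]
  refine D.a5_cancel (fun r => D.X a (D.A b r i) - D.X b (D.A a r i) -
    (∑ p, (D.A a b p - D.A b a p) * D.A p r i +
      ∑ c, (D.A a r c * D.A b c i - D.A b r c * D.A a c i))) (fun j => ?_) r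
  have e : ∀ a b : κ, D.X a (D.X b (D.g i j)) = -∑ r, D.X a (D.A b r i) * D.g r j +
      ∑ r, (∑ c, D.A a r c * D.A b c i) * D.g r j := by
    intro a b
    rw [D.Xg, map_neg, map_sum]
    simp only [a5_leib, Finset.sum_add_distrib, neg_add, D.Xg, mul_neg, Finset.sum_neg_distrib,
      neg_neg, Finset.mul_sum, Finset.sum_mul]
    congr 1
    rw [Finset.sum_comm]
    exact Finset.sum_congr rfl fun r _ => Finset.sum_congr rfl fun c _ => by ring
  have e2 : ∑ p, (D.A a b p - D.A b a p) * D.X p (D.g i j) =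
      -∑ r, (∑ p, (D.A a b p - D.A b a p) * D.A p r i) * D.g r j := by
    simp only [D.Xg, mul_neg, Finset.sum_neg_distrib, Finset.mul_sum, Finset.sum_mul]
    rw [Finset.sum_comm]
    exact congrArg Neg.neg
      (Finset.sum_congr rfl fun r _ => Finset.sum_congr rfl fun p _ => by ring)
  have e3 := D.a5_comm a b (D.g i j)
  rw [e a b, e b a, e2] at e3
  have e4 : ∀ r, (D.X a (D.A b r i) - D.X b (D.A a r i) -
      (∑ p, (D.A a b p - D.A b a p) * D.A p r i +
        ∑ c, (D.A a r c * D.A b c i - D.A b r c * D.A a c i))) * D.g r j =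
      D.X a (D.A b r i) * D.g r j - D.X b (D.A a r i) * D.g r j -
        (∑ p, (D.A a b p - D.A b a p) * D.A p r i) * D.g r j -
        (∑ c, D.A a r c * D.A b c i) * D.g r j + (∑ c, D.A b r c * D.A a c i) * D.g r j := by
    intro r
    rw [Finset.sum_sub_distrib]
    ring
  simp only [e4]
  rw [Finset.sum_add_distrib, Finset.sum_sub_distrib, Finset.sum_sub_distrib,
    Finset.sum_sub_distrib]
  linear_combination -e3

end Dat

end Pool.Agent.SPF
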