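import Pool.Agent.P.MP_63735c_ag.SPReg
import Pool.Agent.P.MP_63735c_ag.SPA4
import Pool.Agent.P.MP_63735c_ag.SPA5

/-! The differential algebra of a chart. -/

open Set Filter Topology TopologicalSpace
open scoped ComplexOrder ContDiff Matrix

namespace Pool.Agent.SPF

variable {N n : ℕ}

lemma dzb_star (f : E N → ℂ) (a : Fin N) (z : E N) :
    dzb a (fun w => star (f w)) z = star (dz a f z) := by
  have h : fderiv ℝ (fun w => star (f w)) z =
      (Complex.conjCLE : ℂ →L[ℝ] ℂ).comp (fderiv ℝ f z) := Complex.conjCLE.comp_fderiv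
  rw [dz, dzb, h]
  simp

namespace Chart

/-- An open set on which the minor `ι` is positive, in an isotropic chart of dimension `2 n`. -/
structure Loc (C : Chart N) (ι : Fin n → Fin N) where
  O : Opens (E N)
  hN : N = 2 * n
  iso : C.Iso
  sub : (O : Set (E N)) ⊆ C.U ι

variable {C : Chart N} {ι : Fin n → Fin N}

/-- The largest such set. -/
def top (hN : N = 2 * n) (hC : C.Iso) (ι : Fin n → Fin N) : C.Loc ι :=
  ⟨⟨C.U ι, C.isOpen_U ι⟩, hN, hC, subset_rfl⟩

namespace Loc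

variable (L : C.Loc ι)

lemma subW : (L.O : Set (E N)) ⊆ C.W := fun _ hz => (L.sub hz).1

lemma rank_le (x : L.O) : (C.η x).rank ≤ n := Chart.rank_le L.hN L.iso (L.subW x.2)

noncomputable def η : Matrix (Fin N) (Fin N) (Sm L.O) :=
  Matrix.of fun a b => Sm.mk (fun z => C.η z a b) ((C.η_smooth a b).mono L.subW)

noncomputable def π : Matrix (Fin N) (Fin N) (Sm L.O) :=
  Matrix.of fun a b => Sm.mkH (fun z => C.π z a b) ((C.π_hol a b).mono L.subW)

noncomputable def σ : Matrix (Fin N) (Fin N) (Sm L.O) :=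
  Matrix.of fun a b => Sm.mkH (fun z => C.σ z a b) ((C.σ_hol a b).mono L.subW)

noncomputable def h : Matrix (Fin n) (Fin n) (Sm L.O) :=
  Matrix.of fun i j => Sm.mk (fun z => (C.g ι z)⁻¹ i j) ((C.h_smooth ι i j).mono L.sub)

lemma rη (a b : Fin N) : (L.η a b).Rep fun z => C.η z a b := fun _ => rfl
lemma rπ (a b : Fin N) : (L.π a b).Rep fun z => C.π z a b := fun _ => rfl
lemma rσ (a b : Fin N) : (L.σ a b).Rep fun z => C.σ z a b := fun _ => rfl
lemma rh (i j : Fin n) : (L.h i j).Rep fun z => (C.g ι z)⁻¹ i j := fun _ => rfl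

/-- The chart data as a differential algebra. -/
noncomputable def dat : Dat (Sm L.O) (Fin N) (Fin n) where
  d := Sm.d
  db := Sm.db
  star_d := Sm.star_d
  ddb := Sm.d_db
  dd := Sm.d_d
  ι := ι
  η := L.η
  π := L.π
  σ := L.σ
  h := L.h
  herm a b := by
    ext x
    rw [Sm.ev_star, L.rη, L.rη]
    exact (C.η_psd x (L.subW x.2)).1.apply b a
  clos a b c := by
    ext x
    rw [(L.rη a b).d c x, (L.rη c b).d a x]
    exact C.η_closed x (L.subW x.2) a b c
  skew a b := by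
    ext x
    rw [map_neg, L.rπ, L.rπ]
    exact π_skew (L.subW x.2) a b
  hol a b c := (L.rπ a b).db_eq_zero ((C.π_hol a b).mono L.subW) c
  πσ := by
    ext a b x
    have := congrFun (congrFun (π_mul_σ (L.subW x.2)) a) b
    simp only [Matrix.mul_apply, map_sum, map_mul, L.rπ _ _ x, L.rσ _ _ x] at this ⊢
    rw [this, Matrix.one_apply, Matrix.one_apply]
    split_ifs <;> simp
  σclos a b c := by
    ext x
    rw [map_add, map_add, (L.rσ b c).d a x, (L.rσ c a).d b x, (L.rσ a b).d c x, map_zero]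
    exact C.σ_closed x (L.subW x.2) a b c
  hg := by
    ext i j x
    have := congrFun (congrFun (Matrix.nonsing_inv_mul (C.g ι x)
      (isUnit_iff_ne_zero.2 (ac_ne (L.sub x.2)))) i) j
    simp only [Matrix.mul_apply, map_sum, map_mul, L.rh _ _ x, Matrix.submatrix_apply,
      L.rη _ _ x, Chart.g] at this ⊢
    rw [this, Matrix.one_apply, Matrix.one_apply]
    split_ifs <;> simp
  iso := by
    ext a b x
    have := congrFun (congrFun (L.iso x (L.subW x.2)) a) b
    simpa only [Matrix.mul_apply, map_sum, map_mul, L.rπ _ _ x, L.rη _ _ x,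
      Matrix.transpose_apply, Matrix.zero_apply, map_zero] using this
  F1 b c := by
    ext x
    simpa only [map_sum, map_mul, L.rh _ _ x, L.rη _ _ x] using F1 (L.sub x.2) (L.rank_le x) b c

@[simp] lemma dat_d : L.dat.d = Sm.d := rfl
@[simp] lemma dat_db : L.dat.db = Sm.db := rfl
@[simp] lemma dat_ι : L.dat.ι = ι := rfl
@[simp] lemma dat_η : L.dat.η = L.η := rfl
@[simp] lemma dat_π : L.dat.π = L.π := rfl
@[simp] lemma dat_σ : L.dat.σ = L.σ := rfl
@[simp] lemma dat_h : L.dat.h = L.h := rfl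

lemma rg (i j : Fin n) : (L.dat.g i j).Rep fun z => C.g ι z i j := fun _ => rfl

lemma re (i : Fin n) (b : Fin N) : (L.dat.e i b).Rep fun z => C.e ι z i b := fun x => by
  simp [Dat.e, Chart.e, L.rη _ _ x, L.rh _ _ x]

lemma rX (k : Fin n) (a : Fin N) : (L.dat.Xc k a).Rep fun z => C.X ι z k a := fun x => by
  simp [Dat.Xc, Chart.X, L.rπ _ _ x, L.re _ _ x]

lemma rA (k m i : Fin n) : (L.dat.A k m i).Rep fun z => C.A ι z k m i := fun x => by
  simp [Dat.A, Chart.A, L.rX _ _ x, (L.re _ _).d _ x]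

lemma rG (a b : Fin N) : (L.dat.G a b).Rep fun z => C.G z a b := fun x => by
  simp only [Dat.G, Chart.G, map_sum, map_mul, Sm.ev_star, dat_π, dat_η, L.rπ _ _ x, L.rη _ _ x,
    Matrix.mul_apply, Matrix.conjTranspose_apply, Finset.sum_mul]
  exact Finset.sum_comm

lemma map_g (x : L.O) : L.dat.g.map (Sm.ev x) = C.g ι x := rfl

lemma rdet : L.dat.g.det.Rep (C.ac ι) := fun x => by
  rw [AlgHom.map_det]
  rfl

lemma rlap {a : Sm L.O} {f : E N → ℂ} (h : a.Rep f) :
    (L.dat.lap a).Rep fun z => lapM (C.G z) f z := fun x => by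
  simp [Dat.lap, lapM, L.rG _ _ x, (h.db _).d _ x]

lemma rgam {a b : Sm L.O} {f₁ f₂ : E N → ℂ} (h₁ : a.Rep f₁) (h₂ : b.Rep f₂) :
    (L.dat.gam a b).Rep fun z => gamM (C.G z) f₁ f₂ z := fun x => by
  simp [Dat.gam, gamM, L.rG _ _ x, h₁.d _ x, h₂.db _ x]

lemma dlog_eq {a : Sm L.O} {f : E N → ℂ} (h : a.Rep f) (x : L.O) :
    dlogM (C.G x) f x = (Sm.ev x (L.dat.W a) / f x ^ 2).re := by
  simp [dlogM, Dat.W, h x, L.rlap h x, L.rgam h h x]

lemma ev_X (k : Fin n) {a : Sm L.O} {f : E N → ℂ} (h : a.Rep f) (x : L.O) :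
    Sm.ev x (L.dat.X k a) = ∑ c, C.X ι x k c * dz c f x := by
  simp [Dat.X_apply, L.rX _ _ x, h.d _ x]

lemma ev_Xb (k : Fin n) {a : Sm L.O} {f : E N → ℂ} (h : a.Rep f) (x : L.O) :
    Sm.ev x (L.dat.Xb k a) = ∑ c, star (C.X ι x k c) * dzb c f x := by
  simp [Dat.Xb_apply, L.rX _ _ x, h.db _ x]

end Loc

end Chart

section
variable {κ : Type} [Fintype κ] {O : Opens (E N)} (x : O) (g : Matrix κ κ (Sm O))

lemma ev_ip1 (v w : κ → Sm O) : Sm.ev x (ip1 g v w) =
    ip1 (g.map (Sm.ev x)) (fun k => Sm.ev x (v k)) (fun k => Sm.ev x (w k)) := by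
  simp only [ip1, map_sum, map_mul, Sm.ev_star, Matrix.map_apply]

lemma ev_ip3 (v w : κ → κ → κ → Sm O) : Sm.ev x (ip3 g v w) =
    ip3 (g.map (Sm.ev x)) (fun a b c => Sm.ev x (v a b c)) (fun a b c => Sm.ev x (w a b c)) := by
  simp only [ip3, map_sum, map_mul, Sm.ev_star, Matrix.map_apply]

lemma ev_qt3 (u : κ → κ → κ → Sm O) : Sm.ev x (qt3 g u) =
    qt3 (g.map (Sm.ev x)) (fun a b c => Sm.ev x (u a b c)) := by
  simp only [qt3, pc3, map_sum, map_mul, Sm.ev_star, Matrix.map_apply]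

end

/-- The curvature function is the real part of the algebraic one. -/
lemma Chart.Loc.S_eq {C : Chart N} {ι : Fin n → Fin N} (L : C.Loc ι) (x : L.O) :
    C.S ι x = (Sm.ev x L.dat.S).re := by
  rw [Chart.S, L.dlog_eq L.rdet x, Dat.W_det, map_mul, map_pow, L.rdet x,
    mul_div_cancel_right₀ _ (pow_ne_zero 2 (Chart.ac_ne (L.sub x.2)))]

end Pool.Agent.SPF
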