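import Pool.Agent.P.MP_c4558b_ag.NLDefs

/-! Global (1,1)-forms and integral 2-forms. -/

open scoped ComplexOrder ContDiff Matrix

namespace Pool.Agent.CK

open Pool.Agent.SPF

variable {N : ℕ} {X : Type} [TopologicalSpace X]

/-- A smooth closed real (1,1)-form `i ∑ h_ab dz_a dzbar_b` on `X`, given in every chart. -/
structure Form11 (A : Atlas X N) where
  h : A.ι → E N → Matrix (Fin N) (Fin N) ℂ
  smooth : ∀ i a b, ContDiffOn ℝ ∞ (fun z => h i z a b) (A.C i).W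
  herm : ∀ i, ∀ z ∈ (A.C i).W, (h i z).IsHermitian
  closed : ∀ i, ∀ z ∈ (A.C i).W, ∀ a b c,
    dz c (fun w => h i w a b) z = dz a (fun w => h i w c b) z
  compat : ∀ i j O φ, IsChange (A.C i) (A.C j) O φ → (∀ w ∈ O, A.p j (φ w) = A.p i w) →
    ∀ z ∈ O, h i z = (jac φ z)ᵀ * h j (φ z) * (jac φ z).map star

/-- The value of the form `i ∑ h_ab dz_a dzbar_b` on two tangent vectors. -/
def ev11 (h : Matrix (Fin N) (Fin N) ℂ) (u v : E N) : ℝ := -2 * (u ⬝ᵥ h *ᵥ star v).im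

/-- `β (∂_s Q, ∂_t Q) = ρ` on the unit square, computed in local `C^2` lifts of `Q`. -/
def IsPull (A : Atlas X N) (β : A.ι → E N → E N → E N → ℝ) (Q : ℝ × ℝ → X) (ρ : ℝ × ℝ → ℝ) :
    Prop :=
  ∀ s ∈ Set.Icc ((0, 0) : ℝ × ℝ) (1, 1), ∃ (i : A.ι) (O : Set (ℝ × ℝ)) (f : ℝ × ℝ → E N),
    IsOpen O ∧ s ∈ O ∧ ContDiffOn ℝ 2 f O ∧ ∀ x ∈ O, f x ∈ (A.C i).W ∧ A.p i (f x) = Q x ∧
      ρ x = β i (f x) (fderiv ℝ f x (1, 0)) (fderiv ℝ f x (0, 1))

/-- `β` is the curvature of a circle connection: paths have a holonomy in `ℝ / ℤ`, and the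
holonomy around a square is the integral of `β`. -/
def Integral (A : Atlas X N) (β : A.ι → E N → E N → E N → ℝ) : Prop :=
  ∃ H : (unitInterval → X) → ℝ, ∀ Q ρ, IsPull A β Q ρ → ∃ k : ℤ,
    H (fun t => Q (t, 0)) + H (fun t => Q (1, t)) - H (fun t => Q (t, 1)) - H (fun t => Q (0, t))
      = (∫ s in (0 : ℝ)..1, ∫ t in (0 : ℝ)..1, ρ (s, t)) + k

end Pool.Agent.CK
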