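import Pool.Agent.P.MP_63735c_ag.SPReg

/-! Second derivative test and the logarithm. -/

open Set Filter Topology
open scoped ComplexOrder ContDiff Matrix

namespace Pool.Agent.SPF

variable {N n : ℕ}

lemma test_line {f : E N → ℂ} {x v : E N} {t : ℝ} (hf : DifferentiableAt ℝ f (x + t • v)) :
    HasDerivAt (fun t : ℝ => (f (x + t • v)).re) (fderiv ℝ f (x + t • v) v).re t := by
  have h1 : HasDerivAt (fun t : ℝ => x + t • v) v t := by
    simpa using ((hasDerivAt_id t).smul_const v).const_add x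
  have h2 := hf.hasFDerivAt.comp_hasDerivAt t h1
  exact Complex.reCLM.hasFDerivAt.comp_hasDerivAt t h2

lemma test_dir {O : TopologicalSpace.Opens (E N)} {a : Sm O} {ψ : E N → ℝ}
    (h : a.Rep fun w => (ψ w : ℂ)) (x : O) (hm : IsLocalMax ψ x.1) (v : E N) :
    (Sm.ev x (Sm.der v (Sm.der v a))).re ≤ 0 := by
  by_contra hpos
  rw [not_le] at hpos
  have hc : Continuous fun t : ℝ => x.1 + t • v := by fun_prop
  have h0 : x.1 + (0 : ℝ) • v = x.1 := by simp
  have ht : Tendsto (fun t : ℝ => x.1 + t • v) (𝓝 0) (𝓝 x.1) := by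
    simpa using hc.tendsto 0
  have hO : ∀ᶠ t : ℝ in 𝓝 0, x.1 + t • v ∈ O := ht.eventually (O.isOpen.mem_nhds x.2)
  set g : ℝ → ℝ := fun t => ψ (x.1 + t • v) with hg
  have hd : ∀ᶠ t : ℝ in 𝓝 0, HasDerivAt g
      (fderiv ℝ (fun w => (ψ w : ℂ)) (x.1 + t • v) v).re t := by
    filter_upwards [hO] with t ht
    exact test_line (f := fun w => (ψ w : ℂ))
      ((h.contDiffAt ⟨_, ht⟩).differentiableAt (by simp))
  have hd1 : deriv g =ᶠ[𝓝 0] fun t => (fderiv ℝ (fun w => (ψ w : ℂ)) (x.1 + t • v) v).re :=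
    hd.mono fun t ht => ht.deriv
  have hd2 : deriv (deriv g) 0 = (Sm.ev x (Sm.der v (Sm.der v a))).re := by
    rw [hd1.deriv_eq, (h.der v).der v x]
    have := test_line (f := fun y => fderiv ℝ (fun w => (ψ w : ℂ)) y v) (x := x.1) (v := v)
      (t := 0) (by rw [h0]; exact ((h.der v).contDiffAt x).differentiableAt (by simp))
    rw [this.deriv, h0]
  have hmax : IsLocalMax g 0 := by
    have := ht.eventually hm
    refine this.mono fun t ht => ?_
    simpa [hg] using ht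
  have hmin : IsLocalMin g 0 := isLocalMin_of_deriv_deriv_pos (by rw [hd2]; exact hpos)
    hmax.deriv_eq_zero hd.self_of_nhds.continuousAt
  have hcst : g =ᶠ[𝓝 0] fun _ => g 0 := by
    filter_upwards [hmax, hmin] with t h1 h2 using le_antisymm h1 h2
  have := hcst.deriv.deriv_eq
  rw [hd2] at this
  simp only [deriv_const', deriv_const] at this
  exact hpos.ne' this

lemma test_der {O : TopologicalSpace.Opens (E N)} (v : E N) (a : Sm O) :
    Sm.der v a = ∑ i, (v i • Sm.d i a + star (v i) • Sm.db i a) := by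
  ext x
  rw [Sm.ev_der, fderiv_eq_wirt, map_sum]
  refine Finset.sum_congr rfl fun i _ => ?_
  rw [map_add, map_smul, map_smul, a.rep_fn.d i x, a.rep_fn.db i x, smul_eq_mul, smul_eq_mul]

lemma test_levi {O : TopologicalSpace.Opens (E N)} (v : E N) (a : Sm O) (x : O) :
    4 * ∑ i, ∑ j, v i * star (v j) * Sm.ev x (Sm.d i (Sm.db j a)) =
      Sm.ev x (Sm.der v (Sm.der v a)) +
        Sm.ev x (Sm.der (Complex.I • v) (Sm.der (Complex.I • v) a)) := by
  have key : ∀ u : E N, Sm.ev x (Sm.der u (Sm.der u a)) =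
      ∑ i, ∑ j, (u i * u j * Sm.ev x (Sm.d i (Sm.d j a)) +
        u i * star (u j) * Sm.ev x (Sm.d i (Sm.db j a)) +
        u j * star (u i) * Sm.ev x (Sm.d j (Sm.db i a)) +
        star (u i) * star (u j) * Sm.ev x (Sm.db i (Sm.db j a))) := by
    intro u
    rw [test_der u (Sm.der u a), map_sum]
    refine Finset.sum_congr rfl fun i _ => ?_
    rw [test_der u a]
    simp only [map_add, map_sum, map_smul, Derivation.map_smul, smul_eq_mul, Finset.mul_sum,
      ← Finset.sum_add_distrib]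
    refine Finset.sum_congr rfl fun j _ => ?_
    rw [Sm.d_db j i]
    ring
  have sw : ∑ i, ∑ j, v j * star (v i) * Sm.ev x (Sm.d j (Sm.db i a)) =
      ∑ i, ∑ j, v i * star (v j) * Sm.ev x (Sm.d i (Sm.db j a)) := Finset.sum_comm
  have h4 : ∀ S T : ℂ, T = S → 4 * S = 2 * S + 2 * T := fun S T h => by rw [h]; ring
  rw [key, key, h4 _ _ sw]
  simp only [Finset.mul_sum, ← Finset.sum_add_distrib]
  refine Finset.sum_congr rfl fun i _ => Finset.sum_congr rfl fun j _ => ?_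
  simp only [Pi.smul_apply, smul_eq_mul, star_mul', Complex.star_def, Complex.conj_I]
  linear_combination (-(v i * v j * Sm.ev x (Sm.d i (Sm.d j a))) +
    v i * (starRingEnd ℂ) (v j) * Sm.ev x (Sm.d i (Sm.db j a)) +
    v j * (starRingEnd ℂ) (v i) * Sm.ev x (Sm.d j (Sm.db i a)) -
    (starRingEnd ℂ) (v i) * (starRingEnd ℂ) (v j) * Sm.ev x (Sm.db i (Sm.db j a))) * Complex.I_sq

lemma test_lap {O : TopologicalSpace.Opens (E N)} {a : Sm O} {f : E N → ℂ} (h : a.Rep f)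
    (G : Matrix (Fin N) (Fin N) ℂ) (x : O) :
    lapM G f x = ∑ i, ∑ j, G i j * Sm.ev x (Sm.d i (Sm.db j a)) :=
  Finset.sum_congr rfl fun i _ => Finset.sum_congr rfl fun j _ => by rw [(h.db j).d i x]

lemma test_ofReal {f : E N → ℝ} {s : Set (E N)} (hf : ContDiffOn ℝ ∞ f s) :
    ContDiffOn ℝ ∞ (fun w => (f w : ℂ)) s :=
  Complex.ofRealCLM.contDiff.comp_contDiffOn hf

lemma test_fderiv {f : E N → ℝ} {z : E N} (hf : DifferentiableAt ℝ f z) (v : E N) :
    fderiv ℝ (fun w => (f w : ℂ)) z v = (fderiv ℝ f z v : ℝ) := by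
  have := (Complex.ofRealCLM.hasFDerivAt.comp z hf.hasFDerivAt).fderiv
  exact congrArg (fun L : E N →L[ℝ] ℂ => L v) this

lemma test_open {f : E N → ℝ} {s : Set (E N)} (hs : IsOpen s) (hf : ContDiffOn ℝ ∞ f s) :
    IsOpen (s ∩ f ⁻¹' Ioi 0) :=
  hf.continuousOn.isOpen_inter_preimage hs isOpen_Ioi

/-- Second derivative test for the Levi form. -/
lemma lapM_nonpos {G : Matrix (Fin N) (Fin N) ℂ} (hG : G.PosSemidef) {ψ : E N → ℝ} {z : E N}
    {s : Set (E N)} (hs : IsOpen s) (hz : z ∈ s) (hψ : ContDiffOn ℝ ∞ ψ s) (hm : IsLocalMax ψ z) :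
    (lapM G (fun w => (ψ w : ℂ)) z).re ≤ 0 := by
  obtain ⟨m, v, rfl⟩ := Matrix.posSemidef_iff_eq_sum_vecMulVec.1 hG
  let O : TopologicalSpace.Opens (E N) := ⟨s, hs⟩
  have h := Sm.rep_mk (O := O) _ (test_ofReal hψ)
  set a := Sm.mk (O := O) _ (test_ofReal hψ)
  have e : lapM (∑ k, Matrix.vecMulVec (v k) (star (v k))) (fun w => (ψ w : ℂ)) z =
      ∑ k, ∑ i, ∑ j, v k i * star (v k j) * Sm.ev ⟨z, hz⟩ (Sm.d i (Sm.db j a)) := by
    rw [test_lap h _ ⟨z, hz⟩]
    simp only [Matrix.sum_apply, Matrix.vecMulVec_apply, Pi.star_apply, Finset.sum_mul]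
    rw [Finset.sum_comm (γ := Fin m)]
    exact Finset.sum_congr rfl fun i _ => Finset.sum_comm
  rw [e, Complex.re_sum]
  refine Finset.sum_nonpos fun k _ => ?_
  have h1 := congrArg Complex.re (test_levi (v k) a ⟨z, hz⟩)
  have h2 := test_dir h ⟨z, hz⟩ hm (v k)
  have h3 := test_dir h ⟨z, hz⟩ hm (Complex.I • v k)
  rw [Complex.add_re, show (4 : ℂ) = ((4 : ℝ) : ℂ) by norm_num, Complex.re_ofReal_mul] at h1
  linarith

lemma lapM_log (G : Matrix (Fin N) (Fin N) ℂ) {f : E N → ℝ} {z : E N}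
    {s : Set (E N)} (hs : IsOpen s) (hz : z ∈ s) (hf : ContDiffOn ℝ ∞ f s) (h0 : 0 < f z) :
    (lapM G (fun w => (Real.log (f w) : ℂ)) z).re = dlogM G (fun w => (f w : ℂ)) z := by
  let O : TopologicalSpace.Opens (E N) := ⟨_, test_open hs hf⟩
  have hf' : ContDiffOn ℝ ∞ f O := hf.mono inter_subset_left
  have hpos : ∀ w ∈ (O : Set (E N)), 0 < f w := fun w hw => hw.2
  have hl' : ContDiffOn ℝ ∞ (fun w => Real.log (f w)) O := hf'.log fun w hw => (hpos w hw).ne'
  have ha := Sm.rep_mk (O := O) _ (test_ofReal hf')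
  have hl := Sm.rep_mk (O := O) _ (test_ofReal hl')
  set a := Sm.mk (O := O) _ (test_ofReal hf')
  set l := Sm.mk (O := O) _ (test_ofReal hl')
  have k0 : ∀ v, a * Sm.der v l = Sm.der v a := by
    intro v
    ext x
    have hd : DifferentiableAt ℝ f x.1 :=
      (hf'.contDiffAt (O.isOpen.mem_nhds x.2)).differentiableAt (by simp)
    have hx := (hpos _ x.2).ne'
    rw [map_mul, ha x, hl.der v x, ha.der v x]
    beta_reduce
    rw [test_fderiv hd, test_fderiv (hd.log hx), (hd.hasFDerivAt.log hx).fderiv]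
    simp only [ContinuousLinearMap.smul_apply, smul_eq_mul]
    push_cast
    have : (f x.1 : ℂ) ≠ 0 := by exact_mod_cast hx
    field_simp
  have k1 : ∀ i, a * Sm.d i l = Sm.d i a := fun i => by
    simp only [Sm.d, Derivation.smul_apply, Derivation.sub_apply, ← k0, mul_smul_comm, mul_sub]
  have k2 : ∀ i, a * Sm.db i l = Sm.db i a := fun i => by
    simp only [Sm.db, Derivation.smul_apply, Derivation.add_apply, ← k0, mul_smul_comm, mul_add]
  have k3 : ∀ i j, a ^ 2 * Sm.d i (Sm.db j l) = a * Sm.d i (Sm.db j a) - Sm.d i a * Sm.db j a := by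
    intro i j
    have h1 := congrArg (Sm.d i) (k2 j)
    rw [Derivation.leibniz, smul_eq_mul, smul_eq_mul] at h1
    rw [← h1]
    linear_combination (-Sm.d i a) * k2 j
  let x : O := ⟨z, hz, h0⟩
  have hx : (f z : ℂ) ≠ 0 := by exact_mod_cast h0.ne'
  have hax : Sm.ev x a = f z := ha x
  unfold dlogM
  congr 1
  rw [eq_div_iff (pow_ne_zero 2 hx), test_lap hl G x, test_lap ha G x, gamM]
  simp only [Finset.sum_mul, Finset.mul_sum, ← Finset.sum_sub_distrib]
  refine Finset.sum_congr rfl fun i _ => Finset.sum_congr rfl fun j _ => ?_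
  have h2 := congrArg (Sm.ev x) (k3 i j)
  rw [map_mul, map_sub, map_mul, map_mul, map_pow, hax, ha.d i x, ha.db j x] at h2
  linear_combination G i j * h2

lemma dlogM_congr (G : Matrix (Fin N) (Fin N) ℂ) {f₁ f₂ : E N → ℂ} {z : E N}
    (h : f₁ =ᶠ[𝓝 z] f₂) : dlogM G f₁ z = dlogM G f₂ z := by
  have h1 : ∀ {g₁ g₂ : E N → ℂ}, g₁ =ᶠ[𝓝 z] g₂ → ∀ a, dz a g₁ z = dz a g₂ z := fun hg a => by
    simp only [dz, hg.fderiv_eq]
  have h2 : ∀ b, dzb b f₁ =ᶠ[𝓝 z] dzb b f₂ := fun b =>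
    (h.fderiv (𝕜 := ℝ)).mono fun w hw => by simp only [dzb, hw]
  simp only [dlogM, lapM, gamM, h.self_of_nhds, h1 h, h1 (h2 _), (h2 _).self_of_nhds]

lemma max_test {G : Matrix (Fin N) (Fin N) ℂ} (hG : G.PosSemidef) {f₁ f₂ f₃ : E N → ℝ} {z : E N}
    {s : Set (E N)} (hs : IsOpen s) (hz : z ∈ s)
    (h₁ : ContDiffOn ℝ ∞ f₁ s) (h₂ : ContDiffOn ℝ ∞ f₂ s) (h₃ : ContDiffOn ℝ ∞ f₃ s)
    (p₁ : 0 < f₁ z) (p₂ : 0 < f₂ z) (p₃ : 0 < f₃ z) {ε : ℝ}
    (hm : IsLocalMax (fun w => f₁ w * (f₃ w * f₂ w) ^ ε) z) :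
    dlogM G (fun w => (f₁ w : ℂ)) z + ε * dlogM G (fun w => (f₂ w : ℂ)) z +
      ε * dlogM G (fun w => (f₃ w : ℂ)) z ≤ 0 := by
  have o₁ := test_open hs h₁
  have o₂ := test_open o₁ (h₂.mono inter_subset_left)
  have o₃ := test_open o₂ (h₃.mono (inter_subset_left.trans inter_subset_left))
  let O : TopologicalSpace.Opens (E N) := ⟨_, o₃⟩
  have sub : (O : Set (E N)) ⊆ s := fun w hw => hw.1.1.1
  have l₁ : ContDiffOn ℝ ∞ (fun w => Real.log (f₁ w)) O :=
    (h₁.mono sub).log fun w hw => (hw.1.1.2 : 0 < f₁ w).ne'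
  have l₂ : ContDiffOn ℝ ∞ (fun w => Real.log (f₂ w)) O :=
    (h₂.mono sub).log fun w hw => (hw.1.2 : 0 < f₂ w).ne'
  have l₃ : ContDiffOn ℝ ∞ (fun w => Real.log (f₃ w)) O :=
    (h₃.mono sub).log fun w hw => (hw.2 : 0 < f₃ w).ne'
  let x : O := ⟨z, ⟨⟨hz, p₁⟩, p₂⟩, p₃⟩
  let ψ : E N → ℝ := fun w => Real.log (f₁ w) + ε * Real.log (f₂ w) + ε * Real.log (f₃ w)
  have hψ : ContDiffOn ℝ ∞ ψ O :=
    (l₁.add (contDiffOn_const.mul l₂)).add (contDiffOn_const.mul l₃)
  have e : ∀ w ∈ (O : Set (E N)), ψ w = Real.log (f₁ w * (f₃ w * f₂ w) ^ ε) ∧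
      0 < f₁ w * (f₃ w * f₂ w) ^ ε := by
    intro w hw
    have q₁ : 0 < f₁ w := hw.1.1.2
    have q₂ : 0 < f₂ w := hw.1.2
    have q₃ : 0 < f₃ w := hw.2
    have q : 0 < (f₃ w * f₂ w) ^ ε := Real.rpow_pos_of_pos (mul_pos q₃ q₂) ε
    refine ⟨?_, mul_pos q₁ q⟩
    rw [Real.log_mul q₁.ne' q.ne', Real.log_rpow (mul_pos q₃ q₂), Real.log_mul q₃.ne' q₂.ne']
    ring
  have hmax : IsLocalMax ψ z := by
    filter_upwards [hm, O.isOpen.mem_nhds x.2] with w hw hO
    rw [(e w hO).1, (e z x.2).1]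
    exact Real.log_le_log (e w hO).2 hw
  have h0 := lapM_nonpos hG O.isOpen x.2 hψ hmax
  have r₁ := Sm.rep_mk (O := O) _ (test_ofReal l₁)
  have r₂ := Sm.rep_mk (O := O) _ (test_ofReal l₂)
  have r₃ := Sm.rep_mk (O := O) _ (test_ofReal l₃)
  set a₁ := Sm.mk (O := O) _ (test_ofReal l₁)
  set a₂ := Sm.mk (O := O) _ (test_ofReal l₂)
  set a₃ := Sm.mk (O := O) _ (test_ofReal l₃)
  have r : (a₁ + (ε : ℂ) • a₂ + (ε : ℂ) • a₃).Rep fun w => (ψ w : ℂ) := fun y => by
    rw [map_add, map_add, map_smul, map_smul, r₁ y, r₂ y, r₃ y]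
    simp only [ψ, smul_eq_mul]
    push_cast
    rfl
  have add : lapM G (fun w => (ψ w : ℂ)) z = lapM G (fun w => (Real.log (f₁ w) : ℂ)) z +
      ε * lapM G (fun w => (Real.log (f₂ w) : ℂ)) z +
      ε * lapM G (fun w => (Real.log (f₃ w) : ℂ)) z := by
    rw [test_lap r G x, test_lap r₁ G x, test_lap r₂ G x, test_lap r₃ G x]
    simp only [map_add, map_smul, Derivation.map_smul, smul_eq_mul, Finset.mul_sum,
      ← Finset.sum_add_distrib]
    refine Finset.sum_congr rfl fun i _ => Finset.sum_congr rfl fun j _ => ?_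
    ring
  rw [add, Complex.add_re, Complex.add_re, Complex.re_ofReal_mul, Complex.re_ofReal_mul,
    lapM_log G hs hz h₁ p₁, lapM_log G hs hz h₂ p₂, lapM_log G hs hz h₃ p₃] at h0
  exact h0

/-- Bounds for a cutoff function on a compact set. -/
lemma Chart.cutoff_bound (C : Chart N) {K : Set (E N)} (hK : IsCompact K) (hKW : K ⊆ C.W)
    {ρ : E N → ℝ} (hρ : ContDiff ℝ ∞ ρ) {c : ℝ} (hc : 0 < c) :
    ∃ M : ℝ, 0 ≤ M ∧ ∀ z ∈ K, (gamM (C.G z) (fun w => (ρ w : ℂ)) (fun w => (ρ w : ℂ)) z).re ≤ M ∧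
      (c ≤ ρ z → -M ≤ dlogM (C.G z) (fun w => (ρ w : ℂ)) z) := by
  have hF : ContDiffOn ℝ ∞ (fun w => (ρ w : ℂ)) C.W := test_ofReal hρ.contDiffOn
  have cg : ContinuousOn (fun z => gamM (C.G z) (fun w => (ρ w : ℂ)) (fun w => (ρ w : ℂ)) z) K := by
    refine ContinuousOn.mono ?_ hKW
    exact continuousOn_finsetSum _ fun a _ => continuousOn_finsetSum _ fun b _ =>
      ((C.G_smooth a b).continuousOn.mul (smooth_dz C.isOpen hF a).continuousOn).mul
        (smooth_dzb C.isOpen hF b).continuousOn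
  have cl : ContinuousOn (fun z => lapM (C.G z) (fun w => (ρ w : ℂ)) z) K := by
    refine ContinuousOn.mono ?_ hKW
    exact continuousOn_finsetSum _ fun a _ => continuousOn_finsetSum _ fun b _ =>
      (C.G_smooth a b).continuousOn.mul
        (smooth_dz C.isOpen (smooth_dzb C.isOpen hF b) a).continuousOn
  have hK' : IsCompact (K ∩ {z | c ≤ ρ z}) :=
    hK.inter_right (isClosed_le continuous_const hρ.continuous)
  have cρ : ContinuousOn (fun w => (ρ w : ℂ)) (K ∩ {z | c ≤ ρ z}) :=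
    hF.continuousOn.mono (inter_subset_left.trans hKW)
  have cd : ContinuousOn (fun z => dlogM (C.G z) (fun w => (ρ w : ℂ)) z) (K ∩ {z | c ≤ ρ z}) := by
    refine Complex.continuous_re.comp_continuousOn
      (((cρ.mul (cl.mono inter_subset_left)).sub (cg.mono inter_subset_left)).div (cρ.pow 2) ?_)
    intro z hz
    have : 0 < ρ z := hc.trans_le hz.2
    exact pow_ne_zero 2 (Complex.ofReal_ne_zero.2 this.ne')
  obtain ⟨M₁, h₁⟩ := hK.exists_bound_of_continuousOn cg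
  obtain ⟨M₂, h₂⟩ := hK'.exists_bound_of_continuousOn cd
  refine ⟨max 0 (max M₁ M₂), le_max_left _ _, fun z hz => ⟨?_, fun hcz => ?_⟩⟩
  · exact ((Complex.re_le_norm _).trans (h₁ z hz)).trans (le_max_of_le_right (le_max_left _ _))
  · have := h₂ z ⟨hz, hcz⟩
    rw [Real.norm_eq_abs, abs_le] at this
    exact (neg_le_neg (le_max_of_le_right (le_max_right _ _))).trans this.1

/-- The derivative of a real function along a good map. -/
lemma Chart.good_deriv {C : Chart N} {f : E n → E N} {t : E n} (hf : C.Good f t) {ψ : E N → ℝ}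
    (hψ : DifferentiableAt ℝ ψ (f t)) {M : ℝ} (hM : 0 ≤ M)
    (h : (gamM (C.G (f t)) (fun w => (ψ w : ℂ)) (fun w => (ψ w : ℂ)) (f t)).re ≤ M ^ 2) :
    ∃ L : E n →L[ℝ] ℝ, HasFDerivAt (fun s => ψ (f s)) L t ∧ ‖L‖ ≤ 2 * n * M := by
  obtain ⟨-, -, hd, hj⟩ := hf.self_of_nhds
  have hc : DifferentiableAt ℝ (fun s => ψ (f s)) t := hψ.comp t (hd.restrictScalars ℝ)
  have hF : DifferentiableAt ℝ (fun w => (ψ w : ℂ)) (f t) :=
    Complex.ofRealCLM.differentiableAt.comp _ hψ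
  have hst : ∀ c, dzb c (fun w => (ψ w : ℂ)) (f t) = star (dz c (fun w => (ψ w : ℂ)) (f t)) := by
    intro c
    rw [dzb, dz, test_fderiv hψ, test_fderiv hψ]
    simp
  let u : Fin n → ℂ := fun k => ∑ c, jac f t c k * dz c (fun w => (ψ w : ℂ)) (f t)
  have hg : gamM (C.G (f t)) (fun w => (ψ w : ℂ)) (fun w => (ψ w : ℂ)) (f t) =
      ∑ k, u k * star (u k) := by
    simp only [gamM, ← hj, Matrix.mul_apply, Matrix.conjTranspose_apply, hst, u, star_sum,
      star_mul', Finset.sum_mul, Finset.mul_sum]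
    rw [Finset.sum_comm (γ := Fin n), Finset.sum_comm]
    refine Finset.sum_congr rfl fun a _ => ?_
    rw [Finset.sum_comm]
    refine Finset.sum_congr rfl fun b _ => Finset.sum_congr rfl fun k _ => ?_
    ring
  have hu : ∀ k, ‖u k‖ ≤ M := by
    intro k
    rw [hg, Complex.re_sum] at h
    have e : ∀ k, (u k * star (u k)).re = ‖u k‖ ^ 2 := fun k => by
      rw [Complex.star_def, Complex.mul_conj, Complex.ofReal_re, Complex.normSq_eq_norm_sq]
    simp only [e] at h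
    have := (Finset.single_le_sum (f := fun k => ‖u k‖ ^ 2) (fun k _ => sq_nonneg _)
      (Finset.mem_univ k)).trans h
    exact (pow_le_pow_iff_left₀ (norm_nonneg _) hM two_ne_zero).1 this
  refine ⟨_, hc.hasFDerivAt, ContinuousLinearMap.opNorm_le_bound _ (by positivity) fun v => ?_⟩
  have e1 := test_fderiv hc v
  rw [fderiv_eq_wirt] at e1
  rw [← Complex.norm_real, ← e1]
  refine (norm_sum_le _ _).trans ?_
  have e2 : ∀ k, ‖v k * dz k (fun w => (ψ (f w) : ℂ)) t +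
      star (v k) * dzb k (fun w => (ψ (f w) : ℂ)) t‖ ≤ 2 * M * ‖v‖ := by
    intro k
    obtain ⟨q₁, q₂⟩ := dz_comp hF hd k
    have q₃ : dzb k (fun w => (ψ (f w) : ℂ)) t = star (u k) := by
      rw [q₂]
      simp only [u, hst, star_sum, star_mul']
    have q₄ : dz k (fun w => (ψ (f w) : ℂ)) t = u k := q₁
    rw [q₃, q₄]
    refine (norm_add_le _ _).trans ?_
    rw [norm_mul, norm_mul, norm_star, norm_star]
    have := mul_le_mul (norm_le_pi_norm v k) (hu k) (norm_nonneg _) (norm_nonneg _)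
    linarith
  refine (Finset.sum_le_sum fun k _ => e2 k).trans (le_of_eq ?_)
  simp only [Finset.sum_const, Finset.card_univ, Fintype.card_fin, nsmul_eq_mul]
  ring

end Pool.Agent.SPF
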