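import Pool.Agent.P.MP_63735c_ag.SELine

/-! A Kähler manifold that contains `X` as a dense open part and to which `L` extends. -/

open scoped ComplexOrder ContDiff Matrix Topology

namespace Pool.Agent.SE

open Pool.Agent.SPF

/-- A complex manifold `Y` with charts `p i`, a Kähler form `K` and a line bundle `g` with a
semipositive metric `exp (-ψ i)`, and an injective map `j : X → Y` with dense image through which
every chart `i` of `A` is an open part of the chart `c i` of `Y` and the line bundle is `L`. -/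
structure Res {N : ℕ} {X : Type} [TopologicalSpace X] {A : Atlas X N} (L : Line A) (Y : Type)
    [TopologicalSpace Y] where
  ι : Type
  W : ι → Set (E N)
  p : ι → E N → Y
  isOpen : ∀ i, IsOpen (W i)
  cont : ∀ i, ContinuousOn (p i) (W i)
  inj : ∀ i, Set.InjOn (p i) (W i)
  opn : ∀ i O, IsOpen O → O ⊆ W i → IsOpen (p i '' O)
  cover : ∀ x, ∃ i, ∃ z ∈ W i, p i z = x
  trans : ∀ i k, ∀ z ∈ W i, ∀ y ∈ W k, p i z = p k y → ∃ φ : E N → E N, φ z = y ∧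
    ∀ᶠ w in 𝓝 z, DifferentiableAt ℂ φ w ∧ φ w ∈ W k ∧ p k (φ w) = p i w
  K : ι → E N → Matrix (Fin N) (Fin N) ℂ
  K_smooth : ∀ i a b, ContDiffOn ℝ ∞ (fun z => K i z a b) (W i)
  K_pos : ∀ i, ∀ z ∈ W i, (K i z).PosDef
  K_closed : ∀ i, ∀ z ∈ W i, ∀ a b c, dz c (fun w => K i w a b) z = dz a (fun w => K i w c b) z
  K_eq : ∀ i k, ∀ z ∈ W i, ∀ φ : E N → E N,
    (∀ᶠ w in 𝓝 z, DifferentiableAt ℂ φ w ∧ φ w ∈ W k ∧ p k (φ w) = p i w) →
      K i z = (jac φ z)ᵀ * K k (φ z) * (jac φ z).map star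
  g : ι → ι → Y → ℂ
  ψ : ι → E N → ℝ
  g_hol : ∀ i k, ∀ z ∈ W i, p i z ∈ p k '' W k → DifferentiableAt ℂ (fun w => g i k (p i w)) z
  g_mul : ∀ i k l x, x ∈ p i '' W i → x ∈ p k '' W k → x ∈ p l '' W l →
    g k l x * g i k x = g i l x
  ψ_smooth : ∀ i, ContDiffOn ℝ ∞ (ψ i) (W i)
  ψ_eq : ∀ i k, ∀ z ∈ W i, ∀ y ∈ W k, p i z = p k y →
    Real.exp (-ψ i z) = ‖g i k (p i z)‖ ^ 2 * Real.exp (-ψ k y)
  ψ_psd : ∀ i, ∀ z ∈ W i,
    (Matrix.of fun a b => dz a (fun y => star (dz b (fun x => (ψ i x : ℂ)) y)) z).PosSemidef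
  j : X → Y
  c : A.ι → ι
  j_cont : Continuous j
  j_inj : Function.Injective j
  j_dense : DenseRange j
  sub : ∀ i, (A.C i).W ⊆ W (c i)
  p_eq : ∀ i, ∀ z ∈ (A.C i).W, p (c i) z = j (A.p i z)
  g_eq : ∀ i k, ∀ z ∈ (A.C i).W, A.p i z ∈ A.p k '' (A.C k).W →
    L.g i k (A.p i z) = g (c i) (c k) (p (c i) z)
  ψ_res : ∀ i, ∀ z ∈ (A.C i).W, L.ψ i z = ψ (c i) z

end Pool.Agent.SE
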