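import Pool.Agent.P.MP_63735c_ag.SPTest

/-! First derivatives of a semipositive form along its null space. -/

open Set Filter Topology
open scoped ComplexOrder ContDiff Matrix

namespace Pool.Agent.SPF

variable {N : ℕ}

lemma hess_ring {R : Type} [CommRing R] [Algebra ℂ R] (D₁ D₂ : Derivation ℂ R R) (e : R →ₐ[ℂ] ℂ)
    {P Q Q' S l l' : R} (h1 : e l = 0) (h2 : e l' = 0) (h3 : e Q = 0) (h4 : e Q' = 0) :
    e (D₁ (D₂ (P + l' * Q + l * Q' + l * l' * S))) =
      e (D₁ (D₂ P)) + e (D₂ l') * e (D₁ Q) + e (D₁ l') * e (D₂ Q) + e (D₂ l) * e (D₁ Q') +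
        e (D₁ l) * e (D₂ Q') + (e (D₁ l) * e (D₂ l') + e (D₂ l) * e (D₁ l')) * e S := by
  simp only [map_add, map_mul, Derivation.leibniz, smul_eq_mul, h1, h2, h3, h4]
  ring

lemma hess_quad {A B S : ℂ} {T : ℝ} (hS : 0 ≤ S) (hT : 0 ≤ T) (hA : A.re ≤ T)
    (h : ∀ τ : ℂ, 0 ≤ (A + star τ * B + τ * star B + τ * star τ * S).re) :
    ‖B‖ ^ 2 ≤ T * S.re := by
  obtain ⟨s1, s2⟩ := Complex.nonneg_iff.1 hS
  have hB : ‖B‖ ^ 2 = B.re * B.re + B.im * B.im := by
    rw [Complex.sq_norm, Complex.normSq_apply]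
  have key : ∀ t : ℝ, 0 ≤ (‖B‖ ^ 2 * S.re) * (t * t) + (2 * ‖B‖ ^ 2) * t + T := by
    intro t
    have := h (t * B)
    simp only [Complex.add_re, Complex.mul_re, Complex.mul_im, Complex.star_def, map_mul,
      Complex.conj_ofReal, Complex.ofReal_re, Complex.ofReal_im, Complex.conj_re, Complex.conj_im,
      ← s2] at this
    rw [hB]
    nlinarith
  have hd := discrim_le_zero key
  rw [discrim] at hd
  rcases eq_or_lt_of_le (sq_nonneg ‖B‖) with h0 | h0
  · rw [← h0]; positivity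
  · by_contra hc
    push Not at hc
    nlinarith

lemma hess_core {O : TopologicalSpace.Opens (E N)} (x : O) (a : Fin N) (ψ : Sm O)
    (hpos : ∀ y, 0 ≤ Sm.ev y ψ) (h0 : Sm.ev x ψ = 0) :
    0 ≤ (Sm.ev x (Sm.d a (Sm.db a ψ))).re := by
  have hG : (Matrix.diagonal (Pi.single a (1 : ℂ)) : Matrix (Fin N) (Fin N) ℂ).PosSemidef := by
    apply Matrix.PosSemidef.diagonal
    intro i
    by_cases h : i = a
    · subst h; simp
    · simp [h]
  have hs : ContDiffOn ℝ ∞ (fun y => -(ψ.fn y).re) O :=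
    (Complex.reCLM.contDiff.comp_contDiffOn ψ.smooth).neg
  have hm : IsLocalMax (fun y => -(ψ.fn y).re) x.1 := by
    filter_upwards [O.isOpen.mem_nhds x.2] with y hy
    rw [← ψ.ev_eq x, h0, ψ.fn_apply hy]
    have := (Complex.nonneg_iff.1 (hpos ⟨y, hy⟩)).1
    simp only [Complex.zero_re, neg_zero]
    linarith
  have h := lapM_nonpos hG O.isOpen x.2 hs hm
  have hr : (-ψ).Rep (fun w => ((-(ψ.fn w).re : ℝ) : ℂ)) := by
    intro y
    beta_reduce
    rw [map_neg, ← ψ.ev_eq y]
    have := (Complex.nonneg_iff.1 (hpos y)).2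
    apply Complex.ext <;> simp [← this]
  have e1 := (hr.db a).d a x
  have e2 : lapM (Matrix.diagonal (Pi.single a (1 : ℂ))) (fun w => ((-(ψ.fn w).re : ℝ) : ℂ)) x =
      dz a (dzb a fun w => ((-(ψ.fn w).re : ℝ) : ℂ)) x := by
    unfold lapM
    rw [Finset.sum_eq_single a, Finset.sum_eq_single a]
    · simp
    · intro b _ hb
      rw [Matrix.diagonal_apply_ne _ hb.symm, zero_mul]
    · simp
    · intro b _ hb
      refine Finset.sum_eq_zero fun c _ => ?_
      by_cases hc : b = c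
      · subst hc; simp [hb]
      · rw [Matrix.diagonal_apply_ne _ hc, zero_mul]
    · simp
  rw [e2, ← e1, map_neg, map_neg, map_neg, Complex.neg_re] at h
  linarith

lemma hess_psd {η : Matrix (Fin N) (Fin N) ℂ} (h : η.PosSemidef) (u : E N) :
    0 ≤ ∑ b, ∑ c, u b * η b c * star (u c) := by
  have := h.dotProduct_mulVec_nonneg (star u)
  simp only [star_star, dotProduct, Matrix.mulVec, Finset.mul_sum, Pi.star_apply] at this
  simpa only [mul_assoc] using this

lemma Chart.hess_pt (C : Chart N) {z : E N} (hz : z ∈ C.W) {v : E N} (hv : v ∈ C.null z) (w : E N)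
    (a : Fin N) {T : ℝ} (hT : 0 ≤ T)
    (hA : (∑ b, ∑ c, v b * dz a (dzb a fun y => C.η y b c) z * star (v c)).re ≤ T) :
    ‖∑ b, ∑ c, v b * dz a (fun y => C.η y b c) z * star (w c)‖ ^ 2 ≤
        T * (∑ b, ∑ c, w b * C.η z b c * star (w c)).re ∧
      ‖∑ b, ∑ c, v b * dzb a (fun y => C.η y b c) z * star (w c)‖ ^ 2 ≤
        T * (∑ b, ∑ c, w b * C.η z b c * star (w c)).re := by
  let O : TopologicalSpace.Opens (E N) := ⟨C.W, C.isOpen⟩
  let x : O := ⟨z, hz⟩
  let H : Fin N → Fin N → Sm O := fun b c => Sm.mk (fun y => C.η y b c) (C.η_smooth b c)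
  have rH : ∀ b c, (H b c).Rep (fun y => C.η y b c) := fun b c => Sm.rep_mk _ _
  let F : E N → E N → Sm O := fun p q => ∑ b, ∑ c, (p b * star (q c)) • H b c
  have evF : ∀ (L : Sm O →ₗ[ℂ] Sm O) (p q : E N) (y : O), Sm.ev y (L (F p q)) =
      ∑ b, ∑ c, p b * Sm.ev y (L (H b c)) * star (q c) := by
    intro L p q y
    simp only [F, map_sum, map_smul, smul_eq_mul]
    exact Finset.sum_congr rfl fun b _ => Finset.sum_congr rfl fun c _ => by ring
  have ev0 : ∀ (p q : E N) (y : O), Sm.ev y (F p q) = ∑ b, ∑ c, p b * C.η y b c * star (q c) :=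
    fun p q y => evF LinearMap.id p q y
  have stF : ∀ p q : E N, star (F p q) = F q p := by
    intro p q
    ext y
    rw [Sm.ev_star, ev0, ev0, Finset.sum_comm, star_sum]
    refine Finset.sum_congr rfl fun b _ => ?_
    rw [star_sum]
    refine Finset.sum_congr rfl fun c _ => ?_
    rw [star_mul', star_mul', star_star, (C.η_psd y y.2).1.apply b c]
    ring
  have nul : ∀ q : E N, Sm.ev x (F v q) = 0 := by
    intro q
    rw [ev0, Finset.sum_comm]
    refine Finset.sum_eq_zero fun c _ => ?_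
    have h1 : v ᵥ* C.η z = 0 := hv
    have h2 : ∑ b, v b * C.η z b c = 0 := congrFun h1 c
    rw [← Finset.sum_mul, h2, zero_mul]
  have nul' : Sm.ev x (F w v) = 0 := by rw [← stF, Sm.ev_star, nul, star_zero]
  have hζ : Differentiable ℂ (fun y : E N => y a - z a) := by fun_prop
  let ζ : Sm O := Sm.mkH (fun y => y a - z a) hζ.differentiableOn
  have rζ : ζ.Rep (fun y => y a - z a) := Sm.rep_mkH _ _
  have z0 : Sm.ev x ζ = 0 := by rw [rζ x]; exact sub_self _
  have z1 : Sm.ev x (Sm.d a ζ) = 1 := by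
    rw [rζ.d a x, (dz_of_diff (hζ _) a).1]
    have : HasFDerivAt (fun y : E N => y a - z a)
        (ContinuousLinearMap.proj a : E N →L[ℂ] ℂ) x.1 :=
      (hasFDerivAt_apply a x.1).sub_const _
    rw [this.fderiv]
    simp
  have z2 : Sm.ev x (Sm.db a ζ) = 0 := by
    rw [rζ.db_eq_zero hζ.differentiableOn a, map_zero]
  have sd : ∀ f : Sm O, Sm.ev x (Sm.db a (star f)) = star (Sm.ev x (Sm.d a f)) := by
    intro f
    rw [← Sm.star_d, Sm.ev_star]
  have sdb : ∀ f : Sm O, Sm.ev x (Sm.d a (star f)) = star (Sm.ev x (Sm.db a f)) := by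
    intro f
    have := sd (star f)
    rw [star_star] at this
    rw [this, star_star]
  have main : ∀ l : Sm O, Sm.ev x l = 0 → 0 ≤ (Sm.ev x (Sm.d a (Sm.db a (F v v))) +
      star (Sm.ev x (Sm.d a l)) * Sm.ev x (Sm.d a (F v w)) +
      star (Sm.ev x (Sm.db a l)) * Sm.ev x (Sm.db a (F v w)) +
      Sm.ev x (Sm.db a l) * star (Sm.ev x (Sm.db a (F v w))) +
      Sm.ev x (Sm.d a l) * star (Sm.ev x (Sm.d a (F v w))) +
      (Sm.ev x (Sm.d a l) * star (Sm.ev x (Sm.d a l)) +
        Sm.ev x (Sm.db a l) * star (Sm.ev x (Sm.db a l))) * Sm.ev x (F w w)).re := by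
    intro l hl
    have hl' : Sm.ev x (star l) = 0 := by rw [Sm.ev_star, hl, star_zero]
    have h := hess_core x a (F v v + star l * F v w + l * F w v + l * star l * F w w) ?_ ?_
    · rw [hess_ring (Sm.d a) (Sm.db a) (Sm.ev x) hl hl' (nul w) nul', ← stF v w, sd, sdb, sd,
        sdb] at h
      exact h
    · intro y
      have := hess_psd (C.η_psd y y.2) (fun b => v b + Sm.ev y l * w b)
      simp only [map_add, map_mul, Sm.ev_star, ev0, Finset.mul_sum, ← Finset.sum_add_distrib]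
      refine le_of_le_of_eq this (Finset.sum_congr rfl fun b _ => Finset.sum_congr rfl fun c _ => ?_)
      rw [star_add, star_mul']
      ring
    · simp only [map_add, map_mul, hl, hl', nul, zero_mul, add_zero]
  have eA : Sm.ev x (Sm.d a (Sm.db a (F v v))) =
      ∑ b, ∑ c, v b * dz a (dzb a fun y => C.η y b c) z * star (v c) := by
    refine (evF ((Sm.d a : Derivation ℂ (Sm O) (Sm O)).toLinearMap ∘ₗ
      (Sm.db a : Derivation ℂ (Sm O) (Sm O)).toLinearMap) v v x).trans ?_
    refine Finset.sum_congr rfl fun b _ => Finset.sum_congr rfl fun c _ => ?_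
    congr 2
    exact ((rH b c).db a).d a x
  have eB : Sm.ev x (Sm.d a (F v w)) =
      ∑ b, ∑ c, v b * dz a (fun y => C.η y b c) z * star (w c) := by
    refine (evF (Sm.d a : Derivation ℂ (Sm O) (Sm O)).toLinearMap v w x).trans ?_
    refine Finset.sum_congr rfl fun b _ => Finset.sum_congr rfl fun c _ => ?_
    congr 2
    exact (rH b c).d a x
  have eB' : Sm.ev x (Sm.db a (F v w)) =
      ∑ b, ∑ c, v b * dzb a (fun y => C.η y b c) z * star (w c) := by
    refine (evF (Sm.db a : Derivation ℂ (Sm O) (Sm O)).toLinearMap v w x).trans ?_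
    refine Finset.sum_congr rfl fun b _ => Finset.sum_congr rfl fun c _ => ?_
    congr 2
    exact (rH b c).db a x
  have hS := hess_psd (C.η_psd z hz) w
  constructor
  · refine hess_quad hS hT hA fun τ => ?_
    have h := main (τ • ζ) (by rw [map_smul, z0, smul_zero])
    simp only [Derivation.map_smul, map_smul, z1, z2, smul_eq_mul, mul_one, mul_zero, star_zero,
      zero_mul, add_zero] at h
    rwa [eA, eB, ev0] at h
  · refine hess_quad hS hT hA fun τ => ?_
    have h := main (τ • star ζ) (by rw [map_smul, Sm.ev_star, z0, star_zero, smul_zero])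
    simp only [Derivation.map_smul, map_smul, sd, sdb, z1, z2, smul_eq_mul, mul_one, mul_zero,
      star_zero, star_one, zero_mul, add_zero, zero_add] at h
    rwa [eA, eB', ev0] at h

lemma Chart.hess (C : Chart N) {K : Set (E N)} (hK : IsCompact K) (hKW : K ⊆ C.W) :
    ∃ M : ℝ, 0 ≤ M ∧ ∀ z ∈ K, ∀ v ∈ C.null z, ∀ (w : E N) (a : Fin N),
      ‖∑ b, ∑ c, v b * dz a (fun y => C.η y b c) z * star (w c)‖ ^ 2 ≤
          M * ‖v‖ ^ 2 * (∑ b, ∑ c, w b * C.η z b c * star (w c)).re ∧
        ‖∑ b, ∑ c, v b * dzb a (fun y => C.η y b c) z * star (w c)‖ ^ 2 ≤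
          M * ‖v‖ ^ 2 * (∑ b, ∑ c, w b * C.η z b c * star (w c)).re := by
  have hc : ContinuousOn (fun z => ∑ a, ∑ b, ∑ c, ‖dz a (dzb a fun y => C.η y b c) z‖) K := by
    refine continuousOn_finsetSum _ fun a _ => continuousOn_finsetSum _ fun b _ =>
      continuousOn_finsetSum _ fun c _ => ?_
    exact ((smooth_dz C.isOpen (smooth_dzb C.isOpen (C.η_smooth b c) a) a).continuousOn.mono
      hKW).norm
  obtain ⟨M, hM⟩ := hK.exists_bound_of_continuousOn hc
  refine ⟨max M 0, le_max_right _ _, fun z hz v hv w a => ?_⟩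
  refine C.hess_pt (hKW hz) hv w a (by positivity) ?_
  have h1 : ∑ b, ∑ c, ‖dz a (dzb a fun y => C.η y b c) z‖ ≤ max M 0 := by
    refine le_trans ?_ (le_trans (le_trans (le_abs_self _) (hM z hz)) (le_max_left _ _))
    exact Finset.single_le_sum (f := fun a => ∑ b, ∑ c, ‖dz a (dzb a fun y => C.η y b c) z‖)
      (fun _ _ => by positivity) (Finset.mem_univ a)
  refine le_trans (Complex.re_le_norm _) (le_trans (norm_sum_le _ _) ?_)
  refine le_trans ?_ (mul_le_mul_of_nonneg_right h1 (sq_nonneg _))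
  rw [Finset.sum_mul]
  refine Finset.sum_le_sum fun b _ => le_trans (norm_sum_le _ _) ?_
  rw [Finset.sum_mul]
  refine Finset.sum_le_sum fun c _ => ?_
  rw [norm_mul, norm_mul, norm_star]
  have h2 := norm_le_pi_norm v b
  have h3 := norm_le_pi_norm v c
  have h4 : ‖v b‖ * ‖v c‖ ≤ ‖v‖ * ‖v‖ := mul_le_mul h2 h3 (norm_nonneg _) (norm_nonneg _)
  have h5 := norm_nonneg (dz a (dzb a fun y => C.η y b c) z)
  nlinarith

end Pool.Agent.SPF
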