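import Pool.Agent.P.MP_63735c_ag.SPAlg

/-! Pointwise inequalities for a positive definite matrix. -/

open scoped Matrix ComplexOrder

namespace Pool.Agent.SPF

variable {κ : Type} [Fintype κ] [DecidableEq κ] {g : Matrix κ κ ℂ}

open scoped MatrixOrder in
lemma l1_fac (hg : g.PosSemidef) :
    ∃ B : Matrix κ κ ℂ, ∀ k l, g k l = ∑ a, star (B a k) * B a l := by
  obtain ⟨B, rfl⟩ := CStarAlgebra.nonneg_iff_eq_star_mul_self.mp hg.nonneg
  exact ⟨B, fun k l => rfl⟩

lemma l1_inner (hg : g.PosSemidef) : ∃ φ : (κ → ℂ) →ₗ[ℂ] EuclideanSpace ℂ κ,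
    ∀ v w, ip1 g v w = inner ℂ (φ w) (φ v) := by
  obtain ⟨B, hB⟩ := l1_fac hg
  refine ⟨(WithLp.linearEquiv 2 ℂ (κ → ℂ)).symm.toLinearMap ∘ₗ (B.map star).mulVecLin,
    fun v w => ?_⟩
  have h : ∀ x : κ → ℂ, ∀ a, ((WithLp.linearEquiv 2 ℂ (κ → ℂ)).symm.toLinearMap ∘ₗ
      (B.map star).mulVecLin) x a = ∑ k, star (B a k) * x k := fun x a => rfl
  rw [PiLp.inner_apply]
  simp only [h]
  simp only [ip1, hB, RCLike.inner_apply, map_sum, map_mul, Finset.sum_mul, Finset.mul_sum,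
    Complex.star_def, Complex.conj_conj]
  rw [Finset.sum_comm]
  refine (Finset.sum_congr rfl fun l _ => Finset.sum_comm).trans (Finset.sum_comm.trans ?_)
  exact Finset.sum_congr rfl fun a _ => Finset.sum_congr rfl fun l _ =>
    Finset.sum_congr rfl fun k _ => by ring

omit [DecidableEq κ] in
lemma l1_dot (g : Matrix κ κ ℂ) (v w : κ → ℂ) : ip1 g v w = star (star v) ⬝ᵥ g *ᵥ star w := by
  simp only [ip1, star_star, dotProduct, Matrix.mulVec, Finset.mul_sum, Pi.star_apply, mul_assoc]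

lemma l1_re {E : Type} [NormedAddCommGroup E] [InnerProductSpace ℂ E] (x : E) :
    (inner ℂ x x).re = ‖x‖ ^ 2 := inner_self_eq_norm_sq (𝕜 := ℂ) x

lemma ip1_nonneg (hg : g.PosSemidef) (v : κ → ℂ) : 0 ≤ ip1 g v v := by
  rw [l1_dot]
  exact hg.dotProduct_mulVec_nonneg _

lemma ip1_cs (hg : g.PosSemidef) (v w : κ → ℂ) :
    ‖ip1 g v w‖ ^ 2 ≤ (ip1 g v v).re * (ip1 g w w).re := by
  obtain ⟨φ, h⟩ := l1_inner hg
  rw [h, h, h, l1_re, l1_re, ← mul_pow, mul_comm]
  exact pow_le_pow_left₀ (norm_nonneg _) (norm_inner_le_norm _ _) 2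

lemma l1_re_sq (z : ℂ) : z.re ^ 2 ≤ ‖z‖ ^ 2 := by
  rw [← sq_abs z.re]
  exact pow_le_pow_left₀ (abs_nonneg _) (Complex.abs_re_le_norm z) 2

/-- If the pairing with `v` is bounded by `M` times the form, then `v` has square norm `≤ M`. -/
lemma ip1_le_of_dual (hg : g.PosSemidef) (v : κ → ℂ) {M : ℝ} (hM : 0 ≤ M)
    (h : ∀ w, ‖ip1 g v w‖ ^ 2 ≤ M * (ip1 g w w).re) : (ip1 g v v).re ≤ M := by
  have h1 := (l1_re_sq _).trans (h v)
  by_contra hc
  have h2 := not_le.1 hc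
  nlinarith

lemma ip1_sum_le {β : Type} [Fintype β] (hg : g.PosSemidef) (v : β → κ → ℂ) {M : ℝ}
    (h : ∀ b, (ip1 g (v b) (v b)).re ≤ M) :
    (ip1 g (fun k => ∑ b, v b k) (fun k => ∑ b, v b k)).re ≤ (Fintype.card β : ℝ) ^ 2 * M := by
  obtain ⟨φ, hφ⟩ := l1_inner hg
  have e : (fun k => ∑ b, v b k) = ∑ b, v b := funext fun k => (Finset.sum_apply k _ v).symm
  rw [e, hφ, l1_re, map_sum]
  calc ‖∑ b, φ (v b)‖ ^ 2 ≤ (∑ b, ‖φ (v b)‖) ^ 2 :=
        pow_le_pow_left₀ (norm_nonneg _) (norm_sum_le _ _) 2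
    _ ≤ (Finset.univ : Finset β).card * ∑ b, ‖φ (v b)‖ ^ 2 := sq_sum_le_card_mul_sum_sq
    _ ≤ (Finset.univ : Finset β).card * ∑ _b : β, M := by
        refine mul_le_mul_of_nonneg_left (Finset.sum_le_sum fun b _ => ?_) (Nat.cast_nonneg _)
        rw [← l1_re, ← hφ]
        exact h b
    _ = (Fintype.card β : ℝ) ^ 2 * M := by
        rw [Finset.sum_const, Finset.card_univ, nsmul_eq_mul]
        ring

omit [DecidableEq κ] in
lemma l1_ip3 (g : Matrix κ κ ℂ) (v w : κ → κ → κ → ℂ) :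
    ip3 g v w = ip1 (Matrix.kroneckerMap (· * ·) g (Matrix.kroneckerMap (· * ·) g g))
      (fun p => v p.1 p.2.1 p.2.2) (fun p => w p.1 p.2.1 p.2.2) := by
  simp only [ip1, ip3, Fintype.sum_prod_type, Matrix.kroneckerMap_apply]
  iterate 6 refine Finset.sum_congr rfl fun _ _ => ?_
  ring

lemma ip3_nonneg (hg : g.PosSemidef) (u : κ → κ → κ → ℂ) : 0 ≤ ip3 g u u := by
  rw [l1_ip3]
  exact ip1_nonneg (hg.kronecker (hg.kronecker hg)) _

lemma ip3_eq_zero (hg : g.PosDef) (u : κ → κ → κ → ℂ) (h : (ip3 g u u).re = 0) : u = 0 := by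
  by_contra hu
  have h1 : (star fun p : κ × κ × κ => u p.1 p.2.1 p.2.2) ≠ 0 := fun h0 => hu (by
    funext a b c
    exact star_eq_zero.1 (congrFun h0 (a, b, c)))
  have h2 := (hg.kronecker (hg.kronecker hg)).dotProduct_mulVec_pos h1
  rw [← l1_dot, ← l1_ip3] at h2
  exact (Complex.pos_iff.1 h2).1.ne' h

omit [DecidableEq κ] in
lemma l1_pc3 (hg : g.IsHermitian) (u : κ → κ → κ → ℂ) (t i : κ) :
    star (pc3 g u t i) = pc3 g u i t := by
  simp only [pc3, star_sum, star_mul', star_star, hg.apply]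
  refine (Finset.sum_congr rfl fun j _ => Finset.sum_comm).trans (Finset.sum_comm.trans ?_)
  refine Finset.sum_congr rfl fun j' _ => ?_
  refine (Finset.sum_congr rfl fun j _ => Finset.sum_comm).trans (Finset.sum_comm.trans ?_)
  iterate 3 refine Finset.sum_congr rfl fun _ _ => ?_
  ring

lemma l1_pair (hg : g.PosDef) (Q : κ × κ → ℂ) :
    ip1 (Matrix.kroneckerMap (· * ·) g gᵀ) Q (fun p => star (g⁻¹ p.1 p.2)) =
      ∑ m, ∑ s, Q (m, s) * g m s := by
  have h : g * g⁻¹ * g = g := by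
    rw [Matrix.mul_nonsing_inv _ ((Matrix.isUnit_iff_isUnit_det g).1 hg.isUnit), Matrix.one_mul]
  simp only [ip1, Fintype.sum_prod_type, Matrix.kroneckerMap_apply, Matrix.transpose_apply,
    star_star]
  refine Finset.sum_congr rfl fun m _ => Finset.sum_congr rfl fun s _ => ?_
  rw [← congrFun (congrFun h m) s, Finset.sum_comm]
  simp only [Matrix.mul_apply, Finset.sum_mul, Finset.mul_sum]
  iterate 2 refine Finset.sum_congr rfl fun _ _ => ?_
  ring

lemma qt3_ge (hg : g.PosDef) (u : κ → κ → κ → ℂ) :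
    (ip3 g u u).re ^ 2 ≤ Fintype.card κ * (qt3 g u).re := by
  have h := ip1_cs (hg.posSemidef.kronecker hg.posSemidef.transpose)
    (fun p => pc3 g u p.1 p.2) (fun p => star (g⁻¹ p.1 p.2))
  have h1 : ∑ m, ∑ s, pc3 g u m s * g m s = ip3 g u u := by
    simp only [pc3, ip3, Finset.sum_mul]
    refine Finset.sum_congr rfl fun m _ => Finset.sum_comm.trans ?_
    refine Finset.sum_congr rfl fun j _ => Finset.sum_comm.trans ?_
    iterate 4 refine Finset.sum_congr rfl fun _ _ => ?_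
    ring
  have h2 : ∑ m, ∑ s, star (g⁻¹ m s) * g m s = (Fintype.card κ : ℂ) := by
    have h3 : g⁻¹ * g = 1 :=
      Matrix.nonsing_inv_mul _ ((Matrix.isUnit_iff_isUnit_det g).1 hg.isUnit)
    simp only [hg.1.inv.apply]
    rw [Finset.sum_comm, ← Matrix.trace_one, ← h3]
    rfl
  have h3 : ip1 (Matrix.kroneckerMap (· * ·) g gᵀ) (fun p => pc3 g u p.1 p.2)
      (fun p => pc3 g u p.1 p.2) = qt3 g u := by
    simp only [ip1, qt3, Fintype.sum_prod_type, Matrix.kroneckerMap_apply, Matrix.transpose_apply,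
      l1_pc3 hg.1]
    refine Finset.sum_congr rfl fun m _ => Finset.sum_congr rfl fun s _ => Finset.sum_comm.trans ?_
    iterate 2 refine Finset.sum_congr rfl fun _ _ => ?_
    ring
  rw [l1_pair hg, l1_pair hg, h1, h2, h3, Complex.natCast_re, mul_comm] at h
  exact (l1_re_sq _).trans h

lemma grad_le (hg : g.PosSemidef) (u : κ → κ → κ → ℂ) (v : κ → κ → κ → κ → ℂ) :
    (∑ k, ∑ l, g k l * ip3 g (v k) u * star (ip3 g (v l) u)).re ≤
      (ip3 g u u).re * (∑ k, ∑ l, g k l * ip3 g (v k) (v l)).re := by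
  obtain ⟨φ, hφ⟩ := l1_inner (hg.kronecker (hg.kronecker hg))
  obtain ⟨B, hB⟩ := l1_fac hg
  simp only [l1_ip3, hφ]
  generalize (φ fun p => u p.1 p.2.1 p.2.2) = y
  obtain ⟨x, hx⟩ : ∃ x : κ → EuclideanSpace ℂ (κ × κ × κ),
      ∀ k, (φ fun p => v k p.1 p.2.1 p.2.2) = x k := ⟨_, fun _ => rfl⟩
  simp only [hx]
  have h1 : ∑ k, ∑ l, g k l * inner ℂ y (x k) * star (inner ℂ y (x l)) =
      ∑ a, inner ℂ y (∑ k, star (B a k) • x k) * star (inner ℂ y (∑ k, star (B a k) • x k)) := by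
    simp only [hB, inner_sum, inner_smul_right, star_sum, star_mul', star_star, Finset.sum_mul,
      Finset.mul_sum]
    rw [Finset.sum_comm]
    refine (Finset.sum_congr rfl fun l _ => Finset.sum_comm).trans (Finset.sum_comm.trans ?_)
    iterate 3 refine Finset.sum_congr rfl fun _ _ => ?_
    ring
  have h2 : ∑ k, ∑ l, g k l * inner ℂ (x l) (x k) =
      ∑ a, inner ℂ (∑ k, star (B a k) • x k) (∑ k, star (B a k) • x k) := by
    simp only [hB, inner_sum, sum_inner, inner_smul_right, inner_smul_left, Complex.star_def,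
      Complex.conj_conj, Finset.sum_mul, Finset.mul_sum]
    refine (Finset.sum_congr rfl fun l _ => Finset.sum_comm).trans (Finset.sum_comm.trans ?_)
    iterate 3 refine Finset.sum_congr rfl fun _ _ => ?_
    ring
  rw [h1, h2, Complex.re_sum, Complex.re_sum, Finset.mul_sum, l1_re]
  refine Finset.sum_le_sum fun a _ => ?_
  rw [l1_re, Complex.star_def, Complex.mul_conj, Complex.ofReal_re, Complex.normSq_eq_norm_sq,
    ← mul_pow]
  exact pow_le_pow_left₀ (norm_nonneg _) (norm_inner_le_norm _ _) 2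

end Pool.Agent.SPF
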