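import Pool.Agent.P.MP_63735c_ag.SPLin2

/-! Pointwise linear algebra in a chart: the frame of the null space; changes of charts. -/

open Set Filter Topology
open scoped ComplexOrder ContDiff Matrix

namespace Pool.Agent.SPF

variable {N n : ℕ}

lemma lin3_jac_comp {M K : ℕ} {φ : E M → E N} {ψ : E N → E K} {z : E M}
    (hψ : DifferentiableAt ℂ ψ (φ z)) (hφ : DifferentiableAt ℂ φ z) :
    jac (ψ ∘ φ) z = jac ψ (φ z) * jac φ z := by
  ext c a
  simp only [jac, Matrix.mul_apply, Matrix.of_apply, fderiv_comp z hψ hφ,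
    ContinuousLinearMap.comp_apply]
  have h : fderiv ℂ φ z (Pi.single a 1)
      = ∑ b, fderiv ℂ φ z (Pi.single a 1) b • (Pi.single b 1 : E N) := by
    ext b
    simp [Finset.sum_apply, Pi.single_apply]
  conv_lhs => rw [h]
  simp only [map_sum, map_smul, Finset.sum_apply, Pi.smul_apply, smul_eq_mul]
  exact Finset.sum_congr rfl fun b _ => mul_comm _ _

namespace Chart

variable {C : Chart N} {z : E N} {ι : Fin n → Fin N}

/-- The coframe as a matrix. -/
noncomputable def lin3E (C : Chart N) (ι : Fin n → Fin N) (z : E N) : Matrix (Fin N) (Fin n) ℂ :=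
  (C.η z).submatrix id ι * (C.g ι z)⁻¹

lemma lin3_e (i : Fin n) (b : Fin N) : C.e ι z i b = C.lin3E ι z b i := rfl

lemma lin3_X (k : Fin n) (a : Fin N) : C.X ι z k a = (C.π z * C.lin3E ι z) a k := rfl

lemma lin3_unit (hz : z ∈ C.U ι) : IsUnit (C.g ι z).det := (ac_ne hz).isUnit

lemma lin3_sub (hz : z ∈ C.U ι) : (C.lin3E ι z).submatrix ι id = 1 := by
  rw [lin3E, Matrix.submatrix_mul _ _ ι id id Function.bijective_id]
  exact Matrix.mul_nonsing_inv _ (lin3_unit hz)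

lemma lin3_F1 (hz : z ∈ C.U ι) (h : (C.η z).rank ≤ n) :
    C.η z = C.lin3E ι z * (C.η z).submatrix ι id := by
  ext b c
  rw [F1 hz h b c, Finset.sum_comm]
  simp only [lin3E, Matrix.mul_apply, Matrix.submatrix_apply, id, Finset.sum_mul]

lemma lin3_F2 (hz : z ∈ C.U ι) (h : (C.η z).rank ≤ n) :
    C.η z = C.lin3E ι z * C.g ι z * (C.lin3E ι z)ᴴ := by
  have h1 : (C.lin3E ι z)ᴴ = (C.g ι z)⁻¹ * (C.η z).submatrix ι id := by
    rw [lin3E, Matrix.conjTranspose_mul, (g_psd hz.1 ι).isHermitian.inv.eq,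
      Matrix.conjTranspose_submatrix, (C.η_psd z hz.1).isHermitian.eq]
  rw [h1, Matrix.mul_assoc, ← Matrix.mul_assoc (C.g ι z),
    Matrix.mul_nonsing_inv _ (lin3_unit hz), Matrix.one_mul]
  exact lin3_F1 hz h

lemma lin3_πT (hz : z ∈ C.W) : (C.π z)ᵀ = -C.π z := by
  ext a b
  rw [Matrix.transpose_apply, Matrix.neg_apply, π_skew hz]

lemma lin3_π_unit (hz : z ∈ C.W) : IsUnit (C.π z).det :=
  Matrix.isUnit_det_of_right_inverse (π_mul_σ hz)

lemma lin3_null (v : E N) : v ∈ C.null z ↔ v ᵥ* C.η z = 0 := Iff.rfl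

lemma lin3_finrank : (C.η z).rank + Module.finrank ℂ (C.null z) = N := by
  have h := LinearMap.finrank_range_add_finrank_ker (C.η z).vecMulLinear
  rw [Module.finrank_fin_fun, range_vecMulLinear, ← Matrix.rank_eq_finrank_span_row] at h
  exact h

lemma lin3_G (hz : z ∈ C.U ι) (h : (C.η z).rank ≤ n) :
    C.G z = (C.π z * C.lin3E ι z) * C.g ι z * (C.π z * C.lin3E ι z)ᴴ := by
  rw [G, Matrix.conjTranspose_mul]
  conv_lhs => rw [lin3_F2 hz h]
  simp only [Matrix.mul_assoc]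

lemma lin3_left (hz : z ∈ C.U ι) : (C.σ z).submatrix ι id * (C.π z * C.lin3E ι z) = 1 := by
  rw [← lin3_sub hz]
  have h := Matrix.submatrix_mul (C.σ z) (C.π z * C.lin3E ι z) ι id id Function.bijective_id
  rw [Matrix.submatrix_id_id] at h
  rw [← h, ← Matrix.mul_assoc, σ_mul_π hz.1, Matrix.one_mul]

lemma e_ι (hz : z ∈ C.U ι) (i j : Fin n) : C.e ι z i (ι j) = if i = j then 1 else 0 := by
  have h := congrFun (congrFun (lin3_sub hz) j) i
  rw [Matrix.submatrix_apply, Matrix.one_apply] at h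
  rw [lin3_e]
  simpa [eq_comm] using h

lemma mem_null_iff (hz : z ∈ C.U ι) (h : (C.η z).rank ≤ n) (v : E N) :
    v ∈ C.null z ↔ ∀ i, ∑ b, v b * C.e ι z i b = 0 := by
  have h1 : (∀ i, ∑ b, v b * C.e ι z i b = 0) ↔ v ᵥ* C.lin3E ι z = 0 := funext_iff.symm
  rw [h1, lin3_null]
  constructor
  · intro hv
    have h2 : v ᵥ* (C.η z).submatrix id ι = 0 := funext fun j => congrFun hv (ι j)
    rw [lin3E, ← Matrix.vecMul_vecMul, h2, Matrix.zero_vecMul]
  · intro hv
    rw [lin3_F1 hz h, ← Matrix.vecMul_vecMul, hv, Matrix.zero_vecMul]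

lemma X_mem_null (hC : C.Iso) (hz : z ∈ C.U ι) (k : Fin n) : C.X ι z k ∈ C.null z := by
  have h1 : (C.η z)ᵀ * (C.π z * (C.η z).submatrix id ι) = 0 := by
    have h := Matrix.submatrix_mul ((C.η z)ᵀ * C.π z) (C.η z) id id ι Function.bijective_id
    rw [Matrix.submatrix_id_id, hC z hz.1] at h
    rw [← Matrix.mul_assoc, ← h]
    rfl
  have h2 : (C.η z)ᵀ * (C.π z * C.lin3E ι z) = 0 := by
    rw [lin3E, ← Matrix.mul_assoc (C.π z), ← Matrix.mul_assoc, h1, Matrix.zero_mul]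
  rw [lin3_null]
  funext c
  have h3 := congrFun (congrFun h2 c) k
  rw [Matrix.mul_apply] at h3
  simp only [Matrix.vecMul, dotProduct, lin3_X]
  rw [← show _ = (0 : E N) c from h3]
  exact Finset.sum_congr rfl fun a _ => mul_comm _ _

lemma σ_X (hz : z ∈ C.W) (k : Fin n) : C.σ z *ᵥ C.X ι z k = C.e ι z k := by
  have h : C.X ι z k = C.π z *ᵥ C.e ι z k := rfl
  rw [h, Matrix.mulVec_mulVec, σ_mul_π hz, Matrix.one_mulVec]

lemma lin3_coef (hz : z ∈ C.U ι) (c : Fin n → ℂ) (j : Fin n) :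
    (C.σ z *ᵥ ∑ k, c k • C.X ι z k) (ι j) = c j := by
  simp only [Matrix.mulVec_sum, Matrix.mulVec_smul, σ_X hz.1, Finset.sum_apply, Pi.smul_apply,
    e_ι hz, smul_eq_mul, mul_ite, mul_one, mul_zero, Finset.sum_ite_eq', Finset.mem_univ, if_true]

lemma X_indep (hz : z ∈ C.U ι) : LinearIndependent ℂ (C.X ι z) := by
  refine Fintype.linearIndependent_iff.2 fun c hc j => ?_
  rw [← lin3_coef hz c j, hc, Matrix.mulVec_zero, Pi.zero_apply]

lemma span_X (hN : N = 2 * n) (hC : C.Iso) (hz : z ∈ C.U ι) :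
    Submodule.span ℂ (Set.range (C.X ι z)) = C.null z := by
  refine Submodule.eq_of_le_of_finrank_le (Submodule.span_le.2 ?_) ?_
  · rintro _ ⟨k, rfl⟩
    exact X_mem_null hC hz k
  · rw [finrank_span_eq_card (X_indep hz), Fintype.card_fin]
    have h1 := lin3_finrank (C := C) (z := z)
    have h2 := le_rank hz
    omega

lemma eq_sum_X (hN : N = 2 * n) (hC : C.Iso) (hz : z ∈ C.U ι) {v : E N} (hv : v ∈ C.null z) :
    v = ∑ j, (C.σ z *ᵥ v) (ι j) • C.X ι z j := by
  rw [← span_X hN hC hz, Submodule.mem_span_range_iff_exists_fun] at hv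
  obtain ⟨c, rfl⟩ := hv
  simp only [lin3_coef hz]

lemma G_eq (hz : z ∈ C.U ι) (h : (C.η z).rank ≤ n) (a b : Fin N) :
    C.G z a b = ∑ k, ∑ l, C.X ι z k a * C.g ι z k l * star (C.X ι z l b) := by
  rw [lin3_G hz h, Finset.sum_comm, Matrix.mul_apply]
  refine Finset.sum_congr rfl fun l _ => ?_
  rw [Matrix.mul_apply, Finset.sum_mul]
  rfl

/-- A matrix whose Gram matrix is the cometric has its columns in the null space. -/
lemma col_mem_null (hC : C.Iso) (hz : z ∈ C.W) {J : Matrix (Fin N) (Fin n) ℂ}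
    (hJ : J * Jᴴ = C.G z) (k : Fin n) : (fun a => J a k) ∈ C.null z := by
  have h1 : ((C.η z)ᵀ * J) * ((C.η z)ᵀ * J)ᴴ = 0 := by
    rw [Matrix.conjTranspose_mul, Matrix.mul_assoc, ← Matrix.mul_assoc J, hJ, G,
      ← Matrix.mul_assoc, ← Matrix.mul_assoc, ← Matrix.mul_assoc, hC z hz, Matrix.zero_mul,
      Matrix.zero_mul]
  have h2 := Matrix.self_mul_conjTranspose_eq_zero.1 h1
  rw [lin3_null]
  funext c
  have h3 := congrFun (congrFun h2 c) k
  rw [Matrix.mul_apply] at h3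
  simp only [Matrix.vecMul, dotProduct]
  rw [← show _ = (0 : E N) c from h3]
  exact Finset.sum_congr rfl fun a _ => mul_comm _ _

/-- The Gram equation in terms of the coefficients on the frame. -/
lemma gram_iff (hz : z ∈ C.U ι) (h : (C.η z).rank ≤ n) (m : Fin n → Fin n → ℂ)
    {J : Matrix (Fin N) (Fin n) ℂ} (hJ : ∀ a k, J a k = ∑ i, m k i * C.X ι z i a) :
    J * Jᴴ = C.G z ↔ ∀ i j, ∑ k, m k i * star (m k j) = C.g ι z i j := by
  have h1 : J = (C.π z * C.lin3E ι z) * (Matrix.of m)ᵀ := by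
    ext a k
    rw [hJ, Matrix.mul_apply]
    exact Finset.sum_congr rfl fun i _ => mul_comm _ _
  have h2 : (∀ i j, ∑ k, m k i * star (m k j) = C.g ι z i j) ↔
      (Matrix.of m)ᵀ * ((Matrix.of m)ᵀ)ᴴ = C.g ι z := Matrix.ext_iff
  have h3 : J * Jᴴ = (C.π z * C.lin3E ι z) * ((Matrix.of m)ᵀ * ((Matrix.of m)ᵀ)ᴴ) *
      (C.π z * C.lin3E ι z)ᴴ := by
    rw [h1, Matrix.conjTranspose_mul (C.π z * C.lin3E ι z)]
    simp only [Matrix.mul_assoc]
  have h4 : ∀ A : Matrix (Fin n) (Fin n) ℂ, (C.σ z).submatrix ι id *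
      ((C.π z * C.lin3E ι z) * A * (C.π z * C.lin3E ι z)ᴴ) * ((C.σ z).submatrix ι id)ᴴ = A := by
    intro A
    rw [← Matrix.mul_assoc, ← Matrix.mul_assoc, lin3_left hz, Matrix.one_mul, Matrix.mul_assoc,
      ← Matrix.conjTranspose_mul, lin3_left hz, Matrix.conjTranspose_one, Matrix.mul_one]
  rw [h2, h3, lin3_G hz h]
  constructor
  · intro h5
    rw [← h4 (C.g ι z), ← h5, h4]
  · intro h5
    rw [h5]

open scoped MatrixOrder in
lemma exists_gram (hz : z ∈ C.U ι) :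
    ∃ m : Fin n → Fin n → ℂ, ∀ i j, ∑ k, m k i * star (m k j) = C.g ι z i j := by
  obtain ⟨B, hB⟩ := CStarAlgebra.nonneg_iff_eq_star_mul_self.mp (g_psd hz.1 ι).nonneg
  refine ⟨fun k i => star (B k i), fun i j => ?_⟩
  rw [hB, Matrix.mul_apply]
  simp only [star_star, Matrix.star_apply]

lemma inj_range (hN : N = 2 * n) (hC : C.Iso) (hz : z ∈ C.W) (hr : (C.η z).rank = n)
    (L : E n →L[ℂ] E N) {J : Matrix (Fin N) (Fin n) ℂ} (hL : ∀ a k, J a k = L (Pi.single k 1) a)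
    (hJ : J * Jᴴ = C.G z) :
    Function.Injective L ∧ LinearMap.range (L : E n →ₗ[ℂ] E N) = C.null z := by
  have h1 : J.rank = n := by
    rw [← Matrix.rank_self_mul_conjTranspose, hJ, G, Matrix.rank_mul_eq_left_of_isUnit_det,
      Matrix.rank_mul_eq_right_of_isUnit_det _ _ (lin3_π_unit hz), hr]
    rw [Matrix.det_conjTranspose]
    exact (lin3_π_unit hz).star
  have h2 : (L : E n →ₗ[ℂ] E N) = J.mulVecLin := by
    refine (Pi.basisFun ℂ (Fin n)).ext fun k => ?_
    funext a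
    simp [hL]
  have h3 : Module.finrank ℂ (LinearMap.range (L : E n →ₗ[ℂ] E N)) = n := by
    rw [h2]
    exact h1
  constructor
  · have h4 := LinearMap.finrank_range_add_finrank_ker (L : E n →ₗ[ℂ] E N)
    rw [h3, Module.finrank_fin_fun] at h4
    have h5 : LinearMap.ker (L : E n →ₗ[ℂ] E N) = ⊥ := Submodule.finrank_eq_zero.1 (by omega)
    exact LinearMap.ker_eq_bot.1 h5
  · refine Submodule.eq_of_le_of_finrank_le ?_ ?_
    · rw [h2, Matrix.range_mulVecLin, Submodule.span_le]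
      rintro _ ⟨k, rfl⟩
      exact col_mem_null hC hz hJ k
    · have h4 := lin3_finrank (C := C) (z := z)
      omega

end Chart

namespace IsChange

variable {C C' C'' : Chart N} {O O' : Set (E N)} {φ ψ : E N → E N} {z : E N}

lemma refl (C : Chart N) : IsChange C C C.W id := by
  have h : ∀ z : E N, jac (id : E N → E N) z = 1 := by
    intro z
    ext c a
    simp [jac, Matrix.one_apply, Pi.single_apply]
  refine ⟨C.isOpen, subset_rfl, differentiableOn_id, fun _ h => h, fun z _ => ?_, fun z _ => ?_⟩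
  · simp [h]
  · simp [h]

lemma mono (h : IsChange C C' O φ) (hO : IsOpen O') (hs : O' ⊆ O) : IsChange C C' O' φ :=
  ⟨hO, hs.trans h.sub, h.hol.mono hs, h.maps.mono_left hs, fun z hz => h.σ_eq z (hs hz),
    fun z hz => h.η_eq z (hs hz)⟩

lemma lin3_diff (h : IsChange C C' O φ) (hz : z ∈ O) : DifferentiableAt ℂ φ z :=
  h.hol.differentiableAt (h.isOpen.mem_nhds hz)

lemma comp (h : IsChange C C' O φ) (h' : IsChange C' C'' O' ψ) :
    IsChange C C'' (O ∩ φ ⁻¹' O') (ψ ∘ φ) := by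
  refine ⟨h.hol.continuousOn.isOpen_inter_preimage h.isOpen h'.isOpen,
    inter_subset_left.trans h.sub,
    h'.hol.comp (h.hol.mono inter_subset_left) fun _ hz => hz.2, fun _ hz => h'.maps hz.2,
    fun z hz => ?_, fun z hz => ?_⟩
  · rw [lin3_jac_comp (h'.lin3_diff hz.2) (h.lin3_diff hz.1), h.σ_eq z hz.1, h'.σ_eq _ hz.2,
      Matrix.transpose_mul]
    simp only [Matrix.mul_assoc, Function.comp_apply]
  · have h1 : ∀ A B : Matrix (Fin N) (Fin N) ℂ, (A * B).map star = A.map star * B.map star :=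
      fun A B => Matrix.map_mul (f := starRingEnd ℂ)
    rw [lin3_jac_comp (h'.lin3_diff hz.2) (h.lin3_diff hz.1), h.η_eq z hz.1, h'.η_eq _ hz.2,
      Matrix.transpose_mul, h1]
    simp only [Matrix.mul_assoc, Function.comp_apply]

lemma det_ne (h : IsChange C C' O φ) (hz : z ∈ O) : (jac φ z).det ≠ 0 := by
  intro h0
  refine C.σ_det z (h.sub hz) ?_
  rw [h.σ_eq z hz, Matrix.det_mul, h0, mul_zero]

lemma lin3_star (J : Matrix (Fin N) (Fin N) ℂ) : J.map star = (Jᵀ)ᴴ := rfl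

lemma lin3_star_unit (h : IsChange C C' O φ) (hz : z ∈ O) : IsUnit ((jac φ z).map star).det := by
  rw [lin3_star, Matrix.det_conjTranspose, Matrix.det_transpose]
  exact (h.det_ne hz).isUnit.star

lemma G_eq (h : IsChange C C' O φ) (hz : z ∈ O) :
    C'.G (φ z) = jac φ z * C.G z * (jac φ z)ᴴ := by
  have h1 : (jac φ z)ᵀ * (C'.σ (φ z) * jac φ z * C.π z) = 1 := by
    rw [← Chart.σ_mul_π (h.sub hz), h.σ_eq z hz]
    simp only [Matrix.mul_assoc]
  have h2 : C'.π (φ z) = jac φ z * C.π z * (jac φ z)ᵀ := by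
    refine Matrix.inv_eq_right_inv ?_
    rw [← mul_eq_one_comm.1 h1]
    simp only [Matrix.mul_assoc]
  rw [Chart.G, Chart.G, h2, h.η_eq z hz, lin3_star, Matrix.conjTranspose_mul,
    Matrix.conjTranspose_mul]
  simp only [Matrix.mul_assoc]

lemma rank_eq (h : IsChange C C' O φ) (hz : z ∈ O) : (C'.η (φ z)).rank = (C.η z).rank := by
  rw [h.η_eq z hz, Matrix.rank_mul_eq_left_of_isUnit_det _ _ (h.lin3_star_unit hz),
    Matrix.rank_mul_eq_right_of_isUnit_det]
  rw [Matrix.det_transpose]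
  exact (h.det_ne hz).isUnit

lemma g_eq (h : IsChange C C' O φ) (hz : z ∈ O) (ι : Fin n → Fin N) :
    C.g ι z = ((jac φ z).submatrix id ι)ᵀ * C'.η (φ z) * ((jac φ z).submatrix id ι).map star := by
  rw [Chart.g, h.η_eq z hz]
  rfl

lemma null_map (h : IsChange C C' O φ) (hz : z ∈ O) {v : E N} (hv : v ∈ C.null z) :
    jac φ z *ᵥ v ∈ C'.null (φ z) := by
  rw [Chart.lin3_null] at hv ⊢
  rw [h.η_eq z hz, ← Matrix.vecMul_vecMul, ← Matrix.vecMul_vecMul, Matrix.vecMul_transpose] at hv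
  have h1 := congrArg (· ᵥ* ((jac φ z).map star)⁻¹) hv
  simp only [Matrix.vecMul_vecMul, Matrix.zero_vecMul] at h1
  rwa [Matrix.mul_assoc, Matrix.mul_nonsing_inv _ (h.lin3_star_unit hz), Matrix.mul_one] at h1

lemma good (h : IsChange C C' O φ) {f : E n → E N} {t : E n} (hf : C.Good f t) (ht : f t ∈ O) :
    C'.Good (φ ∘ f) t := by
  have h1 : ∀ᶠ s in 𝓝 t, f s ∈ O :=
    hf.self_of_nhds.2.2.1.continuousAt.eventually_mem (h.isOpen.mem_nhds ht)
  filter_upwards [hf, h1] with s hs hO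
  refine ⟨h.maps hO, (h.rank_eq hO).trans hs.2.1, (h.lin3_diff hO).comp s hs.2.2.1, ?_⟩
  rw [lin3_jac_comp (h.lin3_diff hO) hs.2.2.1, Function.comp_apply, h.G_eq hO, ← hs.2.2.2,
    Matrix.conjTranspose_mul]
  simp only [Matrix.mul_assoc]

end IsChange

end Pool.Agent.SPF
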