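import Pool.Agent.P.MP_63735c_ag.SPDat
import Pool.Agent.P.MP_63735c_ag.SPLin1
import Pool.Agent.P.MP_63735c_ag.SPLin3
import Pool.Agent.P.MP_63735c_ag.SPHess

/-! Bounds at a maximal minor. -/

open Set Filter Topology
open scoped ComplexOrder ContDiff Matrix

namespace Pool.Agent.SPF

variable {N n : ℕ}

lemma bound_ext_right (ι : Fin n → Fin N) (w : Fin n → ℂ) (F : Fin N → ℂ) :
    ∑ c, F c * star (∑ l, if c = ι l then w l else 0) = ∑ l, F (ι l) * star (w l) := by
  simp only [star_sum, Finset.mul_sum]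
  rw [Finset.sum_comm]
  refine Finset.sum_congr rfl fun l _ => ?_
  rw [Finset.sum_eq_single (ι l)]
  · rw [if_pos rfl]
  · intro c _ hc
    rw [if_neg hc, star_zero, mul_zero]
  · intro h
    exact absurd (Finset.mem_univ _) h

lemma bound_ext_left (ι : Fin n → Fin N) (w : Fin n → ℂ) (F : Fin N → ℂ) :
    ∑ b, (∑ k, if b = ι k then w k else 0) * F b = ∑ k, w k * F (ι k) := by
  simp only [Finset.sum_mul]
  rw [Finset.sum_comm]
  refine Finset.sum_congr rfl fun l _ => ?_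
  rw [Finset.sum_eq_single (ι l)]
  · rw [if_pos rfl]
  · intro c _ hc
    rw [if_neg hc, zero_mul]
  · intro h
    exact absurd (Finset.mem_univ _) h

lemma bound_ip1_le {g : Matrix (Fin n) (Fin n) ℂ} {s : Fin n → ℂ} {B P : ℝ} (hP : 0 ≤ P)
    (hg : ∀ k l, ‖g k l‖ ≤ B) (hs : ∀ k, ‖s k‖ ≤ P) :
    (ip1 g s s).re ≤ (n : ℝ) ^ 2 * (P * B * P) := by
  refine (Complex.re_le_norm _).trans ?_
  unfold ip1
  refine (norm_sum_le _ _).trans ?_
  have h1 : ∀ k, ‖∑ l, s k * g k l * star (s l)‖ ≤ n * (P * B * P) := by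
    intro k
    refine (norm_sum_le _ _).trans ?_
    have h2 : ∀ l, ‖s k * g k l * star (s l)‖ ≤ P * B * P := by
      intro l
      have hB : 0 ≤ B := (norm_nonneg _).trans (hg k l)
      rw [norm_mul, norm_mul, norm_star]
      exact mul_le_mul (mul_le_mul (hs k) (hg k l) (norm_nonneg _) hP) (hs l) (norm_nonneg _)
        (mul_nonneg hP hB)
    refine (Finset.sum_le_sum fun l _ => h2 l).trans ?_
    rw [Finset.sum_const, Finset.card_univ, Fintype.card_fin, nsmul_eq_mul]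
  refine (Finset.sum_le_sum fun k _ => h1 k).trans ?_
  rw [Finset.sum_const, Finset.card_univ, Fintype.card_fin, nsmul_eq_mul]
  exact le_of_eq (by ring)

namespace Chart

variable {C : Chart N}

lemma bound_dual {z : E N} (hz : z ∈ C.W) (ι : Fin n → Fin N) (D : Fin N → Fin N → ℂ) (v : E N)
    (t : Fin n → ℂ) {M : ℝ} (hM : 0 ≤ M)
    (ht : ∀ m, ∑ k, t k * C.g ι z k m = ∑ b, v b * D b (ι m))
    (hD : ∀ w : E N, ‖∑ b, ∑ c, v b * D b c * star (w c)‖ ^ 2 ≤
      M * (∑ b, ∑ c, w b * C.η z b c * star (w c)).re) :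
    (ip1 (C.g ι z) t t).re ≤ M := by
  refine ip1_le_of_dual (g_psd hz ι) t hM fun w => ?_
  have h := hD fun c => ∑ l, if c = ι l then w l else 0
  have h1 : ∑ b, ∑ c, v b * D b c * star (∑ l, if c = ι l then w l else 0) =
      ip1 (C.g ι z) t w := by
    unfold ip1
    rw [Finset.sum_congr rfl fun b _ => bound_ext_right ι w fun c => v b * D b c,
      Finset.sum_comm, Finset.sum_comm (f := fun k l => t k * C.g ι z k l * star (w l))]
    refine Finset.sum_congr rfl fun l _ => ?_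
    rw [← Finset.sum_mul, ← Finset.sum_mul, ht]
  have h2 : ∑ b, ∑ c, (∑ k, if b = ι k then w k else 0) * C.η z b c *
      star (∑ l, if c = ι l then w l else 0) = ip1 (C.g ι z) w w := by
    unfold ip1
    rw [Finset.sum_congr rfl fun b _ =>
      bound_ext_right ι w fun c => (∑ k, if b = ι k then w k else 0) * C.η z b c,
      Finset.sum_comm, Finset.sum_comm (f := fun k l => w k * C.g ι z k l * star (w l))]
    refine Finset.sum_congr rfl fun l _ => ?_
    rw [← Finset.sum_mul, ← Finset.sum_mul, bound_ext_left ι w fun b => C.η z b (ι l)]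
    rfl
  rw [h1, h2] at h
  exact h

lemma bound_X (hN : N = 2 * n) (hC : C.Iso) {ι : Fin n → Fin N} {z : E N} (hz : z ∈ C.U ι)
    (hm : C.Max ι z) {B : ℝ} (hB : 0 ≤ B) (hπ : ∀ a b, ‖C.π z a b‖ ≤ B) (k : Fin n) :
    ‖C.X ι z k‖ ≤ N * B := by
  refine (pi_norm_le_iff_of_nonneg (by positivity)).2 fun a => ?_
  unfold Chart.X
  refine (norm_sum_le _ _).trans ?_
  have h2 : ∀ b, ‖C.π z a b * C.e ι z k b‖ ≤ B := by
    intro b
    rw [norm_mul]
    exact (mul_le_mul (hπ a b) (e_le_one hz (rank_le hN hC hz.1) hm k b) (norm_nonneg _) hB).trans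
      (le_of_eq (mul_one B))
  refine (Finset.sum_le_sum fun b _ => h2 b).trans ?_
  rw [Finset.sum_const, Finset.card_univ, Fintype.card_fin, nsmul_eq_mul]

lemma S_bound (hN : N = 2 * n) (hC : C.Iso) {K : Set (E N)} (hK : IsCompact K) (hKW : K ⊆ C.W) :
    ∃ M : ℝ, 0 ≤ M ∧ ∀ (ι : Fin n → Fin N), ∀ z ∈ K, z ∈ C.U ι → C.Max ι z → C.S ι z ≤ M := by
  obtain ⟨M, hM, hH⟩ := C.hess hK hKW
  obtain ⟨B, hB, hb⟩ := C.bounds hK hKW
  refine ⟨n * (n * (M * (N * B) ^ 2)), by positivity, fun ι z hzK hz hm => ?_⟩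
  let L := Chart.top hN hC ι
  let x : L.O := ⟨z, hz⟩
  have hT : ∀ i p, (ip1 (C.g ι z) (fun k => Sm.ev x (L.dat.T i k p))
      (fun k => Sm.ev x (L.dat.T i k p))).re ≤ M * (N * B) ^ 2 := by
    intro i p
    have hX := bound_X hN hC hz hm hB (fun a b => (hb z hzK a b a).1) i
    refine (bound_dual hz.1 ι (fun b c => dzb (ι p) (fun y => C.η y b c) z) (C.X ι z i) _
      (M := M * ‖C.X ι z i‖ ^ 2) (by positivity) (fun m => ?_)
      (fun w => (hH z hzK _ (X_mem_null hC hz i) w (ι p)).2)).trans ?_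
    · have h := congrArg (Sm.ev x) (L.dat.Tg i p m)
      simp only [map_sum, map_mul, L.rg _ _ x, L.rX _ _ x, Loc.dat_db, Loc.dat_ι, Loc.dat_η,
        (L.rη _ _).db _ x] at h
      exact h
    · exact mul_le_mul_of_nonneg_left (pow_le_pow_left₀ (norm_nonneg _) hX 2) hM
  have hS : C.S ι z = (∑ i, ∑ p, ip1 (C.g ι z) (fun k => Sm.ev x (L.dat.T i k p))
      (fun k => Sm.ev x (L.dat.T p k i))).re := by
    refine (L.S_eq x).trans ?_
    rw [Dat.S_eq]
    simp only [map_sum, ev_ip1, L.map_g x]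
    rfl
  rw [hS]
  refine (Complex.re_le_norm _).trans ((norm_sum_le _ _).trans ?_)
  have h1 : ∀ i, ‖∑ p, ip1 (C.g ι z) (fun k => Sm.ev x (L.dat.T i k p))
      (fun k => Sm.ev x (L.dat.T p k i))‖ ≤ n * (M * (N * B) ^ 2) := by
    intro i
    refine (norm_sum_le _ _).trans ?_
    have h2 : ∀ p, ‖ip1 (C.g ι z) (fun k => Sm.ev x (L.dat.T i k p))
        (fun k => Sm.ev x (L.dat.T p k i))‖ ≤ M * (N * B) ^ 2 := by
      intro p
      have h0 : 0 ≤ M * (N * B) ^ 2 := by positivity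
      refine (pow_le_pow_iff_left₀ (norm_nonneg _) h0 two_ne_zero).1 ?_
      refine (ip1_cs (g_psd hz.1 ι) _ _).trans ?_
      rw [sq (M * (N * B) ^ 2)]
      exact mul_le_mul (hT i p) (hT p i) (Complex.nonneg_iff.1 (ip1_nonneg (g_psd hz.1 ι) _)).1 h0
    refine (Finset.sum_le_sum fun p _ => h2 p).trans ?_
    rw [Finset.sum_const, Finset.card_univ, Fintype.card_fin, nsmul_eq_mul]
  refine (Finset.sum_le_sum fun i _ => h1 i).trans ?_
  rw [Finset.sum_const, Finset.card_univ, Fintype.card_fin, nsmul_eq_mul]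

lemma bound_gam_congr {z : E N} (G : Matrix (Fin N) (Fin N) ℂ) {f f' : E N → ℂ}
    (h : f =ᶠ[𝓝 z] f') : gamM G f f z = gamM G f' f' z := by
  simp only [gamM, dz, dzb, h.fderiv_eq]

lemma grad_bound (hN : N = 2 * n) (hC : C.Iso) {K : Set (E N)} (hK : IsCompact K) (hKW : K ⊆ C.W) :
    ∃ M : ℝ, 0 ≤ M ∧ ∀ (ι : Fin n → Fin N), ∀ z ∈ K, z ∈ C.U ι → C.Max ι z →
      (gamM (C.G z) (fun w => (C.a ι w : ℂ)) (fun w => (C.a ι w : ℂ)) z).re ≤ (M * C.a ι z) ^ 2 := by
  obtain ⟨M, hM, hH⟩ := C.hess hK hKW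
  obtain ⟨B, hB, hb⟩ := C.bounds hK hKW
  set P : ℝ := N * (N * B) with hP
  have hP0 : 0 ≤ P := by positivity
  set Q : ℝ := M * (N * B) ^ 2 + (n : ℝ) ^ 2 * (P * B * P) with hQ
  have hQ1 : 0 ≤ M * (N * B) ^ 2 := by positivity
  have hQ2 : 0 ≤ (n : ℝ) ^ 2 * (P * B * P) := by positivity
  have hQ0 : 0 ≤ (Fintype.card (Fin n ⊕ Fin n) : ℝ) ^ 2 * Q := by positivity
  refine ⟨Real.sqrt ((Fintype.card (Fin n ⊕ Fin n) : ℝ) ^ 2 * Q), Real.sqrt_nonneg _,
    fun ι z hzK hz hm => ?_⟩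
  let L := Chart.top hN hC ι
  let x : L.O := ⟨z, hz⟩
  have he := e_le_one hz (rank_le hN hC hz.1) hm
  have hgerm : (fun w => (C.a ι w : ℂ)) =ᶠ[𝓝 z] C.ac ι := by
    filter_upwards [C.isOpen.mem_nhds hz.1] with w hw
    exact (ac_eq hw ι).symm
  let v : Fin n ⊕ Fin n → Fin n → ℂ := Sum.elim (fun i k => C.A ι z i k i)
    (fun i k => C.A ι z k i i - C.A ι z i k i)
  have hv : ∀ b, (ip1 (C.g ι z) (v b) (v b)).re ≤ Q := by
    rintro (i | i)
    · have hX := bound_X hN hC hz hm hB (fun a b => (hb z hzK a b a).1) i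
      refine (bound_dual hz.1 ι (fun b c => dz (ι i) (fun y => C.η y b c) z) (-C.X ι z i)
        (fun k => C.A ι z i k i) (M := M * ‖-C.X ι z i‖ ^ 2) (by positivity) (fun m => ?_)
        (fun w => (hH z hzK _ (neg_mem (X_mem_null hC hz i)) w (ι i)).1)).trans ?_
      · have h := congrArg (Sm.ev x) (L.dat.Ag i i m)
        simp only [map_sum, map_mul, map_neg, L.rg _ _ x, L.rX _ _ x, L.rA _ _ _ x, Loc.dat_d,
          Loc.dat_ι, Loc.dat_η, (L.rη _ _).d _ x] at h
        simp only [Pi.neg_apply, neg_mul, Finset.sum_neg_distrib]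
        exact h
      · rw [norm_neg]
        exact (mul_le_mul_of_nonneg_left (pow_le_pow_left₀ (norm_nonneg _) hX 2) hM).trans
          (le_add_of_nonneg_right hQ2)
    · refine (bound_ip1_le (s := fun k => C.A ι z k i i - C.A ι z i k i) (B := B) hP0
        (fun k l => (hb z hzK (ι k) (ι l) (ι l)).2.1) fun k => ?_).trans
        (le_add_of_nonneg_left hQ1)
      have h := congrArg (Sm.ev x) (L.dat.A_sub k i i)
      simp only [map_sum, map_mul, map_neg, map_sub, L.re _ _ x, L.rA _ _ _ x, Loc.dat_d,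
        Loc.dat_ι, Loc.dat_π, (L.rπ _ _).d _ x] at h
      have h' : C.A ι z k i i - C.A ι z i k i =
          -∑ a, ∑ b, dz (ι i) (fun w => C.π w a b) z * C.e ι z k a * C.e ι z i b := h
      rw [h', norm_neg]
      refine (norm_sum_le _ _).trans ?_
      have h1 : ∀ a, ‖∑ b, dz (ι i) (fun w => C.π w a b) z * C.e ι z k a * C.e ι z i b‖ ≤
          N * B := by
        intro a
        refine (norm_sum_le _ _).trans ?_
        have h2 : ∀ b, ‖dz (ι i) (fun w => C.π w a b) z * C.e ι z k a * C.e ι z i b‖ ≤ B := by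
          intro b
          rw [norm_mul, norm_mul]
          refine (mul_le_mul (mul_le_mul (hb z hzK a b (ι i)).2.2.2 (he k a) (norm_nonneg _) hB)
            (he i b) (norm_nonneg _) (by positivity)).trans (le_of_eq (by ring))
        refine (Finset.sum_le_sum fun b _ => h2 b).trans ?_
        rw [Finset.sum_const, Finset.card_univ, Fintype.card_fin, nsmul_eq_mul]
      refine (Finset.sum_le_sum fun a _ => h1 a).trans ?_
      rw [Finset.sum_const, Finset.card_univ, Fintype.card_fin, nsmul_eq_mul]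
  have hsum := ip1_sum_le (g_psd hz.1 ι) v hv
  have htr : (fun k => Sm.ev x (L.dat.trA k)) = fun k => ∑ b, v b k := by
    funext k
    rw [Fintype.sum_sum_type, ← Finset.sum_add_distrib]
    simp only [Dat.trA, map_sum, L.rA _ _ _ x]
    refine Finset.sum_congr rfl fun i _ => ?_
    change C.A ι z k i i = C.A ι z i k i + (C.A ι z k i i - C.A ι z i k i)
    ring
  have hg : gamM (C.G z) (C.ac ι) (C.ac ι) z =
      ip1 (C.g ι z) (fun k => ∑ b, v b k) (fun k => ∑ b, v b k) * ((C.a ι z ^ 2 : ℝ) : ℂ) := by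
    refine (L.rgam L.rdet L.rdet x).symm.trans ?_
    rw [Dat.gam_det, map_mul, map_pow, L.rdet x, ev_ip1, L.map_g x, htr, Complex.ofReal_pow,
      ← ac_eq hz.1 ι]
  rw [bound_gam_congr _ hgerm, hg, Complex.re_mul_ofReal, mul_pow, Real.sq_sqrt hQ0]
  exact mul_le_mul_of_nonneg_right hsum (sq_nonneg _)

end Chart

end Pool.Agent.SPF
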