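import Pool.Agent.P.MP_63735c_ag.SPDat
import Pool.Agent.P.MP_63735c_ag.SPLin3

/-! The curvature function does not depend on the chart or on the minor. -/

open Set Filter Topology
open scoped ComplexOrder ContDiff Matrix

namespace Pool.Agent.SPF

variable {N n : ℕ} {C C' : Chart N} {O : Set (E N)} {φ : E N → E N} {z : E N}

lemma inv_conj_sum (G J H : Matrix (Fin N) (Fin N) ℂ) :
    ∑ a, ∑ b, G a b * ∑ c, ∑ d, J c a * star (J d b) * H c d =
      ∑ c, ∑ d, (J * G * Jᴴ) c d * H c d := by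
  simp only [Matrix.mul_apply, Matrix.conjTranspose_apply, Finset.mul_sum, Finset.sum_mul]
  calc ∑ a, ∑ b, ∑ c, ∑ d, G a b * (J c a * star (J d b) * H c d)
      = ∑ a, ∑ c, ∑ d, ∑ b, G a b * (J c a * star (J d b) * H c d) := by
        refine Finset.sum_congr rfl fun a _ => ?_
        rw [Finset.sum_comm]
        exact Finset.sum_congr rfl fun c _ => Finset.sum_comm
    _ = ∑ c, ∑ d, ∑ a, ∑ b, G a b * (J c a * star (J d b) * H c d) := by
        rw [Finset.sum_comm]
        exact Finset.sum_congr rfl fun c _ => Finset.sum_comm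
    _ = _ := by
        refine Finset.sum_congr rfl fun c _ => Finset.sum_congr rfl fun d _ => ?_
        rw [Finset.sum_comm]
        exact Finset.sum_congr rfl fun b _ => Finset.sum_congr rfl fun a _ => by ring

lemma inv_der_det {R : Type} [CommRing R] [Algebra ℂ R] (D : Derivation ℂ R R)
    (M : Matrix (Fin n) (Fin n) R) (h : ∀ i j, D (M i j) = 0) : D M.det = 0 := by
  have hp : ∀ (s : Finset (Fin n)) (f : Fin n → R), (∀ i, D (f i) = 0) → D (∏ i ∈ s, f i) = 0 := by
    intro s f hf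
    induction s using Finset.induction_on with
    | empty => simp
    | insert b s hb ih => rw [Finset.prod_insert hb, Derivation.leibniz, hf, ih]; simp
  rw [Matrix.det_apply', map_sum]
  refine Finset.sum_eq_zero fun σ _ => ?_
  rw [Derivation.leibniz, hp _ _ fun i => h _ _]
  simp

lemma inv_d_db_pull {O₁ O₂ : TopologicalSpace.Opens (E N)} (hφ : DifferentiableOn ℂ φ O₂)
    (hm : MapsTo φ O₂ O₁) (u : Sm O₁) (a b : Fin N) :
    Sm.d a (Sm.db b (Sm.pull φ hφ hm u)) =
      ∑ c, ∑ d, Sm.J φ hφ c a * star (Sm.J φ hφ d b) * Sm.pull φ hφ hm (Sm.d c (Sm.db d u)) := by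
  have h0 : ∀ d, Sm.d a (star (Sm.J φ hφ d b)) = 0 := by
    intro d
    have h1 := Sm.star_d a (star (Sm.J φ hφ d b))
    rw [star_star, Sm.db_J] at h1
    exact star_eq_zero.1 h1
  rw [Sm.db_pull, map_sum, Finset.sum_comm]
  refine Finset.sum_congr rfl fun d _ => ?_
  rw [Derivation.leibniz, h0, smul_zero, add_zero, smul_eq_mul, Sm.d_pull, Finset.mul_sum]
  exact Finset.sum_congr rfl fun c _ => by ring

lemma IsChange.dlogM_comp (h : IsChange C C' O φ) (hz : z ∈ O) {f : E N → ℂ}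
    {s : Set (E N)} (hs : IsOpen s) (hφ : φ z ∈ s) (hf : ContDiffOn ℝ ∞ f s) :
    dlogM (C.G z) (fun w => f (φ w)) z = dlogM (C'.G (φ z)) f (φ z) := by
  let O₁ : TopologicalSpace.Opens (E N) := ⟨s, hs⟩
  let O₂ : TopologicalSpace.Opens (E N) :=
    ⟨O ∩ φ ⁻¹' s, h.hol.continuousOn.isOpen_inter_preimage h.isOpen hs⟩
  have hd : DifferentiableOn ℂ φ O₂ := h.hol.mono fun _ hx => hx.1
  have hm : MapsTo φ O₂ O₁ := fun _ hx => hx.2
  let x : O₂ := ⟨z, hz, hφ⟩
  have hu : (Sm.mk (O := O₁) f hf).Rep f := Sm.rep_mk f hf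
  have hp := hu.pull hd hm
  have e1 : ∀ a b, dz a (dzb b fun w => f (φ w)) z =
      ∑ c, ∑ d, jac φ z c a * star (jac φ z d b) * dz c (dzb d f) (φ z) := by
    intro a b
    have h1 := (hp.db b).d a x
    rw [inv_d_db_pull] at h1
    simp only [map_sum, map_mul, Sm.ev_star, Sm.ev_J, Sm.ev_pull, (hu.db _).d _ _] at h1
    exact h1.symm
  have e2 : ∀ a, dz a (fun w => f (φ w)) z = ∑ c, jac φ z c a * dz c f (φ z) := by
    intro a
    have h1 := hp.d a x
    rw [Sm.d_pull] at h1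
    simp only [map_sum, map_mul, Sm.ev_J, Sm.ev_pull, hu.d _ _] at h1
    exact h1.symm
  have e3 : ∀ a, dzb a (fun w => f (φ w)) z = ∑ c, star (jac φ z c a) * dzb c f (φ z) := by
    intro a
    have h1 := hp.db a x
    rw [Sm.db_pull] at h1
    simp only [map_sum, map_mul, Sm.ev_star, Sm.ev_J, Sm.ev_pull, hu.db _ _] at h1
    exact h1.symm
  have l1 : lapM (C.G z) (fun w => f (φ w)) z = lapM (C'.G (φ z)) f (φ z) := by
    simp only [lapM, e1]
    rw [h.G_eq hz]
    exact inv_conj_sum (C.G z) (jac φ z) (Matrix.of fun c d => dz c (dzb d f) (φ z))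
  have l2 : gamM (C.G z) (fun w => f (φ w)) (fun w => f (φ w)) z =
      gamM (C'.G (φ z)) f f (φ z) := by
    have h1 := inv_conj_sum (C.G z) (jac φ z) (Matrix.of fun c d => dz c f (φ z) * dzb d f (φ z))
    simp only [Matrix.of_apply] at h1
    simp only [gamM, e2, e3, mul_assoc]
    rw [h.G_eq hz, ← h1]
    refine Finset.sum_congr rfl fun a _ => Finset.sum_congr rfl fun b _ => ?_
    rw [Finset.sum_mul_sum]
    congr 1
    exact Finset.sum_congr rfl fun c _ => Finset.sum_congr rfl fun d _ => by ring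
  simp only [dlogM, l1, l2]

lemma inv_kill {R : Type} [CommRing R] [StarRing R] (X : Fin N → R) (J : Fin N → Fin N → R)
    (e : Fin n → Fin N → R) (t : Fin n → R)
    (key : ∀ m, ∑ d, (∑ a, J d a * X a) * e m d = 0) :
    ∑ a, star (X a) * ∑ d, star (J d a) * ∑ m, star (e m d) * t m = 0 := by
  have h1 : ∀ m, star (∑ d, (∑ a, J d a * X a) * e m d) * t m = 0 := fun m => by
    rw [key m, star_zero, zero_mul]
  have h2 := Finset.sum_eq_zero (s := Finset.univ) fun m _ => h1 m
  rw [← h2]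
  simp only [star_sum, star_mul', Finset.mul_sum, Finset.sum_mul]
  calc ∑ a, ∑ d, ∑ m, star (X a) * (star (J d a) * (star (e m d) * t m))
      = ∑ d, ∑ m, ∑ a, star (X a) * (star (J d a) * (star (e m d) * t m)) := by
        rw [Finset.sum_comm]
        exact Finset.sum_congr rfl fun d _ => Finset.sum_comm
    _ = _ := by
        rw [Finset.sum_comm]
        exact Finset.sum_congr rfl fun m _ => Finset.sum_congr rfl fun d _ =>
          Finset.sum_congr rfl fun a _ => by ring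

lemma IsChange.S_eq (hN : N = 2 * n) (hC : C.Iso) (hC' : C'.Iso) (h : IsChange C C' O φ)
    (hz : z ∈ O) {ι ι' : Fin n → Fin N} (h1 : z ∈ C.U ι) (h2 : φ z ∈ C'.U ι') :
    C.S ι z = C'.S ι' (φ z) := by
  have ho : IsOpen ((O ∩ φ ⁻¹' C'.U ι') ∩ C.U ι) :=
    (h.hol.continuousOn.isOpen_inter_preimage h.isOpen (C'.isOpen_U ι')).inter (C.isOpen_U ι)
  let L : C.Loc ι := ⟨⟨_, ho⟩, hN, hC, fun _ hx => hx.2⟩
  let L' : C'.Loc ι' := Chart.top hN hC' ι'
  have hd : DifferentiableOn ℂ φ L.O := h.hol.mono fun _ hx => hx.1.1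
  have hm : MapsTo φ L.O L'.O := fun _ hx => hx.1.2
  let x : L.O := ⟨z, ⟨hz, h2⟩, h1⟩
  let M : Matrix (Fin n) (Fin n) (Sm L.O) :=
    Matrix.of fun i j => ∑ c, Sm.pull φ hd hm (L'.dat.e i c) * Sm.J φ hd c (ι j)
  have hP : (Sm.pull φ hd hm L'.dat.g.det).Rep fun w => C'.ac ι' (φ w) := L'.rdet.pull hd hm
  have hdet : L.dat.g.det = M.det * star M.det * Sm.pull φ hd hm L'.dat.g.det := by
    ext y
    have hM : Sm.ev y M.det = (Matrix.of fun i j => ∑ c,
        C'.e ι' (φ y) i c * ((jac φ y).submatrix id ι) c j).det := by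
      rw [AlgHom.map_det]
      congr 1
      ext i j
      simp only [M, AlgHom.mapMatrix_apply, Matrix.map_apply, Matrix.of_apply, map_sum, map_mul,
        Sm.ev_J, ((L'.re _ _).pull hd hm) y, Matrix.submatrix_apply, id]
    rw [L.rdet y, map_mul, map_mul, Sm.ev_star, hP y, hM, Chart.ac, h.g_eq y.2.1.1 ι]
    exact Chart.det_conj y.2.1.2 (L'.rank_le ⟨φ y, hm y.2⟩) _
  have hkill : ∀ l, L.dat.Xb l M.det = 0 := by
    intro l
    have key : ∀ m, ∑ d, (∑ a, Sm.J φ hd d a * L.dat.Xc l a) *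
        Sm.pull φ hd hm (L'.dat.e m d) = 0 := by
      intro m
      ext y
      have h3 := (Chart.mem_null_iff (ι := ι') y.2.1.2 (L'.rank_le ⟨φ y, hm y.2⟩) _).1
        (h.null_map y.2.1.1 (Chart.X_mem_null hC y.2.2 l)) m
      simp only [map_sum, map_mul, Sm.ev_J, L.rX _ _ y, ((L'.re _ _).pull hd hm) y, map_zero]
      simpa only [Matrix.mulVec, dotProduct] using h3
    refine inv_der_det _ _ fun i j => ?_
    simp only [M, Matrix.of_apply, map_sum]
    refine Finset.sum_eq_zero fun c _ => ?_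
    have a1 : L.dat.Xb l (Sm.J φ hd c (ι j)) = 0 := by
      rw [Dat.Xb_apply]
      exact Finset.sum_eq_zero fun a _ => by rw [Chart.Loc.dat_db, Sm.db_J, mul_zero]
    have a2 : L.dat.Xb l (Sm.pull φ hd hm (L'.dat.e i c)) = 0 := by
      have h4 : ∀ d, Sm.pull φ hd hm (Sm.db d (L'.dat.e i c)) =
          ∑ m, star (Sm.pull φ hd hm (L'.dat.e m d)) *
            Sm.pull φ hd hm (Sm.db (ι' m) (L'.dat.e i c)) := by
        intro d
        have h5 := L'.dat.db_e d i c
        rw [Chart.Loc.dat_db, Chart.Loc.dat_ι] at h5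
        rw [h5, map_sum]
        exact Finset.sum_congr rfl fun m _ => by rw [map_mul, Sm.pull_star]
      rw [Dat.Xb_apply, Chart.Loc.dat_db]
      simp only [Sm.db_pull]
      rw [← inv_kill (L.dat.Xc l) (Sm.J φ hd) (fun m d => Sm.pull φ hd hm (L'.dat.e m d))
        (fun m => Sm.pull φ hd hm (Sm.db (ι' m) (L'.dat.e i c))) key]
      exact Finset.sum_congr rfl fun a _ => congrArg _
        (Finset.sum_congr rfl fun d _ => by rw [h4 d])
    rw [Derivation.leibniz, a1, a2]
    simp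
  obtain ⟨w1, w2⟩ := L.dat.W_eq_zero _ hkill
  have hW : L.dat.W L.dat.g.det =
      (M.det * star M.det) ^ 2 * L.dat.W (Sm.pull φ hd hm L'.dat.g.det) := by
    rw [hdet, L.dat.W_mul, L.dat.W_mul M.det, w1, w2]
    ring
  have hac : C.ac ι z = Sm.ev x (M.det * star M.det) * C'.ac ι' (φ z) := by
    have h6 := L.rdet x
    rw [hdet, map_mul, hP x] at h6
    exact h6.symm
  have hne : Sm.ev x (M.det * star M.det) ≠ 0 := fun h0 => by
    rw [h0, zero_mul] at hac
    exact Chart.ac_ne h1 hac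
  have b1 := L.dlog_eq L.rdet x
  have b2 := L.dlog_eq hP x
  have b3 := h.dlogM_comp hz C'.isOpen h2.1 (C'.ac_smooth ι')
  rw [Chart.S, Chart.S, ← b3]
  refine b1.trans (Eq.trans ?_ b2.symm)
  have hx : (x : E N) = z := rfl
  rw [hW, map_mul, map_pow, hx, hac, mul_pow, mul_div_mul_left _ _ (pow_ne_zero 2 hne)]

end Pool.Agent.SPF
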