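import Pool.Agent.P.MP_63735c_ag.SPDat
import Pool.Agent.P.MP_63735c_ag.SPLin1
import Pool.Agent.P.MP_63735c_ag.SPLin3
import Pool.Agent.P.MP_63735c_ag.SPTest

/-! The inequality of Lu in a chart, and holomorphy of the frame when the curvature vanishes. -/

open Set Filter Topology
open scoped ComplexOrder ContDiff Matrix

namespace Pool.Agent.SPF

variable {N n : ℕ}

namespace Chart

variable {C : Chart N} {ι : Fin n → Fin N} {z : E N}

lemma lu_evS (L : C.Loc ι) (x : L.O) : Sm.ev x L.dat.S =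
    ip3 (C.g ι x) (fun a b c => Sm.ev x (L.dat.u a b c)) (fun a b c => Sm.ev x (L.dat.u a b c)) := by
  rw [Dat.S, ev_ip3, L.map_g]

lemma lu_repS (L : C.Loc ι) : L.dat.S.Rep fun w => (C.S ι w : ℂ) := fun x => by
  have h0 : 0 ≤ Sm.ev x L.dat.S := by
    rw [lu_evS]
    exact ip3_nonneg (g_psd (L.subW x.2) ι) _
  change Sm.ev x L.dat.S = (C.S ι x : ℂ)
  rw [L.S_eq x]
  exact Complex.ext rfl (by simpa using (Complex.nonneg_iff.1 h0).2.symm)

lemma S_nonneg (hN : N = 2 * n) (hC : C.Iso) (hz : z ∈ C.U ι) : 0 ≤ C.S ι z := by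
  have h := (top hN hC ι).S_eq ⟨z, hz⟩
  rw [lu_evS] at h
  change C.S ι z = _ at h
  rw [h]
  exact (Complex.nonneg_iff.1 (ip3_nonneg (g_psd hz.1 ι) _)).1

lemma lu (hN : N = 2 * n) (hC : C.Iso) (hz : z ∈ C.U ι) (hS : 0 < C.S ι z) :
    3 * C.S ι z ≤ n * dlogM (C.G z) (fun w => (C.S ι w : ℂ)) z := by
  set L := top hN hC ι with hL
  let x : L.O := ⟨z, hz⟩
  let u : Fin n → Fin n → Fin n → ℂ := fun a b c => Sm.ev x (L.dat.u a b c)
  let v : Fin n → Fin n → Fin n → Fin n → ℂ := fun k a b c => Sm.ev x (L.dat.leaf.nab k a b c)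
  have hs : C.S ι z = (ip3 (C.g ι z) u u).re := by
    have h := L.S_eq x
    rw [lu_evS] at h
    exact h
  have h1 : Sm.ev x (L.dat.lap L.dat.S) =
      ∑ k, ∑ l, C.g ι z k l * ip3 (C.g ι z) (v k) (v l) + 3 * qt3 (C.g ι z) u := by
    rw [Dat.lap_S, map_add, map_mul, ev_qt3, L.map_g, map_ofNat]
    simp only [map_sum, map_mul, ev_ip3, L.map_g]
    rfl
  have h2 : Sm.ev x (L.dat.gam L.dat.S L.dat.S) =
      ∑ k, ∑ l, C.g ι z k l * ip3 (C.g ι z) (v k) u * star (ip3 (C.g ι z) (v l) u) := by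
    rw [Dat.gam_S]
    simp only [map_sum, map_mul, Sm.ev_star, ev_ip3, L.map_g]
    rfl
  have h3 := grad_le (g_psd hz.1 ι) u v
  have h4 := qt3_ge (g_posDef hz) u
  have h5 : dlogM (C.G z) (fun w => (C.S ι w : ℂ)) z =
      (Sm.ev x (L.dat.W L.dat.S) / (C.S ι z : ℂ) ^ 2).re := L.dlog_eq (lu_repS L) x
  have h6 : Sm.ev x L.dat.S = (C.S ι z : ℂ) := lu_repS L x
  rw [Dat.W, map_sub, map_mul, h6, h1, h2, ← Complex.ofReal_pow, Complex.div_ofReal_re,
    Complex.sub_re, Complex.re_ofReal_mul, Complex.add_re] at h5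
  have h7 : (3 * qt3 (C.g ι z) u).re = 3 * (qt3 (C.g ι z) u).re := by simp
  rw [h7] at h5
  rw [← hs] at h3 h4
  rw [Fintype.card_fin] at h4
  rw [h5, ← mul_div_assoc, le_div_iff₀ (by positivity)]
  have hn : (0 : ℝ) ≤ n := Nat.cast_nonneg n
  have h8 := mul_le_mul_of_nonneg_left h3 hn
  have h9 := mul_le_mul_of_nonneg_left h4 hS.le
  nlinarith

/-- The estimate at a local maximum. -/
lemma S_le_of_max (hN : N = 2 * n) (hC : C.Iso) {K : Set (E N)} (hK : IsCompact K)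
    (hKW : K ⊆ C.W) {ρ : E N → ℝ} (hρ : ContDiff ℝ ∞ ρ) {c : ℝ} (hc : 0 < c) :
    ∃ M : ℝ, 0 ≤ M ∧ ∀ (ι : Fin n → Fin N), ∀ z ∈ K, ∀ ε : ℝ, 0 < ε → z ∈ C.U ι → c ≤ ρ z →
      IsLocalMax (fun w => C.S ι w * (ρ w * C.a ι w) ^ ε) z → C.S ι z ≤ ε * M := by
  obtain ⟨M, hM, hb⟩ := C.cutoff_bound hK hKW hρ hc
  have hn : (0 : ℝ) ≤ n := Nat.cast_nonneg n
  refine ⟨n * M, by positivity, fun ι z hz ε hε hU hcρ hmax => ?_⟩
  rcases le_or_gt (C.S ι z) 0 with h0 | h0
  · exact h0.trans (by positivity)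
  have h1 := max_test (G_psd hU.1) (C.isOpen_U ι) hU (C.S_smooth ι)
    ((C.a_smooth ι).mono fun _ h => h.1) hρ.contDiffOn h0 hU.2 (hc.trans_le hcρ) hmax
  have h2 : dlogM (C.G z) (fun w => (C.a ι w : ℂ)) z = C.S ι z := by
    refine dlogM_congr _ ?_
    filter_upwards [C.isOpen.mem_nhds hU.1] with w hw
    exact (ac_eq hw ι).symm
  have h3 := (hb z hz).2 hcρ
  have h4 := lu hN hC hU h0
  rw [h2] at h1
  have h5 : dlogM (C.G z) (fun w => (C.S ι w : ℂ)) z ≤ ε * M := by nlinarith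
  have h6 := mul_le_mul_of_nonneg_left h5 hn
  nlinarith

lemma hol_of_S (hN : N = 2 * n) (hC : C.Iso) (h : ∀ (ι : Fin n → Fin N), ∀ z ∈ C.U ι, C.S ι z = 0) :
    C.Hol n := by
  intro ι i b
  set L := top hN hC ι with hL
  have key : ∀ (j : Fin n) (b : Fin N), Sm.db (ι j) (L.dat.e i b) = 0 := by
    intro j b
    ext x
    have hx : (x : E N) ∈ C.U ι := x.2
    have hu : (fun a b c => Sm.ev x (L.dat.u a b c)) = 0 := by
      refine ip3_eq_zero (g_posDef hx) _ ?_
      rw [← lu_evS, ← L.S_eq x]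
      exact h ι x hx
    have hT : ∀ k, ∑ c, C.X ι x k c * Sm.ev x (Sm.db (ι j) (L.dat.e i c)) = 0 := by
      intro k
      have h1 : Sm.ev x (L.dat.T k i j) = 0 := by
        rw [Dat.T_eq, map_sum]
        refine Finset.sum_eq_zero fun p _ => ?_
        have h2 : Sm.ev x (L.dat.u k i p) = 0 := congrFun (congrFun (congrFun hu k) i) p
        rw [map_mul, h2, zero_mul]
      rw [Dat.T, map_sum] at h1
      rw [← h1]
      refine Finset.sum_congr rfl fun c _ => ?_
      rw [map_mul, L.rX k c x]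
      rfl
    have hall : ∀ v ∈ C.null x, ∑ c, v c * Sm.ev x (Sm.db (ι j) (L.dat.e i c)) = 0 := by
      intro v hv
      rw [← span_X hN hC hx] at hv
      induction hv using Submodule.span_induction with
      | mem v hv =>
        obtain ⟨k, rfl⟩ := hv
        exact hT k
      | zero => simp
      | add v w _ _ h1 h2 =>
        simp only [Pi.add_apply, add_mul, Finset.sum_add_distrib, h1, h2, add_zero]
      | smul a v _ h1 =>
        simp only [Pi.smul_apply, smul_eq_mul, mul_assoc, ← Finset.mul_sum, h1, mul_zero]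
    have hsum : ∀ F : Fin N → ℂ, ∑ c, ((Pi.single b 1 : E N) -
        ∑ m, C.e ι x m b • (Pi.single (ι m) 1 : E N)) c * F c =
          F b - ∑ m, C.e ι x m b * F (ι m) := by
      intro F
      simp only [Pi.sub_apply, Finset.sum_apply, Pi.smul_apply, smul_eq_mul, sub_mul,
        Finset.sum_sub_distrib, Finset.sum_mul]
      rw [Finset.sum_comm]
      simp [Pi.single_apply]
    have hmem : ((Pi.single b 1 : E N) - ∑ m, C.e ι x m b • (Pi.single (ι m) 1 : E N)) ∈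
        C.null x := by
      rw [mem_null_iff hx (L.rank_le x)]
      intro i'
      rw [hsum fun c => C.e ι x i' c]
      simp [e_ι hx]
    have h3 := hall _ hmem
    rw [hsum fun c => Sm.ev x (Sm.db (ι j) (L.dat.e i c))] at h3
    have h4 : ∀ m, Sm.db (ι j) (L.dat.e i (ι m)) = 0 := by
      intro m
      have h5 : L.dat.e i (ι m) = if i = m then 1 else 0 := L.dat.e_ι i m
      rw [h5]
      split_ifs <;> simp
    simpa [h4] using h3
  refine (L.re i b).hol fun c => ?_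
  have h1 : Sm.db c (L.dat.e i b) = ∑ m, star (L.dat.e m c) * Sm.db (ι m) (L.dat.e i b) :=
    L.dat.db_e c i b
  rw [h1]
  simp only [key, mul_zero, Finset.sum_const_zero]

lemma holFrame (hN : N = 2 * n) (hC : C.Iso) (h : C.Hol n) (hz : z ∈ C.W)
    (hr : (C.η z).rank = n) : C.HolFrame n z := by
  obtain ⟨ι, hι⟩ := exists_U (n := n) hz hr.ge
  refine ⟨C.U ι, fun k w => C.X ι w k, C.isOpen_U ι, hι, fun _ hw => hw.1,
    fun k => differentiableOn_pi.2 fun a => C.X_hol ι h k a, fun w hw =>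
      ⟨X_indep hw, span_X hN hC hw, fun k l => ?_⟩⟩
  rw [σ_X hw.1]
  exact (mem_null_iff hw (rank_le hN hC hw.1) _).1 (X_mem_null hC hw k) l

end Chart

end Pool.Agent.SPF
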