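import Pool.Agent.P.MP_63735c_ag.SPGlue

/-! Objects for the version with parameters. -/

open Set Filter Topology
open scoped ComplexOrder ContDiff Matrix

namespace Pool.Agent.SPF

variable {N n : ℕ}

/-- The coefficients of the derivative of a map on the frame. -/
noncomputable def Chart.mf (C : Chart N) (ι : Fin n → Fin N) (f : E n → E N) (t : E n) :
    Fin n → Fin n → ℂ := fun k j => ∑ b, C.σ (f t) (ι j) b * jac f t b k

/-- Good after a linear change of the parameter. -/
def Chart.AGood (C : Chart N) (f : E n → E N) (t : E n) : Prop :=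
  ∃ M : E n ≃L[ℂ] E n, C.Good (fun s => f (M s)) (M.symm t)

/-- The pairing of the two factors under the pulled back symplectic form. -/
noncomputable def Chart.pair (C : Chart N) (F : E n × E n → E N) (w : E n × E n) (β τ : E n) : ℂ :=
  fderiv ℂ F w (β, 0) ⬝ᵥ C.σ (F w) *ᵥ fderiv ℂ F w (0, τ)

/-- A map that lifts to an affinely good map. -/
def Atlas.AGoodAt {X : Type} [TopologicalSpace X] (A : Atlas X N) (Φ : E n → X) (t : E n) : Prop :=
  ∃ (i : A.ι) (f : E n → E N), (A.C i).AGood f t ∧ ∀ᶠ s in 𝓝 t, A.p i (f s) = Φ s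

/-- Through every point of the rank `n` locus there is an entire good map. -/
def Atlas.Complete {X : Type} [TopologicalSpace X] (A : Atlas X N) (n : ℕ) : Prop :=
  ∀ i, ∀ z ∈ (A.C i).W, ((A.C i).η z).rank = n →
    ∃ Φ : E n → X, Φ 0 = A.p i z ∧ ∀ t, A.GoodAt Φ t

/-- A normalized joint lift. -/
def Atlas.NLift {X : Type} [TopologicalSpace X] (A : Atlas X N) (Ψ : E n × E n → X)
    (w : E n × E n) : Prop :=
  ∃ (i : A.ι) (F : E n × E n → E N), ∀ᶠ s in 𝓝 w, F s ∈ (A.C i).W ∧ DifferentiableAt ℂ F s ∧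
    A.p i (F s) = Ψ s ∧ (A.C i).AGood (fun ξ => F (s.1, ξ)) s.2 ∧
      ∀ β τ, (A.C i).pair F s β τ = β ⬝ᵥ τ

end Pool.Agent.SPF
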