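import Pool.Agent.P.MP_63735c_ag.SPDefs

/-! Hermitian line bundles, their holomorphic sections, holomorphic forms. -/

open scoped ContDiff

namespace Pool.Agent.SE

open Pool.Agent.SPF

variable {N : ℕ} {X : Type} [TopologicalSpace X]

/-- A holomorphic line bundle that is trivial on each chart, with transition functions `g i j`
and a hermitian metric `exp (-ψ i)` whose curvature is `η`. -/
structure Line (A : Atlas X N) where
  g : A.ι → A.ι → X → ℂ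
  ψ : A.ι → E N → ℝ
  g_hol : ∀ i j, ∀ z ∈ (A.C i).W, A.p i z ∈ A.p j '' (A.C j).W →
    DifferentiableAt ℂ (fun w => g i j (A.p i w)) z
  g_mul : ∀ i j k x, x ∈ A.p i '' (A.C i).W → x ∈ A.p j '' (A.C j).W → x ∈ A.p k '' (A.C k).W →
    g j k x * g i j x = g i k x
  ψ_smooth : ∀ i, ContDiffOn ℝ ∞ (ψ i) (A.C i).W
  ψ_eq : ∀ i j, ∀ z ∈ (A.C i).W, ∀ y ∈ (A.C j).W, A.p i z = A.p j y →
    Real.exp (-ψ i z) = ‖g i j (A.p i z)‖ ^ 2 * Real.exp (-ψ j y)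
  curv : ∀ i, ∀ z ∈ (A.C i).W, ∀ a b,
    dz a (fun y => star (dz b (fun x => (ψ i x : ℂ)) y)) z = (A.C i).η z a b

/-- `s` is a holomorphic section of the `m`-th power of `L`. -/
def Line.IsSection {A : Atlas X N} (L : Line A) (m : ℕ) (s : A.ι → E N → ℂ) : Prop :=
  (∀ i, DifferentiableOn ℂ (s i) (A.C i).W) ∧ ∀ i j, ∀ z ∈ (A.C i).W, ∀ y ∈ (A.C j).W,
    A.p i z = A.p j y → s j y = L.g i j (A.p i z) ^ m * s i z

/-- `α` is a holomorphic `p`-form. -/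
def IsForm (A : Atlas X N) {p : ℕ} (α : A.ι → E N → E N [⋀^Fin p]→ₗ[ℂ] ℂ) : Prop :=
  (∀ i v, DifferentiableOn ℂ (fun z => α i z v) (A.C i).W) ∧
    ∀ i j O φ, IsChange (A.C i) (A.C j) O φ → (∀ w ∈ O, A.p j (φ w) = A.p i w) →
      ∀ z ∈ O, ∀ v, α i z v = α j (φ z) fun k => fderiv ℂ φ z (v k)

/-- Holomorphic forms of odd degree vanish. -/
def NoOdd (A : Atlas X N) : Prop :=
  ∀ p, Odd p → ∀ α : A.ι → E N → E N [⋀^Fin p]→ₗ[ℂ] ℂ, IsForm A α →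
    ∀ i, ∀ z ∈ (A.C i).W, α i z = 0

end Pool.Agent.SE
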