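import Pool.Agent.P.MP_63735c_ag.SPJoint2

/-! The uniformizing map. -/

open Set Filter Topology
open scoped ComplexOrder ContDiff Matrix

namespace Pool.Agent.SPF

variable {N n : ℕ} {X : Type} [TopologicalSpace X] [T2Space X] {A : Atlas X N}

lemma unif_slice {F : E n × E n → E N} {s : E n × E n} (hF : DifferentiableAt ℂ F s) (τ : E n) :
    fderiv ℂ (fun ξ => F (s.1, ξ)) s.2 τ = fderiv ℂ F s (0, τ) := by
  have h1 : HasFDerivAt (fun ξ : E n => ((s.1, ξ) : E n × E n))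
      (ContinuousLinearMap.inr ℂ (E n) (E n)) s.2 := hasFDerivAt_prodMk_right s.1 s.2
  have h2 : HasFDerivAt F (fderiv ℂ F s) ((fun ξ : E n => ((s.1, ξ) : E n × E n)) s.2) :=
    hF.hasFDerivAt
  have h3 := (h2.comp s.2 h1).fderiv
  have h4 : (fun ξ => F (s.1, ξ)) = F ∘ fun ξ : E n => ((s.1, ξ) : E n × E n) := rfl
  rw [h4, h3]
  rfl

lemma unif_null {C : Chart N} (hN : N = 2 * n) (hC : C.Iso) {z : E N} (hz : z ∈ C.W)
    (hr : (C.η z).rank = n) {v w : E N} (hv : v ∈ C.null z) (hw : w ∈ C.null z) :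
    v ⬝ᵥ C.σ z *ᵥ w = 0 := by
  obtain ⟨ι, hι⟩ := Chart.exists_U (n := n) hz hr.ge
  have h1 := (Chart.mem_null_iff hι hr.le v).1 hv
  rw [Chart.eq_sum_X hN hC hι hw]
  simp only [Matrix.mulVec_sum, Matrix.mulVec_smul, Chart.σ_X hz, dotProduct_sum, dotProduct_smul]
  refine Finset.sum_eq_zero fun j _ => ?_
  have h2 : v ⬝ᵥ C.e ι z j = 0 := h1 j
  rw [h2, smul_zero]

lemma unif_dot {β : E n} (h : ∀ τ : E n, β ⬝ᵥ τ = 0) : β = 0 := by
  funext k
  simpa using h (Pi.single k 1)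

lemma unif_bij (hN : N = 2 * n) (D : E n × E n →L[ℂ] E N) (S : Matrix (Fin N) (Fin N) ℂ)
    (h : ∀ β τ τ', D (β, τ) ⬝ᵥ S *ᵥ D (0, τ') = β ⬝ᵥ τ') : Function.Bijective D := by
  have hi : Function.Injective (D : E n × E n →ₗ[ℂ] E N) := by
    refine (injective_iff_map_eq_zero _).2 ?_
    rintro ⟨β, τ⟩ h0
    have h0' : D (β, τ) = 0 := h0
    have hβ : β = 0 := unif_dot fun τ' => by rw [← h β τ τ', h0', zero_dotProduct]
    subst hβ
    have hτ : τ = 0 := unif_dot fun β' => by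
      rw [dotProduct_comm, ← h β' 0 τ, h0', Matrix.mulVec_zero, dotProduct_zero]
    rw [hτ]
    rfl
  refine ⟨hi, (LinearMap.injective_iff_surjective_of_finrank_eq_finrank ?_).1 hi⟩
  simp only [Module.finrank_prod, Module.finrank_fin_fun]
  omega

omit [T2Space X] in
theorem Atlas.unif_of_nlift (hN : N = 2 * n) (hI : ∀ i, (A.C i).Iso) {T : Set (E n)}
    {Ψ : E n × E n → X} (h : ∀ w : E n × E n, w.1 ∈ T → A.NLift Ψ w) : A.IsUnif T Ψ := by
  intro w hw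
  obtain ⟨i, F, hF⟩ := h w hw
  obtain ⟨O, hO, ho, ht⟩ := eventually_nhds_iff.1 hF
  refine ⟨i, O, F, ho, ht, fun s hs => (hO s hs).2.1.differentiableWithinAt, fun s hs => ?_⟩
  obtain ⟨h1, h2, h3, h4, h5⟩ := hO s hs
  obtain ⟨-, k2, -, k4⟩ := h4.basic hN (hI i)
  have hnull : ∀ v, v ∈ (A.C i).null (F s) ↔ ∃ τ, fderiv ℂ F s (0, τ) = v := fun v => by
    have h6 := k4 v
    simp only [unif_slice h2] at h6
    exact h6
  have hp : ∀ β τ τ', fderiv ℂ F s (β, τ) ⬝ᵥ (A.C i).σ (F s) *ᵥ fderiv ℂ F s (0, τ') = β ⬝ᵥ τ' := by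
    intro β τ τ'
    have h6 : ((β, τ) : E n × E n) = (β, 0) + (0, τ) := by simp
    have h7 := unif_null hN (hI i) h1 k2 ((hnull _).2 ⟨τ, rfl⟩) ((hnull _).2 ⟨τ', rfl⟩)
    rw [h6, map_add, add_dotProduct, h7, add_zero]
    exact h5 β τ'
  exact ⟨h1, h3, unif_bij hN _ _ hp, hnull, hp⟩

/-- The transversal slice. -/
noncomputable def unifL (ι : Fin n → Fin N) : E n →L[ℂ] E N :=
  ∑ j, (ContinuousLinearMap.proj j : E n →L[ℂ] ℂ).smulRight (Pi.single (ι j) 1)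

lemma unifL_apply (ι : Fin n → Fin N) (b : E n) :
    unifL ι b = ∑ j, b j • (Pi.single (ι j) 1 : E N) := by
  simp only [unifL, sum_apply, ContinuousLinearMap.smulRight_apply,
    ContinuousLinearMap.proj_apply]

lemma unif_pair {C : Chart N} {ι : Fin n → Fin N} {z : E N} (hz : z ∈ C.U ι) (β τ : E n) :
    unifL ι β ⬝ᵥ C.σ z *ᵥ (C.V ι (z, fun k j => if k = j then 1 else 0) τ).1 = β ⬝ᵥ τ := by
  have h1 : (C.V ι (z, fun k j => if k = j then 1 else 0) τ).1 = ∑ k, τ k • C.X ι z k := by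
    rw [Chart.V_apply]
    funext a
    simp only [Finset.sum_apply, Pi.smul_apply, smul_eq_mul, mul_ite, mul_one, mul_zero, ite_mul,
      zero_mul, Finset.sum_ite_eq, Finset.mem_univ, if_true]
  rw [h1, unifL_apply, sum_dotProduct]
  refine Finset.sum_congr rfl fun j _ => ?_
  rw [smul_dotProduct, single_dotProduct, one_mul, Chart.lin3_coef hz, smul_eq_mul]

theorem Atlas.exists_unif (hN : N = 2 * n) (A : Atlas X N)
    (hI : ∀ i, (A.C i).Iso) (hH : ∀ i, (A.C i).Hol n) (hG : A.Complete n) (i : A.ι) {z : E N} (hz : z ∈ (A.C i).W)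
    (hr : n ≤ ((A.C i).η z).rank) :
    ∃ (T : Set (E n)) (Ψ : E n × E n → X), IsOpen T ∧ 0 ∈ T ∧ Ψ (0, 0) = A.p i z ∧
      A.IsUnif T Ψ := by
  obtain ⟨ι, hι⟩ := Chart.exists_U (n := n) hz hr
  have hT : IsOpen {b : E n | z + unifL ι b ∈ (A.C i).U ι} :=
    ((A.C i).isOpen_U ι).preimage (continuous_const.add (unifL ι).continuous)
  have hex : ∀ b : E n, ∃ (Φ : E n → X) (f : E n → E N), z + unifL ι b ∈ (A.C i).U ι →
      (∀ t, A.AGoodAt Φ t) ∧ (A.C i).AGood f 0 ∧ f 0 = z + unifL ι b ∧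
        (A.C i).mf ι f 0 = (fun k j => if k = j then 1 else 0) ∧
          ∀ᶠ s in 𝓝 (0 : E n), A.p i (f s) = Φ s := by
    intro b
    by_cases hb : z + unifL ι b ∈ (A.C i).U ι
    · obtain ⟨Φ, f, h⟩ := A.exists_agood hN hI hG i hb
      exact ⟨Φ, f, fun _ => h⟩
    · exact ⟨fun _ => A.p i z, fun _ => z, fun h => absurd h hb⟩
  choose Φ f hf using hex
  have h0 : z + unifL ι (0 : E n) ∈ (A.C i).U ι := by
    rw [map_zero, add_zero]
    exact hι
  refine ⟨{b : E n | z + unifL ι b ∈ (A.C i).U ι}, fun w => Φ w.1 w.2, hT, h0, ?_,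
    Atlas.unif_of_nlift hN hI fun w hw => ?_⟩
  · obtain ⟨-, -, h3, -, h5⟩ := hf 0 h0
    have h6 := h5.self_of_nhds
    rw [h3, map_zero, add_zero] at h6
    exact h6.symm
  · obtain ⟨b₀, ξ⟩ := w
    have hb : ∀ᶠ b in 𝓝 b₀, z + unifL ι b ∈ (A.C i).U ι := hT.mem_nhds hw
    obtain ⟨r, δ, hr0, hδ, hs⟩ := Atlas.nlift_step hN hI hH i ι
      (y₀ := (z + unifL ι b₀, fun k j => if k = j then 1 else 0)) hw
    refine Atlas.nlift_all hN hI hH (hb.mono fun b hb => (hf b hb).1) ?_ ξ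
    refine hs _ b₀ 0 (fun b => (z + unifL ι b, fun k j => if k = j then 1 else 0))
      (Metric.mem_ball_self hr0) (hb.mono fun b hb => ?_) 0 (Metric.mem_ball_self hδ)
    obtain ⟨h1, h2, h3, h4, h5⟩ := hf b hb
    have hd : HasFDerivAt (fun b : E n => ((z + unifL ι b, fun k j => if k = j then 1 else 0) :
        E N × (Fin n → Fin n → ℂ))) ((unifL ι).prod 0) b :=
      ((unifL ι).hasFDerivAt.const_add z).prodMk (hasFDerivAt_const _ _)
    refine ⟨hd.differentiableAt, h1, ⟨f b, h2, by rw [h3, h4], h5⟩, fun β τ => ?_⟩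
    rw [hd.fderiv]
    exact unif_pair hb β τ

end Pool.Agent.SPF
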