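import Pool.Agent.P.MP_63735c_ag.SPDat
import Pool.Agent.P.MP_63735c_ag.SPLin3

/-! The frame system is integrable. -/

open Set Filter Topology
open scoped ComplexOrder ContDiff Matrix

namespace Pool.Agent.SPF

variable {N n : ℕ}

lemma sys_line {F : Type} [NormedAddCommGroup F] [NormedSpace ℂ F] (y w : F) :
    HasDerivAt (fun ε : ℂ => y + ε • w) w 0 := by
  simpa using ((hasDerivAt_id (0 : ℂ)).smul_const w).const_add y

lemma sys_fd {f : E N → ℂ} {z : E N} (hf : DifferentiableAt ℂ f z) (v : E N) :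
    HasDerivAt (fun ε : ℂ => f (z + ε • v)) (∑ c, v c * dz c f z) 0 := by
  have h1 : HasFDerivAt f (fderiv ℂ f z) (z + (0 : ℂ) • v) := by simpa using hf.hasFDerivAt
  have h2 := h1.comp_hasDerivAt (0 : ℂ) (sys_line z v)
  have h3 : fderiv ℂ f z v = ∑ c, v c * dz c f z := by
    have h4 := fderiv_eq_wirt f z v
    rw [hf.fderiv_restrictScalars ℝ] at h4
    simpa [(dz_of_diff hf _).2] using h4
  rw [h3] at h2
  exact h2

lemma sys_m (m μ : Fin n → Fin n → ℂ) (q p : Fin n) :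
    HasDerivAt (fun ε : ℂ => m q p + ε * μ q p) (μ q p) 0 := sys_line (m q p) (μ q p)

lemma sys_gen {F G H : Type} [NormedAddCommGroup F] [NormedSpace ℂ F] [NormedAddCommGroup G]
    [NormedSpace ℂ G] [NormedAddCommGroup H] [NormedSpace ℂ H] {V : F → G →L[ℂ] H} {y : F}
    (h0 : DifferentiableAt ℂ V y) (w : F) (t : G) :
    HasDerivAt (fun ε : ℂ => V (y + ε • w) t) (fderiv ℂ V y w t) 0 := by
  have h1 : HasFDerivAt V (fderiv ℂ V y) (y + (0 : ℂ) • w) := by
    rw [zero_smul, add_zero]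
    exact h0.hasFDerivAt
  have h2 : HasDerivAt (fun ε : ℂ => V (y + ε • w)) (fderiv ℂ V y w) 0 :=
    HasFDerivAt.comp_hasDerivAt (l := V) (f := fun ε : ℂ => y + ε • w) 0 h1 (sys_line y w)
  exact (ContinuousLinearMap.apply ℂ H t).hasFDerivAt.comp_hasDerivAt (0 : ℂ) h2

lemma sys_V {C : Chart N} (h : C.Hol n) (ι : Fin n → Fin N)
    (y : E N × (Fin n → Fin n → ℂ)) (hy : y.1 ∈ C.U ι) (w : E N × (Fin n → Fin n → ℂ)) (t : E n) :
    HasDerivAt (fun ε : ℂ => C.V ι (y + ε • w) t) (fderiv ℂ (C.V ι) y w t) 0 :=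
  sys_gen ((C.V_hol ι h).differentiableAt
    (((C.isOpen_U ι).prod isOpen_univ).mem_nhds ⟨hy, trivial⟩)) w t

lemma sys_D1 {C : Chart N} (h : C.Hol n) (ι : Fin n → Fin N)
    (y : E N × (Fin n → Fin n → ℂ)) (hy : y.1 ∈ C.U ι) (w : E N × (Fin n → Fin n → ℂ)) (t : E n)
    (a : Fin N) : (fderiv ℂ (C.V ι) y w t).1 a = ∑ q, ∑ p, (t q * w.2 q p * C.X ι y.1 p a +
      t q * y.2 q p * ∑ c, w.1 c * dz c (fun z => C.X ι z p a) y.1) := by
  have h1 := hasDerivAt_pi.1 (sys_V h ι y hy w t).fst a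
  refine h1.unique ?_
  simp only [Chart.V_apply, Prod.fst_add, Prod.snd_add, Prod.smul_fst, Prod.smul_snd,
    Pi.add_apply, Pi.smul_apply, smul_eq_mul]
  refine HasDerivAt.fun_sum fun q _ => HasDerivAt.fun_sum fun p _ => ?_
  have h2 := ((sys_m y.2 w.2 q p).const_mul (t q)).fun_mul
    (sys_fd ((C.X_hol ι h p a).differentiableAt ((C.isOpen_U ι).mem_nhds hy)) w.1)
  simpa using h2

lemma sys_D2 {C : Chart N} (h : C.Hol n) (ι : Fin n → Fin N)
    (y : E N × (Fin n → Fin n → ℂ)) (hy : y.1 ∈ C.U ι) (w : E N × (Fin n → Fin n → ℂ)) (t : E n)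
    (k i : Fin n) : (fderiv ℂ (C.V ι) y w t).2 k i = -∑ q, ∑ p, ∑ r,
      ((t q * w.2 q p * y.2 k r + t q * y.2 q p * w.2 k r) * C.A ι y.1 p r i +
      t q * y.2 q p * y.2 k r * ∑ c, w.1 c * dz c (fun z => C.A ι z p r i) y.1) := by
  have h1 := hasDerivAt_pi.1 (hasDerivAt_pi.1 (sys_V h ι y hy w t).snd k) i
  refine h1.unique ?_
  simp only [Chart.V_apply, Prod.fst_add, Prod.snd_add, Prod.smul_fst, Prod.smul_snd,
    Pi.add_apply, Pi.smul_apply, smul_eq_mul]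
  refine HasDerivAt.fun_neg (HasDerivAt.fun_sum fun q _ => HasDerivAt.fun_sum fun p _ =>
    HasDerivAt.fun_sum fun r _ => ?_)
  have h2 := (((sys_m y.2 w.2 q p).const_mul (t q)).fun_mul (sys_m y.2 w.2 k r)).fun_mul
    (sys_fd ((C.A_hol ι h p r i).differentiableAt ((C.isOpen_U ι).mem_nhds hy)) w.1)
  simpa using h2

/-- contraction of two indices -/
lemma sys_con (t : Fin n → ℂ) (m : Fin n → Fin n → ℂ) (F : Fin n → ℂ) :
    ∑ q, ∑ p, t q * m q p * F p = ∑ p, (∑ q, t q * m q p) * F p := by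
  rw [Finset.sum_comm]
  simp only [Finset.sum_mul]

lemma sys_dir (σ : Fin n → ℂ) (X : Fin n → Fin N → ℂ) (d : Fin N → ℂ) :
    ∑ c, (∑ j, σ j * X j c) * d c = ∑ j, σ j * ∑ c, X j c * d c := by
  simp only [Finset.sum_mul, Finset.mul_sum, mul_assoc]
  exact Finset.sum_comm

lemma sys_mu (t σ : Fin n → ℂ) (m : Fin n → Fin n → ℂ) (A : Fin n → Fin n → ℂ) :
    ∑ q, t q * -∑ j, ∑ r, σ j * m q r * A j r =
      -∑ j, ∑ r, σ j * (∑ q, t q * m q r) * A j r := by
  simp only [mul_neg, Finset.sum_neg_distrib, Finset.mul_sum, Finset.sum_mul]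
  rw [Finset.sum_comm]
  refine congrArg _ (Finset.sum_congr rfl fun j _ => ?_)
  rw [Finset.sum_comm]
  exact Finset.sum_congr rfl fun r _ => Finset.sum_congr rfl fun q _ => by ring

lemma sys_sym (σ τ : Fin n → ℂ) (B : Fin n → Fin n → ℂ) (hB : ∀ j p, B j p = B p j) :
    ∑ j, ∑ p, σ j * τ p * B j p = ∑ j, ∑ p, τ j * σ p * B j p := by
  rw [Finset.sum_comm]
  exact Finset.sum_congr rfl fun j _ => Finset.sum_congr rfl fun p _ => by rw [hB p j]; ring

lemma sys_V1 (C : Chart N) (ι : Fin n → Fin N) (y : E N × (Fin n → Fin n → ℂ)) (s : E n)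
    (c : Fin N) : (C.V ι y s).1 c = ∑ j, (∑ q, s q * y.2 q j) * C.X ι y.1 j c := by
  rw [Chart.V_apply]
  exact sys_con s y.2 fun j => C.X ι y.1 j c

lemma sys_V3 (C : Chart N) (ι : Fin n → Fin N) (y : E N × (Fin n → Fin n → ℂ)) (s : E n)
    (d : Fin N → ℂ) : ∑ c, (C.V ι y s).1 c * d c =
      ∑ j, (∑ q, s q * y.2 q j) * ∑ c, C.X ι y.1 j c * d c := by
  simp only [sys_V1]
  exact sys_dir _ _ _

lemma sys_V2 (C : Chart N) (ι : Fin n → Fin N) (y : E N × (Fin n → Fin n → ℂ)) (s : E n)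
    (k i : Fin n) : (C.V ι y s).2 k i =
      -∑ j, ∑ r, (∑ q, s q * y.2 q j) * y.2 k r * C.A ι y.1 j r i := by
  rw [Chart.V_apply]
  simp only [Finset.sum_mul]
  rw [Finset.sum_comm]
  exact congrArg _ (Finset.sum_congr rfl fun j _ => Finset.sum_comm)

lemma sys_cyc (f : Fin n → Fin n → Fin n → ℂ) :
    ∑ p, ∑ j, ∑ r, f p j r = ∑ j, ∑ r, ∑ p, f p j r := by
  rw [Finset.sum_comm]
  exact Finset.sum_congr rfl fun j _ => Finset.sum_comm

lemma sys_alg1 (t σ : Fin n → ℂ) (m : Fin n → Fin n → ℂ) (A : Fin n → Fin n → Fin n → ℂ)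
    (X : Fin n → ℂ) (D : Fin n → Fin n → ℂ) :
    ∑ q, ∑ p, (t q * (-∑ j, ∑ r, σ j * m q r * A j r p) * X p + t q * m q p * ∑ j, σ j * D j p) =
      ∑ j, ∑ p, σ j * (∑ q, t q * m q p) * (D j p - ∑ i, A j p i * X i) := by
  rw [Finset.sum_comm]
  simp only [Finset.sum_add_distrib, ← Finset.sum_mul, sys_mu]
  obtain ⟨τ, hτ⟩ : ∃ τ : Fin n → ℂ, ∀ p, ∑ q, t q * m q p = τ p := ⟨_, fun _ => rfl⟩
  simp only [hτ]
  simp only [neg_mul, Finset.sum_neg_distrib, Finset.sum_mul, Finset.mul_sum, mul_sub,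
    Finset.sum_sub_distrib]
  rw [sys_cyc, neg_add_eq_sub, Finset.sum_comm]
  congr 1
  · exact Finset.sum_congr rfl fun _ _ => Finset.sum_congr rfl fun _ _ => by ring
  · exact Finset.sum_congr rfl fun _ _ => Finset.sum_congr rfl fun _ _ =>
      Finset.sum_congr rfl fun _ _ => by ring

lemma sys_alg2 (t σ : Fin n → ℂ) (m : Fin n → Fin n → ℂ) (A : Fin n → Fin n → Fin n → ℂ)
    (k i : Fin n) (D : Fin n → Fin n → Fin n → ℂ) :
    -∑ q, ∑ p, ∑ r, ((t q * (-∑ j, ∑ c, σ j * m q c * A j c p) * m k r +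
      t q * m q p * -∑ j, ∑ c, σ j * m k c * A j c r) * A p r i +
      t q * m q p * m k r * ∑ j, σ j * D j p r) =
      ∑ j, ∑ b, σ j * (∑ q, t q * m q b) * ∑ r, m k r *
        (∑ p, A j b p * A p r i + ∑ c, A j r c * A b c i - D j b r) := by
  rw [sys_cyc]
  simp only [Finset.sum_add_distrib, add_mul, ← Finset.sum_mul, sys_mu]
  obtain ⟨τ, hτ⟩ : ∃ τ : Fin n → ℂ, ∀ p, ∑ q, t q * m q p = τ p := ⟨_, fun _ => rfl⟩
  simp only [hτ]
  simp only [neg_mul, mul_neg, Finset.sum_neg_distrib, Finset.sum_mul, Finset.mul_sum, mul_sub,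
    mul_add, Finset.sum_sub_distrib, Finset.sum_add_distrib, neg_add, neg_neg]
  rw [← sub_eq_add_neg]
  congr 1
  · congr 1
    · calc _ = ∑ p, ∑ j, ∑ c, ∑ r, σ j * τ c * A j c p * m k r * A p r i :=
            Finset.sum_congr rfl fun p _ => sys_cyc _
        _ = ∑ j, ∑ c, ∑ p, ∑ r, σ j * τ c * A j c p * m k r * A p r i := sys_cyc _
        _ = _ := Finset.sum_congr rfl fun j _ => Finset.sum_congr rfl fun c _ => by
            rw [Finset.sum_comm]
            exact Finset.sum_congr rfl fun _ _ => Finset.sum_congr rfl fun _ _ => by ring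
    · calc _ = ∑ p, ∑ j, ∑ c, ∑ r, τ p * (σ j * m k c * A j c r) * A p r i :=
            Finset.sum_congr rfl fun p _ => sys_cyc _
        _ = _ := by
            rw [Finset.sum_comm]
            exact Finset.sum_congr rfl fun _ _ => Finset.sum_congr rfl fun _ _ =>
              Finset.sum_congr rfl fun _ _ => Finset.sum_congr rfl fun _ _ => by ring
  · rw [← sys_cyc]
    exact Finset.sum_congr rfl fun _ _ => Finset.sum_congr rfl fun _ _ =>
      Finset.sum_congr rfl fun _ _ => by ring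

theorem Chart.V_symm {C : Chart N} (hN : N = 2 * n) (hC : C.Iso) (h : C.Hol n)
    (ι : Fin n → Fin N) (y : E N × (Fin n → Fin n → ℂ)) (hy : y.1 ∈ C.U ι) (s t : E n) :
    fderiv ℂ (C.V ι) y (C.V ι y s) t = fderiv ℂ (C.V ι) y (C.V ι y t) s := by
  let L := Chart.top hN hC ι
  let x : L.O := ⟨y.1, hy⟩
  refine Prod.ext (funext fun a => ?_) (funext fun k => funext fun i => ?_)
  · rw [sys_D1 h ι y hy, sys_D1 h ι y hy]
    simp only [sys_V3, sys_V2]
    rw [sys_alg1, sys_alg1]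
    refine sys_sym _ _ _ fun j p => ?_
    have hb := congrArg (Sm.ev x) (L.dat.bracket j p a)
    simp only [map_sub, map_sum, map_mul, L.ev_X _ (L.rX _ _), L.rX _ _ x, L.rA _ _ _ x, sub_mul,
      Finset.sum_sub_distrib] at hb
    linear_combination hb
  · rw [sys_D2 h ι y hy, sys_D2 h ι y hy]
    simp only [sys_V3, sys_V2]
    rw [sys_alg2, sys_alg2]
    refine sys_sym _ _ _ fun j b => Finset.sum_congr rfl fun r _ => congrArg _ ?_
    have hb := congrArg (Sm.ev x) (L.dat.flat j b r i)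
    simp only [map_sub, map_add, map_sum, map_mul, L.ev_X _ (L.rA _ _ _), L.rA _ _ _ x, sub_mul,
      Finset.sum_sub_distrib] at hb
    linear_combination -hb

end Pool.Agent.SPF
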