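import Pool.Agent.P.MP_63735c_ag.SPFlow

/-! Integrable holomorphic systems: holomorphic dependence on the initial point. -/

open Set Filter Topology
open scoped ComplexOrder ContDiff Matrix

namespace Pool.Agent.SPF

/-- the flow of a vector field that is holomorphic along a curve is holomorphic there -/
theorem flow2_hol {H : Type} [NormedAddCommGroup H] [NormedSpace ℂ H]
    {Z : H → H} (hZ : ContDiff ℝ 1 Z) {P : ℝ × H → H} (hP : ContDiff ℝ 2 P)
    (h0 : ∀ x, P (0, x) = x) (hd : ∀ s x, HasDerivAt (fun s => P (s, x)) (Z (P (s, x))) s) {x : H}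
    (hc : ∀ s ∈ Icc (0 : ℝ) 1, DifferentiableAt ℂ Z (P (s, x))) :
    DifferentiableAt ℂ (fun x => P (1, x)) x := by
  have hPd : Differentiable ℝ P := hP.differentiable (by norm_num)
  have hsl : ∀ s, HasFDerivAt (fun x => P (s, x))
      ((fderiv ℝ P (s, x)).comp (ContinuousLinearMap.inr ℝ ℝ H)) x := fun s =>
    (hPd (s, x)).hasFDerivAt.comp x (hasFDerivAt_prodMk_right s x)
  have hγc : Continuous fun s : ℝ => P (s, x) := hP.continuous.comp (by fun_prop)
  have hcont : ContinuousOn (fun s : ℝ => fderiv ℝ Z (P (s, x))) (Icc (0 : ℝ) 1) :=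
    ((hZ.continuous_fderiv one_ne_zero).comp hγc).continuousOn
  obtain ⟨C, hC⟩ := isCompact_Icc.exists_bound_of_continuousOn hcont
  have key : ∀ (c : ℂ) (ξ : H),
      fderiv ℝ P (1, x) (0, c • ξ) = c • fderiv ℝ P (1, x) (0, ξ) := by
    intro c ξ
    let w : ℝ → H := fun s => fderiv ℝ P (s, x) (0, c • ξ) - c • fderiv ℝ P (s, x) (0, ξ)
    have hw : ∀ s ∈ Icc (0 : ℝ) 1, HasDerivAt w (fderiv ℝ Z (P (s, x)) (w s)) s := by
      intro s hs'
      have b4 := fun η : H => Lib.Flow.variation (P := P) (v := Z) (t := s) (x := x) hP.contDiffAt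
        (hZ.differentiable one_ne_zero _) (Eventually.of_forall fun u => hd u.1 u.2) (0, η)
      have b7 := (b4 (c • ξ)).sub ((b4 ξ).const_smul c)
      refine b7.congr_deriv ?_
      have e1 : fderiv ℝ Z (P (s, x)) = (fderiv ℂ Z (P (s, x))).restrictScalars ℝ :=
        ((hc s hs').hasFDerivAt.restrictScalars ℝ).fderiv
      simp only [w, map_sub, e1, ContinuousLinearMap.coe_restrictScalars', map_smul]
    have hw0 : w 0 = 0 := by
      have a1 := hsl 0
      have a2 : HasFDerivAt (fun x => P (0, x)) (ContinuousLinearMap.id ℝ H) x := by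
        simp only [h0]; exact hasFDerivAt_id x
      have a3 : ∀ η : H, fderiv ℝ P (0, x) (0, η) = η := fun η => by
        simpa using congrArg (fun L : H →L[ℝ] H => L η) (a1.unique a2)
      simp only [w, a3, sub_self]
    have hz := eq_zero_of_abs_deriv_le_mul_abs_self_of_eq_zero_right (K := C)
      (fun s hs' => (hw s hs').continuousAt.continuousWithinAt)
      (fun s hs' => (hw s (Ico_subset_Icc_self hs')).hasDerivWithinAt) hw0
      (fun s hs' => by
        have c1 := hC s (Ico_subset_Icc_self hs')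
        calc ‖fderiv ℝ Z (P (s, x)) (w s)‖ ≤ ‖fderiv ℝ Z (P (s, x))‖ * ‖w s‖ :=
              (fderiv ℝ Z (P (s, x))).le_opNorm _
          _ ≤ C * ‖w s‖ := by gcongr) 1 ⟨zero_le_one, le_rfl⟩
    simpa [w, sub_eq_zero] using hz
  let D : H →L[ℝ] H := (fderiv ℝ P (1, x)).comp (ContinuousLinearMap.inr ℝ ℝ H)
  let D' : H →L[ℂ] H :=
    { toFun := D
      map_add' := D.map_add
      map_smul' := fun c ξ => by simpa [D] using key c ξ
      cont := D.continuous }
  exact (hasFDerivAt_of_restrictScalars ℝ (f' := D') (hsl 1) (by ext ξ; rfl)).differentiableAt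

/-- `flow_local`, keeping the flow -/
theorem flow2_local {T G : Type} [NormedAddCommGroup T] [NormedSpace ℝ T] [FiniteDimensional ℝ T]
    [NormedAddCommGroup G] [NormedSpace ℝ G] [FiniteDimensional ℝ G]
    {Ω : Set G} (hΩ : IsOpen Ω) {V : G → T →L[ℝ] G}
    (hV : ∀ y ∈ Ω, ContDiffAt ℝ 2 V y)
    (hs : ∀ y ∈ Ω, ∀ s t, fderiv ℝ V y (V y s) t = fderiv ℝ V y (V y t) s) {a : G} (ha : a ∈ Ω) :
    ∃ (r δ : ℝ) (Z : T × G → T × G) (P : ℝ × (T × G) → T × G), 0 < r ∧ 0 < δ ∧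
      ContDiff ℝ 1 Z ∧ ContDiff ℝ 2 P ∧ (∀ x, P (0, x) = x) ∧
      (∀ s x, HasDerivAt (fun s => P (s, x)) (Z (P (s, x))) s) ∧
      ∀ y ∈ Metric.ball a r, (P (1, (0, y))).2 = y ∧ ∀ t ∈ Metric.ball (0 : T) δ,
        (∀ s ∈ Icc (0 : ℝ) 1, (P (s, (t, y))).2 ∈ Ω ∧
          Z =ᶠ[𝓝 (P (s, (t, y)))] fun p => (0, V p.2 p.1)) ∧
        HasFDerivAt (fun t => (P (1, (t, y))).2) (V (P (1, (t, y))).2) t := by
  have : CompleteSpace (T × G) := FiniteDimensional.complete ℝ _
  obtain ⟨ρ0, hρ0, hb⟩ := Metric.isOpen_iff.1 hΩ a ha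
  set ρ := ρ0 / 4 with hρ
  have hρ' : 0 < ρ := by positivity
  have hsub : ∀ p ∈ Metric.closedBall ((0 : T), a) (3 * ρ), p.2 ∈ Ω := by
    intro p hp
    rw [← closedBall_prod_same] at hp
    exact hb (Metric.closedBall_subset_ball (by rw [hρ]; linarith) hp.2)
  let b : ContDiffBump ((0 : T), a) := ⟨2 * ρ, 3 * ρ, by positivity, by linarith⟩
  let Z : T × G → T × G := fun p => b p • ((0 : T), V p.2 p.1)
  have hZ : ContDiff ℝ (2 : ℕ∞) Z := by
    rw [contDiff_iff_contDiffAt]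
    intro p
    by_cases hp : p.2 ∈ Ω
    · exact b.contDiff.contDiffAt.smul (contDiffAt_const.prodMk
        ((ContDiffAt.comp p (f := fun p : T × G => p.2) (hV _ hp) contDiffAt_snd).clm_apply
          contDiffAt_fst))
    · have h1 : p ∉ tsupport b := by
        rw [b.tsupport_eq]; exact fun h => hp (hsub p h)
      refine (contDiffAt_const (c := (0 : T × G))).congr_of_eventuallyEq ?_
      filter_upwards [notMem_tsupport_iff_eventuallyEq.1 h1] with z hz
      simp only [Z, hz, Pi.zero_apply, zero_smul]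
  have hc : HasCompactSupport Z := by
    refine HasCompactSupport.intro (isCompact_closedBall ((0 : T), a) (3 * ρ)) fun y hy => ?_
    rw [Metric.mem_closedBall, not_le] at hy
    simp only [Z, b.zero_of_le_dist hy.le, zero_smul]
  obtain ⟨P, hP, h0, hd, -⟩ :=
    Lib.Flow.exists_flow_of_hasCompactSupport (n := 2) (by simp) Z hZ hc
  have hfix : ∀ s y, P (s, (0, y)) = (0, y) := by
    intro s y
    have := Lib.Flow.curve_const (v := Z) (c := fun s => P (s, (0, y))) (t₀ := 0)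
      (hZ.contDiffAt.of_le (by norm_num)) (fun s => hd s _) (by simp [h0, Z]) s
    simpa [h0] using this
  have hfst : ∀ s p, (P (s, p)).1 = p.1 := by
    intro s p
    have hh : ∀ s, HasDerivAt (fun s => (P (s, p)).1) 0 s := fun s => by
      have := (ContinuousLinearMap.fst ℝ T G).hasFDerivAt.comp_hasDerivAt s (hd s p)
      simpa [Z, Function.comp_def] using this
    have := is_const_of_deriv_eq_zero (fun s => (hh s).differentiableAt) (fun s => (hh s).deriv) s 0
    simpa [h0] using this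
  have key : ∀ᶠ t in 𝓝 (0 : T), ∀ q ∈ Icc (0 : ℝ) 1 ×ˢ Metric.closedBall a ρ,
      P (q.1, (t, q.2)) ∈ Metric.ball ((0 : T), a) (2 * ρ) := by
    refine (isCompact_Icc.prod (isCompact_closedBall a ρ)).eventually_forall_of_forall_eventually
      fun q hq => ?_
    have hcn : Continuous fun z : T × ℝ × G => P (z.2.1, (z.1, z.2.2)) :=
      hP.continuous.comp (by fun_prop)
    refine hcn.continuousAt.eventually_mem (Metric.isOpen_ball.mem_nhds ?_)
    simp only [hfix, ← ball_prod_same]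
    exact ⟨Metric.mem_ball_self (by linarith), Metric.closedBall_subset_ball (by linarith) hq.2⟩
  obtain ⟨δ, hδ, hk⟩ := Metric.eventually_nhds_iff.1 key
  refine ⟨ρ, δ, Z, P, hρ', hδ, hZ.of_le (by norm_num), hP, h0, hd, fun y hy =>
    ⟨by simp [hfix], fun t ht => ?_⟩⟩
  have hm : ∀ s ∈ Icc (0 : ℝ) 1, P (s, (t, y)) ∈ Metric.ball ((0 : T), a) (2 * ρ) := fun s hs' =>
    hk (y := t) ht (s, y) ⟨hs', Metric.ball_subset_closedBall hy⟩
  have hΩ' : ∀ s ∈ Icc (0 : ℝ) 1, (P (s, (t, y))).2 ∈ Ω := fun s hs' =>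
    hsub _ (Metric.ball_subset_closedBall (Metric.ball_subset_ball (by linarith) (hm s hs')))
  have hZ' : ∀ s ∈ Icc (0 : ℝ) 1, (P (s, (t, y))).2 ∈ Ω ∧
      Z =ᶠ[𝓝 (P (s, (t, y)))] fun p => (0, V p.2 p.1) := fun s hs' => ⟨hΩ' s hs', by
    filter_upwards [Metric.isOpen_ball.mem_nhds (hm s hs')] with p hp
    simp only [Z, b.one_of_mem_closedBall (Metric.ball_subset_closedBall hp), one_smul]⟩
  exact ⟨hZ', flow_deriv (Z := Z) (Q := fun w => P (w.1, (w.2, y))) (y := y)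
    (fun y hy => (hV y hy).of_le (by norm_num)) hs (hP.comp (by fun_prop)) (fun t => h0 _)
    (fun w => hfst _ _) (fun s t => hd s (t, y)) hZ'⟩

variable {n : ℕ} {F : Type} [NormedAddCommGroup F] [NormedSpace ℂ F] [FiniteDimensional ℂ F]

theorem frob_family {Ω : Set F} (hΩ : IsOpen Ω) {V : F → E n →L[ℂ] F}
    (hV : DifferentiableOn ℂ V Ω)
    (hs : ∀ y ∈ Ω, ∀ s t, fderiv ℂ V y (V y s) t = fderiv ℂ V y (V y t) s) {y₀ : F} (h0 : y₀ ∈ Ω) :
    ∃ (r δ : ℝ) (Fl : F × E n → F), 0 < r ∧ 0 < δ ∧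
      DifferentiableOn ℂ Fl (Metric.ball y₀ r ×ˢ Metric.ball 0 δ) ∧ ∀ y ∈ Metric.ball y₀ r,
        Fl (y, 0) = y ∧ ∀ t ∈ Metric.ball (0 : E n) δ,
          Fl (y, t) ∈ Ω ∧ HasFDerivAt (fun s => Fl (y, s)) (V (Fl (y, t))) t := by
  let R : (E n →L[ℂ] F) →L[ℝ] E n →L[ℝ] F := ContinuousLinearMap.restrictScalarsL ℂ (E n) F ℝ ℝ
  have hsm : ∀ y ∈ Ω, ContDiffAt ℝ 2 (fun y => R (V y)) y := fun y hy =>
    R.contDiff.contDiffAt.comp y
      ((((flow_smooth hΩ hV).contDiffAt (hΩ.mem_nhds hy)).restrict_scalars ℝ).of_le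
        (WithTop.coe_le_coe.2 (le_top : (2 : ℕ∞) ≤ ⊤)))
  have hfd : ∀ y ∈ Ω, ∀ u t, fderiv ℝ (fun y => R (V y)) y u t = fderiv ℂ V y u t := by
    intro y hy u t
    have := R.hasFDerivAt.comp y
      ((hV.differentiableAt (hΩ.mem_nhds hy)).hasFDerivAt.restrictScalars ℝ)
    rw [show (fun y => R (V y)) = R ∘ V from rfl, this.fderiv]
    rfl
  obtain ⟨r, δ, Z, P, hr, hδ, hZ, hP, hP0, hd, h⟩ := flow2_local hΩ hsm (fun y hy s t => by
    rw [hfd y hy, hfd y hy]; exact hs y hy s t) h0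
  refine ⟨r, δ, fun w => (P (1, (w.2, w.1))).2, hr, hδ, ?_, fun y hy => ⟨(h y hy).1, fun t ht =>
    ⟨(((h y hy).2 t ht).1 1 ⟨zero_le_one, le_rfl⟩).1,
      hasFDerivAt_of_restrictScalars ℝ ((h y hy).2 t ht).2 rfl⟩⟩⟩
  rintro ⟨y, t⟩ ⟨hy, ht⟩
  have h1 : DifferentiableAt ℂ (fun x => P (1, x)) (t, y) := by
    refine flow2_hol hZ hP hP0 hd fun s hs' => ?_
    obtain ⟨a1, a2⟩ := ((h y hy).2 t ht).1 s hs'
    refine DifferentiableAt.congr_of_eventuallyEq ?_ a2
    have a3 : DifferentiableAt ℂ (fun p : E n × F => V p.2) (P (s, (t, y))) :=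
      DifferentiableAt.comp (P (s, (t, y))) (f := fun p : E n × F => p.2)
        (hV.differentiableAt (hΩ.mem_nhds a1)) differentiableAt_snd
    exact (differentiableAt_const (0 : E n)).prodMk (a3.clm_apply differentiableAt_fst)
  have h2 : DifferentiableAt ℂ (fun w : F × E n => P (1, (w.2, w.1))) (y, t) :=
    DifferentiableAt.comp (y, t) (f := fun w : F × E n => (w.2, w.1)) (g := fun x => P (1, x)) h1
      (differentiableAt_snd.prodMk differentiableAt_fst)
  exact h2.snd.differentiableWithinAt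

end Pool.Agent.SPF
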