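import Pool.Agent.P.MP_63735c_ag.SPSm
import Pool.Agent.Lib.Flow.Tools

/-! Integrable holomorphic systems: local solutions with a uniform radius, and uniqueness. -/

open Set Filter Topology
open scoped ComplexOrder ContDiff Matrix

namespace Pool.Agent.SPF

theorem flow_smooth {A B : Type} [NormedAddCommGroup A] [NormedSpace ℂ A] [FiniteDimensional ℂ A]
    [NormedAddCommGroup B] [NormedSpace ℂ B] [FiniteDimensional ℂ B] {Ω : Set A} (hΩ : IsOpen Ω)
    {W : A → B} (hW : DifferentiableOn ℂ W Ω) : ContDiffOn ℂ ∞ W Ω := by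
  let e : B ≃L[ℂ] (Fin (Module.finrank ℂ B) → ℂ) :=
    (Module.finBasis ℂ B).equivFun.toContinuousLinearEquiv
  have h1 : ContDiffOn ℂ ∞ (fun y => e (W y)) Ω := by
    rw [contDiffOn_pi]
    intro i
    exact Lib.SCV.contDiffOn_of_differentiableOn hΩ
      (differentiableOn_pi.1 (e.differentiable.comp_differentiableOn hW) i)
  have h2 := e.symm.contDiff.comp_contDiffOn h1
  exact h2.congr fun y _ => by simp

section real

variable {T G : Type} [NormedAddCommGroup T] [NormedSpace ℝ T] [FiniteDimensional ℝ T]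
  [NormedAddCommGroup G] [NormedSpace ℝ G] [FiniteDimensional ℝ G]

omit [FiniteDimensional ℝ T] [FiniteDimensional ℝ G] in
/-- the radial solution has the right derivative -/
theorem flow_deriv {Ω : Set G} {V : G → T →L[ℝ] G} (hV : ∀ y ∈ Ω, ContDiffAt ℝ 1 V y)
    (hs : ∀ y ∈ Ω, ∀ s t, fderiv ℝ V y (V y s) t = fderiv ℝ V y (V y t) s)
    {Z : T × G → T × G} {Q : ℝ × T → T × G} (hQ : ContDiff ℝ 2 Q) {y : G}
    (h0 : ∀ t, Q (0, t) = (t, y)) (h1 : ∀ w, (Q w).1 = w.2)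
    (hd : ∀ s t, HasDerivAt (fun s => Q (s, t)) (Z (Q (s, t))) s) {t : T}
    (hZ : ∀ s ∈ Icc (0 : ℝ) 1, (Q (s, t)).2 ∈ Ω ∧
      Z =ᶠ[𝓝 (Q (s, t))] fun p => (0, V p.2 p.1)) :
    HasFDerivAt (fun t => (Q (1, t)).2) (V (Q (1, t)).2) t := by
  have hQd : Differentiable ℝ Q := hQ.differentiable (by norm_num)
  have hsl : ∀ s, HasFDerivAt (fun t => Q (s, t))
      ((fderiv ℝ Q (s, t)).comp (ContinuousLinearMap.inr ℝ ℝ T)) t := fun s =>
    (hQd (s, t)).hasFDerivAt.comp t (hasFDerivAt_prodMk_right s t)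
  set γ : ℝ → G := fun s => (Q (s, t)).2 with hγ
  have hγc : Continuous γ := (hQ.continuous.comp (by fun_prop)).snd
  have hVd : ∀ s ∈ Icc (0 : ℝ) 1, HasFDerivAt V (fderiv ℝ V (γ s)) (γ s) := fun s hs' =>
    ((hV _ (hZ s hs').1).differentiableAt one_ne_zero).hasFDerivAt
  have hγd : ∀ s ∈ Icc (0 : ℝ) 1, HasDerivAt γ (V (γ s) t) s := by
    intro s hs'
    have := (ContinuousLinearMap.snd ℝ T G).hasFDerivAt.comp_hasDerivAt s (hd s t)
    rw [(hZ s hs').2.eq_of_nhds] at this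
    simpa [h1, hγ, Function.comp_def] using this
  have hcont : ContinuousOn (fun s => fderiv ℝ V (γ s)) (Icc (0 : ℝ) 1) := fun s hs' =>
    (ContinuousAt.comp (f := γ) ((hV _ (hZ s hs').1).continuousAt_fderiv one_ne_zero)
      hγc.continuousAt).continuousWithinAt
  obtain ⟨C, hC⟩ := isCompact_Icc.exists_bound_of_continuousOn (E := G →L[ℝ] T →L[ℝ] G) hcont
  have key : ∀ ξ : T, (fderiv ℝ Q (1, t) (0, ξ)).2 = V (γ 1) ξ := by
    intro ξ
    have hfst : ∀ s, (fderiv ℝ Q (s, t) (0, ξ)).1 = ξ := by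
      intro s
      have a1 := (ContinuousLinearMap.fst ℝ T G).hasFDerivAt.comp t (hsl s)
      have a2 : HasFDerivAt ((ContinuousLinearMap.fst ℝ T G) ∘ fun t => Q (s, t))
          (ContinuousLinearMap.id ℝ T) t := by
        have : ((ContinuousLinearMap.fst ℝ T G) ∘ fun t => Q (s, t)) = id := by
          funext u; simp [h1]
        rw [this]; exact hasFDerivAt_id t
      simpa using congrArg (fun L : T →L[ℝ] T => L ξ) (a1.unique a2)
    let w : ℝ → G := fun s => (fderiv ℝ Q (s, t) (0, ξ)).2 - s • V (γ s) ξ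
    have hw : ∀ s ∈ Icc (0 : ℝ) 1, HasDerivAt w (fderiv ℝ V (γ s) (w s) t) s := by
      intro s hs'
      have b1 : HasFDerivAt (fun p : T × G => V p.2)
          ((fderiv ℝ V (γ s)).comp (ContinuousLinearMap.snd ℝ T G)) (Q (s, t)) :=
        HasFDerivAt.comp (Q (s, t)) (f := fun p : T × G => p.2) (hVd s hs') hasFDerivAt_snd
      have b2 := (hasFDerivAt_const (0 : T) (Q (s, t))).prodMk (b1.clm_apply hasFDerivAt_fst)
      have b3 := b2.congr_of_eventuallyEq (hZ s hs').2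
      have b4 := Lib.Flow.variation (P := Q) (v := Z) (t := s) (x := t) hQ.contDiffAt
        b3.differentiableAt (Eventually.of_forall fun u => hd u.1 u.2) (0, ξ)
      rw [b3.fderiv] at b4
      have b5 := (ContinuousLinearMap.snd ℝ T G).hasFDerivAt.comp_hasDerivAt s b4
      have b6 := (((hVd s hs').comp_hasDerivAt s (hγd s hs')).clm_apply
        (hasDerivAt_const s ξ))
      have b7 := b5.sub ((hasDerivAt_id s).smul b6)
      refine b7.congr_deriv ?_
      have e1 := hs _ (hZ s hs').1 t ξ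
      simp only [w, map_sub, map_smul, sub_apply,
        smul_apply]
      simp [h1, hfst, hγ] at e1 ⊢
      rw [e1]
      abel
    have hw0 : w 0 = 0 := by
      have a1 := hsl 0
      have a2 : HasFDerivAt (fun t => Q (0, t)) (ContinuousLinearMap.inl ℝ T G) t := by
        simp only [h0]; exact hasFDerivAt_prodMk_left t y
      have := congrArg (fun L : T →L[ℝ] T × G => (L ξ).2) (a1.unique a2)
      simpa [w] using this
    have hz := eq_zero_of_abs_deriv_le_mul_abs_self_of_eq_zero_right (K := C * ‖t‖)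
      (fun s hs' => (hw s hs').continuousAt.continuousWithinAt)
      (fun s hs' => (hw s (Ico_subset_Icc_self hs')).hasDerivWithinAt) hw0
      (fun s hs' => by
        have c1 := hC s (Ico_subset_Icc_self hs')
        calc ‖fderiv ℝ V (γ s) (w s) t‖ ≤ ‖fderiv ℝ V (γ s)‖ * ‖w s‖ * ‖t‖ :=
              (fderiv ℝ V (γ s)).le_opNorm₂ _ _
          _ ≤ C * ‖w s‖ * ‖t‖ := by gcongr
          _ = C * ‖t‖ * ‖w s‖ := by ring) 1 ⟨zero_le_one, le_rfl⟩
    simpa [w, sub_eq_zero] using hz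
  have := (ContinuousLinearMap.snd ℝ T G).hasFDerivAt.comp t (hsl 1)
  refine this.congr_fderiv ?_
  ext ξ
  simpa using key ξ

theorem flow_local {Ω : Set G} (hΩ : IsOpen Ω) {V : G → T →L[ℝ] G}
    (hV : ∀ y ∈ Ω, ContDiffAt ℝ 2 V y)
    (hs : ∀ y ∈ Ω, ∀ s t, fderiv ℝ V y (V y s) t = fderiv ℝ V y (V y t) s) {a : G} (ha : a ∈ Ω) :
    ∃ r > 0, ∃ δ > 0, ∀ y ∈ Metric.ball a r, ∃ f : T → G, f 0 = y ∧
      ∀ t ∈ Metric.ball (0 : T) δ, f t ∈ Ω ∧ HasFDerivAt f (V (f t)) t := by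
  have : CompleteSpace (T × G) := FiniteDimensional.complete ℝ _
  obtain ⟨ρ0, hρ0, hb⟩ := Metric.isOpen_iff.1 hΩ a ha
  set ρ := ρ0 / 4 with hρ
  have hρ' : 0 < ρ := by positivity
  have hsub : ∀ p ∈ Metric.closedBall ((0 : T), a) (3 * ρ), p.2 ∈ Ω := by
    intro p hp
    rw [← closedBall_prod_same] at hp
    exact hb (Metric.closedBall_subset_ball (by rw [hρ]; linarith) hp.2)
  let b : ContDiffBump ((0 : T), a) := ⟨2 * ρ, 3 * ρ, by positivity, by linarith⟩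
  let Z : T × G → T × G := fun p => b p • ((0 : T), V p.2 p.1)
  have hZ : ContDiff ℝ (2 : ℕ∞) Z := by
    rw [contDiff_iff_contDiffAt]
    intro p
    by_cases hp : p.2 ∈ Ω
    · exact b.contDiff.contDiffAt.smul (contDiffAt_const.prodMk
        ((ContDiffAt.comp p (f := fun p : T × G => p.2) (hV _ hp) contDiffAt_snd).clm_apply
          contDiffAt_fst))
    · have h1 : p ∉ tsupport b := by
        rw [b.tsupport_eq]; exact fun h => hp (hsub p h)
      refine (contDiffAt_const (c := (0 : T × G))).congr_of_eventuallyEq ?_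
      filter_upwards [notMem_tsupport_iff_eventuallyEq.1 h1] with z hz
      simp only [Z, hz, Pi.zero_apply, zero_smul]
  have hc : HasCompactSupport Z := by
    refine HasCompactSupport.intro (isCompact_closedBall ((0 : T), a) (3 * ρ)) fun y hy => ?_
    rw [Metric.mem_closedBall, not_le] at hy
    simp only [Z, b.zero_of_le_dist hy.le, zero_smul]
  obtain ⟨P, hP, h0, hd, -⟩ :=
    Lib.Flow.exists_flow_of_hasCompactSupport (n := 2) (by simp) Z hZ hc
  have hfix : ∀ s y, P (s, (0, y)) = (0, y) := by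
    intro s y
    have := Lib.Flow.curve_const (v := Z) (c := fun s => P (s, (0, y))) (t₀ := 0)
      (hZ.contDiffAt.of_le (by norm_num)) (fun s => hd s _) (by simp [h0, Z]) s
    simpa [h0] using this
  have hfst : ∀ s p, (P (s, p)).1 = p.1 := by
    intro s p
    have hh : ∀ s, HasDerivAt (fun s => (P (s, p)).1) 0 s := fun s => by
      have := (ContinuousLinearMap.fst ℝ T G).hasFDerivAt.comp_hasDerivAt s (hd s p)
      simpa [Z, Function.comp_def] using this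
    have := is_const_of_deriv_eq_zero (fun s => (hh s).differentiableAt) (fun s => (hh s).deriv) s 0
    simpa [h0] using this
  have key : ∀ᶠ t in 𝓝 (0 : T), ∀ q ∈ Icc (0 : ℝ) 1 ×ˢ Metric.closedBall a ρ,
      P (q.1, (t, q.2)) ∈ Metric.ball ((0 : T), a) (2 * ρ) := by
    refine (isCompact_Icc.prod (isCompact_closedBall a ρ)).eventually_forall_of_forall_eventually
      fun q hq => ?_
    have hcn : Continuous fun z : T × ℝ × G => P (z.2.1, (z.1, z.2.2)) :=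
      hP.continuous.comp (by fun_prop)
    refine hcn.continuousAt.eventually_mem (Metric.isOpen_ball.mem_nhds ?_)
    simp only [hfix, ← ball_prod_same]
    exact ⟨Metric.mem_ball_self (by linarith), Metric.closedBall_subset_ball (by linarith) hq.2⟩
  obtain ⟨δ, hδ, hk⟩ := Metric.eventually_nhds_iff.1 key
  refine ⟨ρ, hρ', δ, hδ, fun y hy => ⟨fun t => (P (1, (t, y))).2, by simp [hfix], fun t ht => ?_⟩⟩
  have hm : ∀ s ∈ Icc (0 : ℝ) 1, P (s, (t, y)) ∈ Metric.ball ((0 : T), a) (2 * ρ) := fun s hs' =>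
    hk (y := t) ht (s, y) ⟨hs', Metric.ball_subset_closedBall hy⟩
  have hΩ' : ∀ s ∈ Icc (0 : ℝ) 1, (P (s, (t, y))).2 ∈ Ω := fun s hs' =>
    hsub _ (Metric.ball_subset_closedBall (Metric.ball_subset_ball (by linarith) (hm s hs')))
  refine ⟨hΩ' 1 ⟨zero_le_one, le_rfl⟩, ?_⟩
  refine flow_deriv (Z := Z) (Q := fun w => P (w.1, (w.2, y))) (y := y)
    (fun y hy => (hV y hy).of_le (by norm_num)) hs (hP.comp (by fun_prop)) (fun t => h0 _)
    (fun w => hfst _ _) (fun s t => hd s (t, y)) (fun s hs' => ⟨hΩ' s hs', ?_⟩)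
  filter_upwards [Metric.isOpen_ball.mem_nhds (hm s hs')] with p hp
  simp only [Z, b.one_of_mem_closedBall (Metric.ball_subset_closedBall hp), one_smul]

end real

variable {n : ℕ} {F : Type} [NormedAddCommGroup F] [NormedSpace ℂ F] [FiniteDimensional ℂ F]

theorem frob_exists {Ω : Set F} (hΩ : IsOpen Ω) {V : F → E n →L[ℂ] F}
    (hV : DifferentiableOn ℂ V Ω)
    (hs : ∀ y ∈ Ω, ∀ s t, fderiv ℂ V y (V y s) t = fderiv ℂ V y (V y t) s)
    {K : Set F} (hK : IsCompact K) (hKΩ : K ⊆ Ω) :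
    ∃ δ : ℝ, 0 < δ ∧ ∀ y ∈ K, ∀ t₀ : E n, ∃ f : E n → F, f t₀ = y ∧
      ∀ t ∈ Metric.ball t₀ δ, f t ∈ Ω ∧ HasFDerivAt f (V (f t)) t := by
  let R : (E n →L[ℂ] F) →L[ℝ] E n →L[ℝ] F := ContinuousLinearMap.restrictScalarsL ℂ (E n) F ℝ ℝ
  have hsm : ∀ y ∈ Ω, ContDiffAt ℝ 2 (fun y => R (V y)) y := fun y hy =>
    R.contDiff.contDiffAt.comp y
      ((((flow_smooth hΩ hV).contDiffAt (hΩ.mem_nhds hy)).restrict_scalars ℝ).of_le
        (WithTop.coe_le_coe.2 (le_top : (2 : ℕ∞) ≤ ⊤)))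
  have hfd : ∀ y ∈ Ω, ∀ u t, fderiv ℝ (fun y => R (V y)) y u t = fderiv ℂ V y u t := by
    intro y hy u t
    have := R.hasFDerivAt.comp y
      ((hV.differentiableAt (hΩ.mem_nhds hy)).hasFDerivAt.restrictScalars ℝ)
    rw [show (fun y => R (V y)) = R ∘ V from rfl, this.fderiv]
    rfl
  have main : ∃ δ : ℝ, 0 < δ ∧ ∀ y ∈ K, ∃ f : E n → F, f 0 = y ∧
      ∀ t ∈ Metric.ball (0 : E n) δ, f t ∈ Ω ∧ HasFDerivAt f (V (f t)) t := by
    refine hK.induction_on (p := fun S => ∃ δ : ℝ, 0 < δ ∧ ∀ y ∈ S, ∃ f : E n → F, f 0 = y ∧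
      ∀ t ∈ Metric.ball (0 : E n) δ, f t ∈ Ω ∧ HasFDerivAt f (V (f t)) t)
      ⟨1, one_pos, by simp⟩ (fun s t hst ⟨δ, hδ, h⟩ => ⟨δ, hδ, fun y hy => h y (hst hy)⟩) ?_ ?_
    · rintro s t ⟨δ, hδ, h⟩ ⟨ε, hε, h'⟩
      refine ⟨min δ ε, lt_min hδ hε, ?_⟩
      rintro y (hy | hy)
      · obtain ⟨f, f0, hf⟩ := h y hy
        exact ⟨f, f0, fun t ht => hf t (Metric.ball_subset_ball (min_le_left _ _) ht)⟩
      · obtain ⟨f, f0, hf⟩ := h' y hy
        exact ⟨f, f0, fun t ht => hf t (Metric.ball_subset_ball (min_le_right _ _) ht)⟩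
    · intro a ha
      obtain ⟨r, hr, δ, hδ, h⟩ := flow_local hΩ hsm (fun y hy s t => by
        rw [hfd y hy, hfd y hy]; exact hs y hy s t) (hKΩ ha)
      refine ⟨Metric.ball a r, mem_nhdsWithin_of_mem_nhds (Metric.ball_mem_nhds a hr), δ, hδ,
        fun y hy => ?_⟩
      obtain ⟨f, f0, hf⟩ := h y hy
      exact ⟨f, f0, fun t ht => ⟨(hf t ht).1, hasFDerivAt_of_restrictScalars ℝ (hf t ht).2 rfl⟩⟩
  obtain ⟨δ, hδ, h⟩ := main
  refine ⟨δ, hδ, fun y hy t₀ => ?_⟩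
  obtain ⟨f, f0, hf⟩ := h y hy
  refine ⟨fun t => f (t - t₀), by simp [f0], fun t ht => ?_⟩
  have ht' : t - t₀ ∈ Metric.ball (0 : E n) δ := by simpa [dist_eq_norm] using ht
  refine ⟨(hf _ ht').1, ?_⟩
  have := HasFDerivAt.comp t (f := fun t => t - t₀) (hf _ ht').2 ((hasFDerivAt_id t).sub_const t₀)
  simpa [Function.comp_def] using this

theorem frob_unique {Ω : Set F} (hΩ : IsOpen Ω) {V : F → E n →L[ℂ] F}
    (hV : DifferentiableOn ℂ V Ω) {f₁ f₂ : E n → F} {t₀ : E n} (h0 : f₁ t₀ = f₂ t₀)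
    (hm : f₁ t₀ ∈ Ω) (h₁ : ∀ᶠ t in 𝓝 t₀, HasFDerivAt f₁ (V (f₁ t)) t)
    (h₂ : ∀ᶠ t in 𝓝 t₀, HasFDerivAt f₂ (V (f₂ t)) t) : f₁ =ᶠ[𝓝 t₀] f₂ := by
  obtain ⟨L, S, hS, hL⟩ := (((flow_smooth hΩ hV).contDiffAt (hΩ.mem_nhds hm)).of_le
    (by exact_mod_cast le_top : (1 : ℕ∞ω) ≤ ∞)).exists_lipschitzOnWith
  have m1 : ∀ᶠ t in 𝓝 t₀, f₁ t ∈ S := h₁.self_of_nhds.continuousAt.eventually_mem hS
  have m2 : ∀ᶠ t in 𝓝 t₀, f₂ t ∈ S :=
    h₂.self_of_nhds.continuousAt.eventually_mem (h0 ▸ hS)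
  obtain ⟨ε, hε, hb⟩ := Metric.eventually_nhds_iff_ball.1 ((h₁.and h₂).and (m1.and m2))
  filter_upwards [Metric.ball_mem_nhds t₀ hε] with t ht
  set v := t - t₀ with hv
  have hin : ∀ s ∈ Icc (0 : ℝ) 1, t₀ + s • v ∈ Metric.ball t₀ ε := fun s hs =>
    (convex_ball t₀ ε).add_smul_sub_mem (Metric.mem_ball_self hε) ht hs
  have hline : ∀ s : ℝ, HasDerivAt (fun s : ℝ => t₀ + s • v) v s := fun s => by
    simpa using ((hasDerivAt_id s).smul_const v).const_add t₀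
  have hd : ∀ {f : E n → F} {s : ℝ}, HasFDerivAt f (V (f (t₀ + s • v))) (t₀ + s • v) →
      HasDerivAt (fun s : ℝ => f (t₀ + s • v)) (V (f (t₀ + s • v)) v) s := fun {f s} h =>
    HasFDerivAt.comp_hasDerivAt s (f := fun s : ℝ => t₀ + s • v) (h.restrictScalars ℝ) (hline s)
  have hLip : LipschitzOnWith (‖ContinuousLinearMap.apply ℂ F v‖₊ * L) (fun y => V y v) S :=
    (ContinuousLinearMap.apply ℂ F v).lipschitz.comp_lipschitzOnWith hL
  have := ODE_solution_unique_of_mem_Icc_right (v := fun _ y => V y v) (s := fun _ => S)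
    (a := 0) (b := 1) (f := fun s : ℝ => f₁ (t₀ + s • v)) (g := fun s : ℝ => f₂ (t₀ + s • v))
    (fun _ _ => hLip)
    (fun s hs => (hd (hb _ (hin s hs)).1.1).continuousAt.continuousWithinAt)
    (fun s hs => (hd (hb _ (hin s (Ico_subset_Icc_self hs))).1.1).hasDerivWithinAt)
    (fun s hs => (hb _ (hin s (Ico_subset_Icc_self hs))).2.1)
    (fun s hs => (hd (hb _ (hin s hs)).1.2).continuousAt.continuousWithinAt)
    (fun s hs => (hd (hb _ (hin s (Ico_subset_Icc_self hs))).1.2).hasDerivWithinAt)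
    (fun s hs => (hb _ (hin s (Ico_subset_Icc_self hs))).2.2) (by simpa using h0)
    (⟨zero_le_one, le_rfl⟩ : (1 : ℝ) ∈ Icc (0 : ℝ) 1)
  simpa [hv] using this

end Pool.Agent.SPF
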