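import Pool.Agent.P.MP_63735c_ag.SELine

/-! Cohomological hypotheses on a compact holomorphic symplectic manifold. -/

open scoped ContDiff Matrix

namespace Pool.Agent.BP

open Pool.Agent.SPF

variable {N : ℕ} {X : Type} [TopologicalSpace X]

/-- `f` is holomorphic on `U`. -/
def HolOn (A : Atlas X N) (U : Set X) (f : X → ℂ) : Prop :=
  ∀ i, DifferentiableOn ℂ (fun z => f (A.p i z)) ((A.C i).W ∩ A.p i ⁻¹' U)

/-- Every holomorphic Cech 1-cocycle on every open cover splits. -/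
def H1 (A : Atlas X N) : Prop :=
  ∀ (κ : Type) (U : κ → Set X) (c : κ → κ → X → ℂ), (∀ a, IsOpen (U a)) → (∀ x, ∃ a, x ∈ U a) →
    (∀ a b, HolOn A (U a ∩ U b) (c a b)) →
    (∀ a b d, ∀ x ∈ U a ∩ U b ∩ U d, c a b x + c b d x = c a d x) →
    ∃ k : κ → X → ℂ, (∀ a, HolOn A (U a) (k a)) ∧ ∀ a b, ∀ x ∈ U a ∩ U b, c a b x = k a x - k b x

/-- `γ` is a smooth (2,0)-form `1/2 ∑ γ_ab dz_a dz_b`. -/
def Is20 (A : Atlas X N) (γ : A.ι → E N → Matrix (Fin N) (Fin N) ℂ) : Prop :=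
  (∀ i a b, ContDiffOn ℝ ∞ (fun z => γ i z a b) (A.C i).W) ∧
    (∀ i, ∀ z ∈ (A.C i).W, (γ i z)ᵀ = -γ i z) ∧
    ∀ i j O φ, IsChange (A.C i) (A.C j) O φ → (∀ w ∈ O, A.p j (φ w) = A.p i w) →
      ∀ z ∈ O, γ i z = (jac φ z)ᵀ * γ j (φ z) * jac φ z

/-- `β` is a smooth (1,0)-form `∑ β_a dz_a`. -/
def Is10 (A : Atlas X N) (β : A.ι → E N → E N) : Prop :=
  (∀ i, ContDiffOn ℝ ∞ (β i) (A.C i).W) ∧
    ∀ i j O φ, IsChange (A.C i) (A.C j) O φ → (∀ w ∈ O, A.p j (φ w) = A.p i w) →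
      ∀ z ∈ O, β i z = β j (φ z) ᵥ* jac φ z

/-- Holomorphic 2-forms are multiples of `σ`. -/
def H20 (A : Atlas X N) : Prop :=
  ∀ γ, Is20 A γ → (∀ i a b, DifferentiableOn ℂ (fun z => γ i z a b) (A.C i).W) →
    ∃ c : ℂ, ∀ i, ∀ z ∈ (A.C i).W, γ i z = c • (A.C i).σ z

/-- A smooth (2,0)-form that is closed for `∂` is `c σ + ∂ β`. -/
def H02 (A : Atlas X N) : Prop :=
  ∀ γ, Is20 A γ → (∀ i, ∀ z ∈ (A.C i).W, ∀ a b c, dz a (fun w => γ i w b c) z +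
      dz b (fun w => γ i w c a) z + dz c (fun w => γ i w a b) z = 0) →
    ∃ (c : ℂ) (β : A.ι → E N → E N), Is10 A β ∧ ∀ i, ∀ z ∈ (A.C i).W, ∀ a b,
      γ i z a b = c * (A.C i).σ z a b + dz a (fun w => β i w b) z - dz b (fun w => β i w a) z

end Pool.Agent.BP
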