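import Pool.Agent.P.MP_63735c_ag.ABDefs

/-! Hermitian forms. -/

open scoped ComplexOrder ContDiff Matrix Topology ENNReal
open Set Metric MeasureTheory Filter

namespace Pool.Agent.AB

open Pool.Agent.SPF

variable {N M : ℕ}

theorem hq_add_left (h : Mat N) (u u' v : E N) : hq h (u + u') v = hq h u v + hq h u' v := by
  rw [hq, hq, hq, add_dotProduct]

theorem hq_add_right (h : Mat N) (u v v' : E N) : hq h u (v + v') = hq h u v + hq h u v' := by
  rw [hq, hq, hq, star_add, Matrix.mulVec_add, dotProduct_add]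

theorem hq_smul_left (h : Mat N) (c : ℂ) (u v : E N) : hq h (c • u) v = c * hq h u v := by
  rw [hq, hq, smul_dotProduct, smul_eq_mul]

theorem hq_smul_right (h : Mat N) (c : ℂ) (u v : E N) : hq h u (c • v) = star c * hq h u v := by
  rw [hq, hq, star_smul, Matrix.mulVec_smul, dotProduct_smul, smul_eq_mul]

theorem hq_zero_left (h : Mat N) (v : E N) : hq h 0 v = 0 := by
  rw [hq, zero_dotProduct]

theorem hq_zero_right (h : Mat N) (u : E N) : hq h u 0 = 0 := by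
  rw [hq, star_zero, Matrix.mulVec_zero, dotProduct_zero]

theorem hq_add (h h' : Mat N) (u v : E N) : hq (h + h') u v = hq h u v + hq h' u v := by
  rw [hq, hq, hq, Matrix.add_mulVec, dotProduct_add]

theorem hq_smul (c : ℂ) (h : Mat N) (u v : E N) : hq (c • h) u v = c * hq h u v := by
  rw [hq, hq, Matrix.smul_mulVec, dotProduct_smul, smul_eq_mul]

theorem hq_zero (u v : E N) : hq (0 : Mat N) u v = 0 := by
  rw [hq, Matrix.zero_mulVec, dotProduct_zero]

theorem hq_sum_eq (h : Mat N) (u v : E N) : hq h u v = ∑ a, ∑ b, u a * h a b * star (v b) := by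
  simp only [hq, dotProduct, Matrix.mulVec, Finset.mul_sum, mul_assoc, Pi.star_apply]

theorem hq_conj (J : Matrix (Fin M) (Fin N) ℂ) (h : Mat M) (u v : E N) :
    hq (Jᵀ * h * J.map star) u v = hq h (J *ᵥ u) (J *ᵥ v) := by
  have h1 : J.map star *ᵥ star v = star (J *ᵥ v) := by
    rw [Matrix.star_mulVec, ← Matrix.mulVec_transpose]
    rfl
  rw [hq, hq, ← Matrix.mulVec_mulVec, ← Matrix.mulVec_mulVec, h1, Matrix.dotProduct_mulVec,
    Matrix.vecMul_transpose]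

theorem hq_herm {h : Mat N} (hh : h.IsHermitian) (u v : E N) : star (hq h u v) = hq h v u := by
  rw [hq_sum_eq, hq_sum_eq, star_sum, Finset.sum_comm]
  refine Finset.sum_congr rfl fun a _ => ?_
  rw [star_sum]
  refine Finset.sum_congr rfl fun b _ => ?_
  rw [star_mul', star_mul', star_star, hh.apply]
  ring

theorem hq_nonneg {h : Mat N} (hh : h.PosSemidef) (u : E N) : 0 ≤ (hq h u u).re := by
  have h1 := hh.dotProduct_mulVec_nonneg (star u)
  rw [star_star] at h1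
  exact (Complex.nonneg_iff.1 h1).1

theorem hq_pos {h : Mat N} (hh : h.PosDef) {u : E N} (hu : u ≠ 0) : 0 < (hq h u u).re := by
  have h1 := hh.dotProduct_mulVec_pos (x := star u) (star_ne_zero.2 hu)
  rw [star_star] at h1
  exact (Complex.pos_iff.1 h1).1

theorem hq_null {h : Mat N} (hh : h.PosSemidef) {u : E N} (hu : (hq h u u).re = 0) :
    u ᵥ* h = 0 := by
  have h1 := hh.dotProduct_mulVec_nonneg (star u)
  have h2 := (hh.dotProduct_mulVec_zero_iff (star u)).1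
  rw [star_star] at h1 h2
  have h3 := congrArg star (h2 (Complex.ext hu (Complex.nonneg_iff.1 h1).2.symm))
  rwa [Matrix.star_mulVec, star_star, hh.1.eq, star_zero] at h3

theorem posDef_of_hq {h : Mat N} (hh : h.IsHermitian) (hp : ∀ u, u ≠ 0 → 0 < (hq h u u).re) :
    h.PosDef := by
  refine Matrix.PosDef.of_dotProduct_mulVec_pos hh fun x hx => ?_
  have h1 := hp (star x) (star_ne_zero.2 hx)
  have h2 := Complex.conj_eq_iff_im.1 (hq_herm hh (star x) (star x))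
  rw [hq, star_star] at h1 h2
  exact Complex.pos_iff.2 ⟨h1, h2.symm⟩

theorem hq_dual {K : Mat N} (hK : K.PosDef) (v β : E N) : hq K v (β ᵥ* K⁻¹) = v ⬝ᵥ star β := by
  rw [hq, Matrix.star_vecMul, hK.inv.1.eq, Matrix.mulVec_mulVec,
    Matrix.mul_nonsing_inv _ ((Matrix.isUnit_iff_isUnit_det K).1 hK.isUnit), Matrix.one_mulVec]

/-- The dual field is compatible with a change of coordinates. -/
theorem dual_conj {K K' J : Mat N} (hK : K.PosDef) (hK' : K'.PosDef)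
    (h : K = Jᵀ * K' * J.map star) (β : E N) :
    J *ᵥ ((β ᵥ* J.map star) ᵥ* K⁻¹) = β ᵥ* K'⁻¹ := by
  have h1 := (Matrix.isUnit_iff_isUnit_det K).1 hK.isUnit
  rw [h, Matrix.det_mul, Matrix.det_mul] at h1
  have h2 := isUnit_of_mul_isUnit_right h1
  have h3 := isUnit_of_mul_isUnit_left (isUnit_of_mul_isUnit_left h1)
  rw [← Matrix.vecMul_transpose, Matrix.vecMul_vecMul, Matrix.vecMul_vecMul, h, Matrix.mul_inv_rev,
    Matrix.mul_inv_rev, Matrix.mul_assoc, Matrix.mul_assoc, Matrix.nonsing_inv_mul _ h3,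
    Matrix.mul_one, Matrix.mul_nonsing_inv_cancel_left _ _ h2]

theorem dot_norm_le (u v : E N) : ‖u ⬝ᵥ v‖ ≤ N * ‖u‖ * ‖v‖ := by
  refine (norm_sum_le_of_le Finset.univ (n := fun _ => ‖u‖ * ‖v‖) fun i _ => ?_).trans ?_
  · rw [norm_mul]
    exact mul_le_mul (norm_le_pi_norm u i) (norm_le_pi_norm v i) (norm_nonneg _) (norm_nonneg _)
  · rw [Finset.sum_const, Finset.card_univ, Fintype.card_fin, nsmul_eq_mul, mul_assoc]

open scoped MatrixOrder in
theorem abalg_trace {P Q : Mat N} (hP : P.PosSemidef) (hQ : Q.PosSemidef) : 0 ≤ (P * Q).trace := by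
  obtain ⟨B, rfl⟩ := CStarAlgebra.nonneg_iff_eq_star_mul_self.mp hP.nonneg
  rw [Matrix.mul_assoc, Matrix.trace_mul_comm]
  exact (hQ.mul_mul_conjTranspose_same B).trace_nonneg

/-- The trace term is nonnegative when `Kᵀ * T` is symmetric. -/
theorem tr_nonneg {K T : Mat N} (hK : K.PosDef) (hs : (Kᵀ * T)ᵀ = Kᵀ * T) :
    0 ≤ (∑ j, ∑ k, T j k * star (T k j)).re := by
  have hP := hK.transpose.inv
  have h1 : T = (Kᵀ)⁻¹ * (Kᵀ * T) := (Matrix.nonsing_inv_mul_cancel_left _ _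
    ((Matrix.isUnit_iff_isUnit_det _).1 hK.transpose.isUnit)).symm
  generalize Kᵀ * T = S at hs h1
  generalize (Kᵀ)⁻¹ = P at hP h1
  have h2 : ∑ j, ∑ k, T j k * star (T k j) = (T * (Tᵀ)ᴴ).trace := rfl
  have h3 := abalg_trace hP.posSemidef (hP.transpose.posSemidef.mul_mul_conjTranspose_same S)
  rw [h2, h1, Matrix.transpose_mul, hs, Matrix.conjTranspose_mul, hP.transpose.1.eq,
    Matrix.mul_assoc, ← Matrix.mul_assoc S]
  exact (Complex.nonneg_iff.1 h3).1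

section
variable {Z : Type} [TopologicalSpace Z] {C : Set Z} {h : Z → Mat N}

theorem cpt_upper (hC : IsCompact C) (hc : ∀ a b, ContinuousOn (fun z => h z a b) C) :
    ∃ B : ℝ, 0 < B ∧ ∀ z ∈ C, ∀ u v, ‖hq (h z) u v‖ ≤ B * ‖u‖ * ‖v‖ ∧ ‖u ᵥ* h z‖ ≤ B * ‖u‖ := by
  obtain ⟨B, hB⟩ := hC.exists_bound_of_continuousOn
    (f := fun z => (fun b a => h z a b : Fin N → Fin N → ℂ))
    (continuousOn_pi.2 fun b => continuousOn_pi.2 fun a => hc a b)
  have hN : (0 : ℝ) ≤ N := Nat.cast_nonneg N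
  refine ⟨(N + 1) * ((N + 1) * (|B| + 1)), by positivity, fun z hz u v => ?_⟩
  have h1 : ‖u ᵥ* h z‖ ≤ (N + 1) * (|B| + 1) * ‖u‖ := by
    refine (pi_norm_le_iff_of_nonneg (by positivity)).2 fun b => ?_
    have h2 : ‖fun a => h z a b‖ ≤ |B| + 1 :=
      (norm_le_pi_norm _ b).trans ((hB z hz).trans (by linarith [le_abs_self B]))
    calc ‖(u ᵥ* h z) b‖ ≤ N * ‖u‖ * ‖fun a => h z a b‖ := dot_norm_le u _
      _ ≤ (N + 1) * ‖u‖ * (|B| + 1) := by gcongr; linarith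
      _ = _ := by ring
  constructor
  · rw [hq, Matrix.dotProduct_mulVec]
    calc _ ≤ N * ‖u ᵥ* h z‖ * ‖star v‖ := dot_norm_le _ _
      _ ≤ (N + 1) * ((N + 1) * (|B| + 1) * ‖u‖) * ‖v‖ := by
        rw [norm_star]
        gcongr
        linarith
      _ = _ := by ring
  · refine h1.trans (mul_le_mul_of_nonneg_right ?_ (norm_nonneg _))
    exact le_mul_of_one_le_left (by positivity) (by linarith)

theorem cpt_lower (hC : IsCompact C) (hc : ∀ a b, ContinuousOn (fun z => h z a b) C)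
    (hp : ∀ z ∈ C, ∀ u, u ≠ 0 → 0 < (hq (h z) u u).re) :
    ∃ c : ℝ, 0 < c ∧ ∀ z ∈ C, ∀ u, c * ‖u‖ ^ 2 ≤ (hq (h z) u u).re := by
  have hf : ContinuousOn (fun p : Z × E N => (hq (h p.1) p.2 p.2).re) (C ×ˢ sphere 0 1) := by
    simp only [hq_sum_eq]
    refine Complex.continuous_re.comp_continuousOn
      (continuousOn_finsetSum _ fun a _ => continuousOn_finsetSum _ fun b _ => ?_)
    have h1 : ContinuousOn (fun p : Z × E N => h p.1 a b) (C ×ˢ sphere 0 1) :=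
      (hc a b).comp continuousOn_fst fun p hp => hp.1
    exact (((by fun_prop : Continuous fun p : Z × E N => p.2 a).continuousOn).mul h1).mul
      (by fun_prop : Continuous fun p : Z × E N => star (p.2 b)).continuousOn
  obtain ⟨c, hc0, hc1⟩ := (hC.prod (isCompact_sphere (0 : E N) 1)).exists_forall_le' hf (a := 0)
    fun p hp' => hp p.1 hp'.1 p.2 (ne_zero_of_mem_unit_sphere ⟨p.2, hp'.2⟩)
  refine ⟨c, hc0, fun z hz u => ?_⟩
  rcases eq_or_ne u 0 with rfl | hu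
  · simp [hq_zero_left]
  have h0 : ‖u‖ ≠ 0 := norm_ne_zero_iff.2 hu
  have h1 := hc1 (z, ((‖u‖⁻¹ : ℝ) : ℂ) • u) ⟨hz, by
    rw [mem_sphere_zero_iff_norm, norm_smul, Complex.norm_real, norm_inv, norm_norm,
      inv_mul_cancel₀ h0]⟩
  simp only [hq_smul_left, hq_smul_right, Complex.star_def, Complex.conj_ofReal,
    Complex.re_ofReal_mul] at h1
  calc c * ‖u‖ ^ 2 ≤ ‖u‖⁻¹ * (‖u‖⁻¹ * (hq (h z) u u).re) * ‖u‖ ^ 2 := by gcongr
    _ = _ := by field_simp

theorem cpt_dual (hC : IsCompact C) (hc : ∀ a b, ContinuousOn (fun z => h z a b) C)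
    (hp : ∀ z ∈ C, (h z).PosDef) : ∃ c B : ℝ, 0 < c ∧ 0 < B ∧ ∀ z ∈ C, ∀ β : E N,
      c * ‖β‖ ^ 2 ≤ (hq (h z) (β ᵥ* (h z)⁻¹) (β ᵥ* (h z)⁻¹)).re ∧
      (hq (h z) (β ᵥ* (h z)⁻¹) (β ᵥ* (h z)⁻¹)).re ≤ B * ‖β‖ ^ 2 ∧ ‖β ᵥ* (h z)⁻¹‖ ≤ B * ‖β‖ := by
  obtain ⟨B, hB, h1⟩ := cpt_upper hC hc
  obtain ⟨c, hc0, h2⟩ := cpt_lower hC hc fun z hz u hu => hq_pos (hp z hz) hu
  have hN : (0 : ℝ) ≤ N := Nat.cast_nonneg N
  refine ⟨c / B ^ 2, (N + 1) * ((N + 1) / c), by positivity, by positivity, fun z hz β => ?_⟩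
  have e1 : β ᵥ* (h z)⁻¹ ᵥ* h z = β := by
    rw [Matrix.vecMul_vecMul, Matrix.nonsing_inv_mul _
      ((Matrix.isUnit_iff_isUnit_det _).1 (hp z hz).isUnit), Matrix.vecMul_one]
  have e2 := hq_dual (hp z hz) (β ᵥ* (h z)⁻¹) β
  generalize β ᵥ* (h z)⁻¹ = V at e1 e2 ⊢
  have a1 := (h1 z hz V V).2
  rw [e1] at a1
  have a2 := h2 z hz V
  have a3 : (hq (h z) V V).re ≤ (N + 1) * ‖V‖ * ‖β‖ := by
    rw [e2]
    refine (Complex.re_le_norm _).trans ((dot_norm_le _ _).trans ?_)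
    rw [norm_star]
    gcongr
    linarith
  have a4 : ‖V‖ ≤ (N + 1) / c * ‖β‖ := by
    rcases (norm_nonneg V).eq_or_lt with h0 | h0
    · rw [← h0]
      positivity
    · rw [div_mul_eq_mul_div, le_div_iff₀ hc0]
      refine le_of_mul_le_mul_right ?_ h0
      linarith
  refine ⟨le_trans ?_ a2, a3.trans ?_, a4.trans ?_⟩
  · calc c / B ^ 2 * ‖β‖ ^ 2 ≤ c / B ^ 2 * (B * ‖V‖) ^ 2 := by gcongr
      _ = _ := by field_simp
  · calc (N + 1) * ‖V‖ * ‖β‖ ≤ (N + 1) * ((N + 1) / c * ‖β‖) * ‖β‖ := by gcongr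
      _ = _ := by ring
  · exact mul_le_mul_of_nonneg_right (le_mul_of_one_le_left (by positivity) (by linarith))
      (norm_nonneg _)

end

end Pool.Agent.AB
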