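import Pool.Agent.P.MP_63735c_ag.ABDefs

/-! Wirtinger calculus. -/

open scoped ComplexOrder ContDiff Matrix Topology ENNReal
open Set Metric MeasureTheory Filter

namespace Pool.Agent.AB

open Pool.Agent.SPF

variable {N M : ℕ} {f g : E N → ℂ} {z : E N} {W : Set (E N)}

theorem dz_congr (h : f =ᶠ[𝓝 z] g) (a : Fin N) : dz a f =ᶠ[𝓝 z] dz a g := by
  filter_upwards [h.fderiv (𝕜 := ℝ)] with y hy
  simp only [dz, hy]

theorem dzb_congr (h : f =ᶠ[𝓝 z] g) (a : Fin N) : dzb a f =ᶠ[𝓝 z] dzb a g := by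
  filter_upwards [h.fderiv (𝕜 := ℝ)] with y hy
  simp only [dzb, hy]

theorem db_congr (h : f =ᶠ[𝓝 z] g) : db f =ᶠ[𝓝 z] db g := by
  filter_upwards [h.fderiv (𝕜 := ℝ)] with y hy
  funext a
  simp only [db, dzb, hy]

theorem dr_congr {f g : E N → ℝ} (h : f =ᶠ[𝓝 z] g) : dr f =ᶠ[𝓝 z] dr g := by
  have h1 : (fun y => (f y : ℂ)) =ᶠ[𝓝 z] fun y => (g y : ℂ) := h.fun_comp Complex.ofReal
  filter_upwards [h1.fderiv (𝕜 := ℝ)] with y hy
  funext a
  simp only [dr, dz, hy]

theorem lev_congr {f g : E N → ℝ} (h : f =ᶠ[𝓝 z] g) : lev f =ᶠ[𝓝 z] lev g := by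
  have h1 : (fun y => (f y : ℂ)) =ᶠ[𝓝 z] fun y => (g y : ℂ) := h.fun_comp Complex.ofReal
  have h2 : ∀ᶠ y in 𝓝 z, ∀ a b : Fin N, lev f y a b = lev g y a b :=
    eventually_all.2 fun a => eventually_all.2 fun b =>
      dz_congr (f := fun y => star (dz b (fun x => (f x : ℂ)) y))
        (g := fun y => star (dz b (fun x => (g x : ℂ)) y)) ((dz_congr h1 b).fun_comp star) a
  filter_upwards [h2] with y hy
  ext a b
  exact hy a b

theorem grad_congr (K : E N → Mat N) (h : f =ᶠ[𝓝 z] g) : grad K f =ᶠ[𝓝 z] grad K g := by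
  filter_upwards [db_congr h] with y hy
  simp only [grad, hy]

theorem dz_const (a : Fin N) (c : ℂ) : dz a (fun _ : E N => c) z = 0 ∧
    dzb a (fun _ : E N => c) z = 0 := by
  simp [dz, dzb]

theorem db_const (c : ℂ) : db (fun _ : E N => c) z = 0 := by
  funext a
  exact (dz_const a c).2

theorem dr_const (c : ℝ) : dr (fun _ : E N => c) z = 0 := by
  funext a
  exact (dz_const a (c : ℂ)).1

theorem lev_const (c : ℝ) : lev (fun _ : E N => c) z = 0 := by
  ext a b
  have h : (fun y : E N => star (dz b (fun _ : E N => (c : ℂ)) y)) = fun _ => 0 := by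
    funext y
    rw [(dz_const b (c : ℂ)).1, star_zero]
  simp only [lev, Matrix.of_apply, h]
  exact (dz_const a 0).1

theorem dz_add (hf : DifferentiableAt ℝ f z) (hg : DifferentiableAt ℝ g z) (a : Fin N) :
    dz a (fun y => f y + g y) z = dz a f z + dz a g z ∧
      dzb a (fun y => f y + g y) z = dzb a f z + dzb a g z := by
  simp only [dz, dzb, fderiv_fun_add hf hg, add_apply]
  constructor <;> ring

theorem dz_sub (hf : DifferentiableAt ℝ f z) (hg : DifferentiableAt ℝ g z) (a : Fin N) :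
    dz a (fun y => f y - g y) z = dz a f z - dz a g z ∧
      dzb a (fun y => f y - g y) z = dzb a f z - dzb a g z := by
  simp only [dz, dzb, fderiv_fun_sub hf hg, sub_apply]
  constructor <;> ring

theorem dz_mul (hf : DifferentiableAt ℝ f z) (hg : DifferentiableAt ℝ g z) (a : Fin N) :
    dz a (fun y => f y * g y) z = dz a f z * g z + f z * dz a g z ∧
      dzb a (fun y => f y * g y) z = dzb a f z * g z + f z * dzb a g z := by
  simp only [dz, dzb, fderiv_fun_mul hf hg, add_apply,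
    smul_apply, smul_eq_mul]
  constructor <;> ring

theorem dz_sum {κ : Type} (s : Finset κ) {F : κ → E N → ℂ}
    (hF : ∀ k ∈ s, DifferentiableAt ℝ (F k) z) (a : Fin N) :
    dz a (fun y => ∑ k ∈ s, F k y) z = ∑ k ∈ s, dz a (F k) z ∧
      dzb a (fun y => ∑ k ∈ s, F k y) z = ∑ k ∈ s, dzb a (F k) z := by
  simp only [dz, dzb, fderiv_fun_sum hF, sum_apply, Finset.mul_sum,
    ← Finset.sum_sub_distrib, ← Finset.sum_add_distrib, Finset.sum_div, and_self]

theorem star_dz (f : E N → ℂ) (z : E N) (a : Fin N) :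
    star (dz a f z) = dzb a (fun y => star (f y)) z ∧
      star (dzb a f z) = dz a (fun y => star (f y)) z := by
  have h : fderiv ℝ (fun y => star (f y)) z =
      (Complex.conjCLE : ℂ →L[ℝ] ℂ).comp (fderiv ℝ f z) := Complex.conjCLE.comp_fderiv
  simp only [dz, dzb, h]
  constructor <;> simp [sub_eq_add_neg]

theorem star_db (f : E N → ℝ) (z : E N) : star (db (fun y => (f y : ℂ)) z) = dr f z := by
  funext a
  have h := (star_dz (fun y => (f y : ℂ)) z a).2
  simp only [Complex.star_def, Complex.conj_ofReal] at h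
  exact h

theorem lev_apply (f : E N → ℝ) (z : E N) (a b : Fin N) :
    lev f z a b = dz a (dzb b fun x => (f x : ℂ)) z := by
  have h : (fun y => star (dz b (fun x => (f x : ℂ)) y)) = dzb b fun x => (f x : ℂ) := by
    funext y
    have h := (star_dz (fun y => (f y : ℂ)) y b).1
    simp only [Complex.star_def, Complex.conj_ofReal] at h
    exact h
  simp only [lev, Matrix.of_apply, h]

theorem db_add (hf : DifferentiableAt ℝ f z) (hg : DifferentiableAt ℝ g z) :
    db (fun y => f y + g y) z = db f z + db g z := by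
  funext a
  exact (dz_add hf hg a).2

theorem db_sub (hf : DifferentiableAt ℝ f z) (hg : DifferentiableAt ℝ g z) :
    db (fun y => f y - g y) z = db f z - db g z := by
  funext a
  exact (dz_sub hf hg a).2

theorem db_mul (hf : DifferentiableAt ℝ f z) (hg : DifferentiableAt ℝ g z) :
    db (fun y => f y * g y) z = g z • db f z + f z • db g z := by
  funext a
  simp only [db, Pi.add_apply, Pi.smul_apply, smul_eq_mul, (dz_mul hf hg a).2]
  ring

theorem db_smul (hf : DifferentiableAt ℝ f z) (c : ℂ) :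
    db (fun y => c * f y) z = c • db f z := by
  rw [db_mul (differentiableAt_const c) hf, db_const]
  simp

theorem db_hol (hf : DifferentiableAt ℂ f z) : db f z = 0 := by
  funext a
  exact (dz_of_diff hf a).2

theorem dz_norm_le (f : E N → ℂ) (z : E N) (a : Fin N) :
    ‖dz a f z‖ ≤ ‖fderiv ℝ f z‖ ∧ ‖dzb a f z‖ ≤ ‖fderiv ℝ f z‖ := by
  have h : ∀ c : ℂ, ‖c‖ = 1 → ‖fderiv ℝ f z (Pi.single a c)‖ ≤ ‖fderiv ℝ f z‖ := by
    intro c hc
    have := (fderiv ℝ f z).le_opNorm (Pi.single a c)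
    rwa [Pi.norm_single, hc, mul_one] at this
  have h1 := h 1 norm_one
  have h2 : ‖Complex.I * fderiv ℝ f z (Pi.single a Complex.I)‖ ≤ ‖fderiv ℝ f z‖ := by
    rw [norm_mul, Complex.norm_I, one_mul]
    exact h _ Complex.norm_I
  have h3 := norm_sub_le (fderiv ℝ f z (Pi.single a 1))
    (Complex.I * fderiv ℝ f z (Pi.single a Complex.I))
  have h4 := norm_add_le (fderiv ℝ f z (Pi.single a 1))
    (Complex.I * fderiv ℝ f z (Pi.single a Complex.I))
  simp only [dz, dzb, norm_div, Complex.norm_ofNat]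
  constructor <;> linarith

theorem db_comp {φ : E M → E N} {y : E M} (hf : DifferentiableAt ℝ f (φ y))
    (hφ : DifferentiableAt ℂ φ y) :
    db (fun x => f (φ x)) y = db f (φ y) ᵥ* (jac φ y).map star := by
  funext a
  simp only [db, (dz_comp hf hφ a).2, Matrix.vecMul, dotProduct, Matrix.map_apply]
  exact Finset.sum_congr rfl fun c _ => mul_comm _ _

theorem dr_comp {f : E N → ℝ} {φ : E M → E N} {y : E M} (hf : DifferentiableAt ℝ f (φ y))
    (hφ : DifferentiableAt ℂ φ y) : dr (fun x => f (φ x)) y = dr f (φ y) ᵥ* jac φ y := by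
  funext a
  have h : DifferentiableAt ℝ (fun x => (f x : ℂ)) (φ y) :=
    Complex.ofRealCLM.differentiableAt.comp _ hf
  simp only [dr, (dz_comp h hφ a).1, Matrix.vecMul, dotProduct]
  exact Finset.sum_congr rfl fun c _ => mul_comm _ _

theorem ofReal_smooth {f : E N → ℝ} (hf : ContDiffOn ℝ ∞ f W) :
    ContDiffOn ℝ ∞ (fun y => (f y : ℂ)) W := by
  exact Complex.ofRealCLM.contDiff.comp_contDiffOn hf

theorem diffAt {F : Type} [NormedAddCommGroup F] [NormedSpace ℝ F] {f : E N → F} (hW : IsOpen W)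
    (hf : ContDiffOn ℝ ∞ f W) (hz : z ∈ W) : DifferentiableAt ℝ f z := by
  exact (hf.contDiffAt (hW.mem_nhds hz)).differentiableAt (by simp)

theorem dz_smooth (hW : IsOpen W) (hf : ContDiffOn ℝ ∞ f W) (a : Fin N) :
    ContDiffOn ℝ ∞ (dz a f) W ∧ ContDiffOn ℝ ∞ (dzb a f) W := by
  have h : ContDiffOn ℝ ∞ (fderiv ℝ f) W := hf.fderiv_of_isOpen hW (by simp)
  have h1 : ∀ v : E N, ContDiffOn ℝ ∞ (fun z => fderiv ℝ f z v) W := fun v =>
    h.clm_apply contDiffOn_const
  exact ⟨((h1 _).sub (contDiffOn_const.mul (h1 _))).div_const 2,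
    ((h1 _).add (contDiffOn_const.mul (h1 _))).div_const 2⟩

theorem db_smooth (hW : IsOpen W) (hf : ContDiffOn ℝ ∞ f W) : ContDiffOn ℝ ∞ (db f) W := by
  exact contDiffOn_pi.2 fun a => (dz_smooth hW hf a).2

theorem dr_smooth {f : E N → ℝ} (hW : IsOpen W) (hf : ContDiffOn ℝ ∞ f W) :
    ContDiffOn ℝ ∞ (dr f) W := by
  exact contDiffOn_pi.2 fun a => (dz_smooth hW (ofReal_smooth hf) a).1

theorem lev_smooth {f : E N → ℝ} (hW : IsOpen W) (hf : ContDiffOn ℝ ∞ f W) (a b : Fin N) :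
    ContDiffOn ℝ ∞ (fun z => lev f z a b) W := by
  simp only [lev_apply]
  exact (dz_smooth hW (dz_smooth hW (ofReal_smooth hf) b).2 a).1

theorem abcal_det {A : E N → Mat N} (hA : ∀ a b, ContDiffOn ℝ ∞ (fun z => A z a b) W) :
    ContDiffOn ℝ ∞ (fun z => (A z).det) W := by
  simp only [Matrix.det_apply']
  exact ContDiffOn.sum fun σ _ => contDiffOn_const.mul (contDiffOn_prod fun i _ => hA _ _)

theorem Kah.inv_smooth {K : E N → Mat N} (hK : Kah W K) (a b : Fin N) :
    ContDiffOn ℝ ∞ (fun z => (K z)⁻¹ a b) W := by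
  have h1 := abcal_det hK.smooth
  have h2 : ContDiffOn ℝ ∞ (fun z => (K z).adjugate a b) W := by
    simp only [Matrix.adjugate_apply]
    refine abcal_det fun c d => ?_
    simp only [Matrix.updateRow_apply]
    split_ifs
    · exact contDiffOn_const
    · exact hK.smooth c d
  refine ((h1.inv fun z hz => (hK.pos z hz).det_pos.ne').mul h2).congr fun z _ => ?_
  simp [Matrix.inv_def]

theorem grad_smooth {K : E N → Mat N} (hW : IsOpen W) (hK : Kah W K) (hf : ContDiffOn ℝ ∞ f W) :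
    ContDiffOn ℝ ∞ (grad K f) W := by
  refine contDiffOn_pi.2 fun a => ?_
  simp only [grad, Matrix.vecMul, dotProduct]
  exact ContDiffOn.sum fun c _ => (dz_smooth hW hf c).2.mul (hK.inv_smooth c a)

theorem dlt_smooth {Ψ : E N → ℝ} {V : E N → E N} (hW : IsOpen W) (hΨ : ContDiffOn ℝ ∞ Ψ W)
    (hV : ContDiffOn ℝ ∞ V W) : ContDiffOn ℝ ∞ (dlt Ψ V) W := by
  refine ContDiffOn.sum fun a _ => ?_
  have h := contDiffOn_pi.1 hV a
  exact (dz_smooth hW h a).1.sub ((contDiffOn_pi.1 (dr_smooth hW hΨ) a).mul h)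

theorem wt_smooth {Ψ : E N → ℝ} (hΨ : ContDiffOn ℝ ∞ Ψ W) : ContDiffOn ℝ ∞ (wt Ψ) W := by
  exact hΨ.neg.exp

theorem wt_pos (Ψ : E N → ℝ) (z : E N) : 0 < wt Ψ z := Real.exp_pos _

theorem dr_wt {Ψ : E N → ℝ} (hΨ : DifferentiableAt ℝ Ψ z) :
    dr (wt Ψ) z = -((wt Ψ z : ℂ) • dr Ψ z) := by
  have h1 : HasFDerivAt (fun y => (Ψ y : ℂ)) (fderiv ℝ (fun y => (Ψ y : ℂ)) z) z :=
    (Complex.ofRealCLM.differentiableAt.comp _ hΨ).hasFDerivAt
  have h2 : (fun y => (wt Ψ y : ℂ)) = fun y => Complex.exp (-(Ψ y : ℂ)) := by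
    funext y
    simp [wt]
  have h3 := (h1.neg.cexp).fderiv
  funext a
  simp only [dr, dz, h2, Pi.neg_apply, Pi.smul_apply, smul_eq_mul]
  simp only [Pi.neg_apply] at h3
  rw [h3]
  simp [wt]
  ring

theorem hq_contOn {h : E N → Mat N} {u v : E N → E N}
    (hh : ∀ a b, ContinuousOn (fun z => h z a b) W) (hu : ContinuousOn u W)
    (hv : ContinuousOn v W) : ContinuousOn (fun z => hq (h z) (u z) (v z)) W := by
  simp only [hq, dotProduct, Matrix.mulVec, Pi.star_apply]
  refine continuousOn_finsetSum _ fun a _ => (continuousOn_pi.1 hu a).mul ?_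
  exact continuousOn_finsetSum _ fun b _ => (hh a b).mul (continuousOn_pi.1 hv b).star

theorem Tst.dz_tst (hf : Tst W f) (a : Fin N) : Tst W (dz a f) ∧ Tst W (dzb a f) := by
  have hs := dz_smooth isOpen_univ hf.smooth.contDiffOn a
  have h0 : ∀ x ∉ tsupport f, fderiv ℝ f x = 0 := fun x hx => by
    by_contra h
    exact hx (support_fderiv_subset ℝ h)
  have h1 : ∀ x ∉ tsupport f, dz a f x = 0 := fun x hx => by simp [dz, h0 x hx]
  have h2 : ∀ x ∉ tsupport f, dzb a f x = 0 := fun x hx => by simp [dzb, h0 x hx]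
  have h3 : ∀ r : E N → ℂ, (∀ x ∉ tsupport f, r x = 0) → tsupport r ⊆ tsupport f := fun r hr =>
    closure_minimal (fun x hx => by_contra fun h => hx (hr x h)) (isClosed_tsupport f)
  exact ⟨⟨contDiffOn_univ.1 hs.1, HasCompactSupport.intro hf.cpt h1, (h3 _ h1).trans hf.sub⟩,
    ⟨contDiffOn_univ.1 hs.2, HasCompactSupport.intro hf.cpt h2, (h3 _ h2).trans hf.sub⟩⟩

/-- The product of a test function and a function smooth on `W`. -/
theorem Tst.mul_on (hW : IsOpen W) (hf : Tst W f) (hg : ContDiffOn ℝ ∞ g W) :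
    Tst W (fun y => f y * g y) ∧ tsupport (fun y => f y * g y) ⊆ tsupport f := by
  have h1 : tsupport (fun y => f y * g y) ⊆ tsupport f := tsupport_mul_subset_left
  refine ⟨⟨contDiff_iff_contDiffAt.2 fun x => ?_, hf.cpt.mul_right, h1.trans hf.sub⟩, h1⟩
  by_cases hx : x ∈ W
  · exact hf.smooth.contDiffAt.mul (hg.contDiffAt (hW.mem_nhds hx))
  · have h2 : x ∉ tsupport (fun y => f y * g y) := fun h => hx (hf.sub (h1 h))
    exact contDiffAt_const.congr_of_eventuallyEq (notMem_tsupport_iff_eventuallyEq.1 h2)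

theorem exists_bump {C : Set (E N)} (hW : IsOpen W) (hC : IsCompact C) (h : C ⊆ W) :
    ∃ (χ : E N → ℝ) (d : ℝ), Tst W χ ∧ (∀ y, 0 ≤ χ y ∧ χ y ≤ 1) ∧ 0 < d ∧
      ∀ x ∈ C, ∀ y ∈ ball x d, χ y = 1 := by
  obtain ⟨d, hd, hsub⟩ := hC.exists_cthickening_subset_open hW h
  have hdis : Disjoint (thickening d C)ᶜ (cthickening (d / 2) C) :=
    disjoint_compl_left_iff_subset.2 (cthickening_subset_thickening' hd (half_lt_self hd) C)
  obtain ⟨χ, h0, h1, h01⟩ := exists_contMDiffMap_zero_one_of_isClosed (n := ⊤)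
    (modelWithCornersSelf ℝ (E N)) isOpen_thickening.isClosed_compl isClosed_cthickening hdis
  have hs : tsupport χ ⊆ cthickening d C :=
    closure_minimal (fun x hx => thickening_subset_cthickening _ _ (by_contra fun hx' => hx (h0 hx')))
      isClosed_cthickening
  refine ⟨χ, d / 2, ⟨χ.contMDiff.contDiff, (hC.cthickening).of_isClosed_subset
    (isClosed_tsupport _) hs, hs.trans hsub⟩, fun y => h01 y, half_pos hd, fun x hx y hy => h1 ?_⟩
  exact mem_cthickening_of_dist_le y x _ _ hx (mem_ball.1 hy).le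

end Pool.Agent.AB
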