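import Pool.Agent.P.MP_63735c_ag.ABCal

/-! Mollifiers. -/

open scoped ComplexOrder ContDiff Matrix Topology ENNReal
open Set Metric MeasureTheory Filter

namespace Pool.Agent.AB

open Pool.Agent.SPF

variable {N : ℕ} {d A : ℝ} {ρ : E N → ℝ} {f g : E N → ℂ}

/-- Convolution with a real kernel. -/
noncomputable def cv (ρ : E N → ℝ) (f : E N → ℂ) (x : E N) : ℂ := ∫ y, (ρ y : ℂ) * f (x - y)

/-- A kernel of width `d`. -/
structure Ker (d A : ℝ) (ρ : E N → ℝ) : Prop where
  smooth : ContDiff ℝ ∞ ρ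
  nonneg : ∀ y, 0 ≤ ρ y
  supp : tsupport ρ ⊆ ball 0 d
  one : ∫ y, ρ y = 1
  der : ∫ y, ‖y‖ * ‖fderiv ℝ ρ y‖ ≤ A

theorem exists_ker (N : ℕ) : ∃ A : ℝ, ∀ d : ℝ, 0 < d → ∃ ρ : E N → ℝ, Ker d A ρ := by
  let φ : ContDiffBump (0 : E N) := ⟨1 / 4, 1 / 2, by norm_num, by norm_num⟩
  have hs : ContDiff ℝ ∞ (φ.normed volume) := φ.contDiff_normed
  refine ⟨∫ y, ‖y‖ * ‖fderiv ℝ (φ.normed volume) y‖, fun d hd =>
    ⟨fun y => (d ^ Module.finrank ℝ (E N))⁻¹ * φ.normed volume (d⁻¹ • y),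
      contDiff_const.mul (hs.comp (contDiff_id.const_smul _)),
      fun y => mul_nonneg (by positivity) (φ.nonneg_normed _), ?_, ?_, le_of_eq ?_⟩⟩
  · refine (closure_minimal (fun y hy => ?_) isClosed_closedBall).trans
      (closedBall_subset_ball (half_lt_self hd))
    have h : d⁻¹ • y ∈ Function.support (φ.normed volume) := right_ne_zero_of_mul hy
    rw [φ.support_normed_eq, mem_ball_zero_iff, norm_smul, norm_inv, Real.norm_of_nonneg hd.le,
      ← div_eq_inv_mul, div_lt_iff₀ hd] at h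
    rw [mem_closedBall_zero_iff]
    have : φ.rOut = 1 / 2 := rfl
    rw [this] at h
    linarith
  · rw [integral_const_mul, Measure.integral_comp_inv_smul_of_nonneg _ _ hd.le,
      φ.integral_normed, smul_eq_mul, mul_one, inv_mul_cancel₀ (by positivity)]
  · have key : ∀ y : E N, ‖y‖ * ‖fderiv ℝ (fun y => (d ^ Module.finrank ℝ (E N))⁻¹ *
        φ.normed volume (d⁻¹ • y)) y‖ = (d ^ Module.finrank ℝ (E N))⁻¹ *
          (fun w : E N => ‖w‖ * ‖fderiv ℝ (φ.normed volume) w‖) (d⁻¹ • y) := by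
      intro y
      have h1 : HasFDerivAt (fun y : E N => d⁻¹ • y) (d⁻¹ • ContinuousLinearMap.id ℝ (E N)) y :=
        (hasFDerivAt_id y).const_smul d⁻¹
      have h2 := ((hs.differentiable (by simp) (d⁻¹ • y)).hasFDerivAt.comp y h1).const_mul
        (d ^ Module.finrank ℝ (E N))⁻¹
      have h3 : fderiv ℝ (fun y => (d ^ Module.finrank ℝ (E N))⁻¹ *
        φ.normed volume (d⁻¹ • y)) y = _ := h2.fderiv
      rw [h3, ContinuousLinearMap.comp_smul, ContinuousLinearMap.comp_id]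
      simp only [norm_smul]
      rw [Real.norm_of_nonneg (by positivity)]
      ring
    simp only [key]
    rw [integral_const_mul, Measure.integral_comp_inv_smul_of_nonneg volume
      (fun w : E N => ‖w‖ * ‖fderiv ℝ (φ.normed volume) w‖) hd.le, smul_eq_mul,
      inv_mul_cancel_left₀ (by positivity)]

theorem Ker.cpt (h : Ker d A ρ) : HasCompactSupport ρ :=
  (isCompact_closedBall 0 d).of_isClosed_subset (isClosed_tsupport _)
    (h.supp.trans ball_subset_closedBall)

theorem abmol1_eq (ρ : E N → ℝ) (f : E N → ℂ) : cv ρ f =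
    convolution ρ f (ContinuousLinearMap.lsmul ℝ ℝ : ℝ →L[ℝ] ℂ →L[ℝ] ℂ) volume := by
  funext x
  simp [cv, convolution_def]

theorem abmol1_int {κ : E N → ℝ} (hκ : Continuous κ) (hc : HasCompactSupport κ)
    (hf : LocallyIntegrable f volume) (x : E N) : Integrable fun y => (κ y : ℂ) * f (x - y) := by
  simpa using (hc.convolutionExists_left
    (ContinuousLinearMap.lsmul ℝ ℝ : ℝ →L[ℝ] ℂ →L[ℝ] ℂ) hκ hf x).integrable

theorem Ker.abmol1_int (h : Ker d A ρ) (hf : Continuous f) (x : E N) :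
    Integrable fun y => (ρ y : ℂ) * f (x - y) :=
  AB.abmol1_int h.smooth.continuous h.cpt hf.locallyIntegrable x

theorem cv_swap (ρ : E N → ℝ) (f : E N → ℂ) (x : E N) :
    cv ρ f x = ∫ y, (ρ (x - y) : ℂ) * f y := by
  rw [cv, ← integral_sub_left_eq_self _ volume x]
  simp only [sub_sub_self]

theorem cv_local (h : Ker d A ρ) {x : E N} (he : ∀ y ∈ ball x d, f y = g y) :
    cv ρ f x = cv ρ g x := by
  refine integral_congr_ae (Eventually.of_forall fun y => ?_)
  by_cases hy : y ∈ ball (0 : E N) d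
  · simp only [he (x - y) (by simpa [mem_ball_iff_norm] using hy)]
  · simp [image_eq_zero_of_notMem_tsupport fun h' => hy (h.supp h')]

theorem cv_smooth (h : Ker d A ρ) (hf : LocallyIntegrable f volume) : ContDiff ℝ ∞ (cv ρ f) := by
  rw [abmol1_eq]
  exact h.cpt.contDiff_convolution_left _ h.smooth hf

theorem cv_add (h : Ker d A ρ) (hf : Continuous f) (hg : Continuous g) (x : E N) :
    cv ρ (fun y => f y + g y) x = cv ρ f x + cv ρ g x := by
  simp only [cv, mul_add]
  exact integral_add (h.abmol1_int hf x) (h.abmol1_int hg x)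

theorem cv_sub (h : Ker d A ρ) (hf : Continuous f) (hg : Continuous g) (x : E N) :
    cv ρ (fun y => f y - g y) x = cv ρ f x - cv ρ g x := by
  simp only [cv, mul_sub]
  exact integral_sub (h.abmol1_int hf x) (h.abmol1_int hg x)

theorem cv_sum {κ : Type} (s : Finset κ) {F : κ → E N → ℂ} (h : Ker d A ρ)
    (hF : ∀ k ∈ s, Continuous (F k)) (x : E N) :
    cv ρ (fun y => ∑ k ∈ s, F k y) x = ∑ k ∈ s, cv ρ (F k) x := by
  simp only [cv, Finset.mul_sum]
  exact integral_finsetSum s fun i hi => h.abmol1_int (hF i hi) x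

theorem abmol1_cmul (ρ : E N → ℝ) (c : ℂ) (f : E N → ℂ) (x : E N) :
    cv ρ (fun y => c * f y) x = c * cv ρ f x := by
  simp only [cv, mul_left_comm _ c]
  exact integral_const_mul _ _

theorem abmol1_fderiv (h : Ker d A ρ) (hf : Tst univ f) (x v : E N) :
    fderiv ℝ (cv ρ f) x v = cv ρ (fun y => fderiv ℝ f y v) x := by
  have hl := h.smooth.continuous.locallyIntegrable (μ := volume)
  rw [abmol1_eq, (hf.cpt.hasFDerivAt_convolution_right _ hl (hf.smooth.of_le (by norm_cast)) x).fderiv,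
    convolution_precompR_apply _ hl (hf.cpt.fderiv ℝ) (hf.smooth.continuous_fderiv (by simp)),
    abmol1_eq]

theorem dz_cv (h : Ker d A ρ) (hf : Tst univ f) (a : Fin N) (x : E N) :
    dz a (cv ρ f) x = cv ρ (dz a f) x ∧ dzb a (cv ρ f) x = cv ρ (dzb a f) x := by
  have hl : ∀ v, Continuous fun y => fderiv ℝ f y v := fun v =>
    (hf.smooth.continuous_fderiv (by simp)).clm_apply continuous_const
  have e1 : dz a f = fun y => 2⁻¹ * (fderiv ℝ f y (Pi.single a 1) -
      Complex.I * fderiv ℝ f y (Pi.single a Complex.I)) := by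
    funext y
    rw [dz, div_eq_inv_mul]
  have e2 : dzb a f = fun y => 2⁻¹ * (fderiv ℝ f y (Pi.single a 1) +
      Complex.I * fderiv ℝ f y (Pi.single a Complex.I)) := by
    funext y
    rw [dzb, div_eq_inv_mul]
  rw [e1, e2, abmol1_cmul, abmol1_cmul, cv_sub h (hl _) ((hl _).const_mul _),
    cv_add h (hl _) ((hl _).const_mul _), abmol1_cmul, dz, dzb, abmol1_fderiv h hf, abmol1_fderiv h hf,
    div_eq_inv_mul, div_eq_inv_mul]
  exact ⟨rfl, rfl⟩

theorem cv_unif (hf : Continuous f) (hc : HasCompactSupport f) {γ : ℝ} (hγ : 0 < γ) :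
    ∃ d₀ : ℝ, 0 < d₀ ∧ ∀ (d A : ℝ) (ρ : E N → ℝ), d ≤ d₀ → Ker d A ρ →
      ∀ x, ‖cv ρ f x - f x‖ ≤ γ := by
  obtain ⟨δ, hδ, h⟩ := Metric.uniformContinuous_iff.1 (hc.uniformContinuous_of_continuous hf) γ hγ
  refine ⟨δ, hδ, fun d A ρ hd hρ x => ?_⟩
  rw [abmol1_eq, ← dist_eq_norm]
  exact dist_convolution_le (R := d) hγ.le ((subset_tsupport _).trans hρ.supp) hρ.nonneg hρ.one
    hf.aestronglyMeasurable fun y hy => (h ((mem_ball.1 hy).trans_le hd)).le

/-- Young's inequality in the form of a pointwise majorant. -/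
theorem young {κ : E N → ℝ} {C : Set (E N)} (hκ : Continuous κ) (hκc : HasCompactSupport κ)
    (hκ0 : ∀ y, 0 ≤ κ y) (hf : Continuous f) (hc : HasCompactSupport f) (hC : IsCompact C)
    (hg : ContinuousOn g C) (hle : ∀ x ∈ C, ‖g x‖ ≤ ∫ y, κ y * ‖f (x - y)‖) :
    ∫ x in C, ‖g x‖ ^ 2 ≤ (∫ y, κ y) ^ 2 * ∫ x, ‖f x‖ ^ 2 := by
  have hI : ∀ {u : E N → ℝ}, Continuous u → ∀ x, Integrable fun y => κ y * u (x - y) :=
    fun hu x => (hκc.convolutionExists_left (ContinuousLinearMap.mul ℝ ℝ) hκ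
      hu.locallyIntegrable x).integrable
  have hκi : Integrable κ := hκ.integrable_of_hasCompactSupport hκc
  have hu : Continuous fun y => ‖f y‖ ^ 2 := hf.norm.pow 2
  have hui : Integrable fun y => ‖f y‖ ^ 2 :=
    hu.integrable_of_hasCompactSupport (hc.comp_left (g := fun t : ℂ => ‖t‖ ^ 2) (by simp))
  have hA : 0 ≤ ∫ y, κ y := integral_nonneg hκ0
  have hG : Integrable fun x => ∫ y, κ y * ‖f (x - y)‖ ^ 2 :=
    hκi.integrable_convolution (ContinuousLinearMap.mul ℝ ℝ) hui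
  have hE : ∫ x, ∫ y, κ y * ‖f (x - y)‖ ^ 2 = (∫ y, κ y) * ∫ x, ‖f x‖ ^ 2 :=
    integral_convolution (ContinuousLinearMap.mul ℝ ℝ) hκi hui
  have key : ∀ x, (∫ y, κ y * ‖f (x - y)‖) ^ 2 ≤ (∫ y, κ y) * ∫ y, κ y * ‖f (x - y)‖ ^ 2 := by
    intro x
    have := discrim_le_zero (a := ∫ y, κ y) (b := -2 * ∫ y, κ y * ‖f (x - y)‖)
      (c := ∫ y, κ y * ‖f (x - y)‖ ^ 2) fun t => by
        have i1 := hκi.mul_const (t * t)
        have i2 := (hI hf.norm x).const_mul (-2 * t)
        have i3 : Integrable fun y => κ y * (t * t) + -2 * t * (κ y * ‖f (x - y)‖) := i1.add i2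
        rw [← integral_mul_const, mul_right_comm, ← integral_const_mul, ← integral_add i1 i2,
          ← integral_add i3 (hI hu x)]
        refine integral_nonneg fun y => le_of_le_of_eq
          (mul_nonneg (hκ0 y) (sq_nonneg (t - ‖f (x - y)‖))) ?_
        ring
    rw [discrim] at this
    linarith
  calc _ ≤ ∫ x in C, (∫ y, κ y) * ∫ y, κ y * ‖f (x - y)‖ ^ 2 :=
        setIntegral_mono_on ((hg.norm.pow 2).integrableOn_compact hC)
          (hG.const_mul _).integrableOn hC.measurableSet fun x hx =>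
          (pow_le_pow_left₀ (norm_nonneg _) (hle x hx) 2).trans (key x)
    _ ≤ ∫ x, (∫ y, κ y) * ∫ y, κ y * ‖f (x - y)‖ ^ 2 :=
        setIntegral_le_integral (hG.const_mul _) (Eventually.of_forall fun x =>
          mul_nonneg hA (integral_nonneg fun y => mul_nonneg (hκ0 y) (sq_nonneg _)))
    _ = _ := by rw [integral_const_mul, hE, sq (∫ y, κ y), mul_assoc]

theorem cv_l2 {C : Set (E N)} (h : Ker d A ρ) (hf : Continuous f) (hc : HasCompactSupport f)
    (hC : IsCompact C) : ∫ x in C, ‖cv ρ f x‖ ^ 2 ≤ ∫ x, ‖f x‖ ^ 2 := by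
  have := young h.smooth.continuous h.cpt h.nonneg hf hc hC
    (cv_smooth h hf.locallyIntegrable).continuous.continuousOn fun x _ =>
    (norm_integral_le_integral_norm _).trans (le_of_eq (by
      simp only [norm_mul, Complex.norm_real, Real.norm_of_nonneg (h.nonneg _)]))
  rwa [h.one, one_pow, one_mul] at this

end Pool.Agent.AB
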