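import Pool.Agent.P.MP_63735c_ag.ABCal
import Pool.Agent.P.MP_63735c_ag.ABAlg

/-! The Levi form. -/

open scoped ComplexOrder ContDiff Matrix Topology ENNReal
open Set Metric MeasureTheory Filter

namespace Pool.Agent.AB

open Pool.Agent.SPF

variable {N M : ℕ} {f g : E N → ℝ} {z : E N} {W : Set (E N)}

lemma ablev_ev {F : Type} [NormedAddCommGroup F] [NormedSpace ℝ F] {G : E N → F}
    (hG : ContDiffAt ℝ ∞ G z) : ∀ᶠ y in 𝓝 z, DifferentiableAt ℝ G y :=
  ((hG.of_le (m := 1) (by simp)).eventually (by simp)).mono fun _ hy =>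
    hy.differentiableAt one_ne_zero

lemma ablev_re (hf : ContDiffAt ℝ ∞ f z) : ContDiffAt ℝ ∞ (fun y => (f y : ℂ)) z :=
  Complex.ofRealCLM.contDiff.contDiffAt.comp z hf

lemma ablev_red (hf : DifferentiableAt ℝ f z) : DifferentiableAt ℝ (fun y => (f y : ℂ)) z :=
  Complex.ofRealCLM.differentiableAt.comp z hf

lemma ablev_star {G : E N → ℂ} (hG : DifferentiableAt ℝ G z) :
    DifferentiableAt ℝ (fun y => star (G y)) z :=
  Complex.conjCLE.differentiableAt.comp z hG

lemma ablev_dz {G : E N → ℂ} (hG : ContDiffAt ℝ ∞ G z) (a : Fin N) :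
    ContDiffAt ℝ ∞ (dz a G) z ∧ ContDiffAt ℝ ∞ (dzb a G) z := by
  have h : ContDiffAt ℝ ∞ (fderiv ℝ G) z := hG.fderiv_right (by simp)
  have h1 := h.clm_apply (contDiffAt_const (c := (Pi.single a 1 : E N)))
  have h2 := h.clm_apply (contDiffAt_const (c := (Pi.single a Complex.I : E N)))
  exact ⟨(h1.sub (contDiffAt_const.mul h2)).div_const 2,
    (h1.add (contDiffAt_const.mul h2)).div_const 2⟩

lemma ablev_fd {G : E N → ℂ} (hG : ContDiffAt ℝ ∞ G z) (b : Fin N) (v : E N) :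
    fderiv ℝ (dz b G) z v = (fderiv ℝ (fderiv ℝ G) z v (Pi.single b 1) -
      Complex.I * fderiv ℝ (fderiv ℝ G) z v (Pi.single b Complex.I)) / 2 ∧
    fderiv ℝ (dzb b G) z v = (fderiv ℝ (fderiv ℝ G) z v (Pi.single b 1) +
      Complex.I * fderiv ℝ (fderiv ℝ G) z v (Pi.single b Complex.I)) / 2 := by
  have h : ContDiffAt ℝ ∞ (fderiv ℝ G) z := hG.fderiv_right (by simp)
  have h0 := (h.differentiableAt (by simp)).hasFDerivAt
  have h1 := h0.clm_apply (hasFDerivAt_const (Pi.single b 1 : E N) z)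
  have h2 := (h0.clm_apply (hasFDerivAt_const (Pi.single b Complex.I : E N) z)).const_mul Complex.I
  have h3 : HasFDerivAt (dz b G) _ z := (h1.fun_sub h2).mul_const (2 : ℂ)⁻¹
  have h4 : HasFDerivAt (dzb b G) _ z := (h1.fun_add h2).mul_const (2 : ℂ)⁻¹
  rw [h3.fderiv, h4.fderiv]
  constructor <;> simp <;> ring

lemma ablev_comm {G : E N → ℂ} (hG : ContDiffAt ℝ ∞ G z) (a b : Fin N) :
    dz a (dzb b G) z = dzb b (dz a G) z ∧ dz a (dz b G) z = dz b (dz a G) z := by
  have hs := (hG.isSymmSndFDerivAt (by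
    rw [minSmoothness_of_isRCLikeNormedField]; exact WithTop.coe_le_coe.2 le_top)).eq
  constructor
  · rw [dz, dzb, (ablev_fd hG b _).2, (ablev_fd hG b _).2, (ablev_fd hG a _).1,
      (ablev_fd hG a _).1, hs (Pi.single b 1), hs (Pi.single b 1), hs (Pi.single b Complex.I),
      hs (Pi.single b Complex.I)]
    ring
  · rw [dz, dz.eq_1 b, (ablev_fd hG b _).1, (ablev_fd hG b _).1, (ablev_fd hG a _).1,
      (ablev_fd hG a _).1, hs (Pi.single b 1), hs (Pi.single b 1), hs (Pi.single b Complex.I),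
      hs (Pi.single b Complex.I)]
    ring

theorem dr_add (hf : DifferentiableAt ℝ f z) (hg : DifferentiableAt ℝ g z) :
    dr (fun y => f y + g y) z = dr f z + dr g z := by
  funext a
  simp only [dr, Pi.add_apply, Complex.ofReal_add]
  exact (dz_add (ablev_red hf) (ablev_red hg) a).1

theorem lev_add (hf : ContDiffAt ℝ ∞ f z) (hg : ContDiffAt ℝ ∞ g z) :
    lev (fun y => f y + g y) z = lev f z + lev g z := by
  ext a b
  have h1 : dzb b (fun x => ((f x + g x : ℝ) : ℂ)) =ᶠ[𝓝 z]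
      fun y => dzb b (fun x => (f x : ℂ)) y + dzb b (fun x => (g x : ℂ)) y := by
    filter_upwards [ablev_ev hf, ablev_ev hg] with y h1 h2
    simp only [Complex.ofReal_add]
    exact (dz_add (ablev_red h1) (ablev_red h2) b).2
  rw [Matrix.add_apply, lev_apply, lev_apply, lev_apply, (dz_congr h1 a).self_of_nhds]
  exact (dz_add ((ablev_dz (ablev_re hf) b).2.differentiableAt (by simp))
    ((ablev_dz (ablev_re hg) b).2.differentiableAt (by simp)) a).1

theorem lev_smul (hf : ContDiffAt ℝ ∞ f z) (c : ℝ) :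
    lev (fun y => c * f y) z = (c : ℂ) • lev f z := by
  ext a b
  have h1 : dzb b (fun x => ((c * f x : ℝ) : ℂ)) =ᶠ[𝓝 z]
      fun y => (c : ℂ) * dzb b (fun x => (f x : ℂ)) y := by
    filter_upwards [ablev_ev hf] with y h1
    simp only [Complex.ofReal_mul]
    rw [(dz_mul (differentiableAt_const _) (ablev_red h1) b).2, (dz_const b _).2, zero_mul,
      zero_add]
  rw [Matrix.smul_apply, lev_apply, lev_apply, (dz_congr h1 a).self_of_nhds,
    (dz_mul (differentiableAt_const _) ((ablev_dz (ablev_re hf) b).2.differentiableAt (by simp))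
      a).1, (dz_const a _).1, zero_mul, zero_add, smul_eq_mul]

theorem lev_herm (hf : ContDiffAt ℝ ∞ f z) : (lev f z).IsHermitian := by
  ext a b
  have e : (fun y => star (dzb a (fun x => (f x : ℂ)) y)) = dz a fun x => (f x : ℂ) := by
    funext y
    rw [(star_dz _ y a).2]
    simp
  rw [Matrix.conjTranspose_apply, lev_apply, lev_apply, (star_dz _ z b).1, e,
    (ablev_comm (ablev_re hf) a b).1]

theorem lev_closed (hf : ContDiffAt ℝ ∞ f z) (a b c : Fin N) :
    dz c (fun w => lev f w a b) z = dz a (fun w => lev f w c b) z := by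
  simp only [lev_apply]
  exact (ablev_comm (ablev_dz (ablev_re hf) b).2 c a).2

/-- Chain rule for a real function of one variable. -/
theorem dr_chain {ρ : ℝ → ℝ} {ρ₁ : ℝ} (hρ : HasDerivAt ρ ρ₁ (f z)) (hf : DifferentiableAt ℝ f z) :
    dr (fun y => ρ (f y)) z = (ρ₁ : ℂ) • dr f z := by
  funext a
  have h1 : HasFDerivAt (fun y => (f y : ℂ)) _ z :=
    Complex.ofRealCLM.hasFDerivAt.comp z hf.hasFDerivAt
  have h2 : HasFDerivAt (fun y => (ρ (f y) : ℂ)) _ z :=
    Complex.ofRealCLM.hasFDerivAt.comp z (hρ.comp_hasFDerivAt z hf.hasFDerivAt)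
  simp only [dr, dz, Pi.smul_apply, h1.fderiv, h2.fderiv]
  simp
  ring

theorem lev_chain {ρ ρ₁ : ℝ → ℝ} {ρ₂ : ℝ} (h₁ : ∀ᶠ t in 𝓝 (f z), HasDerivAt ρ (ρ₁ t) t)
    (h₂ : HasDerivAt ρ₁ ρ₂ (f z)) (hf : ContDiffAt ℝ ∞ f z) (v : E N) :
    (hq (lev (fun y => ρ (f y)) z) v v).re =
      ρ₁ (f z) * (hq (lev f z) v v).re + ρ₂ * ‖v ⬝ᵥ dr f z‖ ^ 2 := by
  have hd := hf.differentiableAt (by simp)
  have key : ∀ a b, lev (fun y => ρ (f y)) z a b =
      ρ₁ (f z) * lev f z a b + ρ₂ * (dr f z a * star (dr f z b)) := by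
    intro a b
    have e1 : (fun y => star (dz b (fun x => (ρ (f x) : ℂ)) y)) =ᶠ[𝓝 z]
        fun y => (ρ₁ (f y) : ℂ) * star (dz b (fun x => (f x : ℂ)) y) := by
      filter_upwards [ablev_ev hf, hd.continuousAt.eventually h₁] with y a1 a2
      have a3 : dz b (fun x => (ρ (f x) : ℂ)) y = ρ₁ (f y) * dz b (fun x => (f x : ℂ)) y :=
        congrFun (dr_chain a2 a1) b
      rw [a3, star_mul', Complex.star_def, Complex.conj_ofReal]
    have e2 : dz a (fun x => (ρ₁ (f x) : ℂ)) z = ρ₂ * dr f z a := congrFun (dr_chain h₂ hd) a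
    have e3 := (dz_mul (ablev_red (h₂.differentiableAt.comp z hd))
      (ablev_star ((ablev_dz (ablev_re hf) b).1.differentiableAt (by simp))) a).1
    simp only [Function.comp_def] at e3
    simp only [lev, Matrix.of_apply]
    rw [(dz_congr e1 a).self_of_nhds, e3, e2]
    simp only [dr]
    ring
  have e : hq (lev (fun y => ρ (f y)) z) v v = ρ₁ (f z) * hq (lev f z) v v +
      ρ₂ * ((v ⬝ᵥ dr f z) * star (v ⬝ᵥ dr f z)) := by
    rw [dotProduct, star_sum, Finset.sum_mul_sum]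
    simp only [hq_sum_eq, key, star_mul', Finset.mul_sum, ← Finset.sum_add_distrib]
    exact Finset.sum_congr rfl fun a _ => Finset.sum_congr rfl fun b _ => by ring
  rw [e, Complex.star_def, Complex.mul_conj, Complex.normSq_eq_norm_sq, ← Complex.ofReal_mul,
    Complex.add_re, Complex.ofReal_re, Complex.re_ofReal_mul]

/-- The Levi form is compatible with holomorphic maps. -/
theorem lev_comp {φ : E M → E N} {y : E M} (hf : ContDiffAt ℝ ∞ f (φ y))
    (hφ : ∀ᶠ x in 𝓝 y, DifferentiableAt ℂ φ x) :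
    lev (fun x => f (φ x)) y = (jac φ y)ᵀ * lev f (φ y) * (jac φ y).map star := by
  obtain ⟨O, hO, hOo, hy⟩ := _root_.eventually_nhds_iff.1 hφ
  have hφO : DifferentiableOn ℂ φ O := fun x hx => (hO x hx).differentiableWithinAt
  have hF := ablev_re hf
  have hc := (hO y hy).continuousAt
  have hJ : ∀ c b, DifferentiableAt ℂ (fun x => jac φ x c b) y := fun c b =>
    (jac_hol hOo hφO c b).differentiableAt (hOo.mem_nhds hy)
  ext a b
  have e1 : dzb b (fun x => (f (φ x) : ℂ)) =ᶠ[𝓝 y]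
      fun x => ∑ c, star (jac φ x c b) * dzb c (fun w => (f w : ℂ)) (φ x) := by
    filter_upwards [hc.eventually (ablev_ev hF), hφ] with x a1 a2
    exact (dz_comp a1 a2 b).2
  have d1 : ∀ c, DifferentiableAt ℝ (fun x => star (jac φ x c b)) y := fun c =>
    ablev_star ((hJ c b).restrictScalars ℝ)
  have d2 : ∀ c, DifferentiableAt ℝ (dzb c fun w => (f w : ℂ)) (φ y) := fun c =>
    (ablev_dz hF c).2.differentiableAt (by simp)
  have d3 : ∀ c, DifferentiableAt ℝ (fun x => dzb c (fun w => (f w : ℂ)) (φ x)) y := fun c =>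
    (d2 c).comp y ((hO y hy).restrictScalars ℝ)
  rw [lev_apply, (dz_congr e1 a).self_of_nhds,
    (dz_sum Finset.univ (fun c _ => (d1 c).fun_mul (d3 c)) a).1, Matrix.mul_apply]
  refine Finset.sum_congr rfl fun c _ => ?_
  rw [(dz_mul (d1 c) (d3 c) a).1, ← (star_dz _ y a).2, (dz_of_diff (hJ c b) a).2,
    (dz_comp (d2 c) (hO y hy) a).1, Matrix.mul_apply, star_zero, zero_mul, zero_add, mul_comm]
  simp only [Matrix.transpose_apply, Matrix.map_apply, lev_apply]

theorem smoothAt_of_hol {φ : E M → E N} {y : E M} (hφ : ∀ᶠ x in 𝓝 y, DifferentiableAt ℂ φ x) :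
    ContDiffAt ℝ ∞ φ y := by
  obtain ⟨O, hO, hOo, hy⟩ := _root_.eventually_nhds_iff.1 hφ
  exact (smooth_of_hol hOo fun x hx => (hO x hx).differentiableWithinAt).contDiffAt
    (hOo.mem_nhds hy)

theorem smoothAt_of_hol' {F : E N → ℂ} (hF : ∀ᶠ x in 𝓝 z, DifferentiableAt ℂ F x) :
    ContDiffAt ℝ ∞ F z := by
  obtain ⟨O, hO, hOo, hy⟩ := _root_.eventually_nhds_iff.1 hF
  exact ((Lib.SCV.contDiffOn_of_differentiableOn hOo fun x hx =>
    (hO x hx).differentiableWithinAt).restrict_scalars ℝ).contDiffAt (hOo.mem_nhds hy)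

theorem lev_log_norm {F : E N → ℂ} (hF : ∀ᶠ x in 𝓝 z, DifferentiableAt ℂ F x) (h0 : F z ≠ 0) :
    ContDiffAt ℝ ∞ (fun y => Real.log ‖F y‖) z ∧ lev (fun y => Real.log ‖F y‖) z = 0 := by
  refine ⟨((smoothAt_of_hol' hF).norm ℝ h0).log (norm_ne_zero_iff.2 h0), ?_⟩
  obtain ⟨O, hO, hOo, hy⟩ := _root_.eventually_nhds_iff.1 hF
  have hFO : DifferentiableOn ℂ F O := fun x hx => (hO x hx).differentiableWithinAt
  ext a b
  have e1 : (fun y => star (dz b (fun x => (Real.log ‖F x‖ : ℂ)) y)) =ᶠ[𝓝 z]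
      fun y => star (fderiv ℂ F y (Pi.single b 1) / (2 * F y)) := by
    filter_upwards [hF, (hO z hy).continuousAt.eventually_ne h0] with y a1 a2
    have a3 := a1.restrictScalars ℝ
    have a4 : ‖F y‖ ^ 2 ≠ 0 := pow_ne_zero _ (norm_ne_zero_iff.2 a2)
    have a5 := congrFun (dr_chain (f := fun x => ‖F x‖ ^ 2) (z := y)
      ((Real.hasDerivAt_log a4).div_const 2) (a3.norm_sq ℝ)) b
    have a6 : (fun x => ((‖F x‖ ^ 2 : ℝ) : ℂ)) = fun x => F x * star (F x) := by
      funext x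
      rw [Complex.star_def, Complex.mul_conj, Complex.normSq_eq_norm_sq]
    have a7 : (fun x => Real.log (‖F x‖ ^ 2) / 2) = fun x => Real.log ‖F x‖ := by
      funext x
      rw [Real.log_pow]
      push_cast
      ring
    rw [a7] at a5
    simp only [dr, Pi.smul_apply, smul_eq_mul] at a5
    rw [a5, a6, (dz_mul a3 (ablev_star a3) b).1, ← (star_dz F y b).2, (dz_of_diff a1 b).1,
      (dz_of_diff a1 b).2, star_zero, mul_zero, add_zero]
    congr 1
    have a8 := congrFun a6 y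
    have a9 : star (F y) ≠ 0 := star_ne_zero.2 a2
    rw [Complex.ofReal_div, Complex.ofReal_inv, a8]
    push_cast
    field_simp
  have e2 : DifferentiableAt ℂ (fun y => fderiv ℂ F y (Pi.single b 1) / (2 * F y)) z :=
    ((Lib.SCV.differentiableOn_fderiv_apply hOo hFO (Pi.single b 1)).differentiableAt
      (hOo.mem_nhds hy)).fun_mul
      (((hO z hy).const_mul 2).fun_inv (mul_ne_zero two_ne_zero h0))
  simp only [lev, Matrix.of_apply]
  rw [(dz_congr e1 a).self_of_nhds, ← (star_dz _ z a).2, (dz_of_diff e2 a).2, star_zero,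
    Matrix.zero_apply]

end Pool.Agent.AB
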