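import Pool.Agent.P.MP_63735c_ag.ABTDefs
import Pool.Agent.P.MP_63735c_ag.ABL2
import Pool.Agent.P.MP_63735c_ag.ABLev

/-! The L2 estimate for the powers of a section norm. -/

open scoped ComplexOrder ContDiff Matrix Topology ENNReal
open Set Metric MeasureTheory Filter

namespace Pool.Agent.AB

open Pool.Agent.SPF Pool.Agent.NL

variable {N : ℕ} {Y : Type} [TopologicalSpace Y] {A : Atlas Y N}
  {hinj : ∀ i, InjOn (A.p i) (A.C i).W} {M : Set Y} {hM : IsOpen M} {k : ℝ}

theorem pot_of_sect {u : Y → ℝ} (hu : A.IsSectionNorm k u) (h0 : ∀ x ∈ M, u x ≠ 0) :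
    Pot A hinj hM k fun x => -Real.log (u x) := by
  have key : ∀ i, ∀ z ∈ (man A hinj hM).W i,
      ContDiffAt ℝ ∞ (fun y => -Real.log (u (A.p i y))) z ∧
      lev (fun y => -Real.log (u (A.p i y))) z = (k : ℂ) • (A.C i).η z := by
    intro i z hz
    obtain ⟨O, ψ, f, hO, hzO, -, hψ, hf, h⟩ := hu i z hz.1
    have hn := hO.mem_nhds hzO
    have hfz : f z ≠ 0 := fun e => h0 _ hz.2 (by rw [(h z hzO).2, e]; simp)
    have hfa : ∀ᶠ x in 𝓝 z, DifferentiableAt ℂ f x := by
      filter_upwards [hn] with x hx using hf.differentiableAt (hO.mem_nhds hx)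
    obtain ⟨l1, l2⟩ := lev_log_norm hfa hfz
    have hψa : ContDiffAt ℝ ∞ ψ z := hψ.contDiffAt hn
    have he : (fun y => -Real.log (u (A.p i y))) =ᶠ[𝓝 z]
        fun y => k * ψ y + (-2) * Real.log ‖f y‖ := by
      filter_upwards [hn, hfa.self_of_nhds.continuousAt.eventually_ne hfz] with y hy hy0
      rw [(h y hy).2, Real.log_mul (pow_ne_zero _ (norm_ne_zero_iff.2 hy0)) (Real.exp_ne_zero _),
        Real.log_exp, Real.log_pow]
      push_cast
      ring
    have s1 : ContDiffAt ℝ ∞ (fun y => k * ψ y) z := contDiffAt_const.mul hψa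
    have s2 : ContDiffAt ℝ ∞ (fun y => (-2) * Real.log ‖f y‖) z := contDiffAt_const.mul l1
    refine ⟨(s1.add s2).congr_of_eventuallyEq he, ?_⟩
    have hl : lev ψ z = (A.C i).η z := by
      ext a b
      exact (h z hzO).1 a b
    rw [(lev_congr he).self_of_nhds, lev_add s1 s2, lev_smul hψa, lev_smul l1, l2, hl, smul_zero,
      add_zero]
  exact ⟨fun i z hz => (key i z hz).1.contDiffWithinAt, fun i z hz => (key i z hz).2⟩

theorem abd_det (C : Chart N) {z : E N} (hz : z ∈ C.W) :
    ContDiffAt ℝ ∞ (fun y => Real.log ‖(C.σ y).det‖) z ∧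
      lev (fun y => Real.log ‖(C.σ y).det‖) z = 0 := by
  refine lev_log_norm ?_ (C.σ_det z hz)
  have hd : DifferentiableOn ℂ (fun y => (C.σ y).det) C.W := by
    simp only [Matrix.det_apply, Units.smul_def]
    refine DifferentiableOn.fun_sum fun τ _ => DifferentiableOn.const_smul ?_ _
    intro x hx
    exact (HasFDerivAt.finsetProd fun a _ => ((C.σ_hol (τ a) a).differentiableAt
      (C.isOpen.mem_nhds hx)).hasFDerivAt).differentiableAt.differentiableWithinAt
  filter_upwards [C.isOpen.mem_nhds hz] with x hx using hd.differentiableAt (C.isOpen.mem_nhds hx)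

theorem l2_of_cut [T2Space Y] [MeasurableSpace Y] [BorelSpace Y] {μ : Measure Y}
    [IsFiniteMeasure μ] (hμ : IsVolume A μ) (hk : 0 ≤ k) {φ : Y → ℝ} (hφ : Pot A hinj hM k φ)
    {K : A.ι → E N → Mat N} (h1 : ∀ i, Kah ((man A hinj hM).W i) (K i))
    (h2 : (man A hinj hM).Cpt K) (h3 : (man A hinj hM).Cut K) :
    L2 A hinj hM k φ (μ.real univ) := by
  classical
  intro m s c C₀ hs hc hc0 hcb hsc
  let Ψ : A.ι → E N → ℝ := fun i z => m * φ (A.p i z) + (-1) * Real.log ‖((A.C i).σ z).det‖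
  let Ψ₀ : A.ι → E N → ℝ := fun i z => (-1) * Real.log ‖((A.C i).σ z).det‖
  have hφa : ∀ i, ∀ z ∈ (man A hinj hM).W i, ContDiffAt ℝ ∞ (fun y => φ (A.p i y)) z :=
    fun i z hz => (hφ.smo i).contDiffAt (((man A hinj hM).isOpen i).mem_nhds hz)
  have hΨ₀ : ∀ i, ∀ z ∈ (man A hinj hM).W i, ContDiffAt ℝ ∞ (Ψ₀ i) z :=
    fun i z hz => contDiffAt_const.mul (abd_det (A.C i) hz.1).1
  have hlev : ∀ i, ∀ z ∈ (man A hinj hM).W i,
      lev (Ψ i) z = ((m * k : ℝ) : ℂ) • (A.C i).η z := by
    intro i z hz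
    rw [lev_add (contDiffAt_const.mul (hφa i z hz)) (hΨ₀ i z hz), lev_smul (hφa i z hz),
      lev_smul (abd_det (A.C i) hz.1).1, (abd_det (A.C i) hz.1).2, hφ.lev i z hz, smul_zero,
      add_zero, smul_smul, Complex.ofReal_mul]
  have hq' : ∀ i, ∀ z ∈ (man A hinj hM).W i, ∀ v,
      (hq (lev (Ψ i) z) v v).re = m * k * (hq ((A.C i).η z) v v).re := by
    intro i z hz v
    rw [hlev i z hz, hq_smul, Complex.re_ofReal_mul]
  have hw₀ : ∀ i, ∀ z ∈ (man A hinj hM).W i, wt (Ψ₀ i) z = ‖((A.C i).σ z).det‖ := by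
    intro i z hz
    simp only [wt, Ψ₀, neg_mul, one_mul, neg_neg]
    exact Real.exp_log (norm_pos_iff.2 ((A.C i).σ_det z hz.1))
  have hw : ∀ i, ∀ z ∈ (man A hinj hM).W i, wt (Ψ i) z = wm A φ m i z := by
    intro i z hz
    rw [wm, ← hw₀ i z hz, wt, wt, ← Real.exp_add, neg_add]
  have hd₀ : (man A hinj hM).Den μ Ψ₀ := by
    intro i S hS hm
    refine (hμ i S (hS.trans inter_subset_left) hm).trans
      (setLIntegral_congr_fun hm fun z hz => ?_)
    rw [hw₀ i z (hS hz), ofReal_norm]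
  let f : Y → ℝ := M.piecewise (fun x => Real.exp (-(m * φ x))) fun _ => 0
  have hfm : Measurable f := by
    refine ContinuousOn.measurable_piecewise ?_ continuousOn_const hM.measurableSet
    have h4 : ContinuousOn φ (man A hinj hM).M := Man.contOn fun i => (hφ.smo i).continuousOn
    rw [man_M] at h4
    exact (continuousOn_const.mul h4).neg.rexp
  have hf0 : ∀ x, 0 ≤ f x := fun x => by
    by_cases hx : x ∈ M
    · simp only [f, piecewise_eq_of_mem _ _ _ hx]
      positivity
    · simp only [f, piecewise_eq_of_notMem _ _ _ hx, le_refl]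
  let D : Dat Y N :=
    { toMan := man A hinj hM
      K := K
      Ψ := Ψ
      ν := μ.withDensity fun x => ENNReal.ofReal (f x)
      kah := h1
      K_cpt := h2
      Ψ_smooth := fun i z hz =>
        ((contDiffAt_const.mul (hφa i z hz)).add (hΨ₀ i z hz)).contDiffWithinAt
      den := fun i S hS hm => by
        rw [withDensity_apply _ (Man.meas_img hm hS),
          hd₀.lint (fun z hz => (hΨ₀ i z hz).continuousAt.continuousWithinAt) hm hS]
        refine setLIntegral_congr_fun hm fun z hz => ?_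
        have h4 : f (A.p i z) = Real.exp (-(m * φ (A.p i z))) :=
          piecewise_eq_of_mem _ _ _ (hS hz).2
        change ENNReal.ofReal (wt (Ψ₀ i) z) * ENNReal.ofReal (f (A.p i z)) = _
        rw [← ENNReal.ofReal_mul (wt_pos _ _).le, h4, hw i z (hS hz), hw₀ i z (hS hz), wm,
          mul_comm] }
  have hP : D.Pos :=
    { Θ_cpt := fun i j z hz τ hτ => by
        have h4 : (A.C i).η z = (jac τ z)ᵀ * (A.C j).η (τ z) * (jac τ z).map star :=
          man_cpt_eta (hinj := hinj) (hM := hM) i j z hz τ hτ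
        change lev (Ψ i) z = (jac τ z)ᵀ * lev (Ψ j) (τ z) * (jac τ z).map star
        rw [hlev i z hz, hlev j _ hτ.self_of_nhds.2.1, h4, Matrix.mul_smul, Matrix.smul_mul]
      Θ_psd := fun i z hz v => by
        rw [hq' i z hz]
        exact mul_nonneg (mul_nonneg (Nat.cast_nonneg m) hk) (hq_nonneg ((A.C i).η_psd z hz.1) v)
      cut := h3 }
  obtain ⟨g, hg, hb⟩ := Dat.l2e (D := D) hP hs hc hc0 fun i z hz v =>
    (hsc i z hz v).trans_eq (congrArg _ (hq' i z hz v).symm)
  have hint : ∫ x, c x ∂D.ν ≤ μ.real univ * C₀ := by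
    change ∫ x, c x ∂(μ.withDensity fun x => ENNReal.ofReal (f x)) ≤ _
    rw [integral_withDensity_eq_integral_toReal_smul hfm.ennreal_ofReal
      (Eventually.of_forall fun x => ENNReal.ofReal_lt_top), ← smul_eq_mul, ← integral_const]
    refine integral_mono_of_nonneg (Eventually.of_forall fun x => ?_) (integrable_const _)
      (Eventually.of_forall fun x => ?_)
    · exact smul_nonneg ENNReal.toReal_nonneg (hc0 x)
    · simp only [ENNReal.toReal_ofReal (hf0 x), smul_eq_mul]
      by_cases hx : x ∈ M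
      · simp only [f, piecewise_eq_of_mem _ _ _ hx]
        exact (mul_comm _ _).trans_le (hcb x)
      · simp only [f, piecewise_eq_of_notMem _ _ _ hx, zero_mul]
        exact (mul_nonneg (hc0 x) (Real.exp_pos _).le).trans (hcb x)
  refine ⟨g, hg, fun i => ?_⟩
  have hm := ((man A hinj hM).isOpen i).measurableSet
  have he : EqOn (fun z => wt (Ψ i) z * ‖g (A.p i z) - s (A.p i z)‖ ^ 2)
      (fun z => wm A φ m i z * ‖g (A.p i z) - s (A.p i z)‖ ^ 2) ((man A hinj hM).W i) :=
    fun z hz => by simp only [hw i z hz]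
  refine ⟨(hb i).1.congr_fun he hm, ?_⟩
  rw [← setIntegral_congr_fun hm he]
  exact (hb i).2.trans hint

end Pool.Agent.AB
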