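import Pool.Agent.P.MP_63735c_ag.ABMeas
import Pool.Agent.P.MP_63735c_ag.ABLev

/-! The Dirichlet form. -/

open scoped ComplexOrder ContDiff Matrix Topology ENNReal
open Set Metric MeasureTheory Filter

namespace Pool.Agent.AB

open Pool.Agent.SPF

variable {N : ℕ} {Y : Type} [TopologicalSpace Y]

theorem Man.levG_cpt {D : Man Y N} {θ : Y → ℝ} (hθ : D.Smo θ) : D.Cpt (D.levG θ) := by
  intro i j z hz φ hφ
  have h0 := hφ.self_of_nhds
  have e : (fun y => θ (D.p i y)) =ᶠ[𝓝 z] fun y => θ (D.p j (φ y)) :=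
    hφ.mono fun y hy => congrArg θ hy.2.2.symm
  rw [Man.levG, (lev_congr e).eq_of_nhds]
  exact lev_comp (f := fun y => θ (D.p j y)) ((hθ j).contDiffAt ((D.isOpen j).mem_nhds h0.2.1))
    (hφ.mono fun y hy => hy.1)

theorem Man.levG_add {D : Man Y N} {θ θ' : Y → ℝ} (hθ : D.Smo θ) (hθ' : D.Smo θ') {i : D.ι}
    {z : E N} (hz : z ∈ D.W i) :
    D.levG (fun x => θ x + θ' x) i z = D.levG θ i z + D.levG θ' i z := by
  exact lev_add ((hθ i).contDiffAt ((D.isOpen i).mem_nhds hz))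
    ((hθ' i).contDiffAt ((D.isOpen i).mem_nhds hz))

variable [MeasurableSpace Y] {D : Dat Y N} {h h' : D.ι → E N → Mat N} {w w' v : Y → ℂ}

namespace Dat

theorem Ψ_cont (D : Dat Y N) (i : D.ι) : ContinuousOn (D.Ψ i) (D.W i) :=
  (D.Ψ_smooth i).continuousOn

theorem abgam_cases (D : Dat Y N) (x : Y) :
    (x ∉ D.M ∧ ∀ h w w', D.Gam h w w' x = 0) ∨ ∃ i, ∃ z ∈ D.W i, D.p i z = x ∧ ∀ h w w',
      D.Gam h w w' x = hq (h i z) (grad (D.K i) (fun y => w (D.p i y)) z)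
        (grad (D.K i) (fun y => w' (D.p i y)) z) := by
  by_cases hx : ∃ q : D.ι × E N, q.2 ∈ D.W q.1 ∧ D.p q.1 q.2 = x
  · exact Or.inr ⟨hx.choose.1, hx.choose.2, hx.choose_spec.1, hx.choose_spec.2,
      fun _ _ _ => dif_pos hx⟩
  · refine Or.inl ⟨fun hm => ?_, fun _ _ _ => dif_neg hx⟩
    obtain ⟨i, z, hz, e⟩ := Man.exists_chart hm
    exact hx ⟨(i, z), hz, e⟩

theorem abgam_diff (hw : D.Smo w) {i : D.ι} {z : E N} (hz : z ∈ D.W i) :
    DifferentiableAt ℝ (fun y => w (D.p i y)) z := diffAt (D.isOpen i) (hw i) hz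

theorem abgam_grad (hw : D.Smo w) {i j : D.ι} {z : E N} {φ : E N → E N} (hz : z ∈ D.W i)
    (hφ : D.Ch i j z φ) : jac φ z *ᵥ grad (D.K i) (fun y => w (D.p i y)) z =
      grad (D.K j) (fun y => w (D.p j y)) (φ z) := by
  have h0 := hφ.self_of_nhds
  have e : (fun y => w (D.p i y)) =ᶠ[𝓝 z] fun y => w (D.p j (φ y)) :=
    hφ.mono fun y hy => congrArg w hy.2.2.symm
  rw [grad, (db_congr e).eq_of_nhds, db_comp (f := fun y => w (D.p j y)) (abgam_diff hw h0.2.1) h0.1]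
  exact dual_conj ((D.kah i).pos z hz) ((D.kah j).pos _ h0.2.1) (D.K_cpt i j z hz φ hφ) _

theorem Gam_chart (hh : D.Cpt h) (hw : D.Smo w) (hw' : D.Smo w') {i : D.ι} {z : E N}
    (hz : z ∈ D.W i) : D.Gam h w w' (D.p i z) =
      hq (h i z) (grad (D.K i) (fun y => w (D.p i y)) z)
        (grad (D.K i) (fun y => w' (D.p i y)) z) := by
  rcases D.abgam_cases (D.p i z) with ⟨h1, -⟩ | ⟨j, y, hy, e, h1⟩
  · exact absurd (Man.mem_M hz) h1
  · obtain ⟨φ, rfl, hφ⟩ := D.trans i j z hz y hy e.symm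
    rw [h1, hh i j z hz φ hφ, hq_conj, abgam_grad hw hz hφ, abgam_grad hw' hz hφ]

theorem Gam_out {x : Y} (hx : x ∉ D.M) : D.Gam h w w' x = 0 := by
  rcases D.abgam_cases x with ⟨-, h1⟩ | ⟨i, z, hz, rfl, -⟩
  · exact h1 _ _ _
  · exact absurd (Man.mem_M hz) hx

theorem GamK_chart (hw : D.Smo w) (hw' : D.Smo w') {i : D.ι} {z : E N} (hz : z ∈ D.W i) :
    D.Gam D.K w w' (D.p i z) =
      grad (D.K i) (fun y => w (D.p i y)) z ⬝ᵥ star (db (fun y => w' (D.p i y)) z) := by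
  rw [Gam_chart D.K_cpt hw hw' hz]
  exact hq_dual ((D.kah i).pos z hz) _ _

/-- `Gam` vanishes where one of the functions is locally constant. -/
theorem Gam_zero {x : Y} {c : ℂ} (hc : ∀ᶠ y in 𝓝 x, v y = c) :
    D.Gam h v w x = 0 ∧ D.Gam h w v x = 0 := by
  rcases D.abgam_cases x with ⟨-, h1⟩ | ⟨i, z, hz, rfl, h1⟩
  · exact ⟨h1 _ _ _, h1 _ _ _⟩
  · have e : (fun y => v (D.p i y)) =ᶠ[𝓝 z] fun _ => c := (Man.contAt_p hz).eventually hc
    have h2 : grad (D.K i) (fun y => v (D.p i y)) z = 0 := by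
      rw [grad, (db_congr e).eq_of_nhds, db_const, Matrix.zero_vecMul]
    rw [h1, h1, h2]
    exact ⟨hq_zero_left _ _, hq_zero_right _ _⟩

theorem Gam_levG_zero {θ : Y → ℝ} {x : Y} {c : ℝ} (hc : ∀ᶠ y in 𝓝 x, θ y = c) :
    D.Gam (D.levG θ) w w' x = 0 := by
  rcases D.abgam_cases x with ⟨-, h1⟩ | ⟨i, z, hz, rfl, h1⟩
  · exact h1 _ _ _
  · have e : (fun y => θ (D.p i y)) =ᶠ[𝓝 z] fun _ => c := (Man.contAt_p hz).eventually hc
    rw [h1, Man.levG, (lev_congr e).eq_of_nhds, lev_const, hq_zero]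

theorem Gam_cc [T2Space Y] (hh : D.Cpt h)
    (hc : ∀ i a b, ContinuousOn (fun z => h i z a b) (D.W i)) (hw : D.S w) (hw' : D.Smo w') :
    D.Cc (D.Gam h w w') := by
  refine ⟨fun i => ?_, ?_⟩
  · exact (hq_contOn (hc i) (grad_smooth (D.isOpen i) (D.kah i) (hw.1 i)).continuousOn
      (grad_smooth (D.isOpen i) (D.kah i) (hw' i)).continuousOn).congr
        fun z hz => Gam_chart hh hw.1 hw' hz
  · obtain ⟨C, hC, hM, h0⟩ := hw.2
    exact ⟨C, hC, hM, fun x hx =>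
      (Gam_zero (c := 0) (mem_of_superset (hC.isClosed.isOpen_compl.mem_nhds hx) h0)).1⟩

theorem Gam_add_left (hw : D.Smo w) (hv : D.Smo v) (x : Y) :
    D.Gam h (fun y => w y + v y) w' x = D.Gam h w w' x + D.Gam h v w' x := by
  rcases D.abgam_cases x with ⟨-, h1⟩ | ⟨i, z, hz, -, h1⟩
  · rw [h1, h1, h1, add_zero]
  · rw [h1, h1, h1, ← hq_add_left, grad, db_add (abgam_diff hw hz) (abgam_diff hv hz),
      Matrix.add_vecMul]
    rfl

theorem Gam_add_right (hw' : D.Smo w') (hv : D.Smo v) (x : Y) :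
    D.Gam h w (fun y => w' y + v y) x = D.Gam h w w' x + D.Gam h w v x := by
  rcases D.abgam_cases x with ⟨-, h1⟩ | ⟨i, z, hz, -, h1⟩
  · rw [h1, h1, h1, add_zero]
  · rw [h1, h1, h1, ← hq_add_right]
    simp only [grad]
    rw [db_add (abgam_diff hw' hz) (abgam_diff hv hz), Matrix.add_vecMul]

theorem Gam_smul_left (hw : D.Smo w) (c : ℂ) (x : Y) :
    D.Gam h (fun y => c * w y) w' x = c * D.Gam h w w' x := by
  rcases D.abgam_cases x with ⟨-, h1⟩ | ⟨i, z, hz, -, h1⟩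
  · rw [h1, h1, mul_zero]
  · rw [h1, h1, ← hq_smul_left, grad, db_smul (abgam_diff hw hz), Matrix.smul_vecMul]
    rfl

theorem Gam_add_form {k : D.ι → E N → Mat N} (hk : ∀ i, ∀ z ∈ D.W i, k i z = h i z + h' i z)
    (x : Y) : D.Gam k w w' x = D.Gam h w w' x + D.Gam h' w w' x := by
  rcases D.abgam_cases x with ⟨-, h1⟩ | ⟨i, z, hz, -, h1⟩
  · rw [h1, h1, h1, add_zero]
  · rw [h1, h1, h1, hk i z hz, hq_add]

theorem GamK_star (x : Y) : star (D.Gam D.K w w' x) = D.Gam D.K w' w x := by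
  rcases D.abgam_cases x with ⟨-, h1⟩ | ⟨i, z, hz, -, h1⟩
  · rw [h1, h1, star_zero]
  · rw [h1, h1, hq_herm ((D.kah i).pos z hz).isHermitian]

/-- A pointwise inequality between two forms passes to `Gam`. -/
theorem Gam_le {a : ℝ}
    (hle : ∀ i, ∀ z ∈ D.W i, ∀ u, (hq (h i z) u u).re ≤ a * (hq (h' i z) u u).re) (x : Y) :
    (D.Gam h w w x).re ≤ a * (D.Gam h' w w x).re := by
  rcases D.abgam_cases x with ⟨-, h1⟩ | ⟨i, z, hz, -, h1⟩
  · rw [h1, h1, Complex.zero_re, mul_zero]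
  · rw [h1, h1]
    exact hle i z hz _

theorem Gam_nonneg (h0 : ∀ i, ∀ z ∈ D.W i, ∀ u, 0 ≤ (hq (h i z) u u).re) (x : Y) :
    0 ≤ (D.Gam h w w x).re := by
  rcases D.abgam_cases x with ⟨-, h1⟩ | ⟨i, z, hz, -, h1⟩
  · rw [h1, Complex.zero_re]
  · rw [h1]
    exact h0 i z hz _

theorem GamK_nonneg (x : Y) : 0 ≤ (D.Gam D.K w w x).re :=
  Gam_nonneg (fun i z hz u => hq_nonneg ((D.kah i).pos z hz).posSemidef u) x

variable [BorelSpace Y] [T2Space Y]

theorem cc_int {F : Type} [NormedAddCommGroup F] [SecondCountableTopology F] {f : Y → F}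
    (hf : D.Cc f) : Integrable f D.ν := hf.integrable D.den D.Ψ_cont

theorem GamK_cc (hw : D.S w) (hw' : D.Smo w') : D.Cc (D.Gam D.K w w') :=
  Gam_cc D.K_cpt (fun i a b => ((D.kah i).smooth a b).continuousOn) hw hw'

theorem En_re (hw : D.S w) (hw' : D.S w') :
    (D.En w w').re = ∫ x, (D.Gam D.K w w' x).re ∂D.ν := by
  exact (integral_re (cc_int (GamK_cc hw hw'.1))).symm

theorem En_add_left (hw : D.S w) (hv : D.S v) (hw' : D.S w') :
    D.En (fun y => w y + v y) w' = D.En w w' + D.En v w' := by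
  have h1 : ∀ {u : Y → ℂ}, D.S u → Integrable (D.Gam D.K u w') D.ν :=
    fun hu => cc_int (GamK_cc hu hw'.1)
  rw [En, En, En, ← integral_add (h1 hw) (h1 hv)]
  exact integral_congr_ae (Eventually.of_forall fun x => Gam_add_left hw.1 hv.1 x)

theorem En_smul_left (hw : D.S w) (c : ℂ) : D.En (fun y => c * w y) w' = c * D.En w w' := by
  rw [En, En, ← integral_const_mul]
  exact integral_congr_ae (Eventually.of_forall fun x => Gam_smul_left hw.1 c x)

theorem En_star (w w' : Y → ℂ) : star (D.En w w') = D.En w' w := by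
  refine (integral_conj (f := D.Gam D.K w w')).symm.trans ?_
  exact integral_congr_ae (Eventually.of_forall fun x => GamK_star x)

theorem En_nonneg (hw : D.S w) : 0 ≤ (D.En w w).re := by
  rw [En_re hw hw]
  exact integral_nonneg fun x => GamK_nonneg x

end Dat

end Pool.Agent.AB
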