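import Pool.Agent.P.MP_63735c_ag.ABCal

/-! Integration by parts. -/

open scoped ComplexOrder ContDiff Matrix Topology ENNReal
open Set Metric MeasureTheory Filter

namespace Pool.Agent.AB

open Pool.Agent.SPF

variable {N : ℕ} {W C : Set (E N)}

theorem intOn {F : Type} [NormedAddCommGroup F] {f : E N → F} (hW : IsOpen W) (hC : IsCompact C)
    (h : C ⊆ W) (hf : ContinuousOn f W) (h0 : ∀ z ∈ W, z ∉ C → f z = 0) :
    IntegrableOn f W volume :=
  ((hf.mono h).integrableOn_compact hC).of_forall_sdiff_eq_zero hW.measurableSet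
    fun z hz => h0 z hz.1 hz.2

theorem int_eq_cpt {F : Type} [NormedAddCommGroup F] [NormedSpace ℝ F] {f : E N → F}
    (hW : IsOpen W) (hC : IsCompact C) (h : C ⊆ W) (h0 : ∀ z ∈ W, z ∉ C → f z = 0) :
    ∫ z in W, f z = ∫ z in C, f z :=
  setIntegral_eq_of_subset_of_forall_sdiff_eq_zero hW.measurableSet h
    fun z hz => h0 z hz.1 hz.2

theorem abint_ev {F : Type} [Zero F] {f : E N → F} (hW : IsOpen W) (hC : IsClosed C)
    (h0 : ∀ z ∈ W, z ∉ C → f z = 0) {z : E N} (hz : z ∈ W) (hz' : z ∉ C) :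
    f =ᶠ[𝓝 z] fun _ => 0 := by
  filter_upwards [hW.mem_nhds hz, hC.isOpen_compl.mem_nhds hz'] with y hy hy' using h0 y hy hy'

theorem abint_dir {f : E N → ℂ} (hW : IsOpen W) (hC : IsCompact C) (h : C ⊆ W)
    (hf : ContDiffOn ℝ ∞ f W) (h0 : ∀ z ∈ W, z ∉ C → f z = 0) (v : E N) :
    IntegrableOn (fun z => fderiv ℝ f z v) W volume ∧ ∫ z in W, fderiv ℝ f z v = 0 := by
  have hg0 : ∀ z, z ∉ C → W.indicator f z = 0 := by
    intro z hz
    by_cases hzW : z ∈ W
    · rw [indicator_of_mem hzW, h0 z hzW hz]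
    · exact indicator_of_notMem hzW _
  have hoff : ∀ z, z ∉ C → W.indicator f =ᶠ[𝓝 z] fun _ => 0 := fun z hz => by
    filter_upwards [hC.isClosed.isOpen_compl.mem_nhds hz] with y hy using hg0 y hy
  have hon : ∀ z ∈ W, W.indicator f =ᶠ[𝓝 z] f := fun z hz => by
    filter_upwards [hW.mem_nhds hz] with y hy using indicator_of_mem hy _
  have hg : ContDiff ℝ ∞ (W.indicator f) := by
    refine contDiff_iff_contDiffAt.2 fun z => ?_
    by_cases hz : z ∈ C
    · exact (hf.contDiffAt (hW.mem_nhds (h hz))).congr_of_eventuallyEq (hon z (h hz))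
    · exact contDiffAt_const.congr_of_eventuallyEq (hoff z hz)
  have hs : HasCompactSupport (W.indicator f) := HasCompactSupport.intro hC hg0
  have hd0 : ∀ z, z ∉ C → fderiv ℝ (W.indicator f) z v = 0 := fun z hz => by
    rw [(hoff z hz).fderiv_eq]
    simp
  have hc : Continuous fun z => fderiv ℝ (W.indicator f) z v :=
    (hg.continuous_fderiv (by simp)).clm_apply continuous_const
  have hi : Integrable (fun z => fderiv ℝ (W.indicator f) z v) volume :=
    hc.integrable_of_hasCompactSupport (HasCompactSupport.intro hC hd0)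
  have he : EqOn (fun z => fderiv ℝ (W.indicator f) z v) (fun z => fderiv ℝ f z v) W :=
    fun z hz => by simp only [(hon z hz).fderiv_eq]
  refine ⟨hi.integrableOn.congr_fun he hW.measurableSet, ?_⟩
  rw [← setIntegral_congr_fun hW.measurableSet he,
    setIntegral_eq_integral_of_forall_compl_eq_zero fun z hz => hd0 z fun hc => hz (h hc)]
  have := integral_mul_fderiv_eq_neg_fderiv_mul_of_integrable (μ := (volume : Measure (E N)))
    (f := fun _ => (1 : ℂ)) (g := W.indicator f) (v := v) (by simp) (by simpa using hi)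
    (by simpa using hg.continuous.integrable_of_hasCompactSupport hs)
    (fun x _ => differentiableAt_const _) (fun x _ => hg.differentiable (by simp) x)
  simpa using this

theorem int_dz {f : E N → ℂ} (hW : IsOpen W) (hC : IsCompact C) (h : C ⊆ W)
    (hf : ContDiffOn ℝ ∞ f W) (h0 : ∀ z ∈ W, z ∉ C → f z = 0) (a : Fin N) :
    ∫ z in W, dz a f z = 0 ∧ ∫ z in W, dzb a f z = 0 := by
  obtain ⟨i1, e1⟩ := abint_dir hW hC h hf h0 (Pi.single a 1)
  obtain ⟨i2, e2⟩ := abint_dir hW hC h hf h0 (Pi.single a Complex.I)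
  have i3 : Integrable (fun z => Complex.I * fderiv ℝ f z (Pi.single a Complex.I))
      (volume.restrict W) := Integrable.const_mul i2 _
  constructor
  · unfold dz
    rw [integral_div, integral_sub i1 i3, integral_const_mul, e1, e2]
    simp
  · unfold dzb
    rw [integral_div, integral_add i1 i3, integral_const_mul, e1, e2]
    simp

/-- Derivatives vanish outside a closed set outside which the function vanishes. -/
theorem dz_zero_off {f : E N → ℂ} (hW : IsOpen W) (hC : IsClosed C)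
    (h0 : ∀ z ∈ W, z ∉ C → f z = 0) (a : Fin N) :
    ∀ z ∈ W, z ∉ C → dz a f z = 0 ∧ dzb a f z = 0 := by
  intro z hz hz'
  have := (abint_ev hW hC h0 hz hz').fderiv_eq (𝕜 := ℝ)
  simp [dz, dzb, this]

theorem abint_star {w : E N → ℂ} (hw : ContDiffOn ℝ ∞ w W) :
    ContDiffOn ℝ ∞ (fun y => star (w y)) W :=
  Complex.conjCLE.contDiff.comp_contDiffOn hw

theorem ibp {Ψ : E N → ℝ} {V : E N → E N} {r : E N → ℂ} (hW : IsOpen W)
    (hΨ : ContDiffOn ℝ ∞ Ψ W) (hV : ContDiffOn ℝ ∞ V W) (hr : Tst W r) :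
    ∫ z in W, (wt Ψ z : ℂ) * (V z ⬝ᵥ star (db r z)) =
      -∫ z in W, (wt Ψ z : ℂ) * (dlt Ψ V z * star (r z)) := by
  have hC : IsCompact (tsupport r) := hr.cpt
  have r0 : ∀ z ∈ W, z ∉ tsupport r → r z = 0 := fun z _ hz => image_eq_zero_of_notMem_tsupport hz
  have hw : ContDiffOn ℝ ∞ (fun y => (wt Ψ y : ℂ)) W := ofReal_smooth (wt_smooth hΨ)
  have hVa : ∀ a, ContDiffOn ℝ ∞ (fun y => V y a) W := fun a => contDiffOn_pi.1 hV a
  have hrW : ContDiffOn ℝ ∞ r W := hr.smooth.contDiffOn
  have hsr := abint_star hrW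
  have hF : ∀ a, ContDiffOn ℝ ∞ (fun y => (wt Ψ y : ℂ) * (V y a * star (r y))) W :=
    fun a => hw.mul ((hVa a).mul hsr)
  have hF0 : ∀ a, ∀ z ∈ W, z ∉ tsupport r → (wt Ψ z : ℂ) * (V z a * star (r z)) = 0 :=
    fun a z hz hz' => by simp [r0 z hz hz']
  have hpt : ∀ z ∈ W, (wt Ψ z : ℂ) * (V z ⬝ᵥ star (db r z)) +
      (wt Ψ z : ℂ) * (dlt Ψ V z * star (r z)) =
      ∑ a, dz a (fun y => (wt Ψ y : ℂ) * (V y a * star (r y))) z := by
    intro z hz
    have e : ∀ a, dz a (fun y => (wt Ψ y : ℂ) * (V y a * star (r y))) z =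
        (wt Ψ z : ℂ) * (V z a * star (db r z a)) +
          (wt Ψ z : ℂ) * ((dz a (fun y => V y a) z - dr Ψ z a * V z a) * star (r z)) := by
      intro a
      have e1 := (dz_mul (diffAt hW hw hz) (diffAt hW ((hVa a).mul hsr) hz) a).1
      have e2 := (dz_mul (diffAt hW (hVa a) hz) (diffAt hW hsr hz) a).1
      have e3 : dz a (fun y => (wt Ψ y : ℂ)) z = -((wt Ψ z : ℂ) * dr Ψ z a) :=
        congrFun (dr_wt (diffAt hW hΨ hz)) a
      have e4 : dz a (fun y => star (r y)) z = star (db r z a) := (star_dz r z a).2.symm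
      rw [e1, e2, e3, e4]
      ring
    simp only [e, Finset.sum_add_distrib, ← Finset.mul_sum, ← Finset.sum_mul]
    rfl
  have i1 : IntegrableOn (fun z => (wt Ψ z : ℂ) * (V z ⬝ᵥ star (db r z))) W volume := by
    refine intOn hW hC hr.sub (hw.continuousOn.mul ?_) fun z hz hz' => ?_
    · refine continuousOn_finsetSum _ fun a _ => (hVa a).continuousOn.mul ?_
      exact (abint_star (dz_smooth hW hrW a).2).continuousOn
    · have : db r z = 0 := funext fun a => (dz_zero_off hW (isClosed_tsupport r) r0 a z hz hz').2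
      simp [this]
  have i2 : IntegrableOn (fun z => (wt Ψ z : ℂ) * (dlt Ψ V z * star (r z))) W volume :=
    intOn hW hC hr.sub (hw.continuousOn.mul ((dlt_smooth hW hΨ hV).continuousOn.mul
      hsr.continuousOn)) fun z hz hz' => by simp [r0 z hz hz']
  rw [eq_neg_iff_add_eq_zero, ← integral_add i1 i2, setIntegral_congr_fun hW.measurableSet hpt,
    integral_finsetSum]
  · exact Finset.sum_eq_zero fun a _ => (int_dz hW hC hr.sub (hF a) (hF0 a) a).1
  · exact fun a _ => intOn hW hC hr.sub (dz_smooth hW (hF a) a).1.continuousOn fun z hz hz' =>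
      (dz_zero_off hW (isClosed_tsupport r) (hF0 a) a z hz hz').1

/-- The form used for the test functions of the Cauchy-Riemann equations. -/
theorem ibp0 {r w : E N → ℂ} (hW : IsOpen W) (hr : Tst W r) (hw : ContDiffOn ℝ ∞ w W)
    (a : Fin N) : ∫ z in W, dz a r z * star (w z) = -∫ z in W, r z * star (db w z a) := by
  have hC : IsCompact (tsupport r) := hr.cpt
  have r0 : ∀ z ∈ W, z ∉ tsupport r → r z = 0 := fun z _ hz => image_eq_zero_of_notMem_tsupport hz
  have hrW : ContDiffOn ℝ ∞ r W := hr.smooth.contDiffOn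
  have hsw := abint_star hw
  have hpt : ∀ z ∈ W, dz a r z * star (w z) + r z * star (db w z a) =
      dz a (fun y => r y * star (w y)) z := by
    intro z hz
    rw [(dz_mul (diffAt hW hrW hz) (diffAt hW hsw hz) a).1, ← (star_dz w z a).2]
    rfl
  have i1 : IntegrableOn (fun z => dz a r z * star (w z)) W volume :=
    intOn hW hC hr.sub ((dz_smooth hW hrW a).1.continuousOn.mul hsw.continuousOn)
      fun z hz hz' => by simp [(dz_zero_off hW (isClosed_tsupport r) r0 a z hz hz').1]
  have i2 : IntegrableOn (fun z => r z * star (db w z a)) W volume :=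
    intOn hW hC hr.sub (hrW.continuousOn.mul (abint_star (dz_smooth hW hw a).2).continuousOn)
      fun z hz hz' => by simp [r0 z hz hz']
  rw [eq_neg_iff_add_eq_zero, ← integral_add i1 i2, setIntegral_congr_fun hW.measurableSet hpt]
  exact (int_dz hW hC hr.sub (hrW.mul hsw) (fun z hz hz' => by simp [r0 z hz hz']) a).1

end Pool.Agent.AB
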