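import Pool.Agent.P.MP_63735c_ag.CLHol

/-! Pointwise calculus for the Levi form. -/

open Set Filter Topology
open scoped ContDiff ComplexConjugate

namespace Pool.Agent.ABK

open Pool.Agent.SPF Pool.Agent.CL

variable {V : Type} [NormedAddCommGroup V] [NormedSpace ℝ V] [NormedSpace ℂ V]
  {p q : V → ℝ} {x : V}

/-- The complex linear part of the derivative. -/
noncomputable def dc (q : V → ℝ) (x v : V) : ℂ :=
  ((fderiv ℝ q x v : ℝ) - Complex.I * (fderiv ℝ q x (Complex.I • v) : ℝ)) / 2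

section
omit [NormedSpace ℂ V]

theorem abc_d1 (hq : ContDiffAt ℝ 2 q x) : ∀ᶠ y in 𝓝 x, HasFDerivAt q (fderiv ℝ q y) y :=
  (hq.eventually (by simp)).mono fun _ hy => (hy.differentiableAt (by simp)).hasFDerivAt

theorem abc_d2 (hq : ContDiffAt ℝ 2 q x) :
    HasFDerivAt (fderiv ℝ q) (fderiv ℝ (fderiv ℝ q) x) x :=
  ((hq.fderiv_right (m := 1) (by norm_num)).differentiableAt (by simp)).hasFDerivAt

theorem D2_fun {g g1 : ℝ → ℝ} {g2 : ℝ} (hq : ContDiffAt ℝ 2 q x)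
    (hg : ∀ᶠ y in 𝓝 (q x), HasDerivAt g (g1 y) y) (hg1 : HasDerivAt g1 g2 (q x)) (v : V) :
    D2 (fun y => g (q y)) x v = g2 * (fderiv ℝ q x v) ^ 2 + g1 (q x) * D2 q x v := by
  have h1 : fderiv ℝ (fun y => g (q y)) =ᶠ[𝓝 x] fun y => g1 (q y) • fderiv ℝ q y := by
    filter_upwards [abc_d1 hq, hq.continuousAt.eventually hg] with y hy hy'
    exact (hy'.comp_hasFDerivAt y hy).fderiv
  have h2 := ((hg1.comp_hasFDerivAt x (abc_d1 hq).self_of_nhds).smul (abc_d2 hq)).fderiv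
  rw [D2, D2, h1.fderiv_eq]
  have h3 : (fun y => g1 (q y) • fderiv ℝ q y) = (g1 ∘ q) • fderiv ℝ q := rfl
  rw [h3, h2]
  simp
  ring

theorem D2_add (hp : ContDiffAt ℝ 2 p x) (hq : ContDiffAt ℝ 2 q x) (v : V) :
    D2 (fun y => p y + q y) x v = D2 p x v + D2 q x v := by
  have h1 : fderiv ℝ (fun y => p y + q y) =ᶠ[𝓝 x] fun y => fderiv ℝ p y + fderiv ℝ q y := by
    filter_upwards [abc_d1 hp, abc_d1 hq] with y hy hy'
    exact (hy.add hy').fderiv
  rw [D2, D2, D2, h1.fderiv_eq]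
  have h2 := ((abc_d2 hp).add (abc_d2 hq)).fderiv
  have h3 : (fun y => fderiv ℝ p y + fderiv ℝ q y) = fderiv ℝ p + fderiv ℝ q := rfl
  rw [h3, h2]
  simp

theorem D2_mul (hp : ContDiffAt ℝ 2 p x) (hq : ContDiffAt ℝ 2 q x) (v : V) :
    D2 (fun y => p y * q y) x v =
      p x * D2 q x v + 2 * (fderiv ℝ p x v * fderiv ℝ q x v) + q x * D2 p x v := by
  have h1 : fderiv ℝ (fun y => p y * q y) =ᶠ[𝓝 x]
      fun y => p y • fderiv ℝ q y + q y • fderiv ℝ p y := by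
    filter_upwards [abc_d1 hp, abc_d1 hq] with y hy hy'
    exact (hy.mul hy').fderiv
  rw [D2, D2, D2, h1.fderiv_eq]
  have h2 := (((abc_d1 hp).self_of_nhds.smul (abc_d2 hq)).add
    ((abc_d1 hq).self_of_nhds.smul (abc_d2 hp))).fderiv
  have h3 : (fun y => p y • fderiv ℝ q y + q y • fderiv ℝ p y) =
      p • fderiv ℝ q + q • fderiv ℝ p := rfl
  rw [h3, h2]
  simp
  ring

end

theorem dc_cross (v : V) : 4 * (dc p x v * conj (dc q x v)).re =
    fderiv ℝ p x v * fderiv ℝ q x v +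
      fderiv ℝ p x (Complex.I • v) * fderiv ℝ q x (Complex.I • v) := by
  simp [dc, Complex.div_re, Complex.div_im]
  ring

theorem dc_sq (v : V) :
    4 * ‖dc q x v‖ ^ 2 = fderiv ℝ q x v ^ 2 + fderiv ℝ q x (Complex.I • v) ^ 2 := by
  have := dc_cross (p := q) (q := q) (x := x) v
  rw [Complex.mul_conj, Complex.ofReal_re, Complex.normSq_eq_norm_sq] at this
  rw [this]
  ring

theorem Lv_congr (h : p =ᶠ[𝓝 x] q) (v : V) : Lv p x v = Lv q x v := by
  rw [Lv, Lv, D2, D2, D2, D2, h.fderiv.fderiv_eq]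

theorem dc_congr (h : p =ᶠ[𝓝 x] q) (v : V) : dc p x v = dc q x v := by
  rw [dc, dc, h.fderiv_eq]

theorem Lv_const (c : ℝ) (v : V) : Lv (fun _ : V => c) x v = 0 := by
  simp [Lv, D2]

theorem dc_const (c : ℝ) (v : V) : dc (fun _ : V => c) x v = 0 := by
  simp [dc]

theorem Lv_fun {g g1 : ℝ → ℝ} {g2 : ℝ} (hq : ContDiffAt ℝ 2 q x)
    (hg : ∀ᶠ y in 𝓝 (q x), HasDerivAt g (g1 y) y) (hg1 : HasDerivAt g1 g2 (q x)) (v : V) :
    Lv (fun y => g (q y)) x v = g1 (q x) * Lv q x v + g2 * (4 * ‖dc q x v‖ ^ 2) := by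
  rw [Lv, Lv, D2_fun hq hg hg1, D2_fun hq hg hg1, dc_sq]
  ring

theorem dc_fun {g : ℝ → ℝ} {g1 : ℝ} (hq : DifferentiableAt ℝ q x) (hg : HasDerivAt g g1 (q x))
    (v : V) : dc (fun y => g (q y)) x v = g1 * dc q x v := by
  have h : fderiv ℝ (fun y => g (q y)) x = g1 • fderiv ℝ q x :=
    (hg.comp_hasFDerivAt x hq.hasFDerivAt).fderiv
  rw [dc, dc, h]
  simp
  ring

theorem Lv_add (hp : ContDiffAt ℝ 2 p x) (hq : ContDiffAt ℝ 2 q x) (v : V) :
    Lv (fun y => p y + q y) x v = Lv p x v + Lv q x v := by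
  rw [Lv, Lv, Lv, D2_add hp hq, D2_add hp hq]
  ring

theorem dc_add (hp : DifferentiableAt ℝ p x) (hq : DifferentiableAt ℝ q x) (v : V) :
    dc (fun y => p y + q y) x v = dc p x v + dc q x v := by
  rw [dc, dc, dc, fderiv_fun_add hp hq]
  simp
  ring

theorem Lv_mul (hp : ContDiffAt ℝ 2 p x) (hq : ContDiffAt ℝ 2 q x) (v : V) :
    Lv (fun y => p y * q y) x v =
      p x * Lv q x v + 8 * (dc p x v * conj (dc q x v)).re + q x * Lv p x v := by
  have := dc_cross (p := p) (q := q) (x := x) v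
  rw [Lv, Lv, Lv, D2_mul hp hq, D2_mul hp hq]
  linarith

theorem dc_mul (hp : DifferentiableAt ℝ p x) (hq : DifferentiableAt ℝ q x) (v : V) :
    dc (fun y => p y * q y) x v = p x * dc q x v + q x * dc p x v := by
  rw [dc, dc, dc, fderiv_fun_mul hp hq]
  simp
  ring

theorem Lv_lin (hq : ContDiffAt ℝ 2 q x) (a b : ℝ) (v : V) :
    Lv (fun y => a + b * q y) x v = b * Lv q x v := by
  have := Lv_fun (g := fun y => a + b * y) (g1 := fun _ => b) (g2 := 0) hq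
    (Eventually.of_forall fun y => by simpa using ((hasDerivAt_id y).const_mul b).const_add a)
    (hasDerivAt_const _ _) v
  simpa using this

theorem Lv_sum {S : Type} (s : Finset S) {g : S → V → ℝ} (hg : ∀ i, ContDiffAt ℝ 2 (g i) x)
    (v : V) : Lv (fun y => ∑ i ∈ s, g i y) x v = ∑ i ∈ s, Lv (g i) x v ∧
      dc (fun y => ∑ i ∈ s, g i y) x v = ∑ i ∈ s, dc (g i) x v := by
  classical
  induction s using Finset.induction_on with
  | empty => simp only [Finset.sum_empty]; exact ⟨Lv_const 0 v, dc_const 0 v⟩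
  | insert a s ha ih =>
    have h1 : ContDiffAt ℝ 2 (fun y => ∑ i ∈ s, g i y) x := ContDiffAt.sum fun i _ => hg i
    simp only [Finset.sum_insert ha]
    rw [Lv_add (hg a) h1, dc_add ((hg a).differentiableAt (by simp))
      (h1.differentiableAt (by simp)), ih.1, ih.2]
    exact ⟨rfl, rfl⟩

theorem Lv_log (hq : ContDiffAt ℝ 2 q x) (h0 : q x ≠ 0) (v : V) :
    Lv (fun y => Real.log (q y)) x v = (q x)⁻¹ * Lv q x v - (q x ^ 2)⁻¹ * (4 * ‖dc q x v‖ ^ 2) := by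
  rw [Lv_fun (g := Real.log) (g1 := fun y => y⁻¹) (g2 := -(q x ^ 2)⁻¹) hq
    ((eventually_ne_nhds h0).mono fun y hy => Real.hasDerivAt_log hy) (hasDerivAt_inv h0)]
  ring

/-- To second order `g` is at least a squared norm, up to the error `e`. -/
def Sq (g : V → ℝ) (x v : V) (e : ℝ) : Prop :=
  ContDiffAt ℝ ∞ g x ∧ ∃ a b : ℂ, g x = ‖b‖ ^ 2 ∧ dc g x v = conj b * a ∧
    4 * ‖a‖ ^ 2 - e ≤ Lv g x v

theorem Sq.congr {v : V} {e : ℝ} (h : Sq p x v e) (he : q =ᶠ[𝓝 x] p) : Sq q x v e := by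
  obtain ⟨h1, a, b, h2, h3, h4⟩ := h
  exact ⟨h1.congr_of_eventuallyEq he, a, b, he.self_of_nhds.trans h2, (dc_congr he v).trans h3,
    h4.trans_eq (Lv_congr he v).symm⟩

theorem Sq.mono {v : V} {e e' : ℝ} (h : Sq p x v e) (he : e ≤ e') : Sq p x v e' := by
  obtain ⟨h1, a, b, h2, h3, h4⟩ := h
  exact ⟨h1, a, b, h2, h3, by linarith⟩

theorem sq_zero (v : V) {e : ℝ} (he : 0 ≤ e) : Sq (fun _ => 0) x v e :=
  ⟨contDiffAt_const, 0, 0, by simp, by simp [dc_const], by simp [Lv_const, he]⟩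

theorem log_sum {S : Type} [Fintype S] {g : S → V → ℝ} {v : V} {e : ℝ}
    (h : ∀ i, Sq (g i) x v e) (h0 : 0 < ∑ i, g i x) :
    -(Fintype.card S * e / ∑ i, g i x) ≤ Lv (fun y => Real.log (∑ i, g i y)) x v := by
  have h1 : ∀ i, ContDiffAt ℝ 2 (g i) x := fun i => (h i).1.of_le (by norm_cast)
  choose a b h2 h3 h4 using fun i => (h i).2
  obtain ⟨e1, e2⟩ := Lv_sum Finset.univ h1 v
  rw [Lv_log (ContDiffAt.sum fun i _ => h1 i) h0.ne', e1, e2]
  have b1 : ‖∑ i, dc (g i) x v‖ ≤ ∑ i, ‖b i‖ * ‖a i‖ :=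
    (norm_sum_le _ _).trans_eq (Finset.sum_congr rfl fun i _ => by
      rw [h3, norm_mul, Complex.norm_conj])
  have b2 := (pow_le_pow_left₀ (norm_nonneg _) b1 2).trans
    (Finset.sum_mul_sq_le_sq_mul_sq Finset.univ _ _)
  have b3 : ∑ i, (4 * ‖a i‖ ^ 2 - e) ≤ ∑ i, Lv (g i) x v := Finset.sum_le_sum fun i _ => h4 i
  rw [Finset.sum_sub_distrib, ← Finset.mul_sum, Finset.sum_const, Finset.card_univ,
    nsmul_eq_mul] at b3
  simp only [← h2] at b2
  generalize ∑ i, g i x = G at *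
  generalize ∑ i, Lv (g i) x v = L at *
  generalize ‖∑ i, dc (g i) x v‖ ^ 2 = d at *
  generalize ∑ i, ‖a i‖ ^ 2 = s at *
  have b4 : (G ^ 2)⁻¹ * (4 * d) ≤ G⁻¹ * (4 * s) := by
    calc _ ≤ (G ^ 2)⁻¹ * (4 * (G * s)) := by gcongr
      _ = _ := by field_simp
  have b5 := mul_le_mul_of_nonneg_left b3 (inv_pos.2 h0).le
  rw [div_eq_inv_mul]
  linarith

variable [IsScalarTower ℝ ℂ V] [FiniteDimensional ℂ V]
  {W : Type} [NormedAddCommGroup W] [NormedSpace ℝ W] [NormedSpace ℂ W] [IsScalarTower ℝ ℂ W]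

omit [FiniteDimensional ℂ V] in
theorem dc_comp {f : W → ℝ} {g : V → W} (hf : DifferentiableAt ℝ f (g x))
    (hg : DifferentiableAt ℂ g x) (v : V) :
    dc (fun y => f (g y)) x v = dc f (g x) (fderiv ℂ g x v) := by
  have h : fderiv ℝ (fun y => f (g y)) x = _ :=
    (hf.hasFDerivAt.comp x (hg.hasFDerivAt.restrictScalars ℝ)).fderiv
  rw [dc, dc, h]
  simp

theorem nsq_one (w u : ℂ) :
    Lv (fun w : ℂ => ‖w‖ ^ 2) w u = 4 * ‖u‖ ^ 2 ∧ dc (fun w : ℂ => ‖w‖ ^ 2) w u = conj w * u := by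
  have h1 : fderiv ℝ (fun w : ℂ => ‖w‖ ^ 2) = (2 : ℝ) • innerSL ℝ (E := ℂ) := by
    funext y
    refine (hasStrictFDerivAt_norm_sq y).hasFDerivAt.fderiv.trans ?_
    ext v
    simp [mul_add]
  constructor
  · have h2 : ∀ v : ℂ, D2 (fun w : ℂ => ‖w‖ ^ 2) w v = 2 * ‖v‖ ^ 2 := fun v => by
      rw [D2, h1]
      have := ((2 : ℝ) • innerSL ℝ (E := ℂ)).fderiv (x := w)
      rw [show ((2 : ℝ) • ⇑(innerSL ℝ (E := ℂ))) = ⇑((2 : ℝ) • innerSL ℝ (E := ℂ)) from rfl, this]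
      exact congrArg (fun t : ℝ => 2 * t) (real_inner_self_eq_norm_sq v)
    rw [Lv, h2, h2]
    simp
    ring
  · rw [dc, h1]
    apply Complex.ext <;> simp <;> ring

/-- A holomorphic function times a real function. -/
theorem sq_mul {r : V → ℝ} {f : V → ℂ} (hr : ContDiffAt ℝ ∞ r x)
    (hf : ∀ᶠ y in 𝓝 x, DifferentiableAt ℂ f y) (v : V) :
    Sq (fun y => r y ^ 2 * ‖f y‖ ^ 2) x v
      (‖f x‖ ^ 2 * (8 * ‖dc r x v‖ ^ 2 - 2 * r x * Lv r x v)) := by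
  obtain ⟨O, hO, hOo, hx⟩ := eventually_nhds_iff.1 hf
  have hs : ContDiffAt ℝ ∞ f x := (hol_smooth hOo fun y hy =>
    (hO y hy).differentiableWithinAt).2.1.contDiffAt (hOo.mem_nhds hx)
  have hn : ContDiffAt ℝ ∞ (fun y => ‖f y‖ ^ 2) x := hs.norm_sq ℝ
  have l2 : (2 : WithTop ℕ∞) ≤ ∞ := by norm_cast
  have hN : ContDiff ℝ 2 fun w : ℂ => ‖w‖ ^ 2 := contDiff_norm_sq ℝ
  have e1 := Lv_comp (f := fun w : ℂ => ‖w‖ ^ 2) hN.contDiffAt hf v
  have e2 := dc_comp (f := fun w : ℂ => ‖w‖ ^ 2) (hN.differentiable (by simp) _)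
    hf.self_of_nhds v
  rw [(nsq_one _ _).1] at e1
  rw [(nsq_one _ _).2] at e2
  have e3 := Lv_fun (g := fun t => t ^ 2) (g1 := fun t => 2 * t) (g2 := 2) (hr.of_le l2)
    (Eventually.of_forall fun y => by simpa using hasDerivAt_pow 2 y)
    (by simpa using (hasDerivAt_id (r x)).const_mul 2) v
  have e4 := dc_fun (g := fun t => t ^ 2) (g1 := 2 * r x) (hr.differentiableAt (by simp))
    (by simpa using hasDerivAt_pow 2 (r x)) v
  refine ⟨(hr.pow 2).mul hn, 2 * dc r x v * f x + r x * fderiv ℂ f x v, r x * f x, ?_, ?_, ?_⟩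
  · simp [mul_pow]
  · rw [dc_mul ((hr.pow 2).differentiableAt (by simp)) (hn.differentiableAt (by simp)), e2, e4,
      ← Complex.normSq_eq_norm_sq, Complex.normSq_eq_conj_mul_self]
    simp
    ring
  · rw [Lv_mul ((hr.pow 2).of_le l2) (hn.of_le l2), e1, e2, e3, e4]
    simp only [← Complex.normSq_eq_norm_sq, Complex.normSq_apply]
    simp
    nlinarith

end Pool.Agent.ABK
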