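import Pool.Agent.P.MP_63735c_ag.SQMat

/-! Finite covers by local embeddings and comparison of the weights. -/

open Set Filter Topology
open scoped ComplexOrder ContDiff Matrix

namespace Pool.Agent.SPF

variable {N n : ℕ} {X : Type} [TopologicalSpace X] [T2Space X] {R : Set X} {A : Atlas R N}
  {B : Amb R A}

theorem Amb.exists_cov [CompactSpace X] (B : Amb R A) : Nonempty (Cov2 B) := by
  have h1 : ∀ x : X, ∃ (α : B.κ) (K : Set X) (r : ℝ), 0 < r ∧ IsCompact K ∧ K ⊆ B.V α ∧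
      x ∈ interior K ∧ ∀ x' ∈ K, B.z α x' ∈ Metric.ball (B.z α x) (2 * r) → x' ∈ interior K := by
    intro x
    obtain ⟨α, hα⟩ := B.cover x
    obtain ⟨K, hK, hxK, hKV⟩ := exists_compact_subset (B.V_open α) hα
    have hZ : IsCompact (K \ interior K) := hK.diff isOpen_interior
    have hZ' : IsClosed (B.z α '' (K \ interior K)) :=
      (hZ.image_of_continuousOn ((B.cont α).mono (sdiff_subset.trans hKV))).isClosed
    have hx : B.z α x ∈ (B.z α '' (K \ interior K))ᶜ := by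
      rintro ⟨x', hx', he⟩
      have : x' = x := B.inj α (hKV hx'.1) hα he
      exact hx'.2 (this ▸ hxK)
    obtain ⟨ε, hε, hb⟩ := Metric.isOpen_iff.1 hZ'.isOpen_compl _ hx
    refine ⟨α, K, ε / 2, by positivity, hK, hKV, hxK, fun x' hx' hb' => ?_⟩
    by_contra hn
    have h2 : 2 * (ε / 2) = ε := by ring
    rw [h2] at hb'
    exact hb hb' ⟨x', ⟨hx', hn⟩, rfl⟩
  choose α K r hr hK hKV hx hin using h1
  have hop : ∀ x, IsOpen (interior (K x) ∩ B.z (α x) ⁻¹' Metric.ball (B.z (α x) x) (r x)) :=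
    fun x => ((B.cont (α x)).mono (interior_subset.trans (hKV x))).isOpen_inter_preimage
      isOpen_interior Metric.isOpen_ball
  obtain ⟨t, ht⟩ := isCompact_univ.elim_finite_subcover
    (fun x => interior (K x) ∩ B.z (α x) ⁻¹' Metric.ball (B.z (α x) x) (r x)) hop
    (fun x _ => mem_iUnion.2 ⟨x, hx x, Metric.mem_ball_self (hr x)⟩)
  let b : ∀ x, ContDiffBump (B.z (α x) x) := fun x => ⟨r x, 2 * r x, hr x, by linarith [hr x]⟩
  refine ⟨⟨t, inferInstance, fun s => α s, fun s => K s, fun s => b s, fun s => hK s,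
    fun s => hKV s, fun s => (b s).contDiff, fun s w => (b s).nonneg, fun s w => (b s).le_one,
    fun s x hxK hw => ?_, fun x => ?_⟩⟩
  · have h2 : B.z (α s) x ∈ Function.support (b s) := hw
    rw [ContDiffBump.support_eq] at h2
    exact mem_interior_iff_mem_nhds.1 (hin s x hxK h2)
  · obtain ⟨y, hy, hw⟩ := mem_iUnion₂.1 (ht (mem_univ x))
    exact ⟨⟨y, hy⟩, interior_subset hw.1,
      (b y).one_of_mem_closedBall (Metric.ball_subset_closedBall hw.2)⟩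

omit [T2Space X] in
theorem Cov2.w_cont (P : Cov2 B) (t : P.T) (J : Fin n → Fin (B.M (P.c t))) :
    ContinuousOn (P.w t J) (P.K t) := by
  have hz : ContinuousOn (B.z (P.c t)) (P.K t) := (B.cont _).mono (P.sub t)
  exact ((P.smooth t).continuous.comp_continuousOn hz).mul
    (((B.D _).b_smooth J).continuousOn.comp hz fun x hx => B.maps _ (P.sub t hx))

omit [T2Space X] in
theorem sqcov_chart (B : Amb R A) {α : B.κ} {x : X} (hx : x ∈ B.V α) (hR : x ∈ R) :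
    ∃ i y, A.p i y = ⟨x, hR⟩ ∧ y ∈ (B.emb α i).O ∧ (B.emb α i).j y = B.z α x := by
  obtain ⟨i, y, hy, hp⟩ := A.cover ⟨x, hR⟩
  have h1 : (A.p i y : X) = x := by rw [hp]
  refine ⟨i, y, hp, ⟨hy, ?_⟩, ?_⟩
  · rw [h1]; exact hx
  · show B.z α (A.p i y) = _
    rw [h1]

omit [T2Space X] in
theorem sqcov_iso (hd : Dense R) (hI : ∀ i, (A.C i).Iso) (B : Amb R A) {α : B.κ} {x : X}
    (hx : x ∈ B.V α) :
    ((B.D α).η (B.z α x) * ((B.D α).π (B.z α x))ᴴ)ᵀ * (B.D α).π (B.z α x) *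
      ((B.D α).η (B.z α x) * ((B.D α).π (B.z α x))ᴴ) = 0 := by
  have hπ : Continuous fun v : B.V α => (B.D α).π (B.z α v) :=
    continuous_matrix fun a b => continuousOn_iff_continuous_domRestrict.1
      (((B.D α).π_hol a b).continuousOn.comp (B.cont α) (B.maps α))
  have hη : Continuous fun v : B.V α => (B.D α).η (B.z α v) :=
    continuous_matrix fun a b => continuousOn_iff_continuous_domRestrict.1
      (((B.D α).η_smooth a b).continuousOn.comp (B.cont α) (B.maps α))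
  have hΘ := hη.matrix_mul hπ.matrix_conjTranspose
  have hF := (hΘ.matrix_transpose.matrix_mul hπ).matrix_mul hΘ
  have hD : Dense ((↑) ⁻¹' R : Set (B.V α)) := hd.preimage (B.V_open α).isOpenMap_subtype_val
  have h0 := Continuous.ext_on hD hF (continuous_const (y := 0)) fun v hv => by
    obtain ⟨i, y, -, hy, hj⟩ := sqcov_chart B v.2 hv
    have := (B.emb α i).iso (hI i) hy
    rwa [hj] at this
  exact congrFun h0 ⟨x, hx⟩

omit [T2Space X] in
/-- Outside the rank n locus all ambient minors vanish. -/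
theorem Amb.rk_of_b (hN : N = 2 * n) (hd : Dense R) (hI : ∀ i, (A.C i).Iso) (B : Amb R A)
    {α : B.κ} {x : X} (hx : x ∈ B.V α) {J : Fin n → Fin (B.M α)}
    (h : (B.D α).b J (B.z α x) ≠ 0) : ∃ hR : x ∈ R, A.Rk n ⟨x, hR⟩ := by
  have hrk : n ≤ ((B.D α).G (B.z α x)).rank := by
    by_contra hn
    exact h (mnr_eq_zero (not_le.1 hn) J)
  by_cases hR : x ∈ R
  · obtain ⟨i, y, hp, hy, hj⟩ := sqcov_chart B hx hR
    refine ⟨hR, i, y, hy.1, hp, le_antisymm (Chart.rank_le hN (hI i) hy.1) ?_⟩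
    rw [← (B.emb α i).rank_G hy, hj]
    exact hrk
  · have h1 := rank_lt_of_iso (n := n) ((B.D α).π_skew _ (B.maps α hx))
      (hN ▸ B.sing α x hx hR) (sqcov_iso hd hI B hx)
    rw [← Matrix.mul_assoc] at h1
    exact absurd hrk (not_le.2 h1)

omit [T2Space X] in
theorem sqcov_psd (hN : N = 2 * n) (hI : ∀ i, (A.C i).Iso) (B : Amb R A) {α : B.κ} {x : X}
    (hx : x ∈ B.V α) (hR : x ∈ R) :
    ((B.D α).G (B.z α x)).PosSemidef ∧ ((B.D α).G (B.z α x)).rank ≤ n := by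
  obtain ⟨i, y, -, hy, hj⟩ := sqcov_chart B hx hR
  rw [← hj]
  exact ⟨(B.emb α i).G_psd hy,
    ((B.emb α i).rank_G hy).trans_le (Chart.rank_le hN (hI i) hy.1)⟩

omit [T2Space X] in
theorem sqcov_nonneg (hN : N = 2 * n) (hd : Dense R) (hI : ∀ i, (A.C i).Iso) (B : Amb R A)
    {α : B.κ} {x : X} (hx : x ∈ B.V α) (J : Fin n → Fin (B.M α)) :
    0 ≤ (B.D α).b J (B.z α x) := by
  by_cases h : (B.D α).b J (B.z α x) = 0
  · exact h.ge
  · obtain ⟨hR, -⟩ := B.rk_of_b hN hd hI hx h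
    exact mnr_nonneg (sqcov_psd hN hI B hx hR).1 J

omit [T2Space X] in
theorem sqcov_conj (B : Amb R A) {α β : B.κ} {x : X} (hα : x ∈ B.V α) (hβ : x ∈ B.V β)
    (hR : x ∈ R) {φ : E (B.M α) → E (B.M β)} (hφ : DifferentiableAt ℂ φ (B.z α x))
    (he : ∀ᶠ x' in 𝓝 x, B.z β x' = φ (B.z α x')) :
    (B.D β).G (B.z β x) = jac φ (B.z α x) * (B.D α).G (B.z α x) * (jac φ (B.z α x))ᴴ := by
  obtain ⟨i, y, hp, hy, hj⟩ := sqcov_chart B hα hR
  have h1 : (A.p i y : X) = x := by rw [hp]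
  have hy' : y ∈ (B.emb β i).O := ⟨hy.1, by rw [h1]; exact hβ⟩
  have hj' : (B.emb β i).j y = B.z β x := by
    show B.z β (A.p i y) = _
    rw [h1]
  have hc : ContinuousAt (fun y' => (A.p i y' : X)) y :=
    continuous_subtype_val.continuousAt.comp
      ((A.cont i).continuousAt ((A.C i).isOpen.mem_nhds hy.1))
  have h2 : (B.emb β i).j =ᶠ[𝓝 y] φ ∘ (B.emb α i).j := by
    have h3 : Tendsto (fun y' => (A.p i y' : X)) (𝓝 y) (𝓝 x) := h1 ▸ hc
    exact h3.eventually he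
  have h4 : jac (B.emb β i).j y = jac φ (B.z α x) * jac (B.emb α i).j y := by
    have h5 : jac (B.emb β i).j y = jac (φ ∘ (B.emb α i).j) y := by
      unfold jac
      rw [h2.fderiv_eq]
    rw [h5, lin3_jac_comp (hj ▸ hφ)
      ((B.emb α i).hol.differentiableAt ((B.emb α i).isOpen.mem_nhds hy)), hj]
  rw [← hj', (B.emb β i).G_eq hy', h4]
  conv_rhs => rw [← hj, (B.emb α i).G_eq hy, hj]
  simp only [Matrix.conjTranspose_mul, Matrix.mul_assoc]

theorem sqcov_jac (P : Cov2 B) (t t' : P.T) : ∃ D : ℝ, ∀ x ∈ P.K t ∩ P.K t', x ∈ R →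
    ∃ L : Matrix (Fin (B.M (P.c t))) (Fin (B.M (P.c t'))) ℂ, (∀ a c, ‖L a c‖ ≤ D) ∧
      (B.D (P.c t)).G (B.z (P.c t) x) = L * (B.D (P.c t')).G (B.z (P.c t') x) * Lᴴ := by
  have hZ : IsCompact (P.K t ∩ P.K t') := (P.cpt t).inter (P.cpt t')
  refine hZ.induction_on (p := fun S => ∃ D : ℝ, ∀ x ∈ S, x ∈ R →
    ∃ L : Matrix (Fin (B.M (P.c t))) (Fin (B.M (P.c t'))) ℂ, (∀ a c, ‖L a c‖ ≤ D) ∧
      (B.D (P.c t)).G (B.z (P.c t) x) = L * (B.D (P.c t')).G (B.z (P.c t') x) * Lᴴ)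
    ⟨0, fun z hz => hz.elim⟩ ?_ ?_ ?_
  · rintro s u hst ⟨D, hD⟩
    exact ⟨D, fun z hz => hD z (hst hz)⟩
  · rintro s u ⟨D, hD⟩ ⟨D', hD'⟩
    refine ⟨max D D', fun z hz hR => ?_⟩
    rcases hz with hz | hz
    · obtain ⟨L, h1, h2⟩ := hD z hz hR
      exact ⟨L, fun a c => (h1 a c).trans (le_max_left _ _), h2⟩
    · obtain ⟨L, h1, h2⟩ := hD' z hz hR
      exact ⟨L, fun a c => (h1 a c).trans (le_max_right _ _), h2⟩
  · rintro x₀ ⟨h₀, h₀'⟩
    obtain ⟨φ, hφ, he⟩ := B.trans (P.c t') (P.c t) x₀ ⟨P.sub t' h₀', P.sub t h₀⟩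
    obtain ⟨O, hO, hOo, hxO⟩ := eventually_nhds_iff.1 hφ
    have hφO : DifferentiableOn ℂ φ O := fun w hw => (hO w hw).differentiableWithinAt
    have hz : ContinuousAt (B.z (P.c t')) x₀ :=
      (B.cont _).continuousAt ((B.V_open _).mem_nhds (P.sub t' h₀'))
    obtain ⟨M, hM⟩ := (finite_range fun q : Fin (B.M (P.c t)) × Fin (B.M (P.c t')) =>
      ‖jac φ (B.z (P.c t') x₀) q.1 q.2‖).bddAbove
    have h1 : ∀ᶠ x in 𝓝 x₀, ∀ a c, ‖jac φ (B.z (P.c t') x) a c‖ ≤ M + 1 := by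
      refine eventually_all.2 fun a => eventually_all.2 fun c => ?_
      have h3 : ContinuousAt (fun x => ‖jac φ (B.z (P.c t') x) a c‖) x₀ :=
        (((jac_hol hOo hφO a c).continuousOn.continuousAt (hOo.mem_nhds hxO)).comp hz).norm
      have h4 : ‖jac φ (B.z (P.c t') x₀) a c‖ ≤ M := hM ⟨(a, c), rfl⟩
      exact (h3.eventually (gt_mem_nhds (h4.trans_lt (lt_add_one M)))).mono fun z hz => hz.le
    have h2 : ∀ᶠ x in 𝓝 x₀, B.z (P.c t') x ∈ O := hz.eventually (hOo.mem_nhds hxO)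
    have h5 := h1.and (h2.and (he.eventually_nhds.and
      (((B.V_open _).eventually_mem (P.sub t' h₀')).and
        ((B.V_open _).eventually_mem (P.sub t h₀)))))
    refine ⟨_, mem_nhdsWithin_of_mem_nhds h5, M + 1, ?_⟩
    rintro x ⟨a1, a2, a3, a4, a5⟩ hR
    exact ⟨_, a1, sqcov_conj B a4 a5 hR (hO _ a2) a3⟩

theorem Cov2.compare (hN : N = 2 * n) (hR : IsOpen R) (hd : Dense R) (hI : ∀ i, (A.C i).Iso)
    (P : Cov2 B) : ∃ C₀ : ℝ, 0 < C₀ ∧ ∀ t t', ∀ x ∈ P.K t ∩ P.K t',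
      ∀ (J : Fin n → Fin (B.M (P.c t))) (J' : Fin n → Fin (B.M (P.c t'))),
        MaxM ((B.D (P.c t')).G (B.z (P.c t') x)) J' →
          (B.D (P.c t)).b J (B.z (P.c t) x) ≤ C₀ * (B.D (P.c t')).b J' (B.z (P.c t') x) := by
  have := P.fin
  choose D hD using fun q : P.T × P.T => sqcov_jac P q.1 q.2
  obtain ⟨M, hM⟩ := (finite_range fun q : P.T × P.T =>
    ((n.factorial : ℝ) * ((B.M (P.c q.2) : ℝ) * D q) ^ n) ^ 2).bddAbove
  refine ⟨max M 1, lt_max_of_lt_right one_pos, fun t t' x hx J J' hm => ?_⟩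
  have h0 := sqcov_nonneg hN hd hI B (P.sub t' hx.2) J'
  by_cases h : (B.D (P.c t)).b J (B.z (P.c t) x) = 0
  · rw [h]
    exact mul_nonneg (zero_le_one.trans (le_max_right _ _)) h0
  · obtain ⟨hxR, -⟩ := B.rk_of_b hN hd hI (P.sub t hx.1) h
    obtain ⟨L, h1, h2⟩ := hD (t, t') x hx hxR
    obtain ⟨h3, h4⟩ := sqcov_psd hN hI B (P.sub t' hx.2) hxR
    have h5 := mnr_conj_le h3 h4 hm L h1 J
    rw [← h2] at h5
    exact h5.trans (mul_le_mul_of_nonneg_right ((hM ⟨(t, t'), rfl⟩).trans (le_max_left _ _)) h0)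

theorem Cov2.exists_active (hN : N = 2 * n) (hR : IsOpen R) (hd : Dense R) (hI : ∀ i, (A.C i).Iso)
    (P : Cov2 B) : ∃ c : ℝ, 0 < c ∧ ∀ x : R, A.Rk n x →
      (∃ t, ∃ J : Fin n → Fin (B.M (P.c t)), P.Active t J x) ∧
        ∀ t (J : Fin n → Fin (B.M (P.c t))), P.Active t J x →
          0 < (B.D (P.c t)).b J (B.z (P.c t) x) ∧ MaxM ((B.D (P.c t)).G (B.z (P.c t) x)) J ∧
            c ≤ P.ρ t (B.z (P.c t) x) := by
  have := P.fin
  obtain ⟨C₀, hC₀, hC⟩ := P.compare hN hR hd hI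
  refine ⟨C₀⁻¹, inv_pos.2 hC₀, fun x hx => ?_⟩
  obtain ⟨t', ht', h1⟩ := P.one x
  obtain ⟨i, y, hy, hp, hrk⟩ := hx
  have hy' : y ∈ (B.emb (P.c t') i).O := ⟨hy, by rw [hp]; exact P.sub t' ht'⟩
  have hj : (B.emb (P.c t') i).j y = B.z (P.c t') x := by
    show B.z (P.c t') (A.p i y) = _
    rw [hp]
  obtain ⟨J₀, hJ₀⟩ := exists_mnr_pos (n := n) ((B.emb (P.c t') i).G_psd hy')
    (by rw [(B.emb (P.c t') i).rank_G hy', hrk])
  rw [hj] at hJ₀
  have : Nonempty (Fin n → Fin (B.M (P.c t'))) := ⟨J₀⟩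
  obtain ⟨J', hm⟩ : ∃ J' : Fin n → Fin (B.M (P.c t')),
      MaxM ((B.D (P.c t')).G (B.z (P.c t') x)) J' :=
    Finite.exists_max fun J => mnr ((B.D (P.c t')).G (B.z (P.c t') x)) J
  have h2 : 0 < (B.D (P.c t')).b J' (B.z (P.c t') x) := hJ₀.trans_le (hm J₀)
  constructor
  · have : Nonempty {q : Σ t : P.T, Fin n → Fin (B.M (P.c t)) // (x : X) ∈ P.K q.1} :=
      ⟨⟨⟨t', J'⟩, ht'⟩⟩
    obtain ⟨q, hq⟩ := Finite.exists_max
      fun q : {q : Σ t : P.T, Fin n → Fin (B.M (P.c t)) // (x : X) ∈ P.K q.1} =>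
        P.w q.1.1 q.1.2 x
    exact ⟨q.1.1, q.1.2, q.2, fun s J hs => hq ⟨⟨s, J⟩, hs⟩⟩
  · rintro t J ⟨ht, hA⟩
    have h3 : (B.D (P.c t')).b J' (B.z (P.c t') x) ≤
        P.ρ t (B.z (P.c t) x) * (B.D (P.c t)).b J (B.z (P.c t) x) := by
      have := hA t' J' ht'
      rwa [Cov2.w, Cov2.w, h1, one_mul] at this
    have h4 := h2.trans_le h3
    have h5 : 0 < P.ρ t (B.z (P.c t) x) :=
      pos_of_mul_pos_left h4 (sqcov_nonneg hN hd hI B (P.sub t ht) J)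
    have h6 : 0 < (B.D (P.c t)).b J (B.z (P.c t) x) := pos_of_mul_pos_right h4 (P.nonneg t _)
    refine ⟨h6, fun J'' => le_of_mul_le_mul_left (hA t J'' ht) h5, ?_⟩
    have h7 := (hC t t' x ⟨ht, ht'⟩ J J' hm).trans (mul_le_mul_of_nonneg_left h3 hC₀.le)
    rw [inv_le_iff_one_le_mul₀' hC₀]
    refine le_of_mul_le_mul_right ?_ h6
    rwa [one_mul, mul_assoc]

end Pool.Agent.SPF
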