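import Pool.Agent.P.MP_63735c_ag.ABK1
import Pool.Agent.P.MP_63735c_ag.CSAmb
import Pool.Agent.P.MP_63735c_ag.SQCov

/-! Minors of the ambient bivector and changes of local embeddings. -/

open Set Filter Topology
open scoped ContDiff Matrix

namespace Pool.Agent.ABK

open Pool.Agent.SPF Pool.Agent.CL Pool.Agent.NL Pool.Agent.CK Pool.Agent.CS

variable {N M M' : ℕ}

theorem det_mul_sum (L : Matrix (Fin N) (Fin M) ℂ) (J : Matrix (Fin M) (Fin N) ℂ) :
    (L * J).det = ∑ I : Fin N → Fin M, (∏ a, L a (I a)) * (J.submatrix I id).det := by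
  have h : L * J = fun a => ∑ c, L a c • J c := by
    ext a b
    simp [Matrix.mul_apply]
  rw [h]
  change Matrix.detRowAlternating.toMultilinearMap (fun a => ∑ c, L a c • J c) = _
  rw [MultilinearMap.map_sum]
  refine Finset.sum_congr rfl fun I _ => ?_
  rw [MultilinearMap.map_smul_univ]
  rfl

theorem det_mul_le {L : Matrix (Fin N) (Fin M) ℂ} {J : Matrix (Fin M) (Fin N) ℂ} {D m : ℝ}
    (hL : ∀ a c, ‖L a c‖ ≤ D) (hJ : ∀ I : Fin N → Fin M, ‖(J.submatrix I id).det‖ ≤ m)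
    (hD : 0 ≤ D) : ‖(L * J).det‖ ≤ (M * D) ^ N * m := by
  rw [det_mul_sum]
  refine (norm_sum_le _ _).trans ((Finset.sum_le_sum (g := fun _ => D ^ N * m)
    fun I _ => ?_).trans_eq ?_)
  · rw [norm_mul, norm_prod]
    refine mul_le_mul ((Finset.prod_le_prod (g := fun _ => D) (fun _ _ => norm_nonneg _)
      fun a _ => hL a _).trans_eq (by simp)) (hJ I) (norm_nonneg _) (by positivity)
  · simp [mul_pow, mul_assoc]

theorem exists_minor {J : Matrix (Fin M) (Fin N) ℂ} (hJ : Function.Injective J.mulVec) :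
    ∃ I : Fin N → Fin M, (J.submatrix I id).det ≠ 0 := by
  obtain ⟨g, hg⟩ := (Matrix.toLin' J).exists_leftInverse_of_injective
    (LinearMap.ker_eq_bot.2 hJ)
  have h : LinearMap.toMatrix' g * J = 1 := by
    have := congrArg LinearMap.toMatrix' hg
    rwa [LinearMap.toMatrix'_comp, LinearMap.toMatrix'_toLin', LinearMap.toMatrix'_id] at this
  by_contra hn
  have h2 := det_mul_sum (LinearMap.toMatrix' g) J
  rw [h, Matrix.det_one, Finset.sum_eq_zero fun I _ => by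
    rw [not_not.1 (not_exists.1 hn I), mul_zero]] at h2
  exact one_ne_zero h2

theorem mulVec_le {L : Matrix (Fin M') (Fin M) ℂ} {D : ℝ} (hD : 0 ≤ D) (hL : ∀ a c, ‖L a c‖ ≤ D)
    (u : E M) : ‖L *ᵥ u‖ ≤ M * D * ‖u‖ := by
  refine (pi_norm_le_iff_of_nonneg (by positivity)).2 fun a => ?_
  have h1 : ‖L a‖ ≤ D := (pi_norm_le_iff_of_nonneg hD).2 (hL a)
  exact (dot_le (L a) u).trans (by gcongr)

theorem err_bd {r : E M → ℝ} (hr : ContDiff ℝ ∞ r) (w₀ : E M) : ∃ C : ℝ, 0 ≤ C ∧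
    ∀ᶠ w in 𝓝 w₀, ∀ u, 8 * ‖dc r w u‖ ^ 2 - 2 * r w * Lv r w u ≤ C * ‖u‖ ^ 2 := by
  have h1 : ContDiff ℝ ∞ (fderiv ℝ r) := hr.fderiv_right (by simp)
  have h2 : Continuous fun w => ‖fderiv ℝ (fderiv ℝ r) w‖ :=
    Continuous.norm (E := E M →L[ℝ] E M →L[ℝ] ℝ) (h1.continuous_fderiv (by simp))
  obtain ⟨D, hD⟩ : ∃ D : ℝ, D = ‖r w₀‖ + ‖fderiv ℝ r w₀‖ + ‖fderiv ℝ (fderiv ℝ r) w₀‖ + 1 :=
    ⟨_, rfl⟩
  have n0 := norm_nonneg (r w₀)
  have n1 := norm_nonneg (fderiv ℝ r w₀)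
  have n2 := norm_nonneg (fderiv ℝ (fderiv ℝ r) w₀)
  have hD0 : 0 ≤ D := by linarith
  refine ⟨8 * D ^ 2, by positivity, ?_⟩
  filter_upwards [hr.continuous.norm.continuousAt.eventually (gt_mem_nhds (a := D) (by linarith)),
    h1.continuous.norm.continuousAt.eventually (gt_mem_nhds (a := D) (by linarith)),
    h2.continuousAt.eventually (gt_mem_nhds (a := D) (by linarith))] with w a0 a1 a2 u
  have b1 : ∀ v, fderiv ℝ r w v ^ 2 ≤ D ^ 2 * ‖v‖ ^ 2 := fun v => by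
    rw [← mul_pow, ← sq_abs]
    exact pow_le_pow_left₀ (abs_nonneg _) (((fderiv ℝ r w).le_opNorm v).trans (by gcongr)) 2
  have b2 : ∀ v, |r w * D2 r w v| ≤ D ^ 2 * ‖v‖ ^ 2 := fun v => by
    have := (fderiv ℝ (fderiv ℝ r) w).le_opNorm₂ v v
    rw [abs_mul]
    calc _ ≤ D * (D * ‖v‖ * ‖v‖) :=
          mul_le_mul a0.le (this.trans (by gcongr)) (abs_nonneg _) hD0
      _ = _ := by ring
  have e : ‖Complex.I • u‖ = ‖u‖ := by simp [norm_smul]
  have c0 := dc_sq (q := r) (x := w) u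
  have c1 := b1 u
  have c2 := b1 (Complex.I • u)
  have c3 := (abs_le.1 (b2 u)).1
  have c4 := (abs_le.1 (b2 (Complex.I • u))).1
  rw [e] at c2 c4
  rw [Lv]
  linarith

variable {X : Type} [TopologicalSpace X] {R : Set X} {A : Atlas R N}

/-- The Jacobian matrix of a local embedding. -/
noncomputable abbrev Jm (B : Amb R A) (α : B.κ) (i : A.ι) (y : E N) :
    Matrix (Fin (B.M α)) (Fin N) ℂ := jac (fun y' => B.z α (A.p i y')) y

/-- A principal minor of the ambient bivector. -/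
noncomputable def mn (B : Amb R A) (α : B.κ) (I : Fin N → Fin (B.M α)) (w : E (B.M α)) : ℂ :=
  (((B.D α).π w).submatrix I I).det

variable {B : Amb R A} {α β : B.κ} {i : A.ι} {y : E N} {x : X}

theorem mn_eq (hy : y ∈ (A.C i).W) (hx : (A.p i y : X) ∈ B.V α) (I : Fin N → Fin (B.M α)) :
    mn B α I (B.z α (A.p i y)) =
      ((Jm B α i y).submatrix I id).det ^ 2 * (((A.C i).σ y)⁻¹).det := by
  rw [mn, B.π_eq α i y hy hx, Matrix.submatrix_mul _ _ I id I Function.bijective_id,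
    Matrix.submatrix_mul _ _ I id id Function.bijective_id, Matrix.det_mul, Matrix.det_mul,
    ← Matrix.transpose_submatrix, Matrix.det_transpose, Matrix.submatrix_id_id]
  ring

theorem mn_sing (hx : x ∈ B.V α) (hR : x ∉ R) (I : Fin N → Fin (B.M α)) :
    mn B α I (B.z α x) = 0 := by
  by_contra h3
  have h4 := Matrix.rank_of_isUnit _
    ((Matrix.isUnit_iff_isUnit_det _).2 (isUnit_iff_ne_zero.2 h3))
  rw [Fintype.card_fin] at h4
  have h5 := Matrix.rank_submatrix_le ((B.D α).π (B.z α x)) I I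
  have := B.sing α x hx hR
  omega

theorem mn_hol (hx : x ∈ B.V α) (I : Fin N → Fin (B.M α)) :
    ∀ᶠ w in 𝓝 (B.z α x), DifferentiableAt ℂ (mn B α I) w := by
  have h : ContDiffOn ℂ ∞ (mn B α I) (B.D α).W :=
    reg_det (𝕜 := ℂ) (M := fun w => ((B.D α).π w).submatrix I I) fun a b =>
      Lib.SCV.contDiffOn_of_differentiableOn (B.D α).isOpen ((B.D α).π_hol _ _)
  filter_upwards [(B.D α).isOpen.mem_nhds (B.maps α hx)] with w hw
  exact (h.contDiffAt ((B.D α).isOpen.mem_nhds hw)).differentiableAt (by simp)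

theorem exists_mn (hy : y ∈ (A.C i).W) (hx : (A.p i y : X) ∈ B.V α) :
    ∃ I : Fin N → Fin (B.M α), ((Jm B α i y).submatrix I id).det ≠ 0 :=
  exists_minor fun u v h => (B.hol α i y hy hx).2 (by simpa only [jac_mulVec] using h)

theorem p_cont (hy : y ∈ (A.C i).W) : ContinuousAt (fun y' => (A.p i y' : X)) y :=
  continuous_subtype_val.continuousAt.comp ((A.cont i).continuousAt ((A.C i).isOpen.mem_nhds hy))

theorem z_hol (hy : y ∈ (A.C i).W) (hx : (A.p i y : X) ∈ B.V α) :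
    ∀ᶠ y' in 𝓝 y, DifferentiableAt ℂ (fun y' => B.z α (A.p i y')) y' := by
  filter_upwards [(A.C i).isOpen.mem_nhds hy, (p_cont hy).eventually
    ((B.V_open α).eventually_mem hx)] with y' h1 h2
  exact (B.hol α i y' h1 h2).1

theorem trans_jac (hα : x ∈ B.V α) (hβ : x ∈ B.V β) : ∃ D : ℝ, 0 ≤ D ∧
    ∀ᶠ x' in 𝓝 x, ∀ i, ∀ y ∈ (A.C i).W, (A.p i y : X) = x' →
      ∃ L : Matrix (Fin (B.M β)) (Fin (B.M α)) ℂ,
        (∀ a c, ‖L a c‖ ≤ D) ∧ Jm B β i y = L * Jm B α i y := by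
  obtain ⟨φ, hφ, he⟩ := B.trans α β x ⟨hα, hβ⟩
  obtain ⟨O, hO, hOo, hxO⟩ := eventually_nhds_iff.1 hφ
  have hφO : DifferentiableOn ℂ φ O := fun w hw => (hO w hw).differentiableWithinAt
  have hz : ContinuousAt (B.z α) x := (B.cont _).continuousAt ((B.V_open _).mem_nhds hα)
  obtain ⟨D, hD⟩ := (finite_range fun q : Fin (B.M β) × Fin (B.M α) =>
    ‖jac φ (B.z α x) q.1 q.2‖).bddAbove
  have h1 : ∀ᶠ x' in 𝓝 x, ∀ a c, ‖jac φ (B.z α x') a c‖ ≤ |D| + 1 := by
    refine eventually_all.2 fun a => eventually_all.2 fun c => ?_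
    have h3 : ContinuousAt (fun x => ‖jac φ (B.z α x) a c‖) x :=
      (((jac_hol hOo hφO a c).continuousOn.continuousAt (hOo.mem_nhds hxO)).comp hz).norm
    have h4 : ‖jac φ (B.z α x) a c‖ ≤ |D| := (hD ⟨(a, c), rfl⟩).trans (le_abs_self D)
    exact (h3.eventually (gt_mem_nhds (h4.trans_lt (lt_add_one _)))).mono fun z hz => hz.le
  refine ⟨|D| + 1, by positivity, ?_⟩
  filter_upwards [h1, hz.eventually (hOo.mem_nhds hxO), he.eventually_nhds,
    (B.V_open α).eventually_mem hα] with x' a1 a2 a3 a4 i y hy hp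
  subst hp
  refine ⟨_, a1, ?_⟩
  have h2 : (fun y' => B.z β (A.p i y')) =ᶠ[𝓝 y] φ ∘ fun y' => B.z α (A.p i y') :=
    (p_cont hy).eventually a3
  have h5 : Jm B β i y = jac (φ ∘ fun y' => B.z α (A.p i y')) y := by
    unfold Jm jac
    rw [h2.fderiv_eq]
  rw [h5, lin3_jac_comp (hO _ a2) (B.hol α i y hy a4).1]

end Pool.Agent.ABK
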