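import Pool.Agent.P.MP_63735c_ag.ABK2

/-! A function that cuts out the singular set. -/

open Set Filter Topology
open scoped ContDiff Matrix

namespace Pool.Agent.ABK

open Pool.Agent.SPF Pool.Agent.CL Pool.Agent.NL Pool.Agent.CK Pool.Agent.CS

variable {N : ℕ} {X : Type} [TopologicalSpace X] [T2Space X] {R : Set X} {A : Atlas R N}
  {B : Amb R A} (P : Cov2 B)

/-- The cutoff functions, made flat. -/
noncomputable def rr (t : P.T) (w : E (B.M (P.c t))) : ℝ := Real.smoothTransition (2 * P.ρ t w - 1)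

/-- The index set of the sum. -/
abbrev Ix := Σ t : P.T, Fin N → Fin (B.M (P.c t))

/-- One term of the sum. -/
noncomputable def kw (s : Ix P) : X → ℝ := (P.K s.1).indicator fun x =>
  rr P s.1 (B.z (P.c s.1) x) ^ 2 * ‖mn B (P.c s.1) s.2 (B.z (P.c s.1) x)‖ ^ 2

noncomputable instance : Fintype (Ix P) :=
  have := P.fin
  Fintype.ofFinite _

/-- The sum. -/
noncomputable def GG (x : X) : ℝ := ∑ s, kw P s x

omit [T2Space X] in
theorem rr_smooth (t : P.T) : ContDiff ℝ ∞ (rr P t) :=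
  Real.smoothTransition.contDiff.comp ((contDiff_const.mul (P.smooth t)).sub contDiff_const)

omit [T2Space X] in
theorem kw_nonneg (s : Ix P) (x : X) : 0 ≤ kw P s x :=
  indicator_nonneg (fun _ _ => by positivity) x

omit [T2Space X] in
theorem kw_le (s : Ix P) (x : X) : kw P s x ≤ GG P x :=
  Finset.single_le_sum (f := fun s => kw P s x) (fun s _ => kw_nonneg P s x) (Finset.mem_univ s)

theorem kw_cases (s : Ix P) (x : X) : kw P s =ᶠ[𝓝 x] (fun _ => 0) ∨ (x ∈ P.K s.1 ∧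
    kw P s =ᶠ[𝓝 x] fun x =>
      rr P s.1 (B.z (P.c s.1) x) ^ 2 * ‖mn B (P.c s.1) s.2 (B.z (P.c s.1) x)‖ ^ 2) := by
  by_cases hx : x ∈ P.K s.1
  · by_cases h0 : P.ρ s.1 (B.z (P.c s.1) x) = 0
    · left
      have hc : ContinuousAt (fun x => P.ρ s.1 (B.z (P.c s.1) x)) x :=
        (P.smooth s.1).continuous.continuousAt.comp
          ((B.cont _).continuousAt ((B.V_open _).mem_nhds (P.sub _ hx)))
      filter_upwards [hc.eventually (gt_mem_nhds (a := 1 / 2) (h0.trans_lt (by norm_num)))] with x' h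
      refine indicator_apply_eq_zero.2 fun _ => ?_
      rw [rr, Real.smoothTransition.zero_of_nonpos (by linarith)]
      simp
    · refine Or.inr ⟨hx, ?_⟩
      filter_upwards [P.nhds _ x hx h0] with x' h using indicator_of_mem h _
  · left
    filter_upwards [(P.cpt s.1).isClosed.isOpen_compl.mem_nhds hx] with x' h using
      indicator_of_notMem h _

theorem GG_cont : Continuous (GG P) := by
  refine continuous_finsetSum _ fun s _ => continuous_iff_continuousAt.2 fun x => ?_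
  rcases kw_cases P s x with h | ⟨hx, h⟩
  · exact continuousAt_const.congr h.symm
  · have hz : ContinuousAt (B.z (P.c s.1)) x :=
      (B.cont _).continuousAt ((B.V_open _).mem_nhds (P.sub _ hx))
    exact ((((rr_smooth P s.1).continuous.continuousAt.comp hz).pow 2).mul
      (((mn_hol (P.sub _ hx) s.2).self_of_nhds.continuousAt.comp hz).norm.pow 2)).congr h.symm

omit [T2Space X] in
theorem GG_sing {x : X} (hx : x ∉ R) : GG P x = 0 :=
  Finset.sum_eq_zero fun s _ => indicator_apply_eq_zero.2 fun h => by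
    rw [mn_sing (P.sub _ h) hx]
    simp

omit [T2Space X] in
theorem GG_pos (x : R) : 0 < GG P x := by
  obtain ⟨i, y, hy, rfl⟩ := A.cover x
  obtain ⟨t, ht, h1⟩ := P.one (A.p i y)
  obtain ⟨I, hI⟩ := exists_mn hy (P.sub t ht)
  refine lt_of_lt_of_le ?_ (kw_le P ⟨t, I⟩ _)
  have h2 : (((A.C i).σ y)⁻¹).det ≠ 0 := by
    rw [Matrix.det_nonsing_inv, Ring.inverse_eq_inv']
    exact inv_ne_zero ((A.C i).σ_det y hy)
  rw [kw, indicator_of_mem ht, rr, h1, Real.smoothTransition.one_of_one_le (by norm_num),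
    mn_eq hy (P.sub t ht)]
  have := norm_pos_iff.2 (mul_ne_zero (pow_ne_zero 2 hI) h2)
  positivity

variable [CompactSpace X]

theorem mn_le (s : Ix P) : ∃ C, 0 ≤ C ∧ ∀ x ∈ P.K s.1, x ∈ R →
    ‖mn B (P.c s.1) s.2 (B.z (P.c s.1) x)‖ ^ 2 ≤ C * GG P x := by
  refine cpt_unif (fun C x => x ∈ P.K s.1 → x ∈ R →
    ‖mn B (P.c s.1) s.2 (B.z (P.c s.1) x)‖ ^ 2 ≤ C * GG P x) (fun C C' x hC h h1 h2 =>
      (h h1 h2).trans (mul_le_mul_of_nonneg_right hC (GG_pos P ⟨x, h2⟩).le)) fun x => ?_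
  by_cases hx : x ∈ P.K s.1
  swap
  · exact ⟨0, ((P.cpt s.1).isClosed.isOpen_compl.eventually_mem hx).mono fun x' h h' =>
      (h h').elim⟩
  obtain ⟨t, ht, h1⟩ := P.one x
  obtain ⟨D, hD, hL⟩ := trans_jac (P.sub t ht) (P.sub _ hx)
  have hc : ContinuousAt (fun x => rr P t (B.z (P.c t) x)) x :=
    (rr_smooth P t).continuous.continuousAt.comp
      ((B.cont _).continuousAt ((B.V_open _).mem_nhds (P.sub _ ht)))
  have h2 : rr P t (B.z (P.c t) x) = 1 := by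
    rw [rr, h1, Real.smoothTransition.one_of_one_le (by norm_num)]
  refine ⟨4 * ((B.M (P.c t) * D) ^ N) ^ 4, ?_⟩
  filter_upwards [hL, hc.eventually (lt_mem_nhds (a := 1 / 2) (lt_of_lt_of_eq (by norm_num) h2.symm)),
    P.nhds t x ht (by rw [h1]; exact one_ne_zero)] with x' a1 a2 a3 a4 a5
  obtain ⟨i, y, hy, hp⟩ := A.cover ⟨x', a5⟩
  obtain rfl : (A.p i y : X) = x' := by rw [hp]
  obtain ⟨L, b1, b2⟩ := a1 i y hy rfl
  obtain ⟨I₀, -⟩ := exists_mn hy (P.sub t a3)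
  have : Nonempty (Fin N → Fin (B.M (P.c t))) := ⟨I₀⟩
  obtain ⟨I, hI⟩ := Finite.exists_max fun I : Fin N → Fin (B.M (P.c t)) =>
    ‖((Jm B (P.c t) i y).submatrix I id).det‖
  have b3 := det_mul_le (L := L.submatrix s.2 id) (fun a c => b1 _ _) hI hD
  have b4 := kw_le P ⟨t, I⟩ (A.p i y)
  rw [kw, indicator_of_mem a3, mn_eq hy (P.sub t a3)] at b4
  rw [mn_eq hy (P.sub _ a4), b2, Matrix.submatrix_mul _ _ s.2 id id Function.bijective_id,
    Matrix.submatrix_id_id]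
  simp only [norm_mul, norm_pow] at b4 ⊢
  generalize (B.M (P.c t) * D) ^ N = c at *
  generalize ‖((Jm B (P.c t) i y).submatrix I id).det‖ = m at *
  generalize ‖(((A.C i).σ y)⁻¹).det‖ = k at *
  generalize rr P t (B.z (P.c t) (A.p i y)) = r at *
  have b5 := pow_le_pow_left₀ (norm_nonneg _) b3 4
  have b6 : 1 ≤ 4 * r ^ 2 := by nlinarith
  calc _ = ‖(L.submatrix s.2 id * Jm B (P.c t) i y).det‖ ^ 4 * k ^ 2 * 1 := by ring
    _ ≤ (c * m) ^ 4 * k ^ 2 * (4 * r ^ 2) := by gcongr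
    _ = 4 * c ^ 4 * (r ^ 2 * (m ^ 2 * k) ^ 2) := by ring
    _ ≤ _ := by gcongr

variable {K : Form11 A}

theorem rr_le (hK : IsKahler B K) (t : P.T) : ∃ C, 0 ≤ C ∧ ∀ x ∈ P.K t, ∀ i, ∀ y ∈ (A.C i).W,
    (A.p i y : X) = x → ∀ v,
      8 * ‖dc (rr P t) (B.z (P.c t) x) (Jm B (P.c t) i y *ᵥ v)‖ ^ 2 - 2 * rr P t (B.z (P.c t) x) *
        Lv (rr P t) (B.z (P.c t) x) (Jm B (P.c t) i y *ᵥ v) ≤
      C * ev11 (K.h i y) v (Complex.I • v) := by
  refine cpt_unif (fun C x => x ∈ P.K t → ∀ i, ∀ y ∈ (A.C i).W, (A.p i y : X) = x → ∀ v,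
      8 * ‖dc (rr P t) (B.z (P.c t) x) (Jm B (P.c t) i y *ᵥ v)‖ ^ 2 - 2 * rr P t (B.z (P.c t) x) *
        Lv (rr P t) (B.z (P.c t) x) (Jm B (P.c t) i y *ᵥ v) ≤
      C * ev11 (K.h i y) v (Complex.I • v)) (fun C C' x hC h h1 i y hy hp v =>
    (h h1 i y hy hp v).trans (mul_le_mul_of_nonneg_right hC (hK.nonneg hy v))) fun x => ?_
  by_cases hx : x ∈ P.K t
  swap
  · exact ⟨0, ((P.cpt t).isClosed.isOpen_compl.eventually_mem hx).mono fun x' h h' =>
      (h h').elim⟩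
  obtain ⟨α, hα, c, hc, C', hb⟩ := hK.near x
  obtain ⟨D, hD, hL⟩ := trans_jac hα (P.sub _ hx)
  obtain ⟨C, hC, he⟩ := err_bd (rr_smooth P t) (B.z (P.c t) x)
  refine ⟨C * (B.M α * D) ^ 2 / c, ?_⟩
  filter_upwards [hb, hL, ((B.cont _).continuousAt
    ((B.V_open _).mem_nhds (P.sub _ hx))).eventually he] with x' a1 a2 a3 _ i y hy hp v
  obtain ⟨L, b1, b2⟩ := a2 i y hy hp
  refine (a3 _).trans ?_
  have b3 := mulVec_le hD b1 (Jm B α i y *ᵥ v)
  rw [Matrix.mulVec_mulVec, ← b2] at b3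
  calc _ ≤ C * (B.M α * D * ‖Jm B α i y *ᵥ v‖) ^ 2 := by gcongr
    _ = C * (B.M α * D) ^ 2 / c * (c * ‖Jm B α i y *ᵥ v‖ ^ 2) := by field_simp
    _ ≤ _ := mul_le_mul_of_nonneg_left (a1.2 i y hy hp v).1 (by positivity)

theorem kw_sq (hK : IsKahler B K) (s : Ix P) : ∃ C, 0 ≤ C ∧ ∀ i, ∀ y ∈ (A.C i).W, ∀ v,
    Sq (fun y' => kw P s (A.p i y')) y v
      (C * (GG P (A.p i y) * ev11 (K.h i y) v (Complex.I • v))) := by
  obtain ⟨C₁, h₁, H₁⟩ := mn_le P s
  obtain ⟨C₂, h₂, H₂⟩ := rr_le P hK s.1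
  refine ⟨C₁ * C₂, by positivity, fun i y hy v => ?_⟩
  have g0 := (GG_pos P (A.p i y)).le
  have k0 := hK.nonneg hy v
  rcases kw_cases P s (A.p i y) with h | ⟨hx, h⟩
  · exact (sq_zero v (by positivity)).congr ((p_cont hy).eventually h)
  have hV := P.sub _ hx
  have hz := z_hol hy hV
  obtain ⟨O, hO, hOo, hyO⟩ := eventually_nhds_iff.1 hz
  have hs : ContDiffAt ℝ ∞ (fun y' => B.z (P.c s.1) (A.p i y')) y := (hol_smooth hOo fun y hy =>
    (hO y hy).differentiableWithinAt).2.1.contDiffAt (hOo.mem_nhds hyO)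
  have hf : ∀ᶠ y' in 𝓝 y, DifferentiableAt ℂ
      (fun y' => mn B (P.c s.1) s.2 (B.z (P.c s.1) (A.p i y'))) y' := by
    filter_upwards [hz, hs.continuousAt.eventually (mn_hol hV s.2)] with y' a1 a2 using
      DifferentiableAt.comp (g := mn B (P.c s.1) s.2) y' a2 a1
  refine ((sq_mul (r := fun y' => rr P s.1 (B.z (P.c s.1) (A.p i y')))
    ((rr_smooth P s.1).contDiffAt.comp y hs) hf v).congr ((p_cont hy).eventually h)).mono ?_
  rw [Lv_comp (f := rr P s.1) ((rr_smooth P s.1).contDiffAt.of_le (by norm_cast)) hz,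
    dc_comp (f := rr P s.1) ((rr_smooth P s.1).differentiable (by simp) _) hz.self_of_nhds,
    ← jac_mulVec]
  calc _ ≤ ‖mn B (P.c s.1) s.2 (B.z (P.c s.1) (A.p i y))‖ ^ 2 *
        (C₂ * ev11 (K.h i y) v (Complex.I • v)) :=
        mul_le_mul_of_nonneg_left (H₂ _ hx i y hy rfl v) (by positivity)
    _ ≤ C₁ * GG P (A.p i y) * (C₂ * ev11 (K.h i y) v (Complex.I • v)) :=
        mul_le_mul_of_nonneg_right (H₁ _ hx (A.p i y).2) (by positivity)
    _ = _ := by ring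

theorem exists_G (hK : IsKahler B K) : ∃ (G : X → ℝ) (C : ℝ), 0 ≤ C ∧ Continuous G ∧
    (∀ x, x ∉ R → G x = 0) ∧ (∀ x : R, 0 < G x) ∧ ∀ i, ∀ y ∈ (A.C i).W,
      ContDiffAt ℝ ∞ (fun y' => G (A.p i y')) y ∧ ∀ v, -(C * ev11 (K.h i y) v (Complex.I • v)) ≤
        Lv (fun y' => Real.log (G (A.p i y'))) y v := by
  obtain ⟨P⟩ := B.exists_cov
  choose C h0 hC using kw_sq P hK
  obtain ⟨C', hC'⟩ := Finite.exists_le C
  refine ⟨GG P, Fintype.card (Ix P) * |C'|, by positivity, GG_cont P, fun x => GG_sing P,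
    GG_pos P, fun i y hy => ⟨ContDiffAt.sum fun s _ => (hC s i y hy 0).1, fun v => ?_⟩⟩
  have g0 := GG_pos P (A.p i y)
  have k0 := hK.nonneg hy v
  have := log_sum (e := |C'| * (GG P (A.p i y) * ev11 (K.h i y) v (Complex.I • v)))
    (fun s => (hC s i y hy v).mono (mul_le_mul_of_nonneg_right
      ((hC' s).trans (le_abs_self _)) (by positivity))) g0
  refine le_of_eq_of_le ?_ this
  change _ = -(_ / GG P (A.p i y))
  field_simp

end Pool.Agent.ABK
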