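import Pool.Agent.P.MP_63735c_ag.SPLiou
import Pool.Agent.P.MP_63735c_ag.SPDat

/-! Norms of sections are constant along entire leaves. -/

open Set Filter Topology
open scoped ComplexOrder ContDiff Matrix

namespace Pool.Agent.SPF

variable {N n : ℕ} {X : Type} [TopologicalSpace X] {A : Atlas X N}

section
variable {O : TopologicalSpace.Opens (E n)}

/-- The exponential of a smooth function. -/
noncomputable def sectExp (a : Sm O) : Sm O :=
  Sm.mk (fun x => Complex.exp (a.fn x)) (a.smooth.cexp)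

lemma sect_ev_exp (a : Sm O) (x : O) : Sm.ev x (sectExp a) = Complex.exp (Sm.ev x a) := by
  rw [a.ev_eq]; rfl

lemma sect_der_exp (v : E n) (a : Sm O) : Sm.der v (sectExp a) = sectExp a * Sm.der v a := by
  ext x
  have := Sm.Rep.fderiv_eq (a := sectExp a) (f := fun y => Complex.exp (a.fn y))
    (fun _ => rfl) x (a.hasF x).cexp
  rw [map_mul, Sm.ev_der, Sm.ev_der, this, sect_ev_exp, a.ev_eq]
  rfl

lemma sect_d_exp (i : Fin n) (a : Sm O) : Sm.d i (sectExp a) = sectExp a * Sm.d i a := by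
  ext x
  simp only [Sm.d, Derivation.smul_apply, Derivation.sub_apply, sect_der_exp, map_smul, map_sub,
    map_mul, smul_eq_mul]
  ring

lemma sect_db_exp (i : Fin n) (a : Sm O) : Sm.db i (sectExp a) = sectExp a * Sm.db i a := by
  ext x
  simp only [Sm.db, Derivation.smul_apply, Derivation.add_apply, sect_der_exp, map_smul, map_add,
    map_mul, smul_eq_mul]
  ring

lemma sect_d_star (i : Fin n) (a : Sm O) : Sm.d i (star a) = star (Sm.db i a) := by
  have := Sm.star_d i (star a)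
  rw [star_star] at this
  rw [← this, star_star]

/-- The Levi form of `|a|^2 exp φ` for `a` holomorphic and `φ` real pluriharmonic. -/
lemma sect_levi {a φ : Sm O} (ha : ∀ i, Sm.db i a = 0) (hφ : star φ = φ)
    (h : ∀ i j, Sm.d i (Sm.db j φ) = 0) (i j : Fin n) :
    Sm.d i (Sm.db j (a * star a * sectExp φ)) =
      sectExp φ * ((Sm.d i a + a * Sm.d i φ) * star (Sm.d j a + a * Sm.d j φ)) := by
  have h1 : ∀ i, Sm.d i (star a) = 0 := fun i => by rw [sect_d_star, ha, star_zero]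
  have h2 : Sm.d i (Sm.db j (star a)) = 0 := by rw [Sm.d_db, h1, map_zero]
  have h3 : star (Sm.d j a + a * Sm.d j φ) = Sm.db j (star a) + star a * Sm.db j φ := by
    rw [star_add, star_mul', Sm.star_d, Sm.star_d, hφ]
  rw [h3]
  simp only [Derivation.leibniz, smul_eq_mul, map_add, ha, h1, h2, h, sect_d_exp, sect_db_exp,
    map_zero]
  ring

lemma sect_levi_nonneg {a φ : Sm O} (ha : ∀ i, Sm.db i a = 0) (hφ : star φ = φ)
    (h : ∀ i j, Sm.d i (Sm.db j φ) = 0) (x : O) (v : E n) :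
    0 ≤ (∑ i, ∑ j, v i * star (v j) *
      Sm.ev x (Sm.d i (Sm.db j (a * star a * sectExp φ)))).re := by
  set b : Fin n → ℂ := fun i => Sm.ev x (Sm.d i a + a * Sm.d i φ) with hb
  have h1 : ∑ i, ∑ j, v i * star (v j) * Sm.ev x (Sm.d i (Sm.db j (a * star a * sectExp φ))) =
      Complex.exp (Sm.ev x φ) * ((∑ i, v i * b i) * star (∑ j, v j * b j)) := by
    rw [star_sum, Finset.sum_mul_sum, Finset.mul_sum]
    refine Finset.sum_congr rfl fun i _ => ?_
    rw [Finset.mul_sum]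
    refine Finset.sum_congr rfl fun j _ => ?_
    rw [sect_levi ha hφ h, map_mul, map_mul, Sm.ev_star, sect_ev_exp, star_mul']
    simp only [hb]
    ring
  have h2 : Sm.ev x φ = ((Sm.ev x φ).re : ℂ) := by
    have : star (Sm.ev x φ) = Sm.ev x φ := by rw [← Sm.ev_star, hφ]
    exact (Complex.conj_eq_iff_re.1 this).symm
  rw [h1, h2, ← Complex.ofReal_exp, Complex.star_def, Complex.mul_conj, ← Complex.ofReal_mul,
    Complex.ofReal_re]
  exact mul_nonneg (Real.exp_pos _).le (Complex.normSq_nonneg _)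

end

/-- A section norm is continuous. -/
lemma sect_cont {k : ℝ} {u : X → ℝ} (hu : A.IsSectionNorm k u) : Continuous u := by
  refine continuous_iff_continuousAt.2 fun x => ?_
  obtain ⟨i, z, hz, rfl⟩ := A.cover x
  obtain ⟨O, ψ, F, hO, hzO, hsub, hψ, hF, h⟩ := hu i z hz
  have hc : ContinuousOn (fun w => u (A.p i w)) O :=
    ((hF.continuousOn.norm.pow 2).mul
      (Real.continuous_exp.comp_continuousOn (continuousOn_const.mul hψ.continuousOn))).congr
      fun w hw => (h w hw).2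
  intro V hV
  obtain ⟨V', hV', hV'o, hm⟩ := mem_nhds_iff.1 hV
  have h1 : IsOpen (O ∩ (fun w => u (A.p i w)) ⁻¹' V') := hc.isOpen_inter_preimage hO hV'o
  refine mem_map.2 (mem_nhds_iff.2 ⟨A.p i '' (O ∩ (fun w => u (A.p i w)) ⁻¹' V'), ?_,
    A.opn i _ h1 (inter_subset_left.trans hsub), z, ⟨hzO, hm⟩, rfl⟩)
  rintro _ ⟨w, hw, rfl⟩
  exact hV' hw.2

/-- The local form of a section norm along a leaf. -/
lemma sect_local {Φ : E n → X} (hΦ : A.IsLeafMap Φ) {k : ℝ} {u : X → ℝ}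
    (hu : A.IsSectionNorm k u) (t : E n) :
    ∃ (O : TopologicalSpace.Opens (E n)) (a φ : Sm O), t ∈ O ∧ (∀ i, Sm.db i a = 0) ∧
      star φ = φ ∧ (∀ i j, Sm.d i (Sm.db j φ) = 0) ∧
      (a * star a * sectExp φ).Rep fun s => (u (Φ s) : ℂ) := by
  obtain ⟨i, O₁, f, hO₁, ht, hf, h₁⟩ := hΦ t
  obtain ⟨O₂, ψ, F, hO₂, hz, -, hψ, hF, h₂⟩ := hu i (f t) (h₁ t ht).1
  let O : TopologicalSpace.Opens (E n) :=
    ⟨O₁ ∩ f ⁻¹' O₂, hf.continuousOn.isOpen_inter_preimage hO₁ hO₂⟩
  let Q : TopologicalSpace.Opens (E N) := ⟨O₂, hO₂⟩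
  have hf' : DifferentiableOn ℂ f O := hf.mono inter_subset_left
  have hm : MapsTo f O Q := fun _ hs => hs.2
  have hψ' : ContDiffOn ℝ ∞ (fun x => (ψ x : ℂ)) Q :=
    Complex.ofRealCLM.contDiff.comp_contDiffOn hψ
  let ψs : Sm Q := Sm.mk _ hψ'
  let Fs : Sm Q := Sm.mkH F hF
  have rψ : ψs.Rep fun x => (ψ x : ℂ) := Sm.rep_mk _ hψ'
  have rF : Fs.Rep F := Sm.rep_mkH F hF
  have hst : star ψs = ψs := by
    ext x
    rw [Sm.ev_star, rψ x]
    exact Complex.conj_ofReal _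
  have hη : ∀ c e (x : Q), Sm.ev x (Sm.d e (Sm.db c ψs)) = (A.C i).η x e c := by
    intro c e x
    have r1 : (Sm.db c ψs).Rep fun y => star (dz c (fun x => (ψ x : ℂ)) y) := fun y => by
      rw [← hst, ← Sm.star_d, Sm.ev_star, rψ.d c y]
    rw [r1.d e x]
    exact (h₂ x x.2).1 e c
  have hnull : ∀ (x : O) a c, ∑ e, jac f x e a * (A.C i).η (f x) e c = 0 := by
    intro x a c
    have h3 : fderiv ℂ f x (Pi.single a 1) ∈ (A.C i).null (f x) := by
      rw [← (h₁ x x.2.1).2.2.2]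
      exact ⟨Pi.single a 1, rfl⟩
    exact congrFun (LinearMap.mem_ker.1 h3) c
  have hdd : ∀ a b, Sm.d a (Sm.db b (Sm.pull f hf' hm ψs)) = 0 := by
    intro a b
    rw [Sm.db_pull, map_sum]
    refine Finset.sum_eq_zero fun c _ => ?_
    rw [Derivation.leibniz, sect_d_star, Sm.db_J, star_zero, smul_zero, add_zero, Sm.d_pull]
    have h4 : ∑ e, Sm.J f hf' e a * Sm.pull f hf' hm (Sm.d e (Sm.db c ψs)) = 0 := by
      ext x
      rw [map_sum, map_zero, ← hnull x a c]
      refine Finset.sum_congr rfl fun e _ => ?_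
      rw [map_mul, Sm.ev_J, Sm.ev_pull, hη]
    rw [h4, smul_zero]
  refine ⟨O, Sm.pull f hf' hm Fs, (-k : ℂ) • Sm.pull f hf' hm ψs, ⟨ht, hz⟩, fun j => ?_, ?_,
    fun a b => ?_, fun x => ?_⟩
  · rw [Sm.db_pull]
    refine Finset.sum_eq_zero fun c _ => ?_
    rw [rF.db_eq_zero hF c, map_zero, mul_zero]
  · ext x
    rw [Sm.ev_star, map_smul, rψ.pull hf' hm x, smul_eq_mul, ← Complex.ofReal_neg,
      ← Complex.ofReal_mul]
    exact Complex.conj_ofReal _
  · rw [Derivation.map_smul, Derivation.map_smul, hdd, smul_zero]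
  · rw [map_mul, map_mul, Sm.ev_star, sect_ev_exp, map_smul, rψ.pull hf' hm x, rF.pull hf' hm x,
      smul_eq_mul, Complex.star_def, Complex.mul_conj, ← Complex.ofReal_neg, ← Complex.ofReal_mul,
      ← Complex.ofReal_exp, ← Complex.ofReal_mul, Complex.normSq_eq_norm_sq,
      ← (h₂ (f x) x.2.2).2, (h₁ x x.2.1).2.1]

theorem Atlas.IsLeafMap.sect_const [CompactSpace X] {Φ : E n → X} (hΦ : A.IsLeafMap Φ) {k : ℝ}
    {u : X → ℝ} (hu : A.IsSectionNorm k u) (t : E n) : u (Φ t) = u (Φ 0) := by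
  obtain ⟨M, hM⟩ := (isCompact_range (sect_cont hu)).bddAbove
  refine psh_const (u := fun s => u (Φ s)) (M := M) (contDiff_iff_contDiffAt.2 fun s => ?_)
    (fun s => hM ⟨Φ s, rfl⟩) (fun s v => ?_) t 0
  · obtain ⟨O, a, φ, hs, -, -, -, hr⟩ := sect_local hΦ hu s
    exact Complex.reCLM.contDiff.contDiffAt.comp s (hr.contDiffAt ⟨s, hs⟩)
  · obtain ⟨O, a, φ, hs, ha, hφ, h, hr⟩ := sect_local hΦ hu s
    have := sect_levi_nonneg ha hφ h ⟨s, hs⟩ v
    simpa only [((hr.db _).d _) ⟨s, hs⟩] using this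

end Pool.Agent.SPF
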