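import Pool.Agent.P.MP_63735c_ag.ABK3
import Pool.Agent.P.MP_63735c_ag.ABApp
import Pool.Agent.P.MP_63735c_ag.ABGam
import Pool.Agent.P.MP_63735c_ag.CKForm
import Pool.Agent.P.MP_63735c_ag.SPSect

/-! An exhaustion of the set where a section does not vanish. -/

open Set Filter Topology
open scoped ContDiff Matrix ComplexOrder

namespace Pool.Agent.AB

open Pool.Agent.SPF Pool.Agent.CL Pool.Agent.NL Pool.Agent.CK Pool.Agent.CS Pool.Agent.ABK

variable {N : ℕ}

section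
variable {Y : Type} [TopologicalSpace Y] {A : Atlas Y N} {k : ℝ} {u : Y → ℝ}

theorem sect_nonneg (hu : A.IsSectionNorm k u) (x : Y) : 0 ≤ u x := by
  obtain ⟨i, z, hz, rfl⟩ := A.cover x
  obtain ⟨O, ψ, F, -, hzO, -, -, -, h⟩ := hu i z hz
  rw [(h z hzO).2]
  positivity

theorem sect_open (hu : A.IsSectionNorm k u) : IsOpen {x | u x ≠ 0} :=
  isOpen_ne_fun (sect_cont hu) continuous_const

/-- The logarithm of a section norm and its Levi form. -/
theorem lev_log_sect (hu : A.IsSectionNorm k u) {i : A.ι} {z : E N} (hz : z ∈ (A.C i).W)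
    (h0 : u (A.p i z) ≠ 0) : ContDiffAt ℝ ∞ (fun y => Real.log (u (A.p i y))) z ∧
      lev (fun y => Real.log (u (A.p i y))) z = ((-k : ℝ) : ℂ) • (A.C i).η z := by
  obtain ⟨O, ψ, F, hO, hzO, -, hψ, hF, h⟩ := hu i z hz
  have hn := hO.mem_nhds hzO
  have h1 : F z ≠ 0 := fun e => h0 (by rw [(h z hzO).2, e]; simp)
  obtain ⟨h2, h3⟩ := lev_log_norm (F := F)
    ((hO.eventually_mem hzO).mono fun y hy => hF.differentiableAt (hO.mem_nhds hy)) h1
  have h4 : (fun y => Real.log (u (A.p i y))) =ᶠ[𝓝 z]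
      fun y => 2 * Real.log ‖F y‖ + -k * ψ y := by
    filter_upwards [hn, (hF.continuousOn.continuousAt hn).eventually_ne h1] with y hy hy'
    rw [(h y hy).2, Real.log_mul (pow_ne_zero 2 (norm_ne_zero_iff.2 hy')) (Real.exp_ne_zero _),
      Real.log_exp, Real.log_pow]
    norm_num
  have h5 := hψ.contDiffAt hn
  have h6 : lev ψ z = (A.C i).η z := Matrix.ext (h z hzO).1
  refine ⟨((contDiffAt_const.mul h2).add (contDiffAt_const.mul h5)).congr_of_eventuallyEq h4, ?_⟩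
  rw [(lev_congr h4).self_of_nhds, lev_add (contDiffAt_const.mul h2) (contDiffAt_const.mul h5),
    lev_smul h2, lev_smul h5, h3, h6, smul_zero, zero_add]

end

theorem ev11_hq (h : Mat N) (v : E N) : ev11 h v (Complex.I • v) = 2 * (hq h v v).re := ev11_I h v

variable {X : Type} [TopologicalSpace X] [T2Space X] [CompactSpace X] {R : Set X} {A : Atlas R N}
  {B : Amb R A} {K : Form11 A} {k : ℝ} {u : R → ℝ}

theorem exists_psi (hK : IsKahler B K) (hu : A.IsSectionNorm k u) {b : ℝ} (hb : ∀ x, u x ≤ b) :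
    ∃ (ψ : R → ℝ) (C : ℝ), 0 ≤ C ∧ (∀ x, u x ≠ 0 → 1 ≤ ψ x) ∧
      (∀ c, ∃ S, IsCompact S ∧ (∀ x ∈ S, u x ≠ 0) ∧ ∀ x ∉ S, u x ≠ 0 → c < ψ x) ∧
      ∀ i, ∀ z ∈ (A.C i).W, u (A.p i z) ≠ 0 → ContDiffAt ℝ ∞ (fun y => ψ (A.p i y)) z ∧
        ∀ v, (hq (lev (fun y => ψ (A.p i y)) z) v v).re ≤ C * (hq (K.h i z) v v).re := by
  obtain ⟨G, C, hC, hG, h0, hp, H⟩ := exists_G hK
  obtain ⟨C', hC', H'⟩ := hK.bd11
  obtain ⟨g, hg⟩ := (isCompact_range hG).bddAbove
  have hg' : ∀ x, G x ≤ |g| + 1 := fun x => (hg ⟨x, rfl⟩).trans (by linarith [le_abs_self g])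
  have hb' : ∀ x, u x ≤ |b| + 1 := fun x => (hb x).trans (by linarith [le_abs_self b])
  have g0 : 0 < |g| + 1 := by positivity
  have b0 : 0 < |b| + 1 := by positivity
  generalize |g| + 1 = g at hg' g0
  generalize |b| + 1 = b at hb' b0
  have hup : ∀ x, u x ≠ 0 → 0 < u x := fun x h => (sect_nonneg hu x).lt_of_ne' h
  refine ⟨fun x => (Real.log g + Real.log b + 1) + (-1 * Real.log (G x) + -1 * Real.log (u x)),
    C / 2 + |k| * C', by positivity, fun x hx => ?_, fun c => ?_, fun i z hz hx => ?_⟩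
  · have := Real.log_le_log (hp x) (hg' x)
    have := Real.log_le_log (hup x hx) (hb' x)
    linarith
  · obtain ⟨a, ha⟩ : ∃ a, a = Real.exp (Real.log g + Real.log b + 1 - c) := ⟨_, rfl⟩
    have a0 : 0 < a := ha ▸ Real.exp_pos _
    have h1 : IsCompact {x : R | a / b ≤ G x} := by
      refine IsInducing.subtypeVal.isCompact_preimage' (K := {x | a / b ≤ G x})
        (isClosed_le continuous_const hG).isCompact fun x hx => ⟨⟨x, ?_⟩, rfl⟩
      by_contra hn
      exact (le_of_le_of_eq hx (h0 x hn)).not_gt (div_pos a0 b0)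
    refine ⟨{x | a ≤ G x * u x}, h1.of_isClosed_subset (isClosed_le continuous_const
      ((hG.comp continuous_subtype_val).mul (sect_cont hu))) fun x hx => ?_, fun x hx e => ?_,
      fun x hx h => ?_⟩
    · exact (div_le_iff₀ b0).2 (le_trans hx (mul_le_mul_of_nonneg_left (hb' x) (hp x).le))
    · have : a ≤ G x * u x := hx
      rw [e, mul_zero] at this
      exact this.not_gt a0
    · have h2 := Real.log_lt_log (mul_pos (hp x) (hup x h)) (not_le.1 hx)
      rw [Real.log_mul (hp x).ne' h, ha, Real.log_exp] at h2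
      linarith
  · have s1 : ∀ y ∈ (A.C i).W, ContDiffAt ℝ ∞ (fun y => Real.log (G (A.p i y))) y := fun y hy =>
      (H i y hy).1.log (hp _).ne'
    obtain ⟨s2, e2⟩ := lev_log_sect hu hz hx
    have s3 := (contDiffAt_const (c := (-1 : ℝ))).mul (s1 z hz)
    have s4 := (contDiffAt_const (c := (-1 : ℝ))).mul s2
    refine ⟨contDiffAt_const.add (s3.add s4), fun v => ?_⟩
    have e1 := Lv_levi (A := A) (φ := fun x => Real.log (G x))
      (fun y hy => (s1 y hy).contDiffWithinAt) hz v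
    have e3 := (H i z hz).2 v
    have e4 := H' i z hz v
    rw [e1] at e3
    rw [lev_add contDiffAt_const (s3.add s4), lev_const, zero_add, lev_add s3 s4,
      lev_smul (s1 z hz), lev_smul s2, e2, smul_smul, ← Complex.ofReal_mul, hq_add, hq_smul,
      hq_smul, Complex.add_re, Complex.re_ofReal_mul, Complex.re_ofReal_mul]
    simp only [ev11_hq] at e3 e4
    change _ ≤ 2 * (2 * (hq (lev (fun y => Real.log (G (A.p i y))) z) v v).re) at e3
    have k0 := hq_nonneg (hK.posDef i z hz).posSemidef v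
    have e5 : k * (2 * (hq ((A.C i).η z) v v).re) ≤ |k| * (C' * (2 * (hq (K.h i z) v v).re)) :=
      (le_abs_self _).trans ((abs_mul _ _).trans_le (by gcongr))
    nlinarith

theorem exists_lam (hK : IsKahler B K) (hu : A.IsSectionNorm k u) {b : ℝ} (hb : ∀ x, u x ≤ b) :
    ∃ (l : R → ℝ) (C : ℝ), 0 ≤ C ∧ (∀ x, u x ≠ 0 → 0 ≤ l x) ∧
      (∀ c, ∃ S, IsCompact S ∧ (∀ x ∈ S, u x ≠ 0) ∧ ∀ x ∉ S, u x ≠ 0 → c < l x) ∧
      ∀ i, ∀ z ∈ (A.C i).W, u (A.p i z) ≠ 0 → ContDiffAt ℝ ∞ (fun y => l (A.p i y)) z ∧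
        ∀ v, (hq (lev (fun y => l (A.p i y)) z) v v).re +
          ‖v ⬝ᵥ dr (fun y => l (A.p i y)) z‖ ^ 2 ≤ C * (hq (K.h i z) v v).re := by
  obtain ⟨ψ, C, hC, h1, h2, h3⟩ := exists_psi hK hu hb
  refine ⟨fun x => Real.log (ψ x), C, hC, fun x hx => Real.log_nonneg (h1 x hx), fun c => ?_,
    fun i z hz hx => ?_⟩
  · obtain ⟨S, a1, a2, a3⟩ := h2 (Real.exp c)
    exact ⟨S, a1, a2, fun x hx h => (Real.lt_log_iff_exp_lt (one_pos.trans_le (h1 x h))).2
      (a3 x hx h)⟩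
  · obtain ⟨s, e⟩ := h3 i z hz hx
    have p1 := h1 _ hx
    have p0 : ψ (A.p i z) ≠ 0 := by linarith
    refine ⟨s.log p0, fun v => ?_⟩
    rw [lev_chain (f := fun y => ψ (A.p i y)) (ρ := Real.log) (ρ₁ := fun y => y⁻¹)
      ((eventually_ne_nhds p0).mono fun y hy => Real.hasDerivAt_log hy) (hasDerivAt_inv p0) s,
      dr_chain (f := fun y => ψ (A.p i y)) (Real.hasDerivAt_log p0) (s.differentiableAt (by simp)),
      dotProduct_smul, norm_smul, mul_pow, Complex.norm_real, Real.norm_eq_abs, sq_abs, inv_pow]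
    have k0 := mul_nonneg hC (hq_nonneg (hK.posDef i z hz).posSemidef v)
    have := (mul_le_mul_of_nonneg_left (e v) (inv_nonneg.2 (zero_le_one.trans p1))).trans
      (mul_le_of_le_one_left k0 (inv_le_one_of_one_le₀ p1))
    linarith

end Pool.Agent.AB
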