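import Pool.Agent.P.MP_63735c_ag.ABK4

/-! Cutoff functions with small Levi form. -/

open Set Filter Topology
open scoped ContDiff Matrix ComplexOrder

namespace Pool.Agent.AB

open Pool.Agent.SPF Pool.Agent.CL Pool.Agent.NL Pool.Agent.CK Pool.Agent.CS Pool.Agent.ABK

variable {N : ℕ}

theorem abk_step : ∃ (s₁ s₂ : ℝ → ℝ) (D : ℝ), 0 ≤ D ∧
    (∀ t, HasDerivAt Real.smoothTransition (s₁ t) t ∧ HasDerivAt s₁ (s₂ t) t) ∧
    ∀ t ≤ 2, |s₁ t| ≤ D ∧ |s₂ t| ≤ D := by
  have h0 : ContDiff ℝ ∞ Real.smoothTransition := Real.smoothTransition.contDiff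
  have h1 : ContDiff ℝ ∞ (deriv Real.smoothTransition) := (contDiff_infty_iff_deriv.1 h0).2
  have h2 : Continuous (deriv (deriv Real.smoothTransition)) := h1.continuous_deriv (by simp)
  obtain ⟨D₁, H₁⟩ := (isCompact_Icc (a := (0 : ℝ)) (b := 2)).exists_bound_of_continuousOn
    h1.continuous.continuousOn
  obtain ⟨D₂, H₂⟩ := (isCompact_Icc (a := (0 : ℝ)) (b := 2)).exists_bound_of_continuousOn
    h2.continuousOn
  have a₁ := abs_nonneg D₁
  have a₂ := abs_nonneg D₂
  refine ⟨_, _, |D₁| + |D₂|, by positivity, fun t =>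
    ⟨(h0.differentiable (by simp) t).hasDerivAt, (h1.differentiable (by simp) t).hasDerivAt⟩,
    fun t ht => ?_⟩
  rcases le_or_gt 0 t with h | h
  · exact ⟨(H₁ t ⟨h, ht⟩).trans (by linarith [le_abs_self D₁]),
      (H₂ t ⟨h, ht⟩).trans (by linarith [le_abs_self D₂])⟩
  · have e : Real.smoothTransition =ᶠ[𝓝 t] fun _ => 0 :=
      (eventually_lt_nhds h).mono fun y hy => Real.smoothTransition.zero_of_nonpos hy.le
    rw [e.deriv_eq, e.deriv.deriv_eq]
    simp only [deriv_const', deriv_const, abs_zero]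
    exact ⟨by positivity, by positivity⟩

/-- A function with large compact sublevel sets gives cutoff functions. -/
theorem cut_of_lam {Y : Type} [TopologicalSpace Y] {D : Man Y N} {K : D.ι → E N → Mat N}
    {l : Y → ℝ} {C : ℝ} (hC : 0 ≤ C) (hl : D.Smo l) (h0 : ∀ x ∈ D.M, 0 ≤ l x)
    (hc : ∀ c, ∃ S, IsCompact S ∧ S ⊆ D.M ∧ ∀ x ∉ S, x ∈ D.M → c < l x)
    (hK : ∀ i, ∀ z ∈ D.W i, ∀ v, |(hq (D.levG l i z) v v).re| ≤ C * (hq (K i z) v v).re ∧
      ‖v ⬝ᵥ dr (fun y => l (D.p i y)) z‖ ^ 2 ≤ (hq (K i z) v v).re) : D.Cut K := by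
  intro S hS hSM ε hε
  obtain ⟨s₁, s₂, d, hd, hs, hb⟩ := abk_step
  have hlc : ContinuousOn l D.M := Man.contOn fun i => (hl i).continuousOn
  obtain ⟨L, hL⟩ := hS.exists_bound_of_continuousOn (hlc.mono hSM)
  obtain ⟨r, hr⟩ : ∃ r : ℝ, r = |L| + 1 + d * (C + 1) / ε := ⟨_, rfl⟩
  have q0 : 0 ≤ d * (C + 1) / ε := by positivity
  have r1 : 1 ≤ r := by linarith [abs_nonneg L]
  have r0 : 0 < r := by linarith
  have he : ∀ i, ∀ z ∈ D.W i, (fun y => D.M.indicator
      (fun x => Real.smoothTransition (2 - r⁻¹ * l x)) (D.p i y)) =ᶠ[𝓝 z]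
      fun y => Real.smoothTransition (2 - r⁻¹ * l (D.p i y)) := fun i z hz =>
    ((D.isOpen i).eventually_mem hz).mono fun y hy => indicator_of_mem (Man.mem_M hy) _
  refine ⟨D.M.indicator fun x => Real.smoothTransition (2 - r⁻¹ * l x), ⟨fun i => ?_, ?_⟩,
    fun x => ?_, fun x hx => ?_, fun i z hz v => ?_⟩
  · exact (Real.smoothTransition.contDiff.comp_contDiffOn
      (contDiffOn_const.sub (contDiffOn_const.mul (hl i)))).congr fun z hz =>
        (he i z hz).self_of_nhds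
  · obtain ⟨T, a1, a2, a3⟩ := hc (r * 2)
    refine ⟨T, a1, a2, fun x hx => indicator_apply_eq_zero.2 fun h => ?_⟩
    exact Real.smoothTransition.zero_of_nonpos
      (sub_nonpos.2 ((le_inv_mul_iff₀ r0).2 (a3 x hx h).le))
  · exact ⟨indicator_nonneg (fun _ _ => Real.smoothTransition.nonneg _) x,
      indicator_apply_le' (fun _ => Real.smoothTransition.le_one _) fun _ => zero_le_one⟩
  · have hn := D.isOpen_M.mem_nhds (hSM hx)
    have h1 : l x < r := by linarith [le_abs_self (l x), le_abs_self L, show |l x| ≤ L from hL x hx]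
    filter_upwards [hn, (hlc.continuousAt hn).eventually (gt_mem_nhds h1)] with y a1 a2
    rw [indicator_of_mem a1]
    refine Real.smoothTransition.one_of_one_le ?_
    have := (inv_mul_le_iff₀ r0).2 (a2.le.trans_eq (mul_one r).symm)
    linarith
  · have hlin : ∀ t : ℝ, HasDerivAt (fun t => 2 - r⁻¹ * t) (-r⁻¹) t := fun t => by
      simpa using ((hasDerivAt_id t).const_mul r⁻¹).const_sub 2
    rw [Man.levG, (lev_congr (he i z hz)).self_of_nhds,
      lev_chain (f := fun y => l (D.p i y)) (ρ := fun t => Real.smoothTransition (2 - r⁻¹ * t))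
        (ρ₁ := fun t => s₁ (2 - r⁻¹ * t) * -r⁻¹)
        (Eventually.of_forall fun t => (hs _).1.comp t (hlin t))
        (((hs _).2.comp _ (hlin _)).mul_const _)
        ((hl i).contDiffAt ((D.isOpen i).mem_nhds hz))]
    obtain ⟨b1, b2⟩ := hb (2 - r⁻¹ * l (D.p i z))
      (sub_le_self _ (mul_nonneg (inv_nonneg.2 r0.le) (h0 _ (Man.mem_M hz))))
    obtain ⟨b3, b4⟩ := hK i z hz v
    rw [Man.levG] at b3
    generalize s₁ (2 - r⁻¹ * l (D.p i z)) = a at *
    generalize s₂ (2 - r⁻¹ * l (D.p i z)) = b at *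
    generalize (hq (lev (fun y => l (D.p i y)) z) v v).re = m at *
    generalize (hq (K i z) v v).re = κ at *
    have n0 := sq_nonneg ‖v ⬝ᵥ dr (fun y => l (D.p i y)) z‖
    generalize ‖v ⬝ᵥ dr (fun y => l (D.p i y)) z‖ ^ 2 = n at *
    have k0 : 0 ≤ κ := n0.trans b4
    have t0 : 0 < r⁻¹ := inv_pos.2 r0
    have t1 : r⁻¹ ≤ 1 := inv_le_one_of_one_le₀ r1
    have t2 : r⁻¹ * (d * (C + 1)) ≤ ε := by
      rw [inv_mul_le_iff₀ r0, ← div_le_iff₀ hε]
      linarith [abs_nonneg L]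
    have c1 : -(a * m) ≤ d * (C * κ) :=
      (neg_le_abs _).trans ((abs_mul _ _).trans_le (by gcongr))
    have c2 : b * n * r⁻¹ ≤ d * κ * 1 := by
      have := (le_abs_self b).trans b2
      calc _ ≤ d * n * r⁻¹ := by gcongr
        _ ≤ _ := by gcongr
    calc _ = r⁻¹ * (-(a * m) + b * n * r⁻¹) := by ring
      _ ≤ r⁻¹ * (d * (C * κ) + d * κ * 1) := by gcongr
      _ = r⁻¹ * (d * (C + 1)) * κ := by ring
      _ ≤ _ := by gcongr

variable {X : Type} [TopologicalSpace X] [T2Space X] [CompactSpace X] {R : Set X} {A : Atlas R N}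
  {B : Amb R A} {K : Form11 A} {k : ℝ} {u : R → ℝ}

theorem exists_cut (hinj : ∀ i, InjOn (A.p i) (A.C i).W) (hK : IsKahler B K)
    (hu : A.IsSectionNorm k u) {b : ℝ} (hb : ∀ x, u x ≤ b) :
    ∃ K' : A.ι → E N → Mat N, (∀ i, Kah ((man A hinj (sect_open hu)).W i) (K' i)) ∧
      (man A hinj (sect_open hu)).Cpt K' ∧ (man A hinj (sect_open hu)).Cut K' := by
  obtain ⟨l, C, hC, h0, hc, H⟩ := exists_lam hK hu hb
  have hl : (man A hinj (sect_open hu)).Smo l := fun i z hz =>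
    (H i z hz.1 hz.2).1.contDiffWithinAt
  have hv : ∀ i z v, (hq (((C + 1 : ℝ) : ℂ) • K.h i z +
      ((-1 : ℝ) : ℂ) • lev (fun y => l (A.p i y)) z) v v).re =
      (C + 1) * (hq (K.h i z) v v).re - (hq (lev (fun y => l (A.p i y)) z) v v).re := by
    intro i z v
    rw [hq_add, hq_smul, hq_smul, Complex.add_re, Complex.re_ofReal_mul, Complex.re_ofReal_mul]
    ring
  refine ⟨fun i z => ((C + 1 : ℝ) : ℂ) • K.h i z + ((-1 : ℝ) : ℂ) • lev (fun y => l (A.p i y)) z,
    fun i => ?_, fun i j z hz φ hφ => ?_, cut_of_lam (C := C + 1) (by linarith) hl ?_ ?_ ?_⟩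
  · have hW := (man A hinj (sect_open hu)).isOpen i
    have s1 : ∀ a b, ContDiffOn ℝ ∞ (fun z => K.h i z a b) ((man A hinj (sect_open hu)).W i) :=
      fun a b => (K.smooth i a b).mono inter_subset_left
    have s2 := lev_smooth hW (hl i)
    refine ⟨fun a b => (contDiffOn_const.mul (s1 a b)).add (contDiffOn_const.mul (s2 a b)),
      fun z hz => posDef_of_hq ?_ fun v hv0 => ?_, fun z hz a b c => ?_⟩
    · exact ((K.herm i z hz.1).smul (Complex.conj_ofReal _)).add
        ((lev_herm (H i z hz.1 hz.2).1).smul (Complex.conj_ofReal _))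
    · have := (H i z hz.1 hz.2).2 v
      have := hq_pos (hK.posDef i z hz.1) hv0
      rw [hv]
      nlinarith [sq_nonneg ‖v ⬝ᵥ dr (fun y => l (A.p i y)) z‖]
    · have key : ∀ a b c, dz c (fun w => (((C + 1 : ℝ) : ℂ) • K.h i w +
          ((-1 : ℝ) : ℂ) • lev (fun y => l (A.p i y)) w) a b) z =
          ((C + 1 : ℝ) : ℂ) * dz c (fun w => K.h i w a b) z +
            ((-1 : ℝ) : ℂ) * dz c (fun w => lev (fun y => l (A.p i y)) w a b) z := by
        intro a b c
        have d1 := diffAt hW (s1 a b) hz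
        have d2 := diffAt hW (s2 a b) hz
        refine (dz_add (d1.const_mul _) (d2.const_mul _) c).1.trans ?_
        rw [(dz_mul (differentiableAt_const _) d1 c).1, (dz_mul (differentiableAt_const _) d2 c).1,
          (dz_const c _).1, (dz_const c _).1, zero_mul, zero_mul, zero_add, zero_add]
        rfl
      rw [key, key, K.closed i z hz.1, lev_closed (H i z hz.1 hz.2).1]
  · have e1 := man_cpt_form (hinj := hinj) (hM := sect_open hu) K i j z hz φ hφ
    have e2 := Man.levG_cpt hl i j z hz φ hφ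
    simp only [Matrix.mul_add, Matrix.add_mul, Matrix.mul_smul, Matrix.smul_mul]
    rw [← e1]
    exact congrArg (fun m => ((C + 1 : ℝ) : ℂ) • K.h i z + ((-1 : ℝ) : ℂ) • m) e2
  · rw [man_M]
    exact h0
  · rw [man_M]
    exact hc
  · intro i z hz v
    have a1 := (H i z hz.1 hz.2).2 v
    have a2 := hq_nonneg (hK.posDef i z hz.1).posSemidef v
    have a3 := sq_nonneg ‖v ⬝ᵥ dr (fun y => l (A.p i y)) z‖
    rw [hv]
    change |(hq (lev (fun y => l (A.p i y)) z) v v).re| ≤ _ ∧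
      ‖v ⬝ᵥ dr (fun y => l (A.p i y)) z‖ ^ 2 ≤ _
    generalize (hq (lev (fun y => l (A.p i y)) z) v v).re = m at *
    generalize (hq (K.h i z) v v).re = κ at *
    generalize ‖v ⬝ᵥ dr (fun y => l (A.p i y)) z‖ ^ 2 = n at *
    have a4 : κ ≤ (C + 1) * κ - m := by linarith
    have a5 := mul_le_mul_of_nonneg_left a4 hC
    have a6 := mul_nonneg hC a2
    exact ⟨abs_le.2 ⟨by nlinarith, by nlinarith⟩, by linarith⟩

end Pool.Agent.AB
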