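import Pool.Agent.P.MP_63735c_ag.ABLC1

/-! Approximation by exact smooth fields. -/

open scoped ComplexOrder ContDiff Matrix Topology ENNReal
open Set Metric MeasureTheory Filter

namespace Pool.Agent.AB

open Pool.Agent.SPF

variable {N : ℕ} {W C₀ : Set (E N)} {Ψ : E N → ℝ} {K : E N → Mat N} {h : E N → ℂ}

theorem ablc2_small {a γ : ℝ} (ha : 0 ≤ a) (hγ : 0 < γ) :
    ∃ t : ℝ, 0 < t ∧ a * t ≤ γ ∧ a * t ^ 2 ≤ γ := by
  have h1 : a * min 1 (γ / (a + 1)) ≤ γ := by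
    refine (mul_le_mul_of_nonneg_left (min_le_right _ _) ha).trans ?_
    rw [← mul_div_assoc, div_le_iff₀ (by positivity)]
    nlinarith
  have h0 : 0 < min 1 (γ / (a + 1)) := lt_min one_pos (by positivity)
  refine ⟨_, h0, h1, le_trans ?_ h1⟩
  rw [sq, ← mul_assoc]
  exact mul_le_of_le_one_right (by positivity) (min_le_left _ _)

theorem ablc2_min {κ : Type} [Fintype κ] (D : κ → ℝ) (hD : ∀ k, 0 < D k) :
    ∃ d : ℝ, 0 < d ∧ ∀ k, d ≤ D k := by
  obtain ⟨d, h1, h2⟩ := (finite_range D).isCompact.exists_forall_le' (f := id) (a := 0)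
    continuousOn_id (by rintro _ ⟨k, rfl⟩; exact hD k)
  exact ⟨d, h1, fun k => h2 _ ⟨k, rfl⟩⟩

theorem ablc2_int {κ : Type} [Fintype κ] {F : κ → E N → ℂ} (hC : IsCompact C₀)
    (hF : ∀ k, Continuous (F k)) {G : E N → ℝ} {t : ℝ} (h0 : ∀ x ∈ C₀, 0 ≤ G x)
    (hG : ∀ x ∈ C₀, G x ≤ ∑ k, ‖F k x‖ + t) :
    ∫ x in C₀, G x ^ 2 ≤ 2 * Fintype.card κ * (∑ k, ∫ x in C₀, ‖F k x‖ ^ 2) +
      2 * volume.real C₀ * t ^ 2 := by
  have hi : ∀ k, IntegrableOn (fun x => ‖F k x‖ ^ 2) C₀ volume := fun k =>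
    ((hF k).norm.pow 2).continuousOn.integrableOn_compact hC
  have hs := integrable_finsetSum (μ := volume.restrict C₀) Finset.univ fun k _ => hi k
  have hc : IntegrableOn (fun _ : E N => 2 * t ^ 2) C₀ volume :=
    continuousOn_const.integrableOn_compact hC
  calc _ ≤ ∫ x in C₀, (2 * Fintype.card κ * ∑ k, ‖F k x‖ ^ 2) + 2 * t ^ 2 := by
        refine integral_mono_of_nonneg (Eventually.of_forall fun x => sq_nonneg _)
          ((hs.const_mul _).add hc) ?_
        filter_upwards [ae_restrict_mem hC.measurableSet] with x hx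
        have h1 : (∑ k, ‖F k x‖) ^ 2 ≤ Fintype.card κ * ∑ k, ‖F k x‖ ^ 2 :=
          sq_sum_le_card_mul_sum_sq
        have h2 := pow_le_pow_left₀ (h0 x hx) (hG x hx) 2
        nlinarith [sq_nonneg (∑ k, ‖F k x‖ - t)]
    _ = _ := by
        rw [integral_add (hs.const_mul _) hc, integral_const_mul,
          integral_finsetSum _ fun k _ => hi k, setIntegral_const, smul_eq_mul]
        ring

theorem ablc2_cplx {χ : E N → ℝ} (hχ : Tst W χ) : Tst W fun y => (χ y : ℂ) := by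
  have : tsupport (fun y => (χ y : ℂ)) ⊆ tsupport χ :=
    closure_mono fun y hy h => hy (by simp [h])
  exact ⟨Complex.ofRealCLM.contDiff.comp hχ.smooth,
    hχ.cpt.of_isClosed_subset (isClosed_tsupport _) this, this.trans hχ.sub⟩

theorem ablc2_tst (hW : IsOpen W) {χ : E N → ℝ} (hχ : Tst W χ) {g : E N → ℂ}
    (hg : ContDiffOn ℝ ∞ g W) : Tst univ fun y => (χ y : ℂ) * g y :=
  have := ((ablc2_cplx hχ).mul_on hW hg).1
  ⟨this.smooth, this.cpt, subset_univ _⟩

theorem ablc2_cont (hW : IsOpen W) {χ : E N → ℝ} (hχ : Tst W χ) {g : E N → ℂ}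
    (hg : ContinuousOn g W) :
    Continuous (fun y => (χ y : ℂ) * g y) ∧ HasCompactSupport fun y => (χ y : ℂ) * g y := by
  have h := ablc2_cplx hχ
  exact ⟨(h.smooth.continuous.continuousOn.mul hg).continuous_of_tsupport_subset hW
    ((tsupport_mul_subset_left (f := fun y => (χ y : ℂ))).trans h.sub), h.cpt.mul_right⟩

theorem ablc2_diff (hW : IsOpen W) {χ : E N → ℝ} (hχ : Tst W χ) (h01 : ∀ y, 0 ≤ χ y ∧ χ y ≤ 1)
    {w w₀ : E N → ℂ} (hw : ContDiffOn ℝ ∞ w W) (hw₀ : ContDiffOn ℝ ∞ w₀ W) (b : Fin N) :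
    ∫ x, ‖(χ x : ℂ) * dzb b w x - (χ x : ℂ) * dzb b w₀ x‖ ^ 2 ≤
      ∫ z in tsupport χ, ‖db w z - db w₀ z‖ ^ 2 := by
  rw [← setIntegral_eq_integral_of_forall_compl_eq_zero (s := tsupport χ)
    fun x hx => by simp [image_eq_zero_of_notMem_tsupport hx]]
  refine integral_mono_of_nonneg (Eventually.of_forall fun x => sq_nonneg _)
    ((((((db_smooth hW hw).sub (db_smooth hW hw₀)).continuousOn.mono hχ.sub).norm).pow
      2).integrableOn_compact hχ.cpt) (Eventually.of_forall fun x => ?_)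
  refine pow_le_pow_left₀ (norm_nonneg _) ?_ 2
  rw [← mul_sub, norm_mul, Complex.norm_real, Real.norm_of_nonneg (h01 x).1]
  exact (mul_le_of_le_one_left (norm_nonneg _) (h01 x).2).trans
    (norm_le_pi_norm (db w x - db w₀ x) b)

theorem approx (hW : IsOpen W) (hΨ : ContDiffOn ℝ ∞ Ψ W) (hK : Kah W K) (hC : IsCompact C₀)
    (hs : C₀ ⊆ W) (hh : ContinuousOn h W) {γ : ℝ} (hγ : 0 < γ) :
    ∃ C, IsCompact C ∧ C₀ ⊆ C ∧ C ⊆ W ∧ ∃ γ' : ℝ, 0 < γ' ∧ ∀ w₀, ContDiffOn ℝ ∞ w₀ W →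
      ∃ ε : ℝ, 0 < ε ∧ ∀ w, ContDiffOn ℝ ∞ w W → ∫ z in C, ‖db w z - db w₀ z‖ ^ 2 ≤ γ' →
        Weak W C Ψ K h w ε → ∃ w', ContDiffOn ℝ ∞ w' W ∧
          ∫ z in C₀, ‖db w' z - db w z‖ ^ 2 ≤ γ ∧
          ∫ z in C₀, ‖dlt Ψ (grad K w') z - h z‖ ^ 2 ≤ γ := by
  obtain ⟨χ, d₀, hχ, h01, hd₀, hχ1⟩ := exists_bump hW hC hs
  obtain ⟨A, hA⟩ := exists_ker N
  have hwt := ofReal_smooth (wt_smooth hΨ)
  obtain ⟨m, hm, hmw⟩ := hC.exists_forall_le' (a := 0)
    ((wt_smooth hΨ).continuousOn.mono hs) fun z _ => wt_pos Ψ z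
  have hc : ∀ q : Fin N × Fin N,
      Tst univ fun y => (χ y : ℂ) * ((wt Ψ y : ℂ) * (K y)⁻¹ q.2 q.1) := fun q =>
    ablc2_tst hW hχ (hwt.mul (hK.inv_smooth _ _))
  choose B hB0 hB using fun q => cm_l2 (hc q) A
  have hB1 : 0 ≤ ∑ q, B q := Finset.sum_nonneg fun q _ => hB0 q
  have hg : 0 < min γ (m ^ 2 * γ) / 2 := half_pos (lt_min hγ (by positivity))
  obtain ⟨γ', hγ', hγ1, -⟩ := ablc2_small
    (a := 2 * (2 * N) * (2 * N) + 2 * (N : ℝ) ^ 2 * ∑ q, B q) (by positivity) hg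
  obtain ⟨s, hs0, -, hs1⟩ := ablc2_small (a := 2 * volume.real C₀) (by positivity) hg
  have hx1 : ∀ x ∈ C₀, χ x = 1 := fun x hx => hχ1 x hx x (mem_ball_self hd₀)
  refine ⟨tsupport χ, hχ.cpt, fun x hx => subset_tsupport _ (by simp [hx1 x hx]), hχ.sub,
    γ', hγ', fun w₀ hw₀ => ?_⟩
  have hβ : ∀ w, ContDiffOn ℝ ∞ w W → ∀ b, Tst univ fun y => (χ y : ℂ) * dzb b w y :=
    fun w hw b => ablc2_tst hW hχ (dz_smooth hW hw b).2
  have hu := ablc2_cont hW hχ (hwt.continuousOn.mul hh)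
  set t : ℝ := s / ((N : ℝ) ^ 2 + 2) with ht
  have ht0 : 0 < t := by positivity
  have hts : (N : ℝ) ^ 2 * t + t + t = s := by rw [ht]; field_simp; ring
  choose D1 hD1 h1 using fun b => cv_unif (hβ w₀ hw₀ b).smooth.continuous (hβ w₀ hw₀ b).cpt ht0
  choose D2 hD2 h2 using fun q : Fin N × Fin N => cm_unif (hc q) (hβ w₀ hw₀ q.2) ht0
  obtain ⟨D3, hD3, h3⟩ := cv_unif hu.1 hu.2 ht0
  obtain ⟨d1, hd1, e1⟩ := ablc2_min D1 hD1
  obtain ⟨d2, hd2, e2⟩ := ablc2_min D2 hD2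
  set d : ℝ := min (min d1 d2) (min D3 (d₀ / 2)) with hd
  have hd0 : 0 < d := lt_min (lt_min hd1 hd2) (lt_min hD3 (half_pos hd₀))
  obtain ⟨ρ, hρ⟩ := hA d hd0
  have hb : ∀ x ∈ C₀, ∀ y ∈ ball x (2 * d), χ y = 1 := fun x hx y hy =>
    hχ1 x hx y (ball_subset_ball (by
      linarith [(min_le_right _ _).trans (min_le_right _ _) |>.trans' hd.le]) hy)
  obtain ⟨L, hL, hweak⟩ := weak_cv (Ψ := Ψ) (K := K) (h := h) hW hχ hρ
  refine ⟨t / (L + 1), by positivity, fun w hw hww hwk => ?_⟩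
  have hεL : t / (L + 1) * L ≤ t := by
    rw [div_mul_eq_mul_div, div_le_iff₀ (by positivity)]
    nlinarith
  have hδ : ∀ b, Tst univ fun y => (χ y : ℂ) * dzb b w y - (χ y : ℂ) * dzb b w₀ y := fun b => by
    simpa only [mul_sub] using ablc2_tst hW hχ ((dz_smooth hW hw b).2.sub (dz_smooth hW hw₀ b).2)
  have hδ2 := fun b => (ablc2_diff hW hχ h01 hw hw₀ b).trans hww
  have hN : (0 : ℝ) ≤ N := Nat.cast_nonneg N
  refine ⟨cv ρ fun y => (χ y : ℂ) * w y, (cv_smooth hρ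
    (ablc2_tst hW hχ hw).smooth.continuous.locallyIntegrable).contDiffOn, ?_, ?_⟩
  · have := ablc2_int (κ := Fin N ⊕ Fin N) (t := t) (F := Sum.elim
      (fun b => cv ρ fun y => (χ y : ℂ) * dzb b w y - (χ y : ℂ) * dzb b w₀ y)
      fun b y => (χ y : ℂ) * dzb b w y - (χ y : ℂ) * dzb b w₀ y) hC (by
        rintro (b | b)
        · exact (cv_smooth hρ (hδ b).smooth.continuous.locallyIntegrable).continuous
        · exact (hδ b).smooth.continuous)
      (G := fun z => ‖db (cv ρ fun y => (χ y : ℂ) * w y) z - db w z‖)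
      (fun x _ => norm_nonneg _) (fun x hx => by
        refine (pi_norm_le_iff_of_nonneg (by positivity)).2 fun b => ?_
        have f1 := h1 b d A ρ (((min_le_left _ _).trans (min_le_left _ _)).trans (e1 b)) hρ x
        have f2 := cv_sub hρ (hβ w hw b).smooth.continuous (hβ w₀ hw₀ b).smooth.continuous x
        simp only [Fintype.sum_sum_type, Sum.elim_inl, Sum.elim_inr]
        refine le_trans ?_ (add_le_add_left (add_le_add
          (Finset.single_le_sum (fun _ _ => norm_nonneg _) (Finset.mem_univ b))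
          (Finset.single_le_sum (fun _ _ => norm_nonneg _) (Finset.mem_univ b))) _)
        rw [Pi.sub_apply, (reg_formula hW hΨ hK hχ hw hρ (hb x hx) hd0).1 b, f2]
        refine le_trans (le_of_eq ?_) ((norm_add_le _ _).trans (add_le_add (norm_sub_le _ _) f1))
        congr 1
        simp only [hx1 x hx, db, Complex.ofReal_one]
        ring)
    refine this.trans ?_
    have f1 : ∑ k : Fin N ⊕ Fin N, ∫ x in C₀, ‖Sum.elim
        (fun b => cv ρ fun y => (χ y : ℂ) * dzb b w y - (χ y : ℂ) * dzb b w₀ y)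
        (fun b y => (χ y : ℂ) * dzb b w y - (χ y : ℂ) * dzb b w₀ y) k x‖ ^ 2 ≤ 2 * N * γ' := by
      refine (Finset.sum_le_card_nsmul _ _ γ' ?_).trans (le_of_eq (by simp [two_mul]))
      rintro (b | b) -
      · exact (cv_l2 hρ (hδ b).smooth.continuous (hδ b).cpt hC).trans (hδ2 b)
      · refine (setIntegral_le_integral ?_ (Eventually.of_forall fun x => sq_nonneg _)).trans
          (hδ2 b)
        exact ((hδ b).smooth.continuous.norm.pow 2).integrable_of_hasCompactSupport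
          (by simpa only [sq] using (hδ b).cpt.norm.mul_right)
    have f2 : t ^ 2 ≤ s ^ 2 := pow_le_pow_left₀ ht0.le (by nlinarith) 2
    have f3 : (Fintype.card (Fin N ⊕ Fin N) : ℝ) = 2 * N := by simp; ring
    have f4 := mul_le_mul_of_nonneg_left f2 (show 0 ≤ 2 * volume.real C₀ by positivity)
    have f5 := mul_le_mul_of_nonneg_left f1 (show 0 ≤ 2 * (2 * (N : ℝ)) by positivity)
    have f6 : 0 ≤ 2 * (N : ℝ) ^ 2 * (∑ q, B q) * γ' := by positivity
    rw [f3]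
    nlinarith [min_le_left γ (m ^ 2 * γ)]
  · have := ablc2_int (κ := Fin N × Fin N) (t := s) (F := fun q =>
      cm ρ (fun y => (χ y : ℂ) * ((wt Ψ y : ℂ) * (K y)⁻¹ q.2 q.1))
        (fun y => (χ y : ℂ) * dzb q.2 w y - (χ y : ℂ) * dzb q.2 w₀ y) q.1) hC
      (fun q => cm_cont hρ (hc q) (hδ q.2) q.1)
      (G := fun z => m * ‖dlt Ψ (grad K (cv ρ fun y => (χ y : ℂ) * w y)) z - h z‖)
      (fun x _ => by positivity) (fun x hx => by
        have f1 := fun q => h2 q d A ρ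
          (((min_le_left _ _).trans (min_le_right _ _)).trans (e2 q)) hρ q.1 x
        have f2 := h3 d A ρ ((min_le_right _ _).trans (min_le_left _ _)) hρ x
        have f3 := (hweak w _ x (hb x hx) hwk).trans hεL
        have f4 := (reg_formula hW hΨ hK hχ hw hρ (hb x hx) hd0).2
        have f5 := cv_sub hρ (ablc2_tst hW hχ (hwt.mul (dlt_smooth hW hΨ
          (grad_smooth hW hK hw)))).smooth.continuous hu.1 x
        simp only [Pi.mul_apply, ← mul_sub] at f5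
        rw [← Fintype.sum_prod_type'] at f4
        have f6 := (norm_sum_le _ _).trans (Finset.sum_le_card_nsmul Finset.univ _ t
          fun q _ => f1 q)
        have f7 : Finset.card (Finset.univ : Finset (Fin N × Fin N)) • t = (N : ℝ) ^ 2 * t := by
          simp [sq]
        rw [f7] at f6
        refine (mul_le_mul_of_nonneg_right (hmw x hx) (norm_nonneg _)).trans ?_
        rw [← hts, ← Real.norm_of_nonneg (wt_pos Ψ x).le, ← Complex.norm_real, ← norm_mul]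
        refine le_trans (le_of_eq ?_) ((norm_add_le _ _).trans (add_le_add (norm_sum_le _ _)
          (norm_add₃_le.trans (add_le_add (add_le_add f6 f3) f2))))
        congr 1
        rw [mul_sub, f4, f5, ← add_assoc, ← add_assoc, ← Finset.sum_add_distrib]
        simp only [cm_sub hρ (hc _) (hβ w hw _) (hβ w₀ hw₀ _), sub_add_cancel, hx1 x hx,
          Pi.mul_apply, Complex.ofReal_one]
        ring)
    simp only [mul_pow] at this
    rw [integral_const_mul] at this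
    have f1 : ∑ q : Fin N × Fin N, ∫ x in C₀,
        ‖cm ρ (fun y => (χ y : ℂ) * ((wt Ψ y : ℂ) * (K y)⁻¹ q.2 q.1))
          (fun y => (χ y : ℂ) * dzb q.2 w y - (χ y : ℂ) * dzb q.2 w₀ y) q.1 x‖ ^ 2 ≤
        (∑ q, B q) * γ' := by
      rw [Finset.sum_mul]
      exact Finset.sum_le_sum fun q _ => (hB q d ρ _ q.1 C₀ hρ (hδ q.2) hC).trans
        (mul_le_mul_of_nonneg_left (hδ2 q.2) (hB0 q))
    have f3 : (Fintype.card (Fin N × Fin N) : ℝ) = N ^ 2 := by simp [sq]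
    have f5 := mul_le_mul_of_nonneg_left f1 (show 0 ≤ 2 * (N : ℝ) ^ 2 by positivity)
    have f6 : 0 ≤ 2 * (2 * (N : ℝ)) * (2 * N) * γ' := by positivity
    rw [f3] at this
    refine le_of_mul_le_mul_left ?_ (show 0 < m ^ 2 by positivity)
    nlinarith [min_le_right γ (m ^ 2 * γ)]

end Pool.Agent.AB
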