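import Pool.Agent.P.MP_63735c_ag.ABMan

/-! Partitions of unity. -/

open scoped ComplexOrder ContDiff Matrix Topology ENNReal
open Set Metric MeasureTheory Filter

namespace Pool.Agent.AB

open Pool.Agent.SPF

variable {N : ℕ} {Y : Type} [TopologicalSpace Y] [T2Space Y] {D : Man Y N}

theorem abpu_mul {W : Set (E N)} {f g : E N → ℝ} (hW : IsOpen W) (hf : Tst W f)
    (hg : ContDiffOn ℝ ∞ g W) : Tst W (fun y => f y * g y) := by
  have hs : tsupport (fun y => f y * g y) ⊆ tsupport f := tsupport_mul_subset_left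
  refine ⟨?_, hf.cpt.mul_right, hs.trans hf.sub⟩
  rw [contDiff_iff_contDiffAt]
  intro y
  by_cases hy : y ∈ W
  · exact hf.smooth.contDiffAt.mul (hg.contDiffAt (hW.mem_nhds hy))
  · have h1 : y ∉ tsupport (fun y => f y * g y) := fun h => hy (hf.sub (hs h))
    rw [notMem_tsupport_iff_eventuallyEq] at h1
    exact (contDiffAt_const (c := (0 : ℝ))).congr_of_eventuallyEq h1

omit [T2Space Y] in
theorem abpu_bd {i : D.ι} {f : E N → ℝ} (hf : ∀ y, 0 ≤ f y ∧ f y ≤ 1) (x : Y) :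
    D.ext i f x ≤ 1 := by
  by_cases hx : x ∈ D.p i '' D.W i
  · obtain ⟨z, hz, rfl⟩ := hx
    rw [Man.ext_apply hz]
    exact (hf z).2
  · rw [Man.ext_out hx]
    exact zero_le_one

theorem abpu_ind {κ : Type} (c : κ → D.ι) (χ : κ → E N → ℝ) (hT : ∀ k, Tst (D.W (c k)) (χ k))
    (hb : ∀ k y, 0 ≤ χ k y ∧ χ k y ≤ 1) (t : Finset κ) :
    ∀ θ : Y → ℝ, D.S θ → (∀ x, 0 ≤ θ x) → (∀ x, θ x ≠ 0 → ∃ k ∈ t, D.ext (c k) (χ k) x = 1) →
    ∃ (m : ℕ) (c : Fin m → D.ι) (τ : Fin m → E N → ℝ), (∀ a, Tst (D.W (c a)) (τ a)) ∧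
      (∀ a z, 0 ≤ τ a z) ∧ ∀ x, θ x = ∑ a, D.ext (c a) (τ a) x := by
  classical
  induction t using Finset.induction_on with
  | empty =>
    intro θ _ _ h
    refine ⟨0, Fin.elim0, Fin.elim0, fun a => a.elim0, fun a => a.elim0, fun x => ?_⟩
    by_contra hx
    simp only [Finset.univ_eq_empty, Finset.sum_empty] at hx
    obtain ⟨k, hk, -⟩ := h x hx
    simp at hk
  | insert k s _ ih =>
    intro θ hθ h0 h
    have hB : D.S (D.ext (c k) (χ k)) := Man.ext_S (hT k)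
    have hS : D.S fun x => θ x * (1 - D.ext (c k) (χ k) x) :=
      ⟨fun i => (hθ.1 i).mul (contDiffOn_const.sub (hB.1 i)),
        hθ.2.of_zero fun x hx => by simp [hx]⟩
    obtain ⟨m, c', τ, h1, h2, h3⟩ := ih _ hS
      (fun x => mul_nonneg (h0 x) (sub_nonneg.2 (abpu_bd (hb k) x))) (by
        intro x hx
        obtain ⟨l, hl, h4⟩ := h x (left_ne_zero_of_mul hx)
        rcases Finset.mem_insert.1 hl with rfl | hl
        · rw [h4] at hx
          simp at hx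
        · exact ⟨l, hl, h4⟩)
    refine ⟨m + 1, Matrix.vecCons (c k) c',
      Matrix.vecCons (fun y => χ k y * θ (D.p (c k) y)) τ, ?_, ?_, fun x => ?_⟩
    · rw [Fin.forall_fin_succ]
      exact ⟨abpu_mul (D.isOpen _) (hT k) (hθ.1 _), h1⟩
    · rw [Fin.forall_fin_succ]
      exact ⟨fun z => mul_nonneg (hb k z).1 (h0 _), h2⟩
    · rw [Fin.sum_univ_succ]
      simp only [Matrix.cons_val_zero, Matrix.cons_val_succ]
      rw [← h3 x]
      by_cases hx : x ∈ D.p (c k) '' D.W (c k)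
      · obtain ⟨z, hz, rfl⟩ := hx
        rw [Man.ext_apply hz, Man.ext_apply hz]
        ring
      · rw [Man.ext_out hx, Man.ext_out hx]
        ring

theorem Man.exists_pu {θ : Y → ℝ} (hθ : D.S θ) (h0 : ∀ x, 0 ≤ θ x) :
    ∃ (m : ℕ) (c : Fin m → D.ι) (τ : Fin m → E N → ℝ), (∀ a, Tst (D.W (c a)) (τ a)) ∧
      (∀ a z, 0 ≤ τ a z) ∧ ∀ x, θ x = ∑ a, D.ext (c a) (τ a) x := by
  obtain ⟨C, hC, hM, hz⟩ := hθ.2
  have key : ∀ x : C, ∃ (i : D.ι) (χ : E N → ℝ) (U : Set Y), Tst (D.W i) χ ∧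
      (∀ y, 0 ≤ χ y ∧ χ y ≤ 1) ∧ IsOpen U ∧ x.1 ∈ U ∧ ∀ y ∈ U, D.ext i χ y = 1 := by
    rintro ⟨x, hx⟩
    obtain ⟨i, z, hz, rfl⟩ := Man.exists_chart (hM hx)
    obtain ⟨χ, d, h1, h2, h3, h4⟩ := exists_bump (D.isOpen i) isCompact_singleton
      (singleton_subset_iff.2 hz)
    refine ⟨i, χ, D.p i '' (ball z d ∩ D.W i), h1, h2,
      D.opn i _ (isOpen_ball.inter (D.isOpen i)) inter_subset_right,
      ⟨z, ⟨mem_ball_self h3, hz⟩, rfl⟩, ?_⟩
    rintro _ ⟨y, hy, rfl⟩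
    rw [Man.ext_apply hy.2]
    exact h4 z rfl y hy.1
  choose c χ U h1 h2 h3 h4 h5 using key
  obtain ⟨t, ht⟩ := hC.elim_finite_subcover U h3 fun x hx => mem_iUnion.2 ⟨⟨x, hx⟩, h4 _⟩
  refine abpu_ind c χ h1 h2 t θ hθ h0 fun x hx => ?_
  have hxC : x ∈ C := by
    by_contra h
    exact hx (hz x h)
  obtain ⟨k, hk, hk'⟩ := mem_iUnion₂.1 (ht hxC)
  exact ⟨k, hk, h5 k x hk'⟩

end Pool.Agent.AB
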