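import Pool.Agent.P.MP_63735c_ag.SPSm
import Pool.Agent.P.MP_63735c_ag.ABX0

/-! Extension of square integrable holomorphic functions. -/

open scoped ContDiff Matrix ENNReal
open Set Metric MeasureTheory Filter Topology

namespace Pool.Agent.CL

open Pool.Agent.SPF

variable {N : ℕ}

/-- If `g f^m` is locally square integrable off the zeros of `f`, then `g f^(m+N+2)` is
holomorphic across them. -/
theorem ext_hol {O : Set (E N)} (hO : IsOpen O) {f g : E N → ℂ} (hf : DifferentiableOn ℂ f O)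
    (hg : ∀ z ∈ O, f z ≠ 0 → DifferentiableAt ℂ g z) {m : ℕ}
    (hi : ∀ z ∈ O, ∃ U ∈ 𝓝 z,
      ∫⁻ x in U ∩ {x | f x ≠ 0}, ENNReal.ofReal (‖g x * f x ^ m‖ ^ 2) ≠ ⊤) :
    DifferentiableOn ℂ (fun z => g z * f z ^ (m + N + 2)) O := by
  intro z0 hz0
  refine DifferentiableAt.differentiableWithinAt ?_
  by_cases h0 : f z0 = 0
  swap
  · exact (hg z0 hz0 h0).mul ((hf.differentiableAt (hO.mem_nhds hz0)).pow _)
  obtain ⟨c, hc, hmv⟩ := mv_rad (N := N)
  obtain ⟨U, hU, hI⟩ := hi z0 hz0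
  obtain ⟨K, t, ht, hK⟩ := (((smooth_of_hol (φ := fun z (_ : Fin 1) => f z) hO
    (differentiableOn_pi.2 fun _ => hf)).contDiffAt (hO.mem_nhds hz0)).of_le
      (m := 1) (by simp)).exists_lipschitzOnWith
  obtain ⟨r, hr, hb⟩ := Metric.mem_nhds_iff.1 (inter_mem (inter_mem hU ht) (hO.mem_nhds hz0))
  set L : ℝ := K + 1 with hL
  have hL0 : 0 < L := by positivity
  have lip : ∀ x ∈ ball z0 r, ∀ y ∈ ball z0 r, ‖f x - f y‖ ≤ L * ‖x - y‖ := fun x hx y hy => by
    have := (norm_le_pi_norm _ 0).trans (hK.norm_sub_le (hb hx).1.2 (hb hy).1.2)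
    simp only [Pi.sub_apply] at this
    nlinarith [norm_nonneg (x - y)]
  set I := (∫⁻ x in U ∩ {x | f x ≠ 0}, ENNReal.ofReal (‖g x * f x ^ m‖ ^ 2)).toReal
    with hIdef
  have key : ∀ z ∈ ball z0 (r / 2),
      ‖g z * f z ^ (m + N + 2)‖ ≤ (I / c + 1) * (2 * L) ^ N * L ^ 2 * ‖z - z0‖ ^ 2 := by
    intro z hz
    have hI0 : 0 ≤ I := ENNReal.toReal_nonneg
    by_cases hz1 : f z = 0
    · rw [hz1, zero_pow (by omega), mul_zero, norm_zero]
      positivity
    have hzn : ‖z - z0‖ < r / 2 := mem_ball_iff_norm.1 hz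
    have hzr : z ∈ ball z0 r := ball_subset_ball (by linarith) hz
    have hfz : ‖f z‖ ≤ L * ‖z - z0‖ := by simpa [h0] using lip z hzr z0 (mem_ball_self hr)
    have hp : 0 < ‖f z‖ := norm_pos_iff.2 hz1
    set ρ := ‖f z‖ / (2 * L) with hρ
    have hρ0 : 0 < ρ := by positivity
    have hρ1 : L * ρ = ‖f z‖ / 2 := by rw [hρ]; field_simp
    have hρ2 : ρ < r / 2 := by
      refine lt_of_mul_lt_mul_left ?_ hL0.le
      nlinarith
    have hs : ball z ρ ⊆ ball z0 r := ball_subset_ball' (by rw [dist_eq_norm]; linarith)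
    have hne : ∀ x ∈ ball z ρ, f x ≠ 0 := fun x hx h => by
      have h1 := lip x (hs hx) z hzr
      have h2 := mem_ball_iff_norm.1 hx
      rw [h, zero_sub, norm_neg] at h1
      nlinarith
    have h3 := hmv (fun x => g x * f x ^ m) z ρ I hρ0 hI0 (fun x hx =>
      ((hg x (hb (hs hx)).2 (hne x hx)).mul ((hf.differentiableAt
        (hO.mem_nhds (hb (hs hx)).2)).pow _)).differentiableWithinAt) (by
      rw [hIdef, ENNReal.ofReal_toReal hI]
      exact lintegral_mono_set fun x hx => ⟨(hb (hs hx)).1.1, hne x hx⟩)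
    have h4 : ‖g z * f z ^ m‖ * ρ ^ N ≤ I / c + 1 := by
      have : (‖g z * f z ^ m‖ * ρ ^ N) ^ 2 ≤ I / c := by rw [le_div_iff₀ hc]; linarith
      nlinarith [sq_nonneg (‖g z * f z ^ m‖ * ρ ^ N - 1), sq_nonneg (‖g z * f z ^ m‖ * ρ ^ N)]
    have h5 : ‖f z‖ = ρ * (2 * L) := by rw [hρ]; field_simp
    calc ‖g z * f z ^ (m + N + 2)‖ = ‖g z * f z ^ m‖ * ρ ^ N * (2 * L) ^ N * ‖f z‖ ^ 2 := by
          rw [pow_add, pow_add, ← mul_assoc, ← mul_assoc, norm_mul, norm_mul _ (f z ^ N), norm_pow,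
            norm_pow, mul_assoc _ (ρ ^ N), ← mul_pow, ← h5]
      _ ≤ (I / c + 1) * (2 * L) ^ N * (L * ‖z - z0‖) ^ 2 := by gcongr
      _ = _ := by ring
  refine (Asymptotics.IsBigO.hasFDerivAt (n := 2) ?_ one_lt_two).differentiableAt
  refine Asymptotics.IsBigO.of_bound ((I / c + 1) * (2 * L) ^ N * L ^ 2) ?_
  filter_upwards [ball_mem_nhds z0 (half_pos hr)] with z hz
  simpa using key z hz

end Pool.Agent.CL
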