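import Pool.Agent.P.MP_63735c_ag.ABTDefs
import Pool.Agent.P.MP_63735c_ag.ABMan
import Pool.Agent.P.MP_63735c_ag.ABX1

/-! A square integrable holomorphic function off the zeros of a section gives a section. -/

open scoped ContDiff Matrix ENNReal
open Set Metric MeasureTheory Filter Topology

namespace Pool.Agent.AB

open Pool.Agent.SPF

variable {N : ℕ} {Y : Type} [TopologicalSpace Y]

theorem abx2_det (C : Chart N) : ContinuousOn (fun z => ‖(C.σ z).det‖) C.W := by
  refine ContinuousOn.norm ?_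
  simp only [Matrix.det_apply]
  exact continuousOn_finsetSum _ fun s _ =>
    (continuousOn_finsetProd _ fun a _ => (C.σ_hol _ _).continuousOn).const_smul _

/-- Extension across the zeros of the section, with the hypotheses stated in charts. -/
theorem ext_section (A : Atlas Y N) {k : ℝ} {u : Y → ℝ} (hu : A.IsSectionNorm k u)
    {g s : Y → ℂ} {m : ℕ} {B : ℝ} (hs : ∀ x, ‖s x‖ ≤ B)
    (hg : ∀ i, ∀ z ∈ (A.C i).W, u (A.p i z) ≠ 0 → DifferentiableAt ℂ (fun y => g (A.p i y)) z)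
    (hi : ∀ i, IntegrableOn (fun z => u (A.p i z) ^ m * ‖((A.C i).σ z).det‖ *
      ‖g (A.p i z) - s (A.p i z)‖ ^ 2) ((A.C i).W ∩ A.p i ⁻¹' {x | u x ≠ 0}) volume) :
    A.IsSectionNorm ((m + N + 2 : ℕ) * k) fun x => ‖g x‖ ^ 2 * u x ^ (m + N + 2) := by
  intro i z hz
  obtain ⟨O, ψ, f, hO, hzO, hOW, hψ, hf, h⟩ := hu i z hz
  have hne : ∀ w ∈ O, f w ≠ 0 → u (A.p i w) ≠ 0 := fun w hw h0 => by
    rw [(h w hw).2]
    have := norm_pos_iff.2 h0
    positivity
  refine ⟨O, ψ, fun w => g (A.p i w) * f w ^ (m + N + 2), hO, hzO, hOW, hψ,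
    CL.ext_hol hO hf (fun w hw h0 => hg i w (hOW hw) (hne w hw h0)) fun y hy => ?_,
    fun w hw => ⟨(h w hw).1, ?_⟩⟩
  · obtain ⟨r, hr, hb⟩ := nhds_basis_closedBall.mem_iff.1 (hO.mem_nhds hy)
    obtain ⟨c, hc, hc1⟩ := (isCompact_closedBall y r).exists_forall_le' (a := 0)
      (f := fun w => Real.exp (-k * ψ w) ^ m * ‖((A.C i).σ w).det‖)
      ((((continuousOn_const.mul (hψ.continuousOn.mono hb)).rexp).pow m).mul
        ((abx2_det _).mono (hb.trans hOW))) fun w hw => by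
        have := norm_pos_iff.2 ((A.C i).σ_det w (hOW (hb hw)))
        positivity
    obtain ⟨B', hB'⟩ := (isCompact_closedBall y r).exists_bound_of_continuousOn
      ((hf.continuousOn.mono hb).pow m)
    have hsub : ball y r ⊆ O := ball_subset_closedBall.trans hb
    have hop : IsOpen (ball y r ∩ {x | f x ≠ 0}) :=
      (hf.continuousOn.mono hsub).isOpen_inter_preimage isOpen_ball isOpen_ne
    have h1 := ((hi i).mono_set (s := ball y r ∩ {x | f x ≠ 0})
      fun w hw => ⟨hOW (hsub hw.1), hne w (hsub hw.1) hw.2⟩).const_mul (2 / c)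
    have h2 : IntegrableOn (fun _ : E N => 2 * (B * B') ^ 2) (ball y r ∩ {x | f x ≠ 0}) volume :=
      integrableOn_const ((measure_mono inter_subset_left).trans_lt measure_ball_lt_top).ne
    refine ⟨ball y r, ball_mem_nhds y hr, ne_top_of_le_ne_top (h1.add h2).lintegral_lt_top.ne
      (setLIntegral_mono' hop.measurableSet fun w hw => ENNReal.ofReal_le_ofReal ?_)⟩
    have hw' := ball_subset_closedBall hw.1
    have e1 : ‖g (A.p i w) * f w ^ m‖ ≤ ‖g (A.p i w) - s (A.p i w)‖ * ‖f w‖ ^ m + B * B' := by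
      rw [show g (A.p i w) * f w ^ m = (g (A.p i w) - s (A.p i w)) * f w ^ m +
        s (A.p i w) * f w ^ m by ring]
      refine (norm_add_le _ _).trans (add_le_add (by rw [norm_mul, norm_pow]) ?_)
      rw [norm_mul]
      exact mul_le_mul (hs _) (hB' w hw') (norm_nonneg _) ((norm_nonneg _).trans (hs (A.p i w)))
    have e2 : (‖g (A.p i w) - s (A.p i w)‖ * ‖f w‖ ^ m) ^ 2 * c ≤
        u (A.p i w) ^ m * ‖((A.C i).σ w).det‖ * ‖g (A.p i w) - s (A.p i w)‖ ^ 2 := by
      refine (mul_le_mul_of_nonneg_left (hc1 w hw') (sq_nonneg _)).trans (le_of_eq ?_)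
      rw [(h w (hb hw')).2]
      ring
    rw [← le_div_iff₀ hc] at e2
    have e3 := pow_le_pow_left₀ (norm_nonneg _) e1 2
    simp only [Pi.add_apply]
    rw [div_mul_eq_mul_div, mul_div_assoc]
    nlinarith [sq_nonneg (‖g (A.p i w) - s (A.p i w)‖ * ‖f w‖ ^ m - B * B')]
  · simp only
    rw [(h w hw).2, norm_mul, norm_pow, mul_pow _ (Real.exp _), ← Real.exp_nat_mul,
      show ((m + N + 2 : ℕ) : ℝ) * (-k * ψ w) = -((m + N + 2 : ℕ) * k) * ψ w by ring]
    ring

variable {A : Atlas Y N} {hinj : ∀ i, InjOn (A.p i) (A.C i).W} {k : ℝ}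

theorem ext_sect [T2Space Y] {u : Y → ℝ} (hu : A.IsSectionNorm k u) {hM : IsOpen {x | u x ≠ 0}}
    {g s : Y → ℂ} (hg : (man A hinj hM).Hol g) (hs : (man A hinj hM).S s) {m : ℕ}
    (hi : ∀ i, IntegrableOn
      (fun z => wm A (fun x => -Real.log (u x)) m i z * ‖g (A.p i z) - s (A.p i z)‖ ^ 2)
      ((man A hinj hM).W i) volume) :
    A.IsSectionNorm ((m + N + 2 : ℕ) * k) fun x => ‖g x‖ ^ 2 * u x ^ (m + N + 2) := by
  obtain ⟨C, hC, -, h0⟩ := hs.2
  obtain ⟨B, hB⟩ := hC.exists_bound_of_continuousOn hs.cc.continuous.continuousOn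
  refine ext_section A hu (s := s) (B := max B 0) (fun x => ?_)
    (fun i z hz h => (hg i).differentiableAt (((man A hinj hM).isOpen i).mem_nhds ⟨hz, h⟩)) fun i =>
      (hi i).congr_fun (fun z hz => ?_) ((man A hinj hM).isOpen i).measurableSet
  · by_cases hx : x ∈ C
    · exact (hB x hx).trans (le_max_left _ _)
    · rw [h0 x hx, norm_zero]
      exact le_max_right _ _
  · obtain ⟨O, ψ, f, -, hzO, -, -, -, h⟩ := hu i z hz.1
    have hp : 0 < u (A.p i z) := lt_of_le_of_ne (by rw [(h z hzO).2]; positivity) (Ne.symm hz.2)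
    simp only [wm, mul_neg, neg_neg, Real.exp_nat_mul, Real.exp_log hp]

end Pool.Agent.AB
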