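import Pool.Agent.P.MP_63735c_ag.ABP2
import Pool.Agent.P.MP_63735c_ag.ABD
import Pool.Agent.P.MP_63735c_ag.ABX2
import Pool.Agent.P.MP_63735c_ag.ABK5

/-! Sections that cut out the tori. -/

open scoped ComplexOrder ContDiff Matrix Topology ENNReal
open Set Metric MeasureTheory Filter

namespace Pool.Agent.AB

open Pool.Agent.SPF Pool.Agent.NL Pool.Agent.CK Pool.Agent.CS

variable {N n : ℕ} {T : Set (E n)}

theorem base_open {Y : Type} [TopologicalSpace Y] {A : Atlas Y N} {Ψ : E n × E n → Y}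
    (h : A.IsUnif T Ψ) (hT : IsOpen T) {k : ℝ} {u : Y → ℝ} (hu : A.IsSectionNorm k u) :
    IsOpen (T ∩ {b | u (Ψ (b, 0)) ≠ 0}) :=
  ContinuousOn.isOpen_inter_preimage (f := fun b => Ψ (b, 0)) (fun b hb =>
    (ContinuousAt.comp (f := fun b : E n => ((b, 0) : E n × E n)) (unif_cont h (w := (b, 0)) hb)
      (by fun_prop)).continuousWithinAt) hT (sect_open hu)

theorem abundance {X : Type} [TopologicalSpace X] [T2Space X] [CompactSpace X] {R : Set X}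
    {A : Atlas R N} {B : Amb R A} (hinj : ∀ i, InjOn (A.p i) (A.C i).W) [MeasurableSpace R]
    [BorelSpace R] {μ : Measure R} [IsFiniteMeasure μ] (hμ : IsVolume A μ) {K : Form11 A}
    (hK : IsKahler B K) {d : ℝ} (hd : 0 < d) {u : R → ℝ} (hu : A.IsSectionNorm d u) {c : ℝ}
    (hc : ∀ x, u x ≤ c) {Ψ : E n × E n → R} (hT : IsOpen T) (hne : T.Nonempty)
    (h : A.IsUnif T Ψ) (hf : IsFibred Ψ T) (h0 : ∀ b ∈ T, u (Ψ (b, 0)) ≠ 0) :
    ∃ T' ⊆ T, IsOpen T' ∧ T'.Nonempty ∧ IsFibred Ψ T' ∧ ∃ (m : ℕ) (g : R → E n), 0 < m ∧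
      (∀ j, DifferentiableOn ℂ (fun w => g (A.p j w)) {w | w ∈ (A.C j).W ∧ u (A.p j w) ≠ 0}) ∧
      (∀ l, A.IsSectionNorm (m * d) fun x => ‖g x l‖ ^ 2 * u x ^ m) ∧
      ∀ b ∈ T', ∀ τ, u (Ψ (b, τ)) ≠ 0 ∧
        ∀ b' ∈ T', ∀ τ', g (Ψ (b, τ)) = g (Ψ (b', τ')) ↔ b = b' := by
  have h1 : ∀ b ∈ T, ∀ τ, u (Ψ (b, τ)) ≠ 0 := fun b hb τ => by
    rw [sect_leaf h hf hu hb]
    exact h0 b hb
  obtain ⟨T₁, a1, a2, a3⟩ := exists_tube hT hne h hf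
  obtain ⟨K', k1, k2, k3⟩ := exists_cut hinj hK hu hc
  have hφ := pot_of_sect (hinj := hinj) (hM := sect_open hu) hu fun _ hx => hx
  obtain ⟨m, g, g1, g2, T', b1, b2, b3, b4⟩ := peak a3 a2 (fun b hb => h1 b (a1 hb)) hφ hd
    (l2_of_cut hμ hd.le hφ k1 k2 k3)
  refine ⟨T', b1.trans a1, b2, b3, fib_mono hf (b1.trans a1), m + N + 2, g, by omega, g1, fun l => ?_,
    fun b hb τ => ⟨h1 b (a1 (b1 hb)) τ, fun b' hb' τ' => b4 b hb b' hb' τ τ'⟩⟩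
  obtain ⟨s, s1, s2⟩ := g2 l
  exact ext_sect hu (g := fun x => g x l) (fun j => differentiableOn_pi.1 (g1 j) l) s1 s2

end Pool.Agent.AB
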