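import Pool.Agent.P.MP_63735c_ag.ABMan

/-! Integrals in charts. -/

open scoped ComplexOrder ContDiff Matrix Topology ENNReal
open Set Metric MeasureTheory Filter

namespace Pool.Agent.AB

open Pool.Agent.SPF

variable {N : ℕ} {Y : Type} [TopologicalSpace Y] [MeasurableSpace Y] [BorelSpace Y]
  {D : Man Y N} {ν : Measure Y} {Ψ : D.ι → E N → ℝ}

namespace Man

theorem meas_img {i : D.ι} {S : Set (E N)} (hS : MeasurableSet S) (h : S ⊆ D.W i) :
    MeasurableSet (D.p i '' S) := by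
  have he : Topology.IsOpenEmbedding fun z : D.W i => D.p i z :=
    .of_continuous_injective_isOpenMap (D.cont i).domRestrict
      (fun a b e => Subtype.ext (D.inj i a.2 b.2 e)) fun U hU => by
        rw [← image_image (D.p i) Subtype.val]
        exact D.opn i _ ((D.isOpen i).isOpenMap_subtype_val U hU) (Subtype.coe_image_subset _ _)
  have := he.measurableEmbedding.measurableSet_image' (measurable_subtype_coe hS)
  rwa [← image_image (D.p i) Subtype.val, Subtype.image_preimage_coe,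
    inter_eq_self_of_subset_right h] at this

theorem abmeas_emb {i : D.ι} {S : Set (E N)} (hS : MeasurableSet S) (h : S ⊆ D.W i) :
    MeasurableEmbedding fun z : S => D.p i z := by
  refine ⟨fun a b e => Subtype.ext (D.inj i (h a.2) (h b.2) e),
    ((D.cont i).mono h).domRestrict.measurable, fun T hT => ?_⟩
  rw [← image_image (D.p i) Subtype.val]
  exact meas_img (hS.subtype_image hT) ((Subtype.coe_image_subset _ _).trans h)

theorem abmeas_map (hν : D.Den ν Ψ) {i : D.ι} {S : Set (E N)} (hS : MeasurableSet S)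
    (h : S ⊆ D.W i) : ν.restrict (D.p i '' S) = Measure.map (fun z : S => D.p i z)
      (Measure.comap Subtype.val (volume.withDensity fun z => ENNReal.ofReal (wt (Ψ i) z))) := by
  ext T hT
  have hm := hS.subtype_image ((abmeas_emb hS h).measurable hT)
  rw [Measure.restrict_apply hT, (abmeas_emb hS h).map_apply,
    (MeasurableEmbedding.subtype_coe hS).comap_apply, withDensity_apply _ hm,
    ← hν i _ ((Subtype.coe_image_subset _ _).trans h) hm]
  congr 1
  ext x
  constructor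
  · rintro ⟨hx, z, hz, rfl⟩
    exact ⟨z, ⟨⟨z, hz⟩, hx, rfl⟩, rfl⟩
  · rintro ⟨_, ⟨z, hz, rfl⟩, rfl⟩
    exact ⟨hz, z, z.2, rfl⟩

theorem abmeas_wt {W : Set (E N)} {ψ : E N → ℝ} (hΨ : ContinuousOn ψ W) : ContinuousOn (wt ψ) W :=
  Real.continuous_exp.comp_continuousOn hΨ.neg

theorem abmeas_ae {W S : Set (E N)} {ψ : E N → ℝ} (hΨ : ContinuousOn ψ W) (hS : MeasurableSet S)
    (h : S ⊆ W) : AEMeasurable (fun z => ENNReal.ofReal (wt ψ z)) (volume.restrict S) :=
  (((abmeas_wt hΨ).mono h).aemeasurable hS).ennreal_ofReal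

theorem abmeas_re (ψ : E N → ℝ) (z : E N) : (ENNReal.ofReal (wt ψ z)).toReal = wt ψ z :=
  ENNReal.toReal_ofReal (Real.exp_pos _).le

theorem Den.lint (hν : D.Den ν Ψ) {i : D.ι} (hΨ : ContinuousOn (Ψ i) (D.W i)) {S : Set (E N)}
    (hS : MeasurableSet S) (h : S ⊆ D.W i) (f : Y → ℝ≥0∞) :
    ∫⁻ x in D.p i '' S, f x ∂ν = ∫⁻ z in S, ENNReal.ofReal (wt (Ψ i) z) * f (D.p i z) := by
  rw [abmeas_map hν hS h, (abmeas_emb hS h).lintegral_map,
    lintegral_subtype_comap hS fun z => f (D.p i z), restrict_withDensity hS,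
    lintegral_withDensity_eq_lintegral_mul_non_measurable₀ _ (abmeas_ae hΨ hS h)
      (Eventually.of_forall fun _ => ENNReal.ofReal_lt_top)]
  rfl

section
variable {F : Type} [NormedAddCommGroup F] [NormedSpace ℝ F]

theorem Den.int (hν : D.Den ν Ψ) {i : D.ι} (hΨ : ContinuousOn (Ψ i) (D.W i)) {S : Set (E N)}
    (hS : MeasurableSet S) (h : S ⊆ D.W i) (f : Y → F) :
    ∫ x in D.p i '' S, f x ∂ν = ∫ z in S, wt (Ψ i) z • f (D.p i z) := by
  rw [abmeas_map hν hS h, (abmeas_emb hS h).integral_map,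
    integral_subtype_comap hS fun z => f (D.p i z), restrict_withDensity hS,
    integral_withDensity_eq_integral_toReal_smul₀ (abmeas_ae hΨ hS h)
      (Eventually.of_forall fun _ => ENNReal.ofReal_lt_top)]
  simp only [abmeas_re]

theorem Den.intOn (hν : D.Den ν Ψ) {i : D.ι} (hΨ : ContinuousOn (Ψ i) (D.W i)) {S : Set (E N)}
    (hS : MeasurableSet S) (h : S ⊆ D.W i) (f : Y → F) :
    IntegrableOn f (D.p i '' S) ν ↔
      IntegrableOn (fun z => wt (Ψ i) z • f (D.p i z)) S volume := by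
  rw [IntegrableOn, abmeas_map hν hS h, (abmeas_emb hS h).integrable_map_iff]
  refine (integrableOn_iff_comap_subtypeVal (f := fun z => f (D.p i z)) hS).symm.trans ?_
  rw [IntegrableOn, restrict_withDensity hS, integrable_withDensity_iff_integrable_smul₀'
    (abmeas_ae hΨ hS h) (Eventually.of_forall fun _ => ENNReal.ofReal_lt_top)]
  simp only [abmeas_re, IntegrableOn]

theorem Den.int_supp (hν : D.Den ν Ψ) {i : D.ι} (hΨ : ContinuousOn (Ψ i) (D.W i)) {f : Y → F}
    (h0 : ∀ x ∉ D.p i '' D.W i, f x = 0) :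
    ∫ x, f x ∂ν = ∫ z in D.W i, wt (Ψ i) z • f (D.p i z) := by
  rw [← hν.int hΨ (D.isOpen i).measurableSet Subset.rfl,
    setIntegral_eq_integral_of_forall_compl_eq_zero h0]

end

theorem Den.ae (hν : D.Den ν Ψ) {i : D.ι} (hΨ : ContinuousOn (Ψ i) (D.W i)) {S : Set (E N)}
    (hS : MeasurableSet S) (h : S ⊆ D.W i) (P : Y → Prop) :
    (∀ᵐ x ∂ν.restrict (D.p i '' S), P x) ↔ ∀ᵐ z ∂volume.restrict S, P (D.p i z) := by
  rw [abmeas_map hν hS h, (abmeas_emb hS h).ae_map_iff]
  refine (ae_restrict_iff_subtype (p := fun z => P (D.p i z)) hS).symm.trans ?_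
  rw [restrict_withDensity hS, ae_withDensity_iff' (abmeas_ae hΨ hS h)]
  exact eventually_congr (Eventually.of_forall fun z =>
    ⟨fun a => a (ENNReal.ofReal_pos.2 (Real.exp_pos _)).ne', fun a _ => a⟩)

theorem Den.lt_top (hν : D.Den ν Ψ) (hΨ : ∀ i, ContinuousOn (Ψ i) (D.W i)) {C : Set Y}
    (hC : IsCompact C) (h : C ⊆ D.M) : ν C < ⊤ := by
  refine hC.measure_lt_top_of_nhdsWithin fun x hx => ?_
  obtain ⟨i, z, hz, rfl⟩ := exists_chart (h hx)
  obtain ⟨K, hK, h1, h2⟩ := exists_compact_subset (D.isOpen i) hz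
  refine ⟨D.p i '' K, mem_nhdsWithin_of_mem_nhds ?_, ?_⟩
  · rw [← map_nhds hz]
    exact image_mem_map (mem_interior_iff_mem_nhds.1 h1)
  · rw [hν i K h2 hK.measurableSet]
    exact (((abmeas_wt (hΨ i)).mono h2).integrableOn_compact hK).lintegral_lt_top

theorem Den.pos (hν : D.Den ν Ψ) (hΨ : ∀ i, ContinuousOn (Ψ i) (D.W i)) {U : Set Y}
    (hU : IsOpen U) (h : U ⊆ D.M) (hne : U.Nonempty) : ν U ≠ 0 := by
  intro h0
  obtain ⟨x, hx⟩ := hne
  obtain ⟨i, z, hz, rfl⟩ := exists_chart (h hx)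
  have hO := (D.cont i).isOpen_inter_preimage (D.isOpen i) hU
  have h1 := (hν.ae (hΨ i) hO.measurableSet inter_subset_left fun _ => False).1 (by
    rw [Measure.restrict_eq_zero.2 (measure_mono_null
      (image_subset_iff.2 inter_subset_right) h0), ae_zero]
    exact eventually_bot)
  rw [eventually_false_iff_eq_bot, ae_eq_bot, Measure.restrict_eq_zero] at h1
  exact hO.measure_ne_zero _ ⟨z, hz, hx⟩ h1

theorem Cc.memLp [T2Space Y] {F : Type} [NormedAddCommGroup F] [SecondCountableTopology F]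
    (hν : D.Den ν Ψ) (hΨ : ∀ i, ContinuousOn (Ψ i) (D.W i)) {w : Y → F} (h : D.Cc w) (q : ℝ≥0∞) :
    MemLp w q ν := by
  have hc := h.continuous
  obtain ⟨C, hC, h1, h2⟩ := h.2
  obtain ⟨B, hB⟩ := hC.exists_bound_of_continuousOn hc.continuousOn
  have := isFiniteMeasure_restrict.2 (hν.lt_top hΨ hC h1).ne
  have e : C.indicator w = w := indicator_eq_self.2 fun x hx => by_contra fun a => hx (h2 x a)
  rw [← e, memLp_indicator_iff_restrict hC.measurableSet]
  exact MemLp.of_bound hc.aestronglyMeasurable B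
    ((ae_restrict_iff' hC.measurableSet).2 (Eventually.of_forall hB))

theorem Cc.integrable [T2Space Y] {F : Type} [NormedAddCommGroup F] [SecondCountableTopology F]
    (hν : D.Den ν Ψ) (hΨ : ∀ i, ContinuousOn (Ψ i) (D.W i)) {w : Y → F} (h : D.Cc w) :
    Integrable w ν :=
  memLp_one_iff_integrable.1 (h.memLp hν hΨ 1)

/-- Gluing of local continuous representatives. -/
theorem glue {U : Set Y} (hU : IsOpen U) (hpos : ∀ O, IsOpen O → O ⊆ U → O.Nonempty → ν O ≠ 0)
    {g₀ : Y → ℂ} (hl : ∀ x ∈ U, ∃ (O : Set Y) (G : Y → ℂ), IsOpen O ∧ x ∈ O ∧ O ⊆ U ∧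
      ContinuousOn G O ∧ ∀ᵐ y ∂ν.restrict O, G y = g₀ y) :
    ∃ g : Y → ℂ, ∀ (O : Set Y) (G : Y → ℂ), IsOpen O → O ⊆ U → ContinuousOn G O →
      (∀ᵐ y ∂ν.restrict O, G y = g₀ y) → ∀ y ∈ O, g y = G y := by
  choose! O G h1 h2 h3 h4 h5 using hl
  refine ⟨fun x => G x x, fun O' G' a1 a2 a3 a4 y hy => by_contra fun hne => ?_⟩
  have hU' := a2 hy
  have hO := (((h4 y hU').mono inter_subset_left).sub
    (a3.mono inter_subset_right)).isOpen_inter_preimage ((h1 y hU').inter a1)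
      (isOpen_compl_singleton (x := (0 : ℂ)))
  refine hpos _ hO (fun t ht => a2 ht.1.2) ⟨y, ⟨h2 y hU', hy⟩, sub_ne_zero.2 hne⟩
    (measure_eq_zero_iff_ae_notMem.2 ?_)
  filter_upwards [(ae_restrict_iff' (h1 y hU').measurableSet).1 (h5 y hU'),
    (ae_restrict_iff' a1.measurableSet).1 a4] with t b1 b2 ht
  exact ht.2 (sub_eq_zero.2 ((b1 ht.1.1).trans (b2 ht.1.2).symm))

/-- A property that holds almost everywhere near each point of a set. -/
theorem ae_of_local {W : Set (E N)} {P : E N → Prop}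
    (hl : ∀ z ∈ W, ∃ O, IsOpen O ∧ z ∈ O ∧ ∀ᵐ y ∂volume.restrict O, P y) :
    ∀ᵐ y ∂volume.restrict W, P y := by
  choose! O h1 h2 h3 using hl
  obtain ⟨t, t1, t2, t3⟩ := TopologicalSpace.countable_cover_nhdsWithin (f := O) (s := W)
    fun z hz => mem_nhdsWithin_of_mem_nhds ((h1 z hz).mem_nhds (h2 z hz))
  exact ae_restrict_of_ae_restrict_of_subset t3
    ((ae_restrict_biUnion_iff O t2 P).2 fun z hz => h3 z (t1 hz))

end Man

end Pool.Agent.AB
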