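import Pool.Agent.P.MP_63735c_ag.ABMol1
import Pool.Agent.P.MP_63735c_ag.ABInt

/-! The Friedrichs commutator. -/

open scoped ComplexOrder ContDiff Matrix Topology ENNReal
open Set Metric MeasureTheory Filter

namespace Pool.Agent.AB

open Pool.Agent.SPF

variable {N : ℕ} {d A : ℝ} {ρ : E N → ℝ} {a f g : E N → ℂ}

/-- The commutator. -/
noncomputable def cm (ρ : E N → ℝ) (a f : E N → ℂ) (j : Fin N) (x : E N) : ℂ :=
  dz j (fun y => a y * cv ρ f y) x - dz j (cv ρ fun y => a y * f y) x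

theorem abmol2_mul (ha : Tst univ a) (hf : Tst univ f) : Tst univ fun y => a y * f y :=
  (Tst.mul_on isOpen_univ ha hf.smooth.contDiffOn).1

theorem abmol2_cv (h : Ker d A ρ) (hf : Tst univ f) : ContDiff ℝ ∞ (cv ρ f) :=
  cv_smooth h hf.smooth.continuous.locallyIntegrable

theorem abmol2_diff (hf : ContDiff ℝ ∞ f) (x : E N) : DifferentiableAt ℝ f x :=
  hf.differentiable (by simp) x

theorem abmol2_tst (h : Ker d A ρ) : Tst univ fun t => (ρ t : ℂ) :=
  ⟨Complex.ofRealCLM.contDiff.comp h.smooth,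
    h.cpt.comp_left (g := fun t : ℝ => (t : ℂ)) Complex.ofReal_zero, subset_univ _⟩

theorem abmol2_int (hf : Tst univ f) (hg : Continuous g) : Integrable fun y => f y * g y :=
  (hf.smooth.continuous.mul hg).integrable_of_hasCompactSupport hf.cpt.mul_right

theorem abmol2_refl (hf : ContDiff ℝ ∞ f) (j : Fin N) (x y : E N) :
    dz j (fun t => f (x - t)) y = -dz j f (x - y) := by
  have h1 : HasFDerivAt (fun t : E N => x - t) (-ContinuousLinearMap.id ℝ (E N)) y :=
    (hasFDerivAt_id y).const_sub x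
  have h2 : fderiv ℝ (fun t => f (x - t)) y = _ :=
    ((abmol2_diff hf (x - y)).hasFDerivAt.comp y h1).fderiv
  simp only [dz, h2, ContinuousLinearMap.comp_neg, ContinuousLinearMap.comp_id,
    neg_apply]
  ring

theorem abmol2_ker (h : Ker d A ρ) (hf : Tst univ f) (j : Fin N) (x : E N) :
    dz j (cv ρ f) x = ∫ y, dz j (fun t => (ρ t : ℂ)) y * f (x - y) := by
  have hr := abmol2_tst h
  have hs : ContDiff ℝ ∞ fun t => f (x - t) := hf.smooth.comp (contDiff_const.sub contDiff_id)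
  have hF := (Tst.mul_on isOpen_univ hr hs.contDiffOn).1
  have h1 := (int_dz isOpen_univ hF.cpt (subset_univ _) hF.smooth.contDiffOn
    (fun z _ hz => image_eq_zero_of_notMem_tsupport (f := fun y => (ρ y : ℂ) * f (x - y)) hz) j).1
  have h2 : ∀ y, dz j (fun t => (ρ t : ℂ) * f (x - t)) y =
      dz j (fun t => (ρ t : ℂ)) y * f (x - y) - (ρ y : ℂ) * dz j f (x - y) := fun y => by
    rw [(dz_mul (abmol2_diff hr.smooth y) (abmol2_diff hs y) j).1, abmol2_refl hf.smooth]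
    ring
  have h3 : Continuous fun y => dz j f (x - y) :=
    (hf.dz_tst j).1.smooth.continuous.comp (continuous_const.sub continuous_id)
  simp only [Measure.restrict_univ, h2] at h1
  rw [integral_sub (abmol2_int (hr.dz_tst j).1 hs.continuous) (abmol2_int hr h3)] at h1
  rw [(dz_cv h hf j x).1, cv]
  exact (sub_eq_zero.1 h1).symm

theorem cm_cont (h : Ker d A ρ) (ha : Tst univ a) (hf : Tst univ f) (j : Fin N) :
    Continuous (cm ρ a f j) := by
  have h1 := (dz_smooth isOpen_univ (ha.smooth.mul (abmol2_cv h hf)).contDiffOn j).1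
  have h2 := (dz_smooth isOpen_univ (abmol2_cv h (abmol2_mul ha hf)).contDiffOn j).1
  exact (contDiffOn_univ.1 h1).continuous.sub (contDiffOn_univ.1 h2).continuous

theorem cm_sub (h : Ker d A ρ) (ha : Tst univ a) (hf : Tst univ f) (hg : Tst univ g) (j : Fin N)
    (x : E N) : cm ρ a (fun y => f y - g y) j x = cm ρ a f j x - cm ρ a g j x := by
  have e1 : (fun y => a y * cv ρ (fun y => f y - g y) y) =
      fun y => a y * cv ρ f y - a y * cv ρ g y := by
    funext y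
    rw [cv_sub h hf.smooth.continuous hg.smooth.continuous, mul_sub]
  have e2 : (cv ρ fun y => a y * (f y - g y)) =
      fun y => cv ρ (fun y => a y * f y) y - cv ρ (fun y => a y * g y) y := by
    funext y
    rw [← cv_sub h (abmol2_mul ha hf).smooth.continuous (abmol2_mul ha hg).smooth.continuous]
    simp only [mul_sub]
  unfold cm
  rw [e1, e2, (dz_sub (abmol2_diff (ha.smooth.mul (abmol2_cv h hf)) x)
      (abmol2_diff (ha.smooth.mul (abmol2_cv h hg)) x) j).1,
    (dz_sub (abmol2_diff (abmol2_cv h (abmol2_mul ha hf)) x)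
      (abmol2_diff (abmol2_cv h (abmol2_mul ha hg)) x) j).1]
  ring

theorem cm_eq (h : Ker d A ρ) (ha : Tst univ a) (hf : Tst univ f) (j : Fin N) (x : E N) :
    cm ρ a f j x = dz j a x * cv ρ f x +
      ∫ y, dz j (fun t => (ρ t : ℂ)) y * ((a x - a (x - y)) * f (x - y)) := by
  have hr := ((abmol2_tst h).dz_tst j).1
  have hs : Continuous fun t : E N => x - t := continuous_const.sub continuous_id
  have i1 := abmol2_int (g := fun t => f (x - t)) hr (hf.smooth.continuous.comp hs)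
  have i2 := abmol2_int (g := fun t => a (x - t) * f (x - t)) hr
    ((abmol2_mul ha hf).smooth.continuous.comp hs)
  have e : ∀ y, dz j (fun t => (ρ t : ℂ)) y * ((a x - a (x - y)) * f (x - y)) =
      a x * (dz j (fun t => (ρ t : ℂ)) y * f (x - y)) -
        dz j (fun t => (ρ t : ℂ)) y * (a (x - y) * f (x - y)) := fun y => by ring
  simp only [e]
  rw [integral_sub (i1.const_mul _) i2, integral_const_mul, cm,
    (dz_mul (abmol2_diff ha.smooth x) (abmol2_diff (abmol2_cv h hf) x) j).1, abmol2_ker h hf,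
    abmol2_ker h (abmol2_mul ha hf)]
  ring

theorem abmol2_bd (ha : Tst univ a) : ∃ M : ℝ, 0 ≤ M ∧ ∀ x, ‖fderiv ℝ a x‖ ≤ M := by
  obtain ⟨M, hM⟩ := (ha.smooth.continuous_fderiv (by simp)).bounded_above_of_compact_support
    (ha.cpt.fderiv ℝ)
  exact ⟨M, (norm_nonneg _).trans (hM 0), hM⟩

theorem abmol2_dz_le (h : Ker d A ρ) (j : Fin N) (y : E N) :
    ‖dz j (fun t => (ρ t : ℂ)) y‖ ≤ ‖fderiv ℝ ρ y‖ := by
  refine (dz_norm_le _ y j).1.trans ?_
  have h1 : fderiv ℝ (fun t => (ρ t : ℂ)) y = Complex.ofRealCLM.comp (fderiv ℝ ρ y) :=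
    (Complex.ofRealCLM.hasFDerivAt.comp y
      (h.smooth.differentiable (by simp) y).hasFDerivAt).fderiv
  rw [h1]
  refine (ContinuousLinearMap.opNorm_comp_le _ _).trans ?_
  rw [Complex.ofRealCLM_norm, one_mul]

theorem cm_l2 (ha : Tst univ a) (A : ℝ) : ∃ B : ℝ, 0 ≤ B ∧ ∀ (d : ℝ) (ρ : E N → ℝ) (f : E N → ℂ)
    (j : Fin N) (C : Set (E N)), Ker d A ρ → Tst univ f → IsCompact C →
      ∫ x in C, ‖cm ρ a f j x‖ ^ 2 ≤ B * ∫ x, ‖f x‖ ^ 2 := by
  obtain ⟨M, hM0, hM⟩ := abmol2_bd ha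
  refine ⟨(M * (1 + A)) ^ 2, sq_nonneg _, fun d ρ f j C h hf hC => ?_⟩
  have hlip : ∀ x y, ‖a x - a (x - y)‖ ≤ M * ‖y‖ := fun x y => by
    have := convex_univ.norm_image_sub_le_of_norm_fderiv_le (𝕜 := ℝ) (f := a)
      (fun z _ => abmol2_diff ha.smooth z) (fun z _ => hM z) (mem_univ (x - y)) (mem_univ x)
    rwa [sub_sub_cancel] at this
  have c1 := h.smooth.continuous
  have c2 : Continuous fun y => ‖y‖ * ‖fderiv ℝ ρ y‖ :=
    continuous_norm.mul (h.smooth.continuous_fderiv (by simp)).norm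
  have s2 : HasCompactSupport fun y => ‖y‖ * ‖fderiv ℝ ρ y‖ := (h.cpt.fderiv ℝ).norm.mul_left
  have cκ : Continuous fun y => M * (ρ y + ‖y‖ * ‖fderiv ℝ ρ y‖) :=
    continuous_const.mul (c1.add c2)
  have sκ : HasCompactSupport fun y => M * (ρ y + ‖y‖ * ‖fderiv ℝ ρ y‖) :=
    (h.cpt.add s2).mul_left
  have pκ : ∀ y, 0 ≤ M * (ρ y + ‖y‖ * ‖fderiv ℝ ρ y‖) := fun y =>
    mul_nonneg hM0 (add_nonneg (h.nonneg y) (by positivity))
  have iκ : ∫ y, M * (ρ y + ‖y‖ * ‖fderiv ℝ ρ y‖) ≤ M * (1 + A) := by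
    rw [integral_const_mul, integral_add (c1.integrable_of_hasCompactSupport h.cpt)
      (c2.integrable_of_hasCompactSupport s2), h.one]
    exact mul_le_mul_of_nonneg_left (by linarith [h.der]) hM0
  refine (young cκ sκ pκ hf.smooth.continuous hf.cpt hC (cm_cont h ha hf j).continuousOn
    fun x _ => ?_).trans (mul_le_mul_of_nonneg_right
      (pow_le_pow_left₀ (integral_nonneg pκ) iκ 2) (integral_nonneg fun _ => by positivity))
  have hs : Continuous fun t : E N => x - t := continuous_const.sub continuous_id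
  have cf : Continuous fun t : E N => f (x - t) := hf.smooth.continuous.comp hs
  have i1 := (abmol2_int (abmol2_tst h) cf).const_mul (dz j a x)
  have i2 := abmol2_int (g := fun t => (a x - a (x - t)) * f (x - t)) ((abmol2_tst h).dz_tst j).1
    (((continuous_const (y := a x)).sub (ha.smooth.continuous.comp hs)).mul cf)
  rw [cm_eq h ha hf, cv, ← integral_const_mul, ← integral_add i1 i2]
  refine norm_integral_le_of_norm_le
    ((cκ.mul cf.norm).integrable_of_hasCompactSupport sκ.mul_right)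
    (Eventually.of_forall fun y => (norm_add_le _ _).trans ?_)
  have b1 : ‖dz j a x‖ ≤ M := (dz_norm_le a x j).1.trans (hM x)
  have b2 := abmol2_dz_le h j y
  have b3 := hlip x y
  have b4 := h.nonneg y
  simp only [norm_mul, Complex.norm_real, Real.norm_of_nonneg b4]
  calc _ ≤ M * (ρ y * ‖f (x - y)‖) + ‖fderiv ℝ ρ y‖ * (M * ‖y‖ * ‖f (x - y)‖) := by gcongr
    _ = _ := by ring

theorem abmol2_unif (ha : Tst univ a) (hf : Tst univ f) {γ : ℝ} (hγ : 0 < γ) (j : Fin N) :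
    ∃ d₀ : ℝ, 0 < d₀ ∧ ∀ (d A : ℝ) (ρ : E N → ℝ), d ≤ d₀ → Ker d A ρ →
      ∀ x, ‖cm ρ a f j x‖ ≤ γ := by
  obtain ⟨M, hM0, hM⟩ := abmol2_bd ha
  obtain ⟨L, hL⟩ := ha.smooth.continuous.bounded_above_of_compact_support ha.cpt
  have hL0 : 0 ≤ L := (norm_nonneg _).trans (hL 0)
  have he : 0 < γ / (M + L + 1) := by positivity
  have t2 := (hf.dz_tst j).1
  have t3 := ((abmol2_mul ha hf).dz_tst j).1
  obtain ⟨d1, p1, h1⟩ := cv_unif hf.smooth.continuous hf.cpt he
  obtain ⟨d2, p2, h2⟩ := cv_unif t2.smooth.continuous t2.cpt he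
  obtain ⟨d3, p3, h3⟩ := cv_unif t3.smooth.continuous t3.cpt he
  refine ⟨min d1 (min d2 d3), lt_min p1 (lt_min p2 p3), fun d A ρ hd h x => ?_⟩
  have g1 := h1 d A ρ (hd.trans (min_le_left _ _)) h x
  have g2 := h2 d A ρ (hd.trans ((min_le_right _ _).trans (min_le_left _ _))) h x
  have g3 := h3 d A ρ (hd.trans ((min_le_right _ _).trans (min_le_right _ _))) h x
  have e : cm ρ a f j x = dz j a x * (cv ρ f x - f x) + a x * (cv ρ (dz j f) x - dz j f x) -
      (cv ρ (dz j fun y => a y * f y) x - dz j (fun y => a y * f y) x) := by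
    rw [cm, (dz_mul (abmol2_diff ha.smooth x) (abmol2_diff (abmol2_cv h hf) x) j).1,
      (dz_mul (abmol2_diff ha.smooth x) (abmol2_diff hf.smooth x) j).1, (dz_cv h hf j x).1,
      (dz_cv h (abmol2_mul ha hf) j x).1]
    ring
  have b1 : ‖dz j a x‖ ≤ M := (dz_norm_le a x j).1.trans (hM x)
  have b2 := hL x
  rw [e]
  refine (norm_sub_le _ _).trans ((add_le_add (norm_add_le _ _) g3).trans ?_)
  rw [norm_mul, norm_mul]
  calc _ ≤ M * (γ / (M + L + 1)) + L * (γ / (M + L + 1)) + γ / (M + L + 1) := by gcongr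
    _ = γ := by field_simp

theorem cm_unif (ha : Tst univ a) (hf : Tst univ f) {γ : ℝ} (hγ : 0 < γ) :
    ∃ d₀ : ℝ, 0 < d₀ ∧ ∀ (d A : ℝ) (ρ : E N → ℝ), d ≤ d₀ → Ker d A ρ →
      ∀ j x, ‖cm ρ a f j x‖ ≤ γ := by
  have h1 : ∀ j : Fin N, ∀ᶠ d₀ in 𝓝[>] (0 : ℝ), ∀ (d A : ℝ) (ρ : E N → ℝ), d ≤ d₀ → Ker d A ρ →
      ∀ x, ‖cm ρ a f j x‖ ≤ γ := fun j => by
    obtain ⟨d1, p1, h1⟩ := abmol2_unif ha hf hγ j
    filter_upwards [Ioc_mem_nhdsGT p1] with d0 h0 d A ρ hd using h1 d A ρ (hd.trans h0.2)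
  obtain ⟨d0, h2, h3⟩ := ((eventually_all.2 h1).and self_mem_nhdsWithin).exists
  exact ⟨d0, h3, fun d A ρ hd h j => h2 j d A ρ hd h⟩

end Pool.Agent.AB
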