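import Pool.Agent.P.MP_63735c_ag.CLParam

/-! Holomorphic maps of several variables. -/

open scoped ContDiff Matrix ENNReal
open Set Metric MeasureTheory Filter Topology

namespace Pool.Agent.CL

open Pool.Agent.SPF

variable {V : Type} [NormedAddCommGroup V] [NormedSpace ℝ V] [NormedSpace ℂ V]
  [IsScalarTower ℝ ℂ V] [FiniteDimensional ℂ V]
variable {G : Type} [NormedAddCommGroup G] [NormedSpace ℝ G] [NormedSpace ℂ G]
  [IsScalarTower ℝ ℂ G] [FiniteDimensional ℂ G]
variable {n : ℕ}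

theorem hol_smooth {O : Set V} (hO : IsOpen O) {f : V → G} (hf : DifferentiableOn ℂ f O) :
    ContDiffOn ℂ ∞ f O ∧ ContDiffOn ℝ ∞ f O ∧ DifferentiableOn ℂ (fderiv ℂ f) O := by
  have h : ContDiffOn ℂ ∞ f O := by
    rw [← (Module.finBasis ℂ G).equivFunL.comp_contDiffOn_iff, contDiffOn_pi]
    intro i
    exact Lib.SCV.contDiffOn_of_differentiableOn hO
      (differentiableOn_pi.1 ((Module.finBasis ℂ G).equivFunL.differentiable.comp_differentiableOn hf) i)
  exact ⟨h, h.restrict_scalars ℝ, (h.fderiv_of_isOpen (m := 1) hO (by norm_cast)).differentiableOn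
    one_ne_zero⟩

theorem cauchy {f : V → G} {y : V} {r M : ℝ} (hr : 0 < r) (hf : DifferentiableOn ℂ f (ball y r))
    (hM : ∀ x ∈ ball y r, ‖f x‖ ≤ M) : ‖fderiv ℂ f y‖ ≤ M / r := by
  have : CompleteSpace G := FiniteDimensional.complete ℂ G
  have hM0 : 0 ≤ M := (norm_nonneg _).trans (hM y (mem_ball_self hr))
  have hfy : DifferentiableAt ℂ f y := hf.differentiableAt (ball_mem_nhds y hr)
  have key : ∀ ρ ∈ Ioo 0 r, ‖fderiv ℂ f y‖ ≤ M / ρ := by
    rintro ρ ⟨h0, h1⟩
    refine ContinuousLinearMap.opNorm_le_bound _ (by positivity) fun w => ?_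
    by_cases hw : w = 0
    · simp [hw]
    have hw' : 0 < ‖w‖ := norm_pos_iff.2 hw
    have hmem : ∀ t : ℂ, ‖t‖ ≤ ρ / ‖w‖ → y + t • w ∈ ball y r := by
      intro t ht
      rw [mem_ball, dist_eq_norm, add_sub_cancel_left, norm_smul]
      rw [le_div_iff₀ hw'] at ht
      linarith
    have hd : DifferentiableOn ℂ (fun t : ℂ => f (y + t • w)) (closedBall 0 (ρ / ‖w‖)) :=
      hf.comp (f := fun t : ℂ => y + t • w) (by fun_prop) fun t ht => hmem t (by simpa using ht)
    have := Complex.norm_deriv_le_of_forall_mem_sphere_norm_le (c := 0) (R := ρ / ‖w‖) (C := M)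
      (f := fun t : ℂ => f (y + t • w)) (by positivity)
      (hd.mono closure_ball_subset_closedBall).diffContOnCl (by
        intro t ht
        exact hM _ (hmem t (by simpa using (mem_sphere_zero_iff_norm.1 ht).le)))
    have h1 : HasDerivAt (fun t : ℂ => y + t • w) w 0 := by
      simpa using ((hasDerivAt_id (0 : ℂ)).smul_const w).const_add y
    have h2 : HasFDerivAt f (fderiv ℂ f y) ((fun t : ℂ => y + t • w) 0) := by
      simpa using hfy.hasFDerivAt
    have h3 : deriv (fun t : ℂ => f (y + t • w)) 0 = fderiv ℂ f y w :=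
      (h2.comp_hasDerivAt 0 h1).deriv
    rw [h3] at this
    refine this.trans (le_of_eq ?_)
    field_simp
  have ht : Tendsto (fun ρ : ℝ => M / ρ) (𝓝[<] r) (𝓝 (M / r)) :=
    ((continuousAt_const.div continuousAt_id hr.ne').tendsto).mono_left nhdsWithin_le_nhds
  exact ge_of_tendsto ht (mem_of_superset (Ioo_mem_nhdsLT hr) key)

theorem hol_lip {f : V → G} {y : V} {r r' M : ℝ} (hr : r' < r)
    (hf : DifferentiableOn ℂ f (ball y r)) (hM : ∀ x ∈ ball y r, ‖f x‖ ≤ M) {x x' : V}
    (hx : x ∈ ball y r') (hx' : x' ∈ ball y r') : ‖f x - f x'‖ ≤ M / (r - r') * ‖x - x'‖ := by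
  have hs : ∀ z ∈ ball y r', ball z (r - r') ⊆ ball y r := fun z hz =>
    ball_subset_ball' (by rw [mem_ball] at hz; linarith)
  have h0 : 0 < r - r' := sub_pos.2 hr
  exact (convex_ball y r').norm_image_sub_le_of_norm_fderiv_le (𝕜 := ℂ)
    (fun z hz => (hf.mono (hs z hz)).differentiableAt (ball_mem_nhds z h0))
    (fun z hz => cauchy h0 (hf.mono (hs z hz)) fun w hw => hM w (hs z hz hw)) hx' hx

theorem hol_ident {O : Set V} (hO : IsOpen O) (hc : IsPreconnected O) {f g : V → G}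
    (hf : DifferentiableOn ℂ f O) (hg : DifferentiableOn ℂ g O) {y : V} (hy : y ∈ O)
    (h : f =ᶠ[𝓝 y] g) : EqOn f g O := by
  have : CompleteSpace G := FiniteDimensional.complete ℂ G
  have key : O ⊆ {z | f =ᶠ[𝓝 z] g} := by
    refine hc.subset_of_closure_inter_subset (isOpen_setOfPred_eventually_nhds) ⟨y, hy, h⟩ ?_
    rintro z ⟨hz, hzO⟩
    obtain ⟨ε, hε, hb⟩ := Metric.isOpen_iff.1 hO z hzO
    obtain ⟨w, hw, hwS⟩ := mem_closure_iff.1 hz _ isOpen_ball (mem_ball_self hε)
    filter_upwards [ball_mem_nhds z hε] with x hx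
    let l : ℂ →L[ℂ] V := (ContinuousLinearMap.id ℂ ℂ).smulRight (x - w)
    have hl : Differentiable ℂ fun t : ℂ => w + l t := by fun_prop
    have hU : IsOpen {t : ℂ | w + l t ∈ ball z ε} := isOpen_ball.preimage hl.continuous
    have hC : Convex ℝ {t : ℂ | w + l t ∈ ball z ε} :=
      ((convex_ball z ε).translate_preimage_right w).linear_preimage
        ((l.restrictScalars ℝ : ℂ →L[ℝ] V) : ℂ →ₗ[ℝ] V)
    have ha : ∀ {k : V → G}, DifferentiableOn ℂ k O →
        AnalyticOnNhd ℂ (fun t : ℂ => k (w + l t)) {t : ℂ | w + l t ∈ ball z ε} := fun hk =>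
      (hk.comp hl.differentiableOn fun t ht => hb ht).analyticOnNhd hU
    have h0 : Tendsto (fun t : ℂ => w + l t) (𝓝 0) (𝓝 w) := by
      simpa using hl.continuous.tendsto 0
    have := (ha hf).eqOn_of_preconnected_of_eventuallyEq (ha hg) hC.isPreconnected
      (z₀ := 0) (by simpa using hw) (h0.eventually hwS) (x := 1) (by simpa [l] using hx)
    simpa [l] using this
  exact fun z hz => (key hz).self_of_nhds

theorem clhol_lim {ι H : Type} [NormedAddCommGroup H] [ProperSpace H] (U : Ultrafilter ι)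
    {a : ι → H} {M : ℝ} (h : ∀ᶠ i in (U : Filter ι), ‖a i‖ ≤ M) :
    ∃ b, Tendsto a U (𝓝 b) := by
  obtain ⟨b, -, hb⟩ := (isCompact_closedBall (0 : H) M).ultrafilter_le_nhds (U.map a)
    (le_principal_iff.2 (h.mono fun i hi => mem_closedBall_zero_iff.2 hi))
  exact ⟨b, hb⟩

/-- Bounded holomorphic maps converge along an ultrafilter, with their derivatives. -/
theorem hol_ulim {ι : Type} (U : Ultrafilter ι) {O : Set V} (hO : IsOpen O) {f : ι → V → G} {M : ℝ}
    (hf : ∀ᶠ i in (U : Filter ι), DifferentiableOn ℂ (f i) O ∧ ∀ x ∈ O, ‖f i x‖ ≤ M) :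
    ∃ g : V → G, DifferentiableOn ℂ g O ∧ ∀ x ∈ O, Tendsto (fun i => f i x) U (𝓝 (g x)) ∧
      Tendsto (fun i => fderiv ℂ (f i) x) U (𝓝 (fderiv ℂ g x)) := by
  have : ProperSpace G := FiniteDimensional.proper ℂ G
  have : ProperSpace (V →L[ℂ] G) := FiniteDimensional.proper ℂ _
  have h1 : ∀ x ∈ O, Tendsto (fun i => f i x) U (𝓝 (limUnder U fun i => f i x)) := fun x hx =>
    tendsto_nhds_limUnder (clhol_lim U (hf.mono fun i hi => hi.2 x hx))
  have key : ∀ x ∈ O, ∃ L : V →L[ℂ] G, Tendsto (fun i => fderiv ℂ (f i) x) U (𝓝 L) ∧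
      HasFDerivAt (fun z => limUnder U fun i => f i z) L x := by
    intro x hx
    obtain ⟨r, hr, hb⟩ := Metric.isOpen_iff.1 hO x hx
    obtain ⟨L, hL⟩ := clhol_lim U (a := fun i => fderiv ℂ (f i) x) (M := M / r)
      (hf.mono fun i hi => cauchy hr (hi.1.mono hb) fun z hz => hi.2 z (hb hz))
    refine ⟨L, hL, hasFDerivAt_iff_isLittleO.2 (Asymptotics.isLittleO_iff.2 fun c hc => ?_)⟩
    obtain ⟨K, hK⟩ : ∃ K : ℝ, K = |M / (r / 2) / (r / 2 - r / 4)| + 1 := ⟨_, rfl⟩
    have hK0 : 0 < K := by rw [hK]; positivity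
    have hρ : 0 < min (r / 4) (c / K) := by positivity
    have hs : ball x (min (r / 4) (c / K)) ⊆ O :=
      (ball_subset_ball ((min_le_left _ _).trans (by linarith))).trans hb
    filter_upwards [ball_mem_nhds x hρ] with y hy
    refine le_of_tendsto (((h1 y (hs hy)).sub (h1 x hx)).sub
      (((ContinuousLinearMap.apply ℂ G (y - x)).continuous.tendsto L).comp hL)).norm
      (hf.mono fun i hi => ?_)
    refine (convex_ball x _).norm_image_sub_le_of_norm_fderiv_le' (𝕜 := ℂ)
      (fun z hz => hi.1.differentiableAt (hO.mem_nhds (hs hz))) (fun z hz => ?_)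
      (mem_ball_self hρ) hy
    have hs2 : ∀ w ∈ ball x (r / 2), ball w (r / 2) ⊆ O := fun w hw =>
      (ball_subset_ball' (by rw [mem_ball] at hw; linarith)).trans hb
    have := hol_lip (f := fderiv ℂ (f i)) (y := x) (r := r / 2) (r' := r / 4) (M := M / (r / 2))
      (by linarith) ((hol_smooth hO hi.1).2.2.mono (hs2 x (mem_ball_self (by linarith))))
      (fun w hw => cauchy (by linarith) (hi.1.mono (hs2 w hw)) fun v hv => hi.2 v (hs2 w hw hv))
      (ball_subset_ball (min_le_left _ _) hz) (mem_ball_self (by linarith))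
    rw [mem_ball, dist_eq_norm] at hz
    calc _ ≤ _ := this
      _ ≤ K * (c / K) := mul_le_mul (by rw [hK]; linarith [le_abs_self (M / (r / 2) / (r / 2 - r / 4))])
          (hz.le.trans (min_le_right _ _)) (norm_nonneg _) hK0.le
      _ = c := by field_simp
  refine ⟨fun z => limUnder U fun i => f i z, fun x hx => ?_, fun x hx => ⟨h1 x hx, ?_⟩⟩
  · obtain ⟨L, -, hL⟩ := key x hx
    exact hL.differentiableAt.differentiableWithinAt
  · obtain ⟨L, h, hL⟩ := key x hx
    rwa [hL.fderiv]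

/-- The Levi form is compatible with holomorphic maps. -/
theorem Lv_comp {f : G → ℝ} {g : V → G} {x : V} (hf : ContDiffAt ℝ 2 f (g x))
    (hg : ∀ᶠ y in 𝓝 x, DifferentiableAt ℂ g y) (u : V) :
    Lv (fun y => f (g y)) x u = Lv f (g x) (fderiv ℂ g x u) := by
  obtain ⟨O, hO, hOo, hx⟩ := _root_.eventually_nhds_iff.1 hg
  have hgO : DifferentiableOn ℂ g O := fun y hy => (hO y hy).differentiableWithinAt
  have hB : HasFDerivAt (fderiv ℂ g) (fderiv ℂ (fderiv ℂ g) x) x :=
    ((hol_smooth hOo hgO).2.2.differentiableAt (hOo.mem_nhds hx)).hasFDerivAt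
  have hA : HasFDerivAt (fderiv ℝ f) (fderiv ℝ (fderiv ℝ f) (g x)) (g x) :=
    ((hf.fderiv_right (m := 1) (by norm_num)).differentiableAt one_ne_zero).hasFDerivAt
  have hg1 := (hO x hx).hasFDerivAt
  have hfd : ∀ᶠ z in 𝓝 (g x), DifferentiableAt ℝ f z :=
    (hf.eventually (by simp)).mono fun z hz => hz.differentiableAt (by norm_num)
  have he : fderiv ℝ (fun y => f (g y)) =ᶠ[𝓝 x] fun y => (fderiv ℝ f (g y)).comp
      (ContinuousLinearMap.restrictScalarsL ℂ V G ℝ ℝ (fderiv ℂ g y)) := by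
    filter_upwards [hg, hg1.continuousAt.eventually hfd] with y h1 h2
    exact (h2.hasFDerivAt.comp y (h1.hasFDerivAt.restrictScalars ℝ)).fderiv
  have hH := (hA.comp x (hg1.restrictScalars ℝ)).clm_comp
    ((ContinuousLinearMap.restrictScalarsL ℂ V G ℝ ℝ).hasFDerivAt.comp x (hB.restrictScalars ℝ))
  have hD : ∀ v, D2 (fun y => f (g y)) x v = fderiv ℝ f (g x) (fderiv ℂ (fderiv ℂ g) x v v) +
      D2 f (g x) (fderiv ℂ g x v) := fun v => by
    rw [D2, he.fderiv_eq]
    have := hH.fderiv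
    simp only [Function.comp_def] at this
    rw [this]
    simp [D2]
  rw [Lv, Lv, hD, hD]
  simp [smul_smul]
  ring

theorem Lv_nsq (x u : E n) : Lv nsq x u = 4 * nsq u := by
  let L : E n →L[ℝ] E n →L[ℝ] ℝ := ∑ k, (2 : ℝ) • (innerSL ℝ (E := ℂ)).bilinearComp
    (ContinuousLinearMap.proj k) (ContinuousLinearMap.proj k)
  have h1 : fderiv ℝ (nsq (n := n)) = L := by
    funext y
    have : HasFDerivAt (fun v : E n => ∑ k, ‖v k‖ ^ 2) _ y := HasFDerivAt.fun_sum
      fun k (_ : k ∈ Finset.univ) =>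
        (ContinuousLinearMap.proj (R := ℝ) (φ := fun _ : Fin n => ℂ) k).hasFDerivAt.norm_sq
    refine this.fderiv.trans ?_
    ext v
    simp [L, mul_add]
  have h2 : ∀ v : E n, D2 nsq x v = 2 * nsq v := fun v => by
    rw [D2, h1, L.fderiv]
    simp [L, nsq, Finset.mul_sum]
  rw [Lv, h2, h2]
  simp [nsq]
  ring

theorem Lv_linear (l : V →L[ℝ] ℝ) (x u : V) : Lv l x u = 0 := by
  have : fderiv ℝ l = fun _ => l := funext fun _ => l.fderiv
  simp [Lv, D2, this]

theorem hprim_deriv {W : Set (E n)} (hW : IsOpen W) (hc : Convex ℝ W) {α : E n → E n}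
    (hα : DifferentiableOn ℂ α W)
    (hcl : ∀ y ∈ W, ∀ u v, fderiv ℂ α y u ⬝ᵥ v = fderiv ℂ α y v ⬝ᵥ u) {o y : E n} (ho : o ∈ W)
    (hy : y ∈ W) : HasFDerivAt (hprim α o) (dl (α y)) y := by
  have hm : ∀ s ∈ Icc (0 : ℝ) 1, o + s • (y - o) ∈ W := fun s hs => hc.add_smul_sub_mem ho hy hs
  have hd : ∀ s ∈ Icc (0 : ℝ) 1, HasFDerivAt α ((fderiv ℂ α (o + s • (y - o))).restrictScalars ℝ)
      (o + s • (y - o)) := fun s hs =>
    (hα.differentiableAt (hW.mem_nhds (hm s hs))).hasFDerivAt.restrictScalars ℝ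
  obtain ⟨h1, h2⟩ := hasFDerivAt_param (f := fun y s => α (o + s • (y - o)) ⬝ᵥ (y - o)) (x := y)
    (fun s hs => by
      have ha : ContDiffAt ℝ 1 (fun q : E n × ℝ => α (o + q.2 • (q.1 - o))) (y, s) :=
        ContDiffAt.comp (g := α) (f := fun q : E n × ℝ => o + q.2 • (q.1 - o)) (y, s)
          ((((hol_smooth hW hα).2.1.contDiffAt (hW.mem_nhds (hm s hs))).of_le (by norm_cast)))
          (by fun_prop)
      simp only [dotProduct]
      exact ContDiffAt.sum fun k _ => (contDiffAt_pi.1 ha k).mul (by fun_prop))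
  refine hasFDerivAt_of_restrictScalars ℝ h1 ?_
  ext u
  have hi : IntervalIntegrable (fun s : ℝ => fderiv ℝ
      (fun y => α (o + s • (y - o)) ⬝ᵥ (y - o)) y) volume 0 1 :=
    ContinuousOn.intervalIntegrable (by rwa [uIcc_of_le zero_le_one])
  rw [ContinuousLinearMap.intervalIntegral_apply hi, intervalIntegral.integral_eq_sub_of_hasDerivAt
    (f := fun s : ℝ => (s : ℂ) * (α (o + s • (y - o)) ⬝ᵥ u))]
  · simp [dl_apply]
  · intro s hs
    rw [uIcc_of_le zero_le_one] at hs
    have a1 : HasFDerivAt (fun y : E n => α (o + s • (y - o))) _ y :=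
      HasFDerivAt.comp (g := α) (f := fun y : E n => o + s • (y - o)) y (hd s hs)
        ((((hasFDerivAt_id y).sub_const o).const_smul s).const_add o)
    have a2 : HasFDerivAt (fun y : E n => ∑ k, α (o + s • (y - o)) k * (y - o) k) _ y :=
      HasFDerivAt.fun_sum fun k (_ : k ∈ Finset.univ) => (hasFDerivAt_pi'.1 a1 k).mul
        (hasFDerivAt_pi'.1 ((hasFDerivAt_id y).sub_const o) k)
    have b1 : HasDerivAt (fun s : ℝ => α (o + s • (y - o))) _ s :=
      HasFDerivAt.comp_hasDerivAt (l := α) (f := fun s : ℝ => o + s • (y - o)) s (hd s hs)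
        (((hasDerivAt_id s).smul_const (y - o)).const_add o)
    have b2 : HasDerivAt (fun s : ℝ => ∑ k, α (o + s • (y - o)) k * u k) _ s :=
      HasDerivAt.fun_sum fun k (_ : k ∈ Finset.univ) => (hasDerivAt_pi.1 b1 k).mul_const (u k)
    have b3 := (Complex.ofRealCLM.hasDerivAt (x := s)).mul b2
    have hc' := hcl _ (hm s hs) u (y - o)
    simp only [dotProduct] at hc' ⊢
    rw [a2.fderiv]
    refine b3.congr_deriv ?_
    simp only [ContinuousLinearMap.sum_apply, ContinuousLinearMap.add_apply,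
      ContinuousLinearMap.smul_apply, ContinuousLinearMap.comp_apply, ContinuousLinearMap.proj_apply,
      ContinuousLinearMap.id_apply, ContinuousLinearMap.coe_restrictScalars', one_smul,
      Complex.ofRealCLM_apply, Complex.ofReal_one, one_mul, Finset.sum_add_distrib, smul_eq_mul]
    rw [← hc', Finset.mul_sum]
    congr 1
    refine Finset.sum_congr rfl fun k _ => ?_
    rw [ContinuousLinearMap.map_smul_of_tower]
    simp only [Pi.smul_apply, Complex.real_smul, id]
    ring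
  · exact ((ContinuousLinearMap.apply ℝ ℂ u).continuous.comp_continuousOn
      (by rwa [uIcc_of_le zero_le_one])).intervalIntegrable

end Pool.Agent.CL
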