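import Pool.Agent.P.MP_63735c_ag.ABP1
import Pool.Agent.P.MP_63735c_ag.ABPQ
import Pool.Agent.P.MP_63735c_ag.ABMV

/-! Peak functions. -/

open scoped ComplexOrder ContDiff Matrix Topology ENNReal
open Set Metric MeasureTheory Filter

namespace Pool.Agent.AB

open Pool.Agent.SPF Pool.Agent.NL

variable {N n : ℕ} {Y : Type} [TopologicalSpace Y] {A : Atlas Y N} {T : Set (E n)}
  {Ψ : E n × E n → Y}

theorem norm_exp_sq (m : ℕ) (w : ℂ) :
    ‖Complex.exp (m * w)‖ ^ 2 = Real.exp (m * (2 * w.re)) := by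
  rw [Complex.norm_exp, ← Real.exp_nat_mul]
  congr 1
  simp
  ring

/-- The data on the base. -/
theorem peak_base (hT : IsOpen T) {ψ : E n → ℝ} (hψ : ContDiffOn ℝ ∞ ψ T) {y0 : E n}
    (hy : y0 ∈ T) (hp : ∀ v, v ≠ 0 → 0 < (hq (lev ψ y0) v v).re) :
    ∃ (P : E n → ℂ) (r a B : ℝ), Differentiable ℂ P ∧ 2 * (P y0).re = ψ y0 ∧ 0 < r ∧ 0 < a ∧
      0 ≤ B ∧ closedBall y0 r ⊆ T ∧ ∀ (m : ℕ) (l : Fin n), ∃ f : E n → ℂ, ContDiff ℝ ∞ f ∧
        tsupport f ⊆ closedBall y0 r ∧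
        (∀ y ∈ ball y0 (r / 2), f y = (y l - y0 l) * Complex.exp (m * P y)) ∧
        ∀ y, ‖db f y‖ ^ 2 * Real.exp (-(m * ψ y)) ≤ B * Real.exp (-(m * a)) := by
  obtain ⟨P, hP, h0, h1⟩ := peakQ hT hψ hy hp
  obtain ⟨r, hr, hB⟩ := Metric.nhds_basis_closedBall.mem_iff.1
    (inter_mem (hT.mem_nhds hy) (eventually_nhdsWithin_iff.1 h1))
  let χ : ContDiffBump y0 := ⟨r / 2, r, half_pos hr, half_lt_self hr⟩
  have hχ : ContDiff ℝ ∞ fun y => ((χ y : ℝ) : ℂ) := Complex.ofRealCLM.contDiff.comp χ.contDiff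
  have hK : IsCompact (closedBall y0 r \ ball y0 (r / 2)) :=
    (isCompact_closedBall y0 r).diff isOpen_ball
  obtain ⟨a, ha, hQ⟩ := hK.exists_forall_le' (f := fun y => ψ y - 2 * (P y).re) (a := 0)
    ((hψ.continuousOn.mono fun y hy' => (hB hy'.1).1).sub
      (continuous_const.mul (Complex.continuous_re.comp hP.continuous)).continuousOn)
    fun y hy' => sub_pos.2 ((hB hy'.1).2 fun h2 => hy'.2 (by
      rw [mem_singleton_iff.1 h2]; exact mem_ball_self (half_pos hr)))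
  obtain ⟨B, hB'⟩ := hK.exists_bound_of_continuousOn (f := db fun y => ((χ y : ℝ) : ℂ))
    ((db_smooth isOpen_univ hχ.contDiffOn).continuousOn.mono (subset_univ _))
  refine ⟨P, r, a, (r * B) ^ 2, hP, h0, hr, ha, sq_nonneg _, fun y hy' => (hB hy').1,
    fun m l => ?_⟩
  set h : E n → ℂ := fun y => (y l - y0 l) * Complex.exp (m * P y) with hh
  have hd : Differentiable ℂ h := by
    rw [hh]
    fun_prop
  have hs : ContDiff ℝ ∞ h :=
    contDiff_iff_contDiffAt.2 fun y => smoothAt_of_hol' (Eventually.of_forall hd)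
  have ht : tsupport (fun y => ((χ y : ℝ) : ℂ) * h y) ⊆ closedBall y0 r := by
    refine closure_minimal (fun y hy' => ?_) isClosed_closedBall
    by_contra h2
    exact hy' (by simp [χ.zero_of_le_dist (not_le.1 (mt mem_closedBall.2 h2)).le])
  have h1' : ∀ y ∈ ball y0 (r / 2), ((χ y : ℝ) : ℂ) * h y = h y := fun y hy' => by
    rw [χ.one_of_mem_closedBall (ball_subset_closedBall hy'), Complex.ofReal_one, one_mul]
  refine ⟨_, hχ.mul hs, ht, h1', fun y => ?_⟩
  by_cases h2 : y ∈ closedBall y0 r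
  swap
  · rw [db_out fun h3 => h2 (ht h3), norm_zero, zero_pow two_ne_zero, zero_mul]
    positivity
  by_cases h3 : y ∈ ball y0 (r / 2)
  · rw [(db_congr (g := h) (mem_of_superset (isOpen_ball.mem_nhds h3) h1')).self_of_nhds,
      db_hol (hd y), norm_zero, zero_pow two_ne_zero, zero_mul]
    positivity
  rw [db_mul (hχ.differentiable (by simp) y) (hs.differentiable (by simp) y), db_hol (hd y),
    smul_zero, add_zero, norm_smul, hh, norm_mul, mul_right_comm, mul_pow, norm_exp_sq, mul_assoc,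
    ← Real.exp_add]
  have h4 : ‖y l - y0 l‖ ≤ r := (norm_le_pi_norm (y - y0) l).trans (mem_closedBall_iff_norm.1 h2)
  refine mul_le_mul (pow_le_pow_left₀ (by positivity)
    (mul_le_mul h4 (hB' y ⟨h2, h3⟩) (norm_nonneg _) hr.le) 2) (Real.exp_le_exp.2 ?_)
    (Real.exp_pos _).le (sq_nonneg _)
  have := mul_le_mul_of_nonneg_left (hQ y ⟨h2, h3⟩) (Nat.cast_nonneg (α := ℝ) m)
  linarith

theorem small_pow {q a b : ℝ} (h0 : 0 ≤ q) (h1 : q < 1) :
    ∃ m : ℕ, 1 ≤ m ∧ a * q ^ m + b * (m * q ^ m) < 1 := by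
  have h2 := ((tendsto_pow_atTop_nhds_zero_of_lt_one h0 h1).const_mul a).add
    ((tendsto_self_mul_const_pow_of_lt_one h0 h1).const_mul b)
  rw [mul_zero, mul_zero, add_zero] at h2
  exact ((eventually_ge_atTop 1).and (h2.eventually (gt_mem_nhds one_pos))).exists

/-- From the weighted estimate to the estimate on a ball. -/
theorem ball_est {W : Set (E N)} {z : E N} {ρ c I : ℝ} {h : E N → ℂ} {w : E N → ℝ}
    (hW : ball z ρ ⊆ W) (hh : ContinuousOn h (ball z ρ)) (hc : 0 ≤ c)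
    (hw : ∀ y, 0 ≤ w y) (h1 : ∀ y ∈ ball z ρ, ‖h y‖ ^ 2 ≤ c * w y) (hi : IntegrableOn w W volume)
    (hI : ∫ y in W, w y ≤ I) : IntegrableOn (fun y => ‖h y‖ ^ 2) (ball z ρ) volume ∧
      ∫ y in ball z ρ, ‖h y‖ ^ 2 ≤ c * I := by
  have h2 : IntegrableOn (fun y => c * w y) (ball z ρ) volume := (hi.mono_set hW).const_mul c
  have h3 : IntegrableOn (fun y => ‖h y‖ ^ 2) (ball z ρ) volume :=
    h2.mono' ((hh.norm.pow 2).aestronglyMeasurable measurableSet_ball)
      ((ae_restrict_mem measurableSet_ball).mono fun y hy => by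
        rw [Real.norm_of_nonneg (by positivity)]; exact h1 y hy)
  refine ⟨h3, (setIntegral_mono_on h3 h2 measurableSet_ball h1).trans ?_⟩
  rw [integral_const_mul]
  exact mul_le_mul_of_nonneg_left ((setIntegral_mono_set hi (Eventually.of_forall hw)
    hW.eventuallyLE).trans hI) hc

variable {hinj : ∀ i, InjOn (A.p i) (A.C i).W} {M : Set Y} {hM : IsOpen M} {k : ℝ} {φ : Y → ℝ}

theorem peak [T2Space Y] (h : Tube A T Ψ) (hne : T.Nonempty) (hTM : ∀ b ∈ T, ∀ τ, Ψ (b, τ) ∈ M)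
    (hφ : Pot A hinj hM k φ) (hk : 0 < k) {C₁ : ℝ} (hL : L2 A hinj hM k φ C₁) :
    ∃ (m : ℕ) (g : Y → E n), (man A hinj hM).Hol g ∧
      (∀ l, ∃ s : Y → ℂ, (man A hinj hM).S s ∧ ∀ i, IntegrableOn
        (fun z => wm A φ m i z * ‖g (A.p i z) l - s (A.p i z)‖ ^ 2) ((man A hinj hM).W i) volume) ∧
      ∃ T' ⊆ T, IsOpen T' ∧ T'.Nonempty ∧ ∀ b ∈ T', ∀ b' ∈ T', ∀ τ τ',
        g (Ψ (b, τ)) = g (Ψ (b', τ')) ↔ b = b' := by
  obtain ⟨y0, hy⟩ := hne
  set ψ : E n → ℝ := fun y => φ (Ψ (y, 0)) with hψ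
  have hb := fun b (hb : b ∈ T) => pot_base h.unif hφ hk hb (hTM b hb 0)
  have hψs : ContDiffOn ℝ ∞ ψ T := fun b hb' => (hb b hb').1.contDiffWithinAt
  obtain ⟨P, r, a, B, hP, hP0, hr, ha, hB, hCT, hf⟩ := peak_base h.isOpen hψs hy (hb y0 hy).2
  have hC := isCompact_closedBall y0 r
  obtain ⟨lam, hl, hlow⟩ := cpt_lower (h := lev ψ) hC
    (fun a b => (lev_smooth h.isOpen hψs a b).continuousOn.mono hCT) fun y hy' => (hb y (hCT hy')).2
  have key : ∀ m : ℕ, 1 ≤ m → ∀ l : Fin n, ∃ s g : Y → ℂ, (man A hinj hM).S s ∧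
      (man A hinj hM).Hol g ∧ (∀ x ∈ Ψ '' (T ×ˢ univ), proj T Ψ x ∈ ball y0 (r / 2) →
        s x = (proj T Ψ x l - y0 l) * Complex.exp (m * P (proj T Ψ x))) ∧ ∀ i,
      IntegrableOn (fun z => wm A φ m i z * ‖g (A.p i z) - s (A.p i z)‖ ^ 2)
        ((man A hinj hM).W i) volume ∧
      ∫ z in (man A hinj hM).W i, wm A φ m i z * ‖g (A.p i z) - s (A.p i z)‖ ^ 2 ≤
        C₁ * (n ^ 2 / lam * (B * Real.exp (-(m * a)))) := by
    intro m hm l
    obtain ⟨f, f1, f2, f3, f4⟩ := hf m l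
    have s1 : (man A hinj hM).S (push T Ψ f) := h.push_S hTM hC hCT f1 fun y hy' =>
      image_eq_zero_of_notMem_tsupport fun h1 => hy' (f2 h1)
    obtain ⟨g, g1, g2⟩ := hL m _ (push T Ψ fun y => n ^ 2 / lam * ‖db f y‖ ^ 2)
      (n ^ 2 / lam * (B * Real.exp (-(m * a)))) s1
      (h.push_cc hTM hC hCT (continuous_const.mul ((continuousOn_univ.1
        (db_smooth isOpen_univ f1.contDiffOn).continuousOn).norm.pow 2)) fun y hy' => by
          rw [db_out fun h1 => hy' (f2 h1)]; simp)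
      (fun x => indicator_nonneg (fun _ _ => by positivity) x)
      (fun x => by
        by_cases hx : x ∈ Ψ '' (T ×ˢ univ)
        · rw [push_in _ hx, h.pot_eq hTM hφ hx, mul_assoc]
          exact mul_le_mul_of_nonneg_left (f4 _) (by positivity)
        · rw [push_out _ hx, zero_mul]
          positivity)
      (h.est hTM hφ hk hC hCT hl hlow f1 f2 hm)
    exact ⟨_, g, s1, g1, fun x hx hx' => (push_in f hx).trans (f3 _ hx'), g2⟩
  obtain ⟨i, O, F, hO, hw, hF, hs⟩ := h.unif (y0, 0) hy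
  set z := F (y0, 0) with hz
  have hpz : A.p i z = Ψ (y0, 0) := (hs _ hw).2.1
  have hzW : z ∈ (man A hinj hM).W i :=
    ⟨(hs _ hw).1, by rw [mem_preimage]; exact hpz ▸ hTM y0 hy 0⟩
  set π : E N → E n := fun y => proj T Ψ (A.p i y) with hπ
  have hloc := h.proj_loc hzW.1 (hpz ▸ ⟨(y0, 0), ⟨hy, trivial⟩, rfl⟩)
  have hπz : π z = y0 := by
    simp only [hπ, hpz]
    exact h.proj_apply hy 0
  have hπc : Tendsto π (𝓝 z) (𝓝 y0) := hπz ▸ hloc.self_of_nhds.2.continuousAt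
  have hQ : ∀ᶠ y in 𝓝 y0, ψ y - 2 * (P y).re < a / 2 := by
    have h1 : ContinuousAt (fun y => ψ y - 2 * (P y).re) y0 := (hb y0 hy).1.continuousAt.sub
      (continuous_const.mul (Complex.continuous_re.comp hP.continuous)).continuousAt
    exact h1.eventually (gt_mem_nhds (by simp only [hP0]; linarith))
  set d := ‖((A.C i).σ z).det‖ / 2 with hd
  have hd0 : 0 < d := half_pos (norm_pos_iff.2 ((A.C i).σ_det z hzW.1))
  have hdet : ∀ᶠ y in 𝓝 z, d < ‖((A.C i).σ y).det‖ :=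
    ((det_cont (A.C i)).continuousAt ((A.C i).isOpen.mem_nhds hzW.1)).norm.eventually
      (lt_mem_nhds (by linarith))
  obtain ⟨ρ, hρ, hball⟩ := Metric.eventually_nhds_iff_ball.1 (hloc.and (hdet.and
    ((hπc.eventually hQ).and ((hπc.eventually (ball_mem_nhds y0 (half_pos hr))).and
      (((man A hinj hM).isOpen i).mem_nhds hzW)))))
  obtain ⟨A₀, hA, hmv⟩ := hol_l2 N hρ
  set c := |C₁| * (n ^ 2 / lam * B) / d + 1 with hc
  have hc0 : 0 ≤ |C₁| * (n ^ 2 / lam * B) / d := by positivity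
  set q := Real.exp (-(a / 4)) with hq'
  obtain ⟨m, hm, hsm⟩ := small_pow (q := q) (a := A₀ * c * ‖fderiv ℂ F (y0, 0)‖)
    (b := ‖fderiv ℂ P y0‖ * (A₀ * c)) (Real.exp_pos _).le (Real.exp_lt_one_iff.2 (by linarith))
  choose s g s1 g1 s2 g2 using key m hm
  set H : Fin n → E N → ℂ := fun l y =>
    g l (A.p i y) * Complex.exp (m * -P (π y)) - (π y l - y0 l) with hH
  have hHd : ∀ l, DifferentiableOn ℂ (H l) (ball z ρ) := fun l y hy' => by
    obtain ⟨⟨-, b2⟩, -, -, -, b5⟩ := hball y hy'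
    have b6 : DifferentiableAt ℂ (fun y => g l (A.p i y)) y :=
      (g1 l i).differentiableAt (((man A hinj hM).isOpen i).mem_nhds b5)
    exact ((b6.mul ((((hP _).comp y b2).neg).const_mul _).cexp).sub
      ((differentiableAt_pi.1 b2 l).sub_const _)).differentiableWithinAt
  have hHb : ∀ l, ‖H l z‖ ≤ A₀ * (c * q ^ m) ∧ ‖fderiv ℂ (H l) z‖ ≤ A₀ * (c * q ^ m) := by
    intro l
    obtain ⟨b1, b2⟩ := ball_est (h := H l) (c := Real.exp (m * (a / 2)) / d)
      (fun y hy' => (hball y hy').2.2.2.2)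
      (hHd l).continuousOn (by positivity) (fun y => by unfold wm; positivity)
      (fun y hy' => by
        obtain ⟨⟨b1, -⟩, b2, b3, b4, -⟩ := hball y hy'
        have e1 : H l y = (g l (A.p i y) - s l (A.p i y)) * Complex.exp (m * -P (π y)) := by
          rw [s2 l _ b1 b4, sub_mul, mul_assoc, ← Complex.exp_add]
          simp [hH, hπ]
        have e2 : Real.exp (m * (2 * (-P (π y)).re)) ≤
            Real.exp (m * (a / 2)) * Real.exp (-(m * ψ (π y))) := by
          rw [← Real.exp_add, Complex.neg_re]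
          have := mul_le_mul_of_nonneg_left b3.le (Nat.cast_nonneg (α := ℝ) m)
          exact Real.exp_le_exp.2 (by linarith)
        rw [e1, norm_mul, mul_pow, norm_exp_sq, wm, h.pot_eq hTM hφ b1, mul_comm,
          ← mul_assoc (_ / d)]
        refine mul_le_mul_of_nonneg_right (e2.trans ?_) (sq_nonneg _)
        rw [div_mul_eq_mul_div, le_div_iff₀ hd0, mul_assoc]
        exact mul_le_mul_of_nonneg_left
          (mul_le_mul_of_nonneg_left b2.le (Real.exp_pos _).le) (Real.exp_pos _).le)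
      (g2 l i).1 (g2 l i).2
    refine hmv _ z _ (by positivity) (hHd l) b1 (b2.trans ?_)
    have e3 : (q ^ m) ^ 2 = Real.exp (m * (a / 2)) * Real.exp (-(m * a)) := by
      rw [hq', ← Real.exp_nat_mul, ← Real.exp_nat_mul, ← Real.exp_add]
      congr 1
      push_cast
      ring
    have e4 : C₁ * (n ^ 2 / lam * B) / d ≤ c ^ 2 := by
      refine le_trans (div_le_div_of_nonneg_right
        (mul_le_mul_of_nonneg_right (le_abs_self C₁) (by positivity)) hd0.le) ?_
      nlinarith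
    rw [mul_pow, e3]
    refine le_trans (le_of_eq ?_) (mul_le_mul_of_nonneg_right e4 (by positivity))
    ring
  have hFd : DifferentiableAt ℂ F (y0, 0) := hF.differentiableAt (hO.mem_nhds hw)
  have hl0 : ∀ y : E n, HasFDerivAt (fun y : E n => ((y, 0) : E n × E n))
      (ContinuousLinearMap.inl ℂ (E n) (E n)) y := fun y => hasFDerivAt_prodMk_left y 0
  have hev : ∀ᶠ y in 𝓝 y0, (y, 0) ∈ O ∧ F (y, 0) ∈ ball z ρ ∧ y ∈ T :=
    ((hl0 y0).continuousAt.eventually (hO.mem_nhds hw)).and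
      (((hFd.comp y0 (hl0 y0).differentiableAt).continuousAt.eventually
        (ball_mem_nhds z hρ)).and (h.isOpen.mem_nhds hy))
  have hG : (man A hinj hM).Hol fun x l => g l x := fun j => differentiableOn_pi.2 fun l => g1 l j
  obtain ⟨U, hU, hinjU⟩ := inj_of_small (G := fun y l => g l (Ψ (y, 0)))
    (H := fun y l => H l (F (y, 0))) (a := A₀ * (c * q ^ m))
    (b := A₀ * (c * q ^ m) * ‖fderiv ℂ F (y0, 0)‖) (m := m) (y := y0) hP
    (hev.mono fun y hy' => differentiableAt_pi.2 fun l =>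
      ((hHd l).differentiableAt (isOpen_ball.mem_nhds hy'.2.1)).comp y
        ((hF.differentiableAt (hO.mem_nhds hy'.1)).comp y (hl0 y).differentiableAt))
    (hev.mono fun y hy' => funext fun l => by
      have e1 : A.p i (F (y, 0)) = Ψ (y, 0) := (hs _ hy'.1).2.1
      simp only [hH, hπ, e1, h.proj_apply hy'.2.2, Pi.smul_apply, Pi.add_apply, Pi.sub_apply,
        smul_eq_mul, sub_add_cancel]
      rw [mul_left_comm, ← Complex.exp_add]
      simp)
    ((pi_norm_le_iff_of_nonneg (by positivity)).2 fun l => (hHb l).1)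
    (fun v => (pi_norm_le_iff_of_nonneg (by positivity)).2 fun l => by
      have e1 : HasFDerivAt (fun y l => H l (F (y, 0))) _ y0 := hasFDerivAt_pi.2 fun l =>
        ((hHd l).differentiableAt (ball_mem_nhds z hρ)).hasFDerivAt.comp y0
          (hFd.hasFDerivAt.comp y0 (hl0 y0))
      rw [e1.fderiv, mul_assoc]
      refine ((fderiv ℂ (H l) z).le_opNorm _).trans
        (mul_le_mul (hHb l).2 (((fderiv ℂ F (y0, 0)).le_opNorm _).trans (le_of_eq ?_))
          (norm_nonneg _) (by positivity))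
      simp)
    (by linarith)
  refine ⟨m, _, hG, fun l => ⟨s l, s1 l, fun j => (g2 l j).1⟩, interior U ∩ T, inter_subset_right,
    isOpen_interior.inter h.isOpen, ⟨y0, mem_interior_iff_mem_nhds.2 hU, hy⟩,
    fun b hb1 b' hb2 τ τ' => ?_⟩
  rw [hol_leaf h.unif h.fib hG hb1.2 (hTM b hb1.2) τ,
    hol_leaf h.unif h.fib hG hb2.2 (hTM b' hb2.2) τ']
  exact ⟨fun he => hinjU (interior_subset hb1.1) (interior_subset hb2.1) he, fun he => he ▸ rfl⟩

end Pool.Agent.AB
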