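import Pool.Agent.P.MP_63735c_ag.ABApp
import Pool.Agent.P.MP_c4558b_ag.NLDefs

/-! Potentials, the L2 estimate and tubes of compact leaves (not in any statement). -/

open scoped ComplexOrder ContDiff Matrix Topology ENNReal
open Set Metric MeasureTheory Filter

namespace Pool.Agent.AB

open Pool.Agent.SPF Pool.Agent.NL

variable {N n : ℕ} {Y : Type} [TopologicalSpace Y]

/-- `φ` is a smooth potential of `k η` on `M`. -/
structure Pot (A : Atlas Y N) (hinj : ∀ i, InjOn (A.p i) (A.C i).W) {M : Set Y} (hM : IsOpen M)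
    (k : ℝ) (φ : Y → ℝ) : Prop where
  smo : (man A hinj hM).Smo φ
  lev : ∀ i, ∀ z ∈ (man A hinj hM).W i,
    lev (fun y => φ (A.p i y)) z = (k : ℂ) • (A.C i).η z

/-- The weight `exp (-m φ) |det σ|` in the chart `i`. -/
noncomputable def wm (A : Atlas Y N) (φ : Y → ℝ) (m : ℕ) (i : A.ι) (z : E N) : ℝ :=
  Real.exp (-(m * φ (A.p i z))) * ‖((A.C i).σ z).det‖

/-- The L2 estimate for the weights `exp (-m φ)`. -/
def L2 (A : Atlas Y N) (hinj : ∀ i, InjOn (A.p i) (A.C i).W) {M : Set Y} (hM : IsOpen M)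
    (k : ℝ) (φ : Y → ℝ) (C₁ : ℝ) : Prop :=
  ∀ (m : ℕ) (s : Y → ℂ) (c : Y → ℝ) (C₀ : ℝ), (man A hinj hM).S s → (man A hinj hM).Cc c →
    (∀ x, 0 ≤ c x) → (∀ x, c x * Real.exp (-(m * φ x)) ≤ C₀) →
    (∀ i, ∀ z ∈ (man A hinj hM).W i, ∀ v, ‖v ⬝ᵥ star (db (fun y => s (A.p i y)) z)‖ ^ 2 ≤
      c (A.p i z) * (m * k * (hq ((A.C i).η z) v v).re)) →
    ∃ g : Y → ℂ, (man A hinj hM).Hol g ∧ ∀ i,
      IntegrableOn (fun z => wm A φ m i z * ‖g (A.p i z) - s (A.p i z)‖ ^ 2)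
        ((man A hinj hM).W i) volume ∧
      ∫ z in (man A hinj hM).W i, wm A φ m i z * ‖g (A.p i z) - s (A.p i z)‖ ^ 2 ≤ C₁ * C₀

/-- Over `T` the leaves are disjoint tori of bounded size. -/
structure Tube (A : Atlas Y N) (T : Set (E n)) (Ψ : E n × E n → Y) : Prop where
  isOpen : IsOpen T
  unif : A.IsUnif T Ψ
  fib : IsFibred Ψ T
  red : ∃ j : ℝ, ∀ b ∈ T, ∀ τ, ∃ τ' ∈ closedBall (0 : E n) j, Ψ (b, τ) = Ψ (b, τ')

/-- The projection of the tube to its base. -/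
noncomputable def proj (T : Set (E n)) (Ψ : E n × E n → Y) (x : Y) : E n :=
  (Function.invFunOn Ψ (T ×ˢ univ) x).1

/-- A function on the base, pulled back to the tube and extended by zero. -/
noncomputable def push {F : Type} [Zero F] (T : Set (E n)) (Ψ : E n × E n → Y) (f : E n → F) :
    Y → F := (Ψ '' (T ×ˢ univ)).indicator fun x => f (proj T Ψ x)

end Pool.Agent.AB
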