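import Pool.Agent.P.MP_63735c_ag.ABMain

/-! A nonzero section does not vanish on a family of tori. -/

open Set Metric Filter Topology

namespace Pool.Agent.AB

open Pool.Agent.SPF Pool.Agent.NL

variable {N n : ℕ} {Y : Type} [TopologicalSpace Y] [PreconnectedSpace Y] {A : Atlas Y N} {k : ℝ}
  {u : Y → ℝ} {T : Set (E n)} {Ψ : E n × E n → Y}

theorem sect_dense (hu : A.IsSectionNorm k u) (h0 : ∃ x, u x ≠ 0) : Dense {x | u x ≠ 0} := by
  rw [← compl_compl {x | u x ≠ 0}, ← interior_eq_empty_iff_dense_compl]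
  by_contra hne
  have hc : IsClopen (interior {x | u x ≠ 0}ᶜ) := by
    refine ⟨isClosed_of_closure_subset fun x hx => ?_, isOpen_interior⟩
    obtain ⟨i, z, hz, rfl⟩ := A.cover x
    obtain ⟨O, ψ, f, hO, hzO, hs, -, hf, h⟩ := hu i z hz
    obtain ⟨r, hr, hB⟩ := Metric.isOpen_iff.1 hO z hzO
    have ho := A.opn i _ isOpen_ball (hB.trans hs)
    obtain ⟨_, ⟨y, hy, rfl⟩, h1⟩ := mem_closure_iff.1 hx _ ho ⟨z, mem_ball_self hr, rfl⟩
    have h2 : f =ᶠ[𝓝 y] fun _ => 0 := by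
      filter_upwards [((A.cont i).continuousAt ((A.C i).isOpen.mem_nhds (hs (hB hy)))).eventually
        (mem_interior_iff_mem_nhds.1 h1), hO.mem_nhds (hB hy)] with w a1 a2
      simpa [(h w a2).2] using a1
    have h3 := spident_scv isOpen_ball (convex_ball z r) (hf.mono hB) (differentiableOn_const 0) hy h2
    refine interior_maximal ?_ ho ⟨z, mem_ball_self hr, rfl⟩
    rintro _ ⟨w, hw, rfl⟩
    simp [(h w (hB hw)).2, h3 hw]
  obtain ⟨x, hx⟩ := h0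
  have h1 : x ∈ interior {x | u x ≠ 0}ᶜ := hc.eq_univ (nonempty_iff_ne_empty.2 hne) ▸ mem_univ x
  exact absurd hx (interior_subset h1)

theorem sect_base (hu : A.IsSectionNorm k u) (h0 : ∃ x, u x ≠ 0) (h : A.IsUnif T Ψ)
    (hT : IsOpen T) (hne : T.Nonempty) (hf : IsFibred Ψ T) :
    (T ∩ {b | u (Ψ (b, 0)) ≠ 0}).Nonempty := by
  obtain ⟨b, hb⟩ := hne
  obtain ⟨i, z, hz, e⟩ := A.cover (Ψ (b, 0))
  obtain ⟨χ, hχ⟩ := unif_inv h hT hz (w := (b, 0)) hb e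
  obtain ⟨V, h1, h2, h3⟩ := _root_.eventually_nhds_iff.1 (hχ.and ((A.C i).isOpen.mem_nhds hz))
  obtain ⟨_, ⟨y, hy, rfl⟩, h4⟩ := (sect_dense hu h0).inter_open_nonempty _
    (A.opn i V h2 fun y hy => (h1 y hy).2) ⟨_, z, h3, rfl⟩
  refine ⟨(χ y).1, (h1 y hy).1.2.1, fun h5 => h4 ?_⟩
  rw [← (h1 y hy).1.2.2, ← h5]
  exact sect_leaf h hf hu (h1 y hy).1.2.1 (χ y).2

end Pool.Agent.AB
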