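import Pool.Agent.P.MP_63735c_ag.CKBase

/-! Coordinates in which given closed forms are coordinate differentials. -/

open scoped ComplexOrder ContDiff Matrix
open Set Metric MeasureTheory Filter Topology

namespace Pool.Agent.CK

open Pool.Agent.SPF Pool.Agent.CL Pool.Agent.NL

variable {N n : ℕ} {X : Type} [TopologicalSpace X] {A : Atlas X N} {T O : Set (E n)}
  {Ψ : P n → X}

theorem ckcoord_ext {ρ : ℕ} {v : Fin ρ → E n} (hv : LinearIndependent ℂ v) :
    ∃ (b : Fin n → E n) (ι : Fin ρ ↪ Fin n), LinearIndependent ℂ b ∧ ∀ i, b (ι i) = v i := by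
  have hr : Module.finrank ℂ (E n) = n := by simp
  have hρ : ρ ≤ n := by simpa [hr] using hv.fintype_card_le_finrank
  have key : ∀ m, ρ ≤ m → m ≤ n → ∃ (b : Fin m → E n) (ι : Fin ρ ↪ Fin m),
      LinearIndependent ℂ b ∧ ∀ i, b (ι i) = v i := by
    intro m hm
    induction m, hm using Nat.le_induction with
    | base => exact fun _ => ⟨v, Function.Embedding.refl _, hv, fun _ => rfl⟩
    | succ m hm ih =>
      intro h
      obtain ⟨b, ι, hb, hι⟩ := ih (by omega)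
      obtain ⟨x, hx⟩ := exists_linearIndependent_snoc_of_lt_finrank hb (by omega)
      refine ⟨Fin.snoc b x, ι.trans Fin.castSuccEmb, hx, fun i => ?_⟩
      simp [hι]
  exact key n hρ le_rfl

theorem ckcoord_inj {b : Fin n → E n} (hb : LinearIndependent ℂ b) {u : E n}
    (h : ∀ k, b k ⬝ᵥ u = 0) : u = 0 := by
  have hs : Submodule.span ℂ (range b) = ⊤ :=
    hb.span_eq_top_of_card_eq_finrank' (by simp)
  have h1 : ∀ x ∈ Submodule.span ℂ (range b), x ⬝ᵥ u = 0 := by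
    intro x hx
    induction hx using Submodule.span_induction with
    | mem x hx =>
      obtain ⟨k, rfl⟩ := hx
      exact h k
    | zero => simp
    | add x y _ _ hx hy => rw [add_dotProduct, hx, hy, add_zero]
    | smul a x _ hx => rw [smul_dotProduct, hx, smul_zero]
  funext k
  simpa using h1 (Pi.single k 1) (hs ▸ Submodule.mem_top)

theorem exists_coord {V : Set (E n)} (hV : IsOpen V) (hc : Convex ℝ V) {y0 : E n} (h0 : y0 ∈ V)
    {ρ : ℕ} {w : Fin ρ → E n → E n} (hw : ∀ i, DifferentiableOn ℂ (w i) V)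
    (hcl : ∀ i, ∀ y ∈ V, ∀ u v, fderiv ℂ (w i) y u ⬝ᵥ v = fderiv ℂ (w i) y v ⬝ᵥ u)
    (hi : LinearIndependent ℂ fun i => w i y0) :
    ∃ (T' : Set (E n)) (g : Ret n) (κ : E n → E n) (ι : Fin ρ ↪ Fin n), T'.Nonempty ∧
      Geo V T' g ∧ (∀ y, g.α y = 0) ∧ ∀ y ∈ T', κ (g.γ y) = y ∧
        (∀ᶠ x in 𝓝 (g.γ y), DifferentiableAt ℂ κ x ∧ g.γ (κ x) = x) ∧
        ∀ i, g.N y (Pi.single (ι i) 1) = w i (g.γ y) := by
  obtain ⟨b, ι, hb, hι⟩ := ckcoord_ext hi
  let W : Fin n → E n → E n := Function.extend ι w fun k _ => b k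
  have hWι : ∀ i, W (ι i) = w i := fun i => ι.injective.extend_apply _ _ i
  have hW : ∀ k, DifferentiableOn ℂ (W k) V ∧
      (∀ y ∈ V, ∀ u v, fderiv ℂ (W k) y u ⬝ᵥ v = fderiv ℂ (W k) y v ⬝ᵥ u) ∧ W k y0 = b k := by
    intro k
    by_cases h : ∃ i, ι i = k
    · obtain ⟨i, rfl⟩ := h
      rw [hWι]
      exact ⟨hw i, hcl i, (hι i).symm⟩
    · have : W k = fun _ => b k := Function.extend_apply' _ _ _ h
      rw [this]
      exact ⟨differentiableOn_const _, fun y _ u v => by simp, rfl⟩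
  let κ : E n → E n := fun y k => hprim (W k) y0 y
  have hκ : ∀ y ∈ V, HasFDerivAt κ (ContinuousLinearMap.pi fun k => dl (W k y)) y :=
    fun y hy => hasFDerivAt_pi.2 fun k => hprim_deriv hV hc (hW k).1 (hW k).2.1 h0 hy
  have hκd : DifferentiableOn ℂ κ V := fun y hy => (hκ y hy).differentiableAt.differentiableWithinAt
  have hκa : ∀ y ∈ V, ∀ u k, fderiv ℂ κ y u k = W k y ⬝ᵥ u := by
    intro y hy u k
    rw [(hκ y hy).fderiv, ContinuousLinearMap.pi_apply, dl_apply]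
  obtain ⟨hs1, -, hs3⟩ := hol_smooth hV hκd
  have hU : IsOpen (V ∩ fderiv ℂ κ ⁻¹' {L | IsUnit L}) :=
    hs3.continuousOn.isOpen_inter_preimage hV Units.isOpen
  have hu0 : IsUnit (fderiv ℂ κ y0) := by
    have h1 : Function.Injective (fderiv ℂ κ y0 : E n →ₗ[ℂ] E n) := by
      refine (injective_iff_map_eq_zero _).2 fun u hu => ckcoord_inj hb fun k => ?_
      rw [← (hW k).2.2, ← hκa y0 h0 u k]
      exact congrFun hu k
    exact ContinuousLinearMap.isUnit_iff_bijective.2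
      ⟨h1, LinearMap.injective_iff_surjective.1 h1⟩
  have eq : ∀ s, IsUnit (fderiv ℂ κ s) →
      ∃ D : E n ≃L[ℂ] E n, (D : E n →L[ℂ] E n) = fderiv ℂ κ s :=
    fun s hs' => ⟨(LinearEquiv.ofBijective (fderiv ℂ κ s : E n →ₗ[ℂ] E n)
      (ContinuousLinearMap.isUnit_iff_bijective.1 hs')).toContinuousLinearEquiv, by ext; rfl⟩
  obtain ⟨D, hD⟩ := eq y0 hu0
  have hst : HasStrictFDerivAt κ (D : E n →L[ℂ] E n) y0 := by
    rw [hD]
    exact (hs1.contDiffAt (hV.mem_nhds h0)).hasStrictFDerivAt (by simp)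
  obtain ⟨e, he, he0, hsub⟩ : ∃ e : OpenPartialHomeomorph (E n) (E n), (e : E n → E n) = κ ∧
      y0 ∈ e.source ∧ e.source ⊆ V ∩ fderiv ℂ κ ⁻¹' {L | IsUnit L} :=
    ⟨(hst.toOpenPartialHomeomorph κ).restrOpen _ hU, rfl,
      ⟨hst.mem_toOpenPartialHomeomorph_source, h0, hu0⟩, fun s hs' => hs'.2⟩
  have hmV : MapsTo e.symm e.target V := fun y hy => (hsub (e.map_target hy)).1
  have hsym : ∀ y ∈ e.target, DifferentiableAt ℂ e.symm y ∧
      ∀ u, fderiv ℂ κ (e.symm y) (fderiv ℂ e.symm y u) = u := by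
    intro y hy
    obtain ⟨D', hD'⟩ := eq _ (hsub (e.map_target hy)).2
    have h2 : HasFDerivAt e (D' : E n →L[ℂ] E n) (e.symm y) := by
      rw [hD', he]
      exact (hκd.differentiableAt (hV.mem_nhds (hmV hy))).hasFDerivAt
    have h3 := e.hasFDerivAt_symm hy h2
    refine ⟨h3.differentiableAt, fun u => ?_⟩
    rw [h3.fderiv, ← hD']
    exact D'.apply_symm_apply u
  have hγ : DifferentiableOn ℂ e.symm e.target := fun y hy => (hsym y hy).1.differentiableWithinAt
  obtain ⟨L, hL⟩ := exists_trL (n := n)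
  refine ⟨e.target, ⟨e.symm, fun _ => 0, fun y => tr (fderiv ℂ κ (e.symm y))⟩, κ, ι,
    ⟨_, e.map_source he0⟩, ⟨⟨e.open_target, subset_univ _, hγ, differentiableOn_const _, ?_,
      mapsTo_univ _ _, fun y hy ξ u => ?_, fun _ _ _ => rfl⟩, hmV⟩, fun _ => rfl,
    fun y hy => ⟨?_, ?_, fun i => ?_⟩⟩
  · have h1 := L.differentiable.comp_differentiableOn (hs3.comp hγ hmV)
    exact h1.congr fun y _ => (hL _).symm
  · show tr (fderiv ℂ κ (e.symm y)) ξ ⬝ᵥ fderiv ℂ e.symm y u = ξ ⬝ᵥ u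
    rw [tr_pair, (hsym y hy).2]
  · rw [← he]
    exact e.right_inv hy
  · filter_upwards [e.open_source.mem_nhds (e.map_target hy)] with x hx
    refine ⟨hκd.differentiableAt (hV.mem_nhds (hsub hx).1), ?_⟩
    rw [← he]
    exact e.left_inv hx
  · funext k
    have h1 := tr_pair (fderiv ℂ κ (e.symm y)) (Pi.single (ι i) 1) (Pi.single k 1)
    rw [dotProduct_single, mul_one, single_dotProduct, one_mul, hκa _ (hmV hy), dotProduct_single,
      mul_one, hWι] at h1
    exact h1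

end Pool.Agent.CK
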