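import Pool.Agent.P.MP_63735c_ag.CKPull
import Pool.Agent.P.MP_63735c_ag.CKPoinc

/-! Changes of the uniformising map. -/

open scoped ComplexOrder ContDiff Matrix
open Set Metric MeasureTheory Filter Topology

namespace Pool.Agent.CK

open Pool.Agent.SPF Pool.Agent.CL Pool.Agent.NL

variable {N n : ℕ} {X : Type} [TopologicalSpace X] {A : Atlas X N} {T O : Set (E n)}
  {Ψ : P n → X}

theorem ckrep_ev {g : Ret n} (hg : Geo T O g) {p : P n} (hp : p.1 ∈ O) :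
    ∀ᶠ s in 𝓝 p, DifferentiableAt ℂ g.act s := by
  have ho : IsOpen (O ×ˢ (univ : Set (E n))) := hg.1.isOpen.prod isOpen_univ
  filter_upwards [ho.mem_nhds (show p ∈ O ×ˢ univ from ⟨hp, trivial⟩)] with s hs
  exact hg.1.smooth.2.2.1.differentiableAt (ho.mem_nhds hs)

theorem ckrep_fd {g : Ret n} (hg : Geo T O g) {p : P n} (hp : p.1 ∈ O) (u : P n) :
    fderiv ℂ g.act p u = (fderiv ℂ g.γ p.1 u.1,
      g.N p.1 (u.2 - fderiv ℂ g.α p.1 u.1) + fderiv ℂ g.N p.1 u.1 (p.2 - g.α p.1)) := by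
  rw [← hg.1.smooth.2.2.2 p hp u, (ckrep_ev hg hp).self_of_nhds.fderiv_restrictScalars ℝ]
  rfl

theorem rep_unif (h : A.IsUnif T Ψ) {g : Ret n} (hg : Geo T O g) :
    A.IsUnif O fun p => Ψ (g.act p) := by
  intro w hw
  obtain ⟨i, O', f, hO', hw', hf, hs⟩ := h (g.act w) (hg.2 hw)
  have ho : IsOpen (O ×ˢ (univ : Set (E n))) := hg.1.isOpen.prod isOpen_univ
  have hd := hg.1.smooth.2.2.1
  refine ⟨i, (O ×ˢ univ) ∩ g.act ⁻¹' O', fun p => f (g.act p),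
    hd.continuousOn.isOpen_inter_preimage ho hO', ⟨⟨hw, trivial⟩, hw'⟩,
    hf.comp (hd.mono inter_subset_left) fun p hp => hp.2, fun s hs' => ?_⟩
  have h1 : s.1 ∈ O := hs'.1.1
  obtain ⟨a1, a2, a3, a4, a5⟩ := hs (g.act s) hs'.2
  obtain ⟨b1, b2, b3⟩ := pair_inv (hg.1.pair s.1 h1)
  have e : fderiv ℂ (fun p => f (g.act p)) s = (fderiv ℂ f (g.act s)).comp (fderiv ℂ g.act s) :=
    fderiv_comp s (hf.differentiableAt (hO'.mem_nhds hs'.2)) (ckrep_ev hg h1).self_of_nhds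
  have e0 : ∀ τ, fderiv ℂ g.act s (0, τ) = (0, g.N s.1 τ) := fun τ => by
    rw [ckrep_fd hg h1]
    simp
  have hb : Function.Bijective (fderiv ℂ g.act s) := by
    refine ⟨(injective_iff_map_eq_zero _).2 fun u hu => ?_, fun v => ?_⟩
    · rw [ckrep_fd hg h1, Prod.mk_eq_zero] at hu
      have c1 : u.1 = 0 := (injective_iff_map_eq_zero _).1 b3.1 _ hu.1
      have c2 : g.N s.1 u.2 = 0 := by simpa [c1] using hu.2
      have c3 := b2 u.2
      rw [c2, map_zero] at c3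
      exact Prod.ext c1 c3.symm
    · obtain ⟨b, hb⟩ := b3.2 v.1
      refine ⟨(b, tr (fderiv ℂ g.γ s.1) (v.2 - fderiv ℂ g.N s.1 b (s.2 - g.α s.1)) +
        fderiv ℂ g.α s.1 b), ?_⟩
      rw [ckrep_fd hg h1]
      simp only [add_sub_cancel_right, b1, sub_add_cancel, hb]
  refine ⟨a1, a2, ?_, fun v => ?_, fun b τ τ' => ?_⟩
  · rw [e]
    exact a3.comp hb
  · rw [a4 v, e]
    refine ⟨fun ⟨τ, hτ⟩ => ⟨tr (fderiv ℂ g.γ s.1) τ, ?_⟩, fun ⟨τ, hτ⟩ => ⟨g.N s.1 τ, ?_⟩⟩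
    · rw [ContinuousLinearMap.comp_apply, e0, b1, hτ]
    · rw [← hτ, ContinuousLinearMap.comp_apply, e0]
  · rw [e, ContinuousLinearMap.comp_apply, ContinuousLinearMap.comp_apply, e0, ckrep_fd hg h1, a5,
      dotProduct_comm, hg.1.pair s.1 h1, dotProduct_comm]

theorem rep_std (hinj : ∀ i, InjOn (A.p i) (A.C i).W) (h : Std A T Ψ) {g : Ret n}
    (hg : Geo T O g) (hcl : ∀ y ∈ O, ∀ u v, fderiv ℂ g.α y u ⬝ᵥ v = fderiv ℂ g.α y v ⬝ᵥ u) :
    Std A O fun p => Ψ (g.act p) := by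
  refine ⟨rep_unif h.1 hg, fun c p hp => ?_⟩
  refine ContinuousLinearMap.ext fun u => ContinuousLinearMap.ext fun v => ?_
  rw [pb_comp hinj (gform_20 A c) h.1 (ckrep_ev hg hp) (hg.2 hp) (Eventually.of_forall fun _ => rfl),
    h.2 c (g.act p) (hg.2 hp)]
  exact sig_inv hg.1 hcl c p hp u v

theorem rep_leaf (hinj : ∀ i, InjOn (A.p i) (A.C i).W) {β : A.ι → Form2 (E N)} (hβ : GForm A β)
    (h : A.IsUnif T Ψ) {g : Ret n} (hg : Geo T O g) {y : E n} (hy : y ∈ O) (ξ a b : E n) :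
    leaf (pb A β fun p => Ψ (g.act p)) y ξ a b =
      leaf (pb A β Ψ) (g.γ y) (g.N y (ξ - g.α y)) (g.N y a) (g.N y b) := by
  have e0 : ∀ τ, fderiv ℝ g.act (y, ξ) (0, τ) = (0, g.N y τ) := fun τ => by
    rw [hg.1.smooth.2.2.2 (y, ξ) hy]
    simp
  show pb A β (fun p => Ψ (g.act p)) (y, ξ) (0, a) (0, b) =
    pb A β Ψ (g.act (y, ξ)) (0, g.N y a) (0, g.N y b)
  rw [pb_comp (p := (y, ξ)) hinj hβ h (ckrep_ev hg hy) (hg.2 hy)
    (Eventually.of_forall fun _ => rfl), e0, e0]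

theorem ckrep_bil (L : E n →L[ℂ] E N) (σ : Matrix (Fin N) (Fin N) ℂ) (u v : E n) :
    L u ⬝ᵥ σ *ᵥ L v =
      u ⬝ᵥ (Matrix.of fun a b => L (Pi.single a 1) ⬝ᵥ σ *ᵥ L (Pi.single b 1)) *ᵥ v := by
  have e : ∀ w : E n, L w = ∑ a, w a • L (Pi.single a 1) := fun w => by
    conv_lhs => rw [pi_eq_sum_univ' w]
    simp
  rw [e u, e v, sum_dotProduct]
  conv_rhs => rw [dotProduct]
  refine Finset.sum_congr rfl fun a _ => ?_
  rw [smul_dotProduct, Matrix.mulVec_sum, dotProduct_sum, smul_eq_mul]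
  congr 1
  simp only [Matrix.mulVec_smul, dotProduct_smul, smul_eq_mul]
  simp only [Matrix.mulVec, dotProduct, Matrix.of_apply]
  exact Finset.sum_congr rfl fun b _ => mul_comm _ _

theorem ckrep_skew {σ : Matrix (Fin N) (Fin N) ℂ} (h : σᵀ = -σ) (u v : E N) :
    u ⬝ᵥ σ *ᵥ v = -(v ⬝ᵥ σ *ᵥ u) := by
  rw [Matrix.dotProduct_mulVec, ← Matrix.mulVec_transpose, h, Matrix.neg_mulVec, neg_dotProduct,
    dotProduct_comm]

theorem ckrep_vert (hinj : ∀ i, InjOn (A.p i) (A.C i).W) (h : A.IsUnif T Ψ) (c : ℂ) {p : P n}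
    (hp : p.1 ∈ T) (u : P n) (τ : E n) :
    pb A (f20 A c) Ψ p u (0, τ) = (c * (u.1 ⬝ᵥ τ)).re := by
  obtain ⟨i, f, h1, h2⟩ := unif_lf h hp
  rw [pb_eq hinj (gform_20 A c) h1]
  show (c * _).re = _
  rw [← h2.self_of_nhds.2.2.2.2 u.1 u.2 τ]

theorem ckrep_fd2 {F : Type} [NormedAddCommGroup F] [NormedSpace ℝ F] {t : Form2 F} {x : F}
    (ht : DifferentiableAt ℝ t x) (u v : F) :
    ∃ L : F →L[ℝ] ℝ, HasFDerivAt (fun y => t y u v) L x ∧ ∀ w, L w = fderiv ℝ t x w u v := by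
  have h1 := (ht.hasFDerivAt.clm_apply (hasFDerivAt_const u x)).clm_apply (hasFDerivAt_const v x)
  exact ⟨_, h1, fun w => by simp⟩

theorem ckrep_zero {F : Type} [NormedAddCommGroup F] [NormedSpace ℝ F] {t : Form2 F} {x : F}
    (ht : DifferentiableAt ℝ t x) {u v : F} {r : ℝ} (h : ∀ᶠ y in 𝓝 x, t y u v = r) (w : F) :
    fderiv ℝ t x w u v = 0 := by
  have h1 : HasFDerivAt (fun y => t y u v) (0 : F →L[ℝ] ℝ) x :=
    (hasFDerivAt_const r x).congr_of_eventuallyEq h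
  obtain ⟨L, h2, h3⟩ := ckrep_fd2 ht u v
  rw [← h3, h2.unique h1]
  rfl

theorem ckrep_leafconst (hinj : ∀ i, InjOn (A.p i) (A.C i).W) (h : A.IsUnif T Ψ) (hT : IsOpen T)
    (c : ℂ) {y : E n} (hy : y ∈ T) (ξ : E n) (u v : P n) :
    pb A (f20 A c) Ψ (y, ξ) u v = pb A (f20 A c) Ψ (y, 0) u v := by
  obtain ⟨h1, h2, h3⟩ := pb_closed hinj (gform_20 A c) h hT
  have ho : IsOpen (T ×ˢ (univ : Set (E n))) := hT.prod isOpen_univ
  have key : ∀ ζ : E n, HasFDerivAt (fun ζ : E n => pb A (f20 A c) Ψ (y, ζ) u v)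
      (0 : E n →L[ℝ] ℝ) ζ := fun ζ => by
    have hm : T ×ˢ (univ : Set (E n)) ∈ 𝓝 (y, ζ) := ho.mem_nhds ⟨hy, trivial⟩
    have hd : DifferentiableAt ℝ (pb A (f20 A c) Ψ) (y, ζ) :=
      (h1.contDiffAt hm).differentiableAt (by simp)
    obtain ⟨L, hL, hL'⟩ := ckrep_fd2 hd u v
    have h4 := HasFDerivAt.comp (f := fun ζ : E n => ((y, ζ) : P n)) ζ hL
      (hasFDerivAt_prodMk_right (𝕜 := ℝ) y ζ)
    refine h4.congr_fderiv (ContinuousLinearMap.ext fun w => ?_)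
    have h5 := h3 (y, ζ) ⟨hy, trivial⟩ (0, w) u v
    have h6 := ckrep_zero hd (u := v) (v := (0, w)) (r := (c * (v.1 ⬝ᵥ w)).re)
      (by filter_upwards [hm] with s hs using ckrep_vert hinj h c hs.1 v w) u
    have h7 := ckrep_zero hd (u := (0, w)) (v := u) (r := -(c * (u.1 ⬝ᵥ w)).re)
      (by filter_upwards [hm] with s hs using by rw [h2 s hs, ckrep_vert hinj h c hs.1 u w]) v
    rw [h6, h7, add_zero, add_zero, ← hL'] at h5
    exact h5
  exact is_const_of_fderiv_eq_zero (fun ζ => (key ζ).differentiableAt)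
    (fun ζ => (key ζ).fderiv) ξ 0

/-- The horizontal part of the pull-back of `σ`. -/
noncomputable def ckrepB (A : Atlas X N) (Ψ : P n → X) (y : E n) : Matrix (Fin n) (Fin n) ℂ :=
  Matrix.of fun a b =>
    ((pb A (f20 A 1) Ψ (y, 0) (Pi.single a 1, 0) (Pi.single b 1, 0) : ℝ) : ℂ) -
      Complex.I * ((pb A (f20 A Complex.I) Ψ (y, 0) (Pi.single a 1, 0) (Pi.single b 1, 0) : ℝ) : ℂ)

theorem ckrep_B (hinj : ∀ i, InjOn (A.p i) (A.C i).W) {y : E n} {i : A.ι} {f : P n → E N}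
    (h : Lf A Ψ (y, 0) i f) (a b : Fin n) : ckrepB A Ψ y a b =
      fderiv ℂ f (y, 0) (Pi.single a 1, 0) ⬝ᵥ (A.C i).σ (f (y, 0)) *ᵥ
        fderiv ℂ f (y, 0) (Pi.single b 1, 0) := by
  unfold ckrepB
  rw [Matrix.of_apply, pb_eq hinj (gform_20 A 1) h, pb_eq hinj (gform_20 A Complex.I) h]
  simp only [f20, s20_apply]
  apply Complex.ext <;> simp

theorem ckrep_val (hinj : ∀ i, InjOn (A.p i) (A.C i).W) (h : A.IsUnif T Ψ) (hT : IsOpen T)
    (c : ℂ) {p : P n} (hp : p.1 ∈ T) (u v : P n) : pb A (f20 A c) Ψ p u v =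
      (c * (u.1 ⬝ᵥ ckrepB A Ψ p.1 *ᵥ v.1 + u.1 ⬝ᵥ v.2 - v.1 ⬝ᵥ u.2)).re := by
  obtain ⟨i, f, h1, h2⟩ := unif_lf h (p := (p.1, 0)) hp
  obtain ⟨a1, -, -, -, a5⟩ := h2.self_of_nhds
  have e1 := ckrep_leafconst hinj h hT c hp p.2 u v
  rw [Prod.mk.eta] at e1
  rw [e1, pb_eq hinj (gform_20 A c) h1]
  show (c * _).re = _
  congr 2
  have e2 : ckrepB A Ψ p.1 = Matrix.of fun a b =>
      ((fderiv ℂ f (p.1, 0)).comp (ContinuousLinearMap.inl ℂ _ _)) (Pi.single a 1) ⬝ᵥ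
        (A.C i).σ (f (p.1, 0)) *ᵥ
          ((fderiv ℂ f (p.1, 0)).comp (ContinuousLinearMap.inl ℂ _ _)) (Pi.single b 1) :=
    Matrix.ext fun a b => ckrep_B hinj h1 a b
  have e3 : ∀ w : P n, fderiv ℂ f (p.1, 0) w =
      fderiv ℂ f (p.1, 0) (w.1, 0) + fderiv ℂ f (p.1, 0) (0, w.2) := fun w => by
    rw [← map_add]
    simp
  have e4 := ckrep_skew ((A.C i).σ_skew _ a1) (fderiv ℂ f (p.1, 0) (0, u.2))
    (fderiv ℂ f (p.1, 0) (v.1, 0))
  have e5 := a5 u.1 u.2 v.2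
  rw [a5] at e4
  rw [e2, ← ckrep_bil, e3 v, Matrix.mulVec_add, dotProduct_add, e5, e3 u, add_dotProduct, e4]
  simp only [ContinuousLinearMap.comp_apply, ContinuousLinearMap.inl_apply]
  ring

theorem ckrep_hol (hinj : ∀ i, InjOn (A.p i) (A.C i).W) (h : A.IsUnif T Ψ) (a b : Fin n) :
    DifferentiableOn ℂ (fun y => ckrepB A Ψ y a b) T := by
  intro y hy
  obtain ⟨i, f, h1, -⟩ := unif_lf h (p := (y, 0)) hy
  obtain ⟨U, hU, hUo, hyU⟩ := _root_.eventually_nhds_iff.1 h1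
  have hf : DifferentiableOn ℂ f U := fun s hs => (hU s hs).1.differentiableWithinAt
  have hi : DifferentiableAt ℂ (fun x : E n => ((x, 0) : P n)) y := by fun_prop
  have d1 : DifferentiableAt ℂ (fun x : E n => fderiv ℂ f (x, 0)) y :=
    DifferentiableAt.comp (g := fderiv ℂ f) y
      ((hol_smooth hUo hf).2.2.differentiableAt (hUo.mem_nhds hyU)) hi
  have d2 : DifferentiableAt ℂ (fun x : E n => f (x, 0)) y :=
    DifferentiableAt.comp (g := f) y (hU _ hyU).1 hi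
  have d3 : ∀ k l, DifferentiableAt ℂ (fun x : E n => (A.C i).σ (f (x, 0)) k l) y := fun k l =>
    DifferentiableAt.comp (g := fun z => (A.C i).σ z k l) y
      (((A.C i).σ_hol k l).differentiableAt ((A.C i).isOpen.mem_nhds (hU _ hyU).2.1)) d2
  have d4 : ∀ (w : P n) k, DifferentiableAt ℂ (fun x : E n => fderiv ℂ f (x, 0) w k) y :=
    fun w k => differentiableAt_pi.1 (d1.clm_apply (differentiableAt_const w)) k
  have d5 : DifferentiableAt ℂ (fun x : E n => fderiv ℂ f (x, 0) (Pi.single a 1, 0) ⬝ᵥ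
      (A.C i).σ (f (x, 0)) *ᵥ fderiv ℂ f (x, 0) (Pi.single b 1, 0)) y := by
    simp only [dotProduct, Matrix.mulVec]
    exact DifferentiableAt.fun_sum fun k _ => (d4 _ k).mul
      (DifferentiableAt.fun_sum fun l _ => (d3 k l).mul (d4 _ l))
  refine (d5.congr_of_eventuallyEq ?_).differentiableWithinAt
  filter_upwards [hi.continuousAt.eventually h1.eventually] with x hx using ckrep_B hinj hx a b

theorem ckrep_dB (hinj : ∀ i, InjOn (A.p i) (A.C i).W) (h : A.IsUnif T Ψ) (hT : IsOpen T)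
    {y : E n} (hy : y ∈ T) (a b : Fin n) (w : E n) :
    fderiv ℂ (fun x => -ckrepB A Ψ x a b) y w =
      -(((fderiv ℝ (pb A (f20 A 1) Ψ) (y, 0) (w, 0) (Pi.single a 1, 0) (Pi.single b 1, 0) : ℝ) : ℂ) -
        Complex.I * ((fderiv ℝ (pb A (f20 A Complex.I) Ψ) (y, 0) (w, 0) (Pi.single a 1, 0)
          (Pi.single b 1, 0) : ℝ) : ℂ)) := by
  have hm : T ×ˢ (univ : Set (E n)) ∈ 𝓝 (y, (0 : E n)) :=
    (hT.prod isOpen_univ).mem_nhds ⟨hy, trivial⟩
  have key : ∀ c, ∃ L : E n →L[ℝ] ℂ, HasFDerivAt (fun x : E n =>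
      ((pb A (f20 A c) Ψ (x, 0) (Pi.single a 1, 0) (Pi.single b 1, 0) : ℝ) : ℂ)) L y ∧
      L w = ((fderiv ℝ (pb A (f20 A c) Ψ) (y, 0) (w, 0) (Pi.single a 1, 0)
        (Pi.single b 1, 0) : ℝ) : ℂ) := fun c => by
    obtain ⟨L, hL, hL'⟩ := ckrep_fd2
      (((pb_closed hinj (gform_20 A c) h hT).1.contDiffAt hm).differentiableAt (by simp))
        (Pi.single a 1, 0) (Pi.single b 1, 0)
    have h4 := HasFDerivAt.comp (f := fun x : E n => ((x, 0) : P n)) y hL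
      (hasFDerivAt_prodMk_left (𝕜 := ℝ) y (0 : E n))
    exact ⟨_, Complex.ofRealCLM.hasFDerivAt.comp y h4, by rw [← hL']; rfl⟩
  obtain ⟨L1, k1, k1'⟩ := key 1
  obtain ⟨L2, k2, k2'⟩ := key Complex.I
  have h1 := (k1.sub (k2.const_mul Complex.I)).neg
  have h2 : DifferentiableAt ℂ (fun x => -ckrepB A Ψ x a b) y :=
    ((ckrep_hol hinj h a b).differentiableAt (hT.mem_nhds hy)).neg
  rw [← k1', ← k2']
  exact congrArg (fun L : E n →L[ℝ] ℂ => L w) ((h2.hasFDerivAt.restrictScalars ℝ).unique h1)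

theorem exists_std (hinj : ∀ i, InjOn (A.p i) (A.C i).W) (h : A.IsUnif T Ψ) (hT : IsOpen T)
    (hc : Convex ℝ T) : ∃ s : E n → E n, DifferentiableOn ℂ s T ∧
      Std A T fun p => Ψ ((Ret.per s).act p) := by
  have hcl := fun c => pb_closed hinj (gform_20 A c) h hT
  obtain ⟨s, hs, hB⟩ := hol_poinc (B := fun y => -ckrepB A Ψ y) hT hc
    (fun a b => (ckrep_hol hinj h a b).neg) (fun y hy => Matrix.ext fun a b => by
      have m : ((y, 0) : P n) ∈ T ×ˢ (univ : Set (E n)) := ⟨hy, trivial⟩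
      simp only [Matrix.transpose_apply, Matrix.neg_apply, ckrepB, Matrix.of_apply]
      rw [(hcl 1).2.1 _ m (Pi.single b 1, 0), (hcl Complex.I).2.1 _ m (Pi.single b 1, 0)]
      push_cast
      ring) (fun y hy a b c => by
      have m : ((y, 0) : P n) ∈ T ×ˢ (univ : Set (E n)) := ⟨hy, trivial⟩
      have e1 := congrArg Complex.ofReal
        ((hcl 1).2.2 _ m (Pi.single a 1, 0) (Pi.single b 1, 0) (Pi.single c 1, 0))
      have e2 := congrArg Complex.ofReal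
        ((hcl Complex.I).2.2 _ m (Pi.single a 1, 0) (Pi.single b 1, 0) (Pi.single c 1, 0))
      push_cast at e1 e2
      simp only [Matrix.neg_apply]
      rw [ckrep_dB hinj h hT hy, ckrep_dB hinj h hT hy, ckrep_dB hinj h hT hy]
      linear_combination -e1 + Complex.I * e2)
  have hg : Geo T T (Ret.per s) :=
    ⟨⟨hT, subset_univ _, differentiableOn_id, hs, differentiableOn_const _, mapsTo_univ _ _,
      fun y _ ξ u => by simp [Ret.per], fun _ _ _ => rfl⟩, fun _ hy => hy⟩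
  refine ⟨s, hs, rep_unif h hg, fun c p hp => ?_⟩
  refine ContinuousLinearMap.ext fun u => ContinuousLinearMap.ext fun v => ?_
  have e0 : ∀ w : P n, fderiv ℝ (Ret.per s).act p w = (w.1, w.2 - fderiv ℂ s p.1 w.1) := fun w => by
    rw [hg.1.smooth.2.2.2 p hp]
    simp [Ret.per]
  have e1 := hB p.1 hp u.1 v.1
  rw [Matrix.neg_mulVec, dotProduct_neg, dotProduct_comm _ v.1, dotProduct_comm _ u.1] at e1
  rw [pb_comp hinj (gform_20 A c) h (ckrep_ev hg hp) (hg.2 hp) (Eventually.of_forall fun _ => rfl),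
    ckrep_val hinj h hT c (p := (Ret.per s).act p) hp, e0, e0, sig_apply, ← Complex.sub_re]
  congr 1
  show c * (u.1 ⬝ᵥ ckrepB A Ψ p.1 *ᵥ v.1 + u.1 ⬝ᵥ (v.2 - fderiv ℂ s p.1 v.1) -
    v.1 ⬝ᵥ (u.2 - fderiv ℂ s p.1 u.1)) = _
  rw [dotProduct_sub, dotProduct_sub]
  linear_combination c * e1

end Pool.Agent.CK
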