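import Pool.Agent.P.MP_63735c_ag.CLParam

/-! Primitives and pull-backs. -/

open scoped ContDiff Matrix ENNReal
open Set Metric MeasureTheory Filter Topology

namespace Pool.Agent.CL

open Pool.Agent.SPF

variable {F : Type} [NormedAddCommGroup F] [NormedSpace ℝ F]
variable {F' : Type} [NormedAddCommGroup F'] [NormedSpace ℝ F']

lemma clprim_skew {W : Set F} (hW : IsOpen W) {t : Form2 F} (ht : Closed2 W t) {x : F}
    (hx : x ∈ W) (w u v : F) : fderiv ℝ t x w u v = -fderiv ℝ t x w v u := by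
  have hd : HasFDerivAt t (fderiv ℝ t x) x :=
    ((ht.1.contDiffAt (hW.mem_nhds hx)).differentiableAt (by simp)).hasFDerivAt
  have h1 := (hd.clm_apply (hasFDerivAt_const u x)).clm_apply (hasFDerivAt_const v x)
  have h2 := ((hd.clm_apply (hasFDerivAt_const v x)).clm_apply (hasFDerivAt_const u x)).fun_neg
  have he : (fun y => t y u v) =ᶠ[𝓝 x] fun y => -t y v u := by
    filter_upwards [hW.mem_nhds hx] with y hy using ht.2.1 y hy u v
  have h3 := h1.unique (h2.congr_of_eventuallyEq he)
  have h4 := DFunLike.congr_fun h3 w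
  simpa using h4

lemma clprim_fd {G : Type} [NormedAddCommGroup G] [NormedSpace ℝ G] {t : F → F →L[ℝ] G}
    {o x : F} {s : ℝ} (hd : DifferentiableAt ℝ t (o + s • (x - o))) :
    HasFDerivAt (fun y => t (o + s • (y - o)) (y - o))
      ((t (o + s • (x - o))).comp (ContinuousLinearMap.id ℝ F) +
        ((fderiv ℝ t (o + s • (x - o))).comp (s • ContinuousLinearMap.id ℝ F)).flip (x - o)) x := by
  have h3 : HasFDerivAt (fun y : F => y - o) (ContinuousLinearMap.id ℝ F) x :=
    (hasFDerivAt_id x).sub_const o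
  have h1 : HasFDerivAt (fun y : F => o + s • (y - o)) (s • ContinuousLinearMap.id ℝ F) x :=
    (h3.fun_const_smul s).const_add o
  have h2 : HasFDerivAt (fun y => t (o + s • (y - o)))
      ((fderiv ℝ t (o + s • (x - o))).comp (s • ContinuousLinearMap.id ℝ F)) x :=
    HasFDerivAt.comp x (f := fun y : F => o + s • (y - o)) hd.hasFDerivAt h1
  exact h2.clm_apply h3

lemma clprim_fd2 {G : Type} [NormedAddCommGroup G] [NormedSpace ℝ G] {t : F → F →L[ℝ] G}
    {o x : F} {s : ℝ} (hd : DifferentiableAt ℝ t (o + s • (x - o))) (a : F) :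
    fderiv ℝ (fun y => s • t (o + s • (y - o)) (y - o)) x a =
      s • t (o + s • (x - o)) a + (s * s) • fderiv ℝ t (o + s • (x - o)) a (x - o) := by
  rw [((clprim_fd hd).fun_const_smul s).fderiv]
  simp only [_root_.smul_apply, _root_.add_apply,
    ContinuousLinearMap.comp_apply, ContinuousLinearMap.id_apply, ContinuousLinearMap.flip_apply,
    map_smul, smul_add, smul_smul]

lemma clprim_two : (2 : WithTop ℕ∞) ≤ ((⊤ : ℕ∞) : WithTop ℕ∞) :=
  WithTop.coe_le_coe.2 (le_top : (2 : ℕ∞) ≤ ⊤)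

lemma clprim_line {G : Type} [NormedAddCommGroup G] [NormedSpace ℝ G] {t : F → G}
    {o r : F} {s : ℝ} (hd : DifferentiableAt ℝ t (o + s • r)) :
    HasDerivAt (fun s : ℝ => t (o + s • r)) (fderiv ℝ t (o + s • r) r) s := by
  have h1 : HasDerivAt (fun s : ℝ => o + s • r) r s := by
    simpa using ((hasDerivAt_id s).smul_const r).const_add o
  exact HasFDerivAt.comp_hasDerivAt s (f := fun s : ℝ => o + s • r) hd.hasFDerivAt h1

lemma clprim_line2 {t : Form2 F} {o r : F} {s : ℝ} (hd : DifferentiableAt ℝ t (o + s • r))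
    (u v : F) : HasDerivAt (fun s : ℝ => t (o + s • r) u v) (fderiv ℝ t (o + s • r) r u v) s := by
  have h0 := (hd.hasFDerivAt.clm_apply (hasFDerivAt_const u _)).clm_apply (hasFDerivAt_const v _)
  have h1 : HasDerivAt (fun s : ℝ => o + s • r) r s := by
    simpa using ((hasDerivAt_id s).smul_const r).const_add o
  have h2 := HasFDerivAt.comp_hasDerivAt s (f := fun s : ℝ => o + s • r) h0 h1
  refine HasDerivAt.congr_deriv (f := fun s : ℝ => t (o + s • r) u v) h2 ?_
  simp

lemma clprim_smooth {G : Type} [NormedAddCommGroup G] [NormedSpace ℝ G] {t : F → F →L[ℝ] G}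
    {o x : F} {s : ℝ} (hd : ContDiffAt ℝ ∞ t (o + s • (x - o))) :
    ContDiffAt ℝ ∞ (fun q : F × ℝ => t (o + q.2 • (q.1 - o)) (q.1 - o)) (x, s) := by
  have h1 : ContDiffAt ℝ ∞ (fun q : F × ℝ => q.1 - o) (x, s) := contDiffAt_fst.sub contDiffAt_const
  have h2 : ContDiffAt ℝ ∞ (fun q : F × ℝ => o + q.2 • (q.1 - o)) (x, s) :=
    contDiffAt_const.add (contDiffAt_snd.smul h1)
  exact (ContDiffAt.comp (x, s) (f := fun q : F × ℝ => o + q.2 • (q.1 - o)) hd h2).clm_apply h1

lemma clprim_int {G : Type} [NormedAddCommGroup G] {f : ℝ → G}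
    (h : ContinuousOn f (Icc 0 1)) : IntervalIntegrable f volume 0 1 :=
  ContinuousOn.intervalIntegrable (by rwa [uIcc_of_le zero_le_one])

lemma clprim_cont {W : Set F} {A : Form1 F} (hA : ContinuousOn A W) {c : ℝ → F}
    (h : Curve W c) : ContinuousOn (fun s => A (c s) (deriv c s)) (Icc 0 1) := by
  have h1 : ContinuousOn c (Icc 0 1) := fun s hs => (h s hs).1.continuousAt.continuousWithinAt
  have h2 : ContinuousOn (deriv c) (Icc 0 1) := by
    intro s hs
    have h3 : ContDiffAt ℝ 1 (fderiv ℝ c) s := (h s hs).1.fderiv_right (by norm_num)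
    have h4 : ContinuousAt (fun s => fderiv ℝ c s 1) s :=
      h3.continuousAt.clm_apply continuousAt_const
    exact h4.continuousWithinAt
  exact (hA.comp h1 fun s hs => (h s hs).2).clm_apply h2

theorem rad_prim {W : Set F} (hW : IsOpen W) (hc : Convex ℝ W) {t : Form2 F} (ht : Closed2 W t)
    {o : F} (ho : o ∈ W) : IsPrim W (rad t o) t := by
  have hm : ∀ x ∈ W, ∀ s ∈ Icc (0 : ℝ) 1, o + s • (x - o) ∈ W := fun x hx s hs =>
    hc.add_smul_sub_mem ho hx hs
  have hs0 : ∀ x ∈ W, ∀ s ∈ Icc (0 : ℝ) 1, ContDiffAt ℝ ∞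
      (fun q : F × ℝ => q.2 • t (o + q.2 • (q.1 - o)) (q.1 - o)) (x, s) := fun x hx s hs =>
    contDiffAt_snd.smul (clprim_smooth (ht.1.contDiffAt (hW.mem_nhds (hm x hx s hs))))
  refine ⟨contDiffOn_param (f := fun y s => s • t (o + s • (y - o)) (y - o)) hW hs0, ?_⟩
  intro x hx u v
  obtain ⟨h1, h2⟩ := hasFDerivAt_param (f := fun y s => s • t (o + s • (y - o)) (y - o)) (x := x)
    fun s hs => (hs0 x hx s hs).of_le (by exact_mod_cast le_top)
  have h3 : fderiv ℝ (rad t o) x = ∫ s in (0 : ℝ)..1,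
      fderiv ℝ (fun y => s • t (o + s • (y - o)) (y - o)) x := h1.fderiv
  have hcu : ∀ a b : F, ContinuousOn
      (fun s : ℝ => fderiv ℝ (fun y => s • t (o + s • (y - o)) (y - o)) x a b) (Icc 0 1) :=
    fun a b => (h2.clm_apply continuousOn_const).clm_apply continuousOn_const
  have h4 : ∀ a b : F, fderiv ℝ (rad t o) x a b = ∫ s in (0 : ℝ)..1,
      fderiv ℝ (fun y => s • t (o + s • (y - o)) (y - o)) x a b := by
    intro a b
    rw [h3, ContinuousLinearMap.intervalIntegral_apply (clprim_int h2),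
      ContinuousLinearMap.intervalIntegral_apply
        (clprim_int (h2.clm_apply continuousOn_const))]
  rw [h4, h4, ← intervalIntegral.integral_sub (clprim_int (hcu u v)) (clprim_int (hcu v u))]
  have h5 := intervalIntegral.integral_eq_sub_of_hasDerivAt
    (f := fun s : ℝ => s ^ 2 * t (o + s • (x - o)) u v) (a := 0) (b := 1)
    (f' := fun s : ℝ => fderiv ℝ (fun y => s • t (o + s • (y - o)) (y - o)) x u v -
      fderiv ℝ (fun y => s • t (o + s • (y - o)) (y - o)) x v u) ?_
    (clprim_int ((hcu u v).sub (hcu v u)))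
  · rw [h5]; simp
  intro s hs
  rw [uIcc_of_le zero_le_one] at hs
  have hmem := hm x hx s hs
  have hd : DifferentiableAt ℝ t (o + s • (x - o)) :=
    (ht.1.contDiffAt (hW.mem_nhds hmem)).differentiableAt (by simp)
  have h7 : HasDerivAt (fun s : ℝ => t (o + s • (x - o)) u v)
      (fderiv ℝ t (o + s • (x - o)) (x - o) u v) s := clprim_line2 hd u v
  refine ((hasDerivAt_pow 2 s).fun_mul h7).congr_deriv ?_
  have e1 := ht.2.1 _ hmem v u
  have e2 := ht.2.2 _ hmem (x - o) u v
  have e3 := clprim_skew hW ht hmem u v (x - o)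
  rw [clprim_fd2 hd, clprim_fd2 hd]
  simp only [_root_.smul_apply, _root_.add_apply, smul_eq_mul]
  rw [e1]
  have e4 : fderiv ℝ t (o + s • (x - o)) (x - o) u v =
      fderiv ℝ t (o + s • (x - o)) u (x - o) v - fderiv ℝ t (o + s • (x - o)) v (x - o) u := by
    linarith
  rw [e4]
  norm_num
  ring

theorem rad_apply {W : Set F} (hc : Convex ℝ W) {t : Form2 F} (ht : Closed2 W t)
    {o p : F} (ho : o ∈ W) (hp : p ∈ W) (u : F) :
    rad t o p u = ∫ s in (0 : ℝ)..1, s * t (o + s • (p - o)) (p - o) u := by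
  have h1 : ContinuousOn (fun s : ℝ => t (o + s • (p - o))) (Icc 0 1) :=
    ht.1.continuousOn.comp (f := fun s : ℝ => o + s • (p - o)) (by fun_prop)
      fun s hs => hc.add_smul_sub_mem ho hp hs
  have h2 : ContinuousOn (fun s : ℝ => s • t (o + s • (p - o)) (p - o)) (Icc 0 1) :=
    continuousOn_id.smul (h1.clm_apply continuousOn_const)
  unfold rad
  rw [ContinuousLinearMap.intervalIntegral_apply (clprim_int h2)]
  simp only [_root_.smul_apply, smul_eq_mul]

theorem rad_seg {W : Set F} (hc : Convex ℝ W) {t : Form2 F} (ht : Closed2 W t)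
    {o p : F} (ho : o ∈ W) (hp : p ∈ W) : segInt (rad t o) o p = 0 := by
  unfold segInt
  refine intervalIntegral.integral_zero_ae (Eventually.of_forall fun s hs => ?_)
  rw [uIoc_of_le zero_le_one] at hs
  have hq := hc.add_smul_sub_mem ho hp (Ioc_subset_Icc_self hs)
  rw [rad_apply hc ht ho hq]
  refine intervalIntegral.integral_zero_ae (Eventually.of_forall fun r hr => ?_)
  rw [uIoc_of_le zero_le_one] at hr
  have h1 := ht.2.1 _ (hc.add_smul_sub_mem ho hq (Ioc_subset_Icc_self hr)) (p - o) (p - o)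
  have h2 : t (o + r • (o + s • (p - o) - o)) (p - o) (p - o) = 0 := by linarith
  have h3 : t (o + r • (o + s • (p - o) - o)) (o + s • (p - o) - o) (p - o) =
      s * t (o + r • (o + s • (p - o) - o)) (p - o) (p - o) := by
    generalize t (o + r • (o + s • (p - o) - o)) = T
    rw [add_sub_cancel_left, map_smul, _root_.smul_apply, smul_eq_mul]
  rw [h3, h2, mul_zero, mul_zero]

theorem closed1_deriv {W : Set F} (hW : IsOpen W) (hc : Convex ℝ W) {B : Form1 F}
    (hB : IsPrim W B 0) {o p : F} (ho : o ∈ W) (hp : p ∈ W) :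
    HasFDerivAt (segInt B o) (B p) p := by
  have hm : ∀ s ∈ Icc (0 : ℝ) 1, o + s • (p - o) ∈ W := fun s hs =>
    hc.add_smul_sub_mem ho hp hs
  obtain ⟨h1, h2⟩ := hasFDerivAt_param (f := fun y s => B (o + s • (y - o)) (y - o)) (x := p)
    fun s hs => (clprim_smooth (hB.1.contDiffAt (hW.mem_nhds (hm s hs)))).of_le
      (by exact_mod_cast le_top)
  refine HasFDerivAt.congr_fderiv (f := segInt B o) h1 ?_
  ext u
  rw [ContinuousLinearMap.intervalIntegral_apply (clprim_int h2)]
  have h5 := intervalIntegral.integral_eq_sub_of_hasDerivAt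
    (f := fun s : ℝ => s * B (o + s • (p - o)) u) (a := 0) (b := 1)
    (f' := fun s : ℝ => fderiv ℝ (fun y => B (o + s • (y - o)) (y - o)) p u) ?_
    (clprim_int (h2.clm_apply continuousOn_const))
  · rw [h5]; simp
  intro s hs
  rw [uIcc_of_le zero_le_one] at hs
  have hmem := hm s hs
  have hd : DifferentiableAt ℝ B (o + s • (p - o)) :=
    (hB.1.contDiffAt (hW.mem_nhds hmem)).differentiableAt (by simp)
  have h6 := (clprim_fd hd).fderiv
  have h7 : HasDerivAt (fun s : ℝ => B (o + s • (p - o)) u)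
      (fderiv ℝ B (o + s • (p - o)) (p - o) u) s := by
    simpa using (clprim_line hd).clm_apply (hasDerivAt_const s u)
  refine ((hasDerivAt_id' s).fun_mul h7).congr_deriv ?_
  have e1 := hB.2 _ hmem u (p - o)
  rw [h6]
  simp only [_root_.smul_apply, _root_.add_apply,
    ContinuousLinearMap.comp_apply, ContinuousLinearMap.id_apply, ContinuousLinearMap.flip_apply,
    map_smul, smul_eq_mul]
  have e2 : fderiv ℝ B (o + s • (p - o)) u (p - o) = fderiv ℝ B (o + s • (p - o)) (p - o) u := by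
    have e3 : (0 : Form2 F) (o + s • (p - o)) u (p - o) = 0 := rfl
    linarith
  rw [e2]
  ring

theorem closed1_line {W : Set F} (hW : IsOpen W) (hc : Convex ℝ W) {B : Form1 F}
    (hB : IsPrim W B 0) {o : F} (ho : o ∈ W) {c : ℝ → F} (h : Curve W c) :
    lineInt B c = segInt B o (c 1) - segInt B o (c 0) := by
  unfold lineInt
  refine intervalIntegral.integral_eq_sub_of_hasDerivAt (f := fun s => segInt B o (c s)) ?_
    (clprim_int (clprim_cont hB.1.continuousOn h))
  intro s hs
  rw [uIcc_of_le zero_le_one] at hs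
  exact HasFDerivAt.comp_hasDerivAt s (f := c) (closed1_deriv hW hc hB ho (h s hs).2)
    ((h s hs).1.differentiableAt (by norm_num)).hasDerivAt

theorem pull_prim {W : Set F} {W' : Set F'} (hW : IsOpen W) (hW' : IsOpen W') {g : F' → F}
    (hg : ContDiffOn ℝ ∞ g W') (hm : MapsTo g W' W) {A : Form1 F} {t : Form2 F}
    (hA : IsPrim W A t) {t' : Form2 F'}
    (h : ∀ x ∈ W', ∀ u v, t (g x) (fderiv ℝ g x u) (fderiv ℝ g x v) = t' x u v) :
    IsPrim W' (pull1 g A) t' := by
  have hg' : ContDiffOn ℝ ∞ (fderiv ℝ g) W' := hg.fderiv_of_isOpen hW' (by simp)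
  refine ⟨(hA.1.comp hg hm).clm_comp hg', ?_⟩
  intro x hx u v
  have g0 := hg.contDiffAt (hW'.mem_nhds hx)
  have h1 : HasFDerivAt g (fderiv ℝ g x) x := (g0.differentiableAt (by simp)).hasFDerivAt
  have h2 : HasFDerivAt (fderiv ℝ g) (fderiv ℝ (fderiv ℝ g) x) x :=
    ((hg'.contDiffAt (hW'.mem_nhds hx)).differentiableAt (by simp)).hasFDerivAt
  have h3 : HasFDerivAt A (fderiv ℝ A (g x)) (g x) :=
    ((hA.1.contDiffAt (hW.mem_nhds (hm hx))).differentiableAt (by simp)).hasFDerivAt
  have h4 : HasFDerivAt (fun y => A (g y)) ((fderiv ℝ A (g x)).comp (fderiv ℝ g x)) x :=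
    h3.comp x h1
  have h5 := (h4.clm_comp h2).fderiv
  have h6 : ∀ a b, fderiv ℝ (pull1 g A) x a b =
      A (g x) (fderiv ℝ (fderiv ℝ g) x a b) +
        fderiv ℝ A (g x) (fderiv ℝ g x a) (fderiv ℝ g x b) := by
    intro a b
    unfold pull1
    rw [h5]
    simp
  have h7 : fderiv ℝ (fderiv ℝ g) x u v = fderiv ℝ (fderiv ℝ g) x v u :=
    (g0.isSymmSndFDerivAt
      (by simp only [minSmoothness_of_isRCLikeNormedField]; exact clprim_two)).eq u v
  rw [h6, h6, h7, ← h x hx u v, ← hA.2 _ (hm hx)]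
  ring

theorem curve_comp {W : Set F} {W' : Set F'} (hW' : IsOpen W') {g : F' → F}
    (hg : ContDiffOn ℝ ∞ g W') (hm : MapsTo g W' W) {c : ℝ → F'} (h : Curve W' c) :
    Curve W (fun s => g (c s)) := by
  intro s hs
  refine ⟨?_, hm (h s hs).2⟩
  exact ContDiffAt.comp s (f := c)
    ((hg.contDiffAt (hW'.mem_nhds (h s hs).2)).of_le clprim_two) (h s hs).1

theorem lineInt_pull {W' : Set F'} (hW' : IsOpen W') {g : F' → F}
    (hg : ContDiffOn ℝ ∞ g W') (A : Form1 F) {c : ℝ → F'} (h : Curve W' c) :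
    lineInt A (fun s => g (c s)) = lineInt (pull1 g A) c := by
  unfold lineInt
  refine intervalIntegral.integral_congr fun s hs => ?_
  rw [uIcc_of_le zero_le_one] at hs
  have h1 : HasDerivAt (fun s => g (c s)) (fderiv ℝ g (c s) (deriv c s)) s :=
    HasFDerivAt.comp_hasDerivAt s (f := c)
      ((hg.contDiffAt (hW'.mem_nhds (h s hs).2)).differentiableAt (by simp)).hasFDerivAt
      ((h s hs).1.differentiableAt (by norm_num)).hasDerivAt
  simp only [pull1, h1.deriv, ContinuousLinearMap.comp_apply]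

theorem lineInt_add {W : Set F} (hW : IsOpen W) {A B : Form1 F} (hA : ContinuousOn A W)
    (hB : ContinuousOn B W) (a b : ℝ) {c : ℝ → F} (h : Curve W c) :
    lineInt (fun x => a • A x + b • B x) c = a * lineInt A c + b * lineInt B c := by
  have _ := hW
  unfold lineInt
  rw [← intervalIntegral.integral_const_mul, ← intervalIntegral.integral_const_mul,
    ← intervalIntegral.integral_add ((clprim_int (clprim_cont hA h)).const_mul a)
      ((clprim_int (clprim_cont hB h)).const_mul b)]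
  simp only [_root_.add_apply, _root_.smul_apply, smul_eq_mul]

theorem IsPrim.comb {W : Set F} (hW : IsOpen W) {A B : Form1 F} {t t' : Form2 F}
    (hA : IsPrim W A t) (hB : IsPrim W B t') (a b : ℝ) :
    IsPrim W (fun x => a • A x + b • B x) (fun x => a • t x + b • t' x) := by
  refine ⟨(hA.1.const_smul a).add (hB.1.const_smul b), ?_⟩
  intro x hx u v
  have h1 : HasFDerivAt A (fderiv ℝ A x) x :=
    ((hA.1.contDiffAt (hW.mem_nhds hx)).differentiableAt (by simp)).hasFDerivAt
  have h2 : HasFDerivAt B (fderiv ℝ B x) x :=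
    ((hB.1.contDiffAt (hW.mem_nhds hx)).differentiableAt (by simp)).hasFDerivAt
  rw [((h1.fun_const_smul a).fun_add (h2.fun_const_smul b)).fderiv]
  simp only [_root_.add_apply, _root_.smul_apply, smul_eq_mul]
  rw [← hA.2 x hx u v, ← hB.2 x hx u v]
  ring

theorem liou_prim {n : ℕ} (W : Set (P n)) (c : ℂ) : IsPrim W (liou c) (fun _ => sig c) := by
  have h1 : liou c = fun p : P n => (-((rdot c).bilinearComp
      (ContinuousLinearMap.snd ℝ (E n) (E n)) (ContinuousLinearMap.fst ℝ (E n) (E n)))) p := by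
    funext p
    refine ContinuousLinearMap.ext fun q => ?_
    simp [liou]
  rw [h1]
  refine ⟨(ContinuousLinearMap.contDiff _).contDiffOn, ?_⟩
  intro x _ u v
  rw [ContinuousLinearMap.fderiv, sig_apply]
  simp only [_root_.neg_apply, ContinuousLinearMap.bilinearComp_apply,
    ContinuousLinearMap.coe_fst', ContinuousLinearMap.coe_snd', rdot_apply]
  rw [dotProduct_comm u.2 v.1, dotProduct_comm v.2 u.1]
  ring

end Pool.Agent.CL
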