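import Pool.Agent.P.MP_63735c_ag.CLStokes
import Pool.Agent.P.MP_63735c_ag.CLPrim

/-! Parallelogram integrals of bounded closed forms. -/

open scoped ContDiff Matrix ENNReal
open Set Metric MeasureTheory Filter Topology

namespace Pool.Agent.CL

open Pool.Agent.SPF

variable {F : Type} [NormedAddCommGroup F] [NormedSpace ℝ F]

theorem clpar_int_bd {f : ℝ → ℝ} {C : ℝ} (h : ∀ s ∈ Icc (0 : ℝ) 1, |f s| ≤ C) :
    |∫ s in (0 : ℝ)..1, f s| ≤ C := by
  have := intervalIntegral.norm_integral_le_of_norm_le_const (a := 0) (b := 1) (f := f) (C := C)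
    (fun s hs => by
      rw [uIoc_of_le zero_le_one] at hs
      exact h s ⟨hs.1.le, hs.2⟩)
  simpa using this

theorem clpar_rad_bd {t : Form2 F} (ht : Closed2 univ t) {K : ℝ} (hK0 : 0 ≤ K)
    (hK : ∀ x u v, |t x u v| ≤ K * ‖u‖ * ‖v‖) (o x u : F) :
    |rad t o x u| ≤ K * ‖x - o‖ * ‖u‖ := by
  rw [rad_apply convex_univ ht (mem_univ o) (mem_univ x)]
  refine clpar_int_bd fun s hs => ?_
  rw [abs_mul, abs_of_nonneg hs.1]
  have h1 := hK (o + s • (x - o)) (x - o) u
  have h2 : 0 ≤ K * ‖x - o‖ * ‖u‖ := by positivity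
  calc s * |t (o + s • (x - o)) (x - o) u| ≤ 1 * (K * ‖x - o‖ * ‖u‖) :=
        mul_le_mul hs.2 h1 (abs_nonneg _) zero_le_one
    _ = _ := one_mul _

theorem clpar_deriv_seg (p q : F) (s : ℝ) : deriv (seg p q) s = q - p := by
  have h : HasDerivAt (seg p q) ((1 : ℝ) • (q - p)) s :=
    ((hasDerivAt_id s).smul_const (q - p)).const_add p
  rw [h.deriv, one_smul]

theorem clpar_end {t : Form2 F} (ht : Closed2 univ t) {K : ℝ} (hK0 : 0 ≤ K)
    (hK : ∀ x u v, |t x u v| ≤ K * ‖u‖ * ‖v‖) {o q q' : F} {δ R : ℝ}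
    (h1 : ‖q - o‖ ≤ R) (h2 : ‖q' - q‖ ≤ 3 * δ) {s : ℝ} (hs : s ∈ Icc (0 : ℝ) 1) :
    |rad t o (q + s • (q' - q)) (q' - q)| ≤ K * (R + 3 * δ) * (3 * δ) := by
  refine (clpar_rad_bd ht hK0 hK _ _ _).trans ?_
  have h3 : ‖q + s • (q' - q) - o‖ ≤ R + 3 * δ := by
    have e : q + s • (q' - q) - o = (q - o) + s • (q' - q) := by abel
    rw [e]
    refine (norm_add_le _ _).trans (add_le_add h1 ?_)
    rw [norm_smul, Real.norm_of_nonneg hs.1]
    calc s * ‖q' - q‖ ≤ 1 * (3 * δ) := mul_le_mul hs.2 h2 (norm_nonneg _) zero_le_one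
      _ = _ := one_mul _
  have hR : 0 ≤ R + 3 * δ := (norm_nonneg _).trans h3
  exact mul_le_mul (mul_le_mul_of_nonneg_left h3 hK0) h2 (norm_nonneg _) (mul_nonneg hK0 hR)

theorem clpar_side {t : Form2 F} (ht : Closed2 univ t) {K : ℝ} (hK0 : 0 ≤ K)
    (hK : ∀ x u v, |t x u v| ≤ K * ‖u‖ * ‖v‖) {o q1 q2 q1' q2' : F} {δ R : ℝ} (hδ : 0 ≤ δ)
    (h1 : ‖q1 - o‖ ≤ R) (h2 : ‖q2 - o‖ ≤ R) (h3 : ‖q1' - q1‖ ≤ 3 * δ) (h4 : ‖q2' - q2‖ ≤ 3 * δ)
    (h5 : ‖q2 - q1‖ ≤ R) (h6 : ‖(q2' - q1') - (q2 - q1)‖ ≤ δ) :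
    |segInt (rad t o) q1' q2' - segInt (rad t o) q1 q2| ≤ 21 * K * δ * (R + δ) := by
  have hA := rad_prim isOpen_univ convex_univ ht (mem_univ o)
  have hR : 0 ≤ R := (norm_nonneg _).trans h1
  have key := pert isOpen_univ convex_univ hA
    (curve_seg convex_univ (mem_univ q1) (mem_univ q2))
    (curve_seg convex_univ (mem_univ q1') (mem_univ q2'))
    (K := K * (3 * δ) * (R + δ)) (K0 := K * (R + 3 * δ) * (3 * δ))
    (K1 := K * (R + 3 * δ) * (3 * δ)) ?_ ?_ ?_
  · rw [lineInt_seg, lineInt_seg] at key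
    refine key.trans ?_
    have e1 : 0 ≤ K * δ * R := by positivity
    nlinarith
  · intro s hs r hr
    refine (hK _ _ _).trans ?_
    rw [clpar_deriv_seg, clpar_deriv_seg]
    have a1 : ‖seg q1' q2' r - seg q1 q2 r‖ ≤ 3 * δ := by
      have e : seg q1' q2' r - seg q1 q2 r = (1 - r) • (q1' - q1) + r • (q2' - q2) := by
        simp only [seg]; module
      rw [e]
      refine (norm_add_le _ _).trans ?_
      rw [norm_smul, norm_smul, Real.norm_of_nonneg hr.1, Real.norm_of_nonneg (sub_nonneg.2 hr.2)]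
      have b1 := mul_le_mul_of_nonneg_left h3 (sub_nonneg.2 hr.2)
      have b2 := mul_le_mul_of_nonneg_left h4 hr.1
      linarith
    have a2 : ‖q2 - q1 + s • (q2' - q1' - (q2 - q1))‖ ≤ R + δ := by
      refine (norm_add_le _ _).trans (add_le_add h5 ?_)
      rw [norm_smul, Real.norm_of_nonneg hs.1]
      calc s * ‖q2' - q1' - (q2 - q1)‖ ≤ 1 * δ :=
            mul_le_mul hs.2 h6 (norm_nonneg _) zero_le_one
        _ = _ := one_mul _
    exact mul_le_mul (mul_le_mul_of_nonneg_left a1 hK0) a2 (norm_nonneg _) (by positivity)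
  · intro s hs
    have e1 : seg q1 q2 0 = q1 := by simp [seg]
    have e2 : seg q1' q2' 0 = q1' := by simp [seg]
    rw [e1, e2]
    exact clpar_end ht hK0 hK h1 h3 hs
  · intro s hs
    have e1 : seg q1 q2 1 = q2 := by simp [seg]
    have e2 : seg q1' q2' 1 = q2' := by simp [seg]
    rw [e1, e2]
    exact clpar_end ht hK0 hK h2 h4 hs

theorem clpar_stokes {t : Form2 F} (ht : Closed2 univ t) (o p a b : F) :
    par t p a b = segInt (rad t o) p (p + a) + segInt (rad t o) (p + a) (p + a + b) -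
      segInt (rad t o) (p + b) (p + a + b) - segInt (rad t o) p (p + b) :=
  (stokes_par isOpen_univ convex_univ (rad_prim isOpen_univ convex_univ ht (mem_univ o))
    (mem_univ _) (mem_univ _) (mem_univ _) (mem_univ _)).symm

theorem par_shift {t : Form2 F} (ht : Closed2 univ t) {K : ℝ} (hK0 : 0 ≤ K)
    (hK : ∀ x u v, |t x u v| ≤ K * ‖u‖ * ‖v‖) (p a b p' a' b' : F) {δ : ℝ} (hp : ‖p - p'‖ ≤ δ)
    (ha : ‖a - a'‖ ≤ δ) (hb : ‖b - b'‖ ≤ δ) :
    |par t p a b - par t p' a' b'| ≤ 100 * K * δ * (‖a‖ + ‖b‖ + δ) := by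
  have hδ : 0 ≤ δ := (norm_nonneg _).trans hp
  have na := norm_nonneg a
  have nb := norm_nonneg b
  rw [norm_sub_rev] at hp ha hb
  have n0 : ‖p - p‖ ≤ ‖a‖ + ‖b‖ := by rw [sub_self, norm_zero]; positivity
  have n1 : ‖p + a - p‖ ≤ ‖a‖ + ‖b‖ := by rw [add_sub_cancel_left]; linarith
  have n2 : ‖p + b - p‖ ≤ ‖a‖ + ‖b‖ := by rw [add_sub_cancel_left]; linarith
  have n3 : ‖p + a + b - p‖ ≤ ‖a‖ + ‖b‖ := by
    rw [add_assoc, add_sub_cancel_left]; exact norm_add_le _ _
  have n4 : ‖p + a + b - (p + a)‖ ≤ ‖a‖ + ‖b‖ := by rw [add_sub_cancel_left]; linarith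
  have n5 : ‖p + a + b - (p + b)‖ ≤ ‖a‖ + ‖b‖ := by
    rw [add_right_comm, add_sub_cancel_left]; linarith
  have d0 : ‖p' - p‖ ≤ 3 * δ := by linarith
  have d1 : ‖p' + a' - (p + a)‖ ≤ 3 * δ := by
    rw [add_sub_add_comm]; have := norm_add_le (p' - p) (a' - a); linarith
  have d2 : ‖p' + b' - (p + b)‖ ≤ 3 * δ := by
    rw [add_sub_add_comm]; have := norm_add_le (p' - p) (b' - b); linarith
  have d3 : ‖p' + a' + b' - (p + a + b)‖ ≤ 3 * δ := by
    rw [add_sub_add_comm, add_sub_add_comm]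
    have := norm_add_le (p' - p) (a' - a)
    have := norm_add_le (p' - p + (a' - a)) (b' - b)
    linarith
  have s1 := clpar_side ht hK0 hK hδ n0 n1 d0 d1 n1
    (by rw [add_sub_cancel_left, add_sub_cancel_left]; exact ha)
  have s2 := clpar_side ht hK0 hK hδ n1 n3 d1 d3 n4
    (by rw [add_sub_cancel_left, add_sub_cancel_left]; exact hb)
  have s3 := clpar_side ht hK0 hK hδ n2 n3 d2 d3 n5
    (by rw [add_right_comm p', add_right_comm p, add_sub_cancel_left, add_sub_cancel_left]; exact ha)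
  have s4 := clpar_side ht hK0 hK hδ n0 n2 d0 d2 n2
    (by rw [add_sub_cancel_left, add_sub_cancel_left]; exact hb)
  rw [clpar_stokes ht p p a b, clpar_stokes ht p p' a' b']
  have e1 : 0 ≤ K * δ * (‖a‖ + ‖b‖ + δ) := by positivity
  rw [abs_le] at s1 s2 s3 s4 ⊢
  constructor <;> nlinarith [s1.1, s1.2, s2.1, s2.2, s3.1, s3.2, s4.1, s4.2]

theorem par_bd {t : Form2 F} {K : ℝ} (hK : ∀ x u v, |t x u v| ≤ K * ‖u‖ * ‖v‖) (p a b : F) :
    |par t p a b| ≤ K * ‖a‖ * ‖b‖ :=
  clpar_int_bd fun _ _ => clpar_int_bd fun _ _ => hK _ _ _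

theorem par_skew {t : Form2 F} (ht : Closed2 univ t) (p a b : F) :
    par t p a b = -par t p b a := by
  rw [clpar_stokes ht p p a b, clpar_stokes ht p p b a, add_right_comm p b a]
  ring

theorem clpar_cont {t : Form2 F} (ht : Closed2 univ t) (p a b u v : F) :
    Continuous fun q : ℝ × ℝ => t (p + q.1 • a + q.2 • b) u v := by
  have hc : Continuous t := continuousOn_univ.1 ht.1.continuousOn
  exact ((hc.comp (by fun_prop)).clm_apply continuous_const).clm_apply continuous_const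

theorem clpar_cont2 {t : Form2 F} (ht : Closed2 univ t) (p a b u v : F) :
    Continuous fun s : ℝ => ∫ r in (0 : ℝ)..1, t (p + s • a + r • b) u v :=
  intervalIntegral.continuous_parametric_intervalIntegral_of_continuous'
    (f := fun s r => t (p + s • a + r • b) u v) (clpar_cont ht p a b u v) 0 1

theorem clpar_int_ge {f : ℝ → ℝ} (hf : Continuous f) {c : ℝ} (h : ∀ s, c ≤ f s) :
    c ≤ ∫ s in (0 : ℝ)..1, f s := by
  have := intervalIntegral.integral_mono_on (μ := volume) zero_le_one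
    (continuous_const.intervalIntegrable (u := fun _ => c) 0 1) (hf.intervalIntegrable 0 1)
    (fun s _ => h s)
  simpa using this

theorem par_ge {t : Form2 F} (ht : Closed2 univ t) (p a b : F) {c : ℝ}
    (h : ∀ s r : ℝ, c ≤ t (p + s • a + r • b) a b) : c ≤ par t p a b :=
  clpar_int_ge (clpar_cont2 ht p a b a b) fun s =>
    clpar_int_ge ((clpar_cont ht p a b a b).comp (Continuous.prodMk_right s)) (h s)

theorem clpar_pot {t : Form2 F} (ht : Closed2 univ t) {z : F} (hz : ∀ x, t (x + z) = t x) :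
    ∃ Φ : F → ℝ, ∀ p b, par t p z b = Φ p - Φ (p + b) := by
  have hA := rad_prim isOpen_univ convex_univ ht (mem_univ 0)
  have hs : ContDiff ℝ ∞ (rad t 0) := contDiffOn_univ.1 hA.1
  have hs' : ContDiff ℝ ∞ fun x => rad t 0 (x + z) := hs.comp (contDiff_id.add contDiff_const)
  have hB : IsPrim univ (fun x => rad t 0 (x + z) - rad t 0 x) 0 := by
    refine ⟨(hs'.sub hs).contDiffOn, fun x _ u v => ?_⟩
    have d1 := (hs.differentiable (by simp) x)
    have d2 := (hs'.differentiable (by simp) x)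
    rw [fderiv_fun_sub d2 d1, fderiv_comp_add_right]
    have e1 := hA.2 x (mem_univ _) u v
    have e2 := hA.2 (x + z) (mem_univ _) u v
    rw [hz] at e2
    simp only [sub_apply, Pi.zero_apply, zero_apply]
    linarith
  refine ⟨fun p => segInt (rad t 0) p (p + z) -
    segInt (fun x => rad t 0 (x + z) - rad t 0 x) 0 p, fun p b => ?_⟩
  have h1 := closed1_line isOpen_univ convex_univ hB (mem_univ 0)
    (curve_seg convex_univ (mem_univ p) (mem_univ (p + b)))
  have e1 : seg p (p + b) 0 = p := by simp [seg]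
  have e2 : seg p (p + b) 1 = p + b := by simp [seg]
  rw [lineInt_seg, e1, e2] at h1
  have h2 : segInt (fun x => rad t 0 (x + z) - rad t 0 x) p (p + b) =
      segInt (rad t 0) (p + z) (p + z + b) - segInt (rad t 0) p (p + b) := by
    simp only [segInt, add_sub_cancel_left, sub_apply]
    have c1 : Continuous fun s : ℝ => rad t 0 (p + s • b) b :=
      (hs.continuous.comp (by fun_prop)).clm_apply continuous_const
    have c2 : Continuous fun s : ℝ => rad t 0 (p + s • b + z) b :=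
      (hs.continuous.comp (by fun_prop)).clm_apply continuous_const
    rw [intervalIntegral.integral_sub (c2.intervalIntegrable 0 1) (c1.intervalIntegrable 0 1)]
    simp only [add_right_comm p z]
  simp only [clpar_stokes ht 0 p z b, add_right_comm p b z]
  linarith

theorem clpar_move {t : Form2 F} {z : F} (hz : ∀ x, t (x + z) = t x) (p a b : F) :
    par t (p + z) a b = par t p a b := by
  have e : ∀ s r : ℝ, p + z + s • a + r • b = p + s • a + r • b + z := fun s r => by abel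
  simp only [par, e, hz]

/-- For a period `z` the integral does not depend on the base point if `b` is a period too, is
additive in `b`, and is homogeneous in `z`. -/
theorem par_per {t : Form2 F} (ht : Closed2 univ t) {z : F} (hz : ∀ x, t (x + z) = t x) :
    (∀ p b b', par t p z (b + b') = par t p z b + par t (p + b) z b') ∧
    (∀ p b (k : ℕ), par t p ((k : ℝ) • z) b = k * par t p z b) ∧
    ∀ b, (∀ x, t (x + b) = t x) → ∀ p p', par t p z b = par t p' z b := by
  obtain ⟨Φ, hΦ⟩ := clpar_pot ht hz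
  have h1 : ∀ p b b', par t p z (b + b') = par t p z b + par t (p + b) z b' := fun p b b' => by
    rw [hΦ, hΦ, hΦ, add_assoc]; ring
  refine ⟨h1, fun p b k => ?_, fun b hb p p' => ?_⟩
  · set g : ℝ → ℝ := fun s => ∫ r in (0 : ℝ)..1, t (p + s • z + r • b) z b with hg
    have gc : Continuous g := clpar_cont2 ht p z b z b
    have gp : Function.Periodic g 1 := fun s => by
      have e : ∀ r : ℝ, p + (s + 1) • z + r • b = p + s • z + r • b + z := fun r => by module
      simp only [hg, e, hz]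
    have e1 : par t p ((k : ℝ) • z) b = k * ∫ s in (0 : ℝ)..1, g (k * s) := by
      have e : ∀ s : ℝ, s • (k : ℝ) • z = (k * s) • z := fun s => by rw [smul_smul, mul_comm]
      simp only [par, hg, e, map_smul, smul_apply, smul_eq_mul,
        intervalIntegral.integral_const_mul]
    have e2 := gp.intervalIntegral_add_zsmul_eq (k : ℤ) 0 fun a b => gc.intervalIntegrable a b
    rw [e1, intervalIntegral.mul_integral_comp_mul_left]
    simpa [par, hg] using e2
  · have a1 := h1 p (p' - p) b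
    have a2 := h1 p b (p' - p)
    rw [add_comm b, clpar_move hb] at a2
    rw [add_sub_cancel] at a1
    linarith

/-- Polarisation. -/
theorem jinv_bd {F : Type} [NormedAddCommGroup F] [NormedSpace ℝ F] [NormedSpace ℂ F]
    [IsScalarTower ℝ ℂ F] (b : F →L[ℝ] F →L[ℝ] ℝ) (hs : ∀ u v, b u v = -b v u)
    (hj : ∀ u v, b (Complex.I • u) (Complex.I • v) = b u v) (q : F → ℝ) {K : ℝ}
    (q0 : ∀ u, 0 ≤ q u) (qa : ∀ u v, q (u + v) ≤ q u + q v)
    (qs : ∀ (c : ℂ) u, q (c • u) = ‖c‖ * q u) (qd : ∀ u, q u = 0 → u = 0)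
    (h : ∀ u, |b u (Complex.I • u)| ≤ K * q u ^ 2) (u v : F) : |b u v| ≤ 2 * K * q u * q v := by
  have rs : ∀ (c : ℝ) (x : F), c • x = (c : ℂ) • x := fun c x => (algebraMap_smul ℂ c x).symm
  have qr : ∀ (c : ℝ) (x : F), 0 ≤ c → q (c • x) = c * q x := fun c x hc => by
    rw [rs, qs, Complex.norm_real, Real.norm_of_nonneg hc]
  have qn : ∀ x, q (-x) = q x := fun x => by simpa using qs (-1) x
  have ii : ∀ x : F, Complex.I • Complex.I • x = -x := fun x => by
    rw [smul_smul, Complex.I_mul_I, neg_one_smul]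
  have sym : ∀ x y, b y (Complex.I • x) = b x (Complex.I • y) := fun x y => by
    rw [← hj y, ii, map_neg, hs x]
  have pol : 0 ≤ K → ∀ x y, 4 * |b x (Complex.I • y)| ≤ 2 * K * (q x + q y) ^ 2 := by
    intro hK x y
    have h1 := h (x + y)
    have h2 := h (x + -y)
    have b1 : K * q (x + y) ^ 2 ≤ K * (q x + q y) ^ 2 :=
      mul_le_mul_of_nonneg_left (pow_le_pow_left₀ (q0 _) (qa x y) 2) hK
    have b2 : K * q (x + -y) ^ 2 ≤ K * (q x + q y) ^ 2 :=
      mul_le_mul_of_nonneg_left (pow_le_pow_left₀ (q0 _) ((qa x (-y)).trans_eq (by rw [qn])) 2) hK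
    simp only [smul_add, smul_neg, map_add, map_neg, add_apply,
      neg_apply, sym x y] at h1 h2
    rw [abs_le] at h1 h2
    rcases abs_cases (b x (Complex.I • y)) with h3 | h3 <;> linarith [h1.1, h1.2, h2.1, h2.2, h3.1]
  rcases (q0 u).eq_or_lt with hu | hu
  · rw [← hu, qd u hu.symm]; simp
  rcases (q0 v).eq_or_lt with hv | hv
  · rw [← hv, qd v hv.symm]; simp
  have hK : 0 ≤ K := by
    have := (abs_nonneg _).trans (h u)
    exact nonneg_of_mul_nonneg_left this (pow_pos hu 2)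
  have key := pol hK (q v • u) (q u • -(Complex.I • v))
  have e1 : Complex.I • q u • -(Complex.I • v) = q u • v := by
    rw [rs, smul_comm, smul_neg, ii, neg_neg, ← rs]
  have e2 : q (-(Complex.I • v)) = q v := by rw [qn, qs]; simp
  rw [e1, qr _ _ hv.le, qr _ _ hu.le, e2] at key
  simp only [map_smul, smul_apply, smul_eq_mul, abs_mul, abs_of_pos hu,
    abs_of_pos hv] at key
  have hp := mul_pos hu hv
  refine le_of_mul_le_mul_left ?_ hp
  nlinarith

theorem clpar_eval {G : Type} [NormedAddCommGroup G] [NormedSpace ℝ G]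
    {f : G → F →L[ℝ] F →L[ℝ] ℝ} {f' : G →L[ℝ] F →L[ℝ] F →L[ℝ] ℝ} {x : G}
    (hf : HasFDerivAt f f' x) (u : G) (v w : F) :
    fderiv ℝ (fun x => f x v w) x u = f' u v w := by
  rw [((hf.clm_apply (hasFDerivAt_const v x)).clm_apply (hasFDerivAt_const w x)).fderiv]
  simp

theorem leaf_closed {n : ℕ} {T : Set (E n)} (hT : IsOpen T) {t : Form2 (P n)}
    (ht : Closed2 (T ×ˢ univ) t) {y : E n} (hy : y ∈ T) : Closed2 univ (leaf t y) := by
  have hm : ∀ ξ : E n, (y, ξ) ∈ T ×ˢ (univ : Set (E n)) := fun ξ => ⟨hy, mem_univ _⟩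
  have hat : ∀ ξ : E n, ContDiffAt ℝ ∞ t (y, ξ) := fun ξ =>
    ht.1.contDiffAt ((hT.prod isOpen_univ).mem_nhds (hm ξ))
  have hc : ContDiff ℝ ∞ fun ξ : E n => t (y, ξ) := contDiff_iff_contDiffAt.2 fun ξ =>
    (hat ξ).comp ξ (contDiffAt_const.prodMk contDiffAt_id)
  have he : ∀ ξ u v, leaf t y ξ u v = t (y, ξ) (0, u) (0, v) := fun ξ u v => rfl
  have hl : ContDiff ℝ ∞ (leaf t y) :=
    contDiff_clm_apply_iff.2 fun u => contDiff_clm_apply_iff.2 fun v =>
      (hc.clm_apply (contDiff_const (c := ((0, u) : P n)))).clm_apply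
        (contDiff_const (c := ((0, v) : P n)))
  have hd : ∀ ξ u v w, fderiv ℝ (leaf t y) ξ u v w = fderiv ℝ t (y, ξ) (0, u) (0, v) (0, w) := by
    intro ξ u v w
    have h1 := ((hat ξ).differentiableAt (by simp)).hasFDerivAt.comp ξ
      (hasFDerivAt_prodMk_right y ξ)
    rw [← clpar_eval (hl.differentiable (by simp) ξ).hasFDerivAt]
    exact clpar_eval h1 u (0, v) (0, w)
  refine ⟨hl.contDiffOn, fun ξ _ u v => ?_, fun ξ _ u v w => ?_⟩
  · rw [he, he]; exact ht.2.1 _ (hm ξ) _ _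
  · rw [hd, hd, hd]; exact ht.2.2 _ (hm ξ) _ _ _

end Pool.Agent.CL
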