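import Pool.Agent.P.MP_63735c_ag.CCG1

/-! Uniform extension of returns. -/

open scoped ContDiff Matrix
open Set Metric MeasureTheory Filter Topology

namespace Pool.Agent.CL

open Pool.Agent.SPF LGrp

variable {n : ℕ} {X : Type} [TopologicalSpace X] [T2Space X] [MeasurableSpace X]
  {S : Setup n X}

lemma ccg2_lim {K : Set (E n)} (hK : IsCompact K) {y : ℕ → E n} (hy : ∀ k, y k ∈ K) :
    ∃ a ∈ K, Tendsto y UU (𝓝 a) :=
  hK.ultrafilter_le_nhds ((hyperfilter ℕ).map y)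
    (le_principal_iff.2 (Filter.mem_map.2 (Filter.univ_mem' hy)))

lemma ccg2_symm {y : E n} {g g' : Ret n} (h : Ret.Eq y g g') : Ret.Eq y g' g :=
  h.mono fun _ hx => ⟨hx.1.symm, hx.2.1.symm, hx.2.2.symm⟩

theorem Model.unif_ext (M : Model n X) {K : Set (E n)} (hK : IsCompact K) (hT : K ⊆ M.T) (C : ℝ) :
    ∃ ρ > (0 : ℝ), ∃ C', 0 ≤ C' ∧ ∀ y ∈ K, ∀ g, Germ M.T M.Ψ y g → g.γ y ∈ K → ‖g.α y‖ ≤ C →
      ∃ g', IsRet M.T M.Ψ (ball y ρ) g' ∧ Ret.Eq y g g' ∧ ∀ x ∈ ball y ρ, ‖g'.α x‖ ≤ C' := by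
  by_contra hcon
  have h1 : ∀ k : ℕ, ∃ y ∈ K, ∃ g, Germ M.T M.Ψ y g ∧ g.γ y ∈ K ∧ ‖g.α y‖ ≤ C ∧
      ¬∃ g', IsRet M.T M.Ψ (ball y (1 / ((k : ℝ) + 1))) g' ∧ Ret.Eq y g g' ∧
        ∀ x ∈ ball y (1 / ((k : ℝ) + 1)), ‖g'.α x‖ ≤ k := by
    intro k
    by_contra h2
    refine hcon ⟨1 / ((k : ℝ) + 1), by positivity, k, k.cast_nonneg, fun y hy g a b c => ?_⟩
    by_contra h3
    exact h2 ⟨y, hy, g, a, b, c, h3⟩
  choose y hy g hg hγ hα hno using h1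
  obtain ⟨y0, hy0, t0⟩ := ccg2_lim hK hy
  obtain ⟨y1, hy1, t1⟩ := ccg2_lim hK hγ
  obtain ⟨ξ, -, t2⟩ := ccg2_lim (isCompact_closedBall (0 : E n) C)
    (fun k => mem_closedBall_zero_iff.2 (hα k))
  obtain ⟨g', ρ, hρ, hb, -, -, hev⟩ := M.lim (hT hy0) (hT hy1) t0 (Eventually.of_forall hg) t2 t1
  obtain ⟨B, hB⟩ := (isCompact_closedBall y0 (ρ / 2)).exists_bound_of_continuousOn
    (hb.α_hol.continuousOn.mono (closedBall_subset_ball (by linarith)))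
  have hU : UU ≤ atTop := Nat.cofinite_eq_atTop ▸ hyperfilter_le_cofinite
  have e1 : ∀ᶠ k : ℕ in UU, B ≤ (k : ℝ) :=
    hU (tendsto_natCast_atTop_atTop.eventually_ge_atTop B)
  have e2 : ∀ᶠ k : ℕ in UU, 1 / ((k : ℝ) + 1) < ρ / 4 :=
    hU (tendsto_one_div_add_atTop_nhds_zero_nat.eventually_lt_const (by positivity))
  have e3 : ∀ᶠ k in UU, y k ∈ ball y0 (ρ / 4) := t0.eventually (ball_mem_nhds _ (by positivity))
  obtain ⟨k, ⟨⟨a1, a2⟩, a3⟩, a4⟩ := (((e1.and e2).and e3).and hev).exists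
  have hs : ball (y k) (1 / ((k : ℝ) + 1)) ⊆ ball y0 (ρ / 2) :=
    ball_subset_ball' (by rw [mem_ball] at a3; linarith)
  exact hno k ⟨g', hb.mono isOpen_ball (hs.trans (ball_subset_ball (by linarith))), a4.2,
    fun x hx => (hB x (ball_subset_closedBall (hs hx))).trans a1⟩

omit [T2Space X] in
lemma ccg2_maps (M : Model n X) {y : E n} {r r' : ℝ} {g : Ret n} (hr : 0 < r)
    (hg : IsRet M.T M.Ψ (ball y r) g) (h : M.C0 * r ≤ r') :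
    MapsTo g.γ (ball y r) (ball (g.γ y) r') := by
  intro x hx
  have h1 := (convex_ball y r).norm_image_sub_le_of_norm_fderiv_le (𝕜 := ℂ)
    (fun z hz => hg.γ_hol.differentiableAt (isOpen_ball.mem_nhds hz))
    (fun z hz => (M.bd _ g hg z hz).1) (mem_ball_self hr) hx
  rw [mem_ball, dist_eq_norm] at hx ⊢
  have h2 : M.C0 * ‖x - y‖ < M.C0 * r :=
    mul_lt_mul_of_pos_left hx (zero_lt_one.trans_le M.C0_ge)
  linarith

lemma ccg2_ind {K : Set (E n)} {y : E n} {C C' r r' : ℝ} (hy : y ∈ K) (hC : 0 ≤ C) (hC' : 0 ≤ C')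
    (hr : 0 < r) (hr' : S.M.C0 * r ≤ r')
    (hu : ∀ y ∈ K, ∀ g, Germ S.M.T S.M.Ψ y g → g.γ y ∈ K → ‖g.α y‖ ≤ S.M.C0 * (2 * C + 1) →
      ∃ g', IsRet S.M.T S.M.Ψ (ball y r') g' ∧ Ret.Eq y g g' ∧ ∀ x ∈ ball y r', ‖g'.α x‖ ≤ C')
    (hk : ∀ ξ, ∃ g, Germ S.M.T S.M.Ψ y g ∧ g.γ y ∈ K ∧ ‖g.α y - ξ‖ ≤ C) (m : ℕ) :
    ∀ g ξ, Germ S.M.T S.M.Ψ y g → g.γ y ∈ K → ‖ξ‖ ≤ m → ‖g.α y - ξ‖ ≤ C →
      ∃ g', IsRet S.M.T S.M.Ψ (ball y r) g' ∧ Ret.Eq y g g' ∧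
        ∀ x ∈ ball y r, ‖g'.α x‖ ≤ (m + 1) * (S.M.C0 * C') := by
  have h0 := S.M.C0_ge
  induction m with
  | zero =>
    intro g ξ hg hγ hξ hα
    rw [Nat.cast_zero, norm_le_zero_iff] at hξ
    rw [hξ, sub_zero] at hα
    obtain ⟨g', a1, a2, a3⟩ := hu y hy g hg hγ (by nlinarith)
    have hs : ball y r ⊆ ball y r' := ball_subset_ball (by nlinarith)
    refine ⟨g', a1.mono isOpen_ball hs, a2, fun x hx => (a3 x (hs hx)).trans ?_⟩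
    rw [Nat.cast_zero]
    nlinarith
  | succ m ih =>
    intro g ξ hg hγ hξ hα
    rw [Nat.cast_succ] at hξ ⊢
    have hm : (0 : ℝ) < m + 1 := by positivity
    obtain ⟨g1, b1, b2, b3⟩ := hk (((m : ℝ) / (m + 1)) • ξ)
    have n1 : ‖((m : ℝ) / (m + 1)) • ξ‖ ≤ m := by
      rw [norm_smul, Real.norm_of_nonneg (by positivity), div_mul_eq_mul_div, div_le_iff₀ hm]
      exact mul_le_mul_of_nonneg_left hξ m.cast_nonneg
    have n2 : ‖ξ - ((m : ℝ) / (m + 1)) • ξ‖ ≤ 1 := by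
      have e : ξ - ((m : ℝ) / (m + 1)) • ξ = (1 / ((m : ℝ) + 1)) • ξ := by
        rw [show (1 : ℝ) / (m + 1) = 1 - m / (m + 1) by field_simp; ring, sub_smul, one_smul]
      rw [e, norm_smul, Real.norm_of_nonneg (by positivity), div_mul_eq_mul_div, div_le_iff₀ hm]
      linarith
    obtain ⟨g2, c1, c2, c3⟩ := ih g1 _ b1 b2 n1 b3
    have d1 : g1.γ y = g2.γ y := c2.self_of_nhds.1
    have d2 : g1.α y = g2.α y := c2.self_of_nhds.2.1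
    obtain ⟨k, k1, k2, k3, k4⟩ := S.c_step hg ⟨_, c1, mem_ball_self hr⟩
    have n3 : ‖g.α y - g2.α y‖ ≤ 2 * C + 1 := by
      rw [← d2]
      have a := norm_sub_le_norm_sub_add_norm_sub (g.α y) ξ (g1.α y)
      have b := norm_sub_le_norm_sub_add_norm_sub ξ (((m : ℝ) / (m + 1)) • ξ) (g1.α y)
      rw [norm_sub_rev _ (g1.α y)] at b
      rw [norm_sub_rev _ (g1.α y)] at a
      rw [norm_sub_rev]
      linarith [norm_sub_rev (g1.α y) (g.α y), norm_sub_rev (g1.α y) ξ,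
        norm_sub_rev (g1.α y) (((m : ℝ) / (m + 1)) • ξ)]
    obtain ⟨k', l1, l2, l3⟩ := hu _ (d1 ▸ b2) k k1 (k2 ▸ hγ)
      (k3.trans (mul_le_mul_of_nonneg_left n3 (by linarith)))
    have hmap := ccg2_maps S.M hr c1 hr'
    refine ⟨k'.comp g2, (c1.comp l1 hmap).1, ccg2_symm (k4 k' l2), fun x hx => ?_⟩
    have p1 := c3 x hx
    have p2 := (tr (fderiv ℂ g2.γ x)).le_of_opNorm_le_of_le (S.M.bd _ g2 c1 x hx).2.2
      (l3 _ (hmap hx))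
    have p3 := norm_add_le (g2.α x) (tr (fderiv ℂ g2.γ x) (k'.α (g2.γ x)))
    change ‖g2.α x + tr (fderiv ℂ g2.γ x) (k'.α (g2.γ x))‖ ≤ _
    linarith

theorem exists_loc (h : ∀ d > (0 : ℝ), S.KK d) : Nonempty (Loc S) := by
  have hL := S.G.lg.L_ge
  have hε := S.G.lg.ε_pos
  have hr := S.G.r_pos
  have h0 := S.M.C0_ge
  have hL3 : 1 ≤ S.G.lg.L ^ 3 := one_le_pow₀ hL
  obtain ⟨δ, hδ, hδ1⟩ : ∃ δ > (0 : ℝ), 8 * (S.G.lg.L ^ 3 * δ) = S.G.lg.ε :=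
    ⟨S.G.lg.ε / (8 * S.G.lg.L ^ 3), by positivity, by field_simp⟩
  have hδε : δ ≤ S.G.lg.ε := by nlinarith
  obtain ⟨V, C, X0, hVo, ⟨y1, hy1⟩, hV, hX, hKK⟩ := h δ hδ
  have hC : 0 ≤ C := by
    obtain ⟨j, g, -, -, -, h1, -⟩ := hKK y1 hy1 0
    exact (norm_nonneg _).trans h1
  obtain ⟨ρ1, hρ1, hb1⟩ := Metric.isOpen_iff.1 hVo y1 hy1
  have hKT : closedBall S.G.y0 S.G.r ⊆ S.M.T :=
    (closedBall_subset_closedBall (by linarith)).trans S.G.sub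
  obtain ⟨ρ0, hρ0, C', hC', hu⟩ := S.M.unif_ext (isCompact_closedBall S.G.y0 S.G.r) hKT
    (S.M.C0 * (2 * C + 1))
  obtain ⟨ρ, hρ, r1, r2, r3⟩ : ∃ ρ > (0 : ℝ), 4 * ρ ≤ ρ1 ∧ 8 * ρ ≤ min S.G.r 1 ∧
      S.M.C0 * (4 * ρ) ≤ ρ0 := by
    have hm : 0 < min S.G.r 1 := lt_min hr one_pos
    refine ⟨min (ρ1 / 4) (min (min S.G.r 1 / 8) (ρ0 / (4 * S.M.C0))), by positivity, ?_, ?_, ?_⟩
    · linarith [min_le_left (ρ1 / 4) (min (min S.G.r 1 / 8) (ρ0 / (4 * S.M.C0)))]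
    · linarith [(min_le_right (ρ1 / 4) _).trans
        (min_le_left (min S.G.r 1 / 8) (ρ0 / (4 * S.M.C0)))]
    · have := (min_le_right (ρ1 / 4) _).trans
        (min_le_right (min S.G.r 1 / 8) (ρ0 / (4 * S.M.C0)))
      rw [le_div_iff₀ (by positivity)] at this
      linarith
  have r4 : 8 * ρ ≤ S.G.r := r2.trans (min_le_left _ _)
  have hsV : ball y1 (4 * ρ) ⊆ V := (ball_subset_ball r1).trans hb1
  have h2r : ∀ y ∈ V, y ∈ ball S.G.y0 (2 * S.G.r) := fun y hy =>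
    ball_subset_ball (by linarith) (hV hy)
  have hmv : ∀ y ∈ V, ∀ j, S.G.lg.sz j ≤ δ → S.G.γ j y ∈ closedBall S.G.y0 S.G.r := by
    intro y hy j hj
    have a1 := (S.G.near j (hj.trans hδε) y (h2r y hy)).1
    have a2 := S.G.small.trans (min_le_left _ _)
    have a3 := mul_le_mul_of_nonneg_left (hj.trans hδε) (zero_le_one.trans hL)
    have a4 := hV hy
    rw [mem_ball, dist_eq_norm] at a4
    rw [mem_closedBall, dist_eq_norm]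
    have := norm_sub_le_norm_sub_add_norm_sub (S.G.γ j y) y S.G.y0
    linarith
  have hCC : 0 ≤ S.M.C0 * C' := by positivity
  refine ⟨⟨y1, ρ, δ, 1 + C + 2 * (S.M.C0 * C'), X0, hρ, hδ, by linarith, r2, hsV.trans hV,
    hδ1.le, hX, fun y hy ξ => ?_, fun y hy j α hj hg => ?_⟩⟩
  · obtain ⟨j, g, a1, a2, a3, a4, a5⟩ := hKK y (hsV hy) ξ
    exact ⟨j, g.α, a1, S.c_gm (h2r y (hsV hy)) a2 a3, by linarith, a5⟩
  · have hyV := hsV hy
    have hyK : y ∈ closedBall S.G.y0 S.G.r :=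
      ball_subset_closedBall (ball_subset_ball (by linarith) (hV hyV))
    obtain ⟨g', a1, a2, a3⟩ := ccg2_ind hyK hC hC' (by positivity : 0 < 4 * ρ) r3 hu
      (fun ξ => by
        obtain ⟨j, g, a1, a2, a3, a4, -⟩ := hKK y hyV ξ
        exact ⟨g, a2, a3.self_of_nhds ▸ hmv y hyV j a1, a4⟩)
      ⌈‖α y‖⌉₊ (S.rt j α) (α y) hg (hmv y hyV j hj) (Nat.le_ceil _)
      (by change ‖α y - α y‖ ≤ C; rwa [sub_self, norm_zero])
    have hs : ball y (4 * ρ) ⊆ ball S.G.y0 (2 * S.G.r) :=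
      ball_subset_ball' (by have := hV hyV; rw [mem_ball] at this; linarith)
    have hy' : y ∈ ball y (4 * ρ) := mem_ball_self (by positivity)
    have e1 : EqOn (S.G.γ j) g'.γ (ball y (4 * ρ)) :=
      hol_ident isOpen_ball (convex_ball _ _).isPreconnected ((S.G.γ_hol j).mono hs) a1.γ_hol hy'
        (a2.mono fun x hx => hx.1)
    have e2 : EqOn (S.G.N j) g'.N (ball y (4 * ρ)) :=
      hol_ident isOpen_ball (convex_ball _ _).isPreconnected ((S.G.N_hol j).mono hs) a1.N_hol hy'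
        (a2.mono fun x hx => hx.2.2)
    refine ⟨g'.α, a1.congr fun x hx => ⟨e1 hx, rfl, e2 hx⟩, a2.mono fun x hx => hx.2.1.symm,
      fun x hx => (a3 x hx).trans ?_⟩
    have b1 := (Nat.ceil_lt_add_one (norm_nonneg (α y))).le
    have b2 := norm_nonneg (α y)
    nlinarith [mul_nonneg hCC b2, mul_nonneg hC b2]

end Pool.Agent.CL
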