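import Pool.Agent.P.MP_63735c_ag.CCG6

/-! Heights and sizes. -/

open scoped ContDiff Matrix
open Set Metric MeasureTheory Filter Topology

namespace Pool.Agent.CL

open Pool.Agent.SPF LGrp

variable {n : ℕ} {X : Type} [TopologicalSpace X] [T2Space X] [MeasurableSpace X]
  {S : Setup n X}

namespace Gam

variable {l : Loc S} {D : LGrp} (Γ : Gam l D)


omit [T2Space X] in
lemma ccg7_y1 (l : Loc S) {s : ℝ} (hs : 0 < s) : l.y1 ∈ ball l.y1 (s * l.ρ) :=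
  mem_ball_self (mul_pos hs l.ρ_pos)

omit [T2Space X] in
lemma ccg7_mul {g h : D.G} (hg : D.sz g ≤ 1) (hh : D.sz h ≤ 1) :
    Γ.a (g * h) = Γ.a h + Γ.T h (Γ.α g (Γ.γ h l.y1)) :=
  Γ.α_mul g h hg hh l.y1 (ccg7_y1 l (by norm_num))

lemma ccg7_T {g : D.G} (hg : D.sz g ≤ 1) (v : E n) : ‖Γ.T g v‖ ≤ 2 * ‖v‖ := by
  have h1 := (Γ.near hg (ccg7_y1 l (by norm_num : (0 : ℝ) < 4))).2.2.2.1
  have h2 : Γ.T g v = (tr (fderiv ℂ (Γ.γ g) l.y1) - 1) v + v := by simp [T]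
  rw [h2]
  refine (norm_add_le _ _).trans ?_
  have h3 := (tr (fderiv ℂ (Γ.γ g) l.y1) - 1).le_opNorm v
  have h4 := mul_le_mul_of_nonneg_right (h1.trans hg) (norm_nonneg v)
  linarith

omit [T2Space X] in
lemma ccg7_sub (l : Loc S) {s s' : ℝ} (h : s ≤ s') :
    ball l.y1 (s * l.ρ) ⊆ ball l.y1 (s' * l.ρ) :=
  ball_subset_ball (mul_le_mul_of_nonneg_right h l.ρ_pos.le)

theorem a_one : Γ.a 1 = 0 := Γ.α_one l.y1 (ccg7_y1 l (by norm_num))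

theorem a_mul3 : ∃ C, 0 ≤ C ∧ ∀ g h k, D.sz g ≤ 1 → D.sz h ≤ 1 → D.sz k ≤ 1 →
    D.sz (g * h) ≤ 1 → ‖Γ.a (g * h * k) - Γ.a (g * k) - Γ.a (h * k) + Γ.a k‖ ≤
      C * D.sz h * (1 + ‖Γ.a g‖) := by
  obtain ⟨C, hC0, hC⟩ := Γ.dα
  have hl := l.C_ge
  refine ⟨2 * (l.C + C), by positivity, fun g h k hg hh hk hgh => ?_⟩
  have hy : Γ.γ k l.y1 ∈ ball l.y1 ((1 + 1 / 8) * l.ρ) :=
    Γ.maps hk (by norm_num) (ccg7_y1 l one_pos)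
  have hy' : Γ.γ h (Γ.γ k l.y1) ∈ ball l.y1 ((1 + 1 / 8 + 1 / 8) * l.ρ) :=
    Γ.maps hh (by norm_num) hy
  have h1 : Γ.α (g * h) (Γ.γ k l.y1) = Γ.α h (Γ.γ k l.y1) +
      tr (fderiv ℂ (Γ.γ h) (Γ.γ k l.y1)) (Γ.α g (Γ.γ h (Γ.γ k l.y1))) :=
    Γ.α_mul g h hg hh _ (ccg7_sub l (by norm_num) hy)
  have h2 : Γ.a (g * h * k) - Γ.a (g * k) - Γ.a (h * k) + Γ.a k =
      Γ.T k ((tr (fderiv ℂ (Γ.γ h) (Γ.γ k l.y1)) - 1) (Γ.α g (Γ.γ h (Γ.γ k l.y1))) +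
        (Γ.α g (Γ.γ h (Γ.γ k l.y1)) - Γ.α g (Γ.γ k l.y1))) := by
    rw [Γ.ccg7_mul hgh hk, Γ.ccg7_mul hg hk, Γ.ccg7_mul hh hk, h1]
    simp only [map_add, map_sub, ContinuousLinearMap.sub_apply, ContinuousLinearMap.one_apply]
    abel
  have hn := Γ.near hh (ccg7_sub l (by norm_num : (1 + 1 / 8 : ℝ) ≤ 4) hy)
  have h3 := Γ.bd g _ (ccg7_sub l (by norm_num : (1 + 1 / 8 + 1 / 8 : ℝ) ≤ 4) hy')
  have h4 := (hC g).2 _ (ccg7_sub l (by norm_num) hy') _ (ccg7_sub l (by norm_num) hy)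
  have h5 : ‖(tr (fderiv ℂ (Γ.γ h) (Γ.γ k l.y1)) - 1) (Γ.α g (Γ.γ h (Γ.γ k l.y1)))‖ ≤
      D.sz h * (l.C * (1 + ‖Γ.a g‖)) :=
    (ContinuousLinearMap.le_opNorm _ _).trans
      (mul_le_mul hn.2.2.2.1 h3 (norm_nonneg _) (D.sz_nonneg h))
  have h6 : C * (1 + ‖Γ.a g‖) * ‖Γ.γ h (Γ.γ k l.y1) - Γ.γ k l.y1‖ ≤
      C * (1 + ‖Γ.a g‖) * D.sz h := mul_le_mul_of_nonneg_left hn.2.1 (by positivity)
  rw [h2]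
  refine (Γ.ccg7_T hk _).trans ?_
  have h7 := (norm_add_le _ _).trans (add_le_add h5 (h4.trans h6))
  linarith

theorem sep : ∃ c0 > (0 : ℝ), ∀ g h, ‖Γ.a g - Γ.a h‖ < c0 → g = h := by
  have h0 : 0 < S.M.C0 := lt_of_lt_of_le one_pos S.M.C0_ge
  have h1 := S.M.c0_pos
  refine ⟨2 * S.M.c0 / S.M.C0, by positivity, fun g h he => ?_⟩
  have hy : l.y1 ∈ ball S.G.y0 (2 * S.G.r) :=
    ball_subset_ball (by linarith [S.G.r_pos]) (l.mem_r (ccg7_y1 l (by norm_num))).1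
  have h2 := S.c_uniq hy (Γ.gm g (ccg7_y1 l (by norm_num))) (Γ.gm h (ccg7_y1 l (by norm_num)))
    (by rw [mul_comm]; exact (lt_div_iff₀ h0).1 he)
  exact Γ.inj g h h2.2.eq_of_nhds

theorem syn : ∀ ε > (0 : ℝ), ∃ C, ∀ ξ, ∃ g, D.sz g ≤ ε ∧ ‖Γ.a g - ξ‖ ≤ C := by
  intro ε hε
  obtain ⟨C, hC⟩ := l.syn (lt_min (mul_pos Γ.lam_pos hε) l.δ_pos)
  refine ⟨C, fun ξ => ?_⟩
  obtain ⟨j, α, h1, h2, h3⟩ := hC ξ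
  obtain ⟨g, hg, hα⟩ := Γ.full j α (h1.trans (min_le_right _ _)) h2
  refine ⟨g, ?_, ?_⟩
  · have h4 := h1.trans (min_le_left _ _)
    rw [← hg, Γ.sz_eq] at h4
    exact le_of_mul_le_mul_left h4 Γ.lam_pos
  · rw [a, hα.eq_of_nhds]
    exact h3

include Γ in
theorem sz_comm : ∃ C, 0 ≤ C ∧ ∀ g h, D.sz g ≤ 1 → D.sz h ≤ 1 → D.sz (g * h) ≤ 1 →
    D.sz (h * g) ≤ 1 → D.sz (h * g)⁻¹ ≤ 1 → D.sz (comm g h) ≤ C * D.sz g * D.sz h := by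
  have hL : 0 ≤ S.G.lg.L := zero_le_one.trans S.G.lg.L_ge
  have hl := Γ.lam_pos
  refine ⟨S.G.lg.L ^ 2 * Γ.lam, by positivity, fun g h hg hh hgh hhg hi => ?_⟩
  have h1 : Γ.j (comm g h) = S.G.lg.mul (Γ.j (g * h)) (S.G.lg.inv (Γ.j (h * g))) := by
    rw [← Γ.j_inv _ hhg]; exact Γ.j_mul _ _ hgh hi
  have h2 : S.G.lg.sz (S.G.lg.inv (Γ.j (h * g))) ≤ S.G.lg.ε := by
    rw [← Γ.j_inv _ hhg]; exact (Γ.sz_ε _).1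
  have h3 := S.G.lg.lip_l _ _ _ (Γ.sz_ε (g * h)).1 (Γ.sz_ε (h * g)).1 h2
  rw [S.G.lg.mul_inv _ (Γ.sz_ε (h * g)).1, ← h1, Γ.j_mul _ _ hg hh, Γ.j_mul _ _ hh hg] at h3
  have h4 := S.G.lg.comm _ _ (Γ.sz_ε g).1 (Γ.sz_ε h).1
  have h5 := h3.trans (mul_le_mul_of_nonneg_left h4 hL)
  change S.G.lg.sz _ ≤ _ * (_ * S.G.lg.sz _ * S.G.lg.sz _) at h5
  rw [Γ.sz_eq, Γ.sz_eq, Γ.sz_eq] at h5
  refine le_of_mul_le_mul_left (h5.trans (le_of_eq ?_)) hl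
  ring

include Γ in
theorem sz_conj : ∃ C, 0 ≤ C ∧ ∀ k h, D.sz k ≤ 1 → D.sz h ≤ 1 → D.sz k⁻¹ ≤ 1 →
    D.sz (h * k) ≤ 1 → D.sz (conj k h) ≤ C * D.sz h := by
  have hL : 0 ≤ S.G.lg.L := zero_le_one.trans S.G.lg.L_ge
  have hl := Γ.lam_pos
  refine ⟨S.G.lg.L ^ 2, by positivity, fun k h hk hh hi hhk => ?_⟩
  have h1 : Γ.j (conj k h) = S.G.lg.mul (S.G.lg.inv (Γ.j k)) (Γ.j (h * k)) := by
    rw [← Γ.j_inv _ hk]; exact Γ.j_mul _ _ hi hhk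
  have h2 : S.G.lg.sz (S.G.lg.inv (Γ.j k)) ≤ S.G.lg.ε := by
    rw [← Γ.j_inv _ hk]; exact (Γ.sz_ε _).1
  have h3 := S.G.lg.lip_r _ _ _ h2 (Γ.sz_ε (h * k)).1 (Γ.sz_ε k).1
  rw [S.G.lg.inv_mul _ (Γ.sz_ε k).1, ← h1, Γ.j_mul _ _ hh hk] at h3
  have h0 : ‖S.G.lg.jt S.G.lg.one - S.G.lg.jt S.G.lg.one‖ ≤ S.G.lg.ε := by
    rw [sub_self, norm_zero]; exact S.G.lg.ε_pos.le
  have h4 := S.G.lg.lip_l _ _ _ (Γ.sz_ε h).1 h0 (Γ.sz_ε k).1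
  rw [S.G.lg.one_mul _ (Γ.sz_ε k).1] at h4
  have h5 := h3.trans (mul_le_mul_of_nonneg_left h4 hL)
  change S.G.lg.sz _ ≤ _ * (_ * S.G.lg.sz _) at h5
  rw [Γ.sz_eq, Γ.sz_eq] at h5
  refine le_of_mul_le_mul_left (h5.trans (le_of_eq ?_)) hl
  ring

theorem u_le : ∃ C, 0 ≤ C ∧ ∀ g, D.sz g ≤ 1 → ‖Γ.u g‖ ≤ C * D.sz g :=
  ⟨1, zero_le_one, fun g hg => by
    rw [_root_.one_mul]
    exact (Γ.near hg (ccg7_y1 l (by norm_num : (0 : ℝ) < 4))).2.1⟩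

theorem a_T : ∃ C, 0 ≤ C ∧ ∀ h g, D.sz h ≤ 1 → D.sz g ≤ 1 →
    ‖Γ.a (h * g) - Γ.a g - Γ.T g (Γ.a h)‖ ≤ C * ‖Γ.u g‖ * (1 + ‖Γ.a h‖) := by
  obtain ⟨C, hC0, hC⟩ := Γ.dα
  refine ⟨2 * C, by positivity, fun h g hh hg => ?_⟩
  have hy : Γ.γ g l.y1 ∈ ball l.y1 ((1 + 1 / 8) * l.ρ) :=
    Γ.maps hg (by norm_num) (ccg7_y1 l one_pos)
  have h1 : Γ.a (h * g) - Γ.a g - Γ.T g (Γ.a h) =
      Γ.T g (Γ.α h (Γ.γ g l.y1) - Γ.α h l.y1) := by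
    rw [Γ.ccg7_mul hh hg, map_sub, add_sub_cancel_left]
    rfl
  have h2 := (hC h).2 _ (ccg7_sub l (by norm_num) hy) _ (ccg7_y1 l (by norm_num))
  rw [h1]
  refine (Γ.ccg7_T hg _).trans ?_
  change _ ≤ C * (1 + ‖Γ.a h‖) * ‖Γ.u g‖ at h2
  linarith

end Gam

end Pool.Agent.CL
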