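import Pool.Agent.P.MP_63735c_ag.CCG6

/-! The cocycle of the symplectic form. -/

open scoped ContDiff Matrix
open Set Metric MeasureTheory Filter Topology

namespace Pool.Agent.CL

open Pool.Agent.SPF LGrp

variable {n : ℕ} {X : Type} [TopologicalSpace X] [T2Space X] [MeasurableSpace X]
  {S : Setup n X}

theorem ccg9_self (α : E n → E n) (o : E n) : hprim α o o = 0 := by simp [hprim]

theorem ccg9_dl (ξ : E n) : ‖dl ξ‖ ≤ n * ‖ξ‖ :=
  ContinuousLinearMap.opNorm_le_bound _ (by positivity) fun u => by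
    rw [dl_apply]; exact dot_le ξ u

theorem ccg9_const {W : Set (E n)} (hc : Convex ℝ W) {f : E n → ℂ} {f' : E n → E n →L[ℂ] ℂ}
    (hf : ∀ x ∈ W, HasFDerivAt f (f' x) x) (h0 : ∀ x ∈ W, ∀ u, f' x u = 0) {x y : E n}
    (hx : x ∈ W) (hy : y ∈ W) : f y = f x := by
  have h := hc.norm_image_sub_le_of_norm_hasFDerivWithin_le (C := 0)
    (fun z hz => (hf z hz).hasFDerivWithinAt)
    (fun z hz => by rw [ContinuousLinearMap.ext (g := 0) (h0 z hz)]; simp) hx hy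
  simpa [sub_eq_zero] using h

namespace Gam

variable {l : Loc S} {D : LGrp} (Γ : Gam l D)

omit [T2Space X] in
theorem ccg9_y1 {s : ℝ} (hs : 0 < s) : l.y1 ∈ ball l.y1 (s * l.ρ) :=
  mem_ball_self (mul_pos hs l.ρ_pos)

omit [T2Space X] in
theorem ccg9_sub {s t : ℝ} (h : s ≤ t) : ball l.y1 (s * l.ρ) ⊆ ball l.y1 (t * l.ρ) :=
  ball_subset_ball (mul_le_mul_of_nonneg_right h l.ρ_pos.le)

omit [T2Space X] in
theorem ccg9_der (g : D.G) {y : E n} (hy : y ∈ ball l.y1 (4 * l.ρ)) :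
    HasFDerivAt (hprim (Γ.α g) l.y1) (dl (Γ.α g y)) y :=
  hprim_deriv isOpen_ball (convex_ball _ _) (Γ.ret g).α_hol (S.M.closed _ _ (Γ.ret g))
    (ccg9_y1 (by norm_num)) hy

theorem ccg9_pt {g : D.G} (hg : D.sz g ≤ 1) : Γ.γ g l.y1 ∈ ball l.y1 ((1 + 1 / 8) * l.ρ) :=
  Γ.maps hg (by norm_num) (ccg9_y1 one_pos)

theorem sg_coc : Coc D Γ.sg := by
  refine ⟨fun g h k hg hh hk => ?_, fun g hg => ?_, fun g _ => ?_⟩
  · have hd : ∀ x ∈ ball l.y1 (3 * l.ρ), HasFDerivAt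
        (fun x => hprim (Γ.α (g * h)) l.y1 x - hprim (Γ.α h) l.y1 x -
          hprim (Γ.α g) l.y1 (Γ.γ h x))
        (dl (Γ.α (g * h) x) - dl (Γ.α h x) -
          (dl (Γ.α g (Γ.γ h x))).comp (fderiv ℂ (Γ.γ h) x)) x := fun x hx => by
      have hx4 : x ∈ ball l.y1 (4 * l.ρ) := ccg9_sub (by norm_num) hx
      have hγ : HasFDerivAt (Γ.γ h) (fderiv ℂ (Γ.γ h) x) x :=
        ((Γ.ret h).γ_hol.differentiableAt (isOpen_ball.mem_nhds hx4)).hasFDerivAt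
      exact ((Γ.ccg9_der _ hx4).sub (Γ.ccg9_der _ hx4)).sub
        ((Γ.ccg9_der g (ccg9_sub (by norm_num) (Γ.maps hh le_rfl hx))).comp x hγ)
    have h1 := ccg9_const (convex_ball _ _) hd (fun x hx u => by
      simp only [sub_apply, ContinuousLinearMap.comp_apply, dl_apply]
      rw [Γ.α_mul g h hg hh x hx, add_dotProduct, tr_pair]
      simp only [γ]
      ring) (ccg9_y1 (by norm_num)) (ccg9_sub (by norm_num) (Γ.ccg9_pt hk))
    simp only [ccg9_self] at h1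
    unfold sg
    rw [Γ.γ_mul hh hk (ccg9_y1 (by norm_num))]
    linear_combination h1
  · have h1 := ccg9_const (convex_ball _ _) (fun x hx => Γ.ccg9_der 1 hx) (fun x hx u => by
      rw [Γ.α_one x hx, dl_apply, zero_dotProduct])
      (ccg9_y1 (by norm_num)) (ccg9_sub (by norm_num) (Γ.ccg9_pt hg))
    rw [ccg9_self] at h1
    exact h1
  · unfold sg γ
    rw [Γ.j_one, S.G.γ_one, ccg9_self]

theorem sg_lip : ∃ C, 0 ≤ C ∧ ∀ g c x, D.sz g ≤ 1 → D.sz c ≤ 1 → D.sz x ≤ 1 →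
    ‖Γ.sg g (c * x) - Γ.sg g x‖ ≤ C * D.sz c * (1 + ‖Γ.a g‖) := by
  have hC : 0 ≤ l.C := zero_le_one.trans l.C_ge
  refine ⟨n * l.C, by positivity, fun g c x _ hc hx => ?_⟩
  have h1 := Γ.ccg9_pt hx
  have h2 := Γ.maps hc (by norm_num) h1
  have h3 := (convex_ball l.y1 (4 * l.ρ)).norm_image_sub_le_of_norm_hasFDerivWithin_le
    (C := n * (l.C * (1 + ‖Γ.a g‖))) (fun z hz => (Γ.ccg9_der g hz).hasFDerivWithinAt)
    (fun z hz => (ccg9_dl _).trans (mul_le_mul_of_nonneg_left (Γ.bd g z hz) (by positivity)))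
    (ccg9_sub (by norm_num) h1) (ccg9_sub (by norm_num) h2)
  have h4 := (Γ.near hc (ccg9_sub (by norm_num) h1)).2.1
  unfold sg
  rw [Γ.γ_mul hc hx (ccg9_y1 (by norm_num))]
  refine h3.trans ((mul_le_mul_of_nonneg_left h4 (by positivity)).trans (le_of_eq ?_))
  ring

theorem sg_per {ι : (Fin S.Q.r0 → ℤ) → D.G} (hι : Γ.IsPer ι)
    (hχ : ∀ g, D.sz g ≤ 1 → S.chi (Γ.j g) = 0) : ∀ m g, D.sz g ≤ 1 → Γ.sg (ι m) g = 0 := by
  intro m g hg
  have h0 : S.G.y0 ∈ S.M.T := S.G.sub (mem_closedBall_self (by linarith [S.G.r_pos]))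
  have hd : ∀ x ∈ ball l.y1 (4 * l.ρ), HasFDerivAt
      (fun x => hprim (Γ.α (ι m)) l.y1 x - ∑ k, (m k : ℂ) * hprim (S.Q.z k) S.G.y0 x)
      (dl (Γ.α (ι m) x) - ∑ k, (m k : ℂ) • dl (S.Q.z k x)) x := fun x hx =>
    (Γ.ccg9_der _ hx).sub (HasFDerivAt.fun_sum fun k _ =>
      (hprim_deriv S.M.T_open S.M.T_conv (S.Q.per0.z_ret k).α_hol
        (S.M.closed _ _ (S.Q.per0.z_ret k)) h0
        (l.mem_r (ccg9_sub (by norm_num) hx)).2).const_mul (m k : ℂ))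
  have h1 := ccg9_const (convex_ball _ _) hd (fun x hx u => by
    rw [hι.α m x hx]
    simp [dl_apply, zm, sum_dotProduct, smul_dotProduct])
    (ccg9_y1 (by norm_num)) (ccg9_sub (by norm_num) (Γ.ccg9_pt hg))
  have hy : l.y1 ∈ ball S.G.y0 (2 * S.G.r) :=
    ball_subset_ball (by linarith [S.G.r_pos]) (l.mem_r (ccg9_y1 (by norm_num))).1
  have h2 : ∀ k, hprim (S.Q.z k) S.G.y0 (Γ.γ g l.y1) = hprim (S.Q.z k) S.G.y0 l.y1 := fun k => by
    have h3 := S.c_chi (Γ.sz_ε g).1 hy (Γ.gm g (ccg9_y1 (by norm_num))) k hy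
    rw [hχ g hg] at h3
    exact sub_eq_zero.1 h3
  simp only [ccg9_self, h2] at h1
  unfold sg
  linear_combination h1

theorem sg_u : ∃ C, 0 ≤ C ∧ ∀ g h, D.sz g ≤ 1 → D.sz h ≤ 1 →
    ‖Γ.sg g h - Γ.a g ⬝ᵥ Γ.u h‖ ≤ C * ‖Γ.u h‖ ^ 2 * (1 + ‖Γ.a g‖) := by
  obtain ⟨C, hC, hα⟩ := Γ.dα
  refine ⟨n * C, by positivity, fun g h _ hh => ?_⟩
  have hs : closedBall l.y1 ‖Γ.u h‖ ⊆ ball l.y1 (7 / 2 * l.ρ) := by
    refine closedBall_subset_ball ?_
    have h1 := Γ.ccg9_pt hh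
    rw [mem_ball, dist_eq_norm] at h1
    exact h1.trans_le (mul_le_mul_of_nonneg_right (by norm_num) l.ρ_pos.le)
  have hd : ∀ x ∈ closedBall l.y1 ‖Γ.u h‖, HasFDerivWithinAt
      (fun x => hprim (Γ.α g) l.y1 x - dl (Γ.a g) x) (dl (Γ.α g x - Γ.a g))
      (closedBall l.y1 ‖Γ.u h‖) x := fun x hx => by
    have h1 := (Γ.ccg9_der g (ccg9_sub (by norm_num) (hs hx))).sub (dl (Γ.a g)).hasFDerivAt
    have h2 : dl (Γ.α g x - Γ.a g) = dl (Γ.α g x) - dl (Γ.a g) :=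
      ContinuousLinearMap.ext fun u => by simp [dl_apply, sub_dotProduct]
    rw [h2]
    exact h1.hasFDerivWithinAt
  have h3 := (convex_closedBall l.y1 ‖Γ.u h‖).norm_image_sub_le_of_norm_hasFDerivWithin_le
    (C := n * (C * (1 + ‖Γ.a g‖) * ‖Γ.u h‖)) hd
    (fun z hz => (ccg9_dl _).trans (mul_le_mul_of_nonneg_left
      (((hα g).2 z (hs hz) _ (ccg9_y1 (by norm_num))).trans (mul_le_mul_of_nonneg_left
        (by rwa [mem_closedBall, dist_eq_norm] at hz) (by positivity))) (by positivity)))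
    (mem_closedBall_self (norm_nonneg _))
    (show Γ.γ h l.y1 ∈ _ by rw [mem_closedBall, dist_eq_norm]; exact le_rfl)
  have h4 : Γ.sg g h - Γ.a g ⬝ᵥ Γ.u h = hprim (Γ.α g) l.y1 (Γ.γ h l.y1) -
      dl (Γ.a g) (Γ.γ h l.y1) - (hprim (Γ.α g) l.y1 l.y1 - dl (Γ.a g) l.y1) := by
    rw [ccg9_self, dl_apply, dl_apply, sg, u, dotProduct_sub]
    ring
  rw [h4]
  refine h3.trans (le_of_eq ?_)
  show _ * ‖Γ.u h‖ = _
  ring

end Gam

end Pool.Agent.CL
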