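import Pool.Agent.P.MP_63735c_ag.CLDg
import Pool.Agent.P.MP_63735c_ag.CLPar

/-! The flux function of a period. -/

open scoped ContDiff Matrix ENNReal
open Set Metric MeasureTheory Filter Topology

namespace Pool.Agent.CL

open Pool.Agent.SPF

variable {n : ℕ} {X : Type} {T V O : Set (E n)} {Ψ : P n → X} {g : Ret n} {A : Form1 (P n)}
  {t : Form2 (P n)} {o : P n} {z : E n → E n}

/-- The flux function of the period `z`. -/
noncomputable def Pi (A : Form1 (P n)) (z : E n → E n) (o p : P n) : ℝ :=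
  segInt A p ((Ret.per z).act p) - Dg A (Ret.per z) o p

theorem clpi_act (z : E n → E n) (p : P n) : (Ret.per z).act p = (p.1, p.2 - z p.1) := rfl

theorem clpi_pt (z : E n → E n) (p : P n) (r : ℝ) :
    p + r • ((Ret.per z).act p - p) = (p.1, p.2 - r • z p.1) := by
  rw [clpi_act]
  ext1
  · simp
  · simp [sub_eq_add_neg]

theorem clpi_comm {p : P n} (hp : g.N p.1 (z p.1) = z (g.γ p.1)) (r : ℝ) :
    g.act p + r • ((Ret.per z).act (g.act p) - g.act p) =
      g.act (p + r • ((Ret.per z).act p - p)) := by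
  rw [clpi_pt, clpi_pt]
  simp only [Ret.act]
  rw [← hp, ← ContinuousLinearMap.map_smul_of_tower, ← map_sub, sub_right_comm]

theorem clpi_vert (hg : IsRet T Ψ O g) {p : P n} (hp : p.1 ∈ O) (a : E n) :
    fderiv ℝ g.act p (0, a) = (0, g.N p.1 a) := by
  rw [hg.smooth.2.2.2 p hp]
  simp

theorem clpi_prim {W W' : Set (P n)} (hA : IsPrim W A t) (h : W' ⊆ W) : IsPrim W' A t :=
  ⟨hA.1.mono h, fun x hx => hA.2 x (h hx)⟩

theorem clpi_curve {W W' : Set (P n)} {c : ℝ → P n} (hc : Curve W c) (h : W ⊆ W') : Curve W' c :=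
  fun s hs => ⟨(hc s hs).1, h (hc s hs).2⟩

theorem clpi_seg (hV : Convex ℝ V) (z : E n → E n) {p : P n} (hp : p.1 ∈ V) :
    Curve (V ×ˢ univ) (seg p ((Ret.per z).act p)) :=
  curve_seg (hV.prod convex_univ) ⟨hp, trivial⟩ ⟨hp, trivial⟩

/-- The homotopy from a curve to its translate. -/
noncomputable def clpiH (z : E n → E n) (c : ℝ → P n) (q : ℝ × ℝ) : P n :=
  c q.1 + q.2 • ((Ret.per z).act (c q.1) - c q.1)

theorem clpi_H (hz : IsRet T Ψ V (Ret.per z)) {c : ℝ → P n} (hc : Curve (V ×ˢ univ) c)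
    {q : ℝ × ℝ} (hq : q.1 ∈ Icc (0 : ℝ) 1) : ContDiffAt ℝ 2 (clpiH z c) q := by
  have h1 : ContDiffAt ℝ 2 (fun q : ℝ × ℝ => c q.1) q := (hc q.1 hq).1.comp q contDiffAt_fst
  have h2 : ContDiffAt ℝ 2 (Ret.per z).act (c q.1) :=
    (hz.smooth.1.contDiffAt ((hz.isOpen.prod isOpen_univ).mem_nhds (hc q.1 hq).2)).of_le
      (by norm_cast)
  have h3 : ContDiffAt ℝ 2 (fun q : ℝ × ℝ => (Ret.per z).act (c q.1)) q :=
    ContDiffAt.comp q (g := (Ret.per z).act) h2 h1
  exact h1.add (contDiffAt_snd.smul (h3.sub h1))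

theorem clpi_H1 (z : E n → E n) (c : ℝ → P n) (q : ℝ × ℝ) : (clpiH z c q).1 = (c q.1).1 := by
  rw [clpiH, clpi_pt]

theorem clpi_sq (hT : IsOpen T) (hA : IsPrim (T ×ˢ univ) A t) (hV : Convex ℝ V)
    (hz : IsRet T Ψ V (Ret.per z)) (hi : Inv t V (Ret.per z)) (ho : o.1 ∈ V) {c : ℝ → P n}
    (hc : Curve (V ×ˢ univ) c) :
    Pi A z o (c 1) - Pi A z o (c 0) = ∫ s in (0 : ℝ)..1, ∫ r in (0 : ℝ)..1,
      t (clpiH z c (s, r)) (fderiv ℝ (clpiH z c) (s, r) (1, 0))
        (fderiv ℝ (clpiH z c) (s, r) (0, 1)) := by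
  have h := stokes_sq (hT.prod isOpen_univ) hA (H := clpiH z c) fun q hq =>
    ⟨clpi_H hz hc hq.1, by rw [clpi_H1]; exact hz.sub (hc q.1 hq.1).2.1, trivial⟩
  have e1 : (fun s => clpiH z c (s, 0)) = c := funext fun s => by simp [clpiH]
  have e2 : (fun s => clpiH z c (s, 1)) = fun s => (Ret.per z).act (c s) :=
    funext fun s => by simp [clpiH]
  have e3 : ∀ s, (fun r => clpiH z c (s, r)) = seg (c s) ((Ret.per z).act (c s)) := fun s => rfl
  rw [e1, e2, e3, e3, lineInt_seg, lineInt_seg] at h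
  have h2 := Dg_line hT hA hz hV hi ho hc
  rw [← h]
  unfold Pi
  linarith

theorem clpi_smooth {W U : Set (P n)} (hW : IsOpen W) (hU : IsOpen U) {B : Form1 (P n)}
    (hB : ContDiffOn ℝ ∞ B W) {a b : P n → P n} (ha : ContDiffOn ℝ ∞ a U)
    (hb : ContDiffOn ℝ ∞ b U) (hm : ∀ x ∈ U, ∀ s ∈ Icc (0 : ℝ) 1, a x + s • (b x - a x) ∈ W) :
    ContDiffOn ℝ ∞ (fun x => segInt B (a x) (b x)) U := by
  refine contDiffOn_param hU (f := fun x s => B (a x + s • (b x - a x)) (b x - a x)) ?_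
  intro x hx s hs
  have h1 : ContDiffAt ℝ ∞ (fun q : P n × ℝ => a q.1) (x, s) :=
    (ha.contDiffAt (hU.mem_nhds hx)).comp (x, s) contDiffAt_fst
  have h2 : ContDiffAt ℝ ∞ (fun q : P n × ℝ => b q.1) (x, s) :=
    (hb.contDiffAt (hU.mem_nhds hx)).comp (x, s) contDiffAt_fst
  have h3 : ContDiffAt ℝ ∞ (fun q : P n × ℝ => a q.1 + q.2 • (b q.1 - a q.1)) (x, s) :=
    h1.add (contDiffAt_snd.smul (h2.sub h1))
  have h4 : ContDiffAt ℝ ∞ (fun q : P n × ℝ => B (a q.1 + q.2 • (b q.1 - a q.1))) (x, s) :=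
    ContDiffAt.comp (x, s) (g := B) (hB.contDiffAt (hW.mem_nhds (hm x hx s hs))) h3
  exact h4.clm_apply (h2.sub h1)

theorem clpi_leaf (t : Form2 (P n)) (y ξ u v : E n) :
    leaf t y ξ u v = t (y, ξ) (0, u) (0, v) := rfl

theorem leaf_per (hz : IsRet T Ψ V (Ret.per z)) (hi : Inv t V (Ret.per z)) {y : E n} (hy : y ∈ V)
    (ξ : E n) : leaf t y (ξ + z y) = leaf t y ξ := by
  ext u v
  have h := hi (y, ξ + z y) hy (0, u) (0, v)
  rw [clpi_vert hz hy, clpi_vert hz hy, clpi_act] at h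
  rw [clpi_leaf, clpi_leaf, ← h]
  simp [Ret.per]

theorem Pi_shift (hT : IsOpen T) (hA : IsPrim (T ×ˢ univ) A t) (hV : Convex ℝ V)
    (hz : IsRet T Ψ V (Ret.per z)) (hi : Inv t V (Ret.per z)) (ho : o.1 ∈ V)
    (hg : IsRet T Ψ O g) (hO : Convex ℝ O) (hs : O ⊆ V) (hm : MapsTo g.γ O V) (hgi : Inv t O g)
    (hp : ∀ y ∈ O, g.N y (z y) = z (g.γ y)) :
    ∃ c, ∀ p : P n, p.1 ∈ O → Pi A z o (g.act p) - Pi A z o p = c := by
  have key : ∀ p p' : P n, p.1 ∈ O → p'.1 ∈ O →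
      Pi A z o (g.act p') - Pi A z o p' = Pi A z o (g.act p) - Pi A z o p := by
    intro p p' h1 h2
    have hOo : IsOpen (O ×ˢ (univ : Set (E n))) := hg.isOpen.prod isOpen_univ
    have hc : Curve (O ×ˢ univ) (seg p p') :=
      curve_seg (hO.prod convex_univ) (mk_mem_prod h1 trivial) (mk_mem_prod h2 trivial)
    have hcV : Curve (V ×ˢ univ) (seg p p') := clpi_curve hc (prod_mono hs subset_rfl)
    have hc' : Curve (V ×ˢ univ) (fun s => g.act (seg p p' s)) :=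
      curve_comp hOo hg.smooth.1 (fun x hx => mk_mem_prod (hm hx.1) (mem_univ _)) hc
    have a1 := clpi_sq hT hA hV hz hi ho hcV
    have a2 := clpi_sq hT hA hV hz hi ho hc'
    have s0 : seg p p' 0 = p := by simp [seg]
    have s1 : seg p p' 1 = p' := by simp [seg]
    simp only [s0, s1] at a1 a2
    have e : Pi A z o (g.act p') - Pi A z o (g.act p) = Pi A z o p' - Pi A z o p := by
      rw [a1, a2]
      refine intervalIntegral.integral_congr fun s hs' => ?_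
      refine intervalIntegral.integral_congr fun r _ => ?_
      rw [uIcc_of_le zero_le_one] at hs'
      have hH := clpi_H hz hcV (q := (s, r)) hs'
      have hmem : (clpiH z (seg p p') (s, r)).1 ∈ O := by
        rw [clpi_H1]
        exact (hc s hs').2.1
      have hn : ∀ᶠ q : ℝ × ℝ in 𝓝 (s, r), seg p p' q.1 ∈ O ×ˢ (univ : Set (E n)) :=
        ((hc s hs').1.continuousAt.comp (f := Prod.fst) (x := (s, r))
          continuousAt_fst).eventually (hOo.mem_nhds (hc s hs').2)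
      have ev : clpiH z (fun s => g.act (seg p p' s)) =ᶠ[𝓝 (s, r)]
          fun q => g.act (clpiH z (seg p p') q) := by
        filter_upwards [hn] with q hq
        exact clpi_comm (hp _ hq.1) q.2
      have dg : DifferentiableAt ℝ g.act (clpiH z (seg p p') (s, r)) :=
        (hg.smooth.1.contDiffAt (hOo.mem_nhds ⟨hmem, trivial⟩)).differentiableAt (by simp)
      have dH := hH.differentiableAt (by norm_num)
      have dd := (dg.hasFDerivAt.comp (s, r) dH.hasFDerivAt).congr_of_eventuallyEq ev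
      rw [dd.fderiv, ev.eq_of_nhds]
      exact hgi _ hmem _ _
    linarith
  rcases O.eq_empty_or_nonempty with h | ⟨y, hy⟩
  · exact ⟨0, fun p h1 => by simp [h] at h1⟩
  · exact ⟨_, fun p h1 => key (y, 0) p hy h1⟩

theorem Pi_int (hT : IsOpen T) (hA : IsPrim (T ×ˢ univ) A t) (hI : IsInt T Ψ t) (hV : Convex ℝ V)
    (hz : IsRet T Ψ V (Ret.per z)) (ho : o.1 ∈ V) (hg : IsRet T Ψ O g) {p : P n} (h1 : p.1 ∈ O)
    (h2 : p.1 ∈ V) (h3 : g.γ p.1 ∈ V) (hp : g.N p.1 (z p.1) = z (g.γ p.1)) :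
    ∃ k : ℤ, Pi A z o (g.act p) - Pi A z o p = k := by
  obtain ⟨u, hu, hD⟩ := Dg_int hT hA hI
  have hsub : V ×ˢ (univ : Set (E n)) ⊆ T ×ˢ univ := prod_mono hz.sub subset_rfl
  obtain ⟨k1, e1⟩ := hu _ _ (clpi_curve (clpi_seg hV z h2) hsub)
    (clpi_curve (clpi_seg hV z (p := g.act p) h3) hsub) fun s _ => by
      unfold seg
      rw [clpi_comm hp, clpi_pt]
      exact (hg.eq _ h1 _).symm
  obtain ⟨k2, e2⟩ := hD V _ o hz hV ho p h2
  obtain ⟨k3, e3⟩ := hD V _ o hz hV ho (g.act p) h3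
  rw [lineInt_seg, lineInt_seg] at e1
  simp only [seg, one_smul, zero_smul, add_zero, add_sub_cancel] at e1
  refine ⟨k1 + k2 - k3, ?_⟩
  unfold Pi
  push_cast
  linarith

theorem Pi_leaf (hT : IsOpen T) (hA : IsPrim (T ×ˢ univ) A t) (hV : Convex ℝ V)
    (hz : IsRet T Ψ V (Ret.per z)) (hi : Inv t V (Ret.per z)) (ho : o.1 ∈ V) {y : E n}
    (hy : y ∈ V) (ξ b : E n) :
    Pi A z o (y, ξ + b) - Pi A z o (y, ξ) = par (leaf t y) ξ (z y) b := by
  have hW : Convex ℝ (V ×ˢ (univ : Set (E n))) := hV.prod convex_univ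
  have h := stokes_par (hz.isOpen.prod isOpen_univ) hW
    (clpi_prim hA (prod_mono hz.sub subset_rfl)) (p := (y, ξ)) (a := (0, -z y)) (b := (0, b))
    ⟨hy, trivial⟩ ⟨by simpa using hy, trivial⟩ ⟨by simpa using hy, trivial⟩
    ⟨by simpa using hy, trivial⟩
  have p1 : ((y, ξ) : P n) + (0, -z y) = (Ret.per z).act (y, ξ) := by
    simp [clpi_act, sub_eq_add_neg]
  have p2 : ((y, ξ) : P n) + (0, b) = (y, ξ + b) := by simp
  have p3 : ((y, ξ) : P n) + (0, -z y) + (0, b) = (Ret.per z).act (y, ξ + b) := by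
    simp [clpi_act, sub_eq_add_neg, add_right_comm]
  rw [p3, p1, p2] at h
  have hc : Curve (V ×ˢ univ) (seg ((y, ξ) : P n) (y, ξ + b)) :=
    curve_seg hW ⟨hy, trivial⟩ ⟨hy, trivial⟩
  have h2 := Dg_line hT hA hz hV hi ho hc
  have e : (fun s => (Ret.per z).act (seg ((y, ξ) : P n) (y, ξ + b) s)) =
      seg ((Ret.per z).act (y, ξ)) ((Ret.per z).act (y, ξ + b)) := by
    funext s
    simp only [clpi_act, seg]
    ext1
    · simp
    · simp [sub_add_eq_add_sub]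
  rw [e, lineInt_seg, lineInt_seg] at h2
  simp only [seg, one_smul, zero_smul, add_zero, add_sub_cancel] at h2
  have h3 : par t ((y, ξ) : P n) (0, -z y) (0, b) = -par (leaf t y) ξ (z y) b := by
    unfold par
    have h4 := intervalIntegral.integral_comp_sub_left (a := 0) (b := 1)
      (fun s : ℝ => ∫ r in (0 : ℝ)..1, leaf t y (ξ + s • z y + r • b) (z y) b) 1
    rw [sub_self, sub_zero] at h4
    rw [← h4, ← intervalIntegral.integral_neg]
    refine intervalIntegral.integral_congr fun s _ => ?_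
    rw [← intervalIntegral.integral_neg]
    refine intervalIntegral.integral_congr fun r _ => ?_
    have e1 : ξ + (1 - s) • z y + r • b = ξ + s • (-z y) + r • b + z y := by
      rw [sub_smul, one_smul, smul_neg]
      abel
    have e2 : ((y, ξ) : P n) + s • (0, -z y) + r • (0, b) = (y, ξ + s • (-z y) + r • b) := by
      simp
    have e3 : ((0, -z y) : P n) = -(0, z y) := by simp
    rw [e1, leaf_per hz hi hy, clpi_leaf, e2, e3, map_neg]
    rfl
  unfold Pi
  linarith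

theorem Pi_cont (hT : IsOpen T) (hA : IsPrim (T ×ˢ univ) A t) (hV : Convex ℝ V)
    (hz : IsRet T Ψ V (Ret.per z)) (ho : o.1 ∈ V) : ContinuousOn (Pi A z o) (V ×ˢ univ) := by
  have hVo : IsOpen (V ×ˢ (univ : Set (E n))) := hz.isOpen.prod isOpen_univ
  have hsub : V ×ˢ (univ : Set (E n)) ⊆ T ×ˢ univ := prod_mono hz.sub subset_rfl
  have h1 := clpi_smooth (hT.prod isOpen_univ) hVo hA.1 contDiffOn_id hz.smooth.1
    fun x hx s hs => hsub (clpi_seg hV z hx.1 s hs).2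
  have h2 : ContDiffOn ℝ ∞ (fderiv ℝ (Ret.per z).act) (V ×ˢ univ) :=
    hz.smooth.1.fderiv_of_isOpen hVo (by simp)
  have h3 : ContDiffOn ℝ ∞ (fun x => pull1 (Ret.per z).act A x - A x) (V ×ˢ univ) :=
    ((hA.1.comp hz.smooth.1 hz.smooth.2.1).clm_comp h2).sub (hA.1.mono hsub)
  have h4 := clpi_smooth hVo hVo h3 (contDiffOn_const (c := o)) contDiffOn_id
    fun x hx s hs =>
      (curve_seg (hV.prod convex_univ) (p := o) (mk_mem_prod ho (mem_univ _)) hx s hs).2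
  exact h1.continuousOn.sub h4.continuousOn

theorem Pi_liou (hV : Convex ℝ V) (hz : IsRet T Ψ V (Ret.per z)) (ho : o.1 ∈ V) (c : ℂ)
    {p : P n} (hp : p.1 ∈ V) : Pi (liou c) z o p = -(c * hprim z o.1 p.1).re := by
  have h := Dg_liou hz hV ho c hp
  have h0 : segInt (liou c) p ((Ret.per z).act p) = 0 := by
    simp [segInt, liou, clpi_act]
  unfold Pi
  rw [h, h0, zero_sub]
  rfl

theorem Pi_comb (hT : IsOpen T) {B : Form1 (P n)} (hA : ContinuousOn A (T ×ˢ univ))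
    (hB : ContinuousOn B (T ×ˢ univ)) (hV : Convex ℝ V) (hz : IsRet T Ψ V (Ret.per z))
    (ho : o.1 ∈ V) (a b : ℝ) {p : P n} (hp : p.1 ∈ V) :
    Pi (fun x => a • A x + b • B x) z o p = a * Pi A z o p + b * Pi B z o p := by
  have h := Dg_comb hT hA hB hz hV ho a b hp
  have h2 := lineInt_add (hT.prod isOpen_univ) hA hB a b
    (clpi_curve (clpi_seg hV z hp) (prod_mono hz.sub subset_rfl))
  rw [lineInt_seg, lineInt_seg, lineInt_seg] at h2
  unfold Pi
  rw [h, h2]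
  ring

theorem Model.leaf_bd [TopologicalSpace X] [MeasurableSpace X] (M : Model n X) :
    ∀ y ∈ M.T, ∀ x u v, |leaf M.om y x u v| ≤ 2 * M.C0 * ‖u‖ * ‖v‖ := by
  have hI : ∀ u : E n, ((0, Complex.I • u) : P n) = Complex.I • (0, u) := fun u => by simp
  have key : ∀ {t : Form2 (P n)}, IsForm M.T M.Ψ t → ∀ {K : ℝ}, ∀ y ∈ M.T, ∀ x,
      (∀ u, |leaf t y x u (Complex.I • u)| ≤ K * ‖u‖ ^ 2) →
      ∀ u v, |leaf t y x u v| ≤ 2 * K * ‖u‖ * ‖v‖ := by
    intro t ht K y hy x h u v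
    refine jinv_bd (leaf t y x) (fun u v => ?_) (fun u v => ?_) (fun u => ‖u‖)
      norm_nonneg norm_add_le (fun c u => norm_smul c u) (fun u hu => norm_eq_zero.1 hu) h u v
    · exact ht.closed.2.1 (y, x) ⟨hy, trivial⟩ _ _
    · rw [clpi_leaf, clpi_leaf, hI, hI]
      exact ht.jinv (y, x) ⟨hy, trivial⟩ _ _
  have pos : ∀ y ∈ M.T, ∀ x u, 0 ≤ leaf M.om y x u (Complex.I • u) := by
    intro y hy x u
    by_cases hu : u = 0
    · simp [hu]
    · rw [clpi_leaf, hI]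
      exact (M.om_pos (y, x) hy (0, u) fun h => hu (congrArg Prod.snd h)).le
  refine fun y hy x => key M.om_form y hy x fun u => ?_
  rw [abs_of_nonneg (pos y hy x u)]
  exact M.om_vert y hy x u

end Pool.Agent.CL
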