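import Pool.Agent.P.MP_63735c_ag.CCH1
import Pool.Agent.P.MP_63735c_ag.CCG5

/-! Growth of the cocycles. -/

open scoped ContDiff Matrix
open Set Metric MeasureTheory Filter Topology

namespace Pool.Agent.CL

open Pool.Agent.SPF LGrp

variable {n : ℕ} {X : Type} [TopologicalSpace X] [T2Space X] [MeasurableSpace X]
  {S : Setup n X}

theorem cch2_comb {B : Set (E n)} (hB : Convex ℝ B) {p q : P n} {H s : ℝ} (hp : p.1 ∈ B)
    (hq : q.1 ∈ B) (hp2 : ‖p.2‖ ≤ H) (hq2 : ‖q.2‖ ≤ H) (hs : s ∈ Icc (0 : ℝ) 1) :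
    (p + s • (q - p)).1 ∈ B ∧ ‖(p + s • (q - p)).2‖ ≤ H :=
  ⟨hB.add_smul_sub_mem hp hq hs, mem_closedBall_zero_iff.1
    ((convex_closedBall (0 : E n) H).add_smul_sub_mem (mem_closedBall_zero_iff.2 hp2)
      (mem_closedBall_zero_iff.2 hq2) hs)⟩

theorem cch2_qn {R M s : ℝ} (hR : 1 ≤ R) {u v : P n} (hu : qn R u ≤ M) (hv : qn R v ≤ M)
    (hs : s ∈ Icc (0 : ℝ) 1) : qn R (u + s • (v - u)) ≤ M := by
  have e : u + s • (v - u) = (1 - s) • u + s • v := by module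
  have h0 : 0 ≤ 1 - s := by linarith [hs.2]
  have h1 := (qn_basic R hR ((1 - s) • u) (s • v) 0).2.1
  rw [(qn_basic R hR u u (1 - s)).2.2.2.1, (qn_basic R hR v v s).2.2.2.1, abs_of_nonneg h0,
    abs_of_nonneg hs.1] at h1
  have h2 := mul_le_mul_of_nonneg_left hu h0
  have h3 := mul_le_mul_of_nonneg_left hv hs.1
  rw [e]
  linarith

namespace Gam

variable {l : Loc S} {D : LGrp} (Γ : Gam l D)

theorem cch2_step {C : ℝ} (hC : 1 ≤ C) (hb : ∀ (g : D.G) (p : P n) (R : ℝ), D.sz g ≤ 1 →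
    p.1 ∈ ball l.y1 (3 * l.ρ) → 1 ≤ R → ‖p.2‖ ≤ R → ‖Γ.a g‖ ≤ R →
      ‖((Γ.rt g).act p).2‖ ≤ C * R ∧
      qn R ((Γ.rt g).act p - p) ≤ C * (1 + ‖Γ.a g‖ + R * D.sz g))
    {g : D.G} {q : P n} {R : ℝ} (hg : D.sz g ≤ 1) (hq : q.1 ∈ ball l.y1 (2 * l.ρ)) (hR : 1 ≤ R)
    (hq2 : ‖q.2‖ ≤ C * R) (ha : ‖Γ.a g‖ ≤ R) :
    (∀ s ∈ Icc (0 : ℝ) 1, (q + s • ((Γ.rt g).act q - q)).1 ∈ ball l.y1 (3 * l.ρ) ∧
      ‖(q + s • ((Γ.rt g).act q - q)).2‖ ≤ C * (C * R)) ∧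
    qn (C * (C * R)) ((Γ.rt g).act q - q) ≤ C ^ 3 * (1 + ‖Γ.a g‖ + R * D.sz g) := by
  have hρ := l.ρ_pos
  have h1 : R ≤ C * R := le_mul_of_one_le_left (by linarith) hC
  have h2 : C * R ≤ C * (C * R) := le_mul_of_one_le_left (by linarith) hC
  have hq3 : q.1 ∈ ball l.y1 (3 * l.ρ) := ball_subset_ball (by linarith) hq
  obtain ⟨h3, h4⟩ := hb g q (C * R) hg hq3 (hR.trans h1) hq2 (ha.trans h1)
  have h5 : ((Γ.rt g).act q).1 ∈ ball l.y1 (3 * l.ρ) :=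
    ball_subset_ball (by linarith) (Γ.maps hg (by norm_num) hq)
  refine ⟨fun s hs => cch2_comb (convex_ball _ _) hq3 h5 (hq2.trans h2) h3 hs, ?_⟩
  have h6 := (qn_basic (C * R) (hR.trans h1) ((Γ.rt g).act q - q) 0 0).2.2.2.2 C hC
  have h7 : 1 + ‖Γ.a g‖ ≤ C * (1 + ‖Γ.a g‖) := le_mul_of_one_le_left (by positivity) hC
  have h8 : 1 + ‖Γ.a g‖ + C * R * D.sz g ≤ C * (1 + ‖Γ.a g‖ + R * D.sz g) := by linarith
  have h9 := mul_le_mul_of_nonneg_left (h4.trans (mul_le_mul_of_nonneg_left h8 (by linarith)))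
    (by linarith : 0 ≤ C)
  linarith

theorem kap_bd {t : Form2 (P n)} (hf : IsForm S.M.T S.M.Ψ t) (ht : Tame l t) :
    CBd D Γ.a (Γ.kap (rad t l.o)) := by
  obtain ⟨C, hC, hb⟩ := Γ.act_bd
  obtain ⟨K', hK', hA⟩ := l.rad_bd hf.closed ht
  obtain ⟨K, hK, ht⟩ := ht
  have hρ := l.ρ_pos
  have hC0 : 0 ≤ C := by linarith
  have hstep := @cch2_step n X _ _ _ S l D Γ C hC
    fun g p R h1 h2 h3 h4 h5 => ⟨(hb g p R h1 h2 h3 h4 h5).1, (hb g p R h1 h2 h3 h4 h5).2.1⟩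
  have ho : ∀ s : ℝ, 0 < s → l.o.1 ∈ ball l.y1 (s * l.ρ) := fun s hs =>
    mem_ball_self (mul_pos hs hρ)
  have hi : ∀ g, Inv t (ball l.y1 (4 * l.ρ)) (Γ.rt g) := fun g => hf.inv _ _ (Γ.ret g)
  have hW : IsOpen (S.M.T ×ˢ (univ : Set (E n))) := S.M.T_open.prod isOpen_univ
  have hWc : Convex ℝ (S.M.T ×ˢ (univ : Set (E n))) := S.M.T_conv.prod convex_univ
  have hT : ball l.y1 (4 * l.ρ) ⊆ S.M.T := (Γ.ret 1).sub
  have hoW : l.o ∈ S.M.T ×ˢ (univ : Set (E n)) := ⟨hT (ho 4 (by norm_num)), mem_univ _⟩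
  have hprim := rad_prim hW hWc hf.closed hoW
  have h24 : ball l.y1 (2 * l.ρ) ⊆ ball l.y1 (4 * l.ρ) := ball_subset_ball (by linarith)
  have h34 : ball l.y1 (3 * l.ρ) ⊆ ball l.y1 (4 * l.ρ) := ball_subset_ball (by linarith)
  have hpt : ∀ x R, D.sz x ≤ 1 → 1 ≤ R → ‖Γ.a x‖ ≤ R → (Γ.pt x).1 ∈ ball l.y1 (2 * l.ρ) ∧
      ‖(Γ.pt x).2‖ ≤ C * R ∧ qn R (Γ.pt x - l.o) ≤ C * (3 * R) := by
    intro x R hx hR ha
    obtain ⟨h1, h2, -⟩ := hb x l.o R hx (ho 3 (by norm_num)) hR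
      (by rw [Loc.o, norm_zero]; linarith) ha
    have h3 : R * D.sz x ≤ R := mul_le_of_le_one_right (by linarith) hx
    exact ⟨ball_subset_ball (by linarith) (Γ.maps hx (s := 1) (by norm_num) (ho 1 one_pos)), h1,
      h2.trans (mul_le_mul_of_nonneg_left (by linarith) hC0)⟩
  constructor
  · refine ⟨K * C ^ 3 * (3 * C ^ 4) + K' * C ^ 5 + K' * C ^ 5, by positivity,
      fun c x R hc hx hR hac hax => ?_⟩
    obtain ⟨hp1, hp2, hp3⟩ := hpt x R hx hR hax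
    have h1 : R ≤ C * R := le_mul_of_one_le_left (by linarith) hC
    have h2 : C * R ≤ C * (C * R) := le_mul_of_one_le_left (by linarith) hC
    have hR1 : 1 ≤ C * R := hR.trans h1
    have hR2 : 1 ≤ C * (C * R) := hR1.trans h2
    have hE : 0 ≤ 1 + ‖Γ.a c‖ + R * D.sz c := by
      have := mul_nonneg (by linarith : 0 ≤ R) (D.sz_nonneg c)
      positivity
    have hq : ∀ r ∈ Icc (0 : ℝ) 1, (seg l.o (Γ.pt x) r).1 ∈ ball l.y1 (2 * l.ρ) ∧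
        ‖(seg l.o (Γ.pt x) r).2‖ ≤ C * R := fun r hr =>
      cch2_comb (convex_ball _ _) (ho 2 two_pos) hp1 (by rw [Loc.o, norm_zero]; linarith) hp2 hr
    have hsm := (Γ.ret c).smooth
    have hO := cldg_open (Γ.ret c)
    have hc1 : Curve (ball l.y1 (4 * l.ρ) ×ˢ (univ : Set (E n))) (seg l.o (Γ.pt x)) :=
      curve_seg ((convex_ball _ _).prod convex_univ) ⟨ho 4 (by norm_num), mem_univ _⟩
        ⟨h24 hp1, mem_univ _⟩
    have hpW : Γ.pt x ∈ S.M.T ×ˢ (univ : Set (E n)) := ⟨hT (h24 hp1), mem_univ _⟩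
    have hend : ∀ r ∈ Icc (0 : ℝ) 1, ∀ s ∈ Icc (0 : ℝ) 1, |rad t l.o (seg l.o (Γ.pt x) r +
        s • ((Γ.rt c).act (seg l.o (Γ.pt x) r) - seg l.o (Γ.pt x) r))
        ((Γ.rt c).act (seg l.o (Γ.pt x) r) - seg l.o (Γ.pt x) r)| ≤
        K' * C ^ 5 * R * (1 + ‖Γ.a c‖ + R * D.sz c) := by
      intro r hr s hs
      obtain ⟨h3, h4⟩ := hstep hc (hq r hr).1 hR (hq r hr).2 hac
      refine (hA _ _ (h34 (h3 s hs).1) hR2 (h3 s hs).2 _).trans
        ((mul_le_mul_of_nonneg_left h4 (by positivity)).trans (le_of_eq (by ring)))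
    have key := pert hW hWc hprim (curve_seg hWc hoW hpW) (curve_comp hO hsm.1 hsm.2.1 hc1)
      (K := K * C ^ 3 * (3 * C ^ 4) * R * (1 + ‖Γ.a c‖ + R * D.sz c)) (fun s hs r hr => ?_)
      (hend 0 (left_mem_Icc.2 zero_le_one)) (hend 1 (right_mem_Icc.2 zero_le_one))
    · rw [lineInt_seg, rad_seg hWc hf.closed hoW hpW, sub_zero] at key
      rw [kap, Γ.kap_line hf.closed hi c (h24 hp1)]
      exact key.trans (le_of_eq (by ring))
    obtain ⟨h3, h4⟩ := hstep hc (hq r hr).1 hR (hq r hr).2 hac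
    have hd : DifferentiableAt ℝ (Γ.rt c).act (seg l.o (Γ.pt x) r) :=
      (hsm.1.contDiffAt (hO.mem_nhds ⟨h24 (hq r hr).1, mem_univ _⟩)).differentiableAt (by simp)
    have hd1 : deriv (fun s => (Γ.rt c).act (seg l.o (Γ.pt x) s)) r =
        fderiv ℝ (Γ.rt c).act (seg l.o (Γ.pt x) r) (Γ.pt x - l.o) :=
      (hd.hasFDerivAt.comp_hasDerivAt r (clstokes_seg l.o (Γ.pt x) r)).deriv
    have h5 := (hb c _ (C * R) hc (ball_subset_ball (by linarith) (hq r hr).1) hR1 (hq r hr).2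
      (hac.trans h1)).2.2.2 (Γ.pt x - l.o)
    have h6 := ((qn_basic R hR (Γ.pt x - l.o) 0 0).2.2.2.2 C hC).trans
      (mul_le_mul_of_nonneg_left hp3 hC0)
    have h7 : C * (C * (3 * R)) ≤ C * (C * (C * (3 * R))) :=
      le_mul_of_one_le_left (by positivity) hC
    have h8 := cch2_qn hR1 (h6.trans h7) (h5.trans (mul_le_mul_of_nonneg_left h6 hC0)) hs
    have h9 := ((qn_basic (C * R) hR1 _ 0 0).2.2.2.2 C hC).trans (mul_le_mul_of_nonneg_left h8 hC0)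
    change |t _ _ (deriv (seg l.o (Γ.pt x)) r + s • (deriv (fun s => (Γ.rt c).act
      (seg l.o (Γ.pt x) s)) r - deriv (seg l.o (Γ.pt x)) r))| ≤ _
    rw [hd1, (clstokes_seg l.o (Γ.pt x) r).deriv]
    refine (ht _ _ (h34 (h3 s hs).1) hR2 (h3 s hs).2 _ _).trans
      ((mul_le_mul (mul_le_mul_of_nonneg_left h4 hK) h9 (qn_basic _ hR2 _ 0 0).1
        (by positivity)).trans (le_of_eq (by ring)))
  · refine ⟨K' * C ^ 8 + K' * C ^ 5, by positivity, fun g c x R hg hc hx hR hag hac hax => ?_⟩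
    obtain ⟨hp1, hp2, -⟩ := hpt x R hx hR hax
    have h1 : R ≤ C * R := le_mul_of_one_le_left (by linarith) hC
    have h2 : C * R ≤ C * (C * R) := le_mul_of_one_le_left (by linarith) hC
    have hR2 : 1 ≤ C * (C * R) := hR.trans (h1.trans h2)
    have hR3 : 1 ≤ C * (C * (C * R)) := hR2.trans (le_mul_of_one_le_left (by linarith) hC)
    obtain ⟨h3, h4⟩ := hstep hc hp1 hR hp2 hac
    have e : Γ.pt (c * x) = seg (Γ.pt x) ((Γ.rt c).act (Γ.pt x)) 1 := by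
      rw [seg, one_smul, add_sub_cancel]
      exact Γ.act_mul hc hx (ho 3 (by norm_num))
    have e0 : Γ.pt x = seg (Γ.pt x) ((Γ.rt c).act (Γ.pt x)) 0 := by
      rw [seg, zero_smul, add_zero]
    have key := norm_image_sub_le_of_norm_deriv_le_segment_01'
      (f := fun s => Dg (rad t l.o) (Γ.rt g) l.o (seg (Γ.pt x) ((Γ.rt c).act (Γ.pt x)) s))
      (C := (K' * C ^ 8 + K' * C ^ 5) * R * (1 + ‖Γ.a c‖ + R * D.sz c))
      (fun s hs => ((Dg_deriv S.M.T_open hprim (Γ.ret g) (convex_ball _ _) (hi g)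
        (ho 4 (by norm_num)) (h34 (h3 s hs).1)).comp_hasDerivAt s
          (clstokes_seg (Γ.pt x) ((Γ.rt c).act (Γ.pt x)) s)).hasDerivWithinAt) (fun s hs' => ?_)
    · rw [kap, kap, e]
      nth_rewrite 3 [e0]
      exact key
    have hs : s ∈ Icc (0 : ℝ) 1 := Ico_subset_Icc_self hs'
    obtain ⟨h5, -, -, h6⟩ := hb g _ _ hg (h3 s hs).1 hR2 (h3 s hs).2 (hag.trans (h1.trans h2))
    have h7 := hA _ _ (h34 (h3 s hs).1) hR2 (h3 s hs).2 ((Γ.rt c).act (Γ.pt x) - Γ.pt x)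
    have hz : ((Γ.rt g).act (Γ.pt x + s • ((Γ.rt c).act (Γ.pt x) - Γ.pt x))).1 ∈
        ball l.y1 (4 * l.ρ) := ball_subset_ball (by linarith) (Γ.maps hg le_rfl (h3 s hs).1)
    have h8 := hA _ _ hz hR3 h5
      (fderiv ℝ (Γ.rt g).act (Γ.pt x + s • ((Γ.rt c).act (Γ.pt x) - Γ.pt x))
        ((Γ.rt c).act (Γ.pt x) - Γ.pt x))
    have h9 := ((qn_basic _ hR2 _ 0 0).2.2.2.2 C hC).trans (mul_le_mul_of_nonneg_left
      ((h6 ((Γ.rt c).act (Γ.pt x) - Γ.pt x)).trans (mul_le_mul_of_nonneg_left h4 hC0)) hC0)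
    have h10 := h8.trans (mul_le_mul_of_nonneg_left h9 (by positivity))
    have h11 := h7.trans (mul_le_mul_of_nonneg_left h4 (by positivity))
    rw [Real.norm_eq_abs]
    exact ((abs_sub _ _).trans (add_le_add h10 h11)).trans (le_of_eq (by ring))

end Gam

end Pool.Agent.CL
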