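import Pool.Agent.P.MP_63735c_ag.CLDefs

/-! Two integrations by parts. -/

open scoped ContDiff Matrix ENNReal
open Set Metric MeasureTheory Filter Topology

namespace Pool.Agent.CL

open Pool.Agent.SPF

variable {V : Type} [NormedAddCommGroup V] [NormedSpace ℝ V] [FiniteDimensional ℝ V]
  [MeasurableSpace V] [BorelSpace V]

omit [FiniteDimensional ℝ V] [MeasurableSpace V] [BorelSpace V] in
theorem clgreen_has {f : V → ℝ} {x : V} (hf : ContDiffAt ℝ 2 f x) (e : V) :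
    ∃ L : V →L[ℝ] ℝ, HasFDerivAt (fun y => fderiv ℝ f y e) L x ∧ L e = D2 f x e := by
  have h1 : ContDiffAt ℝ 1 (fderiv ℝ f) x := hf.fderiv_right (m := 1) (by norm_num)
  have h2 := (h1.differentiableAt (by norm_num)).hasFDerivAt
  exact ⟨_, (ContinuousLinearMap.apply ℝ ℝ e).hasFDerivAt.comp x h2, rfl⟩

omit [FiniteDimensional ℝ V] [MeasurableSpace V] [BorelSpace V] in
theorem clgreen_eq {f : V → ℝ} {x : V} (hf : ContDiffAt ℝ 2 f x) (e : V) :
    D2 f x e = fderiv ℝ (fun y => fderiv ℝ f y e) x e := by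
  obtain ⟨L, hL, he⟩ := clgreen_has hf e
  rw [hL.fderiv, he]

omit [FiniteDimensional ℝ V] [MeasurableSpace V] [BorelSpace V] in
theorem clgreen_congr {f g : V → ℝ} {x : V} (h : f =ᶠ[𝓝 x] g) (e : V) :
    D2 f x e = D2 g x e := by
  unfold D2
  rw [h.fderiv.fderiv_eq]

omit [FiniteDimensional ℝ V] [MeasurableSpace V] [BorelSpace V] in
theorem clgreen_zero {f : V → ℝ} {x : V} (h : f =ᶠ[𝓝 x] 0) (e : V) :
    f x = 0 ∧ fderiv ℝ f x e = 0 ∧ D2 f x e = 0 := by
  refine ⟨h.eq_of_nhds, ?_, ?_⟩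
  · rw [h.fderiv_eq]
    simp
  · rw [clgreen_congr h e]
    simp [D2]

omit [FiniteDimensional ℝ V] [MeasurableSpace V] [BorelSpace V] in
theorem clgreen_cont {Ω : Set V} (hΩ : IsOpen Ω) {f : V → ℝ} (hf : ContDiffOn ℝ 2 f Ω) (e : V) :
    ContinuousOn (fun t => fderiv ℝ f t e) Ω ∧ ContinuousOn (fun t => D2 f t e) Ω := by
  have h1 : ContDiffOn ℝ 1 (fderiv ℝ f) Ω := hf.fderiv_of_isOpen hΩ (by norm_num)
  have h2 : ContinuousOn (fderiv ℝ (fderiv ℝ f)) Ω := h1.continuousOn_fderiv_of_isOpen hΩ le_rfl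
  exact ⟨h1.continuousOn.clm_apply continuousOn_const,
    (h2.clm_apply continuousOn_const).clm_apply continuousOn_const⟩

theorem clgreen_int (μ : Measure V) [μ.IsAddHaarMeasure] {Ω : Set V} (hΩ : IsOpen Ω)
    {K : Set V} (hK : IsCompact K) (hKΩ : K ⊆ Ω) {F : V → ℝ} (hF : ContinuousOn F Ω)
    (h0 : ∀ t ∈ Ω \ K, F t = 0) : IntegrableOn F Ω μ :=
  ((hF.mono hKΩ).integrableOn_compact hK).of_forall_sdiff_eq_zero hΩ.measurableSet h0

theorem clgreen_pow (n : ℕ) (x : ℝ) :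
    HasDerivAt (fun x : ℝ => max x 0 ^ (n + 2)) ((n + 2 : ℝ) * max x 0 ^ (n + 1)) x := by
  have hp : ∀ y : ℝ, HasDerivAt (fun y : ℝ => y ^ (n + 2)) ((n + 2 : ℝ) * y ^ (n + 1)) y := by
    intro y
    have := hasDerivAt_pow (n + 2) y
    simpa using this
  rcases lt_trichotomy x 0 with hx | hx | hx
  · have h : (fun x : ℝ => max x 0 ^ (n + 2)) =ᶠ[𝓝 x] fun _ => 0 := by
      filter_upwards [Iio_mem_nhds hx] with y hy
      rw [max_eq_right (le_of_lt hy)]
      simp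
    rw [max_eq_right hx.le]
    simpa using (hasDerivAt_const x (0 : ℝ)).congr_of_eventuallyEq h
  · subst hx
    have h1 : HasDerivWithinAt (fun x : ℝ => max x 0 ^ (n + 2)) 0 (Iic 0) 0 := by
      refine (hasDerivWithinAt_const (0 : ℝ) (Iic 0) (0 : ℝ)).congr ?_ (by simp)
      intro y hy
      rw [max_eq_right (mem_Iic.1 hy)]
      simp
    have h2 : HasDerivWithinAt (fun x : ℝ => max x 0 ^ (n + 2)) 0 (Ici 0) 0 := by
      have h3 : HasDerivWithinAt (fun y : ℝ => y ^ (n + 2)) 0 (Ici 0) 0 := by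
        simpa using (hp 0).hasDerivWithinAt (s := Ici 0)
      refine h3.congr ?_ (by simp)
      intro y hy
      rw [max_eq_left (mem_Ici.1 hy)]
    have h4 := h1.union h2
    rw [Iic_union_Ici, hasDerivWithinAt_univ] at h4
    simpa using h4
  · have h : (fun x : ℝ => max x 0 ^ (n + 2)) =ᶠ[𝓝 x] fun y => y ^ (n + 2) := by
      filter_upwards [Ioi_mem_nhds hx] with y hy
      rw [max_eq_left (le_of_lt hy)]
    rw [max_eq_left hx.le]
    exact (hp x).congr_of_eventuallyEq h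

theorem clgreen_p3 (x : ℝ) : HasDerivAt (fun x : ℝ => max x 0 ^ 3) (3 * max x 0 ^ 2) x := by
  have := clgreen_pow 1 x
  norm_num at this
  exact this

theorem clgreen_p2 (x : ℝ) : HasDerivAt (fun x : ℝ => max x 0 ^ 2) (2 * max x 0) x := by
  have := clgreen_pow 0 x
  norm_num at this
  exact this

theorem green_dir (μ : Measure V) [μ.IsAddHaarMeasure] {Ω : Set V} (hΩ : IsOpen Ω) {G θ : V → ℝ}
    (hG : ContDiffOn ℝ 2 G Ω) (hθ : ContDiffOn ℝ 2 θ Ω) {K : Set V} (hK : IsCompact K)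
    (hKΩ : K ⊆ Ω) (hs : ∀ t ∈ Ω \ K, G =ᶠ[𝓝 t] 0 ∨ θ =ᶠ[𝓝 t] 0) (e : V) :
    IntegrableOn (fun t => θ t * D2 G t e) Ω μ ∧ IntegrableOn (fun t => G t * D2 θ t e) Ω μ ∧
      ∫ t in Ω, θ t * D2 G t e ∂μ = ∫ t in Ω, G t * D2 θ t e ∂μ := by
  obtain ⟨cG1, cG2⟩ := clgreen_cont hΩ hG e
  obtain ⟨cθ1, cθ2⟩ := clgreen_cont hΩ hθ e
  have z : ∀ t ∈ Ω \ K, θ t * D2 G t e = 0 ∧ G t * D2 θ t e = 0 ∧
      θ t * fderiv ℝ G t e - G t * fderiv ℝ θ t e = 0 := by
    intro t ht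
    rcases hs t ht with h | h
    · obtain ⟨a, b, c⟩ := clgreen_zero h e
      simp [a, b, c]
    · obtain ⟨a, b, c⟩ := clgreen_zero h e
      simp [a, b, c]
  have i1 : IntegrableOn (fun t => θ t * D2 G t e) Ω μ :=
    clgreen_int μ hΩ hK hKΩ (hθ.continuousOn.mul cG2) fun t ht => (z t ht).1
  have i2 : IntegrableOn (fun t => G t * D2 θ t e) Ω μ :=
    clgreen_int μ hΩ hK hKΩ (hG.continuousOn.mul cθ2) fun t ht => (z t ht).2.1
  have i3 : IntegrableOn (fun t => θ t * fderiv ℝ G t e - G t * fderiv ℝ θ t e) Ω μ :=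
    clgreen_int μ hΩ hK hKΩ ((hθ.continuousOn.mul cG1).sub (hG.continuousOn.mul cθ1))
      fun t ht => (z t ht).2.2
  refine ⟨i1, i2, ?_⟩
  have hd : ∀ x, HasLineDerivAt ℝ
      (Ω.indicator fun t => θ t * fderiv ℝ G t e - G t * fderiv ℝ θ t e)
      (Ω.indicator (fun t => θ t * D2 G t e - G t * D2 θ t e) x) x e := by
    intro x
    by_cases hx : x ∈ Ω
    · have hGx := hG.contDiffAt (hΩ.mem_nhds hx)
      have hθx := hθ.contDiffAt (hΩ.mem_nhds hx)
      obtain ⟨L, hL, eL⟩ := clgreen_has hGx e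
      obtain ⟨M, hM, eM⟩ := clgreen_has hθx e
      have dG := (hGx.differentiableAt (by norm_num)).hasFDerivAt
      have dθ := (hθx.differentiableAt (by norm_num)).hasFDerivAt
      have h1 := (dθ.fun_mul hL).fun_sub (dG.fun_mul hM)
      have h2 : (Ω.indicator fun t => θ t * fderiv ℝ G t e - G t * fderiv ℝ θ t e) =ᶠ[𝓝 x]
          fun t => θ t * fderiv ℝ G t e - G t * fderiv ℝ θ t e := by
        filter_upwards [hΩ.mem_nhds hx] with y hy
        rw [indicator_of_mem hy]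
      have h3 := (h1.congr_of_eventuallyEq h2).hasLineDerivAt e
      rw [indicator_of_mem hx]
      refine h3.congr_deriv ?_
      simp only [sub_apply, add_apply,
        smul_apply, smul_eq_mul, eL, eM]
      ring
    · have hxK : x ∈ Kᶜ := fun h => hx (hKΩ h)
      have h2 : (Ω.indicator fun t => θ t * fderiv ℝ G t e - G t * fderiv ℝ θ t e) =ᶠ[𝓝 x]
          fun _ => 0 := by
        filter_upwards [hK.isClosed.isOpen_compl.mem_nhds hxK] with y hy
        by_cases hyΩ : y ∈ Ω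
        · rw [indicator_of_mem hyΩ]
          exact (z y ⟨hyΩ, hy⟩).2.2
        · rw [indicator_of_notMem hyΩ]
      have h3 := ((hasFDerivAt_const (𝕜 := ℝ) (0 : ℝ) x).congr_of_eventuallyEq h2).hasLineDerivAt e
      rw [indicator_of_notMem hx]
      simpa using h3
  have i4 : IntegrableOn (fun t => θ t * D2 G t e - G t * D2 θ t e) Ω μ := i1.sub i2
  have j1 := (integrable_indicator_iff hΩ.measurableSet).2 i4
  have j3 := (integrable_indicator_iff hΩ.measurableSet).2 i3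
  have key := integral_bilinear_hasLineDerivAt_right_eq_neg_left_of_integrable (μ := μ)
    (f := fun _ : V => (1 : ℝ)) (f' := fun _ => 0)
    (g := Ω.indicator fun t => θ t * fderiv ℝ G t e - G t * fderiv ℝ θ t e)
    (g' := Ω.indicator fun t => θ t * D2 G t e - G t * D2 θ t e) (v := e)
    (B := ContinuousLinearMap.mul ℝ ℝ) (by simp) (by simpa using j1) (by simpa using j3)
    (fun x _ => by simpa using (hasFDerivAt_const (𝕜 := ℝ) (1 : ℝ) x).hasLineDerivAt e)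
    (fun x _ => hd x)
  simp only [ContinuousLinearMap.mul_apply', one_mul, zero_mul, integral_zero, neg_zero] at key
  rw [integral_indicator hΩ.measurableSet, integral_sub i1 i2] at key
  linarith

/-- Chain rule for the second derivative along `e`. -/
theorem D2_comp {f : V → ℝ} {φ : ℝ → ℝ} {x : V} (hf : ContDiffAt ℝ 2 f x)
    (hφ : ContDiffAt ℝ 2 φ (f x)) (e : V) :
    D2 (fun y => φ (f y)) x e =
      deriv φ (f x) * D2 f x e + deriv (deriv φ) (f x) * (fderiv ℝ f x e) ^ 2 := by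
  have hc : ContDiffAt ℝ 2 (fun y => φ (f y)) x := hφ.comp x hf
  rw [clgreen_eq hc]
  have e1 : ∀ᶠ y in 𝓝 x, ContDiffAt ℝ 2 f y := hf.eventually (by simp)
  have e2 : ∀ᶠ y in 𝓝 x, ContDiffAt ℝ 2 φ (f y) :=
    hf.continuousAt.eventually (hφ.eventually (by simp))
  have h : (fun y => fderiv ℝ (fun y => φ (f y)) y e) =ᶠ[𝓝 x]
      fun y => deriv φ (f y) * fderiv ℝ f y e := by
    filter_upwards [e1, e2] with y h1 h2
    have d1 := (h1.differentiableAt (by norm_num)).hasFDerivAt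
    have d2 := (h2.differentiableAt (by norm_num)).hasDerivAt
    have d3 : HasFDerivAt (fun y => φ (f y)) (deriv φ (f y) • fderiv ℝ f y) y :=
      d2.comp_hasFDerivAt y d1
    rw [d3.fderiv]
    simp
  rw [h.fderiv_eq]
  obtain ⟨L, hL, eL⟩ := clgreen_has hf e
  have d1 := (hf.differentiableAt (by norm_num)).hasFDerivAt
  have c1 : ContDiffAt ℝ 1 (deriv φ) (f x) := by
    have h1 : ContDiffAt ℝ 1 (fderiv ℝ φ) (f x) := hφ.fderiv_right (m := 1) (by norm_num)
    exact h1.clm_apply contDiffAt_const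
  have d2 := (c1.differentiableAt (by norm_num)).hasDerivAt
  have d3 : HasFDerivAt (fun y => deriv φ (f y)) (deriv (deriv φ) (f x) • fderiv ℝ f x) x :=
    d2.comp_hasFDerivAt x d1
  rw [(d3.fun_mul hL).fderiv]
  simp only [add_apply, smul_apply, smul_eq_mul, eL]
  ring

theorem D2_add {f g : V → ℝ} {x : V} (hf : ContDiffAt ℝ 2 f x) (hg : ContDiffAt ℝ 2 g x)
    (a b : ℝ) (e : V) : D2 (fun y => a * f y + b * g y) x e = a * D2 f x e + b * D2 g x e := by
  have hc : ContDiffAt ℝ 2 (fun y => a * f y + b * g y) x :=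
    (contDiffAt_const.mul hf).add (contDiffAt_const.mul hg)
  rw [clgreen_eq hc]
  have e1 : ∀ᶠ y in 𝓝 x, ContDiffAt ℝ 2 f y := hf.eventually (by simp)
  have e2 : ∀ᶠ y in 𝓝 x, ContDiffAt ℝ 2 g y := hg.eventually (by simp)
  have h : (fun y => fderiv ℝ (fun y => a * f y + b * g y) y e) =ᶠ[𝓝 x]
      fun y => a * fderiv ℝ f y e + b * fderiv ℝ g y e := by
    filter_upwards [e1, e2] with y h1 h2
    have d1 := (h1.differentiableAt (by norm_num)).hasFDerivAt
    have d2 := (h2.differentiableAt (by norm_num)).hasFDerivAt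
    rw [((d1.const_mul a).fun_add (d2.const_mul b)).fderiv]
    simp
  rw [h.fderiv_eq]
  obtain ⟨L, hL, eL⟩ := clgreen_has hf e
  obtain ⟨M, hM, eM⟩ := clgreen_has hg e
  rw [((hL.const_mul a).fun_add (hM.const_mul b)).fderiv]
  simp only [add_apply, smul_apply, smul_eq_mul, eL, eM]

theorem D2_congr {f g : V → ℝ} {x : V} (h : f =ᶠ[𝓝 x] g) (e : V) : D2 f x e = D2 g x e :=
  clgreen_congr h e

theorem pos3 : ContDiff ℝ 2 (fun x : ℝ => max x 0 ^ 3) ∧
    (∀ x, deriv (fun x : ℝ => max x 0 ^ 3) x = 3 * max x 0 ^ 2) ∧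
    ∀ x, deriv (deriv fun x : ℝ => max x 0 ^ 3) x = 6 * max x 0 := by
  have h1 : deriv (fun x : ℝ => max x 0 ^ 3) = fun x => 3 * max x 0 ^ 2 :=
    funext fun x => (clgreen_p3 x).deriv
  have h2 : ∀ x : ℝ, HasDerivAt (fun x : ℝ => 3 * max x 0 ^ 2) (6 * max x 0) x := fun x =>
    ((clgreen_p2 x).const_mul 3).congr_deriv (by ring)
  have h3 : deriv (fun x : ℝ => 3 * max x 0 ^ 2) = fun x => 6 * max x 0 :=
    funext fun x => (h2 x).deriv
  refine ⟨?_, fun x => (clgreen_p3 x).deriv, fun x => by rw [h1, h3]⟩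
  rw [show (2 : WithTop ℕ∞) = 1 + 1 from rfl, contDiff_succ_iff_deriv]
  refine ⟨fun x => (clgreen_p3 x).differentiableAt, by simp, ?_⟩
  rw [h1, contDiff_one_iff_deriv]
  refine ⟨fun x => (h2 x).differentiableAt, ?_⟩
  rw [h3]
  fun_prop

/-- Convex truncation. -/
theorem exists_trunc (K : ℝ) : ∃ χ : ℝ → ℝ, ContDiff ℝ 2 χ ∧ (∀ x, 0 ≤ deriv χ x) ∧
    (∀ x, 0 ≤ deriv (deriv χ) x) ∧ (∀ x, -K ≤ x → χ x = x) ∧ (∀ x, x ≤ -K - 2 → χ x = -K - 1) ∧
    ∀ x, -K - 1 ≤ χ x ∧ χ x ≤ max x (-K) := by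
  have d3 : ∀ c x : ℝ, HasDerivAt (fun x : ℝ => max (x + c) 0 ^ 3) (3 * max (x + c) 0 ^ 2) x :=
    fun c x => (clgreen_p3 (x + c)).comp_add_const x c
  have d2 : ∀ c x : ℝ, HasDerivAt (fun x : ℝ => max (x + c) 0 ^ 2) (2 * max (x + c) 0) x :=
    fun c x => (clgreen_p2 (x + c)).comp_add_const x c
  have c3 : ∀ c : ℝ, ContDiff ℝ 2 fun x : ℝ => max (x + c) 0 ^ 3 := fun c =>
    pos3.1.comp (contDiff_id.add contDiff_const)
  have h1 : ∀ x : ℝ, HasDerivAt (fun x : ℝ => -K - 1 +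
      (max (x + (K + 2)) 0 ^ 3 - 2 * max (x + (K + 1)) 0 ^ 3 + max (x + K) 0 ^ 3) / 6)
      ((max (x + (K + 2)) 0 ^ 2 - 2 * max (x + (K + 1)) 0 ^ 2 + max (x + K) 0 ^ 2) / 2) x :=
    fun x => (((((d3 (K + 2) x).fun_sub ((d3 (K + 1) x).const_mul 2)).fun_add
      (d3 K x)).div_const 6).const_add (-K - 1)).congr_deriv (by ring)
  have h2 : ∀ x : ℝ, HasDerivAt (fun x : ℝ =>
      (max (x + (K + 2)) 0 ^ 2 - 2 * max (x + (K + 1)) 0 ^ 2 + max (x + K) 0 ^ 2) / 2)
      (max (x + (K + 2)) 0 - 2 * max (x + (K + 1)) 0 + max (x + K) 0) x :=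
    fun x => ((((d2 (K + 2) x).fun_sub ((d2 (K + 1) x).const_mul 2)).fun_add
      (d2 K x)).div_const 2).congr_deriv (by ring)
  have cs : ∀ x : ℝ,
      (x + K ≤ -2 ∧ max (x + (K + 2)) 0 = 0 ∧ max (x + (K + 1)) 0 = 0 ∧ max (x + K) 0 = 0) ∨
      (-2 ≤ x + K ∧ x + K ≤ -1 ∧ max (x + (K + 2)) 0 = x + K + 2 ∧ max (x + (K + 1)) 0 = 0 ∧
        max (x + K) 0 = 0) ∨
      (-1 ≤ x + K ∧ x + K ≤ 0 ∧ max (x + (K + 2)) 0 = x + K + 2 ∧
        max (x + (K + 1)) 0 = x + K + 1 ∧ max (x + K) 0 = 0) ∨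
      (0 ≤ x + K ∧ max (x + (K + 2)) 0 = x + K + 2 ∧
        max (x + (K + 1)) 0 = x + K + 1 ∧ max (x + K) 0 = x + K) := by
    intro x
    rcases le_total (x + K) (-2) with a | a
    · exact Or.inl ⟨a, max_eq_right (by linarith), max_eq_right (by linarith),
        max_eq_right (by linarith)⟩
    rcases le_total (x + K) (-1) with b | b
    · exact Or.inr (Or.inl ⟨a, b, by rw [max_eq_left (by linarith)]; ring,
        max_eq_right (by linarith), max_eq_right (by linarith)⟩)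
    rcases le_total (x + K) 0 with c | c
    · exact Or.inr (Or.inr (Or.inl ⟨b, c, by rw [max_eq_left (by linarith)]; ring,
        by rw [max_eq_left (by linarith)]; ring, max_eq_right c⟩))
    · exact Or.inr (Or.inr (Or.inr ⟨c, by rw [max_eq_left (by linarith)]; ring,
        by rw [max_eq_left (by linarith)]; ring, max_eq_left c⟩))
  refine ⟨fun x : ℝ => -K - 1 +
      (max (x + (K + 2)) 0 ^ 3 - 2 * max (x + (K + 1)) 0 ^ 3 + max (x + K) 0 ^ 3) / 6,
    contDiff_const.add ((((c3 _).sub (contDiff_const.mul (c3 _))).add (c3 _)).div_const 6),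
    fun x => ?_, fun x => ?_, fun x hx => ?_, fun x hx => ?_, fun x => ?_⟩
  · rw [(h1 x).deriv]
    rcases cs x with ⟨a, p, q, r⟩ | ⟨a, b, p, q, r⟩ | ⟨a, b, p, q, r⟩ | ⟨a, p, q, r⟩ <;>
      rw [p, q, r] <;> nlinarith
  · rw [show deriv _ = _ from funext fun x => (h1 x).deriv, (h2 x).deriv]
    rcases cs x with ⟨a, p, q, r⟩ | ⟨a, b, p, q, r⟩ | ⟨a, b, p, q, r⟩ | ⟨a, p, q, r⟩ <;>
      rw [p, q, r] <;> linarith
  · show -K - 1 + _ = x
    rw [max_eq_left (by linarith), max_eq_left (by linarith), max_eq_left (by linarith)]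
    ring
  · show -K - 1 + _ = -K - 1
    rw [max_eq_right (by linarith), max_eq_right (by linarith), max_eq_right (by linarith)]
    ring
  · show -K - 1 ≤ -K - 1 + _ ∧ -K - 1 + _ ≤ _
    have m1 := le_max_left x (-K)
    have m2 := le_max_right x (-K)
    generalize max x (-K) = m at m1 m2
    rcases cs x with ⟨a, p, q, r⟩ | ⟨a, b, p, q, r⟩ | ⟨a, b, p, q, r⟩ | ⟨a, p, q, r⟩
    · rw [p, q, r]
      constructor <;> nlinarith
    · rw [p, q, r]
      have u0 : 0 ≤ x + K + 2 := by linarith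
      have u1 : (x + K + 2) ^ 3 ≤ 1 := pow_le_one₀ u0 (by linarith)
      have u2 : 0 ≤ (x + K + 2) ^ 3 := pow_nonneg u0 3
      constructor <;> nlinarith
    · rw [p, q, r]
      obtain ⟨u, hu⟩ : ∃ u, u = x + K + 1 := ⟨_, rfl⟩
      have u0 : 0 ≤ u := by linarith
      have u1 : u ≤ 1 := by linarith
      rw [show x + K + 2 = u + 1 by rw [hu]; ring, ← hu]
      have u2 : u ^ 3 ≤ 1 := pow_le_one₀ u0 u1
      have u3 : 0 ≤ (1 - u) * (5 + 2 * u - u ^ 2) := mul_nonneg (by linarith) (by nlinarith)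
      constructor <;> nlinarith
    · rw [p, q, r]
      have u : ((x + K + 2) ^ 3 - 2 * (x + K + 1) ^ 3 + (x + K) ^ 3) / 6 = x + K + 1 := by ring
      rw [u]
      constructor <;> linarith

end Pool.Agent.CL
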