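import Pool.Agent.P.MP_63735c_ag.CCH1
import Pool.Agent.P.MP_63735c_ag.HMN3
import Pool.Agent.P.MP_63735c_ag.CLPar
import Pool.Agent.P.MP_63735c_ag.CLGreen

/-! The skew part of a cocycle is a leaf area. -/

open scoped ContDiff Matrix
open Set Metric MeasureTheory Filter Topology

namespace Pool.Agent.CL

open Pool.Agent.SPF LGrp

variable {n : ℕ} {X : Type} [TopologicalSpace X] [T2Space X] [MeasurableSpace X]
  {S : Setup n X}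

theorem cch3_par (t : Form2 (P n)) (y a b : E n) :
    par t (y, 0) (0, a) (0, b) = par (leaf t y) 0 a b := by
  simp [par, leaf]

theorem cch3_conv {R s : ℝ} (hR : 1 ≤ R) (hs : s ∈ Icc (0 : ℝ) 1) (u v : P n) :
    qn R (u + s • (v - u)) ≤ qn R u + qn R v := by
  have e : u + s • (v - u) = (1 - s) • u + s • v := by module
  have h1 := (qn_basic R hR ((1 - s) • u) (s • v) 0).2.1
  have h2 := (qn_basic R hR u u (1 - s)).2.2.2.1
  have h3 := (qn_basic R hR v v s).2.2.2.1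
  have h4 := (qn_basic R hR u u 0).1
  have h5 := (qn_basic R hR v v 0).1
  rw [abs_of_nonneg (by linarith [hs.2])] at h2
  rw [abs_of_nonneg hs.1] at h3
  rw [e]
  nlinarith [hs.1, hs.2]

theorem cch3_norm {s : ℝ} (hs : s ∈ Icc (0 : ℝ) 1) {u v : E n} {Q : ℝ} (hu : ‖u‖ ≤ Q)
    (hv : ‖v‖ ≤ Q) : ‖u + s • (v - u)‖ ≤ Q := by
  have h := (convex_closedBall (0 : E n) Q).add_smul_sub_mem (mem_closedBall_zero_iff.2 hu)
    (mem_closedBall_zero_iff.2 hv) hs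
  exact mem_closedBall_zero_iff.1 h

theorem cch3_sub (l : Loc S) : ball l.y1 (4 * l.ρ) ⊆ S.M.T := fun _ hx =>
  (l.mem_r (ball_subset_ball (by linarith [l.ρ_pos]) hx)).2

omit [T2Space X] in
theorem cch3_y1 (l : Loc S) {s : ℝ} (hs : 0 < s) : l.y1 ∈ ball l.y1 (s * l.ρ) :=
  mem_ball_self (mul_pos hs l.ρ_pos)

omit [T2Space X] in
theorem cch3_leaf {l : Loc S} {t : Form2 (P n)} (ht : Tame l t) : ∃ K, 0 ≤ K ∧
    ∀ y ∈ ball l.y1 (4 * l.ρ), ∀ x u v, |leaf t y x u v| ≤ K * ‖u‖ * ‖v‖ := by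
  obtain ⟨K, hK0, hK⟩ := ht
  refine ⟨K, hK0, fun y hy x u v => ?_⟩
  have h := hK (y, x) (1 + ‖x‖) hy (by linarith [norm_nonneg x]) (by simp) (0, u) (0, v)
  simpa [leaf, qn] using h

namespace Gam

variable {l : Loc S} {D : LGrp} (Γ : Gam l D)

theorem cch3_pt {h : D.G} (hh : D.sz h ≤ 1) {r : ℝ} (hr : r ∈ Icc (0 : ℝ) 1) :
    (seg l.o (Γ.pt h) r).1 ∈ ball l.y1 (1 * l.ρ) ∧ ‖(seg l.o (Γ.pt h) r).1 - l.y1‖ ≤ D.sz h := by
  have hn := Γ.near hh (cch3_y1 l (by norm_num : (0 : ℝ) < 4))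
  have e : (seg l.o (Γ.pt h) r).1 - l.y1 = r • (Γ.γ h l.y1 - l.y1) := by
    simp [seg, Loc.o, pt, Ret.act, rt, Setup.rt, γ]
  have h1 : ‖(seg l.o (Γ.pt h) r).1 - l.y1‖ ≤ ‖Γ.γ h l.y1 - l.y1‖ := by
    rw [e, norm_smul, Real.norm_of_nonneg hr.1]
    exact mul_le_of_le_one_left (norm_nonneg _) hr.2
  refine ⟨mem_ball_iff_norm.2 (lt_of_le_of_lt (h1.trans hn.1) ?_), h1.trans hn.2.1⟩
  nlinarith [l.ρ_pos, D.sz_nonneg h]

theorem cch3_one {t : Form2 (P n)} (hf : IsForm S.M.T S.M.Ψ t) (ht : Tame l t) :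
    ∃ C, 0 ≤ C ∧ ∀ g h R, D.sz g ≤ 1 → D.sz h ≤ 1 → 1 ≤ R → ‖Γ.a g‖ ≤ R → ‖Γ.a h‖ ≤ R →
      |Γ.kap (rad t l.o) g h - segInt (rad t l.o) (l.o + (0, -Γ.a g))
        (l.o + (0, -Γ.a g) + (0, -Γ.a h))| ≤ C * R ^ 2 * (D.sz g + D.sz h) := by
  obtain ⟨K', hK0', hK'⟩ := l.rad_bd hf.closed ht
  obtain ⟨K, hK0, hK⟩ := ht
  obtain ⟨C, hC1, hC⟩ := Γ.act_bd
  refine ⟨(8 * K * C ^ 3 + 4 * K' * C) * (2 * C ^ 2) ^ 2, by positivity,
    fun g h R hg hh hR hag hah => ?_⟩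
  have hρ := l.ρ_pos
  have hσg := D.sz_nonneg g
  have hσh := D.sz_nonneg h
  have hW : IsOpen (S.M.T ×ˢ (univ : Set (E n))) := S.M.T_open.prod isOpen_univ
  have hc : Convex ℝ (S.M.T ×ˢ (univ : Set (E n))) := S.M.T_conv.prod convex_univ
  have y4 := cch3_y1 l (by norm_num : (0 : ℝ) < 4)
  have y3 := cch3_y1 l (by norm_num : (0 : ℝ) < 3)
  have hyT := cch3_sub l y4
  have hA : IsPrim _ (rad t l.o) t := rad_prim hW hc hf.closed ⟨hyT, mem_univ _⟩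
  obtain ⟨Q, hQ⟩ : ∃ Q, Q = 2 * C ^ 2 * R := ⟨_, rfl⟩
  have hCR : R ≤ C * R := by nlinarith
  have hCC : C * R ≤ C * (C * R) := by nlinarith
  have hQ2 : 2 * (C * (C * R)) = Q := by rw [hQ]; ring
  have hQ1 : 1 ≤ Q := by linarith
  have o2 : ‖(l.o : P n).2‖ = 0 := by simp [Loc.o]
  have b1 := (hC h l.o R hh y3 hR (by linarith) hah).1
  obtain ⟨-, b2, b3, -⟩ := hC h l.o Q hh y3 hQ1 (by linarith) (by linarith)
  change ‖(Γ.pt h).2‖ ≤ _ at b1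
  change qn Q (Γ.pt h - l.o) ≤ _ at b2
  change qn Q (Γ.pt h - _) ≤ C * Q * (_ + ‖l.y1 - l.y1‖) at b3
  rw [sub_self, norm_zero, add_zero] at b3
  have p4 : (Γ.pt h).1 ∈ ball l.y1 (4 * l.ρ) := by
    have h1 := (Γ.cch3_pt hh (r := 1) ⟨zero_le_one, le_rfl⟩).1
    simp only [seg, one_smul, add_sub_cancel] at h1
    exact ball_subset_ball (by linarith) h1
  have hO : IsOpen (ball l.y1 (4 * l.ρ) ×ˢ (univ : Set (E n))) := isOpen_ball.prod isOpen_univ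
  obtain ⟨sm, mp, -, -⟩ := IsRet.smooth (Γ.ret g)
  have cq : Curve (ball l.y1 (4 * l.ρ) ×ˢ (univ : Set (E n))) (seg l.o (Γ.pt h)) :=
    curve_seg ((convex_ball _ _).prod convex_univ) ⟨y4, mem_univ _⟩ ⟨p4, mem_univ _⟩
  have cc' := curve_comp hO sm mp cq
  obtain ⟨P0, hP0⟩ : ∃ P0 : P n, P0 = l.o + (0, -Γ.a g) := ⟨_, rfl⟩
  obtain ⟨P1, hP1⟩ : ∃ P1 : P n, P1 = l.o + (0, -Γ.a g) + (0, -Γ.a h) := ⟨_, rfl⟩
  have cc : Curve (S.M.T ×ˢ (univ : Set (E n))) (seg P0 P1) :=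
    curve_seg hc ⟨by simpa [hP0, Loc.o] using hyT, mem_univ _⟩
      ⟨by simpa [hP1, Loc.o] using hyT, mem_univ _⟩
  rw [← hP1, ← hP0, ← lineInt_seg, kap,
    Γ.kap_line hf.closed (fun g => hf.inv _ _ (Γ.ret g)) g p4]
  obtain ⟨c', hc'⟩ : ∃ c' : ℝ → P n, c' = fun s => (Γ.rt g).act (seg l.o (Γ.pt h) s) := ⟨_, rfl⟩
  change Curve _ fun s => (Γ.rt g).act (seg l.o (Γ.pt h) s) at cc'
  rw [← hc'] at cc' ⊢
  have key : ∀ r ∈ Icc (0 : ℝ) 1, qn Q (c' r - seg P0 P1 r) ≤ 2 * C * Q * (D.sz g + D.sz h) ∧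
      qn Q (deriv c' r) ≤ 3 * C ^ 2 * Q ∧ ∀ s ∈ Icc (0 : ℝ) 1,
      (seg P0 P1 r + s • (c' r - seg P0 P1 r)).1 ∈ ball l.y1 (4 * l.ρ) ∧
      ‖(seg P0 P1 r + s • (c' r - seg P0 P1 r)).2‖ ≤ Q := by
    intro r hr
    obtain ⟨q1, q2⟩ := Γ.cch3_pt hh hr
    have q3 : (seg l.o (Γ.pt h) r).1 ∈ ball l.y1 (3 * l.ρ) := ball_subset_ball (by linarith) q1
    have q4 : ‖(seg l.o (Γ.pt h) r).2‖ ≤ C * R := cch3_norm hr (by rw [o2]; linarith) b1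
    have d1 := (hC g _ (C * R) hg q3 (by linarith) q4 (by linarith)).1
    obtain ⟨-, -, d3, d4⟩ := hC g _ Q hg q3 hQ1 (by linarith) (by linarith)
    refine ⟨?_, ?_, fun s hs => ⟨?_, ?_⟩⟩
    · have e : c' r - seg P0 P1 r = ((Γ.rt g).act (seg l.o (Γ.pt h) r) -
          (seg l.o (Γ.pt h) r - (0, Γ.a g))) + r • (Γ.pt h - (l.o - (0, Γ.a h))) := by
        have e1 : ((0, -Γ.a g) : P n) = -(0, Γ.a g) := by simp
        have e2 : ((0, -Γ.a h) : P n) = -(0, Γ.a h) := by simp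
        simp only [hc', hP0, hP1, seg, e1, e2]
        module
      rw [e]
      refine (qn_basic Q hQ1 _ _ 0).2.1.trans ?_
      rw [(qn_basic Q hQ1 _ 0 r).2.2.2.1, abs_of_nonneg hr.1]
      have h1 : r * qn Q (Γ.pt h - (l.o - (0, Γ.a h))) ≤ qn Q (Γ.pt h - (l.o - (0, Γ.a h))) :=
        mul_le_of_le_one_left (qn_basic Q hQ1 _ 0 0).1 hr.2
      have h2 : 0 ≤ C * Q := by positivity
      have h3 := mul_le_mul_of_nonneg_left (add_le_add_right q2 (D.sz g)) h2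
      nlinarith [mul_nonneg h2 hσg]
    · have hd : DifferentiableAt ℝ (Γ.rt g).act (seg l.o (Γ.pt h) r) :=
        (sm.contDiffAt (hO.mem_nhds (cq r hr).2)).differentiableAt (by simp)
      have e : deriv c' r = fderiv ℝ (Γ.rt g).act (seg l.o (Γ.pt h) r) (Γ.pt h - l.o) := by
        rw [hc']
        exact (hd.hasFDerivAt.comp_hasDerivAt r (clstokes_seg _ _ r)).deriv
      rw [e]
      refine (d4 _).trans ?_
      have h1 : 1 + ‖Γ.a h‖ + Q * D.sz h ≤ 3 * Q := by nlinarith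
      have h2 : qn Q (Γ.pt h - l.o) ≤ C * (3 * Q) :=
        b2.trans (mul_le_mul_of_nonneg_left h1 (by linarith))
      nlinarith [mul_le_mul_of_nonneg_left h2 (by linarith : (0 : ℝ) ≤ C)]
    · have h1 : (seg P0 P1 r).1 ∈ ball l.y1 (4 * l.ρ) := by simpa [seg, hP0, hP1, Loc.o] using hρ
      have h2 : (c' r).1 ∈ ball l.y1 (4 * l.ρ) := by
        rw [hc']
        exact ball_subset_ball (by linarith) (Γ.maps hg (by norm_num) q1)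
      exact (convex_ball _ _).add_smul_sub_mem h1 h2 hs
    · refine cch3_norm hs (cch3_norm hr ?_ ?_) (by rw [hc']; linarith)
      · simp only [hP0, Loc.o, Prod.snd_add, zero_add, norm_neg]
        linarith
      · simp only [hP1, Loc.o, Prod.snd_add, zero_add]
        have := norm_add_le (-Γ.a g) (-Γ.a h)
        rw [norm_neg, norm_neg] at this
        linarith
  have hend : ∀ r ∈ Icc (0 : ℝ) 1, ∀ s ∈ Icc (0 : ℝ) 1,
      |rad t l.o (seg P0 P1 r + s • (c' r - seg P0 P1 r)) (c' r - seg P0 P1 r)| ≤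
        K' * Q * (2 * C * Q * (D.sz g + D.sz h)) := fun r hr s hs =>
    (hK' _ Q ((key r hr).2.2 s hs).1 hQ1 ((key r hr).2.2 s hs).2 _).trans
      (mul_le_mul_of_nonneg_left (key r hr).1 (by positivity))
  refine (pert hW hc hA cc cc' (K := K * (2 * C * Q * (D.sz g + D.sz h)) * (4 * C ^ 2 * Q))
    (fun s hs r hr => ?_) (hend 0 ⟨le_rfl, zero_le_one⟩) (hend 1 ⟨zero_le_one, le_rfl⟩)).trans
      (le_of_eq (by rw [hQ]; ring))
  refine (hK _ Q ((key r hr).2.2 s hs).1 hQ1 ((key r hr).2.2 s hs).2 _ _).trans ?_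
  refine mul_le_mul (mul_le_mul_of_nonneg_left (key r hr).1 hK0) ?_ (qn_basic Q hQ1 _ 0 0).1
    (by positivity)
  refine (cch3_conv hQ1 hs _ _).trans ?_
  have h1 : qn Q (deriv (seg P0 P1) r) = ‖Γ.a h‖ := by
    rw [clpar_deriv_seg, hP0, hP1]
    simp [qn]
  have h2 : Q ≤ C ^ 2 * Q := by nlinarith [mul_nonneg (by nlinarith : 0 ≤ C ^ 2 - 1) (by linarith : 0 ≤ Q)]
  linarith [(key r hr).2.1]

theorem kap_iso {t : Form2 (P n)} (hf : IsForm S.M.T S.M.Ψ t) (ht : Tame l t) :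
    ∃ C, 0 ≤ C ∧ ∀ g h R, D.sz g ≤ 1 → D.sz h ≤ 1 → 1 ≤ R → ‖Γ.a g‖ ≤ R → ‖Γ.a h‖ ≤ R →
      |Γ.kap (rad t l.o) g h - Γ.kap (rad t l.o) h g - par (leaf t l.y1) 0 (-Γ.a g) (-Γ.a h)| ≤
        C * R ^ 2 * (D.sz g + D.sz h) := by
  obtain ⟨C, hC0, hC⟩ := Γ.cch3_one hf ht
  refine ⟨2 * C, by positivity, fun g h R hg hh hR hag hah => ?_⟩
  have hW : IsOpen (S.M.T ×ˢ (univ : Set (E n))) := S.M.T_open.prod isOpen_univ
  have hc : Convex ℝ (S.M.T ×ˢ (univ : Set (E n))) := S.M.T_conv.prod convex_univ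
  have hyT := cch3_sub l (cch3_y1 l (by norm_num : (0 : ℝ) < 4))
  have ho : l.o ∈ S.M.T ×ˢ (univ : Set (E n)) := ⟨hyT, mem_univ _⟩
  have hm : ∀ v : E n, l.o + (0, v) ∈ S.M.T ×ˢ (univ : Set (E n)) := fun v =>
    ⟨by simpa [Loc.o] using hyT, mem_univ _⟩
  have hs := stokes_par hW hc (rad_prim hW hc hf.closed ho) ho (hm (-Γ.a g)) (hm (-Γ.a h))
    ⟨by simpa [Loc.o] using hyT, mem_univ _⟩
  rw [rad_seg hc hf.closed ho (hm _), rad_seg hc hf.closed ho (hm _)] at hs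
  have h1 := abs_le.1 (hC g h R hg hh hR hag hah)
  have h2 := abs_le.1 (hC h g R hh hg hR hah hag)
  rw [add_right_comm l.o] at h2
  rw [← cch3_par]
  change |_ - par t l.o _ _| ≤ _
  rw [← hs, abs_le]
  constructor <;> nlinarith [h1.1, h1.2, h2.1, h2.2]

theorem ko_pos : ∃ c > (0 : ℝ), ∃ C, 0 ≤ C ∧ ∀ g h R, D.sz g ≤ 1 → D.sz h ≤ 1 → 1 ≤ R →
    ‖Γ.a g‖ ≤ R → ‖Γ.a h‖ ≤ R → c * ‖Γ.a g‖ ^ 2 ≤
      |Γ.kap (rad S.M.om l.o) g h - Γ.kap (rad S.M.om l.o) h g| +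
        C * R * (1 + ‖Γ.a h - Complex.I • Γ.a g‖ + R * (D.sz g + D.sz h)) := by
  obtain ⟨C, hC0, hC⟩ := Γ.kap_iso S.M.om_form l.tame_om
  obtain ⟨K, hK0, hK⟩ := cch3_leaf l.tame_om
  obtain ⟨c, hc, C0, -, hb⟩ := l.hb
  refine ⟨c, hc, C + 400 * K, by positivity, fun g h R hg hh hR hag hah => ?_⟩
  have y4 := cch3_y1 l (by norm_num : (0 : ℝ) < 4)
  have hcl := leaf_closed S.M.T_open S.M.om_form.closed (cch3_sub l y4)
  have h1 : c * ‖-Γ.a g‖ ^ 2 ≤ par (leaf S.M.om l.y1) 0 (-Γ.a g) (Complex.I • -Γ.a g) :=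
    par_ge hcl _ _ _ fun s r => (hb (l.y1, _) y4).2 _
  obtain ⟨δ, hδ⟩ : ∃ δ, δ = ‖Γ.a h - Complex.I • Γ.a g‖ := ⟨_, rfl⟩
  have hδ0 : 0 ≤ δ := hδ ▸ norm_nonneg _
  have hδ2 : δ ≤ 2 * R := by
    have := norm_sub_le (Γ.a h) (Complex.I • Γ.a g)
    rw [norm_smul, Complex.norm_I, _root_.one_mul] at this
    linarith
  have h2 := par_shift hcl hK0 (hK _ y4) 0 (-Γ.a g) (-Γ.a h) 0 (-Γ.a g) (Complex.I • -Γ.a g)
    (δ := δ) (by simpa using hδ0) (by simpa using hδ0)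
    (by rw [hδ, smul_neg, neg_sub_neg, norm_sub_rev])
  rw [norm_neg, norm_neg] at h2
  rw [norm_neg] at h1
  rw [← hδ]
  have h3 : 100 * K * δ * (‖Γ.a g‖ + ‖Γ.a h‖ + δ) ≤ 100 * K * δ * (4 * R) :=
    mul_le_mul_of_nonneg_left (by linarith) (by positivity)
  have h4 := (abs_le.1 (hC g h R hg hh hR hag hah)).1
  have h5 := (abs_le.1 (h2.trans h3)).1
  have h6 := le_abs_self (Γ.kap (rad S.M.om l.o) g h - Γ.kap (rad S.M.om l.o) h g)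
  have hσ := add_nonneg (D.sz_nonneg g) (D.sz_nonneg h)
  have hR0 : 0 ≤ R := by linarith
  have h7 : 0 ≤ C * R * (1 + δ) := by positivity
  have h8 : 0 ≤ K * R * (1 + R * (D.sz g + D.sz h)) := by positivity
  nlinarith

theorem ka_iso (i : Fin S.M.m) : ∀ ε > (0 : ℝ), ∃ C, 0 ≤ C ∧ ∀ g h R, D.sz g ≤ 1 → D.sz h ≤ 1 →
    1 ≤ R → ‖Γ.a g‖ ≤ R → ‖Γ.a h‖ ≤ R →
      |Γ.kap (rad (S.M.a i) l.o) g h - Γ.kap (rad (S.M.a i) l.o) h g| ≤
        ε * R ^ 2 + C * R * (1 + R * (D.sz g + D.sz h)) := by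
  intro ε hε
  obtain ⟨C, hC0, hC⟩ := Γ.kap_iso (S.M.a_form i) (l.tame_a i)
  obtain ⟨C', hC'⟩ := l.par_nullL i (S.M.a_null i) ε hε
  refine ⟨C + |C'|, by positivity, fun g h R hg hh hR hag hah => ?_⟩
  have h4 := hC' (-Γ.a g) (-Γ.a h) R hR (by rwa [norm_neg]) (by rwa [norm_neg])
  have h5 := hC g h R hg hh hR hag hah
  have hσ := add_nonneg (D.sz_nonneg g) (D.sz_nonneg h)
  have hR0 : 0 ≤ R := by linarith
  have h6 := mul_le_mul_of_nonneg_right (le_abs_self C') hR0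
  have h7 : 0 ≤ C * R := by positivity
  have h8 : 0 ≤ |C'| * R * (R * (D.sz g + D.sz h)) := by positivity
  rw [abs_le] at h4 h5 ⊢
  constructor <;> nlinarith [h4.1, h4.2, h5.1, h5.2]

end Gam

end Pool.Agent.CL
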