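import Pool.Agent.P.MP_63735c_ag.CCG6

/-! A unipotent almost isometry is close to the identity. -/

open scoped ContDiff Matrix
open Set Metric MeasureTheory Filter Topology

namespace Pool.Agent.CL

open Pool.Agent.SPF LGrp

variable {n : ℕ} {X : Type} [TopologicalSpace X] [T2Space X] [MeasurableSpace X]
  {S : Setup n X}

lemma ccg8_pos (s : E n →L[ℝ] E n →L[ℝ] ℝ) (hp : ∀ v, v ≠ 0 → 0 < s v v) :
    ∃ c > (0 : ℝ), ∀ v, c * ‖v‖ ^ 2 ≤ s v v := by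
  obtain ⟨c, hc, h⟩ := (isCompact_sphere (0 : E n) 1).exists_forall_le'
    (f := fun v => s v v) (a := 0) (by fun_prop) fun v hv => hp v (by
      rintro rfl
      simp at hv)
  refine ⟨c, hc, fun v => ?_⟩
  by_cases hv : v = 0
  · simp [hv]
  have h0 : 0 < ‖v‖ := norm_pos_iff.2 hv
  have h1 := h (‖v‖⁻¹ • v) (by simp [norm_smul, h0.ne'])
  simp only [map_smul, ContinuousLinearMap.smul_apply, smul_eq_mul] at h1
  calc c * ‖v‖ ^ 2 ≤ ‖v‖⁻¹ * (‖v‖⁻¹ * s v v) * ‖v‖ ^ 2 := by gcongr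
    _ = s v v := by field_simp

lemma ccg8_sq {W : E n →L[ℂ] E n} {Y : E n →L[ℝ] E n} {t : ℝ} (ht : 0 ≤ t)
    (hY : ∀ v, Y (Y v) = 0) (hE : ∀ v, ‖tr W v - Y v‖ ≤ t * ‖v‖) :
    ‖W.comp W‖ ≤ n * (2 * (n * ‖W‖ * t) + t ^ 2) := by
  have hV := (tr_basic W W).2.2.2.2
  have e : W.comp W = tr ((tr W).comp (tr W)) := by
    rw [← (tr_basic W W).2.1, (tr_basic (W.comp W) W).2.2.2.1]
  rw [e]
  refine (tr_basic _ W).2.2.2.2.trans (mul_le_mul_of_nonneg_left ?_ (Nat.cast_nonneg n))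
  refine ContinuousLinearMap.opNorm_le_bound _ (by positivity) fun v => ?_
  have e1 : tr W (tr W v) = tr W (tr W v - Y v) + (tr W (Y v) - Y (Y v)) := by
    rw [hY, map_sub]
    abel
  have h1 : ∀ x, ‖tr W x‖ ≤ n * ‖W‖ * ‖x‖ := fun x =>
    ((tr W).le_opNorm x).trans (mul_le_mul_of_nonneg_right hV (norm_nonneg _))
  have h2 : ‖Y v‖ ≤ n * ‖W‖ * ‖v‖ + t * ‖v‖ := by
    have := norm_sub_le (tr W v) (tr W v - Y v)
    rw [sub_sub_cancel] at this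
    linarith [h1 v, hE v]
  have h3 := (h1 (tr W v - Y v)).trans (mul_le_mul_of_nonneg_left (hE v) (by positivity))
  have h4 := (hE (Y v)).trans (mul_le_mul_of_nonneg_left h2 ht)
  rw [ContinuousLinearMap.comp_apply, e1]
  refine (norm_add_le _ _).trans ((add_le_add h3 h4).trans (le_of_eq ?_))
  ring

theorem uni_la (s : E n →L[ℝ] E n →L[ℝ] ℝ) (hp : ∀ v, v ≠ 0 → 0 < s v v) {K : ℝ} (hK : 0 ≤ K) :
    ∃ K', 0 ≤ K' ∧ ∀ (U : E n →L[ℂ] E n) (Y : E n →L[ℝ] E n) (σ : ℝ), 0 ≤ σ → σ ≤ 1 →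
      ‖U - 1‖ ≤ 1 → (∀ a b, |s (U a) (U b) - s a b| ≤ K * σ * ‖a‖ * ‖b‖) →
      (∀ v, Y (Y v) = 0) → (∀ v, ‖tr U v - v - Y v‖ ≤ K * σ * ‖v‖) → ‖U - 1‖ ≤ K' * σ := by
  obtain ⟨c, hc, hs⟩ := ccg8_pos s hp
  obtain ⟨A, hA⟩ : ∃ A, A = (K + 4 * ‖s‖ * n ^ 2 * K) / c := ⟨_, rfl⟩
  obtain ⟨B, hB⟩ : ∃ B, B = 2 * ‖s‖ * n * K ^ 2 / c := ⟨_, rfl⟩
  have hA0 : 0 ≤ A := by rw [hA]; positivity
  have hB0 : 0 ≤ B := by rw [hB]; positivity
  refine ⟨A + B + 1, by positivity, fun U Y σ h0 _ hU hi hY hE => ?_⟩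
  obtain ⟨W, rfl⟩ : ∃ W, U = W + 1 := ⟨U - 1, (sub_add_cancel U 1).symm⟩
  have e : tr (W + 1) - 1 = tr W := by
    have := (tr_basic (W + 1) 1).2.2.1
    rw [add_sub_cancel_right, (tr_basic W W).1] at this
    exact this.symm
  rw [add_sub_cancel_right] at hU ⊢
  have hq := ccg8_sq (W := W) (mul_nonneg hK h0) hY fun v => by
    rw [← e]
    exact hE v
  have hw := norm_nonneg W
  have hM : 0 ≤ A * σ * ‖W‖ + B * σ ^ 2 := by positivity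
  have key : ‖W‖ ≤ √(A * σ * ‖W‖ + B * σ ^ 2) := by
    refine ContinuousLinearMap.opNorm_le_bound _ (Real.sqrt_nonneg _) fun a => ?_
    have ha := norm_nonneg a
    have e1 : s (W a) (W a) = s ((W + 1) a) ((W + 1) (W a)) - s a (W a) -
        s ((W + 1) a) (W.comp W a) := by
      simp only [ContinuousLinearMap.add_apply, ContinuousLinearMap.one_apply, map_add,
        ContinuousLinearMap.comp_apply]
      ring
    have h1 : ‖(W + 1) a‖ ≤ 2 * ‖a‖ := by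
      have h1 := norm_add_le (W a) a
      have h2 := W.le_opNorm a
      have h3 := mul_le_mul_of_nonneg_right hU ha
      change ‖W a + a‖ ≤ _
      linarith
    have h2 : |s ((W + 1) a) (W.comp W a)| ≤
        ‖s‖ * (2 * ‖a‖) * (n * (2 * (n * ‖W‖ * (K * σ)) + (K * σ) ^ 2) * ‖a‖) := by
      refine (s.le_opNorm₂ _ _).trans ?_
      gcongr
      exact ((W.comp W).le_opNorm a).trans (mul_le_mul_of_nonneg_right hq ha)
    have h3 : K * σ * ‖a‖ * ‖W a‖ ≤ K * σ * ‖a‖ * (‖W‖ * ‖a‖) := by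
      gcongr
      exact W.le_opNorm a
    have h4 : c * ‖W a‖ ^ 2 ≤ c * ((A * σ * ‖W‖ + B * σ ^ 2) * ‖a‖ ^ 2) := by
      have e2 : c * ((A * σ * ‖W‖ + B * σ ^ 2) * ‖a‖ ^ 2) = K * σ * ‖a‖ * (‖W‖ * ‖a‖) +
          ‖s‖ * (2 * ‖a‖) * (n * (2 * (n * ‖W‖ * (K * σ)) + (K * σ) ^ 2) * ‖a‖) := by
        rw [hA, hB]
        field_simp
        ring
      have h5 := hs (W a)
      rw [e1] at h5
      linarith [(abs_le.1 (hi a (W a))).2, (abs_le.1 h2).1]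
    have h6 := le_of_mul_le_mul_left h4 hc
    refine abs_le_of_sq_le_sq' ?_ (by positivity) |>.2
    rwa [mul_pow, Real.sq_sqrt hM]
  have h7 := (Real.le_sqrt hw hM).1 key
  by_contra hn
  rw [not_le] at hn
  have h8 : σ ≤ ‖W‖ := by nlinarith
  have h9 : 0 < ‖W‖ := lt_of_le_of_lt (by positivity) hn
  have h10 := mul_lt_mul_of_pos_right hn h9
  have h11 := mul_le_mul_of_nonneg_left h8 (mul_nonneg hB0 h0)
  nlinarith [mul_nonneg h0 hw]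

theorem Loc.h_lip (l : Loc S) : ∃ K, 0 ≤ K ∧ ∀ x ∈ ball l.y1 (2 * l.ρ),
    ‖S.M.h x - S.M.h l.y1‖ ≤ K * ‖x - l.y1‖ := by
  have hρ := l.ρ_pos
  have hs : closedBall l.y1 (2 * l.ρ) ⊆ S.M.T := fun x hx =>
    S.G.mem (by linarith [S.G.r_pos]) (l.sub (closedBall_subset_ball (by linarith) hx))
  obtain ⟨K, hK⟩ := (S.M.h_closed.1.mono hs).exists_lipschitzOnWith (by simp)
    (convex_closedBall _ _) (isCompact_closedBall _ _)
  exact ⟨K, K.2, fun x hx => hK.norm_sub_le (ball_subset_closedBall hx)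
    (mem_closedBall_self (by linarith))⟩

theorem Gam.uni {l : Loc S} {D : LGrp} (Γ : Gam l D) : ∀ K : ℝ, 0 ≤ K → ∃ K', 0 ≤ K' ∧
    ∀ g (Y : E n →L[ℝ] E n), D.sz g ≤ 1 → (∀ v, Y (Y v) = 0) →
      (∀ v, ‖Γ.T g v - v - Y v‖ ≤ K * ‖Γ.u g‖ * ‖v‖) → D.sz g ≤ K' * ‖Γ.u g‖ := by
  intro K hK
  have hρ := l.ρ_pos
  have hr := S.G.r_pos
  have hL := S.G.lg.L_ge
  have hlam := Γ.lam_pos
  have hy : l.y1 ∈ ball l.y1 (4 * l.ρ) := mem_ball_self (by linarith)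
  obtain ⟨Kh, hKh, hh⟩ := l.h_lip
  let J : E n →L[ℝ] E n := (Complex.I • (1 : E n →L[ℂ] E n)).restrictScalars ℝ
  obtain ⟨K', hK', hu⟩ := uni_la ((S.M.h l.y1).bilinearComp (ContinuousLinearMap.id ℝ _) J)
    (fun v hv => S.M.h_pos _ (S.G.mem (by linarith) (l.sub hy)) v hv)
    (K := K + 4 * Kh) (by positivity)
  refine ⟨S.G.lg.L * (K' + 1) / Γ.lam, by positivity, fun g Y hg hY hE => ?_⟩
  obtain ⟨n1, n2, n3, -, -⟩ := Γ.near hg hy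
  have hσ := norm_nonneg (Γ.u g)
  have hb : ∀ a, ‖fderiv ℂ (Γ.γ g) l.y1 a‖ ≤ 2 * ‖a‖ := fun a => by
    have h1 := (fderiv ℂ (Γ.γ g) l.y1 - 1).le_opNorm a
    have h2 := norm_add_le (fderiv ℂ (Γ.γ g) l.y1 a - a) a
    have h3 := mul_le_mul_of_nonneg_right (n3.trans hg) (norm_nonneg a)
    rw [sub_add_cancel] at h2
    change ‖fderiv ℂ (Γ.γ g) l.y1 a - a‖ ≤ _ at h1
    linarith
  have h1 := hu (fderiv ℂ (Γ.γ g) l.y1) Y ‖Γ.u g‖ hσ (n2.trans hg) (n3.trans hg)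
    (fun a b => ?_) hY fun v => (hE v).trans (by gcongr; linarith)
  · have h2 := S.G.cmp (Γ.j g) S.G.lg.one S.G.y0 (mem_ball_self (by linarith)) l.y1
      (ball_subset_ball (by linarith) (l.sub hy))
    have e1 : jet (S.G.γ S.G.lg.one) l.y1 = (l.y1, 1) := by
      rw [show S.G.γ S.G.lg.one = id from funext S.G.γ_one, jet, fderiv_id]
      rfl
    have h3 : ‖jet (S.G.γ (Γ.j g)) l.y1 - (l.y1, 1)‖ ≤ (K' + 1) * ‖Γ.u g‖ := by
      refine max_le (?_ : ‖Γ.u g‖ ≤ _) (h1.trans ?_) <;> nlinarith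
    rw [← S.G.jt_eq, ← S.G.jt_eq, e1] at h2
    have h4 : Γ.lam * D.sz g ≤ S.G.lg.L * ((K' + 1) * ‖Γ.u g‖) :=
      (Γ.sz_eq g).symm.le.trans (h2.trans (mul_le_mul_of_nonneg_left h3 (by linarith)))
    rw [div_mul_eq_mul_div, le_div_iff₀ hlam]
    linarith
  · have e1 := S.M.iso _ _ (Γ.ret g) l.y1 hy a (Complex.I • b)
    have h2 := hh (Γ.γ g l.y1) (by
      rw [mem_ball, dist_eq_norm]
      nlinarith [D.sz_nonneg g])
    have h3 := (S.M.h (Γ.γ g l.y1) - S.M.h l.y1).le_opNorm₂ (fderiv ℂ (Γ.γ g) l.y1 a)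
      (fderiv ℂ (Γ.γ g) l.y1 (Complex.I • b))
    have h4 := hb (Complex.I • b)
    rw [norm_smul, Complex.norm_I, _root_.one_mul] at h4
    have e2 : (S.M.h (Γ.γ g l.y1) - S.M.h l.y1) (fderiv ℂ (Γ.γ g) l.y1 a)
        (fderiv ℂ (Γ.γ g) l.y1 (Complex.I • b)) = S.M.h l.y1 a (Complex.I • b) -
          S.M.h l.y1 (fderiv ℂ (Γ.γ g) l.y1 a) (Complex.I • fderiv ℂ (Γ.γ g) l.y1 b) := by
      rw [← e1, ← map_smul]
      rfl
    rw [e2, Real.norm_eq_abs, abs_sub_comm] at h3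
    refine le_trans h3 ?_
    calc _ ≤ Kh * ‖Γ.u g‖ * (2 * ‖a‖) * (2 * ‖b‖) := by
          gcongr
          · exact h2
          · exact hb a
      _ = 4 * Kh * ‖Γ.u g‖ * ‖a‖ * ‖b‖ := by ring
      _ ≤ _ := by gcongr; linarith

end Pool.Agent.CL
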