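import Pool.Agent.P.MP_63735c_ag.CCH1
import Pool.Agent.P.MP_63735c_ag.CCG8

/-! The cocycle of the semipositive form. -/

open scoped ContDiff Matrix
open Set Metric MeasureTheory Filter Topology

namespace Pool.Agent.CL

open Pool.Agent.SPF LGrp

variable {n : ℕ} {X : Type} [TopologicalSpace X] [T2Space X] [MeasurableSpace X]
  {S : Setup n X}

theorem cch4_apply (h : Form2 (E n)) (p u v : P n) : base h p u v = h p.1 u.1 v.1 := rfl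

theorem cch4_fd {F : Type} [NormedAddCommGroup F] [NormedSpace ℝ F] {t : Form2 F} {x : F}
    (hd : DifferentiableAt ℝ t x) (u v w : F) :
    fderiv ℝ (fun y => t y v w) x u = fderiv ℝ t x u v w := by
  rw [((hd.hasFDerivAt.clm_apply (hasFDerivAt_const v x)).clm_apply (hasFDerivAt_const w x)).fderiv]
  simp

theorem base_closed {T : Set (E n)} (hT : IsOpen T) {h : Form2 (E n)} (hc : Closed2 T h) :
    Closed2 (T ×ˢ univ) (base h) := by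
  have h0 : ContDiffOn ℝ ∞ (fun p : P n => h p.1) (T ×ˢ univ) :=
    hc.1.comp contDiffOn_fst fun p hp => hp.1
  have h1 : ContDiffOn ℝ ∞ (base h) (T ×ˢ univ) :=
    contDiffOn_clm_apply.2 fun u => contDiffOn_clm_apply.2 fun v =>
      (h0.clm_apply (contDiffOn_const (c := u.1))).clm_apply (contDiffOn_const (c := v.1))
  refine ⟨h1, fun p hp u v => hc.2.1 p.1 hp.1 u.1 v.1, fun p hp u v w => ?_⟩
  have hd : DifferentiableAt ℝ h p.1 :=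
    (hc.1.contDiffAt (hT.mem_nhds hp.1)).differentiableAt (by simp)
  have hb : DifferentiableAt ℝ (base h) p :=
    (h1.contDiffAt ((hT.prod isOpen_univ).mem_nhds hp)).differentiableAt (by simp)
  have e : ∀ u v w : P n, fderiv ℝ (base h) p u v w = fderiv ℝ h p.1 u.1 v.1 w.1 := fun u v w => by
    have h2 : DifferentiableAt ℝ (fun y => h y v.1 w.1) p.1 :=
      (hd.clm_apply (differentiableAt_const _)).clm_apply (differentiableAt_const _)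
    have h3 : HasFDerivAt (fun q : P n => base h q v w) ((fderiv ℝ (fun y => h y v.1 w.1) p.1).comp
        (ContinuousLinearMap.fst ℝ (E n) (E n))) p :=
      HasFDerivAt.comp p (f := Prod.fst) h2.hasFDerivAt hasFDerivAt_fst
    rw [← cch4_fd hb, h3.fderiv, ← cch4_fd hd]
    rfl
  rw [e, e, e]
  exact hc.2.2 p.1 hp.1 u.1 v.1 w.1

theorem Model.base_inv (M : Model n X) {O : Set (E n)} {g : Ret n} (hg : IsRet M.T M.Ψ O g) :
    Inv (base M.h) O g := by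
  intro p hp u v
  rw [cch4_apply, cch4_apply, hg.smooth.2.2.2 p hp u, hg.smooth.2.2.2 p hp v]
  exact M.iso O g hg p.1 hp u.1 v.1

theorem cch4_int {f : ℝ → ℝ} (hf : ContinuousOn f (Icc 0 1)) {H C : ℝ}
    (h : ∀ s ∈ Icc (0 : ℝ) 1, |f s - H| ≤ C) : |(∫ s in (0 : ℝ)..1, f s) - H| ≤ C := by
  have h1 := intervalIntegral.norm_integral_le_of_norm_le_const (a := 0) (b := 1) (C := C)
    (f := fun s => f s - H) fun s hs => by
      rw [uIoc_of_le zero_le_one] at hs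
      exact h s (Ioc_subset_Icc_self hs)
  rw [intervalIntegral.integral_sub (clprim_int hf) intervalIntegrable_const] at h1
  simpa using h1

theorem cch4_int2 {f : ℝ → ℝ} (hf : ContinuousOn f (Icc 0 1)) {H C : ℝ}
    (h : ∀ s ∈ Icc (0 : ℝ) 1, |f s - H| ≤ C) : |(∫ s in (0 : ℝ)..1, s * f s) - H / 2| ≤ C := by
  have h1 := intervalIntegral.norm_integral_le_of_norm_le_const (a := 0) (b := 1) (C := C)
    (f := fun s => s * f s - s * H) fun s hs => by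
      rw [uIoc_of_le zero_le_one] at hs
      have h2 := h s (Ioc_subset_Icc_self hs)
      rw [← mul_sub, Real.norm_eq_abs, abs_mul, abs_of_pos hs.1]
      nlinarith [hs.1, hs.2, abs_nonneg (f s - H)]
  rw [intervalIntegral.integral_sub (f := fun s => s * f s) (clprim_int (continuousOn_id.mul hf))
    (clprim_int (by fun_prop)), intervalIntegral.integral_mul_const, integral_id] at h1
  simpa [div_eq_inv_mul] using h1

theorem cch4_alg (H B : E n →L[ℝ] E n →L[ℝ] ℝ) {ug uh e1 e2 : E n} {a b s K : ℝ} (ha : a ≤ 1)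
    (hK : 0 ≤ K) (hs : s ∈ Icc (0 : ℝ) 1) (h0 : H uh uh = 0) (h1 : ‖ug‖ ≤ a) (h2 : ‖uh‖ ≤ b)
    (h3 : ‖e1‖ ≤ a * b) (h4 : ‖e2‖ ≤ a * b) (h5 : ‖ug + s • uh + e1‖ ≤ a + b)
    (h6 : ‖B - H‖ ≤ K * (a + b)) :
    |B (ug + s • uh + e1) (uh + e2) - H ug uh| ≤ (2 * K + 3 * ‖H‖) * (a + b) ^ 3 := by
  have a0 : 0 ≤ a := (norm_nonneg _).trans h1
  have b0 : 0 ≤ b := (norm_nonneg _).trans h2
  have h7 : ‖uh + e2‖ ≤ 2 * (a + b) := (norm_add_le _ _).trans (by nlinarith)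
  have e : B (ug + s • uh + e1) (uh + e2) - H ug uh = (B - H) (ug + s • uh + e1) (uh + e2) +
      (H (ug + s • uh) e2 + H e1 (uh + e2)) := by
    simp only [map_add, map_smul, _root_.sub_apply, _root_.add_apply, _root_.smul_apply, h0,
      smul_eq_mul]
    ring
  have h8 : ‖ug + s • uh‖ ≤ a + b := (norm_add_le _ _).trans (by
    rw [norm_smul, Real.norm_eq_abs, abs_of_nonneg hs.1]
    nlinarith [hs.1, hs.2, norm_nonneg uh])
  have t1 : |(B - H) (ug + s • uh + e1) (uh + e2)| ≤ K * (a + b) * (a + b) * (2 * (a + b)) :=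
    ((B - H).le_opNorm₂ _ _).trans (by gcongr)
  have t2 : |H (ug + s • uh) e2| ≤ ‖H‖ * (a + b) * (a * b) := (H.le_opNorm₂ _ _).trans (by gcongr)
  have t3 : |H e1 (uh + e2)| ≤ ‖H‖ * (a * b) * (2 * (a + b)) := (H.le_opNorm₂ _ _).trans (by gcongr)
  have t4 : ‖H‖ * (a + b) * (a * b) ≤ ‖H‖ * (a + b) * (a + b) ^ 2 := by gcongr; nlinarith
  rw [e]
  have := abs_add_le ((B - H) (ug + s • uh + e1) (uh + e2)) (H (ug + s • uh) e2 + H e1 (uh + e2))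
  have := abs_add_le (H (ug + s • uh) e2) (H e1 (uh + e2))
  nlinarith

namespace Gam

variable {l : Loc S} {D : LGrp} (Γ : Gam l D)

theorem cch4_sm {s : ℝ} (hs : s ∈ Icc (0 : ℝ) 1) (v : E n) : ‖s • v‖ ≤ ‖v‖ := by
  rw [norm_smul, Real.norm_eq_abs, abs_of_nonneg hs.1]
  nlinarith [hs.1, hs.2, norm_nonneg v]

theorem cch4_u {h : D.G} (hh : D.sz h ≤ 1) : ‖Γ.u h‖ ≤ l.ρ / 16 ∧ ‖Γ.u h‖ ≤ D.sz h := by
  have ρ0 := l.ρ_pos
  obtain ⟨n1, n2, -⟩ := Γ.near hh (mem_ball_self (by positivity))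
  exact ⟨n1.trans (by nlinarith), n2⟩

theorem cch4_mem {h : D.G} (hh : D.sz h ≤ 1) {s : ℝ} (hs : s ∈ Icc (0 : ℝ) 1) :
    l.y1 + s • Γ.u h ∈ ball l.y1 (4 * l.ρ) := by
  rw [mem_ball_iff_norm, add_sub_cancel_left]
  linarith [cch4_sm hs (Γ.u h), (Γ.cch4_u hh).1, l.ρ_pos]

theorem cch4_pt {K : ℝ} (hK : 0 ≤ K) (hl : ∀ x ∈ ball l.y1 (2 * l.ρ),
    ‖S.M.h x - S.M.h l.y1‖ ≤ K * ‖x - l.y1‖) {g h : D.G} (hg : D.sz g ≤ 1) (hh : D.sz h ≤ 1)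
    {s : ℝ} (hs1 : s ∈ Icc (0 : ℝ) 1) {x : E n} (hx : x = l.y1 + s • Γ.u h) :
    |(∫ τ in (0 : ℝ)..1, τ * S.M.h (l.y1 + τ • (Γ.γ g x - l.y1)) (Γ.γ g x - l.y1)
      (fderiv ℂ (Γ.γ g) x (Γ.u h))) - S.M.h l.y1 (Γ.u g) (Γ.u h) / 2| ≤
      (2 * K + 3 * ‖S.M.h l.y1‖) * (D.sz g + D.sz h) ^ 3 := by
  have ρ0 := l.ρ_pos
  have a0 := D.sz_nonneg g
  have y0 : l.y1 ∈ ball l.y1 (4 * l.ρ) := mem_ball_self (by positivity)
  have hT : ∀ x ∈ ball l.y1 (4 * l.ρ), x ∈ S.M.T := fun x hx => (Γ.ret g).sub hx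
  obtain ⟨u1, n3⟩ := Γ.cch4_u hh
  have su := cch4_sm hs1 (Γ.u h)
  have hxm : x ∈ ball l.y1 (4 * l.ρ) := hx ▸ Γ.cch4_mem hh hs1
  obtain ⟨m1, m2, m3, -⟩ := Γ.near hg hxm
  have hγ : DifferentiableOn ℂ (Γ.γ g) (ball l.y1 (4 * l.ρ)) := (Γ.ret g).γ_hol
  have mv : ‖(Γ.γ g x - x) - (Γ.γ g l.y1 - l.y1)‖ ≤ D.sz g * ‖x - l.y1‖ :=
    (convex_ball l.y1 (4 * l.ρ)).norm_image_sub_le_of_norm_hasFDerivWithin_le (𝕜 := ℂ)
      (f := fun y => Γ.γ g y - y) (f' := fun y => fderiv ℂ (Γ.γ g) y - 1)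
      (fun y hy => ((hγ.differentiableAt (isOpen_ball.mem_nhds hy)).hasFDerivAt.sub
        (hasFDerivAt_id y)).hasFDerivWithinAt)
      (fun y hy => (Γ.near hg hy).2.2.1) y0 hxm
  have xy : x - l.y1 = s • Γ.u h := by rw [hx, add_sub_cancel_left]
  have ew : Γ.γ g x - l.y1 = Γ.u g + s • Γ.u h + ((Γ.γ g x - x) - (Γ.γ g l.y1 - l.y1)) := by
    rw [← xy, Gam.u]
    abel
  have ew' : fderiv ℂ (Γ.γ g) x (Γ.u h) = Γ.u h + (fderiv ℂ (Γ.γ g) x - 1) (Γ.u h) := by simp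
  have w0 : Γ.γ g x - l.y1 = (Γ.γ g x - x) + s • Γ.u h := by
    rw [← xy]
    abel
  have w1 : ‖Γ.γ g x - l.y1‖ ≤ D.sz g + D.sz h := by
    rw [w0]
    exact (norm_add_le _ _).trans (by linarith)
  have w2 : ‖Γ.γ g x - l.y1‖ < 2 * l.ρ := by
    rw [w0]
    exact (norm_add_le _ _).trans_lt (by nlinarith)
  have e2 : ‖(fderiv ℂ (Γ.γ g) x - 1) (Γ.u h)‖ ≤ D.sz g * D.sz h :=
    ((fderiv ℂ (Γ.γ g) x - 1).le_opNorm _).trans (mul_le_mul m3 n3 (norm_nonneg _) a0)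
  have e1 : ‖(Γ.γ g x - x) - (Γ.γ g l.y1 - l.y1)‖ ≤ D.sz g * D.sz h := by
    rw [xy] at mv
    exact mv.trans (mul_le_mul_of_nonneg_left (su.trans n3) a0)
  have h0 : S.M.h l.y1 (Γ.u h) (Γ.u h) = 0 := by
    have := S.M.h_closed.2.1 _ (hT _ y0) (Γ.u h) (Γ.u h)
    linarith
  rw [ew']
  generalize (fderiv ℂ (Γ.γ g) x - 1) (Γ.u h) = f2 at e2
  generalize (Γ.γ g x - x) - (Γ.γ g l.y1 - l.y1) = f1 at e1 ew
  generalize Γ.γ g x - l.y1 = w at ew w1 w2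
  have tm : ∀ τ ∈ Icc (0 : ℝ) 1, l.y1 + τ • w ∈ ball l.y1 (2 * l.ρ) := fun τ hτ => by
    rw [mem_ball_iff_norm, add_sub_cancel_left]
    linarith [cch4_sm hτ w]
  refine cch4_int2 (f := fun τ => S.M.h (l.y1 + τ • w) w (Γ.u h + f2)) ?_ fun τ hτ => ?_
  · exact ((S.M.h_closed.1.continuousOn.comp (f := fun τ : ℝ => l.y1 + τ • w)
      (by fun_prop) fun τ hτ => hT _ (ball_subset_ball (by linarith) (tm τ hτ))).clm_apply
        continuousOn_const).clm_apply continuousOn_const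
  · have h6 := hl _ (tm τ hτ)
    rw [add_sub_cancel_left] at h6
    have h7 := h6.trans (mul_le_mul_of_nonneg_left ((cch4_sm hτ w).trans w1) hK)
    generalize S.M.h (l.y1 + τ • w) = B at h7 ⊢
    rw [ew] at w1 ⊢
    exact cch4_alg _ B hg hK hs1 h0 (Γ.cch4_u hg).2 n3 e1 e2 w1 h7

theorem kap_base : ∃ C, 0 ≤ C ∧ ∀ g h, D.sz g ≤ 1 → D.sz h ≤ 1 →
    |Γ.kap (rad (base S.M.h) l.o) g h - S.M.h l.y1 (Γ.u g) (Γ.u h) / 2| ≤
      C * (D.sz g + D.sz h) ^ 3 := by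
  obtain ⟨K, hK, hl⟩ := l.h_lip
  refine ⟨2 * K + 3 * ‖S.M.h l.y1‖, by positivity, fun g h hg hh => ?_⟩
  have ρ0 := l.ρ_pos
  have hc := base_closed S.M.T_open S.M.h_closed
  have hW : IsOpen (S.M.T ×ˢ (univ : Set (E n))) := S.M.T_open.prod isOpen_univ
  have hcv : Convex ℝ (S.M.T ×ˢ (univ : Set (E n))) := S.M.T_conv.prod convex_univ
  have hr : IsRet S.M.T S.M.Ψ (ball l.y1 (4 * l.ρ)) (Γ.rt g) := Γ.ret g
  have ho : l.o ∈ S.M.T ×ˢ (univ : Set (E n)) := ⟨hr.sub (mem_ball_self (by positivity)), trivial⟩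
  have hp : (Γ.pt h).1 ∈ ball l.y1 (4 * l.ρ) := by
    have := Γ.cch4_mem hh ⟨zero_le_one, le_rfl⟩
    rwa [one_smul, Gam.u, add_sub_cancel] at this
  have hs := hr.smooth
  have cv : Curve (ball l.y1 (4 * l.ρ) ×ˢ univ) (seg l.o (Γ.pt h)) := fun s hs =>
    ⟨by unfold seg; fun_prop, Γ.cch4_mem hh hs, trivial⟩
  have cv2 := curve_comp (cldg_open hr) hs.1 hs.2.1 cv
  rw [Gam.kap, Γ.kap_line hc (fun k => S.M.base_inv (Γ.ret k)) g hp]
  refine cch4_int (clprim_cont (rad_prim hW hcv hc ho).1.continuousOn cv2) fun s hs1 => ?_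
  have hd : HasDerivAt (fun s => (Γ.rt g).act (seg l.o (Γ.pt h) s))
      (fderiv ℝ (Γ.rt g).act (seg l.o (Γ.pt h) s) (Γ.pt h - l.o)) s :=
    HasFDerivAt.comp_hasDerivAt s (f := seg l.o (Γ.pt h))
      ((hs.1.contDiffAt ((cldg_open hr).mem_nhds (cv s hs1).2)).differentiableAt
        (by simp)).hasFDerivAt (clstokes_seg _ _ s)
  have d1 : (fderiv ℝ (Γ.rt g).act (seg l.o (Γ.pt h) s) (Γ.pt h - l.o)).1 =
      fderiv ℂ (Γ.γ g) (l.y1 + s • Γ.u h) (Γ.u h) :=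
    congrArg Prod.fst (hs.2.2.2 _ (cv s hs1).2.1 _)
  have d2 : ((Γ.rt g).act (seg l.o (Γ.pt h) s)).1 = Γ.γ g (l.y1 + s • Γ.u h) := rfl
  rw [hd.deriv, rad_apply hcv hc ho (cv2 s hs1).2]
  simp only [cch4_apply, d1, Prod.fst_add, Prod.smul_fst, Prod.fst_sub, d2]
  exact Γ.cch4_pt hK hl hg hh hs1 rfl

theorem eta : ∃ C, 0 ≤ C ∧ ∀ g h, D.sz g ≤ 1 → D.sz h ≤ 1 → g * h = h * g →
    ∃ k : ℤ, |(k : ℝ) - S.M.h l.y1 (Γ.u g) (Γ.u h)| ≤ C * (D.sz g + D.sz h) ^ 3 := by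
  obtain ⟨C, hC, hk⟩ := Γ.kap_base
  have y0 : l.y1 ∈ S.M.T := (Γ.ret 1).sub (mem_ball_self (by linarith [l.ρ_pos]))
  obtain ⟨ν, hν⟩ := Γ.kap_int (rad_prim (S.M.T_open.prod isOpen_univ)
    (S.M.T_conv.prod convex_univ) (base_closed S.M.T_open S.M.h_closed) (o := l.o)
      ⟨y0, trivial⟩) S.M.h_int
  refine ⟨2 * C, by positivity, fun g h hg hh e => ?_⟩
  obtain ⟨k1, e1⟩ := hν g h hg hh
  obtain ⟨k2, e2⟩ := hν h g hh hg
  have h1 := abs_le.1 (hk g h hg hh)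
  have h2 := abs_le.1 (hk h g hh hg)
  have h3 := S.M.h_closed.2.1 _ y0 (Γ.u h) (Γ.u g)
  rw [add_comm (D.sz h)] at h2
  rw [← e] at e2
  refine ⟨k1 - k2, abs_le.2 ⟨?_, ?_⟩⟩ <;> push_cast <;> linarith [h1.1, h1.2, h2.1, h2.2]

end Gam

end Pool.Agent.CL
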