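import Pool.Agent.P.MP_63735c_ag.CLMV0
import Pool.Agent.P.MP_63735c_ag.CLHol

/-! Mean value inequalities in several variables. -/

open scoped ContDiff Matrix ENNReal
open Set Metric MeasureTheory Filter Topology

namespace Pool.Agent.CL

open Pool.Agent.SPF

variable (V : Type) [NormedAddCommGroup V] [NormedSpace ℝ V] [NormedSpace ℂ V]
  [IsScalarTower ℝ ℂ V] [FiniteDimensional ℂ V] [MeasurableSpace V] [BorelSpace V]

/-- the annulus -/
def clmv_A : Set ℂ := closedBall 0 (3 / 4) \ ball 0 (1 / 2)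

theorem clmv_A_meas : MeasurableSet clmv_A := measurableSet_closedBall.diff measurableSet_ball

theorem clmv_A_pos : volume clmv_A ≠ 0 := by
  refine ((measure_ball_pos volume (5 / 8 : ℂ) (by norm_num : (0 : ℝ) < 1 / 8)).trans_le
    (measure_mono fun t ht => ?_)).ne'
  rw [mem_ball, dist_eq_norm] at ht
  have h1 : ‖(5 / 8 : ℂ)‖ = 5 / 8 := by simp
  have h2 := abs_lt.1 ((abs_norm_sub_norm_le t (5 / 8)).trans_lt ht)
  rw [h1] at h2
  refine ⟨mem_closedBall_zero_iff.2 (by linarith [h2.2]), fun h => ?_⟩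
  have := mem_ball_zero_iff.1 h
  linarith [h2.1]

omit [MeasurableSpace V] [BorelSpace V] in
theorem clmv_line : ∃ a C : ℝ≥0∞, a ≠ 0 ∧ a ≠ ⊤ ∧ C ≠ ⊤ ∧
    ∀ (x u : V) (R : ℝ) (U : V → ℝ) (g : V → ℝ≥0∞), ‖u‖ < R → ContDiffOn ℝ 2 U (ball x (2 * R)) →
      (∀ y ∈ ball x (2 * R), 0 ≤ U y) → (∀ y ∈ ball x R, ENNReal.ofReal (Lv U y u) ≤ g y) →
      a * ∫⁻ t in clmv_A, ENNReal.ofReal (U (x + t • u)) ≤ ENNReal.ofReal (U x) +
        C * ∫⁻ s in Ioc (0 : ℝ) 1, ∫⁻ t in ball (0 : ℂ) 1, g (x + (s • t) • u) := by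
  obtain ⟨w, hw, h0, h1, -, ⟨c, hc, hcw⟩, C, hC, H⟩ := mv_plane
  refine ⟨ENNReal.ofReal c, C, (ENNReal.ofReal_pos.2 hc).ne', ENNReal.ofReal_ne_top, hC, ?_⟩
  intro x u R U g hu hU hU0 hg
  have hR : 0 < R := (norm_nonneg u).trans_lt hu
  have hin : ∀ (r : ℝ) (t : ℂ), ‖t‖ < r → x + t • u ∈ ball x (r * R) := fun r t ht => by
    rw [mem_ball, dist_eq_norm, add_sub_cancel_left, norm_smul]
    exact mul_lt_mul'' ht hu (norm_nonneg _) (norm_nonneg _)
  have hl : ContDiff ℝ 2 fun t : ℂ => x + t • u :=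
    contDiff_const.add (((ContinuousLinearMap.id ℂ ℂ).smulRight u).restrictScalars ℝ).contDiff
  have hh : ContDiffOn ℝ 2 (fun t : ℂ => U (x + t • u)) (ball 0 2) :=
    hU.comp hl.contDiffOn fun t ht => hin 2 t (mem_ball_zero_iff.1 ht)
  have key := H (fun t => U (x + t • u)) (fun t => g (x + t • u)) hh fun t ht => by
    have ht' := mem_ball_zero_iff.1 ht
    have hd : ∀ y : ℂ, HasFDerivAt (fun t : ℂ => x + t • u)
        ((ContinuousLinearMap.id ℂ ℂ).smulRight u) y := fun y =>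
      ((ContinuousLinearMap.id ℂ ℂ).smulRight u).hasFDerivAt.const_add x
    rw [Lv_comp (g := fun t : ℂ => x + t • u)
      (hU.contDiffAt (isOpen_ball.mem_nhds (hin 2 t (by linarith))))
      (Eventually.of_forall fun y => (hd y).differentiableAt), (hd t).fderiv]
    have h2 := hg _ (one_mul R ▸ hin 1 t ht')
    simpa using h2
  have hz : ∀ t : ℂ, t ∉ ball (0 : ℂ) 1 → U (x + t • u) * w t = 0 := fun t ht => by
    rw [h1 t (not_lt.1 fun h => ht (mem_ball_zero_iff.2 h)), mul_zero]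
  have hnn : ∀ t : ℂ, 0 ≤ U (x + t • u) * w t := fun t => by
    by_cases ht : t ∈ ball (0 : ℂ) 1
    · exact mul_nonneg (hU0 _ (hin 2 t (by linarith [mem_ball_zero_iff.1 ht]))) (h0 t)
    · exact (hz t ht).ge
  have hint : Integrable fun t : ℂ => U (x + t • u) * w t := by
    refine IntegrableOn.integrable_of_forall_notMem_eq_zero (s := closedBall (0 : ℂ) 1)
      (ContinuousOn.integrableOn_compact (isCompact_closedBall 0 1) ?_)
      fun t ht => hz t fun h => ht (ball_subset_closedBall h)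
    exact (hh.continuousOn.mono (closedBall_subset_ball (by norm_num))).mul
      hw.continuous.continuousOn
  calc ENNReal.ofReal c * ∫⁻ t in clmv_A, ENNReal.ofReal (U (x + t • u))
      = ∫⁻ t in clmv_A, ENNReal.ofReal c * ENNReal.ofReal (U (x + t • u)) :=
        (lintegral_const_mul' _ _ ENNReal.ofReal_ne_top).symm
    _ ≤ ∫⁻ t in clmv_A, ENNReal.ofReal (U (x + t • u) * w t) := by
        refine setLIntegral_mono' clmv_A_meas fun t ht => ?_
        have ht' := mem_closedBall_zero_iff.1 ht.1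
        rw [← ENNReal.ofReal_mul hc.le, mul_comm]
        exact ENNReal.ofReal_le_ofReal
          (mul_le_mul_of_nonneg_left (hcw t ht') (hU0 _ (hin 2 t (by linarith))))
    _ ≤ ∫⁻ t, ENNReal.ofReal (U (x + t • u) * w t) := setLIntegral_le_lintegral _ _
    _ = ENNReal.ofReal (∫ t, U (x + t • u) * w t) :=
        (ofReal_integral_eq_lintegral_ofReal hint (Eventually.of_forall hnn)).symm
    _ ≤ ENNReal.ofReal (U x) + ENNReal.ofReal ((∫ t, U (x + t • u) * w t) - U x) := by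
        refine le_trans (le_of_eq ?_) ENNReal.ofReal_add_le
        rw [add_sub_cancel]
    _ ≤ _ := by
        refine add_le_add le_rfl ?_
        simpa only [zero_smul, add_zero] using key

omit [NormedSpace ℝ V] [IsScalarTower ℝ ℂ V] in
theorem clmv_scale (μ : Measure V) [μ.IsAddHaarMeasure] (x : V) (R : ℝ) {t : ℂ}
    (ht : t ∈ clmv_A) (F : V → ℝ≥0∞) :
    ∫⁻ y in ball x (R / 2), F y ∂μ ≤ ∫⁻ u in ball 0 R, F (x + t • u) ∂μ := by
  have := FiniteDimensional.proper ℂ V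
  have h1 : ‖t‖ ≤ 3 / 4 := mem_closedBall_zero_iff.1 ht.1
  have h2 : 1 / 2 ≤ ‖t‖ := not_lt.1 fun h => ht.2 (mem_ball_zero_iff.2 h)
  have h0 : t ≠ 0 := norm_pos_iff.1 (by linarith)
  let L : V ≃L[ℂ] V := (LinearEquiv.smulOfNeZero ℂ V t h0).toContinuousLinearEquiv
  have hL : ∀ u, L u = t • u := fun u => rfl
  have hm : MeasurableEmbedding L := L.toHomeomorph.measurableEmbedding
  have : (μ.map L).IsAddHaarMeasure := L.isAddHaarMeasure_map μ
  have hle : μ ≤ μ.map L := by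
    have e := Measure.isAddLeftInvariant_eq_smul (μ.map L) μ
    have b : μ (ball 0 1) ≤ μ.map L (ball 0 1) := by
      rw [hm.map_apply]
      refine measure_mono fun u hu => ?_
      have := mem_ball_zero_iff.1 hu
      rw [mem_preimage, mem_ball_zero_iff, hL, norm_smul]
      nlinarith [norm_nonneg u]
    rw [e, Measure.smul_apply, ENNReal.smul_def, smul_eq_mul] at b
    have b1 : (1 : ℝ≥0∞) ≤ Measure.addHaarScalarFactor (μ.map L) μ := by
      rw [← ENNReal.mul_le_mul_iff_left (measure_ball_pos μ 0 one_pos).ne' measure_ball_lt_top.ne,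
        one_mul]
      exact b
    rw [e]
    intro s
    rw [Measure.smul_apply, ENNReal.smul_def, smul_eq_mul]
    exact le_mul_of_one_le_left' b1
  calc ∫⁻ y in ball x (R / 2), F y ∂μ = ∫⁻ v in ball 0 (R / 2), F (x + v) ∂μ := by
        rw [← (measurePreserving_add_left μ x).setLIntegral_comp_preimage_emb
          (measurableEmbedding_addLeft x)]
        simp
    _ ≤ ∫⁻ v in ball 0 (R / 2), F (x + v) ∂(μ.map L) :=
        lintegral_mono' (Measure.restrict_mono subset_rfl hle) le_rfl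
    _ = ∫⁻ u in L ⁻¹' ball 0 (R / 2), F (x + L u) ∂μ :=
        ((MeasurePreserving.mk hm.measurable rfl).setLIntegral_comp_preimage_emb hm
          (fun v => F (x + v)) _).symm
    _ ≤ _ := by
        refine lintegral_mono_set fun u hu => ?_
        rw [mem_preimage, mem_ball_zero_iff, hL, norm_smul] at hu
        rw [mem_ball_zero_iff]
        nlinarith [norm_nonneg u]

/-- the parameter measure -/
noncomputable def clmv_nu (μ : Measure V) (R : ℝ) : Measure (V × ℝ × ℂ) :=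
  (μ.restrict (ball 0 R)).prod
    ((volume.restrict (Ioc (0 : ℝ) 1)).prod (volume.restrict (ball (0 : ℂ) 1)))

omit [NormedSpace ℝ V] [NormedSpace ℂ V] [IsScalarTower ℝ ℂ V] [FiniteDimensional ℂ V]
  [BorelSpace V] in
theorem clmv_nu_univ (μ : Measure V) (R : ℝ) :
    clmv_nu V μ R univ = μ (ball 0 R) * volume (ball (0 : ℂ) 1) := by
  rw [clmv_nu, ← univ_prod_univ, Measure.prod_prod, ← univ_prod_univ, Measure.prod_prod]
  simp only [Measure.restrict_apply_univ, Real.volume_Ioc, sub_zero, ENNReal.ofReal_one, one_mul]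

theorem clmv_core : ∃ a C : ℝ≥0∞, a ≠ 0 ∧ C ≠ ⊤ ∧
    ∀ (μ : Measure V) [μ.IsAddHaarMeasure] (x : V) (R : ℝ) (U : V → ℝ) (g : V → ℝ≥0∞),
      Measurable g → ContDiffOn ℝ 2 U (ball x (2 * R)) → (∀ y ∈ ball x (2 * R), 0 ≤ U y) →
      (∀ y ∈ ball x R, ∀ u, ‖u‖ < R → ENNReal.ofReal (Lv U y u) ≤ g y) →
      a * ∫⁻ y in ball x (R / 2), ENNReal.ofReal (U y) ∂μ ≤
        μ (ball 0 R) * ENNReal.ofReal (U x) +
          C * ∫⁻ p, g (x + (p.2.1 • p.2.2) • p.1) ∂(clmv_nu V μ R) := by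
  have := FiniteDimensional.proper ℂ V
  obtain ⟨a, C, ha, ha', hC, H⟩ := clmv_line V
  refine ⟨a * volume clmv_A, C, mul_ne_zero ha clmv_A_pos, hC, ?_⟩
  intro μ _ x R U g hg hU hU0 hL
  have hm : Measurable fun p : V × ℝ × ℂ => g (x + (p.2.1 • p.2.2) • p.1) :=
    hg.comp (by fun_prop : Continuous fun p : V × ℝ × ℂ => x + (p.2.1 • p.2.2) • p.1).measurable
  have hc : ContinuousOn (fun p : ℂ × V => ENNReal.ofReal (U (x + p.1 • p.2)))
      (clmv_A ×ˢ ball 0 R) := by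
    refine ENNReal.continuous_ofReal.comp_continuousOn
      (hU.continuousOn.comp (by fun_prop) fun p hp => ?_)
    have b1 := mem_closedBall_zero_iff.1 hp.1.1
    have b2 := mem_ball_zero_iff.1 hp.2
    rw [mem_ball, dist_eq_norm, add_sub_cancel_left, norm_smul]
    nlinarith [norm_nonneg p.1, norm_nonneg p.2]
  calc a * volume clmv_A * ∫⁻ y in ball x (R / 2), ENNReal.ofReal (U y) ∂μ
      = a * ∫⁻ _ in clmv_A, ∫⁻ y in ball x (R / 2), ENNReal.ofReal (U y) ∂μ := by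
        rw [setLIntegral_const, mul_assoc, mul_comm (volume clmv_A)]
    _ ≤ a * ∫⁻ t in clmv_A, ∫⁻ u in ball 0 R, ENNReal.ofReal (U (x + t • u)) ∂μ :=
        mul_le_mul_right (setLIntegral_mono' clmv_A_meas fun t ht =>
          clmv_scale V μ x R ht fun y => ENNReal.ofReal (U y)) a
    _ = a * ∫⁻ u in ball 0 R, (∫⁻ t in clmv_A, ENNReal.ofReal (U (x + t • u))) ∂μ := by
        rw [lintegral_lintegral_swap]
        rw [Measure.prod_restrict]
        exact hc.aemeasurable (clmv_A_meas.prod measurableSet_ball)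
    _ = ∫⁻ u in ball 0 R, (a * ∫⁻ t in clmv_A, ENNReal.ofReal (U (x + t • u))) ∂μ :=
        (lintegral_const_mul' _ _ ha').symm
    _ ≤ ∫⁻ u in ball 0 R, (ENNReal.ofReal (U x) +
          C * ∫⁻ s in Ioc (0 : ℝ) 1, ∫⁻ t in ball (0 : ℂ) 1, g (x + (s • t) • u)) ∂μ :=
        setLIntegral_mono' measurableSet_ball fun u hu =>
          H x u R U g (mem_ball_zero_iff.1 hu) hU hU0 fun y hy => hL y hy u (mem_ball_zero_iff.1 hu)
    _ = _ := by
        rw [lintegral_add_left measurable_const, setLIntegral_const, lintegral_const_mul' _ _ hC,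
          mul_comm, clmv_nu, lintegral_prod _ hm.aemeasurable]
        congr 2
        refine lintegral_congr fun u => ?_
        exact (lintegral_prod (fun q : ℝ × ℂ => g (x + (q.1 • q.2) • u))
          (hm.comp measurable_prodMk_left).aemeasurable).symm

theorem clmv_div {a x y : ℝ≥0∞} (ha : a ≠ 0) (h : a * x ≤ y) : x ≤ (min a 1)⁻¹ * y := by
  have h0 : min a 1 ≠ 0 := (lt_min (pos_iff_ne_zero.2 ha) one_pos).ne'
  have h1 : min a 1 ≠ ⊤ := ((min_le_right _ _).trans_lt ENNReal.one_lt_top).ne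
  calc x = (min a 1)⁻¹ * (min a 1 * x) := by rw [← mul_assoc, ENNReal.inv_mul_cancel h0 h1, one_mul]
    _ ≤ _ := mul_le_mul_right ((mul_le_mul_left (min_le_left _ _) x).trans h) _

theorem clmv_inv {a : ℝ≥0∞} (ha : a ≠ 0) : (min a 1)⁻¹ ≠ ⊤ :=
  ENNReal.inv_ne_top.2 (lt_min (pos_iff_ne_zero.2 ha) one_pos).ne'

omit [FiniteDimensional ℂ V] [MeasurableSpace V] [BorelSpace V] in
theorem clmv_smul (U : V → ℝ) (x u : V) (r : ℝ) : Lv U x (r • u) = r ^ 2 * Lv U x u := by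
  simp only [Lv, D2, smul_comm Complex.I r u, map_smul, _root_.smul_apply, smul_eq_mul]
  ring

theorem clmv_avg : ∃ C : ℝ≥0∞, C ≠ ⊤ ∧
    ∀ (μ : Measure V) [μ.IsAddHaarMeasure] (K : ℝ) (U : V → ℝ) (f : V → ℝ≥0∞) (M : Set V),
      Measurable f → MeasurableSet M → M ⊆ ball 0 1 → ContDiffOn ℝ 2 U (ball 0 10) →
      (∀ x ∈ ball (0 : V) 10, 0 ≤ U x ∧ ∀ u, ‖u‖ ≤ 1 → ENNReal.ofReal (Lv U x u) ≤ f x) →
      (∀ x ∈ M, U x ≤ K) →
      μ M * ∫⁻ x in ball 0 1, ENNReal.ofReal (U x) ∂μ ≤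
        C * μ (ball 0 1) * (μ M * ENNReal.ofReal K + ∫⁻ x in ball 0 10, f x ∂μ) := by
  have := FiniteDimensional.proper ℂ V
  have : FiniteDimensional ℝ V := Module.Finite.trans ℂ V
  obtain ⟨a, C, ha, hC, H⟩ := clmv_core V
  set B := volume (ball (0 : ℂ) 1) with hB
  have hB' : B ≠ ⊤ := measure_ball_lt_top.ne
  refine ⟨(min a 1)⁻¹ * (ENNReal.ofReal (4 ^ Module.finrank ℝ V) * (1 + C * B * 16)),
    ENNReal.mul_ne_top (clmv_inv ha) (by finiteness), ?_⟩
  intro μ _ K U f M hf hM hM1 hU hU0 hK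
  set g : V → ℝ≥0∞ := fun x => 16 * (ball (0 : V) 10).indicator f x with hg
  have hgm : Measurable g := (hf.indicator measurableSet_ball).const_mul _
  have hm : Measurable fun q : V × V × ℝ × ℂ => g (q.1 + (q.2.2.1 • q.2.2.2) • q.2.1) :=
    hgm.comp (by fun_prop : Continuous fun q : V × V × ℝ × ℂ =>
      q.1 + (q.2.2.1 • q.2.2.2) • q.2.1).measurable
  have : SFinite (clmv_nu V μ 4) := by unfold clmv_nu; infer_instance
  have pt : ∀ x ∈ M, a * ∫⁻ y in ball 0 1, ENNReal.ofReal (U y) ∂μ ≤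
      μ (ball 0 4) * ENNReal.ofReal K +
        C * ∫⁻ p, g (x + (p.2.1 • p.2.2) • p.1) ∂(clmv_nu V μ 4) := fun x hx => by
    have hx1 : dist x 0 < 1 := hM1 hx
    have s1 : ball x (2 * 4) ⊆ ball 0 10 := ball_subset_ball' (by linarith)
    have s2 : ball (0 : V) 1 ⊆ ball x (4 / 2) := ball_subset_ball' (by rw [dist_comm]; linarith)
    refine (mul_le_mul_right (lintegral_mono_set s2) a).trans
      ((H μ x 4 U g hgm (hU.mono s1) (fun y hy => (hU0 y (s1 hy)).1) fun y hy u hu => ?_).trans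
        (add_le_add (mul_le_mul_right (ENNReal.ofReal_le_ofReal (hK x hx)) _) le_rfl))
    have hy' : y ∈ ball (0 : V) 10 := s1 (ball_subset_ball (by norm_num) hy)
    have e : u = (4 : ℝ) • ((4 : ℝ)⁻¹ • u) := by rw [smul_inv_smul₀ (by norm_num)]
    rw [e, clmv_smul, ENNReal.ofReal_mul (by norm_num), hg]
    simp only [indicator_of_mem hy']
    refine mul_le_mul' (by norm_num) ((hU0 y hy').2 _ ?_)
    rw [norm_smul, norm_inv, Real.norm_ofNat]
    linarith
  have sw : ∫⁻ x, ∫⁻ p, g (x + (p.2.1 • p.2.2) • p.1) ∂(clmv_nu V μ 4) ∂μ =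
      16 * (∫⁻ x in ball 0 10, f x ∂μ) * (μ (ball 0 4) * B) := by
    rw [lintegral_lintegral_swap hm.aemeasurable]
    simp only [lintegral_add_right_eq_self g]
    rw [lintegral_const, clmv_nu_univ, hg, lintegral_const_mul' _ _ (by norm_num),
      lintegral_indicator measurableSet_ball]
  have e4 : μ (ball 0 4) = ENNReal.ofReal (4 ^ Module.finrank ℝ V) * μ (ball 0 1) := by
    rw [← Measure.addHaar_ball_mul_of_pos μ 0 (by norm_num : (0 : ℝ) < 4), mul_one]
  rw [mul_assoc, mul_assoc]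
  refine clmv_div ha ?_
  calc a * (μ M * ∫⁻ x in ball 0 1, ENNReal.ofReal (U x) ∂μ)
      = ∫⁻ _ in M, a * ∫⁻ x in ball 0 1, ENNReal.ofReal (U x) ∂μ ∂μ := by
        rw [setLIntegral_const]; ring
    _ ≤ ∫⁻ x in M, (μ (ball 0 4) * ENNReal.ofReal K +
        C * ∫⁻ p, g (x + (p.2.1 • p.2.2) • p.1) ∂(clmv_nu V μ 4)) ∂μ := setLIntegral_mono' hM pt
    _ ≤ μ (ball 0 4) * ENNReal.ofReal K * μ M +
        C * (16 * (∫⁻ x in ball 0 10, f x ∂μ) * (μ (ball 0 4) * B)) := by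
        rw [lintegral_add_left measurable_const, setLIntegral_const, lintegral_const_mul' _ _ hC,
          ← sw]
        exact add_le_add le_rfl (mul_le_mul_right (setLIntegral_le_lintegral _ _) C)
    _ ≤ _ := by
        rw [e4]
        generalize ENNReal.ofReal (4 ^ Module.finrank ℝ V) = D
        generalize (∫⁻ x in ball 0 10, f x ∂μ) = J
        generalize μ (ball 0 1) = b
        calc _ = D * b * (1 * (μ M * ENNReal.ofReal K) + C * B * 16 * J) := by ring
          _ ≤ D * b * ((1 + C * B * 16) * (μ M * ENNReal.ofReal K) + (1 + C * B * 16) * J) := by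
              gcongr
              exacts [le_self_add, le_add_self]
          _ = _ := by ring

theorem mv_point (μ : Measure V) [μ.IsAddHaarMeasure] : ∃ C : ℝ≥0∞, C ≠ ⊤ ∧
    ∀ (x0 : V) (ρ K : ℝ) (U : V → ℝ), 0 < ρ → 0 ≤ K → ContDiffOn ℝ 2 U (ball x0 (4 * ρ)) →
      (∀ x ∈ ball x0 (4 * ρ), 0 ≤ U x ∧ ∀ u, Lv U x u ≤ K * ‖u‖ ^ 2) →
      ∫⁻ x in ball x0 ρ, ENNReal.ofReal (U x) ∂μ ≤
        C * μ (ball x0 ρ) * ENNReal.ofReal (U x0 + K * ρ ^ 2) := by
  have : FiniteDimensional ℝ V := Module.Finite.trans ℂ V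
  obtain ⟨a, C, ha, hC, H⟩ := clmv_core V
  set B := volume (ball (0 : ℂ) 1) with hB
  have hB' : B ≠ ⊤ := measure_ball_lt_top.ne
  refine ⟨(min a 1)⁻¹ * (ENNReal.ofReal (2 ^ Module.finrank ℝ V) * (1 + C * B * 4)),
    ENNReal.mul_ne_top (clmv_inv ha) (by finiteness), ?_⟩
  intro x0 ρ K U hρ hK hU hU0
  have e : 2 * (2 * ρ) = 4 * ρ := by ring
  have h0 : 0 ≤ U x0 := (hU0 x0 (mem_ball_self (by linarith))).1
  have hK' : 0 ≤ K * ρ ^ 2 := by positivity
  have key := H μ x0 (2 * ρ) U (fun _ => 4 * ENNReal.ofReal (K * ρ ^ 2)) measurable_const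
    (e ▸ hU) (fun y hy => (hU0 y (e ▸ hy)).1) fun y hy u hu => by
      rw [← ENNReal.ofReal_ofNat, ← ENNReal.ofReal_mul (by norm_num)]
      refine ENNReal.ofReal_le_ofReal
        (((hU0 y (ball_subset_ball (by linarith) hy)).2 u).trans ?_)
      have : ‖u‖ ^ 2 ≤ (2 * ρ) ^ 2 := pow_le_pow_left₀ (norm_nonneg u) hu.le 2
      nlinarith
  rw [mul_div_cancel_left₀ ρ two_ne_zero, lintegral_const, clmv_nu_univ,
    Measure.addHaar_ball_mul_of_pos μ 0 two_pos, ← Measure.addHaar_ball_center μ x0] at key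
  rw [mul_assoc, mul_assoc]
  refine clmv_div ha (key.trans ?_)
  rw [ENNReal.ofReal_add h0 hK', ← hB]
  generalize ENNReal.ofReal (2 ^ Module.finrank ℝ V) = D
  generalize μ (ball x0 ρ) = b
  generalize ENNReal.ofReal (U x0) = y
  generalize ENNReal.ofReal (K * ρ ^ 2) = z
  calc _ = D * b * (1 * y + C * B * 4 * z) := by ring
    _ ≤ D * b * ((1 + C * B * 4) * y + (1 + C * B * 4) * z) := by
        gcongr
        exacts [le_self_add, le_add_self]
    _ = _ := by ring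

theorem mv_avg (μ : Measure V) [μ.IsAddHaarMeasure] : ∃ C : ℝ≥0∞, C ≠ ⊤ ∧
    ∀ (x0 : V) (Λ : V ≃L[ℂ] V) (K : ℝ) (U : V → ℝ) (f : V → ℝ≥0∞) (M : Set V), Measurable f →
      MeasurableSet M → M ⊆ {x | ‖Λ.symm (x - x0)‖ < 1} →
      ContDiffOn ℝ 2 U {x | ‖Λ.symm (x - x0)‖ < 10} →
      (∀ x, ‖Λ.symm (x - x0)‖ < 10 → 0 ≤ U x ∧
        ∀ u, ‖u‖ ≤ 1 → ENNReal.ofReal (Lv U x (Λ u)) ≤ f x) →
      (∀ x ∈ M, U x ≤ K) →
      μ M * ∫⁻ x in {x | ‖Λ.symm (x - x0)‖ < 1}, ENNReal.ofReal (U x) ∂μ ≤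
        C * μ {x | ‖Λ.symm (x - x0)‖ < 1} *
          (μ M * ENNReal.ofReal K + ∫⁻ x in {x | ‖Λ.symm (x - x0)‖ < 10}, f x ∂μ) := by
  obtain ⟨C, hC, H⟩ := clmv_avg V
  refine ⟨C, hC, fun x0 Λ K U f M hf hM hM1 hU hU0 hK => ?_⟩
  let φ : V ≃ₜ V := (Homeomorph.subRight x0).trans Λ.symm.toHomeomorph
  have hφ : ∀ x, φ x = Λ.symm (x - x0) := fun _ => rfl
  have hψ : ∀ y, φ.symm y = Λ y + x0 := fun _ => rfl
  have hm : MeasurableEmbedding φ := φ.measurableEmbedding
  have : (μ.map Λ.symm).IsAddHaarMeasure := Λ.symm.isAddHaarMeasure_map μ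
  have hp : MeasurePreserving φ μ (μ.map Λ.symm) :=
    (MeasurePreserving.mk Λ.symm.continuous.measurable rfl).comp
      (measurePreserving_sub_right μ x0)
  have hb : ∀ r : ℝ, φ ⁻¹' ball 0 r = {x | ‖Λ.symm (x - x0)‖ < r} := fun r => by
    ext x
    rw [mem_preimage, mem_ball_zero_iff, hφ, mem_ofPred_eq]
  have hin : ∀ (r : ℝ), ∀ y ∈ ball (0 : V) r, ‖Λ.symm (φ.symm y - x0)‖ < r := fun r y hy => by
    rw [← hφ, φ.apply_symm_apply]
    exact mem_ball_zero_iff.1 hy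
  have hd : ∀ y, HasFDerivAt (fun y => Λ y + x0) (Λ : V →L[ℂ] V) y := fun y =>
    Λ.hasFDerivAt.add_const x0
  have hs : ContDiff ℝ 2 fun y => Λ y + x0 :=
    ((Λ : V →L[ℂ] V).restrictScalars ℝ).contDiff.add contDiff_const
  have hMM : φ ⁻¹' (φ.symm ⁻¹' M) = M := by
    ext x
    simp only [mem_preimage, φ.symm_apply_apply]
  have key := H (μ.map Λ.symm) K (fun y => U (φ.symm y)) (fun y => f (φ.symm y)) (φ.symm ⁻¹' M)
    (hf.comp φ.symm.continuous.measurable) (φ.symm.continuous.measurable hM)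
    (fun y hy => by
      have := hM1 hy
      rwa [mem_ofPred_eq, ← hφ, φ.apply_symm_apply, ← mem_ball_zero_iff] at this)
    (hU.comp hs.contDiffOn (hin 10))
    (fun y hy => ⟨(hU0 _ (hin 10 y hy)).1, fun u hu => by
      have ho : IsOpen {x | ‖Λ.symm (x - x0)‖ < 10} := hb 10 ▸ isOpen_ball.preimage φ.continuous
      have := Lv_comp (g := fun y => Λ y + x0) (hU.contDiffAt (ho.mem_nhds (hin 10 y hy)))
        (Eventually.of_forall fun y => (hd y).differentiableAt) u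
      rw [(hd y).fderiv] at this
      exact (congrArg ENNReal.ofReal this).trans_le ((hU0 _ (hin 10 y hy)).2 u hu)⟩)
    fun y hy => hK _ hy
  rw [← hp.measure_preimage_emb hm, ← hp.measure_preimage_emb hm,
    ← hp.setLIntegral_comp_preimage_emb hm, ← hp.setLIntegral_comp_preimage_emb hm, hb, hb,
    hMM] at key
  simpa only [φ.symm_apply_apply] using key

end Pool.Agent.CL
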