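import Pool.Agent.P.MP_63735c_ag.CLPack

/-! Words in a local group, recentring. -/

open Set

namespace Pool.Agent.CL

variable {G J Λ : Type} [NormedAddCommGroup J]

/-- Letters with values in a local group. -/
structure Alph (G J Λ : Type) [NormedAddCommGroup J] where
  lg : LG G J
  j : Λ → G
  inv : Λ → Λ
  j_inv : ∀ l, j (inv l) = lg.inv (j l)

namespace LG
variable (g : LG G J)

theorem sz_one : g.sz g.one = 0 := by simp [sz]

theorem sz_nonneg (a : G) : 0 ≤ g.sz a := norm_nonneg _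

theorem L_pos : 0 < g.L := lt_of_lt_of_le one_pos g.L_ge

theorem one_le : ‖g.jt g.one - g.jt g.one‖ ≤ g.ε := by simpa using g.ε_pos.le

theorem sz_mul {a b : G} (ha : g.sz a ≤ g.ε) (hb : g.sz b ≤ g.ε) :
    g.sz (g.mul a b) ≤ g.sz a + g.L * g.sz b := by
  have h1 := g.lip_r a b g.one ha hb g.one_le
  rw [g.mul_one a ha] at h1
  have h2 := norm_sub_le_norm_sub_add_norm_sub (g.jt (g.mul a b)) (g.jt a) (g.jt g.one)
  unfold sz
  linarith

theorem sz_mul' {a b : G} (ha : g.sz a ≤ g.ε) (hb : g.sz b ≤ g.ε) :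
    g.sz (g.mul a b) ≤ g.L * g.sz a + g.sz b := by
  have h1 := g.lip_l a g.one b ha g.one_le hb
  rw [g.one_mul b hb] at h1
  have h2 := norm_sub_le_norm_sub_add_norm_sub (g.jt (g.mul a b)) (g.jt b) (g.jt g.one)
  unfold sz
  linarith

theorem sz_inv {a : G} (ha : g.sz a ≤ g.ε) : g.sz (g.inv a) ≤ g.L * g.sz a := by
  have h1 := g.lip_inv a g.one ha g.one_le
  rwa [g.inv_one] at h1

theorem sz_div {a b : G} (ha : g.sz a ≤ g.ε) (ha' : g.sz (g.inv a) ≤ g.ε) (hb : g.sz b ≤ g.ε) :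
    g.sz (g.mul (g.inv a) b) ≤ g.L * ‖g.jt b - g.jt a‖ := by
  have h1 := g.lip_r (g.inv a) b a ha' hb ha
  rwa [g.inv_mul a ha] at h1

theorem mul_div {a b : G} (ha : g.sz a ≤ g.ε) (ha' : g.sz (g.inv a) ≤ g.ε) (hb : g.sz b ≤ g.ε) :
    g.mul a (g.mul (g.inv a) b) = b := by
  rw [← g.assoc a _ b ha ha' hb, g.mul_inv a ha, g.one_mul b hb]

theorem div_mul {a b : G} (ha : g.sz a ≤ g.ε) (ha' : g.sz (g.inv a) ≤ g.ε) (hb : g.sz b ≤ g.ε) :
    g.mul (g.inv a) (g.mul a b) = b := by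
  rw [← g.assoc _ a b ha' ha hb, g.inv_mul a ha, g.one_mul b hb]

theorem inv_inv {a : G} (ha : g.sz a ≤ g.ε) (ha' : g.sz (g.inv a) ≤ g.ε)
    (ha'' : g.sz (g.inv (g.inv a)) ≤ g.ε) : g.inv (g.inv a) = a := by
  have h := g.assoc _ _ a ha'' ha' ha
  rw [g.inv_mul _ ha', g.inv_mul a ha, g.one_mul a ha, g.mul_one _ ha''] at h
  exact h.symm

end LG

namespace Alph
variable (A : Alph G J Λ)

/-- The product of a word. -/
def en : List Λ → G
  | [] => A.lg.one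
  | l :: w => A.lg.mul (A.j l) (en w)

/-- All right subproducts have size at most `t`. -/
def Lev (t : ℝ) : List Λ → Prop
  | [] => 0 ≤ t
  | l :: w => A.lg.sz (A.en (l :: w)) ≤ t ∧ Lev t w

/-- The inverse word. -/
def winv (w : List Λ) : List Λ := (w.map A.inv).reverse

/-- Small letters. -/
def Sm (d : ℝ) (l : Λ) : Prop := A.lg.sz (A.j l) ≤ d ∧ A.lg.sz (A.lg.inv (A.j l)) ≤ d

variable {A}

theorem Lev.sz {t : ℝ} : ∀ {w : List Λ}, A.Lev t w → A.lg.sz (A.en w) ≤ t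
  | [], h => A.lg.sz_one.le.trans h
  | _ :: _, h => h.1

theorem Lev.mono {t t' : ℝ} (ht : t ≤ t') : ∀ {w : List Λ}, A.Lev t w → A.Lev t' w
  | [], h => le_trans h ht
  | _ :: _, h => ⟨h.1.trans ht, Lev.mono ht h.2⟩

theorem Lev.app {a t : ℝ} {P : List Λ} (hP : A.Lev t P) (ha : a ≤ A.lg.ε)
    (he : A.lg.sz (A.en P) ≤ A.lg.ε) (ht : a + A.lg.L * A.lg.sz (A.en P) ≤ t) :
    ∀ {w : List Λ}, (∀ l ∈ w, A.Sm A.lg.ε l) → A.Lev a w →
      A.Lev t (w ++ P) ∧ A.en (w ++ P) = A.lg.mul (A.en w) (A.en P)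
  | [], _, _ => ⟨hP, (A.lg.one_mul _ he).symm⟩
  | l :: w, hw, h => by
    obtain ⟨h1, h2⟩ := Lev.app hP ha he ht (fun x hx => hw x (List.mem_cons_of_mem _ hx)) h.2
    have h3 : A.en (l :: w ++ P) = A.lg.mul (A.en (l :: w)) (A.en P) := by
      show A.lg.mul (A.j l) (A.en (w ++ P)) = _
      rw [h2]
      exact (A.lg.assoc _ _ _ (hw l List.mem_cons_self).1 (h.2.sz.trans ha) he).symm
    refine ⟨⟨?_, h1⟩, h3⟩
    show A.lg.sz (A.en (l :: w ++ P)) ≤ t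
    rw [h3]
    have := A.lg.sz_mul (h.1.trans ha) he
    linarith [h.1]

theorem Lev.rec' {a t : ℝ} {e : G} (ha : a ≤ A.lg.ε) (he : A.lg.sz e ≤ A.lg.ε)
    (ht : a + A.lg.L * A.lg.sz e ≤ t) (htε : t ≤ A.lg.ε) :
    ∀ {K P : List Λ}, (∀ l ∈ K, A.Sm A.lg.ε l) → A.Lev a K → A.Lev t P →
      A.en P = A.lg.mul (A.en K) e → A.Lev t (A.winv K ++ P) ∧ A.en (A.winv K ++ P) = e
  | [], _, _, _, hP, h => ⟨hP, h.trans (A.lg.one_mul e he)⟩
  | k :: K, P, hw, hK, hP, h => by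
    have hk := hw k List.mem_cons_self
    have h0 : A.lg.sz (A.lg.mul (A.en K) e) ≤ t := by
      have := A.lg.sz_mul (hK.2.sz.trans ha) he
      linarith [hK.2.sz]
    have h1 : A.en (A.inv k :: P) = A.lg.mul (A.en K) e := by
      show A.lg.mul (A.j (A.inv k)) (A.en P) = _
      rw [h, A.j_inv]
      show A.lg.mul _ (A.lg.mul (A.lg.mul (A.j k) (A.en K)) e) = _
      rw [A.lg.assoc _ _ _ hk.1 (hK.2.sz.trans ha) he, A.lg.div_mul hk.1 hk.2 (h0.trans htε)]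
    have h2 : A.winv (k :: K) ++ P = A.winv K ++ (A.inv k :: P) := by simp [winv]
    rw [h2]
    exact Lev.rec' ha he ht htε (fun x hx => hw x (List.mem_cons_of_mem _ hx)) hK.2
      ⟨h1 ▸ h0, hP⟩ h1

/-- `KK` recentres the words over `Λ₀`. -/
structure Rc (A : Alph G J Λ) (Λ₀ : Set Λ) (δ a : ℝ) (KK : Set (List Λ)) : Prop where
  fin : KK.Finite
  mem : ∀ K ∈ KK, ∀ l ∈ K, l ∈ Λ₀
  rc : ∀ P : List Λ, (∀ l ∈ P, l ∈ Λ₀) → A.Lev (a + 4 * A.lg.L * δ) P → A.lg.sz (A.en P) ≤ 2 * δ →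
    ∃ K ∈ KK, A.lg.L * A.lg.sz (A.en (A.winv K ++ P)) ≤ δ / 2 ∧
      ∀ t, a + A.lg.L * δ ≤ t → t ≤ a + 4 * A.lg.L * δ → A.Lev t P → A.Lev t (A.winv K ++ P)

theorem exists_rc [NormedSpace ℝ J] [FiniteDimensional ℝ J] (A : Alph G J Λ) :
    ∃ C > (0 : ℝ), ∀ δ > (0 : ℝ), C * δ ≤ A.lg.ε → ∀ Λ₀ : Set Λ, (∀ l ∈ Λ₀, A.Sm A.lg.ε l) →
      ∃ a KK, δ ≤ a ∧ a + 4 * A.lg.L * δ ≤ C * δ ∧ A.Rc Λ₀ δ a KK := by
  have hL := A.lg.L_ge
  obtain ⟨N, hN⟩ := doubling J (D := 8 * A.lg.L ^ 2) (by positivity)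
  refine ⟨2 * A.lg.L + 4 * A.lg.L * (N + 2), by positivity, fun δ hδ hC Λ₀ hΛ => ?_⟩
  let S : ℕ → Set (List Λ) := fun i => {w | (∀ l ∈ w, l ∈ Λ₀) ∧
    A.Lev (δ + 4 * A.lg.L * δ * i) w ∧ A.lg.sz (A.en w) ≤ 2 * δ}
  have hS : ∀ i k, i ≤ k → S i ⊆ S k := fun i k hik w hw => ⟨hw.1, hw.2.1.mono (by
    have : (i : ℝ) ≤ k := by exact_mod_cast hik
    have : 0 ≤ 4 * A.lg.L * δ := by positivity
    nlinarith), hw.2.2⟩
  obtain ⟨i, hi, h⟩ : ∃ i ≤ N, ∀ w ∈ S (i + 1), ∃ w' ∈ S i,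
      ‖A.lg.jt (A.en w) - A.lg.jt (A.en w')‖ ≤ δ / (4 * A.lg.L ^ 2) := by
    by_contra hc
    push Not at hc
    choose! w hw hw' using hc
    obtain ⟨i, k, hik, h⟩ := hN (A.lg.jt A.lg.one) (2 * δ) (fun i => A.lg.jt (A.en (w i)))
      (by positivity) fun i => (hw i (Nat.lt_succ_iff.1 i.2)).2.2
    have h1 := hw' k (Nat.lt_succ_iff.1 k.2) (w i) (hS _ _ hik (hw i (Nat.lt_succ_iff.1 i.2)))
    rw [norm_sub_rev] at h1
    have e : 2 * δ / (8 * A.lg.L ^ 2) = δ / (4 * A.lg.L ^ 2) := by field_simp; ring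
    exact absurd (e ▸ h) (not_le.2 h1)
  obtain ⟨KK, hf, hsub, hnet⟩ := exists_net (fun w => A.lg.jt (A.en w)) (S i)
    (x0 := A.lg.jt A.lg.one) (R := 2 * δ) (δ := δ / (4 * A.lg.L ^ 2)) (by positivity)
    fun w hw => hw.2.2
  have hiN : (i : ℝ) ≤ N := by exact_mod_cast hi
  have hi0 : (0 : ℝ) ≤ i := Nat.cast_nonneg i
  have hN0 : (0 : ℝ) ≤ N := Nat.cast_nonneg N
  have hp : 0 < A.lg.L * δ := by positivity
  have hδL : δ ≤ A.lg.L * δ := le_mul_of_one_le_left hδ.le hL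
  have ha : δ + 4 * A.lg.L * δ * i + 4 * A.lg.L * δ ≤ (2 * A.lg.L + 4 * A.lg.L * (N + 2)) * δ := by
    nlinarith
  refine ⟨δ + 4 * A.lg.L * δ * i, KK, by nlinarith, ha, hf, fun K hK => (hsub hK).1,
    fun P hP hl he => ?_⟩
  obtain ⟨w', hw', h1⟩ := h P ⟨hP, hl.mono (by push_cast; linarith), he⟩
  obtain ⟨K, hK, h2⟩ := hnet w' hw'
  have hK' := hsub hK
  have h3 : ‖A.lg.jt (A.en P) - A.lg.jt (A.en K)‖ ≤ δ / (2 * A.lg.L ^ 2) := by
    have := norm_sub_le_norm_sub_add_norm_sub (A.lg.jt (A.en P)) (A.lg.jt (A.en w'))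
      (A.lg.jt (A.en K))
    have e : δ / (2 * A.lg.L ^ 2) = δ / (4 * A.lg.L ^ 2) + δ / (4 * A.lg.L ^ 2) := by field_simp; ring
    linarith
  have h2δ : 2 * (A.lg.L * δ) ≤ A.lg.ε := by nlinarith
  have k1 : A.lg.sz (A.en K) ≤ A.lg.ε := by linarith [hK'.2.2]
  have k2 : A.lg.sz (A.lg.inv (A.en K)) ≤ A.lg.ε := by
    have := A.lg.sz_inv k1
    nlinarith [hK'.2.2]
  have k3 : A.lg.sz (A.en P) ≤ A.lg.ε := by linarith
  have k4 : A.lg.L * A.lg.sz (A.lg.mul (A.lg.inv (A.en K)) (A.en P)) ≤ δ / 2 := by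
    refine (mul_le_mul_of_nonneg_left ((A.lg.sz_div k1 k2 k3).trans
      (mul_le_mul_of_nonneg_left h3 A.lg.L_pos.le)) A.lg.L_pos.le).trans ?_
    exact le_of_eq (by field_simp)
  have k5 := le_mul_of_one_le_left (A.lg.sz_nonneg (A.lg.mul (A.lg.inv (A.en K)) (A.en P))) hL
  have key : ∀ t, δ + 4 * A.lg.L * δ * i + A.lg.L * δ ≤ t →
      t ≤ δ + 4 * A.lg.L * δ * i + 4 * A.lg.L * δ → A.Lev t P →
      A.Lev t (A.winv K ++ P) ∧ A.en (A.winv K ++ P) = _ := fun t h4 h5 h6 =>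
    Lev.rec' (by linarith) (by linarith) (by linarith) (by linarith)
      (fun l hl => hΛ l (hK'.1 l hl)) hK'.2.1 h6 (A.lg.mul_div k1 k2 k3).symm
  refine ⟨K, hK, ?_, fun t h4 h5 h6 => (key t h4 h5 h6).1⟩
  rw [(key _ (by linarith) le_rfl hl).2]
  exact k4

theorem sum_winv {f : Λ → ℝ} {K : List Λ} (h : ∀ l ∈ K, f (A.inv l) = -f l) :
    ((A.winv K).map f).sum = -(K.map f).sum := by
  induction K with
  | nil => simp [winv]
  | cons k K ih =>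
    have h2 : A.winv (k :: K) = A.winv K ++ [A.inv k] := by simp [winv]
    rw [h2, List.map_append, List.sum_append, ih fun l hl => h l (List.mem_cons_of_mem _ hl)]
    simp [h k List.mem_cons_self]

theorem mem_winv {K : List Λ} {l : Λ} (h : l ∈ A.winv K) : ∃ k ∈ K, l = A.inv k := by
  simp only [winv, List.mem_reverse, List.mem_map] at h
  obtain ⟨k, hk, e⟩ := h
  exact ⟨k, hk, e.symm⟩

/-- An additive sublinear function is bounded on words with small product. -/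
theorem Rc.bd {Λ₀ S : Set Λ} {δ a : ℝ} {KK : Set (List Λ)} (h : A.Rc Λ₀ δ a KK) (hδ : 0 < δ)
    (hε : a + 4 * A.lg.L * δ ≤ A.lg.ε) (ha : δ ≤ a) (hΛ : ∀ l ∈ Λ₀, A.Sm A.lg.ε l) (hS : S ⊆ Λ₀)
    (hK : ∀ K ∈ KK, ∀ l ∈ K, A.inv l ∈ S) {f : Λ → ℝ} (hf : ∀ l ∈ Λ₀, f (A.inv l) = -f l)
    (hs : ∀ κ > (0 : ℝ), ∃ C, ∀ w : List Λ, (∀ l ∈ w, l ∈ S) → A.Lev (a + 4 * A.lg.L * δ) w →
      |(w.map f).sum| ≤ κ * w.length + C) :
    ∃ B, ∀ w : List Λ, (∀ l ∈ w, l ∈ S) → A.Lev (a + A.lg.L * δ) w → A.lg.sz (A.en w) ≤ δ →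
      |(w.map f).sum| ≤ B := by
  obtain ⟨B, hB⟩ := (h.fin.image fun K => |(K.map f).sum|).bddAbove
  obtain ⟨M, hM⟩ := (h.fin.image fun K => (K.length : ℝ)).bddAbove
  have hL := A.lg.L_ge
  have hp : 0 < A.lg.L * δ := by positivity
  have hδL : δ ≤ A.lg.L * δ := le_mul_of_one_le_left hδ.le hL
  refine ⟨B, fun w hw hl he => ?_⟩
  have key : ∀ k : ℕ, ∃ P : List Λ, (∀ l ∈ P, l ∈ S) ∧ A.Lev (a + 4 * A.lg.L * δ) P ∧
      A.lg.L * A.lg.sz (A.en P) ≤ δ / 2 ∧ (P.length : ℝ) ≤ k * (w.length + M) ∧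
      |k * (w.map f).sum - (P.map f).sum| ≤ k * B := by
    intro k
    induction k with
    | zero => exact ⟨[], by simp, by show 0 ≤ _; linarith, by rw [en, A.lg.sz_one]; linarith,
        by simp, by simp⟩
    | succ k ih =>
      obtain ⟨P, h1, h2, h3, h4, h5⟩ := ih
      have h0 := le_mul_of_one_le_left (A.lg.sz_nonneg (A.en P)) hL
      obtain ⟨k1, k2⟩ := Lev.app h2 (a := a + A.lg.L * δ) (by linarith) (by linarith)
        (by linarith) (fun l hl => hΛ l (hS (hw l hl))) hl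
      have k3 : ∀ l ∈ w ++ P, l ∈ S := fun l hl => (List.mem_append.1 hl).elim (hw l) (h1 l)
      have k4 : A.lg.sz (A.en (w ++ P)) ≤ 2 * δ := by
        rw [k2]
        have h7 := A.lg.sz_mul (a := A.en w) (b := A.en P) (by linarith) (by linarith)
        linarith
      obtain ⟨K, hK1, k5, k6⟩ := h.rc _ (fun l hl => hS (k3 l hl)) k1 k4
      refine ⟨A.winv K ++ (w ++ P), fun l hl => ?_, k6 _ (by linarith) le_rfl k1, k5, ?_, ?_⟩
      · refine (List.mem_append.1 hl).elim (fun h => ?_) (k3 l)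
        obtain ⟨x, hx, rfl⟩ := mem_winv h
        exact hK K hK1 x hx
      · have := hM ⟨K, hK1, rfl⟩
        simp only [winv, List.length_append, List.length_reverse, List.length_map]
        push_cast
        linarith
      · have h8 : |(K.map f).sum| ≤ B := hB ⟨K, hK1, rfl⟩
        rw [List.map_append, List.sum_append, List.map_append, List.sum_append,
          sum_winv fun l hl => hf l (h.mem K hK1 l hl)]
        push_cast
        rw [abs_le] at h5 h8 ⊢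
        constructor <;> linarith [h5.1, h5.2, h8.1, h8.2]
  refine le_of_forall_pos_le_add fun η hη => ?_
  obtain ⟨C, hC⟩ := hs (η / 2 / (|w.length + M| + 1)) (by positivity)
  obtain ⟨k, hk⟩ := exists_nat_gt (max (2 * C / η) 0)
  obtain ⟨P, h1, h2, -, h4, h5⟩ := key k
  have k0 : (0 : ℝ) < k := lt_of_le_of_lt (le_max_right _ _) hk
  have k1 : 2 * C < k * η := by
    have := lt_of_le_of_lt (le_max_left _ _) hk
    rwa [div_lt_iff₀ hη] at this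
  have h6 := hC P h1 h2
  have h7 : η / 2 / (|w.length + M| + 1) * P.length ≤ k * (η / 2) := by
    rw [div_mul_eq_mul_div, div_le_iff₀ (by positivity)]
    have := le_abs_self ((w.length : ℝ) + M)
    have h8 : (P.length : ℝ) ≤ k * (|w.length + M| + 1) := by nlinarith
    nlinarith
  have h9 : k * |(w.map f).sum| ≤ k * (B + η) := by
    have e : k * |(w.map f).sum| = |k * (w.map f).sum| := by rw [abs_mul, abs_of_pos k0]
    have := abs_sub_abs_le_abs_sub (k * (w.map f).sum) (P.map f).sum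
    rw [e]
    linarith
  exact le_of_mul_le_mul_left h9 k0

end Alph

end Pool.Agent.CL
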