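import Pool.Agent.P.MP_63735c_ag.CLAv2
import Pool.Agent.P.MP_63735c_ag.CWCov

/-! Lower bounds for the averaged form near the graph of a small return. -/

open scoped ContDiff Matrix ENNReal
open Set Metric MeasureTheory Filter Topology

namespace Pool.Agent.CL

open Pool.Agent.SPF

variable {n : ℕ} {X : Type} [TopologicalSpace X] [MeasurableSpace X]

theorem Setup.Sm.avfix {S : Setup n X} {j : S.G.G} {y : E n} {g : Ret n} (h : S.Sm j y g)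
    (hy : y ∈ ball S.G.y0 (2 * S.G.r)) :
    ∀ᶠ x in 𝓝 y, g.N x = S.G.N j x ∧ ∀ s ∈ RI S.Q.I, g.N x s = s := by
  have hp : S.Pres j := S.pres j h.1 y hy g h.2.1 h.2.2
  filter_upwards [h.2.1.N_eq h.2.2 (mem_of_superset (isOpen_ball.mem_nhds hy)
    fun x hx => S.G.pair j x hx), isOpen_ball.mem_nhds hy] with x a b
  exact ⟨a, fun s hs => a ▸ (hp.e h.1 b fun k hk => (hs k).2 hk).1⟩

theorem clavtg_cpt {M : Model n X} {I : Finset (Fin n)} {t : Form2 (P n)} (h : AvGood M I t)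
    {K : Set (P n)} (hK : IsCompact K) (hs : K ⊆ M.T ×ˢ univ) :
    ∃ c > (0 : ℝ), ∀ q ∈ K, ∀ w, c * ‖w‖ ^ 2 ≤ t q w (Complex.I • w) := by
  have hc : ContinuousOn t K := h.closed.1.continuousOn.mono hs
  have hf : ContinuousOn (fun x : P n × P n => t x.1 x.2 (Complex.I • x.2)) (K ×ˢ sphere 0 1) :=
    ((hc.comp continuousOn_fst fun x hx => hx.1).clm_apply continuousOn_snd).clm_apply
      (by fun_prop)
  obtain ⟨c, hc0, hm⟩ := (hK.prod (isCompact_sphere (0 : P n) 1)).exists_forall_le' hf (a := 0)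
    fun x hx => h.pos x.1 (hs hx.1).1 x.2 (ne_zero_of_mem_unit_sphere ⟨x.2, hx.2⟩)
  refine ⟨c, hc0, fun q hq w => ?_⟩
  rcases eq_or_ne w 0 with rfl | hw
  · simp
  have h0 := norm_pos_iff.2 hw
  have h1 := hm (q, ‖w‖⁻¹ • w) ⟨hq, by simp [norm_smul, h0.ne']⟩
  simp only [smul_comm Complex.I ‖w‖⁻¹ w, map_smul, smul_apply,
    smul_eq_mul] at h1
  calc c * ‖w‖ ^ 2 ≤ ‖w‖⁻¹ * (‖w‖⁻¹ * t q w (Complex.I • w)) * ‖w‖ ^ 2 := by gcongr
    _ = _ := by field_simp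

theorem av_TG (S : Setup n X) {t : Form2 (P n)} (h : AvGood S.M S.Q.I t)
    (hRI : ∀ y ∈ S.M.T, ∀ ξ, ∀ s ∈ RI S.Q.I, t (y, ξ + s) = t (y, ξ)) :
    ∃ c > (0 : ℝ), ∃ C ≥ (0 : ℝ), ∀ j, ∀ y ∈ ball S.G.y0 (3 / 2 * S.G.r), ∀ g, S.Sm j y g →
      ∀ s ∈ RI S.Q.I, ∀ d : E n, ‖d‖ ≤ 1 →
      (∀ v : E n, c * ‖v‖ ^ 2 ≤ t (y, g.α y + s + d) (0, v) (0, Complex.I • v)) ∧
      ∀ e w : E n, piI S.Q.I w = 0 → c * ‖piI S.Q.I (fderiv ℂ g.α y e)‖ ^ 2 - C * ‖e‖ ^ 2 ≤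
        t (y, g.α y + s + d) (e, w) (Complex.I • (e, w)) := by
  have hr := S.G.r_pos
  obtain ⟨c, hc, hK⟩ := clavtg_cpt h ((isCompact_closedBall S.G.y0 (4 * S.G.r)).prod
    (isCompact_closedBall (0 : E n) 2)) fun q hq => ⟨S.G.sub hq.1, trivial⟩
  obtain ⟨K, eK⟩ : ∃ K, K = 1 / 16 / (S.G.r / 2) := ⟨_, rfl⟩
  refine ⟨c / 8, by positivity, c * K ^ 2, by positivity, fun j y hy g hg s hs d hd => ?_⟩
  have hy2 : y ∈ ball S.G.y0 (2 * S.G.r) := ball_subset_ball (by linarith) hy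
  have h1 := hg.avfix hy2
  obtain ⟨O, hO, hyO⟩ := hg.2.1
  obtain ⟨O', h2, h3, h4⟩ := _root_.eventually_nhds_iff.1 (h1.and (hO.isOpen.eventually_mem hyO))
  have h5 := hO.mono h3 fun x hx => (h2 x hx).2
  have h6 := (S.G.near j hg.1 y hy2).2.2.2.trans (S.G.Lsz hg.1).1
  rw [← h1.self_of_nhds.1] at h6
  have h7 : ∀ v, ‖v‖ ≤ 2 * ‖g.N y v‖ ∧ ‖g.N y v‖ ≤ 2 * ‖v‖ := fun v => by
    have a1 : ‖g.N y v - v‖ ≤ 1 / 16 * ‖v‖ := (g.N y - 1).le_of_opNorm_le h6 v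
    have a2 := abs_le.1 (abs_norm_sub_norm_le (g.N y v) v)
    constructor <;> linarith [a2.1, a2.2, norm_nonneg v, norm_nonneg (g.N y v)]
  have h8 : ‖fderiv ℂ g.N y‖ ≤ K := by
    have a1 : ball y (S.G.r / 2) ⊆ ball S.G.y0 (2 * S.G.r) :=
      ball_subset_ball' (by linarith [mem_ball.1 hy])
    have a2 := cauchy (f := fun x => S.G.N j x - 1) (half_pos hr)
      (((S.G.N_hol j).mono a1).sub_const 1)
      fun x hx => (S.G.near j hg.1 x (a1 hx)).2.2.2.trans (S.G.Lsz hg.1).1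
    rwa [fderiv_sub_const, ← EventuallyEq.fderiv_eq (h1.mono fun x a => a.1), ← eK] at a2
  have key : ∀ u : P n, c * ‖g.N y (u.2 - fderiv ℂ g.α y u.1) + fderiv ℂ g.N y u.1 d‖ ^ 2 ≤
      t (y, g.α y + s + d) u (Complex.I • u) := by
    intro u
    have a1 := h5.smooth.2.2.2 (y, g.α y + d) h4
    have a2 : fderiv ℝ g.act (y, g.α y + d) (Complex.I • u) =
        Complex.I • fderiv ℝ g.act (y, g.α y + d) u := by
      rw [a1, a1]
      simp only [Prod.smul_fst, Prod.smul_snd, map_smul, ← smul_sub, Prod.smul_mk, smul_add,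
        smul_apply]
    have a3 := hK (g.act (y, g.α y + d))
      ⟨mem_of_eq_of_mem hg.2.2.eq_of_nhds (S.G.mem_T hg.1 hy2), by
      simp only [Ret.act, add_sub_cancel_left, mem_closedBall_zero_iff]
      linarith [(h7 d).2]⟩ (fderiv ℝ g.act (y, g.α y + d) u)
    rw [add_right_comm, hRI y (S.G.ball_sub hy2) _ s hs,
      ← h.inv O' g h5 (fun x hx => (h2 x hx).1.2) _ h4, a2]
    refine le_trans ?_ a3
    gcongr
    refine le_trans (le_of_eq ?_) (norm_snd_le _)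
    rw [a1]
    simp only [add_sub_cancel_left]
  refine ⟨fun v => ?_, fun e w hw => ?_⟩
  · have a1 := key (0, v)
    simp only [map_zero, sub_zero, zero_apply, add_zero, Prod.smul_mk,
      smul_zero] at a1
    have a2 := pow_le_pow_left₀ (norm_nonneg v) (h7 v).1 2
    nlinarith [sq_nonneg ‖g.N y v‖]
  · refine le_trans ?_ (key (e, w))
    have a1 := (proj_norm S.Q.I (w - fderiv ℂ g.α y e)).1.trans (h7 _).1
    rw [map_sub, hw, zero_sub, norm_neg] at a1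
    have a2 : ‖fderiv ℂ g.N y e d‖ ≤ K * ‖e‖ :=
      (((fderiv ℂ g.N y e).le_opNorm d).trans (mul_le_of_le_one_right (norm_nonneg _) hd)).trans
        ((fderiv ℂ g.N y).le_of_opNorm_le h8 e)
    have a3 := norm_sub_le (g.N y (w - fderiv ℂ g.α y e) + fderiv ℂ g.N y e d) (fderiv ℂ g.N y e d)
    rw [add_sub_cancel_right] at a3
    obtain ⟨A, eA⟩ : ∃ A, A = ‖g.N y (w - fderiv ℂ g.α y e) + fderiv ℂ g.N y e d‖ := ⟨_, rfl⟩
    rw [← eA] at a3 ⊢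
    have a4 := pow_le_pow_left₀ (norm_nonneg _)
      (show ‖piI S.Q.I (fderiv ℂ g.α y e)‖ ≤ 2 * (A + K * ‖e‖) by linarith) 2
    have a5 : ‖piI S.Q.I (fderiv ℂ g.α y e)‖ ^ 2 / 8 - K ^ 2 * ‖e‖ ^ 2 ≤ A ^ 2 := by
      nlinarith [sq_nonneg (A - K * ‖e‖)]
    nlinarith [mul_le_mul_of_nonneg_left a5 hc.le]

end Pool.Agent.CL
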