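import Pool.Agent.P.MP_63735c_ag.CLHol
import Pool.Agent.P.MP_63735c_ag.CLPrim

/-! Basic facts on returns. -/

open scoped ContDiff Matrix ENNReal
open Set Metric MeasureTheory Filter Topology

namespace Pool.Agent.CL

open Pool.Agent.SPF

variable {n : ℕ}

theorem tr_pair (U : E n →L[ℂ] E n) (ξ u : E n) : tr U ξ ⬝ᵥ u = ξ ⬝ᵥ U u := by
  have h : U u = LinearMap.toMatrix' (U : E n →ₗ[ℂ] E n) *ᵥ u := by
    rw [← Matrix.toLin'_apply, Matrix.toLin'_toMatrix']; rfl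
  rw [h, Matrix.dotProduct_mulVec, ← Matrix.mulVec_transpose]
  simp [tr]

theorem dot_le (u v : E n) : ‖u ⬝ᵥ v‖ ≤ n * ‖u‖ * ‖v‖ := by
  calc ‖u ⬝ᵥ v‖ ≤ ∑ k : Fin n, ‖u k * v k‖ := norm_sum_le _ _
    _ ≤ ∑ _k : Fin n, ‖u‖ * ‖v‖ := Finset.sum_le_sum fun k _ => by
        rw [norm_mul]
        exact mul_le_mul (norm_le_pi_norm u k) (norm_le_pi_norm v k) (norm_nonneg _)
          (norm_nonneg _)
    _ = n * ‖u‖ * ‖v‖ := by simp [mul_assoc]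

theorem clret_ext {A B : E n →L[ℂ] E n} (h : ∀ ξ u, A ξ ⬝ᵥ u = B ξ ⬝ᵥ u) : A = B :=
  ContinuousLinearMap.ext fun ξ => dotProduct_eq _ _ (h ξ)

theorem tr_basic (U V : E n →L[ℂ] E n) : tr (1 : E n →L[ℂ] E n) = 1 ∧
    tr (U.comp V) = (tr V).comp (tr U) ∧ tr (U - V) = tr U - tr V ∧ tr (tr U) = U ∧
    ‖tr U‖ ≤ n * ‖U‖ := by
  refine ⟨clret_ext fun ξ u => by simp [tr_pair], clret_ext fun ξ u => by simp [tr_pair],
    clret_ext fun ξ u => by simp [tr_pair], clret_ext fun ξ u => ?_, ?_⟩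
  · rw [tr_pair, dotProduct_comm, tr_pair, dotProduct_comm]
  · refine ContinuousLinearMap.opNorm_le_bound _ (by positivity) fun ξ => ?_
    refine (pi_norm_le_iff_of_nonneg (by positivity)).2 fun k => ?_
    rw [← dotProduct_single_one (tr U ξ) k, tr_pair]
    refine (dot_le _ _).trans ?_
    have h1 : ‖U (Pi.single k 1)‖ ≤ ‖U‖ := by
      simpa [Pi.norm_single] using U.le_opNorm (Pi.single k 1)
    calc (n : ℝ) * ‖ξ‖ * ‖U (Pi.single k 1)‖ ≤ n * ‖ξ‖ * ‖U‖ := by gcongr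
      _ = n * ‖U‖ * ‖ξ‖ := by ring

theorem exists_trL : ∃ L : (E n →L[ℂ] E n) →L[ℂ] (E n →L[ℂ] E n), ∀ U, L U = tr U := by
  let L0 : (E n →L[ℂ] E n) →ₗ[ℂ] (E n →L[ℂ] E n) :=
    { toFun := tr
      map_add' := fun U V => clret_ext fun ξ u => by simp [tr_pair]
      map_smul' := fun c U => clret_ext fun ξ u => by simp [tr_pair] }
  exact ⟨L0.mkContinuous n fun U => (tr_basic U U).2.2.2.2, fun U => rfl⟩

theorem pair_inv {N U : E n →L[ℂ] E n} (h : ∀ ξ u, N ξ ⬝ᵥ U u = ξ ⬝ᵥ u) :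
    (∀ ξ, N (tr U ξ) = ξ) ∧ (∀ ξ, tr U (N ξ) = ξ) ∧ Function.Bijective U := by
  have h1 : ∀ ξ, tr U (N ξ) = ξ := fun ξ => dotProduct_eq _ _ fun u => by rw [tr_pair, h]
  have h2 : (tr U : E n →ₗ[ℂ] E n) * (N : E n →ₗ[ℂ] E n) = 1 := LinearMap.ext h1
  have h3 := mul_eq_one_comm.1 h2
  have h4 : Function.Injective (U : E n →ₗ[ℂ] E n) := by
    rw [injective_iff_map_eq_zero]
    intro u hu
    refine dotProduct_eq_zero _ fun ξ => ?_
    rw [dotProduct_comm, ← h, show U u = 0 from hu, dotProduct_zero]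
  exact ⟨fun ξ => LinearMap.congr_fun h3 ξ, h1, h4, LinearMap.injective_iff_surjective.1 h4⟩

section
variable {X : Type} {T O O' : Set (E n)} {Ψ : P n → X} {g g' h : Ret n} {y : E n}

theorem IsRet.mono (hg : IsRet T Ψ O g) (hO : IsOpen O') (hs : O' ⊆ O) : IsRet T Ψ O' g :=   ⟨hO, hs.trans hg.sub, hg.γ_hol.mono hs, hg.α_hol.mono hs, hg.N_hol.mono hs,
    hg.maps.mono_left hs, fun y hy => hg.pair y (hs hy), fun y hy => hg.eq y (hs hy)⟩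

theorem IsRet.congr (hg : IsRet T Ψ O g)
    (he : ∀ x ∈ O, g'.γ x = g.γ x ∧ g'.α x = g.α x ∧ g'.N x = g.N x) : IsRet T Ψ O g' := by
  refine ⟨hg.isOpen, hg.sub, hg.γ_hol.congr fun x hx => (he x hx).1,
    hg.α_hol.congr fun x hx => (he x hx).2.1, hg.N_hol.congr fun x hx => (he x hx).2.2,
    fun x hx => (he x hx).1 ▸ hg.maps hx, fun x hx ξ u => ?_, fun x hx ξ => ?_⟩
  · have e : g'.γ =ᶠ[𝓝 x] g.γ := by
      filter_upwards [hg.isOpen.mem_nhds hx] with z hz using (he z hz).1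
    rw [e.fderiv_eq, (he x hx).2.2, hg.pair x hx]
  · have := hg.eq x hx ξ
    simp only [Ret.act] at this ⊢
    rw [(he x hx).1, (he x hx).2.1, (he x hx).2.2, this]

theorem Germ.congr (hg : Germ T Ψ y g) (he : Ret.Eq y g g') : Germ T Ψ y g' := by
  obtain ⟨O, hO, hy⟩ := hg
  obtain ⟨U, hU, hUo, hyU⟩ := _root_.eventually_nhds_iff.1 he
  exact ⟨O ∩ U, (hO.mono (hO.isOpen.inter hUo) inter_subset_left).congr fun x hx =>
    ⟨(hU x hx.2).1.symm, (hU x hx.2).2.1.symm, (hU x hx.2).2.2.symm⟩, hy, hyU⟩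

theorem Germ.ball (hg : Germ T Ψ y g) : ∃ ρ > 0, IsRet T Ψ (ball y ρ) g := by
  obtain ⟨O, hO, hy⟩ := hg
  obtain ⟨ρ, hρ, hs⟩ := Metric.isOpen_iff.1 hO.isOpen y hy
  exact ⟨ρ, hρ, hO.mono isOpen_ball hs⟩

theorem IsRet.comp (hg : IsRet T Ψ O g) (hh : IsRet T Ψ O' h) (hm : MapsTo g.γ O O') :
    IsRet T Ψ O (h.comp g) ∧ ∀ p : P n, p.1 ∈ O → (h.comp g).act p = h.act (g.act p) := by
  have ha : ∀ p : P n, p.1 ∈ O → (h.comp g).act p = h.act (g.act p) := by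
    intro p hp
    simp only [Ret.act, Ret.comp, ContinuousLinearMap.comp_apply, ← sub_sub, map_sub,
      (pair_inv (hg.pair p.1 hp)).1]
  obtain ⟨L, hL⟩ := exists_trL (n := n)
  refine ⟨⟨hg.isOpen, hg.sub, hh.γ_hol.comp hg.γ_hol hm, ?_,
    (hh.N_hol.comp hg.γ_hol hm).clm_comp hg.N_hol, fun x hx => hh.maps (hm hx),
    fun x hx ξ u => ?_, fun x hx ξ => ?_⟩, ha⟩
  · refine hg.α_hol.add (DifferentiableOn.clm_apply ?_ (hh.α_hol.comp hg.γ_hol hm))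
    simp only [← hL]
    exact L.differentiable.comp_differentiableOn (hol_smooth hg.isOpen hg.γ_hol).2.2
  · have d1 := hg.γ_hol.differentiableAt (hg.isOpen.mem_nhds hx)
    have d2 := hh.γ_hol.differentiableAt (hh.isOpen.mem_nhds (hm hx))
    have e : fderiv ℂ (h.comp g).γ x = (fderiv ℂ h.γ (g.γ x)).comp (fderiv ℂ g.γ x) :=
      fderiv_comp x d2 d1
    rw [e]
    exact (hh.pair _ (hm hx) _ _).trans (hg.pair x hx ξ u)
  · rw [ha _ hx]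
    exact (hh.eq _ (hm hx) _).trans (hg.eq x hx ξ)

theorem Germ.comp (hg : Germ T Ψ y g) (hh : Germ T Ψ (g.γ y) h) : Germ T Ψ y (h.comp g) ∧
    ∀ᶠ x in 𝓝 y, ∀ ξ, (h.comp g).act (x, ξ) = h.act (g.act (x, ξ)) := by
  obtain ⟨O, hO, hy⟩ := hg
  obtain ⟨O', hO', hy'⟩ := hh
  have ho : IsOpen (O ∩ g.γ ⁻¹' O') :=
    hO.γ_hol.continuousOn.isOpen_inter_preimage hO.isOpen hO'.isOpen
  obtain ⟨h1, h2⟩ := (hO.mono ho inter_subset_left).comp hO' fun x hx => hx.2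
  refine ⟨⟨_, h1, hy, hy'⟩, ?_⟩
  filter_upwards [ho.mem_nhds ⟨hy, hy'⟩] with x hx ξ using h2 (x, ξ) hx

theorem IsRet.smooth (hg : IsRet T Ψ O g) : ContDiffOn ℝ ∞ g.act (O ×ˢ univ) ∧
    MapsTo g.act (O ×ˢ univ) (T ×ˢ univ) ∧ DifferentiableOn ℂ g.act (O ×ˢ univ) ∧
    ∀ p : P n, p.1 ∈ O → ∀ u : P n, fderiv ℝ g.act p u = (fderiv ℂ g.γ p.1 u.1,
      g.N p.1 (u.2 - fderiv ℂ g.α p.1 u.1) + fderiv ℂ g.N p.1 u.1 (p.2 - g.α p.1)) := by
  have hd : ∀ p : P n, p.1 ∈ O → HasFDerivAt g.act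
      (((fderiv ℂ g.γ p.1).comp (ContinuousLinearMap.fst ℂ _ _)).prod
        ((g.N p.1).comp (ContinuousLinearMap.snd ℂ _ _ -
          (fderiv ℂ g.α p.1).comp (ContinuousLinearMap.fst ℂ _ _)) +
        ((fderiv ℂ g.N p.1).comp (ContinuousLinearMap.fst ℂ _ _)).flip (p.2 - g.α p.1))) p := by
    intro p hp
    have hn := hg.isOpen.mem_nhds hp
    have d1 := (hg.γ_hol.differentiableAt hn).hasFDerivAt.comp p hasFDerivAt_fst
    have d2 := (hg.α_hol.differentiableAt hn).hasFDerivAt.comp p hasFDerivAt_fst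
    have d3 := (hg.N_hol.differentiableAt hn).hasFDerivAt.comp p hasFDerivAt_fst
    exact d1.prodMk (d3.clm_apply (hasFDerivAt_snd.sub d2))
  have hD : DifferentiableOn ℂ g.act (O ×ˢ univ) := fun p hp =>
    (hd p hp.1).differentiableAt.differentiableWithinAt
  refine ⟨(hol_smooth (hg.isOpen.prod isOpen_univ) hD).2.1, fun p hp => ⟨hg.maps hp.1, trivial⟩,
    hD, fun p hp u => ?_⟩
  rw [((hd p hp).restrictScalars ℝ).fderiv]
  simp

/-- `N` is determined by `γ`. -/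
theorem Germ.N_eq (hg : Germ T Ψ y g) {γ : E n → E n} {N : E n → E n →L[ℂ] E n}
    (he : g.γ =ᶠ[𝓝 y] γ) (hp : ∀ᶠ x in 𝓝 y, ∀ ξ u, N x ξ ⬝ᵥ fderiv ℂ γ x u = ξ ⬝ᵥ u) :
    g.N =ᶠ[𝓝 y] N := by
  obtain ⟨O, hO, hy⟩ := hg
  filter_upwards [hO.isOpen.mem_nhds hy, he.eventuallyEq_nhds, hp] with x hx h1 h2
  refine clret_ext fun ξ u => ?_
  obtain ⟨v, rfl⟩ := (pair_inv h2).2.2.2 u
  rw [h2, ← h1.fderiv_eq, hO.pair x hx]

theorem Germ.per (hg : Germ T Ψ y g) (he : g.γ =ᶠ[𝓝 y] fun x => x) :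
    Ret.Eq y g (Ret.per g.α) := by
  have h1 : g.N =ᶠ[𝓝 y] fun _ => 1 := hg.N_eq he (Eventually.of_forall fun x ξ u => by simp)
  filter_upwards [he, h1] with x e1 e2 using ⟨e1, rfl, e2⟩

theorem isRet_one (hT : IsOpen T) : IsRet T Ψ T (Ret.per fun _ => 0) :=   ⟨hT, Subset.rfl, differentiableOn_id, differentiableOn_const _, differentiableOn_const _,
    fun _ hx => hx, fun x _ ξ u => by simp [Ret.per], fun x _ ξ => by simp [Ret.per, Ret.act]⟩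

theorem isRet_zm {r0 : ℕ} {z : Fin r0 → E n → E n} (hO : IsOpen O) (hs : O ⊆ T)
    (hz : ∀ k, IsRet T Ψ O (Ret.per (z k))) (m : Fin r0 → ℤ) :
    IsRet T Ψ O (Ret.per (zm z m)) := by
  refine ⟨hO, hs, differentiableOn_id, ?_, differentiableOn_const _, fun _ hx => hs hx,
    fun x _ ξ u => by simp [Ret.per], fun x hx ξ => ?_⟩
  · have := DifferentiableOn.fun_sum (u := Finset.univ) fun k _ =>
      (hz k).α_hol.const_smul (m k : ℂ)
    exact this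
  · let A : AddSubgroup (E n) :=
      { carrier := {v | ∀ ξ, Ψ (x, ξ - v) = Ψ (x, ξ)}
        zero_mem' := fun ξ => by rw [sub_zero]
        add_mem' := fun {a b} ha hb ξ => by rw [← sub_sub, hb, ha]
        neg_mem' := fun {a} ha ξ => by rw [← ha (ξ - -a)]; simp }
    have hA : zm z m x ∈ A := A.sum_mem fun k _ => by
      rw [Int.cast_smul_eq_zsmul]
      exact A.zsmul_mem (x := z k x) (fun ξ => (hz k).eq x hx ξ) _
    exact hA ξ

end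

variable {X : Type} [TopologicalSpace X] [T2Space X] [MeasurableSpace X] (M : Model n X)

theorem Model.sep0 {y : E n} {g g' : Ret n} (hg : Germ M.T M.Ψ y g) (hg' : Germ M.T M.Ψ y g')
    (h : M.C0 * ‖g.α y - g'.α y‖ < 2 * M.c0) : Ret.Eq y g g' := by
  obtain ⟨O, hO, hy⟩ := id hg
  obtain ⟨O', hO', hy'⟩ := id hg'
  have c1 := hO.α_hol.continuousOn.continuousAt (hO.isOpen.mem_nhds hy)
  have c2 := hO'.α_hol.continuousOn.continuousAt (hO'.isOpen.mem_nhds hy')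
  have c3 : ContinuousAt (fun x => M.C0 * ‖g.α x - g'.α x‖) y :=
    continuousAt_const.mul (c1.sub c2).norm
  have key : ∀ᶠ x in 𝓝 y, g.γ x = g'.γ x ∧ g.α x = g'.α x := by
    filter_upwards [hO.isOpen.mem_nhds hy, hO'.isOpen.mem_nhds hy',
      c3.eventually_lt continuousAt_const h] with x hx hx' hlt
    have e1 := hO.eq x hx (g'.α x)
    have e2 := hO'.eq x hx' (g'.α x)
    have hc := M.c0_pos
    have e3 := M.inj (x₁ := g.act (x, g'.α x)) (x₂ := g'.act (x, g'.α x))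
      ⟨hO.maps hx, by
        simp only [Ret.act, mem_ball_zero_iff]
        refine lt_of_le_of_lt ((g.N x).le_of_opNorm_le (M.bd O g hO x hx).2.1 _) ?_
        rwa [norm_sub_rev]⟩
      ⟨hO'.maps hx', by simp [Ret.act, hc]⟩ (e1.trans e2.symm)
    simp only [Ret.act, sub_self, map_zero, Prod.mk.injEq] at e3
    have e4 := (pair_inv (hO.pair x hx)).2.1 (g'.α x - g.α x)
    rw [e3.2, map_zero] at e4
    exact ⟨e3.1, (sub_eq_zero.1 e4.symm).symm⟩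
  have hN : g.N =ᶠ[𝓝 y] g'.N := hg.N_eq (key.mono fun x hx => hx.1)
    (by filter_upwards [hO'.isOpen.mem_nhds hy'] with x hx using hO'.pair x hx)
  filter_upwards [key, hN] with x e1 e2 using ⟨e1.1, e1.2, e2⟩

omit [T2Space X] in
theorem clret_fix {y ξ0 : E n} {k : Ret n} (hk : Germ M.T M.Ψ y k)
    (h0 : k.act (y, ξ0) = (y, ξ0)) :
    ∀ᶠ x in 𝓝 y, k.γ x = x ∧ k.α x = 0 ∧ ∀ ξ, k.act (x, ξ) = (x, ξ) := by
  obtain ⟨O, hO, hy⟩ := id hk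
  obtain ⟨c, -, hc⟩ := M.vol
  obtain ⟨W, hW, hpW, hinj, -⟩ := hc (y, ξ0) (hO.sub hy)
  have hn : O ×ˢ (univ : Set (E n)) ∈ 𝓝 (y, ξ0) :=
    (hO.isOpen.prod isOpen_univ).mem_nhds ⟨hy, trivial⟩
  have c1 : ContinuousAt k.act (y, ξ0) := hO.smooth.2.2.1.continuousOn.continuousAt hn
  have h1 : ∀ᶠ w in 𝓝 (y, ξ0), k.act w = w := by
    filter_upwards [hn, hW.mem_nhds hpW, c1.eventually_mem (hW.mem_nhds (h0.symm ▸ hpW))]
      with w a b d using hinj d b (hO.eq w.1 a.1 w.2)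
  have h2 : ∀ᶠ x in 𝓝 y, k.act (x, ξ0) = (x, ξ0) :=
    (Continuous.prodMk_left ξ0).continuousAt.eventually h1
  have h3 : k.γ =ᶠ[𝓝 y] fun x => x := h2.mono fun x hx => congrArg Prod.fst hx
  filter_upwards [h2, hk.per h3] with x e1 e2
  obtain ⟨a1, -, a3⟩ := e2
  have a4 := congrArg Prod.snd e1
  simp only [Ret.act, Ret.per] at a1 a3 a4
  rw [a3] at a4
  have a5 : k.α x = 0 := by simpa using a4
  exact ⟨a1, a5, fun ξ => by simp [Ret.act, a1, a3, a5]⟩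

theorem Model.inv {y : E n} {g : Ret n} (hg : Germ M.T M.Ψ y g) :
    ∃ g', Germ M.T M.Ψ (g.γ y) g' ∧
      (∀ᶠ x in 𝓝 y, g'.γ (g.γ x) = x ∧ g'.α (g.γ x) = -g.N x (g.α x) ∧
        ∀ ξ, g'.act (g.act (x, ξ)) = (x, ξ)) ∧
      ∀ᶠ x in 𝓝 (g.γ y), g.γ (g'.γ x) = x ∧ ∀ ξ, g.act (g'.act (x, ξ)) = (x, ξ) := by
  obtain ⟨O, hO, hy⟩ := id hg
  have e0 : g.act (y, g.α y) = (g.γ y, 0) := by simp [Ret.act]
  obtain ⟨g', hg', e1⟩ := M.ret (g.γ y, 0) (y, g.α y) (hO.maps hy) (hO.sub hy)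
    (e0 ▸ hO.eq y hy _)
  have e2 : g'.γ (g.γ y) = y := congrArg Prod.fst e1
  obtain ⟨k1, a1⟩ := hg.comp hg'
  obtain ⟨k2, a2⟩ := Germ.comp (h := g) hg' (e2.symm ▸ hg)
  refine ⟨g', hg', ?_, ?_⟩
  · filter_upwards [clret_fix M k1 (by rw [a1.self_of_nhds, e0, e1]), a1,
      hO.isOpen.mem_nhds hy] with x b1 b2 hx
    refine ⟨b1.1, ?_, fun ξ => (b2 ξ).symm.trans (b1.2.2 ξ)⟩
    have b3 := congrArg (g.N x) b1.2.1
    simp only [Ret.comp, map_add, map_zero, (pair_inv (hO.pair x hx)).1] at b3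
    exact eq_neg_of_add_eq_zero_right b3
  · filter_upwards [clret_fix M k2 (by rw [a2.self_of_nhds, e1, e0]), a2] with x b1 b2
    exact ⟨b1.1, fun ξ => (b2 ξ).symm.trans (b1.2.2 ξ)⟩

theorem Model.lim {ι : Type} {l : Filter ι} [l.NeBot] {x : ι → E n} {g : ι → Ret n}
    {y y' ξ : E n} (hy : y ∈ M.T) (hy' : y' ∈ M.T) (hx : Tendsto x l (𝓝 y))
    (hg : ∀ᶠ k in l, Germ M.T M.Ψ (x k) (g k)) (hα : Tendsto (fun k => (g k).α (x k)) l (𝓝 ξ))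
    (hγ : Tendsto (fun k => (g k).γ (x k)) l (𝓝 y')) :
    ∃ g' : Ret n, ∃ ρ > 0, IsRet M.T M.Ψ (ball y ρ) g' ∧ g'.α y = ξ ∧ g'.γ y = y' ∧
      ∀ᶠ k in l, x k ∈ ball y ρ ∧ Ret.Eq (x k) (g k) g' := by
  have ho := M.T_open.prod (isOpen_univ (X := E n))
  have t1 := (M.cont.continuousAt (ho.mem_nhds (show (y, ξ) ∈ _ from ⟨hy, trivial⟩))).tendsto.comp
    (hx.prodMk_nhds hα)
  have t2 := (M.cont.continuousAt (ho.mem_nhds (show (y', (0 : E n)) ∈ _ from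
    ⟨hy', trivial⟩))).tendsto.comp (hγ.prodMk_nhds tendsto_const_nhds)
  have e : M.Ψ (y, ξ) = M.Ψ (y', 0) := by
    refine tendsto_nhds_unique_of_eventuallyEq t1 t2 ?_
    filter_upwards [hg] with k ⟨O, hO, hk⟩
    have := hO.eq _ hk ((g k).α (x k))
    simp only [Ret.act, sub_self, map_zero] at this
    exact this.symm
  obtain ⟨g', hg', e1⟩ := M.ret (y, ξ) (y', 0) hy hy' e
  obtain ⟨ρ, hρ, hb⟩ := hg'.ball
  have hyb := mem_ball_self (x := y) hρ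
  simp only [Ret.act, Prod.mk.injEq] at e1
  have e2 : g'.α y = ξ := by
    have e4 := (pair_inv (hb.pair y hyb)).2.1 (ξ - g'.α y)
    rw [e1.2, map_zero] at e4
    exact (sub_eq_zero.1 e4.symm).symm
  have t3 : Tendsto (fun k => g'.α (x k)) l (𝓝 ξ) :=
    e2 ▸ (hb.α_hol.continuousOn.continuousAt (isOpen_ball.mem_nhds hyb)).tendsto.comp hx
  have t4 : Tendsto (fun k => M.C0 * ‖(g k).α (x k) - g'.α (x k)‖) l (𝓝 (M.C0 * ‖ξ - ξ‖)) :=
    (hα.sub t3).norm.const_mul _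
  have hc := M.c0_pos
  refine ⟨g', ρ, hρ, hb, e2, e1.1, ?_⟩
  filter_upwards [hg, hx.eventually (isOpen_ball.mem_nhds hyb),
    t4.eventually_lt_const (show M.C0 * ‖ξ - ξ‖ < 2 * M.c0 by simp [hc])] with k b1 b2 b3
  exact ⟨b2, M.sep0 b1 ⟨_, hb, b2⟩ b3⟩

end Pool.Agent.CL
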