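import Pool.Agent.P.MP_63735c_ag.HMPoi

/-! A function with small vertical and bounded mixed gradient in the mean has bounded shifts. -/

open scoped ENNReal
open Set Metric MeasureTheory Filter Topology

namespace Pool.Agent.CL

open Pool.Agent.SPF

variable {n : ℕ}

/-- The mean over the segment from a point to its translate by `-z`. -/
noncomputable def Sg (z : E n → E n) (g : P n → ℝ≥0∞) (p : P n) : ℝ≥0∞ :=
  ∫⁻ r in Ioc (0 : ℝ) 1, g (p.1, p.2 - r • z p.1)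

theorem Sg_meas {z : E n → E n} {g : P n → ℝ≥0∞} (hz : Measurable z) (hg : Measurable g) :
    Measurable (Sg z g) := by
  have h : Measurable fun q : P n × ℝ => g (q.1.1, q.1.2 - q.2 • z q.1.1) :=
    hg.comp (by fun_prop)
  exact h.lintegral_prod_right'

theorem hm_prod {g : P n → ℝ≥0∞} (hg : Measurable g) (K B : Set (E n)) :
    ∫⁻ p in K ×ˢ B, g p = ∫⁻ y in K, ∫⁻ ξ in B, g (y, ξ) := by
  rw [Measure.volume_eq_prod, setLIntegral_prod _ hg.aemeasurable]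

theorem hm_shear {z : E n → E n} {g : P n → ℝ≥0∞} (hz : Measurable z) (hg : Measurable g)
    {K : Set (E n)} (hK : MeasurableSet K) {Z R : ℝ} (hZ : ∀ y ∈ K, ‖z y‖ ≤ Z) :
    ∫⁻ p in K ×ˢ closedBall (0 : E n) R, Sg z g p ≤
      ∫⁻ p in K ×ˢ closedBall (0 : E n) (R + Z), g p := by
  rw [hm_prod (Sg_meas hz hg), hm_prod hg]
  refine setLIntegral_mono' hK fun y hy => ?_
  simp only [Sg]
  rw [lintegral_lintegral_swap (f := fun (ξ : E n) (r : ℝ) => g (y, ξ - r • z y))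
    (hg.comp (by fun_prop)).aemeasurable]
  have h : ∀ r ∈ Ioc (0 : ℝ) 1, ∫⁻ ξ in closedBall (0 : E n) R, g (y, ξ - r • z y) ≤
      ∫⁻ ξ in closedBall (0 : E n) (R + Z), g (y, ξ) := by
    intro r hr
    have h1 := hm_tr (μ := volume) (s := closedBall (0 : E n) R)
      (s' := closedBall (0 : E n) (R + Z)) measurableSet_closedBall (-(r • z y))
      (fun x hx => by
        rw [mem_closedBall_zero_iff] at hx ⊢
        refine (norm_add_le _ _).trans ?_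
        rw [norm_neg, norm_smul, Real.norm_of_nonneg hr.1.le]
        have := mul_le_of_le_one_left (norm_nonneg (z y)) hr.2
        linarith [hZ y hy]) fun ξ => g (y, ξ)
    simpa only [neg_add_eq_sub] using h1
  refine (setLIntegral_mono' measurableSet_Ioc h).trans ?_
  simp

theorem hm_det (n : ℕ) (C0 : ℝ) : ∃ c > (0 : ℝ), ∀ N N' : E n →L[ℂ] E n, (∀ ξ, N' (N ξ) = ξ) →
    ‖N'‖ ≤ C0 → c ≤ |(N.restrictScalars ℝ).det| := by
  obtain ⟨B, hB⟩ := (isCompact_closedBall (0 : E n →L[ℝ] E n) C0).exists_bound_of_continuousOn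
    ContinuousLinearMap.continuous_det.continuousOn
  refine ⟨1 / (|B| + 1), by positivity, fun N N' h1 h2 => ?_⟩
  have h3 := hB (N'.restrictScalars ℝ) (by simpa using h2)
  have h4 : (N'.restrictScalars ℝ).det * (N.restrictScalars ℝ).det = 1 := by
    have e : ((N'.restrictScalars ℝ : E n →L[ℝ] E n) : E n →ₗ[ℝ] E n) *
        ((N.restrictScalars ℝ : E n →L[ℝ] E n) : E n →ₗ[ℝ] E n) = 1 := LinearMap.ext h1
    rw [ContinuousLinearMap.det, ContinuousLinearMap.det, ← map_mul, e, map_one]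
  have h5 := congrArg abs h4
  rw [abs_mul, abs_one] at h5
  rw [Real.norm_eq_abs] at h3
  rw [div_le_iff₀ (by positivity)]
  nlinarith [abs_nonneg (N.restrictScalars ℝ).det, le_abs_self B]

theorem hm_core {K : Set (E n)} (hK : IsCompact K) (hc : Convex ℝ K) {θ D B : ℝ≥0∞} (h0 : θ ≠ 0)
    (hD : D ≠ ⊤) (hB : B ≠ ⊤) (C0 : ℝ) : ∃ C : ℝ≥0∞, C ≠ ⊤ ∧ ∀ (Φ : P n → ℝ)
    (G1 G2 : P n → ℝ≥0∞) (R : ℝ) (O : Set (E n)) (γ : E n → E n) (c0 : ℝ), Measurable Φ →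
    Measurable G1 → Measurable G2 → 1 ≤ R → C0 ≤ R →
    (∀ p ∈ K ×ˢ closedBall (0 : E n) 1, ∀ p' ∈ K ×ˢ closedBall (0 : E n) 1,
      edist (Φ p') (Φ p) ≤ ∫⁻ t in Ioc (0 : ℝ) 1, G1 (p + t • (p' - p))) →
    ∫⁻ p in K ×ˢ closedBall (0 : E n) 1, G1 p ≤ B →
    (∀ y ∈ K, ∀ ξ ∈ closedBall (0 : E n) R, ∀ ξ' ∈ closedBall (0 : E n) R,
      edist (Φ (y, ξ')) (Φ (y, ξ)) ≤ ∫⁻ t in Ioc (0 : ℝ) 1, G2 (y, ξ + t • (ξ' - ξ))) →
    ∫⁻ p in K ×ˢ closedBall (0 : E n) R, G2 p ≤ 1 →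
    MeasurableSet O → θ ≤ volume O → O ⊆ K → MapsTo γ O K →
    (∀ f : E n → ℝ≥0∞, ∫⁻ x in O, f (γ x) ≤ D * ∫⁻ x in K, f x) →
    (∀ y ∈ O, ∃ (N N' : E n →L[ℂ] E n) (α : E n), (∀ ξ, N' (N ξ) = ξ) ∧ ‖N‖ ≤ C0 ∧ ‖N'‖ ≤ C0 ∧
      ‖α‖ + 1 ≤ R ∧ ∀ ξ, Φ (γ y, N ξ) - Φ (y, ξ + α) = c0) → ‖c0‖ₑ ≤ C := by
  obtain ⟨c, hc0, hdet⟩ := hm_det n C0
  obtain ⟨v, hv⟩ : ∃ v, v = volume (closedBall (0 : E n) 1) := ⟨_, rfl⟩
  have v0 : v ≠ 0 := hv ▸ (measure_closedBall_pos _ _ one_pos).ne'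
  have v1 : v ≠ ⊤ := hv ▸ measure_closedBall_lt_top.ne
  obtain ⟨a, ha⟩ : ∃ a : ℝ≥0∞, a = 2 ^ Module.finrank ℝ (P n) := ⟨_, rfl⟩
  obtain ⟨b, hb⟩ : ∃ b : ℝ≥0∞, b = 2 ^ Module.finrank ℝ (E n) := ⟨_, rfl⟩
  have a1 : a ≠ ⊤ := ha ▸ by finiteness
  have b1 : b ≠ ⊤ := hb ▸ by finiteness
  obtain ⟨B1, hB1⟩ : ∃ B1, B1 = (a * B + b) + D * (a * B + b) := ⟨_, rfl⟩
  have B1t : B1 ≠ ⊤ := hB1 ▸ by finiteness
  obtain ⟨B2, hB2⟩ : ∃ B2, B2 = (B1 + 1) / θ := ⟨_, rfl⟩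
  have B2t : B2 ≠ ⊤ := hB2 ▸ ENNReal.div_ne_top (by finiteness) h0
  have ci : (ENNReal.ofReal c)⁻¹ ≠ ⊤ := by simpa using hc0
  refine ⟨((ENNReal.ofReal c)⁻¹ * B2 + B2 + B2 + B2) / v, ENNReal.div_ne_top (by finiteness) v0,
    fun Φ G1 G2 R O γ c0 mΦ m1 m2 hR hR0 h1 i1 h2 i2 mO hθ hO hm hcov hret => ?_⟩
  have k1 : volume K ≠ ⊤ := hK.measure_lt_top.ne
  have k0 : volume K ≠ 0 := fun h => h0 (le_zero_iff.1 (hθ.trans ((measure_mono hO).trans h.le)))
  have θ1 : θ ≠ ⊤ := ne_top_of_le_ne_top k1 (hθ.trans (measure_mono hO))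
  have mB : ∀ r : ℝ, MeasurableSet (closedBall (0 : E n) r) := fun r => measurableSet_closedBall
  have vp : volume (K ×ˢ closedBall (0 : E n) 1) = volume K * v := by
    rw [Measure.volume_eq_prod, Measure.prod_prod, hv]
  have : (volume : Measure (P n)).IsAddHaarMeasure := Measure.prod.instIsAddHaarMeasure _ _
  obtain ⟨m0, hm0⟩ := hm_poi (μ := volume) (hK.measurableSet.prod (mB 1))
    (hc.prod (convex_closedBall _ _)) (vp ▸ mul_ne_zero k0 v0) (vp ▸ by finiteness) m1 h1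
  have mW : Measurable fun p => edist (Φ p) m0 := mΦ.edist measurable_const
  have mE : ∀ f : E n → P n, Measurable f → ∀ m : ℝ, Measurable fun ξ => edist (Φ (f ξ)) m :=
    fun f hf m => (mΦ.comp hf).edist measurable_const
  obtain ⟨W, hW⟩ : ∃ W : E n → ℝ≥0∞,
    W = fun y => ∫⁻ ξ in closedBall (0 : E n) 1, edist (Φ (y, ξ)) m0 := ⟨_, rfl⟩
  obtain ⟨V, hV⟩ : ∃ V : E n → ℝ≥0∞,
    V = fun y => b * ∫⁻ ξ in closedBall (0 : E n) R, G2 (y, ξ) := ⟨_, rfl⟩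
  have mW' : Measurable W := hW ▸ mW.lintegral_prod_right'
  have mV : Measurable V := hV ▸ m2.lintegral_prod_right'.const_mul b
  have iF : ∫⁻ y in K, (W y + V y) ≤ a * B + b := by
    rw [lintegral_add_left mW', hW, hV, lintegral_const_mul' _ _ b1, ← hm_prod mW, ← hm_prod m2]
    refine add_le_add (hm0.trans (ha ▸ mul_le_mul_right i1 _)) ?_
    simpa using mul_le_mul_right i2 b
  have iO : ∫⁻ y in O, ((W y + V y) + (W (γ y) + V (γ y))) ≤ B1 := by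
    rw [lintegral_add_left (f := fun y => W y + V y) (mW'.add mV), hB1]
    exact add_le_add ((lintegral_mono_set hO).trans iF)
      ((hcov fun y => W y + V y).trans (mul_le_mul_right iF _))
  obtain ⟨y, hy, hsel⟩ := hm_sel mO h0 θ1 hθ B1t iO
  rw [← hB2] at hsel
  have key : ∀ y ∈ K, W y + V y ≤ B2 → ∃ m : ℝ, edist m m0 * v ≤ B2 ∧
      ∫⁻ ξ in closedBall (0 : E n) R, edist (Φ (y, ξ)) m ≤ B2 := by
    intro y hy h
    obtain ⟨m, hm⟩ := hm_poi (μ := volume) (mB R) (convex_closedBall _ _)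
      (measure_closedBall_pos _ _ (by linarith)).ne' measure_closedBall_lt_top.ne
      (G := fun ξ => G2 (y, ξ)) (m2.comp (by fun_prop)) (Φ := fun ξ => Φ (y, ξ)) (h2 y hy)
    have hm' : ∫⁻ ξ in closedBall (0 : E n) R, edist (Φ (y, ξ)) m ≤ V y := by
      rw [hV, hb]
      exact hm
    refine ⟨m, ?_, hm'.trans (le_add_self.trans h)⟩
    rw [hv, ← setLIntegral_const]
    refine (lintegral_mono fun ξ => edist_triangle_left m m0 (Φ (y, ξ))).trans ?_
    rw [lintegral_add_left (mE (fun ξ => (y, ξ)) (by fun_prop) m)]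
    refine le_trans ?_ h
    rw [add_comm, hW]
    exact add_le_add le_rfl ((lintegral_mono_set (closedBall_subset_closedBall hR)).trans hm')
  obtain ⟨m, e1, e2⟩ := key y (hO hy) (le_self_add.trans hsel)
  obtain ⟨m', e3, e4⟩ := key (γ y) (hm hy) (le_add_self.trans hsel)
  obtain ⟨N, N', α, n1, n2, n3, n4, n5⟩ := hret y hy
  have e5 : ∫⁻ ξ in closedBall (0 : E n) 1, edist (Φ (y, ξ + α)) m ≤ B2 := by
    have h := hm_tr (μ := volume) (s' := closedBall (0 : E n) R) (mB 1) α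
      (fun x hx => by
        rw [mem_closedBall_zero_iff] at hx ⊢
        linarith [norm_add_le α x]) fun ξ => edist (Φ (y, ξ)) m
    simp only [add_comm α] at h
    exact h.trans e2
  have e6 : ∫⁻ ξ in closedBall (0 : E n) 1, edist (Φ (γ y, N ξ)) m' ≤
      (ENNReal.ofReal c)⁻¹ * B2 := by
    have h := hm_chg (μ := volume) (s' := closedBall (0 : E n) R) (mB 1) 0 (N.restrictScalars ℝ)
      (Function.LeftInverse.injective n1)
      (fun x hx => by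
        rw [mem_closedBall_zero_iff] at hx ⊢
        rw [zero_add]
        have h3 := N.le_opNorm x
        have h4 := mul_le_of_le_one_right (norm_nonneg N) hx
        exact h3.trans (by linarith)) (hdet N N' n1 n3) fun ξ => edist (Φ (γ y, ξ)) m'
    simp only [zero_add] at h
    rw [← ENNReal.div_eq_inv_mul, ENNReal.le_div_iff_mul_le (Or.inl (by simpa using hc0))
      (Or.inl ENNReal.ofReal_ne_top), mul_comm]
    exact h.trans e4
  rw [ENNReal.le_div_iff_mul_le (Or.inl v0) (Or.inl v1)]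
  have e7 : ∀ ξ, ‖c0‖ₑ ≤ edist (Φ (γ y, N ξ)) m' + (edist (Φ (y, ξ + α)) m +
      (edist m' m0 + edist m m0)) := fun ξ => by
    rw [← n5 ξ, ← edist_eq_enorm_sub]
    calc _ ≤ edist (Φ (γ y, N ξ)) m' + edist m' (Φ (y, ξ + α)) := edist_triangle _ _ _
      _ ≤ _ := add_le_add le_rfl ((edist_triangle_right _ _ m).trans (by
        rw [add_comm]
        exact add_le_add le_rfl (edist_triangle_right _ _ m0)))
  calc _ = ∫⁻ _ in closedBall (0 : E n) 1, ‖c0‖ₑ := by rw [setLIntegral_const, hv]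
    _ ≤ _ := lintegral_mono e7
    _ ≤ _ := by
      rw [lintegral_add_left (mE (fun ξ => (γ y, N ξ)) (by fun_prop) m'),
        lintegral_add_left (mE (fun ξ => (y, ξ + α)) (by fun_prop) m), setLIntegral_const,
        ← hv, add_mul, add_assoc, add_assoc]
      exact add_le_add e6 (add_le_add e5 (add_le_add e3 e1))

end Pool.Agent.CL
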