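import Pool.Agent.P.MP_63735c_ag.CLDefsB
import Pool.Agent.P.MP_63735c_ag.CLPar
import Pool.Agent.P.MP_63735c_ag.CLGreen
import Pool.Agent.P.MP_63735c_ag.CWCov
import Pool.Agent.P.MP_63735c_ag.HMN2

/-! Existence of the shift functions. -/

open scoped ContDiff Matrix ENNReal
open Set Metric MeasureTheory Filter Topology

namespace Pool.Agent.CL

open Pool.Agent.SPF

variable {n : ℕ} {X : Type} [TopologicalSpace X] [T2Space X] [MeasurableSpace X]

section General

variable {F : Type} [NormedAddCommGroup F] [NormedSpace ℝ F]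

lemma clsh_par_zero (t : Form2 F) (p z : F) : par t p z 0 = 0 := by
  simp [par]

/-- Vectors with no area against the period `z`. -/
def clshZ {t : Form2 F} (ht : Closed2 univ t) {z : F} (hz : ∀ x, t (x + z) = t x) :
    AddSubgroup F where
  carrier := {b | ∀ p, par t p z b = 0}
  zero_mem' p := clsh_par_zero t p z
  add_mem' {b b'} hb hb' p := by
    rw [(par_per ht hz).1 p b b', hb p, hb' (p + b), add_zero]
  neg_mem' {b} hb p := by
    have h := (par_per ht hz).1 (p - b) b (-b)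
    rw [add_neg_cancel, clsh_par_zero, hb (p - b), zero_add, sub_add_cancel] at h
    exact h.symm

lemma clsh_rad_sum {W : Set F} (hc : Convex ℝ W) {ι : Type} [Fintype ι] {a : ι → Form2 F}
    (ha : ∀ j, Closed2 W (a j)) {r : ι → ℝ} (hr : ∀ p ∈ W, ∑ j, r j • a j p = 0) {o x : F}
    (ho : o ∈ W) (hx : x ∈ W) : ∑ j, r j • rad (a j) o x = 0 := by
  have hm : ∀ s ∈ Icc (0 : ℝ) 1, o + s • (x - o) ∈ W := fun s hs =>
    hc.add_smul_sub_mem ho hx hs
  ext u
  simp only [ContinuousLinearMap.sum_apply, ContinuousLinearMap.smul_apply, smul_eq_mul,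
    ContinuousLinearMap.zero_apply]
  have hint : ∀ j, IntervalIntegrable
      (fun s : ℝ => r j * (s * a j (o + s • (x - o)) (x - o) u)) volume 0 1 := by
    intro j
    apply ContinuousOn.intervalIntegrable
    rw [uIcc_of_le zero_le_one]
    have h1 : ContinuousOn (fun s : ℝ => a j (o + s • (x - o))) (Icc 0 1) :=
      (ha j).1.continuousOn.comp (by fun_prop) hm
    exact continuousOn_const.mul (continuousOn_id.mul
      ((h1.clm_apply continuousOn_const).clm_apply continuousOn_const))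
  have h2 : ∀ j, r j * rad (a j) o x u =
      ∫ s in (0 : ℝ)..1, r j * (s * a j (o + s • (x - o)) (x - o) u) := by
    intro j
    rw [rad_apply hc (ha j) ho hx, intervalIntegral.integral_const_mul]
  simp only [h2]
  rw [← intervalIntegral.integral_finsetSum fun j _ => hint j]
  rw [intervalIntegral.integral_congr (g := fun _ => (0 : ℝ))]
  · simp
  · intro s hs
    rw [uIcc_of_le zero_le_one] at hs
    have h3 := congrArg (fun b : F →L[ℝ] F →L[ℝ] ℝ => s * b (x - o) u) (hr _ (hm s hs))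
    simp only [ContinuousLinearMap.sum_apply, ContinuousLinearMap.smul_apply, smul_eq_mul,
      ContinuousLinearMap.zero_apply, mul_zero, Finset.mul_sum] at h3
    rw [← h3]
    exact Finset.sum_congr rfl fun j _ => by ring

end General

section Flux

variable {Y : Type} {T : Set (E n)} {Ψ : P n → Y} {z : E n → E n} {o p : P n}

lemma clsh_Pi_zero (hc : Convex ℝ T) {B : Form1 (P n)} (hB : ∀ x : P n, x.1 ∈ T → B x = 0)
    (ho : o.1 ∈ T) (hp : p.1 ∈ T) : Pi B z o p = 0 := by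
  have e1 : segInt B p ((Ret.per z).act p) = 0 := by
    unfold segInt
    rw [intervalIntegral.integral_congr (g := fun _ => (0 : ℝ))]
    · simp
    · intro s _
      have hm : (p + s • ((Ret.per z).act p - p)).1 ∈ T := by
        simpa [Ret.act, Ret.per] using hp
      simp only [hB _ hm]
      simp
  have e2 : Dg B (Ret.per z) o p = 0 := by
    unfold Dg segInt
    rw [intervalIntegral.integral_congr (g := fun _ => (0 : ℝ))]
    · simp
    · intro s hs
      rw [uIcc_of_le zero_le_one] at hs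
      have hm : (o + s • (p - o)).1 ∈ T := hc.add_smul_sub_mem ho hp hs
      have h1 := hB _ hm
      have h2 := hB ((Ret.per z).act (o + s • (p - o))) hm
      simp only [pull1, h1, h2]
      simp
  rw [Pi, e1, e2, sub_zero]

lemma clsh_Pi_sum (hT : IsOpen T) (hc : Convex ℝ T) {ι : Type} {B : ι → Form1 (P n)}
    (hB : ∀ j, ContinuousOn (B j) (T ×ˢ univ)) (hz : IsRet T Ψ T (Ret.per z)) (ho : o.1 ∈ T)
    (hp : p.1 ∈ T) (r : ι → ℝ) (s : Finset ι) :
    Pi (fun x => ∑ j ∈ s, r j • B j x) z o p = ∑ j ∈ s, r j * Pi (B j) z o p := by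
  classical
  induction s using Finset.induction_on with
  | empty => simpa using clsh_Pi_zero hc (B := fun _ => 0) (fun _ _ => rfl) ho hp
  | insert j s hj ih =>
    have h1 : ContinuousOn (fun x => ∑ j ∈ s, r j • B j x) (T ×ˢ univ) :=
      continuousOn_finsetSum _ fun i _ => (hB i).const_smul (r i)
    have h2 := Pi_comb hT (hB j) h1 hc hz ho (r j) 1 hp
    rw [Finset.sum_insert hj, ← ih, ← one_mul (Pi (fun x => ∑ j ∈ s, r j • B j x) z o p), ← h2]
    congr 1
    funext x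
    rw [Finset.sum_insert hj, one_smul]

lemma clsh_leaf (c : ℂ) (a : Form2 (P n)) (y : E n) :
    leaf (fun p => sig c + a p) y = leaf a y := by
  funext ξ
  ext u v
  simp [leaf, sig_apply]

lemma clsh_zm_N {r0 : ℕ} {z : Fin r0 → E n → E n} {N : E n →L[ℂ] E n} {y y' : E n}
    (h : ∀ k, N (z k y) = z k y') (m : Fin r0 → ℤ) : N (zm z m y) = zm z m y' := by
  simp [zm, map_sum, h]

lemma clsh_single {I : Finset (Fin n)} {s : E n} (hs : ∀ k, k ∉ I → s k = 0) :
    s = ∑ i ∈ I, s i • (Pi.single i 1 : E n) := by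
  funext k
  by_cases hk : k ∈ I
  · simp [Finset.sum_apply, Pi.single_apply, hk]
  · simp [Finset.sum_apply, Pi.single_apply, hk, hs k hk]

end Flux

lemma clsh_ZI {M : Model n X} (Q : Per M) {s : E n} (hs : s ∈ ZI Q.I) :
    ∃ m, ∀ x ∈ M.T, zm Q.z m x = s := by
  classical
  have h1 : ∀ i, ∃ m, i ∈ Q.I → ∀ y ∈ M.T, zm Q.z m y = Pi.single i 1 := by
    intro i
    by_cases hi : i ∈ Q.I
    · obtain ⟨m, hm⟩ := Q.e_mem i hi
      exact ⟨m, fun _ => hm⟩
    · exact ⟨0, fun h => absurd h hi⟩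
  choose mi hmi using h1
  choose k hk using fun i => (hs i).1
  refine ⟨fun l => ∑ i ∈ Q.I, k i * mi i l, fun x hx => ?_⟩
  rw [clsh_single fun i hi => (hs i).2 hi]
  have h2 : ∀ i ∈ Q.I, s i • (Pi.single i 1 : E n) = ∑ l, ((k i : ℂ) * (mi i l : ℂ)) • Q.z l x := by
    intro i hi
    rw [← hmi i hi x hx, hk i, zm, Finset.smul_sum]
    exact Finset.sum_congr rfl fun l _ => by rw [smul_smul]
  rw [Finset.sum_congr rfl h2, Finset.sum_comm, zm]
  refine Finset.sum_congr rfl fun l _ => ?_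
  rw [← Finset.sum_smul]
  push_cast; rfl

lemma clsh_fix {M : Model n X} (Q : Per M) {O : Set (E n)} {g : Ret n} (hg : IsRet M.T M.Ψ O g)
    (h : ∀ y ∈ O, ∀ k, g.N y (Q.z k y) = Q.z k (g.γ y)) :
    ∀ x ∈ O, ∀ s ∈ RI Q.I, g.N x s = s := by
  intro x hx s hs
  have h1 : ∀ i ∈ Q.I, g.N x (Pi.single i 1) = Pi.single i 1 := by
    intro i hi
    obtain ⟨m, hm⟩ := Q.e_mem i hi
    have := clsh_zm_N (h x hx) m
    rwa [hm x (hg.sub hx), hm _ (hg.maps hx)] at this
  have h2 := clsh_single fun i hi => (hs i).2 hi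
  calc g.N x s = g.N x (∑ i ∈ Q.I, s i • (Pi.single i 1 : E n)) := by rw [← h2]
    _ = ∑ i ∈ Q.I, s i • (Pi.single i 1 : E n) := by
      rw [map_sum]
      exact Finset.sum_congr rfl fun i hi => by rw [map_smul, h1 i hi]
    _ = s := h2.symm

theorem exists_sh (S : Setup n X) (A : Avg S) : Nonempty (Sh S A) := by
  classical
  obtain ⟨hT, hc, hr⟩ := And.intro S.M.T_open (And.intro S.M.T_conv S.G.r_pos)
  have hy0 : S.G.y0 ∈ S.M.T := S.G.sub (mem_closedBall_self (by linarith))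
  set o : P n := (S.G.y0, 0) with ho_def
  have ho : o.1 ∈ S.M.T := hy0
  have hW : IsOpen (S.M.T ×ˢ (univ : Set (E n))) := hT.prod isOpen_univ
  have hWc : Convex ℝ (S.M.T ×ˢ (univ : Set (E n))) := hc.prod convex_univ
  have hoW : o ∈ S.M.T ×ˢ (univ : Set (E n)) := ⟨ho, trivial⟩
  have hom : IsPrim (S.M.T ×ˢ univ) (rad S.M.om o) S.M.om :=
    rad_prim hW hWc S.M.om_form.closed hoW
  have hra : ∀ j, IsPrim (S.M.T ×ˢ univ) (rad (S.M.a j) o) (S.M.a j) := fun j =>
    rad_prim hW hWc (S.M.a_form j).closed hoW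
  set Aj : Fin S.M.m → Form1 (P n) := fun j x =>
    (1 : ℝ) • liou (S.M.c j) x + (1 : ℝ) • rad (S.M.a j) o x with hAj_def
  have hAj : ∀ j, IsPrim (S.M.T ×ˢ univ) (Aj j) (fun p => sig (S.M.c j) + S.M.a j p) := by
    intro j
    have := IsPrim.comb hW (liou_prim _ (S.M.c j)) (hra j) 1 1
    simpa only [hAj_def, one_smul] using this
  have hinv : ∀ j O g, IsRet S.M.T S.M.Ψ O g →
      Inv (fun p => sig (S.M.c j) + S.M.a j p) O g := by
    intro j O g hg p hp u v
    have h1 := sig_inv hg (S.M.closed O g hg) (S.M.c j) p hp u v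
    have h2 := (S.M.a_form j).inv O g hg p hp u v
    simp only [ContinuousLinearMap.add_apply]
    rw [h2]
    exact congrArg (· + _) h1
  have hz := S.Q.per0.z_ret
  have hzm : ∀ m, IsRet S.M.T S.M.Ψ S.M.T (Ret.per (zm S.Q.z m)) :=
    isRet_zm hT Subset.rfl hz
  have hiom : ∀ O g, IsRet S.M.T S.M.Ψ O g → Inv S.M.om O g := S.M.om_form.inv
  have b1 : ball S.G.y0 (S.G.r / 2) ⊆ ball S.G.y0 (2 * S.G.r) := ball_subset_ball (by linarith)
  have hsub : ∀ m j, ∀ κ > (0 : ℝ), ∀ θ : ℝ≥0∞, θ ≠ 0 → ∃ C, ∀ (jj : S.G.G) (O : Set (E n))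
      (Λ c : ℝ), S.G.lg.sz jj ≤ S.G.lg.ε → MeasurableSet O → θ ≤ volume O →
      O ⊆ ball S.G.y0 (S.G.r / 2) → (∀ y ∈ O, ∃ g, Germ S.M.T S.M.Ψ y g ∧ g.γ y = S.G.γ jj y ∧
        (∀ k, g.N y (S.Q.z k y) = S.Q.z k (g.γ y)) ∧ ‖g.α y‖ ≤ Λ ∧ ∀ ξ,
        -Pi (Aj j) (zm S.Q.z m) o (g.act (y, ξ)) - -Pi (Aj j) (zm S.Q.z m) o (y, ξ) = c) →
      |c| ≤ κ * Λ + C := by
    intro m j κ hκ θ h0
    have ne : ∀ O : Set (E n), θ ≤ volume O → O.Nonempty := fun O h =>
      nonempty_of_measure_ne_zero fun h1 => h0 (le_zero_iff.1 (h.trans h1.le))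
    have mp : ∀ jj, S.G.lg.sz jj ≤ S.G.lg.ε →
        MapsTo (S.G.γ jj) (ball S.G.y0 (S.G.r / 2)) (ball S.G.y0 S.G.r) := fun jj h =>
      S.G.maps h b1 (by linarith [(S.G.Lsz h).2])
    obtain ⟨D, hD, hcov⟩ := S.G.cov
    obtain ⟨C, hC⟩ := S.M.n2 (S.M.c j) (hAj j) (hzm m) (hinv j _ _ (hzm m)) ho (S.M.a_null j)
      (isCompact_closedBall S.G.y0 S.G.r) (convex_closedBall _ _)
      ((closedBall_subset_closedBall (by linarith)).trans S.G.sub) h0 hD
    refine ⟨C, fun jj O Λ c h1 h2 h3 h4 h5 => ?_⟩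
    have hm : MapsTo (S.G.γ jj) O (closedBall S.G.y0 S.G.r) := fun y hy =>
      ball_subset_closedBall (mp jj h1 (h4 hy))
    have h6 := hC O (S.G.γ jj) Λ (-c) h2 h3
      (h4.trans ((ball_subset_ball (by linarith)).trans ball_subset_closedBall)) hm
      (hcov jj h1 O _ h2 (h4.trans b1) hm) fun y hy => by
        obtain ⟨g, g0, g1, g2, g3, g4⟩ := h5 y hy
        exact ⟨g, g0, g1, clsh_zm_N g2 m, g3, fun ξ => by linarith [g4 ξ]⟩
    obtain ⟨y, hy⟩ := ne O h3
    obtain ⟨g, -, -, -, g3, -⟩ := h5 y hy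
    rw [abs_neg] at h6
    linarith [mul_nonneg hκ.le ((norm_nonneg _).trans g3)]
  refine ⟨{
    Idx := Fin S.Q.r0 ⊕ Fin n ⊕ ((Fin S.Q.r0 → ℤ) × ℂ) ⊕ ((Fin S.Q.r0 → ℤ) × Fin S.M.m)
    Fn := Sum.elim (fun k => Pi (rad S.M.om o) (S.Q.z k) o) (Sum.elim (fun i p => (A.r p i).re)
      (Sum.elim (fun q p => (q.2 * hprim (zm S.Q.z q.1) S.G.y0 p.1).re)
        fun q p => -Pi (Aj q.2) (zm S.Q.z q.1) o p))
    shift := ?_
    zinv := ?_
    rad := ?_
    imom := fun i => Sum.inr (Sum.inl i)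
    mom := fun _ _ => rfl
    ichi := fun m c => Sum.inr (Sum.inr (Sum.inl (m, c)))
    chi := fun _ _ _ => rfl
    iint := fun m j => Sum.inr (Sum.inr (Sum.inr (m, j)))
    int := ?_
    sub := ?_
    span := ?_ }⟩
  · rintro (k | i | ⟨m, c⟩ | ⟨m, j⟩) O g hg hO h
    · exact Pi_shift hT hom hc (hz k) (hiom _ _ (hz k)) ho hg hO hg.sub hg.maps (hiom _ _ hg)
        fun y hy => h y hy k
    · obtain ⟨ρ, -, hρ⟩ := A.r_shift O g hg hO.isPreconnected (clsh_fix S.Q hg h)
      refine ⟨(ρ i).re, fun p hp => ?_⟩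
      rw [← hρ p hp]
      simp
    · obtain ⟨c0, h0⟩ := Pi_shift hT (liou_prim _ c) hc (hzm m)
        (sig_inv (hzm m) (S.M.closed _ _ (hzm m)) c) ho hg hO hg.sub hg.maps
        (sig_inv hg (S.M.closed _ _ hg) c) fun y hy => clsh_zm_N (h y hy) m
      refine ⟨-c0, fun p hp => ?_⟩
      have h1 := h0 p hp
      have h2 : (g.act p).1 ∈ S.M.T := hg.maps hp
      rw [Pi_liou hc (hzm m) ho c h2, Pi_liou hc (hzm m) ho c (hg.sub hp)] at h1
      simp only [Sum.elim_inr, Sum.elim_inl]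
      linarith
    · obtain ⟨c0, h0⟩ := Pi_shift hT (hAj j) hc (hzm m) (hinv j _ _ (hzm m)) ho hg hO hg.sub
        hg.maps (hinv j _ _ hg) fun y hy => clsh_zm_N (h y hy) m
      refine ⟨-c0, fun p hp => ?_⟩
      have h1 := h0 p hp
      simp only [Sum.elim_inr]
      linarith
  · rintro (k | i | ⟨m, c⟩ | ⟨m, j⟩) s hs y hy ξ
    · have h1 := Pi_leaf hT hom hc (hz k) (hiom _ _ (hz k)) ho hy ξ s
      have hcl := leaf_closed hT S.M.om_form.closed hy
      have hper := leaf_per (hz k) (hiom _ _ (hz k)) hy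
      have h2 : s ∈ clshZ hcl hper := by
        rw [clsh_single fun i hi => (hs i).2 hi]
        refine AddSubgroup.sum_mem _ fun i hi => ?_
        obtain ⟨l, hl⟩ := (hs i).1
        rw [hl, Int.cast_smul_eq_zsmul]
        refine AddSubgroup.zsmul_mem _ (fun p => ?_) l
        rw [par_skew hcl, S.Q.e_zero i hi k y hy p, neg_zero]
      rw [h2 ξ] at h1
      simp only [Sum.elim_inl]
      linarith
    · simp only [Sum.elim_inr, Sum.elim_inl]
      rw [A.r_RI y hy ξ s (ZI.sub_RI hs)]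
    · rfl
    · obtain ⟨m', hm'⟩ := clsh_ZI S.Q hs
      obtain ⟨c0, h0⟩ := Pi_shift hT (hAj j) hc (hzm m) (hinv j _ _ (hzm m)) ho (hzm m') hc
        Subset.rfl (hzm m').maps (hinv j _ _ (hzm m')) fun _ _ => rfl
      have h1 : ∀ y ∈ S.M.T, ∀ ξ, Pi (Aj j) (zm S.Q.z m) o (y, ξ - s) -
          Pi (Aj j) (zm S.Q.z m) o (y, ξ) = c0 := fun y hy ξ => by
        rw [← hm' y hy]
        exact h0 (y, ξ) hy
      have h2 : ∀ k : ℕ, ∀ y ∈ S.M.T, ∀ ξ, Pi (Aj j) (zm S.Q.z m) o (y, ξ - (k : ℂ) • s) -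
          Pi (Aj j) (zm S.Q.z m) o (y, ξ) = k * c0 := fun k y hy ξ => by
        induction k with
        | zero => simp
        | succ k ih =>
          have h3 := h1 y hy (ξ - (k : ℂ) • s)
          rw [Nat.cast_succ, Nat.cast_succ, add_smul, one_smul, ← sub_sub]
          linarith
      have h3 : c0 = 0 := by
        by_contra hne
        have ha := abs_pos.2 hne
        obtain ⟨C, hC⟩ := hsub m j (|c0| / (2 * (‖s‖ + 1))) (by positivity) _
          (measure_ball_pos volume S.G.y0 (half_pos hr)).ne'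
        obtain ⟨k, hk⟩ := exists_nat_gt (2 * C / |c0|)
        have h4 := hC S.G.lg.one _ (k * (‖s‖ + 1)) (-(k * c0)) (by simpa [LG.sz] using S.G.lg.ε_pos.le)
          measurableSet_ball le_rfl Subset.rfl fun x hx => by
            have hx' := S.G.ball_sub (b1 hx)
            have e : zm S.Q.z ((k : ℤ) • m') x = (k : ℂ) • s := by
              rw [← hm' x hx']
              simp [zm, Finset.smul_sum, smul_smul]
            refine ⟨Ret.per (zm S.Q.z ((k : ℤ) • m')), ⟨_, hzm _, hx'⟩, (S.G.γ_one x).symm,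
              fun _ => rfl, ?_, fun ξ => ?_⟩
            · show ‖zm S.Q.z ((k : ℤ) • m') x‖ ≤ _
              rw [e, norm_smul, Complex.norm_natCast]
              exact mul_le_mul_of_nonneg_left (by linarith) (Nat.cast_nonneg _)
            · rw [clpi_act, e]
              linarith [h2 k x hx' ξ]
        have h5 : |c0| / (2 * (‖s‖ + 1)) * (k * (‖s‖ + 1)) = k * |c0| / 2 := by field_simp
        rw [abs_neg, abs_mul, Nat.abs_cast, h5] at h4
        rw [div_lt_iff₀ ha] at hk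
        linarith
      have h4 := h1 y hy (ξ + s)
      rw [add_sub_cancel_right, h3] at h4
      simp only [Sum.elim_inr]
      linarith
  · intro m y hy h
    refine S.Q.rad m y hy fun k => ?_
    have h1 := Pi_leaf hT hom hc (hz k) (hiom _ _ (hz k)) ho hy (-zm S.Q.z m y) (zm S.Q.z m y)
    have h2 := h (Sum.inl k)
    simp only [Sum.elim_inl] at h2
    rw [neg_add_cancel, h2, sub_self] at h1
    have hcl := leaf_closed hT S.M.om_form.closed hy
    have hper := leaf_per (hz k) (hiom _ _ (hz k)) hy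
    have hp2 := leaf_per (hzm m) (hiom _ _ (hzm m)) hy
    rw [par_skew hcl, (par_per hcl hper).2.2 _ hp2 0 (-zm S.Q.z m y), ← h1, neg_zero]
  · intro m j O g hg p hp h
    obtain ⟨k, hk⟩ := Pi_int hT (hAj j) (S.M.a_int j) hc (hzm m) ho hg hp (hg.sub hp)
      (hg.maps hp) (clsh_zm_N h m)
    refine ⟨-k, ?_⟩
    simp only [Sum.elim_inr]
    push_cast
    linarith
  · exact hsub
  · intro m c
    obtain ⟨r, hr1, hr2⟩ := S.M.a_span c
    refine ⟨r, fun p hp => ?_⟩
    simp only [Sum.elim_inr, Sum.elim_inl]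
    have h1 : ∀ j, Pi (Aj j) (zm S.Q.z m) o p = -(S.M.c j * hprim (zm S.Q.z m) S.G.y0 p.1).re +
        Pi (rad (S.M.a j) o) (zm S.Q.z m) o p := by
      intro j
      rw [hAj_def]
      simp only []
      rw [Pi_comb hT (liou_prim _ (S.M.c j)).1.continuousOn (hra j).1.continuousOn hc (hzm m) ho
        1 1 hp, Pi_liou hc (hzm m) ho _ hp, one_mul, one_mul]
    have h2 := clsh_Pi_sum hT hc (fun j => (hra j).1.continuousOn) (hzm m) ho hp r Finset.univ
    rw [clsh_Pi_zero hc (fun x hx => clsh_rad_sum hWc (fun j => (S.M.a_form j).closed)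
      (fun q hq => hr2 q hq.1) hoW ⟨hx, trivial⟩) ho hp] at h2
    have h3 : (c * hprim (zm S.Q.z m) S.G.y0 p.1).re =
        ∑ j, r j * (S.M.c j * hprim (zm S.Q.z m) S.G.y0 p.1).re := by
      rw [← hr1, Finset.sum_mul, Complex.re_sum]
      exact Finset.sum_congr rfl fun j _ => by rw [mul_assoc, Complex.re_ofReal_mul]
    rw [h3, ← sub_zero (∑ j, r j * (S.M.c j * hprim (zm S.Q.z m) S.G.y0 p.1).re), h2,
      ← Finset.sum_sub_distrib]
    exact Finset.sum_congr rfl fun j _ => by rw [h1 j]; ring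

end Pool.Agent.CL
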