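import Pool.Agent.P.MP_63735c_ag.CKForm

/-! Pull-backs by the uniformising map. -/

open scoped ComplexOrder ContDiff Matrix
open Set Metric MeasureTheory Filter Topology

namespace Pool.Agent.CK

open Pool.Agent.SPF Pool.Agent.CL Pool.Agent.NL

variable {N n : ℕ} {X : Type} [TopologicalSpace X] {A : Atlas X N} {T O : Set (E n)}
  {Ψ : P n → X}

variable {β : A.ι → Form2 (E N)}

theorem ckpull_real {M K : Type} [NormedAddCommGroup M] [NormedSpace ℝ M] [NormedSpace ℂ M]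
    [IsScalarTower ℝ ℂ M] [NormedAddCommGroup K] [NormedSpace ℝ K] [NormedSpace ℂ K]
    [IsScalarTower ℝ ℂ K] {f : M → K} {p : M} (h : DifferentiableAt ℂ f p) (u : M) :
    fderiv ℝ f p u = fderiv ℂ f p u := by
  rw [(h.hasFDerivAt.restrictScalars ℝ).fderiv]
  rfl

theorem ckpull_two (hinj : ∀ i, InjOn (A.p i) (A.C i).W) (hβ : GForm A β) {p : P n} {i j : A.ι}
    {f f' : P n → E N} (h : Lf A Ψ p i f) (h' : Lf A Ψ p j f') (u v : P n) :
    β i (f p) (fderiv ℂ f p u) (fderiv ℂ f p v) =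
      β j (f' p) (fderiv ℂ f' p u) (fderiv ℂ f' p v) := by
  obtain ⟨a1, a2, a3⟩ := h.self_of_nhds
  obtain ⟨-, b2, b3⟩ := h'.self_of_nhds
  obtain ⟨O, φ, hc, hz, hy, hw⟩ := A.trans i j _ a2 _ b2 (a3.trans b3.symm)
  have he : f' =ᶠ[𝓝 p] fun s => φ (f s) := by
    filter_upwards [h, h', a1.continuousAt.preimage_mem_nhds (hc.isOpen.mem_nhds hz)] with s c d e
    exact hinj j d.2.1 (hc.maps e) (by rw [hw _ e, c.2.2, d.2.2])
  have hd : fderiv ℂ f' p = (fderiv ℂ φ (f p)).comp (fderiv ℂ f p) := by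
    rw [he.fderiv_eq]
    exact fderiv_comp p (hc.hol.differentiableAt (hc.isOpen.mem_nhds hz)) a1
  rw [hβ.compat i j O φ hc hw _ hz, hd, hy]
  rfl

theorem ckpull_loc {F : Type} [NormedAddCommGroup F] [NormedSpace ℝ F] {W : Set F} {t : Form2 F}
    (h : ∀ x ∈ W, ∃ O t', IsOpen O ∧ x ∈ O ∧ Closed2 O t' ∧ EqOn t t' O) : Closed2 W t := by
  refine ⟨fun x hx => ?_, fun x hx u v => ?_, fun x hx u v w => ?_⟩ <;>
    obtain ⟨O, t', hO, hm, hc, he⟩ := h x hx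
  · exact ((hc.1.contDiffAt (hO.mem_nhds hm)).congr_of_eventuallyEq
      (he.eventuallyEq_of_mem (hO.mem_nhds hm))).contDiffWithinAt
  · rw [he hm]
    exact hc.2.1 x hm u v
  · rw [(he.eventuallyEq_of_mem (hO.mem_nhds hm)).fderiv_eq]
    exact hc.2.2 x hm u v w

theorem pb_eq (hinj : ∀ i, InjOn (A.p i) (A.C i).W) (hβ : GForm A β) {p : P n} {i : A.ι}
    {f : P n → E N} (h : Lf A Ψ p i f) (u v : P n) :
    pb A β Ψ p u v = β i (f p) (fderiv ℂ f p u) (fderiv ℂ f p v) := by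
  have hx : ∃ x : A.ι × (P n → E N), Lf A Ψ p x.1 x.2 := ⟨(i, f), h⟩
  have hd := hx.choose_spec.self_of_nhds.1
  rw [pb, dif_pos hx, ContinuousLinearMap.bilinearComp_apply, ckpull_real hd, ckpull_real hd]
  exact ckpull_two hinj hβ hx.choose_spec h u v

theorem Lf.eventually {p : P n} {i : A.ι} {f : P n → E N} (h : Lf A Ψ p i f) :
    ∀ᶠ s in 𝓝 p, Lf A Ψ s i f :=
  eventually_eventually_nhds.2 h

theorem unif_lf (h : A.IsUnif T Ψ) {p : P n} (hp : p.1 ∈ T) :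
    ∃ i f, Lf A Ψ p i f ∧ ∀ᶠ s in 𝓝 p, UP A i Ψ f s := by
  obtain ⟨i, O, f, hO, hm, hd, hs⟩ := h p hp
  refine ⟨i, f, ?_, ?_⟩ <;> filter_upwards [hO.mem_nhds hm] with s h1
  · exact ⟨hd.differentiableAt (hO.mem_nhds h1), (hs s h1).1, (hs s h1).2.1⟩
  · exact hs s h1

theorem unif_mono (h : A.IsUnif T Ψ) (hs : O ⊆ T) : A.IsUnif O Ψ :=
  fun w hw => h w (hs hw)

theorem pb_comp (hinj : ∀ i, InjOn (A.p i) (A.C i).W) (hβ : GForm A β) (h : A.IsUnif T Ψ)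
    {Ψ' : P n → X} {g : P n → P n} {p : P n} (hg : ∀ᶠ s in 𝓝 p, DifferentiableAt ℂ g s)
    (hp : (g p).1 ∈ T) (he : ∀ᶠ s in 𝓝 p, Ψ' s = Ψ (g s)) (u v : P n) :
    pb A β Ψ' p u v = pb A β Ψ (g p) (fderiv ℝ g p u) (fderiv ℝ g p v) := by
  obtain ⟨i, f, hf, -⟩ := unif_lf h hp
  have hd := hg.self_of_nhds
  have hl : Lf A Ψ' p i fun s => f (g s) := by
    filter_upwards [hg, he, hd.continuousAt.eventually hf] with s a b c
    exact ⟨c.1.comp s a, c.2.1, c.2.2.trans b.symm⟩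
  have hc : fderiv ℂ (fun s => f (g s)) p = (fderiv ℂ f (g p)).comp (fderiv ℂ g p) :=
    fderiv_comp p hf.self_of_nhds.1 hd
  rw [pb_eq hinj hβ hl, pb_eq hinj hβ hf, hc, ckpull_real hd, ckpull_real hd]
  rfl

theorem pb_closed (hinj : ∀ i, InjOn (A.p i) (A.C i).W) (hβ : GForm A β) (h : A.IsUnif T Ψ)
    (hT : IsOpen T) : Closed2 (T ×ˢ univ) (pb A β Ψ) := by
  have _ := hT
  refine ckpull_loc fun p hp => ?_
  obtain ⟨i, f, hf, -⟩ := unif_lf h hp.1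
  obtain ⟨O, hs, hO, hm⟩ := _root_.eventually_nhds_iff.1 hf.eventually
  have hd : ∀ s ∈ O, DifferentiableAt ℂ f s := fun s h1 => (hs s h1).self_of_nhds.1
  refine ⟨O, _, hO, hm, pull2_closed (A.C i).isOpen hO
    (hol_smooth hO fun s h1 => (hd s h1).differentiableWithinAt).2.1
    (fun s h1 => (hs s h1).self_of_nhds.2.1) (hβ.closed i), fun s h1 => ?_⟩
  refine ContinuousLinearMap.ext fun u => ContinuousLinearMap.ext fun v => ?_
  rw [pb_eq hinj hβ (hs s h1), ContinuousLinearMap.bilinearComp_apply, ckpull_real (hd s h1),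
    ckpull_real (hd s h1)]

theorem pb_inv (hinj : ∀ i, InjOn (A.p i) (A.C i).W) (hβ : GForm A β) (h : A.IsUnif T Ψ)
    {g : Ret n} (hg : IsRet T Ψ O g) : CL.Inv (pb A β Ψ) O g := by
  intro p hp u v
  have hO : O ×ˢ (univ : Set (E n)) ∈ 𝓝 p := (hg.isOpen.prod isOpen_univ).mem_nhds ⟨hp, trivial⟩
  refine (pb_comp hinj hβ h ?_ (hg.maps hp) ?_ u v).symm
  · exact hg.smooth.2.2.1.eventually_differentiableAt hO
  · filter_upwards [hO] with s hs
    exact (hg.eq s.1 hs.1 s.2).symm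

theorem isForm_11 (hinj : ∀ i, InjOn (A.p i) (A.C i).W) (M : Form11 A) (h : A.IsUnif T Ψ)
    (hT : IsOpen T) : IsForm T Ψ (pb A (f11 A M.h) Ψ) := by
  refine ⟨pb_closed hinj (gform_11 M) h hT, fun p hp u v => ?_,
    fun O g hg => pb_inv hinj (gform_11 M) h hg⟩
  obtain ⟨i, f, hf, -⟩ := unif_lf h hp.1
  rw [pb_eq hinj (gform_11 M) hf, pb_eq hinj (gform_11 M) hf, (fderiv ℂ f p).map_smul,
    (fderiv ℂ f p).map_smul]
  exact ev11_II _ _ _

end Pool.Agent.CK
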