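import Pool.Agent.P.MP_63735c_ag.HSDefs
import Pool.Agent.P.MP_63735c_ag.CKPull
import Pool.Agent.P.MP_63735c_ag.ABCal

/-! Combinations of forms; integer combinations of integral forms are integral. -/

open scoped ComplexOrder ContDiff Matrix
open Set MeasureTheory Filter Topology

namespace Pool.Agent.HS

open Pool.Agent.SPF Pool.Agent.CL Pool.Agent.CK

variable {N m : ℕ} {X : Type} [TopologicalSpace X] {A : Atlas X N}

/-- A real combination of global forms. -/
noncomputable def comb (a : Fin m → Form11 A) (r : Fin m → ℝ) : Form11 A where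
  h i z := ∑ j, (r j : ℂ) • (a j).h i z
  smooth i b c := by
    simp only [Matrix.sum_apply, Matrix.smul_apply]
    exact ContDiffOn.sum fun j _ => ((a j).smooth i b c).const_smul _
  herm i z hz := by
    rw [Matrix.IsHermitian, Matrix.conjTranspose_sum]
    refine Finset.sum_congr rfl fun j _ => ?_
    rw [Matrix.conjTranspose_smul, ((a j).herm i z hz).eq, Complex.star_def, Complex.conj_ofReal]
  closed i z hz b c d := by
    have h1 : ∀ j b c, DifferentiableAt ℝ (fun w => (a j).h i w b c) z := fun j b c =>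
      AB.diffAt (A.C i).isOpen ((a j).smooth i b c) hz
    have h2 : ∀ b c d, dz d (fun w => (∑ j, (r j : ℂ) • (a j).h i w) b c) z =
        ∑ j, (r j : ℂ) * dz d (fun w => (a j).h i w b c) z := fun b c d => by
      simp only [Matrix.sum_apply, Matrix.smul_apply, smul_eq_mul]
      rw [(AB.dz_sum _ (fun j _ => (h1 j b c).const_mul _) d).1]
      refine Finset.sum_congr rfl fun j _ => ?_
      rw [(AB.dz_mul (differentiableAt_const _) (h1 j b c) d).1, (AB.dz_const d _).1, zero_mul,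
        zero_add]
    rw [h2, h2]
    exact Finset.sum_congr rfl fun j _ => by rw [(a j).closed i z hz]
  compat i k O φ h hp z hz := by
    rw [Matrix.mul_sum, Matrix.sum_mul]
    exact Finset.sum_congr rfl fun j _ => by
      rw [(a j).compat i k O φ h hp z hz, Matrix.mul_smul, Matrix.smul_mul]

theorem comb_h (a : Fin m → Form11 A) (r : Fin m → ℝ) (i : A.ι) (z : E N) :
    (comb a r).h i z = ∑ j, (r j : ℂ) • (a j).h i z := rfl

theorem integral_congr {β β' : A.ι → E N → E N → E N → ℝ}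
    (h : ∀ i, ∀ z ∈ (A.C i).W, ∀ u v, β i z u v = β' i z u v) (hβ : Integral A β) :
    Integral A β' := by
  obtain ⟨H, hH⟩ := hβ
  refine ⟨H, fun Q ρ hρ => hH Q ρ fun s hs => ?_⟩
  obtain ⟨i, O, f, h1, h2, h3, h4⟩ := hρ s hs
  exact ⟨i, O, f, h1, h2, h3, fun x hx => ⟨(h4 x hx).1, (h4 x hx).2.1,
    (h4 x hx).2.2.trans (h i _ (h4 x hx).1 _ _).symm⟩⟩

theorem hsint_sq {ρ : Fin m → ℝ × ℝ → ℝ} (hρ : ∀ j, ContinuousOn (ρ j) (Icc (0, 0) (1, 1)))
    (e : Fin m → ℝ) {τ : ℝ × ℝ → ℝ} (h : ∀ x ∈ Icc ((0, 0) : ℝ × ℝ) (1, 1), τ x = ∑ j, e j * ρ j x) :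
    ∫ s in (0 : ℝ)..1, ∫ t in (0 : ℝ)..1, τ (s, t) =
      ∑ j, e j * ∫ s in (0 : ℝ)..1, ∫ t in (0 : ℝ)..1, ρ j (s, t) := by
  let π : ℝ → ℝ := fun s => projIcc (0 : ℝ) 1 zero_le_one s
  have hπ : Continuous π := continuous_subtype_val.comp continuous_projIcc
  have h0 : ∀ s, π s ∈ Icc (0 : ℝ) 1 := fun s => (projIcc (0 : ℝ) 1 zero_le_one s).2
  have hm : ∀ s t, (π s, π t) ∈ Icc ((0, 0) : ℝ × ℝ) (1, 1) := fun s t =>
    ⟨⟨(h0 s).1, (h0 t).1⟩, (h0 s).2, (h0 t).2⟩
  have h1 : ∀ f : ℝ × ℝ → ℝ, ∫ s in (0 : ℝ)..1, ∫ t in (0 : ℝ)..1, f (s, t) =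
      ∫ s in (0 : ℝ)..1, ∫ t in (0 : ℝ)..1, f (π s, π t) := fun f => by
    have e : ∀ s ∈ uIcc (0 : ℝ) 1, π s = s := fun s hs => by
      rw [uIcc_of_le zero_le_one] at hs
      simp only [π, projIcc_of_mem _ hs]
    exact intervalIntegral.integral_congr fun s hs => intervalIntegral.integral_congr
      fun t ht => by simp only [e s hs, e t ht]
  have h2 : ∀ j, Continuous fun q : ℝ × ℝ => ρ j (π q.1, π q.2) := fun j =>
    (hρ j).comp_continuous (by fun_prop) fun q => hm _ _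
  simp only [h1 τ, h1 (ρ _), h _ (hm _ _), ← intervalIntegral.integral_const_mul]
  rw [← intervalIntegral.integral_finsetSum fun j _ => Continuous.intervalIntegrable
    (intervalIntegral.continuous_parametric_intervalIntegral_of_continuous'
      (f := fun s t => e j * ρ j (π s, π t)) (continuous_const.mul (h2 j)) 0 1) 0 1]
  exact intervalIntegral.integral_congr fun s _ => intervalIntegral.integral_finsetSum fun j _ =>
    (continuous_const.mul ((h2 j).comp (Continuous.prodMk_right s))).intervalIntegrable 0 1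

theorem integral_sum (hinj : ∀ i, InjOn (A.p i) (A.C i).W) {β : Fin m → A.ι → Form2 (E N)}
    (hβ : ∀ j, GForm A (β j)) (h : ∀ j, Integral A fun i z u v => β j i z u v) (e : Fin m → ℤ) :
    Integral A fun i z u v => ∑ j, (e j : ℝ) * β j i z u v := by
  classical
  choose H hH using h
  refine ⟨fun c => ∑ j, e j * H j c, fun Q τ hτ => ?_⟩
  let L : ℝ × ℝ → A.ι × (ℝ × ℝ → E N) → Prop := fun x q =>
    DifferentiableAt ℝ q.2 x ∧ ∀ᶠ y in 𝓝 x, q.2 y ∈ (A.C q.1).W ∧ A.p q.1 (q.2 y) = Q y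
  let V : Fin m → ℝ × ℝ → A.ι × (ℝ × ℝ → E N) → ℝ := fun j x q =>
    β j q.1 (q.2 x) (fderiv ℝ q.2 x (1, 0)) (fderiv ℝ q.2 x (0, 1))
  let ρ : Fin m → ℝ × ℝ → ℝ := fun j x => if h : ∃ q, L x q then V j x h.choose else 0
  have key : ∀ j x q, L x q → ρ j x = V j x q := fun j x q' h' => by
    have hx : ∃ q, L x q := ⟨q', h'⟩
    obtain ⟨a1, a⟩ := hx.choose_spec
    simp only [ρ, dif_pos hx]
    generalize hx.choose = q at a1 a
    obtain ⟨O, φ, hc, hz, hy, hw⟩ := A.trans _ _ _ a.self_of_nhds.1 _ h'.2.self_of_nhds.1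
      (a.self_of_nhds.2.trans h'.2.self_of_nhds.2.symm)
    have he : q'.2 =ᶠ[𝓝 x] fun s => φ (q.2 s) := by
      filter_upwards [a, h'.2, a1.continuousAt.preimage_mem_nhds (hc.isOpen.mem_nhds hz)]
        with s c d e
      exact hinj _ d.1 (hc.maps e) (by rw [hw _ e, c.2, d.2])
    have hd : fderiv ℝ (fun s => φ (q.2 s)) x = _ := (((hc.hol.differentiableAt (hc.isOpen.mem_nhds hz)).hasFDerivAt.restrictScalars
      ℝ).comp x a1.hasFDerivAt).fderiv
    simp only [V]
    rw [(hβ j).compat _ _ O φ hc hw _ hz, he.fderiv_eq, hy, hd]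
    rfl
  have loc : ∀ s ∈ Icc ((0, 0) : ℝ × ℝ) (1, 1), ∃ (i : A.ι) (O : Set (ℝ × ℝ)) (f : ℝ × ℝ → E N),
      IsOpen O ∧ s ∈ O ∧ ContDiffOn ℝ 2 f O ∧ ∀ x ∈ O, f x ∈ (A.C i).W ∧ A.p i (f x) = Q x ∧
        τ x = ∑ j, e j * ρ j x ∧ ∀ j, ρ j x = V j x (i, f) := fun s hs => by
    obtain ⟨i, O, f, h1, h2, h3, h4⟩ := hτ s hs
    refine ⟨i, O, f, h1, h2, h3, fun x hx => ?_⟩
    have h5 := fun j => key j x (i, f) ⟨(h3.contDiffAt (h1.mem_nhds hx)).differentiableAt
      (by simp), mem_of_superset (h1.mem_nhds hx) fun y hy => ⟨(h4 y hy).1, (h4 y hy).2.1⟩⟩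
    exact ⟨(h4 x hx).1, (h4 x hx).2.1, by simp only [h5]; exact (h4 x hx).2.2, h5⟩
  choose k hk using fun j => hH j Q (ρ j) fun s hs => by
    obtain ⟨i, O, f, h1, h2, h3, h4⟩ := loc s hs
    exact ⟨i, O, f, h1, h2, h3, fun x hx => ⟨(h4 x hx).1, (h4 x hx).2.1, (h4 x hx).2.2.2 j⟩⟩
  refine ⟨∑ j, e j * k j, ?_⟩
  rw [hsint_sq (ρ := ρ) (fun j s hs => ?_) (fun j => e j) fun s hs => ?_]
  · push_cast
    simp only [← Finset.sum_add_distrib, ← Finset.sum_sub_distrib, ← mul_add, ← mul_sub, hk]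
  · obtain ⟨i, O, f, h1, h2, h3, h4⟩ := loc s hs
    have c1 := h3.continuousOn_fderiv_of_isOpen h1 (by simp)
    have c2 : ContinuousOn (fun x => V j x (i, f)) O :=
      ((((hβ j).closed i).1.continuousOn.comp h3.continuousOn fun x hx => (h4 x hx).1).clm_apply
        (c1.clm_apply continuousOn_const)).clm_apply (c1.clm_apply continuousOn_const)
    exact ((c2.congr fun x hx => (h4 x hx).2.2.2 j).continuousAt
      (h1.mem_nhds h2)).continuousWithinAt
  · obtain ⟨i, O, f, -, h2, -, h4⟩ := loc s hs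
    exact (h4 s h2).2.2.1

theorem integral_comb (hinj : ∀ i, InjOn (A.p i) (A.C i).W) (c : Fin m → ℂ) (a : Fin m → Form11 A)
    (h : ∀ j, Integral A fun i z u v =>
      (c j * (u ⬝ᵥ (A.C i).σ z *ᵥ v)).re + ev11 ((a j).h i z) u v) (e : Fin m → ℤ) :
    Integral A fun i z u v => ((∑ j, (e j : ℂ) * c j) * (u ⬝ᵥ (A.C i).σ z *ᵥ v)).re +
      ev11 (∑ j, (e j : ℂ) • (a j).h i z) u v := by
  have hβ : ∀ j, GForm A fun i z => f20 A (c j) i z + f11 A (a j).h i z := fun j => by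
    have h1 := gform_20 A (c j)
    have h2 := gform_11 (a j)
    refine ⟨fun i => ⟨(h1.closed i).1.add (h2.closed i).1, fun x hx u v => ?_,
      fun x hx u v w => ?_⟩, fun i k O φ hc hp z hz u v => ?_⟩
    · simp only [add_apply]
      rw [(h1.closed i).2.1 x hx u v, (h2.closed i).2.1 x hx u v, neg_add]
    · have hn := (A.C i).isOpen.mem_nhds hx
      rw [fderiv_fun_add (((h1.closed i).1.contDiffAt hn).differentiableAt (by simp))
        (((h2.closed i).1.contDiffAt hn).differentiableAt (by simp))]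
      simp only [add_apply]
      linarith [(h1.closed i).2.2 x hx u v w, (h2.closed i).2.2 x hx u v w]
    · simp only [add_apply]
      rw [h1.compat i k O φ hc hp z hz, h2.compat i k O φ hc hp z hz]
  refine integral_congr (fun i z _ u v => ?_) (integral_sum hinj hβ h e)
  simp only [add_apply, f20, f11, s20_apply, e11_apply, ev11, mul_add,
    Finset.sum_add_distrib, Finset.sum_mul, Complex.re_sum, Matrix.sum_mulVec, dotProduct_sum,
    Complex.im_sum, Finset.mul_sum, Matrix.smul_mulVec, dotProduct_smul, smul_eq_mul]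
  congr 1 <;> refine Finset.sum_congr rfl fun j _ => ?_
  · rw [mul_assoc, ← Complex.ofReal_intCast, Complex.re_ofReal_mul]
  · rw [← Complex.ofReal_intCast, Complex.im_ofReal_mul]
    ring

end Pool.Agent.HS
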