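import Pool.Agent.P.MP_63735c_ag.HXDefs
import Pool.Agent.P.MP_63735c_ag.ABD
import Pool.Agent.P.MP_63735c_ag.ABK4

/-! The manifold with the volume of the symplectic form. -/

open scoped ComplexOrder ContDiff Matrix Topology ENNReal
open Set MeasureTheory Filter

namespace Pool.Agent.HS

open Pool.Agent.SPF Pool.Agent.NL Pool.Agent.CK Pool.Agent.AB Pool.Agent.HX

variable {N : ℕ} {Y : Type} [TopologicalSpace Y] [MeasurableSpace Y]

theorem wt_log (C : Chart N) {z : E N} (hz : z ∈ C.W) :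
    wt (fun y => -Real.log ‖(C.σ y).det‖) z = ‖(C.σ z).det‖ := by
  rw [wt, neg_neg, Real.exp_log (norm_pos_iff.2 (C.σ_det z hz))]

/-- The manifold given by an atlas, with the volume `|det σ|`. -/
noncomputable def base (A : Atlas Y N) (hinj : ∀ i, InjOn (A.p i) (A.C i).W) {μ : Measure Y}
    (hμ : IsVolume A μ) : Base Y N where
  toMan := man A hinj isOpen_univ
  cover := man_M
  Ψ i z := -Real.log ‖((A.C i).σ z).det‖
  μ := μ
  Ψ_smooth i _ hz := (abd_det (A.C i) hz.1).1.neg.contDiffWithinAt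
  den i S hS hm := (hμ i S (hS.trans inter_subset_left) hm).trans
    (setLIntegral_congr_fun hm fun z hz => by rw [wt_log (A.C i) (hS hz).1, ofReal_norm])
  Ψ_cpt i j z hz φ hφ := by
    have h0 := hφ.self_of_nhds
    obtain ⟨O, φ', h1, h2, h3, h4⟩ := A.trans i j z hz.1 (φ z) h0.2.1.1 h0.2.2.symm
    have he : φ' =ᶠ[𝓝 z] φ := by
      filter_upwards [h1.isOpen.mem_nhds h2, hφ] with w hw hw'
      exact hinj j (h1.maps hw) hw'.2.1.1 ((h4 w hw).trans hw'.2.2.symm)
    have hj : jac φ' z = jac φ z := by simp only [jac, he.fderiv_eq]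
    rw [wt_log (A.C i) hz.1, wt_log (A.C j) h0.2.1.1, h1.σ_eq z h2, hj, h3, Matrix.det_mul,
      Matrix.det_mul, Matrix.det_transpose, norm_mul, norm_mul]
    ring

variable {A : Atlas Y N} {hinj : ∀ i, InjOn (A.p i) (A.C i).W} {μ : Measure Y}
  {hμ : IsVolume A μ}

theorem base_mem {i : A.ι} {z : E N} : z ∈ (base A hinj hμ).W i ↔ z ∈ (A.C i).W :=
  ⟨fun h => h.1, fun h => ⟨h, trivial⟩⟩

theorem base_p (i : A.ι) (z : E N) : (base A hinj hμ).p i z = A.p i z := rfl

theorem base_μ : (base A hinj hμ).μ = μ := rfl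

theorem base_wt {i : A.ι} {z : E N} (hz : z ∈ (A.C i).W) :
    wt ((base A hinj hμ).Ψ i) z = ‖((A.C i).σ z).det‖ := wt_log (A.C i) hz

theorem base_frm (a : Form11 A) : Frm (base A hinj hμ).toMan a.h :=
  ⟨fun i => ⟨fun b c => (a.smooth i b c).mono inter_subset_left, fun z hz => a.herm i z hz.1,
    fun z hz b c d => a.closed i z hz.1 b c d⟩, man_cpt_form (hinj := hinj) (hM := isOpen_univ) a⟩

theorem base_eta : Frm (base A hinj hμ).toMan fun i => (A.C i).η :=
  ⟨fun i => ⟨fun b c => ((A.C i).η_smooth b c).mono inter_subset_left,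
    fun z hz => ((A.C i).η_psd z hz.1).isHermitian,
    fun z hz b c d => (A.C i).η_closed z hz.1 b c d⟩,
    man_cpt_eta (hinj := hinj) (hM := isOpen_univ)⟩

theorem base_kf (K : Form11 A) (hK : ∀ i, ∀ z ∈ (A.C i).W, (K.h i z).PosDef) :
    Kf (base A hinj hμ).toMan K.h :=
  ⟨fun i => ⟨fun b c => (K.smooth i b c).mono inter_subset_left, fun z hz => hK i z hz.1,
    fun z hz b c d => K.closed i z hz.1 b c d⟩, man_cpt_form (hinj := hinj) (hM := isOpen_univ) K⟩

theorem dom_iff {K a : Mat N} {C : ℝ} : Dom K a C ↔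
    ∀ u, |ev11 a u (Complex.I • u)| ≤ C * ev11 K u (Complex.I • u) := by
  refine forall_congr' fun u => ?_
  rw [ev11_hq, ev11_hq, abs_mul, abs_two, mul_left_comm, mul_le_mul_iff_right₀ two_pos]

/-- The density of a global form, read in a chart. -/
theorem dens_eq {h : A.ι → E N → Mat N} {G : Y → ℝ}
    (hG : ∀ i, ∀ z ∈ (A.C i).W, (h i z).det.re / ‖((A.C i).σ z).det‖ = G (A.p i z)) :
    (base A hinj hμ).dens h = G := by
  funext x
  obtain ⟨i, z, hz, rfl⟩ := A.cover x
  have hx : ∃ q : (base A hinj hμ).ι × E N, q.2 ∈ (base A hinj hμ).W q.1 ∧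
      (base A hinj hμ).p q.1 q.2 = A.p i z := ⟨(i, z), base_mem.2 hz, rfl⟩
  rw [Base.dens, glob, dif_pos hx, base_wt hx.choose_spec.1.1]
  exact (hG _ _ hx.choose_spec.1.1).trans (congrArg G hx.choose_spec.2)

end Pool.Agent.HS
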