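import Pool.Agent.P.MP_63735c_ag.HXGlob
import Pool.Agent.P.MP_63735c_ag.HXEst

/-! The global estimate for the corrected form. -/

open scoped ComplexOrder ContDiff Matrix Topology ENNReal
open Set Metric MeasureTheory Filter

namespace Pool.Agent.HX

open Pool.Agent.SPF Pool.Agent.AB

variable {N : ℕ} {Y : Type} [TopologicalSpace Y] [MeasurableSpace Y] [BorelSpace Y] [T2Space Y]

omit [MeasurableSpace Y] [BorelSpace Y] [T2Space Y] in
theorem ke_sum {D : Man Y N} {κ : Type} (s : Finset κ) {f : κ → Y → ℝ} (hf : ∀ k, D.Cc (f k)) :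
    D.Cc fun x => ∑ k ∈ s, f k x := by
  classical
  induction s using Finset.induction_on with
  | empty => simpa only [Finset.sum_empty] using Man.S.zero.cc
  | insert a s ha ih => simpa only [Finset.sum_insert ha] using (hf a).add ih

namespace KD

variable {D : KD Y N}

theorem est_of {a : D.ι → E N → Mat N} (ha : Frm D.toMan a) {C₀ : Set Y} {m : ℕ}
    {τ : Fin m → Y → ℝ} {W : Fin m → Y → ℂ} {w : Y → ℂ}
    (h1 : ∀ k, D.S (τ k) ∧ D.S (W k) ∧ ∀ x, 0 ≤ τ k x) (hw : D.S w)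
    (h2 : ∀ x ∈ C₀, ∀ᶠ y in 𝓝 x, ∑ k, τ k y = 1) : ∃ Φ, Est D.toMan a D.K C₀ τ W Φ ∧
      ∫ x, Φ x ∂D.ν = 8 * ∑ k, ∫ x, τ k x * D.hs (fun i z => a i z + lcG D.toMan (W k) i z) x ∂D.ν +
        32 * (m * ∑ k, ∫ x, (D.Gam D.K (fun y => (τ k y : ℂ)) (fun y => (τ k y : ℂ)) x).re *
          (D.Gam D.K (fun y => W k y - w y) (fun y => W k y - w y) x).re ∂D.ν) := by
  have c0 := fun k => cpt_add ha.cpt (lcG_cpt (h1 k).2.1.1)
  have c1 : ∀ k, D.Cc fun x => τ k x * D.hs (fun i z => a i z + lcG D.toMan (W k) i z) x :=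
    fun k => (h1 k).1.cc.map₂ (hs_contOn (c0 k) fun i b c => ((ha.clo i).smooth b c).continuousOn.add
      (lc_smooth (D.isOpen i) ((h1 k).2.1.1 i) b c).continuousOn) (l := fun t u => t * u)
      continuous_mul zero_mul
  have c2 : ∀ k, D.Cc fun x => (D.Gam D.K (fun y => (τ k y : ℂ)) (fun y => (τ k y : ℂ)) x).re *
      (D.Gam D.K (fun y => W k y - w y) (fun y => W k y - w y) x).re := fun k =>
    (Dat.GamK_cc (h1 k).1.ofReal (h1 k).1.ofReal.1).map₂
      (Dat.GamK_cc ((h1 k).2.1.sub hw) ((h1 k).2.1.sub hw).1).1 (l := fun t u => t.re * u.re)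
      (by fun_prop) fun _ => by simp
  have c3 := (ke_sum Finset.univ c1).map (l := fun t => 8 * t) (by fun_prop) (mul_zero _)
  have c4 := (ke_sum Finset.univ c2).map (l := fun t => 32 * m * t) (by fun_prop) (mul_zero _)
  refine ⟨_, ⟨fun k => ⟨(h1 k).1, (h1 k).2.1⟩, c3.add c4, fun x => ?_, fun i z hz hC u v => ?_⟩, ?_⟩
  · obtain ⟨i, z, hz, rfl⟩ := Man.exists_chart (D := D.toMan) (x := x) (D.cover ▸ mem_univ x)
    refine add_nonneg (mul_nonneg (by norm_num) (Finset.sum_nonneg fun k _ => mul_nonneg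
      ((h1 k).2.2 _) ?_)) (mul_nonneg (by positivity) (Finset.sum_nonneg fun k _ =>
        mul_nonneg (Dat.GamK_nonneg _) (Dat.GamK_nonneg _)))
    rw [hs_chart (c0 k) hz]
    exact hsK_nonneg ((D.kah i).pos z hz) _
  · have hn := (D.isOpen i).mem_nhds hz
    simp only [fun k => hs_chart (c0 k) hz,
      fun k => Dat.Gam_chart D.K_cpt (h1 k).1.ofReal.1 (h1 k).1.ofReal.1 hz,
      fun k => Dat.Gam_chart D.K_cpt ((h1 k).2.1.sub hw).1 ((h1 k).2.1.sub hw).1 hz]
    exact est_pt (τ := fun k y => τ k (D.p i y)) (w := fun k y => W k (D.p i y))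
      (w₀ := fun y => w (D.p i y)) ((D.kah i).pos z hz) ((ha.clo i).herm z hz)
      (fun k => ((h1 k).1.1 i).contDiffAt hn) (fun k => ((h1 k).2.1.1 i).contDiffAt hn)
      ((hw.1 i).contDiffAt hn) (fun k => (h1 k).2.2 _) (Man.contAt_p hz (h2 _ hC)) u v
  · rw [integral_add (Dat.cc_int c3) (Dat.cc_int c4), integral_const_mul, integral_const_mul,
      integral_finsetSum _ fun k _ => Dat.cc_int (c1 k),
      integral_finsetSum _ fun k _ => Dat.cc_int (c2 k), mul_assoc]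

end KD

end Pool.Agent.HX
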