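import Pool.Agent.P.MP_63735c_ag.HXNum
import Pool.Agent.P.MP_63735c_ag.HXGl

/-! The Hodge index estimate from the Fujiki relation. -/

open scoped ComplexOrder ContDiff Matrix Topology ENNReal
open Set Metric MeasureTheory Filter

namespace Pool.Agent.HX

open Pool.Agent.SPF Pool.Agent.AB

variable {N : ℕ} {Y : Type} [TopologicalSpace Y]

theorem Lam.sigma {D : Man Y N} {K : D.ι → E N → Mat N} {l : Y → ℝ} {C : ℝ} (hl : Lam D K l C) :
    SigmaCompactSpace Y := by
  choose S h1 h2 using fun k : ℕ => hl.proper k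
  refine ⟨S, h1, eq_univ_of_forall fun x => ?_⟩
  obtain ⟨k, hk⟩ := exists_nat_ge (l x)
  exact mem_iUnion.2 ⟨k, by_contra fun h => (h2 k x h).not_ge hk⟩

variable [MeasurableSpace Y]

theorem Base.mix_kf (B : Base Y N) {a η K : B.ι → E N → Mat N} (ha : Frm B.toMan a)
    (hη : Frm B.toMan η) (hp : ∀ i, ∀ z ∈ B.W i, (η i z).PosSemidef) (hK : Kf B.toMan K) {t : ℝ}
    (ht : 0 < t) : Kf B.toMan (B.mix a η K 0 t) ∧ ∀ i, ∀ z ∈ B.W i, ∀ v,
      t * (hq (K i z) v v).re ≤ (hq (B.mix a η K 0 t i z) v v).re := by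
  have h : ∀ i, ∀ z ∈ B.W i, ∀ v,
      t * (hq (K i z) v v).re ≤ (hq (B.mix a η K 0 t i z) v v).re := fun i z hz v => by
    rw [Base.mix, hn_hq, Complex.ofReal_zero, zero_smul, zero_add]
    exact le_add_of_nonneg_left (hq_nonneg (hp i z hz) v)
  exact ⟨hn_kf (hn_add (hn_add (hn_smul ha 0) hη) (hn_smul (hn_frm hK) t)) fun i z hz v hv =>
    (mul_pos ht (hq_pos ((hK.kah i).pos z hz) hv)).trans_le (h i z hz v), h⟩

variable [BorelSpace Y] [T2Space Y]

theorem Base.hxp [PreconnectedSpace Y] (B : Base Y N) {n : ℕ} (hn : 1 ≤ n)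
    {a η K : B.ι → E N → Mat N} (ha : Frm B.toMan a) (hη : Frm B.toMan η)
    (hp : ∀ i, ∀ z ∈ B.W i, (η i z).PosSemidef) (hK : Kf B.toMan K) {C₁ : ℝ}
    (h1 : ∀ i, ∀ z ∈ B.W i, Dom (K i z) (a i z) C₁ ∧ Dom (K i z) (η i z) C₁) {l : Y → ℝ} {C : ℝ}
    (hl : Lam B.toMan K l C) (hF : B.Fuj n a η K) : B.HXP n a η K := by
  have := hl.sigma
  have hi : Integrable (B.dens K) B.μ := by
    obtain ⟨c, x, y, z, w, h⟩ := hF
    obtain ⟨k1, k2⟩ := B.mix_kf ha hη hp hK one_pos
    refine (h 0 1).1.mono' (hn_dens_cont (hn_frm hK)).aestronglyMeasurable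
      (Eventually.of_forall fun x => ?_)
    rw [Real.norm_of_nonneg (hn_dens_pos hK x).le]
    obtain ⟨i, u, hu, rfl⟩ := hn_chart B x
    simpa using hn_dens_le hK k1 (c := 1) hu fun v => by simpa using k2 i u hu v
  obtain ⟨K', k1, k2, k3, k4⟩ := B.complete hK hl hi
  obtain ⟨C', hC⟩ := B.numbers hn ha hη hp hK k1
    (fun i z hz => ⟨(h1 i z hz).1, (h1 i z hz).2, k3 i z hz⟩) k2 k4 hF
  refine ⟨4 * (8 * C' + 1), fun t ht ht1 C₀ h0 => ?_⟩
  obtain ⟨om, h, c1, c2, ⟨M, c3⟩, c4, c5, c6⟩ := hC t ht ht1 C₀ h0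
  obtain ⟨m, τ, w, Φ, ⟨e1, e2, e3, e4⟩, e5⟩ :=
    (B.kd h).est c1 ha c3 h0 (pow_pos ht (n - 1))
  have hm := (B.mix_kf ha hη hp hK ht).1
  refine ⟨m, τ, w, fun x => 4 * Φ x, ⟨e1, e2.map (l := fun r => 4 * r) (by fun_prop) (by simp),
    fun x => by linarith [e3 x], fun i z hz hc u v => (e4 i z hz hc u v).trans ?_⟩, ?_⟩
  · have p1 := hq_nonneg ((h.kah i).pos z hz).posSemidef
    calc _ ≤ Φ (B.p i z) * (2 * (hq (B.mix a η K 0 t i z) u u).re) *
          (2 * (hq (B.mix a η K 0 t i z) v v).re) :=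
          mul_le_mul (mul_le_mul_of_nonneg_left (c5 i z hz hc u) (e3 _)) (c5 i z hz hc v) (p1 v)
            (mul_nonneg (e3 _) ((p1 u).trans (c5 i z hz hc u)))
      _ = _ := by ring
  · have i1 : Integrable (fun x => Φ x * B.dens om x) B.μ := by
      have i2 : Integrable Φ (B.kd h).ν := by
        obtain ⟨S, s1, -, s2⟩ := e2.2
        exact e2.continuous.integrable_of_hasCompactSupport (HasCompactSupport.intro s1 s2)
      have i3 := (integrable_withDensity_iff (hn_dens_cont (hn_frm h)).measurable.ennreal_ofReal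
        (Eventually.of_forall fun x => ENNReal.ofReal_lt_top)).1 i2
      simpa only [ENNReal.toReal_ofReal (hn_dens_pos h _).le] using i3
    rw [B.kd_int] at e5
    calc _ ≤ ∫ x, 4 * (Φ x * B.dens om x) ∂B.μ :=
          integral_mono_of_nonneg (Eventually.of_forall fun x =>
            mul_nonneg (by linarith [e3 x]) (hn_dens_pos hm x).le) (i1.const_mul 4)
            (Eventually.of_forall fun x => by
              have := mul_le_mul_of_nonneg_left (c4 x) (e3 x)
              simp only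
              linarith)
      _ ≤ _ := by
          rw [integral_const_mul]
          linarith

end Pool.Agent.HX
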