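import Pool.Agent.P.MP_63735c_ag.HSLat
import Pool.Agent.P.MP_63735c_ag.HSInt
import Pool.Agent.P.MP_63735c_ag.HXNull
import Pool.Agent.P.MP_63735c_ag.CSMain

/-! The integral classes orthogonal to the isotropic class. -/

open scoped ComplexOrder Matrix
open Set MeasureTheory

namespace Pool.Agent.HS

open Pool.Agent.SPF Pool.Agent.NL Pool.Agent.CK Pool.Agent.CS Pool.Agent.AB Pool.Agent.HX

variable {N n : ℕ} {X : Type} [TopologicalSpace X] [MeasurableSpace X] {A : Atlas X N}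
  {μ : Measure X} {K : Form11 A} {H : BBF n A μ K}

namespace BBF

theorem integral_eta (hinj : ∀ i, InjOn (A.p i) (A.C i).W) (h : H.Isotropic) :
    ∃ k : ℝ, 0 < k ∧ Integral A fun i z u v => k * ev11 ((A.C i).η z) u v := by
  obtain ⟨k, e, h1, -, h3, h4⟩ := h
  refine ⟨k, h1, integral_congr (fun i z hz u v => ?_) (integral_comb hinj H.c H.a H.integral e)⟩
  rw [h3, h4 i z hz]
  simp only [ev11, Matrix.smul_mulVec, dotProduct_smul, smul_eq_mul, Complex.im_ofReal_mul,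
    zero_mul, Complex.zero_re, zero_add]
  ring

theorem comb_bound (r : Fin H.m → ℝ) : ∃ C : ℝ, ∀ i, ∀ z ∈ (A.C i).W, ∀ u,
    |ev11 ((comb H.a r).h i z) u (Complex.I • u)| ≤ C * ev11 (K.h i z) u (Complex.I • u) := by
  choose C hC using H.bound
  refine ⟨∑ j, |r j| * C j, fun i z hz u => ?_⟩
  rw [comb_h, ← ckmodel_ev, Finset.sum_mul]
  refine (Finset.abs_sum_le_sum_abs _ _).trans (Finset.sum_le_sum fun j _ => ?_)
  rw [abs_mul, mul_assoc]
  exact mul_le_mul_of_nonneg_left (hC j i z hz u) (abs_nonneg _)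

theorem exists_lat (hn : 1 ≤ n) (hN : N = 2 * n) (hinj : ∀ i, InjOn (A.p i) (A.C i).W)
    (hμ : IsVolume A μ) (h0 : μ.real univ ≠ 0) (h : H.Isotropic) :
    ∃ (m : ℕ) (c : Fin m → ℂ) (a : Fin m → Form11 A),
      (∀ j, Integral A fun i z u v =>
        (c j * (u ⬝ᵥ (A.C i).σ z *ᵥ v)).re + ev11 ((a j).h i z) u v) ∧
      (∀ j, ∃ C : ℝ, ∀ i, ∀ z ∈ (A.C i).W, ∀ u,
        |ev11 ((a j).h i z) u (Complex.I • u)| ≤ C * ev11 (K.h i z) u (Complex.I • u)) ∧
      (∀ j, (base A hinj hμ).Fuj n (a j).h (fun i => (A.C i).η) K.h) ∧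
      ∀ c₀ : ℂ, ∃ r : Fin m → ℝ, ∑ j, (r j : ℂ) * c j = c₀ ∧
        ∀ i, ∀ z ∈ (A.C i).W, ∑ j, (r j : ℂ) • (a j).h i z = 0 := by
  obtain ⟨k, e, hk, h1, h2, h3⟩ := h.real
  obtain ⟨v, v1, v2⟩ := exists_perp fun j => ∑ l, (H.Q j l + H.Q l j) * e l
  have hb : ∀ r, H.b r (fun j => e j) + H.b (fun j => e j) r =
      ∑ j, r j * (∑ l, (H.Q j l + H.Q l j) * e l : ℤ) := fun r => by
    rw [b_eq, b_eq, Finset.sum_comm (f := fun j l => (H.Q j l : ℝ) * e j * r l),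
      ← Finset.sum_add_distrib]
    refine Finset.sum_congr rfl fun j _ => ?_
    push_cast
    rw [← Finset.sum_add_distrib, Finset.mul_sum]
    exact Finset.sum_congr rfl fun l _ => by ring
  refine ⟨H.m, fun j => H.cc fun l => v j l, fun j => comb H.a fun l => v j l, fun j => ?_,
    fun j => comb_bound _, fun j => ?_, fun c₀ => ?_⟩
  · simpa only [cc_eq, comb_h, Complex.ofReal_intCast] using
      integral_comb hinj H.c H.a H.integral (v j)
  · obtain ⟨c, x, y, z, w, hG⟩ := fuj0 hn hN h0 hk h1 h2 h3 (v := fun l => v j l)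
      ((hb _).trans (by exact_mod_cast v1 j))
    refine ⟨c, x, y, z, w, fun s t => ?_⟩
    obtain ⟨G, g1, g2, g3⟩ := hG s t
    simp only [aa_eq] at g3
    obtain rfl := dens_eq (hinj := hinj) (hμ := hμ) g3
    exact ⟨g1, g2⟩
  · obtain ⟨r, r1, r2, r3⟩ := exists_r hn hN h0 h1 h2 c₀
    obtain ⟨t, rfl⟩ := v2 r ((hb r).symm.trans r3)
    refine ⟨t, ?_, fun i z hz => ?_⟩
    · simpa only [map_sum, map_smul, Complex.real_smul] using r1
    · have h4 := r2 i z hz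
      rw [map_sum] at h4
      refine (Finset.sum_congr rfl fun j _ => ?_).trans h4
      rw [map_smul, aa_eq, comb_h, Complex.coe_smul]

variable [T2Space X] [BorelSpace X] [PreconnectedSpace X] [IsFiniteMeasure μ]

theorem transcG (hn : 1 ≤ n) (hN : N = 2 * n) (hinj : ∀ i, InjOn (A.p i) (A.C i).W)
    (hμ : IsVolume A μ) (h0 : μ.real univ ≠ 0) (hK : ∀ i, ∀ z ∈ (A.C i).W, (K.h i z).PosDef)
    (b11 : Bd11 A K) (hl : ∃ l C, Lam (man A hinj isOpen_univ) K.h l C) (h : H.Isotropic) :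
    TranscG n A μ K := by
  obtain ⟨m, c, a, h1, h2, h3, h4⟩ := exists_lat hn hN hinj hμ h0 h
  exact ⟨m, c, a, fun j => intG_of (h1 j), fun j _ _ a1 a2 a3 =>
    nullL_of_lam hn hN hinj hμ K hK b11 hl (a j) (h2 j) (h3 j) a1 a2 a3, h4⟩

theorem leaves (hn : 1 ≤ n) (hN : N = 2 * n) (hinj : ∀ i, InjOn (A.p i) (A.C i).W)
    (hμ : IsVolume A μ) (hK : ∀ i, ∀ z ∈ (A.C i).W, (K.h i z).PosDef) (b20 : Bd20 A K)
    (b11 : Bd11 A K) (hl : ∃ l C, Lam (man A hinj isOpen_univ) K.h l C) (h : H.Isotropic)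
    {O : Set (E n)} {Ψ : E n × E n → X} (hU : A.IsUnif O Ψ) (hO : IsOpen O) (hne : O.Nonempty) :
    ∃ T ⊆ O, IsOpen T ∧ T.Nonempty ∧ IsFibred Ψ T := by
  have := vol_pos hμ
  have : Nonempty X := ⟨Ψ 0⟩
  obtain ⟨k, hk, hη⟩ := integral_eta hinj h
  exact compact_leavesB hn hN hinj hμ K hK b20 b11 hk (intG_of hη)
    (transcG hn hN hinj hμ measureReal_univ_ne_zero hK b11 hl h) hU hO hne

end BBF

end Pool.Agent.HS
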