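import Pool.Agent.P.MP_63735c_ag.SQLoc
import Pool.Agent.P.MP_63735c_ag.SPExt2

/-! Completeness from properness; isotropy from an integrable density. -/

open Set Filter Topology
open scoped ComplexOrder ContDiff Matrix

namespace Pool.Agent.SPF

open MeasureTheory

variable {N n : ℕ} {Y : Type} [TopologicalSpace Y]

theorem Atlas.complete_of_proper [T2Space Y] (hN : N = 2 * n) (A : Atlas Y N)
    (hI : ∀ i, (A.C i).Iso) (hH : ∀ i, (A.C i).Hol n)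
    (h : ∀ (x₀ : Y) (ρ : ℝ), ∃ K : Set Y, IsCompact K ∧ (∀ x ∈ K, A.Rk n x) ∧
      ∀ r ≤ ρ, ∀ Φ : E n → Y, Φ 0 = x₀ → (∀ t ∈ Metric.ball (0 : E n) r, A.GoodAt Φ t) →
        ∀ t ∈ Metric.ball (0 : E n) r, Φ t ∈ K) : A.Complete n := by
  intro i z hz hr
  obtain ⟨f₀, h0, hf₀⟩ := Chart.exists_good hN (hI i) (hH i) hz hr
  suffices h' : ∃ Φ : E n → Y, Φ 0 = (fun s => A.p i (f₀ s)) 0 ∧ ∀ t, A.GoodAt Φ t by
    obtain ⟨Φ, h1, h2⟩ := h'
    exact ⟨Φ, by simp only [h1, h0], h2⟩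
  refine continuation (F := E n) A.GoodAt ?_ ?_ (fun s => A.p i (f₀ s)) ?_ ?_
  · rintro Φ Ψ t h ⟨j, f, hf, hp⟩
    refine ⟨j, f, hf, ?_⟩
    filter_upwards [h, hp] with s h1 h2 using h2.trans h1
  · intro Ω Φ Ψ t₀ ho hc hΦ hΨ ht h
    exact A.lift_ident ho hc.isPreconnected (fun t ht => (hΦ t ht).toLift)
      (fun t ht => (hΨ t ht).toLift) ht h
  · filter_upwards [hf₀.eventually_nhds] with t ht
    exact ⟨i, f₀, ht, Eventually.of_forall fun _ => rfl⟩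
  · intro R
    obtain ⟨K, hK, hRk, hl⟩ := h (A.p i (f₀ 0)) R
    have key : ∀ x : K, ∃ (j : A.ι) (K' : Set (E N)) (δ : ℝ), K' ⊆ (A.C j).W ∧
        IsOpen (A.p j '' interior K') ∧ (x : Y) ∈ A.p j '' interior K' ∧ 0 < δ ∧
        ∀ (f : E n → E N) (t : E n), (A.C j).Good f t → f t ∈ K' →
          ∃ f' : E n → E N, (∀ s ∈ Metric.ball t δ, (A.C j).Good f' s) ∧ f' =ᶠ[𝓝 t] f := by
      rintro ⟨x, hx⟩
      obtain ⟨j, y, hy, hp, hry⟩ := hRk x hx
      obtain ⟨ι, hι⟩ := Chart.exists_U hy hry.ge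
      obtain ⟨K', hK', hyK, hsub⟩ := exists_compact_subset ((A.C j).isOpen_U ι) hι
      obtain ⟨δ, hδ, hk⟩ := Chart.extend_good hN (hI j) (hH j) ι hK' hsub
      have hW : K' ⊆ (A.C j).W := fun w hw => (hsub hw).1
      exact ⟨j, K', δ, hW, A.opn j _ isOpen_interior (interior_subset.trans hW),
        ⟨y, hyK, hp⟩, hδ, hk⟩
    choose j K' δ hW ho hm hδ hk using key
    obtain ⟨T, hT⟩ := hK.elim_finite_subcover (fun x : K => A.p (j x) '' interior (K' x)) ho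
      (fun x hx => mem_iUnion.2 ⟨⟨x, hx⟩, hm ⟨x, hx⟩⟩)
    obtain ⟨δ₀, hδ₀, hle⟩ : ∃ δ₀ : ℝ, 0 < δ₀ ∧ ∀ q ∈ T, δ₀ ≤ δ q := by
      rcases T.eq_empty_or_nonempty with h | h
      · exact ⟨1, one_pos, fun q hq => by simp [h] at hq⟩
      · obtain ⟨q, -, hq⟩ := T.exists_min_image δ h
        exact ⟨δ q, hδ q, hq⟩
    refine ⟨δ₀, hδ₀, fun r hr Φ h0 hΦ t ht => ?_⟩
    obtain ⟨q, hq, y, hy, hp⟩ := mem_iUnion₂.1 (hT (hl r hr Φ h0 hΦ t ht))
    have hy' : y ∈ K' q := interior_subset hy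
    obtain ⟨f, hf, hft, hfp⟩ := (hΦ t ht).lift (hW q hy') hp
    obtain ⟨f', hf', he⟩ := hk q f t hf (by rw [hft]; exact hy')
    refine ⟨fun s => A.p (j q) (f' s), fun s hs => ⟨j q, f',
      hf' s (Metric.ball_subset_ball (hle q hq) hs), Eventually.of_forall fun _ => rfl⟩, ?_⟩
    filter_upwards [he, hfp] with s h1 h2
    rw [h1, h2]

theorem Atlas.iso_of_integrable (hN : N = 2 * n) (hn : 1 ≤ n) [MeasurableSpace Y] [BorelSpace Y]
    (A : Atlas Y N) (μ : Measure Y) [μ.IsOpenPosMeasure] (F : Y → ℝ) (hF : IsDensity n A F)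
    (hi : Integrable F μ) (h0 : ∫ x, F x ∂μ = 0) (i : A.ι) : (A.C i).Iso := by
  have hn0 : (n : ℂ) ≠ 0 := Nat.cast_ne_zero.2 (by omega)
  have hv : ∀ j, ∀ z ∈ (A.C j).W, (F (A.p j z) : ℂ) = ((n : ℂ) ^ 2)⁻¹ * ext2_T (A.C j) z := by
    intro j z hz
    have h1 := hF j z hz
    rw [density_eq hN hn ((A.C j).σ_skew z hz) ((A.C j).σ_det z hz)] at h1
    exact (smul_left_injective ℂ
      (top_ne_zero hN ((A.C j).σ_skew z hz) ((A.C j).σ_det z hz)) h1).symm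
  have hc : Continuous F := by
    refine continuous_def.2 fun U hU => isOpen_iff_forall_mem_open.2 fun x hx => ?_
    obtain ⟨j, z, hz, rfl⟩ := A.cover x
    have h1 : ContinuousOn (fun w => F (A.p j w)) (A.C j).W :=
      (Complex.continuous_re.comp_continuousOn
        (continuousOn_const.mul (ext2_T_cont (A.C j)))).congr fun w hw => by
          show F (A.p j w) = (((n : ℂ) ^ 2)⁻¹ * ext2_T (A.C j) w).re
          rw [← hv j w hw, Complex.ofReal_re]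
    refine ⟨A.p j '' ((A.C j).W ∩ (fun w => F (A.p j w)) ⁻¹' U), ?_,
      A.opn j _ (h1.isOpen_inter_preimage (A.C j).isOpen hU) inter_subset_left,
      ⟨z, ⟨hz, hx⟩, rfl⟩⟩
    rintro _ ⟨w, hw, rfl⟩
    exact hw.2
  have hpos : ∀ x, 0 ≤ F x := by
    intro x
    obtain ⟨j, z, hz, rfl⟩ := A.cover x
    have hp := (A.C j).η_psd z hz
    have h1 : 0 ≤ ext2_T (A.C j) z := by
      rw [ext2_T_eq]
      exact (hp.kronecker hp).dotProduct_mulVec_nonneg _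
    have h2 : (0 : ℂ) ≤ ((n : ℂ) ^ 2)⁻¹ := by
      have : (0 : ℝ) ≤ ((n : ℝ) ^ 2)⁻¹ := by positivity
      have h4 := Complex.zero_le_real.2 this
      rwa [Complex.ofReal_inv, Complex.ofReal_pow, Complex.ofReal_natCast] at h4
    have h3 := mul_nonneg h2 h1
    rw [← hv j z hz] at h3
    exact_mod_cast h3
  have hz0 : F = 0 :=
    (hc.ae_eq_iff_eq μ continuous_zero).1 ((integral_eq_zero_iff_of_nonneg hpos hi).1 h0)
  intro z hz
  refine ext2_iso _ hz ?_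
  have h1 := hv i z hz
  rw [hz0] at h1
  simp only [Pi.zero_apply, Complex.ofReal_zero] at h1
  exact (mul_eq_zero.1 h1.symm).resolve_left (inv_ne_zero (pow_ne_zero _ hn0))

end Pool.Agent.SPF
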