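import Pool.Agent.P.MP_63735c_ag.SPA4
import Pool.Agent.P.MP_63735c_ag.SPA5

/-! Ring identities for a family of holomorphic functions. -/

open scoped Matrix

namespace Pool.Agent.SPF

variable {R : Type} [CommRing R] [StarRing R] [Algebra ℂ R] {α κ β : Type} [Fintype α] [Fintype κ]
  [DecidableEq α] [DecidableEq κ]

omit [StarRing R] in
lemma qa_der_det (δ : Derivation ℂ R R) (A : Matrix κ κ R) :
    δ A.det = ∑ i, ∑ l, A.adjugate l i * δ (A i l) := by
  rw [a3_der_det]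
  refine Finset.sum_congr rfl fun i _ => ?_
  rw [← Matrix.cramer_transpose_apply, Matrix.cramer_eq_adjugate_mulVec,
    ← Matrix.adjugate_transpose]
  rfl

namespace Dat

variable (D : Dat R α κ) (j : β → R)

def H (a : β) (x : α) : R := ∑ c, D.π c x * D.d c (j a)

def γ (a b : β) : R := ∑ x, ∑ c, D.H j a x * D.η x c * star (D.H j b c)

lemma qa_tau (δ : Derivation ℂ R R) (k : κ) (c : α) : ∑ x, D.Xc k x * δ (D.η x c) =
    ∑ m, star (D.e m c) * ∑ x, D.Xc k x * δ (D.η x (D.ι m)) := by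
  have h1 : ∀ x, D.Xc k x * δ (D.η x c) =
      ∑ m, D.Xc k x * D.η x (D.ι m) * δ (star (D.e m c)) +
        ∑ m, star (D.e m c) * (D.Xc k x * δ (D.η x (D.ι m))) := by
    intro x
    rw [D.a1_η' x c, a2_der, mul_add, Finset.mul_sum, Finset.mul_sum]
    congr 1 <;> exact Finset.sum_congr rfl fun i _ => by ring
  simp only [h1, Finset.sum_add_distrib]
  rw [Finset.sum_comm, Finset.sum_comm
    (f := fun x m => star (D.e m c) * (D.Xc k x * δ (D.η x (D.ι m))))]
  simp only [← Finset.sum_mul, D.Xη, zero_mul, Finset.sum_const_zero, zero_add, ← Finset.mul_sum]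

lemma tau (k : κ) (y c : α) : ∑ x, D.Xc k x * D.db y (D.η x c) =
    ∑ q, ∑ m, star (D.e q y) * star (D.e m c) *
      ∑ x, D.Xc k x * D.db (D.ι q) (D.η x (D.ι m)) := by
  rw [D.qa_tau, Finset.sum_comm]
  refine Finset.sum_congr rfl fun m _ => ?_
  have h1 : ∑ x, D.Xc k x * D.db y (D.η x (D.ι m)) =
      ∑ x, D.Xc k x * D.db (D.ι m) (D.η x y) :=
    Finset.sum_congr rfl fun x _ => by rw [D.closb]
  rw [h1, D.qa_tau, Finset.mul_sum]
  refine Finset.sum_congr rfl fun q _ => ?_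
  have h2 : ∑ x, D.Xc k x * D.db (D.ι m) (D.η x (D.ι q)) =
      ∑ x, D.Xc k x * D.db (D.ι q) (D.η x (D.ι m)) :=
    Finset.sum_congr rfl fun x _ => by rw [D.closb]
  rw [h2]
  ring

lemma X_j (k : κ) (a : β) : D.X k (j a) = ∑ b, D.e k b * D.H j a b := by
  rw [D.X_apply]
  simp only [Xc, H, Finset.sum_mul, Finset.mul_sum]
  rw [Finset.sum_comm]
  exact Finset.sum_congr rfl fun b _ => Finset.sum_congr rfl fun c _ => by ring

lemma γ_eq (a b : β) : D.γ j a b = ∑ k, ∑ l, D.X k (j a) * D.g k l * star (D.X l (j b)) := by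
  have h1 : ∀ x c, D.H j a x * D.η x c * star (D.H j b c) =
      ∑ k, ∑ l, D.e k x * D.H j a x * D.g k l * star (D.e l c * D.H j b c) := by
    intro x c
    rw [D.η_eq x c, Finset.mul_sum, Finset.sum_mul]
    refine Finset.sum_congr rfl fun k _ => ?_
    rw [Finset.mul_sum, Finset.sum_mul]
    refine Finset.sum_congr rfl fun l _ => ?_
    rw [star_mul']
    ring
  have h2 : ∀ x, ∑ c, D.H j a x * D.η x c * star (D.H j b c) =
      ∑ k, ∑ l, D.e k x * D.H j a x * D.g k l * star (D.X l (j b)) := by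
    intro x
    simp only [h1]
    rw [Finset.sum_comm]
    refine Finset.sum_congr rfl fun k _ => ?_
    rw [Finset.sum_comm]
    refine Finset.sum_congr rfl fun l _ => ?_
    rw [D.X_j, star_sum, Finset.mul_sum]
  rw [γ]
  simp only [h2]
  rw [Finset.sum_comm]
  refine Finset.sum_congr rfl fun k _ => ?_
  rw [Finset.sum_comm]
  refine Finset.sum_congr rfl fun l _ => ?_
  rw [D.X_j j k a, Finset.sum_mul, Finset.sum_mul]

lemma qa_X_star (k : κ) (f : R) (hf : D.Xb k f = 0) : D.X k (star f) = 0 := by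
  have h := D.star_X k (star f)
  rw [star_star, hf] at h
  exact star_eq_zero.1 h

lemma qa_Xb_X (hj : ∀ a c, D.db c (j a) = 0) (l k : κ) (a : β) : D.Xb l (D.X k (j a)) = 0 := by
  rw [← D.comm, D.Xb_apply]
  simp only [hj, mul_zero, Finset.sum_const_zero, map_zero]

lemma qa_X_γ (hj : ∀ a c, D.db c (j a) = 0) (k : κ) (a c : β) : D.X k (D.γ j a c) =
    ∑ m, (D.X k (D.X m (j a)) - ∑ i, D.A k m i * D.X i (j a)) *
      ∑ q, D.g m q * star (D.X q (j c)) := by
  have h1 : ∀ m q, D.X k (D.X m (j a) * D.g m q * star (D.X q (j c))) =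
      D.X k (D.X m (j a)) * (D.g m q * star (D.X q (j c))) -
        ∑ i, D.A k i m * D.X m (j a) * (D.g i q * star (D.X q (j c))) := by
    intro m q
    rw [a5_leib, a5_leib, D.qa_X_star k _ (D.qa_Xb_X j hj k q c), D.Xg, mul_zero, add_zero,
      add_mul, mul_neg, neg_mul, Finset.mul_sum, Finset.sum_mul, sub_eq_add_neg, mul_assoc]
    congr 2
    exact Finset.sum_congr rfl fun i _ => by ring
  rw [D.γ_eq, map_sum]
  simp only [map_sum, h1, Finset.sum_sub_distrib, sub_mul]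
  congr 1
  · simp only [Finset.mul_sum]
  · have h2 : ∀ m, ∑ q, ∑ i, D.A k i m * D.X m (j a) * (D.g i q * star (D.X q (j c))) =
        ∑ i, D.A k i m * D.X m (j a) * ∑ q, D.g i q * star (D.X q (j c)) := by
      intro m
      rw [Finset.sum_comm]
      simp only [Finset.mul_sum]
    simp only [h2]
    rw [Finset.sum_comm]
    simp only [Finset.sum_mul]

lemma γ_symm (hj : ∀ a c, D.db c (j a) = 0) (a b c : β) :
    ∑ k, ∑ l, D.g k l * star (D.X l (j b)) * D.X k (D.γ j a c) =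
      ∑ k, ∑ l, D.g k l * star (D.X l (j c)) * D.X k (D.γ j a b) := by
  have hB : ∀ k m, D.X k (D.X m (j a)) - ∑ i, D.A k m i * D.X i (j a) =
      D.X m (D.X k (j a)) - ∑ i, D.A m k i * D.X i (j a) := by
    intro k m
    have h := D.a5_comm k m (j a)
    simp only [sub_mul, Finset.sum_sub_distrib] at h
    linear_combination h
  simp only [← Finset.sum_mul]
  simp only [D.qa_X_γ j hj]
  have h1 : ∀ (V W : κ → R) (B : κ → κ → R), (∀ k m, B k m = B m k) →
      ∑ k, V k * ∑ m, B k m * W m = ∑ k, W k * ∑ m, B k m * V m := by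
    intro V W B h
    simp only [Finset.mul_sum]
    rw [Finset.sum_comm]
    refine Finset.sum_congr rfl fun k _ => Finset.sum_congr rfl fun m _ => ?_
    rw [h m k]
    ring
  exact h1 _ _ (fun k m => D.X k (D.X m (j a)) - ∑ i, D.A k m i * D.X i (j a)) hB

lemma qa_Xb_H (hj : ∀ a c, D.db c (j a) = 0) (l : κ) (a : β) (x : α) :
    D.Xb l (D.H j a x) = 0 := by
  have h : ∀ y, D.db y (D.H j a x) = 0 := by
    intro y
    rw [H, map_sum]
    refine Finset.sum_eq_zero fun c _ => ?_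
    rw [a5_leib, D.hol, ← D.ddb, hj, map_zero, zero_mul, mul_zero, add_zero]
  rw [D.Xb_apply]
  simp only [h, mul_zero, Finset.sum_const_zero]

lemma X_γ (hj : ∀ a c, D.db c (j a) = 0) (k : κ) (a b : β) : D.X k (D.γ j a b) =
    ∑ x, ∑ c, D.Xc k x * (∑ s, D.H j a s * D.d s (D.η x c)) * star (D.H j b c) +
      ∑ x, ∑ c, D.X k (D.H j a x) * D.η x c * star (D.H j b c) := by
  have h1 : ∀ x c, D.X k (D.H j a x * D.η x c * star (D.H j b c)) =
      ∑ s, D.Xc k s * (D.H j a x * D.d x (D.η s c)) * star (D.H j b c) +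
        D.X k (D.H j a x) * D.η x c * star (D.H j b c) := by
    intro x c
    rw [a5_leib, a5_leib, D.qa_X_star k _ (D.qa_Xb_H j hj k b c), mul_zero, add_zero, add_mul,
      add_comm, D.X_apply k (D.η x c), Finset.mul_sum, Finset.sum_mul]
    congr 1
    refine Finset.sum_congr rfl fun s _ => ?_
    rw [D.clos x c s]
    ring
  rw [γ, map_sum]
  simp only [map_sum, h1, Finset.sum_add_distrib]
  congr 1
  simp only [Finset.mul_sum, Finset.sum_mul]
  have h2 : ∀ x, ∑ c, ∑ s, D.Xc k s * (D.H j a x * D.d x (D.η s c)) * star (D.H j b c) =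
      ∑ s, ∑ c, D.Xc k s * (D.H j a x * D.d x (D.η s c)) * star (D.H j b c) :=
    fun x => Finset.sum_comm
  simp only [h2]
  rw [Finset.sum_comm]
  exact Finset.sum_congr rfl fun s _ => Finset.sum_comm

lemma W_γ (hj : ∀ a c, D.db c (j a) = 0) (J : κ → β) :
    D.W (Matrix.of fun i l => D.γ j (J i) (J l)).det =
      D.S * (Matrix.of fun i l => D.γ j (J i) (J l)).det ^ 2 := by
  let f : Matrix κ κ R := Matrix.of fun k l => D.X k (j (J l))
  have h1 : (Matrix.of fun i l => D.γ j (J i) (J l)) = fᵀ * D.g * fᴴᵀ := by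
    ext i l
    rw [Matrix.of_apply, D.γ_eq, Matrix.mul_apply, Finset.sum_comm]
    refine Finset.sum_congr rfl fun q _ => ?_
    rw [Matrix.mul_apply, Finset.sum_mul]
    rfl
  have h2 : ∀ l, D.Xb l f.det = 0 := by
    intro l
    rw [qa_der_det]
    refine Finset.sum_eq_zero fun i _ => Finset.sum_eq_zero fun q _ => ?_
    have : D.Xb l (f i q) = 0 := D.qa_Xb_X j hj l i (J q)
    rw [this, mul_zero]
  obtain ⟨h3, h4⟩ := D.W_eq_zero f.det h2
  rw [h1, Matrix.det_mul, Matrix.det_mul, Matrix.det_transpose, Matrix.det_transpose,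
    Matrix.det_conjTranspose, D.W_mul, D.W_mul, h3, h4, D.W_det]
  ring

end Dat

/-- Formula of Jacobi for a derivation. -/
lemma der_det (δ : Derivation ℂ R R) (A : Matrix κ κ R) :
    δ A.det = ∑ i, ∑ l, A.adjugate l i * δ (A i l) := qa_der_det δ A

omit [Algebra ℂ R] in
lemma qa_slot {ι : Type} [Fintype ι] [DecidableEq ι] (g f F : Matrix ι ι R) (hF : f * F = 1)
    (v w : ι → R) :
    (F *ᵥ v) ⬝ᵥ (fᵀ * g * f.map star) *ᵥ star (F *ᵥ w) = v ⬝ᵥ g *ᵥ star w := by
  have h1 : f.map star *ᵥ star (F *ᵥ w) = star w := by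
    have h2 : f.map star *ᵥ star (F *ᵥ w) = star (f *ᵥ (F *ᵥ w)) := by
      ext i
      simp only [Matrix.mulVec, dotProduct, Matrix.map_apply, Pi.star_apply, star_sum, star_mul']
    rw [h2, Matrix.mulVec_mulVec, hF, Matrix.one_mulVec]
  rw [← Matrix.mulVec_mulVec, h1, ← Matrix.mulVec_mulVec, Matrix.dotProduct_mulVec,
    Matrix.vecMul_transpose, Matrix.mulVec_mulVec, hF, Matrix.one_mulVec]

open scoped Kronecker in
omit [Algebra ℂ R] [DecidableEq κ] in
lemma qa_ip3 (g : Matrix κ κ R) (v w : κ → κ → κ → R) : ip3 g v w =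
    (fun p : κ × κ × κ => v p.1 p.2.1 p.2.2) ⬝ᵥ (g ⊗ₖ (g ⊗ₖ g)) *ᵥ
      star (fun p : κ × κ × κ => w p.1 p.2.1 p.2.2) := by
  simp only [ip3, Matrix.mulVec, dotProduct, Fintype.sum_prod_type, Matrix.kroneckerMap_apply,
    Pi.star_apply, Finset.mul_sum]
  refine Finset.sum_congr rfl fun m _ => Finset.sum_congr rfl fun j _ =>
    Finset.sum_congr rfl fun q _ => Finset.sum_congr rfl fun m' _ =>
    Finset.sum_congr rfl fun j' _ => Finset.sum_congr rfl fun q' _ => ?_
  ring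

open scoped Kronecker in
/-- Change of frame in the cubic norm. -/
lemma ip3_frame (g γ f F : Matrix κ κ R) (hF : F * f = 1)
    (hγ : ∀ a b, γ a b = ∑ k, ∑ l, f k a * g k l * star (f l b)) (u : κ → κ → κ → R) :
    ip3 g u u = ip3 γ (fun i j k => ∑ a, ∑ b, ∑ c, F i a * F j b * F k c * u a b c)
      (fun i j k => ∑ a, ∑ b, ∑ c, F i a * F j b * F k c * u a b c) := by
  have h0 : f * F = 1 := mul_eq_one_comm.1 hF
  have h1 : γ = fᵀ * g * f.map star := by
    ext a b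
    rw [hγ, Matrix.mul_apply, Finset.sum_comm]
    refine Finset.sum_congr rfl fun q _ => ?_
    rw [Matrix.mul_apply, Finset.sum_mul]
    rfl
  have h2 : (f ⊗ₖ (f ⊗ₖ f)) * (F ⊗ₖ (F ⊗ₖ F)) = 1 := by
    rw [← Matrix.mul_kronecker_mul, ← Matrix.mul_kronecker_mul, h0, Matrix.one_kronecker_one,
      Matrix.one_kronecker_one]
  have h3 : γ ⊗ₖ (γ ⊗ₖ γ) =
      (f ⊗ₖ (f ⊗ₖ f))ᵀ * (g ⊗ₖ (g ⊗ₖ g)) * (f ⊗ₖ (f ⊗ₖ f)).map star := by
    have h4 : (f ⊗ₖ (f ⊗ₖ f)).map star = f.map star ⊗ₖ (f.map star ⊗ₖ f.map star) := by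
      ext p q
      simp only [Matrix.map_apply, Matrix.kroneckerMap_apply, star_mul']
    have h5 : (f ⊗ₖ (f ⊗ₖ f))ᵀ = fᵀ ⊗ₖ (fᵀ ⊗ₖ fᵀ) := rfl
    rw [h4, h5, ← Matrix.mul_kronecker_mul, ← Matrix.mul_kronecker_mul,
      ← Matrix.mul_kronecker_mul, ← Matrix.mul_kronecker_mul, ← h1]
  have h6 : (fun p : κ × κ × κ => ∑ a, ∑ b, ∑ c, F p.1 a * F p.2.1 b * F p.2.2 c * u a b c) =
      (F ⊗ₖ (F ⊗ₖ F)) *ᵥ fun p : κ × κ × κ => u p.1 p.2.1 p.2.2 := by
    ext p
    simp only [Matrix.mulVec, dotProduct, Fintype.sum_prod_type, Matrix.kroneckerMap_apply,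
      mul_assoc]
  rw [qa_ip3, qa_ip3, h6, h3, qa_slot _ _ _ h2]

end Pool.Agent.SPF
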