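import Pool.Agent.P.MP_63735c_ag.SQMat
import Pool.Agent.P.MP_63735c_ag.SQA
import Pool.Agent.P.MP_63735c_ag.SPLu
import Pool.Agent.P.MP_63735c_ag.SPInv

/-! The estimate at a local maximum, with ambient weights. -/

open Set Filter Topology
open scoped ComplexOrder ContDiff Matrix

namespace Pool.Agent.SPF

variable {N M n : ℕ}

lemma sqlu_conj_sum (G : Matrix (Fin N) (Fin N) ℂ) (J : Matrix (Fin M) (Fin N) ℂ)
    (H : Matrix (Fin M) (Fin M) ℂ) :
    ∑ a, ∑ b, G a b * ∑ c, ∑ d, J c a * star (J d b) * H c d =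
      ∑ c, ∑ d, (J * G * Jᴴ) c d * H c d := by
  simp only [Matrix.mul_apply, Matrix.conjTranspose_apply, Finset.mul_sum, Finset.sum_mul]
  calc ∑ a, ∑ b, ∑ c, ∑ d, G a b * (J c a * star (J d b) * H c d)
      = ∑ a, ∑ c, ∑ d, ∑ b, G a b * (J c a * star (J d b) * H c d) := by
        refine Finset.sum_congr rfl fun a _ => ?_
        rw [Finset.sum_comm]
        exact Finset.sum_congr rfl fun c _ => Finset.sum_comm
    _ = ∑ c, ∑ d, ∑ a, ∑ b, G a b * (J c a * star (J d b) * H c d) := by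
        rw [Finset.sum_comm]
        exact Finset.sum_congr rfl fun c _ => Finset.sum_comm
    _ = _ := by
        refine Finset.sum_congr rfl fun c _ => Finset.sum_congr rfl fun d _ => ?_
        rw [Finset.sum_comm]
        exact Finset.sum_congr rfl fun b _ => Finset.sum_congr rfl fun a _ => by ring

lemma sqlu_d_db_pull {φ : E N → E M} {O₁ : TopologicalSpace.Opens (E M)}
    {O₂ : TopologicalSpace.Opens (E N)} (hφ : DifferentiableOn ℂ φ O₂)
    (hm : MapsTo φ O₂ O₁) (u : Sm O₁) (a b : Fin N) :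
    Sm.d a (Sm.db b (Sm.pull φ hφ hm u)) =
      ∑ c, ∑ d, Sm.J φ hφ c a * star (Sm.J φ hφ d b) * Sm.pull φ hφ hm (Sm.d c (Sm.db d u)) := by
  have h0 : ∀ d, Sm.d a (star (Sm.J φ hφ d b)) = 0 := by
    intro d
    have h1 := Sm.star_d a (star (Sm.J φ hφ d b))
    rw [star_star, Sm.db_J] at h1
    exact star_eq_zero.1 h1
  rw [Sm.db_pull, map_sum, Finset.sum_comm]
  refine Finset.sum_congr rfl fun d _ => ?_
  rw [Derivation.leibniz, h0, smul_zero, add_zero, smul_eq_mul, Sm.d_pull, Finset.mul_sum]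
  exact Finset.sum_congr rfl fun c _ => by ring

/-- The operators of the chart on a pulled back function are the ambient ones. -/
lemma sqlu_comp {C : Chart N} {D : AmbChart M} (e : Emb C D) {y : E N} (hy : y ∈ e.O)
    {f : E M → ℂ} (hf : ContDiffOn ℝ ∞ f D.W) :
    lapM (C.G y) (fun w => f (e.j w)) y = lapM (D.G (e.j y)) f (e.j y) ∧
      gamM (C.G y) (fun w => f (e.j w)) (fun w => f (e.j w)) y =
        gamM (D.G (e.j y)) f f (e.j y) := by
  let O₁ : TopologicalSpace.Opens (E M) := ⟨D.W, D.isOpen⟩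
  let O₂ : TopologicalSpace.Opens (E N) := ⟨e.O, e.isOpen⟩
  have hd : DifferentiableOn ℂ e.j O₂ := e.hol
  have hm : MapsTo e.j O₂ O₁ := e.maps
  let x : O₂ := ⟨y, hy⟩
  have hu : (Sm.mk (O := O₁) f hf).Rep f := Sm.rep_mk f hf
  have hp := hu.pull hd hm
  have e1 : ∀ a b, dz a (dzb b fun w => f (e.j w)) y =
      ∑ c, ∑ d, jac e.j y c a * star (jac e.j y d b) * dz c (dzb d f) (e.j y) := by
    intro a b
    have h1 := (hp.db b).d a x
    rw [sqlu_d_db_pull] at h1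
    simp only [map_sum, map_mul, Sm.ev_star, Sm.ev_J, Sm.ev_pull, (hu.db _).d _ _] at h1
    exact h1.symm
  have e2 : ∀ a, dz a (fun w => f (e.j w)) y = ∑ c, jac e.j y c a * dz c f (e.j y) := by
    intro a
    have h1 := hp.d a x
    rw [Sm.d_pull] at h1
    simp only [map_sum, map_mul, Sm.ev_J, Sm.ev_pull, hu.d _ _] at h1
    exact h1.symm
  have e3 : ∀ a, dzb a (fun w => f (e.j w)) y =
      ∑ c, star (jac e.j y c a) * dzb c f (e.j y) := by
    intro a
    have h1 := hp.db a x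
    rw [Sm.db_pull] at h1
    simp only [map_sum, map_mul, Sm.ev_star, Sm.ev_J, Sm.ev_pull, hu.db _ _] at h1
    exact h1.symm
  constructor
  · simp only [lapM, e1]
    rw [e.G_eq hy]
    exact sqlu_conj_sum (C.G y) (jac e.j y) (Matrix.of fun c d => dz c (dzb d f) (e.j y))
  · have h1 := sqlu_conj_sum (C.G y) (jac e.j y)
      (Matrix.of fun c d => dz c f (e.j y) * dzb d f (e.j y))
    simp only [Matrix.of_apply] at h1
    simp only [gamM, e2, e3, mul_assoc]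
    rw [e.G_eq hy, ← h1]
    refine Finset.sum_congr rfl fun a _ => Finset.sum_congr rfl fun b _ => ?_
    rw [Finset.sum_mul_sum]
    congr 1
    exact Finset.sum_congr rfl fun c _ => Finset.sum_congr rfl fun d _ => by ring

/-- Bounds for the ambient operators on a compact set. -/
lemma sqlu_amb_bound (D : AmbChart M) {K : Set (E M)} (hK : IsCompact K) (hKW : K ⊆ D.W)
    {ρ : E M → ℝ} (hρ : ContDiff ℝ ∞ ρ) {c : ℝ} (hc : 0 < c) :
    ∃ B : ℝ, 0 ≤ B ∧ ∀ z ∈ K, (gamM (D.G z) (fun w => (ρ w : ℂ)) (fun w => (ρ w : ℂ)) z).re ≤ B ∧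
      (c ≤ ρ z → -B ≤ dlogM (D.G z) (fun w => (ρ w : ℂ)) z) := by
  have hF : ContDiffOn ℝ ∞ (fun w => (ρ w : ℂ)) D.W := test_ofReal hρ.contDiffOn
  have cg : ContinuousOn (fun z => gamM (D.G z) (fun w => (ρ w : ℂ)) (fun w => (ρ w : ℂ)) z) K := by
    refine ContinuousOn.mono ?_ hKW
    exact continuousOn_finsetSum _ fun a _ => continuousOn_finsetSum _ fun b _ =>
      ((D.G_smooth a b).continuousOn.mul (smooth_dz D.isOpen hF a).continuousOn).mul
        (smooth_dzb D.isOpen hF b).continuousOn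
  have cl : ContinuousOn (fun z => lapM (D.G z) (fun w => (ρ w : ℂ)) z) K := by
    refine ContinuousOn.mono ?_ hKW
    exact continuousOn_finsetSum _ fun a _ => continuousOn_finsetSum _ fun b _ =>
      (D.G_smooth a b).continuousOn.mul
        (smooth_dz D.isOpen (smooth_dzb D.isOpen hF b) a).continuousOn
  have hK' : IsCompact (K ∩ {z | c ≤ ρ z}) :=
    hK.inter_right (isClosed_le continuous_const hρ.continuous)
  have cρ : ContinuousOn (fun w => (ρ w : ℂ)) (K ∩ {z | c ≤ ρ z}) :=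
    hF.continuousOn.mono (inter_subset_left.trans hKW)
  have cd : ContinuousOn (fun z => dlogM (D.G z) (fun w => (ρ w : ℂ)) z) (K ∩ {z | c ≤ ρ z}) := by
    refine Complex.continuous_re.comp_continuousOn
      (((cρ.mul (cl.mono inter_subset_left)).sub (cg.mono inter_subset_left)).div (cρ.pow 2) ?_)
    intro z hz
    have : 0 < ρ z := hc.trans_le hz.2
    exact pow_ne_zero 2 (Complex.ofReal_ne_zero.2 this.ne')
  obtain ⟨M₁, h₁⟩ := hK.exists_bound_of_continuousOn cg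
  obtain ⟨M₂, h₂⟩ := hK'.exists_bound_of_continuousOn cd
  refine ⟨max 0 (max M₁ M₂), le_max_left _ _, fun z hz => ⟨?_, fun hcz => ?_⟩⟩
  · exact ((Complex.re_le_norm _).trans (h₁ z hz)).trans (le_max_of_le_right (le_max_left _ _))
  · have := h₂ z ⟨hz, hcz⟩
    rw [Real.norm_eq_abs, abs_le] at this
    exact (neg_le_neg (le_max_of_le_right (le_max_right _ _))).trans this.1

lemma Emb.dlog_b (hN : N = 2 * n) {C : Chart N} {D : AmbChart M} (e : Emb C D) (hC : C.Iso)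
    {ι : Fin n → Fin N} {J : Fin n → Fin M} {y : E N} (hy : y ∈ e.O) (hU : y ∈ C.U ι)
    (hb : 0 < D.b J (e.j y)) :
    dlogM (C.G y) (fun y' => (D.b J (e.j y') : ℂ)) y = C.S ι y := by
  let L : C.Loc ι := ⟨⟨e.O ∩ C.U ι, e.isOpen.inter (C.isOpen_U ι)⟩, hN, hC, fun _ hx => hx.2⟩
  have hd : DifferentiableOn ℂ e.j L.O := e.hol.mono fun _ hx => hx.1
  have hda : ∀ a, DifferentiableOn ℂ (fun w => e.j w a) L.O := differentiableOn_pi.1 hd
  let j : Fin M → Sm L.O := fun a => Sm.mkH (fun w => e.j w a) (hda a)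
  have rj : ∀ a, (j a).Rep fun w => e.j w a := fun a => Sm.rep_mkH _ _
  have hj : ∀ a c, L.dat.db c (j a) = 0 := fun a c => (rj a).db_eq_zero (hda a) c
  have rd : ∀ a c (x : L.O), Sm.ev x (Sm.d c (j a)) = jac e.j x a c := by
    intro a c x
    have hx := L.O.isOpen.mem_nhds x.2
    have h1 := (hd.differentiableAt hx).hasFDerivAt
    rw [(rj a).d c x, (dz_of_diff ((hda a).differentiableAt hx) c).1,
      (hasFDerivAt_pi'.1 h1 a).fderiv]
    rfl
  have rH : ∀ a b (x : L.O), Sm.ev x (L.dat.H j a b) = e.H a x b := by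
    intro a b x
    simp only [Dat.H, Emb.H, map_sum, map_mul, Chart.Loc.dat_π, Chart.Loc.dat_d, L.rπ _ _ x, rd]
  have rγ : ∀ a b (x : L.O), Sm.ev x (L.dat.γ j a b) = D.G (e.j x) a b := by
    intro a b x
    rw [e.G_apply x.2.1]
    simp only [Dat.γ, map_sum, map_mul, Sm.ev_star, Chart.Loc.dat_η, L.rη _ _ x, rH]
  have hdet : (Matrix.of fun i l => L.dat.γ j (J i) (J l)).det.Rep
      fun y' => (D.b J (e.j y') : ℂ) := by
    intro x
    change _ = (mnr (D.G (e.j x)) J : ℂ)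
    rw [AlgHom.map_det, ← mnr_eq (e.G_psd x.2.1) J]
    congr 1
    ext i l
    exact rγ (J i) (J l) x
  let x : L.O := ⟨y, hy, hU⟩
  have h1 := L.dlog_eq hdet x
  have h0 : (D.b J (e.j x) : ℂ) ≠ 0 := Complex.ofReal_ne_zero.2 hb.ne'
  rw [L.dat.W_γ j hj J, map_mul, map_pow, hdet x,
    mul_div_cancel_right₀ _ (pow_ne_zero 2 h0), ← L.S_eq x] at h1
  exact h1

theorem AmbChart.cutoff_bound (D : AmbChart M) {K : Set (E M)} (hK : IsCompact K) (hKW : K ⊆ D.W)
    {ρ : E M → ℝ} (hρ : ContDiff ℝ ∞ ρ) {c : ℝ} (hc : 0 < c) :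
    ∃ B : ℝ, 0 ≤ B ∧ ∀ (C : Chart N) (e : Emb C D), ∀ y ∈ e.O, e.j y ∈ K →
      (gamM (C.G y) (fun y' => (ρ (e.j y') : ℂ)) (fun y' => (ρ (e.j y') : ℂ)) y).re ≤ B ∧
        (c ≤ ρ (e.j y) → -B ≤ dlogM (C.G y) (fun y' => (ρ (e.j y') : ℂ)) y) := by
  obtain ⟨B, hB, hb⟩ := sqlu_amb_bound D hK hKW hρ hc
  refine ⟨B, hB, fun C e y hy hyK => ?_⟩
  obtain ⟨l1, l2⟩ := sqlu_comp e hy (f := fun w => (ρ w : ℂ)) (test_ofReal hρ.contDiffOn)
  have h := hb _ hyK
  simp only [dlogM] at h ⊢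
  rw [l1, l2]
  exact h

theorem AmbChart.S_le_of_max (hN : N = 2 * n) (D : AmbChart M) {K : Set (E M)} (hK : IsCompact K)
    (hKW : K ⊆ D.W) {ρ : E M → ℝ} (hρ : ContDiff ℝ ∞ ρ) {c : ℝ} (hc : 0 < c) :
    ∃ B : ℝ, 0 ≤ B ∧ ∀ (C : Chart N) (e : Emb C D) (ι : Fin n → Fin N) (J : Fin n → Fin M), C.Iso →
      ∀ y ∈ e.O, y ∈ C.U ι → e.j y ∈ K → ∀ ε : ℝ, 0 < ε → 0 < D.b J (e.j y) → c ≤ ρ (e.j y) →
        IsLocalMax (fun y' => C.S ι y' * (ρ (e.j y') * D.b J (e.j y')) ^ ε) y →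
          C.S ι y ≤ ε * B := by
  obtain ⟨B, hB, hb⟩ := D.cutoff_bound (N := N) hK hKW hρ hc
  have hn : (0 : ℝ) ≤ n := Nat.cast_nonneg n
  refine ⟨n * B, by positivity, fun C e ι J hC y hy hU hyK ε hε hb0 hcρ hmax => ?_⟩
  rcases le_or_gt (C.S ι y) 0 with h0 | h0
  · exact h0.trans (by positivity)
  have ho : IsOpen (e.O ∩ C.U ι) := e.isOpen.inter (C.isOpen_U ι)
  have hjs : ContDiffOn ℝ ∞ e.j (e.O ∩ C.U ι) :=
    (smooth_of_hol e.isOpen e.hol).mono inter_subset_left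
  have s2 : ContDiffOn ℝ ∞ (fun y' => D.b J (e.j y')) (e.O ∩ C.U ι) :=
    (D.b_smooth J).comp hjs fun _ h => e.maps h.1
  have s3 : ContDiffOn ℝ ∞ (fun y' => ρ (e.j y')) (e.O ∩ C.U ι) := hρ.comp_contDiffOn hjs
  have h1 := max_test (Chart.G_psd hU.1) ho ⟨hy, hU⟩ ((C.S_smooth ι).mono inter_subset_right)
    s2 s3 h0 hb0 (hc.trans_le hcρ) hmax
  have h2 := e.dlog_b hN hC hy hU hb0
  have h3 := (hb C e y hy hyK).2 hcρ
  have h4 := Chart.lu hN hC hU h0
  rw [h2] at h1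
  have h5 : dlogM (C.G y) (fun w => (C.S ι w : ℂ)) y ≤ ε * B := by nlinarith
  have h6 := mul_le_mul_of_nonneg_left h5 hn
  nlinarith

end Pool.Agent.SPF
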