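import Pool.Agent.P.MP_63735c_ag.SQBound2
import Pool.Agent.P.MP_63735c_ag.SQLu
import Pool.Agent.P.MP_63735c_ag.SQCov

/-! A good map on a ball stays in a compact part of the rank n locus. -/

open Set Filter Topology
open scoped ComplexOrder ContDiff Matrix

namespace Pool.Agent.SPF

variable {N n : ℕ} {X : Type} [TopologicalSpace X] [T2Space X] [CompactSpace X] {R : Set X}
  {A : Atlas R N}

omit [CompactSpace X] in
/-- the logarithmic derivative of the weight is bounded at active pairs -/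
theorem qlip_deriv (hN : N = 2 * n) (hR : IsOpen R) (hd : Dense R) (hI : ∀ i, (A.C i).Iso)
    {B : Amb R A} (P : Cov2 B) :
    ∃ D : ℝ, 0 ≤ D ∧ ∀ (Φ : E n → R) t, A.GoodAt Φ t →
      ∃ α, ∃ J : Fin n → Fin (B.M (P.c α)), P.Active α J (Φ t) ∧ 0 < P.w α J (Φ t) ∧
        ∃ L : E n →L[ℝ] ℝ, (∀ᶠ s in 𝓝 t, (Φ s : X) ∈ P.K α) ∧
          HasFDerivAt (fun s => P.w α J (Φ s)) L t ∧ ‖L‖ ≤ D * P.w α J (Φ t) := by
  have := P.fin
  obtain ⟨c, hc, hact⟩ := P.exists_active hN hR hd hI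
  have hK : ∀ α, IsCompact (B.z (P.c α) '' P.K α) := fun α =>
    (P.cpt α).image_of_continuousOn ((B.cont _).mono (P.sub α))
  have hKW : ∀ α, B.z (P.c α) '' P.K α ⊆ (B.D (P.c α)).W := fun α => by
    rintro _ ⟨x, hx, rfl⟩
    exact B.maps _ (P.sub α hx)
  choose M₁ h₁ H₁ using fun α => (B.D (P.c α)).grad_bound hN (hK α) (hKW α)
  choose M₂ h₂ H₂ using fun α =>
    (B.D (P.c α)).cutoff_bound (N := N) (hK α) (hKW α) (P.smooth α) hc
  obtain ⟨D₀, hD₀⟩ := (Set.finite_range fun α => M₁ α + M₂ α).bddAbove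
  have hD : ∀ α, M₁ α + M₂ α ≤ |D₀| := fun α => (hD₀ ⟨α, rfl⟩).trans (le_abs_self _)
  have hD0 := abs_nonneg D₀
  generalize |D₀| = D at hD hD0
  refine ⟨2 * n * D + 2 * n * (D + 1) / c, by positivity, fun Φ t hg => ?_⟩
  have hcont : ContinuousAt (fun s => (Φ s : X)) t :=
    continuous_subtype_val.continuousAt.comp (lip_cont hg)
  obtain ⟨i, f, hf, he⟩ := hg
  have h0 := hf.self_of_nhds
  have hp : A.p i (f t) = Φ t := he.self_of_nhds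
  obtain ⟨⟨α, J, hz⟩, hall⟩ := hact (Φ t) ⟨i, f t, h0.1, hp, h0.2.1⟩
  obtain ⟨ha, hM, hρ⟩ := hall α J hz
  have hρ0 : 0 < P.ρ α (B.z (P.c α) (Φ t)) := hc.trans_le hρ
  have hy : f t ∈ (B.emb (P.c α) i).O := ⟨h0.1, by rw [hp]; exact P.sub α hz.1⟩
  have hj : (B.emb (P.c α) i).j (f t) = B.z (P.c α) (Φ t) := by
    show B.z (P.c α) (A.p i (f t)) = _
    rw [hp]
  have hjs : ∀ᶠ s in 𝓝 t, (B.emb (P.c α) i).j (f s) = B.z (P.c α) (Φ s) := by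
    filter_upwards [he] with s a
    show B.z (P.c α) (A.p i (f s)) = _
    rw [a]
  generalize B.emb (P.c α) i = e at hy hj hjs
  have hjK : e.j (f t) ∈ B.z (P.c α) '' P.K α := ⟨_, hz.1, hj.symm⟩
  have hjd : DifferentiableAt ℝ e.j (f t) :=
    (e.hol.differentiableAt (e.isOpen.mem_nhds hy)).restrictScalars ℝ
  have b₁ := h₁ α
  have b₂ := h₂ α
  have b₃ := hD α
  rw [← hj] at ha hM hρ hρ0
  obtain ⟨L₁, d₁, n₁⟩ := Chart.good_deriv hf (ψ := fun y => P.ρ α (e.j y))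
    (((P.smooth α).differentiable (by simp) _).comp _ hjd) (M := D + 1) (by positivity)
    ((H₂ α _ e _ hy hjK).1.trans (by nlinarith))
  obtain ⟨L₂, d₂, n₂⟩ := Chart.good_deriv hf (ψ := fun y => (B.D (P.c α)).b J (e.j y))
    (((((B.D (P.c α)).b_smooth J).contDiffAt
      ((B.D (P.c α)).isOpen.mem_nhds (e.maps hy))).differentiableAt (by simp)).comp _ hjd)
    (M := M₁ α * (B.D (P.c α)).b J (e.j (f t))) (by positivity)
    (H₁ α _ e J (hI i) _ hy h0.2.1 hjK hM)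
  have hw : P.w α J (Φ t) = P.ρ α (e.j (f t)) * (B.D (P.c α)).b J (e.j (f t)) := by
    rw [hj]; rfl
  refine ⟨α, J, hz, hw ▸ mul_pos hρ0 ha, _, ?_, (d₁.mul d₂).congr_of_eventuallyEq ?_, ?_⟩
  · exact hcont (P.nhds α _ hz.1 (hj ▸ hρ0.ne'))
  · filter_upwards [hjs] with s a
    show _ = P.ρ α (e.j (f s)) * (B.D (P.c α)).b J (e.j (f s))
    rw [a]; rfl
  · rw [hw]
    generalize P.ρ α (e.j (f t)) = ρ at *
    generalize (B.D (P.c α)).b J (e.j (f t)) = a at *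
    have e₁ : ‖ρ • L₂‖ ≤ 2 * n * D * (ρ * a) := by
      rw [norm_smul, Real.norm_of_nonneg hρ0.le]
      calc ρ * ‖L₂‖ ≤ ρ * (2 * n * (M₁ α * a)) := by gcongr
        _ ≤ ρ * (2 * n * (D * a)) := by gcongr; linarith
        _ = _ := by ring
    have e₂ : ‖a • L₁‖ ≤ 2 * n * (D + 1) / c * (ρ * a) := by
      rw [norm_smul, Real.norm_of_nonneg ha.le]
      calc a * ‖L₁‖ ≤ a * (2 * n * (D + 1)) := by gcongr
        _ = 2 * n * (D + 1) / c * (c * a) := by field_simp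
        _ ≤ _ := by gcongr
    calc _ ≤ ‖ρ • L₂‖ + ‖a • L₁‖ := norm_add_le _ _
      _ ≤ _ := by rw [add_mul]; exact add_le_add e₁ e₂

omit [CompactSpace X] in
theorem qlip_closed {B : Amb R A} (P : Cov2 B) {γ : ℝ → X} (hγ : ContinuousOn γ (Icc 0 1))
    {v : ℝ → ℝ} (hv : Continuous v) :
    IsClosed ({s : ℝ | ∃ α, ∃ J : Fin n → Fin (B.M (P.c α)),
      γ s ∈ P.K α ∧ v s ≤ P.w α J (γ s)} ∩ Icc 0 1) := by
  have := P.fin
  have e : {s : ℝ | ∃ α, ∃ J : Fin n → Fin (B.M (P.c α)),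
      γ s ∈ P.K α ∧ v s ≤ P.w α J (γ s)} ∩ Icc 0 1 = ⋃ α, ⋃ J : Fin n → Fin (B.M (P.c α)),
        {s ∈ Icc (0 : ℝ) 1 ∩ γ ⁻¹' P.K α | v s ≤ P.w α J (γ s)} := by
    ext s
    simp only [mem_iUnion]
    constructor
    · rintro ⟨⟨α, J, h1, h2⟩, hs⟩
      exact ⟨α, J, ⟨hs, h1⟩, h2⟩
    · rintro ⟨α, J, ⟨hs, h1⟩, h2⟩
      exact ⟨⟨α, J, h1, h2⟩, hs⟩
  rw [e]
  refine isClosed_iUnion_of_finite fun α => isClosed_iUnion_of_finite fun J => ?_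
  exact (hγ.preimage_isClosed_of_isClosed isClosed_Icc (P.cpt α).isClosed).isClosed_le
    hv.continuousOn ((P.w_cont α J).comp (hγ.mono inter_subset_left) fun s hs => hs.2)

omit [CompactSpace X] in
theorem qlip_lower (hN : N = 2 * n) (hR : IsOpen R) (hd : Dense R) (hI : ∀ i, (A.C i).Iso)
    {B : Amb R A} (P : Cov2 B) (x₀ : R) (ρ : ℝ) :
    ∃ τ : ℝ, 0 < τ ∧ ∀ r ≤ ρ, ∀ Φ : E n → R, Φ 0 = x₀ →
      (∀ t ∈ Metric.ball (0 : E n) r, A.GoodAt Φ t) → ∀ t ∈ Metric.ball (0 : E n) r,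
        ∃ α, ∃ J : Fin n → Fin (B.M (P.c α)), (Φ t : X) ∈ P.K α ∧ τ ≤ P.w α J (Φ t) := by
  obtain ⟨D, hD, H⟩ := qlip_deriv hN hR hd hI P
  by_cases hw : ∃ α, ∃ J : Fin n → Fin (B.M (P.c α)), (x₀ : X) ∈ P.K α ∧ 0 < P.w α J x₀
  swap
  · refine ⟨1, one_pos, fun r _ Φ h0 hg t ht => absurd ?_ hw⟩
    obtain ⟨α, J, ha, hpos, -⟩ := H Φ 0 (hg 0 (Metric.mem_ball_self (Metric.pos_of_mem_ball ht)))
    rw [h0] at ha hpos
    exact ⟨α, J, ha.1, hpos⟩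
  obtain ⟨α₀, J₀, ha₀, hw⟩ := hw
  refine ⟨P.w α₀ J₀ x₀ * Real.exp (-((D * ρ + 1) * 1)), by positivity,
    fun r hr Φ h0 hg t ht => ?_⟩
  have htR : ‖t‖ ≤ ρ := (mem_ball_zero_iff.1 ht).le.trans hr
  have hb : ∀ s ∈ Icc (0 : ℝ) 1, s • t ∈ Metric.ball (0 : E n) r := fun s hs => by
    rw [mem_ball_zero_iff, norm_smul, Real.norm_of_nonneg hs.1]
    exact (mul_le_of_le_one_left (norm_nonneg _) hs.2).trans_lt (mem_ball_zero_iff.1 ht)
  have hl : Continuous fun s : ℝ => s • t := by fun_prop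
  have hγ : ContinuousOn (fun s : ℝ => (Φ (s • t) : X)) (Icc 0 1) := fun s hs =>
    (continuous_subtype_val.continuousAt.comp
      (ContinuousAt.comp (f := fun s : ℝ => s • t) (lip_cont (hg _ (hb s hs)))
        hl.continuousAt)).continuousWithinAt
  have hcl := qlip_closed (n := n) P hγ
    (v := fun s => P.w α₀ J₀ x₀ * Real.exp (-((D * ρ + 1) * s))) (by fun_prop)
  have key := hcl.Icc_subset_of_forall_mem_nhdsWithin
    ⟨α₀, J₀, by rw [zero_smul, h0]; exact ha₀, by simp [h0]⟩ ?_ (right_mem_Icc.2 zero_le_one)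
  · simpa only [mem_ofPred_eq, one_smul] using key
  rintro s₀ ⟨⟨β, J', hy, hle⟩, hs⟩
  obtain ⟨α, J, ha, hpos, L, hev, hL, hn⟩ := H Φ _ (hg _ (hb s₀ (Ico_subset_Icc_self hs)))
  have h1 := hle.trans (ha.2 β J' hy)
  have hdd : HasDerivAt (fun s : ℝ => s • t) t s₀ := by
    simpa using (hasDerivAt_id s₀).smul_const t
  have h2 : HasDerivAt (fun s : ℝ => P.w α J (Φ (s • t))) (L t) s₀ :=
    HasFDerivAt.comp_hasDerivAt s₀ (f := fun s : ℝ => s • t) hL hdd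
  have h3 : |L t| ≤ D * P.w α J (Φ (s₀ • t)) * ρ :=
    (L.le_opNorm t).trans (mul_le_mul hn htR (norm_nonneg _) (by positivity))
  have h4 := lip_right (κ := D * ρ + 1) h2 (by nlinarith [neg_abs_le (L t)])
  filter_upwards [h4, nhdsWithin_le_nhds (hl.continuousAt.eventually hev)] with s a b
  refine ⟨α, J, b, ?_⟩
  have h5 : P.w α₀ J₀ x₀ ≤ P.w α J (Φ (s₀ • t)) * Real.exp ((D * ρ + 1) * s₀) := by
    rw [Real.exp_neg, ← div_eq_mul_inv, div_le_iff₀ (Real.exp_pos _)] at h1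
    exact h1
  show P.w α₀ J₀ x₀ * Real.exp (-((D * ρ + 1) * s)) ≤ _
  rw [Real.exp_neg, ← div_eq_mul_inv, div_le_iff₀ (Real.exp_pos _)]
  exact h5.trans a

theorem Amb.proper (hN : N = 2 * n) (hR : IsOpen R) (hd : Dense R) (hI : ∀ i, (A.C i).Iso)
    (B : Amb R A) (x₀ : R) (ρ : ℝ) : ∃ K : Set R, IsCompact K ∧ (∀ x ∈ K, A.Rk n x) ∧
      ∀ r ≤ ρ, ∀ Φ : E n → R, Φ 0 = x₀ → (∀ t ∈ Metric.ball (0 : E n) r, A.GoodAt Φ t) →
        ∀ t ∈ Metric.ball (0 : E n) r, Φ t ∈ K := by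
  obtain ⟨P⟩ := B.exists_cov
  have := P.fin
  obtain ⟨τ, hτ, H⟩ := qlip_lower hN hR hd hI P x₀ ρ
  have hrk : ∀ (x : X) α (J : Fin n → Fin (B.M (P.c α))), x ∈ P.K α → τ ≤ P.w α J x →
      ∃ hx : x ∈ R, A.Rk n ⟨x, hx⟩ := fun x α J h1 h2 =>
    B.rk_of_b hN hd hI (P.sub α h1) (J := J) (right_ne_zero_of_mul (hτ.trans_le h2).ne')
  refine ⟨{x : R | ∃ α, ∃ J : Fin n → Fin (B.M (P.c α)), (x : X) ∈ P.K α ∧ τ ≤ P.w α J x},
    ?_, ?_, H⟩
  · rw [Subtype.isCompact_iff]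
    have e : (fun x : R => (x : X)) ''
        {x : R | ∃ α, ∃ J : Fin n → Fin (B.M (P.c α)), (x : X) ∈ P.K α ∧ τ ≤ P.w α J x} =
        ⋃ α, ⋃ J : Fin n → Fin (B.M (P.c α)), {x ∈ P.K α | τ ≤ P.w α J x} := by
      ext x
      simp only [mem_iUnion]
      constructor
      · rintro ⟨x, ⟨α, J, h1, h2⟩, rfl⟩
        exact ⟨α, J, h1, h2⟩
      · rintro ⟨α, J, h1, h2⟩
        obtain ⟨hx, -⟩ := hrk x α J h1 h2
        exact ⟨⟨x, hx⟩, ⟨α, J, h1, h2⟩, rfl⟩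
    rw [e]
    refine IsClosed.isCompact ?_
    exact isClosed_iUnion_of_finite fun α => isClosed_iUnion_of_finite fun J =>
      (P.cpt α).isClosed.isClosed_le continuousOn_const (P.w_cont α J)
  · rintro x ⟨α, J, h1, h2⟩
    exact (hrk x α J h1 h2).2

end Pool.Agent.SPF
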