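import Pool.Agent.P.MP_63735c_ag.SQMax
import Pool.Agent.P.MP_63735c_ag.SQLip
import Pool.Agent.P.MP_63735c_ag.SQGlue
import Pool.Agent.P.MP_63735c_ag.HSMain
import Pool.Agent.P.MP_63735c_ag.HSAb

open MeasureTheory Pool.Agent.SPF Pool.Agent.NL Pool.Agent.CK Pool.Agent.CS Pool.Agent.HS

namespace Pool.Agent.AB.Kept

theorem abundance_kept (n : ℕ) (hn : 1 ≤ n) (X : Type) [TopologicalSpace X] [T2Space X] [CompactSpace X]
    (R : Set X) (hR : IsOpen R) (hd : Dense R) [PreconnectedSpace R] (A : Atlas R (2 * n))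
    (B : Amb R A) (hinj : ∀ i, Set.InjOn (A.p i) (A.C i).W) [MeasurableSpace R] [BorelSpace R]
    (μ : Measure R) [IsFiniteMeasure μ] (hμ : IsVolume A μ) (K : Form11 A) (hK : IsKahler B K)
    (H : BBF n A μ K) (hL : H.Isotropic) (hη : ∃ i, ∃ z ∈ (A.C i).W, (A.C i).η z ≠ 0)
    (u : R → ℝ) (d : ℝ) (hd0 : 0 < d) (hu : A.IsSectionNorm d u) (hb : BddAbove (Set.range u))
    (hu0 : ∃ x, u x ≠ 0) :
    ∃ (T : Set (E n)) (Ψ : E n × E n → R), IsOpen T ∧ T.Nonempty ∧ A.IsUnif T Ψ ∧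
      IsFibred Ψ T ∧ ∃ (m : ℕ) (g : R → E n), 0 < m ∧
        (∀ j, DifferentiableOn ℂ (fun w => g (A.p j w)) {w | w ∈ (A.C j).W ∧ u (A.p j w) ≠ 0}) ∧
        (∀ l, A.IsSectionNorm (m * d) fun x => ‖g x l‖ ^ 2 * u x ^ m) ∧
        ∀ b ∈ T, ∀ τ, u (Ψ (b, τ)) ≠ 0 ∧
          ∀ b' ∈ T, ∀ τ', g (Ψ (b, τ)) = g (Ψ (b', τ')) ↔ b = b' := by
  have := vol_pos hμ
  obtain ⟨j, y, hy, hη⟩ := hη
  have : Nonempty R := ⟨A.p j y⟩
  obtain ⟨i, z, hz, hr⟩ := BBF.rank hn rfl hK.posDef hL hy hη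
  obtain ⟨F, hF, hi, h0⟩ := BBF.exists_F hn rfl measureReal_univ_ne_zero hL
  have hI := A.iso_of_integrable rfl hn μ F hF hi h0
  have hH : ∀ i, (A.C i).Hol n := fun i =>
    Chart.hol_of_S rfl (hI i) (B.S_eq_zero rfl hR hd hI i)
  obtain ⟨T, Ψ, h1, h2, -, h4⟩ :=
    A.exists_unif rfl hI hH (A.complete_of_proper rfl hI hH (B.proper rfl hR hd hI)) i hz hr
  obtain ⟨T₁, a1, a2, a3, a4⟩ := BBF.leaves hn rfl hinj hμ hK.posDef hK.bd20 hK.bd11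
    (HX.exists_Lam hinj hK) hL h4 h1 ⟨0, h2⟩
  obtain ⟨c, hc⟩ := hb
  have h5 := unif_mono h4 a1
  have h6 := unif_mono h5 (O := T₁ ∩ {b | u (Ψ (b, 0)) ≠ 0}) Set.inter_subset_left
  obtain ⟨T', b1, b2, b3, b4⟩ := AB.abundance hinj hμ hK hd0 hu (fun x => hc ⟨x, rfl⟩)
    (AB.base_open h5 a2 hu) (AB.sect_base hu hu0 h5 a2 a3 a4) h6
    (AB.fib_mono a4 Set.inter_subset_left) fun b hb => hb.2
  exact ⟨T', Ψ, b2, b3, unif_mono h6 b1, b4⟩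

end Pool.Agent.AB.Kept
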