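import Pool.Agent.P.MP_63735c_ag.CLParam

/-! Stokes on squares, perturbation of line integrals. -/

open scoped ContDiff Matrix ENNReal
open Set Metric MeasureTheory Filter Topology

namespace Pool.Agent.CL

open Pool.Agent.SPF

variable {F : Type} [NormedAddCommGroup F] [NormedSpace ℝ F]

theorem clstokes_cd {W : Set F} (hW : IsOpen W) {A : Form1 F} (hA : ContDiffOn ℝ ∞ A W)
    {H : ℝ × ℝ → F} {q : ℝ × ℝ} (hq : ContDiffAt ℝ 2 H q) (hm : H q ∈ W) (v : ℝ × ℝ) :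
    ContDiffAt ℝ 1 (fun x => A (H x) (fderiv ℝ H x v)) q := by
  have h1 : ContDiffAt ℝ 1 A (H q) :=
    (hA.contDiffAt (hW.mem_nhds hm)).of_le (by exact_mod_cast le_top)
  have h2 : ContDiffAt ℝ 1 (fderiv ℝ H) q := hq.fderiv_right (by norm_num)
  exact (h1.comp q (hq.of_le (by norm_num))).clm_apply (h2.clm_apply contDiffAt_const)

theorem clstokes_fd {W : Set F} (hW : IsOpen W) {A : Form1 F} (hA : ContDiffOn ℝ ∞ A W)
    {H : ℝ × ℝ → F} {q : ℝ × ℝ} (hq : ContDiffAt ℝ 2 H q) (hm : H q ∈ W) (u v : ℝ × ℝ) :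
    fderiv ℝ (fun x => A (H x) (fderiv ℝ H x v)) q u =
      fderiv ℝ A (H q) (fderiv ℝ H q u) (fderiv ℝ H q v) +
        A (H q) (fderiv ℝ (fderiv ℝ H) q u v) := by
  have h1 : HasFDerivAt A (fderiv ℝ A (H q)) (H q) :=
    ((hA.contDiffAt (hW.mem_nhds hm)).differentiableAt (by simp)).hasFDerivAt
  have h2 : HasFDerivAt H (fderiv ℝ H q) q := (hq.differentiableAt (by norm_num)).hasFDerivAt
  have h3 : ContDiffAt ℝ 1 (fderiv ℝ H) q := hq.fderiv_right (by norm_num)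
  have h4 : HasFDerivAt (fderiv ℝ H) (fderiv ℝ (fderiv ℝ H) q) q :=
    (h3.differentiableAt (by norm_num)).hasFDerivAt
  have h5 := ((h1.comp q h2).clm_apply (h4.clm_apply (hasFDerivAt_const v q))).fderiv
  simp only [Function.comp_def] at h5
  rw [h5]
  simp [add_comm]

theorem clstokes_d1 {H : ℝ × ℝ → F} {s r : ℝ} (hq : ContDiffAt ℝ 2 H (s, r)) :
    deriv (fun x => H (x, r)) s = fderiv ℝ H (s, r) (1, 0) := by
  have h2 : HasFDerivAt H (fderiv ℝ H (s, r)) (s, r) :=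
    (hq.differentiableAt (by norm_num)).hasFDerivAt
  have h3 : HasDerivAt (fun x : ℝ => (x, r)) ((1, 0) : ℝ × ℝ) s :=
    (hasDerivAt_id s).prodMk (hasDerivAt_const s r)
  exact (h2.comp_hasDerivAt s h3).deriv

theorem clstokes_d2 {H : ℝ × ℝ → F} {s r : ℝ} (hq : ContDiffAt ℝ 2 H (s, r)) :
    deriv (fun x => H (s, x)) r = fderiv ℝ H (s, r) (0, 1) := by
  have h2 : HasFDerivAt H (fderiv ℝ H (s, r)) (s, r) :=
    (hq.differentiableAt (by norm_num)).hasFDerivAt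
  have h3 : HasDerivAt (fun x : ℝ => (s, x)) ((0, 1) : ℝ × ℝ) r :=
    (hasDerivAt_const r s).prodMk (hasDerivAt_id r)
  exact (h2.comp_hasDerivAt r h3).deriv

theorem stokes_sq {W : Set F} (hW : IsOpen W) {A : Form1 F} {t : Form2 F} (hA : IsPrim W A t)
    {H : ℝ × ℝ → F} (hH : ∀ q ∈ Icc (0 : ℝ) 1 ×ˢ Icc (0 : ℝ) 1, ContDiffAt ℝ 2 H q ∧ H q ∈ W) :
    lineInt A (fun s => H (s, 0)) + lineInt A (fun r => H (1, r)) - lineInt A (fun s => H (s, 1)) -
      lineInt A (fun r => H (0, r)) = ∫ s in (0 : ℝ)..1, ∫ r in (0 : ℝ)..1,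
        t (H (s, r)) (fderiv ℝ H (s, r) (1, 0)) (fderiv ℝ H (s, r) (0, 1)) := by
  have hu : Set.uIcc (0 : ℝ) 1 = Icc 0 1 := uIcc_of_le zero_le_one
  set f : ℝ × ℝ → ℝ := fun x => A (H x) (fderiv ℝ H x (0, 1)) with hf
  set g : ℝ × ℝ → ℝ := fun x => A (H x) (fderiv ℝ H x (1, 0)) with hg
  have cf : ∀ q ∈ Icc (0 : ℝ) 1 ×ˢ Icc (0 : ℝ) 1, ContDiffAt ℝ 1 f q :=
    fun q hq => clstokes_cd hW hA.1 (hH q hq).1 (hH q hq).2 _
  have cg : ∀ q ∈ Icc (0 : ℝ) 1 ×ˢ Icc (0 : ℝ) 1, ContDiffAt ℝ 1 g q :=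
    fun q hq => clstokes_cd hW hA.1 (hH q hq).1 (hH q hq).2 _
  have hsub : Ioo (min (0 : ℝ) 1) (max 0 1) ×ˢ Ioo (min (0 : ℝ) 1) (max 0 1) ⊆
      Icc (0 : ℝ) 1 ×ˢ Icc (0 : ℝ) 1 := by
    rw [min_eq_left zero_le_one, max_eq_right zero_le_one]
    exact prod_mono Ioo_subset_Icc_self Ioo_subset_Icc_self
  have key := integral2_divergence_prod_of_hasFDerivAt f (fun x => -g x) (fderiv ℝ f)
    (fun x => -fderiv ℝ g x) 0 0 1 1
    (by rw [hu]; exact fun q hq => (cf q hq).continuousAt.continuousWithinAt)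
    (by rw [hu]; exact fun q hq => (cg q hq).continuousAt.neg.continuousWithinAt)
    (fun x hx => ((cf x (hsub hx)).differentiableAt (by norm_num)).hasFDerivAt)
    (fun x hx => ((cg x (hsub hx)).differentiableAt (by norm_num)).hasFDerivAt.neg)
    (by
      rw [hu]
      refine ContinuousOn.integrableOn_compact (isCompact_Icc.prod isCompact_Icc) ?_
      intro q hq
      have h1 : ContinuousAt (fderiv ℝ f) q :=
        ((cf q hq).fderiv_right (m := 0) (by norm_num)).continuousAt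
      have h2 : ContinuousAt (fderiv ℝ g) q :=
        ((cg q hq).fderiv_right (m := 0) (by norm_num)).continuousAt
      exact ((h1.clm_apply continuousAt_const).add
        (h2.neg.clm_apply continuousAt_const)).continuousWithinAt)
  have e0 : (∫ s in (0 : ℝ)..1, ∫ r in (0 : ℝ)..1,
      t (H (s, r)) (fderiv ℝ H (s, r) (1, 0)) (fderiv ℝ H (s, r) (0, 1))) =
      ∫ s in (0 : ℝ)..1, ∫ r in (0 : ℝ)..1,
        fderiv ℝ f (s, r) (1, 0) + (-fderiv ℝ g (s, r)) (0, 1) := by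
    refine intervalIntegral.integral_congr fun s hs => ?_
    refine intervalIntegral.integral_congr fun r hr => ?_
    rw [hu] at hs hr
    obtain ⟨h1, h2⟩ := hH (s, r) ⟨hs, hr⟩
    have hsym := (h1.isSymmSndFDerivAt (by simp)).eq (1, 0) (0, 1)
    simp only [neg_apply]
    rw [hf, hg, clstokes_fd hW hA.1 h1 h2, clstokes_fd hW hA.1 h1 h2, hsym, ← hA.2 _ h2]
    ring
  have e1 : ∀ r ∈ Icc (0 : ℝ) 1, lineInt A (fun s => H (s, r)) = ∫ s in (0 : ℝ)..1, g (s, r) := by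
    intro r hr
    refine intervalIntegral.integral_congr fun s hs => ?_
    rw [hu] at hs
    simp only [hg]
    rw [clstokes_d1 (hH (s, r) ⟨hs, hr⟩).1]
  have e2 : ∀ s ∈ Icc (0 : ℝ) 1, lineInt A (fun r => H (s, r)) = ∫ r in (0 : ℝ)..1, f (s, r) := by
    intro s hs
    refine intervalIntegral.integral_congr fun r hr => ?_
    rw [hu] at hr
    simp only [hf]
    rw [clstokes_d2 (hH (s, r) ⟨hs, hr⟩).1]
  have m0 : (0 : ℝ) ∈ Icc (0 : ℝ) 1 := ⟨le_rfl, zero_le_one⟩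
  have m1 : (1 : ℝ) ∈ Icc (0 : ℝ) 1 := ⟨zero_le_one, le_rfl⟩
  rw [e0, key, e1 0 m0, e1 1 m1, e2 0 m0, e2 1 m1]
  simp only [intervalIntegral.integral_neg]
  ring

theorem clstokes_seg (p q : F) (s : ℝ) : HasDerivAt (seg p q) (q - p) s := by
  have := ((hasDerivAt_id s).smul_const (q - p)).const_add p
  rw [one_smul] at this
  exact this

theorem lineInt_seg (A : Form1 F) (p q : F) : lineInt A (seg p q) = segInt A p q := by
  unfold lineInt segInt
  refine intervalIntegral.integral_congr fun s _ => ?_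
  simp only [(clstokes_seg p q s).deriv]
  rfl

theorem curve_seg {W : Set F} (hc : Convex ℝ W) {p q : F} (hp : p ∈ W) (hq : q ∈ W) :
    Curve W (seg p q) := by
  intro s hs
  refine ⟨?_, hc.add_smul_sub_mem hp hq hs⟩
  unfold seg
  fun_prop

theorem segInt_symm (A : Form1 F) (p q : F) : segInt A q p = -segInt A p q := by
  unfold segInt
  have h := intervalIntegral.integral_comp_sub_left (a := 0) (b := 1)
    (fun s : ℝ => A (p + s • (q - p)) (q - p)) 1
  simp only [sub_self, sub_zero] at h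
  rw [← h, ← intervalIntegral.integral_neg]
  refine intervalIntegral.integral_congr fun s _ => ?_
  have e : q + s • (p - q) = p + (1 - s) • (q - p) := by module
  have e' : p - q = -(q - p) := by abel
  rw [e, e', map_neg]

theorem stokes_par {W : Set F} (hW : IsOpen W) (hc : Convex ℝ W) {A : Form1 F} {t : Form2 F}
    (hA : IsPrim W A t) {p a b : F} (h0 : p ∈ W) (h1 : p + a ∈ W) (h2 : p + b ∈ W)
    (h3 : p + a + b ∈ W) :
    segInt A p (p + a) + segInt A (p + a) (p + a + b) - segInt A (p + b) (p + a + b) -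
      segInt A p (p + b) = par t p a b := by
  have hd : ∀ q : ℝ × ℝ, HasFDerivAt (fun x : ℝ × ℝ => p + x.1 • a + x.2 • b)
      ((ContinuousLinearMap.fst ℝ ℝ ℝ).smulRight a + (ContinuousLinearMap.snd ℝ ℝ ℝ).smulRight b)
      q := fun q =>
    ((hasFDerivAt_fst.smul_const a).const_add p).add (hasFDerivAt_snd.smul_const b)
  have key := stokes_sq hW hA (H := fun x : ℝ × ℝ => p + x.1 • a + x.2 • b) (by
    rintro ⟨s, r⟩ ⟨hs, hr⟩
    refine ⟨by fun_prop, ?_⟩
    have := hc.add_smul_sub_mem (hc.add_smul_sub_mem h0 h1 hs) (hc.add_smul_sub_mem h2 h3 hs) hr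
    convert this using 1
    module)
  have e1 : (fun s : ℝ => p + s • a + (0 : ℝ) • b) = seg p (p + a) := by
    funext s; simp only [seg]; module
  have e2 : (fun r : ℝ => p + (1 : ℝ) • a + r • b) = seg (p + a) (p + a + b) := by
    funext s; simp only [seg]; module
  have e3 : (fun s : ℝ => p + s • a + (1 : ℝ) • b) = seg (p + b) (p + a + b) := by
    funext s; simp only [seg]; module
  have e4 : (fun r : ℝ => p + (0 : ℝ) • a + r • b) = seg p (p + b) := by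
    funext s; simp only [seg]; module
  simp only [e1, e2, e3, e4, lineInt_seg, (hd _).fderiv] at key
  rw [key]
  simp [par]

theorem pert {W : Set F} (hW : IsOpen W) (hc : Convex ℝ W) {A : Form1 F} {t : Form2 F}
    (hA : IsPrim W A t) {c c' : ℝ → F} (h : Curve W c) (h' : Curve W c') {K K0 K1 : ℝ}
    (hK : ∀ s ∈ Icc (0 : ℝ) 1, ∀ r ∈ Icc (0 : ℝ) 1, |t (c r + s • (c' r - c r)) (c' r - c r)
      (deriv c r + s • (deriv c' r - deriv c r))| ≤ K)
    (hK0 : ∀ s ∈ Icc (0 : ℝ) 1, |A (c 0 + s • (c' 0 - c 0)) (c' 0 - c 0)| ≤ K0)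
    (hK1 : ∀ s ∈ Icc (0 : ℝ) 1, |A (c 1 + s • (c' 1 - c 1)) (c' 1 - c 1)| ≤ K1) :
    |lineInt A c' - lineInt A c| ≤ K + K0 + K1 := by
  have hu : Set.uIoc (0 : ℝ) 1 ⊆ Icc 0 1 := by
    rw [uIoc_of_le zero_le_one]; exact Ioc_subset_Icc_self
  have bd : ∀ {g : ℝ → ℝ} {M : ℝ}, (∀ s ∈ Icc (0 : ℝ) 1, |g s| ≤ M) →
      |∫ s in (0 : ℝ)..1, g s| ≤ M := by
    intro g M hg
    have := intervalIntegral.norm_integral_le_of_norm_le_const (a := 0) (b := 1) (f := g) (C := M)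
      fun s hs => hg s (hu hs)
    simpa using this
  set H : ℝ × ℝ → F := fun x => c x.2 + x.1 • (c' x.2 - c x.2) with hH
  have hcd : ∀ q ∈ Icc (0 : ℝ) 1 ×ˢ Icc (0 : ℝ) 1, ContDiffAt ℝ 2 H q ∧ H q ∈ W := by
    rintro ⟨s, r⟩ ⟨hs, hr⟩
    have a1 : ContDiffAt ℝ 2 (fun x : ℝ × ℝ => c x.2) (s, r) :=
      ContDiffAt.comp (g := c) (f := Prod.snd) (s, r) (h r hr).1 contDiffAt_snd
    have a2 : ContDiffAt ℝ 2 (fun x : ℝ × ℝ => c' x.2) (s, r) :=
      ContDiffAt.comp (g := c') (f := Prod.snd) (s, r) (h' r hr).1 contDiffAt_snd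
    exact ⟨a1.add (contDiffAt_fst.smul (a2.sub a1)), hc.add_smul_sub_mem (h r hr).2 (h' r hr).2 hs⟩
  have key := stokes_sq hW hA hcd
  have e1 : (fun s : ℝ => H (s, 0)) = seg (c 0) (c' 0) := rfl
  have e2 : (fun r : ℝ => H (1, r)) = c' := by
    funext r; simp [hH]
  have e3 : (fun s : ℝ => H (s, 1)) = seg (c 1) (c' 1) := rfl
  have e4 : (fun r : ℝ => H (0, r)) = c := by
    funext r; simp [hH]
  rw [e1, e2, e3, e4, lineInt_seg, lineInt_seg] at key
  have b0 : |segInt A (c 0) (c' 0)| ≤ K0 := bd hK0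
  have b1 : |segInt A (c 1) (c' 1)| ≤ K1 := bd hK1
  have b2 : |∫ s in (0 : ℝ)..1, ∫ r in (0 : ℝ)..1,
      t (H (s, r)) (fderiv ℝ H (s, r) (1, 0)) (fderiv ℝ H (s, r) (0, 1))| ≤ K := by
    refine bd fun s hs => bd fun r hr => ?_
    have hq := (hcd (s, r) ⟨hs, hr⟩).1
    rw [← clstokes_d1 hq, ← clstokes_d2 hq]
    have d1 : deriv (fun x : ℝ => H (x, r)) s = c' r - c r := (clstokes_seg (c r) (c' r) s).deriv
    have a1 : HasDerivAt c (deriv c r) r := ((h r hr).1.differentiableAt (by norm_num)).hasDerivAt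
    have a2 : HasDerivAt c' (deriv c' r) r :=
      ((h' r hr).1.differentiableAt (by norm_num)).hasDerivAt
    have d2 : deriv (fun x : ℝ => H (s, x)) r = deriv c r + s • (deriv c' r - deriv c r) :=
      (a1.add ((a2.sub a1).const_smul s)).deriv
    rw [d1, d2]
    exact hK s hs r hr
  rw [← key] at b2
  rw [abs_le] at b0 b1 b2 ⊢
  constructor <;> linarith [b0.1, b0.2, b1.1, b1.2, b2.1, b2.2]

end Pool.Agent.CL
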