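import Pool.Agent.P.MP_63735c_ag.CKDefs
import Pool.Agent.P.MP_63735c_ag.CLDg
import Pool.Agent.P.MP_c4558b_ag.NLMain

/-! Forms in charts as real bilinear maps, and their pull-backs to `T × ℂ^n`. -/

open scoped ComplexOrder ContDiff Matrix
open Set Metric MeasureTheory Filter Topology

namespace Pool.Agent.CK

open Pool.Agent.SPF Pool.Agent.CL Pool.Agent.NL

variable {N n : ℕ} {X : Type} [TopologicalSpace X]

/-- `ev11` as a real bilinear map. -/
noncomputable def e11 (h : Matrix (Fin N) (Fin N) ℂ) : E N →L[ℝ] E N →L[ℝ] ℝ :=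
  LinearMap.toContinuousBilinearMap (LinearMap.mk₂ ℝ (ev11 h)
    (fun u u' v => by simp [ev11, mul_add])
    (fun c u v => by simp [ev11]; ring)
    (fun u v v' => by simp [ev11, Matrix.mulVec_add, mul_add])
    (fun c u v => by simp [ev11, Matrix.mulVec_smul]; ring))

@[simp] lemma e11_apply (h : Matrix (Fin N) (Fin N) ℂ) (u v : E N) : e11 h u v = ev11 h u v := rfl

/-- The real bilinear map `Re (c σ)`. -/
noncomputable def s20 (c : ℂ) (s : Matrix (Fin N) (Fin N) ℂ) : E N →L[ℝ] E N →L[ℝ] ℝ :=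
  LinearMap.toContinuousBilinearMap (LinearMap.mk₂ ℝ (fun u v => (c * (u ⬝ᵥ s *ᵥ v)).re)
    (fun u u' v => by simp [mul_add])
    (fun r u v => by simp; ring)
    (fun u v v' => by simp [Matrix.mulVec_add, mul_add])
    (fun r u v => by simp [Matrix.mulVec_smul]; ring))

@[simp] lemma s20_apply (c : ℂ) (s : Matrix (Fin N) (Fin N) ℂ) (u v : E N) :
    s20 c s u v = (c * (u ⬝ᵥ s *ᵥ v)).re := rfl

lemma ev11_I (h : Matrix (Fin N) (Fin N) ℂ) (u : E N) :
    ev11 h u (Complex.I • u) = 2 * (u ⬝ᵥ h *ᵥ star u).re := by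
  simp [ev11, Matrix.mulVec_smul, Matrix.mulVec_neg]

lemma ev11_II (h : Matrix (Fin N) (Fin N) ℂ) (u v : E N) :
    ev11 h (Complex.I • u) (Complex.I • v) = ev11 h u v := by
  simp [ev11, Matrix.mulVec_smul, Matrix.mulVec_neg]

/-- `f` is a holomorphic lift of `Ψ` near `p` to the chart `i`. -/
def Lf (A : Atlas X N) (Ψ : P n → X) (p : P n) (i : A.ι) (f : P n → E N) : Prop :=
  ∀ᶠ s in 𝓝 p, DifferentiableAt ℂ f s ∧ f s ∈ (A.C i).W ∧ A.p i (f s) = Ψ s

/-- A closed real 2-form on `X`. -/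
structure GForm (A : Atlas X N) (β : A.ι → Form2 (E N)) : Prop where
  closed : ∀ i, Closed2 (A.C i).W (β i)
  compat : ∀ i j O φ, IsChange (A.C i) (A.C j) O φ → (∀ w ∈ O, A.p j (φ w) = A.p i w) →
    ∀ z ∈ O, ∀ u v, β i z u v = β j (φ z) (fderiv ℂ φ z u) (fderiv ℂ φ z v)

open Classical in
/-- The pull-back of `β` by `Ψ`. -/
noncomputable def pb (A : Atlas X N) (β : A.ι → Form2 (E N)) (Ψ : P n → X) : Form2 (P n) :=
  fun p => if h : ∃ x : A.ι × (P n → E N), Lf A Ψ p x.1 x.2 then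
    (β h.choose.1 (h.choose.2 p)).bilinearComp (fderiv ℝ h.choose.2 p) (fderiv ℝ h.choose.2 p)
  else 0

/-- The form of a family of matrices. -/
noncomputable def f11 (A : Atlas X N) (M : A.ι → E N → Matrix (Fin N) (Fin N) ℂ) :
    A.ι → Form2 (E N) := fun i z => e11 (M i z)

/-- The form `Re (c σ)`. -/
noncomputable def f20 (A : Atlas X N) (c : ℂ) : A.ι → Form2 (E N) :=
  fun i z => s20 c ((A.C i).σ z)

/-- The form `η` as a global form. -/
def etaF (A : Atlas X N) : Form11 A where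
  h i := (A.C i).η
  smooth i := (A.C i).η_smooth
  herm i z hz := ((A.C i).η_psd z hz).isHermitian
  closed i := (A.C i).η_closed
  compat _ _ _ _ h _ := h.η_eq

/-- A uniformisation that pulls `σ` back to the standard form. -/
def Std (A : Atlas X N) (T : Set (E n)) (Ψ : P n → X) : Prop :=
  A.IsUnif T Ψ ∧ ∀ c, ∀ p : P n, p.1 ∈ T → pb A (f20 A c) Ψ p = sig c

/-- The geometric part of `IsRet`. -/
def Geo (T O : Set (E n)) (g : Ret n) : Prop := IsRet univ (fun _ => ()) O g ∧ MapsTo g.γ O T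

/-- The form induced by `k η` on the base. -/
noncomputable def hb (A : Atlas X N) (k : ℝ) (Ψ : P n → X) : Form2 (E n) := fun y =>
  k • (pb A (f11 A (etaF A).h) Ψ (y, 0)).bilinearComp (ContinuousLinearMap.inl ℝ _ _)
    (ContinuousLinearMap.inl ℝ _ _)

end Pool.Agent.CK
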