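import Pool.Agent.P.MP_63735c_ag.HSDefs
import Pool.Agent.P.MP_63735c_ag.SPExt2

/-! Top degree elements of the exterior algebra. -/

open scoped Matrix

namespace Pool.Agent.HS

open Pool.Agent.SPF ExteriorAlgebra

section Top

variable {V : Type} [AddCommGroup V] [Module ℂ V] {d : ℕ}

theorem top_eq (e : Module.Basis (Fin d) ℂ V) (v : Fin d → V) :
    ιMulti ℂ d v = e.det v • ιMulti ℂ d e := by
  rw [← sub_eq_zero, ← Module.forall_dual_apply_eq_zero_iff ℂ]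
  intro φ
  have h := congrArg (fun f => f v)
    (AlternatingMap.eq_smul_basis_det e (φ.compAlternatingMap (ιMulti ℂ d)))
  simp only [LinearMap.compAlternatingMap_apply, AlternatingMap.smul_apply, smul_eq_mul] at h
  rw [map_sub, map_smul, h, smul_eq_mul, mul_comm, sub_self]

theorem top_mem (e : Module.Basis (Fin d) ℂ V) {x : ExteriorAlgebra ℂ V} (hx : x ∈ ⋀[ℂ]^d V) :
    ∃ p : ℂ, x = p • ιMulti ℂ d e := by
  rw [← ιMulti_span_fixedDegree] at hx
  induction hx using Submodule.span_induction with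
  | mem x hx =>
    obtain ⟨v, rfl⟩ := hx
    exact ⟨_, top_eq e v⟩
  | zero => exact ⟨0, (zero_smul _ _).symm⟩
  | add x y _ _ hx hy =>
    obtain ⟨p, rfl⟩ := hx
    obtain ⟨q, rfl⟩ := hy
    exact ⟨p + q, (add_smul _ _ _).symm⟩
  | smul c x _ hx =>
    obtain ⟨p, rfl⟩ := hx
    exact ⟨c * p, smul_smul _ _ _⟩

theorem top_map (e : Module.Basis (Fin d) ℂ V) (L : V →ₗ[ℂ] V) {x : ExteriorAlgebra ℂ V}
    (hx : x ∈ ⋀[ℂ]^d V) : ExteriorAlgebra.map L x = LinearMap.det L • x := by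
  obtain ⟨p, rfl⟩ := top_mem e hx
  rw [map_smul, map_apply_ιMulti, top_eq e, e.det_comp, e.det_self, mul_one, smul_comm]

theorem deg_mul {k l : ℕ} {x y : ExteriorAlgebra ℂ V} (hx : x ∈ ⋀[ℂ]^k V) (hy : y ∈ ⋀[ℂ]^l V) :
    x * y ∈ ⋀[ℂ]^(k + l) V := by
  rw [exteriorPower, pow_add]
  exact Submodule.mul_mem_mul hx hy

theorem deg_pow {k : ℕ} {x : ExteriorAlgebra ℂ V} (hx : x ∈ ⋀[ℂ]^k V) (l : ℕ) :
    x ^ l ∈ ⋀[ℂ]^(k * l) V := by
  rw [exteriorPower, pow_mul]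
  exact Submodule.pow_mem_pow _ hx l

theorem deg_two (u v : V) : ι ℂ u * ι ℂ v ∈ ⋀[ℂ]^2 V := by
  rw [exteriorPower, pow_two]
  exact Submodule.mul_mem_mul ⟨u, rfl⟩ ⟨v, rfl⟩

theorem deg_sum {κ : Type} [Fintype κ] (c : ℂ) (s : κ → κ → ℂ) (u v : κ → V) :
    c • ∑ a, ∑ b, s a b • (ι ℂ (u a) * ι ℂ (v b)) ∈ ⋀[ℂ]^2 V :=
  Submodule.smul_mem _ _ (Submodule.sum_mem _ fun _ _ => Submodule.sum_mem _ fun _ _ =>
    Submodule.smul_mem _ _ (deg_two _ _))

theorem two_comm {x : ExteriorAlgebra ℂ V} (hx : x ∈ ⋀[ℂ]^2 V) (y : ExteriorAlgebra ℂ V) :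
    Commute x y := by
  have h1 : ∀ v, Commute x (ι ℂ v) := fun v => by
    rw [exteriorPower, pow_two] at hx
    refine Submodule.mul_induction_on hx ?_ fun a b ha hb => ha.add_left hb
    rintro _ ⟨u, rfl⟩ _ ⟨w, rfl⟩
    have sw : ∀ a b : V, ι ℂ a * ι ℂ b = -(ι ℂ b * ι ℂ a) := fun a b =>
      eq_neg_of_add_eq_zero_left (ι_add_mul_swap a b)
    unfold Commute SemiconjBy
    rw [mul_assoc, sw w v, mul_neg, ← mul_assoc, sw u v, neg_mul, neg_neg, mul_assoc]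
  induction y using ExteriorAlgebra.induction with
  | algebraMap r => exact (Algebra.commutes r x).symm
  | ι v => exact h1 v
  | mul a b ha hb => exact ha.mul_right hb
  | add a b ha hb => exact ha.add_right hb

end Top

/-- An algebra with the conjugate complex structure. -/
def Cj (R : Type) : Type := R

instance cjRing {R : Type} [Ring R] : Ring (Cj R) := inferInstanceAs (Ring R)

noncomputable instance cjAlg {R : Type} [Ring R] [Algebra ℂ R] : Algebra ℂ (Cj R) :=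
  RingHom.toAlgebra' (R := ℂ) (S := Cj R) ((algebraMap ℂ R).comp (starRingEnd ℂ))
    fun c x => Algebra.commutes (A := R) (star c) x

theorem exists_conj (N : ℕ) : ∃ κ : ExteriorAlgebra ℂ (E N) →+* ExteriorAlgebra ℂ (E N),
    (∀ (c : ℂ) x, κ (c • x) = star c • κ x) ∧ ∀ v, κ (ι ℂ v) = ι ℂ (star v) := by
  let f : E N →ₗ[ℂ] Cj (ExteriorAlgebra ℂ (E N)) :=
    { toFun := fun v => (ι ℂ (star v) : ExteriorAlgebra ℂ (E N))
      map_add' := fun u v => by rw [star_add, map_add]; rfl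
      map_smul' := fun c v => by
        rw [star_smul, map_smul, Algebra.smul_def]
        rfl }
  let κ := ExteriorAlgebra.lift ℂ ⟨f, fun v => ι_sq_zero (R := ℂ) (star v)⟩
  refine ⟨(κ : ExteriorAlgebra ℂ (E N) →+* Cj (ExteriorAlgebra ℂ (E N))), fun c x => ?_,
    fun v => lift_ι_apply ℂ f _ v⟩
  have h := map_smul κ c x
  rw [Algebra.smul_def (star c)]
  exact h

variable {N n : ℕ} {s t h : Matrix (Fin N) (Fin N) ℂ}

theorem deg20 (s : Matrix (Fin N) (Fin N) ℂ) : form20 s ∈ ⋀[ℂ]^2 (Fin N ⊕ Fin N → ℂ) :=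
  deg_sum _ _ _ _

theorem deg02 (s : Matrix (Fin N) (Fin N) ℂ) : form02 s ∈ ⋀[ℂ]^2 (Fin N ⊕ Fin N → ℂ) :=
  deg_sum _ (fun a b => star (s a b)) _ _

theorem deg11 (h : Matrix (Fin N) (Fin N) ℂ) : form11 h ∈ ⋀[ℂ]^2 (Fin N ⊕ Fin N → ℂ) :=
  deg_sum _ _ _ _

theorem deg2 (c : ℂ) (s h : Matrix (Fin N) (Fin N) ℂ) :
    form2 c s h ∈ ⋀[ℂ]^2 (Fin N ⊕ Fin N → ℂ) :=
  Submodule.add_mem _ (Submodule.add_mem _ (Submodule.smul_mem _ _ (deg20 s))
    (Submodule.smul_mem _ _ (deg02 s))) (deg11 h)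

/-- The standard basis. -/
noncomputable def bas (N : ℕ) : Module.Basis (Fin (2 * N)) ℂ (Fin N ⊕ Fin N → ℂ) :=
  (Pi.basisFun ℂ _).reindex (finSumFinEquiv.trans (finCongr (two_mul N).symm))

/-- The endomorphism attached to a matrix. -/
noncomputable def ph (M : Matrix (Fin N ⊕ Fin N) (Fin N ⊕ Fin N) ℂ) : Ext N →ₐ[ℂ] Ext N :=
  ExteriorAlgebra.map (Matrix.toLin' Mᵀ)

theorem ph_top (M : Matrix (Fin N ⊕ Fin N) (Fin N ⊕ Fin N) ℂ) {x : Ext N}
    (hx : x ∈ ⋀[ℂ]^(2 * N) (Fin N ⊕ Fin N → ℂ)) : ph M x = M.det • x := by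
  rw [ph, top_map (bas N) _ hx, LinearMap.det_toLin', Matrix.det_transpose]

theorem ph_gen (M : Matrix (Fin N ⊕ Fin N) (Fin N ⊕ Fin N) ℂ) (j : Fin N ⊕ Fin N) :
    ph M (ι ℂ (Pi.single j 1)) =
      ∑ a, M j (Sum.inl a) • xz a + ∑ a, M j (Sum.inr a) • xb a := by
  rw [ph, map_apply_ι, Matrix.toLin'_apply, Matrix.mulVec_single_one]
  simp only [xz, xb, ← map_smul, ← map_sum, ← map_add]
  congr 1
  ext l
  cases l <;> simp [Finset.sum_apply, Pi.single_apply]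

theorem ph_blocks (P Q R S : Matrix (Fin N) (Fin N) ℂ) (a : Fin N) :
    ph (Matrix.fromBlocks P Q R S) (xz a) = ∑ b, P a b • xz b + ∑ b, Q a b • xb b ∧
      ph (Matrix.fromBlocks P Q R S) (xb a) = ∑ b, R a b • xz b + ∑ b, S a b • xb b :=
  ⟨ph_gen _ _, ph_gen _ _⟩

/-- The scaling that separates types. -/
theorem exists_scale (N : ℕ) {l : ℂ} (hl : l ≠ 0) : ∃ φ : Ext N →ₐ[ℂ] Ext N,
    (∀ x ∈ ⋀[ℂ]^(2 * N) (Fin N ⊕ Fin N → ℂ), φ x = x) ∧ (∀ s, φ (form20 s) = l ^ 2 • form20 s) ∧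
      (∀ s, φ (form02 s) = l⁻¹ ^ 2 • form02 s) ∧ ∀ h, φ (form11 h) = form11 h := by
  have hb := ph_blocks (N := N) (l • 1) 0 0 (l⁻¹ • 1)
  have h1 : ∀ a, ph (Matrix.fromBlocks (l • 1) 0 0 (l⁻¹ • 1)) (xz a) = l • xz (N := N) a :=
    fun a => by simpa [Matrix.one_apply] using (hb a).1
  have h2 : ∀ a, ph (Matrix.fromBlocks (l • 1) 0 0 (l⁻¹ • 1)) (xb a) = l⁻¹ • xb (N := N) a :=
    fun a => by simpa [Matrix.one_apply] using (hb a).2
  refine ⟨ph (Matrix.fromBlocks (l • 1) 0 0 (l⁻¹ • 1)), fun x hx => ?_, fun s => ?_, fun s => ?_,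
    fun h => ?_⟩
  · rw [ph_top _ hx, Matrix.det_fromBlocks_zero₂₁, Matrix.det_smul, Matrix.det_smul,
      Matrix.det_one, mul_one, mul_one, ← mul_pow, mul_inv_cancel₀ hl, one_pow, one_smul]
  · simp only [form20, map_smul, map_sum, map_mul, h1, smul_mul_smul_comm, Finset.smul_sum,
      smul_smul]
    exact Finset.sum_congr rfl fun a _ => Finset.sum_congr rfl fun b _ => by congr 1; ring
  · simp only [form02, map_smul, map_sum, map_mul, h2, smul_mul_smul_comm, Finset.smul_sum,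
      smul_smul]
    exact Finset.sum_congr rfl fun a _ => Finset.sum_congr rfl fun b _ => by congr 1; ring
  · simp only [form11, map_smul, map_sum, map_mul, h1, h2, smul_mul_smul_comm,
      mul_inv_cancel₀ hl, one_smul]

theorem type_zero {j k l : ℕ} (hN : j + k + l = N) (hkl : k ≠ l) :
    form11 h ^ j * form20 s ^ k * form02 t ^ l = 0 := by
  obtain ⟨φ, h0, h1, h2, h3⟩ := exists_scale N (l := 2) two_ne_zero
  have hx := h0 _ (by
    have := deg_mul (deg_mul (deg_pow (deg11 h) j) (deg_pow (deg20 s) k)) (deg_pow (deg02 t) l)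
    rwa [← mul_add, ← mul_add, hN] at this)
  rw [map_mul, map_mul, map_pow, map_pow, map_pow, h1, h2, h3, smul_pow, smul_pow, mul_smul_comm,
    mul_smul_comm, smul_mul_assoc, smul_smul, mul_comm (_ ^ l), ← sub_eq_zero] at hx
  nth_rewrite 2 [← one_smul ℂ (form11 h ^ j * form20 s ^ k * form02 t ^ l)] at hx
  rw [← sub_smul] at hx
  refine (smul_eq_zero.1 hx).resolve_left fun h4 => hkl ?_
  rw [sub_eq_zero, inv_pow, inv_pow,
    mul_inv_eq_one₀ (pow_ne_zero _ (pow_ne_zero _ two_ne_zero))] at h4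
  have h5 : (4 : ℕ) ^ k = 4 ^ l := by
    have : ((4 ^ k : ℕ) : ℂ) = (4 ^ l : ℕ) := by
      push_cast
      norm_num at h4
      exact h4
    exact_mod_cast this
  exact Nat.pow_right_injective (by norm_num) h5

theorem mixed_pow {j m : ℕ} (hN : j + 2 * m = N) (a b : ℂ) :
    form11 h ^ j * (a • form20 s + b • form02 t) ^ (2 * m) =
      (((2 * m).choose m : ℕ) * (a * b) ^ m : ℂ) • (form11 h ^ j * form20 s ^ m * form02 t ^ m) := by
  rw [((two_comm (deg20 s) (form02 t)).smul_left a).smul_right b |>.add_pow, Finset.mul_sum,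
    Finset.sum_eq_single m]
  · rw [show 2 * m - m = m by omega, smul_pow, smul_pow, smul_mul_smul_comm, ← nsmul_eq_mul',
      ← Nat.cast_smul_eq_nsmul ℂ, smul_smul, mul_smul_comm, mul_pow, mul_assoc]
  · intro k hk hkm
    have hk' := Finset.mem_range.1 hk
    rw [smul_pow, smul_pow, smul_mul_smul_comm, smul_mul_assoc, mul_smul_comm, ← mul_assoc,
      ← mul_assoc, type_zero (by omega) (by omega), zero_mul, smul_zero]
  · intro hm
    exact absurd (Finset.mem_range.2 (by omega)) hm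

end Pool.Agent.HS
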