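import Pool.Agent.P.MP_63735c_ag.HXDc
import Pool.Agent.P.MP_63735c_ag.HSExt1
import Pool.Agent.P.MP_63735c_ag.CKBase

/-! Differential forms with values in the exterior algebra, connections, cohomology ring. -/

open scoped ComplexOrder ContDiff Matrix Topology
open Set MeasureTheory Filter

namespace Pool.Agent.BF

open Pool.Agent.SPF Pool.Agent.AB Pool.Agent.HX Pool.Agent.CK Pool.Agent.HS
open Pool.Agent.CL (Form1 Form2 Closed2 IsPrim)

variable {N : ℕ}

/-- The left regular representation in coordinates. -/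
noncomputable def emb (N : ℕ) :
    Ext N →ₐ[ℂ] ((Finset (Fin (2 * N)) → ℂ) →L[ℂ] (Finset (Fin (2 * N)) → ℂ)) :=
  (Module.End.toContinuousLinearMap _).toAlgHom.comp
    (((bas N).ExteriorAlgebra.equivFun.conjAlgEquiv ℂ).toAlgHom.comp (Algebra.lmul ℂ _))

theorem emb_inj (N : ℕ) : Function.Injective (emb N) :=
  (Module.End.toContinuousLinearMap _).injective.comp
    (((bas N).ExteriorAlgebra.equivFun.conjAlgEquiv ℂ).injective.comp Algebra.lmul_injective)

noncomputable scoped instance (priority := 100) extRing : NormedRing (Ext N) :=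
  NormedRing.induced _ _ (emb N) (emb_inj N)

noncomputable scoped instance (priority := 100) extAlg : NormedAlgebra ℂ (Ext N) :=
  NormedAlgebra.induced ℂ _ _ (emb N)

noncomputable scoped instance extAlgR : NormedAlgebra ℝ (Ext N) :=
  NormedAlgebra.induced ℝ _ _ ((emb N).restrictScalars ℝ)

scoped instance extFin : FiniteDimensional ℂ (Ext N) :=
  Module.Finite.of_basis (bas N).ExteriorAlgebra

scoped instance extFinR : FiniteDimensional ℝ (Ext N) := Module.Finite.trans ℂ _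

/-- Real bilinear forms. -/
abbrev Bil (N : ℕ) := E N →L[ℝ] E N →L[ℝ] ℝ

/-- The real basis of `ℂ^N`. -/
noncomputable def rb : Fin N ⊕ Fin N → E N :=
  Sum.elim (fun a => Pi.single a 1) fun a => Pi.single a Complex.I

/-- The dual basis. -/
noncomputable def gx : Fin N ⊕ Fin N → Ext N :=
  Sum.elim (fun a => (1 / 2 : ℂ) • (xz a + xb a)) fun a => (-Complex.I / 2) • (xz a - xb a)

/-- A real covector as a form. -/
noncomputable def e1 (ξ : E N →L[ℝ] ℝ) : Ext N := ∑ k, (ξ (rb k) : ℂ) • gx k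

/-- A real bilinear map as a form. -/
noncomputable def f2 (B : Bil N) : Ext N :=
  (1 / 2 : ℂ) • ∑ k, ∑ l, (B (rb k) (rb l) : ℂ) • (gx k * gx l)

/-- The exterior derivative. -/
noncomputable def d (f : E N → Ext N) (z : E N) : Ext N := ∑ k, gx k * fderiv ℝ f z (rb k)

/-- The exterior derivative of a real 1-form as a bilinear map. -/
noncomputable def dd (α : Form1 (E N)) : Form2 (E N) := fun z =>
  fderiv ℝ α z - (fderiv ℝ α z).flip

/-- The top coefficient. -/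
noncomputable def T : Ext N →ₗ[ℂ] ℂ :=
  ExteriorAlgebra.liftAlternating (Pi.single (2 * N) (bas N).det)

/-- The matrix of a real linear map on `dz`, `dzbar`. -/
noncomputable def wm (J : E N →L[ℝ] E N) : Matrix (Fin N ⊕ Fin N) (Fin N ⊕ Fin N) ℂ :=
  Matrix.fromBlocks
    (Matrix.of fun a b => (J (Pi.single b 1) a - Complex.I * J (Pi.single b Complex.I) a) / 2)
    (Matrix.of fun a b => (J (Pi.single b 1) a + Complex.I * J (Pi.single b Complex.I) a) / 2)
    (Matrix.of fun a b => star ((J (Pi.single b 1) a + Complex.I * J (Pi.single b Complex.I) a) / 2))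
    (Matrix.of fun a b => star ((J (Pi.single b 1) a - Complex.I * J (Pi.single b Complex.I) a) / 2))

/-- The pull-back by a real linear map. -/
noncomputable def pull (J : E N →L[ℝ] E N) : Ext N →ₐ[ℂ] Ext N := ph (wm J)

/-- The part of type (2,0). -/
noncomputable def p20 (B : Bil N) : Mat N := Matrix.of fun a b =>
  ((B (Pi.single a 1) (Pi.single b 1) - B (Pi.single a Complex.I) (Pi.single b Complex.I) : ℝ) -
    Complex.I * (B (Pi.single a Complex.I) (Pi.single b 1) +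
      B (Pi.single a 1) (Pi.single b Complex.I) : ℝ)) / 2

/-- The part of type (1,1). -/
noncomputable def p11 (B : Bil N) : Mat N := Matrix.of fun a b =>
  ((B (Pi.single a 1) (Pi.single b Complex.I) - B (Pi.single a Complex.I) (Pi.single b 1) : ℝ) -
    Complex.I * (B (Pi.single a 1) (Pi.single b 1) +
      B (Pi.single a Complex.I) (Pi.single b Complex.I) : ℝ)) / 4

/-- The real 1-form `Re (c β)`. -/
noncomputable def r10 (c : ℂ) (β : E N → E N) : Form1 (E N) := fun z => CL.rdot c (β z)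

/-- The holomorphic exterior derivative of a (1,0)-form. -/
noncomputable def del (β : E N → E N) (z : E N) : Mat N :=
  Matrix.of fun a b => dz a (fun w => β w b) z - dz b (fun w => β w a) z

variable {Y : Type} [TopologicalSpace Y]

/-- A global smooth form. -/
structure GF (D : Man Y N) (Θ : D.ι → E N → Ext N) : Prop where
  smooth : ∀ i, ContDiffOn ℝ ∞ (Θ i) (D.W i)
  cpt : ∀ i j, ∀ z ∈ D.W i, ∀ φ, D.Ch i j z φ → Θ i z = pull (fderiv ℝ φ z) (Θ j (φ z))

/-- A smooth real 1-form on the open part `U`. -/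
structure G1 (D : Man Y N) (U : Set Y) (α : D.ι → Form1 (E N)) : Prop where
  smooth : ∀ i, ContDiffOn ℝ ∞ (α i) (D.W i ∩ D.p i ⁻¹' U)
  cpt : ∀ i j, ∀ z ∈ D.W i, D.p i z ∈ U → ∀ φ, D.Ch i j z φ → ∀ u,
    α i z u = α j (φ z) (fderiv ℝ φ z u)

/-- A global closed real 2-form. -/
structure G2 (D : Man Y N) (β : D.ι → Form2 (E N)) : Prop where
  closed : ∀ i, Closed2 (D.W i) (β i)
  cpt : ∀ i j, ∀ z ∈ D.W i, ∀ φ, D.Ch i j z φ → ∀ u v,
    β i z u v = β j (φ z) (fderiv ℝ φ z u) (fderiv ℝ φ z v)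

/-- A smooth form of type (1,0). -/
structure H1 (D : Man Y N) (β : D.ι → E N → E N) : Prop where
  smooth : ∀ i, ContDiffOn ℝ ∞ (β i) (D.W i)
  cpt : ∀ i j, ∀ z ∈ D.W i, ∀ φ, D.Ch i j z φ → β i z = β j (φ z) ᵥ* jac φ z

/-- A smooth form of type (2,0), closed for the holomorphic derivative. -/
structure H2 (D : Man Y N) (γ : D.ι → E N → Mat N) : Prop where
  smooth : ∀ i a b, ContDiffOn ℝ ∞ (fun z => γ i z a b) (D.W i)
  skew : ∀ i, ∀ z ∈ D.W i, (γ i z)ᵀ = -γ i z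
  cpt : ∀ i j, ∀ z ∈ D.W i, ∀ φ, D.Ch i j z φ → γ i z = (jac φ z)ᵀ * γ j (φ z) * jac φ z
  closed : ∀ i, ∀ z ∈ D.W i, ∀ a b c, dz a (fun w => γ i w b c) z +
    dz b (fun w => γ i w c a) z + dz c (fun w => γ i w a b) z = 0

/-- The subspace of closed real 2-forms. -/
def ZS (D : Man Y N) : Submodule ℝ (D.ι → Form2 (E N)) where
  carrier := {β | G2 D β}
  zero_mem' := ⟨fun _ => ⟨contDiffOn_const, by simp, by simp⟩, by simp⟩
  add_mem' := fun {a b} ha hb => ⟨fun i => ⟨(ha.1 i).1.add (hb.1 i).1, fun x hx u v => by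
      simp only [Pi.add_apply, add_apply, (ha.1 i).2.1 x hx u v, (hb.1 i).2.1 x hx u v]
      ring, fun x hx u v w => by
      have h1 := (ha.1 i).2.2 x hx u v w
      have h2 := (hb.1 i).2.2 x hx u v w
      have n := (D.isOpen i).mem_nhds hx
      rw [Pi.add_apply, fderiv_add (((ha.1 i).1.contDiffAt n).differentiableAt (by simp))
        (((hb.1 i).1.contDiffAt n).differentiableAt (by simp))]
      simp only [add_apply]
      linarith⟩, fun i j z hz φ h u v => by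
    simp only [Pi.add_apply, add_apply, ha.2 i j z hz φ h u v, hb.2 i j z hz φ h u v]⟩
  smul_mem' := fun r {a} ha => ⟨fun i => ⟨(ha.1 i).1.const_smul r, fun x hx u v => by
      simp only [Pi.smul_apply, smul_apply, (ha.1 i).2.1 x hx u v, smul_neg], fun x hx u v w => by
      have h1 := (ha.1 i).2.2 x hx u v w
      rw [Pi.smul_apply, fderiv_const_smul
        (((ha.1 i).1.contDiffAt ((D.isOpen i).mem_nhds hx)).differentiableAt (by simp))]
      simp only [smul_apply, smul_eq_mul]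
      linear_combination r * h1⟩, fun i j z hz φ h u v => by
    simp only [Pi.smul_apply, smul_apply, ha.2 i j z hz φ h u v]⟩

/-- The space of closed real 2-forms. -/
def Z2 (D : Man Y N) : Type := ZS D

noncomputable instance zGrp {D : Man Y N} : AddCommGroup (Z2 D) :=
  Submodule.addCommGroup (R := ℝ) (M := D.ι → Form2 (E N)) _

noncomputable instance zMod {D : Man Y N} : Module ℝ (Z2 D) := Submodule.module (ZS D)

/-- The value of a closed form. -/
noncomputable def Z2.ev {D : Man Y N} (i : D.ι) (z u v : E N) : Z2 D →ₗ[ℝ] ℝ :=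
  ⟨⟨fun β => β.1 i z u v, fun _ _ => rfl⟩, fun _ _ => rfl⟩

theorem Z2.ev_apply {D : Man Y N} (i : D.ι) (z u v : E N) (β : Z2 D) :
    Z2.ev i z u v β = β.1 i z u v := rfl

theorem Z2.g2 {D : Man Y N} (β : Z2 D) : G2 D β.1 := β.2

/-- A circle bundle with a connection of curvature `β`. -/
structure Conn (D : Man Y N) (β : D.ι → Form2 (E N)) where
  κ : Type
  U : κ → Set Y
  g : κ → κ → Y → ℂ
  α : κ → D.ι → Form1 (E N)
  isOpen : ∀ a, IsOpen (U a)
  cover : ∀ x, ∃ a, x ∈ U a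
  norm : ∀ a b x, x ∈ U a → x ∈ U b → ‖g a b x‖ = 1
  mul : ∀ a b c x, x ∈ U a → x ∈ U b → x ∈ U c → g b c x * g a b x = g a c x
  form : ∀ a, G1 D (U a) (α a)
  curv : ∀ a i, ∀ z ∈ D.W i, D.p i z ∈ U a → ∀ u v, dform (α a i) z u v = β i z u v
  smooth : ∀ a b i, ∀ z ∈ D.W i, D.p i z ∈ U a → D.p i z ∈ U b →
    ContDiffAt ℝ ∞ (fun w => g a b (D.p i w)) z
  gauge : ∀ a b i, ∀ z ∈ D.W i, D.p i z ∈ U a → D.p i z ∈ U b → ∀ u,
    fderiv ℝ (fun w => g a b (D.p i w)) z u =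
      2 * Real.pi * Complex.I * (α b i z u - α a i z u : ℝ) * g a b (D.p i z)

variable [MeasurableSpace Y]

/-- The integral of a form. -/
noncomputable def Int (B : Base Y N) (Θ : B.ι → E N → Ext N) : ℂ :=
  ∫ x, glob B.toMan (fun i z => T (Θ i z) / wt (B.Ψ i) z) x ∂B.μ

/-- The ring generated by the classes of closed 2-forms, with the integral. -/
structure Coh (B : Base Y N) where
  H : Type
  [ring : CommRing H]
  [alg : Algebra ℂ H]
  I : H →ₗ[ℂ] ℂ
  rep : H → (B.ι → E N → Ext N) → Prop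
  cl : Z2 B.toMan →ₗ[ℝ] H
  rep_cl : ∀ β, rep (cl β) fun i z => f2 (β.1 i z)
  rep_one : rep 1 1
  rep_add : ∀ {x y Θ Ξ}, rep x Θ → rep y Ξ → rep (x + y) (Θ + Ξ)
  rep_mul : ∀ {x y Θ Ξ}, rep x Θ → rep y Ξ → rep (x * y) (Θ * Ξ)
  rep_smul : ∀ (c : ℂ) {x Θ}, rep x Θ → rep (c • x) (c • Θ)
  gf : ∀ {x Θ}, rep x Θ → GF B.toMan Θ
  int : ∀ {x Θ}, rep x Θ → I x = Int B Θ
  ex : ∀ (β : Z2 B.toMan) ζ, G1 B.toMan univ ζ →
    (∀ i, ∀ z ∈ B.W i, ∀ u v, β.1 i z u v = dform (ζ i) z u v) → cl β = 0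

attribute [instance] Coh.ring Coh.alg

/-- A compact Kähler manifold with a holomorphic 2-form that is symplectic on a dense part. -/
structure Sy (Y : Type) [TopologicalSpace Y] [MeasurableSpace Y] (n : ℕ) extends
    Base Y (2 * n) where
  σ : ι → E (2 * n) → Mat (2 * n)
  η : ι → E (2 * n) → Mat (2 * n)
  K : ι → E (2 * n) → Mat (2 * n)
  om : ι → E (2 * n) → Mat (2 * n)
  γ₁ : ι → E (2 * n) → Mat (2 * n)
  γ₂ : ι → E (2 * n) → Mat (2 * n)
  O : ι → Set (E (2 * n))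
  n_pos : 1 ≤ n
  σ_h2 : H2 toMan σ
  σ_hol : ∀ i a b, DifferentiableOn ℂ (fun z => σ i z a b) (W i)
  η_frm : Frm toMan η
  K_frm : Frm toMan K
  om_kf : Kf toMan om
  γ₁_h2 : H2 toMan γ₁
  γ₂_h2 : H2 toMan γ₂
  η_psd : ∀ i, ∀ z ∈ W i, (η i z).PosSemidef
  K_psd : ∀ i, ∀ z ∈ W i, (K i z).PosSemidef
  sub : ∀ i, O i ⊆ W i
  dense : ∀ i, W i ⊆ closure (O i)
  σ_det : ∀ i, ∀ z ∈ O i, (σ i z).det ≠ 0
  K_pos : ∀ i, ∀ z ∈ O i, (K i z).PosDef
  iso : ∀ i, ∀ z ∈ O i, (η i z)ᵀ * (σ i z)⁻¹ * η i z = 0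
  γ₁_eq : ∀ i, ∀ z ∈ O i, γ₁ i z = η i z * (σ i z)⁻¹.map star * (K i z)ᵀ +
    K i z * (σ i z)⁻¹.map star * (η i z)ᵀ
  γ₂_eq : ∀ i, ∀ z ∈ O i, γ₂ i z = K i z * (σ i z)⁻¹.map star * (K i z)ᵀ
  η_ne : ∃ i, ∃ z ∈ O i, η i z ≠ 0
  hodge : ∀ γ, H2 toMan γ → ∃ (c : ℂ) (β : ι → E (2 * n) → E (2 * n)), H1 toMan β ∧
    ∀ i, ∀ z ∈ W i, γ i z = c • σ i z + del (β i) z
  conn : Nonempty (Conn toMan fun i z => (1 / (2 * Real.pi)) • e11 (η i z))

end Pool.Agent.BF
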