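import Pool.Agent.P.MP_63735c_ag.BF0

/-! Rational subspaces, star refinements. -/

open scoped ComplexOrder ContDiff Matrix Topology
open Set Metric MeasureTheory Filter

namespace Pool.Agent.BF

open Pool.Agent.SPF Pool.Agent.AB Pool.Agent.HX Pool.Agent.CK Pool.Agent.HS
open Pool.Agent.CL (Form1 Form2 Closed2 IsPrim)

theorem ker_int {ι κ : Type} [Fintype ι] (A : κ → ι → ℤ) (r : ι → ℝ)
    (h : ∀ k, ∑ j, (A k j : ℝ) * r j = 0) : ∃ (m : ℕ) (v : Fin m → ι → ℤ) (t : Fin m → ℝ),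
      (∀ l k, ∑ j, A k j * v l j = 0) ∧ ∀ j, r j = ∑ l, t l * v l j := by
  classical
  let V := Submodule.span ℚ (range r)
  have : Module.Finite ℚ V := Module.Finite.span_of_finite ℚ (finite_range r)
  let b := Module.finBasis ℚ V
  let x : ι → V := fun j => ⟨r j, Submodule.subset_span ⟨j, rfl⟩⟩
  obtain ⟨d, hd⟩ := IsLocalization.exist_integer_multiples_of_finite (nonZeroDivisors ℤ)
    (fun p : Fin (Module.finrank ℚ V) × ι => b.repr (x p.2) p.1)
  choose v hv using hd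
  have hd0 : ((d : ℤ) : ℚ) ≠ 0 := by exact_mod_cast nonZeroDivisors.coe_ne_zero d
  have hv' : ∀ l j, (v (l, j) : ℚ) = (d : ℤ) * b.repr (x j) l := fun l j => by
    simpa using hv (l, j)
  refine ⟨_, fun l j => v (l, j), fun l => (b l : ℝ) / (d : ℤ), fun l k => ?_, fun j => ?_⟩
  · have h0 : ∑ j, (A k j : ℚ) • x j = 0 := Subtype.ext (by simpa [x, Rat.smul_def] using h k)
    have h1 := congrArg (fun y => b.repr y l) h0
    simp only [map_sum, map_smul, Finsupp.finsetSum_apply, Finsupp.smul_apply, smul_eq_mul,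
      map_zero, Finsupp.zero_apply] at h1
    have h2 : ((∑ j, A k j * v (l, j) : ℤ) : ℚ) = (d : ℤ) * ∑ j, (A k j : ℚ) * b.repr (x j) l := by
      push_cast
      rw [Finset.mul_sum]
      exact Finset.sum_congr rfl fun j _ => by rw [hv']; ring
    rw [h1, mul_zero] at h2
    exact_mod_cast h2
  · have h1 := congrArg (Subtype.val : V → ℝ) (b.sum_repr (x j))
    simp only [AddSubmonoidClass.coe_finsetSum, SetLike.val_smul, x] at h1
    rw [← h1]
    refine Finset.sum_congr rfl fun l _ => ?_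
    have h2 : ((v (l, j) : ℚ) : ℝ) = (((d : ℤ) * b.repr (x j) l : ℚ) : ℝ) := by rw [hv']
    have h3 : ((d : ℤ) : ℝ) ≠ 0 := by exact_mod_cast hd0
    push_cast at h2
    rw [h2, Rat.smul_def]
    field_simp
    exact mul_comm _ _

theorem star_ref {Y κ : Type} [TopologicalSpace Y] [CompactSpace Y] [T2Space Y] {V : κ → Set Y}
    (hV : ∀ a, IsOpen (V a)) (hc : ∀ x, ∃ a, x ∈ V a) {P : Set Y → Prop}
    (hP : ∀ x O, IsOpen O → x ∈ O → ∃ U, P U ∧ IsOpen U ∧ x ∈ U ∧ U ⊆ O) :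
    ∃ (m : ℕ) (U : Fin m → Set Y) (a : Fin m → κ), (∀ i, P (U i) ∧ IsOpen (U i)) ∧
      (∀ x, ∃ i, x ∈ U i) ∧ ∀ i j, (U i ∩ U j).Nonempty → U j ⊆ V (a i) := by
  letI := uniformSpaceOfCompactR1 (γ := Y)
  obtain ⟨n, hn, ha⟩ := lebesgue_number_lemma isCompact_univ hV fun x _ => mem_iUnion.2 (hc x)
  obtain ⟨W, hW, hs, h3⟩ := comp_comp_symm_mem_uniformity_sets hn
  choose a ha using fun x => ha x (mem_univ x)
  choose U h1 h2 h4 h5 using fun x => hP x (interior (UniformSpace.ball x W)) isOpen_interior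
    (mem_interior_iff_mem_nhds.2 (UniformSpace.ball_mem_nhds x hW))
  obtain ⟨t, ht⟩ := isCompact_univ.elim_finite_subcover U h2 fun x _ => mem_iUnion.2 ⟨x, h4 x⟩
  refine ⟨_, fun i => U (t.equivFin.symm i), fun i => a (t.equivFin.symm i),
    fun i => ⟨h1 _, h2 _⟩, fun x => ?_, fun i j ⟨z, hi, hj⟩ w hw => ha _ (h3 ?_)⟩
  · obtain ⟨y, hy, hx⟩ := mem_iUnion₂.1 (ht (mem_univ x))
    exact ⟨t.equivFin ⟨y, hy⟩, by simpa using hx⟩
  · have k : ∀ x y, y ∈ U x → (x, y) ∈ W := fun x y h =>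
      interior_subset (s := UniformSpace.ball x W) (h5 x h)
    exact ⟨_, ⟨z, k _ _ hi, hs.symm _ _ (k _ _ hj)⟩, k _ _ hw⟩

variable {M H : Type} [AddCommGroup M] [Module ℝ M] [CommRing H] [Algebra ℝ H]

/-- `x` is orthogonal to all products of `e` with `k` classes. -/
def Perp (cl : M →ₗ[ℝ] H) (J : H →ₗ[ℝ] ℝ) (e : H) (k : ℕ) (x : M) : Prop :=
  ∀ L : List M, L.length = k → J (e * (cl x * (L.map cl).prod)) = 0

lemma bf10_ext (cl : M →ₗ[ℝ] H) (J : H →ₗ[ℝ] ℝ) {Λ : Set M} (hΛ : Submodule.span ℝ Λ = ⊤)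
    (L : List M) : ∀ y : H, (∀ K : List M, K.length = L.length → (∀ a ∈ K, a ∈ Λ) →
      J (y * (K.map cl).prod) = 0) → J (y * (L.map cl).prod) = 0 := by
  induction L with
  | nil => exact fun y h => h [] rfl (by simp)
  | cons a L ih =>
    intro y h
    have := LinearMap.ext_on (f := J ∘ₗ LinearMap.mulLeft ℝ (y * (L.map cl).prod) ∘ₗ cl) (g := 0)
      hΛ fun x hx => by
        have h1 := ih (y * cl x) fun K hK hm => by
          simpa [mul_assoc] using h (x :: K) (by simp [hK]) (by simpa using ⟨hx, hm⟩)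
        simpa [mul_assoc, mul_comm (cl x)] using h1
    simpa [mul_assoc, mul_comm (cl a)] using LinearMap.congr_fun this a

theorem rat (cl : M →ₗ[ℝ] H) (J : H →ₗ[ℝ] ℝ) (e : H) (k : ℕ) (Λ : AddSubgroup M)
    (hΛ : Submodule.span ℝ (Λ : Set M) = ⊤) {c : ℝ}
    (hc : ∀ x ∈ Λ, ∀ L : List M, L.length = k → (∀ y ∈ L, y ∈ Λ) →
      ∃ z : ℤ, J (e * (cl x * (L.map cl).prod)) = z * c) {s₁ s₂ : M}
    (h1 : Perp cl J e k s₁) (h2 : Perp cl J e k s₂) :
    ∃ (m : ℕ) (v : Fin m → M) (t₁ t₂ : Fin m → ℝ), (∀ l, v l ∈ Λ ∧ Perp cl J e k (v l)) ∧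
      s₁ = ∑ l, t₁ l • v l ∧ s₂ = ∑ l, t₂ l • v l := by
  classical
  obtain ⟨T1, a1, b1⟩ := Submodule.mem_span_finite_of_mem_span (hΛ ▸ Submodule.mem_top (x := s₁))
  obtain ⟨T2, a2, b2⟩ := Submodule.mem_span_finite_of_mem_span (hΛ ▸ Submodule.mem_top (x := s₂))
  have hT : ∀ j : ↥(T1 ∪ T2), j.1 ∈ Λ := fun j => (Finset.mem_union.1 j.2).elim (@a1 _) (@a2 _)
  choose z hz using fun (L : {L : List M // L.length = k ∧ ∀ y ∈ L, y ∈ Λ}) (j : ↥(T1 ∪ T2)) =>
    hc j.1 (hT j) L.1 L.2.1 L.2.2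
  have ev : ∀ L (r : ↥(T1 ∪ T2) → ℝ), J (e * (cl (∑ j, r j • j.1) * (List.map cl L.1).prod)) =
      (∑ j, (z L j : ℝ) * r j) * c := fun L r => by
    simp only [map_sum, map_smul, Finset.sum_mul, Finset.mul_sum, smul_mul_assoc, mul_smul_comm,
      hz, smul_eq_mul]
    exact Finset.sum_congr rfl fun j _ => by ring
  have key : ∀ s ∈ Submodule.span ℝ ((T1 ∪ T2 : Finset M) : Set M), Perp cl J e k s →
      ∃ (m : ℕ) (v : Fin m → M) (t : Fin m → ℝ), (∀ l, v l ∈ Λ ∧ Perp cl J e k (v l)) ∧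
        s = ∑ l, t l • v l := by
    intro s hs hp
    rw [← Subtype.range_coe (s := ((T1 ∪ T2 : Finset M) : Set M))] at hs
    obtain ⟨r, rfl⟩ := (Submodule.mem_span_range_iff_exists_fun ℝ).1 hs
    obtain ⟨m, v, t, hv, ht⟩ := ker_int (fun L j => if c = 0 then 0 else z L j) r fun L => by
      split_ifs with h0
      · simp
      · exact (mul_eq_zero.1 ((ev L r).symm.trans (hp _ L.2.1))).resolve_right h0
    refine ⟨m, fun l => ∑ j, (v l j : ℝ) • j.1, t, fun l => ⟨?_, fun L hL => ?_⟩, ?_⟩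
    · exact sum_mem fun j _ => by rw [Int.cast_smul_eq_zsmul]; exact Λ.zsmul_mem (hT j) _
    · rw [← mul_assoc]
      refine bf10_ext cl J hΛ L _ fun K hK hm => ?_
      rw [mul_assoc, ev ⟨K, hK.trans hL, hm⟩]
      by_cases h0 : c = 0
      · simp [h0]
      · have := hv l ⟨K, hK.trans hL, hm⟩
        simp only [h0, if_false] at this
        exact mul_eq_zero_of_left (by exact_mod_cast this) _
    · simp only [ht, Finset.sum_smul, Finset.smul_sum, smul_smul]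
      exact Finset.sum_comm
  obtain ⟨m1, v1, t1, p1, q1⟩ := key s₁ (Submodule.span_mono (by simp) b1) h1
  obtain ⟨m2, v2, t2, p2, q2⟩ := key s₂ (Submodule.span_mono (by simp) b2) h2
  refine ⟨m1 + m2, Fin.append v1 v2, Fin.append t1 0, Fin.append 0 t2, fun l => ?_, ?_, ?_⟩
  · refine Fin.addCases (fun i => ?_) (fun i => ?_) l
    · simpa using p1 i
    · simpa using p2 i
  · simpa [Fin.sum_univ_add] using q1
  · simpa [Fin.sum_univ_add] using q2

end Pool.Agent.BF
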