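import Pool.Agent.P.MP_63735c_ag.BF0

/-! Numerical estimates. -/

open scoped ComplexOrder ContDiff Matrix Topology
open Set Metric MeasureTheory Filter

namespace Pool.Agent.BF

open Pool.Agent.SPF Pool.Agent.AB Pool.Agent.HX Pool.Agent.CK Pool.Agent.HS
open Pool.Agent.CL (Form1 Form2 Closed2 IsPrim)

variable {H : Type} [CommRing H] [Algebra ℝ H]

theorem low_num {n : ℕ} (hn : 1 ≤ n) {P : ℝ → ℝ} {C z w : ℂ}
    (h : ∀ t : ℝ, (P t : ℂ) = C * (z * t + w * t ^ 2) ^ n) (h0 : ∀ t, 0 < t → 0 < P t)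
    (h2 : P 2 < 2 ^ (2 * n) * P 1) : ∃ c > (0 : ℝ), ∀ t, 0 < t → t ≤ 1 → c * t ^ n ≤ P t := by
  have e : ∀ t : ℝ, 0 < t → P t = ‖C * (z + w * t) ^ n‖ * t ^ n := fun t ht => by
    rw [← abs_of_pos (h0 t ht), ← Real.norm_eq_abs, ← Complex.norm_real, h,
      show z * t + w * t ^ 2 = (z + w * t) * t by ring, mul_pow, ← mul_assoc, norm_mul, norm_pow,
      Complex.norm_real, Real.norm_of_nonneg ht.le]
  have hz : z ≠ 0 := by
    rintro rfl
    refine h2.ne (Complex.ofReal_injective ?_)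
    push_cast
    rw [h, h, pow_mul, mul_left_comm, ← mul_pow]
    congr 2
    push_cast
    ring
  obtain ⟨t, ht, hm⟩ := isCompact_Icc.exists_isMinOn (nonempty_Icc.2 zero_le_one)
    (f := fun t : ℝ => ‖C * (z + w * t) ^ n‖) (by fun_prop)
  have p : ∀ t : ℝ, 0 < t → 0 < ‖C * (z + w * t) ^ n‖ := fun t ht =>
    (mul_pos_iff_of_pos_right (pow_pos ht n)).1 (e t ht ▸ h0 t ht)
  refine ⟨_, ?_, fun s hs h1 =>
    (mul_le_mul_of_nonneg_right (hm ⟨hs.le, h1⟩) (pow_pos hs n).le).trans_eq (e s hs).symm⟩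
  rcases ht.1.eq_or_lt with rfl | ht
  · simpa [hz] using left_ne_zero_of_mul (norm_pos_iff.1 (p 1 one_pos))
  · exact p t ht

theorem bf10b_exp (J : H →ₗ[ℝ] ℝ) (y w b : H) (m : ℕ) (r : ℝ) : J ((y + r • w) ^ m * b) =
    ∑ i ∈ Finset.range (m + 1), r ^ i * (m.choose i * J (y ^ (m - i) * (b * w ^ i))) := by
  rw [add_comm, add_pow, Finset.sum_mul, map_sum]
  refine Finset.sum_congr rfl fun i _ => ?_
  rw [← smul_eq_mul (r ^ i), ← smul_eq_mul (m.choose i : ℝ), ← map_smul, ← map_smul, smul_pow,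
    Nat.cast_smul_eq_nsmul, nsmul_eq_mul, smul_mul_assoc, smul_mul_assoc, smul_mul_assoc]
  congr 2
  ring

theorem bf10b_tail (c : ℕ → ℝ) (M m : ℕ) (hc : ∀ i < M, i < m → c i = 0) :
    ∃ A, ∀ s : ℝ, 0 < s → s ≤ 1 → |∑ i ∈ Finset.range M, s ^ i * c i| ≤ A * s ^ m := by
  refine ⟨∑ i ∈ Finset.range M, |c i|, fun s h0 hs => (Finset.abs_sum_le_sum_abs _ _).trans ?_⟩
  rw [Finset.sum_mul]
  refine Finset.sum_le_sum fun i hi => ?_
  by_cases h : i < m
  · simp [hc i (Finset.mem_range.1 hi) h]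
  · rw [abs_mul, abs_of_pos (pow_pos h0 i), mul_comm]
    exact mul_le_mul_of_nonneg_left (pow_le_pow_of_le_one h0.le hs (not_lt.1 h)) (abs_nonneg _)

theorem bf10b_lim {f : ℝ → ℝ} {D : ℝ} (hf : Continuous f)
    (h : ∀ s, 0 < s → s ≤ 1 → |s * f s| ≤ s * (D * s)) : f 0 = 0 := by
  have := le_of_tendsto_of_tendsto (b := 𝓝[>] 0) hf.abs.continuousWithinAt
    (show Continuous fun s : ℝ => D * s by fun_prop).continuousWithinAt (by
      filter_upwards [Ioc_mem_nhdsGT one_pos] with s hs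
      have := h s hs.1 hs.2
      rwa [abs_mul, abs_of_pos hs.1, mul_le_mul_iff_right₀ hs.1] at this)
  simpa using this

theorem bf10b_tay (c : ℕ → ℝ) (M : ℕ) {I₁ I₂ D : ℝ} (h : ∀ s : ℝ, |s| ≤ 1 →
    |∑ i ∈ Finset.range (M + 3), s ^ i * c i - (c 0 + s * I₁ + s ^ 2 / 2 * I₂)| ≤ D * |s| ^ 3) :
    I₁ = c 1 ∧ I₂ = 2 * c 2 := by
  let T : ℝ → ℝ := fun s => c 2 - I₂ / 2 + s * ∑ i ∈ Finset.range M, s ^ i * c (i + 3)
  have hT : Continuous T := by fun_prop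
  have k : ∀ s : ℝ, 0 < s → s ≤ 1 → |s * (c 1 - I₁ + s * T s)| ≤ D * s ^ 3 := fun s h0 h1 => by
    have := h s (by rwa [abs_of_pos h0])
    rw [abs_of_pos h0] at this
    refine le_of_eq_of_le (congrArg _ ?_) this
    simp only [Finset.sum_range_succ', T, mul_add, Finset.mul_sum]
    rw [Finset.sum_congr rfl (g := fun i => s ^ (i + 1 + 1 + 1) * c (i + 1 + 1 + 1)) fun i _ => by ring]
    ring
  have e1 := bf10b_lim (D := |D|) (f := fun s => c 1 - I₁ + s * T s) (by fun_prop) fun s h0 h1 =>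
    (k s h0 h1).trans (by
      nlinarith [mul_le_mul_of_nonneg_right (le_abs_self D) (pow_pos h0 3).le,
        mul_nonneg (mul_nonneg (abs_nonneg D) (sq_nonneg s)) (sub_nonneg.2 h1)])
  simp only [zero_mul, add_zero] at e1
  have e2 := bf10b_lim (D := D) hT fun s h0 h1 => by
    have := k s h0 h1
    rw [e1, zero_add, abs_mul, abs_of_pos h0] at this
    exact le_of_mul_le_mul_left (this.trans_eq (by ring)) h0
  simp only [T, zero_mul, add_zero] at e2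
  constructor <;> linarith

theorem num {n : ℕ} (hn : 1 ≤ n) (J : H →ₗ[ℝ] ℝ) (e k w a : H)
    (h1 : ∀ i j, i < n → i + j + 1 = 2 * n → J (e ^ j * (a * k ^ i)) = 0)
    (h2 : ∀ i j, i + 1 < n → i + j + 2 = 2 * n → J (e ^ j * (a * (a * k ^ i))) = 0) {c : ℝ}
    (hc : 0 < c) (h0 : ∀ t : ℝ, 0 < t → t ≤ 1 → c * t ^ n ≤ J ((e + t • k) ^ (2 * n))) :
    ∃ C : ℝ, ∀ t : ℝ, 0 < t → t ≤ 1 → ∀ᶠ r in 𝓝 (0 : ℝ), ∀ I₁ I₂ D : ℝ,
      (∀ s : ℝ, |s| ≤ 1 → |J ((e + t • k + r • w + s • a) ^ (2 * n)) -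
        (J ((e + t • k + r • w) ^ (2 * n)) + s * I₁ + s ^ 2 / 2 * I₂)| ≤ D * |s| ^ 3) →
      I₁ ^ 2 / J ((e + t • k + r • w) ^ (2 * n)) - I₂ ≤ C * t ^ (n - 1) := by
  obtain ⟨n, rfl⟩ : ∃ m, n = m + 1 := ⟨n - 1, by omega⟩
  obtain ⟨A, hA⟩ := bf10b_tail (fun i => (2 * n + 1).choose i * J (e ^ (2 * n + 1 - i) * (a * k ^ i)))
    (2 * n + 1 + 1) (n + 1) fun i _ h => by rw [h1 i _ h (by omega), mul_zero]
  obtain ⟨B, hB⟩ := bf10b_tail (fun i => (2 * n).choose i * J (e ^ (2 * n - i) * (a * a * k ^ i)))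
    (2 * n + 1) n fun i _ h => by rw [mul_assoc a, h2 i _ (by omega) (by omega), mul_zero]
  simp only [← bf10b_exp] at hA hB
  let p : ℝ := (2 * n + 2).choose 1
  let q : ℝ := (2 * n + 2).choose 2
  refine ⟨(p * A) ^ 2 / c + 2 * q * B + 1, fun t t0 t1 => ?_⟩
  have ct : ∀ m b, Continuous fun r : ℝ => J ((e + t • k + r • w) ^ m * b) := fun m b => by
    simp only [bf10b_exp]; fun_prop
  have c0 := ct (2 * (n + 1)) 1
  simp only [mul_one] at c0
  have tn := pow_pos t0 n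
  have h0 := h0 t t0 t1
  have P0 := (mul_pos hc (pow_pos t0 (n + 1))).trans_le h0
  have lt : ∀ᶠ r in 𝓝 (0 : ℝ), (p * J ((e + t • k + r • w) ^ (2 * n + 1) * a)) ^ 2 /
      J ((e + t • k + r • w) ^ (2 * (n + 1))) - 2 * (q * J ((e + t • k + r • w) ^ (2 * n) * (a * a)))
      < ((p * A) ^ 2 / c + 2 * q * B + 1) * t ^ n := by
    refine ContinuousAt.eventually_lt (((((ct _ _).const_mul p).pow 2).continuousAt.div c0.continuousAt
      (by simpa using P0.ne')).sub (((ct _ _).const_mul q).const_mul 2).continuousAt) continuousAt_const ?_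
    simp only [zero_smul, add_zero]
    have a1 := pow_le_pow_left₀ (abs_nonneg _) (hA t t0 t1) 2
    rw [sq_abs] at a1
    have a2 := mul_le_mul_of_nonneg_left (abs_le.1 (hB t t0 t1)).1 (show 0 ≤ q by positivity)
    have a3 : (p * J ((e + t • k) ^ (2 * n + 1) * a)) ^ 2 / J ((e + t • k) ^ (2 * (n + 1))) ≤
        (p * A) ^ 2 / c * t ^ n := by
      refine (div_le_div₀ (c := (p * (A * t ^ (n + 1))) ^ 2) (sq_nonneg _) ?_ (by positivity) h0).trans ?_
      · simp only [mul_pow p]; gcongr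
      · refine le_of_eq_of_le (b := (p * A) ^ 2 / c * t ^ n * t) (by field_simp; ring) ?_
        exact mul_le_of_le_one_right (by positivity) t1
    linarith
  filter_upwards [lt] with r hr I₁ I₂ D h
  obtain ⟨rfl, rfl⟩ := bf10b_tay (fun i => (2 * n + 2).choose i *
    J ((e + t • k + r • w) ^ (2 * n + 2 - i) * (1 * a ^ i))) (2 * n) (D := D) (I₁ := I₁) (I₂ := I₂)
    fun s hs => by rw [← bf10b_exp]; simpa [mul_add 2 n] using h s hs
  simpa [sq a, p, q] using hr.le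

end Pool.Agent.BF
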