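import Pool.Agent.P.MP_63735c_ag.BF7
import Pool.Agent.P.MP_63735c_ag.BF6b
import Pool.Agent.P.MP_63735c_ag.CLPrim
import Pool.Agent.P.MP_63735c_ag.SRVol

/-! Local primitives and gluing. -/

open scoped ComplexOrder ContDiff Matrix Topology
open Set Metric MeasureTheory Filter

namespace Pool.Agent.BF

open Pool.Agent.SPF Pool.Agent.AB Pool.Agent.HX Pool.Agent.CK Pool.Agent.HS
open Pool.Agent.CL (Form1 Form2 Closed2 IsPrim)

variable {N : ℕ} {Y : Type} [TopologicalSpace Y] {D : Man Y N} {U : Set Y}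

/-- The image of a ball in a chart. -/
def Ball (D : Man Y N) (U : Set Y) : Prop :=
  ∃ i z r, 0 < r ∧ ball z r ⊆ D.W i ∧ U = D.p i '' ball z r

theorem ball_basis (hc : D.M = univ) (x : Y) (O : Set Y) (hO : IsOpen O) (hx : x ∈ O) :
    ∃ U, Ball D U ∧ IsOpen U ∧ x ∈ U ∧ U ⊆ O := by
  obtain ⟨i, z, hz, rfl⟩ := Man.exists_chart (D := D) (hc ▸ mem_univ x)
  obtain ⟨r, hr, h⟩ := Metric.mem_nhds_iff.1 (inter_mem ((D.isOpen i).mem_nhds hz)
    ((Man.contAt_p hz).preimage_mem_nhds (hO.mem_nhds hx)))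
  have h1 : ball z r ⊆ D.W i := fun w hw => (h hw).1
  exact ⟨_, ⟨i, z, r, hr, h1, rfl⟩, D.opn i _ isOpen_ball h1, ⟨z, mem_ball_self hr, rfl⟩,
    image_subset_iff.2 fun w hw => (h hw).2⟩

theorem bf11_op (i : D.ι) (hU : IsOpen U) : IsOpen (D.W i ∩ D.p i ⁻¹' U) :=
  (D.cont i).isOpen_inter_preimage (D.isOpen i) hU

theorem bf11_ch {i j : D.ι} {z : E N} {B : Set (E N)} (hB : B ⊆ D.W j) (hz : z ∈ D.W i)
    (hx : D.p i z ∈ D.p j '' B) :
    D.Ch i j z (fun w => Function.invFunOn (D.p j) (D.W j) (D.p i w)) ∧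
      Function.invFunOn (D.p j) (D.W j) (D.p i z) ∈ B := by
  refine ⟨srvol_Ch hz (image_mono hB hx), ?_⟩
  obtain ⟨y, hy, e⟩ := hx
  rwa [← e, (D.inj j).leftInvOn_invFunOn (hB hy)]

theorem Ball.prim2 (hU : Ball D U) {β : D.ι → Form2 (E N)} (h : G2 D β) : ∃ α, G1 D U α ∧
    ∀ i, ∀ z ∈ D.W i, D.p i z ∈ U → ∀ u v, dform (α i) z u v = β i z u v := by
  obtain ⟨j, o, r, hr, hB, rfl⟩ := hU
  have c := h.closed j
  have p := fun i => CL.pull_prim isOpen_ball (bf11_op i (D.opn j _ isOpen_ball hB))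
    (fun z hz => (bf11_ch hB hz.1 hz.2).1.smooth.contDiffWithinAt)
    (fun z hz => (bf11_ch hB hz.1 hz.2).2)
    (CL.rad_prim isOpen_ball (convex_ball o r) ⟨c.1.mono hB, fun x hx => c.2.1 x (hB hx),
      fun x hx => c.2.2 x (hB hx)⟩ (mem_ball_self hr))
    fun z hz u v => (h.cpt i j z hz.1 _ (bf11_ch hB hz.1 hz.2).1 u v).symm
  refine ⟨_, ⟨fun i => (p i).1, fun i k z hz hx φ hφ u => ?_⟩,
    fun i z hz hx => (p i).2 z ⟨hz, hx⟩⟩
  obtain ⟨-, h1, h2⟩ := hφ.self_of_nhds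
  have h3 := (((bf11_ch hB h1 (h2 ▸ hx)).1.smooth.differentiableAt (by simp)).hasFDerivAt.comp z
    (hφ.smooth.differentiableAt (by simp)).hasFDerivAt).congr_of_eventuallyEq
    (hφ.mono fun w hw => congrArg (Function.invFunOn (D.p j) (D.W j)) hw.2.2.symm)
  simp only [CL.pull1, h2, h3.fderiv, ContinuousLinearMap.comp_apply]

theorem Ball.prim1 (hU : Ball D U) {α : D.ι → Form1 (E N)} (h : G1 D U α)
    (h0 : ∀ i, ∀ z ∈ D.W i, D.p i z ∈ U → ∀ u v, dform (α i) z u v = 0) :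
    ∃ F : Y → ℝ, ∀ i, ∀ z ∈ D.W i, D.p i z ∈ U → ContDiffAt ℝ ∞ (fun w => F (D.p i w)) z ∧
      fderiv ℝ (fun w => F (D.p i w)) z = α i z := by
  obtain ⟨j, o, r, hr, hB, rfl⟩ := hU
  have s := (h.smooth j).mono fun z hz => ⟨hB hz, mem_image_of_mem _ hz⟩
  have p := fun z (hz : z ∈ ball o r) => CL.closed1_deriv isOpen_ball (convex_ball o r)
    ⟨s, fun x hx => h0 j x (hB hx) (mem_image_of_mem _ hx)⟩ (mem_ball_self hr) hz
  have q := (contDiffOn_infty_iff_fderiv_of_isOpen isOpen_ball).2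
    ⟨fun z hz => (p z hz).differentiableAt.differentiableWithinAt,
      s.congr fun z hz => (p z hz).fderiv⟩
  refine ⟨fun x => CL.segInt (α j) o (Function.invFunOn (D.p j) (D.W j) x), fun i z hz hx => ?_⟩
  obtain ⟨h1, h2⟩ := bf11_ch hB hz hx
  exact ⟨((q.contDiffAt (isOpen_ball.mem_nhds h2)).comp z h1.smooth :),
    (((p _ h2).comp z (h1.smooth.differentiableAt (by simp)).hasFDerivAt).fderiv :).trans
      (ContinuousLinearMap.ext fun u => (h.cpt i j z hz hx _ h1 u).symm)⟩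

theorem Ball.const (hU : Ball D U) {F : Y → ℝ}
    (h : ∀ i, ∀ z ∈ D.W i, D.p i z ∈ U → HasFDerivAt (fun w => F (D.p i w))
      (0 : E N →L[ℝ] ℝ) z) : ∀ x ∈ U, ∀ y ∈ U, F x = F y := by
  obtain ⟨j, o, r, -, hB, rfl⟩ := hU
  rintro _ ⟨x, hx, rfl⟩ _ ⟨y, hy, rfl⟩
  have p := fun z (hz : z ∈ ball o r) => h j z (hB hz) (mem_image_of_mem _ hz)
  exact isOpen_ball.is_const_of_fderiv_eq_zero (convex_ball o r).isPreconnected
    (fun z hz => (p z hz).differentiableAt.differentiableWithinAt)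
    (fun z hz => (p z hz).fderiv) hx hy

variable {κ : Type} {V : κ → Set Y} {α : κ → D.ι → Form1 (E N)}

theorem glue1 (hV : ∀ a, IsOpen (V a)) (hc : ∀ x, ∃ a, x ∈ V a) (h : ∀ a, G1 D (V a) (α a))
    (e : ∀ a b i, ∀ z ∈ D.W i, D.p i z ∈ V a → D.p i z ∈ V b → α a i z = α b i z) :
    ∃ ζ, G1 D univ ζ ∧ ∀ a i, ∀ z ∈ D.W i, D.p i z ∈ V a → ζ i =ᶠ[𝓝 z] α a i := by
  choose c hc using hc
  have p : ∀ a i, ∀ z ∈ D.W i, D.p i z ∈ V a → (fun w => α (c (D.p i w)) i w) =ᶠ[𝓝 z] α a i :=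
    fun a i z hz hx => mem_of_superset ((bf11_op i (hV a)).mem_nhds ⟨hz, hx⟩)
      fun w hw => e _ a i w hw.1 (hc _) hw.2
  refine ⟨_, ⟨fun i z hz => (((h _).at (hV _) hz.1 (hc _)).congr_of_eventuallyEq
    (p _ i z hz.1 (hc _))).contDiffWithinAt, fun i j z hz _ φ hφ u => ?_⟩, p⟩
  rw [hφ.self_of_nhds.2.2]
  exact (h _).cpt i j z hz (hc _) φ hφ u

theorem glue2 (hV : ∀ a, IsOpen (V a)) (hc : ∀ x, ∃ a, x ∈ V a) (h : ∀ a, G1 D (V a) (α a))
    (e : ∀ a b i, ∀ z ∈ D.W i, D.p i z ∈ V a → D.p i z ∈ V b → ∀ u v,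
      dform (α a i) z u v = dform (α b i) z u v) :
    ∃ β, G2 D β ∧ ∀ a i, ∀ z ∈ D.W i, D.p i z ∈ V a → ∀ u v, dform (α a i) z u v = β i z u v := by
  choose c hc using hc
  have n := fun i z (hz : z ∈ D.W i) => (bf11_op i (hV _)).mem_nhds ⟨hz, hc (D.p i z)⟩
  have p : ∀ i, ∀ z ∈ D.W i, (fun w => dd (α (c (D.p i w)) i) w) =ᶠ[𝓝 z]
      dd (α (c (D.p i z)) i) := fun i z hz => mem_of_superset (n i z hz) fun w hw =>
    ContinuousLinearMap.ext fun u => ContinuousLinearMap.ext (e _ _ i w hw.1 (hc _) hw.2 u)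
  have q := fun i z => dd_closed (bf11_op i (hV (c (D.p i z)))) ((h _).smooth i)
  refine ⟨fun i w => dd (α (c (D.p i w)) i) w, ⟨fun i => ⟨fun z hz =>
    (((q i z).1.contDiffAt (n i z hz)).congr_of_eventuallyEq (p i z hz)).contDiffWithinAt,
    fun z hz => (q i z).2.1 z ⟨hz, hc _⟩, fun z hz => ?_⟩, fun i j z hz φ hφ u v => ?_⟩,
    fun a i z hz hx => e _ _ i z hz hx (hc _)⟩
  · rw [(p i z hz).fderiv_eq]
    exact (q i z).2.2 z ⟨hz, hc _⟩
  obtain ⟨-, h1, h2⟩ := hφ.self_of_nhds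
  rw [h2]
  refine dform_comp (((h _).at (hV _) h1 (h2 ▸ hc _)).differentiableAt (by simp))
    (hφ.smooth.of_le CL.clprim_two) ?_ u v
  filter_upwards [n i z hz, hφ.eventually_nhds] with w hw hw' using
    (h _).cpt i j w hw.1 hw.2 φ hw'

end Pool.Agent.BF
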