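import Pool.Agent.P.MP_63735c_ag.BF12

/-! Curvature forms span the closed forms. -/

open scoped ComplexOrder ContDiff Matrix Topology
open Set Metric MeasureTheory Filter

namespace Pool.Agent.BF

open Pool.Agent.SPF Pool.Agent.AB Pool.Agent.HX Pool.Agent.CK Pool.Agent.HS
open Pool.Agent.CL (Form1 Form2 Closed2 IsPrim)

variable {N : ℕ} {Y : Type} [TopologicalSpace Y] {D : Man Y N}

section
variable {κ : Type} {U : κ → Set Y} {β β' : D.ι → Form2 (E N)} {α α' : κ → D.ι → Form1 (E N)}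
  {F F' : κ → κ → Y → ℝ} {c c' : κ × κ × κ → ℝ}

/-- Local primitives with a constant cocycle. -/
def bf12b_C (U : κ → Set Y) (β : D.ι → Form2 (E N)) (α : κ → D.ι → Form1 (E N))
    (F : κ → κ → Y → ℝ) (c : κ × κ × κ → ℝ) : Prop := (∀ a, G1 D (U a) (α a)) ∧
  (∀ a i, ∀ z ∈ D.W i, D.p i z ∈ U a → ∀ u v, dform (α a i) z u v = β i z u v) ∧
  (∀ a b i, ∀ z ∈ D.W i, D.p i z ∈ U a → D.p i z ∈ U b →
    ContDiffAt ℝ ∞ (fun w => F a b (D.p i w)) z ∧
      fderiv ℝ (fun w => F a b (D.p i w)) z = α b i z - α a i z) ∧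
  ∀ a b e x, x ∈ U a → x ∈ U b → x ∈ U e → F a b x + F b e x - F a e x = c (a, b, e)

theorem bf12b_conn (hU : ∀ a, IsOpen (U a)) (h0 : ∀ x, ∃ a, x ∈ U a) {n : κ × κ × κ → ℤ}
    (h : bf12b_C U β α F fun j => n j) : Nonempty (Conn D β) :=
  ⟨{ κ := κ
     U := U
     g := fun a b x => Complex.exp (2 * Real.pi * Complex.I * F a b x)
     α := α
     isOpen := hU
     cover := h0
     norm := fun a b x _ _ => by simp [Complex.norm_exp]
     mul := fun a b e x ha hb he => by
       rw [← Complex.exp_add, Complex.exp_eq_exp_iff_exists_int]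
       have h1 := congrArg Complex.ofReal (h.2.2.2 a b e x ha hb he)
       push_cast at h1
       exact ⟨n (a, b, e), by linear_combination 2 * Real.pi * Complex.I * h1⟩
     form := h.1
     curv := h.2.1
     smooth := fun a b i z hz ha hb => (contDiffAt_const.mul
       (Complex.ofRealCLM.contDiff.contDiffAt.comp z (h.2.2.1 a b i z hz ha hb).1)).cexp
     gauge := fun a b i z hz ha hb u => by
       obtain ⟨h1, h2⟩ := h.2.2.1 a b i z hz ha hb
       have h3 := ((Complex.ofRealCLM.hasFDerivAt.comp z (h1.differentiableAt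
         (by simp)).hasFDerivAt).const_mul (2 * Real.pi * Complex.I)).cexp.fderiv
       rw [show fderiv ℝ (fun w => Complex.exp (2 * Real.pi * Complex.I * F a b (D.p i w))) z = _
         from h3, h2]
       exact mul_comm _ _ }⟩

theorem bf12b_sub (hU : ∀ a, IsOpen (U a)) (h : bf12b_C U β α F c) (h' : bf12b_C U β' α' F' c')
    (r : ℝ) : bf12b_C U (β - r • β') (α - r • α') (F - r • F') (c - r • c') := by
  refine ⟨fun a => (h.1 a).sub ((h'.1 a).smul (θ := fun _ => r) fun _ _ _ _ => contDiffAt_const),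
    fun a i z hz ha u v => ?_, fun a b i z hz ha hb => ?_, fun a b e x ha hb he => ?_⟩
  · have h1 := ((h'.1 a).at (hU a) hz ha).differentiableAt (by simp)
    refine (dform_add (((h.1 a).at (hU a) hz ha).differentiableAt (by simp))
      (h1.const_smul r) u v).2.trans ?_
    rw [dform_smul h1, h.2.1 a i z hz ha, h'.2.1 a i z hz ha]
    rfl
  · obtain ⟨h1, h2⟩ := h.2.2.1 a b i z hz ha hb
    obtain ⟨h3, h4⟩ := h'.2.2.1 a b i z hz ha hb
    refine ⟨h1.sub (h3.const_smul r), ((h1.differentiableAt (by simp)).hasFDerivAt.sub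
      ((h3.differentiableAt (by simp)).hasFDerivAt.const_smul r)).fderiv.trans ?_⟩
    simp only [h2, h4, Pi.sub_apply, Pi.smul_apply]
    module
  · simp only [Pi.sub_apply, Pi.smul_apply, smul_eq_mul]
    linear_combination h.2.2.2 a b e x ha hb he - r * h'.2.2.2 a b e x ha hb he

variable [CompactSpace Y] [T2Space Y]

theorem bf12b_mk (hc : D.M = univ) (hU : ∀ a, IsOpen (U a)) (h0 : ∀ x, ∃ a, x ∈ U a)
    (hn : ∀ a b e l x, x ∈ U a → x ∈ U b → x ∈ U e → x ∈ U l →
      c (a, b, l) + c (b, e, l) - c (a, e, l) = c (a, b, e)) :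
    ∃ (β : Z2 D) (α : κ → D.ι → Form1 (E N)) (F : κ → κ → Y → ℝ), bf12b_C U β.1 α F c := by
  obtain ⟨m, q, θ, K, b1, b2, b3⟩ := SE.pu_sub D hc hU h0
  have ev : ∀ {a i z}, z ∈ D.W i → D.p i z ∈ U a → ∀ᶠ w in 𝓝 z, w ∈ D.W i ∧ D.p i w ∈ U a :=
    fun {a i z} hz ha => ((D.cont i).isOpen_inter_preimage (D.isOpen i) (hU a)).mem_nhds ⟨hz, ha⟩
  let F : κ → κ → Y → ℝ := fun a b x => ∑ l, θ l x * c (a, b, q l)
  have s1 : ∀ l i, ∀ z ∈ D.W i, ContDiffAt ℝ ∞ (fun w => θ l (D.p i w)) z :=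
    fun l i z hz => (b1 l i).contDiffAt ((D.isOpen i).mem_nhds hz)
  have s2 : ∀ a b i, ∀ z ∈ D.W i, ContDiffAt ℝ ∞ (fun w => F a b (D.p i w)) z :=
    fun a b i z hz => ContDiffAt.sum fun l _ => (s1 l i z hz).mul contDiffAt_const
  have s3 := fun a b => g1_d isOpen_univ fun i z hz _ => s2 a b i z hz
  have c1 : ∀ a b e x, x ∈ U a → x ∈ U b → x ∈ U e →
      F a b x + F b e x - F a e x = c (a, b, e) := fun a b e x ha hb he => by
    rw [← one_mul (c _), ← b3 x, Finset.sum_mul, ← Finset.sum_add_distrib,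
      ← Finset.sum_sub_distrib]
    refine Finset.sum_congr rfl fun l _ => ?_
    by_cases hk : x ∈ K l
    · rw [← hn a b e _ x ha hb he ((b2 l).2.1 hk)]
      ring
    · simp [(b2 l).2.2 _ hk]
  let α : κ → D.ι → Form1 (E N) := fun b =>
    ∑ l, fun i z => θ l (D.p i z) • fderiv ℝ (fun w => F (q l) b (D.p i w)) z
  have g1 : ∀ b, G1 D univ (α b) := fun b =>
    G1.sum _ fun l _ => (s3 _ b).1.smul fun i z hz _ => s1 l i z hz
  have d1 : ∀ a b i, ∀ z ∈ D.W i, D.p i z ∈ U a → D.p i z ∈ U b →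
      fderiv ℝ (fun w => F a b (D.p i w)) z = α b i z - α a i z := fun a b i z hz ha hb => by
    have f := fun a b => ((s2 a b i z hz).differentiableAt (by simp)).hasFDerivAt
    rw [← one_smul ℝ (fderiv _ _ _), ← b3 (D.p i z), Finset.sum_smul]
    simp only [α, Finset.sum_apply, ← Finset.sum_sub_distrib]
    refine Finset.sum_congr rfl fun l _ => ?_
    by_cases hk : D.p i z ∈ K l
    · have h1 := (((f (q l) a).add (f a b)).sub (f (q l) b)).unique
        ((hasFDerivAt_const (c (q l, a, b)) z).congr_of_eventuallyEq (by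
          filter_upwards [ev hz ((b2 l).2.1 hk), ev hz ha, ev hz hb] with w h1 h2 h3
          exact c1 _ _ _ _ h1.2 h2.2 h3.2))
      rw [← sub_eq_zero.1 h1, smul_add, add_sub_cancel_left]
    · simp [(b2 l).2.2 _ hk]
  obtain ⟨β, h1, h2⟩ := glue2 hU h0 (fun a => (g1 a).mono (subset_univ _))
    fun a b i z hz ha hb u v => by
      have h1 := (dform_add (((g1 b).at isOpen_univ hz trivial).differentiableAt (by simp))
        (((g1 a).at isOpen_univ hz trivial).differentiableAt (by simp)) u v).2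
      rw [← dform_congr (a := fderiv ℝ fun w => F a b (D.p i w)) (by
        filter_upwards [ev hz ha, ev hz hb] with w h1 h2
        exact d1 a b i w h1.1 h1.2 h2.2), (s3 a b).2 i z hz trivial] at h1
      linarith
  exact ⟨⟨β, h1⟩, α, F, fun a => (g1 a).mono (subset_univ _), h2,
    fun a b i z hz ha hb => ⟨s2 a b i z hz, d1 a b i z hz ha hb⟩, c1⟩

end

variable [CompactSpace Y] [T2Space Y]

theorem span_lat (hc : D.M = univ) : Submodule.span ℝ (Lat D : Set (Z2 D)) = ⊤ := by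
  refine eq_top_iff.2 fun β _ => ?_
  obtain ⟨m, U, α, F, c, hU, h0, h⟩ := cech hc β.g2
  replace h : bf12b_C U β.1 α F fun j => c j.1 j.2.1 j.2.2 := h
  obtain ⟨k, v, t, h1, h2⟩ := ker_int (κ := {q : (Fin m × Fin m) × Fin m × Fin m //
      ∃ x, x ∈ U q.1.1 ∧ x ∈ U q.1.2 ∧ x ∈ U q.2.1 ∧ x ∈ U q.2.2})
    (fun q => Pi.single (q.1.1.1, q.1.1.2, q.1.2.2) 1 + Pi.single (q.1.1.2, q.1.2.1, q.1.2.2) 1 -
      Pi.single (q.1.1.1, q.1.2.1, q.1.2.2) 1 - Pi.single (q.1.1.1, q.1.1.2, q.1.2.1) 1)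
    (fun j : Fin m × Fin m × Fin m => c j.1 j.2.1 j.2.2) fun ⟨⟨⟨a, b⟩, e, l⟩, x, ha, hb, he, hl⟩ => by
      have f := h.2.2.2
      simp [Pi.single_apply, add_mul, sub_mul, Finset.sum_add_distrib, ← f a b l x ha hb hl,
        ← f b e l x hb he hl, ← f a e l x ha he hl, ← f a b e x ha hb he]
      ring
  rw [funext h2] at h
  choose b α' F' h3 using fun s => bf12b_mk hc hU h0 (c := fun j => v s j)
    fun a b e l x ha hb he hl => by
      have f := h1 s ⟨((a, b), e, l), x, ha, hb, he, hl⟩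
      simp [Pi.single_apply, add_mul, sub_mul, Finset.sum_add_distrib] at f
      exact_mod_cast sub_eq_zero.1 f
  clear h1 h2
  induction k generalizing β α F with
  | zero => exact Submodule.subset_span (bf12b_conn hU h0 (n := 0) (by simpa using h))
  | succ k ih =>
    rw [← sub_add_cancel β (t 0 • b 0)]
    exact add_mem (ih _ trivial _ _ (fun s => v s.succ) (fun s => t s.succ)
      (cast (congrArg _ (funext fun j => by simp [Fin.sum_univ_succ]))
        (bf12b_sub hU h (h3 0) (t 0))) _ _ _ fun s => h3 s.succ)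
      (Submodule.smul_mem _ _ (Submodule.subset_span (bf12b_conn hU h0 (h3 0))))

end Pool.Agent.BF
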