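import Pool.Agent.P.MP_63735c_ag.HSExt1

/-! Top powers of 2-forms as multiples of the volume form. -/

open scoped Matrix

namespace Pool.Agent.HS

open Pool.Agent.SPF ExteriorAlgebra

variable {N n : ℕ} {s h : Matrix (Fin N) (Fin N) ℂ}

theorem form11_smul (t : ℂ) (h : Matrix (Fin N) (Fin N) ℂ) : form11 (t • h) = t • form11 h := by
  simp only [form11, Matrix.smul_apply, smul_eq_mul, mul_smul, ← Finset.smul_sum]
  exact smul_comm _ _ _

theorem form2_zero (s h : Matrix (Fin N) (Fin N) ℂ) : form2 0 s h = form11 h := by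
  simp [form2]

theorem form11_pow (h : Matrix (Fin N) (Fin N) ℂ) :
    form11 h ^ N = h.det • form11 (1 : Matrix (Fin N) (Fin N) ℂ) ^ N := by
  have hb := ph_blocks (N := N) 1 0 0 h
  have h1 : ∀ a, ph (Matrix.fromBlocks 1 0 0 h) (xz a) = xz (N := N) a :=
    fun a => by simpa [Matrix.one_apply] using (hb a).1
  have h2 : ∀ a, ph (Matrix.fromBlocks 1 0 0 h) (xb a) = ∑ b, h a b • xb (N := N) b :=
    fun a => by simpa using (hb a).2
  have h3 : ph (Matrix.fromBlocks 1 0 0 h) (form11 1) = form11 h := by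
    simp [form11, Matrix.one_apply, h1, h2, Finset.mul_sum]
  rw [← h3, ← map_pow, ph_top _ (deg_pow (deg11 1) N), Matrix.det_fromBlocks_zero₂₁,
    Matrix.det_one, one_mul]

theorem exists_pf (hN : N = 2 * n) : ∃ Z ∈ ⋀[ℂ]^(2 * N) (Fin N ⊕ Fin N → ℂ),
    ∀ s : Matrix (Fin N) (Fin N) ℂ, ∃ p : ℂ, form20 s ^ n * form02 s ^ n = (p * star p) • Z ∧
      form20 s ^ n * form02 (s.map star) ^ n = (p * p) • Z := by
  obtain ⟨κ, k1, k2⟩ := exists_conj N
  let e := Pi.basisFun ℂ (Fin N)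
  let L := fun f : Fin N → Fin N ⊕ Fin N => e.constr ℂ fun a => (Pi.single (f a) 1 : _ → ℂ)
  let σ := fun s : Matrix (Fin N) (Fin N) ℂ => ext1Sig (fun a => ι ℂ (e a)) s
  have m : ∀ f, ExteriorAlgebra.map (L f) (ιMulti ℂ N e) ∈ ⋀[ℂ]^N (Fin N ⊕ Fin N → ℂ) := fun f => by
    rw [map_apply_ιMulti]
    exact ιMulti_range ℂ N ⟨_, rfl⟩
  have a1 : ∀ s, ExteriorAlgebra.map (L Sum.inl) (σ s) = form20 s := fun s => by
    simp only [σ, L, ext1Sig, map_smul, map_sum, map_mul, map_apply_ι, e.constr_basis, form20, xz]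
  have a2 : ∀ s, ExteriorAlgebra.map (L Sum.inr) (σ (s.map star)) = form02 s := fun s => by
    simp only [σ, L, ext1Sig, map_smul, map_sum, map_mul, map_apply_ι, e.constr_basis, form02, xb,
      Matrix.map_apply]
  have e1 : ∀ a, star (e a) = e a := fun a => by
    ext b
    simp [e, Pi.single_apply]
  have a3 : ∀ s, κ (σ s) = σ (s.map star) := fun s => by
    simp only [σ, ext1Sig, k1, map_sum, map_mul, k2, e1, Matrix.map_apply]
    simp
  have a4 : κ (ιMulti ℂ N e) = ιMulti ℂ N e := by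
    rw [ιMulti_apply, map_list_prod, List.map_ofFn]
    exact congrArg (fun f => (List.ofFn f).prod) (funext fun a => (k2 _).trans (by rw [e1]))
  refine ⟨ExteriorAlgebra.map (L Sum.inl) (ιMulti ℂ N e) *
    ExteriorAlgebra.map (L Sum.inr) (ιMulti ℂ N e), ?_, fun s => ?_⟩
  · rw [two_mul]
    exact deg_mul (m Sum.inl) (m Sum.inr)
  have m2 : σ s ^ n ∈ ⋀[ℂ]^(2 * n) (E N) := deg_pow (deg_sum _ _ _ _) n
  rw [← hN] at m2
  obtain ⟨p, hp⟩ := top_mem e m2
  have hq := congrArg κ hp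
  rw [map_pow, a3, k1, a4] at hq
  have e2 : (s.map star).map star = s := by
    ext a b
    simp
  refine ⟨p, ?_, ?_⟩
  · rw [← a1, ← a2, ← map_pow, ← map_pow, hp, hq, map_smul, map_smul, smul_mul_smul_comm]
  · rw [← a1, ← a2, e2, ← map_pow, ← map_pow, hp, map_smul, map_smul, smul_mul_smul_comm]

theorem ph_skew (hs : sᵀ = -s) : ph (Matrix.fromBlocks 1 1 1 (-1)) (form11 s) =
    (2 * Complex.I) • form20 s + (-(2 * Complex.I)) • form02 (s.map star) := by
  have hb := ph_blocks (N := N) 1 1 1 (-1)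
  have h1 : ∀ a, ph (Matrix.fromBlocks 1 1 1 (-1)) (xz a) = xz (N := N) a + xb a :=
    fun a => by simpa [Matrix.one_apply] using (hb a).1
  have h2 : ∀ a, ph (Matrix.fromBlocks 1 1 1 (-1)) (xb a) = xz (N := N) a - xb a :=
    fun a => by simpa [Matrix.one_apply, sub_eq_add_neg, ite_smul, apply_ite Neg.neg] using (hb a).2
  have h3 : ∑ a, ∑ b, s a b • (xb a * xz b) = ∑ a, ∑ b, s a b • (xz (N := N) a * xb b) := by
    rw [Finset.sum_comm]
    refine Finset.sum_congr rfl fun a _ => Finset.sum_congr rfl fun b _ => ?_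
    have h4 : s b a = -s a b := congrFun (congrFun hs a) b
    rw [h4, xb, xz, ext1_anti, smul_neg, neg_smul, neg_neg]
  simp only [form11, form20, form02, map_smul, map_sum, map_mul, h1, h2, add_mul, mul_sub, smul_add,
    smul_sub, Finset.sum_add_distrib, Finset.sum_sub_distrib, h3, smul_smul, Matrix.map_apply,
    star_star]
  module

theorem exists_kappa (hN : N = 2 * n) : ∃ κ : ℝ, ∀ s h : Matrix (Fin N) (Fin N) ℂ, sᵀ = -s →
    s.det ≠ 0 → ∀ G : ℝ, form11 h ^ (2 * n) = (G : ℂ) • (form20 s ^ n * form02 s ^ n) →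
      h.det.re / ‖s.det‖ = κ * G := by
  obtain ⟨Z, hZ, hp⟩ := exists_pf hN
  obtain ⟨z, rfl⟩ := top_mem (bas N) hZ
  obtain ⟨w, hw⟩ := top_mem (bas N) (deg_pow (deg11 (1 : Matrix (Fin N) (Fin N) ℂ)) N)
  set M : Matrix (Fin N ⊕ Fin N) (Fin N ⊕ Fin N) ℂ := Matrix.fromBlocks 1 1 1 (-1)
  set c : ℂ := ((2 * n).choose n : ℕ) * (2 * Complex.I * -(2 * Complex.I)) ^ n with hc
  have c0 : c ≠ 0 := mul_ne_zero (Nat.cast_ne_zero.2 (Nat.choose_pos (by omega)).ne')
    (pow_ne_zero _ (by simp))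
  refine ⟨‖M.det * w / (c * z)‖ * (z / w).re, fun s h hs hd G hG => ?_⟩
  obtain ⟨p, p1, p2⟩ := hp s
  have t0 := top_ne_zero hN hs hd
  rw [p1, smul_smul] at t0
  have t1 := right_ne_zero_of_smul t0
  have t2 := left_ne_zero_of_smul t0
  have z0 : z ≠ 0 := right_ne_zero_of_mul t2
  have p0 : p ≠ 0 := left_ne_zero_of_mul (left_ne_zero_of_mul t2)
  have q1 := mixed_pow (h := s) (s := s) (t := s.map star) (j := 0) (m := n) (by omega)
    (2 * Complex.I) (-(2 * Complex.I))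
  rw [← hc, pow_zero, one_mul, one_mul, ← ph_skew hs, ← map_pow, ← hN,
    ph_top _ (deg_pow (deg11 s) N), form11_pow, hw, p2, smul_smul, smul_smul, smul_smul,
    smul_smul] at q1
  have q2 := smul_left_injective ℂ t1 q1
  rw [← hN, form11_pow, hw, p1, smul_smul, smul_smul, smul_smul] at hG
  have q3 := smul_left_injective ℂ t1 hG
  have w0 : w ≠ 0 := right_ne_zero_of_mul
    (q2 ▸ mul_ne_zero (mul_ne_zero c0 (mul_ne_zero p0 p0)) z0)
  have q4 : p * p = s.det * (M.det * w / (c * z)) := by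
    field_simp
    linear_combination -q2
  have q5 : p * star p = (‖s.det‖ * ‖M.det * w / (c * z)‖ : ℝ) := by
    rw [← norm_mul, ← q4, norm_mul, Complex.star_def, Complex.mul_conj', Complex.ofReal_mul, sq]
  have q6 : h.det = (G * (‖s.det‖ * ‖M.det * w / (c * z)‖) : ℝ) * (z / w) := by
    rw [Complex.ofReal_mul, ← q5]
    field_simp
    linear_combination q3
  rw [q6, Complex.re_ofReal_mul, div_eq_iff (norm_ne_zero_iff.2 hd)]
  ring

theorem form2_even (hN : N = 2 * n) (c : ℂ) (s h : Matrix (Fin N) (Fin N) ℂ) :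
    form2 c s h ^ (2 * n) = form2 c s (-h) ^ (2 * n) := by
  obtain ⟨φ, h0, h1, h2, h3⟩ := exists_scale N Complex.I_ne_zero
  have h4 : φ (form2 c s h) = -form2 c s (-h) := by
    rw [← neg_one_smul ℂ h]
    simp only [form2, map_add, map_smul, h1, h2, h3, form11_smul, Complex.inv_I, neg_sq,
      Complex.I_sq]
    module
  have h5 := h0 _ (deg_pow (deg2 c s h) N)
  rw [map_pow, h4, Even.neg_pow ⟨n, by omega⟩] at h5
  rw [← hN, h5]

theorem form2_pure (hN : N = 2 * n) (c : ℂ) (s : Matrix (Fin N) (Fin N) ℂ) :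
    form2 c s 0 ^ (2 * n) = ((((2 * n).choose n : ℕ) * (‖c‖ ^ 2 / 4) ^ n : ℝ) : ℂ) •
      (form20 s ^ n * form02 s ^ n) := by
  have q1 := mixed_pow (h := s) (s := s) (t := s) (j := 0) (m := n) (by omega) (c / 2) (star c / 2)
  rw [pow_zero, one_mul, one_mul] at q1
  rw [form2, ← zero_smul ℂ (0 : Matrix (Fin N) (Fin N) ℂ), form11_smul, zero_smul, add_zero, q1,
    div_mul_div_comm, Complex.star_def, Complex.mul_conj']
  norm_num

theorem exists_weights {d : ℕ} (hd : 2 ≤ d) : ∃ l : Fin (d + 1) → ℝ, ∀ j ≤ d,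
    ∑ i, l i * ((i : ℕ) : ℝ) ^ j = if j = 2 then 1 else 0 := by
  have hv : (Matrix.vandermonde fun i : Fin (d + 1) => ((i : ℕ) : ℝ)).det ≠ 0 :=
    Matrix.det_vandermonde_ne_zero_iff.2 fun a b hab => Fin.ext (Nat.cast_injective hab)
  refine ⟨Pi.single ⟨2, by omega⟩ 1 ᵥ* (Matrix.vandermonde fun i : Fin (d + 1) => ((i : ℕ) : ℝ))⁻¹,
    fun j hj => ?_⟩
  have h1 := congrFun (Matrix.vecMul_vecMul (Pi.single ⟨2, by omega⟩ (1 : ℝ)) _ _ |>.trans
    (congrArg _ (Matrix.nonsing_inv_mul _ hv.isUnit))) ⟨j, by omega⟩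
  rw [Matrix.vecMul_one, Pi.single_apply] at h1
  simpa [Matrix.vecMul, dotProduct, Matrix.vandermonde_apply, Fin.ext_iff] using h1

theorem second_coef (hN : N = 2 * n) (hn : 1 ≤ n) : ∃ l : Fin (2 * n + 1) → ℝ, ∑ i, l i = 0 ∧
    ∀ s h : Matrix (Fin N) (Fin N) ℂ, ∑ i, (l i : ℂ) • form2 2 s (((i : ℕ) : ℂ) • h) ^ (2 * n) =
      form11 h ^ 2 * form20 s ^ (n - 1) * form02 s ^ (n - 1) := by
  obtain ⟨l, hl⟩ := exists_weights (d := 2 * n) (by omega)
  set c : ℕ := (2 * (n - 1)).choose (n - 1) * (2 * n).choose 2 with hc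
  have c0 : (c : ℂ) ≠ 0 := Nat.cast_ne_zero.2
    (mul_pos (Nat.choose_pos (by omega)) (Nat.choose_pos (by omega))).ne'
  refine ⟨fun i => (c : ℝ)⁻¹ * l i, ?_, fun s h => ?_⟩
  · simpa [← Finset.mul_sum] using Or.inr (by simpa using hl 0 (by omega))
  have e : ∀ t : ℂ, form2 2 s (t • h) ^ (2 * n) = ∑ j ∈ Finset.range (2 * n + 1), t ^ j •
      (form11 h ^ j * ((1 : ℂ) • form20 s + (1 : ℂ) • form02 s) ^ (2 * n - j) *
        ((2 * n).choose j : ℕ)) := fun t => by
    rw [form2, form11_smul, add_comm, ((two_comm (deg11 h) _).smul_left t).add_pow]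
    refine Finset.sum_congr rfl fun j _ => ?_
    rw [smul_pow, smul_mul_assoc, smul_mul_assoc]
    norm_num
  have hl' : ∀ j ≤ 2 * n, ∑ i, (l i : ℂ) * ((i : ℕ) : ℂ) ^ j = if j = 2 then 1 else 0 :=
    fun j hj => by
      have := congrArg (fun x : ℝ => (x : ℂ)) (hl j hj)
      simpa [apply_ite (fun x : ℝ => (x : ℂ))] using this
  simp only [e, Finset.smul_sum, smul_smul]
  rw [Finset.sum_comm, Finset.sum_eq_single 2]
  · rw [← Finset.sum_smul, show 2 * n - 2 = 2 * (n - 1) by omega, mixed_pow (by omega),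
      ← nsmul_eq_mul', ← Nat.cast_smul_eq_nsmul ℂ, smul_smul, smul_smul]
    simp only [Complex.ofReal_mul, mul_assoc, ← Finset.mul_sum, hl' 2 (by omega)]
    have : (((c : ℝ)⁻¹ : ℝ) : ℂ) * (((2 * n).choose 2 : ℕ) * ((2 * (n - 1)).choose (n - 1) : ℕ)) = 1 := by
      rw [Complex.ofReal_inv, Complex.ofReal_natCast, mul_comm (_ : ℂ) (((2 * (n - 1)).choose _ : ℕ) : ℂ),
        ← Nat.cast_mul, ← hc, inv_mul_cancel₀ c0]
    simp only [if_true, one_mul, one_pow, mul_one, this, one_smul]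
  · intro j hj h2
    rw [← Finset.sum_smul]
    simp only [Complex.ofReal_mul, mul_assoc, ← Finset.mul_sum,
      hl' j (Nat.lt_succ_iff.1 (Finset.mem_range.1 hj)), if_neg h2, mul_zero, zero_smul]
  · intro h2
    exact absurd (Finset.mem_range.2 (by omega)) h2

end Pool.Agent.HS
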