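import Pool.Agent.P.MP_63735c_ag.BF1
import Pool.Agent.P.MP_63735c_ag.HSExt2

/-! Pull-backs and the forms of matrices. -/

open scoped ComplexOrder ContDiff Matrix Topology
open Set Metric MeasureTheory Filter

namespace Pool.Agent.BF

open Pool.Agent.SPF Pool.Agent.AB Pool.Agent.HX Pool.Agent.CK Pool.Agent.HS
open Pool.Agent.CL (Form1 Form2 Closed2 IsPrim)

variable {N : ℕ}

theorem T_ph (M : Matrix (Fin N ⊕ Fin N) (Fin N ⊕ Fin N) ℂ) (x : Ext N) :
    T (ph M x) = M.det * T x := by
  have h : T ∘ₗ (ph M).toLinearMap = M.det • T := ExteriorAlgebra.lhom_ext fun i => by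
    ext v
    simp only [LinearMap.compAlternatingMap_apply, LinearMap.comp_apply, AlgHom.toLinearMap_apply,
      ph, ExteriorAlgebra.map_apply_ιMulti, T, ExteriorAlgebra.liftAlternating_apply_ιMulti,
      LinearMap.smul_apply, smul_eq_mul]
    obtain rfl | hi := eq_or_ne i (2 * N)
    · rw [Pi.single_eq_same, (bas N).det_comp, LinearMap.det_toLin', Matrix.det_transpose]
    · simp [Pi.single_eq_of_ne hi]
  exact LinearMap.congr_fun h x

theorem T_top : T (ExteriorAlgebra.ιMulti ℂ (2 * N) (bas N)) = 1 := by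
  rw [T, ExteriorAlgebra.liftAlternating_apply_ιMulti, Pi.single_eq_same, (bas N).det_self]

/-- Real coordinates. -/
noncomputable def bf2_co (N : ℕ) : E N ≃ₗ[ℝ] (Fin N ⊕ Fin N → ℝ) where
  toFun z := Sum.elim (fun a => (z a).re) fun a => (z a).im
  invFun x a := ⟨x (Sum.inl a), x (Sum.inr a)⟩
  map_add' _ _ := by ext (a | a) <;> rfl
  map_smul' _ _ := by ext (a | a) <;> simp
  left_inv _ := rfl
  right_inv _ := by ext (a | a) <;> rfl

theorem bf2_rb (k : Fin N ⊕ Fin N) : Module.Basis.ofEquivFun (bf2_co N) k = rb k := by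
  rw [Module.Basis.coe_ofEquivFun]
  ext b
  rcases k with a | a <;> apply Complex.ext <;>
    simp [bf2_co, rb, Pi.single_apply, apply_ite Complex.re, apply_ite Complex.im]

theorem bf2_exp (z : E N) : z = ∑ k, bf2_co N z k • rb k := by
  simpa only [bf2_rb, Module.Basis.ofEquivFun_repr_apply] using
    ((Module.Basis.ofEquivFun (bf2_co N)).sum_repr z).symm

theorem bf2_gx (J : E N →L[ℝ] E N) (k : Fin N ⊕ Fin N) :
    pull J (gx k) = ∑ l, (bf2_co N (J (rb l)) k : ℂ) • gx l := by
  rcases k with a | a <;>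
  · simp only [gx, Sum.elim_inl, Sum.elim_inr, map_smul, map_add, map_sub, pull, wm,
      (ph_blocks _ _ _ _ _).1, (ph_blocks _ _ _ _ _).2, Fintype.sum_sum_type,
      ← Finset.sum_add_distrib, ← Finset.sum_sub_distrib, Finset.smul_sum, Matrix.of_apply, rb]
    refine Finset.sum_congr rfl fun b _ => ?_
    match_scalars <;> apply Complex.ext <;> simp [bf2_co] <;> ring

theorem pull_e1 (J : E N →L[ℝ] E N) (ξ : E N →L[ℝ] ℝ) : pull J (e1 ξ) = e1 (ξ.comp J) := by
  simp only [e1, map_sum, map_smul, bf2_gx, Finset.smul_sum, smul_smul]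
  rw [Finset.sum_comm]
  refine Finset.sum_congr rfl fun l _ => ?_
  rw [← Finset.sum_smul, ContinuousLinearMap.comp_apply]
  nth_rewrite 2 [bf2_exp (J (rb l))]
  simp [mul_comm]

theorem pull_f2 (J : E N →L[ℝ] E N) (B : Bil N) : pull J (f2 B) = f2 (B.bilinearComp J J) := by
  have h : ∀ C : Bil N, f2 C = (1 / 2 : ℂ) • ∑ k, gx k * e1 (C (rb k)) := fun C => by
    simp only [f2, e1, Finset.mul_sum, mul_smul_comm]
  simp only [h, map_sum, map_smul, map_mul, bf2_gx, pull_e1, Finset.sum_mul]
  rw [Finset.sum_comm]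
  refine congrArg _ (Finset.sum_congr rfl fun l _ => ?_)
  have h2 : B.bilinearComp J J (rb l) = ∑ k, bf2_co N (J (rb l)) k • (B (rb k)).comp J := by
    ext v
    nth_rewrite 1 [ContinuousLinearMap.bilinearComp_apply, bf2_exp (J (rb l))]
    simp
  rw [h2, show e1 (∑ k, _) = _ from map_sum (e1L N) _ _, Finset.mul_sum]
  refine Finset.sum_congr rfl fun k _ => ?_
  rw [smul_mul_assoc, ← mul_smul_comm, ← e1_smul]
  rfl

theorem det_wm (J : E N →L[ℝ] E N) : (wm J).det = (J.det : ℂ) := by
  let b := Module.Basis.ofEquivFun (bf2_co N)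
  let P : Matrix (Fin N ⊕ Fin N) (Fin N ⊕ Fin N) ℂ :=
    Matrix.fromBlocks 1 (Complex.I • 1) 1 (-Complex.I • 1)
  let Q : Matrix (Fin N ⊕ Fin N) (Fin N ⊕ Fin N) ℂ :=
    Matrix.fromBlocks ((1 / 2 : ℂ) • 1) ((1 / 2 : ℂ) • 1) ((-Complex.I / 2) • 1) ((Complex.I / 2) • 1)
  have h1 : Q * P = 1 := by
    ext (a | a) (c | c) <;> apply Complex.ext <;>
      simp [P, Q, Matrix.fromBlocks_multiply, Matrix.one_apply, apply_ite Complex.re,
        apply_ite Complex.im] <;> split_ifs <;> norm_num
  have h3 : ∀ k l, LinearMap.toMatrix b b J k l = bf2_co N (J (rb l)) k := fun k l => by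
    rw [LinearMap.toMatrix_apply, bf2_rb]
    rfl
  have h2 : wm J = P * (Complex.ofRealHom.mapMatrix (LinearMap.toMatrix b b J) * Q) := by
    ext (a | a) (c | c) <;> apply Complex.ext <;>
      simp [P, Q, wm, Matrix.mul_apply, Matrix.one_apply, h3, rb, bf2_co] <;> ring
  rw [h2, Matrix.det_mul_comm, Matrix.mul_assoc, h1, Matrix.mul_one, ← RingHom.map_det,
    LinearMap.det_toMatrix]
  rfl

theorem T_pull (J : E N →L[ℝ] E N) (x : Ext N) : T (pull J x) = (J.det : ℂ) * T x := by
  rw [pull, T_ph, det_wm]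

theorem det_hol {φ : E N → E N} {z : E N} (h : DifferentiableAt ℂ φ z) :
    (fderiv ℝ φ z).det = ‖(jac φ z).det‖ ^ 2 := by
  have h1 : jac φ z = LinearMap.toMatrix' (fderiv ℂ φ z : E N →ₗ[ℂ] E N) := by
    ext a b
    simp [jac]
  rw [h1, LinearMap.det_toMatrix', ← Complex.normSq_eq_norm_sq, ← Algebra.norm_complex_apply,
    ← LinearMap.det_restrictScalars, h.fderiv_restrictScalars ℝ]
  rfl

theorem f2_e11 {h : Mat N} (hh : h.IsHermitian) : f2 (e11 h) = form11 h := by
  have h1 : ∑ a, ∑ b, star (h a b) • (xb a * xz b) = -∑ a, ∑ b, h a b • (xz (N := N) a * xb b) := by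
    rw [Finset.sum_comm]
    simp only [← Finset.sum_neg_distrib, hh.apply]
    exact Finset.sum_congr rfl fun a _ => Finset.sum_congr rfl fun b _ => by
      rw [xb, xz, ext1_anti, smul_neg]
  have h2 : form11 h = (Complex.I / 2) • (∑ a, ∑ b, h a b • (xz (N := N) a * xb b) -
      ∑ a, ∑ b, star (h a b) • (xb a * xz b)) := by
    rw [h1, form11]
    module
  simp only [h2, f2, Fintype.sum_sum_type, ← Finset.sum_add_distrib, ← Finset.sum_sub_distrib,
    Finset.smul_sum, gx, rb, Sum.elim_inl, Sum.elim_inr, smul_mul_smul_comm, mul_add, add_mul,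
    mul_sub, sub_mul]
  refine Finset.sum_congr rfl fun a _ => Finset.sum_congr rfl fun b _ => ?_
  match_scalars <;> apply Complex.ext <;> simp [ev11] <;> ring

theorem f2_s20 (c : ℂ) (s : Mat N) :
    f2 (s20 c s) = (c / 2) • form20 s + (star c / 2) • form02 s := by
  simp only [form20, form02, f2, Fintype.sum_sum_type, ← Finset.sum_add_distrib,
    Finset.smul_sum, gx, rb, Sum.elim_inl, Sum.elim_inr, smul_mul_smul_comm, mul_add, add_mul,
    mul_sub, sub_mul]
  refine Finset.sum_congr rfl fun a _ => Finset.sum_congr rfl fun b _ => ?_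
  match_scalars <;> apply Complex.ext <;> simp <;> ring

theorem form20_eq (s : Mat N) :
    form20 s = f2 (s20 1 s) + Complex.I • f2 (s20 (-Complex.I) s) := by
  rw [f2_s20, f2_s20]
  match_scalars <;> apply Complex.ext <;> norm_num

theorem form02_eq (s : Mat N) :
    form02 s = f2 (s20 1 s) + (-Complex.I) • f2 (s20 (-Complex.I) s) := by
  rw [f2_s20, f2_s20]
  match_scalars <;> apply Complex.ext <;> norm_num

theorem form20_add (s t : Mat N) : form20 (s + t) = form20 s + form20 t := by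
  simp only [form20, Matrix.add_apply, add_smul, Finset.sum_add_distrib, smul_add]

theorem form20_smul (c : ℂ) (s : Mat N) : form20 (c • s) = c • form20 s := by
  simp only [form20, Matrix.smul_apply, smul_eq_mul, mul_smul, ← Finset.smul_sum]
  exact smul_comm _ _ _

theorem form11_add (s t : Mat N) : form11 (s + t) = form11 s + form11 t := by
  simp only [form11, Matrix.add_apply, add_smul, Finset.sum_add_distrib, smul_add]

end Pool.Agent.BF
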