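import Pool.Agent.P.MP_63735c_ag.BF2

/-! Products that vanish along the null space. -/

open scoped ComplexOrder ContDiff Matrix Topology
open Set Metric MeasureTheory Filter

namespace Pool.Agent.BF

open Pool.Agent.SPF Pool.Agent.AB Pool.Agent.HX Pool.Agent.CK Pool.Agent.HS
open Pool.Agent.CL (Form1 Form2 Closed2 IsPrim)

variable {N n : ℕ}

theorem bf4_proj (U : Submodule ℂ (E N)) : ∃ P Q : E N →L[ℝ] E N, (∀ v, P v ∈ U) ∧
    (∀ v, P v + Q v = v) ∧ ∀ t : ℝ, (Q + t • P).det = t ^ (2 * Module.finrank ℂ U) := by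
  obtain ⟨W, h⟩ := U.exists_isCompl
  refine ⟨LinearMap.toContinuousLinearMap ((U.projection W h).restrictScalars ℝ),
    LinearMap.toContinuousLinearMap ((W.projection U h.symm).restrictScalars ℝ),
    Submodule.projection_apply_mem h, Submodule.projection_add_projection_eq_self h, fun t => ?_⟩
  have h1 := LinearMap.det_conj (LinearMap.prodMap ((t : ℂ) • LinearMap.id) LinearMap.id)
    (U.prodEquivOfIsCompl W h)
  rw [LinearMap.det_prodMap, LinearMap.det_smul, LinearMap.det_id, LinearMap.det_id, mul_one,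
    mul_one] at h1
  have h2 := Algebra.norm_algebraMap (S := ℂ) (t ^ Module.finrank ℂ U)
  rw [map_pow, Complex.coe_algebraMap, ← h1, ← LinearMap.det_restrictScalars,
    Complex.finrank_real_complex, ← pow_mul, mul_comm] at h2
  rw [← h2, ContinuousLinearMap.det]
  congr 1
  refine LinearMap.ext fun v => ?_
  simp [add_comm]

theorem bf4_pow {a b : ℕ} (h : a ≤ b) (x : Ext N) :
    (fun t : ℝ => (t : ℂ) ^ a • x) =O[atTop] fun t : ℝ => t ^ b := by
  refine .trans (g := fun t : ℝ => t ^ a) (.of_bound ‖x‖ (.of_forall fun t => ?_)) ?_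
  · simp [norm_smul, mul_comm]
  · rcases h.eq_or_lt with rfl | h
    · exact Asymptotics.isBigO_refl _ _
    · exact (Asymptotics.isLittleO_pow_pow_atTop_of_lt h).isBigO

theorem bf4_f2 (P Q : E N →L[ℝ] E N) (B : Bil N) {m : ℕ}
    (h : m = 2 ∨ m = 1 ∧ B.bilinearComp P P = 0) :
    (fun t : ℝ => pull (Q + t • P) (f2 B)) =O[atTop] fun t : ℝ => t ^ m := by
  have h1 : ∀ t : ℝ, pull (Q + t • P) (f2 B) = (t : ℂ) ^ 0 • f2 (B.bilinearComp Q Q) +
      (t : ℂ) ^ 1 • f2 (B.bilinearComp P Q + B.bilinearComp Q P) +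
      (t : ℂ) ^ 2 • f2 (B.bilinearComp P P) := fun t => by
    simp only [← Complex.ofReal_pow, ← f2_smul, ← f2_add, pull_f2]
    congr 1
    refine ContinuousLinearMap.ext fun u => ContinuousLinearMap.ext fun v => ?_
    simp
    ring
  simp only [h1]
  rcases h with rfl | ⟨rfl, h⟩
  · exact ((bf4_pow (by simp) _).add (bf4_pow (by simp) _)).add (bf4_pow le_rfl _)
  · simp only [h, f2_zero, smul_zero, add_zero]
    exact (bf4_pow (by simp) _).add (bf4_pow le_rfl _)

theorem bf4_list (P Q : E N →L[ℝ] E N) (L : List (Bil N)) :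
    (fun t : ℝ => pull (Q + t • P) (L.map f2).prod) =O[atTop] fun t : ℝ => t ^ (2 * L.length) := by
  induction L with
  | nil => simpa using bf4_pow le_rfl (1 : Ext N) (a := 0)
  | cons B L h =>
    simp only [List.map_cons, List.prod_cons, map_mul, List.length_cons, mul_add, pow_add,
      mul_comm (_ ^ (2 * L.length))]
    exact (bf4_f2 P Q B (.inl rfl)).mul h

theorem bf4_key {η : Mat N} (hη : η.IsHermitian) {U : Submodule ℂ (E N)}
    (hU : ∀ u ∈ U, u ᵥ* η = 0) (j : ℕ) {y : Ext N} {m : ℕ} (hm : m < 2 * Module.finrank ℂ U)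
    (hy : ∀ P Q : E N →L[ℝ] E N, (∀ v, P v ∈ U) →
      (fun t : ℝ => pull (Q + t • P) y) =O[atTop] fun t : ℝ => t ^ m) :
    T (form11 η ^ j * y) = 0 := by
  obtain ⟨P, Q, h1, h2, h3⟩ := bf4_proj U
  have h4 : ∀ u v, e11 η (P u) v = 0 := fun u v => by
    simp [ev11, Matrix.dotProduct_mulVec, hU _ (h1 u)]
  have h5 : ∀ u v, e11 η v (P u) = 0 := fun u v => by
    have := congrArg star (hU _ (h1 u))
    rw [Matrix.star_vecMul, hη.eq, star_zero] at this
    simp [ev11, this]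
  have h6 : ∀ t : ℝ, pull (Q + t • P) (form11 η) = form11 η := fun t => by
    rw [← f2_e11 hη, pull_f2]
    congr 1
    refine ContinuousLinearMap.ext fun u => ContinuousLinearMap.ext fun v => ?_
    conv_rhs => rw [← h2 u, ← h2 v]
    simp only [ContinuousLinearMap.bilinearComp_apply, add_apply, smul_apply, map_add, map_smul,
      h4, h5, smul_zero, add_zero, zero_add]
  have h7 := (((TL N).isBigO_comp _ _).trans ((hy P Q h1).const_mul_left
    (form11 η ^ j))).trans_isLittleO (Asymptotics.isLittleO_pow_pow_atTop_of_lt hm)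
  by_contra h0
  refine Asymptotics.isLittleO_irrefl' (f' := fun t : ℝ => t ^ (2 * Module.finrank ℂ U))
    ((eventually_gt_atTop 0).mono fun t ht => by simp [ht.ne']).frequently
    (Asymptotics.IsBigO.trans_isLittleO (.of_bound ‖T (form11 η ^ j * y)‖⁻¹
      (.of_forall fun t => ?_)) h7)
  have h8 := T_pull (Q + t • P) (form11 η ^ j * y)
  rw [map_mul, map_pow, h6, h3] at h8
  rw [show TL N _ = _ from h8, norm_mul, Complex.norm_real, mul_comm ‖_ ^ _‖,
    inv_mul_cancel_left₀ (norm_ne_zero_iff.2 h0)]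

theorem T_null {η : Mat N} (hη : η.IsHermitian) {U : Submodule ℂ (E N)}
    (hU : ∀ u ∈ U, u ᵥ* η = 0) (j : ℕ) (L : List (Bil N)) (h : L.length < Module.finrank ℂ U) :
    T (form11 η ^ j * (L.map f2).prod) = 0 :=
  bf4_key hη hU j (m := 2 * L.length) (by omega) fun P Q _ => bf4_list P Q L

theorem T_null' {η : Mat N} (hη : η.IsHermitian) {U : Submodule ℂ (E N)}
    (hU : ∀ u ∈ U, u ᵥ* η = 0) (j : ℕ) {p : Bil N} (hp : ∀ u ∈ U, ∀ v ∈ U, p u v = 0)
    (L : List (Bil N)) (h : L.length < Module.finrank ℂ U) :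
    T (form11 η ^ j * (f2 p * (L.map f2).prod)) = 0 :=
  bf4_key hη hU j (m := 1 + 2 * L.length) (by omega) fun P Q h => by
    simp only [map_mul, pow_add]
    exact (bf4_f2 P Q p (.inr ⟨rfl, ContinuousLinearMap.ext fun u =>
      ContinuousLinearMap.ext fun v => hp _ (h u) _ (h v)⟩)).mul (bf4_list P Q L)

theorem null_alt {η s : Mat (2 * n)} (hs : sᵀ = -s) (hd : s.det ≠ 0) (hi : ηᵀ * s⁻¹ * η = 0) :
    ∃ U : Submodule ℂ (E (2 * n)), (∀ u ∈ U, u ᵥ* η = 0) ∧ (n < Module.finrank ℂ U ∨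
      Module.finrank ℂ U = n ∧ ∀ u ∈ U, ∀ v ∈ U, u ⬝ᵥ s *ᵥ v = 0) := by
  have h2 : LinearMap.range (s⁻¹ * η).mulVecLin ≤ LinearMap.ker ηᵀ.mulVecLin := by
    rintro _ ⟨v, rfl⟩
    rw [LinearMap.mem_ker, Matrix.mulVecLin_apply, Matrix.mulVecLin_apply, Matrix.mulVec_mulVec,
      ← Matrix.mul_assoc, hi, Matrix.zero_mulVec]
  have h3 := LinearMap.finrank_range_add_finrank_ker ηᵀ.mulVecLin
  have h4 : Module.finrank ℂ (LinearMap.range ηᵀ.mulVecLin) =
      Module.finrank ℂ (LinearMap.range (s⁻¹ * η).mulVecLin) := η.rank_transpose.trans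
    (Matrix.rank_mul_eq_right_of_isUnit_det _ _ (s.isUnit_nonsing_inv_det hd.isUnit)).symm
  have h5 : ∀ a b : ℕ, a + b = 2 * n → a ≤ b → b ≤ n → b = n ∧ b ≤ a := by omega
  rw [Module.finrank_fin_fun, h4] at h3
  refine ⟨LinearMap.ker ηᵀ.mulVecLin, fun u h => (Matrix.mulVec_transpose η u).symm.trans h, ?_⟩
  refine (lt_or_ge n _).imp_right fun h => ?_
  have h8 := h5 _ _ h3 (Submodule.finrank_mono h2) h
  refine ⟨h8.1, fun u h6 v h7 => ?_⟩
  rw [← Submodule.eq_of_le_of_finrank_le h2 h8.2] at h7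
  obtain ⟨w, rfl⟩ := h7
  rw [Matrix.mulVecLin_apply, Matrix.mulVec_mulVec, Matrix.mul_nonsing_inv_cancel_left _ _ hd.isUnit,
    Matrix.dotProduct_mulVec, ← Matrix.mulVec_transpose, show ηᵀ *ᵥ u = 0 from h6, zero_dotProduct]

theorem iso_null {η s : Mat (2 * n)} (hη : η.IsHermitian) (hs : sᵀ = -s) (hd : s.det ≠ 0)
    (hi : ηᵀ * s⁻¹ * η = 0) (j : ℕ) (L : List (Bil (2 * n))) (h : L.length < n) :
    T (form11 η ^ j * (L.map f2).prod) = 0 ∧
      ∀ c, T (form11 η ^ j * (f2 (s20 c s) * (L.map f2).prod)) = 0 := by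
  obtain ⟨U, h1, h2 | ⟨h2, h3⟩⟩ := null_alt hs hd hi
  · exact ⟨T_null hη h1 j L (h.trans h2), fun c => T_null hη h1 j (s20 c s :: L)
      (lt_of_le_of_lt h h2)⟩
  · exact ⟨T_null hη h1 j L (h2.symm ▸ h), fun c => T_null' hη h1 j
      (fun u hu v hv => by rw [s20_apply, h3 u hu v hv, mul_zero, Complex.zero_re]) L (h2.symm ▸ h)⟩

end Pool.Agent.BF
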