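import Pool.Agent.P.MP_63735c_ag.BF2

/-! Universal constants. -/

open scoped ComplexOrder ContDiff Matrix Topology
open Set Metric MeasureTheory Filter

namespace Pool.Agent.BF

open Pool.Agent.SPF Pool.Agent.AB Pool.Agent.HX Pool.Agent.CK Pool.Agent.HS
open Pool.Agent.CL (Form1 Form2 Closed2 IsPrim)

variable {N n : ℕ}

/-- The top coefficient of the power of the standard form. -/
noncomputable def kap (N : ℕ) : ℂ := T (form11 (1 : Mat N) ^ N)

theorem T_pow (h : Mat N) : T (form11 h ^ N) = kap N * h.det := by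
  rw [form11_pow, map_smul, smul_eq_mul, mul_comm, kap]

theorem bf5_key (n : ℕ) : ∃ a z : ℂ, z ≠ 0 ∧ a * kap (2 * n) ≠ 0 ∧ ∀ s : Mat (2 * n), sᵀ = -s →
    ∃ p : ℂ, T (form20 s ^ n * form02 s ^ n) = p * star p * z ∧
      T (form20 s ^ n * form02 (s.map star) ^ n) = p * p * z ∧
      p * p * z = a * kap (2 * n) * s.det := by
  obtain ⟨Z, hZ, hp⟩ := exists_pf (N := 2 * n) rfl
  set M := Matrix.fromBlocks (1 : Mat (2 * n)) (1 : Mat (2 * n)) (1 : Mat (2 * n)) (-1)
  set c : ℂ := ((2 * n).choose n : ℕ) * (2 * Complex.I * -(2 * Complex.I)) ^ n with hc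
  have c0 : c ≠ 0 := mul_ne_zero (Nat.cast_ne_zero.2 (Nat.choose_pos (by omega)).ne')
    (pow_ne_zero _ (by simp))
  have k : ∀ s : Mat (2 * n), sᵀ = -s → ∀ p : ℂ,
      form20 s ^ n * form02 (s.map star) ^ n = (p * p) • Z →
      p * p * T Z = M.det / c * kap (2 * n) * s.det := fun s hs p h => by
    have q := congrArg T (mixed_pow (h := s) (s := s) (t := s.map star) (j := 0) (m := n)
      (by omega) (2 * Complex.I) (-(2 * Complex.I)))
    rw [← hc, pow_zero, one_mul, one_mul, ← ph_skew hs, ← map_pow, T_ph, T_pow, h, map_smul,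
      map_smul, smul_eq_mul, smul_eq_mul] at q
    field_simp
    linear_combination -q
  let e : Fin (2 * n) ≃ Fin n ⊕ Fin n := (finCongr (two_mul n)).trans finSumFinEquiv.symm
  have j1 : ((Matrix.J (Fin n) ℂ).submatrix e e)ᵀ = -(Matrix.J (Fin n) ℂ).submatrix e e := by
    rw [Matrix.transpose_submatrix, Matrix.J_transpose]
    rfl
  obtain ⟨p, p1, p2⟩ := hp ((Matrix.J (Fin n) ℂ).submatrix e e)
  have t := top_ne_zero rfl j1
    (by rw [Matrix.det_submatrix_equiv_self]; exact (Matrix.isUnit_det_J _ _).ne_zero)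
  rw [p1] at t
  have p0 := left_ne_zero_of_mul (left_ne_zero_of_smul t)
  have z0 : T Z ≠ 0 := by
    obtain ⟨z, rfl⟩ := top_mem (bas _) hZ
    rw [map_smul, T_top, smul_eq_mul, mul_one]
    exact left_ne_zero_of_smul (right_ne_zero_of_smul t)
  refine ⟨M.det / c, T Z, z0, left_ne_zero_of_mul
    (k _ j1 p p2 ▸ mul_ne_zero (mul_ne_zero p0 p0) z0), fun s hs => ?_⟩
  obtain ⟨q, q1, q2⟩ := hp s
  exact ⟨q, by rw [q1, map_smul, smul_eq_mul], by rw [q2, map_smul, smul_eq_mul], k s hs q q2⟩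

theorem kap_ne (n : ℕ) : kap (2 * n) ≠ 0 := by
  obtain ⟨a, -, -, h, -⟩ := bf5_key n
  exact right_ne_zero_of_mul h

theorem bf5_ph (A s : Mat N) : ph (Matrix.fromBlocks A 0 0 1) (form20 s) = form20 (Aᵀ * s * A) ∧
    ph (Matrix.fromBlocks A 0 0 1) (form02 s) = form02 s := by
  have hb := ph_blocks (N := N) A 0 0 1
  have h1 : ∀ a, ph (Matrix.fromBlocks A 0 0 1) (xz a) = ∑ b, A a b • xz (N := N) b :=
    fun a => by simpa using (hb a).1
  have h2 : ∀ a, ph (Matrix.fromBlocks A 0 0 1) (xb a) = xb (N := N) a :=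
    fun a => by simpa [Matrix.one_apply] using (hb a).2
  refine ⟨?_, by simp only [form02, map_smul, map_sum, map_mul, h2]⟩
  simp only [form20, map_smul, map_sum, map_mul, h1, Finset.sum_mul_sum, smul_mul_smul_comm,
    Matrix.mul_apply, Matrix.transpose_apply]
  simp only [Finset.sum_mul, Finset.sum_smul, Finset.smul_sum, smul_smul, ← Fintype.sum_prod_type']
  refine Fintype.sum_equiv ⟨fun x => (x.2.2.1, x.2.2.2, x.2.1, x.1),
    fun x => (x.2.2.2, x.2.2.1, x.1, x.2.1), fun _ => rfl, fun _ => rfl⟩ _ _ fun x => ?_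
  congr 1
  simp only [Equiv.coe_fn_mk]
  ring

theorem exists_c3 (n : ℕ) : ∃ C : ℂ, C ≠ 0 ∧ ∀ s h : Mat (2 * n), sᵀ = -s → s.det ≠ 0 →
    T (form20 (h * s⁻¹.map star * hᵀ) ^ n * form02 s ^ n) = C * h.det := by
  obtain ⟨a, z, -, h0, k⟩ := bf5_key n
  refine ⟨(-1) ^ n * (a * kap (2 * n)), mul_ne_zero (by simp) h0, fun s h hs hd => ?_⟩
  have u := ext1_skew hs
  have v := ext1_star_inv hd
  obtain ⟨p, -, p2, p3⟩ := k _ u
  rw [show (s.map star).map star = s by ext; simp, p3] at p2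
  have e : h * s⁻¹.map star * hᵀ =
      (-1 : ℂ) • (((h * s⁻¹.map star)ᵀ)ᵀ * s.map star * (h * s⁻¹.map star)ᵀ) := by
    rw [← neg_neg (s.map star), ← u, Matrix.mul_neg, Matrix.neg_mul, neg_one_smul, neg_neg,
      Matrix.transpose_transpose, Matrix.mul_assoc _ (s.map star)ᵀ, ← Matrix.transpose_mul,
      Matrix.mul_assoc h _ (s.map star), v, Matrix.mul_one]
  have d := congrArg Matrix.det v
  rw [Matrix.det_mul, Matrix.det_one] at d
  rw [e, form20_smul, smul_pow, smul_mul_assoc, map_smul, ← (bf5_ph _ _).1,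
    ← (bf5_ph (h * s⁻¹.map star)ᵀ s).2, ← map_pow, ← map_pow, ← map_mul, T_ph, p2,
    Matrix.det_fromBlocks_zero₂₁, Matrix.det_transpose, Matrix.det_mul, Matrix.det_one,
    smul_eq_mul]
  linear_combination (-1) ^ n * (a * kap (2 * n)) * h.det * d

theorem exists_c5 (n : ℕ) : ∃ C : ℂ, C ≠ 0 ∧ ∀ s : Mat (2 * n), sᵀ = -s →
    T (form20 s ^ n * form02 s ^ n) = C * (‖s.det‖ : ℝ) := by
  obtain ⟨a, z, z0, h0, k⟩ := bf5_key n
  refine ⟨z * (‖a * kap (2 * n) / z‖ : ℝ), mul_ne_zero z0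
    (Complex.ofReal_ne_zero.2 (norm_ne_zero_iff.2 (div_ne_zero h0 z0))), fun s hs => ?_⟩
  obtain ⟨p, p1, -, p3⟩ := k s hs
  rw [p1, mul_assoc z, ← Complex.ofReal_mul, ← norm_mul, div_mul_eq_mul_div, ← p3,
    mul_div_cancel_right₀ _ z0, norm_mul, Complex.star_def, Complex.mul_conj', Complex.ofReal_mul,
    sq, mul_comm]

theorem type_pow (g m s : Mat (2 * n)) :
    (form20 g + form11 m) ^ n * form02 s ^ n = form20 g ^ n * form02 s ^ n := by
  rw [add_comm, (two_comm (deg11 m) _).add_pow, Finset.sum_mul, Finset.sum_eq_single 0]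
  · simp
  · intro k hk h0
    have := Finset.mem_range.1 hk
    rw [mul_assoc, Nat.cast_comm, ← mul_assoc, type_zero (by omega) (by omega), zero_mul]
  · simp

theorem type_dir (hn : 1 ≤ n) (c : ℂ) (s : Mat (2 * n)) {a : Mat (2 * n)} (ha : a.IsHermitian) :
    f2 (s20 c s + e11 a) * (form20 s ^ (n - 1) * form02 s ^ n) =
      (c / 2) • (form20 s ^ n * form02 s ^ n) := by
  have h1 := type_zero (h := a) (s := s) (t := s) (j := 1) (k := n - 1) (l := n) (by omega) (by omega)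
  have h2 := type_zero (h := a) (s := s) (t := s) (j := 0) (k := n - 1) (l := n + 1) (by omega)
    (by omega)
  rw [pow_one, mul_assoc] at h1
  rw [pow_zero, one_mul, pow_succ, ← mul_assoc, ← (two_comm (deg02 s) _).eq] at h2
  rw [f2_add, f2_s20, f2_e11 ha, add_mul, add_mul, h1, smul_mul_assoc, smul_mul_assoc, h2,
    smul_zero, add_zero, add_zero, ← mul_assoc, ← pow_succ', Nat.sub_add_cancel hn]

end Pool.Agent.BF
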