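import Pool.Agent.P.MP_63735c_ag.HXDc

/-! The Levi matrix of a complex function. -/

open scoped ComplexOrder ContDiff Matrix Topology ENNReal
open Set Metric MeasureTheory Filter

namespace Pool.Agent.HX

open Pool.Agent.SPF Pool.Agent.AB

variable {N M : ℕ} {W : Set (E N)} {w w' : E N → ℂ} {z : E N}

theorem lc_congr (h : w =ᶠ[𝓝 z] w') : lc w =ᶠ[𝓝 z] lc w' := by
  have : ∀ᶠ y in 𝓝 z, ∀ a b, dz a (dzb b w) y = dz a (dzb b w') y :=
    eventually_all.2 fun a => eventually_all.2 fun b => dz_congr (dzb_congr h b) a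
  filter_upwards [this] with y hy
  ext a b
  exact hy a b

theorem lc_const (c : ℂ) : lc (fun _ : E N => c) z = 0 := by
  ext a b
  rw [lc, Matrix.of_apply, show dzb b (fun _ : E N => c) = fun _ => 0 from
    funext fun _ => (dz_const b c).2]
  exact (dz_const a 0).1

theorem lc_smooth (hW : IsOpen W) (hw : ContDiffOn ℝ ∞ w W) (a b : Fin N) :
    ContDiffOn ℝ ∞ (fun z => lc w z a b) W := (dz_smooth hW (dz_smooth hW hw b).2 a).1

theorem lc_real (f : E N → ℝ) (z : E N) : lc (fun y => (f y : ℂ)) z = lev f z := by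
  ext a b
  exact (lev_apply f z a b).symm

theorem lc_star (hw : ContDiffAt ℝ ∞ w z) : lc (fun y => star (w y)) z = (lc w z)ᴴ := by
  ext a b
  rw [Matrix.conjTranspose_apply, lc, lc, Matrix.of_apply, Matrix.of_apply, (ablev_comm hw b a).1,
    (star_dz _ z a).2]
  exact congrArg (dz a · z) (funext fun y => (star_dz w y b).1.symm)

theorem lc_add (hw : ContDiffAt ℝ ∞ w z) (hw' : ContDiffAt ℝ ∞ w' z) :
    lc (fun y => w y + w' y) z = lc w z + lc w' z := by
  ext a b
  have h : dzb b (fun y => w y + w' y) =ᶠ[𝓝 z] fun y => dzb b w y + dzb b w' y := by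
    filter_upwards [ablev_ev hw, ablev_ev hw'] with y h1 h2 using (dz_add h1 h2 b).2
  exact (dz_congr h a).self_of_nhds.trans (dz_add ((ablev_dz hw b).2.differentiableAt (by simp))
    ((ablev_dz hw' b).2.differentiableAt (by simp)) a).1

theorem lc_comp {φ : E M → E N} {y : E M} (hw : ContDiffAt ℝ ∞ w (φ y))
    (hφ : ∀ᶠ x in 𝓝 y, DifferentiableAt ℂ φ x) :
    lc (fun x => w (φ x)) y = (jac φ y)ᵀ * lc w (φ y) * (jac φ y).map star := by
  ext a b
  have h0 := hφ.self_of_nhds
  obtain ⟨O, hO, ho, hy⟩ := _root_.eventually_nhds_iff.1 hφ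
  have hJ : ∀ c, DifferentiableAt ℂ (fun x => jac φ x c b) y := fun c =>
    (jac_hol ho (fun x hx => (hO x hx).differentiableWithinAt) c b).differentiableAt
      (ho.mem_nhds hy)
  have h1 : dzb b (fun x => w (φ x)) =ᶠ[𝓝 y] fun x => ∑ c, star (jac φ x c b) * dzb c w (φ x) := by
    filter_upwards [hφ, h0.continuousAt.eventually (ablev_ev hw)] with x h1 h2
      using (dz_comp h2 h1 b).2
  have h2 := fun c => (ablev_dz hw c).2.differentiableAt (by simp)
  have h3 : ∀ c, DifferentiableAt ℝ (fun x => dzb c w (φ x)) y := fun c =>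
    (h2 c).comp y (h0.restrictScalars ℝ)
  have h4 := fun c => ablev_star ((hJ c).restrictScalars ℝ)
  rw [lc, Matrix.of_apply, (dz_congr h1 a).self_of_nhds,
    (dz_sum _ (fun c _ => (h4 c).fun_mul (h3 c)) a).1, Matrix.mul_apply]
  refine Finset.sum_congr rfl fun c _ => ?_
  rw [(dz_mul (h4 c) (h3 c) a).1, ← (star_dz _ y a).2, (dz_of_diff (hJ c) a).2, star_zero, zero_mul,
    zero_add, (dz_comp (h2 c) h0 a).1, mul_comm]
  rfl

theorem fderiv_real (f : E N → ℝ) (hf : DifferentiableAt ℝ f z) (u : E N) :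
    fderiv ℝ f z u = 2 * (u ⬝ᵥ dr f z).re := by
  have h := fderiv_eq_wirt (fun y => (f y : ℂ)) z u
  rw [show fderiv ℝ (fun y => (f y : ℂ)) z = _ from
    (Complex.ofRealCLM.hasFDerivAt.comp z hf.hasFDerivAt).fderiv] at h
  have h1 : ∀ a, dz a (fun y => (f y : ℂ)) z = star (dzb a (fun y => (f y : ℂ)) z) := fun a =>
    (congrFun (star_db f z) a).symm
  have h2 := congrArg Complex.re h
  simp only [h1, Complex.re_sum] at h2
  refine h2.trans ?_
  simp only [← star_db, dotProduct, Complex.re_sum, Finset.mul_sum]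
  refine Finset.sum_congr rfl fun a _ => ?_
  simp [db]
  ring

theorem dform_dcf (hw : ContDiffAt ℝ ∞ w z) (u v : E N) :
    dform (dcf w) z u v = -(hq (lc w z) u v).im + (hq (lc w z) v u).im := by
  have hs := (hw.isSymmSndFDerivAt (by
    rw [minSmoothness_of_isRCLikeNormedField]; exact WithTop.coe_le_coe.2 le_top)).eq
  have h1 : ∀ a b, dzb a (dzb b w) z = dzb b (dzb a w) z := fun a b => by
    rw [dzb, dzb.eq_1 b, (ablev_fd hw b _).2, (ablev_fd hw b _).2, (ablev_fd hw a _).2,
      (ablev_fd hw a _).2, hs (Pi.single b 1), hs (Pi.single b 1), hs (Pi.single b Complex.I),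
      hs (Pi.single b Complex.I)]
    ring
  have h2 : ∀ u v, fderiv ℝ (dcf w) z u v = -(hq (lc w z) u v).im -
      (∑ a, ∑ b, star (u a) * star (v b) * dzb a (dzb b w) z).im := fun u v => by
    have h3 := ((dcf_smooth hw).differentiableAt (by simp)).hasFDerivAt.clm_apply
      (hasFDerivAt_const v z)
    have h4 := (Complex.imCLM.hasFDerivAt.comp z (HasFDerivAt.fun_sum fun b (_ : b ∈ Finset.univ) =>
      ((ablev_dz hw b).2.differentiableAt (by simp)).hasFDerivAt.const_mul (star (v b)))).neg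
    have h5 := DFunLike.congr_fun (h3.unique (h4.congr_of_eventuallyEq (Eventually.of_forall
      fun y => by simp [dcf_apply, dotProduct, db, mul_comm]))) u
    simp only [ContinuousLinearMap.comp_zero, zero_add, ContinuousLinearMap.flip_apply,
      neg_apply, ContinuousLinearMap.comp_apply, sum_apply, smul_apply, fderiv_eq_wirt,
      Complex.imCLM_apply, smul_eq_mul] at h5
    rw [h5, hq_sum_eq, ← neg_add', ← Complex.add_im, ← Finset.sum_add_distrib]
    simp only [Finset.mul_sum, ← Finset.sum_add_distrib]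
    rw [Finset.sum_comm]
    simp only [lc, Matrix.of_apply, mul_add, mul_comm, mul_left_comm, mul_assoc]
  have h6 : ∑ a, ∑ b, star (v a) * star (u b) * dzb a (dzb b w) z =
      ∑ a, ∑ b, star (u a) * star (v b) * dzb a (dzb b w) z := Finset.sum_comm.trans
    (Finset.sum_congr rfl fun a _ => Finset.sum_congr rfl fun b _ => by rw [h1 b, mul_comm (star _)])
  rw [dform, h2, h2, h6]
  ring

theorem ev11_eq {h : Mat N} (hh : h.IsHermitian) (u v : E N) :
    CK.ev11 h u v = -(hq h u v).im + (hq h v u).im := by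
  rw [← hq_herm hh u v, Complex.star_def, Complex.conj_im, CK.ev11, hq]
  ring

end Pool.Agent.HX
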