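import Pool.Agent.P.MP_63735c_ag.BF1
import Pool.Agent.P.MP_63735c_ag.HXLc

/-! Sums of connections. -/

open scoped ComplexOrder ContDiff Matrix Topology
open Set Metric MeasureTheory Filter

namespace Pool.Agent.BF

open Pool.Agent.SPF Pool.Agent.AB Pool.Agent.HX Pool.Agent.CK Pool.Agent.HS
open Pool.Agent.CL (Form1 Form2 Closed2 IsPrim)

variable {N : ℕ} {Y : Type} [TopologicalSpace Y] {D : Man Y N} {U V : Set Y}
  {α ζ : D.ι → Form1 (E N)} {β β' : D.ι → Form2 (E N)}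

theorem G1.at (h : G1 D U α) (hU : IsOpen U) {i : D.ι} {z : E N} (hz : z ∈ D.W i)
    (hx : D.p i z ∈ U) : ContDiffAt ℝ ∞ (α i) z :=
  (h.smooth i).contDiffAt (((D.cont i).isOpen_inter_preimage (D.isOpen i) hU).mem_nhds ⟨hz, hx⟩)

theorem G1.mono (h : G1 D U α) (hV : V ⊆ U) : G1 D V α :=
  ⟨fun i => (h.smooth i).mono fun _ hz => ⟨hz.1, hV hz.2⟩,
    fun i j z hz hx => h.cpt i j z hz (hV hx)⟩

theorem g1_zero : G1 D U 0 := ⟨fun _ => contDiffOn_const, fun _ _ _ _ _ _ _ _ => rfl⟩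

theorem G1.add (h : G1 D U α) (h' : G1 D U ζ) : G1 D U (α + ζ) :=
  ⟨fun i => (h.1 i).add (h'.1 i), fun i j z hz hx φ c u => by
    simp only [Pi.add_apply, add_apply, h.2 i j z hz hx φ c u, h'.2 i j z hz hx φ c u]⟩

theorem G1.sub (h : G1 D U α) (h' : G1 D U ζ) : G1 D U (α - ζ) :=
  ⟨fun i => (h.1 i).sub (h'.1 i), fun i j z hz hx φ c u => by
    simp only [Pi.sub_apply, sub_apply, h.2 i j z hz hx φ c u, h'.2 i j z hz hx φ c u]⟩

theorem G1.sum {κ : Type} (s : Finset κ) {α : κ → D.ι → Form1 (E N)}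
    (h : ∀ k ∈ s, G1 D U (α k)) : G1 D U (∑ k ∈ s, α k) :=
  Finset.sum_induction α (G1 D U) (fun _ _ => G1.add) g1_zero h

theorem G1.smul (h : G1 D U α) {θ : Y → ℝ} (hθ : ∀ i, ∀ z ∈ D.W i, D.p i z ∈ U →
    ContDiffAt ℝ ∞ (fun w => θ (D.p i w)) z) : G1 D U fun i z => θ (D.p i z) • α i z :=
  ⟨fun i z hz => (hθ i z hz.1 hz.2).contDiffWithinAt.smul (h.1 i z hz),
    fun i j z hz hx φ c u => by
      simp only [smul_apply, h.2 i j z hz hx φ c u, c.self_of_nhds.2.2]⟩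

theorem g1_d (hU : IsOpen U) {θ : Y → ℝ} (hθ : ∀ i, ∀ z ∈ D.W i, D.p i z ∈ U →
    ContDiffAt ℝ ∞ (fun w => θ (D.p i w)) z) :
    G1 D U (fun i => fderiv ℝ fun w => θ (D.p i w)) ∧ ∀ i, ∀ z ∈ D.W i, D.p i z ∈ U → ∀ u v,
      dform (fderiv ℝ fun w => θ (D.p i w)) z u v = 0 := by
  refine ⟨⟨fun i z hz => ((hθ i z hz.1 hz.2).fderiv_right (by simp)).contDiffWithinAt,
    fun i j z _ hx φ c u => ?_⟩, fun i z hz hx u v =>
    sub_eq_zero.2 ((hθ i z hz hx).isSymmSndFDerivAt (by simp; exact WithTop.coe_le_coe.2 le_top) u v)⟩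
  have s := c.self_of_nhds
  have e : (fun w => θ (D.p i w)) =ᶠ[𝓝 z] (fun w => θ (D.p j w)) ∘ φ :=
    c.mono fun w hw => by rw [Function.comp, hw.2.2]
  rw [e.fderiv_eq, fderiv_comp z ((hθ j _ s.2.1 (s.2.2 ▸ hx)).differentiableAt (by simp))
    (s.1.restrictScalars ℝ)]
  rfl

theorem dform_congr {a b : Form1 (E N)} {z : E N} (h : a =ᶠ[𝓝 z] b) (u v : E N) :
    dform a z u v = dform b z u v := by
  rw [dform, dform, h.fderiv_eq]

theorem dform_add {a b : Form1 (E N)} {z : E N} (ha : DifferentiableAt ℝ a z)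
    (hb : DifferentiableAt ℝ b z) (u v : E N) :
    dform (a + b) z u v = dform a z u v + dform b z u v ∧
      dform (a - b) z u v = dform a z u v - dform b z u v := by
  simp only [dform, fderiv_add ha hb, fderiv_sub ha hb, add_apply, sub_apply]
  constructor <;> ring

theorem dform_smul {a : Form1 (E N)} {z : E N} (ha : DifferentiableAt ℝ a z) (r : ℝ) (u v : E N) :
    dform (r • a) z u v = r * dform a z u v := by
  simp only [dform, fderiv_const_smul ha, smul_apply, smul_eq_mul, mul_sub]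

theorem conn_zero : Nonempty (Conn D 0) :=
  ⟨⟨Unit, fun _ => univ, fun _ _ _ => 1, 0, fun _ => isOpen_univ, fun _ => ⟨(), trivial⟩,
    by simp, by simp, fun _ => g1_zero, by simp [dform], fun _ _ _ _ _ _ _ => contDiffAt_const,
    by simp⟩⟩

theorem conn_add (h : Nonempty (Conn D β)) (h' : Nonempty (Conn D β')) :
    Nonempty (Conn D (β + β')) := by
  obtain ⟨c⟩ := h
  obtain ⟨e⟩ := h'
  refine ⟨⟨c.κ × e.κ, fun a => c.U a.1 ∩ e.U a.2, fun a b x => c.g a.1 b.1 x * e.g a.2 b.2 x,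
    fun a => c.α a.1 + e.α a.2, fun a => (c.isOpen _).inter (e.isOpen _), fun x => ?_,
    fun a b x ha hb => by rw [norm_mul, c.norm _ _ x ha.1 hb.1, e.norm _ _ x ha.2 hb.2, one_mul],
    fun a b f x ha hb hf => by
      rw [← c.mul _ _ _ x ha.1 hb.1 hf.1, ← e.mul _ _ _ x ha.2 hb.2 hf.2]; ring,
    fun a => ((c.form _).mono inter_subset_left).add ((e.form _).mono inter_subset_right),
    fun a i z hz ha u v => ?_, fun a b i z hz ha hb =>
      (c.smooth _ _ i z hz ha.1 hb.1).mul (e.smooth _ _ i z hz ha.2 hb.2),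
    fun a b i z hz ha hb u => ?_⟩⟩
  · obtain ⟨a, ha⟩ := c.cover x
    obtain ⟨b, hb⟩ := e.cover x
    exact ⟨(a, b), ha, hb⟩
  · rw [Pi.add_apply, (dform_add
      (((c.form _).at (c.isOpen _) hz ha.1).differentiableAt (by simp))
      (((e.form _).at (e.isOpen _) hz ha.2).differentiableAt (by simp)) u v).1,
      c.curv _ i z hz ha.1, e.curv _ i z hz ha.2]
    rfl
  · rw [fderiv_fun_mul ((c.smooth _ _ i z hz ha.1 hb.1).differentiableAt (by simp))
      ((e.smooth _ _ i z hz ha.2 hb.2).differentiableAt (by simp))]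
    simp only [Pi.add_apply, add_apply, smul_apply, smul_eq_mul, c.gauge _ _ i z hz ha.1 hb.1,
      e.gauge _ _ i z hz ha.2 hb.2]
    push_cast
    ring

theorem conn_neg (h : Nonempty (Conn D β)) : Nonempty (Conn D (-β)) := by
  obtain ⟨c⟩ := h
  refine ⟨⟨c.κ, c.U, fun a b => c.g b a, fun a => 0 - c.α a, c.isOpen, c.cover,
    fun a b x ha hb => c.norm _ _ x hb ha,
    fun a b f x ha hb hf => (mul_comm _ _).trans (c.mul _ _ _ x hf hb ha),
    fun a => g1_zero.sub (c.form a), fun a i z hz ha u v => ?_,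
    fun a b i z hz ha hb => c.smooth _ _ i z hz hb ha, fun a b i z hz ha hb u => ?_⟩⟩
  · rw [Pi.sub_apply, (dform_add (a := (0 : D.ι → Form1 (E N)) i) (differentiableAt_const _)
      (((c.form _).at (c.isOpen _) hz ha).differentiableAt (by simp)) u v).2, c.curv _ i z hz ha]
    simp [dform]
  · rw [c.gauge _ _ i z hz hb ha]
    simp [neg_add_eq_sub]

theorem conn_ex (h : Nonempty (Conn D β)) (hζ : G1 D univ ζ)
    (e : ∀ i, ∀ z ∈ D.W i, ∀ u v, β' i z u v = β i z u v + dform (ζ i) z u v) :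
    Nonempty (Conn D β') := by
  obtain ⟨c⟩ := h
  refine ⟨⟨c.κ, c.U, c.g, fun a => c.α a + ζ, c.isOpen, c.cover, c.norm, c.mul,
    fun a => (c.form a).add (hζ.mono (subset_univ _)), fun a i z hz ha u v => ?_, c.smooth,
    fun a b i z hz ha hb u => ?_⟩⟩
  · rw [Pi.add_apply, (dform_add
      (((c.form _).at (c.isOpen _) hz ha).differentiableAt (by simp))
      ((hζ.at isOpen_univ hz trivial).differentiableAt (by simp)) u v).1, c.curv _ i z hz ha,
      e i z hz]
  · rw [c.gauge _ _ i z hz ha hb]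
    simp

/-- The curvature forms. -/
def Lat (D : Man Y N) : AddSubgroup (Z2 D) where
  carrier := {β | Nonempty (Conn D β.1)}
  zero_mem' := conn_zero
  add_mem' := conn_add
  neg_mem' := conn_neg

end Pool.Agent.BF
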