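import Pool.Agent.P.MP_63735c_ag.BF3b
import Pool.Agent.P.MP_63735c_ag.BF4
import Pool.Agent.P.MP_63735c_ag.BF5
import Pool.Agent.P.MP_63735c_ag.BF6b
import Pool.Agent.P.MP_63735c_ag.BF7
import Pool.Agent.P.MP_63735c_ag.BF10
import Pool.Agent.P.MP_63735c_ag.BF10b

/-! Classes on the resolution. -/

open scoped ComplexOrder ContDiff Matrix Topology
open Set Metric MeasureTheory Filter

namespace Pool.Agent.BF

open Pool.Agent.SPF Pool.Agent.AB Pool.Agent.HX Pool.Agent.CK Pool.Agent.HS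
open Pool.Agent.CL (Form1 Form2 Closed2 IsPrim)

variable {N n : ℕ} {Y : Type} [TopologicalSpace Y] [MeasurableSpace Y]

namespace Coh

variable {B : Base Y N} (Q : Coh B)

theorem rep_list (L : List (Z2 B.toMan)) :
    Q.rep (L.map Q.cl).prod fun i z => (L.map fun β => f2 (β.1 i z)).prod := by
  induction L with
  | nil => exact Q.rep_one
  | cons β L ih => exact Q.rep_mul (Q.rep_cl β) ih

theorem rep_pow {x : Q.H} {Θ : B.ι → E N → Ext N} (h : Q.rep x Θ) (k : ℕ) :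
    Q.rep (x ^ k) (Θ ^ k) := by
  induction k with
  | zero => simpa using Q.rep_one
  | succ k ih => simpa only [pow_succ] using Q.rep_mul ih h

/-- The normalised real integral. -/
noncomputable def J : Q.H →ₗ[ℝ] ℝ :=
  Complex.reLm.comp (((kap N)⁻¹ • Q.I).restrictScalars ℝ)

theorem J_apply (x : Q.H) : Q.J x = ((kap N)⁻¹ * Q.I x).re := rfl

theorem cl_congr {β β' : Z2 B.toMan} {ζ : B.ι → Form1 (E N)} (hζ : G1 B.toMan univ ζ)
    (h : ∀ i, ∀ z ∈ B.W i, ∀ u v, β.1 i z u v = β'.1 i z u v + dform (ζ i) z u v) :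
    Q.cl β = Q.cl β' := by
  rw [← sub_eq_zero, ← map_sub]
  exact Q.ex _ ζ hζ fun i z hz u v =>
    ((Z2.ev i z u v).map_sub β β').trans (sub_eq_of_eq_add' (h i z hz u v))

theorem cl_eq {β β' : Z2 B.toMan} (h : ∀ i, ∀ z ∈ B.W i, ∀ u v, β.1 i z u v = β'.1 i z u v) :
    Q.cl β = Q.cl β' :=
  Q.cl_congr g1_zero fun i z hz u v => by simp [h i z hz u v, dform]

end Coh

theorem Coh.J_pow {B : Base Y (2 * n)} (Q : Coh B) {a : B.ι → E (2 * n) → Mat (2 * n)}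
    (ha : Frm B.toMan a) : Q.J (Q.cl (zf ha) ^ (2 * n)) = ∫ x, B.dens a x ∂B.μ := by
  rw [Q.J_apply, Q.int (Q.rep_pow (Q.rep_cl _) _), Int_dens ha (c := kap (2 * n)) fun i z hz => ?_,
    inv_mul_cancel_left₀ (kap_ne n), Complex.ofReal_re]
  rw [← T_pow, ← f2_e11 ((ha.clo i).herm z hz)]
  rfl

namespace Sy

variable (S : Sy Y n)

/-- The form `Re (c σ)`. -/
noncomputable def zs (c : ℂ) : Z2 S.toMan := ⟨_, g2_s20 S.σ_h2 S.σ_hol c⟩

theorem eqOn {F : Type} [TopologicalSpace F] [T2Space F] {i : S.ι} {f g : E (2 * n) → F}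
    (hf : ContinuousOn f (S.W i)) (hg : ContinuousOn g (S.W i)) (e : EqOn f g (S.O i)) :
    EqOn f g (S.W i) :=
  e.of_subset_closure hf hg (S.sub i) (S.dense i)

variable (Q : Coh S.toBase)

theorem int_zero {x : Q.H} {Θ : S.ι → E (2 * n) → Ext (2 * n)} (h : Q.rep x Θ)
    (h0 : ∀ i, ∀ z ∈ S.O i, T (Θ i z) = 0) : Q.J x = 0 := by
  rw [Q.J_apply, Q.int h, Int_zero fun i => S.eqOn (T_smooth ((Q.gf h).smooth i)).continuousOn
    continuousOn_const (h0 i), mul_zero, Complex.zero_re]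

theorem null (j : ℕ) (L : List (Z2 S.toMan)) (h : L.length < n) :
    Q.J (Q.cl (zf S.η_frm) ^ j * (L.map Q.cl).prod) = 0 ∧
      ∀ c, Q.J (Q.cl (zf S.η_frm) ^ j * (Q.cl (S.zs c) * (L.map Q.cl).prod)) = 0 := by
  have k := fun i z (hz : z ∈ S.O i) => iso_null ((S.η_frm.clo i).herm z (S.sub i hz))
    (S.σ_h2.skew i z (S.sub i hz)) (S.σ_det i z hz) (S.iso i z hz) j (L.map fun β => β.1 i z)
    (by rwa [List.length_map])
  simp only [List.map_map] at k
  refine ⟨S.int_zero Q (Q.rep_mul (Q.rep_pow (Q.rep_cl _) j) (Q.rep_list L)) fun i z hz => ?_,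
    fun c => S.int_zero Q (Q.rep_mul (Q.rep_pow (Q.rep_cl _) j)
      (Q.rep_mul (Q.rep_cl _) (Q.rep_list L))) fun i z hz => ?_⟩
  · rw [← (k i z hz).1, ← f2_e11 ((S.η_frm.clo i).herm z (S.sub i hz))]
    rfl
  · rw [← (k i z hz).2 c, ← f2_e11 ((S.η_frm.clo i).herm z (S.sub i hz))]
    rfl

/-- The Hodge decomposition of a closed real 2-form. -/
theorem split (β : Z2 S.toMan) : ∃ (c : ℂ) (a : S.ι → E (2 * n) → Mat (2 * n))
    (ζ : S.ι → Form1 (E (2 * n))), Frm S.toMan a ∧ G1 S.toMan univ ζ ∧ ∀ i, ∀ z ∈ S.W i, ∀ u v,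
      β.1 i z u v = s20 c (S.σ i z) u v + e11 (a i z) u v + dform (ζ i) z u v := by
  obtain ⟨c, b, h1, h2⟩ := S.hodge _ (h2_p20 β.g2)
  have h3 := g1_r10 h1 1
  let β' : Z2 S.toMan := β - S.zs c - zd h3
  have e : ∀ i z, β'.1 i z = β.1 i z - s20 c (S.σ i z) - dd (r10 1 (b i)) z := fun _ _ => rfl
  have h4 : ∀ i, ∀ z ∈ S.W i, p20 (β'.1 i z) = 0 := fun i z hz => by
    rw [e, p20_sub, p20_sub, h2 i z hz, p20_s20,
      p20_dd (diffAt (S.isOpen i) (h1.smooth i) hz), one_smul]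
    abel
  refine ⟨c, _, _, frm_p11 β'.g2 h4, h3, fun i z hz u v => ?_⟩
  have h5 := congrArg (fun B : Bil (2 * n) => B u v) (BF.split (β'.1 i z))
  rw [h4 i z hz] at h5
  simp only [add_apply, s20_apply, Matrix.zero_mulVec, dotProduct_zero, mul_zero, Complex.zero_re,
    zero_add] at h5
  rw [← h5, e, ← dd_apply]
  simp only [sub_apply]
  ring

/-- The classes of `σ` and of its conjugate. -/
theorem rep_σ : Q.rep (Q.cl (S.zs 1) + Complex.I • Q.cl (S.zs (-Complex.I)))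
    (fun i z => form20 (S.σ i z)) ∧
    Q.rep (Q.cl (S.zs 1) + (-Complex.I) • Q.cl (S.zs (-Complex.I)))
      fun i z => form02 (S.σ i z) := by
  simp only [form20_eq, form02_eq]
  exact ⟨Q.rep_add (Q.rep_cl _) (Q.rep_smul _ (Q.rep_cl _)),
    Q.rep_add (Q.rep_cl _) (Q.rep_smul _ (Q.rep_cl _))⟩

end Sy

end Pool.Agent.BF
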