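import Pool.Agent.P.MP_63735c_ag.BF16
import Pool.Agent.P.MP_63735c_ag.BF15b
import Pool.Agent.P.MP_63735c_ag.BF17

/-! Intersection numbers of curvature forms. -/

open scoped ComplexOrder ContDiff Matrix Topology
open Set Metric MeasureTheory Filter

namespace Pool.Agent.BF

open Pool.Agent.SPF Pool.Agent.AB Pool.Agent.HX Pool.Agent.CK Pool.Agent.HS
open Pool.Agent.CL (Form1 Form2 Closed2 IsPrim)

variable {N : ℕ} {Y : Type} [TopologicalSpace Y]

variable [MeasurableSpace Y] [CompactSpace Y] [T2Space Y] [BorelSpace Y] {B : Base Y N}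

theorem int_lat (Q : Coh B) : ∃ c : ℂ, ∀ L : List (Z2 B.toMan), L.length = N →
    (∀ β ∈ L, β ∈ Lat B.toMan) → ∃ k : ℤ, Q.I (L.map Q.cl).prod = k * c := by
  obtain ⟨ψ, hψ, h1⟩ := exists_ps
  obtain ⟨c, hc⟩ := box_int (N := N) hψ h1
  refine ⟨c, fun L hL hΛ => ?_⟩
  obtain ⟨β, rfl⟩ : ∃ β : Fin N → Z2 B.toMan, L = List.ofFn β :=
    ⟨fun j => L[j.1]'(j.2.trans_eq hL.symm), List.ext_getElem (by simp [hL]) (by simp)⟩
  have C : ∀ j, Conn B.toMan (β j).1 := fun j => (hΛ (β j) (List.mem_ofFn.2 ⟨j, rfl⟩)).some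
  obtain ⟨t, m, i, a, O, ε, ht, hb, hd, hx⟩ := exists_loc C B.cover
  choose γ μ hγ hμ hT using fun j => (ht j).thom hψ h1
  let ν : Fin N → Z2 B.toMan := fun j => β j + zd (hγ j)
  have h0 : ∀ j b k, ∀ z ∈ B.W k, B.p k z ∈ (C j).U b → 1 < ‖t j b (B.p k z)‖ →
      (ν j).1 k z = 0 := fun j b k z hz hU h => by
    ext u v
    have h2 := hT j b k z hz hU
    refine (h2.1 u v).trans ?_
    rw [← dd_apply, ← dd_apply, (h2.2 h).2.1, (h2.2 h).2.2]
    simp
  have h2 : (List.ofFn β).map Q.cl = (List.ofFn ν).map Q.cl := by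
    rw [List.map_ofFn, List.map_ofFn]
    exact congrArg _ (funext fun j => (Q.cl_congr (hγ j) fun _ _ _ _ _ => rfl).symm)
  rw [h2, Q.int (Q.rep_list _), Int_loc (Q.gf (Q.rep_list _))
    (fun q => ⟨(hb q).1.isOpen, (hb q).2.1⟩) hd fun k z hz hq => ?_]
  · refine ⟨∑ q, ε q, ?_⟩
    rw [Int.cast_sum, Finset.sum_mul]
    refine Finset.sum_congr rfl fun q _ => ?_
    obtain ⟨b1, b2, b3⟩ := hb q
    rw [← hc _ _ _ b1]
    simp only [List.map_ofFn, Function.comp_def]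
    refine tel (μ := fun j => μ j (a q j) (i q))
      (Z := fun j => {z | ‖t j (a q j) (B.p (i q) z)‖ ≤ 1}) b1.isOpen b1.cpt inter_subset_left
      (fun j => ?_) (fun j => dd_closed b1.isOpen ?_)
      (fun j => ((hμ j _).smooth _).mono fun z hz => ⟨b2 hz, b3 z hz j⟩)
      (fun j z hz => (hT j _ _ z (b2 hz) (b3 z hz j)).1) (fun j z hz h => ?_) fun z hz h =>
        ⟨hz, mem_closedBall_zero_iff.2 ((pi_norm_le_iff_of_nonneg zero_le_one).2 h)⟩
    · have h3 := (ν j).g2.closed (i q)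
      exact ⟨h3.1.mono b2, fun z hz => h3.2.1 z (b2 hz), fun z hz => h3.2.2 z (b2 hz)⟩
    · have h3 := contDiffOn_pi.1 b1.smooth j
      exact ((mf_smooth hψ).comp_contDiffOn h3).clm_comp
        (h3.fderiv_of_isOpen b1.isOpen (by simp))
    · have h3 := (hT j _ _ z (b2 hz) (b3 z hz j)).2 (not_le.1 h)
      exact ⟨h0 j _ _ z (b2 hz) (b3 z hz j) (not_le.1 h), h3.2.2, h3.1⟩
  · by_contra h
    refine (hx _ fun j b hU => not_lt.1 fun h3 => h ?_).elim hq
    rw [List.prod_eq_zero, map_zero]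
    exact List.mem_map.2 ⟨ν j, List.mem_ofFn.2 ⟨j, rfl⟩, by rw [h0 j b k z hz hU h3, f2_zero]⟩

end Pool.Agent.BF
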