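import Pool.Agent.P.MP_63735c_ag.BF17

/-! The volume of `η + t K`. -/

open scoped ComplexOrder ContDiff Matrix Topology
open Set Metric MeasureTheory Filter

namespace Pool.Agent.BF

open Pool.Agent.SPF Pool.Agent.AB Pool.Agent.HX Pool.Agent.CK Pool.Agent.HS
open Pool.Agent.CL (Form1 Form2 Closed2 IsPrim)

variable {N n : ℕ} {Y : Type} [TopologicalSpace Y] [MeasurableSpace Y]

theorem Coh.ex20 {B : Base Y N} (Q : Coh B) {β : B.ι → E N → E N} (h : H1 B.toMan β) :
    ∃ (X : B.ι → E N → Ext N) (m : B.ι → E N → Mat N), Q.rep 0 X ∧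
      ∀ i, ∀ z ∈ B.W i, X i z = form20 (del (β i) z) + form11 (m i z) := by
  have h0 := fun c => Q.ex (zd (g1_r10 h c)) _ (g1_r10 h c) fun _ _ _ _ _ => rfl
  have h1 := Q.rep_add (Q.rep_cl (zd (g1_r10 h 1)))
    (Q.rep_smul Complex.I (Q.rep_cl (zd (g1_r10 h (-Complex.I)))))
  rw [h0, h0, smul_zero, add_zero] at h1
  refine ⟨_, fun i z => p11 (dd (r10 1 (β i)) z) + Complex.I • p11 (dd (r10 (-Complex.I) (β i)) z),
    h1, fun i z hz => ?_⟩
  have h2 : ∀ c, f2 (dd (r10 c (β i)) z) =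
      f2 (s20 c (del (β i) z)) + form11 (p11 (dd (r10 c (β i)) z)) := fun c => by
    rw [← f2_e11 (p11_herm (((g2_dd (g1_r10 h c)).closed i).2.1 z hz)), ← f2_add, ← one_mul c,
      ← s20_smul, one_mul, ← p20_dd (diffAt (B.isOpen i) (h.smooth i) hz), ← split]
  change f2 (dd (r10 1 (β i)) z) + Complex.I • f2 (dd (r10 (-Complex.I) (β i)) z) = _
  rw [h2, h2, form20_eq, form11_add, form11_smul, smul_add]
  abel

namespace Sy

variable (S : Sy Y n)

theorem mix_frm (t : ℝ) : Frm S.toMan fun i z => S.η i z + (t : ℂ) • S.K i z :=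
  hn_add S.η_frm (hn_smul S.K_frm t)

/-- The volume of `η + t K`. -/
noncomputable def vol (t : ℝ) : ℝ :=
  ∫ x, S.toBase.dens (fun i z => S.η i z + (t : ℂ) • S.K i z) x ∂S.μ

theorem gam_eq {i : S.ι} {z : E (2 * n)} (hz : z ∈ S.O i) (t : ℝ) :
    (S.η i z + (t : ℂ) • S.K i z) * (S.σ i z)⁻¹.map star * (S.η i z + (t : ℂ) • S.K i z)ᵀ =
      (t : ℂ) • S.γ₁ i z + (t : ℂ) ^ 2 • S.γ₂ i z := by
  have h0 := (S.η_frm.clo i).herm z (S.sub i hz)
  have h1 : ∀ P Q : Mat (2 * n), (P * Q).map star = P.map star * Q.map star :=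
    fun P Q => Matrix.map_mul (f := starRingEnd ℂ)
  have h2 := congrArg (fun M : Mat (2 * n) => M.map star) (S.iso i z hz)
  have h3 : (S.η i z).map star = (S.η i z)ᵀ := congrArg Matrix.transpose h0
  simp only [h1, Matrix.map_zero _ (star_zero ℂ)] at h2
  rw [h3, show (S.η i z)ᵀ.map star = S.η i z from h0] at h2
  rw [S.γ₁_eq i z hz, S.γ₂_eq i z hz]
  simp only [Matrix.transpose_add, Matrix.transpose_smul, Matrix.add_mul, Matrix.mul_add,
    Matrix.smul_mul, Matrix.mul_smul, h2]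
  module

theorem vol_eq (Q : Coh S.toBase) :
    ∃ C z w : ℂ, ∀ t : ℝ, (S.vol t : ℂ) = C * (z * t + w * t ^ 2) ^ n := by
  obtain ⟨C, hC, h⟩ := exists_c3 n
  obtain ⟨c₁, β₁, a1, a2⟩ := S.hodge _ S.γ₁_h2
  obtain ⟨c₂, β₂, b1, b2⟩ := S.hodge _ S.γ₂_h2
  obtain ⟨X₁, m₁, a3, a4⟩ := Q.ex20 a1
  obtain ⟨X₂, m₂, b3, b4⟩ := Q.ex20 b1
  obtain ⟨s1, s2⟩ := S.rep_σ Q
  generalize Q.cl (S.zs 1) + Complex.I • Q.cl (S.zs (-Complex.I)) = x at s1
  generalize Q.cl (S.zs 1) + (-Complex.I) • Q.cl (S.zs (-Complex.I)) = y at s2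
  refine ⟨C⁻¹ * Q.I (x ^ n * y ^ n), c₁, c₂, fun t => ?_⟩
  have r := Q.rep_mul (Q.rep_pow (Q.rep_add (Q.rep_smul (c₁ * t + c₂ * t ^ 2) s1)
    (Q.rep_add (Q.rep_smul t a3) (Q.rep_smul (t ^ 2) b3))) n) (Q.rep_pow s2 n)
  have e := Q.int r
  rw [smul_zero, smul_zero, add_zero, add_zero, smul_pow, smul_mul_assoc, map_smul,
    Int_dens (S.mix_frm t) (c := C) fun i => S.eqOn
      (T_smooth ((Q.gf r).smooth i)).continuousOn
      (continuousOn_const.mul (continuous_id.matrix_det.comp_continuousOn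
        (hn_contOn (S.mix_frm t) i))) fun z hz => ?_] at e
  · rw [mul_assoc, mul_comm (Q.I _), ← smul_eq_mul (_ ^ n), e, inv_mul_cancel_left₀ hC]
    rfl
  · have hw := S.sub i hz
    have e1 : (c₁ * t + c₂ * t ^ 2) • form20 (S.σ i z) +
        ((t : ℂ) • X₁ i z + (t : ℂ) ^ 2 • X₂ i z) =
        form20 ((t : ℂ) • S.γ₁ i z + (t : ℂ) ^ 2 • S.γ₂ i z) +
          form11 ((t : ℂ) • m₁ i z + (t : ℂ) ^ 2 • m₂ i z) := by
      simp only [a4 i z hw, b4 i z hw, a2 i z hw, b2 i z hw, form20_add, form20_smul, form11_add,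
        form11_smul]
      module
    change T (((c₁ * t + c₂ * t ^ 2) • form20 (S.σ i z) +
      ((t : ℂ) • X₁ i z + (t : ℂ) ^ 2 • X₂ i z)) ^ n * form02 (S.σ i z) ^ n) = _
    rw [e1, type_pow, ← S.gam_eq hz, h _ _ (S.σ_h2.skew i z hw) (S.σ_det i z hz)]

theorem dens_le {a b : S.ι → E (2 * n) → Mat (2 * n)} (ha : Frm S.toMan a) (hb : Frm S.toMan b)
    {r s : ℝ} (h : ∀ i, ∀ z ∈ S.O i, r * (a i z).det.re ≤ s * (b i z).det.re) (x : Y) :
    r * S.toBase.dens a x ≤ s * S.toBase.dens b x := by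
  obtain ⟨i, z, hz, rfl⟩ := hn_chart S.toBase x
  have c := fun {a} (ha : Frm S.toMan a) (r : ℝ) => (continuousOn_const (c := r)).mul
    ((Complex.continuous_re.comp continuous_id.matrix_det).comp_continuousOn (hn_contOn ha i))
  rw [hn_dens ha.cpt hz, hn_dens hb.cpt hz, ← mul_div_assoc, ← mul_div_assoc]
  refine div_le_div_of_nonneg_right ?_ (wt_pos _ _).le
  have n := (S.isOpen i).mem_nhds hz
  exact ContinuousWithinAt.closure_le (S.dense i hz) ((c ha r).continuousAt n).continuousWithinAt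
    ((c hb s).continuousAt n).continuousWithinAt (h i)

variable [CompactSpace Y] [T2Space Y] [BorelSpace Y]

theorem int_lt {f g : Y → ℝ} (hf : Continuous f) (hg : Continuous g) (h : ∀ x, f x ≤ g x) {x : Y}
    (hx : f x ≠ g x) : ∫ x, f x ∂S.μ < ∫ x, g x ∂S.μ := by
  have := base_fin S.toBase
  have := base_pos S.toBase
  have i := fun {f : Y → ℝ} (hf : Continuous f) =>
    hf.integrable_of_hasCompactSupport (μ := S.μ) (HasCompactSupport.of_compactSpace _)
  rw [← sub_pos, ← integral_sub (i hg) (i hf)]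
  exact (hg.sub hf).integral_pos_of_hasCompactSupport_nonneg_nonzero (x := x)
    (HasCompactSupport.of_compactSpace _) (fun x => sub_nonneg.2 (h x)) (sub_ne_zero.2 hx.symm)

theorem low (Q : Coh S.toBase) : ∃ c > (0 : ℝ), ∀ t, 0 < t → t ≤ 1 → c * t ^ n ≤ S.vol t := by
  obtain ⟨C, z, w, h⟩ := S.vol_eq Q
  obtain ⟨i, y, hy, h0⟩ := S.η_ne
  have c := fun t => hn_dens_cont (B := S.toBase) (S.mix_frm t)
  have e := fun t => hn_dens (B := S.toBase) (S.mix_frm t).cpt (S.sub i hy)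
  refine low_num S.n_pos h (fun t ht => ?_) ?_
  · have p : ∀ j, ∀ u ∈ S.O j, 0 < (S.η j u + (t : ℂ) • S.K j u).det.re := fun j u hu =>
      (hn_det (Matrix.PosDef.posSemidef_add (S.η_psd j u (S.sub j hu))
        ((S.K_pos j u hu).smul (by exact_mod_cast ht)))).1
    have := S.int_lt (x := S.p i y) continuous_const (c t) (fun x => by
      simpa using S.dens_le (S.mix_frm t) (S.mix_frm t) (r := 0) (s := 1)
        (fun j u hu => by simpa using (p j u hu).le) x)
      (by rw [e]; exact (div_pos (p i y hy) (wt_pos _ _)).ne)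
    rwa [integral_zero] at this
  · have := S.int_lt (x := S.p i y) (c 2) (continuous_const.mul (c 1)) (fun x => by
      simpa using S.dens_le (S.mix_frm 2) (S.mix_frm 1) (r := 1) (s := 2 ^ (2 * n))
        (fun j u hu => by
          simpa using (rk_two (S.K_pos j u hu) (S.η_psd j u (S.sub j hu))).1) x)
      (fun h1 => h0 ((rk_two (S.K_pos i y hy) (S.η_psd i y (S.sub i hy))).2 (by
        rw [Pi.mul_apply, e, e, ← mul_div_assoc, div_left_inj' (wt_pos _ _).ne'] at h1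
        exact h1.ge)))
    simpa only [Pi.mul_apply, integral_const_mul, vol] using this

theorem rank (Q : Coh S.toBase) : ∃ i, ∃ z ∈ S.O i, n ≤ (S.η i z).rank := by
  by_contra! h
  obtain ⟨c, hc, h1⟩ := S.low Q
  have := base_fin S.toBase
  have i := fun t => (hn_dens_cont (B := S.toBase) (S.mix_frm t)).integrable_of_hasCompactSupport
    (μ := S.μ) (HasCompactSupport.of_compactSpace _)
  have h2 : ∀ t, 0 < t → t ≤ 1 → c ≤ t * S.vol 1 := fun t t0 t1 => by
    have h3 := integral_mono (i t) ((i 1).const_mul (t ^ (n + 1))) fun x => by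
      simpa using S.dens_le (S.mix_frm t) (S.mix_frm 1) (r := 1) (s := t ^ (n + 1))
        (fun j u hu => by simpa using (rk_le rfl (S.K_pos j u hu) (S.η_psd j u (S.sub j hu))
          (h j u hu) t0 t1).2) x
    rw [integral_const_mul] at h3
    refine le_of_mul_le_mul_right (((h1 t t0 t1).trans h3).trans_eq ?_) (pow_pos t0 n)
    rw [vol]
    ring
  have h4 : Tendsto (fun t : ℝ => t * S.vol 1) (𝓝[>] 0) (𝓝 (0 * S.vol 1)) :=
    (tendsto_id.mul_const _).mono_left nhdsWithin_le_nhds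
  rw [zero_mul] at h4
  refine hc.not_ge (ge_of_tendsto h4 ?_)
  filter_upwards [Ioc_mem_nhdsGT one_pos] with t ht using h2 t ht.1 ht.2

end Sy

end Pool.Agent.BF
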