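import Pool.Agent.P.MP_63735c_ag.BF16b
import Pool.Agent.P.MP_63735c_ag.BF12b

/-! Integral classes orthogonal to the power of `η`. -/

open scoped ComplexOrder ContDiff Matrix Topology
open Set Metric MeasureTheory Filter

namespace Pool.Agent.BF

open Pool.Agent.SPF Pool.Agent.AB Pool.Agent.HX Pool.Agent.CK Pool.Agent.HS
open Pool.Agent.CL (Form1 Form2 Closed2 IsPrim)

variable {N n : ℕ} {Y : Type} [TopologicalSpace Y]

section
variable {D : Man Y N}

/-- The exact forms. -/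
def B2 (D : Man Y N) : Submodule ℝ (Z2 D) where
  carrier := {β | ∃ ζ, G1 D univ ζ ∧ ∀ i, ∀ z ∈ D.W i, ∀ u v, β.1 i z u v = dform (ζ i) z u v}
  zero_mem' := ⟨0, g1_zero, fun i z _ u v => by simp [dform]; rfl⟩
  add_mem' := by
    rintro a b ⟨ζ, h1, h2⟩ ⟨ξ, h3, h4⟩
    refine ⟨ζ + ξ, h1.add h3, fun i z hz u v => ?_⟩
    rw [Pi.add_apply, (dform_add ((h1.at isOpen_univ hz trivial).differentiableAt (by simp))
      ((h3.at isOpen_univ hz trivial).differentiableAt (by simp)) u v).1, ← h2 i z hz, ← h4 i z hz]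
    rfl
  smul_mem' := by
    rintro r a ⟨ζ, h1, h2⟩
    refine ⟨r • ζ, h1.smul (θ := fun _ => r) fun _ _ _ _ => contDiffAt_const, fun i z hz u v => ?_⟩
    rw [Pi.smul_apply, dform_smul ((h1.at isOpen_univ hz trivial).differentiableAt (by simp)),
      ← h2 i z hz]
    rfl

theorem b2_lat {β : Z2 D} (h : β ∈ B2 D) : β ∈ Lat D := by
  obtain ⟨ζ, h1, h2⟩ := h
  exact conn_ex conn_zero h1 fun i z hz u v => by simp [h2 i z hz]

theorem frm_sum {m : ℕ} {a : Fin m → D.ι → E N → Mat N} (ha : ∀ l, Frm D (a l)) (t : Fin m → ℝ) :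
    Frm D fun i z => ∑ l, (t l : ℂ) • a l i z := by
  induction m with
  | zero => exact ⟨fun _ => ⟨fun _ _ => contDiffOn_const, fun _ _ => Matrix.isHermitian_zero,
      fun _ _ b c e => (dz_const e 0).1.trans (dz_const b 0).1.symm⟩, fun _ _ _ _ _ _ => by simp⟩
  | succ m ih =>
    simp only [Fin.sum_univ_succ]
    exact hn_add (hn_smul (ha 0) _) (ih (fun l => ha l.succ) fun l => t l.succ)

theorem z2_ext {β β' : Z2 D} (h : ∀ i z u v, β.1 i z u v = β'.1 i z u v) : β = β' :=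
  Subtype.ext (funext fun i => funext fun z => ContinuousLinearMap.ext fun u =>
    ContinuousLinearMap.ext (h i z u))

theorem zf_add {a b : D.ι → E N → Mat N} (ha : Frm D a) (hb : Frm D b) :
    zf (hn_add ha hb) = zf ha + zf hb :=
  z2_ext fun i z u v => by
    change ev11 (a i z + b i z) u v = ev11 (a i z) u v + ev11 (b i z) u v
    simp only [ev11, Matrix.add_mulVec, dotProduct_add, Complex.add_im, mul_add]

theorem zf_smul {a : D.ι → E N → Mat N} (ha : Frm D a) (r : ℝ) : zf (hn_smul ha r) = r • zf ha :=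
  z2_ext fun i z u v => by
    change ev11 ((r : ℂ) • a i z) u v = r * ev11 (a i z) u v
    simp only [ev11, Matrix.smul_mulVec, dotProduct_smul, smul_eq_mul, Complex.im_ofReal_mul]
    ring

theorem zf_sum {m : ℕ} {a : Fin m → D.ι → E N → Mat N} (ha : ∀ l, Frm D (a l)) (t : Fin m → ℝ) :
    zf (frm_sum ha t) = ∑ l, t l • zf (ha l) :=
  z2_ext fun i z u v => by
    rw [← Z2.ev_apply, ← Z2.ev_apply, map_sum]
    change ev11 (∑ l, (t l : ℂ) • a l i z) u v = ∑ l, t l * ev11 (a l i z) u v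
    simp only [ev11, Matrix.sum_mulVec, dotProduct_sum, Complex.im_sum, Matrix.smul_mulVec,
      dotProduct_smul, smul_eq_mul, Complex.im_ofReal_mul, Finset.mul_sum, mul_left_comm]

end

variable [MeasurableSpace Y]

theorem Coh.cl_b2 {B : Base Y N} (Q : Coh B) {β : Z2 B.toMan} (h : β ∈ B2 B.toMan) :
    Q.cl β = 0 :=
  h.elim fun ζ h => Q.ex β ζ h.1 h.2

namespace Sy

variable (S : Sy Y n)

theorem zs_sum {m : ℕ} (c : Fin m → ℂ) (t : Fin m → ℝ) (e : ℂ) :
    S.zs (∑ l, t l * c l - e) = ∑ l, t l • S.zs (c l) - S.zs e :=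
  z2_ext fun i z u v => by
    rw [← Z2.ev_apply, ← Z2.ev_apply, map_sub, map_sum]
    change ((∑ l, t l * c l - e) * _).re = ∑ l, t l * (c l * _).re - (e * _).re
    simp only [sub_mul, Finset.sum_mul, Complex.sub_re, Complex.re_sum, mul_assoc,
      Complex.re_ofReal_mul]

variable [CompactSpace Y] [T2Space Y] [BorelSpace Y] (Q : Coh S.toBase)

include Q in
theorem dir {c : ℂ} {a : S.ι → E (2 * n) → Mat (2 * n)} (ha : Frm S.toMan a)
    (h : S.zs c + zf ha ∈ B2 S.toMan) : c = 0 := by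
  obtain ⟨C, hC, h5⟩ := exists_c5 n
  obtain ⟨s1, s2⟩ := S.rep_σ Q
  have r1 := Q.rep_mul (Q.rep_cl (S.zs c + zf ha))
    (Q.rep_mul (Q.rep_pow s1 (n - 1)) (Q.rep_pow s2 n))
  have r2 := Q.rep_mul (Q.rep_pow s1 n) (Q.rep_pow s2 n)
  have e1 := Q.int r1
  have e2 := Q.int (Q.rep_smul (c / 2) r2)
  rw [Q.cl_b2 h, zero_mul, map_zero] at e1
  replace e1 := e1.trans (Int_congr (Ξ := (c / 2) • ((fun i z => form20 (S.σ i z)) ^ n *
    (fun i z => form02 (S.σ i z)) ^ n)) fun i z hz => congrArg T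
      (type_dir S.n_pos c (S.σ i z) ((ha.clo i).herm z hz)))
  rw [map_smul, Q.int r2] at e2
  obtain ⟨i, z, hz, -⟩ := S.η_ne
  have h6 := Int_ne (Q.gf r2) hC (f := fun i z => ‖(S.σ i z).det‖)
    (fun i z hz => ⟨h5 _ (S.σ_h2.skew i z hz), norm_nonneg _⟩)
    ⟨i, z, S.sub i hz, norm_ne_zero_iff.2 (S.σ_det i z hz)⟩
  simpa using (mul_eq_zero.1 (e2.trans e1.symm)).resolve_right h6

theorem lat : ∃ (m : ℕ) (c : Fin m → ℂ) (a : Fin m → S.ι → E (2 * n) → Mat (2 * n))
    (ha : ∀ j, Frm S.toMan (a j)),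
    (∀ j, Nonempty (Conn S.toMan fun i z => s20 (c j) (S.σ i z) + e11 (a j i z))) ∧
    (∀ j, Perp Q.cl Q.J (Q.cl (zf S.η_frm) ^ n) (n - 1) (zf (ha j))) ∧
    ∀ c₀ : ℂ, ∃ r : Fin m → ℝ, ∑ j, (r j : ℂ) * c j = c₀ ∧
      ∀ i z, ∑ j, (r j : ℂ) • a j i z = 0 := by
  have hn := S.n_pos
  obtain ⟨k, hk⟩ := int_lat Q
  have hs : ∀ c, Perp Q.cl Q.J (Q.cl (zf S.η_frm) ^ n) (n - 1) (S.zs c) := fun c L h =>
    (S.null Q n L (by omega)).2 c
  obtain ⟨m, v, t₁, t₂, h1, h2, h3⟩ := rat Q.cl Q.J _ (n - 1) (Lat S.toMan) (span_lat S.cover)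
    (c := (2 * Real.pi) ^ n * ((kap (2 * n))⁻¹ * k).re) (fun x hx L h hL => by
      obtain ⟨z, hz⟩ := hk (List.replicate n ((1 / (2 * Real.pi)) • zf S.η_frm) ++ x :: L)
        (by simp; omega) fun β hβ => by
          rcases List.mem_append.1 hβ with h4 | h4
          · rw [List.eq_of_mem_replicate h4]
            exact S.conn
          · rcases List.mem_cons.1 h4 with rfl | h4
            exacts [hx, hL β h4]
      refine ⟨z, ?_⟩
      have e := congrArg (fun y => ((kap (2 * n))⁻¹ * y).re) hz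
      have e' : ((kap (2 * n))⁻¹ * (z * k)).re = z * ((kap (2 * n))⁻¹ * k).re := by
        rw [mul_left_comm, ← Complex.ofReal_intCast, Complex.re_ofReal_mul]
      simp only [List.map_append, List.map_replicate, List.map_cons, List.prod_append,
        List.prod_replicate, List.prod_cons, map_smul, smul_pow, smul_mul_assoc, ← Q.J_apply,
        smul_eq_mul, e'] at e
      rw [mul_left_comm (z : ℝ), ← e, ← mul_assoc (_ ^ n : ℝ), ← mul_pow, mul_one_div_cancel (by positivity), one_pow,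
        one_mul]) (hs 1) (hs Complex.I)
  choose c a ζ a1 a2 a3 using fun l => S.split (v l)
  have b1 : ∀ l, v l - S.zs (c l) - zf (a1 l) ∈ B2 S.toMan := fun l =>
    ⟨ζ l, a2 l, fun i z hz u w => by
      change (v l).1 i z u w - s20 (c l) (S.σ i z) u w - e11 (a l i z) u w = _
      rw [a3 l i z hz]
      ring⟩
  have b2 : ∀ (e : ℂ) (t : Fin m → ℝ), S.zs e = ∑ l, t l • v l →
      ∑ l, (t l : ℂ) * c l = e ∧ zf (frm_sum a1 t) ∈ B2 S.toMan := fun e t h => by
    have b3 : S.zs (∑ l, t l * c l - e) + zf (frm_sum a1 t) ∈ B2 S.toMan := by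
      have b4 := neg_mem (Submodule.sum_mem _ fun l (_ : l ∈ Finset.univ) =>
        Submodule.smul_mem _ (t l) (b1 l))
      rw [zs_sum, zf_sum a1, h]
      simp only [smul_sub, Finset.sum_sub_distrib] at b4
      exact mem_of_eq_of_mem (by abel) b4
    have b5 := S.dir Q _ b3
    refine ⟨sub_eq_zero.1 b5, ?_⟩
    rwa [b5, show S.zs 0 = 0 from z2_ext fun _ _ _ _ => by simp [zs]; rfl, zero_add] at b3
  obtain ⟨c1, c2⟩ := b2 _ _ h2
  obtain ⟨d1, d2⟩ := b2 _ _ h3
  have f := fun l => hn_add (a1 l) (hn_add (hn_smul (frm_sum a1 t₁) (-(c l).re))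
    (hn_smul (frm_sum a1 t₂) (-(c l).im)))
  have g : ∀ l, S.zs (c l) + zf (f l) - v l ∈ B2 S.toMan := fun l => by
    rw [zf_add (a1 l) (hn_add (hn_smul (frm_sum a1 t₁) _) (hn_smul (frm_sum a1 t₂) _)),
      zf_add (hn_smul (frm_sum a1 t₁) _) (hn_smul (frm_sum a1 t₂) _), zf_smul (frm_sum a1 t₁),
      zf_smul (frm_sum a1 t₂)]
    exact mem_of_eq_of_mem (by abel) (sub_mem (add_mem (Submodule.smul_mem _ (-(c l).re) c2)
      (Submodule.smul_mem _ (-(c l).im) d2)) (b1 l))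
  refine ⟨m, c, _, f, fun l => ?_, fun l L hL => ?_, fun e => ⟨fun l => e.re * t₁ l + e.im * t₂ l,
    ?_, fun i z => ?_⟩⟩
  · have := add_mem (b2_lat (g l)) (h1 l).1
    rwa [sub_add_cancel] at this
  · have e := Q.cl_b2 (g l)
    rw [map_sub, map_add, sub_eq_zero, ← eq_sub_iff_add_eq'] at e
    rw [e, sub_mul, mul_sub, map_sub, (h1 l).2 L hL, hs _ L hL, sub_zero]
  · simp only [Complex.ofReal_add, Complex.ofReal_mul, add_mul, mul_assoc, Finset.sum_add_distrib,
      ← Finset.mul_sum, c1, d1, mul_one, Complex.re_add_im]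
  · have re : ∀ (t : Fin m → ℝ) (e : ℂ), ∑ l, (t l : ℂ) * c l = e →
        ∑ l, (t l : ℂ) * (c l).re = e.re ∧ ∑ l, (t l : ℂ) * (c l).im = e.im := by
      rintro t _ rfl
      simp
    obtain ⟨p1, p2⟩ := re _ _ c1
    obtain ⟨q1, q2⟩ := re _ _ d1
    have r1 : ∑ l, ((e.re * t₁ l + e.im * t₂ l : ℝ) : ℂ) * (c l).re = e.re := by
      simp [add_mul, mul_assoc, Finset.sum_add_distrib, ← Finset.mul_sum, p1, q1]
    have r2 : ∑ l, ((e.re * t₁ l + e.im * t₂ l : ℝ) : ℂ) * (c l).im = e.im := by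
      simp [add_mul, mul_assoc, Finset.sum_add_distrib, ← Finset.mul_sum, p2, q2]
    simp only [smul_add, Complex.ofReal_neg, Finset.sum_add_distrib, smul_smul, ← Finset.sum_smul,
      mul_neg, Finset.sum_neg_distrib, r1, r2]
    simp only [Complex.ofReal_add, Complex.ofReal_mul, add_smul, mul_smul, Finset.sum_add_distrib,
      ← Finset.smul_sum, neg_smul]
    abel

end Sy

end Pool.Agent.BF
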