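import Pool.Agent.P.MP_63735c_ag.HXN3

/-! The index defect. -/

open scoped ComplexOrder ContDiff Matrix Topology ENNReal
open Set Metric MeasureTheory Filter

namespace Pool.Agent.HX

open Pool.Agent.SPF Pool.Agent.AB

variable {N : ℕ}

section
variable {Y : Type} [TopologicalSpace Y] [MeasurableSpace Y] [BorelSpace Y]
  {B : Base Y N} {a K K' : B.ι → E N → Mat N} {M : ℝ}

theorem hn_bd (N : ℕ) (M : ℝ) : ∃ C : ℝ, ∀ {Y : Type} [TopologicalSpace Y] [MeasurableSpace Y]
    [BorelSpace Y] {B : Base Y N} {a K : B.ι → E N → Mat N} (hK : Kf B.toMan K), Frm B.toMan a →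
    (∀ i, ∀ z ∈ B.W i, Dom (K i z) (a i z) M) → ∀ x, |((B.kd hK).tr a x).re| ≤ C ∧
      |(B.kd hK).bb a x| ≤ C ∧ ∀ s : ℝ, |s| ≤ 1 → |B.dens (fun i z => K i z + (s : ℂ) • a i z) x -
        (B.dens K x + s * (((B.kd hK).tr a x).re * B.dens K x) +
          s ^ 2 / 2 * ((B.kd hK).bb a x * B.dens K x))| ≤ C * |s| ^ 3 * B.dens K x := by
  obtain ⟨C, -, H⟩ := hn_exp N M
  refine ⟨C, fun {Y} _ _ _ {B a K} hK ha h x => ?_⟩
  obtain ⟨i, z, hz, rfl⟩ := hn_chart B x
  obtain ⟨a1, a2, a3⟩ := H _ _ ((hK.kah i).pos z hz) ((ha.clo i).herm z hz) (h i z hz)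
  rw [(hn_kd_tr hK ha.cpt hz).1, (hn_kd_tr hK ha.cpt hz).2]
  refine ⟨a1, a2, fun s hs => ?_⟩
  have p := wt_pos (B.Ψ i) z
  rw [hn_dens (hn_add (hn_frm hK) (hn_smul ha s)).cpt hz, hn_dens hK.cpt hz]
  refine le_trans (le_of_eq ?_) ((div_le_div_of_nonneg_right (a3 s hs) p.le).trans_eq (by ring))
  rw [← abs_of_pos p, ← abs_div, abs_of_pos p]
  congr 1
  ring

theorem hn_zero (hK : Kf B.toMan K) (ha : Frm B.toMan a)
    (h : ∀ i, ∀ z ∈ B.W i, Dom (K i z) (a i z) M)
    (hi : ∀ s : ℝ, Integrable (B.dens fun i z => K i z + (s : ℂ) • a i z) B.μ) :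
    ∃ D : ℝ, ∀ s : ℝ, |s| ≤ 1 → |∫ x, B.dens (fun i z => K i z + (s : ℂ) • a i z) x ∂B.μ -
      (∫ x, B.dens K x ∂B.μ + s * ∫ x, ((B.kd hK).tr a x).re * B.dens K x ∂B.μ +
        s ^ 2 / 2 * ∫ x, (B.kd hK).bb a x * B.dens K x ∂B.μ)| ≤ D * |s| ^ 3 := by
  obtain ⟨C, H⟩ := hn_bd N M
  have i0 : Integrable (B.dens K) B.μ := by simpa using hi 0
  obtain ⟨c1, c2⟩ := hn_tr_cont (D := B.kd hK) ha
  have i1 : Integrable (fun x => ((B.kd hK).tr a x).re * B.dens K x) B.μ :=
    i0.bdd_mul (Complex.continuous_re.comp c1).aestronglyMeasurable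
      (Eventually.of_forall fun x => (H hK ha h x).1)
  have i2 := i0.bdd_mul c2.aestronglyMeasurable (Eventually.of_forall fun x => (H hK ha h x).2.1)
  refine ⟨C * ∫ x, B.dens K x ∂B.μ, fun s hs => ?_⟩
  have e := norm_integral_le_of_norm_le (i0.const_mul (C * |s| ^ 3))
    (Eventually.of_forall fun x => (Real.norm_eq_abs _).trans_le ((H hK ha h x).2.2 s hs))
  rw [integral_sub (hi s) ((i0.fun_add (i1.const_mul s)).fun_add (i2.const_mul _)),
    integral_add (i0.fun_add (i1.const_mul s)) (i2.const_mul _), integral_add i0 (i1.const_mul s),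
    integral_const_mul, integral_const_mul, integral_const_mul] at e
  exact e.trans_eq (by ring)

theorem hn_lim (hK : Kf B.toMan K) (hK' : Kf B.toMan K') (ha : Frm B.toMan a) (hM : 0 ≤ M)
    (h : ∀ i, ∀ z ∈ B.W i, Dom (K i z) (a i z) M) {c : ℝ}
    (hc : ∀ i, ∀ z ∈ B.W i, Le (K i z) (K' i z) c) (hi : Integrable (B.dens K') B.μ) {r : ℕ → ℝ}
    (h0 : ∀ k, 0 ≤ r k) (h1 : ∀ k, r k ≤ 1) (hr : Tendsto r atTop (𝓝 0))
    (hk : ∀ k, Kf B.toMan fun i z => K i z + (r k : ℂ) • K' i z) :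
    (∀ k, Integrable (B.dens fun i z => K i z + (r k : ℂ) • K' i z) B.μ) ∧
      (∀ k i, ∀ z ∈ B.W i, Dom (K i z + (r k : ℂ) • K' i z) (a i z) M) ∧
      Tendsto (fun k => (B.kd (hk k)).QQ a) atTop (𝓝 ((B.kd hK).QQ a)) := by
  obtain ⟨C, H⟩ := hn_bd N M
  have k0 := fun i z hz v => hq_nonneg ((hK'.kah i).pos z hz).posSemidef v
  have d1 : ∀ k x, B.dens (fun i z => K i z + (r k : ℂ) • K' i z) x ≤
      (c + 1) ^ N * B.dens K' x := fun k x => by
    obtain ⟨i, z, hz, rfl⟩ := hn_chart B x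
    refine hn_dens_le (hk k) hK' hz fun v => ?_
    rw [hn_hq, add_one_mul]
    exact add_le_add (hc i z hz v) (mul_le_of_le_one_left (k0 i z hz v) (h1 k))
  have d2 : ∀ k i, ∀ z ∈ B.W i, Dom (K i z + (r k : ℂ) • K' i z) (a i z) M := fun k i z hz v => by
    refine (h i z hz v).trans (mul_le_mul_of_nonneg_left ?_ hM)
    rw [hn_hq]
    exact le_add_of_nonneg_right (mul_nonneg (h0 k) (k0 i z hz v))
  have d3 := fun k => hn_dens_cont (hn_frm (hk k))
  have t1 : ∀ i z, Tendsto (fun k => K i z + (r k : ℂ) • K' i z) atTop (𝓝 (K i z)) := fun i z => by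
    simpa using (((Complex.continuous_ofReal.tendsto 0).comp hr).smul_const (K' i z)).const_add
      (K i z)
  have key : ∀ (f : ℕ → Y → ℝ) (g : Y → ℝ) (D : ℝ), (∀ k, Continuous (f k)) →
      (∀ k x, |f k x| ≤ D) → (∀ i, ∀ z ∈ B.W i, Tendsto (fun k => f k (B.p i z)) atTop
        (𝓝 (g (B.p i z)))) → Tendsto (fun k => ∫ x, f k x *
          B.dens (fun i z => K i z + (r k : ℂ) • K' i z) x ∂B.μ) atTop
            (𝓝 (∫ x, g x * B.dens K x ∂B.μ)) := by
    intro f g D f1 f2 f3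
    refine tendsto_integral_of_dominated_convergence (fun x => D * ((c + 1) ^ N * B.dens K' x))
      (fun k => ((f1 k).mul (d3 k)).aestronglyMeasurable) ((hi.const_mul _).const_mul _)
      (fun k => Eventually.of_forall fun x => ?_) (Eventually.of_forall fun x => ?_)
    · rw [Real.norm_eq_abs, abs_mul, abs_of_pos (hn_dens_pos (hk k) x)]
      exact mul_le_mul (f2 k x) (d1 k x) (hn_dens_pos (hk k) x).le ((abs_nonneg _).trans (f2 k x))
    · obtain ⟨i, z, hz, rfl⟩ := hn_chart B x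
      refine (f3 i z hz).mul ?_
      simp only [fun k => hn_dens (hk k).cpt hz, hn_dens hK.cpt hz]
      exact (((Complex.continuous_re.comp continuous_id.matrix_det).tendsto _).comp
        (t1 i z)).div_const _
  have t2 := fun i z hz => hn_cont (Z := Mat N) (K := id) (a := fun _ => a i z) (S := univ)
    (z := K i z) continuousWithinAt_id continuousWithinAt_const ((hK.kah i).pos z hz)
  simp only [continuousWithinAt_univ] at t2
  refine ⟨fun k => (hi.const_mul _).mono' (d3 k).aestronglyMeasurable (Eventually.of_forall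
    fun x => (abs_of_pos (hn_dens_pos (hk k) x)).trans_le (d1 k x)), d2, ?_⟩
  simp only [hn_QQ]
  by_cases hμ : B.μ = 0
  · simp only [hμ, integral_zero_measure]
    exact tendsto_const_nhds
  refine (((key _ _ C (fun k => Complex.continuous_re.comp (hn_tr_cont (D := B.kd (hk k)) ha).1)
    (fun k x => (H (hk k) ha (d2 k) x).1) fun i z hz => ?_).pow 2).div ?_ ?_).sub
      (key _ _ C (fun k => (hn_tr_cont (D := B.kd (hk k)) ha).2)
        (fun k x => (H (hk k) ha (d2 k) x).2.1) fun i z hz => ?_)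
  · simp only [Function.comp, fun k => (hn_kd_tr (hk k) ha.cpt hz).1, (hn_kd_tr hK ha.cpt hz).1]
    exact (Complex.continuous_re.tendsto _).comp ((t2 i z hz).1.tendsto.comp (t1 i z))
  · simpa only [one_mul] using key (fun _ _ => 1) (fun _ => 1) 1 (fun _ => continuous_const)
      (fun _ _ => abs_one.le) fun _ _ _ => tendsto_const_nhds
  · have i0 : Integrable (B.dens K) B.μ := (hi.const_mul (c ^ N)).mono'
      (hn_dens_cont (hn_frm hK)).aestronglyMeasurable (Eventually.of_forall fun x => by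
        obtain ⟨i, z, hz, rfl⟩ := hn_chart B x
        exact (abs_of_pos (hn_dens_pos hK _)).trans_le (hn_dens_le hK hK' hz (hc i z hz)))
    refine ((integral_pos_iff_support_of_nonneg (fun x => (hn_dens_pos hK x).le) i0).2 ?_).ne'
    rw [eq_univ_of_forall (s := Function.support (B.dens K)) fun x => (hn_dens_pos hK x).ne']
    exact Measure.measure_univ_pos.2 hμ
  · simp only [fun k => (hn_kd_tr (hk k) ha.cpt hz).2, (hn_kd_tr hK ha.cpt hz).2]
    exact (Complex.continuous_re.tendsto _).comp ((t2 i z hz).2.tendsto.comp (t1 i z))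

/-- The index defect of `a` for the metrics `η + t K + r K'`. -/
theorem Base.numbers (B : Base Y N) {n : ℕ} (hn : 1 ≤ n) {a η K K' : B.ι → E N → Mat N}
    (ha : Frm B.toMan a) (hη : Frm B.toMan η) (hp : ∀ i, ∀ z ∈ B.W i, (η i z).PosSemidef)
    (hK : Kf B.toMan K) (hK' : Kf B.toMan K') {C₁ : ℝ}
    (h1 : ∀ i, ∀ z ∈ B.W i, Dom (K i z) (a i z) C₁ ∧ Dom (K i z) (η i z) C₁ ∧
      Le (K i z) (K' i z) 1) (hc : B.Cut K') (hi : Integrable (B.dens K') B.μ)
    (hF : B.Fuj n a η K) : ∃ C : ℝ, ∀ t : ℝ, 0 < t → t ≤ 1 → ∀ C₀, IsCompact C₀ →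
      ∃ (om : B.ι → E N → Mat N) (h : Kf B.toMan om), B.Cut om ∧ IsFiniteMeasure (B.kd h).ν ∧
        (∃ M, ∀ i, ∀ z ∈ B.W i, Dom (om i z) (a i z) M) ∧
        (∀ x, B.dens (B.mix a η K 0 t) x ≤ B.dens om x) ∧
        (∀ i, ∀ z ∈ B.W i, B.p i z ∈ C₀ → Le (om i z) (B.mix a η K 0 t i z) 2) ∧
        (B.kd h).QQ a ≤ C * t ^ (n - 1) := by
  obtain ⟨c, x, y, z, w, hF⟩ := hF
  have k0 := fun i z hz v => hq_nonneg ((hK.kah i).pos z hz).posSemidef v
  have k1 := fun i z hz v => hq_nonneg ((hK'.kah i).pos z hz).posSemidef v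
  have k2 := fun i z hz v => hq_nonneg (hp i z hz) v
  have hv : ∀ (t : ℝ) i z v, (hq (B.mix a η K 0 t i z) v v).re =
      (hq (η i z) v v).re + t * (hq (K i z) v v).re := fun t i z v => by
    rw [Base.mix, hn_hq, Complex.ofReal_zero, zero_smul, zero_add]
  have m0 : ∀ t : ℝ, 0 < t → Kf B.toMan (B.mix a η K 0 t) := fun t ht =>
    hn_kf (hn_add (hn_add (hn_smul ha 0) hη) (hn_smul (hn_frm hK) t)) fun i z hz v h => by
      rw [hv]
      exact add_pos_of_nonneg_of_pos (k2 i z hz v) (mul_pos ht (hq_pos ((hK.kah i).pos z hz) h))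
  have m1 : ∀ t : ℝ, ∫ p, B.dens (B.mix a η K 0 t) p ∂B.μ = c * (z * t + w * t ^ 2) ^ n :=
    fun t => (hF 0 t).2.trans (by ring)
  obtain ⟨C, HC⟩ := hn_fu hn c x y z w fun t ht =>
    m1 t ▸ integral_nonneg fun p => (hn_dens_pos (m0 t ht) p).le
  refine ⟨C + 1, fun t t0 t1 C₀ hC₀ => ?_⟩
  have m2 : ∀ i, ∀ z ∈ B.W i, Dom (B.mix a η K 0 t i z) (a i z) (|C₁| / t) := fun i z hz v => by
    refine ((h1 i z hz).1 v).trans ((mul_le_mul_of_nonneg_right (le_abs_self C₁)
      (k0 i z hz v)).trans ?_)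
    rw [hv, mul_add, ← mul_assoc, div_mul_cancel₀ _ t0.ne']
    exact le_add_of_nonneg_left (mul_nonneg (by positivity) (k2 i z hz v))
  have m3 : ∀ s : ℝ, (fun i z => B.mix a η K 0 t i z + (s : ℂ) • a i z) = B.mix a η K s t :=
    fun s => funext fun i => funext fun z => by
      rw [Base.mix, Base.mix, Complex.ofReal_zero, zero_smul, zero_add, add_comm, add_assoc]
  obtain ⟨D, HD⟩ := hn_zero (m0 t t0) ha m2 fun s => m3 s ▸ (hF s t).1
  have m4 : (B.kd (m0 t t0)).QQ a < (C + 1) * t ^ (n - 1) := by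
    rw [hn_QQ, m1]
    refine (HC t t0 t1 _ _ D fun s hs => ?_).trans_lt
      (mul_lt_mul_of_pos_right (lt_add_one C) (pow_pos t0 _))
    rw [← (hF s t).2, ← m1, ← m3]
    exact HD s hs
  have r0 : ∀ k : ℕ, (0 : ℝ) < 1 / (k + 1) := fun k => Nat.one_div_pos_of_nat
  have hk : ∀ k : ℕ, Kf B.toMan fun i z => B.mix a η K 0 t i z + ((1 / (k + 1) : ℝ) : ℂ) • K' i z :=
    fun k => hn_kf (hn_add (hn_frm (m0 t t0)) (hn_smul (hn_frm hK') _)) fun i z hz v h => by
      rw [hn_hq]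
      exact add_pos_of_pos_of_nonneg (hq_pos (((m0 t t0).kah i).pos z hz) h)
        (mul_nonneg (r0 k).le (k1 i z hz v))
  obtain ⟨l1, l2, l3⟩ := hn_lim (c := |C₁| + 1) (m0 t t0) hK' ha (by positivity) m2
    (fun i z hz v => by
      have a1 := (le_abs_self _).trans (((h1 i z hz).2.1 v).trans
        (mul_le_mul_of_nonneg_right (le_abs_self C₁) (k0 i z hz v)))
      have a2 := ((h1 i z hz).2.2 v).trans_eq (one_mul _)
      have a3 := mul_le_of_le_one_left (k0 i z hz v) t1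
      have a4 := mul_le_mul_of_nonneg_left a2 (abs_nonneg C₁)
      rw [hv]
      linarith) hi (fun k => (r0 k).le)
    (fun k => (div_le_one (by positivity)).2 (le_add_of_nonneg_left (Nat.cast_nonneg k)))
    tendsto_one_div_add_atTop_nhds_zero_nat hk
  obtain ⟨M, M0, hM⟩ := hn_dom (m0 t t0) (hn_frm hK') hC₀ (B.cover ▸ subset_univ _)
  have l4 : ∀ᶠ k : ℕ in atTop, 1 / ((k : ℝ) + 1) * M < 1 := by
    refine (tendsto_one_div_add_atTop_nhds_zero_nat.mul_const M).eventually_lt_const ?_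
    rw [zero_mul]
    exact one_pos
  obtain ⟨k, q1, q2⟩ := ((l3.eventually_lt_const m4).and l4).exists
  refine ⟨_, hk k, fun S hS hM ε hε => ?_, hn_fin _ (l1 k), ⟨_, l2 k⟩, fun p => ?_,
    fun i z hz h v => ?_, q1.le⟩
  · obtain ⟨θ, a1, a2, a3, a4⟩ := hc S hS hM _ (mul_pos hε (r0 k))
    refine ⟨θ, a1, a2, a3, fun i z hz v => (a4 i z hz v).trans ?_⟩
    rw [hn_hq, mul_assoc]
    exact mul_le_mul_of_nonneg_left (le_add_of_nonneg_left
      (hq_nonneg (((m0 t t0).kah i).pos z hz).posSemidef v)) hε.le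
  · obtain ⟨i, z, hz, rfl⟩ := hn_chart B p
    refine (hn_dens_le (m0 t t0) (hk k) (c := 1) hz fun v => ?_).trans_eq
      (by rw [one_pow, one_mul])
    rw [hn_hq, one_mul]
    exact le_add_of_nonneg_right (mul_nonneg (r0 k).le (k1 i z hz v))
  · have a1 := mul_le_mul_of_nonneg_left ((le_abs_self _).trans (hM i z hz h v)) (r0 k).le
    have a2 := mul_le_of_le_one_left (hq_nonneg (((m0 t t0).kah i).pos z hz).posSemidef v) q2.le
    rw [hn_hq]
    linarith

end

open Pool.Agent.CL Pool.Agent.NL Pool.Agent.CK Pool.Agent.CS Pool.Agent.ABK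

/-- An exhaustion of the regular locus. -/
theorem exists_Lam {X : Type} [TopologicalSpace X] [T2Space X] [CompactSpace X] {R : Set X}
    {A : Atlas R N} {B : Amb R A} {K : Form11 A} (hinj : ∀ i, InjOn (A.p i) (A.C i).W)
    (hK : IsKahler B K) : ∃ l C, Lam (man A hinj isOpen_univ) K.h l C := by
  obtain ⟨G, C, hC, hG, h0, hp, H⟩ := exists_G hK
  obtain ⟨g, hg⟩ := (isCompact_range hG).bddAbove
  have hg' : ∀ x : R, Real.log (G x) ≤ Real.log g := fun x => Real.log_le_log (hp x) (hg ⟨x, rfl⟩)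
  have p1 : ∀ x : R, 1 ≤ (Real.log g + 1) + -1 * Real.log (G x) := fun x => by linarith [hg' x]
  have s1 : ∀ i, ∀ y ∈ (A.C i).W, ContDiffAt ℝ ∞ (fun y => Real.log (G (A.p i y))) y :=
    fun i y hy => (H i y hy).1.log (hp _).ne'
  have s2 : ∀ i, ∀ y ∈ (A.C i).W, ContDiffAt ℝ ∞
      (fun y => (Real.log g + 1) + -1 * Real.log (G (A.p i y))) y := fun i y hy =>
    contDiffAt_const.add (contDiffAt_const.mul (s1 i y hy))
  refine ⟨fun x => Real.log ((Real.log g + 1) + -1 * Real.log (G x)), C / 2, by positivity,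
    fun i z hz => ((s2 i z hz.1).log (one_pos.trans_le (p1 _)).ne').contDiffWithinAt,
    fun x => Real.log_nonneg (p1 x), fun c => ?_, fun i z hz v => ?_⟩
  · obtain ⟨b, hb⟩ : ∃ b, b = Real.exp (Real.log g + 1 - Real.exp c) := ⟨_, rfl⟩
    refine ⟨{x : R | b ≤ G x}, Topology.IsInducing.subtypeVal.isCompact_preimage'
      (K := {x | b ≤ G x}) (isClosed_le continuous_const hG).isCompact fun x hx => ⟨⟨x, ?_⟩, rfl⟩,
      fun x hx => (Real.lt_log_iff_exp_lt (one_pos.trans_le (p1 x))).2 ?_⟩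
    · by_contra hn
      exact (le_of_le_of_eq hx (h0 x hn)).not_gt (hb ▸ Real.exp_pos _)
    · have h2 := Real.log_lt_log (hp x) (not_le.1 hx)
      rw [hb, Real.log_exp] at h2
      linarith
  · have e1 := Lv_levi (A := A) (φ := fun x => Real.log (G x))
      (fun y hy => (s1 i y hy).contDiffWithinAt) hz.1 v
    have e3 := (H i z hz.1).2 v
    rw [e1] at e3
    simp only [ev11_hq] at e3
    change _ ≤ 2 * (2 * (hq (lev (fun y => Real.log (G (A.p i y))) z) v v).re) at e3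
    have s := s2 i z hz.1
    have e : (hq (lev (fun y => (Real.log g + 1) + -1 * Real.log (G (A.p i y))) z) v v).re ≤
        C / 2 * (hq (K.h i z) v v).re := by
      rw [lev_add contDiffAt_const (contDiffAt_const.mul (s1 i z hz.1)), lev_const, zero_add,
        lev_smul (s1 i z hz.1), hq_smul, Complex.re_ofReal_mul]
      linarith
    have q1 := p1 (A.p i z)
    change (hq (lev (fun y => Real.log ((Real.log g + 1) + -1 * Real.log (G (A.p i y)))) z) v v).re +
      ‖v ⬝ᵥ dr (fun y => Real.log ((Real.log g + 1) + -1 * Real.log (G (A.p i y)))) z‖ ^ 2 ≤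
        C / 2 * (hq (K.h i z) v v).re
    generalize hψ : (fun y => (Real.log g + 1) + -1 * Real.log (G (A.p i y))) = ψ at s e
    simp only [show ∀ y, (Real.log g + 1) + -1 * Real.log (G (A.p i y)) = ψ y from congrFun hψ]
      at q1 ⊢
    have p0 : ψ z ≠ 0 := by linarith
    rw [lev_chain (f := ψ) (ρ := Real.log) (ρ₁ := fun y => y⁻¹)
      ((eventually_ne_nhds p0).mono fun y hy => Real.hasDerivAt_log hy) (hasDerivAt_inv p0) s,
      dr_chain (f := ψ) (Real.hasDerivAt_log p0) (s.differentiableAt (by simp)),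
      dotProduct_smul, norm_smul, mul_pow, Complex.norm_real, Real.norm_eq_abs, sq_abs, inv_pow]
    have k0 := mul_nonneg (div_nonneg hC two_pos.le) (hq_nonneg (hK.posDef i z hz.1).posSemidef v)
    have := (mul_le_mul_of_nonneg_left e (inv_nonneg.2 (zero_le_one.trans q1))).trans
      (mul_le_of_le_one_left k0 (inv_le_one_of_one_le₀ q1))
    linarith

end Pool.Agent.HX
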