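import Pool.Agent.P.MP_63735c_ag.BPDefs
import Pool.Agent.P.MP_63735c_ag.SPIdent

/-! A maximum principle for holomorphic maps. -/

open scoped ComplexOrder ContDiff Matrix Topology ENNReal
open Set Metric MeasureTheory Filter

namespace Pool.Agent.BP

open Pool.Agent.SPF Pool.Agent.AB Pool.Agent.CK Pool.Agent.SE Pool.Agent.NL

variable {N : ℕ}

theorem nsq_smooth {M : ℕ} : ContDiff ℝ ∞ (nsq : E M → ℝ) := by
  exact ContDiff.sum fun a _ => (contDiff_apply ℝ ℂ a).norm_sq ℂ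

theorem nsq_le {M : ℕ} (z : E M) : ‖z‖ ^ 2 ≤ nsq z ∧ nsq z ≤ M * ‖z‖ ^ 2 := by
  have h0 : 0 ≤ nsq z := Finset.sum_nonneg fun a _ => sq_nonneg _
  constructor
  · refine (Real.le_sqrt (norm_nonneg _) h0).1 ((pi_norm_le_iff_of_nonneg (Real.sqrt_nonneg _)).2
      fun a => (Real.le_sqrt (norm_nonneg _) h0).2 ?_)
    exact Finset.single_le_sum (f := fun a => ‖z a‖ ^ 2) (fun _ _ => sq_nonneg _)
      (Finset.mem_univ a)
  · simpa [nsq] using Finset.sum_le_card_nsmul Finset.univ (fun a => ‖z a‖ ^ 2) (‖z‖ ^ 2) fun a _ =>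
      pow_le_pow_left₀ (norm_nonneg _) (norm_le_pi_norm z a) 2

lemma bpt2_jac {M : ℕ} (φ : E M → E N) (z v : E M) : jac φ z *ᵥ v = fderiv ℂ φ z v := by
  have hv : v = ∑ a, v a • (Pi.single a 1 : E M) := by
    ext b
    simp [Finset.sum_apply, Pi.single_apply]
  conv_rhs => rw [hv, map_sum]
  ext c
  simp [jac, Matrix.mulVec, dotProduct, Finset.sum_apply, mul_comm]

lemma bpt2_coe (z : E N) : (nsq z : ℂ) = ∑ c, z c * star (z c) := by
  simp only [nsq, Complex.ofReal_sum, Complex.star_def, Complex.mul_conj,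
    Complex.normSq_eq_norm_sq]

lemma bpt2_coord (a c : Fin N) (z : E N) :
    dz a (fun y : E N => y c) z = (1 : Mat N) a c ∧ dzb a (fun y : E N => y c) z = 0 := by
  have h := dz_of_diff (f := fun y : E N => y c) (z := z) (by fun_prop) a
  rw [(hasFDerivAt_apply c z).fderiv] at h
  simpa [Pi.single_apply, Matrix.one_apply, eq_comm] using h

lemma bpt2_dr (z : E N) : dr nsq z = star z := by
  funext a
  have h1 : ∀ c, DifferentiableAt ℝ (fun y : E N => y c) z := fun c => by fun_prop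
  simp only [dr, bpt2_coe]
  rw [(dz_sum Finset.univ (fun c _ => (h1 c).fun_mul (ablev_star (h1 c))) a).1]
  simp only [(dz_mul (h1 _) (ablev_star (h1 _)) a).1, ← (star_dz _ z a).2, bpt2_coord]
  simp [Matrix.one_apply]

lemma bpt2_lev (z : E N) : lev nsq z = 1 := by
  ext a b
  have h : (fun y : E N => star (dz b (fun x => (nsq x : ℂ)) y)) = fun y => y b :=
    funext fun y => (congrArg star (congrFun (bpt2_dr y) b)).trans (star_star _)
  rw [lev, Matrix.of_apply, h, (bpt2_coord a b z).1]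

theorem lev_nsq {M : ℕ} {F : E N → E M} {z : E N} (hF : ∀ᶠ w in 𝓝 z, DifferentiableAt ℂ F w) :
    ContDiffAt ℝ ∞ (fun w => nsq (F w)) z ∧
      lev (fun w => nsq (F w)) z = (jac F z)ᵀ * (jac F z).map star ∧
      dr (fun w => nsq (F w)) z = star (F z) ᵥ* jac F z ∧
      ∀ v, hr (lev (fun w => nsq (F w)) z) v = nsq (fderiv ℂ F z v) := by
  refine ⟨nsq_smooth.contDiffAt.comp z (smoothAt_of_hol hF), ?_, ?_, fun v => ?_⟩
  · rw [lev_comp nsq_smooth.contDiffAt hF, bpt2_lev, Matrix.mul_one]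
  · rw [dr_comp (nsq_smooth.differentiable (by simp) _) hF.self_of_nhds, bpt2_dr]
  · rw [hr, lev_comp nsq_smooth.contDiffAt hF, bpt2_lev, hq_conj, bpt2_jac, hq, Matrix.one_mulVec]
    exact (congrArg Complex.re (bpt2_coe _)).symm

lemma bpt2_second {g g' : ℝ → ℝ} {c : ℝ} (hm : IsLocalMax g 0)
    (hd : ∀ᶠ t in 𝓝 (0 : ℝ), HasDerivAt g (g' t) t) (h2 : HasDerivAt g' c 0) : c ≤ 0 := by
  by_contra hpos
  rw [not_le] at hpos
  have hd1 : deriv g =ᶠ[𝓝 0] g' := hd.mono fun t ht => ht.deriv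
  have hd2 : deriv (deriv g) 0 = c := by rw [hd1.deriv_eq, h2.deriv]
  have hmin : IsLocalMin g 0 := isLocalMin_of_deriv_deriv_pos (by rw [hd2]; exact hpos)
    hm.deriv_eq_zero hd.self_of_nhds.continuousAt
  have hcst : g =ᶠ[𝓝 0] fun _ => g 0 := by
    filter_upwards [hm, hmin] with t h1 h2 using le_antisymm h1 h2
  have := hcst.deriv.deriv_eq
  rw [hd2] at this
  simp only [deriv_const', deriv_const] at this
  exact hpos.ne' this

lemma bpt2_hess {u : E N → ℝ} {z : E N} (hu : ContDiffAt ℝ ∞ u z) (hm : IsLocalMax u z) (w : E N) :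
    (fderiv ℝ (fderiv ℝ fun y => (u y : ℂ)) z w w).re ≤ 0 := by
  have hG := ablev_re hu
  have hγ : ∀ t : ℝ, HasDerivAt (fun t : ℝ => z + t • w) w t := fun t => by
    simpa using ((hasDerivAt_id t).smul_const w).const_add z
  have ht : Tendsto (fun t : ℝ => z + t • w) (𝓝 0) (𝓝 z) := by
    simpa using (hγ 0).continuousAt.tendsto
  have hD : HasFDerivAt (fderiv ℝ fun y => (u y : ℂ)) (fderiv ℝ (fderiv ℝ fun y => (u y : ℂ)) z)
      (z + (0 : ℝ) • w) := by
    rw [zero_smul, add_zero]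
    exact ((hG.fderiv_right (m := ∞) (by simp)).differentiableAt (by simp)).hasFDerivAt
  refine bpt2_second (g := fun t : ℝ => u (z + t • w))
    (g' := fun t : ℝ => (fderiv ℝ (fun y => (u y : ℂ)) (z + t • w) w).re) ?_ ?_ ?_
  · simpa [IsLocalMax, IsMaxFilter] using ht.eventually hm
  · filter_upwards [ht.eventually (ablev_ev hG)] with t h
    have h1 := HasFDerivAt.comp_hasDerivAt (f := fun t : ℝ => z + t • w) t h.hasFDerivAt (hγ t)
    exact Complex.reCLM.hasFDerivAt.comp_hasDerivAt t h1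
  · have h1 := HasFDerivAt.comp_hasDerivAt (f := fun t : ℝ => z + t • w) (0 : ℝ) hD (hγ 0)
    have h2 := Complex.reCLM.hasFDerivAt.comp_hasDerivAt (0 : ℝ)
      (h1.clm_apply (hasDerivAt_const (0 : ℝ) w))
    exact h2.congr_deriv (by simp)

lemma bpt2_diag {u : E N → ℝ} {z : E N} (hu : ContDiffAt ℝ ∞ u z) (hm : IsLocalMax u z)
    (a : Fin N) : (lev u z a a).re ≤ 0 := by
  have hG := ablev_re hu
  have hs := (hG.isSymmSndFDerivAt (by
    rw [minSmoothness_of_isRCLikeNormedField]; exact WithTop.coe_le_coe.2 le_top)).eq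
  have h1 := bpt2_hess hu hm (Pi.single a 1)
  have h2 := bpt2_hess hu hm (Pi.single a Complex.I)
  rw [lev_apply, dz, (ablev_fd hG a _).2, (ablev_fd hG a _).2, hs (Pi.single a Complex.I)
    (Pi.single a 1)]
  simp only [Complex.div_ofNat_re, Complex.div_ofNat_im, Complex.sub_re, Complex.add_re,
    Complex.add_im, Complex.mul_re, Complex.mul_im, Complex.I_re, Complex.I_im]
  linarith

theorem lev_max {u : E N → ℝ} {z : E N} (hu : ContDiffAt ℝ ∞ u z) (hm : IsLocalMax u z) (v : E N) :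
    hr (lev u z) v ≤ 0 := by
  have hφ : ∀ t : E 1, HasFDerivAt (fun t : E 1 => z + t 0 • v)
      ((ContinuousLinearMap.proj 0 : E 1 →L[ℂ] ℂ).smulRight v) t := fun t =>
    ((hasFDerivAt_apply 0 t).smul_const v).const_add z
  have hd : ∀ᶠ t in 𝓝 (0 : E 1), DifferentiableAt ℂ (fun t : E 1 => z + t 0 • v) t :=
    Eventually.of_forall fun t => (hφ t).differentiableAt
  have h0 : z + (0 : E 1) 0 • v = z := by simp
  rw [← h0] at hu hm
  have h1 := bpt2_diag (hu.comp 0 (smoothAt_of_hol hd))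
    (hm.comp_continuous (g := fun t : E 1 => z + t 0 • v) (hφ 0).continuousAt) 0
  have h2 := hq_conj (jac (fun t : E 1 => z + t 0 • v) 0) (lev u (z + (0 : E 1) 0 • v)) 1 1
  rw [← lev_comp (φ := fun t : E 1 => z + t 0 • v) hu hd, bpt2_jac, (hφ 0).fderiv, h0, hq_sum_eq] at h2
  simp only [Fin.sum_univ_one, Pi.one_apply, star_one, mul_one, one_mul,
    ContinuousLinearMap.smulRight_apply, ContinuousLinearMap.proj_apply, one_smul] at h2
  rw [hr, ← h2]
  exact h1

theorem mp {O C : Set (E N)} (hO : IsOpen O) {P : E N → E N} (hP : DifferentiableOn ℂ P O)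
    (hC : IsCompact C) (h : C ⊆ O) {y : E N} (hy : y ∈ C) {r : ℝ} (hr : 0 < r)
    (hi : ∀ q ∈ C, ‖P q - P y‖ < r → C ∈ 𝓝 q) (hN : 1 ≤ N) : ∃ q ∈ C, (jac P q).det ≠ 0 := by
  have hn : ∀ {M : ℕ} (z : E M), 0 ≤ nsq z := fun z => (sq_nonneg _).trans (nsq_le z).1
  obtain ⟨b, -, hb⟩ := hC.exists_isMaxOn ⟨y, hy⟩ nsq_smooth.continuous.continuousOn
  obtain ⟨A, hA⟩ : ∃ A : ℝ, A * r ^ 2 = nsq b + 1 := ⟨_, div_mul_cancel₀ _ (by positivity)⟩
  have hA0 : 0 < A := (mul_pos_iff_of_pos_right (sq_pos_of_pos hr)).1 (by linarith [hn b])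
  obtain ⟨q, hq, hm⟩ := hC.exists_isMaxOn (f := fun z => nsq z + -A * nsq (P z - P y)) ⟨y, hy⟩
    (nsq_smooth.continuous.continuousOn.add (continuousOn_const.mul
      (nsq_smooth.continuous.comp_continuousOn
        ((hP.continuousOn.mono h).sub continuousOn_const))))
  refine ⟨q, hq, fun h0 => ?_⟩
  have h1 : ‖P q - P y‖ < r := by
    by_contra hc
    have a1 : nsq y + -A * nsq (P y - P y) ≤ nsq q + -A * nsq (P q - P y) := hm hy
    have a2 : nsq q ≤ nsq b := hb hq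
    have a3 := (pow_le_pow_left₀ hr.le (not_lt.1 hc) 2).trans (nsq_le _).1
    have a4 : nsq (P y - P y) = 0 := by simp [nsq]
    rw [a4] at a1
    nlinarith [hn y]
  obtain ⟨v, hv, h2⟩ := Matrix.exists_mulVec_eq_zero_iff.2 h0
  have h3 := lev_nsq (F := fun w : E N => w) (z := q) (Eventually.of_forall fun _ => by fun_prop)
  have h4 := lev_nsq (F := fun w => P w - P y) (z := q) (by
    filter_upwards [hO.mem_nhds (h hq)] with w hw
    exact (hP.differentiableAt (hO.mem_nhds hw)).sub_const _)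
  have h5 := lev_max (h3.1.add (contDiffAt_const.mul h4.1)) (hm.isLocalMax (hi q hq h1)) v
  have h6 := h3.2.2.2 v
  have h7 := h4.2.2.2 v
  rw [fderiv_sub_const, ← bpt2_jac, h2] at h7
  rw [BP.hr, lev_add h3.1 (contDiffAt_const.mul h4.1), lev_smul h4.1, hq_add, hq_smul,
    Complex.add_re, Complex.re_ofReal_mul] at h5
  simp only [BP.hr, fderiv_fun_id, ContinuousLinearMap.id_apply] at h6 h7
  have h8 := (nsq_le v).1
  have h9 : nsq (0 : E N) = 0 := by simp [nsq]
  rw [h6, h7, h9] at h5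
  nlinarith [norm_pos_iff.2 hv]

theorem det_of_inj {O : Set (E N)} (hO : IsOpen O) (hne : O.Nonempty) {P : E N → E N}
    (hP : DifferentiableOn ℂ P O) (hi : InjOn P O) : ∃ q ∈ O, (jac P q).det ≠ 0 := by
  obtain ⟨y, hy⟩ := hne
  rcases Nat.eq_zero_or_pos N with rfl | hN
  · exact ⟨y, hy, by simp⟩
  obtain ⟨ε, hε, hs⟩ := nhds_basis_closedBall.mem_iff.1 (hO.mem_nhds hy)
  have hs' := sphere_subset_closedBall.trans hs
  obtain ⟨r, hr, h1⟩ := (isCompact_sphere y ε).exists_forall_le' (f := fun q => ‖P q - P y‖) (a := 0)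
    ((hP.continuousOn.mono hs').sub continuousOn_const).norm fun q hq =>
      norm_pos_iff.2 (sub_ne_zero.2 fun e => by
        rw [hi (hs' hq) hy e, mem_sphere, dist_self] at hq
        exact hε.ne hq)
  obtain ⟨q, hq, h2⟩ := mp hO hP (isCompact_closedBall y ε) hs (mem_closedBall_self hε.le) hr
    (fun q hq h => closedBall_mem_nhds_of_mem (lt_of_le_of_ne hq fun e => (h1 q e).not_gt h)) hN
  exact ⟨q, hs hq, h2⟩

end Pool.Agent.BP
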