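import Pool.Agent.P.MP_63735c_ag.BPT4b
import Pool.Agent.P.MP_63735c_ag.BPT2
import Pool.Agent.P.MP_c4558b_ag.NLVol

/-! The pole set of a quasi-plurisubharmonic function on the manifold. -/

open scoped ComplexOrder ContDiff Matrix Topology ENNReal
open Set Metric MeasureTheory Filter

namespace Pool.Agent.BP

open Pool.Agent.SPF Pool.Agent.AB Pool.Agent.CK Pool.Agent.SE Pool.Agent.NL

variable {N : ℕ} {X : Type} [TopologicalSpace X] [T2Space X] {A : Atlas X N} {W : Set X}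
  {ψ : X → ℝ}

theorem bppolx_bd {h : E N → Mat N} {C : Set (E N)} (hC : IsCompact C)
    (hh : ∀ a b, ContinuousOn (fun z => h z a b) C) :
    ∃ B : ℝ, 0 ≤ B ∧ ∀ z ∈ C, ∀ v, hr (h z) v ≤ B * nsq v := by
  have h1 : ContinuousOn (fun z => ∑ a, ∑ b, ‖h z a b‖) C :=
    continuousOn_finsetSum _ fun a _ => continuousOn_finsetSum _ fun b _ => (hh a b).norm
  obtain ⟨B, hB⟩ := hC.exists_bound_of_continuousOn h1
  refine ⟨max B 0, le_max_right _ _, fun z hz v => ?_⟩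
  have h2 : ∑ a, ∑ b, ‖h z a b‖ ≤ max B 0 :=
    ((le_abs_self _).trans (hB z hz)).trans (le_max_left _ _)
  have h3 : ‖hq (h z) v v‖ ≤ (∑ a, ∑ b, ‖h z a b‖) * ‖v‖ ^ 2 := by
    rw [hq_sum_eq, Finset.sum_mul]
    refine (norm_sum_le _ _).trans (Finset.sum_le_sum fun a _ => ?_)
    rw [Finset.sum_mul]
    refine (norm_sum_le _ _).trans (Finset.sum_le_sum fun b _ => ?_)
    rw [norm_mul, norm_mul, norm_star]
    have ha := norm_le_pi_norm v a
    have hb := norm_le_pi_norm v b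
    calc ‖v a‖ * ‖h z a b‖ * ‖v b‖ ≤ ‖v‖ * ‖h z a b‖ * ‖v‖ := by gcongr
      _ = ‖h z a b‖ * ‖v‖ ^ 2 := by ring
  calc hr (h z) v ≤ ‖hq (h z) v v‖ := Complex.re_le_norm _
    _ ≤ max B 0 * ‖v‖ ^ 2 := h3.trans (by gcongr)
    _ ≤ max B 0 * nsq v := mul_le_mul_of_nonneg_left (nsq_le v).1 (le_max_right _ _)

theorem bppolx_loc (h : PolX A W ψ) {i : A.ι} {z₀ : E N} (hz : z₀ ∈ (A.C i).W)
    (hc : A.p i z₀ ∈ closure W) : ∃ R₀ > 0, closedBall z₀ R₀ ⊆ (A.C i).W ∧ ∀ R, 0 < R → R ≤ R₀ →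
      ∃ ψ' : E N → ℝ, Pol z₀ R (ball z₀ R ∩ A.p i ⁻¹' W) ψ' ∧
        ∀ z ∈ ball z₀ R ∩ A.p i ⁻¹' W, |ψ (A.p i z)| ≤ |ψ' z| := by
  obtain ⟨R₀, hR₀, hB⟩ := nhds_basis_closedBall.mem_iff.1 ((A.C i).isOpen.mem_nhds hz)
  obtain ⟨M, hM, hpsh⟩ := h.psh
  obtain ⟨B, hB0, hη⟩ := bppolx_bd (h := (A.C i).η) (isCompact_closedBall z₀ R₀)
    fun a b => ((A.C i).η_smooth a b).continuousOn.mono hB
  refine ⟨R₀, hR₀, hB, fun R hR hle => ?_⟩
  have hsub : ball z₀ R ⊆ closedBall z₀ R₀ :=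
    ball_subset_closedBall.trans (closedBall_subset_closedBall hle)
  have hb : ball z₀ R ⊆ (A.C i).W := hsub.trans hB
  have hn : ∀ z : E N, ∀ᶠ w in 𝓝 z, DifferentiableAt ℂ (fun w : E N => w - z₀) w :=
    fun z => Eventually.of_forall fun w => differentiableAt_id.sub_const z₀
  have hneg : ∀ z ∈ ball z₀ R, M * B * nsq (z - z₀) + -(M * B * (N * R₀ ^ 2)) ≤ 0 := by
    intro z hz'
    have h1 : ‖z - z₀‖ ≤ R₀ := mem_closedBall_iff_norm.1 (hsub hz')
    have h2 : nsq (z - z₀) ≤ N * R₀ ^ 2 := (nsq_le _).2.trans (by gcongr)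
    have h3 := mul_le_mul_of_nonneg_left h2 (mul_nonneg hM hB0)
    linarith
  have hs : ∀ z, ContDiffAt ℝ ∞ (fun w => M * B * nsq (w - z₀)) z :=
    fun z => contDiffAt_const.mul (lev_nsq (hn z)).1
  refine ⟨fun z => ψ (A.p i z) + (M * B * nsq (z - z₀) + -(M * B * (N * R₀ ^ 2))),
    ⟨((A.cont i).mono hb).isOpen_inter_preimage isOpen_ball h.isOpen, inter_subset_left,
      fun z hz' => ((h.smooth i z (hb hz'.1) hz'.2).add
        ((hs z).add contDiffAt_const)).contDiffWithinAt, fun z hz' => ?_, fun z hz' v => ?_,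
      fun c z hz' hcl => ⟨hz', ?_⟩, ?_⟩, fun z hz' => ?_⟩
  · have := h.le _ hz'.2
    have := hneg z hz'.1
    linarith
  · have h1 := hpsh i z (hb hz'.1) hz'.2 v
    have h2 := (lev_nsq (hn z)).2.2.2 v
    rw [fderiv_sub_const, fderiv_fun_id] at h2
    have h3 := mul_le_mul_of_nonneg_left (hη z (hsub hz'.1) v) hM
    rw [hr, lev_add (h.smooth i z (hb hz'.1) hz'.2) ((hs z).add contDiffAt_const),
      lev_add (hs z) contDiffAt_const, lev_const, add_zero, lev_smul (lev_nsq (hn z)).1, hq_add,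
      hq_smul, Complex.add_re, Complex.re_ofReal_mul]
    simp only [hr, ContinuousLinearMap.id_apply] at h1 h2 h3
    rw [h2]
    linarith
  · have h1 : ContinuousAt (A.p i) z := (A.cont i).continuousAt ((A.C i).isOpen.mem_nhds (hb hz'))
    have h2 := mem_closure_image h1 hcl
    refine ((h.cpt c).isClosed.closure_subset_iff.2 Subset.rfl (closure_mono ?_ h2)).1
    rintro _ ⟨y, ⟨hy, hy'⟩, rfl⟩
    have := hneg y hy.1
    exact ⟨hy.2, by linarith⟩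
  · have h16 : ball z₀ (R / 16) ⊆ ball z₀ R := ball_subset_ball (by linarith)
    obtain ⟨_, ⟨z, hz', rfl⟩, hw⟩ := mem_closure_iff.1 hc _
      (A.opn i _ isOpen_ball (h16.trans hb)) ⟨z₀, mem_ball_self (by linarith), rfl⟩
    exact ⟨z, ⟨h16 hz', hw⟩, hz'⟩
  · have h1 := h.le _ hz'.2
    have h2 := hneg z hz'.1
    rw [abs_of_nonpos (by linarith), abs_of_nonpos (by linarith)]
    linarith

theorem PolX.loc (h : PolX A W ψ) {i : A.ι} {z₀ : E N} (hz : z₀ ∈ (A.C i).W)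
    (hc : A.p i z₀ ∈ closure W) : ∃ R₀ > 0, closedBall z₀ R₀ ⊆ (A.C i).W ∧ ∀ R, 0 < R → R ≤ R₀ →
      ∃ (ψ' : E N → ℝ) (c : ℝ), Pol z₀ R (ball z₀ R ∩ A.p i ⁻¹' W) ψ' ∧
        ∀ z ∈ ball z₀ R ∩ A.p i ⁻¹' W, |ψ (A.p i z)| ≤ |ψ' z| + c := by
  obtain ⟨R₀, h1, h2, h3⟩ := bppolx_loc h hz hc
  refine ⟨R₀, h1, h2, fun R hR hle => ?_⟩
  obtain ⟨ψ', h4, h5⟩ := h3 R hR hle
  exact ⟨ψ', 0, h4, fun z hz' => by simpa using h5 z hz'⟩

theorem PolX.dense [PreconnectedSpace X] (h : PolX A W ψ) : Dense W := by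
  have ho : IsOpen (closure W) := by
    refine isOpen_iff_mem_nhds.2 fun x hx => ?_
    obtain ⟨i, z₀, hz, rfl⟩ := A.cover x
    obtain ⟨R, hR, hB, h1⟩ := bppolx_loc h hz hx
    obtain ⟨ψ', hp, -⟩ := h1 R hR le_rfl
    have hb : ball z₀ (R / 16) ⊆ (A.C i).W :=
      ((ball_subset_ball (by linarith)).trans ball_subset_closedBall).trans hB
    refine mem_of_superset ((A.opn i _ isOpen_ball hb).mem_nhds
      ⟨z₀, mem_ball_self (by linarith), rfl⟩) ?_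
    rintro _ ⟨z, hz', rfl⟩
    refine closure_mono ?_ (mem_closure_image
      ((A.cont i).continuousAt ((A.C i).isOpen.mem_nhds (hb hz'))) (hp.dense hz'))
    rintro _ ⟨y, hy, rfl⟩
    exact hy.2
  exact dense_iff_closure_eq.2 (IsClopen.eq_univ ⟨isClosed_closure, ho⟩ h.ne.closure)

/-- A chart ball around each point. -/
theorem bppolx_ball [PreconnectedSpace X] (h : PolX A W ψ) (x : X) :
    ∃ (i : A.ι) (z₀ : E N) (R : ℝ) (ψ' : E N → ℝ), A.p i z₀ = x ∧ 0 < R ∧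
      closedBall z₀ R ⊆ (A.C i).W ∧ ball z₀ (R / 16) ⊆ ball z₀ R ∧
      A.p i '' ball z₀ (R / 16) ∈ 𝓝 x ∧ Pol z₀ R (ball z₀ R ∩ A.p i ⁻¹' W) ψ' ∧
      ∀ z ∈ ball z₀ R ∩ A.p i ⁻¹' W, |ψ (A.p i z)| ≤ |ψ' z| := by
  obtain ⟨i, z₀, hz, rfl⟩ := A.cover x
  obtain ⟨R, hR, hB, h1⟩ := bppolx_loc h hz (h.dense _)
  obtain ⟨ψ', hp, h2⟩ := h1 R hR le_rfl
  have h16 : ball z₀ (R / 16) ⊆ ball z₀ R := ball_subset_ball (by linarith)
  exact ⟨i, z₀, R, ψ', rfl, hR, hB, h16, (A.opn i _ isOpen_ball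
    ((h16.trans ball_subset_closedBall).trans hB)).mem_nhds
    ⟨z₀, mem_ball_self (by linarith), rfl⟩, hp, h2⟩

/-- A locally constant function on `W` is constant on `W` near every point of `X`. -/
theorem bppolx_near [PreconnectedSpace X] (h : PolX A W ψ) {F : Type} {u : X → F}
    (hu : ∀ x ∈ W, ∀ᶠ y in 𝓝 x, u y = u x) (x : X) :
    ∃ c, ∀ᶠ y in 𝓝 x, y ∈ W → u y = c := by
  obtain ⟨i, z₀, R, ψ', -, hR, hB, h16, hn, hp, -⟩ := bppolx_ball h x
  obtain ⟨z₁, hz₁⟩ := hp.ne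
  refine ⟨u (A.p i z₁), mem_of_superset hn ?_⟩
  rintro _ ⟨z, hz, rfl⟩ hW
  refine hp.conn (u := fun z => u (A.p i z)) (fun w hw => ?_) ⟨⟨h16 hz, hW⟩, hz⟩ hz₁
  exact ((A.cont i).continuousAt ((A.C i).isOpen.mem_nhds
    (hB (ball_subset_closedBall hw.1)))).eventually (hu _ hw.2)

theorem PolX.const [PreconnectedSpace X] (h : PolX A W ψ) {F : Type} {u : X → F}
    (hu : ∀ x ∈ W, ∀ᶠ y in 𝓝 x, u y = u x) {x y : X} (hx : x ∈ W) (hy : y ∈ W) : u y = u x := by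
  have ho : IsOpen {w | ∀ᶠ y in 𝓝 w, y ∈ W → u y = u x} := isOpen_setOfPred_eventually_nhds
  have hc : IsClosed {w | ∀ᶠ y in 𝓝 w, y ∈ W → u y = u x} := by
    refine closure_subset_iff_isClosed.1 fun w hw => ?_
    obtain ⟨c, hc⟩ := bppolx_near h hu w
    obtain ⟨w', h1, h2⟩ := mem_closure_iff_nhds.1 hw _ hc.eventually_nhds
    obtain ⟨y, ⟨h3, h4⟩, h5⟩ := mem_closure_iff_nhds.1 (h.dense w') _ (inter_mem h1 h2)
    exact hc.mono fun v hv hW => (hv hW).trans ((h3 h5).symm.trans (h4 h5))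
  have he := IsClopen.eq_univ ⟨hc, ho⟩ ⟨x, (hu x hx).mono fun y hy _ => hy⟩
  have h1 : y ∈ {w | ∀ᶠ y in 𝓝 w, y ∈ W → u y = u x} := he ▸ mem_univ y
  exact h1.self_of_nhds hy

theorem PolX.conn [PreconnectedSpace X] (h : PolX A W ψ) : IsPreconnected W := by
  refine isPreconnected_of_forall_constant fun f hf x hx y hy => ?_
  refine h.const (fun w hw => ?_) hy hx
  have h1 : ContinuousAt f w := hf.continuousAt (h.isOpen.mem_nhds hw)
  exact h1.eventually (p := fun b => b = f w) ((isOpen_discrete {f w}).mem_nhds rfl)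

theorem PolX.null [PreconnectedSpace X] [CompactSpace X] [MeasurableSpace X] [BorelSpace X]
    {μ : Measure X} (hμ : IsVolume A μ) (h : PolX A W ψ) : μ Wᶜ = 0 := by
  refine h.isOpen.isClosed_compl.isCompact.measure_zero_of_nhdsWithin fun x _ => ?_
  obtain ⟨i, z₀, R, ψ', -, hR, hB, h16, hn, hp, -⟩ := bppolx_ball h x
  refine ⟨A.p i '' (ball z₀ (R / 16) \ (ball z₀ R ∩ A.p i ⁻¹' W)), ?_, ?_⟩
  · refine mem_of_superset (inter_mem_nhdsWithin _ hn) ?_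
    rintro _ ⟨hW, z, hz, rfl⟩
    exact ⟨z, ⟨hz, fun h' => hW h'.2⟩, rfl⟩
  · rw [hμ i _ (sdiff_subset.trans ((h16.trans ball_subset_closedBall).trans hB))
      (measurableSet_ball.diff hp.isOpen.measurableSet)]
    exact setLIntegral_measure_zero _ _ hp.null

theorem PolX.lp [PreconnectedSpace X] [CompactSpace X] [MeasurableSpace X] [BorelSpace X]
    {μ : Measure X} (hinj : ∀ i, InjOn (A.p i) (A.C i).W) (hμ : IsVolume A μ) (h : PolX A W ψ)
    (p : ℕ) : IntegrableOn (fun x => |ψ x| ^ p) W μ := by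
  let Ψ : A.ι → E N → ℝ := fun i z => -Real.log ‖((A.C i).σ z).det‖
  have hw : ∀ i, ∀ z ∈ (A.C i).W, wt (Ψ i) z = ‖((A.C i).σ z).det‖ := fun i z hz => by
    simp only [wt, Ψ, neg_neg]
    exact Real.exp_log (norm_pos_iff.2 ((A.C i).σ_det z hz))
  have hd : (man A hinj h.isOpen).Den μ Ψ := by
    intro i S hS hm
    refine (hμ i S (hS.trans inter_subset_left) hm).trans
      (setLIntegral_congr_fun hm fun z hz => ?_)
    rw [hw i z (hS hz).1, ofReal_norm]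
  have hΨ : ∀ i, ContinuousOn (Ψ i) (A.C i).W := fun i =>
    ((det_cont (A.C i)).norm.log fun z hz => (norm_pos_iff.2 ((A.C i).σ_det z hz)).ne').neg
  have key : IntegrableOn (fun x => |ψ x| ^ p) (W ∩ univ) μ := by
    refine isCompact_univ.induction_on (p := fun s => IntegrableOn (fun x => |ψ x| ^ p) (W ∩ s) μ)
      (by simp) (fun s t hst ht => ht.mono_set (inter_subset_inter_right _ hst))
      (fun s t hs ht => by rw [inter_union_distrib_left]; exact hs.union ht) fun x _ => ?_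
    obtain ⟨i, z₀, R, ψ', -, hR, hB, h16, hn, hp, hle⟩ := bppolx_ball h x
    refine ⟨_, mem_nhdsWithin_of_mem_nhds hn, ?_⟩
    have ho : IsOpen (ball z₀ R ∩ A.p i ⁻¹' W ∩ ball z₀ (R / 16)) := hp.isOpen.inter isOpen_ball
    have hs : ball z₀ R ∩ A.p i ⁻¹' W ∩ ball z₀ (R / 16) ⊆ (man A hinj h.isOpen).W i :=
      fun z hz => ⟨hB (ball_subset_closedBall hz.1.1), hz.1.2⟩
    have h1 := (hd.intOn (i := i) ((hΨ i).mono inter_subset_left) ho.measurableSet hs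
      fun x => |ψ x| ^ p).2
    obtain ⟨B, hBd⟩ := (isCompact_closedBall z₀ R).exists_bound_of_continuousOn
      ((det_cont (A.C i)).mono hB)
    refine (h1 ?_).mono_set ?_
    · refine ((hp.lp p).const_mul B).mono' ?_ ?_
      · refine ContinuousOn.aestronglyMeasurable ?_ ho.measurableSet
        refine ((Man.abmeas_wt (hΨ i)).mono fun z hz => (hs hz).1).smul fun z hz => ?_
        exact ((h.smooth i z (hs hz).1 (hs hz).2).continuousAt.abs.pow p).continuousWithinAt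
      · filter_upwards [ae_restrict_mem ho.measurableSet] with z hz
        have h2 := hBd z (ball_subset_closedBall hz.1.1)
        have h3 := hle z hz.1
        rw [hw i z (hs hz).1, smul_eq_mul, Real.norm_of_nonneg (by positivity)]
        exact mul_le_mul h2 (pow_le_pow_left₀ (abs_nonneg _) h3 p) (by positivity)
          ((norm_nonneg _).trans h2)
    · rintro _ ⟨hW, z, hz, rfl⟩
      exact ⟨z, ⟨⟨h16 hz, hW⟩, hz⟩, rfl⟩
  rwa [inter_univ] at key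

theorem PolX.hol [PreconnectedSpace X] (h : PolX A W ψ) (i : A.ι) {f : E N → ℂ}
    (hf : DifferentiableOn ℂ f ((A.C i).W ∩ A.p i ⁻¹' W))
    (h2 : ∀ C, IsCompact C → C ⊆ (A.C i).W →
      IntegrableOn (fun z => ‖f z‖ ^ 2) (C ∩ A.p i ⁻¹' W) volume) :
    ∃ g, DifferentiableOn ℂ g (A.C i).W ∧ EqOn g f ((A.C i).W ∩ A.p i ⁻¹' W) := by
  have key : ∀ z₀ ∈ (A.C i).W, ∃ r > 0, ∃ g, DifferentiableOn ℂ g (ball z₀ r) ∧
      EqOn (extendFrom ((A.C i).W ∩ A.p i ⁻¹' W) f) g (ball z₀ r) ∧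
      EqOn g f (ball z₀ r ∩ A.p i ⁻¹' W) := by
    intro z₀ hz
    obtain ⟨R, hR, hB, h1⟩ := bppolx_loc h hz (h.dense _)
    obtain ⟨ψ', hp, -⟩ := h1 R hR le_rfl
    have hs : ball z₀ R ∩ A.p i ⁻¹' W ⊆ (A.C i).W ∩ A.p i ⁻¹' W :=
      inter_subset_inter_left _ (ball_subset_closedBall.trans hB)
    obtain ⟨g, hg, he⟩ := hp.hol (hf.mono hs) ((h2 _ (isCompact_closedBall z₀ R) hB).mono_set
      fun z hz' => ⟨ball_subset_closedBall hz'.1.1, hz'.1.2⟩)
    have he' : EqOn g f (ball z₀ (R / 64) ∩ A.p i ⁻¹' W) := fun z hz' =>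
      he ⟨⟨ball_subset_ball (by linarith) hz'.1, hz'.2⟩, hz'.1⟩
    refine ⟨R / 64, by linarith, g, hg, fun z hz' => ?_, he'⟩
    refine extendFrom_eq (closure_mono hs (hp.dense (ball_subset_ball (by linarith) hz'))) ?_
    have h3 : ContinuousAt g z := hg.continuousOn.continuousAt (isOpen_ball.mem_nhds hz')
    refine (h3.tendsto.mono_left nhdsWithin_le_nhds).congr' ?_
    filter_upwards [self_mem_nhdsWithin, mem_nhdsWithin_of_mem_nhds (isOpen_ball.mem_nhds hz')]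
      with y hy hy'
    exact he' ⟨hy', hy.2⟩
  refine ⟨extendFrom ((A.C i).W ∩ A.p i ⁻¹' W) f, fun z hz => ?_, fun z hz => ?_⟩
  · obtain ⟨r, hr', g, h3, h4, -⟩ := key z hz
    exact ((h3.differentiableAt (ball_mem_nhds z hr')).congr_of_eventuallyEq
      (h4.eventuallyEq_of_mem (ball_mem_nhds z hr'))).differentiableWithinAt
  · obtain ⟨r, hr', g, -, h4, h5⟩ := key z hz.1
    exact (h4 (mem_ball_self hr')).trans (h5 ⟨mem_ball_self hr', hz.2⟩)

omit [T2Space X] in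
theorem ident_on {U : Set X} (hU : IsOpen U) (hc : IsPreconnected U) {u : X → ℂ}
    (hu : HolOn A U u) {x : X} (hx : x ∈ U) (h0 : ∀ᶠ y in 𝓝 x, u y = 0) : ∀ y ∈ U, u y = 0 := by
  have key : U ⊆ {w | ∀ᶠ y in 𝓝 w, u y = 0} := by
    refine hc.subset_of_closure_inter_subset isOpen_setOfPred_eventually_nhds ⟨x, hx, h0⟩ ?_
    rintro w ⟨hw, hwU⟩
    obtain ⟨i, z₀, hz, rfl⟩ := A.cover w
    obtain ⟨r, hr', hb⟩ := Metric.isOpen_iff.1
      ((A.cont i).isOpen_inter_preimage (A.C i).isOpen hU) z₀ ⟨hz, hwU⟩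
    have hn := (A.opn i _ isOpen_ball (hb.trans inter_subset_left)).mem_nhds
      ⟨z₀, mem_ball_self hr', rfl⟩
    obtain ⟨_, ⟨z, hz', rfl⟩, h1⟩ := mem_closure_iff_nhds.1 hw _ hn
    have h2 := spident_scv isOpen_ball (convex_ball z₀ r) ((hu i).mono hb)
      (differentiableOn_const (0 : ℂ)) hz'
      (((A.cont i).continuousAt ((A.C i).isOpen.mem_nhds (hb hz').1)).eventually h1)
    refine mem_of_superset hn ?_
    rintro _ ⟨y, hy, rfl⟩
    exact h2 hy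
  exact fun y hy => (key hy).self_of_nhds

end Pool.Agent.BP
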