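import Pool.Agent.P.MP_63735c_ag.BPA0
import Pool.Agent.P.MP_63735c_ag.BPPolX
import Pool.Agent.P.MP_63735c_ag.HSAb
import Pool.Agent.P.MP_63735c_ag.SEAt

/-! Norms and quotients of sections. -/

open scoped ComplexOrder ContDiff Matrix Topology ENNReal
open Set Metric MeasureTheory Filter

namespace Pool.Agent.BP

open Pool.Agent.SPF Pool.Agent.AB Pool.Agent.CK Pool.Agent.SE Pool.Agent.NL

variable {N n : ℕ} {X : Type} [TopologicalSpace X] {A : Atlas X N} {L : Line A} {m : ℕ}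
  {s : A.ι → E N → ℂ} {i : A.ι} {z : E N}

theorem nrm_eq (hs : L.IsSection m s) (hz : z ∈ (A.C i).W) :
    nrm L m s (A.p i z) = ‖s i z‖ ^ 2 * Real.exp (-(m * L.ψ i z)) := by
  have e : ∀ t : ℝ, Real.exp (-(m * t)) = Real.exp (-t) ^ m := fun t => by
    rw [← Real.exp_nat_mul, mul_neg]
  refine gl_eq fun j y hy he => ?_
  rw [e, e, L.ψ_eq i j z hz y hy he.symm, hs.2 i j z hz y hy he.symm, norm_mul, norm_pow]
  ring

theorem nrm_norm (hs : L.IsSection m s) : A.IsSectionNorm m (nrm L m s) := by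
  intro i z hz
  exact ⟨(A.C i).W, L.ψ i, s i, (A.C i).isOpen, hz, Subset.rfl, L.ψ_smooth i, hs.1 i,
    fun w hw => ⟨L.curv i w hw, by rw [nrm_eq hs hw, neg_mul]⟩⟩

theorem nrm_smooth (hs : L.IsSection m s) (i : A.ι) :
    ContDiffOn ℝ ∞ (fun z => nrm L m s (A.p i z)) (A.C i).W := by
  have h1 : ContDiffOn ℝ ∞ (s i) (A.C i).W :=
    (Lib.SCV.contDiffOn_of_differentiableOn (A.C i).isOpen (hs.1 i)).restrict_scalars ℝ
  exact ((h1.norm_sq ℝ).mul (contDiffOn_const.mul (L.ψ_smooth i)).neg.exp).congr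
    fun w hw => nrm_eq hs hw

namespace Sec

variable (S : Sec L n)

theorem U_iff (hz : z ∈ (A.C i).W) : A.p i z ∈ S.U ↔ S.s 0 i z ≠ 0 := by
  rw [U, mem_ofPred_eq, nrm_eq (S.sec 0) hz]
  simp

theorem U_open : IsOpen S.U := by
  exact sect_open (nrm_norm (S.sec 0))

theorem tube_mem {b : E n} (hb : b ∈ S.T) (τ : E n) : S.Ψ (b, τ) ∈ S.U := by
  obtain ⟨j, y, hy, he⟩ := A.cover (S.Ψ (b, τ))
  rw [← he]
  exact (S.U_iff hy).2 (S.sep b hb τ j y hy he).1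

theorem φ_eq (hz : z ∈ (A.C i).W) (hU : A.p i z ∈ S.U) :
    Real.exp (-S.φ (A.p i z)) = ‖S.s 0 i z‖ ^ 2 * Real.exp (-(S.m * L.ψ i z)) := by
  rw [φ, neg_neg, Real.exp_log (lt_of_le_of_ne (sect_nonneg (nrm_norm (S.sec 0)) _) (Ne.symm hU)),
    nrm_eq (S.sec 0) hz]

theorem φ_smooth (hz : z ∈ (A.C i).W) (hU : A.p i z ∈ S.U) :
    ContDiffAt ℝ ∞ (fun w => S.φ (A.p i w)) z := by
  exact (lev_log_sect (nrm_norm (S.sec 0)) hz hU).1.neg

theorem φ_lev (hz : z ∈ (A.C i).W) (hU : A.p i z ∈ S.U) :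
    lev (fun w => S.φ (A.p i w)) z = (S.m : ℂ) • (A.C i).η z := by
  obtain ⟨h1, h2⟩ := lev_log_sect (nrm_norm (S.sec 0)) hz hU
  have h3 := lev_smul h1 (-1)
  rw [h2, smul_smul] at h3
  simpa [φ] using h3

theorem φ_cpt [CompactSpace X] (c : ℝ) : IsCompact {x | x ∈ S.U ∧ S.φ x ≤ c} := by
  have h : {x | x ∈ S.U ∧ S.φ x ≤ c} = {x | Real.exp (-c) ≤ nrm L S.m (S.s 0) x} := by
    ext x
    constructor
    · rintro ⟨hU, hc⟩
      have h0 := lt_of_le_of_ne (sect_nonneg (nrm_norm (S.sec 0)) x) (Ne.symm hU)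
      exact (Real.le_log_iff_exp_le h0).1 (neg_le.1 hc)
    · intro hx
      have h0 := (Real.exp_pos _).trans_le hx
      exact ⟨h0.ne', neg_le.1 ((Real.le_log_iff_exp_le h0).2 hx)⟩
  rw [h]
  exact (isClosed_le continuous_const (sect_cont (nrm_norm (S.sec 0)))).isCompact

theorem φ_bd [CompactSpace X] : ∃ c, ∀ x ∈ S.U, c ≤ S.φ x := by
  obtain ⟨M, hM⟩ := (isCompact_range (sect_cont (nrm_norm (S.sec 0)))).bddAbove
  refine ⟨-Real.log M, fun x hU => neg_le_neg ?_⟩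
  exact Real.log_le_log (lt_of_le_of_ne (sect_nonneg (nrm_norm (S.sec 0)) x) (Ne.symm hU))
    (hM ⟨x, rfl⟩)

theorem g_eq (hz : z ∈ (A.C i).W) (l : Fin n) :
    S.g (A.p i z) l = S.s l.succ i z / S.s 0 i z := by
  have h : S.g (A.p i z) = fun l => S.s l.succ i z / S.s 0 i z := by
    refine gl_eq fun j y hy he => funext fun l => ?_
    have h0 : L.g i j (A.p i z) ≠ 0 := fun e => by
      have := L.ψ_eq i j z hz y hy he.symm
      rw [e] at this
      simp at this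
    rw [(S.sec l.succ).2 i j z hz y hy he.symm, (S.sec 0).2 i j z hz y hy he.symm,
      mul_div_mul_left _ _ (pow_ne_zero _ h0)]
  rw [h]

theorem bpa1_diff (hz : z ∈ (A.C i).W) (hU : A.p i z ∈ S.U) (l : Fin n) :
    DifferentiableAt ℂ (fun w => S.g (A.p i w) l) z := by
  have hn := (A.C i).isOpen.mem_nhds hz
  refine ((((S.sec l.succ).1 i).differentiableAt hn).fun_mul
    ((((S.sec 0).1 i).differentiableAt hn).fun_inv ((S.U_iff hz).1 hU))).congr_of_eventuallyEq ?_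
  filter_upwards [hn] with w hw
  rw [S.g_eq hw, div_eq_mul_inv]

theorem holU (hinj : ∀ i, InjOn (A.p i) (A.C i).W) : HolU A S.U S.g := by
  exact ⟨hinj, S.U_open, fun i z hz hU => differentiableAt_pi.2 fun l => S.bpa1_diff hz hU l⟩

theorem g_sep {b b' : E n} (hb : b ∈ S.T) (hb' : b' ∈ S.T) (τ τ' : E n) :
    S.g (S.Ψ (b, τ)) = S.g (S.Ψ (b', τ')) ↔ b = b' := by
  obtain ⟨j, y, hy, he⟩ := A.cover (S.Ψ (b, τ))
  obtain ⟨j', y', hy', he'⟩ := A.cover (S.Ψ (b', τ'))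
  obtain ⟨h0, h1⟩ := S.sep b hb τ j y hy he
  have h0' := (S.sep b' hb' τ' j' y' hy' he').1
  rw [← h1 b' hb' τ' j' y' hy' he', ← he, ← he', funext_iff, Fin.forall_fin_succ, div_self h0,
    div_self h0']
  simp only [S.g_eq hy, S.g_eq hy', true_and]

theorem U_conn [T2Space X] [CompactSpace X] [PreconnectedSpace X] : IsPreconnected S.U := by
  obtain ⟨c, hc⟩ := S.φ_bd
  obtain ⟨b, hb⟩ := S.T_ne
  refine PolX.conn (A := A) (ψ := fun x => c - 1 - S.φ x) ⟨S.U_open, ⟨_, S.tube_mem hb 0⟩,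
    fun i z hz hU => contDiffAt_const.sub (S.φ_smooth hz hU), fun x hx => ?_,
    ⟨S.m, Nat.cast_nonneg _, fun i z hz hU v => ?_⟩, fun d => ?_⟩
  · have := hc x hx
    linarith
  · have h1 : (fun w => c - 1 - S.φ (A.p i w)) = fun w => (c - 1) + (-1 : ℝ) * S.φ (A.p i w) := by
      funext w
      ring
    rw [h1, hr, hr, lev_add contDiffAt_const (contDiffAt_const.mul (S.φ_smooth hz hU)), lev_const,
      zero_add, lev_smul (S.φ_smooth hz hU), S.φ_lev hz hU, hq_smul, hq_smul]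
    simp
  · convert S.φ_cpt (c - 1 + d) using 4 with x
    constructor <;> intro h <;> linarith

theorem dr_φ (hz : z ∈ (A.C i).W) (hU : A.p i z ∈ S.U) :
    dr (fun w => S.φ (A.p i w)) z = -(S.s 0 i z)⁻¹ • cov1 S.m (L.ψ i) (S.s 0 i) z := by
  have hn := (A.C i).isOpen.mem_nhds hz
  have h0 := (S.U_iff hz).1 hU
  have a1 := ((S.sec 0).1 i).differentiableAt hn
  have a3 := a1.restrictScalars ℝ
  have a4 : ‖S.s 0 i z‖ ^ 2 ≠ 0 := pow_ne_zero _ (norm_ne_zero_iff.2 h0)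
  have aψ := diffAt (A.C i).isOpen (L.ψ_smooth i) hz
  have e1 : (fun w => S.φ (A.p i w)) =ᶠ[𝓝 z]
      fun w => -Real.log (‖S.s 0 i w‖ ^ 2) + S.m * L.ψ i w := by
    filter_upwards [hn, a1.continuousAt.eventually_ne h0] with w hw hw0
    rw [φ, nrm_eq (S.sec 0) hw, Real.log_mul (pow_ne_zero _ (norm_ne_zero_iff.2 hw0))
      (Real.exp_pos _).ne', Real.log_exp]
    ring
  have a5 := dr_chain (f := fun x => ‖S.s 0 i x‖ ^ 2) (z := z)
    (Real.hasDerivAt_log a4).neg (a3.norm_sq ℝ)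
  have a7 := dr_chain (f := L.ψ i) (z := z) ((hasDerivAt_id' _).const_mul (S.m : ℝ)) aψ
  have a6 : (fun x => ((‖S.s 0 i x‖ ^ 2 : ℝ) : ℂ)) = fun x => S.s 0 i x * star (S.s 0 i x) := by
    funext x
    rw [Complex.star_def, Complex.mul_conj, Complex.normSq_eq_norm_sq]
  have a8 : ∀ a, dr (fun x => ‖S.s 0 i x‖ ^ 2) z a = dz a (S.s 0 i) z * star (S.s 0 i z) := by
    intro a
    rw [dr, a6, (dz_mul a3 (ablev_star a3) a).1, ← (star_dz (S.s 0 i) z a).2, (dz_of_diff a1 a).2,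
      star_zero, mul_zero, add_zero]
  simp only [Pi.neg_apply] at a5
  rw [(dr_congr e1).self_of_nhds, dr_add ((a3.norm_sq ℝ).log a4).fun_neg (aψ.const_mul _), a5, a7]
  funext a
  have a9 : star (S.s 0 i z) ≠ 0 := star_ne_zero.2 h0
  simp only [Pi.add_apply, Pi.smul_apply, smul_eq_mul, cov1, a8, Complex.ofReal_neg,
    Complex.ofReal_inv, congrFun a6 z]
  push_cast
  field_simp
  ring

theorem Jg_eq (hz : z ∈ (A.C i).W) (hU : A.p i z ∈ S.U) (l : Fin n) (a : Fin N) :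
    S.s 0 i z ^ 2 * Jg A S.g i z l a =
      S.s 0 i z * dz a (S.s l.succ i) z - S.s l.succ i z * dz a (S.s 0 i) z := by
  have hn := (A.C i).isOpen.mem_nhds hz
  have h0 := (S.U_iff hz).1 hU
  have a1 := ((S.sec 0).1 i).differentiableAt hn
  have a2 := S.bpa1_diff hz hU l
  have e1 : Jg A S.g i z l a = dz a (fun w => S.g (A.p i w) l) z := by
    rw [(dz_of_diff a2 a).1, Jg, jac, Matrix.of_apply,
      fderiv_pi (φ := fun l w => S.g (A.p i w) l) fun l => S.bpa1_diff hz hU l]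
    rfl
  have e2 : S.s l.succ i =ᶠ[𝓝 z] fun w => S.s 0 i w * S.g (A.p i w) l := by
    filter_upwards [hn, a1.continuousAt.eventually_ne h0] with w hw hw0
    rw [S.g_eq hw, mul_div_cancel₀ _ hw0]
  rw [e1, (dz_congr e2 a).self_of_nhds, (dz_mul (a1.restrictScalars ℝ) (a2.restrictScalars ℝ) a).1,
    e2.self_of_nhds]
  ring

end Sec

end Pool.Agent.BP
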