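import Pool.Agent.P.MP_63735c_ag.BF0
import Pool.Agent.P.MP_63735c_ag.HGj
import Pool.Agent.P.MP_63735c_ag.ZBB11a
import Pool.Agent.P.MP_63735c_ag.HXSD

/-! Forms on the resolution and on the regular part. -/

open scoped ComplexOrder ContDiff Matrix Topology
open Set Metric MeasureTheory Filter

namespace Pool.Agent.BF

open Pool.Agent.SPF Pool.Agent.AB Pool.Agent.HX Pool.Agent.CK Pool.Agent.SE Pool.Agent.ZB
  Pool.Agent.BP

variable {N : ℕ}

section
variable {X : Type} [TopologicalSpace X] {A : Atlas X N} {L : Line A} {Y : Type}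
  [TopologicalSpace Y] {Z : Res L Y}

theorem ch_of {i k : A.ι} {O : Set (E N)} {φ : E N → E N} (a : IsChange (A.C i) (A.C k) O φ)
    (b : ∀ w ∈ O, A.p k (φ w) = A.p i w) {z : E N} (hz : z ∈ O) : (zbb11d_man Z).Ch i k z φ := by
  filter_upwards [a.isOpen.mem_nhds hz] with w hw
  exact ⟨a.hol.differentiableAt (a.isOpen.mem_nhds hw), Z.sub k (a.maps hw),
    (Z.p_congr (a.maps hw) (a.sub hw)).2 (b w hw)⟩

/-- The restriction of a form to the regular part. -/
def res {a : A.ι → E N → Mat N} (h : Frm (zbb11d_man Z) a) : Form11 A where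
  h := a
  smooth i b c := ((h.clo i).smooth b c).mono (Z.sub i)
  herm i z hz := (h.clo i).herm z (Z.sub i hz)
  closed i z hz := (h.clo i).closed z (Z.sub i hz)
  compat i j _ φ a b z hz := h.cpt i j z (Z.sub i (a.sub hz)) φ (ch_of a b hz)

theorem ext_mat (h : Full Z) {f : A.ι → E N → Mat N} (hu : ∀ a b, Upto Z fun i z => f i z a b)
    {act : Mat N → Mat N → Mat N} (hc : Continuous fun q : Mat N × Mat N => act q.1 q.2)
    (hf : ∀ i j O φ, IsChange (A.C i) (A.C j) O φ → (∀ w ∈ O, A.p j (φ w) = A.p i w) →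
      ∀ z ∈ O, f i z = act (jac φ z) (f j (φ z))) :
    ∃ g : A.ι → E N → Mat N, (∀ i a b, ContDiffOn ℝ ∞ (fun z => g i z a b) (Z.W (Z.c i))) ∧
      (∀ i, ContinuousOn (g i) (Z.W (Z.c i))) ∧ (∀ i, EqOn (g i) (f i) (A.C i).W) ∧
      (∀ i, ∀ z ∈ (A.C i).W, ∀ a b c, dz a (fun w => g i w b c) z = dz a (fun w => f i w b c) z) ∧
      ∀ i j, ∀ z ∈ Z.W (Z.c i), ∀ φ, (zbb11d_man Z).Ch i j z φ →
        g i z = act (jac φ z) (g j (φ z)) := by
  choose g h1 h2 using fun a b => h.ext (hu a b)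
  let γ : A.ι → E N → Mat N := fun i z => Matrix.of fun a b => g a b i z
  have e : ∀ i, EqOn (γ i) (f i) (A.C i).W := fun i z hz => Matrix.ext fun a b => h2 a b i hz
  have c : ∀ i, ContinuousOn (γ i) (Z.W (Z.c i)) := fun i =>
    continuousOn_pi.2 fun a => continuousOn_pi.2 fun b => (h1 a b i).continuousOn
  refine ⟨γ, fun i a b => h1 a b i, c, e, fun i z hz a b c => (dz_congr (mem_of_superset
    ((A.C i).isOpen.mem_nhds hz) fun t ht => h2 b c i ht) a).self_of_nhds, fun i j z hz φ hφ => ?_⟩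
  obtain ⟨O, hO, ho, hzO⟩ := _root_.eventually_nhds_iff.1 (hφ.and ((Z.isOpen _).mem_nhds hz))
  have hh : DifferentiableOn ℂ φ O := fun w hw => (hO w hw).1.1.differentiableWithinAt
  have hj : ContinuousOn (jac φ) O :=
    continuousOn_pi.2 fun a => continuousOn_pi.2 fun b => (jac_hol ho hh a b).continuousOn
  refine h.eqOn (g := fun w => act (jac φ w) (γ j (φ w))) ho (fun w hw => (hO w hw).2)
    ((c i).mono fun w hw => (hO w hw).2) (hc.comp_continuousOn
      (hj.prodMk ((c j).comp hh.continuousOn fun w hw => (hO w hw).1.2.1))) (fun w hw => ?_) hzO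
  have c0 := (hO w hw.1).1.2
  obtain ⟨c3, c4⟩ := h.mem c0.1 (c0.2.trans (Z.p_eq i w hw.2))
  obtain ⟨O', ψ, c5, c6, c8, c7⟩ := A.trans i j w hw.2 _ c3 c4.symm
  have c9 : ψ =ᶠ[𝓝 w] φ := by
    filter_upwards [ch_of (Z := Z) c5 c7 c6, ho.mem_nhds hw.1] with u h3 h4
    exact Z.inj _ h3.2.1 (hO u h4).1.2.1 (h3.2.2.trans (hO u h4).1.2.2.symm)
  beta_reduce
  rw [e i hw.2, e j c3, hf i j O' ψ c5 c7 w c6, c8, jac, jac, c9.fderiv_eq]

theorem ext_frm (h : Full Z) (K : Form11 A) (hu : ∀ a b, Upto Z fun i z => K.h i z a b)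
    (hK : ∀ i, ∀ z ∈ (A.C i).W, (K.h i z).PosDef) : ∃ K', Frm (zbb11d_man Z) K' ∧
      (∀ i, EqOn (K' i) (K.h i) (A.C i).W) ∧ ∀ i, ∀ z ∈ Z.W (Z.c i), (K' i z).PosSemidef := by
  obtain ⟨g, h1, h2, h3, h4, h5⟩ := ext_mat h hu (act := fun J M => Jᵀ * M * J.map star)
    ((continuous_fst.matrix_transpose.matrix_mul continuous_snd).matrix_mul
      (continuous_fst.matrix_map continuous_star)) K.compat
  have h6 : ∀ i, ∀ z ∈ Z.W (Z.c i), (g i z).IsHermitian := fun i =>
    h.eqOn (f := fun z => (g i z)ᴴ) (Z.isOpen _) Subset.rfl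
      (continuous_id.matrix_conjTranspose.comp_continuousOn (h2 i)) (h2 i) fun w hw => by
        beta_reduce
        rw [h3 i hw.2]
        exact K.herm i w hw.2
  have h7 := fun i a b c => (dz_smooth (Z.isOpen (Z.c i)) (h1 i b c) a).1.continuousOn
  refine ⟨g, ⟨fun i => ⟨h1 i, h6 i, fun z hz b c d => h.eqOn (Z.isOpen _) Subset.rfl (h7 i d b c)
    (h7 i b d c) (fun w hw => ?_) hz⟩, h5⟩, h3, fun i z hz => psd_of_hq (h6 i z hz) fun v => ?_⟩
  · rw [h4 i w hw.2, h4 i w hw.2, K.closed i w hw.2]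
  · have c : Continuous fun M : Mat N => (hq M v v).re := by
      unfold hq
      fun_prop
    refine ContinuousWithinAt.closure_le (f := fun _ => 0) (g := fun z => (hq (g i z) v v).re)
      (h.dense i hz) continuousWithinAt_const (c.continuousAt.comp
        ((h2 i).continuousAt ((Z.isOpen _).mem_nhds hz))).continuousWithinAt fun w hw => ?_
    rw [h3 i hw]
    exact hq_nonneg (hK i w hw).posSemidef v

theorem ext_h2 (h : Full Z) {γ : A.ι → E N → Mat N} (hγ : Is20 A γ)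
    (hu : ∀ a b, Upto Z fun i z => γ i z a b)
    (hc : ∀ i, ∀ z ∈ (A.C i).W, ∀ a b c, dz a (fun w => γ i w b c) z +
      dz b (fun w => γ i w c a) z + dz c (fun w => γ i w a b) z = 0) :
    ∃ γ', H2 (zbb11d_man Z) γ' ∧ ∀ i, EqOn (γ' i) (γ i) (A.C i).W := by
  obtain ⟨g, h1, h2, h3, h4, h5⟩ := ext_mat h hu (act := fun J M => Jᵀ * M * J)
    ((continuous_fst.matrix_transpose.matrix_mul continuous_snd).matrix_mul continuous_fst) hγ.2.2
  have h7 := fun i a b c => (dz_smooth (Z.isOpen (Z.c i)) (h1 i b c) a).1.continuousOn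
  refine ⟨g, ⟨h1, fun i => h.eqOn (f := fun z => (g i z)ᵀ) (Z.isOpen _) Subset.rfl
    (continuous_id.matrix_transpose.comp_continuousOn (h2 i)) (h2 i).neg fun w hw => ?_, h5,
    fun i z hz a b c => h.eqOn (Z.isOpen _) Subset.rfl
      (((h7 i a b c).add (h7 i b c a)).add (h7 i c a b)) continuousOn_const (fun w hw => ?_) hz⟩, h3⟩
  · simp only [h3 i hw.2]
    exact hγ.2.1 i w hw.2
  · simpa only [Pi.add_apply, h4 i w hw.2] using hc i w hw.2 a b c

theorem ext_σ (h : Full Z) : ∃ s, H2 (zbb11d_man Z) s ∧ (∀ i, EqOn (s i) (A.C i).σ (A.C i).W) ∧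
    ∀ i a b, DifferentiableOn ℂ (fun z => s i z a b) (Z.W (Z.c i)) := by
  choose t h1 h2 using h.σ_ext
  obtain ⟨s, h3, h4⟩ := ext_h2 h (γ := fun i => (A.C i).σ)
    ⟨fun i => zbb11a_hol (A.C i).isOpen (A.C i).σ_hol, fun i => (A.C i).σ_skew,
      fun i j O φ a _ => a.σ_eq⟩ (fun a b i w hw => by
      obtain ⟨r, h0, hr⟩ := Metric.isOpen_iff.1 (Z.isOpen _) w hw
      exact ⟨r, _, h0, (zbb11a_hol (Z.isOpen _) (h1 i) a b).mono hr,
        fun v hv => congrFun (congrFun (h2 i hv.2) a) b⟩) fun i => (A.C i).σ_closed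
  exact ⟨s, h3, h4, fun i a b => (h1 i a b).congr (h.eqOn (Z.isOpen _) Subset.rfl
    (h3.smooth i a b).continuousOn (h1 i a b).continuousOn fun w hw =>
      congrFun (congrFun ((h4 i hw.2).trans (h2 i hw.2).symm) a) b)⟩

theorem hodge [CompactSpace Y] [T2Space Y] [MeasurableSpace Y] [BorelSpace Y] (h : Full Z)
    (h20 : H20 A) {s γ : A.ι → E N → Mat N} (hs : H2 (zbb11d_man Z) s)
    (e : ∀ i, EqOn (s i) (A.C i).σ (A.C i).W) (hγ : H2 (zbb11d_man Z) γ) :
    ∃ (c : ℂ) (β : A.ι → E N → E N), BF.H1 (zbb11d_man Z) β ∧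
      ∀ i, ∀ z ∈ Z.W (Z.c i), γ i z = c • s i z + del (β i) z := by
  obtain ⟨ρ, _, _, C, hC, ⟨T⟩⟩ := exists_du' N
  obtain ⟨β, k, b1, b2, b3, b4⟩ := Geo.hodge2 (X := h.geo C hC) (fun _ => rfl) T
    ⟨hγ.smooth, hγ.skew, fun i j z hz y hy e => by
      have := hγ.cpt i j z hz _ (Geo.ch_Ch (X := h.geo C hC) hz hy e)
      rwa [Geo.ch_eq (X := h.geo C hC) hy e] at this⟩ hγ.closed
  obtain ⟨c, hc⟩ := h20 k (Full.is20 b2) fun i a b => (b3 i a b).mono (Z.sub i)
  refine ⟨c, β, ⟨b1.smooth, fun i j z hz φ hφ => ?_⟩, fun i z hz => Matrix.ext fun a b => ?_⟩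
  · rw [b1.cpt i j z hz _ hφ.self_of_nhds.2.1 hφ.self_of_nhds.2.2.symm, jac, jac,
      (Geo.ch_ev (X := h.geo C hC) hφ).fderiv_eq]
  · have e1 : k i z a b = c * s i z a b := h.eqOn (g := fun w => c * s i w a b) (Z.isOpen _)
      Subset.rfl (b2.smooth i a b).continuousOn
      (continuousOn_const.mul (hs.smooth i a b).continuousOn)
      (fun w hw => by simp only [hc i w hw.2, e i hw.2, Matrix.smul_apply, smul_eq_mul]) hz
    rw [b4 i z hz, e1, add_sub_assoc]
    rfl

/-- The contraction of `K` with itself. -/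
noncomputable def gam2 (K : Form11 A) (i : A.ι) (z : E N) : Mat N :=
  K.h i z * ((A.C i).σ z)⁻¹.map star * (K.h i z)ᵀ

theorem gam2_is20 (K : Form11 A) : Is20 A (gam2 K) := by
  refine ⟨fun i => zbb11a_mul (zbb11a_mul (K.smooth i) (zbb11a_star (A.C i).reg_π))
    (zbb11a_tr (K.smooth i)), fun i z hz => ?_, fun i j O φ h hp z hz => ?_⟩
  · rw [gam2, Matrix.transpose_mul, Matrix.transpose_mul, bpb11_skew hz, Matrix.transpose_transpose,
      Matrix.neg_mul, Matrix.mul_neg, Matrix.mul_assoc]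
  · rw [gam2, gam2, bpb11_π h hz, K.compat i j O φ h hp z hz]
    simp only [Matrix.transpose_mul, Matrix.transpose_transpose, Matrix.mul_assoc]

theorem gam2_closed (K : Form11 A) (i : A.ι) {z : E N} (hz : z ∈ (A.C i).W) (a b c : Fin N) :
    dz a (fun w => gam2 K i w b c) z + dz b (fun w => gam2 K i w c a) z +
      dz c (fun w => gam2 K i w a b) z = 0 := by
  have ho := (A.C i).isOpen
  have d1 := fun b e => diffAt ho (K.smooth i b e) hz
  have d2 := fun e f => diffAt ho (reg_star ((A.C i).reg_π e f)) hz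
  have d4 := fun b c e f => ((d1 b e).fun_mul (d2 e f)).fun_mul (d1 c f)
  have h : ∀ a b c, dz a (fun w => gam2 K i w b c) z =
      ∑ f, ∑ e, dz a (fun w => K.h i w b e) z * star ((A.C i).π z e f) * K.h i z c f -
        ∑ f, ∑ e, dz a (fun w => K.h i w c e) z * star ((A.C i).π z e f) * K.h i z b f := by
    intro a b c
    have e : (fun w => gam2 K i w b c) =
        fun w => ∑ f, ∑ e, K.h i w b e * star ((A.C i).π w e f) * K.h i w c f := by
      funext w
      simp only [gam2, Matrix.mul_apply, Finset.sum_mul]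
      rfl
    rw [e, (dz_sum _ (fun f _ => DifferentiableAt.fun_sum fun e _ => d4 b c e f) a).1,
      Finset.sum_comm (f := fun f e => dz a (fun w => K.h i w c e) z * _ * _),
      ← Finset.sum_sub_distrib]
    refine Finset.sum_congr rfl fun f _ => ?_
    rw [(dz_sum _ (fun e _ => d4 b c e f) a).1, ← Finset.sum_sub_distrib]
    refine Finset.sum_congr rfl fun e _ => ?_
    rw [(dz_mul ((d1 b e).fun_mul (d2 e f)) (d1 c f) a).1, (dz_mul (d1 b e) (d2 e f) a).1,
      ← (star_dz _ z a).2, (dz_of_diff (((A.C i).π_hol e f).differentiableAt (ho.mem_nhds hz)) a).2,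
      star_zero, mul_zero, add_zero, Chart.π_skew hz f e, star_neg]
    ring
  simp only [h, K.closed i z hz a _ b, K.closed i z hz a _ c, K.closed i z hz b _ c]
  ring

end

variable {X : Type} [TopologicalSpace X] {R : Set X} {A : Atlas R N} {B : Amb R A}
  {K : Form11 A} {L : Line A} {Y : Type} [TopologicalSpace Y] {Z : Res L Y}

theorem upto_gam2 (P : Over B Z) (hK : KahS B K) (a b : Fin N) :
    Upto Z fun i z => gam2 K i z a b := by
  intro i w hw
  obtain ⟨α, r, J, H, e, p, hr, hJ, hH, -, hp, h⟩ := zbb11a_loc P hK i hw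
  refine ⟨r, _, hr, zbb11a_mul (zbb11a_mul (zbb11a_tr hJ)
    (zbb11a_mul (zbb11a_mul hH (zbb11a_star hp)) (zbb11a_tr hH))) hJ a b, fun v hv => ?_⟩
  obtain ⟨h1, -, h3⟩ := h v hv
  have h4 : (p v).map star =
      (J v).map star * ((A.C i).σ v)⁻¹.map star * ((J v).map star)ᵀ := by
    rw [h3, ← Matrix.transpose_map]
    exact (Matrix.map_mul (f := starRingEnd ℂ)).trans
      (congrArg (· * _) (Matrix.map_mul (f := starRingEnd ℂ)))
  beta_reduce
  rw [gam2, h1, h4]
  simp only [Matrix.transpose_mul, Matrix.transpose_transpose, Matrix.mul_assoc]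

end Pool.Agent.BF
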