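import Pool.Agent.P.MP_63735c_ag.HXN1
import Pool.Agent.P.MP_63735c_ag.ABGam

/-! Global functions attached to forms, and the volume of a Kähler form. -/

open scoped ComplexOrder ContDiff Matrix Topology ENNReal
open Set Metric MeasureTheory Filter

namespace Pool.Agent.HX

open Pool.Agent.SPF Pool.Agent.AB

variable {N : ℕ}

section
variable {K K' J M M' : Mat N}

theorem hn_conj (hK : K.PosDef) (h : K = Jᵀ * K' * J.map star) : IsUnit (J.map star).det ∧
    ∀ M : Mat N, K⁻¹ * (Jᵀ * M * J.map star) = (J.map star)⁻¹ * (K'⁻¹ * M) * J.map star := by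
  have h1 := (Matrix.isUnit_iff_isUnit_det K).1 hK.isUnit
  rw [h, Matrix.det_mul, Matrix.det_mul] at h1
  have h3 := isUnit_of_mul_isUnit_left (isUnit_of_mul_isUnit_left h1)
  refine ⟨isUnit_of_mul_isUnit_right h1, fun M => ?_⟩
  rw [h, Matrix.mul_inv_rev, Matrix.mul_inv_rev]
  simp only [mul_assoc]
  rw [Matrix.nonsing_inv_mul_cancel_left _ _ h3]

theorem hn_trK (hK : K.PosDef) (h : K = Jᵀ * K' * J.map star) (M : Mat N) :
    trK K (Jᵀ * M * J.map star) = trK K' M := by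
  obtain ⟨h1, h2⟩ := hn_conj hK h
  rw [trK, h2, Matrix.trace_mul_cycle, Matrix.mul_nonsing_inv _ h1, one_mul, trK]

theorem hn_bK (hK : K.PosDef) (h : K = Jᵀ * K' * J.map star) (M M' : Mat N) :
    bK K (Jᵀ * M * J.map star) (Jᵀ * M' * J.map star) = bK K' M M' := by
  obtain ⟨h1, h2⟩ := hn_conj hK h
  rw [bK, hn_trK hK h, hn_trK hK h, tr2, h2, h2, bK, tr2]
  simp only [mul_assoc]
  rw [Matrix.mul_nonsing_inv_cancel_left _ _ h1, Matrix.trace_mul_comm]
  simp only [mul_assoc]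
  rw [Matrix.mul_nonsing_inv _ h1, mul_one]

theorem hn_det_conj (J M : Mat N) : (Jᵀ * M * J.map star).det.re = ‖J.det‖ ^ 2 * M.det.re := by
  have h : (J.map star).det = starRingEnd ℂ J.det := (RingHom.map_det (starRingEnd ℂ) J).symm
  rw [Matrix.det_mul, Matrix.det_mul, Matrix.det_transpose, h, mul_right_comm, Complex.mul_conj',
    ← Complex.ofReal_pow, Complex.re_ofReal_mul]

end

theorem hn_cont {Z : Type} [TopologicalSpace Z] {K a : Z → Mat N} {S : Set Z} {z : Z}
    (hK : ContinuousWithinAt K S z) (ha : ContinuousWithinAt a S z) (h : (K z).PosDef) :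
    ContinuousWithinAt (fun y => trK (K y) (a y)) S z ∧
      ContinuousWithinAt (fun y => bK (K y) (a y) (a y)) S z := by
  have h1 : ContinuousWithinAt (fun y => (K y)⁻¹ * a y) S z := by
    refine ContinuousWithinAt.mul ((continuousAt_matrix_inv _ ?_).comp_continuousWithinAt hK) ha
    obtain ⟨u, hu⟩ := (Matrix.isUnit_iff_isUnit_det _).1 h.isUnit
    exact hu ▸ NormedRing.inverse_continuousAt u
  have h2 : Continuous fun M : Mat N => M.trace := continuous_id.matrix_trace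
  have h3 := h2.continuousAt.comp_continuousWithinAt h1
  exact ⟨h3, (h3.mul h3).sub (h2.continuousAt.comp_continuousWithinAt (h1.mul h1))⟩

variable {Y : Type} [TopologicalSpace Y]

section
variable {D : Man Y N} {K a b : D.ι → E N → Mat N}

theorem hn_glob {G : Type} [Zero G] {f : D.ι → E N → G}
    (hf : ∀ i j, ∀ z ∈ D.W i, ∀ φ, D.Ch i j z φ → f i z = f j (φ z)) {i : D.ι} {z : E N}
    (hz : z ∈ D.W i) : glob D f (D.p i z) = f i z := by
  have hx : ∃ q : D.ι × E N, q.2 ∈ D.W q.1 ∧ D.p q.1 q.2 = D.p i z := ⟨(i, z), hz, rfl⟩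
  rw [glob, dif_pos hx]
  obtain ⟨φ, e, hφ⟩ := D.trans i _ z hz _ hx.choose_spec.1 hx.choose_spec.2.symm
  rw [hf i _ z hz φ hφ, e]

theorem hn_frm (h : Kf D K) : Frm D K :=
  ⟨fun i => ⟨(h.kah i).smooth, fun z hz => ((h.kah i).pos z hz).1, (h.kah i).closed⟩, h.cpt⟩

theorem hn_kf (h : Frm D K) (hp : ∀ i, ∀ z ∈ D.W i, ∀ v, v ≠ 0 → 0 < (hq (K i z) v v).re) :
    Kf D K :=
  ⟨fun i => ⟨(h.clo i).smooth, fun z hz => posDef_of_hq ((h.clo i).herm z hz) (hp i z hz),
    (h.clo i).closed⟩, h.cpt⟩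

theorem hn_add (ha : Frm D a) (hb : Frm D b) : Frm D fun i z => a i z + b i z := by
  refine ⟨fun i => ⟨fun c d => ((ha.clo i).smooth c d).add ((hb.clo i).smooth c d),
    fun z hz => ((ha.clo i).herm z hz).add ((hb.clo i).herm z hz), fun z hz c d e => ?_⟩,
    fun i j z hz φ hφ => ?_⟩
  · have key := fun c d e => (dz_add (diffAt (D.isOpen i) ((ha.clo i).smooth c d) hz)
      (diffAt (D.isOpen i) ((hb.clo i).smooth c d) hz) e).1
    refine (key c d e).trans (Eq.trans ?_ (key e d c).symm)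
    rw [(ha.clo i).closed z hz, (hb.clo i).closed z hz]
  · rw [Matrix.mul_add, Matrix.add_mul, ← ha.cpt i j z hz φ hφ, ← hb.cpt i j z hz φ hφ]

theorem hn_smul (ha : Frm D a) (s : ℝ) : Frm D fun i z => (s : ℂ) • a i z := by
  refine ⟨fun i => ⟨fun c d => contDiffOn_const.mul ((ha.clo i).smooth c d),
    fun z hz => ((ha.clo i).herm z hz).smul (Complex.conj_ofReal _), fun z hz c d e => ?_⟩,
    fun i j z hz φ hφ => ?_⟩
  · have key := fun c d e => (dz_mul (differentiableAt_const (s : ℂ))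
      (diffAt (D.isOpen i) ((ha.clo i).smooth c d) hz) e).1
    refine (key c d e).trans (Eq.trans ?_ (key e d c).symm)
    rw [(ha.clo i).closed z hz, (dz_const _ _).1, (dz_const _ _).1, zero_mul, zero_mul]
  · rw [Matrix.mul_smul, Matrix.smul_mul, ← ha.cpt i j z hz φ hφ]

theorem hn_lev {l : Y → ℝ} (hl : D.Smo l) : Frm D (D.levG l) :=
  ⟨fun i => ⟨lev_smooth (D.isOpen i) (hl i),
    fun _ hz => lev_herm ((hl i).contDiffAt ((D.isOpen i).mem_nhds hz)),
    fun _ hz => lev_closed ((hl i).contDiffAt ((D.isOpen i).mem_nhds hz))⟩, Man.levG_cpt hl⟩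

theorem hn_contOn (ha : Frm D a) (i : D.ι) : ContinuousOn (a i) (D.W i) :=
  continuousOn_pi.2 fun b => continuousOn_pi.2 fun c => ((ha.clo i).smooth b c).continuousOn

/-- A form is bounded on compact sets. -/
theorem hn_dom (hK : Kf D K) (ha : Frm D a) {S : Set Y} (hS : IsCompact S) (h : S ⊆ D.M) :
    ∃ M, 0 ≤ M ∧ ∀ i, ∀ z ∈ D.W i, D.p i z ∈ S → Dom (K i z) (a i z) M := by
  have k0 := fun i z hz v => hq_nonneg ((hK.kah i).pos z hz).posSemidef v
  refine hS.induction_on (p := fun T => ∃ M, 0 ≤ M ∧ ∀ i, ∀ z ∈ D.W i, D.p i z ∈ T →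
    Dom (K i z) (a i z) M) ⟨0, le_rfl, fun _ _ _ e => e.elim⟩
    (fun s t hst ⟨M, h0, H⟩ => ⟨M, h0, fun i z hz e => H i z hz (hst e)⟩) ?_ fun x hx => ?_
  · rintro s t ⟨M, h0, H⟩ ⟨M', h0', H'⟩
    refine ⟨M + M', by positivity, fun i z hz e v => ?_⟩
    have := k0 i z hz v
    rcases e with e | e
    · exact (H i z hz e v).trans (by gcongr; linarith)
    · exact (H' i z hz e v).trans (by gcongr; linarith)
  · obtain ⟨j, y, hy, rfl⟩ := Man.exists_chart (h hx)
    obtain ⟨Q, hQ, q1, q2⟩ := exists_compact_subset (D.isOpen j) hy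
    obtain ⟨B, hB, b1⟩ := cpt_upper (h := a j) hQ fun b c =>
      ((ha.clo j).smooth b c).continuousOn.mono q2
    obtain ⟨c, hc, c1⟩ := cpt_lower (h := K j) hQ (fun b c =>
      ((hK.kah j).smooth b c).continuousOn.mono q2) fun z hz u hu =>
        hq_pos ((hK.kah j).pos z (q2 hz)) hu
    refine ⟨D.p j '' Q, mem_nhdsWithin_of_mem_nhds ?_, B / c, by positivity, ?_⟩
    · rw [← Man.map_nhds hy]
      exact image_mem_map (mem_interior_iff_mem_nhds.1 q1)
    · rintro i z hz ⟨w, hw, e⟩ v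
      obtain ⟨φ, rfl, hφ⟩ := D.trans i j z hz w (q2 hw) e.symm
      rw [hK.cpt i j z hz φ hφ, ha.cpt i j z hz φ hφ, hq_conj, hq_conj]
      refine (Complex.abs_re_le_norm _).trans (((b1 _ hw _ _).1).trans ?_)
      refine le_trans (le_of_eq ?_) (mul_le_mul_of_nonneg_left (c1 _ hw _) (by positivity))
      field_simp

end

variable [MeasurableSpace Y]

section
variable {D : KD Y N} {a : D.ι → E N → Mat N}

theorem hn_tr (ha : D.Cpt a) {i : D.ι} {z : E N} (hz : z ∈ D.W i) :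
    D.tr a (D.p i z) = trK (D.K i z) (a i z) ∧
      D.bb a (D.p i z) = (bK (D.K i z) (a i z) (a i z)).re :=
  ⟨hn_glob (fun i j z hz φ hφ => by
    rw [ha i j z hz φ hφ, hn_trK ((D.kah i).pos z hz) (D.K_cpt i j z hz φ hφ)]) hz,
   hn_glob (f := fun i z => (bK (D.K i z) (a i z) (a i z)).re) (fun i j z hz φ hφ => by
    rw [ha i j z hz φ hφ, hn_bK ((D.kah i).pos z hz) (D.K_cpt i j z hz φ hφ)]) hz⟩

theorem hn_tr_cont (ha : Frm D.toMan a) : Continuous (D.tr a) ∧ Continuous (D.bb a) := by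
  have h := fun i z hz => hn_cont (hn_contOn (hn_frm ⟨D.kah, D.K_cpt⟩) i z hz) (hn_contOn ha i z hz)
    ((D.kah i).pos z hz)
  rw [← continuousOn_univ, ← continuousOn_univ, ← D.cover]
  exact ⟨Man.contOn fun i => ContinuousOn.congr (fun z hz => (h i z hz).1) fun z hz =>
    (hn_tr ha.cpt hz).1, Man.contOn fun i => ContinuousOn.congr (fun z hz =>
      Complex.continuous_re.continuousAt.comp_continuousWithinAt (h i z hz).2) fun z hz =>
        (hn_tr ha.cpt hz).2⟩

end

variable {B : Base Y N} {K K' a : B.ι → E N → Mat N}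

theorem hn_chart (B : Base Y N) (x : Y) : ∃ i, ∃ z ∈ B.W i, B.p i z = x :=
  Man.exists_chart (B.cover ▸ mem_univ x)

theorem hn_dens (ha : B.Cpt a) {i : B.ι} {z : E N} (hz : z ∈ B.W i) :
    B.dens a (B.p i z) = (a i z).det.re / wt (B.Ψ i) z :=
  hn_glob (f := fun i z => (a i z).det.re / wt (B.Ψ i) z) (fun i j z hz φ hφ => by
    have h := B.Ψ_cpt i j z hz φ hφ
    rw [ha i j z hz φ hφ, hn_det_conj, h, mul_div_mul_left _ _
      (left_ne_zero_of_mul (h ▸ (wt_pos _ _).ne'))]) hz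

theorem hn_dens_cont (ha : Frm B.toMan a) : Continuous (B.dens a) := by
  rw [← continuousOn_univ, ← B.cover]
  exact Man.contOn fun i => ((Complex.continuous_re.comp_continuousOn
    (abcal_det (ha.clo i).smooth).continuousOn).div (wt_smooth (B.Ψ_smooth i)).continuousOn
      fun z _ => (wt_pos _ _).ne').congr fun z hz => hn_dens ha.cpt hz

theorem hn_dens_pos (hK : Kf B.toMan K) (x : Y) : 0 < B.dens K x := by
  obtain ⟨i, z, hz, rfl⟩ := hn_chart B x
  rw [hn_dens hK.cpt hz]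
  exact div_pos (hn_det ((hK.kah i).pos z hz)).1 (wt_pos _ _)

theorem hn_dens_le (hK : Kf B.toMan K) (hK' : Kf B.toMan K') {c : ℝ} {i : B.ι} {z : E N}
    (hz : z ∈ B.W i) (h : Le (K i z) (K' i z) c) :
    B.dens K (B.p i z) ≤ c ^ N * B.dens K' (B.p i z) := by
  rw [hn_dens hK.cpt hz, hn_dens hK'.cpt hz, ← mul_div_assoc]
  exact div_le_div_of_nonneg_right (hn_mono ((hK.kah i).pos z hz) ((hK'.kah i).pos z hz) h)
    (wt_pos _ _).le

variable [BorelSpace Y]

/-- The Kähler manifold with the metric `K` and its volume. -/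
noncomputable def Base.kd (B : Base Y N) {K : B.ι → E N → Mat N} (hK : Kf B.toMan K) : KD Y N where
  toMan := B.toMan
  cover := B.cover
  K := K
  Ψ i z := -Real.log (K i z).det.re
  ν := B.μ.withDensity fun x => ENNReal.ofReal (B.dens K x)
  kah := hK.kah
  K_cpt := hK.cpt
  Ψ_smooth i := ((Complex.reCLM.contDiff.comp_contDiffOn (abcal_det (hK.kah i).smooth)).log
    fun z hz => (hn_det ((hK.kah i).pos z hz)).1.ne').neg
  den i S hS hm := by
    rw [withDensity_apply _ (Man.meas_img hm hS), B.den.lint (B.Ψ_smooth i).continuousOn hm hS]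
    refine setLIntegral_congr_fun hm fun z hz => ?_
    simp only
    rw [← ENNReal.ofReal_mul (wt_pos _ _).le, hn_dens hK.cpt (hS hz),
      mul_div_cancel₀ _ (wt_pos _ _).ne', wt, neg_neg,
      Real.exp_log (hn_det ((hK.kah i).pos z (hS hz))).1]
  det i z hz := by
    rw [wt, neg_neg, Real.exp_log (hn_det ((hK.kah i).pos z hz)).1, (hn_det ((hK.kah i).pos z hz)).2]

theorem Base.kd_int (B : Base Y N) {K : B.ι → E N → Mat N} (hK : Kf B.toMan K) (f : Y → ℝ) :
    ∫ x, f x ∂(B.kd hK).ν = ∫ x, f x * B.dens K x ∂B.μ := by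
  refine (integral_withDensity_eq_integral_toReal_smul
    (hn_dens_cont (hn_frm hK)).measurable.ennreal_ofReal
    (Eventually.of_forall fun x => ENNReal.ofReal_lt_top) f).trans ?_
  simp only [ENNReal.toReal_ofReal (hn_dens_pos hK _).le, smul_eq_mul, mul_comm]

theorem hn_fin (hK : Kf B.toMan K) (hi : Integrable (B.dens K) B.μ) :
    IsFiniteMeasure (B.kd hK).ν := isFiniteMeasure_withDensity_ofReal hi.2

theorem hn_QQ (hK : Kf B.toMan K) (a : B.ι → E N → Mat N) : (B.kd hK).QQ a =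
    (∫ x, ((B.kd hK).tr a x).re * B.dens K x ∂B.μ) ^ 2 / ∫ x, B.dens K x ∂B.μ -
      ∫ x, (B.kd hK).bb a x * B.dens K x ∂B.μ := by
  have h := B.kd_int hK fun _ => 1
  simp only [integral_const, smul_eq_mul, mul_one, one_mul] at h
  rw [KD.QQ, B.kd_int, B.kd_int, h]

end Pool.Agent.HX
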