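import Pool.Agent.P.MP_63735c_ag.BF2
import Pool.Agent.P.MP_63735c_ag.HGj
import Pool.Agent.P.MP_63735c_ag.HXN2

/-! Global forms and their integrals. -/

open scoped ComplexOrder ContDiff Matrix Topology
open Set Metric MeasureTheory Filter

namespace Pool.Agent.BF

open Pool.Agent.SPF Pool.Agent.AB Pool.Agent.HX Pool.Agent.CK Pool.Agent.HS
open Pool.Agent.CL (Form1 Form2 Closed2 IsPrim)

variable {N : ℕ} {Y : Type} [TopologicalSpace Y]

section
variable {D : Man Y N} {Θ Ξ : D.ι → E N → Ext N}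

theorem gf_one : GF D 1 :=
  ⟨fun _ => contDiffOn_const, fun _ _ _ _ _ _ => (map_one _).symm⟩

theorem GF.add (h : GF D Θ) (h' : GF D Ξ) : GF D (Θ + Ξ) :=
  ⟨fun i => (h.1 i).add (h'.1 i), fun i j z hz φ e => by
    simp only [Pi.add_apply, map_add, ← h.2 i j z hz φ e, ← h'.2 i j z hz φ e]⟩

theorem GF.mul (h : GF D Θ) (h' : GF D Ξ) : GF D (Θ * Ξ) :=
  ⟨fun i => (h.1 i).mul (h'.1 i), fun i j z hz φ e => by
    simp only [Pi.mul_apply, map_mul, ← h.2 i j z hz φ e, ← h'.2 i j z hz φ e]⟩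

theorem GF.smul (h : GF D Θ) (c : ℂ) : GF D (c • Θ) :=
  ⟨fun i => (h.1 i).const_smul c, fun i j z hz φ e => by
    simp only [Pi.smul_apply, map_smul, ← h.2 i j z hz φ e]⟩

theorem G1.gf {α : D.ι → Form1 (E N)} (h : G1 D univ α) : GF D fun i z => e1 (α i z) :=
  ⟨fun i => e1_smooth ((h.1 i).mono fun _ hz => ⟨hz, trivial⟩), fun i j z hz φ e => by
    rw [pull_e1]
    exact congrArg e1 (ContinuousLinearMap.ext (h.2 i j z hz trivial φ e))⟩

theorem G2.gf {β : D.ι → Form2 (E N)} (h : G2 D β) : GF D fun i z => f2 (β i z) :=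
  ⟨fun i => f2_smooth (h.1 i).1, fun i j z hz φ e => by
    rw [pull_f2]
    exact congrArg f2 (ContinuousLinearMap.ext fun u => ContinuousLinearMap.ext
      (h.2 i j z hz φ e u))⟩

end

variable [MeasurableSpace Y] {B : Base Y N} {Θ Ξ : B.ι → E N → Ext N}

theorem GF.chart (h : GF B.toMan Θ) {i : B.ι} {z : E N} (hz : z ∈ B.W i) :
    glob B.toMan (fun i z => T (Θ i z) / wt (B.Ψ i) z) (B.p i z) = T (Θ i z) / wt (B.Ψ i) z :=
  hn_glob (f := fun i z => T (Θ i z) / (wt (B.Ψ i) z : ℂ)) (fun i j z hz φ e => by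
    have h1 := B.Ψ_cpt i j z hz φ e
    rw [h.2 i j z hz φ e, T_pull, det_hol e.self_of_nhds.1, h1, Complex.ofReal_mul,
      mul_div_mul_left _ _ (Complex.ofReal_ne_zero.2
        (left_ne_zero_of_mul (h1 ▸ (wt_pos _ _).ne')))]) hz

theorem GF.cont (h : GF B.toMan Θ) :
    Continuous (glob B.toMan fun i z => T (Θ i z) / wt (B.Ψ i) z) := by
  rw [← continuousOn_univ, ← B.cover]
  exact Man.contOn fun i => ((T_smooth (h.1 i)).continuousOn.div
    (Complex.continuous_ofReal.comp_continuousOn (wt_smooth (B.Ψ_smooth i)).continuousOn)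
    fun z _ => Complex.ofReal_ne_zero.2 (wt_pos _ _).ne').congr fun z hz => h.chart hz

theorem Int_congr (h : ∀ i, ∀ z ∈ B.W i, T (Θ i z) = T (Ξ i z)) : Int B Θ = Int B Ξ := by
  refine integral_congr_ae (Eventually.of_forall fun x => ?_)
  unfold glob
  split_ifs with hx
  exacts [by beta_reduce; rw [h _ _ hx.choose_spec.1], rfl]

theorem Int_zero (h : ∀ i, ∀ z ∈ B.W i, T (Θ i z) = 0) : Int B Θ = 0 := by
  refine (Int_congr (Ξ := 0) fun i z hz => (h i z hz).trans (map_zero _).symm).trans ?_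
  simp [Int, glob]

theorem Int_dens {a : B.ι → E N → Mat N} (ha : Frm B.toMan a) {c : ℂ}
    (h : ∀ i, ∀ z ∈ B.W i, T (Θ i z) = c * (a i z).det) :
    Int B Θ = c * (∫ x, B.dens a x ∂B.μ : ℝ) := by
  rw [← integral_complex_ofReal, ← integral_const_mul]
  refine integral_congr_ae (Eventually.of_forall fun x => ?_)
  unfold Base.dens glob
  beta_reduce
  split_ifs with hx
  · have h1 := congrArg Matrix.det ((ha.clo _).herm _ hx.choose_spec.1).eq
    rw [Matrix.det_conjTranspose] at h1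
    rw [h _ _ hx.choose_spec.1, Complex.ofReal_div, Complex.conj_eq_iff_re.1 h1, mul_div_assoc]
  · simp

variable [CompactSpace Y] [T2Space Y] [BorelSpace Y]

theorem base_fin (B : Base Y N) : IsFiniteMeasure B.μ :=
  ⟨B.den.lt_top (fun i => (B.Ψ_smooth i).continuousOn) isCompact_univ B.cover.ge⟩

theorem base_pos (B : Base Y N) : B.μ.IsOpenPosMeasure :=
  ⟨fun _ hU => B.den.pos (fun i => (B.Ψ_smooth i).continuousOn) hU
    ((subset_univ _).trans B.cover.ge)⟩

theorem Int_ne (h : GF B.toMan Θ) {c : ℂ} (hc : c ≠ 0) {f : B.ι → E N → ℝ}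
    (h1 : ∀ i, ∀ z ∈ B.W i, T (Θ i z) = c * f i z ∧ 0 ≤ f i z)
    (h2 : ∃ i, ∃ z ∈ B.W i, f i z ≠ 0) : Int B Θ ≠ 0 := by
  have := base_fin B
  have := base_pos B
  obtain ⟨i, z, hz, h2⟩ := h2
  set G := glob B.toMan fun i z => T (Θ i z) / (wt (B.Ψ i) z : ℂ)
  have e : ∀ i, ∀ z ∈ B.W i, G (B.p i z) / c = (f i z / wt (B.Ψ i) z : ℝ) := fun i z hz => by
    rw [show G _ = _ from h.chart hz, (h1 i z hz).1, mul_div_assoc, mul_div_cancel_left₀ _ hc,
      Complex.ofReal_div]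
  have c1 : Continuous fun x => G x / c := h.cont.div_const c
  have p := (Complex.continuous_re.comp c1).integral_pos_of_hasCompactSupport_nonneg_nonzero
    (μ := B.μ) (x := B.p i z) (.of_compactSpace _) (fun x => by
      obtain ⟨i, z, hz, rfl⟩ := hn_chart B x
      change 0 ≤ (G _ / c).re
      rw [e i z hz]
      exact div_nonneg (h1 i z hz).2 (wt_pos _ _).le) (by
      change (G _ / c).re ≠ 0
      rw [e i z hz]
      exact div_ne_zero h2 (wt_pos _ _).ne')
  intro h0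
  have q := integral_re (𝕜 := ℂ) (μ := B.μ)
    (c1.integrable_of_hasCompactSupport (.of_compactSpace _))
  rw [integral_div, show ∫ x, G x ∂B.μ = 0 from h0, zero_div, map_zero] at q
  exact p.ne' q

theorem Int_loc (h : GF B.toMan Θ) {m : ℕ} {i : Fin m → B.ι} {O : Fin m → Set (E N)}
    (h1 : ∀ q, IsOpen (O q) ∧ O q ⊆ B.W (i q))
    (h2 : Pairwise fun q r => Disjoint (B.p (i q) '' O q) (B.p (i r) '' O r))
    (h3 : ∀ j, ∀ z ∈ B.W j, (∀ q, B.p j z ∉ B.p (i q) '' O q) → T (Θ j z) = 0) :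
    Int B Θ = ∑ q, ∫ z in O q, T (Θ (i q) z) := by
  have := base_fin B
  rw [Int, ← setIntegral_eq_integral_of_forall_compl_eq_zero (s := ⋃ q, B.p (i q) '' O q),
    integral_iUnion_fintype (fun q => Man.meas_img (h1 q).1.measurableSet (h1 q).2) h2
      fun q => (h.cont.integrable_of_hasCompactSupport (.of_compactSpace _)).integrableOn]
  · refine Finset.sum_congr rfl fun q _ => ?_
    rw [B.den.int (B.Ψ_smooth _).continuousOn (h1 q).1.measurableSet (h1 q).2]
    refine setIntegral_congr_fun (h1 q).1.measurableSet fun z hz => ?_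
    rw [h.chart ((h1 q).2 hz), Complex.real_smul,
      mul_div_cancel₀ _ (Complex.ofReal_ne_zero.2 (wt_pos _ _).ne')]
  · intro x hx
    obtain ⟨j, z, hz, rfl⟩ := hn_chart B x
    rw [h.chart hz, h3 j z hz fun q hq => hx (mem_iUnion.2 ⟨q, hq⟩), zero_div]

end Pool.Agent.BF
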