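import Pool.Agent.P.MP_63735c_ag.BPT1
import Pool.Agent.P.MP_63735c_ag.ABPU
import Pool.Agent.P.MP_63735c_ag.ABInt

/-! Objects of part C and the divergence theorem on the base. -/

open scoped ComplexOrder ContDiff Matrix Topology ENNReal
open Set Metric MeasureTheory Filter

namespace Pool.Agent.BP

open Pool.Agent.SPF Pool.Agent.AB Pool.Agent.CK Pool.Agent.SE Pool.Agent.NL

variable {N n : ℕ}

/-- The holomorphic exterior derivative of a (1,0)-form. -/
noncomputable def curl (ξ : E n → E n) (z : E n) : Mat n :=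
  Matrix.of fun a b => dz a (fun w => ξ w b) z - dz b (fun w => ξ w a) z

/-- The scalar product of two 2-tensors for the cometric `P`. -/
noncomputable def ip (P h k : Mat n) : ℂ := (hᴴ * (P * k * Pᵀ)).trace

/-- The dual tensor density. -/
noncomputable def zt (K h : Mat n) : Mat n := K.adjugateᵀ * h.map star * K⁻¹

/-- The divergence. -/
noncomputable def dv (V : E n → E n) (z : E n) : ℂ := ∑ a, dz a (fun w => V w a) z

variable {X : Type} [TopologicalSpace X]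

/-- A closed (1,0)-form on `W` with `dbar ξ = a Ω - η` that is bounded for `Ω`. -/
structure UX (A : Atlas X N) (W : Set X) (ξ : A.ι → E N → E N) (Ω : A.ι → E N → Mat N)
    (a C : ℝ) : Prop where
  a_pos : 0 < a
  smooth : ∀ i, ∀ z ∈ (A.C i).W, A.p i z ∈ W → ContDiffAt ℝ ∞ (ξ i) z
  psd : ∀ i, ∀ z ∈ (A.C i).W, A.p i z ∈ W → (Ω i z).PosSemidef
  eq : ∀ i, ∀ z ∈ (A.C i).W, A.p i z ∈ W → ∀ b c,
    dzb c (fun w => ξ i w b) z = a * Ω i z b c - (A.C i).η z b c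
  bd : ∀ i, ∀ z ∈ (A.C i).W, A.p i z ∈ W → ∀ v, ‖v ⬝ᵥ ξ i z‖ ^ 2 ≤ C * hr (Ω i z) v
  closed : ∀ i, ∀ z ∈ (A.C i).W, A.p i z ∈ W → ∀ b c,
    dz b (fun w => ξ i w c) z = dz c (fun w => ξ i w b) z
  cov : ∀ i j O φ, IsChange (A.C i) (A.C j) O φ → (∀ w ∈ O, A.p j (φ w) = A.p i w) →
    ∀ z ∈ O, A.p i z ∈ W → ξ i z = ξ j (φ z) ᵥ* jac φ z

/-- `G` is a potential of `ξ` on `O ∩ W`, bounded above, with `exp (-k G)` integrable. -/
structure LocP [MeasurableSpace X] (A : Atlas X N) (μ : Measure X) (W : Set X)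
    (ξ : A.ι → E N → E N) (O : Set X) (G : X → ℝ) : Prop where
  isOpen : IsOpen O
  smooth : ∀ i, ∀ z ∈ (A.C i).W, A.p i z ∈ O ∩ W → ContDiffAt ℝ ∞ (fun w => G (A.p i w)) z
  dr_eq : ∀ i, ∀ z ∈ (A.C i).W, A.p i z ∈ O ∩ W → dr (fun w => G (A.p i w)) z = ξ i z
  bd : ∃ c, ∀ y ∈ O ∩ W, G y ≤ c
  int : ∀ k : ℝ, IntegrableOn (fun y => Real.exp (-(k * G y))) (O ∩ W) μ

namespace YD

variable {Y : Type} [TopologicalSpace Y] [MeasurableSpace Y] (D : YD Y n)

/-- A chart around `y`. -/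
noncomputable def ch (y : Y) : D.ι := (D.cover y).choose

/-- The value at `y` of a local operator. -/
noncomputable def op {F G : Type} (T : (E n → F) → E n → G) (u : Y → F) (y : Y) : G :=
  T (fun z => u (D.p (D.ch y) z)) (D.γ y)

theorem ch_spec (y : Y) : D.γ y ∈ D.W (D.ch y) ∧ D.p (D.ch y) (D.γ y) = y := by
  obtain ⟨b, hb, e⟩ := (D.cover y).choose_spec
  have h : D.γ y = b := by rw [← e, D.γ_p _ b hb]
  rw [h]
  exact ⟨hb, e⟩

theorem M_eq : D.M = univ := by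
  refine eq_univ_of_forall fun y => ?_
  obtain ⟨k, b, hb, rfl⟩ := D.cover y
  exact Man.mem_M hb

theorem p_ev {k k' : D.ι} {b : E n} (hb : b ∈ D.W k) (hb' : b ∈ D.W k')
    (h : D.p k b = D.p k' b) : D.p k =ᶠ[𝓝 b] D.p k' := by
  obtain ⟨φ, -, hφ⟩ := D.trans k k' b hb b hb' h
  filter_upwards [hφ, (D.isOpen k).mem_nhds hb] with w hw hw'
  have e : φ w = w := by rw [← D.γ_p k' _ hw.2.1, hw.2.2, D.γ_p k w hw']
  rw [← hw.2.2, e]

theorem op_chart {F G : Type} {T : (E n → F) → E n → G}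
    (hT : ∀ f g z, f =ᶠ[𝓝 z] g → T f z = T g z) (u : Y → F) {k : D.ι} {b : E n}
    (hb : b ∈ D.W k) : D.op T u (D.p k b) = T (fun z => u (D.p k z)) b := by
  have h := D.ch_spec (D.p k b)
  rw [op]
  rw [D.γ_p k b hb] at h ⊢
  exact hT _ _ _ ((D.p_ev h.1 hb h.2).fun_comp u)

theorem om_pos (y : Y) : (D.om y).PosDef := by
  obtain ⟨k, b, hb, rfl⟩ := D.cover y
  exact (D.kah k).pos b hb

theorem det_pos (y : Y) : 0 < (D.om y).det.re ∧ ((D.om y).det.re : ℂ) = (D.om y).det := by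
  have h := Complex.pos_iff.1 (D.om_pos y).det_pos
  exact ⟨h.1, Complex.ext rfl h.2⟩

theorem den_cont (k : D.ι) :
    ContinuousOn (fun b => -Real.log (D.c₀ * (D.om (D.p k b)).det.re)) (D.W k) := by
  refine ((continuousOn_const.mul (Complex.continuous_re.comp_continuousOn
    (abcal_det (D.kah k).smooth).continuousOn)).log fun b _ => ?_).neg
  exact (mul_pos D.c₀_pos (D.det_pos _).1).ne'

theorem openPos [BorelSpace Y] : D.ν.IsOpenPosMeasure :=
  ⟨fun _ hU hne => D.den.pos D.den_cont hU (D.M_eq ▸ subset_univ _) hne⟩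

theorem dv_congr (f g : E n → E n) (z : E n) (h : f =ᶠ[𝓝 z] g) : dv f z = dv g z :=
  Finset.sum_congr rfl fun a _ => (dz_congr (h.fun_comp fun v => v a) a).self_of_nhds

theorem bpc0_off [T2Space Y] {U : Y → E n} {u : Y → ℂ} (hu : ∀ k, ∀ b ∈ D.W k,
    (D.om (D.p k b)).det * u (D.p k b) = dv (fun w => U (D.p k w)) b) {C : Set Y}
    (hC : IsCompact C) (h0 : ∀ y ∉ C, U y = 0) {y : Y} (hy : y ∉ C) : u y = 0 := by
  obtain ⟨k, b, hb, rfl⟩ := D.cover y
  have h1 : (fun w => U (D.p k w)) =ᶠ[𝓝 b] fun _ => 0 := by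
    filter_upwards [Man.contAt_p hb (hC.isClosed.isOpen_compl.mem_nhds hy)] with w hw using h0 _ hw
  have h2 := hu k b hb
  rw [dv_congr _ _ _ h1] at h2
  simp only [dv, Pi.zero_apply, (dz_const _ _).1, Finset.sum_const_zero] at h2
  exact (mul_eq_zero.1 h2).resolve_left (D.om_pos _).det_pos.ne'

theorem bpc0_cc [T2Space Y] {U : Y → E n} (hU : D.S U) {u : Y → ℂ} (hu : ∀ k, ∀ b ∈ D.W k,
    (D.om (D.p k b)).det * u (D.p k b) = dv (fun w => U (D.p k w)) b) : D.Cc u := by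
  obtain ⟨C, hC, h1, h2⟩ := hU.2
  refine ⟨fun k => ?_, C, hC, h1, fun y hy => D.bpc0_off hu hC h2 hy⟩
  refine ((continuousOn_finsetSum Finset.univ fun a _ => (dz_smooth (D.isOpen k)
    (contDiffOn_pi.1 (hU.1 k) a) a).1.continuousOn).div (abcal_det (D.kah k).smooth).continuousOn
      fun b _ => (D.om_pos _).det_pos.ne').congr fun b hb => ?_
  rw [Pi.div_apply, eq_div_iff (D.om_pos _).det_pos.ne', mul_comm]
  exact hu k b hb

theorem bpc0_one [T2Space Y] [BorelSpace Y] {U : Y → E n} (hU : D.Smo U) {u : Y → ℂ}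
    (hu : ∀ k, ∀ b ∈ D.W k, (D.om (D.p k b)).det * u (D.p k b) = dv (fun w => U (D.p k w)) b)
    {j : D.ι} {C : Set (E n)} (hC : IsCompact C) (hs : C ⊆ D.W j)
    (h0 : ∀ y ∉ D.p j '' C, U y = 0) : ∫ y, u y ∂D.ν = 0 := by
  have h1 : ∀ a, ∀ z ∈ D.W j, z ∉ C → U (D.p j z) a = 0 := fun a z hz hz' => by
    rw [h0, Pi.zero_apply]
    rintro ⟨w, hw, e⟩
    exact hz' (D.inj j (hs hw) hz e ▸ hw)
  have h2 := fun a => contDiffOn_pi.1 (hU j) a
  rw [D.den.int_supp (D.den_cont j) fun y hy => D.bpc0_off hu (Man.cpt_img hC hs).1 h0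
    fun h => hy (image_mono hs h), setIntegral_congr_fun (D.isOpen j).measurableSet
    (g := fun z => (D.c₀ : ℂ) * ∑ a, dz a (fun w => U (D.p j w) a) z), integral_const_mul,
    integral_finsetSum, Finset.sum_eq_zero, mul_zero]
  · exact fun a _ => (int_dz (D.isOpen j) hC hs (h2 a) (h1 a) a).1
  · exact fun a _ => intOn (D.isOpen j) hC hs (dz_smooth (D.isOpen j) (h2 a) a).1.continuousOn
      fun z hz hz' => (dz_zero_off (D.isOpen j) hC.isClosed (h1 a) a z hz hz').1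
  · intro z hz
    simp only [wt, neg_neg, Real.exp_log (mul_pos D.c₀_pos (D.det_pos _).1), Complex.real_smul,
      Complex.ofReal_mul, (D.det_pos _).2, mul_assoc, hu j z hz, dv]

theorem stokes [T2Space Y] [BorelSpace Y] {θ : Y → ℝ} (hθ : D.S θ) (h0 : ∀ y, 0 ≤ θ y)
    {V : Y → E n} (hV : D.Smo V) {u : Y → ℂ} (hu : ∀ k, ∀ b ∈ D.W k,
      (D.om (D.p k b)).det * u (D.p k b) = dv (fun w => (θ (D.p k w) : ℂ) • V (D.p k w)) b) :
    Integrable u D.ν ∧ ∫ y, u y ∂D.ν = 0 := by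
  have hS : ∀ {t : Y → ℝ}, D.S t → D.S fun y => (t y : ℂ) • V y := fun ht =>
    ⟨fun k => (ht.ofReal.1 k).smul (hV k), ht.2.of_zero fun y hy => by simp [hy]⟩
  refine ⟨(D.bpc0_cc (hS hθ) hu).integrable D.den D.den_cont, ?_⟩
  obtain ⟨m, c, τ, h1, -, h3⟩ := Man.exists_pu hθ h0
  let U : Fin m → Y → E n := fun j y => (D.ext (c j) (τ j) y : ℝ) • V y
  have hU : ∀ j, D.S (U j) := fun j => hS (Man.ext_S (h1 j))
  let v : Fin m → Y → ℂ := fun j y => D.op dv (U j) y / (D.om y).det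
  have hv : ∀ j k, ∀ b ∈ D.W k,
      (D.om (D.p k b)).det * v j (D.p k b) = dv (fun w => U j (D.p k w)) b := fun j k b hb => by
    simp only [v]
    rw [D.op_chart dv_congr _ hb, mul_div_cancel₀ _ (D.om_pos _).det_pos.ne']
  have hsum : u = fun y => ∑ j, v j y := by
    funext y
    obtain ⟨k, b, hb, rfl⟩ := D.cover y
    refine mul_left_cancel₀ (D.om_pos (D.p k b)).det_pos.ne' ?_
    rw [hu k b hb, Finset.mul_sum]
    simp only [hv _ k b hb, dv]
    rw [Finset.sum_comm]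
    refine Finset.sum_congr rfl fun a _ => ?_
    rw [← (dz_sum _ (fun j _ => diffAt (D.isOpen k) (contDiffOn_pi.1 ((hU j).1 k) a) hb) a).1]
    congr 1
    funext w
    simp only [U, h3, Pi.smul_apply, smul_eq_mul, Complex.ofReal_sum, Finset.sum_mul,
      Complex.real_smul]
  rw [hsum, integral_finsetSum _ fun j _ =>
    (D.bpc0_cc (hU j) (hv j)).integrable D.den D.den_cont]
  refine Finset.sum_eq_zero fun j _ => D.bpc0_one (hU j).1 (hv j) (h1 j).cpt.isCompact (h1 j).sub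
    fun y hy => ?_
  simp only [U]
  rw [Man.ext_zero (fun z _ hz => image_eq_zero_of_notMem_tsupport hz) hy, zero_smul]

end YD

end Pool.Agent.BP
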