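import Pool.Agent.P.MP_63735c_ag.BPDefs

/-! The open part of `X` fibred in compact tori: interface (not in any statement). -/

open scoped ComplexOrder ContDiff Matrix Topology ENNReal
open Set Metric MeasureTheory Filter

namespace Pool.Agent.BP

open Pool.Agent.SPF Pool.Agent.AB Pool.Agent.CK

variable {N n : ℕ} {X : Type} [TopologicalSpace X]

/-- The part of the chart `i` over `M`. -/
abbrev dom (A : Atlas X N) (M : Set X) (i : A.ι) : Set (E N) := (A.C i).W ∩ A.p i ⁻¹' M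

/-- The output of part D at the point `x`. -/
structure Germ (A : Atlas X N) (W : Set X) (Om : A.ι → E N → Mat N) (φ : X → ℝ) (x : X) where
  M : ℕ
  Nb : Set X
  G : X → E M
  Wf : X → ℂ
  d : ℕ
  δ : ℝ
  c : ℝ
  C : ℝ
  opn : IsOpen Nb
  sub : Nb ⊆ W
  d_pos : 1 ≤ d
  δ_pos : 0 < δ
  c_pos : 0 < c
  G_hol : ∀ i, DifferentiableOn ℂ (fun z => G (A.p i z)) (dom A Nb i)
  closed : ∀ y ∈ W, y ∈ closure {y' | y' ∈ Nb ∧ nsq (G y') ≤ δ} → y ∈ Nb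
  grad : ∀ i, ∀ z ∈ dom A Nb i, ∀ v,
    nsq (fderiv ℂ (fun y => G (A.p i y)) z v) ≤ C * hr (Om i z) v
  Wf_hol : ∀ i, DifferentiableOn ℂ (fun z => Wf (A.p i z)) (dom A Nb i)
  Wf_bd : ∀ y ∈ Nb, c ≤ ‖Wf y‖ ^ 2 * Real.exp (-(d * φ y)) ∧
    ‖Wf y‖ ^ 2 * Real.exp (-(d * φ y)) ≤ C
  near : ∀ O ∈ 𝓝 x, ∀ ρ : ℝ, 0 < ρ → ∃ y ∈ O, y ∈ Nb ∧ nsq (G y) < ρ

/-- An open dense set `W`, covered by tubes `U j` on which the classes of `r` are the fibres of a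
proper holomorphic submersion `g`, and a form `om` on the base. -/
structure Fib (A : Atlas X N) (n : ℕ) where
  W : Set X
  r : X → X → Prop
  g : X → E n
  om : X → Mat n
  J : Type
  U : J → Set X
  T : J → Set (E n)
  o : J → E n → Mat n
  W_open : IsOpen W
  W_dense : Dense W
  eqv : Equivalence r
  g_hol : ∀ i, DifferentiableOn ℂ (fun z => g (A.p i z)) (dom A W i)
  g_sub : ∀ i, ∀ z ∈ dom A W i, Function.Surjective (fderiv ℂ (fun y => g (A.p i y)) z)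
  U_open : ∀ j, IsOpen (U j)
  U_sub : ∀ j, U j ⊆ W
  T_open : ∀ j, IsOpen (T j)
  maps : ∀ j, MapsTo g (U j) (T j)
  cov : ∀ x ∈ W, ∃ j, x ∈ U j
  rel : ∀ j, ∀ x ∈ U j, ∀ y, r x y ↔ y ∈ U j ∧ g y = g x
  prop : ∀ j C, IsCompact C → C ⊆ T j → IsCompact (U j ∩ g ⁻¹' C)
  o_cont : ∀ j a b, ContinuousOn (fun β => o j β a b) (T j)
  o_eq : ∀ j, ∀ x ∈ U j, om x = o j (g x)
  om_psd : ∀ x ∈ W, ∀ v, 0 ≤ hr (om x) v

/-- `κ` integrates over one period cell of `Ψ`. -/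
structure Cell (Ψ : E n → X) (κ : Measure (E n)) : Prop where
  fin : IsFiniteMeasure κ
  cpt : ∃ S, IsCompact S ∧ κ Sᶜ = 0
  stokes : ∀ u : E n → ℂ, ContDiff ℝ ∞ u → (∀ τ τ', Ψ τ = Ψ τ' → u τ = u τ') →
    ∀ a, ∫ τ, dz a u τ ∂κ = 0
  loc : ∀ τ₀, ∃ O ∈ 𝓝 τ₀, ∀ u : E n → ℝ≥0∞, Measurable u → (∀ τ τ', Ψ τ = Ψ τ' → u τ = u τ') →
    ∫⁻ τ in O, u τ ≤ ∫⁻ τ, u τ ∂κ

namespace Fib

variable {A : Atlas X N} (F : Fib A n)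

/-- The pull-back of `om`. -/
noncomputable def Om (i : A.ι) (z : E N) : Mat N :=
  (Jg A F.g i z)ᵀ * F.om (A.p i z) * (Jg A F.g i z).map star

/-- The classes are tori of bounded volume. -/
structure Tor [MeasurableSpace X] (μ : Measure X) (K : Form11 A) (h : X → Mat n) (c₀ : ℝ) :
    Prop where
  iso : ∀ i, ∀ z ∈ dom A F.W i, Jg A F.g i z * Vf A F.g i z = 0
  h_eq : ∀ i, ∀ z ∈ dom A F.W i, h (A.p i z) = (Vf A F.g i z)ᵀ * K.h i z * (Vf A F.g i z).map star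
  fub_det : ∀ j, ∀ O ⊆ F.T j, MeasurableSet O →
    ∫⁻ x in F.U j ∩ F.g ⁻¹' O, ENNReal.ofReal (h x).det.re ∂μ ≤ ENNReal.ofReal c₀ * volume O
  fub_adj : ∀ j, ∀ O ⊆ F.T j, MeasurableSet O → ∀ v,
    ∫⁻ x in F.U j ∩ F.g ⁻¹' O, ENNReal.ofReal (hr (h x).adjugateᵀ v) ∂μ ≤
      ENNReal.ofReal c₀ * ∫⁻ b in O, ENNReal.ofReal (hr (F.o j b) v)
  tor : ∀ x ∈ F.W, ∃ (Ψ : E n → X) (κ : Measure (E n)), Cell Ψ κ ∧
    (∀ y, F.r x y ↔ ∃ τ, Ψ τ = y) ∧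
    (∀ τ, ∃ (i : A.ι) (f : E n → E N), ∀ᶠ t in 𝓝 τ, DifferentiableAt ℂ f t ∧ f t ∈ (A.C i).W ∧
      A.p i (f t) = Ψ t ∧ jac f t = Vf A F.g i (f t)) ∧
    ∫⁻ τ, ENNReal.ofReal (h (Ψ τ)).det.re ∂κ ≤ ENNReal.ofReal c₀

/-- The packing bound for the classes. -/
def Pack : Prop :=
  ∀ i C, IsCompact C → C ⊆ (A.C i).W → ∃ B r₀ : ℝ, 0 < r₀ ∧ ∀ x ∈ F.W, ∀ ρ, 0 < ρ → ρ ≤ r₀ →
    ∀ S : Finset (E N), (∀ z ∈ S, z ∈ C ∧ F.r x (A.p i z)) →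
      (∀ z ∈ S, ∀ y ∈ S, z ≠ y → ρ ≤ dist z y) → S.card * ρ ^ (2 * n) ≤ B

/-- The map `(g, pr)`. -/
noncomputable def Pm (i : A.ι) (l : E N ≃L[ℂ] E n × E n) (z : E N) : E N :=
  l.symm (F.g (A.p i z), (l z).1)

/-- The area bounds. -/
def Area : Prop :=
  ∀ i (l : E N ≃L[ℂ] E n × E n) C, IsCompact C → C ⊆ (A.C i).W → ∃ B : ℝ, 0 ≤ B ∧
    ∀ j, ∀ O ⊆ F.T j, MeasurableSet O →
      ∫⁻ z in C ∩ A.p i ⁻¹' (F.U j ∩ F.g ⁻¹' O), ‖(jac (F.Pm i l) z).det‖ₑ ^ 2 ≤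
        ENNReal.ofReal B * volume O ∧
      ∀ v, ∫⁻ z in C ∩ A.p i ⁻¹' (F.U j ∩ F.g ⁻¹' O), ‖(jac (F.Pm i l) z).det‖ₑ ^ 2 *
        ‖(jac (F.Pm i l) z)⁻¹ *ᵥ l.symm (v, 0)‖ₑ ^ 2 ≤
          ENNReal.ofReal B * ∫⁻ b in O, ENNReal.ofReal (hr (F.o j b) v)

/-- `exp (-φ)` is the squared norm of a section and is constant on the classes. -/
structure Sec (φ : X → ℝ) : Prop where
  inv : ∀ x ∈ F.W, ∀ y, F.r x y → φ y = φ x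
  loc : ∀ i, ∃ (s : E N → ℂ) (ψ : E N → ℝ), DifferentiableOn ℂ s (A.C i).W ∧
    ContinuousOn ψ (A.C i).W ∧
    ∀ z ∈ dom A F.W i, Real.exp (-φ (A.p i z)) = ‖s z‖ ^ 2 * Real.exp (-ψ z)

end Fib

/-- A scale: a box in a chart. -/
structure Sc (A : Atlas X N) (n : ℕ) where
  i : A.ι
  l : E N ≃L[ℂ] E n × E n
  a : E n
  c : E n
  ρ : ℝ
  r₁ : ℝ
  r₂ : ℝ
  ρ_pos : 0 < ρ
  lt : r₁ < r₂
  sub : l ⁻¹' (closedBall a (2 * ρ) ×ˢ closedBall c r₂) ⊆ (A.C i).W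

namespace Sc

variable {A : Atlas X N} (e : Sc A n)

/-- The closed box. -/
def cbox : Set (E N) := e.l ⁻¹' (closedBall e.a (2 * e.ρ) ×ˢ closedBall e.c e.r₂)

/-- The open box. -/
def box : Set (E N) := e.l ⁻¹' (ball e.a (2 * e.ρ) ×ˢ ball e.c e.r₂)

/-- The core. -/
def core : Set (E N) := e.l ⁻¹' (ball e.a e.ρ ×ˢ ball e.c e.r₁)

/-- The shell. -/
def shell : Set (E N) := e.l ⁻¹' (closedBall e.a (2 * e.ρ) ×ˢ (closedBall e.c e.r₂ \ ball e.c e.r₁))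

end Sc

namespace Fib

variable {A : Atlas X N} (F : Fib A n)

/-- An open union of classes. -/
structure Sat (M : Set X) : Prop where
  opn : IsOpen M
  sub : M ⊆ F.W
  sat : ∀ x ∈ M, ∀ y, F.r x y → y ∈ M

/-- Degree and traces of the classes in `M` on the scale `e`. -/
structure TrP (e : Sc A n) (M : Set X) (deg : X → ℕ) (Tr : (E N → ℂ) → X → E n → ℂ) : Prop where
  fam : ∀ x ∈ M, ∀ a ∈ ball e.a (2 * e.ρ), ∃ y : Fin (deg x) → E N,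
    (∀ k, y k ∈ e.box ∧ F.r x (A.p e.i (y k)) ∧ (e.l (y k)).1 = a) ∧
    (∀ z ∈ e.box, F.r x (A.p e.i z) → (e.l z).1 = a → ∃ k, y k = z) ∧
    ∀ h, DifferentiableOn ℂ h (dom A F.W e.i) → Tr h x a = ∑ k, h (y k)
  inv : ∀ x ∈ M, ∀ y, F.r x y → deg y = deg x
  lc : ∀ x ∈ M, ∀ᶠ y in 𝓝 x, deg y = deg x
  bdd : ∃ B, ∀ x ∈ M, deg x ≤ B
  hol_a : ∀ h, DifferentiableOn ℂ h (dom A F.W e.i) → ∀ x ∈ M,
    DifferentiableOn ℂ (Tr h x) (ball e.a (2 * e.ρ))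
  hol_x : ∀ h, DifferentiableOn ℂ h (dom A F.W e.i) → ∀ a ∈ ball e.a (2 * e.ρ), ∀ i,
    DifferentiableOn ℂ (fun z => Tr h (A.p i z) a) (dom A M i)
  grad : ∀ h, Differentiable ℂ h → ∃ B : ℝ, ∀ a ∈ ball e.a e.ρ, ∀ i, ∀ z ∈ dom A M i, ∀ v,
    ‖fderiv ℂ (fun y => Tr h (A.p i y) a) z v‖ ^ 2 ≤ B * hr (F.Om i z) v

/-- The limit set of the classes along a filter. -/
def Lim (U : Filter X) : Set X := {y | ∀ O ∈ 𝓝 y, ∀ᶠ x in U, ∃ y' ∈ O, F.r x y'}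

end Fib

end Pool.Agent.BP
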