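import Pool.Agent.P.MP_63735c_ag.BF21
import Pool.Agent.P.MP_63735c_ag.BF3
import Pool.Agent.P.MP_63735c_ag.BF7
import Pool.Agent.P.MP_63735c_ag.ZBA1
import Pool.Agent.P.MP_63735c_ag.HSBase
import Pool.Agent.P.MP_63735c_ag.HXMain

/-! The index estimate is carried over to the regular part. -/

open scoped ComplexOrder ContDiff Matrix Topology
open Set Metric MeasureTheory Filter

namespace Pool.Agent.BF

open Pool.Agent.SPF Pool.Agent.AB Pool.Agent.HX Pool.Agent.CK Pool.Agent.SE Pool.Agent.ZB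
  Pool.Agent.NL Pool.Agent.HS

variable {N : ℕ} {X : Type} [TopologicalSpace X] {A : Atlas X N} {L : Line A} {Y : Type}
  [TopologicalSpace Y] {Z : Res L Y} [CompactSpace Y] [T2Space Y] [MeasurableSpace Y] [BorelSpace Y]

/-- The resolution with a volume. -/
noncomputable def ybase (h : Full Z) : HX.Base Y N where
  toMan := zbb11d_man Z
  cover := h.man_cover
  Ψ k := Z.pot (Z.c k)
  μ := h.exists_vol.choose
  Ψ_smooth _ := Z.pot_smooth _
  den := h.exists_vol.choose_spec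
  Ψ_cpt := Full.pot_cpt Z

variable [T2Space X] [MeasurableSpace X] [BorelSpace X] {μ : Measure X}
  {hinj : ∀ i, InjOn (A.p i) (A.C i).W} {hμ : IsVolume A μ}

theorem int_le (h : Full Z) {χ f : X → ℝ} {g : Y → ℝ} (hχ : (HS.base A hinj hμ).S χ)
    (h0 : ∀ x, 0 ≤ χ x ∧ χ x ≤ 1) (hf : Continuous f) (hg : Continuous g) (g0 : ∀ y, 0 ≤ g y)
    (hle : ∀ i, ∀ z ∈ (A.C i).W, wt ((HS.base A hinj hμ).Ψ i) z * f (A.p i z) ≤
      wt ((ybase h).Ψ i) z * g (Z.p (Z.c i) z)) :
    ∫ x, χ x * f x ∂μ ≤ ∫ y, g y ∂(ybase h).μ := by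
  have := base_fin (ybase h)
  obtain ⟨m, c, τ, h1, h2, h3⟩ := Man.exists_pu hχ fun x => (h0 x).1
  have s1 : ∀ k, (HS.base A hinj hμ).W (c k) ⊆ (ybase h).W (c k) := fun k z hz => Z.sub _ hz.1
  have t1 : ∀ k, Tst ((ybase h).W (c k)) (τ k) := fun k =>
    ⟨(h1 k).smooth, (h1 k).cpt, (h1 k).sub.trans (s1 k)⟩
  have z0 : ∀ k, ∀ z ∉ (HS.base A hinj hμ).W (c k), τ k z = 0 := fun k z hz =>
    image_eq_zero_of_notMem_tsupport fun h => hz ((h1 k).sub h)
  have i1 : ∀ k, Integrable (fun x => (HS.base A hinj hμ).ext (c k) (τ k) x * f x) μ := fun k =>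
    Man.Cc.integrable (HS.base A hinj hμ).den (fun i => ((HS.base A hinj hμ).Ψ_smooth i).continuousOn)
      ((Man.ext_S (h1 k)).cc.map₂ (fun i => hf.comp_continuousOn ((HS.base A hinj hμ).cont i))
        continuous_mul zero_mul)
  have i2 : ∀ {u : Y → ℝ}, Continuous u → Integrable u (ybase h).μ := fun hu =>
    hu.integrable_of_hasCompactSupport (HasCompactSupport.of_compactSpace _)
  have c2 := fun k => (Man.ext_S (t1 k)).cc.continuous.mul hg
  simp only [h3, Finset.sum_mul]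
  rw [integral_finsetSum _ fun k _ => i1 k]
  refine (Finset.sum_le_sum fun k _ => ?_).trans ((integral_finsetSum _ fun k _ =>
    i2 (c2 k)).symm.trans_le (integral_mono (i2 (continuous_finsetSum _ fun k _ => c2 k)) (i2 hg)
      fun y => ?_))
  · have a1 := ((HS.base A hinj hμ).Ψ_smooth (c k)).continuousOn
    have a2 := ((ybase h).Ψ_smooth (c k)).continuousOn
    have m1 := ((HS.base A hinj hμ).isOpen (c k)).measurableSet
    have a3 := ((HS.base A hinj hμ).den.intOn a1 m1 Subset.rfl _).1 (i1 k).integrableOn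
    have a4 := ((ybase h).den.intOn a2 m1 (s1 k) _).1 (i2 (c2 k)).integrableOn
    refine ((HS.base A hinj hμ).den.int_supp a1 fun x hx => by
      rw [Man.ext_out hx, zero_mul]).trans_le ((setIntegral_mono_on a3 a4 m1 fun z hz => ?_).trans_eq
        (Eq.symm (((ybase h).den.int_supp a2 fun x hx => ?_).trans
          (setIntegral_eq_of_subset_of_forall_sdiff_eq_zero ((ybase h).isOpen _).measurableSet (s1 k)
            fun z hz => ?_))))
    · rw [Pi.mul_apply, Man.ext_apply hz, Man.ext_apply (s1 k hz), smul_eq_mul, smul_eq_mul,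
        mul_left_comm, mul_left_comm _ (τ k z)]
      exact mul_le_mul_of_nonneg_left (hle _ z hz.1) (h2 k z)
    · rw [Pi.mul_apply, Man.ext_out hx, zero_mul]
    · rw [Pi.mul_apply, Man.ext_apply hz.1, z0 k z hz.2, zero_mul, smul_zero]
  · simp only [Pi.mul_apply, ← Finset.sum_mul]
    refine mul_le_of_le_one_left (g0 y) ?_
    by_cases hy : y ∈ range Z.j
    · obtain ⟨x, rfl⟩ := hy
      refine le_of_eq_of_le (Finset.sum_congr rfl fun k _ => ?_) ((h3 x).symm.trans_le (h0 x).2)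
      by_cases hx : Z.j x ∈ (ybase h).p (c k) '' (ybase h).W (c k)
      · obtain ⟨w, hw, e⟩ := hx
        obtain ⟨e1, rfl⟩ := h.mem hw e
        rw [← e, Man.ext_apply hw]
        exact (Man.ext_apply (D := (HS.base A hinj hμ).toMan) (base_mem.2 e1)).symm
      · rw [Man.ext_out hx, Man.ext_out]
        rintro ⟨w, hw, rfl⟩
        exact hx ⟨w, s1 k hw, Z.p_eq _ w hw.1⟩
    · refine (Finset.sum_eq_zero fun k _ => Man.ext_zero (C := (HS.base A hinj hμ).W (c k))
        (fun z _ => z0 k z) ?_).trans_le zero_le_one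
      rintro ⟨w, hw, rfl⟩
      exact hy ⟨_, (Z.p_eq _ w hw.1).symm⟩

theorem hxp_of (h : Full Z) {n : ℕ} {K : Form11 A} (hK : ∀ i, ∀ z ∈ (A.C i).W, (K.h i z).PosDef)
    {a η K' om : A.ι → E N → Mat N} (ha : Frm (zbb11d_man Z) a) (hη : Frm (zbb11d_man Z) η)
    (hK' : Frm (zbb11d_man Z) K') (ho : Kf (zbb11d_man Z) om)
    (p1 : ∀ i, ∀ z ∈ Z.W (Z.c i), (η i z).PosSemidef)
    (p2 : ∀ i, ∀ z ∈ Z.W (Z.c i), (K' i z).PosSemidef)
    (e1 : ∀ i, EqOn (η i) (A.C i).η (A.C i).W) (e2 : ∀ i, EqOn (K' i) (K.h i) (A.C i).W) {C : ℝ}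
    (H : ∀ t : ℝ, 0 < t → t ≤ 1 → ∀ᶠ r : ℝ in 𝓝[>] 0,
      ∃ (m : ℕ) (τ : Fin m → Y → ℝ) (w : Fin m → Y → ℂ) (Φ : Y → ℝ),
        Est (zbb11d_man Z) a (fun i z => η i z + (t : ℂ) • K' i z + (r : ℂ) • om i z) univ τ w Φ ∧
        ∫ x, Φ x * (ybase h).dens (fun i z => η i z + (t : ℂ) • K' i z + (r : ℂ) • om i z) x
          ∂(ybase h).μ ≤ C * t ^ (n - 1)) :
    (HS.base A hinj hμ).HXP n a (fun i => (A.C i).η) K.h := by
  refine ⟨4 * C, fun t t0 t1 C₀ hC => ?_⟩
  have k := ((HS.base A hinj hμ).mix_kf (base_frm (res ha)) base_eta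
    (fun i z hz => (A.C i).η_psd z hz.1) (base_kf K hK) t0).1
  change Kf _ ((HS.base A hinj hμ).mix a (fun i => (A.C i).η) K.h 0 t) at k
  have hM := (HS.base A hinj hμ).cover.ge
  obtain ⟨M, M0, hD⟩ := hn_dom k (base_frm (res (hn_frm ho))) hC ((subset_univ _).trans hM)
  have l1 : ∀ᶠ r : ℝ in 𝓝[>] 0, r * M < 1 := mem_nhdsWithin_of_mem_nhds
    ((continuousAt_id.mul continuousAt_const).eventually_lt continuousAt_const (by simp))
  obtain ⟨r, ⟨⟨m, τ, w, Φ, ⟨b1, b2, b3, b4⟩, b5⟩, r1⟩, r0⟩ :=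
    (((H t t0 t1).and l1).and self_mem_nhdsWithin).exists
  have r0' : 0 < r := r0
  have f := hn_add (hn_add hη (hn_smul hK' t)) (hn_smul (hn_frm ho) r)
  have k' := hn_kf f fun i z hz v hv => by
    rw [hn_hq, hn_hq]
    exact add_pos_of_nonneg_of_pos (add_nonneg (hq_nonneg (p1 i z hz) v)
      (mul_nonneg t0.le (hq_nonneg (p2 i z hz) v))) (mul_pos r0' (hq_pos ((ho.kah i).pos z hz) hv))
  have e3 : ∀ i, ∀ z ∈ (A.C i).W, η i z + (t : ℂ) • K' i z =
      (HS.base A hinj hμ).mix a (fun i => (A.C i).η) K.h 0 t i z := fun i z hz => by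
    rw [HX.Base.mix, e1 i hz, e2 i hz, Complex.ofReal_zero, zero_smul, zero_add]
  generalize (HS.base A hinj hμ).mix a (fun i => (A.C i).η) K.h 0 t = G at *
  obtain ⟨θ, c1, c2, c3⟩ := exists_one hC ((subset_univ _).trans hM)
  have c4 : (HS.base A hinj hμ).S fun x => Real.smoothTransition (2 * θ x) :=
    ⟨fun i => Real.smoothTransition.contDiff.comp_contDiffOn (contDiffOn_const.mul (c1.1 i)),
      c1.2.of_zero fun x hx => by simp [hx]⟩
  have c5 : ∀ x ∈ C₀, ∀ᶠ y in 𝓝 x, Real.smoothTransition (2 * θ y) = 1 := fun x hx =>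
    (continuousAt_const.eventually_lt (continuousAt_const.mul c1.cc.continuous.continuousAt)
      (show (1 : ℝ) < 2 * θ x by simp [c3 x hx])).mono fun y hy =>
        Real.smoothTransition.one_of_one_le hy.le
  have c6 := fun x => And.intro (Real.smoothTransition.nonneg (2 * θ x))
    (Real.smoothTransition.le_one (2 * θ x))
  generalize hχ : (fun x => Real.smoothTransition (2 * θ x)) = χ at c4
  simp only [show ∀ x, Real.smoothTransition (2 * θ x) = χ x from congrFun hχ] at c5 c6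
  have cΦ : Continuous Φ := b2.continuous
  have sm : ∀ {F : Type} [NormedAddCommGroup F] [NormedSpace ℝ F] {u : Y → F},
      (zbb11d_man Z).Smo u → (HS.base A hinj hμ).Smo fun x => u (Z.j x) := fun hu i =>
    ((hu i).mono fun z hz => Z.sub _ hz.1).congr fun z hz => congrArg _ (Z.p_eq i z hz.1).symm
  refine ⟨m, fun k x => χ x * τ k (Z.j x), fun k x => χ x • w k (Z.j x),
    fun x => χ x * (4 * Φ (Z.j x)), ⟨fun k => ⟨⟨fun i => (c4.1 i).mul (sm (b1 k).1.1 i),
      c4.2.of_zero fun x hx => by simp [hx]⟩, fun i => (c4.1 i).smul (sm (b1 k).2.1 i),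
      c4.2.of_zero fun x hx => by simp [hx]⟩, c4.cc.map₂ (fun i => (continuous_const.mul
        (cΦ.comp Z.j_cont)).comp_continuousOn ((HS.base A hinj hμ).cont i)) continuous_mul zero_mul,
      fun x => mul_nonneg (c6 x).1 (mul_nonneg zero_le_four (b3 _)), fun i z hz hc u v => ?_⟩, ?_⟩
  · have n1 := ((HS.base A hinj hμ).isOpen i).mem_nhds hz
    have n2 : ∀ᶠ y in 𝓝 z, χ (A.p i y) = 1 ∧ Z.j (A.p i y) = Z.p (Z.c i) y := by
      filter_upwards [(Man.contAt_p hz).eventually (c5 _ hc), n1] with y h1 h2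
      exact ⟨h1, (Z.p_eq i y h2.1).symm⟩
    have n3 : bet (fun k x => χ x * τ k (Z.j x)) (fun k x => χ x • w k (Z.j x)) (A.p i) =ᶠ[𝓝 z]
        bet τ w (Z.p (Z.c i)) := by
      filter_upwards [n2.eventually_nhds] with y hy
      refine Finset.sum_congr rfl fun k _ => ?_
      rw [(dcf_congr (f' := fun x => w k (Z.p (Z.c i) x)) (hy.mono fun x hx => by
        simp only [hx.1, hx.2, one_smul])).self_of_nhds]
      simp only [hy.self_of_nhds.1, hy.self_of_nhds.2, one_mul]
    have q : ∀ v, 0 ≤ (hq (η i z + (t : ℂ) • K' i z + (r : ℂ) • om i z) v v).re ∧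
        (hq (η i z + (t : ℂ) • K' i z + (r : ℂ) • om i z) v v).re ≤ 2 * (hq (G i z) v v).re :=
      fun v => ⟨hq_nonneg ((k'.kah i).pos z (Z.sub i hz.1)).posSemidef v, by
        have a1 := mul_le_mul_of_nonneg_left ((le_abs_self _).trans (hD i z hz hc v)) r0'.le
        have a2 := mul_le_of_le_one_left (hq_nonneg ((k.kah i).pos z hz).posSemidef v) r1.le
        rw [hn_hq, e3 i z hz.1]
        change r * (hq (om i z) v v).re ≤ _ at a1
        linarith⟩
    refine le_of_eq_of_le (congrArg (fun x => (ev11 (a i z) u v + x) ^ 2) (dform_congr n3 u v))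
      ((b4 i z (Z.sub i hz.1) trivial u v).trans ?_)
    have a1 := mul_le_mul_of_nonneg_left (mul_le_mul (q u).2 (q v).2 (q v).1
      ((q u).1.trans (q u).2)) (b3 (Z.p (Z.c i) z))
    change Φ (Z.p (Z.c i) z) * _ * _ ≤ χ (A.p i z) * (4 * Φ (Z.j (A.p i z))) * _ * _
    rw [n2.self_of_nhds.1, n2.self_of_nhds.2]
    linarith
  · have a1 := int_le (hinj := hinj) (hμ := hμ) h c4 c6
      ((cΦ.comp Z.j_cont).mul (hn_dens_cont (hn_frm k))) (cΦ.mul (hn_dens_cont (B := ybase h) f))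
      (fun y => mul_nonneg (b3 y) (hn_dens_pos (B := ybase h) k' y).le) fun i z hz => by
        have a2 := hn_dens (B := ybase h) f.cpt (Z.sub i hz)
        have a3 := hn_dens k.cpt (base_mem.2 hz)
        have a4 := hn_mono ((k.kah i).pos z (base_mem.2 hz)) ((k'.kah i).pos z (Z.sub i hz)) (c := 1)
          fun v => by
            rw [hn_hq, e3 i z hz, one_mul]
            exact le_add_of_nonneg_right (mul_nonneg r0'.le
              (hq_nonneg ((ho.kah i).pos z (Z.sub i hz)).posSemidef v))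
        change _ * (Φ (Z.j (A.p i z)) * (HS.base A hinj hμ).dens G ((HS.base A hinj hμ).p i z)) ≤
          _ * (Φ _ * (ybase h).dens _ ((ybase h).p i z))
        rw [a2, a3, ← Z.p_eq i z hz, mul_left_comm, mul_div_cancel₀ _ (wt_pos _ _).ne', mul_left_comm,
          mul_div_cancel₀ _ (wt_pos _ _).ne']
        exact mul_le_mul_of_nonneg_left (by simpa using a4) (b3 _)
    rw [mul_assoc]
    refine le_of_eq_of_le ?_ (mul_le_mul_of_nonneg_left (a1.trans b5) zero_le_four)
    rw [← integral_const_mul]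
    exact integral_congr_ae (.of_forall fun x => by
      simp only [Pi.mul_apply, Function.comp]
      ring)

end Pool.Agent.BF
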