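import Pool.Agent.P.MP_63735c_ag.BF7
import Pool.Agent.P.MP_63735c_ag.ABMan

/-! The connection of a line bundle. -/

open scoped ComplexOrder ContDiff Matrix Topology
open Set Metric MeasureTheory Filter

namespace Pool.Agent.BF

open Pool.Agent.SPF Pool.Agent.AB Pool.Agent.HX Pool.Agent.CK Pool.Agent.HS
open Pool.Agent.CL (Form1 Form2 Closed2 IsPrim)

variable {N : ℕ} {Y : Type} [TopologicalSpace Y] {D : Man Y N}

theorem bf7b_loc {f f' : E N → ℝ} {G : E N → ℂ} {z : E N} (hf : ContDiffAt ℝ ∞ f z)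
    (hf' : ContDiffAt ℝ ∞ f' z) (hG : ∀ᶠ w in 𝓝 z, DifferentiableAt ℂ G w)
    (e : ∀ᶠ w in 𝓝 z, Real.exp (-f w) = ‖G w‖ ^ 2 * Real.exp (-f' w)) :
    lev f' z = lev f z ∧ ∀ u, fderiv ℝ (fun w => G w * (Real.exp ((f w - f' w) / 2) : ℂ)) z u =
      Complex.I * (dcf (fun w => (f' w : ℂ)) z u - dcf (fun w => (f w : ℂ)) z u : ℝ) *
        (G z * Real.exp ((f z - f' z) / 2)) := by
  have h0 : ∀ᶠ w in 𝓝 z, ‖G w‖ ^ 2 ≠ 0 := e.mono fun w hw h =>
    (Real.exp_pos _).ne' (by rw [hw, h, zero_mul])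
  have hz := h0.self_of_nhds
  have h1 : G z ≠ 0 := fun h => hz (by simp [h])
  have e' : f' =ᶠ[𝓝 z] fun w => f w + Real.log (‖G w‖ ^ 2) := by
    filter_upwards [e, h0] with w a b
    have := congrArg Real.log a
    rw [Real.log_mul b (Real.exp_pos _).ne', Real.log_exp, Real.log_exp] at this
    linarith
  have hA := hG.self_of_nhds.hasFDerivAt.restrictScalars ℝ
  have ha := (hf.differentiableAt (by simp)).hasFDerivAt
  have hb := (hf'.differentiableAt (by simp)).hasFDerivAt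
  refine ⟨?_, fun u => ?_⟩
  · have h := lev_log_norm hG h1
    simp only [Real.log_pow] at e'
    rw [(lev_congr e').eq_of_nhds, lev_add hf (contDiffAt_const.mul h.1), lev_smul h.1, h.2,
      smul_zero, add_zero]
  have r : ∀ v c, fderiv ℂ G z v = c * G z → fderiv ℝ f' z v = fderiv ℝ f z v + 2 * c.re :=
    fun v c hc => by
    rw [e'.fderiv_eq, (ha.fun_add (hA.norm_sq.log hz)).fderiv]
    simp only [add_apply, smul_apply, ContinuousLinearMap.comp_apply, innerSL_apply_apply,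
      ContinuousLinearMap.coe_restrictScalars', hc, Complex.inner, mul_assoc, Complex.mul_conj,
      Complex.normSq_eq_norm_sq, Complex.re_mul_ofReal, smul_eq_mul, nsmul_eq_mul]
    field_simp
    norm_num [mul_comm]
  obtain ⟨c, hc⟩ : ∃ c, fderiv ℂ G z u = c * G z := ⟨_, (div_mul_cancel₀ _ h1).symm⟩
  have h2 := Complex.ofRealCLM.hasFDerivAt.comp z ((ha.fun_sub hb).mul_const 2⁻¹).exp
  have h3 : ∀ {k : E N → ℝ}, DifferentiableAt ℝ k z →
      dcf (fun w => (k w : ℂ)) z u = -(1 / 2) * fderiv ℝ k z (Complex.I • u) := fun {k} h => by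
    rw [dcf_eq, show fderiv ℝ (fun y => (k y : ℂ)) z = _ from
      (Complex.ofRealCLM.hasFDerivAt.comp z h.hasFDerivAt).fderiv]
    simp
  rw [show fderiv ℝ (fun w => G w * (Real.exp ((f w - f' w) / 2) : ℂ)) z = _ from
    (hA.fun_mul h2).fderiv, h3 ha.differentiableAt, h3 hb.differentiableAt,
    r _ (Complex.I * c) (by rw [map_smul, hc, smul_eq_mul, mul_assoc])]
  simp only [add_apply, smul_apply, sub_apply, ContinuousLinearMap.comp_apply,
    ContinuousLinearMap.coe_restrictScalars', hc, r u c hc, Function.comp, smul_eq_mul,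
    Complex.ofRealCLM_apply, div_eq_mul_inv]
  apply Complex.ext <;> simp [-Complex.ofReal_exp] <;> ring

theorem line_conn (hc : D.M = univ) {g : D.ι → D.ι → Y → ℂ} {ψ : D.ι → E N → ℝ}
    (h1 : ∀ i k, ∀ z ∈ D.W i, D.p i z ∈ D.p k '' D.W k →
      DifferentiableAt ℂ (fun w => g i k (D.p i w)) z)
    (h2 : ∀ i k l x, x ∈ D.p i '' D.W i → x ∈ D.p k '' D.W k → x ∈ D.p l '' D.W l →
      g k l x * g i k x = g i l x)
    (h3 : ∀ i, ContDiffOn ℝ ∞ (ψ i) (D.W i))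
    (h4 : ∀ i k, ∀ z ∈ D.W i, ∀ y ∈ D.W k, D.p i z = D.p k y →
      Real.exp (-ψ i z) = ‖g i k (D.p i z)‖ ^ 2 * Real.exp (-ψ k y)) :
    Frm D (fun i => lev (ψ i)) ∧
      Nonempty (Conn D fun i z => (1 / (2 * Real.pi)) • e11 (lev (ψ i) z)) := by
  have s0 : ∀ {i z}, z ∈ D.W i → ContDiffAt ℝ ∞ (ψ i) z := fun {i z} hz =>
    (h3 i).contDiffAt ((D.isOpen i).mem_nhds hz)
  have e0 : ∀ {i z}, z ∈ D.W i → (fun w => D.ext i (ψ i) (D.p i w)) =ᶠ[𝓝 z] ψ i := fun {i z} hz =>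
    mem_of_superset ((D.isOpen i).mem_nhds hz) fun w hw => Man.ext_apply hw
  have s1 : ∀ {a i z}, z ∈ D.W i → D.p i z ∈ D.p a '' D.W a →
      ContDiffAt ℝ ∞ (fun w => D.ext a (ψ a) (D.p i w)) z := fun {a i z} hz ⟨y, hy, e⟩ =>
    Man.smoAt hz hy e.symm ((s0 hy).congr_of_eventuallyEq (e0 hy))
  have e1 : ∀ {a b x}, x ∈ D.p a '' D.W a → x ∈ D.p b '' D.W b → Real.exp (-D.ext a (ψ a) x) =
      ‖g a b x‖ ^ 2 * Real.exp (-D.ext b (ψ b) x) := by
    rintro a b _ ⟨z, hz, rfl⟩ ⟨y, hy, e⟩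
    rw [Man.ext_apply hz, h4 a b z hz y hy e.symm, ← e, Man.ext_apply hy]
  have n : ∀ {a b i z}, z ∈ D.W i → D.p i z ∈ D.p a '' D.W a → D.p i z ∈ D.p b '' D.W b →
      ∀ᶠ w in 𝓝 z, DifferentiableAt ℂ (fun w => g a b (D.p i w)) w ∧ D.p i w ∈ D.p a '' D.W a ∧
        D.p i w ∈ D.p b '' D.W b := fun {a b i z} hz ha hb => by
    filter_upwards [(D.isOpen i).mem_nhds hz, Man.contAt_p hz ((D.isOpen_img a).mem_nhds ha),
      Man.contAt_p hz ((D.isOpen_img b).mem_nhds hb)] with w hw ⟨y, hy, e⟩ h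
    exact ⟨Man.holAt hw hy e.symm (h1 a b y hy (e ▸ h)), ⟨y, hy, e⟩, h⟩
  have k := fun {a b i z} (hz : z ∈ D.W i) ha hb => bf7b_loc (s1 hz ha) (s1 hz hb)
    ((n (a := a) (b := b) hz ha hb).mono fun _ h => h.1)
    ((n hz ha hb).mono fun _ h => e1 h.2.1 h.2.2)
  have l : ∀ {a i z}, z ∈ D.W i → D.p i z ∈ D.p a '' D.W a →
      lev (fun w => D.ext a (ψ a) (D.p i w)) z = lev (ψ i) z := fun hz ha =>
    (k hz ⟨_, hz, rfl⟩ ha).1.trans (lev_congr (e0 hz)).eq_of_nhds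
  refine ⟨⟨fun i => ⟨lev_smooth (D.isOpen i) (h3 i), fun z hz => lev_herm (s0 hz),
    fun z hz => lev_closed (s0 hz)⟩, fun i j z hz φ hφ => ?_⟩, ⟨{
      κ := D.ι
      U := fun a => D.p a '' D.W a
      g := fun a b x => g a b x * Real.exp ((D.ext a (ψ a) x - D.ext b (ψ b) x) / 2)
      α := fun a i => (1 / (2 * Real.pi)) • dcf fun w => (D.ext a (ψ a) (D.p i w) : ℝ)
      isOpen := D.isOpen_img
      cover := fun x => mem_iUnion.1 (hc.ge (mem_univ x))
      norm := fun a b x ha hb => ?_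
      mul := fun a b c x ha hb hx => ?_
      form := fun a => ⟨fun i z hz => ((dcf_smooth (ablev_re (s1 hz.1 hz.2))).const_smul
        (_ : ℝ)).contDiffWithinAt, fun i j z hz ha φ hφ u => ?_⟩
      curv := fun a i z hz ha u v => ?_
      smooth := fun a b i z hz ha hb => (smoothAt_of_hol' ((n hz ha hb).mono fun _ h => h.1)).mul
        (ablev_re (((s1 hz ha).sub (s1 hz hb)).div_const 2).exp)
      gauge := fun a b i z hz ha hb u => ?_ }⟩⟩
  · have h := hφ.self_of_nhds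
    rw [← l hz ⟨_, h.2.1, h.2.2⟩, ← lev_comp (s0 h.2.1) (hφ.mono fun _ h => h.1)]
    exact (lev_congr (hφ.mono fun w hw => by rw [← hw.2.2, Man.ext_apply hw.2.1])).eq_of_nhds
  · rw [← pow_eq_one_iff_of_nonneg (norm_nonneg _) two_ne_zero, norm_mul, mul_pow,
      Complex.norm_real, Real.norm_eq_abs, sq_abs, ← Real.exp_nat_mul,
      ← mul_left_inj' (Real.exp_pos (-D.ext a (ψ a) x)).ne', mul_assoc, ← Real.exp_add, one_mul,
      e1 ha hb]
    congr 2
    push_cast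
    ring
  · rw [← h2 a b c x ha hb hx, mul_mul_mul_comm, ← Complex.ofReal_mul, ← Real.exp_add]
    congr 3
    ring
  · have h := hφ.self_of_nhds
    simp only [Pi.smul_apply, smul_apply]
    rw [dc_real h.1, ← dcf_comp ((ablev_re (s1 h.2.1 (h.2.2 ▸ ha))).differentiableAt (by simp)) h.1,
      (dcf_congr (hφ.mono fun w hw => by rw [← hw.2.2])).eq_of_nhds]
  · have h := ablev_re (s1 hz ha)
    rw [dform_smul ((dcf_smooth h).differentiableAt (by simp)), dform_dcf h, lc_real, l hz ha,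
      ← ev11_eq (lev_herm (s0 hz))]
    rfl
  · rw [(k hz ha hb).2 u]
    simp only [Pi.smul_apply, smul_apply, smul_eq_mul]
    push_cast
    field_simp

end Pool.Agent.BF
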