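import Pool.Agent.P.MP_63735c_ag.BF8
import Pool.Agent.P.MP_63735c_ag.BF7

/-! Integrality of a curvature form, read on `T × ℂ^n`. -/

open scoped ComplexOrder ContDiff Matrix Topology
open Set Metric MeasureTheory Filter

namespace Pool.Agent.BF

open Pool.Agent.SPF Pool.Agent.AB Pool.Agent.HX Pool.Agent.CK Pool.Agent.HS
open Pool.Agent.CL (Form1 Form2 Closed2 IsPrim)

variable {N n : ℕ} {Y : Type} [TopologicalSpace Y] {D : Man Y N}

theorem bf9_eq {G : Type} [NormedAddCommGroup G] [NormedSpace ℝ G] {U : Set Y}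
    {α : D.ι → Form1 (E N)} (h : G1 D U α) {x : G} {f f' : G → E N} {i j : D.ι}
    (hd : DifferentiableAt ℝ f x)
    (hf : ∀ᶠ s in 𝓝 x, f s ∈ D.W i ∧ f' s ∈ D.W j ∧ D.p i (f s) = D.p j (f' s))
    (hx : D.p i (f x) ∈ U) : CL.pull1 f (α i) x = CL.pull1 f' (α j) x := by
  obtain ⟨h1, h2, h3⟩ := hf.self_of_nhds
  obtain ⟨φ, e, hφ⟩ := D.trans i j _ h1 _ h2 h3
  have ev : f' =ᶠ[𝓝 x] φ ∘ f := (hf.and (hd.continuousAt.eventually hφ)).mono fun s hs =>
    D.inj j hs.1.2.1 hs.2.2.1 (hs.1.2.2.symm.trans hs.2.2.2.symm)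
  refine ContinuousLinearMap.ext fun u => ?_
  simp only [CL.pull1, ContinuousLinearMap.comp_apply]
  rw [ev.fderiv_eq, fderiv_comp x (hφ.self_of_nhds.1.restrictScalars ℝ) hd,
    h.cpt i j _ h1 hx φ hφ, e]
  rfl

theorem bf9_exp {R : ℝ → ℂ} {w : ℝ → ℝ} (hR : ContinuousOn R (Icc 0 1))
    (hw : ContinuousOn w (Icc 0 1))
    (hd : ∀ r ∈ Ioo (0 : ℝ) 1, HasDerivAt R (2 * Real.pi * Complex.I * R r * w r) r) :
    R 1 * Complex.exp (-(2 * Real.pi * Complex.I * (∫ r in (0 : ℝ)..1, w r : ℝ))) = R 0 := by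
  have hJ : ContinuousOn (fun r => ∫ s in (0 : ℝ)..r, w s) (Icc 0 1) := by
    simpa using intervalIntegral.continuousOn_primitive_interval' (CL.clprim_int hw) left_mem_uIcc
  have key := intervalIntegral.integral_eq_sub_of_hasDerivAt_of_le (f' := fun _ => 0)
    (f := fun r => R r * Complex.exp (-(2 * Real.pi * Complex.I * (∫ s in (0 : ℝ)..r, w s : ℝ))))
    zero_le_one (by fun_prop) (fun r hr => ?_) (by simp)
  · simpa [sub_eq_zero] using key.symm
  have hn := Icc_mem_nhds hr.1 hr.2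
  have h1 := intervalIntegral.integral_hasDerivAt_right
    ((CL.clprim_int hw).mono_set (uIcc_subset_uIcc_left (mem_uIcc_of_le hr.1.le hr.2.le)))
    ((hw.mono Ioo_subset_Icc_self).stronglyMeasurableAtFilter isOpen_Ioo r hr) (hw.continuousAt hn)
  refine ((hd r hr).mul (h1.ofReal_comp.const_mul (2 * Real.pi * Complex.I)).neg.cexp).congr_deriv ?_
  simp only [Pi.neg_apply]
  ring

theorem isInt_conn {β : D.ι → Form2 (E N)} (C : Conn D β) {T : Set (E n)} (hT : IsOpen T)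
    (hc : Convex ℝ T) {Φ : CL.P n → Y} {t : Form2 (CL.P n)}
    (ht : ∀ p : CL.P n, p.1 ∈ T → ∃ i f,
      (∀ᶠ s in 𝓝 p, DifferentiableAt ℂ f s ∧ f s ∈ D.W i ∧ D.p i (f s) = Φ s) ∧
      ∀ᶠ s in 𝓝 p, ∀ u v, t s u v = β i (f s) (fderiv ℂ f s u) (fderiv ℂ f s v)) :
    CL.IsInt T Φ t := by
  intro A hA
  have hW : IsOpen (T ×ˢ (univ : Set (E n))) := hT.prod isOpen_univ
  have hO : ∀ a, IsOpen (T ×ˢ univ ∩ Φ ⁻¹' C.U a) := fun a => by
    refine ContinuousOn.isOpen_inter_preimage (fun p hp => ?_) hW (C.isOpen a)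
    obtain ⟨i, f, hf, -⟩ := ht p hp.1
    obtain ⟨h1, h2, -⟩ := hf.self_of_nhds
    exact ((((D.cont i).continuousAt ((D.isOpen i).mem_nhds h2)).comp h1.continuousAt).congr
      (hf.mono fun s hs => hs.2.2)).continuousWithinAt
  have hB : ∀ a (p : CL.P n), ∃ B : CL.P n →L[ℝ] ℝ, p ∈ T ×ˢ univ ∩ Φ ⁻¹' C.U a → ∀ i f,
      (∀ᶠ s in 𝓝 p, DifferentiableAt ℂ f s ∧ f s ∈ D.W i ∧ D.p i (f s) = Φ s) →
      B = CL.pull1 f (C.α a i) p := fun a p => by
    by_cases hp : p.1 ∈ T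
    · obtain ⟨i, f, hf, -⟩ := ht p hp
      exact ⟨_, fun ha j f' hf' => bf9_eq (C.form a) (hf.self_of_nhds.1.restrictScalars ℝ)
        ((hf.and hf').mono fun s hs => ⟨hs.1.2.1, hs.2.2.1, hs.1.2.2.trans hs.2.2.2.symm⟩)
        (hf.self_of_nhds.2.2 ▸ ha.2)⟩
    · exact ⟨0, fun h => (hp h.1.1).elim⟩
  choose B hB using hB
  have hP : ∀ a, ∀ p ∈ T ×ˢ univ ∩ Φ ⁻¹' C.U a, ContDiffAt ℝ ∞ (B a) p ∧
      ∀ u v, fderiv ℝ (B a) p u v - fderiv ℝ (B a) p v u = t p u v := fun a p hp => by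
    obtain ⟨i, f, hf, he⟩ := ht p hp.1.1
    obtain ⟨V, hV, hVo, hpV⟩ := _root_.eventually_nhds_iff.1 (hf.and (he.and ((hO a).mem_nhds hp)))
    have ev : B a =ᶠ[𝓝 p] CL.pull1 f (C.α a i) :=
      (hf.eventually_nhds.and ((hO a).mem_nhds hp)).mono fun s hs => hB a s hs.2 i f hs.1
    have h := CL.pull_prim ((D.cont i).isOpen_inter_preimage (D.isOpen i) (C.isOpen a)) hVo
      (CL.hol_smooth hVo fun x hx => (hV x hx).1.1.differentiableWithinAt).2.1
      (fun x hx => ⟨(hV x hx).1.2.1, by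
        simpa only [mem_preimage, (hV x hx).1.2.2] using (hV x hx).2.2.2⟩)
      (t := β i) (t' := t) ⟨(C.form a).smooth i, fun x hx => C.curv a i x hx.1 hx.2⟩
      fun x hx u v => by
        rw [(hV x hx).2.1, ((hV x hx).1.1.hasFDerivAt.restrictScalars ℝ).fderiv]; rfl
    exact ⟨(h.1.contDiffAt (hVo.mem_nhds hpV)).congr_of_eventuallyEq ev,
      by rw [ev.fderiv_eq]; exact h.2 p hpV⟩
  obtain ⟨s, hs, hs'⟩ := flat (g := fun a b p => C.g a b (Φ p)) hW (hc.prod convex_univ) hO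
    (fun x hx => (C.cover (Φ x)).imp fun a ha => ⟨hx, ha⟩) hA
    (fun a => ⟨fun p hp => (hP a p hp.2).1.contDiffWithinAt, fun p hp => (hP a p hp.2).2⟩)
    (fun a b p hp ha hb => ⟨C.norm a b _ ha.2 hb.2, by
      obtain ⟨i, f, hf, -⟩ := ht p hp.1
      obtain ⟨h1, h2, h3⟩ := hf.self_of_nhds
      have ha' : D.p i (f p) ∈ C.U a := h3 ▸ ha.2
      have hb' : D.p i (f p) ∈ C.U b := h3 ▸ hb.2
      refine ((((C.smooth a b i _ h2 ha' hb').differentiableAt (by simp)).hasFDerivAt.comp p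
        (h1.restrictScalars ℝ).hasFDerivAt).congr_of_eventuallyEq
        (hf.mono fun s hs => congrArg (C.g a b) hs.2.2.symm)).congr_fderiv ?_
      refine ContinuousLinearMap.ext fun u => ?_
      simp [C.gauge a b i _ h2 ha' hb', hB a p ha i f hf, hB b p hb i f hf, CL.pull1, h3]
      ring⟩)
    fun a b c x _ ha hb hc => C.mul a b c _ ha.2 hb.2 hc.2
  choose k hk using C.cover
  refine ⟨fun p => (s (k (Φ p)) p).arg / (2 * Real.pi), fun c c' h h' he => ?_⟩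
  have m : ∀ r ∈ Icc (0 : ℝ) 1, ∀ a, Φ (c r) ∈ C.U a →
      c r ∈ T ×ˢ univ ∩ Φ ⁻¹' C.U a ∧ c' r ∈ T ×ˢ univ ∩ Φ ⁻¹' C.U a :=
    fun r hr a ha => ⟨⟨(h r hr).2, ha⟩, (h' r hr).2, by rwa [mem_preimage, ← he r hr]⟩
  have d : ∀ r ∈ Icc (0 : ℝ) 1, HasDerivWithinAt
      (fun r => s (k (Φ (c r))) (c r) / s (k (Φ (c r))) (c' r))
      (2 * Real.pi * Complex.I * (s (k (Φ (c r))) (c r) / s (k (Φ (c r))) (c' r)) *
        (B (k (Φ (c r))) (c r) (deriv c r) - A (c r) (deriv c r) -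
          (B (k (Φ (c r))) (c' r) (deriv c' r) - A (c' r) (deriv c' r)) : ℝ)) (Icc 0 1) r := by
    intro r hr
    obtain ⟨m1, m2⟩ := m r hr _ (hk _)
    have d1 := ((h r hr).1.differentiableAt (by simp)).hasDerivAt
    have d2 := ((h' r hr).1.differentiableAt (by simp)).hasDerivAt
    have n2 : s (k (Φ (c r))) (c' r) ≠ 0 := norm_ne_zero_iff.1 (by simp [(hs _ _ m2.1 m2).1])
    refine ((((hs _ _ m1.1 m1).2.comp_hasDerivAt r d1).div
      ((hs _ _ m2.1 m2).2.comp_hasDerivAt r d2) n2).congr_deriv ?_).hasDerivWithinAt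
      |>.congr_of_eventuallyEq_of_mem ?_ hr
    · simp
      field_simp
    filter_upwards [self_mem_nhdsWithin, mem_nhdsWithin_of_mem_nhds
      (d1.continuousAt.eventually ((hO _).mem_nhds m1))] with q hq q1
    obtain ⟨q2, q3⟩ := m q hq _ (hk _)
    have n3 : C.g (k (Φ (c q))) (k (Φ (c r))) (Φ (c q)) ≠ 0 :=
      norm_ne_zero_iff.1 (by simp [C.norm _ _ _ q2.2 q1.2])
    simp only [Pi.div_apply, Function.comp_apply]
    rw [hs' _ _ _ q2.1 q2 q1, hs' _ _ _ q3.1 q3 (m q hq _ q1.2).2, ← he q hq,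
      mul_div_mul_left _ _ n3]
  have key := bf9_exp (fun r hr => (d r hr).continuousWithinAt)
    ((CL.clprim_cont hA.1.continuousOn h').sub (CL.clprim_cont hA.1.continuousOn h))
    fun r hr => by
      have hr' := Ioo_subset_Icc_self hr
      have hn := Icc_mem_nhds hr.1 hr.2
      obtain ⟨m1, m2⟩ := m r hr' _ (hk _)
      obtain ⟨i, f, hf, -⟩ := ht _ m1.1.1
      obtain ⟨j, f', hf', -⟩ := ht _ m2.1.1
      have d1 := (h r hr').1.differentiableAt (by simp)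
      have d2 := (h' r hr').1.differentiableAt (by simp)
      have e1 := hf.self_of_nhds.1.restrictScalars ℝ
      have e := DFunLike.congr_fun (bf9_eq (C.form (k (Φ (c r)))) (f' := f' ∘ c') (j := j)
        (e1.comp r d1) (((d1.continuousAt.eventually hf).and
          ((d2.continuousAt.eventually hf').and hn)).mono fun q hq => ⟨hq.1.2.1, hq.2.1.2.1,
            hq.1.2.2.trans ((he q hq.2.2).trans hq.2.1.2.2.symm)⟩)
        (mem_of_eq_of_mem hf.self_of_nhds.2.2 m1.2)) 1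
      refine ((d r hr').hasDerivAt hn).congr_deriv ?_
      simp only [CL.pull1, fderiv_comp r e1 d1, ContinuousLinearMap.comp_apply,
        fderiv_comp r (hf'.self_of_nhds.1.restrictScalars ℝ) d2, fderiv_apply_one_eq_deriv,
        Function.comp_apply] at e
      simp only [hB _ _ m1 i f hf, hB _ _ m2 j f' hf', CL.pull1, ContinuousLinearMap.comp_apply, e]
      simp
  have ex : ∀ r ∈ Icc (0 : ℝ) 1, s (k (Φ (c r))) (c r) / s (k (Φ (c r))) (c' r) = Complex.exp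
      ((s (k (Φ (c r))) (c r)).arg * Complex.I - (s (k (Φ (c' r))) (c' r)).arg * Complex.I) := by
    intro r hr
    obtain ⟨m1, m2⟩ := m r hr _ (hk _)
    have e1 := Complex.norm_mul_exp_arg_mul_I (s (k (Φ (c r))) (c r))
    have e2 := Complex.norm_mul_exp_arg_mul_I (s (k (Φ (c r))) (c' r))
    rw [(hs _ _ m1.1 m1).1, Complex.ofReal_one, one_mul] at e1
    rw [(hs _ _ m2.1 m2).1, Complex.ofReal_one, one_mul] at e2
    rw [Complex.exp_sub, ← he r hr, e1, e2]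
  simp only [Pi.sub_apply] at key
  rw [ex 0 (by simp), ex 1 (by simp), ← Complex.exp_add, intervalIntegral.integral_sub
    (CL.clprim_int (CL.clprim_cont hA.1.continuousOn h'))
    (CL.clprim_int (CL.clprim_cont hA.1.continuousOn h)), eq_comm,
    Complex.exp_eq_exp_iff_exists_int] at key
  obtain ⟨z, hz⟩ := key
  have := congrArg Complex.im hz
  simp at this
  refine ⟨z, ?_⟩
  unfold CL.lineInt
  field_simp
  linarith

end Pool.Agent.BF
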