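import Pool.Agent.P.MP_63735c_ag.BPA5

/-! Properties of the action. -/

open scoped ComplexOrder ContDiff Matrix Topology ENNReal
open Set Metric MeasureTheory Filter

namespace Pool.Agent.BP

open Pool.Agent.SPF Pool.Agent.AB Pool.Agent.CK Pool.Agent.SE Pool.Agent.NL

variable {N n : ℕ} {X : Type} [TopologicalSpace X] [T2Space X] {A : Atlas X N} {U : Set X}
  {g : X → E n} {φ : X → ℝ} {Φ : X → E n → X} {x : X}

theorem Flow.eq (hF : Flow A U g Φ) (hH : HolU A U g) {Ψ : E n → X} (h : ∀ t, Sol A U g Ψ t)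
    (t : E n) : Φ (Ψ 0) t = Ψ t :=
  sol_eq hH isOpen_univ isPreconnected_univ (fun s _ => hF.sol _ (h 0).mem s) (fun s _ => h s)
    (mem_univ 0) (hF.zero _ (h 0).mem) (mem_univ t)

theorem Flow.add (hF : Flow A U g Φ) (hH : HolU A U g) (hx : x ∈ U) (τ τ' : E n) :
    Φ (Φ x τ) τ' = Φ x (τ + τ') := by
  simpa using hF.eq hH (Ψ := fun s => Φ x (τ + s)) (fun s => (hF.sol x hx _).shift) τ'

omit [T2Space X] in
theorem Flow.inv (hF : Flow A U g Φ) (hH : Ham A U g φ) (hx : x ∈ U) (τ : E n) :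
    g (Φ x τ) = g x ∧ φ (Φ x τ) = φ x := by
  have h := fun s => hH.const (hF.sol x hx s)
  have h1 := is_const_of_fderiv_eq_zero (fun s => (h s).2.differentiableAt)
    (fun s => (h s).2.fderiv) τ 0
  have h2 := is_const_of_fderiv_eq_zero (fun s => (h s).1.differentiableAt)
    (fun s => (h s).1.fderiv) τ 0
  rw [hF.zero x hx] at h1 h2
  exact ⟨h1, h2⟩

/-- The action lifts holomorphically near `(z, τ)`. -/
def JL (A : Atlas X N) (Φ : X → E n → X) (i : A.ι) (z : E N) (τ : E n) : Prop :=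
  ∃ (j : A.ι) (F : E N × E n → E N), ∀ᶠ w in 𝓝 (z, τ), DifferentiableAt ℂ F w ∧
    F w ∈ (A.C j).W ∧ A.p j (F w) = Φ (A.p i w.1) w.2

theorem bpa6_step (hF : Flow A U g Φ) (hH : Ham A U g φ) {j : A.ι} {y : E N}
    (hy : y ∈ (A.C j).W) (hU : A.p j y ∈ U) : ∃ r δ : ℝ, 0 < r ∧ 0 < δ ∧ ball y r ⊆ (A.C j).W ∧
      ∀ {i : A.ι} {z : E N} {τ : E n} {G : E N → E N}, G z ∈ ball y r →
        (∀ᶠ w in 𝓝 z, DifferentiableAt ℂ G w ∧ A.p i w ∈ U ∧ A.p j (G w) = Φ (A.p i w) τ) →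
        ∀ t ∈ ball τ δ, JL A Φ i z t := by
  obtain ⟨r, δ, Fl, hr, hδ, h1, h2, h3⟩ := hH.loc hy hU
  refine ⟨r, δ, hr, hδ, h1, fun {i z τ G} hG h4 t ht =>
    ⟨j, fun w => Fl (G w.1, w.2 - τ), ?_⟩⟩
  have h5 : ∀ᶠ w in 𝓝 z, G w ∈ ball y r :=
    h4.self_of_nhds.1.continuousAt.eventually (isOpen_ball.mem_nhds hG)
  filter_upwards [continuousAt_fst.eventually (h4.and h5),
    continuousAt_snd.eventually (isOpen_ball.mem_nhds ht)] with w ⟨⟨a1, a2, a3⟩, a4⟩ a5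
  have a6 : w.2 - τ ∈ ball (0 : E n) δ := by rwa [mem_ball_zero_iff, ← mem_ball_iff_norm]
  refine ⟨(h2.differentiableAt ((isOpen_ball.prod isOpen_ball).mem_nhds ⟨a4, a6⟩)).comp w
    ((a1.comp w differentiableAt_fst).prodMk (by fun_prop)), ((h3 _ a4).2 _ a6).1, ?_⟩
  have a7 : A.p j (G w.1) ∈ U := a3 ▸ (hF.sol _ a2 τ).mem
  have a8 := sol_eq hH.toHolU isOpen_ball (convex_ball 0 δ).isPreconnected
    (fun s hs => ((h3 _ a4).2 s hs).2.2.2) (fun s _ => hF.sol _ a7 s) (mem_ball_self hδ)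
    (by rw [(h3 _ a4).1, hF.zero _ a7]) a6
  refine a8.trans ?_
  rw [a3, hF.add hH.toHolU a2, add_sub_cancel]

theorem bpa6_jl (hF : Flow A U g Φ) (hH : Ham A U g φ) {i : A.ι} {z : E N}
    (hz : z ∈ (A.C i).W) (hU : A.p i z ∈ U) (τ : E n) : JL A Φ i z τ := by
  have hO : IsOpen {t | JL A Φ i z t} := isOpen_iff_mem_nhds.2 fun t ⟨j, F, h⟩ => by
    have hc : ContinuousAt (fun s : E n => (z, s)) t := by fun_prop
    exact mem_of_superset (hc.eventually h.eventually_nhds) fun s hs => ⟨j, F, hs⟩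
  have h0 : JL A Φ i z 0 := by
    obtain ⟨r, δ, hr, hδ, -, h⟩ := bpa6_step hF hH hz hU
    exact h (G := id) (mem_ball_self hr) ((hH.ev hz hU).mono fun w hw =>
      ⟨differentiableAt_id, hw.2, (hF.zero _ hw.2).symm⟩) 0 (mem_ball_self hδ)
  refine isPreconnected_univ.subset_of_closure_inter_subset hO ⟨0, trivial, h0⟩ ?_ (mem_univ τ)
  rintro t ⟨ht, -⟩
  obtain ⟨j, y, hy, e⟩ := A.cover (Φ (A.p i z) t)
  obtain ⟨r, δ, hr, hδ, h1, h2⟩ := bpa6_step hF hH hy (e ▸ (hF.sol _ hU t).mem)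
  have h3 : ∀ᶠ s in 𝓝 t, Φ (A.p i z) s ∈ A.p j '' ball y r :=
    (spident_cont A (hF.sol _ hU t).lift).eventually
      ((A.opn j _ isOpen_ball h1).mem_nhds ⟨y, mem_ball_self hr, e⟩)
  obtain ⟨s, ⟨⟨y', hy', e'⟩, hs⟩, k, F, h4⟩ :=
    mem_closure_iff_nhds.1 ht _ (h3.and (ball_mem_nhds t hδ))
  have h5 := h4.self_of_nhds
  obtain ⟨O, c, c1, c2, c3, c4⟩ := A.trans k j _ h5.2.1 y' (h1 hy') (h5.2.2.trans e'.symm)
  have hc : ContinuousAt (fun w : E N => (w, s)) z := by fun_prop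
  refine h2 (G := fun w => c (F (w, s))) (by rwa [c3]) ?_ t (mem_ball_comm.1 hs)
  filter_upwards [hc.eventually (h4.and (h5.1.continuousAt.eventually (c1.isOpen.mem_nhds c2))),
    hH.ev hz hU] with w ⟨a, b⟩ d
  exact ⟨(c1.hol.differentiableAt (c1.isOpen.mem_nhds b)).comp w (a.1.comp w (by fun_prop)), d.2,
    (c4 _ b).trans a.2.2⟩

theorem Flow.lift (hF : Flow A U g Φ) (hH : Ham A U g φ) {i : A.ι} {z : E N}
    (hz : z ∈ (A.C i).W) (hU : A.p i z ∈ U) (τ : E n) : ∃ (j : A.ι) (F : E N × E n → E N),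
    ∀ᶠ w in 𝓝 (z, τ), DifferentiableAt ℂ F w ∧ F w ∈ (A.C j).W ∧
      A.p j (F w) = Φ (A.p i w.1) w.2 ∧ ∀ τ', fderiv ℂ F w (0, τ') = Vf A g j (F w) *ᵥ τ' := by
  obtain ⟨j, F, h⟩ := bpa6_jl hF hH hz hU τ
  refine ⟨j, F, ?_⟩
  filter_upwards [h.eventually_nhds, continuousAt_fst.eventually (hH.ev hz hU)] with w hw hw'
  have h0 := hw.self_of_nhds
  refine ⟨h0.1, h0.2.1, h0.2.2, fun τ' => ?_⟩
  obtain ⟨f, e, hf⟩ := (hF.sol _ hw'.2 w.2).chart hH.toHolU h0.2.1 h0.2.2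
  have hc : ContinuousAt (fun s : E n => (w.1, s)) w.2 := by fun_prop
  have h1 : (fun s => F (w.1, s)) =ᶠ[𝓝 w.2] f := by
    filter_upwards [hf, hc.eventually hw] with s a b
    exact hH.inj j b.2.1 a.1 (b.2.2.trans a.2.2.1.symm)
  have h2 := (h0.1.hasFDerivAt.comp w.2 (hasFDerivAt_prodMk_right w.1 w.2)).unique
    (hf.self_of_nhds.2.2.2.congr_of_eventuallyEq h1)
  rw [e] at h2
  rw [← Vl_apply, ← h2]
  rfl

end Pool.Agent.BP
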