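import Pool.Agent.P.MP_63735c_ag.SELine
import Pool.Agent.P.MP_63735c_ag.ABDefs

/-! The L2 estimate for sections of the powers of a line bundle (not in any statement). -/

open scoped ContDiff Matrix
open MeasureTheory

namespace Pool.Agent.SE

open Pool.Agent.SPF Pool.Agent.AB

variable {N : ℕ} {X : Type} [TopologicalSpace X] {A : Atlas X N}

/-- The weight of the `d`-th power in the chart `i`. -/
noncomputable def Line.wd (L : Line A) (d : ℕ) (i : A.ι) (z : E N) : ℝ :=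
  Real.exp (-(d * L.ψ i z)) * ‖((A.C i).σ z).det‖

/-- The L2 estimate for sections that vanish outside `S`. -/
def HL2 (L : Line A) (S : Set X) (C₁ : ℝ) : Prop :=
  ∀ (d : ℕ) (s : A.ι → E N → ℂ) (C₀ : ℝ), 0 ≤ C₀ → (∀ i, ContDiffOn ℝ ∞ (s i) (A.C i).W) →
    (∀ i, ∀ z ∈ (A.C i).W, A.p i z ∉ S → s i z = 0) →
    (∀ i j, ∀ z ∈ (A.C i).W, ∀ y ∈ (A.C j).W, A.p i z = A.p j y →
      s j y = L.g i j (A.p i z) ^ d * s i z) →
    (∀ i, ∀ z ∈ (A.C i).W, ∀ v, ‖v ⬝ᵥ star (db (s i) z)‖ ^ 2 * Real.exp (-(d * L.ψ i z)) ≤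
      C₀ * (d * (hq ((A.C i).η z) v v).re)) →
    ∃ t, L.IsSection d t ∧ ∀ i,
      IntegrableOn (fun z => L.wd d i z * ‖t i z - s i z‖ ^ 2) (A.C i).W volume ∧
      ∫ z in (A.C i).W, L.wd d i z * ‖t i z - s i z‖ ^ 2 ≤ C₁ * C₀

end Pool.Agent.SE
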