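import Pool.Agent.P.MP_63735c_ag.SETen
import Pool.Agent.P.MP_63735c_ag.SEHL

/-! The L2 estimate for the powers of a semipositive line bundle. -/

open scoped ComplexOrder ContDiff Matrix Topology ENNReal InnerProductSpace
open Set Metric MeasureTheory Filter

namespace Pool.Agent.SE

open Pool.Agent.SPF Pool.Agent.AB

variable {N : ℕ} {X : Type} [TopologicalSpace X] {A : Atlas X N}

/-- A continuous function given in charts is bounded on compact sets. -/
theorem chart_bdd {f : A.ι → E N → ℝ} (hf : ∀ i, ContinuousOn (f i) (A.C i).W)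
    (hc : ∀ i k, ∀ z ∈ (A.C i).W, ∀ y ∈ (A.C k).W, A.p i z = A.p k y → f i z = f k y) {S : Set X}
    (hS : IsCompact S) : ∃ M, 0 ≤ M ∧ ∀ i, ∀ z ∈ (A.C i).W, A.p i z ∈ S → f i z ≤ M := by
  refine hS.induction_on ⟨0, le_rfl, fun _ _ _ h => h.elim⟩
    (fun s t h ⟨M, h0, hM⟩ => ⟨M, h0, fun i z hz hx => hM i z hz (h hx)⟩)
    (fun s t ⟨M, h0, hM⟩ ⟨M', _, hM'⟩ => ⟨max M M', le_max_of_le_left h0, fun i z hz hx => hx.elim
      (fun h => le_max_of_le_left (hM i z hz h)) fun h => le_max_of_le_right (hM' i z hz h)⟩)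
    fun x _ => ?_
  obtain ⟨k, y, hy, rfl⟩ := A.cover x
  have h1 := (hf k).isOpen_inter_preimage (A.C k).isOpen (isOpen_Iio (a := f k y + 1))
  refine ⟨_, mem_nhdsWithin_of_mem_nhds ((A.opn k _ h1 inter_subset_left).mem_nhds
    ⟨y, ⟨hy, lt_add_one (f k y)⟩, rfl⟩), max 0 (f k y + 1), le_max_left _ _, ?_⟩
  rintro i z hz ⟨w, hw, e⟩
  exact le_max_of_le_right ((hc i k z hz w hw.1 e.symm).trans_le hw.2.le)

theorem Res.hl2 {n : ℕ} (hN : N = 2 * n) [T2Space X] {L : Line A} {Y : Type} [TopologicalSpace Y]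
    [CompactSpace Y] [T2Space Y] (Z : Res L Y) (S : Set X) (hS : IsCompact S) :
    ∃ C₁, HL2 L S C₁ := by
  borelize Y
  obtain ⟨pf, κ, hκ, p1, p2, p3⟩ := exists_pfaff hN
  have p0 := pf_ne hκ p2
  have p4 : ∀ i, ∀ z ∈ (A.C i).W, DifferentiableAt ℂ (fun y => pf ((A.C i).σ y)) z :=
    fun i z hz => p3 _ z fun a b =>
      ((A.C i).σ_hol a b).differentiableAt ((A.C i).isOpen.mem_nhds hz)
  have hS' := (hS.image Z.j_cont).isClosed
  obtain ⟨ρ, _, _, C, -, -, r0, hC, -, -, -, -, -, hr⟩ := exists_fock N 0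
  let G := fun d : ℕ => Z.geo hS' (image_subset_range _ _) C hC (fun _ => d) fun _ _ _ _ => rfl
  have e0 := fun d {i k z y} hz hy (e : A.p i z = A.p k y) m =>
    show (G d).gg (.inl i) (.inl k) z m * _ = _ from Res.gg_pf p1 hz hy e m
  obtain ⟨M, M0, hM⟩ := chart_bdd (f := fun i z => ‖pf ((A.C i).σ z)‖ ^ 2 * (G 0).ww (.inl i) z 0)
    (fun i => ((continuousOn_of_forall_continuousAt fun z hz =>
      (p4 i z hz).continuousAt).norm.pow 2).mul (((G 0).Ψ_smooth (.inl i)).continuousOn.sub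
        (continuousOn_const.mul ((G 0).ψ_smooth (.inl i)).continuousOn)).rexp)
    (fun i k z hz y hy e => by
      have := e0 0 hz hy e 0
      rw [pow_zero, one_mul] at this
      rw [Geo.ww_eq (X := G 0) (i := .inl i) (j := .inl k) hz hy ((Z.p_congr hz hy).2 e), ← this,
        norm_mul]
      ring) hS
  refine ⟨κ⁻¹ * ((G 0).ν.real univ * M), fun d s C₀ h0 hs hs0 hc he => ?_⟩
  have h00 : ∀ i a, ∀ z ∈ (A.C i).W, ∀ y ∈ Z.dm (Z.j '' S) (.inr a), Z.p (Z.c i) z = Z.p a y →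
      s i z = 0 := fun i a z hz y hy e =>
    hs0 i z hz fun hx => hy.2 ⟨_, hx, (Z.p_eq i z hz).symm.trans e⟩
  obtain ⟨U, hU⟩ := (G d).exists_vac hr
    (f := Sum.elim (fun i z => s i z * pf ((A.C i).σ z)) fun _ _ => 0)
    (Sum.rec (fun i => (hs i).mul fun z hz => (smoothAt_of_hol' (mem_of_superset
      ((A.C i).isOpen.mem_nhds hz) (p4 i))).contDiffWithinAt) fun _ => contDiffOn_const) (by
      rintro (i | a) (k | b) z hz y hy e
      · have e' := (Z.p_congr hz hy).1 e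
        change s k y * _ = _ * (s i z * _)
        rw [mul_left_comm, e0 d hz hy e', hc i k z hz y hy e']
        exact (mul_assoc _ _ _).trans (mul_left_comm _ _ _)
      · exact (mul_eq_zero_of_right _ (mul_eq_zero_of_left (h00 i b z hz y hy e) _)).symm
      · exact (mul_eq_zero_of_left (h00 k a y hy z hz e.symm) _).trans (mul_zero _).symm
      · exact (mul_zero _).symm)
  have hψ : ∀ i, ∀ z ∈ (A.C i).W, Real.exp (-(d * L.ψ i z)) =
      wt ((G d).Ψ (.inl i)) z * (G d).ww (.inl i) z d := fun i z hz => by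
    rw [Geo.wt_ww, Z.ψ_res i z hz]
    rfl
  have h1 := fun β => (G d).l2 hr hU (c := fun _ => M * C₀) continuous_const
    (fun _ => mul_nonneg M0 h0) (by
      intro k z hz ξ
      have b0 : 0 ≤ M * C₀ * d * (hq (lev ((G d).ψ k) z) ξ ξ).re :=
        mul_nonneg (by positivity) (hq_nonneg ((G d).ψ_psd k z hz) ξ)
      rcases k with i | a
      swap
      · change ‖ξ ⬝ᵥ star (db (fun _ => 0) z)‖ ^ 2 * _ ≤ M * C₀ * d * _
        simpa [db_const] using b0
      have hn := (A.C i).isOpen.mem_nhds hz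
      change ‖ξ ⬝ᵥ star (db (fun y => s i y * pf ((A.C i).σ y)) z)‖ ^ 2 * (G d).ww (.inl i) z d ≤
        M * C₀ * d * _
      rw [db_mul (((hs i).contDiffAt hn).differentiableAt (by simp))
        ((p4 i z hz).restrictScalars ℝ), db_hol (p4 i z hz), smul_zero, add_zero]
      by_cases hx : A.p i z ∈ S
      · have b1 : lev ((G d).ψ (.inl i)) z = (A.C i).η z :=
          (lev_congr (mem_of_superset hn (Z.ψ_res i))).self_of_nhds.symm.trans (L.lev_eq hz)
        have b2 : (G d).ww (.inl i) z d = (G 0).ww (.inl i) z 0 * Real.exp (-(d * L.ψ i z)) := by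
          rw [Geo.ww, Geo.ww, ← Real.exp_add, Z.ψ_res i z hz, Nat.cast_zero, zero_mul, sub_zero]
          rfl
        rw [b1, b2, star_smul, dotProduct_smul, norm_smul, norm_star, mul_pow, mul_mul_mul_comm,
          mul_assoc M, mul_assoc M, mul_assoc C₀]
        exact mul_le_mul (hM i z hz hx) (he i z hz ξ) (by positivity) M0
      · have b1 : s i =ᶠ[𝓝 z] fun _ => 0 := by
          filter_upwards [hn, ((A.cont i).continuousAt hn).eventually
            (hS.isClosed.isOpen_compl.mem_nhds hx)] with y hy hy' using hs0 i y hy hy'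
        simpa [(db_congr b1).self_of_nhds, db_const] using b0) β
  obtain ⟨V, hV, h2⟩ := l2a (G d).ell.pkg U (Real.sqrt_nonneg _) h1
  have h3 : ‖U - V‖ ^ 2 ≤ (G 0).ν.real univ * (M * C₀) := by
    refine (pow_le_pow_left₀ (norm_nonneg _) h2 2).trans_eq ?_
    change √(∫ _, M * C₀ ∂(G 0).ν) ^ 2 = _
    rw [integral_const, smul_eq_mul, Real.sq_sqrt (by positivity)]
  have hv := fun i => differentiableOn_pi.1 (hV (.inl i)) r0
  have ht : ∀ i, DifferentiableOn ℂ (fun z => V.v (.inl i) z r0 / pf ((A.C i).σ z)) (A.C i).W :=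
    fun i z hz => by
      simp only [div_eq_mul_inv]
      exact (hv i z hz).fun_mul ((p4 i z hz).fun_inv (p0 _ hz)).differentiableWithinAt
  refine ⟨fun i z => V.v (.inl i) z r0 / pf ((A.C i).σ z), ⟨ht, fun i k z hz y hy e => ?_⟩,
    fun i => ?_⟩
  · refine (div_eq_iff (p0 _ hy)).2 (((G d).vac_cpt hr V (i := .inl i) (j := .inl k) hz hy
      ((Z.p_congr hz hy).2 e)).trans ?_)
    rw [mul_right_comm, ← e0 d hz hy e, mul_assoc, mul_div_cancel₀ _ (p0 _ hz)]
    rfl
  have hm : MeasurableSet (A.C i).W := (A.C i).isOpen.measurableSet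
  have hI := (Bun.hG_int (U - V) (U - V)).re
  have h4 := (((G d).bun.den.intOn ((G d).bun.Ψ_cont (.inl i)) hm subset_rfl _).1
    hI.integrableOn).const_mul κ⁻¹
  have h5 : ∀ z ∈ (A.C i).W, L.wd d i z * ‖V.v (.inl i) z r0 / pf ((A.C i).σ z) - s i z‖ ^ 2 ≤
      κ⁻¹ * wt ((G d).bun.Ψ (.inl i)) z •
        RCLike.re (Bun.hG (U - V) (U - V) ((G d).bun.p (.inl i) z)) := fun z hz => by
    have h6 := (G d).vac_le hr (i := .inl i) hz ((U - V).v (.inl i) z)
    rw [Bun.hG_chart (B := (G d).bun) (i := .inl i) _ _ hz, smul_eq_mul]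
    refine le_trans (le_of_eq ?_) (mul_le_mul_of_nonneg_left
      (mul_le_mul_of_nonneg_left h6 (wt_pos _ _).le) (inv_pos.2 hκ).le)
    rw [Bun.v_sub, Pi.sub_apply, hU (.inl i) z hz, Pi.single_eq_same]
    change _ = κ⁻¹ * (wt ((G d).Ψ (.inl i)) z * ((G d).ww (.inl i) z d * ‖s i z * _ - _‖ ^ 2))
    rw [norm_sub_rev (_ * _), div_sub' (p0 _ hz), norm_div, div_pow, p2 _ ((A.C i).σ_skew z hz),
      Line.wd, hψ i z hz, mul_comm (pf _)]
    have := norm_ne_zero_iff.2 ((A.C i).σ_det z hz)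
    field_simp
  have h7 : ContinuousOn (fun z => L.wd d i z *
      ‖V.v (.inl i) z r0 / pf ((A.C i).σ z) - s i z‖ ^ 2) (A.C i).W :=
    ((continuousOn_const.mul (L.ψ_smooth i).continuousOn).neg.rexp.mul
      (det_hol (A.C i)).continuousOn.norm).mul
      (((ht i).continuousOn.sub (hs i).continuousOn).norm.pow 2)
  have h8 : ∀ z, 0 ≤ L.wd d i z * ‖V.v (.inl i) z r0 / pf ((A.C i).σ z) - s i z‖ ^ 2 := fun z => by
    rw [Line.wd]
    positivity
  have h9 : IntegrableOn _ (A.C i).W volume :=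
    h4.mono' (h7.aestronglyMeasurable hm) ((ae_restrict_iff' hm).2 (Eventually.of_forall
      fun z hz => by rw [Real.norm_of_nonneg (h8 z)]; exact h5 z hz))
  refine ⟨h9, (setIntegral_mono_on h9 h4 hm h5).trans ?_⟩
  rw [integral_const_mul, mul_assoc, mul_assoc]
  refine mul_le_mul_of_nonneg_left ?_ (inv_pos.2 hκ).le
  refine ((G d).bun.den.int ((G d).bun.Ψ_cont (.inl i)) hm subset_rfl
    fun x => RCLike.re (Bun.hG (U - V) (U - V) x)).symm.trans_le ?_
  refine le_trans (setIntegral_le_integral hI (Eventually.of_forall (Bun.hG_nonneg _))) ?_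
  exact (Bun.norm_sq (U - V)).symm.trans_le h3

end Pool.Agent.SE
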