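import Pool.Agent.P.MP_63735c_ag.ZBA4a

/-! Compactness of the regular sublevel sets; the flows are complete on the regular part. -/

open scoped ComplexOrder ContDiff Matrix Topology ENNReal
open Set Metric MeasureTheory Filter

namespace Pool.Agent.ZB

open Pool.Agent.SPF Pool.Agent.AB Pool.Agent.CK Pool.Agent.SE Pool.Agent.NL Pool.Agent.BP
  Pool.Agent.CS

variable {N n : ℕ} {X : Type} [TopologicalSpace X] {R : Set X} {A : Atlas R N} {B : Amb R A}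
  {K : Form11 A} {L : Line A} {S : Sec L n}

theorem mul_cont {a b c : ℕ} {P : X → Matrix (Fin a) (Fin b) ℂ} {Q : X → Matrix (Fin b) (Fin c) ℂ}
    {x : X} (hP : ContinuousAt P x) (hQ : ContinuousAt Q x) :
    ContinuousAt (fun y => P y * Q y) x :=
  continuousAt_pi.2 fun i => continuousAt_pi.2 fun j => tendsto_finsetSum Finset.univ fun k _ =>
    (continuousAt_pi.1 (continuousAt_pi.1 hP i) k).mul (continuousAt_pi.1 (continuousAt_pi.1 hQ k) j)

theorem gram_cont {M : ℕ} {P : X → Matrix (Fin M) (Fin n) ℂ} {H : X → Mat M} {x : X}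
    (hP : ContinuousAt P x) (hH : ContinuousAt H x) :
    ContinuousAt (fun y => ((P y)ᵀ * H y * (P y).map star).det.re) x :=
  ((Complex.continuous_re.comp continuous_id.matrix_det).tendsto _).comp (mul_cont (mul_cont
    ((continuous_id.matrix_transpose.tendsto _).comp hP) hH)
    (((continuous_id.matrix_map continuous_star).tendsto _).comp hP))

theorem Mdl.mem_R {x : X} (D : Mdl B K S x) (hn : N = 2 * n)
    (hinj : ∀ i, InjOn (A.p i) (A.C i).W) (hH : Ham A S.U S.g S.φ) {c δ : ℝ} (hδ : 0 < δ)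
    (hx : ∃ᶠ x' in 𝓝 x, ∃ y : R, (y : X) = x' ∧ (y ∈ S.U ∧ S.φ y ≤ c) ∧ δ ≤ (S.h K y).det.re) :
    x ∈ R := by
  have c0 : ContinuousAt (fun x' => D.C * ‖D.F (B.z D.α x') 0‖ ^ 2) x :=
    continuousAt_const.mul ((D.F_cont 0).norm.pow 2)
  have h1 : Real.exp (-c) ≤ D.C * ‖D.F (B.z D.α x) 0‖ ^ 2 :=
    ge_of_tendsto_of_frequently c0.tendsto
      ((hx.and_eventually D.nrm_le).mono fun x' ⟨⟨y, e, a, _⟩, b⟩ =>
        ((sec_φ_le S c y).1 a).trans (b y e 0))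
  have h2 : B.z D.α x ∈ D.O' := ⟨⟨D.z_mem, B.maps D.α D.mem⟩, fun h => by
    rw [show D.F (B.z D.α x) 0 = 0 from h, norm_zero, zero_pow two_ne_zero, mul_zero] at h1
    exact h1.not_gt (Real.exp_pos _)⟩
  have hn' := D.O'_open.mem_nhds h2
  have c1 : ContinuousAt (fun x' => D.P (B.z D.α x')) x :=
    (continuousAt_pi.2 fun a => continuousAt_pi.2 fun l =>
      (D.P_hol a l).continuousOn.continuousAt hn').comp D.z_cont
  have c2 : ContinuousAt (fun x' => D.H (B.z D.α x')) x :=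
    (continuousAt_pi.2 fun a => continuousAt_pi.2 fun b =>
      (D.H_smooth a b).continuousOn.continuousAt (D.isOpen.mem_nhds D.z_mem)).comp D.z_cont
  have c3 : ContinuousAt (fun x' => jac (quo D.F) (B.z D.α x')) x :=
    (continuousAt_pi.2 fun l => continuousAt_pi.2 fun a =>
      (jac_hol D.O'_open D.quo_hol l a).continuousOn.continuousAt hn').comp D.z_cont
  have h3 := (hx.and_eventually (D.field hinj)).mono (q := fun x' =>
      δ ≤ (D.hm (B.z D.α x')).det.re ∧ jac (quo D.F) (B.z D.α x') * D.P (B.z D.α x') = 0)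
    fun x' ⟨⟨y, e, a, a'⟩, b⟩ => by
      obtain ⟨i, w, hw, rfl⟩ := A.cover y
      obtain ⟨-, b1, b2, b3⟩ := b.2 i w hw e a.1
      exact ⟨b3 ▸ a', by rw [← b2, ← Matrix.mul_assoc, ← b1, hH.poi i w hw a.1]⟩
  have c6 := gram_cont c1 c2
  have c7 := mul_cont c3 c1
  have h4 : δ ≤ (D.hm (B.z D.α x)).det.re :=
    ge_of_tendsto_of_frequently c6.tendsto (h3.mono fun _ h => h.1)
  have h5 : jac (quo D.F) (B.z D.α x) * D.P (B.z D.α x) = 0 :=
    tendsto_nhds_unique_of_frequently_eq c7.tendsto tendsto_const_nhds (h3.mono fun _ h => h.2)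
  have h6 : ∀ τ, D.P (B.z D.α x) *ᵥ τ = 0 → τ = 0 := fun τ hτ => by_contra fun h0 => by
    have h6 : (D.hm (B.z D.α x)).det = 0 := Matrix.exists_vecMul_eq_zero_iff.1 ⟨τ, h0, by
      rw [Mdl.hm, ← Matrix.vecMul_vecMul, ← Matrix.vecMul_vecMul, Matrix.vecMul_transpose, hτ,
        Matrix.zero_vecMul, Matrix.zero_vecMul]⟩
    rw [h6, Complex.zero_re] at h4
    exact h4.not_gt hδ
  have h7 := rank_ge (J := jac (quo D.F) (B.z D.α x)) ((B.D D.α).π_skew _ h2.1.2) h5 h6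
  by_contra h
  have h8 := B.sing D.α x D.mem h
  omega

theorem Mdl.gron {x : X} (D : Mdl B K S x) (hinj : ∀ i, InjOn (A.p i) (A.C i).W) (c : ℝ) :
    ∃ C : ℝ, ∀ᶠ x' in 𝓝 x, ∀ (Φ : E n → R) (t : E n), (Φ t : X) = x' → Sol A S.U S.g Φ t →
      S.φ (Φ t) ≤ c → ∀ τ v, ∃ d, HasDerivAt (fun r : ℝ => hr (S.h K (Φ (t + r • τ))) v) d 0 ∧
        -(C * ‖τ‖ * hr (S.h K (Φ t)) v) ≤ d := by
  by_cases h0 : D.F (B.z D.α x) 0 = 0
  · refine ⟨0, ?_⟩
    filter_upwards [D.nrm_le, (continuousAt_const.mul ((D.F_cont 0).norm.pow 2)).eventually_lt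
      (continuousAt_const (y := Real.exp (-c))) (show D.C * ‖D.F (B.z D.α x) 0‖ ^ 2 < _ by
        rw [h0, norm_zero, zero_pow two_ne_zero, mul_zero]
        exact Real.exp_pos _)] with x' a1 a2 Φ t e h hc
    exact absurd (((sec_φ_le S c _).1 ⟨h.mem, hc⟩).trans (a1 _ e 0)) (not_le.2 a2)
  obtain ⟨C, hC⟩ := gron_loc D.O'_open ⟨⟨D.z_mem, B.maps D.α D.mem⟩, h0⟩
    (fun b c => (D.H_smooth b c).mono fun _ h => h.1.1) D.P_hol D.H_pos
  refine ⟨C, ?_⟩
  filter_upwards [D.z_cont.eventually hC, (D.field hinj).eventually_nhds] with x' a1 a2 Φ t e h _ τ v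
  subst e
  have h1 : ContinuousAt (fun s => (Φ s : X)) t :=
    continuous_subtype_val.continuousAt.comp (spident_cont A h.lift)
  obtain ⟨i, f, hf⟩ := h
  have h2 : ∀ᶠ s in 𝓝 t, HasFDerivAt (fun s => B.z D.α (Φ s)) (ml (D.P (B.z D.α (Φ s)))) s ∧
      S.h K (Φ s) = D.hm (B.z D.α (Φ s)) := by
    filter_upwards [hf.eventually_nhds, h1.eventually a2] with s b1 b2
    obtain ⟨b3, b4, b5, b6⟩ := b1.self_of_nhds
    obtain ⟨-, -, b7, b8⟩ := b2.2 i _ b3 (congrArg _ b5) b4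
    refine ⟨?_, b5 ▸ b8⟩
    have b9 := (B.hol D.α i _ b3 (by rw [b5]; exact b2.1)).1.hasFDerivAt.comp s b6
    refine (b9.congr_fderiv (ContinuousLinearMap.ext fun u => ?_)).congr_of_eventuallyEq
      (b1.mono fun s' h' => congrArg (fun y : R => B.z D.α y) h'.2.2.1.symm)
    rw [ml_apply, ← b7, ← Matrix.mulVec_mulVec, jac_mulVec]
    rfl
  obtain ⟨d, d1, d2⟩ := a1 (fun s => B.z D.α (Φ s)) t rfl (h2.mono fun _ h => h.1) τ v
  have h3 : Tendsto (fun r : ℝ => t + r • τ) (𝓝 0) (𝓝 t) :=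
    Continuous.tendsto' (by fun_prop) _ _ (by simp)
  refine ⟨d, d1.congr_of_eventuallyEq ((h3.eventually h2).mono fun r h => ?_), ?_⟩
  · exact congrArg (hr · v) h.2
  · rw [h2.self_of_nhds.2]
    exact d2

variable [CompactSpace X]

theorem reg_cpt (hn : N = 2 * n) (hinj : ∀ i, InjOn (A.p i) (A.C i).W)
    (hK : ∀ i, ∀ z ∈ (A.C i).W, (K.h i z).PosDef) (hM : ∀ x, Nonempty (Mdl B K S x))
    (hH : Ham A S.U S.g S.φ) (c δ : ℝ) (hδ : 0 < δ) :
    IsCompact {x | x ∈ Ur S K ∧ S.φ x ≤ c ∧ δ ≤ (S.h K x).det.re} := by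
  have e : {x | x ∈ Ur S K ∧ S.φ x ≤ c ∧ δ ≤ (S.h K x).det.re} =
      {x | x ∈ S.U ∧ S.φ x ≤ c} ∩ (fun x => (S.h K x).det.re) ⁻¹' Ici δ :=
    Set.ext fun x => ⟨fun h => ⟨⟨h.1.1, h.2.1⟩, h.2.2⟩,
      fun h => ⟨(mem_Ur S hinj hK).2 ⟨h.1.1, hδ.trans_le h.2⟩, h.1.2, h.2⟩⟩
  have h1 := ((det_cont' S hinj K).mono fun x hx => hx.1).preimage_isClosed_of_isClosed
    (sec_closed S c) (isClosed_Ici (a := δ))
  rw [e, Subtype.isCompact_iff]
  refine IsClosed.isCompact (closure_subset_iff_isClosed.1 fun x hx => ?_)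
  have h2 := (hM x).some.mem_R hn hinj hH hδ ((mem_closure_iff_frequently.1 hx).mono
    fun x' ⟨y, a, b⟩ => ⟨y, b, a.1, a.2⟩)
  refine ⟨⟨x, h2⟩, h1.closure_subset ?_, rfl⟩
  rw [Topology.IsInducing.subtypeVal.closure_eq_preimage_closure_image]
  exact hx

theorem prop0 (hn : N = 2 * n) (hinj : ∀ i, InjOn (A.p i) (A.C i).W)
    (hK : ∀ i, ∀ z ∈ (A.C i).W, (K.h i z).PosDef) (hM : ∀ x, Nonempty (Mdl B K S x))
    (hH : Ham A S.U S.g S.φ) : Prop0 A (Ur S K) S.g := by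
  intro x hx ρ
  obtain ⟨C, hC, h⟩ := cpt_unif (X := X) (fun C x' => ∀ (Φ : E n → R) (t : E n), (Φ t : X) = x' →
    Sol A S.U S.g Φ t → S.φ (Φ t) ≤ S.φ x → ∀ τ v, ∃ d,
      HasDerivAt (fun r : ℝ => hr (S.h K (Φ (t + r • τ))) v) d 0 ∧
        -(C * ‖τ‖ * hr (S.h K (Φ t)) v) ≤ d)
    (fun C C' _ hC h Φ t e hs hc τ v => (h Φ t e hs hc τ v).imp fun d hd => ⟨hd.1, le_trans
      (neg_le_neg (mul_le_mul_of_nonneg_right (mul_le_mul_of_nonneg_right hC (norm_nonneg _))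
        (hq_nonneg (h_psd S hinj hK hs.mem) v))) hd.2⟩) fun y => (hM y).some.gron hinj _
  have h1 := ((mem_Ur S hinj hK).1 hx).2
  have h2 : 1 ≤ Real.exp (C * |ρ|) ^ n := one_le_pow₀ (Real.one_le_exp (by positivity))
  refine ⟨_, reg_cpt hn hinj hK hM hH (S.φ x) ((S.h K x).det.re / Real.exp (C * |ρ|) ^ n)
    (by positivity), fun _ h => h.1, ⟨hx, le_rfl, div_le_self h1.le h2⟩,
    fun r hr' Φ e hΦ t ht => ?_⟩
  have hΦ' := fun s hs => sol_mono (hΦ s hs) (fun _ h => h.1 : Ur S K ⊆ S.U)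
  have h3 : ∀ s ∈ ball (0 : E n) r, S.φ (Φ s) = S.φ x := fun s hs => e ▸
    (convex_ball 0 r).is_const_of_fderivWithin_eq_zero (𝕜 := ℝ) (f := fun s => S.φ (Φ s))
      (fun s hs => (hH.const (hΦ' s hs)).1.differentiableAt.differentiableWithinAt)
      (fun s hs => by rw [fderivWithin_of_isOpen isOpen_ball hs, (hH.const (hΦ' s hs)).1.fderiv])
      hs (mem_ball_self (pos_of_mem_ball hs))
  refine ⟨(hΦ t ht).mem, (h3 t ht).le, (div_le_iff₀' (by positivity)).2 ?_⟩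
  refine bpb8a_mono hx.2.posSemidef (Real.exp_pos _).le (hΦ t ht).mem.2.posSemidef fun v => ?_
  have h4 := gron_line (q := fun r : ℝ => hr (S.h K (Φ (r • t))) v) (C := C * ‖t‖) fun u hu => by
    have h5 : u • t ∈ ball (0 : E n) r :=
      (convex_ball 0 r).smul_mem_of_zero_mem (mem_ball_self (pos_of_mem_ball ht)) ht hu
    obtain ⟨d, d1, d2⟩ := h _ Φ _ rfl (hΦ' _ h5) (h3 _ h5).le t v
    refine ⟨d, ?_, d2⟩
    have d3 := (show HasDerivAt _ d (u - u) by rw [sub_self]; exact d1).comp_sub_const u u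
    simpa only [← add_smul, add_sub_cancel] using d3
  simp only [zero_smul, one_smul, e] at h4
  refine h4.trans (mul_le_mul_of_nonneg_right (Real.exp_le_exp.2 (mul_le_mul_of_nonneg_left
    (((mem_ball_zero_iff.1 ht).le.trans hr').trans (le_abs_self ρ)) hC)) ?_)
  exact hq_nonneg (hΦ t ht).mem.2.posSemidef v

end Pool.Agent.ZB
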