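import Pool.Agent.P.MP_63735c_ag.BPT2

/-! Proper holomorphic maps: regular values. -/

open scoped ComplexOrder ContDiff Matrix Topology ENNReal
open Set Metric MeasureTheory Filter

namespace Pool.Agent.BP

open Pool.Agent.SPF Pool.Agent.AB Pool.Agent.CK Pool.Agent.SE Pool.Agent.NL

variable {N : ℕ} {Ω Ω' : Set (E N)} {P : E N → E N}

theorem bpt6a_det (P : E N → E N) (z : E N) :
    (jac P z).det = LinearMap.det (fderiv ℂ P z : E N →ₗ[ℂ] E N) := by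
  rw [← LinearMap.det_toMatrix']
  rfl

theorem real_det {P : E N → E N} {z : E N} (h : DifferentiableAt ℂ P z) :
    (fderiv ℝ P z).det = ‖(jac P z).det‖ ^ 2 := by
  rw [h.fderiv_restrictScalars ℝ, bpt6a_det, ← Complex.normSq_eq_norm_sq,
    ← Algebra.norm_complex_apply, ← LinearMap.det_restrictScalars]
  rfl

theorem bpt6a_hol (hΩ : IsOpen Ω) (hP : DifferentiableOn ℂ P Ω) :
    DifferentiableOn ℂ (fun z => (jac P z).det) Ω := by
  simp only [Matrix.det_apply']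
  exact DifferentiableOn.fun_sum fun σ _ => (differentiableOn_const _).mul
    fun z hz => (HasFDerivWithinAt.finsetProd fun i _ =>
      (jac_hol hΩ hP _ _ z hz).hasFDerivWithinAt).differentiableWithinAt

theorem bpt6a_equiv {z : E N} (h : (jac P z).det ≠ 0) :
    ∃ D : E N ≃L[ℂ] E N, (D : E N →L[ℂ] E N) = fderiv ℂ P z :=
  ⟨(fderiv ℂ P z).toContinuousLinearEquivOfDetNeZero (by rwa [bpt6a_det] at h), by simp⟩

theorem bpt6a_inv (hΩ : IsOpen Ω) (hP : DifferentiableOn ℂ P Ω) {z : E N} (hz : z ∈ Ω)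
    (h : (jac P z).det ≠ 0) : ∃ e : OpenPartialHomeomorph (E N) (E N), (e : E N → E N) = P ∧
      z ∈ e.source ∧ DifferentiableOn ℂ e.symm e.target ∧
        ∀ x ∈ e.source, x ∈ Ω ∧ (jac P x).det ≠ 0 := by
  obtain ⟨D, hD⟩ := bpt6a_equiv h
  have hst : HasStrictFDerivAt P (D : E N →L[ℂ] E N) z := by
    rw [hD]
    exact ((contDiffOn_pi.2 fun c => Lib.SCV.contDiffOn_of_differentiableOn hΩ
      (differentiableOn_pi.1 hP c)).contDiffAt (hΩ.mem_nhds hz)).hasStrictFDerivAt (by simp)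
  have hO : IsOpen (Ω ∩ (fun x => (jac P x).det) ⁻¹' {0}ᶜ) :=
    (bpt6a_hol hΩ hP).continuousOn.isOpen_inter_preimage hΩ isOpen_compl_singleton
  refine ⟨(hst.toOpenPartialHomeomorph P).restrOpen _ hO, rfl,
    ⟨hst.mem_toOpenPartialHomeomorph_source, hz, h⟩, fun y hy => ?_, fun x hx => hx.2⟩
  set e := (hst.toOpenPartialHomeomorph P).restrOpen _ hO
  have h1 := (e.map_target hy).2
  obtain ⟨D', hD'⟩ := bpt6a_equiv h1.2
  have h2 : HasFDerivAt e (D' : E N →L[ℂ] E N) (e.symm y) := by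
    rw [hD']
    exact (hP.differentiableAt (hΩ.mem_nhds h1.1)).hasFDerivAt
  exact (e.hasFDerivAt_symm hy h2).differentiableAt.differentiableWithinAt

theorem Prp.rv_null (h : Prp Ω Ω' P) : volume (Ω' \ RV Ω Ω' P) = 0 := by
  refine measure_mono_null (t := P '' {z | z ∈ Ω ∧ (jac P z).det = 0}) (fun w hw => ?_)
    (addHaar_image_eq_zero_of_det_fderivWithin_eq_zero volume (f' := fderiv ℝ P)
      (fun z hz => ?_) fun z hz => ?_)
  · by_contra hc
    exact hw.2 ⟨hw.1, fun z hz e h0 => hc ⟨z, ⟨hz, h0⟩, e⟩⟩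
  · exact ((h.hol.differentiableAt (h.isOpen.mem_nhds hz.1)).restrictScalars
      ℝ).hasFDerivAt.hasFDerivWithinAt
  · rw [real_det (h.hol.differentiableAt (h.isOpen.mem_nhds hz.1)), hz.2]
    simp

theorem Prp.rv_dense (h : Prp Ω Ω' P) : Ω' ⊆ closure (RV Ω Ω' P) := by
  intro w hw
  rw [_root_.mem_closure_iff]
  intro U hU hwU
  by_contra hc
  exact ((hU.inter h.isOpen').measure_pos volume ⟨w, hwU, hw⟩).ne' (measure_mono_null
    (t := Ω' \ RV Ω Ω' P) (fun y hy => ⟨hy.2, fun hr => hc ⟨y, hy.1, hr⟩⟩) h.rv_null)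

theorem bpt6a_near (h : Prp Ω Ω' P) {w : E N} (hw : w ∈ Ω') {U : Set (E N)} (hU : IsOpen U)
    (hs : Ω ∩ P ⁻¹' {w} ⊆ U) : ∀ᶠ y in 𝓝 w, Ω ∩ P ⁻¹' {y} ⊆ U := by
  obtain ⟨r, hr, hb⟩ := nhds_basis_closedBall.mem_iff.1 (h.isOpen'.mem_nhds hw)
  have hK := (h.proper _ (isCompact_closedBall w r) hb).diff hU
  have hc := (hK.image_of_continuousOn (h.hol.continuousOn.mono fun x hx => hx.1.1)).isClosed
  have h0 : w ∈ (P '' ((Ω ∩ P ⁻¹' closedBall w r) \ U))ᶜ := by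
    rintro ⟨x, hx, e⟩
    exact hx.2 (hs ⟨hx.1.1, e⟩)
  filter_upwards [hc.isOpen_compl.mem_nhds h0, closedBall_mem_nhds w hr] with y h1 h2 x hx
  by_contra hx'
  have e : P x = y := hx.2
  exact h1 ⟨x, ⟨⟨hx.1, show P x ∈ _ from e ▸ h2⟩, hx'⟩, e⟩

theorem Prp.sheets (h : Prp Ω Ω' P) {w : E N} (hw : w ∈ RV Ω Ω' P) :
    ∃ (d : ℕ) (O : Set (E N)) (q : Fin d → E N → E N), IsOpen O ∧ w ∈ O ∧ O ⊆ RV Ω Ω' P ∧
      (∀ l, DifferentiableOn ℂ (q l) O) ∧ ∀ y ∈ O, Function.Injective (fun l => q l y) ∧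
        Ω ∩ P ⁻¹' {y} = range fun l => q l y := by
  have hK := h.proper {w} isCompact_singleton (singleton_subset_iff.2 hw.1)
  have : Nonempty (OpenPartialHomeomorph (E N) (E N)) := ⟨OpenPartialHomeomorph.refl _⟩
  choose! e he using fun z (hz : z ∈ Ω ∩ P ⁻¹' {w}) =>
    bpt6a_inv h.isOpen h.hol hz.1 (hw.2 z hz.1 hz.2)
  have hfin : (Ω ∩ P ⁻¹' {w}).Finite := by
    obtain ⟨t, ht, hc⟩ := hK.elim_nhds_subcover (fun z => (e z).source)
      fun z hz => (e z).open_source.mem_nhds (he z hz).2.1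
    refine t.finite_toSet.subset fun x hx => ?_
    obtain ⟨z, hz, hxz⟩ := mem_iUnion₂.1 (hc hx)
    have : x = z := (e z).injOn hxz (he z (ht z hz)).2.1 (by
      rw [(he z (ht z hz)).1]
      exact hx.2.trans (ht z hz).2.symm)
    rwa [this]
  obtain ⟨d, z, hz⟩ := hfin.fin_embedding
  have hm : ∀ l, z l ∈ Ω ∩ P ⁻¹' {w} := fun l => hz ▸ mem_range_self l
  have hw' : ∀ l, e (z l) (z l) = w := fun l => by
    rw [(he _ (hm l)).1]
    exact (hm l).2
  have ht : ∀ l, w ∈ (e (z l)).target := fun l => hw' l ▸ (e (z l)).map_source (he _ (hm l)).2.1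
  have hq : ∀ l, (e (z l)).symm w = z l := fun l => by
    conv_lhs => rw [← hw' l]
    exact (e (z l)).left_inv (he _ (hm l)).2.1
  have h1 : ∀ᶠ y in 𝓝 w, ∀ l, y ∈ (e (z l)).target :=
    eventually_all.2 fun l => (e (z l)).open_target.mem_nhds (ht l)
  have h2 : ∀ᶠ y in 𝓝 w, ∀ l l', l ≠ l' → (e (z l)).symm y ≠ (e (z l')).symm y := by
    refine eventually_all.2 fun l => eventually_all.2 fun l' => ?_
    by_cases hl : l = l'
    · exact Eventually.of_forall fun y hy => (hy hl).elim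
    · refine ((((e (z l)).continuousAt_symm (ht l)).sub ((e (z l')).continuousAt_symm
        (ht l'))).eventually_ne (y := 0) ?_).mono fun y hy _ => sub_ne_zero.1 hy
      rw [Pi.sub_apply, hq, hq, sub_ne_zero]
      exact fun e' => hl (z.injective e')
  have h3 := bpt6a_near h hw.1 (isOpen_iUnion fun l => (e (z l)).open_source) fun x hx => by
    obtain ⟨l, rfl⟩ := hz.symm ▸ hx
    exact mem_iUnion.2 ⟨l, (he _ (hm l)).2.1⟩
  obtain ⟨O, hO, hOo, hwO⟩ := _root_.eventually_nhds_iff.1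
    (h1.and (h2.and (h3.and (h.isOpen'.mem_nhds hw.1))))
  refine ⟨d, O, fun l => (e (z l)).symm, hOo, hwO, fun y hy => ⟨(hO y hy).2.2.2, fun x hx e' => ?_⟩,
    fun l => (he _ (hm l)).2.2.1.mono fun y hy => (hO y hy).1 l, fun y hy =>
      ⟨fun l l' e' => by_contra fun hl => (hO y hy).2.1 l l' hl e', ?_⟩⟩
  · obtain ⟨l, hl⟩ := mem_iUnion.1 ((hO y hy).2.2.1 ⟨hx, e'⟩)
    exact ((he _ (hm l)).2.2.2 x hl).2
  · refine Subset.antisymm (fun x hx => ?_) ?_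
    · obtain ⟨l, hl⟩ := mem_iUnion.1 ((hO y hy).2.2.1 hx)
      refine ⟨l, ?_⟩
      have e' : e (z l) x = y := by
        rw [(he _ (hm l)).1]
        exact hx.2
      show (e (z l)).symm y = x
      rw [← e', (e (z l)).left_inv hl]
    · rintro _ ⟨l, rfl⟩
      refine ⟨((he _ (hm l)).2.2.2 _ ((e (z l)).map_target ((hO y hy).1 l))).1, ?_⟩
      have := (e (z l)).right_inv ((hO y hy).1 l)
      rwa [(he _ (hm l)).1] at this

theorem Prp.rv_open (h : Prp Ω Ω' P) : IsOpen (RV Ω Ω' P) := by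
  refine isOpen_iff_mem_nhds.2 fun w hw => ?_
  obtain ⟨d, O, q, h1, h2, h3, -⟩ := h.sheets hw
  exact mem_of_superset (h1.mem_nhds h2) h3

theorem Prp.det_dense (h : Prp Ω Ω' P) (hN : 1 ≤ N) :
    Ω ⊆ closure {z | z ∈ Ω ∧ (jac P z).det ≠ 0} := by
  intro z hz
  by_contra hc
  obtain ⟨r, hr, hb⟩ := nhds_basis_closedBall.mem_iff.1 (h.isOpen'.mem_nhds (h.maps hz))
  have hK := h.proper _ (isCompact_closedBall (P z) r) hb
  set S := closure {z | z ∈ Ω ∧ (jac P z).det ≠ 0} with hS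
  have hcl : ∀ x ∈ Ω, x ∈ closure Sᶜ → x ∈ Sᶜ := by
    intro x hx hx'
    obtain ⟨ρ, hρ, hB⟩ := Metric.isOpen_iff.1 h.isOpen x hx
    obtain ⟨a, ha, ha'⟩ := _root_.mem_closure_iff.1 hx' _ isOpen_ball (mem_ball_self hρ)
    have h0 : EqOn (fun y => (jac P y).det) (fun _ => 0) (ball x ρ) := by
      refine spident_scv isOpen_ball (convex_ball x ρ) ((bpt6a_hol h.isOpen h.hol).mono hB)
        (differentiableOn_const _) ha ?_
      filter_upwards [isClosed_closure.isOpen_compl.mem_nhds ha', isOpen_ball.mem_nhds ha]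
        with y h1 h2
      by_contra h3
      exact h1 (subset_closure ⟨hB h2, h3⟩)
    intro hx2
    obtain ⟨b, hb1, hb2⟩ := _root_.mem_closure_iff.1 hx2 _ isOpen_ball (mem_ball_self hρ)
    exact hb2.2 (h0 hb1)
  have hC : IsCompact ((Ω ∩ P ⁻¹' closedBall (P z) r) ∩ closure Sᶜ) :=
    hK.inter_right isClosed_closure
  obtain ⟨q, hq, hd⟩ := mp h.isOpen h.hol hC (fun x hx => hx.1.1) (y := z)
    ⟨⟨hz, mem_closedBall_self hr.le⟩, subset_closure hc⟩ hr (fun q hq hqr => by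
      filter_upwards [h.isOpen.mem_nhds hq.1.1,
        isClosed_closure.isOpen_compl.mem_nhds (hcl q hq.1.1 hq.2),
        (h.hol.continuousOn.continuousAt (h.isOpen.mem_nhds hq.1.1)).eventually
          (isOpen_ball.mem_nhds (mem_ball_iff_norm.2 hqr))] with x h1 h2 h3
      exact ⟨⟨h1, ball_subset_closedBall h3⟩, subset_closure h2⟩) hN
  exact hcl q hq.1.1 hq.2 (subset_closure ⟨hq.1.1, hd⟩)

theorem Prp.rv_pull (h : Prp Ω Ω' P) (hN : 1 ≤ N) {G : Set (E N)} (hG : IsOpen G)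
    (hd : Ω' ⊆ closure G) : Ω ⊆ closure {z | z ∈ Ω ∧ P z ∈ RV Ω Ω' P ∩ G} := by
  intro z hz
  rw [_root_.mem_closure_iff]
  intro U hU hzU
  obtain ⟨a, ha, ha1, ha2⟩ := _root_.mem_closure_iff.1 (h.det_dense hN hz) U hU hzU
  obtain ⟨e, he, hae, -, hs⟩ := bpt6a_inv h.isOpen h.hol ha1 ha2
  have hV : IsOpen (e '' (e.source ∩ U)) := e.isOpen_image_source_inter hU
  rw [he] at hV
  obtain ⟨b, hb, hb'⟩ := _root_.mem_closure_iff.1 (hd (h.maps ha1)) _ hV ⟨a, ⟨hae, ha⟩, rfl⟩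
  have hb2 : b ∈ Ω' := by
    obtain ⟨x, hx, rfl⟩ := hb
    exact h.maps (hs x hx.1).1
  obtain ⟨c, ⟨⟨x, hx, rfl⟩, hc⟩, hc'⟩ :=
    _root_.mem_closure_iff.1 (h.rv_dense hb2) _ (hV.inter hG) ⟨hb, hb'⟩
  exact ⟨x, hx.2, (hs x hx.1).1, hc', hc⟩

end Pool.Agent.BP
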