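import Pool.Agent.P.MP_63735c_ag.ZBB8a
import Pool.Agent.P.MP_63735c_ag.BPT11
import Pool.Agent.P.MP_63735c_ag.BPB8
import Pool.Agent.P.MP_63735c_ag.CSAmb

/-! Lifts of base vectors and the comparison of the curvature with the metric. -/

open scoped ComplexOrder ContDiff Matrix Topology ENNReal
open Set Metric MeasureTheory Filter

namespace Pool.Agent.ZB

open Pool.Agent.BP Pool.Agent.SPF Pool.Agent.AB Pool.Agent.CK Pool.Agent.SE Pool.Agent.NL

variable {N n : ℕ} {X : Type} [TopologicalSpace X] {A : Atlas X N} {K : Form11 A} {L : Line A}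

theorem fb_of (hK : ∀ i, ∀ z ∈ (A.C i).W, (K.h i z).PosDef) (b1 : CS.Bd11 A K)
    (b2 : CS.Bd20 A K) : FB K := by
  obtain ⟨C, hC, h1⟩ := b1
  obtain ⟨D, hD, h2⟩ := b2
  refine ⟨C + D + 1, by positivity, fun i z hz v => ?_⟩
  have h0 : 0 ≤ hr (K.h i z) v := hq_nonneg (hK i z hz).posSemidef v
  have h3 := (le_abs_self _).trans (h1 i z hz v)
  have h4 := h2 i z hz (((A.C i).σ z)⁻¹ *ᵥ (K.h i z *ᵥ star v)) _ h0 fun w => by
    have h5 : (A.C i).σ z * ((A.C i).σ z)⁻¹ = 1 := Chart.σ_mul_π hz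
    have h6 := bpb8_cs (hK i z hz) w v
    have h7 : 0 ≤ hr (K.h i z) w := hq_nonneg (hK i z hz).posSemidef w
    rw [Matrix.mulVec_mulVec, h5, Matrix.one_mulVec, bpb8_ev]
    rw [hq] at h6
    nlinarith [mul_nonneg h0 h7]
  rw [bpb8_ev, bpb8_ev] at h3
  rw [bpb8_ev] at h4
  have h9 := mul_nonneg hC h0
  have h10 := mul_nonneg hD h0
  constructor <;> nlinarith

theorem Sys.exists_lift (S : Sys K L n) [hB : S.Bd] : ∃ C : ℝ, 0 < C ∧ ∀ i,
    ∀ z ∈ (A.C i).W, A.p i z ∈ S.W → ∀ v : E n, ∃ u : E N, Jg A S.g i z *ᵥ u = v ∧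
      (S.h (A.p i z)).det.re * hr (K.h i z) u ≤ C * hr (S.h (A.p i z)).adjugateᵀ v := by
  obtain ⟨C, hC, h⟩ := hB.fb
  refine ⟨C, hC, fun i z hz hW v => ?_⟩
  have hp := hW.2.1
  obtain ⟨-, -, h1, h2⟩ := dual_norm hp (-v) v
  have h3 : hr (S.h (A.p i z)).adjugateᵀ (-v) = hr (S.h (A.p i z)).adjugateᵀ v := by
    rw [hr, hr, hq, hq, star_neg, Matrix.mulVec_neg, neg_dotProduct_neg]
  refine ⟨((A.C i).σ z)⁻¹ *ᵥ (K.h i z *ᵥ star
    (Vf A S.g i z *ᵥ ((S.h (A.p i z))⁻¹ᵀ *ᵥ star (-v)))), dotProduct_eq _ _ fun τ => ?_, ?_⟩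
  · have h5 : (A.C i).σ z * ((A.C i).σ z)⁻¹ = 1 := Chart.σ_mul_π hz
    have h6 := S.hq_h hz hW.1 τ ((S.h (A.p i z))⁻¹ᵀ *ᵥ star (-v))
    rw [Matrix.mulVec_transpose, hq_dual hp, star_star, ← Matrix.mulVec_transpose, hq] at h6
    rw [← S.sigma_Vf hz, Matrix.dotProduct_mulVec, ← Matrix.mulVec_transpose,
      (A.C i).σ_skew z hz, Matrix.neg_mulVec, Matrix.mulVec_mulVec, h5, Matrix.one_mulVec,
      neg_dotProduct, dotProduct_comm, ← h6, dotProduct_neg, neg_neg, dotProduct_comm]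
  · have h7 := (h i z hz (Vf A S.g i z *ᵥ ((S.h (A.p i z))⁻¹ᵀ *ᵥ star (-v)))).2
    rw [hr, hr, ← S.hq_h hz hW.1, ← hr, ← hr, h1] at h7
    rw [← h3, h2, mul_left_comm]
    exact mul_le_mul_of_nonneg_left h7 (Complex.pos_iff.1 hp.det_pos).1.le

variable {S : Sys K L n} {Y : Type} [TopologicalSpace Y] (B : Base S Y)

theorem Base.φ_le [hB : S.Bd] [T2Space X] [MeasurableSpace X] [BorelSpace X] :
    ∃ C : ℝ, 0 < C ∧ ∀ k, ∀ b ∈ B.W k, ∀ v,
      hr (B.levG (B.dn S.φ) k b) v ≤ C * hr (B.om (B.p k b)) v := by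
  obtain ⟨C, hC, h1⟩ := hB.fb
  obtain ⟨D, hD, h2⟩ := S.exists_lift
  have hm : (0 : ℝ) < S.m := Nat.cast_pos.2 S.m_pos
  refine ⟨S.m * C * D, by positivity, fun k b hb v => ?_⟩
  by_cases hv : v = 0
  · rw [hv, hr, hr, hq_zero_left, hq_zero_left, Complex.zero_re, mul_zero]
  obtain ⟨a1, a2, -⟩ := B.H_pos (B.p k b)
  have hd : 0 < (B.H (B.p k b)).det.re := (Complex.pos_iff.1 a1.det_pos).1
  have i1 := Integrable.of_integral_ne_zero ((B.int_det (B.p k b)).trans_ne hd.ne')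
  have i2 := Integrable.of_integral_ne_zero
    ((B.int_adj (B.p k b) v).trans_ne (mul_pos hd (hq_pos a2 hv)).ne')
  have h3 := integral_mono_ae (i1.mul_const (hr (B.levG (B.dn S.φ) k b) v))
    (i2.const_mul (S.m * C * D)) ((B.fm_ae (B.p k b)).mono fun x hx => by
      obtain ⟨i, z, hz, rfl⟩ := A.cover x
      obtain ⟨u, h4, h5⟩ := h2 i z hz hx.1 v
      have h6 := congrArg (fun M => hr M u) (B.eta_eq hz hx.1 hb hx.2)
      simp only [hr, hq_conj, hq_smul, h4, Complex.mul_re, Complex.natCast_re, Complex.natCast_im,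
        zero_mul, sub_zero] at h6
      have h7 := mul_le_mul_of_nonneg_left (h1 i z hz u).1
        (mul_pos (Complex.pos_iff.1 hx.1.2.1.det_pos).1 hm).le
      have h8 := mul_le_mul_of_nonneg_left h5 (mul_pos hm hC).le
      simp only [hr] at h7 h8 ⊢
      rw [← h6]
      nlinarith)
  rw [integral_mul_const, integral_const_mul, B.int_det, B.int_adj, mul_left_comm] at h3
  exact le_of_mul_le_mul_left h3 hd

end Pool.Agent.ZB
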