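import Pool.Agent.P.MP_63735c_ag.SQMax
import Pool.Agent.P.MP_63735c_ag.SQLip
import Pool.Agent.P.MP_63735c_ag.SQGlue
import Pool.Agent.P.MP_63735c_ag.HSMain
import Pool.Agent.P.MP_63735c_ag.SEL2
import Pool.Agent.P.MP_63735c_ag.SEFin
import Pool.Agent.P.MP_63735c_ag.BPA7
import Pool.Agent.P.MP_63735c_ag.ZBA4b
import Pool.Agent.P.MP_63735c_ag.ZBB8

/-! The integrable system on the regular part. -/

open scoped ComplexOrder ContDiff Matrix Topology ENNReal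
open Set Metric MeasureTheory Filter

namespace Pool.Agent.ZB

open Pool.Agent.BP Pool.Agent.SPF Pool.Agent.AB Pool.Agent.CK Pool.Agent.SE Pool.Agent.NL

variable {N n : ℕ} {X : Type} [TopologicalSpace X] [T2Space X]

theorem sec_reg {A : Atlas X N} {L : Line A} (S : Sec L n) (hinj : ∀ i, InjOn (A.p i) (A.C i).W)
    {K : Form11 A} (hK : ∀ i, ∀ z ∈ (A.C i).W, (K.h i z).PosDef) {Φ : X → E n → X}
    (hF : Flow A (Ur S K) S.g Φ) :
    ∃ x ∈ Ur S K, (S.h K x).PosDef ∧ Submodule.span ℝ {τ | Φ x τ = x} = ⊤ := by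
  obtain ⟨b, hb, hd⟩ := det_of_inj S.T_open S.T_ne (bpa7_hol S hinj)
    fun b hb b' hb' e => (S.g_sep hb hb' 0 0).1 e
  rw [← Matrix.det_transpose] at hd
  have h5 : ∀ τ, S.Ψ (b, τ) ∈ Ur S K := fun τ => ⟨S.tube_mem hb τ, by
    obtain ⟨i, O, f, hO, hw, hf, h⟩ := S.unif (b, τ) hb
    have h0 := h _ hw
    rw [← h0.2.1, S.h_eq hinj K h0.1 (by rw [h0.2.1]; exact S.tube_mem hb τ)]
    refine posDef_of_hq ?_ fun u hu => ?_
    · have h1 := Matrix.isHermitian_mul_mul_conjTranspose (Vf A S.g i (f (b, τ)))ᵀ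
        (K.herm i _ h0.1)
      exact h1
    · rw [hq_conj]
      refine hq_pos (hK i _ h0.1) fun e => hu ?_
      rw [bpa7_field S hinj hO hf (fun s hs => ⟨(h s hs).1, (h s hs).2.1⟩) hw hb
        h0.2.2.1.2 h0.2.2.2.2, ← map_zero (fderiv ℂ f (b, τ))] at e
      exact Matrix.eq_zero_of_mulVec_eq_zero hd (congrArg Prod.snd (h0.2.2.1.1 e))⟩
  refine ⟨S.Ψ (b, 0), h5 0, (h5 0).2, ?_⟩
  obtain ⟨Λ, -, h1, h2⟩ := S.fib b hb
  refine bpa7_span hd h1 fun τ hτ => ?_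
  have hU : HolU A (Ur S K) S.g :=
    ⟨hinj, Ur_open S hinj hK, fun i z hz hx => (S.holU hinj).g_hol i z hz hx.1⟩
  have h3 := hF.eq hU (fun t => sol_cut (bpa7_sol S hinj hb t) hU.U_open (h5 _)) τ
  rw [Matrix.mulVec_zero] at h3
  show Φ _ τ = _
  rw [h3]
  exact (h2 b hb _ 0).2 ⟨rfl, by rwa [sub_zero]⟩

variable [CompactSpace X] {R : Set X} [PreconnectedSpace R] [MeasurableSpace R] [BorelSpace R]
  {μ : Measure R} [IsFiniteMeasure μ]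

theorem exists_sec (hn : 1 ≤ n) (hR : IsOpen R) (hd : Dense R) {A : Atlas R (2 * n)} {B : Amb R A}
    (hinj : ∀ i, InjOn (A.p i) (A.C i).W) (hO : NoOdd A) (hμ : IsVolume A μ) {K : Form11 A}
    (hK : CS.IsKahler B K) {H : HS.BBF n A μ K} (hL : H.Isotropic) {L : Line A}
    (hη : ∃ i, ∃ z ∈ (A.C i).W, (A.C i).η z ≠ 0) {Y : Type} [TopologicalSpace Y] [T2Space Y]
    [CompactSpace Y] (Z : Res L Y) : (∀ i, (A.C i).Iso) ∧ Nonempty (Sec L n) := by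
  have := vol_pos hμ
  obtain ⟨j, y, hy, hη⟩ := hη
  have : Nonempty R := ⟨A.p j y⟩
  obtain ⟨i, z, hz, hr⟩ := HS.BBF.rank hn rfl hK.posDef hL hy hη
  obtain ⟨F, hF, hi, h0⟩ := HS.BBF.exists_F hn rfl measureReal_univ_ne_zero hL
  have hI := A.iso_of_integrable rfl hn μ F hF hi h0
  have hH : ∀ i, (A.C i).Hol n := fun i =>
    Chart.hol_of_S rfl (hI i) (B.S_eq_zero rfl hR hd hI i)
  obtain ⟨T, Ψ, h1, h2, -, h4⟩ :=
    A.exists_unif rfl hI hH (A.complete_of_proper rfl hI hH (B.proper rfl hR hd hI)) i hz hr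
  obtain ⟨T₁, a1, a2, a3, a4⟩ := HS.BBF.leaves hn rfl hinj hμ hK.posDef hK.bd20 hK.bd11
    (HX.exists_Lam hinj hK) hL h4 h1 ⟨0, h2⟩
  obtain ⟨k, p, α, b1, b2, b3⟩ := Z.ten rfl hO
  obtain ⟨m, s, c1, c2, T', c3, c4, c5, c6⟩ :=
    sections hinj L (Z.hl2 rfl) b1 b2 b3 a2 a3 (unif_mono h4 a1) a4
  exact ⟨hI, ⟨⟨T', Ψ, m, s, c4, c5, unif_mono h4 (c3.trans a1), AB.fib_mono a4 c3, c1, c2, c6⟩⟩⟩

theorem exists_sys (hN : N = 2 * n) (hn : 1 ≤ n) {A : Atlas R N} {B : Amb R A}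
    (hinj : ∀ i, InjOn (A.p i) (A.C i).W) (hμ : IsVolume A μ) {K : Form11 A} (hK : KahS B K)
    (h1 : Normal B) {L : Line A} (h2 : Cartier L) (hI : ∀ i, (A.C i).Iso) (S : Sec L n) :
    ∃ Z : Sys K L n, Z.Bd := by
  have hK' := hK.isKahler
  have hp := hK'.posDef
  have hb := fun l => bdd_of hK h1 h2 _ _ (S.sec l)
  have hM := exists_mdl hK h1 h2 S
  obtain ⟨hH₀, h3⟩ := sec_ham' S hinj hμ hI hp hK'.bd20 hK'.bd11 (HX.exists_Lam hinj hK') hb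
  have hH := hH₀.mono (Ur_open S hinj hp) fun _ h => h.1
  obtain ⟨Φ, hF⟩ := hH.exists_flow (prop0 hN hinj hp hM hH₀)
  refine ⟨⟨Ur S K, S.g, S.φ, S.m, S.s 0, Φ, S.h K, hN, hn, hinj, hp, hH.U_open, S.m_pos, S.sec 0,
    fun _ _ hz h => S.φ_eq hz h.1, hH.φ_smooth, fun _ _ hz h => S.φ_lev hz h.1, hH.g_hol,
    fun _ _ hz h => S.h_eq hinj K hz h.1, hH.poi, fun i z hz h => h3 i z hz h.1, hF.zero,
    fun _ hx => hF.add hH.toHolU hx, fun x hx τ => (hF.sol x hx τ).mem,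
    fun _ hx τ => (flow_inv hF hH hx τ).1, fun _ hx τ => (flow_inv hF hH hx τ).2,
    fun _ _ => flow_lift hF hH, sec_reg S hinj hp hF⟩, reg_cpt hN hinj hp hM hH₀,
    (sec_φ_bd S (hb 0)).imp fun c h x hx => h x hx.1,
    (mdl_h_le hM hinj).imp fun c h x hx => h x hx.1, fb_of hp hK'.bd11 hK'.bd20⟩

end Pool.Agent.ZB
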