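import Pool.Agent.P.MP_63735c_ag.BF22
import Pool.Agent.P.MP_63735c_ag.BF20
import Pool.Agent.P.MP_63735c_ag.BF9
import Pool.Agent.P.MP_63735c_ag.BF7b
import Pool.Agent.P.MP_63735c_ag.ZBA8

/-! Sections that separate the leaves. -/

open scoped ComplexOrder ContDiff Matrix Topology
open Set Metric MeasureTheory Filter

namespace Pool.Agent.BF

open Pool.Agent.SPF Pool.Agent.AB Pool.Agent.HX Pool.Agent.CK Pool.Agent.SE Pool.Agent.ZB
  Pool.Agent.NL Pool.Agent.HS Pool.Agent.CS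
open Pool.Agent.BP (H20 gam gam_is20 gam_closed)

theorem intG_conn {N n : ℕ} {X : Type} [TopologicalSpace X] {A : Atlas X N} {L : Line A} {Y : Type}
    [TopologicalSpace Y] {Z : Res L Y} {β : A.ι → CL.Form2 (E N)}
    (C : Nonempty (Conn (zbb11d_man Z) β)) {β' : A.ι → E N → E N → E N → ℝ}
    (e : ∀ i, ∀ z ∈ (A.C i).W, ∀ u v, β' i z u v = β i z u v) : IntG n A β' := by
  intro T Ψ t hT hc _ ht b hb
  obtain ⟨u, hu⟩ := isInt_conn C.some hT hc (Φ := fun p => Z.j (Ψ p)) (t := t) (fun p hp => by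
    obtain ⟨i, f, h1, h2⟩ := ht p hp
    exact ⟨i, f, h1.mono fun s hs => ⟨hs.1, Z.sub i hs.2.1,
      (Z.p_eq i _ hs.2.1).trans (congrArg _ hs.2.2)⟩,
      (h1.and h2).mono fun s hs u v => (hs.2 u v).trans (e i _ hs.1.2.1 _ _)⟩) b hb
  exact ⟨u, fun c c' h1 h2 h3 => hu c c' h1 h2 fun s hs => congrArg _ (h3 s hs)⟩

variable {n : ℕ} {X : Type} [TopologicalSpace X] [T2Space X] {R : Set X} [PreconnectedSpace R]
  [MeasurableSpace R] [BorelSpace R] {μ : Measure R} [IsFiniteMeasure μ] {A : Atlas R (2 * n)}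
  {B : Amb R A} {K : Form11 A} {L : Line A} {Y : Type} [TopologicalSpace Y] [T2Space Y]
  [CompactSpace Y] {Z : Res L Y}

theorem lattice (hn : 1 ≤ n) (hinj : ∀ i, InjOn (A.p i) (A.C i).W) (hμ : IsVolume A μ)
    (hK : KahS B K) (h20 : H20 A) (hI : ∀ i, (A.C i).Iso)
    (hη : ∃ i, ∃ z ∈ (A.C i).W, (A.C i).η z ≠ 0) (P : Over B Z) :
    (∃ i, ∃ z ∈ (A.C i).W, n ≤ ((A.C i).η z).rank) ∧
      IntG n A (fun i z u v => 1 / (2 * Real.pi) * ev11 ((A.C i).η z) u v) ∧ TranscG n A μ K := by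
  borelize Y
  have := Z.j_dense.preconnectedSpace Z.j_cont
  have h := P.toFull
  have hp := hK.isKahler.posDef
  obtain ⟨s, s1, s2, s3⟩ := ext_σ h
  obtain ⟨K', k1, k2, k3⟩ := ext_frm h K (P.upto_K hK) hp
  obtain ⟨γ₁, a1, a2⟩ := ext_h2 h (gam_is20 K) (P.upto_gam hK) fun i z hz => gam_closed K i hz
  obtain ⟨γ₂, b1, b2⟩ := ext_h2 h (gam2_is20 K) (upto_gam2 P hK) fun i z hz => gam2_closed K i hz
  obtain ⟨c1, c2⟩ := line_conn (D := zbb11d_man Z) h.man_cover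
    (g := fun i k => Z.g (Z.c i) (Z.c k)) (ψ := fun i => Z.ψ (Z.c i)) (fun _ _ => Z.g_hol _ _)
    (fun _ _ _ => Z.g_mul _ _ _) (fun _ => Z.ψ_smooth _) fun _ _ => Z.ψ_eq _ _
  have c3 : ∀ i, EqOn (lev (Z.ψ (Z.c i))) (A.C i).η (A.C i).W := fun i z hz => by
    rw [(lev_congr (g := L.ψ i) (mem_of_superset ((A.C i).isOpen.mem_nhds hz)
      fun w hw => (Z.ψ_res i w hw).symm)).self_of_nhds]
    exact Matrix.ext fun a b => L.curv i z hz a b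
  have ho : Kf (zbb11d_man Z) fun k => Z.K (Z.c k) :=
    ⟨fun _ => ⟨Z.K_smooth _, Z.K_pos _, Z.K_closed _⟩, fun _ _ => Z.K_eq _ _⟩
  let S : Sy Y n :=
    { ybase h with
      σ := s, η := fun i => lev (Z.ψ (Z.c i)), K := K', om := fun k => Z.K (Z.c k), γ₁ := γ₁
      γ₂ := γ₂, O := fun i => (A.C i).W, n_pos := hn, σ_h2 := s1, σ_hol := s3, η_frm := c1
      K_frm := k1, om_kf := ho, γ₁_h2 := a1, γ₂_h2 := b1, η_psd := fun _ => Z.ψ_psd _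
      K_psd := k3, sub := Z.sub, dense := h.dense
      σ_det := fun i z hz => s2 i hz ▸ (A.C i).σ_det z hz
      K_pos := fun i z hz => k2 i hz ▸ hp i z hz
      iso := fun i z hz => by rw [s2 i hz, c3 i hz]; exact hI i z hz
      γ₁_eq := fun i z hz => by rw [s2 i hz, c3 i hz, k2 i hz, a2 i hz]; rfl
      γ₂_eq := fun i z hz => by rw [s2 i hz, k2 i hz, b2 i hz]; rfl
      η_ne := hη.imp fun i ⟨z, hz, h0⟩ => ⟨z, hz, fun e => h0 ((c3 i hz).symm.trans e)⟩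
      hodge := fun γ hγ => hodge h h20 s1 s2 hγ
      conn := c2 }
  obtain ⟨Q⟩ := exists_coh S.toBase
  obtain ⟨i, z, hz, hr⟩ := S.rank Q
  obtain ⟨m, c, a, ha, d1, d2, d3⟩ := S.lat Q
  refine ⟨⟨i, z, hz, c3 i hz ▸ hr⟩, intG_conn c2 fun i z hz u v => ?_, m, c, fun j => res (ha j),
    fun j => intG_conn (d1 j) fun i z hz u v => ?_, fun j T Ψ e1 e2 e3 => ?_,
    fun c₀ => (d3 c₀).imp fun r hr => ⟨hr.1, fun i z _ => hr.2 i z⟩⟩
  · rw [← c3 i hz]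
    rfl
  · rw [← s2 i hz]
    rfl
  · obtain ⟨C, hC⟩ := S.est Q (ha j) (d2 j)
    exact nullL_of_hxp hn rfl hinj hμ K hp _
      (hxp_of h hp (ha j) c1 k1 ho (fun _ => Z.ψ_psd _) k3 c3 k2 hC) e1 e2 e3

theorem exists_sec [CompactSpace X] (hn : 1 ≤ n) (hR : IsOpen R) (hd : Dense R)
    (hinj : ∀ i, InjOn (A.p i) (A.C i).W) (hO : NoOdd A) (h20 : H20 A) (hμ : IsVolume A μ)
    (hK : KahS B K) (hI : ∀ i, (A.C i).Iso) (hη : ∃ i, ∃ z ∈ (A.C i).W, (A.C i).η z ≠ 0)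
    (P : Over B Z) : Nonempty (BP.Sec L n) := by
  obtain ⟨⟨i, z, hz, hr⟩, g1, g2⟩ := lattice hn hinj hμ hK h20 hI hη P
  have : Nonempty R := ⟨A.p i z⟩
  have hK' := hK.isKahler
  have hH : ∀ i, (A.C i).Hol n := fun i =>
    Chart.hol_of_S rfl (hI i) (B.S_eq_zero rfl hR hd hI i)
  obtain ⟨T, Ψ, h1, h2, -, h4⟩ :=
    A.exists_unif rfl hI hH (A.complete_of_proper rfl hI hH (B.proper rfl hR hd hI)) i hz hr
  obtain ⟨T₁, a1, a2, a3, a4⟩ := compact_leavesB hn rfl hinj hμ K hK'.posDef hK'.bd20 hK'.bd11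
    (by positivity) g1 g2 h4 h1 ⟨0, h2⟩
  obtain ⟨k, p, α, b1, b2, b3⟩ := Z.ten rfl hO
  obtain ⟨m, s, c1, c2, T', c3, c4, c5, c6⟩ :=
    sections hinj L (Z.hl2 rfl) b1 b2 b3 a2 a3 (unif_mono h4 a1) a4
  exact ⟨⟨T', Ψ, m, s, c4, c5, unif_mono h4 (c3.trans a1), AB.fib_mono a4 c3, c1, c2, c6⟩⟩

end Pool.Agent.BF
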