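import Pool.Agent.P.MP_63735c_ag.BF22
import Pool.Agent.P.MP_63735c_ag.BF18

/-! The volume of `σ`; a form of volume zero is isotropic. -/

open scoped ComplexOrder ContDiff Matrix Topology
open Set Metric MeasureTheory Filter

namespace Pool.Agent.BF

open Pool.Agent.SPF Pool.Agent.AB Pool.Agent.HX Pool.Agent.CK Pool.Agent.SE Pool.Agent.ZB
  Pool.Agent.NL Pool.Agent.HS
open Pool.Agent.BP (H20)

variable {N n : ℕ}

theorem tr20 (hn : 1 ≤ n) (C : Chart (2 * n)) {z : E (2 * n)} (hz : z ∈ C.W) (m : Mat (2 * n)) :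
    (form20 (C.η z * (C.σ z)⁻¹.map star * (C.η z)ᵀ) + form11 m) *
      (form20 (C.σ z) ^ (n - 1) * form02 (C.σ z) ^ n) =
      (-(2 * n : ℂ)⁻¹ * ext2_T C z) • (form20 (C.σ z) ^ n * form02 (C.σ z) ^ n) := by
  have hn0 : (n : ℂ) ≠ 0 := Nat.cast_ne_zero.2 (by omega)
  have h1 := type_zero (h := m) (s := C.σ z) (t := C.σ z) (j := 1) (k := n - 1) (l := n)
    (by omega) (by omega)
  rw [pow_one, mul_assoc] at h1
  have h2 : ∀ a c, xz a * xz c * form20 (C.σ z) ^ (n - 1) =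
      ((n : ℂ)⁻¹ * -C.π z a c) • form20 (C.σ z) ^ n := fun a c => by
    rw [mul_smul, ← Chart.π_skew hz c a, Chart.π, ← xz_xz rfl hn (C.σ_skew z hz) (C.σ_det z hz),
      inv_smul_smul₀ hn0]
  rw [add_mul, h1, add_zero, ← mul_assoc, ← smul_mul_assoc, form20]
  simp only [smul_mul_assoc, Finset.sum_mul, h2, smul_smul, ← Finset.sum_smul]
  congr 1
  simp only [ext2_T, Matrix.mul_apply, Finset.sum_mul, Finset.mul_sum, Matrix.transpose_apply,
    Matrix.map_apply]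
  refine Finset.sum_congr rfl fun a _ => Eq.trans ?_ Finset.sum_comm
  refine Finset.sum_congr rfl fun c _ => Finset.sum_comm.trans
    (Finset.sum_congr rfl fun b _ => Finset.sum_congr rfl fun d _ => ?_)
  rw [Chart.π]
  field_simp

section
variable {X : Type} [TopologicalSpace X] {A : Atlas X N} {L : Line A} {Y : Type}
  [TopologicalSpace Y] {Z : Res L Y}

theorem res_inj (Z : Res L Y) (i : A.ι) : InjOn (A.p i) (A.C i).W := fun _ hz _ hy e =>
  Z.inj _ (Z.sub i hz) (Z.sub i hy) ((Z.p_congr hz hy).2 e)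

theorem exists_vol [CompactSpace Y] [T2Space Y] [MeasurableSpace X] [BorelSpace X] (h : Full Z) :
    ∃ μ : Measure X, IsFiniteMeasure μ ∧ IsVolume A μ := by
  borelize Y
  have := base_fin (ybase h)
  obtain ⟨s, s1, s2, -⟩ := ext_σ h
  have hj : MeasurableEmbedding Z.j :=
    (Topology.IsOpenEmbedding.of_continuous_injective_isOpenMap Z.j_cont Z.j_inj fun U hU =>
      isOpen_iff_forall_mem_open.2 (by
        rintro _ ⟨x, hx, rfl⟩
        obtain ⟨i, z, hz, rfl⟩ := A.cover x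
        refine ⟨_, ?_, Z.opn _ _ ((A.cont i).isOpen_inter_preimage (A.C i).isOpen hU)
          (inter_subset_left.trans (Z.sub i)), z, ⟨hz, hx⟩, Z.p_eq i z hz⟩
        rintro _ ⟨w, hw, rfl⟩
        exact ⟨_, hw.2, (Z.p_eq i w hw.1).symm⟩)).measurableEmbedding
  have e : ∀ i, ∀ z ∈ Z.W (Z.c i), glob (zbb11d_man Z)
      (fun i z => ‖(s i z).det‖ / wt ((ybase h).Ψ i) z) (Z.p (Z.c i) z) =
      ‖(s i z).det‖ / wt ((ybase h).Ψ i) z := fun i z hz => hn_glob (fun i j z hz φ hφ => by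
    have h1 := (ybase h).Ψ_cpt i j z hz φ hφ
    have h2 : ‖(jac φ z).det‖ ^ 2 ≠ 0 := fun e => (wt_pos _ z).ne' (by rw [h1, e, zero_mul])
    rw [h1, s1.cpt i j z hz φ hφ, Matrix.det_mul, Matrix.det_mul, Matrix.det_transpose, norm_mul,
      norm_mul, mul_right_comm, ← sq, mul_div_mul_left _ _ h2]) hz
  generalize glob (zbb11d_man Z) (fun i z => ‖(s i z).det‖ / wt ((ybase h).Ψ i) z) = f at e
  have hf : Continuous f := by
    rw [← continuousOn_univ, ← h.man_cover]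
    exact Man.contOn fun i => (((continuous_id.matrix_det.comp_continuousOn (continuousOn_pi.2
      fun a => continuousOn_pi.2 fun b => (s1.smooth i a b).continuousOn)).norm).div
      (Man.abmeas_wt ((ybase h).Ψ_smooth i).continuousOn) fun z _ => (wt_pos _ z).ne').congr (e i)
  have := isFiniteMeasure_withDensity_ofReal (μ := (ybase h).μ)
    (hf.integrable_of_hasCompactSupport (HasCompactSupport.of_compactSpace _)).2
  refine ⟨((ybase h).μ.withDensity fun y => ENNReal.ofReal (f y)).comap Z.j,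
    ⟨by rw [hj.comap_apply]; exact measure_lt_top _ _⟩, fun i S hS hm => ?_⟩
  have hS' : S ⊆ (ybase h).W i := hS.trans (Z.sub i)
  rw [hj.comap_apply, image_image, ← image_congr fun z hz => Z.p_eq i z (hS hz)]
  refine (withDensity_apply _ (Man.meas_img hm hS')).trans (((ybase h).den.lint
    ((ybase h).Ψ_smooth i).continuousOn hm hS' _).trans (setLIntegral_congr_fun hm fun z hz => ?_))
  rw [← ENNReal.ofReal_mul (wt_pos _ z).le, ← ofReal_norm, ← s2 i (hS hz)]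
  exact congrArg _ ((congrArg _ (e i z (hS' hz))).trans (mul_div_cancel₀ _ (wt_pos _ z).ne'))

end

variable {X : Type} [TopologicalSpace X] {R : Set X} {A : Atlas R (2 * n)} {B : Amb R A}
  {K : Form11 A} {L : Line A} {Y : Type} [TopologicalSpace Y] [T2Space Y] [CompactSpace Y]
  {Z : Res L Y}

omit [T2Space Y] [CompactSpace Y] in
theorem upto_gam0 (P : Over B Z) (hK : KahS B K) (a b : Fin (2 * n)) :
    Upto Z fun i z => gam2 (etaF A) i z a b := by
  intro i w hw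
  obtain ⟨α, r, J, H, e, p, hr, hJ, -, he, hp, h⟩ := zbb11a_loc P hK i hw
  refine ⟨r, _, hr, zbb11a_mul (zbb11a_mul (zbb11a_tr hJ)
    (zbb11a_mul (zbb11a_mul he (zbb11a_star hp)) (zbb11a_tr he))) hJ a b, fun v hv => ?_⟩
  obtain ⟨-, h1, h3⟩ := h v hv
  have h4 : (p v).map star =
      (J v).map star * ((A.C i).σ v)⁻¹.map star * ((J v).map star)ᵀ := by
    rw [h3, ← Matrix.transpose_map]
    exact (Matrix.map_mul (f := starRingEnd ℂ)).trans
      (congrArg (· * _) (Matrix.map_mul (f := starRingEnd ℂ)))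
  simp only [gam2, etaF, h1, h4, Matrix.transpose_mul, Matrix.transpose_transpose, Matrix.mul_assoc]

theorem iso_of_det (hn : 1 ≤ n) (hK : KahS B K) (h20 : H20 A) (P : Over B Z)
    (h0 : ∀ i, ∀ z ∈ (A.C i).W, ((A.C i).η z).det = 0) (i : A.ι) : (A.C i).Iso := by
  intro z hz
  refine ext2_iso _ hz (by_contra fun hne => ?_)
  borelize Y
  have h := P.toFull
  obtain ⟨s, s1, s2, s3⟩ := ext_σ h
  obtain ⟨γ, a1, a2⟩ := ext_h2 h (gam2_is20 (etaF A)) (upto_gam0 P hK)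
    fun i z hz => gam2_closed (etaF A) i hz
  obtain ⟨c, β, b1, b2⟩ := hodge h h20 s1 s2 a1
  obtain ⟨Q⟩ := exists_coh (ybase h)
  obtain ⟨U, m, c1, c2⟩ := Q.ex20 b1
  obtain ⟨C, -, h3⟩ := exists_c3 n
  obtain ⟨D, hD, h5⟩ := exists_c5 n
  obtain ⟨x, y, r1, r2⟩ : ∃ x y, (Q.rep x fun i z => form20 (s i z)) ∧
      Q.rep y fun i z => form02 (s i z) := by
    have r0 := fun c => Q.rep_cl ⟨_, g2_s20 s1 s3 c⟩
    simp only [form20_eq, form02_eq]
    exact ⟨_, _, Q.rep_add (r0 1) (Q.rep_smul _ (r0 _)), Q.rep_add (r0 1) (Q.rep_smul _ (r0 _))⟩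
  have r3 := Q.rep_add (Q.rep_smul c r1) c1
  rw [add_zero] at r3
  have e3 : ∀ i, ∀ z ∈ (A.C i).W, c • form20 (s i z) + U i z =
      form20 ((A.C i).η z * ((A.C i).σ z)⁻¹.map star * ((A.C i).η z)ᵀ) + form11 (m i z) :=
    fun i z hz => by
      rw [c2 i z (Z.sub i hz), ← add_assoc, ← form20_smul, ← form20_add, ← b2 i z (Z.sub i hz),
        a2 i hz]
      rfl
  have ct := fun {x Θ} (r : Q.rep x Θ) i => (T_smooth ((Q.gf r).smooth i)).continuousOn
  have r4 := Q.rep_mul (Q.rep_pow r1 n) (Q.rep_pow r2 n)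
  have r5 := Q.rep_mul (Q.rep_pow r3 n) (Q.rep_pow r2 n)
  have r6 := Q.rep_mul r3 (Q.rep_mul (Q.rep_pow r1 (n - 1)) (Q.rep_pow r2 n))
  have f4 := Int_ne (Q.gf r4) hD (f := fun i z => ‖(s i z).det‖)
    (fun i z hz => ⟨h5 _ (s1.skew i z hz), norm_nonneg _⟩)
    ⟨i, z, Z.sub i hz, by rw [s2 i hz]; exact norm_ne_zero_iff.2 ((A.C i).σ_det z hz)⟩
  have f5 := Q.int r5
  rw [Int_zero fun i => h.eqOn (Z.isOpen _) Subset.rfl (ct r5 i) continuousOn_const fun w hw => by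
    change T ((c • form20 (s i w) + U i w) ^ n * form02 (s i w) ^ n) = 0
    rw [e3 i w hw.2, type_pow, s2 i hw.2, h3 _ _ ((A.C i).σ_skew w hw.2) ((A.C i).σ_det w hw.2),
      h0 i w hw.2, mul_zero], smul_pow, smul_mul_assoc, map_smul, Q.int r4] at f5
  obtain rfl : c = 0 := pow_eq_zero_iff (by omega) |>.1 ((mul_eq_zero.1 f5).resolve_right f4)
  have f6 := Q.int r6
  rw [zero_smul, zero_mul, map_zero] at f6
  have hc : -(2 * n : ℂ)⁻¹ * D ≠ 0 := mul_ne_zero (neg_ne_zero.2 (inv_ne_zero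
    (mul_ne_zero two_ne_zero (Nat.cast_ne_zero.2 (by omega))))) hD
  obtain ⟨Θ, hΘ, g6, f6⟩ : ∃ Θ, (∀ i z, Θ i z = ((0 : ℂ) • form20 (s i z) + U i z) *
      (form20 (s i z) ^ (n - 1) * form02 (s i z) ^ n)) ∧ Q.rep _ Θ ∧ 0 = Int (ybase h) Θ :=
    ⟨_, fun _ _ => rfl, r6, f6⟩
  have e6 : ∀ i, ∀ z ∈ (A.C i).W, T (Θ i z) / (-(2 * n : ℂ)⁻¹ * D) =
      ext2_T (A.C i) z * (‖((A.C i).σ z).det‖ : ℝ) := fun i z hz => by
    rw [hΘ, div_eq_iff hc]
    rw [e3 i z hz, s2 i hz, tr20 hn _ hz, map_smul, h5 _ ((A.C i).σ_skew z hz), smul_eq_mul]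
    ring
  have e7 : ∀ i, ∀ z ∈ Z.W (Z.c i), 0 ≤ T (Θ i z) / (-(2 * n : ℂ)⁻¹ * D) := fun i z hz =>
    ContinuousWithinAt.closure_le (f := fun _ => 0)
      (g := fun z => T (Θ i z) / (-(2 * n : ℂ)⁻¹ * D)) (h.dense i hz) continuousWithinAt_const
      (((ct g6 i).continuousAt ((Z.isOpen _).mem_nhds hz)).div_const _).continuousWithinAt
      fun w hw => by
        have hp := (A.C i).η_psd w hw
        rw [e6 i w hw, ext2_T_eq]
        exact mul_nonneg ((hp.kronecker hp).dotProduct_mulVec_nonneg _)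
          (Complex.zero_le_real.2 (norm_nonneg _))
  have e8 := fun i z hz => Complex.eq_re_of_ofReal_le (r := 0) (e7 i z hz)
  refine Int_ne (Q.gf g6) hc (f := fun i z => (T (Θ i z) / (-(2 * n : ℂ)⁻¹ * D)).re)
    (fun i z hz => ⟨by rw [← e8 i z hz, mul_div_cancel₀ _ hc], (Complex.nonneg_iff.1 (e7 i z hz)).1⟩)
    ⟨i, z, Z.sub i hz, fun e => ?_⟩ f6.symm
  have e9 := e8 i z (Z.sub i hz)
  rw [e, e6 i z hz] at e9
  exact mul_ne_zero hne (Complex.ofReal_ne_zero.2 (norm_ne_zero_iff.2 ((A.C i).σ_det z hz))) e9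

end Pool.Agent.BF
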