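import Pool.Agent.P.MP_63735c_ag.BF3

/-! The theorem of Stokes and the cohomology ring. -/

open scoped ComplexOrder ContDiff Matrix Topology
open Set Metric MeasureTheory Filter

namespace Pool.Agent.BF

open Pool.Agent.SPF Pool.Agent.AB Pool.Agent.HX Pool.Agent.CK Pool.Agent.HS
open Pool.Agent.CL (Form1 Form2 Closed2 IsPrim)

variable {N : ℕ} {Y : Type} [TopologicalSpace Y] [MeasurableSpace Y] {B : Base Y N}
  {Θ Ξ : B.ι → E N → Ext N} [CompactSpace Y] [T2Space Y] [BorelSpace Y]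

theorem bf3b_int (h : GF B.toMan Θ) :
    Integrable (glob B.toMan fun i z => T (Θ i z) / (wt (B.Ψ i) z : ℂ)) B.μ :=
  have := base_fin B
  h.cont.integrable_of_hasCompactSupport (.of_compactSpace _)

theorem stokes (h : GF B.toMan Θ) (h' : GF B.toMan Ξ)
    (hd : ∀ i, ∀ z ∈ B.W i, d (Ξ i) z = Θ i z) : Int B Θ = 0 := by
  obtain ⟨m, c, τ, h1, -, h2⟩ := Man.exists_pu (D := B.toMan) (θ := fun _ => 1)
    ⟨fun _ => contDiffOn_const, univ, isCompact_univ, B.cover.ge, by simp⟩ fun _ => zero_le_one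
  let t := fun k i z => B.ext (c k) (τ k) (B.p i z)
  have s : ∀ k i, ContDiffOn ℝ ∞ (t k i) (B.W i) := fun k => (Man.ext_S (h1 k)).1
  let X := fun k i z => e1 (fderiv ℝ (t k i) z) * Ξ i z + (t k i z : ℂ) • Θ i z
  have g : ∀ k, GF B.toMan (X k) := fun k =>
    ((G1.gf ⟨fun i => ((s k i).fderiv_of_isOpen (B.isOpen i) (by simp)).mono inter_subset_left,
      fun i j z _ _ φ e u => by
        rw [EventuallyEq.fderiv_eq (f := t k j ∘ φ)
          (e.mono fun w hw => congrArg (B.ext (c k) (τ k)) hw.2.2.symm), fderiv_comp z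
          (diffAt (B.isOpen j) (s k j) e.self_of_nhds.2.1)
          (e.smooth.differentiableAt (by simp))]
        rfl⟩).mul h').add
      ⟨fun i => (ofReal_smooth (s k i)).smul (h.1 i), fun i j z hz φ e => by
        simp only [t, map_smul, ← h.2 i j z hz φ e, e.self_of_nhds.2.2]⟩
  have e : ∀ x, glob B.toMan (fun i z => T (Θ i z) / (wt (B.Ψ i) z : ℂ)) x =
      ∑ k, glob B.toMan (fun i z => T (X k i z) / (wt (B.Ψ i) z : ℂ)) x := fun x => by
    obtain ⟨i, z, hz, rfl⟩ := hn_chart B x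
    have a : ∑ k, e1L N (fderiv ℝ (t k i) z) = 0 := by
      rw [← map_sum, ← fderiv_fun_sum fun k _ => diffAt (B.isOpen i) (s k i) hz]
      simp only [t, ← h2, fderiv_fun_const, Pi.zero_apply, map_zero]
    simp only [h.chart hz, (g _).chart hz, ← Finset.sum_div, ← map_sum, X,
      Finset.sum_add_distrib, ← Finset.sum_mul, ← Finset.sum_smul, ← Complex.ofReal_sum, t, ← h2]
    rw [show ∑ k, e1 _ = 0 from a]
    simp
  rw [Int, integral_congr_ae (Eventually.of_forall e),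
    integral_finsetSum _ fun k _ => bf3b_int (g k)]
  refine Finset.sum_eq_zero fun k _ => ?_
  have z0 := fun z (_ : z ∈ B.W (c k)) => image_eq_zero_of_notMem_tsupport (f := τ k) (x := z)
  refine (Int_loc (g k) (i := fun _ : Fin 1 => c k) (O := fun _ => B.W (c k))
    (fun _ => ⟨B.isOpen _, Subset.rfl⟩) Subsingleton.pairwise fun j z hz n => ?_).trans ?_
  · have a : t k j =ᶠ[𝓝 z] fun _ => 0 := (Man.contAt_p hz).eventually
      (((Man.cpt_img (h1 k).cpt (h1 k).sub).1.isClosed.isOpen_compl.eventually_mem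
        fun q => n 0 (image_mono (h1 k).sub q)).mono fun x => Man.ext_zero z0)
    simp [X, a.fderiv_eq, a.self_of_nhds, e1_zero]
  · rw [Fin.sum_univ_one, ← int_d (f := fun z => (t k (c k) z : ℂ) • Ξ (c k) z) (B.isOpen _)
      (h1 k).cpt (h1 k).sub ((ofReal_smooth (s k _)).smul (h'.1 _)) fun z a b => by
        simp only [t, Man.ext_apply a, z0 z a b, Complex.ofReal_zero, zero_smul]]
    refine setIntegral_congr_fun (B.isOpen _).measurableSet fun z hz => ?_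
    simp only [X, d_smul (diffAt (B.isOpen _) (s k _) hz) (diffAt (B.isOpen _) (h'.1 _) hz),
      hd _ z hz]

/-- Closed central forms. -/
noncomputable def bf3b_A (D : Man Y N) :
    Subalgebra ℂ (Subalgebra.center ℂ (D.ι → E N → Ext N)) where
  carrier := {x | GF D x.1 ∧ ∀ i, ∀ z ∈ D.W i, d (x.1 i) z = 0}
  mul_mem' := fun {x y} a b => ⟨a.1.mul b.1, fun i z hz =>
    (d_mul (diffAt (D.isOpen i) (a.1.1 i) hz) (diffAt (D.isOpen i) (b.1.1 i) hz)).trans (by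
      rw [a.2 i z hz, b.2 i z hz, zero_mul, mul_zero, add_zero])⟩
  add_mem' := fun {x y} a b => ⟨a.1.add b.1, fun i z hz =>
    (d_add (diffAt (D.isOpen i) (a.1.1 i) hz) (diffAt (D.isOpen i) (b.1.1 i) hz)).trans (by
      rw [a.2 i z hz, b.2 i z hz, add_zero])⟩
  algebraMap_mem' := fun c => ⟨by
    rw [Algebra.algebraMap_eq_smul_one]
    exact gf_one.smul c, fun _ _ _ => d_const _⟩

/-- Exact forms. -/
def bf3b_J (D : Man Y N) : Ideal (bf3b_A D) where
  carrier := {x | ∃ ζ, GF D ζ ∧ ∀ i, ∀ z ∈ D.W i, d (ζ i) z = x.1.1 i z}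
  zero_mem' := ⟨1, gf_one, fun _ _ _ => d_const _⟩
  add_mem' := fun ⟨ζ, a, b⟩ ⟨ξ, a', b'⟩ => ⟨_, a.add a', fun i z hz =>
    (d_add (diffAt (D.isOpen i) (a.1 i) hz) (diffAt (D.isOpen i) (a'.1 i) hz)).trans (by
      rw [b i z hz, b' i z hz]; rfl)⟩
  smul_mem' := fun y x ⟨ζ, a, b⟩ => ⟨_, a.mul y.2.1, fun i z hz =>
    (d_mul (diffAt (D.isOpen i) (a.1 i) hz) (diffAt (D.isOpen i) (y.2.1.1 i) hz)).trans (by
      rw [b i z hz, y.2.2 i z hz, mul_zero, add_zero, smul_eq_mul, mul_comm y]; rfl)⟩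

theorem bf3b_quot {A : Type} [CommRing A] [Algebra ℂ A] (J : Ideal A) (L : A →ₗ[ℂ] ℂ)
    (h : ∀ a ∈ J, L a = 0) : ∃ (H : Type) (_ : CommRing H) (_ : Algebra ℂ H) (q : A →ₐ[ℂ] H)
      (I : H →ₗ[ℂ] ℂ), (∀ a, I (q a) = L a) ∧ ∀ a ∈ J, q a = 0 :=
  ⟨_, _, _, Ideal.Quotient.mkₐ ℂ J, (J.restrictScalars ℂ).liftQ L h ∘ₗ
    (Submodule.Quotient.restrictScalarsEquiv ℂ J).symm.toLinearMap, fun _ => rfl,
    fun _ => Ideal.Quotient.eq_zero_iff_mem.2⟩

theorem exists_coh (B : Base Y N) : Nonempty (Coh B) := by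
  let L : bf3b_A B.toMan →ₗ[ℂ] ℂ := ⟨⟨fun a => Int B a.1.1, fun a b => by
    rw [Int, Int, Int, ← integral_add (bf3b_int a.2.1) (bf3b_int b.2.1)]
    refine integral_congr_ae (Eventually.of_forall fun x => ?_)
    obtain ⟨i, z, hz, rfl⟩ := hn_chart B x
    simp only [(a + b).2.1.chart hz, a.2.1.chart hz, b.2.1.chart hz, ← add_div, ← map_add]
    rfl⟩, fun c a => by
    simp only [Int, smul_eq_mul, RingHom.id_apply, ← integral_const_mul]
    refine integral_congr_ae (Eventually.of_forall fun x => ?_)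
    obtain ⟨i, z, hz, rfl⟩ := hn_chart B x
    simp only [(c • a).2.1.chart hz, a.2.1.chart hz, ← mul_div_assoc]
    exact congrArg (· / _) (map_smul T c _)⟩
  obtain ⟨H, _, _, q, I, h1, h2⟩ := bf3b_quot (A := bf3b_A B.toMan) (bf3b_J B.toMan) L
    (by
      rintro a ⟨ζ, h, h'⟩
      exact stokes a.2.1 h h')
  let F : Z2 B.toMan → bf3b_A B.toMan := fun β => ⟨⟨fun i z => f2 (β.1 i z),
    Subalgebra.mem_center_iff.2 fun y => funext₂ fun i z => (f2_comm _ _).eq.symm⟩, β.g2.gf,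
    fun i z hz => d_f2 (diffAt (B.isOpen i) (β.g2.1 i).1 hz) ((β.g2.1 i).2.2 z hz)⟩
  refine ⟨⟨H, I, fun x Θ => ∃ a, q a = x ∧ a.1.1 = Θ, ⟨⟨fun β => q (F β), fun β γ => ?_⟩,
    fun r β => ?_⟩, fun β => ⟨_, rfl, rfl⟩, ⟨1, map_one q, rfl⟩, ?_, ?_, ?_, ?_, ?_, ?_⟩⟩
  · rw [← map_add]
    exact congrArg q (Subtype.ext (Subtype.ext (funext₂ fun i z => f2_add _ _)))
  · refine Eq.trans ?_ (map_smul q (r : ℂ) (F β))
    exact congrArg q (Subtype.ext (Subtype.ext (funext₂ fun i z => f2_smul _ _)))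
  · rintro _ _ _ _ ⟨a, rfl, rfl⟩ ⟨b, rfl, rfl⟩
    exact ⟨a + b, map_add q a b, rfl⟩
  · rintro _ _ _ _ ⟨a, rfl, rfl⟩ ⟨b, rfl, rfl⟩
    exact ⟨a * b, map_mul q a b, rfl⟩
  · rintro c _ _ ⟨a, rfl, rfl⟩
    exact ⟨c • a, map_smul q c a, rfl⟩
  · rintro _ _ ⟨a, -, rfl⟩
    exact a.2.1
  · rintro _ _ ⟨a, rfl, rfl⟩
    exact h1 a
  · refine fun β ζ h e => h2 _ ⟨_, h.gf, fun i z hz => ?_⟩
    rw [d_e1 (diffAt (B.isOpen i) ((h.1 i).mono fun _ hz => ⟨hz, trivial⟩) hz)]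
    exact congrArg f2 (ContinuousLinearMap.ext fun u => ContinuousLinearMap.ext fun v =>
      (e i z hz u v).symm)

end Pool.Agent.BF
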