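import Pool.Agent.P.MP_63735c_ag.BF0
import Pool.Agent.P.MP_63735c_ag.CLPrim

/-! Flat sections over a convex set. -/

open scoped ComplexOrder ContDiff Matrix Topology
open Set Metric MeasureTheory Filter

namespace Pool.Agent.BF

open Pool.Agent.SPF Pool.Agent.AB Pool.Agent.HX Pool.Agent.CK Pool.Agent.HS
open Pool.Agent.CL (Form1 Form2 Closed2 IsPrim)

variable {F : Type} [NormedAddCommGroup F] [NormedSpace ℝ F] {W : Set F} {κ : Type}
  {O : κ → Set F} {g : κ → κ → F → ℂ}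

theorem bf8_lift {B D κ : Type} [TopologicalSpace B] [SimplyConnectedSpace B]
    [LocallyPathConnectedSpace B] [Group D] {O : κ → Set B} {c : κ → κ → B → D}
    (hO : ∀ a, IsOpen (O a)) (h0 : ∀ x, ∃ a, x ∈ O a)
    (h1 : ∀ a b x, x ∈ O a → x ∈ O b → ∀ᶠ y in 𝓝 x, c a b y = c a b x)
    (h2 : ∀ a b e x, x ∈ O a → x ∈ O b → x ∈ O e → c b e x * c a b x = c a e x) :
    ∃ s : κ → B → D, (∀ a x, x ∈ O a → ∀ᶠ y in 𝓝 x, s a y = s a x) ∧
      ∀ a b x, x ∈ O a → x ∈ O b → s b x = c a b x * s a x := by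
  let _ : TopologicalSpace D := ⊥
  have : DiscreteTopology D := ⟨rfl⟩
  choose ix hix using h0
  let Z : FiberBundleCore κ B D :=
    { baseSet := O, isOpen_baseSet := hO, indexAt := ix, mem_baseSet_at := hix
      coordChange := fun a b x v => c a b x * v
      coordChange_self := fun a x hx v => by
        rw [mul_eq_right.1 (h2 a a a x hx hx hx), one_mul]
      continuousOn_coordChange := fun a b q hq =>
        ((continuousAt_const.congr (Filter.EventuallyEq.symm (h1 a b q.1 hq.1.1 hq.1.2))).comp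
          continuousAt_fst |>.mul continuousAt_snd).continuousWithinAt
      coordChange_comp := fun a b e x hx v => by
        rw [← mul_assoc, h2 a b e x hx.1.1 hx.1.2 hx.2] }
  obtain ⟨x₀⟩ : Nonempty B := inferInstance
  obtain ⟨σ, ⟨-, hσ⟩, -⟩ := (IsFiberBundle.isCoveringMap (f := Z.proj) fun x =>
    ⟨Z.localTrivAt x, Z.mem_localTrivAt_baseSet x⟩).existsUnique_continuousMap_lifts
      (ContinuousMap.id B) x₀ ⟨x₀, (1 : D)⟩ rfl
  have e : ∀ x, (σ x).1 = x := congrFun hσ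
  refine ⟨fun a x => (Z.localTriv a (σ x)).2, fun a x hx => ?_, fun a b x ha hb => ?_⟩
  · have h := continuousAt_snd.comp (((Z.localTriv a).continuousAt
      ((Z.mem_localTriv_source a _).2 (by rwa [e]))).comp σ.continuous.continuousAt)
    exact h.eventually (p := fun v => v = _) (by rw [nhds_discrete]; exact rfl)
  · show c _ b _ * _ = c a b x * (c _ a _ * _)
    rw [← mul_assoc, e, h2 _ a b x (hix x) ha hb]

theorem split_lc (hW : IsOpen W) (hc : Convex ℝ W) (hO : ∀ a, IsOpen (O a))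
    (h0 : ∀ x ∈ W, ∃ a, x ∈ O a)
    (h1 : ∀ a b, ∀ x ∈ W, x ∈ O a → x ∈ O b → ‖g a b x‖ = 1 ∧ ∀ᶠ y in 𝓝 x, g a b y = g a b x)
    (h2 : ∀ a b c, ∀ x ∈ W, x ∈ O a → x ∈ O b → x ∈ O c → g b c x * g a b x = g a c x) :
    ∃ s : κ → F → ℂ, (∀ a, ∀ x ∈ W, x ∈ O a → ‖s a x‖ = 1 ∧ ∀ᶠ y in 𝓝 x, s a y = s a x) ∧
      ∀ a b, ∀ x ∈ W, x ∈ O a → x ∈ O b → s b x = g a b x * s a x := by
  rcases W.eq_empty_or_nonempty with rfl | hne
  · exact ⟨0, by simp, by simp⟩
  have := hc.contractibleSpace hne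
  have := hW.locallyPathConnectedSpace
  have e : ∀ a b (x : W), x.1 ∈ O a → x.1 ∈ O b →
      (Circle.exp (Complex.arg (g a b x)) : ℂ) = g a b x := fun a b x ha hb => by
    simpa [(h1 a b x x.2 ha hb).1] using Complex.norm_mul_exp_arg_mul_I (g a b x)
  obtain ⟨s, k1, k2⟩ := bf8_lift (O := fun a => ((↑) : W → F) ⁻¹' O a)
    (c := fun a b x => Circle.exp (Complex.arg (g a b x)))
    (fun a => (hO a).preimage continuous_subtype_val) (fun x => h0 x x.2)
    (fun a b x ha hb => (continuous_subtype_val.continuousAt.eventually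
      (h1 a b x x.2 ha hb).2).mono fun y hy => by rw [hy])
    fun a b c x ha hb hc => Circle.ext (by
      rw [Circle.coe_mul, e b c x hb hc, e a b x ha hb, e a c x ha hc, h2 a b c x x.2 ha hb hc])
  classical
  refine ⟨fun a x => if h : x ∈ W then s a ⟨x, h⟩ else 0, fun a x hx ha => ⟨by simp [hx], ?_⟩,
    fun a b x hx ha hb => ?_⟩
  · rw [← hW.isOpenEmbedding_subtypeVal.map_nhds_eq ⟨x, hx⟩, eventually_map]
    exact (k1 a ⟨x, hx⟩ ha).mono fun y hy => by simp [hx, hy]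
  · simp only [dif_pos hx]
    rw [k2 a b ⟨x, hx⟩ ha hb, Circle.coe_mul, e a b ⟨x, hx⟩ ha hb]

theorem flat [FiniteDimensional ℝ F] (hW : IsOpen W) (hc : Convex ℝ W) (hO : ∀ a, IsOpen (O a))
    (h0 : ∀ x ∈ W, ∃ a, x ∈ O a) {A : Form1 F} {α : κ → Form1 F} {t : Form2 F}
    (hA : IsPrim W A t) (hα : ∀ a, IsPrim (W ∩ O a) (α a) t)
    (h1 : ∀ a b, ∀ x ∈ W, x ∈ O a → x ∈ O b → ‖g a b x‖ = 1 ∧ HasFDerivAt (g a b)
      ((2 * Real.pi * Complex.I * g a b x) • Complex.ofRealCLM.comp (α b x - α a x)) x)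
    (h2 : ∀ a b c, ∀ x ∈ W, x ∈ O a → x ∈ O b → x ∈ O c → g b c x * g a b x = g a c x) :
    ∃ s : κ → F → ℂ, (∀ a, ∀ x ∈ W, x ∈ O a → ‖s a x‖ = 1 ∧ HasFDerivAt (s a)
      ((2 * Real.pi * Complex.I * s a x) • Complex.ofRealCLM.comp (α a x - A x)) x) ∧
      ∀ a b, ∀ x ∈ W, x ∈ O a → x ∈ O b → s b x = g a b x * s a x := by
  have loc : ∀ x : W, ∃ (c : κ) (V : Set F) (f : F → ℝ), IsOpen V ∧ Convex ℝ V ∧ x.1 ∈ V ∧
      V ⊆ W ∩ O c ∧ ∀ y ∈ V, HasFDerivAt f (A y - α c y) y := fun x => by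
    obtain ⟨c, hx⟩ := h0 x x.2
    obtain ⟨r, hr, hs⟩ := Metric.isOpen_iff.1 (hW.inter (hO c)) x ⟨x.2, hx⟩
    refine ⟨c, ball x r, _, isOpen_ball, convex_ball _ _, mem_ball_self hr, hs, fun y hy =>
      CL.closed1_deriv (B := fun y => A y - α c y) isOpen_ball (convex_ball _ _)
        ⟨(hA.1.mono fun z hz => (hs hz).1).sub ((hα c).1.mono hs), fun z hz u v => ?_⟩
        (mem_ball_self hr) hy⟩
    have n := (hW.inter (hO c)).mem_nhds (hs hz)
    rw [fderiv_fun_sub ((hA.1.contDiffAt (hW.mem_nhds (hs hz).1)).differentiableAt (by simp))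
      (((hα c).1.contDiffAt n).differentiableAt (by simp))]
    simp only [sub_apply, Pi.zero_apply, zero_apply]
    linarith [hA.2 z (hs hz).1 u v, (hα c).2 z (hs hz) u v]
  choose c V f ho hv hm hs hf using loc
  let ex : ℝ → ℂ := fun r => Complex.exp (2 * Real.pi * Complex.I * r)
  have x1 : ∀ r, ‖ex r‖ = 1 := fun r => by
    simpa [ex, mul_assoc, mul_comm, mul_left_comm] using
      Complex.norm_exp_ofReal_mul_I (2 * Real.pi * r)
  have x2 : ∀ r r', ex (r + r') = ex r * ex r' := fun r r' => by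
    simp [ex, mul_add, Complex.exp_add]
  have x3 : ∀ {a b : κ} {u : F → ℝ} {u' : F →L[ℝ] ℝ} {y : F} (k : ℂ), y ∈ W → y ∈ O a → y ∈ O b →
      HasFDerivAt u u' y → HasFDerivAt (fun z => g a b z * ex (u z) * k)
        ((2 * Real.pi * Complex.I * (g a b y * ex (u y) * k)) •
          Complex.ofRealCLM.comp (α b y - α a y + u')) y := fun {a b u u' y} k hy ha hb hu => by
    refine (((h1 a b y hy ha hb).2.mul (((Complex.ofRealCLM.hasFDerivAt.comp y hu).const_mul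
      (2 * Real.pi * Complex.I)).cexp)).mul_const k).congr_fderiv ?_
    ext v
    simp [ex]
    ring
  obtain ⟨k, k1, k2⟩ := split_lc (O := V)
    (g := fun p q y => g (c p) (c q) y * ex (f q y - f p y) * 1) hW hc ho
    (fun x hx => ⟨⟨x, hx⟩, hm _⟩) (fun p q x hx hp hq => ⟨by
      simp [x1, (h1 _ _ x hx (hs p hp).2 (hs q hq).2).1], by
      have hd := fun y (hy : y ∈ V p ∩ V q) => x3 1 (hs p hy.1).1 (hs p hy.1).2 (hs q hy.2).2
        ((hf q y hy.2).sub (hf p y hy.1))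
      filter_upwards [((ho p).inter (ho q)).mem_nhds ⟨hp, hq⟩] with y hy
      exact ((ho p).inter (ho q)).is_const_of_fderiv_eq_zero ((hv p).inter (hv q)).isPreconnected
        (fun z hz => (hd z hz).differentiableAt.differentiableWithinAt)
        (fun z hz => by rw [(hd z hz).fderiv]; ext v; simp) hy ⟨hp, hq⟩⟩)
    fun p q r x hx hp hq hr => by
      rw [← h2 _ _ _ x hx (hs p hp).2 (hs q hq).2 (hs r hr).2,
        ← sub_add_sub_cancel (f r x) (f q x) (f p x), x2]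
      ring
  classical
  refine ⟨fun a x => if h : x ∈ W then g (c ⟨x, h⟩) a x * ex (-f ⟨x, h⟩ x) * k ⟨x, h⟩ x else 0,
    fun a x hx ha => ?_, fun a b x hx ha hb => ?_⟩
  · have hp := hm ⟨x, hx⟩
    simp only [dif_pos hx]
    refine ⟨by simp [x1, (h1 _ _ x hx (hs _ hp).2 ha).1, (k1 _ x hx hp).1], ?_⟩
    refine ((x3 (k ⟨x, hx⟩ x) hx (hs _ hp).2 ha (hf _ x hp).neg).congr_fderiv
      (by congr 2; abel)).congr_of_eventuallyEq ?_
    filter_upwards [(ho _).mem_nhds hp, (hO a).mem_nhds ha, (k1 _ x hx hp).2] with y hy hy' e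
    have hW' := (hs _ hy).1
    have hq := hm ⟨y, hW'⟩
    rw [dif_pos hW', ← e, k2 _ _ y hW' hq hy, ← h2 _ _ a y hW' (hs _ hq).2 (hs _ hy).2 hy',
      show -f ⟨y, hW'⟩ y = -f ⟨x, hx⟩ y + (f ⟨x, hx⟩ y - f ⟨y, hW'⟩ y) by ring, x2]
    simp only [Pi.neg_apply]
    ring
  · simp only [dif_pos hx]
    rw [← h2 _ a b x hx (hs _ (hm ⟨x, hx⟩)).2 ha hb]
    ring

end Pool.Agent.BF
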