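import Pool.Agent.P.MP_63735c_ag.BPDefs
import Pool.Agent.P.MP_c4558b_ag.NLHol

/-! Objects of part A (not in any statement). -/

open scoped ComplexOrder ContDiff Matrix Topology ENNReal
open Set Metric MeasureTheory Filter

namespace Pool.Agent.BP

open Pool.Agent.SPF Pool.Agent.AB Pool.Agent.CK Pool.Agent.SE Pool.Agent.NL

variable {N n : ℕ} {X : Type} [TopologicalSpace X]

/-- A function on `X` given in charts. -/
noncomputable def gl (A : Atlas X N) {F : Type} (f : A.ι → E N → F) (x : X) : F :=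
  f (A.cover x).choose (A.cover x).choose_spec.choose

theorem gl_eq {A : Atlas X N} {F : Type} {f : A.ι → E N → F} {x : X} {c : F}
    (h : ∀ j, ∀ y ∈ (A.C j).W, A.p j y = x → f j y = c) : gl A f x = c :=
  h _ _ (A.cover x).choose_spec.choose_spec.1 (A.cover x).choose_spec.choose_spec.2

/-- Sections that separate a family of tori. -/
structure Sec {A : Atlas X N} (L : Line A) (n : ℕ) where
  T : Set (E n)
  Ψ : E n × E n → X
  m : ℕ
  s : Fin (n + 1) → A.ι → E N → ℂ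
  T_open : IsOpen T
  T_ne : T.Nonempty
  unif : A.IsUnif T Ψ
  fib : IsFibred Ψ T
  m_pos : 1 ≤ m
  sec : ∀ l, L.IsSection m (s l)
  sep : ∀ b ∈ T, ∀ τ j, ∀ y ∈ (A.C j).W, A.p j y = Ψ (b, τ) → s 0 j y ≠ 0 ∧
    ∀ b' ∈ T, ∀ τ' j', ∀ y' ∈ (A.C j').W, A.p j' y' = Ψ (b', τ') →
      ((∀ l, s l j y / s 0 j y = s l j' y' / s 0 j' y') ↔ b = b')

variable {A : Atlas X N}

/-- The squared norm of a section. -/
noncomputable def nrm (L : Line A) (m : ℕ) (s : A.ι → E N → ℂ) : X → ℝ :=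
  gl A fun i z => ‖s i z‖ ^ 2 * Real.exp (-(m * L.ψ i z))

/-- The covariant derivative of a section. -/
noncomputable def cov1 (m : ℕ) (ψ : E N → ℝ) (s : E N → ℂ) (z : E N) : E N :=
  fun a => dz a s z - m * s z * dr ψ z a

namespace Sec

variable {L : Line A} (S : Sec L n)

/-- Where the first section does not vanish. -/
def U : Set X := {x | nrm L S.m (S.s 0) x ≠ 0}

/-- The weight. -/
noncomputable def φ (x : X) : ℝ := -Real.log (nrm L S.m (S.s 0) x)

/-- The quotients of the sections. -/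
noncomputable def g : X → E n := gl A fun i z l => S.s l.succ i z / S.s 0 i z

/-- The Gram matrix of the Hamiltonian fields. -/
noncomputable def h (K : Form11 A) : X → Mat n :=
  gl A fun i z => (Vf A S.g i z)ᵀ * K.h i z * (Vf A S.g i z).map star

end Sec

/-- The Hamiltonian fields as a linear map. -/
noncomputable def Vl (A : Atlas X N) (g : X → E n) (i : A.ι) (z : E N) : E n →L[ℂ] E N :=
  LinearMap.toContinuousLinearMap (Vf A g i z).mulVecLin

theorem Vl_apply (g : X → E n) (i : A.ι) (z : E N) (τ : E n) : Vl A g i z τ = Vf A g i z *ᵥ τ :=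
  rfl

/-- A holomorphic map on the open set `U`. -/
structure HolU (A : Atlas X N) (U : Set X) (g : X → E n) : Prop where
  inj : ∀ i, InjOn (A.p i) (A.C i).W
  U_open : IsOpen U
  g_hol : ∀ i, ∀ z ∈ (A.C i).W, A.p i z ∈ U → DifferentiableAt ℂ (fun w => g (A.p i w)) z

/-- Commuting Hamiltonians with a proper invariant function. -/
structure Ham (A : Atlas X N) (U : Set X) (g : X → E n) (φ : X → ℝ) : Prop extends HolU A U g where
  φ_smooth : ∀ i, ∀ z ∈ (A.C i).W, A.p i z ∈ U → ContDiffAt ℝ ∞ (fun w => φ (A.p i w)) z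
  φ_cpt : ∀ c, IsCompact {x | x ∈ U ∧ φ x ≤ c}
  poi : ∀ i, ∀ z ∈ (A.C i).W, A.p i z ∈ U → Jg A g i z * Vf A g i z = 0
  inv : ∀ i, ∀ z ∈ (A.C i).W, A.p i z ∈ U → dr (fun w => φ (A.p i w)) z ᵥ* Vf A g i z = 0

/-- Near `t`, `Φ` is an integral manifold of the Hamiltonian fields. -/
def Sol (A : Atlas X N) (U : Set X) (g : X → E n) (Φ : E n → X) (t : E n) : Prop :=
  ∃ (i : A.ι) (f : E n → E N), ∀ᶠ s in 𝓝 t,
    f s ∈ (A.C i).W ∧ A.p i (f s) ∈ U ∧ A.p i (f s) = Φ s ∧ HasFDerivAt f (Vl A g i (f s)) s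

/-- The action. -/
structure Flow (A : Atlas X N) (U : Set X) (g : X → E n) (Φ : X → E n → X) : Prop where
  zero : ∀ x ∈ U, Φ x 0 = x
  sol : ∀ x ∈ U, ∀ t, Sol A U g (Φ x) t

theorem HolU.isOpen {U : Set X} {g : X → E n} (h : HolU A U g) (i : A.ι) :
    IsOpen ((A.C i).W ∩ A.p i ⁻¹' U) :=
  (A.cont i).isOpen_inter_preimage (A.C i).isOpen h.U_open

theorem HolU.ev {U : Set X} {g : X → E n} (h : HolU A U g) {i : A.ι} {z : E N}
    (hz : z ∈ (A.C i).W) (hU : A.p i z ∈ U) : ∀ᶠ w in 𝓝 z, w ∈ (A.C i).W ∧ A.p i w ∈ U :=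
  (h.isOpen i).mem_nhds ⟨hz, hU⟩

end Pool.Agent.BP
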