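import Pool.Agent.P.MP_63735c_ag.BPA0
import Pool.Agent.P.MP_63735c_ag.SPReg
import Pool.Agent.P.MP_63735c_ag.SPSys

/-! Hamiltonian fields: change of charts, holomorphy, commutation. -/

open scoped ComplexOrder ContDiff Matrix Topology ENNReal
open Set Metric MeasureTheory Filter

namespace Pool.Agent.BP

open Pool.Agent.SPF Pool.Agent.AB Pool.Agent.CK Pool.Agent.SE Pool.Agent.NL

variable {N n : ℕ} {X : Type} [TopologicalSpace X] {A : Atlas X N} {U : Set X} {g : X → E n}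
  {i j : A.ι} {z : E N}

theorem bpa2_ring {R : Type} [CommRing R] [Algebra ℂ R] (d : Fin N → Derivation ℂ R R)
    {σ : Fin N → Fin N → R} {u v a b : Fin N → R} (h1 : ∀ b c, σ b c = -σ c b)
    (h2 : ∀ b c e, d b (σ c e) + d c (σ e b) + d e (σ b c) = 0)
    (ha : ∀ e, a e = ∑ f, σ e f * u f) (hb : ∀ e, b e = ∑ f, σ e f * v f)
    (da : ∀ c e, d c (a e) = d e (a c)) (db : ∀ c e, d c (b e) = d e (b c))
    (h3 : ∑ c, b c * u c = 0) (e : Fin N) :
    ∑ f, σ e f * (∑ c, u c * d c (v f) - ∑ c, v c * d c (u f)) = 0 := by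
  have a1 : ∑ c, u c * d e (b c) =
      ∑ c, ∑ f, u c * v f * d c (σ e f) + ∑ f, σ e f * ∑ c, u c * d c (v f) := by
    simp only [db e, hb e, map_sum, Derivation.leibniz, smul_eq_mul, Finset.mul_sum]
    rw [Finset.sum_comm (f := fun f c => σ e f * (u c * d c (v f))), ← Finset.sum_add_distrib]
    refine Finset.sum_congr rfl fun c _ => ?_
    rw [← Finset.sum_add_distrib]
    exact Finset.sum_congr rfl fun f _ => by ring
  have a2 : ∑ f, v f * d e (a f) =
      ∑ c, ∑ f, u c * v f * d f (σ e c) + ∑ f, σ e f * ∑ c, v c * d c (u f) := by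
    simp only [da e, ha e, map_sum, Derivation.leibniz, smul_eq_mul, Finset.mul_sum]
    rw [Finset.sum_comm, ← Finset.sum_add_distrib]
    refine Finset.sum_congr rfl fun c _ => ?_
    rw [← Finset.sum_add_distrib]
    exact Finset.sum_congr rfl fun f _ => by ring
  have a3 : ∑ f, v f * d e (a f) =
      ∑ c, ∑ f, u c * v f * d e (σ f c) - ∑ c, b c * d e (u c) := by
    simp only [ha, hb, map_sum, Derivation.leibniz, smul_eq_mul, Finset.mul_sum, Finset.sum_mul]
    rw [Finset.sum_comm, ← Finset.sum_sub_distrib]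
    refine Finset.sum_congr rfl fun c _ => ?_
    rw [← Finset.sum_sub_distrib]
    exact Finset.sum_congr rfl fun f _ => by linear_combination v f * d e (u c) * h1 f c
  have a4 : ∑ c, u c * d e (b c) + ∑ c, b c * d e (u c) = 0 := by
    have := congrArg (d e) h3
    simp only [map_sum, Derivation.leibniz, smul_eq_mul, map_zero, Finset.sum_add_distrib] at this
    rwa [add_comm]
  have a5 : ∑ c, ∑ f, u c * v f * d c (σ e f) - ∑ c, ∑ f, u c * v f * d f (σ e c) +
      ∑ c, ∑ f, u c * v f * d e (σ f c) = 0 := by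
    simp only [← Finset.sum_sub_distrib, ← Finset.sum_add_distrib]
    refine Finset.sum_eq_zero fun c _ => Finset.sum_eq_zero fun f _ => ?_
    have := h2 e f c
    rw [h1 c e, map_neg] at this
    linear_combination u c * v f * this
  simp only [mul_sub, Finset.sum_sub_distrib]
  linear_combination a4 - a1 + a2 - a3 - a5

theorem bpa2_σ (g : X → E n) (hz : z ∈ (A.C i).W) (τ : E n) :
    (A.C i).σ z *ᵥ (Vf A g i z *ᵥ τ) = (Jg A g i z)ᵀ *ᵥ τ := by
  rw [Matrix.mulVec_mulVec, Vf, Matrix.mul_nonsing_inv_cancel_left _ _ ((A.C i).σ_det z hz).isUnit]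

theorem HolU.Jg_law (h : HolU A U g) {O : Set (E N)} {φ : E N → E N}
    (hc : IsChange (A.C i) (A.C j) O φ) (he : ∀ w ∈ O, A.p j (φ w) = A.p i w) (hz : z ∈ O)
    (hU : A.p i z ∈ U) : Jg A g i z = Jg A g j (φ z) * jac φ z := by
  have hz' := hc.isOpen.mem_nhds hz
  have e : (fun w => g (A.p i w)) =ᶠ[𝓝 z] (fun w => g (A.p j w)) ∘ φ := by
    filter_upwards [hz'] with w hw
    rw [Function.comp_apply, he w hw]
  rw [Jg, Jg, ← lin3_jac_comp (h.g_hol j _ (hc.maps hz) (by rwa [he z hz]))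
    (hc.hol.differentiableAt hz')]
  simp only [jac, e.fderiv_eq]

theorem HolU.Vf_law (h : HolU A U g) {O : Set (E N)} {φ : E N → E N}
    (hc : IsChange (A.C i) (A.C j) O φ) (he : ∀ w ∈ O, A.p j (φ w) = A.p i w) (hz : z ∈ O)
    (hU : A.p i z ∈ U) : Vf A g j (φ z) = jac φ z * Vf A g i z := by
  have u : IsUnit (jac φ z).det := by
    have := (A.C i).σ_det z (hc.sub hz)
    rw [hc.σ_eq z hz, Matrix.det_mul] at this
    exact (right_ne_zero_of_mul this).isUnit
  have u' : IsUnit (jac φ z)ᵀ.det := by rwa [Matrix.det_transpose]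
  rw [Vf, Vf, h.Jg_law hc he hz hU, hc.σ_eq z hz, Matrix.mul_inv_rev, Matrix.mul_inv_rev,
    Matrix.transpose_mul, Matrix.mul_assoc, Matrix.mul_nonsing_inv_cancel_left _ _ u,
    Matrix.mul_assoc, Matrix.nonsing_inv_mul_cancel_left _ _ u']

theorem HolU.Jg_hol (h : HolU A U g) (i : A.ι) (l : Fin n) (a : Fin N) :
    DifferentiableOn ℂ (fun w => Jg A g i w l a) ((A.C i).W ∩ A.p i ⁻¹' U) := by
  exact jac_hol (h.isOpen i) (fun w hw => (h.g_hol i w hw.1 hw.2).differentiableWithinAt) l a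

theorem HolU.Vf_hol (h : HolU A U g) (i : A.ι) (a : Fin N) (l : Fin n) :
    DifferentiableOn ℂ (fun w => Vf A g i w a l) ((A.C i).W ∩ A.p i ⁻¹' U) := by
  simp only [Vf, Matrix.mul_apply, Matrix.transpose_apply]
  exact DifferentiableOn.fun_sum fun b _ =>
    (((A.C i).π_hol a b).mono inter_subset_left).mul (h.Jg_hol i l b)

theorem HolU.Vl_hol (h : HolU A U g) (i : A.ι) :
    DifferentiableOn ℂ (Vl A g i) ((A.C i).W ∩ A.p i ⁻¹' U) := by
  have e : Vl A g i = fun w => ∑ a, ∑ l, Vf A g i w a l •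
      (ContinuousLinearMap.proj l : E n →L[ℂ] ℂ).smulRight (Pi.single a 1 : E N) := by
    funext w
    ext1 τ
    funext b
    simp [Vl_apply, Matrix.mulVec, dotProduct, Finset.sum_apply, Pi.single_apply]
  rw [e]
  exact DifferentiableOn.fun_sum fun a _ => DifferentiableOn.fun_sum fun l _ =>
    (h.Vf_hol i a l).smul_const _

theorem σ_Vf (g : X → E n) (hz : z ∈ (A.C i).W) (u : E N) (τ : E n) :
    u ⬝ᵥ (A.C i).σ z *ᵥ (Vf A g i z *ᵥ τ) = (Jg A g i z *ᵥ u) ⬝ᵥ τ := by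
  rw [bpa2_σ g hz, dotProduct_comm, Matrix.mulVec_transpose, ← Matrix.dotProduct_mulVec,
    dotProduct_comm]

theorem HolU.comm (h : HolU A U g)
    (hp : ∀ z ∈ (A.C i).W, A.p i z ∈ U → Jg A g i z * Vf A g i z = 0) (hz : z ∈ (A.C i).W)
    (hU : A.p i z ∈ U) (s t : E n) :
    fderiv ℂ (Vl A g i) z (Vl A g i z s) t = fderiv ℂ (Vl A g i) z (Vl A g i z t) s := by
  let O : TopologicalSpace.Opens (E N) := ⟨_, h.isOpen i⟩
  have hV : ∀ τ c, DifferentiableOn ℂ (fun w => (Vf A g i w *ᵥ τ) c) O := fun τ c =>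
    DifferentiableOn.fun_sum (u := Finset.univ) fun l _ => (h.Vf_hol i c l).mul_const (τ l)
  have hg : ∀ l, DifferentiableOn ℂ (fun w => g (A.p i w) l) O := fun l w hw =>
    (differentiableAt_pi.1 (h.g_hol i w hw.1 hw.2) l).differentiableWithinAt
  have hσ : ∀ a b, DifferentiableOn ℂ (fun w => (A.C i).σ w a b) O := fun a b =>
    ((A.C i).σ_hol a b).mono inter_subset_left
  let u : E n → Fin N → Sm O := fun τ c => Sm.mkH _ (hV τ c)
  let a : E n → Fin N → Sm O := fun τ e => ∑ l, τ l • Sm.d e (Sm.mkH _ (hg l))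
  let σ : Fin N → Fin N → Sm O := fun b c => Sm.mkH _ (hσ b c)
  have eu : ∀ τ c (y : O), Sm.ev y (u τ c) = (Vf A g i y *ᵥ τ) c := fun _ _ _ => rfl
  have eσ : ∀ b c (y : O), Sm.ev y (σ b c) = (A.C i).σ y b c := fun _ _ _ => rfl
  have ea : ∀ τ e (y : O), Sm.ev y (a τ e) = ((Jg A g i y)ᵀ *ᵥ τ) e := fun τ e y => by
    simp only [a, map_sum, map_smul, (Sm.rep_mkH _ (hg _)).d e y, smul_eq_mul]
    refine Finset.sum_congr rfl fun l _ => ?_
    rw [(dz_of_diff ((hg l).differentiableAt (O.isOpen.mem_nhds y.2)) e).1,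
      fderiv_apply (h.g_hol i y y.2.1 y.2.2), mul_comm]
    rfl
  have h1 : ∀ τ e, a τ e = ∑ f, σ e f * u τ f := fun τ e => by
    ext y
    rw [ea, ← bpa2_σ g y.2.1, map_sum]
    rfl
  have h2 : ∀ τ c e, Sm.d c (a τ e) = Sm.d e (a τ c) := fun τ c e => by
    simp only [a, map_sum, Derivation.map_smul, Sm.d_d c e]
  have key := bpa2_ring Sm.d (σ := σ) (fun b c => by
      ext y
      rw [map_neg, eσ, eσ]
      exact congrFun (congrFun ((A.C i).σ_skew y y.2.1) c) b) (fun b c e => by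
      ext y
      simp only [σ, map_add, (Sm.rep_mkH _ (hσ _ _)).d _ y, map_zero]
      exact (A.C i).σ_closed y y.2.1 b c e) (h1 s) (h1 t) (h2 s) (h2 t) (by
      ext y
      simp only [map_sum, map_mul, ea, eu, map_zero]
      change ((Jg A g i y)ᵀ *ᵥ t) ⬝ᵥ (Vf A g i y *ᵥ s) = 0
      rw [Matrix.mulVec_transpose, ← Matrix.dotProduct_mulVec, Matrix.mulVec_mulVec,
        hp y y.2.1 y.2.2, Matrix.zero_mulVec, dotProduct_zero])
  have hzO : (O : Set (E N)) ∈ 𝓝 z := O.isOpen.mem_nhds ⟨hz, hU⟩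
  have h3 : ∀ w τ e, fderiv ℂ (Vl A g i) z w τ e =
      ∑ c, w c * dz c (fun y => (Vf A g i y *ᵥ τ) e) z := fun w τ e =>
    (hasDerivAt_pi.1 (sys_gen ((h.Vl_hol i).differentiableAt hzO) w τ) e).unique
      (sys_fd ((hV τ e).differentiableAt hzO) w)
  refine sub_eq_zero.1 (Matrix.eq_zero_of_mulVec_eq_zero ((A.C i).σ_det z hz) (funext fun e => ?_))
  have h4 := congrArg (Sm.ev (⟨z, hz, hU⟩ : O)) (key e)
  simp only [u, map_sum, map_mul, map_sub, (Sm.rep_mkH _ (hV _ _)).d _ _, map_zero] at h4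
  simp only [Matrix.mulVec, dotProduct, Pi.sub_apply, h3]
  exact h4

end Pool.Agent.BP
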