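import Pool.Agent.P.MP_63735c_ag.BPDefs
import Pool.Agent.P.MP_63735c_ag.ABPU
import Pool.Agent.P.MP_63735c_ag.ABInt
import Pool.Agent.P.MP_63735c_ag.ABD
import Pool.Agent.P.MP_c4558b_ag.NLVol

/-! The divergence theorem for the symplectic volume. -/

open scoped ComplexOrder ContDiff Matrix Topology ENNReal
open Set Metric MeasureTheory Filter

namespace Pool.Agent.BP

open Pool.Agent.SPF Pool.Agent.AB Pool.Agent.CK Pool.Agent.SE Pool.Agent.NL

variable {N : ℕ} {X : Type} [TopologicalSpace X] [T2Space X] [CompactSpace X] [MeasurableSpace X]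
  [BorelSpace X] {A : Atlas X N} {μ : Measure X}

theorem bpt13_σ (C : Chart N) (a b : Fin N) : ContDiffOn ℝ ∞ (fun z => C.σ z a b) C.W :=
  (Lib.SCV.contDiffOn_of_differentiableOn C.isOpen (C.σ_hol a b)).restrict_scalars ℝ

theorem bpt13_nrm (C : Chart N) : ContDiffOn ℝ ∞ (fun z => ((‖(C.σ z).det‖ : ℝ) : ℂ)) C.W :=
  ofReal_smooth fun z hz =>
    (((abcal_det (bpt13_σ C)).contDiffAt (C.isOpen.mem_nhds hz)).norm ℝ
      (C.σ_det z hz)).contDiffWithinAt

theorem bpt13_neg {f : E N → ℂ} (z : E N) (a : Fin N) : dz a (fun w => -f w) z = -dz a f z := by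
  simp only [dz, fderiv_fun_neg, neg_apply]
  ring

theorem bpt13_skew {π : Mat N} (hπ : ∀ a b, π a b = -π b a) {S : Fin N → Fin N → ℂ}
    (hS : ∀ a b, S a b = S b a) : ∑ a, ∑ b, π b a * S a b = 0 := by
  have h : ∑ a, ∑ b, π b a * S a b = -∑ a, ∑ b, π b a * S a b := by
    conv_lhs => rw [Finset.sum_comm]
    simp only [← Finset.sum_neg_distrib]
    exact Finset.sum_congr rfl fun a _ => Finset.sum_congr rfl fun b _ => by
      rw [hπ a b, hS b a]
      ring
  linear_combination h / 2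

/-- The formula of Jacobi. -/
theorem bpt13_jac (C : Chart N) {z : E N} (hz : z ∈ C.W) (c : Fin N) :
    dz c (fun w => (C.σ w).det) z =
      (C.σ z).det * ∑ x, ∑ y, C.π z x y * dz c (fun w => C.σ w y x) z := by
  let O : TopologicalSpace.Opens (E N) := ⟨C.W, C.isOpen⟩
  let s : Matrix (Fin N) (Fin N) (Sm O) :=
    Matrix.of fun a b => Sm.mkH (fun z => C.σ z a b) (C.σ_hol a b)
  have hr : ∀ a b, (s a b).Rep fun w => C.σ w a b := fun a b =>
    Sm.rep_mkH (O := O) _ (C.σ_hol a b)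
  have h1 : (s.det).Rep fun w => (C.σ w).det := fun x => by
    rw [AlgHom.map_det]
    rfl
  have h2 : (C.σ z).adjugate = (C.σ z).det • C.π z := by
    rw [Chart.π, Matrix.inv_def, smul_smul, Ring.mul_inverse_cancel _ (C.σ_det z hz).isUnit,
      one_smul]
  rw [← h1.d c ⟨z, hz⟩, a3_der_det, map_sum, Finset.sum_comm, Finset.mul_sum]
  refine Finset.sum_congr rfl fun i _ => ?_
  have h3 : (Sm.ev (O := O) ⟨z, hz⟩).mapMatrix (s.updateRow i fun j => Sm.d c (s i j)) =
      (C.σ z).updateRow i fun j => dz c (fun w => C.σ w i j) z := by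
    ext a b
    rw [AlgHom.mapMatrix_apply, Matrix.map_apply, Matrix.updateRow_apply, Matrix.updateRow_apply]
    split_ifs
    · exact (hr i b).d c ⟨z, hz⟩
    · exact hr a b ⟨z, hz⟩
  rw [AlgHom.map_det, h3, ← Matrix.cramer_transpose_apply, Matrix.cramer_eq_adjugate_mulVec,
    ← Matrix.adjugate_transpose, h2, Finset.mul_sum]
  simp only [Matrix.mulVec, dotProduct, Matrix.transpose_apply, Matrix.smul_apply, smul_eq_mul,
    mul_assoc]

theorem bpt13_dnrm (C : Chart N) {z : E N} (hz : z ∈ C.W) (c : Fin N) :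
    2 * dz c (fun w => ((‖(C.σ w).det‖ : ℝ) : ℂ)) z =
      (‖(C.σ z).det‖ : ℝ) * ∑ x, ∑ y, C.π z x y * dz c (fun w => C.σ w y x) z := by
  have hn := diffAt C.isOpen (bpt13_nrm C) hz
  have hD := diffAt C.isOpen (abcal_det (bpt13_σ C)) hz
  have hh : DifferentiableAt ℂ (fun w => (C.σ w).det) z :=
    ((reg_det (𝕜 := ℂ) fun a b => Lib.SCV.contDiffOn_of_differentiableOn C.isOpen
      (C.σ_hol a b)).contDiffAt (C.isOpen.mem_nhds hz)).differentiableAt (by simp)
  have e : (fun w => ((‖(C.σ w).det‖ : ℝ) : ℂ) * ((‖(C.σ w).det‖ : ℝ) : ℂ)) =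
      fun w => (C.σ w).det * star (C.σ w).det := by
    funext w
    rw [Complex.star_def, Complex.mul_conj, Complex.normSq_eq_norm_sq]
    push_cast
    ring
  have h1 := (dz_mul hn hn c).1
  rw [e, (dz_mul hD (ablev_star hD) c).1, ← (star_dz _ z c).2, (dz_of_diff hh c).2, star_zero,
    mul_zero, add_zero, bpt13_jac C hz] at h1
  have h2 := congrFun e z
  have h3 : ((‖(C.σ z).det‖ : ℝ) : ℂ) ≠ 0 :=
    Complex.ofReal_ne_zero.2 (norm_ne_zero_iff.2 (C.σ_det z hz))
  refine mul_left_cancel₀ h3 ?_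
  linear_combination -h1 - (∑ x, ∑ y, C.π z x y * dz c (fun w => C.σ w y x) z) * h2

theorem bpt13_dπ (C : Chart N) {z : E N} (hz : z ∈ C.W) (c a b : Fin N) :
    dz c (fun w => C.π w a b) z =
      -∑ x, ∑ y, C.π z a x * dz c (fun w => C.σ w x y) z * C.π z y b := by
  let P : Mat N := Matrix.of fun a b => dz c (fun w => C.π w a b) z
  let S : Mat N := Matrix.of fun a b => dz c (fun w => C.σ w a b) z
  have h1 : P * C.σ z = -(C.π z * S) := by
    ext a b
    have e : (fun w => ∑ x, C.π w a x * C.σ w x b) =ᶠ[𝓝 z] fun _ => (1 : Mat N) a b := by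
      filter_upwards [C.isOpen.mem_nhds hz] with w hw
      rw [← Chart.π_mul_σ hw, Matrix.mul_apply]
    have h2 := (dz_congr e c).self_of_nhds
    have d1 := fun x => diffAt C.isOpen (C.reg_π a x) hz
    have d2 := fun x => diffAt C.isOpen (bpt13_σ C x b) hz
    rw [(dz_const c _).1, (dz_sum _ (fun x _ => (d1 x).fun_mul (d2 x)) c).1] at h2
    simp only [fun x => (dz_mul (d1 x) (d2 x) c).1, Finset.sum_add_distrib] at h2
    rw [Matrix.neg_apply, Matrix.mul_apply, Matrix.mul_apply]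
    exact eq_neg_of_add_eq_zero_left h2
  have h2 : P = -(C.π z * (S * C.π z)) := by
    rw [← Matrix.mul_assoc, ← Matrix.neg_mul, ← h1, Matrix.mul_assoc, Chart.σ_mul_π hz,
      Matrix.mul_one]
  have h3 := congrFun (congrFun h2 a) b
  simp only [Matrix.neg_apply, Matrix.mul_apply, Finset.mul_sum] at h3
  simp only [mul_assoc]
  exact h3

theorem div_pi (C : Chart N) {z : E N} (hz : z ∈ C.W) (b : Fin N) :
    ∑ a, dz a (fun w => (C.σ w)⁻¹ b a * (‖(C.σ w).det‖ : ℝ)) z = 0 := by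
  have hs : ∀ c x y, dz c (fun w => C.σ w x y) z = -dz c (fun w => C.σ w y x) z := by
    intro c x y
    rw [← bpt13_neg]
    refine (dz_congr ?_ c).self_of_nhds
    filter_upwards [C.isOpen.mem_nhds hz] with w hw
    exact congrFun (congrFun (C.σ_skew w hw) y) x
  have ht : ∀ c, ∑ x, ∑ y, C.π z x y * dz c (fun w => C.σ w y x) z =
      2 * ∑ x, ∑ y, C.π z x y * dz y (fun w => C.σ w c x) z := by
    intro c
    rw [two_mul]
    conv_rhs => arg 2; rw [Finset.sum_comm]
    simp only [← Finset.sum_add_distrib]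
    refine Finset.sum_congr rfl fun x _ => Finset.sum_congr rfl fun y _ => ?_
    rw [Chart.π_skew hz y x]
    linear_combination C.π z x y * C.σ_closed z hz c y x - C.π z x y * hs y x c
  have h1 : ∀ a, dz a (fun w => (C.σ w)⁻¹ b a * (‖(C.σ w).det‖ : ℝ)) z =
      (‖(C.σ z).det‖ : ℝ) * (C.π z b a * ∑ x, ∑ y, C.π z x y * dz y (fun w => C.σ w a x) z -
        ∑ x, ∑ y, C.π z b x * dz a (fun w => C.σ w x y) z * C.π z y a) := by
    intro a
    have h2 := bpt13_dnrm C hz a
    rw [ht] at h2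
    refine (dz_mul (diffAt C.isOpen (C.reg_π b a) hz) (diffAt C.isOpen (bpt13_nrm C) hz)
      a).1.trans ?_
    rw [bpt13_dπ C hz]
    linear_combination C.π z b a / 2 * h2
  simp only [h1]
  rw [← Finset.mul_sum, Finset.sum_sub_distrib, a5_cyc fun a x y =>
    C.π z b x * dz a (fun w => C.σ w x y) z * C.π z y a, a5_cyc fun a x y =>
    C.π z b y * dz x (fun w => C.σ w y a) z * C.π z a x]
  refine mul_eq_zero_of_right _ (sub_eq_zero.2 (Finset.sum_congr rfl fun a _ => ?_))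
  simp only [Finset.mul_sum]
  exact Finset.sum_congr rfl fun x _ => Finset.sum_congr rfl fun y _ => by ring

/-- The contraction of the derivative of a form with the Poisson tensor. -/
noncomputable def bpt13_dv (C : Chart N) (β : E N → E N) (z : E N) : ℂ :=
  ∑ a, ∑ b, (C.σ z)⁻¹ b a * dz a (fun w => β w b) z

theorem bpt13_inv {C C' : Chart N} {O : Set (E N)} {φ : E N → E N} (h : IsChange C C' O φ)
    {β β' : E N → E N} (hβ' : ContDiffOn ℝ ∞ β' C'.W)
    (he : ∀ z ∈ O, β z = β' (φ z) ᵥ* jac φ z) {z : E N} (hz : z ∈ O) :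
    bpt13_dv C β z = bpt13_dv C' β' (φ z) := by
  have hn := h.isOpen.mem_nhds hz
  have hφ := h.lin3_diff hz
  have d1 : ∀ c, DifferentiableAt ℝ (fun w => β' w c) (φ z) := fun c =>
    diffAt C'.isOpen (contDiffOn_pi.1 hβ' c) (h.maps hz)
  have d2 : ∀ c, DifferentiableAt ℝ (fun w => β' (φ w) c) z := fun c =>
    (d1 c).comp z (hφ.restrictScalars ℝ)
  have d3 : ∀ c b, DifferentiableAt ℝ (fun w => jac φ w c b) z := fun c b =>
    ((jac_hol h.isOpen h.hol c b).differentiableAt hn).restrictScalars ℝ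
  have hj : ∀ c b, (fun w => jac φ w c b) =ᶠ[𝓝 z] dz b fun w => φ w c := fun c b => by
    filter_upwards [hn] with w hw
    have h1 := (h.lin3_diff hw).hasFDerivAt
    rw [(dz_of_diff (hasFDerivAt_pi'.1 h1 c).differentiableAt b).1,
      (hasFDerivAt_pi'.1 h1 c).fderiv]
    rfl
  have hs : ∀ c a b, dz a (fun w => jac φ w c b) z = dz b (fun w => jac φ w c a) z := by
    intro c a b
    rw [(dz_congr (hj c b) a).self_of_nhds, (dz_congr (hj c a) b).self_of_nhds]
    exact (ablev_comm ((contDiffOn_pi.1 (smooth_of_hol h.isOpen h.hol) c).contDiffAt hn) a b).2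
  have h1 : ∀ a b, dz a (fun w => β w b) z =
      ∑ c, ((∑ e, jac φ z e a * dz e (fun w => β' w c) (φ z)) * jac φ z c b +
        β' (φ z) c * dz a (fun w => jac φ w c b) z) := by
    intro a b
    have e : (fun w => β w b) =ᶠ[𝓝 z] fun w => ∑ c, β' (φ w) c * jac φ w c b := by
      filter_upwards [hn] with w hw
      rw [he w hw]
      rfl
    rw [(dz_congr e a).self_of_nhds, (dz_sum _ (fun c _ => (d2 c).fun_mul (d3 c b)) a).1]
    refine Finset.sum_congr rfl fun c _ => ?_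
    rw [(dz_mul (d2 c) (d3 c b) a).1, (dz_comp (d1 c) hφ a).1]
  have h2 : C'.π (φ z) = jac φ z * C.π z * (jac φ z)ᵀ := by
    have h3 : (jac φ z)ᵀ * (C'.σ (φ z) * jac φ z * C.π z) = 1 := by
      rw [← Chart.σ_mul_π (h.sub hz), h.σ_eq z hz]
      simp only [Matrix.mul_assoc]
    refine Matrix.inv_eq_right_inv ?_
    rw [← mul_eq_one_comm.1 h3]
    simp only [Matrix.mul_assoc]
  have h3 : ∑ a, ∑ b, C.π z b a * ∑ c, β' (φ z) c * dz a (fun w => jac φ w c b) z = 0 :=
    bpt13_skew (Chart.π_skew (h.sub hz)) fun a b => by simp only [hs _ a b]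
  change ∑ a, ∑ b, C.π z b a * _ = ∑ e, ∑ c, C'.π (φ z) c e * _
  simp only [h1, Finset.sum_add_distrib, mul_add]
  rw [h3, add_zero, h2]
  simp only [Matrix.mul_apply, Matrix.transpose_apply, Finset.mul_sum, Finset.sum_mul]
  refine (a3_comm4 _).trans ((a3_comm4 _).trans (Finset.sum_comm.trans ?_))
  exact Finset.sum_congr rfl fun e _ => Finset.sum_congr rfl fun c _ =>
    Finset.sum_congr rfl fun a _ => Finset.sum_congr rfl fun b _ => by ring

theorem bpt13_smooth (C : Chart N) {β : E N → E N} (hβ : ContDiffOn ℝ ∞ β C.W) :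
    ContDiffOn ℝ ∞ (bpt13_dv C β) C.W :=
  ContDiffOn.sum fun a _ => ContDiffOn.sum fun b _ =>
    (C.reg_π b a).mul (dz_smooth C.isOpen (contDiffOn_pi.1 hβ b) a).1

omit [T2Space X] [CompactSpace X] [MeasurableSpace X] [BorelSpace X] in
theorem div_exists (hinj : ∀ i, InjOn (A.p i) (A.C i).W) {β : A.ι → E N → E N} (hβ : Is10 A β) :
    ∃ u : X → ℂ, Continuous u ∧ ∀ i, ∀ z ∈ (A.C i).W, u (A.p i z) =
      ∑ a, ∑ b, ((A.C i).σ z)⁻¹ b a * dz a (fun w => β i w b) z := by
  choose c y hy hp using A.cover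
  have key : ∀ i, ∀ z ∈ (A.C i).W, bpt13_dv (A.C (c (A.p i z))) (β (c (A.p i z))) (y (A.p i z)) =
      bpt13_dv (A.C i) (β i) z := by
    intro i z hz
    obtain ⟨O, φ, h1, h2, h3, h4⟩ := A.trans i _ z hz _ (hy (A.p i z)) (hp _).symm
    rw [bpt13_inv h1 (hβ.1 _) (hβ.2 _ _ O φ h1 h4) h2, h3]
  refine ⟨fun x => bpt13_dv (A.C (c x)) (β (c x)) (y x), ?_, key⟩
  have h1 := Man.contOn (D := man A hinj isOpen_univ)
    (w := fun x => bpt13_dv (A.C (c x)) (β (c x)) (y x)) fun i =>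
      ((bpt13_smooth _ (hβ.1 i)).continuousOn.congr (key i)).mono inter_subset_left
  rwa [man_M, continuousOn_univ] at h1

theorem bpt13_int (C : Chart N) {β : E N → E N} (hβ : ContDiffOn ℝ ∞ β C.W) {K : Set (E N)}
    (hK : IsCompact K) (hKW : K ⊆ C.W) (h0 : ∀ z ∈ C.W, z ∉ K → β z = 0) :
    ∫ z in C.W, ‖(C.σ z).det‖ • bpt13_dv C β z = 0 := by
  have s1 : ∀ a b, ContDiffOn ℝ ∞ (fun w => (C.σ w)⁻¹ b a * (‖(C.σ w).det‖ : ℝ)) C.W :=
    fun a b => (C.reg_π b a).mul (bpt13_nrm C)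
  have s2 : ∀ b, ContDiffOn ℝ ∞ (fun w => β w b) C.W := contDiffOn_pi.1 hβ
  have s3 : ∀ a, ContDiffOn ℝ ∞
      (fun w => ∑ b, (C.σ w)⁻¹ b a * (‖(C.σ w).det‖ : ℝ) * β w b) C.W :=
    fun a => ContDiffOn.sum fun b _ => (s1 a b).mul (s2 b)
  have z3 : ∀ a, ∀ w ∈ C.W, w ∉ K →
      ∑ b, (C.σ w)⁻¹ b a * (‖(C.σ w).det‖ : ℝ) * β w b = 0 := fun a w hw hw' => by
    simp [h0 w hw hw']
  have he : EqOn (fun z => ‖(C.σ z).det‖ • bpt13_dv C β z) (fun z => ∑ a, dz a
      (fun w => ∑ b, (C.σ w)⁻¹ b a * (‖(C.σ w).det‖ : ℝ) * β w b) z) C.W := by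
    intro z hz
    have d1 := fun a b => diffAt C.isOpen (s1 a b) hz
    have d2 := fun b => diffAt C.isOpen (s2 b) hz
    have h1 : ∑ a, ∑ b, dz a (fun w => (C.σ w)⁻¹ b a * (‖(C.σ w).det‖ : ℝ)) z * β z b = 0 := by
      rw [Finset.sum_comm]
      simp only [← Finset.sum_mul, div_pi C hz, zero_mul, Finset.sum_const_zero]
    simp only [fun a => (dz_sum Finset.univ (fun b _ => (d1 a b).fun_mul (d2 b)) a).1,
      fun a b => (dz_mul (d1 a b) (d2 b) a).1, Finset.sum_add_distrib, h1, zero_add, bpt13_dv,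
      Complex.real_smul, Finset.mul_sum]
    exact Finset.sum_congr rfl fun a _ => Finset.sum_congr rfl fun b _ => by ring
  rw [setIntegral_congr_fun C.isOpen.measurableSet he, integral_finsetSum]
  · exact Finset.sum_eq_zero fun a _ => (int_dz C.isOpen hK hKW (s3 a) (z3 a) a).1
  · exact fun a _ => intOn C.isOpen hK hKW (dz_smooth C.isOpen (s3 a) a).1.continuousOn
      fun z hz hz' => (dz_zero_off C.isOpen hK.isClosed (z3 a) a z hz hz').1

theorem div_zero (hinj : ∀ i, InjOn (A.p i) (A.C i).W) (hμ : IsVolume A μ)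
    {β : A.ι → E N → E N} (hβ : Is10 A β) {u : X → ℂ}
    (hu : ∀ i, ∀ z ∈ (A.C i).W, u (A.p i z) =
      ∑ a, ∑ b, ((A.C i).σ z)⁻¹ b a * dz a (fun w => β i w b) z) : ∫ x, u x ∂μ = 0 := by
  have := vol_finite hμ
  let D := man A hinj isOpen_univ
  have hW : ∀ i, D.W i = (A.C i).W := fun i => inter_univ _
  obtain ⟨m, c, τ, h1, -, h3⟩ := Man.exists_pu (D := D) (θ := fun _ => 1)
    ⟨fun _ => contDiffOn_const, univ, isCompact_univ, man_M.ge, fun x hx => (hx trivial).elim⟩
    fun _ => zero_le_one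
  let T : Fin m → X → ℂ := fun k x => (D.ext (c k) (τ k) x : ℝ)
  have hT : ∀ k i, ContDiffOn ℝ ∞ (fun z => T k (A.p i z)) (A.C i).W := fun k i =>
    hW i ▸ (Man.ext_S (h1 k)).ofReal.1 i
  have hk : ∀ k, Is10 A fun i z => T k (A.p i z) • β i z := fun k =>
    ⟨fun i => (hT k i).smul (hβ.1 i), fun i j O φ a1 a2 z hz => by
      simp only [hβ.2 i j O φ a1 a2 z hz, a2 z hz, Matrix.smul_vecMul]⟩
  choose v hv hv' using fun k => div_exists hinj (hk k)
  have hsum : u = fun x => ∑ k, v k x := by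
    funext x
    obtain ⟨i, z, hz, rfl⟩ := A.cover x
    simp only [hu i z hz, hv' _ i z hz]
    symm
    rw [Finset.sum_comm]
    refine Finset.sum_congr rfl fun a _ => ?_
    rw [Finset.sum_comm]
    refine Finset.sum_congr rfl fun b _ => ?_
    rw [← Finset.mul_sum, ← (dz_sum _ (fun k _ =>
      diffAt (A.C i).isOpen (contDiffOn_pi.1 ((hk k).1 i) b) hz) a).1]
    congr 2
    funext w
    simp only [Pi.smul_apply, smul_eq_mul, ← Finset.sum_mul, T, ← Complex.ofReal_sum, ← h3,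
      Complex.ofReal_one, one_mul]
  let Ψ : A.ι → E N → ℝ := fun i z => -Real.log ‖((A.C i).σ z).det‖
  have hw : ∀ i, ∀ z ∈ (A.C i).W, wt (Ψ i) z = ‖((A.C i).σ z).det‖ := by
    intro i z hz
    simp only [wt, Ψ, neg_neg]
    exact Real.exp_log (norm_pos_iff.2 ((A.C i).σ_det z hz))
  have hd : D.Den μ Ψ := fun i S hS hm =>
    (hμ i S (hS.trans inter_subset_left) hm).trans (setLIntegral_congr_fun hm fun z hz => by
      rw [hw i z (hS hz).1, ofReal_norm])
  rw [hsum, integral_finsetSum _ fun k _ =>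
    (hv k).integrable_of_hasCompactSupport (HasCompactSupport.of_compactSpace _)]
  refine Finset.sum_eq_zero fun k _ => ?_
  have h0 : ∀ z ∈ D.W (c k), z ∉ tsupport (τ k) → τ k z = 0 := fun z _ hz =>
    image_eq_zero_of_notMem_tsupport hz
  have hc := (Man.cpt_img (D := D) (h1 k).cpt.isCompact (h1 k).sub).1.isClosed
  rw [hd.int_supp (i := c k) (fun z hz =>
    (abd_det _ hz.1).1.continuousAt.neg.continuousWithinAt), hW,
    ← bpt13_int (A.C (c k)) ((hk k).1 _) (h1 k).cpt.isCompact (hW _ ▸ (h1 k).sub)]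
  · refine setIntegral_congr_fun (A.C (c k)).isOpen.measurableSet fun z hz => ?_
    simp only [hw _ z hz]
    exact congrArg _ (hv' k _ z hz)
  · intro z hz hz'
    have : T k (A.p (c k) z) = 0 := by
      simp only [T]
      rw [show A.p (c k) z = D.p (c k) z from rfl, Man.ext_apply (hW _ ▸ hz),
        h0 z (hW _ ▸ hz) hz', Complex.ofReal_zero]
    exact (congrArg (· • β (c k) z) this).trans (zero_smul _ _)
  · intro x hx
    obtain ⟨i, z, hz, rfl⟩ := A.cover x
    have h4 : ∀ᶠ w in 𝓝 z, A.p i w ∉ D.p (c k) '' tsupport (τ k) :=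
      (A.cont i).continuousAt ((A.C i).isOpen.mem_nhds hz)
        (hc.isOpen_compl.mem_nhds fun a => hx (image_mono (h1 k).sub a))
    rw [hv' k i z hz]
    refine Finset.sum_eq_zero fun a _ => Finset.sum_eq_zero fun b _ => ?_
    have e : (fun w => (T k (A.p i w) • β i w) b) =ᶠ[𝓝 z] fun _ => 0 := by
      filter_upwards [h4] with w hw
      simp only [T, Man.ext_zero h0 hw, Complex.ofReal_zero, zero_smul, Pi.zero_apply]
    rw [(dz_congr e a).self_of_nhds, (dz_const a 0).1, mul_zero]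

theorem lap_zero (hinj : ∀ i, InjOn (A.p i) (A.C i).W) (hμ : IsVolume A μ) {f : X → ℝ}
    (hf : ∀ i, ContDiffOn ℝ ∞ (fun z => f (A.p i z)) (A.C i).W) :
    ∃ u : X → ℂ, Continuous u ∧ ∫ x, u x ∂μ = 0 ∧ ∀ i, ∀ z ∈ (A.C i).W,
      u (A.p i z) = ∑ a, ∑ b, (A.C i).G z a b * lev (fun w => f (A.p i w)) z a b := by
  let F : A.ι → E N → ℂ := fun i w => f (A.p i w)
  have hF : ∀ i, ContDiffOn ℝ ∞ (F i) (A.C i).W := fun i => ofReal_smooth (hf i)
  let β : A.ι → E N → E N := fun i z => (A.C i).η z *ᵥ (((A.C i).π z)ᴴ *ᵥ db (F i) z)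
  have hb : ∀ i z c, β i z c =
      ∑ e, (A.C i).η z c e * ∑ b, star ((A.C i).π z b e) * dzb b (F i) z := fun i z c => rfl
  have s1 : ∀ i b e, ContDiffOn ℝ ∞ (fun z => star ((A.C i).π z b e)) (A.C i).W :=
    fun i b e => reg_star ((A.C i).reg_π b e)
  have s2 : ∀ i b, ContDiffOn ℝ ∞ (dzb b (F i)) (A.C i).W := fun i b =>
    (dz_smooth (A.C i).isOpen (hF i) b).2
  have s3 : ∀ i e, ContDiffOn ℝ ∞
      (fun z => ∑ b, star ((A.C i).π z b e) * dzb b (F i) z) (A.C i).W :=
    fun i e => ContDiffOn.sum fun b _ => (s1 i b e).mul (s2 i b)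
  have hβ : Is10 A β := by
    refine ⟨fun i => contDiffOn_pi.2 fun c => ?_, fun i j O φ h a2 z hz => ?_⟩
    · simp only [hb]
      exact ContDiffOn.sum fun e _ => ((A.C i).η_smooth c e).mul (s3 i e)
    · have h2 : (A.C j).π (φ z) = jac φ z * (A.C i).π z * (jac φ z)ᵀ := by
        have h3 : (jac φ z)ᵀ * ((A.C j).σ (φ z) * jac φ z * (A.C i).π z) = 1 := by
          rw [← Chart.σ_mul_π (h.sub hz), h.σ_eq z hz]
          simp only [Matrix.mul_assoc]
        refine Matrix.inv_eq_right_inv ?_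
        rw [← mul_eq_one_comm.1 h3]
        simp only [Matrix.mul_assoc]
      have e : F i =ᶠ[𝓝 z] fun w => F j (φ w) := by
        filter_upwards [h.isOpen.mem_nhds hz] with w hw
        simp only [F, a2 w hw]
      have h4 : db (F i) z = (jac φ z)ᴴ *ᵥ db (F j) (φ z) := by
        rw [(db_congr e).self_of_nhds, db_comp (diffAt (A.C j).isOpen (hF j) (h.maps hz))
          (h.lin3_diff hz), ← Matrix.mulVec_transpose]
        rfl
      simp only [β]
      rw [h4, h2, h.η_eq z hz, ← Matrix.mulVec_transpose, IsChange.lin3_star,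
        Matrix.conjTranspose_mul, Matrix.conjTranspose_mul]
      simp only [Matrix.mulVec_mulVec, Matrix.mul_assoc]
  obtain ⟨u, h1, h2⟩ := div_exists hinj hβ
  refine ⟨fun x => -u x, h1.neg, by rw [integral_neg, div_zero hinj hμ hβ h2, neg_zero],
    fun i z hz => ?_⟩
  have ho := (A.C i).isOpen
  have h3 : ∀ a c, dz a (fun w => β i w c) z = ∑ e, (dz a (fun w => (A.C i).η w c e) z *
      (∑ b, star ((A.C i).π z b e) * dzb b (F i) z) + (A.C i).η z c e *
      ∑ b, star ((A.C i).π z b e) * lev (fun w => f (A.p i w)) z a b) := by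
    intro a c
    have d1 := fun e => diffAt ho ((A.C i).η_smooth c e) hz
    have d2 := fun e => diffAt ho (s3 i e) hz
    have d3 := fun b e => diffAt ho (s1 i b e) hz
    have d4 := fun b => diffAt ho (s2 i b) hz
    simp only [hb]
    rw [(dz_sum _ (fun e _ => (d1 e).fun_mul (d2 e)) a).1]
    refine Finset.sum_congr rfl fun e _ => ?_
    rw [(dz_mul (d1 e) (d2 e) a).1, (dz_sum _ (fun b _ => (d3 b e).fun_mul (d4 b)) a).1]
    congr 2
    refine Finset.sum_congr rfl fun b _ => ?_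
    rw [(dz_mul (d3 b e) (d4 b) a).1, ← (star_dz _ z a).2, (dz_of_diff
      (((A.C i).π_hol b e).differentiableAt (ho.mem_nhds hz)) a).2, star_zero, zero_mul, zero_add,
      lev_apply]
  have h4 : ∑ a, ∑ c, (A.C i).π z c a * ∑ e, dz a (fun w => (A.C i).η w c e) z *
      (∑ b, star ((A.C i).π z b e) * dzb b (F i) z) = 0 :=
    bpt13_skew (Chart.π_skew hz) fun a c => by simp only [(A.C i).η_closed z hz c _ a]
  refine (congrArg Neg.neg (h2 i z hz)).trans ?_
  change -∑ a, ∑ c, (A.C i).π z c a * _ = _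
  simp only [h3, Finset.sum_add_distrib, mul_add]
  rw [h4, zero_add, ← Finset.sum_neg_distrib]
  refine Finset.sum_congr rfl fun a _ => ?_
  simp only [Chart.G, Matrix.mul_apply, Matrix.conjTranspose_apply, Finset.mul_sum,
    Finset.sum_mul, ← Finset.sum_neg_distrib]
  refine Finset.sum_comm.trans ((Finset.sum_congr rfl fun e _ => Finset.sum_comm).trans
    (Finset.sum_comm.trans ?_))
  exact Finset.sum_congr rfl fun b _ => Finset.sum_congr rfl fun e _ =>
    Finset.sum_congr rfl fun c _ => by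
      rw [Chart.π_skew hz c a]
      ring

end Pool.Agent.BP
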