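import Pool.Agent.P.MP_63735c_ag.BPA1
import Pool.Agent.P.MP_63735c_ag.BPA2
import Pool.Agent.P.MP_63735c_ag.ABT1

/-! The quotients of the sections commute, and the Gram matrix of their fields. -/

open scoped ComplexOrder ContDiff Matrix Topology ENNReal
open Set Metric MeasureTheory Filter

namespace Pool.Agent.BP

open Pool.Agent.SPF Pool.Agent.AB Pool.Agent.CK Pool.Agent.SE Pool.Agent.NL

variable {N n : ℕ} {X : Type} [TopologicalSpace X] {A : Atlas X N} {L : Line A} {i : A.ι}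
  {z : E N}

theorem null_iso {T : Set (E n)} {Ψ : E n × E n → X} (hinj : ∀ i, InjOn (A.p i) (A.C i).W)
    (h : A.IsUnif T Ψ) {w : E n × E n} (hw : w.1 ∈ T) (hz : z ∈ (A.C i).W) (he : A.p i z = Ψ w)
    {u v : E N} (hu : u ᵥ* (A.C i).η z = 0) (hv : v ᵥ* (A.C i).η z = 0) :
    u ⬝ᵥ (A.C i).σ z *ᵥ v = 0 := by
  obtain ⟨j, O, f, -, hwO, -, H⟩ := h w hw
  obtain ⟨hW, hp, -, hnull, hσ⟩ := H w hwO
  obtain ⟨O', φ, hc, hzO, hφ, -⟩ := A.trans i j z hz (f w) hW (he.trans hp.symm)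
  have key : ∀ u : E N, u ᵥ* (A.C i).η z = 0 → ∃ τ, fderiv ℂ f w (0, τ) = jac φ z *ᵥ u := by
    intro u hu
    refine (hnull _).1 ?_
    rw [hc.η_eq z hzO, hφ, ← Matrix.vecMul_vecMul, ← Matrix.vecMul_vecMul,
      Matrix.vecMul_transpose] at hu
    exact Matrix.eq_zero_of_vecMul_eq_zero (hc.lin3_star_unit hzO).ne_zero hu
  obtain ⟨τ, hτ⟩ := key u hu
  obtain ⟨τ', hτ'⟩ := key v hv
  have h0 := hσ 0 τ τ'
  rw [hτ, hτ', zero_dotProduct] at h0
  rw [hc.σ_eq z hzO, hφ, ← Matrix.mulVec_mulVec, ← Matrix.mulVec_mulVec, Matrix.dotProduct_mulVec,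
    Matrix.vecMul_transpose]
  exact h0

lemma bpa4_glue [T2Space X] {U : Set X} (hU : IsOpen U) (hc : IsPreconnected U)
    (f : A.ι → E N → ℂ)
    (law : ∀ i j O φ, IsChange (A.C i) (A.C j) O φ → (∀ w ∈ O, A.p j (φ w) = A.p i w) →
      ∀ z ∈ O, A.p i z ∈ U → f j (φ z) = f i z)
    (hol : ∀ i, DifferentiableOn ℂ (f i) ((A.C i).W ∩ A.p i ⁻¹' U))
    {j : A.ι} {y : E N} (hy : y ∈ (A.C j).W) (hyU : A.p j y ∈ U)
    (h0 : ∀ᶠ w in 𝓝 y, w ∈ (A.C j).W → A.p j w ∈ U → f j w = 0) :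
    ∀ i, ∀ z ∈ (A.C i).W, A.p i z ∈ U → f i z = 0 := by
  have hu : ∀ i, ∀ z ∈ (A.C i).W, A.p i z ∈ U → gl A f (A.p i z) = f i z := fun i z hz hz' =>
    gl_eq fun k x hx he => by
      obtain ⟨O, φ, hφ, hzO, rfl, he'⟩ := A.trans i k z hz x hx he.symm
      exact law i k O φ hφ he' z hzO hz'
  have hh : HolOn A U (gl A f) := fun i => (hol i).congr fun z hz => hu i z hz.1 hz.2
  have ho := (A.cont j).isOpen_inter_preimage (A.C j).isOpen hU
  obtain ⟨O, hO, hOo, hyO⟩ := _root_.eventually_nhds_iff.1 h0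
  have h1 : ∀ᶠ x in 𝓝 (A.p j y), gl A f x = 0 := by
    filter_upwards [(A.opn j (O ∩ ((A.C j).W ∩ A.p j ⁻¹' U)) (hOo.inter ho)
      fun w hw => hw.2.1).mem_nhds ⟨y, ⟨hyO, hy, hyU⟩, rfl⟩]
    rintro _ ⟨w, hw, rfl⟩
    rw [hu j w hw.2.1 hw.2.2]
    exact hO w hw.1 hw.2.1 hw.2.2
  intro i z hz hz'
  rw [← hu i z hz hz']
  exact ident_on hU hc hh hyU h1 _ hz'

lemma bpa4_hol (S : Sec L n) (hinj : ∀ i, InjOn (A.p i) (A.C i).W) (i : A.ι)
    (h1 : ∀ z ∈ (A.C i).W, A.p i z ∈ S.U → (Vf A S.g i z)ᵀ * (A.C i).η z = 0) (l : Fin n) :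
    DifferentiableOn ℂ (fun z => (dr (fun w => S.φ (A.p i w)) z ᵥ* Vf A S.g i z) l)
      ((A.C i).W ∩ A.p i ⁻¹' S.U) := by
  intro z hz
  have hH := S.holU hinj
  have hs : ContDiffAt ℝ ∞ (fun w => ((S.φ (A.p i w) : ℝ) : ℂ)) z :=
    Complex.ofRealCLM.contDiff.contDiffAt.comp z (S.φ_smooth hz.1 hz.2)
  have d1 : ∀ a, DifferentiableAt ℝ (dz a fun w => ((S.φ (A.p i w) : ℝ) : ℂ)) z := fun a =>
    (ablev_dz hs a).1.differentiableAt (by simp)
  have d2 : ∀ a, DifferentiableAt ℂ (fun w => Vf A S.g i w a l) z := fun a =>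
    (hH.Vf_hol i a l).differentiableAt ((hH.isOpen i).mem_nhds hz)
  have d3 : ∀ a, DifferentiableAt ℝ
      (fun w => dz a (fun w => ((S.φ (A.p i w) : ℝ) : ℂ)) w * Vf A S.g i w a l) z := fun a =>
    (d1 a).mul ((d2 a).restrictScalars ℝ)
  refine DifferentiableAt.differentiableWithinAt ?_
  show DifferentiableAt ℂ
    (fun w => ∑ a, dz a (fun w => ((S.φ (A.p i w) : ℝ) : ℂ)) w * Vf A S.g i w a l) z
  refine diff_of_dzb (DifferentiableAt.fun_sum fun a _ => d3 a) fun c => ?_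
  rw [(dz_sum _ (fun a _ => d3 a) c).2]
  have e : ∀ a, dzb c (fun w => dz a (fun w => ((S.φ (A.p i w) : ℝ) : ℂ)) w *
      Vf A S.g i w a l) z = S.m * (Vf A S.g i z a l * (A.C i).η z a c) := fun a => by
    rw [(dz_mul (d1 a) ((d2 a).restrictScalars ℝ) c).2, (dz_of_diff (d2 a) c).2,
      ← (ablev_comm hs a c).1, ← lev_apply, S.φ_lev hz.1 hz.2, Matrix.smul_apply, smul_eq_mul]
    ring
  have h0 : ∑ a, Vf A S.g i z a l * (A.C i).η z a c = 0 :=
    congrFun (congrFun (h1 z hz.1 hz.2) l) c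
  rw [Finset.sum_congr rfl fun a _ => e a, ← Finset.mul_sum, h0, mul_zero]

theorem Sec.ham [T2Space X] [CompactSpace X] [PreconnectedSpace X] (S : Sec L n)
    (hinj : ∀ i, InjOn (A.p i) (A.C i).W)
    (h1 : ∀ i, ∀ z ∈ (A.C i).W, A.p i z ∈ S.U → (Vf A S.g i z)ᵀ * (A.C i).η z = 0)
    (h2 : ∀ i, ∀ z ∈ (A.C i).W, A.p i z ∈ S.U →
      (((A.C i).σ z)⁻¹ *ᵥ dr (fun w => S.φ (A.p i w)) z) ᵥ* (A.C i).η z = 0) :
    Ham A S.U S.g S.φ := by
  have hH := S.holU hinj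
  obtain ⟨b, hb⟩ := S.T_ne
  obtain ⟨j, y, hy, he⟩ := A.cover (S.Ψ (b, 0))
  have hyU : A.p j y ∈ S.U := he ▸ S.tube_mem hb 0
  obtain ⟨χ, hχ⟩ := unif_inv S.unif S.T_open hy (w := (b, 0)) hb he
  have hV : ∀ w ∈ (A.C j).W, A.p j w ∈ S.U → ∀ τ,
      (Vf A S.g j w *ᵥ τ) ᵥ* (A.C j).η w = 0 := fun w hw hw' τ => by
    rw [← Matrix.vecMul_transpose, Matrix.vecMul_vecMul, h1 j w hw hw', Matrix.vecMul_zero]
  refine ⟨hH, fun i z hz hU => S.φ_smooth hz hU, S.φ_cpt, fun i z hz hU => ?_,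
    fun i z hz hU => ?_⟩
  · ext l k
    refine bpa4_glue S.U_open S.U_conn (fun i z => (Jg A S.g i z * Vf A S.g i z) l k)
      (fun i j O φ hc he z hz hU => ?_) (fun i => ?_) hy hyU ?_ i z hz hU
    · rw [hH.Jg_law hc he hz hU, hH.Vf_law hc he hz hU, Matrix.mul_assoc]
    · simp only [Matrix.mul_apply]
      exact DifferentiableOn.fun_sum fun a _ => (hH.Jg_hol i l a).mul (hH.Vf_hol i a k)
    · filter_upwards [hχ] with w hw hw1 hw2
      have := null_iso hinj S.unif hw.2.1 hw1 hw.2.2.symm (hV w hw1 hw2 (Pi.single k 1))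
        (hV w hw1 hw2 (Pi.single l 1))
      rw [σ_Vf S.g hw1, Matrix.mulVec_mulVec, dotProduct_single_one,
        Matrix.mulVec_single_one] at this
      exact this
  · ext l
    refine bpa4_glue S.U_open S.U_conn
      (fun i z => (dr (fun w => S.φ (A.p i w)) z ᵥ* Vf A S.g i z) l)
      (fun i j O φ hc he z hz hU => ?_) (fun i => bpa4_hol S hinj i (h1 i) l) hy hyU ?_ i z hz hU
    · have e1 : (fun w => S.φ (A.p i w)) =ᶠ[𝓝 z] fun w => (fun x => S.φ (A.p j x)) (φ w) := by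
        filter_upwards [hc.isOpen.mem_nhds hz] with w hw
        rw [he w hw]
      have e2 := dr_comp ((S.φ_smooth (hc.maps hz) (by rwa [he z hz])).differentiableAt (by simp))
        (hc.hol.differentiableAt (hc.isOpen.mem_nhds hz))
      rw [(dr_congr e1).eq_of_nhds, e2, hH.Vf_law hc he hz hU, Matrix.vecMul_vecMul]
    · filter_upwards [hχ] with w hw hw1 hw2
      have := null_iso hinj S.unif hw.2.1 hw1 hw.2.2.symm (hV w hw1 hw2 (Pi.single l 1))
        (h2 j w hw1 hw2)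
      rw [Matrix.mulVec_mulVec, Matrix.mul_nonsing_inv _ ((A.C j).σ_det w hw1).isUnit,
        Matrix.one_mulVec, dotProduct_comm, Matrix.dotProduct_mulVec,
        dotProduct_single_one] at this
      exact this

theorem Sec.h_eq (S : Sec L n) (hinj : ∀ i, InjOn (A.p i) (A.C i).W) (K : Form11 A)
    (hz : z ∈ (A.C i).W) (hU : A.p i z ∈ S.U) :
    S.h K (A.p i z) = (Vf A S.g i z)ᵀ * K.h i z * (Vf A S.g i z).map star := by
  refine gl_eq fun j y hy he => ?_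
  obtain ⟨O, φ, hc, hzO, rfl, he'⟩ := A.trans i j z hz y hy he.symm
  have h1 : (jac φ z * Vf A S.g i z).map star = (jac φ z).map star * (Vf A S.g i z).map star :=
    Matrix.map_mul (f := starRingEnd ℂ)
  rw [(S.holU hinj).Vf_law hc he' hzO hU, K.compat i j O φ hc he' z hzO, h1, Matrix.transpose_mul]
  simp only [Matrix.mul_assoc]

/-- The numerators of the Hamiltonian fields. -/
noncomputable def bpa4_M (S : Sec L n) (i : A.ι) (z : E N) : Matrix (Fin N) (Fin n) ℂ :=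
  Matrix.of fun a l => ∑ b, (A.C i).π z a b *
    (S.s 0 i z * dz b (S.s l.succ i) z - S.s l.succ i z * dz b (S.s 0 i) z)

lemma bpa4_M_eq (S : Sec L n) (hz : z ∈ (A.C i).W) (hU : A.p i z ∈ S.U) :
    bpa4_M S i z = S.s 0 i z ^ 2 • Vf A S.g i z := by
  ext a l
  rw [bpa4_M, Matrix.of_apply, Vf, Matrix.smul_apply, Matrix.mul_apply, smul_eq_mul,
    Finset.mul_sum]
  refine Finset.sum_congr rfl fun b _ => ?_
  rw [← S.Jg_eq hz hU, Matrix.transpose_apply, Chart.π]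
  ring

lemma bpa4_M_cont (S : Sec L n) (i : A.ι) (a : Fin N) (l : Fin n) :
    ContinuousOn (fun z => bpa4_M S i z a l) (A.C i).W := by
  have h := fun l => (S.sec l).1 i
  have h' := fun l b => hol_dz (A.C i).isOpen (h l) b
  simp only [bpa4_M, Matrix.of_apply]
  exact continuousOn_finsetSum _ fun b _ => ((A.C i).π_hol a b).continuousOn.mul
    (((h 0).continuousOn.mul (h' _ b).continuousOn).sub
      ((h _).continuousOn.mul (h' 0 b).continuousOn))

theorem Sec.h_le [CompactSpace X] (S : Sec L n) (hinj : ∀ i, InjOn (A.p i) (A.C i).W)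
    (K : Form11 A) :
    ∃ C, ∀ x ∈ S.U, ∀ τ, hr (S.h K x) τ ≤ C * Real.exp (2 * S.φ x) * ‖τ‖ ^ 2 := by
  obtain ⟨C, -, hC⟩ := cpt_bound (A := A) (fun C i z => A.p i z ∈ S.U →
    ∀ τ, hr (S.h K (A.p i z)) τ ≤ C * Real.exp (2 * S.φ (A.p i z)) * ‖τ‖ ^ 2)
    (fun C C' i z h _ hQ hU τ => (hQ hU τ).trans (by gcongr))
    (fun C i j O φ _ he z hz hQ => by rwa [he z hz] at hQ) fun i z hz => by
      obtain ⟨r, hr0, hr⟩ := nhds_basis_closedBall.mem_iff.1 ((A.C i).isOpen.mem_nhds hz)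
      have hψ : ContinuousOn (fun w => ((Real.exp (-(S.m * L.ψ i w)) ^ 2 : ℝ) : ℂ)) (A.C i).W :=
        Complex.continuous_ofReal.comp_continuousOn ((Real.continuous_exp.comp_continuousOn
          (continuousOn_const.mul (L.ψ_smooth i).continuousOn).neg).pow 2)
      obtain ⟨B, -, hB⟩ := cpt_upper (isCompact_closedBall z r)
        (h := fun w => ((Real.exp (-(S.m * L.ψ i w)) ^ 2 : ℝ) : ℂ) •
          ((bpa4_M S i w)ᵀ * K.h i w * (bpa4_M S i w).map star)) fun a b => by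
        refine ContinuousOn.mono ?_ hr
        simp only [Matrix.smul_apply, Matrix.mul_apply, Matrix.transpose_apply, Matrix.map_apply,
          smul_eq_mul]
        exact hψ.mul (continuousOn_finsetSum _ fun c _ => (continuousOn_finsetSum _ fun d _ =>
          (bpa4_M_cont S i d a).mul (K.smooth i d c).continuousOn).mul (bpa4_M_cont S i c b).star)
      refine ⟨B, ?_⟩
      filter_upwards [closedBall_mem_nhds z hr0] with w hw hU τ
      have h1 := (Complex.re_le_norm _).trans (hB w hw τ τ).1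
      have h2 := S.φ_eq (hr hw) hU
      have h3 : S.s 0 i w ^ 2 * star (S.s 0 i w ^ 2) = ((‖S.s 0 i w‖ ^ 4 : ℝ) : ℂ) := by
        rw [Complex.star_def, Complex.mul_conj, Complex.normSq_eq_norm_sq, norm_pow]
        push_cast
        ring
      rw [hq_smul, hq_conj, bpa4_M_eq S (hr hw) hU, Matrix.smul_mulVec, hq_smul_left,
        hq_smul_right, ← mul_assoc (S.s 0 i w ^ 2), h3, Complex.re_ofReal_mul,
        Complex.re_ofReal_mul, ← hq_conj, ← S.h_eq hinj K (hr hw) hU] at h1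
      have h4 : Real.exp (2 * S.φ (A.p i w)) * Real.exp (-S.φ (A.p i w)) ^ 2 = 1 := by
        rw [← Real.exp_nat_mul, ← Real.exp_add]
        simp
      have h5 := mul_le_mul_of_nonneg_left h1 (Real.exp_pos (2 * S.φ (A.p i w))).le
      rw [h2] at h4
      calc _ = Real.exp (2 * S.φ (A.p i w)) * (Real.exp (-(S.m * L.ψ i w)) ^ 2 *
            (‖S.s 0 i w‖ ^ 4 * (hq (S.h K (A.p i w)) τ τ).re)) := by
            linear_combination -(hq (S.h K (A.p i w)) τ τ).re * h4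
        _ ≤ _ := h5
        _ = _ := by ring
  refine ⟨C, fun x hx => ?_⟩
  obtain ⟨i, z, hz, rfl⟩ := A.cover x
  exact hC i z hz hx

end Pool.Agent.BP
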