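import Pool.Agent.P.MP_63735c_ag.BPA2
import Pool.Agent.P.MP_63735c_ag.SPFlow2
import Pool.Agent.P.MP_63735c_ag.SPIdent

/-! The action of the Hamiltonian fields. -/

open scoped ComplexOrder ContDiff Matrix Topology ENNReal
open Set Metric MeasureTheory Filter

namespace Pool.Agent.BP

open Pool.Agent.SPF Pool.Agent.AB Pool.Agent.CK Pool.Agent.SE Pool.Agent.NL

variable {N n : ℕ} {X : Type} [TopologicalSpace X] {A : Atlas X N} {U : Set X} {g : X → E n}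
  {φ : X → ℝ} {Φ Ψ : E n → X} {t : E n}

theorem Sol.mem (h : Sol A U g Φ t) : Φ t ∈ U := by
  obtain ⟨i, f, hf⟩ := h
  exact hf.self_of_nhds.2.2.1 ▸ hf.self_of_nhds.2.1

theorem Sol.ev (h : Sol A U g Φ t) : ∀ᶠ s in 𝓝 t, Sol A U g Φ s := by
  obtain ⟨i, f, hf⟩ := h
  exact hf.eventually_nhds.mono fun s hs => ⟨i, f, hs⟩

theorem Sol.congr (h : Sol A U g Φ t) (e : Φ =ᶠ[𝓝 t] Ψ) : Sol A U g Ψ t := by
  obtain ⟨i, f, hf⟩ := h
  refine ⟨i, f, ?_⟩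
  filter_upwards [hf, e] with s hs he using ⟨hs.1, hs.2.1, hs.2.2.1.trans he, hs.2.2.2⟩

theorem Sol.lift (h : Sol A U g Φ t) : A.Lift Φ t := by
  obtain ⟨i, f, hf⟩ := h
  exact ⟨i, f, hf.mono fun s hs => ⟨hs.1, hs.2.2.2.differentiableAt, hs.2.2.1⟩⟩

theorem Sol.shift {τ : E n} (h : Sol A U g Φ (τ + t)) : Sol A U g (fun s => Φ (τ + s)) t := by
  obtain ⟨i, f, hf⟩ := h
  have hc : ContinuousAt (fun s => τ + s) t := by fun_prop
  refine ⟨i, fun s => f (τ + s), (hc.eventually hf).mono fun s hs =>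
    ⟨hs.1, hs.2.1, hs.2.2.1, ?_⟩⟩
  simpa using hs.2.2.2.comp s ((hasFDerivAt_id s).const_add τ)

theorem Sol.chart (hH : HolU A U g) (h : Sol A U g Φ t) {j : A.ι} {y : E N} (hy : y ∈ (A.C j).W)
    (e : A.p j y = Φ t) : ∃ f : E n → E N, f t = y ∧ ∀ᶠ s in 𝓝 t,
      f s ∈ (A.C j).W ∧ A.p j (f s) ∈ U ∧ A.p j (f s) = Φ s ∧ HasFDerivAt f (Vl A g j (f s)) s := by
  obtain ⟨i, f, hf⟩ := h
  have h0 := hf.self_of_nhds
  obtain ⟨O, c, h1, h2, h3, h4⟩ := A.trans i j _ h0.1 y hy (h0.2.2.1.trans e.symm)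
  refine ⟨fun s => c (f s), h3, ?_⟩
  filter_upwards [hf, h0.2.2.2.continuousAt.eventually (h1.isOpen.mem_nhds h2)] with s hs hO
  refine ⟨h1.maps hO, by rw [h4 _ hO]; exact hs.2.1, (h4 _ hO).trans hs.2.2.1, ?_⟩
  have h5 := (h1.hol.differentiableAt (h1.isOpen.mem_nhds hO)).hasFDerivAt.comp s hs.2.2.2
  refine h5.congr_fderiv (ContinuousLinearMap.ext fun τ => ?_)
  rw [Vl_apply, hH.Vf_law h1 h4 hO hs.2.1, ← Matrix.mulVec_mulVec, jac_mulVec]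
  rfl

theorem Sol.uniq (hH : HolU A U g) (h : Sol A U g Φ t) (h' : Sol A U g Ψ t) (e : Φ t = Ψ t) :
    Φ =ᶠ[𝓝 t] Ψ := by
  obtain ⟨i, f, hf⟩ := h
  have h0 := hf.self_of_nhds
  obtain ⟨f', e', hf'⟩ := h'.chart hH h0.1 (h0.2.2.1.trans e)
  have h1 := frob_unique (hH.isOpen i) (hH.Vl_hol i) e'.symm ⟨h0.1, h0.2.1⟩
    (hf.mono fun s hs => hs.2.2.2) (hf'.mono fun s hs => hs.2.2.2)
  filter_upwards [hf, hf', h1] with s a b c
  rw [← a.2.2.1, ← b.2.2.1, c]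

theorem sol_eq [T2Space X] (hH : HolU A U g) {Ω : Set (E n)} (hΩ : IsOpen Ω)
    (hc : IsPreconnected Ω) (h : ∀ s ∈ Ω, Sol A U g Φ s) (h' : ∀ s ∈ Ω, Sol A U g Ψ s)
    (ht : t ∈ Ω) (e : Φ t = Ψ t) : EqOn Φ Ψ Ω :=
  A.lift_ident hΩ hc (fun s hs => (h s hs).lift) (fun s hs => (h' s hs).lift) ht
    ((h t ht).uniq hH (h' t ht) e)

theorem Ham.const (hH : Ham A U g φ) (h : Sol A U g Φ t) :
    HasFDerivAt (fun s => φ (Φ s)) (0 : E n →L[ℝ] ℝ) t ∧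
      HasFDerivAt (fun s => g (Φ s)) (0 : E n →L[ℂ] E n) t := by
  obtain ⟨i, f, hf⟩ := h
  obtain ⟨h1, h2, -, h4⟩ := hf.self_of_nhds
  constructor
  · have h5 := (hH.φ_smooth i _ h1 h2).differentiableAt (by simp)
    have h6 := h5.hasFDerivAt.comp t (h4.restrictScalars ℝ)
    refine (h6.congr_fderiv (ContinuousLinearMap.ext fun τ => ?_)).congr_of_eventuallyEq
      (hf.mono fun s hs => congrArg φ hs.2.2.1.symm)
    have h7 : Vl A g i (f t) τ ⬝ᵥ dr (fun w => φ (A.p i w)) (f t) = 0 := by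
      rw [dotProduct_comm, Vl_apply, Matrix.dotProduct_mulVec, hH.inv i _ h1 h2, zero_dotProduct]
    have h8 := fderiv_eq_wirt (fun w => (φ (A.p i w) : ℂ)) (f t) (Vl A g i (f t) τ)
    rw [test_fderiv h5, Finset.sum_add_distrib] at h8
    have h9 : ∑ a, star (Vl A g i (f t) τ a) * dzb a (fun w => (φ (A.p i w) : ℂ)) (f t) =
        star (Vl A g i (f t) τ ⬝ᵥ dr (fun w => φ (A.p i w)) (f t)) := by
      rw [← star_db, dotProduct, star_sum]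
      exact Finset.sum_congr rfl fun a _ => by simp [db]
    rw [h9, h7, star_zero, add_zero] at h8
    exact Complex.ofReal_eq_zero.1 (h8.trans h7)
  · have h6 := (hH.g_hol i _ h1 h2).hasFDerivAt.comp t h4
    refine (h6.congr_fderiv (ContinuousLinearMap.ext fun τ => ?_)).congr_of_eventuallyEq
      (hf.mono fun s hs => congrArg g hs.2.2.1.symm)
    rw [ContinuousLinearMap.comp_apply, Vl_apply, ← jac_mulVec, Matrix.mulVec_mulVec]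
    exact (congrArg (· *ᵥ τ) (hH.poi i _ h1 h2)).trans (Matrix.zero_mulVec τ)

theorem Ham.loc (hH : Ham A U g φ) {i : A.ι} {z : E N} (hz : z ∈ (A.C i).W) (hU : A.p i z ∈ U) :
    ∃ (r δ : ℝ) (Fl : E N × E n → E N), 0 < r ∧ 0 < δ ∧ ball z r ⊆ (A.C i).W ∧
      DifferentiableOn ℂ Fl (ball z r ×ˢ ball 0 δ) ∧ ∀ y ∈ ball z r, Fl (y, 0) = y ∧
        ∀ t ∈ ball (0 : E n) δ, Fl (y, t) ∈ (A.C i).W ∧ A.p i (Fl (y, t)) ∈ U ∧
          HasFDerivAt (fun s => Fl (y, s)) (Vl A g i (Fl (y, t))) t ∧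
          Sol A U g (fun s => A.p i (Fl (y, s))) t := by
  obtain ⟨r, δ, Fl, hr, hδ, h1, h2⟩ := frob_family (hH.isOpen i) (hH.Vl_hol i)
    (fun y hy => hH.comm (hH.poi i) hy.1 hy.2) ⟨hz, hU⟩
  refine ⟨r, δ, Fl, hr, hδ, fun y hy => ?_, h1, fun y hy => ⟨(h2 y hy).1, fun t ht =>
    ⟨((h2 y hy).2 t ht).1.1, ((h2 y hy).2 t ht).1.2, ((h2 y hy).2 t ht).2, i,
      fun s => Fl (y, s), ?_⟩⟩⟩
  · exact (h2 y hy).1 ▸ ((h2 y hy).2 0 (mem_ball_self hδ)).1.1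
  · filter_upwards [isOpen_ball.mem_nhds ht] with s hs
    exact ⟨((h2 y hy).2 s hs).1.1, ((h2 y hy).2 s hs).1.2, rfl, ((h2 y hy).2 s hs).2⟩

theorem bpa5_unif (hH : Ham A U g φ) {C : Set X} (hC : IsCompact C) (h : C ⊆ U) :
    ∃ δ : ℝ, 0 < δ ∧ ∀ x ∈ C, ∃ Ψ : E n → X, Ψ 0 = x ∧ ∀ s ∈ ball (0 : E n) δ, Sol A U g Ψ s := by
  refine hC.induction_on (p := fun S => ∃ δ : ℝ, 0 < δ ∧ ∀ x ∈ S, ∃ Ψ : E n → X, Ψ 0 = x ∧
    ∀ s ∈ ball (0 : E n) δ, Sol A U g Ψ s) ⟨1, one_pos, fun _ hx => hx.elim⟩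
    (fun _ _ hs ⟨δ, h1, h2⟩ => ⟨δ, h1, fun x hx => h2 x (hs hx)⟩) ?_ fun x hx => ?_
  · rintro S S' ⟨δ, h1, h2⟩ ⟨δ', h1', h2'⟩
    refine ⟨min δ δ', lt_min h1 h1', ?_⟩
    rintro x (hx | hx)
    · exact (h2 x hx).imp fun _ a => ⟨a.1, fun s hs => a.2 s (ball_subset_ball (min_le_left _ _) hs)⟩
    · exact (h2' x hx).imp fun _ a =>
        ⟨a.1, fun s hs => a.2 s (ball_subset_ball (min_le_right _ _) hs)⟩
  · obtain ⟨i, z, hz, rfl⟩ := A.cover x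
    obtain ⟨r, δ, Fl, hr, hδ, h1, -, h2⟩ := hH.loc hz (h hx)
    refine ⟨A.p i '' ball z r, mem_nhdsWithin_of_mem_nhds
      ((A.opn i _ isOpen_ball h1).mem_nhds ⟨z, mem_ball_self hr, rfl⟩), δ, hδ, ?_⟩
    rintro _ ⟨y, hy, rfl⟩
    exact ⟨_, by rw [(h2 y hy).1], fun s hs => ((h2 y hy).2 s hs).2.2.2⟩

theorem Ham.exists_flow [T2Space X] (hH : Ham A U g φ) : ∃ Φ, Flow A U g Φ := by
  have key : ∀ x, ∃ Φ : E n → X, x ∈ U → Φ 0 = x ∧ ∀ t, Sol A U g Φ t := fun x => by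
    by_cases hx : x ∈ U
    swap
    · exact ⟨fun _ => x, fun h => (hx h).elim⟩
    obtain ⟨δ, hδ, h1⟩ := bpa5_unif hH (hH.φ_cpt (φ x)) fun _ h => h.1
    obtain ⟨Φ₀, e₀, h₀⟩ := h1 x ⟨hx, le_rfl⟩
    obtain ⟨Φ, h2, h3⟩ := continuation (Sol A U g) (fun _ _ _ e h => h.congr e)
      (fun _ _ _ _ a b c d e f => sol_eq hH.toHolU a b.isPreconnected c d e f.self_of_nhds) Φ₀
      (mem_of_superset (ball_mem_nhds 0 hδ) h₀) fun _ => ⟨δ, hδ, fun r _ Φ e hΦ t ht => by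
        have h4 : φ (Φ t) = φ (Φ 0) :=
          (convex_ball 0 r).is_const_of_fderivWithin_eq_zero (𝕜 := ℝ) (f := fun s => φ (Φ s))
            (fun s hs => (hH.const (hΦ s hs)).1.differentiableAt.differentiableWithinAt)
            (fun s hs => by
              rw [fderivWithin_of_isOpen isOpen_ball hs, (hH.const (hΦ s hs)).1.fderiv]) ht
            (mem_ball_self (pos_of_mem_ball ht))
        obtain ⟨Ψ, e1, h5⟩ := h1 (Φ t) ⟨(hΦ t ht).mem, by rw [h4, e, e₀]⟩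
        have h6 : ∀ s ∈ ball t δ, Sol A U g (fun u => Ψ (-t + u)) s := fun s hs =>
          (h5 _ (by rwa [mem_ball_zero_iff, neg_add_eq_sub, ← mem_ball_iff_norm])).shift
        exact ⟨_, h6, (h6 t (mem_ball_self hδ)).uniq hH.toHolU (hΦ t ht) (by simpa using e1)⟩⟩
    exact ⟨Φ, fun _ => ⟨h2.trans e₀, h3⟩⟩
  choose Φ hΦ using key
  exact ⟨Φ, fun x hx => (hΦ x hx).1, fun x hx => (hΦ x hx).2⟩

end Pool.Agent.BP
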