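import Pool.Agent.P.MP_63735c_ag.SPReg
import Pool.Agent.P.MP_63735c_ag.SPLin3

/-! Finite covers, comparison of minors in different charts. -/

open Set Filter Topology
open scoped ComplexOrder ContDiff Matrix

namespace Pool.Agent.SPF

variable {N n : ℕ} {X : Type} [TopologicalSpace X] {A : Atlas X N}

theorem Atlas.exists_cov [CompactSpace X] (A : Atlas X N) : Nonempty (Cov A) := by
  have h1 : ∀ x : X, ∃ (i : A.ι) (z : E N) (r : ℝ), 0 < r ∧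
      Metric.closedBall z (2 * r) ⊆ (A.C i).W ∧ A.p i z = x := by
    intro x
    obtain ⟨i, z, hz, hx⟩ := A.cover x
    obtain ⟨ε, hε, hb⟩ := Metric.isOpen_iff.1 (A.C i).isOpen z hz
    exact ⟨i, z, ε / 4, by positivity,
      (Metric.closedBall_subset_ball (by linarith)).trans hb, hx⟩
  choose i z r hr hW hx using h1
  have hsub : ∀ x, Metric.ball (z x) (r x) ⊆ Metric.closedBall (z x) (2 * r x) := fun x =>
    Metric.ball_subset_closedBall.trans (Metric.closedBall_subset_closedBall (by linarith [hr x]))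
  obtain ⟨t, ht⟩ := isCompact_univ.elim_finite_subcover
    (fun x => A.p (i x) '' Metric.ball (z x) (r x))
    (fun x => A.opn _ _ Metric.isOpen_ball ((hsub x).trans (hW x)))
    (fun x _ => mem_iUnion.2 ⟨x, z x, Metric.mem_ball_self (hr x), hx x⟩)
  let b : ∀ x, ContDiffBump (z x) := fun x => ⟨r x, 2 * r x, hr x, by linarith [hr x]⟩
  refine ⟨⟨t, inferInstance, fun α => i α, fun α => Metric.closedBall (z α) (2 * r α),
    fun α => b α, fun α => isCompact_closedBall _ _, fun α => hW α, fun α => (b α).contDiff,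
    fun α w => (b α).nonneg, fun α w => (b α).le_one, fun α w hw => ?_, fun x => ?_⟩⟩
  · have h2 : w ∈ Function.support (b α) := hw
    rw [ContDiffBump.support_eq] at h2
    exact Metric.ball_subset_closedBall h2
  · obtain ⟨y, hy, w, hw, rfl⟩ := mem_iUnion₂.1 (ht (mem_univ x))
    exact ⟨⟨y, hy⟩, w, hsub y hw, rfl,
      (b y).one_of_mem_closedBall (Metric.ball_subset_closedBall hw)⟩

/-- The weight of a point of a chart of the cover. -/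
noncomputable def Cov.w (B : Cov A) (α : B.T) (ι : Fin n → Fin N) (z : E N) : ℝ :=
  B.ρ α z * (A.C (B.c α)).a ι z

theorem cov_cpt (B : Cov A) (α : B.T) {S : Set X} (hS : IsClosed S) :
    IsCompact (B.K α ∩ A.p (B.c α) ⁻¹' S) :=
  (B.cpt α).of_isClosed_subset
    (((A.cont _).mono (B.sub α)).preimage_isClosed_of_isClosed (B.cpt α).isClosed hS)
    inter_subset_left

theorem cov_jac [T2Space X] (B : Cov A) (α β : B.T) : ∃ D : ℝ,
    ∀ z ∈ B.K α ∩ A.p (B.c α) ⁻¹' (A.p (B.c β) '' B.K β), ∀ y ∈ (A.C (B.c β)).W,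
      A.p (B.c α) z = A.p (B.c β) y → ∃ O φ, IsChange (A.C (B.c α)) (A.C (B.c β)) O φ ∧ z ∈ O ∧
        φ z = y ∧ ∀ c a, ‖jac φ z c a‖ ≤ D := by
  have hZ := cov_cpt B α ((B.cpt β).image_of_continuousOn ((A.cont _).mono (B.sub β))).isClosed
  refine hZ.induction_on (p := fun S => ∃ D : ℝ, ∀ z ∈ S, ∀ y ∈ (A.C (B.c β)).W,
      A.p (B.c α) z = A.p (B.c β) y → ∃ O φ, IsChange (A.C (B.c α)) (A.C (B.c β)) O φ ∧ z ∈ O ∧
        φ z = y ∧ ∀ c a, ‖jac φ z c a‖ ≤ D) ⟨0, fun z hz => hz.elim⟩ ?_ ?_ ?_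
  · rintro s t hst ⟨D, hD⟩
    exact ⟨D, fun z hz => hD z (hst hz)⟩
  · rintro s t ⟨D, hD⟩ ⟨D', hD'⟩
    refine ⟨max D D', fun z hz y hy hp => ?_⟩
    rcases hz with hz | hz
    · obtain ⟨O, φ, h1, h2, h3, h4⟩ := hD z hz y hy hp
      exact ⟨O, φ, h1, h2, h3, fun c a => (h4 c a).trans (le_max_left _ _)⟩
    · obtain ⟨O, φ, h1, h2, h3, h4⟩ := hD' z hz y hy hp
      exact ⟨O, φ, h1, h2, h3, fun c a => (h4 c a).trans (le_max_right _ _)⟩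
  · rintro z₀ ⟨hz₀, y₀, hy₀, hp₀⟩
    obtain ⟨O, φ, hφ, hO, -, hpφ⟩ := A.trans _ _ z₀ (B.sub α hz₀) y₀ (B.sub β hy₀) hp₀.symm
    obtain ⟨M, hM⟩ := (((A.G_fin (B.c β)).prod (finite_univ (α := Fin N × Fin N))).image
      fun q => ‖jac (q.1 ∘ φ) z₀ q.2.1 q.2.2‖).bddAbove
    have h1 : ∀ᶠ z in 𝓝 z₀, ∀ g ∈ A.G (B.c β), ∀ c a, ‖jac (g ∘ φ) z c a‖ ≤ M + 1 := by
      refine (eventually_all_finite (A.G_fin _)).2 fun g hg => eventually_all.2 fun c =>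
        eventually_all.2 fun a => ?_
      have h2 := hφ.comp (A.G_iso _ g hg).1
      have h3 : ContinuousAt (fun z => ‖jac (g ∘ φ) z c a‖) z₀ :=
        ((jac_hol h2.isOpen h2.hol c a).continuousOn.continuousAt
          (h2.isOpen.mem_nhds ⟨hO, hφ.maps hO⟩)).norm
      have h4 : ‖jac (g ∘ φ) z₀ c a‖ ≤ M := hM ⟨(g, c, a), ⟨hg, trivial⟩, rfl⟩
      exact (h3.eventually (gt_mem_nhds (h4.trans_lt (lt_add_one M)))).mono fun z hz => hz.le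
    refine ⟨_, mem_nhdsWithin_of_mem_nhds (inter_mem h1 (hφ.isOpen.mem_nhds hO)), M + 1, ?_⟩
    rintro z ⟨hz1, hz2⟩ y hy hp
    obtain ⟨g, hg, hgy⟩ := A.G_fib _ (φ z) (hφ.maps hz2) y hy ((hpφ z hz2).trans hp)
    exact ⟨_, g ∘ φ, hφ.comp (A.G_iso _ g hg).1, ⟨hz2, hφ.maps hz2⟩, hgy, hz1 g hg⟩

theorem Cov.compare [T2Space X] (B : Cov A) (hr : ∀ i, ∀ z ∈ (A.C i).W, ((A.C i).η z).rank ≤ n) :
    ∃ C₀ : ℝ, 0 < C₀ ∧ ∀ α β, ∀ z ∈ B.K α, ∀ y ∈ B.K β, A.p (B.c α) z = A.p (B.c β) y →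
      ∀ ι ι' : Fin n → Fin N, (A.C (B.c β)).Max ι' y →
        (A.C (B.c α)).a ι z ≤ C₀ * (A.C (B.c β)).a ι' y := by
  have := B.fin
  have h1 : ∀ q : B.T × B.T, ∃ C₀ : ℝ, ∀ z ∈ B.K q.1, ∀ y ∈ B.K q.2,
      A.p (B.c q.1) z = A.p (B.c q.2) y → ∀ ι ι' : Fin n → Fin N, (A.C (B.c q.2)).Max ι' y →
        (A.C (B.c q.1)).a ι z ≤ C₀ * (A.C (B.c q.2)).a ι' y := by
    rintro ⟨α, β⟩
    obtain ⟨D, hD⟩ := cov_jac B α β
    refine ⟨(n.factorial * (N * D) ^ n) ^ 2, fun z hz y hy hp ι ι' hm => ?_⟩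
    obtain ⟨O, φ, hφ, hO, rfl, hb⟩ := hD z ⟨hz, y, hy, hp.symm⟩ y (B.sub β hy) hp
    have h2 := Chart.det_conj_le (B.sub β hy) (hr _ _ (B.sub β hy)) hm
      ((jac φ z).submatrix id ι) (B := D) fun c j => hb c (ι j)
    rw [← hφ.g_eq hO ι] at h2
    exact h2
  choose C hC using h1
  obtain ⟨M, hM⟩ := (finite_range C).bddAbove
  refine ⟨max M 1, lt_max_of_lt_right one_pos, fun α β z hz y hy hp ι ι' hm => ?_⟩
  exact (hC (α, β) z hz y hy hp ι ι' hm).trans (mul_le_mul_of_nonneg_right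
    ((hM ⟨(α, β), rfl⟩).trans (le_max_left _ _)) (Chart.a_nonneg (B.sub β hy) ι'))

/-- A triple that is largest over a point. -/
def Cov.Active (B : Cov A) (α : B.T) (ι : Fin n → Fin N) (z : E N) : Prop :=
  z ∈ B.K α ∧ ∀ β (ι' : Fin n → Fin N), ∀ y ∈ B.K β, A.p (B.c β) y = A.p (B.c α) z →
    B.w β ι' y ≤ B.w α ι z

theorem Cov.exists_active [T2Space X] (hN : N = 2 * n) (B : Cov A) (x : X) :
    ∃ α, ∃ ι : Fin n → Fin N, ∃ z, B.Active α ι z ∧ A.p (B.c α) z = x := by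
  have := B.fin
  have h1 : IsCompact (⋃ q : B.T × (Fin n → Fin N),
      B.w q.1 q.2 '' (B.K q.1 ∩ A.p (B.c q.1) ⁻¹' {x})) := by
    refine isCompact_iUnion fun q => (cov_cpt B q.1 isClosed_singleton).image_of_continuousOn ?_
    exact (B.smooth q.1).continuous.continuousOn.mul
      (((A.C (B.c q.1)).a_smooth q.2).continuousOn.mono (inter_subset_left.trans (B.sub q.1)))
  obtain ⟨β, y, hy, hx, -⟩ := B.one x
  obtain ⟨ι', -⟩ := (A.C (B.c β)).exists_max hN y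
  obtain ⟨m, hm, hmax⟩ := h1.exists_isGreatest ⟨_, mem_iUnion.2 ⟨(β, ι'), y, ⟨hy, hx⟩, rfl⟩⟩
  obtain ⟨⟨α, ι⟩, z, ⟨hz, hzx⟩, rfl⟩ := mem_iUnion.1 hm
  have hzx' : A.p (B.c α) z = x := hzx
  exact ⟨α, ι, z, ⟨hz, fun γ κ w hw hp =>
    hmax (mem_iUnion.2 ⟨(γ, κ), w, ⟨hw, hp.trans hzx'⟩, rfl⟩)⟩, hzx'⟩

theorem Cov.active_bound [T2Space X] (hN : N = 2 * n) (B : Cov A)
    (hr : ∀ i, ∀ z ∈ (A.C i).W, ((A.C i).η z).rank ≤ n) :
    ∃ c : ℝ, 0 < c ∧ ∀ α (ι : Fin n → Fin N) z, B.Active α ι z →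
      ((A.C (B.c α)).η z).rank = n →
        z ∈ (A.C (B.c α)).U ι ∧ (A.C (B.c α)).Max ι z ∧ c ≤ B.ρ α z := by
  obtain ⟨C₀, hC₀, hC⟩ := B.compare hr
  refine ⟨C₀⁻¹, inv_pos.2 hC₀, fun α ι z hA hrk => ?_⟩
  obtain ⟨hz, hA⟩ := hA
  obtain ⟨β, y, hy, hp, h1⟩ := B.one (A.p (B.c α) z)
  obtain ⟨ι', hm⟩ := (A.C (B.c β)).exists_max hN y
  obtain ⟨O, φ, hφ, hO, hφz, -⟩ := A.trans _ _ z (B.sub α hz) y (B.sub β hy) hp.symm
  have hry : n ≤ ((A.C (B.c β)).η y).rank := by rw [← hφz, hφ.rank_eq hO, hrk]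
  obtain ⟨κ, hκ⟩ := Chart.exists_U (B.sub β hy) hry
  have h2 : 0 < (A.C (B.c β)).a ι' y := hκ.2.trans_le (hm κ)
  have h3 : (A.C (B.c β)).a ι' y ≤ B.ρ α z * (A.C (B.c α)).a ι z := by
    have := hA β ι' y hy hp
    rwa [Cov.w, Cov.w, h1, one_mul] at this
  have h4 := h2.trans_le h3
  have h5 : 0 < B.ρ α z := pos_of_mul_pos_left h4 (Chart.a_nonneg (B.sub α hz) ι)
  have h6 : 0 < (A.C (B.c α)).a ι z := pos_of_mul_pos_right h4 (B.nonneg α z)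
  refine ⟨⟨B.sub α hz, h6⟩, fun κ' => le_of_mul_le_mul_left (hA α κ' z hz rfl) h5, ?_⟩
  have h7 := (hC α β z hz y hy hp.symm ι ι' hm).trans (mul_le_mul_of_nonneg_left h3 hC₀.le)
  rw [inv_le_iff_one_le_mul₀' hC₀]
  refine le_of_mul_le_mul_right ?_ h6
  rwa [one_mul, mul_assoc]

end Pool.Agent.SPF
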