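import Pool.Agent.P.MP_63735c_ag.SPLu
import Pool.Agent.P.MP_63735c_ag.SPBound
import Pool.Agent.P.MP_63735c_ag.SPInv
import Pool.Agent.P.MP_63735c_ag.SPCov

/-! The global maximum principle. -/

open Set Filter Topology
open scoped ComplexOrder ContDiff Matrix

namespace Pool.Agent.SPF

variable {N n : ℕ} {X : Type} [TopologicalSpace X]

lemma spmax_inv (hN : N = 2 * n) (A : Atlas X N) (hI : ∀ i, (A.C i).Iso) {i j : A.ι}
    {ι ι' : Fin n → Fin N} {z y : E N} (hz : z ∈ (A.C i).U ι) (hy : y ∈ (A.C j).U ι')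
    (h : A.p i z = A.p j y) : (A.C i).S ι z = (A.C j).S ι' y := by
  obtain ⟨O, φ, h1, h2, rfl, -⟩ := A.trans i j z hz.1 y hy.1 h
  exact h1.S_eq hN (hI i) (hI j) h2 hz hy

lemma spmax_zero {C : Chart N} {ι : Fin n → Fin N} {z : E N} (hz : z ∈ C.W) (h : z ∉ C.U ι) :
    C.a ι z = 0 :=
  le_antisymm (not_lt.1 fun h' => h ⟨hz, h'⟩) (Chart.a_nonneg hz ι)

open Classical in
/-- the test function -/
noncomputable def spmaxF (C : Chart N) (ρ : E N → ℝ) (ε : ℝ) (ι : Fin n → Fin N) (z : E N) : ℝ :=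
  if z ∈ C.U ι then C.S ι z * (ρ z * C.a ι z) ^ ε else 0

lemma spmax_cont (hN : N = 2 * n) {C : Chart N} (hC : C.Iso) {K : Set (E N)} (hK : IsCompact K)
    (hKW : K ⊆ C.W) {ρ : E N → ℝ} (hρ : Continuous ρ) (h0 : ∀ z, 0 ≤ ρ z) {ε : ℝ} (hε : 0 < ε)
    (ι : Fin n → Fin N) : ContinuousOn (spmaxF C ρ ε ι) K := by
  obtain ⟨M, hM0, hM⟩ := Chart.S_bound hN hC hK hKW
  have hb : ∀ z ∈ K, z ∈ C.U ι → C.S ι z ≤ M := fun z hz hU => by
    obtain ⟨ι', h'⟩ := C.exists_max hN z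
    have hU' : z ∈ C.U ι' := ⟨hU.1, hU.2.trans_le (h' ι)⟩
    rw [(IsChange.refl C).S_eq hN hC hC hU.1 hU hU']
    exact hM ι' z hz hU' h'
  intro z hz
  have hc : ContinuousWithinAt (fun w => (ρ w * C.a ι w) ^ ε) K z :=
    (hρ.continuousWithinAt.mul (((C.a_smooth ι).continuousOn.mono hKW) z hz)).rpow_const
      (Or.inr hε.le)
  by_cases hU : z ∈ C.U ι
  · have hn := (C.isOpen_U ι).mem_nhds hU
    refine (((C.S_smooth ι).continuousOn.continuousAt hn).continuousWithinAt.mul hc).congr_of_eventuallyEq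
      ?_ (if_pos hU)
    filter_upwards [mem_nhdsWithin_of_mem_nhds hn] with w hw using if_pos hw
  · have h1 : spmaxF C ρ ε ι z = 0 := if_neg hU
    have h2 : Tendsto (fun w => M * (ρ w * C.a ι w) ^ ε) (𝓝[K] z) (𝓝 0) := by
      have := hc.tendsto.const_mul M
      rwa [spmax_zero (hKW hz) hU, mul_zero, Real.zero_rpow hε.ne', mul_zero] at this
    rw [ContinuousWithinAt, h1]
    refine squeeze_zero' ?_ ?_ h2
    · filter_upwards [self_mem_nhdsWithin] with w hw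
      unfold spmaxF
      split_ifs with h
      · exact mul_nonneg (Chart.S_nonneg hN hC h) (Real.rpow_nonneg (mul_nonneg (h0 w) h.2.le) ε)
      · exact le_rfl
    · filter_upwards [self_mem_nhdsWithin] with w hw
      have h3 := Real.rpow_nonneg (mul_nonneg (h0 w) (Chart.a_nonneg (hKW hw) ι)) ε
      unfold spmaxF
      split_ifs with h
      · exact mul_le_mul_of_nonneg_right (hb w hw h) h3
      · exact mul_nonneg hM0 h3

lemma spmax_bound [T2Space X] (hN : N = 2 * n) (A : Atlas X N) (hI : ∀ i, (A.C i).Iso)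
    (B : Cov A) : ∃ M : ℝ, ∀ ε : ℝ, 0 < ε → ε ≤ 1 → ∀ (β : B.T) (ι : Fin n → Fin N), ∀ y ∈ B.K β,
      spmaxF (A.C (B.c β)) (B.ρ β) ε ι y ≤ ε * M := by
  have := B.fin
  obtain ⟨c, hc, hact⟩ := B.active_bound hN fun i z hz => Chart.rank_le hN (hI i) hz
  choose M hM0 hM using fun α : B.T =>
    Chart.S_le_of_max hN (hI (B.c α)) (B.cpt α) (B.sub α) (B.smooth α) hc
  obtain ⟨M', hM'⟩ := Finite.exists_le M
  choose b hb using fun j : B.T × (Fin n → Fin N) =>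
    ((B.cpt j.1).bddAbove_image (((A.C (B.c j.1)).a_smooth j.2).continuousOn.mono (B.sub j.1)))
  obtain ⟨b', hb'⟩ := Finite.exists_le b
  refine ⟨M' * max 1 b', fun ε hε hε1 β ι' y hy => ?_⟩
  have hcp : IsCompact (⋃ j : B.T × (Fin n → Fin N),
      spmaxF (A.C (B.c j.1)) (B.ρ j.1) ε j.2 '' B.K j.1) :=
    isCompact_iUnion fun j => (B.cpt j.1).image_of_continuousOn (spmax_cont hN (hI _) (B.cpt j.1)
      (B.sub j.1) (B.smooth j.1).continuous (B.nonneg j.1) hε j.2)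
  obtain ⟨v, hv, hmax⟩ := hcp.exists_isGreatest ⟨_, mem_iUnion.2 ⟨(β, ι'), y, hy, rfl⟩⟩
  obtain ⟨⟨α, ι⟩, p, hp, rfl⟩ := mem_iUnion.1 hv
  replace hmax : ∀ β ι', ∀ y ∈ B.K β, spmaxF (A.C (B.c β)) (B.ρ β) ε ι' y ≤
      spmaxF (A.C (B.c α)) (B.ρ α) ε ι p := fun β ι' y hy =>
    hmax (mem_iUnion.2 ⟨(β, ι'), y, hy, rfl⟩)
  refine (hmax β ι' y hy).trans ?_
  have hM1 : 0 ≤ M' := (hM0 α).trans (hM' α)
  have hb1 : (1 : ℝ) ≤ max 1 b' := le_max_left _ _
  rcases le_or_gt (spmaxF (A.C (B.c α)) (B.ρ α) ε ι p) 0 with h | h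
  · exact h.trans (by positivity)
  have hU : p ∈ (A.C (B.c α)).U ι := by_contra fun h' => h.ne' (if_neg h')
  have e1 : spmaxF (A.C (B.c α)) (B.ρ α) ε ι p =
      (A.C (B.c α)).S ι p * (B.ρ α p * (A.C (B.c α)).a ι p) ^ ε := if_pos hU
  have w0 : 0 ≤ B.ρ α p * (A.C (B.c α)).a ι p := mul_nonneg (B.nonneg α p) hU.2.le
  have hS : 0 < (A.C (B.c α)).S ι p :=
    (Chart.S_nonneg hN (hI _) hU).lt_of_ne' fun h' => by rw [e1, h', zero_mul] at h; exact h.false
  have hA : B.Active α ι p := ⟨hp, fun β ι' y hy e => by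
    by_cases h' : y ∈ (A.C (B.c β)).U ι'
    · have := hmax β ι' y hy
      rw [e1, spmaxF, if_pos h', spmax_inv hN A hI h' hU e] at this
      exact (Real.rpow_le_rpow_iff (mul_nonneg (B.nonneg β y) h'.2.le) w0 hε).1
        (le_of_mul_le_mul_left this hS)
    · rw [Cov.w, spmax_zero (B.sub β hy) h', mul_zero]; exact w0⟩
  obtain ⟨-, -, hcρ⟩ := hact α ι p hA
    (le_antisymm (Chart.rank_le hN (hI _) hU.1) (Chart.le_rank hU))
  have hloc : IsLocalMax
      (fun w => (A.C (B.c α)).S ι w * (B.ρ α w * (A.C (B.c α)).a ι w) ^ ε) p := by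
    filter_upwards [((A.C (B.c α)).isOpen_U ι).mem_nhds hU,
      (B.smooth α).continuous.continuousAt.eventually_ne (hc.trans_le hcρ).ne'] with w h1 h2
    have := hmax α ι w (B.supp α w h2)
    rwa [e1, spmaxF, if_pos h1] at this
  have h3 := (hM α ι p hp ε hε hU hcρ hloc).trans (mul_le_mul_of_nonneg_left (hM' α) hε.le)
  have h4 : B.ρ α p * (A.C (B.c α)).a ι p ≤ max 1 b' :=
    (mul_le_of_le_one_left hU.2.le (B.le_one α p)).trans
      (((hb (α, ι) ⟨p, hp, rfl⟩).trans (hb' _)).trans (le_max_right _ _))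
  have h5 : (B.ρ α p * (A.C (B.c α)).a ι p) ^ ε ≤ max 1 b' :=
    (Real.rpow_le_rpow w0 h4 hε.le).trans (Real.rpow_le_self_of_one_le hb1 hε1)
  rw [e1, ← mul_assoc]
  exact mul_le_mul h3 h5 (Real.rpow_nonneg w0 ε) (by positivity)

theorem Atlas.S_eq_zero [T2Space X] [CompactSpace X] (hN : N = 2 * n) (A : Atlas X N)
    (hI : ∀ i, (A.C i).Iso) (i : A.ι) (ι : Fin n → Fin N) (z : E N) (hz : z ∈ (A.C i).U ι) :
    (A.C i).S ι z = 0 := by
  obtain ⟨B⟩ := A.exists_cov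
  obtain ⟨M, hM⟩ := spmax_bound hN A hI B
  obtain ⟨β, y, hy, hp, hρ⟩ := B.one (A.p i z)
  obtain ⟨O, φ, h1, h2, h3, -⟩ := A.trans i (B.c β) z hz.1 y (B.sub β hy) hp.symm
  obtain ⟨ι', hU⟩ := Chart.exists_U (n := n) (B.sub β hy)
    (by rw [← h3, h1.rank_eq h2]; exact Chart.le_rank hz)
  rw [spmax_inv hN A hI hz hU hp.symm]
  have hS := Chart.S_nonneg hN (hI _) hU
  have hb := hU.2
  have key : ∀ ε : ℝ, 0 < ε → ε ≤ 1 →
      (A.C (B.c β)).S ι' y * min 1 ((A.C (B.c β)).a ι' y) ≤ ε * M := fun ε hε hε1 => by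
    have := hM ε hε hε1 β ι' y hy
    rw [spmaxF, if_pos hU, hρ, one_mul] at this
    refine (mul_le_mul_of_nonneg_left ?_ hS).trans this
    rcases le_total 1 ((A.C (B.c β)).a ι' y) with h | h
    · exact (min_le_left _ _).trans (Real.one_le_rpow h hε.le)
    · exact (min_le_right _ _).trans (Real.self_le_rpow_of_le_one hb.le h hε1)
  have hm : 0 < min 1 ((A.C (B.c β)).a ι' y) := lt_min one_pos hb
  have h4 : (A.C (B.c β)).S ι' y * min 1 ((A.C (B.c β)).a ι' y) ≤ 0 := by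
    have ht : Tendsto (fun ε : ℝ => ε * M) (𝓝[>] 0) (𝓝 0) := by
      have h5 : Continuous fun ε : ℝ => ε * M := by fun_prop
      have := (h5.tendsto 0).mono_left (nhdsWithin_le_nhds (s := Ioi 0))
      rwa [zero_mul] at this
    refine ge_of_tendsto ht ?_
    filter_upwards [Ioc_mem_nhdsGT one_pos] with ε hε using key ε hε.1 hε.2
  exact le_antisymm (nonpos_of_mul_nonpos_left h4 hm) hS

end Pool.Agent.SPF
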