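import Pool.Agent.P.MP_63735c_ag.SQMax
import Pool.Agent.P.MP_63735c_ag.HSMain
import Pool.Agent.P.MP_63735c_ag.SEL2
import Pool.Agent.P.MP_63735c_ag.SEFin
import Pool.Agent.P.MP_63735c_ag.SPExt2
import Pool.Agent.P.MP_63735c_ag.SPMax
import Pool.Agent.P.MP_63735c_ag.BPA3
import Pool.Agent.P.MP_63735c_ag.BPA7

/-! The integrable system on a compact manifold. -/

open scoped ComplexOrder ContDiff Matrix
open Set Filter Topology MeasureTheory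

namespace Pool.Agent.BP

open Pool.Agent.SPF Pool.Agent.NL Pool.Agent.CK Pool.Agent.CS Pool.Agent.AB Pool.Agent.HX
  Pool.Agent.HS Pool.Agent.SE

variable {N n : ℕ} {X : Type} [TopologicalSpace X] {A : Atlas X N}

/-- The identity resolution. -/
noncomputable def resId {A : Atlas X N} (hinj : ∀ i, InjOn (A.p i) (A.C i).W) (L : Line A)
    (K : Form11 A) (hK : ∀ i, ∀ z ∈ (A.C i).W, (K.h i z).PosDef) : Res L X where
  ι := A.ι
  W i := (A.C i).W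
  p := A.p
  isOpen i := (A.C i).isOpen
  cont := A.cont
  inj := hinj
  opn := A.opn
  cover := A.cover
  trans i k z hz y hy he := by
    obtain ⟨O, φ, h1, h2, h3, h4⟩ := A.trans i k z hz y hy he
    refine ⟨φ, h3, ?_⟩
    filter_upwards [h1.isOpen.mem_nhds h2] with w hw
    exact ⟨h1.hol.differentiableAt (h1.isOpen.mem_nhds hw), h1.maps hw, h4 w hw⟩
  K := K.h
  K_smooth := K.smooth
  K_pos := hK
  K_closed := K.closed
  K_eq i k z hz φ hφ := by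
    have h0 := hφ.self_of_nhds
    obtain ⟨O, φ', h1, h2, h3, h4⟩ := A.trans i k z hz (φ z) h0.2.1 h0.2.2.symm
    have he : φ' =ᶠ[𝓝 z] φ := by
      filter_upwards [h1.isOpen.mem_nhds h2, hφ] with w hw hw'
      exact hinj k (h1.maps hw) hw'.2.1 ((h4 w hw).trans hw'.2.2.symm)
    rw [K.compat i k O φ' h1 h4 z h2, h3]
    simp only [jac, he.fderiv_eq]
  g := L.g
  ψ := L.ψ
  g_hol := L.g_hol
  g_mul := L.g_mul
  ψ_smooth := L.ψ_smooth
  ψ_eq := L.ψ_eq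
  ψ_psd i z hz := show (lev (L.ψ i) z).PosSemidef from L.lev_eq hz ▸ (A.C i).η_psd z hz
  j := id
  c := id
  j_cont := continuous_id
  j_inj := Function.injective_id
  j_dense := denseRange_id
  sub _ := subset_rfl
  p_eq _ _ _ := rfl
  g_eq _ _ _ _ _ := rfl
  ψ_res _ _ _ := rfl

variable [CompactSpace X] [T2Space X] [PreconnectedSpace X] [MeasurableSpace X] [BorelSpace X]

omit [T2Space X] [PreconnectedSpace X] [MeasurableSpace X] [BorelSpace X] in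
theorem lam_zero (D : Man X N) (K : D.ι → E N → Mat N) : Lam D K (fun _ => 0) 0 :=
  ⟨le_rfl, fun _ => contDiffOn_const, fun _ => le_rfl,
    fun _ => ⟨univ, isCompact_univ, fun x hx => (hx trivial).elim⟩, fun i z _ v => by
      rw [Man.levG, lev_const, dr_const, hq_zero]
      simp⟩

theorem exists_sec (hn : 1 ≤ n) {A : Atlas X (2 * n)} (hinj : ∀ i, InjOn (A.p i) (A.C i).W)
    (hO : NoOdd A) {μ : Measure X} (hμ : IsVolume A μ) {K : Form11 A}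
    (hK : ∀ i, ∀ z ∈ (A.C i).W, (K.h i z).PosDef) {H : BBF n A μ K} (hL : H.Isotropic)
    (L : Line A) (hη : ∃ i, ∃ z ∈ (A.C i).W, (A.C i).η z ≠ 0) :
    (∀ i, (A.C i).Iso) ∧ Nonempty (Sec L n) := by
  have := vol_finite hμ
  have := vol_pos hμ
  obtain ⟨i, y, hy, h0⟩ := hη
  have : Nonempty X := ⟨A.p i y⟩
  obtain ⟨F, hF, -, hF0⟩ := BBF.exists_F hn rfl (measureReal_univ_ne_zero (μ := μ)) hL
  obtain ⟨j, z, hz, hr⟩ := BBF.rank hn rfl hK hL hy h0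
  have hI := A.iso_of_integral rfl hn μ F hF hF0
  have hH : ∀ i, (A.C i).Hol n := fun i =>
    Chart.hol_of_S rfl (hI i) (A.S_eq_zero rfl hI i)
  obtain ⟨T, Ψ, h1, h2, -, h4⟩ :=
    A.exists_unif rfl hI hH (fun i _ hz hr => A.exists_goodAt rfl hI hH i hz hr) j hz hr
  obtain ⟨T₁, a1, a2, a3, a4⟩ := BBF.leaves hn rfl hinj hμ hK (bd_20 K hK) (bd_11 K hK (etaF A))
    ⟨_, _, lam_zero _ _⟩ hL h4 h1 ⟨0, h2⟩
  obtain ⟨k, p, α, b1, b2, b3⟩ := (resId hinj L K hK).ten rfl hO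
  obtain ⟨m, s, c1, c2, T', c3, c4, c5, c6⟩ :=
    sections hinj L ((resId hinj L K hK).hl2 rfl) b1 b2 b3 a2 a3 (unif_mono h4 a1) a4
  exact ⟨hI, ⟨⟨T', Ψ, m, s, c4, c5, unif_mono h4 (c3.trans a1), AB.fib_mono a4 c3, c1, c2, c6⟩⟩⟩

theorem Sec.exists_sys (hN : N = 2 * n) (hn : 1 ≤ n) (hinj : ∀ i, InjOn (A.p i) (A.C i).W)
    {μ : Measure X} (hμ : IsVolume A μ) {K : Form11 A}
    (hK : ∀ i, ∀ z ∈ (A.C i).W, (K.h i z).PosDef) (hI : ∀ i, (A.C i).Iso) {L : Line A}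
    (S : Sec L n) : ∃ Z : Sys K L n, Z.m = S.m ∧ Z.s₀ = S.s 0 ∧ Z.g = S.g ∧ Z.U = S.U := by
  have h1 := fun i z hz hU => S.null hinj hμ hI (i := i) (z := z) hz hU
  have hH := S.ham hinj (fun i z hz hU => (h1 i z hz hU).1) fun i z hz hU => (h1 i z hz hU).2
  obtain ⟨Φ, hF⟩ := hH.exists_flow
  exact ⟨⟨S.U, S.g, S.φ, S.m, S.s 0, Φ, S.h K, hN, hn, hinj, hK, S.U_open, S.m_pos, S.sec 0,
    fun _ _ => S.U_iff, fun _ _ => S.φ_eq, hH.φ_smooth, fun _ _ => S.φ_lev, hH.φ_cpt, S.φ_bd,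
    hH.g_hol, fun _ _ => S.h_eq hinj K, S.h_le hinj K, hH.poi,
    fun i z hz hU => (h1 i z hz hU).1, hF.zero, fun _ hx => hF.add hH.toHolU hx,
    fun x hx τ => (hF.sol x hx τ).mem, fun _ hx τ => (hF.inv hH hx τ).1,
    fun _ hx τ => (hF.inv hH hx τ).2, fun _ _ => hF.lift hH, S.reg hinj hK hF⟩, rfl, rfl, rfl, rfl⟩

theorem exists_sys (hn : 1 ≤ n) {A : Atlas X (2 * n)} (hinj : ∀ i, InjOn (A.p i) (A.C i).W)
    (hO : NoOdd A) {μ : Measure X} (hμ : IsVolume A μ) {K : Form11 A}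
    (hK : ∀ i, ∀ z ∈ (A.C i).W, (K.h i z).PosDef) {H : BBF n A μ K} (hL : H.Isotropic)
    (L : Line A) (hη : ∃ i, ∃ z ∈ (A.C i).W, (A.C i).η z ≠ 0) : Nonempty (Sys K L n) := by
  obtain ⟨hI, ⟨S⟩⟩ := exists_sec hn hinj hO hμ hK hL L hη
  obtain ⟨Z, -⟩ := S.exists_sys rfl hn hinj hμ hK hI
  exact ⟨Z⟩

end Pool.Agent.BP
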