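import Pool.Agent.P.MP_63735c_ag.BPB2

/-! The space of regular compact orbits. -/

open scoped ComplexOrder ContDiff Matrix Topology ENNReal
open Set Metric MeasureTheory Filter

namespace Pool.Agent.BP

open Pool.Agent.SPF Pool.Agent.AB Pool.Agent.CK Pool.Agent.SE Pool.Agent.NL

variable {N n : ℕ} {X : Type} [TopologicalSpace X] {A : Atlas X N} {K : Form11 A} {L : Line A}

namespace Sys

variable (S : Sys K L n)

/-- The orbit relation on the regular compact orbits. -/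
def rel : Setoid S.W where
  r := fun x y => ∃ τ, y.1 = S.Φ x.1 τ
  iseqv := ⟨fun x => ⟨0, (S.Φ_zero _ x.2.1).symm⟩, fun {x y} ⟨τ, h⟩ => ⟨-τ, by
      rw [h, S.Φ_add _ x.2.1, add_neg_cancel, S.Φ_zero _ x.2.1]⟩,
    fun {x y z} ⟨τ, h⟩ ⟨τ', h'⟩ => ⟨τ + τ', by rw [h', h, S.Φ_add _ x.2.1]⟩⟩

theorem bpb3_move (τ : E n) : Continuous fun x : S.W => (⟨S.Φ x.1 τ, S.W_Φ x.2 τ⟩ : S.W) :=
  (S.Φ_cont.comp_continuous (continuous_subtype_val.prodMk continuous_const)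
    fun x => ⟨x.2.1, mem_univ _⟩).subtype_mk _

theorem bpb3_open : IsOpenMap (Quotient.mk S.rel) := by
  intro O hO
  rw [← isQuotientMap_quotient_mk'.isOpen_preimage]
  have he : (Quotient.mk' (s := S.rel)) ⁻¹' (Quotient.mk S.rel '' O) =
      ⋃ τ, (fun x : S.W => (⟨S.Φ x.1 τ, S.W_Φ x.2 τ⟩ : S.W)) ⁻¹' O := by
    ext x
    simp only [mem_preimage, mem_image, mem_iUnion]
    constructor
    · rintro ⟨y, hy, h⟩
      obtain ⟨τ, hτ⟩ := Quotient.exact h.symm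
      exact ⟨τ, by rwa [← Subtype.ext (a1 := y) (a2 := ⟨S.Φ x.1 τ, S.W_Φ x.2 τ⟩) hτ]⟩
    · rintro ⟨τ, h⟩
      exact ⟨_, h, (Quotient.sound (s := S.rel) ⟨τ, rfl⟩).symm⟩
  rw [he]
  exact isOpen_iUnion fun τ => hO.preimage (S.bpb3_move τ)

variable {S}

/-- Points near `x` are on the orbits of the section. -/
theorem Tub.near {T s l} (h : S.Tub T s l) {x : X} (hx : x ∈ S.U) (hb : S.g x ∈ T)
    (hs : s (S.g x) = x) : ∀ᶠ y in 𝓝 x, S.g y ∈ T ∧ ∃ τ, y = S.Φ (s (S.g y)) τ := by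
  refine mem_of_superset ((h.toSect.isOpen_img (h.isOpen.prod isOpen_univ)
    fun w hw => hw.1).mem_nhds ⟨(S.g x, 0), ⟨hb, mem_univ _⟩, ?_⟩) ?_
  · simp only [hs, S.Φ_zero x hx]
  · rintro _ ⟨w, hw, rfl⟩
    have h1 : S.g (S.Φ (s w.1) w.2) = w.1 := by rw [S.g_Φ _ (h.mem _ hw.1), h.g_s _ hw.1]
    simp only [mem_ofPred_eq, h1]
    exact ⟨hw.1, _, rfl⟩

theorem bpb3_t2 [T2Space X] : T2Space (Quotient S.rel) := by
  refine (t2Space_iff_of_isOpenQuotientMap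
    ⟨Quotient.mk_surjective, continuous_quotient_mk', S.bpb3_open⟩).2 ?_
  refine isOpen_compl_iff.1 (isOpen_iff_mem_nhds.2 ?_)
  rintro ⟨x, y⟩ hxy
  obtain ⟨T, s, l, h, hb, hs⟩ := exists_tub x.2
  have c1 : ContinuousAt (fun q : S.W × S.W => (q.1 : X)) (x, y) :=
    (continuous_subtype_val.comp continuous_fst).continuousAt
  have c2 : ContinuousAt (fun q : S.W × S.W => S.g q.1) (x, y) :=
    (S.g_cont.1.continuousAt (S.U_open.mem_nhds x.2.1)).comp_of_eq c1 rfl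
  have h1 : ∀ᶠ q : S.W × S.W in 𝓝 (x, y), ∀ t ∈ Icc (0 : Fin N → ℝ) 1,
      S.Φ (s (S.g q.1)) (lt (l (S.g q.1)) t) ≠ q.2 := by
    refine isCompact_Icc.eventually_forall_of_forall_eventually fun t _ => ?_
    have c3 : ContinuousAt (fun z : (S.W × S.W) × (Fin N → ℝ) =>
        S.Φ (s (S.g z.1.1)) (lt (l (S.g z.1.1)) z.2)) ((x, y), t) :=
      (h.contAt (z := (S.g x, t)) hb).comp_of_eq
        ((c2.comp_of_eq continuousAt_fst rfl).prodMk continuousAt_snd) rfl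
    have c4 : ContinuousAt (fun z : (S.W × S.W) × (Fin N → ℝ) => (z.1.2 : X)) ((x, y), t) :=
      (continuous_subtype_val.comp (continuous_snd.comp continuous_fst)).continuousAt
    refine (c3.ne_iff_eventually_ne c4).1 fun he => hxy (Quotient.sound ⟨lt (l (S.g x)) t, ?_⟩)
    simpa only [hs] using he.symm
  filter_upwards [h1, c1.eventually (h.near x.2.1 hb hs)] with q a1 ⟨a2, τ, a3⟩ he
  obtain ⟨τ', a4⟩ := Quotient.exact he
  obtain ⟨t, ht, a5⟩ := h.red a2 (τ + τ')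
  refine a1 t ht ?_
  rw [a5, ← S.Φ_add _ (h.mem _ a2), ← a3, a4]

end Sys

theorem Sys.exists_base [T2Space X] (S : Sys K L n) :
    ∃ (Y : Type) (_ : TopologicalSpace Y), T2Space Y ∧ Nonempty (Base S Y) := by
  classical
  have hT2 : T2Space (Quotient S.rel) := Sys.bpb3_t2
  obtain ⟨x₀, h₀⟩ : S.W.Nonempty := S.reg
  choose T s l h hb hs using fun x : S.W => Sys.exists_tub x.2
  let f : X → Quotient S.rel := fun x =>
    Quotient.mk S.rel (if hx : x ∈ S.W then ⟨x, hx⟩ else ⟨x₀, h₀⟩)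
  have hf : ∀ x (hx : x ∈ S.W), f x = Quotient.mk S.rel ⟨x, hx⟩ := fun x hx => by
    simp only [f, dif_pos hx]
  let γ : Quotient S.rel → E n := Quotient.lift (fun x : S.W => S.g x) fun x y ⟨τ, hτ⟩ => by
    rw [hτ, S.g_Φ _ x.2.1]
  have hγ : ∀ x ∈ S.W, γ (f x) = S.g x := fun x hx => by
    rw [hf x hx]
    rfl
  have hsW : ∀ k, ∀ b ∈ T k, s k b ∈ S.W := fun k b hb' => by
    have := (h k).mem_W hb' 0
    rwa [S.Φ_zero _ ((h k).mem b hb')] at this
  have hγp : ∀ k, ∀ b ∈ T k, γ (f (s k b)) = b := fun k b hb' => by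
    rw [hγ _ (hsW k b hb'), (h k).g_s b hb']
  have hc : ContinuousOn f S.W := by
    rw [continuousOn_iff_continuous_domRestrict]
    refine (continuous_quotient_mk' (s := S.rel)).congr fun x => (hf x.1 x.2).symm
  have ho : ∀ O, IsOpen O → O ⊆ S.W → IsOpen (f '' O) := fun O hO hOW => by
    convert S.bpb3_open _ (hO.preimage continuous_subtype_val) using 1
    ext y
    constructor
    · rintro ⟨x, hx, rfl⟩
      exact ⟨⟨x, hOW hx⟩, hx, (hf x _).symm⟩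
    · rintro ⟨x, hx, rfl⟩
      exact ⟨x.1, hx, hf x.1 x.2⟩
  have he : ∀ x ∈ S.W, ∀ y ∈ S.W, f x = f y ↔ ∃ τ, y = S.Φ x τ := fun x hx y hy => by
    rw [hf x hx, hf y hy]
    exact Quotient.eq
  have hcp : ∀ k, ContinuousOn (fun b => f (s k b)) (T k) :=
    fun k => hc.comp (h k).toSect.cont (hsW k)
  have him : ∀ k O, O ⊆ T k → (fun b => f (s k b)) '' O =
      f '' ((fun w : E n × E n => S.Φ (s k w.1) w.2) '' (O ×ˢ univ)) := fun k O hO => by
    ext y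
    constructor
    · rintro ⟨b, hb', rfl⟩
      exact ⟨_, ⟨(b, 0), ⟨hb', mem_univ _⟩, rfl⟩,
        ((he _ (hsW k b (hO hb')) _ ((h k).mem_W (hO hb') 0)).2 ⟨_, rfl⟩).symm⟩
    · rintro ⟨_, ⟨w, hw, rfl⟩, rfl⟩
      exact ⟨w.1, hw.1, (he _ (hsW k _ (hO hw.1)) _ ((h k).mem_W (hO hw.1) _)).2 ⟨_, rfl⟩⟩
  have hop : ∀ k O, IsOpen O → O ⊆ T k → IsOpen ((fun b => f (s k b)) '' O) := fun k O hO hOT => by
    rw [him k O hOT]
    refine ho _ ((h k).toSect.isOpen_img (hO.prod isOpen_univ) fun w hw => hOT hw.1) ?_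
    rintro _ ⟨w, hw, rfl⟩
    exact (h k).mem_W (hOT hw.1) _
  have hcov : ∀ y, ∃ k, ∃ b ∈ T k, f (s k b) = y := fun y => by
    obtain ⟨x, rfl⟩ := Quotient.mk_surjective y
    exact ⟨x, S.g x, hb x, by rw [hs x, hf x.1 x.2]⟩
  refine ⟨Quotient S.rel, inferInstance, hT2, ⟨
    { ι := S.W, W := T, p := fun k b => f (s k b), isOpen := fun k => (h k).isOpen, cont := hcp
      inj := fun k b hb' c hc' e => by rw [← hγp k b hb', ← hγp k c hc']; exact congrArg γ e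
      opn := hop, trans := fun i j z hz y hy e => ?_, f := f, γ := γ, s := s, lam := l
      cover := hcov, convex := fun k => (h k).convex, γ_p := hγp, γ_f := hγ
      W_open := S.W_isOpen, W_inv := fun x hx τ => S.W_Φ hx τ, f_cont := hc, f_open := ho
      f_eq := he, f_proper := fun C hC => ?_, s_mem := hsW, f_s := fun _ _ _ => rfl
      s_lift := fun k => (h k).lift, lam_hol := fun k => (h k).hol, lam_bij := fun k => (h k).bij
      lam_per := fun k => (h k).per }⟩⟩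
  · refine ⟨id, by rw [← hγp j y hy, ← e, hγp i z hz]; rfl, ?_⟩
    filter_upwards [((hcp i).continuousAt ((h i).isOpen.mem_nhds hz)).eventually
      ((hop j _ (h j).isOpen Subset.rfl).mem_nhds ⟨y, hy, e.symm⟩), (h i).isOpen.mem_nhds hz]
      with w ⟨c, hc', e'⟩ hw
    have h1 : c = w := by rw [← hγp j c hc', ← hγp i w hw]; exact congrArg γ e'
    exact ⟨differentiableAt_id, h1 ▸ hc', h1 ▸ e'⟩
  · have key : ∃ D, IsCompact D ∧ D ⊆ S.W ∧ S.W ∩ f ⁻¹' C ⊆ D := by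
      refine hC.induction_on (p := fun C => ∃ D, IsCompact D ∧ D ⊆ S.W ∧ S.W ∩ f ⁻¹' C ⊆ D)
        ⟨∅, isCompact_empty, empty_subset _, by simp⟩
        (fun C₁ C₂ h1 ⟨D, a1, a2, a3⟩ => ⟨D, a1, a2, fun x hx => a3 ⟨hx.1, h1 hx.2⟩⟩)
        (fun C₁ C₂ ⟨D, a1, a2, a3⟩ ⟨D', b1, b2, b3⟩ => ⟨D ∪ D', a1.union b1, union_subset a2 b2,
          fun x hx => hx.2.imp (fun e => a3 ⟨hx.1, e⟩) fun e => b3 ⟨hx.1, e⟩⟩) fun y _ => ?_
      obtain ⟨k, b, hb', rfl⟩ := hcov y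
      obtain ⟨r, hr', hB⟩ := nhds_basis_closedBall.mem_iff.1 ((h k).isOpen.mem_nhds hb')
      refine ⟨_, mem_nhdsWithin_of_mem_nhds ((hop k _ isOpen_ball
        (ball_subset_closedBall.trans hB)).mem_nhds ⟨b, mem_ball_self hr', rfl⟩), _,
        (h k).cpt (isCompact_closedBall b r) hB, ?_, ?_⟩
      · rintro _ ⟨w, hw, rfl⟩
        exact (h k).mem_W (hB hw.1) _
      · rintro x ⟨hx, c, hc', e⟩
        obtain ⟨τ, rfl⟩ := (he _ (hsW k c (hB (ball_subset_closedBall hc'))) _ hx).1 e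
        exact ⟨(c, τ), ⟨ball_subset_closedBall hc', mem_univ _⟩, rfl⟩
    obtain ⟨D, a1, a2, a3⟩ := key
    have h1 : S.W ∩ f ⁻¹' C = D ∩ f ⁻¹' C :=
      Subset.antisymm (fun x hx => ⟨a3 hx, hx.2⟩) fun x hx => ⟨a2 hx.1, hx.2⟩
    rw [h1]
    exact a1.of_isClosed_subset
      ((hc.mono a2).preimage_isClosed_of_isClosed a1.isClosed hC.isClosed) inter_subset_left

end Pool.Agent.BP
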