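import Pool.Agent.P.MP_63735c_ag.BPB1
import Pool.Agent.P.MP_c4558b_ag.NLMain

/-! Holomorphic periods. -/

open scoped ComplexOrder ContDiff Matrix Topology ENNReal
open Set Metric MeasureTheory Filter

namespace Pool.Agent.BP

open Pool.Agent.SPF Pool.Agent.AB Pool.Agent.CK Pool.Agent.SE Pool.Agent.NL

variable {N n : ℕ} {X : Type} [TopologicalSpace X] {A : Atlas X N} {K : Form11 A} {L : Line A}

theorem lt_eq_sum (l : Matrix (Fin n) (Fin N) ℂ) (t : Fin N → ℝ) :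
    lt l t = ∑ j, t j • fun a => l a j := by
  funext a
  simp [lt, Matrix.mulVec, dotProduct, Finset.sum_apply, mul_comm]

theorem lt_cont (l : Matrix (Fin n) (Fin N) ℂ) : Continuous (lt l) := by
  rw [funext (lt_eq_sum l)]
  fun_prop

theorem lt_add (l : Matrix (Fin n) (Fin N) ℂ) (s t : Fin N → ℝ) :
    lt l (s + t) = lt l s + lt l t := by
  simp only [lt_eq_sum, Pi.add_apply, add_smul, Finset.sum_add_distrib]

/-- The map `lt l` as a real linear map. -/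
def ltL (l : Matrix (Fin n) (Fin N) ℂ) : (Fin N → ℝ) →ₗ[ℝ] E n where
  toFun := lt l
  map_add' := lt_add l
  map_smul' := fun c t => by
    simp only [lt_eq_sum, Pi.smul_apply, smul_eq_mul, mul_smul, RingHom.id_apply, Finset.smul_sum]

theorem lt_sub (l : Matrix (Fin n) (Fin N) ℂ) (s t : Fin N → ℝ) :
    lt l (s - t) = lt l s - lt l t := (ltL l).map_sub s t

theorem lt_contAt {Z : Type} [TopologicalSpace Z] {l : Z → Matrix (Fin n) (Fin N) ℂ}
    {t : Z → Fin N → ℝ} {z : Z} (hl : ∀ a j, ContinuousAt (fun c => l c a j) z)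
    (ht : ContinuousAt t z) : ContinuousAt (fun c => lt (l c) (t c)) z := by
  simp only [lt_eq_sum]
  exact tendsto_finsetSum _ fun j _ =>
    (continuousAt_pi.1 ht j).smul (continuousAt_pi.2 fun a => hl a j)

theorem lt_int_mem {Λ : Submodule ℤ (E n)} {l : Matrix (Fin n) (Fin N) ℂ}
    (h : ∀ j, (fun a => l a j) ∈ Λ) (t : Fin N → ℤ) : (lt l fun j => (t j : ℝ)) ∈ Λ := by
  rw [lt_eq_sum]
  refine Submodule.sum_mem _ fun j _ => ?_
  rw [Int.cast_smul_eq_zsmul]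
  exact Submodule.smul_mem _ _ (h j)

theorem lt_col (l : Matrix (Fin n) (Fin N) ℂ) (j : Fin N) :
    (fun a => l a j) = lt l fun k => ((Pi.single j 1 : Fin N → ℤ) k : ℝ) := by
  rw [lt_eq_sum, Finset.sum_eq_single j (fun k _ hk => by simp [hk]) (by simp)]
  simp

theorem lt_fract (l : Matrix (Fin n) (Fin N) ℂ) (t : Fin N → ℝ) :
    lt l t = (lt l fun j => ((⌊t j⌋ : ℤ) : ℝ)) + lt l fun j => Int.fract (t j) := by
  rw [← lt_add]
  congr 1
  funext j
  exact (Int.floor_add_fract _).symm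

theorem fract_mem (t : Fin N → ℝ) : (fun j => Int.fract (t j)) ∈ Icc (0 : Fin N → ℝ) 1 :=
  ⟨fun _ => Int.fract_nonneg _, fun _ => (Int.fract_lt_one _).le⟩

theorem lt_bij_ev {l : E n → Matrix (Fin n) (Fin N) ℂ} {b : E n}
    (hl : ∀ a j, ContinuousAt (fun c => l c a j) b) (h : Function.Bijective (lt (l b))) :
    ∃ r > 0, ∀ᶠ c in 𝓝 b, Function.Bijective (lt (l c)) ∧ ∀ t, r * ‖t‖ ≤ ‖lt (l c) t‖ := by
  obtain ⟨k, hk, ha⟩ := (ltL (l b)).exists_antilipschitzWith (LinearMap.ker_eq_bot.2 h.1)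
  have hk' : (0 : ℝ) < k := hk
  have hc : ContinuousAt (fun c => ∑ j, ‖fun a => l c a j - l b a j‖) b :=
    tendsto_finsetSum _ fun j _ =>
      (continuousAt_pi.2 fun a => (hl a j).sub continuousAt_const).norm
  have h0 : (∑ j, ‖fun a => l b a j - l b a j‖) < 1 / (2 * k) := by
    simp only [sub_self, norm_eq_zero.2 (rfl : (fun _ : Fin n => (0 : ℂ)) = 0),
      Finset.sum_const_zero]
    positivity
  refine ⟨1 / (2 * k), by positivity, ?_⟩
  filter_upwards [hc.eventually (gt_mem_nhds h0)] with c hc'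
  have h1 : ∀ t, 1 / (2 * k) * ‖t‖ ≤ ‖lt (l c) t‖ := fun t => by
    have h2 : ‖t‖ ≤ k * ‖lt (l b) t‖ := ha.le_mul_norm (map_zero _) t
    have h3 : ‖lt (l c) t - lt (l b) t‖ ≤ 1 / (2 * k) * ‖t‖ := by
      rw [lt_eq_sum, lt_eq_sum, ← Finset.sum_sub_distrib]
      refine (norm_sum_le _ _).trans (le_trans ?_
        (mul_le_mul_of_nonneg_right hc'.le (norm_nonneg t)))
      rw [Finset.sum_mul]
      refine Finset.sum_le_sum fun j _ => ?_
      rw [← smul_sub, norm_smul, mul_comm]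
      exact mul_le_mul_of_nonneg_left (norm_le_pi_norm t j) (norm_nonneg _)
    have h4 := norm_sub_norm_le (lt (l b) t) (lt (l c) t)
    rw [norm_sub_rev] at h4
    have h5 : 2 * (1 / (2 * k) * ‖t‖) ≤ ‖lt (l b) t‖ := by
      rw [show 2 * (1 / (2 * (k : ℝ)) * ‖t‖) = ‖t‖ / k by field_simp, div_le_iff₀ hk']
      linarith
    linarith
  have hi : Function.Injective (ltL (l c)) := (injective_iff_map_eq_zero _).2 fun t ht => by
    have h2 := h1 t
    rw [show lt (l c) t = 0 from ht, norm_zero] at h2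
    exact norm_le_zero_iff.1 (nonpos_of_mul_nonpos_right h2 (by positivity))
  exact ⟨⟨hi, (LinearMap.injective_iff_surjective_of_finrank_eq_finrank
    (LinearEquiv.ofBijective (ltL (l b)) h).finrank_eq).1 hi⟩, h1⟩

theorem exists_basis (hN : N = 2 * n) {Λ : Submodule ℤ (E n)} [DiscreteTopology Λ]
    (h : Submodule.span ℝ (Λ : Set (E n)) = ⊤) : ∃ l : Matrix (Fin n) (Fin N) ℂ,
      Function.Bijective (lt l) ∧ ∀ τ, τ ∈ Λ ↔ ∃ t : Fin N → ℤ, τ = lt l fun j => (t j : ℝ) := by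
  have : IsZLattice ℝ Λ := ⟨h⟩
  have hr' : Module.finrank ℤ Λ = N := by
    rw [ZLattice.rank ℝ Λ, finrank_real_of_complex, hN]
    simp
  let b := Module.finBasisOfFinrankEq ℤ Λ hr'
  let B := b.ofZLatticeBasis ℝ Λ
  have hB : ∀ j, B j = b j := fun j => b.ofZLatticeBasis_apply ℝ Λ j
  have he : ∀ t, lt (Matrix.of fun a j => B j a) t = B.equivFun.symm t := fun t => by
    rw [lt_eq_sum, Module.Basis.equivFun_symm_apply]
    rfl
  refine ⟨Matrix.of fun a j => B j a, funext he ▸ B.equivFun.symm.bijective, fun τ =>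
    ⟨fun hτ => ⟨fun j => b.repr ⟨τ, hτ⟩ j, ?_⟩, ?_⟩⟩
  · rw [he, LinearEquiv.eq_symm_apply]
    funext j
    exact b.ofZLatticeBasis_repr_apply ℝ Λ ⟨τ, hτ⟩ j
  · rintro ⟨t, rfl⟩
    refine lt_int_mem (fun j => ?_) t
    change B j ∈ Λ
    rw [hB]
    exact (b j).2

namespace Sys

variable {S : Sys K L n}

/-- A tube of tori with holomorphic periods. -/
structure Tub (S : Sys K L n) (T : Set (E n)) (s : E n → X)
    (l : E n → Matrix (Fin n) (Fin N) ℂ) : Prop extends S.Sect T s where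
  convex : Convex ℝ T
  hol : ∀ a j, DifferentiableOn ℂ (fun b => l b a j) T
  bij : ∀ b ∈ T, Function.Bijective (lt (l b))
  per : ∀ b ∈ T, ∀ τ, S.Φ (s b) τ = s b ↔ ∃ t : Fin N → ℤ, τ = lt (l b) fun j => (t j : ℝ)

/-- A period extends holomorphically along a section. -/
theorem bpb2_per {T s} (hs : S.Sect T s) {b τ : E n} (hb : b ∈ T) (h : S.Φ (s b) τ = s b) :
    ∃ μ : E n → E n, μ b = τ ∧ ∀ᶠ c in 𝓝 b, DifferentiableAt ℂ μ c ∧ S.Φ (s c) (μ c) = s c := by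
  obtain ⟨j, e, he, -, hd, h1⟩ := hs.loc (w₀ := (b, τ)) hb
  obtain ⟨i, F, hF⟩ := hs.lift b hb
  have h0 := hF.self_of_nhds
  obtain ⟨O, φ, a1, a2, a3, a4⟩ := A.trans i j _ h0.2.1 _ (h1 _ he).2.1
    (by rw [h0.2.2, (h1 _ he).2.2.1, h])
  have c1 : ContinuousAt (fun c => φ (F c)) b :=
    (a1.lin3_diff a2).continuousAt.comp h0.1.continuousAt
  have a5 : φ (F b) ∈ e.target := a3 ▸ e.map_source he
  refine ⟨fun c => (e.symm (φ (F c))).2, by simp only [a3, e.left_inv he], ?_⟩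
  filter_upwards [hF, h0.1.continuousAt.eventually (a1.isOpen.mem_nhds a2),
    c1.eventually (e.open_target.mem_nhds a5), hs.isOpen.mem_nhds hb] with c b1 b2 b3 b4
  obtain ⟨d1, -, d2, -⟩ := h1 _ (e.map_target b3)
  rw [e.right_inv b3, a4 _ b2, b1.2.2] at d2
  have d3 := congrArg S.g d2
  rw [S.g_Φ _ (hs.mem _ d1), hs.g_s _ d1, hs.g_s _ b4] at d3
  refine ⟨((hd.differentiableAt (e.open_target.mem_nhds b3)).comp c
    ((a1.lin3_diff b2).comp c b1.1)).snd, ?_⟩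
  rw [← d3] at d2
  exact d2.symm

theorem exists_tub [T2Space X] {x : X} (hx : x ∈ S.W) :
    ∃ T s l, S.Tub T s l ∧ S.g x ∈ T ∧ s (S.g x) = x := by
  obtain ⟨T, s, hs, hb, hsx⟩ := exists_sect hx.1 hx.2.1
  obtain ⟨r, hr', hno⟩ := no_short hx.1 hx.2.1
  have := disc_of_small (Λ := S.per hx.1) hr' fun v hv => hno.self_of_nhds.2.2 v hv
  obtain ⟨l₀, hl₀, hΛ⟩ := exists_basis S.hN (Λ := S.per hx.1) hx.2.2
  choose μ hμ0 hμ using fun j => bpb2_per hs hb (τ := fun a => l₀ a j) (by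
    rw [hsx]
    exact (hΛ _).2 ⟨_, lt_col l₀ j⟩)
  let l : E n → Matrix (Fin n) (Fin N) ℂ := fun b => Matrix.of fun a j => μ j b a
  have hl0 : l (S.g x) = l₀ := by
    ext a j
    exact congrFun (hμ0 j) a
  have hlc : ∀ a j, ContinuousAt (fun c => l c a j) (S.g x) := fun a j =>
    continuousAt_pi.1 (hμ j).self_of_nhds.1.continuousAt a
  obtain ⟨r₁, -, hbij⟩ := lt_bij_ev hlc (hl0.symm ▸ hl₀)
  have hT := hs.isOpen.mem_nhds hb
  have hsc : ContinuousAt s (S.g x) := hs.cont.continuousAt hT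
  have hall := eventually_all.2 hμ
  have hint : ∀ᶠ b in 𝓝 (S.g x), b ∈ T ∧ ∀ k : Fin N → ℤ,
      S.Φ (s b) (lt (l b) fun j => (k j : ℝ)) = s b := by
    filter_upwards [hT, hall] with b h1 h2
    exact ⟨h1, lt_int_mem (Λ := S.per (hs.mem b h1)) fun j => (h2 j).2⟩
  have hex : ∀ᶠ b in 𝓝 (S.g x), ∀ t ∈ Icc (0 : Fin N → ℝ) 1, S.Φ (s b) (lt (l b) t) = s b →
      ∃ k : Fin N → ℤ, t = fun j => (k j : ℝ) := by
    refine isCompact_Icc.eventually_forall_of_forall_eventually fun t₀ _ => ?_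
    have c1 : Tendsto (Prod.fst : E n × (Fin N → ℝ) → E n) (𝓝 (S.g x, t₀)) (𝓝 (S.g x)) :=
      continuousAt_fst
    have c2 : ∀ a j, ContinuousAt (fun z : E n × (Fin N → ℝ) => l z.1 a j) (S.g x, t₀) :=
      fun a j => (hlc a j).comp_of_eq continuousAt_fst rfl
    have c3 : ContinuousAt (fun z : E n × (Fin N → ℝ) => s z.1) (S.g x, t₀) :=
      hsc.comp_of_eq continuousAt_fst rfl
    by_cases h0 : S.Φ x (lt l₀ t₀) = x
    · obtain ⟨k, hk⟩ := (hΛ _).1 h0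
      have h1 := hl₀.1 hk
      have c4 := (lt_contAt c2 (t := fun z => z.2 - fun j => (k j : ℝ))
        (continuousAt_snd.sub continuousAt_const)).norm
      have h2 : ‖lt (l (S.g x)) (t₀ - fun j => (k j : ℝ))‖ < 2 * r := by
        rw [h1, lt_sub, sub_self, norm_zero]
        positivity
      have c5 : Tendsto (fun z : E n × (Fin N → ℝ) => s z.1) (𝓝 (S.g x, t₀)) (𝓝 x) := by
        have := c3.tendsto
        rwa [hsx] at this
      filter_upwards [c1.eventually hint, c1.eventually hbij, c5.eventually hno,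
        c4.eventually (gt_mem_nhds h2)] with z a1 a2 a3 a4 a5
      have a6 := a3.2.2 _ (by
        rw [lt_sub]
        exact (S.per a3.1).sub_mem a5 (a1.2 k)) a4
      rw [lt_sub, sub_eq_zero] at a6
      exact ⟨k, a2.1.1 a6⟩
    · have c4 : ContinuousAt (fun z : E n × (Fin N → ℝ) => S.Φ (s z.1) (lt (l z.1) z.2))
          (S.g x, t₀) := (S.Φ_cont.continuousAt ((S.U_open.prod isOpen_univ).mem_nhds
            ⟨hs.mem _ hb, mem_univ _⟩)).comp_of_eq (c3.prodMk (lt_contAt c2 continuousAt_snd)) rfl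
      refine ((c4.ne_iff_eventually_ne c3).1 ?_).mono fun z hz h => absurd h hz
      simpa only [hsx, hl0] using h0
  obtain ⟨ρ, hρ, hB⟩ := Metric.eventually_nhds_iff_ball.1
    ((hint.and hall).and (hbij.and hex))
  refine ⟨ball (S.g x) ρ, s, l, ⟨hs.mono isOpen_ball fun b h => (hB b h).1.1.1, convex_ball _ _,
    fun a j b h => (differentiableAt_pi.1 ((hB b h).1.2 j).1 a).differentiableWithinAt,
    fun b h => (hB b h).2.1.1, fun b h τ => ⟨fun hτ => ?_, ?_⟩⟩, mem_ball_self hρ, hsx⟩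
  · obtain ⟨⟨⟨a1, a2⟩, -⟩, a3, a4⟩ := hB b h
    obtain ⟨t, rfl⟩ := a3.1.2 τ
    obtain ⟨k, hk⟩ := a4 _ (fract_mem t) (by
      rwa [lt_fract, ← S.Φ_add _ (hs.mem b a1), a2] at hτ)
    refine ⟨fun j => ⌊t j⌋ + k j, ?_⟩
    rw [lt_fract, hk, ← lt_add]
    congr 1
    funext j
    simp
  · rintro ⟨k, rfl⟩
    exact (hB b h).1.1.2 k

theorem Tub.mem_W {T s l} (h : S.Tub T s l) {b : E n} (hb : b ∈ T) (τ : E n) :
    S.Φ (s b) τ ∈ S.W := by
  refine S.W_Φ ⟨h.mem b hb, h.toSect.pos hb, eq_top_iff.2 fun v _ => ?_⟩ τ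
  obtain ⟨t, rfl⟩ := (h.bij b hb).2 v
  rw [lt_eq_sum]
  exact Submodule.sum_mem _ fun j _ => Submodule.smul_mem _ _
    (Submodule.subset_span ((h.per b hb _).2 ⟨_, lt_col (l b) j⟩))

theorem Tub.red {T s l} (h : S.Tub T s l) {b : E n} (hb : b ∈ T) (τ : E n) :
    ∃ t ∈ Icc (0 : Fin N → ℝ) 1, S.Φ (s b) (lt (l b) t) = S.Φ (s b) τ := by
  obtain ⟨t, rfl⟩ := (h.bij b hb).2 τ
  refine ⟨_, fract_mem t, ?_⟩
  rw [lt_fract (l b) t, ← S.Φ_add _ (h.mem b hb), (h.per b hb _).2 ⟨_, rfl⟩]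

theorem Tub.contAt {T s l} (h : S.Tub T s l) {z : E n × (Fin N → ℝ)} (hz : z.1 ∈ T) :
    ContinuousAt (fun z : E n × (Fin N → ℝ) => S.Φ (s z.1) (lt (l z.1) z.2)) z := by
  have hT := h.isOpen.mem_nhds hz
  exact (S.Φ_cont.continuousAt ((S.U_open.prod isOpen_univ).mem_nhds
    ⟨h.mem _ hz, mem_univ _⟩)).comp_of_eq
    (((h.toSect.cont.continuousAt hT).comp continuousAt_fst).prodMk (lt_contAt (fun a j =>
      ((h.hol a j).continuousOn.continuousAt hT).comp continuousAt_fst) continuousAt_snd)) rfl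

theorem Tub.cpt {T s l} (h : S.Tub T s l) {C : Set (E n)} (hC : IsCompact C) (hs : C ⊆ T) :
    IsCompact ((fun w : E n × E n => S.Φ (s w.1) w.2) '' (C ×ˢ univ)) := by
  have h1 := ((hC.prod (isCompact_Icc (a := (0 : Fin N → ℝ)) (b := 1))).image_of_continuousOn
    fun z hz => (h.contAt (hs hz.1)).continuousWithinAt)
  convert h1 using 1
  ext y
  constructor
  · rintro ⟨⟨b, τ⟩, ⟨hb, -⟩, rfl⟩
    obtain ⟨t, ht, he⟩ := h.red (hs hb) τ
    exact ⟨(b, t), ⟨hb, ht⟩, he⟩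
  · rintro ⟨⟨b, t⟩, ⟨hb, -⟩, rfl⟩
    exact ⟨(b, lt (l b) t), ⟨hb, mem_univ _⟩, rfl⟩

theorem W_isOpen [T2Space X] (S : Sys K L n) : IsOpen S.W := by
  refine isOpen_iff_mem_nhds.2 fun x hx => ?_
  obtain ⟨T, s, l, h, hb, hsx⟩ := exists_tub hx
  refine mem_of_superset ((h.toSect.isOpen_img (h.isOpen.prod isOpen_univ)
    fun w hw => hw.1).mem_nhds ⟨(S.g x, 0), ⟨hb, mem_univ _⟩, ?_⟩) ?_
  · simp only [hsx, S.Φ_zero x hx.1]
  · rintro _ ⟨w, hw, rfl⟩
    exact h.mem_W hw.1 _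

end Sys

end Pool.Agent.BP
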