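import Pool.Agent.P.MP_63735c_ag.BPT1

/-! Averages of periodic functions. -/

open scoped ComplexOrder ContDiff Matrix Topology ENNReal
open Set Metric MeasureTheory Filter

namespace Pool.Agent.BP

open Pool.Agent.SPF Pool.Agent.AB Pool.Agent.CK Pool.Agent.SE Pool.Agent.NL

variable {N n : ℕ} {l : Matrix (Fin n) (Fin N) ℂ}

/-- `u` is periodic for the lattice spanned by the columns of `l`. -/
def Per {F : Type} (l : Matrix (Fin n) (Fin N) ℂ) (u : E n → F) : Prop :=
  ∀ (τ : E n) (t : Fin N → ℤ), u (τ + lt l fun j => (t j : ℝ)) = u τ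

theorem cube_vol (N : ℕ) : MeasurableSet (cube N) ∧ volume (cube N) = 1 := by
  refine ⟨MeasurableSet.univ_pi fun _ => measurableSet_Ico, ?_⟩
  rw [cube, volume_pi_pi]
  simp

theorem bpt10_sub (N : ℕ) : cube N ⊆ Icc 0 1 := fun _ ht =>
  ⟨fun i => (ht i trivial).1, fun i => (ht i trivial).2.le⟩

theorem bpt10_fd (N : ℕ) : IsAddFundamentalDomain
    (Submodule.span ℤ (range (Pi.basisFun ℝ (Fin N)))).toAddSubgroup (cube N) volume := by
  have h := ZSpan.isAddFundamentalDomain' (Pi.basisFun ℝ (Fin N)) volume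
  rwa [ZSpan.fundamentalDomain_pi_basisFun] at h

theorem bpt10_fd' (s : Fin N → ℝ) : IsAddFundamentalDomain
    (Submodule.span ℤ (range (Pi.basisFun ℝ (Fin N)))).toAddSubgroup
      ((fun t => t + -s) ⁻¹' cube N) volume :=
  (bpt10_fd N).preimage_of_equiv (measurePreserving_add_right volume (-s)).quasiMeasurePreserving
    Function.bijective_id fun g x => by
      simp only [id, AddSubgroup.vadd_def, vadd_eq_add, add_assoc]

theorem bpt10_inv {F : Type} {u : (Fin N → ℝ) → F}
    (hu : ∀ t (k : Fin N → ℤ), u (t + fun j => (k j : ℝ)) = u t)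
    (g : (Submodule.span ℤ (range (Pi.basisFun ℝ (Fin N)))).toAddSubgroup) (x : Fin N → ℝ) :
    u (g +ᵥ x) = u x := by
  choose k hk using ((Pi.basisFun ℝ (Fin N)).mem_span_iff_repr_mem ℤ (g : Fin N → ℝ)).1 g.2
  have e : (g : Fin N → ℝ) = fun j => (k j : ℝ) := funext fun j => by simpa using (hk j).symm
  rw [AddSubgroup.vadd_def, vadd_eq_add, add_comm, e, hu]

theorem bpt10_count (N : ℕ) :
    Countable (Submodule.span ℤ (range (Pi.basisFun ℝ (Fin N)))).toAddSubgroup :=
  inferInstanceAs (Countable (Submodule.span ℤ (range (Pi.basisFun ℝ (Fin N)))))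

theorem cube_shift {F : Type} [NormedAddCommGroup F] [NormedSpace ℝ F] {u : (Fin N → ℝ) → F}
    (hu : ∀ t (k : Fin N → ℤ), u (t + fun j => (k j : ℝ)) = u t) (s : Fin N → ℝ) :
    ∫ t in cube N, u (t + s) = ∫ t in cube N, u t := by
  have := bpt10_count N
  rw [(bpt10_fd N).setIntegral_eq (bpt10_fd' s) (bpt10_inv hu),
    ← (measurePreserving_add_right volume (-s)).setIntegral_preimage_emb
      (measurableEmbedding_addRight (-s)) (fun t => u (t + s))]
  simp only [neg_add_cancel_right]

theorem cube_lshift {u : (Fin N → ℝ) → ℝ≥0∞}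
    (hu : ∀ t (k : Fin N → ℤ), u (t + fun j => (k j : ℝ)) = u t) (s : Fin N → ℝ) :
    ∫⁻ t in cube N, u (t + s) = ∫⁻ t in cube N, u t := by
  have := bpt10_count N
  rw [(bpt10_fd N).setLIntegral_eq (bpt10_fd' s) u (bpt10_inv hu),
    ← (measurePreserving_add_right volume (-s)).setLIntegral_comp_preimage_emb
      (measurableEmbedding_addRight (-s)) (fun t => u (t + s))]
  simp only [neg_add_cancel_right]

theorem cube_int {F : Type} [NormedAddCommGroup F] {u : (Fin N → ℝ) → F} (hu : Continuous u) :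
    IntegrableOn u (cube N) volume :=
  (hu.continuousOn.integrableOn_compact isCompact_Icc).mono_set (bpt10_sub N)

theorem bpt10_const {F : Type} [NormedAddCommGroup F] [NormedSpace ℝ F] [CompleteSpace F] (c : F) :
    ∫ _ in cube N, c = c := by
  rw [setIntegral_const, Measure.real, (cube_vol N).2, ENNReal.toReal_one, one_smul]

section Param

variable {P : Type} [NormedAddCommGroup P] [NormedSpace ℝ P]

theorem bpt10_has {G : Type} [NormedAddCommGroup G] [NormedSpace ℝ G] {u : P × (Fin N → ℝ) → G}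
    {b : P} (hf : ∀ t, ContDiffAt ℝ 1 u (b, t)) :
    HasFDerivAt (fun y => ∫ t in cube N, u (y, t))
      (∫ t in cube N, (fderiv ℝ u (b, t)).comp (ContinuousLinearMap.inl ℝ P _)) b ∧
    Continuous fun t => (fderiv ℝ u (b, t)).comp (ContinuousLinearMap.inl ℝ P _) := by
  set D : P × (Fin N → ℝ) → P →L[ℝ] G :=
    fun q => (fderiv ℝ u q).comp (ContinuousLinearMap.inl ℝ P _) with hD
  have hDc : ∀ t, ContinuousAt D (b, t) := fun t =>
    ((hf t).continuousAt_fderiv one_ne_zero).clm_comp continuousAt_const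
  have hDs : Continuous fun t => D (b, t) := continuous_iff_continuousAt.2 fun t =>
    ContinuousAt.comp (f := fun s : Fin N → ℝ => (b, s)) (hDc t) (by fun_prop)
  obtain ⟨C, hC⟩ := (isCompact_Icc (a := (0 : Fin N → ℝ)) (b := 1)).exists_bound_of_continuousOn
    hDs.continuousOn
  have htube : ∀ᶠ y in 𝓝 b, ∀ s ∈ Icc (0 : Fin N → ℝ) 1,
      ContDiffAt ℝ 1 u (y, s) ∧ ‖D (y, s)‖ ≤ C + 1 := by
    refine isCompact_Icc.eventually_forall_of_forall_eventually
      (P := fun y s => ContDiffAt ℝ 1 u (y, s) ∧ ‖D (y, s)‖ ≤ C + 1) fun s hs => ?_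
    have h1 := (hf s).eventually (by simp)
    have h2 : ∀ᶠ z in 𝓝 (b, s), ‖D z‖ < C + 1 :=
      (hDc s).norm.eventually_lt continuousAt_const (by linarith [hC s hs])
    filter_upwards [h1, h2] with z a b
    exact ⟨a, b.le⟩
  have hm := (cube_vol N).1
  refine ⟨hasFDerivAt_integral_of_dominated_of_fderiv_le (F' := fun y s => D (y, s))
    (bound := fun _ => C + 1) htube ?_ ?_ ?_ ?_ ?_ ?_, hDs⟩
  · filter_upwards [htube] with y hy
    refine ContinuousOn.aestronglyMeasurable (fun s hs => ?_) hm
    exact (ContinuousAt.comp (f := fun s : Fin N → ℝ => (y, s))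
      (hy s (bpt10_sub N hs)).1.continuousAt (by fun_prop)).continuousWithinAt
  · exact cube_int (continuous_iff_continuousAt.2 fun t =>
      ContinuousAt.comp (f := fun s : Fin N → ℝ => (b, s)) (hf t).continuousAt (by fun_prop))
  · exact hDs.aestronglyMeasurable
  · exact (ae_restrict_iff' hm).2 (Eventually.of_forall fun s hs y hy => (hy s (bpt10_sub N hs)).2)
  · exact cube_int continuous_const
  · exact (ae_restrict_iff' hm).2 (Eventually.of_forall fun s hs y hy =>
      HasFDerivAt.comp (g := u) (f := fun y : P => (y, s)) y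
        ((hy s (bpt10_sub N hs)).1.differentiableAt one_ne_zero).hasFDerivAt
        (hasFDerivAt_prodMk_left y s))

theorem bpt10_nat {O : Set P} (hO : IsOpen O) (k : ℕ) :
    ∀ {G : Type} [NormedAddCommGroup G] [NormedSpace ℝ G] {u : P × (Fin N → ℝ) → G},
      (∀ b ∈ O, ∀ t, ContDiffAt ℝ ∞ u (b, t)) →
      ContDiffOn ℝ k (fun b => ∫ t in cube N, u (b, t)) O := by
  induction k with
  | zero =>
    intro G _ _ u hu
    refine contDiffOn_zero.2 fun x hx => ?_
    exact (bpt10_has fun s => (hu x hx s).of_le (by simp)).1.continuousAt.continuousWithinAt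
  | succ k ih =>
    intro G _ _ u hu
    have hd := fun x hx => (bpt10_has (u := u) (b := x) fun s => (hu x hx s).of_le (by simp)).1
    rw [Nat.cast_succ, contDiffOn_succ_iff_fderiv_of_isOpen hO]
    refine ⟨fun x hx => (hd x hx).differentiableAt.differentiableWithinAt, by simp, ?_⟩
    have h := ih (u := fun q => (fderiv ℝ u q).comp (ContinuousLinearMap.inl ℝ P _))
      fun x hx s => ((hu x hx s).fderiv_right (m := ∞) (by simp)).clm_comp contDiffAt_const
    exact h.congr fun x hx => (hd x hx).fderiv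

theorem bpt10_fderiv {G : Type} [NormedAddCommGroup G] [NormedSpace ℝ G] [CompleteSpace G]
    {u : P × (Fin N → ℝ) → G} {b : P} (hf : ∀ t, ContDiffAt ℝ 1 u (b, t)) (v : P) :
    fderiv ℝ (fun y => ∫ t in cube N, u (y, t)) b v = ∫ t in cube N, fderiv ℝ u (b, t) (v, 0) := by
  obtain ⟨h1, h2⟩ := bpt10_has hf
  rw [h1.fderiv, ContinuousLinearMap.integral_apply (cube_int h2)]
  rfl

end Param

theorem cube_deriv {u : (Fin N → ℝ) → ℂ} (hs : ContDiff ℝ 1 u)
    (hu : ∀ t (k : Fin N → ℤ), u (t + fun j => (k j : ℝ)) = u t) (v : Fin N → ℝ) :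
    ∫ t in cube N, fderiv ℝ u t v = 0 := by
  have h := bpt10_fderiv (u := fun q : (Fin N → ℝ) × (Fin N → ℝ) => u (q.2 + q.1)) (b := 0)
    (fun t => (hs.comp (contDiff_snd.add contDiff_fst)).contDiffAt) v
  simp only [cube_shift hu, fderiv_fun_const, Pi.zero_apply, zero_apply] at h
  rw [h]
  refine integral_congr_ae (Eventually.of_forall fun t => ?_)
  have h1 : HasFDerivAt (fun q : (Fin N → ℝ) × (Fin N → ℝ) => u (q.2 + q.1))
      ((fderiv ℝ u (t + 0)).comp (ContinuousLinearMap.snd ℝ _ _ + ContinuousLinearMap.fst ℝ _ _))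
      (0, t) :=
    HasFDerivAt.comp (g := u) (f := fun q : (Fin N → ℝ) × (Fin N → ℝ) => q.2 + q.1) (0, t)
      (hs.differentiable one_ne_zero _).hasFDerivAt (hasFDerivAt_snd.add hasFDerivAt_fst)
  beta_reduce
  rw [h1.fderiv]
  simp

theorem cube_param {P : Type} [NormedAddCommGroup P] [NormedSpace ℝ P] [FiniteDimensional ℝ P]
    {O : Set P} (hO : IsOpen O) {u : P × (Fin N → ℝ) → ℂ} (hu : ContDiffOn ℝ ∞ u (O ×ˢ univ)) :
    ContDiffOn ℝ ∞ (fun b => ∫ t in cube N, u (b, t)) O ∧ ∀ b ∈ O, ∀ v,
      fderiv ℝ (fun b => ∫ t in cube N, u (b, t)) b v = ∫ t in cube N, fderiv ℝ u (b, t) (v, 0) := by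
  have h : ∀ b ∈ O, ∀ t, ContDiffAt ℝ ∞ u (b, t) := fun b hb t =>
    hu.contDiffAt ((hO.prod isOpen_univ).mem_nhds ⟨hb, trivial⟩)
  exact ⟨contDiffOn_infty.2 fun k => bpt10_nat hO k h,
    fun b hb v => bpt10_fderiv (fun t => (h b hb t).of_le (by simp)) v⟩

/-- The map `lt l` as a linear map. -/
noncomputable def bpt10_L (l : Matrix (Fin n) (Fin N) ℂ) : (Fin N → ℝ) →L[ℝ] E n :=
  LinearMap.toContinuousLinearMap
    { toFun := lt l
      map_add' := fun s t => by
        simp only [lt, Pi.add_apply, Complex.ofReal_add]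
        exact Matrix.mulVec_add l _ _
      map_smul' := fun c t => by
        funext a
        simp only [lt, Matrix.mulVec, dotProduct, Pi.smul_apply, smul_eq_mul, Complex.ofReal_mul,
          RingHom.id_apply, Complex.real_smul, Finset.mul_sum]
        exact Finset.sum_congr rfl fun j _ => by ring }

theorem bpt10_L_eq (l : Matrix (Fin n) (Fin N) ℂ) : lt l = bpt10_L l := rfl

theorem bpt10_add (l : Matrix (Fin n) (Fin N) ℂ) (s t : Fin N → ℝ) :
    lt l (s + t) = lt l s + lt l t := map_add (bpt10_L l) s t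

theorem bpt10_cont (l : Matrix (Fin n) (Fin N) ℂ) : Continuous (lt l) := (bpt10_L l).continuous

theorem Per.bpt10_cube {F : Type} {u : E n → F} (hu : Per l u) (t : Fin N → ℝ) (k : Fin N → ℤ) :
    u (lt l (t + fun j => (k j : ℝ))) = u (lt l t) := by
  rw [bpt10_add, hu]

theorem bpt10_fd0 (hl : Function.Bijective (lt l)) {u : E n → ℂ} (hs : ContDiff ℝ ∞ u)
    (hu : Per l u) (v : E n) : ∫ t in cube N, fderiv ℝ u (lt l t) v = 0 := by
  obtain ⟨s, rfl⟩ := hl.2 v
  rw [← cube_deriv (u := fun t => u (lt l t)) ((hs.of_le (by simp)).comp (bpt10_L l).contDiff)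
    hu.bpt10_cube s]
  refine integral_congr_ae (Eventually.of_forall fun t => ?_)
  have h1 : HasFDerivAt (fun t => u (lt l t)) ((fderiv ℝ u (lt l t)).comp (bpt10_L l)) t :=
    HasFDerivAt.comp (g := u) (f := lt l) t (hs.differentiable (by simp) _).hasFDerivAt
      (bpt10_L l).hasFDerivAt
  beta_reduce
  rw [h1.fderiv]
  rfl

theorem bpt10_lin {f g : (Fin N → ℝ) → ℂ} (hf : Continuous f) (hg : Continuous g) (α β : ℂ) :
    ∫ t in cube N, (α * f t + β * g t) = α * (∫ t in cube N, f t) + β * ∫ t in cube N, g t := by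
  rw [integral_add ((cube_int hf).const_mul α) ((cube_int hg).const_mul β), integral_const_mul,
    integral_const_mul]

theorem per_dz (hl : Function.Bijective (lt l)) {u : E n → ℂ} (hs : ContDiff ℝ ∞ u) (hu : Per l u)
    (a : Fin n) : ∫ t in cube N, dz a u (lt l t) = 0 ∧ ∫ t in cube N, dzb a u (lt l t) = 0 := by
  have hc : ∀ v, Continuous fun t => fderiv ℝ u (lt l t) v := fun v =>
    ((hs.continuous_fderiv (by simp)).comp (bpt10_cont l)).clm_apply continuous_const
  simp only [fun z => (bpt1_dz a u z).1, fun z => (bpt1_dz a u z).2, bpt10_lin (hc _) (hc _),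
    bpt10_fd0 hl hs hu, mul_zero, add_zero, and_self]

theorem cell_int (hl : Function.Bijective (lt l)) (u : E n → ℝ≥0∞) :
    0 < cov l ∧ ∫⁻ τ in lt l '' cube N, u τ = ENNReal.ofReal (cov l) * ∫⁻ t in cube N, u (lt l t) := by
  let e : (Fin N → ℝ) ≃L[ℝ] E n :=
    (LinearEquiv.ofBijective (bpt10_L l : (Fin N → ℝ) →ₗ[ℝ] E n) hl).toContinuousLinearEquiv
  have he : lt l = e := rfl
  have hemb : MeasurableEmbedding e := e.toHomeomorph.measurableEmbedding
  have hv := Measure.isAddLeftInvariant_eq_smul (volume : Measure (E n)) (Measure.map e volume)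
  have hp := Measure.addHaarScalarFactor_pos_of_isAddHaarMeasure (volume : Measure (E n))
    (Measure.map e volume)
  generalize Measure.addHaarScalarFactor (volume : Measure (E n)) (Measure.map e volume) = c
    at hv hp
  have key : ∀ w : E n → ℝ≥0∞, ∫⁻ τ in e '' cube N, w τ = c * ∫⁻ t in cube N, w (e t) := by
    intro w
    rw [hv, Measure.restrict_smul, lintegral_smul_measure, hemb.restrict_map, hemb.lintegral_map,
      preimage_image_eq _ e.injective]
    rfl
  have h1 : cov l = c := by
    have := key fun _ => 1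
    rw [setLIntegral_one, setLIntegral_one, (cube_vol N).2, mul_one] at this
    rw [cov, he, Measure.real, this, ENNReal.coe_toReal]
  rw [h1, ENNReal.ofReal_coe_nnreal, he]
  exact ⟨NNReal.coe_pos.2 hp, key u⟩

theorem bpt10_bdd (hl : Function.Bijective (lt l)) {F : E n → ℂ} (hc : Continuous F)
    (hF : Per l F) : Bornology.IsBounded (range F) := by
  refine ((isCompact_Icc (a := (0 : Fin N → ℝ)) (b := 1)).image
    (hc.comp (bpt10_cont l))).isBounded.subset ?_
  rintro _ ⟨w, rfl⟩
  obtain ⟨s, rfl⟩ := hl.2 w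
  refine ⟨fun j => Int.fract (s j), ⟨fun j => Int.fract_nonneg _, fun j => (Int.fract_lt_one _).le⟩,
    ?_⟩
  have e : s = (fun j => Int.fract (s j)) + fun j => ((⌊s j⌋ : ℤ) : ℝ) :=
    funext fun j => (Int.fract_add_floor (s j)).symm
  conv_rhs => rw [e]
  exact (hF.bpt10_cube _ _).symm

theorem bpt10_liou (hl : Function.Bijective (lt l)) {F : E n → ℂ} (hd : Differentiable ℝ F)
    (hF : Per l F) (h0 : ∀ c w, dz c F w = 0) (w : E n) : F w = F 0 := by
  have h1 : Differentiable ℂ fun w => star (F w) := fun w =>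
    diff_of_dzb (hd w).star fun a => by rw [← (star_dz F w a).1, h0, star_zero]
  have h2 : Per l fun w => star (F w) := fun τ t => congrArg star (hF τ t)
  exact star_injective (h1.apply_eq_apply_of_bounded (bpt10_bdd hl h1.continuous h2) w 0)

theorem bpt10_shift (f : E n → ℂ) (w τ : E n) (a : Fin n) :
    dz a (fun x => f (x + w)) τ = dz a f (τ + w) := by
  simp only [dz, fderiv_comp_add_right]

theorem bpt10_dzc {f : E n → ℂ} (hf : ContDiff ℝ ∞ f) (a : Fin n) : Continuous (dz a f) :=
  (contDiffOn_univ.1 (dz_smooth isOpen_univ hf.contDiffOn a).1).continuous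

theorem bpt10_pair (hl : Function.Bijective (lt l)) {p θ : Fin n → E n → ℂ}
    (hp : ∀ a, ContDiff ℝ ∞ (p a)) (hθ : ∀ a, ContDiff ℝ ∞ (θ a)) (hp' : ∀ a, Per l (p a))
    (hθ' : ∀ a, Per l (θ a)) (hd : ∀ τ, ∑ a, dz a (p a) τ = 0)
    (hc : ∀ τ a c, dz c (θ a) τ = dz a (θ c) τ) :
    ∫ t in cube N, ∑ a, p a (lt l t) * θ a (lt l t) =
      ∫ t in cube N, ∑ a, p a (lt l t) * ∫ s in cube N, θ a (lt l s) := by
  have hL : ContDiff ℝ ∞ (lt l) := (bpt10_L l).contDiff
  set u : E n × (Fin N → ℝ) → ℂ := fun q => ∑ a, p a (lt l q.2) * θ a (lt l q.2 + q.1) with hu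
  have hus : ContDiff ℝ ∞ u := ContDiff.sum fun a _ => ((hp a).comp (hL.comp contDiff_snd)).mul
    ((hθ a).comp ((hL.comp contDiff_snd).add contDiff_fst))
  obtain ⟨h1, h2⟩ := cube_param (N := N) isOpen_univ (u := u) hus.contDiffOn
  have h3 : ∀ w t v, fderiv ℝ u (w, t) (v, 0) =
      ∑ a, p a (lt l t) * fderiv ℝ (θ a) (lt l t + w) v := by
    intro w t v
    have e1 : HasFDerivAt (fun y => u (y, t))
        ((fderiv ℝ u (w, t)).comp (ContinuousLinearMap.inl ℝ _ _)) w :=
      HasFDerivAt.comp (g := u) (f := fun y : E n => (y, t)) w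
        (hus.differentiable (by simp) _).hasFDerivAt (hasFDerivAt_prodMk_left w t)
    have e2 : HasFDerivAt (fun y => u (y, t))
        (∑ a, p a (lt l t) • fderiv ℝ (θ a) (lt l t + w)) w :=
      HasFDerivAt.fun_sum fun a _ => ((hasFDerivAt_comp_add_left (x := w) (lt l t)).2
        ((hθ a).differentiable (by simp) _).hasFDerivAt).const_mul (p a (lt l t))
    have e3 := congrArg (fun T => T v) (e1.unique e2)
    simpa using e3
  have h4 : ∀ w v, Continuous fun t => fderiv ℝ u (w, t) (v, 0) := fun w v =>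
    ((hus.continuous_fderiv (by simp)).comp (by fun_prop)).clm_apply continuous_const
  have h5 : ∀ c w, dz c (fun b => ∫ t in cube N, u (b, t)) w = 0 := by
    intro c w
    have hq : ∀ a, ContDiff ℝ ∞ fun τ => p a τ * θ c (τ + w) := fun a =>
      (hp a).mul ((hθ c).comp (contDiff_id.add contDiff_const))
    have h6 : ∫ t in cube N, ∑ a, dz a (fun τ => p a τ * θ c (τ + w)) (lt l t) = 0 := by
      rw [integral_finsetSum (f := fun a t => dz a (fun τ => p a τ * θ c (τ + w)) (lt l t)) _
        fun a _ => cube_int ((bpt10_dzc (hq a) a).comp (bpt10_cont l))]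
      refine Finset.sum_eq_zero fun a _ => (per_dz hl (hq a) (fun τ t => ?_) a).1
      rw [hp' a, add_right_comm, hθ' c]
    rw [(bpt1_dz c _ w).1, h2 w trivial, h2 w trivial, ← bpt10_lin (h4 _ _) (h4 _ _), ← h6]
    refine integral_congr_ae (Eventually.of_forall fun t => ?_)
    have h7 : ∀ a, dz a (fun τ => p a τ * θ c (τ + w)) (lt l t) =
        dz a (p a) (lt l t) * θ c (lt l t + w) + p a (lt l t) * dz c (θ a) (lt l t + w) := by
      intro a
      rw [(dz_mul (g := fun τ => θ c (τ + w)) ((hp a).differentiable (by simp) _)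
        (((hθ c).comp (contDiff_id.add contDiff_const)).differentiable (by simp) _) a).1,
        hc _ a c, ← bpt10_shift]
    beta_reduce
    simp only [h7, Finset.sum_add_distrib, ← Finset.sum_mul, hd, zero_mul, zero_add]
    simp only [h3, (bpt1_dz c _ _).1, Finset.mul_sum, ← Finset.sum_add_distrib]
    exact Finset.sum_congr rfl fun a _ => by ring
  have h8 : Per l fun b => ∫ t in cube N, u (b, t) := fun τ k => by
    simp only [hu, ← add_assoc, hθ' _ _ k]
  have h9 := bpt10_liou hl ((contDiffOn_univ.1 h1).differentiable (by simp)) h8 h5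
  have h10 : ∫ s in cube N, ∫ t in cube N, u (lt l s, t) =
      ∫ t in cube N, ∫ s in cube N, u (lt l s, t) := by
    refine integral_integral_swap ?_
    rw [Measure.prod_restrict]
    have hcu : Continuous (Function.uncurry fun s t => u (lt l s, t)) :=
      hus.continuous.comp (((bpt10_cont l).comp continuous_fst).prodMk continuous_snd)
    exact (hcu.continuousOn.integrableOn_compact (isCompact_Icc.prod isCompact_Icc)).mono_set
      (prod_mono (bpt10_sub N) (bpt10_sub N))
  simp only [h9, bpt10_const] at h10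
  simp only [hu, add_zero] at h10
  rw [h10]
  refine integral_congr_ae (Eventually.of_forall fun t => ?_)
  beta_reduce
  rw [integral_finsetSum (f := fun a s => p a (lt l t) * θ a (lt l t + lt l s)) _ fun a _ =>
    cube_int (continuous_const.mul ((hθ a).continuous.comp (continuous_const.add (bpt10_cont l))))]
  refine Finset.sum_congr rfl fun a _ => ?_
  rw [integral_const_mul, ← cube_shift (u := fun s => θ a (lt l s)) (hθ' a).bpt10_cube t]
  simp only [bpt10_add, add_comm]

theorem bpt10_step (hl : Function.Bijective (lt l)) {h : E n → Mat n}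
    (hs : ∀ a b, ContDiff ℝ ∞ fun τ => h τ a b) (hu : Per l h)
    (hc : ∀ τ a b c, dz c (fun w => h w a b) τ = dz a (fun w => h w c b) τ) (k : Fin n) :
    ∫ t in cube N, (h (lt l t)).det =
      ∫ t in cube N, ((h (lt l t)).updateCol k fun a => ∫ s in cube N, h (lt l s) a k).det := by
  have h1 := bpt10_pair hl (p := fun a τ => (h τ).adjugate k a) (θ := fun a τ => h τ a k)
    (fun a => contDiffOn_univ.1 (adj_smooth (fun a b => (hs a b).contDiffOn) k a)) (fun a => hs a k)
    (fun a τ t => by beta_reduce; rw [hu]) (fun a τ t => by beta_reduce; rw [hu])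
    (fun τ => piola_d (fun a b => (hs a b).differentiable (by simp) τ) (hc τ) k)
    fun τ a c => hc τ a k c
  simp only [← bpt1_det_col] at h1
  simpa only [Matrix.updateCol_eq_self] using h1

theorem bpt10_det (hl : Function.Bijective (lt l)) {h : E n → Mat n}
    (hs : ∀ a b, ContDiff ℝ ∞ fun τ => h τ a b) (hu : Per l h)
    (hc : ∀ τ a b c, dz c (fun w => h w a b) τ = dz a (fun w => h w c b) τ) :
    ∫ t in cube N, (h (lt l t)).det = (Matrix.of fun a b => ∫ t in cube N, h (lt l t) a b).det := by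
  set A : Mat n := Matrix.of fun a b => ∫ t in cube N, h (lt l t) a b with hA
  have key : ∀ s : Finset (Fin n), ∫ t in cube N, (h (lt l t)).det =
      ∫ t in cube N, (Matrix.of fun a b => if b ∈ s then A a b else h (lt l t) a b).det := by
    intro s
    induction s using Finset.induction_on with
    | empty =>
      simp only [Finset.notMem_empty, if_false]
      rfl
    | insert k s hk ih =>
      rw [ih, bpt10_step hl (h := fun τ => Matrix.of fun a b => if b ∈ s then A a b else h τ a b)
        (fun a b => ?_) (fun τ t => by beta_reduce; rw [hu]) (fun τ a b c => ?_) k]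
      · refine integral_congr_ae (Eventually.of_forall fun t => congrArg Matrix.det ?_)
        ext a b
        by_cases hb : b = k
        · subst hb
          simp [hk, hA]
        · simp [hb]
      · simp only [Matrix.of_apply]
        split_ifs
        · exact contDiff_const
        · exact hs a b
      · simp only [Matrix.of_apply]
        split_ifs
        · rw [(dz_const c _).1, (dz_const a _).1]
        · exact hc τ a b c
  rw [key Finset.univ]
  simp only [Finset.mem_univ, if_true]
  exact bpt10_const _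

theorem null_lag (hl : Function.Bijective (lt l)) {h : E n → Mat n}
    (hs : ∀ a b, ContDiff ℝ ∞ fun τ => h τ a b) (hu : Per l h)
    (hc : ∀ τ a b c, dz c (fun w => h w a b) τ = dz a (fun w => h w c b) τ) :
    ∫ t in cube N, (h (lt l t)).det = (Matrix.of fun a b => ∫ t in cube N, h (lt l t) a b).det ∧
      ∀ a b, ∫ t in cube N, (h (lt l t)).adjugate a b =
        (Matrix.of fun a b => ∫ t in cube N, h (lt l t) a b).adjugate a b := by
  refine ⟨bpt10_det hl hs hu hc, fun a b => ?_⟩
  simp only [bpt1_adj_col]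
  rw [bpt10_det hl (h := fun τ => (h τ).updateCol a (Pi.single b 1)) (fun c d => ?_)
    (fun τ t => by beta_reduce; rw [hu]) fun τ c d e => ?_]
  · congr 1
    ext c d
    by_cases hd : d = a
    · subst hd
      simp only [Matrix.of_apply, Matrix.updateCol_self, bpt10_const]
    · simp only [Matrix.of_apply, Matrix.updateCol_ne hd]
  · simp only [Matrix.updateCol_apply]
    split_ifs
    · exact contDiff_const
    · exact hs c d
  · simp only [Matrix.updateCol_apply]
    split_ifs
    · rw [(dz_const e _).1, (dz_const c _).1]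
    · exact hc τ c d e

end Pool.Agent.BP
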