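import Pool.Agent.P.MP_63735c_ag.BPDefs

/-! The Piola identity and the calculus of determinants. -/

open scoped ComplexOrder ContDiff Matrix Topology ENNReal
open Set Metric MeasureTheory Filter

namespace Pool.Agent.BP

open Pool.Agent.SPF Pool.Agent.AB Pool.Agent.CK Pool.Agent.SE Pool.Agent.NL

section Alg

variable {ι : Type} [Fintype ι] [DecidableEq ι]

theorem bpt1_adj_col (A : Matrix ι ι ℂ) (b a : ι) :
    A.adjugate b a = (A.updateCol b (Pi.single a 1)).det := by
  rw [← Matrix.cramer_apply, Matrix.cramer_eq_adjugate_mulVec]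
  simp [Matrix.mulVec, dotProduct, Pi.single_apply]

theorem bpt1_det_col (A : Matrix ι ι ℂ) (k : ι) (v : ι → ℂ) :
    (A.updateCol k v).det = ∑ c, A.adjugate k c * v c := by
  rw [← Matrix.cramer_apply, Matrix.cramer_eq_adjugate_mulVec]
  rfl

theorem bpt1_swap (A : Matrix ι ι ℂ) {b k : ι} (h : k ≠ b) (u v : ι → ℂ) :
    ((A.updateCol b u).updateCol k v).det = -((A.updateCol b v).updateCol k u).det := by
  have e : (A.updateCol b u).updateCol k v =
      ((A.updateCol b v).updateCol k u).submatrix id (Equiv.swap b k) := by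
    ext i j
    simp only [Matrix.submatrix_apply, id, Matrix.updateCol_apply]
    by_cases h1 : j = k
    · subst h1
      simp [Equiv.swap_apply_right, h.symm]
    · by_cases h2 : j = b
      · subst h2
        simp [Equiv.swap_apply_left, h1]
      · simp [Equiv.swap_apply_of_ne_of_ne h2 h1, h1, h2]
  rw [e, Matrix.det_permute', Equiv.Perm.sign_swap h.symm]
  simp

theorem bpt1_core (A : Matrix ι ι ℂ) (D : ι → ι → ℂ) (hD : ∀ a c, D a c = D c a) {b k : ι}
    (h : k ≠ b) : ∑ a, ((A.updateCol b (Pi.single a 1)).updateCol k (D a)).det = 0 := by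
  have h1 : ∀ a, ((A.updateCol b (Pi.single a 1)).updateCol k (D a)).det =
      ∑ c, ((A.updateCol b (Pi.single a 1)).updateCol k (Pi.single c 1)).det * D a c := by
    intro a
    rw [bpt1_det_col]
    simp only [bpt1_adj_col]
  simp only [h1]
  set S := ∑ a, ∑ c, ((A.updateCol b (Pi.single a 1)).updateCol k (Pi.single c 1)).det * D a c
    with hS
  have h2 : S = -S := by
    conv_lhs => rw [hS, Finset.sum_comm]
    rw [hS, ← Finset.sum_neg_distrib]
    refine Finset.sum_congr rfl fun a _ => ?_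
    rw [← Finset.sum_neg_distrib]
    refine Finset.sum_congr rfl fun c _ => ?_
    rw [bpt1_swap A h, hD c a]
    ring
  linear_combination (1 / 2 : ℂ) * h2

variable {F : Type} [NormedAddCommGroup F] [NormedSpace ℝ F] {M : F → Matrix ι ι ℂ} {z : F}

theorem bpt1_det_diffAt (hM : ∀ a b, DifferentiableAt ℝ (fun y => M y a b) z) :
    DifferentiableAt ℝ (fun y => (M y).det) z := by
  simp only [Matrix.det_apply']
  refine DifferentiableAt.fun_sum fun σ _ => DifferentiableAt.const_mul ?_ _
  exact (HasFDerivAt.finsetProd fun i _ => (hM (σ i) i).hasFDerivAt).differentiableAt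

theorem bpt1_fderiv_det (hM : ∀ a b, DifferentiableAt ℝ (fun y => M y a b) z) (v : F) :
    fderiv ℝ (fun y => (M y).det) z v =
      ∑ k, ((M z).updateCol k fun c => fderiv ℝ (fun y => M y c k) z v).det := by
  have h : HasFDerivAt (fun y => ∑ σ : Equiv.Perm ι, ((Equiv.Perm.sign σ : ℤ) : ℂ) * ∏ i, M y (σ i) i)
      (∑ σ : Equiv.Perm ι, ((Equiv.Perm.sign σ : ℤ) : ℂ) • ∑ i, (∏ j ∈ Finset.univ.erase i, M z (σ j) j) •
        fderiv ℝ (fun y => M y (σ i) i) z) z :=
    HasFDerivAt.fun_sum fun σ _ =>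
      (HasFDerivAt.finsetProd fun i _ => (hM (σ i) i).hasFDerivAt).const_mul _
  simp only [Matrix.det_apply']
  rw [h.fderiv, Finset.sum_comm]
  simp only [sum_apply, smul_apply, smul_eq_mul,
    Finset.mul_sum]
  refine Finset.sum_congr rfl fun σ _ => Finset.sum_congr rfl fun k _ => ?_
  rw [← Finset.mul_prod_erase Finset.univ _ (Finset.mem_univ k), Matrix.updateCol_self, mul_comm (fderiv ℝ _ z v)]
  congr 2
  refine Finset.prod_congr rfl fun j hj => ?_
  rw [Matrix.updateCol_ne (Finset.ne_of_mem_erase hj)]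

omit [Fintype ι] in
theorem bpt1_col_diffAt (hM : ∀ a b, DifferentiableAt ℝ (fun y => M y a b) z) (k : ι) {u : F → ι → ℂ}
    (hu : ∀ a, DifferentiableAt ℝ (fun y => u y a) z) (a b : ι) :
    DifferentiableAt ℝ (fun y => (M y).updateCol k (u y) a b) z := by
  simp only [Matrix.updateCol_apply]
  split_ifs
  · exact hu a
  · exact hM a b

theorem bpt1_adj_diffAt (hM : ∀ a b, DifferentiableAt ℝ (fun y => M y a b) z) (b a : ι) :
    DifferentiableAt ℝ (fun y => (M y).adjugate b a) z := by
  simp only [bpt1_adj_col]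
  exact bpt1_det_diffAt (bpt1_col_diffAt hM b fun _ => differentiableAt_const _)

/-- Piola for any family of first order operators with constant coefficients. -/
theorem bpt1_piola (hM : ∀ a b, DifferentiableAt ℝ (fun y => M y a b) z) (p q : ι → F) (α β : ℂ)
    (hc : ∀ a b c, α * fderiv ℝ (fun y => M y a b) z (p c) + β * fderiv ℝ (fun y => M y a b) z (q c) =
      α * fderiv ℝ (fun y => M y c b) z (p a) + β * fderiv ℝ (fun y => M y c b) z (q a)) (b : ι) :
    ∑ a, (α * fderiv ℝ (fun y => (M y).adjugate b a) z (p a) +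
      β * fderiv ℝ (fun y => (M y).adjugate b a) z (q a)) = 0 := by
  have h1 : ∀ a v, fderiv ℝ (fun y => (M y).adjugate b a) z v =
      ∑ k ∈ Finset.univ.erase b, (((M z).updateCol b (Pi.single a 1)).updateCol k
        fun c => fderiv ℝ (fun y => M y c k) z v).det := by
    intro a v
    simp only [bpt1_adj_col]
    rw [bpt1_fderiv_det (bpt1_col_diffAt (u := fun _ => Pi.single a 1) hM b fun _ => differentiableAt_const _),
      ← Finset.add_sum_erase Finset.univ _ (Finset.mem_univ b)]
    have h0 : (((M z).updateCol b (Pi.single a 1)).updateCol b fun c =>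
        fderiv ℝ (fun y => (M y).updateCol b (Pi.single a 1) c b) z v).det = 0 := by
      rw [bpt1_det_col]
      simp [Matrix.updateCol_self]
    rw [h0, zero_add]
    refine Finset.sum_congr rfl fun k hk => ?_
    simp only [Matrix.updateCol_ne (Finset.ne_of_mem_erase hk)]
  have h2 : ∀ a, α * fderiv ℝ (fun y => (M y).adjugate b a) z (p a) +
      β * fderiv ℝ (fun y => (M y).adjugate b a) z (q a) =
      ∑ k ∈ Finset.univ.erase b, (((M z).updateCol b (Pi.single a 1)).updateCol k
        fun c => α * fderiv ℝ (fun y => M y c k) z (p a) + β * fderiv ℝ (fun y => M y c k) z (q a)).det := by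
    intro a
    rw [h1, h1, Finset.mul_sum, Finset.mul_sum, ← Finset.sum_add_distrib]
    refine Finset.sum_congr rfl fun k _ => ?_
    simp only [bpt1_det_col, Finset.mul_sum, ← Finset.sum_add_distrib]
    exact Finset.sum_congr rfl fun c _ => by ring
  simp only [h2]
  rw [Finset.sum_comm]
  refine Finset.sum_eq_zero fun k hk => ?_
  exact bpt1_core (M z) (fun a c => α * fderiv ℝ (fun y => M y c k) z (p a) +
    β * fderiv ℝ (fun y => M y c k) z (q a)) (fun a c => hc c k a) (Finset.ne_of_mem_erase hk)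

end Alg

variable {N : ℕ} {z : E N} {M : E N → Mat N}

theorem bpt1_dz (a : Fin N) (f : E N → ℂ) (z : E N) :
    dz a f z = 1 / 2 * fderiv ℝ f z (Pi.single a 1) +
      -Complex.I / 2 * fderiv ℝ f z (Pi.single a Complex.I) ∧
    dzb a f z = 1 / 2 * fderiv ℝ f z (Pi.single a 1) +
      Complex.I / 2 * fderiv ℝ f z (Pi.single a Complex.I) := by
  simp only [dz, dzb]
  constructor <;> ring

/-- T1: the columns of `M` are closed (1,0)-forms. -/
theorem piola_d (hM : ∀ a b, DifferentiableAt ℝ (fun w => M w a b) z)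
    (hc : ∀ a b c, dz c (fun w => M w a b) z = dz a (fun w => M w c b) z) (b : Fin N) :
    ∑ a, dz a (fun w => (M w).adjugate b a) z = 0 := by
  simp only [fun a f => (bpt1_dz a f z).1] at hc ⊢
  exact bpt1_piola hM (fun a => Pi.single a 1) (fun a => Pi.single a Complex.I) _ _ hc b

/-- T1, conjugate form. -/
theorem piola_db (hM : ∀ a b, DifferentiableAt ℝ (fun w => M w a b) z)
    (hc : ∀ a b c, dzb c (fun w => M w a b) z = dzb a (fun w => M w c b) z) (b : Fin N) :
    ∑ a, dzb a (fun w => (M w).adjugate b a) z = 0 := by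
  simp only [fun a f => (bpt1_dz a f z).2] at hc ⊢
  exact bpt1_piola hM (fun a => Pi.single a 1) (fun a => Pi.single a Complex.I) _ _ hc b

/-- T1 for rows. -/
theorem bpt1_piola_row (hM : ∀ a b, DifferentiableAt ℝ (fun w => M w a b) z)
    (hc : ∀ a b c, dz c (fun y => M y b a) z = dz a (fun y => M y b c) z) (b : Fin N) :
    ∑ a, dz a (fun y => (M y).adjugate a b) z = 0 := by
  have h := piola_d (M := fun y => (M y)ᵀ) (fun a b => hM b a) hc b
  simpa only [← Matrix.adjugate_transpose, Matrix.transpose_apply] using h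

/-- T1 for rows, conjugate form. -/
theorem bpt1_piolab_row (hM : ∀ a b, DifferentiableAt ℝ (fun w => M w a b) z)
    (hc : ∀ a b c, dzb c (fun y => M y b a) z = dzb a (fun y => M y b c) z) (b : Fin N) :
    ∑ a, dzb a (fun y => (M y).adjugate a b) z = 0 := by
  have h := piola_db (M := fun y => (M y)ᵀ) (fun a b => hM b a) hc b
  simpa only [← Matrix.adjugate_transpose, Matrix.transpose_apply] using h

/-- Jacobi's formula for the Wirtinger derivatives. -/
theorem bpt1_dz_det {m : ℕ} {A : E N → Mat m} (hA : ∀ a b, DifferentiableAt ℝ (fun y => A y a b) z)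
    (c : Fin N) :
    dz c (fun y => (A y).det) z = ∑ k, ∑ a, (A z).adjugate k a * dz c (fun y => A y a k) z ∧
      dzb c (fun y => (A y).det) z = ∑ k, ∑ a, (A z).adjugate k a * dzb c (fun y => A y a k) z := by
  simp only [fun a f => (bpt1_dz a f z).1, fun a f => (bpt1_dz a f z).2, bpt1_fderiv_det hA, bpt1_det_col,
    Finset.mul_sum, ← Finset.sum_add_distrib]
  constructor <;>
    exact Finset.sum_congr rfl fun k _ => Finset.sum_congr rfl fun a _ => by ring

theorem bpt1_det_smooth {ι F : Type} [Fintype ι] [DecidableEq ι] [NormedAddCommGroup F]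
    [NormedSpace ℝ F] {A : F → Matrix ι ι ℂ} {W : Set F} {k : WithTop ℕ∞}
    (hA : ∀ a b, ContDiffOn ℝ k (fun w => A w a b) W) : ContDiffOn ℝ k (fun w => (A w).det) W := by
  simp only [Matrix.det_apply']
  exact ContDiffOn.sum fun σ _ => contDiffOn_const.mul (contDiffOn_prod fun i _ => hA _ _)

theorem adj_smooth {W : Set (E N)} (hM : ∀ a b, ContDiffOn ℝ ∞ (fun w => M w a b) W) (a b : Fin N) :
    ContDiffOn ℝ ∞ (fun w => (M w).adjugate a b) W := by
  simp only [bpt1_adj_col]
  refine bpt1_det_smooth fun c d => ?_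
  simp only [Matrix.updateCol_apply]
  split_ifs
  · exact contDiffOn_const
  · exact hM c d

theorem bpt1_rank (H : Mat N) (u v : E N) (s : Finset (Fin N)) :
    (Matrix.of fun i j => H i j + (if j ∈ s then v j else 0) * u i).det =
      H.det + ∑ k ∈ s, v k * (H.updateCol k u).det := by
  induction s using Finset.induction_on with
  | empty =>
    simp only [Finset.notMem_empty, if_false, zero_mul, add_zero, Finset.sum_empty]
    rfl
  | insert k s hk ih =>
    set B : Mat N := Matrix.of fun i j => H i j + (if j ∈ s then v j else 0) * u i with hB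
    have e1 : (Matrix.of fun i j => H i j + (if j ∈ insert k s then v j else 0) * u i) =
        B.updateCol k ((fun i => B i k) + v k • u) := by
      ext i j
      by_cases h : j = k
      · subst h
        simp [hB, hk]
      · simp [hB, h, Matrix.updateCol_ne h]
    have e2 : (B.updateCol k u).det = (H.updateCol k u).det := by
      rw [← Matrix.det_transpose, ← Matrix.det_transpose (H.updateCol k u)]
      refine Matrix.det_eq_of_forall_row_eq_smul_add_const (fun j => if j ∈ s then v j else 0) k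
        (by simp [hk]) fun j i => ?_
      by_cases h : j = k
      · subst h
        simp [hk]
      · simp [hB, Matrix.updateCol_ne h]
    rw [e1, Matrix.det_updateCol_add, Matrix.det_updateCol_smul, Matrix.updateCol_eq_self, ih, e2,
      Finset.sum_insert hk]
    ring

theorem det_rank_one (H : Mat N) (u v : E N) :
    (H + Matrix.vecMulVec u v).det = H.det + v ⬝ᵥ H.adjugate *ᵥ u := by
  have h := bpt1_rank H u v Finset.univ
  simp only [Finset.mem_univ, if_true, bpt1_det_col] at h
  have e : H + Matrix.vecMulVec u v = Matrix.of fun i j => H i j + v j * u i := by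
    ext i j
    simp [Matrix.vecMulVec_apply, mul_comm]
  rw [e, h]
  rfl

theorem bpt1_spec {H : Mat N} (hH : H.IsHermitian) :
    ∃ (U : Mat N) (d : Fin N → ℝ), U * Uᴴ = 1 ∧ H = Uᴴ * Matrix.diagonal (fun i => (d i : ℂ)) * U := by
  refine ⟨(hH.eigenvectorUnitary : Mat N)ᴴ, hH.eigenvalues, ?_, ?_⟩
  · rw [Matrix.conjTranspose_conjTranspose]
    exact hH.eigenvectorUnitary.2.1
  · rw [Matrix.conjTranspose_conjTranspose]
    exact hH.spectral_theorem

theorem bpt1_hr (P : Mat N) (d : Fin N → ℝ) (v : E N) :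
    hr (Pᴴ * Matrix.diagonal (fun i => (d i : ℂ)) * P) v = ∑ i, d i * ‖(P *ᵥ star v) i‖ ^ 2 := by
  have h : hq (Pᴴ * Matrix.diagonal (fun i => (d i : ℂ)) * P) v v =
      ∑ i, ((d i * ‖(P *ᵥ star v) i‖ ^ 2 : ℝ) : ℂ) := by
    rw [hq, ← Matrix.mulVec_mulVec, ← Matrix.mulVec_mulVec, Matrix.dotProduct_mulVec]
    have e : v ᵥ* Pᴴ = star (P *ᵥ star v) := by rw [Matrix.star_mulVec, star_star]
    rw [e, dotProduct]
    refine Finset.sum_congr rfl fun i _ => ?_
    rw [Matrix.mulVec_diagonal, Pi.star_apply, Complex.star_def, mul_left_comm,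
      Complex.conj_mul']
    push_cast
    rfl
  rw [hr, h, ← Complex.ofReal_sum, Complex.ofReal_re]

theorem bpt1_sim {H G : Mat N} (hH : H.IsHermitian) (hG : G.PosDef) :
    ∃ (P : Mat N) (d : Fin N → ℝ), P.det ≠ 0 ∧
      G = Pᴴ * Matrix.diagonal (fun _ => ((1 : ℝ) : ℂ)) * P ∧
      H = Pᴴ * Matrix.diagonal (fun i => (d i : ℂ)) * P ∧
      ∀ i, ∃ v, hr H v = d i ∧ hr G v = 1 := by
  obtain ⟨B, hB⟩ : ∃ B : Mat N, G = Bᴴ * B := by
    open scoped MatrixOrder in
    exact CStarAlgebra.nonneg_iff_eq_star_mul_self.1 hG.posSemidef.nonneg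
  have hd : B.det ≠ 0 := by
    intro h
    have := hG.det_pos
    rw [hB, Matrix.det_mul, h, mul_zero] at this
    exact lt_irrefl _ this
  have hu : IsUnit B.det := isUnit_iff_ne_zero.2 hd
  obtain ⟨U, d, hU, hD⟩ := bpt1_spec (Matrix.isHermitian_conjTranspose_mul_mul B⁻¹ hH)
  have hU' : Uᴴ * U = 1 := mul_eq_one_comm.1 hU
  have hP : (U * B).det ≠ 0 := by
    rw [Matrix.det_mul]
    refine mul_ne_zero (fun h => ?_) hd
    have := congrArg Matrix.det hU
    rw [Matrix.det_mul, h, zero_mul, Matrix.det_one] at this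
    exact zero_ne_one this
  have h1 : G = (U * B)ᴴ * Matrix.diagonal (fun _ => ((1 : ℝ) : ℂ)) * (U * B) := by
    rw [Complex.ofReal_one, Matrix.diagonal_one, mul_one, Matrix.conjTranspose_mul, mul_assoc,
      ← mul_assoc Uᴴ, hU', one_mul, hB]
  have h2 : H = (U * B)ᴴ * Matrix.diagonal (fun i => (d i : ℂ)) * (U * B) := by
    have e : (U * B)ᴴ * Matrix.diagonal (fun i => (d i : ℂ)) * (U * B) =
        Bᴴ * (Uᴴ * Matrix.diagonal (fun i => (d i : ℂ)) * U) * B := by
      simp only [Matrix.conjTranspose_mul, mul_assoc]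
    rw [e, ← hD]
    calc H = (B⁻¹ * B)ᴴ * H * (B⁻¹ * B) := by
          rw [Matrix.nonsing_inv_mul _ hu, Matrix.conjTranspose_one, one_mul, mul_one]
      _ = _ := by simp only [Matrix.conjTranspose_mul, mul_assoc]
  refine ⟨U * B, d, hP, h1, h2, fun i => ⟨star ((U * B)⁻¹ *ᵥ Pi.single i 1), ?_, ?_⟩⟩
  · rw [h2, bpt1_hr, star_star, Matrix.mulVec_mulVec,
      Matrix.mul_nonsing_inv _ (isUnit_iff_ne_zero.2 hP), Matrix.one_mulVec]
    simp [Pi.single_apply, apply_ite]
  · rw [h1, bpt1_hr, star_star, Matrix.mulVec_mulVec,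
      Matrix.mul_nonsing_inv _ (isUnit_iff_ne_zero.2 hP), Matrix.one_mulVec]
    simp [Pi.single_apply, apply_ite]

theorem bpt1_hr_nonneg {H : Mat N} (hH : H.PosSemidef) (v : E N) : 0 ≤ hr H v := by
  have := hH.re_dotProduct_nonneg (star v)
  rwa [star_star] at this

theorem bpt1_det (P : Mat N) (d : Fin N → ℝ) :
    (Pᴴ * Matrix.diagonal (fun i => (d i : ℂ)) * P).det.re = (∏ i, d i) * ‖P.det‖ ^ 2 := by
  rw [Matrix.det_mul, Matrix.det_mul, Matrix.det_conjTranspose, Matrix.det_diagonal,
    mul_right_comm, Complex.star_def, Complex.conj_mul', ← Complex.ofReal_prod, ← Complex.ofReal_pow,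
    ← Complex.ofReal_mul, Complex.ofReal_re, mul_comm]

theorem bpt1_adj (P : Mat N) (d : Fin N → ℝ) :
    (Pᴴ * Matrix.diagonal (fun i => (d i : ℂ)) * P).adjugate =
      (P.adjugateᴴ)ᴴ * Matrix.diagonal (fun i => ((∏ j ∈ Finset.univ.erase i, d j : ℝ) : ℂ)) *
        P.adjugateᴴ := by
  rw [Matrix.adjugate_mul_distrib, Matrix.adjugate_mul_distrib, Matrix.adjugate_diagonal,
    Matrix.conjTranspose_conjTranspose, Matrix.adjugate_conjTranspose, mul_assoc]
  simp only [Complex.ofReal_prod]

theorem det_mono {H G : Mat N} (hH : H.PosSemidef) {C : ℝ} (hC : 0 ≤ C) (hG : G.PosDef)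
    (h : ∀ v, hr H v ≤ C * hr G v) : H.det.re ≤ C ^ N * G.det.re := by
  obtain ⟨P, d, -, h1, h2, h3⟩ := bpt1_sim hH.1 hG
  have hd : ∀ i, 0 ≤ d i ∧ d i ≤ C := fun i => by
    obtain ⟨v, a, b⟩ := h3 i
    have := h v
    rw [a, b, mul_one] at this
    exact ⟨a ▸ bpt1_hr_nonneg hH v, this⟩
  rw [h1, h2, bpt1_det, bpt1_det, Finset.prod_const_one, one_mul]
  refine mul_le_mul_of_nonneg_right ?_ (by positivity)
  simpa using Finset.prod_le_prod (s := Finset.univ) (fun i _ => (hd i).1) fun i _ => (hd i).2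

theorem adj_psd {H : Mat N} (hH : H.PosSemidef) : H.adjugate.PosSemidef := by
  obtain ⟨P, d, -, -, h2, h3⟩ := bpt1_sim hH.1 Matrix.PosDef.one
  have hd : ∀ i, 0 ≤ d i := fun i => by
    obtain ⟨v, a, -⟩ := h3 i
    exact a ▸ bpt1_hr_nonneg hH v
  rw [h2, bpt1_adj]
  refine Matrix.PosSemidef.conjTranspose_mul_mul_same (Matrix.posSemidef_diagonal_iff.2 fun i => ?_) _
  exact Complex.zero_le_real.2 (Finset.prod_nonneg fun j _ => hd j)

theorem adj_mono {H G : Mat N} (hH : H.PosSemidef) {C : ℝ} (hC : 0 ≤ C) (hG : G.PosDef)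
    (h : ∀ v, hr H v ≤ C * hr G v) (u : E N) :
    hr H.adjugate u ≤ C ^ (N - 1) * hr G.adjugate u := by
  obtain ⟨P, d, -, h1, h2, h3⟩ := bpt1_sim hH.1 hG
  have hd : ∀ i, 0 ≤ d i ∧ d i ≤ C := fun i => by
    obtain ⟨v, a, b⟩ := h3 i
    have := h v
    rw [a, b, mul_one] at this
    exact ⟨a ▸ bpt1_hr_nonneg hH v, this⟩
  rw [h1, h2, bpt1_adj, bpt1_adj, bpt1_hr, bpt1_hr, Finset.mul_sum]
  refine Finset.sum_le_sum fun i _ => ?_
  rw [Finset.prod_const_one, one_mul]
  refine mul_le_mul_of_nonneg_right ?_ (by positivity)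
  simpa [Finset.card_erase_of_mem] using
    Finset.prod_le_prod (s := Finset.univ.erase i) (fun i _ => (hd i).1) fun i _ => (hd i).2

theorem tr_adj_le {H G : Mat N} (hH : H.IsHermitian) {C : ℝ} (hG : G.PosDef)
    (h : ∀ v, hr H v ≤ C * hr G v) : (G.adjugate * H).trace.re ≤ N * C * G.det.re := by
  obtain ⟨P, d, -, h1, h2, h3⟩ := bpt1_sim hH hG
  have hd : ∀ i, d i ≤ C := fun i => by
    obtain ⟨v, a, b⟩ := h3 i
    have := h v
    rwa [a, b, mul_one] at this
  have e : (G.adjugate * H).trace = (((∑ i, d i) * ‖P.det‖ ^ 2 : ℝ) : ℂ) := by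
    rw [h1, h2, Complex.ofReal_one, Matrix.diagonal_one, mul_one, Matrix.adjugate_mul_distrib,
      mul_assoc, mul_assoc, ← mul_assoc Pᴴ.adjugate, Matrix.adjugate_mul, Matrix.trace_mul_comm,
      mul_assoc, mul_assoc, Matrix.mul_adjugate, Matrix.det_conjTranspose]
    simp only [smul_mul_assoc, one_mul, mul_smul_comm, mul_one, Matrix.trace_smul,
      Matrix.trace_diagonal, smul_eq_mul]
    rw [← mul_assoc, Complex.star_def]
    push_cast
    rw [← Complex.conj_mul']
    ring
  rw [e, Complex.ofReal_re, h1, bpt1_det, Finset.prod_const_one, one_mul]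
  refine mul_le_mul_of_nonneg_right ?_ (by positivity)
  simpa using Finset.sum_le_sum (s := Finset.univ) fun i _ => hd i

end Pool.Agent.BP
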