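import Pool.Agent.P.MP_63735c_ag.BPDefs

/-! Pull-backs of forms by smooth maps. -/

open scoped ComplexOrder ContDiff Matrix Topology ENNReal
open Set Metric MeasureTheory Filter

namespace Pool.Agent.BP

open Pool.Agent.SPF Pool.Agent.AB Pool.Agent.CK Pool.Agent.SE Pool.Agent.NL

variable {N : ℕ} {P : Type} [NormedAddCommGroup P] [NormedSpace ℝ P] {f : P → E N} {x : P}

theorem fderiv_dz {u : E N → ℂ} {z : E N} (hu : DifferentiableAt ℝ u z) (v : E N) :
    fderiv ℝ u z v = ∑ a, (dz a u z * v a + dzb a u z * star (v a)) := by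
  have _ := hu
  rw [fderiv_eq_wirt]
  exact Finset.sum_congr rfl fun a _ => by ring

lemma bpt12_d2 (hf : ContDiffAt ℝ ∞ f x) (w : P) :
    HasFDerivAt (fun y => fderiv ℝ f y w) ((fderiv ℝ (fderiv ℝ f) x).flip w) x := by
  have h : ContDiffAt ℝ ∞ (fderiv ℝ f) x := hf.fderiv_right (by simp)
  have h1 := (h.differentiableAt (by simp)).hasFDerivAt.clm_apply (hasFDerivAt_const w x)
  simpa using h1

lemma bpt12_symm (hf : ContDiffAt ℝ ∞ f x) (u v : P) :
    fderiv ℝ (fderiv ℝ f) x u v = fderiv ℝ (fderiv ℝ f) x v u :=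
  (hf.isSymmSndFDerivAt (by
    rw [minSmoothness_of_isRCLikeNormedField]; exact WithTop.coe_le_coe.2 le_top)).eq u v

lemma bpt12_dot {p q : P → E N} {p' q' : P →L[ℝ] E N} (hp : HasFDerivAt p p' x)
    (hq : HasFDerivAt q q' x) (u : P) :
    DifferentiableAt ℝ (fun y => p y ⬝ᵥ q y) x ∧
      fderiv ℝ (fun y => p y ⬝ᵥ q y) x u = p' u ⬝ᵥ q x + p x ⬝ᵥ q' u := by
  have h : HasFDerivAt (fun y => p y ⬝ᵥ q y) _ x :=
    HasFDerivAt.fun_sum (u := Finset.univ) fun a _ =>
      (hasFDerivAt_pi'.1 hp a).fun_mul (hasFDerivAt_pi'.1 hq a)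
  refine ⟨h.differentiableAt, ?_⟩
  rw [h.fderiv]
  simp only [_root_.sum_apply, _root_.add_apply,
    _root_.smul_apply, ContinuousLinearMap.comp_apply, ContinuousLinearMap.proj_apply,
    smul_eq_mul, dotProduct, ← Finset.sum_add_distrib]
  exact Finset.sum_congr rfl fun a _ => by ring

lemma bpt12_tri {p q : P → E N} {p' q' : P →L[ℝ] E N} {s : P → Mat N} (hp : HasFDerivAt p p' x)
    (hq : HasFDerivAt q q' x) (hs : ∀ a b, DifferentiableAt ℝ (fun y => s y a b) x) (u : P) :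
    DifferentiableAt ℝ (fun y => p y ⬝ᵥ s y *ᵥ q y) x ∧
      fderiv ℝ (fun y => p y ⬝ᵥ s y *ᵥ q y) x u = p' u ⬝ᵥ s x *ᵥ q x + p x ⬝ᵥ s x *ᵥ q' u +
        ∑ a, ∑ b, p x a * fderiv ℝ (fun y => s y a b) x u * q x b := by
  have e : (fun y => p y ⬝ᵥ s y *ᵥ q y) = fun y => ∑ a, ∑ b, p y a * (s y a b * q y b) := by
    funext y
    simp only [dotProduct, Matrix.mulVec, Finset.mul_sum]
  have h : HasFDerivAt (fun y => ∑ a, ∑ b, p y a * (s y a b * q y b)) _ x :=
    HasFDerivAt.fun_sum (u := Finset.univ) fun a _ =>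
      HasFDerivAt.fun_sum (u := Finset.univ) fun b _ => (hasFDerivAt_pi'.1 hp a).fun_mul
        ((hs a b).hasFDerivAt.fun_mul (hasFDerivAt_pi'.1 hq b))
  rw [e]
  refine ⟨h.differentiableAt, ?_⟩
  rw [h.fderiv]
  simp only [_root_.sum_apply, _root_.add_apply,
    _root_.smul_apply, ContinuousLinearMap.comp_apply, ContinuousLinearMap.proj_apply,
    smul_eq_mul, dotProduct, Matrix.mulVec, Finset.mul_sum, ← Finset.sum_add_distrib]
  exact Finset.sum_congr rfl fun a _ => Finset.sum_congr rfl fun b _ => by ring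

theorem pb_one (hf : ContDiffAt ℝ ∞ f x) {β : E N → E N} (hβ : DifferentiableAt ℝ β (f x))
    (u w : P) :
    fderiv ℝ (fun y => β (f y) ⬝ᵥ fderiv ℝ f y w) x u -
        fderiv ℝ (fun y => β (f y) ⬝ᵥ fderiv ℝ f y u) x w =
      fderiv ℝ β (f x) (fderiv ℝ f x u) ⬝ᵥ fderiv ℝ f x w -
        fderiv ℝ β (f x) (fderiv ℝ f x w) ⬝ᵥ fderiv ℝ f x u := by
  have h : HasFDerivAt (fun y => β (f y)) _ x :=
    hβ.hasFDerivAt.comp x (hf.differentiableAt (by simp)).hasFDerivAt
  rw [(bpt12_dot h (bpt12_d2 hf w) u).2, (bpt12_dot h (bpt12_d2 hf u) w).2]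
  simp only [ContinuousLinearMap.comp_apply, ContinuousLinearMap.flip_apply, bpt12_symm hf u w]
  ring

lemma bpt12_comp (hf : ContDiffAt ℝ ∞ f x) {g : E N → ℂ} (hg : DifferentiableAt ℝ g (f x))
    (u : P) : DifferentiableAt ℝ (fun y => g (f y)) x ∧ fderiv ℝ (fun y => g (f y)) x u =
      ∑ c, (dz c g (f x) * fderiv ℝ f x u c + dzb c g (f x) * star (fderiv ℝ f x u c)) := by
  have h : HasFDerivAt (fun y => g (f y)) _ x :=
    hg.hasFDerivAt.comp x (hf.differentiableAt (by simp)).hasFDerivAt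
  exact ⟨h.differentiableAt, by rw [h.fderiv, ContinuousLinearMap.comp_apply, fderiv_dz hg]⟩

/-- A trilinear form. -/
noncomputable def bpt12T (t : Fin N → Fin N → Fin N → ℂ) (U V W : E N) : ℂ :=
  ∑ a, ∑ b, ∑ c, t a b c * U a * V b * W c

lemma bpt12_12 (t : Fin N → Fin N → Fin N → ℂ) (U V W : E N) :
    bpt12T t U V W = bpt12T (fun a b c => t b a c) V U W := by
  rw [bpt12T, bpt12T, Finset.sum_comm]
  exact Finset.sum_congr rfl fun a _ => Finset.sum_congr rfl fun b _ =>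
    Finset.sum_congr rfl fun c _ => by ring

lemma bpt12_23 (t : Fin N → Fin N → Fin N → ℂ) (U V W : E N) :
    bpt12T t U V W = bpt12T (fun a b c => t a c b) U W V := by
  rw [bpt12T, bpt12T]
  refine Finset.sum_congr rfl fun a _ => ?_
  rw [Finset.sum_comm]
  exact Finset.sum_congr rfl fun b _ => Finset.sum_congr rfl fun c _ => by ring

lemma bpt12_split (t s : Fin N → Fin N → Fin N → ℂ) (U U' V W : E N) :
    ∑ a, ∑ b, V a * (∑ c, (t a b c * U c + s a b c * U' c)) * W b =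
      bpt12T t V W U + bpt12T s V W U' := by
  simp only [bpt12T, ← Finset.sum_add_distrib, Finset.mul_sum, Finset.sum_mul]
  exact Finset.sum_congr rfl fun a _ => Finset.sum_congr rfl fun b _ =>
    Finset.sum_congr rfl fun c _ => by ring

lemma bpt12_cyc {t : Fin N → Fin N → Fin N → ℂ} (h : ∀ a b c, t b c a + t c a b + t a b c = 0)
    (U V W : E N) : bpt12T t V W U + bpt12T t W U V + bpt12T t U V W = 0 := by
  rw [bpt12_23 t V W U, bpt12_12 _ V U W, bpt12_12 t W U V, bpt12_23 _ U W V]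
  simp only [bpt12T, ← Finset.sum_add_distrib, ← add_mul, h, zero_mul, Finset.sum_const_zero]

theorem pb_sigma (hf : ContDiffAt ℝ ∞ f x) (C : Chart N) (hx : f x ∈ C.W) (u v w : P) :
    fderiv ℝ (fun y => fderiv ℝ f y v ⬝ᵥ C.σ (f y) *ᵥ fderiv ℝ f y w) x u +
      fderiv ℝ (fun y => fderiv ℝ f y w ⬝ᵥ C.σ (f y) *ᵥ fderiv ℝ f y u) x v +
      fderiv ℝ (fun y => fderiv ℝ f y u ⬝ᵥ C.σ (f y) *ᵥ fderiv ℝ f y v) x w = 0 := by
  have hc : ∀ a b, DifferentiableAt ℂ (fun z => C.σ z a b) (f x) := fun a b =>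
    (C.σ_hol a b).differentiableAt (C.isOpen.mem_nhds hx)
  have hs := fun a b => bpt12_comp hf ((hc a b).restrictScalars ℝ)
  have key : ∀ u v w : P,
      fderiv ℝ (fun y => fderiv ℝ f y v ⬝ᵥ C.σ (f y) *ᵥ fderiv ℝ f y w) x u =
        fderiv ℝ (fderiv ℝ f) x u v ⬝ᵥ C.σ (f x) *ᵥ fderiv ℝ f x w +
        fderiv ℝ f x v ⬝ᵥ C.σ (f x) *ᵥ fderiv ℝ (fderiv ℝ f) x u w +
        bpt12T (fun a b c => dz c (fun z => C.σ z a b) (f x)) (fderiv ℝ f x v) (fderiv ℝ f x w)
          (fderiv ℝ f x u) := by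
    intro u v w
    rw [(bpt12_tri (s := fun y => C.σ (f y)) (bpt12_d2 hf v) (bpt12_d2 hf w)
      (fun a b => (hs a b u).1) u).2]
    simp only [fun a b => (hs a b u).2, fun a b c => (dz_of_diff (hc a b) c).2, zero_mul, add_zero,
      ContinuousLinearMap.flip_apply, bpt12T, Finset.mul_sum, Finset.sum_mul]
    congr 1
    exact Finset.sum_congr rfl fun a _ => Finset.sum_congr rfl fun b _ =>
      Finset.sum_congr rfl fun c _ => by ring
  have sk : ∀ U V : E N, U ⬝ᵥ C.σ (f x) *ᵥ V = -(V ⬝ᵥ C.σ (f x) *ᵥ U) := by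
    intro U V
    rw [Matrix.dotProduct_mulVec, ← Matrix.mulVec_transpose, C.σ_skew _ hx, Matrix.neg_mulVec,
      neg_dotProduct, dotProduct_comm]
  have cy := bpt12_cyc (t := fun a b c => dz c (fun z => C.σ z a b) (f x))
    (fun a b c => C.σ_closed _ hx a b c) (fderiv ℝ f x u) (fderiv ℝ f x v) (fderiv ℝ f x w)
  rw [key, key, key, bpt12_symm hf v u, bpt12_symm hf w u, bpt12_symm hf w v,
    sk (fderiv ℝ f x v), sk (fderiv ℝ f x w), sk (fderiv ℝ f x u)]
  linear_combination cy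

/-- The 2-form of a hermitian matrix. -/
noncomputable def k2 (h : Mat N) (u v : E N) : ℂ := hq h u v - hq h v u

lemma bpt12_star {p : P → E N} {p' : P →L[ℝ] E N} (hp : HasFDerivAt p p' x) :
    ∃ q' : P →L[ℝ] E N, HasFDerivAt (fun y => star (p y)) q' x ∧ ∀ u, q' u = star (p' u) := by
  refine ⟨ContinuousLinearMap.pi fun a => (Complex.conjCLE : ℂ →L[ℝ] ℂ).comp
    ((ContinuousLinearMap.proj a).comp p'), hasFDerivAt_pi.2 fun a => ?_, fun u => rfl⟩
  exact (Complex.conjCLE : ℂ →L[ℝ] ℂ).hasFDerivAt.comp x (hasFDerivAt_pi'.1 hp a)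

lemma bpt12_bar {W : Set (E N)} (hW : IsOpen W) {K : E N → Mat N} (hK : Kah W K) {z : E N}
    (hz : z ∈ W) (a b c : Fin N) :
    dzb c (fun y => K y a b) z = dzb b (fun y => K y a c) z := by
  have h : ∀ a b c, dzb c (fun y => K y a b) z = star (dz c (fun y => K y b a) z) := by
    intro a b c
    rw [(star_dz _ z c).1]
    refine (dzb_congr ?_ c).self_of_nhds
    filter_upwards [hW.mem_nhds hz] with y hy
    exact ((hK.pos y hy).isHermitian.apply a b).symm
  rw [h, h, hK.closed z hz]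

theorem pb_kah (hf : ContDiffAt ℝ ∞ f x) {W : Set (E N)} (hW : IsOpen W) {K : E N → Mat N}
    (hK : Kah W K) (hx : f x ∈ W) (u v w : P) :
    fderiv ℝ (fun y => k2 (K (f y)) (fderiv ℝ f y v) (fderiv ℝ f y w)) x u +
      fderiv ℝ (fun y => k2 (K (f y)) (fderiv ℝ f y w) (fderiv ℝ f y u)) x v +
      fderiv ℝ (fun y => k2 (K (f y)) (fderiv ℝ f y u) (fderiv ℝ f y v)) x w = 0 := by
  have hs := fun a b => bpt12_comp hf (diffAt hW (hK.smooth a b) hx)
  set t : Fin N → Fin N → Fin N → ℂ := fun a b c => dz c (fun z => K z a b) (f x) with ht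
  set s : Fin N → Fin N → Fin N → ℂ := fun a b c => dzb c (fun z => K z a b) (f x) with hs'
  have key : ∀ u v w : P,
      DifferentiableAt ℝ (fun y => hq (K (f y)) (fderiv ℝ f y v) (fderiv ℝ f y w)) x ∧
      fderiv ℝ (fun y => hq (K (f y)) (fderiv ℝ f y v) (fderiv ℝ f y w)) x u =
        hq (K (f x)) (fderiv ℝ (fderiv ℝ f) x u v) (fderiv ℝ f x w) +
        hq (K (f x)) (fderiv ℝ f x v) (fderiv ℝ (fderiv ℝ f) x u w) +
        (bpt12T t (fderiv ℝ f x v) (star (fderiv ℝ f x w)) (fderiv ℝ f x u) +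
        bpt12T s (fderiv ℝ f x v) (star (fderiv ℝ f x w)) (star (fderiv ℝ f x u))) := by
    intro u v w
    obtain ⟨q', h1, h2⟩ := bpt12_star (bpt12_d2 hf w)
    have h3 := bpt12_tri (s := fun y => K (f y)) (bpt12_d2 hf v) h1 (fun a b => (hs a b u).1) u
    refine ⟨h3.1, h3.2.trans ?_⟩
    rw [h2, ← bpt12_split]
    simp only [fun a b => (hs a b u).2]
    rfl
  have key2 : ∀ u v w : P,
      fderiv ℝ (fun y => k2 (K (f y)) (fderiv ℝ f y v) (fderiv ℝ f y w)) x u =
        fderiv ℝ (fun y => hq (K (f y)) (fderiv ℝ f y v) (fderiv ℝ f y w)) x u -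
        fderiv ℝ (fun y => hq (K (f y)) (fderiv ℝ f y w) (fderiv ℝ f y v)) x u := by
    intro u v w
    simp only [k2]
    rw [fderiv_fun_sub (key u v w).1 (key u w v).1, _root_.sub_apply]
  have st : ∀ U V Z : E N, bpt12T t U Z V = bpt12T t V Z U := by
    intro U V Z
    rw [bpt12_12 t U Z V, bpt12_23 _ Z U V, bpt12_12 _ Z V U]
    congr 1
    funext a b c
    exact hK.closed _ hx c b a
  have ss : ∀ U V Z : E N, bpt12T s U Z V = bpt12T s U V Z := by
    intro U V Z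
    rw [bpt12_23 s U Z V]
    congr 1
    funext a b c
    exact bpt12_bar hW hK hx a c b
  rw [key2, key2, key2]
  simp only [fun u v w => (key u v w).2]
  rw [bpt12_symm hf v u, bpt12_symm hf w u, bpt12_symm hf w v,
    st (fderiv ℝ f x v) (fderiv ℝ f x u), st (fderiv ℝ f x w) (fderiv ℝ f x u),
    st (fderiv ℝ f x w) (fderiv ℝ f x v), ss _ (star (fderiv ℝ f x u)) (star (fderiv ℝ f x v)),
    ss _ (star (fderiv ℝ f x u)) (star (fderiv ℝ f x w)),
    ss _ (star (fderiv ℝ f x v)) (star (fderiv ℝ f x w))]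
  ring

theorem kah_pull {M : ℕ} {W : Set (E N)} (hW : IsOpen W) {K : E N → Mat N} (hK : Kah W K)
    {F : E M → E N} {y : E M} (hF : ∀ᶠ t in 𝓝 y, DifferentiableAt ℂ F t) (hy : F y ∈ W)
    (a b c : Fin M) :
    dz c (fun t => ((jac F t)ᵀ * K (F t) * (jac F t).map star) a b) y =
      dz a (fun t => ((jac F t)ᵀ * K (F t) * (jac F t).map star) c b) y := by
  obtain ⟨O, hO, hOo, hyO⟩ := _root_.eventually_nhds_iff.1 hF
  have hJ : ∀ p a, DifferentiableAt ℂ (fun t => jac F t p a) y := fun p a =>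
    (jac_hol hOo (fun t ht => (hO t ht).differentiableWithinAt) p a).differentiableAt
      (hOo.mem_nhds hyO)
  have d1 := fun p a => (hJ p a).restrictScalars ℝ
  have d2 := fun p a => ablev_star (d1 p a)
  have d3 := fun p q => diffAt hW (hK.smooth p q) hy
  have d4 : ∀ p q, DifferentiableAt ℝ (fun t => K (F t) p q) y := fun p q =>
    (d3 p q).comp y ((hO y hyO).restrictScalars ℝ)
  have key : ∀ a c, dz c (fun t => ((jac F t)ᵀ * K (F t) * (jac F t).map star) a b) y =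
      ∑ q, ((∑ p, dz c (fun t => jac F t p a) y * K (F y) p q) +
        ∑ p, ∑ r, jac F y p a * jac F y r c * dz r (fun z => K z p q) (F y)) *
          star (jac F y q b) := by
    intro a c
    simp only [Matrix.mul_apply, Matrix.transpose_apply, Matrix.map_apply]
    have d5 : ∀ q, DifferentiableAt ℝ (fun t => ∑ p, jac F t p a * K (F t) p q) y := fun q =>
      DifferentiableAt.fun_sum fun p _ => (d1 p a).fun_mul (d4 p q)
    rw [(dz_sum Finset.univ (fun q _ => (d5 q).fun_mul (d2 q b)) c).1]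
    refine Finset.sum_congr rfl fun q _ => ?_
    rw [(dz_mul (d5 q) (d2 q b) c).1, ← (star_dz _ y c).2, (dz_of_diff (hJ q b) c).2, star_zero,
      mul_zero, add_zero, (dz_sum Finset.univ (fun p _ => (d1 p a).fun_mul (d4 p q)) c).1,
      ← Finset.sum_add_distrib]
    congr 1
    refine Finset.sum_congr rfl fun p _ => ?_
    rw [(dz_mul (d1 p a) (d4 p q) c).1, (dz_comp (d3 p q) (hO y hyO) c).1, Finset.mul_sum]
    simp only [mul_assoc]
  have e : ∀ p a, (fun t => jac F t p a) =ᶠ[𝓝 y] dz a fun t => F t p := by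
    intro p a
    filter_upwards [hF] with t ht
    have h := hasFDerivAt_pi'.1 ht.hasFDerivAt p
    rw [(dz_of_diff h.differentiableAt a).1, h.fderiv]
    rfl
  rw [key, key]
  refine Finset.sum_congr rfl fun q _ => ?_
  congr 2
  · refine Finset.sum_congr rfl fun p _ => ?_
    rw [(dz_congr (e p a) c).self_of_nhds, (dz_congr (e p c) a).self_of_nhds,
      (ablev_comm (contDiffAt_pi.1 (smoothAt_of_hol hF) p) c a).2]
  · rw [Finset.sum_comm]
    refine Finset.sum_congr rfl fun p _ => Finset.sum_congr rfl fun r _ => ?_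
    rw [hK.closed _ hy r q p]
    ring

end Pool.Agent.BP
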