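import Pool.Agent.P.MP_63735c_ag.BPB6
import Pool.Agent.P.MP_63735c_ag.BPT11

/-! Determinant bounds along the orbits; the weight on the base. -/

open scoped ComplexOrder ContDiff Matrix Topology ENNReal
open Set Metric MeasureTheory Filter

namespace Pool.Agent.BP

open Pool.Agent.SPF Pool.Agent.AB Pool.Agent.CK Pool.Agent.SE Pool.Agent.NL

variable {N n : ℕ} {X : Type} [TopologicalSpace X] {A : Atlas X N} {K : Form11 A} {L : Line A}

theorem bpb8a_mono {H G : Mat n} (hH : H.PosSemidef) {C : ℝ} (hC : 0 ≤ C) (hG : G.PosSemidef)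
    (h : ∀ v, hr H v ≤ C * hr G v) : H.det.re ≤ C ^ n * G.det.re := by
  by_cases h0 : G.det = 0
  · obtain ⟨v, hv, h1⟩ := Matrix.exists_vecMul_eq_zero_iff.2 h0
    have h2 : hr G v = 0 := by
      rw [hr, hq, Matrix.dotProduct_mulVec, h1, zero_dotProduct, Complex.zero_re]
    have h3 := h v
    rw [h2, mul_zero] at h3
    rw [h0, Matrix.exists_vecMul_eq_zero_iff.1 ⟨v, hv, hq_null hH (h3.antisymm (hq_nonneg hH v))⟩]
    simp
  · exact det_mono hH hC (hG.posDef_iff_isUnit.2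
      ((Matrix.isUnit_iff_isUnit_det _).2 (Ne.isUnit h0))) h

theorem bpb8a_psd {P : Mat N} (hP : P.PosSemidef) (V : Matrix (Fin N) (Fin n) ℂ) :
    (Vᵀ * P * V.map star).PosSemidef := by
  have h : Vᵀ = (V.map star)ᴴ := by
    ext a b
    simp
  rw [h]
  exact hP.conjTranspose_mul_mul_same _

theorem bpb8a_one (v : E N) : hr 1 v ≤ N * ‖v‖ ^ 2 := by
  have h : hr 1 v = nsq v := by
    simp only [hr, hq, Matrix.one_mulVec, dotProduct, nsq, Pi.star_apply, Complex.re_sum,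
      Complex.star_def, Complex.mul_conj', ← Complex.ofReal_pow, Complex.ofReal_re]
  exact h ▸ (nsq_le v).2

theorem bpb8a_mul {M : Matrix (Fin n) (Fin N) ℂ} {R : ℝ} (hM : ∀ a b, ‖M a b‖ ≤ R) (v : E N) :
    ‖M *ᵥ v‖ ≤ N * |R| * ‖v‖ := by
  refine (pi_norm_le_iff_of_nonneg (by positivity)).2 fun a =>
    (norm_sum_le Finset.univ fun b => M a b * v b).trans ?_
  calc ∑ b, ‖M a b * v b‖ ≤ ∑ _b : Fin N, |R| * ‖v‖ := Finset.sum_le_sum fun b _ => by
        rw [norm_mul]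
        exact mul_le_mul ((hM a b).trans (le_abs_self R)) (norm_le_pi_norm v b) (norm_nonneg _)
          (abs_nonneg R)
    _ = N * |R| * ‖v‖ := by simp [mul_assoc]

theorem Sys.det_le (S : Sys K L n) {i : A.ι} {C : Set (E N)} (hC : IsCompact C)
    (hs : C ⊆ (A.C i).W) (R : ℝ) : ∃ c : ℝ, 0 < c ∧ ∀ z ∈ C, (∀ v, ‖v‖ ^ 2 ≤ c * hr (K.h i z) v) ∧
      (A.p i z ∈ S.U → ((Vf A S.g i z)ᵀ * (Vf A S.g i z).map star).det.re ≤
        c * (S.h (A.p i z)).det.re ∧ ∀ M : Matrix (Fin n) (Fin N) ℂ, (∀ a b, ‖M a b‖ ≤ R) →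
          ‖(M * Vf A S.g i z).det‖ ^ 2 ≤ c * (S.h (A.p i z)).det.re) := by
  obtain ⟨c, hc, h1⟩ := cpt_lower (h := K.h i) hC
    (fun a b => (K.smooth i a b).continuousOn.mono hs)
    fun z hz u hu => hq_pos (S.K_pos i z (hs hz)) hu
  have a1 : 0 ≤ (N * c⁻¹) ^ n := by positivity
  have a2 : 0 ≤ (n * (N * |R|) ^ 2 * c⁻¹) ^ n := by positivity
  have a3 : 0 < c⁻¹ := inv_pos.2 hc
  refine ⟨c⁻¹ + (N * c⁻¹) ^ n + (n * (N * |R|) ^ 2 * c⁻¹) ^ n, by positivity, fun z hz => ?_⟩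
  have hK := (S.K_pos i z (hs hz)).posSemidef
  have h2 : ∀ v, ‖v‖ ^ 2 ≤ c⁻¹ * hr (K.h i z) v := fun v => (le_inv_mul_iff₀ hc).2 (h1 z hz v)
  refine ⟨fun v => (h2 v).trans (mul_le_mul_of_nonneg_right (by linarith) (hq_nonneg hK v)),
    fun hU => ?_⟩
  have h3 : 0 ≤ (S.h (A.p i z)).det.re := (Complex.nonneg_iff.1 (S.h_psd hU).det_nonneg).1
  have key : ∀ (P : Mat N) (t : ℝ), P.PosSemidef → 0 ≤ t → (∀ v, hr P v ≤ t * ‖v‖ ^ 2) →
      ((Vf A S.g i z)ᵀ * P * (Vf A S.g i z).map star).det.re ≤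
        (t * c⁻¹) ^ n * (S.h (A.p i z)).det.re := fun P t hP ht h => by
    refine bpb8a_mono (bpb8a_psd hP _) (by positivity) (S.h_psd hU) fun v => ?_
    rw [hr, hr, hq_conj, S.hq_h (hs hz) hU, mul_assoc]
    exact (h _).trans (mul_le_mul_of_nonneg_left (h2 _) ht)
  refine ⟨?_, fun M hM => ?_⟩
  · have h4 := key 1 N Matrix.PosSemidef.one (Nat.cast_nonneg N) bpb8a_one
    rw [Matrix.mul_one] at h4
    exact h4.trans (mul_le_mul_of_nonneg_right (by linarith) h3)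
  · have h4 := key (Mᵀ * (1 : Mat n) * M.map star) (n * (N * |R|) ^ 2) (bpb8a_psd Matrix.PosSemidef.one M)
      (by positivity) fun v => by
        rw [hr, hq_conj, mul_assoc, ← mul_pow]
        exact (bpb8a_one _).trans (mul_le_mul_of_nonneg_left
          (pow_le_pow_left₀ (norm_nonneg _) (bpb8a_mul hM v) 2) (Nat.cast_nonneg n))
    have h5 : (Vf A S.g i z)ᵀ * (Mᵀ * (1 : Mat n) * M.map star) * (Vf A S.g i z).map star =
        (M * Vf A S.g i z)ᵀ * ((M * Vf A S.g i z)ᴴ)ᵀ := by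
      rw [Matrix.mul_one, Matrix.conjTranspose_mul, Matrix.transpose_mul, Matrix.transpose_mul]
      simp only [Matrix.mul_assoc]
      rfl
    rw [h5, Matrix.det_mul, Matrix.det_transpose, Matrix.det_transpose, Matrix.det_conjTranspose,
      Complex.star_def, Complex.mul_conj', ← Complex.ofReal_pow, Complex.ofReal_re] at h4
    exact h4.trans (mul_le_mul_of_nonneg_right (by linarith) h3)

variable {S : Sys K L n} {Y : Type} [TopologicalSpace Y] (B : Base S Y)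

theorem Base.φ_smo : B.Smo (B.dn S.φ) :=
  B.dn_smo (fun x hx τ => S.φ_Φ x hx.1 τ) fun i z hz h => S.φ_smooth i z hz h.1

theorem Base.φ_psh {k : B.ι} {b : E n} (hb : b ∈ B.W k) (v : E n) :
    0 ≤ hr (B.levG (B.dn S.φ) k b) v := by
  obtain ⟨i, z, hz, he⟩ := A.cover (B.s k b)
  have hW : A.p i z ∈ S.W := he ▸ B.s_mem k b hb
  obtain ⟨u, rfl⟩ := (S.h_pos_iff hz hW.1).2.1 hW.2.1 v
  rw [hr, ← hq_conj, ← B.eta_eq hz hW hb (he ▸ B.f_s k b hb), hq_smul, ← Complex.ofReal_natCast,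
    Complex.re_ofReal_mul]
  exact mul_nonneg (Nat.cast_nonneg _) (hq_nonneg ((A.C i).η_psd z hz) u)

end Pool.Agent.BP
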