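import Pool.Agent.P.MP_63735c_ag.BPC0

/-! Two divergence identities for a Kähler metric. -/

open scoped ComplexOrder ContDiff Matrix Topology ENNReal
open Set Metric MeasureTheory Filter

namespace Pool.Agent.BP

open Pool.Agent.SPF Pool.Agent.AB Pool.Agent.CK Pool.Agent.SE Pool.Agent.NL

variable {n : ℕ} {W : Set (E n)} {K : E n → Mat n} {z : E n}

theorem bpc1_adj {K : Mat n} (hK : K.PosDef) : K.adjugate = K.det • K⁻¹ := by
  rw [Matrix.inv_def, Ring.inverse_eq_inv', smul_smul, mul_inv_cancel₀ hK.det_pos.ne', one_smul]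

theorem bpc1_skew {G : Mat n} (hG : Gᵀ = -G) {T : Fin n → Fin n → ℂ} (hT : ∀ a e, T a e = T e a) :
    ∑ a, ∑ e, G a e * T a e = 0 := by
  have h : ∑ a, ∑ e, G a e * T a e = -∑ a, ∑ e, G a e * T a e := by
    conv_lhs => rw [Finset.sum_comm]
    rw [← Finset.sum_neg_distrib]
    refine Finset.sum_congr rfl fun a _ => ?_
    rw [← Finset.sum_neg_distrib]
    refine Finset.sum_congr rfl fun e _ => ?_
    have h1 : G e a = -G a e := congrFun (congrFun hG a) e
    rw [h1, hT e a, neg_mul]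
  linear_combination (1 / 2 : ℂ) * h

/-- The entrywise derivative of a matrix. -/
noncomputable def bpc1_d (a : Fin n) (M : E n → Mat n) (z : E n) : Mat n :=
  Matrix.of fun i j => dz a (fun w => M w i j) z

theorem bpc1_diff {M M' : E n → Mat n} (h : ∀ i j, DifferentiableAt ℝ (fun w => M w i j) z)
    (h' : ∀ i j, DifferentiableAt ℝ (fun w => M' w i j) z) (i j : Fin n) :
    DifferentiableAt ℝ (fun w => (M w * M' w) i j) z := by
  simp only [Matrix.mul_apply]
  exact DifferentiableAt.fun_sum fun c _ => (h i c).fun_mul (h' c j)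

theorem bpc1_mul {M M' : E n → Mat n} (h : ∀ i j, DifferentiableAt ℝ (fun w => M w i j) z)
    (h' : ∀ i j, DifferentiableAt ℝ (fun w => M' w i j) z) (a : Fin n) :
    bpc1_d a (fun w => M w * M' w) z = bpc1_d a M z * M' z + M z * bpc1_d a M' z := by
  ext i j
  simp only [bpc1_d, Matrix.of_apply, Matrix.mul_apply, Matrix.add_apply]
  rw [(dz_sum _ (fun c _ => (h i c).fun_mul (h' c j)) a).1, ← Finset.sum_add_distrib]
  exact Finset.sum_congr rfl fun c _ => (dz_mul (h i c) (h' c j) a).1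

theorem bpc1_inv (hW : IsOpen W) (hK : Kah W K) (hz : z ∈ W) (a : Fin n) :
    bpc1_d a (fun w => (K w)⁻¹) z = -((K z)⁻¹ * bpc1_d a K z * (K z)⁻¹) := by
  have hu : ∀ w ∈ W, IsUnit (K w).det := fun w hw => (hK.pos w hw).det_pos.ne'.isUnit
  have h1 := bpc1_mul (fun i j => diffAt hW (hK.inv_smooth i j) hz)
    (fun i j => diffAt hW (hK.smooth i j) hz) a
  have h2 : bpc1_d a (fun w => (K w)⁻¹ * K w) z = 0 := by
    ext i j
    have he : (fun w => ((K w)⁻¹ * K w) i j) =ᶠ[𝓝 z] fun _ => (1 : Mat n) i j := by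
      filter_upwards [hW.mem_nhds hz] with w hw
      rw [Matrix.nonsing_inv_mul _ (hu w hw)]
    exact (dz_congr he a).self_of_nhds.trans (dz_const a _).1
  rw [h2, eq_comm, add_eq_zero_iff_eq_neg] at h1
  rw [← neg_mul, ← h1, mul_assoc, Matrix.mul_nonsing_inv _ (hu z hz), mul_one]

theorem zt_pair {K : Mat n} (hK : K.PosDef) (h k : Mat n) :
    ∑ a, ∑ b, zt K h a b * k a b = K.det * ip K⁻¹ h k := by
  have h1 : ∑ a, ∑ b, zt K h a b * k a b = ((zt K h)ᵀ * k).trace := by
    rw [Finset.sum_comm]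
    rfl
  have h2 : (h.map star)ᵀ = hᴴ := rfl
  rw [h1, zt, ip, Matrix.transpose_mul, Matrix.transpose_mul, Matrix.transpose_transpose, h2,
    bpc1_adj hK, mul_assoc, Matrix.trace_mul_comm]
  simp only [mul_smul_comm, smul_mul_assoc, Matrix.trace_smul, smul_eq_mul, mul_assoc]

theorem zt_skew {K h : Mat n} (hK : K.PosDef) (hh : hᵀ = -h) : (zt K h)ᵀ = -zt K h := by
  have h2 : (h.map star)ᵀ = -h.map star := by
    rw [← Matrix.transpose_map, hh]
    ext a b
    simp
  rw [zt, Matrix.transpose_mul, Matrix.transpose_mul, Matrix.transpose_transpose, h2, bpc1_adj hK]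
  simp only [Matrix.transpose_smul, mul_smul_comm, smul_mul_assoc, neg_mul, mul_neg, mul_assoc,
    smul_neg]

theorem zt_smooth (hK : Kah W K) {h : E n → Mat n}
    (hs : ∀ a b, ContDiffOn ℝ ∞ (fun w => h w a b) W) (a b : Fin n) :
    ContDiffOn ℝ ∞ (fun w => zt (K w) (h w) a b) W := by
  simp only [zt, Matrix.mul_apply, Matrix.transpose_apply, Matrix.map_apply]
  exact ContDiffOn.sum fun d _ => (ContDiffOn.sum fun c _ => (adj_smooth hK.smooth c a).mul
    (Complex.conjCLE.contDiff.comp_contDiffOn (hs c d))).mul (hK.inv_smooth d b)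

theorem zt_div (hW : IsOpen W) (hK : Kah W K) {h : E n → Mat n}
    (hs : ∀ a b, ContDiffOn ℝ ∞ (fun w => h w a b) W) (hz : z ∈ W) (hk : (h z)ᵀ = -h z)
    (hh : ∀ a b c, dzb c (fun w => h w a b) z = 0) (b : Fin n) :
    ∑ a, dz a (fun w => zt (K w) (h w) a b) z = 0 := by
  have d1 : ∀ i j, DifferentiableAt ℝ (fun w => (K w).adjugateᵀ i j) z := fun i j =>
    diffAt hW (adj_smooth hK.smooth j i) hz
  have d2 : ∀ i j, DifferentiableAt ℝ (fun w => (h w).map star i j) z := fun i j =>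
    ablev_star (diffAt hW (hs i j) hz)
  have d3 : ∀ i j, DifferentiableAt ℝ (fun w => (K w)⁻¹ i j) z := fun i j =>
    diffAt hW (hK.inv_smooth i j) hz
  have h0 : ∀ a, bpc1_d a (fun w => (h w).map star) z = 0 := fun a => by
    ext i j
    exact (star_dz (fun w => h w i j) z a).2.symm.trans (by rw [hh]; exact star_zero _)
  have h1 : ∀ a, dz a (fun w => zt (K w) (h w) a b) z =
      (bpc1_d a (fun w => (K w).adjugateᵀ) z * ((h z).map star * (K z)⁻¹)) a b -
        (zt (K z) (h z) * bpc1_d a K z * (K z)⁻¹) a b := fun a => by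
    have h2 := bpc1_mul (bpc1_diff d1 d2) d3 a
    rw [bpc1_mul d1 d2, h0, bpc1_inv hW hK hz, mul_zero, add_zero, mul_neg, ← sub_eq_add_neg,
      mul_assoc, ← mul_assoc _ (_ * _) (K z)⁻¹, ← mul_assoc _ (K z)⁻¹] at h2
    exact congrFun (congrFun h2 a) b
  simp only [h1, Finset.sum_sub_distrib]
  have h3 : ∑ a, (bpc1_d a (fun w => (K w).adjugateᵀ) z * ((h z).map star * (K z)⁻¹)) a b = 0 := by
    simp only [Matrix.mul_apply (M := bpc1_d _ _ _)]
    rw [Finset.sum_comm]
    refine Finset.sum_eq_zero fun c _ => ?_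
    rw [← Finset.sum_mul]
    exact mul_eq_zero_of_left
      (piola_d (fun i j => diffAt hW (hK.smooth i j) hz) (hK.closed z hz) c) _
  have h4 : ∑ a, (zt (K z) (h z) * bpc1_d a K z * (K z)⁻¹) a b = 0 := by
    simp only [Matrix.mul_apply (N := (K z)⁻¹), Matrix.mul_apply (M := zt _ _)]
    rw [Finset.sum_comm]
    refine Finset.sum_eq_zero fun f _ => ?_
    rw [← Finset.sum_mul]
    exact mul_eq_zero_of_left (bpc1_skew (zt_skew (hK.pos z hz) hk)
      (T := fun a e => bpc1_d a K z e f) fun a e => hK.closed z hz e f a) _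
  rw [h3, h4, sub_zero]

theorem curl_smooth (hW : IsOpen W) {ξ : E n → E n} (hξ : ContDiffOn ℝ ∞ ξ W) (a b : Fin n) :
    ContDiffOn ℝ ∞ (fun w => curl ξ w a b) W :=
  (dz_smooth hW (contDiffOn_pi.1 hξ b) a).1.sub (dz_smooth hW (contDiffOn_pi.1 hξ a) b).1

theorem curl_hol (hW : IsOpen W) {ξ : E n → E n} (hξ : ContDiffOn ℝ ∞ ξ W) {T : E n → Mat n}
    (he : ∀ w ∈ W, ∀ c e, dzb e (fun w => ξ w c) w = T w c e) (hz : z ∈ W)
    (hT : ∀ a b c, dz c (fun w => T w a b) z = dz a (fun w => T w c b) z) (a b c : Fin n) :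
    dzb c (fun w => curl ξ w a b) z = 0 := by
  have h1 : ∀ a b, dzb c (dz a fun w => ξ w b) z = dz a (fun w => T w b c) z := fun a b => by
    rw [← (ablev_comm ((contDiffOn_pi.1 hξ b).contDiffAt (hW.mem_nhds hz)) a c).1]
    refine (dz_congr ?_ a).self_of_nhds
    filter_upwards [hW.mem_nhds hz] with w hw using he w hw b c
  refine (dz_sub (diffAt hW (dz_smooth hW (contDiffOn_pi.1 hξ b) a).1 hz)
    (diffAt hW (dz_smooth hW (contDiffOn_pi.1 hξ a) b).1 hz) c).2.trans ?_
  rw [h1, h1, hT b c a, sub_self]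

theorem dv_add {V V' : E n → E n} (hV : DifferentiableAt ℝ V z) (hV' : DifferentiableAt ℝ V' z) :
    dv (fun w => V w + V' w) z = dv V z + dv V' z := by
  rw [dv, dv, dv, ← Finset.sum_add_distrib]
  exact Finset.sum_congr rfl fun a _ =>
    (dz_add (differentiableAt_pi.1 hV a) (differentiableAt_pi.1 hV' a) a).1

theorem dv_smul {θ : E n → ℝ} {V : E n → E n} (hθ : DifferentiableAt ℝ θ z)
    (hV : DifferentiableAt ℝ V z) :
    dv (fun w => (θ w : ℂ) • V w) z = dr θ z ⬝ᵥ V z + θ z * dv V z := by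
  rw [dv, dv, dotProduct, Finset.mul_sum, ← Finset.sum_add_distrib]
  exact Finset.sum_congr rfl fun a _ => (dz_mul (ablev_red hθ) (differentiableAt_pi.1 hV a) a).1

theorem dv_grad (hW : IsOpen W) (hK : Kah W K) {ψ : E n → ℝ} (hψ : ContDiffOn ℝ ∞ ψ W)
    (hz : z ∈ W) : dv (fun w => star (dr ψ w) ᵥ* (K w).adjugate) z =
      ((K z).adjugate * lev ψ z).trace := by
  have d1 : ∀ b, DifferentiableAt ℝ (fun w => star (dr ψ w b)) z := fun b =>
    ablev_star (diffAt hW (contDiffOn_pi.1 (dr_smooth hW hψ) b) hz)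
  have d2 : ∀ i j, DifferentiableAt ℝ (fun w => (K w).adjugate i j) z := fun i j =>
    diffAt hW (adj_smooth hK.smooth i j) hz
  have h1 : ∀ a, dz a (fun w => (star (dr ψ w) ᵥ* (K w).adjugate) a) z =
      ∑ b, (lev ψ z a b * (K z).adjugate b a +
        star (dr ψ z b) * dz a (fun w => (K w).adjugate b a) z) := fun a =>
    (dz_sum Finset.univ (fun b _ => (d1 b).fun_mul (d2 b a)) a).1.trans
      (Finset.sum_congr rfl fun b _ => (dz_mul (d1 b) (d2 b a) a).1)
  simp only [dv, h1]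
  rw [Finset.sum_comm]
  refine Finset.sum_congr rfl fun b _ => ?_
  rw [Finset.sum_add_distrib, ← Finset.mul_sum,
    piola_d (fun i j => diffAt hW (hK.smooth i j) hz) (hK.closed z hz) b, mul_zero, add_zero]
  exact Finset.sum_congr rfl fun a _ => mul_comm _ _

theorem dv_zt (hW : IsOpen W) (hK : Kah W K) {ξ : E n → E n} (hξ : ContDiffOn ℝ ∞ ξ W)
    (hz : z ∈ W) (hh : ∀ a b c, dzb c (fun w => curl ξ w a b) z = 0) :
    2 * dv (fun w => zt (K w) (curl ξ w) *ᵥ ξ w) z =
      (K z).det * ip (K z)⁻¹ (curl ξ z) (curl ξ z) := by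
  have hk : (curl ξ z)ᵀ = -curl ξ z := by
    ext a b
    simp [curl]
  have d1 : ∀ a b, DifferentiableAt ℝ (fun w => zt (K w) (curl ξ w) a b) z := fun a b =>
    diffAt hW (zt_smooth hK (curl_smooth hW hξ) a b) hz
  have d2 : ∀ b, DifferentiableAt ℝ (fun w => ξ w b) z := fun b =>
    diffAt hW (contDiffOn_pi.1 hξ b) hz
  have h1 : ∀ a, dz a (fun w => (zt (K w) (curl ξ w) *ᵥ ξ w) a) z =
      ∑ b, (dz a (fun w => zt (K w) (curl ξ w) a b) z * ξ z b +
        zt (K z) (curl ξ z) a b * dz a (fun w => ξ w b) z) := fun a =>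
    (dz_sum Finset.univ (fun b _ => (d1 a b).fun_mul (d2 b)) a).1.trans
      (Finset.sum_congr rfl fun b _ => (dz_mul (d1 a b) (d2 b) a).1)
  have h2 : ∑ a, ∑ b, dz a (fun w => zt (K w) (curl ξ w) a b) z * ξ z b = 0 := by
    rw [Finset.sum_comm]
    refine Finset.sum_eq_zero fun b _ => ?_
    rw [← Finset.sum_mul, zt_div hW hK (curl_smooth hW hξ) hz hk hh b, zero_mul]
  have h3 := bpc1_skew (zt_skew (hK.pos z hz) hk)
    (T := fun a b => dz a (fun w => ξ w b) z + dz b (fun w => ξ w a) z) fun a b => add_comm _ _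
  rw [← zt_pair (hK.pos z hz)]
  simp only [dv, h1, Finset.sum_add_distrib, h2, zero_add]
  simp only [mul_add, Finset.sum_add_distrib] at h3
  have h4 : ∀ a b, zt (K z) (curl ξ z) a b * curl ξ z a b =
      zt (K z) (curl ξ z) a b * dz a (fun w => ξ w b) z -
        zt (K z) (curl ξ z) a b * dz b (fun w => ξ w a) z := fun a b => mul_sub _ _ _
  simp only [h4, Finset.sum_sub_distrib]
  linear_combination h3

end Pool.Agent.BP
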