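import Pool.Agent.P.MP_63735c_ag.BPT5d

/-! The local potential lemma: the potential. -/

open scoped ComplexOrder ContDiff Matrix Topology ENNReal
open Set Metric MeasureTheory Filter

namespace Pool.Agent.BP

open Pool.Agent.SPF Pool.Agent.AB Pool.Agent.CK Pool.Agent.SE Pool.Agent.NL

variable {N : ℕ} {z₀ : E N} {R a C : ℝ} {W : Set (E N)} {ψ : E N → ℝ} {ξ : E N → E N}
  {Ω e : E N → Mat N}

variable {D : Set (E N)} {z₁ : E N} {G : ℕ → E N → ℝ} {κ A L r : ℝ}

theorem bpt5c_loc (h : PotD z₀ R W ψ ξ Ω e a C)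
    (h0 : ∀ z ∈ W, ∀ b c, dz b (fun w => ξ w c) z = dz c (fun w => ξ w b) z)
    (s : Bpt5cSeq (ball z₀ r) (W ∩ ball z₀ r) ξ z₁ G κ A L) {z : E N} (hz : z ∈ W ∩ ball z₀ r) :
    ∃ (ε : ℝ) (g : E N → ℝ), 0 < ε ∧ ball z (2 * ε) ⊆ W ∩ ball z₀ r ∧
      ContDiffOn ℝ ∞ g (ball z (2 * ε)) ∧ (∀ y ∈ ball z (2 * ε), dr g y = ξ y) ∧
      ∀ γ > 0, ∀ᶠ n in atTop, ∀ y ∈ closedBall z ε, |G n y - G n z - g y| ≤ γ := by
  obtain ⟨δ, hδ, hsub⟩ := Metric.isOpen_iff.1 (h.isOpen.inter isOpen_ball) z hz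
  obtain ⟨ε, rfl⟩ : ∃ ε, δ = 2 * ε := ⟨δ / 2, by ring⟩
  have hε : 0 < ε := by linarith
  obtain ⟨g, hg, hg0, hgd⟩ := exists_pot (h.ξ_smooth.mono (hsub.trans inter_subset_left))
    (fun y hy => h0 y (hsub hy).1) (fun y hy b c => by
      rw [h.eq y (hsub hy).1, h.eq y (hsub hy).1, bpt5c_herm h (hsub hy).1]) (mem_ball_self hδ)
  refine ⟨ε, g, hε, hsub, hg, hgd, fun γ hγ => ?_⟩
  have hc : closedBall z ε ⊆ ball z (2 * ε) := closedBall_subset_ball (by linarith)
  have hp : 0 < 2 * N * ε + 1 := by positivity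
  filter_upwards [s.lim _ (hc.trans hsub) (isCompact_closedBall z ε) _ (div_pos hγ hp)]
    with n hn y hy
  have d1 : ∀ x ∈ closedBall z ε, DifferentiableAt ℝ (G n) x := fun x hx =>
    diffAt isOpen_ball (s.smooth n) (hsub (hc hx)).2
  have d2 : ∀ x ∈ closedBall z ε, DifferentiableAt ℝ g x := fun x hx =>
    diffAt isOpen_ball hg (hc hx)
  have h1 := (convex_closedBall z ε).norm_image_sub_le_of_norm_fderiv_le (𝕜 := ℝ)
    (f := fun x => G n x - g x) (C := 2 * N * (γ / (2 * N * ε + 1)))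
    (fun x hx => (d1 x hx).fun_sub (d2 x hx)) (fun x hx => (bpt5c_fd (d1 x hx) (d2 x hx)).trans
      (mul_le_mul_of_nonneg_left (by rw [hgd x (hc hx)]; exact hn x hx) (by positivity)))
    (mem_closedBall_self hε.le) hy
  have h2 : ‖y - z‖ ≤ ε := mem_closedBall_iff_norm.1 hy
  have h3 : 2 * N * (γ / (2 * N * ε + 1)) * ε ≤ γ := by
    rw [mul_right_comm, ← mul_div_assoc, div_le_iff₀ hp]
    nlinarith
  have h4 := h1.trans ((mul_le_mul_of_nonneg_left h2 (by positivity)).trans h3)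
  rw [hg0, sub_zero, Real.norm_eq_abs] at h4
  rwa [sub_right_comm]

theorem bpt5c_nsq (z v : E N) : hr (lev nsq z) v = nsq v := by
  have := (lev_nsq (F := fun w : E N => w) (z := z)
    (Eventually.of_forall fun w => differentiableAt_id)).2.2.2 v
  simpa using this

theorem bpt5c_nsq0 (z : E N) : 0 ≤ nsq z := (sq_nonneg _).trans (nsq_le z).1

theorem bpt5c_add {g : E N → ℝ} {z : E N} (hg : ContDiffAt ℝ ∞ g z) (c : ℝ) (v : E N) :
    ContDiffAt ℝ ∞ (fun y => g y + c * nsq y) z ∧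
      hr (lev (fun y => g y + c * nsq y) z) v = hr (lev g z) v + c * nsq v ∧
      dr (fun y => g y + c * nsq y) z = dr g z + (c : ℂ) • dr nsq z := by
  have h1 : ContDiffAt ℝ ∞ (nsq : E N → ℝ) z := nsq_smooth.contDiffAt
  have h2 : ContDiffAt ℝ ∞ (fun y : E N => c * nsq y) z := contDiffAt_const.mul h1
  refine ⟨hg.add h2, ?_, ?_⟩
  · rw [lev_add hg h2, lev_smul h1, hr, hq_add, hq_smul, Complex.add_re, Complex.re_ofReal_mul,
      ← bpt5c_nsq z v]
  · rw [dr_add (hg.differentiableAt (by simp)) (h2.differentiableAt (by simp)),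
      dr_chain (ρ := fun t => c * t) (by simpa using (hasDerivAt_id (nsq z)).const_mul c)
        (h1.differentiableAt (by simp))]

theorem bpt5c_lp (s : Bpt5cSeq (ball z₀ (16 * r)) D ξ z₁ G κ A L) (hr0 : 0 < r)
    (hz : z₁ ∈ ball z₀ r) : ∃ δ : ℝ, 0 < δ ∧ ∀ p : ℕ, ∃ B : ℝ, ∀ n,
      ∫ y in ball z₀ r, Real.exp (-(δ * G n y)) ^ p ≤ B := by
  have hK := isCompact_closedBall z₀ (16 * r)
  obtain ⟨M, hM⟩ := hK.exists_bound_of_continuousOn (nsq_smooth (M := N)).continuous.continuousOn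
  obtain ⟨M₁, hM₁⟩ := hK.exists_bound_of_continuousOn
    ((dr_smooth isOpen_univ (nsq_smooth (M := N)).contDiffOn).continuousOn.mono (subset_univ _))
  have hκ := s.κ_pos
  have hA := s.A_pos
  set Y := (A + 1) * (N * M₁) with hY
  set δ := min (κ / 2) (1 / (2 * Y ^ 2 + 1)) with hδd
  have hδ : 0 < δ := by positivity
  have hδ1 : 2 * δ ≤ κ := by linarith [min_le_left (κ / 2) (1 / (2 * Y ^ 2 + 1))]
  have hδ2 : δ * (2 * Y ^ 2 + 1) ≤ 1 := (le_div_iff₀ (by positivity)).1 (min_le_right _ _)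
  refine ⟨δ, hδ, fun p => ?_⟩
  obtain ⟨B, hB, hlp⟩ := lp N p hr0
  rw [mem_ball] at hz
  have h8 : ball z₁ (8 * r) ⊆ ball z₀ (16 * r) := ball_subset_ball' (by linarith)
  have h2 : closedBall z₁ (2 * r) ⊆ ball z₀ (16 * r) := closedBall_subset_ball' (by linarith)
  have h1 : ball z₀ r ⊆ ball z₁ (2 * r) := ball_subset_ball' (by rw [dist_comm]; linarith)
  refine ⟨Real.exp (δ * ((A + 1) * M)) ^ p * (B * 2 ^ p), fun n => ?_⟩
  set u : E N → ℝ := fun y => G n y + (A + 1) * nsq y with hu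
  have hG : ∀ y ∈ ball z₀ (16 * r), ContDiffAt ℝ ∞ (G n) y := fun y hy =>
    (s.smooth n).contDiffAt (isOpen_ball.mem_nhds hy)
  have hw : ContDiffOn ℝ ∞ (fun y => -Real.exp (-(δ * u y))) (ball z₀ (16 * r)) := fun y hy =>
    (contDiffAt_const.mul (bpt5c_add (hG y hy) (A + 1) 0).1).neg.exp.neg.contDiffWithinAt
  have h3 := hlp (fun y => -Real.exp (-(δ * u y))) z₁ (hw.mono h8) fun y hy => by
    refine ⟨neg_nonpos.2 (Real.exp_pos _).le, fun v => ?_⟩
    obtain ⟨c1, c2, c3⟩ := bpt5c_add (hG y (h8 hy)) (A + 1) v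
    have e0 : ∀ t : ℝ, HasDerivAt (fun t => Real.exp (-(δ * t))) (Real.exp (-(δ * t)) * -δ) t :=
      fun t => by simpa using ((hasDerivAt_id t).const_mul δ).fun_neg.exp
    have e1 := lev_chain (ρ := fun t => -Real.exp (-(δ * t)))
      (ρ₁ := fun t => δ * Real.exp (-(δ * t))) (ρ₂ := δ * (Real.exp (-(δ * u y)) * -δ))
      (Eventually.of_forall fun t => (e0 t).fun_neg.congr_deriv (by ring))
      ((e0 _).const_mul δ) c1 v
    have b1 : ‖v ⬝ᵥ dr u y‖ ≤ ‖v ⬝ᵥ dr (G n) y‖ + Y * ‖v‖ := by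
      have b0 := (dot_norm_le v (dr nsq y)).trans (mul_le_mul_of_nonneg_left
        (hM₁ y (ball_subset_closedBall (h8 hy))) (by positivity))
      rw [hu, c3, dotProduct_add, dotProduct_smul]
      refine (norm_add_le _ _).trans (add_le_add_right ?_ _)
      rw [norm_smul, Complex.norm_real, Real.norm_of_nonneg (by positivity), hY]
      nlinarith
    have b2 := s.low n y (h8 hy) v
    have b3 := (nsq_le v).1
    have b4 : δ * ‖v ⬝ᵥ dr u y‖ ^ 2 ≤ hr (lev u y) v := by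
      have b5 : ‖v ⬝ᵥ dr u y‖ ^ 2 ≤ 2 * ‖v ⬝ᵥ dr (G n) y‖ ^ 2 + 2 * Y ^ 2 * ‖v‖ ^ 2 :=
        (pow_le_pow_left₀ (norm_nonneg _) b1 2).trans
          (by nlinarith [sq_nonneg (‖v ⬝ᵥ dr (G n) y‖ - Y * ‖v‖)])
      have b6 := mul_le_mul_of_nonneg_right hδ1 (sq_nonneg ‖v ⬝ᵥ dr (G n) y‖)
      have b7 := mul_le_mul_of_nonneg_right hδ2 (sq_nonneg ‖v‖)
      have b8 := mul_le_mul_of_nonneg_left b5 hδ.le
      have b9 := mul_nonneg hδ.le (sq_nonneg ‖v‖)
      rw [hu, c2]
      nlinarith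
    have b5 := mul_le_mul_of_nonneg_left b4 (mul_pos hδ (Real.exp_pos (-(δ * u y)))).le
    rw [hr, e1]
    rw [hr] at b5
    nlinarith
  have h4 : (1 + |-Real.exp (-(δ * u z₁))|) ^ p ≤ 2 ^ p := by
    refine pow_le_pow_left₀ (by positivity) ?_ p
    have : Real.exp (-(δ * u z₁)) ≤ 1 := Real.exp_le_one_iff.2 (neg_nonpos.2 (by
      have := bpt5c_nsq0 z₁
      simp only [hu, s.zero n, zero_add]
      positivity))
    rw [abs_neg, abs_of_pos (Real.exp_pos _)]
    linarith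
  have hi : IntegrableOn (fun y => |-Real.exp (-(δ * u y))| ^ p) (ball z₁ (2 * r)) volume :=
    (((hw.continuousOn.mono h2).abs.pow p).integrableOn_compact
      (isCompact_closedBall _ _)).mono_set ball_subset_closedBall
  have h5 := (setIntegral_mono_set hi (Eventually.of_forall fun y => by positivity)
    h1.eventuallyLE).trans (h3.trans (mul_le_mul_of_nonneg_left h4 hB.le))
  refine le_trans ?_ (mul_le_mul_of_nonneg_left h5 (by positivity))
  rw [← integral_const_mul]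
  refine integral_mono_of_nonneg (Eventually.of_forall fun y => by positivity)
    ((hi.mono_set h1).const_mul _) (ae_restrict_of_forall_mem measurableSet_ball fun y hy => ?_)
  have h6 := (le_abs_self _).trans (hM y (ball_subset_closedBall
    (ball_subset_ball (by linarith) hy)))
  simp only [abs_neg, abs_of_pos (Real.exp_pos _), ← mul_pow, ← Real.exp_add]
  refine pow_le_pow_left₀ (Real.exp_pos _).le (Real.exp_le_exp.2 ?_) p
  have := mul_le_mul_of_nonneg_left h6 (by positivity : 0 ≤ δ * (A + 1))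
  simp only [hu]
  nlinarith

theorem bpt5c_up (s : Bpt5cSeq (ball z₀ (16 * r)) D ξ z₁ G κ A L) (hr0 : 0 < r) {ε M : ℝ}
    (hε : 0 < ε) (hT : ball z₁ ε ⊆ ball z₀ (4 * r))
    (hM : ∀ᶠ n in atTop, ∀ y ∈ ball z₁ ε, G n y ≤ M) :
    ∃ c, ∀ᶠ n in atTop, ∀ z ∈ ball z₀ r, G n z ≤ c := by
  have hK := isCompact_closedBall z₀ (4 * r)
  obtain ⟨Q, hQ⟩ := hK.exists_bound_of_continuousOn (nsq_smooth (M := N)).continuous.continuousOn
  obtain ⟨B, hB, hP⟩ := poincare N (by linarith : 0 < 4 * r)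
  have hv : ∀ (z : E N) (t : ℝ), 0 < t → 0 < volume.real (ball z t) := fun z t ht =>
    ENNReal.toReal_pos (measure_ball_pos _ _ ht).ne' measure_ball_lt_top.ne
  have h4 : closedBall z₀ (4 * r) ⊆ ball z₀ (16 * r) := closedBall_subset_ball (by linarith)
  have hA := s.A_pos
  set V := volume.real (ball z₀ r) with hV
  set T := volume.real (ball z₁ ε) with hTd
  have hVp : 0 < V := hv _ _ hr0
  have hTp : 0 < T := hv _ _ hε
  refine ⟨M + A * Q + B * L / (T * V), hM.mono fun n hn z hz => ?_⟩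
  rw [mem_ball] at hz
  have hS : ball z r ⊆ ball z₀ (4 * r) := ball_subset_ball' (by linarith)
  have h2 : ball z (2 * r) ⊆ ball z₀ (16 * r) := ball_subset_ball' (by linarith)
  have hG : ∀ y ∈ ball z₀ (16 * r), ContDiffAt ℝ ∞ (G n) y := fun y hy =>
    (s.smooth n).contDiffAt (isOpen_ball.mem_nhds hy)
  have hi : IntegrableOn (G n) (ball z₀ (4 * r)) volume :=
    (((s.smooth n).continuousOn.mono h4).integrableOn_compact hK).mono_set ball_subset_closedBall
  have hc : ∀ (x : E N) (t c : ℝ), IntegrableOn (fun _ => c) (ball x t) volume := fun x t c =>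
    integrableOn_const measure_ball_lt_top.ne
  have eV : volume.real (ball z r) = V := by
    rw [hV, Measure.real, Measure.real, Measure.addHaar_ball_center, Measure.addHaar_ball_center _ z₀]
  have a1 := sub_mean (u := fun y => G n y + A * nsq y) (z := z) hr0 (by linarith : r < 2 * r)
    (fun y hy => (bpt5c_add (hG y (h2 hy)) A 0).1.contDiffWithinAt) fun y hy v => by
      rw [(bpt5c_add (hG y (h2 hy)) A v).2.1]
      linarith [s.low n y (h2 hy) v, mul_nonneg s.κ_pos.le (sq_nonneg ‖v ⬝ᵥ dr (G n) y‖)]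
  have a2 : ∫ y in ball z r, (G n y + A * nsq y) ≤ ∫ y in ball z r, (G n y + A * Q) := by
    refine setIntegral_mono_on ((hi.mono_set hS).add ?_) ((hi.mono_set hS).add (hc _ _ _))
      measurableSet_ball fun y hy => ?_
    · exact (((continuous_const.mul (nsq_smooth (M := N)).continuous).continuousOn.integrableOn_compact
        hK).mono_set (hS.trans ball_subset_closedBall))
    · exact add_le_add_right (mul_le_mul_of_nonneg_left
        ((le_abs_self _).trans (hQ y (ball_subset_closedBall (hS hy)))) hA.le) _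
  rw [integral_add (hi.mono_set hS) (hc _ _ _), setIntegral_const, eV, smul_eq_mul] at a2
  have a3 := hP (G n) z₀ _ _ (((s.smooth n).mono h4).of_le (by simp)) measurableSet_ball
    measurableSet_ball hS hT
  have a4 : ∫ y in ball z₁ ε, G n y ≤ T * M := by
    have := setIntegral_mono_on (hi.mono_set hT) (hc _ _ M) measurableSet_ball hn
    rwa [setIntegral_const, smul_eq_mul] at this
  have a5 := mul_le_mul_of_nonneg_left
    (s.l1 n _ (ball_subset_closedBall.trans h4) measurableSet_ball) hB.le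
  rw [eV] at a1 a3
  have a6 := mul_le_mul_of_nonneg_left (a1.trans a2) hTp.le
  have a7 := mul_le_mul_of_nonneg_left a4 hVp.le
  have a8 := mul_nonneg (mul_pos hTp hVp).le (mul_nonneg hA.le (bpt5c_nsq0 z))
  rw [← sub_le_iff_le_add', le_div_iff₀ (mul_pos hTp hVp)]
  rw [← hTd] at a3
  nlinarith

theorem PotD.pot (h : PotD z₀ R W ψ ξ Ω e a C)
    (h0 : ∀ z ∈ W, ∀ b c, dz b (fun w => ξ w c) z = dz c (fun w => ξ w b) z) :
    ∃ (r : ℝ) (G : E N → ℝ), 0 < r ∧ r ≤ R / 16 ∧ ContDiffOn ℝ ∞ G (W ∩ ball z₀ r) ∧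
      (∀ z ∈ W ∩ ball z₀ r, dr G z = ξ z) ∧ (∃ c, ∀ z ∈ W ∩ ball z₀ r, G z ≤ c) ∧
      ∀ k : ℝ, IntegrableOn (fun z => Real.exp (-(k * G z))) (W ∩ ball z₀ r) volume := by
  have hR := h.toPol.R_pos
  obtain ⟨r, hrR⟩ : ∃ r, R / 128 = 16 * r := ⟨R / 2048, by ring⟩
  have hr0 : 0 < r := by linarith
  have hP := h.toPol.mono (z := z₀) (r := 16 * r) (by linarith) (ball_subset_ball (by linarith))
  have e16 : 16 * r / 16 = r := by ring
  have hD : W ∩ ball z₀ r ⊆ W ∩ ball z₀ (16 * r) :=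
    inter_subset_inter_right _ (ball_subset_ball (by linarith))
  have hDo : IsOpen (W ∩ ball z₀ r) := h.isOpen.inter isOpen_ball
  obtain ⟨z₁, ⟨hz₁, -⟩, hz₂⟩ := hP.ne
  rw [e16] at hz₂
  obtain ⟨G, κ, A, L, s⟩ := bpt5c_seq h h0 (z₁ := z₁) (hrR ▸ hD ⟨hz₁, hz₂⟩)
  rw [hrR] at s
  have hloc : ∀ z ∈ W ∩ ball z₀ (16 * r), ∃ g : E N → ℝ, ContDiffAt ℝ ∞ g z ∧ dr g z = ξ z ∧
      ∀ᶠ y in 𝓝 z, Tendsto (fun n => G n y - G n z) atTop (𝓝 (g y)) := fun z hz => by
    obtain ⟨ε, g, hε, -, hg, hgd, hl⟩ := bpt5c_loc h h0 s hz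
    refine ⟨g, hg.contDiffAt (ball_mem_nhds _ (by linarith)), hgd z (mem_ball_self (by linarith)), ?_⟩
    filter_upwards [closedBall_mem_nhds z hε] with y hy
    refine Metric.tendsto_nhds.2 fun γ hγ => (hl _ (half_pos hγ)).mono fun n hn => ?_
    exact (hn y hy).trans_lt (half_lt_self hγ)
  have hlim : ∀ z ∈ W ∩ ball z₀ r, ∃ l, Tendsto (fun n => G n z) atTop (𝓝 l) := fun z hz => by
    have := hP.conn (u := fun z => ∃ l, Tendsto (fun n => G n z) atTop (𝓝 l)) (z := z) (y := z₁)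
      (fun x hx => ?_) ⟨hD hz, e16.symm ▸ hz.2⟩ ⟨hD ⟨hz₁, hz₂⟩, e16.symm ▸ hz₂⟩
    · rw [this]
      exact ⟨0, by simp only [s.zero, tendsto_const_nhds]⟩
    obtain ⟨g, -, -, hg⟩ := hloc x hx
    filter_upwards [hg] with y hy
    exact propext ⟨fun ⟨l, hl⟩ => ⟨_, by simpa using hl.sub hy⟩,
      fun ⟨l, hl⟩ => ⟨_, by simpa using hy.add hl⟩⟩
  choose! g hg using hlim
  have hge : ∀ z ∈ W ∩ ball z₀ r, ContDiffAt ℝ ∞ g z ∧ dr g z = ξ z := fun z hz => by
    obtain ⟨q, hq1, hq2, hq3⟩ := hloc z (hD hz)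
    have he : g =ᶠ[𝓝 z] fun y => q y + g z := by
      filter_upwards [hq3, hDo.mem_nhds hz] with y hy hy'
      exact tendsto_nhds_unique (hg y hy') (by simpa using hy.add (hg z hz))
    refine ⟨(hq1.add contDiffAt_const).congr_of_eventuallyEq he, ?_⟩
    rw [(dr_congr he).self_of_nhds, dr_add (hq1.differentiableAt (by simp))
      (differentiableAt_const _), dr_const, add_zero, hq2]
  have hgs : ContDiffOn ℝ ∞ g (W ∩ ball z₀ r) := fun z hz => (hge z hz).1.contDiffWithinAt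
  obtain ⟨c, hc⟩ : ∃ c, ∀ z ∈ W ∩ ball z₀ r, g z ≤ c := by
    obtain ⟨ε, q, hε, -, hq, -, hl⟩ := bpt5c_loc h h0 s (hD ⟨hz₁, hz₂⟩)
    obtain ⟨M, hM⟩ := (isCompact_closedBall z₁ ε).exists_bound_of_continuousOn
      (hq.continuousOn.mono (closedBall_subset_ball (by linarith)))
    have hb : ball z₁ (min ε r) ⊆ closedBall z₁ ε :=
      (ball_subset_ball (min_le_left _ _)).trans ball_subset_closedBall
    obtain ⟨c, hc⟩ := bpt5c_up s hr0 (lt_min hε hr0) (ball_subset_ball' (by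
      rw [mem_ball] at hz₂; linarith [min_le_right ε r])) (M := M + 1)
      ((hl 1 one_pos).mono fun n hn y hy => by
        have h1 := (abs_le.1 (hn y (hb hy))).2
        have h2 := (le_abs_self _).trans (hM y (hb hy))
        rw [s.zero n] at h1
        linarith)
    exact ⟨c, fun z hz => le_of_tendsto (hg z hz) (hc.mono fun n hn => hn z hz.2)⟩
  refine ⟨r, g, hr0, by linarith, hgs, fun z hz => (hge z hz).2, ⟨c, hc⟩, fun k => ?_⟩
  obtain ⟨δ, hδ, hB⟩ := bpt5c_lp s hr0 hz₂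
  obtain ⟨p, hp⟩ := exists_nat_ge (|k| / δ)
  obtain ⟨B, hB⟩ := hB p
  have hm : ∀ {u : E N → ℝ}, ContinuousOn u (W ∩ ball z₀ r) →
      AEStronglyMeasurable u (volume.restrict (W ∩ ball z₀ r)) := fun hu =>
    hu.aestronglyMeasurable hDo.measurableSet
  have hin : ∀ n, IntegrableOn (fun y => Real.exp (-(δ * G n y)) ^ p) (ball z₀ r) volume := fun n =>
    (((continuousOn_const.mul ((s.smooth n).continuousOn.mono (closedBall_subset_ball
      (by linarith)))).neg.rexp.pow p).integrableOn_compact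
        (isCompact_closedBall z₀ r)).mono_set ball_subset_closedBall
  have hi : IntegrableOn (fun y => Real.exp (-(δ * g y)) ^ p) (W ∩ ball z₀ r) volume := by
    refine memLp_one_iff_integrable.1 ⟨hm ((continuousOn_const.mul hgs.continuousOn).neg.rexp.pow p),
      (Lp.eLpNorm_le_of_ae_tendsto (u := atTop) (f := fun n y => Real.exp (-(δ * G n y)) ^ p)
        (C := ENNReal.ofReal B) (Eventually.of_forall fun n => ?_)
        (fun n => ((hin n).mono_set inter_subset_right).aestronglyMeasurable)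
        (ae_restrict_of_forall_mem hDo.measurableSet fun y hy => ?_)).trans_lt ENNReal.ofReal_lt_top⟩
    · refine (eLpNorm_mono_measure _ (Measure.restrict_mono inter_subset_right le_rfl)).trans ?_
      rw [eLpNorm_one_eq_lintegral_enorm, ← ofReal_integral_norm_eq_lintegral_enorm (hin n)]
      refine ENNReal.ofReal_le_ofReal (le_trans (le_of_eq ?_) (hB n))
      simp only [norm_pow, Real.norm_eq_abs, Real.abs_exp]
    · exact (((hg y hy).const_mul δ).neg.rexp).pow p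
  have h1 : IntegrableOn (fun _ => Real.exp (|k| * |c|)) (W ∩ ball z₀ r) volume :=
    (integrableOn_const measure_ball_lt_top.ne).mono_set inter_subset_right
  refine Integrable.mono' (h1.add hi) (hm (continuousOn_const.mul hgs.continuousOn).neg.rexp)
    (ae_restrict_of_forall_mem hDo.measurableSet fun y hy => ?_)
  rw [Real.norm_of_nonneg (Real.exp_pos _).le, Pi.add_apply, ← Real.exp_nat_mul]
  have h2 : -(k * g y) ≤ |k| * |g y| := (neg_le_abs _).trans (abs_mul _ _).le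
  rcases le_total 0 (g y) with h3 | h3
  · rw [abs_of_nonneg h3] at h2
    exact le_add_of_le_of_nonneg (Real.exp_le_exp.2 (h2.trans (mul_le_mul_of_nonneg_left
      ((hc y hy).trans (le_abs_self c)) (abs_nonneg k)))) (Real.exp_pos _).le
  · rw [abs_of_nonpos h3] at h2
    rw [div_le_iff₀ hδ] at hp
    refine le_add_of_nonneg_of_le (Real.exp_pos _).le (Real.exp_le_exp.2 ?_)
    nlinarith

end Pool.Agent.BP
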