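import Pool.Agent.P.MP_63735c_ag.BPC0
import Pool.Agent.P.MP_63735c_ag.BPT5c
import Pool.Agent.P.MP_63735c_ag.BPPolX

/-! Local potentials. -/

open scoped ComplexOrder ContDiff Matrix Topology ENNReal
open Set Metric MeasureTheory Filter

namespace Pool.Agent.BP

open Pool.Agent.SPF Pool.Agent.AB Pool.Agent.CK Pool.Agent.SE Pool.Agent.NL

variable {N : ℕ} {X : Type} [TopologicalSpace X] [T2Space X] [PreconnectedSpace X]
  [MeasurableSpace X] [BorelSpace X] {A : Atlas X N} {μ : Measure X} {W : Set X} {ψ : X → ℝ}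
  {ξ : A.ι → E N → E N} {Ω : A.ι → E N → Mat N} {a C : ℝ}

omit [T2Space X] [PreconnectedSpace X] in
/-- Integrability on the manifold from integrability in a relatively compact part of a chart. -/
theorem bpc5_int (hinj : ∀ i, InjOn (A.p i) (A.C i).W) (hμ : IsVolume A μ) {i : A.ι}
    {K S : Set (E N)} (hK : IsCompact K) (hKW : K ⊆ (A.C i).W) (hS : IsOpen S) (hSK : S ⊆ K)
    {f : X → ℝ} (hc : ContinuousOn (fun z => f (A.p i z)) S)
    (hf : IntegrableOn (fun z => f (A.p i z)) S volume) : IntegrableOn f (A.p i '' S) μ := by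
  let Ψ : A.ι → E N → ℝ := fun i z => -Real.log ‖((A.C i).σ z).det‖
  have hw : ∀ i, ∀ z ∈ (A.C i).W, wt (Ψ i) z = ‖((A.C i).σ z).det‖ := fun i z hz => by
    simp only [wt, Ψ, neg_neg]
    exact Real.exp_log (norm_pos_iff.2 ((A.C i).σ_det z hz))
  have hd : (man A hinj isOpen_univ).Den μ Ψ := by
    intro i S hS hm
    refine (hμ i S (hS.trans inter_subset_left) hm).trans
      (setLIntegral_congr_fun hm fun z hz => ?_)
    rw [hw i z (hS hz).1, ofReal_norm]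
  have hΨ : ContinuousOn (Ψ i) (A.C i).W :=
    ((det_cont (A.C i)).norm.log fun z hz => (norm_pos_iff.2 ((A.C i).σ_det z hz)).ne').neg
  have hs : S ⊆ (man A hinj isOpen_univ).W i := fun z hz => ⟨hKW (hSK hz), mem_univ _⟩
  refine (hd.intOn (i := i) (hΨ.mono inter_subset_left) hS.measurableSet hs f).2 ?_
  obtain ⟨B, hBd⟩ := hK.exists_bound_of_continuousOn ((det_cont (A.C i)).mono hKW)
  refine (hf.norm.const_mul B).mono' ?_ ?_
  · exact (((Man.abmeas_wt hΨ).mono fun z hz => (hs hz).1).smul hc).aestronglyMeasurable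
      hS.measurableSet
  · filter_upwards [ae_restrict_mem hS.measurableSet] with z hz
    rw [hw i z (hs hz).1, norm_smul, norm_norm]
    exact mul_le_mul_of_nonneg_right (hBd z (hSK hz)) (norm_nonneg _)

theorem UX.loc (h : UX A W ξ Ω a C) (hP : PolX A W ψ) (hinj : ∀ i, InjOn (A.p i) (A.C i).W)
    (hμ : IsVolume A μ) (x : X) : ∃ O G, x ∈ O ∧ LocP A μ W ξ O G := by
  obtain ⟨i, z₀, hz₀, rfl⟩ := A.cover x
  obtain ⟨R, hR, hB, h1⟩ := hP.loc hz₀ (hP.dense _)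
  obtain ⟨ψ', -, hp, -⟩ := h1 R hR le_rfl
  have hb : ball z₀ R ⊆ (A.C i).W := ball_subset_closedBall.trans hB
  have hD : PotD z₀ R (ball z₀ R ∩ A.p i ⁻¹' W) ψ' (ξ i) (Ω i) (A.C i).η a C :=
    { hp with
      a_pos := h.a_pos
      ξ_smooth := fun z hz => (h.smooth i z (hb hz.1) hz.2).contDiffWithinAt
      Ω_psd := fun z hz => h.psd i z (hb hz.1) hz.2
      e_smooth := fun b c => ((A.C i).η_smooth b c).mono hb
      e_herm := fun z hz => ((A.C i).η_psd z (hb hz)).1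
      eq := fun z hz => h.eq i z (hb hz.1) hz.2
      bd := fun z hz => h.bd i z (hb hz.1) hz.2 }
  obtain ⟨r, G₀, hr0, hrR, hs, hdr, ⟨c, hc⟩, hint⟩ :=
    hD.pot fun z hz => h.closed i z (hb hz.1) hz.2
  have hrb : ball z₀ r ⊆ ball z₀ R := ball_subset_ball (by linarith)
  have ho : IsOpen (ball z₀ R ∩ A.p i ⁻¹' W ∩ ball z₀ r) := hp.isOpen.inter isOpen_ball
  have hinv : ∀ z ∈ (A.C i).W, Function.invFunOn (A.p i) (A.C i).W (A.p i z) = z :=
    fun z hz => (hinj i).leftInvOn_invFunOn hz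
  have key : ∀ j, ∀ z ∈ (A.C j).W, A.p j z ∈ A.p i '' ball z₀ r ∩ W →
      ∃ O φ, IsChange (A.C j) (A.C i) O φ ∧ z ∈ O ∧ (∀ w ∈ O, A.p i (φ w) = A.p j w) ∧
        φ z ∈ ball z₀ R ∩ A.p i ⁻¹' W ∩ ball z₀ r ∧
        (fun w => G₀ (Function.invFunOn (A.p i) (A.C i).W (A.p j w))) =ᶠ[𝓝 z]
          fun w => G₀ (φ w) := by
    rintro j z hz ⟨⟨y, hy, e⟩, hW⟩
    obtain ⟨O, φ, hφ, hzO, rfl, h4⟩ := A.trans j i z hz y (hb (hrb hy)) e.symm
    refine ⟨O, φ, hφ, hzO, h4, ⟨⟨hrb hy, by rw [mem_preimage, e]; exact hW⟩, hy⟩, ?_⟩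
    filter_upwards [hφ.isOpen.mem_nhds hzO] with w hw
    rw [← h4 w hw, hinv _ (hφ.maps hw)]
  refine ⟨A.p i '' ball z₀ r, fun y => G₀ (Function.invFunOn (A.p i) (A.C i).W y),
    ⟨z₀, mem_ball_self hr0, rfl⟩, A.opn i _ isOpen_ball (hrb.trans hb), fun j z hz hy => ?_,
    fun j z hz hy => ?_, ⟨c, ?_⟩, fun k => ?_⟩
  · obtain ⟨O, φ, hφ, hzO, -, h5, h6⟩ := key j z hz hy
    exact ((hs.contDiffAt (ho.mem_nhds h5)).comp z
      ((smooth_of_hol hφ.isOpen hφ.hol).contDiffAt (hφ.isOpen.mem_nhds hzO))).congr_of_eventuallyEq h6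
  · obtain ⟨O, φ, hφ, hzO, h4, h5, h6⟩ := key j z hz hy
    rw [(dr_congr h6).self_of_nhds, dr_comp ((hs.contDiffAt (ho.mem_nhds h5)).differentiableAt
      (by simp)) (hφ.hol.differentiableAt (hφ.isOpen.mem_nhds hzO)), hdr _ h5,
      h.cov j i O φ hφ h4 z hzO hy.2]
  · rintro _ ⟨⟨y, hy, rfl⟩, hW⟩
    rw [hinv y (hb (hrb hy))]
    exact hc y ⟨⟨hrb hy, hW⟩, hy⟩
  · have he : EqOn (fun z => Real.exp (-(k * G₀ z)))
        (fun z => Real.exp (-(k * G₀ (Function.invFunOn (A.p i) (A.C i).W (A.p i z)))))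
        (ball z₀ R ∩ A.p i ⁻¹' W ∩ ball z₀ r) := fun z hz => by
      simp only [hinv z (hb hz.1.1)]
    refine (bpc5_int hinj hμ (isCompact_closedBall z₀ R) hB ho
      (fun z hz => ball_subset_closedBall hz.1.1)
      (f := fun y => Real.exp (-(k * G₀ (Function.invFunOn (A.p i) (A.C i).W y))))
      (((continuousOn_const.mul hs.continuousOn).neg.rexp).congr he.symm)
      ((hint k).congr_fun he ho.measurableSet)).mono_set ?_
    rintro _ ⟨⟨y, hy, rfl⟩, hW⟩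
    exact ⟨y, ⟨⟨hrb hy, hW⟩, hy⟩, rfl⟩

end Pool.Agent.BP
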