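import Pool.Agent.P.MP_63735c_ag.BPC5
import Pool.Agent.P.MP_63735c_ag.BPC6

/-! The global potential. -/

open scoped ComplexOrder ContDiff Matrix Topology ENNReal
open Set Metric MeasureTheory Filter

namespace Pool.Agent.BP

open Pool.Agent.SPF Pool.Agent.AB Pool.Agent.CK Pool.Agent.SE Pool.Agent.NL

variable {N : ℕ} {X : Type} [TopologicalSpace X] [MeasurableSpace X] {A : Atlas X N}
  {μ : Measure X} {W : Set X} {ψ : X → ℝ} {ξ : A.ι → E N → E N} {Ω : A.ι → E N → Mat N} {a C : ℝ}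

omit [MeasurableSpace X] in
theorem bpc7_nhds {i : A.ι} {z : E N} (hz : z ∈ (A.C i).W) :
    map (A.p i) (𝓝 z) = 𝓝 (A.p i z) := by
  refine le_antisymm ((A.cont i).continuousAt ((A.C i).isOpen.mem_nhds hz)) fun s hs => ?_
  obtain ⟨O, hO, ho, hzO⟩ := _root_.mem_nhds_iff.1
    (inter_mem (mem_map.1 hs) ((A.C i).isOpen.mem_nhds hz))
  refine mem_of_superset ((A.opn i O ho fun w hw => (hO hw).2).mem_nhds ⟨z, hzO, rfl⟩) ?_
  rintro _ ⟨w, hw, rfl⟩
  exact (hO hw).1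

omit [MeasurableSpace X] in
theorem bpc7_ev {i : A.ι} {z : E N} (hz : z ∈ (A.C i).W) {U : Set X} (hU : IsOpen U)
    (hx : A.p i z ∈ U) : ∀ᶠ w in 𝓝 z, w ∈ (A.C i).W ∧ A.p i w ∈ U :=
  ((A.cont i).isOpen_inter_preimage (A.C i).isOpen hU).mem_nhds ⟨hz, hx⟩

theorem LocP.lc {O O' : Set X} {G G' : X → ℝ} (hW : IsOpen W) (h : LocP A μ W ξ O G)
    (h' : LocP A μ W ξ O' G') {x : X} (hx : x ∈ O ∩ O' ∩ W) :
    ∀ᶠ y in 𝓝 x, G y - G' y = G x - G' x := by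
  obtain ⟨i, z, hz, rfl⟩ := A.cover x
  obtain ⟨r, hr, hB⟩ := Metric.eventually_nhds_iff_ball.1
    (bpc7_ev hz ((h.isOpen.inter h'.isOpen).inter hW) hx)
  have d1 : ∀ w ∈ ball z r, DifferentiableAt ℝ (fun t => G (A.p i t)) w := fun w hw =>
    (h.smooth i w (hB w hw).1 ⟨(hB w hw).2.1.1, (hB w hw).2.2⟩).differentiableAt (by simp)
  have d2 : ∀ w ∈ ball z r, DifferentiableAt ℝ (fun t => G' (A.p i t)) w := fun w hw =>
    (h'.smooth i w (hB w hw).1 ⟨(hB w hw).2.1.2, (hB w hw).2.2⟩).differentiableAt (by simp)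
  rw [← bpc7_nhds hz, eventually_map]
  filter_upwards [ball_mem_nhds z hr] with w hw
  refine isOpen_ball.is_const_of_fderiv_eq_zero (𝕜 := ℝ)
    (f := fun t => G (A.p i t) - G' (A.p i t)) (convex_ball z r).isPreconnected
    (fun t ht => ((d1 t ht).fun_sub (d2 t ht)).differentiableWithinAt) (fun t ht => ?_) hw
    (mem_ball_self hr)
  refine ContinuousLinearMap.ext fun v => ?_
  rw [fderiv_fun_sub (d1 t ht) (d2 t ht), sub_apply, fderiv_dr (d1 t ht), fderiv_dr (d2 t ht),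
    h.dr_eq i t (hB t ht).1 ⟨(hB t ht).2.1.1, (hB t ht).2.2⟩,
    h'.dr_eq i t (hB t ht).1 ⟨(hB t ht).2.1.2, (hB t ht).2.2⟩, sub_self]
  rfl

theorem LocP.shift [BorelSpace X] {O O' : Set X} {G G' : X → ℝ} (hW : IsOpen W)
    (h : LocP A μ W ξ O G) (hO : IsOpen O') (hs : O' ⊆ O) {c : ℝ}
    (he : ∀ y ∈ O' ∩ W, G' y = G y - c) : LocP A μ W ξ O' G' := by
  have ev : ∀ i, ∀ z ∈ (A.C i).W, A.p i z ∈ O' ∩ W →
      (fun w => G' (A.p i w)) =ᶠ[𝓝 z] fun w => G (A.p i w) + -c := fun i z hz hx => by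
    filter_upwards [bpc7_ev hz (hO.inter hW) hx] with w hw
    rw [he _ hw.2, sub_eq_add_neg]
  obtain ⟨b, hb⟩ := h.bd
  refine ⟨hO, fun i z hz hx => ((h.smooth i z hz ⟨hs hx.1, hx.2⟩).add
    contDiffAt_const).congr_of_eventuallyEq (ev i z hz hx), fun i z hz hx => ?_,
    ⟨b - c, fun y hy => ?_⟩, fun k => ?_⟩
  · rw [(dr_congr (ev i z hz hx)).self_of_nhds, dr_add ((h.smooth i z hz
      ⟨hs hx.1, hx.2⟩).differentiableAt (by simp)) (differentiableAt_const _), dr_const, add_zero,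
      h.dr_eq i z hz ⟨hs hx.1, hx.2⟩]
  · rw [he y hy]
    exact sub_le_sub_right (hb y ⟨hs hy.1, hy.2⟩) c
  · refine IntegrableOn.congr_fun (Integrable.const_mul
      ((h.int k).mono_set (inter_subset_inter_left W hs)) (Real.exp (k * c))) (fun y hy => ?_)
      (hO.inter hW).measurableSet
    simp only [he y hy, ← Real.exp_add]
    congr 1
    ring

theorem LocP.of_loc [CompactSpace X] {G : X → ℝ}
    (h : ∀ x, ∃ O, x ∈ O ∧ LocP A μ W ξ O G) : LocP A μ W ξ univ G := by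
  choose O hx hL using h
  obtain ⟨t, -, ht⟩ := isCompact_univ.elim_nhds_subcover O fun x _ => (hL x).isOpen.mem_nhds (hx x)
  choose c hc using fun x => (hL x).bd
  obtain ⟨b, hb⟩ := (t.finite_toSet.image c).bddAbove
  refine ⟨isOpen_univ, fun i z hz hy => (hL _).smooth i z hz ⟨hx _, hy.2⟩,
    fun i z hz hy => (hL _).dr_eq i z hz ⟨hx _, hy.2⟩, ⟨b, fun y hy => ?_⟩, fun k => ?_⟩
  · obtain ⟨x, h1, h2⟩ := mem_iUnion₂.1 (ht hy.1)
    exact (hc x y ⟨h2, hy.2⟩).trans (hb ⟨x, h1, rfl⟩)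
  · refine ((integrableOn_finset_iUnion (s := t) (t := fun x => O x ∩ W)).2
      fun x _ => (hL x).int k).mono_set fun y hy => ?_
    obtain ⟨x, h1, h2⟩ := mem_iUnion₂.1 (ht hy.1)
    exact mem_iUnion₂.2 ⟨x, h1, h2, hy.2⟩

theorem UX.pot [T2Space X] [CompactSpace X] [PreconnectedSpace X] [BorelSpace X]
    (h : UX A W ξ Ω a C) (hP : PolX A W ψ) (hinj : ∀ i, InjOn (A.p i) (A.C i).W)
    (hμ : IsVolume A μ) (h1 : H1 A) : ∃ G, LocP A μ W ξ univ G ∧ ∀ y ∈ W, G y ≤ 0 := by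
  choose O G hx hL using h.loc hP hinj hμ
  choose c hc hc' using fun x y => hP.ext_lc ((hL x).isOpen.inter (hL y).isOpen)
    (u := fun t => G x t - G y t) fun t ht => (hL x).lc hP.isOpen (hL y) ht
  obtain ⟨r, hr, hr'⟩ := h1.lc (c := c) (fun x => (hL x).isOpen) (fun x => ⟨x, hx x⟩) hc (by
    intro x y u t ht
    obtain ⟨s, hs, e1, e2, e3, e4⟩ := ((mem_closure_iff_frequently.1 (hP.dense t)).and_eventually
      ((hc x y t ht.1).and ((hc y u t ⟨ht.1.2, ht.2⟩).and ((hc x u t ⟨ht.1.1, ht.2⟩).and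
        ((((hL x).isOpen.inter (hL y).isOpen).inter (hL u).isOpen).mem_nhds ht))))).exists
    rw [← e1, ← e2, ← e3, hc' x y s ⟨e4.1, hs⟩, hc' y u s ⟨⟨e4.1.2, e4.2⟩, hs⟩,
      hc' x u s ⟨⟨e4.1.1, e4.2⟩, hs⟩]
    ring)
  have hG : LocP A μ W ξ univ fun y => G y y - r y y := by
    refine LocP.of_loc fun x => ?_
    obtain ⟨O', h2, h3, h4⟩ := _root_.eventually_nhds_iff.1
      ((hr x x (hx x)).and ((hL x).isOpen.mem_nhds (hx x)))
    refine ⟨O', h4, (hL x).shift hP.isOpen h3 (fun y hy => (h2 y hy).2) (c := r x x)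
      fun y hy => ?_⟩
    have e1 := hr' x y y ⟨(h2 y hy.1).2, hx y⟩
    have e2 := hc' x y y ⟨⟨(h2 y hy.1).2, hx y⟩, hy.2⟩
    rw [← (h2 y hy.1).1]
    linarith
  obtain ⟨b, hb⟩ := hG.bd
  exact ⟨fun y => G y y - r y y - b, hG.shift hP.isOpen isOpen_univ Subset.rfl fun _ _ => rfl,
    fun y hy => sub_nonpos.2 (hb y ⟨trivial, hy⟩)⟩

theorem UX.lev (h : UX A W ξ Ω a C) (hW : IsOpen W) {G : X → ℝ} (hG : LocP A μ W ξ univ G)
    {i : A.ι} {z : E N} (hz : z ∈ (A.C i).W) (hx : A.p i z ∈ W) (v : E N) :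
    hr ((A.C i).η z) v + hr (lev (fun w => G (A.p i w)) z) v = a * hr (Ω i z) v := by
  have e : (A.C i).η z + AB.lev (fun w => G (A.p i w)) z = (a : ℂ) • Ω i z := by
    ext b c
    have e1 : dz b (fun w => (G (A.p i w) : ℂ)) =ᶠ[𝓝 z] fun w => ξ i w b := by
      filter_upwards [bpc7_ev hz hW hx] with w hw
      exact congrFun (hG.dr_eq i w hw.1 ⟨trivial, hw.2⟩) b
    rw [Matrix.add_apply, lev_apply, (ablev_comm (ablev_re (hG.smooth i z hz ⟨trivial, hx⟩)) b c).1,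
      (dzb_congr e1 c).self_of_nhds, h.eq i z hz hx, Matrix.smul_apply, smul_eq_mul]
    ring
  rw [hr, hr, hr, ← Complex.add_re, ← hq_add, e, hq_smul, Complex.re_ofReal_mul]

end Pool.Agent.BP
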