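import Pool.Agent.P.MP_63735c_ag.BPC4
import Pool.Agent.P.MP_63735c_ag.BPC7
import Pool.Agent.P.MP_63735c_ag.BPE0

/-! The output of part C. -/

open scoped ComplexOrder ContDiff Matrix Topology ENNReal
open Set Metric MeasureTheory Filter

namespace Pool.Agent.BP

open Pool.Agent.SPF Pool.Agent.AB Pool.Agent.CK Pool.Agent.SE Pool.Agent.NL

variable {N n : ℕ} {X : Type} [TopologicalSpace X] [MeasurableSpace X] {A : Atlas X N}
  {μ : Measure X} {K : Form11 A} {L : Line A}

theorem Kit.exists_up [T2Space X] [CompactSpace X] [PreconnectedSpace X] [BorelSpace X]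
    (hμ : IsVolume A μ) (h1 : H1 A) {S : Sys K L n} {Y : Type} [TopologicalSpace Y] [T2Space Y]
    [MeasurableSpace Y] [BorelSpace Y] (T : Kit S μ Y) {ξ : Y → E n} {a C : ℝ}
    (h : T.D.Xi ξ a (S.m : ℝ)⁻¹ C) : ∃ U : Up A μ L, U.W = S.W ∧ U.φ = S.φ ∧ U.m = S.m ∧
      U.s = S.s₀ ∧ ∀ i, ∀ z ∈ (A.C i).W, A.p i z ∈ S.W → ∀ v,
        U.th i z v = a * hr (T.Om i z) v := by
  have hu := T.ux h
  obtain ⟨G, hG, h0⟩ := hu.pot T.pol S.inj hμ h1
  obtain ⟨M, hM, hψ⟩ := T.pol.psh
  have hl := fun i z hz hx v => hu.lev (i := i) (z := z) T.W_open hG hz hx v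
  refine ⟨{ hinj := S.inj
            m := S.m
            s := S.s₀
            W := S.W
            hW := T.W_open
            φ := S.φ
            ψ := fun x => T.ψ (T.f x)
            G := G
            M := M
            m_pos := S.m_pos
            sec := S.sec
            null := T.pol.null hμ
            φ_eq := fun i z hz hx => S.φ_eq i z hz hx.1
            M_nonneg := hM
            ψ_smo := fun i z hz => (T.pol.smooth i z hz.1 hz.2).contDiffWithinAt
            ψ_le := T.pol.le
            ψ_lev := hψ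
            ψ_cpt := fun c => by simpa using T.pol.cpt (-c)
            G_smo := fun i z hz => (hG.smooth i z hz.1 ⟨trivial, hz.2⟩).contDiffWithinAt
            G_le := h0
            G_lev := fun i z hz hx v => (mul_nonneg hu.a_pos.le
              (hq_nonneg (hu.psd i z hz hx) v)).trans_eq (hl i z hz hx v).symm
            G_int := fun k => univ_inter S.W ▸ hG.int k }, rfl, rfl, rfl, rfl, hl⟩

end Pool.Agent.BP
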