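import Pool.Agent.P.MP_63735c_ag.BPT6c

/-! The canonical trace along a proper holomorphic map. -/

open scoped ComplexOrder ContDiff Matrix Topology ENNReal
open Set Metric MeasureTheory Filter

namespace Pool.Agent.BP

open Pool.Agent.SPF Pool.Agent.AB

variable {N : ℕ} {Ω Ω' : Set (E N)} {P : E N → E N}

/-- The trace of `h`. -/
noncomputable def tr (Ω : Set (E N)) (P : E N → E N) (h : E N → ℂ) (w : E N) : ℂ :=
  limUnder (𝓝[RV Ω univ P] w) (fsum Ω P h)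

theorem tr_congr {Ω₂ O : Set (E N)} {w : E N} (hO : O ∈ 𝓝 w)
    (he : Ω ∩ P ⁻¹' O = Ω₂ ∩ P ⁻¹' O) (h : E N → ℂ) : tr Ω P h w = tr Ω₂ P h w := by
  have h0 : ∀ y ∈ O, ∀ z, P z = y → (z ∈ Ω ↔ z ∈ Ω₂) := fun y hy z e =>
    ⟨fun hz => (he.subset ⟨hz, show P z ∈ O from e ▸ hy⟩).1,
      fun hz => (he.symm.subset ⟨hz, show P z ∈ O from e ▸ hy⟩).1⟩
  have h1 : 𝓝[RV Ω univ P] w = 𝓝[RV Ω₂ univ P] w := by
    refine nhdsWithin_eq_iff_eventuallyEq.2 (eventuallyEq_set.2 ?_)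
    filter_upwards [hO] with y hy
    exact and_congr_right fun _ => ⟨fun H z hz e => H z ((h0 y hy z e).2 hz) e,
      fun H z hz e => H z ((h0 y hy z e).1 hz) e⟩
  have h2 : fsum Ω P h =ᶠ[𝓝[RV Ω₂ univ P] w] fsum Ω₂ P h := by
    filter_upwards [mem_nhdsWithin_of_mem_nhds hO] with y hy
    have : Ω ∩ P ⁻¹' {y} = Ω₂ ∩ P ⁻¹' {y} :=
      Set.ext fun z => and_congr_left fun e => h0 y hy z e
    rw [fsum, fsum, this]
  rw [tr, tr, h1, limUnder, limUnder, map_congr h2]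

theorem bptr_nhds (hP : Prp Ω Ω' P) {w : E N} (hw : w ∈ Ω') :
    𝓝[RV Ω univ P] w = 𝓝[RV Ω Ω' P] w := by
  refine nhdsWithin_eq_iff_eventuallyEq.2 (eventuallyEq_set.2 ?_)
  filter_upwards [hP.isOpen'.mem_nhds hw] with y hy
  exact and_congr_left fun _ => ⟨fun _ => hy, fun _ => trivial⟩

theorem bptr_main (hP : Prp Ω Ω' P) {h : E N → ℂ} (hh : DifferentiableOn ℂ h Ω) :
    DifferentiableOn ℂ (tr Ω P h) Ω' ∧ EqOn (tr Ω P h) (fsum Ω P h) (RV Ω Ω' P) := by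
  obtain ⟨t, ht, he⟩ := hP.trace hh
  have h1 : EqOn (tr Ω P h) t Ω' := fun w hw => by
    have := mem_closure_iff_nhdsWithin_neBot.1 (hP.rv_dense hw)
    rw [tr, bptr_nhds hP hw]
    refine Tendsto.limUnder_eq (Tendsto.congr' (eventuallyEq_of_mem self_mem_nhdsWithin he) ?_)
    exact (ht.continuousOn.continuousAt (hP.isOpen'.mem_nhds hw)).continuousWithinAt
  exact ⟨ht.congr h1, fun w hw => (h1 hw.1).trans (he hw)⟩

theorem tr_hol (hP : Prp Ω Ω' P) {h : E N → ℂ} (hh : DifferentiableOn ℂ h Ω) :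
    DifferentiableOn ℂ (tr Ω P h) Ω' := (bptr_main hP hh).1

theorem bptr_sep (z : E N) (T : Finset (E N)) (hz : z ∉ T) :
    ∃ h : E N → ℂ, Differentiable ℂ h ∧ h z = 1 ∧ ∀ q ∈ T, h q = 0 := by
  classical
  induction T using Finset.induction_on with
  | empty => exact ⟨fun _ => 1, differentiable_const _, rfl, by simp⟩
  | insert q T _ ih =>
    rw [Finset.mem_insert, not_or] at hz
    obtain ⟨h, h1, h2, h3⟩ := ih hz.2
    obtain ⟨a, ha⟩ := Function.ne_iff.1 hz.1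
    refine ⟨fun x => (x a - q a) / (z a - q a) * h x, by fun_prop, ?_, fun x hx => ?_⟩
    · simp only [h2, div_self (sub_ne_zero.2 ha), mul_one]
    · rcases Finset.mem_insert.1 hx with rfl | hx
      · simp
      · simp [h3 x hx]

theorem bptr_lim (hP : Prp Ω Ω' P) {w : E N} (hw : w ∈ Ω') :
    ∃ (d : ℕ) (q : E N → Fin d → E N),
      (∀ᶠ x in 𝓝[RV Ω Ω' P] w, Ω ∩ P ⁻¹' {x} = range (q x)) ∧
      ∀ U : Ultrafilter (E N), ↑U ≤ 𝓝[RV Ω Ω' P] w → ∃ y, Tendsto q U (𝓝 y) ∧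
        (∀ i, y i ∈ Ω ∧ P (y i) = w) ∧
        ∀ h : E N → ℂ, DifferentiableOn ℂ h Ω → tr Ω P h w = ∑ i, h (y i) := by
  obtain ⟨d, hd, hc⟩ := hP.degree
  have h1 : ∀ x, x ∈ RV Ω Ω' P ∧ d x = d w → ∃ q : Fin (d w) → E N, Function.Injective q ∧
      Ω ∩ P ⁻¹' {x} = range q := by
    intro x hx
    obtain ⟨d', O, q, -, hxO, -, -, hq⟩ := hP.sheets hx.1
    have e : d' = d w := by
      rw [← hx.2, ← (hc x hx.1).2, (hq x hxO).2, ncard_range_of_injective (hq x hxO).1]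
      simp
    subst e
    exact ⟨_, hq x hxO⟩
  choose! q hq using h1
  have h2 : ∀ᶠ x in 𝓝[RV Ω Ω' P] w, x ∈ RV Ω Ω' P ∧ d x = d w :=
    eventually_mem_nhdsWithin.and (mem_nhdsWithin_of_mem_nhds (hd w hw))
  refine ⟨d w, q, h2.mono fun x hx => (hq x hx).2, fun U hU => ?_⟩
  obtain ⟨r, hr, hb⟩ := nhds_basis_closedBall.mem_iff.1 (hP.isOpen'.mem_nhds hw)
  have hK := hP.proper _ (isCompact_closedBall w r) hb
  have h3 : ∀ᶠ x in (U : Filter (E N)), ∀ i, q x i ∈ Ω ∩ P ⁻¹' {x} :=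
    (h2.filter_mono hU).mono fun x hx i => (hq x hx).2.symm.subset (mem_range_self i)
  have hw' : Tendsto id (U : Filter (E N)) (𝓝 w) := hU.trans nhdsWithin_le_nhds
  obtain ⟨y, hy, hl⟩ := (isCompact_univ_pi fun _ : Fin (d w) => hK).ultrafilter_le_nhds (U.map q)
    (by
      rw [Ultrafilter.coe_map, le_principal_iff, mem_map]
      filter_upwards [h3, hw' (closedBall_mem_nhds w hr)] with x h4 h5 i _
      refine ⟨(h4 i).1, ?_⟩
      have e : P (q x i) = x := (h4 i).2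
      rw [mem_preimage, e]
      exact h5)
  have hl' : Tendsto q U (𝓝 y) := hl
  have hi : ∀ i, Tendsto (fun x => q x i) U (𝓝 (y i)) := tendsto_pi_nhds.1 hl'
  have hm : ∀ i, Ω ∈ 𝓝 (y i) := fun i => hP.isOpen.mem_nhds (hy i trivial).1
  refine ⟨y, hl', fun i => ⟨(hy i trivial).1, ?_⟩, fun h hh => ?_⟩
  · exact tendsto_nhds_unique (((hP.hol.continuousOn.continuousAt (hm i)).tendsto.comp
      (hi i)).congr' (h3.mono fun x hx => (hx i).2)) hw'
  · have h4 := bptr_main hP hh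
    refine tendsto_nhds_unique (f := tr Ω P h) (l := (U : Filter (E N)))
      ((h4.1.continuousOn.continuousAt (hP.isOpen'.mem_nhds hw)).tendsto.comp hw') ?_
    refine (tendsto_finsetSum _ fun i _ =>
      (hh.continuousOn.continuousAt (hm i)).tendsto.comp (hi i)).congr' ?_
    filter_upwards [hU h2] with x hx
    rw [h4.2 hx.1, bpt6c_sum (hq x hx).1 (hq x hx).2]
    rfl

theorem tr_fam (hP : Prp Ω Ω' P) (hN : 1 ≤ N) {w : E N} (hw : w ∈ Ω') :
    ∃ (d : ℕ) (y : Fin d → E N), (∀ i, y i ∈ Ω ∧ P (y i) = w) ∧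
      (∀ z ∈ Ω, P z = w → ∃ i, y i = z) ∧
      ∀ h : E N → ℂ, DifferentiableOn ℂ h Ω → tr Ω P h w = ∑ i, h (y i) := by
  classical
  obtain ⟨d, q, hq, hl⟩ := bptr_lim hP hw
  have := mem_closure_iff_nhdsWithin_neBot.1 (hP.rv_dense hw)
  obtain ⟨y, -, hy, hs⟩ := hl (Ultrafilter.of _) (Ultrafilter.of_le _)
  refine ⟨d, y, hy, fun z hz e => ?_, hs⟩
  have h1 := mem_closure_iff_nhdsWithin_neBot.1
    (hP.rv_pull hN isOpen_univ (by simp) hz)
  set F := 𝓝[{z | z ∈ Ω ∧ P z ∈ RV Ω Ω' P ∩ univ}] z with hF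
  set V := Ultrafilter.of F
  have hV : (V : Filter (E N)) ≤ F := Ultrafilter.of_le _
  have hz' : Tendsto id (V : Filter (E N)) (𝓝 z) := hV.trans nhdsWithin_le_nhds
  have hm : ∀ᶠ x in (V : Filter (E N)), x ∈ Ω ∧ P x ∈ RV Ω Ω' P ∩ univ := hV self_mem_nhdsWithin
  have hle : Tendsto P V (𝓝[RV Ω Ω' P] w) := tendsto_nhdsWithin_iff.2
    ⟨e ▸ (hP.hol.continuousOn.continuousAt (hP.isOpen.mem_nhds hz)).tendsto.comp hz',
      hm.mono fun x hx => hx.2.1⟩
  obtain ⟨y', hy1, -, hs'⟩ := hl (V.map P) hle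
  have h2 : ∀ᶠ x in (V : Filter (E N)), ∃ i ∈ (univ : Set (Fin d)), q (P x) i = x := by
    filter_upwards [hm, hle.eventually hq] with x h3 h4
    obtain ⟨i, hi⟩ := h4.subset ⟨h3.1, rfl⟩
    exact ⟨i, trivial, hi⟩
  obtain ⟨j, -, hj⟩ := (Ultrafilter.eventually_exists_mem_iff finite_univ).1 h2
  have h3 : y' j = z := tendsto_nhds_unique
    (Tendsto.congr' hj (tendsto_map'_iff.1 (tendsto_pi_nhds.1 hy1 j))) hz'
  by_contra hc
  obtain ⟨h, h4, h5, h6⟩ := bptr_sep z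
    ((Finset.univ.image y ∪ Finset.univ.image y').erase z) (Finset.notMem_erase _ _)
  have h7 : ∑ i, h (y' i) = 0 := by
    rw [← hs' h h4.differentiableOn, hs h h4.differentiableOn]
    exact Finset.sum_eq_zero fun i _ => h6 _ (by simpa using fun e' => hc ⟨i, e'⟩)
  have h8 := (Finset.sum_eq_zero_iff_of_nonneg fun i _ => ?_).1 h7 j (Finset.mem_univ j)
  · rw [h3, h5] at h8
    exact one_ne_zero h8
  · by_cases e' : y' i = z
    · rw [e', h5]
      exact zero_le_one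
    · exact (h6 _ (by simpa using e')).ge

theorem bptr_area (hP : Prp Ω Ω' P) {S : Set (E N)} (hS : MeasurableSet S) (hs : S ⊆ Ω')
    {u : E N → ℝ≥0∞} (hu : Measurable u) :
    ∫⁻ w in S, fsum Ω P u w ≤ ∫⁻ z in Ω ∩ P ⁻¹' S, ‖(jac P z).det‖ₑ ^ 2 * u z := by
  have hm := bpt6b_pre hP hS
  calc ∫⁻ w in S, fsum Ω P u w = ∫⁻ w in S, fsum Ω P ((Ω ∩ P ⁻¹' S).indicator u) w := by
        refine setLIntegral_congr_fun hS fun w hw => finsum_mem_congr rfl fun z hz => ?_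
        have e : P z = w := hz.2
        rw [indicator_of_mem (show z ∈ Ω ∩ P ⁻¹' S from ⟨hz.1, show P z ∈ S from e ▸ hw⟩)]
    _ ≤ ∫⁻ w in Ω', fsum Ω P ((Ω ∩ P ⁻¹' S).indicator u) w := lintegral_mono_set hs
    _ = _ := by
        rw [hP.area (hu.indicator hm), ← lintegral_indicator hm,
          ← lintegral_indicator hP.isOpen.measurableSet]
        refine lintegral_congr fun z => ?_
        by_cases hz : z ∈ Ω ∩ P ⁻¹' S
        · rw [indicator_of_mem hz.1, indicator_of_mem hz, indicator_of_mem hz,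
            ENNReal.ofReal_pow (norm_nonneg _), ofReal_norm, mul_comm]
        · rw [indicator_of_notMem hz, indicator_apply_eq_zero]
          exact fun _ => by rw [indicator_of_notMem hz, zero_mul]

theorem bptr_fib (hP : Prp Ω Ω' P) {w : E N} (hw : w ∈ RV Ω Ω' P) {d : ℕ}
    (hd : tr Ω P (fun _ => 1) w = d) :
    ∃ q : Fin d → E N, Function.Injective q ∧ Ω ∩ P ⁻¹' {w} = range q := by
  obtain ⟨d', O, q, -, hO, -, -, hq⟩ := hP.sheets hw
  rw [(bptr_main hP (differentiableOn_const _)).2 hw, bpt6c_sum (hq w hO).1 (hq w hO).2] at hd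
  obtain rfl : d' = d := by simpa using hd
  exact ⟨_, hq w hO⟩

theorem tr_deg (hP : Prp Ω Ω' P) {S : Set (E N)} (hS : MeasurableSet S) (hs : S ⊆ Ω') {d : ℕ}
    (hd : ∀ w ∈ S, tr Ω P (fun _ => 1) w = d) :
    d * volume S ≤ ∫⁻ z in Ω ∩ P ⁻¹' S, ‖(jac P z).det‖ₑ ^ 2 := by
  have h1 := bptr_area hP hS hs (u := fun _ => 1) measurable_const
  simp only [mul_one] at h1
  rw [← setLIntegral_const]
  refine le_trans (lintegral_mono_ae ((bpt6b_ae hP hS hs).mono fun w hw => ?_)) h1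
  obtain ⟨q, h2, h3⟩ := bptr_fib hP hw.1 (hd w hw.2)
  rw [bpt6c_sum h2 h3]
  simp

theorem bptr_cs {d : ℕ} (a : Fin d → ℂ) : ‖∑ i, a i‖ₑ ^ 2 ≤ d * ∑ i, ‖a i‖ₑ ^ 2 := by
  have h1 : ‖∑ i, a i‖₊ ^ 2 ≤ d * ∑ i, ‖a i‖₊ ^ 2 :=
    (pow_le_pow_left' (nnnorm_sum_le _ _) 2).trans (by
      simpa using sq_sum_le_card_mul_sum_sq (s := Finset.univ) (f := fun i => ‖a i‖₊))
  simp only [enorm_eq_nnnorm]
  exact_mod_cast h1

theorem bptr_det {A : E N → Mat N} (hA : ∀ a b, Measurable fun z => A z a b) :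
    Measurable fun z => (A z).det := by
  simp only [Matrix.det_apply']
  exact Finset.measurable_fun_sum _ fun σ _ => measurable_const.mul
    (Finset.measurable_fun_prod _ fun i _ => hA _ _)

theorem bptr_meas (P : E N → E N) (h : E N → ℂ) (u : E N) :
    Measurable fun z => fderiv ℂ h z ((jac P z)⁻¹ *ᵥ u) := by
  have h1 : ∀ a b, Measurable fun z => jac P z a b := fun a b =>
    (measurable_pi_apply a).comp (measurable_fderiv_apply_const ℂ P _)
  have h2 := bptr_det h1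
  have h3 : ∀ a, Measurable fun z => ((jac P z).adjugate *ᵥ u) a := fun a => by
    simp only [Matrix.mulVec, dotProduct, Matrix.adjugate_apply]
    refine Finset.measurable_fun_sum _ fun b _ => Measurable.mul_const (bptr_det fun c e => ?_) _
    simp only [Matrix.updateRow_apply]
    split_ifs
    · exact measurable_const
    · exact h1 c e
  have h4 : ∀ z, fderiv ℂ h z ((jac P z)⁻¹ *ᵥ u) = (jac P z).det⁻¹ *
      ∑ a, ((jac P z).adjugate *ᵥ u) a * fderiv ℂ h z (Pi.single a 1) := fun z => by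
    rw [Matrix.inv_def, Matrix.smul_mulVec, map_smul, Ring.inverse_eq_inv', smul_eq_mul]
    congr 1
    conv_lhs => rw [← Finset.univ_sum_single ((jac P z).adjugate *ᵥ u), map_sum]
    refine Finset.sum_congr rfl fun a _ => ?_
    rw [← smul_eq_mul, ← map_smul, ← Pi.single_smul, smul_eq_mul, mul_one]
  simp only [h4]
  exact h2.inv.mul (Finset.measurable_fun_sum _ fun a _ =>
    (h3 a).mul (measurable_fderiv_apply_const ℂ h _))

theorem tr_grad (hP : Prp Ω Ω' P) {S : Set (E N)} (hS : MeasurableSet S) (hs : S ⊆ Ω') {d : ℕ}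
    (hd : ∀ w ∈ S, tr Ω P (fun _ => 1) w = d) {h : E N → ℂ} (hh : DifferentiableOn ℂ h Ω)
    (u : E N) : ∫⁻ w in S, ‖fderiv ℂ (tr Ω P h) w u‖ₑ ^ 2 ≤
      d * ∫⁻ z in Ω ∩ P ⁻¹' S,
        ‖(jac P z).det‖ₑ ^ 2 * ‖fderiv ℂ h z ((jac P z)⁻¹ *ᵥ u)‖ₑ ^ 2 := by
  refine le_trans ?_ (mul_le_mul_right
    (bptr_area hP hS hs ((bptr_meas P h u).enorm.pow_const 2)) _)
  rw [← lintegral_const_mul' _ _ (ENNReal.natCast_ne_top d)]
  refine lintegral_mono_ae ((bpt6b_ae hP hS hs).mono fun w hw => ?_)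
  obtain ⟨q, h2, h3⟩ := bptr_fib hP hw.1 (hd w hw.2)
  rw [hP.trace_deriv hh (bptr_main hP hh).2 hw.1, bpt6c_sum h2 h3, bpt6c_sum h2 h3]
  exact bptr_cs _

end Pool.Agent.BP
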