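import Pool.Agent.P.MP_63735c_ag.BPD2
import Pool.Agent.P.MP_63735c_ag.BPTr
import Pool.Agent.P.MP_63735c_ag.CLHol

/-! Traces on a scale. -/

open scoped ComplexOrder ContDiff Matrix Topology ENNReal
open Set Metric MeasureTheory Filter

namespace Pool.Agent.BP

open Pool.Agent.SPF Pool.Agent.AB Pool.Agent.CK Pool.Agent.SE Pool.Agent.NL

variable {N n : ℕ} {X : Type} [TopologicalSpace X] {A : Atlas X N} {F : Fib A n}

namespace Fib

/-- The part of the box over the tube `j`. -/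
def So (F : Fib A n) (e : Sc A n) (M : Set X) (j : F.J) : Set (E N) :=
  e.box ∩ A.p e.i ⁻¹' (F.U j ∩ M)

/-- The target. -/
def Ta (F : Fib A n) (e : Sc A n) (M : Set X) (j : F.J) : Set (E N) :=
  e.l ⁻¹' ((F.g '' (F.U j ∩ M)) ×ˢ ball e.a (2 * e.ρ))

open Classical in
/-- The trace. -/
noncomputable def Tr (F : Fib A n) (e : Sc A n) (M : Set X) (h : E N → ℂ) (x : X) (a : E n) : ℂ :=
  if hx : ∃ j, x ∈ F.U j then tr (F.So e M hx.choose) (F.Pm e.i e.l) h (e.l.symm (F.g x, a)) else 0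

/-- The degree. -/
noncomputable def deg (F : Fib A n) (e : Sc A n) (M : Set X) (x : X) : ℕ :=
  ⌊(F.Tr e M (fun _ => 1) x e.a).re⌋₊

variable {e : Sc A n} {M : Set X} {j : F.J} {x : X} {a : E n} {h : E N → ℂ}

theorem so_sub : F.So e M j ⊆ dom A F.W e.i := by
  intro z hz
  obtain ⟨-, h2, -, -, -, h6, -⟩ := e.cbox_cpt
  exact ⟨h2 (h6 hz.1), F.U_sub j hz.2.1⟩

theorem bpd3a_l_pm (i : A.ι) (l : E N ≃L[ℂ] E n × E n) (z : E N) :
    l (F.Pm i l z) = (F.g (A.p i z), (l z).1) := l.apply_symm_apply _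

theorem bpd3a_pm_hol {i : A.ι} {l : E N ≃L[ℂ] E n × E n} :
    DifferentiableOn ℂ (F.Pm i l) (dom A F.W i) :=
  l.symm.differentiable.comp_differentiableOn
    ((F.g_hol i).prodMk l.differentiable.fst.differentiableOn)

theorem bpd3a_ta_open (hM : F.Sat M) (j : F.J) : IsOpen (F.Ta e M j) :=
  ((F.g_open ((F.U_open j).inter hM.opn) fun _ hy => F.U_sub j hy.1).prod isOpen_ball).preimage
    e.l.continuous

theorem bpd3a_mem_ta (hx : x ∈ F.U j ∩ M) (ha : a ∈ ball e.a (2 * e.ρ)) :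
    e.l.symm (F.g x, a) ∈ F.Ta e M j := by
  rw [Ta, mem_preimage, e.l.apply_symm_apply]
  exact ⟨⟨x, hx, rfl⟩, ha⟩

theorem bpd3a_sub (j j' : F.J) :
    F.So e M j ∩ F.Pm e.i e.l ⁻¹' (e.l ⁻¹' ((F.g '' (F.U j ∩ F.U j' ∩ M)) ×ˢ univ)) ⊆
      F.So e M j' := by
  rintro z ⟨hz, ht⟩
  rw [mem_preimage, mem_preimage, bpd3a_l_pm] at ht
  obtain ⟨y, hy, he⟩ := ht.1
  have hr := (F.rel j y hy.1.1 _).2 ⟨hz.2.1, he.symm⟩
  exact ⟨hz.1, ((F.rel j' y hy.1.2 _).1 hr).1, hz.2.2⟩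

theorem prp [T2Space X] (hM : F.Sat M) (hd : Disjoint M (A.p e.i '' e.shell)) (j : F.J) :
    Prp (F.So e M j) (F.Ta e M j) (F.Pm e.i e.l) := by
  obtain ⟨h1, h2, -, -, h5, h6, -⟩ := e.cbox_cpt
  have hUM : IsOpen (F.U j ∩ M) := (F.U_open j).inter hM.opn
  refine ⟨((A.cont e.i).mono (h6.trans h2)).isOpen_inter_preimage h5 hUM, bpd3a_ta_open hM j,
    bpd3a_pm_hol.mono so_sub, fun z hz => ?_, fun C hC hs => ?_⟩
  · rw [Ta, mem_preimage, bpd3a_l_pm]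
    exact ⟨⟨_, hz.2, rfl⟩, hz.1.1⟩
  · have hC1 : IsCompact ((fun w => (e.l w).1) '' C) :=
      hC.image (continuous_fst.comp e.l.continuous)
    have hs1 : (fun w => (e.l w).1) '' C ⊆ F.g '' (F.U j ∩ M) := by
      rintro _ ⟨w, hw, rfl⟩
      exact (hs hw).1
    have hK := F.prop j _ hC1 (hs1.trans (by
      rintro _ ⟨y, hy, rfl⟩
      exact F.maps j hy.1))
    have hKM : F.U j ∩ F.g ⁻¹' ((fun w => (e.l w).1) '' C) ⊆ M := by
      intro y hy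
      obtain ⟨y', hy', he⟩ := hs1 hy.2
      exact hM.sat y' hy'.2 y ((F.rel j y' hy'.1 y).2 ⟨hy.1, he.symm⟩)
    have hD := ((A.cont e.i).mono h2).preimage_isClosed_of_isClosed h1.isClosed hK.isClosed
    have hDs : e.cbox ∩ A.p e.i ⁻¹' (F.U j ∩ F.g ⁻¹' ((fun w => (e.l w).1) '' C)) ⊆
        dom A F.W e.i := fun z hz => ⟨h2 hz.1, F.U_sub j hz.2.1⟩
    have hE := ((bpd3a_pm_hol (F := F) (l := e.l)).continuousOn.mono
      hDs).preimage_isClosed_of_isClosed hD hC.isClosed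
    have hc := h1.of_isClosed_subset hE fun z hz => hz.1.1
    refine (congrArg IsCompact (Set.Subset.antisymm ?_ ?_)).mp hc
    · rintro z ⟨⟨hz1, hz2⟩, hz3⟩
      have hm : A.p e.i z ∈ M := hKM hz2
      have ht := hs hz3
      rw [Ta, mem_preimage, bpd3a_l_pm] at ht
      refine ⟨⟨⟨ht.2, ?_⟩, hz2.1, hm⟩, hz3⟩
      by_contra hn
      refine Set.disjoint_left.1 hd hm ⟨z, ⟨hz1.1, hz1.2, fun hb => hn ?_⟩, rfl⟩
      exact ball_subset_ball e.lt.le hb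
    · rintro z ⟨hz, hz3⟩
      refine ⟨⟨h6 hz.1, hz.2.1, _, hz3, ?_⟩, hz3⟩
      show (e.l (F.Pm e.i e.l z)).1 = _
      rw [bpd3a_l_pm]

theorem Tr_eq (hM : F.Sat M) (hx : x ∈ F.U j ∩ M) (h : E N → ℂ) (a : E n) :
    F.Tr e M h x a = tr (F.So e M j) (F.Pm e.i e.l) h (e.l.symm (F.g x, a)) := by
  have hx' : ∃ j, x ∈ F.U j := ⟨j, hx.1⟩
  have hj := hx'.choose_spec
  rw [Tr, dif_pos hx']
  refine tr_congr (O := e.l ⁻¹' ((F.g '' (F.U j ∩ F.U hx'.choose ∩ M)) ×ˢ univ)) ?_ ?_ h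
  · refine IsOpen.mem_nhds (IsOpen.preimage e.l.continuous (IsOpen.prod (F.g_open
      (((F.U_open j).inter (F.U_open _)).inter hM.opn) fun _ hy => F.U_sub j hy.1.1)
        isOpen_univ)) ?_
    rw [mem_preimage, e.l.apply_symm_apply]
    exact ⟨⟨x, ⟨⟨hx.1, hj⟩, hx.2⟩, rfl⟩, trivial⟩
  · refine Set.Subset.antisymm (fun z hz => ⟨?_, hz.2⟩) fun z hz => ⟨bpd3a_sub j _ hz, hz.2⟩
    rw [inter_comm (F.U j)] at hz
    exact bpd3a_sub _ j hz

variable [T2Space X]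

omit [T2Space X] in
theorem bpd3a_nat {Ω Ω' : Set (E N)} {P : E N → E N} (hP : Prp Ω Ω' P) (hN : 1 ≤ N) {w : E N}
    (hw : w ∈ Ω') : ∃ d : ℕ, tr Ω P (fun _ => 1) w = d := by
  obtain ⟨d, y, -, -, h3⟩ := tr_fam hP hN hw
  exact ⟨d, by rw [h3 _ (differentiableOn_const _)]; simp⟩

omit [T2Space X] in
theorem bpd3a_lc {Ω Ω' : Set (E N)} {P : E N → E N} (hP : Prp Ω Ω' P) (hN : 1 ≤ N) {w : E N}
    (hw : w ∈ Ω') : ∀ᶠ w' in 𝓝 w, tr Ω P (fun _ => 1) w' = tr Ω P (fun _ => 1) w := by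
  have hn := hP.isOpen'.mem_nhds hw
  have hc := ((tr_hol hP (differentiableOn_const (1 : ℂ))).continuousOn.continuousAt hn).eventually
    (ball_mem_nhds _ one_pos)
  obtain ⟨d, hd⟩ := bpd3a_nat hP hN hw
  filter_upwards [hn, hc] with w' h1 h2
  obtain ⟨d', hd'⟩ := bpd3a_nat hP hN h1
  rw [hd, hd'] at h2 ⊢
  have h3 : dist (d' : ℂ) (d : ℂ) < 1 := h2
  have h4 : ((d' : ℂ) - d) = (((d' : ℝ) - d : ℝ) : ℂ) := by push_cast; rfl
  rw [dist_eq_norm, h4, Complex.norm_real, Real.norm_eq_abs, abs_lt] at h3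
  have h5 : d < d' + 1 := by exact_mod_cast (by linarith [h3.1] : (d : ℝ) < d' + 1)
  have h6 : d' < d + 1 := by exact_mod_cast (by linarith [h3.2] : (d' : ℝ) < d + 1)
  rw [show d' = d by omega]

theorem deg_eq (hN : 1 ≤ N) (hM : F.Sat M) (hd : Disjoint M (A.p e.i '' e.shell)) (hx : x ∈ M)
    (ha : a ∈ ball e.a (2 * e.ρ)) : F.Tr e M (fun _ => 1) x a = F.deg e M x := by
  obtain ⟨j, hj⟩ := F.cov x (hM.sub hx)
  have hxj : x ∈ F.U j ∩ M := ⟨hj, hx⟩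
  have h0 : e.a ∈ ball e.a (2 * e.ρ) := mem_ball_self (by linarith [e.ρ_pos])
  have hc : ContinuousOn (fun b => ⌊(tr (F.So e M j) (F.Pm e.i e.l) (fun _ => 1)
      (e.l.symm (F.g x, b))).re⌋₊) (ball e.a (2 * e.ρ)) := by
    intro b hb
    have h1 : ContinuousAt (fun b => e.l.symm (F.g x, b)) b :=
      (e.l.symm.continuous.comp (continuous_const.prodMk continuous_id)).continuousAt
    have h2 := h1.eventually (bpd3a_lc (prp hM hd j) hN (bpd3a_mem_ta hxj hb))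
    refine ContinuousAt.continuousWithinAt (tendsto_const_nhds.congr' ?_)
    filter_upwards [h2] with c hc
    rw [hc]
  have hk := (convex_ball e.a (2 * e.ρ)).isPreconnected.constant hc ha h0
  obtain ⟨d, hd'⟩ := bpd3a_nat (prp hM hd j) hN (bpd3a_mem_ta hxj ha)
  rw [deg, Tr_eq hM hxj, Tr_eq hM hxj, ← hk, hd']
  simp

theorem deg_lc (hN : 1 ≤ N) (hM : F.Sat M) (hd : Disjoint M (A.p e.i '' e.shell)) (hx : x ∈ M) :
    ∀ᶠ y in 𝓝 x, F.deg e M y = F.deg e M x := by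
  obtain ⟨j, hj⟩ := F.cov x (hM.sub hx)
  have hxj : x ∈ F.U j ∩ M := ⟨hj, hx⟩
  have h0 : e.a ∈ ball e.a (2 * e.ρ) := mem_ball_self (by linarith [e.ρ_pos])
  have h1 : ContinuousAt (fun y => e.l.symm (F.g y, e.a)) x :=
    e.l.symm.continuous.continuousAt.comp
      ((F.g_cont.continuousAt (F.W_open.mem_nhds (hM.sub hx))).prodMk continuousAt_const)
  filter_upwards [h1.eventually (bpd3a_lc (prp hM hd j) hN (bpd3a_mem_ta hxj h0)),
    ((F.U_open j).inter hM.opn).mem_nhds hxj] with y h2 h3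
  rw [deg, deg, Tr_eq hM hxj, Tr_eq hM h3, h2]

theorem deg_inv (hM : F.Sat M) (hx : x ∈ M) {y : X} (hy : F.r x y) :
    F.deg e M y = F.deg e M x := by
  obtain ⟨j, hj⟩ := F.cov x (hM.sub hx)
  obtain ⟨h1, h2⟩ := (F.rel j x hj y).1 hy
  rw [deg, deg, Tr_eq hM ⟨hj, hx⟩, Tr_eq hM ⟨h1, hM.sat x hx y hy⟩, h2]

theorem Tr_fam (hN : 1 ≤ N) (hM : F.Sat M) (hd : Disjoint M (A.p e.i '' e.shell)) (hx : x ∈ M)
    (ha : a ∈ ball e.a (2 * e.ρ)) : ∃ y : Fin (F.deg e M x) → E N,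
    (∀ k, y k ∈ e.box ∧ F.r x (A.p e.i (y k)) ∧ (e.l (y k)).1 = a) ∧
    (∀ z ∈ e.box, F.r x (A.p e.i z) → (e.l z).1 = a → ∃ k, y k = z) ∧
    ∀ h, DifferentiableOn ℂ h (dom A F.W e.i) → F.Tr e M h x a = ∑ k, h (y k) := by
  obtain ⟨j, hj⟩ := F.cov x (hM.sub hx)
  have hxj : x ∈ F.U j ∩ M := ⟨hj, hx⟩
  obtain ⟨d, y, h1, h2, h3⟩ := tr_fam (prp hM hd j) hN (bpd3a_mem_ta hxj ha)
  have h4 := deg_eq hN hM hd hx ha
  rw [Tr_eq hM hxj, h3 _ (differentiableOn_const _)] at h4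
  have h5 : d = F.deg e M x := by simpa using h4
  subst h5
  refine ⟨y, fun k => ?_, fun z hz hr hl => h2 z ?_ ?_, fun h hh => ?_⟩
  · have h6 := e.l.symm.injective (h1 k).2
    exact ⟨(h1 k).1.1, (F.rel j x hj _).2 ⟨(h1 k).1.2.1, congrArg Prod.fst h6⟩,
      congrArg Prod.snd h6⟩
  · exact ⟨hz, ((F.rel j x hj _).1 hr).1, hM.sat x hx _ hr⟩
  · rw [Pm, ((F.rel j x hj _).1 hr).2, hl]
  · rw [Tr_eq hM hxj, h3 h (hh.mono so_sub)]

theorem Tr_hol_a (hM : F.Sat M) (hd : Disjoint M (A.p e.i '' e.shell))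
    (hh : DifferentiableOn ℂ h (dom A F.W e.i)) (hx : x ∈ M) :
    DifferentiableOn ℂ (F.Tr e M h x) (ball e.a (2 * e.ρ)) := by
  obtain ⟨j, hj⟩ := F.cov x (hM.sub hx)
  have hxj : x ∈ F.U j ∩ M := ⟨hj, hx⟩
  have h1 : DifferentiableOn ℂ (fun b => e.l.symm (F.g x, b)) (ball e.a (2 * e.ρ)) :=
    (e.l.symm.differentiable.comp
      ((differentiable_const _).prodMk differentiable_id)).differentiableOn
  exact ((tr_hol (prp hM hd j) (hh.mono so_sub)).comp h1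
    fun b hb => bpd3a_mem_ta hxj hb).congr fun b _ => Tr_eq hM hxj h b

theorem Tr_loc (hM : F.Sat M) (hd : Disjoint M (A.p e.i '' e.shell))
    (hh : DifferentiableOn ℂ h (dom A F.W e.i)) (ha : a ∈ ball e.a (2 * e.ρ)) {i : A.ι} {z : E N}
    (hz : z ∈ dom A (F.U j ∩ M) i) : DifferentiableAt ℂ (fun y => F.Tr e M h (A.p i y) a) z ∧
      ∀ v, fderiv ℂ (fun y => F.Tr e M h (A.p i y) a) z v =
        fderiv ℂ (tr (F.So e M j) (F.Pm e.i e.l) h) (e.l.symm (F.g (A.p i z), a))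
          (e.l.symm (Jg A F.g i z *ᵥ v, 0)) := by
  have hn := (A.C i).isOpen.mem_nhds hz.1
  have hp : ContinuousAt (A.p i) z := (A.cont i).continuousAt hn
  have he : (fun y => F.Tr e M h (A.p i y) a) =ᶠ[𝓝 z] fun y =>
      tr (F.So e M j) (F.Pm e.i e.l) h (e.l.symm (F.g (A.p i y), a)) := by
    filter_upwards [hp.eventually (((F.U_open j).inter hM.opn).mem_nhds hz.2)] with y hy
    exact Tr_eq hM hy h a
  have hg : DifferentiableAt ℂ (fun y => F.g (A.p i y)) z :=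
    (F.g_hol i).differentiableAt (((A.cont i).isOpen_inter_preimage (A.C i).isOpen
      F.W_open).mem_nhds ⟨hz.1, F.U_sub j hz.2.1⟩)
  have ht := ((tr_hol (prp hM hd j) (hh.mono so_sub)).differentiableAt
    ((bpd3a_ta_open hM j).mem_nhds (bpd3a_mem_ta hz.2 ha))).hasFDerivAt
  have h1 := e.l.symm.hasFDerivAt.comp z (hg.hasFDerivAt.prodMk (hasFDerivAt_const a z))
  have h2 := (ht.comp z h1).congr_of_eventuallyEq he
  refine ⟨h2.differentiableAt, fun v => ?_⟩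
  rw [h2.fderiv, Jg, jac_mulVec]
  rfl

end Fib

end Pool.Agent.BP
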