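import Pool.Agent.P.MP_63735c_ag.BPD3a
import Pool.Agent.P.MP_63735c_ag.ABX0
import Pool.Agent.P.MP_63735c_ag.ABAlg

/-! Bounds for degree and gradient of the traces. -/

open scoped ComplexOrder ContDiff Matrix Topology ENNReal
open Set Metric MeasureTheory Filter

namespace Pool.Agent.BP

open Pool.Agent.SPF Pool.Agent.AB Pool.Agent.CK Pool.Agent.SE Pool.Agent.NL

variable {N n : ℕ} {X : Type} [TopologicalSpace X] [T2Space X] {A : Atlas X N} {F : Fib A n}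
  {e : Sc A n} {M : Set X}

theorem lint_equiv (l : E N ≃L[ℂ] E n × E n) : ∃ c : ℝ≥0∞, c ≠ 0 ∧ c ≠ ⊤ ∧
    ∀ (S : Set (E n × E n)) (u : E N → ℝ≥0∞),
      ∫⁻ q in S, u (l.symm q) = c * ∫⁻ w in l ⁻¹' S, u w := by
  have hemb : MeasurableEmbedding l.symm := l.symm.toHomeomorph.measurableEmbedding
  have : (volume : Measure (E n × E n)).IsAddHaarMeasure :=
    Measure.prod.instIsAddHaarMeasure (volume : Measure (E n)) (volume : Measure (E n))
  have hv := Measure.isAddLeftInvariant_eq_smul (Measure.map l.symm volume)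
    (volume : Measure (E N))
  have hp := Measure.addHaarScalarFactor_pos_of_isAddHaarMeasure (Measure.map l.symm volume)
    (volume : Measure (E N))
  generalize Measure.addHaarScalarFactor (Measure.map l.symm volume) (volume : Measure (E N)) = c
    at hv hp
  refine ⟨c, ENNReal.coe_ne_zero.2 hp.ne', ENNReal.coe_ne_top, fun S u => ?_⟩
  have h1 : ∫⁻ w in l ⁻¹' S, u w ∂Measure.map l.symm volume = ∫⁻ q in S, u (l.symm q) := by
    rw [hemb.restrict_map, hemb.lintegral_map, ← preimage_comp]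
    simp
  rw [← h1, hv, Measure.restrict_smul, lintegral_smul_measure]
  rfl

theorem bpd3b_loc (hN : 1 ≤ N) (hM : F.Sat M) (hd : Disjoint M (A.p e.i '' e.shell)) {j : F.J}
    {x : X} (hx : x ∈ F.U j ∩ M) : ∀ᶠ b in 𝓝 (F.g x), b ∈ F.g '' (F.U j ∩ M) ∧ b ∈ F.T j ∧
      ∀ a ∈ ball e.a (2 * e.ρ),
        tr (F.So e M j) (F.Pm e.i e.l) (fun _ => 1) (e.l.symm (b, a)) = F.deg e M x := by
  rw [← Fib.g_map (hM.sub hx.2), eventually_map]
  filter_upwards [((F.U_open j).inter hM.opn).mem_nhds hx, Fib.deg_lc hN hM hd hx.2] with y h1 h2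
  refine ⟨mem_image_of_mem _ h1, F.maps j h1.1, fun a ha => ?_⟩
  rw [← Fib.Tr_eq hM h1, Fib.deg_eq hN hM hd h1.2 ha, h2]

omit [T2Space X] in
theorem bpd3b_sub (j : F.J) (O Bl : Set (E n)) :
    F.So e M j ∩ F.Pm e.i e.l ⁻¹' (e.l ⁻¹' (O ×ˢ Bl)) ⊆
      e.cbox ∩ A.p e.i ⁻¹' (F.U j ∩ F.g ⁻¹' O) := by
  rintro z ⟨h1, h2⟩
  refine ⟨e.cbox_cpt.2.2.2.2.2.1 h1.1, h1.2.1, ?_⟩
  simp only [mem_preimage, Fib.Pm, ContinuousLinearEquiv.apply_symm_apply, mem_prod] at h2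
  exact h2.1

theorem bpd3b_meas (l : E N ≃L[ℂ] E n × E n) (b a : E n) (r s : ℝ) :
    MeasurableSet (l ⁻¹' (ball b r ×ˢ ball a s)) :=
  ((isOpen_ball.prod isOpen_ball).preimage l.continuous).measurableSet

theorem Fib.deg_bdd (hN : 1 ≤ N) (hA : F.Area) (hM : F.Sat M)
    (hd : Disjoint M (A.p e.i '' e.shell)) : ∃ B, ∀ x ∈ M, F.deg e M x ≤ B := by
  obtain ⟨c, -, hc, hl⟩ := lint_equiv e.l
  obtain ⟨B, -, hB⟩ := hA e.i e.l e.cbox e.cbox_cpt.1 e.cbox_cpt.2.1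
  have hV : volume (ball e.a (2 * e.ρ)) ≠ 0 :=
    (measure_ball_pos _ _ (by linarith [e.ρ_pos])).ne'
  obtain ⟨k, hk⟩ := ENNReal.exists_nat_gt
    (ENNReal.div_ne_top (ENNReal.mul_ne_top hc (ENNReal.ofReal_ne_top (r := B))) hV)
  refine ⟨k, fun x hx => ?_⟩
  obtain ⟨j, hj⟩ := F.cov x (hM.sub hx)
  obtain ⟨η, hη, hO⟩ := Metric.eventually_nhds_iff_ball.1 (bpd3b_loc hN hM hd ⟨hj, hx⟩)
  have h1 := tr_deg (Fib.prp hM hd j) (bpd3b_meas e.l (F.g x) e.a η (2 * e.ρ))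
    (fun w hw => ⟨(hO _ hw.1).1, hw.2⟩) (d := F.deg e M x) fun w hw => by
      simpa using (hO _ hw.1).2.2 _ hw.2
  have h2 := (h1.trans (lintegral_mono_set (bpd3b_sub j _ _))).trans
    (hB j _ (fun b hb => (hO b hb).2.1) measurableSet_ball).1
  have h3 := hl (ball (F.g x) η ×ˢ ball e.a (2 * e.ρ)) fun _ => 1
  rw [setLIntegral_one, setLIntegral_one, Measure.volume_eq_prod, Measure.prod_prod] at h3
  have h4 : F.deg e M x * volume (ball e.a (2 * e.ρ)) * volume (ball (F.g x) η) ≤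
      c * ENNReal.ofReal B * volume (ball (F.g x) η) := by
    rw [mul_assoc, mul_comm (volume _), h3, mul_left_comm, mul_assoc]
    exact mul_le_mul_right h2 c
  rw [ENNReal.mul_le_mul_iff_left (measure_ball_pos _ _ hη).ne' measure_ball_lt_top.ne,
    ← ENNReal.le_div_iff_mul_le (Or.inl hV) (Or.inl measure_ball_lt_top.ne)] at h4
  exact_mod_cast (h4.trans_lt hk).le

theorem bpd3b_mv {Φ : E n × E n → ℂ} {b a : E n} {r s : ℝ} (hs : 0 < s)
    (hm : Measurable Φ) (hΦ : DifferentiableOn ℂ Φ (ball b r ×ˢ ball a s)) :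
    ENNReal.ofReal (‖Φ (b, a)‖ ^ 2) * volume (ball a s) * volume (ball b r) ≤
      ∫⁻ q in ball b r ×ˢ ball a s, ‖Φ q‖ₑ ^ 2 := by
  have he : ∀ z : ℂ, ‖z‖ₑ ^ 2 = ENNReal.ofReal (‖z‖ ^ 2) := fun z => by
    rw [ENNReal.ofReal_pow (norm_nonneg _), ofReal_norm]
  have h1 := CL.mv_sq (h := fun β => Φ (β, a)) (z := b) (r := r)
    (hΦ.comp (by fun_prop) fun β hβ => ⟨hβ, mem_ball_self hs⟩)
  rw [Measure.volume_eq_prod, ← Measure.prod_restrict,
    lintegral_prod _ (hm.enorm.pow_const 2).aemeasurable, mul_right_comm]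
  refine (mul_le_mul_left h1 _).trans ?_
  rw [← lintegral_mul_const' _ _ measure_ball_lt_top.ne]
  refine setLIntegral_mono' measurableSet_ball fun β hβ => ?_
  simp only [he]
  exact CL.mv_sq (h := fun α => Φ (β, α)) (hΦ.comp (by fun_prop) fun α hα => ⟨hβ, hα⟩)

theorem Fib.Tr_grad (hN : 1 ≤ N) (hA : F.Area) (hM : F.Sat M)
    (hd : Disjoint M (A.p e.i '' e.shell)) {h : E N → ℂ} (hh : Differentiable ℂ h) :
    ∃ B : ℝ, ∀ j, ∀ x ∈ F.U j ∩ M, ∀ a ∈ ball e.a e.ρ, ∀ v,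
      ‖fderiv ℂ (tr (F.So e M j) (F.Pm e.i e.l) h) (e.l.symm (F.g x, a)) (e.l.symm (v, 0))‖ ^ 2 ≤
        B * hr (F.om x) v := by
  obtain ⟨c, -, hc, hl⟩ := lint_equiv e.l
  obtain ⟨B, -, hB⟩ := hA e.i e.l e.cbox e.cbox_cpt.1 e.cbox_cpt.2.1
  obtain ⟨D, hD⟩ := Fib.deg_bdd hN hA hM hd
  obtain ⟨H, hH⟩ := e.cbox_cpt.1.exists_bound_of_continuousOn
    ((CL.hol_smooth isOpen_univ hh.differentiableOn).2.2.continuousOn.mono (subset_univ _))
  have hV : volume (ball (0 : E n) e.ρ) ≠ 0 := (measure_ball_pos _ _ e.ρ_pos).ne'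
  set Q : ℝ≥0∞ := c * D * ENNReal.ofReal H ^ 2 * ENNReal.ofReal B with hQ
  have hQ' : Q / volume (ball (0 : E n) e.ρ) ≠ ⊤ :=
    ENNReal.div_ne_top (ENNReal.mul_ne_top (ENNReal.mul_ne_top (ENNReal.mul_ne_top hc
      (ENNReal.natCast_ne_top D)) (ENNReal.pow_ne_top ENNReal.ofReal_ne_top))
      ENNReal.ofReal_ne_top) hV
  refine ⟨(Q / volume (ball (0 : E n) e.ρ)).toReal, fun j x hx a ha v => ?_⟩
  have hP := Fib.prp hM hd j
  have h0 := F.om_psd x (hM.sub hx.2) v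
  have hba : ball a e.ρ ⊆ ball e.a (2 * e.ρ) := ball_subset_ball' (by
    rw [mem_ball] at ha
    linarith)
  set T := tr (F.So e M j) (F.Pm e.i e.l) h with hT
  set u := e.l.symm (v, 0) with hu
  have key : ∀ ε > 0, ‖fderiv ℂ T (e.l.symm (F.g x, a)) u‖ ^ 2 ≤
      (Q / volume (ball (0 : E n) e.ρ)).toReal * (hr (F.om x) v + ε) := by
    intro ε hε
    have hco : ContinuousAt (fun b => hr (F.o j b) v) (F.g x) :=
      Complex.continuous_re.continuousAt.comp ((hq_contOn (F.o_cont j) continuousOn_const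
        continuousOn_const).continuousAt ((F.T_open j).mem_nhds (F.maps j hx.1)))
    have hev : ∀ᶠ b in 𝓝 (F.g x), hr (F.o j b) v < hr (F.om x) v + ε :=
      hco.eventually_lt continuousAt_const (by rw [F.o_eq j x hx.1]; linarith)
    obtain ⟨η, hη, hO⟩ := Metric.eventually_nhds_iff_ball.1 ((bpd3b_loc hN hM hd hx).and hev)
    have hs : e.l ⁻¹' (ball (F.g x) η ×ˢ ball a e.ρ) ⊆ F.Ta e M j :=
      fun w hw => ⟨(hO _ hw.1).1.1, hba hw.2⟩
    have h1 := bpd3b_mv (Φ := fun q => fderiv ℂ T (e.l.symm q) u) (b := F.g x) (a := a) (r := η) e.ρ_pos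
      ((measurable_fderiv_apply_const ℂ T u).comp e.l.symm.continuous.measurable)
      (((CL.hol_smooth hP.isOpen' (tr_hol hP hh.differentiableOn)).2.2.clm_apply
        (differentiableOn_const u)).comp e.l.symm.differentiableOn fun q hq => hs (by simpa using hq))
    rw [hl _ fun w => ‖fderiv ℂ T w u‖ₑ ^ 2, Measure.addHaar_ball_center] at h1
    have h2 := tr_grad hP (bpd3b_meas e.l (F.g x) a η e.ρ) hs (d := F.deg e M x)
      (fun w hw => by simpa using (hO _ hw.1).1.2.2 _ (hba hw.2)) hh.differentiableOn u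
    have h3 : ∫⁻ z in F.So e M j ∩ F.Pm e.i e.l ⁻¹' (e.l ⁻¹' (ball (F.g x) η ×ˢ ball a e.ρ)),
        ‖(jac (F.Pm e.i e.l) z).det‖ₑ ^ 2 * ‖fderiv ℂ h z ((jac (F.Pm e.i e.l) z)⁻¹ *ᵥ u)‖ₑ ^ 2 ≤
        ENNReal.ofReal H ^ 2 * (ENNReal.ofReal B *
          (ENNReal.ofReal (hr (F.om x) v + ε) * volume (ball (F.g x) η))) := by
      refine (lintegral_mono_set (bpd3b_sub j _ _)).trans (le_trans ?_ (mul_le_mul_right
        (((hB j _ (fun b hb => (hO b hb).1.2.1) measurableSet_ball).2 v).trans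
          (mul_le_mul_right ?_ _)) _))
      · rw [← lintegral_const_mul' _ _ (ENNReal.pow_ne_top ENNReal.ofReal_ne_top)]
        refine lintegral_mono_ae (ae_restrict_of_ae_restrict_of_subset inter_subset_left
          ((ae_restrict_iff' e.cbox_cpt.1.measurableSet).2 (Eventually.of_forall fun z hz => ?_)))
        rw [mul_left_comm, ← mul_pow (ENNReal.ofReal H)]
        refine mul_le_mul_right (pow_le_pow_left' ?_ 2) _
        refine ((fderiv ℂ h z).le_opENorm _).trans (mul_le_mul_left ?_ _)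
        rw [← ofReal_norm]
        exact ENNReal.ofReal_le_ofReal (hH z hz)
      · rw [← setLIntegral_const]
        exact setLIntegral_mono' measurableSet_ball fun b hb =>
          ENNReal.ofReal_le_ofReal (hO b hb).2.le
    have h4 : ENNReal.ofReal (‖fderiv ℂ T (e.l.symm (F.g x, a)) u‖ ^ 2) *
        volume (ball (0 : E n) e.ρ) * volume (ball (F.g x) η) ≤
        Q * ENNReal.ofReal (hr (F.om x) v + ε) * volume (ball (F.g x) η) := by
      refine h1.trans ((mul_le_mul_right (h2.trans (mul_le_mul' (Nat.cast_le.2 (hD x hx.2)) h3))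
        c).trans (le_of_eq ?_))
      rw [hQ]
      ring
    rw [ENNReal.mul_le_mul_iff_left (measure_ball_pos _ _ hη).ne' measure_ball_lt_top.ne,
      ← ENNReal.le_div_iff_mul_le (Or.inl hV) (Or.inl measure_ball_lt_top.ne),
      ENNReal.mul_div_right_comm, ENNReal.ofReal_le_iff_le_toReal
        (ENNReal.mul_ne_top hQ' ENNReal.ofReal_ne_top), ENNReal.toReal_mul,
      ENNReal.toReal_ofReal (by linarith)] at h4
    exact h4
  have hq0 : 0 ≤ (Q / volume (ball (0 : E n) e.ρ)).toReal := ENNReal.toReal_nonneg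
  generalize (Q / volume (ball (0 : E n) e.ρ)).toReal = q at key hq0
  refine le_of_forall_pos_le_add fun δ hδ => (key (δ / (q + 1)) (by positivity)).trans ?_
  rw [mul_add, ← mul_div_assoc]
  refine add_le_add_right ((div_le_iff₀ (by positivity)).2 ?_) _
  nlinarith

theorem Fib.exists_trp (hN : 1 ≤ N) (hA : F.Area) (e : Sc A n) (hM : F.Sat M)
    (hd : Disjoint M (A.p e.i '' e.shell)) : ∃ deg Tr, F.TrP e M deg Tr := by
  refine ⟨F.deg e M, F.Tr e M, fun x hx a ha => Fib.Tr_fam hN hM hd hx ha,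
    fun x hx y hy => Fib.deg_inv hM hx hy, fun x hx => Fib.deg_lc hN hM hd hx,
    Fib.deg_bdd hN hA hM hd, fun h hh x hx => Fib.Tr_hol_a hM hd hh hx,
    fun h hh a ha i z hz => ?_, fun h hh => ?_⟩
  · obtain ⟨j, hj⟩ := F.cov _ (hM.sub hz.2)
    exact (Fib.Tr_loc hM hd hh ha (j := j) ⟨hz.1, hj, hz.2⟩).1.differentiableWithinAt
  · obtain ⟨B, hB⟩ := Fib.Tr_grad hN hA hM hd hh
    refine ⟨B, fun a ha i z hz v => ?_⟩
    obtain ⟨j, hj⟩ := F.cov _ (hM.sub hz.2)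
    rw [(Fib.Tr_loc hM hd hh.differentiableOn (ball_subset_ball (by linarith [e.ρ_pos]) ha)
      (j := j) ⟨hz.1, hj, hz.2⟩).2, Fib.Om, hr, hq_conj]
    exact hB j _ ⟨hj, hz.2⟩ a ha _

end Pool.Agent.BP
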