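import Pool.Agent.P.MP_63735c_ag.BPDefs

/-! Power sums of points. -/

open scoped ComplexOrder ContDiff Matrix Topology ENNReal
open Set Metric MeasureTheory Filter

namespace Pool.Agent.BP

open Pool.Agent.SPF Pool.Agent.AB Pool.Agent.CK Pool.Agent.SE Pool.Agent.NL

variable {n : ℕ}

/-- A monomial of bounded degree in each variable. -/
noncomputable def mon {D : ℕ} (α : Fin n → Fin D) (z : E n) : ℂ := ∏ a, z a ^ (α a : ℕ)

theorem mon_diff {D : ℕ} (α : Fin n → Fin D) : Differentiable ℂ (mon α) :=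
  (contDiff_prod (n := 1) fun a _ => (contDiff_apply ℂ ℂ a).pow _).differentiable one_ne_zero

theorem bpt7_sep {d D : ℕ} {y c : Fin d → E n}
    (H : ∀ α : Fin n → Fin (D + 1), ∑ i, mon α (y i) = ∑ i, mon α (c i)) (z : E n)
    (T : Finset (E n)) (hz : z ∉ T) : ∃ h : E n → ℂ, h z = 1 ∧ (∀ q ∈ T, h q = 0) ∧
      ∀ β : Fin n → ℕ, (∀ a, β a + T.card ≤ D) →
        ∑ i, h (y i) * ∏ a, y i a ^ β a = ∑ i, h (c i) * ∏ a, c i a ^ β a := by
  classical
  induction T using Finset.induction_on with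
  | empty =>
    refine ⟨fun _ => 1, rfl, by simp, fun β hβ => ?_⟩
    simpa [mon] using H fun a => ⟨β a, by have := hβ a; omega⟩
  | insert q T hq ih =>
    rw [Finset.mem_insert, not_or] at hz
    obtain ⟨h, h2, h3, h4⟩ := ih hz.2
    obtain ⟨a, ha⟩ := Function.ne_iff.1 hz.1
    refine ⟨fun x => (x a - q a) / (z a - q a) * h x, ?_, fun x hx => ?_, fun β hβ => ?_⟩
    · simp only [h2, div_self (sub_ne_zero.2 ha), mul_one]
    · rcases Finset.mem_insert.1 hx with rfl | hx
      · simp
      · simp [h3 x hx]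
    · rw [Finset.card_insert_of_notMem hq] at hβ
      have e : ∀ x : E n, (x a - q a) / (z a - q a) * h x * ∏ b, x b ^ β b =
          (z a - q a)⁻¹ * (h x * ∏ b, x b ^ (β b + if b = a then 1 else 0)) -
            q a / (z a - q a) * (h x * ∏ b, x b ^ β b) := fun x => by
        simp only [pow_add, Finset.prod_mul_distrib, pow_ite, pow_one, pow_zero,
          Finset.prod_ite_eq', Finset.mem_univ, if_true]
        ring
      simp only [e, Finset.sum_sub_distrib, ← Finset.mul_sum]
      rw [h4 β fun b => by have := hβ b; omega,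
        h4 (fun b => β b + if b = a then 1 else 0) fun b => by
          have := hβ b
          split_ifs <;> omega]

theorem bpt7_eq {d : ℕ} {y c : Fin d → E n}
    (H : ∀ α : Fin n → Fin (2 * d + 1), ∑ i, mon α (y i) = ∑ i, mon α (c i)) (i : Fin d) :
    ∃ j, y i = c j := by
  classical
  by_contra hc
  obtain ⟨h, h5, h6, h4⟩ := bpt7_sep H (y i)
    ((Finset.univ.image y ∪ Finset.univ.image c).erase (y i)) (Finset.notMem_erase _ _)
  have h7 := h4 0 fun a => by
    have h1 := Finset.card_erase_le (s := Finset.univ.image y ∪ Finset.univ.image c) (a := y i)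
    have h2 := Finset.card_union_le (Finset.univ.image y) (Finset.univ.image c)
    have h3 := Finset.card_image_le (s := Finset.univ) (f := y)
    have h3' := Finset.card_image_le (s := Finset.univ) (f := c)
    simp only [Finset.card_univ, Fintype.card_fin, Pi.zero_apply] at h3 h3' ⊢
    omega
  simp only [Pi.zero_apply, pow_zero, Finset.prod_const_one, mul_one] at h7
  rw [Finset.sum_eq_zero (f := fun j => h (c j)) fun j _ =>
    h6 _ (by simpa using fun e' => hc ⟨j, e'.symm⟩)] at h7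
  have h8 := (Finset.sum_eq_zero_iff_of_nonneg fun j _ => ?_).1 h7 i (Finset.mem_univ i)
  · rw [h5] at h8
    exact one_ne_zero h8
  · by_cases e' : y j = y i
    · rw [e', h5]
      exact zero_le_one
    · exact (h6 _ (by simpa using e')).ge

theorem ps_close (n d : ℕ) (R : ℝ) {ε : ℝ} (hε : 0 < ε) : ∃ δ : ℝ, 0 < δ ∧
    ∀ y c : Fin d → E n, (∀ i, ‖y i‖ ≤ R ∧ ‖c i‖ ≤ R) →
      (∀ α : Fin n → Fin (2 * d + 1), ‖∑ i, mon α (y i) - ∑ i, mon α (c i)‖ ≤ δ) →
      ∀ i, ∃ j, ‖y i - c j‖ ≤ ε := by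
  set B : Set (Fin d → E n) := univ.pi fun _ => closedBall 0 R
  have hB : IsCompact B := isCompact_univ_pi fun _ => isCompact_closedBall _ _
  set f : (Fin d → E n) × (Fin d → E n) → (Fin n → Fin (2 * d + 1)) → ℂ :=
    fun p α => ∑ i, mon α (p.1 i) - ∑ i, mon α (p.2 i) with hf
  have hc : Continuous f := continuous_pi fun α =>
    (continuous_finsetSum _ fun i _ => (mon_diff α).continuous.comp (by fun_prop)).sub
      (continuous_finsetSum _ fun i _ => (mon_diff α).continuous.comp (by fun_prop))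
  have hS : IsCompact (B ×ˢ B ∩ ⋃ i, ⋂ j, {p | ε ≤ ‖p.1 i - p.2 j‖}) :=
    (hB.prod hB).inter_right (isClosed_iUnion_of_finite fun i => isClosed_iInter fun j =>
      isClosed_le continuous_const (by fun_prop))
  obtain ⟨δ, hδ, hd⟩ := hS.exists_forall_le' (a := 0) hc.norm.continuousOn fun p hp => by
    refine norm_pos_iff.2 fun h0 => ?_
    obtain ⟨i, hi⟩ := mem_iUnion.1 hp.2
    obtain ⟨j, hj⟩ := bpt7_eq (fun α => sub_eq_zero.1 (congrFun h0 α)) i
    have := mem_iInter.1 hi j
    simp only [mem_ofPred_eq, hj, sub_self, norm_zero] at this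
    exact this.not_gt hε
  refine ⟨δ / 2, half_pos hδ, fun y c h1 h2 i => ?_⟩
  by_contra h3
  have h4 := hd (y, c) ⟨⟨fun j _ => mem_closedBall_zero_iff.2 (h1 j).1,
    fun j _ => mem_closedBall_zero_iff.2 (h1 j).2⟩,
    mem_iUnion.2 ⟨i, mem_iInter.2 fun j => (not_le.1 fun h => h3 ⟨j, h⟩).le⟩⟩
  have h5 := (pi_norm_le_iff_of_nonneg (x := f (y, c)) (half_pos hδ).le).2 h2
  linarith

open MvPolynomial in
theorem exists_newton (d : ℕ) : ∃ Q : (Fin d → ℂ) → ℂ, Differentiable ℂ Q ∧
    ∀ x : Fin d → ℂ, Q (fun j => ∑ i, x i ^ ((j : ℕ) + 1)) = ∏ i, x i := by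
  have H : ∀ k, ∃ Q : (Fin d → ℂ) → ℂ, Differentiable ℂ Q ∧ (k ≤ d →
      ∀ x : Fin d → ℂ, Q (fun j => ∑ i, x i ^ ((j : ℕ) + 1)) = eval x (esymm (Fin d) ℂ k)) := by
    intro k
    induction k using Nat.strong_induction_on with
    | _ k ih =>
      rcases Nat.eq_zero_or_pos k with rfl | hk
      · exact ⟨fun _ => 1, differentiable_const _, fun _ x => by simp⟩
      choose! Q hQ using ih
      refine ⟨fun t => (k : ℂ)⁻¹ * ((-1) ^ (k + 1) *
        ∑ a ∈ Finset.HasAntidiagonal.antidiagonal k with a.1 < k, (-1) ^ a.1 * Q a.1 t *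
          if h : a.2 - 1 < d then t ⟨_, h⟩ else 0), ?_, fun hd x => ?_⟩
      · refine ((Differentiable.fun_sum fun a ha => (((hQ _ (Finset.mem_filter.1
          ha).2).1.const_mul _).mul ?_)).const_mul _).const_mul _
        split_ifs
        · fun_prop
        · fun_prop
      · have h1 := congrArg (eval x) (mul_esymm_eq_sum (Fin d) ℂ k)
        simp only [map_mul, map_natCast, map_pow, map_neg, map_one, map_sum] at h1
        rw [inv_mul_eq_iff_eq_mul₀ (Nat.cast_ne_zero.2 hk.ne'), h1]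
        refine congrArg _ (Finset.sum_congr rfl fun a ha => ?_)
        obtain ⟨h2, h3⟩ := Finset.mem_filter.1 ha
        rw [Finset.HasAntidiagonal.mem_antidiagonal] at h2
        rw [(hQ _ h3).2 (by omega), dif_pos (by omega)]
        simp [psum, Nat.sub_add_cancel (show 1 ≤ a.2 by omega)]
  obtain ⟨Q, h1, h2⟩ := H d
  refine ⟨Q, h1, fun x => ?_⟩
  have h3 : Finset.powersetCard d (Finset.univ : Finset (Fin d)) = {Finset.univ} := by
    simpa using Finset.powersetCard_self (Finset.univ : Finset (Fin d))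
  rw [h2 le_rfl, esymm, h3]
  simp

end Pool.Agent.BP
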