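import Pool.Agent.P.MP_63735c_ag.BPFib
import Pool.Agent.P.MP_63735c_ag.BPT1
import Pool.Agent.P.MP_63735c_ag.BPT6a

/-! The area bounds. -/

open scoped ComplexOrder ContDiff Matrix Topology ENNReal
open Set Metric MeasureTheory Filter

namespace Pool.Agent.BP

open Pool.Agent.SPF Pool.Agent.AB Pool.Agent.CK Pool.Agent.SE Pool.Agent.NL

variable {N n : ℕ} {X : Type} [TopologicalSpace X] [T2Space X] [MeasurableSpace X] [BorelSpace X]
  {A : Atlas X N} {F : Fib A n} {μ : Measure X} {K : Form11 A} {h : X → Mat n} {c₀ : ℝ}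

theorem bpda_tr (M : Mat n) (v : E n) : hr Mᵀ v = hr M (star v) := by
  rw [hr, hr, hq, hq, star_star, Matrix.dotProduct_mulVec, Matrix.vecMul_transpose,
    dotProduct_comm]

theorem bpda_la {G H : Mat n} (hH : H.PosDef) {C : ℝ} (hC : 0 ≤ C)
    (hle : ∀ t, nsq (t ᵥ* G) ≤ C * hr H t) : ‖G.det‖ ^ 2 ≤ C ^ n * H.det.re ∧
      ∀ v, ‖G.adjugate *ᵥ v‖ ^ 2 ≤ C ^ (n - 1) * hr H.adjugateᵀ v := by
  have hp : ((Gᴴ)ᴴ * Matrix.diagonal (fun _ : Fin n => ((1 : ℝ) : ℂ)) * Gᴴ).PosSemidef :=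
    Matrix.PosSemidef.conjTranspose_mul_mul_same
      (Matrix.posSemidef_diagonal_iff.2 fun _ => Complex.zero_le_real.2 zero_le_one) _
  have h1 : ∀ t, hr ((Gᴴ)ᴴ * Matrix.diagonal (fun _ : Fin n => ((1 : ℝ) : ℂ)) * Gᴴ) t ≤
      C * hr H t := fun t => by
    rw [bpt1_hr, ← Matrix.star_vecMul]
    simpa [nsq] using hle t
  refine ⟨?_, fun v => ?_⟩
  · have h2 := det_mono hp hC hH h1
    rwa [bpt1_det, Finset.prod_const_one, one_mul, Matrix.det_conjTranspose, norm_star] at h2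
  · have h2 := adj_mono hp hC hH h1 (star v)
    rw [bpt1_adj, bpt1_hr, star_star, ← Matrix.adjugate_conjTranspose,
      Matrix.conjTranspose_conjTranspose, ← bpda_tr] at h2
    refine (nsq_le _).1.trans (le_trans (le_of_eq ?_) h2)
    simp [nsq]

theorem bpda_det (l : E N ≃L[ℂ] E n × E n) (J : Matrix (Fin n) (Fin N) ℂ) {P : Mat N} {G : Mat n}
    (hP : ∀ u, P *ᵥ u = l.symm (J *ᵥ u, (l u).1)) (hG : ∀ c, G *ᵥ c = J *ᵥ l.symm (0, c)) :
    ‖P.det‖ = ‖G.det‖ := by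
  let m : E N ≃ₗ[ℂ] (Fin n ⊕ Fin n → ℂ) :=
    l.toLinearEquiv.trans (LinearEquiv.sumArrowLequivProdArrow (Fin n) (Fin n) ℂ ℂ).symm
  let B : Mat n := LinearMap.toMatrix' (J.mulVecLin ∘ₗ (l.symm : E n × E n →ₗ[ℂ] E N) ∘ₗ
    LinearMap.inl ℂ _ _)
  let S : Matrix (Fin n ⊕ Fin n) (Fin n ⊕ Fin n) ℂ := Matrix.fromBlocks 0 1 1 0
  have hS : ‖S.det‖ = 1 := by
    have h1 : S * S = 1 := by simp [S, Matrix.fromBlocks_multiply]
    have h2 := congrArg (fun M => ‖Matrix.det M‖) h1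
    simp only [Matrix.det_mul, norm_mul, Matrix.det_one, norm_one] at h2
    nlinarith [norm_nonneg S.det]
  have e : (m : E N →ₗ[ℂ] _) ∘ₗ Matrix.toLin' P ∘ₗ (m.symm : _ →ₗ[ℂ] E N) =
      Matrix.toLin' (S * Matrix.fromBlocks 1 0 B G) := by
    refine LinearMap.ext fun x => ?_
    have e1 : m.symm x = l.symm (x ∘ Sum.inl, 0) + l.symm (0, x ∘ Sum.inr) := by
      rw [← map_add, Prod.mk_add_mk, add_zero, zero_add]
      rfl
    have e2 : (l (m.symm x)).1 = x ∘ Sum.inl := by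
      rw [e1, map_add, l.apply_symm_apply, l.apply_symm_apply, Prod.fst_add, add_zero]
    have e3 : J *ᵥ m.symm x = B *ᵥ (x ∘ Sum.inl) + G *ᵥ (x ∘ Sum.inr) := by
      rw [e1, Matrix.mulVec_add, hG, LinearMap.toMatrix'_mulVec]
      rfl
    have e4 : ∀ a c, m (l.symm (a, c)) = Sum.elim a c := fun a c => by
      ext (i | i) <;> simp [m]
    simp only [LinearMap.comp_apply, LinearEquiv.coe_coe, Matrix.toLin'_apply, hP, e2, e3, e4, S,
      Matrix.fromBlocks_multiply, Matrix.fromBlocks_mulVec]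
    simp
  have h3 := congrArg LinearMap.det e
  rw [LinearMap.det_conj, LinearMap.det_toLin', LinearMap.det_toLin', Matrix.det_mul,
    Matrix.det_fromBlocks_zero₁₂, Matrix.det_one, one_mul] at h3
  rw [h3, norm_mul, hS, one_mul]

theorem bpda_inv (l : E N ≃L[ℂ] E n × E n) (J : Matrix (Fin n) (Fin N) ℂ) {P : Mat N} {G : Mat n}
    (hP : ∀ u, P *ᵥ u = l.symm (J *ᵥ u, (l u).1)) (hG : ∀ c, G *ᵥ c = J *ᵥ l.symm (0, c))
    (v : E n) : ‖P.det‖ * ‖P⁻¹ *ᵥ l.symm (v, 0)‖ ≤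
      ‖(l.symm : E n × E n →L[ℂ] E N)‖ * ‖G.adjugate *ᵥ v‖ := by
  rcases eq_or_ne P.det 0 with h0 | h0
  · rw [h0, norm_zero, zero_mul]
    positivity
  set w := P⁻¹ *ᵥ l.symm (v, 0) with hw
  have h1 : l.symm (J *ᵥ w, (l w).1) = l.symm (v, 0) := by
    rw [← hP, hw, Matrix.mulVec_mulVec, Matrix.mul_nonsing_inv _ (isUnit_iff_ne_zero.2 h0),
      Matrix.one_mulVec]
  obtain ⟨h2, h3⟩ := Prod.mk.inj (l.symm.injective h1)
  have h4 : w = l.symm (0, (l w).2) := by rw [← h3, l.symm_apply_apply]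
  have h5 : G.adjugate *ᵥ v = G.det • (l w).2 := by
    rw [← h2]
    conv_lhs => rw [h4, ← hG, Matrix.mulVec_mulVec, Matrix.adjugate_mul, Matrix.smul_mulVec,
      Matrix.one_mulVec]
  have h6 : ‖w‖ ≤ ‖(l.symm : E n × E n →L[ℂ] E N)‖ * ‖(l w).2‖ := by
    have := (l.symm : E n × E n →L[ℂ] E N).le_opNorm (0, (l w).2)
    rw [Prod.norm_mk, norm_zero, max_eq_right (norm_nonneg _)] at this
    exact (congrArg norm h4).trans_le this
  rw [h5, norm_smul, bpda_det l J hP hG, mul_left_comm]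
  exact mul_le_mul_of_nonneg_left h6 (norm_nonneg _)

omit [T2Space X] [BorelSpace X] in
theorem bpda_pt (hK : ∀ i, ∀ z ∈ (A.C i).W, (K.h i z).PosDef) (hT : F.Tor μ K h c₀) (i : A.ι)
    (l : E N ≃L[ℂ] E n × E n) {C : Set (E N)} (hC : IsCompact C) (hs : C ⊆ (A.C i).W) :
    ∃ B : ℝ, 0 ≤ B ∧ ∀ z ∈ C, A.p i z ∈ F.W →
      ‖(jac (F.Pm i l) z).det‖ ^ 2 ≤ B * (h (A.p i z)).det.re ∧
      ∀ v, ‖(jac (F.Pm i l) z).det‖ ^ 2 * ‖(jac (F.Pm i l) z)⁻¹ *ᵥ l.symm (v, 0)‖ ^ 2 ≤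
        B * hr (h (A.p i z)).adjugateᵀ v := by
  obtain ⟨c, hc, h1⟩ := cpt_lower hC (fun a b => (K.smooth i a b).continuousOn.mono hs)
    fun z hz u hu => hq_pos (hK i z (hs hz)) hu
  obtain ⟨b, hb, h2⟩ := cpt_upper (h := fun z => ((A.C i).σ z)ᵀ) hC
    fun a b => ((A.C i).σ_hol b a).continuousOn.mono hs
  let L : Matrix (Fin N) (Fin n) ℂ :=
    LinearMap.toMatrix' ((l.symm : E n × E n →ₗ[ℂ] E N) ∘ₗ LinearMap.inr ℂ _ _)
  let T : E N →L[ℂ] E n := LinearMap.toContinuousLinearMap L.vecMulLinear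
  set D : ℝ := n * (‖T‖ * b) ^ 2 / c with hD
  have hD0 : 0 ≤ D := by positivity
  set e := ‖(l.symm : E n × E n →L[ℂ] E N)‖
  refine ⟨D ^ n + e ^ 2 * D ^ (n - 1), by positivity, fun z hz hW => ?_⟩
  have hz' : z ∈ dom A F.W i := ⟨hs hz, hW⟩
  have hd := (F.g_hol i).differentiableAt
    (((A.cont i).isOpen_inter_preimage (A.C i).isOpen F.W_open).mem_nhds hz')
  have hu := isUnit_iff_ne_zero.2 ((A.C i).σ_det z (hs hz))
  have hP : ∀ u, jac (F.Pm i l) z *ᵥ u = l.symm (Jg A F.g i z *ᵥ u, (l u).1) := fun u => by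
    have := (l.symm : E n × E n →L[ℂ] E N).hasFDerivAt.comp z
      (hd.hasFDerivAt.prodMk (l : E N →L[ℂ] E n × E n).hasFDerivAt.fst)
    rw [bpt2_jac, Jg, bpt2_jac]
    exact congrArg (· u) this.fderiv
  have hG : ∀ c, (Jg A F.g i z * L) *ᵥ c = Jg A F.g i z *ᵥ l.symm (0, c) := fun c => by
    rw [← Matrix.mulVec_mulVec, LinearMap.toMatrix'_mulVec]
    rfl
  have hV : ∀ t, t ᵥ* Jg A F.g i z = (Vf A F.g i z *ᵥ t) ᵥ* ((A.C i).σ z)ᵀ := fun t => by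
    rw [Matrix.vecMul_transpose, Matrix.mulVec_mulVec, Vf, Matrix.mul_nonsing_inv_cancel_left _ _ hu,
      Matrix.mulVec_transpose]
  have hh : ∀ t, hr (h (A.p i z)) t = hr (K.h i z) (Vf A F.g i z *ᵥ t) := fun t => by
    rw [hr, hT.h_eq i z hz', hq_conj]
  have hH : (h (A.p i z)).PosDef := by
    refine posDef_of_hq ?_ fun t ht => ?_
    · rw [hT.h_eq i z hz']
      exact Matrix.isHermitian_mul_mul_conjTranspose _ (hK i z (hs hz)).1
    · refine (hq_pos (hK i z (hs hz)) fun h0 => ht ?_).trans_eq (hh t).symm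
      obtain ⟨u, hu'⟩ := F.g_sub i z hz' (star t)
      have h3 := hV t
      rw [h0, Matrix.zero_vecMul] at h3
      have h4 : t ⬝ᵥ star t = 0 := by
        rw [← hu', ← bpt2_jac, Matrix.dotProduct_mulVec, ← Jg, h3, zero_dotProduct]
      exact dotProduct_self_star_eq_zero.1 h4
  have hle : ∀ t, nsq (t ᵥ* (Jg A F.g i z * L)) ≤ D * hr (h (A.p i z)) t := fun t => by
    rw [hh, ← Matrix.vecMul_vecMul, hV]
    generalize Vf A F.g i z *ᵥ t = u
    have h3 : ‖(u ᵥ* ((A.C i).σ z)ᵀ) ᵥ* L‖ ≤ ‖T‖ * (b * ‖u‖) :=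
      (T.le_opNorm _).trans (mul_le_mul_of_nonneg_left (h2 z hz u u).2 (norm_nonneg _))
    calc _ ≤ n * ‖(u ᵥ* ((A.C i).σ z)ᵀ) ᵥ* L‖ ^ 2 := (nsq_le _).2
      _ ≤ n * (‖T‖ * (b * ‖u‖)) ^ 2 := by gcongr
      _ = D * (c * ‖u‖ ^ 2) := by
        rw [hD]
        field_simp
      _ ≤ _ := mul_le_mul_of_nonneg_left (h1 z hz u) hD0
  obtain ⟨h3, h4⟩ := bpda_la hH hD0 hle
  refine ⟨?_, fun v => ?_⟩
  · rw [bpda_det l _ hP hG]
    exact h3.trans (mul_le_mul_of_nonneg_right (le_add_of_nonneg_right (by positivity))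
      (Complex.nonneg_iff.1 hH.det_pos.le).1)
  · have h5 : 0 ≤ hr (h (A.p i z)).adjugateᵀ v :=
      hq_nonneg (adj_psd hH.posSemidef).transpose v
    calc _ = (‖(jac (F.Pm i l) z).det‖ * ‖(jac (F.Pm i l) z)⁻¹ *ᵥ l.symm (v, 0)‖) ^ 2 := by ring
      _ ≤ (e * ‖(Jg A F.g i z * L).adjugate *ᵥ v‖) ^ 2 :=
        pow_le_pow_left₀ (by positivity) (bpda_inv l _ hP hG v) 2
      _ ≤ e ^ 2 * (D ^ (n - 1) * hr (h (A.p i z)).adjugateᵀ v) := by
        rw [mul_pow]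
        exact mul_le_mul_of_nonneg_left (h4 v) (sq_nonneg _)
      _ ≤ _ := by
        rw [← mul_assoc]
        exact mul_le_mul_of_nonneg_right (le_add_of_nonneg_left (by positivity)) h5

omit [T2Space X] in
theorem bpda_int (hinj : ∀ i, InjOn (A.p i) (A.C i).W) (hμ : IsVolume A μ) (i : A.ι)
    {C : Set (E N)} (hC : IsCompact C) (hs : C ⊆ (A.C i).W) :
    ∃ b : ℝ, 0 ≤ b ∧ ∀ S ⊆ C, MeasurableSet S → ∀ f : X → ℝ≥0∞,
      ∫⁻ z in S, f (A.p i z) ≤ ENNReal.ofReal b * ∫⁻ x in A.p i '' S, f x ∂μ := by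
  have hc : ContinuousOn (fun z => ‖((A.C i).σ z).det‖) (A.C i).W :=
    ((continuous_id.matrix_det).comp_continuousOn (continuousOn_pi.2 fun a => continuousOn_pi.2
      fun b => ((A.C i).σ_hol a b).continuousOn)).norm
  have hw : ∀ i, ∀ z ∈ (A.C i).W,
      wt (fun z => -Real.log ‖((A.C i).σ z).det‖) z = ‖((A.C i).σ z).det‖ := fun i z hz => by
    rw [wt, neg_neg, Real.exp_log (norm_pos_iff.2 ((A.C i).σ_det z hz))]
  have hd : (man A hinj isOpen_univ).Den μ fun i z => -Real.log ‖((A.C i).σ z).det‖ := by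
    intro i S hS hm
    refine (hμ i S (hS.trans inter_subset_left) hm).trans
      (setLIntegral_congr_fun hm fun z hz => ?_)
    rw [hw i z (hS hz).1, ofReal_norm]
  obtain ⟨c, hc0, h1⟩ := hC.exists_forall_le' (hc.mono hs) (a := 0)
    fun z hz => norm_pos_iff.2 ((A.C i).σ_det z (hs hz))
  refine ⟨c⁻¹, by positivity, fun S hS hm f => ?_⟩
  have h2 := hd.lint (i := i) (((hc.log fun z hz => norm_ne_zero_iff.2
    ((A.C i).σ_det z hz)).neg).mono inter_subset_left) hm (fun z hz => ⟨hs (hS hz), trivial⟩) f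
  refine le_trans ?_ (mul_le_mul_right h2.ge _)
  rw [← lintegral_const_mul' _ _ ENNReal.ofReal_ne_top]
  refine setLIntegral_mono' hm fun z hz => ?_
  rw [← mul_assoc, ← ENNReal.ofReal_mul (by positivity), hw i z (hs (hS hz))]
  refine le_mul_of_one_le_left' (ENNReal.one_le_ofReal.2 ?_)
  rw [← div_eq_inv_mul, one_le_div hc0]
  exact h1 z (hS hz)

theorem Fib.area (hinj : ∀ i, InjOn (A.p i) (A.C i).W) (hμ : IsVolume A μ)
    (hK : ∀ i, ∀ z ∈ (A.C i).W, (K.h i z).PosDef) (hT : F.Tor μ K h c₀) : F.Area := by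
  intro i l C hC hs
  obtain ⟨B, hB, h1⟩ := bpda_pt hK hT i l hC hs
  obtain ⟨b, hb, h2⟩ := bpda_int hinj hμ i hC hs
  refine ⟨B * b * |c₀|, by positivity, fun j O hO hm => ?_⟩
  have hS : MeasurableSet (C ∩ A.p i ⁻¹' (F.U j ∩ F.g ⁻¹' O)) := by
    have h3 := ((A.cont i).isOpen_inter_preimage (A.C i).isOpen
      (F.U_open j)).measurableSet.subtype_image (((F.g_hol i).continuousOn.mono
        fun z hz => ⟨hz.1, F.U_sub j hz.2⟩).domRestrict.measurable hm)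
    have e : C ∩ A.p i ⁻¹' (F.U j ∩ F.g ⁻¹' O) = C ∩ Subtype.val '' ((dom A (F.U j) i).domRestrict
        (fun z => F.g (A.p i z)) ⁻¹' O) := by
      ext z
      refine and_congr_right fun hz => ⟨fun h => ⟨⟨z, hs hz, h.1⟩, h.2, rfl⟩, ?_⟩
      rintro ⟨y, hy, rfl⟩
      exact ⟨y.2.2, hy⟩
    rw [e]
    exact hC.measurableSet.inter h3
  have key : ∀ (u : E N → ℝ≥0∞) (f : X → ℝ) (I : ℝ≥0∞),
      (∀ z ∈ C, A.p i z ∈ F.W → u z ≤ ENNReal.ofReal (B * f (A.p i z))) →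
      ∫⁻ x in F.U j ∩ F.g ⁻¹' O, ENNReal.ofReal (f x) ∂μ ≤ ENNReal.ofReal c₀ * I →
      ∫⁻ z in C ∩ A.p i ⁻¹' (F.U j ∩ F.g ⁻¹' O), u z ≤ ENNReal.ofReal (B * b * |c₀|) * I := by
    intro u f I a1 a2
    refine (setLIntegral_mono' hS fun z hz => a1 z hz.1 (F.U_sub j hz.2.1)).trans ?_
    simp only [ENNReal.ofReal_mul hB, ENNReal.ofReal_mul hb, mul_assoc]
    rw [lintegral_const_mul' _ _ ENNReal.ofReal_ne_top]
    refine mul_le_mul_right ((h2 _ inter_subset_left hS fun x => ENNReal.ofReal (f x)).trans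
      (mul_le_mul_right ((lintegral_mono_set (image_subset_iff.2 inter_subset_right)).trans
        (a2.trans (mul_le_mul_left (ENNReal.ofReal_le_ofReal (le_abs_self _)) _))) _)) _
  refine ⟨key _ (fun x => (h x).det.re) _ (fun z hz hW => ?_) (hT.fub_det j O hO hm), fun v =>
    key _ (fun x => hr (h x).adjugateᵀ v) _ (fun z hz hW => ?_) (hT.fub_adj j O hO hm v)⟩
  · rw [← ofReal_norm, ← ENNReal.ofReal_pow (norm_nonneg _)]
    exact ENNReal.ofReal_le_ofReal (h1 z hz hW).1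
  · rw [← ofReal_norm, ← ofReal_norm, ← ENNReal.ofReal_pow (norm_nonneg _),
      ← ENNReal.ofReal_pow (norm_nonneg _), ← ENNReal.ofReal_mul (sq_nonneg _)]
    exact ENNReal.ofReal_le_ofReal ((h1 z hz hW).2 v)

end Pool.Agent.BP
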