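import Pool.Agent.P.MP_63735c_ag.BPDpx

/-! The packing bound. -/

open scoped ComplexOrder ContDiff Matrix Topology ENNReal
open Set Metric MeasureTheory Filter

namespace Pool.Agent.BP

open Pool.Agent.SPF Pool.Agent.AB Pool.Agent.CK Pool.Agent.SE Pool.Agent.NL

variable {N n : ℕ} {X : Type} [TopologicalSpace X] [T2Space X] [MeasurableSpace X]
  {A : Atlas X N} {F : Fib A n} {μ : Measure X} {K : Form11 A} {h : X → Mat n} {c₀ : ℝ}

theorem Fib.pack (hinj : ∀ i, InjOn (A.p i) (A.C i).W)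
    (hK : ∀ i, ∀ z ∈ (A.C i).W, (K.h i z).PosDef) (hT : F.Tor μ K h c₀) : F.Pack := by
  intro i C hC hCW
  obtain ⟨R, hR, hRW⟩ := hC.exists_cthickening_subset_open (A.C i).isOpen hCW
  obtain ⟨k, hk, hkK⟩ := cpt_lower (h := K.h i) hC.cthickening
    (fun a b => (K.smooth i a b).continuousOn.mono hRW) fun z hz u hu => hq_pos (hK i z (hRW hz)) hu
  obtain ⟨c, hc, H⟩ := bpdp_low n
  refine ⟨4 ^ n / c * ((N / k) ^ n * max c₀ 0), R, hR, fun x hx ρ hρ hρR S hS hsep => ?_⟩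
  obtain ⟨Ψ, κ, hκ, hr', hl, hv⟩ := hT.tor x hx
  have hW : ∀ τ, Ψ τ ∈ F.W := fun τ => by
    obtain ⟨j, hj⟩ := F.cov x hx
    exact F.U_sub j ((F.rel j x hj _).1 ((hr' _).2 ⟨τ, rfl⟩)).1
  obtain ⟨hΨ, q, hq1, hq2⟩ := bpdp_lift hinj hW hl i
  set O := Ψ ⁻¹' (A.p i '' (A.C i).W) with hO
  have hd : ∀ τ ∈ O, q τ ∈ dom A F.W i := fun τ hτ => ⟨(hq2 τ hτ).1, by
    rw [mem_preimage, (hq2 τ hτ).2.1]
    exact hW τ⟩
  have hb : ∀ z ∈ C, ∀ w, nsq (w - z) ≤ R ^ 2 → w ∈ cthickening R C := fun z hz w hw =>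
    mem_cthickening_of_dist_le w z R C hz (by
      rw [dist_eq_norm]
      exact (abs_le_of_sq_le_sq' ((nsq_le _).1.trans hw) hR.le).2)
  have ht : ρ ^ 2 / 4 < R ^ 2 := by nlinarith
  let T : E N → Set (E n) := fun z => {τ | τ ∈ O ∧ nsq (q τ - z) < ρ ^ 2 / 4}
  have low : ∀ z ∈ S, ENNReal.ofReal (c * (ρ ^ 2 / 4) ^ n) ≤
      ∫⁻ τ in T z, ENNReal.ofReal (bpdpD q τ) ∂κ := fun z hz => by
    obtain ⟨hzC, hzr⟩ := hS z hz
    obtain ⟨τ₀, h0⟩ := (hr' _).1 hzr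
    have h1 : τ₀ ∈ O := ⟨z, hCW hzC, h0.symm⟩
    have h2 : q τ₀ = z := hinj i (hq2 τ₀ h1).1 (hCW hzC) ((hq2 τ₀ h1).2.1.trans h0)
    have h3 := H hq1 hκ τ₀ h1 ((injective_iff_map_eq_zero _).2 fun v hv => bpdp_inj (hd τ₀ h1) (by
      rw [← (hq2 τ₀ h1).2.2, bpt2_jac, hv])) (R ^ 2) _ (by positivity) ht
    rw [h2] at h3
    refine h3 ?_
    have k1 : IsCompact {w | nsq (w - z) ≤ R ^ 2} := hC.cthickening.of_isClosed_subset
      (isClosed_le (nsq_smooth.continuous.comp (continuous_sub_right z)) continuous_const) (hb z hzC)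
    have k2 : {w | nsq (w - z) ≤ R ^ 2} ⊆ (A.C i).W := fun w hw => hRW (hb z hzC w hw)
    have k3 := (k1.image_of_continuousOn ((A.cont i).mono k2)).isClosed.preimage hΨ
    refine (congrArg IsClosed (Set.ext fun τ => ?_)).mp k3
    constructor
    · rintro ⟨w, hw, e⟩
      have a1 : τ ∈ O := ⟨w, k2 hw, e⟩
      exact ⟨a1, (hinj i (k2 hw) (hq2 τ a1).1 (e.trans (hq2 τ a1).2.1.symm)) ▸ hw⟩
    · exact fun hτ => ⟨_, hτ.2, (hq2 τ hτ.1).2.1⟩
  have up : ∀ z ∈ S, ∀ τ ∈ T z, bpdpD q τ ≤ (N / k) ^ n * (h (Ψ τ)).det.re := fun z hz τ hτ => by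
    have a1 := hd τ hτ.1
    have a2 := hkK _ (hb z (hS z hz).1 _ (hτ.2.le.trans ht.le))
    have a3 : h (Ψ τ) = (jac q τ)ᵀ * K.h i (q τ) * (jac q τ).map star := by
      rw [← (hq2 τ hτ.1).2.1, hT.h_eq i _ a1, (hq2 τ hτ.1).2.2]
    have a4 : ∀ v, hr ((jac q τ)ᵀ * (jac q τ).map star) v = nsq (jac q τ *ᵥ v) := fun v => by
      have b := lev_nsq (hq1.hol τ hτ.1)
      rw [← b.2.1, b.2.2.2, bpt2_jac]
    refine det_mono ?_ (by positivity) ?_ fun v => ?_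
    · have := Matrix.posSemidef_self_mul_conjTranspose (jac q τ)ᵀ
      exact this
    · rw [a3]
      refine posDef_of_hq (Matrix.isHermitian_mul_mul_conjTranspose (jac q τ)ᵀ
        (hK i _ a1.1).1) fun u hu => ?_
      rw [hq_conj]
      exact hq_pos (hK i _ a1.1) fun e => hu (bpdp_inj a1 ((hq2 τ hτ.1).2.2 ▸ e))
    · rw [a4, a3, hr, hq_conj]
      calc _ ≤ N * ‖jac q τ *ᵥ v‖ ^ 2 := (nsq_le _).2
        _ = N / k * (k * ‖jac q τ *ᵥ v‖ ^ 2) := by field_simp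
        _ ≤ _ := by gcongr; exact a2 _
  have mT : ∀ z, MeasurableSet (T z) := fun z => (hq1.opn' z _).measurableSet
  have dT : (S : Set (E N)).PairwiseDisjoint T := fun z hz y hy hzy =>
    disjoint_left.2 fun τ h1 h2 => by
      have b : ∀ w, τ ∈ T w → dist (q τ) w < ρ / 2 := fun w hw => by
        rw [dist_eq_norm]
        refine lt_of_pow_lt_pow_left₀ 2 (by positivity) ((nsq_le _).1.trans_lt (hw.2.trans_eq ?_))
        ring
      linarith [hsep z hz y hy hzy, dist_triangle_left z y (q τ), b z h1, b y h2]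
  have tot : (S.card : ℝ≥0∞) * ENNReal.ofReal (c * (ρ ^ 2 / 4) ^ n) ≤
      ENNReal.ofReal ((N / k) ^ n * max c₀ 0) :=
    calc _ = ∑ _z ∈ S, ENNReal.ofReal (c * (ρ ^ 2 / 4) ^ n) := by simp
      _ ≤ ∑ z ∈ S, ∫⁻ τ in T z, ENNReal.ofReal ((N / k) ^ n * (h (Ψ τ)).det.re) ∂κ :=
        Finset.sum_le_sum fun z hz => (low z hz).trans (setLIntegral_mono' (mT z) fun τ hτ =>
          ENNReal.ofReal_le_ofReal (up z hz τ hτ))
      _ = ∫⁻ τ in ⋃ z ∈ S, T z, ENNReal.ofReal ((N / k) ^ n * (h (Ψ τ)).det.re) ∂κ :=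
        (lintegral_biUnion_finset dT (fun z _ => mT z) _).symm
      _ ≤ ∫⁻ τ, ENNReal.ofReal ((N / k) ^ n * (h (Ψ τ)).det.re) ∂κ := setLIntegral_le_lintegral _ _
      _ ≤ _ := by
        simp only [ENNReal.ofReal_mul (show (0 : ℝ) ≤ (N / k) ^ n by positivity)]
        rw [lintegral_const_mul' _ _ ENNReal.ofReal_ne_top]
        gcongr
        exact hv.trans (ENNReal.ofReal_le_ofReal (le_max_left _ _))
  rw [← ENNReal.ofReal_natCast, ← ENNReal.ofReal_mul (Nat.cast_nonneg _),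
    ENNReal.ofReal_le_ofReal_iff (by positivity)] at tot
  calc (S.card : ℝ) * ρ ^ (2 * n) = 4 ^ n / c * (S.card * (c * (ρ ^ 2 / 4) ^ n)) := by
        rw [div_pow, pow_mul]
        field_simp
    _ ≤ _ := by gcongr

end Pool.Agent.BP
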