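import Pool.Agent.P.MP_63735c_ag.BPD0
import Pool.Agent.P.MP_63735c_ag.BPDa
import Pool.Agent.P.MP_63735c_ag.BPDp
import Pool.Agent.P.MP_63735c_ag.BPD4
import Pool.Agent.P.MP_63735c_ag.BPE0

/-! The output of part D. -/

open scoped ComplexOrder ContDiff Matrix Topology ENNReal
open Set Metric MeasureTheory Filter

namespace Pool.Agent.BP

open Pool.Agent.SPF Pool.Agent.AB Pool.Agent.CK Pool.Agent.SE Pool.Agent.NL

variable {N n : ℕ} {X : Type} [TopologicalSpace X] [MeasurableSpace X] {A : Atlas X N}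
  {μ : Measure X} {L : Line A}

theorem Germ.ug {U : Up A μ L} {Om : A.ι → E N → Mat N} {x : X} (H : Germ A U.W Om U.φ x)
    {a : ℝ} (ha : 0 < a)
    (h : ∀ i, ∀ z ∈ dom A U.W i, ∀ v, a * hr (Om i z) v ≤ U.th i z v) : Nonempty (UG U x) := by
  have n1 : ∀ v : E H.M, ‖v‖ ^ 2 ≤ nsq v := fun v => norm_sq_le_nsq v
  have n2 : ∀ v : E H.M, nsq v ≤ H.M * ‖v‖ ^ 2 := fun v => nsq_le_norm_sq v
  have hδ := H.δ_pos
  have hM : (0 : ℝ) ≤ H.M := Nat.cast_nonneg _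
  have hC : 0 ≤ |H.C| / a := div_nonneg (abs_nonneg _) ha.le
  refine ⟨⟨H.M, H.Nb, H.G, 0, √(H.δ / (H.M + 1)), |H.C| / a + |H.C| + 1, H.Wf, H.d, H.c, H.opn, H.sub,
    Real.sqrt_pos.2 (by positivity), by positivity, H.G_hol, fun y hy hn => ?_,
    fun i z hz hO v => ?_, H.Wf_hol, H.d_pos, H.c_pos, fun y hy => ⟨(H.Wf_bd y hy).1,
      (H.Wf_bd y hy).2.trans (by linarith [le_abs_self H.C])⟩, fun ε hε => ?_⟩⟩
  · filter_upwards [isClosed_closure.isOpen_compl.mem_nhds fun hc => hn (H.closed y hy hc)]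
      with y' hy' hO
    have h1 : H.δ < nsq (H.G y') := not_le.1 fun hc => hy' (subset_closure ⟨hO, hc⟩)
    rw [sub_zero, Real.sqrt_lt (by positivity) (norm_nonneg _), div_lt_iff₀ (by positivity)]
    nlinarith [n2 (H.G y'), sq_nonneg ‖H.G y'‖]
  · have h0 : 0 ≤ U.th i z v := U.G_lev i z hz (H.sub hO) v
    have h1 := (n1 _).trans (H.grad i z ⟨hz, hO⟩ v)
    have h2 : 0 < H.C := H.c_pos.trans_le ((H.Wf_bd _ hO).1.trans (H.Wf_bd _ hO).2)
    have h3 : H.C * hr (Om i z) v ≤ H.C / a * U.th i z v := by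
      rw [div_mul_eq_mul_div, le_div_iff₀ ha, mul_assoc, mul_comm _ a]
      exact mul_le_mul_of_nonneg_left (h i z ⟨hz, H.sub hO⟩ v) h2.le
    rw [abs_of_pos h2]
    nlinarith
  · refine frequently_iff.2 fun {O} hO => ?_
    obtain ⟨y, hy, h1, h2⟩ := H.near O hO (ε ^ 2) (by positivity)
    refine ⟨y, hy, h1, ?_⟩
    rw [sub_zero]
    exact lt_of_pow_lt_pow_left₀ 2 hε.le ((n1 _).trans_lt h2)

variable [T2Space X] [CompactSpace X] [PreconnectedSpace X] [BorelSpace X] {K : Form11 A}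
  {S : Sys K L n} {Y : Type} [TopologicalSpace Y] [MeasurableSpace Y]

theorem Kit.germ (T : Kit S μ Y) (hμ : IsVolume A μ) (x : X) :
    Nonempty (Germ A S.W (fun i z => (Jg A S.g i z)ᵀ * T.om (T.f (A.p i z)) *
      (Jg A S.g i z).map star) S.φ x) := by
  obtain ⟨F, h1, h2, h3, h4, h5⟩ := T.exists_fib hμ
  have h := Fib.exists_germ S.hN S.n_pos (Fib.pack S.inj S.K_pos h4)
    (Fib.area S.inj hμ S.K_pos h4) h5 x
  have h6 : F.Om = fun i z => (Jg A S.g i z)ᵀ * T.om (T.f (A.p i z)) *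
      (Jg A S.g i z).map star := by
    funext i z
    rw [Fib.Om, h2, h3]
  rwa [h1, h6] at h

end Pool.Agent.BP
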