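import Pool.Agent.P.MP_63735c_ag.BPHyp
import Pool.Agent.P.MP_63735c_ag.ABApp
import Pool.Agent.P.MP_63735c_ag.ABLev
import Pool.Agent.P.MP_63735c_ag.ABMeas
import Pool.Agent.P.MP_c4558b_ag.NLDefs

/-! Objects of the proof of base point freeness (not in any statement). -/

open scoped ComplexOrder ContDiff Matrix Topology ENNReal
open Set Metric MeasureTheory Filter

namespace Pool.Agent.BP

open Pool.Agent.SPF Pool.Agent.AB Pool.Agent.CK Pool.Agent.SE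

variable {N n : ℕ}

/-- The square of the Euclidean norm. -/
noncomputable def nsq (z : E N) : ℝ := ∑ a, ‖z a‖ ^ 2

/-- The real value of a hermitian form on a vector. -/
noncomputable abbrev hr (h : Mat N) (v : E N) : ℝ := (hq h v v).re

/-- `W` is the set where the plurisubharmonic function `ψ` on the ball is finite. -/
structure Pol (z₀ : E N) (R : ℝ) (W : Set (E N)) (ψ : E N → ℝ) : Prop where
  isOpen : IsOpen W
  sub : W ⊆ ball z₀ R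
  smooth : ContDiffOn ℝ ∞ ψ W
  le : ∀ z ∈ W, ψ z ≤ -1
  psh : ∀ z ∈ W, ∀ v, 0 ≤ hr (lev ψ z) v
  closed : ∀ c, ∀ z ∈ ball z₀ R, z ∈ closure {y | y ∈ W ∧ -c ≤ ψ y} → z ∈ W
  ne : (W ∩ ball z₀ (R / 16)).Nonempty

/-- The data of the local potential lemma. -/
structure PotD (z₀ : E N) (R : ℝ) (W : Set (E N)) (ψ : E N → ℝ) (ξ : E N → E N)
    (Ω e : E N → Mat N) (a C : ℝ) : Prop extends Pol z₀ R W ψ where
  a_pos : 0 < a
  ξ_smooth : ContDiffOn ℝ ∞ ξ W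
  Ω_psd : ∀ z ∈ W, (Ω z).PosSemidef
  e_smooth : ∀ b c, ContDiffOn ℝ ∞ (fun z => e z b c) (ball z₀ R)
  e_herm : ∀ z ∈ ball z₀ R, (e z).IsHermitian
  eq : ∀ z ∈ W, ∀ b c, dzb c (fun w => ξ w b) z = a * Ω z b c - e z b c
  bd : ∀ z ∈ W, ∀ v, ‖v ⬝ᵥ ξ z‖ ^ 2 ≤ C * hr (Ω z) v

/-- A proper holomorphic map between open sets. -/
structure Prp (Ω Ω' : Set (E N)) (P : E N → E N) : Prop where
  isOpen : IsOpen Ω
  isOpen' : IsOpen Ω'
  hol : DifferentiableOn ℂ P Ω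
  maps : MapsTo P Ω Ω'
  proper : ∀ C, IsCompact C → C ⊆ Ω' → IsCompact (Ω ∩ P ⁻¹' C)

/-- Regular values. -/
def RV (Ω Ω' : Set (E N)) (P : E N → E N) : Set (E N) :=
  {w | w ∈ Ω' ∧ ∀ z ∈ Ω, P z = w → (jac P z).det ≠ 0}

/-- The sum over a fibre. -/
noncomputable def fsum {F : Type} [AddCommMonoid F] (Ω : Set (E N)) (P : E N → E N) (u : E N → F)
    (w : E N) : F := ∑ᶠ z ∈ Ω ∩ P ⁻¹' {w}, u z

/-- The unit cube. -/
def cube (N : ℕ) : Set (Fin N → ℝ) := univ.pi fun _ => Ico 0 1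

/-- The point with real coordinates `t` in the basis given by the columns of `l`. -/
def lt (l : Matrix (Fin n) (Fin N) ℂ) (t : Fin N → ℝ) : E n := l *ᵥ fun j => (t j : ℂ)

/-- The volume of the period cell. -/
noncomputable def cov (l : Matrix (Fin n) (Fin N) ℂ) : ℝ := volume.real (lt l '' cube N)

/-- The skew form of `H` on the columns of `l`. -/
noncomputable def skw (l : Matrix (Fin n) (Fin N) ℂ) (H : Mat n) : Mat N :=
  Complex.I • (lᵀ * H * l.map star - (lᵀ * H * l.map star)ᵀ)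

variable {X : Type} [TopologicalSpace X]

/-- `W` is the set where the quasi-plurisubharmonic function `ψ` on `X` is finite. -/
structure PolX (A : Atlas X N) (W : Set X) (ψ : X → ℝ) : Prop where
  isOpen : IsOpen W
  ne : W.Nonempty
  smooth : ∀ i, ∀ z ∈ (A.C i).W, A.p i z ∈ W → ContDiffAt ℝ ∞ (fun w => ψ (A.p i w)) z
  le : ∀ x ∈ W, ψ x ≤ -1
  psh : ∃ M : ℝ, 0 ≤ M ∧ ∀ i, ∀ z ∈ (A.C i).W, A.p i z ∈ W → ∀ v,
    -(M * hr ((A.C i).η z) v) ≤ hr (lev (fun w => ψ (A.p i w)) z) v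
  cpt : ∀ c, IsCompact {x | x ∈ W ∧ -c ≤ ψ x}

/-- The Jacobian matrix of `g` in a chart. -/
noncomputable def Jg (A : Atlas X N) (g : X → E n) (i : A.ι) (z : E N) :
    Matrix (Fin n) (Fin N) ℂ := jac (fun w => g (A.p i w)) z

/-- The Hamiltonian fields of the components of `g`, as columns. -/
noncomputable def Vf (A : Atlas X N) (g : X → E n) (i : A.ι) (z : E N) :
    Matrix (Fin N) (Fin n) ℂ := ((A.C i).σ z)⁻¹ * (Jg A g i z)ᵀ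

/-- The integrable system given by the sections (output of part A). -/
structure Sys {A : Atlas X N} (K : Form11 A) (L : Line A) (n : ℕ) where
  U : Set X
  g : X → E n
  φ : X → ℝ
  m : ℕ
  s₀ : A.ι → E N → ℂ
  Φ : X → E n → X
  h : X → Mat n
  hN : N = 2 * n
  n_pos : 1 ≤ n
  inj : ∀ i, InjOn (A.p i) (A.C i).W
  K_pos : ∀ i, ∀ z ∈ (A.C i).W, (K.h i z).PosDef
  U_open : IsOpen U
  m_pos : 1 ≤ m
  sec : L.IsSection m s₀
  U_iff : ∀ i, ∀ z ∈ (A.C i).W, A.p i z ∈ U ↔ s₀ i z ≠ 0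
  φ_eq : ∀ i, ∀ z ∈ (A.C i).W, A.p i z ∈ U →
    Real.exp (-φ (A.p i z)) = ‖s₀ i z‖ ^ 2 * Real.exp (-(m * L.ψ i z))
  φ_smooth : ∀ i, ∀ z ∈ (A.C i).W, A.p i z ∈ U → ContDiffAt ℝ ∞ (fun w => φ (A.p i w)) z
  φ_lev : ∀ i, ∀ z ∈ (A.C i).W, A.p i z ∈ U →
    lev (fun w => φ (A.p i w)) z = (m : ℂ) • (A.C i).η z
  φ_cpt : ∀ c, IsCompact {x | x ∈ U ∧ φ x ≤ c}
  φ_bd : ∃ c, ∀ x ∈ U, c ≤ φ x
  g_hol : ∀ i, ∀ z ∈ (A.C i).W, A.p i z ∈ U → DifferentiableAt ℂ (fun w => g (A.p i w)) z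
  h_eq : ∀ i, ∀ z ∈ (A.C i).W, A.p i z ∈ U →
    h (A.p i z) = (Vf A g i z)ᵀ * K.h i z * (Vf A g i z).map star
  h_le : ∃ C, ∀ x ∈ U, ∀ τ, hr (h x) τ ≤ C * Real.exp (2 * φ x) * ‖τ‖ ^ 2
  poi : ∀ i, ∀ z ∈ (A.C i).W, A.p i z ∈ U → Jg A g i z * Vf A g i z = 0
  null : ∀ i, ∀ z ∈ (A.C i).W, A.p i z ∈ U → (Vf A g i z)ᵀ * (A.C i).η z = 0
  Φ_zero : ∀ x ∈ U, Φ x 0 = x
  Φ_add : ∀ x ∈ U, ∀ τ τ', Φ (Φ x τ) τ' = Φ x (τ + τ')
  Φ_mem : ∀ x ∈ U, ∀ τ, Φ x τ ∈ U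
  g_Φ : ∀ x ∈ U, ∀ τ, g (Φ x τ) = g x
  φ_Φ : ∀ x ∈ U, ∀ τ, φ (Φ x τ) = φ x
  lift : ∀ i, ∀ z ∈ (A.C i).W, A.p i z ∈ U → ∀ τ, ∃ (j : A.ι) (F : E N × E n → E N),
    ∀ᶠ w in 𝓝 (z, τ), DifferentiableAt ℂ F w ∧ F w ∈ (A.C j).W ∧
      A.p j (F w) = Φ (A.p i w.1) w.2 ∧ ∀ τ', fderiv ℂ F w (0, τ') = Vf A g j (F w) *ᵥ τ'
  reg : ∃ x ∈ U, (h x).PosDef ∧ Submodule.span ℝ {τ | Φ x τ = x} = ⊤

variable {A : Atlas X N} {K : Form11 A} {L : Line A}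

/-- The union of the regular compact orbits. -/
def Sys.W (S : Sys K L n) : Set X :=
  {x | x ∈ S.U ∧ (S.h x).PosDef ∧ Submodule.span ℝ {τ | S.Φ x τ = x} = ⊤}

/-- The space of regular compact orbits (output of B1). -/
structure Base (S : Sys K L n) (Y : Type) [TopologicalSpace Y] extends Man Y n where
  f : X → Y
  γ : Y → E n
  s : ι → E n → X
  lam : ι → E n → Matrix (Fin n) (Fin N) ℂ
  cover : ∀ y, ∃ k, ∃ b ∈ W k, p k b = y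
  convex : ∀ k, Convex ℝ (W k)
  γ_p : ∀ k, ∀ b ∈ W k, γ (p k b) = b
  γ_f : ∀ x ∈ S.W, γ (f x) = S.g x
  W_open : IsOpen S.W
  W_inv : ∀ x ∈ S.W, ∀ τ, S.Φ x τ ∈ S.W
  f_cont : ContinuousOn f S.W
  f_open : ∀ O, IsOpen O → O ⊆ S.W → IsOpen (f '' O)
  f_eq : ∀ x ∈ S.W, ∀ y ∈ S.W, f x = f y ↔ ∃ τ, y = S.Φ x τ
  f_proper : ∀ C, IsCompact C → IsCompact (S.W ∩ f ⁻¹' C)
  s_mem : ∀ k, ∀ b ∈ W k, s k b ∈ S.W
  f_s : ∀ k, ∀ b ∈ W k, f (s k b) = p k b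
  s_lift : ∀ k, ∀ b ∈ W k, ∃ (i : A.ι) (F : E n → E N), ∀ᶠ c in 𝓝 b,
    DifferentiableAt ℂ F c ∧ F c ∈ (A.C i).W ∧ A.p i (F c) = s k c
  lam_hol : ∀ k a j, DifferentiableOn ℂ (fun b => lam k b a j) (W k)
  lam_bij : ∀ k, ∀ b ∈ W k, Function.Bijective (lt (lam k b))
  lam_per : ∀ k, ∀ b ∈ W k, ∀ τ, S.Φ (s k b) τ = s k b ↔
    ∃ t : Fin N → ℤ, τ = lt (lam k b) fun j => (t j : ℝ)

namespace Base

variable {S : Sys K L n} {Y : Type} [TopologicalSpace Y] (B : Base S Y)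

/-- A chart around `y`. -/
noncomputable def ch (y : Y) : B.ι := (B.cover y).choose

/-- The torus over `b` in real coordinates. -/
noncomputable def Θ (k : B.ι) (b : E n) (t : Fin N → ℝ) : X := S.Φ (B.s k b) (lt (B.lam k b) t)

/-- The fibre over `y`. -/
def fib (y : Y) : Set X := S.W ∩ B.f ⁻¹' {y}

/-- The invariant probability measure on the fibre. -/
noncomputable def fm [MeasurableSpace X] (y : Y) : Measure X :=
  (volume.restrict (cube N)).map (B.Θ (B.ch y) (B.γ y))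

/-- The covolume of the period lattice. -/
noncomputable def vol (y : Y) : ℝ := cov (B.lam (B.ch y) (B.γ y))

/-- The average of the Kähler form on the fibre. -/
noncomputable def H [MeasurableSpace X] (y : Y) : Mat n :=
  Matrix.of fun a b => ∫ x, S.h x a b ∂B.fm y

/-- The special Kähler metric. -/
noncomputable def om [MeasurableSpace X] (y : Y) : Mat n := (B.H y)⁻¹ᵀ

/-- The function on the base given by an invariant function. -/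
noncomputable def dn {F : Type} (u : X → F) (y : Y) : F := u (B.s (B.ch y) (B.γ y))

/-- The image of the volume measure. -/
noncomputable def ν [MeasurableSpace X] [MeasurableSpace Y] (μ : Measure X) : Measure Y :=
  (μ.restrict S.W).map B.f

end Base

/-- A Riemann domain with a metric `om`, a weight `φ` and an exhaustion `ψ`. -/
structure YD (Y : Type) [TopologicalSpace Y] [MeasurableSpace Y] (n : ℕ) extends Man Y n where
  γ : Y → E n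
  om : Y → Mat n
  φ : Y → ℝ
  ψ : Y → ℝ
  ν : Measure Y
  c₀ : ℝ
  C : ℝ
  n_pos : 1 ≤ n
  cover : ∀ y, ∃ k, ∃ b ∈ W k, p k b = y
  γ_p : ∀ k, ∀ b ∈ W k, γ (p k b) = b
  c₀_pos : 0 < c₀
  C_pos : 0 < C
  fin : IsFiniteMeasure ν
  kah : ∀ k, Kah (W k) fun b => om (p k b)
  ric : ∀ k, ∀ b ∈ W k, ∀ v, hr (lev (fun c => Real.log (om (p k c)).det.re) b) v ≤ 0
  den : toMan.Den ν fun k b => -Real.log (c₀ * (om (p k b)).det.re)
  φ_smo : toMan.Smo φ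
  φ_psh : ∀ k, ∀ b ∈ W k, ∀ v, 0 ≤ hr (toMan.levG φ k b) v
  φ_le : ∀ k, ∀ b ∈ W k, ∀ v, hr (toMan.levG φ k b) v ≤ C * hr (om (p k b)) v
  ψ_smo : toMan.Smo ψ
  ψ_le : ∀ y, ψ y ≤ -1
  ψ_psh : ∀ k, ∀ b ∈ W k, ∀ v, -(C * hr (toMan.levG φ k b) v) ≤ hr (toMan.levG ψ k b) v
  ψ_cpt : ∀ c, IsCompact {y | -c ≤ ψ y}

variable {Y : Type} [TopologicalSpace Y] [MeasurableSpace Y]

/-- A smooth form `ξ` with `dbar ξ = a om - b lev φ` that is bounded for `om` (output of B6). -/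
structure YD.Xi (D : YD Y n) (ξ : Y → E n) (a b C : ℝ) : Prop where
  a_pos : 0 < a
  smo : D.Smo ξ
  eq : ∀ k, ∀ z ∈ D.W k, ∀ c e, dzb e (fun w => ξ (D.p k w) c) z =
    a * D.om (D.p k z) c e - b * D.levG D.φ k z c e
  bd : ∀ y v, ‖v ⬝ᵥ ξ y‖ ^ 2 ≤ C * hr (D.om y) v

/-- The potential (output of part C). -/
structure YD.Pot (D : YD Y n) (G : Y → ℝ) : Prop where
  smo : D.Smo G
  lev : ∃ a b : ℝ, 0 < a ∧ ∀ k, ∀ z ∈ D.W k, ∀ v,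
    a * hr (D.om (D.p k z)) v - b * hr (D.levG D.φ k z) v ≤ hr (D.levG G k z) v
  bd : ∃ c, ∀ y, G y ≤ c
  int : ∀ k : ℝ, Integrable (fun y => Real.exp (-(k * G y)) * -D.ψ y) D.ν

/-- A boundary point of the base with local coordinates and a frame (output of part D). -/
structure YD.Germ (D : YD Y n) where
  O : Set Y
  M : ℕ
  F : Y → E M
  a : E M
  δ : ℝ
  w : Y → ℂ
  d : ℕ
  c : ℝ
  C : ℝ
  isOpen : IsOpen O
  δ_pos : 0 < δ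
  d_pos : 1 ≤ d
  c_pos : 0 < c
  F_hol : ∀ k, ∀ b ∈ D.W k, D.p k b ∈ O → DifferentiableAt ℂ (fun z => F (D.p k z)) b
  closed : IsClosed {y | y ∈ O ∧ nsq (F y - a) ≤ δ}
  F_le : ∀ k, ∀ b ∈ D.W k, D.p k b ∈ O → ∀ v,
    nsq (fderiv ℂ (fun z => F (D.p k z)) b v) ≤ C * hr (D.om (D.p k b)) v
  imm : ∀ ε > 0, ∃ k, ∃ b ∈ D.W k, D.p k b ∈ O ∧ nsq (F (D.p k b) - a) < ε ∧
    Function.Injective (fderiv ℂ (fun z => F (D.p k z)) b)
  w_hol : ∀ k, ∀ b ∈ D.W k, D.p k b ∈ O → DifferentiableAt ℂ (fun z => w (D.p k z)) b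
  w_ge : ∀ y ∈ O, c ≤ ‖w y‖ ^ 2 * Real.exp (-(d * D.φ y))
  w_le : ∀ y ∈ O, ‖w y‖ ^ 2 * Real.exp (-(d * D.φ y)) ≤ C

/-- The base with all the facts of part B. -/
structure Kit [MeasurableSpace X] (S : Sys K L n) (μ : Measure X) (Y : Type) [TopologicalSpace Y]
    [MeasurableSpace Y] extends Base S Y where
  ψ : Y → ℝ
  c₀ : ℝ
  C : ℝ
  c₀_pos : 0 < c₀
  C_pos : 0 < C
  fin : IsFiniteMeasure (toBase.ν μ)
  c_eq : ∀ y, toBase.vol y * (toBase.H y).det.re = c₀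
  kah : ∀ k, Kah (W k) fun b => toBase.om (p k b)
  ric : ∀ k, ∀ b ∈ W k, ∀ v, hr (lev (fun c => Real.log (toBase.om (p k c)).det.re) b) v ≤ 0
  den : toMan.Den (toBase.ν μ) fun k b => -Real.log (c₀ * (toBase.om (p k b)).det.re)
  φ_smo : toMan.Smo (toBase.dn S.φ)
  φ_psh : ∀ k, ∀ b ∈ W k, ∀ v, 0 ≤ hr (toMan.levG (toBase.dn S.φ) k b) v
  φ_le : ∀ k, ∀ b ∈ W k, ∀ v,
    hr (toMan.levG (toBase.dn S.φ) k b) v ≤ C * hr (toBase.om (p k b)) v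
  ψ_smo : toMan.Smo ψ
  ψ_le : ∀ y, ψ y ≤ -1
  ψ_psh : ∀ k, ∀ b ∈ W k, ∀ v,
    -(C * hr (toMan.levG (toBase.dn S.φ) k b) v) ≤ hr (toMan.levG ψ k b) v
  ψ_cpt : ∀ c, IsCompact {y | -c ≤ ψ y}
  pol : PolX A S.W fun x => ψ (f x)

/-- The data on the base. -/
noncomputable def Kit.D [MeasurableSpace X] {S : Sys K L n} {μ : Measure X} (T : Kit S μ Y) :
    YD Y n where
  toMan := T.toMan
  γ := T.γ
  om := T.om
  φ := T.dn S.φ
  ψ := T.ψ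
  ν := T.ν μ
  c₀ := T.c₀
  C := T.C
  n_pos := S.n_pos
  cover := T.cover
  γ_p := T.γ_p
  c₀_pos := T.c₀_pos
  C_pos := T.C_pos
  fin := T.fin
  kah := T.kah
  ric := T.ric
  den := T.den
  φ_smo := T.φ_smo
  φ_psh := T.φ_psh
  φ_le := T.φ_le
  ψ_smo := T.ψ_smo
  ψ_le := T.ψ_le
  ψ_psh := T.ψ_psh
  ψ_cpt := T.ψ_cpt

end Pool.Agent.BP
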