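import Pool.Agent.P.MP_63735c_ag.BPT2
import Pool.Agent.P.MP_63735c_ag.BPT6a

/-! The monotonicity formula: the two measure theoretic steps. -/

open scoped ComplexOrder ContDiff Matrix Topology ENNReal
open Set Metric MeasureTheory Filter

namespace Pool.Agent.BP

open Pool.Agent.SPF Pool.Agent.AB Pool.Agent.CK Pool.Agent.SE Pool.Agent.NL

variable {n : ℕ}

/-- A cutoff that is one up to one and zero from two on. -/
noncomputable def bpt8a_chi (x : ℝ) : ℝ := Real.smoothTransition (2 - x)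

theorem bpt8a_chi_smooth : ContDiff ℝ ∞ bpt8a_chi :=
  Real.smoothTransition.contDiff.comp (contDiff_const.sub contDiff_id)

theorem bpt8a_chi_one {x : ℝ} (h : x ≤ 1) : bpt8a_chi x = 1 :=
  Real.smoothTransition.one_of_one_le (by linarith)

theorem bpt8a_chi_zero {x : ℝ} (h : 2 ≤ x) : bpt8a_chi x = 0 :=
  Real.smoothTransition.zero_of_nonpos (by linarith)

theorem bpt8a_chi_anti : Antitone bpt8a_chi := fun _ _ h =>
  Real.smoothTransition.monotone (by linarith)

/-- A primitive of `chi v * v ^ k`. -/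
noncomputable def bpt8a_A (k : ℕ) (x : ℝ) : ℝ := ∫ v in (0 : ℝ)..x, bpt8a_chi v * v ^ k

theorem bpt8a_A_der (k : ℕ) (x : ℝ) : HasDerivAt (bpt8a_A k) (bpt8a_chi x * x ^ k) x :=
  ((bpt8a_chi_smooth.continuous.mul (continuous_pow k)).integral_hasStrictDerivAt 0 x).hasDerivAt

theorem bpt8a_A_smooth (k : ℕ) : ContDiff ℝ ∞ (bpt8a_A k) := by
  rw [contDiff_infty_iff_deriv]
  refine ⟨fun x => (bpt8a_A_der k x).differentiableAt, ?_⟩
  rw [show deriv (bpt8a_A k) = fun x => bpt8a_chi x * x ^ k from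
    funext fun x => (bpt8a_A_der k x).deriv]
  exact bpt8a_chi_smooth.mul (contDiff_id.pow k)

theorem bpt8a_A_low (k : ℕ) {x : ℝ} (h0 : 0 ≤ x) (h : x ≤ 1) :
    bpt8a_A k x = x ^ (k + 1) / (k + 1) := by
  have : bpt8a_A k x = ∫ v in (0 : ℝ)..x, v ^ k := by
    refine intervalIntegral.integral_congr fun v hv => ?_
    rw [uIcc_of_le h0] at hv
    simp only [bpt8a_chi_one (hv.2.trans h), one_mul]
  rw [this, integral_pow]
  simp

theorem bpt8a_A_high (k : ℕ) {x y : ℝ} (hx : 2 ≤ x) (hy : x ≤ y) : bpt8a_A k y = bpt8a_A k x := by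
  have hc : Continuous fun v => bpt8a_chi v * v ^ k :=
    bpt8a_chi_smooth.continuous.mul (continuous_pow k)
  have h1 := intervalIntegral.integral_add_adjacent_intervals (hc.intervalIntegrable 0 x)
    (hc.intervalIntegrable (μ := volume) x y)
  have h2 : ∫ v in x..y, bpt8a_chi v * v ^ k = ∫ _ in x..y, (0 : ℝ) := by
    refine intervalIntegral.integral_congr fun v hv => ?_
    rw [uIcc_of_le hy] at hv
    simp only [bpt8a_chi_zero (hx.trans hv.1), zero_mul]
  rw [h2] at h1
  simpa [bpt8a_A] using h1.symm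

theorem bpt8a_E (k : ℕ) {x y : ℝ} (hx : 0 ≤ x) (hy : x ≤ y) :
    y ^ (k + 1) * bpt8a_chi y - (k + 1) * bpt8a_A k y ≤
      x ^ (k + 1) * bpt8a_chi x - (k + 1) * bpt8a_A k x := by
  have hd : ∀ u, HasDerivAt (fun u => u ^ (k + 1) * bpt8a_chi u - (k + 1) * bpt8a_A k u)
      (u ^ (k + 1) * deriv bpt8a_chi u) u := by
    intro u
    have h1 := ((hasDerivAt_pow (k + 1) u).mul
      ((bpt8a_chi_smooth.differentiable (by simp)) u).hasDerivAt).sub
      ((bpt8a_A_der k u).const_mul ((k : ℝ) + 1))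
    refine h1.congr_deriv ?_
    simp only [Nat.add_sub_cancel]
    push_cast
    ring
  refine antitoneOn_of_deriv_nonpos (convex_Ici (0 : ℝ))
    (fun u _ => (hd u).continuousAt.continuousWithinAt)
    (fun u _ => (hd u).differentiableAt.differentiableWithinAt) (fun u hu => ?_) hx (hx.trans hy) hy
  rw [interior_Ici] at hu
  rw [(hd u).deriv]
  exact mul_nonpos_of_nonneg_of_nonpos (pow_nonneg (le_of_lt hu) _) (bpt8a_chi_anti.deriv_nonpos)

theorem bpt8a_l (k : ℕ) {s r : ℝ} (hs : 0 < s) (hr : s ≤ r) : ∃ l : ℝ → ℝ, ContDiff ℝ ∞ l ∧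
    (∀ u, 2 * r ≤ u → l u = 0) ∧ ∀ u, 0 ≤ u → deriv l u ≤ 0 ∧
      ((k + 1 : ℕ) : ℝ) * l u + u * deriv l u =
        bpt8a_chi (u / s) / s ^ (k + 1) - bpt8a_chi (u / r) / r ^ (k + 1) := by
  have hr0 : 0 < r := hs.trans_le hr
  have hk : (0 : ℝ) < k + 1 := by positivity
  set c : ℝ := (1 / s ^ (k + 1) - 1 / r ^ (k + 1)) / (k + 1) with hc
  set q : ℝ → ℝ := fun u => (bpt8a_A k (u / s) - bpt8a_A k (u / r)) / u ^ (k + 1) with hq
  set l : ℝ → ℝ := fun u => if u ≤ s / 2 then c else q u with hl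
  have hdiv : ∀ u, 0 ≤ u → u / r ≤ u / s := fun u hu => div_le_div_of_nonneg_left hu hs hr
  have hlow : ∀ u, u < s → l =ᶠ[𝓝 u] fun _ => c := by
    intro u hu
    filter_upwards [Iio_mem_nhds hu] with v hv
    by_cases h : v ≤ s / 2
    · simp only [hl, if_pos h]
    · have hv0 : 0 < v := by linarith [not_le.1 h]
      have h1 : v / s ≤ 1 := (div_le_one hs).2 (le_of_lt hv)
      simp only [hl, if_neg h, hq, hc]
      rw [bpt8a_A_low k (by positivity) h1,
        bpt8a_A_low k (by positivity) ((hdiv v hv0.le).trans h1), div_pow, div_pow]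
      field_simp
  have hhigh : ∀ u, s / 2 < u → l =ᶠ[𝓝 u] q := by
    intro u hu
    filter_upwards [Ioi_mem_nhds hu] with v hv
    simp only [hl, if_neg (not_le.2 (mem_Ioi.1 hv))]
  have hqd : ∀ u, 0 < u → HasDerivAt q
      (((u / s) ^ (k + 1) * bpt8a_chi (u / s) - (k + 1) * bpt8a_A k (u / s) -
        ((u / r) ^ (k + 1) * bpt8a_chi (u / r) - (k + 1) * bpt8a_A k (u / r))) / u ^ (k + 2)) u := by
    intro u hu
    have h1 := ((((bpt8a_A_der k (u / s)).comp u ((hasDerivAt_id u).div_const s)).sub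
      ((bpt8a_A_der k (u / r)).comp u ((hasDerivAt_id u).div_const r))).div
      (hasDerivAt_pow (k + 1) u) (by positivity))
    refine h1.congr_deriv ?_
    simp only [Nat.add_sub_cancel, Function.comp, Pi.sub_apply, id, div_pow]
    push_cast
    field_simp
    ring
  refine ⟨l, contDiff_iff_contDiffAt.2 fun u => ?_, fun u hu => ?_, fun u hu => ?_⟩
  · by_cases h : u < s
    · exact contDiffAt_const.congr_of_eventuallyEq (hlow u h)
    · have hu : s / 2 < u := by linarith [not_lt.1 h]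
      refine ContDiffAt.congr_of_eventuallyEq ?_ (hhigh u hu)
      have hu0 : 0 < u := by linarith
      exact (((bpt8a_A_smooth k).comp (contDiff_id.div_const s)).sub
        ((bpt8a_A_smooth k).comp (contDiff_id.div_const r))).contDiffAt.div
        (contDiff_id.pow (k + 1)).contDiffAt (by simpa using hu0.ne')
  · have h1 : ¬u ≤ s / 2 := not_le.2 (by linarith)
    simp only [hl, if_neg h1, hq]
    rw [bpt8a_A_high k ((le_div_iff₀ hr0).2 hu) (hdiv u (by linarith))]
    simp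
  · by_cases h : u < s
    · have h1 : u / s ≤ 1 := (div_le_one hs).2 h.le
      rw [(hlow u h).deriv_eq, (hlow u h).self_of_nhds, deriv_const, bpt8a_chi_one h1,
        bpt8a_chi_one ((hdiv u hu).trans h1), hc]
      refine ⟨le_rfl, ?_⟩
      push_cast
      field_simp
      ring
    · have hu1 : s / 2 < u := by linarith [not_lt.1 h]
      have hu0 : 0 < u := by linarith
      rw [(hhigh u hu1).deriv_eq, (hhigh u hu1).self_of_nhds, (hqd u hu0).deriv]
      refine ⟨div_nonpos_of_nonpos_of_nonneg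
        (sub_nonpos.2 (bpt8a_E k (by positivity) (hdiv u hu))) (by positivity), ?_⟩
      simp only [hq, div_pow]
      push_cast
      field_simp
      ring

theorem bpt8a_bd {f : ℝ → ℝ} (hf : Continuous f) {t : ℝ} (h : ∀ u, t < u → f u = 0) :
    ∃ C, ∀ u, 0 ≤ u → ‖f u‖ ≤ C := by
  obtain ⟨C, hC⟩ := (isCompact_Icc (a := (0 : ℝ)) (b := t)).exists_bound_of_continuousOn
    hf.continuousOn
  refine ⟨max C 0, fun u hu => ?_⟩
  by_cases h1 : u ≤ t
  · exact (hC u ⟨hu, h1⟩).trans (le_max_left _ _)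
  · rw [h u (not_le.1 h1), norm_zero]
    exact le_max_right _ _

theorem mon_zero {Z : Type} [MeasurableSpace Z] {m : Measure Z} {φ D Q : Z → ℝ} {t₀ : ℝ}
    (hφ : Measurable φ) (hD : Integrable D m) (hQ : AEStronglyMeasurable Q m)
    (h0 : ∀ᵐ x ∂m, 0 ≤ φ x ∧ 0 ≤ D x ∧ 0 ≤ Q x ∧ Q x ≤ φ x * D x)
    (h : ∀ l : ℝ → ℝ, ContDiff ℝ ∞ l → (∃ t < t₀, ∀ s, t ≤ s → l s = 0) →
      n * ∫ x, l (φ x) * D x ∂m + ∫ x, deriv l (φ x) * Q x ∂m = 0)
    {s t : ℝ} (hs : 0 < s) (hst : s ≤ t) (ht : t < t₀) :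
    (t / (2 * s)) ^ n * ∫ x in {x | φ x < s}, D x ∂m ≤ ∫ x in {x | φ x < t}, D x ∂m := by
  have hD0 : ∀ᵐ x ∂m, 0 ≤ D x := h0.mono fun x hx => hx.2.1
  have hm : ∀ u : ℝ, MeasurableSet {x | φ x < u} := fun u => measurableSet_lt hφ measurable_const
  have hp : 0 ≤ ∫ x in {x | φ x < s}, D x ∂m := integral_nonneg_of_ae (ae_restrict_of_ae hD0)
  have hmono : ∫ x in {x | φ x < s}, D x ∂m ≤ ∫ x in {x | φ x < t}, D x ∂m :=
    setIntegral_mono_set hD.integrableOn (ae_restrict_of_ae hD0)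
      (LE.le.eventuallyLE fun x (hx : φ x < s) => lt_of_lt_of_le hx hst)
  by_cases h2 : t ≤ 2 * s
  · refine le_trans ?_ hmono
    exact mul_le_of_le_one_left hp
      (pow_le_one₀ (by have := hs.trans_le hst; positivity) ((div_le_one (by positivity)).2 h2))
  obtain _ | k := n
  · simpa using hmono
  have ht0 : 0 < t := hs.trans_le hst
  obtain ⟨l, hl, hz, hd⟩ := bpt8a_l k hs (show s ≤ t / 2 by linarith [not_le.1 h2])
  have hz' : ∀ u, t ≤ u → l u = 0 := fun u hu => hz u (by linarith)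
  have h3 := h l hl ⟨t, ht, hz'⟩
  have hl' : Continuous (deriv l) := hl.continuous_deriv (by simp)
  obtain ⟨C₁, hC₁⟩ := bpt8a_bd hl.continuous fun u hu => hz' u hu.le
  obtain ⟨C₂, hC₂⟩ := bpt8a_bd (f := fun u => u * deriv l u) (continuous_id.mul hl') (t := t)
    fun u hu => by
      have : l =ᶠ[𝓝 u] fun _ => 0 := by
        filter_upwards [Ioi_mem_nhds hu] with v hv using hz' v (le_of_lt hv)
      simp only [this.deriv_eq, deriv_const, mul_zero]
  have i1 : Integrable (fun x => l (φ x) * D x) m :=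
    hD.bdd_mul (c := C₁) (hl.continuous.measurable.comp hφ).aestronglyMeasurable
      (h0.mono fun x hx => hC₁ _ hx.1)
  have i2 : Integrable (fun x => deriv l (φ x) * Q x) m := by
    refine (hD.const_mul C₂).mono' ((hl'.measurable.comp hφ).aestronglyMeasurable.mul hQ)
      (h0.mono fun x hx => ?_)
    have a1 := hC₂ _ hx.1
    rw [norm_mul, Real.norm_of_nonneg hx.1] at a1
    rw [norm_mul, Real.norm_of_nonneg hx.2.2.1]
    calc _ ≤ ‖deriv l (φ x)‖ * (φ x * D x) := mul_le_mul_of_nonneg_left hx.2.2.2 (norm_nonneg _)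
      _ = φ x * ‖deriv l (φ x)‖ * D x := by ring
      _ ≤ _ := mul_le_mul_of_nonneg_right a1 hx.2.1
  have i3 := ((hD.indicator (hm s)).const_mul (1 / s ^ (k + 1))).sub
    ((hD.indicator (hm t)).const_mul (1 / (t / 2) ^ (k + 1)))
  have h4 := integral_mono_ae i3 ((i1.const_mul ((k + 1 : ℕ) : ℝ)).add i2) (h0.mono fun x hx => by
    obtain ⟨a1, a2⟩ := hd _ hx.1
    have a3 : deriv l (φ x) * (φ x * D x) ≤ deriv l (φ x) * Q x :=
      mul_le_mul_of_nonpos_left hx.2.2.2 a1
    have a4 : indicator {x | φ x < s} D x ≤ bpt8a_chi (φ x / s) * D x := by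
      by_cases a : φ x < s
      · rw [indicator_of_mem (by exact a), bpt8a_chi_one ((div_le_one hs).2 a.le), one_mul]
      · rw [indicator_of_notMem (by exact a)]
        exact mul_nonneg (Real.smoothTransition.nonneg _) hx.2.1
    have a5 : bpt8a_chi (φ x / (t / 2)) * D x ≤ indicator {x | φ x < t} D x := by
      by_cases a : φ x < t
      · rw [indicator_of_mem (by exact a)]
        exact mul_le_of_le_one_left hx.2.1 (Real.smoothTransition.le_one _)
      · rw [indicator_of_notMem (by exact a), bpt8a_chi_zero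
          ((le_div_iff₀ (by positivity)).2 (by linarith [not_lt.1 a])), zero_mul]
    have a6 := mul_le_mul_of_nonneg_left a4 (show 0 ≤ 1 / s ^ (k + 1) by positivity)
    have a7 := mul_le_mul_of_nonneg_left a5 (show 0 ≤ 1 / (t / 2) ^ (k + 1) by positivity)
    have a8 : (((k + 1 : ℕ) : ℝ) * l (φ x) + φ x * deriv l (φ x)) * D x =
        1 / s ^ (k + 1) * (bpt8a_chi (φ x / s) * D x) -
          1 / (t / 2) ^ (k + 1) * (bpt8a_chi (φ x / (t / 2)) * D x) := by
      rw [a2]
      ring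
    simp only [Pi.add_apply, Pi.sub_apply]
    nlinarith)
  rw [integral_sub' ((hD.indicator (hm s)).const_mul _) ((hD.indicator (hm t)).const_mul _),
    integral_add' (i1.const_mul _) i2, integral_const_mul, integral_const_mul, integral_const_mul,
    integral_indicator (hm s), integral_indicator (hm t), h3, sub_nonpos] at h4
  have h5 := mul_le_mul_of_nonneg_left h4 (show 0 ≤ (t / 2) ^ (k + 1) by positivity)
  calc _ = (t / 2) ^ (k + 1) * (1 / s ^ (k + 1) * ∫ x in {x | φ x < s}, D x ∂m) := by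
        simp only [div_pow, mul_pow]
        field_simp
    _ ≤ _ := h5
    _ = _ := by field_simp

theorem bpt8a_add {M : ℕ} (a b : E M) : nsq (a + b) ≤ 2 * nsq a + 2 * nsq b := by
  simp only [nsq, Finset.mul_sum, ← Finset.sum_add_distrib]
  refine Finset.sum_le_sum fun i _ => ?_
  have h1 := pow_le_pow_left₀ (norm_nonneg _) (norm_add_le (a i) (b i)) 2
  rw [Pi.add_apply]
  nlinarith [sq_nonneg (‖a i‖ - ‖b i‖)]

theorem bpt8a_root {G : Mat n} (hG : G.PosDef) : ∃ A : Mat n, IsUnit A.det ∧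
    G.det.re = ‖A.det‖ ^ 2 ∧ ∀ v, hr G v = nsq (A *ᵥ v) := by
  open scoped MatrixOrder in
  obtain ⟨B, hB⟩ := CStarAlgebra.nonneg_iff_eq_star_mul_self.1 hG.posSemidef.nonneg
  have h1 : G = (B.map star)ᵀ * 1 * (B.map star).map star := by
    rw [hB, mul_one]
    congr 1
    ext a b
    simp
  have h2 : (B.map star).det = star B.det := by
    rw [← Matrix.det_transpose, ← Matrix.det_conjTranspose]
    rfl
  have h3 : G.det = star B.det * B.det := by
    rw [hB, Matrix.det_mul, Matrix.star_eq_conjTranspose, Matrix.det_conjTranspose]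
  refine ⟨B.map star, ?_, ?_, fun v => ?_⟩
  · rw [h2]
    exact (left_ne_zero_of_mul (h3 ▸ hG.det_pos.ne')).isUnit
  · rw [h2, h3, norm_star, Complex.star_def, Complex.conj_mul']
    norm_cast
  · rw [h1, hr, hq_conj, hq, Matrix.one_mulVec, dotProduct, Complex.re_sum, nsq]
    refine Finset.sum_congr rfl fun a _ => ?_
    rw [Pi.star_apply, Complex.star_def, Complex.mul_conj']
    norm_cast

theorem bpt8a_vol {A : Mat n} (hA : IsUnit A.det) (p : E n) {r : ℝ} (h : 0 < r) :
    volume.real {z : E n | A *ᵥ (z - p) ∈ ball (0 : E n) r} =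
      (‖A.det‖ ^ 2)⁻¹ * ((r ^ 2) ^ n * volume.real (ball (0 : E n) 1)) := by
  set T : E n →L[ℂ] E n := LinearMap.toContinuousLinearMap A.mulVecLin with hT
  have h1 : jac T 0 = A := by
    ext c a
    rw [jac, Matrix.of_apply, T.fderiv]
    simp [hT]
  have h2 := real_det (P := T) (z := 0) T.differentiableAt
  rw [h1, (T.hasFDerivAt.restrictScalars ℝ).fderiv] at h2
  have h3 : (0 : ℝ) < ‖A.det‖ ^ 2 := pow_pos (norm_pos_iff.2 hA.ne_zero) 2
  have h4 : {z : E n | A *ᵥ (z - p) ∈ ball (0 : E n) r} =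
      (fun z => z + -p) ⁻¹' ((T.restrictScalars ℝ) ⁻¹' ball 0 r) := by
    ext z
    simp [hT, sub_eq_add_neg]
  have h5 : Module.finrank ℝ (E n) = 2 * n := by
    rw [Module.finrank_pi_fintype]
    simp [mul_comm]
  rw [ContinuousLinearMap.det] at h2
  rw [measureReal_def, h4, measure_preimage_add_right,
    Measure.addHaar_preimage_continuousLinearMap _ (h2 ▸ h3.ne'), h2,
    Measure.addHaar_ball_of_pos _ _ h, h5, ENNReal.toReal_mul, ENNReal.toReal_mul,
    ENNReal.toReal_ofReal (abs_nonneg _), ENNReal.toReal_ofReal (by positivity),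
    abs_of_pos (inv_pos.2 h3), pow_mul, measureReal_def]

theorem mon_two (n : ℕ) : ∃ c : ℝ, 0 < c ∧ ∀ (M : ℕ) (F : E n → E M) (p : E n) (O : Set (E n)),
    IsOpen O → p ∈ O → DifferentiableOn ℂ F O → Function.Injective (fderiv ℂ F p) →
    ∀ᶠ s in 𝓝[>] (0 : ℝ), ∃ S, MeasurableSet S ∧ S ⊆ O ∧ (∀ z ∈ S, nsq (F z - F p) < s) ∧
      IntegrableOn (fun z => (lev (fun w => nsq (F w - F p)) z).det.re) S volume ∧
      c * s ^ n ≤ ∫ z in S, (lev (fun w => nsq (F w - F p)) z).det.re := by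
  have hω : 0 < volume.real (ball (0 : E n) 1) :=
    ENNReal.toReal_pos (measure_ball_pos _ _ one_pos).ne' measure_ball_lt_top.ne
  refine ⟨(1 / (4 * (n + 1))) ^ n * volume.real (ball (0 : E n) 1) / 2, by positivity,
    fun M F p O hO hp hF hi => ?_⟩
  have hd : ∀ z ∈ O, ∀ᶠ w in 𝓝 z, DifferentiableAt ℂ (fun w => F w - F p) w := fun z hz => by
    filter_upwards [hO.mem_nhds hz] with w hw using
      (hF.differentiableAt (hO.mem_nhds hw)).sub_const _
  set φ : E n → ℝ := fun w => nsq (F w - F p) with hφ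
  have hs : ContDiffOn ℝ ∞ φ O := fun z hz => (lev_nsq (hd z hz)).1.contDiffWithinAt
  have hc : ContinuousOn (fun z => (lev φ z).det.re) O :=
    Complex.continuous_re.comp_continuousOn (abcal_det (lev_smooth hO hs)).continuousOn
  have hL : ∀ v, hr (lev φ p) v = nsq (fderiv ℂ F p v) := fun v => by
    rw [(lev_nsq (hd p hp)).2.2.2 v, fderiv_sub_const]
  have hG : (lev φ p).PosDef := by
    refine posDef_of_hq (lev_herm (lev_nsq (hd p hp)).1) fun u hu => ?_
    refine lt_of_lt_of_le ?_ ((nsq_le _).1.trans (hL u).ge)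
    exact pow_pos (norm_pos_iff.2 fun e => hu (hi (e.trans (map_zero _).symm))) 2
  obtain ⟨A, hA, hdet, hnsq⟩ := bpt8a_root hG
  have h3 : (0 : ℝ) < ‖A.det‖ ^ 2 := pow_pos (norm_pos_iff.2 hA.ne_zero) 2
  obtain ⟨C, hC, hb⟩ : ∃ C : ℝ, 0 < C ∧ ∀ v : E n, ‖v‖ ≤ C * ‖A *ᵥ v‖ := by
    obtain ⟨C, hC, hb⟩ := (LinearMap.toContinuousLinearMap A⁻¹.mulVecLin).bound
    refine ⟨C, hC, fun v => ?_⟩
    have := hb (A *ᵥ v)
    rwa [LinearMap.coe_toContinuousLinearMap', Matrix.mulVecLin_apply, Matrix.mulVec_mulVec,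
      Matrix.nonsing_inv_mul _ hA, Matrix.one_mulVec] at this
  have e1 := (hF.differentiableAt (hO.mem_nhds hp)).hasFDerivAt.isLittleO.def
    (show 0 < 1 / ((M + 1 : ℝ) * C) by positivity)
  have e2 : ∀ᶠ z in 𝓝 p, ‖A.det‖ ^ 2 / 2 < (lev φ z).det.re :=
    (hc.continuousAt (hO.mem_nhds hp)).eventually (lt_mem_nhds (by simp only [hdet]; linarith))
  obtain ⟨ρ, hρ, hB⟩ := nhds_basis_closedBall.mem_iff.1 ((e1.and e2).and (hO.mem_nhds hp))
  have e3 : ∀ᶠ s in 𝓝 (0 : ℝ), C * √(s / (4 * (n + 1))) < ρ := by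
    have : Continuous fun s : ℝ => C * √(s / (4 * (n + 1))) := by fun_prop
    exact this.continuousAt.eventually (gt_mem_nhds (by simpa using hρ))
  filter_upwards [self_mem_nhdsWithin, nhdsWithin_le_nhds e3] with s hs0 hsρ
  replace hs0 : 0 < s := hs0
  set r := √(s / (4 * (n + 1))) with hr'
  have hr0 : 0 < r := Real.sqrt_pos.2 (by positivity)
  have hr2 : r ^ 2 = s / (4 * (n + 1)) := Real.sq_sqrt (by positivity)
  set S := {z : E n | A *ᵥ (z - p) ∈ ball (0 : E n) r} with hS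
  have hm : MeasurableSet S :=
    (isOpen_ball.preimage (continuous_const.matrix_mulVec
      (continuous_id.sub continuous_const))).measurableSet
  have hsub : S ⊆ closedBall p ρ := fun z hz => by
    rw [mem_closedBall, dist_eq_norm]
    exact (hb _).trans ((mul_le_mul_of_nonneg_left (mem_ball_zero_iff.1 hz).le hC.le).trans hsρ.le)
  have hint : IntegrableOn (fun z => (lev φ z).det.re) S volume :=
    ((hc.mono fun z hz => (hB hz).2).integrableOn_compact (isCompact_closedBall p ρ)).mono_set hsub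
  refine ⟨S, hm, fun z hz => (hB (hsub hz)).2, fun z hz => ?_, hint, ?_⟩
  · have a0 : ‖A *ᵥ (z - p)‖ ≤ r := (mem_ball_zero_iff.1 hz).le
    have a1 : nsq (fderiv ℂ F p (z - p)) ≤ n * r ^ 2 := by
      rw [← hL, hnsq]
      exact (nsq_le _).2.trans (by gcongr)
    have a2 : ‖F z - F p - fderiv ℂ F p (z - p)‖ ≤ r / (M + 1) := by
      refine (hB (hsub hz)).1.1.trans ?_
      calc _ ≤ 1 / ((M + 1 : ℝ) * C) * (C * r) := by
            gcongr
            exact (hb _).trans (by gcongr)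
        _ = _ := by field_simp
    have a3 : nsq (F z - F p - fderiv ℂ F p (z - p)) ≤ r ^ 2 := by
      refine (nsq_le _).2.trans ?_
      calc _ ≤ (M + 1 : ℝ) ^ 2 * (r / (M + 1)) ^ 2 := by
            gcongr
            nlinarith [Nat.cast_nonneg (α := ℝ) M]
        _ = _ := by field_simp
    have a4 := bpt8a_add (F z - F p - fderiv ℂ F p (z - p)) (fderiv ℂ F p (z - p))
    rw [sub_add_cancel] at a4
    have a5 : 2 * r ^ 2 + 2 * (n * r ^ 2) = s / 2 := by
      rw [hr2]
      field_simp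
      ring
    linarith
  · have a1 : volume S ≠ ⊤ :=
      ((measure_mono hsub).trans_lt (isCompact_closedBall p ρ).measure_lt_top).ne
    have a2 := setIntegral_mono_on (integrableOn_const (C := ‖A.det‖ ^ 2 / 2) a1) hint hm
      fun z hz => (hB (hsub hz)).1.2.le
    rw [setIntegral_const, hS, bpt8a_vol hA p hr0, hr2, smul_eq_mul] at a2
    refine le_trans (le_of_eq ?_) a2
    have a3 := norm_ne_zero_iff.2 hA.ne_zero
    simp only [div_pow, one_pow]
    field_simp

end Pool.Agent.BP
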