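import Pool.Agent.P.MP_63735c_ag.BPE0

/-! The truncated logarithmic weight. -/

open scoped ComplexOrder ContDiff Matrix Topology ENNReal
open Set Metric MeasureTheory Filter

namespace Pool.Agent.BP

open Pool.Agent.SPF Pool.Agent.CL Pool.Agent.NL Pool.Agent.CK Pool.Agent.AB Pool.Agent.SE

variable {N : ℕ} {X : Type} [TopologicalSpace X] [MeasurableSpace X] {A : Atlas X N}
  {μ : Measure X} {L : Line A} {U : Up A μ L} {x : X}

theorem rho_smooth : ContDiff ℝ ∞ rho := by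
  exact contDiff_id.mul (Real.smoothTransition.contDiff.comp contDiff_neg)

theorem rho_bd (s : ℝ) : rho s ≤ 0 ∧ rho s ≤ s + 1 ∧ (rho s < 0 → s ≤ rho s) ∧
    (0 ≤ s → rho s = 0) := by
  have h0 := Real.smoothTransition.nonneg (-s)
  have h1 := Real.smoothTransition.le_one (-s)
  have h2 : 0 ≤ s → rho s = 0 := fun h => by
    rw [rho, Real.smoothTransition.zero_of_nonpos (by linarith), mul_zero]
  have h3 : rho s ≤ 0 := by
    rcases le_total 0 s with h | h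
    · exact (h2 h).le
    · exact mul_nonpos_of_nonpos_of_nonneg h h0
  refine ⟨h3, ?_, fun h => ?_, h2⟩
  · rcases le_total s (-1) with h | h
    · rw [rho, Real.smoothTransition.one_of_one_le (by linarith)]
      linarith
    · linarith
  · have h4 : s < 0 := lt_of_not_ge fun h' => h.ne (h2 h')
    unfold rho
    nlinarith

theorem rho_deriv : ∃ D : ℝ, 0 ≤ D ∧ ∀ s, 0 ≤ deriv rho s ∧ -D ≤ deriv (deriv rho) s ∧
    (s < -1 → deriv (deriv rho) s = 0) := by
  have hm : Monotone rho := by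
    intro a b hab
    rcases le_total 0 b with h | h
    · rw [(rho_bd b).2.2.2 h]
      exact (rho_bd a).1
    · have h0 := Real.smoothTransition.nonneg (-a)
      have h1 := Real.smoothTransition.monotone (neg_le_neg hab)
      unfold rho
      nlinarith
  have h1 : ContDiff ℝ ∞ (deriv rho) := (contDiff_infty_iff_deriv.1 rho_smooth).2
  obtain ⟨D, hD⟩ := (isCompact_Icc (a := (-1 : ℝ)) (b := 0)).exists_bound_of_continuousOn
    (h1.continuous_deriv (by simp)).continuousOn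
  have h2 : ∀ s < -1, deriv (deriv rho) s = 0 := by
    intro s hs
    have e : rho =ᶠ[𝓝 s] id := (eventually_lt_nhds hs).mono fun t ht => by
      rw [rho, Real.smoothTransition.one_of_one_le (by linarith), mul_one, id]
    rw [e.deriv.deriv_eq, deriv_id', deriv_const]
  have h3 : ∀ s > 0, deriv (deriv rho) s = 0 := by
    intro s hs
    have e : rho =ᶠ[𝓝 s] fun _ => 0 := (eventually_gt_nhds hs).mono fun t ht =>
      (rho_bd t).2.2.2 ht.le
    rw [e.deriv.deriv_eq, deriv_const', deriv_const]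
  refine ⟨|D|, abs_nonneg D, fun s => ⟨hm.deriv_nonneg, ?_, h2 s⟩⟩
  rcases lt_or_ge s (-1) with h | h
  · rw [h2 s h]
    exact neg_nonpos.2 (abs_nonneg D)
  rcases lt_or_ge 0 s with h' | h'
  · rw [h3 s h']
    exact neg_nonpos.2 (abs_nonneg D)
  exact (abs_le.1 ((hD s ⟨h, h'⟩).trans (le_abs_self D))).1

theorem UG.lam_bd (H : UG U x) (c : E H.M) (ε : ℝ) (y : X) : H.lam c ε y ≤ 0 ∧
    (y ∈ H.O → H.lam c ε y ≤ Real.log ((H.t c y + ε) / H.τ) + 1) ∧
    (H.lam c ε y < 0 → y ∈ H.O ∧ Real.log ((H.t c y + ε) / H.τ) ≤ H.lam c ε y) := by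
  by_cases hy : y ∈ H.O
  · rw [UG.lam, indicator_of_mem hy]
    exact ⟨(rho_bd _).1, fun _ => (rho_bd _).2.1, fun h => ⟨hy, (rho_bd _).2.2.1 h⟩⟩
  · rw [UG.lam, indicator_of_notMem hy]
    exact ⟨le_rfl, fun h => (hy h).elim, fun h => (lt_irrefl _ h).elim⟩

lemma bpe1_der {τ ε t : ℝ} (hτ : 0 < τ) (ht : 0 < t + ε) :
    HasDerivAt (fun t => rho (Real.log ((t + ε) / τ)))
      (deriv rho (Real.log ((t + ε) / τ)) * (t + ε)⁻¹) t ∧
    HasDerivAt (fun t => deriv rho (Real.log ((t + ε) / τ)) * (t + ε)⁻¹)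
      ((deriv (deriv rho) (Real.log ((t + ε) / τ)) - deriv rho (Real.log ((t + ε) / τ))) *
        (t + ε)⁻¹ ^ 2) t := by
  have h1 : HasDerivAt (fun t => Real.log ((t + ε) / τ)) (t + ε)⁻¹ t := by
    have h := (((hasDerivAt_id' t).add_const ε).div_const τ).log (div_pos ht hτ).ne'
    convert h using 1
    field_simp
  have h2 : ContDiff ℝ ∞ (deriv rho) := (contDiff_infty_iff_deriv.1 rho_smooth).2
  refine ⟨(rho_smooth.differentiable (by simp) _).hasDerivAt.comp t h1, ?_⟩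
  have h3 := ((h2.differentiable (by simp) _).hasDerivAt.comp t h1).fun_mul
    (((hasDerivAt_id' t).add_const ε).fun_inv ht.ne')
  refine HasDerivAt.congr_deriv h3 ?_
  simp only [Function.comp_def]
  field_simp
  ring

lemma bpe1_ineq {T r₁ r₂ P Q B : ℝ} (hT : 0 < T) (h1 : 0 ≤ r₁) (hQ : 0 ≤ Q) (h : Q ≤ T * P)
    (hB : 0 ≤ B) (h2 : -(B * T) ≤ r₂) :
    -(B * P) ≤ r₁ * T⁻¹ * P + (r₂ - r₁) * T⁻¹ ^ 2 * Q := by
  obtain ⟨q, rfl⟩ : ∃ q, Q = T * q := ⟨Q / T, by field_simp⟩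
  obtain ⟨r, rfl⟩ : ∃ r, r₂ = r * T := ⟨r₂ / T, by field_simp⟩
  have h3 : q ≤ P := le_of_mul_le_mul_left h hT
  have h4 : 0 ≤ q := nonneg_of_mul_nonneg_right hQ hT
  have h5 : -B ≤ r := le_of_mul_le_mul_right (by linarith) hT
  have h6 : r₁ * T⁻¹ * P + (r * T - r₁) * T⁻¹ ^ 2 * (T * q) = r₁ * T⁻¹ * (P - q) + r * q := by
    field_simp
    ring
  have h7 : 0 ≤ r₁ * T⁻¹ * (P - q) := by
    have := sub_nonneg.2 h3
    positivity
  rw [h6]
  nlinarith

theorem UG.lam_lev (H : UG U x) : ∃ C₁ : ℝ, 0 ≤ C₁ ∧ ∀ (c : E H.M) (ε : ℝ),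
    ‖c - H.a‖ ≤ H.δ / 2 → 0 < ε → U.D.Smo (H.lam c ε) ∧ ∀ i, ∀ z ∈ U.D.W i, ∀ v,
      -(C₁ * U.th i z v) ≤ (hq (lev (fun y => H.lam c ε (A.p i y)) z) v v).re := by
  obtain ⟨D, hD0, hD⟩ := rho_deriv
  have hτ := H.τ_pos
  have hC := H.C_pos
  refine ⟨D * Real.exp 1 / H.τ * (H.M * H.C), by positivity, fun c ε hc hε => ?_⟩
  have ht0 : ∀ y, 0 ≤ H.t c y := fun y => (sq_nonneg _).trans (norm_sq_le_nsq _)
  have h0 : ∀ y ∈ H.O, H.δ < ‖H.F y - H.a‖ → rho (Real.log ((H.t c y + ε) / H.τ)) = 0 := by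
    intro y _ hy
    refine (rho_bd _).2.2.2 (Real.log_nonneg ((one_le_div hτ).2 ?_))
    have h1 : H.δ / 2 ≤ ‖H.F y - c‖ := by
      linarith [norm_sub_le_norm_sub_add_norm_sub (H.F y) c H.a]
    have h2 : ‖H.F y - c‖ ^ 2 ≤ H.t c y := norm_sq_le_nsq _
    have h3 := H.δ_pos
    unfold UG.τ
    nlinarith
  constructor
  · intro i z hz
    rcases H.ind h0 hz with ⟨h1, -, h2⟩ | ⟨-, h2⟩
    · refine (ContDiffAt.congr_of_eventuallyEq ?_ h2).contDiffWithinAt
      exact rho_smooth.contDiffAt.comp z ((((H.t_calc c hz.1 h1).1.add contDiffAt_const).div_const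
        _).log (div_pos (add_pos_of_nonneg_of_pos (ht0 _) hε) hτ).ne')
    · exact (contDiffAt_const.congr_of_eventuallyEq h2).contDiffWithinAt
  intro i z hz v
  have hth : 0 ≤ U.th i z v := U.G_lev i z hz.1 hz.2 v
  rcases H.ind h0 hz with ⟨h1, -, h2⟩ | ⟨-, h2⟩
  swap
  · rw [UG.lam, (lev_congr h2).self_of_nhds, lev_const, hq_zero, Complex.zero_re]
    exact neg_nonpos.2 (by positivity)
  obtain ⟨t1, t2⟩ := H.t_calc c hz.1 h1
  obtain ⟨t2, t3, t4⟩ := t2 v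
  have hp : 0 < H.t c (A.p i z) + ε := add_pos_of_nonneg_of_pos (ht0 _) hε
  have hev : ∀ᶠ t in 𝓝 (H.t c (A.p i z)), 0 < t + ε :=
    (continuous_add_const ε).continuousAt.eventually (eventually_gt_nhds hp)
  rw [UG.lam, (lev_congr h2).self_of_nhds,
    lev_chain (f := fun y => H.t c (A.p i y)) (hev.mono fun t ht => (bpe1_der hτ ht).1)
      (bpe1_der hτ hp).2 t1]
  obtain ⟨d1, d2, d3⟩ := hD (Real.log ((H.t c (A.p i z) + ε) / H.τ))
  refine le_trans ?_ (bpe1_ineq (B := D * Real.exp 1 / H.τ) hp d1 (sq_nonneg _)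
    (t2.trans (mul_le_mul_of_nonneg_right (le_add_of_nonneg_right hε.le) t3))
    (by positivity) ?_)
  · rw [mul_assoc, neg_le_neg_iff]
    exact mul_le_mul_of_nonneg_left t4 (by positivity)
  rcases lt_or_ge (Real.log ((H.t c (A.p i z) + ε) / H.τ)) (-1) with h | h
  · rw [d3 h]
    exact neg_nonpos.2 (by positivity)
  refine le_trans (neg_le_neg ?_) d2
  rw [Real.le_log_iff_exp_le (div_pos hp hτ), Real.exp_neg,
    inv_le_iff_one_le_mul₀ (Real.exp_pos 1)] at h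
  calc D = D * 1 := (mul_one D).symm
    _ ≤ D * ((H.t c (A.p i z) + ε) / H.τ * Real.exp 1) := mul_le_mul_of_nonneg_left h hD0
    _ = _ := by ring

end Pool.Agent.BP
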