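import Pool.Agent.P.MP_63735c_ag.SPTest

/-! A smooth plurisubharmonic function on the whole space that is bounded above is constant. -/

open Set Filter Topology
open scoped ComplexOrder ContDiff Matrix

namespace Pool.Agent.SPF

variable {n : ℕ}

lemma liou_second {g g' : ℝ → ℝ} {c : ℝ} (hm : IsLocalMax g 0)
    (hd : ∀ᶠ t in 𝓝 (0 : ℝ), HasDerivAt g (g' t) t) (h2 : HasDerivAt g' c 0) : c ≤ 0 := by
  by_contra hpos
  rw [not_le] at hpos
  have hd1 : deriv g =ᶠ[𝓝 0] g' := hd.mono fun t ht => ht.deriv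
  have hd2 : deriv (deriv g) 0 = c := by rw [hd1.deriv_eq, h2.deriv]
  have hmin : IsLocalMin g 0 := isLocalMin_of_deriv_deriv_pos (by rw [hd2]; exact hpos)
    hm.deriv_eq_zero hd.self_of_nhds.continuousAt
  have hcst : g =ᶠ[𝓝 0] fun _ => g 0 := by
    filter_upwards [hm, hmin] with t h1 h2 using le_antisymm h1 h2
  have := hcst.deriv.deriv_eq
  rw [hd2] at this
  simp only [deriv_const', deriv_const] at this
  exact hpos.ne' this

lemma liou_curve {u : E n → ℝ} (hu : ContDiff ℝ ∞ u) {γ γ' : ℝ → E n} {c : E n}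
    (h1 : ∀ τ, HasDerivAt γ (γ' τ) τ) (h2 : HasDerivAt γ' c 0) :
    (∀ τ, HasDerivAt (fun τ => u (γ τ)) (fderiv ℝ u (γ τ) (γ' τ)) τ) ∧
      HasDerivAt (fun τ => fderiv ℝ u (γ τ) (γ' τ))
        (fderiv ℝ (fderiv ℝ u) (γ 0) (γ' 0) (γ' 0) + fderiv ℝ u (γ 0) c) 0 := by
  refine ⟨fun τ => (hu.differentiable (by simp) _).hasFDerivAt.comp_hasDerivAt τ (h1 τ), ?_⟩
  have hD : Differentiable ℝ (fderiv ℝ u) :=
    (hu.fderiv_right (m := ∞) (by simp)).differentiable (by simp)
  exact ((hD (γ 0)).hasFDerivAt.comp_hasDerivAt 0 (h1 0)).clm_apply h2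

lemma liou_levi {u : E n → ℝ} (hu : ContDiff ℝ ∞ u) (z v : E n) :
    4 * (∑ a, ∑ b, v a * star (v b) * dz a (dzb b fun s => (u s : ℂ)) z).re =
      fderiv ℝ (fderiv ℝ u) z v v +
        fderiv ℝ (fderiv ℝ u) z (Complex.I • v) (Complex.I • v) := by
  let O : TopologicalSpace.Opens (E n) := ⟨univ, isOpen_univ⟩
  have h := Sm.rep_mk (O := O) _ (test_ofReal (s := univ) hu.contDiffOn)
  set a := Sm.mk (O := O) _ (test_ofReal (s := univ) hu.contDiffOn)
  have hD : Differentiable ℝ (fderiv ℝ u) :=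
    (hu.fderiv_right (m := ∞) (by simp)).differentiable (by simp)
  have key : ∀ w : E n, Sm.ev (⟨z, mem_univ z⟩ : O) (Sm.der w (Sm.der w a)) =
      (fderiv ℝ (fderiv ℝ u) z w w : ℝ) := by
    intro w
    rw [(h.der w).der w ⟨z, mem_univ z⟩]
    have e : (fun y => fderiv ℝ (fun s => (u s : ℂ)) y w) = fun y => ((fderiv ℝ u y w : ℝ) : ℂ) :=
      funext fun y => test_fderiv (hu.differentiable (by simp) y) w
    have hF : HasFDerivAt (fun y => fderiv ℝ u y w)
        ((ContinuousLinearMap.apply ℝ ℝ w).comp (fderiv ℝ (fderiv ℝ u) z)) z :=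
      (ContinuousLinearMap.apply ℝ ℝ w).hasFDerivAt.comp z (hD z).hasFDerivAt
    change fderiv ℝ (fun y => fderiv ℝ (fun s => (u s : ℂ)) y w) z w = _
    rw [e, test_fderiv hF.differentiableAt, hF.fderiv]
    rfl
  have h1 := congrArg Complex.re (test_levi v a ⟨z, mem_univ z⟩)
  rw [key, key, Complex.add_re, Complex.ofReal_re, Complex.ofReal_re,
    show (4 : ℂ) = ((4 : ℝ) : ℂ) by norm_num, Complex.re_ofReal_mul] at h1
  rw [← h1]
  congr 2
  exact Finset.sum_congr rfl fun i _ => Finset.sum_congr rfl fun j _ => by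
    rw [(h.db j).d i ⟨z, mem_univ z⟩]

lemma liou_nomax {u : E n → ℝ} (hu : ContDiff ℝ ∞ u)
    (h : ∀ t v : E n,
      0 ≤ (∑ a, ∑ b, v a * star (v b) * dz a (dzb b fun s => (u s : ℂ)) t).re) (t' v : E n)
    {r ε : ℝ} (hr : 0 < r) (hε : 0 < ε) {l : ℂ} (hl : r < ‖l‖)
    (hm : IsLocalMax (fun l : ℂ => u (t' + l • v) - ε * Real.log (1 + Real.log (‖l‖ / r))) l) :
    False := by
  set w : E n := l • v with hw
  have hl0 : 0 < ‖l‖ := hr.trans hl
  set l0 : ℝ := 1 + Real.log (‖l‖ / r) with hl0'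
  have hl1 : 0 < l0 := by
    have := Real.log_pos ((one_lt_div hr).2 hl)
    linarith
  have ex : ∀ (c : ℂ) (τ : ℝ), HasDerivAt (fun τ : ℝ => Complex.exp (c * τ))
      (Complex.exp (c * τ) * c) τ := fun c τ => by
    have h1 : HasDerivAt (fun τ : ℝ => c * (τ : ℂ)) (c * 1) τ :=
      (Complex.ofRealCLM.hasDerivAt (x := τ)).const_mul c
    simpa using h1.cexp
  have cur : ∀ c : ℂ, (∀ τ : ℝ, HasDerivAt (fun τ : ℝ => u (t' + Complex.exp (c * τ) • w))
      (fderiv ℝ u (t' + Complex.exp (c * τ) • w) ((Complex.exp (c * τ) * c) • w)) τ) ∧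
      HasDerivAt (fun τ : ℝ =>
        fderiv ℝ u (t' + Complex.exp (c * τ) • w) ((Complex.exp (c * τ) * c) • w))
        (fderiv ℝ (fderiv ℝ u) (t' + w) (c • w) (c • w) + fderiv ℝ u (t' + w) ((c * c) • w))
        0 := fun c => by
    have := liou_curve hu (γ := fun τ : ℝ => t' + Complex.exp (c * τ) • w)
      (γ' := fun τ : ℝ => (Complex.exp (c * τ) * c) • w) (c := (c * c) • w)
      (fun τ => ((ex c τ).smul_const w).const_add t')
      (by simpa using ((ex c 0).mul_const c).smul_const w)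
    simpa using this
  have loc : ∀ c : ℂ, IsLocalMax (fun τ : ℝ => u (t' + Complex.exp (c * τ) • w) -
      ε * Real.log (l0 + c.re * τ)) 0 := fun c => by
    have ht : Tendsto (fun τ : ℝ => Complex.exp (c * τ) * l) (𝓝 0) (𝓝 l) := by
      have : Continuous fun τ : ℝ => Complex.exp (c * τ) * l := by fun_prop
      simpa using this.tendsto 0
    refine (ht.eventually hm).mono fun τ hτ => ?_
    have e1 : Real.log (‖Complex.exp (c * τ) * l‖ / r) = Real.log (‖l‖ / r) + c.re * τ := by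
      rw [norm_mul, Complex.norm_exp, mul_div_assoc,
        Real.log_mul (Real.exp_pos _).ne' (div_pos hl0 hr).ne', Real.log_exp]
      simp [add_comm]
    beta_reduce at hτ
    rw [e1, mul_smul, ← add_assoc] at hτ
    simpa using hτ
  have hev : ∀ᶠ τ : ℝ in 𝓝 0, 0 < l0 + τ := by
    have : Continuous fun τ : ℝ => l0 + τ := by fun_prop
    exact this.continuousAt.eventually (lt_mem_nhds (by simpa using hl1))
  have lg : ∀ τ : ℝ, 0 < l0 + τ →
      HasDerivAt (fun τ : ℝ => ε * Real.log (l0 + (1 : ℂ).re * τ)) (ε * (l0 + τ)⁻¹) τ :=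
    fun τ hτ => by
      have := (((hasDerivAt_id τ).const_add l0).log hτ.ne').const_mul ε
      simpa using this
  have lg2 : HasDerivAt (fun τ : ℝ => ε * (l0 + τ)⁻¹) (ε * (-1 / l0 ^ 2)) 0 := by
    have := (((hasDerivAt_id (0 : ℝ)).const_add l0).inv (by simpa using hl1.ne')).const_mul ε
    simpa using this
  have k1 := liou_second (loc 1)
    (hev.mono fun τ hτ => ((cur 1).1 τ).sub (lg τ hτ)) ((cur 1).2.sub lg2)
  have k2 := liou_second (g := fun τ : ℝ => u (t' + Complex.exp (Complex.I * τ) • w) -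
      ε * Real.log (l0 + Complex.I.re * τ)) (loc Complex.I)
    (Eventually.of_forall fun τ => by
      simpa using (((cur Complex.I).1 τ).sub_const (ε * Real.log l0))) (cur Complex.I).2
  have k3 := liou_levi hu (t' + w) w
  have k4 := h (t' + w) w
  have k5 : 0 < ε * (1 / l0 ^ 2) := by positivity
  rw [Complex.I_mul_I, neg_one_smul, map_neg] at k2
  rw [one_mul, one_smul, neg_div] at k1
  linarith

lemma liou_le {u : E n → ℝ} (hu : ContDiff ℝ ∞ u) {M : ℝ} (hM : ∀ t, u t ≤ M)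
    (h : ∀ t v : E n,
      0 ≤ (∑ a, ∑ b, v a * star (v b) * dz a (dzb b fun s => (u s : ℂ)) t).re) (t t' : E n) :
    u t ≤ u t' := by
  refine le_of_forall_pos_le_add fun η hη => ?_
  have hc : Continuous fun l : ℂ => u (t' + l • (t - t')) := hu.continuous.comp (by fun_prop)
  have h0 : ∀ᶠ l : ℂ in 𝓝 0, u (t' + l • (t - t')) < u t' + η / 2 :=
    hc.continuousAt.eventually (gt_mem_nhds (by simpa using hη))
  obtain ⟨δ, hδ, hδ'⟩ := Metric.eventually_nhds_iff.1 h0
  set r : ℝ := min (δ / 2) (1 / 2) with hr'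
  have hr : 0 < r := lt_min (half_pos hδ) (by norm_num)
  have hr1 : r < 1 := (min_le_right _ _).trans_lt (by norm_num)
  have hrδ : r < δ := (min_le_left _ _).trans_lt (half_lt_self hδ)
  set H : ℝ → ℝ := fun ρ => Real.log (1 + Real.log (ρ / r)) with hH
  have hH1 : 0 < H 1 := Real.log_pos (by linarith [Real.log_pos ((one_lt_div hr).2 hr1)])
  set ε : ℝ := η / 2 / H 1 with hε'
  have hε : 0 < ε := div_pos (half_pos hη) hH1
  have hε1 : ε * H 1 = η / 2 := div_mul_cancel₀ _ hH1.ne'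
  have hT : Tendsto H atTop atTop := Real.tendsto_log_atTop.comp
    (tendsto_atTop_add_const_left _ _
      (Real.tendsto_log_atTop.comp (tendsto_id.atTop_div_const hr)))
  obtain ⟨R, hR1, hR2⟩ := (((hT.const_mul_atTop hε).eventually_gt_atTop
    (M - (u t - η / 2))).and (eventually_gt_atTop 1)).exists
  have hK : IsCompact (Metric.closedBall (0 : ℂ) R ∩ {l | r ≤ ‖l‖}) :=
    (isCompact_closedBall _ _).inter_right (isClosed_le continuous_const continuous_norm)
  have h1K : (1 : ℂ) ∈ Metric.closedBall (0 : ℂ) R ∩ {l | r ≤ ‖l‖} :=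
    ⟨by simpa using hR2.le, by simpa using hr1.le⟩
  have hφ : ContinuousOn (fun l : ℂ => u (t' + l • (t - t')) - ε * H ‖l‖)
      (Metric.closedBall (0 : ℂ) R ∩ {l | r ≤ ‖l‖}) := by
    refine hc.continuousOn.sub (continuousOn_const.mul (ContinuousOn.log
      (continuousOn_const.add (ContinuousOn.log (by fun_prop) fun l hl => ?_)) fun l hl => ?_))
    · exact (div_pos (hr.trans_le hl.2) hr).ne'
    · have := Real.log_nonneg ((one_le_div hr).2 hl.2)
      linarith
  obtain ⟨l, hl, hmax⟩ := hK.exists_isMaxOn ⟨1, h1K⟩ hφ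
  have h1 : u t - η / 2 ≤ u (t' + l • (t - t')) - ε * H ‖l‖ := by
    have := hmax h1K
    simp only [mem_ofPred_eq, one_smul, add_sub_cancel, norm_one, hε1] at this
    exact this
  have hlR : ‖l‖ ≤ R := by simpa using hl.1
  have hlr0 : r ≤ ‖l‖ := hl.2
  rcases hlr0.eq_or_lt with e | hlr
  · have h2 := hδ' (y := l) (by simpa [← e] using hrδ)
    have h3 : H ‖l‖ = 0 := by simp [hH, ← e, hr.ne']
    rw [h3] at h1
    linarith
  · rcases hlR.eq_or_lt with e | hlR'
    · rw [e] at h1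
      linarith [hM (t' + l • (t - t'))]
    · refine (liou_nomax hu h t' (t - t') hr hε hlr (hmax.isLocalMax ?_)).elim
      exact inter_mem (Metric.closedBall_mem_nhds_of_mem (by simpa using hlR'))
        ((continuous_norm.continuousAt.eventually (lt_mem_nhds hlr)).mono fun x hx => le_of_lt hx)

theorem psh_const {u : E n → ℝ} (hu : ContDiff ℝ ∞ u) {M : ℝ} (hM : ∀ t, u t ≤ M)
    (h : ∀ t v : E n,
      0 ≤ (∑ a, ∑ b, v a * star (v b) * dz a (dzb b fun s => (u s : ℂ)) t).re) (t t' : E n) :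
    u t = u t' := le_antisymm (liou_le hu hM h t t') (liou_le hu hM h t' t)

end Pool.Agent.SPF
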