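import Pool.Agent.P.MP_63735c_ag.BPE0
import Pool.Agent.P.MP_63735c_ag.SPLiou

/-! A Schwarz lemma for functions with Levi form bounded below. -/

open scoped ComplexOrder ContDiff Matrix Topology ENNReal
open Set Metric MeasureTheory Filter

namespace Pool.Agent.BP

open Pool.Agent.SPF Pool.Agent.CL Pool.Agent.NL Pool.Agent.CK Pool.Agent.AB Pool.Agent.SE
open Pool.Agent.ABK

variable {N : ℕ}

theorem bpe2_d2 {f : ℂ → ℝ} {x : ℂ} (hf : ContDiffAt ℝ 2 f x) (hm : IsLocalMax f x) (v : ℂ) :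
    D2 f x v ≤ 0 := by
  have hc : ∀ t : ℝ, HasDerivAt (fun t : ℝ => x + t • v) v t := fun t => by
    simpa using ((hasDerivAt_id t).smul_const v).const_add x
  have h0 : x + (0 : ℝ) • v = x := by simp
  have ht : Tendsto (fun t : ℝ => x + t • v) (𝓝 0) (𝓝 x) := by
    simpa using (hc 0).continuousAt.tendsto
  refine liou_second (g := fun t : ℝ => f (x + t • v))
    (g' := fun t : ℝ => fderiv ℝ f (x + t • v) v) ?_ ?_ ?_
  · exact (ht.eventually hm).mono fun t h => by simpa using h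
  · exact (ht.eventually (abc_d1 hf)).mono fun t h => h.comp_hasDerivAt t (hc t)
  · have h1 := (h0.symm ▸ abc_d2 hf : HasFDerivAt (fderiv ℝ f) (fderiv ℝ (fderiv ℝ f) x)
      (x + (0 : ℝ) • v)).comp_hasDerivAt (0 : ℝ) (hc 0)
    simpa [D2] using h1.clm_apply (hasDerivAt_const (0 : ℝ) v)

theorem bpe2_smul {f : ℂ → ℝ} {x : ℂ} (hf : ContDiffAt ℝ 2 f x) (c : ℝ) (v : ℂ) :
    Lv (fun y => c * f y) x v = c * Lv f x v := by
  rw [Lv_fun (g := fun t => c * t) (g1 := fun _ => c) (g2 := 0) hf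
    (Eventually.of_forall fun t => by simpa using (hasDerivAt_id t).const_mul c)
    (hasDerivAt_const _ _)]
  ring

theorem bpe2_line {Ω : Set (E N)} (hΩ : IsOpen Ω) {u : E N → ℝ} (hu : ContDiffOn ℝ ∞ u Ω)
    {y e : E N} {x : ℂ} (hx : y + x • e ∈ Ω) :
    ContDiffAt ℝ 2 (fun t : ℂ => u (y + t • e)) x ∧
      Lv (fun t : ℂ => u (y + t • e)) x 1 = 4 * (hq (lev u (y + x • e)) e e).re := by
  have h1 : ContDiffAt ℝ 2 u (y + x • e) :=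
    (hu.contDiffAt (hΩ.mem_nhds hx)).of_le (WithTop.coe_le_coe.2 le_top)
  have h2 : ∀ t : ℂ, HasDerivAt (fun t : ℂ => y + t • e) e t := fun t => by
    simpa using ((hasDerivAt_id t).smul_const e).const_add y
  refine ⟨h1.comp (f := fun t : ℂ => y + t • e) x (by fun_prop), ?_⟩
  rw [Lv_comp (g := fun t : ℂ => y + t • e) h1
    (Eventually.of_forall fun t => (h2 t).differentiableAt), fderiv_apply_one_eq_deriv,
    (h2 x).deriv, Lv_lev hΩ hu hx]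

theorem bpe2_log {x : ℂ} (hx : x ≠ 0) : ContDiffAt ℝ 2 (fun t : ℂ => Real.log (‖t‖ ^ 2)) x ∧
    Lv (fun t : ℂ => Real.log (‖t‖ ^ 2)) x 1 = 0 := by
  have h0 : ‖x‖ ≠ 0 := norm_ne_zero_iff.2 hx
  have h1 : ContDiffAt ℝ 2 (fun t : ℂ => ‖t‖ ^ 2) x := (contDiff_norm_sq ℝ).contDiffAt
  refine ⟨h1.log (pow_ne_zero 2 h0), ?_⟩
  rw [Lv_log h1 (pow_ne_zero 2 h0), (nsq_one x 1).1, (nsq_one x 1).2]
  simp only [norm_one, mul_one, RCLike.norm_conj]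
  field_simp
  ring

theorem sch {Ω : Set (E N)} (hΩ : IsOpen Ω) {u q : E N → ℝ} (hu : ContDiffOn ℝ ∞ u Ω)
    (hq' : ContDiffOn ℝ ∞ q Ω) {y z : E N} {R r a : ℝ} (ha : 0 ≤ a) (h0 : 0 < r)
    (h1 : r ≤ ‖z - y‖) (h2 : ‖z - y‖ ≤ R) (hz : z ∈ Ω)
    (hb : ∀ w ∈ Ω, ‖w - y‖ ≤ R → u w ≤ 0 ∧ q w ≤ 0 ∧ ∀ v,
      -(a * ‖v‖ ^ 2) ≤ (hq (lev u w) v v).re ∧ -(a * ‖v‖ ^ 2) ≤ (hq (lev q w) v v).re)
    (hc : ∀ c, IsCompact {w | w ∈ Ω ∧ ‖w - y‖ ≤ R ∧ c ≤ q w})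
    (hin : ∀ w ∈ Ω, ‖w - y‖ = r → u w ≤ Real.log (r / R)) :
    u z ≤ Real.log (‖z - y‖ / R) + ((2 * a + 1) * R ^ 2 + 1) := by
  have hρ : 0 < ‖z - y‖ := h0.trans_le h1
  have hR : 0 < R := hρ.trans_le h2
  obtain ⟨e, he, hze⟩ : ∃ e : E N, ‖e‖ = 1 ∧ y + ((‖z - y‖ : ℝ) : ℂ) • e = z := by
    refine ⟨((‖z - y‖ : ℝ) : ℂ)⁻¹ • (z - y), ?_, ?_⟩
    · rw [norm_smul, norm_inv, Complex.norm_real, norm_norm, inv_mul_cancel₀ hρ.ne']
    · rw [smul_smul, mul_inv_cancel₀ (Complex.ofReal_ne_zero.2 hρ.ne'), one_smul, add_sub_cancel]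
  have hn : ∀ t : ℂ, ‖y + t • e - y‖ = ‖t‖ := fun t => by
    rw [add_sub_cancel_left, norm_smul, he, mul_one]
  have hiso : Isometry fun t : ℂ => y + t • e := Isometry.of_dist_eq fun s t => by
    rw [dist_eq_norm, dist_eq_norm, add_sub_add_left_eq_sub, ← sub_smul, norm_smul, he, mul_one]
  set ε : ℝ := (1 + |q z|)⁻¹ with hε
  have e0 : 0 < ε := by positivity
  have e1 : ε ≤ 1 := inv_le_one_of_one_le₀ (by linarith [abs_nonneg (q z)])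
  have e2 : -1 ≤ ε * q z := by
    have h3 : ε * (1 + |q z|) = 1 := inv_mul_cancel₀ (by positivity)
    have h4 := mul_le_mul_of_nonneg_left (neg_abs_le (q z)) e0.le
    linarith
  set Θ : ℂ → ℝ := fun t => (u (y + t • e) + ε * q (y + t • e)) +
    ((2 * a + 1) * ‖t‖ ^ 2 + -(1 / 2) * Real.log (‖t‖ ^ 2)) with hΘ
  have hΘ' : ∀ t, Θ t = u (y + t • e) + ε * q (y + t • e) + (2 * a + 1) * ‖t‖ ^ 2 -
      Real.log ‖t‖ := fun t => by
    simp only [hΘ, Real.log_pow]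
    push_cast
    ring
  have hs : ∀ t, t ≠ 0 → y + t • e ∈ Ω → (∀ v, -(a * ‖v‖ ^ 2) ≤ (hq (lev u (y + t • e)) v v).re ∧
      -(a * ‖v‖ ^ 2) ≤ (hq (lev q (y + t • e)) v v).re) → ContDiffAt ℝ 2 Θ t ∧ 0 < Lv Θ t 1 := by
    intro t ht hΩt hv
    obtain ⟨a1, a2⟩ := bpe2_line hΩ hu hΩt
    obtain ⟨b1, b2⟩ := bpe2_line hΩ hq' hΩt
    obtain ⟨c1, c2⟩ := bpe2_log ht
    have d1 : ContDiffAt ℝ 2 (fun t : ℂ => ‖t‖ ^ 2) t := (contDiff_norm_sq ℝ).contDiffAt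
    have f1 := a1.add (contDiffAt_const (c := ε) |>.mul b1)
    have f2 := (contDiffAt_const (c := 2 * a + 1) |>.mul d1)
    have f3 := (contDiffAt_const (c := -(1 / 2 : ℝ)) |>.mul c1)
    refine ⟨f1.add (f2.add f3), ?_⟩
    rw [hΘ, Lv_add f1 (f2.add f3), Lv_add a1 (contDiffAt_const.mul b1), Lv_add f2 f3,
      bpe2_smul b1, bpe2_smul d1, bpe2_smul c1, a2, b2, c2, (nsq_one t 1).1]
    obtain ⟨g1, g2⟩ := hv e
    rw [he] at g1 g2
    have g3 := mul_le_mul_of_nonneg_left g2 e0.le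
    have g4 := mul_le_mul_of_nonneg_left e1 ha
    simp only [norm_one]
    nlinarith
  set t₀ : ℂ := ((‖z - y‖ : ℝ) : ℂ) with ht₀
  have hn0 : ‖t₀‖ = ‖z - y‖ := by rw [ht₀, Complex.norm_real, norm_norm]
  obtain ⟨c, c1, c2⟩ : ∃ c, c ≤ q z ∧ ε * c + (2 * a + 1) * R ^ 2 - Real.log r < Θ t₀ := by
    refine ⟨min (q z) ((Θ t₀ - (2 * a + 1) * R ^ 2 + Real.log r - 1) / ε), min_le_left _ _, ?_⟩
    have h3 := (le_div_iff₀' e0).1
      (min_le_right (q z) ((Θ t₀ - (2 * a + 1) * R ^ 2 + Real.log r - 1) / ε))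
    linarith
  have hsq : ∀ t : ℂ, ‖t‖ ≤ R → (2 * a + 1) * ‖t‖ ^ 2 ≤ (2 * a + 1) * R ^ 2 := fun t ht => by
    gcongr
  have hK : IsCompact (((fun t : ℂ => y + t • e) ⁻¹' {w | w ∈ Ω ∧ ‖w - y‖ ≤ R ∧ c ≤ q w}) ∩
      {t | r ≤ ‖t‖}) := (hiso.isClosedEmbedding.isCompact_preimage (hc c)).inter_right
        (isClosed_le continuous_const continuous_norm)
  have hK0 : t₀ ∈ ((fun t : ℂ => y + t • e) ⁻¹' {w | w ∈ Ω ∧ ‖w - y‖ ≤ R ∧ c ≤ q w}) ∩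
      {t | r ≤ ‖t‖} := ⟨by rw [mem_preimage, hze]; exact ⟨hz, h2, c1⟩, h1.trans hn0.ge⟩
  obtain ⟨t, ⟨⟨k1, k2, k3⟩, k4⟩, hm⟩ := hK.exists_isMaxOn (f := Θ) ⟨t₀, hK0⟩ fun t ht =>
      (hs t (norm_pos_iff.1 (h0.trans_le ht.2)) ht.1.1
        (hb _ ht.1.1 ht.1.2.1).2.2).1.continuousAt.continuousWithinAt
  have hm0 : Θ t₀ ≤ Θ t := hm hK0
  beta_reduce at k1 k2
  obtain ⟨l1, l2, l3⟩ := hb _ k1 k2
  have l4 := mul_nonpos_of_nonneg_of_nonpos e0.le l2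
  change r ≤ ‖t‖ at k4
  rw [hn] at k2
  have key : Θ t ≤ (2 * a + 1) * R ^ 2 - Real.log R := by
    have l5 := hsq t k2
    rcases k4.eq_or_lt with k4 | k4
    · have l6 := hin _ k1 ((hn t).trans k4.symm)
      rw [Real.log_div h0.ne' hR.ne', k4] at l6
      rw [hΘ']
      linarith
    rcases k2.eq_or_lt with k2 | k2
    · rw [hΘ', k2]
      linarith
    obtain ⟨m1, m2⟩ := hs t (norm_pos_iff.1 (h0.trans k4)) k1 l3
    have hloc : IsLocalMax Θ t := by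
      filter_upwards [hiso.continuous.continuousAt.preimage_mem_nhds (hΩ.mem_nhds k1),
        continuous_norm.continuousAt.eventually (Ioo_mem_nhds k4 k2)] with s s1 s2
      have s3 : ‖y + s • e - y‖ ≤ R := (hn s).trans_le s2.2.le
      by_cases s4 : c ≤ q (y + s • e)
      · exact hm ⟨⟨s1, s3, s4⟩, s2.1.le⟩
      · have s5 := mul_le_mul_of_nonneg_left (not_le.1 s4).le e0.le
        have s6 := (hb _ s1 s3).1
        have s7 := hsq s s2.2.le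
        have s8 := Real.log_le_log h0 s2.1.le
        rw [hΘ' s]
        linarith
    have m3 := bpe2_d2 m1 hloc 1
    have m4 := bpe2_d2 m1 hloc (Complex.I • 1)
    rw [Lv] at m2
    linarith
  have h5 := hm0.trans key
  rw [hΘ', hze, hn0] at h5
  rw [Real.log_div hρ.ne' hR.ne']
  have h6 : 0 ≤ (2 * a + 1) * ‖z - y‖ ^ 2 := by positivity
  linarith

end Pool.Agent.BP
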