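import Pool.Agent.P.MP_63735c_ag.BPE1
import Pool.Agent.P.MP_63735c_ag.BPE2

/-! Points near `x` where `G` is not too negative lie in the germ. -/

open scoped ComplexOrder ContDiff Matrix Topology ENNReal
open Set Metric MeasureTheory Filter

namespace Pool.Agent.BP

open Pool.Agent.SPF Pool.Agent.CL Pool.Agent.NL Pool.Agent.CK Pool.Agent.AB Pool.Agent.SE

variable {N : ℕ} {X : Type} [TopologicalSpace X] [MeasurableSpace X] {A : Atlas X N}
  {μ : Measure X} {L : Line A} {U : Up A μ L} {x : X}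

theorem bpe3_nonneg {M : ℕ} (v : E M) : 0 ≤ nsq v :=
  (sq_nonneg _).trans (norm_sq_le_nsq v)

theorem bpe3_add {M : ℕ} (u v : E M) : nsq (u + v) ≤ 2 * nsq u + 2 * nsq v := by
  unfold nsq
  rw [Finset.mul_sum, Finset.mul_sum, ← Finset.sum_add_distrib]
  refine Finset.sum_le_sum fun a _ => ?_
  have h1 : ‖(u + v) a‖ ^ 2 ≤ (‖u a‖ + ‖v a‖) ^ 2 :=
    pow_le_pow_left₀ (norm_nonneg _) (norm_add_le _ _) 2
  nlinarith [sq_nonneg (‖u a‖ - ‖v a‖)]

/-- A small sphere on which the weight is very negative. -/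
theorem bpe3_small (H : UG U x) {i : A.ι} {y : E N} (hy : y ∈ (A.C i).W) (hO : A.p i y ∈ H.O)
    {R d : ℝ} (hR : 0 < R) (hd : 0 < d) : ∃ r, 0 < r ∧ r ≤ d ∧ ∀ w, ‖w - y‖ = r →
      H.lam (H.F (A.p i y)) (r ^ 2) (A.p i w) ≤ Real.log (r / R) := by
  have ho := ((A.cont i).isOpen_inter_preimage (A.C i).isOpen H.isOpen).mem_nhds (mem_inter hy hO)
  obtain ⟨b, hb⟩ := ((H.F_hol i).differentiableAt ho).isBigO_sub.bound
  obtain ⟨r₀, h0, h1⟩ := Metric.eventually_nhds_iff.1 (hb.and ho)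
  have hτ := H.τ_pos
  have hK : 0 < (H.M * b ^ 2 + 1) * Real.exp 1 * R := by positivity
  obtain ⟨r, hr, hrd, hr0, hrτ⟩ : ∃ r, 0 < r ∧ r ≤ d ∧ r < r₀ ∧
      r * ((H.M * b ^ 2 + 1) * Real.exp 1 * R) ≤ H.τ :=
    ⟨min (min d (r₀ / 2)) (H.τ / ((H.M * b ^ 2 + 1) * Real.exp 1 * R)), by positivity,
      (min_le_left _ _).trans (min_le_left _ _),
      ((min_le_left _ _).trans (min_le_right _ _)).trans_lt (half_lt_self h0),
      (le_div_iff₀ hK).1 (min_le_right _ _)⟩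
  refine ⟨r, hr, hrd, fun w hw => ?_⟩
  obtain ⟨h2, h3⟩ := h1 (y := w) (by rw [dist_eq_norm, hw]; exact hr0)
  rw [hw] at h2
  have h4 : H.t (H.F (A.p i y)) (A.p i w) ≤ H.M * (b * r) ^ 2 :=
    (nsq_le_norm_sq _).trans (mul_le_mul_of_nonneg_left
      (pow_le_pow_left₀ (norm_nonneg _) h2 2) (Nat.cast_nonneg _))
  have h5 : 0 ≤ H.t (H.F (A.p i y)) (A.p i w) := bpe3_nonneg _
  have h6 : 0 < (H.t (H.F (A.p i y)) (A.p i w) + r ^ 2) / H.τ := by positivity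
  refine ((H.lam_bd _ _ _).2.1 h3.2).trans ?_
  nth_rewrite 1 [← Real.log_exp 1]
  rw [← Real.log_mul h6.ne' (Real.exp_pos 1).ne']
  refine Real.log_le_log (by positivity) ?_
  rw [div_mul_eq_mul_div, div_le_div_iff₀ hτ hR]
  have h7 : (H.t (H.F (A.p i y)) (A.p i w) + r ^ 2) * (Real.exp 1 * R) ≤
      (H.M * (b * r) ^ 2 + r ^ 2) * (Real.exp 1 * R) :=
    mul_le_mul_of_nonneg_right (by linarith) (by positivity)
  nlinarith [mul_le_mul_of_nonneg_left hrτ hr.le]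

theorem UG.sch_pt [T2Space X] (H : UG U x) {i : A.ι} {z₀ : E N} (hz : z₀ ∈ (A.C i).W)
    (hx : A.p i z₀ = x) : ∃ (k : ℕ) (C r₁ : ℝ), 0 < C ∧ 0 < r₁ ∧ ∀ ρ, 0 < ρ → ρ < r₁ →
      ∀ z ∈ ball z₀ (ρ ^ 2), z ∈ U.D.W i → Real.log ρ ≤ k * U.G (A.p i z) →
        A.p i z ∈ H.O ∧ H.t H.a (A.p i z) ≤ C * ρ := by
  obtain ⟨R₂, hR₂, hsub⟩ := Metric.nhds_basis_closedBall.mem_iff.1 ((A.C i).isOpen.mem_nhds hz)
  obtain ⟨R, rfl⟩ : ∃ R, R₂ = 2 * R := ⟨R₂ / 2, by ring⟩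
  have hR : 0 < R := by linarith
  obtain ⟨c₀, B, -, hB, hη⟩ := cpt_bds L (isCompact_closedBall z₀ (2 * R)) hsub
  obtain ⟨C₁, hC₁, hlev⟩ := H.lam_lev
  obtain ⟨k, hk⟩ := exists_nat_ge C₁
  have hM := U.M_nonneg
  have hτ := H.τ_pos
  have hδ := H.δ_pos
  have hk0 : (0 : ℝ) ≤ k := Nat.cast_nonneg _
  obtain ⟨C', hC'⟩ : ∃ C', C' = (2 * ((k + U.M) * B) + 1) * R ^ 2 + 1 := ⟨_, rfl⟩
  have he : 1 ≤ Real.exp C' := Real.one_le_exp (by rw [hC']; positivity)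
  refine ⟨k, 4 * H.τ * Real.exp C' / R + 2, min 1 (R / (2 * Real.exp C')), by positivity,
    by positivity, fun ρ hρ hρ1 z hzb hzW hG => ?_⟩
  have h1 : ρ < 1 := hρ1.trans_le (min_le_left _ _)
  have h2 : ρ * (2 * Real.exp C') < R :=
    (lt_div_iff₀ (by positivity)).1 (hρ1.trans_le (min_le_right _ _))
  have h3 : 2 * ρ ^ 2 < R := by nlinarith
  have hb : ball z₀ (ρ ^ 2) ⊆ (A.C i).W :=
    (ball_subset_closedBall.trans (closedBall_subset_closedBall (by nlinarith))).trans hsub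
  have hn : A.p i '' ball z₀ (ρ ^ 2) ∈ 𝓝 x :=
    (A.opn i _ isOpen_ball hb).mem_nhds ⟨z₀, mem_ball_self (by positivity), hx⟩
  obtain ⟨_, ⟨hO, hF⟩, y, hy, rfl⟩ := ((H.near (min (H.δ / 2) (ρ / (H.M + 1)))
    (by positivity)).and_eventually hn).exists
  have hca : nsq (H.F (A.p i y) - H.a) ≤ ρ := by
    have h4 : ‖H.F (A.p i y) - H.a‖ * (H.M + 1) ≤ ρ :=
      (le_div_iff₀ (by positivity)).1 (hF.le.trans (min_le_right _ _))
    have h5 := norm_nonneg (H.F (A.p i y) - H.a)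
    have h6 : (0 : ℝ) ≤ H.M := Nat.cast_nonneg _
    have h7 : ‖H.F (A.p i y) - H.a‖ ≤ 1 := by nlinarith
    have h8 := nsq_le_norm_sq (H.F (A.p i y) - H.a)
    nlinarith [mul_nonneg h6 h5]
  have hC : 0 ≤ 4 * H.τ * Real.exp C' / R := by positivity
  by_cases hzy : z = y
  · subst hzy
    exact ⟨hO, hca.trans (by nlinarith)⟩
  have hd : 0 < ‖z - y‖ := norm_pos_iff.2 (sub_ne_zero.2 hzy)
  have hd2 : ‖z - y‖ < 2 * ρ ^ 2 := by
    have := dist_triangle_right z y z₀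
    rw [dist_eq_norm] at this
    linarith [mem_ball.1 hzb, mem_ball.1 hy]
  have hin : ∀ w, ‖w - y‖ ≤ R → w ∈ closedBall z₀ (2 * R) := fun w hw => by
    have := dist_triangle w y z₀
    rw [dist_eq_norm w y] at this
    exact mem_closedBall.2 (by nlinarith [mem_ball.1 hy])
  obtain ⟨r, hr, hrd, hlam⟩ := bpe3_small H (hb hy) hO hR hd
  obtain ⟨hsm, hl⟩ := hlev (H.F (A.p i y)) (r ^ 2) (hF.le.trans (min_le_left _ _)) (by positivity)
  have hkG : ∀ w ∈ U.D.W i, k * U.G (A.p i w) ≤ 0 := fun w hw =>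
    mul_nonpos_of_nonneg_of_nonpos hk0 (U.G_le _ hw.2)
  have key := sch (Ω := U.D.W i) (U.D.isOpen i)
    (u := fun w => k * U.G (A.p i w) + H.lam (H.F (A.p i y)) (r ^ 2) (A.p i w))
    (q := fun w => U.ψ (A.p i w)) ((contDiffOn_const.mul (U.G_smo i)).add (hsm i)) (U.ψ_smo i)
    (y := y) (z := z) (R := R) (r := r) (a := (k + U.M) * B) (by positivity) hr hrd
    (by linarith) hzW (fun w hw hwR => ?_) (fun c => ?_)
    fun w hw hwr => (add_le_of_nonpos_left (hkG w hw)).trans (hlam w hwr)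
  · have h4 : 0 < 2 * ρ * Real.exp C' / R := by positivity
    have h5 : H.lam (H.F (A.p i y)) (r ^ 2) (A.p i z) ≤
        Real.log (2 * ρ * Real.exp C' / R) := by
      have h6 : Real.log (‖z - y‖ / R) ≤ Real.log (2 * ρ ^ 2 / R) :=
        Real.log_le_log (by positivity) (by gcongr)
      have h7 : Real.log (2 * ρ * Real.exp C' / R) + Real.log ρ =
          Real.log (2 * ρ ^ 2 / R) + C' := by
        nth_rewrite 2 [← Real.log_exp C']
        rw [← Real.log_mul h4.ne' hρ.ne', ← Real.log_mul (by positivity) (by positivity)]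
        congr 1
        ring
      rw [← hC'] at key
      linarith
    have h6 : Real.log (2 * ρ * Real.exp C' / R) < 0 :=
      Real.log_neg h4 ((div_lt_one hR).2 (by linarith))
    obtain ⟨h7, h8⟩ := (H.lam_bd _ _ _).2.2 (h5.trans_lt h6)
    have h9 : 0 ≤ H.t (H.F (A.p i y)) (A.p i z) := bpe3_nonneg _
    have h10 := (div_le_iff₀ hτ).1 ((Real.log_le_log_iff (by positivity) h4).1 (h8.trans h5))
    have h11 := bpe3_add (H.F (A.p i z) - H.F (A.p i y)) (H.F (A.p i y) - H.a)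
    rw [sub_add_sub_cancel] at h11
    have h12 : (4 * H.τ * Real.exp C' / R + 2) * ρ =
        2 * (2 * ρ * Real.exp C' / R * H.τ) + 2 * ρ := by ring
    refine ⟨h7, ?_⟩
    unfold UG.t at h10 ⊢
    nlinarith [sq_nonneg r]
  · have hw' := (U.D.isOpen i).mem_nhds hw
    have hG' : ContDiffAt ℝ ∞ (fun w => U.G (A.p i w)) w := (U.G_smo i).contDiffAt hw'
    have hL' : ContDiffAt ℝ ∞ (fun w => H.lam (H.F (A.p i y)) (r ^ 2) (A.p i w)) w :=
      (hsm i).contDiffAt hw'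
    refine ⟨add_nonpos (hkG w hw) (H.lam_bd _ _ _).1, (U.ψ_le _ hw.2).trans (by norm_num),
      fun v => ?_⟩
    have h4 := (hη w (hin w hwR)).2.2 v
    have h5 := hl i w hw v
    have h6 := U.G_lev i w hw.1 hw.2 v
    have h7 := U.ψ_lev i w hw.1 hw.2 v
    have h8 : 0 ≤ B * ‖v‖ ^ 2 := by positivity
    unfold Up.th at h5
    rw [lev_add (contDiffAt_const.mul hG') hL', lev_smul hG', hq_add, hq_smul, Complex.add_re,
      Complex.re_ofReal_mul]
    constructor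
    · nlinarith [mul_le_mul_of_nonneg_left h4 hk0, mul_nonneg (sub_nonneg.2 hk) h6,
        mul_nonneg hM h8]
    · nlinarith [mul_le_mul_of_nonneg_left h4 hM, mul_nonneg hk0 h8]
  · have h4 : closedBall y R ⊆ (A.C i).W := fun w hw => hsub (hin w (mem_closedBall_iff_norm.1 hw))
    have h5 := ((A.cont i).mono h4).preimage_isClosed_of_isClosed isClosed_closedBall
      (U.ψ_cpt c).isClosed
    have h6 : {w | w ∈ U.D.W i ∧ ‖w - y‖ ≤ R ∧ c ≤ U.ψ (A.p i w)} =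
        closedBall y R ∩ A.p i ⁻¹' {y | y ∈ U.W ∧ c ≤ U.ψ y} := by
      ext w
      exact ⟨fun hw => ⟨mem_closedBall_iff_norm.2 hw.2.1, hw.1.2, hw.2.2⟩,
        fun hw => ⟨⟨h4 hw.1, hw.2.1⟩, mem_closedBall_iff_norm.1 hw.1, hw.2.2⟩⟩
    rw [h6]
    exact (isCompact_closedBall y R).of_isClosed_subset h5 inter_subset_left

end Pool.Agent.BP
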