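import Pool.Agent.P.MP_63735c_ag.BPE0

/-! The L2 estimate on an open set for a global weight. -/

open scoped ComplexOrder ContDiff Matrix Topology ENNReal
open Set Metric MeasureTheory Filter

namespace Pool.Agent.BP

open Pool.Agent.SPF Pool.Agent.CL Pool.Agent.NL Pool.Agent.CK Pool.Agent.AB Pool.Agent.SE

variable {N : ℕ} {X : Type} [TopologicalSpace X] [MeasurableSpace X] [BorelSpace X] [T2Space X]
  {A : Atlas X N} {μ : Measure X} {hinj : ∀ i, InjOn (A.p i) (A.C i).W} {W : Set X}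
  {hW : IsOpen W}

theorem l2_gen (hμ : IsVolume A μ) {K : A.ι → E N → Mat N}
    (h1 : ∀ i, Kah ((man A hinj hW).W i) (K i)) (h2 : (man A hinj hW).Cpt K)
    (h3 : (man A hinj hW).Cut K) {Φ : X → ℝ} (hΦ : (man A hinj hW).Smo Φ)
    (hp : ∀ i, ∀ z ∈ (man A hinj hW).W i, ∀ v, 0 ≤ (hq (lev (fun y => Φ (A.p i y)) z) v v).re)
    {s : X → ℂ} (hs : (man A hinj hW).S s) {c : X → ℝ} (hc : (man A hinj hW).Cc c)
    (hc0 : ∀ y, 0 ≤ c y)
    (hsc : ∀ i, ∀ z ∈ (man A hinj hW).W i, ∀ v, ‖v ⬝ᵥ star (db (fun y => s (A.p i y)) z)‖ ^ 2 ≤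
      c (A.p i z) * (hq (lev (fun y => Φ (A.p i y)) z) v v).re) :
    ∃ g : X → ℂ, (man A hinj hW).Hol g ∧ ∀ i,
      ∫⁻ z in (man A hinj hW).W i, ENNReal.ofReal (Real.exp (-Φ (A.p i z)) *
        ‖((A.C i).σ z).det‖ * ‖g (A.p i z) - s (A.p i z)‖ ^ 2) ≤
      ∫⁻ y in W, ENNReal.ofReal (c y * Real.exp (-Φ y)) ∂μ := by
  classical
  let Ψ : A.ι → E N → ℝ := fun i z => Φ (A.p i z) + (-1) * Real.log ‖((A.C i).σ z).det‖
  let Ψ₀ : A.ι → E N → ℝ := fun i z => (-1) * Real.log ‖((A.C i).σ z).det‖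
  have hφa : ∀ i, ∀ z ∈ (man A hinj hW).W i, ContDiffAt ℝ ∞ (fun y => Φ (A.p i y)) z :=
    fun i z hz => (hΦ i).contDiffAt (((man A hinj hW).isOpen i).mem_nhds hz)
  have hΨ₀ : ∀ i, ∀ z ∈ (man A hinj hW).W i, ContDiffAt ℝ ∞ (Ψ₀ i) z :=
    fun i z hz => contDiffAt_const.mul (abd_det (A.C i) hz.1).1
  have hlev : ∀ i, ∀ z ∈ (man A hinj hW).W i, lev (Ψ i) z = lev (fun y => Φ (A.p i y)) z := by
    intro i z hz
    rw [lev_add (hφa i z hz) (hΨ₀ i z hz), lev_smul (abd_det (A.C i) hz.1).1,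
      (abd_det (A.C i) hz.1).2, smul_zero, add_zero]
  have hw₀ : ∀ i, ∀ z ∈ (man A hinj hW).W i, wt (Ψ₀ i) z = ‖((A.C i).σ z).det‖ := by
    intro i z hz
    simp only [wt, Ψ₀, neg_mul, one_mul, neg_neg]
    exact Real.exp_log (norm_pos_iff.2 ((A.C i).σ_det z hz.1))
  have hw : ∀ i, ∀ z ∈ (man A hinj hW).W i,
      wt (Ψ i) z = Real.exp (-Φ (A.p i z)) * ‖((A.C i).σ z).det‖ := by
    intro i z hz
    rw [← hw₀ i z hz, wt, wt, ← Real.exp_add, neg_add]
  have hd₀ : (man A hinj hW).Den μ Ψ₀ := by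
    intro i S hS hm
    refine (hμ i S (hS.trans inter_subset_left) hm).trans
      (setLIntegral_congr_fun hm fun z hz => ?_)
    rw [hw₀ i z (hS hz), ofReal_norm]
  let f : X → ℝ := W.piecewise (fun x => Real.exp (-Φ x)) fun _ => 0
  have hfm : Measurable f := by
    refine ContinuousOn.measurable_piecewise ?_ continuousOn_const hW.measurableSet
    have h4 : ContinuousOn Φ (man A hinj hW).M := Man.contOn fun i => (hΦ i).continuousOn
    rw [man_M] at h4
    exact h4.neg.rexp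
  let D : Dat X N :=
    { toMan := man A hinj hW
      K := K
      Ψ := Ψ
      ν := μ.withDensity fun x => ENNReal.ofReal (f x)
      kah := h1
      K_cpt := h2
      Ψ_smooth := fun i z hz => ((hφa i z hz).add (hΨ₀ i z hz)).contDiffWithinAt
      den := fun i S hS hm => by
        rw [withDensity_apply _ (Man.meas_img hm hS),
          hd₀.lint (fun z hz => (hΨ₀ i z hz).continuousAt.continuousWithinAt) hm hS]
        refine setLIntegral_congr_fun hm fun z hz => ?_
        have h4 : f (A.p i z) = Real.exp (-Φ (A.p i z)) := piecewise_eq_of_mem _ _ _ (hS hz).2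
        change ENNReal.ofReal (wt (Ψ₀ i) z) * ENNReal.ofReal (f (A.p i z)) = _
        rw [← ENNReal.ofReal_mul (wt_pos _ _).le, h4, hw i z (hS hz), hw₀ i z (hS hz), mul_comm] }
  have hP : D.Pos :=
    { Θ_cpt := fun i j z hz τ hτ => by
        change lev (Ψ i) z = (jac τ z)ᵀ * lev (Ψ j) (τ z) * (jac τ z).map star
        rw [hlev i z hz, hlev j _ hτ.self_of_nhds.2.1]
        exact Man.levG_cpt hΦ i j z hz τ hτ
      Θ_psd := fun i z hz v => by
        change 0 ≤ (hq (lev (Ψ i) z) v v).re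
        rw [hlev i z hz]
        exact hp i z hz v
      cut := h3 }
  obtain ⟨g, hg, hb⟩ := Dat.l2e (D := D) hP hs hc hc0 fun i z hz v => by
    change _ ≤ c (A.p i z) * (hq (lev (Ψ i) z) v v).re
    rw [hlev i z hz]
    exact hsc i z hz v
  refine ⟨g, hg, fun i => ?_⟩
  have hm := ((man A hinj hW).isOpen i).measurableSet
  have hcm : Measurable fun x => ENNReal.ofReal (c x) := hc.continuous.measurable.ennreal_ofReal
  calc _ = ∫⁻ z in (man A hinj hW).W i,
        ENNReal.ofReal (wt (Ψ i) z * ‖g (A.p i z) - s (A.p i z)‖ ^ 2) :=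
        setLIntegral_congr_fun hm fun z hz => by simp only [hw i z hz]
    _ = ENNReal.ofReal (∫ z in (man A hinj hW).W i,
        wt (Ψ i) z * ‖g (A.p i z) - s (A.p i z)‖ ^ 2) :=
        (ofReal_integral_eq_lintegral_ofReal (hb i).1 (Eventually.of_forall fun z =>
          mul_nonneg (wt_pos _ _).le (sq_nonneg _))).symm
    _ ≤ ENNReal.ofReal (∫ x, c x ∂D.ν) := ENNReal.ofReal_le_ofReal (hb i).2
    _ = ∫⁻ x, ENNReal.ofReal (c x) ∂D.ν := ofReal_integral_eq_lintegral_ofReal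
        (hc.integrable D.den fun i => (D.Ψ_smooth i).continuousOn) (Eventually.of_forall hc0)
    _ = ∫⁻ x, ENNReal.ofReal (f x) * ENNReal.ofReal (c x) ∂μ :=
        lintegral_withDensity_eq_lintegral_mul _ hfm.ennreal_ofReal hcm
    _ = _ := by
        rw [← lintegral_indicator hW.measurableSet]
        refine lintegral_congr fun x => ?_
        by_cases hx : x ∈ W
        · rw [indicator_of_mem hx, ENNReal.ofReal_mul (hc0 x), mul_comm]
          simp only [f, piecewise_eq_of_mem _ _ _ hx]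
        · rw [indicator_of_notMem hx]
          simp only [f, piecewise_eq_of_notMem _ _ _ hx, ENNReal.ofReal_zero, zero_mul]

end Pool.Agent.BP
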