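import Pool.Agent.P.MP_63735c_ag.BPE0

/-! Extension of square integrable holomorphic functions to sections. -/

open scoped ComplexOrder ContDiff Matrix Topology ENNReal
open Set Metric MeasureTheory Filter

namespace Pool.Agent.BP

open Pool.Agent.SPF Pool.Agent.CL Pool.Agent.NL Pool.Agent.CK Pool.Agent.AB Pool.Agent.SE

variable {N : ℕ} {X : Type} [TopologicalSpace X] [MeasurableSpace X] {A : Atlas X N}
  {μ : Measure X} {L : Line A} {U : Up A μ L} {x : X}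

/-- Local extension across the complement of `W`. -/
def Up.Ext (U : Up A μ L) : Prop :=
  ∀ i, ∀ z ∈ (A.C i).W, ∀ r > 0, ball z r ⊆ (A.C i).W → ∀ f : E N → ℂ,
    DifferentiableOn ℂ f (ball z r ∩ U.D.W i) →
    ∫⁻ y in ball z r ∩ U.D.W i, ENNReal.ofReal (‖f y‖ ^ 2) ≠ ⊤ →
      ∃ r' > 0, ∃ f' : E N → ℂ, DifferentiableOn ℂ f' (ball z r') ∧
        EqOn f' f (ball z r' ∩ U.D.W i)

theorem Up.ext_sec [BorelSpace X] (U : Up A μ L) (hμ : IsVolume A μ) (hE : U.Ext) {g : X → ℂ}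
    (hg : U.D.Hol g) (j : ℕ) (hi : ∀ i, ∀ z ∈ (A.C i).W, ∃ r > 0, ball z r ⊆ (A.C i).W ∧
      ∫⁻ y in ball z r ∩ U.D.W i, ENNReal.ofReal (‖g (A.p i y) * U.s i y ^ j‖ ^ 2) ≠ ⊤) :
    ∃ S, L.IsSection (U.m * j) S ∧ ∀ i, ∀ z ∈ U.D.W i, S i z = g (A.p i z) * U.s i z ^ j := by
  have hne : ∀ i, ∀ z ∈ (A.C i).W, (𝓝[U.D.W i] z).NeBot := fun i z hz =>
    mem_closure_iff_nhdsWithin_neBot.1 (U.dense_chart hμ i hz)
  have hf : ∀ i, DifferentiableOn ℂ (fun z => g (A.p i z) * U.s i z ^ j) (U.D.W i) := fun i =>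
    (hg i).fun_mul (((U.sec.1 i).mono inter_subset_left).fun_pow j)
  obtain ⟨S, hS⟩ : ∃ S : A.ι → E N → ℂ, ∀ i z,
      S i z = limUnder (𝓝[U.D.W i] z) fun y => g (A.p i y) * U.s i y ^ j := ⟨_, fun _ _ => rfl⟩
  have key : ∀ i, ∀ z ∈ (A.C i).W, DifferentiableAt ℂ (S i) z ∧
      (z ∈ U.D.W i → S i z = g (A.p i z) * U.s i z ^ j) := by
    intro i z hz
    obtain ⟨r, hr, h1, h2⟩ := hi i z hz
    obtain ⟨r', hr', f', h3, h4⟩ := hE i z hz r hr h1 _ ((hf i).mono inter_subset_right) h2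
    have h5 : ∀ y ∈ ball z r', y ∈ (A.C i).W → S i y = f' y := by
      intro y hy hy'
      have := hne i y hy'
      have h6 := (h3.differentiableAt (isOpen_ball.mem_nhds hy)).continuousAt.tendsto
      rw [hS]
      refine Tendsto.limUnder_eq ((h6.mono_left nhdsWithin_le_nhds).congr' ?_)
      filter_upwards [self_mem_nhdsWithin, nhdsWithin_le_nhds (isOpen_ball.mem_nhds hy)]
        with w hw hw'
      exact h4 ⟨hw', hw⟩
    refine ⟨(h3.differentiableAt (ball_mem_nhds z hr')).congr_of_eventuallyEq ?_, fun h => ?_⟩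
    · filter_upwards [ball_mem_nhds z hr', (A.C i).isOpen.mem_nhds hz] with y hy hy'
      exact h5 y hy hy'
    · rw [h5 z (mem_ball_self hr') hz]
      exact h4 ⟨mem_ball_self hr', h⟩
  refine ⟨S, ⟨fun i z hz => (key i z hz).1.differentiableWithinAt, fun i k z hz y hy he => ?_⟩,
    fun i z hz => (key i z hz.1).2 hz⟩
  obtain ⟨O, φ, h1, h2, rfl, h4⟩ := A.trans i k z hz y hy he
  have := hne i z hz
  have c1 : ContinuousAt (fun w => S k (φ w)) z := (key k _ hy).1.continuousAt.comp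
    (h1.hol.differentiableAt (h1.isOpen.mem_nhds h2)).continuousAt
  have c2 : ContinuousAt (fun w => L.g i k (A.p i w) ^ (U.m * j) * S i w) z :=
    ((L.g_hol i k z hz ⟨_, hy, he.symm⟩).continuousAt.pow _).mul (key i z hz).1.continuousAt
  refine tendsto_nhds_unique_of_eventuallyEq (c1.tendsto.mono_left nhdsWithin_le_nhds)
    (c2.tendsto.mono_left (nhdsWithin_le_nhds (s := U.D.W i))) ?_
  filter_upwards [self_mem_nhdsWithin, nhdsWithin_le_nhds (h1.isOpen.mem_nhds h2)] with w hw hw'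
  have h5 : φ w ∈ U.D.W k := ⟨h1.maps hw', by rw [mem_preimage, h4 w hw']; exact hw.2⟩
  rw [(key k _ h5.1).2 h5, (key i w hw.1).2 hw, h4 w hw',
    U.sec.2 i k w hw.1 _ h5.1 (h4 w hw').symm, mul_pow, ← pow_mul]
  ring

/-- The L2 norm in a chart. -/
theorem Up.loc_l2 (U : Up A μ L) (j : ℕ) {C₀ C₁ : ℝ} (h0 : 0 ≤ C₀) (h1 : 0 ≤ C₁) {i : A.ι}
    {z : E N} {r : ℝ} (hr : closedBall z r ⊆ (A.C i).W) : ∃ B : ℝ, 0 < B ∧
      ∀ (g s : X → ℂ) (q : X → ℝ), (∀ y, q y ≤ 0) →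
        (∀ y, ‖s y‖ ^ 2 * Real.exp (-(j * U.φ y)) ≤ C₁) →
        ∫⁻ y in U.D.W i, ENNReal.ofReal (Real.exp (-(j * U.φ (A.p i y) + q (A.p i y))) *
          ‖((A.C i).σ y).det‖ * ‖g (A.p i y) - s (A.p i y)‖ ^ 2) ≤ ENNReal.ofReal C₀ →
        ∫⁻ y in ball z r ∩ U.D.W i, ENNReal.ofReal (‖g (A.p i y) * U.s i y ^ j‖ ^ 2) ≤
          ENNReal.ofReal (B ^ 2) := by
  obtain ⟨c, B, hc, -, hb⟩ := cpt_bds L (isCompact_closedBall z r) hr
  obtain ⟨K, hK⟩ : ∃ K, K = Real.exp (j * (U.m * B)) := ⟨_, rfl⟩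
  have hK0 : 0 < K := hK ▸ Real.exp_pos _
  have hv : volume (ball z r) ≠ ⊤ := measure_ball_lt_top.ne
  have hT : 0 ≤ 2 * K / c * C₀ + 2 * K * C₁ * (volume (ball z r)).toReal := by positivity
  refine ⟨2 * K / c * C₀ + 2 * K * C₁ * (volume (ball z r)).toReal + 1, by positivity,
    fun g s q hq hs hI => ?_⟩
  have hpt : ∀ y ∈ ball z r ∩ U.D.W i, ENNReal.ofReal (‖g (A.p i y) * U.s i y ^ j‖ ^ 2) ≤
      ENNReal.ofReal (2 * K / c) * ENNReal.ofReal (Real.exp (-(j * U.φ (A.p i y) +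
        q (A.p i y))) * ‖((A.C i).σ y).det‖ * ‖g (A.p i y) - s (A.p i y)‖ ^ 2) +
        ENNReal.ofReal (2 * K * C₁) := by
    intro y hy
    rw [← ENNReal.ofReal_mul (by positivity), ← ENNReal.ofReal_add (by positivity) (by positivity)]
    refine ENNReal.ofReal_le_ofReal ?_
    obtain ⟨b1, b2, -⟩ := hb y (ball_subset_closedBall hy.1)
    have e1 := U.φ_eq i y hy.2.1 hy.2.2
    have e2 : ‖U.s i y‖ ^ 2 = Real.exp (-U.φ (A.p i y) + U.m * L.ψ i y) := by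
      rw [Real.exp_add, e1, mul_assoc, ← Real.exp_add, neg_add_cancel, Real.exp_zero, mul_one]
    have e3 : ‖U.s i y ^ j‖ ^ 2 ≤ K * Real.exp (-(j * U.φ (A.p i y))) := by
      rw [norm_pow, ← pow_mul, mul_comm j 2, pow_mul, e2, ← Real.exp_nat_mul, hK, ← Real.exp_add]
      refine Real.exp_le_exp.2 ?_
      have := mul_le_mul_of_nonneg_left (mul_le_mul_of_nonneg_left (abs_le.1 b2).2
        (Nat.cast_nonneg U.m)) (Nat.cast_nonneg (α := ℝ) j)
      linarith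
    have e4 : ‖g (A.p i y)‖ ^ 2 ≤ 2 * ‖g (A.p i y) - s (A.p i y)‖ ^ 2 + 2 * ‖s (A.p i y)‖ ^ 2 := by
      have h2 := norm_add_le (g (A.p i y) - s (A.p i y)) (s (A.p i y))
      rw [sub_add_cancel] at h2
      have h3 := pow_le_pow_left₀ (norm_nonneg _) h2 2
      nlinarith [sq_nonneg (‖g (A.p i y) - s (A.p i y)‖ - ‖s (A.p i y)‖)]
    have e5 : Real.exp (-(j * U.φ (A.p i y))) ≤ Real.exp (-(j * U.φ (A.p i y) + q (A.p i y))) :=
      Real.exp_le_exp.2 (by linarith [hq (A.p i y)])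
    have e6 : 1 ≤ ‖((A.C i).σ y).det‖ / c := (one_le_div hc).2 b1
    have e7 := hs (A.p i y)
    have e0 := Real.exp_pos (-(j * U.φ (A.p i y)))
    generalize Real.exp (-(j * U.φ (A.p i y))) = a at *
    generalize Real.exp (-(j * U.φ (A.p i y) + q (A.p i y))) = a' at *
    have e8 : a ≤ a' * (‖((A.C i).σ y).det‖ / c) :=
      e5.trans (le_mul_of_one_le_right (e0.le.trans e5) e6)
    have e9 := mul_le_mul_of_nonneg_right e8 (sq_nonneg ‖g (A.p i y) - s (A.p i y)‖)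
    calc ‖g (A.p i y) * U.s i y ^ j‖ ^ 2 = ‖g (A.p i y)‖ ^ 2 * ‖U.s i y ^ j‖ ^ 2 := by
          rw [norm_mul, mul_pow]
      _ ≤ (2 * ‖g (A.p i y) - s (A.p i y)‖ ^ 2 + 2 * ‖s (A.p i y)‖ ^ 2) * (K * a) :=
          mul_le_mul e4 e3 (by positivity) (by positivity)
      _ = 2 * K * (a * ‖g (A.p i y) - s (A.p i y)‖ ^ 2) + 2 * K * (‖s (A.p i y)‖ ^ 2 * a) := by
          ring
      _ ≤ 2 * K * (a' * (‖((A.C i).σ y).det‖ / c) * ‖g (A.p i y) - s (A.p i y)‖ ^ 2) +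
          2 * K * C₁ := by gcongr
      _ = _ := by ring
  refine (setLIntegral_mono' (isOpen_ball.inter (U.D.isOpen i)).measurableSet hpt).trans ?_
  rw [lintegral_add_right _ measurable_const, lintegral_const_mul' _ _ ENNReal.ofReal_ne_top,
    setLIntegral_const]
  refine (add_le_add (mul_le_mul_right ((lintegral_mono_set inter_subset_right).trans hI) _)
    (mul_le_mul_right (measure_mono inter_subset_left) _)).trans ?_
  rw [← ENNReal.ofReal_toReal hv, ← ENNReal.ofReal_mul (by positivity),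
    ← ENNReal.ofReal_mul (by positivity), ← ENNReal.ofReal_add (by positivity) (by positivity),
    ENNReal.toReal_ofReal ENNReal.toReal_nonneg]
  exact ENNReal.ofReal_le_ofReal (by nlinarith)

end Pool.Agent.BP
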