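import Pool.Agent.P.MP_63735c_ag.BPE3
import Pool.Agent.P.MP_63735c_ag.BPE4
import Pool.Agent.P.MP_63735c_ag.BPE9
import Pool.Agent.P.MP_63735c_ag.BPEA

/-! A section that does not vanish at `x`. -/

open scoped ComplexOrder ContDiff Matrix Topology ENNReal
open Set Metric MeasureTheory Filter

namespace Pool.Agent.BP

open Pool.Agent.SPF Pool.Agent.CL Pool.Agent.NL Pool.Agent.CK Pool.Agent.AB Pool.Agent.SE

variable {N : ℕ} {X : Type} [TopologicalSpace X] [MeasurableSpace X] {A : Atlas X N}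
  {μ : Measure X} {L : Line A} {U : Up A μ L} {x : X}

theorem bpeb_lip (N : ℕ) {r : ℝ} (hr : 0 < r) : ∃ a : ℝ, 0 < a ∧
    ∀ (f : E N → ℂ) (z₀ : E N) (b : ℝ), 0 ≤ b → DifferentiableOn ℂ f (ball z₀ (2 * r)) →
      ∫⁻ y in ball z₀ (2 * r), ENNReal.ofReal (‖f y‖ ^ 2) ≤ ENNReal.ofReal (b ^ 2) → f z₀ = 0 →
        ∀ z ∈ ball z₀ r, ‖f z‖ ≤ a * b * ‖z - z₀‖ := by
  obtain ⟨a, ha, h⟩ := hol_l2 N hr
  refine ⟨a, ha, fun f z₀ b hb hf hi h0 z hz => ?_⟩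
  have key : ∀ w ∈ ball z₀ r, DifferentiableAt ℂ f w ∧ ‖fderiv ℂ f w‖ ≤ a * b := by
    intro w hw
    have hs : ball w r ⊆ ball z₀ (2 * r) := ball_subset_ball' (by
      have := mem_ball.1 hw
      linarith)
    have hm : AEStronglyMeasurable (fun y => ‖f y‖ ^ 2) (volume.restrict (ball w r)) :=
      (((hf.mono hs).continuousOn.norm).pow 2).aestronglyMeasurable measurableSet_ball
    have hn : 0 ≤ᵐ[volume.restrict (ball w r)] fun y => ‖f y‖ ^ 2 :=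
      Eventually.of_forall fun _ => sq_nonneg _
    have h1 := (lintegral_mono_set hs).trans hi
    refine ⟨hf.differentiableAt (isOpen_ball.mem_nhds (hs (mem_ball_self hr))),
      (h f w b hb (hf.mono hs) ⟨hm, (hasFiniteIntegral_iff_ofReal hn).2
        (h1.trans_lt ENNReal.ofReal_lt_top)⟩ ?_).2⟩
    rw [integral_eq_lintegral_of_nonneg_ae hn hm]
    exact ENNReal.toReal_le_of_le_ofReal (sq_nonneg _) h1
  have := (convex_ball z₀ r).norm_image_sub_le_of_norm_fderiv_le (𝕜 := ℂ) (fun w hw => (key w hw).1)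
    (fun w hw => (key w hw).2) (mem_ball_self hr) hz
  rwa [h0, sub_zero] at this

theorem bpeb_sq (g s : ℂ) {w c : ℝ} (hw : 0 ≤ w) (h1 : c ≤ ‖s‖ ^ 2 * w) (h2 : ‖g‖ ^ 2 * w ≤ c / 4) :
    c / 4 ≤ ‖g - s‖ ^ 2 * w := by
  have h3 : ‖s‖ ≤ ‖g‖ + ‖g - s‖ := by simpa using norm_sub_le g (g - s)
  have h4 : ‖s‖ ^ 2 ≤ 2 * ‖g‖ ^ 2 + 2 * ‖g - s‖ ^ 2 := by
    nlinarith [norm_nonneg s, norm_nonneg g, norm_nonneg (g - s), sq_nonneg (‖g‖ - ‖g - s‖)]
  nlinarith [mul_le_mul_of_nonneg_right h4 hw]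

theorem UG.exists_sec [CompactSpace X] [T2Space X] [BorelSpace X] (H : UG U x)
    (hμ : IsVolume A μ) {K : Form11 A} (hK : ∀ i, ∀ z ∈ (A.C i).W, (K.h i z).PosDef)
    (hE : U.Ext) {i : A.ι} {z₀ : E N} (hz : z₀ ∈ (A.C i).W) (hx : A.p i z₀ = x) :
    ∃ j : ℕ, 1 ≤ j ∧ ∃ S, L.IsSection (U.m * j) S ∧ S i z₀ ≠ 0 := by
  by_contra hcon
  have ball_in : ∀ i, ∀ z ∈ (A.C i).W, ∃ r > 0, closedBall z r ⊆ (A.C i).W := fun i z hz =>
    nhds_basis_closedBall.mem_iff.1 ((A.C i).isOpen.mem_nhds hz)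
  obtain ⟨r, hr, hrW⟩ := ball_in i z₀ hz
  obtain ⟨r₀, hr₀, rfl⟩ : ∃ r₀, 0 < r₀ ∧ r = 2 * r₀ := ⟨r / 2, half_pos hr, by ring⟩
  obtain ⟨k, C, r₁, hC, hr₁, h3⟩ := H.sch_pt hz hx
  obtain ⟨c, r₂, hc, hr₂, h4⟩ := U.vol_big hμ hz k
  obtain ⟨e, C₀, he, hC₀, h9⟩ := H.l2_out hμ hK (4 * N + 1)
  have hCe : 0 ≤ H.C ^ e := pow_nonneg H.C_pos.le e
  obtain ⟨B, hB, hA⟩ := U.loc_l2 (H.d * e) hC₀.le hCe hrW
  obtain ⟨a, ha, hL⟩ := bpeb_lip N hr₀
  obtain ⟨c₁, B₁, hc₁, hB₁, hb⟩ := cpt_bds L (isCompact_closedBall z₀ (2 * r₀)) hrW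
  have hτ := H.τ_pos
  have hce : 0 < H.c ^ e := pow_pos H.c_pos e
  set κ := (Real.exp (-1) * H.τ / (C + 1)) ^ (4 * N + 1) * c₁ * (H.c ^ e / 4) with hκ
  have hκ0 : 0 < κ := by positivity
  have small : ∀ {f : ℝ → ℝ} {t : ℝ}, Continuous f → f 0 < t → ∀ᶠ ρ in 𝓝[>] 0, f ρ < t :=
    fun hf ht => nhdsWithin_le_nhds (hf.continuousAt.eventually_lt continuousAt_const ht)
  obtain ⟨ρ, ⟨q0, q1, q2, q3, q4, q5, q6, q7⟩⟩ := (eventually_mem_nhdsWithin.and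
    ((small continuous_id hr₁).and ((small continuous_id hr₂).and ((small continuous_id hτ).and
    ((small (f := fun ρ => 2 * (C * ρ)) (by fun_prop) (by simpa using hτ)).and
    ((small (f := fun ρ => ρ ^ 2) (by fun_prop) (by simpa using hr₀)).and
    ((small (f := fun ρ => (a * B * ρ ^ 2) ^ 2 * Real.exp ((H.d * e : ℕ) * (U.m * B₁)))
      (t := H.c ^ e / 4) (by fun_prop) (by simpa using hce)).and
    (small (f := fun ρ => C₀ * ρ) (t := κ * c) (by fun_prop)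
      (by simpa using mul_pos hκ0 hc))))))))).exists
  have hρ : 0 < ρ := q0
  obtain ⟨S, b, hS, hv, hs⟩ := h4 ρ hρ q2
  obtain ⟨R₀, hR₀⟩ := U.l2_calc.2.2.2.1 b
  obtain ⟨R, hR, g, hg, hi⟩ := h9 ρ hρ q3.le R₀
  have hq0 : ∀ y, ((4 * N + 1 : ℕ) : ℝ) * H.lam H.a ρ y ≤ 0 := fun y =>
    mul_nonpos_of_nonneg_of_nonpos (Nat.cast_nonneg _) (H.lam_bd H.a ρ y).1
  obtain ⟨T, hT, hTe⟩ := U.ext_sec hμ hE hg (H.d * e) fun i' z hz' => by
    obtain ⟨r', hr', hW'⟩ := ball_in i' z hz'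
    obtain ⟨B', -, hA'⟩ := U.loc_l2 (H.d * e) hC₀.le hCe hW'
    exact ⟨r', hr', ball_subset_closedBall.trans hW', ((hA' g _ _ hq0
      (fun y => (H.sR_bd e R y).1) (hi i')).trans_lt ENNReal.ofReal_lt_top).ne⟩
  have hT0 : T i z₀ = 0 := by_contra fun h =>
    hcon ⟨H.d * e, Nat.mul_pos H.d_pos he, T, hT, h⟩
  have hbW := ball_subset_closedBall.trans hrW
  have hae : ball z₀ (2 * r₀) =ᵐ[volume] (ball z₀ (2 * r₀) ∩ U.D.W i : Set (E N)) := by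
    refine ae_eq_set.2 ⟨measure_mono_null (fun y hy => ?_) (U.null_chart hμ i),
      measure_mono_null (fun y hy => (hy.2 hy.1.1).elim) measure_empty⟩
    exact ⟨hbW hy.1, fun h => hy.2 ⟨hy.1, hbW hy.1, h⟩⟩
  have hlip := hL (T i) z₀ B hB.le ((hT.1 i).mono hbW) (by
    rw [setLIntegral_congr hae, setLIntegral_congr_fun
      (measurableSet_ball.inter (U.D.isOpen i).measurableSet)
      (g := fun y => ENNReal.ofReal (‖g (A.p i y) * U.s i y ^ (H.d * e)‖ ^ 2))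
      fun y hy => by simp only [hTe i y hy.2]]
    exact hA g _ _ hq0 (fun y => (H.sR_bd e R y).1) (hi i)) hT0
  have low : ∀ z ∈ S, κ / ρ ^ (4 * N + 1) ≤ Real.exp (-((H.d * e : ℕ) * U.φ (A.p i z) +
      (4 * N + 1 : ℕ) * H.lam H.a ρ (A.p i z))) * ‖((A.C i).σ z).det‖ *
        ‖g (A.p i z) - H.sR e R (A.p i z)‖ ^ 2 := by
    intro z hzS
    obtain ⟨s1, s2, s3, s4⟩ := hs z hzS
    obtain ⟨o1, o2⟩ := h3 ρ hρ q1 z s1 s2 s3
    have hz1 : z ∈ ball z₀ r₀ := ball_subset_ball q5.le s1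
    obtain ⟨b1, b2, -⟩ := hb z (ball_subset_closedBall (ball_subset_ball (by linarith) hz1))
    have w1 := (H.sR_bd e R (A.p i z)).2 o1 (by linarith) ((hR₀ _ s2.2 s4).trans hR)
    have w2 : ‖g (A.p i z)‖ ^ 2 * Real.exp (-((H.d * e : ℕ) * U.φ (A.p i z))) ≤ H.c ^ e / 4 := by
      have e1 : ‖g (A.p i z)‖ ^ 2 * Real.exp (-((H.d * e : ℕ) * U.φ (A.p i z))) =
          ‖T i z‖ ^ 2 * Real.exp ((H.d * e : ℕ) * (-(U.m * L.ψ i z))) := by
        rw [hTe i z s2, ← mul_neg, Real.exp_nat_mul, Real.exp_nat_mul, U.φ_eq i z s2.1 s2.2,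
          norm_mul, norm_pow]
        ring
      rw [e1]
      refine le_trans (mul_le_mul (pow_le_pow_left₀ (norm_nonneg _) ((hlip z hz1).trans
        (mul_le_mul_of_nonneg_left (mem_ball_iff_norm.1 s1).le (by positivity))) 2)
        (Real.exp_le_exp.2 (mul_le_mul_of_nonneg_left ?_ (Nat.cast_nonneg _)))
        (Real.exp_nonneg _) (sq_nonneg _)) q6.le
      rw [← mul_neg]
      exact mul_le_mul_of_nonneg_left ((neg_le_abs _).trans b2) (Nat.cast_nonneg _)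
    have w3 := bpeb_sq _ _ (Real.exp_nonneg _) w1 w2
    have ht : 0 ≤ H.t H.a (A.p i z) := (sq_nonneg _).trans (norm_sq_le_nsq _)
    have w4 : Real.exp (-1) * H.τ / (C + 1) / ρ ≤ Real.exp (-H.lam H.a ρ (A.p i z)) := by
      have l1 := (H.lam_bd H.a ρ (A.p i z)).2.1 o1
      have l2 : Real.log ((H.t H.a (A.p i z) + ρ) / H.τ) ≤ Real.log ((C + 1) * ρ / H.τ) :=
        Real.log_le_log (by positivity) (div_le_div_of_nonneg_right (by linarith) hτ.le)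
      calc _ = Real.exp (-1 - Real.log ((C + 1) * ρ / H.τ)) := by
            rw [Real.exp_sub, Real.exp_log (by positivity)]
            field_simp
        _ ≤ _ := Real.exp_le_exp.2 (by linarith)
    calc _ = (Real.exp (-1) * H.τ / (C + 1) / ρ) ^ (4 * N + 1) * c₁ * (H.c ^ e / 4) := by
          rw [hκ, div_pow _ ρ]
          ring
      _ ≤ Real.exp (-H.lam H.a ρ (A.p i z)) ^ (4 * N + 1) * ‖((A.C i).σ z).det‖ *
          (‖g (A.p i z) - H.sR e R (A.p i z)‖ ^ 2 *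
            Real.exp (-((H.d * e : ℕ) * U.φ (A.p i z)))) := by gcongr
      _ = _ := by
          rw [← Real.exp_nat_mul, neg_add, Real.exp_add, mul_neg]
          ring
  have fin : ENNReal.ofReal (κ / ρ ^ (4 * N + 1)) * ENNReal.ofReal (c * ρ ^ (4 * N)) ≤
      ENNReal.ofReal C₀ := by
    refine le_trans ?_ ((lintegral_mono_set fun z hz => (hs z hz).2.1).trans (hi i))
    refine le_trans ?_ (setLIntegral_mono' hS fun z hz => ENNReal.ofReal_le_ofReal (low z hz))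
    rw [setLIntegral_const]
    gcongr
  rw [← ENNReal.ofReal_mul (by positivity), ENNReal.ofReal_le_ofReal_iff hC₀.le] at fin
  have e2 : κ / ρ ^ (4 * N + 1) * (c * ρ ^ (4 * N)) = κ * c / ρ := by
    rw [pow_succ]
    field_simp
  rw [e2, div_le_iff₀ hρ] at fin
  exact absurd q7 (not_lt.2 fin)

end Pool.Agent.BP
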