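import Pool.Agent.P.MP_63735c_ag.BPEB
import Pool.Agent.P.MP_63735c_ag.BPD5
import Pool.Agent.P.MP_63735c_ag.BPC8
import Pool.Agent.P.MP_63735c_ag.BPB10
import Pool.Agent.P.MP_63735c_ag.BPB12

/-! Base point freeness from the potential on the base. -/

open scoped ComplexOrder ContDiff Matrix Topology ENNReal
open Set Metric MeasureTheory Filter

namespace Pool.Agent.BP

open Pool.Agent.SPF Pool.Agent.AB Pool.Agent.CK Pool.Agent.SE Pool.Agent.NL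

variable {N n : ℕ} {X : Type} [TopologicalSpace X] [MeasurableSpace X] {A : Atlas X N}
  {μ : Measure X} {L : Line A}

theorem Up.ext_of_pol [T2Space X] [PreconnectedSpace X] (U : Up A μ L) {ψ : X → ℝ}
    (h : PolX A U.W ψ) : U.Ext := by
  intro i z hz r hr _ f hf hi
  obtain ⟨R₀, h0, hB, h1⟩ := h.loc hz (h.dense _)
  have hR : 0 < min R₀ r := lt_min h0 hr
  obtain ⟨ψ', -, hp, -⟩ := h1 _ hR (min_le_left _ _)
  have hs : ball z (min R₀ r) ∩ A.p i ⁻¹' U.W ⊆ ball z r ∩ U.D.W i := fun y hy =>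
    ⟨ball_subset_ball (min_le_right _ _) hy.1,
      hB (ball_subset_closedBall (ball_subset_ball (min_le_left _ _) hy.1)), hy.2⟩
  have h2 : IntegrableOn (fun y => ‖f y‖ ^ 2) (ball z r ∩ U.D.W i) volume :=
    ⟨(hf.continuousOn.norm.pow 2).aestronglyMeasurable
      (measurableSet_ball.inter (U.D.isOpen i).measurableSet),
      (hasFiniteIntegral_iff_ofReal (Eventually.of_forall fun _ => sq_nonneg _)).2 hi.lt_top⟩
  obtain ⟨g, hg, he⟩ := hp.hol (hf.mono hs) (h2.mono_set (inter_subset_left.trans hs))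
  exact ⟨_, by positivity, g, hg, fun y hy =>
    he ⟨⟨ball_subset_ball (by linarith) hy.1, hy.2.2⟩, hy.1⟩⟩

omit [MeasurableSpace X] in
/-- One power of `L` has no base point. -/
theorem Line.unif_pow [CompactSpace X] (L : Line A)
    (h : ∀ i, ∀ z ∈ (A.C i).W, ∃ j : ℕ, 1 ≤ j ∧ ∃ s, L.IsSection j s ∧ s i z ≠ 0) :
    ∃ j : ℕ, 1 ≤ j ∧ ∃ (r : ℕ) (s : Fin r → A.ι → E N → ℂ), (∀ l, L.IsSection j (s l)) ∧
      ∀ i, ∀ z ∈ (A.C i).W, ∃ l, s l i z ≠ 0 := by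
  choose c z hz hx using A.cover
  choose j hj s hs h0 using fun x => h (c x) (z x) (hz x)
  have ho : ∀ x, IsOpen ((A.C (c x)).W ∩ s x (c x) ⁻¹' {0}ᶜ) := fun x =>
    ((hs x).1 (c x)).continuousOn.isOpen_inter_preimage (A.C _).isOpen isOpen_compl_singleton
  obtain ⟨t, ht⟩ := isCompact_univ.elim_finite_subcover
    (fun x => A.p (c x) '' ((A.C (c x)).W ∩ s x (c x) ⁻¹' {0}ᶜ))
    (fun x => A.opn _ _ (ho x) inter_subset_left)
    fun x _ => mem_iUnion.2 ⟨x, z x, ⟨hz x, h0 x⟩, hx x⟩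
  refine ⟨∏ x ∈ t, j x, Finset.one_le_prod' fun x _ => hj x, t.card,
    fun l i w => s (t.equivFin.symm l) i w ^ ((∏ x ∈ t, j x) / j (t.equivFin.symm l)),
    fun l => ⟨fun i => ((hs _).1 i).pow _, fun i k w hw y hy he => ?_⟩, fun i w hw => ?_⟩
  · beta_reduce
    rw [(hs _).2 i k w hw y hy he, mul_pow, ← pow_mul,
      Nat.mul_div_cancel' (Finset.dvd_prod_of_mem j (t.equivFin.symm l).2)]
  · obtain ⟨x, hxt, y, hy, he⟩ := mem_iUnion₂.1 (ht (mem_univ (A.p i w)))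
    refine ⟨t.equivFin ⟨x, hxt⟩, pow_ne_zero _ fun e => hy.2 ?_⟩
    rw [Equiv.symm_apply_apply] at e
    rw [mem_singleton_iff, (hs x).2 i _ w hw y hy.1 he.symm, e, mul_zero]

variable [T2Space X] [CompactSpace X] [PreconnectedSpace X] [BorelSpace X] {K : Form11 A}

theorem Kit.sec_at (hμ : IsVolume A μ) (h1 : H1 A) (h2 : H02 A)
    (hη : ∃ i, ∃ z ∈ (A.C i).W, (A.C i).η z ≠ 0) {S : Sys K L n} {Y : Type} [TopologicalSpace Y]
    [T2Space Y] [MeasurableSpace Y] [BorelSpace Y] (T : Kit S μ Y) (i : A.ι) (z : E N)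
    (hz : z ∈ (A.C i).W) : ∃ j : ℕ, 1 ≤ j ∧ ∃ s, L.IsSection j s ∧ s i z ≠ 0 := by
  obtain ⟨ξ, a, C, hξ⟩ := T.exists_xi hμ h2 hη
  obtain ⟨U, e1, e2, -, -, e3⟩ := T.exists_up hμ h1 hξ
  obtain ⟨H⟩ := T.germ hμ (A.p i z)
  have hp := T.pol
  rw [← e1] at hp e3
  obtain ⟨H'⟩ := Germ.ug (U := U) (e1 ▸ e2 ▸ H) hξ.a_pos fun i z hz v => (e3 i z hz.1 hz.2 v).ge
  obtain ⟨j, hj, h⟩ := H'.exists_sec hμ S.K_pos (U.ext_of_pol hp) hz rfl
  exact ⟨_, Nat.mul_pos U.m_pos hj, h⟩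

/-- Finitely many sections of one power of `L` have no common zero. -/
theorem Sys.bpf (hμ : IsVolume A μ) (h1 : H1 A) (h2 : H02 A)
    (hη : ∃ i, ∃ z ∈ (A.C i).W, (A.C i).η z ≠ 0) (S : Sys K L n) :
    ∃ j : ℕ, 1 ≤ j ∧ ∃ (r : ℕ) (s : Fin r → A.ι → E N → ℂ), (∀ l, L.IsSection j (s l)) ∧
      ∀ i, ∀ z ∈ (A.C i).W, ∃ l, s l i z ≠ 0 := by
  obtain ⟨Y, _, _, ⟨B⟩⟩ := S.exists_base
  borelize Y
  obtain ⟨T⟩ := B.exists_kit hμ
  exact Line.unif_pow L (T.sec_at hμ h1 h2 hη)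

end Pool.Agent.BP
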