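import Pool.Agent.P.MP_63735c_ag.BPDefs
import Pool.Agent.P.MP_63735c_ag.CLMV
import Pool.Agent.P.MP_63735c_ag.ABK1

/-! Positive superharmonic functions on a disc are in every Lp. -/

open scoped ComplexOrder ContDiff Matrix Topology ENNReal NNReal
open Set Metric MeasureTheory Filter

namespace Pool.Agent.BP

open Pool.Agent.SPF Pool.Agent.AB Pool.Agent.CK Pool.Agent.SE Pool.Agent.NL Pool.Agent.CL

/-- The Laplacian on the complex line. -/
noncomputable def lap (w : ℂ → ℝ) (ζ : ℂ) : ℝ :=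
  fderiv ℝ (fderiv ℝ w) ζ 1 1 + fderiv ℝ (fderiv ℝ w) ζ Complex.I Complex.I

theorem bpt3a_lap (w : ℂ → ℝ) (ζ : ℂ) : Lv w ζ 1 = lap w ζ := by
  rw [Lv, smul_eq_mul, mul_one]
  rfl

theorem bpt3a_rot (B : ℂ →L[ℝ] ℂ →L[ℝ] ℝ) {e : ℂ} (he : ‖e‖ = 1) :
    B e e + B (e * Complex.I) (e * Complex.I) = B 1 1 + B Complex.I Complex.I := by
  have h1 : e.re ^ 2 + e.im ^ 2 = 1 := by
    rw [← Real.sqrt_eq_one, ← Complex.norm_eq_sqrt_sq_add_sq, he]
  have e1 : e = e.re • (1 : ℂ) + e.im • Complex.I := by simp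
  have e2 : e * Complex.I = (-e.im) • (1 : ℂ) + e.re • Complex.I := by
    apply Complex.ext <;> simp
  rw [e2]
  generalize e.re = a at *
  generalize e.im = b at *
  rw [e1]
  simp only [map_add, map_smul, _root_.add_apply, _root_.smul_apply, smul_eq_mul]
  linear_combination (B 1 1 + B Complex.I Complex.I) * h1

theorem bpt3a_swap {F : ℝ → ℝ → ℝ} (hF : Continuous F.uncurry) (a b c d : ℝ) :
    ∫ x in a..b, ∫ y in c..d, F x y = ∫ y in c..d, ∫ x in a..b, F x y :=
  intervalIntegral_intervalIntegral_swap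
    ((hF.continuousOn.integrableOn_compact (isCompact_uIcc.prod isCompact_uIcc)).mono_set
      (prod_mono uIoc_subset_uIcc uIoc_subset_uIcc))

theorem bpt3a_mean {V : ℂ → ℝ} {r : ℝ} (hr : 0 < r) (hV : ContDiff ℝ 2 V)
    (h : ∀ ζ ∈ closedBall (0 : ℂ) r, lap V ζ ≤ 0) :
    ∫ t in (0 : ℝ)..(2 * Real.pi), V (r • circleMap 0 1 t) ≤ 2 * Real.pi * V 0 := by
  have h1 : ContDiff ℝ 1 (fderiv ℝ V) := hV.fderiv_right (by norm_num)
  have c1 := h1.continuous
  have c2 := h1.continuous_fderiv one_ne_zero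
  have ce := continuous_circleMap 0 1
  have d1 := fun x => (h1.differentiable one_ne_zero x).hasFDerivAt
  have ang : ∀ s : ℝ, ∫ t in (0 : ℝ)..(2 * Real.pi),
      (s * fderiv ℝ (fderiv ℝ V) (s • circleMap 0 1 t) (circleMap 0 1 t * Complex.I)
        (circleMap 0 1 t * Complex.I) - fderiv ℝ V (s • circleMap 0 1 t) (circleMap 0 1 t)) = 0 := by
    intro s
    rw [intervalIntegral.integral_eq_sub_of_hasDerivAt
      (f := fun t => fderiv ℝ V (s • circleMap 0 1 t) (circleMap 0 1 t * Complex.I))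
      (fun t _ => ?_) (Continuous.intervalIntegrable (by fun_prop) _ _)]
    · have := periodic_circleMap 0 1 0
      rw [zero_add] at this
      rw [this, sub_self]
    · have h2 := ((d1 _).comp_hasDerivAt t ((hasDerivAt_circleMap 0 1 t).const_smul s)).clm_apply
        ((hasDerivAt_circleMap 0 1 t).mul_const Complex.I)
      refine h2.congr_deriv ?_
      rw [mul_assoc, Complex.I_mul_I, mul_neg_one, map_neg, map_smul]
      simp only [_root_.smul_apply, Pi.smul_apply, smul_eq_mul, Function.comp_apply]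
      ring
  have rad : ∀ ρ : ℝ, ∀ e : ℂ, ∫ s in (0 : ℝ)..ρ,
      (fderiv ℝ V (s • e) e + s * fderiv ℝ (fderiv ℝ V) (s • e) e e) = ρ * fderiv ℝ V (ρ • e) e := by
    intro ρ e
    rw [intervalIntegral.integral_eq_sub_of_hasDerivAt (f := fun s => s * fderiv ℝ V (s • e) e)
      (fun s _ => ?_) (Continuous.intervalIntegrable (by fun_prop) _ _)]
    · simp
    · have h2 := (hasDerivAt_id s).mul (((d1 _).comp_hasDerivAt s
        ((hasDerivAt_id s).smul_const e)).clm_apply (hasDerivAt_const s e))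
      refine h2.congr_deriv ?_
      simp
  have ray : ∀ e : ℂ, ∫ s in (0 : ℝ)..r, fderiv ℝ V (s • e) e = V (r • e) - V 0 := by
    intro e
    rw [intervalIntegral.integral_eq_sub_of_hasDerivAt (f := fun s => V (s • e))
      (fun s _ => ?_) (Continuous.intervalIntegrable (by fun_prop) _ _)]
    · simp
    · have h2 := (hV.differentiable (by norm_num) _).hasFDerivAt.comp_hasDerivAt s
        ((hasDerivAt_id s).smul_const e)
      refine h2.congr_deriv ?_
      simp
  have hπ : (0 : ℝ) ≤ 2 * Real.pi := by positivity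
  have g0 : ∀ ρ ∈ Ioc 0 r, ∫ t in (0 : ℝ)..(2 * Real.pi),
      fderiv ℝ V (ρ • circleMap 0 1 t) (circleMap 0 1 t) ≤ 0 := by
    intro ρ hρ
    refine nonpos_of_mul_nonpos_right ?_ hρ.1
    rw [← intervalIntegral.integral_const_mul]
    simp only [← rad ρ]
    rw [bpt3a_swap (by unfold Function.uncurry; fun_prop), ← neg_nonneg,
      ← intervalIntegral.integral_neg]
    refine intervalIntegral.integral_nonneg hρ.1.le fun s hs => ?_
    refine neg_nonneg.2 (le_trans (intervalIntegral.integral_mono_on hπ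
      (Continuous.intervalIntegrable (by fun_prop) _ _)
      (Continuous.intervalIntegrable (by fun_prop) _ _) fun t _ => ?_)
      ((intervalIntegral.integral_neg.trans (neg_eq_zero.2 (ang s))).le))
    have h2 := bpt3a_rot (fderiv ℝ (fderiv ℝ V) (s • circleMap 0 1 t)) (e := circleMap 0 1 t)
      (by simp)
    have h3 := h (s • circleMap 0 1 t) (by
      rw [mem_closedBall_zero_iff, norm_smul, Real.norm_of_nonneg hs.1]
      simpa using hs.2.trans hρ.2)
    rw [lap, ← h2] at h3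
    nlinarith [mul_nonneg hs.1 (neg_nonneg.2 h3)]
  have cV := hV.continuous
  have e1 : ∫ t in (0 : ℝ)..(2 * Real.pi), (V (r • circleMap 0 1 t) - V 0) ≤ 0 := by
    simp only [← ray]
    rw [bpt3a_swap (by unfold Function.uncurry; fun_prop), intervalIntegral.integral_of_le hr.le]
    exact setIntegral_nonpos measurableSet_Ioc g0
  rw [intervalIntegral.integral_sub (Continuous.intervalIntegrable (by fun_prop) _ _)
    (Continuous.intervalIntegrable (by fun_prop) _ _), intervalIntegral.integral_const,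
    sub_zero, smul_eq_mul] at e1
  linarith

theorem super_mean {w : ℂ → ℝ} {R r : ℝ} (hr : 0 < r) (hR : r < R)
    (hw : ContDiffOn ℝ ∞ w (ball 0 R)) (h : ∀ ζ ∈ ball (0 : ℂ) R, lap w ζ ≤ 0) :
    ∫ t in (0 : ℝ)..(2 * Real.pi), w (circleMap 0 r t) ≤ 2 * Real.pi * w 0 := by
  let χ : ContDiffBump (0 : ℂ) := ⟨(2 * r + R) / 3, (r + 2 * R) / 3, by linarith, by linarith⟩
  have hV : ContDiff ℝ 2 fun t => χ t * w t := contDiff_iff_contDiffAt.2 fun t => by
    by_cases ht : t ∈ ball (0 : ℂ) R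
    · exact χ.contDiffAt.mul ((hw.contDiffAt (isOpen_ball.mem_nhds ht)).of_le (by norm_cast))
    · have h1 : (closedBall (0 : ℂ) ((r + 2 * R) / 3))ᶜ ∈ 𝓝 t :=
        isClosed_closedBall.isOpen_compl.mem_nhds fun h =>
          ht (closedBall_subset_ball (by linarith) h)
      refine (contDiffAt_const (c := (0 : ℝ))).congr_of_eventuallyEq ?_
      filter_upwards [h1] with x hx
      rw [χ.zero_of_le_dist (not_le.1 fun h => hx (mem_closedBall.2 h)).le, zero_mul]
  have he : ∀ ζ ∈ closedBall (0 : ℂ) r, (fun t => χ t * w t) =ᶠ[𝓝 ζ] w := fun ζ hζ => by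
    filter_upwards [isOpen_ball.mem_nhds
      (closedBall_subset_ball (by linarith : r < (2 * r + R) / 3) hζ)] with y hy
    rw [χ.one_of_mem_closedBall (ball_subset_closedBall hy), one_mul]
  have key := bpt3a_mean hr hV fun ζ hζ => by
    rw [← bpt3a_lap, ABK.Lv_congr (he ζ hζ), bpt3a_lap]
    exact h ζ (closedBall_subset_ball hR hζ)
  rw [(he 0 (mem_closedBall_self hr.le)).eq_of_nhds] at key
  refine le_trans (le_of_eq (intervalIntegral.integral_congr fun t _ => ?_)) key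
  have e : r • circleMap 0 1 t = circleMap 0 r t := by simp [circleMap]
  rw [e]
  exact ((he _ (by simp [abs_of_pos hr])).eq_of_nhds).symm

theorem bpt3a_l1 : ∃ C : ℝ, 0 < C ∧ ∀ V : ℂ → ℝ, ContDiff ℝ 2 V → (∀ t, 0 ≤ V t) →
    (∀ t ∈ ball (0 : ℂ) 1, Lv V t 1 ≤ 0) → ∫ t in closedBall (0 : ℂ) (3 / 4), V t ≤ C * V 0 := by
  obtain ⟨w, hw, h0, h1, -, ⟨c, hc, hcw⟩, C, -, H⟩ := mv_plane
  refine ⟨c⁻¹, inv_pos.2 hc, fun V hV hV0 hL => ?_⟩
  have key := H V (fun _ => 0) hV.contDiffOn fun t ht => by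
    rw [ENNReal.ofReal_eq_zero.2 (hL t ht)]
  simp only [lintegral_zero, mul_zero, nonpos_iff_eq_zero, ENNReal.ofReal_eq_zero] at key
  have hi : Integrable fun t => V t * w t := by
    simpa only [mul_comm] using clmv0_int hw.continuous hV.continuous h1
  have hB : IntegrableOn V (closedBall (0 : ℂ) (3 / 4)) :=
    hV.continuous.continuousOn.integrableOn_compact (isCompact_closedBall _ _)
  rw [le_inv_mul_iff₀ hc, ← integral_const_mul]
  calc ∫ t in closedBall (0 : ℂ) (3 / 4), c * V t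
      ≤ ∫ t in closedBall (0 : ℂ) (3 / 4), V t * w t :=
        setIntegral_mono_on (hB.const_mul c) hi.integrableOn measurableSet_closedBall fun t ht => by
          rw [mul_comm]
          exact mul_le_mul_of_nonneg_left (hcw t (mem_closedBall_zero_iff.1 ht)) (hV0 t)
    _ ≤ ∫ t, V t * w t :=
        setIntegral_le_integral hi (Eventually.of_forall fun t => mul_nonneg (hV0 t) (h0 t))
    _ ≤ V 0 := by linarith

theorem bpt3a_norm (L : ℂ →L[ℝ] ℝ) : ‖L‖ ^ 2 ≤ L 1 ^ 2 + L Complex.I ^ 2 := by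
  have h : ‖L‖ ≤ √(L 1 ^ 2 + L Complex.I ^ 2) := by
    refine L.opNorm_le_bound (Real.sqrt_nonneg _) fun z => ?_
    have e : L z = z.re * L 1 + z.im * L Complex.I := by
      rw [← smul_eq_mul, ← smul_eq_mul, ← map_smul, ← map_smul, ← map_add]
      congr 1
      simp
    have e2 : ‖z‖ = √(z.re ^ 2 + z.im ^ 2) := by
      rw [Complex.norm_eq_sqrt_sq_add_sq]
    rw [e, e2, ← Real.sqrt_mul (by positivity), Real.norm_eq_abs]
    refine Real.abs_le_sqrt ?_
    nlinarith [sq_nonneg (z.re * L Complex.I - z.im * L 1)]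
  calc ‖L‖ ^ 2 ≤ √(L 1 ^ 2 + L Complex.I ^ 2) ^ 2 := pow_le_pow_left₀ (norm_nonneg _) h 2
    _ = _ := Real.sq_sqrt (by positivity)

theorem bpt3a_pt {f : ℂ → ℝ} (hf : ContDiff ℝ 2 f) {t : ℂ} (h0 : 0 < f t)
    (h : Lv (fun y => f y ^ 4) t 1 ≤ 0) :
    4 * ‖fderiv ℝ f t‖ ^ 2 ≤ -Lv (fun y => f y ^ 2) t 1 := by
  have e4 := ABK.Lv_fun (q := f) (x := t) (g := fun y => y ^ 4) (g1 := fun y => 4 * y ^ 3)
    (g2 := 12 * f t ^ 2) hf.contDiffAt
    (Eventually.of_forall fun y => by simpa using hasDerivAt_pow 4 y)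
    (((hasDerivAt_pow 3 (f t)).const_mul 4).congr_deriv (by push_cast; ring)) 1
  have e2 := ABK.Lv_fun (q := f) (x := t) (g := fun y => y ^ 2) (g1 := fun y => 2 * y)
    (g2 := 2) hf.contDiffAt
    (Eventually.of_forall fun y => by simpa using hasDerivAt_pow 2 y)
    (by simpa using (hasDerivAt_id (f t)).const_mul 2) 1
  rw [ABK.dc_sq, smul_eq_mul, mul_one] at e4 e2
  have hn := bpt3a_norm (fderiv ℝ f t)
  rw [e4] at h
  rw [e2]
  generalize fderiv ℝ f t 1 ^ 2 + fderiv ℝ f t Complex.I ^ 2 = D at *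
  have h2 : f t ^ 2 * (f t * Lv f t 1 + 3 * D) ≤ 0 := by linarith
  have h3 : f t * Lv f t 1 + 3 * D ≤ 0 := by
    by_contra hc
    exact absurd h2 (not_le.2 (mul_pos (pow_pos h0 2) (not_le.1 hc)))
  linarith

theorem bpt3a_energy (χ : ContDiffBump (0 : ℂ)) (hχ : χ.rOut < 3 / 4) : ∃ C : ℝ, ∀ f : ℂ → ℝ,
    ContDiff ℝ 2 f → (∀ t, 0 < f t) → (∀ t ∈ ball (0 : ℂ) 1, Lv (fun y => f y ^ 4) t 1 ≤ 0) →
      f 0 = 1 → ∫ t, ‖fderiv ℝ (fun y => χ y * f y) t‖ ^ 2 ≤ C := by
  obtain ⟨C, hC, H⟩ := bpt3a_l1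
  have hc : ContDiff ℝ 2 χ := χ.contDiff
  have hθ : ContDiff ℝ 2 fun y => χ y ^ 2 := hc.pow 2
  set B := closedBall (0 : ℂ) (3 / 4) with hB
  have hBc : IsCompact B := isCompact_closedBall _ _
  have hz : ∀ t ∉ B, (χ : ℂ → ℝ) =ᶠ[𝓝 t] 0 := fun t ht => by
    filter_upwards [hBc.isClosed.isOpen_compl.mem_nhds ht] with y hy
    exact χ.zero_of_le_dist (hχ.le.trans (not_le.1 fun h => hy (mem_closedBall.2 h)).le)
  have hz2 : ∀ t ∉ B, (fun y => χ y ^ 2) =ᶠ[𝓝 t] 0 := fun t ht => by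
    filter_upwards [hz t ht] with y hy
    simp [hy]
  let k : ℂ → ℝ := fun t => 2 * ‖fderiv ℝ χ t‖ ^ 2 -
    (D2 (fun y => χ y ^ 2) t 1 + D2 (fun y => χ y ^ 2) t Complex.I) / 2
  have c2 := fun e => continuousOn_univ.1 (clgreen_cont isOpen_univ hθ.contDiffOn e).2
  have c1 := hc.continuous_fderiv (by norm_num)
  have hk : Continuous k :=
    (continuous_const.mul (c1.norm.pow 2)).sub (((c2 1).add (c2 Complex.I)).div_const 2)
  have hk0 : ∀ t ∉ B, k t = 0 := fun t ht => by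
    simp only [k, (clgreen_zero (hz2 t ht) _).2.2, (hz t ht).fderiv_eq]
    simp
  obtain ⟨M, hM⟩ := hBc.exists_bound_of_continuousOn hk.continuousOn
  have hM0 : 0 ≤ M := (norm_nonneg _).trans (hM 0 (mem_closedBall_self (by norm_num)))
  refine ⟨M * (volume.real B + C), fun f hf h0 hL h1 => ?_⟩
  have hg : ContDiff ℝ 2 fun y => f y ^ 2 := hf.pow 2
  have G := fun e => green_dir volume isOpen_univ hg.contDiffOn hθ.contDiffOn hBc (subset_univ _)
    (fun t ht => Or.inr (hz2 t ht.2)) e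
  simp only [integrableOn_univ, Measure.restrict_univ] at G
  obtain ⟨a1, a2, a3⟩ := G 1
  obtain ⟨b1, b2, b3⟩ := G Complex.I
  have cf := hf.continuous
  have ab1 : Integrable fun t => (χ t ^ 2 * D2 (fun y => f y ^ 2) t 1 +
      χ t ^ 2 * D2 (fun y => f y ^ 2) t Complex.I) / 2 := (a1.add b1).div_const 2
  have ab2 : Integrable fun t => (f t ^ 2 * D2 (fun y => χ y ^ 2) t 1 +
      f t ^ 2 * D2 (fun y => χ y ^ 2) t Complex.I) / 2 := (a2.add b2).div_const 2
  have i0 : Integrable fun t => f t ^ 2 * (2 * ‖fderiv ℝ χ t‖ ^ 2) := by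
    refine Continuous.integrable_of_hasCompactSupport (by fun_prop)
      (HasCompactSupport.intro hBc fun t ht => ?_)
    rw [(hz t ht).fderiv_eq]
    simp
  have hu : ContDiff ℝ 2 fun y => χ y * f y := hc.mul hf
  have cu := hu.continuous_fderiv (by norm_num)
  have i1 : Integrable fun t => ‖fderiv ℝ (fun y => χ y * f y) t‖ ^ 2 := by
    refine Continuous.integrable_of_hasCompactSupport (by fun_prop)
      (HasCompactSupport.intro hBc fun t ht => ?_)
    have : (fun y => χ y * f y) =ᶠ[𝓝 t] 0 := by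
      filter_upwards [hz t ht] with y hy
      simp [hy]
    rw [this.fderiv_eq]
    simp
  have i2 : IntegrableOn (fun t => f t ^ 4) B :=
    (cf.pow 4).continuousOn.integrableOn_compact hBc
  have i3 : IntegrableOn (fun _ : ℂ => (1 : ℝ)) B := continuousOn_const.integrableOn_compact hBc
  calc ∫ t, ‖fderiv ℝ (fun y => χ y * f y) t‖ ^ 2
      ≤ ∫ t, (f t ^ 2 * (2 * ‖fderiv ℝ χ t‖ ^ 2) - (χ t ^ 2 * D2 (fun y => f y ^ 2) t 1 +
          χ t ^ 2 * D2 (fun y => f y ^ 2) t Complex.I) / 2) := by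
        refine integral_mono i1 (i0.sub ab1) fun t => ?_
        have hd : fderiv ℝ (fun y => χ y * f y) t = χ t • fderiv ℝ f t + f t • fderiv ℝ χ t :=
          fderiv_fun_mul (hc.differentiable (by norm_num) t) (hf.differentiable (by norm_num) t)
        have hn : ‖fderiv ℝ (fun y => χ y * f y) t‖ ≤
            χ t * ‖fderiv ℝ f t‖ + f t * ‖fderiv ℝ χ t‖ := by
          rw [hd]
          refine (norm_add_le _ _).trans ?_
          rw [norm_smul, norm_smul, Real.norm_of_nonneg χ.nonneg, Real.norm_of_nonneg (h0 t).le]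
        have hs := pow_le_pow_left₀ (norm_nonneg _) hn 2
        have hp : χ t ^ 2 * (4 * ‖fderiv ℝ f t‖ ^ 2) ≤ χ t ^ 2 * -Lv (fun y => f y ^ 2) t 1 := by
          by_cases ht : t ∈ B
          · exact mul_le_mul_of_nonneg_left (bpt3a_pt hf (h0 t)
              (hL t (closedBall_subset_ball (by norm_num) ht))) (sq_nonneg _)
          · rw [(hz t ht).eq_of_nhds]
            simp
        rw [Lv, smul_eq_mul, mul_one] at hp
        beta_reduce
        nlinarith [sq_nonneg (χ t * ‖fderiv ℝ f t‖ - f t * ‖fderiv ℝ χ t‖)]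
    _ = ∫ t, f t ^ 2 * k t := by
        rw [integral_sub i0 ab1, integral_div, integral_add a1 b1, a3, b3,
          ← integral_add a2 b2, ← integral_div, ← integral_sub i0 ab2]
        refine integral_congr_ae (Eventually.of_forall fun t => ?_)
        simp only [k]
        ring
    _ = ∫ t in B, f t ^ 2 * k t :=
        (setIntegral_eq_integral_of_forall_compl_eq_zero fun t ht => by
          rw [hk0 t ht, mul_zero]).symm
    _ ≤ ∫ t in B, M * (1 + f t ^ 4) := by
        refine setIntegral_mono_on (((cf.pow 2).mul hk).continuousOn.integrableOn_compact hBc)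
          ((i3.add i2).const_mul M) hBc.measurableSet fun t ht => ?_
        have h2 := (le_abs_self _).trans (hM t ht)
        have h3 : f t ^ 2 ≤ 1 + f t ^ 4 := by nlinarith [sq_nonneg (f t ^ 2 - 1)]
        nlinarith [sq_nonneg (f t)]
    _ ≤ M * (volume.real B + C) := by
        rw [integral_const_mul, integral_add i3 i2, setIntegral_const, smul_eq_mul, mul_one]
        have := H (fun y => f y ^ 4) (hf.pow 4) (fun t => by positivity) hL
        simp only [h1, one_pow, mul_one] at this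
        exact mul_le_mul_of_nonneg_left (by linarith) hM0

theorem bpt3a_sob {p : ℕ} (hp : 1 ≤ p) : ∃ C : ℝ≥0∞, C ≠ ⊤ ∧ ∀ f : ℂ → ℝ,
    ContDiff ℝ 2 f → (∀ t, 0 < f t) → (∀ t ∈ ball (0 : ℂ) 1, Lv (fun y => f y ^ 4) t 1 ≤ 0) →
      f 0 = 1 → ∫⁻ t in closedBall (0 : ℂ) (9 / 16), ENNReal.ofReal ((f t ^ 4) ^ p) ≤ C := by
  let χ : ContDiffBump (0 : ℂ) := ⟨9 / 16, 5 / 8, by norm_num, by norm_num⟩
  obtain ⟨C, H⟩ := bpt3a_energy χ (by norm_num [χ])
  have hp' : (1 : ℝ) ≤ p := by exact_mod_cast hp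
  let q : ℝ≥0 := 4 * p
  have hq : (q : ℝ) = 4 * p := by simp [q]
  have hq0 : q ≠ 0 := by
    rw [← NNReal.coe_ne_zero, hq]
    positivity
  let s : ℝ≥0 := 2 * q / (q + 2)
  have hs : (s : ℝ) = 2 * (4 * p) / (4 * p + 2) := by simp [s, hq]
  have hs1 : 1 ≤ s := by
    rw [← NNReal.coe_le_coe, hs, NNReal.coe_one, le_div_iff₀ (by positivity)]
    linarith
  have hs2 : s < 2 := by
    rw [← NNReal.coe_lt_coe, hs, NNReal.coe_ofNat, div_lt_iff₀ (by positivity)]
    linarith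
  set B := closedBall (0 : ℂ) (5 / 8) with hB
  let K : ℝ≥0 := eLpNormLESNormFDerivOfLeConst ℝ (volume : Measure ℂ) B s q
  have hB' : volume B ≠ ⊤ := measure_closedBall_lt_top.ne
  have hex : 0 ≤ 1 / (s : ℝ≥0∞).toReal - 1 / ((2 : ℝ≥0) : ℝ≥0∞).toReal := by
    rw [ENNReal.coe_toReal, ENNReal.coe_toReal, sub_nonneg]
    exact one_div_le_one_div_of_le (by exact_mod_cast zero_lt_one.trans_le hs1)
      (by exact_mod_cast hs2.le)
  refine ⟨(K * (ENNReal.ofReal C ^ (1 / ((2 : ℝ≥0) : ℝ)) *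
    volume B ^ (1 / (s : ℝ≥0∞).toReal - 1 / ((2 : ℝ≥0) : ℝ≥0∞).toReal))) ^ (q : ℝ),
    ENNReal.rpow_ne_top_of_nonneg q.2 (ENNReal.mul_ne_top ENNReal.coe_ne_top
      (ENNReal.mul_ne_top (ENNReal.rpow_ne_top_of_nonneg (by positivity) ENNReal.ofReal_ne_top)
        (ENNReal.rpow_ne_top_of_nonneg hex hB'))), fun f hf h0 hL h1 => ?_⟩
  have hu : ContDiff ℝ 2 fun y => χ y * f y := χ.contDiff.mul hf
  have cu := hu.continuous_fderiv (by norm_num)
  have hsu : (fun y => χ y * f y).support ⊆ B := fun y hy => by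
    by_contra hc
    exact hy (by
      simp only [χ.zero_of_le_dist (not_le.1 fun h => hc (mem_closedBall.2 h)).le, zero_mul])
  have hsd : (fderiv ℝ fun y => χ y * f y).support ⊆ B :=
    (support_fderiv_subset ℝ).trans (closure_minimal hsu isClosed_closedBall)
  have S := eLpNorm_le_eLpNorm_fderiv_of_le (volume : Measure ℂ) (hu.of_le (by norm_num)) hsu
    (p := s) (q := q) hs1 (by rw [Complex.finrank_real_complex]; exact_mod_cast hs2)
    (by
      rw [Complex.finrank_real_complex, NNReal.coe_inv, hs, hq]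
      refine le_of_eq ?_
      push_cast
      field_simp
      ring) isBounded_closedBall
  have T := eLpNorm_le_eLpNorm_mul_rpow_measure_univ (μ := volume.restrict B)
    (p := (s : ℝ≥0∞)) (q := ((2 : ℝ≥0) : ℝ≥0∞)) (f := fderiv ℝ fun y => χ y * f y)
    (by exact_mod_cast hs2.le) cu.aestronglyMeasurable
  have R : ∀ r : ℝ≥0∞, eLpNorm (fderiv ℝ fun y => χ y * f y) r (volume.restrict B) =
      eLpNorm (fderiv ℝ fun y => χ y * f y) r volume := fun r => by
    rw [← eLpNorm_norm, ← eLpNorm_norm (fderiv ℝ fun y => χ y * f y)]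
    exact eLpNorm_restrict_eq_of_support_subset fun t ht => hsd (norm_ne_zero_iff.1 ht)
  have T := (R _).ge.trans (T.trans (mul_le_mul_left (R _).le _))
  rw [Measure.restrict_apply_univ] at T
  have i1 : Integrable fun t => ‖fderiv ℝ (fun y => χ y * f y) t‖ ^ 2 := by
    refine Continuous.integrable_of_hasCompactSupport (by fun_prop)
      (HasCompactSupport.intro (isCompact_closedBall (0 : ℂ) (5 / 8)) fun t ht => ?_)
    rw [Function.notMem_support.1 fun h => ht (hsd h)]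
    simp
  have U : eLpNorm (fderiv ℝ fun y => χ y * f y) ((2 : ℝ≥0) : ℝ≥0∞) volume ≤
      ENNReal.ofReal C ^ (1 / ((2 : ℝ≥0) : ℝ)) := by
    rw [eLpNorm_nnreal_eq_lintegral two_ne_zero]
    refine ENNReal.rpow_le_rpow ?_ (by positivity)
    refine le_trans (le_of_eq ?_) (ENNReal.ofReal_le_ofReal (H f hf h0 hL h1))
    rw [ofReal_integral_eq_lintegral_ofReal i1 (Eventually.of_forall fun t => sq_nonneg _)]
    refine lintegral_congr fun t => ?_
    rw [ENNReal.ofReal_pow (norm_nonneg _), ofReal_norm, NNReal.coe_ofNat, ENNReal.rpow_two]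
  calc ∫⁻ t in closedBall (0 : ℂ) (9 / 16), ENNReal.ofReal ((f t ^ 4) ^ p)
      = ∫⁻ t in closedBall (0 : ℂ) (9 / 16), ‖χ t * f t‖ₑ ^ (q : ℝ) := by
        refine setLIntegral_congr_fun measurableSet_closedBall fun t ht => ?_
        rw [χ.one_of_mem_closedBall ht, one_mul, Real.enorm_eq_ofReal (h0 t).le, ← pow_mul,
          ENNReal.ofReal_pow (h0 t).le, hq, ← ENNReal.rpow_natCast]
        push_cast
        rfl
    _ ≤ ∫⁻ t, ‖χ t * f t‖ₑ ^ (q : ℝ) := setLIntegral_le_lintegral _ _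
    _ = eLpNorm (fun y => χ y * f y) q volume ^ (q : ℝ) :=
        (eLpNorm_nnreal_pow_eq_lintegral hq0).symm
    _ ≤ _ := ENNReal.rpow_le_rpow
        (S.trans (mul_le_mul_right (T.trans (mul_le_mul_left U _)) _)) q.2

/-- The plane case. -/
theorem bpt3a_plane {p : ℕ} (hp : 1 ≤ p) : ∃ C : ℝ≥0∞, C ≠ ⊤ ∧ ∀ U : ℂ → ℝ,
    ContDiffOn ℝ 2 U (ball 0 (9 / 8)) → (∀ t ∈ ball (0 : ℂ) (9 / 8), 0 < U t) →
      (∀ t ∈ ball (0 : ℂ) 1, Lv U t 1 ≤ 0) →
      ∫⁻ t in closedBall (0 : ℂ) (9 / 16), ENNReal.ofReal (U t ^ p) ≤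
        C * ENNReal.ofReal (U 0 ^ p) := by
  obtain ⟨C, hC, H⟩ := bpt3a_sob hp
  refine ⟨C, hC, fun U hU h0 hL => ?_⟩
  let χ : ContDiffBump (0 : ℂ) := ⟨1, 17 / 16, one_pos, by norm_num⟩
  have a0 : 0 < U 0 := h0 0 (mem_ball_self (by norm_num))
  let V : ℂ → ℝ := fun t => 1 - χ t + χ t * ((U 0)⁻¹ * U t)
  have hV : ContDiff ℝ 2 V := by
    refine (contDiff_const.sub χ.contDiff).add (contDiff_iff_contDiffAt.2 fun t => ?_)
    by_cases ht : t ∈ ball (0 : ℂ) (9 / 8)
    · exact χ.contDiffAt.mul (contDiffAt_const.mul (hU.contDiffAt (isOpen_ball.mem_nhds ht)))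
    · have h1 : (closedBall (0 : ℂ) (17 / 16))ᶜ ∈ 𝓝 t :=
        isClosed_closedBall.isOpen_compl.mem_nhds fun h =>
          ht (closedBall_subset_ball (by norm_num) h)
      refine (contDiffAt_const (c := (0 : ℝ))).congr_of_eventuallyEq ?_
      filter_upwards [h1] with x hx
      rw [χ.zero_of_le_dist (not_le.1 fun h => hx (mem_closedBall.2 h)).le, zero_mul]
  have hV0 : ∀ t, 0 < V t := fun t => by
    by_cases ht : t ∈ ball (0 : ℂ) (9 / 8)
    · have h1 := mul_pos (inv_pos.2 a0) (h0 t ht)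
      have h2 : 0 ≤ χ t := χ.nonneg
      have h3 : χ t ≤ 1 := χ.le_one
      simp only [V]
      rcases h2.eq_or_lt with h | h
      · rw [← h]
        norm_num
      · have := mul_pos h h1
        linarith
    · have : χ t = 0 := χ.zero_of_le_dist (le_trans (by norm_num [χ])
        (not_lt.1 fun h => ht (mem_ball.2 h)))
      simp [V, this]
  have hVU : ∀ t ∈ ball (0 : ℂ) 1, V t = (U 0)⁻¹ * U t := fun t ht => by
    simp [V, χ.one_of_mem_closedBall (ball_subset_closedBall ht)]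
  have h4 : ∀ t, √(√(V t)) ^ 4 = V t := fun t => by
    rw [show 4 = 2 * 2 from rfl, pow_mul, Real.sq_sqrt (Real.sqrt_nonneg _),
      Real.sq_sqrt (hV0 t).le]
  have key := H (fun t => √(√(V t)))
    ((hV.sqrt fun t => (hV0 t).ne').sqrt fun t => (Real.sqrt_pos.2 (hV0 t)).ne')
    (fun t => Real.sqrt_pos.2 (Real.sqrt_pos.2 (hV0 t)))
    (fun t ht => by
      simp only [h4]
      have e : (fun y => V y) =ᶠ[𝓝 t] fun y => 0 + (U 0)⁻¹ * U y := by
        filter_upwards [isOpen_ball.mem_nhds ht] with y hy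
        rw [hVU y hy, zero_add]
      rw [ABK.Lv_congr e, ABK.Lv_lin (hU.contDiffAt
        (isOpen_ball.mem_nhds (ball_subset_ball (by norm_num) ht)))]
      exact mul_nonpos_of_nonneg_of_nonpos (inv_pos.2 a0).le (hL t ht))
    (by simp only [hVU 0 (mem_ball_self one_pos), inv_mul_cancel₀ a0.ne', Real.sqrt_one])
  simp only [h4] at key
  calc ∫⁻ t in closedBall (0 : ℂ) (9 / 16), ENNReal.ofReal (U t ^ p)
      = ∫⁻ t in closedBall (0 : ℂ) (9 / 16),
          ENNReal.ofReal (V t ^ p) * ENNReal.ofReal (U 0 ^ p) := by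
        refine setLIntegral_congr_fun measurableSet_closedBall fun t ht => ?_
        rw [← ENNReal.ofReal_mul (pow_pos (hV0 t) p).le, ← mul_pow,
          hVU t (closedBall_subset_ball (by norm_num) ht), mul_right_comm, inv_mul_cancel₀ a0.ne',
          one_mul]
    _ = _ := lintegral_mul_const' _ _ ENNReal.ofReal_ne_top
    _ ≤ _ := mul_le_mul_left key _

theorem lp_one (p : ℕ) : ∃ C : ℝ, 0 < C ∧ ∀ w : ℂ → ℝ, ContDiffOn ℝ ∞ w (ball 0 1) →
    (∀ ζ ∈ ball (0 : ℂ) 1, 1 ≤ w ζ ∧ lap w ζ ≤ 0) →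
    ∫ ζ in ball (0 : ℂ) (1 / 2), w ζ ^ p ≤ C * w 0 ^ p := by
  rcases Nat.eq_zero_or_pos p with rfl | hp
  · exact ⟨volume.real (ball (0 : ℂ) (1 / 2)) + 1, by positivity, fun w _ _ => by simp⟩
  obtain ⟨C, hC, H⟩ := bpt3a_plane hp
  refine ⟨C.toReal + 1, by positivity, fun w hw h => ?_⟩
  have hm : ∀ t ∈ ball (0 : ℂ) (9 / 8), (8 / 9 : ℝ) • t ∈ ball (0 : ℂ) 1 := fun t ht => by
    rw [mem_ball_zero_iff] at ht ⊢
    rw [norm_smul, Real.norm_of_nonneg (by norm_num)]
    linarith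
  have h2 : ContDiffOn ℝ 2 w (ball 0 1) := hw.of_le (by norm_cast)
  have h3 : ContDiffOn ℝ 2 (fun t => w ((8 / 9 : ℝ) • t)) (ball 0 (9 / 8)) :=
    h2.comp (contDiff_id.const_smul _).contDiffOn hm
  have h0 : ∀ t ∈ ball (0 : ℂ) (9 / 8), 0 < w ((8 / 9 : ℝ) • t) := fun t ht =>
    one_pos.trans_le (h _ (hm t ht)).1
  have key := H _ h3 h0 fun t ht => by
    have h4 := hm t (ball_subset_ball (by norm_num) ht)
    have hd : ∀ y : ℂ, HasFDerivAt (fun s : ℂ => (8 / 9 : ℝ) • s)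
        ((8 / 9 : ℝ) • ContinuousLinearMap.id ℂ ℂ) y := fun y =>
      (hasFDerivAt_id (𝕜 := ℂ) y).const_smul (8 / 9 : ℝ)
    rw [Lv_comp (g := fun s : ℂ => (8 / 9 : ℝ) • s) (h2.contDiffAt (isOpen_ball.mem_nhds h4))
      (Eventually.of_forall fun y => (hd y).differentiableAt), (hd t).fderiv]
    rw [_root_.smul_apply, ContinuousLinearMap.id_apply, clmv_smul, bpt3a_lap]
    exact mul_nonpos_of_nonneg_of_nonpos (sq_nonneg _) (h _ h4).2
  have sb : closedBall (0 : ℂ) (9 / 16) ⊆ ball 0 (9 / 8) := closedBall_subset_ball (by norm_num)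
  have hi : IntegrableOn (fun t => w ((8 / 9 : ℝ) • t) ^ p) (closedBall (0 : ℂ) (9 / 16)) :=
    ((h3.continuousOn.mono sb).pow p).integrableOn_compact (isCompact_closedBall _ _)
  have hn : 0 ≤ᵐ[volume.restrict (closedBall (0 : ℂ) (9 / 16))] fun t => w ((8 / 9 : ℝ) • t) ^ p :=
    (ae_restrict_mem measurableSet_closedBall).mono fun t ht => (pow_pos (h0 t (sb ht)) p).le
  have w0 : 0 ≤ w 0 ^ p := pow_nonneg (zero_le_one.trans (h 0 (mem_ball_self one_pos)).1) p
  rw [← ofReal_integral_eq_lintegral_ofReal hi hn, smul_zero, ← ENNReal.ofReal_toReal hC,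
    ← ENNReal.ofReal_mul ENNReal.toReal_nonneg,
    ENNReal.ofReal_le_ofReal_iff (mul_nonneg ENNReal.toReal_nonneg w0)] at key
  have k1 := (setIntegral_mono_set hi hn (ball_subset_closedBall (ε := 9 / 16)).eventuallyLE).trans key
  have k2 := Measure.setIntegral_comp_smul_of_pos volume (fun t : ℂ => w t ^ p)
    (ball (0 : ℂ) (9 / 16)) (R := 8 / 9) (by norm_num)
  rw [_root_.smul_ball (by norm_num), smul_zero, Real.norm_of_nonneg (by norm_num),
    show (8 / 9 * (9 / 16) : ℝ) = 1 / 2 by norm_num, Complex.finrank_real_complex, smul_eq_mul] at k2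
  have k3 : 0 ≤ ∫ ζ in ball (0 : ℂ) (1 / 2), w ζ ^ p :=
    setIntegral_nonneg measurableSet_ball fun t ht =>
      pow_nonneg (zero_le_one.trans (h t (ball_subset_ball (by norm_num) ht)).1) p
  rw [k2] at k1
  norm_num at k1 k3 ⊢
  linarith

end Pool.Agent.BP
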