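import Pool.Agent.P.MP_63735c_ag.BPT3b

/-! The pole set of a plurisubharmonic function is negligible. -/

open scoped ComplexOrder ContDiff Matrix Topology ENNReal
open Set Metric MeasureTheory Filter

namespace Pool.Agent.BP

open Pool.Agent.SPF Pool.Agent.AB Pool.Agent.CK Pool.Agent.SE Pool.Agent.NL

variable {N : ℕ} {z₀ : E N} {R : ℝ} {W : Set (E N)} {ψ : E N → ℝ}

open Classical in
/-- The function `l ∘ ψ`, extended by the constant `c`. -/
noncomputable def pext (W : Set (E N)) (ψ : E N → ℝ) (l : ℝ → ℝ) (c : ℝ) (z : E N) : ℝ :=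
  if z ∈ W then l (ψ z) else c

theorem Pol.R_pos (h : Pol z₀ R W ψ) : 0 < R := by
  obtain ⟨z, hz, _⟩ := h.ne
  exact pos_of_mem_ball (h.sub hz)

theorem Pol.ev (h : Pol z₀ R W ψ) (a : ℝ) {z : E N} (hz : z ∈ ball z₀ R) (hW : z ∉ W) :
    ∀ᶠ y in 𝓝 z, y ∈ W → ψ y < -a := by
  have h1 : z ∉ closure {y | y ∈ W ∧ -a ≤ ψ y} := fun h2 => hW (h.closed a z hz h2)
  filter_upwards [isClosed_closure.isOpen_compl.mem_nhds h1] with y hy hyW
  exact lt_of_not_ge fun h3 => hy (subset_closure ⟨hyW, h3⟩)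

theorem bpt4a_in (h : Pol z₀ R W ψ) (l : ℝ → ℝ) (c : ℝ) {z : E N} (hW : z ∈ W) :
    pext W ψ l c =ᶠ[𝓝 z] fun y => l (ψ y) := by
  filter_upwards [h.isOpen.mem_nhds hW] with y hy
  simp only [pext, if_pos hy]

theorem bpt4a_out (h : Pol z₀ R W ψ) {l : ℝ → ℝ} {a c : ℝ} (hc : ∀ t ≤ -a, l t = c) {z : E N}
    (hz : z ∈ ball z₀ R) (hW : z ∉ W) : pext W ψ l c =ᶠ[𝓝 z] fun _ => c := by
  filter_upwards [h.ev a hz hW] with y hy
  by_cases hyW : y ∈ W
  · simp only [pext, if_pos hyW]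
    exact hc _ (hy hyW).le
  · simp only [pext, if_neg hyW]

theorem Pol.ext (h : Pol z₀ R W ψ) {l : ℝ → ℝ} (hl : ContDiff ℝ ∞ l) {a c : ℝ}
    (hc : ∀ t ≤ -a, l t = c) : ContDiffOn ℝ ∞ (pext W ψ l c) (ball z₀ R) := by
  intro z hz
  apply ContDiffAt.contDiffWithinAt
  by_cases hW : z ∈ W
  · exact (hl.contDiffAt.comp z (h.smooth.contDiffAt (h.isOpen.mem_nhds hW))).congr_of_eventuallyEq
      (bpt4a_in h l c hW)
  · exact contDiffAt_const.congr_of_eventuallyEq (bpt4a_out h hc hz hW)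

theorem bpt4a_cut : ∃ L L₁ L₂ : ℝ → ℝ, ContDiff ℝ ∞ L ∧ (∀ t, HasDerivAt L (L₁ t) t) ∧
    (∀ t, HasDerivAt L₁ (L₂ t) t) ∧ (∀ t, 0 ≤ L₁ t) ∧ (∀ t, 0 ≤ L₂ t) ∧ (∀ t ≤ 0, L t = 0) ∧
    (∀ t, 0 ≤ t → L t ≤ t) ∧ ∀ t, t - 1 ≤ L t := by
  have hc := Real.smoothTransition.continuous
  have hd : ∀ t, HasDerivAt (fun s => ∫ x in (0 : ℝ)..s, Real.smoothTransition x)
      (Real.smoothTransition t) t := fun t => (hc.integral_hasStrictDerivAt 0 t).hasDerivAt
  have hs : ContDiff ℝ ∞ Real.smoothTransition := Real.smoothTransition.contDiff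
  have h0 : ∀ t ≤ (0 : ℝ), ∫ x in (0 : ℝ)..t, Real.smoothTransition x = 0 := by
    intro t ht
    rw [intervalIntegral.integral_congr (g := fun _ => 0), intervalIntegral.integral_zero]
    intro x hx
    rw [uIcc_of_ge ht] at hx
    exact Real.smoothTransition.zero_of_nonpos hx.2
  have h1 : ∀ t, (0 : ℝ) ≤ t → 0 ≤ ∫ x in (0 : ℝ)..t, Real.smoothTransition x := fun t ht =>
    intervalIntegral.integral_nonneg ht fun x _ => Real.smoothTransition.nonneg x
  refine ⟨fun s => ∫ x in (0 : ℝ)..s, Real.smoothTransition x, Real.smoothTransition,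
    deriv Real.smoothTransition, ?_, hd, fun t => (hs.differentiable (by simp) t).hasDerivAt,
    Real.smoothTransition.nonneg, fun t => Real.smoothTransition.monotone.deriv_nonneg, h0, ?_, ?_⟩
  · refine contDiff_infty_iff_deriv.2 ⟨fun t => (hd t).differentiableAt, ?_⟩
    rw [show deriv (fun s => ∫ x in (0 : ℝ)..s, Real.smoothTransition x) = Real.smoothTransition
      from funext fun t => (hd t).deriv]
    exact hs
  · intro t ht
    have := intervalIntegral.integral_mono_on ht (hc.intervalIntegrable (μ := volume) 0 t)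
      (intervalIntegrable_const (c := (1 : ℝ))) fun x _ => Real.smoothTransition.le_one x
    simpa using this
  · intro t
    rcases le_total t 0 with ht | ht
    · simp only [h0 t ht]
      linarith
    rcases le_total t 1 with ht1 | ht1
    · linarith [h1 t ht]
    have e : ∫ x in (1 : ℝ)..t, Real.smoothTransition x = t - 1 := by
      rw [intervalIntegral.integral_congr (g := fun _ => 1)]
      · simp
      intro x hx
      rw [uIcc_of_le ht1] at hx
      exact Real.smoothTransition.one_of_one_le hx.1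
    have := intervalIntegral.integral_add_adjacent_intervals
      (hc.intervalIntegrable (μ := volume) 0 1) (hc.intervalIntegrable 1 t)
    linarith [h1 1 zero_le_one]

theorem bpt4a_key (h : Pol z₀ R W ψ) (p : ℕ) : ∃ (C : ℝ) (u : ℕ → E N → ℝ),
    (∀ j, ∫⁻ y in ball z₀ (R / 16), ‖|u j y| ^ p‖ₑ ≤ ENNReal.ofReal C) ∧
    (∀ j, ∀ y, y ∉ W → u j y = -j) ∧ ∀ j : ℕ, ∀ y ∈ W, -(j : ℝ) ≤ ψ y → |ψ y| ≤ |u j y| := by
  obtain ⟨L, L₁, L₂, hL, d1, d2, p1, p2, h0, h1, h2⟩ := bpt4a_cut
  have hR := h.R_pos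
  obtain ⟨z, hzW, hz⟩ := h.ne
  obtain ⟨C, hC, hb⟩ := lp N p (r := R / 16) (by positivity)
  rw [mem_ball] at hz
  have s1 : ball z (8 * (R / 16)) ⊆ ball z₀ R := ball_subset_ball' (by linarith)
  have s2 : ball z₀ (R / 16) ⊆ ball z (2 * (R / 16)) :=
    ball_subset_ball' (by rw [dist_comm]; linarith)
  have s3 : closedBall z (2 * (R / 16)) ⊆ ball z₀ R :=
    (closedBall_subset_ball (by linarith)).trans s1
  refine ⟨C * (2 + |ψ z|) ^ p, fun j => pext W ψ (fun t => L (t + j) - j) (-j), fun j => ?_,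
    fun j y hy => by simp only [pext, if_neg hy], fun j y hy hj => ?_⟩
  · have hc : ∀ t ≤ -(j : ℝ), L (t + j) - j = -j := fun t ht => by
      rw [h0 _ (by linarith), zero_sub]
    have hj : (0 : ℝ) ≤ j := Nat.cast_nonneg j
    have hs := h.ext (l := fun t => L (t + j) - j)
      ((hL.comp (contDiff_id.add contDiff_const)).sub contDiff_const) hc
    have hle : ∀ t ≤ (0 : ℝ), L (t + j) - j ≤ 0 ∧ |L (t + j) - j| ≤ 1 + |t| := by
      intro t ht
      rw [abs_of_nonpos ht]
      rcases le_total t (-(j : ℝ)) with h3 | h3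
      · rw [hc t h3, abs_neg, abs_of_nonneg hj]
        exact ⟨by linarith, by linarith⟩
      · have a1 := h1 (t + j) (by linarith)
        have a2 := h2 (t + j)
        exact ⟨by linarith, abs_le.2 ⟨by linarith, by linarith⟩⟩
    have hi := hb _ z (hs.mono s1) fun y hy => by
      by_cases hW : y ∈ W
      · refine ⟨?_, fun v => ?_⟩
        · simp only [pext, if_pos hW]
          exact (hle _ ((h.le y hW).trans (by norm_num))).1
        · rw [(lev_congr (bpt4a_in h _ _ hW)).self_of_nhds]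
          have e := lev_chain (ρ := fun t => L (t + j) - j) (ρ₁ := fun t => L₁ (t + j))
            (ρ₂ := L₂ (ψ y + j)) (Eventually.of_forall fun t =>
              ((d1 (t + j)).comp_add_const t j).sub_const _)
            ((d2 (ψ y + j)).comp_add_const _ _) (h.smooth.contDiffAt (h.isOpen.mem_nhds hW)) v
          rw [hr, e]
          exact add_nonneg (mul_nonneg (p1 _) (h.psh y hW v)) (mul_nonneg (p2 _) (sq_nonneg _))
      · refine ⟨?_, fun v => ?_⟩
        · simp only [pext, if_neg hW]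
          linarith
        · rw [(lev_congr (bpt4a_out h hc (s1 hy) hW)).self_of_nhds, lev_const, hr, hq_zero]
          simp
    have hint : IntegrableOn (fun y => |pext W ψ (fun t => L (t + j) - j) (-j) y| ^ p)
        (ball z (2 * (R / 16))) volume :=
      (((hs.continuousOn.mono s3).abs.pow p).integrableOn_compact
        (isCompact_closedBall _ _)).mono_set ball_subset_closedBall
    refine (lintegral_mono_set s2).trans ?_
    rw [← ofReal_integral_norm_eq_lintegral_enorm hint]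
    refine ENNReal.ofReal_le_ofReal ?_
    simp only [norm_pow, Real.norm_eq_abs, abs_abs]
    refine hi.trans (mul_le_mul_of_nonneg_left (pow_le_pow_left₀ (by positivity) ?_ p) hC.le)
    simp only [pext, if_pos hzW]
    linarith [(hle _ ((h.le z hzW).trans (by norm_num))).2]
  · simp only [pext, if_pos hy]
    have a1 := h1 (ψ y + j) (by linarith)
    have a2 := h.le y hy
    rw [abs_of_nonpos (by linarith), abs_of_nonpos (by linarith)]
    linarith

theorem Pol.null (h : Pol z₀ R W ψ) : volume (ball z₀ (R / 16) \ W) = 0 := by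
  obtain ⟨C, u, hu, h1, -⟩ := bpt4a_key h 1
  have hm : MeasurableSet (ball z₀ (R / 16) \ W) := measurableSet_ball.diff h.isOpen.measurableSet
  have h2 : ∀ j : ℕ, (j : ℝ≥0∞) * volume (ball z₀ (R / 16) \ W) ≤ ENNReal.ofReal C := by
    intro j
    refine le_trans ?_ ((lintegral_mono_set (s := ball z₀ (R / 16) \ W) sdiff_subset).trans (hu j))
    rw [← setLIntegral_const]
    refine setLIntegral_mono' hm fun y hy => ?_
    rw [h1 j y hy.2]
    simp
  by_contra h0
  obtain ⟨j, hj⟩ := ENNReal.exists_nat_mul_gt h0 (ENNReal.ofReal_ne_top (r := C))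
  exact absurd (h2 j) (not_le.2 hj)

theorem Pol.lp (h : Pol z₀ R W ψ) (p : ℕ) :
    IntegrableOn (fun z => |ψ z| ^ p) (W ∩ ball z₀ (R / 16)) volume := by
  obtain ⟨C, u, hu, -, h2⟩ := bpt4a_key h p
  have ho : IsOpen (W ∩ ball z₀ (R / 16)) := h.isOpen.inter isOpen_ball
  have hc : ContinuousOn ψ (W ∩ ball z₀ (R / 16)) := h.smooth.continuousOn.mono inter_subset_left
  refine ⟨(hc.abs.pow p).aestronglyMeasurable ho.measurableSet, ?_⟩
  have e : W ∩ ball z₀ (R / 16) = ⋃ j : ℕ, (W ∩ ball z₀ (R / 16)) ∩ ψ ⁻¹' Ioi (-(j : ℝ)) := by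
    refine Subset.antisymm (fun y hy => ?_) (iUnion_subset fun j => inter_subset_left)
    obtain ⟨j, hj⟩ := exists_nat_gt (-ψ y)
    exact mem_iUnion.2 ⟨j, hy, show -(j : ℝ) < ψ y by linarith⟩
  rw [hasFiniteIntegral_iff_enorm, e, setLIntegral_iUnion_of_directed]
  · refine lt_of_le_of_lt (iSup_le fun j => ?_) (ENNReal.ofReal_lt_top (r := C))
    refine le_trans ?_ ((lintegral_mono_set (s := (W ∩ ball z₀ (R / 16)) ∩ ψ ⁻¹' Ioi (-(j : ℝ)))
      fun y hy => hy.1.2).trans (hu j))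
    refine setLIntegral_mono' (hc.isOpen_inter_preimage ho isOpen_Ioi).measurableSet
      fun y hy => ?_
    rw [← ofReal_norm, ← ofReal_norm]
    refine ENNReal.ofReal_le_ofReal ?_
    simp only [norm_pow, Real.norm_eq_abs, abs_abs]
    exact pow_le_pow_left₀ (abs_nonneg _) (h2 j y hy.1.1 (le_of_lt hy.2)) p
  · refine Monotone.directed_le fun i j hij y hy => ⟨hy.1, ?_⟩
    have a1 : (i : ℝ) ≤ j := Nat.cast_le.2 hij
    have a2 : -(i : ℝ) < ψ y := hy.2
    show -(j : ℝ) < ψ y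
    linarith

theorem Pol.dense (h : Pol z₀ R W ψ) : ball z₀ (R / 16) ⊆ closure W := by
  intro z hz
  by_contra h0
  have ho : IsOpen (ball z₀ (R / 16) \ closure W) := isOpen_ball.sdiff isClosed_closure
  exact (ho.measure_pos volume ⟨z, hz, h0⟩).ne'
    (measure_mono_null (sdiff_subset_sdiff_right subset_closure) h.null)

theorem Pol.mono (h : Pol z₀ R W ψ) {z : E N} {r : ℝ} (h0 : 0 < r)
    (hs : ball z r ⊆ ball z₀ (R / 16)) : Pol z r (W ∩ ball z r) ψ := by
  have hR := h.R_pos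
  refine ⟨h.isOpen.inter isOpen_ball, inter_subset_right, h.smooth.mono inter_subset_left,
    fun y hy => h.le y hy.1, fun y hy => h.psh y hy.1, fun c y hy hc => ⟨?_, hy⟩, ?_⟩
  · exact h.closed c y (ball_subset_ball (by linarith) (hs hy))
      (closure_mono (fun x hx => And.intro hx.1.1 hx.2) hc)
  · obtain ⟨y, h1, h2⟩ := _root_.mem_closure_iff.1 (h.dense (hs (mem_ball_self h0))) _ isOpen_ball
      (mem_ball_self (show 0 < r / 16 by positivity))
    exact ⟨y, ⟨h2, ball_subset_ball (by linarith) h1⟩, h1⟩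

theorem Pol.conn (h : Pol z₀ R W ψ) {F : Type} {u : E N → F}
    (hu : ∀ z ∈ W, ∀ᶠ y in 𝓝 z, u y = u z) {z y : E N} (hz : z ∈ W ∩ ball z₀ (R / 16))
    (hy : y ∈ W ∩ ball z₀ (R / 16)) : u z = u y := by
  have key : ∀ x ∈ W ∩ ball z₀ (R / 16),
      volume (ball z₀ (R / 16) \ {w | w ∈ W ∧ u w = u x}) = 0 := by
    intro x hx
    refine Pol.null (ψ := ψ) ⟨?_, fun w hw => h.sub hw.1, h.smooth.mono fun w hw => hw.1,
      fun w hw => h.le w hw.1, fun w hw => h.psh w hw.1, fun c w hw hc => ?_,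
      ⟨x, ⟨hx.1, rfl⟩, hx.2⟩⟩
    · refine isOpen_iff_mem_nhds.2 fun w hw => ?_
      filter_upwards [h.isOpen.mem_nhds hw.1, hu w hw.1] with t a1 a2
      exact ⟨a1, a2.trans hw.2⟩
    · have hW := h.closed c w hw (closure_mono (fun t ht => And.intro ht.1.1 ht.2) hc)
      obtain ⟨t, a1, a2⟩ := mem_closure_iff_nhds.1 hc _ (hu w hW)
      exact ⟨hW, (Eq.symm a1).trans a2.1.2⟩
  by_contra h0
  refine (isOpen_ball.measure_pos volume ⟨z, hz.2⟩).ne'
    (measure_mono_null (fun w hw => ?_) (measure_union_null (key z hz) (key y hy)))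
  by_cases h1 : u w = u z
  · exact Or.inr ⟨hw, fun a => h0 (h1.symm.trans a.2)⟩
  · exact Or.inl ⟨hw, fun a => h1 a.2⟩

end Pool.Agent.BP
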