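import Pool.Agent.P.MP_63735c_ag.BPT4a
import Pool.Agent.P.MP_63735c_ag.ABInt
import Pool.Agent.P.MP_63735c_ag.ABWeyl

/-! Cutoff functions near the pole set and removable singularities. -/

open scoped ComplexOrder ContDiff Matrix Topology ENNReal
open Set Metric MeasureTheory Filter

namespace Pool.Agent.BP

open Pool.Agent.SPF Pool.Agent.AB Pool.Agent.CK Pool.Agent.SE Pool.Agent.NL

variable {N : ℕ} {z₀ : E N} {R : ℝ} {W : Set (E N)} {ψ : E N → ℝ}

theorem bpt4b_fun0 : ∃ (χ Λ : ℝ → ℝ) (M : ℝ), ContDiff ℝ ∞ χ ∧ ContDiff ℝ ∞ Λ ∧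
    (∀ t, HasDerivAt Λ (χ t) t) ∧ (∀ t, 0 ≤ χ t ∧ χ t ≤ 1) ∧ (∀ t ≤ -2, χ t = 0) ∧
    (∀ t, -1 ≤ t → χ t = 1) ∧ (∀ t, 0 ≤ deriv χ t ∧ deriv χ t ≤ M) ∧
    (∀ t ≤ -2, Λ t = Λ (-2)) ∧ ∀ t, |Λ t| ≤ |t| := by
  have hχ : ContDiff ℝ ∞ fun t : ℝ => Real.smoothTransition (t + 2) :=
    Real.smoothTransition.contDiff.comp (contDiff_id.add contDiff_const)
  have hm : Monotone fun t : ℝ => Real.smoothTransition (t + 2) :=
    fun s t hst => Real.smoothTransition.monotone (by linarith)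
  have h01 : ∀ t : ℝ, 0 ≤ Real.smoothTransition (t + 2) ∧ Real.smoothTransition (t + 2) ≤ 1 :=
    fun t => ⟨Real.smoothTransition.nonneg _, Real.smoothTransition.le_one _⟩
  have h0 : ∀ t : ℝ, t ≤ -2 → Real.smoothTransition (t + 2) = 0 :=
    fun t ht => Real.smoothTransition.zero_of_nonpos (by linarith)
  have h1 : ∀ t : ℝ, -1 ≤ t → Real.smoothTransition (t + 2) = 1 :=
    fun t ht => Real.smoothTransition.one_of_one_le (by linarith)
  obtain ⟨χ, hχ, hm, h01, h0, h1⟩ : ∃ χ : ℝ → ℝ, ContDiff ℝ ∞ χ ∧ Monotone χ ∧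
      (∀ t, 0 ≤ χ t ∧ χ t ≤ 1) ∧ (∀ t ≤ -2, χ t = 0) ∧ ∀ t, -1 ≤ t → χ t = 1 :=
    ⟨_, hχ, hm, h01, h0, h1⟩
  have hd : ∀ t, HasDerivAt (fun u => ∫ x in (0 : ℝ)..u, χ x) (χ t) t :=
    fun t => (hχ.continuous.integral_hasStrictDerivAt 0 t).hasDerivAt
  have hc : Continuous (deriv χ) := (contDiff_infty_iff_deriv.1 hχ).2.continuous
  obtain ⟨M, hM⟩ := (isCompact_Icc (a := (-2 : ℝ)) (b := -1)).exists_bound_of_continuousOn
    hc.continuousOn
  refine ⟨χ, fun u => ∫ x in (0 : ℝ)..u, χ x, M, hχ, ?_, hd, h01, h0, h1, fun t => ⟨?_, ?_⟩,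
    fun t ht => ?_, fun t => ?_⟩
  · refine contDiff_infty_iff_deriv.2 ⟨fun t => (hd t).differentiableAt, ?_⟩
    rwa [show deriv (fun u => ∫ x in (0 : ℝ)..u, χ x) = χ from funext fun t => (hd t).deriv]
  · exact hm.deriv_nonneg
  · have hM0 : 0 ≤ M := (norm_nonneg _).trans (hM (-2) ⟨le_rfl, by norm_num⟩)
    rcases lt_or_ge t (-2) with ht | ht
    · have : χ =ᶠ[𝓝 t] fun _ => 0 := by
        filter_upwards [Iio_mem_nhds ht] with s hs using h0 s (le_of_lt hs)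
      rwa [this.deriv_eq, deriv_const]
    rcases lt_or_ge (-1) t with ht' | ht'
    · have : χ =ᶠ[𝓝 t] fun _ => 1 := by
        filter_upwards [Ioi_mem_nhds ht'] with s hs using h1 s (le_of_lt hs)
      rwa [this.deriv_eq, deriv_const]
    · exact (le_abs_self _).trans (hM t ⟨ht, ht'⟩)
  · have e := intervalIntegral.integral_add_adjacent_intervals (μ := volume)
      (hχ.continuous.intervalIntegrable 0 (-2)) (hχ.continuous.intervalIntegrable (-2) t)
    have e0 : ∫ x in (-2 : ℝ)..t, χ x = 0 := by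
      rw [intervalIntegral.integral_congr (g := fun _ => 0) fun x hx => ?_]
      · simp
      · rw [uIcc_of_ge ht] at hx
        exact h0 x hx.2
    simp only [← e, e0, add_zero]
  · have := intervalIntegral.norm_integral_le_of_norm_le_const (a := (0 : ℝ)) (b := t) (C := 1)
      (f := χ) fun x _ => by
        rw [Real.norm_eq_abs, abs_of_nonneg (h01 x).1]
        exact (h01 x).2
    simpa using this

theorem bpt4b_fun : ∃ M : ℝ, 0 ≤ M ∧ ∀ T : ℝ, 0 < T → ∃ (χ χ₁ Λ Λ₁ Λ₂ : ℝ → ℝ) (c : ℝ),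
    ContDiff ℝ ∞ χ ∧ ContDiff ℝ ∞ Λ ∧ (∀ t, HasDerivAt χ (χ₁ t) t) ∧
    (∀ t, HasDerivAt Λ (Λ₁ t) t) ∧ (∀ t, HasDerivAt Λ₁ (Λ₂ t) t) ∧ (∀ t, 0 ≤ χ t ∧ χ t ≤ 1) ∧
    (∀ t ≤ -(2 * T), χ t = 0) ∧ (∀ t, -T ≤ t → χ t = 1) ∧ (∀ t, 0 ≤ Λ₁ t) ∧
    (∀ t, χ₁ t ^ 2 ≤ M * Λ₂ t) ∧ (∀ t ≤ -(2 * T), Λ t = c) ∧ ∀ t, |Λ t| ≤ |t| / T := by
  obtain ⟨χ, Λ, M, hχ, hΛ, hd, h01, h0, h1, hM, hc, hb⟩ := bpt4b_fun0
  refine ⟨M, (hM 0).1.trans (hM 0).2, fun T hT => ?_⟩
  have hs : ∀ t : ℝ, HasDerivAt (fun s : ℝ => s / T) (1 / T) t :=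
    fun t => (hasDerivAt_id t).div_const T
  have hsm : ContDiff ℝ ∞ fun s : ℝ => s / T := contDiff_id.div_const T
  have hdχ : ∀ t, HasDerivAt (fun s => χ (s / T)) (deriv χ (t / T) * (1 / T)) t := fun t =>
    ((hχ.differentiable (by simp)) (t / T)).hasDerivAt.comp t (hs t)
  have hle : ∀ t ≤ -(2 * T), t / T ≤ -2 := fun t ht => by
    rw [div_le_iff₀ hT]
    linarith
  refine ⟨fun s => χ (s / T), fun t => deriv χ (t / T) * (1 / T), fun s => Λ (s / T),
    fun t => χ (t / T) * (1 / T), fun t => deriv χ (t / T) * (1 / T) * (1 / T), Λ (-2),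
    hχ.comp hsm, hΛ.comp hsm, hdχ, fun t => (hd (t / T)).comp t (hs t),
    fun t => (hdχ t).mul_const _, fun t => h01 _, fun t ht => h0 _ (hle t ht),
    fun t ht => h1 _ ?_, fun t => mul_nonneg (h01 _).1 (by positivity), fun t => ?_,
    fun t ht => hc _ (hle t ht), fun t => ?_⟩
  · rw [le_div_iff₀ hT]
    linarith
  · have := mul_le_mul_of_nonneg_right (hM (t / T)).2 (hM (t / T)).1
    have h2 : 0 ≤ 1 / T * (1 / T) := by positivity
    nlinarith [mul_le_mul_of_nonneg_right this h2]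
  · have := hb (t / T)
    rwa [abs_div, abs_of_pos hT] at this

theorem bpt4b_grad {θ : E N → ℝ} {z : E N} (hθ : DifferentiableAt ℝ θ z) :
    ‖fderiv ℝ θ z‖ ^ 2 ≤ 4 * N * ∑ a, ‖dr θ z a‖ ^ 2 := by
  have h1 : ‖fderiv ℝ θ z‖ ≤ 2 * ∑ a, ‖dr θ z a‖ := by
    refine ContinuousLinearMap.opNorm_le_bound _ (by positivity) fun v => ?_
    have e : fderiv ℝ (fun y => (θ y : ℂ)) z v = (fderiv ℝ θ z v : ℂ) := by
      have := (Complex.ofRealCLM.hasFDerivAt.comp z hθ.hasFDerivAt).fderiv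
      have e2 : (fun y => (θ y : ℂ)) = ⇑Complex.ofRealCLM ∘ θ := rfl
      rw [e2, this]
      rfl
    have e3 : ‖fderiv ℝ θ z v‖ = ‖fderiv ℝ (fun y => (θ y : ℂ)) z v‖ := by
      rw [e, Complex.norm_real]
    rw [e3, fderiv_eq_wirt, Finset.mul_sum, Finset.sum_mul]
    refine (norm_sum_le _ _).trans (Finset.sum_le_sum fun a _ => ?_)
    have e4 : ‖dzb a (fun y => (θ y : ℂ)) z‖ = ‖dr θ z a‖ := by
      have := congrFun (star_db θ z) a
      rw [← this]
      simp [db]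
    have e5 : ‖dz a (fun y => (θ y : ℂ)) z‖ = ‖dr θ z a‖ := rfl
    have hv := norm_le_pi_norm v a
    refine (norm_add_le _ _).trans ?_
    rw [norm_mul, norm_mul, norm_star, e4, e5]
    nlinarith [norm_nonneg (dr θ z a)]
  have h2 : (∑ a, ‖dr θ z a‖) ^ 2 ≤ N * ∑ a, ‖dr θ z a‖ ^ 2 := by
    simpa using sq_sum_le_card_mul_sum_sq (s := Finset.univ) (f := fun a => ‖dr θ z a‖)
  have h3 := pow_le_pow_left₀ (norm_nonneg _) h1 2
  nlinarith

theorem bpt4b_ibp {O C : Set (E N)} (hO : IsOpen O) (hC : IsCompact C) (h : C ⊆ O)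
    {p q : E N → ℂ} (hp : ContDiffOn ℝ ∞ p O) (hq : ContDiffOn ℝ ∞ q O)
    (h0 : ∀ z ∈ O, z ∉ C → p z = 0) (a : Fin N) :
    ∫ z in O, p z * dz a q z = -∫ z in O, dz a p z * q z ∧
      ∫ z in O, p z * dzb a q z = -∫ z in O, dzb a p z * q z := by
  have hz := dz_zero_off hO hC.isClosed h0 a
  have hi := int_dz hO hC h (hp.mul hq) (fun z hz hz' => by rw [h0 z hz hz', zero_mul]) a
  have dp := dz_smooth hO hp a
  have dq := dz_smooth hO hq a
  constructor
  · have i1 : IntegrableOn (fun z => dz a p z * q z) O volume :=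
      intOn hO hC h (dp.1.mul hq).continuousOn fun z h1 h2 => by rw [(hz z h1 h2).1, zero_mul]
    have i2 : IntegrableOn (fun z => p z * dz a q z) O volume :=
      intOn hO hC h (hp.mul dq.1).continuousOn fun z h1 h2 => by rw [h0 z h1 h2, zero_mul]
    rw [eq_neg_iff_add_eq_zero, add_comm, ← integral_add i1 i2, ← hi.1]
    exact setIntegral_congr_fun hO.measurableSet fun z hz =>
      ((dz_mul (diffAt hO hp hz) (diffAt hO hq hz) a).1).symm
  · have i1 : IntegrableOn (fun z => dzb a p z * q z) O volume :=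
      intOn hO hC h (dp.2.mul hq).continuousOn fun z h1 h2 => by rw [(hz z h1 h2).2, zero_mul]
    have i2 : IntegrableOn (fun z => p z * dzb a q z) O volume :=
      intOn hO hC h (hp.mul dq.2).continuousOn fun z h1 h2 => by rw [h0 z h1 h2, zero_mul]
    rw [eq_neg_iff_add_eq_zero, add_comm, ← integral_add i1 i2, ← hi.2]
    exact setIntegral_congr_fun hO.measurableSet fun z hz =>
      ((dz_mul (diffAt hO hp hz) (diffAt hO hq hz) a).2).symm

theorem bpt4b_pt (h : Pol z₀ R W ψ) {χ χ₁ Λ Λ₁ Λ₂ : ℝ → ℝ} {c M T : ℝ} (hM : 0 ≤ M)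
    (d₁ : ∀ t, HasDerivAt χ (χ₁ t) t) (d₂ : ∀ t, HasDerivAt Λ (Λ₁ t) t)
    (d₃ : ∀ t, HasDerivAt Λ₁ (Λ₂ t) t) (h0 : ∀ t ≤ -T, χ t = 0) (h1 : ∀ t, 0 ≤ Λ₁ t)
    (h2 : ∀ t, χ₁ t ^ 2 ≤ M * Λ₂ t) (hc : ∀ t ≤ -T, Λ t = c) {z : E N} (hz : z ∈ ball z₀ R)
    (a : Fin N) : ‖dr (pext W ψ χ 0) z a‖ ^ 2 ≤ M * (lev (pext W ψ Λ c) z a a).re := by
  by_cases hW : z ∈ W
  · have e : ∀ (l : ℝ → ℝ) (k : ℝ), pext W ψ l k =ᶠ[𝓝 z] fun y => l (ψ y) := fun l k => by
      filter_upwards [h.isOpen.mem_nhds hW] with y hy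
      simp only [pext, if_pos hy]
    have hs : ContDiffAt ℝ ∞ ψ z := h.smooth.contDiffAt (h.isOpen.mem_nhds hW)
    have e1 := lev_chain (Eventually.of_forall d₂) (d₃ (ψ z)) hs (Pi.single a 1)
    have e2 : ∀ A : Mat N, hq A (Pi.single a 1) (Pi.single a 1) = A a a := fun A => by
      simp [hq]
    have e3 := h.psh z hW (Pi.single a 1)
    rw [(dr_congr (e χ 0)).eq_of_nhds, (lev_congr (e Λ c)).eq_of_nhds, ← e2 (lev _ z), e1,
      dr_chain (d₁ (ψ z)) (diffAt h.isOpen h.smooth hW), single_one_dotProduct, Pi.smul_apply,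
      smul_eq_mul, norm_mul, mul_pow, Complex.norm_real, Real.norm_eq_abs, sq_abs]
    have p1 := mul_nonneg hM (mul_nonneg (h1 (ψ z)) e3)
    have p2 := mul_le_mul_of_nonneg_right (h2 (ψ z)) (sq_nonneg ‖dr ψ z a‖)
    simp only [hr] at p1
    nlinarith
  · have e : ∀ (l : ℝ → ℝ) (k : ℝ), (∀ t ≤ -T, l t = k) → pext W ψ l k =ᶠ[𝓝 z] fun _ => k :=
      fun l k hl => by
        filter_upwards [h.ev T hz hW] with y hy
        by_cases hyW : y ∈ W
        · simp only [pext, if_pos hyW, hl _ (hy hyW).le]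
        · simp only [pext, if_neg hyW]
    rw [(dr_congr (e χ 0 h0)).eq_of_nhds, (lev_congr (e Λ c hc)).eq_of_nhds, dr_const, lev_const]
    simp

theorem bpt4b_lev {O : Set (E N)} (hO : IsOpen O) {b : E N → ℝ} (hb : Tst O b) (a : Fin N) :
    ∃ K : ℝ, 0 ≤ K ∧ ∀ u : E N → ℝ, ContDiffOn ℝ ∞ u O → IntegrableOn u O volume →
      ∫ z in O, b z * (lev u z a a).re ≤ K * ∫ z in O, |u z| := by
  have hB : Tst O fun y => (b y : ℂ) := by
    have e : tsupport (fun y => (b y : ℂ)) = tsupport b := by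
      unfold tsupport
      congr 1
      ext y
      simp
    exact ⟨Complex.ofRealCLM.contDiff.comp hb.smooth, by
      unfold HasCompactSupport
      rw [e]
      exact hb.cpt, e ▸ hb.sub⟩
  have hB1 := (hB.dz_tst a).1
  have hB2 := (hB1.dz_tst a).2
  obtain ⟨K, hK⟩ := hB2.smooth.continuous.bounded_above_of_compact_support hB2.cpt
  have hK0 : 0 ≤ K := (norm_nonneg _).trans (hK 0)
  refine ⟨K, hK0, fun u hu hi => ?_⟩
  have hU := ofReal_smooth hu
  have z0 : ∀ {r : E N → ℂ}, ∀ z ∈ O, z ∉ tsupport r → r z = 0 :=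
    fun z _ hz => image_eq_zero_of_notMem_tsupport hz
  have e1 := (bpt4b_ibp hO hB.cpt hB.sub hB.smooth.contDiffOn (dz_smooth hO hU a).2 z0 a).1
  have e2 := (bpt4b_ibp hO hB1.cpt hB1.sub hB1.smooth.contDiffOn hU z0 a).2
  rw [e2, neg_neg] at e1
  have i1 : IntegrableOn (fun z => (b z : ℂ) * dz a (dzb a fun y => (u y : ℂ)) z) O volume :=
    intOn hO hB.cpt hB.sub (hB.smooth.contDiffOn.mul
      (dz_smooth hO (dz_smooth hO hU a).2 a).1).continuousOn fun z h1 h2 => by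
        rw [z0 (r := fun y => (b y : ℂ)) z h1 h2, zero_mul]
  have e3 : ∫ z in O, b z * (lev u z a a).re =
      (∫ z in O, (b z : ℂ) * dz a (dzb a fun y => (u y : ℂ)) z).re := by
    have := integral_re i1
    simp only [RCLike.re_to_complex] at this
    rw [← this]
    simp only [lev_apply, Complex.re_ofReal_mul]
  rw [e3, e1, ← integral_const_mul]
  refine (Complex.re_le_norm _).trans (norm_integral_le_of_norm_le (hi.abs.const_mul K)
    (Eventually.of_forall fun z => ?_))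
  rw [norm_mul, Complex.norm_real, Real.norm_eq_abs]
  exact mul_le_mul_of_nonneg_right (hK z) (abs_nonneg _)

theorem Pol.cut (h : Pol z₀ R W ψ) (a : ℝ) {ε : ℝ} (hε : 0 < ε) : ∃ (θ : E N → ℝ) (c : ℝ),
    ContDiffOn ℝ ∞ θ (ball z₀ R) ∧ (∀ z, 0 ≤ θ z ∧ θ z ≤ 1) ∧ (∀ z ∈ W, -a ≤ ψ z → θ z = 1) ∧
    (∀ z, θ z ≠ 0 → z ∈ W ∧ -c ≤ ψ z) ∧
    ∫ z in ball z₀ (R / 32), ‖fderiv ℝ θ z‖ ^ 2 ≤ ε := by
  have hR := h.R_pos
  obtain ⟨M, hM, hfun⟩ := bpt4b_fun
  have hO : IsOpen (ball z₀ (R / 16)) := isOpen_ball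
  have hOR : ball z₀ (R / 16) ⊆ ball z₀ R := ball_subset_ball (by linarith)
  obtain ⟨b, d, hb, hb01, hd, hb1⟩ := exists_bump hO (isCompact_closedBall z₀ (R / 32))
    (closedBall_subset_ball (by linarith))
  choose K hK0 hK using bpt4b_lev hO hb
  have hI : 0 ≤ ∫ z in W ∩ ball z₀ (R / 16), |ψ z| := integral_nonneg fun z => abs_nonneg _
  have hlp : IntegrableOn (fun z => |ψ z|) (W ∩ ball z₀ (R / 16)) volume := by
    simpa using h.lp 1
  have hKs : 0 ≤ ∑ i, K i := Finset.sum_nonneg fun i _ => hK0 i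
  obtain ⟨Q, hQ⟩ : ∃ Q, Q = 4 * N * M * (∑ i, K i) * ∫ z in W ∩ ball z₀ (R / 16), |ψ z| :=
    ⟨_, rfl⟩
  obtain ⟨T, hT0, hTa, hTQ⟩ : ∃ T : ℝ, 0 < T ∧ a ≤ T ∧ Q / T ≤ ε := by
    refine ⟨max (max 1 a) (Q / ε), by positivity, (le_max_right _ _).trans (le_max_left _ _), ?_⟩
    rw [div_le_iff₀ (by positivity), mul_comm, ← div_le_iff₀ hε]
    exact le_max_right _ _
  obtain ⟨χ, χ₁, Λ, Λ₁, Λ₂, c, sχ, sΛ, d₁, d₂, d₃, h01, h0, h1, p1, p2, hc, hbd⟩ := hfun T hT0
  have hθ := h.ext sχ h0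
  have hu := h.ext sΛ hc
  refine ⟨pext W ψ χ 0, 2 * T, hθ, fun z => ?_, fun z hz hz' => ?_, fun z hz => ?_, ?_⟩
  · unfold pext
    split_ifs
    · exact h01 _
    · exact ⟨le_rfl, zero_le_one⟩
  · simp only [pext, if_pos hz]
    exact h1 _ (by linarith)
  · by_cases hW : z ∈ W
    · simp only [pext, if_pos hW] at hz
      exact ⟨hW, le_of_not_ge fun hle => hz (h0 _ hle)⟩
    · simp only [pext, if_neg hW] at hz
      exact absurd rfl hz
  have hae : ball z₀ (R / 16) =ᵐ[volume] (W ∩ ball z₀ (R / 16) : Set (E N)) := by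
    refine ae_eq_set.2 ⟨?_, ?_⟩
    · refine measure_mono_null (fun z hz => ?_) h.null
      exact ⟨hz.1, fun hW => hz.2 ⟨hW, hz.1⟩⟩
    · rw [sdiff_eq_empty.2 inter_subset_right, measure_empty]
  have hWO := h.isOpen.inter hO
  have hub : ∀ z ∈ W ∩ ball z₀ (R / 16), |pext W ψ Λ c z| ≤ |ψ z| / T := fun z hz => by
    simp only [pext, if_pos hz.1]
    exact hbd _
  have hui : IntegrableOn (pext W ψ Λ c) (W ∩ ball z₀ (R / 16)) volume :=
    Integrable.mono' (hlp.div_const T) ((hu.continuousOn.mono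
      (inter_subset_right.trans hOR)).aestronglyMeasurable hWO.measurableSet)
      ((ae_restrict_iff' hWO.measurableSet).2 (Eventually.of_forall hub))
  have hui' : IntegrableOn (pext W ψ Λ c) (ball z₀ (R / 16)) volume := hui.congr_set_ae hae
  have hu1 : ∫ z in ball z₀ (R / 16), |pext W ψ Λ c z| ≤
      (∫ z in W ∩ ball z₀ (R / 16), |ψ z|) / T := by
    rw [setIntegral_congr_set hae, ← integral_div]
    exact setIntegral_mono_on hui.abs (hlp.div_const T) hWO.measurableSet hub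
  have z0 : ∀ z ∈ ball z₀ (R / 16), z ∉ tsupport b → b z = 0 :=
    fun z _ hz => image_eq_zero_of_notMem_tsupport hz
  have cθ : ContinuousOn (fun z => ‖fderiv ℝ (pext W ψ χ 0) z‖ ^ 2) (ball z₀ (R / 16)) :=
    (((hθ.mono hOR).continuousOn_fderiv_of_isOpen hO (by simp)).norm).pow 2
  have i1 : IntegrableOn (fun z => b z * ‖fderiv ℝ (pext W ψ χ 0) z‖ ^ 2) (ball z₀ (R / 16))
      volume := intOn hO hb.cpt hb.sub (hb.smooth.continuous.continuousOn.mul cθ)
        fun z h1 h2 => by rw [z0 z h1 h2, zero_mul]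
  have i2 : ∀ i, IntegrableOn (fun z => b z * (lev (pext W ψ Λ c) z i i).re) (ball z₀ (R / 16))
      volume := fun i => intOn hO hb.cpt hb.sub (hb.smooth.continuous.continuousOn.mul
        (Complex.continuous_re.comp_continuousOn (lev_smooth hO (hu.mono hOR) i i).continuousOn))
        fun z h1 h2 => by rw [z0 z h1 h2, zero_mul]
  calc ∫ z in ball z₀ (R / 32), ‖fderiv ℝ (pext W ψ χ 0) z‖ ^ 2
      = ∫ z in ball z₀ (R / 32), b z * ‖fderiv ℝ (pext W ψ χ 0) z‖ ^ 2 :=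
        setIntegral_congr_fun isOpen_ball.measurableSet fun z hz => by
          simp only [hb1 z (ball_subset_closedBall hz) z (mem_ball_self hd), one_mul]
    _ ≤ ∫ z in ball z₀ (R / 16), b z * ‖fderiv ℝ (pext W ψ χ 0) z‖ ^ 2 :=
        setIntegral_mono_set i1 (Eventually.of_forall fun z =>
          mul_nonneg (hb01 z).1 (sq_nonneg _)) (ball_subset_ball (by linarith)).eventuallyLE
    _ ≤ ∫ z in ball z₀ (R / 16), 4 * N * M * ∑ i, b z * (lev (pext W ψ Λ c) z i i).re := by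
        refine setIntegral_mono_on i1 ((integrable_finsetSum _ fun i _ => i2 i).const_mul _)
          hO.measurableSet fun z hz => ?_
        have g1 := bpt4b_grad (diffAt isOpen_ball hθ (hOR hz))
        have g2 := Finset.sum_le_sum fun i (_ : i ∈ Finset.univ) =>
          bpt4b_pt h hM d₁ d₂ d₃ h0 p1 p2 hc (hOR hz) i
        rw [← Finset.mul_sum] at g2 ⊢
        have g3 := g1.trans (mul_le_mul_of_nonneg_left g2 (by positivity))
        nlinarith [mul_le_mul_of_nonneg_left g3 (hb01 z).1]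
    _ ≤ 4 * N * M * ∑ i, K i * ((∫ z in W ∩ ball z₀ (R / 16), |ψ z|) / T) := by
        rw [integral_const_mul, integral_finsetSum _ fun i _ => i2 i]
        refine mul_le_mul_of_nonneg_left (Finset.sum_le_sum fun i _ => ?_) (by positivity)
        exact (hK i _ (hu.mono hOR) hui').trans (mul_le_mul_of_nonneg_left hu1 (hK0 i))
    _ = Q / T := by
        rw [hQ, ← Finset.sum_mul]
        ring
    _ ≤ ε := hTQ

theorem bpt4b_l1 {O : Set (E N)} (hO : IsOpen O) (hs : O ⊆ ball z₀ R) {u : E N → ℂ}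
    (hu : ContinuousOn u O) (h2 : IntegrableOn (fun z => ‖u z‖ ^ 2) O volume) :
    IntegrableOn u O volume := by
  have hf : volume O ≠ ⊤ := ((measure_mono hs).trans_lt measure_ball_lt_top).ne
  refine Integrable.mono' (h2.add (integrableOn_const (C := (1 : ℝ)) hf))
    (hu.aestronglyMeasurable hO.measurableSet) (Eventually.of_forall fun z => ?_)
  simp only [Pi.add_apply]
  nlinarith [sq_nonneg (‖u z‖ - 1), norm_nonneg (u z)]

theorem Pol.ibp_db (h : Pol z₀ R W ψ) {S : Set (E N)} (hS : IsOpen S) (hs : S ⊆ ball z₀ (R / 32))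
    {u r : E N → ℂ} (hu : ContDiffOn ℝ ∞ u W)
    (h2 : IntegrableOn (fun z => ‖u z‖ ^ 2) (W ∩ S) volume) (hr : Tst S r) (a : Fin N)
    (h1 : IntegrableOn (dzb a u) (W ∩ S) volume) :
    ∫ z in W ∩ S, u z * dzb a r z = -∫ z in W ∩ S, dzb a u z * r z := by
  have hR := h.R_pos
  have hO := h.isOpen.inter hS
  have hm := hO.measurableSet
  have hOs : W ∩ S ⊆ ball z₀ (R / 32) := inter_subset_right.trans hs
  have hbR : ball z₀ (R / 32) ⊆ ball z₀ R := ball_subset_ball (by linarith)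
  have huO : ContDiffOn ℝ ∞ u (W ∩ S) := hu.mono inter_subset_left
  have hu1 := bpt4b_l1 hO hOs huO.continuousOn h2
  have hr' := (hr.dz_tst a).2
  obtain ⟨K, hK⟩ := hr.smooth.continuous.bounded_above_of_compact_support hr.cpt
  obtain ⟨K', hK'⟩ := hr'.smooth.continuous.bounded_above_of_compact_support hr'.cpt
  have hK0 : 0 ≤ K := (norm_nonneg _).trans (hK 0)
  have i1 : IntegrableOn (fun z => u z * dzb a r z) (W ∩ S) volume :=
    Integrable.mul_bdd hu1 hr'.smooth.continuous.aestronglyMeasurable (Eventually.of_forall hK')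
  have i2 : IntegrableOn (fun z => dzb a u z * r z) (W ∩ S) volume :=
    Integrable.mul_bdd h1 hr.smooth.continuous.aestronglyMeasurable (Eventually.of_forall hK)
  have i3 := i1.add i2
  rw [eq_neg_iff_add_eq_zero, ← integral_add i1 i2]
  have hδ : ∀ n : ℕ, (0 : ℝ) < 1 / (n + 1) := fun n => by positivity
  choose θ c sθ h01 hone hsupp hint using fun n : ℕ => h.cut n (pow_pos (hδ n) 2)
  have sΘ : ∀ n, ContDiffOn ℝ ∞ (fun y => (θ n y : ℂ)) (W ∩ S) :=
    fun n => ofReal_smooth ((sθ n).mono (hOs.trans hbR))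
  have nΘ : ∀ n y, ‖(θ n y : ℂ)‖ ≤ 1 := fun n y => by
    rw [Complex.norm_real, Real.norm_eq_abs, abs_of_nonneg (h01 n y).1]
    exact (h01 n y).2
  have t1 : Tendsto (fun n => ∫ z in W ∩ S, (θ n z : ℂ) * (u z * dzb a r z + dzb a u z * r z))
      atTop (𝓝 (∫ z in W ∩ S, (u z * dzb a r z + dzb a u z * r z))) := by
    refine tendsto_integral_of_dominated_convergence _
      (fun n => ((sΘ n).continuousOn.aestronglyMeasurable hm).mul i3.aestronglyMeasurable) i3.norm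
      (fun n => Eventually.of_forall fun z => ?_)
      ((ae_restrict_iff' hm).2 (Eventually.of_forall fun z hz => ?_))
    · rw [norm_mul]
      exact mul_le_of_le_one_left (norm_nonneg _) (nΘ n z)
    · refine tendsto_const_nhds.congr' ?_
      filter_upwards [tendsto_natCast_atTop_atTop.eventually_ge_atTop (-ψ z)] with n hn
      rw [hone n z hz.1 (by linarith), Complex.ofReal_one, one_mul]
  refine tendsto_nhds_unique t1 (squeeze_zero_norm
    (a := fun n : ℕ => K * ((∫ z in W ∩ S, ‖u z‖ ^ 2) + 1) * (1 / (n + 1))) (fun n => ?_) ?_)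
  swap
  · simpa using (tendsto_one_div_add_atTop_nhds_zero_nat (𝕜 := ℝ)).const_mul
      (K * ((∫ z in W ∩ S, ‖u z‖ ^ 2) + 1))
  have hC : IsCompact (tsupport r ∩ closure {y | y ∈ W ∧ -c n ≤ ψ y}) :=
    IsCompact.inter_right hr.cpt isClosed_closure
  have hCO : tsupport r ∩ closure {y | y ∈ W ∧ -c n ≤ ψ y} ⊆ W ∩ S := fun z hz =>
    ⟨h.closed _ z (hbR (hs (hr.sub hz.1))) hz.2, hr.sub hz.1⟩
  have hp : ContDiffOn ℝ ∞ (fun y => (θ n y : ℂ) * r y) (W ∩ S) := (sΘ n).mul hr.smooth.contDiffOn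
  have hp0 : ∀ z ∈ W ∩ S, z ∉ tsupport r ∩ closure {y | y ∈ W ∧ -c n ≤ ψ y} →
      (θ n z : ℂ) * r z = 0 := fun z _ hz => by
    by_cases hr0 : z ∈ tsupport r
    · by_cases hθ : θ n z = 0
      · rw [hθ, Complex.ofReal_zero, zero_mul]
      · exact absurd ⟨hr0, subset_closure (hsupp n z hθ)⟩ hz
    · rw [image_eq_zero_of_notMem_tsupport hr0, mul_zero]
  have e1 := (bpt4b_ibp hO hC hCO hp huO hp0 a).2
  have j1 : IntegrableOn (fun z => (θ n z : ℂ) * r z * dzb a u z) (W ∩ S) volume :=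
    intOn hO hC hCO (hp.mul (dz_smooth hO huO a).2).continuousOn
      fun z h1 h2 => by rw [hp0 z h1 h2, zero_mul]
  have j2 : IntegrableOn (fun z => dzb a (fun y => (θ n y : ℂ) * r y) z * u z) (W ∩ S) volume :=
    intOn hO hC hCO ((dz_smooth hO hp a).2.mul huO).continuousOn
      fun z h1 h2 => by rw [(dz_zero_off hO hC.isClosed hp0 a z h1 h2).2, zero_mul]
  have cθ : ContinuousOn (fun z => ‖fderiv ℝ (θ n) z‖ ^ 2) (closedBall z₀ (R / 32)) :=
    ((((sθ n).continuousOn_fderiv_of_isOpen isOpen_ball (by simp)).norm).pow 2).mono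
      (closedBall_subset_ball (by linarith))
  have j3 : IntegrableOn (fun z => ‖fderiv ℝ (θ n) z‖ ^ 2) (ball z₀ (R / 32)) volume :=
    (cθ.integrableOn_compact (isCompact_closedBall _ _)).mono_set ball_subset_closedBall
  have j4 : ∫ z in W ∩ S, ‖fderiv ℝ (θ n) z‖ ^ 2 ≤ (1 / (n + 1)) ^ 2 :=
    (setIntegral_mono_set j3 (Eventually.of_forall fun z => sq_nonneg _)
      hOs.eventuallyLE).trans (hint n)
  have j5 := j3.mono_set hOs
  have hbd : ∀ z ∈ W ∩ S, ‖dzb a (fun y => (θ n y : ℂ)) z * r z * u z‖ ≤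
      K * (1 / (n + 1) * ‖u z‖ ^ 2 + (n + 1) * ‖fderiv ℝ (θ n) z‖ ^ 2) := fun z hz => by
    have hd := diffAt isOpen_ball (sθ n) (hbR (hOs hz))
    have g1 : ‖dzb a (fun y => (θ n y : ℂ)) z‖ ≤ ‖fderiv ℝ (θ n) z‖ := by
      refine (dz_norm_le _ z a).2.trans ?_
      have := (Complex.ofRealCLM.hasFDerivAt.comp z hd.hasFDerivAt).fderiv
      have e2 : (fun y => (θ n y : ℂ)) = ⇑Complex.ofRealCLM ∘ θ n := rfl
      rw [e2, this]
      refine (ContinuousLinearMap.opNorm_comp_le _ _).trans ?_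
      rw [Complex.ofRealCLM_norm, one_mul]
    have g2 : ‖fderiv ℝ (θ n) z‖ * ‖u z‖ ≤
        1 / (n + 1) * ‖u z‖ ^ 2 + (n + 1) * ‖fderiv ℝ (θ n) z‖ ^ 2 := by
      have hn : (0 : ℝ) < n + 1 := by positivity
      refine le_of_mul_le_mul_left ?_ hn
      have e : ((n : ℝ) + 1) * (1 / (n + 1) * ‖u z‖ ^ 2 + (n + 1) * ‖fderiv ℝ (θ n) z‖ ^ 2) =
          ‖u z‖ ^ 2 + ((n + 1) * ‖fderiv ℝ (θ n) z‖) ^ 2 := by field_simp
      rw [e]
      nlinarith [sq_nonneg (‖u z‖ - (n + 1) * ‖fderiv ℝ (θ n) z‖), sq_nonneg ‖u z‖,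
        sq_nonneg ((n + 1) * ‖fderiv ℝ (θ n) z‖)]
    rw [norm_mul, norm_mul]
    calc ‖dzb a (fun y => (θ n y : ℂ)) z‖ * ‖r z‖ * ‖u z‖
        ≤ ‖fderiv ℝ (θ n) z‖ * K * ‖u z‖ := by gcongr; exact hK z
      _ = K * (‖fderiv ℝ (θ n) z‖ * ‖u z‖) := by ring
      _ ≤ _ := mul_le_mul_of_nonneg_left g2 hK0
  have j6 : IntegrableOn (fun z => K * (1 / ((n : ℝ) + 1) * ‖u z‖ ^ 2 +
      (n + 1) * ‖fderiv ℝ (θ n) z‖ ^ 2)) (W ∩ S) volume :=
    ((h2.const_mul _).add (j5.const_mul _)).const_mul K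
  have j7 : IntegrableOn (fun z => dzb a (fun y => (θ n y : ℂ)) z * r z * u z) (W ∩ S) volume :=
    Integrable.mono' j6 (((((dz_smooth hO (sΘ n) a).2.mul hr.smooth.contDiffOn).mul
      huO).continuousOn).aestronglyMeasurable hm) ((ae_restrict_iff' hm).2
        (Eventually.of_forall hbd))
  have e2 : ∫ z in W ∩ S, (θ n z : ℂ) * (u z * dzb a r z + dzb a u z * r z) =
      -∫ z in W ∩ S, dzb a (fun y => (θ n y : ℂ)) z * r z * u z := by
    rw [eq_neg_iff_add_eq_zero, ← integral_add j1 j2] at e1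
    have j8 : IntegrableOn (fun z => (θ n z : ℂ) * r z * dzb a u z +
        dzb a (fun y => (θ n y : ℂ) * r y) z * u z) (W ∩ S) volume := j1.add j2
    rw [← zero_sub, ← e1, ← integral_sub j8 j7]
    refine setIntegral_congr_fun hm fun z hz => ?_
    simp only [(dz_mul (diffAt hO (sΘ n) hz)
      (diffAt hO hr.smooth.contDiffOn hz) a).2]
    ring
  rw [e2, norm_neg]
  refine (norm_integral_le_of_norm_le j6 ((ae_restrict_iff' hm).2
    (Eventually.of_forall hbd))).trans ?_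
  rw [integral_const_mul, integral_add (h2.const_mul _) (j5.const_mul _), integral_const_mul,
    integral_const_mul, mul_assoc]
  refine mul_le_mul_of_nonneg_left ?_ hK0
  have hn : (0 : ℝ) < n + 1 := by positivity
  have g := mul_le_mul_of_nonneg_left j4 hn.le
  have e : ((n : ℝ) + 1) * (1 / (n + 1)) ^ 2 = 1 / (n + 1) := by field_simp
  rw [e] at g
  linarith

theorem Pol.hol (h : Pol z₀ R W ψ) {f : E N → ℂ} (hf : DifferentiableOn ℂ f W)
    (h2 : IntegrableOn (fun z => ‖f z‖ ^ 2) (W ∩ ball z₀ (R / 32)) volume) :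
    ∃ g, DifferentiableOn ℂ g (ball z₀ (R / 64)) ∧ EqOn g f (W ∩ ball z₀ (R / 64)) := by
  have hR := h.R_pos
  have e : 2 * (R / 64) = R / 32 := by ring
  have hWm := h.isOpen.measurableSet
  have hO := h.isOpen.inter (isOpen_ball (x := z₀) (ε := R / 32))
  have hs : ContDiffOn ℝ ∞ f W :=
    (Lib.SCV.contDiffOn_of_differentiableOn h.isOpen hf).restrict_scalars ℝ
  have h0 : ∀ a, ∀ z ∈ W ∩ ball z₀ (R / 32), dzb a f z = 0 := fun a z hz =>
    (dz_of_diff (hf.differentiableAt (h.isOpen.mem_nhds hz.1)) a).2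
  have hi := bpt4b_l1 hO inter_subset_right (hf.continuousOn.mono inter_subset_left) h2
  obtain ⟨g, hg, hae⟩ := weyl (f := W.indicator f) (z := z₀) (R := R / 64) (by positivity)
    (by rw [e]; exact (integrableOn_indicator_iff hWm).2 hi) fun r hr a => by
      rw [e] at hr ⊢
      have e1 := h.ibp_db isOpen_ball subset_rfl hs h2 hr a
        ((integrableOn_congr_fun (h0 a) hO.measurableSet).2 integrableOn_zero)
      rw [setIntegral_congr_fun (f := fun z => dzb a f z * r z) (g := fun _ => 0) hO.measurableSet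
        fun z hz => by simp only [h0 a z hz, zero_mul]] at e1
      simp only [integral_zero, neg_zero] at e1
      rw [← e1, inter_comm, ← setIntegral_indicator hWm]
      simp only [indicator_mul_left]
  refine ⟨g, hg, ?_⟩
  have hO' := h.isOpen.inter (isOpen_ball (x := z₀) (ε := R / 64))
  refine Measure.eqOn_open_of_ae_eq (μ := volume) ?_ hO'
    (hg.continuousOn.mono inter_subset_right) (hf.continuousOn.mono inter_subset_left)
  filter_upwards [ae_restrict_of_ae_restrict_of_subset inter_subset_right hae,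
    ae_restrict_mem hO'.measurableSet] with y hy hy'
  rw [hy, indicator_of_mem hy'.1]

end Pool.Agent.BP
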