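import Pool.Agent.P.MP_63735c_ag.BPT4b
import Pool.Agent.P.MP_63735c_ag.ABMol1
import Pool.Agent.P.MP_63735c_ag.ABMV
import Pool.Agent.P.MP_63735c_ag.SPIdent

/-! The local potential lemma: integrability and the holomorphic 2-form. -/

open scoped ComplexOrder ContDiff Matrix Topology ENNReal
open Set Metric MeasureTheory Filter

namespace Pool.Agent.BP

open Pool.Agent.SPF Pool.Agent.AB Pool.Agent.CK Pool.Agent.SE Pool.Agent.NL

variable {N : ℕ} {z₀ : E N} {R a C : ℝ} {W : Set (E N)} {ψ : E N → ℝ} {ξ : E N → E N}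
  {Ω e : E N → Mat N}

theorem bpt5a_single (h : Mat N) (b c : Fin N) : hq h (Pi.single b 1) (Pi.single c 1) = h b c := by
  simp [hq, Pi.star_single]

theorem bpt5a_diag {h : Mat N} (hh : h.PosSemidef) (b : Fin N) : 0 ≤ (h b b).re :=
  bpt5a_single h b b ▸ hq_nonneg hh (Pi.single b 1)

theorem bpt5a_off {h : Mat N} (hh : h.PosSemidef) (b c : Fin N) :
    ‖h b c‖ ≤ (h b b).re + (h c c).re := by
  have key : ∀ t : ℂ,
      0 ≤ (h b b + star t * h b c + (t * star (h b c) + t * (star t * h c c))).re := fun t => by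
    have := hq_nonneg hh (Pi.single b 1 + t • Pi.single c 1)
    rwa [hq_add_left, hq_add_right, hq_add_right, hq_smul_left, hq_smul_right, hq_smul_left,
      hq_smul_right, bpt5a_single, bpt5a_single, bpt5a_single, bpt5a_single,
      ← hh.isHermitian.apply c b] at this
  have h1 := key 1
  have h2 := key (-1)
  have h3 := key Complex.I
  have h4 := key (-Complex.I)
  simp at h1 h2 h3 h4
  refine (Complex.norm_le_abs_re_add_abs_im _).trans ?_
  have h5 : |(h b c).re| ≤ ((h b b).re + (h c c).re) / 2 := abs_le.2 ⟨by linarith, by linarith⟩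
  have h6 : |(h b c).im| ≤ ((h b b).re + (h c c).re) / 2 := abs_le.2 ⟨by linarith, by linarith⟩
  linarith

theorem bpt5a_xi (h : PotD z₀ R W ψ ξ Ω e a C) (b : Fin N) : ContDiffOn ℝ ∞ (fun w => ξ w b) W :=
  contDiffOn_pi.1 h.ξ_smooth b

theorem bpt5a_le (h : PotD z₀ R W ψ ξ Ω e a C) (b : Fin N) {z : E N} (hz : z ∈ W) :
    ‖ξ z b‖ ^ 2 ≤ (|C| + 1) * (Ω z b b).re := by
  have h1 := h.bd z hz (Pi.single b 1)
  rw [single_dotProduct, one_mul, hr, bpt5a_single] at h1
  exact h1.trans (mul_le_mul_of_nonneg_right ((le_abs_self C).trans (by linarith))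
    (bpt5a_diag (h.Ω_psd z hz) b))

theorem bpt5a_cont (h : PotD z₀ R W ψ ξ Ω e a C) (b c : Fin N) :
    ContinuousOn (fun z => Ω z b c) W := by
  have h1 := (((dz_smooth h.isOpen (bpt5a_xi h b) c).2.continuousOn.add
    ((h.e_smooth b c).continuousOn.mono h.sub))).div_const (a : ℂ)
  refine h1.congr fun z hz => ?_
  have h2 : (a : ℂ) ≠ 0 := Complex.ofReal_ne_zero.2 h.a_pos.ne'
  simp only [Pi.add_apply]
  rw [h.eq z hz b c]
  field_simp
  ring

theorem bpt5a_der {χ θ : E N → ℝ} {z : E N} (h1 : DifferentiableAt ℝ χ z)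
    (h2 : DifferentiableAt ℝ θ z) (h3 : 0 ≤ χ z ∧ χ z ≤ 1) (h4 : 0 ≤ θ z ∧ θ z ≤ 1) (b : Fin N) :
    ‖dzb b (fun y => ((χ y * θ y : ℝ) : ℂ)) z‖ ≤ ‖fderiv ℝ χ z‖ + ‖fderiv ℝ θ z‖ := by
  refine (dz_norm_le _ z b).2.trans ?_
  have h5 := (Complex.ofRealCLM.hasFDerivAt.comp z (h1.hasFDerivAt.mul h2.hasFDerivAt)).fderiv
  have h6 : fderiv ℝ (fun y => ((χ y * θ y : ℝ) : ℂ)) z =
      Complex.ofRealCLM.comp (χ z • fderiv ℝ θ z + θ z • fderiv ℝ χ z) := h5
  rw [h6]
  refine (ContinuousLinearMap.opNorm_comp_le _ _).trans ?_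
  rw [Complex.ofRealCLM_norm, one_mul]
  refine (norm_add_le _ _).trans ?_
  rw [norm_smul, norm_smul, Real.norm_of_nonneg h3.1, Real.norm_of_nonneg h4.1]
  nlinarith [norm_nonneg (fderiv ℝ χ z), norm_nonneg (fderiv ℝ θ z), h3.2, h4.2]

/-- the pointwise form of the Caccioppoli inequality -/
theorem bpt5a_pt {η a K M p : ℝ} {D u o e : ℂ} (ha : 0 < a) (hK : 0 < K) (h0 : 0 ≤ η) (h1 : η ≤ 1)
    (hu : ‖u‖ ^ 2 ≤ K * o.re) (hD : ‖D‖ ≤ p) (he : ‖e‖ ≤ M) :
    a / 2 * (η ^ 2 * o.re) ≤ ((D * η + η * D) * u + η * η * (a * o - e)).re +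
      (M + 2 * K / a * p ^ 2) := by
  have e1 : ((D * η + η * D) * u + η * η * (a * o - e)).re =
      2 * η * (D * u).re + η ^ 2 * (a * o.re - e.re) := by
    simp
    ring
  have e2 : -(p * ‖u‖) ≤ (D * u).re := by
    have := (abs_le.1 (Complex.abs_re_le_norm (D * u))).1
    rw [norm_mul] at this
    nlinarith [norm_nonneg u]
  have e3 : η ^ 2 * e.re ≤ M := by
    have := (abs_le.1 ((Complex.abs_re_le_norm e).trans he)).2
    have h2 : 0 ≤ M := (norm_nonneg e).trans he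
    have h3 : η ^ 2 ≤ 1 := by nlinarith
    nlinarith [sq_nonneg η]
  have e4 : 2 * η * (p * ‖u‖) ≤ a / (2 * K) * (η ^ 2 * ‖u‖ ^ 2) + 2 * K / a * p ^ 2 := by
    have h2 : 0 ≤ (a * (η * ‖u‖) - 2 * K * p) ^ 2 / (2 * K * a) := by positivity
    refine sub_nonneg.1 (h2.trans_eq ?_)
    field_simp
    ring
  have e5 : a / (2 * K) * (η ^ 2 * ‖u‖ ^ 2) ≤ a / 2 * (η ^ 2 * o.re) := by
    refine (mul_le_mul_of_nonneg_left (mul_le_mul_of_nonneg_left hu (sq_nonneg η))
      (by positivity)).trans_eq ?_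
    field_simp
  rw [e1]
  nlinarith [mul_le_mul_of_nonneg_left e2 h0]

theorem bpt5a_cacc (h : PotD z₀ R W ψ ξ Ω e a C) (b : Fin N) : ∃ B : ℝ, ∀ k : ℝ,
    ∫⁻ z in W ∩ ball z₀ (R / 64) ∩ {z | -k ≤ ψ z}, ENNReal.ofReal (Ω z b b).re ≤
      ENNReal.ofReal B := by
  have hR := h.toPol.R_pos
  have ha := h.a_pos
  let χ : ContDiffBump z₀ := ⟨R / 64, R / 48, by positivity, by linarith⟩
  have hs : tsupport χ ⊆ ball z₀ (R / 32) := by
    rw [χ.tsupport_eq]
    exact closedBall_subset_ball (show R / 48 < R / 32 by linarith)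
  have hb : closedBall z₀ (R / 32) ⊆ ball z₀ R := closedBall_subset_ball (by linarith)
  have hχ : ContDiff ℝ ∞ χ := χ.contDiff
  obtain ⟨P, hP⟩ := (χ.hasCompactSupport.fderiv ℝ).exists_bound_of_continuous
    (hχ.continuous_fderiv (by simp))
  obtain ⟨M, hM⟩ := (isCompact_closedBall z₀ (R / 32)).exists_bound_of_continuousOn
    ((h.e_smooth b b).continuousOn.mono hb)
  obtain ⟨K, hK⟩ : ∃ K, K = |C| + 1 := ⟨_, rfl⟩
  have hK0 : 0 < K := by rw [hK]; positivity
  have hM0 : 0 ≤ M := (norm_nonneg _).trans (hM z₀ (mem_closedBall_self (by positivity)))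
  refine ⟨2 / a * (volume.real (ball z₀ (R / 32)) * (M + 4 * K / a * P ^ 2) + 4 * K / a),
    fun k => ?_⟩
  obtain ⟨θ, c, t1, t2, t3, t4, t5⟩ := h.toPol.cut k one_pos
  have hV : IsOpen (W ∩ ball z₀ (R / 32)) := h.isOpen.inter isOpen_ball
  have hC : IsCompact (tsupport χ ∩ closure {y | y ∈ W ∧ -c ≤ ψ y}) :=
    χ.hasCompactSupport.isCompact.inter_right isClosed_closure
  have hCV : tsupport χ ∩ closure {y | y ∈ W ∧ -c ≤ ψ y} ⊆ W ∩ ball z₀ (R / 32) := fun y hy =>
    ⟨h.closed c y (hb (ball_subset_closedBall (hs hy.1))) hy.2, hs hy.1⟩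
  have hη : ContDiffOn ℝ ∞ (fun y => χ y * θ y) (W ∩ ball z₀ (R / 32)) :=
    hχ.contDiffOn.mul (t1.mono fun y hy => h.sub hy.1)
  have hη0 : ∀ y, y ∉ tsupport χ ∩ closure {y | y ∈ W ∧ -c ≤ ψ y} → χ y * θ y = 0 := fun y hy => by
    by_contra h1
    exact hy ⟨subset_tsupport _ (left_ne_zero_of_mul h1),
      subset_closure (t4 y (right_ne_zero_of_mul h1))⟩
  have hu := (bpt5a_xi h b).mono (inter_subset_left (t := ball z₀ (R / 32)))
  have hF := ((ofReal_smooth hη).mul (ofReal_smooth hη)).mul hu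
  have hF0 : ∀ y ∈ W ∩ ball z₀ (R / 32), y ∉ tsupport χ ∩ closure {y | y ∈ W ∧ -c ≤ ψ y} →
      ((χ y * θ y : ℝ) : ℂ) * ((χ y * θ y : ℝ) : ℂ) * ξ y b = 0 := fun y _ hy => by
    rw [hη0 y hy]
    simp
  have i1 := intOn hV hC hCV (dz_smooth hV hF b).2.continuousOn
    fun y hy hy' => (dz_zero_off hV hC.isClosed hF0 b y hy hy').2
  have i2 : IntegrableOn (fun y => (χ y * θ y) ^ 2 * (Ω y b b).re) (W ∩ ball z₀ (R / 32)) volume :=
    intOn hV hC hCV ((hη.continuousOn.pow 2).mul (Complex.continuous_re.comp_continuousOn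
      ((bpt5a_cont h b b).mono inter_subset_left))) fun y _ hy => by rw [hη0 y hy]; simp
  have i3 : IntegrableOn (fun y => ‖fderiv ℝ θ y‖ ^ 2) (ball z₀ (R / 32)) volume :=
    ((((t1.continuousOn_fderiv_of_isOpen isOpen_ball (by simp)).mono
      hb).norm.pow 2).integrableOn_compact (isCompact_closedBall _ _)).mono_set
      ball_subset_closedBall
  have i5 : IntegrableOn (fun _ : E N => M + 4 * K / a * P ^ 2) (ball z₀ (R / 32)) volume :=
    integrableOn_const measure_ball_lt_top.ne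
  have i4 : IntegrableOn (fun y => (M + 4 * K / a * P ^ 2) + 4 * K / a * ‖fderiv ℝ θ y‖ ^ 2)
      (ball z₀ (R / 32)) volume := i5.add (i3.const_mul _)
  have i6 : IntegrableOn (fun y => (dzb b (fun y =>
      ((χ y * θ y : ℝ) : ℂ) * ((χ y * θ y : ℝ) : ℂ) * ξ y b) y).re) (W ∩ ball z₀ (R / 32))
      volume := i1.re
  have e1 : ∫ y in W ∩ ball z₀ (R / 32), a / 2 * ((χ y * θ y) ^ 2 * (Ω y b b).re) ≤
      ∫ y in W ∩ ball z₀ (R / 32), ((dzb b (fun y =>
        ((χ y * θ y : ℝ) : ℂ) * ((χ y * θ y : ℝ) : ℂ) * ξ y b) y).re +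
        ((M + 4 * K / a * P ^ 2) + 4 * K / a * ‖fderiv ℝ θ y‖ ^ 2)) := by
    refine setIntegral_mono_on (i2.const_mul _) (i6.add (i4.mono_set inter_subset_right))
      hV.measurableSet fun y hy => ?_
    have d1 := diffAt hV (ofReal_smooth hη) hy
    rw [(dz_mul (d1.fun_mul d1) (diffAt hV hu hy) b).2, (dz_mul d1 d1 b).2, h.eq y hy.1 b b]
    refine (bpt5a_pt ha hK0 (mul_nonneg χ.nonneg (t2 y).1)
      (mul_le_one₀ χ.le_one (t2 y).1 (t2 y).2) (hK ▸ bpt5a_le h b hy.1)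
      (bpt5a_der (hχ.differentiable (by simp) y) (diffAt isOpen_ball t1 (h.sub hy.1))
        ⟨χ.nonneg, χ.le_one⟩ (t2 y) b) (hM y (ball_subset_closedBall hy.2))).trans ?_
    have h1 : (‖fderiv ℝ χ y‖ + ‖fderiv ℝ θ y‖) ^ 2 ≤ 2 * P ^ 2 + 2 * ‖fderiv ℝ θ y‖ ^ 2 := by
      nlinarith [hP y, norm_nonneg (fderiv ℝ χ y), sq_nonneg (‖fderiv ℝ χ y‖ - ‖fderiv ℝ θ y‖)]
    have h2 := mul_le_mul_of_nonneg_left h1 (show 0 ≤ 2 * K / a by positivity)
    have h3 : 2 * K / a * (2 * P ^ 2 + 2 * ‖fderiv ℝ θ y‖ ^ 2) =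
        4 * K / a * P ^ 2 + 4 * K / a * ‖fderiv ℝ θ y‖ ^ 2 := by ring
    linarith
  have e2 : ∫ y in W ∩ ball z₀ (R / 32), (dzb b (fun y =>
      ((χ y * θ y : ℝ) : ℂ) * ((χ y * θ y : ℝ) : ℂ) * ξ y b) y).re = 0 := by
    have := integral_re i1
    rw [(int_dz hV hC hCV hF hF0 b).2] at this
    exact this
  have e3 : ∫ y in W ∩ ball z₀ (R / 32),
      ((M + 4 * K / a * P ^ 2) + 4 * K / a * ‖fderiv ℝ θ y‖ ^ 2) ≤
      volume.real (ball z₀ (R / 32)) * (M + 4 * K / a * P ^ 2) + 4 * K / a := by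
    refine (setIntegral_mono_set i4 (Eventually.of_forall fun y => by positivity)
      inter_subset_right.eventuallyLE).trans ?_
    rw [integral_add i5 (i3.const_mul _), setIntegral_const, integral_const_mul, smul_eq_mul]
    have := mul_le_mul_of_nonneg_left t5 (show 0 ≤ 4 * K / a by positivity)
    linarith
  rw [integral_add i6 (i4.mono_set inter_subset_right), integral_const_mul] at e1
  have e4 : ∫ y in W ∩ ball z₀ (R / 32), (χ y * θ y) ^ 2 * (Ω y b b).re ≤
      2 / a * (volume.real (ball z₀ (R / 32)) * (M + 4 * K / a * P ^ 2) + 4 * K / a) := by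
    rw [div_mul_eq_mul_div, le_div_iff₀ ha]
    have e5 := e1.trans (add_le_add e2.le e3)
    linarith
  refine le_trans ?_ (ENNReal.ofReal_le_ofReal e4)
  rw [ofReal_integral_eq_lintegral_ofReal i2 ((ae_restrict_iff' hV.measurableSet).2
    (Eventually.of_forall fun y hy => mul_nonneg (sq_nonneg _) (bpt5a_diag (h.Ω_psd y hy.1) b)))]
  have hm : MeasurableSet (W ∩ ball z₀ (R / 64) ∩ {z | -k ≤ ψ z}) := by
    have h1 : W ∩ ball z₀ (R / 64) ∩ {z | -k ≤ ψ z} =
        (W ∩ ball z₀ (R / 64)) \ (W ∩ ψ ⁻¹' Iio (-k)) := by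
      ext y
      simp only [mem_inter_iff, Set.mem_sdiff, mem_preimage, mem_Iio, mem_ofPred_eq, not_and, not_lt]
      tauto
    rw [h1]
    exact (h.isOpen.inter isOpen_ball).measurableSet.diff
      (h.smooth.continuousOn.isOpen_inter_preimage h.isOpen isOpen_Iio).measurableSet
  refine le_trans (le_of_eq (setLIntegral_congr_fun hm fun y hy => ?_)) (lintegral_mono_set
    fun y hy => ⟨hy.1.1, ball_subset_ball (by linarith) hy.1.2⟩)
  simp only [t3 y hy.1.1 hy.2, χ.one_of_mem_closedBall (ball_subset_closedBall hy.1.2), mul_one,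
    one_pow, one_mul]

theorem bpt5a_int (h : PotD z₀ R W ψ ξ Ω e a C) (b : Fin N) :
    IntegrableOn (fun z => (Ω z b b).re) (W ∩ ball z₀ (R / 64)) volume := by
  obtain ⟨B, hB⟩ := bpt5a_cacc h b
  have hm := (h.isOpen.inter (isOpen_ball (x := z₀) (ε := R / 64))).measurableSet
  refine ⟨(Complex.continuous_re.comp_continuousOn
    ((bpt5a_cont h b b).mono inter_subset_left)).aestronglyMeasurable hm, ?_⟩
  rw [hasFiniteIntegral_iff_ofReal ((ae_restrict_iff' hm).2
    (Eventually.of_forall fun y hy => bpt5a_diag (h.Ω_psd y hy.1) b))]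
  have e : W ∩ ball z₀ (R / 64) = ⋃ k : ℕ, W ∩ ball z₀ (R / 64) ∩ {z | -(k : ℝ) ≤ ψ z} := by
    refine Subset.antisymm (fun y hy => ?_) (iUnion_subset fun k => inter_subset_left)
    obtain ⟨k, hk⟩ := exists_nat_ge (-ψ y)
    exact mem_iUnion.2 ⟨k, hy, neg_le.1 hk⟩
  have hd : Monotone fun k : ℕ => W ∩ ball z₀ (R / 64) ∩ {z | -(k : ℝ) ≤ ψ z} :=
    fun i j hij y hy => ⟨hy.1, le_trans (b := -(i : ℝ)) (neg_le_neg (Nat.cast_le.2 hij)) hy.2⟩
  rw [e, setLIntegral_iUnion_of_directed _ hd.directed_le]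
  exact (iSup_le fun k : ℕ => hB k).trans_lt ENNReal.ofReal_lt_top

theorem PotD.int (h : PotD z₀ R W ψ ξ Ω e a C) (b c : Fin N) :
    IntegrableOn (fun z => Ω z b c) (W ∩ ball z₀ (R / 64)) volume ∧
      IntegrableOn (fun z => ‖ξ z b‖ ^ 2) (W ∩ ball z₀ (R / 64)) volume := by
  have hm := (h.isOpen.inter (isOpen_ball (x := z₀) (ε := R / 64))).measurableSet
  refine ⟨((bpt5a_int h b).add (bpt5a_int h c)).mono'
    (((bpt5a_cont h b c).mono inter_subset_left).aestronglyMeasurable hm)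
    ((ae_restrict_iff' hm).2 (Eventually.of_forall fun y hy => bpt5a_off (h.Ω_psd y hy.1) b c)),
    ((bpt5a_int h b).const_mul (|C| + 1)).mono'
    ((((bpt5a_xi h b).continuousOn.mono inter_subset_left).norm.pow 2).aestronglyMeasurable hm)
    ((ae_restrict_iff' hm).2 (Eventually.of_forall fun y hy => ?_))⟩
  rw [Real.norm_of_nonneg (sq_nonneg _)]
  exact bpt5a_le h b hy.1

/-- The mollified form. -/
noncomputable def mol (ρ : E N → ℝ) (S : Set (E N)) (u : E N → ℂ) : E N → ℂ :=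
  cv ρ (S.indicator u)

theorem bpt5a_l1 (h : PotD z₀ R W ψ ξ Ω e a C) (b : Fin N) :
    IntegrableOn (fun z => ξ z b) (W ∩ ball z₀ (R / 64)) volume := by
  have hm := (h.isOpen.inter (isOpen_ball (x := z₀) (ε := R / 64))).measurableSet
  have h1 : IntegrableOn (fun _ : E N => (1 : ℝ)) (W ∩ ball z₀ (R / 64)) volume :=
    integrableOn_const ((measure_mono inter_subset_right).trans_lt measure_ball_lt_top).ne
  refine (h1.add (h.int b b).2).mono'
    (((bpt5a_xi h b).continuousOn.mono inter_subset_left).aestronglyMeasurable hm)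
    (Eventually.of_forall fun y => ?_)
  simp only [Pi.add_apply]
  nlinarith [sq_nonneg (‖ξ y b‖ - 1), norm_nonneg (ξ y b)]

theorem bpt5a_rhs (h : PotD z₀ R W ψ ξ Ω e a C) (b c : Fin N) :
    IntegrableOn (fun w => a * Ω w b c - e w b c) (W ∩ ball z₀ (R / 64)) volume := by
  have hR := h.toPol.R_pos
  exact ((h.int b c).1.const_mul _).sub
    ((((h.e_smooth b c).continuousOn.mono (closedBall_subset_ball
      (show R / 64 < R by linarith))).integrableOn_compact (isCompact_closedBall _ _)).mono_set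
      (inter_subset_right.trans ball_subset_closedBall))

theorem PotD.mol_db (h : PotD z₀ R W ψ ξ Ω e a C) {d A : ℝ} {ρ : E N → ℝ} (hρ : Ker d A ρ)
    (hd : d ≤ R / 128) (b c : Fin N) {z : E N} (hz : z ∈ ball z₀ (R / 128)) :
    dzb c (mol ρ (W ∩ ball z₀ (R / 64)) fun w => ξ w b) z =
      mol ρ (W ∩ ball z₀ (R / 64)) (fun w => a * Ω w b c - e w b c) z := by
  have hR := h.toPol.R_pos
  have hm := (h.isOpen.inter (isOpen_ball (x := z₀) (ε := R / 64))).measurableSet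
  have hF : LocallyIntegrable ((W ∩ ball z₀ (R / 64)).indicator fun w => ξ w b) volume :=
    ((integrable_indicator_iff hm).2 (bpt5a_l1 h b)).locallyIntegrable
  have hsub : tsupport (fun y => ((ρ (z - y) : ℝ) : ℂ)) ⊆ closedBall z d := by
    refine closure_minimal (fun y hy => ?_) isClosed_closedBall
    have h0 : z - y ∈ tsupport ρ := subset_tsupport ρ fun h => hy (by simp [h])
    have := ball_subset_closedBall (hρ.supp h0)
    rwa [mem_closedBall, dist_zero_right, ← dist_eq_norm, ← mem_closedBall'] at this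
  have ht : Tst (ball z₀ (R / 64)) fun y => ((ρ (z - y) : ℝ) : ℂ) :=
    ⟨Complex.ofRealCLM.contDiff.comp (hρ.smooth.comp (contDiff_const.sub contDiff_id)),
      (isCompact_closedBall z d).of_isClosed_subset (isClosed_tsupport _) hsub,
      hsub.trans (closedBall_subset_ball' (by linarith [mem_ball.1 hz]))⟩
  have h0 := h.toPol.ibp_db isOpen_ball (ball_subset_ball (by linarith)) (bpt5a_xi h b)
    (h.int b b).2 ht c ((bpt5a_rhs h b c).congr_fun (fun y hy => (h.eq y hy.1 b c).symm) hm)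
  obtain ⟨i1, e1⟩ := abweyl_fderiv hρ.smooth hρ.cpt hF z (Pi.single c 1)
  obtain ⟨i2, e2⟩ := abweyl_fderiv hρ.smooth hρ.cpt hF z (Pi.single c Complex.I)
  rw [mol, mol, cv_swap, abmol1_eq, dzb, e1, e2, ← integral_const_mul,
    ← integral_add i1 (i2.const_mul _), ← integral_div]
  rw [← integral_indicator hm, ← integral_indicator hm, ← neg_eq_iff_eq_neg, ← integral_neg] at h0
  refine Eq.trans (integral_congr_ae (Eventually.of_forall fun y => ?_))
    (h0.trans (integral_congr_ae (Eventually.of_forall fun y => ?_)))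
  · by_cases hy : y ∈ W ∩ ball z₀ (R / 64)
    · simp only [indicator_of_mem hy, dzb, abweyl_test hρ.smooth]
      ring
    · simp [indicator_of_notMem hy]
  · by_cases hy : y ∈ W ∩ ball z₀ (R / 64)
    · simp only [indicator_of_mem hy, h.eq y hy.1 b c, mul_comm]
    · simp [indicator_of_notMem hy]

end Pool.Agent.BP
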