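import Pool.Agent.P.MP_63735c_ag.BPDefs

/-! Potentials of closed forms and a Poincare inequality on balls. -/

open scoped ComplexOrder ContDiff Matrix Topology ENNReal
open Set Metric MeasureTheory Filter

namespace Pool.Agent.BP

open Pool.Agent.SPF Pool.Agent.AB Pool.Agent.CK Pool.Agent.SE Pool.Agent.NL

variable {N : ℕ}

lemma bpt5p_ofReal {f : E N → ℝ} {z : E N} (hf : DifferentiableAt ℝ f z) (v : E N) :
    fderiv ℝ (fun w => (f w : ℂ)) z v = (fderiv ℝ f z v : ℝ) := by
  have := (Complex.ofRealCLM.hasFDerivAt.comp z hf.hasFDerivAt).fderiv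
  exact congrArg (fun L : E N →L[ℝ] ℂ => L v) this

/-- The real form of a complex covector. -/
noncomputable def bpt5pL (N : ℕ) : E N →L[ℝ] E N →L[ℝ] ℝ :=
  (LinearMap.mk₂ ℝ (fun u v : E N => 2 * (v ⬝ᵥ u).re)
    (fun a b c => by rw [dotProduct_add, Complex.add_re]; ring)
    (fun a b c => by rw [dotProduct_smul, Complex.smul_re, smul_eq_mul, smul_eq_mul]; ring)
    (fun a b c => by rw [add_dotProduct, Complex.add_re]; ring)
    (fun a b c => by
      rw [smul_dotProduct, Complex.smul_re, smul_eq_mul, smul_eq_mul]; ring)).toContinuousBilinearMap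

lemma bpt5p_L (u v : E N) : bpt5pL N u v = 2 * (v ⬝ᵥ u).re := rfl

theorem exists_pot {ξ : E N → E N} {z₀ : E N} {r : ℝ} (hξ : ContDiffOn ℝ ∞ ξ (ball z₀ r))
    (h1 : ∀ z ∈ ball z₀ r, ∀ b c, dz b (fun w => ξ w c) z = dz c (fun w => ξ w b) z)
    (h2 : ∀ z ∈ ball z₀ r, ∀ b c, dzb c (fun w => ξ w b) z = star (dzb b (fun w => ξ w c) z))
    {z₁ : E N} (hz : z₁ ∈ ball z₀ r) : ∃ G : E N → ℝ, ContDiffOn ℝ ∞ G (ball z₀ r) ∧ G z₁ = 0 ∧
      ∀ z ∈ ball z₀ r, dr G z = ξ z := by
  have hω : ContDiffOn ℝ ∞ (fun z => bpt5pL N (ξ z)) (ball z₀ r) :=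
    (bpt5pL N).contDiff.comp_contDiffOn hξ
  have hd : ∀ z ∈ ball z₀ r, DifferentiableAt ℝ ξ z := fun z hz =>
    (hξ.differentiableOn (by simp)).differentiableAt (isOpen_ball.mem_nhds hz)
  have hs : ∀ a ∈ ball z₀ r, ∀ x y, fderiv ℝ (fun z => bpt5pL N (ξ z)) a x y =
      fderiv ℝ (fun z => bpt5pL N (ξ z)) a y x := by
    intro a ha
    have e1 : fderiv ℝ (fun z => bpt5pL N (ξ z)) a = (bpt5pL N).comp (fderiv ℝ ξ a) :=
      ((bpt5pL N).hasFDerivAt.comp a (hd a ha).hasFDerivAt).fderiv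
    have e2 : ∀ x b, fderiv ℝ ξ a x b = ∑ c, (x c * dz c (fun w => ξ w b) a +
        star (x c) * dzb c (fun w => ξ w b) a) := fun x b => by
      rw [← fderiv_eq_wirt, fderiv_apply (hd a ha)]
      rfl
    have e3 : ∀ x y, fderiv ℝ (fun z => bpt5pL N (ξ z)) a x y =
        2 * ((∑ b, ∑ c, y b * (x c * dz c (fun w => ξ w b) a)).re +
          (∑ b, ∑ c, y b * (star (x c) * dzb c (fun w => ξ w b) a)).re) := fun x y => by
      rw [e1, ContinuousLinearMap.comp_apply, bpt5p_L, ← Complex.add_re, ← Finset.sum_add_distrib]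
      congr 2
      refine Finset.sum_congr rfl fun b _ => ?_
      rw [e2, Finset.mul_sum, ← Finset.sum_add_distrib]
      exact Finset.sum_congr rfl fun c _ => by ring
    intro x y
    rw [e3, e3]
    congr 2
    · rw [Finset.sum_comm]
      congr 1
      refine Finset.sum_congr rfl fun b _ => Finset.sum_congr rfl fun c _ => ?_
      rw [h1 a ha b c]; ring
    · rw [Finset.sum_comm, Complex.re_sum, Complex.re_sum]
      refine Finset.sum_congr rfl fun b _ => ?_
      rw [Complex.re_sum, Complex.re_sum]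
      refine Finset.sum_congr rfl fun c _ => ?_
      rw [h2 a ha c b]
      simp only [Complex.star_def, Complex.mul_re, Complex.mul_im, Complex.conj_re, Complex.conj_im]
      ring
  obtain ⟨f, hf⟩ := (convex_ball z₀ r).exists_forall_hasFDerivAt_of_fderiv_symmetric isOpen_ball
    (hω.differentiableOn (by simp)) hs
  have hG : ∀ a ∈ ball z₀ r, HasFDerivAt (fun z => f z - f z₁) (bpt5pL N (ξ a)) a := fun a ha =>
    (hf a ha).sub_const _
  refine ⟨fun z => f z - f z₁, ?_, sub_self _, fun z hz => ?_⟩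
  · rw [contDiffOn_infty_iff_fderiv_of_isOpen isOpen_ball]
    exact ⟨fun a ha => (hG a ha).differentiableAt.differentiableWithinAt,
      hω.congr fun a ha => (hG a ha).fderiv⟩
  · funext a
    rw [dr, dz, bpt5p_ofReal (hG z hz).differentiableAt, bpt5p_ofReal (hG z hz).differentiableAt,
      (hG z hz).fderiv, bpt5p_L, bpt5p_L, single_dotProduct, single_dotProduct]
    apply Complex.ext <;> simp

theorem fderiv_dr {G : E N → ℝ} {z : E N} (hG : DifferentiableAt ℝ G z) (v : E N) :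
    fderiv ℝ G z v = 2 * (v ⬝ᵥ dr G z).re := by
  have h := congrArg Complex.re (fderiv_eq_wirt (fun w => (G w : ℂ)) z v)
  rw [bpt5p_ofReal hG, Complex.ofReal_re] at h
  rw [h, dotProduct, Complex.re_sum, Complex.re_sum, Finset.mul_sum]
  refine Finset.sum_congr rfl fun a _ => ?_
  rw [dr, dz, dzb, bpt5p_ofReal hG, bpt5p_ofReal hG]
  simp
  ring

lemma bpt5p_scale {g : E N → ℝ≥0∞} (hg : Measurable g) {a : ℝ} (ha : 1 / 2 ≤ a) (b : E N) :
    ∫⁻ z, g (a • z + b) ≤ ENNReal.ofReal (2 ^ Module.finrank ℝ (E N)) * ∫⁻ z, g z := by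
  have h0 : 0 < a := by linarith
  have e1 : ∫⁻ z, g (a • z + b) = ∫⁻ z, g (z + b) ∂(Measure.map (a • ·) volume) :=
    (lintegral_map (hg.comp (measurable_add_const b)) (measurable_const_smul a)).symm
  rw [e1, Measure.map_addHaar_smul volume h0.ne', lintegral_smul_measure,
    lintegral_add_right_eq_self, smul_eq_mul]
  refine mul_le_mul_left (ENNReal.ofReal_le_ofReal ?_) _
  rw [abs_of_pos (by positivity), ← inv_pow]
  refine pow_le_pow_left₀ (by positivity) ?_ _
  rw [inv_le_comm₀ h0 (by norm_num)]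
  linarith

lemma bpt5p_seg {G : E N → ℝ} {z₀ : E N} {r : ℝ} (hG : ContDiffOn ℝ 1 G (ball z₀ r))
    {z w : E N} (hz : z ∈ ball z₀ r) (hw : w ∈ ball z₀ r) :
    ‖G z - G ((1 / 2 : ℝ) • (z + w))‖ₑ ≤ ∫⁻ t in Icc (1 / 2 : ℝ) 1, ENNReal.ofReal (2 * r) *
      (ball z₀ r).indicator (fun y => ‖fderiv ℝ G y‖ₑ) (t • z + (1 - t) • w) := by
  have hm : ∀ t ∈ Icc (1 / 2 : ℝ) 1, t • z + (1 - t) • w ∈ ball z₀ r := fun t ht =>
    convex_ball z₀ r hz hw (by linarith [ht.1]) (by linarith [ht.2]) (by ring)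
  have hc : ContDiffOn ℝ 1 (fun t : ℝ => G (t • z + (1 - t) • w)) (Icc (1 / 2) 1) :=
    hG.comp (by fun_prop) hm
  have h := enorm_sub_le_lintegral_deriv_of_contDiffOn_Icc hc (by norm_num)
  have e1 : (1 : ℝ) • z + (1 - 1 : ℝ) • w = z := by simp
  have e2 : (1 / 2 : ℝ) • z + (1 - 1 / 2 : ℝ) • w = (1 / 2 : ℝ) • (z + w) := by
    rw [smul_add]; norm_num
  simp only [e1, e2] at h
  refine h.trans (setLIntegral_mono' measurableSet_Icc fun t ht => ?_)
  have hd : DifferentiableAt ℝ G (t • z + (1 - t) • w) :=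
    (hG.differentiableOn (by simp)).differentiableAt (isOpen_ball.mem_nhds (hm t ht))
  have hl : HasDerivAt (fun t : ℝ => t • z + (1 - t) • w) (z - w) t := by
    have := ((hasDerivAt_id t).smul_const z).add
      (((hasDerivAt_id t).const_sub 1).smul_const w)
    have e : (1 : ℝ) • z + (-1 : ℝ) • w = z - w := by simp [sub_eq_add_neg]
    rw [← e]
    exact this
  have hD := (hd.hasFDerivAt.comp_hasDerivAt t hl).deriv
  have hD' : deriv (fun t : ℝ => G (t • z + (1 - t) • w)) t =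
      fderiv ℝ G (t • z + (1 - t) • w) (z - w) := hD
  rw [hD', indicator_of_mem (hm t ht), ← ofReal_norm, ← ofReal_norm,
    ← ENNReal.ofReal_mul (by linarith [pos_of_mem_ball hz])]
  refine ENNReal.ofReal_le_ofReal ((ContinuousLinearMap.le_opNorm _ _).trans ?_)
  have hzw : ‖z - w‖ ≤ 2 * r := by
    have := dist_triangle_right z w z₀
    rw [dist_eq_norm] at this
    linarith [mem_ball.1 hz, mem_ball.1 hw]
  rw [mul_comm]
  exact mul_le_mul_of_nonneg_right hzw (norm_nonneg _)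

lemma bpt5p_int {G : E N → ℝ} {z₀ : E N} {r : ℝ} (h0 : 0 < r)
    (hG : ContDiffOn ℝ 1 G (closedBall z₀ r)) :
    IntegrableOn (fun z => ‖fderiv ℝ G z‖) (ball z₀ r) := by
  have hu : UniqueDiffOn ℝ (closedBall z₀ r) := uniqueDiffOn_convex (convex_closedBall z₀ r)
    ⟨z₀, mem_interior_iff_mem_nhds.2 (closedBall_mem_nhds z₀ h0)⟩
  have h1 := ((hG.continuousOn_fderivWithin hu le_rfl).norm.integrableOn_compact (μ := volume)
    (isCompact_closedBall z₀ r)).mono_set ball_subset_closedBall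
  refine h1.congr_fun (fun z hz => ?_) measurableSet_ball
  simp only
  rw [fderivWithin_of_mem_nhds (mem_of_superset (isOpen_ball.mem_nhds hz) ball_subset_closedBall)]

lemma bpt5p_mid {z₀ : E N} {r : ℝ} {z w : E N} (hz : z ∈ closedBall z₀ r)
    (hw : w ∈ closedBall z₀ r) : (1 / 2 : ℝ) • (z + w) ∈ closedBall z₀ r := by
  rw [smul_add]
  exact convex_closedBall z₀ r hz hw (by norm_num) (by norm_num) (by norm_num)

lemma bpt5p_half {G : E N → ℝ} {z₀ : E N} {r : ℝ} (h0 : 0 < r)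
    (hG : ContDiffOn ℝ 1 G (closedBall z₀ r)) {w : E N} (hw : w ∈ ball z₀ r) {S : Set (E N)}
    (hS : MeasurableSet S) (hs : S ⊆ ball z₀ r) :
    |(∫ z in S, G z) - ∫ z in S, G ((1 / 2 : ℝ) • (z + w))| ≤
      2 * r * 2 ^ Module.finrank ℝ (E N) * ∫ z in ball z₀ r, ‖fderiv ℝ G z‖ := by
  have hk := isCompact_closedBall z₀ r
  have hs' : S ⊆ closedBall z₀ r := hs.trans ball_subset_closedBall
  have i1 : IntegrableOn G S := (hG.continuousOn.integrableOn_compact hk).mono_set hs'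
  have c2 : ContinuousOn (fun z => G ((1 / 2 : ℝ) • (z + w))) (closedBall z₀ r) :=
    hG.continuousOn.comp (by fun_prop) fun z hz => bpt5p_mid hz (ball_subset_closedBall hw)
  have i2 : IntegrableOn (fun z => G ((1 / 2 : ℝ) • (z + w))) S :=
    (c2.integrableOn_compact hk).mono_set hs'
  rw [← integral_sub i1 i2, ← Real.norm_eq_abs]
  refine (norm_integral_le_lintegral_norm _).trans ?_
  have hI : 0 ≤ ∫ z in ball z₀ r, ‖fderiv ℝ G z‖ := integral_nonneg fun _ => norm_nonneg _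
  refine ENNReal.toReal_le_of_le_ofReal (by positivity) ?_
  set g : E N → ℝ≥0∞ := (ball z₀ r).indicator fun y => ‖fderiv ℝ G y‖ₑ with hg
  have mg : Measurable g := (measurable_fderiv ℝ G).enorm.indicator measurableSet_ball
  have eg : ∫⁻ z, g z = ENNReal.ofReal (∫ z in ball z₀ r, ‖fderiv ℝ G z‖) := by
    rw [hg, lintegral_indicator measurableSet_ball,
      ofReal_integral_eq_lintegral_ofReal (bpt5p_int h0 hG)
        (Eventually.of_forall fun _ => norm_nonneg _)]
    simp only [ofReal_norm]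
  have mm : Measurable fun p : E N × ℝ => ENNReal.ofReal (2 * r) * g (p.2 • p.1 + (1 - p.2) • w) :=
    (mg.comp (by fun_prop)).const_mul _
  calc ∫⁻ z in S, ENNReal.ofReal ‖G z - G ((1 / 2 : ℝ) • (z + w))‖
      ≤ ∫⁻ z in S, ∫⁻ t in Icc (1 / 2 : ℝ) 1,
          ENNReal.ofReal (2 * r) * g (t • z + (1 - t) • w) := by
        refine setLIntegral_mono' hS fun z hz => ?_
        rw [ofReal_norm]
        exact bpt5p_seg (hG.mono ball_subset_closedBall) (hs hz) hw
    _ ≤ ∫⁻ z, ∫⁻ t in Icc (1 / 2 : ℝ) 1, ENNReal.ofReal (2 * r) * g (t • z + (1 - t) • w) :=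
        setLIntegral_le_lintegral _ _
    _ = ∫⁻ t in Icc (1 / 2 : ℝ) 1, ∫⁻ z, ENNReal.ofReal (2 * r) * g (t • z + (1 - t) • w) :=
        lintegral_lintegral_swap mm.aemeasurable
    _ ≤ ∫⁻ _ in Icc (1 / 2 : ℝ) 1, ENNReal.ofReal (2 * r) *
          (ENNReal.ofReal (2 ^ Module.finrank ℝ (E N)) * ∫⁻ z, g z) := by
        refine setLIntegral_mono' measurableSet_Icc fun t ht => ?_
        rw [lintegral_const_mul' _ _ ENNReal.ofReal_ne_top]
        exact mul_le_mul_right (bpt5p_scale mg ht.1 _) _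
    _ ≤ _ := by
        rw [setLIntegral_const, eg, Real.volume_Icc, ← ENNReal.ofReal_mul (by positivity),
          ← ENNReal.ofReal_mul (by positivity), ← ENNReal.ofReal_mul (by positivity)]
        refine ENNReal.ofReal_le_ofReal ?_
        have : 0 ≤ 2 * r * 2 ^ Module.finrank ℝ (E N) * ∫ z in ball z₀ r, ‖fderiv ℝ G z‖ := by
          positivity
        nlinarith

theorem poincare (N : ℕ) {r : ℝ} (h0 : 0 < r) : ∃ C : ℝ, 0 < C ∧ ∀ (G : E N → ℝ) (z₀ : E N)
    (S T : Set (E N)), ContDiffOn ℝ 1 G (closedBall z₀ r) → MeasurableSet S → MeasurableSet T →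
    S ⊆ ball z₀ r → T ⊆ ball z₀ r →
    volume.real T * ∫ z in S, G z ≤
      volume.real S * (∫ z in T, G z) + C * ∫ z in ball z₀ r, ‖fderiv ℝ G z‖ := by
  have hv : 0 ≤ volume.real (ball (0 : E N) r) := measureReal_nonneg
  refine ⟨(2 * volume.real (ball (0 : E N) r) + 1) * (2 * r * 2 ^ Module.finrank ℝ (E N)),
    by positivity, fun G z₀ S T hG hS hT hs ht => ?_⟩
  have hk := isCompact_closedBall z₀ r
  have fb : volume (ball z₀ r) ≠ ⊤ := measure_ball_lt_top.ne
  have hb : ∀ U ⊆ ball z₀ r, volume.real U ≤ volume.real (ball (0 : E N) r) := fun U hU => by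
    rw [measureReal_def (s := ball _ _), ← Measure.addHaar_ball_center volume z₀ r]
    exact measureReal_mono hU fb
  have fS : volume S ≠ ⊤ := ne_top_of_le_ne_top fb (measure_mono hs)
  have fT : volume T ≠ ⊤ := ne_top_of_le_ne_top fb (measure_mono ht)
  have cM : ContinuousOn (fun p : E N × E N => G ((1 / 2 : ℝ) • (p.1 + p.2)))
      (closedBall z₀ r ×ˢ closedBall z₀ r) :=
    hG.continuousOn.comp (by fun_prop) fun p hp => bpt5p_mid hp.1 hp.2
  have iM : Integrable (Function.uncurry fun z w : E N => G ((1 / 2 : ℝ) • (z + w)))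
      ((volume.restrict S).prod (volume.restrict T)) := by
    rw [Measure.prod_restrict]
    exact (cM.integrableOn_compact (hk.prod hk)).mono_set
      (prod_mono (hs.trans ball_subset_closedBall) (ht.trans ball_subset_closedBall))
  set K := 2 * r * 2 ^ Module.finrank ℝ (E N) * ∫ z in ball z₀ r, ‖fderiv ℝ G z‖ with hK
  have hI : 0 ≤ ∫ z in ball z₀ r, ‖fderiv ℝ G z‖ := integral_nonneg fun _ => norm_nonneg _
  have K0 : 0 ≤ K := by positivity
  have a1 : volume.real T * ((∫ z in S, G z) - K) ≤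
      ∫ w in T, ∫ z in S, G ((1 / 2 : ℝ) • (z + w)) := by
    rw [← smul_eq_mul, ← setIntegral_const]
    refine setIntegral_mono_on (integrableOn_const fT) iM.integral_prod_right hT fun w hw => ?_
    have := (abs_le.1 (bpt5p_half h0 hG (ht hw) hS hs)).2
    linarith
  have a2 : ∫ z in S, ∫ w in T, G ((1 / 2 : ℝ) • (z + w)) ≤
      volume.real S * ((∫ z in T, G z) + K) := by
    rw [← smul_eq_mul, ← setIntegral_const]
    refine setIntegral_mono_on iM.integral_prod_left (integrableOn_const fS) hS fun z hz => ?_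
    have := (abs_le.1 (bpt5p_half h0 hG (hs hz) hT ht)).1
    simp only [add_comm z]
    linarith
  rw [integral_integral_swap iM] at a2
  have b1 := mul_le_mul_of_nonneg_right (hb S hs) K0
  have b2 := mul_le_mul_of_nonneg_right (hb T ht) K0
  rw [mul_assoc, ← hK]
  nlinarith

end Pool.Agent.BP
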