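import Pool.Agent.P.MP_63735c_ag.BPT5a
import Pool.Agent.P.MP_63735c_ag.BPT5p
import Pool.Agent.P.MP_63735c_ag.BPT2

/-! The local potential lemma: mollified potentials. -/

open scoped ComplexOrder ContDiff Matrix Topology ENNReal
open Set Metric MeasureTheory Filter

namespace Pool.Agent.BP

open Pool.Agent.SPF Pool.Agent.AB Pool.Agent.CK Pool.Agent.SE Pool.Agent.NL

variable {N : ℕ} {z₀ : E N} {R a C : ℝ} {W : Set (E N)} {ψ : E N → ℝ} {ξ : E N → E N}
  {Ω e : E N → Mat N}

theorem bpt5c_near {f : E N → ℂ} (hf : AEStronglyMeasurable f volume) {K : Set (E N)}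
    (hK : IsCompact K) (hc : ∀ x ∈ K, ContinuousAt f x) {γ : ℝ} (hγ : 0 < γ) :
    ∃ d₀ : ℝ, 0 < d₀ ∧ ∀ (d A : ℝ) (ρ : E N → ℝ), d ≤ d₀ → Ker d A ρ →
      ∀ x ∈ K, ‖cv ρ f x - f x‖ ≤ γ := by
  obtain ⟨δ, hδ, h⟩ := Metric.mem_uniformity_dist.1
    (hK.uniformContinuousAt_of_continuousAt f hc (dist_mem_uniformity hγ))
  refine ⟨δ, hδ, fun d A ρ hd hρ x hx => ?_⟩
  rw [abmol1_eq, ← dist_eq_norm]
  refine dist_convolution_le (R := d) hγ.le ((subset_tsupport _).trans hρ.supp) hρ.nonneg hρ.one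
    hf fun y hy => ?_
  have h1 : dist (f x) (f y) < γ :=
    h (a := x) (b := y) (by rw [dist_comm]; exact (mem_ball.1 hy).trans_le hd) hx
  rw [dist_comm]
  exact h1.le

theorem bpt5c_star (ρ : E N → ℝ) (f : E N → ℂ) (x : E N) :
    cv ρ (fun y => star (f y)) x = star (cv ρ f x) := by
  rw [cv, cv, Complex.star_def, ← integral_conj]
  simp

theorem bpt5c_l1 {d A : ℝ} {ρ : E N → ℝ} (hρ : Ker d A ρ) {f : E N → ℂ} (hf : Integrable f) :
    ∃ g : E N → ℝ, Integrable g ∧ (∀ x, ‖cv ρ f x‖ ≤ g x) ∧ ∫ x, g x = ∫ x, ‖f x‖ := by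
  have hi : Integrable ρ := integrable_of_integral_eq_one hρ.one
  refine ⟨convolution ρ (fun y => ‖f y‖) (ContinuousLinearMap.mul ℝ ℝ) volume,
    hi.integrable_convolution _ hf.norm, fun x => ?_, ?_⟩
  · refine (norm_integral_le_integral_norm _).trans (le_of_eq ?_)
    simp [convolution_def, abs_of_nonneg (hρ.nonneg _)]
  · rw [integral_convolution _ hi hf.norm, hρ.one]
    simp

theorem bpt5c_jen {d A : ℝ} {ρ : E N → ℝ} (hρ : Ker d A ρ) {f : Fin N → E N → ℂ}
    {F : Fin N → Fin N → E N → ℂ} (hf : ∀ b, Integrable (f b)) (hF : ∀ b c, Integrable (F b c))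
    {κ B : ℝ} (hκ : 0 ≤ κ) {v : E N}
    (h : ∀ x, κ * ‖v ⬝ᵥ fun b => f b x‖ ^ 2 - B ≤ hr (Matrix.of fun b c => F b c x) v) (z : E N) :
    κ * ‖v ⬝ᵥ fun b => cv ρ (f b) z‖ ^ 2 - B ≤ hr (Matrix.of fun b c => cv ρ (F b c) z) v := by
  have hI : ∀ {u : E N → ℂ}, Integrable u → Integrable fun y => (ρ y : ℂ) * u (z - y) :=
    fun hu => abmol1_int hρ.smooth.continuous hρ.cpt hu.locallyIntegrable z
  have hi : Integrable ρ := integrable_of_integral_eq_one hρ.one
  have i1 : Integrable fun x => v ⬝ᵥ fun b => f b x :=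
    integrable_finsetSum _ fun b _ => (hf b).const_mul _
  have i2 : Integrable fun x => hq (Matrix.of fun b c => F b c x) v v := by
    simp only [hq_sum_eq]
    exact integrable_finsetSum _ fun b _ => integrable_finsetSum _ fun c _ =>
      ((hF b c).const_mul _).mul_const _
  have e1 : (v ⬝ᵥ fun b => cv ρ (f b) z) = cv ρ (fun x => v ⬝ᵥ fun b => f b x) z := by
    simp only [dotProduct, cv, Finset.mul_sum, mul_left_comm _ (v _)]
    rw [integral_finsetSum _ fun b _ => (hI (hf b)).const_mul _]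
    simp only [integral_const_mul]
  have e2 : hq (Matrix.of fun b c => cv ρ (F b c) z) v v =
      cv ρ (fun x => hq (Matrix.of fun b c => F b c x) v v) z := by
    simp only [hq_sum_eq, cv, Finset.mul_sum, Matrix.of_apply]
    rw [integral_finsetSum _ fun b _ => integrable_finsetSum _ fun c _ =>
      hI (((hF b c).const_mul _).mul_const _)]
    refine Finset.sum_congr rfl fun b _ => ?_
    rw [integral_finsetSum _ fun c _ => hI (((hF b c).const_mul _).mul_const _)]
    refine Finset.sum_congr rfl fun c _ => ?_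
    rw [← integral_const_mul, ← integral_mul_const]
    exact integral_congr_ae (Eventually.of_forall fun y => by ring)
  rw [hr, e1, e2]
  replace h : ∀ x, κ * ‖(fun x => v ⬝ᵥ fun b => f b x) x‖ ^ 2 - B ≤
    hr (Matrix.of fun b c => F b c x) v := h
  generalize (fun x => v ⬝ᵥ fun b => f b x) = g at *
  set m := cv ρ g z with hm
  have i3 := (hI i1).mul_const (star m)
  have e3 : ∫ y, ((ρ y : ℂ) * g (z - y) * star m).re = ‖m‖ ^ 2 := by
    have := integral_re i3
    simp only [RCLike.re_to_complex] at this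
    rw [this, integral_mul_const, ← cv, ← hm, Complex.star_def, Complex.mul_conj, Complex.ofReal_re,
      Complex.normSq_eq_norm_sq]
  have i4 : Integrable fun y => ((ρ y : ℂ) * g (z - y) * star m).re := i3.re
  have e4 := integral_re (hI i2)
  simp only [RCLike.re_to_complex] at e4
  rw [cv, ← e4]
  have e5 : ∫ y, (2 * κ * ((ρ y : ℂ) * g (z - y) * star m).re - (κ * ‖m‖ ^ 2 + B) * ρ y) =
      κ * ‖m‖ ^ 2 - B := by
    rw [integral_sub (i4.const_mul _) (hi.const_mul _), integral_const_mul, integral_const_mul, e3,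
      hρ.one]
    ring
  rw [← e5]
  refine integral_mono ((i4.const_mul _).sub (hi.const_mul _)) (hI i2).re fun y => ?_
  have h1 := mul_le_mul_of_nonneg_left (h (z - y)) (hρ.nonneg y)
  have h2 : 2 * (g (z - y) * star m).re - ‖m‖ ^ 2 ≤ ‖g (z - y)‖ ^ 2 := by
    rw [Complex.sq_norm, Complex.sq_norm, Complex.normSq_apply, Complex.normSq_apply]
    simp only [Complex.star_def, Complex.mul_re, Complex.conj_re, Complex.conj_im]
    nlinarith [sq_nonneg ((g (z - y)).re - m.re), sq_nonneg ((g (z - y)).im - m.im)]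
  have h3 := mul_le_mul_of_nonneg_left h2 (mul_nonneg (hρ.nonneg y) hκ)
  simp only [mul_assoc (ρ y : ℂ), Complex.re_ofReal_mul]
  simp only [hr] at h1
  nlinarith

theorem bpt5c_dz {d A : ℝ} {ρ : E N → ℝ} (hρ : Ker d A ρ) (hd : 0 < d) {f : E N → ℂ} {O : Set (E N)}
    (hO : IsOpen O) (hf : ContDiffOn ℝ ∞ f O) {z : E N} (hz : closedBall z (2 * d) ⊆ O)
    (b : Fin N) : dz b (cv ρ f) z = cv ρ (dz b f) z := by
  obtain ⟨χ, δ, hχ, -, hδ, h1⟩ := exists_bump hO (isCompact_closedBall z (2 * d)) hz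
  have hc : Tst O fun y => (χ y : ℂ) :=
    ⟨Complex.ofRealCLM.contDiff.comp hχ.smooth, hχ.cpt.comp_left Complex.ofReal_zero,
      (tsupport_comp_subset Complex.ofReal_zero χ).trans hχ.sub⟩
  have ht := (hc.mul_on hO hf).1
  have ht' : Tst univ fun y => (χ y : ℂ) * f y := ⟨ht.smooth, ht.cpt, subset_univ _⟩
  have he : ∀ y ∈ closedBall z (2 * d), f =ᶠ[𝓝 y] fun y => (χ y : ℂ) * f y := fun y hy => by
    filter_upwards [ball_mem_nhds y hδ] with w hw
    rw [h1 y hy w hw, Complex.ofReal_one, one_mul]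
  have h2 : cv ρ f =ᶠ[𝓝 z] cv ρ fun y => (χ y : ℂ) * f y := by
    filter_upwards [ball_mem_nhds z hd] with x hx
    refine cv_local hρ fun y hy => (he y ?_).self_of_nhds
    rw [mem_ball] at hx hy
    rw [mem_closedBall]
    linarith [dist_triangle y x z]
  rw [(dz_congr h2 b).self_of_nhds, (dz_cv hρ ht' b z).1]
  refine cv_local hρ fun y hy => (dz_congr (he y ?_) b).self_of_nhds.symm
  rw [mem_ball] at hy
  rw [mem_closedBall]
  linarith

theorem bpt5c_closed {η : Fin N → E N → ℂ} (hη : ∀ b, ContDiff ℝ ∞ (η b)) {B : Set (E N)}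
    (hB : IsOpen B) (hc : Convex ℝ B)
    (h2 : ∀ z ∈ B, ∀ b c, dzb c (η b) z = star (dzb b (η c) z)) {z₁ : E N} (hz : z₁ ∈ B)
    (h1 : ∀ᶠ z in 𝓝 z₁, ∀ b c, dz b (η c) z = dz c (η b) z) :
    ∀ z ∈ B, ∀ b c, dz b (η c) z = dz c (η b) z := by
  intro z hzB b c
  have hs : ∀ x, ∀ b, ContDiffAt ℝ ∞ (η b) x := fun x b => (hη b).contDiffAt
  have hd : ∀ x, ∀ b c, DifferentiableAt ℝ (dz b (η c)) x := fun x b c =>
    (ablev_dz (hs x c) b).1.differentiableAt (by simp)
  have key : ∀ x ∈ B, ∀ b c k, dzb k (dz b (η c)) x =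
      dz b (dz c fun y => star (η k y)) x := by
    intro x hx b c k
    rw [← (ablev_comm (hs x c) b k).1]
    refine (dz_congr ?_ b).self_of_nhds
    filter_upwards [hB.mem_nhds hx] with y hy
    rw [h2 y hy, (star_dz _ _ _).2]
  have hh : DifferentiableOn ℂ (fun x => dz b (η c) x - dz c (η b) x) B := fun x hx => by
    refine (diff_of_dzb ((hd x b c).fun_sub (hd x c b)) fun k => ?_).differentiableWithinAt
    rw [(dz_sub (hd x b c) (hd x c b) k).2, key x hx, key x hx, sub_eq_zero]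
    exact (ablev_comm (Complex.conjCLE.contDiff.contDiffAt.comp x (hs x k)) b c).2
  have := spident_scv hB hc hh (differentiableOn_const (0 : ℂ)) hz
    (h1.mono fun x hx => sub_eq_zero.2 (hx b c)) hzB
  exact sub_eq_zero.1 this

theorem bpt5c_fd {G g : E N → ℝ} {z : E N} (hG : DifferentiableAt ℝ G z)
    (hg : DifferentiableAt ℝ g z) :
    ‖fderiv ℝ (fun y => G y - g y) z‖ ≤ 2 * N * ‖dr G z - dr g z‖ := by
  refine ContinuousLinearMap.opNorm_le_bound _ (by positivity) fun v => ?_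
  rw [fderiv_fun_sub hG hg, sub_apply, fderiv_dr hG, fderiv_dr hg, ← mul_sub,
    ← Complex.sub_re, ← dotProduct_sub, norm_mul, Real.norm_two]
  have := (Complex.abs_re_le_norm _).trans (dot_norm_le v (dr G z - dr g z))
  rw [Real.norm_eq_abs]
  nlinarith

/-- The approximating potentials. -/
structure Bpt5cSeq (B D : Set (E N)) (ξ : E N → E N) (z₁ : E N) (G : ℕ → E N → ℝ)
    (κ A L : ℝ) : Prop where
  κ_pos : 0 < κ
  A_pos : 0 < A
  smooth : ∀ n, ContDiffOn ℝ ∞ (G n) B
  zero : ∀ n, G n z₁ = 0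
  low : ∀ n, ∀ z ∈ B, ∀ v, κ * ‖v ⬝ᵥ dr (G n) z‖ ^ 2 - A * nsq v ≤ hr (lev (G n) z) v
  l1 : ∀ n, ∀ T ⊆ B, MeasurableSet T → ∫ z in T, ‖fderiv ℝ (G n) z‖ ≤ L
  lim : ∀ K ⊆ D, IsCompact K → ∀ γ > 0, ∀ᶠ n in atTop, ∀ x ∈ K, ‖dr (G n) x - ξ x‖ ≤ γ

theorem bpt5c_herm (h : PotD z₀ R W ψ ξ Ω e a C) {x : E N} (hx : x ∈ W) (b c : Fin N) :
    star (a * Ω x c b - e x c b) = a * Ω x b c - e x b c := by
  rw [star_sub, star_mul', (h.Ω_psd x hx).1.apply, (h.e_herm x (h.sub hx)).apply]
  simp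

theorem bpt5c_seq (h : PotD z₀ R W ψ ξ Ω e a C)
    (h0 : ∀ z ∈ W, ∀ b c, dz b (fun w => ξ w c) z = dz c (fun w => ξ w b) z) {z₁ : E N}
    (hz : z₁ ∈ W ∩ ball z₀ (R / 128)) : ∃ G κ A L,
      Bpt5cSeq (ball z₀ (R / 128)) (W ∩ ball z₀ (R / 128)) ξ z₁ G κ A L := by
  have hR := h.toPol.R_pos
  set S := W ∩ ball z₀ (R / 64) with hSd
  have hS : IsOpen S := h.isOpen.inter isOpen_ball
  have hBS : W ∩ ball z₀ (R / 128) ⊆ S :=
    inter_subset_inter_right _ (ball_subset_ball (by linarith))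
  have hK : closedBall z₀ (R / 64) ⊆ ball z₀ R := closedBall_subset_ball (by linarith)
  have hSK : S ⊆ closedBall z₀ (R / 64) := inter_subset_right.trans ball_subset_closedBall
  have hξ : ∀ b, ContDiffOn ℝ ∞ (fun w => ξ w b) S := fun b =>
    (contDiffOn_pi.1 h.ξ_smooth b).mono inter_subset_left
  set f : Fin N → E N → ℂ := fun b => S.indicator fun w => ξ w b with hfd
  set F : Fin N → Fin N → E N → ℂ := fun b c => S.indicator fun w => a * Ω w b c - e w b c with hFd
  have hf : ∀ b, Integrable (f b) := fun b => by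
    rw [hfd, integrable_indicator_iff hS.measurableSet]
    have h1 : IntegrableOn (fun _ => (1 : ℝ)) S volume :=
      (continuousOn_const.integrableOn_compact (isCompact_closedBall _ _)).mono_set hSK
    refine Integrable.mono' (h1.add (h.int b b).2)
      ((hξ b).continuousOn.aestronglyMeasurable hS.measurableSet) (Eventually.of_forall fun x => ?_)
    simp only [Pi.add_apply]
    nlinarith [sq_nonneg (‖ξ x b‖ - 1), norm_nonneg (ξ x b)]
  have hF : ∀ b c, Integrable (F b c) := fun b c => by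
    rw [hFd, integrable_indicator_iff hS.measurableSet]
    exact ((h.int b c).1.const_mul _).sub ((((h.e_smooth b c).continuousOn.mono
      hK).integrableOn_compact (isCompact_closedBall _ _)).mono_set hSK)
  have hfe : ∀ b, ∀ y ∈ S, f b =ᶠ[𝓝 y] fun w => ξ w b := fun b y hy => by
    filter_upwards [hS.mem_nhds hy] with w hw using indicator_of_mem hw _
  obtain ⟨d₁, hd₁, hsub⟩ := Metric.isOpen_iff.1 hS z₁ (hBS hz)
  set d₀ := min (d₁ / 4) (R / 128) with hd₀
  have hd₀p : 0 < d₀ := by positivity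
  have hd1 : d₀ ≤ d₁ / 4 := min_le_left _ _
  set d : ℕ → ℝ := fun n => d₀ / (n + 1) with hdd
  have hdp : ∀ n, 0 < d n := fun n => by positivity
  have hdl : ∀ n, d n ≤ d₀ := fun n => div_le_self hd₀p.le (by simp)
  have hdt : Tendsto d atTop (𝓝 0) := by
    simpa [hdd, div_eq_mul_inv] using
      (tendsto_one_div_add_atTop_nhds_zero_nat (𝕜 := ℝ)).const_mul d₀
  obtain ⟨A₀, hA₀⟩ := exists_ker N
  choose ρ hρ using fun n => hA₀ (d n) (hdp n)
  have hsm : ∀ n b, ContDiff ℝ ∞ (cv (ρ n) (f b)) := fun n b =>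
    cv_smooth (hρ n) (hf b).locallyIntegrable
  have hdb : ∀ n, ∀ z ∈ ball z₀ (R / 128), ∀ b c, dzb c (cv (ρ n) (f b)) z = cv (ρ n) (F b c) z :=
    fun n z hz b c => h.mol_db (hρ n) ((hdl n).trans (min_le_right _ _)) b c hz
  have h2 : ∀ n, ∀ z ∈ ball z₀ (R / 128), ∀ b c,
      dzb c (cv (ρ n) (f b)) z = star (dzb b (cv (ρ n) (f c)) z) := fun n z hz b c => by
    rw [hdb n z hz, hdb n z hz, ← bpt5c_star]
    congr 1
    funext x
    by_cases hx : x ∈ S
    · simp only [hFd, indicator_of_mem hx, bpt5c_herm h hx.1]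
    · simp only [hFd, indicator_of_notMem hx, star_zero]
  have h1 : ∀ n, ∀ z ∈ ball z₀ (R / 128), ∀ b c,
      dz b (cv (ρ n) (f c)) z = dz c (cv (ρ n) (f b)) z := fun n => by
    refine bpt5c_closed (hsm n) isOpen_ball (convex_ball _ _) (h2 n) hz.2 ?_
    filter_upwards [ball_mem_nhds z₁ hd₀p] with x hx b c
    have hx' : closedBall x (2 * d n) ⊆ S := (closedBall_subset_ball' (by
      rw [mem_ball] at hx; linarith [hdl n])).trans hsub
    have hs : ∀ b, ContDiffOn ℝ ∞ (f b) S := fun b =>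
      (hξ b).congr fun y hy => (hfe b y hy).self_of_nhds
    rw [bpt5c_dz (hρ n) (hdp n) hS (hs c) hx', bpt5c_dz (hρ n) (hdp n) hS (hs b) hx']
    refine cv_local (hρ n) fun y hy => ?_
    have hy' : y ∈ S := hx' (ball_subset_closedBall (ball_subset_ball (by linarith [hdp n]) hy))
    rw [(dz_congr (hfe c y hy') b).self_of_nhds, (dz_congr (hfe b y hy') c).self_of_nhds,
      h0 y hy'.1]
  choose G hG hG0 hGd using fun n => exists_pot (ξ := fun z b => cv (ρ n) (f b) z)
    (contDiff_pi.2 (hsm n)).contDiffOn (h1 n) (h2 n) hz.2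
  obtain ⟨A, hA, hAe⟩ := cpt_upper (h := e) (isCompact_closedBall z₀ (R / 64))
    fun b c => (h.e_smooth b c).continuousOn.mono hK
  have hC : 0 < max C 1 := lt_max_of_lt_right one_pos
  have hκ : 0 < a / max C 1 := div_pos h.a_pos hC
  refine ⟨G, a / max C 1, A, 2 * N * ∑ b, ∫ x, ‖f b x‖, hκ, hA, hG, hG0, fun n z hz v => ?_,
    fun n T hT hTm => ?_, fun K hKD hK γ hγ => ?_⟩
  · have e1 : lev (G n) z = Matrix.of fun b c => cv (ρ n) (F b c) z := by
      ext b c
      rw [lev_apply, (ablev_comm (ablev_re ((hG n).contDiffAt (isOpen_ball.mem_nhds hz))) b c).1,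
        Matrix.of_apply, ← hdb n z hz]
      refine (dzb_congr ?_ c).self_of_nhds
      filter_upwards [isOpen_ball.mem_nhds hz] with y hy using congrFun (hGd n y hy) b
    rw [e1, hGd n z hz]
    refine bpt5c_jen (hρ n) hf hF hκ.le (fun x => ?_) z
    have hv := (nsq_le v).1
    by_cases hx : x ∈ S
    · have e2 : (Matrix.of fun b c => F b c x) = (a : ℂ) • Ω x + (-1 : ℂ) • e x := by
        ext b c
        simp [hFd, indicator_of_mem hx, sub_eq_add_neg]
      have e3 : (fun b => f b x) = ξ x := funext fun b => indicator_of_mem hx _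
      have h3 := (Complex.re_le_norm _).trans (hAe x (hSK hx) v v).1
      have h4 := (h.bd x hx.1 v).trans (mul_le_mul_of_nonneg_right (le_max_left C 1)
        (hq_nonneg (h.Ω_psd x hx.1) v))
      have h5 := mul_le_mul_of_nonneg_left h4 hκ.le
      rw [← mul_assoc, div_mul_cancel₀ _ hC.ne'] at h5
      rw [hr, e2, e3, hq_add, hq_smul, hq_smul, Complex.add_re, Complex.re_ofReal_mul, neg_one_mul,
        Complex.neg_re]
      nlinarith
    · have e2 : (Matrix.of fun b c => F b c x) = 0 := by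
        ext b c
        simp [hFd, indicator_of_notMem hx]
      have e3 : (fun b => f b x) = 0 := funext fun b => indicator_of_notMem hx _
      rw [hr, e2, e3, hq_zero, dotProduct_zero, norm_zero, Complex.zero_re]
      nlinarith [sq_nonneg ‖v‖]
  · choose g hg hg1 hg2 using fun b => bpt5c_l1 (hρ n) (hf b)
    have hi : Integrable fun x => 2 * (N : ℝ) * ∑ b, g b x :=
      (integrable_finsetSum _ fun b _ => hg b).const_mul _
    have hg0 : ∀ b x, 0 ≤ g b x := fun b x => (norm_nonneg _).trans (hg1 b x)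
    have hs : ∀ x, 0 ≤ ∑ b, g b x := fun x => Finset.sum_nonneg fun b _ => hg0 b x
    refine (integral_mono_of_nonneg (Eventually.of_forall fun x => norm_nonneg _) hi.integrableOn
      (ae_restrict_of_forall_mem hTm fun x hx => ?_)).trans
      ((setIntegral_le_integral hi (Eventually.of_forall fun x => ?_)).trans (le_of_eq ?_))
    · have h3 := bpt5c_fd (diffAt isOpen_ball (hG n) (hT hx)) (differentiableAt_const (0 : ℝ))
      simp only [sub_zero, dr_const] at h3
      refine h3.trans (mul_le_mul_of_nonneg_left ?_ (by positivity))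
      rw [hGd n x (hT hx), pi_norm_le_iff_of_nonneg (hs x)]
      exact fun b => (hg1 b x).trans (Finset.single_le_sum (fun c _ => hg0 c x) (Finset.mem_univ b))
    · exact mul_nonneg (by positivity) (hs x)
    · rw [integral_const_mul, integral_finsetSum _ fun b _ => hg b]
      simp only [hg2]
  · have h3 : ∀ b, ∀ᶠ n in atTop, ∀ x ∈ K, ‖cv (ρ n) (f b) x - f b x‖ ≤ γ := fun b => by
      obtain ⟨δ, hδ, h4⟩ := bpt5c_near (hf b).aestronglyMeasurable hK (fun x hx =>
        (((hξ b).continuousOn.continuousAt (hS.mem_nhds (hBS (hKD hx)))).congr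
          (hfe b x (hBS (hKD hx))).symm)) hγ
      filter_upwards [hdt.eventually (ge_mem_nhds hδ)] with n hn using h4 _ _ _ hn (hρ n)
    filter_upwards [eventually_all.2 h3] with n hn x hx
    rw [hGd n x (hKD hx).2, pi_norm_le_iff_of_nonneg hγ.le]
    intro b
    have := hn b x hx
    rwa [(hfe b x (hBS (hKD hx))).self_of_nhds] at this

end Pool.Agent.BP
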