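import Pool.Agent.P.MP_63735c_ag.BPT6a

/-! The area formula for proper holomorphic maps. -/

open scoped ComplexOrder ContDiff Matrix Topology ENNReal
open Set Metric MeasureTheory Filter

namespace Pool.Agent.BP

open Pool.Agent.SPF Pool.Agent.AB Pool.Agent.CK Pool.Agent.SE Pool.Agent.NL

variable {N : ℕ} {Ω Ω' : Set (E N)} {P : E N → E N}

/-- The function `u` carried to the image of a set on which `P` is injective. -/
noncomputable def bpt6b_pc {F : Type} [Zero F] (P : E N → E N) (s : Set (E N)) (u : E N → F) :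
    E N → F := Function.extend (s.domRestrict P) (s.domRestrict u) fun _ => 0

theorem bpt6b_apply {F : Type} [Zero F] {s : Set (E N)} (hi : InjOn P s) (u : E N → F) {z : E N}
    (hz : z ∈ s) : bpt6b_pc P s u (P z) = u z :=
  (injOn_iff_injective.1 hi).extend_apply (s.domRestrict u) (fun _ => 0) ⟨z, hz⟩

theorem bpt6b_zero {F : Type} [Zero F] {s : Set (E N)} (u : E N → F) {w : E N}
    (hw : w ∉ P '' s) : bpt6b_pc P s u w = 0 :=
  Function.extend_apply' _ _ _ fun ⟨z, hz⟩ => hw ⟨z.1, z.2, hz⟩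

theorem bpt6b_der (h : Prp Ω Ω' P) {s : Set (E N)} (hs : s ⊆ Ω) :
    ∀ z ∈ s, HasFDerivWithinAt P (fderiv ℝ P z) s z := fun _ hz =>
  ((h.hol.differentiableAt (h.isOpen.mem_nhds (hs hz))).restrictScalars ℝ).hasFDerivAt
    |>.hasFDerivWithinAt

theorem bpt6b_det (h : Prp Ω Ω' P) {z : E N} (hz : z ∈ Ω) :
    (fderiv ℝ P z).det = ‖(jac P z).det‖ ^ 2 :=
  real_det (h.hol.differentiableAt (h.isOpen.mem_nhds hz))

theorem bpt6b_pre (h : Prp Ω Ω' P) {T : Set (E N)} (hT : MeasurableSet T) :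
    MeasurableSet (Ω ∩ P ⁻¹' T) := by
  have h1 : Measurable (Ω.domRestrict P) := h.hol.continuousOn.domRestrict.measurable
  have h2 := (MeasurableEmbedding.subtype_coe h.isOpen.measurableSet).measurableSet_image.2 (h1 hT)
  have h3 : Ω ∩ P ⁻¹' T = Subtype.val '' (Ω.domRestrict P ⁻¹' T) := by
    ext z
    exact ⟨fun hz => ⟨⟨z, hz.1⟩, hz.2, rfl⟩, fun ⟨y, hy, e⟩ => e ▸ ⟨y.2, hy⟩⟩
  exact h3 ▸ h2

theorem bpt6b_pieces (h : Prp Ω Ω' P) {K : Set (E N)} (hK : MeasurableSet K) (hΩ : K ⊆ Ω) :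
    ∃ S : ℕ → Set (E N), (∀ n, MeasurableSet (S n)) ∧ Pairwise (Function.onFun Disjoint S) ∧
      (∀ n, InjOn P (S n)) ∧ ⋃ n, S n = K ∩ {z | (fderiv ℝ P z).det ≠ 0} := by
  have hr : ∀ A : E N →L[ℝ] E N, ∃ c : NNReal, c ≠ 0 ∧ ∀ hA : A.det ≠ 0, Subsingleton (E N) ∨
      c < ‖((A.toContinuousLinearEquivOfDetNeZero hA).symm : E N →L[ℝ] E N)‖₊⁻¹ := by
    intro A
    by_cases hA : A.det = 0
    · exact ⟨1, one_ne_zero, fun h' => absurd hA h'⟩
    rcases (A.toContinuousLinearEquivOfDetNeZero hA).subsingleton_or_nnnorm_symm_pos with h1 | h1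
    · exact ⟨1, one_ne_zero, fun _ => Or.inl h1⟩
    · have h2 := inv_pos.2 h1
      exact ⟨_, (half_pos h2).ne', fun _ => Or.inr (NNReal.half_lt_self h2.ne')⟩
  choose r hr0 hr using hr
  have hm : MeasurableSet (K ∩ {z | (fderiv ℝ P z).det ≠ 0}) :=
    hK.inter ((ContinuousLinearMap.continuous_det.measurable.comp (measurable_fderiv ℝ P))
      (measurableSet_singleton 0).compl)
  obtain ⟨t, A, hd, htm, hc, ha, hA⟩ := exists_partition_approximatesLinearOn_of_hasFDerivWithinAt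
    P _ (fderiv ℝ P) (bpt6b_der h (inter_subset_left.trans hΩ :
      K ∩ {z | (fderiv ℝ P z).det ≠ 0} ⊆ Ω)) r hr0
  refine ⟨fun n => K ∩ {z | (fderiv ℝ P z).det ≠ 0} ∩ t n, fun n => hm.inter (htm n),
    fun i j hij => (hd hij).mono inter_subset_right inter_subset_right, fun n => ?_, ?_⟩
  · rcases (K ∩ {z | (fderiv ℝ P z).det ≠ 0}).eq_empty_or_nonempty with h0 | h0
    · exact fun z hz => absurd (h0 ▸ hz.1) (notMem_empty z)
    obtain ⟨y, hy, e⟩ := hA h0 n
    have hn : (A n).det ≠ 0 := e ▸ hy.2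
    have h1 := ha n
    rw [← (A n).coe_toContinuousLinearEquivOfDetNeZero hn] at h1
    refine ApproximatesLinearOn.injOn h1 ?_
    rw [(A n).coe_toContinuousLinearEquivOfDetNeZero hn]
    exact hr _ hn
  · rw [← inter_iUnion]
    exact inter_eq_left.2 hc

theorem bpt6b_hasSum {F : Type} [AddCommMonoid F] [TopologicalSpace F] [ContinuousAdd F]
    (h : Prp Ω Ω' P) {T : Set (E N)} {S : ℕ → Set (E N)}
    (hd : Pairwise (Function.onFun Disjoint S)) (hi : ∀ n, InjOn P (S n))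
    (hU : ⋃ n, S n = Ω ∩ P ⁻¹' T ∩ {z | (fderiv ℝ P z).det ≠ 0}) (u : E N → F) {w : E N}
    (hw : w ∈ RV Ω Ω' P) (hT : w ∈ T) :
    HasSum (fun n => bpt6b_pc P (S n) u w) (fsum Ω P u w) := by
  classical
  obtain ⟨d, O, q, -, hO, -, -, hq⟩ := h.sheets hw
  have hf : (Ω ∩ P ⁻¹' {w}).Finite := (hq w hO).2 ▸ finite_range _
  have hsub : ∀ n, S n ⊆ Ω := fun n z hz => (hU.subset (mem_iUnion.2 ⟨n, hz⟩)).1.1
  have h1 : ∀ n, bpt6b_pc P (S n) u w = ∑ z ∈ hf.toFinset, (S n).indicator u z := by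
    intro n
    by_cases hn : w ∈ P '' S n
    · obtain ⟨z, hz, rfl⟩ := hn
      rw [bpt6b_apply (hi n) u hz, Finset.sum_eq_single_of_mem z
        (hf.mem_toFinset.2 ⟨hsub n hz, rfl⟩), indicator_of_mem hz]
      intro y hy hyz
      exact indicator_of_notMem (fun hy' => hyz (hi n hy' hz (hf.mem_toFinset.1 hy).2)) _
    · rw [bpt6b_zero u hn]
      exact (Finset.sum_eq_zero fun y hy => indicator_of_notMem
        (fun hy' => hn ⟨y, hy', (hf.mem_toFinset.1 hy).2⟩) _).symm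
  simp only [h1]
  rw [fsum, finsum_mem_eq_finite_toFinset_sum _ hf]
  refine hasSum_sum fun z hz => ?_
  have hz' := hf.mem_toFinset.1 hz
  have hz2 : z ∈ ⋃ n, S n := by
    refine hU.symm.subset ⟨⟨hz'.1, ?_⟩, ?_⟩
    · show P z ∈ T
      rwa [show P z = w from hz'.2]
    · show (fderiv ℝ P z).det ≠ 0
      rw [bpt6b_det h hz'.1]
      exact pow_ne_zero _ (norm_ne_zero_iff.2 (hw.2 z hz'.1 hz'.2))
  obtain ⟨n, hn⟩ := mem_iUnion.1 hz2
  have h2 := hasSum_single (f := fun m => (S m).indicator u z) n fun m hm =>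
    indicator_of_notMem (fun hm' => disjoint_left.1 (hd hm) hm' hn) _
  rwa [indicator_of_mem hn] at h2

theorem bpt6b_ae (h : Prp Ω Ω' P) {T : Set (E N)} (hT : MeasurableSet T) (hs : T ⊆ Ω') :
    ∀ᵐ w ∂(volume.restrict T), w ∈ RV Ω Ω' P ∧ w ∈ T := by
  rw [ae_restrict_iff' hT]
  have := measure_eq_zero_iff_ae_notMem.1 h.rv_null
  filter_upwards [this] with w hw hwT
  exact ⟨by_contra fun h' => hw ⟨hs hwT, h'⟩, hwT⟩

theorem bpt6b_lint (h : Prp Ω Ω' P) {T s : Set (E N)} (hs : MeasurableSet s)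
    (hΩ : s ⊆ Ω ∩ P ⁻¹' T) (hi : InjOn P s) (u : E N → ℝ≥0∞) :
    ∫⁻ w in T, bpt6b_pc P s u w = ∫⁻ z in s, u z * ENNReal.ofReal (‖(jac P z).det‖ ^ 2) := by
  have hd := bpt6b_der h (hΩ.trans inter_subset_left)
  have hm : MeasurableSet (P '' s) := measurable_image_of_fderivWithin hs hd hi
  have h1 : bpt6b_pc P s u = (P '' s).indicator (bpt6b_pc P s u) :=
    (indicator_eq_self.2 fun w hw => by_contra fun h' => hw (bpt6b_zero u h')).symm
  rw [h1, lintegral_indicator hm, Measure.restrict_restrict hm,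
    inter_eq_left.2 (image_subset_iff.2 (hΩ.trans inter_subset_right)),
    lintegral_image_eq_lintegral_abs_det_fderiv_mul volume hs hd hi]
  refine setLIntegral_congr_fun hs fun z hz => ?_
  rw [bpt6b_apply hi u hz, bpt6b_det h (hΩ hz).1, abs_of_nonneg (sq_nonneg _), mul_comm]

theorem bpt6b_int (h : Prp Ω Ω' P) {T s : Set (E N)} (hs : MeasurableSet s)
    (hΩ : s ⊆ Ω ∩ P ⁻¹' T) (hi : InjOn P s) (u : E N → ℂ) :
    ∫ w in T, bpt6b_pc P s u w = ∫ z in s, u z * (‖(jac P z).det‖ ^ 2 : ℝ) := by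
  have hd := bpt6b_der h (hΩ.trans inter_subset_left)
  have hm : MeasurableSet (P '' s) := measurable_image_of_fderivWithin hs hd hi
  have h1 : bpt6b_pc P s u = (P '' s).indicator (bpt6b_pc P s u) :=
    (indicator_eq_self.2 fun w hw => by_contra fun h' => hw (bpt6b_zero u h')).symm
  rw [h1, integral_indicator hm, Measure.restrict_restrict hm,
    inter_eq_left.2 (image_subset_iff.2 (hΩ.trans inter_subset_right)),
    integral_image_eq_integral_abs_det_fderiv_smul volume hs hd hi]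
  refine setIntegral_congr_fun hs fun z hz => ?_
  rw [bpt6b_apply hi u hz, bpt6b_det h (hΩ hz).1, abs_of_nonneg (sq_nonneg _), mul_comm,
    Complex.real_smul]

theorem bpt6b_meas {F : Type} [Zero F] [MeasurableSpace F] (h : Prp Ω Ω' P) {s : Set (E N)}
    (hs : MeasurableSet s) (hΩ : s ⊆ Ω) (hi : InjOn P s) {u : E N → F}
    (hu : Measurable (s.domRestrict u)) : Measurable (bpt6b_pc P s u) :=
  (measurableEmbedding_of_fderivWithin hs (bpt6b_der h hΩ) hi).measurable_extend hu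
    measurable_const

theorem bpt6b_cut {F : Type} [Zero F] (h : Prp Ω Ω' P) {K : Set (E N)} (hΩ : K ⊆ Ω)
    {g : E N → F} (hg : ∀ z, (jac P z).det = 0 → g z = 0) :
    (K ∩ {z | (fderiv ℝ P z).det ≠ 0}).indicator g = K.indicator g := by
  ext z
  by_cases hz : z ∈ K
  · by_cases h0 : (fderiv ℝ P z).det = 0
    · rw [indicator_of_mem hz, indicator_of_notMem fun h' => h'.2 h0]
      rw [bpt6b_det h (hΩ hz)] at h0
      exact (hg z (norm_eq_zero.1 (pow_eq_zero_iff two_ne_zero |>.1 h0))).symm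
    · rw [indicator_of_mem hz, indicator_of_mem (mem_inter hz h0)]
  · rw [indicator_of_notMem hz, indicator_of_notMem fun h' => hz h'.1]

theorem Prp.area (h : Prp Ω Ω' P) {u : E N → ℝ≥0∞} (hu : Measurable u) :
    ∫⁻ w in Ω', fsum Ω P u w =
      ∫⁻ z in Ω, u z * ENNReal.ofReal (‖(jac P z).det‖ ^ 2) := by
  have hT := h.isOpen'.measurableSet
  have hK : Ω ∩ P ⁻¹' Ω' = Ω := inter_eq_left.2 h.maps
  obtain ⟨S, hm, hd, hi, hU⟩ := bpt6b_pieces h (bpt6b_pre h hT) inter_subset_left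
  have hsub : ∀ n, S n ⊆ Ω ∩ P ⁻¹' Ω' := fun n z hz => (hU.subset (mem_iUnion.2 ⟨n, hz⟩)).1
  have h1 : ∀ᵐ w ∂(volume.restrict Ω'), fsum Ω P u w = ∑' n, bpt6b_pc P (S n) u w :=
    (bpt6b_ae h hT subset_rfl).mono fun w hw =>
      (bpt6b_hasSum h hd hi hU u hw.1 hw.2).tsum_eq.symm
  rw [lintegral_congr_ae h1, lintegral_tsum fun n => (bpt6b_meas h (hm n)
    ((hsub n).trans inter_subset_left) (hi n) (hu.comp measurable_subtype_coe)).aemeasurable]
  simp only [fun n => bpt6b_lint h (hm n) (hsub n) (hi n) u]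
  rw [← lintegral_iUnion hm hd, ← lintegral_indicator (MeasurableSet.iUnion hm), hU, hK,
    bpt6b_cut h subset_rfl fun z hz => by simp [hz], lintegral_indicator h.isOpen.measurableSet]

theorem Prp.area_c (h : Prp Ω Ω' P) {u : E N → ℂ} (hu : ContinuousOn u Ω) {C : Set (E N)}
    (hC : IsCompact C) (hs : C ⊆ Ω') :
    IntegrableOn (fsum Ω P u) C volume ∧
      ∫ w in C, fsum Ω P u w = ∫ z in Ω ∩ P ⁻¹' C, u z * (‖(jac P z).det‖ ^ 2 : ℝ) := by
  have hT := hC.measurableSet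
  have hK := h.proper C hC hs
  obtain ⟨S, hm, hd, hi, hU⟩ := bpt6b_pieces h hK.measurableSet inter_subset_left
  have hsub : ∀ n, S n ⊆ Ω ∩ P ⁻¹' C := fun n z hz => (hU.subset (mem_iUnion.2 ⟨n, hz⟩)).1
  have h0 := (bpt6b_ae h hT hs).mono fun w hw => bpt6b_hasSum h hd hi hU u hw.1 hw.2
  have h1 : ∀ᵐ w ∂(volume.restrict C), fsum Ω P u w = ∑' n, bpt6b_pc P (S n) u w :=
    h0.mono fun w hw => hw.tsum_eq.symm
  have hmeas : ∀ n, AEStronglyMeasurable (bpt6b_pc P (S n) u) (volume.restrict C) := fun n =>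
    (bpt6b_meas h (hm n) ((hsub n).trans inter_subset_left) (hi n)
      (hu.mono ((hsub n).trans inter_subset_left)).domRestrict.measurable).aestronglyMeasurable
  have hj : ContinuousOn (fun z => (fderiv ℝ P z).det) Ω := by
    have h2 : ContDiffOn ℝ 1 P Ω := contDiffOn_pi.2 fun a =>
      (Lib.SCV.contDiffOn_nat h.isOpen 1 _ (differentiableOn_pi.1 h.hol a)).restrict_scalars ℝ
    exact ContinuousLinearMap.continuous_det.comp_continuousOn
      (h2.continuousOn_fderiv_of_isOpen h.isOpen le_rfl)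
  have hc : ContinuousOn (fun z => u z * ((‖(jac P z).det‖ ^ 2 : ℝ) : ℂ)) Ω :=
    hu.mul (Complex.continuous_ofReal.comp_continuousOn
      (hj.congr fun z hz => (bpt6b_det h hz).symm))
  have hint : IntegrableOn (fun z => u z * ((‖(jac P z).det‖ ^ 2 : ℝ) : ℂ)) (⋃ n, S n) volume :=
    ((hc.mono inter_subset_left).integrableOn_compact hK).mono_set (iUnion_subset hsub)
  have hn : ∀ n w, ‖bpt6b_pc P (S n) u w‖ₑ = bpt6b_pc P (S n) (fun z => ‖u z‖ₑ) w := by
    intro n w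
    by_cases hw : w ∈ P '' S n
    · obtain ⟨z, hz, rfl⟩ := hw
      rw [bpt6b_apply (hi n) _ hz, bpt6b_apply (hi n) _ hz]
    · rw [bpt6b_zero _ hw, bpt6b_zero _ hw, enorm_zero]
  have hfin : ∑' n, ∫⁻ w in C, ‖bpt6b_pc P (S n) u w‖ₑ < ⊤ := by
    simp only [hn, fun n => bpt6b_lint h (hm n) (hsub n) (hi n) fun z => ‖u z‖ₑ]
    rw [← lintegral_iUnion hm hd]
    refine lt_of_eq_of_lt (lintegral_congr fun z => ?_) hint.2
    rw [enorm_mul, ← ofReal_norm ((‖(jac P z).det‖ ^ 2 : ℝ) : ℂ), Complex.norm_real,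
      Real.norm_of_nonneg (sq_nonneg _)]
  refine ⟨⟨aestronglyMeasurable_of_tendsto_ae atTop
    (f := fun k w => ∑ n ∈ Finset.range k, bpt6b_pc P (S n) u w)
    (fun k => Finset.aestronglyMeasurable_fun_sum _ fun n _ => hmeas n)
    (h0.mono fun w hw => hw.tendsto_sum_nat), ?_⟩, ?_⟩
  · refine lt_of_le_of_lt (lintegral_mono_ae (h1.mono fun w hw => ?_))
      (lt_of_eq_of_lt (lintegral_tsum fun n => (hmeas n).enorm) hfin)
    rw [hw]
    exact enorm_tsum_le_tsum_enorm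
  · rw [integral_congr_ae h1, integral_tsum hmeas hfin.ne]
    simp only [fun n => bpt6b_int h (hm n) (hsub n) (hi n) u]
    rw [(hasSum_integral_iUnion hm hd hint).tsum_eq, ← integral_indicator (MeasurableSet.iUnion hm),
      hU, bpt6b_cut h inter_subset_left fun z hz => by simp [hz],
      integral_indicator hK.measurableSet]

end Pool.Agent.BP
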