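import Pool.Agent.P.MP_63735c_ag.BPT6b
import Pool.Agent.P.MP_63735c_ag.BPT1
import Pool.Agent.P.MP_63735c_ag.ABInt
import Pool.Agent.P.MP_63735c_ag.ABWeyl

/-! The trace of a holomorphic function. -/

open scoped ComplexOrder ContDiff Matrix Topology ENNReal
open Set Metric MeasureTheory Filter

namespace Pool.Agent.BP

open Pool.Agent.SPF Pool.Agent.AB Pool.Agent.CK Pool.Agent.SE Pool.Agent.NL

variable {N : ℕ} {Ω Ω' : Set (E N)} {P : E N → E N}

theorem bpt6c_sum {F : Type} [AddCommMonoid F] {d : ℕ} {q : Fin d → E N} {y : E N}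
    (hi : Function.Injective q) (e : Ω ∩ P ⁻¹' {y} = range q) (u : E N → F) :
    fsum Ω P u y = ∑ l, u (q l) := by
  rw [fsum, e, finsum_mem_range hi, finsum_eq_sum_of_fintype]

theorem bpt6c_smooth {u : E N → ℂ} (hΩ : IsOpen Ω) (hu : DifferentiableOn ℂ u Ω) :
    ContDiffOn ℝ ∞ u Ω :=
  (Lib.SCV.contDiffOn_of_differentiableOn hΩ hu).restrict_scalars ℝ

theorem bpt6c_det (hΩ : IsOpen Ω) (hP : DifferentiableOn ℂ P Ω) :
    DifferentiableOn ℂ (fun z => (jac P z).det) Ω := by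
  simp only [Matrix.det_apply']
  refine DifferentiableOn.fun_sum fun s _ => (differentiableOn_const _).mul ?_
  exact ((contDiffOn_prod fun a _ => Lib.SCV.contDiffOn_of_differentiableOn hΩ
    (jac_hol hΩ hP (s a) a)).differentiableOn (by simp))

theorem bpt6c_jac (φ : E N → E N) (z v : E N) : jac φ z *ᵥ v = fderiv ℂ φ z v := by
  have hv : v = ∑ a, v a • (Pi.single a 1 : E N) := by
    ext b
    simp [Finset.sum_apply, Pi.single_apply]
  conv_rhs => rw [hv, map_sum]
  ext c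
  simp [jac, Matrix.mulVec, dotProduct, Finset.sum_apply, mul_comm]

theorem bpt6c_piola (hΩ : IsOpen Ω) (hP : DifferentiableOn ℂ P Ω) {z : E N} (hz : z ∈ Ω)
    (a : Fin N) : ∑ b, dz b (fun w => (jac P w).adjugate b a) z = 0 := by
  have hs := smooth_of_hol hΩ hP
  have e : ∀ c b, (fun w => (jac P w)ᵀ c b) =ᶠ[𝓝 z] dz c fun w => P w b := by
    intro c b
    filter_upwards [hΩ.mem_nhds hz] with w hw
    have h1 := hP.differentiableAt (hΩ.mem_nhds hw)
    rw [(dz_of_diff (differentiableAt_pi.1 h1 b) c).1, (hasFDerivAt_pi'.1 h1.hasFDerivAt b).fderiv]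
    rfl
  have := piola_d (M := fun w => (jac P w)ᵀ) (z := z)
    (fun c b => diffAt hΩ (bpt6c_smooth hΩ (jac_hol hΩ hP b c)) hz)
    (fun c b c' => by
      rw [(dz_congr (e c b) c').eq_of_nhds, (dz_congr (e c' b) c).eq_of_nhds]
      exact (ablev_comm ((contDiffOn_pi.1 hs b).contDiffAt (hΩ.mem_nhds hz)) c' c).2) a
  simpa only [← Matrix.adjugate_transpose, Matrix.transpose_apply] using this

theorem bpt6c_weak (h : Prp Ω Ω' P) {u : E N → ℂ} (hu : DifferentiableOn ℂ u Ω) {B : Set (E N)}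
    (hB : IsOpen B) (hs : B ⊆ Ω') {r : E N → ℂ} (hr : Tst B r) (a : Fin N) :
    ∫ y in B, fsum Ω P u y * dzb a r y = 0 := by
  have hΩ := h.isOpen
  have hC : IsCompact (tsupport r) := hr.cpt
  have hK := h.proper _ hC (hr.sub.trans hs)
  have r0 : ∀ z ∈ (univ : Set (E N)), z ∉ tsupport r → r z = 0 :=
    fun z _ hz => image_eq_zero_of_notMem_tsupport hz
  have d0 : ∀ z, z ∉ tsupport r → dzb a r z = 0 := fun z hz =>
    (dz_zero_off isOpen_univ (isClosed_tsupport r) r0 a z trivial hz).2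
  have hPs := smooth_of_hol hΩ h.hol
  have hus := bpt6c_smooth hΩ hu
  have hdh := bpt6c_det hΩ h.hol
  have hds := bpt6c_smooth hΩ hdh
  have hrs : ContDiffOn ℝ ∞ (fun z => r (P z)) Ω := hr.smooth.comp_contDiffOn hPs
  have hdr : ContDiffOn ℝ ∞ (dzb a r) univ := (dz_smooth isOpen_univ hr.smooth.contDiffOn a).2
  have hc : ContinuousOn (fun z => u z * dzb a r (P z)) Ω :=
    hus.continuousOn.mul (hdr.continuousOn.comp hPs.continuousOn (mapsTo_univ _ _))
  have has : ∀ b, ContDiffOn ℝ ∞ (fun w => (jac P w).adjugate b a) Ω := fun b =>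
    adj_smooth (fun c e => bpt6c_smooth hΩ (jac_hol hΩ h.hol c e)) b a
  have hF : ∀ b, ContDiffOn ℝ ∞
      (fun z => u z * (jac P z).det * (star ((jac P z).adjugate b a) * r (P z))) Ω := fun b =>
    (hus.mul hds).mul ((abint_star (has b)).mul hrs)
  have hF0 : ∀ b, ∀ z ∈ Ω, z ∉ Ω ∩ P ⁻¹' tsupport r →
      u z * (jac P z).det * (star ((jac P z).adjugate b a) * r (P z)) = 0 := fun b z hz hz' => by
    rw [r0 _ trivial fun h1 => hz' ⟨hz, h1⟩, mul_zero, mul_zero]
  have hpt : ∀ z ∈ Ω, u z * dzb a r (P z) * (‖(jac P z).det‖ ^ 2 : ℝ) =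
      ∑ b, dzb b (fun z => u z * (jac P z).det *
        (star ((jac P z).adjugate b a) * r (P z))) z := by
    intro z hz
    have hn := hΩ.mem_nhds hz
    have e : ∀ b, dzb b (fun z => u z * (jac P z).det *
        (star ((jac P z).adjugate b a) * r (P z))) z = u z * (jac P z).det *
          (star (dz b (fun w => (jac P w).adjugate b a) z) * r (P z) +
            ∑ c, star (jac P z c b * (jac P z).adjugate b a) * dzb c r (P z)) := by
      intro b
      rw [(dz_mul (diffAt hΩ (hus.mul hds) hz) (diffAt hΩ ((abint_star (has b)).mul hrs) hz) b).2,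
        (dz_of_diff ((hu.fun_mul hdh).differentiableAt hn) b).2, zero_mul, zero_add,
        (dz_mul (diffAt hΩ (abint_star (has b)) hz) (diffAt hΩ hrs hz) b).2, ← (star_dz _ z b).1,
        (dz_comp (hr.smooth.differentiable (by simp) _) (h.hol.differentiableAt hn) b).2,
        Finset.mul_sum]
      congr 2
      exact Finset.sum_congr rfl fun c _ => by rw [star_mul, mul_assoc]
    have e2 : ∀ c, ∑ b, star (jac P z c b * (jac P z).adjugate b a) * dzb c r (P z) =
        if c = a then star (jac P z).det * dzb c r (P z) else 0 := by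
      intro c
      rw [← Finset.sum_mul, ← star_sum, ← Matrix.mul_apply, Matrix.mul_adjugate, Matrix.smul_apply,
        Matrix.one_apply]
      split_ifs <;> simp
    simp only [e, ← Finset.mul_sum, Finset.sum_add_distrib]
    rw [← Finset.sum_mul, ← star_sum, bpt6c_piola hΩ h.hol hz, star_zero, zero_mul, zero_add,
      Finset.sum_comm]
    simp only [e2, Finset.sum_ite_eq', Finset.mem_univ, if_true]
    rw [Complex.ofReal_pow, ← Complex.mul_conj']
    simp only [Complex.star_def]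
    ring
  rw [int_eq_cpt hB hC hr.sub fun z _ hz => by rw [d0 z hz, mul_zero]]
  have e1 : ∀ y, fsum Ω P u y * dzb a r y = fsum Ω P (fun z => u z * dzb a r (P z)) y := by
    intro y
    rw [fsum, fsum, finsum_mem_mul]
    exact finsum_mem_congr rfl fun z hz => by rw [show P z = y from hz.2]
  simp only [e1]
  rw [(h.area_c hc hC (hr.sub.trans hs)).2,
    ← int_eq_cpt hΩ hK inter_subset_left fun z hz hz' => by
      rw [d0 _ fun h1 => hz' ⟨hz, h1⟩, mul_zero, zero_mul],
    setIntegral_congr_fun hΩ.measurableSet hpt, integral_finsetSum]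
  · exact Finset.sum_eq_zero fun b _ => (int_dz hΩ hK inter_subset_left (hF b) (hF0 b) b).2
  · exact fun b _ => intOn hΩ hK inter_subset_left (dz_smooth hΩ (hF b) b).2.continuousOn
      fun z hz hz' => (dz_zero_off hΩ hK.isClosed (hF0 b) b z hz hz').2

theorem bpt6c_loc (h : Prp Ω Ω' P) {u : E N → ℂ} (hu : DifferentiableOn ℂ u Ω) {w : E N}
    (hw : w ∈ RV Ω Ω' P) : ∃ O, IsOpen O ∧ w ∈ O ∧ DifferentiableOn ℂ (fsum Ω P u) O := by
  obtain ⟨d, O, q, h1, h2, -, h4, h5⟩ := h.sheets hw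
  refine ⟨O, h1, h2, DifferentiableOn.congr (f := fun y => ∑ l, u (q l y))
    (DifferentiableOn.fun_sum fun l _ => hu.comp (h4 l) fun y hy => ?_)
    fun y hy => bpt6c_sum (h5 y hy).1 (h5 y hy).2 u⟩
  exact ((h5 y hy).2.symm.subset ⟨l, rfl⟩).1

theorem Prp.trace (h : Prp Ω Ω' P) {u : E N → ℂ} (hu : DifferentiableOn ℂ u Ω) :
    ∃ t : E N → ℂ, DifferentiableOn ℂ t Ω' ∧ EqOn t (fsum Ω P u) (RV Ω Ω' P) := by
  have ex : ∀ w, ∃ (R : ℝ) (g : E N → ℂ), w ∈ Ω' → 0 < R ∧ ball w R ⊆ Ω' ∧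
      DifferentiableOn ℂ g (ball w R) ∧ g =ᵐ[volume.restrict (ball w R)] fsum Ω P u := by
    intro w
    by_cases hw : w ∈ Ω'
    swap
    · exact ⟨0, 0, fun h1 => absurd h1 hw⟩
    obtain ⟨ε, hε, h1⟩ := nhds_basis_closedBall.mem_iff.1 (h.isOpen'.mem_nhds hw)
    have e : 2 * (ε / 2) = ε := by ring
    obtain ⟨g, h2, h3⟩ := weyl (f := fsum Ω P u) (z := w) (half_pos hε)
      (by
        rw [e]
        exact (h.area_c hu.continuousOn (isCompact_closedBall w ε) h1).1.mono_set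
          ball_subset_closedBall)
      (by
        rw [e]
        exact fun r hr a => bpt6c_weak h hu isOpen_ball (ball_subset_closedBall.trans h1) hr a)
    exact ⟨ε / 2, g, fun _ => ⟨half_pos hε,
      (ball_subset_closedBall.trans (closedBall_subset_closedBall (half_le_self hε.le))).trans h1,
      h2, h3⟩⟩
  choose R g hg using ex
  have key : ∀ w ∈ Ω', ∀ {O : Set (E N)} {f : E N → ℂ}, IsOpen O → w ∈ O → ContinuousOn f O →
      f =ᵐ[volume.restrict O] fsum Ω P u → g w w = f w := by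
    intro w hw O f h1 h2 h3 h4
    obtain ⟨h5, -, h6, h7⟩ := hg w hw
    exact Measure.eqOn_open_of_ae_eq (μ := volume) (U := ball w (R w) ∩ O)
      (EventuallyEq.trans (ae_restrict_of_ae_restrict_of_subset inter_subset_left h7)
        (ae_restrict_of_ae_restrict_of_subset inter_subset_right h4.symm))
      (isOpen_ball.inter h1) (h6.continuousOn.mono inter_subset_left) (h3.mono inter_subset_right)
      ⟨mem_ball_self h5, h2⟩
  refine ⟨fun w => g w w, fun w hw => ?_, fun w hw => ?_⟩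
  · obtain ⟨h5, h8, h6, h7⟩ := hg w hw
    have hn := ball_mem_nhds w h5
    refine ((h6.differentiableAt hn).congr_of_eventuallyEq ?_).differentiableWithinAt
    filter_upwards [hn] with y hy using key y (h8 hy) isOpen_ball hy h6.continuousOn h7
  · obtain ⟨O, h1, h2, h3⟩ := bpt6c_loc h hu hw
    exact key w hw.1 h1 h2 h3.continuousOn EventuallyEq.rfl

theorem Prp.trace_deriv (h : Prp Ω Ω' P) {u t : E N → ℂ} (hu : DifferentiableOn ℂ u Ω)
    (ht : EqOn t (fsum Ω P u) (RV Ω Ω' P)) {w : E N} (hw : w ∈ RV Ω Ω' P) (v : E N) :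
    fderiv ℂ t w v = fsum Ω P (fun z => fderiv ℂ u z ((jac P z)⁻¹ *ᵥ v)) w := by
  obtain ⟨d, O, q, h1, h2, h3, h4, h5⟩ := h.sheets hw
  have hn := h1.mem_nhds h2
  have hm : ∀ l, ∀ y ∈ O, q l y ∈ Ω ∧ P (q l y) = y := fun l y hy =>
    (h5 y hy).2.symm.subset ⟨l, rfl⟩
  have e : t =ᶠ[𝓝 w] fun y => ∑ l, u (q l y) := by
    filter_upwards [hn] with y hy
    rw [ht (h3 hy), bpt6c_sum (h5 y hy).1 (h5 y hy).2]
  have hq : ∀ l, HasFDerivAt (q l) (fderiv ℂ (q l) w) w := fun l =>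
    ((h4 l).differentiableAt hn).hasFDerivAt
  have hd : ∀ l, HasFDerivAt (fun y => u (q l y))
      ((fderiv ℂ u (q l w)).comp (fderiv ℂ (q l) w)) w := fun l =>
    (hu.differentiableAt (h.isOpen.mem_nhds (hm l w h2).1)).hasFDerivAt.comp w (hq l)
  rw [e.fderiv_eq, (HasFDerivAt.fun_sum fun l _ => hd l).fderiv,
    bpt6c_sum (h5 w h2).1 (h5 w h2).2, sum_apply]
  refine Finset.sum_congr rfl fun l _ => ?_
  rw [ContinuousLinearMap.comp_apply]
  congr 1
  have e1 : (fun y => P (q l y)) =ᶠ[𝓝 w] id := by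
    filter_upwards [hn] with y hy using (hm l y hy).2
  have e2 := ((h.hol.differentiableAt (h.isOpen.mem_nhds (hm l w h2).1)).hasFDerivAt.comp w
    (hq l)).unique ((hasFDerivAt_id w).congr_of_eventuallyEq e1)
  have e3 : jac P (q l w) *ᵥ fderiv ℂ (q l) w v = v := by
    rw [bpt6c_jac]
    exact DFunLike.congr_fun e2 v
  have hdet : IsUnit (jac P (q l w)).det := (hw.2 _ (hm l w h2).1 (hm l w h2).2).isUnit
  conv_rhs => rw [← e3]
  rw [Matrix.mulVec_mulVec, Matrix.nonsing_inv_mul _ hdet, Matrix.one_mulVec]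

theorem Prp.degree (h : Prp Ω Ω' P) : ∃ d : E N → ℕ, (∀ w ∈ Ω', ∀ᶠ y in 𝓝 w, d y = d w) ∧
    ∀ w ∈ RV Ω Ω' P, (Ω ∩ P ⁻¹' {w}).Finite ∧ (Ω ∩ P ⁻¹' {w}).ncard = d w := by
  obtain ⟨t, h1, h2⟩ := h.trace (u := fun _ => 1) (differentiableOn_const _)
  have h3 : ∀ w ∈ RV Ω Ω' P, (Ω ∩ P ⁻¹' {w}).Finite ∧ t w = (Ω ∩ P ⁻¹' {w}).ncard := by
    intro w hw
    obtain ⟨d, O, q, -, h4, -, -, h5⟩ := h.sheets hw
    rw [h2 hw, bpt6c_sum (h5 w h4).1 (h5 w h4).2, (h5 w h4).2,
      ncard_range_of_injective (h5 w h4).1]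
    exact ⟨finite_range _, by simp⟩
  have hc : ∀ w ∈ Ω', ContinuousAt t w := fun w hw =>
    h1.continuousOn.continuousAt (h.isOpen'.mem_nhds hw)
  have h4 : ∀ w, ∃ n : ℕ, w ∈ Ω' → t w = n := by
    intro w
    by_cases hw : w ∈ Ω'
    swap
    · exact ⟨0, fun h5 => absurd h5 hw⟩
    have h5 := (hc w hw).continuousWithinAt.mem_closure (t := range (Nat.cast : ℕ → ℂ))
      (h.rv_dense hw) fun y hy => ⟨_, (h3 y hy).2.symm⟩
    rw [(Nat.isClosedEmbedding_coe_real.isClosed_range |> fun h6 => by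
      have h7 := Complex.isometry_ofReal.isClosedEmbedding.isClosedMap _ h6
      rw [← range_comp] at h7
      exact h7.closure_eq : closure (range (Nat.cast : ℕ → ℂ)) = range Nat.cast)] at h5
    obtain ⟨n, hn⟩ := h5
    exact ⟨n, fun _ => hn.symm⟩
  choose d hd using h4
  refine ⟨d, fun w hw => ?_, fun w hw => ⟨(h3 w hw).1, ?_⟩⟩
  · filter_upwards [h.isOpen'.mem_nhds hw, (hc w hw).eventually (ball_mem_nhds _ one_pos)]
      with y hy h5
    rw [hd y hy, hd w hw, ← Complex.ofReal_natCast, ← Complex.ofReal_natCast,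
      Complex.isometry_ofReal.dist_eq, Real.dist_eq, abs_lt] at h5
    have h6 : (d y : ℝ) < d w + 1 := by linarith [h5.2]
    have h7 : (d w : ℝ) < d y + 1 := by linarith [h5.1]
    have h8 : d y < d w + 1 := by exact_mod_cast h6
    have h9 : d w < d y + 1 := by exact_mod_cast h7
    omega
  · exact_mod_cast (h3 w hw).2.symm.trans (hd w hw.1)

end Pool.Agent.BP
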