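import Pool.Agent.P.MP_63735c_ag.CCA6

/-! Small elements commute modulo periods. -/

open scoped Matrix
open Set Filter Topology

namespace Pool.Agent.CL

open Pool.Agent.SPF LGrp

variable {n : ℕ} {D : LGrp}

namespace CL1

variable (A : CL1 n D)

theorem rel_symm {g h : D.G} (r : A.Rel g h) : A.Rel h g :=
  ⟨fun v => (r.1 v).symm, fun v => (r.2 v).symm⟩

/-- A finite set that tests the commutation relation. -/
theorem exists_test (W : Set D.G) : ∃ Y : Set D.G, Y.Finite ∧ Y ⊆ W ∧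
    ∀ g, (∀ s ∈ Y, A.Rel g s) → ∀ h ∈ W, A.Rel g h := by
  let p : D.G → (E n →L[ℝ] E n) × (E n →L[ℝ] ℝ) := fun h => (A.L h - 1, A.th h)
  obtain ⟨b, hb, hsp, hli⟩ := exists_linearIndependent ℝ (p '' W)
  obtain ⟨Y, hYW, hY, hYb⟩ := hli.setFinite.exists_subset_finite_image_eq hb
  refine ⟨Y, hY, hYW, fun g hg h hh => ?_⟩
  let S : Submodule ℝ ((E n →L[ℝ] E n) × (E n →L[ℝ] ℝ)) :=
    { carrier := {x | (∀ v, x.1 (A.L g v) = A.L g (x.1 v)) ∧
        ∀ v, x.2 (A.L g v) = A.th g (x.1 v) + x.2 v}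
      add_mem' := by
        rintro x y ⟨h1, h2⟩ ⟨h3, h4⟩
        refine ⟨fun v => ?_, fun v => ?_⟩
        · simp only [Prod.fst_add, add_apply, map_add, h1, h3]
        · simp only [Prod.fst_add, Prod.snd_add, add_apply, map_add, h2, h4]
          ring
      zero_mem' := ⟨fun v => by simp, fun v => by simp⟩
      smul_mem' := by
        rintro c x ⟨h1, h2⟩
        refine ⟨fun v => ?_, fun v => ?_⟩
        · simp only [Prod.smul_fst, smul_apply, map_smul, h1]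
        · simp only [Prod.smul_fst, Prod.smul_snd, smul_apply, map_smul, h2, smul_add] }
  have hS : ∀ k, p k ∈ S ↔ A.Rel g k := by
    intro k
    change ((∀ v, (A.L k - 1) (A.L g v) = A.L g ((A.L k - 1) v)) ∧
      ∀ v, A.th k (A.L g v) = A.th g ((A.L k - 1) v) + A.th k v) ↔ _
    simp only [sub_apply, one_apply_eq_self, map_sub, sub_left_inj, Rel]
    refine and_congr Iff.rfl (forall_congr' fun v => ⟨fun e => ?_, fun e => ?_⟩) <;> linarith
  have hle : Submodule.span ℝ b ≤ S := by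
    rw [Submodule.span_le, ← hYb]
    rintro _ ⟨s, hs, rfl⟩
    exact (hS s).2 (hg s hs)
  rw [hsp] at hle
  exact (hS h).1 (hle (Submodule.subset_span (mem_image_of_mem p hh)))

include A in
theorem comm_small : ∃ e > (0 : ℝ), ∀ g h : D.G, D.sz g ≤ e → D.sz h ≤ e →
    D.sz (comm g h) = 0 := by
  obtain ⟨e1, he1, hiff⟩ := A.comm_iff
  obtain ⟨e0, he0, hnc⟩ := A.no_central
  obtain ⟨e2, he2, Ca, hCa, hac⟩ := A.toCA.a_comm
  obtain ⟨Cs, hCs, hsc⟩ := A.sz_comm
  obtain ⟨c0, hc0, hsep⟩ := A.sep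
  obtain ⟨e, he, hb, hee1, hee0, hee2, hs, ha, hc⟩ : ∃ e > (0 : ℝ), e ≤ D.b ∧ e ≤ e1 ∧ e ≤ e0 ∧
      e ≤ e2 ∧ Cs * e ≤ 1 / 2 ∧ Ca * e ≤ 1 / 4 ∧ Ca * e ≤ c0 / 4 := by
    have t0 : ∀ c : ℝ, Tendsto (fun e : ℝ => c * e) (𝓝[>] 0) (𝓝 0) := by
      intro c
      have h1 : Tendsto (fun e : ℝ => c * e) (𝓝 0) (𝓝 (c * 0)) := tendsto_id.const_mul c
      rw [mul_zero] at h1
      exact h1.mono_left nhdsWithin_le_nhds
    have t1 : Tendsto (fun e : ℝ => e) (𝓝[>] 0) (𝓝 0) := tendsto_id.mono_left nhdsWithin_le_nhds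
    have h0 : ∀ᶠ e : ℝ in 𝓝[>] 0, 0 < e := self_mem_nhdsWithin
    exact (h0.and ((t1.eventually (ge_mem_nhds D.b_pos)).and
      ((t1.eventually (ge_mem_nhds he1)).and ((t1.eventually (ge_mem_nhds he0)).and
      ((t1.eventually (ge_mem_nhds he2)).and
      (((t0 Cs).eventually (ge_mem_nhds (by norm_num))).and
      (((t0 Ca).eventually (ge_mem_nhds (by norm_num))).and
      ((t0 Ca).eventually (ge_mem_nhds (by linarith)))))))))).exists
  obtain ⟨Y, hY, hYW, htest⟩ := A.exists_test {g | D.sz g ≤ e}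
  have hiff' : ∀ g h : D.G, D.sz g ≤ e → D.sz h ≤ e → (D.sz (comm g h) = 0 ↔ A.Rel g h) := by
    intro g h hg hh
    have := D.sm0 (hg.trans hb)
    have := D.sm0 (hh.trans hb)
    exact hiff g h (hg.trans hee1) (hh.trans hee1)
  obtain ⟨M, hM0, hM⟩ : ∃ M : ℝ, 0 ≤ M ∧ ∀ s ∈ Y, ‖A.a s‖ ≤ M := by
    obtain ⟨M, hM⟩ := (hY.image fun s => ‖A.a s‖).bddAbove
    exact ⟨max M 0, le_max_right _ _, fun s hs =>
      (hM (mem_image_of_mem _ hs)).trans (le_max_left _ _)⟩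
  obtain ⟨Z, hZ0, hZ⟩ : ∃ Z : ℕ → Set D.G, Z 0 = Y ∧ ∀ k, Z (k + 1) = image2 comm Y (Z k) :=
    ⟨fun k => Nat.rec Y (fun _ S => image2 comm Y S) k, rfl, fun _ => rfl⟩
  have hbd : ∀ k, ∀ c ∈ Z k, D.sz c ≤ e * (1 / 2) ^ k ∧
      ‖A.a c‖ ≤ 2 * (Ca * e) + (1 + M) * (1 / 2) ^ k := by
    intro k
    induction k with
    | zero =>
      intro c hc
      rw [hZ0] at hc
      have h1 : D.sz c ≤ e := hYW hc
      have h2 := hM c hc
      have h3 : 0 ≤ Ca * e := mul_nonneg hCa he.le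
      rw [pow_zero, _root_.mul_one, _root_.mul_one]
      exact ⟨h1, by linarith⟩
    | succ k ih =>
      rw [hZ]
      rintro _ ⟨s, hs', c, hc', rfl⟩
      obtain ⟨h1, h2⟩ := ih c hc'
      have hq0 : (0 : ℝ) ≤ (1 / 2) ^ k := by positivity
      have hq1 : ((1 : ℝ) / 2) ^ k ≤ 1 := pow_le_one₀ (by norm_num) (by norm_num)
      have h3 : D.sz s ≤ e := hYW hs'
      have h4 : D.sz c ≤ e := h1.trans (mul_le_of_le_one_right he.le hq1)
      have := D.sm0 (h3.trans hb)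
      have := D.sm0 (h4.trans hb)
      have h5 := hsc s c (D.le1 s) (D.le1 c) (D.le1 (s * c)) (D.le1 (c * s)) (D.le1 (c * s)⁻¹)
      have h6 := hac s c (h3.trans hee2) (h4.trans hee2)
      have h7 := hM s hs'
      have hs0 := D.sz_nonneg s
      have hc0' := D.sz_nonneg c
      rw [pow_succ]
      constructor
      · have h8 : Cs * D.sz s ≤ 1 / 2 := (mul_le_mul_of_nonneg_left h3 hCs).trans hs
        have h9 := mul_le_mul_of_nonneg_right h8 hc0'
        linarith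
      · have h8 : D.sz s * (1 + ‖A.a c‖) ≤ e * (1 + ‖A.a c‖) :=
          mul_le_mul_of_nonneg_right h3 (by positivity)
        have h9 : D.sz c * (1 + ‖A.a s‖) ≤ e * (1 / 2) ^ k * (1 + M) :=
          mul_le_mul h1 (by linarith) (by positivity) (by positivity)
        have h10 := mul_le_mul_of_nonneg_left (add_le_add h8 h9) hCa
        have h11 : Ca * e * ‖A.a c‖ ≤ 1 / 4 * ‖A.a c‖ :=
          mul_le_mul_of_nonneg_right ha (norm_nonneg _)
        have h12 : Ca * e * ((1 + M) * (1 / 2) ^ k) ≤ 1 / 4 * ((1 + M) * (1 / 2) ^ k) :=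
          mul_le_mul_of_nonneg_right ha (by positivity)
        have h13 : 0 ≤ Ca * e := mul_nonneg hCa he.le
        linarith
  have hle : ∀ k, ∀ c ∈ Z k, D.sz c ≤ e := fun k c hc => (hbd k c hc).1.trans
    (mul_le_of_le_one_right he.le (pow_le_one₀ (by norm_num) (by norm_num)))
  have hdown : ∀ k, (∀ c ∈ Z (k + 1), D.sz c = 0) → ∀ c ∈ Z 1, D.sz c = 0 := by
    intro k
    induction k with
    | zero => exact id
    | succ k ih =>
      intro hk
      refine ih fun z hz => ?_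
      have hze := hle _ z hz
      have hr : ∀ s ∈ Y, A.Rel z s := fun s hs => A.rel_symm
        ((hiff' s z (hYW hs) hze).1 (hk _ (by rw [hZ]; exact mem_image2_of_mem hs hz)))
      rw [hZ] at hz
      obtain ⟨s, hs', c, hc', rfl⟩ := hz
      exact hnc e he hee0 s c (hYW hs') (hle _ c hc') hze
        fun h hh => (hiff' _ h hze hh).2 (htest _ hr h hh)
  obtain ⟨k, hk⟩ := exists_pow_lt_of_lt_one (x := c0 / 2 / (1 + M)) (y := (1 / 2 : ℝ))
    (by positivity) (by norm_num)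
  have h1 := hdown k fun c hc => by
    have h2 := (hbd _ c hc).2
    have h3 : ((1 : ℝ) / 2) ^ (k + 1) ≤ (1 / 2) ^ k :=
      pow_le_pow_of_le_one (by norm_num) (by norm_num) (Nat.le_succ k)
    have h4 := (lt_div_iff₀' (by linarith : 0 < 1 + M)).1 (h3.trans_lt hk)
    rw [hsep c 1 (by rw [A.a_one, sub_zero]; linarith), D.sz_one]
  have h2 : ∀ s ∈ Y, ∀ h, D.sz h ≤ e → A.Rel s h := fun s hs h hh => htest s
    (fun c hc => (hiff' s c (hYW hs) (hYW hc)).1
      (h1 _ (by rw [hZ 0, hZ0]; exact mem_image2_of_mem hs hc))) h hh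
  exact ⟨e, he, fun g h hg hh =>
    (hiff' g h hg hh).2 (htest g (fun s hs => A.rel_symm (h2 s hs g hg)) h hh)⟩

theorem toCB : ∃ (b : ℝ) (h0 : 0 < b) (h1 : b ≤ D.b), IsCB (A.reb b h0 h1) := by
  obtain ⟨e, he, hc⟩ := A.comm_small
  obtain ⟨e', he', hu⟩ := A.u_le_th
  obtain ⟨C, hC, hs⟩ := A.sz_le_u
  obtain ⟨b, h0, h1, hb⟩ := D.exists_reb (lt_min he he')
  have hX : ∀ g : D.G, (D.reb b h0 h1).Sm 12 g → ∀ v, A.L g v - v ∈ A.V0 := by
    intro g hg v
    have := sm_of_reb hg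
    exact A.X_of_comm g he
      (fun k hk => hc g k ((hb 12 (by norm_num) g hg).trans (min_le_left _ _)) hk) v
  have hU : ∀ g : D.G, (D.reb b h0 h1).Sm 12 g → ‖A.u g‖ ≤ 2 * ‖A.th g‖ := by
    intro g hg
    have := sm_of_reb hg
    exact hu g ((hb 12 (by norm_num) g hg).trans (min_le_right _ _))
  refine ⟨b, h0, h1, ⟨fun g h hg hh => ?_, fun g hg v => hX g hg v,
    ⟨C * 2, by positivity, fun g hg => ?_⟩, ⟨2, by norm_num, fun g hg => hU g hg⟩⟩⟩
  · exact hc g h ((hb 12 (by norm_num) g hg).trans (min_le_left _ _))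
      ((hb 12 (by norm_num) h hh).trans (min_le_left _ _))
  · have h2 := @hs g (sm_of_reb hg) (hX g hg)
    have h3 := mul_le_mul_of_nonneg_left (hU g hg) hC
    rw [← mul_assoc] at h3
    exact h2.trans h3

end CL1

end Pool.Agent.CL
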