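import Pool.Agent.P.MP_63735c_ag.CLDefs

/-! The Steinitz lemma. -/

open scoped ContDiff Matrix ENNReal
open Set Metric MeasureTheory Filter Topology

namespace Pool.Agent.CL

open Pool.Agent.SPF

theorem clstein_dep {ι V : Type} [NormedAddCommGroup V] [NormedSpace ℝ V] [FiniteDimensional ℝ V]
    (v : ι → V) (F : Finset ι) (hF : Module.finrank ℝ V + 1 < F.card) :
    ∃ c : ι → ℝ, ∑ i ∈ F, c i • v i = 0 ∧ ∑ i ∈ F, c i = 0 ∧ ∃ i ∈ F, c i ≠ 0 := by
  have h : ¬ LinearIndepOn ℝ (fun i => ((v i, (1 : ℝ)) : V × ℝ)) (F : Set ι) := by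
    intro h
    have h1 := LinearIndependent.fintype_card_le_finrank h
    rw [Module.finrank_prod, Module.finrank_self] at h1
    simp only [Finset.coe_sort_coe, Fintype.card_coe] at h1
    omega
  obtain ⟨c, hc, hc'⟩ := not_linearIndepOn_finset_iff.1 h
  refine ⟨c, ?_, ?_, hc'⟩
  · have := congrArg Prod.fst hc
    simpa [Prod.fst_sum] using this
  · have := congrArg Prod.snd hc
    simpa [Prod.snd_sum] using this

theorem clstein_zero {ι V : Type} [NormedAddCommGroup V] [NormedSpace ℝ V] [FiniteDimensional ℝ V]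
    (v : ι → V) (A : Finset ι) (y : V) (m : ℕ) :
    ∀ w : ι → ℝ, (A.filter (fun i => w i < 1)).card ≤ m → (∀ i ∈ A, 0 ≤ w i ∧ w i ≤ 1) →
      ∑ i ∈ A, w i = (A.card : ℝ) - 1 - Module.finrank ℝ V → ∑ i ∈ A, w i • v i = y →
      ∃ w' : ι → ℝ, (∀ i ∈ A, 0 ≤ w' i ∧ w' i ≤ 1) ∧
        ∑ i ∈ A, w' i = (A.card : ℝ) - 1 - Module.finrank ℝ V ∧ ∑ i ∈ A, w' i • v i = y ∧
        ∃ j ∈ A, w' j = 0 := by
  classical
  have key : ∀ w : ι → ℝ, (∀ i ∈ A, 0 < w i ∧ w i ≤ 1) →
      ∑ i ∈ A, w i = (A.card : ℝ) - 1 - Module.finrank ℝ V →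
      Module.finrank ℝ V + 1 < (A.filter (fun i => w i < 1)).card := by
    intro w hw hs
    have h1 : ∑ i ∈ A, (1 - w i) = (Module.finrank ℝ V : ℝ) + 1 := by
      rw [Finset.sum_sub_distrib, hs]
      simp only [Finset.sum_const, nsmul_eq_mul, mul_one]
      ring
    have h2 : ∑ i ∈ A.filter (fun i => w i < 1), (1 - w i) = ∑ i ∈ A, (1 - w i) := by
      apply Finset.sum_filter_of_ne
      intro i hi hne
      rcases (hw i hi).2.lt_or_eq with h | h
      · exact h
      · exact absurd (by rw [h, sub_self]) hne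
    have h3 : (A.filter (fun i => w i < 1)).Nonempty := by
      rw [Finset.nonempty_iff_ne_empty]
      intro he
      rw [he, h1, Finset.sum_empty] at h2
      have : (0 : ℝ) ≤ Module.finrank ℝ V := Nat.cast_nonneg _
      linarith
    have h4 : ∑ i ∈ A.filter (fun i => w i < 1), (1 - w i) <
        ∑ i ∈ A.filter (fun i => w i < 1), (1 : ℝ) := by
      apply Finset.sum_lt_sum_of_nonempty h3
      intro i hi
      have := (hw i (Finset.mem_filter.1 hi).1).1
      linarith
    rw [h2, h1] at h4
    simp only [Finset.sum_const, nsmul_eq_mul, mul_one] at h4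
    exact_mod_cast h4
  induction m with
  | zero =>
    intro w hm hw hs hy
    by_cases hz : ∃ j ∈ A, w j = 0
    · exact ⟨w, hw, hs, hy, hz⟩
    · have := key w (fun i hi => ⟨lt_of_le_of_ne (hw i hi).1
        (fun h => hz ⟨i, hi, h.symm⟩), (hw i hi).2⟩) hs
      omega
  | succ m ih =>
    intro w hm hw hs hy
    by_cases hz : ∃ j ∈ A, w j = 0
    · exact ⟨w, hw, hs, hy, hz⟩
    have hw0 : ∀ i ∈ A, 0 < w i := fun i hi => lt_of_le_of_ne (hw i hi).1
        (fun h => hz ⟨i, hi, h.symm⟩)
    have hk := key w (fun i hi => ⟨hw0 i hi, (hw i hi).2⟩) hs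
    set F := A.filter (fun i => w i < 1) with hFdef
    obtain ⟨c, hc1, hc2, i0, hi0, hci0⟩ := clstein_dep v F hk
    obtain ⟨j, hj, hmin⟩ := Finset.exists_min_image (F.filter (fun i => c i ≠ 0))
      (fun i => if 0 < c i then (1 - w i) / c i else w i / (-c i))
      ⟨i0, Finset.mem_filter.2 ⟨hi0, hci0⟩⟩
    obtain ⟨hjF, hcj⟩ := Finset.mem_filter.1 hj
    obtain ⟨hjA, hwj⟩ := Finset.mem_filter.1 hjF
    set t : ℝ := if 0 < c j then (1 - w j) / c j else w j / (-c j) with ht
    have ht0 : 0 ≤ t := by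
      rw [ht]
      split_ifs with h
      · exact div_nonneg (by linarith) h.le
      · exact div_nonneg (hw j hjA).1 (by linarith [not_lt.1 h])
    let w1 : ι → ℝ := fun i => w i + (if w i < 1 then t * c i else 0)
    have hb : ∀ i ∈ A, 0 ≤ w1 i ∧ w1 i ≤ 1 := by
      intro i hi
      simp only [w1]
      split_ifs with h
      · rcases lt_trichotomy (c i) 0 with hc | hc | hc
        · have h1 := hmin i (Finset.mem_filter.2 ⟨Finset.mem_filter.2 ⟨hi, h⟩, hc.ne⟩)
          rw [if_neg (not_lt.2 hc.le), le_div_iff₀ (by linarith)] at h1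
          have h2 : t * c i ≤ 0 := mul_nonpos_of_nonneg_of_nonpos ht0 hc.le
          constructor <;> linarith
        · rw [hc, mul_zero, add_zero]
          exact hw i hi
        · have h1 := hmin i (Finset.mem_filter.2 ⟨Finset.mem_filter.2 ⟨hi, h⟩, hc.ne'⟩)
          rw [if_pos hc, le_div_iff₀ hc] at h1
          have h2 : 0 ≤ t * c i := mul_nonneg ht0 hc.le
          have h3 := (hw i hi).1
          constructor <;> linarith
      · rw [add_zero]
        exact hw i hi
    have hs1 : ∑ i ∈ A, w1 i = (A.card : ℝ) - 1 - Module.finrank ℝ V := by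
      simp only [w1]
      rw [Finset.sum_add_distrib, hs, ← Finset.sum_filter, ← Finset.mul_sum, hc2, mul_zero,
        add_zero]
    have hy1 : ∑ i ∈ A, w1 i • v i = y := by
      simp only [w1, add_smul, ite_smul, zero_smul]
      rw [Finset.sum_add_distrib, hy, ← Finset.sum_filter]
      simp only [mul_smul]
      rw [← Finset.smul_sum, hc1, smul_zero, add_zero]
    by_cases hpos : 0 < c j
    · have hj1 : w1 j = 1 := by
        simp only [w1]
        rw [if_pos hwj, ht, if_pos hpos, div_mul_cancel₀ _ hcj]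
        ring
      refine ih w1 ?_ hb hs1 hy1
      have hsub : A.filter (fun i => w1 i < 1) ⊆ F.erase j := by
        intro i hi
        obtain ⟨hiA, hi1⟩ := Finset.mem_filter.1 hi
        refine Finset.mem_erase.2 ⟨?_, Finset.mem_filter.2 ⟨hiA, ?_⟩⟩
        · intro h
          rw [h, hj1] at hi1
          exact lt_irrefl _ hi1
        · by_contra h
          simp only [w1] at hi1
          rw [if_neg h, add_zero] at hi1
          exact h hi1
      have h1 := Finset.card_le_card hsub
      rw [Finset.card_erase_of_mem hjF] at h1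
      omega
    · refine ⟨w1, hb, hs1, hy1, j, hjA, ?_⟩
      simp only [w1]
      rw [if_pos hwj, ht, if_neg hpos]
      field_simp
      ring

theorem clstein_main {ι V : Type} [DecidableEq ι] [NormedAddCommGroup V] [NormedSpace ℝ V]
    [FiniteDimensional ℝ V] (v : ι → V) {δ : ℝ} (hδ : 0 ≤ δ) (hv : ∀ i, ‖v i‖ ≤ δ) (n : ℕ) :
    ∀ A : Finset ι, A.card = n →
      (n ≤ Module.finrank ℝ V ∨ ∃ w : ι → ℝ, (∀ i ∈ A, 0 ≤ w i ∧ w i ≤ 1) ∧
        ∑ i ∈ A, w i = (n : ℝ) - Module.finrank ℝ V ∧ ‖∑ i ∈ A, w i • v i‖ ≤ δ) →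
      ∃ L : List ι, L.Nodup ∧ L.toFinset = A ∧
        ∀ k, ‖((L.drop k).map v).sum‖ ≤ (Module.finrank ℝ V + 1) * δ := by
  have hD : (0 : ℝ) ≤ Module.finrank ℝ V := Nat.cast_nonneg _
  induction n with
  | zero =>
    intro A hA _
    refine ⟨[], List.nodup_nil, ?_, fun k => ?_⟩
    · rw [Finset.card_eq_zero.1 hA]
      rfl
    · simp only [List.drop_nil, List.map_nil, List.sum_nil, norm_zero]
      positivity
  | succ n ih =>
    intro A hA h
    have hboth : ‖∑ i ∈ A, v i‖ ≤ (Module.finrank ℝ V + 1) * δ ∧ ∃ j ∈ A,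
        (n ≤ Module.finrank ℝ V ∨ ∃ w : ι → ℝ, (∀ i ∈ A.erase j, 0 ≤ w i ∧ w i ≤ 1) ∧
        ∑ i ∈ A.erase j, w i = (n : ℝ) - Module.finrank ℝ V ∧
          ‖∑ i ∈ A.erase j, w i • v i‖ ≤ δ) := by
      by_cases hn : n ≤ Module.finrank ℝ V
      · obtain ⟨j, hj⟩ := Finset.card_pos.1 (by omega : 0 < A.card)
        refine ⟨?_, j, hj, Or.inl hn⟩
        refine (norm_sum_le _ _).trans ((Finset.sum_le_sum (fun i _ => hv i)).trans ?_)
        rw [Finset.sum_const, hA, nsmul_eq_mul]
        apply mul_le_mul_of_nonneg_right _ hδ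
        exact_mod_cast Nat.succ_le_succ hn
      · obtain ⟨w, hw, hs, hy⟩ := h.resolve_left (by omega)
        have hn' : (Module.finrank ℝ V : ℝ) < n := by exact_mod_cast not_le.1 hn
        constructor
        · have e : ∑ i ∈ A, v i = ∑ i ∈ A, (1 - w i) • v i + ∑ i ∈ A, w i • v i := by
            rw [← Finset.sum_add_distrib]
            refine Finset.sum_congr rfl (fun i _ => ?_)
            rw [← add_smul, sub_add_cancel, one_smul]
          have h1 : ‖∑ i ∈ A, (1 - w i) • v i‖ ≤ ∑ i ∈ A, (1 - w i) * δ := by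
            refine (norm_sum_le _ _).trans (Finset.sum_le_sum (fun i hi => ?_))
            have h0 : 0 ≤ 1 - w i := by linarith [(hw i hi).2]
            rw [norm_smul, Real.norm_of_nonneg h0]
            exact mul_le_mul_of_nonneg_left (hv i) h0
          rw [← Finset.sum_mul, Finset.sum_sub_distrib, hs, Finset.sum_const, hA, nsmul_eq_mul]
            at h1
          rw [e]
          refine (norm_add_le _ _).trans ?_
          have e2 : (((n + 1 : ℕ) : ℝ) * 1 - (((n + 1 : ℕ) : ℝ) - Module.finrank ℝ V)) * δ =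
              Module.finrank ℝ V * δ := by ring
          rw [e2] at h1
          linarith
        · set t : ℝ := ((n : ℝ) - Module.finrank ℝ V) / ((n : ℝ) + 1 - Module.finrank ℝ V) with ht
          have hp : (0 : ℝ) < (n : ℝ) + 1 - Module.finrank ℝ V := by linarith
          have ht0 : 0 ≤ t := div_nonneg (by linarith) hp.le
          have ht1 : t ≤ 1 := by
            rw [ht, div_le_one hp]
            linarith
          obtain ⟨w', hw', hs', hy', j, hj, hj0⟩ := clstein_zero v A (t • ∑ i ∈ A, w i • v i) _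
            (fun i => t * w i) le_rfl
            (fun i hi => ⟨mul_nonneg ht0 (hw i hi).1, mul_le_one₀ ht1 (hw i hi).1 (hw i hi).2⟩)
            (by
              rw [← Finset.mul_sum, hs, hA, ht]
              push_cast
              rw [div_mul_cancel₀ _ hp.ne']
              ring)
            (by
              rw [Finset.smul_sum]
              simp only [mul_smul])
          refine ⟨j, hj, Or.inr ⟨w', fun i hi => hw' i (Finset.mem_of_mem_erase hi), ?_, ?_⟩⟩
          · rw [Finset.sum_erase _ hj0, hs', hA]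
            push_cast
            ring
          · rw [Finset.sum_erase _ (by rw [hj0, zero_smul]), hy', norm_smul,
              Real.norm_of_nonneg ht0]
            exact (mul_le_of_le_one_left (norm_nonneg _) ht1).trans hy
    obtain ⟨h0, j, hj, hrec⟩ := hboth
    obtain ⟨L, hL, hLA, hLk⟩ := ih (A.erase j) (by rw [Finset.card_erase_of_mem hj, hA]; rfl) hrec
    have hnd : (j :: L).Nodup := by
      refine List.nodup_cons.2 ⟨?_, hL⟩
      rw [← List.mem_toFinset, hLA]
      exact Finset.notMem_erase j A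
    have hto : (j :: L).toFinset = A := by
      rw [List.toFinset_cons, hLA, Finset.insert_erase hj]
    refine ⟨j :: L, hnd, hto, fun k => ?_⟩
    cases k with
    | zero =>
      rw [List.drop_zero, ← List.sum_toFinset _ hnd, hto]
      exact h0
    | succ k =>
      rw [List.drop_succ_cons]
      exact hLk k

theorem steinitz {α V : Type} [NormedAddCommGroup V] [NormedSpace ℝ V] [FiniteDimensional ℝ V]
    (f : α → V) {δ : ℝ} (l : List α) (hl : ∀ a ∈ l, ‖f a‖ ≤ δ) (hs : ‖(l.map f).sum‖ ≤ δ) :
    ∃ l' : List α, l'.Perm l ∧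
      ∀ k, ‖((l'.drop k).map f).sum‖ ≤ (Module.finrank ℝ V + 1) * δ := by
  have hδ : 0 ≤ δ := (norm_nonneg _).trans hs
  have hsum : ∑ i : Fin l.length, f (l.get i) = (l.map f).sum := by
    simp
  obtain ⟨L, hL, hLA, hLk⟩ := clstein_main (fun i : Fin l.length => f (l.get i)) hδ
    (fun i => hl _ (List.get_mem l i)) l.length Finset.univ (by simp) (by
      by_cases hn : l.length ≤ Module.finrank ℝ V
      · exact Or.inl hn
      · have hn' : (Module.finrank ℝ V : ℝ) < l.length := by exact_mod_cast not_le.1 hn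
        have hD : (0 : ℝ) ≤ Module.finrank ℝ V := Nat.cast_nonneg _
        have hp : (0 : ℝ) < l.length := by linarith
        have ht0 : 0 ≤ ((l.length : ℝ) - Module.finrank ℝ V) / l.length :=
          div_nonneg (by linarith) hp.le
        have ht1 : ((l.length : ℝ) - Module.finrank ℝ V) / l.length ≤ 1 := by
          rw [div_le_one hp]
          linarith
        refine Or.inr ⟨fun _ => ((l.length : ℝ) - Module.finrank ℝ V) / l.length,
          fun _ _ => ⟨ht0, ht1⟩, ?_, ?_⟩
        · rw [Finset.sum_const, Finset.card_univ, Fintype.card_fin, nsmul_eq_mul,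
            mul_div_cancel₀ _ hp.ne']
        · rw [← Finset.smul_sum, hsum, norm_smul, Real.norm_of_nonneg ht0]
          exact (mul_le_of_le_one_left (norm_nonneg _) ht1).trans hs)
  refine ⟨L.map l.get, ?_, fun k => ?_⟩
  · have hp : L.Perm (List.finRange l.length) :=
      List.perm_of_nodup_nodup_toFinset_eq hL (List.nodup_finRange _)
        (by rw [hLA, List.toFinset_finRange])
    have := hp.map l.get
    rwa [List.map_get_finRange] at this
  · rw [← List.map_drop, List.map_map]
    exact hLk k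

end Pool.Agent.CL
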