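import Pool.Agent.P.MP_63735c_ag.CCA8
import Pool.Agent.P.MP_63735c_ag.CCA9

/-! Integer coordinates exist. -/

open scoped Matrix
open Set Filter Topology

namespace Pool.Agent.CL

open Pool.Agent.SPF LGrp

variable {n : ℕ} {D : LGrp}

/-- `cz` as an additive map. -/
def ccb1_cz (r : ℕ) : (Fin r → ℤ) →+ (Fin r → ℝ) where
  toFun := cz
  map_zero' := by funext k; simp [cz]
  map_add' x y := by funext k; simp [cz]

/-- `x` is the displacement of a word of weight at most `c`. -/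
def ccb1_Q (A : CL1 n D) (d : ℝ) (x : E n →L[ℝ] ℝ) (c : ℝ) : Prop :=
  ∃ l : List D.G, (∀ g ∈ l, g ∈ A.S d) ∧ (l.map A.th).sum = x ∧
    (l.map fun g => 1 + ‖A.a g‖).sum ≤ c

variable {A : CL1 n D} {d : ℝ}

lemma ccb1_zero : ccb1_Q A d 0 0 := ⟨[], by simp, by simp, by simp⟩

lemma ccb1_mono {x : E n →L[ℝ] ℝ} {c c' : ℝ} (h : ccb1_Q A d x c) (hc : c ≤ c') :
    ccb1_Q A d x c' := by
  obtain ⟨l, h1, h2, h3⟩ := h
  exact ⟨l, h1, h2, h3.trans hc⟩

lemma ccb1_add {x y : E n →L[ℝ] ℝ} {c c' : ℝ} (h : ccb1_Q A d x c) (h' : ccb1_Q A d y c') :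
    ccb1_Q A d (x + y) (c + c') := by
  obtain ⟨l, h1, h2, h3⟩ := h
  obtain ⟨l', h1', h2', h3'⟩ := h'
  refine ⟨l ++ l', fun g hg => (List.mem_append.1 hg).elim (h1 g) (h1' g), ?_, ?_⟩
  · rw [List.map_append, List.sum_append, h2, h2']
  · rw [List.map_append, List.sum_append]; linarith

lemma ccb1_inv_th (hB : IsCB A) (l : List D.G) (hl : ∀ g ∈ l, g ∈ A.S d) :
    ((l.map fun g => g⁻¹).map A.th).sum = -(l.map A.th).sum := by
  induction l with
  | nil => simp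
  | cons g l ih =>
    have := D.sm0 (hl g (by simp)).1
    have h1 := ih fun x hx => hl x (by simp [hx])
    simp only [List.map_cons, List.sum_cons]
    rw [h1, hB.th_inv g]
    abel

lemma ccb1_neg (hB : IsCB A) {C : ℝ} (hC : 0 ≤ C)
    (hi : ∀ g ∈ A.S d, g⁻¹ ∈ A.S d ∧ 1 + ‖A.a g⁻¹‖ ≤ C * (1 + ‖A.a g‖))
    {x : E n →L[ℝ] ℝ} {c : ℝ} (h : ccb1_Q A d x c) : ccb1_Q A d (-x) (C * c) := by
  obtain ⟨l, h1, h2, h3⟩ := h
  refine ⟨l.map fun g => g⁻¹, fun g hg => ?_, ?_, ?_⟩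
  · obtain ⟨x, hx, rfl⟩ := List.mem_map.1 hg
    exact (hi x (h1 x hx)).1
  · rw [ccb1_inv_th hB l h1, h2]
  · refine le_trans ?_ (mul_le_mul_of_nonneg_left h3 hC)
    clear h2 h3
    induction l with
    | nil => simp
    | cons g l ih =>
      have h4 := ih fun x hx => h1 x (by simp [hx])
      have h5 := (hi g (h1 g (by simp))).2
      simp only [List.map_cons, List.sum_cons, mul_add] at h4 h5 ⊢
      linarith

lemma ccb1_nsmul {x : E n →L[ℝ] ℝ} {c : ℝ} (h : ccb1_Q A d x c) (k : ℕ) :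
    ccb1_Q A d (k • x) (k * c) := by
  induction k with
  | zero => simpa using ccb1_zero
  | succ k ih =>
    rw [succ_nsmul, Nat.cast_succ, add_mul, _root_.one_mul]
    exact ccb1_add ih h

lemma ccb1_zsmul {x : E n →L[ℝ] ℝ} {c : ℝ} (h : ccb1_Q A d x c) (h' : ccb1_Q A d (-x) c)
    (k : ℤ) : ccb1_Q A d (k • x) (|(k : ℝ)| * c) := by
  obtain ⟨j, rfl | rfl⟩ := k.eq_nat_or_neg
  · simpa using ccb1_nsmul h j
  · simpa using ccb1_nsmul h' j

lemma ccb1_sum {ι : Type} (s : Finset ι) (x : ι → E n →L[ℝ] ℝ) (c : ι → ℝ)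
    (h : ∀ i ∈ s, ccb1_Q A d (x i) (c i)) : ccb1_Q A d (∑ i ∈ s, x i) (∑ i ∈ s, c i) := by
  classical
  induction s using Finset.induction_on with
  | empty => simpa using ccb1_zero
  | insert i s hi ih =>
    rw [Finset.sum_insert hi, Finset.sum_insert hi]
    exact ccb1_add (h i (by simp)) (ih fun j hj => h j (by simp [hj]))

lemma ccb1_inv_F {B : Type} [AddCommGroup B] {F : D.G → B} (hF : Addv D F) (l : List D.G)
    (hl : ∀ g ∈ l, g ∈ A.S d ∧ g⁻¹ ∈ A.S d) :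
    ((l.map fun g => g⁻¹).map F).sum = -(l.map F).sum := by
  induction l with
  | nil => simp
  | cons g l ih =>
    have h0 := hl g (by simp)
    have h1 := ih fun x hx => hl x (by simp [hx])
    simp only [List.map_cons, List.sum_cons]
    rw [h1, hF.inv h0.1.1 h0.2.1]
    abel

theorem IsCB.exists_lat {A : CL1 n D} (hB : IsCB A) : Nonempty (Lat A) := by
  classical
  obtain ⟨d0, hd0, C0, hC0, hP⟩ := hB.prod_ord
  have hS : ∀ d d' : ℝ, d' ≤ d → A.S d' ⊆ A.S d := fun d d' h g hg => ⟨hg.1, hg.2.trans h⟩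
  obtain ⟨d, hd, hdd, hstab⟩ := span_stab (fun d => A.th '' A.S d)
    (fun d d' h => image_mono (hS d d' h)) hd0
  obtain ⟨hinv, hprod⟩ := hP d hd hdd
  obtain ⟨Φ, C1, hC1, hΦ1, hΦ2⟩ := hB.gp_fin hd
  set Γ := AddSubgroup.closure (A.th '' A.S d) with hΓ
  have hcl : AddSubgroup.closure (Φ : Set (E n →L[ℝ] ℝ)) = Γ := by
    refine le_antisymm ((AddSubgroup.closure_le _).2 fun x hx => hΦ1 x hx) ?_
    refine (AddSubgroup.closure_le _).2 ?_
    rintro _ ⟨g, hg, rfl⟩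
    obtain ⟨l, h1, h2, -⟩ := hΦ2 g hg
    rw [← h2]
    exact list_sum_mem fun x hx => AddSubgroup.subset_closure (h1 x hx)
  obtain ⟨r, θ, hinj0, hmem⟩ := exists_zcoord Γ Φ hcl
  let ψ : (Fin r → ℤ) →+ (E n →L[ℝ] ℝ) := θ.toAddMonoidHom.comp (ccb1_cz r)
  have hψ : ∀ m, ψ m = θ (cz m) := fun _ => rfl
  have hinj : Function.Injective ψ := (injective_iff_map_eq_zero ψ).2 hinj0
  have hth : ∀ g ∈ A.S d, A.th g ∈ Γ := fun g hg => AddSubgroup.subset_closure ⟨g, hg, rfl⟩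
  let w : D.G → Fin r → ℤ := fun g => if h : ∃ m, ψ m = A.th g then h.choose else 0
  have hw : ∀ g ∈ A.S d, ψ (w g) = A.th g := fun g hg => by
    have h : ∃ m, ψ m = A.th g := (hmem _).1 (hth g hg)
    simp only [w, dif_pos h]
    exact h.choose_spec
  have hQ : ∀ x ∈ Γ, ∃ c, ccb1_Q A d x c := by
    intro x hx
    induction hx using AddSubgroup.closure_induction with
    | mem x hx =>
      obtain ⟨g, hg, rfl⟩ := hx
      exact ⟨1 + ‖A.a g‖, [g], by simpa using hg, by simp, by simp⟩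
    | zero => exact ⟨0, ccb1_zero⟩
    | add x y _ _ hx hy =>
      obtain ⟨c, hc⟩ := hx
      obtain ⟨c', hc'⟩ := hy
      exact ⟨_, ccb1_add hc hc'⟩
    | neg x _ hx =>
      obtain ⟨c, hc⟩ := hx
      exact ⟨_, ccb1_neg hB hC0 hinv hc⟩
  have hψΓ : ∀ m, ψ m ∈ Γ := fun m => (hmem _).2 ⟨m, rfl⟩
  have hdec : ∀ m : Fin r → ℤ, m = ∑ k, m k • (Pi.single k 1 : Fin r → ℤ) := fun m => by
    funext j
    simp [Finset.sum_apply, Pi.single_apply]
  refine ⟨{ d := d, r := r, w := w, θ := θ, d_pos := hd, θ_w := hw, θ_inj := hinj0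
            w_bd := ?_, real := ?_, dense := ?_, gen := ?_, desc := ?_ }⟩
  · have h1 : ∀ x ∈ Φ, ∃ m, ψ m = x := fun x hx => (hmem x).1 (hΦ1 x hx)
    choose! μ hμ using h1
    obtain ⟨M, hM⟩ := (Φ.finite_toSet.image fun x => ‖cz (μ x)‖).bddAbove
    have hM' : ∀ x ∈ Φ, ‖cz (μ x)‖ ≤ max M 0 := fun x hx =>
      (hM ⟨x, hx, rfl⟩).trans (le_max_left _ _)
    have h2 : ∀ l : List (E n →L[ℝ] ℝ), (∀ x ∈ l, x ∈ Φ) →
        ∃ m, ψ m = l.sum ∧ ‖cz m‖ ≤ max M 0 * l.length := by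
      intro l hl
      induction l with
      | nil =>
        have h3 : cz (0 : Fin r → ℤ) = 0 := (ccb1_cz r).map_zero
        exact ⟨0, by simp, by simp [h3]⟩
      | cons x l ih =>
        obtain ⟨m, h3, h4⟩ := ih fun y hy => hl y (by simp [hy])
        refine ⟨μ x + m, by rw [map_add, hμ x (hl x (by simp)), h3, List.sum_cons], ?_⟩
        have h5 : cz (μ x + m) = cz (μ x) + cz m := (ccb1_cz r).map_add _ _
        have h6 := hM' x (hl x (by simp))
        rw [h5, List.length_cons, Nat.cast_succ, mul_add, _root_.mul_one]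
        linarith [norm_add_le (cz (μ x)) (cz m)]
    refine ⟨max M 0 * C1, mul_nonneg (le_max_right _ _) hC1, fun g hg => ?_⟩
    obtain ⟨l, h3, h4, h5⟩ := hΦ2 g hg
    obtain ⟨m, h6, h7⟩ := h2 l h3
    have h8 : w g = m := hinj (by rw [hw g hg, h6, h4])
    rw [h8, mul_assoc]
    exact h7.trans (mul_le_mul_of_nonneg_left h5 (le_max_right _ _))
  · have h1 : ∀ k : Fin r, ∃ c, 0 ≤ c ∧ ccb1_Q A d (ψ (Pi.single k 1)) c ∧
        ccb1_Q A d (-ψ (Pi.single k 1)) c := by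
      intro k
      obtain ⟨c, hc⟩ := hQ _ (hψΓ (Pi.single k 1))
      obtain ⟨c', hc'⟩ := hQ _ (Γ.neg_mem (hψΓ (Pi.single k 1)))
      exact ⟨max (max c c') 0, le_max_right _ _,
        ccb1_mono hc ((le_max_left _ _).trans (le_max_left _ _)),
        ccb1_mono hc' ((le_max_right _ _).trans (le_max_left _ _))⟩
    choose c hc0 hc1 hc2 using h1
    have hcs : 0 ≤ ∑ k, c k := Finset.sum_nonneg fun k _ => hc0 k
    refine ⟨C0 * ∑ k, c k, mul_nonneg hC0 hcs, fun m hm => ?_⟩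
    have h2 : ccb1_Q A d (ψ m) ((∑ k, c k) * (1 + ‖cz m‖)) := by
      have h3 : ψ m = ∑ k, m k • ψ (Pi.single k 1) := by
        conv_lhs => rw [hdec m]
        rw [map_sum]
        exact Finset.sum_congr rfl fun k _ => map_zsmul ψ _ _
      rw [h3]
      refine ccb1_mono (ccb1_sum Finset.univ _ _ fun k _ =>
        ccb1_zsmul (hc1 k) (hc2 k) (m k)) ?_
      rw [Finset.sum_mul]
      refine Finset.sum_le_sum fun k _ => ?_
      have h4 : |(m k : ℝ)| ≤ ‖cz m‖ := norm_le_pi_norm (cz m) k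
      rw [mul_comm]
      exact mul_le_mul_of_nonneg_left (by linarith) (hc0 k)
    obtain ⟨l, h3, h4, h5⟩ := h2
    obtain ⟨p, hp, h6, h7, -⟩ := hprod l h3 (by rw [h4]; exact hm)
    refine ⟨p, hp, hinj (by rw [hw p hp, h6, h4]), ?_⟩
    rw [mul_assoc]
    exact h7.trans (mul_le_mul_of_nonneg_left h5 hC0)
  · refine round_dense θ fun ε hε x => ?_
    have h1 : Submodule.span ℝ (A.th '' A.S (min ε d)) ≤
        Submodule.span ℝ {y | (∃ m, θ (cz m) = y) ∧ ‖y‖ ≤ ε} := by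
      refine Submodule.span_mono ?_
      rintro _ ⟨g, hg, rfl⟩
      exact ⟨(hmem _).1 (hth g (hS _ _ (min_le_right _ _) hg)), hg.2.trans (min_le_left _ _)⟩
    have h2 : ∀ y ∈ Γ, y ∈ Submodule.span ℝ (A.th '' A.S d) := fun y hy =>
      (AddSubgroup.closure_le (Submodule.span ℝ (A.th '' A.S d)).toAddSubgroup).2
        Submodule.subset_span hy
    have h3 : x = ∑ k, x k • cz (Pi.single k 1 : Fin r → ℤ) := by
      funext j
      simp [Finset.sum_apply, cz, Pi.single_apply]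
    refine h1 (hstab _ (lt_min hε hd) (min_le_right _ _) ?_)
    rw [h3, map_sum]
    refine Submodule.sum_mem _ fun k _ => ?_
    rw [map_smul]
    exact Submodule.smul_mem _ _ (h2 _ (hψΓ _))
  · refine eq_top_iff.2 fun m _ => ?_
    have h1 : Γ ≤ (AddSubgroup.closure (w '' A.S d)).map ψ := by
      refine (AddSubgroup.closure_le _).2 ?_
      rintro _ ⟨g, hg, rfl⟩
      exact ⟨w g, AddSubgroup.subset_closure ⟨g, hg, rfl⟩, hw g hg⟩
    obtain ⟨m', h2, h3⟩ := h1 (hψΓ m)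
    exact hinj h3 ▸ h2
  · intro B _ F hF hι
    have h0 : ∀ l : List D.G, (∀ g ∈ l, g ∈ A.S d) → (l.map A.th).sum = 0 →
        (l.map F).sum = 0 := by
      intro l hl h
      obtain ⟨p, hp, h1, -, h2⟩ := hprod l hl (by rw [h, norm_zero]; exact hd.le)
      have := D.sm0 hp.1
      obtain ⟨m, rfl⟩ := hB.per_of_th p (h1.trans h)
      rw [← h2 B F hF, hι]
    have h1 : ∀ l l' : List D.G, (∀ g ∈ l, g ∈ A.S d) → (∀ g ∈ l', g ∈ A.S d) →
        (l.map A.th).sum = (l'.map A.th).sum → (l.map F).sum = (l'.map F).sum := by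
      intro l l' hl hl' h
      have h2 := h0 (l ++ l'.map fun g => g⁻¹) (fun g hg => by
        rcases List.mem_append.1 hg with h3 | h3
        · exact hl g h3
        · obtain ⟨x, hx, rfl⟩ := List.mem_map.1 h3
          exact (hinv x (hl' x hx)).1)
        (by rw [List.map_append, List.sum_append, ccb1_inv_th hB l' hl', h, add_neg_cancel])
      rw [List.map_append, List.sum_append,
        ccb1_inv_F hF l' fun g hg => ⟨hl' g hg, (hinv g (hl' g hg)).1⟩] at h2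
      exact add_neg_eq_zero.1 h2
    have h2 : ∀ m, ∃ l : List D.G, (∀ g ∈ l, g ∈ A.S d) ∧ (l.map A.th).sum = ψ m := fun m => by
      obtain ⟨c, l, h3, h4, -⟩ := hQ _ (hψΓ m)
      exact ⟨l, h3, h4⟩
    choose L hL1 hL2 using h2
    refine ⟨AddMonoidHom.mk' (fun m => ((L m).map F).sum) fun m m' => ?_, fun g hg => ?_⟩
    · rw [← List.sum_append, ← List.map_append]
      refine h1 _ _ (hL1 _) (fun g hg => (List.mem_append.1 hg).elim (hL1 m g) (hL1 m' g)) ?_
      rw [List.map_append, List.sum_append, hL2, hL2, hL2, map_add]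
    · have h3 := h1 (L (w g)) [g] (hL1 _) (by simpa using hg) (by simpa [hL2] using hw g hg)
      simpa using h3

end Pool.Agent.CL
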