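import Pool.Agent.P.MP_63735c_ag.CCB6

/-! The displacements span the annihilator of the periods. -/

open scoped Matrix
open Set Filter Topology

namespace Pool.Agent.CL

open Pool.Agent.SPF LGrp

variable {n : ℕ} {D : LGrp}

/-- A linear form on the continuous dual is an evaluation. -/
lemma ccb7_eval (φ : Module.Dual ℝ (E n →L[ℝ] ℝ)) : ∃ v : E n, ∀ l, φ l = l v := by
  let e : Module.Dual ℝ (E n) ≃ₗ[ℝ] (E n →L[ℝ] ℝ) := LinearMap.toContinuousLinearMap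
  obtain ⟨v, hv⟩ := (Module.evalEquiv ℝ (E n)).surjective (φ ∘ₗ e.toLinearMap)
  refine ⟨v, fun l => ?_⟩
  have h1 := LinearMap.congr_fun hv (e.symm l)
  simp only [Module.evalEquiv_apply, Module.Dual.eval_apply, LinearMap.comp_apply,
    LinearEquiv.coe_coe, LinearEquiv.apply_symm_apply] at h1
  rw [← h1]
  rfl

namespace Lat

variable {A : CL1 n D} (Λ : Lat A)

theorem form_comb (hB : IsCB A) (hN : NoFlux A) {M : Matrix (Fin Λ.r) (Fin Λ.r) ℝ}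
    (h : Λ.Rp M fun g h => ((1 : ℂ) * (A.sg g h - A.sg h g)).re) :
    ∃ (K : Fin A.m ⊕ Fin A.r0 → Matrix (Fin Λ.r) (Fin Λ.r) ℝ) (ρ : Fin A.m ⊕ Fin A.r0 → ℝ),
      M = ∑ s, ρ s • K s ∧ ∀ s, Λ.Good (K s) := by
  obtain ⟨r, hr1, hr0⟩ := A.span1
  choose t τ K ht hK hR using Λ.form_b hB hN
  choose Mc hMc hGc using Λ.form_c hB
  have hs : ∀ x y, (∑ i, r i * t i (x + y)) = ∑ i, r i * t i x + ∑ i, r i * t i y := by
    intro x y
    have h0 := hr0 (A.ι x) (A.ι y) (D.le1 _) (D.le1 _)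
    simp only [ht, mul_add, Finset.sum_add_distrib, h0, add_zero]
  obtain ⟨τ', hτ'⟩ := add_hom (fun x => ∑ i, r i * t i x) hs
  refine ⟨Sum.elim K Mc, Sum.elim r (fun l => τ' l - ∑ i, r i * τ i l), ?_, ?_⟩
  · refine Λ.rp_ext h ?_
    intro g hg k hk
    have i1 := D.sm0 hg.1
    have i2 := D.sm0 hk.1
    have e1 := hr0 g k (D.le1 g) (D.le1 k)
    have e2 := hr0 k g (D.le1 k) (D.le1 g)
    have e3 := hr0 (comm g k) (k * g) (D.le1 _) (D.le1 _)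
    have e4 : ∑ i, r i * t i (A.cm g k) = ∑ l, τ' l * A.cm g k l := hτ' (A.cm g k)
    have e5 : ∑ i, r i * (A.c i * (A.sg g k - A.sg k g)).re =
        ((1 : ℂ) * (A.sg g k - A.sg k g)).re := by
      rw [← hr1, Finset.sum_mul, Complex.re_sum]
      exact Finset.sum_congr rfl fun i _ => by rw [mul_assoc, Complex.re_ofReal_mul]
    have e6 : ∑ i, r i * ∑ l, τ i l * (A.cm g k l : ℝ) =
        ∑ l, (∑ i, r i * τ i l) * (A.cm g k l : ℝ) := by
      simp only [Finset.mul_sum, Finset.sum_mul, mul_assoc]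
      exact Finset.sum_comm
    have e7 : ∀ i, cz (Λ.w g) ⬝ᵥ K i *ᵥ cz (Λ.w k) = (A.c i * (A.sg g k - A.sg k g)).re +
        (A.ka i g k - A.ka i k g - A.ka i (comm g k) (k * g)) - t i (A.cm g k) +
        ∑ l, τ i l * A.cm g k l := fun i => hR i g hg k hk
    have e8 : ∀ l, cz (Λ.w g) ⬝ᵥ Mc l *ᵥ cz (Λ.w k) = (A.cm g k l : ℝ) :=
      fun l => hMc l g hg k hk
    rw [Fintype.sum_sum_type]
    simp only [Sum.elim_inl, Sum.elim_inr, Matrix.add_mulVec, Matrix.sum_mulVec,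
      Matrix.smul_mulVec, dotProduct_add, dotProduct_sum, dotProduct_smul, smul_eq_mul, e7, e8,
      mul_add, mul_sub (r _), sub_mul, Finset.sum_add_distrib, Finset.sum_sub_distrib]
    rw [e1, e2, e3, e4, e5, e6]
    ring
  · rintro (i | l)
    · exact hK i
    · exact hGc l

theorem ann (hB : IsCB A) (hN : NoFlux A) {v : E n} (hv : ∀ x, Λ.θ x v = 0) : v ∈ A.V0 := by
  by_contra hn
  obtain ⟨M, hM, -, -⟩ := Λ.form_s hB 1
  obtain ⟨K, ρ, hKρ, hG⟩ := Λ.form_comb hB hN hM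
  refine la2 (LinearMap.ker Λ.θ) M (fun m hm => Λ.θ_inj m hm) ?_ ?_ K ρ hKρ
    fun s => ⟨(hG s).1, (hG s).2.1, fun f hf f' hf' => (hG s).2.2 f f' hf hf'⟩
  · intro l hl
    obtain ⟨v', hv'⟩ := Λ.eval_of_ker (dotProductBilin ℝ ℝ l) fun f hf => hl f hf
    obtain ⟨f, hf, hr⟩ := Λ.rep1 (-v')
    refine ⟨f, hf, ?_⟩
    refine dotProduct_eq _ _ fun x => ?_
    have h1 := Λ.form_one hM hr x
    have h2 : l ⬝ᵥ x = Λ.θ x v' := hv' x
    rw [dotProduct_comm, h1, h2, map_neg, neg_neg]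
  · obtain ⟨f, hf, hr⟩ := Λ.rep1 v
    refine ⟨f, hf, ?_, ?_⟩
    · rintro rfl
      exact hn (Λ.rep3 hB hr)
    · refine dotProduct_eq _ _ fun x => ?_
      rw [dotProduct_comm, Λ.form_one hM hr x, hv x, neg_zero, zero_dotProduct]

theorem ann' (hB : IsCB A) (hN : NoFlux A) (l : E n →L[ℝ] ℝ) (hl : ∀ v ∈ A.V0, l v = 0) :
    ∃ x, Λ.θ x = l := by
  by_contra hn
  have hl' : l ∉ LinearMap.range Λ.θ := hn
  obtain ⟨φ, h1, h2⟩ := (LinearMap.range Λ.θ).exists_dual_map_eq_bot_of_notMem hl' inferInstance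
  obtain ⟨v, hv⟩ := ccb7_eval φ
  refine h1 ?_
  rw [hv]
  refine hl v (Λ.ann hB hN fun x => ?_)
  rw [← hv]
  have h3 : φ (Λ.θ x) ∈ (LinearMap.range Λ.θ).map φ := ⟨Λ.θ x, ⟨x, rfl⟩, rfl⟩
  rw [h2] at h3
  exact h3

end Lat

end Pool.Agent.CL
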