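import Pool.Agent.P.MP_63735c_ag.CCB7
import Pool.Agent.P.MP_63735c_ag.CCA5

/-! The periods span. -/

open scoped Matrix
open Set Filter Topology

namespace Pool.Agent.CL

open Pool.Agent.SPF LGrp

variable {n : ℕ} {D : LGrp}

lemma ccb8_zero {a K s0 : ℝ} (h0 : 0 < s0) (h : ∀ s, 0 < s → s ≤ s0 → |a| ≤ K * s) : a = 0 := by
  by_contra ha
  have hp : 0 < |a| := abs_pos.2 ha
  have hK : 0 < |K| + 1 := by positivity
  have h1 := h (min s0 (|a| / (|K| + 1))) (lt_min h0 (div_pos hp hK)) (min_le_left _ _)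
  have h2 : 0 < min s0 (|a| / (|K| + 1)) := lt_min h0 (div_pos hp hK)
  have h3 : min s0 (|a| / (|K| + 1)) * (|K| + 1) ≤ |a| :=
    (le_div_iff₀ hK).1 (min_le_right _ _)
  have h4 := le_abs_self K
  nlinarith

lemma ccb8_bil (e : E n →L[ℝ] E n →L[ℝ] ℝ) (u u' p q : E n) {K s : ℝ} (hK : 0 ≤ K) (hs : 0 < s)
    (hs1 : s ≤ 1) (hp : ‖p - s • u‖ ≤ K * s ^ 2) (hq : ‖q - s • u'‖ ≤ K * s ^ 2) :
    |e p q - s ^ 2 * e u u'| ≤ ‖e‖ * K * (‖u'‖ + K + ‖u‖) * s ^ 3 := by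
  have e1 : e p q - s ^ 2 * e u u' = e (p - s • u) q + e (s • u) (q - s • u') := by
    simp only [map_sub, map_smul, _root_.sub_apply, _root_.smul_apply,
      smul_eq_mul]
    ring
  have hsu : ‖s • u‖ = s * ‖u‖ := by rw [norm_smul, Real.norm_of_nonneg hs.le]
  have hsu' : ‖s • u'‖ = s * ‖u'‖ := by rw [norm_smul, Real.norm_of_nonneg hs.le]
  have hq' : ‖q‖ ≤ s * (‖u'‖ + K) := by
    have h1 : ‖q‖ ≤ ‖q - s • u'‖ + ‖s • u'‖ := by simpa using norm_add_le (q - s • u') (s • u')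
    have h2 : K * s ^ 2 ≤ K * s := mul_le_mul_of_nonneg_left (by nlinarith) hK
    nlinarith
  have b1 : |e (p - s • u) q| ≤ ‖e‖ * (K * s ^ 2) * (s * (‖u'‖ + K)) := by
    refine (e.le_opNorm₂ _ _).trans ?_
    gcongr
  have b2 : |e (s • u) (q - s • u')| ≤ ‖e‖ * (s * ‖u‖) * (K * s ^ 2) := by
    refine (e.le_opNorm₂ _ _).trans ?_
    rw [hsu]
    gcongr
  rw [e1]
  refine (abs_add_le _ _).trans ((add_le_add b1 b2).trans (le_of_eq ?_))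
  ring

namespace Lat

variable {A : CL1 n D} (Λ : Lat A)

lemma ccb8_approx (x : Fin Λ.r → ℝ) : ∃ s0 > (0 : ℝ), s0 ≤ 1 ∧ ∀ s, 0 < s → s ≤ s0 →
    ∃ g ∈ A.S Λ.d, ‖A.th g - s • Λ.θ x‖ ≤ s ^ 2 ∧ ‖A.th g‖ ≤ (‖Λ.θ x‖ + 1) * s := by
  have hd := Λ.d_pos
  have hn : 0 < ‖Λ.θ x‖ + 1 := by positivity
  refine ⟨min 1 (Λ.d / (‖Λ.θ x‖ + 1)), lt_min one_pos (div_pos hd hn), min_le_left _ _, ?_⟩
  intro s hs hs0
  have hs1 : s ≤ 1 := hs0.trans (min_le_left _ _)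
  have hs2 : s * (‖Λ.θ x‖ + 1) ≤ Λ.d := (le_div_iff₀ hn).1 (hs0.trans (min_le_right _ _))
  have hsm : ‖s • Λ.θ x‖ = s * ‖Λ.θ x‖ := by rw [norm_smul, Real.norm_of_nonneg hs.le]
  obtain ⟨g, hg, h⟩ := Λ.approx (s • x) (by rw [map_smul, hsm]; nlinarith) (pow_pos hs 2)
  rw [map_smul] at h
  refine ⟨g, hg, h, ?_⟩
  have h1 : ‖A.th g‖ ≤ ‖A.th g - s • Λ.θ x‖ + ‖s • Λ.θ x‖ := by
    simpa using norm_add_le (A.th g - s • Λ.θ x) (s • Λ.θ x)
  nlinarith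

lemma ccb8_u (hB : IsCB A) (u : E n) (x : Fin Λ.r → ℝ) (hx : ∀ v, Λ.θ x v = (v ⬝ᵥ u).re) :
    ∃ s0 > (0 : ℝ), ∃ K, 0 ≤ K ∧ s0 ≤ 1 ∧ ∀ s, 0 < s → s ≤ s0 →
      ∃ g ∈ A.S Λ.d, ‖A.u g - s • u‖ ≤ K * s ^ 2 ∧ D.sz g ≤ K * s := by
  obtain ⟨s0, h0, h1, h⟩ := Λ.ccb8_approx x
  obtain ⟨C1, hC1, hZ⟩ := A.Z_u
  obtain ⟨C2, hC2, hu⟩ := hB.u_th
  obtain ⟨C3, hC3, hsz⟩ := hB.sz_th
  set t := ‖Λ.θ x‖ + 1 with ht
  have ht0 : 0 < t := by positivity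
  refine ⟨s0, h0, 1 + C1 * (C2 * t) ^ 2 + C3 * t, by positivity, h1, fun s hs hs0 => ?_⟩
  obtain ⟨g, hg, ha, hb⟩ := h s hs hs0
  have := D.sm0 hg.1
  refine ⟨g, hg, ?_, ?_⟩
  · obtain ⟨v, hv, hvw⟩ := exists_dual (A.u g - s • u)
    have e1 : (v ⬝ᵥ (A.u g - s • u)).re =
        (A.th g - s • Λ.θ x) v - (A.Z g v - v ⬝ᵥ A.u g).re := by
      simp [hx, CL1.th, dotProduct_sub, dotProduct_smul]
    have b1 : |(A.th g - s • Λ.θ x) v| ≤ s ^ 2 := by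
      refine ((A.th g - s • Λ.θ x).le_opNorm v).trans ?_
      calc _ ≤ s ^ 2 * 1 := by gcongr
        _ = s ^ 2 := _root_.mul_one _
    have b2 : ‖A.u g‖ ≤ C2 * t * s := by
      refine (hu g).trans ?_
      rw [mul_assoc]
      gcongr
    have b3 : |(A.Z g v - v ⬝ᵥ A.u g).re| ≤ C1 * (C2 * t) ^ 2 * s ^ 2 := by
      refine (Complex.abs_re_le_norm _).trans ((hZ g v).trans ?_)
      calc _ ≤ C1 * (C2 * t * s) ^ 2 * 1 := by gcongr
        _ = _ := by ring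
    have b4 : 0 ≤ C3 * t * s ^ 2 := by positivity
    rw [← hvw, e1]
    have b5 := (abs_le.1 b1).2
    have b6 := (abs_le.1 b3).1
    nlinarith
  · have b1 : D.sz g ≤ C3 * t * s := by
      refine (hsz g).trans ?_
      rw [mul_assoc]
      gcongr
    have b2 : 0 ≤ (1 + C1 * (C2 * t) ^ 2) * s := by positivity
    nlinarith

include Λ

theorem V0_cx (hB : IsCB A) (hN : NoFlux A) {v : E n} (hv : v ∈ A.V0) :
    Complex.I • v ∈ A.V0 := by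
  refine Λ.ann hB hN fun x => ?_
  obtain ⟨s0, h0, h1, h⟩ := Λ.ccb8_approx x
  obtain ⟨C1, hC1, hI⟩ := A.th_I
  obtain ⟨C2, hC2, hu⟩ := hB.u_th
  set t := ‖Λ.θ x‖ + 1 with ht
  have ht0 : 0 < t := by positivity
  refine ccb8_zero (K := ‖Complex.I • v‖ + C1 * (C2 * t) ^ 2 * ‖v‖) h0 fun s hs hs0 => ?_
  obtain ⟨g, hg, ha, hb⟩ := h s hs hs0
  have := D.sm0 hg.1
  have b1 : |(A.th g - s • Λ.θ x) (Complex.I • v)| ≤ s ^ 2 * ‖Complex.I • v‖ := by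
    refine ((A.th g - s • Λ.θ x).le_opNorm _).trans ?_
    gcongr
  have b2 : ‖A.u g‖ ≤ C2 * t * s := by
    refine (hu g).trans ?_
    rw [mul_assoc]
    gcongr
  have b3 : |A.th g (Complex.I • v)| ≤ C1 * (C2 * t * s) ^ 2 * ‖v‖ := by
    refine (hI g v (A.Z_V0 g hv)).trans ?_
    gcongr
  have e1 : s * Λ.θ x (Complex.I • v) =
      A.th g (Complex.I • v) - (A.th g - s • Λ.θ x) (Complex.I • v) := by
    simp
  have b4 : s * |Λ.θ x (Complex.I • v)| ≤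
      s * ((‖Complex.I • v‖ + C1 * (C2 * t) ^ 2 * ‖v‖) * s) := by
    calc _ = |s * Λ.θ x (Complex.I • v)| := by rw [abs_mul, abs_of_pos hs]
      _ ≤ C1 * (C2 * t * s) ^ 2 * ‖v‖ + s ^ 2 * ‖Complex.I • v‖ := by
        rw [e1]
        exact (abs_sub _ _).trans (add_le_add b3 b1)
      _ = _ := by ring
  exact le_of_mul_le_mul_left b4 hs

theorem L_triv (hB : IsCB A) (hN : NoFlux A) (g : D.G) [D.Sm 10 g] (v : E n) :
    A.L g v = v := by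
  obtain ⟨vp, c, hc, hpos, hinv⟩ := A.exists_vp
  have hy : A.L g v - v ∈ A.V0 := hB.X_mem g v
  have hy' := Λ.V0_cx hB hN hy
  have h1 := hinv g v (Complex.I • (A.L g v - v))
  rw [A.L_V0 g hy'] at h1
  have h2 : vp (A.L g v - v) (Complex.I • (A.L g v - v)) = 0 := by
    rw [vp.map_sub, _root_.sub_apply, h1, sub_self]
  have h3 := hpos (A.L g v - v)
  rw [h2, abs_zero] at h3
  have h4 : ‖A.L g v - v‖ ^ 2 ≤ 0 := by
    by_contra h5
    have := mul_pos hc (not_le.1 h5)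
    linarith
  have h6 : ‖A.L g v - v‖ = 0 := pow_eq_zero_iff (two_ne_zero) |>.1 (le_antisymm h4 (sq_nonneg _))
  exact sub_eq_zero.1 (norm_eq_zero.1 h6)

theorem V0_top (hB : IsCB A) (hN : NoFlux A) : A.V0 = ⊤ := by
  by_contra hne
  obtain ⟨l0, hl0, hker⟩ := Submodule.exists_le_ker_of_lt_top A.V0 (lt_top_iff_ne_top.2 hne)
  let l : E n →L[ℝ] ℝ := LinearMap.toContinuousLinearMap l0
  have hl : ∀ v ∈ A.V0, l v = 0 := fun v hv => hker hv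
  obtain ⟨u, hu⟩ := exists_repr l
  have hu0 : u ≠ 0 := by
    rintro rfl
    refine hl0 (LinearMap.ext fun v => ?_)
    have := hu v
    simpa [l] using this
  let J : E n →L[ℝ] E n := (Complex.I • ContinuousLinearMap.id ℂ (E n)).restrictScalars ℝ
  have hJ : ∀ v, J v = Complex.I • v := fun v => rfl
  obtain ⟨x, hx⟩ := Λ.ann' hB hN l hl
  obtain ⟨x', hx'⟩ := Λ.ann' hB hN (l.comp J) fun v hv => hl _ (Λ.V0_cx hB hN hv)
  obtain ⟨s1, h1, K1, hK1, h11, hg⟩ := Λ.ccb8_u hB u x fun v => by rw [hx, hu]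
  obtain ⟨s2, h2, K2, hK2, -, hh⟩ := Λ.ccb8_u hB (Complex.I • u) x' fun v => by
    rw [hx', ContinuousLinearMap.comp_apply, hu, hJ, smul_dotProduct, dotProduct_smul]
  obtain ⟨C, hC, heta⟩ := A.eta
  set e := A.e0 u (Complex.I • u) with he
  set K := K1 + K2 with hK
  set M := C * K ^ 3 + ‖A.e0‖ * K * (‖Complex.I • u‖ + K + ‖u‖) with hM
  have hM0 : 0 ≤ M := by positivity
  have hden : 0 < |e| + M + 1 := by positivity
  refine A.e0_ne u hu0 (ccb8_zero (K := M) (s0 := min (min s1 s2) (1 / (|e| + M + 1)))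
    (lt_min (lt_min h1 h2) (by positivity)) fun s hs hs0 => ?_)
  have hs1 : s ≤ s1 := hs0.trans ((min_le_left _ _).trans (min_le_left _ _))
  have hs2 : s ≤ s2 := hs0.trans ((min_le_left _ _).trans (min_le_right _ _))
  have hs3 : s * (|e| + M + 1) ≤ 1 := (le_div_iff₀ hden).1 (hs0.trans (min_le_right _ _))
  have hs4 : s ≤ 1 := hs1.trans h11
  obtain ⟨g, hgS, ga, gb⟩ := hg s hs hs1
  obtain ⟨h, hhS, ha, hb⟩ := hh s hs hs2
  have hcm : g * h = h * g := Λ.commute hB (fun k hk v => by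
    have := D.sm0 hk.1
    exact Λ.L_triv hB hN k v) hgS hhS
  obtain ⟨k, hk⟩ := heta g h (hgS.1.trans D.b_le_one) (hhS.1.trans D.b_le_one) hcm
  have hsq := sq_nonneg s
  have b1 := ccb8_bil A.e0 u (Complex.I • u) (A.u g) (A.u h) (K := K) (by positivity) hs hs4
    (ga.trans (by nlinarith)) (ha.trans (by nlinarith))
  have b2 : C * (D.sz g + D.sz h) ^ 3 ≤ C * (K * s) ^ 3 := by
    have := D.sz_nonneg g
    have := D.sz_nonneg h
    gcongr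
    rw [hK]
    linarith
  have b3 : |(k : ℝ) - s ^ 2 * e| ≤ M * s ^ 3 := by
    calc _ = |((k : ℝ) - A.e0 (A.u g) (A.u h)) + (A.e0 (A.u g) (A.u h) - s ^ 2 * e)| := by
          congr 1; ring
      _ ≤ C * (K * s) ^ 3 + ‖A.e0‖ * K * (‖Complex.I • u‖ + K + ‖u‖) * s ^ 3 :=
          (abs_add_le _ _).trans (add_le_add (hk.trans b2) b1)
      _ = M * s ^ 3 := by rw [hM]; ring
  have hse : |s ^ 2 * e| = s ^ 2 * |e| := by rw [abs_mul, abs_of_nonneg hsq]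
  have hk0 : k = 0 := by
    have c1 : |(k : ℝ)| ≤ |(k : ℝ) - s ^ 2 * e| + |s ^ 2 * e| := by
      have c0 := abs_add_le ((k : ℝ) - s ^ 2 * e) (s ^ 2 * e)
      rwa [sub_add_cancel] at c0
    have c2 : s ^ 2 ≤ s := by nlinarith
    have c3 : s ^ 3 ≤ s := by nlinarith
    have c4 : s ^ 2 * |e| ≤ s * |e| := mul_le_mul_of_nonneg_right c2 (abs_nonneg e)
    have c5 : M * s ^ 3 ≤ M * s := mul_le_mul_of_nonneg_left c3 hM0
    have c6 : |(k : ℝ)| < 1 := by nlinarith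
    have c7 : |k| < 1 := by exact_mod_cast c6
    exact Int.abs_lt_one_iff.1 c7
  rw [hk0, Int.cast_zero, zero_sub, abs_neg, hse] at b3
  have b4 : s ^ 2 * |e| ≤ s ^ 2 * (M * s) := by nlinarith
  exact le_of_mul_le_mul_left b4 (pow_pos hs 2)

end Lat

end Pool.Agent.CL
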