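import Pool.Agent.P.MP_63735c_ag.CCGeo

/-! Germs of small returns. -/

open scoped ContDiff Matrix
open Set Metric MeasureTheory Filter Topology

namespace Pool.Agent.CL

open Pool.Agent.SPF LGrp

variable {n : ℕ} {X : Type} [TopologicalSpace X] [T2Space X] [MeasurableSpace X]
  {S : Setup n X}

namespace Setup

variable (S) {j j' : S.G.G} {α α' : E n → E n} {y : E n}

omit [T2Space X] in
lemma ccg1_move (hj : S.G.lg.sz j ≤ S.G.lg.ε) {a b : ℝ} (ha : a ≤ 2 * S.G.r)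
    (hb : a + S.G.r / 16 ≤ b) (hy : y ∈ ball S.G.y0 a) : S.G.γ j y ∈ ball S.G.y0 b := by
  have h1 := (S.G.near j hj y (ball_subset_ball ha hy)).1
  have h2 := S.G.small.trans (min_le_left _ _)
  have h3 := mul_le_mul_of_nonneg_left hj (zero_le_one.trans S.G.lg.L_ge)
  rw [mem_ball, dist_eq_norm] at hy ⊢
  have := norm_sub_le_norm_sub_add_norm_sub (S.G.γ j y) y S.G.y0
  linarith

omit [T2Space X] in
lemma ccg1_zero {N U : E n →L[ℂ] E n} (h : ∀ ξ u, N ξ ⬝ᵥ U u = ξ ⬝ᵥ u) {a b c : E n}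
    (e : N (a - b) = c) : b = a - tr U c := by
  rw [← e, (pair_inv h).2.1, sub_sub_cancel]

theorem c_gm {g : Ret n} (hy : y ∈ ball S.G.y0 (2 * S.G.r)) (hg : Germ S.M.T S.M.Ψ y g)
    (he : g.γ =ᶠ[𝓝 y] S.G.γ j) : S.Gm y j g.α := by
  have hN := hg.N_eq he (by
    filter_upwards [isOpen_ball.mem_nhds hy] with x hx using S.G.pair j x hx)
  refine hg.congr ?_
  filter_upwards [he, hN] with x e1 e2 using ⟨e1, rfl, e2⟩

theorem c_uniq (hy : y ∈ ball S.G.y0 (2 * S.G.r)) (h : S.Gm y j α) (h' : S.Gm y j' α')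
    (he : S.M.C0 * ‖α y - α' y‖ < 2 * S.M.c0) : j = j' ∧ α =ᶠ[𝓝 y] α' := by
  have h1 := S.M.sep0 h h' he
  exact ⟨S.G.eq_of_germ hy (h1.mono fun x hx => hx.1), h1.mono fun x hx => hx.2.1⟩

theorem c_chain (hj : S.G.lg.sz j ≤ S.G.lg.ε) (hj' : S.G.lg.sz j' ≤ S.G.lg.ε)
    (hy : y ∈ ball S.G.y0 (3 / 2 * S.G.r)) :
    fderiv ℂ (S.G.γ (S.G.lg.mul j j')) y =
      (fderiv ℂ (S.G.γ j) (S.G.γ j' y)).comp (fderiv ℂ (S.G.γ j') y) ∧
    S.G.N (S.G.lg.mul j j') y = (S.G.N j (S.G.γ j' y)).comp (S.G.N j' y) := by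
  have hr := S.G.r_pos
  have hy2 : y ∈ ball S.G.y0 (2 * S.G.r) := ball_subset_ball (by linarith) hy
  have hy' : S.G.γ j' y ∈ ball S.G.y0 (2 * S.G.r) :=
    S.ccg1_move hj' (by linarith) (by linarith) hy
  have e : S.G.γ (S.G.lg.mul j j') =ᶠ[𝓝 y] S.G.γ j ∘ S.G.γ j' := by
    filter_upwards [isOpen_ball.mem_nhds hy] with x hx using S.G.γ_mul j j' hj hj' x hx
  have e1 : fderiv ℂ (S.G.γ (S.G.lg.mul j j')) y =
      (fderiv ℂ (S.G.γ j) (S.G.γ j' y)).comp (fderiv ℂ (S.G.γ j') y) := by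
    rw [e.fderiv_eq]
    exact fderiv_comp y ((S.G.γ_hol j).differentiableAt (isOpen_ball.mem_nhds hy'))
      ((S.G.γ_hol j').differentiableAt (isOpen_ball.mem_nhds hy2))
  refine ⟨e1, clret_ext fun ξ u => ?_⟩
  obtain ⟨v, rfl⟩ := (pair_inv (S.G.pair (S.G.lg.mul j j') y hy2)).2.2.2 u
  rw [S.G.pair _ y hy2, e1]
  exact ((S.G.pair j _ hy' _ _).trans (S.G.pair j' y hy2 ξ v)).symm

theorem c_one (hy : y ∈ ball S.G.y0 (2 * S.G.r)) :
    fderiv ℂ (S.G.γ S.G.lg.one) y = 1 ∧ S.G.N S.G.lg.one y = 1 ∧ S.Gm y S.G.lg.one fun _ => 0 := by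
  have e : S.G.γ S.G.lg.one = fun y => y := funext S.G.γ_one
  have e1 : fderiv ℂ (S.G.γ S.G.lg.one) y = 1 := by
    rw [e]
    exact fderiv_id
  refine ⟨e1, clret_ext fun ξ u => ?_, ?_⟩
  · have := S.G.pair S.G.lg.one y hy ξ u
    rwa [e1] at this
  · refine S.c_gm (g := Ret.per fun _ => 0) hy
      ⟨_, isRet_one S.M.T_open, S.G.mem (by linarith [S.G.r_pos]) hy⟩ ?_
    rw [e]
    rfl

theorem c_mul (hj : S.G.lg.sz j ≤ S.G.lg.ε) (hj' : S.G.lg.sz j' ≤ S.G.lg.ε)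
    (hy : y ∈ ball S.G.y0 (3 / 2 * S.G.r)) (h' : S.Gm y j' α') (h : S.Gm (S.G.γ j' y) j α) :
    S.Gm y (S.G.lg.mul j j') fun x => α' x + tr (fderiv ℂ (S.G.γ j') x) (α (S.G.γ j' x)) := by
  refine S.c_gm (g := (S.rt j α).comp (S.rt j' α'))
    (ball_subset_ball (by linarith [S.G.r_pos]) hy) (Germ.comp h' h).1 ?_
  filter_upwards [isOpen_ball.mem_nhds hy] with x hx using (S.G.γ_mul j j' hj hj' x hx).symm

/-- Division on the left. -/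
theorem c_div {i : S.G.G} {β : E n → E n} (hi : S.G.lg.L ^ 2 * S.G.lg.sz i ≤ S.G.lg.ε)
    (hj : S.G.lg.sz j ≤ S.G.lg.ε) (hk : S.G.lg.sz (S.G.lg.mul (S.G.lg.inv i) j) ≤ S.G.lg.ε)
    (hy : y ∈ ball S.G.y0 S.G.r) (h : S.Gm y j α)
    (h' : S.Gm (S.G.γ (S.G.lg.mul (S.G.lg.inv i) j) y) i β) :
    ∃ α', S.Gm y (S.G.lg.mul (S.G.lg.inv i) j) α' ∧ α' y = α y -
      tr (fderiv ℂ (S.G.γ (S.G.lg.mul (S.G.lg.inv i) j)) y)
        (β (S.G.γ (S.G.lg.mul (S.G.lg.inv i) j) y)) := by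
  have hr := S.G.r_pos
  have hL := S.G.lg.L_ge
  have h0 : 0 ≤ S.G.lg.sz i := norm_nonneg _
  have hi0 : S.G.lg.L * S.G.lg.sz i ≤ S.G.lg.ε := by
    nlinarith [mul_nonneg (by linarith : 0 ≤ S.G.lg.L) h0]
  have hi1 : S.G.lg.sz i ≤ S.G.lg.ε := by nlinarith
  obtain ⟨-, -, -, -, b1, b2⟩ := S.G.lg.basic hi1 hj
  have hi2 := b1.trans hi0
  have b3 := (b2 hi).2.2.1
  generalize S.G.lg.mul (S.G.lg.inv i) j = j' at hk h' b3 ⊢
  have hm : ∀ x ∈ ball S.G.y0 S.G.r, S.G.γ j' x ∈ ball S.G.y0 (3 / 2 * S.G.r) := fun x hx =>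
    S.ccg1_move hk (by linarith) (by linarith) hx
  have hc : ∀ x ∈ ball S.G.y0 S.G.r, S.G.γ j x = S.G.γ i (S.G.γ j' x) := fun x hx => by
    rw [← b3]
    exact S.G.γ_mul i j' hi1 hk x (ball_subset_ball (by linarith) hx)
  have hinv : ∀ w ∈ ball S.G.y0 (3 / 2 * S.G.r), S.G.γ (S.G.lg.inv i) (S.G.γ i w) = w :=
    fun w hw => by rw [← S.G.γ_mul _ _ hi2 hi1 w hw, S.G.lg.inv_mul i hi1, S.G.γ_one]
  obtain ⟨O, hO, hyO⟩ := id h
  obtain ⟨O', hO', hyO'⟩ := id h'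
  have e1 := hO.eq y hyO (α y)
  have e2 := hO'.eq _ hyO' (β (S.G.γ j' y))
  simp only [Ret.act, Setup.rt, sub_self, map_zero] at e1 e2
  obtain ⟨k, hk', e3⟩ := S.M.ret (y, α y) (S.G.γ j' y, β (S.G.γ j' y)) (hO.sub hyO)
    (hO'.sub hyO') (by rw [← e1, ← e2, hc y hy])
  simp only [Ret.act, Prod.mk.injEq] at e3
  obtain ⟨U, hU, hyU⟩ := id hk'
  have e4 := ccg1_zero (hU.pair y hyU) e3.2
  have g1 : Germ S.M.T S.M.Ψ y ((S.rt i β).comp k) := (Germ.comp hk' (e3.1.symm ▸ h')).1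
  have e5 := S.M.sep0 g1 h (by
    have e6 : ((S.rt i β).comp k).α y = (S.rt j α).α y := by
      simp only [Ret.comp, Setup.rt, e3.1]
      exact (eq_sub_iff_add_eq).1 e4
    rw [e6, sub_self, norm_zero, mul_zero]
    linarith [S.M.c0_pos])
  have c1 : ContinuousAt k.γ y := hU.γ_hol.continuousOn.continuousAt (hU.isOpen.mem_nhds hyU)
  have e7 : k.γ =ᶠ[𝓝 y] S.G.γ j' := by
    filter_upwards [e5, isOpen_ball.mem_nhds hy,
      c1.eventually_mem (isOpen_ball.mem_nhds (e3.1.symm ▸ hm y hy))] with x h1 hx h2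
    have h3 : S.G.γ i (k.γ x) = S.G.γ j x := h1.1
    rw [← hinv _ h2, h3, hc x hx, hinv _ (hm x hx)]
  refine ⟨k.α, S.c_gm (ball_subset_ball (by linarith) hy) hk' e7, ?_⟩
  rw [← e7.fderiv_eq]
  exact e4

/-- The step between two germs at the same point. -/
theorem c_step {g g' : Ret n} (h : Germ S.M.T S.M.Ψ y g) (h' : Germ S.M.T S.M.Ψ y g') :
    ∃ k, Germ S.M.T S.M.Ψ (g'.γ y) k ∧ k.γ (g'.γ y) = g.γ y ∧
      ‖k.α (g'.γ y)‖ ≤ S.M.C0 * ‖g.α y - g'.α y‖ ∧ ∀ k', Ret.Eq (g'.γ y) k k' →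
        Ret.Eq y (k'.comp g') g := by
  obtain ⟨O, hO, hy⟩ := id h
  obtain ⟨O', hO', hy'⟩ := id h'
  have e1 := hO.eq y hy (g.α y)
  have e2 := hO'.eq y hy' (g.α y)
  simp only [Ret.act, sub_self, map_zero] at e1 e2
  obtain ⟨k, hk, e3⟩ := S.M.ret (g'.γ y, g'.N y (g.α y - g'.α y)) (g.γ y, 0) (hO'.maps hy')
    (hO.maps hy) (e2.trans e1.symm)
  simp only [Ret.act, Prod.mk.injEq] at e3
  obtain ⟨U, hU, hyU⟩ := id hk
  have e4 := ccg1_zero (hU.pair _ hyU) e3.2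
  rw [map_zero, sub_zero] at e4
  refine ⟨k, hk, e3.1, ?_, fun k' hk' => S.M.sep0 (h'.comp (hk.congr hk')).1 h ?_⟩
  · rw [e4]
    exact (g'.N y).le_of_opNorm_le (S.M.bd O' g' hO' y hy').2.1 _
  · have e5 : (k'.comp g').α y = g.α y := by
      simp only [Ret.comp]
      rw [← hk'.self_of_nhds.2.1, e4, (pair_inv (hO'.pair y hy')).2.1, add_sub_cancel]
    rw [e5, sub_self, norm_zero, mul_zero]
    linarith [S.M.c0_pos]

theorem c_pres (hj : S.G.lg.sz j ≤ S.G.lg.ε) (hy : y ∈ ball S.G.y0 (2 * S.G.r)) (h : S.Gm y j α)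
    (m : Fin S.Q.r0 → ℤ) {x : E n} (hx : x ∈ ball S.G.y0 (2 * S.G.r)) :
    tr (fderiv ℂ (S.G.γ j) x) (zm S.Q.z m (S.G.γ j x)) = zm S.Q.z m x := by
  have e : zm S.Q.z m (S.G.γ j x) = S.G.N j x (zm S.Q.z m x) := by
    simp only [zm, map_sum, map_smul, S.pres j hj y hy _ h (EventuallyEq.refl _ _) _ x hx]
  rw [e, (pair_inv (S.G.pair j x hx)).2.1]

theorem c_chi (hj : S.G.lg.sz j ≤ S.G.lg.ε) (hy : y ∈ ball S.G.y0 (2 * S.G.r)) (h : S.Gm y j α)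
    (k : Fin S.Q.r0) {x : E n} (hx : x ∈ ball S.G.y0 (2 * S.G.r)) :
    hprim (S.Q.z k) S.G.y0 (S.G.γ j x) - hprim (S.Q.z k) S.G.y0 x = S.chi j k := by
  have hr := S.G.r_pos
  have h0 : S.G.y0 ∈ ball S.G.y0 (2 * S.G.r) := mem_ball_self (by linarith)
  have hd : ∀ w ∈ S.M.T, HasFDerivAt (hprim (S.Q.z k) S.G.y0) (dl (S.Q.z k w)) w := fun w hw =>
    hprim_deriv S.M.T_open S.M.T_conv (S.Q.per0.z_ret k).α_hol
      (S.M.closed _ _ (S.Q.per0.z_ret k)) (S.G.mem (by linarith) h0) hw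
  have hF : ∀ w ∈ ball S.G.y0 (2 * S.G.r), HasFDerivAt
      (fun w => hprim (S.Q.z k) S.G.y0 (S.G.γ j w) - hprim (S.Q.z k) S.G.y0 w)
      (0 : E n →L[ℂ] ℂ) w := by
    intro w hw
    have d1 := ((hd _ (S.G.mem (by linarith) (S.G.move hj hw))).comp w
      ((S.G.γ_hol j).differentiableAt (isOpen_ball.mem_nhds hw)).hasFDerivAt).sub
      (hd w (S.G.mem (by linarith) hw))
    refine d1.congr_fderiv (ContinuousLinearMap.ext fun u => ?_)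
    have e := S.G.pair j w hw (S.Q.z k w) u
    rw [S.pres j hj y hy _ h (EventuallyEq.refl _ _) k w hw] at e
    simp [dl_apply, e]
  have e := isOpen_ball.is_const_of_fderiv_eq_zero (𝕜 := ℂ) (convex_ball _ _).isPreconnected
    (fun w hw => (hF w hw).differentiableAt.differentiableWithinAt)
    (fun w hw => (hF w hw).fderiv) hx h0
  rw [e]
  simp [Setup.chi, hprim]

theorem c_dN : ∃ C, 0 ≤ C ∧ ∀ j, S.G.lg.sz j ≤ S.G.lg.ε → ∀ x ∈ ball S.G.y0 S.G.r,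
    ‖fderiv ℂ (S.G.N j) x‖ ≤ C * S.G.lg.sz j := by
  have hr := S.G.r_pos
  have hL := S.G.lg.L_ge
  refine ⟨S.G.lg.L / S.G.r, by positivity, fun j hj x hx => ?_⟩
  have hs : ball x S.G.r ⊆ ball S.G.y0 (2 * S.G.r) :=
    ball_subset_ball' (by rw [mem_ball] at hx; linarith)
  have h1 := cauchy (f := fun w => S.G.N j w - 1) hr (((S.G.N_hol j).mono hs).sub_const 1)
    fun w hw => (S.G.near j hj w (hs hw)).2.2.2
  rw [fderiv_sub_const] at h1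
  rwa [div_mul_eq_mul_div]

end Setup

end Pool.Agent.CL
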