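import Pool.Agent.P.MP_63735c_ag.CCG1

/-! Density of very small returns; the primitives of the periods are invariant. -/

open scoped ContDiff Matrix
open Set Metric MeasureTheory Filter Topology

namespace Pool.Agent.CL

open Pool.Agent.SPF LGrp

variable {n : ℕ} {X : Type} [TopologicalSpace X] [T2Space X] [MeasurableSpace X]
  {S : Setup n X}

lemma ccg3_open (M : Model n X) {y : E n} {g : Ret n} (hg : Germ M.T M.Ψ y g) {p : E n → Prop}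
    (h : ∀ᶠ w in 𝓝 y, p (g.γ w)) : ∀ᶠ u in 𝓝 (g.γ y), p u := by
  obtain ⟨g', ⟨O, hO, hy⟩, h1, h2⟩ := M.inv hg
  have c1 : ContinuousAt g'.γ (g.γ y) :=
    hO.γ_hol.continuousOn.continuousAt (hO.isOpen.mem_nhds hy)
  have c2 : Tendsto g'.γ (𝓝 (g.γ y)) (𝓝 y) := by
    have := c1.tendsto
    rwa [h1.self_of_nhds.1] at this
  filter_upwards [c2.eventually h, h2] with u a1 a2
  rwa [a2.1] at a1

omit [T2Space X] in
lemma ccg3_phi (S : Setup n X) (k : Fin S.Q.r0) :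
    DifferentiableOn ℂ (hprim (S.Q.z k) S.G.y0) S.M.T := by
  intro y hy
  have h0 := S.Q.per0.z_ret k
  have hy0 : S.G.y0 ∈ S.M.T := S.G.sub (mem_closedBall_self (by linarith [S.G.r_pos]))
  exact (hprim_deriv S.M.T_open S.M.T_conv h0.α_hol (S.M.closed _ _ h0) hy0
    hy).differentiableAt.differentiableWithinAt

namespace Loc

variable (l : Loc S)

omit [T2Space X] in
lemma ccg3_y1 : l.y1 ∈ ball S.G.y0 (S.G.r / 2) :=
  l.sub (mem_ball_self (by linarith [l.ρ_pos]))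

omit [T2Space X] in
lemma ccg3_δ : l.δ ≤ S.G.lg.ε ∧ S.G.lg.L ^ 2 * l.δ ≤ S.G.lg.ε := by
  have hL := S.G.lg.L_ge
  have h1 := l.δ_le
  have h2 := l.δ_pos
  have h3 : (1 : ℝ) ≤ S.G.lg.L ^ 2 := one_le_pow₀ hL
  have h4 : S.G.lg.L ^ 2 ≤ S.G.lg.L ^ 3 := pow_le_pow_right₀ hL (by norm_num)
  have h5 := mul_le_mul_of_nonneg_right h3 h2.le
  have h6 := mul_le_mul_of_nonneg_right h4 h2.le
  constructor <;> linarith

theorem mem_r {x : E n} (hx : x ∈ ball l.y1 (8 * l.ρ)) :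
    x ∈ ball S.G.y0 (3 / 2 * S.G.r) ∧ x ∈ S.M.T := by
  have h1 := l.ccg3_y1
  have h2 := l.ρ_le.trans (min_le_left _ _)
  have h3 : x ∈ ball S.G.y0 (3 / 2 * S.G.r) := by
    rw [mem_ball] at hx h1 ⊢
    linarith [dist_triangle x l.y1 S.G.y0]
  exact ⟨h3, S.G.mem (by linarith [S.G.r_pos]) h3⟩

theorem syn {ε : ℝ} (hε : 0 < ε) : ∃ C, ∀ ξ, ∃ j α, S.G.lg.sz j ≤ ε ∧ S.Gm l.y1 j α ∧
    ‖α l.y1 - ξ‖ ≤ C := by
  have hL := S.G.lg.L_ge
  have hL0 : 0 < S.G.lg.L := by linarith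
  have hρ := l.ρ_pos
  have hr := S.G.r_pos
  have hC0 := S.M.C0_ge
  have hC := l.C_ge
  obtain ⟨d1, d2⟩ := l.ccg3_δ
  have hy1 : l.y1 ∈ ball l.y1 (4 * l.ρ) := mem_ball_self (by linarith)
  have hy : l.y1 ∈ ball S.G.y0 S.G.r := ball_subset_ball (by linarith) l.ccg3_y1
  have hy2 : l.y1 ∈ ball S.G.y0 (2 * S.G.r) := ball_subset_ball (by linarith) hy
  obtain ⟨t, ht, t1, t2, t3⟩ : ∃ t > (0 : ℝ), t ≤ ε ∧ t ≤ S.G.lg.ε ∧ S.G.lg.L * t ≤ l.ρ :=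
    ⟨min (min ε S.G.lg.ε) (l.ρ / S.G.lg.L), lt_min (lt_min hε S.G.lg.ε_pos) (div_pos hρ hL0),
      (min_le_left _ _).trans (min_le_left _ _), (min_le_left _ _).trans (min_le_right _ _),
      (le_div_iff₀' hL0).1 (min_le_right _ _)⟩
  obtain ⟨K, hK, hKs, hnet⟩ := exists_net (fun p : S.G.G × (E n → E n) => S.G.lg.jt p.1)
    {p | S.G.lg.sz p.1 ≤ l.δ ∧ S.Gm l.y1 p.1 p.2} (x0 := S.G.lg.jt S.G.lg.one) (R := l.δ)
    (div_pos ht hL0) fun p hp => hp.1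
  obtain ⟨B, hB⟩ := (hK.image fun p => ‖p.2 l.y1‖).bddAbove
  refine ⟨l.C + S.M.C0 * (l.C * (1 + B)), fun ξ => ?_⟩
  obtain ⟨j, α, h1, h2, h3, -⟩ := l.kk l.y1 hy1 ξ
  obtain ⟨⟨i, β⟩, hi, h4⟩ := hnet (j, α) ⟨h1, h2⟩
  obtain ⟨h5, h6⟩ := hKs hi
  have h7 : ‖β l.y1‖ ≤ B := hB ⟨_, hi, rfl⟩
  simp only at h4 h5 h6
  have hi2 : S.G.lg.L ^ 2 * S.G.lg.sz i ≤ S.G.lg.ε :=
    (mul_le_mul_of_nonneg_left h5 (by positivity)).trans d2
  have hk : S.G.lg.sz (S.G.lg.mul (S.G.lg.inv i) j) ≤ t :=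
    ((S.G.lg.basic (h5.trans d1) (h1.trans d1)).2.2.2.2.2 hi2).2.1.trans
      ((le_div_iff₀' hL0).1 h4)
  obtain ⟨β', b1, -, b3⟩ := l.comp l.y1 hy1 i β h5 h6
  have hm : S.G.γ (S.G.lg.mul (S.G.lg.inv i) j) l.y1 ∈ ball l.y1 (4 * l.ρ) := by
    have := (S.G.near _ (hk.trans t2) l.y1 hy2).1
    have := mul_le_mul_of_nonneg_left hk hL0.le
    rw [mem_ball, dist_eq_norm]
    linarith
  obtain ⟨α', a1, a2⟩ := S.c_div hi2 (h1.trans d1) (hk.trans t2) hy h2 ⟨_, b1, hm⟩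
  refine ⟨_, α', hk.trans t1, a1, ?_⟩
  obtain ⟨O, hO, hyO⟩ := a1
  have a3 : ‖tr (fderiv ℂ (S.G.γ (S.G.lg.mul (S.G.lg.inv i) j)) l.y1)‖ ≤ S.M.C0 :=
    (S.M.bd O _ hO _ hyO).2.2
  have a4 := (b3 _ hm).trans (mul_le_mul_of_nonneg_left (add_le_add_right h7 1) (by linarith))
  have a5 := (ContinuousLinearMap.le_of_opNorm_le _ a3 _).trans
    (mul_le_mul_of_nonneg_left a4 (by linarith))
  rw [a2, sub_right_comm]
  exact (norm_sub_le _ _).trans (add_le_add h3 a5)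

theorem chi_zero : ∃ e > (0 : ℝ), ∀ j α, S.G.lg.sz j ≤ e → S.Gm l.y1 j α → S.chi j = 0 := by
  by_contra hne
  push Not at hne
  have hL := S.G.lg.L_ge
  have hρ := l.ρ_pos
  have hr := S.G.r_pos
  have hε := S.G.lg.ε_pos
  have hC0 := S.M.C0_ge
  obtain ⟨d1, -⟩ := l.ccg3_δ
  have hy1 : l.y1 ∈ ball l.y1 (4 * l.ρ) := mem_ball_self (by linarith)
  have hy2 : l.y1 ∈ ball S.G.y0 (2 * S.G.r) := ball_subset_ball (by linarith) l.ccg3_y1
  have hy0 : S.G.y0 ∈ ball S.G.y0 (2 * S.G.r) := mem_ball_self (by linarith)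
  choose j α h1 h2 h3 using fun k : ℕ => hne (min S.G.lg.ε (1 / ((k : ℝ) + 1)))
    (lt_min hε Nat.one_div_pos_of_nat)
  have j1 : ∀ k, S.G.lg.sz (j k) ≤ S.G.lg.ε := fun k => (h1 k).trans (min_le_left _ _)
  have j2 : Tendsto (fun k => S.G.lg.L * S.G.lg.sz (j k)) atTop (𝓝 0) := by
    have : Tendsto (fun k => S.G.lg.sz (j k)) atTop (𝓝 0) :=
      squeeze_zero (fun k => norm_nonneg _) (fun k => (h1 k).trans (min_le_right _ _))
        tendsto_one_div_add_atTop_nhds_zero_nat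
    simpa using this.const_mul S.G.lg.L
  have j3 : ∀ y ∈ ball S.G.y0 (2 * S.G.r), Tendsto (fun k => S.G.γ (j k) y) atTop (𝓝 y) :=
    fun y hy => tendsto_iff_norm_sub_tendsto_zero.2
      (squeeze_zero (fun k => norm_nonneg _) (fun k => (S.G.near _ (j1 k) y hy).1) j2)
  choose p β p1 p2 p3 p4 using fun k => l.kk l.y1 hy1 (α k l.y1)
  choose h q1 q2 q3 q4 using fun k => S.c_step (h2 k) (p2 k)
  have hU : (hyperfilter ℕ : Filter ℕ) ≤ atTop := Nat.hyperfilter_le_atTop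
  have hx : ∀ k, S.G.γ (p k) l.y1 ∈ closedBall S.G.y0 (4 * S.G.r) := fun k =>
    ball_subset_closedBall (ball_subset_ball (by linarith) (S.G.move ((p1 k).trans d1) hy2))
  obtain ⟨x, hxm, hxl⟩ := (isCompact_closedBall S.G.y0 (4 * S.G.r)).ultrafilter_le_nhds
    ((hyperfilter ℕ).map fun k => S.G.γ (p k) l.y1)
    (le_principal_iff.2 (mem_map.2 (univ_mem' hx)))
  obtain ⟨ξ, hξ⟩ := clhol_lim (hyperfilter ℕ) (a := fun k => (h k).α (S.G.γ (p k) l.y1))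
    (M := S.M.C0 * l.C) (Eventually.of_forall fun k => (q3 k).trans
      (mul_le_mul_of_nonneg_left ((norm_sub_rev _ _).trans_le (p3 k)) (by linarith)))
  obtain ⟨g', ρ', hρ', hb, -, -, hev⟩ := S.M.lim (l := (hyperfilter ℕ : Filter ℕ))
    (x := fun k => S.G.γ (p k) l.y1) (g := h) (S.G.sub hxm) (S.G.mem (by linarith) hy2) hxl
    (Eventually.of_forall q1) hξ (((j3 _ hy2).mono_left hU).congr fun k => (q2 k).symm)
  obtain ⟨ψ, hψ⟩ : ∃ ψ : Fin S.Q.r0 → E n → ℂ, ∀ m u, ψ m u =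
      hprim (S.Q.z m) S.G.y0 (g'.γ u) - hprim (S.Q.z m) S.G.y0 u := ⟨_, fun _ _ => rfl⟩
  have hψd : ∀ m, DifferentiableOn ℂ (ψ m) (ball x ρ') := fun m => by
    rw [funext (hψ m)]
    exact ((ccg3_phi S m).comp hb.γ_hol hb.maps).sub ((ccg3_phi S m).mono hb.sub)
  have key : ∀ᶠ k in (hyperfilter ℕ : Filter ℕ),
      S.chi (j k) ∈ ((fun c => (fun m => ψ m x) + c) '' l.X0) \ {0} := by
    filter_upwards [hev] with k hk
    refine ⟨⟨_, p4 k, funext fun m => ?_⟩, h3 k⟩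
    have e1 : ψ m =ᶠ[𝓝 (S.G.γ (p k) l.y1)] fun _ => S.chi (j k) m - S.chi (p k) m := by
      refine ccg3_open S.M (p2 k) (p := fun u => ψ m u = S.chi (j k) m - S.chi (p k) m) ?_
      filter_upwards [q4 k g' hk.2, isOpen_ball.mem_nhds hy2] with w a1 a2
      have a3 : g'.γ (S.G.γ (p k) w) = S.G.γ (j k) w := a1.1
      have a4 := S.c_chi (j1 k) hy2 (h2 k) m a2
      have a5 := S.c_chi ((p1 k).trans d1) hy2 (p2 k) m a2
      change ψ m (S.G.γ (p k) w) = _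
      rw [hψ, a3, ← a4, ← a5]
      ring
    have e2 := hol_ident isOpen_ball (convex_ball x ρ').isPreconnected (hψd m)
      (differentiableOn_const _) hk.1 e1 (mem_ball_self hρ')
    simp only [Pi.add_apply, e2]
    ring
  have hlim : Tendsto (fun k => S.chi (j k)) (hyperfilter ℕ : Filter ℕ) (𝓝 0) := by
    refine tendsto_pi_nhds.2 fun m => ?_
    have c1 : ContinuousAt (hprim (S.Q.z m) S.G.y0) S.G.y0 :=
      (ccg3_phi S m).continuousOn.continuousAt (S.M.T_open.mem_nhds (S.G.mem (by linarith) hy0))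
    have c2 := c1.tendsto.comp ((j3 _ hy0).mono_left hU)
    have c3 : hprim (S.Q.z m) S.G.y0 S.G.y0 = 0 := by simp [hprim]
    rw [c3] at c2
    exact c2
  have hcl := ((l.fin.image fun c => (fun m => ψ m x) + c).subset
    (sdiff_subset (t := {0}))).isClosed
  exact (hcl.mem_of_tendsto hlim key).2 rfl

end Loc

end Pool.Agent.CL
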