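import Pool.Agent.P.MP_63735c_ag.CCG3

/-! Basic estimates for the elements of the local group. -/

open scoped ContDiff Matrix
open Set Metric MeasureTheory Filter Topology

namespace Pool.Agent.CL

open Pool.Agent.SPF LGrp

variable {n : ℕ} {X : Type} [TopologicalSpace X] [T2Space X] [MeasurableSpace X]
  {S : Setup n X}

namespace Gam

variable {l : Loc S} {D : LGrp} (Γ : Gam l D)

omit [T2Space X] in
lemma ccg6_ball {a b : ℝ} (h : a ≤ b) {x : E n} (hx : x ∈ ball l.y1 (a * l.ρ)) :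
    x ∈ ball l.y1 (b * l.ρ) :=
  ball_subset_ball (mul_le_mul_of_nonneg_right h l.ρ_pos.le) hx

omit [T2Space X] in
lemma ccg6_y1 {a : ℝ} (h : 0 < a) : l.y1 ∈ ball l.y1 (a * l.ρ) :=
  mem_ball_self (mul_pos h l.ρ_pos)

omit [T2Space X] in
lemma ccg6_r {x : E n} (hx : x ∈ ball l.y1 (4 * l.ρ)) {a : ℝ} (h : 1 / 2 ≤ a) :
    x ∈ ball S.G.y0 (a * S.G.r) :=
  ball_subset_ball (by nlinarith [S.G.r_pos]) (l.sub hx)

lemma ccg6_two {U : E n →L[ℂ] E n} {s : ℝ} (h : ‖U - 1‖ ≤ s) (hs : s ≤ 1) : ‖U‖ ≤ 2 := by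
  have h1 : ‖(1 : E n →L[ℂ] E n)‖ ≤ 1 := ContinuousLinearMap.norm_id_le
  have h2 := norm_add_le (U - 1) 1
  rw [sub_add_cancel] at h2
  linarith

theorem sz_ε (g : D.G) : S.G.lg.sz (Γ.j g) ≤ S.G.lg.ε ∧
    S.G.lg.L ^ 2 * S.G.lg.sz (Γ.j g) ≤ S.G.lg.ε := by
  have h1 := Γ.sz_le g
  have h2 := l.δ_le
  have h3 := S.G.lg.L_ge
  have h4 := l.δ_pos
  have h5 : 1 ≤ S.G.lg.L ^ 2 := one_le_pow₀ h3
  have h6 : S.G.lg.L ^ 2 * l.δ ≤ S.G.lg.L ^ 3 * l.δ :=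
    mul_le_mul_of_nonneg_right (pow_le_pow_right₀ h3 (by norm_num)) h4.le
  have h7 : S.G.lg.L ^ 2 * S.G.lg.sz (Γ.j g) ≤ S.G.lg.L ^ 2 * l.δ :=
    mul_le_mul_of_nonneg_left h1 (by linarith)
  have h8 : l.δ ≤ S.G.lg.L ^ 2 * l.δ := le_mul_of_one_le_left h4.le h5
  constructor <;> linarith

theorem gm (g : D.G) {x : E n} (hx : x ∈ ball l.y1 (4 * l.ρ)) : S.Gm x (Γ.j g) (Γ.α g) :=
  ⟨_, Γ.ret g, hx⟩

theorem near {g : D.G} (hg : D.sz g ≤ 1) {x : E n} (hx : x ∈ ball l.y1 (4 * l.ρ)) :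
    ‖Γ.γ g x - x‖ ≤ l.ρ / 16 * D.sz g ∧ ‖Γ.γ g x - x‖ ≤ D.sz g ∧
      ‖fderiv ℂ (Γ.γ g) x - 1‖ ≤ D.sz g ∧ ‖tr (fderiv ℂ (Γ.γ g) x) - 1‖ ≤ D.sz g ∧
      ‖S.G.N (Γ.j g) x - 1‖ ≤ D.sz g := by
  obtain ⟨a1, a2, a3, a4⟩ := S.G.near _ (Γ.sz_ε g).1 x (ccg6_r hx (by norm_num))
  have h0 := D.sz_nonneg g
  have h1 : 8 * l.ρ ≤ 1 := l.ρ_le.trans (min_le_right _ _)
  have h2 : S.G.lg.L * S.G.lg.sz (Γ.j g) ≤ l.ρ / 16 * D.sz g := by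
    rw [Γ.sz_eq, ← _root_.mul_assoc]
    exact mul_le_mul_of_nonneg_right (by linarith [Γ.small]) h0
  have h3 : l.ρ / 16 * D.sz g ≤ D.sz g := mul_le_of_le_one_left h0 (by linarith)
  exact ⟨a1.trans h2, a1.trans (h2.trans h3), a2.trans (h2.trans h3), a3.trans (h2.trans h3),
    a4.trans (h2.trans h3)⟩

theorem maps {g : D.G} (hg : D.sz g ≤ 1) {s : ℝ} (hs : s ≤ 3) {x : E n}
    (hx : x ∈ ball l.y1 (s * l.ρ)) : Γ.γ g x ∈ ball l.y1 ((s + 1 / 8) * l.ρ) := by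
  have h1 := (Γ.near hg (ccg6_ball (by linarith) hx)).1
  have h2 : l.ρ / 16 * D.sz g ≤ l.ρ / 16 := mul_le_of_le_one_right (by linarith [l.ρ_pos]) hg
  have h3 := dist_triangle (Γ.γ g x) x l.y1
  rw [dist_eq_norm (Γ.γ g x) x] at h3
  rw [mem_ball] at hx ⊢
  linarith [l.ρ_pos]

theorem dα : ∃ C, 0 ≤ C ∧ ∀ g, (∀ x ∈ ball l.y1 (7 / 2 * l.ρ),
    ‖fderiv ℂ (Γ.α g) x‖ ≤ C * (1 + ‖Γ.a g‖)) ∧ ∀ x ∈ ball l.y1 (7 / 2 * l.ρ),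
      ∀ x' ∈ ball l.y1 (7 / 2 * l.ρ), ‖Γ.α g x - Γ.α g x'‖ ≤ C * (1 + ‖Γ.a g‖) * ‖x - x'‖ := by
  have hρ := l.ρ_pos
  have hC := l.C_ge
  refine ⟨l.C / (l.ρ / 2), by positivity, fun g => ⟨fun x hx => ?_, fun x hx x' hx' => ?_⟩⟩
  · have hs : ball x (l.ρ / 2) ⊆ ball l.y1 (4 * l.ρ) :=
      ball_subset_ball' (by rw [mem_ball] at hx; linarith)
    have := cauchy (half_pos hρ) ((Γ.ret g).α_hol.mono hs) fun z hz => Γ.bd g z (hs hz)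
    refine this.trans (le_of_eq ?_)
    rw [div_mul_eq_mul_div]
    rfl
  · have := hol_lip (by linarith) (Γ.ret g).α_hol (Γ.bd g) hx hx'
    refine this.trans (le_of_eq ?_)
    rw [div_mul_eq_mul_div l.C, show 4 * l.ρ - 7 / 2 * l.ρ = l.ρ / 2 by ring]
    rfl

theorem γ_mul {g h : D.G} (hg : D.sz g ≤ 1) (hh : D.sz h ≤ 1) {x : E n}
    (hx : x ∈ ball l.y1 (4 * l.ρ)) : Γ.γ (g * h) x = Γ.γ g (Γ.γ h x) := by
  unfold γ
  rw [Γ.j_mul g h hg hh]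
  exact S.G.γ_mul _ _ (Γ.sz_ε g).1 (Γ.sz_ε h).1 x (ccg6_r hx (by norm_num))

theorem act_mul {g h : D.G} (hg : D.sz g ≤ 1) (hh : D.sz h ≤ 1) {p : P n}
    (hp : p.1 ∈ ball l.y1 (3 * l.ρ)) :
    (Γ.rt (g * h)).act p = (Γ.rt g).act ((Γ.rt h).act p) := by
  have h4 := ccg6_ball (show (3 : ℝ) ≤ 4 by norm_num) hp
  have e1 := Γ.γ_mul hg hh h4
  have e2 := (S.c_chain (Γ.sz_ε g).1 (Γ.sz_ε h).1 (ccg6_r h4 (by norm_num))).2
  have e3 := Γ.α_mul g h hg hh _ hp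
  have e4 := (pair_inv (S.G.pair (Γ.j h) _ (ccg6_r h4 (by norm_num)))).1
  rw [← Γ.j_mul g h hg hh] at e2
  simp only [γ] at e1
  simp only [Ret.act, rt, Setup.rt, e1, e2, e3, ContinuousLinearMap.comp_apply, ← sub_sub,
    map_sub, e4]

theorem act_one {p : P n} (hp : p.1 ∈ ball l.y1 (4 * l.ρ)) : (Γ.rt 1).act p = p := by
  have e2 := (S.c_one (ccg6_r hp (by norm_num))).2.1
  simp only [Ret.act, rt, Setup.rt, Γ.j_one, S.G.γ_one, e2, Γ.α_one _ hp, sub_zero,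
    one_apply_eq_self]

theorem act_bd : ∃ C, 1 ≤ C ∧ ∀ (g : D.G) (p : P n) (R : ℝ), D.sz g ≤ 1 →
    p.1 ∈ ball l.y1 (3 * l.ρ) → 1 ≤ R → ‖p.2‖ ≤ R → ‖Γ.a g‖ ≤ R →
      ‖((Γ.rt g).act p).2‖ ≤ C * R ∧
      qn R ((Γ.rt g).act p - p) ≤ C * (1 + ‖Γ.a g‖ + R * D.sz g) ∧
      qn R ((Γ.rt g).act p - (p - (0, Γ.a g))) ≤ C * R * (D.sz g + ‖p.1 - l.y1‖) ∧
      ∀ v, qn R (fderiv ℝ (Γ.rt g).act p v) ≤ C * qn R v := by
  obtain ⟨Cd, hd, hd'⟩ := Γ.dα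
  obtain ⟨CN, hN, hN'⟩ := S.c_dN
  have hC := l.C_ge
  have hε := S.G.lg.ε_pos
  have hK : 0 ≤ CN * S.G.lg.ε * (1 + 2 * l.C) := by positivity
  refine ⟨2 + 4 * l.C + 4 * Cd + CN * S.G.lg.ε * (1 + 2 * l.C), by linarith, ?_⟩
  rintro g ⟨x, ξ⟩ R hg hp hR hξ ha
  dsimp only at hp hξ ⊢
  have h4 := ccg6_ball (show (3 : ℝ) ≤ 4 by norm_num) hp
  have h7 := ccg6_ball (show (3 : ℝ) ≤ 7 / 2 by norm_num) hp
  obtain ⟨-, n1, n2, -, n3⟩ := Γ.near hg h4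
  have hs := D.sz_nonneg g
  have a0 := norm_nonneg (Γ.a g)
  have b1 : ‖Γ.α g x‖ ≤ l.C * (1 + ‖Γ.a g‖) := Γ.bd g x h4
  have b2 : l.C * (1 + ‖Γ.a g‖) ≤ l.C * (2 * R) :=
    mul_le_mul_of_nonneg_left (by linarith) (by linarith)
  have b3 : ‖ξ - Γ.α g x‖ ≤ (1 + 2 * l.C) * R := (norm_sub_le _ _).trans (by linarith)
  have b4 := ccg6_two n3 hg
  have b5 := ccg6_two n2 hg
  have b6 : Cd * (1 + ‖Γ.a g‖) ≤ Cd * (2 * R) := mul_le_mul_of_nonneg_left (by linarith) hd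
  have e0 : (Γ.rt g).act (x, ξ) = (Γ.γ g x, S.G.N (Γ.j g) x (ξ - Γ.α g x)) := rfl
  have k0 : R * ‖Γ.γ g x - x‖ ≤ R * D.sz g := mul_le_mul_of_nonneg_left n1 (by linarith)
  have p1 : 0 ≤ R * D.sz g := by positivity
  have b7 : ∀ u, ‖fderiv ℂ (S.G.N (Γ.j g)) x u (ξ - Γ.α g x)‖ ≤
      CN * S.G.lg.ε * (1 + 2 * l.C) * (R * ‖u‖) := fun u => by
    have c1 := (hN' _ (Γ.sz_ε g).1 x (by simpa using ccg6_r h4 (a := 1) (by norm_num))).trans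
      (mul_le_mul_of_nonneg_left (Γ.sz_ε g).1 hN)
    exact ((fderiv ℂ (S.G.N (Γ.j g)) x u).le_of_opNorm_le_of_le
      ((fderiv ℂ (S.G.N (Γ.j g)) x).le_of_opNorm_le c1 u) b3).trans (le_of_eq (by ring))
  generalize CN * S.G.lg.ε * (1 + 2 * l.C) = K at hK b7 ⊢
  refine ⟨?_, ?_, ?_, fun v => ?_⟩
  · rw [e0]
    refine ((S.G.N (Γ.j g) x).le_of_opNorm_le_of_le b4 b3).trans ?_
    nlinarith
  · have e1 : S.G.N (Γ.j g) x (ξ - Γ.α g x) - ξ =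
        (S.G.N (Γ.j g) x - 1) ξ - S.G.N (Γ.j g) x (Γ.α g x) := by
      simp only [map_sub, _root_.sub_apply, one_apply_eq_self]
      abel
    have k1 := (S.G.N (Γ.j g) x - 1).le_of_opNorm_le_of_le n3 hξ
    have k2 := (S.G.N (Γ.j g) x).le_of_opNorm_le_of_le b4 b1
    have k3 := norm_sub_le ((S.G.N (Γ.j g) x - 1) ξ) (S.G.N (Γ.j g) x (Γ.α g x))
    rw [e0]
    simp only [qn, Prod.mk_sub_mk, e1]
    have p2 : 0 ≤ (4 * Cd + K) * (1 + ‖Γ.a g‖ + R * D.sz g) := by positivity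
    have p3 : 0 ≤ l.C * (1 + ‖Γ.a g‖) := by positivity
    have p4 : 0 ≤ l.C * (R * D.sz g) := by positivity
    nlinarith
  · have e1 : S.G.N (Γ.j g) x (ξ - Γ.α g x) - (ξ - Γ.a g) =
        (S.G.N (Γ.j g) x - 1) (ξ - Γ.α g x) - (Γ.α g x - Γ.α g l.y1) := by
      simp only [_root_.sub_apply, one_apply_eq_self, a]
      abel
    have k1 := (S.G.N (Γ.j g) x - 1).le_of_opNorm_le_of_le n3 b3
    have k2 := (hd' g).2 x h7 l.y1 (ccg6_y1 (by norm_num))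
    have k3 := norm_sub_le ((S.G.N (Γ.j g) x - 1) (ξ - Γ.α g x)) (Γ.α g x - Γ.α g l.y1)
    have d0 := norm_nonneg (x - l.y1)
    have k4 := mul_le_mul_of_nonneg_right b6 d0
    rw [e0]
    simp only [qn, Prod.mk_sub_mk, e1, sub_zero]
    have p2 : 0 ≤ K * R * (D.sz g + ‖x - l.y1‖) := by positivity
    have p3 : 0 ≤ l.C * (R * D.sz g) := by positivity
    have p4 : 0 ≤ Cd * (R * D.sz g) := by positivity
    have p5 : 0 ≤ Cd * (R * ‖x - l.y1‖) := by positivity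
    have p6 : 0 ≤ l.C * (R * ‖x - l.y1‖) := by positivity
    have p7 : 0 ≤ R * ‖x - l.y1‖ := by positivity
    nlinarith
  · have e1 : fderiv ℝ (Γ.rt g).act (x, ξ) v = (fderiv ℂ (Γ.γ g) x v.1,
        S.G.N (Γ.j g) x (v.2 - fderiv ℂ (Γ.α g) x v.1) +
          fderiv ℂ (S.G.N (Γ.j g)) x v.1 (ξ - Γ.α g x)) := (Γ.ret g).smooth.2.2.2 (x, ξ) h4 v
    have k1 := (fderiv ℂ (Γ.γ g) x).le_of_opNorm_le b5 v.1
    have k2 := (fderiv ℂ (Γ.α g) x).le_of_opNorm_le (((hd' g).1 x h7).trans b6) v.1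
    have k3 := (S.G.N (Γ.j g) x).le_of_opNorm_le_of_le b4
      ((norm_sub_le v.2 _).trans (add_le_add le_rfl k2))
    have k4 := (norm_add_le _ _).trans (add_le_add k3 (b7 v.1))
    have k5 := mul_le_mul_of_nonneg_left k1 (show 0 ≤ R by linarith)
    rw [e1]
    simp only [qn]
    have p2 : 0 ≤ (4 * l.C + 4 * Cd + K) * ‖v.2‖ := by positivity
    have p3 : 0 ≤ l.C * (R * ‖v.1‖) := by positivity
    nlinarith

theorem exists_per : ∃ ι, Γ.IsPer ι := by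
  have y4 := ccg6_y1 (l := l) (show (0 : ℝ) < 4 by norm_num)
  have y3 := ccg6_y1 (l := l) (show (0 : ℝ) < 3 by norm_num)
  have y2 := ccg6_r y4 (show (1 : ℝ) / 2 ≤ 2 by norm_num)
  have hT := (Γ.ret 1).sub
  have hz := isRet_zm S.M.T_open Subset.rfl S.Q.per0.z_ret
  have s0 : S.G.lg.sz S.G.lg.one = 0 := by simp [LG.sz]
  have h1 : ∀ m, ∃ g, Γ.j g = S.G.lg.one ∧ Γ.α g =ᶠ[𝓝 l.y1] zm S.Q.z m := fun m =>
    Γ.full _ _ (s0.trans_le l.δ_pos.le) (S.c_gm (j := S.G.lg.one) y2 ⟨_, hz m, hT y4⟩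
      (Eventually.of_forall fun x => (S.G.γ_one x).symm))
  choose ι hj hα using h1
  have hs : ∀ m, D.sz (ι m) = 0 := fun m => by
    have := Γ.sz_eq (ι m)
    rw [hj, s0] at this
    exact (mul_eq_zero.1 this.symm).resolve_left Γ.lam_pos.ne'
  have ha : ∀ m, ∀ x ∈ ball l.y1 (4 * l.ρ), Γ.α (ι m) x = zm S.Q.z m x := fun m x hx =>
    hol_ident isOpen_ball (convex_ball _ _).isPreconnected (Γ.ret (ι m)).α_hol
      ((hz m).α_hol.mono hT) y4 (hα m) hx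
  refine ⟨ι, hs, ha, fun m g hg => Γ.inj _ _ ?_, fun g hg => ?_⟩
  · have hm : D.sz (ι m) ≤ 1 := (hs m).trans_le zero_le_one
    have m1 : S.G.γ (Γ.j g) l.y1 ∈ ball l.y1 (4 * l.ρ) :=
      ccg6_ball (by norm_num) (Γ.maps hg le_rfl y3)
    rw [Γ.α_mul _ _ hm hg _ y3, Γ.α_mul _ _ hg hm _ y3, ha m _ m1,
      S.c_pres (Γ.sz_ε g).1 y2 (Γ.gm g y4) m y2, hj, (S.c_one y2).1, S.G.γ_one, ha m _ y4,
      (tr_basic (1 : E n →L[ℂ] E n) 1).1, one_apply_eq_self, add_comm]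
  · have e1 : Γ.j g = S.G.lg.one := by
      have := Γ.sz_eq g
      rw [hg, mul_zero, LG.sz, norm_eq_zero, sub_eq_zero] at this
      exact S.G.jt_inj this
    have g1 : Germ S.M.T S.M.Ψ l.y1 (S.rt (Γ.j g) (Γ.α g)) := Γ.gm g y4
    have g2 := g1.congr (g1.per (Eventually.of_forall fun x => by
      change S.G.γ (Γ.j g) x = x
      rw [e1, S.G.γ_one]))
    obtain ⟨m, hm⟩ := S.Q.per0.all _ (hT y4) _ g2
    exact ⟨m, Γ.inj _ _ (hm.self_of_nhds.trans (ha m _ y4).symm)⟩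

end Gam

end Pool.Agent.CL
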