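import Pool.Agent.P.MP_63735c_ag.CLDefs

/-! Local groups with a size function; levels of smallness are found by instance search. -/

namespace Pool.Agent.CL

/-- A local group: the group laws hold for elements of size at most one. -/
structure LGrp where
  G : Type
  mul : G → G → G
  inv : G → G
  one : G
  sz : G → ℝ
  L : ℝ
  b : ℝ
  one_le_L : 1 ≤ L
  b_pos : 0 < b
  b_le : (2 * L) ^ 16 * b ≤ 1
  sz_nonneg : ∀ g, 0 ≤ sz g
  sz_one' : sz one = 0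
  sz_mul' : ∀ g h, sz g ≤ 1 → sz h ≤ 1 → sz (mul g h) ≤ L * (sz g + sz h)
  sz_inv' : ∀ g, sz g ≤ 1 → sz (inv g) ≤ L * sz g
  assoc' : ∀ g h k, sz g ≤ 1 → sz h ≤ 1 → sz k ≤ 1 → mul (mul g h) k = mul g (mul h k)
  one_mul' : ∀ g, sz g ≤ 1 → mul one g = g
  mul_one' : ∀ g, sz g ≤ 1 → mul g one = g
  inv_mul' : ∀ g, sz g ≤ 1 → mul (inv g) g = one
  mul_inv' : ∀ g, sz g ≤ 1 → sz (inv g) ≤ 1 → mul g (inv g) = one

namespace LGrp

variable (D : LGrp)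

instance instMulG : Mul D.G := ⟨D.mul⟩
instance instInvG : Inv D.G := ⟨D.inv⟩
instance instOneG : One D.G := ⟨D.one⟩

lemma sz_one : D.sz 1 = 0 := D.sz_one'

lemma sz_mul {g h : D.G} (hg : D.sz g ≤ 1) (hh : D.sz h ≤ 1) :
    D.sz (g * h) ≤ D.L * (D.sz g + D.sz h) := D.sz_mul' g h hg hh

lemma sz_inv {g : D.G} (hg : D.sz g ≤ 1) : D.sz g⁻¹ ≤ D.L * D.sz g := D.sz_inv' g hg

lemma two_L : 1 ≤ 2 * D.L := by linarith [D.one_le_L]

lemma lv_le {j k : ℕ} (hjk : j ≤ k) : (2 * D.L) ^ j * D.b ≤ (2 * D.L) ^ k * D.b :=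
  mul_le_mul_of_nonneg_right (pow_le_pow_right₀ D.two_L hjk) D.b_pos.le

lemma b_le_one : D.b ≤ 1 := by simpa using (D.lv_le (Nat.zero_le 16)).trans D.b_le

/-- `g` has level `k`. -/
class Sm (k : ℕ) (g : D.G) : Prop where
  le : k ≤ 16 → D.sz g ≤ (2 * D.L) ^ k * D.b

lemma sm0 {g : D.G} (h : D.sz g ≤ D.b) : D.Sm 0 g := ⟨fun _ => by simpa using h⟩

lemma le_b (g : D.G) [h : D.Sm 0 g] : D.sz g ≤ D.b := by simpa using h.le (Nat.zero_le _)

lemma sm_le1 {k : ℕ} {g : D.G} (h : D.Sm k g) (hk : k ≤ 16) : D.sz g ≤ 1 :=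
  (h.le hk).trans ((D.lv_le hk).trans D.b_le)

/-- An element of level sixteen has size at most one. -/
lemma le1 (g : D.G) [h : D.Sm 16 g] : D.sz g ≤ 1 := D.sm_le1 h le_rfl

lemma sm_zero {g : D.G} (h : D.sz g = 0) (k : ℕ) : D.Sm k g :=
  ⟨fun _ => h ▸ mul_nonneg (pow_nonneg (by linarith [D.two_L]) _) D.b_pos.le⟩

instance sm_succ (k : ℕ) (g : D.G) [h : D.Sm k g] : D.Sm (k + 1) g :=
  ⟨fun hk => (h.le (by omega)).trans (D.lv_le (by omega))⟩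

instance sm_one (k : ℕ) : D.Sm k 1 := D.sm_zero D.sz_one k

instance sm_mul (k : ℕ) (g h : D.G) [hg : D.Sm k g] [hh : D.Sm k h] : D.Sm (k + 1) (g * h) :=
  ⟨fun hk => by
    have h1 : k ≤ 16 := by omega
    have h3 := hg.le h1
    have h4 := hh.le h1
    have h5 := D.sz_mul (D.sm_le1 hg h1) (D.sm_le1 hh h1)
    have h6 := D.one_le_L
    rw [pow_succ]
    nlinarith⟩

instance sm_inv (k : ℕ) (g : D.G) [hg : D.Sm k g] : D.Sm (k + 1) g⁻¹ := ⟨fun hk => by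
  have h1 : k ≤ 16 := by omega
  have h3 := hg.le h1
  have h5 := D.sz_inv (D.sm_le1 hg h1)
  have h6 := D.one_le_L
  have h7 := D.sz_nonneg g
  rw [pow_succ]
  nlinarith⟩

variable {D}

lemma assoc (g h k : D.G) [D.Sm 16 g] [D.Sm 16 h] [D.Sm 16 k] : g * h * k = g * (h * k) :=
  D.assoc' g h k (D.le1 g) (D.le1 h) (D.le1 k)

lemma one_mul (g : D.G) [D.Sm 16 g] : 1 * g = g := D.one_mul' g (D.le1 g)

lemma mul_one (g : D.G) [D.Sm 16 g] : g * 1 = g := D.mul_one' g (D.le1 g)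

lemma inv_mul (g : D.G) [D.Sm 16 g] : g⁻¹ * g = 1 := D.inv_mul' g (D.le1 g)

lemma mul_inv (g : D.G) [D.Sm 15 g] : g * g⁻¹ = 1 := D.mul_inv' g (D.le1 g) (D.le1 g⁻¹)

lemma inv_mul_cancel_left (g h : D.G) [D.Sm 15 g] [D.Sm 16 h] : g⁻¹ * (g * h) = h := by
  rw [← assoc g⁻¹ g h, inv_mul g, one_mul h]

lemma mul_inv_cancel_left (g h : D.G) [D.Sm 15 g] [D.Sm 16 h] : g * (g⁻¹ * h) = h := by
  rw [← assoc g g⁻¹ h, mul_inv g, one_mul h]

lemma inv_mul_cancel_right (g h : D.G) [D.Sm 16 g] [D.Sm 15 h] : g * h⁻¹ * h = g := by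
  rw [assoc g h⁻¹ h, inv_mul h, mul_one g]

lemma mul_inv_cancel_right (g h : D.G) [D.Sm 16 g] [D.Sm 15 h] : g * h * h⁻¹ = g := by
  rw [assoc g h h⁻¹, mul_inv h, mul_one g]

lemma right_cancel {g g' : D.G} (h : D.G) [D.Sm 16 g] [D.Sm 16 g'] [D.Sm 15 h]
    (e : g * h = g' * h) : g = g' := by
  rw [← mul_inv_cancel_right g h, e, mul_inv_cancel_right g' h]

lemma left_cancel {g g' : D.G} (h : D.G) [D.Sm 16 g] [D.Sm 16 g'] [D.Sm 15 h]
    (e : h * g = h * g') : g = g' := by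
  rw [← inv_mul_cancel_left h g, e, inv_mul_cancel_left h g']

/-- The commutator, normalised by `g h = [g,h] h g`. -/
def comm (g h : D.G) : D.G := g * h * (h * g)⁻¹

/-- The conjugate, normalised by `k h^k = h k`. -/
def conj (k h : D.G) : D.G := k⁻¹ * (h * k)

instance sm_comm (k : ℕ) (g h : D.G) [D.Sm k g] [D.Sm k h] : D.Sm (k + 3) (comm g h) :=
  D.sm_mul (k + 2) (g * h) (h * g)⁻¹

instance sm_conj (k : ℕ) (g h : D.G) [D.Sm k g] [D.Sm k h] : D.Sm (k + 2) (conj g h) :=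
  D.sm_mul (k + 1) g⁻¹ (h * g)

lemma comm_mul (g h : D.G) [D.Sm 14 g] [D.Sm 14 h] : comm g h * (h * g) = g * h :=
  inv_mul_cancel_right (g * h) (h * g)

lemma mul_conj (k h : D.G) [D.Sm 15 k] [D.Sm 15 h] : k * conj k h = h * k :=
  mul_inv_cancel_left k (h * k)

lemma comm_eq {c g h : D.G} [D.Sm 16 c] [D.Sm 13 g] [D.Sm 13 h] (e : c * (h * g) = g * h) :
    comm g h = c := right_cancel (h * g) ((comm_mul g h).trans e.symm)

/-- The same local group with another base size. -/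
def reb (D : LGrp) (b : ℝ) (h0 : 0 < b) (h1 : b ≤ D.b) : LGrp :=
  { D with
    b := b
    b_pos := h0
    b_le := (mul_le_mul_of_nonneg_left h1 (pow_nonneg (by linarith [D.two_L]) _)).trans D.b_le }

lemma sm_of_reb {b : ℝ} {h0 : 0 < b} {h1 : b ≤ D.b} {k : ℕ} {g : D.G}
    (h : (D.reb b h0 h1).Sm k g) : D.Sm k g := ⟨fun hk => (h.le hk).trans
  (mul_le_mul_of_nonneg_left h1 (pow_nonneg (zero_le_one.trans D.two_L) _))⟩

/-- A base size below which all levels have size at most `e`. -/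
lemma exists_reb (D : LGrp) {e : ℝ} (he : 0 < e) : ∃ (b : ℝ) (h0 : 0 < b) (h1 : b ≤ D.b),
    ∀ k ≤ 16, ∀ g : D.G, (D.reb b h0 h1).Sm k g → D.sz g ≤ e := by
  have hp : 0 < (2 * D.L) ^ 16 := pow_pos (by linarith [D.two_L]) _
  refine ⟨min D.b (e / (2 * D.L) ^ 16), lt_min D.b_pos (div_pos he hp), min_le_left _ _, ?_⟩
  intro k hk g hg
  refine (hg.le hk).trans (((D.reb _ _ _).lv_le hk).trans ?_)
  change (2 * D.L) ^ 16 * min D.b (e / (2 * D.L) ^ 16) ≤ e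
  calc _ ≤ (2 * D.L) ^ 16 * (e / (2 * D.L) ^ 16) :=
        mul_le_mul_of_nonneg_left (min_le_right _ _) hp.le
    _ = e := mul_div_cancel₀ e hp.ne'

lemma sample (g h k : D.G) (hg : D.sz g ≤ D.b) (hh : D.sz h ≤ D.b) (hk : D.sz k ≤ D.b) :
    g * (h * k⁻¹) * k = comm g h * (h * g) := by
  have := D.sm0 hg
  have := D.sm0 hh
  have := D.sm0 hk
  rw [comm_mul g h, assoc g (h * k⁻¹) k, inv_mul_cancel_right h k]

end LGrp

end Pool.Agent.CL
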