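import Pool.Agent.P.MP_63735c_ag.CKBd

/-! The Kähler form on the base. -/

open scoped ComplexOrder ContDiff Matrix
open Set Metric MeasureTheory Filter Topology

namespace Pool.Agent.CK

open Pool.Agent.SPF Pool.Agent.CL Pool.Agent.NL

variable {N n : ℕ} {X : Type} [TopologicalSpace X] {A : Atlas X N} {T O : Set (E n)}
  {Ψ : P n → X}

lemma cketa_left (hinj : ∀ i, InjOn (A.p i) (A.C i).W) (h : A.IsUnif T Ψ) {p : P n}
    (hp : p.1 ∈ T) (τ : E n) (v : P n) : pb A (f11 A (etaF A).h) Ψ p (0, τ) v = 0 := by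
  obtain ⟨i, f, hL, hU⟩ := unif_lf h hp
  have hU0 := hU.self_of_nhds
  have hn : fderiv ℂ f p (0, τ) ∈ (A.C i).null (f p) := (hU0.2.2.2.1 _).2 ⟨τ, rfl⟩
  have hn' : fderiv ℂ f p (0, τ) ᵥ* (A.C i).η (f p) = 0 := hn
  rw [pb_eq hinj (gform_11 _) hL]
  show ev11 ((A.C i).η (f p)) _ _ = 0
  rw [ev11, Matrix.dotProduct_mulVec, hn']
  simp

lemma cketa_right (hinj : ∀ i, InjOn (A.p i) (A.C i).W) (h : A.IsUnif T Ψ) (hT : IsOpen T)
    {p : P n} (hp : p.1 ∈ T) (τ : E n) (v : P n) :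
    pb A (f11 A (etaF A).h) Ψ p v (0, τ) = 0 := by
  rw [(pb_closed hinj (gform_11 (etaF A)) h hT).2.1 p ⟨hp, mem_univ _⟩, cketa_left hinj h hp,
    neg_zero]

lemma cketa_hor (hinj : ∀ i, InjOn (A.p i) (A.C i).W) (h : A.IsUnif T Ψ) (hT : IsOpen T)
    {p : P n} (hp : p.1 ∈ T) (u v : P n) :
    pb A (f11 A (etaF A).h) Ψ p u v = pb A (f11 A (etaF A).h) Ψ p (u.1, 0) (v.1, 0) := by
  have hu : u = (u.1, 0) + (0, u.2) := by simp
  have hv : v = (v.1, 0) + (0, v.2) := by simp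
  conv_lhs => rw [hu, hv]
  rw [map_add, map_add, add_apply, add_apply,
    cketa_left hinj h hp, cketa_left hinj h hp, cketa_right hinj h hT hp]
  simp

lemma cketa_fderiv {F : Type} [NormedAddCommGroup F] [NormedSpace ℝ F] {t : Form2 F} {x : F}
    (ht : DifferentiableAt ℝ t x) (u v : F) :
    HasFDerivAt (fun y => t y u v) (((fderiv ℝ t x).flip u).flip v) x := by
  have h1 := (ht.hasFDerivAt.clm_apply (hasFDerivAt_const u x)).clm_apply (hasFDerivAt_const v x)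
  refine h1.congr_fderiv ?_
  ext w
  simp

lemma cketa_const (hinj : ∀ i, InjOn (A.p i) (A.C i).W) (h : A.IsUnif T Ψ) (hT : IsOpen T)
    {y : E n} (hy : y ∈ T) (ξ : E n) (u v : P n) :
    pb A (f11 A (etaF A).h) Ψ (y, ξ) u v = pb A (f11 A (etaF A).h) Ψ (y, 0) u v := by
  have hc := pb_closed hinj (gform_11 (etaF A)) h hT
  set t := pb A (f11 A (etaF A).h) Ψ with ht
  have hO : IsOpen (T ×ˢ (univ : Set (E n))) := hT.prod isOpen_univ
  have hd : ∀ p : P n, p.1 ∈ T → DifferentiableAt ℝ t p := fun p hp =>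
    (hc.1.contDiffAt (hO.mem_nhds ⟨hp, mem_univ _⟩)).differentiableAt (by simp)
  have hz : ∀ p : P n, p.1 ∈ T → ∀ a b : P n, (∀ q : P n, q.1 ∈ T → t q a b = 0) →
      ∀ w, fderiv ℝ t p w a b = 0 := by
    intro p hp a b hab w
    have h1 := cketa_fderiv (hd p hp) a b
    have h2 : HasFDerivAt (fun y => t y a b) (0 : P n →L[ℝ] ℝ) p := by
      refine (hasFDerivAt_const (0 : ℝ) p).congr_of_eventuallyEq ?_
      filter_upwards [hO.mem_nhds (show p ∈ T ×ˢ (univ : Set (E n)) from ⟨hp, mem_univ _⟩)]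
        with q hq
      exact hab q hq.1
    have h3 := DFunLike.congr_fun (h1.unique h2) w
    simpa using h3
  have hv : ∀ p : P n, p.1 ∈ T → ∀ τ : E n, fderiv ℝ t p (0, τ) u v = 0 := by
    intro p hp τ
    have h1 := hc.2.2 p ⟨hp, mem_univ _⟩ (0, τ) u v
    rw [hz p hp v (0, τ) (fun q hq => cketa_right hinj h hT hq τ v),
      hz p hp (0, τ) u (fun q hq => cketa_left hinj h hq τ u)] at h1
    simpa using h1
  have hg : ∀ ζ : E n, HasFDerivAt (fun ζ : E n => t (y, ζ) u v) (0 : E n →L[ℝ] ℝ) ζ := by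
    intro ζ
    have h1 := (cketa_fderiv (hd (y, ζ) hy) u v).comp ζ (hasFDerivAt_prodMk_right y ζ)
    refine h1.congr_fderiv ?_
    ext τ
    simpa using hv (y, ζ) hy τ
  exact is_const_of_fderiv_eq_zero (fun ζ => (hg ζ).differentiableAt)
    (fun ζ => (hg ζ).fderiv) ξ 0

lemma cketa_hb (k : ℝ) (y u v : E n) :
    hb A k Ψ y u v = k * pb A (f11 A (etaF A).h) Ψ (y, 0) (u, 0) (v, 0) := by
  simp [hb]

theorem base_hb (hinj : ∀ i, InjOn (A.p i) (A.C i).W) (h : A.IsUnif T Ψ) (hT : IsOpen T) (k : ℝ)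
    {p : P n} (hp : p.1 ∈ T) : base (hb A k Ψ) p = k • pb A (f11 A (etaF A).h) Ψ p := by
  refine ContinuousLinearMap.ext fun u => ContinuousLinearMap.ext fun v => ?_
  have h1 : base (hb A k Ψ) p u v = hb A k Ψ p.1 u.1 v.1 := by simp [base]
  have h2 : (k • pb A (f11 A (etaF A).h) Ψ p) u v = k * pb A (f11 A (etaF A).h) Ψ p u v := by
    simp
  rw [h1, h2, cketa_hb, cketa_hor hinj h hT hp u v, ← cketa_const hinj h hT hp p.2]

theorem hb_closed (hinj : ∀ i, InjOn (A.p i) (A.C i).W) (h : A.IsUnif T Ψ) (hT : IsOpen T)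
    (k : ℝ) : Closed2 T (hb A k Ψ) ∧ JInv T (hb A k Ψ) := by
  constructor
  · have hc := pull2_closed (hT.prod isOpen_univ) hT
      (g := ContinuousLinearMap.inl ℝ (E n) (E n))
      (ContinuousLinearMap.inl ℝ (E n) (E n)).contDiff.contDiffOn
      (fun y hy => mk_mem_prod hy (mem_univ _)) (pb_closed hinj (gform_11 (etaF A)) h hT)
    set s : Form2 (E n) := fun x => (pb A (f11 A (etaF A).h) Ψ
      (ContinuousLinearMap.inl ℝ (E n) (E n) x)).bilinearComp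
      (fderiv ℝ (ContinuousLinearMap.inl ℝ (E n) (E n)) x)
      (fderiv ℝ (ContinuousLinearMap.inl ℝ (E n) (E n)) x) with hs
    have he : hb A k Ψ = fun x => k • s x := by
      funext x
      simp only [hb, hs, ContinuousLinearMap.fderiv, ContinuousLinearMap.inl_apply]
    rw [he]
    refine ⟨hc.1.const_smul k, fun x hx u v => ?_, fun x hx u v w => ?_⟩
    · simp only [smul_apply, smul_eq_mul]
      rw [hc.2.1 x hx u v]; ring
    · have hd : DifferentiableAt ℝ s x :=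
        (hc.1.contDiffAt (hT.mem_nhds hx)).differentiableAt (by simp)
      have hd' : DifferentiableAt ℝ (fun x => k • s x) x :=
        ((hc.1.const_smul k).contDiffAt (hT.mem_nhds hx)).differentiableAt (by simp)
      have h1 : ∀ a b c, fderiv ℝ (fun x => k • s x) x a b c = k * fderiv ℝ s x a b c := by
        intro a b c
        have h2 := cketa_fderiv hd' b c
        have h3 := (cketa_fderiv hd b c).const_mul k
        have h4 := DFunLike.congr_fun (h2.unique h3) a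
        simpa using h4
      rw [h1, h1, h1]
      rw [← mul_add, ← mul_add, hc.2.2 x hx u v w, mul_zero]
  · intro y hy u v
    have h1 := (isForm_11 hinj (etaF A) h hT).jinv (y, 0) ⟨hy, mem_univ _⟩ (u, 0) (v, 0)
    rw [cketa_hb, cketa_hb, ← h1]
    simp

theorem hb_pos (hinj : ∀ i, InjOn (A.p i) (A.C i).W) (h : A.IsUnif T Ψ) {k : ℝ} (hk : 0 < k)
    {y : E n} (hy : y ∈ T) {u : E n} (hu : u ≠ 0) : 0 < hb A k Ψ y u (Complex.I • u) := by
  obtain ⟨i, f, hL, hU⟩ := unif_lf h (p := (y, 0)) hy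
  have hU0 := hU.self_of_nhds
  have hI : ((Complex.I • u, 0) : P n) = Complex.I • ((u, 0) : P n) := by simp
  rw [cketa_hb, pb_eq hinj (gform_11 _) hL, hI, map_smul]
  refine mul_pos hk ?_
  have h1 := ev11_nonneg ((A.C i).η_psd _ hU0.1) (fderiv ℂ f (y, 0) (u, 0))
  refine lt_of_le_of_ne h1.1 fun h0 => hu ?_
  have hn : fderiv ℂ f (y, 0) (u, 0) ∈ (A.C i).null (f (y, 0)) := h1.2 h0.symm
  obtain ⟨τ, hτ⟩ := (hU0.2.2.2.1 _).1 hn
  exact (congrArg Prod.fst (hU0.2.2.1.1 hτ)).symm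

theorem hb_iso (hinj : ∀ i, InjOn (A.p i) (A.C i).W) (h : A.IsUnif T Ψ) (hT : IsOpen T) (k : ℝ)
    {g : Ret n} (hg : IsRet T Ψ O g) {y : E n} (hy : y ∈ O) (u v : E n) :
    hb A k Ψ (g.γ y) (fderiv ℂ g.γ y u) (fderiv ℂ g.γ y v) = hb A k Ψ y u v := by
  have h1 := (isForm_11 hinj (etaF A) h hT).inv O g hg (y, 0) hy (u, 0) (v, 0)
  have hT' : (g.act (y, 0)).1 ∈ T := hg.maps hy
  rw [cketa_hor hinj h hT hT', hg.smooth.2.2.2 (y, 0) hy, hg.smooth.2.2.2 (y, 0) hy] at h1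
  rw [cketa_hb, cketa_hb, ← h1, ← cketa_const hinj h hT (hg.maps hy) (g.act (y, 0)).2]
  rfl

theorem om_vert [CompactSpace X] (hinj : ∀ i, InjOn (A.p i) (A.C i).W) (h : A.IsUnif T Ψ)
    (hT : IsOpen T) (K : Form11 A) (hK : ∀ i, ∀ z ∈ (A.C i).W, (K.h i z).PosDef) {k c : ℝ}
    (hk : 0 < k) (hc : 0 < c)
    (hl : ∀ y ∈ T, ∀ u, c * ‖u‖ ^ 2 ≤ hb A k Ψ y u (Complex.I • u)) :
    ∃ C : ℝ, ∀ y ∈ T, ∀ ξ v,
      leaf (pb A (f11 A K.h) Ψ) y ξ v (Complex.I • v) ≤ C * ‖v‖ ^ 2 := by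
  obtain ⟨C1, -, h20⟩ := bd_20 K hK
  obtain ⟨C2, hC2, h11⟩ := bd_11 K hK (etaF A)
  refine ⟨C1 * ((n : ℝ) ^ 2 * (k * C2 / c)), fun y hy ξ v => ?_⟩
  obtain ⟨i, f, hL, hU⟩ := unif_lf h (p := (y, ξ)) hy
  have hU0 := hU.self_of_nhds
  have hI : ((0, Complex.I • v) : P n) = Complex.I • ((0, v) : P n) := by simp
  have h1 : leaf (pb A (f11 A K.h) Ψ) y ξ v (Complex.I • v) =
      pb A (f11 A K.h) Ψ (y, ξ) (0, v) (0, Complex.I • v) := by simp [leaf]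
  rw [h1, pb_eq hinj (gform_11 _) hL, hI, map_smul]
  have key := h20 i _ hU0.1 (fderiv ℂ f (y, ξ) (0, v))
    ((n : ℝ) ^ 2 * (k * C2 / c) * ‖v‖ ^ 2) (by positivity) (by
      intro w
      obtain ⟨⟨b, τ⟩, rfl⟩ := hU0.2.2.1.2 w
      rw [hU0.2.2.2.2]
      have e1 : hb A k Ψ y b (Complex.I • b) = k * ev11 ((A.C i).η (f (y, ξ)))
          (fderiv ℂ f (y, ξ) (b, τ)) (Complex.I • fderiv ℂ f (y, ξ) (b, τ)) := by
        have e2 := cketa_hor hinj h hT (p := (y, ξ)) hy (b, τ) (Complex.I • ((b, τ) : P n))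
        rw [pb_eq hinj (gform_11 _) hL, map_smul] at e2
        rw [cketa_hb, ← cketa_const hinj h hT hy ξ]
        exact congrArg (k * ·) e2.symm
      have e3 := (le_abs_self _).trans (h11 i _ hU0.1 (fderiv ℂ f (y, ξ) (b, τ)))
      have e4 : c * ‖b‖ ^ 2 ≤ k * (C2 * ev11 (K.h i (f (y, ξ))) (fderiv ℂ f (y, ξ) (b, τ))
          (Complex.I • fderiv ℂ f (y, ξ) (b, τ))) :=
        (hl y hy b).trans (e1 ▸ mul_le_mul_of_nonneg_left e3 hk.le)
      set R := ev11 (K.h i (f (y, ξ))) (fderiv ℂ f (y, ξ) (b, τ))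
          (Complex.I • fderiv ℂ f (y, ξ) (b, τ)) with hR
      have e5 : ‖b‖ ^ 2 ≤ k * C2 / c * R := by
        rw [div_mul_eq_mul_div, le_div_iff₀ hc]; linarith
      have e6 : ‖b ⬝ᵥ v‖ ^ 2 ≤ ((n : ℝ) * ‖b‖ * ‖v‖) ^ 2 :=
        pow_le_pow_left₀ (norm_nonneg _) (dot_le b v) 2
      calc ‖b ⬝ᵥ v‖ ^ 2 ≤ ((n : ℝ) * ‖b‖ * ‖v‖) ^ 2 := e6
        _ = (n : ℝ) ^ 2 * ‖v‖ ^ 2 * ‖b‖ ^ 2 := by ring
        _ ≤ (n : ℝ) ^ 2 * ‖v‖ ^ 2 * (k * C2 / c * R) :=
          mul_le_mul_of_nonneg_left e5 (by positivity)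
        _ = (n : ℝ) ^ 2 * (k * C2 / c) * ‖v‖ ^ 2 * R := by ring)
  calc _ ≤ C1 * ((n : ℝ) ^ 2 * (k * C2 / c) * ‖v‖ ^ 2) := key
    _ = _ := by ring

end Pool.Agent.CK
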