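import Pool.Agent.P.MP_63735c_ag.CKEta
import Pool.Agent.P.MP_63735c_ag.CKInt

/-! The model attached to a uniformisation. -/

open scoped ComplexOrder ContDiff Matrix
open Set Metric MeasureTheory Filter Topology

namespace Pool.Agent.CK

open Pool.Agent.SPF Pool.Agent.CL Pool.Agent.NL

variable {N n : ℕ} {X : Type} [TopologicalSpace X] {A : Atlas X N} {T O : Set (E n)}
  {Ψ : P n → X}

lemma ckmodel_ev {m : ℕ} (r : Fin m → ℝ) (h : Fin m → Matrix (Fin N) (Fin N) ℂ) (u v : E N) :
    ∑ j, r j * ev11 (h j) u v = ev11 (∑ j, (r j : ℂ) • h j) u v := by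
  simp only [ev11, Matrix.sum_mulVec, Matrix.smul_mulVec, dotProduct_sum, dotProduct_smul,
    Complex.im_sum, Finset.mul_sum, smul_eq_mul, Complex.im_ofReal_mul]
  exact Finset.sum_congr rfl fun j _ => by ring

end Pool.Agent.CK
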