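import Pool.Agent.P.MP_63735c_ag.CKPull

/-! Returns of the uniformising map. -/

open scoped ComplexOrder ContDiff Matrix
open Set Metric MeasureTheory Filter Topology

namespace Pool.Agent.CK

open Pool.Agent.SPF Pool.Agent.CL Pool.Agent.NL

variable {N n : ℕ} {X : Type} [TopologicalSpace X] {A : Atlas X N} {T O : Set (E n)}
  {Ψ : P n → X}

theorem exists_ret [T2Space X] (h : A.IsUnif T Ψ) (hT : IsOpen T) {p q : P n} (hp : p.1 ∈ T)
    (hq : q.1 ∈ T) (he : Ψ p = Ψ q) : ∃ g, Germ T Ψ p.1 g ∧ g.act p = q := by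
  obtain ⟨χ, V, hV, hpV, hχ, hd, hs⟩ := holonomy h hT hp hq he
  obtain ⟨L, hL⟩ := exists_trL (n := n)
  have hO : IsOpen {y : E n | (y, p.2) ∈ V} :=
    hV.preimage (continuous_id.prodMk continuous_const)
  have hF : ∀ y : E n, (y, p.2) ∈ V → HasFDerivAt (fun x => χ (x, p.2))
      ((fderiv ℂ χ (y, p.2)).comp (ContinuousLinearMap.inl ℂ (E n) (E n))) y := fun y hy =>
    (hd.differentiableAt (hV.mem_nhds hy)).hasFDerivAt.comp y (hasFDerivAt_prodMk_left y p.2)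
  have hγ : DifferentiableOn ℂ (fun x => (χ (x, p.2)).1) {y : E n | (y, p.2) ∈ V} :=
    fun y hy => (hF y hy).fst.differentiableAt.differentiableWithinAt
  have hδ : DifferentiableOn ℂ (fun x => (χ (x, p.2)).2) {y : E n | (y, p.2) ∈ V} :=
    fun y hy => (hF y hy).snd.differentiableAt.differentiableWithinAt
  have hU : DifferentiableOn ℂ (fun y => tr (fderiv ℂ (fun x => (χ (x, p.2)).1) y))
      {y : E n | (y, p.2) ∈ V} := by
    simp only [← hL]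
    exact L.differentiable.comp_differentiableOn (hol_smooth hO hγ).2.2
  have key : ∀ y : E n, (y, p.2) ∈ V → ∃ M : E n →L[ℂ] E n,
      IsUnit (tr (fderiv ℂ (fun x => (χ (x, p.2)).1) y)) ∧
      Ring.inverse (tr (fderiv ℂ (fun x => (χ (x, p.2)).1) y)) = M ∧
      (∀ ξ u, M ξ ⬝ᵥ fderiv ℂ (fun x => (χ (x, p.2)).1) y u = ξ ⬝ᵥ u) ∧
      (∀ ξ, M (tr (fderiv ℂ (fun x => (χ (x, p.2)).1) y) ξ) = ξ) ∧
      ∀ v, Ψ (y, p.2 + v) = Ψ ((χ (y, p.2)).1, (χ (y, p.2)).2 + M v) := by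
    intro y hy
    obtain ⟨-, -, -, M, hM, hΨ, -⟩ := hs _ hy
    have hpair : ∀ ξ u, M ξ ⬝ᵥ fderiv ℂ (fun x => (χ (x, p.2)).1) y u = ξ ⬝ᵥ u := by
      intro ξ u
      rw [(hF y hy).fst.fderiv, dotProduct_comm, dotProduct_comm ξ]
      exact hM u ξ
    obtain ⟨h1, h2, -⟩ := pair_inv hpair
    let w : (E n →L[ℂ] E n)ˣ := ⟨tr (fderiv ℂ (fun x => (χ (x, p.2)).1) y), M,
      ContinuousLinearMap.ext h2, ContinuousLinearMap.ext h1⟩
    exact ⟨M, w.isUnit, Ring.inverse_unit w, hpair, h1, hΨ⟩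
  refine ⟨⟨fun x => (χ (x, p.2)).1,
    fun y => p.2 - tr (fderiv ℂ (fun x => (χ (x, p.2)).1) y) (χ (y, p.2)).2,
    fun y => Ring.inverse (tr (fderiv ℂ (fun x => (χ (x, p.2)).1) y))⟩,
    ⟨{y : E n | (y, p.2) ∈ V}, ⟨hO, fun y hy => (hs _ hy).1, hγ, ?_, ?_,
      fun y hy => (hs _ hy).2.1, ?_, ?_⟩, hpV⟩, ?_⟩
  · exact (differentiableOn_const _).sub (hU.clm_apply hδ)
  · intro y hy
    obtain ⟨M, hu, -⟩ := key y hy
    exact DifferentiableAt.comp_differentiableWithinAt (g := Ring.inverse)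
      (f := fun y => tr (fderiv ℂ (fun x => (χ (x, p.2)).1) y)) y (differentiableAt_inverse hu)
      (hU y hy)
  · intro y hy ξ u
    obtain ⟨M, -, hM, hpair, -⟩ := key y hy
    simp only [hM]
    exact hpair ξ u
  · intro y hy ξ
    obtain ⟨M, -, hM, -, h1, hΨ⟩ := key y hy
    have h2 := hΨ (ξ - p.2)
    rw [add_sub_cancel] at h2
    rw [h2]
    simp only [Ret.act, hM]
    rw [sub_sub_eq_add_sub, add_sub_right_comm, map_add, h1, add_comm]
  · obtain ⟨M, -, hM, -, h1, -⟩ := key p.1 hpV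
    simp only [Ret.act, hM]
    rw [sub_sub_cancel, h1, ← hχ]

theorem ret_closed (hinj : ∀ i, InjOn (A.p i) (A.C i).W) (h : Std A T Ψ) {g : Ret n}
    (hg : IsRet T Ψ O g) {y : E n} (hy : y ∈ O) (u v : E n) :
    fderiv ℂ g.α y u ⬝ᵥ v = fderiv ℂ g.α y v ⬝ᵥ u := by
  have key : ∀ c : ℂ, (c * (fderiv ℂ g.α y u ⬝ᵥ v)).re = (c * (fderiv ℂ g.α y v ⬝ᵥ u)).re := by
    intro c
    have h1 := pb_inv hinj (gform_20 A c) h.1 hg (y, g.α y) hy (u, 0) (v, 0)
    rw [h.2 c _ (hg.maps hy), h.2 c _ (hg.sub hy), hg.smooth.2.2.2 _ hy, hg.smooth.2.2.2 _ hy,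
      sig_apply, sig_apply] at h1
    simp only [sub_self, map_zero, add_zero, zero_sub, map_neg, dotProduct_neg, dotProduct_zero,
      mul_zero, mul_neg, Complex.neg_re] at h1
    rw [dotProduct_comm, hg.pair y hy, dotProduct_comm (fderiv ℂ g.γ y v), hg.pair y hy] at h1
    linarith
  have h1 := key 1
  have h2 := key Complex.I
  rw [one_mul, one_mul] at h1
  rw [Complex.I_mul_re, Complex.I_mul_re, neg_inj] at h2
  exact Complex.ext h1 h2

/-- Isometries of a form that is comparable with the norm are bounded. -/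
theorem iso_bd {c C : ℝ} (hc : 0 < c) (n : ℕ) : ∃ C0 : ℝ, ∀ (h h' : E n →L[ℝ] E n →L[ℝ] ℝ)
    (U M : E n →L[ℂ] E n), (∀ u, c * ‖u‖ ^ 2 ≤ h u (Complex.I • u)) →
    (∀ u, h u (Complex.I • u) ≤ C * ‖u‖ ^ 2) → (∀ u, c * ‖u‖ ^ 2 ≤ h' u (Complex.I • u)) →
    (∀ u, h' u (Complex.I • u) ≤ C * ‖u‖ ^ 2) → (∀ u v, h' (U u) (U v) = h u v) →
    (∀ ξ u, M ξ ⬝ᵥ U u = ξ ⬝ᵥ u) → ‖U‖ ≤ C0 ∧ ‖M‖ ≤ C0 ∧ ‖tr U‖ ≤ C0 := by
  have hK : ∀ a b : ℝ, 0 ≤ b → c * a ^ 2 ≤ C * b ^ 2 → a ≤ max 1 (C / c) * b := by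
    intro a b hb hab
    have h1 : (1 : ℝ) ≤ max 1 (C / c) := le_max_left _ _
    have h2 : C / c ≤ max 1 (C / c) := le_max_right _ _
    refine le_of_sq_le_sq ?_ (by positivity)
    have h3 : a ^ 2 ≤ C / c * b ^ 2 := by
      rw [div_mul_eq_mul_div, le_div_iff₀ hc]
      linarith
    have h4 : C / c ≤ max 1 (C / c) ^ 2 := h2.trans (le_self_pow₀ h1 two_ne_zero)
    rw [mul_pow]
    exact h3.trans (mul_le_mul_of_nonneg_right h4 (sq_nonneg b))
  have hK0 : (0 : ℝ) ≤ max 1 (C / c) := zero_le_one.trans (le_max_left _ _)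
  have hn : (0 : ℝ) ≤ n := Nat.cast_nonneg n
  refine ⟨(n + 1) * max 1 (C / c), fun h h' U M h1 h2 h3 h4 hi hp => ?_⟩
  have hI : ∀ u, h' (U u) (Complex.I • U u) = h u (Complex.I • u) := by
    intro u
    rw [← map_smul, hi]
  have hU : ‖U‖ ≤ max 1 (C / c) := by
    refine ContinuousLinearMap.opNorm_le_bound _ hK0 fun u => hK _ _ (norm_nonneg _) ?_
    exact (h3 _).trans ((hI u).le.trans (h2 u))
  have hU' : ∀ u, ‖u‖ ≤ max 1 (C / c) * ‖U u‖ := fun u =>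
    hK _ _ (norm_nonneg _) ((h1 u).trans ((hI u).ge.trans (h4 _)))
  refine ⟨by nlinarith, ?_, (tr_basic U U).2.2.2.2.trans (by nlinarith)⟩
  refine ContinuousLinearMap.opNorm_le_bound _ (by positivity) fun ξ => ?_
  refine (pi_norm_le_iff_of_nonneg (by positivity)).2 fun k => ?_
  obtain ⟨u, hu⟩ := (pair_inv hp).2.2.2 (Pi.single k 1)
  have e : M ξ k = ξ ⬝ᵥ u := by
    rw [← hp, hu, dotProduct_single, mul_one]
  have hu1 : ‖u‖ ≤ max 1 (C / c) := by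
    have := hU' u
    rwa [hu, Pi.norm_single, norm_one, mul_one] at this
  rw [e]
  refine (dot_le ξ u).trans ?_
  have h5 : (n : ℝ) * ‖ξ‖ * ‖u‖ ≤ n * ‖ξ‖ * max 1 (C / c) :=
    mul_le_mul_of_nonneg_left hu1 (by positivity)
  have h6 : 0 ≤ max 1 (C / c) * ‖ξ‖ := by positivity
  nlinarith

theorem ckret_near {G Y : Type} [SeminormedAddCommGroup G] [TopologicalSpace Y] {f : Y → G}
    {y : Y} (hc : ContinuousAt f y) {ε : ℝ} (hε : 0 < ε) : ∀ᶠ x in 𝓝 y, ‖f x - f y‖ ≤ ε := by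
  have := hc.eventually (Metric.closedBall_mem_nhds (f y) hε)
  simpa only [dist_eq_norm] using this

/-- A continuous positive form is comparable with the norm near a point. -/
theorem pos_near {F Y : Type} [NormedAddCommGroup F] [NormedSpace ℝ F] [NormedSpace ℂ F]
    [IsScalarTower ℝ ℂ F] [FiniteDimensional ℝ F] [TopologicalSpace Y]
    {h : Y → F →L[ℝ] F →L[ℝ] ℝ} {y : Y} (hc : ContinuousAt h y)
    (hp : ∀ u, u ≠ 0 → 0 < h y u (Complex.I • u)) :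
    ∃ c > (0 : ℝ), ∃ C : ℝ, ∀ᶠ x in 𝓝 y, ∀ u, c * ‖u‖ ^ 2 ≤ h x u (Complex.I • u) ∧
      h x u (Complex.I • u) ≤ C * ‖u‖ ^ 2 := by
  have : ProperSpace F := FiniteDimensional.proper_real F
  have hq : Continuous fun u : F => h y u (Complex.I • u) :=
    (h y).continuous.clm_apply (continuous_const_smul _)
  obtain ⟨m, hm, hmin⟩ := (isCompact_sphere (0 : F) 1).exists_forall_le' hq.continuousOn
    (a := 0) (fun u hu => hp u (by
      intro h0
      rw [h0, mem_sphere_zero_iff_norm, norm_zero] at hu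
      exact zero_ne_one hu))
  have hlow : ∀ u, m * ‖u‖ ^ 2 ≤ h y u (Complex.I • u) := by
    intro u
    by_cases hu : u = 0
    · simp [hu]
    have hn : 0 < ‖u‖ := norm_pos_iff.2 hu
    have h1 := hmin (‖u‖⁻¹ • u) (by
      rw [mem_sphere_zero_iff_norm, norm_smul, norm_inv, norm_norm, inv_mul_cancel₀ hn.ne'])
    rw [smul_comm, map_smul, map_smul (h y), smul_apply, smul_eq_mul, smul_eq_mul,
      ← mul_assoc, ← mul_inv, ← sq, inv_mul_eq_div, le_div_iff₀ (by positivity)] at h1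
    exact h1
  have hev : ∀ᶠ x in 𝓝 y, ‖h x - h y‖ ≤ m / 2 :=
    ckret_near (G := F →L[ℝ] F →L[ℝ] ℝ) hc (half_pos hm)
  refine ⟨m / 2, half_pos hm, ‖h y‖ + m / 2, hev.mono fun x hx u => ?_⟩
  have hI : ‖Complex.I • u‖ = ‖u‖ := by rw [norm_smul, Complex.norm_I, one_mul]
  have h1 := (h x - h y).le_opNorm₂ u (Complex.I • u)
  have h2 := (h y).le_opNorm₂ u (Complex.I • u)
  rw [hI, Real.norm_eq_abs, mul_assoc, ← sq] at h1 h2
  rw [sub_apply, sub_apply] at h1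
  have h3 := mul_le_mul_of_nonneg_right hx (sq_nonneg ‖u‖)
  have h4 := hlow u
  have h5 := abs_le.1 (h1.trans h3)
  have h6 := le_of_abs_le h2
  constructor <;> linarith [h5.1, h5.2]

end Pool.Agent.CK
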