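import Pool.Agent.P.MP_63735c_ag.CLDefsB

/-! Returns with a given label. -/

open scoped ContDiff Matrix ENNReal
open Set Metric MeasureTheory Filter Topology

namespace Pool.Agent.CL

open Pool.Agent.SPF

variable {n : ℕ} {X : Type} [TopologicalSpace X] [T2Space X] [MeasurableSpace X]

namespace Big

variable {B : Big n X} {l l' : B.Lab} {y : E n} {g g' : Ret n}


omit [T2Space X] in
theorem clat_T {x : E n} (hx : x ∈ ball B.S.G.y0 (2 * B.S.G.r)) : x ∈ B.S.M.T :=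
  B.S.G.sub (ball_subset_closedBall (ball_subset_ball (by linarith [B.S.G.r_pos]) hx))

omit [T2Space X] in
theorem clat_2 {x : E n} (hx : x ∈ ball B.S.G.y0 B.S.G.r) : x ∈ ball B.S.G.y0 (2 * B.S.G.r) :=
  ball_subset_ball (by linarith [B.S.G.r_pos]) hx

omit [T2Space X] in
theorem clat_32 {x : E n} (hx : x ∈ ball B.S.G.y0 B.S.G.r) :
    x ∈ ball B.S.G.y0 (3 / 2 * B.S.G.r) :=
  ball_subset_ball (by linarith [B.S.G.r_pos]) hx

omit [T2Space X] in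
theorem clat_N {j : B.S.G.G} (hy : y ∈ ball B.S.G.y0 B.S.G.r) (hg : Germ B.S.M.T B.S.M.Ψ y g)
    (hγ : g.γ =ᶠ[𝓝 y] B.S.G.γ j) : g.N =ᶠ[𝓝 y] B.S.G.N j := by
  refine hg.N_eq hγ ?_
  filter_upwards [isOpen_ball.mem_nhds (clat_2 hy)] with x hx
  exact B.S.G.pair j x hx

omit [T2Space X] in
theorem clat_cont {T : Set (E n)} {Ψ : P n → X} (hg : Germ T Ψ y g) : ContinuousAt g.γ y := by
  obtain ⟨O, hO, hy⟩ := hg
  exact (hO.γ_hol.differentiableAt (hO.isOpen.mem_nhds hy)).continuousAt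

theorem clat_single {I : Finset (Fin n)} {s : E n} (hs : ∀ k, k ∉ I → s k = 0) :
    s = ∑ i ∈ I, s i • (Pi.single i 1 : E n) := by
  funext k
  by_cases hk : k ∈ I
  · simp [Finset.sum_apply, Pi.single_apply, hk]
  · simp [Finset.sum_apply, Pi.single_apply, hk, hs k hk]

omit [T2Space X] in
theorem clat_zi {s : E n} (hs : s ∈ ZI B.S.Q.I) : ∃ m, ∀ x ∈ B.S.M.T, zm B.S.Q.z m x = s := by
  choose! mm hmm using B.S.Q.e_mem
  choose k hk using fun i => (hs i).1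
  refine ⟨∑ i ∈ B.S.Q.I, k i • mm i, fun x hx => ?_⟩
  rw [clat_single fun i => (hs i).2]
  have e : ∀ i ∈ B.S.Q.I, s i • (Pi.single i 1 : E n) =
      ∑ a, ((k i * mm i a : ℤ) : ℂ) • B.S.Q.z a x := by
    intro i hi
    rw [← hmm i hi x hx, hk i, zm, Finset.smul_sum]
    simp [mul_smul]
  rw [Finset.sum_congr rfl e, Finset.sum_comm, zm]
  refine Finset.sum_congr rfl fun a _ => ?_
  rw [← Finset.sum_smul]
  simp [Finset.sum_apply]

theorem At.germ (h : B.At l y g) : Germ B.S.M.T B.S.M.Ψ y g ∧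
    (∀ᶠ x in 𝓝 y, g.γ x = B.S.G.γ l.1 x ∧ g.N x = B.S.G.N l.1 x) ∧
    ∀ᶠ x in 𝓝 y, ∀ i ξ, B.H.Fn i (g.act (x, ξ)) - B.H.Fn i (x, ξ) = l.2 i := by
  obtain ⟨-, O, hO, hy, h1, h2⟩ := h
  refine ⟨⟨O, hO, hy⟩, ?_, ?_⟩
  · filter_upwards [hO.isOpen.mem_nhds hy] with x hx using h1 x hx
  · filter_upwards [hO.isOpen.mem_nhds hy] with x hx i ξ using h2 i (x, ξ) hx

theorem At.sm (h : B.At l y g) (hl : B.lg.sz l ≤ B.lg.ε) : B.S.Sm l.1 y g :=
  ⟨hl, h.germ.1, h.germ.2.1.mono fun _ hx => hx.1⟩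

theorem At.ev (h : B.At l y g) : ∀ᶠ x in 𝓝 y, B.At l x g := by
  obtain ⟨hb, O, hO, hy, h1, h2⟩ := h
  filter_upwards [isOpen_ball.mem_nhds hb, hO.isOpen.mem_nhds hy] with x hx1 hx2
  exact ⟨hx1, O, hO, hx2, h1, h2⟩

theorem clat_of (hy : y ∈ ball B.S.G.y0 B.S.G.r) (hg : Germ B.S.M.T B.S.M.Ψ y g)
    (hγ : g.γ =ᶠ[𝓝 y] B.S.G.γ l.1)
    (hs : ∀ᶠ x in 𝓝 y, ∀ i ξ, B.H.Fn i (g.act (x, ξ)) - B.H.Fn i (x, ξ) = l.2 i) :
    B.At l y g := by
  have hN := clat_N hy hg hγ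
  obtain ⟨O, hO, hyO⟩ := hg
  obtain ⟨U, hU, hUo, hyU⟩ := _root_.eventually_nhds_iff.1
    ((hγ.and hN).and (hs.and (hO.isOpen.mem_nhds hyO)))
  exact ⟨hy, U, hO.mono hUo fun x hx => (hU x hx).2.2, hyU, fun x hx => (hU x hx).1,
    fun i p hp => (hU p.1 hp).2.1 i p.2⟩

theorem At.congr (h : B.At l y g) (he : Ret.Eq y g g') : B.At l y g' := by
  obtain ⟨h1, h2, h3⟩ := h.germ
  refine clat_of h.1 (h1.congr he) ?_ ?_
  · filter_upwards [he, h2] with x a b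
    rw [← a.1, b.1]
  · filter_upwards [he, h3] with x a b i ξ
    rw [← b i ξ]
    simp only [Ret.act, a.1, a.2.1, a.2.2]

/-- Criterion for `At`. -/
theorem at_of (hy : y ∈ ball B.S.G.y0 B.S.G.r) (hg : Germ B.S.M.T B.S.M.Ψ y g)
    (hγ : g.γ =ᶠ[𝓝 y] B.S.G.γ l.1)
    (hs : ∀ᶠ x in 𝓝 y, ∀ i ξ, B.H.Fn i (g.act (x, ξ)) - B.H.Fn i (x, ξ) = l.2 i) :
    B.At l y g :=
  clat_of hy hg hγ hs

theorem at_of_sm {j : B.S.G.G} (hy : y ∈ ball B.S.G.y0 B.S.G.r) (h : B.S.Sm j y g) :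
    ∃ sh, B.At (j, sh) y g := by
  obtain ⟨hj, hg, hγ⟩ := h
  have hp := B.S.pres j hj y (clat_2 hy) g hg hγ
  have hN := clat_N hy hg hγ
  obtain ⟨O, hO, hyO⟩ := id hg
  obtain ⟨ρ, hρ, hU⟩ := Metric.eventually_nhds_iff_ball.1 ((hγ.and hN).and
    ((isOpen_ball.eventually_mem (clat_2 hy)).and (hO.isOpen.eventually_mem hyO)))
  have hr : IsRet B.S.M.T B.S.M.Ψ (ball y ρ) g := hO.mono isOpen_ball fun x hx => (hU x hx).2.2
  choose c hc using fun i => B.H.shift i _ g hr (convex_ball y ρ) fun x hx k => by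
    rw [(hU x hx).1.1, (hU x hx).1.2]
    exact hp k x (hU x hx).2.1
  refine ⟨c, at_of hy hg hγ ?_⟩
  filter_upwards [ball_mem_nhds y hρ] with x hx i ξ using hc i (x, ξ) hx

theorem At.uniq (h : B.At l y g) (h' : B.At l y g') :
    ∃ s ∈ ZI B.S.Q.I, ∀ᶠ x in 𝓝 y, g'.α x = g.α x + s := by
  obtain ⟨-, O, hO, hy, h1, h2⟩ := h
  obtain ⟨-, O', hO', hy', h1', h2'⟩ := h'
  have key : ∀ x ∈ O ∩ O', ∀ ξ, g'.act (x, ξ) = g.act (x, ξ - (g'.α x - g.α x)) := by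
    intro x hx ξ
    simp only [Ret.act]
    rw [(h1 x hx.1).1, (h1 x hx.1).2, (h1' x hx.2).1, (h1' x hx.2).2, sub_sub, sub_add_cancel]
  have hr : IsRet B.S.M.T B.S.M.Ψ (O ∩ O') (Ret.per fun x => g'.α x - g.α x) :=
    { isOpen := hO.isOpen.inter hO'.isOpen
      sub := inter_subset_left.trans hO.sub
      γ_hol := differentiableOn_id
      α_hol := (hO'.α_hol.mono inter_subset_right).sub (hO.α_hol.mono inter_subset_left)
      N_hol := differentiableOn_const _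
      maps := fun x hx => hO.sub hx.1
      pair := fun x _ ξ u => by simp [Ret.per]
      eq := fun x hx ξ => by
        rw [← hO'.eq x hx.2 ξ, key x hx, hO.eq x hx.1]
        rfl }
  obtain ⟨m, hm⟩ := B.S.Q.per0.all y (hO.sub hy) _ ⟨_, hr, hy, hy'⟩
  obtain ⟨s, hs, hz⟩ := B.H.rad m y (hO.sub hy) fun i => by
    have a := h2' i (y, 0) hy'
    have b := h2 i (y, 0 - (g'.α y - g.α y)) hy
    rw [key y ⟨hy, hy'⟩] at a
    rw [← hm.eq_of_nhds, ← zero_sub]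
    linarith
  refine ⟨s, hs, ?_⟩
  filter_upwards [hm, hO.isOpen.mem_nhds hy] with x a b
  rw [← hz x (hO.sub b), ← a, add_sub_cancel]

theorem At.shift (h : B.At l y g) {s : E n} (hs : s ∈ ZI B.S.Q.I) :
    B.At l y ⟨g.γ, fun x => g.α x + s, g.N⟩ := by
  obtain ⟨hb, O, hO, hy, h1, h2⟩ := h
  obtain ⟨m, hm⟩ := clat_zi hs
  have hz := isRet_zm B.S.M.T_open subset_rfl B.S.Q.per0.z_ret m
  have key : ∀ x ξ, (⟨g.γ, fun x => g.α x + s, g.N⟩ : Ret n).act (x, ξ) = g.act (x, ξ - s) := by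
    intro x ξ
    simp only [Ret.act]
    rw [sub_sub, add_comm s]
  refine ⟨hb, O, ⟨hO.isOpen, hO.sub, hO.γ_hol, hO.α_hol.add_const s, hO.N_hol, hO.maps, hO.pair,
    fun x hx ξ => ?_⟩, hy, h1, fun i p hp => ?_⟩
  · rw [key, hO.eq x hx, ← hz.eq x (hO.sub hx) ξ, ← hm x (hO.sub hx)]
    rfl
  · obtain ⟨x, ξ⟩ := p
    have a := B.H.zinv i s hs x (hO.sub hp) (ξ - s)
    rw [sub_add_cancel] at a
    rw [key, a]
    exact h2 i (x, ξ - s) hp

theorem At.lab (h : B.At l y g) (h' : B.At l' y g') (he : Ret.Eq y g g') : l = l' := by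
  obtain ⟨-, h2, h3⟩ := h.germ
  obtain ⟨-, h2', h3'⟩ := h'.germ
  have e : B.S.G.γ l.1 =ᶠ[𝓝 y] B.S.G.γ l'.1 := by
    filter_upwards [he, h2, h2'] with x a b c
    rw [← b.1, ← c.1, a.1]
  have ej : jet (B.S.G.γ l.1) y = jet (B.S.G.γ l'.1) y := by
    rw [jet, jet, e.eq_of_nhds, e.fderiv_eq]
  have c := B.S.G.cmp l.1 l'.1 B.S.G.y0 (mem_ball_self (by linarith [B.S.G.r_pos])) y
    (clat_2 h.1)
  rw [ej, sub_self, norm_zero, mul_zero, norm_le_zero_iff, sub_eq_zero, ← B.S.G.jt_eq,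
    ← B.S.G.jt_eq] at c
  refine Prod.ext (B.S.G.jt_inj c) (funext fun i => ?_)
  have a := he.self_of_nhds
  rw [← h3.self_of_nhds i 0, ← h3'.self_of_nhds i 0]
  simp only [Ret.act, a.1, a.2.1, a.2.2]

theorem At.fix (h : B.At l y g) (hl : B.lg.sz l ≤ B.lg.ε) :
    (∀ m, ∀ x ∈ ball B.S.G.y0 (2 * B.S.G.r),
      B.S.G.N l.1 x (zm B.S.Q.z m x) = zm B.S.Q.z m (B.S.G.γ l.1 x)) ∧
    ∀ x ∈ ball B.S.G.y0 (2 * B.S.G.r), ∀ s, piI B.S.Q.I s = 0 →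
      B.S.G.N l.1 x s = s ∧ tr (fderiv ℂ (B.S.G.γ l.1) x) s = s := by
  obtain ⟨hj, hg, hγ⟩ := h.sm hl
  have hp := B.S.pres l.1 hj y (clat_2 h.1) g hg hγ
  have h1 : ∀ m, ∀ x ∈ ball B.S.G.y0 (2 * B.S.G.r),
      B.S.G.N l.1 x (zm B.S.Q.z m x) = zm B.S.Q.z m (B.S.G.γ l.1 x) := by
    intro m x hx
    simp only [zm, map_sum, map_smul, hp _ x hx]
  refine ⟨h1, fun x hx s hs => ?_⟩
  have hT : B.S.G.γ l.1 x ∈ B.S.M.T := by
    refine B.S.G.sub ?_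
    have a := (B.S.G.near l.1 hj x hx).1
    have b := B.S.G.small.trans (min_le_left _ _)
    have c := mul_le_mul_of_nonneg_left hj (zero_le_one.trans B.S.G.lg.L_ge)
    have d := dist_triangle (B.S.G.γ l.1 x) x B.S.G.y0
    rw [mem_ball] at hx
    rw [dist_eq_norm (B.S.G.γ l.1 x) x] at d
    rw [mem_closedBall]
    linarith [B.S.G.r_pos]
  have hN : B.S.G.N l.1 x s = s := by
    have e := clat_single (I := B.S.Q.I) (s := s) fun k hk => by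
      have := congrFun hs k
      rwa [piI_apply, if_neg hk] at this
    rw [e, map_sum]
    refine Finset.sum_congr rfl fun i hi => ?_
    obtain ⟨m, hm⟩ := B.S.Q.e_mem i hi
    rw [map_smul, ← hm x (clat_T hx), h1 m x hx, hm x (clat_T hx), hm _ hT]
  refine ⟨hN, ?_⟩
  have := (pair_inv (B.S.G.pair l.1 x hx)).2.1 s
  rwa [hN] at this

theorem rho_mem (l : B.Lab) : B.rho l ∈ RI B.S.Q.I := fun k => by
  by_cases h : k ∈ B.S.Q.I <;> simp [rho, h]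

theorem rho_mul (l l' : B.Lab) : B.rho (B.lg.mul l l') = B.rho l + B.rho l' ∧
    B.rho (B.lg.inv l) = -B.rho l ∧ B.rho B.lg.one = 0 := by
  refine ⟨?_, ?_, ?_⟩ <;> funext k <;> by_cases h : k ∈ B.S.Q.I <;> simp [rho, lg, h]

theorem At.mom (h : B.At l y g) :
    ∀ᶠ x in 𝓝 y, ∀ ξ, B.A.r (g.act (x, ξ)) = B.A.r (x, ξ) + B.rho l := by
  filter_upwards [h.germ.2.2] with x hx ξ
  funext k
  have a := B.A.r_mem (g.act (x, ξ)) k
  have b := B.A.r_mem (x, ξ) k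
  have c := hx (B.H.imom k) ξ
  rw [B.H.mom, B.H.mom] at c
  by_cases hk : k ∈ B.S.Q.I
  · refine Complex.ext ?_ ?_
    · simp only [rho, Pi.add_apply, if_pos hk, Complex.add_re, Complex.ofReal_re]
      linarith
    · simp [rho, hk, a.1, b.1]
  · simp [rho, hk, a.2 hk, b.2 hk]

theorem At.mom0 (h : B.At l y g) :
    B.A.r (y, g.α y) = B.A.r (B.S.G.γ l.1 y, 0) - B.rho l := by
  have a := h.mom.self_of_nhds (g.α y)
  have b : g.act (y, g.α y) = (B.S.G.γ l.1 y, 0) := by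
    simp [Ret.act, h.germ.2.1.self_of_nhds.1]
  rw [← b, a, add_sub_cancel_right]

theorem at_one (hy : y ∈ ball B.S.G.y0 B.S.G.r) :
    B.At B.lg.one y (Ret.per fun _ => 0) := by
  refine at_of hy ⟨_, isRet_one B.S.M.T_open, clat_T (clat_2 hy)⟩
    (Eventually.of_forall fun x => (B.S.G.γ_one x).symm) (Eventually.of_forall fun x i ξ => ?_)
  simp [Ret.act, Ret.per, lg]

theorem At.mul (h : B.At l y g) (h' : B.At l' (B.S.G.γ l.1 y) g') (hl : B.lg.sz l ≤ B.lg.ε)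
    (hl' : B.lg.sz l' ≤ B.lg.ε) : B.At (B.lg.mul l' l) y (g'.comp g) := by
  obtain ⟨h1, h2, h3⟩ := h.germ
  obtain ⟨h1', h2', h3'⟩ := h'.germ
  rw [← h2.self_of_nhds.1] at h1' h2' h3'
  obtain ⟨c1, c2⟩ := h1.comp h1'
  have hc := clat_cont h1
  refine at_of h.1 c1 ?_ ?_
  · filter_upwards [h2, hc.eventually h2', isOpen_ball.mem_nhds (clat_32 h.1)] with x a b c
    have e := B.S.G.γ_mul l'.1 l.1 hl' hl x c
    rw [← a.1, ← b.1] at e
    exact e.symm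
  · filter_upwards [h3, hc.eventually h3', c2] with x a b c i ξ
    have e : B.H.Fn i (g'.act (g.act (x, ξ))) - B.H.Fn i (g.act (x, ξ)) = l'.2 i := b i _
    have e' := a i ξ
    rw [c]
    change _ = l'.2 i + l.2 i
    linarith

theorem At.inv (h : B.At l y g) (hl : B.lg.L * B.lg.sz l ≤ B.lg.ε)
    (hy : B.S.G.γ l.1 y ∈ ball B.S.G.y0 B.S.G.r) :
    ∃ g', B.At (B.lg.inv l) (B.S.G.γ l.1 y) g' ∧
      ∀ᶠ x in 𝓝 y, g'.γ (g.γ x) = x ∧ g'.α (g.γ x) = -g.N x (g.α x) ∧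
        ∀ ξ, g'.act (g.act (x, ξ)) = (x, ξ) := by
  obtain ⟨h1, h2, h3⟩ := h.germ
  obtain ⟨g', a1, a2, a3⟩ := B.S.M.inv h1
  have s0 : 0 ≤ B.lg.sz l := norm_nonneg _
  have s1 : B.lg.sz l ≤ B.lg.ε := by nlinarith [B.lg.L_ge]
  have s2 : B.lg.sz (B.lg.inv l) ≤ B.lg.ε := by
    have := B.lg.lip_inv l B.lg.one s1 (by simpa using B.lg.ε_pos.le)
    rw [B.lg.inv_one] at this
    exact this.trans hl
  have hc : Tendsto g'.γ (𝓝 (g.γ y)) (𝓝 y) := by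
    have := (clat_cont a1).tendsto
    rwa [a2.self_of_nhds.1] at this
  refine ⟨g', ?_, a2⟩
  rw [← h2.self_of_nhds.1] at hy ⊢
  refine at_of hy a1 ?_ ?_
  · filter_upwards [a3, hc.eventually h2, hc.eventually (isOpen_ball.mem_nhds (clat_32 h.1))]
      with x a b c
    have e := B.S.G.γ_mul (B.lg.inv l).1 l.1 s2 s1 _ c
    have e2 : B.S.G.lg.mul (B.lg.inv l).1 l.1 = B.S.G.lg.one := B.S.G.lg.inv_mul l.1 s1
    rw [e2, B.S.G.γ_one, ← b.1, a.1] at e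
    exact e
  · filter_upwards [a3, hc.eventually h3] with x a b i ξ
    have e : B.H.Fn i (g.act (g'.act (x, ξ))) - B.H.Fn i (g'.act (x, ξ)) = l.2 i := b i _
    rw [a.2] at e
    change _ = -l.2 i
    linarith


end Big

end Pool.Agent.CL
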