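import Pool.Agent.P.MP_63735c_ag.CLRemez

/-! Extension to a ball of fixed size. -/

open scoped ContDiff Matrix ENNReal
open Set Metric MeasureTheory Filter Topology

namespace Pool.Agent.CL

open Pool.Agent.SPF

theorem clext_iter {n : ℕ} {b : E n → E n} {ε : ℝ} (hε : 0 < ε)
    (hb : DifferentiableOn ℂ b (ball 0 ε)) (u : E n) (k : ℕ) :
    iteratedDeriv k (fun t : ℂ => b (t • u)) 0 = iteratedFDeriv ℂ k b 0 (fun _ => u) := by
  have hs : ContDiffOn ℂ ∞ b (ball 0 ε) := (hol_smooth isOpen_ball hb).1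
  set L : ℂ →L[ℂ] E n := (ContinuousLinearMap.id ℂ ℂ).smulRight u with hL
  have hLt : ∀ t : ℂ, L t = t • u := fun t => by simp [hL]
  have ho : IsOpen (L ⁻¹' ball (0 : E n) ε) := isOpen_ball.preimage L.continuous
  have h0 : L 0 ∈ ball (0 : E n) ε := by simpa using hε
  have h1 := L.iteratedFDerivWithin_comp_right hs isOpen_ball.uniqueDiffOn ho.uniqueDiffOn h0
    (i := k) (by exact_mod_cast le_top)
  rw [iteratedFDerivWithin_of_isOpen k ho h0, iteratedFDerivWithin_of_isOpen k isOpen_ball h0] at h1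
  have h2 : (fun t : ℂ => b (t • u)) = b ∘ L := by
    funext t
    simp [hLt]
  rw [h2, iteratedDeriv_eq_iteratedFDeriv, h1]
  simp [hLt]

theorem ext_ball (n : ℕ) : ∃ r > (0 : ℝ), ∃ C : ℝ, r ≤ 1 ∧ ∀ (b : E n → E n) (M : Set (E n)),
    (∀ᶠ x in 𝓝 (0 : E n), DifferentiableAt ℂ b x) → M ⊆ ball 0 1 →
    volume (ball (0 : E n) 1) ≤ 2 * volume M →
    (∀ u ∈ M, ∀ k, ‖iteratedDeriv k (fun t : ℂ => b (t • u)) 0‖ ≤ k.factorial * 2 * 16 ^ k) →
    ∃ b' : E n → E n, DifferentiableOn ℂ b' (ball 0 r) ∧ b' =ᶠ[𝓝 0] b ∧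
      ∀ x ∈ ball (0 : E n) r, ‖b' x‖ ≤ C := by
  obtain ⟨C, hC, hrem⟩ := remez n
  have hC0 : 0 < C := by linarith
  set r : ℝ := 1 / (32 * C) with hr
  have hr0 : 0 < r := by positivity
  refine ⟨r, hr0, 4 * C, ?_, fun b M hb hM hvol hbd => ?_⟩
  · rw [hr, div_le_one (by positivity)]
    linarith
  obtain ⟨ε, hε, hbε⟩ := Metric.eventually_nhds_iff_ball.mp hb
  have hbd' : DifferentiableOn ℂ b (ball 0 ε) := fun x hx => (hbε x hx).differentiableWithinAt
  set Pk : ℕ → E n → E n := fun k u =>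
    (k.factorial : ℂ)⁻¹ • iteratedFDeriv ℂ k b 0 (fun _ => u) with hPk
  have hdiff : ∀ k, Differentiable ℂ (Pk k) := by
    intro k
    have h1 : Differentiable ℂ (iteratedFDeriv ℂ k b 0) :=
      ((iteratedFDeriv ℂ k b 0).contDiff (n := 1)).differentiable (by simp)
    have h2 : Differentiable ℂ (fun u : E n => (fun _ : Fin k => u)) :=
      differentiable_pi.mpr fun _ => differentiable_id
    exact (h1.comp h2).const_smul ((k.factorial : ℂ)⁻¹)
  have hhom : ∀ k (t : ℂ) u, Pk k (t • u) = t ^ k • Pk k u := by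
    intro k t u
    have := (iteratedFDeriv ℂ k b 0).map_smul_univ (fun _ => t) (fun _ => u)
    simp only [hPk]
    rw [this, smul_comm]
    simp
  have hM1 : ∀ k, ∀ u ∈ M, ‖Pk k u‖ ≤ 2 * 16 ^ k := by
    intro k u hu
    have h1 := hbd u hu k
    rw [clext_iter hε hbd'] at h1
    have hf : (0 : ℝ) < k.factorial := by exact_mod_cast k.factorial_pos
    simp only [hPk]
    rw [norm_smul, norm_inv, Complex.norm_natCast, inv_mul_le_iff₀ hf]
    linarith
  have hB1 : ∀ k, ∀ u ∈ ball (0 : E n) 1, ‖Pk k u‖ ≤ 2 * 16 ^ k * C ^ (k + 1) := by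
    intro k u hu
    refine (pi_norm_le_iff_of_nonneg (by positivity)).mpr fun j => ?_
    refine hrem k (fun u => Pk k u j) (2 * 16 ^ k) M (differentiable_pi.mp (hdiff k) j) ?_ hM hvol
      (fun u hu => (norm_le_pi_norm _ j).trans (hM1 k u hu)) u hu
    intro t u
    rw [hhom]
    simp
  have hBr : ∀ k, ∀ x ∈ ball (0 : E n) r, ‖Pk k x‖ ≤ 2 * C * (1 / 2) ^ k := by
    intro k x hx
    have hrc : (r : ℂ) ≠ 0 := by exact_mod_cast hr0.ne'
    have hx' : (r : ℂ)⁻¹ • x ∈ ball (0 : E n) 1 := by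
      rw [mem_ball_zero_iff] at hx ⊢
      rw [norm_smul, norm_inv, Complex.norm_real, Real.norm_of_nonneg hr0.le,
        inv_mul_lt_iff₀ hr0]
      linarith
    have h1 := hhom k (r : ℂ) ((r : ℂ)⁻¹ • x)
    rw [smul_inv_smul₀ hrc] at h1
    rw [h1, norm_smul, norm_pow, Complex.norm_real, Real.norm_of_nonneg hr0.le]
    have h2 : r * 16 * C = 1 / 2 := by
      rw [hr]
      field_simp
      norm_num
    calc r ^ k * ‖Pk k ((r : ℂ)⁻¹ • x)‖ ≤ r ^ k * (2 * 16 ^ k * C ^ (k + 1)) :=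
          mul_le_mul_of_nonneg_left (hB1 k _ hx') (by positivity)
      _ = 2 * C * (r * 16 * C) ^ k := by
          rw [mul_pow, mul_pow]
          ring
      _ = _ := by rw [h2]
  have hsum : ∀ N : ℕ, ∀ x ∈ ball (0 : E n) r, ‖∑ k ∈ Finset.range N, Pk k x‖ ≤ 4 * C := by
    intro N x hx
    calc ‖∑ k ∈ Finset.range N, Pk k x‖ ≤ ∑ k ∈ Finset.range N, 2 * C * (1 / 2 : ℝ) ^ k :=
          norm_sum_le_of_le _ fun k _ => hBr k x hx
      _ = 2 * C * ∑ k ∈ Finset.range N, (1 / 2 : ℝ) ^ k := by rw [Finset.mul_sum]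
      _ ≤ 2 * C * 2 := mul_le_mul_of_nonneg_left (sum_geometric_two_le N) (by positivity)
      _ = 4 * C := by ring
  obtain ⟨g, hg, hlim⟩ := hol_ulim (Ultrafilter.of (atTop : Filter ℕ)) (O := ball (0 : E n) r)
    isOpen_ball (f := fun N x => ∑ k ∈ Finset.range N, Pk k x) (M := 4 * C)
    (Eventually.of_forall fun N =>
      ⟨(Differentiable.fun_sum fun k _ => hdiff k).differentiableOn, hsum N⟩)
  refine ⟨g, hg, ?_, fun x hx => ?_⟩
  · have hρ : 0 < min r (ε / 2) := lt_min hr0 (by positivity)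
    filter_upwards [ball_mem_nhds (0 : E n) hρ] with x hx
    have hxr : x ∈ ball (0 : E n) r := ball_subset_ball (min_le_left _ _) hx
    have hxe : ‖x‖ < ε / 2 := (mem_ball_zero_iff.mp hx).trans_le (min_le_right _ _)
    have hφ : DifferentiableOn ℂ (fun t : ℂ => b (t • x)) (ball 0 2) := by
      intro t ht
      have ht' : t • x ∈ ball (0 : E n) ε := by
        rw [mem_ball_zero_iff] at ht ⊢
        rw [norm_smul]
        nlinarith [norm_nonneg t, norm_nonneg x]
      exact ((hbε _ ht').comp t (differentiableAt_id.smul_const x)).differentiableWithinAt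
    have h1 := Complex.hasSum_taylorSeries_on_ball hφ (z := 1) (by simp)
    simp only [sub_zero, one_pow, one_smul, clext_iter hε hbd'] at h1
    exact tendsto_nhds_unique (hlim x hxr).1
      (h1.tendsto_sum_nat.mono_left (Ultrafilter.of_le _))
  · exact le_of_tendsto (hlim x hx).1.norm (Eventually.of_forall fun N => hsum N x hx)

end Pool.Agent.CL
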