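import Pool.Agent.P.MP_63735c_ag.CLMV0
import Pool.Agent.P.MP_63735c_ag.CLHol

/-! A bounded holomorphic map extends across a polar boundary. -/

open scoped ContDiff Matrix ENNReal
open Set Metric MeasureTheory Filter Topology

namespace Pool.Agent.CL

open Pool.Agent.SPF

variable {n : ℕ}

lemma clweyl_neg (u : ℂ → ℝ) (z e : ℂ) : Lv (fun y => -u y) z e = -Lv u z e := by
  have h1 : fderiv ℝ (fun y => -u y) = fun x => -fderiv ℝ u x := funext fun _ => fderiv_fun_neg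
  simp only [Lv, D2, h1, fderiv_fun_neg, neg_apply]
  ring

lemma clweyl_scale (u : ℂ → ℝ) (z : ℂ) (ρ : ℝ) : Lv u z (ρ : ℂ) = ρ ^ 2 * Lv u z 1 := by
  have h1 : (ρ : ℂ) = ρ • (1 : ℂ) := by simp
  have h2 : Complex.I • (ρ : ℂ) = ρ • (Complex.I • (1 : ℂ)) := by simp [mul_comm]
  unfold Lv D2
  rw [h2]
  conv_lhs => rw [h1]
  simp only [map_smul, smul_apply, smul_eq_mul]
  ring

/-- Sub-mean value inequality on small discs. -/
lemma clweyl_sub {w : ℂ → ℝ}
    (hmv : ∀ V : ℂ → ℝ, ContDiffOn ℝ 2 V (ball 0 2) → (∀ t ∈ ball (0 : ℂ) 1, Lv V t 1 ≤ 0) →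
      ∫ t, V t * w t ≤ V 0)
    {u : ℂ → ℝ} (hu : ∀ z ∈ ball (0 : ℂ) (1 / 4), ContDiffAt ℝ 2 u z ∧ 0 ≤ Lv u z 1)
    {t : ℂ} {ρ : ℝ} (hρ : 0 < ρ) (ht : ‖t‖ + 2 * ρ ≤ 1 / 4) :
    u t ≤ ∫ x, u (t + ρ * x) * w x := by
  have hin : ∀ x ∈ ball (0 : ℂ) 2, t + ρ * x ∈ ball (0 : ℂ) (1 / 4) := by
    intro x hx
    rw [mem_ball_zero_iff] at hx ⊢
    have h1 : ‖(ρ : ℂ) * x‖ = ρ * ‖x‖ := by simp [abs_of_pos hρ]
    have h2 := norm_add_le t (ρ * x)
    nlinarith
  have key := hmv (fun x => -u (t + ρ * x)) ?_ ?_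
  · simp only [neg_mul, integral_neg, mul_zero, add_zero] at key
    linarith
  · intro x hx
    refine ContDiffAt.contDiffWithinAt ?_
    have hg : ContDiffAt ℝ 2 (fun y : ℂ => t + ρ * y) x := by fun_prop
    exact ((hu _ (hin x hx)).1.comp x hg).neg
  · intro x hx
    have hx2 := hin x (ball_subset_ball (by norm_num) hx)
    have hd : fderiv ℂ (fun y : ℂ => t + ρ * y) x 1 = ρ := by
      have : HasDerivAt (fun y : ℂ => t + ρ * y) (ρ : ℂ) x := by
        simpa using ((hasDerivAt_id x).const_mul (ρ : ℂ)).const_add t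
      exact this.deriv
    have := Lv_comp (f := fun y => -u y) (g := fun y : ℂ => t + ρ * y) (x := x)
      (hu _ hx2).1.neg (Eventually.of_forall fun y => by fun_prop) 1
    rw [this, hd, clweyl_neg, clweyl_scale]
    have := (hu _ hx2).2
    nlinarith [sq_nonneg ρ, mul_nonneg (sq_nonneg ρ) this]

/-- The truncated function is subharmonic on the whole disc. -/
lemma clweyl_trunc {Ω : Set ℂ} {U h : ℂ → ℝ} (hΩ : IsOpen Ω)
    (smooth : ContDiffOn ℝ 2 U Ω) (nonneg : ∀ t ∈ Ω, 0 ≤ U t) (sup : ∀ t ∈ Ω, Lv U t 1 ≤ 0)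
    (proper : ∀ s < (1 / 4 : ℝ), ∀ M, IsCompact {t ∈ Ω | ‖t‖ ≤ s ∧ U t ≤ M})
    (hs : ContDiffOn ℝ 2 h Ω) (hb : ∀ t ∈ Ω, |h t| ≤ 2) (hl : ∀ t ∈ Ω, 0 ≤ Lv h t 1)
    {ε : ℝ} (hε : 0 < ε) :
    ∃ u : ℂ → ℝ, Measurable u ∧ (∀ z, -4 ≤ u z ∧ u z ≤ Ω.indicator h z) ∧
      (∀ z ∈ Ω, ε * U z ≤ 1 → u z = h z - ε * U z) ∧
      ∀ z ∈ ball (0 : ℂ) (1 / 4), ContDiffAt ℝ 2 u z ∧ 0 ≤ Lv u z 1 := by
  classical
  obtain ⟨χ, hχ, d1, d2, hid, hlow, hbd⟩ := exists_trunc 3
  set f : ℂ → ℝ := fun y => 1 * h y + (-ε) * U y with hf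
  have hfs : ∀ z ∈ Ω, ContDiffAt ℝ 2 f z := fun z hz =>
    (contDiffAt_const.mul (hs.contDiffAt (hΩ.mem_nhds hz))).add
      (contDiffAt_const.mul (smooth.contDiffAt (hΩ.mem_nhds hz)))
  refine ⟨Ω.piecewise (fun y => χ (f y)) fun _ => -4, ?_, ?_, ?_, ?_⟩
  · refine ContinuousOn.measurable_piecewise ?_ continuousOn_const hΩ.measurableSet
    exact fun z hz => (hχ.continuous.continuousAt.comp (hfs z hz).continuousAt).continuousWithinAt
  · intro z
    by_cases hz : z ∈ Ω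
    · rw [piecewise_eq_of_mem _ _ _ hz, indicator_of_mem hz]
      have h1 := hbd (f z)
      have h2 := abs_le.1 (hb z hz)
      have h3 := mul_nonneg hε.le (nonneg z hz)
      refine ⟨by linarith [h1.1], h1.2.trans (max_le ?_ (by linarith))⟩
      simp only [hf]
      linarith
    · rw [piecewise_eq_of_notMem _ _ _ hz, indicator_of_notMem hz]
      norm_num
  · intro z hz h1
    have h2 := abs_le.1 (hb z hz)
    rw [piecewise_eq_of_mem _ _ _ hz, hid]
    · simp only [hf]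
      ring
    · simp only [hf]
      linarith
  · intro z hz4
    by_cases hz : z ∈ Ω
    · have hev : (Ω.piecewise (fun y => χ (f y)) fun _ => -4) =ᶠ[𝓝 z] fun y => χ (f y) := by
        filter_upwards [hΩ.mem_nhds hz] with y hy
        exact piecewise_eq_of_mem _ _ _ hy
      refine ⟨(hχ.contDiffAt.comp z (hfs z hz)).congr_of_eventuallyEq hev, ?_⟩
      have hLf : 0 ≤ Lv f z 1 := by
        have a1 := hs.contDiffAt (hΩ.mem_nhds hz)
        have a2 := smooth.contDiffAt (hΩ.mem_nhds hz)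
        have b1 := hl z hz
        have b2 := mul_nonneg hε.le (neg_nonneg.2 (sup z hz))
        unfold Lv at b1 b2 ⊢
        rw [hf, D2_add a1 a2, D2_add a1 a2]
        linarith
      unfold Lv at hLf ⊢
      rw [D2_congr hev, D2_congr hev, D2_comp (hfs z hz) hχ.contDiffAt,
        D2_comp (hfs z hz) hχ.contDiffAt]
      have c1 := mul_nonneg (d1 (f z)) hLf
      have c2 := mul_nonneg (d2 (f z)) (sq_nonneg (fderiv ℝ f z 1))
      have c3 := mul_nonneg (d2 (f z)) (sq_nonneg (fderiv ℝ f z (Complex.I • 1)))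
      linarith
    · rw [mem_ball_zero_iff] at hz4
      obtain ⟨s, hs1, hs2⟩ := exists_between hz4
      have hK := (proper s hs2 (7 / ε)).isClosed
      have hev : (Ω.piecewise (fun y => χ (f y)) fun _ => -4) =ᶠ[𝓝 z] fun _ => (-4 : ℝ) := by
        have e1 : ball (0 : ℂ) s ∈ 𝓝 z := isOpen_ball.mem_nhds (mem_ball_zero_iff.2 hs1)
        have e2 := hK.isOpen_compl.mem_nhds (x := z) fun hc => hz hc.1
        filter_upwards [e1, e2] with y hy1 hy2
        by_cases hy : y ∈ Ω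
        · rw [piecewise_eq_of_mem _ _ _ hy, hlow]
          · norm_num
          · have h1 : 7 / ε < U y := by
              by_contra hc
              exact hy2 ⟨hy, (mem_ball_zero_iff.1 hy1).le, not_lt.1 hc⟩
            rw [div_lt_iff₀ hε] at h1
            have h2 := abs_le.1 (hb y hy)
            simp only [hf]
            linarith
        · exact piecewise_eq_of_notMem _ _ _ hy
      refine ⟨contDiffAt_const.congr_of_eventuallyEq hev, ?_⟩
      unfold Lv
      rw [D2_congr hev, D2_congr hev]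
      simp [D2]

lemma clweyl_meas {G : Type} [NormedAddCommGroup G] [MeasurableSpace G] [BorelSpace G]
    {Ω : Set ℂ} (hΩ : IsOpen Ω) {h : ℂ → G} (hc : ContinuousOn h Ω) :
    Measurable (Ω.indicator h) := by
  classical
  rw [← piecewise_eq_indicator]
  exact hc.measurable_piecewise continuousOn_const hΩ.measurableSet

/-- Mean value inequality for bounded subharmonic functions on `Ω`. -/
lemma clweyl_le {w : ℂ → ℝ} (hw : Integrable w) (hw0 : ∀ t, 0 ≤ w t)
    (hmv : ∀ V : ℂ → ℝ, ContDiffOn ℝ 2 V (ball 0 2) → (∀ t ∈ ball (0 : ℂ) 1, Lv V t 1 ≤ 0) →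
      ∫ t, V t * w t ≤ V 0)
    {Ω : Set ℂ} {U h : ℂ → ℝ} (hΩ : IsOpen Ω)
    (smooth : ContDiffOn ℝ 2 U Ω) (nonneg : ∀ t ∈ Ω, 0 ≤ U t) (sup : ∀ t ∈ Ω, Lv U t 1 ≤ 0)
    (proper : ∀ s < (1 / 4 : ℝ), ∀ M, IsCompact {t ∈ Ω | ‖t‖ ≤ s ∧ U t ≤ M})
    (hs : ContDiffOn ℝ 2 h Ω) (hb : ∀ t ∈ Ω, |h t| ≤ 2) (hl : ∀ t ∈ Ω, 0 ≤ Lv h t 1)
    {t : ℂ} (htΩ : t ∈ Ω) {ρ : ℝ} (hρ : 0 < ρ) (ht : ‖t‖ + 2 * ρ ≤ 1 / 4) :
    h t ≤ ∫ x, Ω.indicator h (t + ρ * x) * w x := by
  have hU := nonneg t htΩ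
  have haff : Measurable fun x : ℂ => t + ρ * x := by fun_prop
  have hib : ∀ z, |Ω.indicator h z| ≤ 2 := fun z => by
    by_cases hz : z ∈ Ω
    · rw [indicator_of_mem hz]
      exact hb z hz
    · rw [indicator_of_notMem hz]
      norm_num
  refine le_of_forall_pos_le_add fun δ hδ => ?_
  have hε : 0 < min δ 1 / (U t + 1) := by positivity
  have hεU : min δ 1 / (U t + 1) * U t ≤ min δ 1 := by
    rw [div_mul_eq_mul_div, div_le_iff₀ (by positivity)]
    have : 0 < min δ 1 := by positivity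
    nlinarith
  obtain ⟨u, um, ub, ue, us⟩ := clweyl_trunc hΩ smooth nonneg sup proper hs hb hl hε
  have h1 := clweyl_sub hmv us hρ ht
  rw [ue t htΩ (hεU.trans (min_le_right _ _))] at h1
  have h2 : ∫ x, u (t + ρ * x) * w x ≤ ∫ x, Ω.indicator h (t + ρ * x) * w x := by
    refine integral_mono ?_ ?_ fun x => mul_le_mul_of_nonneg_right (ub _).2 (hw0 x)
    · refine hw.bdd_mul (c := 4) (um.comp haff).aestronglyMeasurable (ae_of_all _ fun x => ?_)
      have a1 := ub (t + ρ * x)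
      have a2 := abs_le.1 (hib (t + ρ * x))
      rw [Real.norm_eq_abs, abs_le]
      constructor <;> linarith [a1.1, a1.2]
    · exact hw.bdd_mul (c := 2) ((clweyl_meas hΩ hs.continuousOn).comp haff).aestronglyMeasurable
        (ae_of_all _ fun x => hib _)
  linarith [min_le_left δ 1]

theorem weyl {Ω : Set ℂ} {β : ℂ → E n} {U : ℂ → ℝ} (hΩ : IsOpen Ω) (sub : Ω ⊆ ball 0 (1 / 4))
    (h0 : (0 : ℂ) ∈ Ω) (hol : DifferentiableOn ℂ β Ω) (bd : ∀ t ∈ Ω, ‖β t‖ ≤ 2)
    (smooth : ContDiffOn ℝ 2 U Ω) (nonneg : ∀ t ∈ Ω, 0 ≤ U t) (sup : ∀ t ∈ Ω, Lv U t 1 ≤ 0)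
    (proper : ∀ s < (1 / 4 : ℝ), ∀ M, IsCompact {t ∈ Ω | ‖t‖ ≤ s ∧ U t ≤ M}) (k : ℕ) :
    ‖iteratedDeriv k β 0‖ ≤ k.factorial * 2 * 16 ^ k := by
  obtain ⟨w, wsm, w0, wsupp, w1, ⟨c, hc, wc⟩, C, -, hC⟩ := mv_plane
  have hmv : ∀ V : ℂ → ℝ, ContDiffOn ℝ 2 V (ball 0 2) → (∀ t ∈ ball (0 : ℂ) 1, Lv V t 1 ≤ 0) →
      ∫ t, V t * w t ≤ V 0 := by
    intro V hV hL
    have := hC V (fun _ => 0) hV fun t ht => by simpa using hL t ht
    simpa using this
  have wcs : HasCompactSupport w := by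
    refine HasCompactSupport.intro (isCompact_closedBall (0 : ℂ) 1) fun x hx => wsupp x ?_
    rw [mem_closedBall_zero_iff, not_le] at hx
    exact hx.le
  have wint : Integrable w := wsm.continuous.integrable_of_hasCompactSupport wcs
  -- density of the domain
  have hdense : ∀ z ∈ ball (0 : ℂ) (3 / 32), z ∈ closure (Ω ∩ ball 0 (3 / 32)) := by
    have h1 := clweyl_le wint w0 hmv (h := fun _ => 1) hΩ smooth nonneg sup proper
      contDiffOn_const (fun _ _ => by norm_num) (fun _ _ => by simp [Lv, D2]) h0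
      (ρ := 1 / 8) (by norm_num) (by norm_num)
    have hm : Measurable fun x : ℂ => Ω.indicator (fun _ => (1 : ℝ)) (0 + ((1 / 8 : ℝ) : ℂ) * x) :=
      (clweyl_meas hΩ continuousOn_const).comp (by fun_prop)
    have hb1 : ∀ y, Ω.indicator (fun _ => (1 : ℝ)) y ≤ 1 ∧ 0 ≤ Ω.indicator (fun _ => (1 : ℝ)) y :=
      fun y => by by_cases hy : y ∈ Ω <;> simp [hy]
    have hi := wint.bdd_mul (c := 1) hm.aestronglyMeasurable (ae_of_all _ fun x => by
      rw [Real.norm_eq_abs, abs_of_nonneg (hb1 _).2]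
      exact (hb1 _).1)
    have hnn : ∀ x : ℂ, 0 ≤ w x -
        Ω.indicator (fun _ => (1 : ℝ)) (0 + ((1 / 8 : ℝ) : ℂ) * x) * w x := fun x => by
      nlinarith [w0 x, (hb1 (0 + ((1 / 8 : ℝ) : ℂ) * x)).1]
    have hz : ∫ x, (w x - Ω.indicator (fun _ => (1 : ℝ)) (0 + ((1 / 8 : ℝ) : ℂ) * x) * w x) = 0 := by
      refine le_antisymm ?_ (integral_nonneg hnn)
      rw [integral_sub wint hi, w1]
      linarith
    have hae := (integral_eq_zero_iff_of_nonneg hnn (wint.sub hi)).1 hz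
    have hd := Measure.dense_of_ae hae
    intro z hz
    rw [_root_.mem_closure_iff]
    intro O hO hzO
    have hO' : IsOpen ((fun x : ℂ => 0 + ((1 / 8 : ℝ) : ℂ) * x) ⁻¹' (O ∩ ball 0 (3 / 32))) :=
      (hO.inter isOpen_ball).preimage (by fun_prop)
    obtain ⟨x, hx1, hx2⟩ := hd.inter_open_nonempty _ hO' ⟨8 * z, by
      have : 0 + ((1 / 8 : ℝ) : ℂ) * (8 * z) = z := by
        push_cast
        ring
      rw [mem_preimage, this]
      exact ⟨hzO, hz⟩⟩
    refine ⟨_, hx1.1, ?_, hx1.2⟩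
    by_contra hn
    replace hn : 0 + ((1 / 8 : ℝ) : ℂ) * x ∉ Ω := hn
    have h3 : ‖x‖ ≤ 3 / 4 := by
      have : ‖0 + ((1 / 8 : ℝ) : ℂ) * x‖ < 3 / 32 := mem_ball_zero_iff.1 hx1.2
      rw [zero_add, norm_mul, Complex.norm_real, Real.norm_eq_abs, abs_of_pos (by norm_num)] at this
      linarith
    have h4 := wc x h3
    replace hx2 : w x - Ω.indicator (fun _ => (1 : ℝ)) (0 + ((1 / 8 : ℝ) : ℂ) * x) * w x = 0 := hx2
    rw [indicator_of_notMem hn] at hx2
    linarith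
  -- the smoothed map
  have hibd : ∀ y, ‖Ω.indicator β y‖ ≤ 2 := fun y => by
    by_cases hy : y ∈ Ω
    · rw [indicator_of_mem hy]
      exact bd y hy
    · rw [indicator_of_notMem hy]
      simp
  have hβm := clweyl_meas hΩ hol.continuousOn
  set G : ℂ → E n := fun s => Ω.indicator β (-((1 / 16 : ℝ) : ℂ) * s) with hG
  have hGm : Measurable G := hβm.comp (by fun_prop)
  have hGl : LocallyIntegrable G := by
    rw [← locallyIntegrableOn_univ, locallyIntegrableOn_iff isClosed_univ.isLocallyClosed]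
    intro K _ hK
    exact Measure.integrableOn_of_bounded (M := 2) hK.measure_lt_top.ne hGm.aestronglyMeasurable
      (ae_of_all _ fun x => hibd _)
  have hconv := wcs.contDiff_convolution_left (μ := volume) (ContinuousLinearMap.lsmul ℝ ℝ) wsm hGl
  set B : ℂ → E n := fun t =>
    convolution w G (ContinuousLinearMap.lsmul ℝ ℝ) volume (-16 * t) with hB
  have hBs : ContDiff ℝ ∞ B := hconv.comp (by fun_prop)
  have hBe : ∀ t, B t = ∫ x, w x • Ω.indicator β (t + ((1 / 16 : ℝ) : ℂ) * x) := by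
    intro t
    simp only [hB, hG, convolution_def, ContinuousLinearMap.lsmul_apply]
    refine integral_congr_ae (ae_of_all _ fun x => ?_)
    have : -((1 / 16 : ℝ) : ℂ) * (-16 * t - x) = t + ((1 / 16 : ℝ) : ℂ) * x := by
      push_cast
      ring
    simp only [this]
  have hsm := (hol_smooth hΩ hol).2.1
  have hlin : ∀ l : E n →L[ℝ] ℝ, (∀ v, |l v| ≤ ‖v‖) → ∀ t ∈ Ω ∩ ball 0 (3 / 32),
      l (β t) ≤ l (B t) := by
    intro l hl t ht
    have h1 := clweyl_le wint w0 hmv (h := fun y => l (β y)) hΩ smooth nonneg sup proper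
      (l.contDiff.comp_contDiffOn (contDiffOn_infty.1 hsm 2))
      (fun y hy => (hl _).trans (bd y hy)) (fun y hy => by
        rw [Lv_comp (f := l) l.contDiff.contDiffAt
          (hΩ.eventually_mem hy |>.mono fun z hz => hol.differentiableAt (hΩ.mem_nhds hz)),
          Lv_linear]) ht.1 (ρ := 1 / 16) (by norm_num) (by
        have := mem_ball_zero_iff.1 ht.2
        linarith)
    have hint : Integrable fun x => w x • Ω.indicator β (t + ((1 / 16 : ℝ) : ℂ) * x) :=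
      wint.smul_bdd 2 (hβm.comp (by fun_prop)).aestronglyMeasurable (ae_of_all _ fun x => hibd _)
    rw [hBe, ← l.integral_comp_comm hint]
    refine h1.trans (le_of_eq (integral_congr_ae (ae_of_all _ fun x => ?_)))
    by_cases hy : t + ((1 / 16 : ℝ) : ℂ) * x ∈ Ω
    · simp only [indicator_of_mem hy, map_smul, smul_eq_mul]
      ring
    · simp only [indicator_of_notMem hy, smul_zero, map_zero, zero_mul]
  have heq : ∀ t ∈ Ω ∩ ball 0 (3 / 32), β t = B t := by
    intro t ht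
    have h2 : ∀ l : E n →L[ℝ] ℝ, (∀ v, |l v| ≤ ‖v‖) → l (β t) = l (B t) := by
      intro l hl
      have a1 := hlin l hl t ht
      have a2 := hlin (-l) (fun v => by simpa using hl v) t ht
      simp only [neg_apply] at a2
      linarith
    funext i
    apply Complex.ext
    · exact h2 (Complex.reCLM.comp (ContinuousLinearMap.proj i)) fun v =>
        (Complex.abs_re_le_norm _).trans (norm_le_pi_norm v i)
    · exact h2 (Complex.imCLM.comp (ContinuousLinearMap.proj i)) fun v =>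
        (Complex.abs_im_le_norm _).trans (norm_le_pi_norm v i)
  have hop : IsOpen (Ω ∩ ball 0 (3 / 32)) := hΩ.inter isOpen_ball
  have hev : ∀ t ∈ Ω ∩ ball 0 (3 / 32), β =ᶠ[𝓝 t] B := fun t ht => by
    filter_upwards [hop.mem_nhds ht] with y hy using heq y hy
  have hfc : Continuous (fderiv ℝ B) := hBs.continuous_fderiv (by simp)
  have hcl : IsClosed {t | fderiv ℝ B t Complex.I = Complex.I • fderiv ℝ B t 1 ∧ ‖B t‖ ≤ 2} := by
    refine IsClosed.inter (isClosed_eq (hfc.clm_apply continuous_const)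
      ((hfc.clm_apply continuous_const).const_smul Complex.I)) ?_
    exact isClosed_le hBs.continuous.norm continuous_const
  have hall : ∀ z ∈ ball (0 : ℂ) (3 / 32), DifferentiableAt ℂ B z ∧ ‖B z‖ ≤ 2 := by
    intro z hz
    have h1 := closure_minimal (t := {t | fderiv ℝ B t Complex.I = Complex.I • fderiv ℝ B t 1 ∧
      ‖B t‖ ≤ 2}) (fun t ht => ?_) hcl (hdense z hz)
    · exact ⟨differentiableAt_complex_iff_differentiableAt_real.2
        ⟨hBs.differentiable (by simp) z, h1.1⟩, h1.2⟩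
    · have a1 : DifferentiableAt ℂ B t :=
        (hol.differentiableAt (hΩ.mem_nhds ht.1)).congr_of_eventuallyEq (hev t ht).symm
      exact ⟨(differentiableAt_complex_iff_differentiableAt_real.1 a1).2,
        heq t ht ▸ bd t ht.1⟩
  rw [(hev 0 ⟨h0, mem_ball_self (by norm_num)⟩).iteratedDeriv_eq]
  have hfin := Complex.norm_iteratedDeriv_le_of_forall_mem_sphere_norm_le (f := B) (c := 0)
    (R := 1 / 16) (C := 2) k (by norm_num) ⟨fun z hz => (hall z
      (ball_subset_ball (by norm_num) hz)).1.differentiableWithinAt, hBs.continuous.continuousOn⟩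
    fun z hz => (hall z (by
      rw [mem_sphere_zero_iff_norm] at hz
      rw [mem_ball_zero_iff, hz]
      norm_num)).2
  refine hfin.trans (le_of_eq ?_)
  rw [one_div, inv_pow, div_inv_eq_mul]

end Pool.Agent.CL
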