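import Pool.Agent.P.MP_63735c_ag.CLMono
import Pool.Agent.P.MP_63735c_ag.CLWeyl
import Pool.Agent.P.MP_63735c_ag.CLPack

/-! Small energy gives Taylor bounds. -/

open scoped ContDiff Matrix ENNReal
open Set Metric MeasureTheory Filter Topology

namespace Pool.Agent.CL

open Pool.Agent.SPF

theorem cls1_cont {n : ℕ} : Continuous (nsq : E n → ℝ) := by
  unfold nsq
  fun_prop

theorem cls1_nonneg {n : ℕ} (v : E n) : 0 ≤ nsq v :=
  (sq_nonneg _).trans (nsq_le v).1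

theorem cls1_three {n : ℕ} (a b c : E n) :
    nsq a ≤ 3 * (nsq c + nsq (b - c) + nsq (b - a)) := by
  unfold nsq
  rw [← Finset.sum_add_distrib, ← Finset.sum_add_distrib, Finset.mul_sum]
  refine Finset.sum_le_sum fun k _ => ?_
  have e : a k = c k + (b - c) k - (b - a) k := by simp
  have h1 : ‖a k‖ ≤ ‖c k‖ + ‖(b - c) k‖ + ‖(b - a) k‖ := by
    rw [e]
    exact (norm_sub_le _ _).trans (by gcongr; exact norm_add_le _ _)
  have h0 := norm_nonneg (a k)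
  have h2 : ‖a k‖ ^ 2 ≤ (‖c k‖ + ‖(b - c) k‖ + ‖(b - a) k‖) ^ 2 := by gcongr
  nlinarith [sq_nonneg (‖c k‖ - ‖(b - c) k‖), sq_nonneg (‖c k‖ - ‖(b - a) k‖),
    sq_nonneg (‖(b - c) k‖ - ‖(b - a) k‖)]

theorem cls1_open {n : ℕ} {Ω : Set ℂ} {β : ℂ → E n} {U : ℂ → ℝ} (h : Slice Ω β U) (t0 : ℂ)
    (κ σ : ℝ) : IsOpen {t ∈ Ω | ‖t - t0‖ ^ 2 + κ ^ 2 * nsq (β t - β t0) < σ ^ 2} := by
  have hβ := h.hol.continuousOn
  have hc : ContinuousOn (fun t => ‖t - t0‖ ^ 2 + κ ^ 2 * nsq (β t - β t0)) Ω := by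
    refine ContinuousOn.add (by fun_prop) (ContinuousOn.mul continuousOn_const ?_)
    exact cls1_cont.comp_continuousOn (hβ.sub continuousOn_const)
  exact hc.isOpen_inter_preimage h.isOpen (isOpen_Iio (a := σ ^ 2))

theorem cls1_gap {n : ℕ} {Ω : Set ℂ} {β : ℂ → E n} {U : ℂ → ℝ} (h : Slice Ω β U)
    (h0 : (0 : ℂ) ∈ Ω) (hb : nsq (β 0) ≤ 1)
    (hE : ∫⁻ t in Ω, ENNReal.ofReal (nsq (deriv β t)) ≤ ENNReal.ofReal (1 / 250)) {t1 : ℂ}
    (ht : t1 ∈ Ω) (h1 : ‖t1‖ < 1 / 4) (h2 : nsq (β t1) ≤ 12) : nsq (β t1) < 4 := by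
  have m0 := mono h (θ := 1 / 250) (σ := 1 / 2) (κ := 4) (by norm_num) hE h0 (by norm_num)
    (by norm_num) (by norm_num) (by linarith)
  have m1 := mono h (θ := 1 / 250) (σ := 1 / 4) (κ := 2) (by norm_num) hE ht (by norm_num)
    (by norm_num) (by linarith) h2
  have o1 := cls1_open h t1 2 (1 / 4)
  set S0 := {t ∈ Ω | ‖t - 0‖ ^ 2 + (4 : ℝ) ^ 2 * nsq (β t - β 0) < (1 / 2) ^ 2} with hS0
  set S1 := {t ∈ Ω | ‖t - t1‖ ^ 2 + (2 : ℝ) ^ 2 * nsq (β t - β t1) < (1 / 4) ^ 2} with hS1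
  have s0 : S0 ⊆ ball 0 (1 / 2) := by
    rintro t ⟨-, a⟩
    have a1 := cls1_nonneg (β t - β 0)
    rw [mem_ball_zero_iff]
    rw [sub_zero] at a
    exact lt_of_pow_lt_pow_left₀ 2 (by norm_num) (by linarith)
  have s1 : S1 ⊆ ball 0 (1 / 2) := by
    rintro t ⟨-, a⟩
    have a1 := cls1_nonneg (β t - β t1)
    have a2 : ‖t - t1‖ < 1 / 4 := lt_of_pow_lt_pow_left₀ 2 (by norm_num) (by linarith)
    rw [mem_ball_zero_iff]
    have a3 : ‖t‖ ≤ ‖t - t1‖ + ‖t1‖ := by simpa using norm_add_le (t - t1) t1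
    linarith
  have meet : ¬ Disjoint S0 S1 := by
    intro hd
    have u1 : volume S0 + volume S1 ≤ ENNReal.ofReal (Real.pi / 4) := by
      rw [← measure_union hd o1.measurableSet]
      refine (measure_mono (union_subset s0 s1)).trans (le_of_eq ?_)
      rw [Complex.volume_ball, ← ENNReal.ofReal_pow (by norm_num), ← NNReal.coe_real_pi,
        ← ENNReal.ofReal_coe_nnreal, ← ENNReal.ofReal_mul (by norm_num)]
      congr 1
      ring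
    have u2 := add_le_add m0 m1
    rw [add_add_add_comm] at u2
    have u3 := u2.trans (add_le_add u1 le_rfl)
    have hp := Real.pi_gt_three
    rw [← ENNReal.ofReal_add (by positivity) (by positivity),
      ← ENNReal.ofReal_add (by positivity) (by positivity),
      ← ENNReal.ofReal_add (by positivity) (by positivity),
      ENNReal.ofReal_le_ofReal_iff (by positivity)] at u3
    linarith
  obtain ⟨t, ⟨-, a0⟩, ⟨-, a1⟩⟩ := not_disjoint_iff.1 meet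
  have b0 := sq_nonneg ‖t - 0‖
  have b1 := sq_nonneg ‖t - t1‖
  have b2 := cls1_three (β t1) (β t) (β 0)
  linarith

theorem s1 : ∃ θ > (0 : ℝ), ∀ (n : ℕ) (Ω : Set ℂ) (β : ℂ → E n) (U : ℂ → ℝ), Slice Ω β U →
    (0 : ℂ) ∈ Ω → nsq (β 0) ≤ 1 →
    ∫⁻ t in Ω, ENNReal.ofReal (nsq (deriv β t)) ≤ ENNReal.ofReal θ →
    ∀ k, ‖iteratedDeriv k β 0‖ ≤ k.factorial * 2 * 16 ^ k := by
  refine ⟨1 / 250, by norm_num, fun n Ω β U h h0 hb hE k => ?_⟩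
  have hβ := h.hol.continuousOn
  have hq : ContinuousOn (fun t => nsq (β t)) Ω := cls1_cont.comp_continuousOn hβ
  have hsub : {t ∈ Ω | ‖t‖ < 1 / 4 ∧ nsq (β t) < 4} ⊆ Ω := fun t ht => ht.1
  refine weyl (Ω := {t ∈ Ω | ‖t‖ < 1 / 4 ∧ nsq (β t) < 4}) (U := U) ?_ ?_ ?_ (h.hol.mono hsub) ?_
    (h.smooth.mono hsub) (fun t ht => h.nonneg t ht.1) (fun t ht => h.sup t ht.1) ?_ k
  · have o1 := hq.isOpen_inter_preimage h.isOpen (isOpen_Iio (a := (4 : ℝ)))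
    have o2 : IsOpen {t : ℂ | ‖t‖ < 1 / 4} := isOpen_lt continuous_norm continuous_const
    have e : {t ∈ Ω | ‖t‖ < 1 / 4 ∧ nsq (β t) < 4}
        = (Ω ∩ (fun t => nsq (β t)) ⁻¹' Iio 4) ∩ {t : ℂ | ‖t‖ < 1 / 4} := by
      ext t
      exact ⟨fun a => ⟨⟨a.1, a.2.2⟩, a.2.1⟩, fun a => ⟨a.1.1, a.2, a.1.2⟩⟩
    rw [e]
    exact o1.inter o2
  · intro t ht
    exact mem_ball_zero_iff.2 ht.2.1
  · exact ⟨h0, by norm_num, by linarith⟩
  · intro t ht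
    have a1 := (nsq_le (β t)).1
    have a2 := ht.2.2
    exact le_of_lt (lt_of_pow_lt_pow_left₀ 2 (by norm_num) (by linarith))
  · intro s hs M
    have hK := h.proper s (by linarith) M
    have hcl := (hq.mono (fun t ht => ht.1 :
      {t ∈ Ω | ‖t‖ ≤ s ∧ nsq (β t) ≤ 15 ∧ U t ≤ M} ⊆ Ω)).preimage_isClosed_of_isClosed
        hK.isClosed (isClosed_Iic (a := (4 : ℝ)))
    have e : {t ∈ {t ∈ Ω | ‖t‖ < 1 / 4 ∧ nsq (β t) < 4} | ‖t‖ ≤ s ∧ U t ≤ M}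
        = {t ∈ Ω | ‖t‖ ≤ s ∧ nsq (β t) ≤ 15 ∧ U t ≤ M} ∩ (fun t => nsq (β t)) ⁻¹' Iic 4 := by
      ext t
      constructor
      · rintro ⟨⟨a1, a2, a3⟩, a4, a5⟩
        exact ⟨⟨a1, a4, by linarith, a5⟩, a3.le⟩
      · rintro ⟨⟨a1, a2, a3, a4⟩, a5⟩
        have a6 : nsq (β t) ≤ 4 := a5
        have a7 : ‖t‖ < 1 / 4 := by linarith
        exact ⟨⟨a1, a7, cls1_gap h h0 hb hE a1 a7 (by linarith)⟩, a2, a4⟩
    rw [e]
    exact hK.of_isClosed_subset hcl inter_subset_left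

end Pool.Agent.CL
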