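import Pool.Agent.P.MP_63735c_ag.CLMV

/-! A proper plurisubharmonic barrier gives full measure. -/

open scoped ContDiff Matrix ENNReal
open Set Metric MeasureTheory Filter Topology

namespace Pool.Agent.CL

open Pool.Agent.SPF

open Classical in
lemma cltrunc_step {n : ℕ} {Ω : Set (E n)} {x0 : E n} {R B K : ℝ} {v : E n → ℝ} (hK : 0 ≤ K)
    (hΩ : IsOpen Ω) (hv : ContDiffOn ℝ 2 v Ω) (psh : ∀ x ∈ Ω, ∀ u, 0 ≤ Lv v x u)
    (hb : ∀ x ∈ Ω, v x ≤ B)
    (proper : ∀ s < R, ∀ M, IsCompact {x ∈ Ω | ‖x - x0‖ ≤ s ∧ -M ≤ v x}) :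
    ∃ U : E n → ℝ, ContDiffOn ℝ 2 U (ball x0 R) ∧
      (∀ x ∈ ball x0 R, 0 ≤ U x ∧ ∀ u, Lv U x u ≤ 0 * ‖u‖ ^ 2) ∧
      (∀ x ∈ Ω, -K ≤ v x → U x = |B| - v x) ∧ ∀ x ∉ Ω, U x = |B| + K + 1 := by
  obtain ⟨χ, h2, h1, h11, hid, hlo, hbd⟩ := exists_trunc K
  let U : E n → ℝ := fun x => if x ∈ Ω then |B| - χ (v x) else |B| + K + 1
  have hin : ∀ x ∈ Ω, U =ᶠ[𝓝 x] fun y => |B| * (fun _ => (1 : ℝ)) y + (-1) * χ (v y) := by
    intro x hx
    filter_upwards [hΩ.mem_nhds hx] with y hy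
    simp only [U, if_pos hy]
    ring
  have hout : ∀ x ∈ ball x0 R, x ∉ Ω → U =ᶠ[𝓝 x] fun _ => |B| + K + 1 := by
    intro x hx hxΩ
    rw [mem_ball, dist_eq_norm] at hx
    obtain ⟨s, hs1, hs2⟩ := exists_between hx
    have hc := (proper s hs2 (K + 2)).isClosed.isOpen_compl
    have hm : x ∈ {x ∈ Ω | ‖x - x0‖ ≤ s ∧ -(K + 2) ≤ v x}ᶜ := fun h => hxΩ h.1
    have hs : x ∈ ball x0 s := by rwa [mem_ball, dist_eq_norm]
    filter_upwards [hc.mem_nhds hm, isOpen_ball.mem_nhds hs] with y hy hy2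
    rw [mem_ball, dist_eq_norm] at hy2
    by_cases hyΩ : y ∈ Ω
    · have : v y ≤ -K - 2 := by
        by_contra hcon
        exact hy ⟨hyΩ, hy2.le, by linarith [not_le.1 hcon]⟩
      simp only [U, if_pos hyΩ, hlo _ this]
      ring
    · simp only [U, if_neg hyΩ]
  have hva : ∀ x ∈ Ω, ContDiffAt ℝ 2 v x := fun x hx => hv.contDiffAt (hΩ.mem_nhds hx)
  have hca : ∀ x ∈ Ω, ContDiffAt ℝ 2 (fun y => χ (v y)) x := fun x hx =>
    h2.contDiffAt.comp x (hva x hx)
  have hcst : ∀ (a : ℝ) (x e : E n), D2 (fun _ : E n => a) x e = 0 := by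
    intro a x e
    simp [D2]
  refine ⟨U, ?_, ?_, ?_, ?_⟩
  · intro x hx
    refine ContDiffAt.contDiffWithinAt ?_
    by_cases hxΩ : x ∈ Ω
    · exact ContDiffAt.congr_of_eventuallyEq
        ((contDiffAt_const.mul contDiffAt_const).add (contDiffAt_const.mul (hca x hxΩ))) (hin x hxΩ)
    · exact contDiffAt_const.congr_of_eventuallyEq (hout x hx hxΩ)
  · intro x hx
    by_cases hxΩ : x ∈ Ω
    · refine ⟨?_, fun u => ?_⟩
      · have h3 := (hbd (v x)).2
        have h4 : max (v x) (-K) ≤ |B| :=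
          max_le ((hb x hxΩ).trans (le_abs_self B)) (by linarith [abs_nonneg B])
        simp only [U, if_pos hxΩ]
        linarith
      · have h3 := psh x hxΩ u
        unfold Lv at h3 ⊢
        rw [D2_congr (hin x hxΩ), D2_congr (hin x hxΩ),
          D2_add contDiffAt_const (hca x hxΩ), D2_add contDiffAt_const (hca x hxΩ),
          D2_comp (hva x hxΩ) h2.contDiffAt, D2_comp (hva x hxΩ) h2.contDiffAt, hcst, hcst]
        have a1 := mul_nonneg (h1 (v x)) h3
        have a2 := mul_nonneg (h11 (v x)) (sq_nonneg (fderiv ℝ v x u))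
        have a3 := mul_nonneg (h11 (v x)) (sq_nonneg (fderiv ℝ v x (Complex.I • u)))
        nlinarith
    · refine ⟨?_, fun u => ?_⟩
      · simp only [U, if_neg hxΩ]
        linarith [abs_nonneg B]
      · unfold Lv
        rw [D2_congr (hout x hx hxΩ), D2_congr (hout x hx hxΩ), hcst, hcst]
        simp
  · intro x hx h
    simp only [U, if_pos hx, hid _ h]
  · intro x hx
    simp only [U, if_neg hx]

open Classical in
theorem trunc {n : ℕ} {Ω : Set (E n)} {x0 : E n} {ρ c B : ℝ} {v ht : E n → ℝ} (hρ : 0 < ρ)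
    (hc : 0 < c) (hΩ : IsOpen Ω) (sub : Ω ⊆ ball x0 (4 * ρ)) (h0 : x0 ∈ Ω)
    (hv : ContDiffOn ℝ 2 v Ω) (psh : ∀ x ∈ Ω, ∀ u, 0 ≤ Lv v x u)
    (hb : ∀ x ∈ Ω, 0 ≤ ht x ∧ v x ≤ B - c * ht x)
    (proper : ∀ s < 4 * ρ, ∀ M, IsCompact {x ∈ Ω | ‖x - x0‖ ≤ s ∧ -M ≤ v x}) :
    ∫⁻ x in ball x0 ρ, (if x ∈ Ω then ENNReal.ofReal (ht x) else ⊤) < ⊤ := by
  obtain ⟨C, hC, hmv⟩ := mv_point (E n) volume
  have hB : ∀ x ∈ Ω, v x ≤ B := fun x hx => by
    have := hb x hx
    nlinarith [mul_nonneg hc.le this.1]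
  have hex := fun k : ℕ => cltrunc_step (K := |v x0| + k) (by positivity) hΩ hv psh hB proper
  choose U hU2 hUs hUin hUout using hex
  have hbd : ∀ k, ∫⁻ x in ball x0 ρ, ENNReal.ofReal (U k x) ≤
      C * volume (ball x0 ρ) * ENNReal.ofReal (|B| - v x0) := by
    intro k
    have h1 := hmv x0 ρ 0 (U k) hρ le_rfl (hU2 k) (hUs k)
    rw [hUin k x0 h0 (by linarith [neg_abs_le (v x0), (Nat.cast_nonneg k : (0 : ℝ) ≤ k)])] at h1
    simpa using h1
  have hme : ∀ k, AEMeasurable (fun x => ENNReal.ofReal (U k x)) (volume.restrict (ball x0 ρ)) := by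
    intro k
    refine AEMeasurable.ennreal_ofReal ?_
    exact ((hU2 k).continuousOn.mono (ball_subset_ball (by linarith))).aemeasurable
      measurableSet_ball
  have hF := lintegral_liminf_le' (u := atTop) hme
  have hL : liminf (fun k => ∫⁻ x in ball x0 ρ, ENNReal.ofReal (U k x)) atTop ≤
      C * volume (ball x0 ρ) * ENNReal.ofReal (|B| - v x0) :=
    liminf_le_of_frequently_le' (Frequently.of_forall hbd)
  have hpt : ∀ x, (if x ∈ Ω then ENNReal.ofReal (ht x) else ⊤) ≤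
      ENNReal.ofReal c⁻¹ * liminf (fun k => ENNReal.ofReal (U k x)) atTop := by
    intro x
    have hK : Tendsto (fun k : ℕ => |v x0| + k) atTop atTop :=
      tendsto_atTop_add_const_left _ _ tendsto_natCast_atTop_atTop
    split_ifs with hx
    · have he : (fun k => ENNReal.ofReal (U k x)) =ᶠ[atTop] fun _ => ENNReal.ofReal (|B| - v x) := by
        filter_upwards [hK.eventually_ge_atTop (-v x)] with k hk
        rw [hUin k x hx (by linarith)]
      rw [liminf_congr he, liminf_const, ← ENNReal.ofReal_mul (by positivity)]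
      refine ENNReal.ofReal_le_ofReal ?_
      rw [← div_eq_inv_mul, le_div_iff₀ hc]
      linarith [(hb x hx).2, le_abs_self B]
    · have ht' : Tendsto (fun k => ENNReal.ofReal (U k x)) atTop (𝓝 ⊤) := by
        refine ENNReal.tendsto_ofReal_atTop.comp (tendsto_atTop_mono (fun k => ?_) hK)
        rw [hUout k x hx]
        linarith [abs_nonneg B]
      rw [ht'.liminf_eq, ENNReal.mul_top]
      simpa using hc
  refine (lintegral_mono hpt).trans_lt ?_
  rw [lintegral_const_mul' _ _ ENNReal.ofReal_ne_top]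
  refine ENNReal.mul_lt_top ENNReal.ofReal_lt_top ((hF.trans hL).trans_lt ?_)
  exact ENNReal.mul_lt_top (ENNReal.mul_lt_top hC.lt_top measure_ball_lt_top) ENNReal.ofReal_lt_top

end Pool.Agent.CL
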