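import Pool.Agent.P.MP_63735c_ag.CLEn3

/-! The energy bound for one cell of labels. -/

open scoped ContDiff Matrix ENNReal
open Set Metric MeasureTheory Filter Topology

namespace Pool.Agent.CL

open Pool.Agent.SPF

variable {n : ℕ} {X : Type} [TopologicalSpace X] [T2Space X] [MeasurableSpace X]

namespace Big

lemma clen4_cut (B : Big n X) {ε δ c A : ℝ} (hε : 0 < ε) (hr : 40 * ε ≤ B.S.G.r) (hδ : 0 < δ)
    (hc : 0 < c) (hA : 1 ≤ A) : ∃ D ≥ (0 : ℝ), ∀ R ≥ (1 : ℝ), ∀ p ∈ RI B.S.Q.I,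
    ∀ Q : Finset B.Lab, (∀ l ∈ Q, B.lg.sz l ≤ B.lg.ε) → (∀ l ∈ Q, ∀ y ∈ ball B.S.G.y0 (2 * ε),
      ∀ g, B.At l y g → ‖B.A.r (y, g.α y) - p‖ ≤ B.A.c / (8 * n)) →
    (∀ l ∈ Q, ∀ l' ∈ Q, ∀ y ∈ B.Om l, y ∈ B.Om l' → ‖B.bb l y - B.bb l' y‖ ≤ δ → l = l') →
    c * R ^ (2 * n) ≤ R ^ (2 * B.S.Q.I.card) * ∑ l ∈ Q, (volume (B.Ml l ε R)).toReal →
    ∀ M ≥ R, ENNReal.ofReal (R ^ (2 * B.S.Q.I.card)) * ∑ l ∈ Q,
      ∫⁻ y in B.Yl l (2 * ε) (A * R) M, ENNReal.ofReal (‖fderiv ℂ (B.bb l) y‖ ^ 2) ≤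
        ENNReal.ofReal (D * R ^ (2 * n + 2)) := by
  have hn : (0 : ℝ) < n := by exact_mod_cast B.S.M.n_pos
  have hcA := B.A.c_pos
  have hC := zero_lt_one.trans_le B.A.C_ge
  have hr0 := B.S.G.r_pos
  set d := min (min (δ / 2) (1 / 2)) (B.A.c / (8 * n) / B.A.C) with hd
  have d0 : 0 < d := by positivity
  have d1 : d ≤ δ / 2 := (min_le_left _ _).trans (min_le_left _ _)
  have d2 : d ≤ 1 / 2 := (min_le_left _ _).trans (min_le_right _ _)
  have d3 : B.A.C * d ≤ B.A.c / (8 * n) := by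
    rw [mul_comm, ← le_div_iff₀ hC]; exact min_le_right _ _
  obtain ⟨w, hw, htube⟩ := tube_int B.S.Q.I d0
  have hKT : closedBall B.S.G.y0 (40 * ε) ⊆ B.S.M.T := B.ball_T (by linarith)
  obtain ⟨H, hH⟩ := B.A.HB _ (isCompact_closedBall _ _) hKT
  set a := 2 * (A + 1) with ha
  have a0 : 0 < a := by positivity
  obtain ⟨C1, hC1, core⟩ := box_core B.S.G.y0 (a := 4 * ε) (c := w * c / a ^ (2 * n))
    (K := n * 2 * (B.A.c / (8 * n) + 2 * B.A.C)) (Cs := B.A.C) (B := |H| * 10 ^ (2 * n + 2))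
    (by positivity) (by positivity) (by positivity) hC.le (by positivity)
  obtain ⟨v, hv, hvol⟩ := box_vol B.S.G.y0 (4 * ε / 2)
  refine ⟨(C1 * a ^ (2 * n + 2) + B.A.C * n * (v * a ^ (2 * n))) / (w * (B.A.c / n)),
    by positivity, fun R hR p hp Q q1 q2 q3 q4 M hM => ?_⟩
  have hR0 : 0 < R := by linarith
  have hAR : R ≤ A * R := le_mul_of_one_le_left hR0.le hA
  have e1 : a * R / 2 = A * R + R := by rw [ha]; ring
  obtain ⟨G, hG, hx⟩ := B.leg hp (hR0.trans_le hM)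
  set h : P n → ℝ := fun x => trh B.A.omb (x.1, piI B.S.Q.I x.2) with hh
  have hbK : box B.S.G.y0 (10 * (4 * ε)) (10 * (a * R)) ⊆
      closedBall B.S.G.y0 (40 * ε) ×ˢ ball 0 (10 * (a * R)) :=
    prod_mono (ball_subset_closedBall.trans (closedBall_subset_closedBall (by linarith))) subset_rfl
  have hbT : box B.S.G.y0 (10 * (4 * ε)) (10 * (a * R)) ⊆ B.S.M.T ×ˢ univ :=
    hbK.trans (prod_mono hKT (subset_univ _))
  let T : B.Lab → ℝ → ℝ → ℝ → Set (P n) := fun l e S N =>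
    tube B.S.Q.I (B.bb l) (B.Yl l e S N) d (a * R / 2)
  have Tb : ∀ l e S N, ContinuousOn (B.bb l) (B.Yl l e S N) := fun l e S N =>
    (bb_hol l).continuousOn.mono fun y hy => hy.2.1
  have Tm : ∀ l e S N, MeasurableSet (T l e S N) := fun l e S N =>
    (tube_open _ (Yl_open l e S N) (Tb l e S N) _ _).measurableSet
  have Td : ∀ e S N, (Q : Set B.Lab).PairwiseDisjoint fun l => T l e S N := by
    intro e S N l hl l' hl' hne
    refine disjoint_left.2 fun x h1 h2 => hne (q3 l hl l' hl' x.1 h1.1.2.1 h2.1.2.1 ?_)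
    have := norm_sub_le_norm_sub_add_norm_sub (B.bb l x.1) (piI B.S.Q.I x.2) (B.bb l' x.1)
    rw [norm_sub_rev (B.bb l x.1) (piI B.S.Q.I x.2)] at this
    linarith [h1.2.2, h2.2.2]
  have Ts : ∀ l e S N, e ≤ 2 * ε → T l e S N ⊆ box B.S.G.y0 (4 * ε / 2) (a * R / 2) :=
    fun l e S N he x hx => ⟨ball_subset_ball (by linarith) hx.1.1, hx.2.1⟩
  have Ti : ∀ l e S N, S ≤ A * R → ∀ g : E n → ℝ≥0∞, Measurable g →
      ENNReal.ofReal (w * R ^ (2 * B.S.Q.I.card)) * ∫⁻ y in B.Yl l e S N, g y ≤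
        ∫⁻ x in T l e S N, g x.1 := fun l e S N hS g hg =>
    le_trans (mul_le_mul_left (ENNReal.ofReal_le_ofReal (mul_le_mul_of_nonneg_left
      (pow_le_pow_left₀ hR0.le (by linarith) _) hw.le)) _) (htube _ _ _ g (Yl_open l e S N)
        (Tb l e S N) (fun y hy => ⟨bb_pi l y, by linarith [hy.2.2.1]⟩) hg)
  have Tx : ∀ l ∈ Q, ∀ e S N, e ≤ 2 * ε → N ≤ M → ∀ x ∈ T l e S N,
      B.A.c / n * ‖fderiv ℂ (B.bb l) x.1‖ ^ 2 ≤ h x + trL G x + B.A.C * n ∧ ∀ R ≥ (1 : ℝ),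
        ‖B.tt l x.1‖ ≤ R → -G x ≤ n * 2 * (B.A.c / (8 * n) + 2 * B.A.C) * R ^ 2 := by
    intro l hl e S N he hN x hxT
    obtain ⟨⟨y1, ⟨g, hg⟩, -, y4⟩, -, y5⟩ := hxT
    have y6 : x.1 ∈ ball B.S.G.y0 (2 * ε) := ball_subset_ball he y1
    exact (hx x (hKT (ball_subset_closedBall.trans (closedBall_subset_closedBall (by linarith))
      y6))).2 l g hg (q1 l hl) (y5.le.trans d2) ((mul_le_mul_of_nonneg_left y5.le hC.le).trans d3)
      (q2 l hl _ y6 g hg) (y4.le.trans hN)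
  have key := core (a * R) (by positivity) G h (⋃ l ∈ Q, T l ε R R) (hG.mono hbT)
    (B.trh_cont.mono hbT) (fun x hb => (hx x (hbT hb).1).1)
    ((lintegral_mono_set hbK).trans ((hH _ (by nlinarith)).trans (ENNReal.ofReal_le_ofReal ?_)))
    (Finset.measurableSet_biUnion _ fun l _ => Tm _ _ _ _)
    (iUnion₂_subset fun l _ => (Ts _ _ _ _ (by linarith)).trans
      (box_mono _ (by linarith) (by linarith))) ?_ ?_
  rotate_left
  · rw [mul_pow, ← mul_assoc]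
    gcongr
    exact le_abs_self _
  · rw [measure_biUnion_finset (Td _ _ _) fun l _ => Tm _ _ _ _]
    have f1 : ∀ l, volume (B.Ml l ε R) ≠ ⊤ := fun l =>
      ne_top_of_le_ne_top measure_ball_lt_top.ne (measure_mono fun y hy => hy.1)
    calc ENNReal.ofReal (w * c / a ^ (2 * n) * (a * R) ^ (2 * n))
        ≤ ENNReal.ofReal (w * R ^ (2 * B.S.Q.I.card) * ∑ l ∈ Q, (volume (B.Ml l ε R)).toReal) := by
          refine ENNReal.ofReal_le_ofReal (le_trans (le_of_eq ?_)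
            ((mul_le_mul_of_nonneg_left q4 hw.le).trans_eq (mul_assoc _ _ _).symm))
          rw [mul_pow a R, ← mul_assoc, div_mul_cancel₀ _ (by positivity), mul_assoc]
      _ = ∑ l ∈ Q, ENNReal.ofReal (w * R ^ (2 * B.S.Q.I.card)) * volume (B.Ml l ε R) := by
          rw [ENNReal.ofReal_mul (by positivity),
            ENNReal.ofReal_sum_of_nonneg fun _ _ => ENNReal.toReal_nonneg, Finset.mul_sum]
          simp only [ENNReal.ofReal_toReal (f1 _)]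
      _ ≤ _ := Finset.sum_le_sum fun l _ => by
          have := Ti l ε R R hAR (fun _ => 1) measurable_const
          rwa [setLIntegral_const, setLIntegral_const, one_mul, one_mul] at this
  · intro x hx
    obtain ⟨l, hl, hxl⟩ := mem_iUnion₂.1 hx
    exact (Tx l hl _ _ _ (by linarith) hM x hxl).2 _ (by nlinarith)
      (hxl.1.2.2.2.le.trans (by nlinarith))
  have hm : ∀ l, Measurable fun y => ENNReal.ofReal (‖fderiv ℂ (B.bb l) y‖ ^ 2) := fun l =>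
    ((measurable_fderiv ℂ (B.bb l)).norm.pow_const 2).ennreal_ofReal
  have w0 : 0 < w * (B.A.c / n) := by positivity
  rw [← ENNReal.mul_le_mul_iff_right (ENNReal.ofReal_pos.2 w0).ne' ENNReal.ofReal_ne_top]
  calc _ = ∑ l ∈ Q, ENNReal.ofReal (B.A.c / n) * (ENNReal.ofReal (w * R ^ (2 * B.S.Q.I.card)) *
        ∫⁻ y in B.Yl l (2 * ε) (A * R) M, ENNReal.ofReal (‖fderiv ℂ (B.bb l) y‖ ^ 2)) := by
        rw [← Finset.mul_sum, ← Finset.mul_sum, ENNReal.ofReal_mul hw.le, ENNReal.ofReal_mul hw.le]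
        ring
    _ ≤ ∑ l ∈ Q, ∫⁻ x in T l (2 * ε) (A * R) M,
        (ENNReal.ofReal (h x + trL G x) + ENNReal.ofReal (B.A.C * n)) := by
        refine Finset.sum_le_sum fun l hl => (mul_le_mul_right (Ti l _ _ _ le_rfl _ (hm l)) _).trans ?_
        rw [← lintegral_const_mul' _ _ ENNReal.ofReal_ne_top]
        refine setLIntegral_mono' (Tm _ _ _ _) fun x hx => ?_
        rw [← ENNReal.ofReal_mul (by positivity)]
        exact (ENNReal.ofReal_le_ofReal (Tx l hl _ _ _ le_rfl le_rfl x hx).1).trans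
          ENNReal.ofReal_add_le
    _ ≤ ∫⁻ x in box B.S.G.y0 (4 * ε / 2) (a * R / 2),
        (ENNReal.ofReal (h x + trL G x) + ENNReal.ofReal (B.A.C * n)) := by
        rw [← lintegral_biUnion_finset (Td _ _ _) fun l _ => Tm _ _ _ _]
        exact lintegral_mono_set (iUnion₂_subset fun l _ => Ts _ _ _ _ le_rfl)
    _ ≤ ENNReal.ofReal (C1 * (a * R) ^ (2 * n + 2)) +
        ENNReal.ofReal (B.A.C * n) * ENNReal.ofReal (v * (a * R / 2) ^ (2 * n)) := by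
        rw [lintegral_add_right _ measurable_const, setLIntegral_const]
        exact add_le_add key (mul_le_mul_right (hvol _ (by positivity)) _)
    _ ≤ _ := by
        rw [← ENNReal.ofReal_mul (by positivity), ← ENNReal.ofReal_add (by positivity)
          (by positivity), ← ENNReal.ofReal_mul w0.le, ← mul_assoc (w * _),
          mul_div_cancel₀ _ w0.ne', add_mul, mul_pow, ← mul_assoc C1, mul_assoc (B.A.C * n),
          mul_assoc v]
        have f1 : (a * R / 2) ^ (2 * n) ≤ a ^ (2 * n) * R ^ (2 * n + 2) :=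
          (pow_le_pow_left₀ (by positivity) (half_le_self (by positivity)) _).trans (by
            rw [mul_pow]
            exact mul_le_mul_of_nonneg_left (pow_le_pow_right₀ hR (by omega)) (by positivity))
        gcongr

/-- The energy bound. -/
theorem energy (B : Big n X) {ε δ c A : ℝ} (hε : 0 < ε) (hr : 40 * ε ≤ B.S.G.r) (hδ : 0 < δ)
    (hc : 0 < c) (hA : 1 ≤ A) : ∃ D ≥ (0 : ℝ), ∀ R ≥ (1 : ℝ), ∀ p ∈ RI B.S.Q.I,
    ∀ Q : Finset B.Lab, (∀ l ∈ Q, B.lg.sz l ≤ B.lg.ε) → (∀ l ∈ Q, ∀ y ∈ ball B.S.G.y0 (2 * ε),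
      ∀ g, B.At l y g → ‖B.A.r (y, g.α y) - p‖ ≤ B.A.c / (8 * n)) →
    (∀ l ∈ Q, ∀ l' ∈ Q, ∀ y ∈ B.Om l, y ∈ B.Om l' → ‖B.bb l y - B.bb l' y‖ ≤ δ → l = l') →
    c * R ^ (2 * n) ≤ R ^ (2 * B.S.Q.I.card) * ∑ l ∈ Q, (volume (B.Ml l ε R)).toReal →
    ENNReal.ofReal (R ^ (2 * B.S.Q.I.card)) * ∑ l ∈ Q, B.En l (2 * ε) (A * R) ≤
      ENNReal.ofReal (D * R ^ (2 * n + 2)) := by
  obtain ⟨D, hD, h⟩ := B.clen4_cut hε hr hδ hc hA
  refine ⟨D, hD, fun R hR p hp Q q1 q2 q3 q4 => ?_⟩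
  have mo : ∀ l, Monotone fun N : ℕ => B.Yl l (2 * ε) (A * R) (R + N) := fun l N N' hN y hy =>
    ⟨hy.1, hy.2.1, hy.2.2.1, hy.2.2.2.trans_le (add_le_add le_rfl (Nat.cast_le.2 hN))⟩
  have e : ∀ l, B.En l (2 * ε) (A * R) = ⨆ N : ℕ, ∫⁻ y in B.Yl l (2 * ε) (A * R) (R + N),
      ENNReal.ofReal (‖fderiv ℂ (B.bb l) y‖ ^ 2) := fun l => by
    rw [← setLIntegral_iUnion_of_directed _ (mo l).directed_le, En]
    congr 2
    refine Set.ext fun y => ⟨fun hy => ?_, fun hy => ?_⟩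
    · obtain ⟨N, hN⟩ := exists_nat_gt ‖B.tt l y‖
      exact mem_iUnion.2 ⟨N, hy.1, hy.2.1, hy.2.2, by linarith⟩
    · obtain ⟨N, hN⟩ := mem_iUnion.1 hy
      exact ⟨hN.1, hN.2.1, hN.2.2.1⟩
  simp only [e]
  rw [ENNReal.finsetSum_iSup_of_monotone fun l N N' hN => lintegral_mono_set (mo l hN),
    ENNReal.mul_iSup]
  exact iSup_le fun N => h R hR p hp Q q1 q2 q3 q4 _ (le_add_of_nonneg_right N.cast_nonneg)

end Big

end Pool.Agent.CL
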