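import Pool.Agent.P.MP_63735c_ag.CLAvD

/-! Directional derivatives, identities for closed (1,1)-forms. -/

open scoped ContDiff Matrix ENNReal
open Set Metric MeasureTheory Filter Topology

namespace Pool.Agent.CL

open Pool.Agent.SPF

variable {F : Type} [NormedAddCommGroup F] [NormedSpace ℝ F] {W : Set F} {f g h : F → ℝ}

/-- Directional derivative. -/
noncomputable def dd (f : F → ℝ) (u : F) : F → ℝ := fun p => fderiv ℝ f p u

/-- A coefficient of a 2-form. -/
noncomputable def fm (t : Form2 F) (a b : F) : F → ℝ := fun p => t p a b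

theorem dd_smooth (hW : IsOpen W) (hf : ContDiffOn ℝ ∞ f W) (u : F) :
    ContDiffOn ℝ ∞ (dd f u) W :=
  (hf.fderiv_of_isOpen hW (by simp)).clm_apply contDiffOn_const

theorem clav1_at {G : Type} [NormedAddCommGroup G] [NormedSpace ℝ G] {f : F → G} (hW : IsOpen W)
    (hf : ContDiffOn ℝ ∞ f W) {p : F} (hp : p ∈ W) :
    ContDiffAt ℝ ∞ f p ∧ ContDiffAt ℝ 2 f p ∧ ContDiffAt ℝ 1 f p ∧ DifferentiableAt ℝ f p := by
  have h := hf.contDiffAt (hW.mem_nhds hp)
  exact ⟨h, h.of_le (ENat.LEInfty.out), h.of_le (ENat.LEInfty.out),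
    h.differentiableAt (by simp)⟩

theorem dd_congr (hW : IsOpen W) (he : EqOn f g W) (u : F) : EqOn (dd f u) (dd g u) W :=
  fun p hp => by
    have : f =ᶠ[𝓝 p] g := he.eventuallyEq_of_mem (hW.mem_nhds hp)
    simp only [dd, this.fderiv_eq]

theorem dd_lin (hW : IsOpen W) (hg : ContDiffOn ℝ ∞ g W) (hh : ContDiffOn ℝ ∞ h W) (a b : ℝ)
    (he : ∀ p ∈ W, f p = a * g p + b * h p) (u : F) {p : F} (hp : p ∈ W) :
    dd f u p = a * dd g u p + b * dd h u p := by
  have h1 := (clav1_at hW hg hp).2.2.2.hasFDerivAt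
  have h2 := (clav1_at hW hh hp).2.2.2.hasFDerivAt
  have h3 := ((h1.const_mul a).add (h2.const_mul b)).fderiv
  have : EqOn f ((fun y => a * g y) + fun y => b * h y) W := fun q hq => he q hq
  rw [dd_congr hW this u hp]
  simp only [dd, h3]
  simp

theorem dd_dd {p : F} (hf : ContDiffAt ℝ 2 f p) (u v : F) :
    dd (dd f v) u p = fderiv ℝ (fderiv ℝ f) p u v := by
  have h1 : DifferentiableAt ℝ (fderiv ℝ f) p :=
    (hf.fderiv_right (m := 1) (by norm_num)).differentiableAt (by simp)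
  have h2 := (h1.hasFDerivAt.clm_apply (hasFDerivAt_const v p)).fderiv
  have : dd f v = fun y => fderiv ℝ f y v := rfl
  simp only [dd, this, h2]
  simp

theorem dd_comm (hW : IsOpen W) (hf : ContDiffOn ℝ ∞ f W) (u v : F) :
    EqOn (dd (dd f u) v) (dd (dd f v) u) W := fun p hp => by
  have h := (clav1_at hW hf hp).2.1
  rw [dd_dd h, dd_dd h]
  exact (h.isSymmSndFDerivAt (by simp)).eq v u

theorem D2_dd (hW : IsOpen W) (hf : ContDiffOn ℝ ∞ f W) (u : F) {p : F} (hp : p ∈ W) :
    D2 f p u = dd (dd f u) u p := (dd_dd (clav1_at hW hf hp).2.1 u u).symm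

/-- A directional derivative commutes with `D2`. -/
theorem dd_D2 (hW : IsOpen W) (hf : ContDiffOn ℝ ∞ f W) (u w : F) {p : F} (hp : p ∈ W) :
    dd (dd (dd f u) u) w p = dd (dd (dd f w) u) u p := by
  rw [dd_comm hW (dd_smooth hW hf u) u w hp]
  exact dd_congr hW (dd_comm hW hf u w) u hp

theorem fm_smooth {t : Form2 F} (ht : ContDiffOn ℝ ∞ t W) (a b : F) :
    ContDiffOn ℝ ∞ (fm t a b) W :=
  (ht.clm_apply contDiffOn_const).clm_apply contDiffOn_const

theorem dd_fm {t : Form2 F} {p : F} (ht : DifferentiableAt ℝ t p) (a b u : F) :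
    dd (fm t a b) u p = fderiv ℝ t p u a b := by
  have h2 := ((ht.hasFDerivAt.clm_apply (hasFDerivAt_const a p)).clm_apply
    (hasFDerivAt_const b p)).fderiv
  have : fm t a b = fun y => t y a b := rfl
  simp only [dd, this, h2]
  simp

theorem dd_cyc (hW : IsOpen W) {t : Form2 F} (ht : Closed2 W t) {p : F} (hp : p ∈ W)
    (u v w : F) : dd (fm t v w) u p + dd (fm t w u) v p + dd (fm t u v) w p = 0 := by
  have h := (clav1_at hW ht.1 hp).2.2.2
  rw [dd_fm h, dd_fm h, dd_fm h]
  exact ht.2.2 p hp u v w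

theorem dd_neg (hW : IsOpen W) (hg : ContDiffOn ℝ ∞ g W) (he : ∀ p ∈ W, f p = -g p) (u : F)
    {p : F} (hp : p ∈ W) : dd f u p = -dd g u p := by
  have := dd_lin hW hg hg (-1) 0 (f := f) (fun q hq => by rw [he q hq]; ring) u hp
  linarith

/-- A function that is constant along `v` has zero derivative along `v`. -/
theorem fderiv_inv {G : Type} [NormedAddCommGroup G] [NormedSpace ℝ G] {f : F → G} {p v : F}
    (hf : DifferentiableAt ℝ f p) (hv : ∀ᶠ c in 𝓝 (0 : ℝ), f (p + c • v) = f p) :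
    fderiv ℝ f p v = 0 := by
  have h1 : HasDerivAt (fun c : ℝ => p + c • v) v 0 := by
    simpa using ((hasDerivAt_id (0 : ℝ)).smul_const v).const_add p
  have h2 : HasFDerivAt f (fderiv ℝ f p) (p + (0 : ℝ) • v) := by
    simpa using hf.hasFDerivAt
  have h3 := h2.comp_hasDerivAt (0 : ℝ) h1
  exact h3.unique ((hasDerivAt_const (0 : ℝ) (f p)).congr_of_eventuallyEq hv)

/-- The derivative along a line. -/
theorem line_deriv {p v : F} {c : ℝ} (hf : DifferentiableAt ℝ f (p + c • v)) :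
    HasDerivAt (fun s : ℝ => f (p + s • v)) (dd f v (p + c • v)) c := by
  have h1 : HasDerivAt (fun s : ℝ => p + s • v) v c := by
    simpa using ((hasDerivAt_id c).smul_const v).const_add p
  exact hf.hasFDerivAt.comp_hasDerivAt c h1

/-- Fundamental theorem of calculus along a line that stays in `W`. -/
theorem line_int (hW : IsOpen W) (hf : ContDiffOn ℝ ∞ f W) {p v : F}
    (hl : ∀ c : ℝ, p + c • v ∈ W) (a b : ℝ) : Continuous (fun s : ℝ => dd f v (p + s • v)) ∧
    f (p + b • v) - f (p + a • v) = ∫ s in a..b, dd f v (p + s • v) := by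
  have hc : Continuous (fun s : ℝ => dd f v (p + s • v)) :=
    (dd_smooth hW hf v).continuousOn.comp_continuous (by fun_prop) hl
  refine ⟨hc, (intervalIntegral.integral_eq_sub_of_hasDerivAt
    (f := fun s : ℝ => f (p + s • v)) (fun s _ => ?_) (hc.intervalIntegrable _ _)).symm⟩
  exact line_deriv (clav1_at hW hf (hl s)).2.2.2

section J

variable [NormedSpace ℂ F] {t : Form2 F}

omit [NormedSpace ℝ F] in
theorem II_smul (u : F) : Complex.I • Complex.I • u = -u := by
  rw [smul_smul, Complex.I_mul_I, neg_one_smul]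

theorem jinv_left (hj : JInv W t) {p : F} (hp : p ∈ W) (u v : F) :
    t p (Complex.I • u) v = -t p u (Complex.I • v) := by
  rw [← hj p hp u (Complex.I • v), II_smul, map_neg, neg_neg]

theorem jinv_symm (ht : Closed2 W t) (hj : JInv W t) {p : F} (hp : p ∈ W) (u v : F) :
    t p u (Complex.I • v) = t p v (Complex.I • u) := by
  rw [ht.2.1 p hp u, jinv_left hj hp, neg_neg]

theorem dd_id1 (hW : IsOpen W) (ht : Closed2 W t) (hj : JInv W t) {p : F} (hp : p ∈ W)
    (u v : F) : dd (fm t u (Complex.I • u)) (Complex.I • v) p =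
      dd (fm t v u) u p + dd (fm t v (Complex.I • u)) (Complex.I • u) p := by
  have h := dd_cyc hW ht hp (Complex.I • v) u (Complex.I • u)
  have h1 : dd (fm t (Complex.I • u) (Complex.I • v)) u p = -dd (fm t v u) u p :=
    dd_neg hW (fm_smooth ht.1 _ _) (fun q hq => by
      simp only [fm]; rw [hj q hq, ht.2.1 q hq]) u hp
  have h2 : dd (fm t (Complex.I • v) u) (Complex.I • u) p =
      -dd (fm t v (Complex.I • u)) (Complex.I • u) p :=
    dd_neg hW (fm_smooth ht.1 _ _) (fun q hq => jinv_left hj hq _ _) _ hp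
  linarith

theorem dd_id2 (hW : IsOpen W) (ht : Closed2 W t) {p : F} (hp : p ∈ W)
    (u v : F) : dd (fm t u (Complex.I • u)) v p =
      dd (fm t v (Complex.I • u)) u p - dd (fm t v u) (Complex.I • u) p := by
  have h := dd_cyc hW ht hp v u (Complex.I • u)
  have h1 : dd (fm t (Complex.I • u) v) u p = -dd (fm t v (Complex.I • u)) u p :=
    dd_neg hW (fm_smooth ht.1 _ _) (fun q hq => ht.2.1 q hq _ _) u hp
  linarith

theorem Lv_dd (hW : IsOpen W) (hf : ContDiffOn ℝ ∞ f W) (u : F) {p : F} (hp : p ∈ W) :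
    Lv f p u = dd (dd f u) u p + dd (dd f (Complex.I • u)) (Complex.I • u) p := by
  rw [Lv, D2_dd hW hf _ hp, D2_dd hW hf _ hp]

theorem Lv_smooth (hW : IsOpen W) (hf : ContDiffOn ℝ ∞ f W) (u : F) :
    ContDiffOn ℝ ∞ (fun p => Lv f p u) W :=
  ((dd_smooth hW (dd_smooth hW hf u) u).add
    (dd_smooth hW (dd_smooth hW hf _) _)).congr fun _ hp => Lv_dd hW hf u hp

theorem dd_Lv (hW : IsOpen W) (hf : ContDiffOn ℝ ∞ f W) (u w : F) {p : F} (hp : p ∈ W) :
    dd (fun q => Lv f q u) w p = Lv (dd f w) p u := by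
  rw [dd_lin hW (dd_smooth hW (dd_smooth hW hf u) u)
    (dd_smooth hW (dd_smooth hW hf (Complex.I • u)) (Complex.I • u)) 1 1
    (fun q hq => by rw [Lv_dd hW hf u hq]; ring) w hp, dd_D2 hW hf _ _ hp, dd_D2 hW hf _ _ hp,
    Lv_dd hW (dd_smooth hW hf w) u hp]
  ring

/-- The Kaehler identity for the Levi forms of the diagonal coefficients. -/
theorem ki (hW : IsOpen W) (ht : Closed2 W t) (hj : JInv W t) {p : F} (hp : p ∈ W) (u v : F) :
    Lv (fm t u (Complex.I • u)) p v = Lv (fm t v (Complex.I • v)) p u := by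
  have key : ∀ u v : F, Lv (fm t u (Complex.I • u)) p v =
      dd (dd (fm t v (Complex.I • u)) u) v p - dd (dd (fm t v u) (Complex.I • u)) v p +
        (dd (dd (fm t v u) u) (Complex.I • v) p +
          dd (dd (fm t v (Complex.I • u)) (Complex.I • u)) (Complex.I • v) p) := by
    intro u v
    have s := fun a b c => dd_smooth hW (fm_smooth ht.1 a b) c
    rw [Lv_dd hW (fm_smooth ht.1 _ _) _ hp,
      dd_lin hW (s v (Complex.I • u) u) (s v u (Complex.I • u)) 1 (-1)
        (fun q hq => by rw [dd_id2 hW ht hq]; ring) v hp,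
      dd_lin hW (s v u u) (s v (Complex.I • u) (Complex.I • u)) 1 1
        (fun q hq => by rw [dd_id1 hW ht hj hq]; ring) (Complex.I • v) hp]
    ring
  have eA : EqOn (fm t u (Complex.I • v)) (fm t v (Complex.I • u)) W :=
    fun q hq => jinv_symm ht hj hq _ _
  have eB : ∀ a b, dd (dd (fm t u v) a) b p = -dd (dd (fm t v u) a) b p := fun a b =>
    dd_neg hW (dd_smooth hW (fm_smooth ht.1 v u) a)
      (fun q hq => dd_neg hW (fm_smooth ht.1 v u) (fun x hx => ht.2.1 x hx _ _) a hq) b hp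
  have eA' : ∀ a b, dd (dd (fm t u (Complex.I • v)) a) b p =
      dd (dd (fm t v (Complex.I • u)) a) b p := fun a b =>
    dd_congr hW (dd_congr hW eA a) b hp
  rw [key u v, key v u, eA', eA', eB, eB]
  have c := fun a b x y => dd_comm hW (fm_smooth ht.1 a b) x y hp
  rw [c v (Complex.I • u) u v, c v u (Complex.I • u) v, c v u u (Complex.I • v),
    c v (Complex.I • u) (Complex.I • u) (Complex.I • v)]
  ring

end J

theorem swap01 {φ : ℝ → ℝ → ℝ} (hφ : Continuous (Function.uncurry φ)) :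
    ∫ s in (0 : ℝ)..1, ∫ r in (0 : ℝ)..1, φ s r = ∫ r in (0 : ℝ)..1, ∫ s in (0 : ℝ)..1, φ s r := by
  simp only [intervalIntegral.integral_of_le (zero_le_one' ℝ)]
  refine integral_integral_swap ?_
  rw [Measure.prod_restrict]
  exact (hφ.continuousOn.integrableOn_compact (isCompact_Icc.prod isCompact_Icc)).mono_set
    (prod_mono Ioc_subset_Icc_self Ioc_subset_Icc_self)

theorem RI.dec {n : ℕ} {I : Finset (Fin n)} {s : E n} (hs : s ∈ RI I) :
    s = ∑ i ∈ I, (s i).re • (Pi.single i 1 : E n) := by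
  funext k
  simp only [Finset.sum_apply, Pi.smul_apply, Pi.single_apply, smul_ite, smul_zero,
    Finset.sum_ite_eq]
  by_cases h : k ∈ I
  · simp [h, Complex.ext_iff, (hs k).1]
  · simp [h, (hs k).2 h]

end Pool.Agent.CL
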