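import Pool.Agent.P.MP_63735c_ag.CLAv2

/-! The moment map and its potential. -/

open scoped ContDiff Matrix ENNReal
open Set Metric MeasureTheory Filter Topology

namespace Pool.Agent.CL

open Pool.Agent.SPF

variable {n : ℕ}

/-- A closed (1,1)-form that is invariant under the real span of the `e_i`. -/
structure AvBase (T : Set (E n)) (I : Finset (Fin n)) (t : Form2 (P n)) (o : P n) : Prop where
  isOpen : IsOpen T
  conv : Convex ℝ T
  mem : o.1 ∈ T
  closed : Closed2 (T ×ˢ univ) t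
  jinv : JInv (T ×ˢ univ) t
  inv : ∀ y ∈ T, ∀ ξ, ∀ s ∈ RI I, t (y, ξ + s) = t (y, ξ)
  zero : ∀ p : P n, p.1 ∈ T → ∀ s ∈ RI I, ∀ s' ∈ RI I, t p (0, s) (0, s') = 0

/-- The moment map. -/
noncomputable def mom (I : Finset (Fin n)) (t : Form2 (P n)) (o p : P n) : E n := fun k =>
  if k ∈ I then (segInt (fun q => t q (0, Pi.single k 1)) o p : ℝ) else 0

/-- The potential of the moment map. -/
noncomputable def pot (I : Finset (Fin n)) (t : Form2 (P n)) (o p : P n) : ℝ :=
  ∫ s in (0 : ℝ)..1, ip (tauI I p.2) (mom I t o (p.1, piI I p.2 + s • Complex.I • tauI I p.2))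

theorem ip_rdot {I : Finset (Fin n)} (v : E n) {r : E n} (hr : r ∈ RI I) :
    ip v r = rdot 1 v r := by
  rw [rdot_apply, ip, one_mul, dotProduct, Complex.re_sum]
  refine Finset.sum_congr rfl fun k _ => ?_
  simp [(hr k).1]

theorem ip_single {I : Finset (Fin n)} {r : E n} (hr : r ∈ RI I) (k : Fin n) :
    ((ip (Pi.single k 1) r : ℝ) : ℂ) = r k := by
  rw [ip_rdot _ hr, rdot_apply]
  simp [Complex.ext_iff, (hr k).1]

theorem RI.ext {I : Finset (Fin n)} {a b : E n} (ha : a ∈ RI I) (hb : b ∈ RI I)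
    (h : ∀ v ∈ RI I, ip v a = ip v b) : a = b := by
  funext k
  by_cases hk : k ∈ I
  · rw [← ip_single ha, ← ip_single hb, h _ (RI.single hk)]
  · rw [(ha k).2 hk, (hb k).2 hk]

theorem ip_sub_RI {I : Finset (Fin n)} (v : E n) {a b : E n} (ha : a ∈ RI I) (hb : b ∈ RI I) :
    ip v (a - b) = ip v a - ip v b := by
  rw [ip_rdot _ ha, ip_rdot _ hb, ip_rdot _ (RI.sub ha hb), map_sub]

theorem mom_mem (I : Finset (Fin n)) (t : Form2 (P n)) (o p : P n) : mom I t o p ∈ RI I :=
  fun k => by by_cases h : k ∈ I <;> simp [mom, h]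

variable {T : Set (E n)} {I : Finset (Fin n)} {t : Form2 (P n)} {o : P n}

theorem AvBase.W (h : AvBase T I t o) : IsOpen (T ×ˢ (univ : Set (E n))) :=
  h.isOpen.prod isOpen_univ

theorem AvBase.dir (h : AvBase T I t o) {s : E n} (hs : s ∈ RI I) {p : P n} (hp : p.1 ∈ T)
    (a b : P n) : dd (fm t a b) (0, s) p = 0 :=
  fderiv_inv (clav1_at h.W (fm_smooth h.closed.1 a b) ⟨hp, trivial⟩).2.2.2
    (Eventually.of_forall fun c => by
      have := h.inv p.1 hp p.2 _ (RI.smul hs c)
      simp only [fm]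
      rw [← vert_add] at this
      rw [this])

theorem AvBase.prim (h : AvBase T I t o) {s : E n} (hs : s ∈ RI I) :
    IsPrim (T ×ˢ univ) (fun q => t q (0, s)) 0 := by
  refine ⟨h.closed.1.clm_apply contDiffOn_const, fun p hp u v => ?_⟩
  have hd := (clav1_at h.W h.closed.1 hp).2.2.2
  have e : ∀ u v, fderiv ℝ (fun q => t q (0, s)) p u v = dd (fm t (0, s) v) u p := fun u v => by
    rw [dd_fm hd, (hd.hasFDerivAt.clm_apply (hasFDerivAt_const ((0, s) : P n) p)).fderiv]
    simp
  have h1 := dd_cyc h.W h.closed hp u v (0, s)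
  have h2 : dd (fm t v (0, s)) u p = -dd (fm t (0, s) v) u p :=
    dd_neg h.W (fm_smooth h.closed.1 _ _) (fun q hq => h.closed.2.1 q hq _ _) u hp
  rw [e, e, h.dir hs hp.1] at *
  simp only [Pi.zero_apply, zero_apply]
  linarith

theorem AvBase.r_smooth (h : AvBase T I t o) : ContDiffOn ℝ ∞ (mom I t o) (T ×ˢ univ) := by
  refine contDiffOn_pi.2 fun k => ?_
  by_cases hk : k ∈ I
  · simp only [mom, hk, if_true]
    refine Complex.ofRealCLM.contDiff.comp_contDiffOn (contDiffOn_param h.W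
      (f := fun x s => t (o + s • (x - o)) (0, Pi.single k 1) (x - o)) fun x hx s hs => ?_)
    have hm : o + s • (x - o) ∈ T ×ˢ (univ : Set (E n)) :=
      (h.conv.prod convex_univ).add_smul_sub_mem (mk_mem_prod h.mem (mem_univ o.2)) hx hs
    have h1 : ContDiffAt ℝ ∞ (fun q : P n × ℝ => t (o + q.2 • (q.1 - o))) (x, s) :=
      (clav1_at h.W h.closed.1 hm).1.comp (x, s)
        (f := fun q : P n × ℝ => o + q.2 • (q.1 - o)) (by fun_prop)
    exact (h1.clm_apply contDiffAt_const).clm_apply (by fun_prop)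
  · simp only [mom, hk, if_false]
    exact contDiffOn_const

theorem AvBase.r_deriv (h : AvBase T I t o) {p : P n} (hp : p.1 ∈ T) {v : E n} (hv : v ∈ RI I) :
    HasFDerivAt (fun q => ip v (mom I t o q)) (t p (0, v)) p := by
  have h1 : HasFDerivAt (fun q => ∑ k ∈ I, (v k).re *
      segInt (fun q => t q (0, Pi.single k 1)) o q)
      (∑ k ∈ I, (v k).re • t p (0, Pi.single k 1)) p :=
    HasFDerivAt.fun_sum fun k hk => (closed1_deriv h.W (h.conv.prod convex_univ)
      (h.prim (RI.single hk)) ⟨h.mem, trivial⟩ ⟨hp, trivial⟩).const_mul _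
  have e1 : (fun q => ip v (mom I t o q)) = fun q => ∑ k ∈ I, (v k).re *
      segInt (fun q => t q (0, Pi.single k 1)) o q := by
    funext q
    rw [ip, ← Finset.sum_subset (Finset.subset_univ I)
      (fun k _ hk => by simp [mom, hk])]
    exact Finset.sum_congr rfl fun k hk => by simp [mom, hk]
  have e2 : t p (0, v) = ∑ k ∈ I, (v k).re • t p (0, Pi.single k 1) := by
    have : ((0, v) : P n) = ∑ k ∈ I, (v k).re • ((0, Pi.single k 1) : P n) := by
      conv_lhs => rw [RI.dec hv]
      ext <;> simp [Prod.fst_sum, Prod.snd_sum]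
    rw [this, map_sum]
    simp only [map_smul]
  rw [e1, e2]
  exact h1

theorem AvBase.rv_smooth (h : AvBase T I t o) (v : E n) :
    ContDiffOn ℝ ∞ (fun q => ip v (mom I t o q)) (T ×ˢ univ) :=
  ((rdot 1 v).contDiff.comp_contDiffOn h.r_smooth).congr
    fun q _ => ip_rdot v (mom_mem I t o q)

theorem AvBase.dd_rv (h : AvBase T I t o) {p : P n} (hp : p.1 ∈ T) {v : E n} (hv : v ∈ RI I)
    (u : P n) : dd (fun q => ip v (mom I t o q)) u p = t p (0, v) u := by
  rw [dd, (h.r_deriv hp hv).fderiv]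

/-- The increment of the moment map along a vertical segment. -/
theorem AvBase.r_line (h : AvBase T I t o) {y : E n} (hy : y ∈ T) (ξ w : E n) {v : E n}
    (hv : v ∈ RI I) : Continuous (fun s : ℝ => t (y, ξ + s • w) (0, v) (0, w)) ∧
    ip v (mom I t o (y, ξ + w) - mom I t o (y, ξ)) =
      ∫ s in (0 : ℝ)..1, t (y, ξ + s • w) (0, v) (0, w) := by
  obtain ⟨h1, h2⟩ := line_int h.W (h.rv_smooth v) (p := (y, ξ)) (v := (0, w))
    (vert_mem w _ ⟨hy, trivial⟩) 0 1
  have e : ∀ s : ℝ, dd (fun q => ip v (mom I t o q)) (0, w) ((y, ξ) + s • ((0, w) : P n)) =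
      t (y, ξ + s • w) (0, v) (0, w) := fun s => by
    rw [vert_add, h.dd_rv hy hv]
  simp only [e] at h1 h2
  refine ⟨h1, ?_⟩
  rw [ip_sub_RI v (mom_mem _ _ _ _) (mom_mem _ _ _ _), ← h2]
  simp

theorem AvBase.r_RI (h : AvBase T I t o) {y : E n} (hy : y ∈ T) (ξ : E n) {s : E n}
    (hs : s ∈ RI I) : mom I t o (y, ξ + s) = mom I t o (y, ξ) := by
  refine RI.ext (mom_mem _ _ _ _) (mom_mem _ _ _ _) fun v hv => ?_
  have h1 := (h.r_line hy ξ s hv).2
  have e : ∀ c : ℝ, t (y, ξ + c • s) (0, v) (0, s) = 0 := fun c => h.zero _ hy v hv s hs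
  rw [ip_sub_RI v (mom_mem _ _ _ _) (mom_mem _ _ _ _)] at h1
  simp only [e, intervalIntegral.integral_zero] at h1
  linarith

theorem AvBase.r_lip (h : AvBase T I t o) {C : ℝ} (hC : 0 ≤ C)
    (hv : ∀ p : P n, p.1 ∈ T → ∀ v w : E n, |t p (0, v) (0, w)| ≤ C * ‖v‖ * ‖w‖)
    {y : E n} (hy : y ∈ T) (ξ ξ' : E n) :
    ‖mom I t o (y, ξ) - mom I t o (y, ξ')‖ ≤ C * ‖ξ - ξ'‖ := by
  refine (pi_norm_le_iff_of_nonneg (by positivity)).2 fun k => ?_
  have hm := RI.sub (mom_mem I t o (y, ξ)) (mom_mem I t o (y, ξ'))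
  by_cases hk : k ∈ I
  · have h1 := (h.r_line hy ξ' (ξ - ξ') (RI.single hk)).2
    rw [add_sub_cancel] at h1
    rw [← ip_single hm, h1, Complex.norm_real]
    have := intervalIntegral.norm_integral_le_of_norm_le_const (a := 0) (b := 1)
      (f := fun s : ℝ => t (y, ξ' + s • (ξ - ξ')) (0, Pi.single k 1) (0, ξ - ξ'))
      (C := C * ‖ξ - ξ'‖) fun s _ => by
        simpa [Pi.norm_single] using hv (y, ξ' + s • (ξ - ξ')) hy (Pi.single k 1) (ξ - ξ')
    simpa using this
  · rw [(hm k).2 hk, norm_zero]; positivity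

theorem AvBase.pot_at (h : AvBase T I t o) {p : P n} (hp : p.1 ∈ T) (s : ℝ) :
    ContDiffAt ℝ ∞ (fun q : P n × ℝ => rdot 1 (tauI I q.1.2)
      (mom I t o (q.1.1, piI I q.1.2 + q.2 • Complex.I • tauI I q.1.2))) (p, s) := by
  have h0 : ContDiff ℝ ∞ fun ξ : E n => piI I ξ := ((piI I).restrictScalars ℝ).contDiff
  have h1 : ContDiffAt ℝ ∞ (fun q : P n × ℝ =>
      mom I t o (q.1.1, piI I q.1.2 + q.2 • Complex.I • tauI I q.1.2)) (p, s) :=
    (clav1_at h.W h.r_smooth (p := (p.1, piI I p.2 + s • Complex.I • tauI I p.2))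
      ⟨hp, trivial⟩).1.comp (p, s) (f := fun q : P n × ℝ =>
        ((q.1.1, piI I q.1.2 + q.2 • Complex.I • tauI I q.1.2) : P n)) (by fun_prop)
  exact ContDiffAt.clm_apply (by fun_prop) h1

theorem pot_eq (I : Finset (Fin n)) (t : Form2 (P n)) (o : P n) : pot I t o = fun p =>
    ∫ s in (0 : ℝ)..1, rdot 1 (tauI I p.2)
      (mom I t o (p.1, piI I p.2 + s • Complex.I • tauI I p.2)) := by
  funext p
  simp only [pot, ip_rdot _ (mom_mem I t o _)]

theorem AvBase.pot_smooth (h : AvBase T I t o) : ContDiffOn ℝ ∞ (pot I t o) (T ×ˢ univ) := by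
  rw [pot_eq]
  exact contDiffOn_param h.W (f := fun p s => rdot 1 (tauI I p.2)
    (mom I t o (p.1, piI I p.2 + s • Complex.I • tauI I p.2))) fun x hx s _ => h.pot_at hx.1 s

theorem pot_RI (y ξ : E n) {s : E n} (hs : s ∈ RI I) :
    pot I t o (y, ξ + s) = pot I t o (y, ξ) := by
  simp [pot, (RI.proj hs).1, (RI.proj hs).2.1]

theorem pot_zero {p : P n} (hp : tauI I p.2 = 0) : pot I t o p = 0 := by
  simp [pot, hp, ip]

theorem AvBase.pot_tau (h : AvBase T I t o) {p : P n} (hp : p.1 ∈ T) {v : E n} (hv : v ∈ RI I) :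
    dd (pot I t o) (0, Complex.I • v) p = ip v (mom I t o p) := by
  obtain ⟨h1, h2⟩ := hasFDerivAt_param (f := fun (p : P n) (s : ℝ) => rdot 1 (tauI I p.2)
    (mom I t o (p.1, piI I p.2 + s • Complex.I • tauI I p.2))) (x := p)
    fun s _ => (h.pot_at hp s).of_le ENat.LEInfty.out
  set τ := tauI I p.2 with hτ
  have hτm : τ ∈ RI I := tauI_mem I p.2
  set q : ℝ → P n := fun s => (p.1, piI I p.2) + s • ((0, Complex.I • τ) : P n) with hq
  have qm : ∀ s, q s ∈ T ×ˢ (univ : Set (E n)) := vert_mem _ _ ⟨hp, trivial⟩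
  have key : ∀ s : ℝ, fderiv ℝ (fun x : P n => rdot 1 (tauI I x.2)
      (mom I t o (x.1, piI I x.2 + s • Complex.I • tauI I x.2))) p (0, Complex.I • v) =
      ip v (mom I t o (q s)) + s * t (q s) (0, v) (0, Complex.I • τ) := fun s => by
    have d1 : DifferentiableAt ℝ (fun x : P n => rdot 1 (tauI I x.2)
        (mom I t o (x.1, piI I x.2 + s • Complex.I • tauI I x.2)))
        (p + (0 : ℝ) • ((0, Complex.I • v) : P n)) := by
      rw [zero_smul, add_zero]
      exact ((h.pot_at hp s).comp p (f := fun x : P n => (x, s)) (by fun_prop)).differentiableAt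
        (by simp)
    have l1 := line_deriv d1
    set w : P n := (0, s • Complex.I • v) with hw
    have dv : ∀ a : E n, HasDerivAt (fun c : ℝ => ip a (mom I t o (q s + c • w)))
        (dd (fun x => ip a (mom I t o x)) w (q s)) 0 := fun a => by
      have := line_deriv (f := fun x => ip a (mom I t o x)) (p := q s) (v := w) (c := 0)
        (by rw [zero_smul, add_zero]; exact (clav1_at h.W (h.rv_smooth a) (qm s)).2.2.2)
      simpa using this
    have l2 := (dv τ).add ((hasDerivAt_id (0 : ℝ)).mul (dv v))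
    have e : (fun c : ℝ => rdot 1 (tauI I (p + c • ((0, Complex.I • v) : P n)).2)
        (mom I t o ((p + c • ((0, Complex.I • v) : P n)).1,
          piI I (p + c • ((0, Complex.I • v) : P n)).2 +
            s • Complex.I • tauI I (p + c • ((0, Complex.I • v) : P n)).2))) =
        (fun c : ℝ => ip τ (mom I t o (q s + c • w))) +
          id * fun c : ℝ => ip v (mom I t o (q s + c • w)) := by
      funext c
      have a1 : tauI I (p + c • ((0, Complex.I • v) : P n)).2 = τ + c • v := by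
        simp [hτ, (RI.proj hv).2.2.2.2.1]
      have a2 : piI I (p + c • ((0, Complex.I • v) : P n)).2 = piI I p.2 := by
        have : piI I (c • Complex.I • v) = c • piI I (Complex.I • v) :=
          (piI I).map_smul_of_tower c _
        rw [Prod.snd_add, map_add, Prod.smul_snd, this, (RI.proj hv).2.2.2.1]
        simp
      have a3 : (((p + c • ((0, Complex.I • v) : P n)).1,
          piI I p.2 + s • Complex.I • (τ + c • v)) : P n) = q s + c • w := by
        ext1
        · simp [hq, hw]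
        · simp only [hq, hw, Prod.snd_add, Prod.smul_snd, smul_add, add_assoc]
          rw [smul_comm Complex.I c v, smul_comm s c]
      rw [a1, a2, a3]
      simp [ip_rdot _ (mom_mem I t o _)]
    rw [e] at l1
    have l3 := l1.unique l2
    rw [h.dd_rv (qm s).1 hτm] at l3
    simp only [zero_smul, add_zero, id, zero_mul, one_mul, dd] at l3
    rw [l3]
    have j := jinv_symm h.closed h.jinv (qm s) ((0, τ) : P n) (0, v)
    have hw' : w = s • Complex.I • ((0, v) : P n) := by simp [hw]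
    rw [hw', map_smul, j]
    simp [add_comm]
  rw [pot_eq, dd, h1.fderiv, ContinuousLinearMap.intervalIntegral_apply
    (h2.intervalIntegrable_of_Icc zero_le_one)]
  simp only [key]
  obtain ⟨c1, -⟩ := line_int h.W (h.rv_smooth v) qm 0 1
  have c2 : Continuous fun s => ip v (mom I t o (q s)) :=
    (h.rv_smooth v).continuousOn.comp_continuous (by fun_prop) qm
  have e3 : ∀ s, dd (fun x => ip v (mom I t o x)) (0, Complex.I • τ)
      ((p.1, piI I p.2) + s • ((0, Complex.I • τ) : P n)) =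
      t (q s) (0, v) (0, Complex.I • τ) := fun s => h.dd_rv (qm s).1 hv _
  simp only [e3] at c1
  have c3 : Continuous fun s => ip v (mom I t o (q s)) + s * t (q s) (0, v) (0, Complex.I • τ) :=
    c2.add (continuous_id.mul c1)
  rw [intervalIntegral.integral_eq_sub_of_hasDerivAt
    (f := fun s : ℝ => s * ip v (mom I t o (q s))) (fun s _ => ?_) (c3.intervalIntegrable _ _)]
  · have e4 : p = (p.1, (piI I p.2 + Complex.I • τ) + reI I p.2) := by
      ext1
      · rfl
      · conv_lhs => rw [split_I I p.2]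
        simp only [hτ]; abel
    have e5 : q 1 = (p.1, piI I p.2 + Complex.I • τ) := by simp [hq]
    conv_rhs => rw [e4, h.r_RI hp _ (reI_mem I p.2)]
    simp [e5]
  · have := (hasDerivAt_id s).mul (line_deriv (clav1_at h.W (h.rv_smooth v) (qm s)).2.2.2)
    rw [e3, one_mul] at this
    exact this

end Pool.Agent.CL
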