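import Pool.Agent.P.MP_63735c_ag.CLPi

/-! The averaged form, the moment map and its potential: definitions. -/

open scoped ContDiff Matrix ENNReal
open Set Metric MeasureTheory Filter Topology

namespace Pool.Agent.CL

open Pool.Agent.SPF

variable {n : ℕ}

/-- The projection that kills the `I`-coordinates. -/
noncomputable def piI (I : Finset (Fin n)) : E n →L[ℂ] E n :=
  ContinuousLinearMap.pi fun k => if k ∈ I then 0 else ContinuousLinearMap.proj k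

/-- Imaginary parts of the `I`-coordinates. -/
noncomputable def tauI (I : Finset (Fin n)) : E n →L[ℝ] E n :=
  ContinuousLinearMap.pi fun k => if k ∈ I then
    Complex.ofRealCLM.comp (Complex.imCLM.comp (ContinuousLinearMap.proj k)) else 0

/-- Real parts of the `I`-coordinates. -/
noncomputable def reI (I : Finset (Fin n)) : E n →L[ℝ] E n :=
  ContinuousLinearMap.pi fun k => if k ∈ I then
    Complex.ofRealCLM.comp (Complex.reCLM.comp (ContinuousLinearMap.proj k)) else 0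

lemma piI_apply (I : Finset (Fin n)) (ξ : E n) (k : Fin n) :
    piI I ξ k = if k ∈ I then 0 else ξ k := by
  by_cases h : k ∈ I <;> simp [piI, h]

lemma tauI_apply (I : Finset (Fin n)) (ξ : E n) (k : Fin n) :
    tauI I ξ k = if k ∈ I then ((ξ k).im : ℂ) else 0 := by
  by_cases h : k ∈ I <;> simp [tauI, h]

lemma reI_apply (I : Finset (Fin n)) (ξ : E n) (k : Fin n) :
    reI I ξ k = if k ∈ I then ((ξ k).re : ℂ) else 0 := by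
  by_cases h : k ∈ I <;> simp [reI, h]

lemma split_I (I : Finset (Fin n)) (ξ : E n) :
    ξ = reI I ξ + Complex.I • tauI I ξ + piI I ξ := by
  funext k
  by_cases h : k ∈ I
  · simp only [Pi.add_apply, Pi.smul_apply, piI_apply, tauI_apply, reI_apply, h, if_true,
      smul_eq_mul, add_zero]
    rw [mul_comm]; exact (Complex.re_add_im _).symm
  · simp [piI_apply, tauI_apply, reI_apply, h]

lemma tauI_mem (I : Finset (Fin n)) (ξ : E n) : tauI I ξ ∈ RI I := fun k => by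
  by_cases h : k ∈ I <;> simp [tauI_apply, h]

lemma reI_mem (I : Finset (Fin n)) (ξ : E n) : reI I ξ ∈ RI I := fun k => by
  by_cases h : k ∈ I <;> simp [reI_apply, h]

lemma RI.add {I : Finset (Fin n)} {s t : E n} (hs : s ∈ RI I) (ht : t ∈ RI I) :
    s + t ∈ RI I := fun k =>
  ⟨by simp [(hs k).1, (ht k).1], fun h => by simp [(hs k).2 h, (ht k).2 h]⟩

lemma RI.smul {I : Finset (Fin n)} {s : E n} (hs : s ∈ RI I) (c : ℝ) : c • s ∈ RI I := fun k =>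
  ⟨by simp [(hs k).1], fun h => by simp [(hs k).2 h]⟩

lemma RI.neg {I : Finset (Fin n)} {s : E n} (hs : s ∈ RI I) : -s ∈ RI I := fun k =>
  ⟨by simp [(hs k).1], fun h => by simp [(hs k).2 h]⟩

lemma RI.sub {I : Finset (Fin n)} {s t : E n} (hs : s ∈ RI I) (ht : t ∈ RI I) :
    s - t ∈ RI I := by
  rw [sub_eq_add_neg]; exact RI.add hs (RI.neg ht)

lemma RI.zero (I : Finset (Fin n)) : (0 : E n) ∈ RI I := fun k => by simp

lemma RI.single {I : Finset (Fin n)} {i : Fin n} (hi : i ∈ I) :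
    (Pi.single i 1 : E n) ∈ RI I := fun k => by
  by_cases h : k = i
  · subst h; simp [hi]
  · simp [Pi.single_eq_of_ne h]

lemma ZI.sub_RI {I : Finset (Fin n)} {s : E n} (hs : s ∈ ZI I) : s ∈ RI I := fun k => by
  obtain ⟨⟨m, hm⟩, h2⟩ := hs k
  exact ⟨by rw [hm]; simp, h2⟩

/-- Values of the three projections on real vectors supported on `I`. -/
lemma RI.proj {I : Finset (Fin n)} {s : E n} (hs : s ∈ RI I) :
    piI I s = 0 ∧ tauI I s = 0 ∧ reI I s = s ∧ piI I (Complex.I • s) = 0 ∧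
      tauI I (Complex.I • s) = s ∧ reI I (Complex.I • s) = 0 := by
  refine ⟨?_, ?_, ?_, ?_, ?_, ?_⟩ <;> funext k <;> by_cases h : k ∈ I <;>
    simp [piI_apply, tauI_apply, reI_apply, h, (hs k).1, (hs k).2, Complex.ext_iff]

lemma proj_piI (I : Finset (Fin n)) (ξ : E n) :
    piI I (piI I ξ) = piI I ξ ∧ tauI I (piI I ξ) = 0 ∧ reI I (piI I ξ) = 0 := by
  refine ⟨?_, ?_, ?_⟩ <;> funext k <;> by_cases h : k ∈ I <;>
    simp [piI_apply, tauI_apply, reI_apply, h]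

lemma proj_norm (I : Finset (Fin n)) (ξ : E n) :
    ‖piI I ξ‖ ≤ ‖ξ‖ ∧ ‖tauI I ξ‖ ≤ ‖ξ‖ ∧ ‖reI I ξ‖ ≤ ‖ξ‖ := by
  refine ⟨?_, ?_, ?_⟩ <;> refine (pi_norm_le_iff_of_nonneg (norm_nonneg _)).2 fun k => ?_ <;>
    by_cases h : k ∈ I
  · simp [piI_apply, h]
  · simpa [piI_apply, h] using norm_le_pi_norm ξ k
  · simpa [tauI_apply, h] using (Complex.abs_im_le_norm _).trans (norm_le_pi_norm ξ k)
  · simp [tauI_apply, h]
  · simpa [reI_apply, h] using (Complex.abs_re_le_norm _).trans (norm_le_pi_norm ξ k)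
  · simp [reI_apply, h]

/-- The horizontal trace of a form. -/
noncomputable def trh (t : Form2 (P n)) (p : P n) : ℝ :=
  ∑ k, t p (Pi.single k 1, 0) (Complex.I • (Pi.single k 1, 0))

variable {X : Type} [TopologicalSpace X] [MeasurableSpace X]

/-- A return germ at `y` whose base map is the small isometry `j`. -/
def Setup.Sm (S : Setup n X) (j : S.G.G) (y : E n) (g : Ret n) : Prop :=
  S.G.lg.sz j ≤ S.G.lg.ε ∧ Germ S.M.T S.M.Ψ y g ∧ g.γ =ᶠ[𝓝 y] S.G.γ j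

/-- The averaged form `omb`, the moment map `r` and the potential `Φ`. -/
structure Avg (S : Setup n X) where
  omb : Form2 (P n)
  r : P n → E n
  Φ : P n → ℝ
  c : ℝ
  C : ℝ
  c_pos : 0 < c
  C_ge : 1 ≤ C
  closed : Closed2 (S.M.T ×ˢ univ) omb
  jinv : JInv (S.M.T ×ˢ univ) omb
  pos : ∀ p : P n, p.1 ∈ S.M.T → ∀ u, u ≠ 0 → 0 < omb p u (Complex.I • u)
  vert : ∀ p : P n, p.1 ∈ S.M.T → ∀ v w : E n, |omb p (0, v) (0, w)| ≤ C * ‖v‖ * ‖w‖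
  split : ∀ p : P n, p.1 ∈ S.M.T → ∀ u : P n, 0 ≤ trh omb p ∧
    omb p u (Complex.I • u) ≤ C * (trh omb p * ‖u.1‖ ^ 2 + ‖u.2‖ ^ 2)
  omb_RI : ∀ y ∈ S.M.T, ∀ ξ, ∀ s ∈ RI S.Q.I, omb (y, ξ + s) = omb (y, ξ)
  omb_zero : ∀ p : P n, p.1 ∈ S.M.T → ∀ s ∈ RI S.Q.I, ∀ s' ∈ RI S.Q.I, omb p (0, s) (0, s') = 0
  inv : ∀ O g, IsRet S.M.T S.M.Ψ O g → (∀ x ∈ O, ∀ s ∈ RI S.Q.I, g.N x s = s) → Inv omb O g
  r_mem : ∀ p, r p ∈ RI S.Q.I
  r_smooth : ContDiffOn ℝ ∞ r (S.M.T ×ˢ univ)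
  r_deriv : ∀ p : P n, p.1 ∈ S.M.T → ∀ v ∈ RI S.Q.I,
    HasFDerivAt (fun q => ip v (r q)) (omb p (0, v)) p
  r_RI : ∀ y ∈ S.M.T, ∀ ξ, ∀ s ∈ RI S.Q.I, r (y, ξ + s) = r (y, ξ)
  r_lip : ∀ y ∈ S.M.T, ∀ ξ ξ', ‖r (y, ξ) - r (y, ξ')‖ ≤ C * ‖ξ - ξ'‖
  r_shift : ∀ O g, IsRet S.M.T S.M.Ψ O g → IsPreconnected O →
    (∀ x ∈ O, ∀ s ∈ RI S.Q.I, g.N x s = s) →
    ∃ ρ ∈ RI S.Q.I, ∀ p : P n, p.1 ∈ O → r (g.act p) - r p = ρ
  r_germ : ∀ j, ∀ y ∈ ball S.G.y0 (2 * S.G.r), ∀ g, S.Sm j y g →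
    ∃ ρ ∈ RI S.Q.I, ∀ᶠ x in 𝓝 y, ∀ ξ, r (g.act (x, ξ)) - r (x, ξ) = ρ
  Φ_smooth : ContDiffOn ℝ ∞ Φ (S.M.T ×ˢ univ)
  Φ_RI : ∀ y ∈ S.M.T, ∀ ξ, ∀ s ∈ RI S.Q.I, Φ (y, ξ + s) = Φ (y, ξ)
  Φ_zero : ∀ p : P n, p.1 ∈ S.M.T → tauI S.Q.I p.2 = 0 → Φ p = 0
  Φ_tau : ∀ p : P n, p.1 ∈ S.M.T → ∀ v ∈ RI S.Q.I,
    fderiv ℝ Φ p (0, Complex.I • v) = ip v (r p)
  Φ_conv : ∀ p : P n, p.1 ∈ S.M.T → ∀ v ∈ RI S.Q.I,
    D2 Φ p (0, Complex.I • v) = omb p (0, v) (0, Complex.I • v)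
  LP : ∀ p : P n, p.1 ∈ S.M.T → ∀ u : P n, Lv Φ p u = omb p u (Complex.I • u) -
    omb (p.1, piI S.Q.I p.2) (u.1, piI S.Q.I u.2) (Complex.I • (u.1, piI S.Q.I u.2))
  HB : ∀ K, IsCompact K → K ⊆ S.M.T → ∃ B : ℝ, ∀ R ≥ (1 : ℝ),
    ∫⁻ p in K ×ˢ ball (0 : E n) R, ENNReal.ofReal (trh omb (p.1, piI S.Q.I p.2)) ≤
      ENNReal.ofReal (B * R ^ (2 * n + 2))
  TG : ∀ j, ∀ y ∈ ball S.G.y0 (3 / 2 * S.G.r), ∀ g, S.Sm j y g → ∀ s ∈ RI S.Q.I, ∀ d : E n,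
    ‖d‖ ≤ 1 → (∀ v : E n, c * ‖v‖ ^ 2 ≤ omb (y, g.α y + s + d) (0, v) (0, Complex.I • v)) ∧
      ∀ e w : E n, piI S.Q.I w = 0 → c * ‖piI S.Q.I (fderiv ℂ g.α y e)‖ ^ 2 - C * ‖e‖ ^ 2 ≤
        omb (y, g.α y + s + d) (e, w) (Complex.I • (e, w))
  mon0 : ∀ y ∈ S.M.T, ∀ ξ, ∀ v ∈ RI S.Q.I, 0 ≤ ip v (r (y, ξ + Complex.I • v) - r (y, ξ))
  mon1 : ∀ j, ∀ y ∈ ball S.G.y0 (3 / 2 * S.G.r), ∀ g, S.Sm j y g → ∀ s ∈ RI S.Q.I, ∀ d : E n,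
    ‖d‖ ≤ 1 / 2 → ∀ v ∈ RI S.Q.I, c * ‖v‖ * min ‖v‖ (1 / 2) ≤
      ip v (r (y, g.α y + s + d + Complex.I • v) - r (y, g.α y + s + d))

end Pool.Agent.CL
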