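import Pool.Agent.P.MP_63735c_ag.CLOm
import Pool.Agent.P.MP_63735c_ag.CLPack
import Pool.Agent.P.MP_63735c_ag.CLGreen

/-! The barrier. -/

open scoped ContDiff Matrix ENNReal
open Set Metric MeasureTheory Filter Topology

namespace Pool.Agent.CL

open Pool.Agent.SPF

variable {n : ℕ} {X : Type} [TopologicalSpace X] [T2Space X] [MeasurableSpace X]

lemma clbar_ipL (p : E n) : ∃ L : E n →L[ℝ] ℝ, ∀ v, L v = ip p v :=
  ⟨LinearMap.toContinuousLinearMap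
    (⟨⟨fun v => ip v p, fun a b => (ip_basic a b p 0).2.2.1⟩,
      fun c a => (ip_basic a p p c).2.2.2.2.1⟩ : E n →ₗ[ℝ] ℝ), fun v => (ip_basic v p p 0).1⟩

lemma clbar_nsq : ContDiff ℝ 2 (nsq : E n → ℝ) :=
  ContDiff.sum fun k _ => (contDiff_apply ℝ ℂ k).norm_sq ℂ

lemma clbar_two : (2 : WithTop ℕ∞) ≤ ((⊤ : ℕ∞) : WithTop ℕ∞) :=
  WithTop.coe_le_coe.2 (le_top : (2 : ℕ∞) ≤ ⊤)

lemma clbar_add {f g : E n → ℝ} {x : E n} (hf : ContDiffAt ℝ 2 f x) (hg : ContDiffAt ℝ 2 g x)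
    (a b : ℝ) (u : E n) :
    Lv (fun y => a * f y + b * g y) x u = a * Lv f x u + b * Lv g x u := by
  unfold Lv
  rw [D2_add hf hg, D2_add hf hg]
  ring

lemma clbar_congr {f g : E n → ℝ} {x : E n} (h : f =ᶠ[𝓝 x] g) (u : E n) :
    Lv f x u = Lv g x u := by
  unfold Lv
  rw [D2_congr h, D2_congr h]

lemma clbar_mvt {φ φ' : ℝ → ℝ} (h : ∀ t, HasDerivAt φ (φ' t) t) {a b C : ℝ} (hab : a ≤ b)
    (hC : ∀ t ∈ Ioo a b, φ' t ≤ C) : φ b - φ a ≤ C * (b - a) := by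
  refine (convex_Icc a b).image_sub_le_mul_sub_of_deriv_le
    (fun t _ => (h t).continuousAt.continuousWithinAt)
    (fun t _ => (h t).differentiableAt.differentiableWithinAt) ?_ a (left_mem_Icc.2 hab) b
    (right_mem_Icc.2 hab) hab
  intro t ht
  rw [interior_Icc] at ht
  rw [(h t).deriv]
  exact hC t ht

lemma clbar_real {φ φ' : ℝ → ℝ} (h : ∀ t, HasDerivAt φ (φ' t) t) {c T : ℝ} (hc : 0 < c)
    (hT : 0 ≤ T) (h0 : φ 0 = 0)
    (hb : ∀ t < 1, φ' t ≤ c / 8 * T - c * T * min ((1 - t) * T) (1 / 2)) :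
    φ 1 ≤ c / 4 - c / 8 * T := by
  have hcT : 0 ≤ c * T := by positivity
  have h1 : φ (1 / 2) - φ 0 ≤ (c / 8 * T - c * T * (min T 1 / 2)) * (1 / 2 - 0) := by
    refine clbar_mvt h (by norm_num) fun t ht => (hb t (by linarith [ht.2])).trans ?_
    have e1 : min T 1 / 2 ≤ min ((1 - t) * T) (1 / 2) := by
      refine le_min ?_ (by linarith [min_le_right T 1])
      have := min_le_left T 1
      nlinarith [ht.2]
    nlinarith [mul_le_mul_of_nonneg_left e1 hcT]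
  have h2 : φ 1 - φ (1 / 2) ≤ (c / 8 * T) * (1 - 1 / 2) := by
    refine clbar_mvt h (by norm_num) fun t ht => (hb t ht.2).trans ?_
    have e1 : 0 ≤ min ((1 - t) * T) (1 / 2) :=
      le_min (mul_nonneg (by linarith [ht.2]) hT) (by norm_num)
    nlinarith [mul_nonneg hcT e1]
  have h3 : T - 1 ≤ T * min T 1 := by
    rcases le_total T 1 with h4 | h4
    · rw [min_eq_left h4]; nlinarith
    · rw [min_eq_right h4]; linarith
  nlinarith [mul_le_mul_of_nonneg_left h3 hc.le]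

lemma clbar_vec {a s w b : E n} (h : a = s + w + b) (t : ℝ) :
    a + -s + 0 + (t - 1) • w = b + t • w ∧ a + -s + 0 = b + (1 : ℝ) • w ∧ a = b + w + s := by
  subst h
  refine ⟨?_, ?_, ?_⟩ <;> module

namespace Big

variable {B : Big n X} {l l' : B.Lab} {y : E n} {g g' : Ret n}

omit [T2Space X] in
lemma clbar_T (hy : y ∈ ball B.S.G.y0 B.S.G.r) : y ∈ B.S.M.T :=
  B.S.G.sub ((ball_subset_closedBall.trans
    (closedBall_subset_closedBall (by linarith [B.S.G.r_pos]))) hy)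

omit [T2Space X] in
lemma clbar_hol (h : B.At l y g) : ∀ᶠ x in 𝓝 y, DifferentiableAt ℂ g.α x := by
  obtain ⟨-, O, hO, hy, -⟩ := h
  filter_upwards [hO.isOpen.mem_nhds hy] with x hx
  exact hO.α_hol.differentiableAt (hO.isOpen.mem_nhds hx)

omit [T2Space X] in
lemma clbar_sm (h : B.At l y g) : ContDiffAt ℝ 2 g.α y := by
  obtain ⟨-, O, hO, hy, -⟩ := h
  exact ((hol_smooth hO.isOpen hO.α_hol).2.1.contDiffAt (hO.isOpen.mem_nhds hy)).of_le clbar_two

omit [T2Space X] in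
lemma clbar_Phi {p : P n} (hp : p.1 ∈ B.S.M.T) : ContDiffAt ℝ 2 B.A.Φ p :=
  (B.A.Φ_smooth.contDiffAt ((B.S.M.T_open.prod isOpen_univ).mem_nhds ⟨hp, mem_univ _⟩)).of_le
    clbar_two

omit [T2Space X] in
/-- The Levi form of the barrier. -/
lemma clbar_levi (h : B.At l y g) (L : E n →L[ℝ] ℝ) {C : ℝ} (hC0 : 0 ≤ C)
    (hC : ‖B.A.omb (y, piI B.S.Q.I (g.α y))‖ ≤ C) (u : E n) :
    0 ≤ Lv (fun x => 1 * (1 * B.A.Φ (x, g.α x) + (-1) * L (g.α x)) +
      C * (1 * nsq x + 1 * nsq (piI B.S.Q.I (g.α x)))) y u := by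
  have hT : y ∈ B.S.M.T := clbar_T h.1
  have hα := clbar_hol h
  have hs := clbar_sm h
  have s1 : ContDiffAt ℝ 2 (fun x => B.A.Φ (x, g.α x)) y :=
    ContDiffAt.comp y (f := fun x => (x, g.α x)) (clbar_Phi (p := (y, g.α y)) hT)
      (contDiffAt_id.prodMk hs)
  have s2 : ContDiffAt ℝ 2 (fun x => L (g.α x)) y :=
    ContDiffAt.comp y (f := g.α) L.contDiff.contDiffAt hs
  have s5 : ContDiffAt ℝ 2 (fun x => piI B.S.Q.I (g.α x)) y :=
    ContDiffAt.comp y (f := g.α) ((piI B.S.Q.I).restrictScalars ℝ).contDiff.contDiffAt hs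
  have s4 : ContDiffAt ℝ 2 (fun x => nsq (piI B.S.Q.I (g.α x))) y :=
    ContDiffAt.comp y (f := fun x => piI B.S.Q.I (g.α x)) clbar_nsq.contDiffAt s5
  have s3 : ContDiffAt ℝ 2 (nsq : E n → ℝ) y := clbar_nsq.contDiffAt
  rw [clbar_add ((contDiffAt_const.mul s1).add (contDiffAt_const.mul s2))
    ((contDiffAt_const.mul s3).add (contDiffAt_const.mul s4)), clbar_add s1 s2, clbar_add s3 s4]
  have d0 := hα.self_of_nhds.hasFDerivAt
  have e1 : Lv (fun x => B.A.Φ (x, g.α x)) y u = Lv B.A.Φ (y, g.α y) (u, fderiv ℂ g.α y u) := by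
    have := Lv_comp (f := B.A.Φ) (g := fun x => (x, g.α x)) (x := y)
      (clbar_Phi (p := (y, g.α y)) hT)
      (by filter_upwards [hα] with x hx using differentiableAt_id.prodMk hx) u
    have d1 : HasFDerivAt (fun x => (x, g.α x))
        ((ContinuousLinearMap.id ℂ (E n)).prod (fderiv ℂ g.α y)) y := (hasFDerivAt_id y).prodMk d0
    rw [d1.fderiv] at this
    exact this
  have e2 : Lv (fun x => L (g.α x)) y u = 0 :=
    (Lv_comp (f := L) (g := g.α) (x := y) L.contDiff.contDiffAt hα u).trans (Lv_linear L _ _)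
  have e4 : Lv (fun x => nsq (piI B.S.Q.I (g.α x))) y u =
      4 * nsq (piI B.S.Q.I (fderiv ℂ g.α y u)) := by
    have := Lv_comp (f := nsq) (g := fun x => piI B.S.Q.I (g.α x)) (x := y) clbar_nsq.contDiffAt
      (by filter_upwards [hα] with x hx using (piI B.S.Q.I).differentiableAt.comp x hx) u
    have d1 : HasFDerivAt (fun x => piI B.S.Q.I (g.α x))
        ((piI B.S.Q.I).comp (fderiv ℂ g.α y)) y := (piI B.S.Q.I).hasFDerivAt.comp y d0
    rw [d1.fderiv, Lv_nsq] at this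
    exact this
  rw [e1, e2, e4, Lv_nsq, B.A.LP (y, g.α y) hT]
  set a := fderiv ℂ g.α y u
  set b := piI B.S.Q.I a
  have p1 : 0 ≤ B.A.omb (y, g.α y) (u, a) (Complex.I • (u, a)) := by
    by_cases h0 : ((u, a) : P n) = 0
    · rw [h0]; simp
    · exact (B.A.pos (y, g.α y) hT _ h0).le
  have p2 : B.A.omb (y, piI B.S.Q.I (g.α y)) (u, b) (Complex.I • (u, b)) ≤
      C * (nsq u + nsq b) := by
    have q1 := (B.A.omb (y, piI B.S.Q.I (g.α y))).le_opNorm₂ (u, b) (Complex.I • (u, b))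
    have q2 : ‖Complex.I • ((u, b) : P n)‖ = ‖((u, b) : P n)‖ := by
      rw [norm_smul, Complex.norm_I, one_mul]
    have q3 : ‖((u, b) : P n)‖ * ‖((u, b) : P n)‖ ≤ nsq u + nsq b := by
      have r1 := (nsq_le u).1
      have r2 := (nsq_le b).1
      rw [Prod.norm_mk]
      rcases le_total ‖u‖ ‖b‖ with r | r
      · rw [max_eq_right r]; nlinarith [sq_nonneg ‖u‖]
      · rw [max_eq_left r]; nlinarith [sq_nonneg ‖b‖]
    rw [q2, mul_assoc] at q1
    exact ((le_abs_self _).trans q1).trans (mul_le_mul hC q3 (by positivity) hC0)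
  have n1 : 0 ≤ nsq u := (sq_nonneg _).trans (nsq_le u).1
  have n2 : 0 ≤ nsq b := (sq_nonneg _).trans (nsq_le b).1
  nlinarith [mul_nonneg hC0 n1, mul_nonneg hC0 n2]

/-- The upper bound for the barrier. -/
lemma clbar_up (h : B.At l y g) (hl : B.lg.sz l ≤ B.lg.ε)
    (hη : n * ‖B.A.r (B.S.G.γ l.1 y, 0) - B.A.r (B.S.G.y0, 0)‖ ≤ B.A.c / 8) :
    B.A.Φ (y, piI B.S.Q.I (g.α y) + Complex.I • tauI B.S.Q.I (g.α y)) -
      ip (B.pl l) (tauI B.S.Q.I (g.α y)) ≤ B.A.c / 4 - B.A.c / 8 * ‖tauI B.S.Q.I (g.α y)‖ := by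
  have hT : y ∈ B.S.M.T := clbar_T h.1
  have hτ := tauI_mem B.S.Q.I (g.α y)
  have hs := reI_mem B.S.Q.I (g.α y)
  have hsp := split_I B.S.Q.I (g.α y)
  have hb0 := (proj_piI B.S.Q.I (g.α y)).2.1
  set τ := tauI B.S.Q.I (g.α y)
  set b := piI B.S.Q.I (g.α y)
  set s := reI B.S.Q.I (g.α y)
  have hd : ∀ t : ℝ, HasDerivAt
      (fun t : ℝ => B.A.Φ (y, b + t • (Complex.I • τ)) - t * ip (B.pl l) τ)
      (ip τ (B.A.r (y, b + t • (Complex.I • τ))) - ip (B.pl l) τ) t := by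
    intro t
    have d1 : HasDerivAt (fun t : ℝ => b + t • (Complex.I • τ)) (Complex.I • τ) t := by
      simpa using ((hasDerivAt_id t).smul_const (Complex.I • τ)).const_add b
    have d2 : HasDerivAt (fun t : ℝ => ((y, b + t • (Complex.I • τ)) : P n))
        ((0, Complex.I • τ) : P n) t := (hasDerivAt_const t y).prodMk d1
    have d3 := HasFDerivAt.comp_hasDerivAt t
      (f := fun t : ℝ => ((y, b + t • (Complex.I • τ)) : P n))
      ((clbar_Phi (p := (y, b + t • (Complex.I • τ))) hT).differentiableAt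
        (by norm_num)).hasFDerivAt d2
    rw [B.A.Φ_tau (y, b + t • (Complex.I • τ)) hT τ hτ] at d3
    have d4 : HasDerivAt (fun t : ℝ => t * ip (B.pl l) τ) (ip (B.pl l) τ) t := by
      simpa using (hasDerivAt_id t).mul_const (ip (B.pl l) τ)
    exact d3.sub d4
  have key := clbar_real hd B.A.c_pos (norm_nonneg τ) (by
    simp only [zero_smul, add_zero, zero_mul, sub_zero]
    exact B.A.Φ_zero (y, b) hT hb0) ?_
  · simpa only [one_smul, one_mul] using key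
  intro t ht
  have hy : y ∈ ball B.S.G.y0 (3 / 2 * B.S.G.r) :=
    ball_subset_ball (by linarith [B.S.G.r_pos]) h.1
  have m1 := B.A.mon1 l.1 y hy g (h.sm hl) (-s) (RI.neg hs) 0 (by simp) ((t - 1) • τ)
    (RI.smul hτ _)
  obtain ⟨v1, v2, v3⟩ := clbar_vec hsp t
  rw [smul_comm Complex.I (t - 1) τ, v1, v2, norm_smul, Real.norm_eq_abs,
    abs_of_neg (by linarith), (ip_basic τ _ τ (t - 1)).2.2.2.2.1] at m1
  have r1 : B.A.r (y, b + (1 : ℝ) • (Complex.I • τ)) = B.A.r (B.S.G.γ l.1 y, 0) - B.rho l := by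
    rw [← h.mom0, one_smul, ← B.A.r_RI y hT _ s hs, ← v3]
  have i1 : ∀ a a' : E n, ip τ (a - a') = ip τ a - ip τ a' := fun a a' => by
    rw [(ip_basic τ (a - a') τ 0).1, (ip_basic a a' τ 0).2.2.2.1, (ip_basic τ a τ 0).1,
      (ip_basic τ a' τ 0).1]
  have i2 : ip τ (B.A.r (y, b + (1 : ℝ) • (Complex.I • τ))) - ip (B.pl l) τ ≤
      B.A.c / 8 * ‖τ‖ := by
    rw [(ip_basic (B.pl l) τ τ 0).1, ← i1, r1, pl, sub_sub_sub_cancel_right]
    have := (le_abs_self _).trans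
      (ip_basic τ (B.A.r (B.S.G.γ l.1 y, 0) - B.A.r (B.S.G.y0, 0)) τ 0).2.2.2.2.2.1
    nlinarith [mul_le_mul_of_nonneg_left hη (norm_nonneg τ)]
  rw [i1, neg_sub] at m1
  have m2 : B.A.c * ‖τ‖ * min ((1 - t) * ‖τ‖) (1 / 2) ≤
      ip τ (B.A.r (y, b + (1 : ℝ) • (Complex.I • τ))) -
        ip τ (B.A.r (y, b + t • (Complex.I • τ))) := by
    refine le_of_mul_le_mul_left (a := 1 - t) ?_ (by linarith)
    nlinarith
  linarith

theorem bar (B : Big n X) : ∃ e > (0 : ℝ), e ≤ B.lg.ε ∧ e ≤ B.S.G.r / 4 ∧ ∀ l, B.lg.sz l ≤ e →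
    ∀ M : ℝ, ∃ (v : E n → ℝ) (K c : ℝ), 0 < c ∧ ContDiffOn ℝ 2 v (B.Om l) ∧
      ∀ x ∈ B.Om l, x ∈ ball B.S.G.y0 e → ‖B.bb l x‖ ≤ M →
        (∀ u, 0 ≤ Lv v x u) ∧ v x ≤ K - c * ‖B.tt l x‖ := by
  have hr := B.S.G.r_pos
  have hL := B.S.G.lg.L_ge
  have hc := B.A.c_pos
  have hy0 : B.S.G.y0 ∈ B.S.M.T := clbar_T (mem_ball_self hr)
  have c1 : ContinuousAt (fun y : E n => B.A.r (y, 0)) B.S.G.y0 :=
    ContinuousAt.comp (f := fun y : E n => ((y, 0) : P n))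
      (B.A.r_smooth.continuousOn.continuousAt
        ((B.S.M.T_open.prod isOpen_univ).mem_nhds ⟨hy0, mem_univ _⟩)) (by fun_prop)
  obtain ⟨δ, hδ, hδ'⟩ := Metric.continuousAt_iff.1 c1 (B.A.c / 8 / (n + 1)) (by positivity)
  refine ⟨min B.lg.ε (min (B.S.G.r / 4) (δ / (B.S.G.lg.L + 1))),
    lt_min B.lg.ε_pos (lt_min (by positivity) (by positivity)), min_le_left _ _,
    (min_le_right _ _).trans (min_le_left _ _), ?_⟩
  intro l hl M
  have hlε : B.lg.sz l ≤ B.lg.ε := hl.trans (min_le_left _ _)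
  have hlδ : B.lg.sz l ≤ δ / (B.S.G.lg.L + 1) :=
    hl.trans ((min_le_right _ _).trans (min_le_right _ _))
  have hK : IsCompact (closedBall B.S.G.y0 B.S.G.r ×ˢ closedBall (0 : E n) M) :=
    (isCompact_closedBall _ _).prod (isCompact_closedBall _ _)
  have hsub : closedBall B.S.G.y0 B.S.G.r ⊆ B.S.M.T :=
    (closedBall_subset_closedBall (by linarith : B.S.G.r ≤ 4 * B.S.G.r)).trans B.S.G.sub
  obtain ⟨C0, hC0⟩ := hK.exists_bound_of_continuousOn (f := B.A.omb)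
    (B.A.closed.1.continuousOn.mono (prod_mono hsub (subset_univ _)))
  obtain ⟨L, hLp⟩ := clbar_ipL (B.pl l)
  have hC : 0 ≤ |C0| := abs_nonneg _
  refine ⟨fun x => B.A.Φ (x, B.bb l x + Complex.I • B.tt l x) - L (B.tt l x) +
      |C0| * (nsq x + nsq (B.bb l x)),
    B.A.c / 4 + |C0| * (n * (‖B.S.G.y0‖ + B.S.G.r) ^ 2 + n * M ^ 2), B.A.c / 8,
    by positivity, ?_, ?_⟩
  · have s1 : ContDiffOn ℝ 2 (B.bb l) (B.Om l) :=
      (hol_smooth (isOpen_Om l) (bb_hol l)).2.1.of_le clbar_two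
    have s2 : ContDiffOn ℝ 2 (B.tt l) (B.Om l) := (tt_smooth l).of_le clbar_two
    have s3 : ContDiffOn ℝ 2 (fun x => B.A.Φ (x, B.bb l x + Complex.I • B.tt l x)) (B.Om l) :=
      ContDiffOn.comp (f := fun x => (x, B.bb l x + Complex.I • B.tt l x))
        (B.A.Φ_smooth.of_le clbar_two) (contDiffOn_id.prodMk (s1.add (s2.const_smul _)))
        fun x hx => ⟨clbar_T (Om_sub l hx), mem_univ _⟩
    exact (s3.sub (L.contDiff.comp_contDiffOn s2)).add (contDiffOn_const.mul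
      (clbar_nsq.contDiffOn.add (clbar_nsq.comp_contDiffOn s1)))
  intro x hx hxe hM
  obtain ⟨g, hg⟩ := hx
  have hbt := hg.bt
  obtain ⟨-, hb, ht⟩ := hbt.self_of_nhds
  constructor
  · intro u
    have hm : ‖B.A.omb (x, piI B.S.Q.I (g.α x))‖ ≤ |C0| :=
      (hC0 (x, piI B.S.Q.I (g.α x)) ⟨ball_subset_closedBall hg.1,
        by rwa [mem_closedBall_zero_iff, ← hb]⟩).trans (le_abs_self _)
    refine (clbar_levi hg (L.comp (tauI B.S.Q.I)) hC hm u).trans_eq (clbar_congr ?_ u)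
    filter_upwards [hbt] with z hz
    obtain ⟨hz, h1, h2⟩ := hz
    have h3 := (clbar_vec (split_I B.S.Q.I (g.α z)) 0).2.2
    have h4 := B.A.Φ_RI z (clbar_T (Om_sub l hz))
      (piI B.S.Q.I (g.α z) + Complex.I • tauI B.S.Q.I (g.α z)) _ (reI_mem B.S.Q.I (g.α z))
    rw [← h3] at h4
    rw [h1, h2, h4, ContinuousLinearMap.comp_apply]
    ring
  · have hx2 : x ∈ ball B.S.G.y0 (2 * B.S.G.r) := ball_subset_ball (by linarith) hg.1
    have n1 : ‖B.S.G.γ l.1 x - x‖ ≤ B.S.G.lg.L * B.lg.sz l := (B.S.G.near l.1 hlε x hx2).1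
    have n2 : ‖x - B.S.G.y0‖ < δ / (B.S.G.lg.L + 1) :=
      (mem_ball_iff_norm.1 hxe).trans_le ((min_le_right _ _).trans (min_le_right _ _))
    have n3 : dist (B.S.G.γ l.1 x) B.S.G.y0 < δ := by
      rw [dist_eq_norm]
      have a1 := norm_sub_le_norm_sub_add_norm_sub (B.S.G.γ l.1 x) x B.S.G.y0
      have a2 : B.S.G.lg.L * (δ / (B.S.G.lg.L + 1)) + δ / (B.S.G.lg.L + 1) = δ := by
        field_simp
      nlinarith [mul_le_mul_of_nonneg_left hlδ (by linarith : 0 ≤ B.S.G.lg.L)]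
    have n4 := hδ' n3
    rw [dist_eq_norm, lt_div_iff₀ (by positivity)] at n4
    have n5 := clbar_up hg hlε (by
      nlinarith [norm_nonneg (B.A.r (B.S.G.γ l.1 x, 0) - B.A.r (B.S.G.y0, 0))])
    rw [← hb, ← ht, ← hLp] at n5
    have n6 : ‖x‖ ≤ ‖B.S.G.y0‖ + B.S.G.r := by
      have a1 := norm_add_le B.S.G.y0 (x - B.S.G.y0)
      rw [add_sub_cancel] at a1
      linarith [mem_ball_iff_norm.1 hg.1]
    have n7 : nsq x ≤ n * (‖B.S.G.y0‖ + B.S.G.r) ^ 2 := (nsq_le x).2.trans (by gcongr)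
    have n8 : nsq (B.bb l x) ≤ n * M ^ 2 := (nsq_le _).2.trans (by gcongr)
    have n9 := mul_le_mul_of_nonneg_left (add_le_add n7 n8) hC
    linarith


end Big

end Pool.Agent.CL
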