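import Pool.Agent.P.MP_63735c_ag.CLSep
import Pool.Agent.P.MP_63735c_ag.CLRich
import Pool.Agent.P.MP_63735c_ag.CLPack

/-! Richness in terms of labels. -/

open scoped ContDiff Matrix ENNReal
open Set Metric MeasureTheory Filter Topology

namespace Pool.Agent.CL

open Pool.Agent.SPF

variable {n : ℕ}

theorem grid (I : Finset (Fin n)) (m : ℕ) : ∃ F : Finset (E n), F.card = (2 * m + 1) ^ I.card ∧
    ∀ s, s ∈ F ↔ s ∈ ZI I ∧ ‖s‖ ≤ m := by
  classical
  let t : Fin n → Finset ℂ := fun k =>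
    if k ∈ I then (Finset.Icc (-(m : ℤ)) m).image (Int.cast : ℤ → ℂ) else {0}
  refine ⟨Fintype.piFinset t, ?_, fun s => ?_⟩
  · have e : ∀ k, (t k).card = if k ∈ I then 2 * m + 1 else 1 := by
      intro k
      simp only [t]
      split_ifs
      · rw [Finset.card_image_of_injective _ Int.cast_injective, Int.card_Icc]
        omega
      · rfl
    rw [Fintype.card_piFinset]
    simp only [e]
    rw [Finset.prod_ite_mem, Finset.univ_inter, Finset.prod_const]
  · rw [Fintype.mem_piFinset, pi_norm_le_iff_of_nonneg m.cast_nonneg, ZI, mem_ofPred_eq,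
      ← forall_and]
    refine forall_congr' fun k => ?_
    simp only [t]
    split_ifs with hk
    · simp only [Finset.mem_image, Finset.mem_Icc, hk, not_true, false_imp_iff, and_true]
      constructor
      · rintro ⟨a, ha, he⟩
        refine ⟨⟨a, he.symm⟩, ?_⟩
        rw [← he, Complex.norm_intCast]
        exact_mod_cast abs_le.2 ha
      · rintro ⟨⟨a, he⟩, ha⟩
        rw [he, Complex.norm_intCast] at ha
        exact ⟨a, abs_le.1 (by exact_mod_cast ha), he.symm⟩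
    · simp only [Finset.mem_singleton, hk, not_false_iff, true_imp_iff]
      exact ⟨fun h => ⟨⟨⟨0, by simp [h]⟩, h⟩, by simp [h]⟩, fun h => h.1.2⟩

theorem round {I : Finset (Fin n)} {s : E n} (hs : s ∈ RI I) : ∃ k ∈ ZI I, ‖s - k‖ ≤ 1 := by
  refine ⟨fun k => (⌊(s k).re⌋ : ℤ), fun k => ⟨⟨_, rfl⟩, fun hk => by simp [(hs k).2 hk]⟩, ?_⟩
  refine (pi_norm_le_iff_of_nonneg zero_le_one).2 fun k => ?_
  have e : (s - fun k => ((⌊(s k).re⌋ : ℤ) : ℂ)) k = (Int.fract (s k).re : ℝ) := by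
    apply Complex.ext
    · simp
    · simp [(hs k).1]
  rw [e, Complex.norm_real, Real.norm_of_nonneg (Int.fract_nonneg _)]
  exact (Int.fract_lt_one _).le

theorem ZI.eq_of_lt {I : Finset (Fin n)} {s t : E n} (hs : s ∈ ZI I) (ht : t ∈ ZI I)
    (h : ‖s - t‖ < 1) : s = t := by
  funext k
  obtain ⟨a, ha⟩ := (hs k).1
  obtain ⟨b, hb⟩ := (ht k).1
  have h1 := (norm_le_pi_norm (s - t) k).trans_lt h
  rw [Pi.sub_apply, ha, hb, ← Int.cast_sub, Complex.norm_intCast] at h1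
  have h2 : |a - b| < 1 := by exact_mod_cast h1
  rw [ha, hb, sub_eq_zero.1 (Int.abs_lt_one_iff.1 h2)]

variable {X : Type} [TopologicalSpace X] [T2Space X] [MeasurableSpace X]

namespace Big

theorem isOpen_Ml (B : Big n X) (l : B.Lab) (e R : ℝ) : IsOpen (B.Ml l e R) := by
  have h1 := ((bb_hol l).continuousOn.norm).isOpen_inter_preimage (isOpen_Om l) (isOpen_Iio (a := R))
  have h2 := ((tt_smooth l).continuousOn.norm).isOpen_inter_preimage (isOpen_Om l)
    (isOpen_Iio (a := R))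
  have e1 : B.Ml l e R = ball B.S.G.y0 e ∩ ((B.Om l ∩ (fun x => ‖B.bb l x‖) ⁻¹' Iio R) ∩
      (B.Om l ∩ (fun x => ‖B.tt l x‖) ⁻¹' Iio R)) := by
    ext x
    exact ⟨fun h => ⟨h.1, ⟨h.2.1, h.2.2.1⟩, h.2.1, h.2.2.2⟩, fun h => ⟨h.1, h.2.1.1, h.2.1.2, h.2.2.2⟩⟩
  rw [e1]
  exact isOpen_ball.inter (h1.inter h2)

/-- A return with small jet has a small label. -/
theorem exists_lab (B : Big n X) {e0 η : ℝ} (he : e0 ≤ B.lg.ε) (hη : B.lg.L * η ≤ e0) {y : E n}
    (hy : y ∈ ball B.S.G.y0 B.S.G.r) {g : Ret n} (hg : Germ B.S.M.T B.S.M.Ψ y g)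
    (h1 : ‖g.γ y - y‖ ≤ η) (h2 : ‖fderiv ℂ g.γ y - 1‖ ≤ η) :
    ∃ l, B.lg.sz l ≤ e0 ∧ B.At l y g := by
  have hL : 1 ≤ B.S.G.lg.L := B.S.G.lg.L_ge
  have h0 : 0 ≤ η := (norm_nonneg _).trans h1
  have hη' : η ≤ B.S.G.lg.ε := (le_mul_of_one_le_left h0 hL).trans (hη.trans he)
  have hr := B.S.G.r_pos
  obtain ⟨O, hO, hyO⟩ := id hg
  obtain ⟨j, hj⟩ := B.S.G.ext y hy g.γ (by
    filter_upwards [hO.isOpen.mem_nhds hyO] with x hx
    exact ⟨hO.γ_hol.differentiableAt (hO.isOpen.mem_nhds hx), hO.maps hx, B.S.M.iso O g hO x hx⟩)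
    (h1.trans hη') (h2.trans hη')
  have hsz : B.S.G.lg.sz j ≤ e0 := by
    have a1 := B.S.G.cmp j B.S.G.lg.one B.S.G.y0 (mem_ball_self (by linarith)) y
      (ball_subset_ball (by linarith) hy)
    have a2 : B.S.G.γ B.S.G.lg.one = id := funext B.S.G.γ_one
    have a3 : ‖jet (B.S.G.γ j) y - jet (B.S.G.γ B.S.G.lg.one) y‖ ≤ η := by
      simp only [jet, a2, hj.self_of_nhds, hj.fderiv_eq, fderiv_id, Prod.mk_sub_mk, Prod.norm_mk]
      exact max_le h1 h2
    rw [LG.sz, B.S.G.jt_eq, B.S.G.jt_eq]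
    exact a1.trans ((mul_le_mul_of_nonneg_left a3 (by linarith)).trans hη)
  obtain ⟨sh, hsh⟩ := at_of_sm (B := B) hy ⟨hsz.trans he, hg, hj.symm⟩
  exact ⟨(j, sh), hsz, hsh⟩

theorem rich_lab (B : Big n X) {e0 : ℝ} (_h0 : 0 < e0) (he : e0 ≤ B.lg.ε) {eps : ℝ}
    (hε : 0 < eps) (hr : eps ≤ B.S.G.r) (hL : 2 * B.lg.L * eps ≤ e0) :
    ∃ c > (0 : ℝ), ∀ R ≥ (1 : ℝ), ∃ Q : Finset B.Lab,
      (∀ l ∈ Q, B.lg.sz l ≤ e0 ∧ (B.Ml l eps R).Nonempty) ∧
      c * R ^ (2 * n) ≤ R ^ B.S.Q.I.card * ∑ l ∈ Q, (volume (B.Ml l eps R)).toReal := by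
  classical
  have hr0 := B.S.G.r_pos
  obtain ⟨c, hc, hrich⟩ := rich B.S.M (V := ball B.S.G.y0 eps) isOpen_ball ⟨_, mem_ball_self hε⟩
    (fun x hx => B.S.G.sub (ball_subset_closedBall (ball_subset_ball (by linarith) hx)))
    (e := 2 * eps) (by positivity)
  refine ⟨c / 2 / 2 ^ (2 * n) / 5 ^ B.S.Q.I.card, by positivity, fun R hR => ?_⟩
  have := (B.countable_Labs e0).to_subtype
  have hm : ∀ l : B.Labs e0, Measurable ((B.Ml l eps R).indicator (1 : E n → ℝ≥0∞)) := fun l =>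
    measurable_one.indicator (B.isOpen_Ml l eps R).measurableSet
  obtain ⟨F, hF, hFm⟩ := grid B.S.Q.I ⌈R⌉₊
  have key := hrich (R / 2) (by positivity) (fun y => ENNReal.ofReal ((5 * R) ^ B.S.Q.I.card) *
    ∑' l : B.Labs e0, (B.Ml l eps R).indicator 1 y)
    ((Measurable.tsum hm).const_mul _) (by
      intro y hy A hA
      have hex : ∀ ξ : E n, ξ ∈ A → ∃ l : B.Labs e0, y ∈ B.Ml l eps R ∧
          ∃ g, B.At l y g ∧ g.α y = ξ := by
        intro ξ hξ
        obtain ⟨h1, g, hg, rfl, h2, h3⟩ := hA hξ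
        obtain ⟨l, hl, hat⟩ := B.exists_lab he (η := 2 * eps) (by linarith)
          (ball_subset_ball hr hy) hg (by
            rw [mem_ball, dist_eq_norm] at h2 hy
            have := norm_sub_le_norm_sub_add_norm_sub (g.γ y) B.S.G.y0 y
            rw [norm_sub_rev B.S.G.y0] at this
            linarith) h3.le
        obtain ⟨b1, b2, b3⟩ := hat.bt.self_of_nhds
        refine ⟨⟨l, hl, y, b1⟩, ⟨hy, b1, ?_, ?_⟩, g, hat, rfl⟩
        · rw [b2]
          linarith [(proj_norm B.S.Q.I (g.α y)).1]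
        · rw [b3]
          linarith [(proj_norm B.S.Q.I (g.α y)).2.1]
      rcases A.eq_empty_or_nonempty with rfl | ⟨ξ0, hξ0⟩
      · simp
      have : Nonempty (B.Labs e0) := ⟨(hex ξ0 hξ0).choose⟩
      choose! f hf using hex
      have c1 : A.card ≤ F.card * (A.image f).card := by
        refine Finset.card_le_mul_card_image A _ fun l hl => ?_
        obtain ⟨ξ, hξ, rfl⟩ := Finset.mem_image.1 hl
        refine Finset.card_le_card_of_injOn (fun x => x - ξ) (fun x hx => ?_)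
          fun _ _ _ _ h => sub_left_injective h
        obtain ⟨hx1, hx2⟩ := Finset.mem_filter.1 (Finset.mem_coe.1 hx)
        obtain ⟨g, hg, e1⟩ := (hf ξ hξ).2
        obtain ⟨g', hg', e2⟩ := (hf x hx1).2
        obtain ⟨s, hs, e3⟩ := hg.uniq (hx2 ▸ hg')
        have e4 : x - ξ = s := by rw [← e1, ← e2, e3.self_of_nhds, add_sub_cancel_left]
        refine Finset.mem_coe.2 ((hFm _).2 ⟨show x - ξ ∈ _ from e4 ▸ hs, ?_⟩)
        linarith [norm_sub_le x ξ, (hA hx1).1, (hA hξ).1, Nat.le_ceil R]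
      have c2 : ((A.image f).card : ℝ≥0∞) ≤ ∑' l : B.Labs e0, (B.Ml l eps R).indicator 1 y := by
        refine le_trans ?_ (ENNReal.sum_le_tsum (A.image f))
        rw [Finset.card_eq_sum_ones, Nat.cast_sum]
        refine Finset.sum_le_sum fun l hl => ?_
        obtain ⟨ξ, hξ, rfl⟩ := Finset.mem_image.1 hl
        simp [indicator_of_mem (hf ξ hξ).1]
      have c3 : (F.card : ℝ≥0∞) ≤ ENNReal.ofReal ((5 * R) ^ B.S.Q.I.card) := by
        rw [← ENNReal.ofReal_natCast, hF]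
        refine ENNReal.ofReal_le_ofReal ?_
        push_cast
        exact pow_le_pow_left₀ (by positivity)
          (by linarith [Nat.ceil_lt_add_one (show 0 ≤ R by linarith)]) _
      calc (A.card : ℝ≥0∞) ≤ F.card * (A.image f).card := by exact_mod_cast c1
        _ ≤ _ := mul_le_mul' c3 c2)
  rw [lintegral_const_mul _ (Measurable.tsum hm),
    lintegral_tsum fun l => (hm l).aemeasurable] at key
  have k2 : ENNReal.ofReal (c / 2 * (R / 2) ^ (2 * n)) < ENNReal.ofReal ((5 * R) ^ B.S.Q.I.card) *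
      ∑' l : B.Labs e0, volume (B.Ml l eps R) := by
    refine lt_of_lt_of_le ((ENNReal.ofReal_lt_ofReal_iff (by positivity)).2
      (mul_lt_mul_of_pos_right (half_lt_self hc) (by positivity))) (key.trans ?_)
    refine mul_le_mul_right (ENNReal.tsum_le_tsum fun l => ?_) _
    rw [lintegral_indicator_one (B.isOpen_Ml l eps R).measurableSet]
    exact Measure.restrict_apply_le _ _
  rw [ENNReal.tsum_eq_iSup_sum, ENNReal.mul_iSup, lt_iSup_iff] at k2
  obtain ⟨Q, hQ⟩ := k2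
  have hfin : ∀ l, volume (B.Ml l eps R) ≠ ⊤ := fun l =>
    ne_top_of_le_ne_top measure_ball_lt_top.ne (measure_mono fun x hx => hx.1)
  refine ⟨(Q.map (Function.Embedding.subtype _)).filter fun l => (B.Ml l eps R).Nonempty,
    fun l hl => ?_, ?_⟩
  · obtain ⟨h1, h2⟩ := Finset.mem_filter.1 hl
    obtain ⟨l', -, rfl⟩ := Finset.mem_map.1 h1
    exact ⟨l'.2.1, h2⟩
  · rw [Finset.sum_filter_of_ne fun l _ h => nonempty_iff_ne_empty.2 fun e => h (by simp [e]),
      Finset.sum_map]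
    have h3 := (ENNReal.ofReal_le_iff_le_toReal (ENNReal.mul_ne_top ENNReal.ofReal_ne_top
      (ENNReal.sum_ne_top.2 fun l _ => hfin l.1))).1 hQ.le
    rw [ENNReal.toReal_mul, ENNReal.toReal_ofReal (by positivity),
      ENNReal.toReal_sum fun l _ => hfin _, mul_pow, div_pow] at h3
    rw [div_mul_eq_mul_div, div_le_iff₀ (by positivity)]
    simp only [Function.Embedding.coe_subtype]
    calc _ = c / 2 * (R ^ (2 * n) / 2 ^ (2 * n)) := by ring
      _ ≤ _ := h3
      _ = _ := by ring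

end Big

end Pool.Agent.CL
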