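import Pool.Agent.P.MP_63735c_ag.CLAvD

/-! Shift functions and labels. -/

open scoped ContDiff Matrix ENNReal
open Set Metric MeasureTheory Filter Topology

namespace Pool.Agent.CL

open Pool.Agent.SPF

variable {n : ℕ}

/-- Vectors whose `I`-coordinates are imaginary. -/
def EE (I : Finset (Fin n)) : Submodule ℝ (E n) where
  carrier := {ξ | ∀ k ∈ I, (ξ k).re = 0}
  add_mem' ha hb k hk := by simp [ha k hk, hb k hk]
  zero_mem' k _ := by simp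
  smul_mem' c x hx k hk := by simp [hx k hk]

variable {X : Type} [TopologicalSpace X] [MeasurableSpace X]

/-- Functions that change by constants under small returns. -/
structure Sh (S : Setup n X) (A : Avg S) where
  Idx : Type
  Fn : Idx → P n → ℝ
  shift : ∀ i O g, IsRet S.M.T S.M.Ψ O g → Convex ℝ O →
    (∀ y ∈ O, ∀ k, g.N y (S.Q.z k y) = S.Q.z k (g.γ y)) →
    ∃ c, ∀ p : P n, p.1 ∈ O → Fn i (g.act p) - Fn i p = c
  zinv : ∀ i, ∀ s ∈ ZI S.Q.I, ∀ y ∈ S.M.T, ∀ ξ, Fn i (y, ξ + s) = Fn i (y, ξ)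
  rad : ∀ m, ∀ y ∈ S.M.T, (∀ i, Fn i (y, -zm S.Q.z m y) = Fn i (y, 0)) →
    ∃ s ∈ ZI S.Q.I, ∀ x ∈ S.M.T, zm S.Q.z m x = s
  imom : Fin n → Idx
  mom : ∀ i p, Fn (imom i) p = (A.r p i).re
  ichi : (Fin S.Q.r0 → ℤ) → ℂ → Idx
  chi : ∀ m c p, Fn (ichi m c) p = (c * hprim (zm S.Q.z m) S.G.y0 p.1).re
  iint : (Fin S.Q.r0 → ℤ) → Fin S.M.m → Idx
  int : ∀ m j O g, IsRet S.M.T S.M.Ψ O g → ∀ p : P n, p.1 ∈ O →
    (∀ k, g.N p.1 (S.Q.z k p.1) = S.Q.z k (g.γ p.1)) →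
    ∃ k : ℤ, Fn (iint m j) (g.act p) - Fn (iint m j) p = k
  sub : ∀ m j, ∀ κ > (0 : ℝ), ∀ θ : ℝ≥0∞, θ ≠ 0 → ∃ C, ∀ (jj : S.G.G) (O : Set (E n)) (Λ c : ℝ),
    S.G.lg.sz jj ≤ S.G.lg.ε → MeasurableSet O → θ ≤ volume O → O ⊆ ball S.G.y0 (S.G.r / 2) →
    (∀ y ∈ O, ∃ g, Germ S.M.T S.M.Ψ y g ∧ g.γ y = S.G.γ jj y ∧
      (∀ k, g.N y (S.Q.z k y) = S.Q.z k (g.γ y)) ∧ ‖g.α y‖ ≤ Λ ∧
      ∀ ξ, Fn (iint m j) (g.act (y, ξ)) - Fn (iint m j) (y, ξ) = c) → |c| ≤ κ * Λ + C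
  span : ∀ m c, ∃ r : Fin S.M.m → ℝ, ∀ p : P n, p.1 ∈ S.M.T →
    Fn (ichi m c) p = ∑ j, r j * Fn (iint m j) p

/-- All data of part B. -/
structure Big (n : ℕ) (X : Type) [TopologicalSpace X] [MeasurableSpace X] where
  S : Setup n X
  A : Avg S
  H : Sh S A

namespace Big

variable (B : Big n X)

/-- Labels. -/
abbrev Lab : Type := B.S.G.G × (B.H.Idx → ℝ)

/-- The local group of labels. -/
def lg : LG B.Lab (E n × (E n →L[ℂ] E n)) where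
  one := (B.S.G.lg.one, 0)
  mul a b := (B.S.G.lg.mul a.1 b.1, a.2 + b.2)
  inv a := (B.S.G.lg.inv a.1, -a.2)
  jt a := B.S.G.lg.jt a.1
  L := B.S.G.lg.L
  ε := B.S.G.lg.ε
  L_ge := B.S.G.lg.L_ge
  ε_pos := B.S.G.lg.ε_pos
  inv_one := Prod.ext B.S.G.lg.inv_one neg_zero
  assoc a b c ha hb hc := Prod.ext (B.S.G.lg.assoc _ _ _ ha hb hc) (add_assoc _ _ _)
  one_mul a ha := Prod.ext (B.S.G.lg.one_mul _ ha) (zero_add _)
  mul_one a ha := Prod.ext (B.S.G.lg.mul_one _ ha) (add_zero _)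
  inv_mul a ha := Prod.ext (B.S.G.lg.inv_mul _ ha) (neg_add_cancel _)
  mul_inv a ha := Prod.ext (B.S.G.lg.mul_inv _ ha) (add_neg_cancel _)
  lip_r a b b' := B.S.G.lg.lip_r a.1 b.1 b'.1
  lip_l a a' b := B.S.G.lg.lip_l a.1 a'.1 b.1
  lip_inv a a' := B.S.G.lg.lip_inv a.1 a'.1
  comm a b := B.S.G.lg.comm a.1 b.1

/-- `g` is a return near `y` with label `l`. -/
def At (l : B.Lab) (y : E n) (g : Ret n) : Prop :=
  y ∈ ball B.S.G.y0 B.S.G.r ∧ ∃ O, IsRet B.S.M.T B.S.M.Ψ O g ∧ y ∈ O ∧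
    (∀ x ∈ O, g.γ x = B.S.G.γ l.1 x ∧ g.N x = B.S.G.N l.1 x) ∧
    ∀ i, ∀ p : P n, p.1 ∈ O → B.H.Fn i (g.act p) - B.H.Fn i p = l.2 i

/-- The domain of a label. -/
def Om (l : B.Lab) : Set (E n) := {y | ∃ g, B.At l y g}

open Classical in
/-- A value of `α` for the label. -/
noncomputable def al (l : B.Lab) (y : E n) : E n :=
  if h : y ∈ B.Om l then (Classical.choose h).α y else 0

/-- The single-valued holomorphic part. -/
noncomputable def bb (l : B.Lab) (y : E n) : E n := piI B.S.Q.I (B.al l y)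

/-- The height. -/
noncomputable def tt (l : B.Lab) (y : E n) : E n := tauI B.S.Q.I (B.al l y)

/-- The shift of the moment map. -/
noncomputable def rho (l : B.Lab) : E n := fun i =>
  if i ∈ B.S.Q.I then (l.2 (B.H.imom i) : ℂ) else 0

/-- The moment level of a label. -/
noncomputable def pl (l : B.Lab) : E n := B.A.r (B.S.G.y0, 0) - B.rho l

/-- Labels of size at most `e` that occur. -/
def Labs (e : ℝ) : Set B.Lab := {l | B.lg.sz l ≤ e ∧ (B.Om l).Nonempty}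

/-- The part of the domain below height `R`. -/
def Ml (l : B.Lab) (e R : ℝ) : Set (E n) :=
  {y | y ∈ ball B.S.G.y0 e ∧ y ∈ B.Om l ∧ ‖B.bb l y‖ < R ∧ ‖B.tt l y‖ < R}

/-- Energy. -/
noncomputable def En (l : B.Lab) (e R : ℝ) : ℝ≥0∞ :=
  ∫⁻ y in {y | y ∈ ball B.S.G.y0 e ∧ y ∈ B.Om l ∧ ‖B.bb l y‖ < R},
    ENNReal.ofReal (‖fderiv ℂ (B.bb l) y‖ ^ 2)

/-- Energy on the discs through `y`. -/
noncomputable def el (l : B.Lab) (y : E n) (s R : ℝ) : ℝ≥0∞ :=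
  ∫⁻ u in ball (0 : E n) 1, ∫⁻ t in ball (0 : ℂ) 1,
    {x | x ∈ B.Om l ∧ ‖B.bb l x‖ < R}.indicator
      (fun x => ENNReal.ofReal (s ^ 2 * ‖fderiv ℂ (B.bb l) x‖ ^ 2)) (y + (t * s) • u)

/-- The part of the domain where `bb` is `b`. -/
def Om0 (l : B.Lab) (b : E n → E n) : Set (E n) := {x | x ∈ B.Om l ∧ B.bb l =ᶠ[𝓝 x] b}

open Classical in
/-- The height, infinite off `Om0`. -/
noncomputable def ht (l : B.Lab) (b : E n → E n) (x : E n) : ℝ≥0∞ :=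
  if x ∈ B.Om0 l b then ENNReal.ofReal ‖B.tt l x‖ else ⊤

/-- The label is realised on a ball, with norm `m` and mean height `m'`. -/
structure Real (l : B.Lab) (y : E n) (t : ℝ) (b : E n → E n) (m m' : ℝ) : Prop where
  hol : DifferentiableOn ℂ b (ball y t)
  bd : ∀ x ∈ ball y t, ‖b x‖ ≤ m
  mem : ∀ x ∈ ball y t, piI B.S.Q.I (b x) = b x
  rho : ‖B.rho l‖ ≤ m
  m'_nonneg : 0 ≤ m'
  int : ∫⁻ x in ball y t, B.ht l b x ≤ ENNReal.ofReal m'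

/-- For unboundedly many scales, realised labels point in every direction. -/
def Atoms (e : ℝ) (y : E n) (t κ C : ℝ) : Prop :=
  ∀ R0, ∃ R ≥ R0, ∀ v ∈ EE B.S.Q.I, nsq v = 1 → ∃ l b m', B.lg.sz l ≤ e ∧
    B.Real l y t b (C * R) m' ∧ κ * R ≤ |ip (b y - Complex.I • B.rho l) v|

end Big

end Pool.Agent.CL
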