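import Pool.Agent.P.MP_63735c_ag.CLPar
import Pool.Agent.P.MP_63735c_ag.CLGreen

/-! Leaf areas of a null form are small. -/

open scoped ContDiff Matrix ENNReal
open Set Metric MeasureTheory Filter Topology

namespace Pool.Agent.CL

open Pool.Agent.SPF

variable {n : ℕ}

theorem cle2_bump : ∃ ψ : E n → ℝ, ContDiff ℝ 2 ψ ∧ HasCompactSupport ψ ∧ (∀ x, 0 ≤ ψ x) ∧
    ∫ x, ψ x = 1 ∧ ∀ x, ψ x ≠ 0 → ‖x‖ ≤ 1 := by
  let f : ContDiffBump (0 : E n) := ⟨1 / 2, 1, by norm_num, by norm_num⟩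
  refine ⟨f.normed volume, f.contDiff_normed (n := 2), f.hasCompactSupport_normed,
    f.nonneg_normed, f.integral_normed, fun x hx => ?_⟩
  have h : x ∈ Function.support (f.normed volume) := hx
  rw [f.support_normed_eq] at h
  exact (mem_ball_zero_iff.1 h).le

section

variable {V : Type} [NormedAddCommGroup V] [NormedSpace ℝ V]

theorem cle2_scale {φ : V → ℝ} (hφ : ContDiff ℝ 2 φ) (q : V) (L : ℝ) (x e : V) :
    D2 (fun x => φ (q + L • x)) x e = L ^ 2 * D2 φ (q + L • x) e := by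
  have hA : ∀ x : V, HasFDerivAt (fun x : V => q + L • x)
      (L • ContinuousLinearMap.id ℝ V) x := fun x =>
    ((hasFDerivAt_id x).const_smul L).const_add q
  have hd : Differentiable ℝ φ := hφ.differentiable (by norm_num)
  have hd2 : Differentiable ℝ (fderiv ℝ φ) :=
    (hφ.fderiv_right (m := 1) (by norm_num)).differentiable (by norm_num)
  have h1 : fderiv ℝ (fun x => φ (q + L • x)) = fun x => L • fderiv ℝ φ (q + L • x) := by
    funext x
    have := ((hd (q + L • x)).hasFDerivAt.comp x (hA x)).fderiv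
    refine this.trans ?_
    ext v
    simp
  have h2 : HasFDerivAt (fun x => L • fderiv ℝ φ (q + L • x))
      (L • (fderiv ℝ (fderiv ℝ φ) (q + L • x)).comp (L • ContinuousLinearMap.id ℝ V)) x :=
    ((hd2 (q + L • x)).hasFDerivAt.comp x (hA x)).const_smul L
  unfold D2
  rw [h1, h2.fderiv]
  simp
  ring

variable [FiniteDimensional ℝ V] [MeasurableSpace V] [BorelSpace V] (μ : Measure V)
  [μ.IsAddHaarMeasure]

omit [NormedSpace ℝ V] [FiniteDimensional ℝ V] in
theorem cle2_norm {W : Type} [NormedAddCommGroup W] {g : V → W} (hg : Continuous g)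
    (hc : HasCompactSupport g) : Integrable (fun x => ‖g x‖) μ :=
  (hg.integrable_of_hasCompactSupport hc).norm

theorem cle2_green {ψ : V → ℝ} (hψ : ContDiff ℝ 2 ψ) (hc : HasCompactSupport ψ) :
    ∃ B, 0 ≤ B ∧ ∀ (φ : V → ℝ) (M : ℝ), ContDiff ℝ 2 φ → (∀ x, |φ x| ≤ M) →
      ∀ (q : V) (L : ℝ), 0 < L → ∀ e, Integrable (fun x => ψ x * D2 φ (q + L • x) e) μ ∧
        |∫ x, ψ x * D2 φ (q + L • x) e ∂μ| ≤ M * B / L ^ 2 * ‖e‖ ^ 2 := by
  have hcont : Continuous (fderiv ℝ (fderiv ℝ ψ)) :=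
    (hψ.fderiv_right (m := 1) (by norm_num)).continuous_fderiv (by norm_num)
  have hcs : HasCompactSupport (fderiv ℝ (fderiv ℝ ψ)) := (hc.fderiv ℝ).fderiv ℝ
  have hint : Integrable (fun x => ‖fderiv ℝ (fderiv ℝ ψ) x‖) μ :=
    cle2_norm μ (W := V →L[ℝ] V →L[ℝ] ℝ) hcont hcs
  refine ⟨∫ x, ‖fderiv ℝ (fderiv ℝ ψ) x‖ ∂μ,
    integral_nonneg fun _ => ContinuousLinearMap.opNorm_nonneg _,
    fun φ M hφ hM q L hL e => ?_⟩
  have hφL : ContDiff ℝ 2 (fun x => φ (q + L • x)) :=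
    hφ.comp (contDiff_const.add (contDiff_id.const_smul L))
  obtain ⟨h1, -, h3⟩ := green_dir μ isOpen_univ hφL.contDiffOn hψ.contDiffOn hc.isCompact
    (subset_univ _) (fun t ht => Or.inr (notMem_tsupport_iff_eventuallyEq.1 ht.2)) e
  rw [integrableOn_univ] at h1
  rw [Measure.restrict_univ] at h3
  have hL2 : (0 : ℝ) < L ^ 2 := by positivity
  have he : (fun x => ψ x * D2 φ (q + L • x) e) =
      fun x => (L ^ 2)⁻¹ * (ψ x * D2 (fun x => φ (q + L • x)) x e) := by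
    funext x
    rw [cle2_scale hφ]
    field_simp
  rw [he]
  refine ⟨h1.const_mul _, ?_⟩
  rw [integral_const_mul, h3, abs_mul, abs_of_pos (inv_pos.2 hL2)]
  have hM0 : 0 ≤ M := (abs_nonneg _).trans (hM 0)
  have hb : ‖∫ t, φ (q + L • t) * D2 ψ t e ∂μ‖ ≤
      ∫ t, (M * ‖e‖ ^ 2) * ‖fderiv ℝ (fderiv ℝ ψ) t‖ ∂μ := by
    refine norm_integral_le_of_norm_le (hint.const_mul _) (Eventually.of_forall fun t => ?_)
    rw [norm_mul]
    have h4 : ‖D2 ψ t e‖ ≤ ‖fderiv ℝ (fderiv ℝ ψ) t‖ * ‖e‖ * ‖e‖ :=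
      (fderiv ℝ (fderiv ℝ ψ) t).le_opNorm₂ e e
    calc ‖φ (q + L • t)‖ * ‖D2 ψ t e‖ ≤ M * (‖fderiv ℝ (fderiv ℝ ψ) t‖ * ‖e‖ * ‖e‖) :=
          mul_le_mul (hM _) h4 (norm_nonneg _) hM0
      _ = _ := by ring
  rw [integral_const_mul, Real.norm_eq_abs] at hb
  calc _ ≤ (L ^ 2)⁻¹ * (M * ‖e‖ ^ 2 * ∫ t, ‖fderiv ℝ (fderiv ℝ ψ) t‖ ∂μ) :=
        mul_le_mul_of_nonneg_left hb (inv_pos.2 hL2).le
    _ = _ := by field_simp

theorem cle2_swap {ψ : V → ℝ} (hψ : Continuous ψ) (hi : Integrable ψ μ) {G : ℝ → V → ℝ}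
    (hG : Continuous (Function.uncurry G)) {c : ℝ} (hc : ∀ s x, |G s x| ≤ c) :
    ∫ s in (0 : ℝ)..1, ∫ x, ψ x * G s x ∂μ = ∫ x, (ψ x * ∫ s in (0 : ℝ)..1, G s x) ∂μ := by
  have hfin : IsFiniteMeasure (volume.restrict (uIoc (0 : ℝ) 1)) :=
    ⟨by simp [uIoc_of_le]⟩
  have h : Integrable (Function.uncurry fun s x => ψ x * G s x)
      ((volume.restrict (uIoc (0 : ℝ) 1)).prod μ) := by
    refine ((hi.norm.mul_const c).comp_snd _).mono'
      (((hψ.comp continuous_snd).mul hG).aestronglyMeasurable) (Eventually.of_forall fun z => ?_)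
    show ‖ψ z.2 * G z.1 z.2‖ ≤ ‖ψ z.2‖ * c
    rw [norm_mul]
    exact mul_le_mul_of_nonneg_left (hc _ _) (norm_nonneg _)
  rw [intervalIntegral_integral_swap h]
  congr 1
  funext x
  rw [intervalIntegral.integral_const_mul]

theorem cle2_avg {ψ : V → ℝ} (hψ : Continuous ψ) (hi : Integrable ψ μ) {t : V → V →L[ℝ] V →L[ℝ] ℝ}
    (ht : Continuous t) {K : ℝ} (hK : ∀ x u v, |t x u v| ≤ K * ‖u‖ * ‖v‖) (L : ℝ) (p u v : V)
    {ε : ℝ} (h : ∀ q, |∫ x, ψ x * t (q + L • x) u v ∂μ| ≤ ε) :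
    |∫ x, ψ x * par t (p + L • x) u v ∂μ| ≤ ε := by
  have hc : Continuous fun z : (ℝ × V) × ℝ => t (p + L • z.1.2 + z.1.1 • u + z.2 • v) u v := by
    fun_prop
  have h1 := cle2_swap μ hψ hi
    (G := fun s x => ∫ r in (0 : ℝ)..1, t (p + L • x + s • u + r • v) u v)
    (intervalIntegral.continuous_parametric_intervalIntegral_of_continuous'
      (f := fun (z : ℝ × V) r => t (p + L • z.2 + z.1 • u + r • v) u v) hc 0 1)
    (c := K * ‖u‖ * ‖v‖) (fun s x => by
      have := intervalIntegral.norm_integral_le_of_norm_le_const (a := (0 : ℝ)) (b := 1)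
        (f := fun r => t (p + L • x + s • u + r • v) u v) (C := K * ‖u‖ * ‖v‖)
        (fun r _ => hK _ _ _)
      simpa using this)
  unfold par
  rw [← h1]
  have h2 := intervalIntegral.norm_integral_le_of_norm_le_const (a := (0 : ℝ)) (b := 1)
    (f := fun s => ∫ x, (ψ x * ∫ r in (0 : ℝ)..1, t (p + L • x + s • u + r • v) u v) ∂μ) (C := ε)
    (fun s _ => by
      have h3 := cle2_swap μ hψ hi (G := fun r x => t (p + L • x + s • u + r • v) u v)
        (by unfold Function.uncurry; fun_prop) (c := K * ‖u‖ * ‖v‖) (fun r x => hK _ _ _)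
      rw [← h3]
      have h4 := intervalIntegral.norm_integral_le_of_norm_le_const (a := (0 : ℝ)) (b := 1)
        (f := fun r => ∫ x, ψ x * t (p + L • x + s • u + r • v) u v ∂μ) (C := ε) (fun r _ => by
          have h5 : ∀ x : V, p + L • x + s • u + r • v = p + s • u + r • v + L • x :=
            fun x => by abel
          simp only [h5]
          exact h _)
      simpa using h4)
  simpa using h2

omit [NormedSpace ℝ V] [FiniteDimensional ℝ V] in
theorem cle2_int {W : Type} [NormedAddCommGroup W] [NormedSpace ℝ W] [CompleteSpace W]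
    {ψ : V → ℝ} (hψ : Continuous ψ) (hc : HasCompactSupport ψ) {g : V → W} (hg : Continuous g) :
    ∃ b : W, ∀ l : W →L[ℝ] ℝ, l b = ∫ x, ψ x * l (g x) ∂μ := by
  have hi : Integrable (fun x => ψ x • g x) μ :=
    Continuous.integrable_of_hasCompactSupport (hψ.smul hg) hc.smul_right
  refine ⟨∫ x, ψ x • g x ∂μ, fun l => ?_⟩
  rw [← l.integral_comp_comm hi]
  simp

omit [FiniteDimensional ℝ V] in
theorem cle2_bar [NormedSpace ℂ V] [IsScalarTower ℝ ℂ V] {ψ : V → ℝ} (hψ : Continuous ψ) (hc : HasCompactSupport ψ) {t : V → V →L[ℝ] V →L[ℝ] ℝ}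
    (ht : Continuous t) (hs : ∀ x u v, t x u v = -t x v u)
    (hj : ∀ x u v, t x (Complex.I • u) (Complex.I • v) = t x u v) (L : ℝ) (q : V) {ε : ℝ}
    (h : ∀ u, |∫ x, ψ x * t (q + L • x) u (Complex.I • u) ∂μ| ≤ ε * ‖u‖ ^ 2) (u v : V) :
    |∫ x, ψ x * t (q + L • x) u v ∂μ| ≤ 2 * ε * ‖u‖ * ‖v‖ := by
  obtain ⟨b, hb0⟩ := cle2_int μ (W := V →L[ℝ] V →L[ℝ] ℝ) hψ hc (g := fun x => t (q + L • x))
    (ht.comp (by fun_prop))
  have hb : ∀ u v, b u v = ∫ x, ψ x * t (q + L • x) u v ∂μ := fun u v =>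
    hb0 ((ContinuousLinearMap.apply ℝ ℝ v).comp (ContinuousLinearMap.apply ℝ (V →L[ℝ] ℝ) u))
  rw [← hb]
  refine jinv_bd _ (fun u v => ?_) (fun u v => ?_) (fun u => ‖u‖) norm_nonneg norm_add_le
    norm_smul (fun u => norm_eq_zero.1) (fun u => by rw [hb]; exact h u) u v
  · rw [hb, hb, ← integral_neg]
    congr 1
    funext x
    rw [hs]
    ring
  · rw [hb, hb]
    simp only [hj]

omit [FiniteDimensional ℝ V] [MeasurableSpace V] [BorelSpace V] in
theorem cle2_cont {t : V → V →L[ℝ] V →L[ℝ] ℝ} (ht : Continuous t) (L : ℝ) (p u v : V) :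
    (Continuous fun x : V => t (p + L • x) u v) ∧
      Continuous fun x : V => par t (p + L • x) u v := by
  refine ⟨by fun_prop, ?_⟩
  unfold par
  refine intervalIntegral.continuous_parametric_intervalIntegral_of_continuous'
    (f := fun (x : V) s => ∫ r in (0 : ℝ)..1, t (p + L • x + s • u + r • v) u v) ?_ 0 1
  refine intervalIntegral.continuous_parametric_intervalIntegral_of_continuous'
    (f := fun (z : V × ℝ) r => t (p + L • z.1 + z.2 • u + r • v) u v) ?_ 0 1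
  unfold Function.uncurry
  fun_prop

end

theorem par_small {T : Set (E n)} (hT : IsOpen T) {om a : Form2 (P n)} {C0 K : ℝ}
    (ha : Closed2 (T ×ˢ univ) a) (hj : JInv (T ×ˢ univ) a)
    (hK : ∀ y ∈ T, ∀ x u v, |leaf a y x u v| ≤ K * ‖u‖ * ‖v‖)
    (ho : ∀ y ∈ T, ∀ x v, leaf om y x v (Complex.I • v) ≤ C0 * ‖v‖ ^ 2) (hn : Null T om a)
    {κ : ℝ} (hκ : 0 < κ) : ∃ C, ∀ y ∈ T, ∀ p u v : E n, ∀ R, ‖u‖ ≤ R → ‖v‖ ≤ R →
      |par (leaf a y) p u v| ≤ κ * R ^ 2 + C * R := by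
  obtain ⟨ψ, hψ, hc, h0, h1, hsup⟩ := cle2_bump (n := n)
  obtain ⟨B, hB, hg⟩ := cle2_green volume hψ hc
  have hψi : Integrable ψ := hψ.continuous.integrable_of_hasCompactSupport hc
  have hC : 0 < |C0| + 1 := by positivity
  have hδ : 0 < κ / 4 / (|C0| + 1) := by positivity
  have hδC : κ / 4 / (|C0| + 1) * C0 ≤ κ / 4 := by
    rw [div_mul_eq_mul_div, div_le_iff₀ hC]
    have := le_abs_self C0
    nlinarith
  obtain ⟨φ1, M1, hφ1⟩ := hn _ hδ 1 (Or.inl rfl)
  obtain ⟨φ2, M2, hφ2⟩ := hn _ hδ (-1) (Or.inr rfl)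
  obtain ⟨L, hL1, hLM⟩ : ∃ L : ℝ, 1 ≤ L ∧ ∀ M, M ≤ |M1| + |M2| → M * B / L ^ 2 ≤ κ / 8 := by
    have hp : 0 ≤ 8 * ((|M1| + |M2|) * B) / κ := by positivity
    refine ⟨1 + 8 * ((|M1| + |M2|) * B) / κ, by linarith, fun M hM => ?_⟩
    rw [div_le_iff₀ (by positivity)]
    have h2 : κ / 8 * (8 * ((|M1| + |M2|) * B) / κ) = (|M1| + |M2|) * B := by field_simp
    have h3 := mul_le_mul_of_nonneg_right hM hB
    have h4 : 8 * ((|M1| + |M2|) * B) / κ ≤ (1 + 8 * ((|M1| + |M2|) * B) / κ) ^ 2 := by nlinarith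
    have h5 := mul_le_mul_of_nonneg_left h4 (by positivity : 0 ≤ κ / 8)
    linarith
  have hL : 0 < L := by linarith
  refine ⟨300 * |K| * L, fun y hy p u v R hu hv => ?_⟩
  have hR : 0 ≤ R := (norm_nonneg u).trans hu
  have hcl := leaf_closed hT ha hy
  have hK' : ∀ x u v, |leaf a y x u v| ≤ |K| * ‖u‖ * ‖v‖ := fun x u v =>
    (hK y hy x u v).trans (by gcongr; exact le_abs_self K)
  have hKL : 0 ≤ |K| * L := by positivity
  have huv : ‖u‖ * ‖v‖ ≤ R ^ 2 := by
    rw [sq]; exact mul_le_mul hu hv (norm_nonneg _) hR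
  rcases le_total R L with hRL | hRL
  · have h2 := par_bd hK' p u v
    have h3 : |K| * (‖u‖ * ‖v‖) ≤ |K| * (L * R) := by
      refine mul_le_mul_of_nonneg_left (huv.trans ?_) (abs_nonneg K)
      nlinarith
    have h4 : 0 ≤ κ * R ^ 2 := by positivity
    have h5 : 0 ≤ |K| * L * R := by positivity
    nlinarith
  have htc : Continuous (leaf a y) := (contDiffOn_univ.1 hcl.1).continuous
  have hti : ∀ q w w' : E n, Integrable fun x => ψ x * leaf a y (q + L • x) w w' := fun q w w' =>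
    Continuous.integrable_of_hasCompactSupport
      (hψ.continuous.mul (cle2_cont htc L q w w').1) hc.mul_right
  have key : ∀ (s : ℝ) (φ : E n → ℝ) (M : ℝ), M ≤ |M1| + |M2| → ContDiff ℝ 2 φ →
      (∀ ξ, |φ ξ| ≤ M ∧ ∀ w, 0 ≤ s * leaf a y ξ w (Complex.I • w) +
        κ / 4 / (|C0| + 1) * leaf om y ξ w (Complex.I • w) + Lv φ ξ w) → ∀ q w : E n,
      -(κ / 2 * ‖w‖ ^ 2) ≤ s * ∫ x, ψ x * leaf a y (q + L • x) w (Complex.I • w) := by
    intro s φ M hM hφ hb q w
    obtain ⟨i1, b1⟩ := hg φ M hφ (fun ξ => (hb ξ).1) q L hL w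
    obtain ⟨i2, b2⟩ := hg φ M hφ (fun ξ => (hb ξ).1) q L hL (Complex.I • w)
    rw [norm_smul, Complex.norm_I, one_mul] at b2
    have h2 := mul_le_mul_of_nonneg_right (hLM M hM) (sq_nonneg ‖w‖)
    have h3 : 0 ≤ ∫ x, (s * (ψ x * leaf a y (q + L • x) w (Complex.I • w)) +
        κ / 4 * ‖w‖ ^ 2 * ψ x + ψ x * D2 φ (q + L • x) w +
        ψ x * D2 φ (q + L • x) (Complex.I • w)) := by
      refine integral_nonneg fun x => ?_
      have h4 := (hb (q + L • x)).2 w
      have h5 := mul_le_mul_of_nonneg_left (ho y hy (q + L • x) w) hδ.le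
      have h6 := mul_le_mul_of_nonneg_right hδC (sq_nonneg ‖w‖)
      unfold Lv at h4
      have h7 : 0 ≤ s * leaf a y (q + L • x) w (Complex.I • w) + κ / 4 * ‖w‖ ^ 2 +
          D2 φ (q + L • x) w + D2 φ (q + L • x) (Complex.I • w) := by nlinarith
      have h8 := mul_nonneg (h0 x) h7
      show (0 : ℝ) ≤ _
      nlinarith
    have j1 := (hti q w (Complex.I • w)).const_mul s
    have j2 := hψi.const_mul (κ / 4 * ‖w‖ ^ 2)
    rw [integral_add (by exact (j1.add j2).add i1) i2, integral_add (by exact j1.add j2) i1,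
      integral_add j1 j2, integral_const_mul, integral_const_mul, h1] at h3
    have := (abs_le.1 b1).2
    have := (abs_le.1 b2).2
    linarith
  have hbar : ∀ q, |∫ x, ψ x * leaf a y (q + L • x) u v| ≤ κ * R ^ 2 := fun q => by
    have h2 := cle2_bar volume hψ.continuous hc htc (fun x => hcl.2.1 x trivial)
      (fun x w w' => by
        have := hj (y, x) ⟨hy, trivial⟩ (0, w) (0, w')
        simpa [leaf] using this) L q (ε := κ / 2) (fun w => by
        have k1 := key 1 _ M1 (by linarith [le_abs_self M1, abs_nonneg M2]) (hφ1 y hy).1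
          (hφ1 y hy).2 q w
        have k2 := key (-1) _ M2 (by linarith [le_abs_self M2, abs_nonneg M1]) (hφ2 y hy).1
          (hφ2 y hy).2 q w
        rw [abs_le]
        constructor <;> linarith) u v
    have h3 := mul_le_mul_of_nonneg_left huv hκ.le
    nlinarith
  have hav := cle2_avg volume hψ.continuous hψi htc hK' L p u v hbar
  have hpc := (cle2_cont htc L p u v).2
  have hpi : Integrable fun x => ψ x * par (leaf a y) (p + L • x) u v :=
    Continuous.integrable_of_hasCompactSupport (hψ.continuous.mul hpc) hc.mul_right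
  have hd : ‖∫ x, (par (leaf a y) p u v * ψ x - ψ x * par (leaf a y) (p + L • x) u v)‖ ≤
      ∫ x, 300 * |K| * L * R * ψ x := by
    refine norm_integral_le_of_norm_le (hψi.const_mul _) (Eventually.of_forall fun x => ?_)
    by_cases hx : ψ x = 0
    · simp [hx]
    have h2 := par_shift hcl (abs_nonneg K) hK' p u v (p + L • x) u v (δ := L) (by
      rw [sub_add_cancel_left, norm_neg, norm_smul, Real.norm_eq_abs, abs_of_pos hL]
      nlinarith [hsup x hx]) (by simpa using hL.le) (by simpa using hL.le)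
    have h3 : 100 * |K| * L * (‖u‖ + ‖v‖ + L) ≤ 100 * |K| * L * (3 * R) :=
      mul_le_mul_of_nonneg_left (by linarith) (by positivity)
    rw [mul_comm _ (ψ x), ← mul_sub, norm_mul, Real.norm_eq_abs, Real.norm_eq_abs,
      abs_of_nonneg (h0 x), mul_comm _ (ψ x)]
    exact mul_le_mul_of_nonneg_left (by linarith) (h0 x)
  rw [integral_sub (hψi.const_mul _) hpi, integral_const_mul, integral_const_mul, h1,
    Real.norm_eq_abs] at hd
  rw [abs_le] at hd hav ⊢
  constructor <;> linarith [hd.1, hd.2, hav.1, hav.2]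

end Pool.Agent.CL
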