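import Pool.Agent.P.MP_63735c_ag.CLEn1
import Pool.Agent.P.MP_63735c_ag.CLMV

/-! Integral bound for the horizontal trace of the Levi form on a long box. -/

open scoped ContDiff Matrix ENNReal
open Set Metric MeasureTheory Filter Topology

namespace Pool.Agent.CL

open Pool.Agent.SPF

variable {n : ℕ}

instance clen2_haar : (volume : Measure (P n)).IsAddHaarMeasure :=
  Measure.prod.instIsAddHaarMeasure _ _

/-- A box of horizontal size `a` and vertical size `R`. -/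
def box (y0 : E n) (a R : ℝ) : Set (P n) := ball y0 a ×ˢ ball 0 R

/-- The horizontal trace of the Levi form. -/
noncomputable def trL (G : P n → ℝ) (x : P n) : ℝ := ∑ k, Lv G x (Pi.single k 1, 0)

lemma box_open (y0 : E n) (a R : ℝ) : IsOpen (box y0 a R) := isOpen_ball.prod isOpen_ball

lemma box_mono (y0 : E n) {a R a' R' : ℝ} (h : a ≤ a') (h' : R ≤ R') :
    box y0 a R ⊆ box y0 a' R' := prod_mono (ball_subset_ball h) (ball_subset_ball h')

lemma box_vol (y0 : E n) (a : ℝ) : ∃ v ≥ (0 : ℝ), ∀ R ≥ (0 : ℝ),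
    volume (box y0 a R) ≤ ENNReal.ofReal (v * R ^ (2 * n)) := by
  have hf : Module.finrank ℝ (E n) = 2 * n := by simp [Module.finrank_pi_fintype, mul_comm]
  refine ⟨(volume (ball y0 a) * volume (ball (0 : E n) 1)).toReal, ENNReal.toReal_nonneg,
    fun R hR => ?_⟩
  rw [ENNReal.ofReal_mul ENNReal.toReal_nonneg, ENNReal.ofReal_toReal
    (ENNReal.mul_ne_top measure_ball_lt_top.ne measure_ball_lt_top.ne), box,
    Measure.volume_eq_prod, Measure.prod_prod, mul_assoc, mul_comm _ (ENNReal.ofReal _), ← hf,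
    ← Measure.addHaar_closedBall _ (0 : E n) hR]
  exact mul_le_mul_right (measure_mono ball_subset_closedBall) _

lemma clen2_lam (y0 : E n) {a R : ℝ} (ha : 0 < a) (hR : 0 < R) : ∃ Λ : P n ≃L[ℂ] P n,
    (∀ u, Λ u = ((a : ℂ) • u.1, (R : ℂ) • u.2)) ∧
    (∀ u, Λ.symm u = ((a : ℂ)⁻¹ • u.1, (R : ℂ)⁻¹ • u.2)) ∧
    (∀ t, {x | ‖Λ.symm (x - (y0, 0))‖ < t} = box y0 (t * a) (t * R)) ∧
    ∀ t, {x | ‖Λ.symm (x - (y0, 0))‖ ≤ t} = closedBall y0 (t * a) ×ˢ closedBall 0 (t * R) := by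
  have a0 : (a : ℂ) ≠ 0 := by exact_mod_cast ha.ne'
  have R0 : (R : ℂ) ≠ 0 := by exact_mod_cast hR.ne'
  have ex : ∀ b c : ℂ, ∃ f : P n →L[ℂ] P n, ∀ u, f u = (b • u.1, c • u.2) := fun b c =>
    ⟨(b • ContinuousLinearMap.fst ℂ (E n) (E n)).prod (c • ContinuousLinearMap.snd ℂ (E n) (E n)),
      fun _ => rfl⟩
  obtain ⟨f, hf⟩ := ex a R
  obtain ⟨g, hg⟩ := ex (a : ℂ)⁻¹ (R : ℂ)⁻¹
  let Λ : P n ≃L[ℂ] P n := ContinuousLinearEquiv.equivOfInverse f g
    (fun x => by rw [hf, hg, inv_smul_smul₀ a0, inv_smul_smul₀ R0])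
    (fun x => by rw [hg, hf, smul_inv_smul₀ a0, smul_inv_smul₀ R0])
  have h : ∀ x : P n, ‖Λ.symm (x - (y0, 0))‖ = max (dist x.1 y0 / a) (dist x.2 0 / R) := by
    intro x
    rw [show Λ.symm (x - (y0, 0)) = g (x - (y0, 0)) from rfl, hg, Prod.norm_def, norm_smul,
      norm_smul]
    simp [dist_eq_norm, abs_of_pos ha, abs_of_pos hR, div_eq_inv_mul]
  refine ⟨Λ, hf, hg, fun t => ?_, fun t => ?_⟩ <;> ext x
  · simp only [mem_ofPred, h, max_lt_iff, div_lt_iff₀ ha, div_lt_iff₀ hR, box, mem_prod, mem_ball]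
  · simp only [mem_ofPred, h, max_le_iff, div_le_iff₀ ha, div_le_iff₀ hR, mem_prod, mem_closedBall]

lemma clen2_mv (y0 : E n) {a c K Cs B : ℝ} (ha : 0 < a) (hc : 0 < c) (hK : 0 ≤ K) (hCs : 0 ≤ Cs)
    (hB : 0 ≤ B) : ∃ C ≥ (0 : ℝ), ∀ R > (0 : ℝ), ∀ (G h : P n → ℝ) (M : Set (P n)),
    ContDiffOn ℝ 2 G (box y0 (10 * a) (10 * R)) → ContinuousOn h (box y0 (10 * a) (10 * R)) →
    (∀ x ∈ box y0 (10 * a) (10 * R), G x ≤ 0 ∧ 0 ≤ h x ∧
      ∀ u : P n, -Lv G x u ≤ Cs * (h x * ‖u.1‖ ^ 2 + ‖u.2‖ ^ 2)) →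
    ∫⁻ x in box y0 (10 * a) (10 * R), ENNReal.ofReal (h x) ≤ ENNReal.ofReal (B * R ^ (2 * n + 2)) →
    MeasurableSet M → M ⊆ box y0 a R → ENNReal.ofReal (c * R ^ (2 * n)) ≤ volume M →
    (∀ x ∈ M, -G x ≤ K * R ^ 2) →
    ∫⁻ x in box y0 a R, ENNReal.ofReal (-G x) ≤ ENNReal.ofReal (C * R ^ (2 * n + 2)) := by
  classical
  obtain ⟨C, hC, hmv⟩ := mv_avg (P n) volume
  obtain ⟨v1, hv1, w1⟩ := box_vol y0 a
  obtain ⟨v2, hv2, w2⟩ := box_vol y0 (10 * a)
  set F := Cs * a ^ 2 * B + Cs * (v2 * 10 ^ (2 * n)) with hF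
  have hF0 : 0 ≤ F := by positivity
  refine ⟨C.toReal * v1 * (K + F / c), by positivity, fun R hR G h M hG hh hp hi hM hMb hv hMK => ?_⟩
  obtain ⟨Λ, l1, -, l3, -⟩ := clen2_lam y0 ha hR
  set W := box y0 (10 * a) (10 * R) with hW
  have hWm : MeasurableSet W := (box_open _ _ _).measurableSet
  have hm : Measurable (W.indicator h) := by
    rw [← piecewise_eq_indicator]
    exact hh.measurable_piecewise continuousOn_const hWm
  have key := hmv (y0, 0) Λ (K * R ^ 2) (fun x => -G x)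
    (fun x => ENNReal.ofReal (Cs * a ^ 2) * ENNReal.ofReal (W.indicator h x) +
      ENNReal.ofReal (Cs * R ^ 2)) M ((hm.ennreal_ofReal.const_mul _).add measurable_const) hM
    (by rw [l3]; simpa using hMb) (by rw [l3]; exact hG.neg) (fun x hx => ?_) hMK
  · rw [l3, l3, one_mul, one_mul, ← hW, lintegral_add_right _ measurable_const,
      lintegral_const_mul _ hm.ennreal_ofReal, setLIntegral_const,
      setLIntegral_congr_fun hWm (g := fun x => ENNReal.ofReal (h x))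
        fun x hx => by simp only [indicator_of_mem hx]] at key
    have f1 : ENNReal.ofReal (Cs * a ^ 2) * (∫⁻ x in W, ENNReal.ofReal (h x)) +
        ENNReal.ofReal (Cs * R ^ 2) * volume W ≤ volume M * ENNReal.ofReal (F / c * R ^ 2) := by
      refine (add_le_add (mul_le_mul_right hi _) (mul_le_mul_right (w2 _ (by positivity)) _)).trans
        (le_trans (le_of_eq ?_) (mul_le_mul_left hv _))
      rw [← ENNReal.ofReal_mul (by positivity), ← ENNReal.ofReal_mul (by positivity),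
        ← ENNReal.ofReal_add (by positivity) (by positivity), ← ENNReal.ofReal_mul (by positivity),
        hF, mul_pow]
      congr 1
      field_simp
      ring
    have m0 : volume M ≠ 0 := ((ENNReal.ofReal_pos.2 (by positivity)).trans_le hv).ne'
    have m1 : volume M ≠ ⊤ :=
      ne_top_of_le_ne_top ENNReal.ofReal_ne_top ((measure_mono hMb).trans (w1 R hR.le))
    have f2 := key.trans (mul_le_mul' (mul_le_mul_right (w1 R hR.le) C) (add_le_add le_rfl f1))
    rw [← mul_add, mul_left_comm, ENNReal.mul_le_mul_iff_right m0 m1] at f2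
    refine f2.trans (le_of_eq ?_)
    rw [← ENNReal.ofReal_toReal hC, ← ENNReal.ofReal_add (by positivity) (by positivity),
      ← ENNReal.ofReal_mul (by positivity), ← ENNReal.ofReal_mul (by positivity),
      ENNReal.toReal_ofReal ENNReal.toReal_nonneg]
    congr 1
    ring
  · have hx' : x ∈ W := by rw [hW, ← l3]; exact hx
    obtain ⟨p1, p2, p3⟩ := hp x hx'
    refine ⟨neg_nonneg.2 p1, fun u hu => ?_⟩
    have hGx : ContDiffAt ℝ 2 G x := hG.contDiffAt ((box_open _ _ _).mem_nhds hx')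
    have e1 : Lv (fun x => -G x) x (Λ u) = -Lv G x (Λ u) := by
      have := fun v => D2_add hGx hGx (-1) 0 v
      simp only [neg_mul, one_mul, zero_mul, add_zero] at this
      rw [Lv, Lv, this, this, neg_add]
    rw [e1, indicator_of_mem hx', ← ENNReal.ofReal_mul (by positivity),
      ← ENNReal.ofReal_add (by positivity) (by positivity)]
    refine ENNReal.ofReal_le_ofReal ((p3 _).trans ?_)
    have u1 : ‖u.1‖ ^ 2 ≤ 1 := pow_le_one₀ (norm_nonneg _) ((norm_fst_le u).trans hu)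
    have u2 : ‖u.2‖ ^ 2 ≤ 1 := pow_le_one₀ (norm_nonneg _) ((norm_snd_le u).trans hu)
    have u3 := mul_le_mul_of_nonneg_left u1 (show 0 ≤ Cs * a ^ 2 * h x by positivity)
    have u4 := mul_le_mul_of_nonneg_left u2 (show 0 ≤ Cs * R ^ 2 by positivity)
    simp only [l1, norm_smul, Complex.norm_real, Real.norm_eq_abs, mul_pow, sq_abs]
    linarith

lemma clen2_green (y0 : E n) {a : ℝ} (ha : 0 < a) : ∃ C ≥ (0 : ℝ), ∀ R > (0 : ℝ),
    ∀ G h : P n → ℝ, ContDiffOn ℝ 2 G (box y0 a R) → ContinuousOn h (box y0 a R) →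
    (∀ x ∈ box y0 a R, G x ≤ 0 ∧ 0 ≤ h x ∧ 0 ≤ h x + trL G x) →
    ∫⁻ x in box y0 (a / 2) (R / 2), ENNReal.ofReal (h x + trL G x) ≤
      (∫⁻ x in box y0 a R, ENNReal.ofReal (h x)) +
        ENNReal.ofReal C * ∫⁻ x in box y0 a R, ENNReal.ofReal (-G x) := by
  let Θ : ContDiffBump (0 : P n) := ⟨1 / 2, 3 / 4, by norm_num, by norm_num⟩
  have hΘ : ContDiff ℝ 2 Θ := Θ.contDiff
  obtain ⟨D, hD⟩ := ((hΘ.fderiv_right (m := 1) (by norm_num)).continuous_fderiv
    one_ne_zero).bounded_above_of_compact_support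
      ((Θ.hasCompactSupport.fderiv (𝕜 := ℝ)).fderiv (𝕜 := ℝ))
  have hD0 : 0 ≤ D := (norm_nonneg _).trans (hD 0)
  refine ⟨n * (2 * (D * a⁻¹ * a⁻¹)), by positivity, fun R hR G h hG hh hp => ?_⟩
  obtain ⟨Λ, -, l2, l3, l4⟩ := clen2_lam y0 ha hR
  set Ω := box y0 a R with hΩ
  have hΩo : IsOpen Ω := box_open _ _ _
  set L : P n →L[ℝ] P n := (Λ.symm : P n →L[ℂ] P n).restrictScalars ℝ with hL
  set θ : P n → ℝ := fun x => Θ (L x + -L (y0, 0)) with hθd
  have eL : ∀ x, L x + -L (y0, 0) = Λ.symm (x - (y0, 0)) := fun x => by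
    rw [map_sub, sub_eq_add_neg]; rfl
  have hθ : ContDiff ℝ 2 θ := hΘ.comp (L.contDiff.add contDiff_const)
  set K := closedBall y0 (3 / 4 * a) ×ˢ closedBall (0 : E n) (3 / 4 * R) with hK
  have hKc : IsCompact K := (isCompact_closedBall _ _).prod (isCompact_closedBall _ _)
  have hKΩ : K ⊆ Ω :=
    prod_mono (closedBall_subset_ball (by linarith)) (closedBall_subset_ball (by linarith))
  have hz : ∀ t ∈ Ω \ K, θ =ᶠ[𝓝 t] 0 := fun t ht => by
    filter_upwards [hKc.isClosed.isOpen_compl.mem_nhds ht.2] with x hx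
    rw [hK, ← l4] at hx
    exact Θ.zero_of_le_dist (by rw [eL, dist_zero_right]; exact le_of_not_ge hx)
  have gr := fun e => green_dir volume hΩo hG hθ.contDiffOn hKc hKΩ (fun t ht => Or.inr (hz t ht)) e
  have i0 : IntegrableOn (fun t => θ t * h t) Ω := clgreen_int volume hΩo hKc hKΩ
    (hθ.continuous.continuousOn.mul hh) fun t ht => by rw [(hz t ht).eq_of_nhds]; simp
  have i1 : ∀ e, IntegrableOn (fun t => θ t * D2 G t e + θ t * D2 G t (Complex.I • e)) Ω :=
    fun e => (gr e).1.add (gr _).1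
  have i2 : ∀ e, IntegrableOn (fun t => G t * D2 θ t e + G t * D2 θ t (Complex.I • e)) Ω :=
    fun e => (gr e).2.1.add (gr _).2.1
  have e1 : ∀ t, θ t * (h t + trL G t) = θ t * h t + ∑ k, (θ t * D2 G t (Pi.single k 1, 0) +
      θ t * D2 G t (Complex.I • (Pi.single k 1, 0))) := fun t => by
    simp only [trL, Lv, mul_add, Finset.mul_sum]
  have i3 : IntegrableOn (fun t => θ t * (h t + trL G t)) Ω := by
    simp only [e1]
    exact i0.add (integrable_finsetSum _ fun k _ => i1 _)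
  have e2 : ∫ t in Ω, θ t * (h t + trL G t) = ∫ t in Ω, (θ t * h t + ∑ k,
      (G t * D2 θ t (Pi.single k 1, 0) + G t * D2 θ t (Complex.I • (Pi.single k 1, 0)))) := by
    simp only [e1]
    rw [integral_add i0 (integrable_finsetSum _ fun k _ => i1 _),
      integral_add i0 (integrable_finsetSum _ fun k _ => i2 _),
      integral_finsetSum _ fun k _ => i1 _, integral_finsetSum _ fun k _ => i2 _]
    refine congrArg _ (Finset.sum_congr rfl fun k _ => ?_)
    rw [integral_add (gr _).1 (gr _).1, integral_add (gr _).2.1 (gr _).2.1, (gr _).2.2, (gr _).2.2]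
  have b1 : ∀ t, ∀ e : E n, ‖e‖ ≤ 1 → G t ≤ 0 → G t * D2 θ t (e, 0) ≤ D * a⁻¹ * a⁻¹ * -G t := by
    intro t e he ht
    have c1 : ‖L (e, 0)‖ ≤ a⁻¹ := by
      change ‖Λ.symm (e, 0)‖ ≤ _
      simp only [l2, smul_zero, Prod.norm_def, norm_smul, norm_inv, Complex.norm_real, norm_zero,
        Real.norm_eq_abs, abs_of_pos ha]
      exact max_le (mul_le_of_le_one_right (by positivity) he) (by positivity)
    have c2 : ‖D2 θ t (e, 0)‖ ≤ D * a⁻¹ * a⁻¹ := by
      rw [hθd, D2_aff L _ hΘ.contDiffAt]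
      exact ContinuousLinearMap.le_of_opNorm₂_le_of_le _ (hD _) c1 c1
    have c3 := mul_le_mul_of_nonneg_left (neg_le_of_abs_le c2) (neg_nonneg.2 ht)
    linarith
  calc ∫⁻ x in box y0 (a / 2) (R / 2), ENNReal.ofReal (h x + trL G x)
      = ∫⁻ x in box y0 (a / 2) (R / 2), ENNReal.ofReal (θ x * (h x + trL G x)) := by
        refine setLIntegral_congr_fun (box_open _ _ _).measurableSet fun x hx => ?_
        have : θ x = 1 := Θ.one_of_mem_closedBall (by
          rw [div_eq_inv_mul, div_eq_inv_mul, ← l3] at hx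
          rw [eL, mem_closedBall_zero_iff]
          exact (le_of_lt hx).trans (by norm_num [Θ]))
        simp only [this, one_mul]
    _ ≤ ∫⁻ x in Ω, ENNReal.ofReal (θ x * (h x + trL G x)) :=
        lintegral_mono_set (box_mono _ (by linarith) (by linarith))
    _ = ENNReal.ofReal (∫ t in Ω, θ t * (h t + trL G t)) :=
        (ofReal_integral_eq_lintegral_ofReal i3 ((ae_restrict_iff' hΩo.measurableSet).2
          (Eventually.of_forall fun x hx => mul_nonneg Θ.nonneg (hp x hx).2.2))).symm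
    _ ≤ ∫⁻ t in Ω, (ENNReal.ofReal (h t) +
        ENNReal.ofReal (n * (2 * (D * a⁻¹ * a⁻¹))) * ENNReal.ofReal (-G t)) := by
        rw [e2]
        refine (clmv0_ofReal _ _).trans (setLIntegral_mono' hΩo.measurableSet fun t ht => ?_)
        obtain ⟨p1, p2, -⟩ := hp t ht
        have p3 := neg_nonneg.2 p1
        rw [← ENNReal.ofReal_mul (by positivity), ← ENNReal.ofReal_add p2 (by positivity)]
        refine ENNReal.ofReal_le_ofReal (add_le_add (mul_le_of_le_one_left p2 Θ.le_one) ?_)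
        refine (Finset.sum_le_card_nsmul _ _ (2 * (D * a⁻¹ * a⁻¹) * -G t) fun k _ => ?_).trans
          (le_of_eq (by simp [mul_assoc]))
        have c1 := b1 t (Pi.single k 1) (by simp [Pi.norm_single]) p1
        have c2 := b1 t (Complex.I • Pi.single k 1) (by simp [norm_smul, Pi.norm_single]) p1
        rw [Prod.smul_mk, smul_zero]
        linarith
    _ = _ := by
        rw [lintegral_add_left' (hh.aemeasurable hΩo.measurableSet).ennreal_ofReal,
          lintegral_const_mul' _ _ ENNReal.ofReal_ne_top]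

theorem box_core (y0 : E n) {a c K Cs B : ℝ} (ha : 0 < a) (hc : 0 < c) (hK : 0 ≤ K) (hCs : 0 ≤ Cs)
    (hB : 0 ≤ B) : ∃ C ≥ (0 : ℝ), ∀ R > (0 : ℝ), ∀ (G h : P n → ℝ) (M : Set (P n)),
    ContDiffOn ℝ 2 G (box y0 (10 * a) (10 * R)) → ContinuousOn h (box y0 (10 * a) (10 * R)) →
    (∀ x ∈ box y0 (10 * a) (10 * R), G x ≤ 0 ∧ 0 ≤ h x ∧ 0 ≤ h x + trL G x ∧
      ∀ u : P n, -Lv G x u ≤ Cs * (h x * ‖u.1‖ ^ 2 + ‖u.2‖ ^ 2)) →
    ∫⁻ x in box y0 (10 * a) (10 * R), ENNReal.ofReal (h x) ≤ ENNReal.ofReal (B * R ^ (2 * n + 2)) →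
    MeasurableSet M → M ⊆ box y0 a R → ENNReal.ofReal (c * R ^ (2 * n)) ≤ volume M →
    (∀ x ∈ M, -G x ≤ K * R ^ 2) →
    ∫⁻ x in box y0 (a / 2) (R / 2), ENNReal.ofReal (h x + trL G x) ≤
      ENNReal.ofReal (C * R ^ (2 * n + 2)) := by
  obtain ⟨C1, h1, k1⟩ := clen2_mv y0 ha hc hK hCs hB
  obtain ⟨C2, h2, k2⟩ := clen2_green y0 ha
  refine ⟨B + C2 * C1, by positivity, fun R hR G h M hG hh hp hi hM hMb hv hMK => ?_⟩
  have hs : box y0 a R ⊆ box y0 (10 * a) (10 * R) := box_mono _ (by linarith) (by linarith)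
  refine (k2 R hR G h (hG.mono hs) (hh.mono hs) fun x hx =>
    ⟨(hp x (hs hx)).1, (hp x (hs hx)).2.1, (hp x (hs hx)).2.2.1⟩).trans ((add_le_add
      ((lintegral_mono_set hs).trans hi) (mul_le_mul_right (k1 R hR G h M hG hh (fun x hx =>
        ⟨(hp x hx).1, (hp x hx).2.1, (hp x hx).2.2.2⟩) hi hM hMb hv hMK) _)).trans (le_of_eq ?_))
  rw [← ENNReal.ofReal_mul h2, ← ENNReal.ofReal_add (by positivity) (by positivity)]
  congr 1
  ring

end Pool.Agent.CL
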