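import Pool.Agent.P.MP_63735c_ag.CLAt

/-! The domain of a label. -/

open scoped ContDiff Matrix ENNReal
open Set Metric MeasureTheory Filter Topology

namespace Pool.Agent.CL

open Pool.Agent.SPF

variable {n : ℕ} {X : Type} [TopologicalSpace X] [T2Space X] [MeasurableSpace X]

namespace Big

variable {B : Big n X} {l l' : B.Lab} {y : E n} {g g' : Ret n}


theorem isOpen_Om (l : B.Lab) : IsOpen (B.Om l) :=
  isOpen_iff_mem_nhds.2 fun _ ⟨g, h⟩ => h.ev.mono fun _ hx => ⟨g, hx⟩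

theorem Om_sub (l : B.Lab) : B.Om l ⊆ ball B.S.G.y0 B.S.G.r := fun _ ⟨_, h⟩ => h.1

theorem clom_pt (h : B.At l y g) :
    B.bb l y = piI B.S.Q.I (g.α y) ∧ B.tt l y = tauI B.S.Q.I (g.α y) := by
  have hy : y ∈ B.Om l := ⟨g, h⟩
  obtain ⟨s, hs, he⟩ := h.uniq (Classical.choose_spec hy)
  have ha : B.al l y = g.α y + s := by
    rw [al, dif_pos hy]
    exact he.self_of_nhds
  have hp := RI.proj (ZI.sub_RI hs)
  rw [bb, tt, ha, map_add, map_add, hp.1, hp.2.1, add_zero, add_zero]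
  exact ⟨rfl, rfl⟩

theorem At.bt (h : B.At l y g) : ∀ᶠ x in 𝓝 y, x ∈ B.Om l ∧ B.bb l x = piI B.S.Q.I (g.α x) ∧
    B.tt l x = tauI B.S.Q.I (g.α x) :=
  h.ev.mono fun _ hx => ⟨⟨g, hx⟩, clom_pt hx⟩

theorem bb_hol (l : B.Lab) : DifferentiableOn ℂ (B.bb l) (B.Om l) := by
  rintro y ⟨g, h⟩
  obtain ⟨O, hO, hy⟩ := h.germ.1
  exact (((piI B.S.Q.I).differentiableAt.comp y
    (hO.α_hol.differentiableAt (hO.isOpen.mem_nhds hy))).congr_of_eventuallyEq
      (h.bt.mono fun x hx => hx.2.1)).differentiableWithinAt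

theorem tt_smooth (l : B.Lab) : ContDiffOn ℝ ∞ (B.tt l) (B.Om l) := by
  rintro y ⟨g, h⟩
  obtain ⟨O, hO, hy⟩ := h.germ.1
  exact (((tauI B.S.Q.I).contDiff.contDiffAt.comp y
    ((hol_smooth hO.isOpen hO.α_hol).2.1.contDiffAt (hO.isOpen.mem_nhds hy))).congr_of_eventuallyEq
      (h.bt.mono fun x hx => hx.2.2)).contDiffWithinAt

/-- A representative with small real part. -/
theorem exists_at (hy : y ∈ B.Om l) : ∃ g, B.At l y g ∧ ‖reI B.S.Q.I (g.α y)‖ ≤ 1 ∧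
    ‖g.α y‖ ≤ 1 + ‖B.bb l y‖ + ‖B.tt l y‖ := by
  obtain ⟨g, h⟩ := hy
  let s : E n := fun k => if k ∈ B.S.Q.I then ((-⌊(g.α y k).re⌋ : ℤ) : ℂ) else 0
  have hs : s ∈ ZI B.S.Q.I := fun k => by
    by_cases hk : k ∈ B.S.Q.I
    · exact ⟨⟨_, if_pos hk⟩, fun h => absurd hk h⟩
    · exact ⟨⟨0, by simp [s, hk]⟩, fun _ => if_neg hk⟩
  have h1 : ‖reI B.S.Q.I (g.α y + s)‖ ≤ 1 := by
    refine (pi_norm_le_iff_of_nonneg zero_le_one).2 fun k => ?_
    rw [reI_apply]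
    split_ifs with hk
    · have e : ((g.α y + s) k).re = Int.fract (g.α y k).re := by
        simp [s, hk, Int.fract, sub_eq_add_neg]
      rw [e, Complex.norm_real, Real.norm_eq_abs, abs_of_nonneg (Int.fract_nonneg _)]
      exact (Int.fract_lt_one _).le
    · simp
  refine ⟨_, h.shift hs, h1, ?_⟩
  obtain ⟨e1, e2⟩ := clom_pt (h.shift hs)
  rw [e1, e2]
  have h2 := norm_add₃_le (a := reI B.S.Q.I (g.α y + s))
    (b := Complex.I • tauI B.S.Q.I (g.α y + s)) (c := piI B.S.Q.I (g.α y + s))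
  rw [← split_I, norm_smul, Complex.norm_I, one_mul] at h2
  exact h2.trans (by linarith)

theorem clom_cont (hy : y ∈ B.Om l) :
    ContinuousAt (fun x => ‖B.bb l x‖) y ∧ ContinuousAt (fun x => ‖B.tt l x‖) y :=
  ⟨((bb_hol l).continuousOn.continuousAt ((isOpen_Om l).mem_nhds hy)).norm,
    ((tt_smooth l).continuousOn.continuousAt ((isOpen_Om l).mem_nhds hy)).norm⟩

theorem clom_T (hl : B.lg.sz l ≤ B.lg.ε) (hy : y ∈ ball B.S.G.y0 B.S.G.r) :
    y ∈ ball B.S.G.y0 (2 * B.S.G.r) ∧ y ∈ B.S.M.T ∧ B.S.G.γ l.1 y ∈ B.S.M.T := by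
  have r0 := B.S.G.r_pos
  have h2 : y ∈ ball B.S.G.y0 (2 * B.S.G.r) := ball_subset_ball (by linarith) hy
  refine ⟨h2, B.S.G.sub (ball_subset_closedBall (ball_subset_ball (by linarith) hy)),
    B.S.G.sub ?_⟩
  have h3 := (B.S.G.near l.1 hl y h2).1
  have h4 := B.S.G.small.trans (min_le_left _ _)
  have h5 : B.S.G.lg.L * B.S.G.lg.sz l.1 ≤ B.S.G.lg.L * B.S.G.lg.ε :=
    mul_le_mul_of_nonneg_left hl (by linarith [B.S.G.lg.L_ge])
  rw [mem_ball] at hy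
  rw [mem_closedBall]
  rw [← dist_eq_norm] at h3
  linarith [dist_triangle (B.S.G.γ l.1 y) y B.S.G.y0]

theorem proper (hl : B.lg.sz l ≤ B.lg.ε) {K : Set (E n)} (hK : IsCompact K)
    (hs : K ⊆ ball B.S.G.y0 B.S.G.r) (M : ℝ) :
    IsCompact {x | x ∈ K ∧ x ∈ B.Om l ∧ ‖B.bb l x‖ ≤ M ∧ ‖B.tt l x‖ ≤ M} := by
  refine isCompact_iff_ultrafilter_le_nhds.2 fun U hU => ?_
  have hm := le_principal_iff.1 hU
  obtain ⟨y, hy, hUy⟩ := hK.ultrafilter_le_nhds U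
    (le_principal_iff.2 (mem_of_superset hm fun x hx => hx.1))
  have : Nonempty (Ret n) := ⟨Ret.per 0⟩
  choose! G hG using fun x (hx : x ∈ B.Om l) => exists_at hx
  have hA : ∀ᶠ x in (U : Filter (E n)), B.At l x (G x) :=
    mem_of_superset hm fun x hx => (hG x hx.2.1).1
  obtain ⟨ξ, -, hξ⟩ := (isCompact_closedBall (0 : E n) (1 + M + M)).ultrafilter_le_nhds
    (U.map fun x => (G x).α x) (le_principal_iff.2 (Ultrafilter.mem_map.2 (mem_of_superset hm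
      fun x hx => by
        rw [mem_preimage, mem_closedBall_zero_iff]
        linarith [(hG x hx.2.1).2.2, hx.2.2.1, hx.2.2.2])))
  obtain ⟨y2, yT, γT⟩ := clom_T hl (hs hy)
  have hγ : Tendsto (fun x => (G x).γ x) U (𝓝 (B.S.G.γ l.1 y)) :=
    (((B.S.G.γ_hol l.1).continuousOn.continuousAt (isOpen_ball.mem_nhds y2)).tendsto.mono_left
      hUy).congr' (hA.mono fun x hx => hx.germ.2.1.self_of_nhds.1.symm)
  obtain ⟨g', ρ, ρ0, hr, -, -, he⟩ := B.S.M.lim (x := fun x => x) (g := G) yT γT hUy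
    (hA.mono fun x hx => hx.germ.1) hξ hγ
  have hO : IsOpen (ball y ρ ∩ ball B.S.G.y0 (2 * B.S.G.r)) := isOpen_ball.inter isOpen_ball
  have hn := hO.mem_nhds ⟨mem_ball_self ρ0, y2⟩
  have h1 : g'.γ =ᶠ[𝓝 y] B.S.G.γ l.1 := by
    obtain ⟨x, x1, x2, x3⟩ := (hA.and (he.and (hUy hn))).exists
    refine (hol_ident hO ((convex_ball _ _).inter (convex_ball _ _)).isPreconnected
      (hr.γ_hol.mono inter_subset_left) ((B.S.G.γ_hol l.1).mono inter_subset_right) x3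
      ?_).eventuallyEq_of_mem hn
    filter_upwards [x1.germ.2.1, x2.2] with w w1 w2
    exact w2.1.symm.trans w1.1
  obtain ⟨sh, h2⟩ := at_of_sm (hs hy) ⟨hl, ⟨_, hr, mem_ball_self ρ0⟩, h1⟩
  obtain ⟨x, x1, x2, x3⟩ := (hA.and (he.and (h2.ev.filter_mono hUy))).exists
  rw [← x1.lab x3 x2.2] at h2
  have hy' : y ∈ B.Om l := ⟨_, h2⟩
  exact ⟨y, ⟨hy, hy', le_of_tendsto ((clom_cont hy').1.tendsto.mono_left hUy)
    (mem_of_superset hm fun x hx => hx.2.2.1), le_of_tendsto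
      ((clom_cont hy').2.tendsto.mono_left hUy) (mem_of_superset hm fun x hx => hx.2.2.2)⟩, hUy⟩

theorem countable_Labs (B : Big n X) (e : ℝ) : (B.Labs e).Countable := by
  obtain ⟨u, hu⟩ := TopologicalSpace.exists_dense_seq (E n)
  have C0 : 0 < B.S.M.C0 := by linarith [B.S.M.C0_ge]
  have hc := div_pos B.S.M.c0_pos C0
  refine (countable_iUnion fun i => countable_iUnion fun j => Set.Subsingleton.countable
    (s := {l : B.Lab | ∃ g, B.At l (u i) g ∧ dist (g.α (u i)) (u j) < B.S.M.c0 / B.S.M.C0})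
    ?_).mono fun l hl => ?_
  · rintro l ⟨g, h, hd⟩ l' ⟨g', h', hd'⟩
    refine h.lab h' (B.S.M.sep0 h.germ.1 h'.germ.1 ?_)
    rw [← dist_eq_norm, ← lt_div_iff₀' C0, mul_div_assoc]
    linarith [dist_triangle_right (g.α (u i)) (g'.α (u i)) (u j)]
  · obtain ⟨i, g, h⟩ := hu.exists_mem_open (isOpen_Om l) hl.2
    obtain ⟨j, hj⟩ := hu.exists_dist_lt (g.α (u i)) hc
    exact mem_iUnion.2 ⟨i, mem_iUnion.2 ⟨j, g, h, hj⟩⟩

theorem isOpen_Om0 (l : B.Lab) (b : E n → E n) : IsOpen (B.Om0 l b) :=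
  (isOpen_Om l).inter isOpen_setOfPred_eventually_nhds

theorem measurable_ht (l : B.Lab) (b : E n → E n) : Measurable (B.ht l b) := by
  classical
  exact ContinuousOn.measurable_piecewise (s := B.Om0 l b)
    (f := fun x => ENNReal.ofReal ‖B.tt l x‖) (g := fun _ => ⊤)
    (fun x hx => (ENNReal.continuous_ofReal.continuousAt.comp
      (clom_cont hx.1).2).continuousWithinAt) continuousOn_const (isOpen_Om0 l b).measurableSet

/-- Properness of the height on `Om0`. -/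
theorem proper0 (hl : B.lg.sz l ≤ B.lg.ε) {O K : Set (E n)} {b : E n → E n} (hO : IsOpen O)
    (hb : DifferentiableOn ℂ b O) (hK : IsCompact K) (hKO : K ⊆ O)
    (hs : K ⊆ ball B.S.G.y0 B.S.G.r) (M : ℝ) :
    IsCompact {x | x ∈ K ∧ x ∈ B.Om0 l b ∧ ‖B.tt l x‖ ≤ M} := by
  obtain ⟨M', hM'⟩ := hK.exists_bound_of_continuousOn (hb.continuousOn.mono hKO)
  have hc := proper hl hK hs (max M M')
  have hsub : {x | x ∈ K ∧ x ∈ B.Om0 l b ∧ ‖B.tt l x‖ ≤ M} ⊆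
      {x | x ∈ K ∧ x ∈ B.Om l ∧ ‖B.bb l x‖ ≤ max M M' ∧ ‖B.tt l x‖ ≤ max M M'} := fun x hx =>
    ⟨hx.1, hx.2.1.1, by
      rw [hx.2.1.2.self_of_nhds]
      exact le_max_of_le_right (hM' x hx.1), le_max_of_le_left hx.2.2⟩
  refine hc.of_isClosed_subset (isClosed_of_closure_subset fun y hy => ?_) hsub
  obtain ⟨y1, y2, -⟩ := closure_minimal hsub hc.isClosed hy
  obtain ⟨ρ, ρ0, hρ⟩ := Metric.isOpen_iff.1 (hO.inter (isOpen_Om l)) y ⟨hKO y1, y2⟩
  obtain ⟨x, x1, x2⟩ := Metric.mem_closure_iff.1 hy ρ ρ0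
  refine ⟨y1, ⟨y2, ?_⟩, ContinuousWithinAt.closure_le hy (clom_cont y2).2.continuousWithinAt
    continuousWithinAt_const fun x hx => hx.2.2⟩
  exact (hol_ident isOpen_ball (convex_ball y ρ).isPreconnected
    ((bb_hol l).mono fun w hw => (hρ hw).2) (hb.mono fun w hw => (hρ hw).1) (mem_ball'.2 x2)
    x1.2.1.2).eventuallyEq_of_mem (ball_mem_nhds y ρ0)

theorem Real.mono {t t' m m' : ℝ} {b : E n → E n} {y' : E n} (h : B.Real l y t b m m')
    (hs : ball y' t' ⊆ ball y t) : B.Real l y' t' b m m' :=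
  ⟨h.hol.mono hs, fun x hx => h.bd x (hs hx), fun x hx => h.mem x (hs hx), h.rho, h.m'_nonneg,
    (lintegral_mono_set hs).trans h.int⟩


end Big

end Pool.Agent.CL
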