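import Pool.Agent.P.MP_63735c_ag.SPFlow

/-! Lemma G, layer 1: Frobenius on an invariant set, rigidity of solutions of `df = V f`, and the
chart given by a maximal independent family of invariants. -/

open Set Filter Topology
open scoped ContDiff

namespace Pool.Agent.CL

open Pool.Agent.SPF

section real

variable {T G : Type} [NormedAddCommGroup T] [NormedSpace ℝ T] [FiniteDimensional ℝ T]
  [NormedAddCommGroup G] [NormedSpace ℝ G] [FiniteDimensional ℝ G]

/-- Frobenius theorem on a set `S` that the radial solutions do not leave. -/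
theorem frob_inv {Ω : Set G} (hΩ : IsOpen Ω) {V : G → T →L[ℝ] G}
    (hV : ∀ y ∈ Ω, ContDiffAt ℝ 2 V y) {a : G} (ha : a ∈ Ω) :
    ∃ r > 0, ∃ δ > 0, ∀ y ∈ Metric.ball a r, ∀ S : Set G,
      (∀ x ∈ Ω, x ∈ S → ∀ s t, fderiv ℝ V x (V x s) t = fderiv ℝ V x (V x t) s) →
      (∀ (t : T) (c : ℝ → G), c 0 = y →
        (∀ s ∈ Icc (0 : ℝ) 1, c s ∈ Ω ∧ HasDerivAt c (V (c s) t) s) →
          ∀ s ∈ Icc (0 : ℝ) 1, c s ∈ S) →
      ∃ f : T → G, f 0 = y ∧
        ∀ t ∈ Metric.ball (0 : T) δ, f t ∈ Ω ∧ f t ∈ S ∧ HasFDerivAt f (V (f t)) t := by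
  have : CompleteSpace (T × G) := FiniteDimensional.complete ℝ _
  obtain ⟨ρ0, hρ0, hb⟩ := Metric.isOpen_iff.1 hΩ a ha
  set ρ := ρ0 / 4 with hρ
  have hρ' : 0 < ρ := by positivity
  have hsub : ∀ p ∈ Metric.closedBall ((0 : T), a) (3 * ρ), p.2 ∈ Ω := by
    intro p hp
    rw [← closedBall_prod_same] at hp
    exact hb (Metric.closedBall_subset_ball (by rw [hρ]; linarith) hp.2)
  let b : ContDiffBump ((0 : T), a) := ⟨2 * ρ, 3 * ρ, by positivity, by linarith⟩
  let Z : T × G → T × G := fun p => b p • ((0 : T), V p.2 p.1)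
  have hZ : ContDiff ℝ (2 : ℕ∞) Z := by
    rw [contDiff_iff_contDiffAt]
    intro p
    by_cases hp : p.2 ∈ Ω
    · exact b.contDiff.contDiffAt.smul (contDiffAt_const.prodMk
        ((ContDiffAt.comp p (f := fun p : T × G => p.2) (hV _ hp) contDiffAt_snd).clm_apply
          contDiffAt_fst))
    · have h1 : p ∉ tsupport b := by
        rw [b.tsupport_eq]; exact fun h => hp (hsub p h)
      refine (contDiffAt_const (c := (0 : T × G))).congr_of_eventuallyEq ?_
      filter_upwards [notMem_tsupport_iff_eventuallyEq.1 h1] with z hz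
      simp only [Z, hz, Pi.zero_apply, zero_smul]
  have hc : HasCompactSupport Z := by
    refine HasCompactSupport.intro (isCompact_closedBall ((0 : T), a) (3 * ρ)) fun y hy => ?_
    rw [Metric.mem_closedBall, not_le] at hy
    simp only [Z, b.zero_of_le_dist hy.le, zero_smul]
  obtain ⟨P, hP, h0, hd, -⟩ :=
    Lib.Flow.exists_flow_of_hasCompactSupport (n := 2) (by simp) Z hZ hc
  have hfix : ∀ s y, P (s, (0, y)) = (0, y) := by
    intro s y
    have := Lib.Flow.curve_const (v := Z) (c := fun s => P (s, (0, y))) (t₀ := 0)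
      (hZ.contDiffAt.of_le (by norm_num)) (fun s => hd s _) (by simp [h0, Z]) s
    simpa [h0] using this
  have hfst : ∀ s p, (P (s, p)).1 = p.1 := by
    intro s p
    have hh : ∀ s, HasDerivAt (fun s => (P (s, p)).1) 0 s := fun s => by
      have := (ContinuousLinearMap.fst ℝ T G).hasFDerivAt.comp_hasDerivAt s (hd s p)
      simpa [Z, Function.comp_def] using this
    have := is_const_of_deriv_eq_zero (fun s => (hh s).differentiableAt) (fun s => (hh s).deriv) s 0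
    simpa [h0] using this
  have key : ∀ᶠ t in 𝓝 (0 : T), ∀ q ∈ Icc (0 : ℝ) 1 ×ˢ Metric.closedBall a ρ,
      P (q.1, (t, q.2)) ∈ Metric.ball ((0 : T), a) (2 * ρ) := by
    refine (isCompact_Icc.prod (isCompact_closedBall a ρ)).eventually_forall_of_forall_eventually
      fun q hq => ?_
    have hcn : Continuous fun z : T × ℝ × G => P (z.2.1, (z.1, z.2.2)) :=
      hP.continuous.comp (by fun_prop)
    refine hcn.continuousAt.eventually_mem (Metric.isOpen_ball.mem_nhds ?_)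
    simp only [hfix, ← ball_prod_same]
    exact ⟨Metric.mem_ball_self (by linarith), Metric.closedBall_subset_ball (by linarith) hq.2⟩
  obtain ⟨δ, hδ, hk⟩ := Metric.eventually_nhds_iff.1 key
  refine ⟨ρ, hρ', δ, hδ, fun y hy S hs hinv =>
    ⟨fun t => (P (1, (t, y))).2, by simp [hfix], fun t ht => ?_⟩⟩
  have hm : ∀ s ∈ Icc (0 : ℝ) 1, P (s, (t, y)) ∈ Metric.ball ((0 : T), a) (2 * ρ) := fun s hs' =>
    hk (y := t) ht (s, y) ⟨hs', Metric.ball_subset_closedBall hy⟩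
  have hΩ' : ∀ s ∈ Icc (0 : ℝ) 1, (P (s, (t, y))).2 ∈ Ω := fun s hs' =>
    hsub _ (Metric.ball_subset_closedBall (Metric.ball_subset_ball (by linarith) (hm s hs')))
  have hZe : ∀ s ∈ Icc (0 : ℝ) 1, Z =ᶠ[𝓝 (P (s, (t, y)))] fun p => (0, V p.2 p.1) := by
    intro s hs'
    filter_upwards [Metric.isOpen_ball.mem_nhds (hm s hs')] with p hp
    simp only [Z, b.one_of_mem_closedBall (Metric.ball_subset_closedBall hp), one_smul]
  have hS : ∀ s ∈ Icc (0 : ℝ) 1, (P (s, (t, y))).2 ∈ S := by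
    refine hinv t (fun s => (P (s, (t, y))).2) (by simp [h0]) fun s hs' => ⟨hΩ' s hs', ?_⟩
    have := (ContinuousLinearMap.snd ℝ T G).hasFDerivAt.comp_hasDerivAt s (hd s (t, y))
    rw [(hZe s hs').eq_of_nhds] at this
    simpa [hfst, Function.comp_def] using this
  refine ⟨hΩ' 1 ⟨zero_le_one, le_rfl⟩, hS 1 ⟨zero_le_one, le_rfl⟩, ?_⟩
  exact flow_deriv (Ω := Ω ∩ S) (Z := Z) (Q := fun w => P (w.1, (w.2, y))) (y := y)
    (fun y hy => (hV y hy.1).of_le (by norm_num)) (fun x hx => hs x hx.1 hx.2)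
    (hP.comp (by fun_prop)) (fun t => h0 _)
    (fun w => hfst _ _) (fun s t => hd s (t, y)) (fun s hs' => ⟨⟨hΩ' s hs', hS s hs'⟩, hZe s hs'⟩)

omit [FiniteDimensional ℝ T] [FiniteDimensional ℝ G] in
/-- Two solutions of `df = V f` on a convex set stay close. -/
theorem rigid {S : Set G} {V : G → T →L[ℝ] G} {K : ℝ}
    (hK : ∀ x ∈ S, ∀ x' ∈ S, ‖V x - V x'‖ ≤ K * ‖x - x'‖) {O : Set T} (hO : Convex ℝ O)
    {f g : T → G} (hf : ∀ t ∈ O, f t ∈ S ∧ HasFDerivAt f (V (f t)) t)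
    (hg : ∀ t ∈ O, g t ∈ S ∧ HasFDerivAt g (V (g t)) t) {a b : T} (ha : a ∈ O) (hb : b ∈ O) :
    ‖f b - g b‖ ≤ Real.exp (K * ‖b - a‖) * ‖f a - g a‖ := by
  set l : ℝ → T := fun s => a + s • (b - a) with hl
  have hlO : ∀ s ∈ Icc (0 : ℝ) 1, l s ∈ O := fun s hs => hO.add_smul_sub_mem ha hb hs
  have hld : ∀ s, HasDerivAt l (b - a) s := fun s => by
    simpa [hl] using ((hasDerivAt_id s).smul_const (b - a)).const_add a
  have hw : ∀ s ∈ Icc (0 : ℝ) 1, HasDerivAt (fun s => f (l s) - g (l s))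
      ((V (f (l s)) - V (g (l s))) (b - a)) s := fun s hs =>
    ((hf _ (hlO s hs)).2.comp_hasDerivAt s (hld s)).sub
      ((hg _ (hlO s hs)).2.comp_hasDerivAt s (hld s))
  have := norm_le_gronwallBound_of_norm_deriv_right_le (K := K * ‖b - a‖) (ε := 0)
    (δ := ‖f a - g a‖) (fun s hs => (hw s hs).continuousAt.continuousWithinAt)
    (fun s hs => (hw s (Ico_subset_Icc_self hs)).hasDerivWithinAt) (by simp [hl])
    (fun s hs => by
      have h1 := hK _ (hf _ (hlO s (Ico_subset_Icc_self hs))).1 _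
        (hg _ (hlO s (Ico_subset_Icc_self hs))).1
      calc _ ≤ ‖V (f (l s)) - V (g (l s))‖ * ‖b - a‖ := ContinuousLinearMap.le_opNorm _ _
        _ ≤ K * ‖f (l s) - g (l s)‖ * ‖b - a‖ := by gcongr
        _ = _ := by ring) 1 ⟨zero_le_one, le_rfl⟩
  rw [gronwallBound_ε0] at this
  simpa [hl, mul_comm] using this

/-- A family of smooth functions has, near a suitable point, finitely many members `f` such that
every member is a Lipschitz function of `f`. -/
theorem chart_rank {M : Set G} (hM : IsOpen M) (hne : M.Nonempty) (FF : Set (G → ℝ))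
    (hF : ∀ h ∈ FF, ContDiffOn ℝ 1 h M) :
    ∃ (k : ℕ) (f : G → Fin k → ℝ) (x₀ : G) (ρ : ℝ), 0 < ρ ∧ Metric.ball x₀ ρ ⊆ M ∧
      (∀ i, (fun x => f x i) ∈ FF) ∧
      ∀ (V : Type) [NormedAddCommGroup V] [NormedSpace ℝ V] (h : G → V), ContDiffOn ℝ 1 h M →
        (∀ l : V →L[ℝ] ℝ, (fun x => l (h x)) ∈ FF) →
        ∃ C, ∀ x ∈ Metric.ball x₀ ρ, ∀ y ∈ Metric.ball x₀ ρ, ‖h x - h y‖ ≤ C * ‖f x - f y‖ := by
  classical
  have : CompleteSpace G := FiniteDimensional.complete ℝ _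
  let Q : ℕ → Prop := fun k => ∃ (f : G → Fin k → ℝ) (x : G), x ∈ M ∧
    (∀ i, (fun x => f x i) ∈ FF) ∧ Function.Surjective (fderiv ℝ f x)
  have hQ0 : Q 0 := ⟨fun _ => Fin.elim0, hne.some, hne.some_mem, fun i => i.elim0,
    fun v => ⟨0, Subsingleton.elim _ _⟩⟩
  have hQb : ∀ k, Q k → k ≤ Module.finrank ℝ G := by
    rintro k ⟨f, x, -, -, hs⟩
    simpa using LinearMap.finrank_le_finrank_of_surjective
      (f := (fderiv ℝ f x : G →ₗ[ℝ] Fin k → ℝ)) hs
  obtain ⟨k, ⟨f, x₀, hx₀, hf, hs⟩, hmax⟩ : ∃ k, Q k ∧ ¬Q (k + 1) := by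
    refine ⟨Nat.findGreatest Q (Module.finrank ℝ G), Nat.findGreatest_spec (Nat.zero_le _) hQ0,
      fun h => ?_⟩
    exact absurd (Nat.le_findGreatest (hQb _ h) h) (by omega)
  have hfc : ContDiffOn ℝ 1 f M := contDiffOn_pi.2 fun i => hF _ (hf i)
  have hfd : ∀ x ∈ M, DifferentiableAt ℝ f x := fun x hx =>
    (hfc.contDiffAt (hM.mem_nhds hx)).differentiableAt one_ne_zero
  -- kernel inclusion
  have hker : ∀ x ∈ M, Function.Surjective (fderiv ℝ f x) → ∀ h ∈ FF, ∀ v,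
      fderiv ℝ f x v = 0 → fderiv ℝ h x v = 0 := by
    intro x hx hsx h hh v hv
    by_contra hne'
    have hhd : DifferentiableAt ℝ h x :=
      ((hF h hh).contDiffAt (hM.mem_nhds hx)).differentiableAt one_ne_zero
    refine hmax ⟨fun y => Fin.cons (h y) (f y), x, hx, fun i => ?_, fun w => ?_⟩
    · refine Fin.cases ?_ (fun j => ?_) i
      · simpa using hh
      · simpa using hf j
    · obtain ⟨v₁, hv₁⟩ := hsx (Fin.tail w)
      have hD : HasFDerivAt (fun y => (Fin.cons (h y) (f y) : Fin (k + 1) → ℝ))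
          (ContinuousLinearMap.pi (Fin.cons (fderiv ℝ h x)
            fun j => (ContinuousLinearMap.proj j).comp (fderiv ℝ f x))) x := by
        rw [hasFDerivAt_pi]
        intro i
        refine Fin.cases ?_ (fun j => ?_) i
        · simpa using hhd.hasFDerivAt
        · simpa using (hasFDerivAt_pi'.1 (hfd x hx).hasFDerivAt) j
      refine ⟨v₁ + ((w 0 - fderiv ℝ h x v₁) / fderiv ℝ h x v) • v, ?_⟩
      rw [hD.fderiv]
      funext i
      refine Fin.cases ?_ (fun j => ?_) i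
      · simp [div_mul_cancel₀ _ hne']
      · simp [hv, hv₁, Fin.tail]
  set D := fderiv ℝ f x₀ with hD
  obtain ⟨σ₀, hσ₀⟩ := LinearMap.exists_rightInverse_of_surjective (D : G →ₗ[ℝ] Fin k → ℝ)
    (LinearMap.range_eq_top.2 hs)
  set σ : (Fin k → ℝ) →L[ℝ] G := LinearMap.toContinuousLinearMap σ₀ with hσ
  have hDσ : ∀ w, D (σ w) = w := fun w => by simpa [hσ] using LinearMap.congr_fun hσ₀ w
  set F : G → G := fun x => σ (f x) + (x - σ (D x)) with hFdef
  have hDF : ∀ x, D (F x) = f x := fun x => by simp [hFdef, hDσ]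
  have hFc : ContDiffAt ℝ 1 F x₀ :=
    (σ.contDiff.contDiffAt.comp x₀ (hfc.contDiffAt (hM.mem_nhds hx₀))).add
      (contDiffAt_id.sub (σ.comp D).contDiff.contDiffAt)
  have hF' : HasFDerivAt F ((ContinuousLinearEquiv.refl ℝ G : G ≃L[ℝ] G) : G →L[ℝ] G) x₀ := by
    have := (σ.hasFDerivAt.comp x₀ (hfd x₀ hx₀).hasFDerivAt).add
      ((hasFDerivAt_id x₀).sub (σ.comp D).hasFDerivAt)
    refine this.congr_fderiv ?_
    ext v; simp [← hD]
  set Γ := hFc.localInverse hF' one_ne_zero with hΓ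
  have hΓc : ContDiffAt ℝ 1 Γ (F x₀) := hFc.to_localInverse hF' one_ne_zero
  have hst := hFc.hasStrictFDerivAt' hF' one_ne_zero
  have hl : ∀ᶠ x in 𝓝 x₀, Γ (F x) = x := hst.eventually_left_inverse
  have hr : ∀ᶠ w in 𝓝 (F x₀), F (Γ w) = w := hst.eventually_right_inverse
  have hΓ0 : Γ (F x₀) = x₀ := hl.self_of_nhds
  have hev : ∀ᶠ w in 𝓝 (F x₀), ContDiffAt ℝ 1 Γ w ∧ Γ w ∈ M ∧ ∀ᶠ w' in 𝓝 w, F (Γ w') = w' := by
    refine (hΓc.eventually (by simp)).and (Filter.Eventually.and ?_ hr.eventually_nhds)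
    exact hΓc.continuousAt.eventually_mem (hM.mem_nhds (hΓ0.symm ▸ hx₀))
  obtain ⟨R, hR, hB⟩ := Metric.nhds_basis_closedBall.mem_iff.1 hev
  set c : ℝ := 1 + 2 * ‖σ.comp D‖ with hc
  have hc0 : 1 ≤ c := by rw [hc]; linarith [norm_nonneg (σ.comp D)]
  have hev2 : ∀ᶠ x in 𝓝 x₀, x ∈ M ∧ Γ (F x) = x ∧ F x ∈ Metric.closedBall (F x₀) (R / c) :=
    Filter.Eventually.and (hM.mem_nhds hx₀) (hl.and
      (hFc.continuousAt.eventually_mem (Metric.closedBall_mem_nhds _ (by positivity))))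
  obtain ⟨ρ, hρ, hB2⟩ := Metric.eventually_nhds_iff_ball.1 hev2
  refine ⟨k, f, x₀, ρ, hρ, fun x hx => (hB2 x hx).1, hf, fun V _ _ h hh hl' => ?_⟩
  have hg : ∀ w ∈ Metric.closedBall (F x₀) R, ContDiffAt ℝ 1 (fun w => h (Γ w)) w := fun w hw =>
    (hh.contDiffAt (hM.mem_nhds (hB hw).2.1)).comp w (hB hw).1
  obtain ⟨K, hK⟩ := ContDiffOn.exists_lipschitzOnWith
    (fun w hw => (hg w hw).contDiffWithinAt) one_ne_zero (convex_closedBall _ _)
    (isCompact_closedBall (F x₀) R)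
  have hz : ∀ w ∈ Metric.closedBall (F x₀) R, ∀ κ, D κ = 0 →
      fderiv ℝ (fun w => h (Γ w)) w κ = 0 := by
    intro w hw κ hκ
    obtain ⟨h1, h2, h3⟩ := hB hw
    have hΓd := (h1.differentiableAt one_ne_zero).hasFDerivAt
    have hhd := ((hh.contDiffAt (hM.mem_nhds h2)).differentiableAt one_ne_zero).hasFDerivAt
    have e1 : (fderiv ℝ f (Γ w)).comp (fderiv ℝ Γ w) = D := by
      refine ((hfd _ h2).hasFDerivAt.comp w hΓd).unique (D.hasFDerivAt.congr_of_eventuallyEq ?_)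
      filter_upwards [h3] with w' hw'
      simp only [Function.comp_apply]
      rw [← hDF, hw']
    have e2 : Function.Surjective (fderiv ℝ f (Γ w)) := fun u =>
      ⟨fderiv ℝ Γ w (σ u), by rw [← ContinuousLinearMap.comp_apply, e1, hDσ]⟩
    have e3 : fderiv ℝ (fun w => h (Γ w)) w = (fderiv ℝ h (Γ w)).comp (fderiv ℝ Γ w) :=
      (hhd.comp w hΓd).fderiv
    rw [e3, ContinuousLinearMap.comp_apply]
    refine SeparatingDual.eq_zero_of_forall_dual_eq_zero (R := ℝ) fun l => ?_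
    have e4 := hker _ h2 e2 _ (hl' l) (fderiv ℝ Γ w κ)
      (by rw [← ContinuousLinearMap.comp_apply, e1, hκ])
    have e5 : fderiv ℝ (fun x => l (h x)) (Γ w) = l.comp (fderiv ℝ h (Γ w)) :=
      (l.hasFDerivAt.comp _ hhd).fderiv
    rwa [e5] at e4
  refine ⟨K * ‖σ‖, fun x hx y hy => ?_⟩
  obtain ⟨-, hx1, hx2⟩ := hB2 x hx
  obtain ⟨-, hy1, hy2⟩ := hB2 y hy
  have hRc : R / c ≤ R := div_le_self hR.le hc0
  set w := F y + σ (D (F x - F y)) with hw
  have hwB : w ∈ Metric.closedBall (F x₀) R := by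
    rw [mem_closedBall_iff_norm] at hx2 hy2 ⊢
    have a1 : ‖F x - F y‖ ≤ 2 * (R / c) := by
      calc ‖F x - F y‖ = ‖(F x - F x₀) - (F y - F x₀)‖ := by congr 1; abel
        _ ≤ _ := norm_sub_le _ _
        _ ≤ _ := by linarith
    have a2 : ‖σ (D (F x - F y))‖ ≤ ‖σ.comp D‖ * (2 * (R / c)) :=
      ((σ.comp D).le_opNorm _).trans (by gcongr)
    calc ‖w - F x₀‖ = ‖(F y - F x₀) + σ (D (F x - F y))‖ := by congr 1; rw [hw]; abel
      _ ≤ R / c + ‖σ.comp D‖ * (2 * (R / c)) := (norm_add_le _ _).trans (by gcongr)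
      _ = c * (R / c) := by rw [hc]; ring
      _ = R := by field_simp
  have hxB := Metric.closedBall_subset_closedBall hRc hx2
  have hyB := Metric.closedBall_subset_closedBall hRc hy2
  have b1 : h (Γ (F x)) = h (Γ w) := by
    set l : ℝ → G := fun s => w + s • (F x - w) with hl
    have hlO : ∀ s ∈ Icc (0 : ℝ) 1, l s ∈ Metric.closedBall (F x₀) R := fun s hs =>
      (convex_closedBall _ _).add_smul_sub_mem hwB hxB hs
    have hld : ∀ s, HasDerivAt l (F x - w) s := fun s => by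
      simpa [hl] using ((hasDerivAt_id s).smul_const (F x - w)).const_add w
    have hd : ∀ s ∈ Icc (0 : ℝ) 1, HasDerivAt (fun s => h (Γ (l s))) 0 s := fun s hs => by
      have := ((hg _ (hlO s hs)).differentiableAt one_ne_zero).hasFDerivAt.comp_hasDerivAt s (hld s)
      rwa [hz _ (hlO s hs) _ (by simp [hw, hDσ])] at this
    have := constant_of_has_deriv_right_zero
      (fun s hs => (hd s hs).continuousAt.continuousWithinAt)
      (fun s hs => (hd s (Ico_subset_Icc_self hs)).hasDerivWithinAt) 1 ⟨zero_le_one, le_rfl⟩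
    simpa [hl] using this
  have b2 := hK.dist_le_mul w hwB (F y) hyB
  rw [dist_eq_norm, dist_eq_norm, ← b1, hx1, hy1] at b2
  refine b2.trans ?_
  rw [mul_assoc]
  gcongr
  have : w - F y = σ (f x - f y) := by rw [hw, map_sub D, hDF, hDF]; abel
  rw [this]
  exact σ.le_opNorm _

end real

end Pool.Agent.CL
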