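import Pool.Agent.P.MP_63735c_ag.CLG1

/-! Lemma G, layer 2: Cartan's extension lemma for a smooth absolute parallelism. -/

open Set Filter Topology Metric
open scoped ContDiff

set_option linter.unusedSectionVars false

namespace Pool.Agent.CL

variable {W V : Type} [NormedAddCommGroup W] [NormedSpace ℝ W]
  [NormedAddCommGroup V] [NormedSpace ℝ V]

/-- A smooth frame `Ξ` with inverse `θ` and a smooth function `m` on the open set `M`. -/
structure Frame (M : Set W) (Ξ θ : W → W →L[ℝ] W) (m : W → V) : Prop where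
  isOpen : IsOpen M
  Ξ_sm : ContDiffOn ℝ ∞ Ξ M
  θ_sm : ContDiffOn ℝ ∞ θ M
  m_sm : ContDiffOn ℝ ∞ m M
  left : ∀ x ∈ M, ∀ v, θ x (Ξ x v) = v
  right : ∀ x ∈ M, ∀ v, Ξ x (θ x v) = v

/-- A local automorphism of the frame that keeps `m`. -/
structure IsAut (M : Set W) (Ξ θ : W → W →L[ℝ] W) (m : W → V) (φ : W → W) (O : Set W) : Prop where
  isOpen : IsOpen O
  sub : O ⊆ M
  maps : MapsTo φ O M
  der : ∀ y ∈ O, HasFDerivAt φ ((Ξ (φ y)).comp (θ y)) y
  m_eq : ∀ y ∈ O, m (φ y) = m y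

/-- Smooth functions kept by all local automorphisms. -/
def FInv (M : Set W) (Ξ θ : W → W →L[ℝ] W) (m : W → V) : Set (W → ℝ) :=
  {h | ContDiffOn ℝ ∞ h M ∧ ∀ φ O, IsAut M Ξ θ m φ O → ∀ y ∈ O, h (φ y) = h y}

/-- All invariants agree at `p` and `q`. -/
def FRel (M : Set W) (Ξ θ : W → W →L[ℝ] W) (m : W → V) (p q : W) : Prop :=
  ∀ h ∈ FInv M Ξ θ m, h p = h q

/-- The structure functions. -/
noncomputable def strf (Ξ θ : W → W →L[ℝ] W) (a b x : W) : W :=
  θ x (fderiv ℝ Ξ x (Ξ x a) b - fderiv ℝ Ξ x (Ξ x b) a)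

variable {M : Set W} {Ξ θ : W → W →L[ℝ] W} {m : W → V}

lemma FRel.symm {p q : W} (h : FRel M Ξ θ m p q) : FRel M Ξ θ m q p := fun f hf => (h f hf).symm

lemma IsAut.rel {φ : W → W} {O : Set W} (h : IsAut M Ξ θ m φ O) {y : W} (hy : y ∈ O) :
    FRel M Ξ θ m y (φ y) := fun _ hf => (hf.2 φ O h y hy).symm

lemma finv_vec {V' : Type} [NormedAddCommGroup V'] [NormedSpace ℝ V'] {h : W → V'}
    (hs : ContDiffOn ℝ ∞ h M) (hi : ∀ φ O, IsAut M Ξ θ m φ O → ∀ y ∈ O, h (φ y) = h y)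
    (l : V' →L[ℝ] ℝ) : (fun x => l (h x)) ∈ FInv M Ξ θ m :=
  ⟨l.contDiff.comp_contDiffOn hs, fun φ O hφ y hy => by simp only [hi φ O hφ y hy]⟩

namespace Frame

variable (F : Frame M Ξ θ m)
include F

lemma dΞ {x : W} (hx : x ∈ M) : HasFDerivAt Ξ (fderiv ℝ Ξ x) x :=
  ((F.Ξ_sm.contDiffAt (F.isOpen.mem_nhds hx)).differentiableAt (by simp)).hasFDerivAt

lemma dθ {x : W} (hx : x ∈ M) : HasFDerivAt θ (fderiv ℝ θ x) x :=
  ((F.θ_sm.contDiffAt (F.isOpen.mem_nhds hx)).differentiableAt (by simp)).hasFDerivAt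

lemma dθ_eq {y : W} (hy : y ∈ M) (s t : W) :
    fderiv ℝ θ y s t = -θ y (fderiv ℝ Ξ y s (θ y t)) := by
  have h1 := (F.dΞ hy).clm_apply ((F.dθ hy).clm_apply (hasFDerivAt_const t y))
  have h2 : HasFDerivAt (fun y => Ξ y (θ y t)) (0 : W →L[ℝ] W) y := by
    refine (hasFDerivAt_const t y).congr_of_eventuallyEq ?_
    filter_upwards [F.isOpen.mem_nhds hy] with x hx using F.right x hx t
  have h3 := congrArg (fun L : W →L[ℝ] W => θ y (L s)) (h1.unique h2)
  simp only [add_apply, ContinuousLinearMap.comp_apply, ContinuousLinearMap.flip_apply, map_add,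
    F.left y hy, zero_apply, map_zero, zero_add] at h3
  exact eq_neg_of_add_eq_zero_left h3

lemma asym {x y : W} (hx : x ∈ M) (hy : y ∈ M) (s t : W) :
    (fderiv ℝ Ξ x (Ξ x (θ y s)) (θ y t) + Ξ x (fderiv ℝ θ y s t)) -
      (fderiv ℝ Ξ x (Ξ x (θ y t)) (θ y s) + Ξ x (fderiv ℝ θ y t s)) =
      Ξ x (strf Ξ θ (θ y s) (θ y t) x - strf Ξ θ (θ y s) (θ y t) y) := by
  simp only [F.dθ_eq hy, strf, map_sub, F.right x hx, F.right y hy, map_neg]
  abel

lemma strf_sm (a b : W) : ContDiffOn ℝ ∞ (strf Ξ θ a b) M := by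
  have h1 : ContDiffOn ℝ ∞ (fderiv ℝ Ξ) M := F.Ξ_sm.fderiv_of_isOpen F.isOpen (by simp)
  exact F.θ_sm.clm_apply
    (((h1.clm_apply (F.Ξ_sm.clm_apply contDiffOn_const)).clm_apply contDiffOn_const).sub
      ((h1.clm_apply (F.Ξ_sm.clm_apply contDiffOn_const)).clm_apply contDiffOn_const))

lemma strf_inv (a b : W) (φ : W → W) (O : Set W) (h : IsAut M Ξ θ m φ O) (y : W) (hy : y ∈ O) :
    strf Ξ θ a b (φ y) = strf Ξ θ a b y := by
  have hyM := h.sub hy
  have hx := h.maps hy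
  have h1 := ((F.dΞ hx).comp y (h.der y hy)).clm_comp (F.dθ hyM)
  have h2 := second_derivative_symmetric_of_eventually_of_real
    (f' := fun y => (Ξ (φ y)).comp (θ y))
    (Filter.eventually_of_mem (h.isOpen.mem_nhds hy) fun z hz => h.der z hz) h1 (Ξ y a) (Ξ y b)
  have h3 := F.asym hx hyM (Ξ y a) (Ξ y b)
  simp only [F.left y hyM] at h3
  simp only [add_apply, ContinuousLinearMap.comp_apply, ContinuousLinearMap.flip_apply,
    ContinuousLinearMap.compL_apply, Function.comp_apply, F.left y hyM] at h2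
  rw [add_comm, add_comm (fderiv ℝ Ξ (φ y) _ a), h2, sub_self] at h3
  have h4 := congrArg (θ (φ y)) h3
  rw [F.left _ hx, map_zero] at h4
  exact sub_eq_zero.1 h4.symm

lemma der_inv {V' : Type} [NormedAddCommGroup V'] [NormedSpace ℝ V'] {f : W → V'}
    (hs : ContDiffOn ℝ ∞ f M) (hi : ∀ φ O, IsAut M Ξ θ m φ O → ∀ y ∈ O, f (φ y) = f y)
    (φ : W → W) (O : Set W) (h : IsAut M Ξ θ m φ O) (y : W) (hy : y ∈ O) :
    (fderiv ℝ f (φ y)).comp (Ξ (φ y)) = (fderiv ℝ f y).comp (Ξ y) := by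
  have h1 := (((hs.contDiffAt (F.isOpen.mem_nhds (h.maps hy))).differentiableAt
    (by simp)).hasFDerivAt).comp y (h.der y hy)
  have h2 : HasFDerivAt f ((fderiv ℝ f (φ y)).comp ((Ξ (φ y)).comp (θ y))) y := by
    refine h1.congr_of_eventuallyEq ?_
    filter_upwards [h.isOpen.mem_nhds hy] with z hz using (hi φ O h z hz).symm
  rw [h2.fderiv]
  ext v
  simp [F.left y (h.sub hy)]

/-- Cartan's lemma: near a suitable point, two points with the same invariants are joined by an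
automorphism defined on a ball of fixed radius. -/
theorem cartan [FiniteDimensional ℝ W] {M' : Set W} (hM' : IsOpen M') (hne : M'.Nonempty)
    (hsub : M' ⊆ M) : ∃ p₀ ∈ M', ∃ ρ > 0, ∃ r > 0, ∀ p ∈ ball p₀ ρ, ∀ q ∈ ball p₀ ρ,
      FRel M Ξ θ m p q → ∃ ψ, IsAut M Ξ θ m ψ (ball p r) ∧ ψ p = q ∧ ball p r ⊆ M' ∧
        MapsTo ψ (ball p r) M' := by
  obtain ⟨k, f, x₀, ρ₀, hρ₀, hB, hf, hL⟩ := chart_rank hM' hne (FInv M Ξ θ m)
    fun h hh => (hh.1.mono hsub).of_le (by simp)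
  have hfs : ContDiffOn ℝ ∞ f M := contDiffOn_pi.2 fun i => (hf i).1
  have hfi : ∀ φ O, IsAut M Ξ θ m φ O → ∀ y ∈ O, f (φ y) = f y := fun φ O h y hy =>
    funext fun i => (hf i).2 φ O h y hy
  have hBM : ball x₀ ρ₀ ⊆ M := hB.trans hsub
  have heq : ∀ (V' : Type) [NormedAddCommGroup V'] [NormedSpace ℝ V'] (h : W → V'),
      ContDiffOn ℝ ∞ h M → (∀ φ O, IsAut M Ξ θ m φ O → ∀ y ∈ O, h (φ y) = h y) →
      ∀ x ∈ ball x₀ ρ₀, ∀ y ∈ ball x₀ ρ₀, f x = f y → h x = h y := by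
    intro V' _ _ h hs hi x hx y hy hxy
    obtain ⟨C, hC⟩ := hL V' h ((hs.mono hsub).of_le (by simp)) (finv_vec hs hi)
    have := hC x hx y hy
    rw [hxy, sub_self, norm_zero, mul_zero] at this
    exact sub_eq_zero.1 (norm_le_zero_iff.1 this)
  have hgs : ContDiffOn ℝ ∞ (fun x => (fderiv ℝ f x).comp (Ξ x)) M :=
    (hfs.fderiv_of_isOpen F.isOpen (by simp)).clm_comp F.Ξ_sm
  obtain ⟨C, hC⟩ := hL _ (fun x => (fderiv ℝ f x).comp (Ξ x)) ((hgs.mono hsub).of_le (by simp))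
    (finv_vec hgs (F.der_inv hfs hfi))
  set Vf : W × W → W →L[ℝ] W × W := fun z =>
    ((Ξ z.1).comp (θ z.2)).prod (ContinuousLinearMap.id ℝ W) with hVf
  have hVe : Vf = fun z => (ContinuousLinearMap.inl ℝ W W).comp ((Ξ z.1).comp (θ z.2)) +
      ContinuousLinearMap.inr ℝ W W := by
    funext z; ext v <;> simp [hVf]
  have hVs : ∀ z ∈ ball x₀ ρ₀ ×ˢ ball x₀ ρ₀, ContDiffAt ℝ 2 Vf z := by
    intro z hz
    rw [hVe]
    have a1 : ContDiffAt ℝ 2 (fun z : W × W => Ξ z.1) z :=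
      ((F.Ξ_sm.contDiffAt (F.isOpen.mem_nhds (hBM hz.1))).of_le (by norm_cast)).comp z contDiffAt_fst
    have a2 : ContDiffAt ℝ 2 (fun z : W × W => θ z.2) z :=
      ((F.θ_sm.contDiffAt (F.isOpen.mem_nhds (hBM hz.2))).of_le (by norm_cast)).comp z contDiffAt_snd
    exact (contDiffAt_const.clm_comp (a1.clm_comp a2)).add contDiffAt_const
  obtain ⟨r₁, hr₁, δ, hδ, hfr⟩ := frob_inv (isOpen_ball.prod isOpen_ball) hVs (a := (x₀, x₀))
    ⟨mem_ball_self hρ₀, mem_ball_self hρ₀⟩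
  refine ⟨x₀, hB (mem_ball_self hρ₀), r₁, hr₁, δ, hδ, fun p hp q hq hpq => ?_⟩
  obtain ⟨Φ, hΦ0, hΦ⟩ := hfr (q, p) (by rw [← ball_prod_same]; exact ⟨hq, hp⟩)
    {z | f z.1 = f z.2} (by
      intro z hz hS s t
      have a1 : HasFDerivAt (fun z : W × W => Ξ z.1)
          ((fderiv ℝ Ξ z.1).comp (ContinuousLinearMap.fst ℝ W W)) z :=
        HasFDerivAt.comp z (f := fun z : W × W => z.1) (F.dΞ (hBM hz.1)) hasFDerivAt_fst
      have a2 : HasFDerivAt (fun z : W × W => θ z.2)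
          ((fderiv ℝ θ z.2).comp (ContinuousLinearMap.snd ℝ W W)) z :=
        HasFDerivAt.comp z (f := fun z : W × W => z.2) (F.dθ (hBM hz.2)) hasFDerivAt_snd
      have a3 := ((hasFDerivAt_const (ContinuousLinearMap.inl ℝ W W) z).clm_comp
        (a1.clm_comp a2)).add_const (ContinuousLinearMap.inr ℝ W W)
      rw [← hVe] at a3
      have a4 := F.asym (hBM hz.1) (hBM hz.2) s t
      rw [heq W _ (F.strf_sm _ _) (F.strf_inv _ _) _ hz.1 _ hz.2 hS, sub_self, map_zero,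
        sub_eq_zero] at a4
      rw [a3.fderiv]
      simp only [hVf]
      simp
      rw [add_comm, a4, add_comm]) (by
      intro t c hc0 hc
      have hw : ∀ s ∈ Icc (0 : ℝ) 1, HasDerivAt (fun s => f (c s).1 - f (c s).2)
          (((fderiv ℝ f (c s).1).comp (Ξ (c s).1) - (fderiv ℝ f (c s).2).comp (Ξ (c s).2))
            (θ (c s).2 t)) s := by
        intro s hs
        obtain ⟨hm, hd⟩ := hc s hs
        have b0 : ∀ x ∈ M, HasFDerivAt f (fderiv ℝ f x) x := fun x hx =>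
          ((hfs.contDiffAt (F.isOpen.mem_nhds hx)).differentiableAt (by simp)).hasFDerivAt
        have b1 := (b0 _ (hBM hm.1)).comp_hasDerivAt s
          ((ContinuousLinearMap.fst ℝ W W).hasFDerivAt.comp_hasDerivAt s hd)
        have b2 := (b0 _ (hBM hm.2)).comp_hasDerivAt s
          ((ContinuousLinearMap.snd ℝ W W).hasFDerivAt.comp_hasDerivAt s hd)
        refine (b1.sub b2).congr_deriv ?_
        simp [hVf, F.right _ (hBM hm.2)]
      have hcn : ContinuousOn (fun s => θ (c s).2 t) (Icc (0 : ℝ) 1) := fun s hs =>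
        (((F.dθ (hBM (hc s hs).1.2)).continuousAt.comp (f := fun s => (c s).2)
          (hc s hs).2.continuousAt.snd).clm_apply continuousAt_const).continuousWithinAt
      obtain ⟨B, hB'⟩ := isCompact_Icc.exists_bound_of_continuousOn hcn
      have hz := eq_zero_of_abs_deriv_le_mul_abs_self_of_eq_zero_right (K := max C 0 * B)
        (fun s hs => (hw s hs).continuousAt.continuousWithinAt)
        (fun s hs => (hw s (Ico_subset_Icc_self hs)).hasDerivWithinAt)
        (by rw [hc0]; exact sub_eq_zero.2 (funext fun i => (hpq _ (hf i)).symm))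
        (fun s hs => by
          have hs' := Ico_subset_Icc_self hs
          have c1 := hC _ (hc s hs').1.1 _ (hc s hs').1.2
          have c2 := hB' s hs'
          calc _ ≤ _ := ContinuousLinearMap.le_opNorm _ _
            _ ≤ (max C 0 * ‖f (c s).1 - f (c s).2‖) * B := by
                gcongr
                exact c1.trans (by gcongr; exact le_max_left _ _)
            _ = _ := by ring)
      exact fun s hs => sub_eq_zero.1 (hz s hs))
  have h2 : ∀ t ∈ ball (0 : W) δ, (Φ t).2 = p + t := by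
    intro t ht
    have hd : ∀ t ∈ ball (0 : W) δ, HasFDerivAt (fun t => (Φ t).2 - t) (0 : W →L[ℝ] W) t := by
      intro t ht
      refine (((ContinuousLinearMap.snd ℝ W W).hasFDerivAt.comp t (hΦ t ht).2.2).sub
        (hasFDerivAt_id t)).congr_fderiv ?_
      ext v; simp [hVf]
    have := (convex_ball (0 : W) δ).norm_image_sub_le_of_norm_hasFDerivWithin_le (C := 0)
      (fun t ht => (hd t ht).hasFDerivWithinAt) (fun _ _ => by simp) (mem_ball_self hδ) ht
    simp only [hΦ0, sub_zero, zero_mul, norm_le_zero_iff] at this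
    rw [← sub_eq_zero, ← this]; abel
  have hmem : ∀ y ∈ ball p δ, y - p ∈ ball (0 : W) δ := fun y hy => by
    simpa [dist_eq_norm] using hy
  have h3 : ∀ y ∈ ball p δ, (Φ (y - p)).2 = y := fun y hy => by rw [h2 _ (hmem y hy)]; abel
  have h4 : ∀ y ∈ ball p δ, y ∈ ball x₀ ρ₀ := fun y hy => h3 y hy ▸ (hΦ _ (hmem y hy)).1.2
  refine ⟨fun y => (Φ (y - p)).1, ⟨isOpen_ball, fun y hy => hBM (h4 y hy),
    fun y hy => hBM (hΦ _ (hmem y hy)).1.1, fun y hy => ?_, fun y hy => ?_⟩, by simp [hΦ0],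
    fun y hy => hB (h4 y hy), fun y hy => hB (hΦ _ (hmem y hy)).1.1⟩
  · have := (ContinuousLinearMap.fst ℝ W W).hasFDerivAt.comp y
      (HasFDerivAt.comp y (f := fun y => y - p) (hΦ _ (hmem y hy)).2.2
        ((hasFDerivAt_id y).sub_const p))
    refine this.congr_fderiv ?_
    ext v; simp [hVf, h3 y hy]
  · refine heq V m F.m_sm (fun φ O h y hy => h.m_eq y hy) _ (hΦ _ (hmem y hy)).1.1 _ (h4 y hy) ?_
    have := (hΦ _ (hmem y hy)).2.1
    simpa [h3 y hy] using this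

end Frame

end Pool.Agent.CL
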