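import Pool.Agent.P.MP_63735c_ag.CLG2

/-! Lemma G, layer 3: maps that keep a connection and a tensor. Extension and rigidity. -/

open Set Filter Topology Metric
open scoped ContDiff

set_option linter.unusedSectionVars false

namespace Pool.Agent.CL

variable {B V : Type} [NormedAddCommGroup B] [NormedSpace ℝ B] [FiniteDimensional ℝ B]
  [NormedAddCommGroup V] [NormedSpace ℝ V]

/-- The second derivative of an affine map with 1-jet x, U at `y`. -/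
noncomputable def affD (Γ : B → B →L[ℝ] B →L[ℝ] B) (y x : B) (U : B →L[ℝ] B) :
    B →L[ℝ] B →L[ℝ] B :=
  (ContinuousLinearMap.mul ℝ (B →L[ℝ] B) U).comp (Γ y) -
    ((ContinuousLinearMap.mul ℝ (B →L[ℝ] B)).flip U).comp ((Γ x).comp U)

lemma affD_apply (Γ : B → B →L[ℝ] B →L[ℝ] B) (y x : B) (U : B →L[ℝ] B) (e : B) :
    affD Γ y x U e = U * Γ y e - Γ x (U e) * U := by simp [affD]

/-- `γ`, with derivative `U`, keeps the connection `Γ` and the tensor `t` on `O`. -/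
structure IsAff (T : Set B) (Γ : B → B →L[ℝ] B →L[ℝ] B) (t : B → B →L[ℝ] B →L[ℝ] V)
    (γ : B → B) (U : B → B →L[ℝ] B) (O : Set B) : Prop where
  isOpen : IsOpen O
  sub : O ⊆ T
  maps : MapsTo γ O T
  der : ∀ y ∈ O, HasFDerivAt γ (U y) y
  der2 : ∀ y ∈ O, HasFDerivAt U (affD Γ y (γ y) (U y)) y
  unit : ∀ y ∈ O, IsUnit (U y)
  t_eq : ∀ y ∈ O, ∀ u v, t (γ y) (U y u) (U y v) = t y u v

/-- The canonical parallelism of the frame bundle. -/
noncomputable def frXi (Γ : B → B →L[ℝ] B →L[ℝ] B) (p : B × (B →L[ℝ] B)) :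
    B × (B →L[ℝ] B) →L[ℝ] B × (B →L[ℝ] B) :=
  (p.2.comp (ContinuousLinearMap.fst ℝ _ _)).prod
    ((ContinuousLinearMap.mul ℝ (B →L[ℝ] B) p.2).comp (ContinuousLinearMap.snd ℝ _ _) -
      ((ContinuousLinearMap.mul ℝ (B →L[ℝ] B)).flip p.2).comp
        ((Γ p.1).comp (p.2.comp (ContinuousLinearMap.fst ℝ _ _))))

/-- Its inverse. -/
noncomputable def frTh (Γ : B → B →L[ℝ] B →L[ℝ] B) (p : B × (B →L[ℝ] B)) :
    B × (B →L[ℝ] B) →L[ℝ] B × (B →L[ℝ] B) :=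
  ((Ring.inverse p.2).comp (ContinuousLinearMap.fst ℝ _ _)).prod
    ((ContinuousLinearMap.mul ℝ (B →L[ℝ] B) (Ring.inverse p.2)).comp
      (ContinuousLinearMap.snd ℝ _ _ + ((ContinuousLinearMap.mul ℝ (B →L[ℝ] B)).flip p.2).comp
        ((Γ p.1).comp (ContinuousLinearMap.fst ℝ _ _))))

/-- The tensor read in a frame. -/
noncomputable def frM (t : B → B →L[ℝ] B →L[ℝ] V) (p : B × (B →L[ℝ] B)) : B →L[ℝ] B →L[ℝ] V :=
  (t p.1).bilinearComp p.2 p.2

variable {T : Set B} {Γ : B → B →L[ℝ] B →L[ℝ] B} {t : B → B →L[ℝ] B →L[ℝ] V}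

lemma frXi_apply (p w : B × (B →L[ℝ] B)) :
    frXi Γ p w = (p.2 w.1, p.2 * w.2 - Γ p.1 (p.2 w.1) * p.2) := by simp [frXi]

lemma frTh_apply (p w : B × (B →L[ℝ] B)) :
    frTh Γ p w = (Ring.inverse p.2 w.1, Ring.inverse p.2 * (w.2 + Γ p.1 w.1 * p.2)) := by
  simp [frTh, mul_add]

lemma unit_left {F : B →L[ℝ] B} (h : IsUnit F) (v : B) : Ring.inverse F (F v) = v := by
  rw [← mul_apply_eq_comp, Ring.inverse_mul_cancel _ h]; rfl

lemma unit_right {F : B →L[ℝ] B} (h : IsUnit F) (v : B) : F (Ring.inverse F v) = v := by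
  rw [← mul_apply_eq_comp, Ring.mul_inverse_cancel _ h]; rfl

lemma frame_fr (hT : IsOpen T) (hΓ : ContDiffOn ℝ ∞ Γ T) (ht : ContDiffOn ℝ ∞ t T) :
    Frame (T ×ˢ {F : B →L[ℝ] B | IsUnit F}) (frXi Γ) (frTh Γ) (frM t) := by
  have : CompleteSpace B := FiniteDimensional.complete ℝ _
  have h1 : ContDiffOn ℝ ∞ (fun p : B × (B →L[ℝ] B) => Γ p.1) (T ×ˢ {F | IsUnit F}) :=
    hΓ.comp contDiffOn_fst fun p hp => hp.1
  have h2 : ContDiffOn ℝ ∞ (fun p : B × (B →L[ℝ] B) => t p.1) (T ×ˢ {F | IsUnit F}) :=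
    ht.comp contDiffOn_fst fun p hp => hp.1
  have h3 : ContDiffOn ℝ ∞ (fun p : B × (B →L[ℝ] B) => Ring.inverse p.2) (T ×ˢ {F | IsUnit F}) := by
    intro p hp
    obtain ⟨u, hu⟩ := hp.2
    have := contDiffAt_ringInverse ℝ (n := ∞) u
    rw [hu] at this
    exact (this.comp p contDiffAt_snd).contDiffWithinAt
  refine ⟨hT.prod Units.isOpen, ?_, ?_, ?_, fun p hp v => ?_, fun p hp v => ?_⟩
  · refine contDiffOn_clm_apply.2 fun w => ?_
    simp only [frXi_apply]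
    exact (contDiffOn_snd.clm_apply contDiffOn_const).prodMk
      ((contDiffOn_snd.mul contDiffOn_const).sub
        ((h1.clm_apply (contDiffOn_snd.clm_apply contDiffOn_const)).mul contDiffOn_snd))
  · refine contDiffOn_clm_apply.2 fun w => ?_
    simp only [frTh_apply]
    exact (h3.clm_apply contDiffOn_const).prodMk
      (h3.mul (contDiffOn_const.add ((h1.clm_apply contDiffOn_const).mul contDiffOn_snd)))
  · refine contDiffOn_clm_apply.2 fun u => contDiffOn_clm_apply.2 fun v => ?_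
    simp only [frM, ContinuousLinearMap.bilinearComp_apply]
    exact (h2.clm_apply (contDiffOn_snd.clm_apply contDiffOn_const)).clm_apply
      (contDiffOn_snd.clm_apply contDiffOn_const)
  · rw [frXi_apply, frTh_apply]
    simp only [unit_left hp.2, sub_add_cancel, ← mul_assoc, Ring.inverse_mul_cancel _ hp.2, one_mul]
  · rw [frTh_apply, frXi_apply]
    simp only [unit_right hp.2, ← mul_assoc, Ring.mul_inverse_cancel _ hp.2, one_mul,
      add_sub_cancel_right]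

lemma IsAff.prolong {γ : B → B} {U : B → B →L[ℝ] B} {O : Set B} (h : IsAff T Γ t γ U O) :
    IsAut (T ×ˢ {F : B →L[ℝ] B | IsUnit F}) (frXi Γ) (frTh Γ) (frM t)
      (fun p => (γ p.1, U p.1 * p.2)) (O ×ˢ {F : B →L[ℝ] B | IsUnit F}) := by
  have : CompleteSpace B := FiniteDimensional.complete ℝ _
  refine ⟨h.isOpen.prod Units.isOpen, fun p hp => ⟨h.sub hp.1, hp.2⟩,
    fun p hp => ⟨h.maps hp.1, (h.unit _ hp.1).mul hp.2⟩, fun p hp => ?_, fun p hp => ?_⟩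
  · have a1 := HasFDerivAt.comp p (f := fun p : B × (B →L[ℝ] B) => p.1) (h.der _ hp.1)
      hasFDerivAt_fst
    have a2 := HasFDerivAt.comp p (f := fun p : B × (B →L[ℝ] B) => p.1) (h.der2 _ hp.1)
      hasFDerivAt_fst
    refine (a1.prodMk (a2.mul' hasFDerivAt_snd)).congr_fderiv ?_
    refine ContinuousLinearMap.ext fun w => ?_
    rw [ContinuousLinearMap.comp_apply, frTh_apply, frXi_apply]
    have e1 : U p.1 * p.2 * (Ring.inverse p.2 * (w.2 + Γ p.1 w.1 * p.2)) =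
        U p.1 * (w.2 + Γ p.1 w.1 * p.2) := by
      rw [mul_assoc, ← mul_assoc p.2, Ring.mul_inverse_cancel _ hp.2, one_mul]
    simp only [mul_apply_eq_comp, unit_right hp.2, e1]
    simp [affD_apply]
    noncomm_ring
  · ext u v
    simp [frM, h.t_eq _ hp.1]

lemma IsAut.slice {ψ : B × (B →L[ℝ] B) → B × (B →L[ℝ] B)} {y : B} {F : B →L[ℝ] B} {r : ℝ}
    (h : IsAut (T ×ˢ {F : B →L[ℝ] B | IsUnit F}) (frXi Γ) (frTh Γ) (frM t) ψ (ball (y, F) r)) :
    IsAff T Γ t (fun x => (ψ (x, F)).1) (fun x => (ψ (x, F)).2 * Ring.inverse F) (ball y r) := by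
  have hm : ∀ x ∈ ball y r, (x, F) ∈ ball (y, F) r := fun x hx => by
    rw [← ball_prod_same]; exact ⟨hx, mem_ball_self (pos_of_mem_ball hx)⟩
  have hd : ∀ x ∈ ball y r, HasFDerivAt (fun x => ψ (x, F))
      (((frXi Γ (ψ (x, F))).comp (frTh Γ (x, F))).comp (ContinuousLinearMap.inl ℝ _ _)) x :=
    fun x hx => (h.der _ (hm x hx)).comp x (hasFDerivAt_prodMk_left x F)
  refine ⟨isOpen_ball, fun x hx => (h.sub (hm x hx)).1, fun x hx => (h.maps (hm x hx)).1,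
    fun x hx => ?_, fun x hx => ?_, fun x hx => ?_, fun x hx u v => ?_⟩
  · refine (hd x hx).fst.congr_fderiv ?_
    ext e
    simp [frXi_apply, frTh_apply]
  · have hF : IsUnit F := (h.sub (hm x hx)).2
    refine ((hd x hx).snd.mul_const' (Ring.inverse F)).congr_fderiv ?_
    refine ContinuousLinearMap.ext fun e => ?_
    simp [frXi_apply, frTh_apply, affD_apply, sub_mul, mul_assoc, Ring.mul_inverse_cancel _ hF]
  · exact IsUnit.mul (h.maps (hm x hx)).2 (IsUnit.ringInverse (h.sub (hm x hx)).2)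
  · have hF : IsUnit F := (h.sub (hm x hx)).2
    have := congrArg (fun L : B →L[ℝ] B →L[ℝ] V => L (Ring.inverse F u) (Ring.inverse F v))
      (h.m_eq _ (hm x hx))
    simpa [frM, unit_right hF] using this

/-- Germs with a small jet extend to a ball of fixed radius, and so do their inverses. -/
theorem aff_ext (hT : IsOpen T) (hΓ : ContDiffOn ℝ ∞ Γ T) (ht : ContDiffOn ℝ ∞ t T) {T' : Set B}
    (hT' : IsOpen T') (hne : T'.Nonempty) (hsub : T' ⊆ T) :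
    ∃ y₀ ∈ T', ∃ ρ > 0, ∃ r > 0, ∃ C : ℝ, 1 ≤ C ∧ ∀ γ U O, IsAff T Γ t γ U O → ∀ y ∈ O,
      y ∈ ball y₀ ρ → γ y ∈ ball y₀ ρ → ‖U y - 1‖ < ρ →
      (∃ γ' U', IsAff T Γ t γ' U' (ball y r) ∧ γ' y = γ y ∧ U' y = U y ∧ ball y r ⊆ T' ∧
        ∀ x ∈ ball y r, γ' x ∈ T' ∧ ‖U' x‖ ≤ C) ∧
      ∃ γ' U', IsAff T Γ t γ' U' (ball (γ y) r) ∧ γ' (γ y) = y ∧ U' (γ y) * U y = 1 ∧
        ∀ x ∈ ball (γ y) r, γ' x ∈ T' ∧ ‖U' x‖ ≤ C := by
  have : CompleteSpace B := FiniteDimensional.complete ℝ _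
  have hu : ∀ F ∈ closedBall (1 : B →L[ℝ] B) (1 / 2), IsUnit F := by
    intro F hF
    rw [mem_closedBall_iff_norm'] at hF
    have := isUnit_one_sub_of_norm_lt_one (x := 1 - F) (by linarith)
    rwa [sub_sub_cancel] at this
  have hcn : ContinuousOn (fun F : B →L[ℝ] B => Ring.inverse F) (closedBall 1 (1 / 2)) := by
    intro F hF
    obtain ⟨u, rfl⟩ := hu F hF
    exact (contDiffAt_ringInverse ℝ (n := 0) u).continuousAt.continuousWithinAt
  obtain ⟨C, hC⟩ := (isCompact_closedBall (1 : B →L[ℝ] B) (1 / 2)).exists_bound_of_continuousOn hcn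
  obtain ⟨⟨y₀, F₀⟩, hp₀, ρ, hρ, r, hr, H⟩ := (frame_fr hT hΓ ht).cartan
    (M' := T' ×ˢ ball 1 (1 / 2)) (hT'.prod isOpen_ball)
    (hne.prod ⟨1, mem_ball_self (by norm_num)⟩)
    fun p hp => ⟨hsub hp.1, hu _ (ball_subset_closedBall hp.2)⟩
  have hb : ∀ F ∈ ball (1 : B →L[ℝ] B) (1 / 2), ‖F‖ ≤ 2 := fun F hF => by
    rw [mem_ball_iff_norm] at hF
    calc ‖F‖ = ‖(F - 1) + 1‖ := by rw [sub_add_cancel]
      _ ≤ ‖F - 1‖ + ‖(1 : B →L[ℝ] B)‖ := norm_add_le _ _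
      _ ≤ 1 / 2 + 1 := add_le_add hF.le ContinuousLinearMap.norm_id_le
      _ ≤ 2 := by norm_num
  have hF₀ : IsUnit F₀ := hu _ (ball_subset_closedBall hp₀.2)
  have main : ∀ y y' F F', (y, F) ∈ ball (y₀, F₀) ρ → (y', F') ∈ ball (y₀, F₀) ρ →
      FRel (T ×ˢ {F : B →L[ℝ] B | IsUnit F}) (frXi Γ) (frTh Γ) (frM t) (y, F) (y', F') →
      ∃ γ' U', IsAff T Γ t γ' U' (ball y r) ∧ γ' y = y' ∧ U' y * F = F' ∧ ball y r ⊆ T' ∧
        ∀ x ∈ ball y r, γ' x ∈ T' ∧ ‖U' x‖ ≤ max 1 (2 * C) := by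
    intro y y' F F' h1 h2 h3
    obtain ⟨ψ, hψ, he, hs, hm⟩ := H _ h1 _ h2 h3
    have hmem : ∀ x ∈ ball y r, (x, F) ∈ ball (y, F) r := fun x hx => by
      rw [← ball_prod_same]; exact ⟨hx, mem_ball_self hr⟩
    have hF := (hs (mem_ball_self hr)).2
    refine ⟨_, _, hψ.slice, by simp [he], ?_, fun x hx => (hs (hmem x hx)).1,
      fun x hx => ⟨(hm (hmem x hx)).1, ?_⟩⟩
    · simp only [he]
      rw [mul_assoc, Ring.inverse_mul_cancel _ (hu _ (ball_subset_closedBall hF)), mul_one]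
    · refine (norm_mul_le _ _).trans (le_trans ?_ (le_max_right _ _))
      exact mul_le_mul (hb _ (hm (hmem x hx)).2) (hC _ (ball_subset_closedBall hF))
        (norm_nonneg _) (by norm_num)
  refine ⟨y₀, hp₀.1, ρ / 2, by positivity, r, hr, max 1 (2 * C), le_max_left _ _,
    fun γ U O h y hy h1 h2 h3 => ?_⟩
  have a1 : (y, F₀) ∈ ball (y₀, F₀) ρ := by
    rw [← ball_prod_same]; exact ⟨ball_subset_ball (by linarith) h1, mem_ball_self hρ⟩
  have a2 : (γ y, U y * F₀) ∈ ball (y₀, F₀) ρ := by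
    rw [← ball_prod_same]
    refine ⟨ball_subset_ball (by linarith) h2, ?_⟩
    rw [mem_ball_iff_norm]
    calc ‖U y * F₀ - F₀‖ = ‖(U y - 1) * F₀‖ := by rw [sub_mul, one_mul]
      _ ≤ ‖U y - 1‖ * 2 := (norm_mul_le _ _).trans (by gcongr; exact hb _ hp₀.2)
      _ < ρ := by linarith
  have a3 := h.prolong.rel (y := (y, F₀)) ⟨hy, hF₀⟩
  obtain ⟨γ₁, U₁, b1, b2, b3, b4, b5⟩ := main _ _ _ _ a1 a2 a3
  obtain ⟨γ₂, U₂, c1, c2, c3, -, c5⟩ := main _ _ _ _ a2 a1 a3.symm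
  refine ⟨⟨γ₁, U₁, b1, b2, hF₀.mul_right_cancel b3, b4, b5⟩, γ₂, U₂, c1, c2, ?_, c5⟩
  exact hF₀.mul_right_cancel (by rw [mul_assoc, c3, one_mul])

lemma isAff_id (hT : IsOpen T) : IsAff T Γ t (fun y => y) (fun _ => 1) T := by
  refine ⟨hT, Subset.rfl, fun _ h => h, fun y _ => hasFDerivAt_id y, fun y _ => ?_,
    fun _ _ => isUnit_one, fun _ _ _ _ => rfl⟩
  refine (hasFDerivAt_const _ y).congr_fderiv ?_
  refine ContinuousLinearMap.ext fun e => ?_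
  simp [affD_apply]

lemma IsAff.mono {γ : B → B} {U : B → B →L[ℝ] B} {O O' : Set B} (h : IsAff T Γ t γ U O)
    (hO : IsOpen O') (hs : O' ⊆ O) : IsAff T Γ t γ U O' :=
  ⟨hO, hs.trans h.sub, fun _ hy => h.maps (hs hy), fun y hy => h.der y (hs hy),
    fun y hy => h.der2 y (hs hy), fun y hy => h.unit y (hs hy), fun y hy => h.t_eq y (hs hy)⟩

lemma IsAff.comp {γ γ' : B → B} {U U' : B → B →L[ℝ] B} {O O' : Set B} (h : IsAff T Γ t γ U O)
    (h' : IsAff T Γ t γ' U' O') (hm : MapsTo γ' O' O) :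
    IsAff T Γ t (fun y => γ (γ' y)) (fun y => U (γ' y) * U' y) O' := by
  refine ⟨h'.isOpen, h'.sub, fun y hy => h.maps (hm hy),
    fun y hy => (h.der _ (hm hy)).comp y (h'.der y hy), fun y hy => ?_,
    fun y hy => (h.unit _ (hm hy)).mul (h'.unit y hy), fun y hy u v => ?_⟩
  · refine (((h.der2 _ (hm hy)).comp y (h'.der y hy)).mul' (h'.der2 y hy)).congr_fderiv ?_
    refine ContinuousLinearMap.ext fun e => ?_
    simp [affD_apply]
    noncomm_ring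
  · simp only [mul_apply_eq_comp]
    rw [h.t_eq _ (hm hy), h'.t_eq y hy]

/-- Rigidity in the first and second derivatives. -/
theorem aff_rigid (hΓ : ContDiffOn ℝ ∞ Γ T) {K : Set B} (hK : IsCompact K) (hc : Convex ℝ K)
    (hsub : K ⊆ T) (C : ℝ) : ∃ L : ℝ, 1 ≤ L ∧ ∀ γ U γ' U' O, IsAff T Γ t γ U O →
      IsAff T Γ t γ' U' O → Convex ℝ O → O ⊆ K → (∀ y ∈ O, γ y ∈ K ∧ ‖U y‖ ≤ C) →
      (∀ y ∈ O, γ' y ∈ K ∧ ‖U' y‖ ≤ C) → ∀ a ∈ O, ∀ b ∈ O,
        ‖(γ b, U b) - (γ' b, U' b)‖ ≤ L * ‖(γ a, U a) - (γ' a, U' a)‖ ∧ ∀ b' ∈ O,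
          ‖(U b - U' b) - (U b' - U' b')‖ ≤ L * ‖(γ a, U a) - (γ' a, U' a)‖ * ‖b - b'‖ := by
  set S : Set (B × B × (B →L[ℝ] B)) := K ×ˢ K ×ˢ closedBall 0 C with hS
  set Vf : B × B × (B →L[ℝ] B) → B →L[ℝ] B × B × (B →L[ℝ] B) := fun z =>
    (ContinuousLinearMap.id ℝ B).prod (z.2.2.prod (affD Γ z.1 z.2.1 z.2.2)) with hVf
  have hD : ContDiffOn ℝ ∞ (fun z : B × B × (B →L[ℝ] B) => affD Γ z.1 z.2.1 z.2.2) S := by
    refine contDiffOn_clm_apply.2 fun e => ?_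
    simp only [affD_apply]
    have h1 : ContDiffOn ℝ ∞ (fun z : B × B × (B →L[ℝ] B) => Γ z.1) S :=
      hΓ.comp contDiffOn_fst fun z hz => hsub hz.1
    have h2 : ContDiffOn ℝ ∞ (fun z : B × B × (B →L[ℝ] B) => Γ z.2.1) S :=
      hΓ.comp contDiff_snd.fst.contDiffOn fun z hz => hsub hz.2.1
    have h3 : ContDiffOn ℝ ∞ (fun z : B × B × (B →L[ℝ] B) => z.2.2) S := contDiff_snd.snd.contDiffOn
    exact (h3.mul (h1.clm_apply contDiffOn_const)).sub
      ((h2.clm_apply (h3.clm_apply contDiffOn_const)).mul h3)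
  have hV : ContDiffOn ℝ ∞ Vf S := by
    refine contDiffOn_clm_apply.2 fun e => ?_
    simp only [hVf, ContinuousLinearMap.prod_apply]
    exact contDiffOn_const.prodMk ((contDiff_snd.snd.contDiffOn.clm_apply contDiffOn_const).prodMk
      (hD.clm_apply contDiffOn_const))
  have hSc : Convex ℝ S := hc.prod (hc.prod (convex_closedBall _ _))
  have hSk : IsCompact S := hK.prod (hK.prod (isCompact_closedBall _ _))
  obtain ⟨K₁, hK₁⟩ := hV.exists_lipschitzOnWith (by simp) hSc hSk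
  obtain ⟨K₂, hK₂⟩ := hD.exists_lipschitzOnWith (by simp) hSc hSk
  obtain ⟨R, hR⟩ := hK.isBounded.exists_norm_le
  set L₁ := Real.exp (K₁ * (2 * R)) with hL₁
  have hL₁0 : 0 < L₁ := Real.exp_pos _
  refine ⟨max 1 (max L₁ (K₂ * L₁)), le_max_left _ _,
    fun γ U γ' U' O h h' hO hOK hb hb' a ha => ?_⟩
  have hm : ∀ {γ : B → B} {U : B → B →L[ℝ] B}, (∀ y ∈ O, γ y ∈ K ∧ ‖U y‖ ≤ C) → ∀ y ∈ O,
      (y, γ y, U y) ∈ S := fun hb y hy => ⟨hOK hy, (hb y hy).1, by simpa using (hb y hy).2⟩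
  have hn : ∀ y, ‖(y, γ y, U y) - (y, γ' y, U' y)‖ = ‖(γ y, U y) - (γ' y, U' y)‖ := fun y => by
    rw [Prod.mk_sub_mk, Prod.norm_def]; simp
  have h1 : ∀ b ∈ O, ‖(γ b, U b) - (γ' b, U' b)‖ ≤ L₁ * ‖(γ a, U a) - (γ' a, U' a)‖ := by
    intro b hbO
    have := rigid (S := S) (V := Vf) (K := K₁)
      (fun x hx x' hx' => by simpa [dist_eq_norm] using hK₁.dist_le_mul x hx x' hx') hO
      (f := fun y => (y, γ y, U y)) (g := fun y => (y, γ' y, U' y))
      (fun y hy => ⟨hm hb y hy, (hasFDerivAt_id y).prodMk ((h.der y hy).prodMk (h.der2 y hy))⟩)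
      (fun y hy => ⟨hm hb' y hy, (hasFDerivAt_id y).prodMk ((h'.der y hy).prodMk (h'.der2 y hy))⟩)
      ha hbO
    rw [hn, hn] at this
    refine this.trans ?_
    have e : ‖b - a‖ ≤ 2 * R := by
      linarith [norm_sub_le b a, hR _ (hOK ha), hR _ (hOK hbO)]
    rw [hL₁]
    gcongr
  intro b hbO
  refine ⟨(h1 b hbO).trans (by gcongr; exact le_max_of_le_right (le_max_left _ _)),
    fun b' hb'O => ?_⟩
  have := hO.norm_image_sub_le_of_norm_hasFDerivWithin_le (f := fun y => U y - U' y)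
    (C := K₂ * L₁ * ‖(γ a, U a) - (γ' a, U' a)‖)
    (fun y hy => ((h.der2 y hy).sub (h'.der2 y hy)).hasFDerivWithinAt) (fun y hy => by
      have e := hK₂.dist_le_mul _ (hm hb y hy) _ (hm hb' y hy)
      rw [dist_eq_norm, dist_eq_norm, hn] at e
      refine e.trans ?_
      rw [mul_assoc]
      gcongr
      exact h1 y hy) hb'O hbO
  refine this.trans ?_
  gcongr
  exact le_max_of_le_right (le_max_right _ _)

end Pool.Agent.CL
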