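import Pool.Agent.P.MP_63735c_ag.CLG3
import Pool.Agent.P.MP_63735c_ag.CLDefs

/-! Lemma G, layer 4: holomorphic isometries of a positive (1,1)-form keep its Chern connection. -/

open Set Filter Topology Metric
open scoped ContDiff

set_option maxSynthPendingDepth 3

namespace Pool.Agent.CL

open Pool.Agent.SPF

variable {n : ℕ}

/-- Multiplication by `i`. -/
noncomputable def mulI : E n →L[ℝ] E n := Complex.I • ContinuousLinearMap.id ℝ (E n)

lemma mulI_apply (u : E n) : mulI u = Complex.I • u := rfl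

/-- The Chern connection of `h`. -/
noncomputable def chern (h : Form2 (E n)) (y : E n) : E n →L[ℝ] E n →L[ℝ] E n :=
  (ContinuousLinearMap.compL ℝ (E n) (E n →L[ℝ] ℝ) (E n) (h y).inverse).comp
    ((1 / 2 : ℝ) • (fderiv ℝ h y -
      ((ContinuousLinearMap.compL ℝ (E n) (E n) (E n →L[ℝ] ℝ)).flip mulI).comp
        ((fderiv ℝ h y).comp mulI)))

lemma chern_apply (h : Form2 (E n)) (y e u : E n) : chern h y e u = (h y).inverse
    ((1 / 2 : ℝ) • (fderiv ℝ h y e u - fderiv ℝ h y (Complex.I • e) (Complex.I • u))) := by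
  simp [chern, mulI_apply]

/-- The form together with the metric. -/
noncomputable def hT2 (h : Form2 (E n)) (y : E n) : E n →L[ℝ] E n →L[ℝ] ℝ × ℝ :=
  (ContinuousLinearMap.compL ℝ (E n) ℝ (ℝ × ℝ) (ContinuousLinearMap.inl ℝ ℝ ℝ)).comp (h y) +
    (ContinuousLinearMap.compL ℝ (E n) ℝ (ℝ × ℝ) (ContinuousLinearMap.inr ℝ ℝ ℝ)).comp
      ((h y).comp mulI)

lemma hT2_apply (h : Form2 (E n)) (y u v : E n) :
    hT2 h y u v = (h y u v, h y (Complex.I • u) v) := by simp [hT2, mulI_apply]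

/-- A smooth positive (1,1)-form. -/
structure Kah (T : Set (E n)) (h : Form2 (E n)) : Prop where
  isOpen : IsOpen T
  sm : ContDiffOn ℝ ∞ h T
  jinv : JInv T h
  pos : ∀ y ∈ T, ∀ u, u ≠ 0 → 0 < h y u (Complex.I • u)

/-- A holomorphic isometry on `O`. -/
structure IsoOn (T : Set (E n)) (h : Form2 (E n)) (γ : E n → E n) (O : Set (E n)) : Prop where
  isOpen : IsOpen O
  sub : O ⊆ T
  hol : DifferentiableOn ℂ γ O
  maps : MapsTo γ O T
  iso : ∀ y ∈ O, ∀ u v, h (γ y) (fderiv ℂ γ y u) (fderiv ℂ γ y v) = h y u v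

variable {T : Set (E n)} {h : Form2 (E n)}

lemma IsoOn.der {γ : E n → E n} {O : Set (E n)} (g : IsoOn T h γ O) {y : E n} (hy : y ∈ O) :
    HasFDerivAt γ (fderiv ℂ γ y) y :=
  (g.hol.differentiableAt (g.isOpen.mem_nhds hy)).hasFDerivAt

lemma IsoOn.hol2 {γ : E n → E n} {O : Set (E n)} (g : IsoOn T h γ O) :
    DifferentiableOn ℂ (fderiv ℂ γ) O :=
  ((flow_smooth g.isOpen g.hol).fderiv_of_isOpen (m := 1) g.isOpen (by norm_cast)).differentiableOn
    one_ne_zero

lemma IsoOn.mono {γ : E n → E n} {O O' : Set (E n)} (g : IsoOn T h γ O) (hO : IsOpen O')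
    (hs : O' ⊆ O) : IsoOn T h γ O' :=
  ⟨hO, hs.trans g.sub, g.hol.mono hs, fun _ hy => g.maps (hs hy), fun y hy => g.iso y (hs hy)⟩

lemma IsoOn.fderiv_comp {γ γ' : E n → E n} {O O' : Set (E n)} (g : IsoOn T h γ O)
    (g' : IsoOn T h γ' O') {y : E n} (hy : y ∈ O') (hm : γ' y ∈ O) :
    fderiv ℂ (fun x => γ (γ' x)) y = fderiv ℂ γ (γ' y) * fderiv ℂ γ' y :=
  ((g.der hm).comp y (g'.der hy)).fderiv

lemma IsoOn.comp {γ γ' : E n → E n} {O O' : Set (E n)} (g : IsoOn T h γ O)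
    (g' : IsoOn T h γ' O') (hm : MapsTo γ' O' O) : IsoOn T h (fun x => γ (γ' x)) O' := by
  refine ⟨g'.isOpen, g'.sub, g.hol.comp g'.hol hm, fun y hy => g.maps (hm hy), fun y hy u v => ?_⟩
  rw [g.fderiv_comp g' hy (hm hy), mul_apply_eq_comp, mul_apply_eq_comp, g.iso _ (hm hy),
    g'.iso y hy]

lemma isoOn_id (hT : IsOpen T) : IsoOn T h (fun y => y) T :=
  ⟨hT, Subset.rfl, differentiableOn_id, fun _ hy => hy, fun y _ u v => by simp⟩

namespace Kah

variable (K : Kah T h)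
include K

lemma inj {y : E n} (hy : y ∈ T) : Function.Injective (h y) := by
  refine (injective_iff_map_eq_zero _).2 fun u hu => ?_
  by_contra hne
  have := K.pos y hy u hne
  simp [hu] at this

lemma invertible {y : E n} (hy : y ∈ T) : (h y).IsInvertible := by
  have e : Module.finrank ℝ (E n) = Module.finrank ℝ (E n →L[ℝ] ℝ) := by
    rw [← (LinearMap.toContinuousLinearMap (𝕜 := ℝ) (E := E n) (F' := ℝ)).finrank_eq]
    exact Subspace.dual_finrank_eq.symm
  exact ⟨(LinearMap.linearEquivOfInjective (h y : E n →ₗ[ℝ] E n →L[ℝ] ℝ) (K.inj hy)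
    e).toContinuousLinearEquiv, by ext u v; simp⟩

lemma chern_spec {y : E n} (hy : y ∈ T) (e u v : E n) : h y (chern h y e u) v =
    (fderiv ℝ h y e u v - fderiv ℝ h y (Complex.I • e) (Complex.I • u) v) / 2 := by
  rw [chern_apply, (K.invertible hy).self_apply_inverse]
  simp; ring

lemma chern_sm : ContDiffOn ℝ ∞ (chern h) T := by
  have h1 : ContDiffOn ℝ ∞ (fderiv ℝ h) T := K.sm.fderiv_of_isOpen K.isOpen (by simp)
  have h2 : ContDiffOn ℝ ∞ (fun y => (h y).inverse) T := fun y hy =>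
    ((K.invertible hy).contDiffAt_map_inverse.comp y
      (K.sm.contDiffAt (K.isOpen.mem_nhds hy))).contDiffWithinAt
  refine contDiffOn_clm_apply.2 fun e => contDiffOn_clm_apply.2 fun u => ?_
  simp only [chern_apply]
  exact h2.clm_apply (ContDiffOn.const_smul _
    (((h1.clm_apply contDiffOn_const).clm_apply contDiffOn_const).sub
      ((h1.clm_apply contDiffOn_const).clm_apply contDiffOn_const)))

lemma hT2_sm : ContDiffOn ℝ ∞ (hT2 h) T := by
  refine contDiffOn_clm_apply.2 fun u => contDiffOn_clm_apply.2 fun v => ?_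
  simp only [hT2_apply]
  exact ((K.sm.clm_apply contDiffOn_const).clm_apply contDiffOn_const).prodMk
    ((K.sm.clm_apply contDiffOn_const).clm_apply contDiffOn_const)

lemma bij {γ : E n → E n} {O : Set (E n)} (g : IsoOn T h γ O) {y : E n} (hy : y ∈ O) :
    Function.Bijective (fderiv ℂ γ y) := by
  have h1 : Function.Injective (fderiv ℂ γ y : E n →ₗ[ℂ] E n) := by
    refine (injective_iff_map_eq_zero _).2 fun u hu => ?_
    by_contra hne
    have := K.pos y (g.sub hy) u hne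
    rw [← g.iso y hy, show fderiv ℂ γ y u = 0 from hu] at this
    simp at this
  exact ⟨h1, LinearMap.injective_iff_surjective.1 h1⟩

lemma unit {γ : E n → E n} {O : Set (E n)} (g : IsoOn T h γ O) {y : E n} (hy : y ∈ O) :
    IsUnit (fderiv ℂ γ y) := ContinuousLinearMap.isUnit_iff_bijective.2 (K.bij g hy)

lemma aff {γ : E n → E n} {O : Set (E n)} (g : IsoOn T h γ O) :
    IsAff T (chern h) (hT2 h) γ (fun y => (fderiv ℂ γ y).restrictScalars ℝ) O := by
  refine ⟨g.isOpen, g.sub, g.maps, fun y hy => (g.der hy).restrictScalars ℝ, fun y hy => ?_,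
    fun y hy => ContinuousLinearMap.isUnit_iff_bijective.2 (K.bij g hy), fun y hy u v => ?_⟩
  · have hO := g.isOpen.mem_nhds hy
    have hx := g.maps hy
    set D := fderiv ℂ (fderiv ℂ γ) y with hD
    have h1 : HasFDerivAt (fderiv ℂ γ) D y := (g.hol2.differentiableAt hO).hasFDerivAt
    have h2 := (ContinuousLinearMap.restrictScalarsL ℂ (E n) (E n) ℝ ℝ).hasFDerivAt.comp y
      (h1.restrictScalars ℝ)
    have hd : ∀ x ∈ T, HasFDerivAt h (fderiv ℝ h x) x := fun x hx =>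
      ((K.sm.contDiffAt (K.isOpen.mem_nhds hx)).differentiableAt (by simp)).hasFDerivAt
    have key : ∀ e u v, fderiv ℝ h (γ y) (fderiv ℂ γ y e) (fderiv ℂ γ y u) (fderiv ℂ γ y v) +
        h (γ y) (D e u) (fderiv ℂ γ y v) + h (γ y) (fderiv ℂ γ y u) (D e v) =
        fderiv ℝ h y e u v := by
      intro e u v
      have a1 := (((hd _ hx).comp y ((g.der hy).restrictScalars ℝ)).clm_apply
        (h2.clm_apply (hasFDerivAt_const u y))).clm_apply (h2.clm_apply (hasFDerivAt_const v y))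
      have a2 := (((hd _ (g.sub hy)).clm_apply (hasFDerivAt_const u y)).clm_apply
        (hasFDerivAt_const v y)).congr_of_eventuallyEq
        (f₁ := fun x => h (γ x) (fderiv ℂ γ x u) (fderiv ℂ γ x v))
        (by filter_upwards [hO] with x hx using g.iso x hx u v)
      have a3 := congrArg (fun L : E n →L[ℝ] ℝ => L e) (a1.unique a2)
      simp at a3
      linarith
    refine h2.congr_fderiv ?_
    refine ContinuousLinearMap.ext fun e => ContinuousLinearMap.ext fun u => ?_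
    refine K.inj hx (ContinuousLinearMap.ext fun w => ?_)
    obtain ⟨v, rfl⟩ := (K.bij g hy).2 w
    have b1 := key e u v
    have b2 := key (Complex.I • e) (Complex.I • u) v
    have b3 := K.jinv _ hx (fderiv ℂ γ y u) (D e v)
    have b4 := K.chern_spec hx (fderiv ℂ γ y e) (fderiv ℂ γ y u) (fderiv ℂ γ y v)
    have b5 := K.chern_spec (g.sub hy) e u v
    have b6 := g.iso y hy (chern h y e u) v
    simp only [map_smul, smul_apply, smul_smul, Complex.I_mul_I, neg_smul, one_smul, map_neg,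
      neg_apply] at b2
    simp [affD_apply]
    linarith
  · simp only [hT2_apply, ContinuousLinearMap.coe_restrictScalars', ← map_smul, g.iso y hy]

lemma iso_of_aff {γ : E n → E n} {U : E n → E n →L[ℝ] E n} {O : Set (E n)}
    (g : IsAff T (chern h) (hT2 h) γ U O) :
    IsoOn T h γ O ∧ ∀ y ∈ O, (fderiv ℂ γ y).restrictScalars ℝ = U y := by
  have h1 : ∀ y ∈ O, ∃ D : E n →L[ℂ] E n, D.restrictScalars ℝ = U y := by
    intro y hy
    have hI : ∀ u, U y (Complex.I • u) = Complex.I • U y u := by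
      intro u
      refine K.inj (g.maps hy) (ContinuousLinearMap.ext fun w => ?_)
      obtain ⟨v, rfl⟩ := (ContinuousLinearMap.isUnit_iff_bijective.1 (g.unit y hy)).2 w
      have a1 := congrArg Prod.fst (g.t_eq y hy (Complex.I • u) v)
      have a2 := congrArg Prod.snd (g.t_eq y hy u v)
      simp only [hT2_apply] at a1 a2
      rw [a1, a2]
    let D : E n →ₗ[ℂ] E n := ⟨⟨U y, map_add _⟩, fun c u => by
      have e : ∀ w : E n, c • w = c.re • w + c.im • (Complex.I • w) := fun w => by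
        conv_lhs => rw [← Complex.re_add_im c]
        rw [add_smul, mul_smul, Complex.coe_smul, Complex.coe_smul]
      simp only [RingHom.id_apply]
      rw [e, e, map_add, map_smul, map_smul, hI]⟩
    exact ⟨LinearMap.toContinuousLinearMap D, by ext u; rfl⟩
  have h2 : ∀ y ∈ O, DifferentiableAt ℂ γ y ∧ (fderiv ℂ γ y).restrictScalars ℝ = U y := by
    intro y hy
    obtain ⟨D, hD⟩ := h1 y hy
    have := hasFDerivAt_of_restrictScalars ℝ (g.der y hy) hD
    exact ⟨this.differentiableAt, by rw [this.fderiv, hD]⟩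
  refine ⟨⟨g.isOpen, g.sub, fun y hy => (h2 y hy).1.differentiableWithinAt, g.maps,
    fun y hy u v => ?_⟩, fun y hy => (h2 y hy).2⟩
  have a1 := congrArg Prod.fst (g.t_eq y hy u v)
  rw [← (h2 y hy).2] at a1
  simpa [hT2_apply] using a1

omit K in
lemma res_inj {D D' : E n →L[ℂ] E n} (e : D.restrictScalars ℝ = D'.restrictScalars ℝ) : D = D' :=
  ContinuousLinearMap.ext fun u => congrArg (fun L : E n →L[ℝ] E n => L u) e

/-- Isometry germs with a small jet, and their inverses, extend to balls of fixed radius. -/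
theorem ext {T' : Set (E n)} (hT' : IsOpen T') (hne : T'.Nonempty) (hsub : T' ⊆ T) :
    ∃ y₀ ∈ T', ∃ ρ > 0, ∃ r > 0, ∃ C : ℝ, 1 ≤ C ∧ ∀ γ O, IsoOn T h γ O → ∀ y ∈ O,
      y ∈ ball y₀ ρ → γ y ∈ ball y₀ ρ → ‖fderiv ℂ γ y - 1‖ < ρ →
      (∃ γ', IsoOn T h γ' (ball y r) ∧ jet γ' y = jet γ y ∧
        ∀ x ∈ ball y r, γ' x ∈ T' ∧ ‖fderiv ℂ γ' x‖ ≤ C) ∧
      ∃ γ', IsoOn T h γ' (ball (γ y) r) ∧ γ' (γ y) = y ∧ fderiv ℂ γ' (γ y) * fderiv ℂ γ y = 1 ∧
        ∀ x ∈ ball (γ y) r, γ' x ∈ T' ∧ ‖fderiv ℂ γ' x‖ ≤ C := by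
  obtain ⟨y₀, hy₀, ρ, hρ, r, hr, C, hC, H⟩ := aff_ext K.isOpen K.chern_sm K.hT2_sm hT' hne hsub
  refine ⟨y₀, hy₀, ρ, hρ, r, hr, C, hC, fun γ O g y hy h1 h2 h3 => ?_⟩
  obtain ⟨⟨γ₁, U₁, a1, a2, a3, -, a5⟩, γ₂, U₂, b1, b2, b3, b4⟩ := H γ _ O (K.aff g) y hy h1 h2
    (by rw [← ContinuousLinearMap.norm_restrictScalars (𝕜' := ℝ)] at h3; exact h3)
  obtain ⟨c1, c2⟩ := K.iso_of_aff a1
  obtain ⟨d1, d2⟩ := K.iso_of_aff b1
  refine ⟨⟨γ₁, c1, Prod.ext a2 (res_inj ((c2 y (mem_ball_self hr)).trans a3)),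
    fun x hx => ⟨(a5 x hx).1, ?_⟩⟩, γ₂, d1, b2, res_inj ?_, fun x hx => ⟨(b4 x hx).1, ?_⟩⟩
  · rw [← ContinuousLinearMap.norm_restrictScalars (𝕜' := ℝ), c2 x hx]; exact (a5 x hx).2
  · rw [← d2 _ (mem_ball_self hr)] at b3; exact b3
  · rw [← ContinuousLinearMap.norm_restrictScalars (𝕜' := ℝ), d2 x hx]; exact (b4 x hx).2

/-- Rigidity of isometries. -/
theorem rigid {S : Set (E n)} (hS : IsCompact S) (hc : Convex ℝ S) (hsub : S ⊆ T) (C : ℝ) :
    ∃ L : ℝ, 1 ≤ L ∧ ∀ γ γ' O, IsoOn T h γ O → IsoOn T h γ' O → Convex ℝ O → O ⊆ S →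
      (∀ y ∈ O, γ y ∈ S ∧ ‖fderiv ℂ γ y‖ ≤ C) → (∀ y ∈ O, γ' y ∈ S ∧ ‖fderiv ℂ γ' y‖ ≤ C) →
      ∀ a ∈ O, ∀ b ∈ O, ‖jet γ b - jet γ' b‖ ≤ L * ‖jet γ a - jet γ' a‖ ∧ ∀ b' ∈ O,
        ‖(fderiv ℂ γ b - fderiv ℂ γ' b) - (fderiv ℂ γ b' - fderiv ℂ γ' b')‖ ≤
          L * ‖jet γ a - jet γ' a‖ * ‖b - b'‖ := by
  obtain ⟨L, hL, H⟩ := aff_rigid (t := hT2 h) K.chern_sm hS hc hsub C
  refine ⟨L, hL, fun γ γ' O g g' hO hOS hb hb' a ha b hbO => ?_⟩
  have e : ∀ y, ‖(γ y, (fderiv ℂ γ y).restrictScalars ℝ) - (γ' y, (fderiv ℂ γ' y).restrictScalars ℝ)‖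
      = ‖jet γ y - jet γ' y‖ := fun y => by
    simp only [jet, Prod.mk_sub_mk, Prod.norm_def, ← ContinuousLinearMap.restrictScalars_sub,
      ContinuousLinearMap.norm_restrictScalars]
  have := H γ _ γ' _ O (K.aff g) (K.aff g') hO hOS
    (fun y hy => by simpa only [ContinuousLinearMap.norm_restrictScalars] using hb y hy)
    (fun y hy => by simpa only [ContinuousLinearMap.norm_restrictScalars] using hb' y hy) a ha b hbO
  simpa only [e, ← ContinuousLinearMap.restrictScalars_sub,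
    ContinuousLinearMap.norm_restrictScalars] using this

end Kah

end Pool.Agent.CL
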