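import Pool.Agent.P.MP_63735c_ag.CLG4
import Pool.Agent.P.MP_63735c_ag.SPIdent

/-! Lemma G, layer 5: the class of isometries on a fixed ball, products and inverses. -/

open Set Filter Topology Metric
open scoped ContDiff

namespace Pool.Agent.CL

open Pool.Agent.SPF

variable {n : ℕ}

/-- A class of isometries on a fixed ball with extension and rigidity. -/
structure PreIso (T : Set (E n)) (h : Form2 (E n)) where
  K : Kah T h
  y0 : E n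
  r : ℝ
  ρ : ℝ
  L : ℝ
  Good : (E n → E n) → Prop
  ρ_pos : 0 < ρ
  ρ_le : ρ ≤ r
  ρ_le1 : ρ ≤ 1
  L_ge : 1 ≤ L
  sub : closedBall y0 (4 * r) ⊆ T
  iso : ∀ γ, Good γ → IsoOn T h γ (ball y0 (2 * r))
  good_id : Good fun y => y
  cmp : ∀ γ γ', Good γ → Good γ' → ∀ a ∈ ball y0 (2 * r), ∀ b ∈ ball y0 (2 * r),
    ‖jet γ b - jet γ' b‖ ≤ L * ‖jet γ a - jet γ' a‖ ∧ ∀ b' ∈ ball y0 (2 * r),
      ‖(fderiv ℂ γ b - fderiv ℂ γ' b) - (fderiv ℂ γ b' - fderiv ℂ γ' b')‖ ≤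
        L * ‖jet γ a - jet γ' a‖ * ‖b - b'‖
  fwd : ∀ γ O, IsoOn T h γ O → ∀ y ∈ O, y ∈ ball y0 r → ‖γ y - y‖ ≤ ρ → ‖fderiv ℂ γ y - 1‖ ≤ ρ →
    ∃ γ', Good γ' ∧ jet γ' y = jet γ y
  bwd : ∀ γ, Good γ → ‖γ y0 - y0‖ ≤ ρ → ‖fderiv ℂ γ y0 - 1‖ ≤ ρ →
    ∃ γ', Good γ' ∧ γ' (γ y0) = y0 ∧ fderiv ℂ γ' (γ y0) * fderiv ℂ γ y0 = 1

variable {T : Set (E n)} {h : Form2 (E n)}

theorem Kah.exists_pre (K : Kah T h) (hne : T.Nonempty) : Nonempty (PreIso T h) := by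
  obtain ⟨c, hc⟩ := hne
  obtain ⟨R, hR, hS⟩ := nhds_basis_closedBall.mem_iff.1 (K.isOpen.mem_nhds hc)
  obtain ⟨y₀, hy₀, ρ, hρ, r₀, hr₀, C, hC, H⟩ := K.ext (T' := ball c R) isOpen_ball
    ⟨c, mem_ball_self hR⟩ (ball_subset_closedBall.trans hS)
  obtain ⟨s, hs, hsb⟩ := nhds_basis_closedBall.mem_iff.1 (isOpen_ball.mem_nhds hy₀)
  obtain ⟨L, hL, HL⟩ := K.rigid (isCompact_closedBall c R) (convex_closedBall c R) hS C
  obtain ⟨r, hr, h1, h2, h3, h4⟩ : ∃ r > 0, 4 * r ≤ s ∧ 3 * r ≤ r₀ ∧ 3 * r ≤ ρ ∧ r ≤ 1 :=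
    ⟨min (min (s / 4) (r₀ / 3)) (min (ρ / 3) 1), by positivity,
      by linarith [min_le_left (min (s / 4) (r₀ / 3)) (min (ρ / 3) 1), min_le_left (s / 4) (r₀ / 3)],
      by linarith [min_le_left (min (s / 4) (r₀ / 3)) (min (ρ / 3) 1), min_le_right (s / 4) (r₀ / 3)],
      by linarith [min_le_right (min (s / 4) (r₀ / 3)) (min (ρ / 3) 1), min_le_left (ρ / 3) 1],
      (min_le_right _ _).trans (min_le_right _ _)⟩
  have hb4 : closedBall y₀ (4 * r) ⊆ ball c R := (closedBall_subset_closedBall h1).trans hsb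
  have hb2 : ball y₀ (2 * r) ⊆ closedBall c R :=
    (ball_subset_closedBall.trans (closedBall_subset_closedBall (by linarith))).trans
      (hb4.trans ball_subset_closedBall)
  have hin : ∀ y, ‖y - y₀‖ ≤ r → ball y₀ (2 * r) ⊆ ball y r₀ := fun y hy =>
    ball_subset_ball' (by rw [dist_eq_norm']; linarith)
  refine ⟨⟨K, y₀, r, r, L, fun γ => IsoOn T h γ (ball y₀ (2 * r)) ∧ ∀ y ∈ ball y₀ (2 * r),
    γ y ∈ closedBall c R ∧ ‖fderiv ℂ γ y‖ ≤ C, hr, le_rfl, h4, hL,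
    hb4.trans (ball_subset_closedBall.trans hS), fun γ g => g.1,
    ⟨(isoOn_id K.isOpen).mono isOpen_ball (hb2.trans hS), fun y hy => ⟨hb2 hy, ?_⟩⟩,
    fun γ γ' g g' => HL γ γ' _ g.1 g'.1 (convex_ball _ _) hb2 g.2 g'.2,
    fun γ O g y hy hy1 a1 a2 => ?_, fun γ g a1 a2 => ?_⟩⟩
  · rw [fderiv_fun_id]; exact ContinuousLinearMap.norm_id_le.trans hC
  · rw [mem_ball_iff_norm] at hy1
    obtain ⟨⟨γ', b1, b2, b3⟩, -⟩ := H γ O g y hy (mem_ball_iff_norm.2 (by linarith))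
      (mem_ball_iff_norm.2 (by linarith [norm_sub_le_norm_sub_add_norm_sub (γ y) y y₀]))
      (by linarith)
    exact ⟨γ', ⟨b1.mono isOpen_ball (hin y hy1.le), fun x hx =>
      ⟨ball_subset_closedBall (b3 x (hin y hy1.le hx)).1, (b3 x (hin y hy1.le hx)).2⟩⟩, b2⟩
  · obtain ⟨-, γ', b1, b2, b3, b4⟩ := H γ _ g.1 y₀ (mem_ball_self (by linarith)) (mem_ball_self hρ)
      (mem_ball_iff_norm.2 (by linarith)) (by linarith)
    exact ⟨γ', ⟨b1.mono isOpen_ball (hin _ a1), fun x hx =>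
      ⟨ball_subset_closedBall (b4 x (hin _ a1 hx)).1, (b4 x (hin _ a1 hx)).2⟩⟩, b2, b3⟩

/-- Isometry germs are determined by their 1-jet. -/
lemma Kah.uniq (K : Kah T h) {c : E n} {R : ℝ} (hS : closedBall c R ⊆ T) {γ γ' : E n → E n}
    {O O' : Set (E n)} (g : IsoOn T h γ O) (g' : IsoOn T h γ' O') {a : E n} (ha : a ∈ O)
    (ha' : a ∈ O') (h1 : a ∈ ball c R) (h2 : γ a ∈ ball c R) (e : jet γ a = jet γ' a) :
    γ =ᶠ[𝓝 a] γ' := by
  have e1 : γ a = γ' a := congrArg Prod.fst e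
  have e2 : fderiv ℂ γ a = fderiv ℂ γ' a := congrArg Prod.snd e
  obtain ⟨L, -, HL⟩ := K.rigid (isCompact_closedBall c R) (convex_closedBall c R) hS
    (‖fderiv ℂ γ a‖ + 1)
  have hev : ∀ {γ₁ : E n → E n} {O₁ : Set (E n)}, IsoOn T h γ₁ O₁ → a ∈ O₁ → γ₁ a ∈ ball c R →
      fderiv ℂ γ₁ a = fderiv ℂ γ a → ∀ᶠ y in 𝓝 a, y ∈ O₁ ∧ γ₁ y ∈ closedBall c R ∧
        ‖fderiv ℂ γ₁ y‖ ≤ ‖fderiv ℂ γ a‖ + 1 := by
    intro γ₁ O₁ g₁ b1 b2 b3
    have hO := g₁.isOpen.mem_nhds b1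
    refine Filter.Eventually.and hO (Filter.Eventually.and
      ((g₁.der b1).continuousAt.eventually_mem
        (mem_of_superset (isOpen_ball.mem_nhds b2) ball_subset_closedBall)) ?_)
    exact (g₁.hol2.differentiableAt hO).continuousAt.norm.eventually_le_const
      (by simp only [b3]; linarith)
  obtain ⟨s, hs, hb⟩ := Metric.eventually_nhds_iff_ball.1
    (((hev g ha h2 rfl).and (hev g' ha' (e1 ▸ h2) e2.symm)).and (isOpen_ball.mem_nhds h1))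
  filter_upwards [ball_mem_nhds a hs] with y hy
  have := (HL γ γ' (ball a s) (g.mono isOpen_ball fun x hx => (hb x hx).1.1.1)
    (g'.mono isOpen_ball fun x hx => (hb x hx).1.2.1) (convex_ball _ _)
    (fun x hx => ball_subset_closedBall (hb x hx).2) (fun x hx => (hb x hx).1.1.2)
    (fun x hx => (hb x hx).1.2.2) a (mem_ball_self hs) y hy).1
  rw [e, sub_self, norm_zero, mul_zero, norm_le_zero_iff, sub_eq_zero] at this
  exact congrArg Prod.fst this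

lemma jet_id (y : E n) : jet (fun x : E n => x) y = (y, 1) := by
  simp only [jet, fderiv_fun_id]; rfl

lemma jet_congr {γ γ' : E n → E n} {y : E n} (e : γ =ᶠ[𝓝 y] γ') : jet γ y = jet γ' y :=
  Prod.ext e.eq_of_nhds e.fderiv_eq

lemma norm_le_two {U : E n →L[ℂ] E n} (e : ‖U - 1‖ ≤ 1) : ‖U‖ ≤ 2 := by
  have h1 : ‖(1 : E n →L[ℂ] E n)‖ ≤ 1 := ContinuousLinearMap.norm_id_le
  linarith [norm_le_norm_sub_add U 1]

lemma norm_inv_sub {U W : E n →L[ℂ] E n} (e : W * U = 1) (hU : ‖U - 1‖ ≤ 1 / 2) :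
    ‖W - 1‖ ≤ 2 * ‖U - 1‖ := by
  have h1 : W - 1 = -((W - 1) * (U - 1)) - (U - 1) := by
    rw [sub_mul, mul_sub, e]; simp
  have h2 : ‖W - 1‖ ≤ ‖W - 1‖ * ‖U - 1‖ + ‖U - 1‖ := by
    conv_lhs => rw [h1]
    exact (norm_sub_le _ _).trans (by rw [norm_neg]; gcongr; exact norm_mul_le _ _)
  nlinarith [norm_nonneg (W - 1)]

namespace PreIso

variable (P : PreIso T h)

/-- The jets of the class. -/
def G : Type := {j : E n × (E n →L[ℂ] E n) // ∃ γ, P.Good γ ∧ jet γ P.y0 = j}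

/-- The neutral element. -/
noncomputable def one : P.G := ⟨(P.y0, 1), _, P.good_id, jet_id _⟩

open Classical in
/-- The isometry with a given jet. -/
noncomputable def act (j : P.G) : E n → E n := if j = P.one then fun y => y else j.2.choose

/-- The size. -/
noncomputable def sz (j : P.G) : ℝ := ‖j.1 - P.one.1‖

open Classical in
/-- The product. -/
noncomputable def mul (a b : P.G) : P.G :=
  if e : ∃ c : P.G, c.1 = jet (fun y => P.act a (P.act b y)) P.y0 then e.choose else P.one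

open Classical in
/-- The inverse. -/
noncomputable def inv (a : P.G) : P.G :=
  if e : ∃ c : P.G, P.act c (P.act a P.y0) = P.y0 ∧
    fderiv ℂ (P.act c) (P.act a P.y0) * fderiv ℂ (P.act a) P.y0 = 1 then e.choose else P.one

lemma r_pos : 0 < P.r := P.ρ_pos.trans_le P.ρ_le

lemma y0_mem : P.y0 ∈ ball P.y0 (2 * P.r) := mem_ball_self (by linarith [P.r_pos])

lemma act_one : P.act P.one = fun y => y := if_pos rfl

lemma act_spec (j : P.G) : P.Good (P.act j) ∧ jet (P.act j) P.y0 = j.1 := by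
  by_cases e : j = P.one
  · rw [e, act_one]; exact ⟨P.good_id, jet_id _⟩
  · rw [act, if_neg e]; exact j.2.choose_spec

lemma act_iso (j : P.G) : IsoOn T h (P.act j) (ball P.y0 (2 * P.r)) := P.iso _ (P.act_spec j).1

lemma act_eq {γ : E n → E n} (g : P.Good γ) :
    ∃ c : P.G, ∀ y ∈ ball P.y0 (2 * P.r), jet (P.act c) y = jet γ y := by
  refine ⟨⟨_, γ, g, rfl⟩, fun y hy => ?_⟩
  have := (P.cmp _ _ (P.act_spec ⟨_, γ, g, rfl⟩).1 g _ P.y0_mem y hy).1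
  rwa [(P.act_spec _).2, sub_self, norm_zero, mul_zero, norm_le_zero_iff, sub_eq_zero] at this

lemma sz_nonneg (j : P.G) : 0 ≤ P.sz j := norm_nonneg _

lemma near0 (j : P.G) : ‖P.act j P.y0 - P.y0‖ ≤ P.sz j ∧ ‖fderiv ℂ (P.act j) P.y0 - 1‖ ≤ P.sz j := by
  rw [sz, ← (P.act_spec j).2]
  exact ⟨norm_fst_le (jet (P.act j) P.y0 - P.one.1), norm_snd_le (jet (P.act j) P.y0 - P.one.1)⟩

lemma diff0 (j k : P.G) : ‖P.act j P.y0 - P.act k P.y0‖ ≤ ‖j.1 - k.1‖ ∧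
    ‖fderiv ℂ (P.act j) P.y0 - fderiv ℂ (P.act k) P.y0‖ ≤ ‖j.1 - k.1‖ := by
  rw [← (P.act_spec j).2, ← (P.act_spec k).2]
  exact ⟨norm_fst_le (jet (P.act j) P.y0 - jet (P.act k) P.y0),
    norm_snd_le (jet (P.act j) P.y0 - jet (P.act k) P.y0)⟩

lemma diff (j k : P.G) {y : E n} (hy : y ∈ ball P.y0 (2 * P.r)) :
    ‖P.act j y - P.act k y‖ ≤ P.L * ‖j.1 - k.1‖ ∧
      ‖fderiv ℂ (P.act j) y - fderiv ℂ (P.act k) y‖ ≤ P.L * ‖j.1 - k.1‖ := by
  have := (P.cmp _ _ (P.act_spec j).1 (P.act_spec k).1 _ P.y0_mem y hy).1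
  rw [(P.act_spec j).2, (P.act_spec k).2] at this
  exact ⟨(norm_fst_le (jet (P.act j) y - jet (P.act k) y)).trans this,
    (norm_snd_le (jet (P.act j) y - jet (P.act k) y)).trans this⟩

lemma near (j : P.G) {y : E n} (hy : y ∈ ball P.y0 (2 * P.r)) :
    ‖P.act j y - y‖ ≤ P.L * P.sz j ∧ ‖fderiv ℂ (P.act j) y - 1‖ ≤ P.L * P.sz j := by
  have := P.diff j P.one hy
  rwa [act_one, fderiv_fun_id] at this

lemma lipU (j : P.G) {y y' : E n} (hy : y ∈ ball P.y0 (2 * P.r)) (hy' : y' ∈ ball P.y0 (2 * P.r)) :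
    ‖fderiv ℂ (P.act j) y - fderiv ℂ (P.act j) y'‖ ≤ P.L * P.sz j * ‖y - y'‖ := by
  have := (P.cmp _ _ (P.act_spec j).1 P.good_id _ P.y0_mem y hy).2 y' hy'
  rwa [(P.act_spec j).2, jet_id, fderiv_fun_id, fderiv_fun_id, sub_sub_sub_cancel_right] at this

lemma lip0 (j : P.G) {y y' : E n} (hy : y ∈ ball P.y0 (2 * P.r)) (hy' : y' ∈ ball P.y0 (2 * P.r)) :
    ‖(P.act j y - y) - (P.act j y' - y')‖ ≤ P.L * P.sz j * ‖y - y'‖ :=
  (convex_ball _ _).norm_image_sub_le_of_norm_hasFDerivWithin_le (𝕜 := ℂ)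
    (f := fun y => P.act j y - y) (f' := fun y => fderiv ℂ (P.act j) y - 1)
    (fun x hx => (((P.act_iso j).der hx).sub (hasFDerivAt_id x)).hasFDerivWithinAt)
    (fun _ hx => (P.near j hx).2) hy' hy

/-- Elements that can be multiplied. -/
def Sm (j : P.G) : Prop := 4 * (P.L * P.sz j) ≤ P.ρ

variable {P}

lemma Sm.le {j : P.G} (s : P.Sm j) : P.sz j ≤ P.L * P.sz j ∧ P.L * P.sz j ≤ P.ρ / 4 ∧
    P.L * P.sz j ≤ P.r / 4 ∧ P.L * P.sz j ≤ 1 / 4 := by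
  have := P.ρ_le; have := P.ρ_le1; have : 4 * (P.L * P.sz j) ≤ P.ρ := s
  exact ⟨le_mul_of_one_le_left (P.sz_nonneg j) P.L_ge, by linarith, by linarith, by linarith⟩

lemma Sm.maps {j : P.G} (s : P.Sm j) {t : ℝ} (ht : t ≤ 2 * P.r) :
    MapsTo (P.act j) (ball P.y0 t) (ball P.y0 (t + P.r / 4)) := fun y hy => by
  have := (P.near j (ball_subset_ball ht hy)).1
  rw [mem_ball_iff_norm] at hy ⊢
  linarith [norm_sub_le_norm_sub_add_norm_sub (P.act j y) y P.y0, s.le.2.2.1]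

lemma Sm.mem0 {j : P.G} (s : P.Sm j) : P.act j P.y0 ∈ ball P.y0 P.r := by
  rw [mem_ball_iff_norm]
  linarith [(P.near0 j).1, s.le.1, s.le.2.2.1, P.r_pos]

lemma Sm.mem2 {j : P.G} (s : P.Sm j) : P.act j P.y0 ∈ ball P.y0 (2 * P.r) :=
  ball_subset_ball (by linarith [P.r_pos]) s.mem0

lemma Sm.nU {j : P.G} (s : P.Sm j) {y : E n} (hy : y ∈ ball P.y0 (2 * P.r)) :
    ‖fderiv ℂ (P.act j) y‖ ≤ 2 := norm_le_two (by linarith [(P.near j hy).2, s.le.2.2.2])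

lemma Sm.lip {j : P.G} (s : P.Sm j) {y y' : E n} (hy : y ∈ ball P.y0 (2 * P.r))
    (hy' : y' ∈ ball P.y0 (2 * P.r)) : ‖P.act j y - P.act j y'‖ ≤ 2 * ‖y - y'‖ :=
  (convex_ball _ _).norm_image_sub_le_of_norm_hasFDerivWithin_le (𝕜 := ℂ)
    (fun _ hx => ((P.act_iso j).der hx).hasFDerivWithinAt) (fun _ hx => s.nU hx) hy' hy

lemma jet_comp (a : P.G) {b : P.G} (sb : P.Sm b) : jet (fun y => P.act a (P.act b y)) P.y0 =
    (P.act a (P.act b P.y0), fderiv ℂ (P.act a) (P.act b P.y0) * fderiv ℂ (P.act b) P.y0) :=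
  Prod.ext rfl ((P.act_iso a).fderiv_comp (P.act_iso b) P.y0_mem sb.mem2)

lemma sz_comp (a : P.G) {b : P.G} (sb : P.Sm b) :
    ‖jet (fun y => P.act a (P.act b y)) P.y0 - P.one.1‖ ≤ 2 * (P.L * P.sz a) + P.sz b := by
  rw [jet_comp a sb]
  have h1 := P.near a sb.mem2
  have h2 := P.near0 b
  have h3 : 0 ≤ P.L * P.sz a := (norm_nonneg _).trans h1.1
  refine norm_prod_le_iff.2 ⟨?_, ?_⟩
  · show ‖P.act a (P.act b P.y0) - P.y0‖ ≤ _
    linarith [norm_sub_le_norm_sub_add_norm_sub (P.act a (P.act b P.y0)) (P.act b P.y0) P.y0]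
  · show ‖fderiv ℂ (P.act a) (P.act b P.y0) * fderiv ℂ (P.act b) P.y0 - 1‖ ≤ _
    have e : fderiv ℂ (P.act a) (P.act b P.y0) * fderiv ℂ (P.act b) P.y0 - 1 =
        (fderiv ℂ (P.act a) (P.act b P.y0) - 1) * fderiv ℂ (P.act b) P.y0 +
          (fderiv ℂ (P.act b) P.y0 - 1) := by rw [sub_mul, one_mul]; abel
    rw [e]
    refine (norm_add_le _ _).trans (add_le_add ((norm_mul_le _ _).trans ?_) h2.2)
    rw [mul_comm 2]
    exact mul_le_mul h1.2 (sb.nU P.y0_mem) (norm_nonneg _) h3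

lemma mul_spec {a b : P.G} (sa : P.Sm a) (sb : P.Sm b) :
    (P.mul a b).1 = jet (fun y => P.act a (P.act b y)) P.y0 ∧
      ∀ y ∈ ball P.y0 (3 / 2 * P.r), P.act (P.mul a b) y = P.act a (P.act b y) := by
  have hr := P.r_pos
  have hsub : ball P.y0 (3 / 2 * P.r) ⊆ ball P.y0 (2 * P.r) := ball_subset_ball (by linarith)
  have g : IsoOn T h (fun y => P.act a (P.act b y)) (ball P.y0 (3 / 2 * P.r)) :=
    (P.act_iso a).comp ((P.act_iso b).mono isOpen_ball hsub)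
      ((sb.maps (by linarith)).mono_right (ball_subset_ball (by linarith)))
  have h0 : P.y0 ∈ ball P.y0 (3 / 2 * P.r) := mem_ball_self (by linarith)
  have hs : ‖jet (fun y => P.act a (P.act b y)) P.y0 - P.one.1‖ ≤ P.ρ := by
    linarith [sz_comp a sb, sa.le.2.1, sb.le.1, sb.le.2.1, P.ρ_pos]
  have h1 := (norm_fst_le _).trans hs
  obtain ⟨γ, gγ, e⟩ := P.fwd _ _ g _ h0 (mem_ball_self hr) h1 ((norm_snd_le _).trans hs)
  have hex : ∃ c : P.G, c.1 = jet (fun y => P.act a (P.act b y)) P.y0 := ⟨⟨_, γ, gγ, e⟩, rfl⟩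
  have e1 : (P.mul a b).1 = jet (fun y => P.act a (P.act b y)) P.y0 := by
    rw [mul, dif_pos hex]; exact hex.choose_spec
  refine ⟨e1, spident_scv isOpen_ball (convex_ball _ _) ((P.act_iso _).hol.mono hsub) g.hol h0
    (P.K.uniq P.sub g (P.act_iso _) h0 P.y0_mem (mem_ball_self (by linarith)) ?_
      (by rw [(P.act_spec _).2, e1])).symm⟩
  exact mem_ball_iff_norm.2 (lt_of_le_of_lt h1 (by linarith [P.ρ_le]))

lemma sz_mul {a b : P.G} (sa : P.Sm a) (sb : P.Sm b) :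
    P.sz (P.mul a b) ≤ 2 * (P.L * P.sz a) + P.sz b := by
  rw [sz, (mul_spec sa sb).1]; exact sz_comp a sb

lemma inv_spec {a : P.G} (sa : P.Sm a) : P.act (P.inv a) (P.act a P.y0) = P.y0 ∧
    fderiv ℂ (P.act (P.inv a)) (P.act a P.y0) * fderiv ℂ (P.act a) P.y0 = 1 := by
  have hρ := P.ρ_pos
  obtain ⟨γ, g, e1, e2⟩ := P.bwd _ (P.act_spec a).1
    (by linarith [(P.near0 a).1, sa.le.1, sa.le.2.1]) (by linarith [(P.near0 a).2, sa.le.1, sa.le.2.1])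
  obtain ⟨c, hc⟩ := P.act_eq g
  have hex : ∃ c : P.G, P.act c (P.act a P.y0) = P.y0 ∧
      fderiv ℂ (P.act c) (P.act a P.y0) * fderiv ℂ (P.act a) P.y0 = 1 :=
    ⟨c, (congrArg Prod.fst (hc _ sa.mem2)).trans e1, by
      rw [show fderiv ℂ (P.act c) _ = _ from congrArg Prod.snd (hc _ sa.mem2)]; exact e2⟩
  rw [inv, dif_pos hex]; exact hex.choose_spec

lemma sz_inv {a : P.G} (sa : P.Sm a) : P.sz (P.inv a) ≤ 2 * (P.L * P.sz a) := by
  have h1 := (P.cmp _ _ (P.act_spec (P.inv a)).1 P.good_id _ sa.mem2 _ P.y0_mem).1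
  rw [(P.act_spec _).2, jet_id, jet_id] at h1
  refine le_trans h1 ?_
  rw [mul_left_comm]
  refine mul_le_mul_of_nonneg_left (norm_prod_le_iff.2 ⟨?_, ?_⟩) (by linarith [P.L_ge])
  · show ‖P.act (P.inv a) (P.act a P.y0) - P.act a P.y0‖ ≤ _
    rw [(inv_spec sa).1, norm_sub_rev]
    linarith [(P.near0 a).1, P.sz_nonneg a]
  · show ‖fderiv ℂ (P.act (P.inv a)) (P.act a P.y0) - 1‖ ≤ _
    have := norm_inv_sub (inv_spec sa).2 (by linarith [(P.near0 a).2, sa.le.1, sa.le.2.2.2])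
    linarith [(P.near0 a).2]

end PreIso

end Pool.Agent.CL
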