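import Pool.Agent.P.MP_63735c_ag.CLGreen

/-! Mean value inequality in the plane. -/

open scoped ContDiff Matrix ENNReal
open Set Metric MeasureTheory Filter Topology

namespace Pool.Agent.CL

open Pool.Agent.SPF

theorem clmv0_ofReal {α : Type} [MeasurableSpace α] (μ : Measure α) (f : α → ℝ) :
    ENNReal.ofReal (∫ x, f x ∂μ) ≤ ∫⁻ x, ENNReal.ofReal (f x) ∂μ := by
  by_cases h : Integrable f μ
  · calc ENNReal.ofReal (∫ x, f x ∂μ) ≤ ENNReal.ofReal (∫ x, max (f x) 0 ∂μ) :=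
          ENNReal.ofReal_le_ofReal (integral_mono h h.pos_part fun x => le_max_left _ _)
      _ = ∫⁻ x, ENNReal.ofReal (max (f x) 0) ∂μ :=
          ofReal_integral_eq_lintegral_ofReal h.pos_part (ae_of_all _ fun x => le_max_right _ _)
      _ = _ := by simp
  · rw [integral_undef h]
    simp

/-- The potential of the weight. -/
noncomputable def clmv0W (t : ℂ) : ℝ := expNegInvGlue (1 - ‖t‖ ^ 2)

/-- The weight before normalisation. -/
noncomputable def clmv0w (t : ℂ) : ℝ := 2 * ((1 - ‖t‖ ^ 2)⁻¹ ^ 2 * expNegInvGlue (1 - ‖t‖ ^ 2))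

theorem clmv0_sq : ContDiff ℝ ∞ fun t : ℂ => 1 - ‖t‖ ^ 2 :=
  contDiff_const.sub (contDiff_norm_sq ℝ)

theorem clmv0W_smooth : ContDiff ℝ ∞ clmv0W := expNegInvGlue.contDiff.comp clmv0_sq

theorem clmv0w_smooth : ContDiff ℝ ∞ clmv0w := by
  have h := expNegInvGlue.contDiff_polynomial_eval_inv_mul (n := ⊤) (Polynomial.X ^ 2)
  simp only [Polynomial.eval_pow, Polynomial.eval_X] at h
  exact contDiff_const.mul (h.comp clmv0_sq)

theorem clmv0W_zero {t : ℂ} (h : 1 ≤ ‖t‖) : clmv0W t = 0 :=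
  expNegInvGlue.zero_of_nonpos (by nlinarith)

theorem clmv0w_zero {t : ℂ} (h : 1 ≤ ‖t‖) : clmv0w t = 0 := by
  have := clmv0W_zero h
  unfold clmv0W at this
  unfold clmv0w
  rw [this, mul_zero, mul_zero]

theorem clmv0w_nonneg (t : ℂ) : 0 ≤ clmv0w t :=
  mul_nonneg zero_le_two (mul_nonneg (sq_nonneg _) (expNegInvGlue.nonneg _))

theorem clmv0w_pos {t : ℂ} (h : ‖t‖ < 1) : 0 < clmv0w t := by
  have h1 : 0 < 1 - ‖t‖ ^ 2 := by nlinarith [norm_nonneg t]
  have h2 := expNegInvGlue.pos_of_pos h1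
  unfold clmv0w
  positivity

theorem clmv0W_le (t : ℂ) : clmv0W t ≤ 1 := by
  unfold clmv0W expNegInvGlue
  split_ifs with h
  · exact zero_le_one
  · exact Real.exp_le_one_iff.2 (neg_nonpos.2 (inv_nonneg.2 (not_le.1 h).le))

theorem clmv0_supp {f : ℂ → ℝ} (h : ∀ t, 1 ≤ ‖t‖ → f t = 0) : HasCompactSupport f :=
  HasCompactSupport.intro (isCompact_closedBall (0 : ℂ) 1) fun t ht =>
    h t (by rw [mem_closedBall_zero_iff, not_le] at ht; exact ht.le)

theorem clmv0_int {f g : ℂ → ℝ} (hf : Continuous f) (hg : Continuous g)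
    (h : ∀ t, 1 ≤ ‖t‖ → f t = 0) : Integrable fun t => f t * g t :=
  (hf.mul hg).integrable_of_hasCompactSupport (clmv0_supp h).mul_right

theorem clmv0W_fderiv (t v : ℂ) :
    fderiv ℝ clmv0W t v = -(clmv0w t * (t.re * v.re + t.im * v.im)) := by
  have h1 := expNegInvGlue.hasDerivAt_polynomial_eval_inv_mul 1 (1 - ‖t‖ ^ 2)
  simp only [Polynomial.eval_one, one_mul, Polynomial.derivative_one, sub_zero, mul_one,
    Polynomial.eval_pow, Polynomial.eval_X] at h1
  have h2 := (hasStrictFDerivAt_norm_sq t).hasFDerivAt.const_sub 1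
  have h3 : HasFDerivAt clmv0W _ t := h1.comp_hasFDerivAt t h2
  rw [h3.fderiv]
  simp [clmv0w, Complex.inner]
  ring

theorem clmv0_parts {U : ℂ → ℝ} (hU : ContDiff ℝ 2 U) (s : ℝ) (e : ℂ) :
    Integrable (fun t => clmv0W t * (s * D2 U (s • t) e)) ∧
    Integrable (fun t => fderiv ℝ clmv0W t e * fderiv ℝ U (s • t) e) ∧
    ∫ t, clmv0W t * (s * D2 U (s • t) e) =
      -∫ t, fderiv ℝ clmv0W t e * fderiv ℝ U (s • t) e := by
  have h1 : ContDiff ℝ 1 (fderiv ℝ U) := hU.fderiv_right (by norm_num)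
  have hg : ContDiff ℝ 1 fun t : ℂ => fderiv ℝ U (s • t) e :=
    (h1.comp (contDiff_id.const_smul s)).clm_apply contDiff_const
  have hd : ∀ t : ℂ, fderiv ℝ (fun t : ℂ => fderiv ℝ U (s • t) e) t e = s * D2 U (s • t) e := by
    intro t
    have h2 := ((h1.differentiable one_ne_zero (s • t)).hasFDerivAt.comp t
      ((hasFDerivAt_id t).const_smul s)).clm_apply (hasFDerivAt_const e t)
    have h3 : HasFDerivAt (fun t : ℂ => fderiv ℝ U (s • t) e) _ t := h2
    rw [h3.fderiv]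
    simp only [D2, ContinuousLinearMap.comp_zero, zero_add, ContinuousLinearMap.flip_apply,
      ContinuousLinearMap.comp_apply, smul_apply, ContinuousLinearMap.id_apply,
      map_smul, smul_eq_mul]
  have hW := clmv0W_smooth.continuous
  have i1 : Integrable fun t => fderiv ℝ clmv0W t e * fderiv ℝ U (s • t) e :=
    clmv0_int ((clmv0W_smooth.continuous_fderiv (by simp)).clm_apply continuous_const)
      hg.continuous fun t ht => by rw [clmv0W_fderiv, clmv0w_zero ht, zero_mul, neg_zero]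
  have i2 : Integrable fun t =>
      clmv0W t * fderiv ℝ (fun t : ℂ => fderiv ℝ U (s • t) e) t e :=
    clmv0_int hW ((hg.continuous_fderiv one_ne_zero).clm_apply continuous_const)
      fun t => clmv0W_zero
  have h := integral_mul_fderiv_eq_neg_fderiv_mul_of_integrable i1 i2
    (clmv0_int hW hg.continuous fun t => clmv0W_zero)
    (fun t _ => clmv0W_smooth.differentiable (by simp) t)
    (fun t _ => hg.differentiable one_ne_zero t)
  simp only [hd] at i2 h
  exact ⟨i2, i1, h⟩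

theorem clmv0_slice {U : ℂ → ℝ} (hU : ContDiff ℝ 2 U) (s : ℝ) :
    ∫ t, fderiv ℝ U (s • t) t * clmv0w t = ∫ t, clmv0W t * s * Lv U (s • t) 1 := by
  obtain ⟨a1, a2, a3⟩ := clmv0_parts hU s 1
  obtain ⟨b1, b2, b3⟩ := clmv0_parts hU s Complex.I
  have e1 : ∀ t, clmv0W t * s * Lv U (s • t) 1 =
      clmv0W t * (s * D2 U (s • t) 1) + clmv0W t * (s * D2 U (s • t) Complex.I) := fun t => by
    rw [Lv, smul_eq_mul, mul_one]
    ring
  simp only [e1]
  rw [integral_add a1 b1, a3, b3, ← neg_add, ← integral_add a2 b2, ← integral_neg]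
  refine integral_congr_ae (ae_of_all _ fun t => ?_)
  have e2 : fderiv ℝ U (s • t) t =
      t.re * fderiv ℝ U (s • t) 1 + t.im * fderiv ℝ U (s • t) Complex.I := by
    rw [← smul_eq_mul, ← smul_eq_mul, ← map_smul, ← map_smul, ← map_add]
    congr 1
    simp
  simp only [clmv0W_fderiv, e2, Complex.one_re, Complex.one_im, Complex.I_re, Complex.I_im]
  ring

theorem clmv0_ray {U : ℂ → ℝ} (hU : ContDiff ℝ 2 U) (t : ℂ) :
    ∫ s in (0 : ℝ)..1, fderiv ℝ U (s • t) t = U t - U 0 := by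
  have h1 := hU.continuous_fderiv (by norm_num)
  have h := intervalIntegral.integral_eq_sub_of_hasDerivAt (a := 0) (b := 1)
    (f := fun s : ℝ => U (s • t)) (f' := fun s => fderiv ℝ U (s • t) t)
    (fun s _ => by
      have h2 : HasDerivAt (fun s : ℝ => s • t) t s := by
        simpa using (hasDerivAt_id s).smul_const t
      exact (hU.differentiable (by norm_num) (s • t)).hasFDerivAt.comp_hasDerivAt s h2)
    (Continuous.intervalIntegrable (by fun_prop) _ _)
  simpa using h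

theorem clmv0_main {U : ℂ → ℝ} (hU : ContDiff ℝ 2 U) :
    ∫ t, (U t - U 0) * clmv0w t =
      ∫ s in Ioc (0 : ℝ) 1, ∫ t, clmv0W t * s * Lv U (s • t) 1 := by
  have h1 := hU.continuous_fderiv (by norm_num)
  have h2 := clmv0w_smooth.continuous
  have hi : Integrable (Function.uncurry fun (s : ℝ) (t : ℂ) => fderiv ℝ U (s • t) t * clmv0w t)
      ((volume.restrict (uIoc (0 : ℝ) 1)).prod volume) := by
    have hc : Continuous
        (Function.uncurry fun (s : ℝ) (t : ℂ) => fderiv ℝ U (s • t) t * clmv0w t) := by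
      unfold Function.uncurry
      fun_prop
    have h3 := hc.continuousOn.integrableOn_compact (μ := (volume : Measure ℝ).prod volume)
      ((isCompact_Icc (a := (0 : ℝ)) (b := 1)).prod (isCompact_closedBall (0 : ℂ) 1))
    rw [← Measure.restrict_univ (μ := (volume : Measure ℂ)), Measure.prod_restrict]
    refine h3.of_forall_sdiff_eq_zero (measurableSet_uIoc.prod MeasurableSet.univ) ?_
    rintro ⟨s, t⟩ ⟨⟨hs, -⟩, hn⟩
    rw [uIoc_of_le zero_le_one] at hs
    have ht : 1 ≤ ‖t‖ := by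
      by_contra hc
      exact hn ⟨Ioc_subset_Icc_self hs, mem_closedBall_zero_iff.2 (not_le.1 hc).le⟩
    simp only [Function.uncurry_apply_pair, clmv0w_zero ht, mul_zero]
  have h := intervalIntegral_integral_swap hi
  simp only [intervalIntegral.integral_mul_const, clmv0_ray hU, clmv0_slice hU] at h
  rw [← h, intervalIntegral.integral_of_le zero_le_one]

theorem clmv0_cut {U : ℂ → ℝ} (hU : ContDiffOn ℝ 2 U (ball 0 2)) :
    ∃ V : ℂ → ℝ, ContDiff ℝ 2 V ∧ ∀ t ∈ ball (0 : ℂ) 1, V t = U t := by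
  let χ : ContDiffBump (0 : ℂ) := ⟨1, 3 / 2, one_pos, by norm_num⟩
  refine ⟨fun t => χ t * U t, contDiff_iff_contDiffAt.2 fun t => ?_, fun t ht => ?_⟩
  · by_cases ht : t ∈ ball (0 : ℂ) 2
    · exact χ.contDiffAt.mul (hU.contDiffAt (isOpen_ball.mem_nhds ht))
    · have h1 : (closedBall (0 : ℂ) (3 / 2))ᶜ ∈ 𝓝 t :=
        isClosed_closedBall.isOpen_compl.mem_nhds fun h =>
          ht (closedBall_subset_ball (by norm_num) h)
      refine (contDiffAt_const (c := (0 : ℝ))).congr_of_eventuallyEq ?_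
      filter_upwards [h1] with x hx
      rw [χ.zero_of_le_dist (not_le.1 fun h => hx (mem_closedBall.2 h)).le, zero_mul]
  · simp only [χ.one_of_mem_closedBall (ball_subset_closedBall ht), one_mul]

theorem mv_plane : ∃ w : ℂ → ℝ, ContDiff ℝ ∞ w ∧ (∀ t, 0 ≤ w t) ∧ (∀ t, 1 ≤ ‖t‖ → w t = 0) ∧
    ∫ t, w t = 1 ∧ (∃ c > (0 : ℝ), ∀ t, ‖t‖ ≤ 3 / 4 → c ≤ w t) ∧ ∃ C : ℝ≥0∞, C ≠ ⊤ ∧
      ∀ (U : ℂ → ℝ) (g : ℂ → ℝ≥0∞), ContDiffOn ℝ 2 U (ball 0 2) →
        (∀ t ∈ ball (0 : ℂ) 1, ENNReal.ofReal (Lv U t 1) ≤ g t) →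
        ENNReal.ofReal ((∫ t, U t * w t) - U 0) ≤
          C * ∫⁻ s in Ioc (0 : ℝ) 1, ∫⁻ t in ball (0 : ℂ) 1, g (s • t) := by
  have hc := clmv0w_smooth.continuous
  have hi : Integrable clmv0w :=
    hc.integrable_of_hasCompactSupport (clmv0_supp fun t => clmv0w_zero)
  have hp : 0 < ∫ t, clmv0w t :=
    hc.integral_pos_of_hasCompactSupport_nonneg_nonzero (x := 0)
      (clmv0_supp fun t => clmv0w_zero) clmv0w_nonneg (clmv0w_pos (by simp)).ne'
  set c := ∫ t, clmv0w t with hcdef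
  refine ⟨fun t => c⁻¹ * clmv0w t, contDiff_const.mul clmv0w_smooth,
    fun t => mul_nonneg (inv_pos.2 hp).le (clmv0w_nonneg t),
    fun t ht => by simp only [clmv0w_zero ht, mul_zero], ?_, ?_,
    ENNReal.ofReal c⁻¹, ENNReal.ofReal_ne_top, fun U g hU hg => ?_⟩
  · rw [integral_const_mul, inv_mul_cancel₀ hp.ne']
  · obtain ⟨a, ha, h⟩ := (isCompact_closedBall (0 : ℂ) (3 / 4)).exists_forall_le'
      (f := fun t => c⁻¹ * clmv0w t) (a := 0) (continuous_const.mul hc).continuousOn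
      fun t ht => mul_pos (inv_pos.2 hp)
        (clmv0w_pos ((mem_closedBall_zero_iff.1 ht).trans_lt (by norm_num)))
    exact ⟨a, ha, fun t ht => h t (mem_closedBall_zero_iff.2 ht)⟩
  obtain ⟨V, hV, hVU⟩ := clmv0_cut hU
  have e1 : (∫ t, U t * (c⁻¹ * clmv0w t)) - U 0 = c⁻¹ * ∫ t, (V t - V 0) * clmv0w t := by
    have i1 : Integrable fun t => V t * clmv0w t := by
      simpa only [mul_comm] using clmv0_int hc hV.continuous fun t => clmv0w_zero
    have e2 : ∀ t, U t * (c⁻¹ * clmv0w t) = c⁻¹ * (V t * clmv0w t) := fun t => by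
      by_cases ht : t ∈ ball (0 : ℂ) 1
      · rw [hVU t ht]
        ring
      · rw [clmv0w_zero (not_lt.1 fun h => ht (mem_ball_zero_iff.2 h))]
        ring
    simp only [e2, sub_mul]
    rw [integral_const_mul, integral_sub i1 (hi.const_mul _), integral_const_mul, ← hcdef,
      hVU 0 (mem_ball_self one_pos)]
    field_simp
  rw [e1, ENNReal.ofReal_mul (inv_pos.2 hp).le, clmv0_main hV]
  refine mul_le_mul_right ((clmv0_ofReal _ _).trans
    (setLIntegral_mono' measurableSet_Ioc fun s hs => (clmv0_ofReal _ _).trans ?_)) _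
  rw [← lintegral_indicator measurableSet_ball]
  refine lintegral_mono fun t => ?_
  by_cases ht : t ∈ ball (0 : ℂ) 1
  · have hst : s • t ∈ ball (0 : ℂ) 1 := by
      rw [mem_ball_zero_iff] at ht ⊢
      rw [norm_smul, Real.norm_of_nonneg hs.1.le]
      exact (mul_le_of_le_one_left (norm_nonneg t) hs.2).trans_lt ht
    have hE : V =ᶠ[𝓝 (s • t)] U := by
      filter_upwards [isOpen_ball.mem_nhds hst] with x hx using hVU x hx
    have hL : Lv V (s • t) 1 = Lv U (s • t) 1 := by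
      unfold Lv D2
      rw [hE.fderiv.fderiv_eq]
    have h0 : 0 ≤ clmv0W t := expNegInvGlue.nonneg _
    rw [indicator_of_mem ht, hL, ENNReal.ofReal_mul (mul_nonneg h0 hs.1.le)]
    refine le_trans (mul_le_of_le_one_left' ?_) (hg _ hst)
    exact ENNReal.ofReal_le_one.2 (mul_le_one₀ (clmv0W_le t) hs.1.le hs.2)
  · simp only [clmv0W_zero (not_lt.1 fun h => ht (mem_ball_zero_iff.2 h)), zero_mul,
      ENNReal.ofReal_zero, zero_le]

end Pool.Agent.CL
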