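import Pool.Agent.P.MP_63735c_ag.CLGreen
import Pool.Agent.P.MP_63735c_ag.CLHol

/-! Auxiliary functions for the area monotonicity. -/

open scoped ContDiff Matrix ENNReal
open Set Metric MeasureTheory Filter Topology

namespace Pool.Agent.CL

open Pool.Agent.SPF

variable {n : ℕ}

theorem clmono_sq (z : ℝ) : HasDerivAt (fun x : ℝ => max x 0 ^ 2) (2 * max z 0) z := by
  obtain ⟨h1, h2, h3⟩ := pos3
  have e : deriv (fun x : ℝ => max x 0 ^ 3) = fun x => 3 * max x 0 ^ 2 := funext h2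
  have hd : Differentiable ℝ (deriv fun x : ℝ => max x 0 ^ 3) :=
    (h1.differentiable_deriv_two)
  have h4 := (hd z).hasDerivAt
  rw [h3, e] at h4
  have h5 := h4.const_mul (1 / 3)
  have e2 : (fun y : ℝ => 1 / 3 * (3 * max y 0 ^ 2)) = fun y => max y 0 ^ 2 := by
    funext y; ring
  rw [e2] at h5
  exact h5.congr_deriv (by ring)

theorem clmono_ramp {η : ℝ} (hη : 0 < η) : ∃ R D : ℝ → ℝ, (∀ z, HasDerivAt R (D z) z) ∧
    Continuous D ∧ (∀ z, 0 ≤ R z ∧ z - η / 2 ≤ R z ∧ z * D z - η / 2 ≤ R z ∧ 0 ≤ D z ∧ D z ≤ 1) ∧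
    ∀ z ≤ 0, R z = 0 ∧ D z = 0 := by
  refine ⟨fun z => (max z 0 ^ 2 - max (z - η) 0 ^ 2) / (2 * η),
    fun z => (max z 0 - max (z - η) 0) / η, fun z => ?_, by fun_prop, fun z => ?_, fun z hz => ?_⟩
  · have h2 := (clmono_sq (z - η)).comp_sub_const z η
    refine (((clmono_sq z).sub h2).div_const (2 * η)).congr_deriv ?_
    field_simp
  · have h2 : 0 < 2 * η := by positivity
    beta_reduce
    rw [← mul_div_assoc, sub_le_iff_le_add (a := z * _ / η), div_le_iff₀ hη, le_div_iff₀ h2,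
      le_div_iff₀ h2, le_div_iff₀ hη, div_le_iff₀ hη]
    have e : ((max z 0 ^ 2 - max (z - η) 0 ^ 2) / (2 * η) + η / 2) * η =
        (max z 0 ^ 2 - max (z - η) 0 ^ 2 + η ^ 2) / 2 := by field_simp
    rw [e]
    rcases le_total z 0 with h | h
    · rw [max_eq_right h, max_eq_right (by linarith)]
      refine ⟨by simp, by nlinarith, by nlinarith, by simp, by linarith⟩
    · rw [max_eq_left h]
      rcases le_total z η with h' | h'
      · rw [max_eq_right (by linarith)]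
        refine ⟨by nlinarith, by nlinarith [sq_nonneg (z - η)], by nlinarith, by linarith,
          by linarith⟩
      · rw [max_eq_left (by linarith)]
        refine ⟨by nlinarith, by nlinarith, by nlinarith, by linarith, by linarith⟩
  · beta_reduce
    rw [max_eq_right hz, max_eq_right (by linarith)]
    simp

theorem clmono_F {s δ : ℝ} (hδ : 0 < δ) (hs : 100 * δ ≤ s) : ∃ F : ℝ → ℝ, ContDiff ℝ 2 F ∧
    (∀ y, s ≤ y → F y = 0) ∧ (∀ y, F y ≤ 0) ∧ (∀ y, deriv (deriv F) y ≤ 0) ∧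
    ∀ y, 0 ≤ y → (if y ≤ δ then 19 / 20 * s / δ else 0) - (if y < s then 1 else 0) ≤
      deriv F y + y * deriv (deriv F) y := by
  obtain ⟨R, D, a1, a2, a3, a4⟩ := clmono_ramp (η := s / 25) (by linarith)
  obtain ⟨R', D', b1, b2, b3, b4⟩ := clmono_ramp (η := δ / 25) (by linarith)
  have hm : ∀ y, 0 < δ + δ / 50 + R' (y - δ) := fun y => by linarith [(b3 (y - δ)).1]
  set f : ℝ → ℝ := fun y => R (s - y) / (δ + δ / 50 + R' (y - δ)) with hf
  set f' : ℝ → ℝ := fun y => (-D (s - y) * (δ + δ / 50 + R' (y - δ)) - R (s - y) * D' (y - δ)) /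
    (δ + δ / 50 + R' (y - δ)) ^ 2 with hf'
  have d1 : ∀ y, HasDerivAt f (f' y) y := fun y =>
    ((a1 (s - y)).comp_const_sub s y).div
      (((b1 (y - δ)).comp_sub_const y δ).const_add (δ + δ / 50)) (hm y).ne'
  have cR : Continuous R := continuous_iff_continuousAt.2 fun z => (a1 z).continuousAt
  have cR' : Continuous R' := continuous_iff_continuousAt.2 fun z => (b1 z).continuousAt
  have c1 : Continuous f' := by
    refine Continuous.div (by fun_prop) (by fun_prop) fun y => pow_ne_zero 2 (hm y).ne'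
  have c0 : Continuous f := continuous_iff_continuousAt.2 fun z => (d1 z).continuousAt
  have e1 : deriv f = f' := funext fun y => (d1 y).deriv
  have d0 : ∀ y, HasDerivAt (fun y => ∫ x in s..y, f x) (f y) y := fun y =>
    (c0.integral_hasStrictDerivAt s y).hasDerivAt
  have e0 : deriv (fun y => ∫ x in s..y, f x) = f := funext fun y => (d0 y).deriv
  have z0 : ∀ y, s ≤ y → ∫ x in s..y, f x = 0 := by
    intro y hy
    rw [intervalIntegral.integral_congr (g := fun _ => 0), intervalIntegral.integral_zero]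
    intro x hx
    rw [uIcc_of_le hy] at hx
    simp only [hf, (a4 (s - x) (by linarith [hx.1])).1, zero_div]
  refine ⟨fun y => ∫ x in s..y, f x, ?_, z0, fun y => ?_, fun y => ?_, fun y hy => ?_⟩
  · rw [show (2 : WithTop ℕ∞) = 1 + 1 from rfl, contDiff_succ_iff_deriv, e0, contDiff_one_iff_deriv,
      e1]
    exact ⟨fun y => (d0 y).differentiableAt, by simp, fun y => (d1 y).differentiableAt, c1⟩
  · rcases le_total s y with h | h
    · exact (z0 y h).le
    · beta_reduce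
      rw [intervalIntegral.integral_symm, neg_nonpos]
      exact intervalIntegral.integral_nonneg h fun x _ => div_nonneg (a3 _).1 (hm x).le
  · rw [e0, e1]
    refine div_nonpos_of_nonpos_of_nonneg ?_ (sq_nonneg _)
    have := mul_nonneg (a3 (s - y)).2.2.2.1 (hm y).le
    have := mul_nonneg (a3 (s - y)).1 (b3 (y - δ)).2.2.2.1
    linarith
  · rw [e0, e1]
    obtain ⟨p1, p2, -, p4, p5⟩ := a3 (s - y)
    obtain ⟨q1, q2, q3, q4, q5⟩ := b3 (y - δ)
    have hM := hm y
    have e : f y + y * f' y = R (s - y) * (δ + δ / 50 + R' (y - δ) - y * D' (y - δ)) /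
        (δ + δ / 50 + R' (y - δ)) ^ 2 - y * D (s - y) / (δ + δ / 50 + R' (y - δ)) := by
      simp only [hf, hf']
      field_simp
      ring
    rw [e]
    apply sub_le_sub
    · split_ifs with h
      · obtain ⟨r1, r2⟩ := b4 (y - δ) (by linarith)
        rw [r1, r2, div_le_div_iff₀ hδ (by positivity)]
        have : 97 / 100 * s ≤ R (s - y) := by linarith
        have h3 : 0 ≤ δ ^ 2 * (R (s - y) - 97 / 100 * s) := mul_nonneg (sq_nonneg _) (by linarith)
        have h4 : 0 ≤ δ ^ 2 * s := mul_nonneg (sq_nonneg _) (by linarith)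
        nlinarith
      · refine div_nonneg (mul_nonneg p1 ?_) (sq_nonneg _)
        nlinarith
    · split_ifs with h
      · rw [div_le_one hM]
        nlinarith
      · rw [(a4 (s - y) (by linarith)).2]
        simp

theorem clmono_nsq_smooth : ContDiff ℝ 2 (nsq : E n → ℝ) := by
  unfold nsq
  exact ContDiff.sum fun k _ => (contDiff_apply ℝ ℂ k).norm_sq ℝ

theorem clmono_nsq_nonneg (v : E n) : 0 ≤ nsq v := Finset.sum_nonneg fun _ _ => sq_nonneg _

theorem clmono_nsq_smul (c : ℂ) (v : E n) : nsq (c • v) = ‖c‖ ^ 2 * nsq v := by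
  simp [nsq, Finset.mul_sum, mul_pow]

theorem clmono_grad {g : ℂ → E n} {t : ℂ} (hg : DifferentiableAt ℂ g t) :
    (fderiv ℝ (fun y => nsq (g y)) t 1) ^ 2 + (fderiv ℝ (fun y => nsq (g y)) t Complex.I) ^ 2 ≤
      nsq (g t) * (4 * nsq (deriv g t)) := by
  have h1 : ∀ k, HasDerivAt (fun y => g y k) (deriv g t k) t := hasDerivAt_pi.1 hg.hasDerivAt
  have h2 := HasFDerivAt.fun_sum (u := Finset.univ) fun k _ =>
    ((h1 k).complexToReal_fderiv).norm_sq
  have h3 : ∀ e : ℂ, fderiv ℝ (fun y => nsq (g y)) t e =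
      2 * (e * ∑ k, deriv g t k * (starRingEnd ℂ) (g t k)).re := by
    intro e
    unfold nsq
    rw [h2.fderiv, sum_apply, Finset.mul_sum, Complex.re_sum, Finset.mul_sum]
    refine Finset.sum_congr rfl fun k _ => ?_
    simp [Complex.inner]
    ring
  rw [h3, h3]
  set z := ∑ k, deriv g t k * (starRingEnd ℂ) (g t k) with hz
  have h4 : ‖z‖ ≤ ∑ k, ‖g t k‖ * ‖deriv g t k‖ :=
    (norm_sum_le _ _).trans (Finset.sum_le_sum fun k _ => by simp [mul_comm])
  have h5 := Finset.sum_mul_sq_le_sq_mul_sq Finset.univ (fun k => ‖g t k‖) fun k => ‖deriv g t k‖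
  have h6 : ‖z‖ ^ 2 ≤ nsq (g t) * nsq (deriv g t) :=
    (pow_le_pow_left₀ (norm_nonneg _) h4 2).trans h5
  rw [Complex.sq_norm, Complex.normSq_apply] at h6
  simp only [one_mul, Complex.mul_re, Complex.I_re, Complex.I_im, zero_mul, zero_sub]
  nlinarith

theorem clmono_Lv (f : ℂ → ℝ) (t : ℂ) : Lv f t 1 = D2 f t 1 + D2 f t Complex.I := by
  simp [Lv]

theorem clmono_Lv_comp {f : ℂ → ℝ} {φ : ℝ → ℝ} {t : ℂ} (hf : ContDiffAt ℝ 2 f t)
    (hφ : ContDiffAt ℝ 2 φ (f t)) : Lv (fun y => φ (f y)) t 1 = deriv φ (f t) * Lv f t 1 +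
      deriv (deriv φ) (f t) * ((fderiv ℝ f t 1) ^ 2 + (fderiv ℝ f t Complex.I) ^ 2) := by
  rw [clmono_Lv, clmono_Lv, D2_comp hf hφ, D2_comp hf hφ]
  ring

theorem clmono_cut {ε : ℝ} (hε : 0 < ε) : ∃ φ : ℝ → ℝ, ContDiff ℝ 2 φ ∧ (∀ y, deriv φ y ≤ 0) ∧
    (∀ y, 0 ≤ deriv (deriv φ) y) ∧ ∀ y, φ y = max (1 - ε * y) 0 ^ 3 := by
  obtain ⟨h1, h2, -⟩ := pos3
  have l : ∀ y, HasDerivAt (fun y : ℝ => 1 - ε * y) (-ε) y := fun y => by
    simpa using ((hasDerivAt_id y).const_mul ε).const_sub 1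
  have d1 : ∀ y, HasDerivAt (fun y : ℝ => max (1 - ε * y) 0 ^ 3)
      (3 * max (1 - ε * y) 0 ^ 2 * -ε) y := fun y => by
    have := (h1.differentiable (by simp) (1 - ε * y)).hasDerivAt
    rw [h2] at this
    exact this.comp y (l y)
  have e1 : deriv (fun y : ℝ => max (1 - ε * y) 0 ^ 3) =
      fun y => 3 * max (1 - ε * y) 0 ^ 2 * -ε := funext fun y => (d1 y).deriv
  refine ⟨fun y => max (1 - ε * y) 0 ^ 3, h1.comp (by fun_prop), fun y => ?_, fun y => ?_,
    fun _ => rfl⟩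
  · rw [e1]
    exact mul_nonpos_of_nonneg_of_nonpos (by positivity) (by linarith)
  · have d2 : HasDerivAt (fun y : ℝ => 3 * max (1 - ε * y) 0 ^ 2 * -ε)
        (3 * (2 * max (1 - ε * y) 0 * -ε) * -ε) y :=
      (((clmono_sq (1 - ε * y)).comp y (l y)).const_mul 3).mul_const (-ε)
    rw [e1, d2.deriv]
    have : 0 ≤ max (1 - ε * y) 0 * ε ^ 2 := by positivity
    nlinarith

theorem clmono_local {Ω : Set ℂ} (hΩ : IsOpen Ω) {g : ℂ → E n} (hg : DifferentiableOn ℂ g Ω)
    {U : ℂ → ℝ} (hU : ContinuousOn U Ω) {t0 : ℂ} (ht : t0 ∈ Ω) (h0 : g t0 = 0)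
    (h1 : 0 < nsq (deriv g t0)) : ∃ r > (0 : ℝ), ∀ t ∈ ball t0 r, t ∈ Ω ∧ U t ≤ U t0 + 1 ∧
      nsq (g t) ≤ 101 / 100 * nsq (deriv g t0) * ‖t - t0‖ ^ 2 ∧
      99 / 100 * nsq (deriv g t0) ≤ nsq (deriv g t) := by
  have hn := hΩ.mem_nhds ht
  have cn : Continuous (nsq : E n → ℝ) := clmono_nsq_smooth.continuous
  have a1 : ∀ᶠ t in 𝓝 t0, U t ≤ U t0 + 1 :=
    (hU.continuousAt hn).eventually (eventually_le_nhds (by linarith))
  have a2 : ∀ᶠ t in 𝓝 t0, 99 / 100 * nsq (deriv g t0) ≤ nsq (deriv g t) :=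
    (cn.continuousAt.comp ((hg.deriv hΩ).continuousOn.continuousAt hn)).eventually
      (eventually_ge_nhds (by simp only [Function.comp]; linarith))
  have a3 : ∀ᶠ t in 𝓝[≠] t0, nsq (slope g t0 t) ≤ 101 / 100 * nsq (deriv g t0) :=
    ((cn.tendsto _).comp (hasDerivAt_iff_tendsto_slope.1
      (hg.differentiableAt hn).hasDerivAt)).eventually (eventually_le_nhds (by linarith))
  rw [eventually_nhdsWithin_iff] at a3
  obtain ⟨r, hr, h⟩ := Metric.eventually_nhds_iff_ball.1 ((a1.and a2).and (a3.and hn))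
  refine ⟨r, hr, fun t ht' => ⟨(h t ht').2.2, (h t ht').1.1, ?_, (h t ht').1.2⟩⟩
  by_cases e : t = t0
  · simp [e, h0, nsq]
  · have := (h t ht').2.1 e
    have e2 : g t = (t - t0) • slope g t0 t := by rw [sub_smul_slope, h0, vsub_eq_sub, sub_zero]
    rw [e2, clmono_nsq_smul, mul_comm]
    exact mul_le_mul_of_nonneg_right this (sq_nonneg _)

end Pool.Agent.CL
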