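import Pool.Agent.P.MP_63735c_ag.CLGreen
import Pool.Agent.P.MP_63735c_ag.CLHol
import Pool.Agent.P.MP_63735c_ag.CLMonoa

/-! Area monotonicity for graphs with a polar ideal boundary. -/

open scoped ContDiff Matrix ENNReal
open Set Metric MeasureTheory Filter Topology

namespace Pool.Agent.CL

open Pool.Agent.SPF

variable {n : ℕ}

/-- A holomorphic graph over `Ω` whose ideal boundary in `|β| < 4` is polar. -/
structure Slice (Ω : Set ℂ) (β : ℂ → E n) (U : ℂ → ℝ) : Prop where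
  isOpen : IsOpen Ω
  sub : Ω ⊆ ball 0 1
  hol : DifferentiableOn ℂ β Ω
  smooth : ContDiffOn ℝ 2 U Ω
  nonneg : ∀ t ∈ Ω, 0 ≤ U t
  sup : ∀ t ∈ Ω, Lv U t 1 ≤ 0
  proper : ∀ s < (1 : ℝ), ∀ M, IsCompact {t ∈ Ω | ‖t‖ ≤ s ∧ nsq (β t) ≤ 15 ∧ U t ≤ M}

theorem clmono_core {Ω : Set ℂ} (hΩ : IsOpen Ω) {g : ℂ → E n} (hg : DifferentiableOn ℂ g Ω)
    {U : ℂ → ℝ} (hU : ContDiffOn ℝ 2 U Ω) (hU0 : ∀ t ∈ Ω, 0 ≤ U t) (hU1 : ∀ t ∈ Ω, Lv U t 1 ≤ 0)
    {s : ℝ} (hs : 0 < s) {t0 : ℂ} (ht : t0 ∈ Ω) (h0 : g t0 = 0) (h1 : 0 < nsq (deriv g t0))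
    (hK : ∀ M, ∃ K, IsCompact K ∧ K ⊆ Ω ∧ ∀ t ∈ Ω \ K, s < nsq (g t) ∨ M < U t)
    {R : ℂ → ℝ} (hR : IntegrableOn R Ω)
    (hb : ∀ t ∈ Ω, (if nsq (g t) < s then nsq (deriv g t) else 0) ≤ R t) :
    9 / 10 * Real.pi * s ≤ ∫ t in Ω, R t := by
  obtain ⟨r, hr, hloc⟩ := clmono_local hΩ hg hU.continuousOn ht h0 h1
  set a := nsq (deriv g t0) with ha
  obtain ⟨ρ, hρ, hρr, hρs⟩ : ∃ ρ > (0 : ℝ), ρ ≤ r ∧ 100 * (101 / 100 * a * ρ ^ 2) ≤ s := by
    have p : 0 < s / (101 * a) := by positivity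
    refine ⟨min r (min 1 (s / (101 * a))), by positivity, min_le_left _ _, ?_⟩
    set ρ := min r (min 1 (s / (101 * a)))
    have p0 : 0 < ρ := by positivity
    have p1 : ρ ≤ 1 := (min_le_right _ _).trans (min_le_left _ _)
    have p2 : ρ ≤ s / (101 * a) := (min_le_right _ _).trans (min_le_right _ _)
    rw [le_div_iff₀ (by positivity)] at p2
    have : ρ * (101 * a) * ρ ≤ ρ * (101 * a) * 1 := mul_le_mul_of_nonneg_left p1 (by positivity)
    linarith
  set δ := 101 / 100 * a * ρ ^ 2 with hδ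
  have hδ0 : 0 < δ := by positivity
  obtain ⟨F, F1, F2, F3, F4, F5⟩ := clmono_F hδ0 hρs
  have hu := hU0 t0 ht
  set ε := 1 / (1000 * (U t0 + 1)) with hε
  have hε0 : 0 < ε := by positivity
  obtain ⟨φ, φ1, φ2, φ3, φ4⟩ := clmono_cut hε0
  obtain ⟨K, K1, K2, K3⟩ := hK (1 / ε)
  have hq : ContDiffOn ℝ 2 (fun t => nsq (g t)) Ω :=
    clmono_nsq_smooth.comp_contDiffOn ((hol_smooth hΩ hg).2.1.of_le (by norm_cast))
  have hz : ∀ t ∈ Ω \ K, (fun t => F (nsq (g t))) =ᶠ[𝓝 t] 0 ∨ (fun t => φ (U t)) =ᶠ[𝓝 t] 0 := by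
    intro t ht'
    have hn := hΩ.mem_nhds ht'.1
    refine (K3 t ht').imp (fun h => ?_) fun h => ?_
    · filter_upwards [(hq.continuousOn.continuousAt hn).eventually (eventually_gt_nhds h)]
        with y hy using F2 _ hy.le
    · filter_upwards [(hU.continuousOn.continuousAt hn).eventually (eventually_gt_nhds h)] with y hy
      rw [div_lt_iff₀ hε0] at hy
      rw [φ4, max_eq_right (by linarith)]
      simp
  obtain ⟨i1, i2, i3⟩ := green_dir volume hΩ (F1.comp_contDiffOn hq) (φ1.comp_contDiffOn hU)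
    K1 K2 hz 1
  obtain ⟨j1, j2, j3⟩ := green_dir volume hΩ (F1.comp_contDiffOn hq) (φ1.comp_contDiffOn hU)
    K1 K2 hz Complex.I
  simp only [Function.comp_def] at i1 i2 i3 j1 j2 j3
  have P1 : ∀ t ∈ Ω, F (nsq (g t)) * D2 (fun t => φ (U t)) t 1 +
      F (nsq (g t)) * D2 (fun t => φ (U t)) t Complex.I ≤ 0 := by
    intro t ht'
    rw [← mul_add, ← clmono_Lv, clmono_Lv_comp (hU.contDiffAt (hΩ.mem_nhds ht')) φ1.contDiffAt]
    exact mul_nonpos_of_nonpos_of_nonneg (F3 _) (add_nonneg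
      (mul_nonneg_of_nonpos_of_nonpos (φ2 _) (hU1 t ht')) (mul_nonneg (φ3 _) (by positivity)))
  set c := 997 / 1000 * (19 / 20 * s / δ) * (4 * (99 / 100 * a)) with hc
  have P2 : ∀ t ∈ Ω, (ball t0 ρ).indicator (fun _ => c) t ≤
      (φ (U t) * D2 (fun t => F (nsq (g t))) t 1 +
        φ (U t) * D2 (fun t => F (nsq (g t))) t Complex.I) + 4 * R t := by
    intro t ht'
    have hn := hΩ.mem_nhds ht'
    have L : Lv (fun t => nsq (g t)) t 1 = 4 * nsq (deriv g t) := by
      rw [Lv_comp clmono_nsq_smooth.contDiffAt (by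
        filter_upwards [hn] with y hy using hg.differentiableAt (hΩ.mem_nhds hy)), Lv_nsq]
      rfl
    have b0 := clmono_nsq_nonneg (deriv g t)
    have b1 := mul_le_mul_of_nonpos_left (clmono_grad (hg.differentiableAt hn)) (F4 (nsq (g t)))
    have b2 := mul_le_mul_of_nonneg_right (F5 _ (clmono_nsq_nonneg (g t))) b0
    have b3 := hb t ht'
    have t0' : 0 ≤ φ (U t) := by rw [φ4]; positivity
    have t1 : φ (U t) ≤ 1 := by
      rw [φ4]
      refine pow_le_one₀ (le_max_right _ _) (max_le ?_ zero_le_one)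
      linarith [mul_nonneg hε0.le (hU0 t ht')]
    rw [← mul_add, ← clmono_Lv, clmono_Lv_comp (hq.contDiffAt hn) F1.contDiffAt, L]
    set A := if nsq (g t) ≤ δ then 19 / 20 * s / δ else 0 with hA
    have b4 : (if nsq (g t) < s then 1 else 0) * nsq (deriv g t) ≤ R t := by
      split_ifs at b3 ⊢ <;> linarith
    have b5 : 0 ≤ (if nsq (g t) < s then 1 else 0) * nsq (deriv g t) := by positivity
    set B := (if nsq (g t) < s then 1 else 0) * nsq (deriv g t) with hB
    have b6 : 4 * (A * nsq (deriv g t)) - 4 * B ≤ deriv F (nsq (g t)) * (4 * nsq (deriv g t)) +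
        deriv (deriv F) (nsq (g t)) * ((fderiv ℝ (fun y => nsq (g y)) t 1) ^ 2 +
          (fderiv ℝ (fun y => nsq (g y)) t Complex.I) ^ 2) := by
      rw [sub_mul] at b2
      linarith
    have b7 := mul_le_mul_of_nonneg_left b6 t0'
    have b8 := mul_le_mul_of_nonneg_right t1 b5
    have b9 : (ball t0 ρ).indicator (fun _ => c) t ≤ φ (U t) * (4 * (A * nsq (deriv g t))) := by
      by_cases m : t ∈ ball t0 ρ
      · obtain ⟨-, m1, m2, m3⟩ := hloc t (ball_subset_ball hρr m)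
        have m4 : ‖t - t0‖ ^ 2 ≤ ρ ^ 2 :=
          pow_le_pow_left₀ (norm_nonneg _) (mem_ball_iff_norm.1 m).le 2
        have m5 : nsq (g t) ≤ δ := m2.trans (mul_le_mul_of_nonneg_left m4 (by positivity))
        have m6 : ε * U t ≤ 1 / 1000 := by
          refine (mul_le_mul_of_nonneg_left m1 hε0.le).trans (le_of_eq ?_)
          rw [hε]
          field_simp
        have m7 : 997 / 1000 ≤ φ (U t) := by
          rw [φ4]
          refine le_trans (by norm_num) (pow_le_pow_left₀ (by norm_num : (0 : ℝ) ≤ 999 / 1000)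
            (le_max_of_le_left (by linarith)) 3)
        rw [indicator_of_mem m, hA, if_pos m5, hc, mul_assoc]
        refine mul_le_mul m7 ?_ (by positivity) t0'
        linarith [mul_le_mul_of_nonneg_left m3 (by positivity : 0 ≤ 19 / 20 * s / δ)]
      · rw [indicator_of_notMem m]
        have : 0 ≤ A := by rw [hA]; positivity
        positivity
    linarith
  have sub : ball t0 ρ ⊆ Ω := fun t m => (hloc t (ball_subset_ball hρr m)).1
  have I1 := setIntegral_mono_on
    ((integrableOn_const (measure_ball_lt_top (μ := volume) (x := t0) (r := ρ)).ne).integrable_indicator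
      measurableSet_ball).integrableOn ((i1.add j1).add (hR.const_mul 4)) hΩ.measurableSet P2
  have I2 := setIntegral_nonpos (μ := volume) hΩ.measurableSet P1
  rw [integral_add i2 j2, ← i3, ← j3, ← integral_add i1 j1] at I2
  rw [setIntegral_indicator measurableSet_ball, inter_eq_self_of_subset_right sub, setIntegral_const,
    integral_add' (i1.add j1) (hR.const_mul 4), integral_const_mul, Measure.real,
    Complex.volume_ball] at I1
  have e : ((ENNReal.ofReal ρ) ^ 2 * (NNReal.pi : ℝ≥0∞)).toReal • c =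
      Real.pi * s * (997 / 1000 * (19 / 20) * (4 * (99 / 101))) := by
    rw [ENNReal.toReal_mul, ENNReal.toReal_pow, ENNReal.toReal_ofReal hρ.le, ENNReal.coe_toReal,
      NNReal.coe_real_pi, smul_eq_mul, hc, hδ]
    field_simp
  rw [e] at I1
  have I3 : ∫ t in Ω, ((fun t => φ (U t) * D2 (fun t => F (nsq (g t))) t 1) +
      fun t => φ (U t) * D2 (fun t => F (nsq (g t))) t Complex.I) t ≤ 0 := I2
  have := mul_pos Real.pi_pos hs
  linarith

theorem mono {Ω : Set ℂ} {β : ℂ → E n} {U : ℂ → ℝ} (h : Slice Ω β U) {θ σ κ : ℝ} (hθ : 0 ≤ θ)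
    (hE : ∫⁻ t in Ω, ENNReal.ofReal (nsq (deriv β t)) ≤ ENNReal.ofReal θ) {t0 : ℂ} (ht : t0 ∈ Ω)
    (hσ : 0 < σ) (hκ : 8 * σ ≤ κ) (h1 : ‖t0‖ + σ < 1) (h2 : nsq (β t0) ≤ 12) :
    ENNReal.ofReal (9 / 10 * Real.pi * σ ^ 2) ≤
      volume {t ∈ Ω | ‖t - t0‖ ^ 2 + κ ^ 2 * nsq (β t - β t0) < σ ^ 2} +
        ENNReal.ofReal (κ ^ 2 * θ) := by
  have hd : ∀ t ∈ Ω, HasDerivAt
      (fun t => (Fin.cons (t - t0) ((κ : ℂ) • (β t - β t0)) : E (n + 1)))
      (Fin.cons 1 ((κ : ℂ) • deriv β t) : E (n + 1)) t := by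
    intro t ht'
    have h3 := (((h.hol.differentiableAt (h.isOpen.mem_nhds ht')).hasDerivAt.sub_const
      (β t0)).const_smul (κ : ℂ))
    refine hasDerivAt_pi.2 fun k => Fin.cases ?_ (fun k => ?_) k
    · simpa using (hasDerivAt_id t).sub_const t0
    · simpa using hasDerivAt_pi.1 h3 k
  have hc : ∀ (a : ℂ) (v : E n),
      nsq (Fin.cons a ((κ : ℂ) • v) : E (n + 1)) = ‖a‖ ^ 2 + κ ^ 2 * nsq v := by
    intro a v
    have := clmono_nsq_smul (κ : ℂ) v
    rw [Complex.norm_real, Real.norm_eq_abs, sq_abs] at this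
    rw [← this, nsq, Fin.sum_univ_succ]
    rfl
  set S := {t ∈ Ω | ‖t - t0‖ ^ 2 + κ ^ 2 * nsq (β t - β t0) < σ ^ 2} with hS
  have cn : Continuous (nsq : E n → ℝ) := clmono_nsq_smooth.continuous
  have So : IsOpen S := by
    have : ContinuousOn (fun t => ‖t - t0‖ ^ 2 + κ ^ 2 * nsq (β t - β t0)) Ω :=
      ContinuousOn.add (by fun_prop) (continuousOn_const.mul
        (cn.comp_continuousOn (h.hol.continuousOn.sub continuousOn_const)))
    exact this.isOpen_inter_preimage h.isOpen (isOpen_Iio (a := σ ^ 2))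
  have Sf : volume S ≠ ⊤ :=
    ((measure_mono fun t ht' => h.sub ht'.1).trans_lt measure_ball_lt_top).ne
  have N0 : 0 ≤ᵐ[volume.restrict Ω] fun t => nsq (deriv β t) :=
    ae_of_all _ fun t => clmono_nsq_nonneg _
  have Ni : IntegrableOn (fun t => nsq (deriv β t)) Ω :=
    ⟨(cn.comp_continuousOn (h.hol.deriv h.isOpen).continuousOn).aestronglyMeasurable
      h.isOpen.measurableSet, (hasFiniteIntegral_iff_ofReal N0).2 (hE.trans_lt ENNReal.ofReal_lt_top)⟩
  have Nb : ∫ t in Ω, nsq (deriv β t) ≤ θ := by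
    rw [← ENNReal.ofReal_le_ofReal_iff hθ, ofReal_integral_eq_lintegral_ofReal Ni N0]
    exact hE
  have Si : IntegrableOn (S.indicator fun _ => (1 : ℝ)) Ω :=
    ((integrableOn_const Sf).integrable_indicator So.measurableSet).integrableOn
  have key := clmono_core (s := σ ^ 2) (t0 := t0)
    (R := fun t => S.indicator (fun _ => (1 : ℝ)) t + κ ^ 2 * nsq (deriv β t)) h.isOpen
    (fun t ht' => (hd t ht').differentiableAt.differentiableWithinAt) h.smooth h.nonneg h.sup
    (by positivity) ht (by ext k; refine Fin.cases ?_ (fun k => ?_) k <;> simp) (by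
      rw [(hd t0 ht).deriv, hc]
      have := clmono_nsq_nonneg (deriv β t0)
      rw [norm_one]
      positivity) (fun M => by
      refine ⟨_, h.proper _ h1 M, fun t ht' => ht'.1, fun t ht' => ?_⟩
      by_contra hn
      rw [not_or, not_lt, not_lt, hc] at hn
      have p0 := clmono_nsq_nonneg (β t - β t0)
      have p1 : 64 * σ ^ 2 ≤ κ ^ 2 := by nlinarith
      have p2 := mul_le_mul_of_nonneg_right p1 p0
      have p3 : 0 < σ ^ 2 := by positivity
      refine ht'.2 ⟨ht'.1, ?_, ?_, hn.2⟩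
      · have : ‖t - t0‖ ≤ σ := by
          refine le_of_sq_le_sq ?_ hσ.le
          linarith [mul_nonneg (sq_nonneg κ) p0]
        linarith [norm_le_norm_add_norm_sub' t t0]
      · have p4 : nsq (β t - β t0) ≤ 1 / 64 := by
          by_contra p5
          linarith [sq_nonneg ‖t - t0‖, mul_lt_mul_of_pos_left (not_le.1 p5) p3]
        have p5 : nsq (β t) ≤ 6 / 5 * nsq (β t0) + 6 * nsq (β t - β t0) := by
          unfold nsq
          rw [Finset.mul_sum, Finset.mul_sum, ← Finset.sum_add_distrib]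
          refine Finset.sum_le_sum fun k _ => ?_
          have p6 := pow_le_pow_left₀ (norm_nonneg _) (norm_le_norm_add_norm_sub' (β t k) (β t0 k)) 2
          rw [Pi.sub_apply]
          nlinarith [sq_nonneg (‖β t0 k‖ - 5 * ‖β t k - β t0 k‖)]
        linarith) (Si.add (Ni.const_mul _)) (fun t ht' => by
      rw [(hd t ht').deriv, hc, hc, norm_one]
      have := mul_nonneg (sq_nonneg κ) (clmono_nsq_nonneg (deriv β t))
      split_ifs with m
      · rw [indicator_of_mem (show t ∈ S from ⟨ht', m⟩), one_pow]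
      · exact add_nonneg (indicator_nonneg (fun _ _ => zero_le_one) t) this)
  rw [integral_add Si (Ni.const_mul _), integral_const_mul, setIntegral_indicator So.measurableSet,
    inter_eq_self_of_subset_right fun t ht' => ht'.1, setIntegral_const, smul_eq_mul,
    mul_one] at key
  rw [← ENNReal.ofReal_toReal Sf, ← ENNReal.ofReal_add ENNReal.toReal_nonneg (by positivity)]
  refine ENNReal.ofReal_le_ofReal (key.trans (add_le_add le_rfl ?_))
  exact mul_le_mul_of_nonneg_left Nb (sq_nonneg κ)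

end Pool.Agent.CL
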