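import Pool.Agent.P.MP_63735c_ag.CLDefs

/-! Integrals over `[0,1]` that depend on a parameter. -/

open scoped ContDiff Matrix ENNReal
open Set Metric MeasureTheory Filter Topology

namespace Pool.Agent.CL

open Pool.Agent.SPF

variable {F : Type} [NormedAddCommGroup F] [NormedSpace ℝ F]
variable {G : Type} [NormedAddCommGroup G] [NormedSpace ℝ G] [CompleteSpace G]

omit [CompleteSpace G] in
theorem clparam_partial {f : F → ℝ → G} {x : F} {s : ℝ}
    (hf : DifferentiableAt ℝ (fun q : F × ℝ => f q.1 q.2) (x, s)) :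
    HasFDerivAt (fun y => f y s)
      ((fderiv ℝ (fun q : F × ℝ => f q.1 q.2) (x, s)).comp (ContinuousLinearMap.inl ℝ F ℝ)) x :=
  HasFDerivAt.comp (g := fun q : F × ℝ => f q.1 q.2) (f := fun y : F => (y, s)) x hf.hasFDerivAt
    (hasFDerivAt_prodMk_left x s)

omit [NormedSpace ℝ F] in
theorem clparam_slice {H : Type} [TopologicalSpace H] {g : F × ℝ → H} {x : F}
    (hg : ∀ s ∈ Icc (0 : ℝ) 1, ContinuousAt g (x, s)) :
    ContinuousOn (fun s => g (x, s)) (Icc 0 1) := fun s hs =>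
  (ContinuousAt.comp (f := fun s : ℝ => (x, s)) (hg s hs) (by fun_prop)).continuousWithinAt

theorem hasFDerivAt_param {f : F → ℝ → G} {x : F}
    (hf : ∀ s ∈ Icc (0 : ℝ) 1, ContDiffAt ℝ 1 (fun q : F × ℝ => f q.1 q.2) (x, s)) :
    HasFDerivAt (fun y => ∫ s in (0 : ℝ)..1, f y s)
      (∫ s in (0 : ℝ)..1, fderiv ℝ (fun y => f y s) x) x ∧
    ContinuousOn (fun s => fderiv ℝ (fun y => f y s) x) (Icc 0 1) := by
  set Φ : F × ℝ → G := fun q => f q.1 q.2 with hΦ
  set D : F × ℝ → F →L[ℝ] G :=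
    fun q => (fderiv ℝ Φ q).comp (ContinuousLinearMap.inl ℝ F ℝ) with hD
  have hDc : ∀ s ∈ Icc (0 : ℝ) 1, ContinuousAt D (x, s) := fun s hs =>
    ((hf s hs).continuousAt_fderiv one_ne_zero).clm_comp continuousAt_const
  have hDs : ContinuousOn (fun s => D (x, s)) (Icc 0 1) := clparam_slice hDc
  have hsub : uIoc (0 : ℝ) 1 ⊆ Icc 0 1 := by
    rw [uIoc_of_le zero_le_one]; exact Ioc_subset_Icc_self
  obtain ⟨C, hC⟩ := isCompact_Icc.exists_bound_of_continuousOn hDs
  have htube : ∀ᶠ y in 𝓝 x, ∀ s ∈ Icc (0 : ℝ) 1, ContDiffAt ℝ 1 Φ (y, s) ∧ ‖D (y, s)‖ ≤ C + 1 := by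
    refine isCompact_Icc.eventually_forall_of_forall_eventually
      (P := fun y s => ContDiffAt ℝ 1 Φ (y, s) ∧ ‖D (y, s)‖ ≤ C + 1) fun s hs => ?_
    have h1 := (hf s hs).eventually (by simp)
    have h2 : ∀ᶠ z in 𝓝 (x, s), ‖D z‖ < C + 1 :=
      (hDc s hs).norm.eventually_lt continuousAt_const (by linarith [hC s hs])
    filter_upwards [h1, h2] with z a b
    exact ⟨a, b.le⟩
  have heq : ∀ s ∈ Icc (0 : ℝ) 1, fderiv ℝ (fun y => f y s) x = D (x, s) := fun s hs =>
    (clparam_partial ((hf s hs).differentiableAt one_ne_zero)).fderiv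
  refine ⟨?_, hDs.congr heq⟩
  have hI : (∫ s in (0 : ℝ)..1, fderiv ℝ (fun y => f y s) x) = ∫ s in (0 : ℝ)..1, D (x, s) :=
    intervalIntegral.integral_congr fun s hs => heq s (by rwa [uIcc_of_le zero_le_one] at hs)
  rw [hI]
  refine intervalIntegral.hasFDerivAt_integral_of_dominated_of_fderiv_le
    (F' := fun y s => D (y, s)) (bound := fun _ => C + 1) htube ?_ ?_ ?_ ?_ ?_ ?_
  · filter_upwards [htube] with y hy
    exact ((clparam_slice (g := Φ) fun s hs => (hy s hs).1.continuousAt).mono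
      hsub).aestronglyMeasurable measurableSet_uIoc
  · exact (clparam_slice (g := Φ) fun s hs => (hf s hs).continuousAt).intervalIntegrable_of_Icc
      zero_le_one
  · exact (hDs.mono hsub).aestronglyMeasurable measurableSet_uIoc
  · exact Eventually.of_forall fun s hs y hy => (hy s (hsub hs)).2
  · exact intervalIntegrable_const
  · exact Eventually.of_forall fun s hs y hy =>
      clparam_partial ((hy s (hsub hs)).1.differentiableAt one_ne_zero)

theorem clparam_nat {W : Set F} (hW : IsOpen W) (k : ℕ) :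
    ∀ {G : Type} [NormedAddCommGroup G] [NormedSpace ℝ G] [CompleteSpace G] {f : F → ℝ → G},
      (∀ x ∈ W, ∀ s ∈ Icc (0 : ℝ) 1, ContDiffAt ℝ ∞ (fun q : F × ℝ => f q.1 q.2) (x, s)) →
      ContDiffOn ℝ k (fun x => ∫ s in (0 : ℝ)..1, f x s) W := by
  induction k with
  | zero =>
    intro G _ _ _ f hf
    refine contDiffOn_zero.2 fun x hx => ?_
    exact (hasFDerivAt_param fun s hs =>
      (hf x hx s hs).of_le (by simp)).1.continuousAt.continuousWithinAt
  | succ k ih =>
    intro G _ _ _ f hf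
    have hd := fun x hx => (hasFDerivAt_param (f := f) (x := x) fun s hs =>
      (hf x hx s hs).of_le (by simp)).1
    rw [Nat.cast_succ, contDiffOn_succ_iff_fderiv_of_isOpen hW]
    refine ⟨fun x hx => (hd x hx).differentiableAt.differentiableWithinAt, by simp, ?_⟩
    have h := ih (f := fun x s => (fderiv ℝ (fun q : F × ℝ => f q.1 q.2) (x, s)).comp
      (ContinuousLinearMap.inl ℝ F ℝ)) fun x hx s hs =>
        ((hf x hx s hs).fderiv_right (m := ∞) (by simp)).clm_comp contDiffAt_const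
    refine h.congr fun x hx => ?_
    rw [(hd x hx).fderiv]
    refine intervalIntegral.integral_congr fun s hs => ?_
    rw [uIcc_of_le zero_le_one] at hs
    exact (clparam_partial ((hf x hx s hs).differentiableAt (by simp))).fderiv

theorem contDiffOn_param {W : Set F} (hW : IsOpen W) {f : F → ℝ → G}
    (hf : ∀ x ∈ W, ∀ s ∈ Icc (0 : ℝ) 1, ContDiffAt ℝ ∞ (fun q : F × ℝ => f q.1 q.2) (x, s)) :
    ContDiffOn ℝ ∞ (fun x => ∫ s in (0 : ℝ)..1, f x s) W :=
  contDiffOn_infty.2 fun k => clparam_nat hW k hf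

end Pool.Agent.CL
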