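import Pool.Agent.P.MP_63735c_ag.CLRet
import Pool.Agent.P.MP_63735c_ag.CLPack

/-! The lattice of periods over a ball. -/

open scoped ContDiff Matrix ENNReal
open Set Metric MeasureTheory Filter Topology

namespace Pool.Agent.CL

open Pool.Agent.SPF

lemma clper_max {Q : ℕ → Prop} (h0 : Q 0) {N : ℕ} (hN : ¬Q N) : ∃ m, Q m ∧ ¬Q (m + 1) := by
  by_contra h
  push Not at h
  exact hN (Nat.rec h0 h N)

lemma clper_basis {V : Type} [NormedAddCommGroup V] [NormedSpace ℝ V] [FiniteDimensional ℝ V]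
    (L : Submodule ℤ V) {δ : ℝ} (hδ : 0 < δ) (h : ∀ v ∈ L, ‖v‖ < δ → v = 0) :
    ∃ (r : ℕ) (b : Fin r → V), LinearIndependent ℝ b ∧ (∀ k, b k ∈ L) ∧
      ∀ v ∈ L, ∃ m : Fin r → ℤ, ∑ k, m k • b k = v := by
  have : DiscreteTopology L := by
    refine discreteTopology_of_isOpen_singleton_zero ?_
    have : ({0} : Set L) = ball 0 δ := by
      ext v
      simp only [mem_singleton_iff, mem_ball_zero_iff]
      exact ⟨fun e => by simpa [e] using hδ, fun e => Subtype.ext (h v v.2 e)⟩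
    rw [this]
    exact isOpen_ball
  let B := Module.finBasis ℤ L
  have hs : Submodule.span ℤ (range fun k => (B k : V)) = L := by
    have := congrArg (Submodule.map L.subtype) B.span_eq
    rwa [Submodule.map_span, Submodule.map_subtype_top, ← range_comp] at this
  refine ⟨_, fun k => B k, ?_, fun k => (B k).2, fun v hv => ?_⟩
  · rw [linearIndependent_iff_card_eq_finrank_span,
      Real.finrank_eq_int_finrank_of_discrete (by rw [hs]; infer_instance), Set.finrank, hs]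
    simp
  · rwa [← hs, Submodule.mem_span_range_iff_exists_fun] at hv

variable {n : ℕ}

section
variable {X : Type} {T O : Set (E n)} {Ψ : P n → X} {y : E n} {α β : E n → E n}

lemma per_act (α : E n → E n) (p : P n) : (Ret.per α).act p = (p.1, p.2 - α p.1) := rfl

lemma IsRet.per_sub (hα : IsRet T Ψ O (Ret.per α)) (hβ : IsRet T Ψ O (Ret.per β)) :
    IsRet T Ψ O (Ret.per fun x => α x - β x) := by
  refine ⟨hα.isOpen, hα.sub, hα.γ_hol, hα.α_hol.sub hβ.α_hol, hα.N_hol, hα.maps, hα.pair,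
    fun x hx ξ => ?_⟩
  have h1 := hβ.eq x hx (ξ - (α x - β x))
  have h2 := hα.eq x hx ξ
  simp only [per_act] at h1 h2 ⊢
  rw [← h1, ← h2]
  congr 2
  abel

lemma Germ.per_sub (hα : Germ T Ψ y (Ret.per α)) (hβ : Germ T Ψ y (Ret.per β)) :
    Germ T Ψ y (Ret.per fun x => α x - β x) := by
  obtain ⟨O, hO, hy⟩ := hα
  obtain ⟨O', hO', hy'⟩ := hβ
  have ho := hO.isOpen.inter hO'.isOpen
  exact ⟨O ∩ O', (hO.mono ho inter_subset_left).per_sub (hO'.mono ho inter_subset_right), hy, hy'⟩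

lemma Germ.nhds {g : Ret n} (hg : Germ T Ψ y g) : ∀ᶠ x in 𝓝 y, Germ T Ψ x g := by
  obtain ⟨O, hO, hy⟩ := hg
  filter_upwards [hO.isOpen.mem_nhds hy] with x hx using ⟨O, hO, hx⟩

lemma Germ.cont {g : Ret n} (hg : Germ T Ψ y g) : ContinuousAt g.α y := by
  obtain ⟨O, hO, hy⟩ := hg
  exact hO.α_hol.continuousOn.continuousAt (hO.isOpen.mem_nhds hy)

lemma clper_ball {ι : Type} [Finite ι] {g : ι → Ret n} (hg : ∀ i, Germ T Ψ y (g i))
    {Q : E n → Prop} (hQ : ∀ᶠ x in 𝓝 y, Q x) :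
    ∃ ρ > 0, (∀ i, IsRet T Ψ (ball y ρ) (g i)) ∧ ∀ x ∈ ball y ρ, Q x := by
  choose O hO hy using hg
  have h : ∀ᶠ x in 𝓝 y, (∀ i, x ∈ O i) ∧ Q x :=
    (eventually_all.2 fun i => (hO i).isOpen.mem_nhds (hy i)).and hQ
  obtain ⟨ρ, hρ, hb⟩ := Metric.eventually_nhds_iff_ball.1 h
  exact ⟨ρ, hρ, fun i => (hO i).mono isOpen_ball fun x hx => (hb x hx).1 i,
    fun x hx => (hb x hx).2⟩

lemma zm_eq {r0 : ℕ} (z : Fin r0 → E n → E n) (m : Fin r0 → ℤ) (y : E n) :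
    zm z m y = ∑ k, m k • z k y := by
  simp only [zm, Int.cast_smul_eq_zsmul]

end

variable {X : Type} [TopologicalSpace X] [T2Space X] [MeasurableSpace X] (M : Model n X)

/-- Values of germs of periods. -/
def Model.lam (y : E n) (hy : y ∈ M.T) : Submodule ℤ (E n) :=
  AddSubgroup.toIntSubmodule
    { carrier := {v | ∃ α, Germ M.T M.Ψ y (Ret.per α) ∧ α y = v}
      zero_mem' := ⟨_, ⟨_, isRet_one M.T_open, hy⟩, rfl⟩
      add_mem' := by
        rintro _ _ ⟨α, hα, rfl⟩ ⟨β, hβ, rfl⟩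
        exact ⟨_, hα.per_sub (Germ.per_sub ⟨_, isRet_one M.T_open, hy⟩ hβ), by simp⟩
      neg_mem' := by
        rintro _ ⟨α, hα, rfl⟩
        exact ⟨_, Germ.per_sub ⟨_, isRet_one M.T_open, hy⟩ hα, by simp⟩ }

omit [T2Space X] in
lemma Model.mem_lam {y : E n} (hy : y ∈ M.T) {v : E n} :
    v ∈ M.lam y hy ↔ ∃ α, Germ M.T M.Ψ y (Ret.per α) ∧ α y = v := Iff.rfl

lemma Model.per_uniq {y : E n} {α β : E n → E n} (hα : Germ M.T M.Ψ y (Ret.per α))
    (hβ : Germ M.T M.Ψ y (Ret.per β)) (h : M.C0 * ‖α y - β y‖ < 2 * M.c0) : α =ᶠ[𝓝 y] β :=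
  (M.sep0 hα hβ h).mono fun _ hx => hx.2.1

lemma Model.lam_disc {y : E n} (hy : y ∈ M.T) {v : E n} (hv : v ∈ M.lam y hy)
    (h : ‖v‖ < M.c0 / M.C0) : v = 0 := by
  obtain ⟨α, hα, rfl⟩ := hv
  have hC : 0 < M.C0 := zero_lt_one.trans_le M.C0_ge
  refine (M.per_uniq hα ⟨_, isRet_one M.T_open, hy⟩ ?_).self_of_nhds
  rw [lt_div_iff₀ hC] at h
  have := M.c0_pos
  simp only [sub_zero]
  linarith

omit [T2Space X] in
lemma clper_gen : ∃ (y0 : E n) (ρ R : ℝ) (hs : ball y0 ρ ⊆ M.T), 0 < ρ ∧ 0 < R ∧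
    ∀ y (hy : y ∈ ball y0 ρ), ∀ L : Submodule ℤ (E n),
      (∀ w ∈ M.lam y (hs hy), ‖w‖ < R → w ∈ L) → M.lam y (hs hy) ≤ L := by
  obtain ⟨r, ⟨y0, hy0, b, hb, hm⟩, hmax⟩ := clper_max
    (Q := fun m => ∃ y, ∃ hy : y ∈ M.T, ∃ b : Fin m → E n, LinearIndependent ℝ b ∧
      ∀ k, b k ∈ M.lam y hy) (N := Module.finrank ℝ (E n) + 1)
    (by
      obtain ⟨y, hy⟩ := M.T_ne
      exact ⟨y, hy, Fin.elim0, linearIndependent_empty_type, fun k => k.elim0⟩)
    (by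
      rintro ⟨y, hy, b, hb, -⟩
      have := hb.fintype_card_le_finrank
      simp at this)
  choose β hβ hβ0 using hm
  have hc : ContinuousAt (fun x k => β k x) y0 := continuousAt_pi.2 fun k => (hβ k).cont
  have hb' : LinearIndependent ℝ fun k => β k y0 := by simpa only [hβ0] using hb
  have e1 : ∀ᶠ x in 𝓝 y0, LinearIndependent ℝ fun k => β k x := hc.eventually hb'.eventually
  have e2 : ∀ᶠ x in 𝓝 y0, ∑ k, ‖β k x‖ < ∑ k, ‖β k y0‖ + 1 := by
    have : ContinuousAt (fun x => ∑ k, ‖β k x‖) y0 :=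
      tendsto_finsetSum _ fun k _ => (hβ k).cont.norm
    exact this.eventually_lt_const (lt_add_one _)
  obtain ⟨ρ, hρ, hret, hQ⟩ := clper_ball hβ ((e1.and e2).and (M.T_open.mem_nhds hy0))
  refine ⟨y0, ρ, ∑ k, ‖β k y0‖ + 1, fun x hx => (hQ x hx).2, hρ, by positivity,
    fun y hy L hL v hv => ?_⟩
  obtain ⟨⟨h1, h2⟩, h3⟩ := hQ y hy
  have hmem : ∀ k, β k y ∈ M.lam y h3 := fun k => ⟨_, ⟨_, hret k, hy⟩, rfl⟩
  have hsp : v ∈ Submodule.span ℝ (range fun k => β k y) := by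
    by_contra hcon
    refine hmax ⟨y, h3, Fin.cons v fun k => β k y, linearIndependent_finCons.2 ⟨h1, hcon⟩, ?_⟩
    exact Fin.cases hv hmem
  obtain ⟨c, hc⟩ := (Submodule.mem_span_range_iff_exists_fun ℝ).1 hsp
  have hL1 : ∀ k, β k y ∈ L := fun k => hL _ (hmem k)
    ((Finset.single_le_sum (f := fun k => ‖β k y‖) (fun _ _ => norm_nonneg _)
      (Finset.mem_univ k)).trans_lt h2)
  have hw : v - ∑ k, ⌊c k⌋ • β k y = ∑ k, Int.fract (c k) • β k y := by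
    rw [← hc, ← Finset.sum_sub_distrib]
    refine Finset.sum_congr rfl fun k _ => ?_
    rw [Int.fract, sub_smul, Int.cast_smul_eq_zsmul]
  have hw2 : v - ∑ k, ⌊c k⌋ • β k y ∈ L := by
    refine hL _ (sub_mem hv (Submodule.sum_mem _ fun k _ => Submodule.smul_mem _ _ (hmem k))) ?_
    rw [hw]
    refine (norm_sum_le_of_le _ fun k _ => ?_).trans_lt h2
    rw [norm_smul, Real.norm_of_nonneg (Int.fract_nonneg _)]
    exact mul_le_of_le_one_left (norm_nonneg _) (Int.fract_lt_one _).le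
  have := L.add_mem hw2 (Submodule.sum_mem L fun k (_ : k ∈ Finset.univ) =>
    L.smul_mem ⌊c k⌋ (hL1 k))
  rwa [sub_add_cancel] at this

theorem exists_per0a : ∃ (y0 : E n) (ρ : ℝ) (r0 : ℕ) (z : Fin r0 → E n → E n), 0 < ρ ∧
    ball y0 ρ ⊆ M.T ∧ Per0 M (ball y0 ρ) z := by
  obtain ⟨y0, ρ, R, hs, hρ, hR, hgen⟩ := clper_gen M
  have hC : 0 < M.C0 := zero_lt_one.trans_le M.C0_ge
  have hc0 := M.c0_pos
  have hδ : 0 < M.c0 / M.C0 := by positivity
  obtain ⟨N, hN⟩ := doubling (E n) (D := 2 * R / (M.c0 / M.C0)) (by positivity)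
  obtain ⟨m, ⟨y1, hy1, f, hf, hm⟩, hmax⟩ := clper_max
    (Q := fun m => ∃ y, ∃ hy : y ∈ ball y0 ρ, ∃ f : Fin m → E n, Function.Injective f ∧
      ∀ i, f i ∈ M.lam y (hs hy) ∧ ‖f i‖ < R) (N := N + 1)
    ⟨y0, mem_ball_self hρ, Fin.elim0, fun k => k.elim0, fun k => k.elim0⟩
    (by
      rintro ⟨y, hy, f, hf, hm⟩
      obtain ⟨i, j, hij, h⟩ := hN 0 R f hR fun i => by simpa using (hm i).2.le
      have e : R / (2 * R / (M.c0 / M.C0)) = M.c0 / M.C0 / 2 := by field_simp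
      have := M.lam_disc (hs hy) (sub_mem (hm i).1 (hm j).1) (by rw [e] at h; linarith)
      exact hij.ne (hf (sub_eq_zero.1 this)))
  obtain ⟨r0, b, hb, hbm, hbs⟩ := clper_basis (M.lam y1 (hs hy1)) hδ fun v hv => M.lam_disc _ hv
  choose z hz hz0 using hbm
  choose μ hμ using fun i => hbs _ (hm i).1
  obtain ⟨ρ1, hρ1, hret1, hQ1⟩ := clper_ball hz (M.T_open.mem_nhds (hs hy1))
  have hzm : ∀ m, Germ M.T M.Ψ y1 (Ret.per (zm z m)) := fun m =>
    ⟨_, isRet_zm isOpen_ball hQ1 hret1 m, mem_ball_self hρ1⟩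
  have hv : ∀ i, zm z (μ i) y1 = f i := fun i => by rw [zm_eq, ← hμ]; simp only [hz0]
  have hc : ContinuousAt (fun x k => z k x) y1 := continuousAt_pi.2 fun k => (hz k).cont
  have hb' : LinearIndependent ℝ fun k => z k y1 := by simpa only [hz0] using hb
  have e1 : ∀ᶠ x in 𝓝 y1, LinearIndependent ℝ fun k => z k x := hc.eventually hb'.eventually
  have e2 : ∀ᶠ x in 𝓝 y1, ∀ i, ‖zm z (μ i) x‖ < R := eventually_all.2 fun i =>
    (hzm (μ i)).cont.norm.eventually_lt_const (by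
      show ‖zm z (μ i) y1‖ < R
      rw [hv]
      exact (hm i).2)
  have e3 : ∀ᶠ x in 𝓝 y1, ∀ i j, i ≠ j → zm z (μ i) x ≠ zm z (μ j) x := by
    refine eventually_all.2 fun i => eventually_all.2 fun j => ?_
    by_cases hij : i = j
    · exact Eventually.of_forall fun x h => (h hij).elim
    · have h1 : ContinuousAt (fun x => zm z (μ i) x - zm z (μ j) x) y1 :=
        (hzm (μ i)).cont.sub (hzm (μ j)).cont
      have h2 : zm z (μ i) y1 - zm z (μ j) y1 ≠ 0 := by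
        rw [hv, hv, sub_ne_zero]
        exact fun h => hij (hf h)
      filter_upwards [h1.eventually_ne h2] with x hx _ using sub_ne_zero.1 hx
  obtain ⟨ρ2, hρ2, hret, hQ⟩ := clper_ball hz
    ((e1.and (e2.and e3)).and (isOpen_ball.mem_nhds hy1))
  have hsub : ball y1 ρ2 ⊆ M.T := fun x hx => hs (hQ x hx).2
  refine ⟨y1, ρ2, r0, z, hρ2, hsub, hret, fun y hy => (hQ y hy).1.1, fun y hy α hα => ?_⟩
  obtain ⟨⟨-, h2, h3⟩, h4⟩ := hQ y hy
  have hg : ∀ m, Germ M.T M.Ψ y (Ret.per (zm z m)) := fun m =>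
    ⟨_, isRet_zm isOpen_ball hsub hret m, hy⟩
  have hle := hgen y h4 (Submodule.span ℤ (range fun k => z k y)) (by
    intro w hw hwR
    have : w ∈ range fun i => zm z (μ i) y := by
      by_contra hcon
      refine hmax ⟨y, h4, Fin.cons w fun i => zm z (μ i) y, Fin.cons_injective_iff.2
        ⟨hcon, fun i j hij => by_contra fun h => h3 i j h hij⟩, ?_⟩
      exact Fin.cases ⟨hw, hwR⟩ fun i => ⟨⟨_, hg _, rfl⟩, h2 i⟩
    obtain ⟨i, rfl⟩ := this
    exact (Submodule.mem_span_range_iff_exists_fun ℤ).2 ⟨μ i, (zm_eq z _ y).symm⟩)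
  obtain ⟨m', hm'⟩ := (Submodule.mem_span_range_iff_exists_fun ℤ).1 (hle ⟨α, hα, rfl⟩)
  refine ⟨m', M.per_uniq hα (hg m') ?_⟩
  rw [zm_eq, hm']
  simpa using hc0

end Pool.Agent.CL
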