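import Pool.Agent.P.MP_63735c_ag.CLMV

/-! A Remez inequality for homogeneous polynomials. -/

open scoped ContDiff Matrix ENNReal
open Set Metric MeasureTheory Filter Topology

namespace Pool.Agent.CL

open Pool.Agent.SPF

theorem clremez_fd (e : ℝ) (w : ℂ) :
    HasFDerivAt (fun w : ℂ => ‖w‖ ^ 2 + e) ((2 : ℝ) • innerSL ℝ w) w := by
  have := (hasStrictFDerivAt_norm_sq w).hasFDerivAt.add_const e
  simpa only [two_smul, two_nsmul] using this

theorem clremez_D2 (e : ℝ) (w v : ℂ) : D2 (fun w : ℂ => ‖w‖ ^ 2 + e) w v = 2 * ‖v‖ ^ 2 := by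
  have h : fderiv ℝ (fun w : ℂ => ‖w‖ ^ 2 + e) =
      fun w => ((2 : ℝ) • innerSL ℝ (E := ℂ) : ℂ →L[ℝ] ℂ →L[ℝ] ℝ) w :=
    funext fun w => (clremez_fd e w).fderiv
  rw [D2, h, ContinuousLinearMap.fderiv]
  change (2 : ℝ) * inner ℝ v v = _
  rw [real_inner_self_eq_norm_sq]

theorem clremez_cd {e : ℝ} (he : 0 < e) : ContDiff ℝ 2 fun w : ℂ => Real.log (‖w‖ ^ 2 + e) :=
  ((contDiff_norm_sq ℝ).add contDiff_const).log fun w => by positivity

theorem clremez_Lv {e : ℝ} (he : 0 < e) (w v : ℂ) :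
    0 ≤ Lv (fun w : ℂ => Real.log (‖w‖ ^ 2 + e)) w v := by
  have ht : 0 < ‖w‖ ^ 2 + e := by positivity
  have h1 : ContDiffAt ℝ 2 (fun w : ℂ => ‖w‖ ^ 2 + e) w :=
    ((contDiff_norm_sq ℝ).add contDiff_const).contDiffAt
  have h2 : ContDiffAt ℝ 2 Real.log (‖w‖ ^ 2 + e) := Real.contDiffAt_log.2 ht.ne'
  have h3 : deriv (deriv Real.log) (‖w‖ ^ 2 + e) = -((‖w‖ ^ 2 + e) ^ 2)⁻¹ := by
    rw [Real.deriv_log', deriv_inv]
  rw [Lv, D2_comp h1 h2, D2_comp h1 h2, clremez_D2, clremez_D2, h3, Real.deriv_log,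
    (clremez_fd e w).fderiv]
  have h4 : ∀ z : ℂ, ‖z‖ ^ 2 = z.re ^ 2 + z.im ^ 2 := fun z => by
    rw [Complex.sq_norm, Complex.normSq_apply]; ring
  have h5 : ∀ z : ℂ, ((2 : ℝ) • innerSL ℝ w) z = 2 * (w.re * z.re + w.im * z.im) := fun z => by
    simp [Complex.inner]
    ring
  rw [h5, h5, h4 v, h4 (Complex.I • v)]
  simp only [smul_eq_mul, Complex.mul_re, Complex.mul_im, Complex.I_re, Complex.I_im]
  have h6 := h4 w
  generalize ‖w‖ ^ 2 = s at ht h6 ⊢
  have h7 : (s + e)⁻¹ * (2 * (v.re ^ 2 + v.im ^ 2)) +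
      -((s + e) ^ 2)⁻¹ * (2 * (w.re * v.re + w.im * v.im)) ^ 2 +
      ((s + e)⁻¹ * (2 * ((0 * v.re - 1 * v.im) ^ 2 + (0 * v.im + 1 * v.re) ^ 2)) +
      -((s + e) ^ 2)⁻¹ * (2 * (w.re * (0 * v.re - 1 * v.im) + w.im * (0 * v.im + 1 * v.re))) ^ 2) =
      4 * (v.re ^ 2 + v.im ^ 2) * e / (s + e) ^ 2 := by
    field_simp
    rw [h6]
    ring
  rw [h7]
  positivity

theorem clremez_pos (n : ℕ) : ∃ C ≥ (1 : ℝ), ∀ (k : ℕ) (p : E n → ℂ) (A : ℝ) (M : Set (E n)),
    0 < A → Differentiable ℂ p → (∀ (t : ℂ) u, p (t • u) = t ^ k * p u) → M ⊆ ball 0 1 →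
    volume (ball (0 : E n) 1) ≤ 2 * volume M → (∀ u ∈ M, ‖p u‖ ≤ A) →
    ∀ u ∈ ball (0 : E n) 1, ‖p u‖ ≤ A * C ^ (k + 1) := by
  obtain ⟨C, hC, H⟩ := mv_point (E n) volume
  have b1 : volume (ball (0 : E n) 1) ≠ 0 := (measure_ball_pos _ _ one_pos).ne'
  have b1' : volume (ball (0 : E n) 1) ≠ ⊤ := measure_ball_lt_top.ne
  have b2 : volume (ball (0 : E n) 2) ≠ ⊤ := measure_ball_lt_top.ne
  set β := (volume (ball (0 : E n) 1)).toReal with hβ
  have hβ0 : 0 < β := ENNReal.toReal_pos b1 b1'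
  set γ := (C * volume (ball (0 : E n) 2)).toReal with hγ
  have hγ0 : 0 ≤ γ := ENNReal.toReal_nonneg
  set c := 2 * γ * Real.log 81 / β with hc
  have l81 : 0 ≤ Real.log 81 := Real.log_nonneg (by norm_num)
  have hc0 : 0 ≤ c := by positivity
  have hec : 1 ≤ Real.exp c := Real.one_le_exp hc0
  refine ⟨2 * Real.exp c, by linarith, fun k p A M hA hp hh hM hv hb u hu => ?_⟩
  obtain ⟨u0, hu0, hmax⟩ := (isCompact_closedBall (0 : E n) 1).exists_isMaxOn
    ⟨0, mem_closedBall_self zero_le_one⟩ hp.continuous.norm.continuousOn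
  set S := ‖p u0‖ with hS
  have hS0 : 0 ≤ S := norm_nonneg _
  have hu0' : ‖u0‖ ≤ 1 := mem_closedBall_zero_iff.1 hu0
  have he : 0 < A ^ 2 := by positivity
  have h9 : ∀ x ∈ ball u0 (4 * 2), ‖p x‖ ^ 2 ≤ S ^ 2 * 81 ^ k := fun x hx => by
    have h1 : ‖x‖ ≤ 9 := by
      have := norm_le_norm_add_norm_sub' x u0
      have := mem_ball_iff_norm.1 hx
      linarith
    have h2 : x = (9 : ℂ) • ((9 : ℂ)⁻¹ • x) := by rw [smul_inv_smul₀ (by norm_num)]
    have h3 : ‖p ((9 : ℂ)⁻¹ • x)‖ ≤ S := hmax (mem_closedBall_zero_iff.2 (by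
      rw [norm_smul, norm_inv, Complex.norm_ofNat]
      linarith))
    rw [h2, hh, norm_mul, norm_pow, Complex.norm_ofNat, mul_pow, ← pow_mul, mul_comm k 2, pow_mul,
      mul_comm, show (9 : ℝ) ^ 2 = 81 by norm_num]
    gcongr
  have hT : 0 < S ^ 2 * 81 ^ k + A ^ 2 := by positivity
  let f : ℂ → ℝ := fun w => Real.log (‖w‖ ^ 2 + A ^ 2)
  have hpc : ContDiff ℝ 2 p := by
    have := (hol_smooth isOpen_univ hp.differentiableOn).2.1
    exact (contDiffOn_univ.1 this).of_le (by norm_cast)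
  have hfp : ContDiff ℝ 2 fun x => f (p x) := (clremez_cd he).comp hpc
  let U : E n → ℝ := fun x => Real.log (S ^ 2 * 81 ^ k + A ^ 2) * 1 + (-1) * f (p x)
  have hU : ∀ x, U x = Real.log (S ^ 2 * 81 ^ k + A ^ 2) - Real.log (‖p x‖ ^ 2 + A ^ 2) :=
    fun x => by simp only [U, f]; ring
  have key := H u0 2 0 U two_pos le_rfl
    (contDiff_const.add (contDiff_const.mul hfp)).contDiffOn fun x hx => by
    refine ⟨?_, fun v => ?_⟩
    · rw [hU, sub_nonneg]
      exact Real.log_le_log (by positivity) (by linarith [h9 x hx])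
    · have h1 := Lv_comp (f := f) (g := p) (x := x) (clremez_cd he).contDiffAt
        (Eventually.of_forall fun y => hp y) v
      have h2 := clremez_Lv he (p x) (fderiv ℂ p x v)
      have h3 : ∀ z, D2 (fun _ : E n => (1 : ℝ)) x z = 0 := fun z => by simp [D2]
      have h4 : Lv U x v = -Lv (fun y => f (p y)) x v := by
        simp only [Lv, U, D2_add contDiffAt_const hfp.contDiffAt, h3]
        ring
      rw [h4, h1, zero_mul]
      exact neg_nonpos.2 h2
  set L := Real.log (S ^ 2 * 81 ^ k + A ^ 2) - Real.log (A ^ 2 + A ^ 2) with hL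
  let M' : Set (E n) := ball 0 1 ∩ {x | ‖p x‖ ≤ A}
  have hM' : MeasurableSet M' :=
    measurableSet_ball.inter (isClosed_le hp.continuous.norm continuous_const).measurableSet
  have h1 : ENNReal.ofReal L * volume M' ≤ ∫⁻ x in ball u0 2, ENNReal.ofReal (U x) := by
    rw [← setLIntegral_const]
    refine (setLIntegral_mono' hM' fun x hx => ENNReal.ofReal_le_ofReal ?_).trans
      (lintegral_mono_set fun x hx => ?_)
    · rw [hU, hL]
      have h5 : ‖p x‖ ≤ A := hx.2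
      have : ‖p x‖ ^ 2 ≤ A ^ 2 := by gcongr
      have := Real.log_le_log (x := ‖p x‖ ^ 2 + A ^ 2) (y := A ^ 2 + A ^ 2) (by positivity)
        (by linarith)
      linarith
    · have := norm_sub_le x u0
      have := mem_ball_zero_iff.1 hx.1
      exact mem_ball_iff_norm.2 (by linarith)
  have h2 : U u0 + 0 * 2 ^ 2 ≤ k * Real.log 81 := by
    rw [hU, zero_mul, add_zero, ← Real.log_pow, sub_le_iff_le_add, ← Real.log_mul (by positivity)
      (by positivity), ← hS]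
    refine Real.log_le_log hT ?_
    have : (1 : ℝ) ≤ 81 ^ k := one_le_pow₀ (by norm_num)
    nlinarith
  have h3 : ENNReal.ofReal L * volume (ball (0 : E n) 1) ≤
      2 * (C * volume (ball (0 : E n) 2) * ENNReal.ofReal (k * Real.log 81)) := by
    calc _ ≤ ENNReal.ofReal L * (2 * volume M') := by
          refine mul_le_mul_right (hv.trans ?_) _
          exact mul_le_mul_right (measure_mono (t := M') fun x hx => ⟨hM hx, hb x hx⟩) _
      _ = 2 * (ENNReal.ofReal L * volume M') := by ring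
      _ ≤ _ := by
          refine mul_le_mul_right ((h1.trans key).trans ?_) _
          rw [Measure.addHaar_ball_center]
          exact mul_le_mul_right (ENNReal.ofReal_le_ofReal h2) _
  have h4 : L ≤ k * c := by
    rcases le_or_gt L 0 with h | h
    · exact h.trans (by positivity)
    have h5 := ENNReal.toReal_mono (by finiteness) h3
    rw [ENNReal.toReal_mul, ENNReal.toReal_mul, ENNReal.toReal_mul, ENNReal.toReal_ofReal h.le,
      ENNReal.toReal_ofReal (by positivity), ← hβ, ← hγ, ENNReal.toReal_ofNat] at h5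
    rw [hc, ← mul_div_assoc, le_div_iff₀ hβ0]
    linarith
  have h5 : S ^ 2 * 81 ^ k + A ^ 2 ≤ Real.exp c ^ k * (A ^ 2 + A ^ 2) := by
    rw [← Real.exp_nat_mul, ← Real.log_le_log_iff hT (by positivity),
      Real.log_mul (by positivity) (by positivity), Real.log_exp]
    linarith
  refine (hmax (ball_subset_closedBall hu)).trans ?_
  change S ≤ _
  refine (sq_le_sq₀ hS0 (by positivity)).1 ?_
  have h6 : (1 : ℝ) ≤ 81 ^ k := one_le_pow₀ (by norm_num)
  have h7 : 1 ≤ Real.exp c ^ k := one_le_pow₀ hec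
  have h8 : 2 * Real.exp c ^ k ≤ (2 * Real.exp c) ^ (k + 1) := by
    rw [mul_pow, pow_succ, pow_succ]
    have : (1 : ℝ) ≤ 2 ^ k := one_le_pow₀ (by norm_num)
    have h10 : Real.exp c ^ k ≤ Real.exp c ^ k * Real.exp c := le_mul_of_one_le_right (by positivity) hec
    nlinarith
  have h10 : S ^ 2 ≤ A ^ 2 * (2 * Real.exp c ^ k) := by nlinarith [sq_nonneg S]
  have h11 : (2 * Real.exp c) ^ (k + 1) ≤ ((2 * Real.exp c) ^ (k + 1)) ^ 2 := by nlinarith
  rw [mul_pow]
  exact h10.trans (mul_le_mul_of_nonneg_left (h8.trans h11) he.le)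

theorem remez (n : ℕ) : ∃ C ≥ (1 : ℝ), ∀ (k : ℕ) (p : E n → ℂ) (A : ℝ) (M : Set (E n)),
    Differentiable ℂ p → (∀ (t : ℂ) u, p (t • u) = t ^ k * p u) → M ⊆ ball 0 1 →
    volume (ball (0 : E n) 1) ≤ 2 * volume M → (∀ u ∈ M, ‖p u‖ ≤ A) →
    ∀ u ∈ ball (0 : E n) 1, ‖p u‖ ≤ A * C ^ (k + 1) := by
  obtain ⟨C, hC, H⟩ := clremez_pos n
  refine ⟨C, hC, fun k p A M hp hh hM hv hb u hu => ?_⟩
  have h0 : 0 ≤ A := by
    rcases M.eq_empty_or_nonempty with rfl | ⟨x, hx⟩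
    · rw [measure_empty, mul_zero] at hv
      exact absurd hv (measure_ball_pos _ _ one_pos).not_ge
    · exact (norm_nonneg _).trans (hb x hx)
  have hK : 0 < C ^ (k + 1) := by positivity
  refine le_of_forall_pos_le_add fun ε hε => ?_
  have := H k p (A + ε / C ^ (k + 1)) M (by positivity) hp hh hM hv
    (fun x hx => (hb x hx).trans (le_add_of_nonneg_right (by positivity))) u hu
  rwa [add_mul, div_mul_cancel₀ _ hK.ne'] at this

end Pool.Agent.CL
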