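import Pool.Agent.P.MP_63735c_ag.SPDefs

/-! Local embeddings of a singular space whose regular part is holomorphic symplectic. -/

open scoped ContDiff Matrix Topology

namespace Pool.Agent.SPF

/-- An open set of `ℂ^M` with a holomorphic bivector `π` and a smooth (1,1)-form `η`. -/
structure AmbChart (M : ℕ) where
  W : Set (E M)
  π : E M → Matrix (Fin M) (Fin M) ℂ
  η : E M → Matrix (Fin M) (Fin M) ℂ
  isOpen : IsOpen W
  π_hol : ∀ a b, DifferentiableOn ℂ (fun w => π w a b) W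
  π_skew : ∀ w ∈ W, (π w)ᵀ = -π w
  η_smooth : ∀ a b, ContDiffOn ℝ ∞ (fun w => η w a b) W

/-- Local embeddings `z α : V α → ℂ^M` of `X`, compatible with each other and with an atlas `A` of
the open part `R`: on `R` they are holomorphic immersions, `η` is the restriction of an ambient
smooth form, the Poisson tensor `σ⁻¹` is the restriction of an ambient holomorphic bivector, and
that bivector has rank `< N` outside `R`. -/
structure Amb {X : Type} [TopologicalSpace X] {N : ℕ} (R : Set X) (A : Atlas R N) where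
  κ : Type
  M : κ → ℕ
  D : ∀ α, AmbChart (M α)
  V : κ → Set X
  z : ∀ α, X → E (M α)
  V_open : ∀ α, IsOpen (V α)
  cover : ∀ x, ∃ α, x ∈ V α
  cont : ∀ α, ContinuousOn (z α) (V α)
  inj : ∀ α, Set.InjOn (z α) (V α)
  maps : ∀ α, Set.MapsTo (z α) (V α) (D α).W
  trans : ∀ α β, ∀ x ∈ V α ∩ V β, ∃ φ : E (M α) → E (M β),
    (∀ᶠ w in 𝓝 (z α x), DifferentiableAt ℂ φ w) ∧ ∀ᶠ x' in 𝓝 x, z β x' = φ (z α x')
  hol : ∀ α i, ∀ y ∈ (A.C i).W, (A.p i y : X) ∈ V α →
    DifferentiableAt ℂ (fun y' => z α (A.p i y')) y ∧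
      Function.Injective (fderiv ℂ (fun y' => z α (A.p i y')) y)
  π_eq : ∀ α i, ∀ y ∈ (A.C i).W, (A.p i y : X) ∈ V α → (D α).π (z α (A.p i y)) =
    jac (fun y' => z α (A.p i y')) y * ((A.C i).σ y)⁻¹ * (jac (fun y' => z α (A.p i y')) y)ᵀ
  η_eq : ∀ α i, ∀ y ∈ (A.C i).W, (A.p i y : X) ∈ V α → (A.C i).η y =
    (jac (fun y' => z α (A.p i y')) y)ᵀ * (D α).η (z α (A.p i y)) *
      (jac (fun y' => z α (A.p i y')) y).map star
  sing : ∀ α, ∀ x ∈ V α, x ∉ R → ((D α).π (z α x)).rank < N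

end Pool.Agent.SPF
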