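import Pool.Agent.P.MP_63735c_ag.CKDefs
import Pool.Agent.P.MP_63735c_ag.SQDefs

/-! Kähler forms on the regular part of a singular space. -/

open scoped ComplexOrder ContDiff Matrix Topology

namespace Pool.Agent.CS

open Pool.Agent.SPF Pool.Agent.CK

variable {N : ℕ} {X : Type} [TopologicalSpace X]

/-- Near every point of `X` the form `K` is the restriction of a continuous positive form on the
ambient space of a local embedding. -/
def IsKahler {R : Set X} {A : Atlas R N} (B : Amb R A) (K : Form11 A) : Prop :=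
  ∀ x : X, ∃ (α : B.κ) (H : E (B.M α) → Matrix (Fin (B.M α)) (Fin (B.M α)) ℂ), x ∈ B.V α ∧
    ContinuousAt H (B.z α x) ∧ (H (B.z α x)).PosDef ∧ ∀ᶠ x' in 𝓝 x, ∀ i, ∀ y ∈ (A.C i).W,
      (A.p i y : X) = x' → K.h i y = (jac (fun y' => B.z α (A.p i y')) y)ᵀ * H (B.z α x') *
        (jac (fun y' => B.z α (A.p i y')) y).map star

end Pool.Agent.CS
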