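import Pool.Agent.P.MP_63735c_ag.CWLet

/-! The displacements of words with small product take finitely many values. -/

open scoped ContDiff Matrix ENNReal
open Set Metric MeasureTheory Filter Topology

namespace Pool.Agent.CL

open Pool.Agent.SPF

variable {n : ℕ} {X : Type} [TopologicalSpace X] [MeasurableSpace X]

namespace Big

variable {B : Big n X} {c : E n} {t d τ : ℝ} {l : B.Lab} {y : E n} {g : Ret n}

theorem cw_act0 (h : B.shf.At l y g) : g.act (y, g.α y) = (B.S.G.γ l.1 y, 0) := by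
  simp only [Ret.act, sub_self, map_zero, h.gam.eq_of_nhds]

theorem cw_int (h : B.shf.At l y g) (hl : B.S.G.lg.sz l.1 ≤ B.S.G.lg.ε)
    (hy : y ∈ ball B.S.G.y0 (2 * B.S.G.r)) (m : Fin B.S.Q.r0 → ℤ) (j : Fin B.S.M.m) :
    ∃ k : ℤ, l.2 (B.H.iint m j) = k := by
  obtain ⟨O, hO, hy'⟩ := h.germ
  obtain ⟨k, hk⟩ := B.H.int m j O g hO (y, 0) hy' fun k => by
    rw [(h.N hy).eq_of_nhds, h.gam.eq_of_nhds, h.pres hl hy k y hy]
  exact ⟨k, (h.sh.self_of_nhds 0 _).symm.trans hk⟩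

theorem cw_chi (h : B.shf.At l y g) (hl : B.S.G.lg.sz l.1 ≤ B.S.G.lg.ε)
    (hy : y ∈ ball B.S.G.y0 (2 * B.S.G.r)) (k : Fin B.S.Q.r0) (a : ℂ) {r : Fin B.S.M.m → ℝ}
    (hr : ∀ p : P n, p.1 ∈ B.S.M.T →
      B.H.Fn (B.H.ichi (Pi.single k 1) a) p = ∑ j, r j * B.H.Fn (B.H.iint (Pi.single k 1) j) p) :
    (a * B.S.chi l.1 k).re = ∑ j, r j * l.2 (B.H.iint (Pi.single k 1) j) := by
  have e : zm B.S.Q.z (Pi.single k 1) = B.S.Q.z k := by
    funext x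
    simp [zm, Pi.single_apply]
  have h1 := (h.pres hl hy).chi hl
    (B.S.G.ball_sub (mem_ball_self (by linarith [B.S.G.r_pos]))) hy k
  have h2 : ∀ j, l.2 j = B.H.Fn j (B.S.G.γ l.1 y, 0) - B.H.Fn j (y, g.α y) := fun j => by
    rw [← cw_act0 h]
    exact (h.sh.self_of_nhds _ j).symm
  have h3 := hr (B.S.G.γ l.1 y, 0) (B.S.G.sub (B.S.G.mem_T hl hy))
  have h4 := hr (y, g.α y) (B.S.G.ball_sub hy)
  rw [B.H.chi, e] at h3 h4
  rw [Finset.sum_congr rfl fun j _ => by rw [h2, mul_sub], Finset.sum_sub_distrib, ← h3, ← h4,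
    ← h1, mul_sub, Complex.sub_re]

omit [TopologicalSpace X] in
theorem half_le (μ : Measure X) {U : Set X} (v0 : μ U ≠ 0) (v1 : μ U ≠ ⊤) {f : X → ℝ≥0∞}
    (hf : Measurable f) {a : ℝ} (ha : 0 ≤ a) (h : ∫⁻ x in U, f x ∂μ ≤ ENNReal.ofReal a) :
    μ U / 2 ≤ μ (U ∩ {x | f x < ENNReal.ofReal (2 * a / (μ U).toReal + 1)}) := by
  have v2 := ENNReal.toReal_pos v0 v1
  set L := ENNReal.ofReal (2 * a / (μ U).toReal + 1) with hL
  have m1 : MeasurableSet {x | L ≤ f x} := measurableSet_le measurable_const hf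
  have h1 := (mul_meas_ge_le_lintegral (μ := μ.restrict U) hf L).trans h
  rw [Measure.restrict_apply m1] at h1
  have h2 : μ ({x | L ≤ f x} ∩ U) ≤ μ U / 2 := by
    have L0 : L ≠ 0 := (ENNReal.ofReal_pos.2 (by positivity)).ne'
    refine (ENNReal.mul_le_mul_iff_right L0 ENNReal.ofReal_ne_top).1 (h1.trans ?_)
    have e : μ U / 2 = ENNReal.ofReal ((μ U).toReal / 2) := by
      rw [ENNReal.ofReal_div_of_pos two_pos, ENNReal.ofReal_toReal v1, ENNReal.ofReal_ofNat]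
    rw [e, hL, ← ENNReal.ofReal_mul (by positivity)]
    refine ENNReal.ofReal_le_ofReal ?_
    have : (2 * a / (μ U).toReal + 1) * ((μ U).toReal / 2) = a + (μ U).toReal / 2 := by
      field_simp
    linarith
  have h3 : μ U ≤ μ (U ∩ {x | f x < L}) + μ U / 2 := by
    refine le_trans (measure_mono fun x hx => ?_) ((measure_union_le (μ := μ)
      (U ∩ {x | f x < L}) ({x | L ≤ f x} ∩ U)).trans (by gcongr))
    exact (lt_or_ge (f x) L).imp (fun h => ⟨hx, h⟩) fun h => ⟨h, hx⟩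
  have h4 : μ U / 2 ≠ ⊤ := ENNReal.div_ne_top v1 two_ne_zero
  refine (ENNReal.add_le_add_iff_right h4).1 ?_
  rwa [ENNReal.add_halves]

variable [T2Space X]

theorem word_pt (hc : ball c t ⊆ ball B.S.G.y0 (B.S.G.r / 2)) (ht : 0 < t) (hd : d ≤ B.S.G.lg.ε)
    (hτ : τ ≤ B.S.G.lg.ε) (h1 : B.S.G.lg.L * τ ≤ t / 4) {S : Set B.Ltr} (hS : S.Finite)
    (hs : S ⊆ B.Lets c t d) : ∃ M ≥ (0 : ℝ), ∀ w : List B.Ltr, (∀ x ∈ w, x ∈ S) →
      B.alph.Lev τ w → ∃ O, MeasurableSet O ∧ volume (ball c (t / 4)) / 2 ≤ volume O ∧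
        O ⊆ ball c (t / 4) ∧ ∀ y ∈ O, ∃ g, B.shf.At (B.lab w) y g ∧
          ‖g.α y‖ ≤ 2 + M * w.length := by
  obtain ⟨cost, hw⟩ := word_rl hc ht
  obtain ⟨M1, hM1⟩ := (hS.image cost).bddAbove
  obtain ⟨M2, hM2⟩ := (hS.image fun x => 2 * x.m).bddAbove
  have v0 : volume (ball c (t / 4)) ≠ 0 := (measure_ball_pos _ _ (by linarith)).ne'
  have v1 : volume (ball c (t / 4)) ≠ ⊤ := measure_ball_lt_top.ne
  have v2 := ENNReal.toReal_pos v0 v1
  refine ⟨2 * |M1| / (volume (ball c (t / 4))).toReal + |M2|, by positivity, fun w h2 h3 => ?_⟩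
  obtain ⟨h4, h5⟩ := hw d τ hd hτ h1 w (fun x hx => hs (h2 x hx)) h3
  have hm := B.shf.ht_meas (B.lab w) (B.bw w)
  refine ⟨_, measurableSet_ball.inter (measurableSet_lt hm measurable_const),
    half_le volume v0 v1 hm h4 h5.int, inter_subset_left, fun y ⟨hy, h6⟩ => ?_⟩
  have h7 : B.shf.ht (B.lab w) (B.bw w) y ≤ _ := le_of_lt h6
  obtain ⟨g0, h8⟩ := ShF.exists_of_ht (ne_top_of_le_ne_top ENNReal.ofReal_ne_top h7)
  obtain ⟨g, h9, -, h10⟩ := h8.red ((lab_fst w ▸ h3.sz).trans hτ) (ball_subset_ball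
    (by linarith [B.S.G.r_pos]) (hc (ball_subset_ball (by linarith) hy))) 0
  rw [h9.ht_eq, ← ofReal_norm, ENNReal.ofReal_le_ofReal_iff (by positivity)] at h7
  have sm : ∀ (f : B.Ltr → ℝ) (M : ℝ), (∀ x ∈ S, f x ≤ M) → (w.map f).sum ≤ |M| * w.length :=
    fun f M hf => by
      have := List.sum_le_card_nsmul (w.map f) |M| fun a ha => by
        obtain ⟨x, hx, rfl⟩ := List.mem_map.1 ha
        exact (hf x (h2 x hx)).trans (le_abs_self M)
      rwa [List.length_map, nsmul_eq_mul, mul_comm] at this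
  refine ⟨g, h9.1, (norm_le_I B.S.Q.I _).trans ?_⟩
  rw [sub_zero] at h10
  have h11 := (h5.bd y hy).trans (sm _ M2 fun x hx => hM2 ⟨x, hx, rfl⟩)
  have h12 := div_le_div_of_nonneg_right (mul_le_mul_of_nonneg_left
    (sm _ M1 fun x hx => hM1 ⟨x, hx, rfl⟩) zero_le_two) v2.le
  rw [h9.2.eq_of_nhds, add_mul, div_mul_eq_mul_div, mul_assoc]
  linarith

theorem fin_chi (hc : ball c t ⊆ ball B.S.G.y0 (B.S.G.r / 2)) (ht : 0 < t) (hd : d ≤ B.S.G.lg.ε)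
    {δ a : ℝ} {KK : Set (List B.Ltr)} (h : B.alph.Rc (B.Lets c t d) δ a KK) (hδ : 0 < δ)
    (hε : a + 4 * B.S.G.lg.L * δ ≤ B.S.G.lg.ε) (ha : δ ≤ a)
    (h1 : B.S.G.lg.L * (a + 4 * B.S.G.lg.L * δ) ≤ t / 4) {S : Set B.Ltr} (hS : S.Finite)
    (hs : S ⊆ B.Lets c t d) (hK : ∀ K ∈ KK, ∀ x ∈ K, B.alph.inv x ∈ S) :
    {χ | ∃ w : List B.Ltr, (∀ x ∈ w, x ∈ S) ∧ B.alph.Lev (a + B.S.G.lg.L * δ) w ∧
      B.S.G.lg.sz (B.alph.en w) ≤ δ ∧ χ = B.S.chi (B.alph.en w)}.Finite := by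
  obtain ⟨M, hM, hp⟩ := word_pt hc ht hd hε h1 hS hs
  have hr := B.S.G.r_pos
  have b1 : ball c (t / 4) ⊆ ball B.S.G.y0 B.S.G.r :=
    (ball_subset_ball (by linarith)).trans (hc.trans (ball_subset_ball (by linarith)))
  have b2 : ball B.S.G.y0 B.S.G.r ⊆ ball B.S.G.y0 (2 * B.S.G.r) := ball_subset_ball (by linarith)
  have hL : 0 < B.S.G.lg.L * δ := mul_pos B.S.G.lg.L_pos hδ
  have v0 : volume (ball c (t / 4)) / 2 ≠ 0 :=
    (ENNReal.half_pos (measure_ball_pos _ _ (by linarith)).ne').ne'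
  have key : ∀ i : Fin B.S.Q.r0 × Fin B.S.M.m, ∃ D : ℝ, ∀ w : List B.Ltr, (∀ x ∈ w, x ∈ S) →
      B.alph.Lev (a + B.S.G.lg.L * δ) w → B.S.G.lg.sz (B.alph.en w) ≤ δ →
      |(w.map fun x => x.l.2 (B.H.iint (Pi.single i.1 1) i.2)).sum| ≤ D := by
    intro i
    refine h.bd hδ hε ha (fun x hx => ⟨hx.1.1.trans hd, hx.1.2.trans hd⟩) hs hK
      (fun _ _ => rfl) fun κ hκ => ?_
    obtain ⟨C, hC⟩ := B.H.sub (Pi.single i.1 1) i.2 (κ / (M + 1)) (by positivity) _ v0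
    refine ⟨κ / (M + 1) * 2 + C, fun w h2 h3 => ?_⟩
    obtain ⟨O, m1, m2, m3, m4⟩ := hp w h2 h3
    have h6 : B.S.G.lg.sz (B.lab w).1 ≤ B.S.G.lg.ε := (lab_fst w ▸ h3.sz).trans hε
    have h7 := hC (B.lab w).1 O (2 + M * w.length) ((B.lab w).2 (B.H.iint (Pi.single i.1 1) i.2))
      h6 m1 m2 (m3.trans ((ball_subset_ball (by linarith)).trans hc)) fun y hy => by
        obtain ⟨g, h4, h5⟩ := m4 y hy
        have hy' := b2 (b1 (m3 hy))
        refine ⟨g, h4.germ, h4.gam.eq_of_nhds, fun k => ?_, h5, fun ξ => h4.sh.self_of_nhds ξ _⟩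
        rw [(h4.N hy').eq_of_nhds, h4.gam.eq_of_nhds, h4.pres h6 hy' k y hy']
    rw [← lab_snd]
    refine h7.trans ?_
    have h8 : κ / (M + 1) * (M * w.length) ≤ κ * w.length := by
      rw [← mul_assoc]
      refine mul_le_mul_of_nonneg_right ?_ (Nat.cast_nonneg _)
      rw [div_mul_eq_mul_div, div_le_iff₀ (by positivity)]
      nlinarith
    linarith
  choose D hD using key
  choose r hr' using fun (k : Fin B.S.Q.r0) (a : ℂ) => B.H.span (Pi.single k 1) a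
  refine ((Set.Finite.pi' fun i : Fin B.S.Q.r0 × Fin B.S.M.m =>
    Set.finite_Icc (-⌈D i⌉) ⌈D i⌉).image fun (v : Fin B.S.Q.r0 × Fin B.S.M.m → ℤ) k =>
      (⟨∑ j, r k 1 j * v (k, j), ∑ j, r k (-Complex.I) j * v (k, j)⟩ : ℂ)).subset ?_
  rintro _ ⟨w, h2, h3, h4, rfl⟩
  obtain ⟨O, -, m2, m3, m4⟩ := hp w h2 (h3.mono (by linarith))
  obtain ⟨y, hyO⟩ := nonempty_of_measure_ne_zero (ne_zero_of_lt ((pos_iff_ne_zero.2 v0).trans_le m2))
  obtain ⟨g, h5, -⟩ := m4 y hyO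
  have hy := m3 hyO
  have h6 : B.S.G.lg.sz (B.lab w).1 ≤ B.S.G.lg.ε := (lab_fst w ▸ h4).trans (by linarith)
  choose v hv using fun i : Fin B.S.Q.r0 × Fin B.S.M.m =>
    cw_int h5 h6 (b2 (b1 hy)) (Pi.single i.1 1) i.2
  refine ⟨v, fun i => ?_, funext fun k => ?_⟩
  · have h7 := hD i w h2 h3 h4
    rw [← lab_snd, hv i] at h7
    exact abs_le.1 (by exact_mod_cast h7.trans (Int.le_ceil _))
  · have h7 := cw_chi h5 h6 (b2 (b1 hy)) k 1 (hr' k 1)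
    have h8 := cw_chi h5 h6 (b2 (b1 hy)) k (-Complex.I) (hr' k _)
    rw [lab_fst] at h7 h8
    simp only [← hv]
    refine Complex.ext (h7.symm.trans (by simp)) (h8.symm.trans (by simp))

end Big

end Pool.Agent.CL
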