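import Pool.Agent.P.MP_63735c_ag.CWCov
import Pool.Agent.P.MP_63735c_ag.CLAvD

/-! Labelled returns. -/

open scoped ContDiff Matrix ENNReal
open Set Metric MeasureTheory Filter Topology

namespace Pool.Agent.CL

open Pool.Agent.SPF

variable {n : ℕ} {X : Type} [TopologicalSpace X] [MeasurableSpace X]

/-- A family of functions that small returns shift by constants. -/
structure ShF (S : Setup n X) (Fm : Type) where
  F : Fm → P n → ℝ
  shift : ∀ O g j, IsRet S.M.T S.M.Ψ O g → Convex ℝ O → O ⊆ ball S.G.y0 (2 * S.G.r) →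
    S.G.lg.sz j ≤ S.G.lg.ε → S.Pres j → (∀ x ∈ O, g.γ x = S.G.γ j x) →
    ∀ f, ∃ c, ∀ p : P n, p.1 ∈ O → F f (g.act p) - F f p = c
  per : ∀ f, ∀ y ∈ S.M.T, ∀ ξ, ∀ s ∈ ZI S.Q.I, F f (y, ξ - s) = F f (y, ξ)
  uniq : ∀ y ∈ S.M.T, ∀ α, Germ S.M.T S.M.Ψ y (Ret.per α) →
    (∀ f ξ, F f (y, ξ - α y) = F f (y, ξ)) → ∃ s ∈ ZI S.Q.I, α =ᶠ[𝓝 y] fun _ => s

variable {S : Setup n X} {Fm : Type}

theorem Setup.ret_ZI (S : Setup n X) {s : E n} (hs : s ∈ ZI S.Q.I) :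
    IsRet S.M.T S.M.Ψ S.M.T (Ret.per fun _ => s) := by
  choose! m hm using S.Q.e_mem
  choose t ht using fun k => (hs k).1
  refine (isRet_zm S.M.T_open subset_rfl S.Q.per0.z_ret (∑ i ∈ S.Q.I, t i • m i)).congr
    fun x hx => ⟨rfl, ?_, rfl⟩
  have e : zm S.Q.z (∑ i ∈ S.Q.I, t i • m i) x = ∑ i ∈ S.Q.I, (t i : ℂ) • zm S.Q.z (m i) x := by
    simp only [zm, Finset.sum_apply, Pi.smul_apply, smul_eq_mul, Int.cast_sum, Int.cast_mul,
      Finset.sum_smul, Finset.smul_sum, smul_smul]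
    exact Finset.sum_comm
  show s = zm S.Q.z _ x
  rw [e, Finset.sum_congr rfl fun i hi => by rw [hm i hi x hx]]
  funext k
  by_cases hk : k ∈ S.Q.I
  · simp [Finset.sum_apply, Pi.single_apply, hk, ht k]
  · simp [Finset.sum_apply, Pi.single_apply, hk, (hs k).2 hk]

theorem exists_ZI (I : Finset (Fin n)) (ξ : E n) : ∃ s ∈ ZI I, ‖reI I (ξ + s)‖ ≤ 1 := by
  refine ⟨fun k => if k ∈ I then ((-⌊(ξ k).re⌋ : ℤ) : ℂ) else 0, fun k => ?_,
    (pi_norm_le_iff_of_nonneg zero_le_one).2 fun k => ?_⟩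
  · by_cases hk : k ∈ I
    · exact ⟨⟨-⌊(ξ k).re⌋, by simp [hk]⟩, fun h => absurd hk h⟩
    · exact ⟨⟨0, by simp [hk]⟩, fun _ => by simp [hk]⟩
  · by_cases hk : k ∈ I
    · have h1 := Int.fract_nonneg (ξ k).re
      have h2 := (Int.fract_lt_one (ξ k).re).le
      simp only [reI_apply, hk, if_true, Pi.add_apply, Complex.add_re, Complex.intCast_re,
        Complex.norm_real, Real.norm_eq_abs, Int.cast_neg, Complex.neg_re]
      rw [← sub_eq_add_neg, Int.self_sub_floor, abs_of_nonneg h1]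
      exact h2
    · simp [reI_apply, hk]

theorem norm_le_I (I : Finset (Fin n)) (ξ : E n) :
    ‖ξ‖ ≤ ‖reI I ξ‖ + ‖tauI I ξ‖ + ‖piI I ξ‖ := by
  conv_lhs => rw [split_I I ξ]
  refine norm_add₃_le.trans (le_of_eq ?_)
  rw [norm_smul, Complex.norm_I, one_mul]

namespace ShF
variable (H : ShF S Fm)

/-- `g` is a return near `y` with label `l`. -/
structure At (l : S.G.G × (Fm → ℝ)) (y : E n) (g : Ret n) : Prop where
  germ : Germ S.M.T S.M.Ψ y g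
  gam : g.γ =ᶠ[𝓝 y] S.G.γ l.1
  sh : ∀ᶠ x in 𝓝 y, ∀ ξ f, H.F f (g.act (x, ξ)) - H.F f (x, ξ) = l.2 f

/-- Product of labels. -/
def mul (l' l : S.G.G × (Fm → ℝ)) : S.G.G × (Fm → ℝ) := (S.G.lg.mul l'.1 l.1, l'.2 + l.2)

/-- Inverse of a label. -/
def inv (l : S.G.G × (Fm → ℝ)) : S.G.G × (Fm → ℝ) := (S.G.lg.inv l.1, -l.2)

/-- `g` has label `l` and transverse part `b`. -/
def AtB (l : S.G.G × (Fm → ℝ)) (b : E n → E n) (y : E n) (g : Ret n) : Prop :=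
  H.At l y g ∧ (fun x => piI S.Q.I (g.α x)) =ᶠ[𝓝 y] b

/-- The height of the label at `y`. -/
noncomputable def ht (l : S.G.G × (Fm → ℝ)) (b : E n → E n) (y : E n) : ℝ≥0∞ :=
  ⨅ (g : Ret n) (_ : H.AtB l b y g), ‖tauI S.Q.I (g.α y)‖ₑ

variable {H} {l l' : S.G.G × (Fm → ℝ)} {b : E n → E n} {y : E n} {g g' : Ret n}

omit [TopologicalSpace X] [MeasurableSpace X] in
theorem _root_.Pool.Agent.CL.Germ.ev {T : Set (E n)} {Ψ : P n → X} (h : Germ T Ψ y g) :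
    ∀ᶠ x in 𝓝 y, Germ T Ψ x g := by
  obtain ⟨O, hO, hy⟩ := h
  filter_upwards [hO.isOpen.mem_nhds hy] with x hx using ⟨O, hO, hx⟩

omit [TopologicalSpace X] [MeasurableSpace X] in
theorem _root_.Pool.Agent.CL.Germ.facts {T : Set (E n)} {Ψ : P n → X} (h : Germ T Ψ y g) :
    y ∈ T ∧ g.γ y ∈ T ∧ DifferentiableAt ℂ g.γ y ∧ DifferentiableAt ℂ g.α y ∧
      ∀ ξ u, g.N y ξ ⬝ᵥ fderiv ℂ g.γ y u = ξ ⬝ᵥ u := by
  obtain ⟨O, hO, hy⟩ := h
  have h1 := hO.isOpen.mem_nhds hy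
  exact ⟨hO.sub hy, hO.maps hy, hO.γ_hol.differentiableAt h1, hO.α_hol.differentiableAt h1,
    hO.pair y hy⟩

theorem At.ev (h : H.At l y g) : ∀ᶠ x in 𝓝 y, H.At l x g := by
  filter_upwards [h.germ.ev, h.gam.eventually_nhds, h.sh.eventually_nhds] with x a b c
  exact ⟨a, b, c⟩

theorem AtB.ev (h : H.AtB l b y g) : ∀ᶠ x in 𝓝 y, H.AtB l b x g := by
  filter_upwards [h.1.ev, h.2.eventually_nhds] with x a b using ⟨a, b⟩

theorem At.pres (h : H.At l y g) (hl : S.G.lg.sz l.1 ≤ S.G.lg.ε)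
    (hy : y ∈ ball S.G.y0 (2 * S.G.r)) : S.Pres l.1 := S.pres _ hl y hy g h.germ h.gam

theorem At.fd (h : H.At l y g) : ∀ᶠ x in 𝓝 y, g.γ x = S.G.γ l.1 x ∧
    fderiv ℂ g.γ x = fderiv ℂ (S.G.γ l.1) x := h.gam.and h.gam.fderiv

theorem At.N (h : H.At l y g) (hy : y ∈ ball S.G.y0 (2 * S.G.r)) : g.N =ᶠ[𝓝 y] S.G.N l.1 :=
  h.germ.N_eq h.gam (mem_of_superset (isOpen_ball.mem_nhds hy) fun x hx => S.G.pair _ x hx)

theorem At.comp (h : H.At l y g) (h' : H.At l' (S.G.γ l.1 y) g') (hl : S.G.lg.sz l.1 ≤ S.G.lg.ε)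
    (hl' : S.G.lg.sz l'.1 ≤ S.G.lg.ε) (hy : y ∈ ball S.G.y0 (3 / 2 * S.G.r)) :
    H.At (mul l' l) y (g'.comp g) := by
  rw [← h.gam.eq_of_nhds] at h'
  have hc := h.germ.facts.2.2.1.continuousAt
  obtain ⟨h1, h2⟩ := h.germ.comp h'.germ
  refine ⟨h1, ?_, ?_⟩
  · filter_upwards [h.gam, hc.eventually h'.gam, isOpen_ball.mem_nhds hy] with x a b c
    exact b.trans (a ▸ (S.G.γ_mul _ _ hl' hl x c).symm)
  · filter_upwards [h.sh, hc.eventually h'.sh, h2] with x a b c ξ f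
    have h3 := b (g.act (x, ξ)).2 f
    have h4 := a ξ f
    rw [c]
    show _ = l'.2 f + l.2 f
    have e : (g.γ x, (g.act (x, ξ)).2) = g.act (x, ξ) := rfl
    rw [e] at h3
    linarith

theorem At.trans (h : H.At l y g) (hl : S.G.lg.sz l.1 ≤ S.G.lg.ε)
    (hy : y ∈ ball S.G.y0 (2 * S.G.r)) {s : E n} (hs : s ∈ ZI S.Q.I) :
    ∃ g', H.At l y g' ∧ g'.α =ᶠ[𝓝 y] fun x => g.α x + s := by
  obtain ⟨h1, h2⟩ := h.germ.comp ⟨_, S.ret_ZI hs, h.germ.facts.2.1⟩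
  refine ⟨_, ⟨h1, h.gam, ?_⟩, ?_⟩
  · filter_upwards [h.sh, h2, h.germ.ev] with x a c d ξ f
    rw [c, ← a ξ f]
    exact congrArg (· - _) (H.per f _ d.facts.2.1 _ s hs)
  · filter_upwards [h.fd, isOpen_ball.mem_nhds hy] with x a c
    show g.α x + tr (fderiv ℂ g.γ x) s = _
    rw [a.2, ((h.pres hl hy).e hl c fun k hk => (hs k).2 hk).2]

variable [T2Space X]

theorem At.inv (h : H.At l y g) (hl : S.G.lg.sz l.1 ≤ S.G.lg.ε)
    (hl' : S.G.lg.sz (S.G.lg.inv l.1) ≤ S.G.lg.ε) (hy : y ∈ ball S.G.y0 (3 / 2 * S.G.r)) :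
    ∃ g', H.At (inv l) (S.G.γ l.1 y) g' ∧ ∀ᶠ x in 𝓝 (S.G.γ l.1 y),
      g'.α x = -S.G.N l.1 (S.G.γ (S.G.lg.inv l.1) x) (g.α (S.G.γ (S.G.lg.inv l.1) x)) := by
  obtain ⟨g', h1, h2, h3⟩ := S.M.inv h.germ
  have hy2 : y ∈ ball S.G.y0 (2 * S.G.r) := ball_subset_ball (by linarith [S.G.r_pos]) hy
  have hc : Tendsto g'.γ (𝓝 (g.γ y)) (𝓝 y) := by
    have := h1.facts.2.2.1.continuousAt.tendsto
    rwa [h2.self_of_nhds.1] at this
  have h4 : g'.γ =ᶠ[𝓝 (g.γ y)] S.G.γ (S.G.lg.inv l.1) := by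
    filter_upwards [h3, hc.eventually h.gam, hc.eventually (isOpen_ball.mem_nhds hy)] with x a b c
    rw [← (S.G.inv_γ hl hl' c).1, ← b, a.1]
  rw [← h.gam.eq_of_nhds]
  refine ⟨g', ⟨h1, h4, ?_⟩, ?_⟩
  · filter_upwards [h3, hc.eventually h.sh] with x a b ξ f
    have h5 := b (g'.act (x, ξ)).2 f
    have e : (g'.γ x, (g'.act (x, ξ)).2) = g'.act (x, ξ) := rfl
    rw [e, a.2] at h5
    show _ = -l.2 f
    linarith
  · filter_upwards [h3, h4, hc.eventually h2, hc.eventually (h.N hy2)] with x a b c d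
    rw [← b, ← d, ← c.2.1, a.1]

theorem At.uniq (h : H.At l y g) (h' : H.At l y g') :
    ∃ s ∈ ZI S.Q.I, g'.α =ᶠ[𝓝 y] fun x => g.α x + s := by
  obtain ⟨k, h1, h2, h3⟩ := S.M.inv h.germ
  have e0 : g'.γ =ᶠ[𝓝 y] g.γ := h'.gam.trans h.gam.symm
  obtain ⟨h4, h5⟩ := h'.germ.comp (e0.eq_of_nhds ▸ h1)
  have h6 : (k.comp g').γ =ᶠ[𝓝 y] fun x => x := by
    filter_upwards [e0, h2] with x a c
    show k.γ (g'.γ x) = x
    rw [a, c.1]
  have h7 := h4.per h6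
  have hu : ∀ f ξ, H.F f (y, ξ - (k.comp g').α y) = H.F f (y, ξ) := by
    intro f ξ
    have a1 := h7.self_of_nhds
    have a2 : (k.comp g').act (y, ξ) = (y, ξ - (k.comp g').α y) := by
      show ((k.comp g').γ y, (k.comp g').N y _) = _
      rw [a1.1, a1.2.2]
      rfl
    have a3 := h3.self_of_nhds.2 (g'.act (y, ξ)).2
    have a4 : (g.γ y, (g'.act (y, ξ)).2) = g'.act (y, ξ) := Prod.ext e0.eq_of_nhds.symm rfl
    have a5 := h.sh.self_of_nhds (ξ - (k.comp g').α y) f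
    rw [a4, ← h5.self_of_nhds, a2] at a3
    rw [a3] at a5
    linarith [h'.sh.self_of_nhds ξ f]
  obtain ⟨s, hs, h8⟩ := H.uniq y h.germ.facts.1 _ (h4.congr h7) hu
  refine ⟨s, hs, ?_⟩
  filter_upwards [h8, e0, e0.fderiv (𝕜 := ℂ), h2, h.germ.ev] with x a c d e i
  have a' : g'.α x + tr (fderiv ℂ g'.γ x) (k.α (g'.γ x)) = s := a
  rw [c, d, e.2.1, map_neg, (pair_inv i.facts.2.2.2.2).2.1] at a'
  rw [← a']
  abel

theorem AtB.ht_eq (h : H.AtB l b y g) : H.ht l b y = ‖tauI S.Q.I (g.α y)‖ₑ := by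
  refine le_antisymm (iInf₂_le g h) (le_iInf₂ fun g' h' => le_of_eq ?_)
  obtain ⟨s, hs, e⟩ := h.1.uniq h'.1
  rw [e.eq_of_nhds, map_add, (RI.proj (ZI.sub_RI hs)).2.1, add_zero]

omit [T2Space X] in
theorem exists_of_ht (h : H.ht l b y ≠ ⊤) : ∃ g, H.AtB l b y g := by
  by_contra hc
  exact h (iInf₂_eq_top.2 fun g hg => absurd ⟨g, hg⟩ hc)

omit [T2Space X] in
theorem ht_usc (H : ShF S Fm) (l : S.G.G × (Fm → ℝ)) (b : E n → E n) :
    UpperSemicontinuous (H.ht l b) := by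
  intro y c hc
  obtain ⟨g, hg⟩ := iInf_lt_iff.1 hc
  obtain ⟨hg, h⟩ := iInf_lt_iff.1 hg
  have h1 : ContinuousAt (fun x => ‖tauI S.Q.I (g.α x)‖ₑ) y :=
    ((tauI S.Q.I).continuous.continuousAt.comp hg.1.germ.facts.2.2.2.1.continuousAt).enorm
  filter_upwards [hg.ev, h1.eventually (gt_mem_nhds h)] with x a d
  exact (iInf₂_le g a).trans_lt d

omit [T2Space X] in
theorem ht_meas (H : ShF S Fm) (l : S.G.G × (Fm → ℝ)) (b : E n → E n) : Measurable (H.ht l b) :=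
  (H.ht_usc l b).measurable

omit [T2Space X] in
theorem AtB.red (h : H.AtB l b y g) (hl : S.G.lg.sz l.1 ≤ S.G.lg.ε)
    (hy : y ∈ ball S.G.y0 (2 * S.G.r)) (ξ : E n) :
    ∃ g', H.AtB l b y g' ∧ tauI S.Q.I (g'.α y) = tauI S.Q.I (g.α y) ∧
      ‖reI S.Q.I (g'.α y - ξ)‖ ≤ 1 := by
  obtain ⟨s, hs, h1⟩ := exists_ZI S.Q.I (g.α y - ξ)
  obtain ⟨g', h2, h3⟩ := h.1.trans hl hy hs
  have h4 := RI.proj (ZI.sub_RI hs)
  refine ⟨g', ⟨h2, ?_⟩, ?_, ?_⟩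
  · filter_upwards [h3, h.2] with x a c
    rw [a, map_add, h4.1, add_zero, c]
  · rw [h3.eq_of_nhds, map_add, h4.2.1, add_zero]
  · rwa [h3.eq_of_nhds, add_sub_right_comm]

omit [T2Space X] in
/-- A return on a ball that has a label near one point has it everywhere. -/
theorem At.spread {ρ : ℝ} {x : E n} (hg : IsRet S.M.T S.M.Ψ (ball y ρ) g') (hx : x ∈ ball y ρ)
    (hs : ball y ρ ⊆ ball S.G.y0 (2 * S.G.r)) (h : H.At l x g) (he : Ret.Eq x g g')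
    (hl : S.G.lg.sz l.1 ≤ S.G.lg.ε) {z : E n} (hz : z ∈ ball y ρ) : H.At l z g' := by
  have h1 : EqOn g'.γ (S.G.γ l.1) (ball y ρ) :=
    hol_ident isOpen_ball (convex_ball y ρ).isPreconnected hg.γ_hol ((S.G.γ_hol _).mono hs) hx
      (EventuallyEq.trans (he.mono fun w a => a.1.symm) h.gam)
  have h2 := isOpen_ball.mem_nhds hz
  refine ⟨⟨_, hg, hz⟩, mem_of_superset h2 h1, mem_of_superset h2 fun w hw ξ f => ?_⟩
  obtain ⟨c, hc⟩ := H.shift _ _ _ hg (convex_ball y ρ) hs hl (h.pres hl (hs hx)) h1 f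
  have a := he.self_of_nhds
  have e : g'.act (x, 0) = g.act (x, 0) := by simp only [Ret.act, a.1, a.2.1, a.2.2]
  rw [hc (w, ξ) hw, ← hc (x, 0) hx, e]
  exact h.sh.self_of_nhds 0 f

/-- Labels are closed under limits of bounded height. -/
theorem closed {O : Set (E n)} (hO : IsOpen O) (hs : O ⊆ ball S.G.y0 (2 * S.G.r))
    (hb : DifferentiableOn ℂ b O) (hl : S.G.lg.sz l.1 ≤ S.G.lg.ε) (hy : y ∈ O) {c : ℝ≥0∞}
    (h : y ∈ closure {x | H.ht l b x ≤ c}) : H.ht l b y ≤ c := by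
  rcases eq_or_ne c ⊤ with rfl | hc
  · exact le_top
  obtain ⟨U, hU, hUy⟩ := mem_closure_iff_ultrafilter.1 h
  have key : ∀ x, x ∈ O → H.ht l b x ≤ c → ∃ g, H.AtB l b x g ∧ ‖tauI S.Q.I (g.α x)‖ ≤ c.toReal ∧
      ‖g.α x‖ ≤ 1 + c.toReal + ‖b x‖ := by
    intro x hx h1
    obtain ⟨g0, h0⟩ := exists_of_ht (ne_top_of_le_ne_top hc h1)
    obtain ⟨g, h2, -, h3⟩ := h0.red hl (hs hx) 0
    rw [h2.ht_eq, ← ofReal_norm, ENNReal.ofReal_le_iff_le_toReal hc] at h1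
    refine ⟨g, h2, h1, (norm_le_I S.Q.I _).trans ?_⟩
    rw [sub_zero] at h3
    rw [h2.2.eq_of_nhds]
    linarith
  have : Nonempty (Ret n) := ⟨Ret.per 0⟩
  choose! g hg using key
  have hU' : ∀ᶠ x in (U : Filter (E n)), x ∈ O ∧ H.ht l b x ≤ c :=
    Eventually.and (hUy (hO.mem_nhds hy)) hU
  have hbc := (hb.differentiableAt (hO.mem_nhds hy)).continuousAt.norm
  have hbd : ∀ᶠ x in (U : Filter (E n)),
      (g x).α x ∈ closedBall (0 : E n) (1 + c.toReal + (‖b y‖ + 1)) := by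
    filter_upwards [hU', (hbc.eventually (gt_mem_nhds (lt_add_one _))).filter_mono hUy] with x a d
    exact mem_closedBall_zero_iff.2 ((hg x a.1 a.2).2.2.trans (add_le_add_right (le_of_lt d) _))
  obtain ⟨ξ, -, hξ⟩ := (isCompact_closedBall _ _).ultrafilter_le_nhds'
    (U.map fun x => (g x).α x) hbd
  have hγ : Tendsto (fun x => (g x).γ x) U (𝓝 (S.G.γ l.1 y)) :=
    ((S.G.diffAt l.1 (hs hy)).continuousAt.tendsto.mono_left hUy).congr'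
      (hU'.mono fun x a => (hg x a.1 a.2).1.1.gam.eq_of_nhds.symm)
  obtain ⟨g', ρ, hρ, h1, h2, -, h3⟩ := S.M.lim (x := fun x => x) (S.G.ball_sub (hs hy))
    (S.G.sub (S.G.mem_T hl (hs hy))) hUy (hU'.mono fun x a => (hg x a.1 a.2).1.1.germ) hξ hγ
  obtain ⟨ρ', hρ', h4⟩ := Metric.isOpen_iff.1 (hO.inter isOpen_ball) y ⟨hy, mem_ball_self hρ⟩
  have h5 := h1.mono isOpen_ball fun x hx => (h4 hx).2
  obtain ⟨x, a1, a2, a3⟩ := (hU'.and (h3.and (hUy (ball_mem_nhds y hρ')))).exists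
  have a4 := (hg x a1.1 a1.2).1
  have h6 : H.AtB l b y g' := by
    refine ⟨At.spread h5 a3 (fun x hx => hs (h4 hx).1) a4.1 a2.2 hl (mem_ball_self hρ'),
      mem_of_superset (ball_mem_nhds y hρ') (hol_ident isOpen_ball
        (convex_ball y ρ').isPreconnected ((piI S.Q.I).differentiable.comp_differentiableOn
          h5.α_hol) (hb.mono fun x hx => (h4 hx).1) a3 ?_)⟩
    filter_upwards [a2.2, a4.2] with w d e
    rw [← e, d.2.1]
  rw [h6.ht_eq, h2, ← ofReal_norm, ENNReal.ofReal_le_iff_le_toReal hc]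
  exact le_of_tendsto (((tauI S.Q.I).continuous.tendsto ξ).comp hξ).norm
    (hU'.mono fun x a => (hg x a.1 a.2).2.1)

end ShF

end Pool.Agent.CL
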