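import Pool.Agent.P.MP_63735c_ag.CWord

/-! The walk to a target. -/

open Set

namespace Pool.Agent.CL

open Pool.Agent.SPF

variable {G J Λ : Type} [NormedAddCommGroup J] {A : Alph G J Λ} {n : ℕ}

theorem cwalk_nsq_nonneg (v : E n) : 0 ≤ nsq v := Finset.sum_nonneg fun _ _ => by positivity

theorem cwalk_unit {d : E n} (hd : 0 < √(nsq d)) : nsq ((√(nsq d))⁻¹ • d) = 1 := by
  obtain ⟨D, hD⟩ : ∃ D, D = √(nsq d) := ⟨_, rfl⟩
  have hD2 : D ^ 2 = nsq d := by rw [hD, Real.sq_sqrt (cwalk_nsq_nonneg d)]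
  rw [← hD] at hd ⊢
  rw [← (ip_basic _ d d 0).2.1, (ip_basic _ _ d D⁻¹).2.2.2.2.1, (ip_basic _ _ d 0).1,
    (ip_basic _ _ d _).2.2.2.2.1, (ip_basic _ d d 0).2.1, ← hD2]
  field_simp

theorem cwalk_step {d Δ : E n} {c B : ℝ} (hc : 0 < c) (hB : ‖Δ‖ ≤ B)
    (hd : n * B ^ 2 / (2 * c) + c ≤ √(nsq d)) (h1 : 2 * c ≤ ip Δ ((√(nsq d))⁻¹ • d)) :
    √(nsq (d - Δ)) ≤ √(nsq d) - c := by
  obtain ⟨D, hD⟩ : ∃ D, D = √(nsq d) := ⟨_, rfl⟩
  have h0 : 0 ≤ n * B ^ 2 / (2 * c) := by positivity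
  have hD2 : D ^ 2 = nsq d := by rw [hD, Real.sq_sqrt (cwalk_nsq_nonneg d)]
  rw [← hD] at hd h1 ⊢
  have hD0 : 0 < D := by linarith
  rw [(ip_basic Δ _ d 0).1, (ip_basic d Δ d D⁻¹).2.2.2.2.1, ← div_eq_inv_mul, le_div_iff₀ hD0] at h1
  have h2 : nsq Δ ≤ n * B ^ 2 := (nsq_le Δ).2.trans (by gcongr)
  have h3 : n * B ^ 2 ≤ 2 * c * D := by
    rw [← le_sub_iff_add_le, div_le_iff₀ (by positivity)] at hd
    nlinarith
  rw [Real.sqrt_le_iff]
  refine ⟨by linarith, ?_⟩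
  rw [(ip_basic d Δ d 0).2.2.2.2.2.2.2, ← hD2]
  nlinarith

namespace Alph

theorem Lev.tail {t : ℝ} : ∀ {K P : List Λ}, A.Lev t (K ++ P) → A.Lev t P
  | [], _, h => h
  | _ :: _, _, h => Lev.tail h.2

theorem pos_app {S : Set Λ} {t η : ℝ} {nb : Λ → ℝ} {ev : Λ → E n} {pos : List Λ → E n}
    (hη : η ≤ 1) (h0 : ∀ l ∈ S, 0 ≤ nb l) (he : ∀ l ∈ S, ‖ev l‖ ≤ nb l)
    (hs : ∀ l w, (∀ x ∈ l :: w, x ∈ S) → A.Lev t (l :: w) →
      ‖pos (l :: w) - pos w - ev l‖ ≤ η * nb l) {P : List Λ} :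
    ∀ {K : List Λ}, (∀ x ∈ K ++ P, x ∈ S) → A.Lev t (K ++ P) →
      ‖pos (K ++ P) - pos P‖ ≤ 2 * (K.map nb).sum
  | [], _, _ => by simp
  | l :: K, h1, h2 => by
    have h3 := pos_app hη h0 he hs (fun x hx => h1 x (List.mem_cons_of_mem _ hx)) h2.2
    have h4 := hs l (K ++ P) h1 h2
    have hl := h1 l List.mem_cons_self
    have h5 : pos (l :: K ++ P) - pos P =
        (pos (l :: (K ++ P)) - pos (K ++ P) - ev l) + ev l + (pos (K ++ P) - pos P) := by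
      simp only [List.cons_append]
      abel
    rw [h5, List.map_cons, List.sum_cons]
    refine norm_add₃_le.trans ?_
    have := mul_le_of_le_one_left (h0 l hl) hη
    linarith [he l hl]

theorem Rc.walk {Λ₀ S : Set Λ} {δ a : ℝ} {KK : Set (List Λ)} (h : A.Rc Λ₀ δ a KK) (hδ : 0 < δ)
    (hε : a + 4 * A.lg.L * δ ≤ A.lg.ε) (ha : δ ≤ a) (hS : S ⊆ Λ₀)
    (hK : ∀ K ∈ KK, ∀ l ∈ K, A.inv l ∈ S) (EE : Submodule ℝ (E n)) {nb : Λ → ℝ} {ev : Λ → E n}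
    {κ C R η m : ℝ} (hκ : 0 < κ) (hR : 0 < R) (hC : 0 < C) (hη : η ≤ 1) (hη0 : 0 ≤ η)
    (h1 : n * (η * (C * R) + 2 * m) ≤ κ * R / 2) (h2 : m ≤ C * R)
    (h0 : ∀ l ∈ S, 0 ≤ nb l) (he : ∀ l ∈ S, ‖ev l‖ ≤ nb l)
    (hm : ∀ K ∈ KK, ((A.winv K).map nb).sum ≤ m)
    (hd : ∀ v ∈ EE, nsq v = 1 → ∃ l ∈ S, A.lg.L * A.lg.sz (A.j l) ≤ δ ∧ nb l ≤ C * R ∧
      κ * R ≤ ip (ev l) v) :
    ∃ Cw ≥ (0 : ℝ), ∀ pos : List Λ → E n, pos [] = 0 →
      (∀ w, (∀ x ∈ w, x ∈ S) → A.Lev (a + A.lg.L * δ) w → pos w ∈ EE) →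
      (∀ l w, (∀ x ∈ l :: w, x ∈ S) → A.Lev (a + A.lg.L * δ) (l :: w) →
        ‖pos (l :: w) - pos w - ev l‖ ≤ η * nb l) →
      ∀ x ∈ EE, ∃ w : List Λ, (∀ l ∈ w, l ∈ S) ∧ A.Lev (a + A.lg.L * δ) w ∧
        A.lg.L * A.lg.sz (A.en w) ≤ δ / 2 ∧ ‖pos w - x‖ ≤ Cw ∧
        (w.map nb).sum ≤ 8 * C / κ * n * ‖x‖ + Cw := by
  have hL := A.lg.L_ge
  have hp : 0 < A.lg.L * δ := by positivity
  have hδL : δ ≤ A.lg.L * δ := le_mul_of_one_le_left hδ.le hL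
  have hc : 0 < κ * R / 4 := by positivity
  have hCR : 0 < C * R := by positivity
  obtain ⟨D0, hD0⟩ : ∃ D0, D0 = n * (4 * (C * R)) ^ 2 / (2 * (κ * R / 4)) + κ * R / 4 := ⟨_, rfl⟩
  have hD : 0 ≤ D0 := by rw [hD0]; positivity
  refine ⟨D0 + 2 * (C * R), by positivity, fun pos p0 pE ps x hx => ?_⟩
  have key : ∀ k : ℕ, ∃ w : List Λ, (∀ l ∈ w, l ∈ S) ∧ A.Lev (a + A.lg.L * δ) w ∧
      A.lg.L * A.lg.sz (A.en w) ≤ δ / 2 ∧ (w.map nb).sum ≤ k * (2 * (C * R)) ∧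
      √(nsq (x - pos w)) ≤ max D0 (√(nsq x) - k * (κ * R / 4)) := by
    intro k
    induction k with
    | zero => exact ⟨[], by simp, by show 0 ≤ _; linarith, by rw [en, A.lg.sz_one]; linarith,
        by simp, by simp [p0]⟩
    | succ k ih =>
      obtain ⟨P, a1, a2, a3, a4, a5⟩ := ih
      by_cases hle : √(nsq (x - pos P)) ≤ D0
      · exact ⟨P, a1, a2, a3, a4.trans (by push_cast; linarith), hle.trans (le_max_left _ _)⟩
      have hlt := not_le.1 hle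
      have a6 : √(nsq (x - pos P)) ≤ √(nsq x) - k * (κ * R / 4) :=
        (le_max_iff.1 a5).resolve_left hle
      have hdE : x - pos P ∈ EE := sub_mem hx (pE P a1 a2)
      obtain ⟨v, hv'⟩ : ∃ v, v = (√(nsq (x - pos P)))⁻¹ • (x - pos P) := ⟨_, rfl⟩
      have hv : nsq v = 1 := hv' ▸ cwalk_unit (hD.trans_lt hlt)
      obtain ⟨l, hl, b1, b2, b3⟩ := hd v (hv' ▸ EE.smul_mem _ hdE) hv
      have c0 := le_mul_of_one_le_left (A.lg.sz_nonneg (A.en P)) hL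
      have c0' := le_mul_of_one_le_left (A.lg.sz_nonneg (A.j l)) hL
      have c1 : A.lg.sz (A.en (l :: P)) ≤ 2 * δ := by
        have := A.lg.sz_mul' (a := A.j l) (b := A.en P) (by linarith) (by linarith)
        show A.lg.sz (A.lg.mul _ _) ≤ _
        linarith
      have c2 : A.Lev (a + A.lg.L * δ) (l :: P) := ⟨by linarith, a2⟩
      have c3 : ∀ y ∈ l :: P, y ∈ S := fun y hy => (List.mem_cons.1 hy).elim (· ▸ hl) (a1 y)
      obtain ⟨K, hK1, k1, k2⟩ := h.rc _ (fun y hy => hS (c3 y hy)) (c2.mono (by linarith)) c1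
      have c4 : ∀ y ∈ A.winv K ++ l :: P, y ∈ S := fun y hy =>
        (List.mem_append.1 hy).elim (fun h => by
          obtain ⟨z, hz, rfl⟩ := mem_winv h
          exact hK K hK1 z hz) (c3 y)
      have c5 := k2 _ le_rfl (by linarith) c2
      have c6 := (pos_app hη h0 he ps c4 c5).trans
        (mul_le_mul_of_nonneg_left (hm K hK1) zero_le_two)
      have c7 := (ps l P c3 c2).trans (mul_le_mul_of_nonneg_left b2 hη0)
      obtain ⟨r, hr⟩ : ∃ r, r = pos (A.winv K ++ l :: P) - pos P - ev l := ⟨_, rfl⟩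
      have c8 : ‖r‖ ≤ η * (C * R) + 2 * m := by
        have e : r = (pos (l :: P) - pos P - ev l) + (pos (A.winv K ++ l :: P) - pos (l :: P)) := by
          rw [hr]
          abel
        rw [e]
        exact (norm_add_le _ _).trans (add_le_add c7 c6)
      refine ⟨_, c4, c5, k1, ?_, le_max_of_le_right ?_⟩
      · rw [List.map_append, List.sum_append, List.map_cons, List.sum_cons]
        push_cast
        linarith [hm K hK1]
      · have e : x - pos (A.winv K ++ l :: P) = (x - pos P) - (ev l + r) := by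
          rw [hr]
          abel
        rw [e]
        have c9 : ‖ev l + r‖ ≤ 4 * (C * R) := by
          refine (norm_add_le _ _).trans ?_
          have := mul_le_of_le_one_left hCR.le hη
          linarith [he l hl]
        refine (cwalk_step hc c9 (hD0 ▸ hlt.le) ?_).trans (by push_cast; linarith)
        have d1 : ‖v‖ ≤ 1 := by
          have := (nsq_le v).1
          rw [hv] at this
          exact (sq_le_one_iff₀ (norm_nonneg v)).1 this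
        have d2 : |ip r v| ≤ κ * R / 2 := by
          refine (ip_basic r v x 0).2.2.2.2.2.1.trans (le_trans ?_ h1)
          calc n * ‖r‖ * ‖v‖ ≤ n * ‖r‖ * 1 := by gcongr
            _ ≤ _ := by rw [mul_one]; gcongr
        rw [← hv', (ip_basic _ _ v 0).2.2.1]
        linarith [(abs_le.1 d2).1]
  obtain ⟨w, a1, a2, a3, a4, a5⟩ := key ⌈√(nsq x) / (κ * R / 4)⌉₊
  have b1 := Nat.le_ceil (√(nsq x) / (κ * R / 4))
  have b2 := Nat.ceil_lt_add_one (a := √(nsq x) / (κ * R / 4)) (by positivity)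
  rw [div_le_iff₀ hc] at b1
  refine ⟨w, a1, a2, a3, ?_, a4.trans ?_⟩
  · rw [norm_sub_rev]
    have := Real.le_sqrt_of_sq_le (nsq_le (x - pos w)).1
    have := max_le (le_refl D0) (show √(nsq x) - ⌈√(nsq x) / (κ * R / 4)⌉₊ * (κ * R / 4) ≤ D0 by
      linarith)
    linarith
  · have b3 : √(nsq x) ≤ n * ‖x‖ := by
      rw [Real.sqrt_le_iff]
      refine ⟨by positivity, (nsq_le x).2.trans ?_⟩
      rw [mul_pow]
      gcongr
      exact_mod_cast Nat.le_self_pow two_ne_zero n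
    have b4 : √(nsq x) / (κ * R / 4) * (2 * (C * R)) = 8 * C / κ * √(nsq x) := by
      field_simp
      ring
    have b5 : 8 * C / κ * √(nsq x) ≤ 8 * C / κ * (n * ‖x‖) := by gcongr
    nlinarith

end Alph

end Pool.Agent.CL
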