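import Pool.Agent.P.MP_63735c_ag.CWReal
import Pool.Agent.P.MP_63735c_ag.CWalk

/-! Letters and words. -/

open scoped ContDiff Matrix ENNReal
open Set Metric MeasureTheory Filter Topology

namespace Pool.Agent.CL

open Pool.Agent.SPF

variable {n : ℕ} {X : Type} [TopologicalSpace X] [MeasurableSpace X]

namespace Big

/-- A label with realisations of itself and of its inverse. -/
structure Ltr (B : Big n X) where
  l : B.Lab
  b : E n → E n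
  b' : E n → E n
  m : ℝ
  h : ℝ≥0∞

variable (B : Big n X)

/-- The alphabet. -/
def alph : Alph B.S.G.G (E n × (E n →L[ℂ] E n)) B.Ltr where
  lg := B.S.G.lg
  j x := x.l.1
  inv x := ⟨ShF.inv x.l, x.b', x.b, x.m, x.h⟩
  j_inv _ := rfl

/-- Letters of size `d` on the ball of radius `t / 2`. -/
def Lets (c : E n) (t d : ℝ) : Set B.Ltr :=
  {x | B.alph.Sm d x ∧ x.h ≠ ⊤ ∧ B.Rl x.l (ball c (t / 2)) x.b x.m x.h ∧
    B.Rl (ShF.inv x.l) (ball c (t / 2)) x.b' x.m x.h}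

/-- The label of a word. -/
def lab : List B.Ltr → B.Lab
  | [] => (B.S.G.lg.one, 0)
  | x :: w => ShF.mul x.l (lab w)

/-- The transverse part of a word. -/
noncomputable def bw : List B.Ltr → E n → E n
  | [] => 0
  | x :: w => ShF.bmul B.S (B.lab w).1 (bw w) x.b

/-- The position of a word. -/
noncomputable def pos (y : E n) (w : List B.Ltr) : E n :=
  B.bw w y - Complex.I • B.rho (B.lab w)

/-- The step of a letter. -/
noncomputable def ev (c : E n) (x : B.Ltr) : E n := x.b c - Complex.I • B.rho x.l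

variable {B} {c : E n} {t d τ : ℝ}

theorem lab_fst : ∀ w : List B.Ltr, (B.lab w).1 = B.alph.en w
  | [] => rfl
  | x :: w => congrArg (B.S.G.lg.mul x.l.1) (lab_fst w)

theorem lab_snd (i : B.H.Idx) : ∀ w : List B.Ltr, (B.lab w).2 i = (w.map fun x => x.l.2 i).sum
  | [] => rfl
  | x :: w => by
    rw [List.map_cons, List.sum_cons, ← lab_snd i w]
    rfl

theorem Lets.inv {x : B.Ltr} (h : x ∈ B.Lets c t d) (hd : B.S.G.lg.L * d ≤ B.S.G.lg.ε) :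
    B.alph.inv x ∈ B.Lets c t d := by
  obtain ⟨⟨h1, h2⟩, h3, h4, h5⟩ := h
  have hL := B.S.G.lg.L_ge
  have h0 : 0 ≤ d := (B.S.G.lg.sz_nonneg _).trans h1
  have hε : d ≤ B.S.G.lg.ε := le_trans (le_mul_of_one_le_left h0 hL) hd
  have e : B.S.G.lg.inv (B.S.G.lg.inv x.l.1) = x.l.1 := B.S.G.lg.inv_inv (h1.trans hε)
    (h2.trans hε) ((B.S.G.lg.sz_inv (h2.trans hε)).trans
      ((mul_le_mul_of_nonneg_left h2 B.S.G.lg.L_pos.le).trans hd))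
  have e' : ShF.inv (ShF.inv x.l) = x.l := Prod.ext e (neg_neg _)
  exact ⟨⟨h2, le_of_eq_of_le (congrArg _ e) h1⟩, h3, h5, e'.symm ▸ h4⟩

theorem Lets.ev_le {x : B.Ltr} (h : x ∈ B.Lets c t d) (ht : 0 < t) :
    0 ≤ x.m ∧ ‖B.ev c x‖ ≤ 2 * x.m := by
  refine ⟨(norm_nonneg _).trans h.2.2.1.rho, (norm_sub_le _ _).trans ?_⟩
  rw [norm_smul, Complex.norm_I, one_mul]
  linarith [h.2.2.1.rho, h.2.2.1.bd c (mem_ball_self (by linarith))]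

theorem EE_of {b ρ : E n} {I : Finset (Fin n)} (hb : piI I b = b) (hρ : ρ ∈ RI I) :
    b - Complex.I • ρ ∈ EE I := fun k hk => by
  rw [← hb]
  simp [piI_apply, hk, (hρ k).1]

theorem step_le (hc : ball c t ⊆ ball B.S.G.y0 (B.S.G.r / 2)) (ht : 0 < t) {θ : ℝ}
    (hθ : θ ≤ 1 / 8) (hτ : τ ≤ B.S.G.lg.ε) (h1 : B.S.G.lg.L * τ ≤ θ) (h2 : B.S.G.lg.L * τ ≤ θ * t)
    {x : B.Ltr} {w : List B.Ltr} (hx : x ∈ B.Lets c t d) (hw : B.alph.Lev τ w) {y : E n}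
    (hy : y ∈ ball c (θ * t)) :
    ‖B.pos y (x :: w) - B.pos y w - B.ev c x‖ ≤ 9 * θ * (2 * x.m) := by
  have hr := B.S.G.r_pos
  have hs : ball c t ⊆ ball B.S.G.y0 (2 * B.S.G.r) := hc.trans (ball_subset_ball (by linarith))
  have hz : B.S.G.lg.sz (B.lab w).1 ≤ τ := lab_fst w ▸ hw.sz
  have hz' := mul_le_mul_of_nonneg_left hz B.S.G.lg.L_pos.le
  have hθt : θ * t ≤ t / 8 := by nlinarith
  have hs' := (ball_subset_ball (by linarith : θ * t ≤ t)).trans hs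
  have h3 : B.S.G.γ (B.lab w).1 y ∈ ball c (2 * (θ * t)) :=
    B.S.G.maps (hz.trans hτ) hs' (by linarith) hy
  have h4 : B.S.G.γ (B.lab w).1 y ∈ ball c (t / 2) := ball_subset_ball (by linarith) h3
  have h5 := hol_lip (by linarith : t / 4 < t / 2) hx.2.2.1.hol hx.2.2.1.bd
    (ball_subset_ball (by linarith) h3) (mem_ball_self (by linarith))
  have h6 := (B.S.G.near _ (hz.trans hτ) y (hs' hy)).2.2.1
  have h7 := (cwreal_two (h6.trans (B.S.G.Lsz (hz.trans hτ)).1) (x.b (B.S.G.γ (B.lab w).1 y))).1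
  have hm := (Lets.ev_le hx ht).1
  have e : B.pos y (x :: w) - B.pos y w - B.ev c x =
      piI B.S.Q.I (tr (fderiv ℂ (B.S.G.γ (B.lab w).1) y) (x.b (B.S.G.γ (B.lab w).1 y)) -
        x.b (B.S.G.γ (B.lab w).1 y)) + (x.b (B.S.G.γ (B.lab w).1 y) - x.b c) := by
    rw [map_sub, hx.2.2.1.mem _ h4]
    simp only [pos, ev, lab, bw, ShF.bmul, cw_rho_mul, smul_add]
    abel
  have h8 : x.m / (t / 2 - t / 4) * ‖B.S.G.γ (B.lab w).1 y - c‖ ≤ 8 * θ * x.m := by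
    calc _ ≤ x.m / (t / 2 - t / 4) * (2 * (θ * t)) :=
          mul_le_mul_of_nonneg_left (mem_ball_iff_norm.1 h3).le (div_nonneg hm (by linarith))
      _ = _ := by field_simp; ring
  have h9 : 0 ≤ θ := le_trans (mul_nonneg B.S.G.lg.L_pos.le (B.S.G.lg.sz_nonneg _)) (hz'.trans h1)
  have h10 := mul_le_mul (h6.trans (hz'.trans h1)) (hx.2.2.1.bd _ h4) (norm_nonneg _) h9
  rw [e]
  refine (norm_add_le _ _).trans ?_
  have := (proj_norm B.S.Q.I (tr (fderiv ℂ (B.S.G.γ (B.lab w).1) y) (x.b (B.S.G.γ (B.lab w).1 y)) -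
    x.b (B.S.G.γ (B.lab w).1 y))).1
  nlinarith [mul_nonneg h9 hm]

variable [T2Space X]

theorem word_rl (hc : ball c t ⊆ ball B.S.G.y0 (B.S.G.r / 2)) (ht : 0 < t) :
    ∃ cost : B.Ltr → ℝ, ∀ d τ, d ≤ B.S.G.lg.ε → τ ≤ B.S.G.lg.ε → B.S.G.lg.L * τ ≤ t / 4 →
      ∀ w : List B.Ltr, (∀ x ∈ w, x ∈ B.Lets c t d) → B.alph.Lev τ w →
        0 ≤ (w.map cost).sum ∧ B.Rl (B.lab w) (ball c (t / 4)) (B.bw w) (w.map fun x => 2 * x.m).sum
          (ENNReal.ofReal (w.map cost).sum) := by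
  obtain ⟨C, hC, hm, -⟩ := B.exists_cv
  have hr := B.S.G.r_pos
  have hs : ball c (t / 4) ⊆ ball B.S.G.y0 (3 / 2 * B.S.G.r) :=
    (ball_subset_ball (by linarith)).trans (hc.trans (ball_subset_ball (by linarith)))
  have hs' : ball c (t / 4) ⊆ ball B.S.G.y0 (2 * B.S.G.r) :=
    hs.trans (ball_subset_ball (by linarith))
  refine ⟨fun x => (C * x.h + ENNReal.ofReal (2 * x.m) * volume (ball c (t / 4))).toReal,
    fun d τ hd hτ h1 w => ?_⟩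
  induction w with
  | nil => exact fun _ _ => ⟨le_rfl, (Rl.one B measurableSet_ball
      (hs'.trans B.S.G.ball_sub)).mono subset_rfl le_rfl zero_le⟩
  | cons x w ih =>
    intro hw hl
    obtain ⟨h2, h3⟩ := ih (fun z hz => hw z (List.mem_cons_of_mem _ hz)) hl.2
    have hx := hw x List.mem_cons_self
    have hz : B.S.G.lg.sz (B.lab w).1 ≤ τ := lab_fst w ▸ hl.2.sz
    have hz' := mul_le_mul_of_nonneg_left hz B.S.G.lg.L_pos.le
    rw [List.map_cons, List.sum_cons, List.map_cons, List.sum_cons]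
    refine ⟨add_nonneg ENNReal.toReal_nonneg h2, (hm _ _ _ _ _ _ _ _ _ _ h3 hx.2.2.1 isOpen_ball hs
      (B.S.G.maps (hz.trans hτ) hs' (by linarith)) (hz.trans hτ) (hx.1.1.trans hd)).mono
      subset_rfl (le_of_eq (add_comm _ _)) (le_of_eq ?_)⟩
    rw [ENNReal.ofReal_add ENNReal.toReal_nonneg h2, ENNReal.ofReal_toReal, add_assoc, add_comm]
    exact ENNReal.add_ne_top.2 ⟨ENNReal.mul_ne_top hC hx.2.1,
      ENNReal.mul_ne_top ENNReal.ofReal_ne_top measure_ball_lt_top.ne⟩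

theorem Rl.mul_fin {l l' : B.Lab} {O O' : Set (E n)} {b b' : E n → E n} {m m' : ℝ} {h h' : ℝ≥0∞}
    (h1 : B.Rl l O b m h) (h2 : B.Rl l' O' b' m' h') (hh : h ≠ ⊤) (hh' : h' ≠ ⊤) (hO : IsOpen O)
    (hs : O ⊆ ball B.S.G.y0 (3 / 2 * B.S.G.r)) (hm : MapsTo (B.S.G.γ l.1) O O')
    (hl : B.S.G.lg.sz l.1 ≤ B.S.G.lg.ε) (hl' : B.S.G.lg.sz l'.1 ≤ B.S.G.lg.ε) :
    ∃ k ≠ ⊤, B.Rl (ShF.mul l' l) O (ShF.bmul B.S l.1 b b') (m + 2 * m') k := by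
  obtain ⟨C, hC, H, -⟩ := B.exists_cv
  exact ⟨_, ENNReal.add_ne_top.2 ⟨ENNReal.add_ne_top.2 ⟨hh, ENNReal.mul_ne_top hC hh'⟩,
    ENNReal.mul_ne_top ENNReal.ofReal_ne_top ((measure_mono hs).trans_lt measure_ball_lt_top).ne⟩,
    H _ _ _ _ _ _ _ _ _ _ h1 h2 hO hs hm hl hl'⟩

theorem Rl.inv_fin {l : B.Lab} {O O' : Set (E n)} {b : E n → E n} {m : ℝ} {h : ℝ≥0∞}
    (h1 : B.Rl l O b m h) (hh : h ≠ ⊤) (hO : IsOpen O')
    (hs : O ⊆ ball B.S.G.y0 (3 / 2 * B.S.G.r)) (hs' : O' ⊆ ball B.S.G.y0 (3 / 2 * B.S.G.r))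
    (hm : MapsTo (B.S.G.γ (B.S.G.lg.inv l.1)) O' O) (hl : B.S.G.lg.sz l.1 ≤ B.S.G.lg.ε)
    (hl' : B.S.G.lg.sz (B.S.G.lg.inv l.1) ≤ B.S.G.lg.ε) :
    ∃ k ≠ ⊤, B.Rl (ShF.inv l) O' (ShF.binv B.S l.1 b) (2 * m) k := by
  obtain ⟨C, hC, -, H⟩ := B.exists_cv
  exact ⟨_, ENNReal.add_ne_top.2 ⟨ENNReal.mul_ne_top hC hh, ENNReal.mul_ne_top
    ENNReal.ofReal_ne_top ((measure_mono hs').trans_lt measure_ball_lt_top).ne⟩,
    H _ _ _ _ _ _ h1 hO hs hs' hm hl hl'⟩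

/-- A small realised label is a letter. -/
theorem letter_of_rl (hc : ball c t ⊆ ball B.S.G.y0 (B.S.G.r / 2)) (ht : 0 < t) {θ : ℝ}
    (hd : d ≤ B.S.G.lg.ε) (h1 : B.S.G.lg.L * d ≤ θ) (h2 : B.S.G.lg.L * d ≤ θ * t) (hθ : θ ≤ 1 / 8)
    {l : B.Lab} {β : E n → E n} {m : ℝ} {h : ℝ≥0∞} (hh : h ≠ ⊤)
    (r2 : B.Rl l (ball c (3 / 4 * t)) β m h) (s4 : B.S.G.lg.L * B.S.G.lg.sz l.1 ≤ d) :
    ∃ x ∈ B.Lets c t d, x.m = 2 * m ∧ B.ev c x = β c - Complex.I • B.rho l ∧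
      ‖B.ev c (B.alph.inv x) + B.ev c x‖ ≤ 5 * θ * m := by
  have hr := B.S.G.r_pos
  have hθt : θ * t ≤ t / 8 := by nlinarith
  have s5 : B.S.G.lg.sz l.1 ≤ d :=
    (le_mul_of_one_le_left (B.S.G.lg.sz_nonneg _) B.S.G.lg.L_ge).trans s4
  have s6 := (B.S.G.lg.sz_inv (s5.trans hd)).trans s4
  have s7 := mul_le_mul_of_nonneg_left s5 B.S.G.lg.L_pos.le
  have s8 := mul_le_mul_of_nonneg_left s6 B.S.G.lg.L_pos.le
  have b1 : ∀ {s}, s ≤ t → ball c s ⊆ ball B.S.G.y0 (3 / 2 * B.S.G.r) := fun hs =>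
    (ball_subset_ball hs).trans (hc.trans (ball_subset_ball (by linarith)))
  have b2 : ball B.S.G.y0 (3 / 2 * B.S.G.r) ⊆ ball B.S.G.y0 (2 * B.S.G.r) :=
    ball_subset_ball (by linarith)
  have m2 : MapsTo (B.S.G.γ (B.S.G.lg.inv l.1)) (ball c (t / 2)) (ball c (3 / 4 * t)) :=
    B.S.G.maps (s6.trans hd) ((b1 (by linarith)).trans b2) (by linarith)
  obtain ⟨k, hk, r3⟩ := r2.inv_fin hh isOpen_ball (b1 (by linarith)) (b1 (by linarith)) m2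
    (s5.trans hd) (s6.trans hd)
  have hm0 : 0 ≤ m := (norm_nonneg _).trans r2.rho
  have c0 : c ∈ ball c (3 / 4 * t) := mem_ball_self (by linarith)
  refine ⟨⟨l, β, ShF.binv B.S l.1 β, 2 * m, h + k⟩, ⟨⟨s5, s6⟩, ENNReal.add_ne_top.2 ⟨hh, hk⟩,
    r2.mono (ball_subset_ball (by linarith)) (by linarith : m ≤ 2 * m) le_self_add,
    r3.mono subset_rfl le_rfl le_add_self⟩, rfl, rfl, ?_⟩
  obtain ⟨p, hp⟩ : ∃ p, p = B.S.G.γ (B.S.G.lg.inv l.1) c := ⟨_, rfl⟩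
  have p1 : p ∈ ball c (3 / 4 * t) := hp ▸ m2 (mem_ball_self (by linarith))
  have p2 : ‖p - c‖ ≤ θ * t :=
    hp ▸ (B.S.G.near _ (s6.trans hd) c (b2 (b1 (by linarith) c0))).1.trans (s8.trans h2)
  have h5 := hol_lip (by linarith : t / 2 < 3 / 4 * t) r2.hol r2.bd
    (mem_ball_iff_norm.2 (by linarith : ‖p - c‖ < t / 2)) (mem_ball_self (by linarith))
  have h6 := (B.S.G.near _ (s5.trans hd) p (b2 (b1 (by linarith) p1))).2.2.2
  have h7 := (cwreal_two (h6.trans (B.S.G.Lsz (s5.trans hd)).1) (β p)).1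
  have h9 : 0 ≤ θ := le_trans (mul_nonneg B.S.G.lg.L_pos.le (B.S.G.lg.sz_nonneg _)) (s7.trans h1)
  have h10 := mul_le_mul (h6.trans (s7.trans h1)) (r2.bd _ p1) (norm_nonneg _) h9
  have h8 : m / (3 / 4 * t - t / 2) * ‖p - c‖ ≤ 4 * θ * m := by
    calc _ ≤ m / (3 / 4 * t - t / 2) * (θ * t) :=
          mul_le_mul_of_nonneg_left p2 (div_nonneg hm0 (by linarith))
      _ = _ := by field_simp; ring
  have e : -piI B.S.Q.I (B.S.G.N l.1 p (β p)) - Complex.I • B.rho (ShF.inv l) +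
      (β c - Complex.I • B.rho l) =
      -(piI B.S.Q.I (B.S.G.N l.1 p (β p) - β p) + (β p - β c)) := by
    rw [map_sub, r2.mem p p1, cw_rho_inv, smul_neg]
    abel
  subst hp
  refine (congrArg norm e).trans_le ?_
  rw [norm_neg]
  refine (norm_add_le _ _).trans ?_
  linarith [(proj_norm B.S.Q.I (B.S.G.N l.1 _ (β _) - β (B.S.G.γ (B.S.G.lg.inv l.1) c))).1.trans h7]

/-- The quotient of two close atoms is a letter. -/
theorem letter_of (hc : ball c t ⊆ ball B.S.G.y0 (B.S.G.r / 2)) (ht : 0 < t) {θ e : ℝ}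
    (he : B.S.G.lg.L * e ≤ B.S.G.lg.ε) (hd : d ≤ B.S.G.lg.ε) (h1 : B.S.G.lg.L * d ≤ θ)
    (h2 : B.S.G.lg.L * d ≤ θ * t) (hθ : θ ≤ 1 / 8) {l k : B.Lab} {b bk : E n → E n} {m mk : ℝ}
    {h hk : ℝ≥0∞} (hh : h ≠ ⊤) (hhk : hk ≠ ⊤) (hl : B.Rl l (ball c t) b m h)
    (hk' : B.Rl k (ball c t) bk mk hk) (sl : B.S.G.lg.sz l.1 ≤ e) (sk : B.S.G.lg.sz k.1 ≤ e)
    (hlk : B.S.G.lg.L ^ 2 * ‖B.S.G.lg.jt l.1 - B.S.G.lg.jt k.1‖ ≤ d) :
    ∃ x ∈ B.Lets c t d, x.m = 2 * (m + 4 * mk) ∧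
      ‖B.ev c x - (b c - Complex.I • B.rho l)‖ ≤ 5 * mk ∧
      ‖B.ev c (B.alph.inv x) + B.ev c x‖ ≤ 5 * θ * (m + 4 * mk) := by
  have hr := B.S.G.r_pos
  have hL := B.S.G.lg.L_ge
  have hθt : θ * t ≤ t / 8 := by nlinarith
  have he' : e ≤ B.S.G.lg.ε := (le_mul_of_one_le_left ((B.S.G.lg.sz_nonneg _).trans sl) hL).trans he
  have s1 := sl.trans he'
  have s2 := sk.trans he'
  have s3 : B.S.G.lg.sz (B.S.G.lg.inv k.1) ≤ B.S.G.lg.ε := (B.S.G.lg.sz_inv s2).trans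
    ((mul_le_mul_of_nonneg_left sk B.S.G.lg.L_pos.le).trans he)
  have s4 : B.S.G.lg.L * B.S.G.lg.sz (B.S.G.lg.mul (B.S.G.lg.inv k.1) l.1) ≤ d := by
    have := mul_le_mul_of_nonneg_left (B.S.G.lg.sz_div s2 s3 s1) B.S.G.lg.L_pos.le
    exact this.trans (le_of_eq_of_le (by ring) hlk)
  have s5 := (le_mul_of_one_le_left (B.S.G.lg.sz_nonneg _) hL).trans s4
  have s7 := mul_le_mul_of_nonneg_left s5 B.S.G.lg.L_pos.le
  have b1 : ∀ {s}, s ≤ t → ball c s ⊆ ball B.S.G.y0 (3 / 2 * B.S.G.r) := fun hs =>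
    (ball_subset_ball hs).trans (hc.trans (ball_subset_ball (by linarith)))
  have b2 : ball B.S.G.y0 (3 / 2 * B.S.G.r) ⊆ ball B.S.G.y0 (2 * B.S.G.r) :=
    ball_subset_ball (by linarith)
  have hO : IsOpen (ball B.S.G.y0 (3 / 2 * B.S.G.r) ∩ B.S.G.γ (B.S.G.lg.inv k.1) ⁻¹' ball c t) :=
    ((B.S.G.γ_hol _).mono b2).continuousOn.isOpen_inter_preimage isOpen_ball isOpen_ball
  obtain ⟨k1, hk1, r1⟩ := hk'.inv_fin hhk hO (b1 le_rfl) inter_subset_left (fun x hx => hx.2) s2 s3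
  have m1 : MapsTo (B.S.G.γ l.1) (ball c (3 / 4 * t))
      (ball B.S.G.y0 (3 / 2 * B.S.G.r) ∩ B.S.G.γ (B.S.G.lg.inv k.1) ⁻¹' ball c t) := by
    intro x hx
    refine ⟨B.S.G.maps s1 (ball_subset_ball (by linarith : B.S.G.r / 2 ≤ _))
      (by linarith [(B.S.G.Lsz s1).2]) (hc (ball_subset_ball (by linarith) hx)), ?_⟩
    rw [mem_preimage, ← B.S.G.γ_mul _ _ s3 s1 x (b1 (by linarith) hx)]
    exact B.S.G.maps (s5.trans hd) ((b1 (by linarith)).trans b2) (by linarith) hx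
  obtain ⟨k2, hk2, r2⟩ := (hl.mono (ball_subset_ball (by linarith)) le_rfl le_rfl).mul_fin r1 hh hk1
    isOpen_ball (b1 (by linarith)) m1 s1 s3
  obtain ⟨x, hx, x1, x2, x3⟩ := letter_of_rl hc ht hd h1 h2 hθ hk2 r2 s4
  have c0 : c ∈ ball c (3 / 4 * t) := mem_ball_self (by linarith)
  refine ⟨x, hx, by linarith, ?_, x3.trans (le_of_eq (by ring))⟩
  have e : ∀ u v : E n, b c + u - Complex.I • (-v + B.rho l) - (b c - Complex.I • B.rho l) =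
      u + Complex.I • v := fun u v => by
    rw [smul_add, smul_neg]
    abel
  rw [x2, ShF.bmul, cw_rho_mul, cw_rho_inv, e]
  refine (norm_add_le _ _).trans ?_
  rw [norm_smul, Complex.norm_I, one_mul]
  have h3 := (proj_norm B.S.Q.I _).1.trans (cwreal_two ((B.S.G.near _ s1 c
    (b2 (b1 (by linarith) c0))).2.2.1.trans (B.S.G.Lsz s1).1)
    (ShF.binv B.S k.1 bk (B.S.G.γ l.1 c))).2
  linarith [r1.bd _ (m1 c0), hk'.rho]

/-- Finitely many letters of one scale point in all directions. -/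
theorem exists_letters (hc : ball c t ⊆ ball B.S.G.y0 (B.S.G.r / 2)) (ht : 0 < t) {θ e κ C : ℝ}
    (he : B.S.G.lg.L * e ≤ B.S.G.lg.ε) (hd0 : 0 < d) (hd : B.S.G.lg.L * d ≤ B.S.G.lg.ε)
    (h1 : B.S.G.lg.L * d ≤ θ) (h2 : B.S.G.lg.L * d ≤ θ * t) (hθ : θ ≤ 1 / 8) (hκ : 0 < κ)
    (hC : 1 ≤ C) (h3 : 80 * n * C * θ ≤ κ) (hA : B.Atoms e c t κ C) (R0 : ℝ) :
    ∃ R ≥ R0, ∃ S : Set B.Ltr, S.Finite ∧ S ⊆ B.Lets c t d ∧ ∀ v ∈ EE B.S.Q.I, nsq v = 1 →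
      ∃ x ∈ S, 2 * x.m ≤ 8 * C * R ∧ κ / 2 * R ≤ ip (B.ev c x) v := by
  have hL := B.S.G.lg.L_ge
  have hd' : d ≤ B.S.G.lg.ε := (le_mul_of_one_le_left hd0.le hL).trans hd
  have hθ0 : 0 ≤ θ := le_trans (by positivity) h1
  obtain ⟨K, hK, hKs, hnet⟩ := exists_net
    (fun p : B.Lab × (E n → E n) × ℝ × ℝ => B.S.G.lg.jt p.1.1)
    {p | B.S.G.lg.sz p.1.1 ≤ e ∧ B.Real p.1 c t p.2.1 p.2.2.1 p.2.2.2}
    (x0 := B.S.G.lg.jt B.S.G.lg.one) (R := e) (δ := d / B.S.G.lg.L ^ 2) (by positivity)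
    fun p hp => hp.1
  obtain ⟨m0, hm0⟩ := (hK.image fun p => p.2.2.1).bddAbove
  obtain ⟨R, hR, hA⟩ := hA (max (max R0 1) (max (4 * m0) (40 * n * m0 / κ)))
  simp only [ge_iff_le, max_le_iff] at hR
  obtain ⟨⟨hR0, hR1⟩, hR2, hR3⟩ := hR
  rw [div_le_iff₀ hκ] at hR3
  have hn : (0 : ℝ) ≤ n := Nat.cast_nonneg n
  have unit : ∀ v : E n, nsq v = 1 → ‖v‖ ≤ 1 := fun v hv =>
    (sq_le_one_iff₀ (norm_nonneg v)).1 (hv ▸ (nsq_le v).1)
  have ipl : ∀ (u v : E n) (a : ℝ), ‖u‖ ≤ a → nsq v = 1 → |ip u v| ≤ n * a := fun u v a hu hv =>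
    (ip_basic u v v 0).2.2.2.2.2.1.trans (by
      calc n * ‖u‖ * ‖v‖ ≤ n * ‖u‖ * 1 := by gcongr; exact unit v hv
        _ ≤ _ := by rw [mul_one]; gcongr)
  have key : ∀ v ∈ {v | v ∈ EE B.S.Q.I ∧ nsq v = 1}, ∃ x ∈ B.Lets c t d, 2 * x.m ≤ 8 * C * R ∧
      3 / 4 * κ * R ≤ ip (B.ev c x) v := by
    rintro v ⟨hv, hv'⟩
    obtain ⟨l, b, m', a1, a2, a3⟩ := hA v hv hv'
    obtain ⟨k, hk, a4⟩ := hnet (l, b, C * R, m') ⟨a1, a2⟩
    have a5 : k.2.2.1 ≤ m0 := hm0 ⟨k, hk, rfl⟩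
    obtain ⟨x, hx, x1, x2, x3⟩ := letter_of hc ht he hd' h1 h2 hθ ENNReal.ofReal_ne_top
      ENNReal.ofReal_ne_top a2.rl (hKs hk).2.rl a1 (hKs hk).1
      ((le_div_iff₀' (by positivity)).1 a4)
    have a6 : R ≤ C * R := le_mul_of_one_le_left (by linarith) hC
    have a7 : C * R + 4 * k.2.2.1 ≤ 2 * (C * R) := by linarith
    have a8 := abs_le.1 (ipl _ v _ (x2.trans (by linarith : _ ≤ 5 * m0)) hv')
    have a9 := abs_le.1 (ipl _ v _ (x3.trans (mul_le_mul_of_nonneg_left a7 (by positivity))) hv')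
    rw [(ip_basic _ _ v 0).2.2.2.1] at a8
    rw [(ip_basic _ _ v 0).2.2.1] at a9
    have a10 : n * (5 * θ * (2 * (C * R))) ≤ κ * R / 8 := by nlinarith
    rcases le_abs.1 a3 with a | a
    · exact ⟨x, hx, by linarith, by nlinarith [a8.1]⟩
    · exact ⟨B.alph.inv x, Lets.inv hx hd, by show 2 * x.m ≤ _; linarith,
        by nlinarith [a8.2, a9.1]⟩
  have : Nonempty B.Ltr := ⟨⟨B.lg.one, 0, 0, 0, 0⟩⟩
  choose! f hf using key
  obtain ⟨V, hV, hVs, hv⟩ := exists_net (fun v : E n => v) {v | v ∈ EE B.S.Q.I ∧ nsq v = 1}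
    (x0 := 0) (R := 1) (δ := κ / (32 * (n + 1) * C)) (by positivity)
    fun v hv => by simpa using unit v hv.2
  refine ⟨R, hR0, f '' V, hV.image f, ?_, fun v h4 h5 => ?_⟩
  · rintro _ ⟨v, h, rfl⟩
    exact (hf v (hVs h)).1
  · obtain ⟨u, hu, h6⟩ := hv v ⟨h4, h5⟩
    obtain ⟨x1, x2, x3⟩ := hf u (hVs hu)
    refine ⟨_, ⟨u, hu, rfl⟩, x2, ?_⟩
    have h7 := (ip_basic (v - u) (B.ev c (f u)) v 0).2.2.2.2.2.1
    have h8 : n * ‖v - u‖ * ‖B.ev c (f u)‖ ≤ (n + 1) * (κ / (32 * (n + 1) * C)) * (8 * C * R) := by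
      gcongr
      · linarith
      · exact (Lets.ev_le x1 ht).2.trans x2
    have h9 : (n + 1) * (κ / (32 * (n + 1) * C)) * (8 * C * R) = κ * R / 4 := by
      field_simp
      ring
    rw [(ip_basic _ _ (B.ev c (f u)) 0).2.2.2.1, (ip_basic v _ v 0).1, (ip_basic u _ v 0).1] at h7
    linarith [(abs_le.1 h7).1]

end Big

end Pool.Agent.CL
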