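import Mathlib

/-! Definitions for MP_63735c_ag: finite quotients of abelian fourfolds as complex spaces,
Cech line bundles, reflexive 2-forms. -/

set_option autoImplicit false

open Set

noncomputable section

namespace Pool.Agent.P.MP_63735c_ag

/-! ### Spaces with a sheaf of holomorphic functions

`Hol U f` says that `f` restricted to the open set `U` is holomorphic. -/

section General

variable {X B : Type} [TopologicalSpace X] [TopologicalSpace B]

/-- `H^1(X, O) = 0`: every Cech 1-cocycle on every open cover is a coboundary. -/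
def H1Vanishes (Hol : Set X → (X → ℂ) → Prop) : Prop :=
  ∀ (J : Type) (U : J → Set X) (F : J → J → X → ℂ), (∀ i, IsOpen (U i)) → (∀ x, ∃ i, x ∈ U i) →
    (∀ i j, Hol (U i ∩ U j) (F i j)) →
    (∀ i j k, ∀ x ∈ U i ∩ U j ∩ U k, F i j x + F j k x = F i k x) →
    ∃ G : J → X → ℂ, (∀ i, Hol (U i) (G i)) ∧ ∀ i j, ∀ x ∈ U i ∩ U j, F i j x = G i x - G j x

/-- A cover with transition functions. -/
structure Cocycle (X : Type) where
  J : Type
  U : J → Set X
  g : J → J → X → ℂ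

/-- The data define a holomorphic line bundle. -/
def IsLineBundle (Hol : Set X → (X → ℂ) → Prop) (L : Cocycle X) : Prop :=
  (∀ i, IsOpen (L.U i)) ∧ (∀ x, ∃ i, x ∈ L.U i) ∧ (∀ i j, Hol (L.U i ∩ L.U j) (L.g i j)) ∧
  (∀ i j, ∀ x ∈ L.U i ∩ L.U j, L.g i j x ≠ 0) ∧
  ∀ i j k, ∀ x ∈ L.U i ∩ L.U j ∩ L.U k, L.g i j x * L.g j k x = L.g i k x

/-- The trivial bundle `O`. -/
def triv (X : Type) : Cocycle X := ⟨Unit, fun _ => univ, fun _ _ _ => 1⟩

/-- Tensor power. -/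
def Cocycle.pow (L : Cocycle X) (m : ℕ) : Cocycle X := ⟨L.J, L.U, fun i j x => L.g i j x ^ m⟩

/-- Pull-back. -/
def Cocycle.pullback (A : Cocycle B) (f : X → B) : Cocycle X :=
  ⟨A.J, fun i => f ⁻¹' A.U i, fun i j x => A.g i j (f x)⟩

/-- Isomorphism of line bundles, written in the local trivialisations. -/
def Iso (Hol : Set X → (X → ℂ) → Prop) (L M : Cocycle X) : Prop :=
  ∃ φ : L.J → M.J → X → ℂ, (∀ i a, Hol (L.U i ∩ M.U a) (φ i a)) ∧
    (∀ i a, ∀ x ∈ L.U i ∩ M.U a, φ i a x ≠ 0) ∧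
    ∀ i j a b, ∀ x ∈ L.U i ∩ L.U j ∩ (M.U a ∩ M.U b), φ i a x * M.g a b x = L.g i j x * φ j b x

/-- Global holomorphic section. -/
def IsSection (Hol : Set X → (X → ℂ) → Prop) (L : Cocycle X) (s : L.J → X → ℂ) : Prop :=
  (∀ i, Hol (L.U i) (s i)) ∧ ∀ i j, ∀ x ∈ L.U i ∩ L.U j, s i x = L.g i j x * s j x

/-- Sections of some power separate points (true for every ample line bundle). -/
def SeparatesPoints (Hol : Set X → (X → ℂ) → Prop) (A : Cocycle X) : Prop :=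
  ∃ k : ℕ, ∀ x y : X, x ≠ y → ∃ s, IsSection Hol (A.pow k) s ∧
    (∀ i, x ∈ A.U i → s i x = 0) ∧ ∀ i, y ∈ A.U i → s i y ≠ 0

/-- Holomorphic map. -/
def HolMap (Hol : Set X → (X → ℂ) → Prop) (HolB : Set B → (B → ℂ) → Prop) (f : X → B) : Prop :=
  Continuous f ∧ ∀ U h, IsOpen U → HolB U h → Hol (f ⁻¹' U) (h ∘ f)

/-- `L ^ m ≅ f^* A` for a holomorphic surjection `f` onto a space with at least two points and a
line bundle `A` that separates points. Necessary for `L` to induce a Lagrangian fibration. -/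
def WeaklyInduces (Hol : Set X → (X → ℂ) → Prop) (L : Cocycle X) : Prop :=
  ∃ (B : Type) (_ : TopologicalSpace B) (HolB : Set B → (B → ℂ) → Prop) (f : X → B)
    (A : Cocycle B) (m : ℕ), HolMap Hol HolB f ∧ Function.Surjective f ∧ Nontrivial B ∧
    IsLineBundle HolB A ∧ SeparatesPoints HolB A ∧ 1 ≤ m ∧ Iso Hol (L.pow m) (A.pullback f)

end General

/-! ### Quotients of `ℂ^4` -/

abbrev V : Type := Fin 4 → ℂ

/-- The orbit space, with the quotient topology. -/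
abbrev Orb (Γ : Subgroup (Equiv.Perm V)) : Type := Quotient (MulAction.orbitRel Γ V)

/-- The quotient map. -/
def proj (Γ : Subgroup (Equiv.Perm V)) : V → Orb Γ := Quotient.mk _

/-- Structure sheaf of the quotient: functions whose pull-back to `ℂ^4` is holomorphic. -/
def Hol (Γ : Subgroup (Equiv.Perm V)) (U : Set (Orb Γ)) (f : Orb Γ → ℂ) : Prop :=
  DifferentiableOn ℂ (f ∘ proj Γ) (proj Γ ⁻¹' U)

/-- `Γ` consists of complex affine maps and contains the translations by `ℤ[i]^4` with finite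
index, so `Orb Γ` is the quotient of an abelian fourfold by a finite group. -/
def IsAbelianQuotient (Γ : Subgroup (Equiv.Perm V)) : Prop :=
  (∀ γ ∈ Γ, ∃ (A : V →L[ℂ] V) (b : V), ∀ z, γ z = A z + b) ∧
  (∀ l : Fin 4 → GaussianInt, Equiv.addRight (fun j => (l j : ℂ)) ∈ Γ) ∧
  ∃ F : Set (Equiv.Perm V), F.Finite ∧ ∀ γ ∈ Γ, ∃ δ ∈ F, ∃ l : Fin 4 → GaussianInt,
    ∀ z, γ z = δ z + fun j => (l j : ℂ)

/-- Points with nontrivial stabiliser. -/
def Fix (Γ : Subgroup (Equiv.Perm V)) : Set V := {z | ∃ γ ∈ Γ, γ ≠ 1 ∧ γ z = z}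

/-- Holomorphic 2-forms on the free locus of `Orb Γ`: invariant holomorphic 2-forms off `Fix`. -/
def IsTwoForm (Γ : Subgroup (Equiv.Perm V)) (τ : V → V [⋀^Fin 2]→L[ℂ] ℂ) : Prop :=
  DifferentiableOn ℂ τ (Fix Γ)ᶜ ∧
  ∀ γ ∈ Γ, ∀ z ∉ Fix Γ, (τ (γ z)).compContinuousLinearMap (fderiv ℂ γ z) = τ z

/-- `Orb Γ` is a finite quotient of an abelian fourfold with finitely many non-free orbits,
`H^1(O) = 0`, and the reflexive 2-forms are the multiples of one symplectic form. -/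
def IsPrimitiveSymplecticQuotient (Γ : Subgroup (Equiv.Perm V)) : Prop :=
  IsAbelianQuotient Γ ∧ (proj Γ '' Fix Γ).Finite ∧ H1Vanishes (Hol Γ) ∧
  ∃ σ, IsTwoForm Γ σ ∧ (∀ z ∉ Fix Γ, extDeriv σ z = 0 ∧ ∀ v ≠ 0, ∃ w, σ z ![v, w] ≠ 0) ∧
    ∀ τ, IsTwoForm Γ τ → ∃ c : ℂ, ∀ z ∉ Fix Γ, τ z = c • σ z

end Pool.Agent.P.MP_63735c_ag
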