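import Pool.Agent.P.MP_63735c_ag.FBDefs
import Pool.Agent.P.MP_63735c_ag.BPFib
import Pool.Agent.P.MP_63735c_ag.BPEA

/-! Objects of the proof that the fibres are connected and Lagrangian (not in any statement). -/

open scoped ComplexOrder ContDiff Matrix Topology ENNReal
open Set Metric MeasureTheory Filter

namespace Pool.Agent.BP

open Pool.Agent.SPF Pool.Agent.CL Pool.Agent.NL Pool.Agent.CK Pool.Agent.AB Pool.Agent.SE

variable {N n : ℕ} {X : Type} [TopologicalSpace X] {A : Atlas X N}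

/-- A section of the `k`-th power vanishes at `y` and not at `x`. -/
def Sep (L : Line A) (k : ℕ) (x y : X) : Prop :=
  ∃ s, L.IsSection k s ∧ Van A s y ∧ ¬ Van A s x

/-- The `k`-th power has no base point. -/
def Bpf (L : Line A) (k : ℕ) : Prop := ∀ x, ∃ s, L.IsSection k s ∧ ¬ Van A s x

/-- `c` is a limit value of `F` on `O` at `x`. -/
def Near {M : ℕ} (O : Set X) (F : X → E M) (x : X) (c : E M) : Prop :=
  ∀ ε > 0, ∃ᶠ y in 𝓝 x, y ∈ O ∧ ‖F y - c‖ < ε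

/-- The class of `y` lies in `V`. -/
def Fib.In (F : Fib A n) (V : Set X) (y : X) : Prop := y ∈ F.W ∧ ∀ y', F.r y y' → y' ∈ V

/-- Coordinates on the classes close to the limit set of `U`. -/
structure Loc (F : Fib A n) (U : Filter X) (V₀ B : Set X) where
  m : ℕ
  M : Set X
  G : X → E m
  V : Set X
  a : E m
  δ : ℝ
  C : ℝ
  sat : F.Sat M
  sub : M ⊆ V₀
  δ_pos : 0 < δ
  C_pos : 0 < C
  G_hol : ∀ i, DifferentiableOn ℂ (fun z => G (A.p i z)) (dom A M i)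
  grad : ∀ i, ∀ z ∈ dom A M i, ∀ v,
    nsq (fderiv ℂ (fun y => G (A.p i y)) z v) ≤ C * hr (F.Om i z) v
  bdd : ∀ y ∈ M, ‖G y‖ ≤ C
  V_open : IsOpen V
  lim : F.Lim U ⊆ V
  mem : ∀ y, F.In V y → y ∈ M
  closed : ∀ y₁, F.In V y₁ → ∀ y ∈ F.W,
    y ∈ closure {y' | y' ∈ M ∧ ‖G y' - G y₁‖ ≤ 2 * δ} → y ∈ M
  tend : Tendsto G U (𝓝 a)
  pass : ∀ y ∈ M, ‖G y - a‖ ≤ δ → ∃ y' ∈ B, F.r y y'
  cl : ∀ U₁ U₂ : Ultrafilter X, M ∈ U₁ → M ∈ U₂ → ∀ c, Tendsto G U₁ (𝓝 c) → Tendsto G U₂ (𝓝 c) →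
    (F.Lim U₁ ∩ F.Lim U₂).Nonempty

variable [MeasurableSpace X] {μ : Measure X} {L : Line A}

/-- A weight that is bounded and has curvature at least `- C th`. -/
structure Wt (U : Up A μ L) (C : ℝ) (q : X → ℝ) : Prop where
  smo : U.D.Smo q
  lev : ∀ i, ∀ z ∈ U.D.W i, ∀ v,
    -(C * U.th i z v) ≤ (hq (lev (fun y => q (A.p i y)) z) v v).re
  le : ∀ y, q y ≤ 0
  bd : ∃ b, ∀ y, Real.exp (-q y) ≤ b

/-- The weighted distance of `g` and `s` in the chart `i`. -/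
noncomputable def Up.dist (U : Up A μ L) (j : ℕ) (q : X → ℝ) (g s : X → ℂ) (i : A.ι) : ℝ≥0∞ :=
  ∫⁻ z in U.D.W i, ENNReal.ofReal (Real.exp (-(j * U.φ (A.p i z) + q (A.p i z))) *
    ‖((A.C i).σ z).det‖ * ‖g (A.p i z) - s (A.p i z)‖ ^ 2)

namespace UG

variable {U : Up A μ L} {x : X} (H : UG U x)

/-- The weight has a pole of high order at the centre of `H`, cut off at the height `ρ`. -/
def Pole (τ ρ : ℝ) (q : X → ℝ) : Prop :=
  ∀ y ∈ H.O, q y ≤ (4 * N + 1 : ℕ) * (Real.log ((H.t H.a y + ρ) / τ) + 1)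

/-- The value of `T` at `z₀` is close to a value of `s` near `z₀` and near the centre. -/
def Apx (j : ℕ) (T : A.ι → E N → ℂ) (s : X → ℂ) (R θ : ℝ) (i : A.ι) (z₀ : E N) : Prop :=
  ∃ z ∈ ball z₀ θ, z ∈ U.D.W i ∧ A.p i z ∈ H.O ∧ H.t H.a (A.p i z) ≤ θ ∧ U.l2 (A.p i z) ≤ R ∧
    ‖T i z₀ - s (A.p i z) * U.s i z ^ j‖ ≤ θ

end UG

/-- All the data. -/
structure Ctx (μ : Measure X) (K : Form11 A) (L : Line A) (n : ℕ) where
  U : Up A μ L
  F : Fib A n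
  h : X → Mat n
  c₀ : ℝ
  a : ℝ
  d : ℕ
  hN : N = 2 * n
  n_pos : 1 ≤ n
  vol : IsVolume A μ
  K_pos : ∀ i, ∀ z ∈ (A.C i).W, (K.h i z).PosDef
  W_eq : F.W = U.W
  tor : F.Tor μ K h c₀
  a_pos : 0 < a
  th : ∀ i, ∀ z ∈ dom A U.W i, ∀ v, a * hr (F.Om i z) v ≤ U.th i z v
  ext : U.Ext
  d_pos : 1 ≤ d
  bpf : Bpf L (U.m * d)

/-- The points that no power separates from `x`. -/
def Ctx.Z {K : Form11 A} (Γ : Ctx μ K L n) (x : X) : Set X :=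
  {y | ∀ l, 1 ≤ l → ¬ Sep L (Γ.U.m * (Γ.d * l)) x y}

end Pool.Agent.BP
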