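import Pool.Agent.P.MP_63735c_ag.FB0
import Pool.Agent.P.MP_63735c_ag.BPE9

/-! Holomorphic functions close to the frame in any admissible weight. -/

open scoped ComplexOrder ContDiff Matrix Topology ENNReal
open Set Metric MeasureTheory Filter

namespace Pool.Agent.BP

open Pool.Agent.SPF Pool.Agent.CL Pool.Agent.NL Pool.Agent.CK Pool.Agent.AB Pool.Agent.SE

variable {N : ℕ} {X : Type} [TopologicalSpace X] [MeasurableSpace X] {A : Atlas X N}
  {μ : Measure X} {L : Line A} {U : Up A μ L} {x : X}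

theorem Up.wt_lev (U : Up A μ L) {C₁ : ℝ} (hC : 0 ≤ C₁) : ∃ k e : ℕ, 1 ≤ e ∧ ∀ j : ℕ, e ≤ j →
    ∀ q, Wt U C₁ q → U.D.Smo (fun y => j * U.φ y + k * U.G y + q y + (1 + U.l y)⁻¹) ∧
      ∀ i, ∀ z ∈ U.D.W i, ∀ v, U.th i z v + ‖v ⬝ᵥ dr (fun y => U.l2 (A.p i y)) z‖ ^ 2 ≤
        (hq (lev (fun y => j * U.φ (A.p i y) + k * U.G (A.p i y) + q (A.p i y) +
          (1 + U.l (A.p i y))⁻¹) z) v v).re := by
  obtain ⟨-, hr, -, -, hrl⟩ := U.l2_calc
  refine ⟨⌈C₁⌉₊ + 1, ⌈C₁⌉₊ + 1 + ⌈U.M⌉₊ + 1, by omega, fun j hj q hq' => ?_⟩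
  set k : ℕ := ⌈C₁⌉₊ + 1 with hk
  have hφ := U.pot
  refine ⟨fun i => ?_, fun i z hz v => ?_⟩
  · exact (((contDiffOn_const.mul (hφ.smo i)).add (contDiffOn_const.mul (U.G_smo i))).add
      (hq'.smo i)).add (hr i)
  · have hn := (U.D.isOpen i).mem_nhds hz
    have s1 : ContDiffAt ℝ ∞ (fun y => U.φ (A.p i y)) z := (hφ.smo i).contDiffAt hn
    have s2 : ContDiffAt ℝ ∞ (fun y => U.G (A.p i y)) z := (U.G_smo i).contDiffAt hn
    have s3 : ContDiffAt ℝ ∞ (fun y => q (A.p i y)) z := (hq'.smo i).contDiffAt hn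
    have s4 : ContDiffAt ℝ ∞ (fun y => (1 + U.l (A.p i y))⁻¹) z := (hr i).contDiffAt hn
    have t1 : ContDiffAt ℝ ∞ (fun y => (j : ℝ) * U.φ (A.p i y)) z := contDiffAt_const.mul s1
    have t2 : ContDiffAt ℝ ∞ (fun y => (k : ℝ) * U.G (A.p i y)) z := contDiffAt_const.mul s2
    have h0 := hq_nonneg ((A.C i).η_psd z hz.1) v
    have h1 := U.G_lev i z hz.1 hz.2 v
    have h2 := hq'.lev i z hz v
    have h3 := hrl i z hz v
    have hk1 : C₁ + 1 ≤ k := by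
      rw [hk]
      push_cast
      linarith [Nat.le_ceil C₁]
    have he1 : (k : ℝ) + U.M ≤ (j : ℝ) * (U.m : ℝ) := by
      have h4 : k + ⌈U.M⌉₊ + 1 ≤ j * U.m := hj.trans (Nat.le_mul_of_pos_right _ U.m_pos)
      have h5 : (k : ℝ) + ⌈U.M⌉₊ + 1 ≤ (j : ℝ) * (U.m : ℝ) := by exact_mod_cast h4
      linarith [Nat.le_ceil U.M]
    rw [lev_add ((t1.add t2).add s3) s4, lev_add (t1.add t2) s3, lev_add t1 t2, lev_smul s1,
      lev_smul s2, hφ.lev i z hz]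
    simp only [hq_add, hq_smul, Complex.add_re, Complex.re_ofReal_mul]
    unfold Up.th at h2 ⊢
    have a2 := mul_nonneg (sub_nonneg.2 hk1) h1
    have a3 := mul_nonneg (sub_nonneg.2 he1) h0
    nlinarith [a2, a3, h2, h3]

theorem Up.l2q [CompactSpace X] [T2Space X] [BorelSpace X] (U : Up A μ L) (hμ : IsVolume A μ)
    {K : Form11 A} (hK : ∀ i, ∀ z ∈ (A.C i).W, (K.h i z).PosDef) {C₁ : ℝ} (hC : 0 ≤ C₁) :
    ∃ e : ℕ, 1 ≤ e ∧ ∀ (x : X) (H : UG U x) (C₂ : ℝ), ∃ C₀ : ℝ, 0 < C₀ ∧ ∀ q, Wt U C₁ q →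
      (∀ y ∈ H.O, H.τ ≤ 2 * H.t H.a y → Real.exp (-q y) ≤ C₂) → ∀ R₀, ∃ R, R₀ ≤ R ∧
        ∃ g : X → ℂ, U.D.Hol g ∧ ∀ i, U.dist (H.d * e) q g (H.sR e R) i ≤ ENNReal.ofReal C₀ := by
  classical
  obtain ⟨k, e, he, hΦ⟩ := U.wt_lev hC
  refine ⟨e, he, fun x H C₂ => ?_⟩
  obtain ⟨B, hB, hsR⟩ := H.sR_db e
  obtain ⟨K', h1, h2, h3⟩ := U.cut hK
  set f : X → ℝ≥0∞ := fun y => ENNReal.ofReal (Real.exp (-(k * U.G y))) with hf
  have hJ : ∫⁻ y in U.W, f y ∂μ ≠ ⊤ := (U.G_int k).lintegral_lt_top.ne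
  have hfm : AEMeasurable f (μ.restrict U.W) :=
    (U.G_int k).aestronglyMeasurable.aemeasurable.ennreal_ofReal
  set J : ℝ := (∫⁻ y in U.W, f y ∂μ).toReal with hJd
  have hJ0 : 0 ≤ J := ENNReal.toReal_nonneg
  refine ⟨Real.exp 1 * (1 + B * |C₂| * J), by positivity, fun q hw hC₂ R₀ => ?_⟩
  obtain ⟨b, hb⟩ := hw.bd
  have hb0 : 0 ≤ b := (Real.exp_pos _).le.trans (hb x)
  obtain ⟨R, hR, S, hSm, hS, hS1⟩ := bpe9_tail U hJ
    (a := ENNReal.ofReal (B * b)) ENNReal.ofReal_ne_top R₀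
  obtain ⟨hs, c, hc, hc0, hcB, hsc⟩ := hsR R
  obtain ⟨hΦs, hΦl⟩ := hΦ (H.d * e) (Nat.le_mul_of_pos_left e H.d_pos) q hw
  set Φ : X → ℝ := fun y => ((H.d * e : ℕ) : ℝ) * U.φ y + k * U.G y + q y + (1 + U.l y)⁻¹ with hΦd
  have hth : ∀ i, ∀ z ∈ U.D.W i, ∀ v, 0 ≤ U.th i z v := fun i z hz v => U.G_lev i z hz.1 hz.2 v
  obtain ⟨g, hg, hgl⟩ := l2_gen hμ h1 h2 h3 hΦs
    (fun i z hz v => (add_nonneg (hth i z hz v) (sq_nonneg _)).trans (hΦl i z hz v)) hs hc hc0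
    (fun i z hz v => (hsc i z hz v).trans
      (mul_le_mul_of_nonneg_left (hΦl i z hz v) (hc0 _)))
  have hl : ∀ y ∈ U.W, 0 ≤ (1 + U.l y)⁻¹ ∧ (1 + U.l y)⁻¹ ≤ 1 := fun y hy => by
    have h := U.l_calc.2.1 y hy
    exact ⟨by positivity, inv_le_one_of_one_le₀ (by linarith)⟩
  have hpt : ∀ y ∈ U.W, ENNReal.ofReal (c y * Real.exp (-Φ y)) ≤
      S.indicator (fun y => ENNReal.ofReal (B * b) * f y) y +
        ENNReal.ofReal (B * |C₂|) * f y := by
    intro y hy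
    set E := Real.exp (-(k * U.G y)) with hE
    set P := Real.exp (-q y) with hP
    have hE0 : 0 ≤ E := (Real.exp_pos _).le
    have hP0 : 0 ≤ P := (Real.exp_pos _).le
    have h4 : Real.exp (-Φ y) ≤ Real.exp (-((H.d * e : ℕ) * U.φ y)) * (P * E) := by
      rw [hP, hE, ← Real.exp_add, ← Real.exp_add]
      refine Real.exp_le_exp.2 ?_
      have := (hl y hy).1
      simp only [hΦd]
      linarith
    have h5 : c y * Real.exp (-Φ y) ≤
        ((if R ≤ U.l2 y then B else 0) +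
          (if y ∈ H.O ∧ H.τ ≤ 2 * H.t H.a y then B else 0)) * (P * E) := by
      refine (mul_le_mul_of_nonneg_left h4 (hc0 y)).trans ?_
      rw [← mul_assoc]
      exact mul_le_mul_of_nonneg_right (hcB y) (by positivity)
    refine (ENNReal.ofReal_le_ofReal h5).trans ?_
    rw [add_mul]
    refine ENNReal.ofReal_add_le.trans (add_le_add ?_ ?_)
    · split_ifs with h
      · rw [indicator_of_mem (hS y hy h), hf, ← ENNReal.ofReal_mul (by positivity), mul_assoc]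
        refine ENNReal.ofReal_le_ofReal (mul_le_mul_of_nonneg_left ?_ hB)
        exact mul_le_mul_of_nonneg_right (hb y) hE0
      · simp
    · split_ifs with h
      · rw [hf, ← ENNReal.ofReal_mul (by positivity), mul_assoc]
        refine ENNReal.ofReal_le_ofReal (mul_le_mul_of_nonneg_left ?_ hB)
        exact mul_le_mul_of_nonneg_right ((hC₂ y h.1 h.2).trans (le_abs_self _)) hE0
      · simp
  have hint : ∫⁻ y in U.W, ENNReal.ofReal (c y * Real.exp (-Φ y)) ∂μ ≤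
      ENNReal.ofReal (1 + B * |C₂| * J) := by
    refine (setLIntegral_mono' U.hW.measurableSet hpt).trans ?_
    rw [lintegral_add_right' _ (hfm.const_mul _), lintegral_indicator hSm,
      lintegral_const_mul' _ _ ENNReal.ofReal_ne_top,
      lintegral_const_mul' _ _ ENNReal.ofReal_ne_top,
      ENNReal.ofReal_add zero_le_one (by positivity), ENNReal.ofReal_one,
      ENNReal.ofReal_mul (q := J) (by positivity), hJd, ENNReal.ofReal_toReal hJ]
    exact add_le_add hS1 le_rfl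
  refine ⟨R, hR, g, hg, fun i => ?_⟩
  unfold Up.dist
  rw [ENNReal.ofReal_mul (Real.exp_pos _).le]
  refine le_trans ?_ (mul_le_mul_right ((hgl i).trans hint) _)
  rw [← lintegral_const_mul' _ _ ENNReal.ofReal_ne_top]
  refine setLIntegral_mono' (U.D.isOpen i).measurableSet fun z hz => ?_
  rw [← ENNReal.ofReal_mul (Real.exp_pos _).le, ← mul_assoc, ← mul_assoc, ← Real.exp_add]
  refine ENNReal.ofReal_le_ofReal (mul_le_mul_of_nonneg_right
    (mul_le_mul_of_nonneg_right (Real.exp_le_exp.2 ?_) (norm_nonneg _)) (sq_nonneg _))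
  have h6 := (hl _ hz.2).2
  have h7 : (k : ℝ) * U.G (A.p i z) ≤ 0 :=
    mul_nonpos_of_nonneg_of_nonpos (Nat.cast_nonneg _) (U.G_le _ hz.2)
  simp only [hΦd]
  linarith

theorem UG.lam_exp (H : UG U x) (c : E H.M) {ε : ℝ} (hε : 0 < ε) (y : X) :
    Real.exp (-H.lam c ε y) ≤ max 1 (H.τ / (H.t c y + ε)) ∧ (y ∉ H.O → H.lam c ε y = 0) := by
  refine ⟨?_, fun hy => by rw [UG.lam, indicator_of_notMem hy]⟩
  have hp := H.τ_pos
  have ht : 0 ≤ H.t c y := (sq_nonneg _).trans (norm_sq_le_nsq _)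
  obtain ⟨h0, -, h1⟩ := H.lam_bd c ε y
  rcases h0.lt_or_eq with h | h
  · have h3 : 0 < (H.t c y + ε) / H.τ := by positivity
    refine le_max_of_le_right ?_
    calc Real.exp (-H.lam c ε y) ≤ Real.exp (-Real.log ((H.t c y + ε) / H.τ)) :=
          Real.exp_le_exp.2 (neg_le_neg (h1 h).2)
      _ = H.τ / (H.t c y + ε) := by rw [Real.exp_neg, Real.exp_log h3, inv_div]
  · rw [h, neg_zero, Real.exp_zero]
    exact le_max_left _ _

/-- The weight with two poles. -/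
theorem wt_two {x' : X} (H : UG U x) (H' : UG U x') (γ : ℕ) : ∃ C₁ : ℝ, 0 ≤ C₁ ∧
    ∀ c c', ‖c - H.a‖ ≤ H.δ / 2 → ‖c' - H'.a‖ ≤ H'.δ / 2 → ∀ ε, 0 < ε →
      Wt U C₁ fun y => γ * (H.lam c ε y + H'.lam c' ε y) := by
  obtain ⟨C, hC, h⟩ := H.lam_lev
  obtain ⟨C', hC', h'⟩ := H'.lam_lev
  have hγ : (0 : ℝ) ≤ γ := Nat.cast_nonneg γ
  refine ⟨γ * (C + C'), by positivity, fun c c' hc hc' ε hε => ?_⟩
  obtain ⟨s1, l1⟩ := h c ε hc hε
  obtain ⟨s2, l2⟩ := h' c' ε hc' hε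
  refine ⟨fun i => contDiffOn_const.mul ((s1 i).add (s2 i)), fun i z hz v => ?_, fun y => ?_,
    ⟨(max 1 (H.τ / ε) * max 1 (H'.τ / ε)) ^ γ, fun y => ?_⟩⟩
  · have hn := (U.D.isOpen i).mem_nhds hz
    have t1 : ContDiffAt ℝ ∞ (fun y => H.lam c ε (A.p i y)) z := (s1 i).contDiffAt hn
    have t2 : ContDiffAt ℝ ∞ (fun y => H'.lam c' ε (A.p i y)) z := (s2 i).contDiffAt hn
    rw [lev_smul (t1.add t2), lev_add t1 t2]
    simp only [hq_add, hq_smul, Complex.add_re, Complex.re_ofReal_mul]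
    have a1 := mul_le_mul_of_nonneg_left (add_le_add (l1 i z hz v) (l2 i z hz v)) hγ
    linarith
  · exact mul_nonpos_of_nonneg_of_nonpos hγ
      (add_nonpos (H.lam_bd c ε y).1 (H'.lam_bd c' ε y).1)
  · have key : ∀ {x : X} (H : UG U x) (c : E H.M),
        Real.exp (-H.lam c ε y) ≤ max 1 (H.τ / ε) := fun H c => by
      have ht : 0 ≤ H.t c y := (sq_nonneg _).trans (norm_sq_le_nsq _)
      exact (H.lam_exp c hε y).1.trans (max_le_max_left _
        (div_le_div_of_nonneg_left H.τ_pos.le hε (by linarith)))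
    rw [← mul_neg, Real.exp_nat_mul, neg_add, Real.exp_add]
    exact pow_le_pow_left₀ (by positivity)
      (mul_le_mul (key H c) (key H' c') (Real.exp_pos _).le (by positivity)) γ

end Pool.Agent.BP
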