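import Pool.Agent.P.MP_63735c_ag.FB0
import Pool.Agent.P.MP_63735c_ag.BPEB

/-! The value of the solution at a pole. -/

open scoped ComplexOrder ContDiff Matrix Topology ENNReal
open Set Metric MeasureTheory Filter

namespace Pool.Agent.BP

open Pool.Agent.SPF Pool.Agent.CL Pool.Agent.NL Pool.Agent.CK Pool.Agent.AB Pool.Agent.SE

variable {N : ℕ} {X : Type} [TopologicalSpace X] [MeasurableSpace X] {A : Atlas X N}
  {μ : Measure X} {L : Line A} {U : Up A μ L} {x : X}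

theorem fb2_lip (N : ℕ) {r : ℝ} (hr : 0 < r) : ∃ a : ℝ, 0 < a ∧
    ∀ (f : E N → ℂ) (z₀ : E N) (b : ℝ), 0 ≤ b → DifferentiableOn ℂ f (ball z₀ (2 * r)) →
      ∫⁻ y in ball z₀ (2 * r), ENNReal.ofReal (‖f y‖ ^ 2) ≤ ENNReal.ofReal (b ^ 2) →
        ∀ z ∈ ball z₀ r, ‖f z - f z₀‖ ≤ a * b * ‖z - z₀‖ := by
  obtain ⟨a, ha, h⟩ := hol_l2 N hr
  refine ⟨a, ha, fun f z₀ b hb hf hi z hz => ?_⟩
  have key : ∀ w ∈ ball z₀ r, DifferentiableAt ℂ f w ∧ ‖fderiv ℂ f w‖ ≤ a * b := by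
    intro w hw
    have hs : ball w r ⊆ ball z₀ (2 * r) := ball_subset_ball' (by
      have := mem_ball.1 hw
      linarith)
    have hm : AEStronglyMeasurable (fun y => ‖f y‖ ^ 2) (volume.restrict (ball w r)) :=
      (((hf.mono hs).continuousOn.norm).pow 2).aestronglyMeasurable measurableSet_ball
    have hn : 0 ≤ᵐ[volume.restrict (ball w r)] fun y => ‖f y‖ ^ 2 :=
      Eventually.of_forall fun _ => sq_nonneg _
    have h1 := (lintegral_mono_set hs).trans hi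
    refine ⟨hf.differentiableAt (isOpen_ball.mem_nhds (hs (mem_ball_self hr))),
      (h f w b hb (hf.mono hs) ⟨hm, (hasFiniteIntegral_iff_ofReal hn).2
        (h1.trans_lt ENNReal.ofReal_lt_top)⟩ ?_).2⟩
    rw [integral_eq_lintegral_of_nonneg_ae hn hm]
    exact ENNReal.toReal_le_of_le_ofReal (sq_nonneg _) h1
  exact (convex_ball z₀ r).norm_image_sub_le_of_norm_fderiv_le (𝕜 := ℂ) (fun w hw => (key w hw).1)
    (fun w hw => (key w hw).2) (mem_ball_self hr) hz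

theorem UG.ptq [T2Space X] [BorelSpace X] (H : UG U x) (hμ : IsVolume A μ) {i : A.ι} {z₀ : E N}
    (hz : z₀ ∈ (A.C i).W) (hx : A.p i z₀ = x) (j : ℕ) {C₀ C₁ τ θ : ℝ} (h0 : 0 ≤ C₀) (h1 : 0 ≤ C₁)
    (hτ : 0 < τ) (hθ : 0 < θ) : ∀ᶠ ρ in 𝓝[>] (0 : ℝ), ∃ R₀ : ℝ,
      ∀ (g s : X → ℂ) (q : X → ℝ) (T : A.ι → E N → ℂ), (∀ y, q y ≤ 0) → H.Pole τ ρ q →
        (∀ y, ‖s y‖ ^ 2 * Real.exp (-(j * U.φ y)) ≤ C₁) → U.dist j q g s i ≤ ENNReal.ofReal C₀ →
        DifferentiableOn ℂ (T i) (A.C i).W →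
        (∀ z ∈ U.D.W i, T i z = g (A.p i z) * U.s i z ^ j) → H.Apx j T s R₀ θ i z₀ := by
  obtain ⟨r, hr, hrW⟩ : ∃ r > 0, closedBall z₀ r ⊆ (A.C i).W :=
    nhds_basis_closedBall.mem_iff.1 ((A.C i).isOpen.mem_nhds hz)
  obtain ⟨r₀, hr₀, rfl⟩ : ∃ r₀, 0 < r₀ ∧ r = 2 * r₀ := ⟨r / 2, half_pos hr, by ring⟩
  obtain ⟨k, C, r₁, hC, hr₁, h3⟩ := H.sch_pt hz hx
  obtain ⟨c, r₂, hc, hr₂, h4⟩ := U.vol_big hμ hz k
  obtain ⟨B, hB, hA⟩ := U.loc_l2 j h0 h1 hrW
  obtain ⟨a, ha, hL⟩ := fb2_lip N hr₀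
  obtain ⟨c₁, B₁, hc₁, hB₁, hb⟩ := cpt_bds L (isCompact_closedBall z₀ (2 * r₀)) hrW
  set β := (θ / 2) ^ 2 * Real.exp (j * (-(U.m * B₁))) with hβ
  have hβ0 : 0 < β := by positivity
  set κ := (Real.exp (-1) * τ / (C + 1)) ^ (4 * N + 1) * c₁ * β with hκ
  have hκ0 : 0 < κ := by positivity
  have small : ∀ {f : ℝ → ℝ} {t : ℝ}, Continuous f → f 0 < t → ∀ᶠ ρ in 𝓝[>] 0, f ρ < t :=
    fun hf ht => nhdsWithin_le_nhds (hf.continuousAt.eventually_lt continuousAt_const ht)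
  filter_upwards [self_mem_nhdsWithin, small continuous_id hr₁, small continuous_id hr₂,
    small (f := fun ρ => C * ρ) (by fun_prop) (by simpa using hθ),
    small (f := fun ρ => ρ ^ 2) (by fun_prop) (by simpa using hr₀),
    small (f := fun ρ => ρ ^ 2) (by fun_prop) (by simpa using hθ),
    small (f := fun ρ => a * B * ρ ^ 2) (t := θ / 2) (by fun_prop) (by simpa using hθ),
    small (f := fun ρ => C₀ * ρ) (t := κ * c) (by fun_prop) (by simpa using mul_pos hκ0 hc)]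
    with ρ q0 q1 q2 q3 q4 q5 q6 q7
  have hρ : 0 < ρ := q0
  obtain ⟨S, b, hS, hv, hs⟩ := h4 ρ hρ q2
  obtain ⟨R₀, hR₀⟩ := U.l2_calc.2.2.2.1 b
  refine ⟨R₀, fun g s q T hq0 hP hs1 hi hT hTe => ?_⟩
  by_contra hcon
  have hbW := ball_subset_closedBall.trans hrW
  have hae : ball z₀ (2 * r₀) =ᵐ[volume] (ball z₀ (2 * r₀) ∩ U.D.W i : Set (E N)) := by
    refine ae_eq_set.2 ⟨measure_mono_null (fun y hy => ?_) (U.null_chart hμ i),
      measure_mono_null (fun y hy => (hy.2 hy.1.1).elim) measure_empty⟩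
    exact ⟨hbW hy.1, fun h => hy.2 ⟨hy.1, hbW hy.1, h⟩⟩
  have hlip := hL (T i) z₀ B hB.le (hT.mono hbW) (by
    rw [setLIntegral_congr hae, setLIntegral_congr_fun
      (measurableSet_ball.inter (U.D.isOpen i).measurableSet)
      (g := fun y => ENNReal.ofReal (‖g (A.p i y) * U.s i y ^ j‖ ^ 2))
      fun y hy => by simp only [hTe y hy.2]]
    exact hA g s q hq0 hs1 hi)
  have low : ∀ z ∈ S, κ / ρ ^ (4 * N + 1) ≤ Real.exp (-(j * U.φ (A.p i z) + q (A.p i z))) *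
      ‖((A.C i).σ z).det‖ * ‖g (A.p i z) - s (A.p i z)‖ ^ 2 := by
    intro z hzS
    obtain ⟨s1, s2, s3, s4⟩ := hs z hzS
    obtain ⟨o1, o2⟩ := h3 ρ hρ q1 z s1 s2 s3
    have hz1 : z ∈ ball z₀ r₀ := ball_subset_ball q4.le s1
    obtain ⟨b1, b2, -⟩ := hb z (ball_subset_closedBall (ball_subset_ball (by linarith) hz1))
    have w0 : θ < ‖T i z₀ - s (A.p i z) * U.s i z ^ j‖ := not_le.1 fun h =>
      hcon ⟨z, ball_subset_ball q5.le s1, s2, o1, o2.trans q3.le, hR₀ _ s2.2 s4, h⟩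
    have w1 : ‖T i z - T i z₀‖ ≤ θ / 2 := ((hlip z hz1).trans
      (mul_le_mul_of_nonneg_left (mem_ball_iff_norm.1 s1).le (by positivity))).trans q6.le
    have w2 : θ / 2 ≤ ‖(g (A.p i z) - s (A.p i z)) * U.s i z ^ j‖ := by
      have e1 : T i z₀ - s (A.p i z) * U.s i z ^ j =
          (g (A.p i z) - s (A.p i z)) * U.s i z ^ j - (T i z - T i z₀) := by
        rw [hTe z s2]
        ring
      have := norm_sub_le ((g (A.p i z) - s (A.p i z)) * U.s i z ^ j) (T i z - T i z₀)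
      rw [← e1] at this
      linarith
    have w3 : β ≤ ‖g (A.p i z) - s (A.p i z)‖ ^ 2 * Real.exp (-(j * U.φ (A.p i z))) := by
      have e1 : ‖g (A.p i z) - s (A.p i z)‖ ^ 2 * Real.exp (-(j * U.φ (A.p i z))) =
          ‖(g (A.p i z) - s (A.p i z)) * U.s i z ^ j‖ ^ 2 *
            Real.exp (j * (-(U.m * L.ψ i z))) := by
        rw [← mul_neg, Real.exp_nat_mul, Real.exp_nat_mul, U.φ_eq i z s2.1 s2.2,
          norm_mul, norm_pow]
        ring
      rw [e1]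
      refine mul_le_mul (pow_le_pow_left₀ (by positivity) w2 2)
        (Real.exp_le_exp.2 (mul_le_mul_of_nonneg_left (neg_le_neg ?_) (Nat.cast_nonneg _)))
        (Real.exp_nonneg _) (sq_nonneg _)
      exact mul_le_mul_of_nonneg_left ((le_abs_self _).trans b2) (Nat.cast_nonneg _)
    have ht : 0 ≤ H.t H.a (A.p i z) := (sq_nonneg _).trans (norm_sq_le_nsq _)
    have w4 : (Real.exp (-1) * τ / (C + 1) / ρ) ^ (4 * N + 1) ≤ Real.exp (-q (A.p i z)) := by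
      have l1 := hP _ o1
      have l2 : Real.log ((H.t H.a (A.p i z) + ρ) / τ) ≤ Real.log ((C + 1) * ρ / τ) :=
        Real.log_le_log (by positivity) (div_le_div_of_nonneg_right (by linarith) hτ.le)
      have l3 : Real.exp (-1) * τ / (C + 1) / ρ = Real.exp (-1 - Real.log ((C + 1) * ρ / τ)) := by
        rw [Real.exp_sub, Real.exp_log (by positivity)]
        field_simp
      rw [l3, ← Real.exp_nat_mul]
      refine Real.exp_le_exp.2 (le_neg.1 (l1.trans ?_))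
      rw [← mul_neg]
      exact mul_le_mul_of_nonneg_left (by linarith) (Nat.cast_nonneg _)
    calc _ = (Real.exp (-1) * τ / (C + 1) / ρ) ^ (4 * N + 1) * c₁ * β := by
          rw [hκ, div_pow _ ρ]
          ring
      _ ≤ Real.exp (-q (A.p i z)) * ‖((A.C i).σ z).det‖ *
          (‖g (A.p i z) - s (A.p i z)‖ ^ 2 * Real.exp (-(j * U.φ (A.p i z)))) := by gcongr
      _ = _ := by
          rw [neg_add, Real.exp_add]
          ring
  have fin : ENNReal.ofReal (κ / ρ ^ (4 * N + 1)) * ENNReal.ofReal (c * ρ ^ (4 * N)) ≤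
      ENNReal.ofReal C₀ := by
    refine le_trans ?_ ((lintegral_mono_set fun z hz => (hs z hz).2.1).trans hi)
    refine le_trans ?_ (setLIntegral_mono' hS fun z hz => ENNReal.ofReal_le_ofReal (low z hz))
    rw [setLIntegral_const]
    gcongr
  rw [← ENNReal.ofReal_mul (by positivity), ENNReal.ofReal_le_ofReal_iff h0] at fin
  have e2 : κ / ρ ^ (4 * N + 1) * (c * ρ ^ (4 * N)) = κ * c / ρ := by
    rw [pow_succ]
    field_simp
  rw [e2, div_le_iff₀ hρ] at fin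
  exact absurd q7 (not_lt.2 fin)

end Pool.Agent.BP
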