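import Pool.Agent.P.MP_63735c_ag.FB1
import Pool.Agent.P.MP_63735c_ag.FB2

/-! A section with prescribed values at two poles. -/

open scoped ComplexOrder ContDiff Matrix Topology ENNReal
open Set Metric MeasureTheory Filter

namespace Pool.Agent.BP

open Pool.Agent.SPF Pool.Agent.CL Pool.Agent.NL Pool.Agent.CK Pool.Agent.AB Pool.Agent.SE

variable {N : ℕ} {X : Type} [TopologicalSpace X] [MeasurableSpace X] {A : Atlas X N}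
  {μ : Measure X} {L : Line A} {U : Up A μ L} {x : X}

theorem Up.two [CompactSpace X] [T2Space X] [BorelSpace X] (U : Up A μ L) (hμ : IsVolume A μ)
    {K : Form11 A} (hK : ∀ i, ∀ z ∈ (A.C i).W, (K.h i z).PosDef) (hE : U.Ext) {C₁ : ℝ}
    (hC : 0 ≤ C₁) : ∃ e : ℕ, 1 ≤ e ∧ ∀ (x x₁ x₂ : X) (H : UG U x) (H₁ : UG U x₁) (H₂ : UG U x₂)
      (q : ℝ → X → ℝ) (C₂ τ₁ τ₂ : ℝ), 0 < τ₁ → 0 < τ₂ →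
      (∀ ε, 0 < ε → Wt U C₁ (q ε) ∧ H₁.Pole τ₁ ε (q ε) ∧ H₂.Pole τ₂ ε (q ε) ∧
        ∀ y ∈ H.O, H.τ ≤ 2 * H.t H.a y → Real.exp (-q ε y) ≤ C₂) →
      ∀ i₁, ∀ z₁ ∈ (A.C i₁).W, A.p i₁ z₁ = x₁ → ∀ i₂, ∀ z₂ ∈ (A.C i₂).W, A.p i₂ z₂ = x₂ →
        ∀ θ, 0 < θ → ∃ R T, L.IsSection (U.m * (H.d * e)) T ∧
          H₁.Apx (H.d * e) T (H.sR e R) R θ i₁ z₁ ∧ H₂.Apx (H.d * e) T (H.sR e R) R θ i₂ z₂ := by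
  obtain ⟨e, he, h⟩ := U.l2q hμ hK hC
  refine ⟨e, he, fun x x₁ x₂ H H₁ H₂ q C₂ τ₁ τ₂ hτ₁ hτ₂ hw i₁ z₁ hz₁ hx₁ i₂ z₂ hz₂ hx₂ θ hθ => ?_⟩
  obtain ⟨C₀, hC₀, h0⟩ := h x H C₂
  have hCe : 0 ≤ H.C ^ e := pow_nonneg H.C_pos.le e
  obtain ⟨ρ, hρ, ⟨R₁, p₁⟩, ⟨R₂, p₂⟩⟩ := (eventually_mem_nhdsWithin.and
    ((H₁.ptq hμ hz₁ hx₁ (H.d * e) hC₀.le hCe hτ₁ hθ).and
      (H₂.ptq hμ hz₂ hx₂ (H.d * e) hC₀.le hCe hτ₂ hθ))).exists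
  obtain ⟨w0, w1, w2, w3⟩ := hw ρ hρ
  obtain ⟨R, hR, g, hg, hi⟩ := h0 (q ρ) w0 w3 (max R₁ R₂)
  have hs : ∀ y, ‖H.sR e R y‖ ^ 2 * Real.exp (-((H.d * e : ℕ) * U.φ y)) ≤ H.C ^ e := fun y =>
    (H.sR_bd e R y).1
  obtain ⟨T, hT, hTe⟩ := U.ext_sec hμ hE hg (H.d * e) fun i' z hz' => by
    obtain ⟨r', hr', hW'⟩ := nhds_basis_closedBall.mem_iff.1 ((A.C i').isOpen.mem_nhds hz')
    obtain ⟨B', -, hA'⟩ := U.loc_l2 (H.d * e) hC₀.le hCe hW'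
    exact ⟨r', hr', ball_subset_closedBall.trans hW',
      ((hA' g _ _ w0.le hs (hi i')).trans_lt ENNReal.ofReal_lt_top).ne⟩
  obtain ⟨y₁, a1, a2, a3, a4, a5, a6⟩ := p₁ g _ _ T w0.le w1 hs (hi i₁) (hT.1 i₁) (hTe i₁)
  obtain ⟨y₂, b1, b2, b3, b4, b5, b6⟩ := p₂ g _ _ T w0.le w2 hs (hi i₂) (hT.1 i₂) (hTe i₂)
  exact ⟨R, T, hT, ⟨y₁, a1, a2, a3, a4, a5.trans ((le_max_left _ _).trans hR), a6⟩,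
    ⟨y₂, b1, b2, b3, b4, b5.trans ((le_max_right _ _).trans hR), b6⟩⟩

end Pool.Agent.BP
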