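import Pool.Agent.P.MP_63735c_ag.FB3
import Pool.Agent.P.MP_63735c_ag.FB4

/-! Separation of two poles. -/

open scoped ComplexOrder ContDiff Matrix Topology ENNReal
open Set Metric MeasureTheory Filter

namespace Pool.Agent.BP

open Pool.Agent.SPF Pool.Agent.CL Pool.Agent.NL Pool.Agent.CK Pool.Agent.AB Pool.Agent.SE

theorem fb5_lim {a b V₁ V₂ : ℂ}
    (h : ∀ η > 0, ∃ T₁ T₂ : ℂ, ‖T₁ - V₁‖ ≤ η ∧ ‖T₂ - V₂‖ ≤ η ∧ T₁ * b = a * T₂) :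
    V₁ * b = a * V₂ := by
  by_contra hne
  have hp : 0 < ‖V₁ * b - a * V₂‖ := norm_pos_iff.2 (sub_ne_zero.2 hne)
  have hs : 0 < ‖a‖ + ‖b‖ + 1 := by positivity
  obtain ⟨T₁, T₂, h1, h2, h3⟩ := h (‖V₁ * b - a * V₂‖ / (‖a‖ + ‖b‖ + 1)) (by positivity)
  set η := ‖V₁ * b - a * V₂‖ / (‖a‖ + ‖b‖ + 1) with hη
  have hη0 : 0 < η := by positivity
  have e1 : V₁ * b - a * V₂ = a * (T₂ - V₂) - (T₁ - V₁) * b := by
    linear_combination h3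
  have e2 : ‖V₁ * b - a * V₂‖ ≤ ‖a‖ * η + η * ‖b‖ := by
    rw [e1]
    refine (norm_sub_le _ _).trans (add_le_add ?_ ?_)
    · rw [norm_mul]
      exact mul_le_mul_of_nonneg_left h2 (norm_nonneg _)
    · rw [norm_mul]
      exact mul_le_mul_of_nonneg_right h1 (norm_nonneg _)
  have e3 : η * (‖a‖ + ‖b‖ + 1) = ‖V₁ * b - a * V₂‖ := div_mul_cancel₀ _ hs.ne'
  nlinarith

theorem fb5_cont {M N : ℕ} {f : E M × E N → ℂ} {c : E M} {z₀ : E N}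
    (hf : ContinuousAt f (c, z₀)) {η : ℝ} (hη : 0 < η) : ∃ θ > 0, ∀ u z, ‖u - c‖ ^ 2 ≤ θ →
      z ∈ ball z₀ θ → ‖f (u, z) - f (c, z₀)‖ ≤ η := by
  obtain ⟨d, hd, h⟩ := Metric.continuousAt_iff.1 hf η hη
  refine ⟨min (d ^ 2 / 4) d, by positivity, fun u z hu hz => ?_⟩
  rw [← dist_eq_norm]
  refine (h ?_).le
  rw [Prod.dist_eq]
  refine max_lt ?_ ((mem_ball.1 hz).trans_le (min_le_right _ _))
  have h1 : ‖u - c‖ ^ 2 ≤ (d / 2) ^ 2 := by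
    have := hu.trans (min_le_left _ _)
    linarith [show (d / 2) ^ 2 = d ^ 2 / 4 by ring]
  have h2 := abs_le_of_sq_le_sq' h1 (by positivity)
  rw [dist_eq_norm]
  linarith [h2.2]

variable {N : ℕ} {X : Type} [TopologicalSpace X] [MeasurableSpace X] {A : Atlas X N}
  {μ : Measure X} {L : Line A} {U : Up A μ L} {x y : X}

theorem fb5_pole {x' : X} (H : UG U x) (H' : UG U x') (c : E H.M) (c' : E H'.M) (ε : ℝ) (γ : ℕ)
    (y : X) : (y ∈ H.O → (γ : ℝ) * (H.lam c ε y + H'.lam c' ε y) ≤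
      γ * (Real.log ((H.t c y + ε) / H.τ) + 1)) ∧
    (y ∈ H'.O → (γ : ℝ) * (H.lam c ε y + H'.lam c' ε y) ≤
      γ * (Real.log ((H'.t c' y + ε) / H'.τ) + 1)) :=
  ⟨fun hy => mul_le_mul_of_nonneg_left
      (by linarith [(H.lam_bd c ε y).2.1 hy, (H'.lam_bd c' ε y).1]) (Nat.cast_nonneg _),
    fun hy => mul_le_mul_of_nonneg_left
      (by linarith [(H'.lam_bd c' ε y).2.1 hy, (H.lam_bd c ε y).1]) (Nat.cast_nonneg _)⟩

theorem fb5_exp (H : UG U x) (c : E H.M) {ε b : ℝ} (hε : 0 < ε) (hb : 1 ≤ b) {y : X}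
    (h : H.τ ≤ b * H.t c y) : Real.exp (-H.lam c ε y) ≤ b := by
  have ht : 0 ≤ H.t c y := (sq_nonneg _).trans (norm_sq_le_nsq _)
  refine (H.lam_exp c hε y).1.trans (max_le hb ?_)
  rw [div_le_iff₀ (by positivity)]
  nlinarith

theorem fb5_two {p q b b' : ℝ} (γ : ℕ) (h : Real.exp (-p) ≤ b) (h' : Real.exp (-q) ≤ b') :
    Real.exp (-((γ : ℝ) * (p + q))) ≤ (b * b') ^ γ := by
  rw [← mul_neg, Real.exp_nat_mul, neg_add, Real.exp_add]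
  exact pow_le_pow_left₀ (by positivity)
    (mul_le_mul h h' (Real.exp_nonneg _) ((Real.exp_nonneg _).trans h)) γ

theorem fb5_sR (H : UG U x) (e : ℕ) {R : ℝ} {y : X} (hy : y ∈ H.O) (h1 : 2 * H.t H.a y ≤ H.τ)
    (h2 : U.l2 y ≤ R) : H.sR e R y = H.w y ^ e := by
  have hτ := H.τ_pos
  rw [UG.sR, indicator_of_mem hy, Real.smoothTransition.one_of_one_le (by linarith),
    Real.smoothTransition.one_of_one_le (by
      have : 2 * H.t H.a y / H.τ ≤ 1 := (div_le_one hτ).2 h1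
      linarith)]
  simp

theorem fb5_low (U : Up A μ L) {i : A.ι} {z : E N} (hz : z ∈ U.D.W i) (j : ℕ) {B c : ℝ} {g : ℂ}
    (hB : |L.ψ i z| ≤ B) (h : c ≤ ‖g‖ ^ 2 * Real.exp (-(j * U.φ (A.p i z)))) :
    c * Real.exp (-(j * (U.m * B))) ≤ ‖g * U.s i z ^ j‖ ^ 2 := by
  have e1 : ‖g‖ ^ 2 * Real.exp (-(j * U.φ (A.p i z))) =
      ‖g * U.s i z ^ j‖ ^ 2 * Real.exp (j * (-(U.m * L.ψ i z))) := by
    rw [← mul_neg, Real.exp_nat_mul, Real.exp_nat_mul, U.φ_eq i z hz.1 hz.2, norm_mul, norm_pow]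
    ring
  rw [e1] at h
  have e2 : Real.exp (j * (-(U.m * L.ψ i z))) * Real.exp (-(j * (U.m * B))) ≤ 1 := by
    rw [← Real.exp_add, Real.exp_le_one_iff]
    have h1 : -L.ψ i z ≤ B := (neg_le_abs _).trans hB
    have h2 : (0 : ℝ) ≤ j * U.m := by positivity
    nlinarith [mul_le_mul_of_nonneg_left h1 h2]
  calc _ ≤ ‖g * U.s i z ^ j‖ ^ 2 * Real.exp (j * (-(U.m * L.ψ i z))) *
        Real.exp (-(j * (U.m * B))) := mul_le_mul_of_nonneg_right h (Real.exp_nonneg _)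
    _ ≤ _ := by
      rw [mul_assoc]
      exact mul_le_of_le_one_right (sq_nonneg _) e2

/-- The same germ with another centre. -/
noncomputable def fb5_ctr (H : UG U x) (x' : X) (c : E H.M) (hc : ‖c - H.a‖ ≤ H.δ / 2)
    (hn : Near H.O H.F x' c) : UG U x' :=
  { H with
    a := c
    δ := H.δ / 2
    δ_pos := half_pos H.δ_pos
    closed := fun y hy hO => (H.closed y hy hO).mono fun y' h1 h2 => by
      linarith [h1 h2, norm_sub_le_norm_sub_add_norm_sub (H.F y') c H.a]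
    near := hn }

/-- The same germ with another frame. -/
noncomputable def fb5_frm (H : UG U x) (h : E H.M → ℂ) (hh : Differentiable ℂ h)
    (h1 : ∀ y ∈ H.O, ‖h (H.F y)‖ ≤ 1) : UG U x :=
  { H with
    w := fun y => (2 + h (H.F y)) * H.w y
    C := 9 * H.C
    C_pos := by have := H.C_pos; positivity
    dF := fun i z hz hO v => (H.dF i z hz hO v).trans (by
      have h0 : 0 ≤ U.th i z v := U.G_lev i z hz (H.sub hO) v
      nlinarith [H.C_pos])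
    w_hol := fun i => ((differentiableOn_const 2).add
      (hh.comp_differentiableOn (H.F_hol i))).mul (H.w_hol i)
    w_bd := fun y hy => by
      obtain ⟨b1, b2⟩ := H.w_bd y hy
      have n1 : 1 ≤ ‖2 + h (H.F y)‖ := by
        have := norm_sub_le (2 + h (H.F y)) (h (H.F y))
        rw [add_sub_cancel_right, Complex.norm_two] at this
        linarith [h1 y hy]
      have n2 : ‖2 + h (H.F y)‖ ≤ 3 := by
        have := norm_add_le (2 : ℂ) (h (H.F y))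
        rw [Complex.norm_two] at this
        linarith [h1 y hy]
      have hc := H.c_pos
      rw [norm_mul, mul_pow, mul_assoc]
      constructor
      · exact b1.trans (le_mul_of_one_le_left (hc.le.trans b1) (one_le_pow₀ n1))
      · exact mul_le_mul (by nlinarith [norm_nonneg (2 + h (H.F y))]) b2 (hc.le.trans b1)
          (by norm_num) }

variable [CompactSpace X] [T2Space X] [BorelSpace X] {K : Form11 A} {t : A.ι → E N → ℂ}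

theorem sep_far (hμ : IsVolume A μ) (hK : ∀ i, ∀ z ∈ (A.C i).W, (K.h i z).PosDef) (hE : U.Ext)
    (H₁ : UG U x) (H₂ : UG U y) (hd : Disjoint H₁.O H₂.O) (ht : L.IsSection (U.m * H₁.d) t)
    (hy : ¬ Van A t y) : ∃ e : ℕ, 1 ≤ e ∧ Sep L (U.m * (H₁.d * e)) x y := by
  obtain ⟨C₁, hC₁, hW⟩ := wt_two H₁ H₂ (4 * N + 1)
  obtain ⟨e, he, hT⟩ := U.two hμ hK hE hC₁
  refine ⟨e, he, ?_⟩
  obtain ⟨i₁, z₁, hz₁, hx⟩ := A.cover x
  obtain ⟨i₂, z₂, hz₂, hy₂⟩ := A.cover y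
  have ht₂ : t i₂ z₂ ≠ 0 := fun h => hy (hy₂ ▸ (van_iff ht hz₂).2 h)
  obtain ⟨r, hr, hrW⟩ := nhds_basis_closedBall.mem_iff.1 ((A.C i₁).isOpen.mem_nhds hz₁)
  obtain ⟨c₁, B₁, -, -, hb⟩ := cpt_bds L (isCompact_closedBall z₁ r) hrW
  have hτ := H₁.τ_pos
  have hce : 0 < H₁.c ^ e := pow_pos H₁.c_pos e
  set κ := √(H₁.c ^ e * Real.exp (-((H₁.d * e : ℕ) * (U.m * B₁)))) with hκ
  have hκ0 : 0 < κ := Real.sqrt_pos.2 (by positivity)
  set a := ‖t i₂ z₂ ^ e‖ with ha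
  set b := ‖t i₁ z₁ ^ e‖ with hb'
  have ha0 : 0 < a := norm_pos_iff.2 (pow_ne_zero _ ht₂)
  have hb0 : 0 ≤ b := norm_nonneg _
  set θ := min (min r (H₁.τ / 2)) (κ * a / (2 * (a + b))) with hθ
  have hθ0 : 0 < θ := by positivity
  have θ1 : θ ≤ r := (min_le_left _ _).trans (min_le_left _ _)
  have θ2 : θ ≤ H₁.τ / 2 := (min_le_left _ _).trans (min_le_right _ _)
  have θ3 : θ * (2 * (a + b)) ≤ κ * a := (le_div_iff₀ (by positivity)).1 (min_le_right _ _)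
  obtain ⟨R, T, hS, ⟨u, u1, u2, u3, u4, u5, u6⟩, ⟨v, -, -, v3, -, -, v6⟩⟩ := hT x x y H₁ H₁ H₂
    (fun ε y => ((4 * N + 1 : ℕ) : ℝ) * (H₁.lam H₁.a ε y + H₂.lam H₂.a ε y))
    ((2 * 1) ^ (4 * N + 1)) H₁.τ H₂.τ hτ H₂.τ_pos
    (fun ε hε => ⟨hW _ _ (by simpa using (half_pos H₁.δ_pos).le)
      (by simpa using (half_pos H₂.δ_pos).le) ε hε,
      fun y hy => (fb5_pole H₁ H₂ _ _ ε _ y).1 hy, fun y hy => (fb5_pole H₁ H₂ _ _ ε _ y).2 hy,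
      fun y hy h => fb5_two _ (fb5_exp H₁ _ hε one_le_two h) (by
        rw [(H₂.lam_exp _ hε y).2 (disjoint_left.1 hd hy)]
        simp)⟩) i₁ z₁ hz₁ hx i₂ z₂ hz₂ hy₂ θ hθ0
  have w1 : κ ≤ ‖H₁.sR e R (A.p i₁ u) * U.s i₁ u ^ (H₁.d * e)‖ :=
    Real.sqrt_le_iff.2 ⟨norm_nonneg _, fb5_low U u2 _
      (hb u (ball_subset_closedBall (ball_subset_ball θ1 u1))).2.1
      ((H₁.sR_bd e R _).2 u3 (by linarith) u5)⟩
  have w2 : κ - θ ≤ ‖T i₁ z₁‖ := by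
    have := norm_sub_le (T i₁ z₁) (T i₁ z₁ - H₁.sR e R (A.p i₁ u) * U.s i₁ u ^ (H₁.d * e))
    rw [sub_sub_cancel] at this
    linarith
  have w3 : ‖T i₂ z₂‖ ≤ θ := by
    rwa [UG.sR, indicator_of_notMem (disjoint_right.1 hd v3), zero_mul, sub_zero] at v6
  have hp := sec_pow ht e
  rw [mul_assoc] at hp
  suffices q : Sep L (U.m * (H₁.d * e)) (A.p i₁ z₁) (A.p i₂ z₂) by rwa [hx, hy₂] at q
  refine sep_of_ne hS hp hz₁ hz₂ fun h => ?_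
  have h' := congrArg norm h
  rw [norm_mul, norm_mul] at h'
  have w4 : (κ - θ) * a ≤ b * θ := by
    calc (κ - θ) * a ≤ ‖T i₁ z₁‖ * a := mul_le_mul_of_nonneg_right w2 ha0.le
      _ = b * ‖T i₂ z₂‖ := h'
      _ ≤ b * θ := mul_le_mul_of_nonneg_left w3 hb0
  nlinarith [mul_pos hκ0 ha0]

theorem sep_near (hμ : IsVolume A μ) (hK : ∀ i, ∀ z ∈ (A.C i).W, (K.h i z).PosDef) (hE : U.Ext)
    (H : UG U x) {B : ℝ} (hB : ∀ y ∈ H.O, ‖H.F y‖ ≤ B) (ht : L.IsSection (U.m * H.d) t)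
    (hw : ∀ i, ∀ z ∈ U.D.W i, t i z = H.w (A.p i z) * U.s i z ^ H.d) :
    ∃ e : ℕ, 1 ≤ e ∧ ∀ (x₁ x₂ : X) (c₁ c₂ : E H.M), c₁ ≠ c₂ → nsq (c₁ - H.a) ≤ H.τ / 8 →
      nsq (c₂ - H.a) ≤ H.τ / 8 → Near H.O H.F x₁ c₁ → Near H.O H.F x₂ c₂ → ¬ Van A t x₁ →
      ¬ Van A t x₂ → Sep L (U.m * (H.d * e)) x₁ x₂ := by
  obtain ⟨C₁, hC₁, hW⟩ := wt_two H H (4 * N + 1)
  obtain ⟨e, he, hT⟩ := U.two hμ hK hE hC₁
  refine ⟨e, he, fun x₁ x₂ c₁ c₂ hne n₁ n₂ hn₁ hn₂ v₁ v₂ => ?_⟩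
  have hτ := H.τ_pos
  have hδ := H.δ_pos
  have small : ∀ c : E H.M, nsq (c - H.a) ≤ H.τ / 8 → ‖c - H.a‖ ≤ H.δ / 2 := fun c hc => by
    have h1 : ‖c - H.a‖ ^ 2 ≤ H.τ / 8 := (norm_sq_le_nsq _).trans hc
    refine (abs_le_of_sq_le_sq' ?_ (by positivity)).2
    unfold UG.τ at h1
    nlinarith [sq_nonneg H.δ]
  have tri : ∀ (c : E H.M) (y : X), nsq (c - H.a) ≤ H.τ / 8 →
      H.t H.a y ≤ 2 * H.t c y + H.τ / 4 := fun c y hc => by
    have h1 := bpe3_add (H.F y - c) (c - H.a)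
    rw [sub_add_sub_cancel] at h1
    have h2 : Pool.Agent.CL.nsq (c - H.a) ≤ H.τ / 8 := hc
    unfold UG.t
    linarith
  obtain ⟨i₁, z₁, hz₁, hx₁⟩ := A.cover x₁
  obtain ⟨i₂, z₂, hz₂, hx₂⟩ := A.cover x₂
  have ht₁ : t i₁ z₁ ≠ 0 := fun h => v₁ (hx₁ ▸ (van_iff ht hz₁).2 h)
  have ht₂ : t i₂ z₂ ≠ 0 := fun h => v₂ (hx₂ ▸ (van_iff ht hz₂).2 h)
  obtain ⟨k, hk⟩ := Function.ne_iff.1 hne
  have hD : 0 < ‖c₁ k - c₂ k‖ := norm_pos_iff.2 (sub_ne_zero.2 hk)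
  set S := (|B| + ‖c₂‖) * ‖c₁ k - c₂ k‖ + 1 with hS
  have hS0 : 0 < S := by positivity
  set h : E H.M → ℂ := fun u => ((S⁻¹ : ℝ) : ℂ) * ((u k - c₂ k) * star (c₁ k - c₂ k)) with hh
  have hd : Differentiable ℂ h := by
    rw [hh]
    fun_prop
  have h1 : ∀ y ∈ H.O, ‖h (H.F y)‖ ≤ 1 := fun y hy => by
    have b1 : ‖H.F y k - c₂ k‖ ≤ |B| + ‖c₂‖ := (norm_sub_le _ _).trans (add_le_add
      ((norm_le_pi_norm _ k).trans ((hB y hy).trans (le_abs_self B))) (norm_le_pi_norm _ k))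
    simp only [hh, norm_mul, norm_star, Complex.norm_real, Real.norm_eq_abs]
    rw [abs_of_pos (inv_pos.2 hS0), inv_mul_le_iff₀ hS0]
    nlinarith [mul_le_mul_of_nonneg_right b1 hD.le]
  have hv₁ : h c₁ = ((S⁻¹ * ‖c₁ k - c₂ k‖ ^ 2 : ℝ) : ℂ) := by
    simp only [hh, Complex.star_def, Complex.mul_conj']
    push_cast
    ring
  have hv₂ : h c₂ = 0 := by simp [hh]
  have hp := sec_pow ht e
  rw [mul_assoc] at hp
  have cont : ∀ (c : E H.M) i, ∀ z ∈ (A.C i).W,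
      ContinuousAt (fun p : E H.M × E N => ((2 + h p.1) * t i p.2) ^ e) (c, z) := fun c i z hz => by
    have c1 : ContinuousAt (fun p : E H.M × E N => t i p.2) (c, z) :=
      ContinuousAt.comp (f := Prod.snd) (x := (c, z))
        ((ht.1 i).continuousOn.continuousAt ((A.C i).isOpen.mem_nhds hz)) continuousAt_snd
    have c2 : Continuous fun p : E H.M × E N => 2 + h p.1 :=
      continuous_const.add (hd.continuous.comp continuous_fst)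
    exact (c2.continuousAt.mul c1).pow e
  by_contra hcon
  have key : ((2 + h c₁) * t i₁ z₁) ^ e * t i₂ z₂ ^ e =
      t i₁ z₁ ^ e * ((2 + h c₂) * t i₂ z₂) ^ e := by
    refine fb5_lim fun η hη => ?_
    obtain ⟨θ₁, p₁, q₁⟩ := fb5_cont (cont c₁ i₁ z₁ hz₁) (half_pos hη)
    obtain ⟨θ₂, p₂, q₂⟩ := fb5_cont (cont c₂ i₂ z₂ hz₂) (half_pos hη)
    set θ := min (min θ₁ θ₂) (min (η / 2) (H.τ / 8)) with hθ
    have hθ0 : 0 < θ := by positivity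
    have θ1 : θ ≤ θ₁ := (min_le_left _ _).trans (min_le_left _ _)
    have θ2 : θ ≤ θ₂ := (min_le_left _ _).trans (min_le_right _ _)
    have θ3 : θ ≤ η / 2 := (min_le_right _ _).trans (min_le_left _ _)
    have θ4 : θ ≤ H.τ / 8 := (min_le_right _ _).trans (min_le_right _ _)
    obtain ⟨R, T, hS, a₁, a₂⟩ := hT x x₁ x₂ (fb5_frm H h hd h1)
      (fb5_ctr H x₁ c₁ (small _ n₁) hn₁) (fb5_ctr H x₂ c₂ (small _ n₂) hn₂)
      (fun ε y => ((4 * N + 1 : ℕ) : ℝ) * (H.lam c₁ ε y + H.lam c₂ ε y))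
      ((8 * 8) ^ (4 * N + 1)) H.τ H.τ hτ hτ
      (fun ε hε => ⟨hW _ _ (small _ n₁) (small _ n₂) ε hε,
        fun y hy => (fb5_pole H H _ _ ε _ y).1 hy, fun y hy => (fb5_pole H H _ _ ε _ y).2 hy,
        fun y _ hy => by
          have hy' : H.τ ≤ 2 * H.t H.a y := hy
          exact fb5_two _ (fb5_exp H _ hε (by norm_num) (by linarith [tri c₁ y n₁]))
            (fb5_exp H _ hε (by norm_num) (by linarith [tri c₂ y n₂]))⟩)
      i₁ z₁ hz₁ hx₁ i₂ z₂ hz₂ hx₂ θ hθ0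
    have use : ∀ (c : E H.M) i (z₀ z : E N) (θ' : ℝ), nsq (c - H.a) ≤ H.τ / 8 → θ ≤ θ' →
        (∀ u z, ‖u - c‖ ^ 2 ≤ θ' → z ∈ ball z₀ θ' →
          ‖((2 + h u) * t i z) ^ e - ((2 + h c) * t i z₀) ^ e‖ ≤ η / 2) →
        z ∈ ball z₀ θ → z ∈ U.D.W i → A.p i z ∈ H.O → H.t c (A.p i z) ≤ θ →
        U.l2 (A.p i z) ≤ R →
        ‖T i z₀ - (fb5_frm H h hd h1).sR e R (A.p i z) * U.s i z ^ (H.d * e)‖ ≤ θ →
        ‖T i z₀ - ((2 + h c) * t i z₀) ^ e‖ ≤ η := by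
      intro c i z₀ z θ' hc hθ' hq u1 u2 u3 u4 u5 u6
      have s1 : (fb5_frm H h hd h1).sR e R (A.p i z) =
          ((2 + h (H.F (A.p i z))) * H.w (A.p i z)) ^ e :=
        fb5_sR (fb5_frm H h hd h1) e u3 (by
          have : 2 * H.t H.a (A.p i z) ≤ H.τ := by linarith [tri c (A.p i z) hc]
          exact this) u5
      have s2 : (fb5_frm H h hd h1).sR e R (A.p i z) * U.s i z ^ (H.d * e) =
          ((2 + h (H.F (A.p i z))) * t i z) ^ e := by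
        rw [s1, hw i z u2, pow_mul, ← mul_pow, mul_assoc]
      rw [s2] at u6
      have s3 := hq (H.F (A.p i z)) z (((norm_sq_le_nsq _).trans u4).trans hθ')
        (ball_subset_ball hθ' u1)
      linarith [norm_sub_le_norm_sub_add_norm_sub (T i z₀)
        (((2 + h (H.F (A.p i z))) * t i z) ^ e) (((2 + h c) * t i z₀) ^ e)]
    obtain ⟨u, u1, u2, u3, u4, u5, u6⟩ := a₁
    obtain ⟨v, w1, w2, w3, w4, w5, w6⟩ := a₂
    refine ⟨T i₁ z₁, T i₂ z₂, use c₁ i₁ z₁ u θ₁ n₁ θ1 q₁ u1 u2 u3 u4 u5 u6,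
      use c₂ i₂ z₂ v θ₂ n₂ θ2 q₂ w1 w2 w3 w4 w5 w6, by_contra fun hne' => hcon ?_⟩
    rw [← hx₁, ← hx₂]
    exact sep_of_ne hS hp hz₁ hz₂ hne'
  rw [hv₁, hv₂, add_zero, mul_pow, mul_pow] at key
  have k2 : (2 + ((S⁻¹ * ‖c₁ k - c₂ k‖ ^ 2 : ℝ) : ℂ)) ^ e = 2 ^ e := by
    have hne0 : t i₁ z₁ ^ e * t i₂ z₂ ^ e ≠ 0 := mul_ne_zero (pow_ne_zero _ ht₁) (pow_ne_zero _ ht₂)
    refine mul_right_cancel₀ hne0 ?_
    linear_combination key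
  have k3 : (2 + S⁻¹ * ‖c₁ k - c₂ k‖ ^ 2) ^ e = (2 : ℝ) ^ e := by exact_mod_cast k2
  have k4 : (2 : ℝ) ^ e < (2 + S⁻¹ * ‖c₁ k - c₂ k‖ ^ 2) ^ e :=
    pow_lt_pow_left₀ (by linarith [mul_pos (inv_pos.2 hS0) (pow_pos hD 2)]) zero_le_two
      (by omega)
  exact k4.ne' k3

end Pool.Agent.BP
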