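import Pool.Agent.P.MP_63735c_ag.FB5
import Pool.Agent.P.MP_63735c_ag.FB6
import Pool.Agent.P.MP_63735c_ag.BPDa
import Pool.Agent.P.MP_63735c_ag.BPDp

/-! The limit sets are the fibres. -/

open scoped ComplexOrder ContDiff Matrix Topology ENNReal
open Set Metric MeasureTheory Filter

namespace Pool.Agent.BP

open Pool.Agent.SPF Pool.Agent.CL Pool.Agent.NL Pool.Agent.CK Pool.Agent.AB Pool.Agent.SE

variable {N n : ℕ} {X : Type} [TopologicalSpace X] {A : Atlas X N}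

theorem Loc.G_cont {F : Fib A n} {U : Filter X} {V₀ B : Set X} (Q : Loc F U V₀ B) {y : X}
    (hy : y ∈ Q.M) : ContinuousAt Q.G y := by
  obtain ⟨i, z, hz, rfl⟩ := A.cover y
  rw [ContinuousAt, ← bpd2_map hz, tendsto_map'_iff]
  exact ((Q.G_hol i).differentiableAt (((A.cont i).isOpen_inter_preimage (A.C i).isOpen
    Q.sat.opn).mem_nhds ⟨hz, hy⟩)).continuousAt

variable [MeasurableSpace X] {μ : Measure X} {L : Line A} {K : Form11 A} {Γ : Ctx μ K L n}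
  {x y : X} {U : Filter X} {V₀ B : Set X}

/-- Coordinates and a section without zero near the limit set. -/
structure LocT (Γ : Ctx μ K L n) (x : X) (U : Filter X) (V₀ B : Set X) extends Loc Γ.F U V₀ B where
  t : A.ι → E N → ℂ
  w : X → ℂ
  c : ℝ
  C' : ℝ
  sec : L.IsSection (Γ.U.m * Γ.d) t
  nv : ∀ y ∈ Γ.Z x, ¬ Van A t y
  c_pos : 0 < c
  w_hol : Γ.U.D.Hol w
  w_eq : ∀ i, ∀ z ∈ Γ.U.D.W i, t i z = w (A.p i z) * Γ.U.s i z ^ Γ.d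
  w_bd : ∀ u ∈ M, c ≤ ‖w u‖ ^ 2 * Real.exp (-(Γ.d * Γ.U.φ u)) ∧
    ‖w u‖ ^ 2 * Real.exp (-(Γ.d * Γ.U.φ u)) ≤ C'

omit [MeasurableSpace X] in
theorem fb7_near {M : ℕ} {O : Set X} {G : X → E M} {b : E M} {U' : Filter X} [U'.NeBot]
    (h1 : U' ≤ 𝓝 y) (h2 : ∀ᶠ u in U', u ∈ O) (h3 : Tendsto G U' (𝓝 b)) : Near O G y b :=
  fun _ hε => (h2.and ((h3.eventually (ball_mem_nhds b hε)).mono fun _ h =>
    mem_ball_iff_norm.1 h)).frequently.filter_mono h1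

/-- The germ with centre at a limit value. -/
noncomputable def LocT.ug (Q : LocT Γ x U V₀ B) {U' : Filter X} [U'.NeBot] (h1 : U' ≤ 𝓝 y)
    (h2 : ∀ᶠ u in U', Γ.F.In Q.V u) {b : E Q.m} (h3 : Tendsto Q.G U' (𝓝 b)) {δ : ℝ} (h4 : 0 < δ)
    (h5 : δ ≤ Q.δ) : UG Γ.U y where
  M := Q.m
  O := {u | u ∈ Q.M ∧ ‖Q.G u - b‖ < 2 * δ}
  F := Q.G
  a := b
  δ := δ
  C := Q.C / Γ.a + |Q.C'|
  w := Q.w
  d := Γ.d
  c := Q.c
  isOpen := isOpen_iff_mem_nhds.2 fun u hu => inter_mem (Q.sat.opn.mem_nhds hu.1)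
    (((Q.toLoc.G_cont hu.1).sub continuousAt_const).norm.eventually_lt continuousAt_const hu.2)
  sub := fun u hu => Γ.W_eq ▸ Q.sat.sub hu.1
  δ_pos := h4
  C_pos := add_pos_of_pos_of_nonneg (div_pos Q.C_pos Γ.a_pos) (abs_nonneg _)
  F_hol := fun i => (Q.G_hol i).mono fun _ hz => ⟨hz.1, hz.2.1⟩
  closed := fun u hu hn => by
    by_cases h : u ∈ Q.M
    · have h6 : δ < ‖Q.G u - b‖ := by linarith [not_lt.1 fun h' => hn ⟨h, h'⟩]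
      exact (continuousAt_const.eventually_lt
        ((Q.toLoc.G_cont h).sub continuousAt_const).norm h6).mono fun _ a _ => a
    · obtain ⟨y₁, a1, a2⟩ := (h2.and (h3.eventually (ball_mem_nhds b Q.δ_pos))).exists
      filter_upwards [isClosed_closure.isOpen_compl.mem_nhds fun hc =>
        h (Q.closed y₁ a1 u (Γ.W_eq ▸ hu) hc)] with u' a3 a4
      have a5 := not_le.1 fun hc => a3 (subset_closure ⟨a4.1, hc⟩)
      have a6 := norm_sub_le_norm_sub_add_norm_sub (Q.G u') b (Q.G y₁)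
      rw [norm_sub_rev b] at a6
      linarith [mem_ball_iff_norm.1 a2]
  dF := fun i z hz hO v => by
    have a0 : A.p i z ∈ Γ.U.W := Γ.W_eq ▸ Q.sat.sub hO.1
    have a1 : 0 ≤ Γ.U.th i z v := Γ.U.G_lev i z hz a0 v
    have a2 := (norm_sq_le_nsq _).trans (Q.grad i z ⟨hz, hO.1⟩ v)
    have a3 : Q.C * hr (Γ.F.Om i z) v ≤ Q.C / Γ.a * Γ.U.th i z v := by
      rw [div_mul_eq_mul_div, le_div_iff₀ Γ.a_pos, mul_assoc, mul_comm _ Γ.a]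
      exact mul_le_mul_of_nonneg_left (Γ.th i z ⟨hz, a0⟩ v) Q.C_pos.le
    nlinarith [abs_nonneg Q.C']
  w_hol := fun i => (Q.w_hol i).mono fun _ hz => ⟨hz.1, Γ.W_eq ▸ Q.sat.sub hz.2.1⟩
  d_pos := Γ.d_pos
  c_pos := Q.c_pos
  w_bd := fun u hu => ⟨(Q.w_bd u hu.1).1, (Q.w_bd u hu.1).2.trans ((le_abs_self _).trans
    (le_add_of_nonneg_left (div_pos Q.C_pos Γ.a_pos).le))⟩
  near := fb7_near h1 ((h2.and (h3.eventually (ball_mem_nhds b (by positivity)))).mono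
    fun u hu => ⟨Q.mem u hu.1, mem_ball_iff_norm.1 hu.2⟩) h3

variable [CompactSpace X] [T2Space X]

omit [MeasurableSpace X] [T2Space X] in
theorem fb7_in {F : Fib A n} (U : Ultrafilter X) (hU : (U : Filter X) ≤ 𝓝[F.W] x) {V : Set X}
    (hV : IsOpen V) (h : F.Lim U ⊆ V) : ∀ᶠ u in (U : Filter X), F.In V u :=
  (Fib.lim_trap U hV h).mp (mem_of_superset (hU self_mem_nhdsWithin) fun _ a b => ⟨a, b⟩)

variable [BorelSpace X] (Γ)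

theorem Ctx.loc (U : Ultrafilter X) (hU : (U : Filter X) ≤ 𝓝[Γ.F.W] x) (hV : IsOpen V₀)
    (hL : Γ.F.Lim U ⊆ V₀) (hB : B ∈ 𝓝 x) : Nonempty (LocT Γ x U V₀ B) := by
  obtain ⟨t, ht, h0⟩ := Γ.bpf x
  have nv : ∀ y ∈ Γ.Z x, ¬ Van A t y := fun y hy h =>
    hy 1 le_rfl ⟨t, by rwa [mul_one], h, h0⟩
  obtain ⟨c, hc, h1⟩ := (Fib.lim_closed (F := Γ.F) U).isCompact.exists_forall_le' (a := 0)
    (nrm_cont ht).continuousOn fun y hy => (van_nrm ht y).1 (nv y (Γ.lim_sub hU hy))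
  obtain ⟨C, hC⟩ := isCompact_univ.exists_bound_of_continuousOn (nrm_cont ht).continuousOn
  obtain ⟨w, w1, w2, w3⟩ := Γ.U.ratio ht
  obtain ⟨Q⟩ := Fib.exists_loc Γ.hN Γ.n_pos (Fib.pack Γ.U.hinj Γ.K_pos Γ.tor)
    (Fib.area Γ.U.hinj Γ.vol Γ.K_pos Γ.tor) U hU
    (hV.inter (isOpen_lt (continuous_const (y := c / 2)) (nrm_cont ht)))
    (fun y hy => ⟨hL hy, (half_lt_self hc).trans_le (h1 y hy)⟩) hB
  refine ⟨{ Q with
    sub := Q.sub.trans inter_subset_left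
    t := t
    w := w
    c := c / 2
    C' := C
    sec := ht
    nv := nv
    c_pos := half_pos hc
    w_hol := w1
    w_eq := w2
    w_bd := fun u hu => ?_ }⟩
  rw [w3 u (Γ.W_eq ▸ Q.sat.sub hu)]
  exact ⟨(Q.sub hu).2.le, (le_abs_self _).trans (hC u (mem_univ _))⟩

omit [CompactSpace X] [T2Space X] [BorelSpace X] in
theorem Ctx.ult (x : X) : ∃ U : Ultrafilter X, (U : Filter X) ≤ 𝓝[Γ.F.W] x :=
  have := mem_closure_iff_nhdsWithin_neBot.1 (Γ.F.W_dense x)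
  ⟨Ultrafilter.of (𝓝[Γ.F.W] x), Ultrafilter.of_le _⟩

theorem Ctx.lim_eq (U : Ultrafilter X) (hU : (U : Filter X) ≤ 𝓝[Γ.F.W] x) :
    Γ.F.Lim U = Γ.Z x := by
  refine (Γ.lim_sub hU).antisymm fun y hy => by_contra fun hn => ?_
  obtain ⟨C, c1, c2, c3⟩ := exists_compact_between (Fib.lim_closed (F := Γ.F) U).isCompact
    isOpen_compl_singleton (subset_compl_singleton_iff.2 hn)
  obtain ⟨U', hU'⟩ := Γ.ult y
  obtain ⟨Q⟩ := Γ.loc U hU isOpen_interior c2 univ_mem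
  obtain ⟨Q'⟩ := Γ.loc U' hU' isOpen_univ (subset_univ _)
    (c1.isClosed.isOpen_compl.mem_nhds fun h => c3 h rfl)
  obtain ⟨e, he, h⟩ := sep_far Γ.vol Γ.K_pos Γ.ext
    (Q.ug (hU.trans nhdsWithin_le_nhds) (fb7_in U hU Q.V_open Q.lim) Q.tend Q.δ_pos le_rfl)
    (Q'.ug (hU'.trans nhdsWithin_le_nhds) (fb7_in U' hU' Q'.V_open Q'.lim) Q'.tend
      (half_pos Q'.δ_pos) (half_le_self Q'.δ_pos.le))
    (disjoint_left.2 fun u h1 h2 => by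
      obtain ⟨u', a1, a2⟩ := Q'.pass u h2.1 (h2.2.le.trans_eq (by ring))
      exact a1 (interior_subset (Q.sub (Q.sat.sat u h1.1 u' a2)))) Q.sec (Q.nv y hy)
  exact hy e he h

theorem Ctx.near (x : X) : ∃ O, IsOpen O ∧ Γ.Z x ⊆ O ∧ ∃ e : ℕ, 1 ≤ e ∧
    ∀ x₁ ∈ O, ∀ x₂ ∈ O, x₂ ∉ Γ.Z x₁ → Sep L (Γ.U.m * (Γ.d * e)) x₁ x₂ := by
  obtain ⟨U, hU⟩ := Γ.ult x
  obtain ⟨Q⟩ := Γ.loc U hU isOpen_univ (subset_univ _) univ_mem
  have hx := hU.trans nhdsWithin_le_nhds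
  have hI := fb7_in U hU Q.V_open Q.lim
  let H := Q.ug hx hI Q.tend Q.δ_pos le_rfl
  obtain ⟨e, he, hs⟩ := sep_near Γ.vol Γ.K_pos Γ.ext H (fun u hu => Q.bdd u hu.1) Q.sec Q.w_eq
  have hτ := H.τ_pos
  let P : X → Prop := fun u => u ∈ H.O ∧ nsq (Q.G u - Q.a) ≤ H.τ / 8
  have hn : Continuous fun c : E Q.m => nsq (c - Q.a) :=
    nsq_smooth.continuous.comp (continuous_id.sub continuous_const)
  have key : ∀ z ∈ Γ.Z x, ∀ᶠ u in 𝓝[Γ.F.W] z, P u := fun z hz => by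
    refine mem_iff_ultrafilter.2 fun U' hU' => ?_
    have hI' := fb7_in U' hU' Q.V_open (by
      rw [Γ.lim_eq U' hU', (Γ.Z_eq hz).1, ← Γ.lim_eq U hU]
      exact Q.lim)
    have hM := hI'.mono Q.mem
    obtain ⟨b, hb⟩ := CL.clhol_lim U' (hM.mono Q.bdd)
    obtain rfl : b = Q.a := by_contra fun hne => by
      have h0 : 0 < ‖b - Q.a‖ := norm_pos_iff.2 (sub_ne_zero.2 hne)
      have h1 : 0 < min Q.δ (‖b - Q.a‖ / 4) := lt_min Q.δ_pos (by positivity)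
      obtain ⟨e, he, h⟩ := sep_far Γ.vol Γ.K_pos Γ.ext (Q.ug hx hI Q.tend h1 (min_le_left _ _))
        (Q.ug (hU'.trans nhdsWithin_le_nhds) hI' hb h1 (min_le_left _ _))
        (disjoint_left.2 fun u a1 a2 => by
          have a3 := norm_sub_le_norm_sub_add_norm_sub b (Q.G u) Q.a
          rw [norm_sub_rev b (Q.G u)] at a3
          linarith [a1.2, a2.2, min_le_right Q.δ (‖b - Q.a‖ / 4)]) Q.sec (Q.nv z hz)
      exact hz e he h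
    filter_upwards [hM, hb.eventually (ball_mem_nhds _ (mul_pos two_pos Q.δ_pos)),
      ((hn.tendsto _).comp hb).eventually_lt_const (u := H.τ / 8) (by simpa [nsq] using hτ)]
      with u a1 a2 a3
    exact ⟨⟨a1, mem_ball_iff_norm.1 a2⟩, a3.le⟩
  refine ⟨{z | ∀ᶠ u in 𝓝[Γ.F.W] z, P u} ∩ {z | 0 < nrm L (Γ.U.m * Γ.d) Q.t z},
    IsOpen.inter ?_ (isOpen_lt continuous_const (nrm_cont Q.sec)),
    fun z hz => ⟨key z hz, (van_nrm Q.sec z).1 (Q.nv z hz)⟩, e, he, fun x₁ h1 x₂ h2 hne => ?_⟩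
  · simp only [eventually_nhdsWithin_iff]
    exact isOpen_setOfPred_eventually_nhds
  obtain ⟨U₁, u1⟩ := Γ.ult x₁
  obtain ⟨U₂, u2⟩ := Γ.ult x₂
  have p1 : ∀ᶠ u in (U₁ : Filter X), P u := u1 h1.1
  have p2 : ∀ᶠ u in (U₂ : Filter X), P u := u2 h2.1
  obtain ⟨c₁, t1⟩ := CL.clhol_lim U₁ (p1.mono fun u hu => Q.bdd u hu.1.1)
  obtain ⟨c₂, t2⟩ := CL.clhol_lim U₂ (p2.mono fun u hu => Q.bdd u hu.1.1)
  refine hs x₁ x₂ c₁ c₂ (fun h => hne ?_)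
    (le_of_tendsto ((hn.tendsto _).comp t1) (p1.mono fun u hu => hu.2))
    (le_of_tendsto ((hn.tendsto _).comp t2) (p2.mono fun u hu => hu.2))
    (fb7_near (u1.trans nhdsWithin_le_nhds) (p1.mono fun u hu => hu.1) t1)
    (fb7_near (u2.trans nhdsWithin_le_nhds) (p2.mono fun u hu => hu.1) t2)
    ((van_nrm Q.sec _).2 h1.2) ((van_nrm Q.sec _).2 h2.2)
  obtain ⟨z, z1, z2⟩ := Q.cl U₁ U₂ (p1.mono fun u hu => hu.1.1) (p2.mono fun u hu => hu.1.1) c₁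
    t1 (h ▸ t2)
  rw [Γ.lim_eq U₁ u1] at z1
  rw [Γ.lim_eq U₂ u2] at z2
  exact (Γ.Z_eq z1).1 ▸ (Γ.Z_eq z2).2

theorem Ctx.fibre : ∃ l : ℕ, 1 ≤ l ∧ ∀ x, Fibre L (Γ.U.m * (Γ.d * l)) x = Γ.Z x := by
  have h1 : ∀ p : X × X, ∃ O ∈ 𝓝 p, ∃ e : ℕ, 1 ≤ e ∧
      ∀ u ∈ O, u.2 ∉ Γ.Z u.1 → Sep L (Γ.U.m * (Γ.d * e)) u.1 u.2 := fun p => by
    by_cases h : p.2 ∈ Γ.Z p.1
    · obtain ⟨O, o1, o2, e, he, h2⟩ := Γ.near p.1
      exact ⟨O ×ˢ O, (o1.prod o1).mem_nhds ⟨o2 ((Γ.Z_eq h).1 ▸ (Γ.Z_eq h).2), o2 h⟩, e, he,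
        fun u hu => h2 _ hu.1 _ hu.2⟩
    · obtain ⟨e, he, h2⟩ : ∃ e : ℕ, 1 ≤ e ∧ Sep L (Γ.U.m * (Γ.d * e)) p.1 p.2 := by
        simpa [Ctx.Z] using h
      exact ⟨_, (sep_open (Γ.bpf_mul e)).mem_nhds h2, e, he, fun u hu _ => hu⟩
  choose O o1 e he h2 using h1
  obtain ⟨t, -, ht⟩ := isCompact_univ.elim_nhds_subcover O fun p _ => o1 p
  have hl : 1 ≤ ∏ p ∈ t, e p := Finset.one_le_prod' fun p _ => he p
  refine ⟨_, hl, fun x => ?_⟩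
  rw [fibre_eq (Γ.bpf_mul _)]
  refine Subset.antisymm (fun y hy => by_contra fun hn => hy ?_) fun y hy => hy _ hl
  obtain ⟨p, hp, h3⟩ := mem_iUnion₂.1 (ht (mem_univ (x, y)))
  obtain ⟨l, h4⟩ := Finset.dvd_prod_of_mem e hp
  have h5 := (h2 p _ h3 hn).mul (l := l) (Nat.pos_of_ne_zero fun h => by simp [h4, h] at hl)
  rwa [h4, ← mul_assoc Γ.d, ← mul_assoc]

end Pool.Agent.BP
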