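import Pool.Agent.P.MP_63735c_ag.FB0
import Pool.Agent.P.MP_63735c_ag.BPD2
import Pool.Agent.P.MP_63735c_ag.BPDpx

/-! The limit sets are connected and of dimension at most `n`. -/

open scoped ComplexOrder ContDiff Matrix Topology ENNReal
open Set Metric MeasureTheory Filter

namespace Pool.Agent.BP

open Pool.Agent.SPF Pool.Agent.CL Pool.Agent.NL Pool.Agent.CK Pool.Agent.AB Pool.Agent.SE

variable {N n : ℕ} {X : Type} [TopologicalSpace X] {A : Atlas X N} {F : Fib A n}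

theorem Fib.lim_conn [T2Space X] [CompactSpace X] [MeasurableSpace X] {μ : Measure X}
    {K : Form11 A} {h : X → Mat n} {c₀ : ℝ} (hinj : ∀ i, InjOn (A.p i) (A.C i).W)
    (hT : F.Tor μ K h c₀) (U : Ultrafilter X) (hU : F.W ∈ U) : IsPreconnected (F.Lim U) := by
  rw [isPreconnected_iff_subset_of_fully_disjoint_closed (Fib.lim_closed _)]
  intro u v hu hv hs hd
  obtain ⟨O₁, O₂, o1, o2, s1, s2, hO⟩ := normal_separation hu hv hd
  have h1 := Fib.lim_trap U (o1.union o2) (hs.trans (union_subset_union s1 s2))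
  have h2 : ∀ᶠ x in (U : Filter X), (∀ y, F.r x y → y ∈ O₁) ∨ ∀ y, F.r x y → y ∈ O₂ := by
    filter_upwards [h1, hU] with x hx hW
    obtain ⟨Ψ, κ, -, hr, hl, -⟩ := hT.tor x hW
    obtain ⟨i, -⟩ := A.cover x
    have hc := (bpdp_lift hinj (fun τ => (Fib.r_mem hW ((hr _).2 ⟨τ, rfl⟩)).1) hl i).1
    exact ((isPreconnected_range hc).subset_or_subset o1 o2 hO
      fun y hy => hx y ((hr y).2 hy)).imp (fun e y hy => e ((hr y).1 hy))
        fun e y hy => e ((hr y).1 hy)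
  rcases Ultrafilter.eventually_or.1 h2 with e | e
  · refine Or.inl fun y hy => (hs hy).resolve_right fun hv' => ?_
    obtain ⟨x, h3, y', h4, h5⟩ := (e.and (hy O₂ (o2.mem_nhds (s2 hv')))).exists
    exact Set.disjoint_left.1 hO (h3 y' h5) h4
  · refine Or.inr fun y hy => (hs hy).resolve_left fun hu' => ?_
    obtain ⟨x, h3, y', h4, h5⟩ := (e.and (hy O₁ (o1.mem_nhds (s1 hu')))).exists
    exact Set.disjoint_left.1 hO h4 (h3 y' h5)

/-- A holomorphic immersion expands distances by a fixed factor near the point. -/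
theorem fb8_anti {d : ℕ} {γ : E d → E N} {t : E d} (h2 : ∀ᶠ u in 𝓝 t, DifferentiableAt ℂ γ u)
    (h3 : Function.Injective (fderiv ℂ γ t)) :
    ∃ c : ℝ, 0 < c ∧ ∃ s ∈ 𝓝 t, ∀ u ∈ s, ∀ u' ∈ s, c * ‖u - u'‖ ≤ ‖γ u - γ u'‖ := by
  obtain ⟨O, hO, ho, htO⟩ := _root_.mem_nhds_iff.1 h2
  have h4 := ((smooth_of_hol ho fun u hu => (hO hu).differentiableWithinAt).contDiffAt
    (ho.mem_nhds htO)).hasStrictFDerivAt (by simp)
  rw [(h2.self_of_nhds.hasFDerivAt.restrictScalars ℝ).fderiv] at h4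
  obtain ⟨K, hK, ha⟩ := (fderiv ℂ γ t : E d →ₗ[ℂ] E N).exists_antilipschitzWith
    (LinearMap.ker_eq_bot.2 h3)
  obtain ⟨s, hs, hA⟩ := h4.approximates_deriv_on_nhds (c := (2 * K)⁻¹) (Or.inr (by positivity))
  have hK' : (0 : ℝ) < K := hK
  refine ⟨(2 * K)⁻¹, by positivity, s, hs, fun u hu u' hu' => ?_⟩
  have e1 : ‖γ u - γ u' - fderiv ℂ γ t (u - u')‖ ≤ (2 * K : ℝ)⁻¹ * ‖u - u'‖ := by
    simpa using hA u hu u' hu'
  have e2 : ‖u - u'‖ ≤ K * ‖fderiv ℂ γ t (u - u')‖ := ZeroHomClass.bound_of_antilipschitz _ ha _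
  have e3 := norm_sub_norm_le (fderiv ℂ γ t (u - u')) (γ u - γ u')
  rw [norm_sub_rev _ (γ u - γ u')] at e3
  have e4 : 2 * ((2 * K : ℝ)⁻¹ * ‖u - u'‖) ≤ ‖fderiv ℂ γ t (u - u')‖ := by
    rw [← mul_assoc, mul_inv, ← mul_assoc, mul_inv_cancel₀ two_ne_zero, one_mul,
      inv_mul_le_iff₀ hK']
    exact e2
  linarith

/-- A grid of Gaussian integers. -/
noncomputable def fb8G {d K : ℕ} (a : Fin d → Fin K × Fin K) : E d :=
  fun j => ((a j).1 : ℕ) + ((a j).2 : ℕ) * Complex.I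

theorem fb8_le {d K : ℕ} (a : Fin d → Fin K × Fin K) : ‖fb8G a‖ ≤ 2 * K := by
  refine (pi_norm_le_iff_of_nonneg (by positivity)).2 fun j => (norm_add_le _ _).trans ?_
  have h1 : (((a j).1 : ℕ) : ℝ) ≤ K := by exact_mod_cast (a j).1.2.le
  have h2 : (((a j).2 : ℕ) : ℝ) ≤ K := by exact_mod_cast (a j).2.2.le
  simp only [norm_mul, Complex.norm_I, mul_one, Complex.norm_natCast]
  linarith

theorem fb8_one {x y : ℕ} (h : x ≠ y) : (1 : ℝ) ≤ |(x : ℝ) - y| := by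
  have : (1 : ℤ) ≤ |(x : ℤ) - y| := Int.one_le_abs (sub_ne_zero.2 (by exact_mod_cast h))
  exact_mod_cast this

theorem fb8_ge {d K : ℕ} {a b : Fin d → Fin K × Fin K} (h : a ≠ b) : 1 ≤ ‖fb8G a - fb8G b‖ := by
  obtain ⟨j, hj⟩ := Function.ne_iff.1 h
  refine le_trans ?_ (norm_le_pi_norm _ j)
  by_cases e : (a j).1 = (b j).1
  · have e2 : ((a j).2 : ℕ) ≠ (b j).2 := fun e2 => hj (Prod.ext e (Fin.ext e2))
    refine le_trans ?_ (Complex.abs_im_le_norm _)
    simpa [fb8G] using fb8_one e2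
  · have e2 : ((a j).1 : ℕ) ≠ (b j).1 := fun e2 => e (Fin.ext e2)
    refine le_trans ?_ (Complex.abs_re_le_norm _)
    simpa [fb8G] using fb8_one e2

theorem Fib.lim_dim (hP : F.Pack) (U : Ultrafilter X) (hU : F.W ∈ U) {i : A.ι} {d : ℕ}
    {γ : E d → E N} {t : E d} (h1 : γ t ∈ (A.C i).W) (h2 : ∀ᶠ u in 𝓝 t, DifferentiableAt ℂ γ u)
    (h3 : Function.Injective (fderiv ℂ γ t)) (h4 : ∀ᶠ u in 𝓝 t, A.p i (γ u) ∈ F.Lim U) :
    d ≤ n := by
  by_contra hd
  push Not at hd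
  obtain ⟨c, hc, s, hs, hA⟩ := fb8_anti h2 h3
  obtain ⟨R, hR, hRs⟩ := nhds_basis_closedBall.mem_iff.1 ((A.C i).isOpen.mem_nhds h1)
  obtain ⟨B, r₀, h0, hB⟩ := bpd2_pack hP U hU hRs
  have h5 : ∀ᶠ u in 𝓝 t, γ u ∈ ball (γ t) R :=
    h2.self_of_nhds.continuousAt (ball_mem_nhds _ hR)
  obtain ⟨r, hr, hrs⟩ := nhds_basis_closedBall.mem_iff.1 (inter_mem hs (h5.and h4))
  have hp : 0 < (c * r / 8) ^ (2 * n) := by positivity
  obtain ⟨K, hK⟩ := exists_nat_gt (max (max 1 (c * r / 4 / r₀)) (B / (c * r / 8) ^ (2 * n)))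
  have k1 : (1 : ℝ) < K := ((le_max_left _ _).trans (le_max_left _ _)).trans_lt hK
  have k2 : c * r / 4 / r₀ < K := ((le_max_right _ _).trans (le_max_left _ _)).trans_lt hK
  have k3 : B / (c * r / 8) ^ (2 * n) < K := (le_max_right _ _).trans_lt hK
  have k0 : (0 : ℝ) < K := by linarith
  have hm (a : Fin d → Fin K × Fin K) : t + (r / (2 * K) : ℝ) • fb8G a ∈ closedBall t r := by
    rw [mem_closedBall, dist_eq_norm, add_sub_cancel_left, norm_smul,
      Real.norm_of_nonneg (by positivity), div_mul_eq_mul_div, div_le_iff₀ (by positivity)]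
    exact mul_le_mul_of_nonneg_left (fb8_le a) hr.le
  have h6 := hB (c * r / 4 / K) (by positivity)
    (by rw [div_le_iff₀ k0, mul_comm r₀]; exact ((div_lt_iff₀ h0).1 k2).le)
    (Finset.univ : Finset (Fin d → Fin K × Fin K)) (fun a => γ (t + (r / (2 * K) : ℝ) • fb8G a))
    (fun a _ => (hrs (hm a)).2) fun a _ b _ hab => by
      refine lt_of_lt_of_le ?_ ((hA _ (hrs (hm a)).1 _ (hrs (hm b)).1).trans_eq
        (dist_eq_norm _ _).symm)
      rw [add_sub_add_left_eq_sub, ← smul_sub, norm_smul, Real.norm_of_nonneg (by positivity)]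
      have e1 : 0 < c * r / 4 / K := by positivity
      have e2 : c * (r / (2 * K)) = 2 * (c * r / 4 / K) := by field_simp; ring
      rw [← mul_assoc, e2]
      nlinarith [fb8_ge hab]
  obtain ⟨e, rfl⟩ := Nat.exists_eq_add_of_lt hd
  simp only [Finset.card_univ, Fintype.card_pi, Fintype.card_prod, Fintype.card_fin,
    Finset.prod_const, Nat.cast_pow, Nat.cast_mul] at h6
  have e3 : ((K : ℝ) * K) ^ (n + e + 1) * (c * r / 4 / K / 2) ^ (2 * n) =
      (K * K) ^ e * K * (K * (c * r / 8) ^ (2 * n)) := by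
    have : (K : ℝ) * (c * r / 4 / K / 2) = c * r / 8 := by field_simp; ring
    rw [← this, mul_pow (K : ℝ) _ (2 * n), pow_mul (K : ℝ), pow_two]
    ring
  have e4 : (1 : ℝ) ≤ (K * K) ^ e * K :=
    one_le_mul_of_one_le_of_one_le (one_le_pow₀ (by nlinarith)) k1.le
  rw [div_lt_iff₀ hp] at k3
  rw [e3] at h6
  nlinarith [mul_pos k0 hp]

end Pool.Agent.BP
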