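import Pool.Agent.P.MP_63735c_ag.FB8
import Pool.Agent.P.MP_63735c_ag.BPT2

/-! The limit sets are Lagrangian. -/

open scoped ComplexOrder ContDiff Matrix Topology ENNReal
open Set Metric MeasureTheory Filter

namespace Pool.Agent.BP

open Pool.Agent.SPF Pool.Agent.CL Pool.Agent.NL Pool.Agent.CK Pool.Agent.AB Pool.Agent.SE

variable {N n d : ℕ}

theorem fb9_cd {γ : E d → E N} {t : E d} (h2 : ∀ᶠ u in 𝓝 t, DifferentiableAt ℂ γ u) :
    ContDiffAt ℂ 1 γ t := by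
  obtain ⟨O, hO, hOo, hy⟩ := _root_.eventually_nhds_iff.1 h2
  refine contDiffAt_pi.2 fun a => ?_
  exact ((Lib.SCV.contDiffOn_of_differentiableOn hOo fun x hx =>
    (differentiableAt_pi.1 (hO x hx) a).differentiableWithinAt).contDiffAt
      (hOo.mem_nhds hy)).of_le (by simp)

/-- A projection and a normal coordinate for a submanifold. -/
theorem fb9_str {γ : E d → E N} {t : E d} (h2 : ∀ᶠ u in 𝓝 t, DifferentiableAt ℂ γ u)
    (h3 : Function.Injective (fderiv ℂ γ t)) : ∃ (π : E N →L[ℂ] E d) (ξ : E d → E N),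
      (∀ᶠ s in 𝓝 (π (γ t)), DifferentiableAt ℂ ξ s) ∧ ξ (π (γ t)) = γ t ∧
      fderiv ℂ ξ (π (γ t)) = fderiv ℂ γ t ∧ ∀ᶠ u in 𝓝 t, ξ (π (γ u)) = γ u := by
  obtain ⟨l, hl⟩ := LinearMap.exists_leftInverse_of_injective
    (fderiv ℂ γ t : E d →ₗ[ℂ] E N) (LinearMap.ker_eq_bot.2 h3)
  let π : E N →L[ℂ] E d := LinearMap.toContinuousLinearMap l
  have a1 : ContDiffAt ℂ 1 (fun u => π (γ u)) t := π.contDiff.contDiffAt.comp t (fb9_cd h2)
  have a2 : HasFDerivAt (fun u => π (γ u))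
      ((ContinuousLinearEquiv.refl ℂ (E d) : E d ≃L[ℂ] E d) : E d →L[ℂ] E d) t :=
    (π.hasFDerivAt.comp t h2.self_of_nhds.hasFDerivAt).congr_fderiv
      (ContinuousLinearMap.ext fun v => LinearMap.congr_fun hl v)
  have a3 := a1.hasStrictFDerivAt' a2 one_ne_zero
  have a4 := a1.to_localInverse a2 one_ne_zero
  have a5 := a1.localInverse_apply_image a2 one_ne_zero
  have a6 : ∀ᶠ u in 𝓝 t, a1.localInverse a2 one_ne_zero (π (γ u)) = u := a3.eventually_left_inverse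
  have a7 : HasFDerivAt (a1.localInverse a2 one_ne_zero) _ (π (γ t)) :=
    a3.to_localInverse.hasFDerivAt
  generalize a1.localInverse a2 one_ne_zero = g at a4 a5 a6 a7
  have a8 : Tendsto g (𝓝 (π (γ t))) (𝓝 t) := by
    have := a4.continuousAt.tendsto
    rwa [a5] at this
  refine ⟨π, fun s => γ (g s), ?_, congrArg γ a5, ?_, a6.mono fun u hu => congrArg γ hu⟩
  · filter_upwards [a4.eventually (by simp), a8.eventually h2] with s b1 b2
    exact b2.comp s (b1.differentiableAt one_ne_zero)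
  · have b : HasFDerivAt γ (fderiv ℂ γ t) (g (π (γ t))) := by
      rw [a5]
      exact h2.self_of_nhds.hasFDerivAt
    exact (b.comp _ a7).fderiv.trans (ContinuousLinearMap.ext fun v => rfl)

variable {X : Type} [TopologicalSpace X] [T2Space X] [CompactSpace X] [MeasurableSpace X]
  {A : Atlas X N} {F : Fib A n} {μ : Measure X} {K : Form11 A} {h : X → Mat n} {c₀ : ℝ}

/-- A class has a point where it is almost tangent to the limit set. -/
theorem fb9_tan (hinj : ∀ i, InjOn (A.p i) (A.C i).W) (hT : F.Tor μ K h c₀) (U : Ultrafilter X)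
    (hU : F.W ∈ U) {i : A.ι} {z₀ : E N} (h1 : z₀ ∈ (A.C i).W) (h0 : A.p i z₀ ∈ F.Lim U)
    (π : E N →L[ℂ] E d) {ξ : E d → E N} (h2 : ∀ᶠ s in 𝓝 (π z₀), DifferentiableAt ℂ ξ s)
    (h3 : ξ (π z₀) = z₀) (h4 : ∀ᶠ z in 𝓝 z₀, A.p i z ∈ F.Lim U → ξ (π z) = z) {κ : ℝ}
    (hκ : 0 < κ) : ∃ᶠ z in 𝓝 z₀, z ∈ dom A F.W i ∧ ∀ τ,
      nsq (Vf A F.g i z *ᵥ τ - fderiv ℂ ξ (π z) (π (Vf A F.g i z *ᵥ τ))) ≤
        κ * nsq (π (Vf A F.g i z *ᵥ τ)) := by
  refine frequently_iff.2 fun {S} hS => ?_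
  obtain ⟨ρ, hρ, hb⟩ := nhds_basis_closedBall.mem_iff.1 (inter_mem (inter_mem hS
    ((A.C i).isOpen.mem_nhds h1)) (inter_mem h4
      (π.continuous.continuousAt.eventually h2.eventually_nhds)))
  have hW : closedBall z₀ ρ ⊆ (A.C i).W := fun z hz => (hb hz).1.2
  have hd : ∀ z ∈ closedBall z₀ ρ, ∀ᶠ s in 𝓝 (π z), DifferentiableAt ℂ ξ s :=
    fun z hz => (hb hz).2.2
  let u : E N → ℝ := fun z => nsq (z - ξ (π z)) + -κ * nsq (π z - π z₀)
  have hu : ContinuousOn u (closedBall z₀ ρ) := fun z hz => ContinuousAt.continuousWithinAt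
    ((nsq_smooth.continuous.continuousAt.comp (continuousAt_id.sub
      ((hd z hz).self_of_nhds.continuousAt.comp π.continuous.continuousAt))).add
      (continuousAt_const.mul (nsq_smooth.continuous.continuousAt.comp
        (π.continuous.continuousAt.sub continuousAt_const))))
  have hp := (A.cont i).mono hW
  have hs : sphere z₀ ρ ⊆ closedBall z₀ ρ := sphere_subset_closedBall
  have n0 : ∀ M, nsq (0 : E M) = 0 := fun M => by simp [nsq]
  obtain ⟨m, hm, hm'⟩ := ((isCompact_sphere z₀ ρ).of_isClosed_subset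
    ((hp.mono hs).preimage_isClosed_of_isClosed isClosed_sphere (F.lim_closed U))
    inter_subset_left).exists_forall_le' (f := fun z => -u z) (a := 0)
    (hu.mono fun z hz => hs hz.1).neg fun z hz => by
      have e : ξ (π z) = z := (hb (hs hz.1)).2.1 hz.2
      have a1 : π z - π z₀ ≠ 0 := fun e' => by
        have a := hz.1
        rw [← e, sub_eq_zero.1 e', h3, mem_sphere, dist_self] at a
        exact hρ.ne a
      have a2 := (nsq_le (π z - π z₀)).1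
      have a3 := norm_pos_iff.2 a1
      simp only [u, e, sub_self, n0]
      nlinarith [mul_pos hκ (pow_pos a3 2)]
  have k1 : IsCompact (sphere z₀ ρ ∩ u ⁻¹' Ici (-(m / 2))) :=
    (isCompact_sphere z₀ ρ).of_isClosed_subset
      ((hu.mono hs).preimage_isClosed_of_isClosed isClosed_sphere isClosed_Ici) inter_subset_left
  have k2 := F.lim_trap U
    (k1.image_of_continuousOn (hp.mono fun z hz => hs hz.1)).isClosed.isOpen_compl (by
      rintro _ hy ⟨z, hz, rfl⟩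
      have a1 := hm' z ⟨hz.1, hy⟩
      have a2 : -(m / 2) ≤ u z := hz.2
      linarith)
  have k3 : IsOpen (ball z₀ ρ ∩ u ⁻¹' Ioi (-(m / 2))) :=
    (hu.mono ball_subset_closedBall).isOpen_inter_preimage isOpen_ball isOpen_Ioi
  have k4 := h0 _ ((A.opn i _ k3 fun z hz => hW (ball_subset_closedBall hz.1)).mem_nhds
    ⟨z₀, ⟨mem_ball_self hρ, by
      simp only [mem_preimage, mem_Ioi, u, h3, sub_self, n0]
      linarith⟩, rfl⟩)
  obtain ⟨x, ⟨hx, b1⟩, _, ⟨z', hz', rfl⟩, b2⟩ := ((show ∀ᶠ x in (U : Filter X), x ∈ F.W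
    from hU).and k2 |>.and k4).exists
  obtain ⟨j, hj⟩ := F.cov x hx
  have c1 : IsClosed {y | F.r x y} := by
    have := (F.prop j {F.g x} isCompact_singleton (singleton_subset_iff.2 (F.maps j hj))).isClosed
    exact (congrArg IsClosed (Set.ext fun y => (F.rel j x hj y).symm)).mp this
  obtain ⟨z, hz, hmax⟩ := ((isCompact_closedBall z₀ ρ).of_isClosed_subset
    (hp.preimage_isClosed_of_isClosed isClosed_closedBall c1) inter_subset_left).exists_isMaxOn
    ⟨z', ball_subset_closedBall hz'.1, b2⟩ (hu.mono inter_subset_left)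
  have c2 : z ∈ ball z₀ ρ := lt_of_le_of_ne hz.1 fun e => b1 _ hz.2 ⟨z, ⟨e,
    (show -(m / 2) < u z' from hz'.2).le.trans (hmax ⟨ball_subset_closedBall hz'.1, b2⟩)⟩, rfl⟩
  obtain ⟨Ψ, κ', -, hr', hl, -⟩ := hT.tor x hx
  obtain ⟨-, q, hq1, hq2⟩ := bpdp_lift hinj (fun τ => (Fib.r_mem hx ((hr' _).2 ⟨τ, rfl⟩)).1) hl i
  obtain ⟨τ₁, e1⟩ := (hr' _).1 hz.2
  have d1 : τ₁ ∈ Ψ ⁻¹' (A.p i '' (A.C i).W) := ⟨z, hW hz.1, e1.symm⟩
  have d2 : q τ₁ = z := hinj i (hq2 τ₁ d1).1 (hW hz.1) ((hq2 τ₁ d1).2.1.trans e1)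
  subst d2
  refine ⟨_, (hb hz.1).1.1, ⟨hW hz.1, (Fib.r_mem hx hz.2).1⟩, fun τ => ?_⟩
  have d3 := hq1.hol τ₁ d1
  have d4 := d3.self_of_nhds
  have d5 : ∀ᶠ t in 𝓝 τ₁, q t ∈ ball z₀ ρ := d4.continuousAt (isOpen_ball.mem_nhds c2)
  have f1 := lev_nsq (F := fun t => q t - ξ (π (q t))) (z := τ₁) (by
    filter_upwards [d3, d5] with t a1 a2
    exact a1.sub ((hd _ (ball_subset_closedBall a2)).self_of_nhds.comp t
      (π.differentiableAt.comp t a1)))
  have f2 := lev_nsq (F := fun t => π (q t) - π z₀) (z := τ₁)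
    (d3.mono fun t a1 => (π.differentiableAt.comp t a1).sub_const _)
  have f3 : IsLocalMax (fun t => u (q t)) τ₁ := by
    filter_upwards [d5, hq1.opn.mem_nhds d1] with t a1 a2
    exact hmax ⟨ball_subset_closedBall a1, (hr' _).2 ⟨t, (hq2 t a2).2.1.symm⟩⟩
  have f4 := lev_max (f1.1.add (contDiffAt_const.mul f2.1)) f3 τ
  have g1 := π.hasFDerivAt.comp τ₁ d4.hasFDerivAt
  have g2 : HasFDerivAt (fun t => q t - ξ (π (q t))) _ τ₁ :=
    d4.hasFDerivAt.sub ((hd _ hz.1).self_of_nhds.hasFDerivAt.comp τ₁ g1)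
  have g3 : HasFDerivAt (fun t => π (q t) - π z₀) _ τ₁ := g1.sub_const _
  have f5 := f1.2.2.2 τ
  have f6 := f2.2.2.2 τ
  rw [g2.fderiv] at f5
  rw [g3.fderiv] at f6
  rw [BP.hr, lev_add f1.1 (contDiffAt_const.mul f2.1), lev_smul f2.1, hq_add, hq_smul,
    Complex.add_re, Complex.re_ofReal_mul] at f4
  simp only [BP.hr, _root_.sub_apply, ContinuousLinearMap.comp_apply] at f5 f6
  rw [f5, f6, ← bpt2_jac q, (hq2 τ₁ d1).2.2] at f4
  linarith

theorem Fib.lim_lag (hinj : ∀ i, InjOn (A.p i) (A.C i).W) (hT : F.Tor μ K h c₀) (hP : F.Pack)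
    (U : Ultrafilter X) (hU : F.W ∈ U) : IsLag A n (F.Lim U) := by
  intro i d γ t h1 h2 h3 h4
  have a1 : ∀ᶠ u in 𝓝 t, A.p i (γ u) ∈ F.Lim U :=
    (show ∀ᶠ z in map γ (𝓝 t), A.p i z ∈ F.Lim U from h4 ▸ self_mem_nhdsWithin)
  obtain ⟨π, ξ, b1, b2, b3, b4⟩ := fb9_str h2 h3
  have a2 : ∀ᶠ z in 𝓝 (γ t), A.p i z ∈ F.Lim U → ξ (π z) = z :=
    eventually_nhdsWithin_iff.1 (h4 ▸ (show ∀ᶠ z in map γ (𝓝 t), ξ (π z) = z from b4))
  have tan := fun κ hκ => fb9_tan hinj hT U hU h1 a1.self_of_nhds π b1 b2 a2 (κ := κ) hκ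
  let P : E N → E n →ₗ[ℂ] E d := fun z => (π : E N →ₗ[ℂ] E d) ∘ₗ (Vf A F.g i z).mulVecLin
  have inj : ∀ κ z, (z ∈ dom A F.W i ∧ ∀ τ,
      nsq (Vf A F.g i z *ᵥ τ - fderiv ℂ ξ (π z) (π (Vf A F.g i z *ᵥ τ))) ≤
        κ * nsq (π (Vf A F.g i z *ᵥ τ))) → Function.Injective (P z) := fun κ z hz =>
    (injective_iff_map_eq_zero _).2 fun τ e => by
      have c1 := hz.2 τ
      have c2 : π (Vf A F.g i z *ᵥ τ) = 0 := e
      have c3 : nsq (0 : E d) = 0 := by simp [nsq]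
      rw [c2, map_zero, sub_zero, c3, mul_zero] at c1
      exact bpdp_inj hz.1 (norm_eq_zero.1 (pow_eq_zero_iff two_ne_zero |>.1
        (le_antisymm ((nsq_le _).1.trans c1) (sq_nonneg _))))
  obtain rfl : d = n := by
    obtain ⟨z, hz⟩ := (tan 1 one_pos).exists
    have := LinearMap.finrank_le_finrank_of_injective (inj 1 z hz)
    exact le_antisymm (Fib.lim_dim hP U hU h1 h2 h3 a1) (by simpa using this)
  refine ⟨rfl, ?_⟩
  have key : ∀ a b : E d, fderiv ℂ γ t a ⬝ᵥ (A.C i).σ (γ t) *ᵥ fderiv ℂ γ t b = 0 := fun a b => by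
    by_contra hc
    let B : E N × E N × E N → ℂ := fun w => (fderiv ℂ ξ (π w.1) a + w.2.1) ⬝ᵥ
      (A.C i).σ w.1 *ᵥ (fderiv ℂ ξ (π w.1) b + w.2.2)
    have c1 : ContinuousAt (fun w : E N × E N × E N => fderiv ℂ ξ (π w.1)) (γ t, 0, 0) :=
      ContinuousAt.comp (g := fderiv ℂ ξ) ((fb9_cd b1).continuousAt_fderiv one_ne_zero)
        (π.continuous.comp continuous_fst).continuousAt
    have c2 : ∀ x y, ContinuousAt (fun w : E N × E N × E N => (A.C i).σ w.1 x y) (γ t, 0, 0) :=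
      fun x y => ContinuousAt.comp (g := fun z => (A.C i).σ z x y)
        (((A.C i).σ_hol x y).continuousOn.continuousAt ((A.C i).isOpen.mem_nhds h1))
        continuousAt_fst
    have c3 : ContinuousAt B (γ t, 0, 0) := by
      have e1 : ∀ (v : E d) (f : E N × E N × E N → E N), Continuous f → ∀ x, ContinuousAt
          (fun w : E N × E N × E N => (fderiv ℂ ξ (π w.1) v + f w) x) (γ t, 0, 0) :=
        fun v f hf x => (continuous_apply x).continuousAt.comp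
          ((c1.clm_apply continuousAt_const).add hf.continuousAt)
      have e2 : ∀ x, ContinuousAt (fun w : E N × E N × E N =>
          ∑ y, (A.C i).σ w.1 x y * (fderiv ℂ ξ (π w.1) b + w.2.2) y) (γ t, 0, 0) := fun x =>
        tendsto_finsetSum _ fun y _ => (c2 x y).mul (e1 b (fun w => w.2.2) (by fun_prop) y)
      exact tendsto_finsetSum _ fun x _ => (e1 a (fun w => w.2.1) (by fun_prop) x).mul (e2 x)
    have c4 : ∀ᶠ w in 𝓝 ((γ t, 0, 0) : E N × E N × E N), B w ≠ 0 :=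
      c3.eventually_ne (by simpa only [B, add_zero, b3] using hc)
    obtain ⟨ε, hε, c5⟩ := Metric.eventually_nhds_iff.1 c4
    have n1 := (sq_nonneg _).trans (nsq_le a).1
    have n2 := (sq_nonneg _).trans (nsq_le b).1
    obtain ⟨κ, hκ, k1⟩ : ∃ κ : ℝ, 0 < κ ∧ κ * (nsq a + nsq b + 1) = ε ^ 2 :=
      ⟨ε ^ 2 / (nsq a + nsq b + 1), by positivity, div_mul_cancel₀ _ (by positivity)⟩
    obtain ⟨z, hz, hz'⟩ := ((tan κ hκ).and_eventually (ball_mem_nhds _ hε)).exists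
    have d1 := LinearMap.injective_iff_surjective.1 (inj κ z hz)
    obtain ⟨τ, e1⟩ := d1 a
    obtain ⟨τ', e2⟩ := d1 b
    have d2 := hz.2 τ
    have d3 := hz.2 τ'
    rw [show π (Vf A F.g i z *ᵥ τ) = a from e1] at d2
    rw [show π (Vf A F.g i z *ᵥ τ') = b from e2] at d3
    have d4 : ∀ v : E N, nsq v < ε ^ 2 → dist v 0 < ε := fun v hv => by
      rw [dist_zero_right]
      exact lt_of_pow_lt_pow_left₀ 2 hε.le ((nsq_le v).1.trans_lt hv)
    refine c5 (y := (z, Vf A F.g i z *ᵥ τ - fderiv ℂ ξ (π z) a,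
      Vf A F.g i z *ᵥ τ' - fderiv ℂ ξ (π z) b)) (max_lt hz' (max_lt (d4 _ (by nlinarith))
        (d4 _ (by nlinarith)))) ?_
    have d5 : (A.C i).σ z * Vf A F.g i z = (Jg A F.g i z)ᵀ :=
      Matrix.mul_nonsing_inv_cancel_left _ _ ((A.C i).σ_det z hz.1.1).isUnit
    simp only [B, add_sub_cancel]
    rw [Matrix.mulVec_mulVec, d5, dotProduct_comm, Matrix.mulVec_transpose,
      ← Matrix.dotProduct_mulVec, Matrix.mulVec_mulVec, hT.iso i z hz.1, Matrix.zero_mulVec,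
      dotProduct_zero]
  ext a b
  have := key (Pi.single a 1) (Pi.single b 1)
  rw [← bpt2_jac, ← bpt2_jac, Matrix.mulVec_mulVec, ← Matrix.vecMul_transpose,
    ← Matrix.dotProduct_mulVec, Matrix.mulVec_mulVec, ← Matrix.mul_assoc] at this
  simpa using this

end Pool.Agent.BP
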