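import Pool.Agent.P.MP_63735c_ag.FB7
import Pool.Agent.P.MP_63735c_ag.FB9
import Pool.Agent.P.MP_63735c_ag.BPEC

/-! A power of `L` defines a map with connected Lagrangian fibres. -/

open scoped ComplexOrder ContDiff Matrix Topology ENNReal
open Set Metric MeasureTheory Filter

namespace Pool.Agent.BP

open Pool.Agent.SPF Pool.Agent.CL Pool.Agent.NL Pool.Agent.CK Pool.Agent.AB Pool.Agent.SE

variable {N n : ℕ} {X : Type} [TopologicalSpace X] [MeasurableSpace X] {A : Atlas X N}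
  {μ : Measure X} {L : Line A} {K : Form11 A} [T2Space X] [CompactSpace X] [BorelSpace X]

theorem Ctx.main (Γ : Ctx μ K L n) : ∃ k : ℕ, 1 ≤ k ∧ Bpf L k ∧
    ∀ x, IsConnected (Fibre L k x) ∧ IsLag A n (Fibre L k x) := by
  obtain ⟨l, hl, h⟩ := Γ.fibre
  refine ⟨_, Nat.mul_pos Γ.U.m_pos (Nat.mul_pos Γ.d_pos hl), Γ.bpf_mul l, fun x => ?_⟩
  obtain ⟨U, hU⟩ := Γ.ult x
  have hW : Γ.F.W ∈ U := hU self_mem_nhdsWithin
  rw [h, ← Γ.lim_eq U hU]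
  exact ⟨⟨⟨x, Fib.mem_lim (hU.trans nhdsWithin_le_nhds)⟩, Fib.lim_conn Γ.U.hinj Γ.tor U hW⟩,
    Fib.lim_lag Γ.U.hinj Γ.tor (Fib.pack Γ.U.hinj Γ.K_pos Γ.tor) U hW⟩

theorem Sys.exists_ctx [PreconnectedSpace X] (hμ : IsVolume A μ) (h1 : H1 A) (h2 : H02 A)
    (hη : ∃ i, ∃ z ∈ (A.C i).W, (A.C i).η z ≠ 0) (S : Sys K L n) : Nonempty (Ctx μ K L n) := by
  obtain ⟨j, hj, r, s, hs, h0⟩ := S.bpf hμ h1 h2 hη
  obtain ⟨Y, _, _, ⟨B⟩⟩ := S.exists_base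
  borelize Y
  obtain ⟨T⟩ := B.exists_kit hμ
  obtain ⟨ξ, a, C, hξ⟩ := T.exists_xi hμ h2 hη
  obtain ⟨U, e1, -, -, -, e3⟩ := T.exists_up hμ h1 hξ
  obtain ⟨F, f1, f2, f3, f4, -⟩ := T.exists_fib hμ
  have hp := T.pol
  rw [← e1] at hp
  have hb : Bpf L j := fun x => by
    obtain ⟨i, z, hz, rfl⟩ := A.cover x
    obtain ⟨l, hl⟩ := h0 i z hz
    exact ⟨s l, hs l, fun h => hl (h i z hz rfl)⟩
  refine ⟨⟨U, F, S.h, T.c₀, a, j, S.hN, S.n_pos, hμ, S.K_pos, f1.trans e1.symm, f4, hξ.a_pos,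
    fun i z hz v => ?_, U.ext_of_pol hp, hj, mul_comm j U.m ▸ hb.mul U.m⟩⟩
  rw [e3 i z hz.1 (e1 ▸ hz.2) v, Fib.Om, f2, f3]
  rfl

end Pool.Agent.BP
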