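import Pool.Agent.P.MP_63735c_ag.SELine

/-! Fibres of a complete linear system, Lagrangian subsets. -/

open scoped Matrix Topology

namespace Pool.Agent.BP

open Pool.Agent.SPF Pool.Agent.SE

variable {N : ℕ} {X : Type} [TopologicalSpace X]

/-- The section `s` vanishes at `x`. -/
def Van (A : Atlas X N) (s : A.ι → E N → ℂ) (x : X) : Prop :=
  ∀ i, ∀ z ∈ (A.C i).W, A.p i z = x → s i z = 0

/-- The fibre through `x` of the map given by all sections of the `k`-th power of `L`: the points
at which the same sections vanish. -/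
def Fibre {A : Atlas X N} (L : Line A) (k : ℕ) (x : X) : Set X :=
  {y | ∀ s, L.IsSection k s → (Van A s y ↔ Van A s x)}

/-- Wherever `Z` is a complex submanifold, it has dimension `n` and `σ` vanishes on it. -/
def IsLag (A : Atlas X N) (n : ℕ) (Z : Set X) : Prop :=
  ∀ i (d : ℕ) (γ : E d → E N) (t : E d), γ t ∈ (A.C i).W →
    (∀ᶠ u in 𝓝 t, DifferentiableAt ℂ γ u) → Function.Injective (fderiv ℂ γ t) →
    Filter.map γ (𝓝 t) = 𝓝[A.p i ⁻¹' Z] (γ t) →
      d = n ∧ (jac γ t)ᵀ * (A.C i).σ (γ t) * jac γ t = 0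

end Pool.Agent.BP
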