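import Pool.Agent.P.MP_63735c_ag.NR4
import Pool.Agent.P.MP_63735c_ag.ABX1

/-! Extension over the zeros of the first section, bounds, and the value on the graph. -/

open scoped ComplexOrder ContDiff Matrix Topology ENNReal
open Set Metric MeasureTheory Filter

namespace Pool.Agent.BP

open Pool.Agent.SPF Pool.Agent.CL Pool.Agent.NL Pool.Agent.CK Pool.Agent.AB Pool.Agent.SE

variable {N r : ℕ} {X : Type} [TopologicalSpace X] {A : Atlas X N} {L : Line A} {k : ℕ}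
  {S : Fam L k r} {h : X → ℂ} {b : E r} {τ C C₀ : ℝ} {j γ : ℕ}

/-- The family of sections given by `G`. -/
noncomputable def Fam.sct (S : Fam L k r) (G : X × E r → ℂ) (m : ℕ) (w : E r) (i : A.ι) (z : E N) :
    ℂ := G (A.p i z, w) * S.s₀ i z ^ m

theorem nr6_int {M : ℕ} {W Z : Set (E M)} (hZ : MeasurableSet Z) (hW : Z ⊆ W) (hv : volume Z ≠ ⊤)
    {u f : E M → ℝ} {a c C₀ : ℝ} (ha : 0 ≤ a) (hc : 0 ≤ c) (hu : ∀ z ∈ Z, 0 ≤ u z)
    (h : ∀ z ∈ Z, f z ≤ a * u z + c)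
    (hI : ∫⁻ z in W, ENNReal.ofReal (u z) ≤ ENNReal.ofReal C₀) :
    ∫⁻ z in Z, ENNReal.ofReal (f z) ≤ ENNReal.ofReal (a * |C₀| + c * (volume Z).toReal) := by
  have hpt : ∀ z ∈ Z, ENNReal.ofReal (f z) ≤
      ENNReal.ofReal a * ENNReal.ofReal (u z) + ENNReal.ofReal c := fun z hz => by
    rw [← ENNReal.ofReal_mul ha, ← ENNReal.ofReal_add (mul_nonneg ha (hu z hz)) hc]
    exact ENNReal.ofReal_le_ofReal (h z hz)
  refine (setLIntegral_mono' hZ hpt).trans ?_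
  rw [lintegral_add_right _ measurable_const, lintegral_const_mul' _ _ ENNReal.ofReal_ne_top,
    setLIntegral_const]
  refine (add_le_add (mul_le_mul_right (((lintegral_mono_set hW).trans hI).trans
    (ENNReal.ofReal_le_ofReal (le_abs_self C₀))) _) le_rfl).trans ?_
  rw [ENNReal.ofReal_add (by positivity) (by positivity), ENNReal.ofReal_mul ha,
    ENNReal.ofReal_mul hc, ENNReal.ofReal_toReal hv]

theorem nr6_open (i : A.ι) (b : E r) (τ : ℝ) :
    IsOpen {z | pr1 N r z ∈ (A.C i).W ∧ pr2 N r z ∈ Bl b τ} :=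
  ((A.C i).isOpen.preimage (pr1 N r).continuous).inter
    ((Bl_open b τ).preimage (pr2 N r).continuous)

theorem nr6_cont (b : E r) : Continuous fun z : E (N + r) => nsq (pr2 N r z - b) :=
  nsq_smooth.continuous.comp ((pr2 N r).continuous.sub continuous_const)

theorem nr6_ap (a : E N) (b : E r) : Differentiable ℂ (fun x : E N => ap x b) ∧
    Continuous (fun w : E r => ap a w) :=
  ⟨(spl N r).symm.differentiable.comp (differentiable_id.prodMk (differentiable_const b)),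
    (spl N r).symm.continuous.comp (continuous_const.prodMk continuous_id)⟩

/-- The L2 norm on a compact part of chart times ball. -/
theorem nr6_loc (H : S.Good h b τ C) (j γ n : ℕ) (C₀ : ℝ) {i : A.ι} {K : Set (E (N + r))}
    (hK : IsCompact K) (hO : K ⊆ {z | pr1 N r z ∈ (A.C i).W ∧ pr2 N r z ∈ Bl b τ}) :
    ∃ B : ℝ, 0 ≤ B ∧ ∀ ε R (G : X × E r → ℂ),
      S.dist j γ ε b τ G (S.cf h b τ R) i ≤ ENNReal.ofReal C₀ →
      ∫⁻ z in K ∩ (S.D b τ).W i, ENNReal.ofReal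
        (‖G (A.p i (pr1 N r z), pr2 N r z) * S.s₀ i (pr1 N r z) ^ (j + n)‖ ^ 2) ≤
          ENNReal.ofReal B := by
  have hK1 := hK.image (pr1 N r).continuous
  have hK2 : pr1 N r '' K ⊆ (A.C i).W := by
    rintro _ ⟨z, hz, rfl⟩
    exact (hO hz).1
  obtain ⟨c, B₀, hc, -, hb⟩ := cpt_bds L hK1 hK2
  obtain ⟨B, hB, hs⟩ := S.φ_bd hK1 hK2
  obtain ⟨β, hβ⟩ := hK.exists_bound_of_continuousOn
    (f := fun z => -Real.log (τ - nsq (pr2 N r z - b)))
    ((continuousOn_const.sub (nr6_cont b).continuousOn).log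
      fun z hz => (sub_pos.2 (hO hz).2).ne').neg
  have hv : volume (K ∩ (S.D b τ).W i) ≠ ⊤ :=
    ((measure_mono inter_subset_left).trans_lt hK.measure_lt_top).ne
  refine ⟨2 * (B ^ j * B ^ (2 * n)) * Real.exp (j * β) / c * |C₀| +
    2 * |C| ^ 2 * B ^ (2 * (j + n)) * (volume (K ∩ (S.D b τ).W i)).toReal, by positivity,
    fun ε R G hI => nr6_int (hK.measurableSet.inter ((S.D b τ).isOpen i).measurableSet)
      inter_subset_right hv (by positivity) (by positivity) (fun z _ => by positivity)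
      (fun z hz => ?_) hI⟩
  obtain ⟨b1, -, -⟩ := hb _ (mem_image_of_mem _ hz.1)
  obtain ⟨s1, s2⟩ := hs _ (mem_image_of_mem _ hz.1)
  have e1 := (H.cf_bd R ((S.D b τ).p i z)).1
  have e2 : bet b τ ((S.D b τ).p i z) ≤ β := (le_abs_self _).trans (hβ z hz.1)
  have e3 : Real.exp (-S.φ (A.p i (pr1 N r z))) ^ j ≤
      Real.exp (-S.Φ j γ ε b τ ((S.D b τ).p i z)) * Real.exp (j * β) := by
    rw [← Real.exp_nat_mul, ← Real.exp_add]
    refine Real.exp_le_exp.2 ?_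
    have a1 := mul_le_mul_of_nonneg_left e2 (Nat.cast_nonneg (α := ℝ) j)
    have a2 := mul_nonneg (Nat.cast_nonneg (α := ℝ) γ)
      (neg_nonneg.2 (rho_bd (Real.log (S.T ((S.D b τ).p i z) + ε))).1)
    have a3 : S.Φ j γ ε b τ ((S.D b τ).p i z) = j * S.φ (A.p i (pr1 N r z)) +
        j * bet b τ ((S.D b τ).p i z) + γ * rho (Real.log (S.T ((S.D b τ).p i z) + ε)) := rfl
    rw [a3]
    linarith
  change ‖G ((S.D b τ).p i z) * _‖ ^ 2 ≤ _
  have e0 := Real.exp_pos (-S.Φ j γ ε b τ ((S.D b τ).p i z))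
  generalize Real.exp (-S.Φ j γ ε b τ ((S.D b τ).p i z)) = a at *
  generalize G ((S.D b τ).p i z) = g at *
  generalize S.cf h b τ R ((S.D b τ).p i z) = s at *
  generalize ‖((A.C i).σ (pr1 N r z)).det‖ = d at *
  generalize S.s₀ i (pr1 N r z) = f at *
  have e4 : ‖g‖ ^ 2 ≤ 2 * ‖g - s‖ ^ 2 + 2 * |C| ^ 2 := by
    have h2 := norm_add_le (g - s) s
    rw [sub_add_cancel] at h2
    have h3 := pow_le_pow_left₀ (norm_nonneg _) (h2.trans (add_le_add le_rfl e1)) 2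
    nlinarith [sq_nonneg (‖g - s‖ - |C|)]
  have e5 : ‖f‖ ^ (2 * (j + n)) ≤ B ^ (2 * (j + n)) := pow_le_pow_left₀ (norm_nonneg _) s1 _
  have e6 : ‖f‖ ^ (2 * (j + n)) ≤ B ^ j * B ^ (2 * n) * Real.exp (j * β) * a * (d / c) := by
    have h1 : (‖f‖ ^ 2) ^ j ≤ B ^ j * (a * Real.exp (j * β)) :=
      (pow_le_pow_left₀ (sq_nonneg _) s2 j).trans (by rw [mul_pow]; gcongr)
    calc ‖f‖ ^ (2 * (j + n)) = (‖f‖ ^ 2) ^ j * ‖f‖ ^ (2 * n) * 1 := by ring
      _ ≤ B ^ j * (a * Real.exp (j * β)) * B ^ (2 * n) * (d / c) := by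
          gcongr
          exact (one_le_div hc).2 b1
      _ = _ := by ring
  calc ‖g * f ^ (j + n)‖ ^ 2 = ‖g‖ ^ 2 * ‖f‖ ^ (2 * (j + n)) := by
        rw [norm_mul, norm_pow]; ring
    _ ≤ (2 * ‖g - s‖ ^ 2 + 2 * |C| ^ 2) * ‖f‖ ^ (2 * (j + n)) := by gcongr
    _ = 2 * ‖g - s‖ ^ 2 * ‖f‖ ^ (2 * (j + n)) + 2 * |C| ^ 2 * ‖f‖ ^ (2 * (j + n)) := by ring
    _ ≤ 2 * ‖g - s‖ ^ 2 * (B ^ j * B ^ (2 * n) * Real.exp (j * β) * a * (d / c)) +
        2 * |C| ^ 2 * B ^ (2 * (j + n)) := by gcongr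
    _ = _ := by ring

theorem Fam.Good.ext (H : S.Good h b τ C) {ε R : ℝ} {G : X × E r → ℂ} (hG : (S.D b τ).Hol G)
    (hi : ∀ i, S.dist j γ ε b τ G (S.cf h b τ R) i ≤ ENNReal.ofReal C₀) :
    (∀ i, DifferentiableOn ℂ (fun z => S.sct G (j + (N + r) + 2) (pr2 N r z) i (pr1 N r z))
      {z | pr1 N r z ∈ (A.C i).W ∧ pr2 N r z ∈ Bl b τ}) ∧
    ∀ w ∈ Bl b τ, L.IsSection (k * (j + (N + r) + 2)) (S.sct G (j + (N + r) + 2) w) := by
  have h1 : ∀ i, DifferentiableOn ℂ (fun z => S.sct G (j + (N + r) + 2) (pr2 N r z) i (pr1 N r z))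
      {z | pr1 N r z ∈ (A.C i).W ∧ pr2 N r z ∈ Bl b τ} := by
    intro i
    have hm : ∀ z, (pr1 N r z ∈ (A.C i).W ∧ pr2 N r z ∈ Bl b τ) → S.s₀ i (pr1 N r z) ≠ 0 →
        z ∈ (S.D b τ).W i := fun z hz h0 => ⟨⟨hz.1, (S.U_iff hz.1).2 h0⟩, hz.2⟩
    refine ext_hol (f := fun z => S.s₀ i (pr1 N r z))
      (g := fun z => G (A.p i (pr1 N r z), pr2 N r z)) (nr6_open i b τ)
      ((S.sec₀.1 i).comp (pr1 N r).differentiableOn fun z hz => hz.1)
      (fun z hz h0 => (hG i).differentiableAt (((S.D b τ).isOpen i).mem_nhds (hm z hz h0)))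
      fun z hz => ?_
    obtain ⟨K, k1, k2, k3⟩ := exists_compact_subset (nr6_open i b τ) hz
    obtain ⟨B, -, hB⟩ := nr6_loc H j γ 0 C₀ k1 k3
    refine ⟨K, mem_interior_iff_mem_nhds.1 k2, ne_top_of_le_ne_top ENNReal.ofReal_ne_top
      ((lintegral_mono_set fun y hy => ?_).trans (hB ε R G (hi i)))⟩
    exact ⟨hy.1, hm y (k3 hy.1) hy.2⟩
  refine ⟨h1, fun w hw => ⟨fun i => ?_, fun i l z hz y hy he => ?_⟩⟩
  · have h2 := (h1 i).comp (s := (A.C i).W) (nr6_ap 0 w).1.differentiableOn fun z hz =>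
      ⟨by rw [pr1_ap]; exact hz, by rw [pr2_ap]; exact hw⟩
    refine h2.congr fun z _ => ?_
    simp only [Function.comp, pr1_ap, pr2_ap]
  · rw [Fam.sct, Fam.sct, S.sec₀.2 i l z hz y hy he, ← he, mul_pow, ← pow_mul]
    ring

theorem Fam.Good.bound (H : S.Good h b τ C) (j γ : ℕ) (C₀ : ℝ) {i : A.ι} {z : E N}
    (hz : z ∈ (A.C i).W) : ∃ B : ℝ, ∀ ε R G, (S.D b τ).Hol G →
      (∀ i, S.dist j γ ε b τ G (S.cf h b τ R) i ≤ ENNReal.ofReal C₀) →
        ∀ w ∈ Bl b (τ / 4), ‖S.sct G (j + (N + r) + 2) w i z‖ ≤ B := by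
  have hτ := H.τ_pos
  have c1 : IsCompact {w : E r | nsq (w - b) ≤ τ / 4} := by
    refine (isCompact_closedBall b 1).of_isClosed_subset (isClosed_le
      (nsq_smooth.continuous.comp (continuous_id.sub continuous_const)) continuous_const)
      fun w hw => mem_closedBall_iff_norm.2 ?_
    have a1 := (nsq_le (w - b)).1.trans hw
    have a2 := H.τ_le
    nlinarith [norm_nonneg (w - b)]
  have c2 := c1.image (nr6_ap z b).2
  obtain ⟨δ, hδ, c3⟩ := c2.exists_cthickening_subset_open (nr6_open i b τ) (by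
    rintro _ ⟨w, hw, rfl⟩
    exact ⟨by rw [pr1_ap]; exact hz, by
      rw [pr2_ap]; exact lt_of_le_of_lt (b := τ / 4) hw (by linarith)⟩)
  obtain ⟨B, hB0, hB⟩ := nr6_loc H j γ (N + r + 2) C₀ (c2.cthickening (r := δ)) c3
  obtain ⟨c, hc, hmv⟩ := mv_rad (N := N + r)
  refine ⟨(B / c + 1) / δ ^ (N + r), fun ε R G hG hi w hw => ?_⟩
  have c4 : ball (ap z w) δ ⊆ cthickening δ ((fun w => ap z w) '' {w | nsq (w - b) ≤ τ / 4}) :=
    ball_subset_closedBall.trans (closedBall_subset_cthickening (mem_image_of_mem _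
      (show w ∈ {w | nsq (w - b) ≤ τ / 4} from le_of_lt (a := nsq (w - b)) hw)) δ)
  have h3 := hmv _ (ap z w) δ B hδ hB0 (((H.ext hG hi).1 i).mono (c4.trans c3)) (by
    refine (lintegral_mono_set c4).trans ?_
    rw [← lintegral_inter_add_sdiff _ _ ((S.D b τ).isOpen i).measurableSet,
      setLIntegral_congr_fun (g := fun _ => 0) ((c2.cthickening (r := δ)).measurableSet.diff
        ((S.D b τ).isOpen i).measurableSet) fun y hy => ?_, lintegral_zero, add_zero]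
    · exact hB ε R G (hi i)
    · have h0 : S.s₀ i (pr1 N r y) = 0 := by_contra fun h0 =>
        hy.2 ⟨⟨(c3 hy.1).1, (S.U_iff (c3 hy.1).1).2 h0⟩, (c3 hy.1).2⟩
      simp [Fam.sct, h0])
  rw [pr1_ap, pr2_ap] at h3
  rw [le_div_iff₀ (by positivity)]
  generalize ‖S.sct G (j + (N + r) + 2) w i z‖ * δ ^ (N + r) = t at *
  have : t ^ 2 ≤ B / c := by rw [le_div_iff₀ hc]; linarith
  nlinarith [sq_nonneg (t - 1), sq_nonneg t]

theorem Fam.Good.graph (H : S.Good h b τ C) (j : ℕ) (C₀ : ℝ) {x : X} (hx : x ∈ S.U)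
    (hb : S.g x ∈ Bl b (τ / 4)) {θ : ℝ} (hθ : 0 < θ) : ∀ᶠ ε in 𝓝[>] (0 : ℝ), ∀ R G,
      -Real.log (τ / 2) ≤ R → (S.D b τ).Hol G →
      (∀ i, S.dist j (N + r + 1) ε b τ G (S.cf h b τ R) i ≤ ENNReal.ofReal C₀) →
        ‖G (x, S.g x) - h x‖ ≤ θ := by
  have hτ := H.τ_pos
  obtain ⟨i, z, hz, rfl⟩ := A.cover x
  obtain ⟨y₀, hy₀⟩ : ∃ y₀, y₀ = ap z (S.g (A.p i z)) := ⟨_, rfl⟩
  have q1 : pr1 N r y₀ = z := by rw [hy₀, pr1_ap]
  have q2 : pr2 N r y₀ = S.g (A.p i z) := by rw [hy₀, pr2_ap]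
  have hb' : nsq (S.g (A.p i z) - b) < τ / 4 := hb
  have hW : y₀ ∈ (S.D b τ).W i := ⟨by rw [q1]; exact ⟨hz, hx⟩, by
    rw [q2]; exact lt_trans hb' (by linarith)⟩
  have d1 : DifferentiableAt ℂ (fun y => S.g (A.p i (pr1 N r y))) y₀ :=
    DifferentiableAt.comp (g := fun y => S.g (A.p i y)) y₀
      (by rw [q1]; exact (S.g_hol hz hx).self_of_nhds) (pr1 N r).differentiableAt
  have d2 := d1.sub (pr2 N r).differentiableAt
  obtain ⟨Λ, hΛ, d3⟩ := d2.isBigO_sub.exists_pos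
  have d4 : ∀ᶠ y in 𝓝 y₀, nsq (S.g (A.p i (pr1 N r y)) - b) < τ / 4 :=
    (nsq_smooth.continuous.continuousAt.comp (d1.continuousAt.sub continuousAt_const)).eventually_lt
      continuousAt_const (by
        change nsq (S.g (A.p i (pr1 N r y₀)) - b) < τ / 4
        rw [q1]; exact hb')
  have d5 : ∀ᶠ y in 𝓝 y₀, nsq (pr2 N r y - b) < τ / 4 :=
    (nr6_cont b).continuousAt.eventually_lt continuousAt_const (by rw [q2]; exact hb')
  obtain ⟨K, k1, k2, k3⟩ := exists_compact_subset (A.C i).isOpen hz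
  obtain ⟨c, B₀, hc, -, hcb⟩ := cpt_bds L k1 k3
  have d6 : ∀ᶠ y in 𝓝 y₀, pr1 N r y ∈ K := (pr1 N r).continuous.continuousAt
    (by rw [q1]; exact mem_interior_iff_mem_nhds.1 k2)
  obtain ⟨δ, hδ, hall⟩ := Metric.eventually_nhds_iff_ball.1 (((d3.bound.and d4).and
    (d5.and d6)).and (((S.D b τ).isOpen i).mem_nhds hW))
  obtain ⟨c₀, hc₀, hmv⟩ := mv_rad (N := N + r)
  obtain ⟨a, ha⟩ : ∃ a, a = Real.exp (j * Real.log (1 + r * 2 ^ 2) + j * -Real.log (τ / 2) +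
      (N + r + 1 : ℕ)) * (r * Λ ^ 2 + 1) ^ (N + r + 1) / c := ⟨_, rfl⟩
  have ha0 : 0 < a := by rw [ha]; positivity
  have t0 : ∀ q : ℝ, 0 < q → ∀ p : ℝ, ∀ᶠ ε in 𝓝[>] (0 : ℝ), p * ε < q := fun q hq p =>
    nhdsWithin_le_nhds ((continuous_const.mul continuous_id).continuousAt.eventually_lt
      continuousAt_const (by simpa using hq))
  filter_upwards [self_mem_nhdsWithin, t0 _ (pow_pos hδ 2) 1, t0 _ hτ (2 * (r * Λ ^ 2)),
    t0 _ (mul_pos hc₀ (pow_pos hθ 2)) (a * |C₀|)] with ε e0 e1 e2 e3 R G hR hG hi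
  have e0 : 0 < ε := e0
  have hs := Real.sqrt_pos.2 e0
  have hsδ : √ε ≤ δ := Real.sqrt_le_iff.2 ⟨hδ.le, by linarith⟩
  have hT : ∀ y ∈ ball y₀ √ε, S.T ((S.D b τ).p i y) ≤ r * Λ ^ 2 * ε := fun y hy => by
    have a1 := (hall y (ball_subset_ball hsδ hy)).1.1.1
    simp only [Pi.sub_apply, q1, q2, sub_self, sub_zero] at a1
    have a2 : ‖y - y₀‖ ^ 2 ≤ ε := by
      rw [← Real.sq_sqrt e0.le]
      exact pow_le_pow_left₀ (norm_nonneg _) (mem_ball_iff_norm.1 hy).le 2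
    refine (nsq_le _).2.trans ?_
    rw [mul_assoc]
    refine mul_le_mul_of_nonneg_left ((pow_le_pow_left₀ (norm_nonneg _) a1 2).trans ?_)
      (Nat.cast_nonneg r)
    rw [mul_pow]
    gcongr
  have hβ : ∀ y ∈ ball y₀ √ε, bet b τ ((S.D b τ).p i y) ≤ -Real.log (τ / 2) := fun y hy => by
    have a1 := (hall y (ball_subset_ball hsδ hy)).1.2.1
    exact neg_le_neg (Real.log_le_log (half_pos hτ) (by
      change _ ≤ τ - nsq (pr2 N r y - b)
      linarith))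
  have h3 := hmv (fun y => G (A.p i (pr1 N r y), pr2 N r y) - h (A.p i (pr1 N r y))) y₀ √ε
    (a * ε ^ (N + r + 1) * |C₀| + 0 * (volume (ball y₀ √ε)).toReal) hs (by positivity)
    (fun y hy => by
      obtain ⟨⟨⟨-, a1⟩, -⟩, a2⟩ := hall y (ball_subset_ball hsδ hy)
      exact (((hG i).differentiableAt (((S.D b τ).isOpen i).mem_nhds a2)).sub
        ((H.hol i _ a2.1.1 a2.1.2 (by linarith)).comp y
          (pr1 N r).differentiableAt)).differentiableWithinAt)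
    (nr6_int measurableSet_ball (fun y hy => (hall y (ball_subset_ball hsδ hy)).2)
      measure_ball_lt_top.ne (by positivity) le_rfl (fun y _ => by positivity)
      (fun y hy => ?_) (hi i))
  · rw [q1, q2, zero_mul, add_zero, mul_pow, ← pow_mul, mul_comm (N + r) 2, pow_mul,
      Real.sq_sqrt e0.le, pow_succ ε] at h3
    refine le_of_sq_le_sq ?_ hθ.le
    have a1 : 0 < ε ^ (N + r) := by positivity
    refine le_of_mul_le_mul_left (le_of_mul_le_mul_right ?_ a1) hc₀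
    have a2 := mul_le_mul_of_nonneg_right e3.le a1.le
    linarith
  obtain ⟨⟨⟨-, a1⟩, -, a3⟩, a2⟩ := hall y (ball_subset_ball hsδ hy)
  have a4 := hT y hy
  have a5 := hβ y hy
  have a6 : S.cf h b τ R ((S.D b τ).p i y) = h (A.p i (pr1 N r y)) :=
    (H.cf_bd R _).2 a2.1.2 a2.2 (a5.trans hR) (by linarith)
  have a7 : S.φ (A.p i (pr1 N r y)) ≤ Real.log (1 + r * 2 ^ 2) := by
    have b0 := (sq_nonneg _).trans (nsq_le (S.g (A.p i (pr1 N r y)))).1
    refine Real.log_le_log (by linarith) (add_le_add le_rfl ((nsq_le _).2.trans ?_))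
    have b1 := (nsq_le _).1.trans a1.le
    have b2 := H.τ_le
    have b3 := H.b_le
    have b4 := norm_add_le (S.g (A.p i (pr1 N r y)) - b) b
    rw [sub_add_cancel] at b4
    have b5 : ‖S.g (A.p i (pr1 N r y)) - b‖ ≤ 1 := by
      nlinarith [norm_nonneg (S.g (A.p i (pr1 N r y)) - b)]
    gcongr
    linarith
  have a8 : rho (Real.log (S.T ((S.D b τ).p i y) + ε)) ≤ Real.log ((r * Λ ^ 2 + 1) * ε) + 1 := by
    have b0 : 0 ≤ S.T ((S.D b τ).p i y) := (sq_nonneg _).trans (nsq_le _).1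
    refine (rho_bd _).2.1.trans (add_le_add (Real.log_le_log (by linarith) (by linarith)) le_rfl)
  have a9 : 1 ≤ a * ε ^ (N + r + 1) * (Real.exp (-S.Φ j (N + r + 1) ε b τ ((S.D b τ).p i y)) *
      ‖((A.C i).σ (pr1 N r y)).det‖) := by
    have b1 : S.Φ j (N + r + 1) ε b τ ((S.D b τ).p i y) = j * S.φ (A.p i (pr1 N r y)) +
        j * bet b τ ((S.D b τ).p i y) +
        (N + r + 1 : ℕ) * rho (Real.log (S.T ((S.D b τ).p i y) + ε)) := rfl
    have b2 : Real.exp (S.Φ j (N + r + 1) ε b τ ((S.D b τ).p i y)) ≤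
        a * ε ^ (N + r + 1) * c := by
      have b3 : ((r * Λ ^ 2 + 1) * ε) ^ (N + r + 1) =
          Real.exp ((N + r + 1 : ℕ) * Real.log ((r * Λ ^ 2 + 1) * ε)) := by
        rw [Real.exp_nat_mul, Real.exp_log (by positivity)]
      rw [ha, mul_right_comm, div_mul_cancel₀ _ hc.ne', mul_assoc, ← mul_pow, b3, ← Real.exp_add,
        b1]
      refine Real.exp_le_exp.2 ?_
      have b4 := mul_le_mul_of_nonneg_left a7 (Nat.cast_nonneg (α := ℝ) j)
      have b5 := mul_le_mul_of_nonneg_left a5 (Nat.cast_nonneg (α := ℝ) j)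
      have b6 := mul_le_mul_of_nonneg_left a8 (Nat.cast_nonneg (α := ℝ) (N + r + 1))
      rw [mul_add, mul_one] at b6
      exact (add_le_add (add_le_add b4 b5) b6).trans_eq (by ring)
    have b7 := (hcb _ a3).1
    rw [Real.exp_neg, mul_left_comm, ← div_eq_inv_mul, one_le_div (Real.exp_pos _)]
    exact b2.trans (by gcongr)
  rw [a6, add_zero, ← mul_assoc]
  exact le_mul_of_one_le_left (sq_nonneg _) a9

end Pool.Agent.BP
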