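import Pool.Agent.P.MP_63735c_ag.NR5
import Pool.Agent.P.MP_63735c_ag.NR6
import Pool.Agent.P.MP_63735c_ag.NR7
import Pool.Agent.P.MP_63735c_ag.BPE3

/-! Functions near a fibre come from the image. -/

open scoped ComplexOrder ContDiff Matrix Topology ENNReal
open Set Metric MeasureTheory Filter

namespace Pool.Agent.BP

open Pool.Agent.SPF Pool.Agent.CL Pool.Agent.NL Pool.Agent.CK Pool.Agent.AB Pool.Agent.SE

variable {N : ℕ} {X : Type} [TopologicalSpace X] [MeasurableSpace X] [BorelSpace X] [T2Space X]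
  [CompactSpace X] {A : Atlas X N} {L : Line A} {k : ℕ} {μ : Measure X} {K : Form11 A}

theorem nr_lim (hμ : IsVolume A μ) (hK : ∀ i, ∀ z ∈ (A.C i).W, (K.h i z).PosDef) (r : ℕ) :
    ∃ e : ℕ, 1 ≤ e ∧ ∃ (m : ℕ) (t : Fin m → A.ι → E N → ℂ), (∀ a, L.IsSection (k * e) (t a)) ∧
      ∀ (S : Fam L k r) (h : X → ℂ) (b : E r) (τ C : ℝ), S.Good h b τ C →
        ∃ u : E r → E m, DifferentiableOn ℂ u (Bl b (τ / 4)) ∧ ∀ i, ∀ z ∈ (A.C i).W,
          A.p i z ∈ S.U → S.g (A.p i z) ∈ Bl b (τ / 4) →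
            h (A.p i z) * S.s₀ i z ^ e = ∑ a, u (S.g (A.p i z)) a * t a i z := by
  obtain ⟨j, -, hj⟩ := nr_out r (N + r + 1)
  obtain ⟨m, c, ζ, t, t1, t2, t3⟩ := sec_span L (k * (j + (N + r) + 2))
  refine ⟨j + (N + r) + 2, by omega, m, t, t2, fun S h b τ C H => ?_⟩
  obtain ⟨C₀, -, h1⟩ := hj S h b τ C hμ hK H
  choose! R R1 G G1 G2 using fun ε (hε : 0 < ε ∧ ε ≤ 1) => h1 ε hε.1 hε.2 (-Real.log (τ / 2))
  choose B hB using fun a => H.bound j (N + r + 1) C₀ (t1 a)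
  obtain ⟨B₀, hB₀⟩ := (finite_range B).bddAbove
  let 𝒰 := Ultrafilter.of (𝓝[>] (0 : ℝ))
  have hU : (𝒰 : Filter ℝ) ≤ 𝓝[>] 0 := Ultrafilter.of_le _
  have hε : ∀ᶠ ε in (𝒰 : Filter ℝ), 0 < ε ∧ ε ≤ 1 := hU (Ioc_mem_nhdsGT one_pos)
  have hs : Bl b (τ / 4) ⊆ Bl b τ := fun w hw =>
    (show nsq (w - b) < τ / 4 from hw).trans (by linarith [H.τ_pos])
  obtain ⟨u, u1, u2⟩ := hol_ulim 𝒰 (Bl_open b (τ / 4)) (M := |B₀|)
    (f := fun ε w a => S.sct (G ε) (j + (N + r) + 2) w (c a) (ζ a)) (hε.mono fun ε he =>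
      ⟨differentiableOn_pi.2 fun a => (((H.ext (G1 ε he) (G2 ε he)).1 (c a)).comp
        (f := fun w => ap (ζ a) w) ((spl N r).symm.differentiable.comp
          ((differentiable_const _).prodMk differentiable_id)).differentiableOn
        fun w hw => ⟨by rw [pr1_ap]; exact t1 a, by rw [pr2_ap]; exact hs hw⟩).congr
          fun w _ => by simp only [Function.comp, pr1_ap, pr2_ap],
      fun w hw => (pi_norm_le_iff_of_nonneg (abs_nonneg _)).2 fun a =>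
        (hB a ε _ _ (G1 ε he) (G2 ε he) w hw).trans ((hB₀ ⟨a, rfl⟩).trans (le_abs_self _))⟩)
  refine ⟨u, u1, fun i z hz hx hg => ?_⟩
  have l1 : Tendsto (fun ε => G ε (A.p i z, S.g (A.p i z))) 𝒰 (𝓝 (h (A.p i z))) :=
    Metric.tendsto_nhds.2 fun θ hθ => by
      filter_upwards [hε, hU (H.graph j C₀ hx hg (half_pos hθ))] with ε he h2
      exact (dist_eq_norm _ _).trans_lt
        ((h2 _ _ (R1 ε he) (G1 ε he) (G2 ε he)).trans_lt (half_lt_self hθ))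
  refine tendsto_nhds_unique (l1.mul_const _) ((tendsto_finsetSum _ fun a _ =>
    (tendsto_pi_nhds.1 (u2 _ hg).1 a).mul_const (t a i z)).congr' (hε.mono fun ε he => ?_))
  exact (t3 _ ((H.ext (G1 ε he) (G2 ε he)).2 _ (hs hg)) i z hz).symm

omit [MeasurableSpace X] [BorelSpace X] [T2Space X] [CompactSpace X] in
theorem nr8_mul {l : ℕ} {s t : A.ι → E N → ℂ} (hs : L.IsSection k s) (ht : L.IsSection l t) :
    L.IsSection (k + l) fun i z => s i z * t i z :=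
  ⟨fun i => (hs.1 i).mul (ht.1 i), fun i j z hz y hy e => by
    simp only [hs.2 i j z hz y hy e, ht.2 i j z hz y hy e]
    ring⟩

omit [MeasurableSpace X] [BorelSpace X] [T2Space X] [CompactSpace X] in
theorem nr8_lin {s t : A.ι → E N → ℂ} (hs : L.IsSection k s) (ht : L.IsSection k t) (c : ℂ) :
    L.IsSection k fun i z => s i z - c * t i z :=
  ⟨fun i => (hs.1 i).sub ((ht.1 i).const_mul c), fun i j z hz y hy e => by
    simp only [hs.2 i j z hz y hy e, ht.2 i j z hz y hy e]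
    ring⟩

theorem nr_stein (hinj : ∀ i, InjOn (A.p i) (A.C i).W) (hμ : IsVolume A μ)
    (hK : ∀ i, ∀ z ∈ (A.C i).W, (K.h i z).PosDef) (hb : Bpf L k) :
    ∃ e : ℕ, 1 ≤ e ∧ ((∀ x, Fibre L (k * e) x = Fibre L k x) → IsStein L (k * e)) := by
  obtain ⟨r, c, ζ, s, -, s2, s3⟩ := sec_span L k
  obtain ⟨e, he, m, t, t1, ht⟩ := nr_lim (L := L) (k := k) hμ hK r
  refine ⟨e, he, fun hF x V h hV hxV hh => ?_⟩
  rw [hF] at hxV ⊢
  have nz : ∀ i, ∀ z ∈ (A.C i).W, ∃ l, s l i z ≠ 0 := fun i z hz => by_contra fun hn => by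
    obtain ⟨T, a1, a2⟩ := hb (A.p i z)
    push Not at hn
    exact a2 ((van_iff a1 hz).2 (by simp [s3 T a1 i z hz, hn]))
  obtain ⟨i₀, z₀, hz₀, rfl⟩ := A.cover x
  obtain ⟨l₁, hl₁⟩ := nz i₀ z₀ hz₀
  obtain ⟨l₀, hl₀⟩ := @Finite.exists_max _ ℝ _ ⟨l₁⟩ _ fun l => ‖s l i₀ z₀‖
  have h0 : 0 < ‖s l₀ i₀ z₀‖ := (norm_pos_iff.2 hl₁).trans_le (hl₀ l₁)
  let S : Fam L k r := ⟨s l₀, s, hinj, s2 l₀, s2, fun i z hz _ => nz i z hz⟩
  set b := S.g (A.p i₀ z₀) with hbd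
  have hb1 : ‖b‖ ≤ 1 := (pi_norm_le_iff_of_nonneg zero_le_one).2 fun l => by
    rw [hbd, S.g_eq hz₀, norm_div]
    exact (div_le_one h0).2 (hl₀ l)
  have hfib : ∀ y, y ∈ Fibre L k (A.p i₀ z₀) ↔ y ∈ S.U ∧ S.g y = b := fun y => by
    obtain ⟨i, z, hz, rfl⟩ := A.cover y
    rw [S.U_iff hz, hbd, S.g_eq hz, S.g_eq hz₀]
    have n0 : s l₀ i₀ z₀ ≠ 0 := norm_pos_iff.1 h0
    constructor
    · intro hy
      have n1 : s l₀ i z ≠ 0 := fun e =>
        n0 ((van_iff (s2 l₀) hz₀).1 ((hy _ (s2 l₀)).1 ((van_iff (s2 l₀) hz).2 e)))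
      refine ⟨n1, funext fun l => ?_⟩
      have a1 := nr8_lin (s2 l) (s2 l₀) (s l i₀ z₀ / s l₀ i₀ z₀)
      have a2 := (van_iff a1 hz).1 ((hy _ a1).2 ((van_iff a1 hz₀).2 (by field_simp; ring)))
      exact (div_eq_iff n1).2 (sub_eq_zero.1 a2)
    · rintro ⟨n1, hy⟩ T hT
      have a1 : T i z / s l₀ i z = T i₀ z₀ / s l₀ i₀ z₀ := by
        rw [s3 T hT i z hz, s3 T hT i₀ z₀ hz₀, Finset.sum_div, Finset.sum_div]
        exact Finset.sum_congr rfl fun a _ => by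
          rw [mul_div_assoc, mul_div_assoc]
          exact congrArg _ (congrFun hy a)
      rw [van_iff hT hz, van_iff hT hz₀]
      exact (div_eq_zero_iff.trans (or_iff_left n1)).symm.trans
        (a1 ▸ div_eq_zero_iff.trans (or_iff_left n0))
  have hn : Continuous fun w : E r => nsq (w - b) :=
    nsq_smooth.continuous.comp (continuous_id.sub continuous_const)
  have hc : ∀ τ, IsCompact {y | y ∈ S.U ∧ nsq (S.g y - b) ≤ τ} := fun τ => by
    have a1 := S.cpt (2 * τ + 2 * nsq b)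
    have a2 := (hn.comp_continuousOn (S.g_cont.mono fun y (hy : y ∈ S.U ∧ _) => hy.1)
      ).preimage_isClosed_of_isClosed a1.isClosed (isClosed_Iic (a := τ))
    refine (congrArg IsCompact (Set.ext fun y => ?_)).mp
      (a1.of_isClosed_subset a2 inter_subset_left)
    have : nsq (S.g y - b + b) ≤ 2 * nsq (S.g y - b) + 2 * nsq b := bpe3_add _ _
    rw [sub_add_cancel] at this
    exact ⟨fun a => ⟨a.1.1, a.2⟩, fun a => ⟨⟨a.1, by linarith [a.2]⟩, a.2⟩⟩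
  obtain ⟨τ, τ0, τ1, τ2⟩ : ∃ τ : ℝ, 0 < τ ∧ τ ≤ 1 ∧
      ∀ y ∈ S.U, nsq (S.g y - b) ≤ 4 * τ → y ∈ V := by
    obtain ⟨d, d0, d1⟩ := ((hc 4).diff hV).exists_forall_le' (a := 0)
      (hn.comp_continuousOn (S.g_cont.mono fun y hy => hy.1.1)) fun y hy =>
        (pow_pos (norm_pos_iff.2 (sub_ne_zero.2 fun e =>
          hy.2 (hxV ((hfib y).2 ⟨hy.1.1, e⟩)))) 2).trans_le (norm_sq_le_nsq _)
    refine ⟨min 1 (d / 8), by positivity, min_le_left _ _, fun y a1 a2 => by_contra fun a3 => ?_⟩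
    have := d1 y ⟨⟨a1, by linarith [min_le_left 1 (d / 8)]⟩, a3⟩
    simp only [Function.comp] at this
    linarith [min_le_right 1 (d / 8)]
  have hd : ∀ i, ∀ z ∈ (A.C i).W, A.p i z ∈ V → DifferentiableAt ℂ (fun w => h (A.p i w)) z :=
    fun i z hz a => (hh i).differentiableAt
      (((A.cont i).isOpen_inter_preimage (A.C i).isOpen hV).mem_nhds ⟨hz, a⟩)
  obtain ⟨C, hC⟩ := (hc (4 * τ)).exists_bound_of_continuousOn (f := h) fun y hy => by
    obtain ⟨i, z, hz, rfl⟩ := A.cover y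
    refine ContinuousAt.continuousWithinAt ?_
    rw [ContinuousAt, ← bpd2_map hz, tendsto_map'_iff]
    exact (hd i z hz (τ2 _ hy.1 hy.2)).continuousAt
  obtain ⟨u, u1, u2⟩ := ht S h b τ C
    ⟨hb1, τ0, τ1, fun i z hz a1 a2 => hd i z hz (τ2 _ a1 a2), fun y a1 a2 => hC y ⟨a1, a2⟩⟩
  obtain ⟨e, rfl⟩ : ∃ e', e = e' + 1 := ⟨e - 1, by omega⟩
  refine ⟨r + m, fun i z => s l₀ i z ^ (e + 1),
    fun l i z => ap (fun a => s a i z * s l₀ i z ^ e) (fun a => t a i z) l,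
    S.U ∩ S.g ⁻¹' Bl b (τ / 4), pr1 r m ⁻¹' Bl b (τ / 4),
    fun w => ∑ a, u (pr1 r m w) a * pr2 r m w a, sec_pow (s2 l₀) _, fun l => ?_,
    S.g_cont.isOpen_inter_preimage S.U_open (Bl_open _ _), fun y hy => ?_,
    (Bl_open _ _).preimage (pr1 r m).continuous, ?_, fun i z hz hO => ?_⟩
  · obtain ⟨a | a, rfl⟩ := finSumFinEquiv.surjective l
    · have := nr8_mul (s2 a) (sec_pow (s2 l₀) e)
      rw [show k + k * e = k * (e + 1) by ring] at this
      simpa [ap, spl] using this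
    · simpa [ap, spl] using t1 a
  · obtain ⟨a1, a2⟩ := (hfib y).1 hy
    refine ⟨a1, ?_⟩
    simpa [Bl, a2, nsq] using τ0
  · exact DifferentiableOn.fun_sum fun a _ => (differentiableOn_pi.1 (u1.comp
      (pr1 r m).differentiableOn fun w hw => hw) a).mul
        (differentiableOn_pi.1 (pr2 r m).differentiableOn a)
  · have n1 : s l₀ i z ≠ 0 := (S.U_iff hz).1 hO.1
    have e1 : (fun l => ap (fun a => s a i z * s l₀ i z ^ e) (fun a => t a i z) l /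
        s l₀ i z ^ (e + 1)) = ap (S.g (A.p i z)) fun a => t a i z / s l₀ i z ^ (e + 1) := by
      funext l
      obtain ⟨a | a, rfl⟩ := finSumFinEquiv.surjective l
      · simp [ap, spl, S.g_eq hz, S]
        field_simp
        ring
      · simp [ap, spl]
    refine ⟨pow_ne_zero _ n1, ?_, ?_⟩
    · rw [e1, mem_preimage, pr1_ap]
      exact hO.2
    · rw [e1, ← mul_div_cancel_right₀ (h _) (pow_ne_zero (e + 1) n1)]
      refine (congrArg (· / _) (u2 i z hz hO.1 hO.2)).trans ?_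
      simp only [Finset.sum_div, mul_div_assoc, pr1_ap, pr2_ap]

end Pool.Agent.BP
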