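import Pool.Agent.P.MP_63735c_ag.FBA
import Pool.Agent.P.MP_63735c_ag.NR8

/-! A power of `L` defines a Lagrangian fibration over its image. -/

open scoped ComplexOrder ContDiff Matrix Topology ENNReal
open Set Metric MeasureTheory Filter

namespace Pool.Agent.BP

open Pool.Agent.SPF Pool.Agent.CL Pool.Agent.NL Pool.Agent.CK Pool.Agent.AB Pool.Agent.SE

variable {N n : ℕ} {X : Type} [TopologicalSpace X] [MeasurableSpace X] {A : Atlas X N}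
  {μ : Measure X} {L : Line A} {K : Form11 A} [T2Space X] [CompactSpace X] [BorelSpace X]

theorem Ctx.full (Γ : Ctx μ K L n) : ∃ k : ℕ, 1 ≤ k ∧ Bpf L k ∧ IsStein L k ∧
    ∀ x, IsConnected (Fibre L k x) ∧ IsLag A n (Fibre L k x) := by
  obtain ⟨l, hl, h⟩ := Γ.fibre
  obtain ⟨e, he, h1⟩ := nr_stein Γ.U.hinj Γ.vol Γ.K_pos (Γ.bpf_mul l)
  have hb := (Γ.bpf_mul l).mul e
  have h2 : ∀ x, Fibre L (Γ.U.m * (Γ.d * l) * e) x = Fibre L (Γ.U.m * (Γ.d * l)) x := fun x => by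
    refine Subset.antisymm ?_ ?_
    · rw [fibre_eq hb, fibre_eq (Γ.bpf_mul l)]
      exact fun y hy a => hy (a.mul he)
    · rw [h, fibre_eq hb, mul_assoc, mul_assoc]
      exact fun y hy => hy _ (Nat.mul_pos hl he)
  refine ⟨_, Nat.mul_pos (Nat.mul_pos Γ.U.m_pos (Nat.mul_pos Γ.d_pos hl)) he, hb, h1 h2,
    fun x => ?_⟩
  obtain ⟨U, hU⟩ := Γ.ult x
  have hW : Γ.F.W ∈ U := hU self_mem_nhdsWithin
  rw [h2, h, ← Γ.lim_eq U hU]
  exact ⟨⟨⟨x, Fib.mem_lim (hU.trans nhdsWithin_le_nhds)⟩, Fib.lim_conn Γ.U.hinj Γ.tor U hW⟩,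
    Fib.lim_lag Γ.U.hinj Γ.tor (Fib.pack Γ.U.hinj Γ.K_pos Γ.tor) U hW⟩

end Pool.Agent.BP
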