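import Pool.Agent.P.MP_63735c_ag.BPA8
import Pool.Agent.P.MP_63735c_ag.NR9

open scoped ComplexOrder
open MeasureTheory Pool.Agent.SPF Pool.Agent.NL Pool.Agent.CK Pool.Agent.HS Pool.Agent.SE
  Pool.Agent.BP

namespace Pool.Agent.BP.Kept

theorem fibration_kept (n : ℕ) (hn : 1 ≤ n) (X : Type) [TopologicalSpace X] [T2Space X] [CompactSpace X]
    [PreconnectedSpace X] (A : Atlas X (2 * n)) (hinj : ∀ i, Set.InjOn (A.p i) (A.C i).W)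
    (hO : NoOdd A) (h1 : H1 A) (h2 : H02 A) [MeasurableSpace X] [BorelSpace X] (μ : Measure X)
    (hμ : IsVolume A μ) (K : Form11 A) (hK : ∀ i, ∀ z ∈ (A.C i).W, (K.h i z).PosDef)
    (H : BBF n A μ K) (hL : H.Isotropic) (L : Line A)
    (hη : ∃ i, ∃ z ∈ (A.C i).W, (A.C i).η z ≠ 0) :
    ∃ k : ℕ, 1 ≤ k ∧ (∀ x, ∃ s, L.IsSection k s ∧ ¬ Van A s x) ∧ IsStein L k ∧
      ∀ x, IsConnected (Fibre L k x) ∧ IsLag A n (Fibre L k x) := by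
  obtain ⟨S⟩ := exists_sys hn hinj hO hμ hK hL L hη
  obtain ⟨Γ⟩ := S.exists_ctx hμ h1 h2 hη
  exact Γ.full

end Pool.Agent.BP.Kept
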