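import Pool.Agent.P.MP_63735c_ag.Defs

/-! The crystallographic group with point group `D4`. -/

set_option autoImplicit false

open Set

noncomputable section

namespace Pool.Agent.P.MP_63735c_ag

abbrev Λ : Type := Fin 4 → GaussianInt

def cv (l : Λ) : V := fun j => (l j : ℂ)

def T (l : Λ) : Equiv.Perm V := Equiv.addRight (cv l)

def R : Equiv.Perm V where
  toFun z := ![-z 1, z 0, -z 3, z 2]
  invFun z := ![z 1, -z 0, z 3, -z 2]
  left_inv z := by funext j; fin_cases j <;> simp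
  right_inv z := by funext j; fin_cases j <;> simp

def S : Equiv.Perm V where
  toFun z := ![z 0 + 1 / 2, -z 1 + 1 / 2, z 3 - 1 / 2, z 2 + 1 / 2]
  invFun z := ![z 0 - 1 / 2, -z 1 + 1 / 2, z 3 - 1 / 2, z 2 + 1 / 2]
  left_inv z := by funext j; fin_cases j <;> simp
  right_inv z := by funext j; fin_cases j <;> simp

lemma T_apply (l : Λ) (z : V) : T l z = z + cv l := rfl
lemma R_apply (z : V) : R z = ![-z 1, z 0, -z 3, z 2] := rfl
lemma S_apply (z : V) : S z = ![z 0 + 1 / 2, -z 1 + 1 / 2, z 3 - 1 / 2, z 2 + 1 / 2] := rfl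

lemma T_mul (l m : Λ) : T l * T m = T (l + m) := by
  ext z j; simp [T_apply, cv]; ring

lemma T_zero : T 0 = 1 := by ext z j; simp [T_apply, cv]

lemma R_T (l : Λ) : R * T l = T ![-l 1, l 0, -l 3, l 2] * R := by
  ext z j; fin_cases j <;> simp [T_apply, R_apply, cv] <;> ring

lemma S_T (l : Λ) : S * T l = T ![l 0, -l 1, l 3, l 2] * S := by
  ext z j; fin_cases j <;> simp [T_apply, S_apply, cv] <;> ring

lemma R_R (z : V) : R (R z) = -z := by
  funext j; fin_cases j <;> simp [R_apply]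

lemma R_neg (z : V) : R (-z) = -R z := by
  funext j; fin_cases j <;> simp [R_apply]

lemma R_two (z : V) : (R ^ 2) z = -z := by simp [pow_succ, R_R]

lemma R_three (z : V) : (R ^ 3) z = -R z := by simp [pow_succ, R_R, R_neg]

lemma R_four : R ^ 4 = 1 := by
  ext1 z; simp [pow_succ, R_R]

lemma S_S : S * S = T ![1, 0, 0, 0] := by
  ext z j; fin_cases j <;> simp [T_apply, S_apply, cv]; ring

lemma S_R : S * R = T ![0, 1, -1, 0] * R ^ 3 * S := by
  ext z j
  simp only [Equiv.Perm.coe_mul, Function.comp, R_three]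
  fin_cases j <;> simp [T_apply, S_apply, R_apply, cv] <;> ring

lemma Rpow_T (k : ℕ) (l : Λ) : ∃ m, R ^ k * T l = T m * R ^ k := by
  induction k generalizing l with
  | zero => exact ⟨l, by simp⟩
  | succ k ih =>
    obtain ⟨m, hm⟩ := ih ![-l 1, l 0, -l 3, l 2]
    exact ⟨m, by rw [pow_succ, mul_assoc, R_T, ← mul_assoc, hm, mul_assoc]⟩

/-- the index two subgroup -/
def Gp : Subgroup (Equiv.Perm V) where
  carrier := {γ | ∃ l k, γ = T l * R ^ k}
  one_mem' := ⟨0, 0, by simp [T_zero]⟩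
  mul_mem' := by
    rintro _ _ ⟨l, k, rfl⟩ ⟨m, j, rfl⟩
    obtain ⟨m', hm⟩ := Rpow_T k m
    refine ⟨l + m', k + j, ?_⟩
    rw [← T_mul, pow_add, mul_assoc, ← mul_assoc (R ^ k), hm]; simp only [mul_assoc]
  inv_mem' := by
    rintro _ ⟨l, k, rfl⟩
    obtain ⟨m', hm⟩ := Rpow_T (3 * k) (-l)
    refine ⟨m', 3 * k, ?_⟩
    rw [← hm, inv_eq_iff_mul_eq_one, mul_assoc, ← mul_assoc (R ^ k), ← pow_add,
      show k + 3 * k = 4 * k by ring, pow_mul, R_four, one_pow, one_mul, T_mul, add_neg_cancel,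
      T_zero]

lemma T_mem (l : Λ) : T l ∈ Gp := ⟨l, 0, by simp⟩
lemma R_mem : R ∈ Gp := ⟨0, 1, by simp [T_zero]⟩

lemma S_conj {γ : Equiv.Perm V} (h : γ ∈ Gp) : ∃ δ ∈ Gp, S * γ = δ * S := by
  obtain ⟨l, k, rfl⟩ := h
  have : ∃ δ ∈ Gp, S * R ^ k = δ * S := by
    induction k with
    | zero => exact ⟨1, one_mem _, by simp⟩
    | succ k ih =>
      obtain ⟨δ, h1, h2⟩ := ih
      refine ⟨δ * (T ![0, 1, -1, 0] * R ^ 3), mul_mem h1 (mul_mem (T_mem _) (pow_mem R_mem _)), ?_⟩
      rw [pow_succ, ← mul_assoc, h2, mul_assoc, S_R, mul_assoc δ]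
  obtain ⟨δ, h1, h2⟩ := this
  exact ⟨_ * δ, mul_mem (T_mem _) h1, by rw [← mul_assoc, S_T, mul_assoc, h2, mul_assoc]⟩

lemma S_inv : S⁻¹ = T (-![1, 0, 0, 0]) * S := by
  rw [inv_eq_iff_mul_eq_one, ← mul_assoc, S_T, mul_assoc, S_S, T_mul, ← T_zero]
  congr 1
  funext j; fin_cases j <;> simp

/-- the full group -/
def G : Subgroup (Equiv.Perm V) where
  carrier := {γ | γ ∈ Gp ∨ ∃ δ ∈ Gp, γ = δ * S}
  one_mem' := Or.inl (one_mem _)
  mul_mem' := by
    rintro a b (ha | ⟨a, ha, rfl⟩) (hb | ⟨b, hb, rfl⟩)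
    · exact Or.inl (mul_mem ha hb)
    · exact Or.inr ⟨_, mul_mem ha hb, by rw [mul_assoc]⟩
    · obtain ⟨δ, h1, h2⟩ := S_conj hb
      exact Or.inr ⟨_, mul_mem ha h1, by rw [mul_assoc, h2, mul_assoc]⟩
    · obtain ⟨δ, h1, h2⟩ := S_conj hb
      refine Or.inl ?_
      rw [mul_assoc, ← mul_assoc S, h2, mul_assoc, S_S]
      exact mul_mem ha (mul_mem h1 (T_mem _))
  inv_mem' := by
    rintro a (ha | ⟨a, ha, rfl⟩)
    · exact Or.inl (inv_mem ha)
    · obtain ⟨δ, h1, h2⟩ := S_conj (inv_mem ha)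
      exact Or.inr ⟨_, mul_mem (T_mem _) h1, by rw [mul_inv_rev, S_inv, mul_assoc, h2, mul_assoc]⟩

lemma Gp_le {γ : Equiv.Perm V} (h : γ ∈ Gp) : γ ∈ G := Or.inl h
lemma S_mem : S ∈ G := Or.inr ⟨1, one_mem _, by simp⟩

lemma Gp_cases {γ : Equiv.Perm V} (h : γ ∈ Gp) : ∃ l, (∀ z, γ z = z + cv l) ∨
    (∀ z, γ z = R z + cv l) ∨ (∀ z, γ z = -z + cv l) ∨ ∀ z, γ z = -R z + cv l := by
  obtain ⟨l, k, rfl⟩ := h
  refine ⟨l, ?_⟩
  rw [← Nat.div_add_mod k 4, pow_add, pow_mul, R_four, one_pow, one_mul]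
  have : k % 4 < 4 := Nat.mod_lt _ (by norm_num)
  interval_cases k % 4 <;> simp [T_apply, R_two, R_three]

/-- induction over the small group -/
lemma Gp_ind {P : Equiv.Perm V → Prop} (hT : ∀ l, P (T l)) (hR : P R)
    (hm : ∀ a b, P a → P b → P (a * b)) {γ : Equiv.Perm V} (h : γ ∈ Gp) : P γ := by
  obtain ⟨l, k, rfl⟩ := h
  induction k with
  | zero => simpa using hT l
  | succ k ih => rw [pow_succ, ← mul_assoc]; exact hm _ _ ih hR

lemma G_ind {P : Equiv.Perm V → Prop} (hT : ∀ l, P (T l)) (hR : P R) (hS : P S)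
    (hm : ∀ a b, P a → P b → P (a * b)) {γ : Equiv.Perm V} (h : γ ∈ G) : P γ := by
  rcases h with h | ⟨δ, h, rfl⟩
  · exact Gp_ind hT hR hm h
  · exact hm _ _ (Gp_ind hT hR hm h) hS

/-- linear part of `R` -/
def RL : V →L[ℂ] V := ContinuousLinearMap.pi
  ![-ContinuousLinearMap.proj 1, ContinuousLinearMap.proj 0, -ContinuousLinearMap.proj 3,
    ContinuousLinearMap.proj 2]

/-- linear part of `S` -/
def SL : V →L[ℂ] V := ContinuousLinearMap.pi
  ![ContinuousLinearMap.proj 0, -ContinuousLinearMap.proj 1, ContinuousLinearMap.proj 3,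
    ContinuousLinearMap.proj 2]

lemma RL_apply (z : V) : RL z = ![-z 1, z 0, -z 3, z 2] := by
  funext j; fin_cases j <;> simp [RL]

lemma SL_apply (z : V) : SL z = ![z 0, -z 1, z 3, z 2] := by
  funext j; fin_cases j <;> simp [SL]

lemma R_eq (z : V) : R z = RL z + 0 := by rw [RL_apply, add_zero]; rfl

lemma S_eq (z : V) : S z = SL z + ![1 / 2, 1 / 2, -1 / 2, 1 / 2] := by
  rw [SL_apply, S_apply]; funext j; fin_cases j <;> simp; ring

lemma affine {γ : Equiv.Perm V} (h : γ ∈ G) : ∃ (A : V →L[ℂ] V) (b : V), ∀ z, γ z = A z + b := by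
  refine G_ind (P := fun γ => ∃ (A : V →L[ℂ] V) (b : V), ∀ z, γ z = A z + b)
    (fun l => ⟨ContinuousLinearMap.id _ _, cv l, fun z => rfl⟩) ⟨_, _, R_eq⟩ ⟨_, _, S_eq⟩ ?_ h
  rintro a b ⟨A, x, hA⟩ ⟨B, y, hB⟩
  exact ⟨A.comp B, A y + x, fun z => by simp [hA, hB, add_assoc]⟩

lemma hasFDerivAt_of_affine {γ : V → V} {A : V →L[ℂ] V} {b : V} (h : ∀ z, γ z = A z + b) (z : V) :
    HasFDerivAt γ A z := by
  rw [show γ = fun z => A z + b from funext h]
  exact A.hasFDerivAt.add_const b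

lemma differentiable_of_mem {γ : Equiv.Perm V} (h : γ ∈ G) : Differentiable ℂ γ := by
  obtain ⟨A, b, h⟩ := affine h
  exact fun z => (hasFDerivAt_of_affine h z).differentiableAt

lemma isAbelianQuotient : IsAbelianQuotient G := by
  refine ⟨fun γ => affine, fun l => Gp_le (T_mem l),
    {1, R, R ^ 2, R ^ 3, S, R * S, R ^ 2 * S, R ^ 3 * S}, toFinite _, ?_⟩
  rintro γ (h | ⟨δ, h, rfl⟩) <;> obtain ⟨l, h | h | h | h⟩ := Gp_cases h
  · exact ⟨1, by simp, l, h⟩
  · exact ⟨R, by simp, l, h⟩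
  · exact ⟨R ^ 2, by simp, l, fun z => by rw [R_two]; exact h z⟩
  · exact ⟨R ^ 3, by simp, l, fun z => by rw [R_three]; exact h z⟩
  · exact ⟨S, by simp, l, fun z => h _⟩
  · exact ⟨R * S, by simp, l, fun z => h _⟩
  · exact ⟨R ^ 2 * S, by simp, l, fun z => by
      rw [Equiv.Perm.mul_apply, Equiv.Perm.mul_apply, R_two]; exact h _⟩
  · exact ⟨R ^ 3 * S, by simp, l, fun z => by
      rw [Equiv.Perm.mul_apply, Equiv.Perm.mul_apply, R_three]; exact h _⟩

lemma isometry_of_mem {γ : Equiv.Perm V} (h : γ ∈ G) : Isometry γ := by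
  refine G_ind (P := fun γ => Isometry γ) (fun l => isometry_add_right _) ?_ ?_
    (fun a b ha hb => ha.comp hb) h
  · refine Isometry.of_dist_eq fun x y => le_antisymm ?_ ?_
    · rw [dist_pi_le_iff dist_nonneg]
      intro j
      fin_cases j <;> simp [R_apply, dist_le_pi_dist]
    · rw [dist_pi_le_iff dist_nonneg]
      intro j
      fin_cases j
      · simpa [R_apply] using dist_le_pi_dist (R x) (R y) 1
      · simpa [R_apply] using dist_le_pi_dist (R x) (R y) 0
      · simpa [R_apply] using dist_le_pi_dist (R x) (R y) 3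
      · simpa [R_apply] using dist_le_pi_dist (R x) (R y) 2
  · refine Isometry.of_dist_eq fun x y => le_antisymm ?_ ?_
    · rw [dist_pi_le_iff dist_nonneg]
      intro j
      fin_cases j <;> simp [S_apply, dist_le_pi_dist]
    · rw [dist_pi_le_iff dist_nonneg]
      intro j
      fin_cases j
      · simpa [S_apply] using dist_le_pi_dist (S x) (S y) 0
      · simpa [S_apply] using dist_le_pi_dist (S x) (S y) 1
      · simpa [S_apply] using dist_le_pi_dist (S x) (S y) 3
      · simpa [S_apply] using dist_le_pi_dist (S x) (S y) 2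

lemma half_le (g : GaussianInt) (e : ℂ) (he : e = 1 / 2 ∨ e = -1 / 2) :
    1 / 2 ≤ ‖e + (g : ℂ)‖ := by
  refine le_trans ?_ (Complex.abs_re_le_norm _)
  rw [Complex.add_re, ← GaussianInt.intCast_re, le_abs]
  generalize g.re = a
  rcases he with rfl | rfl
  · rcases le_or_gt 0 a with h | h
    · have : (0 : ℝ) ≤ a := by exact_mod_cast h
      left; norm_num; linarith
    · have : (a : ℝ) ≤ -1 := by exact_mod_cast Int.le_sub_one_of_lt h
      right; norm_num; linarith
  · rcases le_or_gt a 0 with h | h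
    · have : (a : ℝ) ≤ 0 := by exact_mod_cast h
      right; norm_num; linarith
    · have : (1 : ℝ) ≤ a := by exact_mod_cast h
      left; norm_num; linarith

/-- elements outside the small group move every point -/
lemma half_le_dist {δ : Equiv.Perm V} (h : δ ∈ Gp) (z : V) : 1 / 2 ≤ dist (δ (S z)) z := by
  obtain ⟨l, h | h | h | h⟩ := Gp_cases h <;> rw [h]
  · refine le_trans ?_ (dist_le_pi_dist _ _ 0)
    refine (half_le (l 0) _ (Or.inl rfl)).trans (le_of_eq ?_)
    rw [dist_eq_norm]; congr 1; simp [S_apply, cv]; ring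
  · refine le_trans ?_ (dist_le_pi_dist _ _ 3)
    refine (half_le (l 3) _ (Or.inr rfl)).trans (le_of_eq ?_)
    rw [dist_eq_norm]; congr 1; simp [S_apply, R_apply, cv]; ring
  · refine le_trans ?_ (dist_le_pi_dist _ _ 1)
    refine (half_le (l 1) _ (Or.inr rfl)).trans (le_of_eq ?_)
    rw [dist_eq_norm]; congr 1; simp [S_apply, cv]; ring
  · refine le_trans ?_ (dist_le_pi_dist _ _ 2)
    refine (half_le (l 2) _ (Or.inl rfl)).trans (le_of_eq ?_)
    rw [dist_eq_norm]; congr 1; simp [S_apply, R_apply, cv]; ring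

/-- half periods -/
def Half : Set ℂ := {t | ∃ g : GaussianInt, 2 * t = g}

lemma mem_Fix {z : V} : z ∈ Fix G ↔ ∀ j, z j ∈ Half := by
  constructor
  · rintro ⟨γ, h | ⟨δ, h, rfl⟩, h1, h2⟩
    · obtain ⟨l, h | h | h | h⟩ := Gp_cases h
      · refine absurd (Equiv.ext fun w => ?_) h1
        rw [h] at h2
        simp [h, add_eq_left.1 h2]
      · rw [h] at h2
        have h0 := congrFun h2 0
        have h1 := congrFun h2 1
        have h3 := congrFun h2 3
        have h2 := congrFun h2 2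
        simp [R_apply, cv] at h0 h1 h2 h3
        intro j
        fin_cases j
        · exact ⟨l 0 - l 1, by simp; linear_combination -h0 + h1⟩
        · exact ⟨l 0 + l 1, by simp; linear_combination -h0 - h1⟩
        · exact ⟨l 2 - l 3, by simp; linear_combination -h2 + h3⟩
        · exact ⟨l 2 + l 3, by simp; linear_combination -h2 - h3⟩
      · rw [h] at h2
        intro j
        have h0 := congrFun h2 j
        simp [cv] at h0
        exact ⟨l j, by linear_combination -h0⟩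
      · rw [h] at h2
        have h0 := congrFun h2 0
        have h1 := congrFun h2 1
        have h3 := congrFun h2 3
        have h2 := congrFun h2 2
        simp [R_apply, cv] at h0 h1 h2 h3
        intro j
        fin_cases j
        · exact ⟨l 0 + l 1, by simp; linear_combination -h0 - h1⟩
        · exact ⟨l 1 - l 0, by simp; linear_combination h0 - h1⟩
        · exact ⟨l 2 + l 3, by simp; linear_combination -h2 - h3⟩
        · exact ⟨l 3 - l 2, by simp; linear_combination h2 - h3⟩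
    · have := half_le_dist h z
      rw [Equiv.Perm.mul_apply] at h2
      rw [h2, dist_self] at this
      norm_num at this
  · intro h
    choose l hl using h
    refine ⟨T l * R ^ 2, Gp_le (mul_mem (T_mem l) (pow_mem R_mem _)), fun h1 => ?_, ?_⟩
    · have h2 := congrFun (Equiv.ext_iff.1 h1 0) 0
      have h3 := congrFun (Equiv.ext_iff.1 h1 1) 0
      simp [T_apply, R_two] at h2 h3
      rw [h2] at h3
      norm_num at h3
    · funext j
      simp [T_apply, R_two, cv, ← hl j]; ring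

lemma proj_eq {γ : Equiv.Perm V} (h : γ ∈ G) (z : V) : proj G (γ z) = proj G z :=
  Quotient.sound ⟨⟨γ, h⟩, rfl⟩

lemma exists_of_proj_eq {z w : V} (h : proj G z = proj G w) : ∃ γ ∈ G, γ w = z := by
  obtain ⟨⟨γ, hγ⟩, h⟩ := Quotient.exact h
  exact ⟨γ, hγ, h⟩

lemma finite_Fix : (proj G '' Fix G).Finite := by
  let K : Set ℂ := {0, 1 / 2, Complex.I / 2, 1 / 2 + Complex.I / 2}
  refine ((Finite.pi' fun _ : Fin 4 => (toFinite K)).image (proj G)).subset ?_
  rintro _ ⟨z, hz, rfl⟩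
  choose l hl using mem_Fix.1 hz
  refine ⟨T (fun j => ⟨-((l j).re / 2), -((l j).im / 2)⟩) z, fun j => ?_, proj_eq (Gp_le (T_mem _)) z⟩
  have h1 : z j = (((l j).re : ℂ) + (l j).im * Complex.I) / 2 := by
    rw [← GaussianInt.toComplex_def, ← hl j]; ring
  simp only [T_apply, Pi.add_apply, cv, h1, GaussianInt.toComplex_def', K, mem_insert_iff,
    mem_singleton_iff]
  have ha := Int.emod_add_mul_ediv (l j).re 2
  have hb := Int.emod_add_mul_ediv (l j).im 2
  generalize (l j).re / 2 = a at *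
  generalize (l j).im / 2 = b at *
  rw [← ha, ← hb]
  rcases Int.emod_two_eq_zero_or_one (l j).re with h | h <;>
    rcases Int.emod_two_eq_zero_or_one (l j).im with h' | h' <;> rw [h, h'] <;> push_cast
  · left; ring
  · right; right; left; ring
  · right; left; ring
  · right; right; right; ring

end Pool.Agent.P.MP_63735c_ag
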