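import Pool.Agent.P.MP_63735c_ag.SEFA

/-! Abstract functional analysis for a symmetric operator with compact resolvent. -/

open scoped InnerProductSpace Topology
open Set Filter UniformSpace

namespace Pool.Agent.SE

variable {S : Type} [NormedAddCommGroup S] [InnerProductSpace ℂ S]

/-- Friedrichs' lemma in abstract form. -/
theorem fr (D : S →ₗ[ℂ] S) (R : ℕ → S →ₗ[ℂ] S) {C : ℝ} (a1 : ∀ n V, ‖R n V‖ ≤ C * ‖V‖)
    (a2 : ∀ V, Tendsto (fun n => R n V) atTop (𝓝 V))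
    (a3 : ∀ V, Tendsto (fun n => D (R n V) - R n (D V)) atTop (𝓝 0))
    (b : ∀ n V, ‖D (R n V) - R n (D V)‖ ≤ C * ‖V‖) {v : ℕ → S} (hv : CauchySeq v)
    (c : ∀ n, Tendsto (fun k => R n (D (v k))) atTop (𝓝 0)) :
    ∃ v' : ℕ → S, Tendsto (fun k => v' k - v k) atTop (𝓝 0) ∧
      Tendsto (fun k => D (v' k)) atTop (𝓝 0) := by
  have key : ∀ ε : ℝ, 0 < ε → ∃ m : ℕ, ∃ u : S, ‖D u‖ ≤ (|C| + 2) * ε ∧
      ∀ j ≥ m, ‖u - v j‖ ≤ (|C| + 2) * ε := by
    intro ε hε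
    obtain ⟨m, hm⟩ := Metric.cauchySeq_iff'.1 hv ε hε
    simp only [dist_eq_norm] at hm
    have e1 := (tendsto_iff_norm_sub_tendsto_zero.1 (a2 (v m))).eventually (gt_mem_nhds hε)
    have e2 := (tendsto_zero_iff_norm_tendsto_zero.1 (a3 (v m))).eventually (gt_mem_nhds hε)
    obtain ⟨n, n1, n2⟩ := (e1.and e2).exists
    obtain ⟨k, hk1, hk2⟩ := (((tendsto_zero_iff_norm_tendsto_zero.1 (c n)).eventually
      (gt_mem_nhds hε)).and (eventually_ge_atTop m)).exists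
    have hkm := hm k hk2
    have hb : C * ‖v k - v m‖ ≤ |C| * ε :=
      (mul_le_mul_of_nonneg_right (le_abs_self _) (norm_nonneg _)).trans
        (mul_le_mul_of_nonneg_left hkm.le (abs_nonneg _))
    refine ⟨m, R n (v k), ?_, fun j hj => ?_⟩
    · have e : D (R n (v k)) = (D (R n (v k - v m)) - R n (D (v k - v m))) +
          (D (R n (v m)) - R n (D (v m))) + R n (D (v k)) := by
        simp only [map_sub]; abel
      have b1 := b n (v k - v m)
      rw [e]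
      refine (norm_add_le _ _).trans ?_
      have b3 := norm_add_le (D (R n (v k - v m)) - R n (D (v k - v m)))
        (D (R n (v m)) - R n (D (v m)))
      linarith
    · have e : R n (v k) - v j = R n (v k - v m) + (R n (v m) - v m) - (v j - v m) := by
        simp only [map_sub]; abel
      have b1 := a1 n (v k - v m)
      rw [e]
      refine (norm_sub_le _ _).trans ?_
      have b3 := norm_add_le (R n (v k - v m)) (R n (v m) - v m)
      have b4 := hm j hj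
      linarith
  have key2 : ∀ j : ℕ, ∃ u : S, ∀ ε : ℝ,
      (∃ u' : S, ‖D u'‖ + ‖u' - v j‖ < ε) → ‖D u‖ + ‖u - v j‖ ≤ ε + 1 / ((j : ℝ) + 1) := by
    intro j
    have hbd : BddBelow (range fun u' : S => ‖D u'‖ + ‖u' - v j‖) :=
      ⟨0, by rintro _ ⟨u', rfl⟩; positivity⟩
    obtain ⟨u, hu⟩ := exists_lt_of_ciInf_lt (f := fun u' : S => ‖D u'‖ + ‖u' - v j‖)
      (lt_add_of_pos_right _ (show (0 : ℝ) < 1 / ((j : ℝ) + 1) by positivity))
    refine ⟨u, fun ε ⟨u', hu'⟩ => ?_⟩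
    have := ciInf_le hbd u'
    linarith
  choose u hu using key2
  have hlim : Tendsto (fun j => ‖D (u j)‖ + ‖u j - v j‖) atTop (𝓝 0) := by
    rw [Metric.tendsto_atTop]
    intro ε hε
    have hp : 0 < 2 * |C| + 5 := by positivity
    obtain ⟨m, u', hu1, hu2⟩ := key (ε / 2 / (2 * |C| + 5)) (by positivity)
    obtain ⟨m', hm'⟩ := eventually_atTop.1
      ((tendsto_one_div_add_atTop_nhds_zero_nat (𝕜 := ℝ)).eventually (gt_mem_nhds (half_pos hε)))
    refine ⟨max m m', fun j hj => ?_⟩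
    have b1 := hu2 j (le_of_max_le_left hj)
    have b2 := hm' j (le_of_max_le_right hj)
    have b3 : (2 * |C| + 5) * (ε / 2 / (2 * |C| + 5)) = ε / 2 := by field_simp
    have b4 : 0 < ε / 2 / (2 * |C| + 5) := by positivity
    have b5 := hu j (ε / 2) ⟨u', by nlinarith⟩
    rw [Real.dist_eq, sub_zero, abs_of_nonneg (by positivity)]
    linarith
  exact ⟨u, tendsto_zero_iff_norm_tendsto_zero.2 (squeeze_zero (fun _ => norm_nonneg _)
    (fun _ => le_add_of_nonneg_left (norm_nonneg _)) hlim),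
    tendsto_zero_iff_norm_tendsto_zero.2 (squeeze_zero (fun _ => norm_nonneg _)
    (fun _ => le_add_of_nonneg_right (norm_nonneg _)) hlim)⟩

/-- What elliptic theory gives. -/
structure Pkg (D : S →ₗ[ℂ] S) (Hol : Set S) : Prop where
  symm : ∀ V V', ⟪D V, V'⟫_ℂ = ⟪V, D V'⟫_ℂ
  re : TotallyBounded {V | ‖V‖ ≤ 1 ∧ ‖D V‖ ≤ 1}
  wh : ∀ v : ℕ → S, CauchySeq v → (∀ φ, Tendsto (fun k => ⟪D φ, v k⟫_ℂ) atTop (𝓝 0)) →
    ∃ V ∈ Hol, Tendsto v atTop (𝓝 V)

lemma idx_lim {Q : S →ₗ[ℂ] S} (sQ : ∀ V V', ⟪Q V, V'⟫_ℂ = ⟪V, Q V'⟫_ℂ) (hQ : ∀ V, Q (Q V) = V)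
    {v : ℕ → S} {V : S} (hv : Tendsto v atTop (𝓝 V)) (h : ∀ k, Q (v k) = -v k) : Q V = -V := by
  have h1 : Tendsto (fun k => Q (v k)) atTop (𝓝 (Q V)) :=
    ((Q.mkContinuous 1 (fun x => by rw [idx_iso sQ hQ, one_mul])).continuous.tendsto V).comp hv
  simp only [h] at h1
  exact tendsto_nhds_unique h1 hv.neg

lemma Pkg.strong {D : S →ₗ[ℂ] S} {Hol : Set S} (h : Pkg D Hol) {v : ℕ → S} (hc : CauchySeq v)
    (h0 : Tendsto (fun k => ‖D (v k)‖) atTop (𝓝 0)) : ∃ V ∈ Hol, Tendsto v atTop (𝓝 V) := by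
  refine h.wh v hc (fun φ => ?_)
  have h1 : Tendsto (fun k => ⟪φ, D (v k)⟫_ℂ) atTop (𝓝 ⟪φ, 0⟫_ℂ) :=
    tendsto_const_nhds.inner (tendsto_zero_iff_norm_tendsto_zero.2 h0)
  simpa only [h.symm, inner_zero_right] using h1

/-- The index argument. -/
theorem idx {D : S →ₗ[ℂ] S} {Hol : Set S} (h : Pkg D Hol) (P Q U : S →ₗ[ℂ] S) {C : ℝ}
    (hP : ∀ V, P (P V) = V) (hQ : ∀ V, Q (Q V) = V) (hPQ : ∀ V, P (Q V) = Q (P V))
    (sP : ∀ V V', ⟪P V, V'⟫_ℂ = ⟪V, P V'⟫_ℂ) (sQ : ∀ V V', ⟪Q V, V'⟫_ℂ = ⟪V, Q V'⟫_ℂ)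
    (hDP : ∀ V, D (P V) = -P (D V)) (hDQ : ∀ V, D (Q V) = Q (D V)) (hU : ∀ V, U (U V) = V)
    (hUQ : ∀ V, U (Q V) = -Q (U V)) (hUP : ∀ V, U (P V) = P (U V))
    (bU : ∀ V, ‖U V‖ ≤ C * ‖V‖) (bD : ∀ V, ‖D (U V) - U (D V)‖ ≤ C * ‖V‖) {e : S} (he : e ≠ 0)
    (hDe : D e = 0) (hPe : P e = e) (hQe : Q e = e) :
    ∃ V ∈ Hol, V ≠ 0 ∧ (Q V = -V ∨ P V = -V) := by
  by_contra hcon
  have hz : ∀ V ∈ Hol, (Q V = -V ∨ P V = -V) → V = 0 := fun V hV h1 => by
    by_contra h0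
    exact hcon ⟨V, hV, h0, h1⟩
  have hzQ : ∀ v : ℕ → S, (∃ V ∈ Hol, Tendsto v atTop (𝓝 V)) → (∀ k, Q (v k) = -v k) →
      Tendsto (fun k => ‖v k‖) atTop (𝓝 0) := fun v ⟨V, hV, hv⟩ h1 => by
    have := hz V hV (Or.inl (idx_lim sQ hQ hv h1))
    rw [this] at hv
    exact tendsto_zero_iff_norm_tendsto_zero.1 hv
  have hzP : ∀ v : ℕ → S, (∃ V ∈ Hol, Tendsto v atTop (𝓝 V)) → (∀ k, P (v k) = -v k) →
      Tendsto (fun k => ‖v k‖) atTop (𝓝 0) := fun v ⟨V, hV, hv⟩ h1 => by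
    have := hz V hV (Or.inr (idx_lim sP hP hv h1))
    rw [this] at hv
    exact tendsto_zero_iff_norm_tendsto_zero.1 hv
  have hU' : ∀ v, ‖U v‖ ≤ |C| * ‖v‖ := fun v =>
    (bU v).trans (mul_le_mul_of_nonneg_right (le_abs_self _) (norm_nonneg _))
  have hUlim : ∀ v : ℕ → S, Tendsto (fun k => ‖v k‖) atTop (𝓝 0) →
      Tendsto (fun k => ‖U (v k)‖) atTop (𝓝 0) := fun v hv =>
    squeeze_zero (fun _ => norm_nonneg _) (fun k => hU' _) (by simpa using hv.const_mul |C|)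
  have hQU : ∀ v, Q (U v) = -U (Q v) := fun v => by rw [hUQ, neg_neg]
  have hPD : ∀ v, P (D v) = -D (P v) := fun v => by rw [hDP, neg_neg]
  let A := par Q P (-1) (-1)
  let B := par Q P (-1) 1
  have mA : ∀ v, v ∈ A ↔ Q v = -v ∧ P v = -v := fun v => by
    change Q v = (-1 : ℂ) • v ∧ P v = (-1 : ℂ) • v ↔ _
    simp only [neg_smul, one_smul]
  have mB : ∀ v, v ∈ B ↔ Q v = -v ∧ P v = v := fun v => by
    change Q v = (-1 : ℂ) • v ∧ P v = (1 : ℂ) • v ↔ _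
    simp only [neg_smul, one_smul]
  have hDA : ∀ v ∈ A, D v ∈ B := fun v hv => by
    rw [mA] at hv; rw [mB, ← hDQ, hPD, hv.1, hv.2, map_neg, neg_neg]; exact ⟨rfl, rfl⟩
  have hD2A : ∀ v ∈ A, (U ∘ₗ D ∘ₗ U) v ∈ B := fun v hv => by
    rw [mA] at hv
    simp only [mB, LinearMap.comp_apply]
    refine ⟨?_, ?_⟩
    · rw [hQU, ← hDQ, hQU, hv.1]; simp only [map_neg, neg_neg]
    · rw [← hUP, hPD, ← hUP, hv.2]; simp only [map_neg, neg_neg]
  let D1 : A →ₗ[ℂ] B := D.restrict hDA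
  let D2 : A →ₗ[ℂ] B := (U ∘ₗ D ∘ₗ U).restrict hD2A
  have n2 : ∀ a : A, ‖D2 a‖ = ‖U (D (U a))‖ := fun _ => rfl
  have cA : ∀ a : ℕ → A, CauchySeq a → CauchySeq (fun k => (a k : S)) := fun a ha =>
    uniformContinuous_subtype_val.comp_cauchySeq ha
  have cB : ∀ a : ℕ → B, CauchySeq a → CauchySeq (fun k => (a k : S)) := fun a ha =>
    uniformContinuous_subtype_val.comp_cauchySeq ha
  have hdense : DenseRange D1 := by
    refine den D1 (fun v hc hw => ?_)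
    have hv : ∀ k, Q (v k : S) = -(v k : S) ∧ P (v k : S) = v k := fun k => (mB _).1 (v k).2
    refine hzQ _ (h.wh _ (cB v hc) (fun φ => ?_)) (fun k => (hv k).1)
    have ha : φ - Q φ - P φ + Q (P φ) ∈ A := by
      rw [mA]
      refine ⟨?_, ?_⟩
      · simp only [map_add, map_sub, hQ]; abel
      · simp only [map_add, map_sub, hPQ, hP]; abel
    have h1 := (hw ⟨_, ha⟩).const_mul (4⁻¹ : ℂ)
    rw [mul_zero] at h1
    have h2 : Tendsto (fun k => ⟪(v k : S), D φ⟫_ℂ) atTop (𝓝 0) := by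
      refine h1.congr (fun k => ?_)
      change (4⁻¹ : ℂ) * ⟪(v k : S), D (φ - Q φ - P φ + Q (P φ))⟫_ℂ = _
      simp only [map_add, map_sub, hDQ, hDP, map_neg, inner_add_right, inner_sub_right,
        inner_neg_right, ← sQ, ← sP, (hv k).1, (hv k).2, inner_neg_left]
      ring
    have h3 := (Complex.continuous_conj.tendsto 0).comp h2
    simp only [Function.comp_def, inner_conj_symm, map_zero] at h3
    exact h3
  have hRE1 : TotallyBounded {a : A | ‖a‖ ≤ 1 ∧ ‖D1 a‖ ≤ 1} :=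
    totallyBounded_preimage isUniformEmbedding_subtype_val.isUniformInducing h.re
  have hfa : DenseRange D2 := by
    refine fa D1 D2 hRE1 (fun a hc h0 => ?_) (fun a hc h0 => ?_) (C := |C| * |C|) (fun a => ?_)
      hdense
    · exact hzQ _ (h.strong (cA a hc) h0) (fun k => ((mA _).1 (a k).2).1)
    · simp only [n2] at h0
      have h1 := hUlim _ h0
      simp only [hU] at h1
      have h2 := hzP _ (h.strong (fr_cauchy U bU (cA a hc)) h1)
        (fun k => by rw [← hUP, ((mA _).1 (a k).2).2, map_neg])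
      have h3 := hUlim _ h2
      simp only [hU] at h3
      exact h3
    · change ‖U (D (U a)) - D a‖ ≤ |C| * |C| * ‖(a : S)‖
      have e1 : U (D (U a)) - D a = U (D (U a) - U (D a)) := by rw [map_sub, hU]
      rw [e1, mul_assoc]
      exact (hU' _).trans (mul_le_mul_of_nonneg_left ((bD _).trans
        (mul_le_mul_of_nonneg_right (le_abs_self _) (norm_nonneg _))) (abs_nonneg _))
  have hUe : U e ∈ B := by rw [mB, hQU, ← hUP, hQe, hPe]; exact ⟨rfl, rfl⟩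
  obtain ⟨u, hu, hux⟩ := mem_closure_iff_seq_limit.1 (hfa ⟨U e, hUe⟩)
  choose a ha using hu
  have h1 : Tendsto (fun k => ‖U (D (U (a k))) - U e‖) atTop (𝓝 0) := by
    have := tendsto_iff_norm_sub_tendsto_zero.1 hux
    simp only [← ha] at this
    exact this
  have h2 := hUlim _ h1
  simp only [map_sub, hU] at h2
  have h3 : Tendsto (fun k => ⟪D (U (a k)), e⟫_ℂ) atTop (𝓝 ⟪e, e⟫_ℂ) :=
    (tendsto_iff_norm_sub_tendsto_zero.2 h2).inner tendsto_const_nhds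
  simp only [h.symm, hDe, inner_zero_right] at h3
  exact he (inner_self_eq_zero.1 (tendsto_nhds_unique tendsto_const_nhds h3).symm)

/-- The L2 existence statement. -/
theorem l2a {D : S →ₗ[ℂ] S} {Hol : Set S} (h : Pkg D Hol) (s : S) {c : ℝ} (hc : 0 ≤ c)
    (hs : ∀ β, ‖⟪D s, β⟫_ℂ‖ ≤ c * ‖D β‖) : ∃ V ∈ Hol, ‖s - V‖ ≤ c := by
  let ι : S →ₗᵢ[ℂ] Completion S := Completion.toComplₗᵢ
  let f : S →ₗ[ℂ] Completion S := ι.toLinearMap ∘ₗ D
  have hf : ∀ a, f a = ι (D a) := fun _ => rfl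
  let K : Submodule ℂ (Completion S) := (LinearMap.range f).topologicalClosure
  have : CompleteSpace K := (LinearMap.range f).isClosed_topologicalClosure.completeSpace_coe
  obtain ⟨r, hr, x, hx, hsum⟩ := K.exists_add_mem_mem_orthogonal (ι s)
  obtain ⟨u, hu, hur⟩ := mem_closure_iff_seq_limit.1 (show r ∈ closure (range f) from hr)
  choose β hβ using hu
  have h1 : Tendsto (fun k => ι (D (β k))) atTop (𝓝 r) := by simpa only [← hf, hβ] using hur
  have h2 : Tendsto (fun k => ι (s - D (β k))) atTop (𝓝 x) := by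
    have := (tendsto_const_nhds (x := ι s)).sub h1
    simp only [← map_sub] at this
    rwa [hsum, add_sub_cancel_left] at this
  have hcv : CauchySeq (fun k => s - D (β k)) := by
    have hc := h2.cauchySeq
    rw [Metric.cauchySeq_iff] at hc ⊢
    simpa only [ι.dist_map] using hc
  obtain ⟨V, hV, hv⟩ := h.wh _ hcv (fun φ => by
    have h3 : Tendsto (fun k => ⟪ι (D φ), ι (s - D (β k))⟫_ℂ) atTop (𝓝 ⟪ι (D φ), x⟫_ℂ) :=
      tendsto_const_nhds.inner h2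
    have h4 : ⟪ι (D φ), x⟫_ℂ = 0 :=
      Submodule.inner_right_of_mem_orthogonal (K := K)
        ((LinearMap.range f).le_topologicalClosure ⟨φ, rfl⟩) hx
    simpa only [ι.inner_map_map, h4] using h3)
  refine ⟨V, hV, ?_⟩
  have h5 : Tendsto (fun k => ‖D (β k)‖) atTop (𝓝 ‖r‖) := by
    simpa only [ι.norm_map] using h1.norm
  have h6 : Tendsto (fun k => ‖D (β k)‖) atTop (𝓝 ‖s - V‖) := by
    simpa only [sub_sub_cancel] using ((tendsto_const_nhds (x := s)).sub hv).norm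
  rw [tendsto_nhds_unique h6 h5]
  have h7 : Tendsto (fun k => ‖⟪ι s, ι (D (β k))⟫_ℂ‖) atTop (𝓝 ‖⟪ι s, r⟫_ℂ‖) :=
    (tendsto_const_nhds.inner h1).norm
  simp only [ι.inner_map_map, ← h.symm] at h7
  have h8 : ‖⟪ι s, r⟫_ℂ‖ ≤ c * ‖r‖ := le_of_tendsto_of_tendsto' h7 (h5.const_mul c) (fun k => hs _)
  have h9 : ⟪x, r⟫_ℂ = 0 := Submodule.inner_left_of_mem_orthogonal (K := K) hr hx
  rw [hsum, inner_add_left, h9, add_zero, inner_self_eq_norm_sq_to_K, norm_pow] at h8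
  have h10 : ‖r‖ ^ 2 ≤ c * ‖r‖ := by simpa using h8
  by_contra hlt
  push Not at hlt
  nlinarith

end Pool.Agent.SE
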