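import Pool.Agent.P.MP_63735c_ag.ABMol2
import Pool.Agent.P.MP_63735c_ag.ABInt
import Pool.Agent.P.MP_63735c_ag.ABLev

/-! The flat Rellich lemma for the antiholomorphic derivative. -/

open scoped ComplexOrder ContDiff Matrix Topology ENNReal
open Set Metric MeasureTheory Filter

namespace Pool.Agent.SE

open Pool.Agent.SPF Pool.Agent.AB

variable {N : ℕ} {d A : ℝ} {ρ : E N → ℝ} {f g : E N → ℂ} {C : Set (E N)}

theorem serel_sq (hf : Continuous f) (hc : HasCompactSupport f) :
    Integrable fun x => ‖f x‖ ^ 2 := by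
  have hu : Continuous fun y => ‖f y‖ ^ 2 := hf.norm.pow 2
  exact hu.integrable_of_hasCompactSupport (hc.comp_left (g := fun t : ℂ => ‖t‖ ^ 2) (by simp))

theorem serel_db (hf : Tst univ f) : Integrable fun x => ‖db f x‖ ^ 2 := by
  have h1 : Continuous (db f) :=
    (contDiffOn_univ.1 (db_smooth isOpen_univ hf.smooth.contDiffOn)).continuous
  refine (h1.norm.pow 2).integrable_of_hasCompactSupport (hf.cpt.mono' fun x hx => ?_)
  by_contra h
  refine hx ?_
  have : db f x = 0 := funext fun a => (dz_zero_off isOpen_univ (isClosed_tsupport f)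
    (fun z _ hz => image_eq_zero_of_notMem_tsupport hz) a x (mem_univ x) h).2
  simp [this]

/-- The holomorphic and the antiholomorphic derivative have the same L2 norm. -/
theorem int_dz_sq (hf : Tst univ f) (a : Fin N) :
    ∫ x, ‖dz a f x‖ ^ 2 = ∫ x, ‖dzb a f x‖ ^ 2 := by
  have hs : Tst univ fun y => star (f y) :=
    ⟨contDiffOn_univ.1 (abint_star hf.smooth.contDiffOn),
      hf.cpt.comp_left (g := fun t : ℂ => star t) (star_zero ℂ), subset_univ _⟩
  have h1 := ibp0 isOpen_univ hf (hf.dz_tst a).1.smooth.contDiffOn a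
  have h2 := ibp0 isOpen_univ hs (abint_star (hf.dz_tst a).2.smooth.contDiffOn) a
  simp only [Measure.restrict_univ, db, ← (star_dz _ _ _).1, ← (star_dz _ _ _).2, star_star,
    (ablev_comm hf.smooth.contDiffAt a a).1] at h1 h2
  have h3 := congrArg (starRingEnd ℂ) h2
  simp only [map_neg, ← integral_conj, map_mul, Complex.star_def, Complex.conj_conj] at h1 h3
  rw [← h3] at h1
  simp only [Complex.mul_conj', ← Complex.ofReal_pow, integral_complex_ofReal] at h1
  exact_mod_cast h1

theorem serel_cs {Ω : Type} [MeasurableSpace Ω] {μ : Measure Ω} {w u : Ω → ℝ}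
    (h0 : ∀ t, 0 ≤ w t) (h1 : ∫ t, w t ∂μ = 1) (i0 : Integrable w μ)
    (i1 : Integrable (fun t => w t * u t) μ) (i2 : Integrable (fun t => w t * u t ^ 2) μ) :
    (∫ t, w t * u t ∂μ) ^ 2 ≤ ∫ t, w t * u t ^ 2 ∂μ := by
  set m := ∫ t, w t * u t ∂μ with hm
  have h2 : 0 ≤ ∫ t, (w t * u t ^ 2 - 2 * m * (w t * u t) + m ^ 2 * w t) ∂μ :=
    integral_nonneg fun t => le_of_le_of_eq (mul_nonneg (h0 t) (sq_nonneg (u t - m))) (by ring)
  have i3 := i1.const_mul (2 * m)
  have i4 : Integrable (fun t => w t * u t ^ 2 - 2 * m * (w t * u t)) μ := i2.sub i3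
  rw [integral_add i4 (i0.const_mul _), integral_sub i2 i3, integral_const_mul,
    integral_const_mul, h1, ← hm] at h2
  linarith

theorem serel_swap {Z : Type} [NormedAddCommGroup Z] [MeasureSpace Z] [BorelSpace Z]
    [SecondCountableTopology Z] [IsFiniteMeasureOnCompacts (volume : Measure Z)]
    [SFinite (volume : Measure Z)] {K : Set Z} (hC : IsCompact C) (hK : IsCompact K)
    {H : E N → Z → ℝ} (hH : Continuous (Function.uncurry H)) :
    IntegrableOn (fun x => ∫ z in K, H x z) C ∧ IntegrableOn (fun z => ∫ x in C, H x z) K ∧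
      ∫ x in C, ∫ z in K, H x z = ∫ z in K, ∫ x in C, H x z := by
  have h : Integrable (Function.uncurry H) ((volume.restrict C).prod (volume.restrict K)) := by
    rw [Measure.prod_restrict]
    exact hH.continuousOn.integrableOn_compact (hC.prod hK)
  exact ⟨h.integral_prod_left, h.integral_prod_right, integral_integral_swap h⟩

/-- A majorant of the derivative. -/
noncomputable def maj (f : E N → ℂ) (z : E N) : ℝ := ∑ a, (‖dz a f z‖ + ‖dzb a f z‖)

theorem maj_le (f : E N → ℂ) (z v : E N) : ‖fderiv ℝ f z v‖ ≤ ‖v‖ * maj f z := by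
  rw [fderiv_eq_wirt, maj, Finset.mul_sum]
  refine norm_sum_le_of_le _ fun a _ => (norm_add_le _ _).trans ?_
  rw [norm_mul, norm_mul, norm_star, mul_add]
  have := norm_le_pi_norm v a
  gcongr

theorem maj_cont (hf : Tst univ f) : Continuous (maj f) :=
  continuous_finsetSum _ fun a _ =>
    (hf.dz_tst a).1.smooth.continuous.norm.add (hf.dz_tst a).2.smooth.continuous.norm

theorem maj_sq (f : E N → ℂ) (z : E N) :
    maj f z ^ 2 ≤ 2 * N * ∑ a, (‖dz a f z‖ ^ 2 + ‖dzb a f z‖ ^ 2) := by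
  refine (sq_sum_le_card_mul_sum_sq).trans ?_
  rw [Finset.card_univ, Fintype.card_fin, mul_comm 2, mul_assoc, Finset.mul_sum _ _ 2]
  refine mul_le_mul_of_nonneg_left (Finset.sum_le_sum fun a _ => ?_) (Nat.cast_nonneg N)
  nlinarith [sq_nonneg (‖dz a f z‖ - ‖dzb a f z‖)]

theorem maj_int (hf : Tst univ f) : Integrable (fun x => maj f x ^ 2) ∧
    ∫ x, maj f x ^ 2 ≤ 4 * N ^ 2 * ∫ x, ‖db f x‖ ^ 2 := by
  have i1 : ∀ a, Integrable fun x => ‖dz a f x‖ ^ 2 := fun a =>
    serel_sq (hf.dz_tst a).1.smooth.continuous (hf.dz_tst a).1.cpt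
  have i2 : ∀ a, Integrable fun x => ‖dzb a f x‖ ^ 2 := fun a =>
    serel_sq (hf.dz_tst a).2.smooth.continuous (hf.dz_tst a).2.cpt
  have i3 : ∀ a, Integrable fun x => ‖dz a f x‖ ^ 2 + ‖dzb a f x‖ ^ 2 := fun a => (i1 a).add (i2 a)
  have i4 := (integrable_finsetSum Finset.univ fun a _ => i3 a).const_mul (2 * N : ℝ)
  refine ⟨i4.mono' ((maj_cont hf).pow 2).aestronglyMeasurable (Eventually.of_forall fun x => by
    rw [Real.norm_of_nonneg (sq_nonneg _)]; exact maj_sq f x), ?_⟩
  refine (integral_mono_of_nonneg (Eventually.of_forall fun x => sq_nonneg _) i4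
    (Eventually.of_forall (maj_sq f))).trans ?_
  rw [integral_const_mul, integral_finsetSum _ fun a _ => i3 a]
  have h : ∀ a ∈ (Finset.univ : Finset (Fin N)),
      ∫ x, (‖dz a f x‖ ^ 2 + ‖dzb a f x‖ ^ 2) ≤ 2 * ∫ x, ‖db f x‖ ^ 2 := fun a _ => by
    rw [integral_add (i1 a) (i2 a), int_dz_sq hf, ← two_mul]
    refine mul_le_mul_of_nonneg_left (integral_mono (i2 a) (serel_db hf) fun x => ?_) two_pos.le
    exact pow_le_pow_left₀ (norm_nonneg _) (norm_le_pi_norm (db f x) a) 2
  have h2 := Finset.sum_le_card_nsmul _ _ _ h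
  rw [Finset.card_univ, Fintype.card_fin, nsmul_eq_mul] at h2
  have h3 := mul_le_mul_of_nonneg_left h2 (show (0 : ℝ) ≤ 2 * N by positivity)
  linarith

theorem serel_pt (hf : Tst univ f) (x y : E N) :
    ‖f (x - y) - f x‖ ^ 2 ≤ ‖y‖ ^ 2 * ∫ t in Icc (0 : ℝ) 1, maj f (x - t • y) ^ 2 := by
  have hl : Continuous fun t : ℝ => x - t • y := by fun_prop
  have hd : ∀ t : ℝ, HasDerivAt (fun t : ℝ => f (x - t • y)) (fderiv ℝ f (x - t • y) (-y)) t :=
    fun t => by
      have h1 : HasDerivAt (fun t : ℝ => x - t • y) (-y) t := by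
        simpa using ((hasDerivAt_id t).smul_const y).const_sub x
      exact (abmol2_diff hf.smooth _).hasFDerivAt.comp_hasDerivAt t h1
  have hc : Continuous fun t : ℝ => fderiv ℝ f (x - t • y) (-y) :=
    ((hf.smooth.continuous_fderiv (by simp)).comp hl).clm_apply continuous_const
  have hm : Continuous fun t : ℝ => maj f (x - t • y) := (maj_cont hf).comp hl
  have h1 := intervalIntegral.integral_eq_sub_of_hasDerivAt (fun t _ => hd t)
    (hc.intervalIntegrable 0 1)
  simp only [one_smul, zero_smul, sub_zero] at h1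
  have h2 : ‖f (x - y) - f x‖ ≤ ‖y‖ * ∫ t in Icc (0 : ℝ) 1, maj f (x - t • y) := by
    rw [← h1, intervalIntegral.integral_of_le zero_le_one, ← integral_Icc_eq_integral_Ioc,
      ← integral_const_mul]
    refine norm_integral_le_of_norm_le ((hm.const_mul _).integrableOn_Icc)
      (Eventually.of_forall fun t => ?_)
    simpa only [norm_neg] using maj_le f (x - t • y) (-y)
  have h3 := serel_cs (μ := volume.restrict (Icc (0 : ℝ) 1)) (w := fun _ => 1)
    (u := fun t => maj f (x - t • y)) (fun _ => zero_le_one) (by simp)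
    continuous_const.integrableOn_Icc (hm.const_mul _).integrableOn_Icc
    ((hm.pow 2).const_mul _).integrableOn_Icc
  simp only [one_mul] at h3
  refine (pow_le_pow_left₀ (norm_nonneg _) h2 2).trans ?_
  rw [mul_pow]
  exact mul_le_mul_of_nonneg_left h3 (sq_nonneg _)

/-- The translation estimate. -/
theorem transl (hf : Tst univ f) (hC : IsCompact C) (y : E N) :
    ∫ x in C, ‖f (x - y) - f x‖ ^ 2 ≤ ‖y‖ ^ 2 * ∫ x, maj f x ^ 2 := by
  have hm := maj_cont hf
  obtain ⟨i1, i2, e⟩ := serel_swap hC (isCompact_Icc (a := (0 : ℝ)) (b := 1))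
    (H := fun x t => maj f (x - t • y) ^ 2)
    ((hm.comp (continuous_fst.sub (continuous_snd.smul continuous_const))).pow 2)
  refine (integral_mono_of_nonneg (Eventually.of_forall fun x => sq_nonneg _) (i1.const_mul _)
    (Eventually.of_forall fun x => serel_pt hf x y)).trans ?_
  rw [integral_const_mul, e]
  refine mul_le_mul_of_nonneg_left ?_ (sq_nonneg _)
  refine (integral_mono i2 (integrable_const (∫ x, maj f x ^ 2)) fun t => ?_).trans (by simp)
  rw [← integral_sub_right_eq_self (fun x => maj f x ^ 2) (t • y)]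
  exact setIntegral_le_integral ((maj_int hf).1.comp_sub_right _)
    (Eventually.of_forall fun x => sq_nonneg _)

/-- The mollified function is close in L2. -/
theorem cv_near (h : Ker d A ρ) (hf : Tst univ f) (hC : IsCompact C) :
    ∫ x in C, ‖cv ρ f x - f x‖ ^ 2 ≤ 4 * N ^ 2 * d ^ 2 * ∫ x, ‖db f x‖ ^ 2 := by
  have hc := hf.smooth.continuous
  have hρ := h.smooth.continuous
  have hK : IsCompact (tsupport ρ) := h.cpt
  have iρ : Integrable ρ := hρ.integrable_of_hasCompactSupport h.cpt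
  have hz : ∀ (u : E N → ℝ), ∫ y in tsupport ρ, ρ y * u y = ∫ y, ρ y * u y := fun u =>
    setIntegral_eq_integral_of_forall_compl_eq_zero fun y hy => by
      rw [image_eq_zero_of_notMem_tsupport hy, zero_mul]
  obtain ⟨i1, i2, e⟩ := serel_swap hC hK (H := fun x y => ρ y * ‖f (x - y) - f x‖ ^ 2)
    (show Continuous fun p : E N × E N => ρ p.2 * ‖f (p.1 - p.2) - f p.1‖ ^ 2 by fun_prop)
  have key : ∀ x, ‖cv ρ f x - f x‖ ^ 2 ≤ ∫ y in tsupport ρ, ρ y * ‖f (x - y) - f x‖ ^ 2 := by
    intro x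
    have hu : Continuous fun y => ‖f (x - y) - f x‖ :=
      ((hc.comp (continuous_const.sub continuous_id)).sub continuous_const).norm
    have e1 : cv ρ f x - f x = ∫ y, (ρ y : ℂ) * (f (x - y) - f x) := by
      simp only [mul_sub]
      have i3 : Integrable fun y => (ρ y : ℂ) * f x := iρ.ofReal.mul_const _
      rw [integral_sub (h.abmol1_int hc x) i3, integral_mul_const,
        integral_complex_ofReal, h.one, Complex.ofReal_one, one_mul, cv]
    have e2 : ‖cv ρ f x - f x‖ ≤ ∫ y, ρ y * ‖f (x - y) - f x‖ := by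
      rw [e1]
      refine (norm_integral_le_integral_norm _).trans (le_of_eq ?_)
      simp only [norm_mul, Complex.norm_real, Real.norm_of_nonneg (h.nonneg _)]
    rw [hz]
    exact (pow_le_pow_left₀ (norm_nonneg _) e2 2).trans (serel_cs h.nonneg h.one iρ
      ((hρ.mul hu).integrable_of_hasCompactSupport h.cpt.mul_right)
      ((hρ.mul (hu.pow 2)).integrable_of_hasCompactSupport h.cpt.mul_right))
  refine (integral_mono_of_nonneg (Eventually.of_forall fun x => sq_nonneg _) i1
    (Eventually.of_forall key)).trans ?_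
  rw [e]
  have hM : 0 ≤ ∫ x, maj f x ^ 2 := integral_nonneg fun x => sq_nonneg _
  refine (setIntegral_mono_on i2 ((iρ.mul_const (d ^ 2 * ∫ x, maj f x ^ 2)).integrableOn)
    hK.measurableSet fun y hy => ?_).trans ?_
  · rw [integral_const_mul]
    refine mul_le_mul_of_nonneg_left ((transl hf hC y).trans ?_) (h.nonneg y)
    exact mul_le_mul_of_nonneg_right
      (pow_le_pow_left₀ (norm_nonneg _) (mem_ball_zero_iff.1 (h.supp hy)).le 2) hM
  · rw [hz, integral_mul_const, h.one, one_mul]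
    have := mul_le_mul_of_nonneg_left (maj_int hf).2 (sq_nonneg d)
    linarith

/-- Test functions with bounds. -/
structure Adm (C : Set (E N)) (B : ℝ) (f : E N → ℂ) : Prop where
  tst : Tst univ f
  supp : tsupport f ⊆ C
  l2 : ∫ x, ‖f x‖ ^ 2 ≤ B
  d2 : ∫ x, ‖db f x‖ ^ 2 ≤ B

theorem Adm.l1 {B : ℝ} (hf : Adm C B f) (hC : IsCompact C) :
    ∫ x, ‖f x‖ ≤ volume.real C + |B| := by
  have hc := hf.tst.smooth.continuous
  have i1 := serel_sq hc hf.tst.cpt
  have i0 : IntegrableOn (fun _ => (1 : ℝ)) C := continuous_const.continuousOn.integrableOn_compact hC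
  rw [← setIntegral_eq_integral_of_forall_compl_eq_zero (s := C) fun y hy => by
    rw [image_eq_zero_of_notMem_tsupport fun h => hy (hf.supp h), norm_zero]]
  have i2 : IntegrableOn (fun x => 1 + ‖f x‖ ^ 2) C := i0.add i1.integrableOn
  refine (integral_mono (hc.norm.continuousOn.integrableOn_compact hC) i2 fun x => by
    nlinarith [sq_nonneg (‖f x‖ - 1), norm_nonneg (f x)]).trans ?_
  rw [integral_add i0 i1.integrableOn]
  have := setIntegral_le_integral (s := C) i1 (Eventually.of_forall fun x => sq_nonneg _)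
  have h1 : ∫ _ in C, (1 : ℝ) = volume.real C := by simp
  linarith [hf.l2, le_abs_self B]

theorem serel_cvi (h : Ker d A ρ) (hf : Tst univ f) (x : E N) :
    Integrable fun y => (ρ (x - y) : ℂ) * f y := by
  have hρ := h.smooth.continuous
  have hc := hf.smooth.continuous
  exact Continuous.integrable_of_hasCompactSupport (by fun_prop) hf.cpt.mul_left

/-- Rellich's lemma in colouring form. -/
theorem rellich (hC : IsCompact C) (B : ℝ) {e : ℝ} (he : 0 < e) :
    ∃ (β : Type) (_ : Fintype β) (F : (E N → ℂ) → β), ∀ f g, Adm C B f → Adm C B g → F f = F g →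
      ∫ x in C, ‖f x - g x‖ ^ 2 ≤ e := by
  obtain ⟨A, hA⟩ := exists_ker N
  have hv : 0 ≤ volume.real C := measureReal_nonneg
  set V := volume.real C + |B| with hV
  have hV0 : 0 ≤ V := by positivity
  have t1 : Tendsto (fun d : ℝ => 4 * N ^ 2 * d ^ 2 * |B|) (𝓝[>] 0) (𝓝 0) :=
    (Continuous.tendsto' (by fun_prop) 0 0 (by simp)).mono_left nhdsWithin_le_nhds
  have t2 : Tendsto (fun η : ℝ => volume.real C * (2 * (η * V) + 2 * η) ^ 2) (𝓝[>] 0) (𝓝 0) :=
    (Continuous.tendsto' (by fun_prop) 0 0 (by simp)).mono_left nhdsWithin_le_nhds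
  obtain ⟨d, hd1, hd⟩ := ((t1.eventually (gt_mem_nhds (show 0 < e / 9 by positivity))).and
    self_mem_nhdsWithin).exists
  obtain ⟨η, hη1, hη⟩ := ((t2.eventually (gt_mem_nhds (show 0 < e / 9 by positivity))).and
    self_mem_nhdsWithin).exists
  replace hη : 0 < η := hη
  obtain ⟨ρ, h⟩ := hA d hd
  have hρ := h.smooth.continuous
  obtain ⟨M, hM⟩ := hρ.bounded_above_of_compact_support h.cpt
  obtain ⟨δ, hδ, hu⟩ := Metric.uniformContinuous_iff.1 (h.cpt.uniformContinuous_of_continuous hρ) η hη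
  obtain ⟨t, -, ht, hCt⟩ := finite_cover_balls_of_compact hC hδ
  obtain ⟨s, -, hs, hCs⟩ := finite_cover_balls_of_compact (isCompact_closedBall (0 : ℂ) (M * V)) hη
  have := ht.to_subtype
  have := hs.to_subtype
  have i1 : ∀ f, Adm C B f → Integrable fun y => ‖f y‖ := fun f hf =>
    (hf.tst.smooth.continuous.integrable_of_hasCompactSupport hf.tst.cpt).norm
  have b1 : ∀ f, Adm C B f → ∀ x, ‖cv ρ f x‖ ≤ M * V := fun f hf x => by
    rw [cv_swap]
    refine (norm_integral_le_of_norm_le ((i1 f hf).const_mul M) (Eventually.of_forall fun y => by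
      rw [norm_mul, Complex.norm_real]
      exact mul_le_mul_of_nonneg_right (hM _) (norm_nonneg _))).trans ?_
    rw [integral_const_mul]
    exact mul_le_mul_of_nonneg_left (hf.l1 hC) ((norm_nonneg _).trans (hM 0))
  have b2 : ∀ f, Adm C B f → ∀ x x', dist x x' < δ → ‖cv ρ f x - cv ρ f x'‖ ≤ η * V := by
    intro f hf x x' hx
    rw [cv_swap, cv_swap, ← integral_sub (serel_cvi h hf.tst x) (serel_cvi h hf.tst x')]
    refine (norm_integral_le_of_norm_le ((i1 f hf).const_mul η) (Eventually.of_forall fun y => by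
      rw [← sub_mul, norm_mul, ← Complex.ofReal_sub, Complex.norm_real, ← dist_eq_norm]
      exact mul_le_mul_of_nonneg_right (hu (by rwa [dist_sub_right])).le (norm_nonneg _))).trans ?_
    rw [integral_const_mul]
    exact mul_le_mul_of_nonneg_left (hf.l1 hC) hη.le
  have b3 : ∀ f, Adm C B f → ∫ x in C, ‖cv ρ f x - f x‖ ^ 2 ≤ e / 9 := fun f hf =>
    (cv_near h hf.tst hC).trans ((mul_le_mul_of_nonneg_left (hf.d2.trans (le_abs_self B))
      (by positivity)).trans hd1.le)
  have i2 : ∀ f, Adm C B f → IntegrableOn (fun x => ‖cv ρ f x - f x‖ ^ 2) C := fun f hf => by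
    have hu : Continuous fun x => ‖cv ρ f x - f x‖ ^ 2 :=
      ((abmol2_cv h hf.tst).continuous.sub hf.tst.smooth.continuous).norm.pow 2
    exact hu.continuousOn.integrableOn_compact hC
  refine ⟨t → s → Prop, Fintype.ofFinite _, fun f x c => dist (cv ρ f x) c < η,
    fun f g hf hg hfg => ?_⟩
  have b4 : ∀ x ∈ C, ‖cv ρ f x - cv ρ g x‖ ≤ 2 * (η * V) + 2 * η := fun x hx => by
    obtain ⟨x', hx', h1⟩ := mem_iUnion₂.1 (hCt hx)
    obtain ⟨c, hc, h2⟩ := mem_iUnion₂.1 (hCs (mem_closedBall_zero_iff.2 (b1 f hf x')))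
    have h3 : dist (cv ρ g x') c < η := (congrFun (congrFun hfg ⟨x', hx'⟩) ⟨c, hc⟩).mp h2
    have h4 := b2 f hf x x' h1
    have h5 := b2 g hg x x' h1
    rw [← dist_eq_norm] at h4 h5 ⊢
    have h6 := dist_triangle4 (cv ρ f x) (cv ρ f x') c (cv ρ g x)
    have h7 := dist_triangle c (cv ρ g x') (cv ρ g x)
    rw [dist_comm c (cv ρ g x'), dist_comm (cv ρ g x') (cv ρ g x)] at h7
    have h8 : dist (cv ρ f x') c < η := h2
    linarith
  have i0 : IntegrableOn (fun _ => (2 * (η * V) + 2 * η) ^ 2) C :=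
    continuous_const.continuousOn.integrableOn_compact hC
  have i3 : IntegrableOn (fun x => ‖cv ρ f x - f x‖ ^ 2 + ‖cv ρ g x - g x‖ ^ 2) C :=
    (i2 f hf).add (i2 g hg)
  have i4 : IntegrableOn (fun x => 3 * (‖cv ρ f x - f x‖ ^ 2 + ‖cv ρ g x - g x‖ ^ 2 +
      (2 * (η * V) + 2 * η) ^ 2)) C := (i3.add i0).const_mul 3
  refine (integral_mono_of_nonneg (Eventually.of_forall fun x => sq_nonneg _) i4
    ((ae_restrict_iff' hC.measurableSet).2 (Eventually.of_forall fun x hx => ?_))).trans ?_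
  · have h1 : ‖f x - g x‖ ≤ ‖cv ρ f x - f x‖ + ‖cv ρ g x - g x‖ + (2 * (η * V) + 2 * η) := by
      have e1 : f x - g x = (cv ρ g x - g x) - (cv ρ f x - f x) + (cv ρ f x - cv ρ g x) := by ring
      rw [e1]
      refine (norm_add_le _ _).trans (add_le_add ((norm_sub_le _ _).trans (by linarith)) (b4 x hx))
    refine (pow_le_pow_left₀ (norm_nonneg _) h1 2).trans ?_
    nlinarith [sq_nonneg (‖cv ρ f x - f x‖ - ‖cv ρ g x - g x‖),
      sq_nonneg (‖cv ρ f x - f x‖ - (2 * (η * V) + 2 * η)),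
      sq_nonneg (‖cv ρ g x - g x‖ - (2 * (η * V) + 2 * η))]
  · rw [integral_const_mul, integral_add i3 i0, integral_add (i2 f hf) (i2 g hg), setIntegral_const,
      smul_eq_mul]
    linarith [b3 f hf, b3 g hg]

end Pool.Agent.SE
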