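import Pool.Agent.P.MP_63735c_ag.SENorm
import Pool.Agent.P.MP_63735c_ag.SERel

/-! Compactness on the manifold. -/

open scoped ComplexOrder ContDiff Matrix Topology ENNReal InnerProductSpace
open Set Metric MeasureTheory Filter

namespace Pool.Agent.SE

open Pool.Agent.SPF Pool.Agent.AB

theorem sere_adm {N : ℕ} {W : Set (E N)} {χ : E N → ℝ} (hW : IsOpen W) (hχ : Tst W χ)
    (hb : ∀ y, 0 ≤ χ y ∧ χ y ≤ 1) (A : ℝ) : ∃ B : ℝ, ∀ g : E N → ℂ, ContDiffOn ℝ ∞ g W →
      ∫ z in tsupport χ, ‖g z‖ ^ 2 ≤ A → ∫ z in tsupport χ, ‖db g z‖ ^ 2 ≤ A →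
        Adm (tsupport χ) B fun y => (χ y : ℂ) * g y := by
  have hC : IsCompact (tsupport χ) := hχ.cpt
  have hs : tsupport (fun y => (χ y : ℂ)) ⊆ tsupport χ := tsupport_comp_subset Complex.ofReal_zero χ
  have hc : Tst W fun y => (χ y : ℂ) := ⟨Complex.ofRealCLM.contDiff.comp hχ.smooth,
    hχ.cpt.comp_left Complex.ofReal_zero, hs.trans hχ.sub⟩
  obtain ⟨L, hL⟩ := hC.exists_bound_of_continuousOn
    ((db_smooth hW hc.smooth.contDiffOn).continuousOn.mono hχ.sub)
  refine ⟨(2 * L ^ 2 + 2) * |A|, fun g hg h1 h2 => ?_⟩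
  obtain ⟨ht, hsub⟩ := hc.mul_on hW hg
  have hsub' := hsub.trans hs
  have hn : ∀ y, ‖(χ y : ℂ)‖ ≤ 1 := fun y => by
    rw [Complex.norm_real, Real.norm_of_nonneg (hb y).1]; exact (hb y).2
  have i1 : IntegrableOn (fun z => ‖g z‖ ^ 2) (tsupport χ) :=
    ((hg.continuousOn.mono hχ.sub).norm.pow 2).integrableOn_compact hC
  have i2 : IntegrableOn (fun z => ‖db g z‖ ^ 2) (tsupport χ) :=
    (((db_smooth hW hg).continuousOn.mono hχ.sub).norm.pow 2).integrableOn_compact hC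
  have hA := le_abs_self A
  have hA0 := abs_nonneg A
  have hz : ∀ z, z ∉ tsupport χ → (χ z : ℂ) * g z = 0 := fun z hz => by
    rw [image_eq_zero_of_notMem_tsupport hz, Complex.ofReal_zero, zero_mul]
  refine ⟨⟨ht.smooth, ht.cpt, subset_univ _⟩, hsub', ?_, ?_⟩
  · rw [← setIntegral_eq_integral_of_forall_compl_eq_zero (s := tsupport χ) fun y hy => by
      rw [hz y hy]; simp]
    refine (integral_mono_of_nonneg (Eventually.of_forall fun x => sq_nonneg _) i1
      (Eventually.of_forall fun x => ?_)).trans (by nlinarith [sq_nonneg L])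
    refine pow_le_pow_left₀ (norm_nonneg _) ?_ 2
    rw [norm_mul]
    exact mul_le_of_le_one_left (norm_nonneg _) (hn x)
  · rw [← setIntegral_eq_integral_of_forall_compl_eq_zero (s := tsupport χ) fun y hy => by
      have : db (fun y => (χ y : ℂ) * g y) y = 0 := funext fun a => (dz_zero_off isOpen_univ
        (isClosed_tsupport χ) (fun z _ h => hz z h) a y (mem_univ y) hy).2
      rw [this]; simp]
    have i3 := i1.const_mul (2 * L ^ 2)
    have i4 := i2.const_mul 2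
    have i5 : IntegrableOn (fun z => 2 * L ^ 2 * ‖g z‖ ^ 2 + 2 * ‖db g z‖ ^ 2) (tsupport χ) :=
      i3.add i4
    refine (integral_mono_of_nonneg (Eventually.of_forall fun x => sq_nonneg _) i5
      ((ae_restrict_iff' hC.measurableSet).2 (Eventually.of_forall fun x hx => ?_))).trans ?_
    · have h3 : ‖db (fun y => (χ y : ℂ) * g y) x‖ ≤ L * ‖g x‖ + ‖db g x‖ := by
        rw [db_mul (diffAt hW hc.smooth.contDiffOn (hχ.sub hx)) (diffAt hW hg (hχ.sub hx))]
        refine (norm_add_le _ _).trans (add_le_add ?_ ?_)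
        · rw [norm_smul, mul_comm]
          exact mul_le_mul_of_nonneg_right (hL x hx) (norm_nonneg _)
        · rw [norm_smul]
          exact mul_le_of_le_one_left (norm_nonneg _) (hn x)
      refine (pow_le_pow_left₀ (norm_nonneg _) h3 2).trans ?_
      nlinarith [sq_nonneg (L * ‖g x‖ - ‖db g x‖)]
    · rw [integral_add i3 i4, integral_const_mul, integral_const_mul]
      nlinarith [sq_nonneg L]

variable {N : ℕ} {ρ Y : Type} [Fintype ρ] [DecidableEq ρ] [TopologicalSpace Y] [MeasurableSpace Y]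
  [CompactSpace Y] [T2Space Y] [BorelSpace Y] {B : Bun Y N ρ}
  {D : B.Sec →ₗ[ℂ] B.Sec}

namespace Bun

theorem Ell.re_loc (h : B.Ell D) {i : B.ι} {C : Set (E N)} (hC : IsCompact C) (hs : C ⊆ B.W i)
    {e : ℝ} (he : 0 < e) : ∃ (β : Type) (_ : Fintype β) (F : B.Sec → β), ∀ V V',
      ‖V‖ ≤ 1 ∧ ‖D V‖ ≤ 1 → ‖V'‖ ≤ 1 ∧ ‖D V'‖ ≤ 1 → F V = F V' →
        ∫ z in C, ‖(V - V').v i z‖ ^ 2 ≤ Fintype.card ρ * e := by
  obtain ⟨χ, d, hχ, hb, hd, h1⟩ := exists_bump (B.isOpen i) hC hs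
  have hK : IsCompact (tsupport χ) := hχ.cpt
  obtain ⟨A1, hA1, l1⟩ := lower hK hχ.sub
  obtain ⟨A2, hA2, l2⟩ := h.gar i _ hK hχ.sub
  obtain ⟨M, hM⟩ := sere_adm (B.isOpen i) hχ hb (A1 + A2)
  obtain ⟨β, _, F, hF⟩ := rellich hK M he
  have hadm : ∀ V : B.Sec, ‖V‖ ≤ 1 ∧ ‖D V‖ ≤ 1 → ∀ r,
      Adm (tsupport χ) M fun y => (χ y : ℂ) * V.v i y r := fun V hV r => by
    refine hM _ (contDiffOn_pi.1 (V.smooth i) r) ?_ ?_
    · refine (integral_mono_of_nonneg (Eventually.of_forall fun x => sq_nonneg _)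
        ((((V.smooth i).continuousOn.mono hχ.sub).norm.pow 2).integrableOn_compact hK)
        (Eventually.of_forall fun x =>
          pow_le_pow_left₀ (norm_nonneg _) (norm_le_pi_norm (V.v i x) r) 2)).trans
        ((l1 V).trans ?_)
      nlinarith [pow_le_one₀ (n := 2) (norm_nonneg V) hV.1]
    · refine (l2 V r).trans ?_
      nlinarith [pow_le_one₀ (n := 2) (norm_nonneg (D V)) hV.2]
  refine ⟨ρ → β, inferInstance, fun V r => F fun y => (χ y : ℂ) * V.v i y r,
    fun V V' hV hV' hF' => ?_⟩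
  have hχ1 : ∀ x ∈ C, χ x = 1 := fun x hx => h1 x hx x (mem_ball_self hd)
  have hCK : C ⊆ tsupport χ := fun x hx => subset_tsupport _ (by simp [hχ1 x hx])
  have ii : ∀ r, IntegrableOn (fun y => ‖(χ y : ℂ) * V.v i y r - (χ y : ℂ) * V'.v i y r‖ ^ 2)
      (tsupport χ) := fun r =>
    (((hadm V hV r).tst.smooth.continuous.sub
      (hadm V' hV' r).tst.smooth.continuous).continuousOn.norm.pow 2).integrableOn_compact hK
  refine (integral_mono_of_nonneg (Eventually.of_forall fun x => sq_nonneg _)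
    (integrable_finsetSum Finset.univ fun r _ => (ii r).mono_set hCK)
    ((ae_restrict_iff' hC.measurableSet).2 (Eventually.of_forall fun x hx => ?_))).trans ?_
  · refine (norm_sq_le_sum _).trans (le_of_eq ?_)
    simp only [hχ1 x hx, Complex.ofReal_one, one_mul, v_sub, Pi.sub_apply]
  · rw [integral_finsetSum _ fun r _ => (ii r).mono_set hCK]
    refine (Finset.sum_le_card_nsmul _ _ e fun r _ => ?_).trans (by simp)
    exact (setIntegral_mono_set (ii r) (Eventually.of_forall fun x => sq_nonneg _)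
      hCK.eventuallyLE).trans (hF _ _ (hadm V hV r) (hadm V' hV' r) (congrFun hF' r))

theorem Ell.re (h : B.Ell D) : TotallyBounded {V : B.Sec | ‖V‖ ≤ 1 ∧ ‖D V‖ ≤ 1} := by
  obtain ⟨P⟩ := exists_PU B
  obtain ⟨A, hA, hu⟩ := P.upper
  refine Metric.totallyBounded_of_finite_discretization fun ε hε => ?_
  have t1 : Tendsto (fun e : ℝ => A * (P.m * (Fintype.card ρ * e))) (𝓝[>] 0) (𝓝 0) :=
    (Continuous.tendsto' (by fun_prop) 0 0 (by simp)).mono_left nhdsWithin_le_nhds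
  obtain ⟨e, he1, he⟩ := ((t1.eventually (gt_mem_nhds (pow_pos hε 2))).and
    self_mem_nhdsWithin).exists
  choose β hβ F hF using fun a : Fin P.m =>
    h.re_loc (i := P.c a) (C := tsupport (P.τ a)) (P.tst a).cpt (P.tst a).sub he
  refine ⟨∀ a, β a, inferInstance, fun V a => F a V, fun V V' hV => ?_⟩
  rw [dist_eq_norm]
  refine lt_of_pow_lt_pow_left₀ 2 hε.le ((hu _).trans_lt (lt_of_le_of_lt ?_ he1))
  refine mul_le_mul_of_nonneg_left ?_ hA.le
  refine (Finset.sum_le_card_nsmul _ _ _ fun a _ => hF a _ _ V.2 V'.2 (congrFun hV a)).trans ?_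
  simp

end Bun

end Pool.Agent.SE
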