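import Pool.Agent.P.MP_63735c_ag.SERp

/-! The smoothing operator kills weakly small terms. -/

open scoped ComplexOrder ContDiff Matrix Topology ENNReal InnerProductSpace
open Set Metric MeasureTheory Filter

namespace Pool.Agent.SE

open Pool.Agent.SPF Pool.Agent.AB

variable {N : ℕ} {ρ Y : Type} [Fintype ρ] [DecidableEq ρ] [TopologicalSpace Y] [MeasurableSpace Y]
  [CompactSpace Y] [T2Space Y] [BorelSpace Y] {B : Bun Y N ρ}
  {i : B.ι} {τ : E N → ℝ} {d d₀ A : ℝ} {k : E N → ℝ} {D : B.Sec →ₗ[ℂ] B.Sec}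

omit [DecidableEq ρ] in
theorem sewk_dzv_le {f : E N → ρ → ℂ} {z : E N} (hf : DifferentiableAt ℝ f z) (l : Fin N) :
    ‖dzv l f z‖ ≤ ‖fderiv ℝ f z‖ ∧ ‖dbv l f z‖ ≤ ‖fderiv ℝ f z‖ := by
  have h1 : ∀ s, ‖fderiv ℝ (fun y => f y s) z‖ ≤ ‖fderiv ℝ f z‖ := fun s => by
    rw [fderiv_apply hf s]
    refine ContinuousLinearMap.opNorm_le_bound _ (norm_nonneg _) fun v => ?_
    exact (norm_le_pi_norm (fderiv ℝ f z v) s).trans ((fderiv ℝ f z).le_opNorm v)
  exact ⟨(pi_norm_le_iff_of_nonneg (norm_nonneg _)).2 fun s => (dz_norm_le _ z l).1.trans (h1 s),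
    (pi_norm_le_iff_of_nonneg (norm_nonneg _)).2 fun s => (dz_norm_le _ z l).2.trans (h1 s)⟩

theorem sewk_bd {F : Type} [NormedAddCommGroup F] [NormedSpace ℝ F] {f : E N → F}
    (hf : ContDiff ℝ ∞ f) (hc : HasCompactSupport f) :
    ∃ M : ℝ, 0 ≤ M ∧ ∀ x, ‖f x‖ ≤ M ∧ ‖fderiv ℝ f x‖ ≤ M := by
  obtain ⟨M, hM⟩ := hf.continuous.bounded_above_of_compact_support hc
  obtain ⟨M', hM'⟩ := (hf.continuous_fderiv (by simp)).bounded_above_of_compact_support
    (hc.fderiv ℝ)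
  exact ⟨max M M', ((norm_nonneg _).trans (hM 0)).trans (le_max_left _ _),
    fun x => ⟨(hM x).trans (le_max_left _ _), (hM' x).trans (le_max_right _ _)⟩⟩

omit [DecidableEq ρ] in
theorem sewk_tst {W : Set (E N)} {m : E N → ρ → ℂ} (hm : Tst W m) (hk : ContDiff ℝ ∞ k)
    (x : E N) : Tst W (fun y => k (x - y) • m y) ∧
      tsupport (fun y => k (x - y) • m y) ⊆ tsupport m := by
  have h1 : tsupport (fun y => k (x - y) • m y) ⊆ tsupport m :=
    tsupport_smul_subset_right (fun y => k (x - y)) m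
  exact ⟨⟨(hk.comp (contDiff_const.sub contDiff_id)).smul hm.smooth,
    hm.cpt.of_isClosed_subset (isClosed_tsupport _) h1, h1.trans hm.sub⟩, h1⟩

omit [DecidableEq ρ] in
theorem sewk_der {m : E N → ρ → ℂ} (hm : ContDiff ℝ ∞ m) (hk : ContDiff ℝ ∞ k) {K M : ℝ}
    (hK : ∀ x, ‖k x‖ ≤ K ∧ ‖fderiv ℝ k x‖ ≤ K) (hM : ∀ x, ‖m x‖ ≤ M ∧ ‖fderiv ℝ m x‖ ≤ M)
    (x z : E N) : ‖fderiv ℝ (fun y => k (x - y) • m y) z‖ ≤ 2 * (K * M) := by
  have hK0 : 0 ≤ K := (norm_nonneg _).trans (hK 0).1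
  have h1 : HasFDerivAt (fun t : E N => x - t) (-ContinuousLinearMap.id ℝ (E N)) z :=
    (hasFDerivAt_id z).const_sub x
  have h2 : HasFDerivAt (fun t => k (x - t))
      ((fderiv ℝ k (x - z)).comp (-ContinuousLinearMap.id ℝ (E N))) z :=
    (hk.differentiable (by simp) (x - z)).hasFDerivAt.comp z h1
  have h3 : fderiv ℝ (fun y => k (x - y) • m y) z = _ :=
    (h2.smul (hm.differentiable (by simp) z).hasFDerivAt).fderiv
  rw [h3]
  refine (norm_add_le _ _).trans ?_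
  rw [norm_smul, ContinuousLinearMap.norm_smulRight_apply, ContinuousLinearMap.comp_neg,
    ContinuousLinearMap.comp_id, norm_neg, two_mul]
  exact add_le_add (mul_le_mul (hK _).1 (hM _).2 (norm_nonneg _) hK0)
    (mul_le_mul (hK _).2 (hM _).1 (norm_nonneg _) hK0)

namespace Bun

omit [CompactSpace Y] [T2Space Y] [BorelSpace Y] in
theorem dual_rep (hτ : Tst (B.W i) τ) (r : ρ) : ∃ m : E N → ρ → ℂ, Tst (B.W i) m ∧
    tsupport m ⊆ tsupport τ ∧ ∀ z ∈ B.W i, ∀ u : ρ → ℂ,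
      (wt (B.Ψ i) z : ℂ) * hp (B.H i z) (m z) u = (τ z • u) r := by
  have hs : ContDiffOn ℝ ∞
      (fun z => (wt (B.Ψ i) z)⁻¹ • ((B.H i z)⁻¹ *ᵥ Pi.single r (1 : ℂ))) (B.W i) :=
    ((wt_smooth (B.Ψ_smooth i)).inv fun z _ => (wt_pos _ z).ne').smul
      (((B.H_smooth i).inv fun z hz => (B.H_pos i z hz).det_pos.ne').mulVec contDiffOn_const)
  obtain ⟨h1, h2⟩ := tst_smul (B.isOpen i) hτ hs
  refine ⟨_, h1, h2, fun z hz u => ?_⟩
  have hp0 := B.H_pos i z hz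
  have hw : (wt (B.Ψ i) z : ℂ) ≠ 0 := Complex.ofReal_ne_zero.2 (wt_pos _ z).ne'
  have h3 : hp (B.H i z) ((B.H i z)⁻¹ *ᵥ Pi.single r (1 : ℂ)) u = u r := by
    rw [← hp_star hp0.1, hp, Matrix.mulVec_mulVec,
      Matrix.mul_nonsing_inv _ (Ne.isUnit hp0.det_pos.ne'), Matrix.one_mulVec,
      dotProduct_single, mul_one, Pi.star_apply, star_star]
  rw [← Complex.coe_smul, ← Complex.coe_smul, hp_smul_left, hp_smul_left, h3, Pi.smul_apply,
    Complex.real_smul]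
  simp only [RCLike.star_def, Complex.conj_ofReal, Complex.ofReal_inv, map_inv₀]
  field_simp

/-- The values of the mollification are scalar products with a bounded family of sections. -/
theorem cvv_dual (hτ : Tst (B.W i) τ) (hD : ∀ j, ∃ a b c, B.Loc D j a b c) (hk : Ker d A k)
    (r : ρ) : ∃ (φ : E N → B.Sec) (L : ℝ), ∀ x, ‖D (φ x)‖ ≤ L ∧
      ∀ V : B.Sec, cvv k (fun y => τ y • V.v i y) x r = ⟪φ x, V⟫_ℂ := by
  obtain ⟨m, hm, -, he⟩ := dual_rep hτ r
  obtain ⟨a, b, c, hl⟩ := hD i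
  obtain ⟨K, hK0, hK⟩ := sewk_bd hk.smooth hk.cpt
  obtain ⟨M, hM0, hM⟩ := sewk_bd hm.smooth hm.cpt
  obtain ⟨A₁, hA₁, h₁⟩ := upper_sup (B := B) hm.cpt hm.sub
  obtain ⟨A₂, hA₂, h₂⟩ := op_bound hm.cpt hm.sub hl.sa hl.sb hl.sc
  have hKM : 0 ≤ K * M := mul_nonneg hK0 hM0
  refine ⟨fun x => B.ex i fun y => k (x - y) • m y, A₁ * (A₂ * (2 * (K * M))), fun x => ?_⟩
  obtain ⟨ht, hs⟩ := sewk_tst hm hk.smooth x
  refine ⟨h₁ _ _ (by positivity) (Supp.map hD hm.cpt hm.sub (ex_supp ht hs)) fun z hz => ?_,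
    fun V => ?_⟩
  · rw [hl.ex_v ht (hm.sub hz)]
    have h3 := sewk_der hm.smooth hk.smooth hK hM x z
    have h4 := ht.smooth.differentiable (by simp) z
    refine h₂ _ z hz _ ?_ fun l =>
      ⟨(sewk_dzv_le h4 l).1.trans h3, (sewk_dzv_le h4 l).2.trans h3⟩
    rw [norm_smul]
    have := mul_le_mul (hK (x - z)).1 (hM z).1 (norm_nonneg _) hK0
    linarith
  · rw [inner_supp hm.sub (ex_supp ht hs) V, cvv, cv_swap,
      ← setIntegral_eq_integral_of_forall_compl_eq_zero (s := B.W i)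
        (fun z hz => by simp [V.out hz])]
    refine setIntegral_congr_fun (B.isOpen i).measurableSet fun z hz => ?_
    rw [ex_self ht hz, ← Complex.coe_smul (k (x - z)), hp_smul_left, ← he z hz]
    simp only [RCLike.star_def, Complex.conj_ofReal]
    ring

theorem Rp_weak (hτ : Tst (B.W i) τ) (hd : cthickening d₀ (tsupport τ) ⊆ B.W i) (h : B.Ell D)
    (hk : Ker d A k) (hle : d ≤ d₀) {v : ℕ → B.Sec} {b : ℝ} (hb : ∀ n, ‖v n‖ ≤ b)
    (hw : ∀ φ, Tendsto (fun n => ⟪D φ, v n⟫_ℂ) atTop (𝓝 0)) :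
    Tendsto (fun n => B.Rp i τ k (D (v n))) atTop (𝓝 0) := by
  have hC : IsCompact (cthickening d₀ (tsupport τ)) := hτ.cpt.cthickening
  choose φ L hφ using fun r => cvv_dual hτ h.loc hk r
  obtain ⟨A₁, hA₁, h₁⟩ := upper (B := B) hC hd
  have hb0 : 0 ≤ b := (norm_nonneg _).trans (hb 0)
  have hL : ∀ r, 0 ≤ L r := fun r => (norm_nonneg _).trans (hφ r 0).1
  set F : ℕ → E N → ρ → ℂ := fun n => cvv k fun y => τ y • (D (v n)).v i y with hF
  have e : ∀ n x r, F n x r = ⟪D (φ r x), v n⟫_ℂ := fun n x r =>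
    ((hφ r x).2 _).trans (h.symm _ _).symm
  have hS : 0 ≤ (∑ r, L r) * b := mul_nonneg (Finset.sum_nonneg fun r _ => hL r) hb0
  have hbd : ∀ n x, ‖F n x‖ ≤ (∑ r, L r) * b := fun n x =>
    (pi_norm_le_iff_of_nonneg hS).2 fun r => by
      rw [e]
      exact (norm_inner_le_norm _ _).trans (mul_le_mul ((hφ r x).1.trans
        (Finset.single_le_sum (fun r _ => hL r) (Finset.mem_univ r))) (hb n) (norm_nonneg _)
        (Finset.sum_nonneg fun r _ => hL r))
  have hlim : ∀ x, Tendsto (fun n => ‖F n x‖ ^ 2) atTop (𝓝 0) := fun x => by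
    have h2 : Tendsto (fun n => F n x) atTop (𝓝 0) := tendsto_pi_nhds.2 fun r => by
      simp only [e]
      exact hw _
    simpa using h2.norm.pow 2
  have : IsFiniteMeasure (volume.restrict (cthickening d₀ (tsupport τ))) :=
    ⟨by rw [Measure.restrict_apply_univ]; exact hC.measure_lt_top⟩
  have hI : Tendsto (fun n => ∫ x in cthickening d₀ (tsupport τ), ‖F n x‖ ^ 2) atTop (𝓝 0) := by
    have := tendsto_integral_of_dominated_convergence
      (μ := volume.restrict (cthickening d₀ (tsupport τ))) (F := fun n x => ‖F n x‖ ^ 2)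
      (f := fun _ => (0 : ℝ)) (fun _ => ((∑ r, L r) * b) ^ 2)
      (fun n => ((Rp_tst hτ hd hk hle (D (v n))).1.smooth.continuous.norm.pow 2).aestronglyMeasurable)
      (integrable_const _)
      (fun n => Eventually.of_forall fun x => by
        rw [norm_pow, norm_norm]
        exact pow_le_pow_left₀ (norm_nonneg _) (hbd n x) 2)
      (Eventually.of_forall hlim)
    simpa using this
  have hN : Tendsto (fun n => ‖B.Rp i τ k (D (v n))‖ ^ 2) atTop (𝓝 0) := by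
    refine squeeze_zero (fun n => sq_nonneg _) (fun n => ?_) (by simpa using hI.const_mul A₁)
    obtain ⟨ht, hs⟩ := Rp_tst hτ hd hk hle (D (v n))
    refine (h₁ _ hs).trans (le_of_eq ?_)
    congr 1
    refine setIntegral_congr_fun hC.measurableSet fun z hz => ?_
    rw [Rp, ex_self ht (hd hz)]
  rw [tendsto_zero_iff_norm_tendsto_zero]
  simpa using hN.sqrt

end Bun

end Pool.Agent.SE
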