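import Pool.Agent.P.MP_63735c_ag.SEDir
import Pool.Agent.P.MP_63735c_ag.SEPkg

/-! Objects of the proof of the Hodge decomposition for forms of type (p,0). -/

open scoped ComplexOrder ContDiff Matrix Topology ENNReal InnerProductSpace
open Set Metric MeasureTheory Filter

namespace Pool.Agent.SE

open Pool.Agent.SPF Pool.Agent.AB

variable {N : ℕ} {ρ : Type} [Fintype ρ]

/-- The derivative along a vector field. -/
noncomputable def vdE (U : E N → E N) (f : E N → ρ → ℂ) (z : E N) : ρ → ℂ := fderiv ℝ f z (U z)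

/-- A sum of squares of vector fields and a first order term. -/
noncomputable def opU {κ : Type} [Fintype κ] (U : κ → E N → E N) (b : κ → E N → Matrix ρ ρ ℂ)
    (f : E N → ρ → ℂ) (z : E N) : ρ → ℂ :=
  -∑ a, vdE (U a) (vdE (U a) f) z + ∑ a, b a z *ᵥ vdE (U a) f z

/-- Smooth coefficients on `O`, elliptic at `z₀`. -/
structure Coef {κ : Type} (O : Set (E N)) (z₀ : E N) (U : κ → E N → E N)
    (b : κ → E N → Matrix ρ ρ ℂ) : Prop where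
  isOpen : IsOpen O
  mem : z₀ ∈ O
  sU : ∀ a, ContDiffOn ℝ ∞ (U a) O
  sb : ∀ a, SmM O (b a)
  span : ∀ ξ : E N →L[ℝ] ℝ, (∀ a, ξ (U a z₀) = 0) → ξ = 0

variable [DecidableEq ρ]

/-- A top vector and the dual covector. -/
structure Du (C : Car (Matrix ρ ρ ℂ) N) where
  τ : ρ → ℂ
  l : ρ → ℂ
  one : l ⬝ᵥ τ = 1
  gam_τ : ∀ M : Mat N, C.gam M *ᵥ τ = M.det • τ
  l_gam : ∀ M : Mat N, l ᵥ* C.gam M = M.det • l
  l_i : ∀ a, l ᵥ* C.i a = 0

namespace Du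

variable {C : Car (Matrix ρ ρ ℂ) N} (T : Du C)

/-- The vector of a 1-form. -/
def em1 (α : E N) : ρ → ℂ := ∑ c, α c • C.i c *ᵥ T.τ

/-- The vector of a 2-form. -/
noncomputable def em2 (γ : Mat N) : ρ → ℂ :=
  ∑ c, ∑ d, (2⁻¹ * γ c d) • (C.i c * C.i d) *ᵥ T.τ

/-- The component of degree 0. -/
def co0 (u : ρ → ℂ) : ℂ := T.l ⬝ᵥ u

/-- The component of degree 1. -/
def co1 (u : ρ → ℂ) : E N := fun a => (T.l ᵥ* C.e a) ⬝ᵥ u

/-- The component of degree 2. -/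
def co2 (u : ρ → ℂ) : Mat N := Matrix.of fun a b => (T.l ᵥ* (C.e b * C.e a)) ⬝ᵥ u

end Du

variable {Y : Type} [TopologicalSpace Y] [MeasurableSpace Y]

/-- The square of `D` is of Laplace type. -/
def Bun.Lap (B : Bun Y N ρ) (D : B.Sec →ₗ[ℂ] B.Sec) : Prop :=
  ∀ i, ∀ z₀ ∈ B.W i, ∃ (κ : Type) (_ : Fintype κ) (O : Set (E N)) (U : κ → E N → E N)
    (b : κ → E N → Matrix ρ ρ ℂ), O ⊆ B.W i ∧ Coef O z₀ U b ∧
      ∀ V : B.Sec, ∀ z ∈ O, (D (D V)).v i z = opU U b (V.v i) z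

namespace Geo

variable (X : Geo Y N ρ)

/-- A smooth form of type (1,0). -/
structure F1 (α : X.ι → E N → E N) : Prop where
  smooth : ∀ i, ContDiffOn ℝ ∞ (α i) (X.W i)
  cpt : ∀ i j, ∀ z ∈ X.W i, ∀ y ∈ X.W j, X.p i z = X.p j y → α i z = α j y ᵥ* jac (X.ch i j) z

/-- A smooth form of type (2,0). -/
structure F2 (γ : X.ι → E N → Mat N) : Prop where
  smooth : ∀ i a b, ContDiffOn ℝ ∞ (fun z => γ i z a b) (X.W i)
  skew : ∀ i, ∀ z ∈ X.W i, (γ i z)ᵀ = -γ i z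
  cpt : ∀ i j, ∀ z ∈ X.W i, ∀ y ∈ X.W j, X.p i z = X.p j y →
    γ i z = (jac (X.ch i j) z)ᵀ * γ j y * jac (X.ch i j) z

/-- The holomorphic exterior derivative on sections. -/
structure Del [CompactSpace Y] [T2Space Y] [BorelSpace Y] (d : X.bun.Sec →ₗ[ℂ] X.bun.Sec) :
    Prop where
  eq : ∀ V i, ∀ z ∈ X.W i, (d V).v i z = ∑ l, (X.C.mat ℂ).i l *ᵥ dzv l (V.v i) z
  adj : ∀ U V, ⟪U, X.D V + d V⟫_ℂ = -⟪d U, V⟫_ℂ
  sq : ∀ V, d (d V) = 0
  hol : ∀ V ∈ X.bun.Hol, X.D V + d V = 0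

end Geo

end Pool.Agent.SE
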