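import Pool.Agent.P.MP_63735c_ag.HGDefs

/-! Forms of low degree in the Fock model. -/

open scoped Matrix ComplexOrder

namespace Pool.Agent.SE

open Pool.Agent.SPF Pool.Agent.AB

variable {N : ℕ} {ρ : Type} [Fintype ρ] [DecidableEq ρ]

theorem exists_du {C : Car (Matrix ρ ρ ℤ) N} (hC : ∀ a, C.i a = (C.e a)ᵀ) {r0 : ρ}
    (h0 : ∀ a s, C.e a r0 s = 0) : Nonempty (Du (C.mat ℂ)) := by
  obtain ⟨τ, t0, -, t2⟩ := Car.exists_top hC (d := fun _ => 0) (fun _ _ _ _ => rfl) h0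
  have h1 : ∀ a, (C.mat ℂ).e a *ᵥ τ = 0 := fun a => by
    have h2 : (C.mat ℂ).i a * (C.mat ℂ).e a =
        (C.mat ℂ).gam (Matrix.diagonal fun b => if b = a then (0 : ℂ) else 1) := by
      refine (C.mat ℂ).gam_unique ?_ fun b => ?_
      · rw [Car.ie_self, sub_mul, one_mul, mul_assoc, Car.i_vac, mul_zero, sub_zero]
      · by_cases hb : b = a
        · rw [hb, mul_assoc, Car.e2, mul_zero]
          simp [Car.ev, Matrix.diagonal_apply]
        · rw [(C.mat ℂ).n_e (Ne.symm hb)]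
          simp [Car.ev, Matrix.diagonal_apply, hb]
    have h3 := t2 (Matrix.diagonal fun b => if b = a then (0 : ℂ) else 1)
    rw [← h2, Matrix.det_diagonal, Finset.prod_eq_zero (Finset.mem_univ a) (by simp),
      zero_smul] at h3
    have h4 : (C.mat ℂ).e a = (C.mat ℂ).e a * ((C.mat ℂ).i a * (C.mat ℂ).e a) := by
      rw [Car.ie_self, mul_sub, ← mul_assoc, Car.e2, zero_mul, sub_zero, mul_one]
    rw [h4, ← Matrix.mulVec_mulVec, h3, Matrix.mulVec_zero]
  have h5 : star τ ⬝ᵥ τ ≠ 0 := fun h => t0 (dotProduct_star_self_eq_zero.1 h)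
  refine ⟨⟨τ, (star τ ⬝ᵥ τ)⁻¹ • star τ, by rw [smul_dotProduct, smul_eq_mul, inv_mul_cancel₀ h5],
    t2, fun M => ?_, fun a => ?_⟩⟩
  · rw [Matrix.smul_vecMul, smul_comm, ← Matrix.conjTranspose_conjTranspose M, ← Car.gam_h hC,
      ← Matrix.star_mulVec, t2, star_smul, Matrix.det_conjTranspose Mᴴ]
  · rw [Matrix.smul_vecMul, ← Car.mat_eh hC, ← Matrix.star_mulVec, h1, star_zero, smul_zero]

namespace Du

variable {C : Car (Matrix ρ ρ ℂ) N} (T : Du C)

theorem l_ei (a c : Fin N) : T.l ᵥ* (C.e a * C.i c) = if c = a then T.l else 0 := by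
  rw [eq_sub_of_add_eq' (eq_sub_iff_add_eq.1 (C.ie c a)), Matrix.vecMul_sub,
    ← Matrix.vecMul_vecMul, T.l_i, Matrix.zero_vecMul, sub_zero]
  split_ifs <;> simp

theorem l_eei (a b c : Fin N) : T.l ᵥ* (C.e b * C.e a * C.i c) =
    (if c = a then T.l ᵥ* C.e b else 0) - if c = b then T.l ᵥ* C.e a else 0 := by
  rw [mul_assoc, eq_sub_of_add_eq' (eq_sub_iff_add_eq.1 (C.ie c a)), mul_sub, Matrix.vecMul_sub,
    ← mul_assoc, ← Matrix.vecMul_vecMul _ (_ * _), l_ei]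
  split_ifs <;> simp

omit [DecidableEq ρ] in
theorem ite_dot (p : Prop) [Decidable p] (u v : ρ → ℂ) :
    (if p then u else 0) ⬝ᵥ v = if p then u ⬝ᵥ v else 0 := by
  split_ifs <;> simp

theorem co1_i (w : Fin N → ρ → ℂ) (a : Fin N) : T.co1 (∑ l, C.i l *ᵥ w l) a = T.co0 (w a) := by
  simp [co1, co0, dotProduct_sum, Matrix.dotProduct_mulVec, l_ei, ite_dot]

theorem co2_i (w : Fin N → ρ → ℂ) (a b : Fin N) :
    T.co2 (∑ l, C.i l *ᵥ w l) a b = T.co1 (w a) b - T.co1 (w b) a := by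
  simp [co1, co2, dotProduct_sum, Matrix.dotProduct_mulVec, l_eei, ite_dot]

theorem co1_em1 (α : E N) : T.co1 (T.em1 α) = α := by
  funext a
  simp only [em1, ← Matrix.mulVec_smul, co1_i, co0, dotProduct_smul, T.one, smul_eq_mul, mul_one]

theorem em2_eq (γ : Mat N) : T.em2 γ = ∑ c, C.i c *ᵥ T.em1 fun d => 2⁻¹ * γ c d := by
  simp only [em2, em1, Matrix.mulVec_sum, Matrix.mulVec_smul, Matrix.mulVec_mulVec]

theorem co2_em2 {γ : Mat N} (h : γᵀ = -γ) : T.co2 (T.em2 γ) = γ := by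
  ext a b
  have h1 : γ b a = -γ a b := congrFun (congrFun h a) b
  rw [em2_eq, co2_i, co1_em1, co1_em1, h1]
  ring

theorem co2_skew (u : ρ → ℂ) : (T.co2 u)ᵀ = -T.co2 u := by
  ext a b
  simp only [co2, Matrix.transpose_apply, Matrix.of_apply, Matrix.neg_apply]
  rw [C.ee, Matrix.vecMul_neg, neg_dotProduct]

theorem co0_gam (J : Mat N) (u : ρ → ℂ) : T.co0 (C.gam J *ᵥ u) = J.det * T.co0 u := by
  rw [co0, co0, Matrix.dotProduct_mulVec, T.l_gam, smul_dotProduct, smul_eq_mul]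

theorem co1_eq (u : ρ → ℂ) (a : Fin N) : T.co1 u a = T.co0 (C.e a *ᵥ u) :=
  (Matrix.dotProduct_mulVec _ _ _).symm

theorem co2_eq (u : ρ → ℂ) (a b : Fin N) : T.co2 u a b = T.co1 (C.e a *ᵥ u) b := by
  rw [co1, Matrix.dotProduct_mulVec, Matrix.vecMul_vecMul]
  rfl

theorem e_gam (J : Mat N) (u : ρ → ℂ) (b : Fin N) :
    C.gam J *ᵥ C.e b *ᵥ u = ∑ a, J a b • C.e a *ᵥ C.gam J *ᵥ u := by
  rw [Matrix.mulVec_mulVec, Car.gam_e, ← Matrix.mulVec_mulVec, Car.ev, Matrix.sum_mulVec]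
  simp only [Matrix.smul_mulVec]

theorem co1_gam (J : Mat N) (u : ρ → ℂ) : T.co1 (C.gam J *ᵥ u) ᵥ* J = J.det • T.co1 u := by
  funext b
  rw [Pi.smul_apply, smul_eq_mul, co1_eq, ← co0_gam, e_gam]
  simp only [co0, dotProduct_sum, dotProduct_smul, smul_eq_mul]
  change ∑ a, T.co1 (C.gam J *ᵥ u) a * J a b = _
  exact Finset.sum_congr rfl fun a _ => by rw [co1_eq, mul_comm]; rfl

theorem co2_gam (J : Mat N) (u : ρ → ℂ) :
    Jᵀ * T.co2 (C.gam J *ᵥ u) * J = J.det • T.co2 u := by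
  ext a b
  have h := congrFun (T.co1_gam J (C.e a *ᵥ u)) b
  rw [e_gam] at h
  rw [Matrix.smul_apply, co2_eq, ← Pi.smul_apply, ← h]
  simp only [Matrix.mul_apply, Matrix.transpose_apply, co2_eq, Matrix.vecMul, dotProduct]
  refine Finset.sum_congr rfl fun c _ => congrArg (· * _) ?_
  simp only [co1, dotProduct_sum, dotProduct_smul, smul_eq_mul]

theorem gam_i (J : Mat N) (α : E N) (u : ρ → ℂ) :
    ∑ c, (α ᵥ* J) c • C.gam J *ᵥ C.i c *ᵥ u = ∑ c, α c • C.i c *ᵥ C.gam J *ᵥ u := by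
  have h := congrArg (· *ᵥ u) (C.iv_gam J α)
  simp only [Car.iv, ← Matrix.mulVec_mulVec, Matrix.sum_mulVec, Matrix.smul_mulVec,
    Matrix.mulVec_sum, Matrix.mulVec_smul] at h
  exact h.symm

theorem gam_em1 (J : Mat N) (α : E N) : C.gam J *ᵥ T.em1 (α ᵥ* J) = J.det • T.em1 α := by
  simp only [em1, Matrix.mulVec_sum, Matrix.mulVec_smul, gam_i, T.gam_τ, Finset.smul_sum]
  exact Finset.sum_congr rfl fun c _ => smul_comm _ _ _

theorem em1_sum (c : Fin N → ℂ) (α : Fin N → E N) :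
    T.em1 (∑ a, c a • α a) = ∑ a, c a • T.em1 (α a) := by
  simp only [em1, Finset.sum_apply, Pi.smul_apply, Finset.sum_smul, Finset.smul_sum, smul_smul,
    smul_eq_mul]
  exact Finset.sum_comm

theorem gam_em2 (J γ : Mat N) : C.gam J *ᵥ T.em2 (Jᵀ * γ * J) = J.det • T.em2 γ := by
  have h1 : ∀ c, (fun d => 2⁻¹ * (Jᵀ * γ * J) c d) =
      ∑ a, J a c • ((fun d => 2⁻¹ * γ a d) ᵥ* J) := fun c => by
    funext d
    simp only [Matrix.mul_apply, Matrix.transpose_apply, Finset.sum_apply, Pi.smul_apply,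
      Matrix.vecMul, dotProduct, smul_eq_mul, Finset.mul_sum, Finset.sum_mul]
    rw [Finset.sum_comm]
    exact Finset.sum_congr rfl fun a _ => Finset.sum_congr rfl fun e _ => by ring
  simp only [em2_eq, h1, em1_sum, Matrix.mulVec_sum, Matrix.mulVec_smul, Finset.smul_sum]
  rw [Finset.sum_comm]
  refine Finset.sum_congr rfl fun a _ => ?_
  have h2 := gam_i (C := C) J (Pi.single a 1) (T.em1 ((fun d => 2⁻¹ * γ a d) ᵥ* J))
  rw [Matrix.single_one_vecMul, gam_em1] at h2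
  simpa [Pi.single_apply, Matrix.mulVec_smul] using h2

theorem i_em1 {α : Fin N → E N} (h : ∀ l c, α l c = α c l) : ∑ l, C.i l *ᵥ T.em1 (α l) = 0 := by
  simp only [em1, Matrix.mulVec_sum, ← Matrix.mulVec_smul]
  exact symv_zero C.i2 C.ii fun a b => by rw [h a b]

theorem i_em2 {γ : Fin N → Mat N} (h : ∀ a b c, γ a b c + γ b c a + γ c a b = 0) :
    ∑ l, C.i l *ᵥ T.em2 (γ l) = 0 := by
  let F : (Fin N → Fin N → Fin N → ℂ) → ρ → ℂ := fun g =>
    ∑ a, ∑ b, ∑ c, g a b c • (C.i a * (C.i b * C.i c)) *ᵥ T.τ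
  have h1 : ∀ a b c, C.i a * (C.i b * C.i c) = C.i b * (C.i c * C.i a) := fun a b c => by
    rw [← mul_assoc, C.ii a b, neg_mul, mul_assoc, C.ii a c, mul_neg, neg_neg]
  have h2 : ∀ g, F (fun a b c => g b c a) = F g := fun g => by
    simp only [F]
    rw [Finset.sum_comm]
    exact Finset.sum_congr rfl fun b _ => Finset.sum_comm.trans
      (Finset.sum_congr rfl fun c _ => Finset.sum_congr rfl fun a _ => by rw [h1])
  have h3 : F (fun a b c => γ a b c) + F (fun a b c => γ b c a) + F (fun a b c => γ c a b) = 0 := by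
    simp only [F, ← Finset.sum_add_distrib, ← add_smul, h, zero_smul, Finset.sum_const_zero]
  rw [← h2 fun a b c => γ c a b, h2 fun a b c => γ a b c] at h3
  have h4 : F (fun a b c => γ a b c) = 0 := funext fun r => by
    have := congrFun h3 r
    simp only [Pi.add_apply, Pi.zero_apply] at this ⊢
    linear_combination (1 / 3) * this
  simp only [em2, Matrix.mulVec_sum, Matrix.mulVec_smul, Matrix.mulVec_mulVec, mul_smul,
    ← Finset.smul_sum]
  exact smul_eq_zero_of_right _ h4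

end Du

end Pool.Agent.SE
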