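import Pool.Agent.P.MP_63735c_ag.HGDefs

/-! The holomorphic exterior derivative and the square of the Dirac operator. -/

open scoped ComplexOrder ContDiff Matrix Topology ENNReal InnerProductSpace
open Set Metric MeasureTheory Filter TopologicalSpace

namespace Pool.Agent.SE

open Pool.Agent.SPF Pool.Agent.AB

variable {N : ℕ} {ρ Y : Type} [Fintype ρ] [DecidableEq ρ] [TopologicalSpace Y] [MeasurableSpace Y]

namespace Geo

variable {X : Geo Y N ρ} {i j : X.ι} {O : Opens (E N)} (hd : ∀ r, X.d r = 0)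
  (h : (O : Set (E N)) ⊆ X.W i) {V : ρ → Sm O} {f : E N → ρ → ℂ}

include hd

theorem ev_dl (hf : VRep V f) (l : Fin N) : VRep ((X.ld i h).dl l V) (dzv l f) := fun x => by
  ext r
  rw [Function.comp_apply, LD.dl_apply, map_add, map_mul, ev_lam, hd, Nat.cast_zero, zero_mul,
    neg_zero, zero_mul, add_zero, ← (hf.dv l).1 x]
  rfl

theorem ev_del (hf : VRep V f) :
    VRep ((X.ld i h).del V) fun z => ∑ l, (X.C.mat ℂ).i l *ᵥ dzv l f z := fun x => by
  simp only [LD.del, Chg.comp_sum, (Chg.comp_e _ _).2, ev_dl hd h hf _ x]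

theorem del_cpt {V : X.ι → E N → ρ → ℂ} (hV : X.bun.Fam V) {z y : E N}
    (hz : z ∈ X.W i) (hy : y ∈ X.W j) (e : X.p i z = X.p j y) :
    ∑ l, (X.C.mat ℂ).i l *ᵥ dzv l (V j) y =
      X.G i j z *ᵥ ∑ l, (X.C.mat ℂ).i l *ᵥ dzv l (V i) z := by
  obtain ⟨J, J', g, hc, hG⟩ := chg i j
  have hi := vrep_mk (O := X.ov i j) ((hV.smooth i).mono inter_subset_left)
  have hj := vrep_mk (O := X.dom j) (hV.smooth j)
  have hp : ∀ (x : X.ov i j) (U : ρ → Sm (X.dom j)),
      evr x ∘ (Sm.pull (X.ch i j) ov_hol ov_maps).toRingHom ∘ U = evr ⟨_, ov_maps x.2⟩ ∘ U :=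
    fun x U => funext fun r => Sm.ev_pull _ _ _ x
  have he : (Sm.pull (X.ch i j) ov_hol ov_maps).toRingHom ∘ mkV (O := X.dom j) (V j) (hV.smooth j) =
      (Matrix.diagonal g * (X.C.mat _).gam J) *ᵥ
        mkV (V i) ((hV.smooth i).mono inter_subset_left) := by
    ext r x
    obtain ⟨-, h2, h3⟩ := (ov_Ch x.2).self_of_nhds
    have h4 := evr_mulVec x (Matrix.diagonal g * (X.C.mat _).gam J)
      (mkV (V i) ((hV.smooth i).mono inter_subset_left))
    rw [hG, hi] at h4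
    exact (congrFun ((hp x _).trans ((hj _).trans (hV.cpt i j x x.2.1 _ h2 h3.symm))) r).trans
      (congrFun h4 r).symm
  let x : X.ov i j := ⟨z, hz, y, hy, e.symm⟩
  have h1 := congrArg (evr x ∘ ·) (hc.del_eq he)
  simp only [hp, evr_mulVec, hG] at h1
  rw [ev_del hd _ hj, ev_del hd _ hi] at h1
  simpa only [x, ch_eq hy e] using h1

variable (X)

theorem DD_eq (i : X.ι) : ∃ a : Fin N → E N → Matrix ρ ρ ℂ,
    (∀ k, SmM (X.W i) (a k)) ∧ ∀ V : X.bun.Sec, ∀ z ∈ X.W i, (X.D (X.D V)).v i z =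
      -∑ l, ∑ k, ((X.K i z)⁻¹)ᵀ l k • dzv l (dbv k (V.v i)) z +
        ∑ k, a k z *ᵥ dbv k (V.v i) z := by
  let m : Fin N → Matrix ρ ρ (Sm (X.dom i)) := fun k =>
    -∑ l, (X.C.mat _).i l * (X.C.mat _).ev fun a => (X.L i).d l ((X.L i).M' a k)
  refine ⟨fun k z => Matrix.of fun r s => (m k r s).fn z, fun k r s => (m k r s).smooth,
    fun V z hz => ?_⟩
  have h1 : ∀ k, (Matrix.of fun r s => (m k r s).fn z) = (m k).map (evr ⟨z, hz⟩) := fun k => by
    ext r s
    exact (m k r s).fn_apply hz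
  have h2 : ∀ l k, (X.L i).Th l k = 0 := fun l k => by
    ext r s x
    have := congrFun (congrFun (ev_Th (X := X) (i := i) (O := X.dom i) Subset.rfl x l k) r) s
    simpa [hd, Matrix.diagonal_apply, evr] using this
  have h3 : (X.L i).D ((X.L i).D (sv V i)) =
      -∑ l, ∑ k, (X.L i).M' l k • (X.L i).dl l (dv ((X.L i).db k) (sv V i)) +
        ∑ k, m k *ᵥ dv ((X.L i).db k) (sv V i) := by
    simp only [LD.D_D, h2, Matrix.zero_mulVec, Matrix.mulVec_zero, zero_sub,
      Finset.sum_sub_distrib, Finset.sum_neg_distrib, m, Matrix.neg_mulVec, Matrix.sum_mulVec]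
    rw [sub_eq_add_neg, Finset.sum_comm (f := fun l k => (_ * _ : Matrix ρ ρ _) *ᵥ _)]
  have h4 : ∀ k, VRep (dv ((X.L i).db k) (sv V i)) (dbv k (V.v i)) := fun k =>
    ((sv_rep V i).dv k).2
  rw [← rep_D (rep_D (sv_rep V i)) ⟨z, hz⟩, h3]
  simp only [h1, ← h4 _ ⟨z, hz⟩, ← evr_mulVec, ← ev_dl hd Subset.rfl (h4 _) _ ⟨z, hz⟩]
  ext r
  simp only [Function.comp_apply, Pi.add_apply, Pi.neg_apply, Finset.sum_apply, Pi.smul_apply,
    smul_eq_mul, map_add, map_neg, map_sum, map_mul]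
  rfl

theorem exists_del [CompactSpace Y] [T2Space Y] [BorelSpace Y] : ∃ d, X.Del d := by
  let d : X.bun.Sec →ₗ[ℂ] X.bun.Sec :=
    X.bun.lin (fun V i z => ∑ l, (X.C.mat ℂ).i l *ᵥ dzv l (V.v i) z)
      (fun V => ⟨fun i => ContDiffOn.sum fun l _ => (SmM.const _).mulVec
        (dzv_smooth (X.isOpen i) (V.smooth i) l).1, fun i j z hz y hy e => del_cpt hd V.fam hz hy e⟩)
      (fun V V' i z hz => by
        rw [← Finset.sum_add_distrib]
        exact Finset.sum_congr rfl fun l _ => by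
          rw [← Matrix.mulVec_add, ← (dzv_add (diffAt (X.isOpen i) (V.smooth i) hz)
            (diffAt (X.isOpen i) (V'.smooth i) hz) l).1]
          rfl)
      fun c V i z hz => by
        rw [Finset.smul_sum]
        exact Finset.sum_congr rfl fun l _ => by
          rw [← Matrix.mulVec_smul, ← (dzv_const_smul (diffAt (X.isOpen i) (V.smooth i) hz) c l).1]
          rfl
  have he : ∀ V i, ∀ z ∈ X.W i, (d V).v i z = ∑ l, (X.C.mat ℂ).i l *ᵥ dzv l (V.v i) z :=
    fun V i z hz => Bun.lin_v V hz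
  have hr : ∀ {i : X.ι} {V : X.bun.Sec} {U : ρ → Sm (X.dom i)}, VRep U (V.v i) →
      VRep ((X.L i).del U) ((d V).v i) := fun h x => (ev_del hd _ h x).trans (he _ _ x x.2).symm
  have hT : ∀ {i : X.ι} {V : X.bun.Sec} {U : ρ → Sm (X.dom i)}, VRep U (V.v i) →
      VRep ((X.L i).T U) ((X.D V + d V).v i) := fun {i V U} h x => by
    rw [Bun.v_add, ← rep_D h x, ← hr h x]
    ext r
    simp [LD.D]
  have hl : ∀ i, ∃ a b c, X.bun.Loc d i a b c := fun i =>
    ⟨fun l _ => (X.C.mat ℂ).i l, fun _ _ => 0, fun _ => 0, fun _ => SmM.const _,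
      fun _ => SmM.const _, SmM.const _, fun V z hz => by simp [he V i z hz, op]⟩
  refine ⟨d, he, fun U V => ?_, fun V => Bun.Sec.ext' fun i z hz => ?_,
    fun V hV => Bun.Sec.ext' fun i z hz => ?_⟩
  · obtain ⟨P⟩ := exists_PU X.bun
    rw [← P.decomp U, map_sum, sum_inner, sum_inner, ← Finset.sum_neg_distrib]
    refine Finset.sum_congr rfl fun a _ => ?_
    obtain ⟨h1, h2⟩ := tst_smul (X.isOpen _) (P.tst a) (U.smooth (P.c a))
    have hU := Bun.ex_supp (B := X.bun) h1 h2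
    have hC : IsCompact (tsupport (P.τ a)) := (P.tst a).cpt
    have h := (P.tst a).sub
    generalize X.bun.ex _ _ = U at hU ⊢
    generalize P.c a = i at hU h
    have hD := hU.map hl hC h
    have hu := zc_supp hU h (sv_rep U i)
    have h3 := (zc_hp (X.L i) (zc_supp hD h (hr (sv_rep U i))) (sv V i)).1
    have h4 := (zc_hp (X.L i) hu ((X.L i).T (sv V i))).1
    rw [Bun.inner_supp h hD, Bun.inner_supp h hU, eq_neg_iff_add_eq_zero]
    refine (congrArg₂ _ (sint_rep (rep_hp _ _ (sv_rep U i) (hT (sv_rep V i))))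
      (sint_rep (rep_hp _ _ (hr (sv_rep U i)) (sv_rep V i)))).symm.trans ?_
    rw [← sint_add hC h h4 h3, LD.hp_T]
    have h5 := (sint_d hC h (fun k => (zc_hp (X.L i) (zc_mulVec ((X.C.mat _).i k) hu)
      (sv V i)).1) (zero_mem _)).2
    rw [zero_add] at h5
    exact h5.trans ((sint_rep (f := fun _ => 0) fun _ => map_zero _).trans (integral_zero _ _))
  · rw [← hr (hr (sv_rep V i)) ⟨z, hz⟩, LD.del_del]
    exact funext fun r => map_zero _
  · have h1 : ∀ k, dv ((X.L i).db k) (sv V i) = 0 := fun k => funext fun r =>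
      (Sm.rep_mk _ _).db_eq_zero (differentiableOn_pi.1 (hV i) r) k
    rw [← hT (sv_rep V i) ⟨z, hz⟩, LD.T]
    simp only [h1, Matrix.mulVec_zero, Finset.sum_const_zero]
    exact funext fun r => map_zero _

end Geo

end Pool.Agent.SE
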