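import Pool.Agent.P.MP_63735c_ag.HGDefs
import Pool.Agent.P.MP_65ad7c_ag.HEReg
import Pool.Agent.P.MP_65ad7c_ag.HEF4

/-! Local regularity of very weak solutions in complex coordinates. -/

open scoped ComplexOrder ContDiff Matrix Topology InnerProductSpace NNReal
open Set Metric MeasureTheory Filter

namespace Pool.Agent.SE

open Pool.Agent.SPF Pool.Agent.AB Pool.Agent.HT

variable {N : ℕ} {ρ : Type} [Fintype ρ] [DecidableEq ρ]

omit [DecidableEq ρ] in
theorem opU_zero {κ : Type} [Fintype κ] (U : κ → E N → E N) (b : κ → E N → Matrix ρ ρ ℂ)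
    {φ : E N → ρ → ℂ} {z : E N} (hz : z ∉ tsupport φ) : opU U b φ z = 0 := by
  have h1 : ∀ (V : E N → E N) {φ : E N → ρ → ℂ}, φ =ᶠ[𝓝 z] 0 → vdE V φ =ᶠ[𝓝 z] 0 :=
    fun V φ h => h.eventuallyEq_nhds.mono fun y hy => by simp [vdE, hy.fderiv_eq]
  have h2 := notMem_tsupport_iff_eventuallyEq.1 hz
  simp [opU, fun a => (h1 (U a) h2).self_of_nhds, fun a => (h1 (U a) (h1 (U a) h2)).self_of_nhds]

theorem regE {κ : Type} [Fintype κ] {O : Set (E N)} {z₀ : E N} {U : κ → E N → E N}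
    {b : κ → E N → Matrix ρ ρ ℂ} (h : Coef O z₀ U b) {u f : E N → ρ → ℂ}
    (hu : IntegrableOn u O) (hf : ContDiffOn ℝ ∞ f O)
    (hw : ∀ φ : E N → ρ → ℂ, Tst O φ →
      ∫ z in O, star (u z) ⬝ᵥ opU U b φ z = ∫ z in O, star (f z) ⬝ᵥ φ z) :
    ∃ (r : ℝ) (g : E N → ρ → ℂ), 0 < r ∧ ContDiff ℝ ∞ g ∧
      ∀ᵐ z ∂volume.restrict (ball z₀ r), u z = g z := by
  let L : EE (Module.finrank ℝ (E N)) ≃L[ℝ] E N := ContinuousLinearEquiv.ofFinrankEq (by simp)
  let T : (ρ → ℂ) ≃L[ℝ] EuclideanSpace ℂ ρ := (PiLp.continuousLinearEquiv 2 ℝ fun _ => ℂ).symm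
  have hT : ∀ x y, ⟪T x, T y⟫_ℂ = star x ⬝ᵥ y := fun x y =>
    (EuclideanSpace.inner_toLp_toLp x y).trans (dotProduct_comm _ _)
  have hL : MeasurableEmbedding L := L.toHomeomorph.measurableEmbedding
  obtain ⟨c, hc, hm⟩ : ∃ c : ℝ≥0, c ≠ 0 ∧ Measure.map L volume = c • volume :=
    ⟨_, (Measure.addHaarScalarFactor_pos_of_isAddHaarMeasure _ _).ne',
      Measure.isAddLeftInvariant_eq_smul _ _⟩
  let β : (ρ → ρ → ℂ) →ₗ[ℝ] EuclideanSpace ℂ ρ →L[ℂ] EuclideanSpace ℂ ρ :=
    { toFun := fun A => Matrix.toEuclideanCLM (𝕜 := ℂ) (Matrix.of A)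
      map_add' := fun A B => map_add _ (Matrix.of A) (Matrix.of B)
      map_smul' := fun t A => map_smul (Matrix.toEuclideanCLM (𝕜 := ℂ)) (t : ℂ) (Matrix.of A) }
  have hO : IsOpen (L ⁻¹' O) := h.isOpen.preimage L.continuous
  have h0 : L.symm z₀ ∈ L ⁻¹' O := by simpa using h.mem
  have hc' : ∀ {G : Type} [NormedAddCommGroup G] [NormedSpace ℝ G] {g : E N → G},
      ContDiffOn ℝ ∞ g O → ContDiffOn ℝ ∞ (fun y => g (L y)) (L ⁻¹' O) := fun hg =>
    hg.comp L.contDiff.contDiffOn fun _ hy => hy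
  obtain ⟨ε, hε, hs⟩ := nhds_basis_closedBall.mem_iff.1 (hO.mem_nhds h0)
  obtain ⟨χ, hχ, h1⟩ := exists_test (isCompact_closedBall _ _) hO hs
  have hX := fun a => (hχ.smul hO (L.symm.contDiff.comp_contDiffOn (hc' (h.sU a)))).1
  have hB := fun a => (hχ.smul hO (β.toContinuousLinearMap.contDiff.comp_contDiffOn (hc'
    (g := fun z r s => b a z r s) (contDiffOn_pi.2 fun r => contDiffOn_pi.2 (h.sb a r))))).1
  obtain ⟨r, ⟨h2, hr⟩, hr0⟩ := (((regloc hX hB (contDiff_const (c := 0)) (y₀ := L.symm z₀)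
    fun ξ hξ => by
      have h2 := h.span ((innerSL ℝ ξ).comp L.symm.toContinuousLinearMap) fun a => by
        simpa [h1 _ (mem_closedBall_self hε.le)] using hξ a
      simpa using DFunLike.congr_fun h2 (L ξ)).and
    (nhdsWithin_le_nhds (eventually_le_nhds hε))).and self_mem_nhdsWithin).exists
  have h3 : ball (L.symm z₀) r ⊆ closedBall (L.symm z₀) ε :=
    ball_subset_closedBall.trans (closedBall_subset_closedBall hr)
  have h4 : L.symm ⁻¹' ball (L.symm z₀) r ⊆ O := fun z hz => by simpa using hs (h3 hz)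
  have h5 : L ⁻¹' (L.symm ⁻¹' ball (L.symm z₀) r) = ball (L.symm z₀) r := by
    ext y
    simp
  have h6 : ∀ g : E N → ℂ, (∀ z, L.symm z ∉ ball (L.symm z₀) r → g z = 0) →
      ∫ y in ball (L.symm z₀) r, g (L y) = c • ∫ z in O, g z := fun g hg => by
    rw [← h5, ← hL.setIntegral_map, hm, Measure.restrict_smul, integral_smul_nnreal_measure,
      setIntegral_eq_of_subset_of_forall_sdiff_eq_zero h.isOpen.measurableSet h4
        fun z hz => hg z hz.2]
  have h7 : ∀ s, FL s (ball (L.symm z₀) r) fun y => T (u (L y)) := fun s => by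
    induction s with
    | zero =>
      refine fl_of_integrableOn measurableSet_ball (T.integrable_comp_iff.2 ?_)
      rw [← h5]
      refine hL.integrableOn_map_iff.1 ?_
      rw [hm, IntegrableOn, Measure.restrict_smul]
      exact (hu.mono_set h4).smul_measure_nnreal
    | succ s ih =>
      refine h2 _ (fun y => T (f (L y))) s (fun Φ hΦ => ?_) ih (fl_of_contDiffOn isOpen_ball
        ((T.contDiff.comp_contDiffOn (hc' hf)).mono (h3.trans hs)) s)
      let φ : E N → ρ → ℂ := fun z => T.symm (Φ (L.symm z))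
      have a1 : tsupport φ ⊆ L.symm ⁻¹' tsupport Φ :=
        closure_minimal (fun z hz => subset_tsupport _ fun e => hz (by simp [φ, e]))
          ((isClosed_tsupport _).preimage L.symm.continuous)
      have a2 : ∀ z, L.symm z ∉ ball (L.symm z₀) r → z ∉ tsupport φ :=
        fun z hz hz' => hz (hΦ.2.2 (a1 hz'))
      have a3 : Tst O φ := ⟨T.symm.contDiff.comp (hΦ.1.comp L.symm.contDiff),
        (L.symm.toHomeomorph.isCompact_preimage.2 hΦ.2.1).of_isClosed_subset
          (isClosed_tsupport _) a1, fun z hz => h4 (hΦ.2.2 (a1 hz))⟩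
      have a4 : ∀ a {Ψ} {ψ : E N → ρ → ℂ}, (∀ y ∈ ball (L.symm z₀) r, Ψ y = T (ψ (L y))) →
          ∀ y ∈ ball (L.symm z₀) r, vd (fun y => χ y • (L.symm ∘ fun y => U a (L y)) y) Ψ y =
            T (vdE (U a) ψ (L y)) := fun a Ψ ψ e y hy => by
        have b1 : Ψ =ᶠ[𝓝 y] T ∘ (ψ ∘ L) := mem_of_superset (isOpen_ball.mem_nhds hy) e
        rw [vd, b1.fderiv_eq, T.comp_fderiv, L.comp_right_fderiv, h1 y (h3 hy)]
        simp [vdE]
      have a5 : ∀ y ∈ ball (L.symm z₀) r, Φ y = T (φ (L y)) := fun y _ => by simp [φ]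
      have a6 := hw φ a3
      apply_fun (c • ·) at a6
      rw [← h6 _ fun z hz => by rw [opU_zero U b (a2 z hz), dotProduct_zero], ← h6 _ fun z hz => by
        rw [image_eq_zero_of_notMem_tsupport (a2 z hz), dotProduct_zero]] at a6
      refine (setIntegral_congr_fun measurableSet_ball fun y hy => ?_).trans
        (a6.trans (setIntegral_congr_fun measurableSet_ball fun y hy => ?_))
      · simp only [← hT, opP, opU, a4 _ a5 y hy, a4 _ (a4 _ a5) y hy, h1 y (h3 hy), one_smul,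
          map_add, map_neg, map_sum, zero_apply, add_zero]
        rfl
      · simp only [← hT, a5 y hy]
  obtain ⟨χ', b1, b2⟩ := exists_test (isCompact_closedBall (L.symm z₀) (r / 2)) isOpen_ball
    (closedBall_subset_ball (half_lt_self hr0))
  obtain ⟨w, b3, b4⟩ := FH.smooth fun s => h7 s χ' b1
  obtain ⟨r', b5, b6⟩ := Metric.mem_nhds_iff.1 (L.symm.continuous.continuousAt.preimage_mem_nhds
    (closedBall_mem_nhds (L.symm z₀) (half_pos hr0)))
  refine ⟨r', fun z => T.symm (w (L.symm z)), b5, T.symm.contDiff.comp (b3.comp L.symm.contDiff),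
    (ae_restrict_iff' measurableSet_ball).2 ?_⟩
  have b7 : ∀ᵐ z ∂Measure.map L volume, z ∈ ball z₀ r' → u z = T.symm (w (L.symm z)) := by
    refine hL.ae_map_iff.2 (b4.mono fun y hy hz => ?_)
    have b8 := b2 _ (b6 hz)
    simp only [L.symm_apply_apply] at b8 ⊢
    rw [← hy]
    simp [b8]
  rwa [hm, Measure.ae_smul_measure_iff hc] at b7

end Pool.Agent.SE
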