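import Pool.Agent.P.MP_63735c_ag.HGb
import Pool.Agent.P.MP_63735c_ag.HGc
import Pool.Agent.P.MP_63735c_ag.HGd
import Pool.Agent.P.MP_63735c_ag.HGf

/-! The Hodge decomposition of closed sections. -/

open scoped ComplexOrder ContDiff Matrix Topology ENNReal InnerProductSpace
open Set Metric MeasureTheory Filter

namespace Pool.Agent.SE

open Pool.Agent.SPF Pool.Agent.AB

theorem Pkg.solve {S : Type} [NormedAddCommGroup S] [InnerProductSpace ℂ S] {D : S →ₗ[ℂ] S}
    {Hol : Set S} (h : Pkg D Hol) (reg : ∀ (u : ℕ → S) (f : S), CauchySeq u →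
      Tendsto (fun k => D (u k)) atTop (𝓝 f) → ∃ V, Tendsto u atTop (𝓝 V)) (s : S) :
    ∃ H ∈ Hol, ∃ V, D H = 0 ∧ s = H + D V := by
  have cl : ∀ {u : ℕ → S} {V f : S}, Tendsto u atTop (𝓝 V) →
      (∀ φ, Tendsto (fun k => ⟪D φ, u k⟫_ℂ) atTop (𝓝 ⟪φ, f⟫_ℂ)) → D V = f := fun hu hf =>
    ext_inner_left ℂ fun φ => by
      rw [← h.symm]
      exact tendsto_nhds_unique (tendsto_const_nhds.inner hu) (hf φ)
  have cl' : ∀ {u : ℕ → S} {V f : S}, Tendsto u atTop (𝓝 V) →
      Tendsto (fun k => D (u k)) atTop (𝓝 f) → D V = f := fun hu hf => cl hu fun φ => by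
    simpa only [h.symm] using (tendsto_const_nhds (x := φ)).inner (𝕜 := ℂ) hf
  let K := LinearMap.ker D
  have : CompleteSpace K := Metric.complete_of_cauchySeq_tendsto fun a ha => by
    have e : ∀ k, D (a k) = 0 := fun k => (a k).2
    obtain ⟨V, -, hV⟩ := h.strong (uniformContinuous_subtype_val.comp_cauchySeq ha)
      (by simp [e])
    exact ⟨⟨V, cl' hV (by simp [e])⟩, tendsto_subtype_rng.2 hV⟩
  have z : ∀ (a : ℕ → Kᗮ) (V : S), Tendsto (fun k => (a k : S)) atTop (𝓝 V) → D V = 0 →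
      Tendsto (fun k => ‖a k‖) atTop (𝓝 0) := fun a V hV e => by
    have h1 : V ∈ Kᗮ := K.isClosed_orthogonal.mem_of_tendsto hV
      (Eventually.of_forall fun k => (a k).2)
    rw [inner_self_eq_zero.1 (Submodule.inner_right_of_mem_orthogonal (K := K) e h1)] at hV
    exact (tendsto_zero_iff_norm_tendsto_zero (f := fun k => (a k : S))).1 hV
  have hD : ∀ V, D V ∈ Kᗮ := fun V u hu => by
    rw [← h.symm, show D u = 0 from hu, inner_zero_left]
  have hden : DenseRange (D.codRestrict Kᗮ hD) := den _ fun v hc hw => by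
    have h1 : ∀ φ, Tendsto (fun k => ⟪D φ, (v k : S)⟫_ℂ) atTop (𝓝 0) := fun φ => by
      have h3 := (Complex.continuous_conj.tendsto 0).comp (hw φ)
      simp only [Function.comp_def, inner_conj_symm, map_zero] at h3
      exact h3
    obtain ⟨V, -, hV⟩ := h.wh _ (uniformContinuous_subtype_val.comp_cauchySeq hc) h1
    exact z v V hV (cl hV fun φ => by rw [inner_zero_right]; exact h1 φ)
  obtain ⟨C, hC, hb⟩ := fa_bound (D.domRestrict Kᗮ)
    (totallyBounded_preimage isUniformEmbedding_subtype_val.isUniformInducing h.re)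
    fun a hc h0 => by
      obtain ⟨V, -, hV⟩ := h.strong (uniformContinuous_subtype_val.comp_cauchySeq hc) h0
      exact z a V hV (cl' hV (tendsto_zero_iff_norm_tendsto_zero.2 h0))
  obtain ⟨H, hH, x, hx, e⟩ := K.exists_add_mem_mem_orthogonal s
  obtain ⟨u, hu, hux⟩ := mem_closure_iff_seq_limit.1 (hden ⟨x, hx⟩)
  choose a ha using hu
  choose b hb' c hc e' using fun k => K.exists_add_mem_mem_orthogonal (a k)
  have h1 : Tendsto (fun k => D (c k)) atTop (𝓝 x) :=
    (tendsto_subtype_rng.1 hux).congr fun k => by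
      rw [← ha, LinearMap.codRestrict_apply, e', map_add, show D (b k) = 0 from hb' k, zero_add]
  have h2 : CauchySeq c := by
    have h3 := h1.cauchySeq
    rw [Metric.cauchySeq_iff] at h3 ⊢
    intro ε hε
    obtain ⟨M, hM⟩ := h3 (ε / C) (by positivity)
    refine ⟨M, fun m hm n hn => ?_⟩
    have h4 := hM m hm n hn
    have h5 : ‖c m - c n‖ ≤ C * ‖D (c m - c n)‖ := hb ⟨_, Kᗮ.sub_mem (hc m) (hc n)⟩
    rw [dist_eq_norm, ← map_sub, lt_div_iff₀ (by positivity)] at h4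
    rw [dist_eq_norm]
    linarith
  obtain ⟨V, hV⟩ := reg c x h2 h1
  obtain ⟨H', h4, h5⟩ := h.strong (v := fun _ => H) (cauchySeq_const H)
    (by simp [show D H = 0 from hH])
  exact ⟨H, tendsto_nhds_unique h5 tendsto_const_nhds ▸ h4, V, hH, by rw [cl' hV h1, e]⟩

variable {N : ℕ} {ρ Y : Type} [Fintype ρ] [DecidableEq ρ] [TopologicalSpace Y] [MeasurableSpace Y]

namespace Geo

variable (X : Geo Y N ρ)

theorem lap (hd : ∀ r, X.d r = 0) : X.bun.Lap X.D := by
  intro i z₀ hz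
  obtain ⟨a, ha, e⟩ := X.DD_eq hd i
  have hp : ∀ z ∈ X.W i, ((X.K i z)⁻¹)ᵀ.PosDef := fun z hz => ((X.kah i).pos z hz).inv.transpose
  obtain ⟨κ, _, O, P, h1, h2, h3, h4, h5⟩ := sos (X.isOpen i) (M := fun z => ((X.K i z)⁻¹)ᵀ)
    (fun a b => (X.kah i).inv_smooth b a) hp hz
  obtain ⟨U, b, h6, h7⟩ := lap_form h1 h4 h5 (fun z hz => (hp z (h3 hz)).det_pos.ne')
    (fun k r s => (ha k r s).mono h3) h2
  exact ⟨_, inferInstance, O, U, b, h3, h6, fun V z hz =>
    (e V z (h3 hz)).trans (h7 _ ((V.smooth i).mono h3) z hz).symm⟩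

variable [CompactSpace Y] [T2Space Y] [BorelSpace Y] {X}

theorem Del.solve {d : X.bun.Sec →ₗ[ℂ] X.bun.Sec} (h : X.Del d) (hd : ∀ r, X.d r = 0)
    {s : X.bun.Sec} (hs : d s = 0) : ∃ H ∈ X.bun.Hol, ∃ V, s = H + d V := by
  obtain ⟨H, hH, V, h1, e⟩ := X.ell.pkg.solve
    (fun u f hu hf => Bun.reg X.ell (X.lap hd) hu hf) s
  have h2 : d H = 0 := by simpa only [h1, zero_add] using h.hol H hH
  have h3 : d (X.D V + d V) = 0 := by
    rw [e, map_add, h2, zero_add] at hs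
    rw [map_add, hs, h.sq, zero_add]
  have h4 : X.D V + d V = 0 := inner_self_eq_zero.1 (by
    rw [h.adj, h3, inner_zero_left, neg_zero] : ⟪X.D V + d V, X.D V + d V⟫_ℂ = 0)
  exact ⟨H, hH, -V, by rw [map_neg, e, eq_neg_of_add_eq_zero_left h4]⟩

end Geo

end Pool.Agent.SE
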