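import Pool.Agent.P.MP_63735c_ag.CLDefs

/-! Affine changes of variables, selection, and a Poincare inequality on convex sets. -/

open scoped ENNReal
open Set Metric MeasureTheory Filter Topology

namespace Pool.Agent.CL

variable {F : Type} [NormedAddCommGroup F] [NormedSpace ℝ F] [FiniteDimensional ℝ F]
  [MeasurableSpace F] [BorelSpace F] {μ : Measure F} [μ.IsAddHaarMeasure]

theorem hm_chg {s s' : Set F} (hs : MeasurableSet s) (a : F) (L : F →L[ℝ] F)
    (hL : Function.Injective L) (hm : ∀ x ∈ s, a + L x ∈ s') {c : ℝ} (hc : c ≤ |L.det|)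
    (G : F → ℝ≥0∞) : ENNReal.ofReal c * ∫⁻ x in s, G (a + L x) ∂μ ≤ ∫⁻ x in s', G x ∂μ := by
  have h := lintegral_image_eq_lintegral_abs_det_fderiv_mul μ hs (f := fun x => a + L x)
    (f' := fun _ => L) (fun x _ => (L.hasFDerivAt.const_add a).hasFDerivWithinAt)
    (fun x _ y _ hxy => hL (add_left_cancel hxy)) G
  calc _ ≤ ∫⁻ x in s, ENNReal.ofReal c * G (a + L x) ∂μ := lintegral_const_mul_le _ _
    _ ≤ ∫⁻ x in s, ENNReal.ofReal |L.det| * G (a + L x) ∂μ :=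
        lintegral_mono fun x => mul_le_mul_left (ENNReal.ofReal_le_ofReal hc) _
    _ = _ := h.symm
    _ ≤ _ := lintegral_mono_set (by rintro _ ⟨x, hx, rfl⟩; exact hm x hx)

theorem hm_tr {s s' : Set F} (hs : MeasurableSet s) (a : F) (hm : ∀ x ∈ s, a + x ∈ s')
    (G : F → ℝ≥0∞) : ∫⁻ x in s, G (a + x) ∂μ ≤ ∫⁻ x in s', G x ∂μ := by
  have h := hm_chg (μ := μ) hs a (ContinuousLinearMap.id ℝ F) Function.injective_id hm (c := 1)
    (by simp [ContinuousLinearMap.det]) G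
  simpa using h

theorem hm_hom {s : Set F} (hs : MeasurableSet s) (hc : Convex ℝ s) {a : F} (ha : a ∈ s) {t : ℝ}
    (h1 : 1 / 2 ≤ t) (h2 : t ≤ 1) (G : F → ℝ≥0∞) :
    ∫⁻ x in s, G (a + t • (x - a)) ∂μ ≤ 2 ^ Module.finrank ℝ F * ∫⁻ x in s, G x ∂μ := by
  have ht : 0 < t := by linarith
  have h := hm_chg (μ := μ) (s' := s) hs (a - t • a) (t • ContinuousLinearMap.id ℝ F)
    (fun x y hxy => smul_right_injective F ht.ne' (by simpa using hxy))
    (fun x hx => by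
      have := hc.add_smul_sub_mem ha hx ⟨ht.le, h2⟩
      convert this using 1
      simp only [ContinuousLinearMap.smul_apply, ContinuousLinearMap.id_apply]
      module)
    (c := (1 / 2) ^ Module.finrank ℝ F)
    (by
      have e : (t • ContinuousLinearMap.id ℝ F).det = t ^ Module.finrank ℝ F := by
        simp [ContinuousLinearMap.det]
      rw [e, abs_of_pos (by positivity)]
      exact pow_le_pow_left₀ (by norm_num) h1 _) G
  have e : ∀ x, a - t • a + (t • ContinuousLinearMap.id ℝ F) x = a + t • (x - a) := fun x => by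
    simp only [ContinuousLinearMap.smul_apply, ContinuousLinearMap.id_apply]
    module
  simp only [e] at h
  have e2 : (2 : ℝ≥0∞) ^ Module.finrank ℝ F * ENNReal.ofReal ((1 / 2) ^ Module.finrank ℝ F) = 1 := by
    rw [ENNReal.ofReal_pow (by norm_num), ← mul_pow, ENNReal.ofReal_div_of_pos (by norm_num)]
    simp [ENNReal.mul_inv_cancel]
  calc _ = 2 ^ Module.finrank ℝ F * (ENNReal.ofReal ((1 / 2) ^ Module.finrank ℝ F) *
        ∫⁻ x in s, G (a + t • (x - a)) ∂μ) := by rw [← mul_assoc, e2, one_mul]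
    _ ≤ _ := mul_le_mul_right h _

theorem hm_pair {s : Set F} (hs : MeasurableSet s) (hc : Convex ℝ s) {t : ℝ} (ht : t ∈ Ioc (0 : ℝ) 1)
    {G : F → ℝ≥0∞} (hG : Measurable G) :
    ∫⁻ x in s, ∫⁻ x' in s, G (x + t • (x' - x)) ∂μ ∂μ ≤
      2 ^ Module.finrank ℝ F * (∫⁻ x in s, G x ∂μ) * μ s := by
  rcases le_total (1 / 2) t with h | h
  · rw [← setLIntegral_const]
    exact setLIntegral_mono' hs fun x hx => hm_hom hs hc hx h ht.2 G
  · rw [lintegral_lintegral_swap (f := fun x x' => G (x + t • (x' - x)))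
      (hG.comp (by fun_prop)).aemeasurable, ← setLIntegral_const]
    refine setLIntegral_mono' hs fun x' hx' => ?_
    have e : ∀ x, x + t • (x' - x) = x' + (1 - t) • (x - x') := fun x => by module
    simp only [e]
    exact hm_hom hs hc hx' (by linarith) (by linarith [ht.1]) G

theorem hm_poi {s : Set F} (hs : MeasurableSet s) (hc : Convex ℝ s) (h0 : μ s ≠ 0) (h1 : μ s ≠ ⊤)
    {G : F → ℝ≥0∞} (hG : Measurable G) {Φ : F → ℝ}
    (h : ∀ x ∈ s, ∀ x' ∈ s, edist (Φ x') (Φ x) ≤ ∫⁻ t in Ioc (0 : ℝ) 1, G (x + t • (x' - x))) :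
    ∃ m : ℝ, ∫⁻ x in s, edist (Φ x) m ∂μ ≤ 2 ^ Module.finrank ℝ F * ∫⁻ x in s, G x ∂μ := by
  have hm : Measurable fun q : (F × F) × ℝ => G (q.1.1 + q.2 • (q.1.2 - q.1.1)) :=
    hG.comp (by fun_prop)
  have hm' : Measurable fun q : (F × ℝ) × F => G (q.1.1 + q.1.2 • (q.2 - q.1.1)) :=
    hG.comp (by fun_prop)
  have hm1 : Measurable fun q : F × F => ∫⁻ t in Ioc (0 : ℝ) 1, G (q.1 + t • (q.2 - q.1)) :=
    hm.lintegral_prod_right'
  have hm2 : Measurable fun x => ∫⁻ x' in s, (∫⁻ t in Ioc (0 : ℝ) 1, G (x + t • (x' - x))) ∂μ :=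
    hm1.lintegral_prod_right'
  obtain ⟨x0, hx0, h2⟩ := exists_le_setLAverage h0 h1 hm2.aemeasurable
  refine ⟨Φ x0, (setLIntegral_mono' hs (h x0 hx0)).trans (h2.trans ?_)⟩
  rw [setLAverage_eq]
  refine ENNReal.div_le_of_le_mul ?_
  have e : ∀ x, ∫⁻ x' in s, (∫⁻ t in Ioc (0 : ℝ) 1, G (x + t • (x' - x))) ∂μ =
      ∫⁻ t in Ioc (0 : ℝ) 1, ∫⁻ x' in s, G (x + t • (x' - x)) ∂μ := fun x =>
    lintegral_lintegral_swap (f := fun x' (t : ℝ) => G (x + t • (x' - x)))
      (hG.comp (by fun_prop)).aemeasurable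
  simp only [e]
  rw [lintegral_lintegral_swap (f := fun x (t : ℝ) => ∫⁻ x' in s, G (x + t • (x' - x)) ∂μ)
    hm'.lintegral_prod_right'.aemeasurable]
  refine (setLIntegral_mono' measurableSet_Ioc fun t ht => hm_pair hs hc ht hG).trans ?_
  simp

omit [NormedAddCommGroup F] [NormedSpace ℝ F] [FiniteDimensional ℝ F] [BorelSpace F]
  [μ.IsAddHaarMeasure] in
theorem hm_sel {s : Set F} (hs : MeasurableSet s) {θ B : ℝ≥0∞} (h0 : θ ≠ 0) (ht : θ ≠ ⊤)
    (h1 : θ ≤ μ s) (hB : B ≠ ⊤) {f : F → ℝ≥0∞} (h : ∫⁻ x in s, f x ∂μ ≤ B) : ∃ x ∈ s, f x ≤ (B + 1) / θ := by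
  by_contra hn
  push Not at hn
  have h2 : (B + 1) / θ * μ s ≤ B := by
    rw [← setLIntegral_const]
    exact (setLIntegral_mono' hs fun x hx => (hn x hx).le).trans h
  have h3 := (mul_le_mul_right h1 _).trans h2
  rw [ENNReal.div_mul_cancel h0 ht] at h3
  exact absurd h3 (ENNReal.lt_add_right hB one_ne_zero).not_ge

end Pool.Agent.CL
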