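import Pool.Agent.P.MP_63735c_ag.CKDefs

/-! The lattice of closed 2-forms with its Beauville-Bogomolov-Fujiki form. -/

open scoped Matrix

namespace Pool.Agent.HS

open Pool.Agent.SPF Pool.Agent.CK MeasureTheory

variable {N : ℕ} {X : Type} [TopologicalSpace X] [MeasurableSpace X]

/-- The real 2-form `Re (c σ) + h`. -/
noncomputable def form2 (c : ℂ) (s h : Matrix (Fin N) (Fin N) ℂ) : Ext N :=
  (c / 2) • form20 s + (star c / 2) • form02 s + form11 h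

/-- Integral closed forms `β j = Re (c j σ) + a j` with `|a j| ≤ C K`, whose real span contains `K`
and all `Re (c σ)`, and an integral quadratic form `q r = r · Q r` that satisfies the Fujiki
relation `∫ (∑ r j β j)^(2n) = C₀ q(r)^n`. -/
structure BBF (n : ℕ) (A : Atlas X N) (μ : Measure X) (K : Form11 A) where
  m : ℕ
  c : Fin m → ℂ
  a : Fin m → Form11 A
  Q : Matrix (Fin m) (Fin m) ℤ
  C₀ : ℝ
  integral : ∀ j, Integral A fun i z u v =>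
    (c j * (u ⬝ᵥ (A.C i).σ z *ᵥ v)).re + ev11 ((a j).h i z) u v
  bound : ∀ j, ∃ C : ℝ, ∀ i, ∀ z ∈ (A.C i).W, ∀ u,
    |ev11 ((a j).h i z) u (Complex.I • u)| ≤ C * ev11 (K.h i z) u (Complex.I • u)
  σ_mem : ∀ c₀ : ℂ, ∃ r : Fin m → ℝ, ∑ j, (r j : ℂ) * c j = c₀ ∧
    ∀ i, ∀ z ∈ (A.C i).W, ∑ j, (r j : ℂ) • (a j).h i z = 0
  K_mem : ∃ r : Fin m → ℝ, ∑ j, (r j : ℂ) * c j = 0 ∧
    ∀ i, ∀ z ∈ (A.C i).W, ∑ j, (r j : ℂ) • (a j).h i z = K.h i z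
  fujiki : ∀ r : Fin m → ℝ, ∃ G : X → ℝ, Integrable G μ ∧
    ∫ x, G x ∂μ = C₀ * (∑ j, ∑ l, (Q j l : ℝ) * r j * r l) ^ n ∧ ∀ i, ∀ z ∈ (A.C i).W,
      form2 (∑ j, (r j : ℂ) * c j) ((A.C i).σ z) (∑ j, (r j : ℂ) • (a j).h i z) ^ (2 * n) =
        (G (A.p i z) : ℂ) • (form20 ((A.C i).σ z) ^ n * form02 ((A.C i).σ z) ^ n)

/-- A positive multiple of `η` is an isotropic vector of the lattice. -/
def BBF.Isotropic {n : ℕ} {A : Atlas X N} {μ : Measure X} {K : Form11 A} (H : BBF n A μ K) :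
    Prop :=
  ∃ (k : ℝ) (e : Fin H.m → ℤ), 0 < k ∧ ∑ j, ∑ l, H.Q j l * e j * e l = 0 ∧
    ∑ j, (e j : ℂ) * H.c j = 0 ∧
    ∀ i, ∀ z ∈ (A.C i).W, ∑ j, (e j : ℂ) • (H.a j).h i z = (k : ℂ) • (A.C i).η z

end Pool.Agent.HS
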