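import Pool.Agent.P.MP_63735c_ag.HXRk1
import Pool.Agent.P.MP_63735c_ag.CKDefs

/-! A nonzero semipositive form with the volume growth of an isotropic class has a point of
rank at least half the dimension. -/

open scoped ComplexOrder Matrix Topology
open MeasureTheory Filter Set

namespace Pool.Agent.AB

open Pool.Agent.SPF Pool.Agent.CK

theorem rk_num {n : ℕ} {c z w v : ℝ}
    (h : ∀ t, 0 < t → t ≤ 1 → 0 ≤ c * (z * t + w * t ^ 2) ^ n ∧
      c * (z * t + w * t ^ 2) ^ n ≤ t ^ (n + 1) * v) : c * z ^ n = 0 := by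
  have h1 : ∀ t, 0 < t → t ≤ 1 → |c * (z + w * t) ^ n| ≤ t * v := fun t ht ht1 => by
    obtain ⟨a, b⟩ := h t ht ht1
    have e : c * (z * t + w * t ^ 2) ^ n = t ^ n * (c * (z + w * t) ^ n) := by
      rw [show z * t + w * t ^ 2 = t * (z + w * t) by ring, mul_pow]; ring
    rw [e] at a b
    rw [pow_succ, mul_assoc] at b
    rw [abs_of_nonneg (nonneg_of_mul_nonneg_right a (pow_pos ht n))]
    exact le_of_mul_le_mul_left b (pow_pos ht n)
  have h2 : Tendsto (fun t : ℝ => |c * (z + w * t) ^ n|) (𝓝[>] 0) (𝓝 |c * (z + w * 0) ^ n|) :=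
    (Continuous.tendsto (by fun_prop) 0).mono_left nhdsWithin_le_nhds
  have h3 : Tendsto (fun t : ℝ => t * v) (𝓝[>] 0) (𝓝 (0 * v)) :=
    (Continuous.tendsto (by fun_prop) 0).mono_left nhdsWithin_le_nhds
  have h4 := le_of_tendsto_of_tendsto h2 h3
    (mem_of_superset (Ioc_mem_nhdsGT one_pos) fun t ht => h1 t ht.1 ht.2)
  rwa [mul_zero, add_zero, zero_mul, abs_nonpos_iff] at h4

theorem exists_rank {N n : ℕ} (hn : 1 ≤ n) (hN : N = 2 * n) {Y : Type} [TopologicalSpace Y]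
    [MeasurableSpace Y] {A : Atlas Y N} (μ : Measure Y) [μ.IsOpenPosMeasure] (K : Form11 A)
    (hK : ∀ i, ∀ z ∈ (A.C i).W, (K.h i z).PosDef) (G : ℝ → Y → ℝ)
    (hG : ∀ (t : ℝ) i, ∀ z ∈ (A.C i).W, G t (A.p i z) * ‖((A.C i).σ z).det‖ =
      (((A.C i).η z + (t : ℂ) • K.h i z).det).re)
    (hI : ∀ t, Integrable (G t) μ) {c z w : ℝ}
    (h : ∀ t, ∫ x, G t x ∂μ = c * (z * t + w * t ^ 2) ^ n)
    {i : A.ι} {y : E N} (hy : y ∈ (A.C i).W) (h0 : (A.C i).η y ≠ 0) :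
    ∃ j, ∃ x ∈ (A.C j).W, n ≤ ((A.C j).η x).rank := by
  by_contra hc
  simp only [not_exists, not_and, not_le] at hc
  have hs : ∀ j, ∀ x ∈ (A.C j).W, 0 < ‖((A.C j).σ x).det‖ := fun j x hx =>
    norm_pos_iff.2 ((A.C j).σ_det x hx)
  have h1 : c * z ^ n = 0 := rk_num (w := w) (v := ∫ x, G 1 x ∂μ) fun t ht ht1 => by
    rw [← h, ← integral_const_mul]
    refine ⟨integral_nonneg fun x => ?_, integral_mono (hI t) ((hI 1).const_mul _) fun x => ?_⟩ <;>
      obtain ⟨j, u, hu, rfl⟩ := A.cover x <;>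
      obtain ⟨a, b⟩ := rk_le hN (hK j u hu) ((A.C j).η_psd u hu) (hc j u hu) ht ht1
    · rw [← hG t j u hu] at a
      exact nonneg_of_mul_nonneg_left a (hs j u hu)
    · rw [← hG t j u hu, ← hG 1 j u hu, ← mul_assoc] at b
      exact le_of_mul_le_mul_right b (hs j u hu)
  have h2 : ∫ x, (2 ^ N * G 1 x - G 2 x) ∂μ = 0 := by
    rw [integral_sub ((hI 1).const_mul _) (hI 2), integral_const_mul, h, h, hN, pow_mul]
    rcases mul_eq_zero.1 h1 with e | e
    · simp [e]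
    · rw [pow_eq_zero_iff (by omega)] at e
      simp only [e, zero_mul, zero_add, mul_pow, one_pow]
      ring
  rw [integral_eq_zero_iff_of_nonneg (f := fun x => 2 ^ N * G 1 x - G 2 x) (fun x => ?_)
    (((hI 1).const_mul _).sub (hI 2))] at h2
  · have ho : IsOpen {u | u ∈ (A.C i).W ∧ (A.C i).η u ≠ 0} := by
      have : ContinuousOn (A.C i).η (A.C i).W := continuousOn_pi.2 fun a => continuousOn_pi.2
        fun b => ((A.C i).η_smooth a b).continuousOn
      exact this.isOpen_inter_preimage (A.C i).isOpen isOpen_ne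
    have hp := (A.opn i _ ho fun u hu => hu.1).measure_ne_zero μ ⟨_, y, ⟨hy, h0⟩, rfl⟩
    obtain ⟨_, ⟨u, hu, rfl⟩, e⟩ := Measure.exists_mem_of_measure_ne_zero_of_ae hp
      (ae_restrict_of_ae h2)
    refine hu.2 ((rk_two (hK i u hu.1) ((A.C i).η_psd u hu.1)).2 ?_)
    rw [← hG 1 i u hu.1, ← hG 2 i u hu.1, ← mul_assoc, sub_eq_zero.1 e]
  · obtain ⟨j, u, hu, rfl⟩ := A.cover x
    have b := (rk_two (hK j u hu) ((A.C j).η_psd u hu)).1
    rw [← hG 1 j u hu, ← hG 2 j u hu, ← mul_assoc] at b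
    exact sub_nonneg.2 (le_of_mul_le_mul_right b (hs j u hu))

end Pool.Agent.AB
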