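import Pool.Agent.P.MP_63735c_ag.ABDefs
import Pool.Agent.P.MP_63735c_ag.CLDefs
import Pool.Agent.P.MP_63735c_ag.CKDefs

/-! Objects used in the proof of the Hodge index estimate (not in any statement). -/

open scoped ComplexOrder ContDiff Matrix Topology ENNReal
open Set Metric MeasureTheory Filter

namespace Pool.Agent.HX

open Pool.Agent.SPF Pool.Agent.AB

open Pool.Agent.CL (Form1)

variable {N : ℕ}

/-- The trace of `M` with respect to `K`. -/
noncomputable def trK (K M : Mat N) : ℂ := (K⁻¹ * M).trace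

/-- The trace of the product with respect to `K`. -/
noncomputable def tr2 (K M M' : Mat N) : ℂ := (K⁻¹ * M * (K⁻¹ * M')).trace

/-- The mixed second coefficient of the determinant. -/
noncomputable def bK (K M M' : Mat N) : ℂ := trK K M * trK K M' - tr2 K M M'

/-- The squared norm of `M` with respect to `K`. -/
noncomputable def hsK (K M : Mat N) : ℝ := (tr2 K M Mᴴ).re

/-- `|a| ≤ C K`. -/
def Dom (K a : Mat N) (C : ℝ) : Prop := ∀ v, |(hq a v v).re| ≤ C * (hq K v v).re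

/-- `a ≤ C K`. -/
def Le (a K : Mat N) (C : ℝ) : Prop := ∀ v, (hq a v v).re ≤ C * (hq K v v).re

/-- The Levi matrix of a complex function. -/
noncomputable def lc (w : E N → ℂ) (z : E N) : Mat N := Matrix.of fun a b => dz a (dzb b w) z

/-- A smooth closed real (1,1)-form on an open set. -/
structure Clo (W : Set (E N)) (a : E N → Mat N) : Prop where
  smooth : ∀ b c, ContDiffOn ℝ ∞ (fun z => a z b c) W
  herm : ∀ z ∈ W, (a z).IsHermitian
  closed : ∀ z ∈ W, ∀ b c d, dz d (fun w => a w b c) z = dz b (fun w => a w d c) z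

/-- The local integrand of the index identity. -/
noncomputable def qh (K a : E N → Mat N) (τ : E N → ℝ) (V : E N → E N) (H : E N → ℂ) (z : E N) :
    ℝ :=
  τ z * ‖trK (K z) (a z) + H z‖ ^ 2 - τ z * (bK (K z) (a z) (a z)).re +
    2 * (trK (K z) (a z) * (V z ⬝ᵥ dr τ z) - hq (a z) (V z) (grad K (fun y => (τ y : ℂ)) z)).re +
    (trK (K z) (lev τ z) * hq (K z) (V z) (V z) - hq (lev τ z) (V z) (V z)).re

section Forms

variable {F : Type} [NormedAddCommGroup F] [NormedSpace ℝ F] [NormedSpace ℂ F]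
  [IsScalarTower ℝ ℂ F]

/-- The real part of `i dbar w`. -/
noncomputable def dcf (w : F → ℂ) : Form1 F := fun x =>
  (-(1 / 2) : ℝ) • (Complex.imCLM.comp (fderiv ℝ w x) + Complex.reCLM.comp ((fderiv ℝ w x).comp
    ((Complex.I • ContinuousLinearMap.id ℂ F).restrictScalars ℝ)))

/-- The 1-form `∑ τ_k Re (i dbar w_k)` read through `g`. -/
noncomputable def bet {Y : Type} {m : ℕ} (τ : Fin m → Y → ℝ) (w : Fin m → Y → ℂ) (g : F → Y) :
    Form1 F := fun x => ∑ k, τ k (g x) • dcf (fun y => w k (g y)) x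

/-- The exterior derivative of a 1-form. -/
noncomputable def dform (β : Form1 F) (x u v : F) : ℝ := fderiv ℝ β x u v - fderiv ℝ β x v u

end Forms

variable {Y : Type} [TopologicalSpace Y]

open Classical in
/-- A function on `Y` given in charts. -/
noncomputable def glob (D : Man Y N) {G : Type} [Zero G] (f : D.ι → E N → G) (x : Y) : G :=
  if hx : ∃ q : D.ι × E N, q.2 ∈ D.W q.1 ∧ D.p q.1 q.2 = x then f hx.choose.1 hx.choose.2 else 0

/-- A global smooth closed real (1,1)-form. -/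
structure Frm (D : Man Y N) (a : D.ι → E N → Mat N) : Prop where
  clo : ∀ i, Clo (D.W i) (a i)
  cpt : D.Cpt a

/-- A global Kähler form. -/
structure Kf (D : Man Y N) (K : D.ι → E N → Mat N) : Prop where
  kah : ∀ i, Kah (D.W i) (K i)
  cpt : D.Cpt K

/-- The Levi form of a global complex function. -/
noncomputable def lcG (D : Man Y N) (w : Y → ℂ) (i : D.ι) (z : E N) : Mat N :=
  lc (fun y => w (D.p i y)) z

/-- The estimate for `a + d (bet τ w)` on `C`. -/
def Est (D : Man Y N) (a K : D.ι → E N → Mat N) (C : Set Y) {m : ℕ} (τ : Fin m → Y → ℝ)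
    (w : Fin m → Y → ℂ) (Φ : Y → ℝ) : Prop :=
  (∀ k, D.S (τ k) ∧ D.S (w k)) ∧ D.Cc Φ ∧ (∀ x, 0 ≤ Φ x) ∧ ∀ i, ∀ z ∈ D.W i, D.p i z ∈ C →
    ∀ u v, (CK.ev11 (a i z) u v + dform (bet τ w (D.p i)) z u v) ^ 2 ≤
      Φ (D.p i z) * (hq (K i z) u u).re * (hq (K i z) v v).re

/-- An exhaustion whose Levi form is bounded above. -/
structure Lam (D : Man Y N) (K : D.ι → E N → Mat N) (l : Y → ℝ) (C : ℝ) : Prop where
  C_nonneg : 0 ≤ C
  smo : D.Smo l
  nonneg : ∀ x, 0 ≤ l x
  proper : ∀ c, ∃ S, IsCompact S ∧ ∀ x ∉ S, c < l x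
  le : ∀ i, ∀ z ∈ D.W i, ∀ v, (hq (D.levG l i z) v v).re +
    ‖v ⬝ᵥ dr (fun y => l (D.p i y)) z‖ ^ 2 ≤ C * (hq (K i z) v v).re

/-- A Kähler manifold with its volume. -/
structure KD (Y : Type) [TopologicalSpace Y] [MeasurableSpace Y] (N : ℕ) extends Dat Y N where
  cover : toDat.M = univ
  det : ∀ i, ∀ z ∈ W i, (wt (Ψ i) z : ℂ) = (K i z).det

/-- A manifold with a reference volume. -/
structure Base (Y : Type) [TopologicalSpace Y] [MeasurableSpace Y] (N : ℕ) extends Man Y N where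
  cover : toMan.M = univ
  Ψ : ι → E N → ℝ
  μ : Measure Y
  Ψ_smooth : ∀ i, ContDiffOn ℝ ∞ (Ψ i) (W i)
  den : toMan.Den μ Ψ
  Ψ_cpt : ∀ i j, ∀ z ∈ W i, ∀ φ, toMan.Ch i j z φ →
    wt (Ψ i) z = ‖(jac φ z).det‖ ^ 2 * wt (Ψ j) (φ z)

variable [MeasurableSpace Y]

namespace KD

variable (D : KD Y N)

/-- The trace of a form. -/
noncomputable def tr (h : D.ι → E N → Mat N) : Y → ℂ := glob D.toMan fun i z => trK (D.K i z) (h i z)

/-- The second coefficient of a form. -/
noncomputable def bb (h : D.ι → E N → Mat N) : Y → ℝ :=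
  glob D.toMan fun i z => (bK (D.K i z) (h i z) (h i z)).re

/-- The squared norm of a form. -/
noncomputable def hs (h : D.ι → E N → Mat N) : Y → ℝ :=
  glob D.toMan fun i z => hsK (D.K i z) (h i z)

/-- The global integrand of the index identity. -/
noncomputable def qH (a : D.ι → E N → Mat N) (θ : Y → ℝ) (w h : Y → ℂ) (x : Y) : ℝ :=
  θ x * ‖D.tr a x + h x‖ ^ 2 - θ x * D.bb a x +
    2 * (D.tr a x * D.Gam D.K w (fun y => (θ y : ℂ)) x - D.Gam a w (fun y => (θ y : ℂ)) x).re +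
    (D.tr (D.levG θ) x * D.Gam D.K w w x - D.Gam (D.levG θ) w w x).re

/-- The index defect of a form. -/
noncomputable def QQ (a : D.ι → E N → Mat N) : ℝ :=
  (∫ x, (D.tr a x).re ∂D.ν) ^ 2 / D.ν.real univ - ∫ x, D.bb a x ∂D.ν

end KD

namespace Base

variable (B : Base Y N)

/-- The density of the top power of a form. -/
noncomputable def dens (h : B.ι → E N → Mat N) : Y → ℝ :=
  glob B.toMan fun i z => (h i z).det.re / wt (B.Ψ i) z

/-- The form `s a + η + t K`. -/
noncomputable def mix (a η K : B.ι → E N → Mat N) (s t : ℝ) (i : B.ι) (z : E N) : Mat N :=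
  (s : ℂ) • a i z + η i z + (t : ℂ) • K i z

/-- The Fujiki relation on the span of three forms. -/
def Fuj (n : ℕ) (a η K : B.ι → E N → Mat N) : Prop :=
  ∃ c x y z w : ℝ, ∀ s t : ℝ, Integrable (B.dens (B.mix a η K s t)) B.μ ∧
    ∫ p, B.dens (B.mix a η K s t) p ∂B.μ = c * (x * s ^ 2 + y * s * t + z * t + w * t ^ 2) ^ n

/-- The Hodge index estimate. -/
def HXP (n : ℕ) (a η K : B.ι → E N → Mat N) : Prop :=
  ∃ C : ℝ, ∀ t : ℝ, 0 < t → t ≤ 1 → ∀ C₀, IsCompact C₀ →
    ∃ (m : ℕ) (τ : Fin m → Y → ℝ) (w : Fin m → Y → ℂ) (Φ : Y → ℝ),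
      Est B.toMan a (B.mix a η K 0 t) C₀ τ w Φ ∧
      ∫ x, Φ x * B.dens (B.mix a η K 0 t) x ∂B.μ ≤ C * t ^ (n - 1)

end Base

end Pool.Agent.HX
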