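import Pool.Agent.P.MP_63735c_ag.HXBB1
import Pool.Agent.P.MP_63735c_ag.HXDefs
import Pool.Agent.P.MP_63735c_ag.ABInt
import Pool.Agent.P.MP_63735c_ag.ABAlg

/-! The local index identity. -/

open scoped ComplexOrder ContDiff Matrix Topology ENNReal
open Set Metric MeasureTheory Filter TopologicalSpace

namespace Pool.Agent.HX

open Pool.Agent.SPF Pool.Agent.AB

variable {N : ℕ}

section
variable {O : Opens (E N)} {C : Set (E N)}

theorem bb_off {a : Sm O} (ha : ∀ x : O, x.1 ∉ C → Sm.ev x a = 0) :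
    ∀ z ∈ (O : Set (E N)), z ∉ C → a.fn z = 0 := fun _ hz hz' => (a.fn_apply hz).trans (ha _ hz')

theorem bb_rep {a : Sm O} {f : E N → ℂ} (h : a.Rep f) :
    ∫ z in (O : Set (E N)), a.fn z = ∫ z in (O : Set (E N)), f z :=
  setIntegral_congr_fun O.isOpen.measurableSet fun _ hz => (a.fn_apply hz).trans (h ⟨_, hz⟩)

/-- Functions that vanish outside `C` and have integral zero. -/
def Nul (hC : IsCompact C) (h : C ⊆ O) : AddSubgroup (Sm O) where
  carrier := {a | (∀ x : O, x.1 ∉ C → Sm.ev x a = 0) ∧ ∫ z in (O : Set (E N)), a.fn z = 0}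
  add_mem' := fun {a b} ha hb => ⟨fun x hx => by rw [map_add, ha.1 x hx, hb.1 x hx, add_zero], by
    rw [bb_rep (f := fun z => a.fn z + b.fn z) fun x => by rw [map_add, a.ev_eq, b.ev_eq],
      integral_add (intOn O.isOpen hC h a.smooth.continuousOn (bb_off ha.1))
        (intOn O.isOpen hC h b.smooth.continuousOn (bb_off hb.1)), ha.2, hb.2, add_zero]⟩
  zero_mem' := ⟨fun _ _ => map_zero _, (bb_rep (f := fun _ => 0) fun _ => map_zero _).trans
    (integral_zero _ _)⟩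
  neg_mem' := fun {a} ha => ⟨fun x hx => by rw [map_neg, ha.1 x hx, neg_zero], by
    rw [bb_rep (f := fun z => -a.fn z) fun x => by rw [map_neg, a.ev_eq], integral_neg, ha.2,
      neg_zero]⟩

theorem nul_d (hC : IsCompact C) (h : C ⊆ O) {a : Sm O} (ha : ∀ x : O, x.1 ∉ C → Sm.ev x a = 0)
    (l : Fin N) : Sm.d l a ∈ Nul hC h ∧ Sm.db l a ∈ Nul hC h := by
  have h2 := dz_zero_off O.isOpen hC.isClosed (bb_off ha) l
  have h3 := int_dz O.isOpen hC h a.smooth (bb_off ha) l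
  exact ⟨⟨fun x hx => (a.rep_fn.d l x).trans (h2 x x.2 hx).1, (bb_rep (a.rep_fn.d l)).trans h3.1⟩,
    fun x hx => (a.rep_fn.db l x).trans (h2 x x.2 hx).2, (bb_rep (a.rep_fn.db l)).trans h3.2⟩

theorem nul_star (hC : IsCompact C) (h : C ⊆ O) : ∀ a ∈ Nul hC h, star a ∈ Nul hC h := fun a ha =>
  ⟨fun x hx => by rw [Sm.ev_star, ha.1 x hx, star_zero], by
    rw [bb_rep (f := fun z => starRingEnd ℂ (a.fn z)) fun x => by rw [Sm.ev_star, a.ev_eq]; rfl,
      integral_conj, ha.2, map_zero]⟩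

/-- A matrix of smooth functions. -/
noncomputable def mkM (a : E N → Mat N) (h : ∀ b c, ContDiffOn ℝ ∞ (fun z => a z b c) O) :
    Matrix (Fin N) (Fin N) (Sm O) := Matrix.of fun b c => Sm.mk _ (h b c)

theorem mkM_herm {a : E N → Mat N} {h} (h1 : ∀ z ∈ O, (a z).IsHermitian) :
    (mkM (O := O) a h)ᴴ = mkM a h := by
  ext b c x
  exact (h1 x x.2).apply b c

theorem mkM_closed {a : E N → Mat N} {h}
    (h1 : ∀ z ∈ O, ∀ b c d, dz d (fun w => a w b c) z = dz b (fun w => a w d c) z) (b c d : Fin N) :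
    Sm.d d (mkM (O := O) a h b c) = Sm.d b (mkM a h d c) := by
  ext x
  rw [mkM, Matrix.of_apply, Matrix.of_apply, (Sm.rep_mk _ _).d d x, (Sm.rep_mk _ _).d b x]
  exact h1 x x.2 b c d

theorem mkM_inv {K : E N → Mat N} (hK : Kah O K) :
    mkM (O := O) K hK.smooth * mkM (fun z => (K z)⁻¹) hK.inv_smooth = 1 := by
  ext a b x
  have := congrFun (congrFun (Matrix.mul_nonsing_inv _ ((Matrix.isUnit_iff_isUnit_det _).1
    (hK.pos x x.2).isUnit)) a) b
  simpa [mkM, Matrix.mul_apply, Matrix.one_apply, apply_ite (Sm.ev x)] using this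

theorem mkM_det {K : E N → Mat N} {h} (x : O) : Sm.ev x (mkM (O := O) K h).det = (K x).det :=
  AlgHom.map_det _ _

theorem ev_Bf {K : E N → Mat N} {h} (x : O) (M M' : Matrix (Fin N) (Fin N) (Sm O)) :
    Sm.ev x (Bf (mkM (fun z => (K z)⁻¹) h) M M') = bK (K x) (M.map (Sm.ev x)) (M'.map (Sm.ev x)) :=
  Bf_map (Sm.ev x).toRingHom _ _ _

end

theorem bK_rank {K : Mat N} (hK : K.PosDef) (a : Mat N) (x y : E N) :
    bK K a (Matrix.vecMulVec (star x) y) =
      trK K a * ((y ᵥ* K⁻¹) ⬝ᵥ star x) - hq a (y ᵥ* K⁻¹) (x ᵥ* K⁻¹) := by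
  rw [bK, trK, trK, tr2, hq, Matrix.star_vecMul, hK.inv.1.eq, Matrix.mul_vecMulVec,
    Matrix.mul_vecMulVec, Matrix.trace_vecMulVec, Matrix.trace_vecMulVec, dotProduct_comm _ y,
    dotProduct_comm _ y, Matrix.dotProduct_mulVec y, ← Matrix.mulVec_mulVec,
    Matrix.dotProduct_mulVec y]

theorem hsK_eq {K : Mat N} (hK : K.PosDef) (M : Mat N) :
    hsK K M = ‖trK K M‖ ^ 2 - (bK K M Mᴴ).re := by
  have : trK K Mᴴ = star (trK K M) := by
    rw [trK, trK, ← Matrix.trace_conjTranspose, Matrix.conjTranspose_mul, hK.inv.1.eq,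
      Matrix.trace_mul_comm]
  rw [bK, this, Complex.star_def, Complex.mul_conj', Complex.sub_re, ← Complex.ofReal_pow,
    Complex.ofReal_re, sub_sub_cancel, hsK]

variable {W : Set (E N)} {K a : E N → Mat N} {Ψ τ : E N → ℝ} {w : E N → ℂ} {z : E N}

theorem dlt_eq (hW : IsOpen W) (hK : Kah W K) (hΨ : ContDiffOn ℝ ∞ Ψ W)
    (hd : ∀ z ∈ W, (wt Ψ z : ℂ) = (K z).det) (hw : ContDiffOn ℝ ∞ w W) (hz : z ∈ W) :
    dlt Ψ (grad K w) z = trK (K z) (lc w z) := by
  let O : Opens (E N) := ⟨W, hW⟩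
  have h0 := Sm.rep_mk (O := O) w hw
  have h1 := congrArg (Sm.ev ⟨z, hz⟩) (div_grad (mkM_inv (O := O) hK) (mkM_closed hK.closed)
    fun b => Sm.db b (Sm.mk w hw))
  have h2 : ∀ a, Sm.Rep ((mkM (O := O) K hK.smooth).det * ((fun b => Sm.db b (Sm.mk w hw)) ᵥ*
      mkM (fun z => (K z)⁻¹) hK.inv_smooth) a) fun y => wt Ψ y * grad K w y a := fun a x => by
    simp only [map_mul, mkM_det, hd x x.2, Matrix.vecMul, dotProduct, map_sum, h0.db _ x, grad]
    rfl
  have h3 : ∀ a, dz a (fun y => (wt Ψ y : ℂ) * grad K w y a) z =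
      wt Ψ z * (dz a (fun y => grad K w y a) z - dr Ψ z a * grad K w z a) := fun a => by
    rw [(dz_mul (diffAt hW (ofReal_smooth (wt_smooth hΨ)) hz)
      (diffAt hW (contDiffOn_pi.1 (grad_smooth hW hK hw) a) hz) a).1,
      show dz a _ z = _ from congrFun (dr_wt (diffAt hW hΨ hz)) a]
    simp only [Pi.neg_apply, Pi.smul_apply, smul_eq_mul]
    ring
  simp only [map_sum, fun a => (h2 a).d a ⟨z, hz⟩, h3, map_mul, mkM_det, ← hd z hz,
    ← Finset.mul_sum] at h1
  refine (mul_left_cancel₀ (Complex.ofReal_ne_zero.2 (wt_pos _ _).ne') h1).trans ?_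
  simp only [trK, Matrix.trace, Matrix.diag, Matrix.mul_apply, map_sum, map_mul, Matrix.of_apply,
    fun a b => (h0.db b).d a ⟨z, hz⟩]
  rfl

theorem bb_id (hW : IsOpen W) (hK : Kah W K) (hΨ : ContDiffOn ℝ ∞ Ψ W)
    (hd : ∀ z ∈ W, (wt Ψ z : ℂ) = (K z).det) (hw : ContDiffOn ℝ ∞ w W) (ha : Clo W a)
    (hτ : Tst W τ) : ∫ z in W, wt Ψ z * (τ z * hsK (K z) (a z + lc w z)) =
      ∫ z in W, wt Ψ z * qh K a τ (grad K w) (dlt Ψ (grad K w)) z := by
  let O : Opens (E N) := ⟨W, hW⟩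
  have hC : IsCompact (tsupport τ) := hτ.cpt
  have h0 := Sm.rep_mk (O := O) w hw
  have ht := Sm.rep_mk (O := O) _ (ofReal_smooth hτ.smooth.contDiffOn)
  generalize Sm.mk (O := O) w hw = u at h0
  generalize Sm.mk (O := O) (fun y => (τ y : ℂ)) _ = t at ht
  have t0 : ∀ x : O, x.1 ∉ tsupport τ → Sm.ev x t = 0 := fun x hx =>
    (ht x).trans (Complex.ofReal_eq_zero.2 (image_eq_zero_of_notMem_tsupport hx))
  have t1 := fun a => (nul_d hC hτ.sub t0 a).1.1
  have h1 := bb_alg (Z := Nul (O := O) hC hτ.sub) (τ := t) Sm.star_d Sm.d_db Sm.d_d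
    (mkM_inv (O := O) hK) (mkM_herm fun z hz => (hK.pos z hz).1) (mkM_closed hK.closed)
    (mkM_herm (h := ha.smooth) ha.herm) (mkM_closed ha.closed)
    (Sm.ext fun x => by rw [Sm.ev_star, ht, Complex.star_def, Complex.conj_ofReal])
    (fun l f => (nul_d hC hτ.sub (fun x hx => by rw [map_mul, t0 x hx, zero_mul]) l).1)
    (fun l a f => (nul_d hC hτ.sub (fun x hx => by rw [map_mul, t1 a x hx, zero_mul]) l).2)
    (nul_star _ _) u
  have m1 : ∀ x : O, (mkM a ha.smooth + Matrix.of fun a b => Sm.d a (Sm.db b u)).map (Sm.ev x) =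
      a x + lc w x := fun x => by
    ext b c
    exact (map_add _ _ _).trans (congrArg₂ _ rfl ((h0.db c).d b x))
  have m2 : ∀ (x : O) (M : Matrix (Fin N) (Fin N) (Sm O)), Mᴴ.map (Sm.ev x) = (M.map (Sm.ev x))ᴴ :=
    fun x M => rfl
  have m3 : ∀ x : O, (Matrix.vecMulVec (fun a => Sm.d a t) fun b => Sm.db b u).map (Sm.ev x) =
      Matrix.vecMulVec (star (db (fun y => (τ y : ℂ)) x)) (db w x) := fun x => by
    ext b c
    rw [star_db]
    exact (map_mul _ _ _).trans (congrArg₂ _ (ht.d b x) (h0.db c x))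
  have m4 : ∀ x : O, (Matrix.vecMulVec (star fun b => Sm.db b u) fun b => Sm.db b u).map (Sm.ev x) =
      Matrix.vecMulVec (star (db w x)) (db w x) := fun x => by
    ext b c
    exact (map_mul _ _ _).trans (congrArg₂ _ (congrArg star (h0.db b x)) (h0.db c x))
  have m5 : ∀ x : O, (Matrix.of fun a b => Sm.d a (Sm.db b t)).map (Sm.ev x) = lev τ x :=
    fun x => by
      ext b c
      exact ((ht.db c).d b x).trans (lev_apply _ _ _ _).symm
  have m6 : ∀ x : O, (mkM a ha.smooth).map (Sm.ev x) = a x := fun x => rfl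
  generalize hA : ((_ : Sm O) - (_ : Sm O)) = A at h1
  have hL : ContinuousOn (fun z => wt Ψ z * (τ z * hsK (K z) (a z + lc w z))) W := by
    have : Sm.Rep (O := O) (mkM (fun z => (K z)⁻¹) hK.inv_smooth * (mkM a ha.smooth +
        Matrix.of fun a b => Sm.d a (Sm.db b u)) * (mkM (fun z => (K z)⁻¹) hK.inv_smooth *
          (mkM a ha.smooth + Matrix.of fun a b => Sm.d a (Sm.db b u))ᴴ)).trace
        fun z => tr2 (K z) (a z + lc w z) (a z + lc w z)ᴴ := fun x => by
      rw [AddMonoidHom.map_trace (Sm.ev x), Matrix.map_mul, Matrix.map_mul, Matrix.map_mul, m2, m1]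
      rfl
    exact (wt_smooth hΨ).continuousOn.mul (hτ.smooth.continuous.continuousOn.mul
      (Complex.continuous_re.comp_continuousOn this.smooth.continuousOn))
  have i1 := intOn hW hC hτ.sub hL fun z _ hz => by
    rw [image_eq_zero_of_notMem_tsupport hz, zero_mul, mul_zero]
  have i2 : IntegrableOn A.fn W volume := intOn hW hC hτ.sub A.smooth.continuousOn (bb_off h1.1)
  have h2 : ∫ z in W, RCLike.re (A.fn z) = 0 := (integral_re i2).trans (congrArg _ h1.2)
  rw [← add_zero (∫ z in W, _), ← h2, ← integral_add i1 i2.re]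
  refine setIntegral_congr_fun hW.measurableSet fun z hz => ?_
  have hp := hK.pos z hz
  have h3 : trK (K z) (a z + lc w z) = trK (K z) (a z) + dlt Ψ (grad K w) z := by
    rw [dlt_eq hW hK hΨ hd hw hz, trK, mul_add, Matrix.trace_add]
    rfl
  have h4 := congrArg (Sm.ev ⟨z, hz⟩) hA
  simp only [map_sub, map_mul, map_add, Sm.ev_star, ev_Bf, m2, m1, m3, m4, m5, m6, mkM_det,
    ← hd z hz, ht ⟨z, hz⟩, bK_rank hp, ← A.fn_apply (O := O) hz] at h4
  simp only [RCLike.re_to_complex, ← h4, hsK_eq hp, h3, qh, grad, star_db, hq_dual hp,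
    Complex.star_def, Complex.add_conj, Complex.sub_re, Complex.re_ofReal_mul, Complex.ofReal_re]
  ring

end Pool.Agent.HX
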