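import Pool.Agent.P.MP_63735c_ag.SPA3

/-! The quadratic form of the Hodge index theorem: differential algebra. -/

open scoped Matrix

namespace Pool.Agent.HX

open Pool.Agent.SPF

variable {R : Type} [CommRing R] {N : ℕ}

/-- The form `tr M tr M' - tr (M M')`, traces with respect to the inverse metric `P`. -/
def Bf (P M M' : Matrix (Fin N) (Fin N) R) : R :=
  (P * M).trace * (P * M').trace - (P * M * (P * M')).trace

/-- The coefficients of the form. -/
def Tt (v : R) (P : Matrix (Fin N) (Fin N) R) (a b c e : Fin N) : R :=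
  v * (P b a * P e c - P e a * P b c)

/-- The bilinear form with coefficients `T`. -/
def bt (T : Fin N → Fin N → Fin N → Fin N → R) (M M' : Matrix (Fin N) (Fin N) R) : R :=
  ∑ a, ∑ c, ∑ b, ∑ e, T a b c e * (M a b * M' c e)

variable {P M M' K : Matrix (Fin N) (Fin N) R}

theorem Bf_comm (P M M' : Matrix (Fin N) (Fin N) R) : Bf P M M' = Bf P M' M := by
  rw [Bf, Bf, Matrix.trace_mul_comm (P * M), mul_comm]

theorem Bf_add_left (P M M₁ M' : Matrix (Fin N) (Fin N) R) :
    Bf P (M + M₁) M' = Bf P M M' + Bf P M₁ M' := by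
  simp only [Bf, mul_add, add_mul, Matrix.trace_add]
  ring

theorem Bf_add_right (P M M' M₁ : Matrix (Fin N) (Fin N) R) :
    Bf P M (M' + M₁) = Bf P M M' + Bf P M M₁ := by
  simp only [Bf, mul_add, Matrix.trace_add]
  ring

theorem Bf_star [StarRing R] (hP : Pᴴ = P) (M M' : Matrix (Fin N) (Fin N) R) :
    star (Bf P M M') = Bf P Mᴴ M'ᴴ := by
  simp only [Bf, star_sub, star_mul', ← Matrix.trace_conjTranspose, Matrix.conjTranspose_mul, hP]
  rw [Matrix.trace_mul_comm Mᴴ, Matrix.trace_mul_comm M'ᴴ, ← mul_assoc,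
    Matrix.trace_mul_comm _ P, ← mul_assoc, ← mul_assoc, mul_assoc _ P,
    Matrix.trace_mul_comm (P * M'ᴴ)]

theorem Bf_map {R' : Type} [CommRing R'] (φ : R →+* R') (P M M' : Matrix (Fin N) (Fin N) R) :
    φ (Bf P M M') = Bf (P.map φ) (M.map φ) (M'.map φ) := by
  simp only [Bf, map_sub, map_mul, AddMonoidHom.map_trace φ, Matrix.map_mul]

theorem bt_Tt (v : R) (P M M' : Matrix (Fin N) (Fin N) R) : bt (Tt v P) M M' = v * Bf P M M' := by
  have h1 : (P * M).trace * (P * M').trace =
      ∑ a, ∑ c, ∑ b, ∑ e, P b a * P e c * (M a b * M' c e) := by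
    rw [Matrix.trace_mul_comm P, Matrix.trace_mul_comm P]
    simp only [Matrix.trace, Matrix.diag, Matrix.mul_apply, Finset.sum_mul_sum]
    simp only [mul_comm, mul_left_comm]
  have h2 : (P * M * (P * M')).trace = ∑ a, ∑ c, ∑ b, ∑ e, P e a * P b c * (M a b * M' c e) := by
    rw [mul_assoc, Matrix.trace_mul_comm P, ← mul_assoc, mul_assoc, Matrix.trace]
    refine Finset.sum_congr rfl fun a _ => ?_
    rw [Matrix.diag, Matrix.mul_apply]
    simp only [Matrix.mul_apply, Finset.sum_mul_sum]
    simp only [mul_comm, mul_left_comm]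
  rw [Bf, h1, h2]
  simp only [bt, Tt, mul_sub, sub_mul, Finset.sum_sub_distrib, Finset.mul_sum, mul_assoc]

variable [Algebra ℂ R]

theorem anti_sum {f : Fin N → Fin N → R} (h : ∀ a c, f a c = -f c a) : ∑ a, ∑ c, f a c = 0 := by
  have h1 : ∑ a, ∑ c, f a c = -∑ a, ∑ c, f a c := by
    conv_lhs => rw [Finset.sum_comm]
    simp only [← Finset.sum_neg_distrib]
    exact Finset.sum_congr rfl fun a _ => Finset.sum_congr rfl fun c _ => h c a
  have h2 : (2 : ℂ) • ∑ a, ∑ c, f a c = 0 := by rw [two_smul, add_eq_zero_iff_eq_neg, ← h1]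
  rw [← inv_smul_smul₀ (two_ne_zero (α := ℂ)) (∑ a, ∑ c, f a c), h2, smul_zero]

theorem der_det (δ : Derivation ℂ R R) (h : K * P = 1) :
    δ K.det = K.det * (P * K.map δ).trace := by
  have h1 : K.adjugate = K.det • P := by
    rw [← mul_one K.adjugate, ← h, ← mul_assoc, Matrix.adjugate_mul, smul_mul_assoc, one_mul]
  rw [a3_der_det, Matrix.trace_mul_comm, Matrix.trace, Finset.mul_sum]
  refine Finset.sum_congr rfl fun i _ => ?_
  rw [← Matrix.cramer_transpose_apply, Matrix.cramer_eq_adjugate_mulVec,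
    ← Matrix.adjugate_transpose, h1]
  simp [Matrix.mulVec, dotProduct, Matrix.mul_apply, Finset.mul_sum, mul_comm, mul_left_comm,
    mul_assoc]

theorem der_inv (δ : Derivation ℂ R R) (h : K * P = 1) : P.map δ = -(P * K.map δ * P) := by
  have h1 : K.map δ * P + K * P.map δ = 0 := by
    ext a b
    have := congrArg δ (congrFun (congrFun h a) b)
    simpa [Matrix.mul_apply, Matrix.one_apply, apply_ite δ, Finset.sum_add_distrib, mul_comm,
      add_comm] using this
  rw [mul_assoc, eq_neg_of_add_eq_zero_left h1, mul_neg, neg_neg, ← mul_assoc,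
    mul_eq_one_comm.1 h, one_mul]

variable {d db : Fin N → Derivation ℂ R R}

theorem der_inv' (δ : Derivation ℂ R R) (h : K * P = 1) (b c : Fin N) :
    δ (P b c) = -∑ f, ∑ g, P b g * δ (K g f) * P f c := by
  simpa [Matrix.mul_apply, Finset.sum_mul] using congrFun (congrFun (der_inv δ h) b) c

theorem piola (h : K * P = 1) (hc : ∀ a b c, d c (K a b) = d a (K c b)) (b : Fin N) :
    ∑ a, d a (K.det * P b a) = 0 := by
  simp only [Derivation.leibniz, smul_eq_mul, der_det _ h, der_inv' _ h, Finset.sum_add_distrib,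
    mul_neg, Finset.sum_neg_distrib, Matrix.trace, Matrix.diag, Matrix.mul_apply, Matrix.map_apply,
    Finset.mul_sum]
  rw [neg_add_eq_zero, Finset.sum_comm]
  conv_rhs => rw [Finset.sum_comm]
  refine Finset.sum_congr rfl fun f _ => Finset.sum_comm.trans ?_
  refine Finset.sum_congr rfl fun g _ => Finset.sum_congr rfl fun a _ => ?_
  rw [hc g f a]
  ring

theorem div_grad (h : K * P = 1) (hc : ∀ a b c, d c (K a b) = d a (K c b)) (u : Fin N → R) :
    ∑ a, d a (K.det * (u ᵥ* P) a) = K.det * (P * Matrix.of fun a b => d a (u b)).trace := by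
  have h1 : ∀ a b, d a (K.det * (u b * P b a)) =
      u b * d a (K.det * P b a) + K.det * (P b a * d a (u b)) := fun a b => by
    simp only [Derivation.leibniz, smul_eq_mul]
    ring
  simp only [Matrix.vecMul, dotProduct, Finset.mul_sum, map_sum, h1, Matrix.trace, Matrix.diag,
    Matrix.mul_apply, Matrix.of_apply]
  rw [Finset.sum_comm]
  simp only [Finset.sum_add_distrib, ← Finset.mul_sum, piola h hc, mul_zero,
    zero_add]

/-- The coefficients are divergence free. -/
theorem div_Tt (h : K * P = 1) (hc : ∀ a b c, d c (K a b) = d a (K c b)) (b c e : Fin N) :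
    ∑ a, d a (Tt K.det P a b c e) = 0 := by
  have h1 := fun a => der_inv' (d a) h
  have h2 := piola h hc
  have h3 : ∀ b e, ∑ a, P b a * d a (P e c) = -∑ f, ∑ a, ∑ g, P b a * P e g * d a (K g f) * P f c :=
    fun b e => by
      simp only [h1, mul_neg, Finset.sum_neg_distrib, Finset.mul_sum, mul_assoc]
      rw [Finset.sum_comm]
  have h4 : ∑ a, P b a * d a (P e c) = ∑ a, P e a * d a (P b c) := by
    rw [h3, h3]
    refine congrArg _ (Finset.sum_congr rfl fun f _ => Finset.sum_comm.trans ?_)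
    refine Finset.sum_congr rfl fun g _ => Finset.sum_congr rfl fun a _ => ?_
    rw [hc g f a]
    ring
  have h5 : ∀ a, d a (Tt K.det P a b c e) = P e c * d a (K.det * P b a) -
      P b c * d a (K.det * P e a) + K.det * (P b a * d a (P e c) - P e a * d a (P b c)) :=
    fun a => by
      simp only [Tt, Derivation.leibniz, smul_eq_mul, map_sub]
      ring
  simp only [h5, Finset.sum_add_distrib, Finset.sum_sub_distrib, ← Finset.mul_sum, h2, h4]
  ring

variable {T : Fin N → Fin N → Fin N → Fin N → R} {Z : AddSubgroup R} {τ : R}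

theorem step1 (h1 : ∀ a b c e, T a b c e = -T c b a e) (hd : ∀ b c e, ∑ a, d a (T a b c e) = 0)
    (hZ : ∀ l f, d l (τ * f) ∈ Z) (u : Fin N → R) (hM : ∀ a b c, d c (M a b) = d a (M c b)) :
    τ * bt T (Matrix.of fun a b => d a (u b)) M +
      bt T (Matrix.vecMulVec (fun a => d a τ) u) M ∈ Z := by
  have h2 : ∑ a, ∑ c, ∑ b, ∑ e, d a (T a b c e) * (τ * u b * M c e) = 0 := by
    rw [Finset.sum_comm]
    refine Finset.sum_eq_zero fun c _ => Finset.sum_comm.trans (Finset.sum_eq_zero fun b _ => ?_)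
    refine Finset.sum_comm.trans (Finset.sum_eq_zero fun e _ => ?_)
    rw [← Finset.sum_mul, hd, zero_mul]
  have h3 : ∑ a, ∑ c, ∑ b, ∑ e, T a b c e * (τ * u b * d a (M c e)) = 0 := anti_sum fun a c => by
    simp only [h1 a _ c, hM c _ a, neg_mul, Finset.sum_neg_distrib]
  have h4 : ∑ a, ∑ c, ∑ b, ∑ e, d a (τ * (T a b c e * (u b * M c e))) ∈ Z :=
    sum_mem fun _ _ => sum_mem fun _ _ => sum_mem fun _ _ => sum_mem fun _ _ => hZ _ _
  rw [← add_zero (_ + _), ← add_zero 0]
  nth_rewrite 1 [← h2, ← h3]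
  refine (congrArg (· ∈ Z) ?_).mp h4
  simp only [bt, Finset.mul_sum, ← Finset.sum_add_distrib, Derivation.leibniz, smul_eq_mul,
    Matrix.of_apply, Matrix.vecMulVec_apply]
  refine Finset.sum_congr rfl fun a _ => Finset.sum_congr rfl fun c _ => ?_
  exact Finset.sum_congr rfl fun b _ => Finset.sum_congr rfl fun e _ => by ring

theorem step2 (h1 : ∀ a b c e, T a b c e = -T a e c b) (hd : ∀ a b c, ∑ e, db e (T a b c e) = 0)
    {t u x : Fin N → R} (hZ : ∀ l a f, db l (t a * f) ∈ Z) (hu : ∀ b e, db e (u b) = db b (u e)) :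
    bt T (Matrix.vecMulVec t u) (Matrix.of fun c e => db e (x c)) -
      bt T (Matrix.of fun a b => db b (t a)) (Matrix.vecMulVec x u) ∈ Z := by
  have h2 : ∑ a, ∑ c, ∑ b, ∑ e, db e (T a b c e) * (t a * u b * x c) = 0 := by
    simp only [← Finset.sum_mul, hd, zero_mul, Finset.sum_const_zero]
  have h3 : ∑ a, ∑ c, ∑ b, ∑ e, T a b c e * (t a * db e (u b) * x c) = 0 :=
    Finset.sum_eq_zero fun a _ => Finset.sum_eq_zero fun c _ => anti_sum fun b e => by
      rw [h1 a b, hu b, neg_mul]
  have h4 : ∑ a, ∑ c, ∑ b, ∑ e, db e (t a * (T a b c e * (u b * x c))) ∈ Z :=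
    sum_mem fun _ _ => sum_mem fun _ _ => sum_mem fun _ _ => sum_mem fun _ _ => hZ _ _ _
  have h5 : -bt T (Matrix.of fun a b => db b (t a)) (Matrix.vecMulVec x u) =
      ∑ a, ∑ c, ∑ b, ∑ e, T a b c e * (db e (t a) * (x c * u b)) := by
    simp only [bt, ← Finset.sum_neg_distrib]
    refine Finset.sum_congr rfl fun a _ => Finset.sum_congr rfl fun c _ => Finset.sum_comm.trans ?_
    refine Finset.sum_congr rfl fun b _ => Finset.sum_congr rfl fun e _ => ?_
    rw [h1 a b, neg_mul]
    rfl
  rw [sub_eq_add_neg, h5, ← add_zero (_ + _), ← add_zero 0]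
  nth_rewrite 1 [← h2, ← h3]
  refine (congrArg (· ∈ Z) ?_).mp h4
  simp only [bt, ← Finset.sum_add_distrib, Derivation.leibniz, smul_eq_mul, Matrix.of_apply,
    Matrix.vecMulVec_apply]
  refine Finset.sum_congr rfl fun a _ => Finset.sum_congr rfl fun c _ => ?_
  exact Finset.sum_congr rfl fun b _ => Finset.sum_congr rfl fun e _ => by ring

/-- The basic identity up to divergences. -/
theorem bb_alg [StarRing R] (hs : ∀ l a, star (d l a) = db l (star a))
    (h1 : ∀ l k a, d l (db k a) = db k (d l a)) (h2 : ∀ l k a, d l (d k a) = d k (d l a))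
    (h : K * P = 1) (hK : Kᴴ = K) (hc : ∀ a b c, d c (K a b) = d a (K c b)) (hM : Mᴴ = M)
    (hM' : ∀ a b c, d c (M a b) = d a (M c b)) (hτ : star τ = τ) (hZ : ∀ l f, d l (τ * f) ∈ Z)
    (hZ' : ∀ l a f, db l (d a τ * f) ∈ Z) (hZs : ∀ x ∈ Z, star x ∈ Z) (w : R) :
    τ * (K.det * Bf P (M + Matrix.of fun a b => d a (db b w))
      (M + Matrix.of fun a b => d a (db b w))ᴴ) -
      K.det * (τ * Bf P M M - (Bf P M (Matrix.vecMulVec (fun a => d a τ) fun b => db b w) +
        star (Bf P M (Matrix.vecMulVec (fun a => d a τ) fun b => db b w))) -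
        Bf P (Matrix.of fun a b => d a (db b τ))
          (Matrix.vecMulVec (star fun b => db b w) fun b => db b w)) ∈ Z := by
  have hs' : ∀ l a, star (db l a) = d l (star a) := fun l a => by
    rw [← star_star (d l _), hs, star_star]
  have hP : Pᴴ = P := by
    have := congrArg Matrix.conjTranspose h
    rw [Matrix.conjTranspose_mul, hK, Matrix.conjTranspose_one] at this
    rw [← mul_one Pᴴ, ← h, ← mul_assoc, this, one_mul]
  have hv : star K.det = K.det := by rw [← Matrix.det_conjTranspose, hK]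
  have hT1 : ∀ a b c e, Tt K.det P a b c e = -Tt K.det P c b a e := fun a b c e => by
    simp only [Tt]
    ring
  have hT2 : ∀ a b c e, Tt K.det P a b c e = -Tt K.det P a e c b := fun a b c e => by
    simp only [Tt]
    ring
  have hd : ∀ a b c, ∑ e, db e (Tt K.det P a b c e) = 0 := fun a b c => by
    have h3 : ∀ a b, star (P a b) = P b a := fun a b => congrFun (congrFun hP b) a
    have := congrArg star (div_Tt h hc c b a)
    simpa only [star_sum, star_zero, hs, Tt, star_mul', star_sub, hv, h3, mul_comm] using this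
  have hL : (Matrix.of fun a b => d a (db b w))ᴴ = Matrix.of fun c e => db e (star (db c w)) := by
    ext a b
    exact hs _ _
  have a1 := step1 hT1 (div_Tt h hc) hZ (fun b => db b w) hM'
  have a2 := hZs _ a1
  have a3 := step1 hT1 (div_Tt h hc) hZ (fun b => db b w)
    (M := Matrix.of fun c e => db e (star (db c w))) fun a b c => by
      simp only [Matrix.of_apply, h1, hs', h2 c a]
  have a4 := step2 (x := fun c => star (db c w)) hT2 hd hZ' (u := fun b => db b w) fun b e => by
    rw [← star_star w, ← hs, ← hs, h2, hs, hs]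
  refine (congrArg (· ∈ Z) ?_).mp (sub_mem (add_mem (add_mem a1 a2) a3) a4)
  simp only [bt_Tt, star_add, star_mul', hτ, hv, Matrix.conjTranspose_add, Bf_add_left,
    Bf_add_right, Bf_star hP, hM, hL, ← h1, Pi.star_def, Bf_comm P _ M]
  ring

end Pool.Agent.HX
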