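import Pool.Agent.P.MP_63735c_ag.HXCo1

/-! The orthogonal complement of the range of the Laplacian. -/

open scoped ComplexOrder ContDiff Matrix Topology ENNReal
open Set Metric MeasureTheory Filter

namespace Pool.Agent.HX

open Pool.Agent.SPF Pool.Agent.AB

variable {N : ℕ} {Y : Type} [TopologicalSpace Y] [MeasurableSpace Y] [BorelSpace Y] [T2Space Y]

theorem co_fderiv {F : E N → ℂ} {z : E N} (h1 : DifferentiableAt ℂ F z)
    (h2 : DifferentiableAt ℂ (fun y => star (F y)) z) : fderiv ℂ F z = 0 := by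
  have a1 := (h1.hasFDerivAt.restrictScalars ℝ).star
  have a2 := h2.hasFDerivAt.restrictScalars ℝ
  have a3 : ∀ v, star (fderiv ℂ F z v) = fderiv ℂ (fun y => star (F y)) z v := fun v =>
    congrArg (fun L : E N →L[ℝ] ℂ => L v) (a1.unique a2)
  ext1 v
  have a4 := a3 (Complex.I • v)
  rw [map_smul, map_smul, ← a3, smul_eq_mul, smul_eq_mul, star_mul', Complex.star_def,
    Complex.conj_I] at a4
  have a5 : (2 * Complex.I) * (starRingEnd ℂ) (fderiv ℂ F z v) = 0 := by linear_combination -a4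
  simpa using a5

namespace KD

variable {D : KD Y N}

omit [BorelSpace Y] [T2Space Y] in
theorem chart (D : KD Y N) (x : Y) : ∃ i, ∃ z ∈ D.W i, D.p i z = x :=
  Man.exists_chart (D.cover ▸ mem_univ x)

omit [BorelSpace Y] [T2Space Y] in
theorem ae_of_charts [SigmaCompactSpace Y] {P : Y → Prop}
    (h : ∀ i, ∀ᵐ x ∂D.ν.restrict (D.p i '' D.W i), P x) : ∀ᵐ x ∂D.ν, P x := by
  obtain ⟨s, hs, hc⟩ := isLindelof_univ.elim_countable_subcover (fun i => D.p i '' D.W i)
    D.isOpen_img fun x _ => by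
      obtain ⟨i, z, hz, rfl⟩ := D.chart x
      exact mem_iUnion.2 ⟨i, z, hz, rfl⟩
  rw [← Measure.restrict_univ (μ := D.ν), ← univ_subset_iff.1 hc]
  exact (ae_restrict_biUnion_iff _ hs _).2 fun i _ => h i

theorem HH_star (hc : D.Cut D.K) {h : Y → ℂ} (hh : D.HH h) : D.HH fun x => star (h x) := by
  obtain ⟨h1, B, hB⟩ := hh
  refine ⟨h1.map (l := fun a : ℂ => star a) continuous_star (star_zero _), B, fun w hw => ?_⟩
  have := hB _ (co_S_star hw)
  rw [en_star hc hw] at this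
  refine le_trans (le_of_eq ?_) this
  rw [← Complex.norm_conj, ← integral_conj]
  simp

theorem HH_int [IsFiniteMeasure D.ν] (hc : D.Cut D.K) {h : Y → ℂ} (hh : D.HH h) :
    ∫ x, h x ∂D.ν = 0 := by
  obtain ⟨⟨-, C, h1, h2, h3⟩, B, hB⟩ := hh
  have hv : 0 ≤ N * D.ν.real univ := mul_nonneg (Nat.cast_nonneg _) measureReal_nonneg
  have ht : Tendsto (fun ε : ℝ => |B| * √(ε * (N * D.ν.real univ))) (𝓝[>] 0) (𝓝 0) := by
    have : Continuous fun ε : ℝ => |B| * √(ε * (N * D.ν.real univ)) := by fun_prop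
    simpa using (this.tendsto 0).mono_left (nhdsWithin_le_nhds (s := Ioi 0))
  refine norm_le_zero_iff.1 (ge_of_tendsto ht (eventually_mem_nhdsWithin.mono fun ε hε => ?_))
  obtain ⟨θ, hθ, h01, h4, h5⟩ := hc C h1 h2 ε hε
  have e : ∫ x, h x ∂D.ν = ∫ x, h x * star (θ x : ℂ) ∂D.ν := by
    refine integral_congr_ae (Eventually.of_forall fun x => ?_)
    by_cases hx : x ∈ C
    · simp [(h4 x hx).self_of_nhds]
    · simp [h3 x hx]
  rw [e, ← mul_assoc]
  exact (hB _ hθ.ofReal).trans (mul_le_mul (le_abs_self B)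
    (Real.sqrt_le_sqrt (en_cut hc hθ h01 (le_of_lt hε) h5)) (Real.sqrt_nonneg _) (abs_nonneg B))

/-- A function orthogonal to `HH` is constant. -/
theorem co_const [PreconnectedSpace Y] [SigmaCompactSpace Y] (hc : D.Cut D.K) {g : Y → ℂ}
    (hg : MemLp g 2 D.ν) (ho : ∀ h, D.HH h → ∫ x, h x * star (g x) ∂D.ν = 0) :
    ∃ c : ℂ, ∀ᵐ x ∂D.ν, g x = c := by
  obtain ⟨g1, a1, a2⟩ := Dat.hol_rep hg ho
  obtain ⟨g2, b1, b2⟩ := Dat.hol_rep (g₀ := fun x => star (g x)) hg.star fun h hh => by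
    have := congrArg (starRingEnd ℂ) (ho _ (HH_star hc hh))
    rw [← integral_conj, map_zero] at this
    simpa using this
  have h1 : ∀ i, EqOn (fun z => star (g1 (D.p i z))) (fun z => g2 (D.p i z)) (D.W i) := fun i => by
    refine Measure.eqOn_open_of_ae_eq (μ := volume) ?_ (D.isOpen i) (a1 i).continuousOn.star
      (b1 i).continuousOn
    refine (D.den.ae (D.Ψ_cont i) (D.isOpen i).measurableSet subset_rfl
      fun x => star (g1 x) = g2 x).1 ?_
    filter_upwards [a2 i, b2 i] with x h h'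
    rw [h, h']
  have h2 : IsLocallyConstant g1 := (IsLocallyConstant.iff_eventually_eq _).2 fun x => by
    obtain ⟨i, z, hz, rfl⟩ := D.chart x
    obtain ⟨r, hr, hb⟩ := Metric.isOpen_iff.1 (D.isOpen i) z hz
    rw [← Man.map_nhds hz, eventually_map]
    filter_upwards [ball_mem_nhds z hr] with y hy
    refine isOpen_ball.is_const_of_fderiv_eq_zero (𝕜 := ℂ) (convex_ball z r).isPreconnected
      ((a1 i).mono hb) (fun t ht => ?_) hy (mem_ball_self hr)
    have hn := (D.isOpen i).mem_nhds (hb ht)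
    exact co_fderiv ((a1 i).differentiableAt hn)
      (((b1 i).differentiableAt hn).congr_of_eventuallyEq (mem_of_superset hn (h1 i)))
  obtain ⟨c, h3⟩ := h2.exists_eq_const
  exact ⟨c, (ae_of_charts a2).mono fun x hx => by rw [← hx, h3]; rfl⟩

/-- The distance from `HH`. -/
theorem co [PreconnectedSpace Y] [SigmaCompactSpace Y] [IsFiniteMeasure D.ν] (hc : D.Cut D.K)
    {f : Y → ℂ} (hf : MemLp f 2 D.ν) {ε : ℝ} (hε : 0 < ε) : ∃ h, D.HH h ∧
      ∫ x, ‖f x + h x‖ ^ 2 ∂D.ν ≤ ‖∫ x, f x ∂D.ν‖ ^ 2 / D.ν.real univ + ε := by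
  have hm : ∀ {f : Y → ℂ}, D.Cc f → MemLp f 2 D.ν := fun hf => hf.memLp D.den D.Ψ_cont 2
  let V : Submodule ℂ (Lp ℂ 2 D.ν) :=
    { carrier := {u | ∃ k, D.HH k ∧ u =ᵐ[D.ν] k}
      zero_mem' := ⟨_, Dat.HH.zero, Lp.coeFn_zero _ _ _⟩
      add_mem' := by
        rintro u v ⟨k, hk, hu⟩ ⟨k', hk', hv⟩
        exact ⟨_, hk.add hk', (Lp.coeFn_add u v).trans (hu.add hv)⟩
      smul_mem' := by
        rintro c u ⟨k, hk, hu⟩
        exact ⟨_, hk.const_mul c, (Lp.coeFn_smul c u).trans (hu.const_smul c)⟩ }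
  have h1 := V.topologicalClosure.starProjection_inner_eq_zero (hf.toLp f)
  have h2 := V.topologicalClosure.starProjection_apply_mem (hf.toLp f)
  set P := V.topologicalClosure.starProjection (hf.toLp f)
  set G := hf.toLp f - P with hG
  obtain ⟨c, h3⟩ := co_const hc (Lp.memLp G) fun k hk => by
    have := h1 _ (V.le_topologicalClosure ⟨k, hk, (hm hk.1).coeFn_toLp⟩)
    rw [abnm_inner] at this
    rw [← this]
    exact integral_congr_ae (by filter_upwards [(hm hk.1).coeFn_toLp] with x h; rw [h])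
  have o1 : MemLp (fun _ : Y => (1 : ℂ)) 2 D.ν := memLp_const 1
  have o2 : ∀ u : Lp ℂ 2 D.ν, inner ℂ (o1.toLp _) u = ∫ x, u x ∂D.ν := fun u => by
    rw [abnm_inner]
    exact integral_congr_ae (by
      filter_upwards [o1.coeFn_toLp] with x h
      rw [h, star_one, mul_one])
  have h4 : inner ℂ (o1.toLp _) P = 0 :=
    closure_minimal (s := (V : Set (Lp ℂ 2 D.ν))) (t := {u | inner ℂ (o1.toLp _) u = 0}) (by
      rintro u ⟨k, hk, hu⟩
      exact (o2 u).trans ((integral_congr_ae hu).trans (HH_int hc hk)))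
      (isClosed_eq (by fun_prop) continuous_const) h2
  have h5 : ∫ x, f x ∂D.ν = D.ν.real univ • c := by
    rw [← integral_congr_ae hf.coeFn_toLp, ← o2, ← sub_add_cancel (hf.toLp f) P, inner_add_right,
      h4, add_zero, o2, integral_congr_ae h3, integral_const]
  have h6 : ‖G‖ ^ 2 = ‖∫ x, f x ∂D.ν‖ ^ 2 / D.ν.real univ := by
    have e : (fun x => ‖G x‖ ^ 2) =ᵐ[D.ν] fun _ => ‖c‖ ^ 2 := h3.mono fun x hx => by simp only [hx]
    rw [abnm_norm, integral_congr_ae e, integral_const, h5, norm_smul, Real.norm_eq_abs, mul_pow,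
      sq_abs, smul_eq_mul]
    rcases eq_or_ne (D.ν.real univ) 0 with h | h
    · simp [h]
    · field_simp
  obtain ⟨u, hu, h7⟩ := Metric.mem_closure_iff.1 h2 _ (Real.sqrt_pos.2 hε)
  obtain ⟨k, hk, hu'⟩ := id hu
  refine ⟨fun x => -1 * k x, hk.const_mul _, ?_⟩
  have h8 : ∫ x, ‖f x + -1 * k x‖ ^ 2 ∂D.ν = ‖G + (P - u)‖ ^ 2 := by
    rw [abnm_norm, hG, sub_add_sub_cancel]
    refine integral_congr_ae ?_
    filter_upwards [Lp.coeFn_sub (hf.toLp f) u, hf.coeFn_toLp, hu'] with x e1 e2 e3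
    rw [e1, Pi.sub_apply, e2, e3, neg_one_mul, sub_eq_add_neg]
  have h9 := norm_add_sq_eq_norm_sq_add_norm_sq_of_inner_eq_zero G (P - u)
    (h1 _ (sub_mem h2 (V.le_topologicalClosure hu)))
  rw [h8, sq, h9, ← sq, ← sq, h6]
  rw [dist_eq_norm] at h7
  exact add_le_add le_rfl ((Real.lt_sqrt (norm_nonneg _)).1 h7).le

end KD

end Pool.Agent.HX
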