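import Pool.Agent.P.MP_63735c_ag.HXBB
import Pool.Agent.P.MP_63735c_ag.ABL2

/-! The Dirichlet form of a Kähler manifold. -/

open scoped ComplexOrder ContDiff Matrix Topology ENNReal
open Set Metric MeasureTheory Filter

namespace Pool.Agent.HX

open Pool.Agent.SPF Pool.Agent.AB

variable {N : ℕ}

theorem co_trK_le {K M : Mat N} (hK : K.PosDef) (hM : M.IsHermitian) {ε : ℝ}
    (h : ∀ v, (hq M v v).re ≤ ε * (hq K v v).re) : (trK K M).re ≤ ε * N := by
  have h1 : ((ε : ℂ) • K - M).IsHermitian := by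
    refine Matrix.IsHermitian.sub ?_ hM
    rw [Matrix.IsHermitian, Matrix.conjTranspose_smul, hK.1.eq]
    simp
  have h2 : ((ε : ℂ) • K - M).PosSemidef := by
    refine Matrix.PosSemidef.of_dotProduct_mulVec_nonneg h1 fun x => ?_
    have e : star x ⬝ᵥ ((ε : ℂ) • K - M) *ᵥ x = hq ((ε : ℂ) • K - M) (star x) (star x) := by
      rw [hq, star_star]
    have e2 : hq ((ε : ℂ) • K - M) (star x) (star x) =
        ε * hq K (star x) (star x) - hq M (star x) (star x) := by
      rw [← hq_smul, hq, hq, hq, Matrix.sub_mulVec, dotProduct_sub]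
    rw [e]
    refine Complex.nonneg_iff.2 ⟨?_, (Complex.conj_eq_iff_im.1 (hq_herm h1 _ _)).symm⟩
    rw [e2, Complex.sub_re, Complex.re_ofReal_mul]
    linarith [h (star x)]
  have h3 := (Complex.nonneg_iff.1 (abalg_trace hK.inv.posSemidef h2)).1
  rw [Matrix.mul_sub, Matrix.mul_smul, Matrix.nonsing_inv_mul _
    ((Matrix.isUnit_iff_isUnit_det _).1 hK.isUnit), Matrix.trace_sub, Matrix.trace_smul] at h3
  simp only [Matrix.trace_one, Fintype.card_fin, smul_eq_mul, Complex.sub_re,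
    Complex.re_ofReal_mul, Complex.natCast_re] at h3
  rw [trK]
  linarith

theorem co_lc_star {K : Mat N} (hK : K.PosDef) {w : E N → ℂ} {z : E N}
    (hw : ContDiffAt ℝ ∞ w z) : trK K (lc (fun y => star (w y)) z) = star (trK K (lc w z)) := by
  have h1 : lc (fun y => star (w y)) z = (lc w z)ᴴ := by
    ext a b
    have e : dzb b (fun y => star (w y)) = fun y => star (dz b w y) :=
      funext fun y => (star_dz w y b).1.symm
    simp only [lc, Matrix.of_apply, Matrix.conjTranspose_apply]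
    rw [e, ← (star_dz _ z a).2, (ablev_comm hw b a).1]
  rw [h1, trK, trK, ← Matrix.trace_conjTranspose, Matrix.conjTranspose_mul, hK.inv.1.eq,
    Matrix.trace_mul_comm]

variable {Y : Type} [TopologicalSpace Y] [MeasurableSpace Y] [BorelSpace Y] [T2Space Y]

omit [MeasurableSpace Y] [BorelSpace Y] [T2Space Y] in
theorem co_S_star {D : Man Y N} {w : Y → ℂ} (hw : D.S w) : D.S fun x => star (w x) :=
  ⟨fun i => abint_star (hw.1 i), hw.2.of_zero fun x hx => by rw [hx, star_zero]⟩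

theorem co_En_sum {D : Dat Y N} {κ : Type} (s : Finset κ) {r : κ → Y → ℂ} (hr : ∀ a, D.S (r a))
    {w : Y → ℂ} (hw : D.S w) : D.S (fun x => ∑ a ∈ s, r a x) ∧
      D.En w (fun x => ∑ a ∈ s, r a x) = ∑ a ∈ s, D.En w (r a) := by
  classical
  induction s using Finset.induction_on with
  | empty =>
    have h := Dat.En_smul_left (D := D) (w' := w) hw 0
    simp only [zero_mul] at h
    simp only [Finset.sum_empty]
    exact ⟨Man.S.zero, by rw [← Dat.En_star, h, star_zero]⟩
  | insert a s ha ih =>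
    have h := abnm_right (hr a) ih.1 hw 1
    simp only [one_mul, star_one] at h
    simp only [Finset.sum_insert ha]
    exact ⟨(hr a).add ih.1, by rw [h, ih.2]⟩

namespace KD

variable {D : KD Y N}

/-- Green's formula with a partition of unity. -/
theorem en_pu {m : ℕ} {c : Fin m → D.ι} {τ : Fin m → E N → ℝ} (hτ : ∀ a, Tst (D.W (c a)) (τ a))
    {w v : Y → ℂ} (hw : D.S w) (hv : D.Smo v) :
    D.En w (fun x => ((∑ a, D.ext (c a) (τ a) x : ℝ) : ℂ) * v x) =
      -∑ a, ∫ z in D.W (c a), (wt (D.Ψ (c a)) z : ℂ) *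
        (trK (D.K (c a) z) (lc (fun y => w (D.p (c a) y)) z) *
          star ((τ a z : ℂ) * v (D.p (c a) z))) := by
  have h1 : ∀ a, Tst (D.W (c a)) fun z => (τ a z : ℂ) * v (D.p (c a) z) := fun a =>
    ((ablc1_cx (hτ a)).mul_on (D.isOpen _) (hv _)).1
  have h2 : (fun x => ((∑ a, D.ext (c a) (τ a) x : ℝ) : ℂ) * v x) =
      fun x => ∑ a, D.ext (c a) (fun z => (τ a z : ℂ) * v (D.p (c a) z)) x := by
    funext x
    rw [Complex.ofReal_sum, Finset.sum_mul]
    refine Finset.sum_congr rfl fun a _ => ?_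
    by_cases hx : x ∈ D.p (c a) '' D.W (c a)
    · obtain ⟨z, hz, rfl⟩ := hx
      rw [Man.ext_apply hz, Man.ext_apply hz]
    · rw [Man.ext_out hx, Man.ext_out hx, Complex.ofReal_zero, zero_mul]
  rw [h2, (co_En_sum _ (fun a => Man.ext_S (h1 a)) hw).2, ← Finset.sum_neg_distrib]
  refine Finset.sum_congr rfl fun a _ => ?_
  rw [Dat.En_ext hw (h1 a)]
  congr 1
  refine setIntegral_congr_fun (D.isOpen _).measurableSet fun z hz => ?_
  rw [dlt_eq (D.isOpen _) (D.kah _) (D.Ψ_smooth _) (D.det _) (hw.1 _) hz]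

theorem en_star (hc : D.Cut D.K) {w : Y → ℂ} (hw : D.S w) :
    (D.En (fun x => star (w x)) fun x => star (w x)).re = (D.En w w).re := by
  obtain ⟨C, h1, h2, h3⟩ := hw.2
  obtain ⟨θ, hθ, h01, h4, -⟩ := hc C h1 h2 1 one_pos
  obtain ⟨m, c, τ, hτ, -, hs⟩ := Man.exists_pu hθ fun x => (h01 x).1
  have e : ∀ v : Y → ℂ, (∀ x ∉ C, v x = 0) →
      v = fun x => ((∑ a, D.ext (c a) (τ a) x : ℝ) : ℂ) * v x := fun v hv => funext fun x => by
    rw [← hs]
    by_cases hx : x ∈ C
    · rw [(h4 x hx).self_of_nhds, Complex.ofReal_one, one_mul]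
    · rw [hv x hx, mul_zero]
  have a1 := en_pu hτ hw hw.1
  have a2 := en_pu hτ (co_S_star hw) (co_S_star hw).1
  rw [← e w h3] at a1
  rw [← e _ fun x hx => by rw [h3 x hx, star_zero]] at a2
  rw [a2, ← Complex.conj_re (D.En w w), a1, map_neg, map_sum]
  congr 2
  refine Finset.sum_congr rfl fun a _ => ?_
  rw [← integral_conj]
  refine setIntegral_congr_fun (D.isOpen _).measurableSet fun z hz => ?_
  rw [co_lc_star ((D.kah _).pos z hz) ((hw.1 _).contDiffAt ((D.isOpen _).mem_nhds hz))]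
  simp

/-- Cutoff functions have small energy. -/
theorem en_cut [IsFiniteMeasure D.ν] (hc : D.Cut D.K) {θ : Y → ℝ} (hθ : D.S θ)
    (h01 : ∀ x, 0 ≤ θ x ∧ θ x ≤ 1) {ε : ℝ} (hε : 0 ≤ ε)
    (hl : ∀ i, ∀ z ∈ D.W i, ∀ v, (hq (D.levG θ i z) v v).re ≤ ε * (hq (D.K i z) v v).re) :
    (D.En (fun x => (θ x : ℂ)) fun x => (θ x : ℂ)).re ≤ ε * N * D.ν.real univ := by
  obtain ⟨C, h1, h2, h3⟩ := hθ.2
  obtain ⟨χ, hχ, g01, h4, -⟩ := hc C h1 h2 1 one_pos
  have hρ := hχ.sub hθ
  have hρ0 : ∀ x, 0 ≤ χ x - θ x := fun x => by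
    by_cases hx : x ∈ C
    · rw [(h4 x hx).self_of_nhds]; linarith [(h01 x).2]
    · rw [h3 x hx, sub_zero]; exact (g01 x).1
  obtain ⟨m, c, τ, hτ, hτ0, hs⟩ := Man.exists_pu hρ hρ0
  have a1 := en_pu hτ hθ.ofReal (v := fun _ => 1) fun i => contDiffOn_const
  have a2 := abnm_right hχ.ofReal hθ.ofReal hθ.ofReal (-1)
  have a3 : D.En (fun x => (θ x : ℂ)) (fun x => (χ x : ℂ)) = 0 := by
    rw [Dat.En, ← integral_zero Y ℂ (μ := D.ν)]
    refine integral_congr_ae (Eventually.of_forall fun x => ?_)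
    by_cases hx : x ∈ C
    · exact (Dat.Gam_zero (c := ((1 : ℝ) : ℂ)) ((h4 x hx).mono fun y hy => by rw [hy])).2
    · refine (Dat.Gam_zero (c := ((0 : ℝ) : ℂ)) ?_).1
      filter_upwards [h1.isClosed.isOpen_compl.mem_nhds hx] with y hy
      rw [h3 y hy]
  have e : (fun x => ((∑ a, D.ext (c a) (τ a) x : ℝ) : ℂ) * 1) =
      fun x => (χ x : ℂ) + -1 * (θ x : ℂ) := funext fun x => by
    rw [← hs]; push_cast; ring
  rw [e, a2, a3, zero_add, star_neg, star_one, neg_one_mul, neg_inj] at a1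
  have hE : ∀ a, D.S (D.ext (c a) (τ a)) := fun a => Man.ext_S (hτ a)
  have a4 : ∑ a, ∫ x, D.ext (c a) (τ a) x ∂D.ν ≤ D.ν.real univ := by
    rw [← integral_finsetSum _ fun a _ => Dat.cc_int (hE a).cc, ← mul_one (D.ν.real univ),
      ← smul_eq_mul, ← integral_const]
    simp only [← hs]
    exact integral_mono (Dat.cc_int hρ.cc) (integrable_const _) fun x => by
      linarith [(h01 x).1, (g01 x).2]
  refine le_trans ?_ (mul_le_mul_of_nonneg_left a4 (by positivity))
  rw [a1, Complex.re_sum, Finset.mul_sum]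
  refine Finset.sum_le_sum fun a _ => ?_
  have hW := D.isOpen (c a)
  have t0 : ∀ z ∈ D.W (c a), z ∉ tsupport (τ a) → τ a z = 0 := fun z _ hz =>
    image_eq_zero_of_notMem_tsupport hz
  have hwt := (wt_smooth (D.Ψ_smooth (c a))).continuousOn
  have hd := (dlt_smooth hW (D.Ψ_smooth _) (grad_smooth hW (D.kah _) (hθ.ofReal.1 _))).continuousOn
  have i1 : IntegrableOn (fun z => (wt (D.Ψ (c a)) z : ℂ) *
      (trK (D.K (c a) z) (lc (fun y => (θ (D.p (c a) y) : ℂ)) z) * star ((τ a z : ℂ) * 1)))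
      (D.W (c a)) volume :=
    intOn hW (hτ a).cpt (hτ a).sub ((Complex.continuous_ofReal.comp_continuousOn hwt).mul
      ((hd.congr fun z hz => (dlt_eq hW (D.kah _) (D.Ψ_smooth _) (D.det _) (hθ.ofReal.1 _)
        hz).symm).mul (((ablc1_cx (hτ a)).smooth.continuous.mul continuous_const).star.continuousOn)))
      fun z hz hz' => by simp [t0 z hz hz']
  have i2 : IntegrableOn (fun z => wt (D.Ψ (c a)) z * τ a z) (D.W (c a)) volume :=
    intOn hW (hτ a).cpt (hτ a).sub (hwt.mul (hτ a).smooth.continuous.continuousOn)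
      fun z hz hz' => by simp [t0 z hz hz']
  rw [D.den.int_supp (D.Ψ_cont _) (fun x hx => Man.ext_out hx), ← integral_const_mul,
    ← RCLike.re_to_complex, ← integral_re i1]
  refine setIntegral_mono_on i1.re ?_ hW.measurableSet fun z hz => ?_
  · exact (i2.congr_fun (fun z hz => by simp only [Man.ext_apply hz, smul_eq_mul])
      hW.measurableSet).const_mul _
  · have b1 : lc (fun y => (θ (D.p (c a) y) : ℂ)) z = D.levG θ (c a) z := by
      ext j k
      exact (lev_apply _ z j k).symm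
    have b2 := co_trK_le ((D.kah _).pos z hz)
      (lev_herm ((hθ.1 (c a)).contDiffAt (hW.mem_nhds hz))) (hl _ z hz)
    rw [b1, Man.ext_apply hz, RCLike.re_to_complex, Complex.re_ofReal_mul, mul_one,
      Complex.star_def, Complex.conj_ofReal, Complex.re_mul_ofReal, smul_eq_mul,
      mul_left_comm (ε * N)]
    exact mul_le_mul_of_nonneg_left (mul_le_mul_of_nonneg_right b2 (hτ0 a z)) (wt_pos _ _).le

end KD

end Pool.Agent.HX
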