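import Pool.Agent.P.MP_63735c_ag.HXDefs
import Pool.Agent.P.MP_63735c_ag.ABLev

/-! Calculus of the correcting 1-forms. -/

open scoped ComplexOrder ContDiff Matrix Topology ENNReal
open Set Metric MeasureTheory Filter

namespace Pool.Agent.HX

open Pool.Agent.SPF Pool.Agent.AB

open Pool.Agent.CL (Form1)

section General

variable {F G : Type} [NormedAddCommGroup F] [NormedSpace ℝ F] [NormedSpace ℂ F]
  [IsScalarTower ℝ ℂ F] [NormedAddCommGroup G] [NormedSpace ℝ G] [NormedSpace ℂ G]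
  [IsScalarTower ℝ ℂ G] {Y : Type} {m : ℕ} {τ : Fin m → Y → ℝ} {w : Fin m → Y → ℂ}

theorem dcf_eq (f : F → ℂ) (x u : F) :
    dcf f x u = -(1 / 2) * ((fderiv ℝ f x u).im + (fderiv ℝ f x (Complex.I • u)).re) := by
  simp [dcf]
  ring

/-- The linear map behind `dcf`. -/
noncomputable def dcL (F : Type) [NormedAddCommGroup F] [NormedSpace ℝ F] [NormedSpace ℂ F]
    [IsScalarTower ℝ ℂ F] : (F →L[ℝ] ℂ) →L[ℝ] F →L[ℝ] ℝ :=
  (-(1 / 2) : ℝ) • (ContinuousLinearMap.compL ℝ F ℂ ℝ Complex.imCLM +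
    (ContinuousLinearMap.compL ℝ F ℂ ℝ Complex.reCLM).comp
      ((ContinuousLinearMap.compL ℝ F F ℂ).flip
        ((Complex.I • ContinuousLinearMap.id ℂ F).restrictScalars ℝ)))

theorem dcf_L (f : F → ℂ) : dcf f = fun x => dcL F (fderiv ℝ f x) := by
  funext x
  ext u
  simp [dcf, dcL]

theorem dcf_congr {f f' : F → ℂ} {x : F} (h : f =ᶠ[𝓝 x] f') : dcf f =ᶠ[𝓝 x] dcf f' := by
  filter_upwards [h.fderiv (𝕜 := ℝ)] with y hy
  simp only [dcf, hy]

theorem dcf_smooth {f : F → ℂ} {x : F} (hf : ContDiffAt ℝ ∞ f x) : ContDiffAt ℝ ∞ (dcf f) x := by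
  rw [dcf_L]
  exact (dcL F).contDiff.contDiffAt.comp x (hf.fderiv_right (m := ∞) (by simp))

theorem dcf_sub {f f' : F → ℂ} {x : F} (hf : DifferentiableAt ℝ f x)
    (hf' : DifferentiableAt ℝ f' x) : dcf (fun y => f y - f' y) x = dcf f x - dcf f' x := by
  simp only [dcf_L, fderiv_fun_sub hf hf', map_sub]

theorem dc_real {φ : F → G} {x : F} (hφ : DifferentiableAt ℂ φ x) (u : F) :
    fderiv ℝ φ x u = fderiv ℂ φ x u := by
  rw [(hφ.hasFDerivAt.restrictScalars ℝ).fderiv]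
  rfl

theorem dcf_comp {f : G → ℂ} {φ : F → G} {x : F} (hf : DifferentiableAt ℝ f (φ x))
    (hφ : DifferentiableAt ℂ φ x) (u : F) :
    dcf (fun y => f (φ y)) x u = dcf f (φ x) (fderiv ℂ φ x u) := by
  have h : ∀ v, fderiv ℝ (fun y => f (φ y)) x v = fderiv ℝ f (φ x) (fderiv ℂ φ x v) := fun v => by
    rw [← dc_real hφ]
    exact congrArg (fun L => L v) (fderiv_comp x hf (hφ.restrictScalars ℝ))
  rw [dcf_eq, dcf_eq, h, h, map_smul]

theorem bet_congr {g g' : F → Y} {x : F} (h : g =ᶠ[𝓝 x] g') :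
    bet τ w g =ᶠ[𝓝 x] bet τ w g' := by
  filter_upwards [h.eventuallyEq_nhds] with y hy
  refine Finset.sum_congr rfl fun k _ => ?_
  rw [hy.eq_of_nhds, (dcf_congr (f := fun y => w k (g y)) (f' := fun y => w k (g' y))
    (hy.mono fun s hs => congrArg (w k) hs)).eq_of_nhds]

theorem bet_smooth {g : F → Y} {x : F} (hτ : ∀ k, ContDiffAt ℝ ∞ (fun y => τ k (g y)) x)
    (hw : ∀ k, ContDiffAt ℝ ∞ (fun y => w k (g y)) x) : ContDiffAt ℝ ∞ (bet τ w g) x :=
  ContDiffAt.sum fun k _ => (hτ k).smul (dcf_smooth (hw k))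

theorem bet_apply (g : F → Y) (x u : F) :
    bet τ w g x u = ∑ k, τ k (g x) * dcf (fun y => w k (g y)) x u := by
  simp [bet]

theorem bet_comp {g : G → Y} {φ : F → G} {x : F}
    (hw : ∀ k, DifferentiableAt ℝ (fun y => w k (g y)) (φ x)) (hφ : DifferentiableAt ℂ φ x)
    (u : F) : bet τ w (fun y => g (φ y)) x u = bet τ w g (φ x) (fderiv ℂ φ x u) := by
  rw [bet_apply, bet_apply]
  exact Finset.sum_congr rfl fun k _ => congrArg _ (dcf_comp (hw k) hφ u)

omit [NormedSpace ℂ F] [IsScalarTower ℝ ℂ F] [NormedSpace ℂ G] [IsScalarTower ℝ ℂ G] in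
/-- The exterior derivative commutes with pull-back. -/
theorem dform_comp {β : Form1 G} {β' : Form1 F} {φ : F → G} {x : F}
    (hβ : DifferentiableAt ℝ β (φ x)) (hφ : ContDiffAt ℝ 2 φ x)
    (h : ∀ᶠ y in 𝓝 x, ∀ u, β' y u = β (φ y) (fderiv ℝ φ y u)) (u v : F) :
    dform β' x u v = dform β (φ x) (fderiv ℝ φ x u) (fderiv ℝ φ x v) := by
  have h1 : DifferentiableAt ℝ φ x := hφ.differentiableAt (by simp)
  have h2 : DifferentiableAt ℝ (fderiv ℝ φ) x :=
    (hφ.fderiv_right (m := 1) (by norm_num)).differentiableAt (by simp)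
  have h3 := (hβ.hasFDerivAt.comp x h1.hasFDerivAt).clm_comp h2.hasFDerivAt
  have h4 : β' =ᶠ[𝓝 x] fun y => ((β ∘ φ) y).comp (fderiv ℝ φ y) :=
    h.mono fun y hy => ContinuousLinearMap.ext hy
  have h5 := (hφ.isSymmSndFDerivAt (by simp)).eq u v
  simp only [dform, h4.fderiv_eq, h3.fderiv]
  simp [h5]

theorem dform_bet {g : F → Y} {x : F} (hτ : ∀ k, ContDiffAt ℝ ∞ (fun y => τ k (g y)) x)
    (hw : ∀ k, ContDiffAt ℝ ∞ (fun y => w k (g y)) x) (u v : F) :
    dform (bet τ w g) x u v = ∑ k, (τ k (g x) * dform (dcf fun y => w k (g y)) x u v +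
      (fderiv ℝ (fun y => τ k (g y)) x u * dcf (fun y => w k (g y)) x v -
        fderiv ℝ (fun y => τ k (g y)) x v * dcf (fun y => w k (g y)) x u)) := by
  have h := HasFDerivAt.fun_sum (u := Finset.univ) fun k _ =>
    ((hτ k).differentiableAt (by simp)).hasFDerivAt.fun_smul
      ((dcf_smooth (hw k)).differentiableAt (by simp)).hasFDerivAt
  have e : fderiv ℝ (bet τ w g) x = _ := h.fderiv
  simp only [dform, e, sum_apply, add_apply, smul_apply,
    ContinuousLinearMap.smulRight_apply, smul_eq_mul,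
    ← Finset.sum_sub_distrib]
  exact Finset.sum_congr rfl fun k _ => by ring

end General

theorem dcf_apply {N : ℕ} (w : E N → ℂ) (z u : E N) : dcf w z u = -(db w z ⬝ᵥ star u).im := by
  rw [dcf_eq, fderiv_eq_wirt, fderiv_eq_wirt]
  simp only [Complex.im_sum, Complex.re_sum, dotProduct, db, ← Finset.sum_add_distrib,
    Finset.mul_sum, ← Finset.sum_neg_distrib]
  refine Finset.sum_congr rfl fun a _ => ?_
  simp
  ring

end Pool.Agent.HX
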