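import Pool.Agent.P.MP_63735c_ag.HXGlob
import Pool.Agent.P.MP_63735c_ag.HXSD
import Pool.Agent.P.MP_63735c_ag.HXCo

/-! The index inequality in one chart of the manifold, and the global integrand. -/

open scoped ComplexOrder ContDiff Matrix Topology ENNReal
open Set Metric MeasureTheory Filter

namespace Pool.Agent.HX

open Pool.Agent.SPF Pool.Agent.AB

variable {N : ℕ}

theorem gl_cross {K a : Mat N} (hK : K.PosDef) (ha : a.IsHermitian) {M : ℝ} (h : Dom K a M)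
    (u v : E N) : ‖trK K a * hq K u v - hq a u v‖ ^ 2 ≤
      (hq K u u).re * (2 * (N ^ 3 + N) * M ^ 2 * (hq K v v).re) := by
  obtain ⟨h1, h2, -⟩ := dom_bounds hK ha h
  have h3 := (dom_bounds hK hK.1 (C := 1) fun v => by
    rw [one_mul, abs_of_nonneg (hq_nonneg hK.posSemidef v)]).2.1
  have p := mul_nonneg (hq_nonneg hK.posSemidef u) (hq_nonneg hK.posSemidef v)
  have h4 := hq_sq_le hK K u v
  have h5 := hq_sq_le hK a u v
  rw [mul_assoc] at h4 h5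
  have h6 := h4.trans (mul_le_mul_of_nonneg_right h3 p)
  have h7 := h5.trans (mul_le_mul_of_nonneg_right h2 p)
  have h8 : ‖trK K a * hq K u v‖ ^ 2 ≤ (N * M) ^ 2 * (N * 1 ^ 2 * ((hq K u u).re * (hq K v v).re)) := by
    rw [norm_mul, mul_pow]
    exact mul_le_mul (pow_le_pow_left₀ (norm_nonneg _) h1 2) h6 (by positivity) (by positivity)
  have h9 := pow_le_pow_left₀ (norm_nonneg _) (norm_sub_le (trK K a * hq K u v) (hq a u v)) 2
  nlinarith [sq_nonneg (‖trK K a * hq K u v‖ - ‖hq a u v‖)]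

theorem gl_lev {K L : Mat N} (hK : K.PosDef) (hL : L.IsHermitian) {ε : ℝ} (hε : 0 ≤ ε)
    (h : ∀ v, (hq L v v).re ≤ ε * (hq K v v).re) (u : E N) :
    (trK K L * hq K u u - hq L u u).re ≤ ε * N * (hq K u u).re := by
  have e : ∀ v, (hq ((ε : ℂ) • K - L) v v).re = ε * (hq K v v).re - (hq L v v).re := fun v => by
    rw [← Complex.re_ofReal_mul, ← hq_smul, hq, hq, hq, Matrix.sub_mulVec, dotProduct_sub,
      Complex.sub_re]
  have h1 : ((ε : ℂ) • K - L).IsHermitian := by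
    refine Matrix.IsHermitian.sub ?_ hL
    rw [Matrix.IsHermitian, Matrix.conjTranspose_smul, hK.1.eq]
    simp
  have h2 := (psd_bounds hK (psd_of_hq h1 fun v => by rw [e]; linarith [h v])).2.1 u
  have h3 : (trK K ((ε : ℂ) • K - L)).re = ε * N - (trK K L).re := by
    rw [trK, Matrix.mul_sub, Matrix.mul_smul, Matrix.nonsing_inv_mul _
      ((Matrix.isUnit_iff_isUnit_det _).1 hK.isUnit), Matrix.trace_sub, Matrix.trace_smul, trK]
    simp
  rw [e, h3] at h2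
  rw [Complex.sub_re, ← trK_im hK.1 hL, Complex.re_ofReal_mul]
  nlinarith [mul_nonneg hε (hq_nonneg hK.posSemidef u)]

variable {Y : Type} [TopologicalSpace Y] [MeasurableSpace Y] [BorelSpace Y] [T2Space Y]

namespace KD

variable {D : KD Y N} {a : D.ι → E N → Mat N}

omit [BorelSpace Y] [T2Space Y] in
theorem qH_zero {θ : Y → ℝ} {w h : Y → ℂ} {x : Y} (h0 : ∀ᶠ y in 𝓝 x, θ y = 0) (hθ : D.Smo θ) :
    D.qH a θ w h x = 0 := by
  have h1 : ∀ᶠ y in 𝓝 x, ((θ y : ℝ) : ℂ) = 0 := h0.mono fun y hy => by simp [hy]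
  obtain ⟨i, z, hz, rfl⟩ := D.chart x
  have e : (fun y => θ (D.p i y)) =ᶠ[𝓝 z] fun _ => 0 := (Man.contAt_p hz).eventually h0
  rw [qH, Dat.Gam_levG_zero h0, (Dat.Gam_zero h1).2, (Dat.Gam_zero h1).2, h0.self_of_nhds,
    tr_chart (Man.levG_cpt hθ) hz, Man.levG, (lev_congr e).self_of_nhds, lev_const]
  simp [trK]

omit [BorelSpace Y] in
theorem qH_cc (ha : Frm D.toMan a) {θ : Y → ℝ} (hθ : D.S θ) {w h : Y → ℂ} (hw : D.S w)
    (hh : D.Cc h) : D.Cc (D.qH a θ w h) := by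
  obtain ⟨C, h1, h2, h3⟩ := hθ.2
  refine ⟨fun i => ?_, C, h1, h2, fun x hx => qH_zero
    (mem_of_superset (h1.isClosed.isOpen_compl.mem_nhds hx) h3) hθ.1⟩
  have h4 := (qh_cont (D.isOpen i) (D.Ψ_smooth i) (D.kah i) (ha.clo i) (hθ.1 i)
    (grad_smooth (D.isOpen i) (D.kah i) (hw.1 i)).continuousOn (hh.1 i)).div
    (wt_smooth (D.Ψ_smooth i)).continuousOn fun z _ => (wt_pos _ _).ne'
  refine h4.congr fun z hz => ?_
  rw [qH_chart ha.cpt hθ.1 hw.1 h hz, Pi.div_apply, mul_div_cancel_left₀ _ (wt_pos _ _).ne']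

omit [BorelSpace Y] [T2Space Y] in
theorem qH_add {θ θ' : Y → ℝ} (hθ : D.S θ) (hθ' : D.S θ') (w h : Y → ℂ) (x : Y) :
    D.qH a (fun y => θ y + θ' y) w h x = D.qH a θ w h x + D.qH a θ' w h x := by
  have h1 : (fun y => ((θ y + θ' y : ℝ) : ℂ)) = fun y => (θ y : ℂ) + (θ' y : ℂ) := by
    funext y; push_cast; rfl
  have h2 : D.tr (D.levG fun y => θ y + θ' y) x = D.tr (D.levG θ) x + D.tr (D.levG θ') x := by
    obtain ⟨i, z, hz, rfl⟩ := D.chart x
    rw [tr_chart (Man.levG_cpt (hθ.add hθ').1) hz, tr_chart (Man.levG_cpt hθ.1) hz,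
      tr_chart (Man.levG_cpt hθ'.1) hz, Man.levG_add hθ.1 hθ'.1 hz, trK, Matrix.mul_add,
      Matrix.trace_add, trK, trK]
  simp only [qH]
  rw [Dat.Gam_add_form (h := D.levG θ) (h' := D.levG θ')
    (fun i z hz => Man.levG_add hθ.1 hθ'.1 hz), h1, h2, Dat.Gam_add_right hθ.ofReal.1 hθ'.ofReal.1,
    Dat.Gam_add_right hθ.ofReal.1 hθ'.ofReal.1]
  simp only [Complex.add_re, Complex.sub_re, add_mul, mul_add]
  ring

omit [BorelSpace Y] [T2Space Y] in
theorem qH_sum {κ : Type} (s : Finset κ) {θ : κ → Y → ℝ} (hθ : ∀ k, D.S (θ k)) (w h : Y → ℂ)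
    (x : Y) : D.S (fun y => ∑ k ∈ s, θ k y) ∧
      D.qH a (fun y => ∑ k ∈ s, θ k y) w h x = ∑ k ∈ s, D.qH a (θ k) w h x := by
  classical
  induction s using Finset.induction_on with
  | empty =>
    simp only [Finset.sum_empty]
    exact ⟨Man.S.zero, qH_zero (Eventually.of_forall fun _ => rfl) Man.S.zero.1⟩
  | insert k s hk ih =>
    simp only [Finset.sum_insert hk]
    exact ⟨(hθ k).add ih.1, by rw [qH_add (hθ k) ih.1, ih.2]⟩

theorem lig_err {i : D.ι} {τ : E N → ℝ} (hτ : Tst (D.W i) τ) : ∃ A : ℝ, 0 < A ∧ ∀ v, D.S v →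
    ∫ x, (D.Gam D.K (fun y => (D.ext i τ y : ℝ)) (fun y => (D.ext i τ y : ℝ)) x).re *
      (D.Gam D.K v v x).re ∂D.ν ≤ A * ∫ z in tsupport τ, ‖db (fun y => v (D.p i y)) z‖ ^ 2 := by
  have hS := (Man.ext_S (D := D.toMan) hτ).ofReal
  have hC : IsCompact (tsupport τ) := hτ.cpt
  have hG := (Dat.GamK_cc hS hS.1).map (l := Complex.re) Complex.continuous_re rfl
  obtain ⟨c, B, -, hB, hd⟩ := cpt_dual hC
    (fun a b => ((D.kah i).smooth a b).continuousOn.mono hτ.sub)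
    fun z hz => (D.kah i).pos z (hτ.sub hz)
  obtain ⟨b₀, b, -, hb, hw0⟩ := Dat.ablcg_wt (D := D.toDat) hC hτ.sub
  obtain ⟨T, hT⟩ := hC.exists_bound_of_continuousOn ((hG.1 i).mono hτ.sub)
  refine ⟨b * ((|T| + 1) * B), by positivity, fun v hv => ?_⟩
  have hi := Dat.cc_int (hG.map₂ (Dat.GamK_cc hv hv.1).1 (l := fun (p : ℝ) (q : ℂ) => p * q.re)
    (by fun_prop) fun b => zero_mul _)
  rw [← setIntegral_eq_integral_of_forall_compl_eq_zero (s := D.p i '' tsupport τ) fun x hx => by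
    rw [(Dat.Gam_zero (c := ((0 : ℝ) : ℂ)) ((Dat.ablcg_out hC hτ.sub subset_rfl hx).mono
      fun y hy => by rw [hy])).1, Complex.zero_re, zero_mul],
    D.den.int (D.Ψ_cont i) hC.measurableSet hτ.sub, ← integral_const_mul]
  refine setIntegral_mono_on ((D.den.intOn (D.Ψ_cont i) hC.measurableSet hτ.sub _).1
    hi.integrableOn) ((((((db_smooth (D.isOpen i) (hv.1 i)).continuousOn.mono hτ.sub).norm).pow
      2).integrableOn_compact hC).const_mul _) hC.measurableSet fun z hz => ?_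
  rw [smul_eq_mul, mul_assoc, mul_assoc]
  refine mul_le_mul (hw0 z hz).2 (mul_le_mul (((le_abs_self _).trans (hT z hz)).trans
    ((le_abs_self T).trans (by linarith))) ?_ (Dat.GamK_nonneg _) (by positivity))
    (mul_nonneg (Dat.GamK_nonneg _) (Dat.GamK_nonneg _)) hb.le
  rw [Dat.ablcg_K hv.1 (hτ.sub hz)]
  exact (hd z hz _).2.1

theorem lig (ha : Frm D.toMan a) {i : D.ι} {τ : E N → ℝ} (hτ : Tst (D.W i) τ) {h : Y → ℂ}
    (hh : D.Cc h) (B : ℝ) {γ : ℝ} (hγ : 0 < γ) : ∃ γ' : ℝ, 0 < γ' ∧ ∀ w₀, D.S w₀ →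
      ∃ ε : ℝ, 0 < ε ∧ ∀ w e, D.S w → 0 ≤ e → e ≤ ε →
        (D.En (fun x => w x - w₀ x) fun x => w x - w₀ x).re ≤ γ' → (D.En w w).re ≤ B →
          D.Near h w e → ∃ v, D.S v ∧
            ∫ x, D.ext i τ x * D.hs (fun j z => a j z + lcG D.toMan v j z) x ∂D.ν ≤
              ∫ x, D.qH a (D.ext i τ) w h x ∂D.ν + γ ∧
            ∫ x, (D.Gam D.K (fun y => (D.ext i τ y : ℝ)) (fun y => (D.ext i τ y : ℝ)) x).re *
              (D.Gam D.K (fun y => v y - w y) (fun y => v y - w y) x).re ∂D.ν ≤ γ := by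
  have hW := D.isOpen i
  have hS := Man.ext_S (D := D.toMan) hτ
  obtain ⟨A, hA, h3⟩ := lig_err hτ
  obtain ⟨A₀, hA₀, h₀⟩ := Dat.db_le_En (D := D.toDat) hτ.cpt hτ.sub
  obtain ⟨C, hC, hs, γ', hγ', H⟩ := li hW (D.kah i) (D.Ψ_smooth i) (D.det i) (ha.clo i) hτ
    (hh.1 i) (A₀ * B) (lt_min hγ (div_pos hγ hA))
  obtain ⟨A₁, hA₁, h₁⟩ := Dat.db_le_En (D := D.toDat) hC hs
  obtain ⟨A₂, hA₂, h₂⟩ := Dat.En_ext_le (D := D.toDat) hC hs
  refine ⟨γ' / A₁, by positivity, fun w₀ hw₀ => ?_⟩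
  obtain ⟨ε, hε, H⟩ := H _ (hw₀.1 i)
  refine ⟨ε / A₂, by positivity, fun w e hw he heε hd hB hn => ?_⟩
  obtain ⟨v, hv, b1, b2⟩ := H _ (hw.1 i) (by
      refine le_trans (le_of_eq ?_) ((h₁ _ (hw.sub hw₀)).trans ((le_div_iff₀' hA₁).1 hd))
      refine setIntegral_congr_fun hC.measurableSet fun z hz => ?_
      rw [db_sub (diffAt hW (hw.1 i) (hs hz)) (diffAt hW (hw₀.1 i) (hs hz))])
    ((h₀ w hw).trans (mul_le_mul_of_nonneg_left hB hA₀.le))
    (Dat.ablcg_weak hh hw he ((le_div_iff₀ hA₂).1 heε) hn h₂)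
  have hV := Man.ext_S (D := D.toMan) hv
  refine ⟨_, hV, ?_, (h3 _ (hV.sub hw)).trans ?_⟩
  · rw [D.den.int_supp (D.Ψ_cont i) (i := i) fun x hx => by rw [Man.ext_out hx, zero_mul],
      D.den.int_supp (D.Ψ_cont i) (i := i) fun x hx => qH_zero
        (Dat.ablcg_out hτ.cpt hτ.sub subset_rfl fun h' => hx (image_mono hτ.sub h')) hS.1]
    refine le_of_eq_of_le ?_ (b2.trans (add_le_add (le_of_eq ?_) (min_le_left _ _))) <;>
      refine setIntegral_congr_fun hW.measurableSet fun z hz => ?_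
    · rw [hs_chart (cpt_add ha.cpt (lcG_cpt hV.1)) hz, Man.ext_apply hz, lcG,
        (lc_congr (Dat.ablcg_ev v hz)).self_of_nhds, smul_eq_mul]
    · have he := Dat.ablcg_ev (D := D.toDat) τ hz
      have he' : (fun y => ((D.ext i τ (D.p i y) : ℝ) : ℂ)) =ᶠ[𝓝 z] fun y => (τ y : ℂ) :=
        he.mono fun y hy => congrArg _ hy
      rw [qH_chart ha.cpt hS.1 hw.1 h hz, smul_eq_mul, qh, qh, (dr_congr he).self_of_nhds,
        (lev_congr he).self_of_nhds, (grad_congr _ he').self_of_nhds, Man.ext_apply hz]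
  · rw [← le_div_iff₀' hA]
    refine le_of_eq_of_le ?_ (b1.trans (min_le_right _ _))
    refine setIntegral_congr_fun hτ.cpt.measurableSet fun z hz => ?_
    rw [db_sub (diffAt hW (hV.1 i) (hτ.sub hz)) (diffAt hW (hw.1 i) (hτ.sub hz)),
      (db_congr (Dat.ablcg_ev v (hτ.sub hz))).self_of_nhds]

end KD

end Pool.Agent.HX
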