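import Pool.Agent.P.MP_63735c_ag.HXLI
import Pool.Agent.P.MP_63735c_ag.HXLc
import Pool.Agent.P.MP_63735c_ag.ABGam

/-! Traces of global forms in charts. -/

open scoped ComplexOrder ContDiff Matrix Topology ENNReal
open Set Metric MeasureTheory Filter

namespace Pool.Agent.HX

open Pool.Agent.SPF Pool.Agent.AB

variable {N : ℕ}

theorem gl_inv {K J : Mat N} (hK : (Jᵀ * K * J.map star).PosDef) : ∃ P Q : Mat N, P * Q = 1 ∧
    ∀ M : Mat N, (Jᵀ * K * J.map star)⁻¹ * (Jᵀ * M * J.map star) = Q * (K⁻¹ * M) * P := by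
  have h1 := (Matrix.isUnit_iff_isUnit_det _).1 hK.isUnit
  rw [Matrix.det_mul, Matrix.det_mul] at h1
  refine ⟨J.map star, (J.map star)⁻¹, Matrix.mul_nonsing_inv _ (isUnit_of_mul_isUnit_right h1),
    fun M => ?_⟩
  rw [Matrix.mul_inv_rev, Matrix.mul_inv_rev]
  simp only [Matrix.mul_assoc]
  rw [Matrix.nonsing_inv_mul_cancel_left _ _
    (isUnit_of_mul_isUnit_left (isUnit_of_mul_isUnit_left h1))]

theorem gl_trK {K J : Mat N} (hK : (Jᵀ * K * J.map star).PosDef) (M : Mat N) :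
    trK (Jᵀ * K * J.map star) (Jᵀ * M * J.map star) = trK K M := by
  obtain ⟨P, Q, h1, h2⟩ := gl_inv hK
  rw [trK, h2, Matrix.trace_mul_comm, ← Matrix.mul_assoc, h1, Matrix.one_mul, trK]

theorem gl_tr2 {K J : Mat N} (hK : (Jᵀ * K * J.map star).PosDef) (M M' : Mat N) :
    tr2 (Jᵀ * K * J.map star) (Jᵀ * M * J.map star) (Jᵀ * M' * J.map star) = tr2 K M M' := by
  obtain ⟨P, Q, h1, h2⟩ := gl_inv hK
  rw [tr2, h2, h2, ← Matrix.mul_assoc, Matrix.trace_mul_comm, tr2]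
  simp only [← Matrix.mul_assoc]
  rw [h1, Matrix.one_mul, Matrix.mul_assoc _ P Q, h1, Matrix.mul_one]

theorem gl_hsK {K J : Mat N} (hK : (Jᵀ * K * J.map star).PosDef) (M : Mat N) :
    hsK (Jᵀ * K * J.map star) (Jᵀ * M * J.map star) = hsK K M := by
  have h : (Jᵀ * M * J.map star)ᴴ = Jᵀ * Mᴴ * J.map star := by
    rw [Matrix.conjTranspose_mul, Matrix.conjTranspose_mul, ← Matrix.mul_assoc]
    congr 2
    ext a b
    simp
  rw [hsK, h, gl_tr2 hK, hsK]

variable {Y : Type} [TopologicalSpace Y]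

theorem gl_chart {D : Man Y N} {G : Type} [Zero G] {f : D.ι → E N → G}
    (hf : ∀ i j, ∀ z ∈ D.W i, ∀ φ, D.Ch i j z φ → f i z = f j (φ z)) {i : D.ι} {z : E N}
    (hz : z ∈ D.W i) : glob D f (D.p i z) = f i z := by
  have hx : ∃ q : D.ι × E N, q.2 ∈ D.W q.1 ∧ D.p q.1 q.2 = D.p i z := ⟨(i, z), hz, rfl⟩
  obtain ⟨φ, h1, h2⟩ := D.trans i _ z hz _ hx.choose_spec.1 hx.choose_spec.2.symm
  rw [glob, dif_pos hx, hf i _ z hz φ h2, h1]

theorem lcG_cpt {D : Man Y N} {w : Y → ℂ} (hw : D.Smo w) : D.Cpt (lcG D w) := by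
  intro i j z hz φ hφ
  have h0 := hφ.self_of_nhds
  have e : (fun y => w (D.p i y)) =ᶠ[𝓝 z] fun y => w (D.p j (φ y)) :=
    hφ.mono fun y hy => congrArg w hy.2.2.symm
  rw [lcG, (lc_congr e).eq_of_nhds]
  exact lc_comp (w := fun y => w (D.p j y)) ((hw j).contDiffAt ((D.isOpen j).mem_nhds h0.2.1))
    (hφ.mono fun y hy => hy.1)

theorem cpt_add {D : Man Y N} {a b : D.ι → E N → Mat N} (ha : D.Cpt a) (hb : D.Cpt b) :
    D.Cpt fun i z => a i z + b i z := fun i j z hz φ hφ => by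
  rw [Matrix.mul_add, Matrix.add_mul, ← ha i j z hz φ hφ, ← hb i j z hz φ hφ]

variable [MeasurableSpace Y]

namespace KD

variable {D : KD Y N} {a : D.ι → E N → Mat N} {i : D.ι} {z : E N}

theorem tr_chart (ha : D.Cpt a) (hz : z ∈ D.W i) : D.tr a (D.p i z) = trK (D.K i z) (a i z) :=
  gl_chart (f := fun i z => trK (D.K i z) (a i z)) (fun i j z hz φ hφ => by
    have h := (D.kah i).pos z hz
    rw [D.K_cpt i j z hz φ hφ] at h ⊢
    rw [ha i j z hz φ hφ, gl_trK h]) hz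

theorem bb_chart (ha : D.Cpt a) (hz : z ∈ D.W i) :
    D.bb a (D.p i z) = (bK (D.K i z) (a i z) (a i z)).re :=
  gl_chart (f := fun i z => (bK (D.K i z) (a i z) (a i z)).re) (fun i j z hz φ hφ => by
    have h := (D.kah i).pos z hz
    rw [D.K_cpt i j z hz φ hφ] at h ⊢
    rw [ha i j z hz φ hφ, bK, gl_trK h, gl_tr2 h, bK]) hz

theorem hs_chart (ha : D.Cpt a) (hz : z ∈ D.W i) : D.hs a (D.p i z) = hsK (D.K i z) (a i z) :=
  gl_chart (f := fun i z => hsK (D.K i z) (a i z)) (fun i j z hz φ hφ => by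
    have h := (D.kah i).pos z hz
    rw [D.K_cpt i j z hz φ hφ] at h ⊢
    rw [ha i j z hz φ hφ, gl_hsK h]) hz

theorem tr_contOn (ha : D.Cpt a) (hc : ∀ i b c, ContinuousOn (fun z => a i z b c) (D.W i))
    (i : D.ι) : ContinuousOn (fun z => D.tr a (D.p i z)) (D.W i) :=
  (trK_cont (D.kah i) (hc i)).congr fun _ hz => tr_chart ha hz

theorem bb_contOn (ha : D.Cpt a) (hc : ∀ i b c, ContinuousOn (fun z => a i z b c) (D.W i))
    (i : D.ι) : ContinuousOn (fun z => D.bb a (D.p i z)) (D.W i) :=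
  (bK_cont (D.kah i) (hc i)).congr fun _ hz => bb_chart ha hz

theorem hs_contOn (ha : D.Cpt a) (hc : ∀ i b c, ContinuousOn (fun z => a i z b c) (D.W i))
    (i : D.ι) : ContinuousOn (fun z => D.hs a (D.p i z)) (D.W i) :=
  (hsK_cont (D.kah i) (hc i)).congr fun _ hz => hs_chart ha hz

theorem cont_of {F : Type} [TopologicalSpace F] {f : Y → F}
    (h : ∀ i, ContinuousOn (fun z => f (D.p i z)) (D.W i)) : Continuous f := by
  have := Man.contOn h
  rwa [D.cover, continuousOn_univ] at this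

theorem qH_chart (ha : D.Cpt a) {θ : Y → ℝ} (hθ : D.Smo θ) {w : Y → ℂ} (hw : D.Smo w)
    (h : Y → ℂ) (hz : z ∈ D.W i) : D.qH a θ w h (D.p i z) =
      qh (D.K i) (a i) (fun y => θ (D.p i y)) (grad (D.K i) fun y => w (D.p i y))
        (fun y => h (D.p i y)) z := by
  have hθ' : D.Smo fun y => (θ y : ℂ) := fun i => ofReal_smooth (hθ i)
  rw [qH, qh, tr_chart ha hz, bb_chart ha hz, tr_chart (Man.levG_cpt hθ) hz,
    Dat.GamK_chart hw hθ' hz, Dat.Gam_chart ha hw hθ' hz, Dat.Gam_chart D.K_cpt hw hw hz,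
    Dat.Gam_chart (Man.levG_cpt hθ) hw hw hz, star_db fun y => θ (D.p i y)]
  rfl

end KD

end Pool.Agent.HX
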