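import Pool.Agent.P.MP_63735c_ag.HXBB
import Pool.Agent.P.MP_63735c_ag.ABLC3

/-! The local index inequality for approximate solutions. -/

open scoped ComplexOrder ContDiff Matrix Topology ENNReal
open Set Metric MeasureTheory Filter

namespace Pool.Agent.HX

open Pool.Agent.SPF Pool.Agent.AB

variable {N : ℕ} {W : Set (E N)} {Ψ τ : E N → ℝ} {K a : E N → Mat N} {h : E N → ℂ}

/-- The linear part of `qh`. -/
noncomputable def liL (K a : E N → Mat N) (τ : E N → ℝ) (z : E N) : E N :=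
  trK (K z) (a z) • dr τ z - a z *ᵥ star (grad K (fun y => (τ y : ℂ)) z)

/-- The quadratic part of `qh`. -/
noncomputable def liQ (K : E N → Mat N) (τ : E N → ℝ) (z : E N) : Mat N :=
  trK (K z) (lev τ z) • K z - lev τ z

theorem qh_eq (V : E N → E N) (H : E N → ℂ) (z : E N) : qh K a τ V H z =
    τ z * ‖trK (K z) (a z) + H z‖ ^ 2 - τ z * (bK (K z) (a z) (a z)).re +
      2 * (V z ⬝ᵥ liL K a τ z).re + (hq (liQ K τ z) (V z) (V z)).re := by
  rw [qh, liL, liQ, dotProduct_sub, dotProduct_smul, ← hq_smul]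
  simp only [hq, Matrix.sub_mulVec, dotProduct_sub, smul_eq_mul]

theorem li_mul {A B : E N → Mat N} (hA : ∀ b c, ContinuousOn (fun z => A z b c) W)
    (hB : ∀ b c, ContinuousOn (fun z => B z b c) W) (b c : Fin N) :
    ContinuousOn (fun z => (A z * B z) b c) W := by
  simp only [Matrix.mul_apply]
  exact continuousOn_finsetSum _ fun k _ => (hA b k).mul (hB k c)

theorem li_tr {A : E N → Mat N} (hA : ∀ b c, ContinuousOn (fun z => A z b c) W) :
    ContinuousOn (fun z => (A z).trace) W := continuousOn_finsetSum _ fun k _ => hA k k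

theorem trK_cont (hK : Kah W K) (ha : ∀ b c, ContinuousOn (fun z => a z b c) W) :
    ContinuousOn (fun z => trK (K z) (a z)) W :=
  li_tr (li_mul (fun b c => (hK.inv_smooth b c).continuousOn) ha)

theorem tr2_cont (hK : Kah W K) {a' : E N → Mat N} (ha : ∀ b c, ContinuousOn (fun z => a z b c) W)
    (ha' : ∀ b c, ContinuousOn (fun z => a' z b c) W) :
    ContinuousOn (fun z => tr2 (K z) (a z) (a' z)) W :=
  li_tr (li_mul (li_mul (fun b c => (hK.inv_smooth b c).continuousOn) ha)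
    (li_mul (fun b c => (hK.inv_smooth b c).continuousOn) ha'))

theorem bK_cont (hK : Kah W K) (ha : ∀ b c, ContinuousOn (fun z => a z b c) W) :
    ContinuousOn (fun z => (bK (K z) (a z) (a z)).re) W :=
  Complex.continuous_re.comp_continuousOn
    (((trK_cont hK ha).mul (trK_cont hK ha)).sub (tr2_cont hK ha ha))

theorem hsK_cont (hK : Kah W K) (ha : ∀ b c, ContinuousOn (fun z => a z b c) W) :
    ContinuousOn (fun z => hsK (K z) (a z)) W :=
  Complex.continuous_re.comp_continuousOn (tr2_cont hK ha fun b c => (ha c b).star)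

theorem liL_cont (hW : IsOpen W) (hK : Kah W K) (ha : Clo W a) (hτ : ContDiffOn ℝ ∞ τ W) :
    ContinuousOn (liL K a τ) W := by
  have h1 := fun b c => (ha.smooth b c).continuousOn
  refine ((trK_cont hK h1).smul (dr_smooth hW hτ).continuousOn).sub
    (continuousOn_pi.2 fun b => ?_)
  simp only [Matrix.mulVec, dotProduct]
  exact continuousOn_finsetSum _ fun c _ => (h1 b c).mul ((continuous_apply c).comp_continuousOn
    (grad_smooth hW hK (ofReal_smooth hτ)).continuousOn).star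

theorem liQ_cont (hW : IsOpen W) (hK : Kah W K) (hτ : ContDiffOn ℝ ∞ τ W) (b c : Fin N) :
    ContinuousOn (fun z => liQ K τ z b c) W :=
  ((trK_cont hK fun b c => (lev_smooth hW hτ b c).continuousOn).mul
    (hK.smooth b c).continuousOn).sub (lev_smooth hW hτ b c).continuousOn

theorem qh_zero {V : E N → E N} {H : E N → ℂ} {z : E N} (hz : z ∉ tsupport τ) :
    qh K a τ V H z = 0 := by
  have e : τ =ᶠ[𝓝 z] fun _ => 0 := notMem_tsupport_iff_eventuallyEq.1 hz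
  have e' : (fun y => (τ y : ℂ)) =ᶠ[𝓝 z] fun _ => 0 := e.mono fun y hy => by simp [hy]
  rw [qh, e.self_of_nhds, (dr_congr e).self_of_nhds, dr_const, (lev_congr e).self_of_nhds,
    lev_const, grad, (db_congr e').self_of_nhds, db_const]
  simp [hq, trK]

theorem qh_cont (hW : IsOpen W) (hΨ : ContDiffOn ℝ ∞ Ψ W) (hK : Kah W K) (ha : Clo W a)
    (hτ : ContDiffOn ℝ ∞ τ W) {V : E N → E N} (hV : ContinuousOn V W) (hh : ContinuousOn h W) :
    ContinuousOn (fun z => wt Ψ z * qh K a τ V h z) W := by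
  have h1 := fun b c => (ha.smooth b c).continuousOn
  have c1 := hτ.continuousOn
  have c5 : ContinuousOn (fun z => V z ⬝ᵥ liL K a τ z) W :=
    continuousOn_finsetSum _ fun b _ => ((continuous_apply b).comp_continuousOn hV).mul
      ((continuous_apply b).comp_continuousOn (liL_cont hW hK ha hτ))
  simp only [qh_eq]
  exact (wt_smooth hΨ).continuousOn.mul ((((c1.mul (((trK_cont hK h1).add hh).norm.pow 2)).sub
    (c1.mul (bK_cont hK h1))).add (continuousOn_const.mul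
      (Complex.continuous_re.comp_continuousOn c5))).add
    (Complex.continuous_re.comp_continuousOn (hq_contOn (liQ_cont hW hK hτ) hV hV)))

theorem qh_lip (hW : IsOpen W) (hΨ : ContDiffOn ℝ ∞ Ψ W) (hK : Kah W K) (ha : Clo W a)
    (hτ : Tst W τ) : ∃ A : ℝ, 0 < A ∧ ∀ z ∈ tsupport τ, ∀ (V V' : E N → E N) (H H' : E N → ℂ)
      (t : ℝ), 0 < t → wt Ψ z * qh K a τ V' H' z - wt Ψ z * qh K a τ V H z ≤
        A * ((1 + t⁻¹) * (‖V' z - V z‖ ^ 2 + ‖H' z - H z‖ ^ 2) +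
          t * (‖V z‖ ^ 2 + (‖trK (K z) (a z) + H z‖ ^ 2 + 1))) := by
  have hC : IsCompact (tsupport τ) := hτ.cpt
  have hτW : ContDiffOn ℝ ∞ τ W := hτ.smooth.contDiffOn
  obtain ⟨B, hB, h₁⟩ := cpt_upper (h := liQ K τ) hC fun b c => (liQ_cont hW hK hτW b c).mono hτ.sub
  obtain ⟨T, hT⟩ := hC.exists_bound_of_continuousOn (hτW.continuousOn.mono hτ.sub)
  obtain ⟨D, hD⟩ := hC.exists_bound_of_continuousOn ((liL_cont hW hK ha hτW).mono hτ.sub)
  obtain ⟨M, hM⟩ := hC.exists_bound_of_continuousOn ((wt_smooth hΨ).continuousOn.mono hτ.sub)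
  refine ⟨|M| * (|T| + B + N * |D|) + 1, by positivity, fun z hz V V' H H' t ht => ?_⟩
  have q1 := ablc3_quad (fun u v => (h₁ z hz u v).1) (V z) (V' z)
  have q2 := ablc3_sq (trK (K z) (a z) + H z) (trK (K z) (a z) + H' z)
  have q3 : (V' z ⬝ᵥ liL K a τ z).re - (V z ⬝ᵥ liL K a τ z).re ≤ N * |D| * ‖V' z - V z‖ := by
    rw [← Complex.sub_re, ← sub_dotProduct, mul_right_comm]
    exact (Complex.re_le_norm _).trans ((dot_norm_le _ _).trans
      (mul_le_mul_of_nonneg_left ((hD z hz).trans (le_abs_self D)) (by positivity)))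
  rw [add_sub_add_left_eq_sub] at q2
  have hTz : |τ z| ≤ |T| := (hT z hz).trans (le_abs_self T)
  have hMz : wt Ψ z ≤ |M| := ((le_abs_self _).trans (hM z hz)).trans (le_abs_self M)
  rw [qh_eq, qh_eq, ← mul_sub]
  generalize ‖V' z - V z‖ = p at *
  generalize ‖H' z - H z‖ = b at *
  generalize ‖V z‖ = x at *
  generalize ‖trK (K z) (a z) + H z‖ = y at *
  generalize ‖trK (K z) (a z) + H' z‖ = y' at *
  have e1 := ablc3_amgm p x ht
  have e2 := ablc3_amgm b y ht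
  have e3 := ablc3_amgm p 1 ht
  have p1 : 0 ≤ t⁻¹ * p ^ 2 := by positivity
  have p2 : 0 ≤ t⁻¹ * b ^ 2 := by positivity
  have p3 : 0 ≤ t * x ^ 2 := by positivity
  have p4 : 0 ≤ t * y ^ 2 := by positivity
  have p5 := sq_nonneg p
  have p6 := sq_nonneg b
  obtain ⟨S, hS⟩ : ∃ S, S = (1 + t⁻¹) * (p ^ 2 + b ^ 2) + t * (x ^ 2 + (y ^ 2 + 1)) := ⟨_, rfl⟩
  rw [← hS]
  have hS' : S = p ^ 2 + b ^ 2 + t⁻¹ * p ^ 2 + t⁻¹ * b ^ 2 + t * x ^ 2 + t * y ^ 2 + t := by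
    rw [hS]; ring
  have hS0 : 0 ≤ S := by linarith
  have r1 := ((le_abs_self _).trans q1).trans
    (mul_le_mul_of_nonneg_left (show p ^ 2 + 2 * (p * x) ≤ S by linarith) hB.le)
  have r2 : τ z * (y' ^ 2 - y ^ 2) ≤ |T| * S := by
    refine (le_abs_self _).trans ?_
    rw [abs_mul]
    exact mul_le_mul hTz (q2.trans (by linarith)) (abs_nonneg _) (abs_nonneg _)
  have r3 : N * |D| * (2 * p) ≤ N * |D| * S :=
    mul_le_mul_of_nonneg_left (by linarith) (by positivity)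
  calc _ ≤ wt Ψ z * ((|T| + B + N * |D|) * S) :=
        mul_le_mul_of_nonneg_left (by linarith) (wt_pos _ _).le
    _ ≤ |M| * ((|T| + B + N * |D|) * S) := mul_le_mul_of_nonneg_right hMz (by positivity)
    _ ≤ _ := by nlinarith

theorem approx_tst {C₀ : Set (E N)} (hW : IsOpen W) (hΨ : ContDiffOn ℝ ∞ Ψ W) (hK : Kah W K)
    (hC : IsCompact C₀) (hs : C₀ ⊆ W) (hh : ContinuousOn h W) {γ : ℝ} (hγ : 0 < γ) :
    ∃ C, IsCompact C ∧ C ⊆ W ∧ ∃ γ' : ℝ, 0 < γ' ∧ ∀ w₀, ContDiffOn ℝ ∞ w₀ W →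
      ∃ ε : ℝ, 0 < ε ∧ ∀ w, ContDiffOn ℝ ∞ w W → ∫ z in C, ‖db w z - db w₀ z‖ ^ 2 ≤ γ' →
        Weak W C Ψ K h w ε → ∃ w', Tst W w' ∧ ∫ z in C₀, ‖db w' z - db w z‖ ^ 2 ≤ γ ∧
          ∫ z in C₀, ‖dlt Ψ (grad K w') z - h z‖ ^ 2 ≤ γ := by
  obtain ⟨C, h1, -, h2, γ', h3, H⟩ := approx hW hΨ hK hC hs hh hγ
  obtain ⟨χ, d, hχ, -, hd, h4⟩ := exists_bump hW hC hs
  refine ⟨C, h1, h2, γ', h3, fun w₀ hw₀ => (H w₀ hw₀).imp fun ε hε => ⟨hε.1, fun w hw a1 a2 => ?_⟩⟩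
  obtain ⟨w', hw', b1, b2⟩ := hε.2 w hw a1 a2
  have e : ∀ z ∈ C₀, (fun y => (χ y : ℂ) * w' y) =ᶠ[𝓝 z] w' := fun z hz => by
    filter_upwards [ball_mem_nhds z hd] with y hy
    rw [h4 z hz y hy, Complex.ofReal_one, one_mul]
  refine ⟨_, ((ablc1_cx hχ).mul_on hW hw').1, le_of_eq_of_le ?_ b1, le_of_eq_of_le ?_ b2⟩
  · exact setIntegral_congr_fun hC.measurableSet fun z hz => by
      rw [(db_congr (e z hz)).self_of_nhds]
  · refine setIntegral_congr_fun hC.measurableSet fun z hz => ?_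
    have e1 := grad_congr K (e z hz)
    have e2 : ∀ b, dz b (fun y => grad K (fun y => (χ y : ℂ) * w' y) y b) z =
        dz b (fun y => grad K w' y b) z := fun b =>
      (dz_congr (e1.mono fun y hy => congrFun hy b) b).self_of_nhds
    simp only [dlt, e2, e1.self_of_nhds]

theorem li (hW : IsOpen W) (hK : Kah W K) (hΨ : ContDiffOn ℝ ∞ Ψ W)
    (hd : ∀ z ∈ W, (wt Ψ z : ℂ) = (K z).det) (ha : Clo W a) (hτ : Tst W τ)
    (hh : ContinuousOn h W) (B : ℝ) {γ : ℝ} (hγ : 0 < γ) :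
    ∃ C, IsCompact C ∧ C ⊆ W ∧ ∃ γ' : ℝ, 0 < γ' ∧ ∀ w₀, ContDiffOn ℝ ∞ w₀ W →
      ∃ ε : ℝ, 0 < ε ∧ ∀ w, ContDiffOn ℝ ∞ w W → ∫ z in C, ‖db w z - db w₀ z‖ ^ 2 ≤ γ' →
        ∫ z in tsupport τ, ‖db w z‖ ^ 2 ≤ B → Weak W C Ψ K h w ε → ∃ w', Tst W w' ∧
          ∫ z in tsupport τ, ‖db w' z - db w z‖ ^ 2 ≤ γ ∧
          ∫ z in W, wt Ψ z * (τ z * hsK (K z) (a z + lc w' z)) ≤
            (∫ z in W, wt Ψ z * qh K a τ (grad K w) h z) + γ := by
  have hC : IsCompact (tsupport τ) := hτ.cpt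
  have hm : MeasurableSet (tsupport τ) := hC.measurableSet
  have hτW : ContDiffOn ℝ ∞ τ W := hτ.smooth.contDiffOn
  obtain ⟨A, hA, hlip⟩ := qh_lip hW hΨ hK ha hτ
  obtain ⟨c, D, -, hD, hdual⟩ := cpt_dual (h := K) hC
    (fun a b => (hK.smooth a b).continuousOn.mono hτ.sub) fun z hz => hK.pos z (hτ.sub hz)
  obtain ⟨Hm, hHm⟩ : ∃ Hm, Hm = ∫ z in tsupport τ, (‖trK (K z) (a z) + h z‖ ^ 2 + 1) := ⟨_, rfl⟩
  have hHm0 : 0 ≤ Hm := hHm ▸ integral_nonneg fun z => by positivity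
  obtain ⟨t, ht, ht'⟩ : ∃ t : ℝ, 0 < t ∧ A * (t * (D ^ 2 * |B| + Hm + 1)) = γ / 2 :=
    ⟨γ / (2 * (A * (D ^ 2 * |B| + Hm + 1))), by positivity, by field_simp⟩
  obtain ⟨g, hg, hg'⟩ : ∃ g : ℝ, 0 < g ∧ A * ((1 + t⁻¹) * (D ^ 2 * g + g)) = γ / 2 :=
    ⟨γ / (2 * (A * ((1 + t⁻¹) * (D ^ 2 + 1)))), by positivity, by field_simp⟩
  obtain ⟨C, hCc, hCW, γ', hγ', hap⟩ := approx_tst hW hΨ hK hC hτ.sub hh (lt_min hg hγ)
  refine ⟨C, hCc, hCW, γ', hγ', fun w₀ hw₀ => ?_⟩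
  obtain ⟨ε, hε, hap'⟩ := hap w₀ hw₀
  refine ⟨ε, hε, fun w hw h1 h2 h3 => ?_⟩
  obtain ⟨w', hw'', a1, a2⟩ := hap' w hw h1 h3
  have hw' : ContDiffOn ℝ ∞ w' W := hw''.smooth.contDiffOn
  refine ⟨w', hw'', a1.trans (min_le_right _ _), ?_⟩
  replace a1 := a1.trans (min_le_left _ _)
  replace a2 := a2.trans (min_le_left _ _)
  have g1 := grad_smooth hW hK hw
  have g2 := grad_smooth hW hK hw'
  have g3 := (dlt_smooth hW hΨ g2).continuousOn
  have d1 := (db_smooth hW hw).continuousOn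
  have d2 := (db_smooth hW hw').continuousOn
  have io : ∀ {f : E N → ℝ}, ContinuousOn f W → IntegrableOn f (tsupport τ) volume :=
    fun hf => (hf.mono hτ.sub).integrableOn_compact hC
  have i1 := io (qh_cont hW hΨ hK ha hτW g1.continuousOn hh)
  have i2 := io (qh_cont hW hΨ hK ha hτW g2.continuousOn g3)
  have j1 : IntegrableOn (fun z => D ^ 2 * ‖db w' z - db w z‖ ^ 2) (tsupport τ) volume :=
    (io ((d2.sub d1).norm.pow 2)).const_mul _
  have j2 : IntegrableOn (fun z => ‖dlt Ψ (grad K w') z - h z‖ ^ 2) (tsupport τ) volume :=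
    io ((g3.sub hh).norm.pow 2)
  have j3 : IntegrableOn (fun z => D ^ 2 * ‖db w z‖ ^ 2) (tsupport τ) volume :=
    (io (d1.norm.pow 2)).const_mul _
  have j4 : IntegrableOn (fun z => ‖trK (K z) (a z) + h z‖ ^ 2 + 1) (tsupport τ) volume :=
    io ((((trK_cont hK fun b c => (ha.smooth b c).continuousOn).add hh).norm.pow 2).add
      continuousOn_const)
  have j5 : IntegrableOn (fun z => (1 + t⁻¹) * (D ^ 2 * ‖db w' z - db w z‖ ^ 2 +
      ‖dlt Ψ (grad K w') z - h z‖ ^ 2)) (tsupport τ) volume := (j1.add j2).const_mul _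
  have j6 : IntegrableOn (fun z => t * (D ^ 2 * ‖db w z‖ ^ 2 + (‖trK (K z) (a z) + h z‖ ^ 2 + 1)))
      (tsupport τ) volume := (j3.add j4).const_mul _
  rw [bb_id hW hK hΨ hd hw' ha hτ, int_eq_cpt hW hC hτ.sub fun z _ hz => by
    rw [qh_zero hz, mul_zero], int_eq_cpt hW hC hτ.sub fun z _ hz => by rw [qh_zero hz, mul_zero]]
  have b1 : ∫ z in tsupport τ, ‖db w z‖ ^ 2 ≤ |B| := h2.trans (le_abs_self B)
  have key := setIntegral_mono_on (i2.sub i1) ((j5.add j6).const_mul A) hm fun z hz => by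
    refine (hlip z hz (grad K w) (grad K w') h (dlt Ψ (grad K w')) t ht).trans ?_
    have u1 : ‖grad K w' z - grad K w z‖ ≤ D * ‖db w' z - db w z‖ := by
      unfold grad
      rw [← Matrix.sub_vecMul]
      exact (hdual z hz _).2.2
    have v1 := (pow_le_pow_left₀ (norm_nonneg _) u1 2).trans_eq (mul_pow _ _ _)
    have v2 : ‖grad K w z‖ ^ 2 ≤ D ^ 2 * ‖db w z‖ ^ 2 :=
      (pow_le_pow_left₀ (norm_nonneg _) (hdual z hz _).2.2 2).trans_eq (mul_pow _ _ _)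
    simp only [Pi.add_apply]
    gcongr
  simp only [Pi.add_apply, Pi.sub_apply] at key
  rw [integral_sub i2 i1, integral_const_mul, integral_add j5 j6, integral_const_mul,
    integral_const_mul, integral_add j1 j2, integral_add j3 j4, integral_const_mul,
    integral_const_mul, ← hHm] at key
  have fin : A * ((1 + t⁻¹) * ((D ^ 2 * ∫ z in tsupport τ, ‖db w' z - db w z‖ ^ 2) +
      ∫ z in tsupport τ, ‖dlt Ψ (grad K w') z - h z‖ ^ 2) +
      t * ((D ^ 2 * ∫ z in tsupport τ, ‖db w z‖ ^ 2) + Hm)) ≤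
      A * ((1 + t⁻¹) * (D ^ 2 * g + g) + t * (D ^ 2 * |B| + Hm + 1)) := by
    have : (D ^ 2 * ∫ z in tsupport τ, ‖db w z‖ ^ 2) + Hm ≤ D ^ 2 * |B| + Hm + 1 := by
      have := mul_le_mul_of_nonneg_left b1 (sq_nonneg D)
      linarith
    gcongr
  have fin2 := key.trans fin
  rw [mul_add A ((1 + t⁻¹) * (D ^ 2 * g + g)), hg', ht'] at fin2
  linarith

end Pool.Agent.HX
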