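import Pool.Agent.P.MP_63735c_ag.ABAlg

/-! Determinants of pencils of hermitian matrices and the rank. -/

open scoped ComplexOrder Matrix MatrixOrder

namespace Pool.Agent.AB

open Pool.Agent.SPF

variable {N : ℕ} {K h : Mat N}

/-- Simultaneous diagonalisation. -/
theorem rk_diag (hK : K.PosDef) (hh : h.IsHermitian) : ∃ (P : Mat N) (l : Fin N → ℝ),
    IsUnit P.det ∧ K = Pᴴ * P ∧ h = Pᴴ * Matrix.diagonal (fun a => (l a : ℂ)) * P := by
  obtain ⟨B, hB⟩ := CStarAlgebra.nonneg_iff_eq_star_mul_self.1 hK.posSemidef.nonneg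
  rw [Matrix.star_eq_conjTranspose] at hB
  have hu : IsUnit B.det := by
    have := hK.det_pos.ne'
    rw [hB, Matrix.det_mul] at this
    exact (right_ne_zero_of_mul this).isUnit
  have hu' : IsUnit Bᴴ.det := by rw [Matrix.det_conjTranspose]; exact hu.star
  have h1 : (B⁻¹ᴴ * h * B⁻¹).IsHermitian := Matrix.isHermitian_conjTranspose_mul_mul _ hh
  obtain ⟨U, l, h3, h2⟩ : ∃ (U : Mat N) (l : Fin N → ℝ), U * star U = 1 ∧
      B⁻¹ᴴ * h * B⁻¹ = U * Matrix.diagonal (fun a => (l a : ℂ)) * star U := by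
    have h2 := h1.spectral_theorem
    rw [Unitary.conjStarAlgAut_apply] at h2
    exact ⟨h1.eigenvectorUnitary, h1.eigenvalues, h1.eigenvectorUnitary.2.2, h2⟩
  refine ⟨star U * B, l, ?_, ?_, ?_⟩
  · rw [Matrix.det_mul]
    exact (Matrix.isUnit_det_of_left_inverse h3).mul hu
  · rw [Matrix.conjTranspose_mul, ← Matrix.star_eq_conjTranspose (star _), star_star, mul_assoc,
      ← mul_assoc U, h3, one_mul, hB]
  · have h4 : h = Bᴴ * (B⁻¹ᴴ * h * B⁻¹) * B := by
      rw [Matrix.conjTranspose_nonsing_inv, ← mul_assoc, ← mul_assoc, Matrix.mul_nonsing_inv _ hu',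
        one_mul, mul_assoc, Matrix.nonsing_inv_mul _ hu, mul_one]
    rw [Matrix.conjTranspose_mul, ← Matrix.star_eq_conjTranspose (star _), star_star]
    rw [h2] at h4
    refine h4.trans ?_
    simp only [mul_assoc]

/-- The determinant of the pencil as a product. -/
theorem rk_prod (hK : K.PosDef) (hh : h.PosSemidef) : ∃ l : Fin N → ℝ,
      (∀ a, 0 ≤ l a) ∧ h.rank = Fintype.card {a // l a ≠ 0} ∧ ((∀ a, l a = 0) → h = 0) ∧
      ∀ t : ℝ, ((h + (t : ℂ) • K).det).re = K.det.re * ∏ a, (l a + t) := by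
  obtain ⟨P, l, hu, h1, h2⟩ := rk_diag hK hh.1
  have hu' : IsUnit Pᴴ.det := by rw [Matrix.det_conjTranspose]; exact hu.star
  have key : ∀ (a : Fin N) (d : Fin N → ℂ),
      hq (Pᴴ * Matrix.diagonal d * P) (star (P⁻¹ *ᵥ Pi.single a 1)) (star (P⁻¹ *ᵥ Pi.single a 1)) =
        d a := fun a d => by
    rw [hq, star_star, ← Matrix.mulVec_mulVec, Matrix.mulVec_mulVec _ P, Matrix.mul_nonsing_inv _ hu,
      Matrix.one_mulVec, ← Matrix.mulVec_mulVec, Matrix.dotProduct_mulVec, ← Matrix.star_mulVec,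
      Matrix.mulVec_mulVec, Matrix.mul_nonsing_inv _ hu, Matrix.one_mulVec]
    simp [dotProduct, Pi.single_apply, Matrix.mulVec_diagonal]
  refine ⟨l, fun a => ?_, ?_, fun h0 => ?_, fun t => ?_⟩
  · have := hq_nonneg hh (star (P⁻¹ *ᵥ Pi.single a 1))
    rwa [h2, key, Complex.ofReal_re] at this
  · rw [h2, Matrix.rank_mul_eq_left_of_isUnit_det _ _ hu,
      Matrix.rank_mul_eq_right_of_isUnit_det _ _ hu', Matrix.rank_diagonal]
    simp
  · simp [h2, h0]
  · have h3 : h + (t : ℂ) • K = Pᴴ * Matrix.diagonal (fun a => ((l a + t : ℝ) : ℂ)) * P := by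
      have e0 : Matrix.diagonal (fun a => ((l a + t : ℝ) : ℂ)) =
          Matrix.diagonal (fun a => (l a : ℂ)) + (t : ℂ) • (1 : Mat N) := by
        ext a b
        by_cases e : a = b <;> simp [e]
      rw [e0, Matrix.mul_add, Matrix.add_mul, Matrix.mul_smul, Matrix.smul_mul, mul_one, ← h2, ← h1]
    rw [h3, h1, Matrix.det_mul, Matrix.det_mul, Matrix.det_mul, Matrix.det_diagonal, mul_right_comm,
      ← Complex.ofReal_prod, Complex.re_mul_ofReal]

/-- Bound for the pencil when the rank is small. -/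
theorem rk_le {n : ℕ} (hN : N = 2 * n) (hK : K.PosDef) (hh : h.PosSemidef) (hr : h.rank < n)
    {t : ℝ} (ht : 0 < t) (ht1 : t ≤ 1) : 0 ≤ ((h + (t : ℂ) • K).det).re ∧
      ((h + (t : ℂ) • K).det).re ≤ t ^ (n + 1) * ((h + ((1 : ℝ) : ℂ) • K).det).re := by
  obtain ⟨l, h1, h2, -, h4⟩ := rk_prod hK hh
  have hd : 0 < K.det.re := (Complex.pos_iff.1 hK.det_pos).1
  have h7 : ∀ a, 0 ≤ l a + t := fun a => add_nonneg (h1 a) ht.le
  rw [h4, h4, mul_left_comm]
  refine ⟨mul_nonneg hd.le (Finset.prod_nonneg fun a _ => h7 a),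
    mul_le_mul_of_nonneg_left ?_ hd.le⟩
  have hS : (Finset.univ.filter fun a => l a = 0).card = N - h.rank := by
    have := Finset.card_filter_add_card_filter_not (s := Finset.univ) fun a => l a = 0
    rw [Finset.card_univ, Fintype.card_fin] at this
    rw [h2, Fintype.card_subtype]
    exact Nat.eq_sub_of_add_eq this
  calc _ ≤ ∏ a, ((if l a = 0 then t else 1) * (l a + 1)) :=
        Finset.prod_le_prod (fun a _ => h7 a) fun a _ => by
          split_ifs with e
          · simp [e]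
          · linarith
    _ = t ^ (N - h.rank) * ∏ a, (l a + 1) := by
        rw [Finset.prod_mul_distrib, Finset.prod_ite, Finset.prod_const_one, mul_one,
          Finset.prod_const, hS]
    _ ≤ _ := mul_le_mul_of_nonneg_right (pow_le_pow_of_le_one ht.le ht1 (by omega))
        (Finset.prod_nonneg fun a _ => by linarith [h1 a])

/-- Comparison of two members of the pencil. -/
theorem rk_two (hK : K.PosDef) (hh : h.PosSemidef) :
    ((h + ((2 : ℝ) : ℂ) • K).det).re ≤ 2 ^ N * ((h + ((1 : ℝ) : ℂ) • K).det).re ∧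
      (2 ^ N * ((h + ((1 : ℝ) : ℂ) • K).det).re ≤ ((h + ((2 : ℝ) : ℂ) • K).det).re → h = 0) := by
  obtain ⟨l, h1, -, h3, h4⟩ := rk_prod hK hh
  have hd : 0 < K.det.re := (Complex.pos_iff.1 hK.det_pos).1
  have h6 : (2 : ℝ) ^ N * ∏ a, (l a + 1) = ∏ a, 2 * (l a + 1) := by
    rw [Finset.prod_mul_distrib, Finset.prod_const, Finset.card_univ, Fintype.card_fin]
  have h7 : ∀ a, l a + 2 ≤ 2 * (l a + 1) := fun a => by linarith [h1 a]
  have h8 : ∀ a, 0 < l a + 2 := fun a => by linarith [h1 a]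
  rw [h4, h4, mul_left_comm, h6]
  refine ⟨mul_le_mul_of_nonneg_left (Finset.prod_le_prod (fun a _ => (h8 a).le) fun a _ => h7 a)
    hd.le, fun h9 => h3 fun a => ?_⟩
  by_contra ha
  have := Finset.prod_lt_prod (s := Finset.univ) (fun a _ => h8 a) (fun a _ => h7 a)
    ⟨a, Finset.mem_univ a, by linarith [lt_of_le_of_ne (h1 a) (Ne.symm ha)]⟩
  exact absurd (le_of_mul_le_mul_left h9 hd) (not_le.2 this)

end Pool.Agent.AB
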