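import Pool.Agent.P.MP_63735c_ag.HXDefs
import Pool.Agent.P.MP_63735c_ag.HXRk1

/-! Simultaneous diagonalisation and expansions of determinants. -/

open scoped ComplexOrder MatrixOrder Matrix Topology
open Set Filter

namespace Pool.Agent.HX

open Pool.Agent.SPF Pool.Agent.AB

variable {N : ℕ} {K K' a : Mat N}

/-- The eigenvalues of `a` with respect to `K`. -/
theorem hn_eig (hK : K.PosDef) (ha : a.IsHermitian) : ∃ μ : Fin N → ℝ,
    (∀ s : ℝ, (K + (s : ℂ) • a).det.re = K.det.re * ∏ i, (1 + s * μ i)) ∧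
    (trK K a).re = ∑ i, μ i ∧ (bK K a a).re = (∑ i, μ i) ^ 2 - ∑ i, μ i ^ 2 ∧
    ∀ i, ∃ u, (hq K u u).re = 1 ∧ (hq a u u).re = μ i := by
  obtain ⟨V, μ, hV, rfl, rfl⟩ := rk_diag hK ha
  have hV' : IsUnit Vᴴ.det := by rw [Matrix.det_conjTranspose]; exact hV.star
  have h1 : (Vᴴ * V)⁻¹ * (Vᴴ * Matrix.diagonal (fun i => (μ i : ℂ)) * V) =
      V⁻¹ * Matrix.diagonal (fun i => (μ i : ℂ)) * V := by
    rw [Matrix.mul_inv_rev, mul_assoc, mul_assoc Vᴴ, Matrix.nonsing_inv_mul_cancel_left _ _ hV',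
      mul_assoc]
  have h2 : trK (Vᴴ * V) (Vᴴ * Matrix.diagonal (fun i => (μ i : ℂ)) * V) = (∑ i, μ i : ℝ) := by
    rw [trK, h1, Matrix.trace_mul_cycle, Matrix.mul_nonsing_inv _ hV, one_mul,
      Matrix.trace_diagonal, Complex.ofReal_sum]
  have h3 : ∀ (D : Mat N) i, hq (Vᴴ * D * V) (star (V⁻¹ *ᵥ Pi.single i 1))
      (star (V⁻¹ *ᵥ Pi.single i 1)) = D i i := fun D i => by
    rw [hq, star_star, Matrix.mulVec_mulVec, mul_assoc, Matrix.mul_nonsing_inv _ hV, mul_one,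
      ← Matrix.mulVec_mulVec, Matrix.dotProduct_mulVec, ← Matrix.star_mulVec,
      Matrix.mulVec_mulVec, Matrix.mul_nonsing_inv _ hV, Matrix.one_mulVec]
    simp [dotProduct, Pi.single_apply]
  refine ⟨μ, fun s => ?_, by rw [h2, Complex.ofReal_re], ?_, fun i =>
    ⟨star (V⁻¹ *ᵥ Pi.single i 1), ?_, ?_⟩⟩
  · have h4 : Vᴴ * V + (s : ℂ) • (Vᴴ * Matrix.diagonal (fun i => (μ i : ℂ)) * V) =
        Vᴴ * Matrix.diagonal (fun i => ((1 + s * μ i : ℝ) : ℂ)) * V := by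
      rw [← smul_mul_assoc, ← add_mul, ← mul_smul_comm, ← mul_one_add]
      congr 2
      ext i j
      by_cases h : i = j <;> simp [h]
    rw [h4, Matrix.det_mul, Matrix.det_mul, Matrix.det_mul, Matrix.det_diagonal, mul_right_comm,
      ← Complex.ofReal_prod, Complex.re_mul_ofReal]
  · rw [bK, h2, tr2, h1]
    simp only [mul_assoc]
    rw [Matrix.mul_nonsing_inv_cancel_left _ _ hV, Matrix.trace_mul_comm, mul_assoc, mul_assoc,
      Matrix.mul_nonsing_inv _ hV, mul_one, Matrix.diagonal_mul_diagonal, Matrix.trace_diagonal]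
    simp [sq]
  · rw [← mul_one Vᴴ, h3]
    simp
  · rw [h3]
    simp

theorem hn_det (hK : K.PosDef) : 0 < K.det.re ∧ (K.det.re : ℂ) = K.det :=
  ⟨(Complex.pos_iff.1 hK.det_pos).1,
    Complex.ext rfl (Complex.pos_iff.1 hK.det_pos).2⟩

theorem hn_smul_det (c : ℝ) (K : Mat N) : ((c : ℂ) • K).det.re = c ^ N * K.det.re := by
  rw [Matrix.det_smul, Fintype.card_fin, ← Complex.ofReal_pow, Complex.re_ofReal_mul]

theorem hn_hq (c : ℝ) (K a : Mat N) (v : E N) :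
    (hq (K + (c : ℂ) • a) v v).re = (hq K v v).re + c * (hq a v v).re := by
  rw [hq_add, hq_smul, Complex.add_re, Complex.re_ofReal_mul]

theorem hn_mono (hK : K.PosDef) (hK' : K'.PosDef) {c : ℝ} (h : Le K K' c) :
    K.det.re ≤ c ^ N * K'.det.re := by
  have h0 : ((c : ℂ) • K' + ((-1 : ℝ) : ℂ) • K).IsHermitian :=
    (hK'.1.smul (Complex.conj_ofReal _)).add (hK.1.smul (Complex.conj_ofReal _))
  obtain ⟨μ, h1, -, -, h2⟩ := hn_eig hK h0
  have h3 := h1 1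
  rw [show K + ((1 : ℝ) : ℂ) • ((c : ℂ) • K' + ((-1 : ℝ) : ℂ) • K) = (c : ℂ) • K' by simp,
    hn_smul_det] at h3
  rw [h3]
  refine le_mul_of_one_le_right (hn_det hK).1.le (Finset.prod_induction _ (fun r : ℝ => 1 ≤ r)
    (fun _ _ => one_le_mul_of_one_le_of_one_le) le_rfl fun i _ => ?_)
  obtain ⟨u, -, e⟩ := h2 i
  rw [hn_hq, hq_smul, Complex.re_ofReal_mul] at e
  linarith [h u]

theorem hn_prod (M : ℝ) (k : ℕ) : ∃ C : ℝ, 0 ≤ C ∧ ∀ μ : Fin k → ℝ, (∀ i, |μ i| ≤ M) →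
    |∑ i, μ i| ≤ C ∧ |(∑ i, μ i) ^ 2 - ∑ i, μ i ^ 2| ≤ C ∧ ∀ s : ℝ, |s| ≤ 1 →
      |∏ i, (1 + s * μ i) - (1 + s * ∑ i, μ i + s ^ 2 / 2 * ((∑ i, μ i) ^ 2 - ∑ i, μ i ^ 2))| ≤
        C * |s| ^ 3 := by
  induction k with
  | zero => exact ⟨0, le_rfl, fun μ _ => by simp⟩
  | succ k ih =>
    obtain ⟨C, hC, H⟩ := ih
    have hM := abs_nonneg M
    have h1 := mul_nonneg hC hM
    refine ⟨C + 2 * (C * |M|) + |M|, by positivity, fun μ h => ?_⟩
    obtain ⟨a1, a2, a3⟩ := H (fun i => μ i.succ) fun i => h _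
    have b0 := (h 0).trans (le_abs_self M)
    simp only [Fin.sum_univ_succ, Fin.prod_univ_succ]
    generalize ∑ i : Fin k, μ i.succ = e at *
    generalize ∑ i : Fin k, μ i.succ ^ 2 = p at *
    generalize μ 0 = m at *
    have b1 : |e * m| ≤ C * |M| := by rw [abs_mul]; gcongr
    refine ⟨(abs_add_le _ _).trans (by linarith), ?_, fun s hs => ?_⟩
    · rw [show (m + e) ^ 2 - (m ^ 2 + p) = e ^ 2 - p + 2 * (e * m) by ring]
      refine (abs_add_le _ _).trans ?_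
      rw [abs_mul, abs_two]
      linarith
    · have b2 := a3 s hs
      generalize ∏ i : Fin k, (1 + s * μ i.succ) = P at *
      obtain ⟨R, hR⟩ : ∃ R, R = P - (1 + s * e + s ^ 2 / 2 * (e ^ 2 - p)) := ⟨_, rfl⟩
      rw [← hR] at b2
      rw [show (1 + s * m) * P - (1 + s * (m + e) + s ^ 2 / 2 * ((m + e) ^ 2 - (m ^ 2 + p))) =
        R + (R * (s * m) + s ^ 3 * ((e ^ 2 - p) * m / 2)) by rw [hR]; ring]
      have s3 : 0 ≤ |s| ^ 3 := by positivity
      have b3 : |R * (s * m)| ≤ C * |s| ^ 3 * (1 * |M|) := by rw [abs_mul, abs_mul]; gcongr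
      have b4 : |s ^ 3 * ((e ^ 2 - p) * m / 2)| ≤ |s| ^ 3 * (C * |M| / 2) := by
        rw [abs_mul, abs_pow, abs_div, abs_mul, abs_two]
        gcongr
      refine (abs_add_le _ _).trans ((add_le_add b2 ((abs_add_le _ _).trans
        (add_le_add b3 b4))).trans ?_)
      nlinarith [mul_nonneg h1 s3, mul_nonneg hM s3]

/-- The expansion of the determinant to second order. -/
theorem hn_exp (N : ℕ) (M : ℝ) : ∃ C : ℝ, 0 ≤ C ∧ ∀ K a : Mat N, K.PosDef → a.IsHermitian →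
    Dom K a M → |(trK K a).re| ≤ C ∧ |(bK K a a).re| ≤ C ∧ ∀ s : ℝ, |s| ≤ 1 →
      |(K + (s : ℂ) • a).det.re - K.det.re * (1 + s * (trK K a).re + s ^ 2 / 2 * (bK K a a).re)| ≤
        K.det.re * (C * |s| ^ 3) := by
  obtain ⟨C, hC, H⟩ := hn_prod M N
  refine ⟨C, hC, fun K a hK ha h => ?_⟩
  obtain ⟨μ, h1, h2, h3, h4⟩ := hn_eig hK ha
  obtain ⟨a1, a2, a3⟩ := H μ fun i => by
    obtain ⟨u, e1, e2⟩ := h4 i
    have := h u
    rwa [e1, e2, mul_one] at this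
  rw [h2, h3]
  refine ⟨a1, a2, fun s hs => ?_⟩
  rw [h1, ← mul_sub, abs_mul, abs_of_pos (hn_det hK).1]
  exact mul_le_mul_of_nonneg_left (a3 s hs) (hn_det hK).1.le

theorem hn_taylor {α β C : ℝ} (h : ∀ s : ℝ, |s| ≤ 1 → |α * s + β * s ^ 2| ≤ C * |s| ^ 3) :
    α = 0 ∧ β = 0 := by
  have key : ∀ {x D : ℝ}, (∀ s : ℝ, 0 < s → s ≤ 1 → |x| ≤ D * s) → x = 0 := fun {x D} hx => by
    have h1 : Tendsto (fun s : ℝ => D * s) (𝓝[>] 0) (𝓝 (D * 0)) :=
      (tendsto_id.const_mul D).mono_left nhdsWithin_le_nhds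
    rw [mul_zero] at h1
    exact abs_nonpos_iff.1 (ge_of_tendsto h1 (mem_of_superset (Ioc_mem_nhdsGT one_pos)
      fun s hs => hx s hs.1 hs.2))
  have h2 : ∀ s : ℝ, 0 < s → s ≤ 1 → |α + β * s| ≤ C * s ^ 2 ∧ |-α + β * s| ≤ C * s ^ 2 := by
    intro s h0 h1
    have e1 := h s (by rwa [abs_of_pos h0])
    have e2 := h (-s) (by rwa [abs_neg, abs_of_pos h0])
    rw [abs_of_pos h0, show α * s + β * s ^ 2 = (α + β * s) * s by ring, abs_mul, abs_of_pos h0,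
      pow_succ, ← mul_assoc] at e1
    rw [abs_neg, abs_of_pos h0, show α * -s + β * (-s) ^ 2 = (-α + β * s) * s by ring, abs_mul,
      abs_of_pos h0, pow_succ, ← mul_assoc] at e2
    exact ⟨le_of_mul_le_mul_right e1 h0, le_of_mul_le_mul_right e2 h0⟩
  refine ⟨key (D := |C|) fun s h0 h1 => ?_, key (D := C) fun s h0 h1 => ?_⟩
  · obtain ⟨e1, e2⟩ := h2 s h0 h1
    have e3 : C * s ^ 2 ≤ |C| * s := mul_le_mul (le_abs_self C) (by nlinarith) (by positivity)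
      (abs_nonneg C)
    rw [abs_le] at e1 e2 ⊢
    constructor <;> linarith [e1.1, e1.2, e2.1, e2.2]
  · obtain ⟨e1, e2⟩ := h2 s h0 h1
    refine le_of_mul_le_mul_right ?_ h0
    rw [← abs_of_pos h0, ← abs_mul, abs_of_pos h0]
    rw [abs_le] at e1 e2 ⊢
    constructor <;> nlinarith [e1.1, e1.2, e2.1, e2.2]

theorem hn_pow (x b q : ℝ) (m : ℕ) : ∃ R : ℝ → ℝ, Continuous R ∧ ∀ s,
    (x * s ^ 2 + b * s + q) ^ (m + 2) = q ^ (m + 2) + (m + 2) * q ^ (m + 1) * b * s +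
      ((m + 2) * q ^ (m + 1) * x + (m + 2) * (m + 1) / 2 * q ^ m * b ^ 2) * s ^ 2 + s ^ 3 * R s := by
  induction m with
  | zero => exact ⟨fun s => 2 * x * b + x ^ 2 * s, by fun_prop, fun s => by push_cast; ring⟩
  | succ m ih =>
    obtain ⟨R, hR, h⟩ := ih
    refine ⟨fun s => R s * (x * s ^ 2 + b * s + q) + (m + 2) * q ^ (m + 1) * b * x +
      ((m + 2) * q ^ (m + 1) * x + (m + 2) * (m + 1) / 2 * q ^ m * b ^ 2) * (x * s + b),
      by fun_prop, fun s => ?_⟩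
    rw [show m + 1 + 2 = m + 2 + 1 from rfl, pow_succ, h]
    push_cast
    ring

/-- The numerical estimate from the Fujiki relation. -/
theorem hn_fu {n : ℕ} (hn : 1 ≤ n) (c x y z w : ℝ)
    (hp : ∀ t : ℝ, 0 < t → 0 ≤ c * (z * t + w * t ^ 2) ^ n) : ∃ C : ℝ, ∀ t : ℝ, 0 < t → t ≤ 1 →
      ∀ I₁ I₂ D : ℝ, (∀ s : ℝ, |s| ≤ 1 → |c * (x * s ^ 2 + y * s * t + z * t + w * t ^ 2) ^ n -
        (c * (z * t + w * t ^ 2) ^ n + s * I₁ + s ^ 2 / 2 * I₂)| ≤ D * |s| ^ 3) →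
      I₁ ^ 2 / (c * (z * t + w * t ^ 2) ^ n) - I₂ ≤ C * t ^ (n - 1) := by
  obtain rfl | ⟨m, rfl⟩ : n = 1 ∨ ∃ m, n = m + 2 := by
    rcases hn.eq_or_lt with h | h
    exacts [Or.inl h.symm, Or.inr ⟨n - 2, by omega⟩]
  · refine ⟨(c * y) ^ 2 / |c * z + c * w| + (c * y) ^ 2 / (c * z / 2) + 2 * |c * x|,
      fun t h0 h1 I₁ I₂ D h => ?_⟩
    obtain ⟨e1, e2⟩ := hn_taylor (α := c * y * t - I₁) (β := c * x - I₂ / 2) (C := D)
      fun s hs => le_of_eq_of_le (congrArg _ (by ring)) (h s hs)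
    have hg : ∀ t : ℝ, 0 < t → 0 ≤ c * z + c * w * t := fun t ht =>
      nonneg_of_mul_nonneg_left (b := t) ((hp t ht).trans_eq (by ring)) ht
    have g0 : 0 ≤ c * z := by
      have h2 : Tendsto (fun t : ℝ => c * z + c * w * t) (𝓝[>] 0) (𝓝 (c * z + c * w * 0)) :=
        ((tendsto_id.const_mul _).const_add _).mono_left nhdsWithin_le_nhds
      rw [mul_zero, add_zero] at h2
      exact ge_of_tendsto h2 (mem_of_superset self_mem_nhdsWithin hg)
    have g1 := hg 1 one_pos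
    have g2 := hg 2 two_pos
    rw [mul_one] at g1
    have p1 : 0 ≤ (c * y) ^ 2 / |c * z + c * w| := by positivity
    have p2 : 0 ≤ (c * y) ^ 2 / (c * z / 2) := by positivity
    have e3 : I₁ ^ 2 / (c * (z * t + w * t ^ 2) ^ 1) = (c * y) ^ 2 * t / (c * z + c * w * t) := by
      rw [show I₁ = c * y * t by linarith, show c * (z * t + w * t ^ 2) ^ 1 =
        (c * z + c * w * t) * t by ring, show (c * y * t) ^ 2 = (c * y) ^ 2 * t * t by ring,
        mul_div_mul_right _ _ h0.ne']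
    have e4 : (c * y) ^ 2 * t / (c * z + c * w * t) ≤
        (c * y) ^ 2 / |c * z + c * w| + (c * y) ^ 2 / (c * z / 2) := by
      rcases g0.eq_or_lt with g | g
      · rw [← g, zero_add, zero_add, mul_div_mul_right _ _ h0.ne', abs_of_nonneg (by linarith)]
        simp
      · refine le_add_of_nonneg_of_le p1 (div_le_div₀ (sq_nonneg _)
          (mul_le_of_le_one_right (sq_nonneg _) h1) (half_pos g) (by nlinarith))
    rw [e3, Nat.sub_self, pow_zero, mul_one]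
    linarith [neg_abs_le (c * x)]
  · obtain ⟨g, hg⟩ : ∃ g, g = |z| + |w| := ⟨_, rfl⟩
    have g0 : 0 ≤ g := hg ▸ by positivity
    refine ⟨|c| * ((m + 2) * g ^ m * y ^ 2 + 2 * ((m + 2) * g ^ (m + 1) * |x|)),
      fun t h0 h1 I₁ I₂ D h => ?_⟩
    obtain ⟨q, hq⟩ : ∃ q, q = z * t + w * t ^ 2 := ⟨_, rfl⟩
    obtain ⟨R, hR, H⟩ := hn_pow x (y * t) q m
    obtain ⟨L, hL⟩ := (isCompact_Icc (a := (-1 : ℝ)) (b := 1)).exists_bound_of_continuousOn
      hR.continuousOn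
    obtain ⟨e1, e2⟩ := hn_taylor (α := c * ((m + 2) * q ^ (m + 1) * (y * t)) - I₁)
      (β := c * ((m + 2) * q ^ (m + 1) * x + (m + 2) * (m + 1) / 2 * q ^ m * (y * t) ^ 2) - I₂ / 2)
      (C := D + |c| * L) fun s hs => by
        have h2 := h s hs
        rw [show x * s ^ 2 + y * s * t + z * t + w * t ^ 2 = x * s ^ 2 + y * t * s + q by
          rw [hq]; ring, H, ← hq] at h2
        have h3 : |c * (s ^ 3 * R s)| ≤ |c| * (|s| ^ 3 * L) := by
          rw [abs_mul, abs_mul, abs_pow]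
          gcongr
          exact hL s (abs_le.1 hs)
        refine le_of_eq_of_le (congrArg _ ?_) ((abs_sub _ _).trans ((add_le_add h2 h3).trans
          (le_of_eq (by ring))))
        ring
    have q1 : |q| ≤ g * t := by
      rw [hq, hg]
      refine (abs_add_le _ _).trans ?_
      rw [abs_mul, abs_mul, abs_pow, abs_of_pos h0]
      nlinarith [mul_nonneg (mul_nonneg (abs_nonneg w) h0.le) (sub_nonneg.2 h1)]
    have q2 : ∀ k, |q ^ k| ≤ g ^ k * t ^ k := fun k => by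
      rw [abs_pow, ← mul_pow]
      gcongr
    have t1 : t ^ m * t ^ 2 ≤ t ^ (m + 1) := by
      rw [pow_succ t m]
      gcongr
      nlinarith
    have f1 : |c * ((m + 2) * q ^ m * (y * t) ^ 2)| ≤ |c| * ((m + 2) * g ^ m * y ^ 2) *
        t ^ (m + 1) := by
      rw [abs_mul, abs_mul, abs_mul, abs_of_nonneg (sq_nonneg (y * t)),
        abs_of_nonneg (by positivity : (0 : ℝ) ≤ m + 2)]
      calc _ ≤ |c| * ((m + 2) * (g ^ m * t ^ m) * (y * t) ^ 2) := by gcongr; exact q2 m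
        _ = |c| * ((m + 2) * g ^ m * y ^ 2) * (t ^ m * t ^ 2) := by ring
        _ ≤ _ := by gcongr
    have f2 : |c * ((m + 2) * q ^ (m + 1) * x)| ≤ |c| * ((m + 2) * g ^ (m + 1) * |x|) *
        t ^ (m + 1) := by
      rw [abs_mul, abs_mul, abs_mul, abs_of_nonneg (by positivity : (0 : ℝ) ≤ m + 2)]
      calc _ ≤ |c| * ((m + 2) * (g ^ (m + 1) * t ^ (m + 1)) * |x|) := by gcongr; exact q2 _
        _ = _ := by ring
    rw [← hq, show m + 2 - 1 = m + 1 from rfl, show I₁ = _ from (sub_eq_zero.1 e1).symm,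
      show I₂ = 2 * (c * ((m + 2) * q ^ (m + 1) * x + (m + 2) * (m + 1) / 2 * q ^ m * (y * t) ^ 2))
        by linarith]
    have f3 := le_abs_self (c * ((m + 2) * q ^ m * (y * t) ^ 2))
    have f4 := neg_abs_le (c * ((m + 2) * q ^ (m + 1) * x))
    by_cases hc : c = 0
    · simp [hc]
    by_cases hq0 : q = 0
    · have f5 := hp t h0
      have f6 := neg_abs_le (c * ((m + 2) * q ^ m * (y * t) ^ 2))
      rcases m with _ | m
      · simp only [hq0] at f1 f2 f6 ⊢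
        norm_num at f1 f2 f6 ⊢
        nlinarith [abs_nonneg c, mul_nonneg (mul_nonneg (abs_nonneg c) (mul_nonneg g0
          (abs_nonneg x))) h0.le]
      · simp only [hq0, zero_pow (Nat.succ_ne_zero _), mul_zero, zero_mul, zero_add, zero_div,
          sub_zero]
        positivity
    rw [show (c * ((m + 2) * q ^ (m + 1) * (y * t))) ^ 2 / (c * q ^ (m + 2)) =
      (m + 2) * (c * ((m + 2) * q ^ m * (y * t) ^ 2)) by field_simp; ring]
    nlinarith

end Pool.Agent.HX
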