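import Pool.Agent.P.MP_63735c_ag.HXDc
import Pool.Agent.P.MP_63735c_ag.ABApp
import Pool.Agent.P.MP_63735c_ag.CKEta

/-! The correcting 1-forms on the tube. -/

open scoped ComplexOrder ContDiff Matrix Topology ENNReal
open Set Metric MeasureTheory Filter

namespace Pool.Agent.HX

open Pool.Agent.SPF Pool.Agent.AB

open Pool.Agent.CL Pool.Agent.CK Pool.Agent.NL

variable {N n m : ℕ} {X : Type} [TopologicalSpace X] {A : Atlas X N}
  {hinj : ∀ i, InjOn (A.p i) (A.C i).W} {T O : Set (E n)} {Ψ : P n → X}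
  {τ : Fin m → X → ℝ} {w : Fin m → X → ℂ} {p : P n} {i : A.ι} {f : P n → E N}

theorem nu_cpt {S : Set X} (hS : IsCompact S) (Q : ℝ → A.ι → E N → Prop)
    (hm : ∀ C C' i z, C ≤ C' → z ∈ (A.C i).W → Q C i z → Q C' i z)
    (hi : ∀ C i j O φ, IsChange (A.C i) (A.C j) O φ → (∀ w ∈ O, A.p j (φ w) = A.p i w) →
      ∀ z ∈ O, Q C j (φ z) → Q C i z)
    (hl : ∀ i, ∀ z ∈ (A.C i).W, ∃ C, ∀ᶠ w in 𝓝 z, Q C i w) :
    ∃ C, 0 ≤ C ∧ ∀ i, ∀ z ∈ (A.C i).W, A.p i z ∈ S → Q C i z := by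
  have key : ∀ x : X, ∃ (i : A.ι) (U : Set (E N)) (C : ℝ), U ⊆ (A.C i).W ∧ (∀ w ∈ U, Q C i w) ∧
      A.p i '' U ∈ 𝓝 x := by
    intro x
    obtain ⟨i, z, hz, rfl⟩ := A.cover x
    obtain ⟨C, hC⟩ := hl i z hz
    obtain ⟨U, hU, hUo, hzU⟩ :=
      _root_.eventually_nhds_iff.1 (hC.and ((A.C i).isOpen.mem_nhds hz))
    exact ⟨i, U, C, fun w hw => (hU w hw).2, fun w hw => (hU w hw).1,
      (A.opn i U hUo fun w hw => (hU w hw).2).mem_nhds ⟨z, hzU, rfl⟩⟩
  choose ι U C hUW hQ hn using key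
  obtain ⟨t, -, ht⟩ := hS.elim_nhds_subcover (fun x => A.p (ι x) '' U x) fun x _ => hn x
  refine ⟨∑ x ∈ t, |C x|, Finset.sum_nonneg fun x _ => abs_nonneg _, fun i z hz hs => ?_⟩
  obtain ⟨x, hx, y, hy, he⟩ : ∃ x ∈ t, A.p i z ∈ A.p (ι x) '' U x := by
    simpa only [mem_iUnion, exists_prop] using ht hs
  obtain ⟨V, φ, hch, hzV, hφ, hp⟩ := A.trans i (ι x) z hz y (hUW x hy) he.symm
  refine hi _ i (ι x) V φ hch hp z hzV ?_
  rw [hφ]
  exact hm (C x) _ _ _ ((le_abs_self _).trans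
    (Finset.single_le_sum (f := fun x => |C x|) (fun x _ => abs_nonneg _) hx)) (hUW x hy)
    (hQ x y hy)

theorem nu_at {F : Type} [NormedAddCommGroup F] [NormedSpace ℝ F] {g : X → F}
    (hg : (man A hinj isOpen_univ).Smo g) {z : E N} (hz : z ∈ (A.C i).W) :
    ContDiffAt ℝ ∞ (fun y => g (A.p i y)) z :=
  (hg i).contDiffAt (((man A hinj isOpen_univ).isOpen i).mem_nhds ⟨hz, mem_univ _⟩)

theorem nu_lf (hL : Lf A Ψ p i f) : ContDiffAt ℝ ∞ f p := by
  obtain ⟨U, hU, hUo, hp⟩ := _root_.eventually_nhds_iff.1 hL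
  exact (hol_smooth hUo fun x hx => (hU x hx).1.differentiableWithinAt).2.1.contDiffAt
    (hUo.mem_nhds hp)

theorem nu_ev (hL : Lf A Ψ p i f) : Ψ =ᶠ[𝓝 p] fun s => A.p i (f s) :=
  hL.mono fun _ hs => hs.2.2.symm

theorem nu_pull {F : Type} [NormedAddCommGroup F] [NormedSpace ℝ F] {g : X → F}
    (hg : (man A hinj isOpen_univ).Smo g) (h : A.IsUnif T Ψ) (hp : p.1 ∈ T) :
    ContDiffAt ℝ ∞ (fun s => g (Ψ s)) p := by
  obtain ⟨i, f, hL, -⟩ := unif_lf h hp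
  exact ((nu_at hg hL.self_of_nhds.2.1).comp p (nu_lf hL)).congr_of_eventuallyEq
    ((nu_ev hL).mono fun s hs => congrArg g hs)

theorem bet_lift (hw : ∀ k, (man A hinj isOpen_univ).Smo (w k)) (hL : Lf A Ψ p i f) (u : P n) :
    bet τ w Ψ p u = bet τ w (A.p i) (f p) (fderiv ℂ f p u) := by
  rw [(bet_congr (nu_ev hL)).eq_of_nhds]
  exact bet_comp (fun k => (nu_at (hw k) hL.self_of_nhds.2.1).differentiableAt (by simp))
    hL.self_of_nhds.1 u

theorem dform_lift (hτ : ∀ k, (man A hinj isOpen_univ).Smo (τ k))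
    (hw : ∀ k, (man A hinj isOpen_univ).Smo (w k)) (hL : Lf A Ψ p i f) (u v : P n) :
    dform (bet τ w Ψ) p u v =
      dform (bet τ w (A.p i)) (f p) (fderiv ℂ f p u) (fderiv ℂ f p v) := by
  have h0 := hL.self_of_nhds
  rw [← dc_real h0.1, ← dc_real h0.1]
  refine dform_comp ((bet_smooth (fun k => nu_at (hτ k) h0.2.1)
    fun k => nu_at (hw k) h0.2.1).differentiableAt (by simp)) ((nu_lf hL).of_le (by norm_cast)) ?_
    u v
  filter_upwards [hL.eventually] with s hs u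
  rw [bet_lift hw hs, dc_real hs.self_of_nhds.1]

theorem bet_inv (hw : ∀ k, (man A hinj isOpen_univ).Smo (w k)) (h : A.IsUnif T Ψ) {g : Ret n}
    (hg : IsRet T Ψ O g) (hp : p.1 ∈ O) (u : P n) :
    bet τ w Ψ (g.act p) (fderiv ℝ g.act p u) = bet τ w Ψ p u := by
  have hn : O ×ˢ (univ : Set (E n)) ∈ 𝓝 p := (hg.isOpen.prod isOpen_univ).mem_nhds ⟨hp, mem_univ _⟩
  have hd : DifferentiableAt ℂ g.act p := hg.smooth.2.2.1.differentiableAt hn
  have he : (fun s => Ψ (g.act s)) =ᶠ[𝓝 p] Ψ := by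
    filter_upwards [hn] with s hs using hg.eq s.1 hs.1 s.2
  rw [← (bet_congr he).eq_of_nhds, dc_real hd]
  exact (bet_comp (fun k => (nu_pull (hw k) h (hg.maps hp)).differentiableAt (by simp)) hd u).symm

theorem bet_bd (K : Form11 A) (hK : ∀ i, ∀ z ∈ (A.C i).W, (K.h i z).PosDef)
    (hτ : ∀ k, (man A hinj isOpen_univ).S (τ k)) (hw : ∀ k, (man A hinj isOpen_univ).Smo (w k)) :
    ∃ M, 0 ≤ M ∧ ∀ i, ∀ z ∈ (A.C i).W, ∀ u,
      bet τ w (A.p i) z u ^ 2 ≤ M * ev11 (K.h i z) u (Complex.I • u) := by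
  choose S hS _ h0 using fun k => (hτ k).2
  obtain ⟨M, hM, h⟩ := nu_cpt (A := A) (isCompact_iUnion hS)
    (fun C i z => ∀ u, bet τ w (A.p i) z u ^ 2 ≤ C * ev11 (K.h i z) u (Complex.I • u))
    (fun C C' i z hC hz h u => (h u).trans
      (mul_le_mul_of_nonneg_right hC (ev11_nonneg (hK i z hz).posSemidef u).1))
    (fun C i j V φ hch hp z hz h u => by
      have he : A.p i =ᶠ[𝓝 z] fun y => A.p j (φ y) := by
        filter_upwards [hch.isOpen.mem_nhds hz] with y hy using (hp y hy).symm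
      rw [ckbd_compat K hch hp hz, (bet_congr he).eq_of_nhds,
        bet_comp (fun k => (nu_at (hw k) (hch.maps hz)).differentiableAt (by simp))
          (hch.hol.differentiableAt (hch.isOpen.mem_nhds hz))]
      exact h _)
    (fun i z hz => by
      obtain ⟨c, hc, C, h1⟩ := ckbd_near K hK hz
      have h2 := (bet_smooth (τ := τ) (w := w) (fun k => nu_at (hτ k).1 hz)
        fun k => nu_at (hw k) hz).continuousAt
      refine ⟨(‖bet τ w (A.p i) z‖ + 1) ^ 2 / c, ?_⟩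
      filter_upwards [h1, h2.norm.eventually_lt continuousAt_const (lt_add_one _)] with y hy hy' u
      have h3 : |bet τ w (A.p i) y u| ≤ (‖bet τ w (A.p i) z‖ + 1) * ‖u‖ :=
        ((bet τ w (A.p i) y).le_opNorm u).trans (mul_le_mul_of_nonneg_right hy'.le (norm_nonneg _))
      have h4 := pow_le_pow_left₀ (abs_nonneg _) h3 2
      rw [sq_abs, mul_pow] at h4
      calc _ ≤ _ := h4
        _ = (‖bet τ w (A.p i) z‖ + 1) ^ 2 / c * (c * ‖u‖ ^ 2) := by field_simp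
        _ ≤ _ := mul_le_mul_of_nonneg_left (hy u).1 (by positivity))
  refine ⟨M, hM, fun i z hz u => ?_⟩
  by_cases hs : A.p i z ∈ ⋃ k, S k
  · exact h i z hz hs u
  · have : bet τ w (A.p i) z u = 0 := by
      rw [bet_apply]
      exact Finset.sum_eq_zero fun k _ => by
        rw [h0 k _ fun hk => hs (mem_iUnion.2 ⟨k, hk⟩), zero_mul]
    rw [this, zero_pow two_ne_zero]
    exact mul_nonneg hM (ev11_nonneg (hK i z hz).posSemidef u).1

theorem nu_flip {F : Type} [NormedAddCommGroup F] [NormedSpace ℝ F] [FiniteDimensional ℝ F]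
    {W : Set F} {a d : Form2 F} (ha : ContDiffOn ℝ ∞ a W) (hd : ContDiffOn ℝ ∞ d W) :
    ContinuousOn (fun p => a p + (d p - (d p).flip)) W := by
  have k : ∀ {t : Form2 F}, ContDiffOn ℝ ∞ t W → ∀ u v, ContinuousOn (fun p => t p u v) W :=
    fun ht u v => ((ht.clm_apply contDiffOn_const).clm_apply contDiffOn_const).continuousOn
  refine continuousOn_clm_apply.2 fun u => continuousOn_clm_apply.2 fun v => ?_
  exact ((k ha u v).add ((k hd u v).sub (k hd v u))).congr fun p _ => by simp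

/-- The corrected form on the tube. -/
theorem exists_cor (h : A.IsUnif T Ψ) (hT : IsOpen T) (K a : Form11 A)
    (hK : ∀ i, ∀ z ∈ (A.C i).W, (K.h i z).PosDef) {V : ℝ}
    (hv : ∀ y ∈ T, ∀ ξ v, leaf (pb A (f11 A K.h) Ψ) y ξ v (Complex.I • v) ≤ V * ‖v‖ ^ 2)
    {t : ℝ} {C : Set X} {Φ : X → ℝ} (he : Est (man A hinj isOpen_univ) a.h
      (fun i z => (A.C i).η z + (t : ℂ) • K.h i z) C τ w Φ) :
    ∃ (b : Form2 (P n)) (M : ℝ),
      IsPrim (T ×ˢ univ) (bet τ w Ψ) (fun p => b p - pb A (f11 A a.h) Ψ p) ∧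
      ContinuousOn b (T ×ˢ univ) ∧ (∀ p : P n, p.1 ∈ T → ∀ v, |bet τ w Ψ p (0, v)| ≤ M * ‖v‖) ∧
      ∀ p : P n, p.1 ∈ T → Ψ p ∈ C → ∀ u v, b p u v ^ 2 ≤ Φ (Ψ p) *
        ((pb A (f11 A (etaF A).h) Ψ p u (Complex.I • u) +
          t * pb A (f11 A K.h) Ψ p u (Complex.I • u)) / 2) *
        ((pb A (f11 A (etaF A).h) Ψ p v (Complex.I • v) +
          t * pb A (f11 A K.h) Ψ p v (Complex.I • v)) / 2) := by
  obtain ⟨h1, -, -, h4⟩ := he
  have hs : ContDiffOn ℝ ∞ (bet τ w Ψ) (T ×ˢ univ) := fun p hp =>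
    (bet_smooth (fun k => nu_pull (h1 k).1.1 h hp.1)
      fun k => nu_pull (h1 k).2.1 h hp.1).contDiffWithinAt
  have hd : ContDiffOn ℝ ∞ (fderiv ℝ (bet τ w Ψ)) (T ×ˢ univ) :=
    hs.fderiv_of_isOpen (hT.prod isOpen_univ) (by simp)
  obtain ⟨M, hM, hb⟩ := bet_bd K hK (fun k => (h1 k).1) fun k => (h1 k).2.1
  refine ⟨fun p => pb A (f11 A a.h) Ψ p + (fderiv ℝ (bet τ w Ψ) p - (fderiv ℝ (bet τ w Ψ) p).flip),
    √(M * |V|), ⟨hs, fun p _ u v => by simp⟩, nu_flip (pb_closed hinj (gform_11 a) h hT).1 hd,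
    fun p hp v => ?_, fun p hp hc u v => ?_⟩
  · obtain ⟨i, f, hL, -⟩ := unif_lf h hp
    have e1 := hb i _ hL.self_of_nhds.2.1 (fderiv ℂ f p (0, v))
    have e2 := hv p.1 hp p.2 v
    have hI : ((0, Complex.I • v) : P n) = Complex.I • ((0, v) : P n) := by simp
    have e3 : leaf (pb A (f11 A K.h) Ψ) p.1 p.2 v (Complex.I • v) =
        pb A (f11 A K.h) Ψ p (0, v) (0, Complex.I • v) := by simp [leaf]
    rw [e3, pb_eq hinj (gform_11 _) hL, hI, map_smul] at e2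
    rw [bet_lift (fun k => (h1 k).2.1) hL, ← Real.sqrt_sq (norm_nonneg v),
      ← Real.sqrt_mul (by positivity)]
    refine Real.abs_le_sqrt (e1.trans ?_)
    rw [mul_assoc]
    exact mul_le_mul_of_nonneg_left (e2.trans
      (mul_le_mul_of_nonneg_right (le_abs_self V) (sq_nonneg _))) hM
  · obtain ⟨i, f, hL, -⟩ := unif_lf h hp
    have h0 := hL.self_of_nhds
    have hc' : A.p i (f p) ∈ C := h0.2.2.symm ▸ hc
    have e1 := h4 i (f p) ⟨h0.2.1, mem_univ _⟩ hc' (fderiv ℂ f p u) (fderiv ℂ f p v)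
    have e2 : ∀ u, (hq ((A.C i).η (f p) + (t : ℂ) • K.h i (f p)) (fderiv ℂ f p u)
        (fderiv ℂ f p u)).re = (pb A (f11 A (etaF A).h) Ψ p u (Complex.I • u) +
          t * pb A (f11 A K.h) Ψ p u (Complex.I • u)) / 2 := fun u => by
      rw [pb_eq hinj (gform_11 _) hL, pb_eq hinj (gform_11 _) hL, map_smul, hq_add, hq_smul,
        Complex.add_re, Complex.re_ofReal_mul]
      simp only [f11, e11_apply, ev11_I, etaF, hq]
      ring
    have e3 := dform_lift (fun k => (h1 k).1.1) (fun k => (h1 k).2.1) hL u v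
    have e4 := pb_eq hinj (gform_11 a) hL u v
    rw [← e2, ← e2, ← h0.2.2]
    refine le_of_eq_of_le ?_ e1
    congr 1
    change _ = ev11 (a.h i (f p)) _ _ + dform (bet τ w (A.p i)) (f p) _ _
    rw [← e3]
    simp [e4, f11, dform]

end Pool.Agent.HX
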