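import Pool.Agent.P.MP_63735c_ag.SQMax
import Pool.Agent.P.MP_63735c_ag.SQLip
import Pool.Agent.P.MP_63735c_ag.SQGlue
import Pool.Agent.P.MP_63735c_ag.HSMain

open MeasureTheory Pool.Agent.SPF Pool.Agent.NL Pool.Agent.CK Pool.Agent.CS Pool.Agent.HS

namespace Pool.Agent.CS.Kept

theorem leaves_kept (n : ℕ) (hn : 1 ≤ n) (X : Type) [TopologicalSpace X] [T2Space X] [CompactSpace X]
    (R : Set X) (hR : IsOpen R) (hd : Dense R) [PreconnectedSpace R] (A : Atlas R (2 * n))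
    (B : Amb R A) (hinj : ∀ i, Set.InjOn (A.p i) (A.C i).W) [MeasurableSpace R] [BorelSpace R]
    (μ : Measure R) [IsFiniteMeasure μ] (hμ : IsVolume A μ) (K : Form11 A) (hK : IsKahler B K)
    (H : BBF n A μ K) (hL : H.Isotropic) (hη : ∃ i, ∃ z ∈ (A.C i).W, (A.C i).η z ≠ 0) :
    ∃ (T : Set (E n)) (Ψ : E n × E n → R), IsOpen T ∧ T.Nonempty ∧ A.IsUnif T Ψ ∧
      IsFibred Ψ T := by
  have := vol_pos hμ
  obtain ⟨j, y, hy, hη⟩ := hη
  have : Nonempty R := ⟨A.p j y⟩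
  obtain ⟨i, z, hz, hr⟩ := BBF.rank hn rfl hK.posDef hL hy hη
  obtain ⟨F, hF, hi, h0⟩ := BBF.exists_F hn rfl measureReal_univ_ne_zero hL
  have hI := A.iso_of_integrable rfl hn μ F hF hi h0
  have hH : ∀ i, (A.C i).Hol n := fun i =>
    Chart.hol_of_S rfl (hI i) (B.S_eq_zero rfl hR hd hI i)
  obtain ⟨T, Ψ, h1, h2, -, h4⟩ :=
    A.exists_unif rfl hI hH (A.complete_of_proper rfl hI hH (B.proper rfl hR hd hI)) i hz hr
  obtain ⟨T', a1, a2, a3, a4⟩ := BBF.leaves hn rfl hinj hμ hK.posDef hK.bd20 hK.bd11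
    (HX.exists_Lam hinj hK) hL h4 h1 ⟨0, h2⟩
  exact ⟨T', Ψ, a2, a3, unif_mono h4 a1, a4⟩

end Pool.Agent.CS.Kept
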