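import Pool.Agent.P.MP_63735c_ag.Group
import Pool.Agent.Lib.SCV.CousinC

/-! The primitive symplectic quotient and its 2-torsion line bundle. -/

set_option autoImplicit false

open Set Pool.Agent.Lib.SCV

noncomputable section

namespace Pool.Agent.P.MP_63735c_ag

/-- descent of a function to the quotient -/
def desc {α : Type} (f : V → α) (x : Orb G) : α := f x.out

lemma desc_proj {α : Type} {f : V → α} (z : V) (h : ∀ γ ∈ G, f (γ z) = f z) :
    desc f (proj G z) = f z := by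
  obtain ⟨γ, hγ, h1⟩ := exists_of_proj_eq (Quotient.out_eq (proj G z))
  rw [desc, ← h1, h γ hγ]

lemma proj_surj : Function.Surjective (proj G) := Quotient.mk_surjective

lemma proj_cont : Continuous (proj G) := continuous_quotient_mk'

lemma isOpen_iff {U : Set (Orb G)} : IsOpen U ↔ IsOpen (proj G ⁻¹' U) := Iff.rfl

lemma neg_mem (z : V) : proj G (-z) = proj G z := by
  rw [← R_two]; exact proj_eq (Gp_le (pow_mem R_mem _)) z

theorem h1 : H1Vanishes (Hol G) := by
  intro J U F hU hc hF hco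
  obtain ⟨g, hgp, hgd, hgc⟩ := cousin (ι := Fin 4) (fun i => proj G ⁻¹' U i)
    (fun i => (hU i).preimage proj_cont)
    (fun i l z hz => by
      rw [mem_preimage] at hz ⊢; exact (proj_eq (Gp_le (T_mem l)) z).symm ▸ hz)
    (fun i z hz => by rw [mem_preimage] at hz ⊢; rwa [neg_mem])
    (fun z => hc _) (fun i j => F i j ∘ proj G) hF
    (fun i j l z => congrArg (F i j) (proj_eq (Gp_le (T_mem l)) z))
    (fun i j z => congrArg (F i j) (neg_mem z))
    (fun i j k z hi hj hk => hco i j k _ ⟨⟨hi, hj⟩, hk⟩)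
  have hgT : ∀ i l z, g i (T l z) = g i z := hgp
  let g1 : J → V → ℂ := fun i z => g i z + g i (R z) + g i ((R ^ 2) z) + g i ((R ^ 3) z)
  have h1 : ∀ i, ∀ γ ∈ Gp, ∀ z, g1 i (γ z) = g1 i z := by
    intro i γ hγ
    refine Gp_ind (P := fun γ => ∀ z, g1 i (γ z) = g1 i z) (fun l z => ?_) (fun z => ?_)
      (fun a b ha hb z => by rw [Equiv.Perm.mul_apply, ha, hb]) hγ
    · have : ∀ k, g i ((R ^ k) (T l z)) = g i ((R ^ k) z) := fun k => by
        obtain ⟨m, hm⟩ := Rpow_T k l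
        rw [← Equiv.Perm.mul_apply, hm, Equiv.Perm.mul_apply, hgT]
      have h := this 1
      rw [pow_one] at h
      simp only [g1, this, h, hgT]
    · simp only [g1, R_two, R_three, R_R, neg_neg]; ring
  let g2 : J → V → ℂ := fun i z => (g1 i z + g1 i (S z)) / 8
  have h2 : ∀ i, ∀ γ ∈ G, ∀ z, g2 i (γ z) = g2 i z := by
    have hp : ∀ i, ∀ γ ∈ Gp, ∀ z, g2 i (γ z) = g2 i z := by
      intro i γ hγ z
      obtain ⟨δ, hδ, h⟩ := S_conj hγ
      simp only [g2]
      rw [← Equiv.Perm.mul_apply S, h, Equiv.Perm.mul_apply, h1 i γ hγ, h1 i δ hδ]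
    rintro i γ (hγ | ⟨δ, hδ, rfl⟩) z
    · exact hp i γ hγ z
    · rw [Equiv.Perm.mul_apply, hp i δ hδ]
      simp only [g2]
      rw [← Equiv.Perm.mul_apply S, S_S, h1 i _ (T_mem _), add_comm]
  have hd : ∀ i, ∀ γ ∈ G, DifferentiableOn ℂ (fun z => g i (γ z)) (proj G ⁻¹' U i) :=
    fun i γ hγ => (hgd i).comp (differentiable_of_mem hγ).differentiableOn fun z hz => by
      rw [mem_preimage] at hz ⊢; rwa [proj_eq hγ]
  have hR : ∀ k : ℕ, R ^ k ∈ G := fun k => Gp_le (pow_mem R_mem k)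
  refine ⟨fun i => desc (g2 i), fun i => ?_, fun i j x hx => ?_⟩
  · have : desc (g2 i) ∘ proj G = g2 i := funext fun z => desc_proj z fun γ hγ => h2 i γ hγ z
    rw [Hol, this]
    simp only [g2, div_eq_mul_inv]
    refine (DifferentiableOn.add (f := g1 i) (g := fun z => g1 i (S z)) ?_ ?_).mul_const _
    · exact (((hgd i).add (hd i R (Gp_le R_mem))).add (hd i _ (hR 2))).add (hd i _ (hR 3))
    · exact (((hd i S S_mem).add (hd i _ (mul_mem (Gp_le R_mem) S_mem))).add
        (hd i _ (mul_mem (hR 2) S_mem))).add (hd i _ (mul_mem (hR 3) S_mem))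
  · obtain ⟨z, rfl⟩ := proj_surj x
    simp only [desc_proj z fun γ hγ => h2 _ γ hγ z]
    have : ∀ γ ∈ G, F i j (proj G z) = g i (γ z) - g j (γ z) := fun γ hγ => by
      rw [← proj_eq hγ z] at hx ⊢
      exact hgc i j _ hx
    have e0 := this 1 (one_mem _)
    have e1 := this R (Gp_le R_mem)
    have e2 := this _ (hR 2)
    have e3 := this _ (hR 3)
    have e4 := this S S_mem
    have e5 := this _ (mul_mem (Gp_le R_mem) S_mem)
    have e6 := this _ (mul_mem (hR 2) S_mem)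
    have e7 := this _ (mul_mem (hR 3) S_mem)
    simp only [Equiv.Perm.mul_apply, Equiv.Perm.one_apply] at e0 e5 e6 e7
    simp only [g2, g1]
    linear_combination (e0 + e1 + e2 + e3 + e4 + e5 + e6 + e7) / 8

/-! ### two-forms -/

/-- the symplectic form -/
def sig : V [⋀^Fin 2]→L[ℂ] ℂ where
  toFun v := ((v 0 0 - v 0 1) * v 1 2 + (v 0 0 + v 0 1) * v 1 3) -
    ((v 1 0 - v 1 1) * v 0 2 + (v 1 0 + v 1 1) * v 0 3)
  map_update_add' := by
    intro _ m i x y
    fin_cases i <;> simp [Function.update] <;> ring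
  map_update_smul' := by
    intro _ m i c x
    fin_cases i <;> simp [Function.update] <;> ring
  cont := by fun_prop
  map_eq_zero_of_eq' := by
    intro v i j h hij
    fin_cases i <;> fin_cases j <;> simp_all

lemma sig_apply (v : Fin 2 → V) : sig v = ((v 0 0 - v 0 1) * v 1 2 + (v 0 0 + v 0 1) * v 1 3) -
    ((v 1 0 - v 1 1) * v 0 2 + (v 1 0 + v 1 1) * v 0 3) := rfl

/-- basis vectors -/
def e (i : Fin 4) : V := Pi.single i 1

lemma neg_left (f : V [⋀^Fin 2]→L[ℂ] ℂ) (x y : V) : f ![-x, y] = -f ![x, y] := by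
  simpa using f.vecCons_smul ![y] (-1) x

lemma swap (f : V [⋀^Fin 2]→L[ℂ] ℂ) (x y : V) : f ![x, y] = -f ![y, x] := by
  have := f.toAlternatingMap.map_swap ![y, x] (i := 0) (j := 1) (by decide)
  simp only [ContinuousAlternatingMap.coe_toAlternatingMap] at this
  rw [← this]; congr 1
  funext j; fin_cases j <;> rfl

lemma neg_right (f : V [⋀^Fin 2]→L[ℂ] ℂ) (x y : V) : f ![x, -y] = -f ![x, y] := by
  rw [swap, neg_left, swap f x y]

lemma comp_apply (f : V [⋀^Fin 2]→L[ℂ] ℂ) (A : V →L[ℂ] V) (x y : V) :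
    f.compContinuousLinearMap A ![x, y] = f ![A x, A y] := by
  rw [ContinuousAlternatingMap.compContinuousLinearMap_apply]; congr 1
  funext j; fin_cases j <;> rfl

lemma eq_of_inv (f : V [⋀^Fin 2]→L[ℂ] ℂ) (hR : f.compContinuousLinearMap RL = f)
    (hS : f.compContinuousLinearMap SL = f) : ∃ c : ℂ, f = c • sig := by
  have r0 : RL (e 0) = e 1 := by rw [RL_apply]; funext j; fin_cases j <;> simp [e]
  have r2 : RL (e 2) = e 3 := by rw [RL_apply]; funext j; fin_cases j <;> simp [e]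
  have s0 : SL (e 0) = e 0 := by rw [SL_apply]; funext j; fin_cases j <;> simp [e]
  have s1 : SL (e 1) = -e 1 := by rw [SL_apply]; funext j; fin_cases j <;> simp [e]
  have s2 : SL (e 2) = e 3 := by rw [SL_apply]; funext j; fin_cases j <;> simp [e]
  have s3 : SL (e 3) = e 2 := by rw [SL_apply]; funext j; fin_cases j <;> simp [e]
  have a01 : f ![e 0, e 1] = 0 := by
    have := comp_apply f SL (e 0) (e 1)
    rw [hS, s0, s1, neg_right] at this
    linear_combination this / 2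
  have a23 : f ![e 2, e 3] = 0 := by
    have := comp_apply f SL (e 2) (e 3)
    rw [hS, s2, s3, swap f (e 3)] at this
    linear_combination this / 2
  have a03 : f ![e 0, e 3] = f ![e 0, e 2] := by
    have := comp_apply f SL (e 0) (e 3)
    rwa [hS, s0, s3] at this
  have a13 : f ![e 1, e 3] = f ![e 0, e 2] := by
    have := comp_apply f RL (e 0) (e 2)
    rw [hR, r0, r2] at this
    exact this.symm
  have a12 : f ![e 1, e 2] = -f ![e 0, e 2] := by
    have := comp_apply f SL (e 1) (e 2)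
    rwa [hS, s1, s2, neg_left, a13] at this
  refine ⟨f ![e 0, e 2], ContinuousAlternatingMap.toAlternatingMap_injective ?_⟩
  refine (Pi.basisFun ℂ (Fin 4)).ext_alternating fun v hv => ?_
  have hv' : v 0 ≠ v 1 := hv.ne (by decide)
  have : (fun i => Pi.basisFun ℂ (Fin 4) (v i)) = ![e (v 0), e (v 1)] := by
    funext j; fin_cases j <;> simp [e]
  rw [this]
  generalize v 0 = a at *
  generalize v 1 = b at *
  simp only [ContinuousAlternatingMap.coe_toAlternatingMap, ContinuousAlternatingMap.smul_apply]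
  have b10 := swap f (e 1) (e 0)
  have b20 := swap f (e 2) (e 0)
  have b30 := swap f (e 3) (e 0)
  have b21 := swap f (e 2) (e 1)
  have b31 := swap f (e 3) (e 1)
  have b32 := swap f (e 3) (e 2)
  fin_cases a <;> fin_cases b <;> first
    | exact absurd rfl hv'
    | (simp only [Fin.zero_eta, Fin.mk_one, Fin.reduceFinMk, Fin.isValue, *]; simp [sig_apply, e])

lemma sig_comp {γ : Equiv.Perm V} (h : γ ∈ G) (z : V) :
    sig.compContinuousLinearMap (fderiv ℂ γ z) = sig := by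
  refine G_ind (P := fun γ => Differentiable ℂ γ ∧
    ∀ z, sig.compContinuousLinearMap (fderiv ℂ γ z) = sig) (fun l => ⟨differentiable_of_mem
      (Gp_le (T_mem l)), fun z => ?_⟩) ⟨differentiable_of_mem (Gp_le R_mem), fun z => ?_⟩
      ⟨differentiable_of_mem S_mem, fun z => ?_⟩ (fun a b ha hb => ⟨ha.1.comp hb.1, fun z => ?_⟩) h
      |>.2 z
  · rw [(hasFDerivAt_of_affine (γ := T l) (A := ContinuousLinearMap.id _ _) (b := cv l)
      (fun _ => rfl) z).fderiv]
    rfl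
  · rw [(hasFDerivAt_of_affine R_eq z).fderiv]
    ext v; simp [sig_apply, RL_apply]; ring
  · rw [(hasFDerivAt_of_affine S_eq z).fderiv]
    ext v; simp [sig_apply, SL_apply]; ring
  · rw [Equiv.Perm.coe_mul, fderiv_comp _ (ha.1 _) (hb.1 _)]
    conv_rhs => rw [← hb.2 z, ← ha.2 (b z)]
    rfl

lemma quarter : (1 / 4 : ℂ) ∉ Half := by
  rintro ⟨g, hg⟩
  have h := congrArg Complex.re hg
  rw [← GaussianInt.intCast_re] at h
  generalize g.re = a at h
  norm_num at h
  have : (1 : ℝ) = ((2 * a : ℤ) : ℝ) := by push_cast; linarith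
  have : 1 = 2 * a := by exact_mod_cast this
  omega

lemma not_mem_Fix {z : V} : z ∉ Fix G ↔ ∃ j, z j ∉ Half := by rw [mem_Fix]; push Not; rfl

lemma Fix_inv {γ : Equiv.Perm V} (h : γ ∈ G) {z : V} (hz : z ∉ Fix G) : γ z ∉ Fix G := by
  rintro ⟨δ, h1, h2, h3⟩
  refine hz ⟨γ⁻¹ * δ * γ, mul_mem (mul_mem (inv_mem h) h1) h, fun h4 => h2 ?_, by simp [h3]⟩
  rwa [mul_assoc, inv_mul_eq_one, eq_comm, mul_eq_right] at h4

theorem twoForms (τ : V → V [⋀^Fin 2]→L[ℂ] ℂ) (h : IsTwoForm G τ) :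
    ∃ c : ℂ, ∀ z ∉ Fix G, τ z = c • sig := by
  have hc : ∀ z ∉ Fix G, τ z = τ fun _ => 1 / 4 := by
    intro z hz
    refine const_of_per quarter (h.1.mono fun z hz => not_mem_Fix.2 hz) (fun l z hz => ?_) z
      (not_mem_Fix.1 hz)
    have := h.2 _ (Gp_le (T_mem l)) z (not_mem_Fix.2 hz)
    rw [(hasFDerivAt_of_affine (γ := T l) (A := ContinuousLinearMap.id _ _) (b := cv l)
      (fun _ => rfl) z).fderiv] at this
    exact this
  have h0 : (fun _ => 1 / 4 : V) ∉ Fix G := not_mem_Fix.2 ⟨0, quarter⟩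
  have hR := h.2 _ (Gp_le R_mem) _ h0
  have hS := h.2 _ S_mem _ h0
  rw [hc _ (Fix_inv (Gp_le R_mem) h0), (hasFDerivAt_of_affine R_eq _).fderiv] at hR
  rw [hc _ (Fix_inv S_mem h0), (hasFDerivAt_of_affine S_eq _).fderiv] at hS
  obtain ⟨c, h1⟩ := eq_of_inv _ hR hS
  exact ⟨c, fun z hz => (hc z hz).trans h1⟩

theorem primitive : IsPrimitiveSymplecticQuotient G := by
  refine ⟨isAbelianQuotient, finite_Fix, h1, fun _ => sig,
    ⟨differentiableOn_const _, fun γ hγ z _ => sig_comp hγ z⟩, fun z _ => ⟨?_, fun v hv => ?_⟩,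
    twoForms⟩
  · ext v; simp [extDeriv, ContinuousAlternatingMap.alternatizeUncurryFin_apply]
  · by_contra hcon
    push Not at hcon
    have h0 := hcon (e 0)
    have h1 := hcon (e 1)
    have h2 := hcon (e 2)
    have h3 := hcon (e 3)
    simp only [sig_apply, e] at h0 h1 h2 h3
    simp at h0 h1 h2 h3
    apply hv
    funext j
    fin_cases j <;> simp
    · linear_combination (h2 + h3) / 2
    · linear_combination (h3 - h2) / 2
    · linear_combination (h1 - h0) / 2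
    · linear_combination (-h0 - h1) / 2

/-! ### the line bundle -/

/-- signed distance -/
def u (p z : V) : ℝ :=
  Metric.infDist z {w | ∃ δ ∈ Gp, δ (S p) = w} - Metric.infDist z {w | ∃ δ ∈ Gp, δ p = w}

lemma u_cont (p : V) : Continuous (u p) :=
  (Metric.continuous_infDist_pt _).sub (Metric.continuous_infDist_pt _)

lemma orb_image {γ : Equiv.Perm V} (h : γ ∈ Gp) (p : V) :
    γ '' {w | ∃ δ ∈ Gp, δ p = w} = {w | ∃ δ ∈ Gp, δ p = w} := by
  ext w
  constructor
  · rintro ⟨_, ⟨δ, hδ, rfl⟩, rfl⟩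
    exact ⟨γ * δ, mul_mem h hδ, rfl⟩
  · rintro ⟨δ, hδ, rfl⟩
    exact ⟨_, ⟨γ⁻¹ * δ, mul_mem (inv_mem h) hδ, rfl⟩, by simp⟩

lemma orb_image_S (p : V) : S '' {w | ∃ δ ∈ Gp, δ p = w} = {w | ∃ δ ∈ Gp, δ (S p) = w} := by
  ext w
  constructor
  · rintro ⟨_, ⟨δ, hδ, rfl⟩, rfl⟩
    obtain ⟨δ', h1, h2⟩ := S_conj hδ
    exact ⟨δ', h1, by rw [← Equiv.Perm.mul_apply, ← h2]; rfl⟩
  · rintro ⟨δ, hδ, rfl⟩
    obtain ⟨δ', h1, h2⟩ := S_conj hδ
    refine ⟨S⁻¹ (δ (S p)), ⟨T (-![1, 0, 0, 0]) * δ' * T ![1, 0, 0, 0],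
      mul_mem (mul_mem (T_mem _) h1) (T_mem _), ?_⟩, by simp⟩
    rw [S_inv, ← S_S, mul_assoc, ← mul_assoc δ', ← h2]
    rfl

lemma u_Gp {γ : Equiv.Perm V} (h : γ ∈ Gp) (p z : V) : u p (γ z) = u p z := by
  unfold u
  conv_lhs => rw [← orb_image h, ← orb_image h p]
  rw [Metric.infDist_image (isometry_of_mem (Gp_le h)),
    Metric.infDist_image (isometry_of_mem (Gp_le h))]

lemma u_S (p z : V) : u p (S z) = -u p z := by
  have h1 : {w | ∃ δ ∈ Gp, δ p = w} = S '' {w | ∃ δ ∈ Gp, δ (S p) = w} := by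
    rw [orb_image_S, ← Equiv.Perm.mul_apply S, S_S]
    ext w
    constructor
    · rintro ⟨δ, hδ, rfl⟩
      exact ⟨δ * (T ![1, 0, 0, 0])⁻¹, mul_mem hδ (inv_mem (T_mem _)), by simp⟩
    · rintro ⟨δ, hδ, rfl⟩
      exact ⟨δ * T _, mul_mem hδ (T_mem _), rfl⟩
  unfold u
  conv_lhs => rw [← orb_image_S, h1]
  rw [Metric.infDist_image (isometry_of_mem S_mem), Metric.infDist_image (isometry_of_mem S_mem),
    ← h1]
  ring

lemma u_self (p : V) : u p p ≠ 0 := by
  unfold u
  rw [Metric.infDist_zero_of_mem (x := p) (s := {w | ∃ δ ∈ Gp, δ p = w}) ⟨1, one_mem _, rfl⟩,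
    sub_zero]
  refine (lt_of_lt_of_le one_half_pos ?_).ne'
  have hne : {w | ∃ δ ∈ Gp, δ (S p) = w}.Nonempty := ⟨_, 1, one_mem _, rfl⟩
  rw [Metric.le_infDist hne]
  rintro _ ⟨δ, hδ, rfl⟩
  rw [dist_comm]
  exact half_le_dist hδ p

/-- sign function -/
def sg (p z : V) : ℂ := (Real.sign (u p z) : ℝ)

lemma sg_Gp {γ : Equiv.Perm V} (h : γ ∈ Gp) (p z : V) : sg p (γ z) = sg p z := by
  simp only [sg, u_Gp h]

lemma sg_S (p z : V) : sg p (S z) = -sg p z := by simp [sg, u_S, Real.sign_neg]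

lemma sg_sq {p z : V} (h : u p z ≠ 0) : sg p z * sg p z = 1 := by
  rcases Real.sign_apply_eq_of_ne_zero _ h with h | h <;> simp [sg, h]

lemma sg_diff (p : V) : DifferentiableOn ℂ (sg p) {z | u p z ≠ 0} := by
  intro z hz
  refine DifferentiableAt.differentiableWithinAt ?_
  rcases lt_or_gt_of_ne hz with h | h
  · refine (differentiableAt_const (-1 : ℂ)).congr_of_eventuallyEq ?_
    filter_upwards [(u_cont p).continuousAt.eventually_lt continuousAt_const h] with w hw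
    simp [sg, Real.sign_of_neg hw]
  · refine (differentiableAt_const (1 : ℂ)).congr_of_eventuallyEq ?_
    filter_upwards [continuousAt_const.eventually_lt (u_cont p).continuousAt h] with w hw
    simp [sg, Real.sign_of_pos hw]

/-- the line bundle -/
def L : Cocycle (Orb G) where
  J := V
  U p := {x | desc (fun z => u p z ≠ 0) x}
  g p q := desc fun z => sg p z * sg q z

lemma mem_U {p z : V} : proj G z ∈ L.U p ↔ u p z ≠ 0 := by
  refine Eq.to_iff (desc_proj (f := fun z => u p z ≠ 0) z ?_)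
  rintro γ (h | ⟨δ, h, rfl⟩)
  · rw [u_Gp h]
  · rw [Equiv.Perm.mul_apply, u_Gp h, u_S]; simp

lemma g_proj (p q z : V) : L.g p q (proj G z) = sg p z * sg q z := by
  refine desc_proj (f := fun z => sg p z * sg q z) z ?_
  rintro γ (h | ⟨δ, h, rfl⟩)
  · rw [sg_Gp h, sg_Gp h]
  · rw [Equiv.Perm.mul_apply, sg_Gp h, sg_Gp h, sg_S, sg_S]; ring

lemma g_sq (p q : V) : ∀ x ∈ L.U p ∩ L.U q, L.g p q x ^ 2 = 1 := by
  intro x hx
  obtain ⟨z, rfl⟩ := proj_surj x
  rw [g_proj]
  linear_combination sg q z * sg q z * sg_sq (mem_U.1 hx.1) + sg_sq (mem_U.1 hx.2)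

theorem isLineBundle : IsLineBundle (Hol G) L := by
  refine ⟨fun p => ?_, fun x => ?_, fun p q => ?_, fun p q x hx h => ?_, fun p q r x hx => ?_⟩
  · rw [isOpen_iff, show proj G ⁻¹' L.U p = {z | u p z ≠ 0} from Set.ext fun z => mem_U]
    exact isOpen_ne_fun (u_cont p) continuous_const
  · obtain ⟨z, rfl⟩ := proj_surj x
    exact ⟨z, mem_U.2 (u_self z)⟩
  · rw [Hol, show L.g p q ∘ proj G = fun z => sg p z * sg q z from funext (g_proj p q)]
    exact ((sg_diff p).mono fun z hz => mem_U.1 hz.1).mul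
      ((sg_diff q).mono fun z hz => mem_U.1 hz.2)
  · have := g_sq p q x hx
    rw [h] at this
    norm_num at this
  · obtain ⟨z, rfl⟩ := proj_surj x
    linear_combination sg p z * sg r z * sg_sq (mem_U.1 hx.1.2) + L.g q r (proj G z) * g_proj p q z
      + sg p z * sg q z * g_proj q r z - g_proj p r z

/-- sections of powers of `L` are constant upstairs -/
lemma section_const {n : ℕ} {s : V → Orb G → ℂ} (hs : IsSection (Hol G) (L.pow n) s) :
    ∃ c : ℂ, ∀ p z, u p z ≠ 0 → s p (proj G z) = sg p z ^ n * c := by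
  let t : V → ℂ := fun z => sg z z ^ n * s z (proj G z)
  have ht : ∀ p z, u p z ≠ 0 → s p (proj G z) = sg p z ^ n * t z := by
    intro p z hz
    rw [hs.2 p z (proj G z) ⟨mem_U.2 hz, mem_U.2 (u_self z)⟩]
    change L.g p z _ ^ n * _ = _
    rw [g_proj, mul_pow, mul_assoc]
  have ht' : ∀ p z, u p z ≠ 0 → t z = sg p z ^ n * s p (proj G z) := by
    intro p z hz
    rw [ht p z hz, ← mul_assoc, ← mul_pow, sg_sq hz, one_pow, one_mul]
  have hd : Differentiable ℂ t := by
    intro p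
    have ho : {z | u p z ≠ 0} ∈ nhds p :=
      (isOpen_ne_fun (u_cont p) continuous_const).mem_nhds (u_self p)
    have h1 : DifferentiableOn ℂ (fun z => sg p z ^ n * s p (proj G z)) {z | u p z ≠ 0} :=
      ((sg_diff p).pow n).mul ((hs.1 p).mono fun z hz => mem_U.2 hz)
    refine (h1.differentiableAt ho).congr_of_eventuallyEq ?_
    filter_upwards [ho] with z hz using ht' p z hz
  refine ⟨t fun _ => 0, fun p z hz => ?_⟩
  rw [ht p z hz, const_of_per (B := ∅) (c := 0) (notMem_empty _) hd.differentiableOn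
    (fun l z _ => ?_) z ⟨0, notMem_empty _⟩]
  change t (T l z) = t z
  rw [ht' z (T l z) (by rw [u_Gp (T_mem l)]; exact u_self z), sg_Gp (T_mem l),
    proj_eq (Gp_le (T_mem l))]

theorem not_triv : ¬Iso (Hol G) L (triv _) := by
  rintro ⟨φ, h1, h2, h3⟩
  obtain ⟨c, hc⟩ := section_const (n := 1) (s := fun p => φ p ()) ⟨fun p => by
      simpa [triv, Cocycle.pow] using h1 p (), fun p q x hx => by
      simpa [triv, Cocycle.pow] using h3 p q () () x ⟨hx, trivial, trivial⟩⟩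
  have e1 := hc 0 0 (u_self 0)
  have e2 := hc 0 (S 0) (by rw [u_S]; simpa using u_self 0)
  rw [proj_eq S_mem, sg_S] at e2
  refine h2 (0 : V) () (proj G 0) ⟨mem_U.2 (u_self 0), trivial⟩ ?_
  linear_combination (e1 + e2) / 2

theorem sq_triv : Iso (Hol G) (L.pow 2) (triv _) :=
  ⟨fun _ _ _ => 1, fun _ _ => differentiableOn_const _, fun _ _ _ _ => one_ne_zero,
    fun p q _ _ x hx => by simp [triv, Cocycle.pow, g_sq p q x hx.1]⟩

theorem flat (p q : V) : ∀ x ∈ L.U p ∩ L.U q, ‖L.g p q x‖ = 1 := by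
  intro x hx
  have := congrArg norm (g_sq p q x hx)
  rw [norm_pow, norm_one] at this
  exact (pow_eq_one_iff_of_nonneg (norm_nonneg _) two_ne_zero).1 this

theorem not_induces : ¬WeaklyInduces (Hol G) L := by
  rintro ⟨B, _, HolB, f, A, m, hf, hs, ⟨x, y, hxy⟩, hA, ⟨k, hk⟩, -, φ, h1, h2, h3⟩
  obtain ⟨s, ⟨s1, s2⟩, sx, sy⟩ := hk x y hxy
  choose a ha using hA.2.1
  let t : V → Orb G → ℂ := fun p w => φ p (a (f w)) w ^ k * s (a (f w)) (f w)
  have ht : ∀ p b, ∀ w ∈ L.U p, f w ∈ A.U b → t p w = φ p b w ^ k * s b (f w) := by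
    intro p b w hw hb
    have e1 := h3 p p (a (f w)) b w ⟨⟨hw, hw⟩, ha _, hb⟩
    have e2 := s2 (a (f w)) b (f w) ⟨ha _, hb⟩
    have e3 : L.g p p w = 1 := by
      obtain ⟨z, rfl⟩ := proj_surj w
      exact (g_proj p p z).trans (sg_sq (mem_U.1 hw))
    simp only [Cocycle.pow, Cocycle.pullback, e3, one_pow, one_mul] at e1 e2
    simp only [t]
    rw [e2, ← e1, mul_pow, mul_assoc]
  obtain ⟨c, hc⟩ := section_const (n := m * k) (s := t) ⟨fun p z hz => by
      have ho : IsOpen (A.U (a (f (proj G z)))) := hA.1 _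
      have d1 := (h1 p (a (f (proj G z)))).pow k
      have d2 := hf.2 _ _ ho (s1 (a (f (proj G z))))
      have hn : proj G ⁻¹' (L.U p ∩ f ⁻¹' A.U (a (f (proj G z)))) ∈ nhds z :=
        (((isLineBundle.1 p).inter (ho.preimage hf.1)).preimage proj_cont).mem_nhds ⟨hz, ha _⟩
      refine (((d1.mul (d2.mono fun _ h => h.2)).differentiableAt hn).congr_of_eventuallyEq
        ?_).differentiableWithinAt
      filter_upwards [hn] with w hw using ht p _ _ hw.1 hw.2,
    fun p q w hw => by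
      have e1 := h3 p q (a (f w)) (a (f w)) w ⟨hw, ha _, ha _⟩
      have e2 := hA.2.2.2.2 (a (f w)) (a (f w)) (a (f w)) (f w) ⟨⟨ha _, ha _⟩, ha _⟩
      have e3 := hA.2.2.2.1 (a (f w)) (a (f w)) (f w) ⟨ha _, ha _⟩
      rw [mul_eq_left₀ e3] at e2
      simp only [Cocycle.pow, Cocycle.pullback, e2, mul_one] at e1
      simp only [t, Cocycle.pow]
      rw [e1, mul_pow, pow_mul, mul_assoc]⟩
  obtain ⟨x, rfl⟩ := hs x
  obtain ⟨y, rfl⟩ := hs y
  obtain ⟨x, rfl⟩ := proj_surj x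
  obtain ⟨y, rfl⟩ := proj_surj y
  have e1 := hc x x (u_self x)
  have e2 := hc y y (u_self y)
  simp only [t, sx _ (ha _), mul_zero] at e1
  have e3 : sg x x ≠ 0 := left_ne_zero_of_mul_eq_one (sg_sq (u_self x))
  have e4 : c = 0 := (mul_eq_zero.1 e1.symm).resolve_left (pow_ne_zero _ e3)
  rw [e4, mul_zero] at e2
  exact mul_ne_zero (pow_ne_zero _ (h2 y _ _ ⟨mem_U.2 (u_self y), ha _⟩)) (sy _ (ha _)) e2

theorem main : ∃ Γ : Subgroup (Equiv.Perm V), IsPrimitiveSymplecticQuotient Γ ∧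
    ∃ L : Cocycle (Orb Γ), IsLineBundle (Hol Γ) L ∧ ¬Iso (Hol Γ) L (triv _) ∧
      Iso (Hol Γ) (L.pow 2) (triv _) ∧ (∀ i j, ∀ x ∈ L.U i ∩ L.U j, ‖L.g i j x‖ = 1) ∧
      ¬WeaklyInduces (Hol Γ) L :=
  ⟨G, primitive, L, isLineBundle, not_triv, sq_triv, flat, not_induces⟩

end Pool.Agent.P.MP_63735c_ag
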