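import Pool.Agent.P.MP_63735c_ag.NRDefs
import Pool.Agent.P.MP_63735c_ag.BPA1
import Pool.Agent.P.MP_63735c_ag.BPE1
import Pool.Agent.P.MP_63735c_ag.BPT2

/-! Objects of the proof that functions near a fibre come from the image (not in any statement). -/

open scoped ComplexOrder ContDiff Matrix Topology ENNReal
open Set Metric MeasureTheory Filter

namespace Pool.Agent.BP

open Pool.Agent.SPF Pool.Agent.CL Pool.Agent.NL Pool.Agent.CK Pool.Agent.AB Pool.Agent.SE

variable {N r : ℕ} {X : Type} [TopologicalSpace X]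

/-- Splitting of the coordinates. -/
noncomputable def spl (N r : ℕ) : E (N + r) ≃L[ℂ] E N × E r :=
  ((LinearEquiv.funCongrLeft ℂ ℂ finSumFinEquiv).trans
    (LinearEquiv.sumArrowLequivProdArrow _ _ ℂ ℂ)).toContinuousLinearEquiv

/-- The first projection. -/
noncomputable def pr1 (N r : ℕ) : E (N + r) →L[ℂ] E N :=
  (ContinuousLinearMap.fst ℂ _ _).comp (spl N r : E (N + r) →L[ℂ] E N × E r)

/-- The second projection. -/
noncomputable def pr2 (N r : ℕ) : E (N + r) →L[ℂ] E r :=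
  (ContinuousLinearMap.snd ℂ _ _).comp (spl N r : E (N + r) →L[ℂ] E N × E r)

/-- The point with given projections. -/
noncomputable def ap (a : E N) (b : E r) : E (N + r) := (spl N r).symm (a, b)

theorem pr1_ap (a : E N) (b : E r) : pr1 N r (ap a b) = a :=
  congrArg Prod.fst ((spl N r).apply_symm_apply (a, b))

theorem pr2_ap (a : E N) (b : E r) : pr2 N r (ap a b) = b :=
  congrArg Prod.snd ((spl N r).apply_symm_apply (a, b))

theorem ap_pr (z : E (N + r)) : ap (pr1 N r z) (pr2 N r z) = z := (spl N r).symm_apply_apply z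

/-- The product of a manifold and an open set. -/
noncomputable def mprod (D : Man X N) {B : Set (E r)} (hB : IsOpen B) : Man (X × E r) (N + r) where
  ι := D.ι
  W := fun i => {z | pr1 N r z ∈ D.W i ∧ pr2 N r z ∈ B}
  p := fun i z => (D.p i (pr1 N r z), pr2 N r z)
  isOpen := fun i => ((D.isOpen i).preimage (pr1 N r).continuous).inter
    (hB.preimage (pr2 N r).continuous)
  cont := fun i => ((D.cont i).comp (pr1 N r).continuous.continuousOn fun _ h => h.1).prodMk
    (pr2 N r).continuous.continuousOn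
  inj := fun i z hz y hy h => by
    obtain ⟨a, b⟩ := Prod.mk.inj h
    rw [← ap_pr z, ← ap_pr y, D.inj i hz.1 hy.1 a, b]
  opn := fun i O hO h => isOpen_iff_mem_nhds.2 (by
    rintro _ ⟨z, hz, rfl⟩
    obtain ⟨u, hu, v, hv, h1⟩ := mem_nhds_prod_iff.1
      (((spl N r).isOpenMap O hO).mem_nhds ⟨z, hz, rfl⟩)
    have h2 : D.p i '' u ∈ 𝓝 (D.p i (pr1 N r z)) := Man.map_nhds (h hz).1 ▸ image_mem_map hu
    refine mem_of_superset (prod_mem_nhds h2 hv) ?_
    rintro ⟨_, b⟩ ⟨⟨a, ha, rfl⟩, hb⟩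
    obtain ⟨y, hy, e⟩ := h1 (mk_mem_prod ha hb)
    exact ⟨y, hy, congrArg (fun q : E N × E r => (D.p i q.1, q.2)) e⟩)
  trans := fun i j z hz y hy h => by
    obtain ⟨a, b⟩ := Prod.mk.inj h
    obtain ⟨φ, h1, h2⟩ := D.trans i j _ hz.1 _ hy.1 a
    refine ⟨fun w => ap (φ (pr1 N r w)) (pr2 N r w), by simp only [h1, b, ap_pr], ?_⟩
    filter_upwards [(pr1 N r).continuous.continuousAt.eventually h2,
      (pr2 N r).continuous.continuousAt.eventually (hB.mem_nhds hz.2)] with w a b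
    refine ⟨(spl N r).symm.differentiableAt.comp w ((a.1.comp w (pr1 N r).differentiableAt).prodMk
      (pr2 N r).differentiableAt), ?_, ?_⟩
    · exact ⟨by rw [pr1_ap]; exact a.2.1, by rw [pr2_ap]; exact b⟩
    · rw [pr1_ap, pr2_ap, a.2.2]

/-- The Euclidean ball. -/
def Bl (b : E r) (τ : ℝ) : Set (E r) := {w | nsq (w - b) < τ}

theorem Bl_open (b : E r) (τ : ℝ) : IsOpen (Bl b τ) :=
  isOpen_lt (nsq_smooth.continuous.comp (continuous_id.sub continuous_const)) continuous_const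

variable {A : Atlas X N}

/-- Sections without common zero. -/
structure Fam (L : Line A) (k r : ℕ) where
  s₀ : A.ι → E N → ℂ
  s : Fin r → A.ι → E N → ℂ
  hinj : ∀ i, InjOn (A.p i) (A.C i).W
  sec₀ : L.IsSection k s₀
  sec : ∀ l, L.IsSection k (s l)
  nz : ∀ i, ∀ z ∈ (A.C i).W, s₀ i z = 0 → ∃ l, s l i z ≠ 0

namespace Fam

variable {L : Line A} {k : ℕ} (S : Fam L k r)

/-- Where the first section does not vanish. -/
def U : Set X := {x | nrm L k S.s₀ x ≠ 0}

theorem U_open : IsOpen S.U := sect_open (nrm_norm S.sec₀)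

/-- The quotients. -/
noncomputable def g : X → E r := gl A fun i z l => S.s l i z / S.s₀ i z

/-- The Fubini-Study potential. -/
noncomputable def φ (x : X) : ℝ := Real.log (1 + nsq (S.g x))

/-- The manifold. -/
noncomputable abbrev D (b : E r) (τ : ℝ) : Man (X × E r) (N + r) :=
  mprod (man A S.hinj S.U_open) (Bl_open b τ)

/-- The squared distance to the graph. -/
noncomputable def T (y : X × E r) : ℝ := nsq (S.g y.1 - y.2)

end Fam

/-- The exhaustion of the ball. -/
noncomputable def bet {X : Type} (b : E r) (τ : ℝ) (y : X × E r) : ℝ :=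
  -Real.log (τ - nsq (y.2 - b))

namespace Fam

variable {L : Line A} {k : ℕ} (S : Fam L k r)

/-- The weight. -/
noncomputable def Φ (j γ : ℕ) (ε : ℝ) (b : E r) (τ : ℝ) (y : X × E r) : ℝ :=
  j * S.φ y.1 + j * bet b τ y + γ * rho (Real.log (S.T y + ε))

/-- The function `h`, cut off near the graph and inside the ball. -/
noncomputable def cf (h : X → ℂ) (b : E r) (τ R : ℝ) : X × E r → ℂ :=
  {y | y.1 ∈ S.U ∧ y.2 ∈ Bl b τ}.indicator fun y =>
    ((Real.smoothTransition (R + 1 - bet b τ y) *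
      Real.smoothTransition (2 - 2 * S.T y / τ) : ℝ) : ℂ) * h y.1

/-- The weighted distance in a chart. -/
noncomputable def dist (j γ : ℕ) (ε : ℝ) (b : E r) (τ : ℝ) (G s : X × E r → ℂ) (i : A.ι) : ℝ≥0∞ :=
  ∫⁻ z in (S.D b τ).W i, ENNReal.ofReal (Real.exp (-S.Φ j γ ε b τ ((S.D b τ).p i z)) *
    ‖((A.C i).σ (pr1 N r z)).det‖ * ‖G ((S.D b τ).p i z) - s ((S.D b τ).p i z)‖ ^ 2)

/-- `h` is holomorphic and bounded over the ball. -/
structure Good (h : X → ℂ) (b : E r) (τ C : ℝ) : Prop where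
  b_le : ‖b‖ ≤ 1
  τ_pos : 0 < τ
  τ_le : τ ≤ 1
  hol : ∀ i, ∀ z ∈ (A.C i).W, A.p i z ∈ S.U → nsq (S.g (A.p i z) - b) ≤ 4 * τ →
    DifferentiableAt ℂ (fun w => h (A.p i w)) z
  bd : ∀ x ∈ S.U, nsq (S.g x - b) ≤ 4 * τ → ‖h x‖ ≤ C

end Fam

end Pool.Agent.BP
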