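import Pool.Agent.P.MP_63735c_ag.NR0

/-! The quotients of the sections, and calculus. -/

open scoped ComplexOrder ContDiff Matrix Topology ENNReal
open Set Metric MeasureTheory Filter

namespace Pool.Agent.BP

open Pool.Agent.SPF Pool.Agent.CL Pool.Agent.NL Pool.Agent.CK Pool.Agent.AB Pool.Agent.SE

variable {N r : ℕ} {X : Type} [TopologicalSpace X] {A : Atlas X N} {L : Line A} {k : ℕ}
  (S : Fam L k r) {i : A.ι} {z : E N}

theorem Fam.U_iff (hz : z ∈ (A.C i).W) : A.p i z ∈ S.U ↔ S.s₀ i z ≠ 0 := by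
  rw [Fam.U, mem_ofPred_eq, nrm_eq S.sec₀ hz]
  simp

theorem Fam.g_eq (hz : z ∈ (A.C i).W) : S.g (A.p i z) = fun l => S.s l i z / S.s₀ i z := by
  refine gl_eq fun j y hy he => funext fun l => ?_
  have h0 : L.g i j (A.p i z) ≠ 0 := fun e => by
    have := L.ψ_eq i j z hz y hy he.symm
    rw [e] at this
    simp at this
  rw [(S.sec l).2 i j z hz y hy he.symm, S.sec₀.2 i j z hz y hy he.symm,
    mul_div_mul_left _ _ (pow_ne_zero _ h0)]

theorem nr1_diff (hz : z ∈ (A.C i).W) (hU : A.p i z ∈ S.U) :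
    DifferentiableAt ℂ (fun w => S.g (A.p i w)) z := by
  have hn := (A.C i).isOpen.mem_nhds hz
  refine differentiableAt_pi.2 fun l => ((((S.sec l).1 i).differentiableAt hn).fun_mul
    (((S.sec₀.1 i).differentiableAt hn).fun_inv ((S.U_iff hz).1 hU))).congr_of_eventuallyEq ?_
  filter_upwards [hn] with w hw
  simp only [S.g_eq hw, div_eq_mul_inv]

theorem Fam.g_hol (hz : z ∈ (A.C i).W) (hU : A.p i z ∈ S.U) :
    ∀ᶠ w in 𝓝 z, DifferentiableAt ℂ (fun y => S.g (A.p i y)) w := by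
  filter_upwards [((A.cont i).isOpen_inter_preimage (A.C i).isOpen S.U_open).mem_nhds ⟨hz, hU⟩]
    with w hw using nr1_diff S hw.1 hw.2

theorem Fam.g_cont : ContinuousOn S.g S.U := by
  have h : ContinuousOn S.g (man A S.hinj S.U_open).M :=
    Man.contOn fun i z hz => (nr1_diff S hz.1 hz.2).continuousAt.continuousWithinAt
  rwa [man_M] at h

theorem nr1_sq (hz : z ∈ (A.C i).W) (h : S.s₀ i z ≠ 0) :
    nsq (S.g (A.p i z)) * ‖S.s₀ i z‖ ^ 2 = ∑ l, ‖S.s l i z‖ ^ 2 := by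
  have := norm_ne_zero_iff.2 h
  rw [S.g_eq hz, nsq, Finset.sum_mul]
  exact Finset.sum_congr rfl fun l _ => by
    rw [norm_div]
    field_simp

theorem Fam.cpt [CompactSpace X] (c : ℝ) : IsCompact {x | x ∈ S.U ∧ nsq (S.g x) ≤ c} := by
  refine (congrArg IsCompact (Set.ext fun x => ?_)).mp (isClosed_le (continuous_finsetSum
    Finset.univ fun l _ => sect_cont (nrm_norm (S.sec l)))
      (continuous_const.mul (sect_cont (nrm_norm S.sec₀)) : Continuous fun x => c * _)).isCompact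
  obtain ⟨i, z, hz, rfl⟩ := A.cover x
  simp only [mem_ofPred_eq, Pi.mul_apply, nrm_eq (S.sec _) hz, nrm_eq S.sec₀ hz, S.U_iff hz]
  rw [← Finset.sum_mul, ← mul_assoc, mul_le_mul_iff_left₀ (Real.exp_pos _)]
  by_cases h : S.s₀ i z = 0
  · obtain ⟨l, hl⟩ := S.nz i z hz h
    have := (pow_pos (norm_pos_iff.2 hl) 2).trans_le (Finset.single_le_sum
      (f := fun l => ‖S.s l i z‖ ^ 2) (fun _ _ => sq_nonneg _) (Finset.mem_univ l))
    simpa [h] using this
  · rw [← nr1_sq S hz h, mul_le_mul_iff_left₀ (pow_pos (norm_pos_iff.2 h) 2)]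
    simp [h]

theorem nr1_nn {M : ℕ} (v : E M) : 0 ≤ nsq v := Finset.sum_nonneg fun _ _ => sq_nonneg _

theorem Fam.φ_bd {C : Set (E N)} (hC : IsCompact C) (h : C ⊆ (A.C i).W) :
    ∃ B : ℝ, 0 < B ∧ ∀ z ∈ C, ‖S.s₀ i z‖ ≤ B ∧
      ‖S.s₀ i z‖ ^ 2 ≤ B * Real.exp (-S.φ (A.p i z)) := by
  have c0 := ((S.sec₀.1 i).continuousOn.mono h).norm
  obtain ⟨B, hB⟩ := hC.exists_bound_of_continuousOn ((c0.add (c0.pow 2)).add
    (continuousOn_finsetSum Finset.univ fun l _ =>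
      (((S.sec l).1 i).continuousOn.mono h).norm.pow 2))
  refine ⟨|B| + 1, by positivity, fun z hz => ?_⟩
  have h1 : ‖S.s₀ i z‖ + ‖S.s₀ i z‖ ^ 2 + ∑ l, ‖S.s l i z‖ ^ 2 ≤ |B| :=
    (le_abs_self _).trans ((hB z hz).trans (le_abs_self _))
  have h2 : 0 ≤ ∑ l, ‖S.s l i z‖ ^ 2 := Finset.sum_nonneg fun _ _ => sq_nonneg _
  have h3 := nr1_nn (S.g (A.p i z))
  refine ⟨by nlinarith, ?_⟩
  by_cases h0 : S.s₀ i z = 0
  · rw [h0, norm_zero, zero_pow two_ne_zero]
    positivity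
  · rw [Fam.φ, Real.exp_neg, Real.exp_log (by positivity), ← div_eq_mul_inv,
      le_div_iff₀ (by positivity)]
    linarith [nr1_sq S (h hz) h0, norm_nonneg (S.s₀ i z)]

theorem spl_norm (z : E (N + r)) : ‖z‖ = max ‖pr1 N r z‖ ‖pr2 N r z‖ := by
  refine le_antisymm ((pi_norm_le_iff_of_nonneg (by positivity)).2 fun l => ?_) (max_le
    ((pi_norm_le_iff_of_nonneg (norm_nonneg _)).2 fun a => norm_le_pi_norm z _)
    ((pi_norm_le_iff_of_nonneg (norm_nonneg _)).2 fun a => norm_le_pi_norm z _))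
  obtain ⟨a | a, rfl⟩ := finSumFinEquiv.surjective l
  · exact (norm_le_pi_norm (pr1 N r z) a).trans (le_max_left _ _)
  · exact (norm_le_pi_norm (pr2 N r z) a).trans (le_max_right _ _)

variable {M : ℕ} {F : E M → E r} {y : E M}

theorem nr_grad (hF : ∀ᶠ w in 𝓝 y, DifferentiableAt ℂ F w) (v : E M) :
    ‖v ⬝ᵥ dr (fun w => nsq (F w)) y‖ ^ 2 ≤ nsq (F y) * nsq (fderiv ℂ F y v) := by
  rw [(lev_nsq hF).2.2.1, dotProduct_comm, ← Matrix.dotProduct_mulVec, bpt2_jac]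
  refine (pow_le_pow_left₀ (norm_nonneg _) (norm_sum_le _ _) 2).trans ?_
  simp only [norm_mul, Pi.star_apply, norm_star]
  exact Finset.sum_mul_sq_le_sq_mul_sq _ _ _

theorem nr_fs (hF : ∀ᶠ w in 𝓝 y, DifferentiableAt ℂ F w) :
    ContDiffAt ℝ ∞ (fun w => Real.log (1 + nsq (F w))) y ∧ ∀ v, nsq (fderiv ℂ F y v) ≤
      (1 + nsq (F y)) ^ 2 * hr (lev (fun w => Real.log (1 + nsq (F w))) y) v := by
  obtain ⟨h1, -, -, h2⟩ := lev_nsq hF
  have hp : 0 < 1 + nsq (F y) := by linarith [nr1_nn (F y)]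
  refine ⟨(contDiffAt_const.add h1).log hp.ne', fun v => ?_⟩
  have hev : ∀ᶠ t in 𝓝 (nsq (F y)), 0 < 1 + t :=
    (continuous_const_add 1).continuousAt.eventually (eventually_gt_nhds hp)
  have h3 := lev_chain (f := fun w => nsq (F w)) (ρ := fun t => Real.log (1 + t))
    (ρ₁ := fun t => (1 + t)⁻¹) (hev.mono fun t ht => by
      simpa using ((hasDerivAt_id' t).const_add 1).log ht.ne')
    (((hasDerivAt_id' _).const_add 1).fun_inv hp.ne') h1 v
  have h4 := nr_grad hF v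
  rw [hr, h3, show (hq (lev (fun w => nsq (F w)) y) v v).re = _ from h2 v]
  field_simp
  nlinarith

theorem nr_ball (hF : ∀ᶠ w in 𝓝 y, DifferentiableAt ℂ F w) {τ : ℝ} (h : nsq (F y) < τ) :
    ContDiffAt ℝ ∞ (fun w => -Real.log (τ - nsq (F w))) y ∧ ∀ v,
      hr (lev (fun w => -Real.log (τ - nsq (F w))) y) v = nsq (fderiv ℂ F y v) / (τ - nsq (F y)) +
        ‖v ⬝ᵥ dr (fun w => -Real.log (τ - nsq (F w))) y‖ ^ 2 := by
  obtain ⟨h1, -, -, h2⟩ := lev_nsq hF
  have hp : 0 < τ - nsq (F y) := sub_pos.2 h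
  refine ⟨((contDiffAt_const.sub h1).log hp.ne').neg, fun v => ?_⟩
  have d1 : ∀ t, t < τ → HasDerivAt (fun t => -Real.log (τ - t)) (τ - t)⁻¹ t := fun t ht =>
    (((hasDerivAt_id' t).const_sub τ).log (sub_pos.2 ht).ne').fun_neg.congr_deriv (by
      rw [neg_div, neg_neg, one_div])
  have h3 := lev_chain (f := fun w => nsq (F w)) (ρ := fun t => -Real.log (τ - t))
    (ρ₁ := fun t => (τ - t)⁻¹) ((eventually_lt_nhds h).mono d1)
    (((hasDerivAt_id' _).const_sub τ).fun_inv hp.ne') h1 v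
  rw [hr, h3, show (hq (lev (fun w => nsq (F w)) y) v v).re = _ from h2 v,
    dr_chain (f := fun w => nsq (F w)) (d1 _ h) (h1.differentiableAt (by simp)),
    dotProduct_smul, norm_smul, Complex.norm_real, Real.norm_eq_abs, mul_pow, sq_abs]
  field_simp

theorem nr_lam : ∃ D : ℝ, 0 ≤ D ∧ ∀ {M r : ℕ} {F : E M → E r} {y : E M} {ε : ℝ},
    (∀ᶠ w in 𝓝 y, DifferentiableAt ℂ F w) → 0 < ε →
      ContDiffAt ℝ ∞ (fun w => rho (Real.log (nsq (F w) + ε))) y ∧ ∀ v,
        -(if nsq (F y) ≤ 1 then D * nsq (fderiv ℂ F y v) else 0) ≤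
          hr (lev (fun w => rho (Real.log (nsq (F w) + ε))) y) v := by
  obtain ⟨D, hD0, hD⟩ := rho_deriv
  refine ⟨D * Real.exp 1, by positivity, fun {M r F y ε} hF hε => ?_⟩
  obtain ⟨h1, -, -, h2⟩ := lev_nsq hF
  have hp : 0 < nsq (F y) + ε := add_pos_of_nonneg_of_pos (nr1_nn _) hε
  refine ⟨rho_smooth.contDiffAt.comp y ((h1.add contDiffAt_const).log hp.ne'), fun v => ?_⟩
  split_ifs with h
  · have hev : ∀ᶠ t in 𝓝 (nsq (F y)), 0 < t + ε :=
      (continuous_add_const ε).continuousAt.eventually (eventually_gt_nhds hp)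
    have h3 := lev_chain (f := fun w => nsq (F w)) (hev.mono fun t ht => (bpe1_der one_pos ht).1)
      (bpe1_der one_pos hp).2 h1 v
    simp only [div_one] at h3
    rw [hr, h3, show (hq (lev (fun w => nsq (F w)) y) v v).re = _ from h2 v]
    obtain ⟨d1, d2, d3⟩ := hD (Real.log (nsq (F y) + ε))
    refine bpe1_ineq hp d1 (sq_nonneg _) ((nr_grad hF v).trans (mul_le_mul_of_nonneg_right
      (le_add_of_nonneg_right hε.le) (nr1_nn _))) (by positivity) ?_
    rcases lt_or_ge (Real.log (nsq (F y) + ε)) (-1) with h | h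
    · rw [d3 h]
      exact neg_nonpos.2 (by positivity)
    refine le_trans (neg_le_neg ?_) d2
    rw [Real.le_log_iff_exp_le hp, Real.exp_neg, inv_le_iff_one_le_mul₀ (Real.exp_pos 1)] at h
    nlinarith
  · have h3 : (fun w => rho (Real.log (nsq (F w) + ε))) =ᶠ[𝓝 y] fun _ => 0 :=
      (continuousAt_const.eventually_lt h1.continuousAt (not_le.1 h)).mono fun w hw =>
        (rho_bd _).2.2.2 (Real.log_nonneg (by linarith))
    rw [(lev_congr h3).self_of_nhds, lev_const, hr, hq_zero, Complex.zero_re, neg_zero]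

end Pool.Agent.BP
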