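import Pool.Agent.P.MP_63735c_ag.NR0
import Pool.Agent.P.MP_63735c_ag.BPE6

/-! The L2 estimate on a manifold with a flat volume form, and the volume of the product. -/

open scoped ComplexOrder ContDiff Matrix Topology ENNReal
open Set Metric MeasureTheory Filter

namespace Pool.Agent.BP

open Pool.Agent.SPF Pool.Agent.CL Pool.Agent.NL Pool.Agent.CK Pool.Agent.AB Pool.Agent.SE

theorem l2_man {N : ℕ} {Y : Type} [TopologicalSpace Y] [MeasurableSpace Y] [BorelSpace Y]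
    [T2Space Y] {D : Man Y N} {ν : Measure Y} {Ψ₀ : D.ι → E N → ℝ} (hd : D.Den ν Ψ₀)
    (h0 : ∀ i, ∀ z ∈ D.W i, ContDiffAt ℝ ∞ (Ψ₀ i) z ∧ lev (Ψ₀ i) z = 0)
    {K : D.ι → E N → Mat N} (h1 : ∀ i, Kah (D.W i) (K i)) (h2 : D.Cpt K) (h3 : D.Cut K)
    {Φ : Y → ℝ} (hΦ : D.Smo Φ) (hp : ∀ i, ∀ z ∈ D.W i, ∀ v, 0 ≤ hr (D.levG Φ i z) v)
    {s : Y → ℂ} (hs : D.S s) {c : Y → ℝ} (hc : D.Cc c) (hc0 : ∀ y, 0 ≤ c y)
    (hsc : ∀ i, ∀ z ∈ D.W i, ∀ v, ‖v ⬝ᵥ star (db (fun y => s (D.p i y)) z)‖ ^ 2 ≤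
      c (D.p i z) * hr (D.levG Φ i z) v) :
    ∃ g : Y → ℂ, D.Hol g ∧ ∀ i, ∫⁻ z in D.W i, ENNReal.ofReal (Real.exp (-Φ (D.p i z)) *
      wt (Ψ₀ i) z * ‖g (D.p i z) - s (D.p i z)‖ ^ 2) ≤
        ∫⁻ y in D.M, ENNReal.ofReal (c y * Real.exp (-Φ y)) ∂ν := by
  classical
  let Ψ : D.ι → E N → ℝ := fun i z => Φ (D.p i z) + Ψ₀ i z
  have hφa : ∀ i, ∀ z ∈ D.W i, ContDiffAt ℝ ∞ (fun y => Φ (D.p i y)) z :=
    fun i z hz => (hΦ i).contDiffAt ((D.isOpen i).mem_nhds hz)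
  have hlev : ∀ i, ∀ z ∈ D.W i, lev (Ψ i) z = D.levG Φ i z := by
    intro i z hz
    rw [lev_add (hφa i z hz) (h0 i z hz).1, (h0 i z hz).2, add_zero]
    rfl
  have hw : ∀ i z, wt (Ψ i) z = Real.exp (-Φ (D.p i z)) * wt (Ψ₀ i) z := by
    intro i z
    rw [wt, wt, ← Real.exp_add, neg_add]
  have hM : MeasurableSet D.M := D.isOpen_M.measurableSet
  let f : Y → ℝ := D.M.piecewise (fun x => Real.exp (-Φ x)) fun _ => 0
  have hfm : Measurable f :=
    ContinuousOn.measurable_piecewise (Man.contOn fun i => (hΦ i).continuousOn).neg.rexp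
      continuousOn_const hM
  let D' : Dat Y N :=
    { toMan := D
      K := K
      Ψ := Ψ
      ν := ν.withDensity fun x => ENNReal.ofReal (f x)
      kah := h1
      K_cpt := h2
      Ψ_smooth := fun i z hz => ((hφa i z hz).add (h0 i z hz).1).contDiffWithinAt
      den := fun i S hS hm => by
        rw [withDensity_apply _ (Man.meas_img hm hS),
          hd.lint (fun z hz => (h0 i z hz).1.continuousAt.continuousWithinAt) hm hS]
        refine setLIntegral_congr_fun hm fun z hz => ?_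
        have h4 : f (D.p i z) = Real.exp (-Φ (D.p i z)) :=
          piecewise_eq_of_mem _ _ _ (mem_iUnion.2 ⟨i, z, hS hz, rfl⟩)
        change ENNReal.ofReal (wt (Ψ₀ i) z) * ENNReal.ofReal (f (D.p i z)) = _
        rw [← ENNReal.ofReal_mul (wt_pos _ _).le, h4, hw i z, mul_comm] }
  have hP : D'.Pos :=
    { Θ_cpt := fun i j z hz τ hτ => by
        change lev (Ψ i) z = (jac τ z)ᵀ * lev (Ψ j) (τ z) * (jac τ z).map star
        rw [hlev i z hz, hlev j _ hτ.self_of_nhds.2.1]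
        exact Man.levG_cpt hΦ i j z hz τ hτ
      Θ_psd := fun i z hz v => by
        change 0 ≤ (hq (lev (Ψ i) z) v v).re
        rw [hlev i z hz]
        exact hp i z hz v
      cut := h3 }
  obtain ⟨g, hg, hb⟩ := Dat.l2e (D := D') hP hs hc hc0 fun i z hz v => by
    change _ ≤ c (D.p i z) * (hq (lev (Ψ i) z) v v).re
    rw [hlev i z hz]
    exact hsc i z hz v
  refine ⟨g, hg, fun i => ?_⟩
  have hcm : Measurable fun x => ENNReal.ofReal (c x) := hc.continuous.measurable.ennreal_ofReal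
  calc _ = ∫⁻ z in D.W i, ENNReal.ofReal (wt (Ψ i) z * ‖g (D.p i z) - s (D.p i z)‖ ^ 2) := by
        simp only [hw]
    _ = ENNReal.ofReal (∫ z in D.W i, wt (Ψ i) z * ‖g (D.p i z) - s (D.p i z)‖ ^ 2) :=
        (ofReal_integral_eq_lintegral_ofReal (hb i).1 (Eventually.of_forall fun z =>
          mul_nonneg (wt_pos _ _).le (sq_nonneg _))).symm
    _ ≤ ENNReal.ofReal (∫ x, c x ∂D'.ν) := ENNReal.ofReal_le_ofReal (hb i).2
    _ = ∫⁻ x, ENNReal.ofReal (c x) ∂D'.ν := ofReal_integral_eq_lintegral_ofReal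
        (hc.integrable D'.den fun i => (D'.Ψ_smooth i).continuousOn) (Eventually.of_forall hc0)
    _ = ∫⁻ x, ENNReal.ofReal (f x) * ENNReal.ofReal (c x) ∂ν :=
        lintegral_withDensity_eq_lintegral_mul _ hfm.ennreal_ofReal hcm
    _ = _ := by
        rw [← lintegral_indicator hM]
        refine lintegral_congr fun x => ?_
        by_cases hx : x ∈ D.M
        · rw [indicator_of_mem hx, ENNReal.ofReal_mul (hc0 x), mul_comm]
          simp only [f, piecewise_eq_of_mem _ _ _ hx]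
        · rw [indicator_of_notMem hx]
          simp only [f, piecewise_eq_of_notMem _ _ _ hx, ENNReal.ofReal_zero, zero_mul]

variable {N r : ℕ} {X : Type} [TopologicalSpace X] {D : Man X N} {B : Set (E r)}

theorem mprod_M (hB : IsOpen B) : (mprod D hB).M = D.M ×ˢ B := by
  ext ⟨x, w⟩
  simp only [Man.M, mem_iUnion, mem_prod]
  constructor
  · rintro ⟨i, z, hz, e⟩
    obtain ⟨rfl, rfl⟩ := Prod.mk.inj e
    exact ⟨⟨i, _, hz.1, rfl⟩, hz.2⟩
  · rintro ⟨⟨i, a, ha, rfl⟩, hw⟩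
    refine ⟨i, ap a w, ⟨by rwa [pr1_ap], by rwa [pr2_ap]⟩, ?_⟩
    change (D.p i (pr1 N r (ap a w)), pr2 N r (ap a w)) = _
    rw [pr1_ap, pr2_ap]

theorem spl_mp (N r : ℕ) : MeasurePreserving (spl N r) volume volume := by
  exact (volume_measurePreserving_sumPiEquivProdPi fun _ : Fin N ⊕ Fin r => ℂ).comp
    (volume_measurePreserving_piCongrLeft (fun _ : Fin (N + r) => ℂ) finSumFinEquiv).symm

theorem mprod_den [MeasurableSpace X] [BorelSpace X] {μ : Measure X} [SFinite μ]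
    {Ψ : D.ι → E N → ℝ} (hd : D.Den μ Ψ) (hΨ : ∀ i, ContinuousOn (Ψ i) (D.W i)) (hB : IsOpen B) :
    (mprod D hB).Den (μ.prod volume) fun i z => Ψ i (pr1 N r z) := by
  intro i S hS hm
  have hm' : MeasurableSet ((spl N r).symm ⁻¹' S) := (spl N r).symm.continuous.measurable hm
  have hsub : ∀ a w, ap a w ∈ S → a ∈ D.W i := fun a w h => pr1_ap a w ▸ (hS h).1
  have hF : AEMeasurable (((spl N r).symm ⁻¹' S).indicator
      fun q : E N × E r => ENNReal.ofReal (wt (Ψ i) q.1)) (volume.prod volume) :=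
    (aemeasurable_indicator_iff hm').2 ((((Man.abmeas_wt (hΨ i)).comp continuous_fst.continuousOn
      fun q hq => hsub q.1 q.2 hq).aemeasurable hm').ennreal_ofReal)
  rw [Measure.prod_apply_symm (Man.meas_img hm hS), ← lintegral_indicator hm]
  calc _ = ∫⁻ w, ∫⁻ a, ((spl N r).symm ⁻¹' S).indicator
        (fun q : E N × E r => ENNReal.ofReal (wt (Ψ i) q.1)) (a, w) := by
        refine lintegral_congr fun w => ?_
        have hw : MeasurableSet {a | ap a w ∈ S} := measurable_prodMk_right hm'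
        have e : (fun x => (x, w)) ⁻¹' ((mprod D hB).p i '' S) = D.p i '' {a | ap a w ∈ S} := by
          ext x
          constructor
          · rintro ⟨z, hz, e⟩
            obtain ⟨rfl, rfl⟩ := Prod.mk.inj e
            exact ⟨_, show ap (pr1 N r z) (pr2 N r z) ∈ S by rwa [ap_pr], rfl⟩
          · rintro ⟨a, ha, rfl⟩
            refine ⟨ap a w, ha, ?_⟩
            change (D.p i (pr1 N r (ap a w)), pr2 N r (ap a w)) = _
            rw [pr1_ap, pr2_ap]
        rw [e, hd i {a | ap a w ∈ S} (fun a ha => hsub a w ha) hw, ← lintegral_indicator hw]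
        rfl
    _ = ∫⁻ q, ((spl N r).symm ⁻¹' S).indicator
        (fun q : E N × E r => ENNReal.ofReal (wt (Ψ i) q.1)) q := (lintegral_prod_symm _ hF).symm
    _ = _ := by
        rw [← (spl_mp N r).lintegral_comp_emb (spl N r).toHomeomorph.measurableEmbedding]
        refine lintegral_congr fun z => ?_
        by_cases hz : z ∈ S
        · rw [indicator_of_mem hz, indicator_of_mem (by simpa using hz)]
          rfl
        · rw [indicator_of_notMem hz, indicator_of_notMem (by simpa using hz)]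

/-- The estimate on the product. -/
theorem Fam.l2 [MeasurableSpace X] [BorelSpace X] [T2Space X] [CompactSpace X] {A : Atlas X N}
    {L : Line A} {k : ℕ} (S : Fam L k r) {μ : Measure X} (hμ : IsVolume A μ) {b : E r} {τ : ℝ}
    {K : A.ι → E (N + r) → Mat (N + r)} (h1 : ∀ i, Kah ((S.D b τ).W i) (K i))
    (h2 : (S.D b τ).Cpt K) (h3 : (S.D b τ).Cut K) {j γ : ℕ} {ε : ℝ}
    (hΦ : (S.D b τ).Smo (S.Φ j γ ε b τ))
    (hp : ∀ i, ∀ z ∈ (S.D b τ).W i, ∀ v, 0 ≤ hr ((S.D b τ).levG (S.Φ j γ ε b τ) i z) v)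
    {s : X × E r → ℂ} (hs : (S.D b τ).S s) {c : X × E r → ℝ} (hc : (S.D b τ).Cc c)
    (hc0 : ∀ y, 0 ≤ c y)
    (hsc : ∀ i, ∀ z ∈ (S.D b τ).W i, ∀ v, ‖v ⬝ᵥ star (db (fun y => s ((S.D b τ).p i y)) z)‖ ^ 2 ≤
      c ((S.D b τ).p i z) * hr ((S.D b τ).levG (S.Φ j γ ε b τ) i z) v) {C : ℝ}
    (hC : ∀ y, y.1 ∈ S.U → y.2 ∈ Bl b τ → c y * Real.exp (-S.Φ j γ ε b τ y) ≤ C) :
    ∃ G, (S.D b τ).Hol G ∧ ∀ i, S.dist j γ ε b τ G s i ≤
      ENNReal.ofReal C * (μ univ * volume (Bl b τ)) := by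
  let Ψ₀ : A.ι → E N → ℝ := fun i z => (-1) * Real.log ‖((A.C i).σ z).det‖
  have hΨ₀ : ∀ i, ∀ z ∈ (A.C i).W, ContDiffAt ℝ ∞ (Ψ₀ i) z ∧ lev (Ψ₀ i) z = 0 := fun i z hz =>
    ⟨contDiffAt_const.mul (abd_det (A.C i) hz).1, by
      rw [lev_smul (abd_det (A.C i) hz).1, (abd_det (A.C i) hz).2, smul_zero]⟩
  have hw₀ : ∀ i, ∀ z ∈ (A.C i).W, wt (Ψ₀ i) z = ‖((A.C i).σ z).det‖ := by
    intro i z hz
    simp only [wt, Ψ₀, neg_mul, one_mul, neg_neg]
    exact Real.exp_log (norm_pos_iff.2 ((A.C i).σ_det z hz))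
  have hd₀ : (man A S.hinj S.U_open).Den μ Ψ₀ := by
    intro i T hT hm
    refine (hμ i T (hT.trans inter_subset_left) hm).trans
      (setLIntegral_congr_fun hm fun z hz => ?_)
    rw [hw₀ i z (hT hz).1, ofReal_norm]
  have := vol_finite hμ
  obtain ⟨G, hG, hb⟩ := l2_man (mprod_den hd₀ (fun i z hz =>
    (hΨ₀ i z hz.1).1.continuousAt.continuousWithinAt) (Bl_open b τ)) (fun i z hz =>
      ⟨(hΨ₀ i _ hz.1.1).1.comp z ((pr1 N r).restrictScalars ℝ).contDiff.contDiffAt, by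
        rw [lev_comp (hΨ₀ i _ hz.1.1).1 (Eventually.of_forall fun _ => (pr1 N r).differentiableAt),
          (hΨ₀ i _ hz.1.1).2, Matrix.mul_zero, Matrix.zero_mul]⟩) h1 h2 h3 hΦ hp hs hc hc0 hsc
  refine ⟨G, hG, fun i => le_trans (le_of_eq ?_) ((hb i).trans ?_)⟩
  · refine setLIntegral_congr_fun ((S.D b τ).isOpen i).measurableSet fun z hz => ?_
    simp only [← hw₀ i _ hz.1.1]
    rfl
  · rw [mprod_M, man_M]
    refine (setLIntegral_mono' (g := fun _ => ENNReal.ofReal C)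
      (S.U_open.measurableSet.prod (Bl_open b τ).measurableSet)
      fun y hy => ENNReal.ofReal_le_ofReal (hC y hy.1 hy.2)).trans ?_
    rw [setLIntegral_const, Measure.prod_prod]
    gcongr
    exact subset_univ _

end Pool.Agent.BP
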