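import Pool.Agent.P.MP_63735c_ag.NR2
import Pool.Agent.P.MP_63735c_ag.NR3
import Pool.Agent.P.MP_63735c_ag.NR4

/-! Holomorphic functions on the product that are close to `h` along the graph. -/

open scoped ComplexOrder ContDiff Matrix Topology ENNReal
open Set Metric MeasureTheory Filter

namespace Pool.Agent.BP

open Pool.Agent.SPF Pool.Agent.CL Pool.Agent.NL Pool.Agent.CK Pool.Agent.AB Pool.Agent.SE

theorem nr5_rho {a t : ℝ} (ha : 0 < a) (h1 : a ≤ 1) (h : a ≤ t) :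
    Real.log a ≤ rho (Real.log t) := by
  rcases (rho_bd (Real.log t)).1.lt_or_eq with h0 | h0
  · exact (Real.log_le_log ha h).trans ((rho_bd _).2.2.1 h0)
  · rw [h0]
    exact Real.log_nonpos ha.le h1

theorem nr5_nsq {r : ℕ} (w : E r) : 0 ≤ nsq w := Finset.sum_nonneg fun _ _ => sq_nonneg _

theorem nr5_vol {r : ℕ} (b : E r) {τ : ℝ} (h : τ ≤ 1) : volume (Bl b τ) ≠ ⊤ := by
  refine ((measure_mono fun w hw => ?_).trans_lt (measure_closedBall_lt_top (x := b) (r := 1))).ne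
  rw [mem_closedBall, dist_eq_norm, pi_norm_le_iff_of_nonneg zero_le_one]
  intro a
  have h1 : ‖(w - b) a‖ ^ 2 ≤ nsq (w - b) :=
    Finset.single_le_sum (f := fun a => ‖(w - b) a‖ ^ 2) (fun _ _ => sq_nonneg _)
      (Finset.mem_univ a)
  have h2 : nsq (w - b) < τ := hw
  nlinarith [norm_nonneg ((w - b) a)]

theorem nr_out (r γ : ℕ) : ∃ j : ℕ, 1 ≤ j ∧ ∀ {N : ℕ} {X : Type} [TopologicalSpace X]
    [MeasurableSpace X] [BorelSpace X] [T2Space X] [CompactSpace X] {A : Atlas X N} {L : Line A}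
    {k : ℕ} {μ : Measure X} {K : Form11 A} (S : Fam L k r) (h : X → ℂ) (b : E r) (τ C : ℝ),
    IsVolume A μ → (∀ i, ∀ z ∈ (A.C i).W, (K.h i z).PosDef) → S.Good h b τ C →
      ∃ C₀ : ℝ, 0 < C₀ ∧ ∀ ε, 0 < ε → ε ≤ 1 → ∀ R₀, ∃ R, R₀ ≤ R ∧ ∃ G, (S.D b τ).Hol G ∧
        ∀ i, S.dist j γ ε b τ G (S.cf h b τ R) i ≤ ENNReal.ofReal C₀ := by
  obtain ⟨j, hj, hΦ⟩ := Φ_lev r γ
  refine ⟨j, hj, ?_⟩
  intro N X _ _ _ _ _ A L k μ K S h b τ C hμ hK H
  obtain ⟨B, hB, hcf⟩ := H.cf_db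
  obtain ⟨K', k1, k2, k3⟩ := S.cut hK b H.τ_pos
  have hτ := H.τ_pos
  have hτ1 := H.τ_le
  have hfin : μ univ ≠ ⊤ := by
    have := vol_finite hμ
    exact measure_ne_top μ _
  have hv := ENNReal.mul_ne_top hfin (nr5_vol b hτ1)
  obtain ⟨C₁, hC₁⟩ : ∃ C₁, C₁ = B + B * Real.exp (-(γ * Real.log (τ / 2))) := ⟨_, rfl⟩
  have hC0 : 0 ≤ C₁ := by
    rw [hC₁]
    positivity
  refine ⟨C₁ * (μ univ * volume (Bl b τ)).toReal + 1, by positivity, fun ε hε hε1 R₀ => ?_⟩
  refine ⟨max R₀ (-(γ * Real.log ε)), le_max_left _ _, ?_⟩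
  obtain ⟨hs, c, hc, hc0, hcb, hsc⟩ := hcf (max R₀ (-(γ * Real.log ε)))
  obtain ⟨sm, hl⟩ := hΦ S b τ ε H.b_le hτ1 hε
  obtain ⟨G, hG, hd⟩ := S.l2 hμ k1 k2 k3 sm
    (fun i z hz v => (S.Q_bd H.b_le hτ1 hz v).1.trans (hl i z hz v)) hs hc hc0
    (fun i z hz v => (hsc i z hz v).trans (mul_le_mul_of_nonneg_left (hl i z hz v) (hc0 _)))
    (C := C₁) fun y _ hy => by
      have hy' : nsq (y.2 - b) < τ := hy
      have p1 : 0 ≤ S.φ y.1 := Real.log_nonneg (by linarith [nr5_nsq (S.g y.1)])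
      have p2 : 0 ≤ bet b τ y := neg_nonneg.2 (Real.log_nonpos (by linarith)
        (by linarith [nr5_nsq (y.2 - b)]))
      have p3 : 0 ≤ S.T y := nr5_nsq _
      have hj' : (1 : ℝ) ≤ j := by exact_mod_cast hj
      have hγ : (0 : ℝ) ≤ γ := Nat.cast_nonneg _
      have p4 : 0 ≤ (j : ℝ) * S.φ y.1 := by positivity
      have p5 : bet b τ y ≤ j * bet b τ y := le_mul_of_one_le_left p2 hj'
      have q1 : (if max R₀ (-(γ * Real.log ε)) ≤ bet b τ y then B else 0) *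
          Real.exp (-S.Φ j γ ε b τ y) ≤ B := by
        split_ifs with hR
        · refine mul_le_of_le_one_right hB (Real.exp_le_one_iff.2 ?_)
          have := mul_le_mul_of_nonneg_left (nr5_rho hε hε1 (t := S.T y + ε) (by linarith)) hγ
          have := le_max_right R₀ (-(γ * Real.log ε))
          unfold Fam.Φ
          linarith
        · rwa [zero_mul]
      have q2 : (if τ ≤ 2 * S.T y then B else 0) * Real.exp (-S.Φ j γ ε b τ y) ≤
          B * Real.exp (-(γ * Real.log (τ / 2))) := by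
        split_ifs with hT
        · refine mul_le_mul_of_nonneg_left (Real.exp_le_exp.2 ?_) hB
          have := mul_le_mul_of_nonneg_left (nr5_rho (a := τ / 2) (by linarith) (by linarith)
            (t := S.T y + ε) (by linarith)) hγ
          unfold Fam.Φ
          linarith
        · rw [zero_mul]
          positivity
      have q3 := mul_le_mul_of_nonneg_right (hcb y) (Real.exp_pos (-S.Φ j γ ε b τ y)).le
      rw [add_mul] at q3
      rw [hC₁]
      linarith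
  refine ⟨G, hG, fun i => (hd i).trans ?_⟩
  rw [← ENNReal.ofReal_toReal hv, ← ENNReal.ofReal_mul hC0, ENNReal.toReal_ofReal
    ENNReal.toReal_nonneg]
  exact ENNReal.ofReal_le_ofReal (by linarith)

end Pool.Agent.BP
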