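import Pool.Agent.P.MP_63735c_ag.BPFib
import Pool.Agent.P.MP_c4558b_ag.NLVol

/-! Proper maps from an atlas, local embeddings and scales (not in any statement). -/

open scoped ComplexOrder ContDiff Matrix Topology ENNReal
open Set Metric MeasureTheory Filter

namespace Pool.Agent.BP

open Pool.Agent.SPF Pool.Agent.AB Pool.Agent.CK Pool.Agent.NL

variable {N n : ℕ} {X Z : Type} [TopologicalSpace X] [TopologicalSpace Z]

/-- A holomorphic map on an open part of `X`. -/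
def HolV (A : Atlas X N) (U : Set X) {M : ℕ} (f : X → E M) : Prop :=
  ∀ i, DifferentiableOn ℂ (fun z => f (A.p i z)) (dom A U i)

/-- A proper holomorphic map from an open part of `X` that embeds in an affine space. -/
structure PrA (A : Atlas X N) (Ω : Set X) (Ω' : Set (E N)) (P : X → E N) : Prop where
  inj : ∀ i, InjOn (A.p i) (A.C i).W
  isOpen : IsOpen Ω
  isOpen' : IsOpen Ω'
  hol : HolV A Ω P
  maps : MapsTo P Ω Ω'
  proper : ∀ C, IsCompact C → C ⊆ Ω' → IsCompact (Ω ∩ P ⁻¹' C)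
  emb : ∃ (M : ℕ) (v : X → E M), InjOn v Ω ∧ HolV A Ω v ∧
    ∀ i, ∀ z ∈ dom A Ω i, Function.Injective (fderiv ℂ (fun w => v (A.p i w)) z)

/-- Regular points. -/
def Reg (A : Atlas X N) (P : X → E N) (x : X) : Prop :=
  ∀ i, ∀ z ∈ (A.C i).W, A.p i z = x → (Jg A P i z).det ≠ 0

/-- Regular values. -/
def RVA (A : Atlas X N) (Ω : Set X) (Ω' : Set (E N)) (P : X → E N) : Set (E N) :=
  {w | w ∈ Ω' ∧ ∀ x ∈ Ω, P x = w → Reg A P x}

/-- The sum over a fibre. -/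
noncomputable def fsA {X F : Type} [AddCommMonoid F] (Ω : Set X) (P : X → E N) (u : X → F)
    (w : E N) : F := ∑ᶠ x ∈ Ω ∩ P ⁻¹' {w}, u x

/-- The trace of `h`. -/
noncomputable def trA (A : Atlas X N) (Ω : Set X) (P : X → E N) (h : X → ℂ) (w : E N) : ℂ :=
  limUnder (𝓝[RVA A Ω univ P] w) (fsA Ω P h)

/-- A local embedding of `Z` and the inverse `s` of the section in a frame. -/
structure Em (A : Atlas X N) (K : Form11 A) (W : Set X) (φ : X → ℝ) (j : X → Z) where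
  M : ℕ
  O : Set Z
  z : Z → E M
  s : X → ℂ
  c : ℝ
  C : ℝ
  opn : IsOpen O
  cont : ContinuousOn z O
  inj : InjOn z O
  hol : HolV A (j ⁻¹' O) fun x => z (j x)
  imm : ∀ i, ∀ w ∈ dom A (j ⁻¹' O) i, Function.Injective (fderiv ℂ (fun w => z (j (A.p i w))) w)
  low : ∀ i, ∀ w ∈ dom A (j ⁻¹' O) i, ∀ u,
    nsq (fderiv ℂ (fun w => z (j (A.p i w))) w u) ≤ C * hr (K.h i w) u
  s_hol : HolOn A (W ∩ j ⁻¹' O) s
  c_pos : 0 < c
  C_pos : 0 < C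
  s_bd : ∀ y ∈ W ∩ j ⁻¹' O, c ≤ ‖s y‖ ^ 2 * Real.exp (-φ y) ∧ ‖s y‖ ^ 2 * Real.exp (-φ y) ≤ C

/-- A scale: a box in a local embedding. -/
structure Sz (A : Atlas X N) (K : Form11 A) (W : Set X) (φ : X → ℝ) (j : X → Z) (n : ℕ)
    extends Em A K W φ j where
  ε : Fin n ⊕ Fin n ≃ Fin N
  L : E M →L[ℂ] E n
  a : E n
  o : E M
  ρ : ℝ
  r₁ : ℝ
  r₂ : ℝ
  ρ_pos : 0 < ρ
  lt : r₁ < r₂
  cpt : IsCompact (O ∩ z ⁻¹' closedBall o r₂)

variable {A : Atlas X N} {K : Form11 A} {W : Set X} {φ : X → ℝ} {j : X → Z}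

/-- The embedding on `X`. -/
abbrev Em.v (e : Em A K W φ j) (x : X) : E e.M := e.z (j x)

namespace Sz

variable (e : Sz A K W φ j n)

/-- The splitting of the target. -/
noncomputable def l : E N ≃L[ℂ] E n × E n := kap e.ε

/-- The closed box. -/
def cbox : Set Z := e.O ∩ e.z ⁻¹' (e.L ⁻¹' closedBall e.a (2 * e.ρ) ∩ closedBall e.o e.r₂)

/-- The open box. -/
def box : Set Z := e.O ∩ e.z ⁻¹' (e.L ⁻¹' ball e.a (2 * e.ρ) ∩ ball e.o e.r₂)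

/-- The core. -/
def core : Set Z := e.O ∩ e.z ⁻¹' (e.L ⁻¹' ball e.a e.ρ ∩ ball e.o e.r₁)

/-- The shell. -/
def shell : Set Z :=
  e.O ∩ e.z ⁻¹' (e.L ⁻¹' closedBall e.a (2 * e.ρ) ∩ (closedBall e.o e.r₂ \ ball e.o e.r₁))

end Sz

/-- The output of part D along the filter `x`. -/
structure GermS (A : Atlas X N) (W : Set X) (Om : A.ι → E N → Mat N) (φ : X → ℝ) (x : Filter X)
    where
  M : ℕ
  Nb : Set X
  G : X → E M
  Wf : X → ℂ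
  d : ℕ
  δ : ℝ
  c : ℝ
  C : ℝ
  opn : IsOpen Nb
  sub : Nb ⊆ W
  d_pos : 1 ≤ d
  δ_pos : 0 < δ
  c_pos : 0 < c
  G_hol : ∀ i, DifferentiableOn ℂ (fun z => G (A.p i z)) (dom A Nb i)
  closed : ∀ y ∈ W, y ∈ closure {y' | y' ∈ Nb ∧ nsq (G y') ≤ δ} → y ∈ Nb
  grad : ∀ i, ∀ z ∈ dom A Nb i, ∀ v,
    nsq (fderiv ℂ (fun y => G (A.p i y)) z v) ≤ C * hr (Om i z) v
  Wf_hol : ∀ i, DifferentiableOn ℂ (fun z => Wf (A.p i z)) (dom A Nb i)
  Wf_bd : ∀ y ∈ Nb, c ≤ ‖Wf y‖ ^ 2 * Real.exp (-(d * φ y)) ∧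
    ‖Wf y‖ ^ 2 * Real.exp (-(d * φ y)) ≤ C
  near : ∀ ρ : ℝ, 0 < ρ → ∃ᶠ y in x, y ∈ Nb ∧ nsq (G y) < ρ

namespace Fib

variable (F : Fib A n)

/-- Base vectors have lifts of bounded length. -/
def Lift (K : Form11 A) (h : X → Mat n) : Prop :=
  ∃ C : ℝ, 0 < C ∧ ∀ i, ∀ z ∈ (A.C i).W, A.p i z ∈ F.W → ∀ v : E n, ∃ u : E N,
    Jg A F.g i z *ᵥ u = v ∧
      (h (A.p i z)).det.re * hr (K.h i z) u ≤ C * hr (h (A.p i z)).adjugateᵀ v

/-- The limit set of the classes along a filter. -/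
def LimS (j : X → Z) (U : Filter X) : Set Z := {y | ∀ O ∈ 𝓝 y, ∀ᶠ x in U, ∃ y', j y' ∈ O ∧ F.r x y'}

/-- The packing bound for the classes. -/
def PackS (e : Em A K F.W φ j) : Prop :=
  ∀ o r, 0 < r → IsCompact (e.O ∩ e.z ⁻¹' closedBall o (2 * r)) → ∃ B : ℝ, ∀ x ∈ F.W, ∀ ρ, 0 < ρ →
    ρ ≤ r → ∀ S : Finset X, (∀ y ∈ S, j y ∈ e.O ∧ e.v y ∈ closedBall o r ∧ F.r x y) →
      (∀ y ∈ S, ∀ y' ∈ S, y ≠ y' → ρ ≤ dist (e.v y) (e.v y')) → S.card * ρ ^ (2 * n) ≤ B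

/-- The map `(g, pr)`. -/
noncomputable def Pz (e : Sz A K F.W φ j n) (x : X) : E N := e.l.symm (F.g x, e.L (e.v x))

/-- The pointwise area bounds. -/
def AreaS (e : Sz A K F.W φ j n) (h : X → Mat n) : Prop :=
  ∃ B : ℝ, 0 ≤ B ∧ ∀ i, ∀ w ∈ dom A (F.W ∩ j ⁻¹' e.O) i,
    ‖(Jg A (F.Pz e) i w).det‖ ^ 2 ≤ ‖((A.C i).σ w).det‖ * (B * (h (A.p i w)).det.re) ∧
    ∀ v u, Jg A (F.Pz e) i w *ᵥ u = e.l.symm (v, 0) →
      ‖(Jg A (F.Pz e) i w).det‖ ^ 2 * ‖fderiv ℂ (fun y => e.v (A.p i y)) w u‖ ^ 2 ≤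
        ‖((A.C i).σ w).det‖ * (B * hr (h (A.p i w)).adjugateᵀ v)

/-- Degree and traces of the classes in `M` on the scale `e`. -/
structure TrS (e : Sz A K F.W φ j n) (M : Set X) (deg : X → ℕ) (Tr : (X → ℂ) → X → E n → ℂ) :
    Prop where
  fam : ∀ x ∈ M, ∀ a ∈ ball e.a (2 * e.ρ), ∃ y : Fin (deg x) → X,
    (∀ k, j (y k) ∈ e.box ∧ F.r x (y k) ∧ e.L (e.v (y k)) = a) ∧
    (∀ z, j z ∈ e.box → F.r x z → e.L (e.v z) = a → ∃ k, y k = z) ∧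
    ∀ h, HolOn A (F.W ∩ j ⁻¹' e.O) h → Tr h x a = ∑ k, h (y k)
  inv : ∀ x ∈ M, ∀ y, F.r x y → deg y = deg x
  lc : ∀ x ∈ M, ∀ᶠ y in 𝓝 x, deg y = deg x
  bdd : ∃ B, ∀ x ∈ M, deg x ≤ B
  hol_a : ∀ h, HolOn A (F.W ∩ j ⁻¹' e.O) h → ∀ x ∈ M,
    DifferentiableOn ℂ (Tr h x) (ball e.a (2 * e.ρ))
  hol_x : ∀ h, HolOn A (F.W ∩ j ⁻¹' e.O) h → ∀ a ∈ ball e.a (2 * e.ρ), HolOn A M fun x => Tr h x a
  grad : ∀ h : E e.M → ℂ, Differentiable ℂ h → ∃ B : ℝ, ∀ a ∈ ball e.a e.ρ, ∀ i,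
    ∀ z ∈ dom A M i, ∀ v,
      ‖fderiv ℂ (fun y => Tr (fun x => h (e.v x)) (A.p i y) a) z v‖ ^ 2 ≤ B * hr (F.Om i z) v

end Fib

theorem dom_open (A : Atlas X N) {M : Set X} (hM : IsOpen M) (i : A.ι) : IsOpen (dom A M i) :=
  (A.cont i).isOpen_inter_preimage (A.C i).isOpen hM

theorem Sz.cbox_cpt [T2Space Z] (e : Sz A K W φ j n) : IsCompact e.cbox ∧ e.cbox ⊆ e.O ∧
    IsCompact e.shell ∧ e.shell ⊆ e.cbox ∧ IsOpen e.box ∧ e.box ⊆ e.cbox ∧ IsOpen e.core ∧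
    e.core ⊆ e.box := by
  have := e.ρ_pos
  have h1 : ∀ {S : Set (E e.M)}, IsClosed S → S ⊆ closedBall e.o e.r₂ →
      IsCompact (e.O ∩ e.z ⁻¹' S) := fun {S} hS hs => by
    have h2 := e.cpt.of_isClosed_subset ((e.cont.mono inter_subset_left).preimage_isClosed_of_isClosed
      e.cpt.isClosed hS) inter_subset_left
    rwa [inter_assoc, ← preimage_inter, inter_eq_right.2 hs] at h2
  have h3 := isClosed_closedBall.preimage (t := closedBall e.a (2 * e.ρ)) e.L.continuous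
  exact ⟨h1 (h3.inter isClosed_closedBall) inter_subset_right, inter_subset_left,
    h1 (h3.inter (isClosed_closedBall.sdiff isOpen_ball)) (inter_subset_right.trans sdiff_subset),
    fun y hy => ⟨hy.1, hy.2.1, hy.2.2.1⟩,
    e.cont.isOpen_inter_preimage e.opn ((isOpen_ball.preimage e.L.continuous).inter isOpen_ball),
    fun y hy => ⟨hy.1, ball_subset_closedBall hy.2.1, ball_subset_closedBall hy.2.2⟩,
    e.cont.isOpen_inter_preimage e.opn ((isOpen_ball.preimage e.L.continuous).inter isOpen_ball),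
    fun y hy => ⟨hy.1, ball_subset_ball (by linarith) hy.2.1, ball_subset_ball e.lt.le hy.2.2⟩⟩

end Pool.Agent.BP
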