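import Pool.Agent.P.MP_63735c_ag.SBD0
import Pool.Agent.P.MP_63735c_ag.BPT6a
import Pool.Agent.P.MP_63735c_ag.BPDpx
import Pool.Agent.P.MP_63735c_ag.BPD2

/-! Proper maps from an atlas: regular values. -/

open scoped ComplexOrder ContDiff Matrix Topology ENNReal
open Set Metric MeasureTheory Filter

namespace Pool.Agent.BP

open Pool.Agent.SPF Pool.Agent.AB Pool.Agent.CK Pool.Agent.SE Pool.Agent.NL

variable {N : ℕ} {X : Type} [TopologicalSpace X] {A : Atlas X N} {Ω : Set X} {Ω' : Set (E N)}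
  {P : X → E N}

theorem sbd1_cont {F : Type} [TopologicalSpace F] {f : X → F} (hΩ : IsOpen Ω)
    (h : ∀ i, ContinuousOn (fun z => f (A.p i z)) (dom A Ω i)) : ContinuousOn f Ω := by
  intro x hx
  obtain ⟨i, z, hz, rfl⟩ := A.cover x
  refine ContinuousAt.continuousWithinAt ?_
  rw [ContinuousAt, ← bpd2_map hz, tendsto_map'_iff]
  exact (h i).continuousAt ((dom_open A hΩ i).mem_nhds ⟨hz, hx⟩)

theorem HolV.cont {M : ℕ} {f : X → E M} (hΩ : IsOpen Ω) (h : HolV A Ω f) : ContinuousOn f Ω :=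
  sbd1_cont hΩ fun i => (h i).continuousOn

theorem HolOn.cont {f : X → ℂ} (hΩ : IsOpen Ω) (h : HolOn A Ω f) : ContinuousOn f Ω :=
  sbd1_cont hΩ fun i => (h i).continuousOn

/-- The chain rule for a change of charts. -/
theorem HolV.jg {M : ℕ} {f : X → E M} (hΩ : IsOpen Ω) (h : HolV A Ω f) {i k : A.ι}
    {O : Set (E N)} {φ : E N → E N} (hc : IsChange (A.C i) (A.C k) O φ)
    (he : ∀ w ∈ O, A.p k (φ w) = A.p i w) {z : E N} (hz : z ∈ O) (hx : A.p i z ∈ Ω) :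
    Jg A f i z = Jg A f k (φ z) * jac φ z := by
  have hm := hc.isOpen.mem_nhds hz
  have h1 : φ z ∈ dom A Ω k := ⟨hc.maps hz, show A.p k (φ z) ∈ Ω from (he z hz).symm ▸ hx⟩
  have h2 : (fun w => f (A.p i w)) =ᶠ[𝓝 z] (fun w => f (A.p k w)) ∘ φ := by
    filter_upwards [hm] with w hw
    exact congrArg f (he w hw).symm
  rw [Jg, Jg, ← bpdp_comp ((h k).differentiableAt ((dom_open A hΩ k).mem_nhds h1))
    (hc.hol.differentiableAt hm)]
  simp only [jac, h2.fderiv_eq]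

theorem reg_iff (hΩ : IsOpen Ω) (h : HolV A Ω P) {i : A.ι} {z : E N} (hz : z ∈ dom A Ω i) :
    Reg A P (A.p i z) ↔ (Jg A P i z).det ≠ 0 := by
  refine ⟨fun hr => hr i z hz.1 rfl, fun hd k y hy e => ?_⟩
  obtain ⟨O, φ, hc, hzO, rfl, he⟩ := A.trans i k z hz.1 y hy e.symm
  rw [h.jg hΩ hc he hzO hz.2, Matrix.det_mul] at hd
  exact left_ne_zero_of_mul hd

theorem PrA.charts (h : PrA A Ω Ω' P) :
    ∃ t : Set A.ι, t.Countable ∧ Ω ⊆ ⋃ i ∈ t, A.p i '' (A.C i).W := by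
  have h1 : ∀ w ∈ Ω', ∃ (B : Set (E N)) (t : Finset A.ι), B ∈ 𝓝[Ω'] w ∧
      Ω ∩ P ⁻¹' B ⊆ ⋃ i ∈ t, A.p i '' (A.C i).W := by
    intro w hw
    obtain ⟨r, hr, hb⟩ := nhds_basis_closedBall.mem_iff.1 (h.isOpen'.mem_nhds hw)
    obtain ⟨t, ht⟩ := (h.proper _ (isCompact_closedBall w r) hb).elim_finite_subcover
      (fun i => A.p i '' (A.C i).W) (fun i => A.opn i _ (A.C i).isOpen Subset.rfl) fun x _ => by
        obtain ⟨i, z, hz, e⟩ := A.cover x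
        exact mem_iUnion.2 ⟨i, z, hz, e⟩
    exact ⟨_, t, mem_nhdsWithin_of_mem_nhds (closedBall_mem_nhds w hr), ht⟩
  choose! B t hB ht using h1
  obtain ⟨s, hs, hc, hcov⟩ := TopologicalSpace.countable_cover_nhdsWithin hB
  refine ⟨⋃ w ∈ s, (t w : Set A.ι), hc.biUnion fun w _ => (t w).countable_toSet, fun x hx => ?_⟩
  obtain ⟨w, hw, hxw⟩ := mem_iUnion₂.1 (hcov (h.maps hx))
  obtain ⟨i, hi, hxi⟩ := mem_iUnion₂.1 (ht w (hs hw) ⟨hx, hxw⟩)
  exact mem_iUnion₂.2 ⟨i, mem_iUnion₂.2 ⟨w, hw, hi⟩, hxi⟩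

theorem PrA.rv_null (h : PrA A Ω Ω' P) : volume (Ω' \ RVA A Ω Ω' P) = 0 := by
  obtain ⟨t, ht, hc⟩ := h.charts
  refine measure_mono_null (t := ⋃ i ∈ t, (fun z => P (A.p i z)) ''
    {z | z ∈ dom A Ω i ∧ (Jg A P i z).det = 0}) (fun w hw => ?_)
    ((measure_biUnion_null_iff ht).2 fun i _ =>
      addHaar_image_eq_zero_of_det_fderivWithin_eq_zero volume
        (f' := fderiv ℝ fun z => P (A.p i z)) (fun z hz => ?_) fun z hz => ?_)
  · by_contra hn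
    refine hw.2 ⟨hw.1, fun x hx e => ?_⟩
    obtain ⟨i, hi, z, hz, rfl⟩ := mem_iUnion₂.1 (hc hx)
    exact (reg_iff h.isOpen h.hol ⟨hz, hx⟩).2 fun h0 =>
      hn (mem_iUnion₂.2 ⟨i, hi, z, ⟨⟨hz, hx⟩, h0⟩, e⟩)
  · exact (((h.hol i).differentiableAt ((dom_open A h.isOpen i).mem_nhds hz.1)).restrictScalars
      ℝ).hasFDerivAt.hasFDerivWithinAt
  · have h0 : (jac (fun z => P (A.p i z)) z).det = 0 := hz.2
    rw [real_det ((h.hol i).differentiableAt ((dom_open A h.isOpen i).mem_nhds hz.1)), h0]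
    simp

theorem PrA.rv_dense (h : PrA A Ω Ω' P) : Ω' ⊆ closure (RVA A Ω Ω' P) := by
  intro w hw
  rw [_root_.mem_closure_iff]
  intro U hU hwU
  by_contra hc
  exact ((hU.inter h.isOpen').measure_pos volume ⟨w, hwU, hw⟩).ne' (measure_mono_null
    (t := Ω' \ RVA A Ω Ω' P) (fun y hy => ⟨hy.2, fun hr => hc ⟨y, hy.1, hr⟩⟩) h.rv_null)

theorem sbd1_near (h : PrA A Ω Ω' P) {w : E N} (hw : w ∈ Ω') {U : Set X} (hU : IsOpen U)
    (hs : Ω ∩ P ⁻¹' {w} ⊆ U) : ∀ᶠ y in 𝓝 w, Ω ∩ P ⁻¹' {y} ⊆ U := by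
  obtain ⟨r, hr, hb⟩ := nhds_basis_closedBall.mem_iff.1 (h.isOpen'.mem_nhds hw)
  have hK := (h.proper _ (isCompact_closedBall w r) hb).diff hU
  have hc := (hK.image_of_continuousOn
    ((h.hol.cont h.isOpen).mono fun x hx => hx.1.1)).isClosed
  have h0 : w ∈ (P '' ((Ω ∩ P ⁻¹' closedBall w r) \ U))ᶜ := by
    rintro ⟨x, hx, e⟩
    exact hx.2 (hs ⟨hx.1.1, e⟩)
  filter_upwards [hc.isOpen_compl.mem_nhds h0, closedBall_mem_nhds w hr] with y h1 h2 x hx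
  by_contra hx'
  have e : P x = y := hx.2
  exact h1 ⟨x, ⟨⟨hx.1, show P x ∈ _ from e ▸ h2⟩, hx'⟩, e⟩

theorem sbd1_inv (h : PrA A Ω Ω' P) {x : X} (hx : x ∈ Ω) (hr : Reg A P x) :
    ∃ (i : A.ι) (z : E N) (e : OpenPartialHomeomorph (E N) (E N)), A.p i z = x ∧
      (∀ y, e y = P (A.p i y)) ∧ z ∈ e.source ∧ DifferentiableOn ℂ e.symm e.target ∧
        ∀ y ∈ e.source, y ∈ dom A Ω i ∧ Reg A P (A.p i y) := by
  obtain ⟨i, z, hz, rfl⟩ := A.cover x
  obtain ⟨e, h1, h2, h3, h4⟩ := bpt6a_inv (dom_open A h.isOpen i) (h.hol i) ⟨hz, hx⟩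
    (hr i z hz rfl)
  exact ⟨i, z, e, rfl, congrFun h1, h2, h3, fun y hy =>
    ⟨(h4 y hy).1, (reg_iff h.isOpen h.hol (h4 y hy).1).2 (h4 y hy).2⟩⟩

variable [T2Space X]

theorem PrA.sheets (h : PrA A Ω Ω' P) {w : E N} (hw : w ∈ RVA A Ω Ω' P) :
    ∃ (d : ℕ) (O : Set (E N)) (c : Fin d → A.ι) (q : Fin d → E N → E N), IsOpen O ∧ w ∈ O ∧
      O ⊆ RVA A Ω Ω' P ∧ (∀ l, DifferentiableOn ℂ (q l) O) ∧ ∀ y ∈ O,
        (∀ l, q l y ∈ (A.C (c l)).W) ∧ Function.Injective (fun l => A.p (c l) (q l y)) ∧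
        Ω ∩ P ⁻¹' {y} = range fun l => A.p (c l) (q l y) := by
  have hK := h.proper {w} isCompact_singleton (singleton_subset_iff.2 hw.1)
  choose c z e hp he hz hd hs using fun x : ↥(Ω ∩ P ⁻¹' {w}) =>
    sbd1_inv h x.2.1 (hw.2 x x.2.1 x.2.2)
  have hU : ∀ x, IsOpen (A.p (c x) '' (e x).source) := fun x =>
    A.opn _ _ (e x).open_source fun y hy => (hs x y hy).1.1
  have hcov : Ω ∩ P ⁻¹' {w} ⊆ ⋃ x, A.p (c x) '' (e x).source := fun x hx =>
    mem_iUnion.2 ⟨⟨x, hx⟩, _, hz _, hp _⟩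
  have hw' : ∀ x, e x (z x) = w := fun x => by
    rw [he, hp]
    exact x.2.2
  have hfin : Finite ↥(Ω ∩ P ⁻¹' {w}) := by
    obtain ⟨t, ht⟩ := hK.elim_finite_subcover _ hU hcov
    refine Set.finite_univ_iff.1 (t.finite_toSet.subset fun x _ => ?_)
    obtain ⟨x', hx', y, hy, e'⟩ := mem_iUnion₂.1 (ht x.2)
    have h1 : y = z x' := (e x').injOn hy (hz x') (by
      rw [hw', he, e']
      exact x.2.2)
    have h2 : x = x' := Subtype.ext (by rw [← e', h1, hp])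
    rwa [h2]
  obtain ⟨d, ⟨κ⟩⟩ := Finite.exists_equiv_fin ↥(Ω ∩ P ⁻¹' {w})
  have ht : ∀ x, w ∈ (e x).target := fun x => hw' x ▸ (e x).map_source (hz x)
  have hq : ∀ x, (e x).symm w = z x := fun x => by
    conv_lhs => rw [← hw' x]
    exact (e x).left_inv (hz x)
  have hct : ∀ x, ContinuousAt (fun y => A.p (c x) ((e x).symm y)) w := fun x =>
    ContinuousAt.comp (by
      rw [hq]
      exact (A.cont _).continuousAt ((A.C _).isOpen.mem_nhds (hs x _ (hz x)).1.1))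
      ((e x).continuousAt_symm (ht x))
  have h1 : ∀ᶠ y in 𝓝 w, ∀ x, y ∈ (e x).target :=
    eventually_all.2 fun x => (e x).open_target.mem_nhds (ht x)
  have h2 : ∀ᶠ y in 𝓝 w, ∀ x x', x ≠ x' →
      A.p (c x) ((e x).symm y) ≠ A.p (c x') ((e x').symm y) := by
    refine eventually_all.2 fun x => eventually_all.2 fun x' => ?_
    by_cases hl : x = x'
    · exact Eventually.of_forall fun y hy => (hy hl).elim
    · refine (((hct x).ne_iff_eventually_ne (hct x')).1 ?_).mono fun y hy _ => hy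
      rw [hq, hq, hp, hp]
      exact fun e' => hl (Subtype.ext e')
  obtain ⟨O, hO, hOo, hwO⟩ := _root_.eventually_nhds_iff.1
    (h1.and (h2.and ((sbd1_near h hw.1 (isOpen_iUnion hU) hcov).and (h.isOpen'.mem_nhds hw.1))))
  refine ⟨d, O, fun l => c (κ.symm l), fun l => (e (κ.symm l)).symm, hOo, hwO,
    fun y hy => ⟨(hO y hy).2.2.2, fun x hx e' => ?_⟩,
    fun l => (hd _).mono fun y hy => (hO y hy).1 _, fun y hy =>
      ⟨fun l => (hs _ _ ((e _).map_target ((hO y hy).1 _))).1.1, fun l l' e' => by_contra fun hl =>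
        (hO y hy).2.1 _ _ (fun e2 => hl (κ.symm.injective e2)) e', ?_⟩⟩
  · obtain ⟨x', u, hu, rfl⟩ := mem_iUnion.1 ((hO y hy).2.2.1 ⟨hx, e'⟩)
    exact (hs x' u hu).2
  · refine Subset.antisymm (fun x hx => ?_) ?_
    · obtain ⟨x', u, hu, rfl⟩ := mem_iUnion.1 ((hO y hy).2.2.1 hx)
      obtain ⟨l, rfl⟩ := κ.symm.surjective x'
      refine ⟨l, ?_⟩
      have e' : e (κ.symm l) u = y := by
        rw [he]
        exact hx.2
      show A.p _ ((e (κ.symm l)).symm y) = _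
      rw [← e', (e (κ.symm l)).left_inv hu]
    · rintro _ ⟨l, rfl⟩
      refine ⟨(hs _ _ ((e _).map_target ((hO y hy).1 _))).1.2, ?_⟩
      have := (e (κ.symm l)).right_inv ((hO y hy).1 _)
      rwa [he] at this

theorem PrA.mp (h : PrA A Ω Ω' P) {C : Set X} (hC : IsCompact C) (hs : C ⊆ Ω) {y : X} (hy : y ∈ C)
    {r : ℝ} (hr : 0 < r) (hi : ∀ q ∈ C, ‖P q - P y‖ < r → C ∈ 𝓝 q) (hN : 1 ≤ N) :
    ∃ q ∈ C, Reg A P q := by
  obtain ⟨M, v, -, hv, hvi⟩ := h.emb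
  have hn : ∀ {M : ℕ} (z : E M), 0 ≤ nsq z := fun z => (sq_nonneg _).trans (nsq_le z).1
  have hvc : ContinuousOn (fun x => nsq (v x)) C :=
    nsq_smooth.continuous.comp_continuousOn ((hv.cont h.isOpen).mono hs)
  obtain ⟨b, -, hb⟩ := hC.exists_isMaxOn ⟨y, hy⟩ hvc
  obtain ⟨a, ha⟩ : ∃ a : ℝ, a * r ^ 2 = nsq (v b) + 1 := ⟨_, div_mul_cancel₀ _ (by positivity)⟩
  have ha0 : 0 < a := (mul_pos_iff_of_pos_right (sq_pos_of_pos hr)).1 (by linarith [hn (v b)])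
  obtain ⟨q, hq, hm⟩ := hC.exists_isMaxOn (f := fun x => nsq (v x) + -a * nsq (P x - P y)) ⟨y, hy⟩
    (hvc.add (continuousOn_const.mul (nsq_smooth.continuous.comp_continuousOn
      (((h.hol.cont h.isOpen).mono hs).sub continuousOn_const))))
  have h1 : ‖P q - P y‖ < r := by
    by_contra hc
    have a1 : nsq (v y) + -a * nsq (P y - P y) ≤ nsq (v q) + -a * nsq (P q - P y) := hm hy
    have a2 : nsq (v q) ≤ nsq (v b) := hb hq
    have a3 := (pow_le_pow_left₀ hr.le (not_lt.1 hc) 2).trans (nsq_le _).1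
    have a4 : nsq (P y - P y) = 0 := by simp [nsq]
    rw [a4] at a1
    nlinarith [hn (v y)]
  refine ⟨q, hq, fun i z hz e h0 => ?_⟩
  subst e
  have hd : z ∈ dom A Ω i := ⟨hz, hs hq⟩
  have hO := dom_open A h.isOpen i
  obtain ⟨u, hu, h2⟩ := Matrix.exists_mulVec_eq_zero_iff.2 h0
  have h3 := lev_nsq (F := fun w => v (A.p i w)) (z := z) (by
    filter_upwards [hO.mem_nhds hd] with w hw
    exact (hv i).differentiableAt (hO.mem_nhds hw))
  have h4 := lev_nsq (F := fun w => P (A.p i w) - P y) (z := z) (by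
    filter_upwards [hO.mem_nhds hd] with w hw
    exact ((h.hol i).differentiableAt (hO.mem_nhds hw)).sub_const _)
  have h5 := lev_max (h3.1.add (contDiffAt_const.mul h4.1))
    ((hm.isLocalMax (hi _ hq h1)).comp_continuous (g := A.p i)
      ((A.cont i).continuousAt ((A.C i).isOpen.mem_nhds hz))) u
  have h6 := h3.2.2.2 u
  have h7 := h4.2.2.2 u
  rw [Jg] at h2
  rw [fderiv_sub_const, ← bpt2_jac, h2] at h7
  rw [BP.hr, lev_add h3.1 (contDiffAt_const.mul h4.1), lev_smul h4.1, hq_add, hq_smul,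
    Complex.add_re, Complex.re_ofReal_mul] at h5
  simp only [BP.hr] at h6 h7
  have h8 := (nsq_le (fderiv ℂ (fun w => v (A.p i w)) z u)).1
  have h9 : nsq (0 : E N) = 0 := by simp [nsq]
  have h10 : fderiv ℂ (fun w => v (A.p i w)) z u ≠ 0 := fun e =>
    hu (hvi i z hd (e.trans (map_zero _).symm))
  rw [h6, h7, h9] at h5
  nlinarith [norm_pos_iff.2 h10]

theorem PrA.det_dense (h : PrA A Ω Ω' P) (hN : 1 ≤ N) :
    Ω ⊆ closure {x | x ∈ Ω ∧ Reg A P x} := by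
  intro z hz
  by_contra hc
  obtain ⟨r, hr, hb⟩ := nhds_basis_closedBall.mem_iff.1 (h.isOpen'.mem_nhds (h.maps hz))
  have hK := h.proper _ (isCompact_closedBall (P z) r) hb
  set S := closure {x | x ∈ Ω ∧ Reg A P x} with hS
  have hcl : ∀ x ∈ Ω, x ∈ closure Sᶜ → x ∈ Sᶜ := by
    intro x hx hx'
    obtain ⟨i, u, hu, rfl⟩ := A.cover x
    have hO := dom_open A h.isOpen i
    obtain ⟨ρ, hρ, hB⟩ := Metric.isOpen_iff.1 hO u ⟨hu, hx⟩
    have hV : IsOpen (A.p i '' ball u ρ) := A.opn i _ isOpen_ball fun y hy => (hB hy).1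
    obtain ⟨_, ⟨a, ha, rfl⟩, ha'⟩ :=
      _root_.mem_closure_iff.1 hx' _ hV ⟨u, mem_ball_self hρ, rfl⟩
    have h0 : EqOn (fun y => (jac (fun w => P (A.p i w)) y).det) (fun _ => 0) (ball u ρ) := by
      refine spident_scv isOpen_ball (convex_ball u ρ) ((bpt6a_hol hO (h.hol i)).mono hB)
        (differentiableOn_const _) ha ?_
      filter_upwards [((A.cont i).continuousAt ((A.C i).isOpen.mem_nhds (hB ha).1)).eventually
        (isClosed_closure.isOpen_compl.mem_nhds ha'), isOpen_ball.mem_nhds ha] with y h1 h2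
      by_contra h3
      exact h1 (subset_closure ⟨(hB h2).2, (reg_iff h.isOpen h.hol (hB h2)).2 h3⟩)
    intro hx2
    obtain ⟨_, ⟨b, hb1, rfl⟩, hb2⟩ :=
      _root_.mem_closure_iff.1 hx2 _ hV ⟨u, mem_ball_self hρ, rfl⟩
    exact hb2.2 i b (hB hb1).1 rfl (h0 hb1)
  have hC : IsCompact ((Ω ∩ P ⁻¹' closedBall (P z) r) ∩ closure Sᶜ) :=
    hK.inter_right isClosed_closure
  obtain ⟨q, hq, hd⟩ := h.mp hC (fun x hx => hx.1.1) (y := z)
    ⟨⟨hz, mem_closedBall_self hr.le⟩, subset_closure hc⟩ hr (fun q hq hqr => by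
      filter_upwards [h.isOpen.mem_nhds hq.1.1,
        isClosed_closure.isOpen_compl.mem_nhds (hcl q hq.1.1 hq.2),
        ((h.hol.cont h.isOpen).continuousAt (h.isOpen.mem_nhds hq.1.1)).eventually
          (isOpen_ball.mem_nhds (mem_ball_iff_norm.2 hqr))] with x h1 h2 h3
      exact ⟨⟨h1, ball_subset_closedBall h3⟩, subset_closure h2⟩) hN
  exact hcl q hq.1.1 hq.2 (subset_closure ⟨hq.1.1, hd⟩)

theorem PrA.rv_pull (h : PrA A Ω Ω' P) (hN : 1 ≤ N) :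
    Ω ⊆ closure {x | x ∈ Ω ∧ P x ∈ RVA A Ω Ω' P} := by
  intro z hz
  rw [_root_.mem_closure_iff]
  intro U hU hzU
  obtain ⟨a, ha, ha1, ha2⟩ := _root_.mem_closure_iff.1 (h.det_dense hN hz) U hU hzU
  obtain ⟨i, u, e, rfl, he, hu, -, hs⟩ := sbd1_inv h ha1 ha2
  obtain ⟨_, ⟨x, hx, rfl⟩, hc⟩ := _root_.mem_closure_iff.1 (h.rv_dense (h.maps ha1)) _
    (e.isOpen_image_source_inter (dom_open A hU i)) ⟨u, ⟨hu, (hs u hu).1.1, ha⟩, he u⟩
  exact ⟨A.p i x, hx.2.2, (hs x hx.1).1.2, he x ▸ hc⟩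

end Pool.Agent.BP
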