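import Pool.Agent.P.MP_63735c_ag.SBD1
import Pool.Agent.P.MP_63735c_ag.BPT6b
import Pool.Agent.P.MP_63735c_ag.BPE0

/-! The area formula on an atlas. -/

open scoped ComplexOrder ContDiff Matrix Topology ENNReal
open Set Metric MeasureTheory Filter

namespace Pool.Agent.BP

open Pool.Agent.SPF Pool.Agent.AB Pool.Agent.CK Pool.Agent.SE Pool.Agent.NL

section
variable {N : ℕ} {O : Set (E N)} {f : E N → E N}

theorem sbd2_der (hO : IsOpen O) (h : DifferentiableOn ℂ f O) {s : Set (E N)} (hs : s ⊆ O) :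
    ∀ z ∈ s, HasFDerivWithinAt f (fderiv ℝ f z) s z := fun _ hz =>
  ((h.differentiableAt (hO.mem_nhds (hs hz))).restrictScalars ℝ).hasFDerivAt
    |>.hasFDerivWithinAt

theorem sbd2_det (hO : IsOpen O) (h : DifferentiableOn ℂ f O) {z : E N} (hz : z ∈ O) :
    (fderiv ℝ f z).det = ‖(jac f z).det‖ ^ 2 :=
  real_det (h.differentiableAt (hO.mem_nhds hz))

theorem sbd2_pre (hO : IsOpen O) (h : DifferentiableOn ℂ f O) {T : Set (E N)}
    (hT : MeasurableSet T) : MeasurableSet (O ∩ f ⁻¹' T) := by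
  have h1 : Measurable (O.domRestrict f) := h.continuousOn.domRestrict.measurable
  have h2 := (MeasurableEmbedding.subtype_coe hO.measurableSet).measurableSet_image.2 (h1 hT)
  have h3 : O ∩ f ⁻¹' T = Subtype.val '' (O.domRestrict f ⁻¹' T) := by
    ext z
    exact ⟨fun hz => ⟨⟨z, hz.1⟩, hz.2, rfl⟩, fun ⟨y, hy, e⟩ => e ▸ ⟨y.2, hy⟩⟩
  exact h3 ▸ h2

theorem sbd2_pieces (hO : IsOpen O) (h : DifferentiableOn ℂ f O) {K : Set (E N)}
    (hK : MeasurableSet K) (hΩ : K ⊆ O) :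
    ∃ S : ℕ → Set (E N), (∀ n, MeasurableSet (S n)) ∧ Pairwise (Function.onFun Disjoint S) ∧
      (∀ n, InjOn f (S n)) ∧ ⋃ n, S n = K ∩ {z | (fderiv ℝ f z).det ≠ 0} := by
  have hr : ∀ A : E N →L[ℝ] E N, ∃ c : NNReal, c ≠ 0 ∧ ∀ hA : A.det ≠ 0, Subsingleton (E N) ∨
      c < ‖((A.toContinuousLinearEquivOfDetNeZero hA).symm : E N →L[ℝ] E N)‖₊⁻¹ := by
    intro A
    by_cases hA : A.det = 0
    · exact ⟨1, one_ne_zero, fun h' => absurd hA h'⟩
    rcases (A.toContinuousLinearEquivOfDetNeZero hA).subsingleton_or_nnnorm_symm_pos with h1 | h1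
    · exact ⟨1, one_ne_zero, fun _ => Or.inl h1⟩
    · have h2 := inv_pos.2 h1
      exact ⟨_, (half_pos h2).ne', fun _ => Or.inr (NNReal.half_lt_self h2.ne')⟩
  choose r hr0 hr using hr
  have hm : MeasurableSet (K ∩ {z | (fderiv ℝ f z).det ≠ 0}) :=
    hK.inter ((ContinuousLinearMap.continuous_det.measurable.comp (measurable_fderiv ℝ f))
      (measurableSet_singleton 0).compl)
  obtain ⟨t, A, hd, htm, hc, ha, hA⟩ := exists_partition_approximatesLinearOn_of_hasFDerivWithinAt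
    f _ (fderiv ℝ f) (sbd2_der hO h (inter_subset_left.trans hΩ :
      K ∩ {z | (fderiv ℝ f z).det ≠ 0} ⊆ O)) r hr0
  refine ⟨fun n => K ∩ {z | (fderiv ℝ f z).det ≠ 0} ∩ t n, fun n => hm.inter (htm n),
    fun i j hij => (hd hij).mono inter_subset_right inter_subset_right, fun n => ?_, ?_⟩
  · rcases (K ∩ {z | (fderiv ℝ f z).det ≠ 0}).eq_empty_or_nonempty with h0 | h0
    · exact fun z hz => absurd (h0 ▸ hz.1) (notMem_empty z)
    obtain ⟨y, hy, e⟩ := hA h0 n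
    have hn : (A n).det ≠ 0 := e ▸ hy.2
    have h1 := ha n
    rw [← (A n).coe_toContinuousLinearEquivOfDetNeZero hn] at h1
    refine ApproximatesLinearOn.injOn h1 ?_
    rw [(A n).coe_toContinuousLinearEquivOfDetNeZero hn]
    exact hr _ hn
  · rw [← inter_iUnion]
    exact inter_eq_left.2 hc

theorem sbd2_lint (hO : IsOpen O) (h : DifferentiableOn ℂ f O) {T s : Set (E N)}
    (hs : MeasurableSet s) (hΩ : s ⊆ O ∩ f ⁻¹' T) (hi : InjOn f s) (u : E N → ℝ≥0∞) :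
    ∫⁻ w in T, bpt6b_pc f s u w = ∫⁻ z in s, u z * ENNReal.ofReal (‖(jac f z).det‖ ^ 2) := by
  have hd := sbd2_der hO h (hΩ.trans inter_subset_left)
  have hm : MeasurableSet (f '' s) := measurable_image_of_fderivWithin hs hd hi
  have h1 : bpt6b_pc f s u = (f '' s).indicator (bpt6b_pc f s u) :=
    (indicator_eq_self.2 fun w hw => by_contra fun h' => hw (bpt6b_zero u h')).symm
  rw [h1, lintegral_indicator hm, Measure.restrict_restrict hm,
    inter_eq_left.2 (image_subset_iff.2 (hΩ.trans inter_subset_right)),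
    lintegral_image_eq_lintegral_abs_det_fderiv_mul volume hs hd hi]
  refine setLIntegral_congr_fun hs fun z hz => ?_
  rw [bpt6b_apply hi u hz, sbd2_det hO h (hΩ hz).1, abs_of_nonneg (sq_nonneg _), mul_comm]

theorem sbd2_int (hO : IsOpen O) (h : DifferentiableOn ℂ f O) {T s : Set (E N)}
    (hs : MeasurableSet s) (hΩ : s ⊆ O ∩ f ⁻¹' T) (hi : InjOn f s) (u : E N → ℂ) :
    ∫ w in T, bpt6b_pc f s u w = ∫ z in s, u z * (‖(jac f z).det‖ ^ 2 : ℝ) := by
  have hd := sbd2_der hO h (hΩ.trans inter_subset_left)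
  have hm : MeasurableSet (f '' s) := measurable_image_of_fderivWithin hs hd hi
  have h1 : bpt6b_pc f s u = (f '' s).indicator (bpt6b_pc f s u) :=
    (indicator_eq_self.2 fun w hw => by_contra fun h' => hw (bpt6b_zero u h')).symm
  rw [h1, integral_indicator hm, Measure.restrict_restrict hm,
    inter_eq_left.2 (image_subset_iff.2 (hΩ.trans inter_subset_right)),
    integral_image_eq_integral_abs_det_fderiv_smul volume hs hd hi]
  refine setIntegral_congr_fun hs fun z hz => ?_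
  rw [bpt6b_apply hi u hz, sbd2_det hO h (hΩ hz).1, abs_of_nonneg (sq_nonneg _), mul_comm,
    Complex.real_smul]

theorem sbd2_meas {F : Type} [Zero F] [MeasurableSpace F] (hO : IsOpen O)
    (h : DifferentiableOn ℂ f O) {s : Set (E N)} (hs : MeasurableSet s) (hΩ : s ⊆ O)
    (hi : InjOn f s) {u : E N → F} (hu : Measurable (s.domRestrict u)) :
    Measurable (bpt6b_pc f s u) :=
  (measurableEmbedding_of_fderivWithin hs (sbd2_der hO h hΩ) hi).measurable_extend hu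
    measurable_const

theorem sbd2_jc (hO : IsOpen O) (h : DifferentiableOn ℂ f O) :
    ContinuousOn (fun z => ‖(jac f z).det‖ ^ 2) O := by
  have h2 : ContDiffOn ℝ 1 f O := contDiffOn_pi.2 fun a =>
    (Lib.SCV.contDiffOn_nat hO 1 _ (differentiableOn_pi.1 h a)).restrict_scalars ℝ
  exact (ContinuousLinearMap.continuous_det.comp_continuousOn
    (h2.continuousOn_fderiv_of_isOpen hO le_rfl)).congr fun z hz => (sbd2_det hO h hz).symm

end

variable {N : ℕ} {X : Type} [TopologicalSpace X] [T2Space X] [MeasurableSpace X] [BorelSpace X]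
  {A : Atlas X N} {Ω : Set X} {Ω' : Set (E N)} {P : X → E N} {μ : Measure X}

omit [T2Space X] in
theorem PrA.pieces (h : PrA A Ω Ω' P) {T : Set (E N)} (hT : MeasurableSet T) :
    ∃ (κ : Type) (_ : Countable κ) (c : κ → A.ι) (S : κ → Set (E N)), (∀ k, MeasurableSet (S k)) ∧
      (∀ k, S k ⊆ dom A (Ω ∩ P ⁻¹' T) (c k)) ∧
      Pairwise (Function.onFun Disjoint fun k => A.p (c k) '' S k) ∧
      (∀ k, InjOn (fun z => P (A.p (c k) z)) (S k)) ∧
      ⋃ k, A.p (c k) '' S k = Ω ∩ P ⁻¹' T ∩ {x | Reg A P x} := by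
  obtain ⟨t, ht, hc⟩ := h.charts
  have := ht.to_subtype
  obtain ⟨e, he⟩ := exists_injective_nat t
  let V : t → Set X := fun i => ⋃ j : t, ⋃ (_ : e j < e i), A.p j '' (A.C j).W
  have hV : ∀ i, IsOpen (V i) := fun i => isOpen_iUnion fun j => isOpen_iUnion fun _ =>
    A.opn j _ (A.C j).isOpen subset_rfl
  let K : t → Set (E N) := fun i =>
    (dom A Ω i ∩ (fun z => P (A.p i z)) ⁻¹' T) \ dom A (V i) i
  have hK : ∀ i, MeasurableSet (K i) := fun i =>
    (sbd2_pre (dom_open A h.isOpen i) (h.hol i) hT).diff (dom_open A (hV i) i).measurableSet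
  choose S hm hd hi hU using fun i : t => sbd2_pieces (dom_open A h.isOpen i) (h.hol i) (hK i)
    fun z hz => hz.1.1
  have hS : ∀ i n, ∀ z ∈ S i n, z ∈ K i ∧ (fderiv ℝ (fun z => P (A.p i z)) z).det ≠ 0 :=
    fun i n z hz => (hU i).subset (mem_iUnion.2 ⟨n, hz⟩)
  have hlt : ∀ i j n m, e j < e i → Disjoint (A.p i '' S i n) (A.p j '' S j m) := by
    intro i j n m hij
    refine disjoint_left.2 ?_
    rintro _ ⟨z, hz, rfl⟩ ⟨y, hy, hyz⟩
    exact (hS i n z hz).1.2 ⟨(hS i n z hz).1.1.1.1,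
      mem_iUnion.2 ⟨j, mem_iUnion.2 ⟨hij, y, (hS j m y hy).1.1.1.1, hyz⟩⟩⟩
  refine ⟨t × ℕ, inferInstance, fun k => k.1, fun k => S k.1 k.2, fun k => hm _ _,
    fun k z hz => ?_, ?_, fun k => hi _ _, ?_⟩
  · have h1 := (hS _ _ z hz).1.1
    exact ⟨h1.1.1, h1.1.2, h1.2⟩
  · rintro ⟨i, n⟩ ⟨j, m⟩ hne
    rcases lt_trichotomy (e i) (e j) with h1 | h1 | h1
    · exact (hlt j i m n h1).symm
    · obtain rfl := he h1
      refine disjoint_left.2 ?_
      rintro _ ⟨z, hz, rfl⟩ ⟨y, hy, hyz⟩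
      obtain rfl := h.inj i (hS i m y hy).1.1.1.1 (hS i n z hz).1.1.1.1 hyz
      exact disjoint_left.1 (hd i fun h2 : n = m => hne (h2 ▸ rfl)) hz hy
    · exact hlt i j n m h1
  · refine subset_antisymm (iUnion_subset ?_) fun x hx => ?_
    · rintro ⟨i, n⟩ _ ⟨z, hz, rfl⟩
      obtain ⟨h1, h2⟩ := hS i n z hz
      refine ⟨⟨h1.1.1.2, h1.1.2⟩, (reg_iff h.isOpen h.hol h1.1.1).2 fun h0 => h2 ?_⟩
      rw [sbd2_det (dom_open A h.isOpen i) (h.hol i) h1.1.1]
      exact pow_eq_zero_iff two_ne_zero |>.2 (norm_eq_zero.2 h0)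
    · obtain ⟨i₀, hi₀, h0⟩ := mem_iUnion₂.1 (hc hx.1.1)
      obtain ⟨i, ⟨z, hz, rfl⟩, hmin⟩ := (InvImage.wf e wellFounded_lt).has_min
        {i : t | x ∈ A.p i '' (A.C i).W} ⟨⟨i₀, hi₀⟩, h0⟩
      have h1 : z ∈ ⋃ n, S i n := by
        refine (hU i).symm.subset ⟨⟨⟨⟨hz, hx.1.1⟩, hx.1.2⟩, fun h2 => ?_⟩, ?_⟩
        · obtain ⟨j, hj⟩ := mem_iUnion.1 h2.2
          obtain ⟨hj1, hj2⟩ := mem_iUnion.1 hj
          exact hmin j hj2 hj1
        · show (fderiv ℝ (fun z => P (A.p i z)) z).det ≠ 0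
          rw [sbd2_det (dom_open A h.isOpen i) (h.hol i) ⟨hz, hx.1.1⟩]
          exact pow_ne_zero _ (norm_ne_zero_iff.2 (hx.2 i z hz rfl))
      obtain ⟨n, hn⟩ := mem_iUnion.1 h1
      exact mem_iUnion.2 ⟨(i, n), z, hn, rfl⟩

theorem PrA.ae (h : PrA A Ω Ω' P) {T : Set (E N)} (hT : MeasurableSet T) (hs : T ⊆ Ω') :
    ∀ᵐ w ∂(volume.restrict T), w ∈ RVA A Ω Ω' P ∧ w ∈ T := by
  rw [ae_restrict_iff' hT]
  have := measure_eq_zero_iff_ae_notMem.1 h.rv_null
  filter_upwards [this] with w hw hwT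
  exact ⟨by_contra fun h' => hw ⟨hs hwT, h'⟩, hwT⟩

omit [MeasurableSpace X] [BorelSpace X] in
theorem sbd2_hasSum {F : Type} [AddCommMonoid F] [TopologicalSpace F] [ContinuousAdd F]
    (h : PrA A Ω Ω' P) {T : Set (E N)} {κ : Type} {c : κ → A.ι} {S : κ → Set (E N)}
    (hd : Pairwise (Function.onFun Disjoint fun k => A.p (c k) '' S k))
    (hi : ∀ k, InjOn (fun z => P (A.p (c k) z)) (S k))
    (hU : ⋃ k, A.p (c k) '' S k = Ω ∩ P ⁻¹' T ∩ {x | Reg A P x}) (u : X → F) {w : E N}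
    (hw : w ∈ RVA A Ω Ω' P) (hT : w ∈ T) :
    HasSum (fun k => bpt6b_pc (fun z => P (A.p (c k) z)) (S k) (fun z => u (A.p (c k) z)) w)
      (fsA Ω P u w) := by
  classical
  obtain ⟨d, O, c', q, -, hO, -, -, hq⟩ := h.sheets hw
  have hf : (Ω ∩ P ⁻¹' {w}).Finite := (hq w hO).2.2 ▸ finite_range _
  have hsub : ∀ k, A.p (c k) '' S k ⊆ Ω := fun k z hz => (hU.subset (mem_iUnion.2 ⟨k, hz⟩)).1.1
  have h1 : ∀ k, bpt6b_pc (fun z => P (A.p (c k) z)) (S k) (fun z => u (A.p (c k) z)) w =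
      ∑ x ∈ hf.toFinset, (A.p (c k) '' S k).indicator u x := by
    intro k
    by_cases hn : w ∈ (fun z => P (A.p (c k) z)) '' S k
    · obtain ⟨z, hz, rfl⟩ := hn
      rw [bpt6b_apply (hi k) _ hz, Finset.sum_eq_single_of_mem (A.p (c k) z)
        (hf.mem_toFinset.2 ⟨hsub k ⟨z, hz, rfl⟩, rfl⟩), indicator_of_mem (mem_image_of_mem _ hz)]
      intro y hy hyz
      refine indicator_of_notMem ?_ _
      rintro ⟨y', hy', rfl⟩
      exact hyz (congrArg _ (hi k hy' hz (hf.mem_toFinset.1 hy).2))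
    · rw [bpt6b_zero _ hn]
      refine (Finset.sum_eq_zero fun y hy => indicator_of_notMem ?_ _).symm
      rintro ⟨y', hy', rfl⟩
      exact hn ⟨y', hy', (hf.mem_toFinset.1 hy).2⟩
  simp only [h1]
  rw [fsA, finsum_mem_eq_finite_toFinset_sum _ hf]
  refine hasSum_sum fun x hx => ?_
  have hx' := hf.mem_toFinset.1 hx
  have hx2 : x ∈ ⋃ k, A.p (c k) '' S k := by
    refine hU.symm.subset ⟨⟨hx'.1, ?_⟩, hw.2 x hx'.1 hx'.2⟩
    show P x ∈ T
    rwa [show P x = w from hx'.2]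
  obtain ⟨n, hn⟩ := mem_iUnion.1 hx2
  have h2 := hasSum_single (f := fun m => (A.p (c m) '' S m).indicator u x) n fun m hm =>
    indicator_of_notMem (fun hm' => disjoint_left.1 (hd hm) hm' hn) _
  rwa [indicator_of_mem hn] at h2

omit [T2Space X] in
theorem sbd2_img (hinj : ∀ i, InjOn (A.p i) (A.C i).W) {i : A.ι} {S : Set (E N)}
    (hS : MeasurableSet S) (h : S ⊆ (A.C i).W) : MeasurableSet (A.p i '' S) :=
  Man.meas_img (D := man A hinj isOpen_univ) (i := i) hS fun _ hz => ⟨h hz, mem_univ _⟩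

omit [T2Space X] in
theorem sbd2_vol (hinj : ∀ i, InjOn (A.p i) (A.C i).W) (hμ : IsVolume A μ)
    {i : A.ι} {S : Set (E N)} (hS : MeasurableSet S) (h : S ⊆ (A.C i).W) (f : X → ℂ) :
    ∫ y in A.p i '' S, f y ∂μ = ∫ z in S, ‖((A.C i).σ z).det‖ • f (A.p i z) := by
  have hw : ∀ i, ∀ z ∈ (A.C i).W,
      wt (fun z => -Real.log ‖((A.C i).σ z).det‖) z = ‖((A.C i).σ z).det‖ := fun i z hz => by
    rw [wt, neg_neg, Real.exp_log (norm_pos_iff.2 ((A.C i).σ_det z hz))]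
  have hd : (man A hinj isOpen_univ).Den μ fun i z => -Real.log ‖((A.C i).σ z).det‖ := by
    intro i S hS hm
    refine (hμ i S (hS.trans inter_subset_left) hm).trans
      (setLIntegral_congr_fun hm fun z hz => ?_)
    rw [hw i z (hS hz).1, ofReal_norm]
  refine (hd.int (i := i) ((((bpe0_det i).log fun z hz => norm_ne_zero_iff.2
    ((A.C i).σ_det z hz)).neg).mono inter_subset_left) hS (fun z hz => ⟨h hz, trivial⟩) f).trans
    (setIntegral_congr_fun hS fun z hz => ?_)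
  simp only [hw i z (h hz)]
  rfl

theorem PrA.area_le (h : PrA A Ω Ω' P) (hμ : IsVolume A μ) {S : Set (E N)} (hS : MeasurableSet S)
    (hs : S ⊆ Ω') {u G : X → ℝ≥0∞} {u' : A.ι → E N → ℝ≥0∞} (hu : ∀ i, Measurable (u' i))
    (he : ∀ i, ∀ z ∈ dom A Ω i, (Jg A P i z).det ≠ 0 → u (A.p i z) = u' i z ∧
      ‖(Jg A P i z).det‖ₑ ^ 2 * u' i z ≤ ‖((A.C i).σ z).det‖ₑ * G (A.p i z)) :
    ∫⁻ w in S, fsA Ω P u w ≤ ∫⁻ x in Ω ∩ P ⁻¹' S, G x ∂μ := by
  obtain ⟨κ, hκ, c, T, hm, hsub, hd, hi, hU⟩ := h.pieces hS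
  have hD : ∀ k, T k ⊆ dom A Ω (c k) ∩ (fun z => P (A.p (c k) z)) ⁻¹' S := fun k z hz =>
    ⟨⟨(hsub k hz).1, (hsub k hz).2.1⟩, (hsub k hz).2.2⟩
  have hr : ∀ k, ∀ z ∈ T k, (Jg A P (c k) z).det ≠ 0 := fun k z hz =>
    (hU.subset (mem_iUnion.2 ⟨k, z, hz, rfl⟩)).2 _ z (hsub k hz).1 rfl
  have hpc : ∀ k, bpt6b_pc (fun z => P (A.p (c k) z)) (T k) (fun z => u (A.p (c k) z)) =
      bpt6b_pc (fun z => P (A.p (c k) z)) (T k) (u' (c k)) := fun k => by
    have : (T k).domRestrict (fun z => u (A.p (c k) z)) = (T k).domRestrict (u' (c k)) :=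
      funext fun z => (he _ z (hD k z.2).1 (hr k z z.2)).1
    rw [bpt6b_pc, bpt6b_pc, this]
  have h1 : ∀ᵐ w ∂(volume.restrict S), fsA Ω P u w =
      ∑' k, bpt6b_pc (fun z => P (A.p (c k) z)) (T k) (u' (c k)) w :=
    (h.ae hS hs).mono fun w hw => by
      simpa only [hpc] using (sbd2_hasSum h hd hi hU u hw.1 hw.2).tsum_eq.symm
  rw [lintegral_congr_ae h1, lintegral_tsum fun k => (sbd2_meas (dom_open A h.isOpen _) (h.hol _)
    (hm k) ((hD k).trans inter_subset_left) (hi k)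
    ((hu _).comp measurable_subtype_coe)).aemeasurable]
  refine le_trans (ENNReal.tsum_le_tsum fun k => ?_) ((lintegral_iUnion (fun k =>
    sbd2_img h.inj (hm k) fun z hz => (hsub k hz).1) hd G).ge.trans
      (lintegral_mono_set (hU.subset.trans inter_subset_left)))
  rw [sbd2_lint (dom_open A h.isOpen _) (h.hol _) (hm k) (hD k) (hi k),
    vol_lint h.inj hμ (hm k) fun z hz => (hsub k hz).1]
  refine setLIntegral_mono' (hm k) fun z hz => ?_
  rw [ENNReal.ofReal_pow (norm_nonneg _), ofReal_norm, ofReal_norm, mul_comm]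
  exact (he _ z (hD k hz).1 (hr k z hz)).2

omit [T2Space X] [MeasurableSpace X] [BorelSpace X] in
theorem exists_den (hinj : ∀ i, InjOn (A.p i) (A.C i).W) (hΩ : IsOpen Ω) (h : HolV A Ω P) :
    ∃ δ : X → ℝ, ContinuousOn δ Ω ∧ ∀ i, ∀ z ∈ dom A Ω i,
      ‖(Jg A P i z).det‖ ^ 2 = ‖((A.C i).σ z).det‖ * δ (A.p i z) := by
  choose c z₀ hz₀ hp using A.cover
  have key : ∀ i, ∀ z ∈ dom A Ω i, ‖(Jg A P i z).det‖ ^ 2 = ‖((A.C i).σ z).det‖ *
      (‖(Jg A P (c (A.p i z)) (z₀ (A.p i z))).det‖ ^ 2 /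
        ‖((A.C (c (A.p i z))).σ (z₀ (A.p i z))).det‖) := by
    intro i z hz
    obtain ⟨O, φ, h1, h2, h3, h4⟩ := A.trans i _ z hz.1 _ (hz₀ (A.p i z)) (hp _).symm
    have h5 := norm_ne_zero_iff.2 ((A.C _).σ_det _ (hz₀ (A.p i z)))
    rw [h.jg hΩ h1 h4 h2 hz.2, h1.σ_eq z h2, h3]
    simp only [Matrix.det_mul, Matrix.det_transpose, norm_mul]
    field_simp
  refine ⟨fun x => ‖(Jg A P (c x) (z₀ x)).det‖ ^ 2 / ‖((A.C (c x)).σ (z₀ x)).det‖,
    fun x hx => ContinuousAt.continuousWithinAt fun V hV => ?_, key⟩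
  have h0 : z₀ x ∈ dom A Ω (c x) := ⟨hz₀ x, by rwa [mem_preimage, hp]⟩
  have h1 := ((sbd2_jc (dom_open A hΩ _) (h (c x))).div ((bpe0_det (c x)).mono inter_subset_left)
    fun z hz => norm_ne_zero_iff.2 ((A.C _).σ_det z hz.1)).continuousAt
      ((dom_open A hΩ _).mem_nhds h0)
  obtain ⟨O, hO, ho, hz⟩ := _root_.mem_nhds_iff.1 (inter_mem (h1 hV) ((dom_open A hΩ _).mem_nhds h0))
  refine mem_map.2 (_root_.mem_nhds_iff.2 ⟨A.p (c x) '' O, ?_, A.opn _ O ho fun z hz => (hO hz).2.1,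
    z₀ x, hz, hp x⟩)
  rintro _ ⟨z, hz, rfl⟩
  have h2 := (hO hz).1
  have h3 := norm_ne_zero_iff.2 ((A.C _).σ_det z (hO hz).2.1)
  have h4 := key _ z (hO hz).2
  rw [mem_preimage, ← mul_div_cancel_left₀ (_ / _) h3, ← h4]
  exact h2

theorem PrA.area_c (h : PrA A Ω Ω' P) (hμ : IsVolume A μ) [IsFiniteMeasure μ] {δ : X → ℝ}
    (hδ : ContinuousOn δ Ω) (he : ∀ i, ∀ z ∈ dom A Ω i,
      ‖(Jg A P i z).det‖ ^ 2 = ‖((A.C i).σ z).det‖ * δ (A.p i z)) {u : X → ℂ}
    (hu : ContinuousOn u Ω) {C : Set (E N)} (hC : IsCompact C) (hs : C ⊆ Ω') :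
    IntegrableOn (fsA Ω P u) C volume ∧
      ∫ w in C, fsA Ω P u w = ∫ x in Ω ∩ P ⁻¹' C, u x * δ x ∂μ := by
  classical
  have hT := hC.measurableSet
  have hK := h.proper C hC hs
  obtain ⟨κ, hκ, c, T, hm, hsub, hd, hi, hU⟩ := h.pieces hT
  have hD : ∀ k, T k ⊆ dom A Ω (c k) ∩ (fun z => P (A.p (c k) z)) ⁻¹' C := fun k z hz =>
    ⟨⟨(hsub k hz).1, (hsub k hz).2.1⟩, (hsub k hz).2.2⟩
  have hW : ∀ k, T k ⊆ (A.C (c k)).W := fun k z hz => (hsub k hz).1
  have himg := fun k => sbd2_img h.inj (hm k) (hW k)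
  have h0 := (h.ae hT hs).mono fun w hw => sbd2_hasSum h hd hi hU u hw.1 hw.2
  have h1 := h0.mono fun w hw => hw.tsum_eq.symm
  have hmeas : ∀ k, AEStronglyMeasurable (bpt6b_pc (fun z => P (A.p (c k) z)) (T k)
      fun z => u (A.p (c k) z)) (volume.restrict C) := fun k =>
    (sbd2_meas (dom_open A h.isOpen _) (h.hol _) (hm k) ((hD k).trans inter_subset_left) (hi k)
      (hu.comp ((A.cont _).mono (hW k)) fun z hz =>
        (hD k hz).1.2).domRestrict.measurable).aestronglyMeasurable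
  have hint : IntegrableOn (fun x => u x * δ x) (⋃ k, A.p (c k) '' T k) μ :=
    (((hu.mul (Complex.continuous_ofReal.comp_continuousOn hδ)).mono
      inter_subset_left).integrableOn_compact hK).mono_set (hU.subset.trans inter_subset_left)
  have key : ∀ k, ∀ z ∈ T k, u (A.p (c k) z) *
      (‖(jac (fun z => P (A.p (c k) z)) z).det‖ ^ 2 : ℝ) =
      ‖((A.C (c k)).σ z).det‖ • (u (A.p (c k) z) * δ (A.p (c k) z)) := fun k z hz => by
    have h2 := he _ z (hD k hz).1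
    rw [Jg] at h2
    rw [h2, Complex.real_smul, Complex.ofReal_mul]
    ring
  have hn : ∀ k w, ‖bpt6b_pc (fun z => P (A.p (c k) z)) (T k) (fun z => u (A.p (c k) z)) w‖ₑ =
      bpt6b_pc (fun z => P (A.p (c k) z)) (T k) (fun z => ‖u (A.p (c k) z)‖ₑ) w := by
    intro k w
    by_cases hw : w ∈ (fun z => P (A.p (c k) z)) '' T k
    · obtain ⟨z, hz, rfl⟩ := hw
      rw [bpt6b_apply (hi k) _ hz, bpt6b_apply (hi k) _ hz]
    · rw [bpt6b_zero _ hw, bpt6b_zero _ hw, enorm_zero]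
  have hfin : ∑' k, ∫⁻ w in C, ‖bpt6b_pc (fun z => P (A.p (c k) z)) (T k)
      (fun z => u (A.p (c k) z)) w‖ₑ < ⊤ := by
    refine lt_of_eq_of_lt ((tsum_congr fun k => ?_).trans
      (lintegral_iUnion himg hd _).symm) hint.2
    simp only [hn]
    rw [sbd2_lint (dom_open A h.isOpen _) (h.hol _) (hm k) (hD k) (hi k),
      vol_lint h.inj hμ (hm k) (hW k)]
    refine setLIntegral_congr_fun (hm k) fun z hz => ?_
    have h2 := congrArg (fun y : ℂ => ‖y‖ₑ) (key k z hz)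
    simp only [enorm_smul, Real.enorm_of_nonneg (norm_nonneg _)] at h2
    rw [← h2, enorm_mul, ← ofReal_norm ((_ : ℝ) : ℂ), Complex.norm_real,
      Real.norm_of_nonneg (sq_nonneg _)]
  refine ⟨⟨aestronglyMeasurable_of_tendsto_ae (atTop : Filter (Finset κ))
    (f := fun s w => ∑ k ∈ s, bpt6b_pc (fun z => P (A.p (c k) z)) (T k)
      (fun z => u (A.p (c k) z)) w)
    (fun s => Finset.aestronglyMeasurable_fun_sum _ fun n _ => hmeas n)
    (h0.mono fun w hw => hw), ?_⟩, ?_⟩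
  · refine lt_of_le_of_lt (lintegral_mono_ae (h1.mono fun w hw => ?_))
      (lt_of_eq_of_lt (lintegral_tsum fun n => (hmeas n).enorm) hfin)
    rw [hw]
    exact enorm_tsum_le_tsum_enorm
  · rw [integral_congr_ae h1, integral_tsum hmeas hfin.ne,
      setIntegral_eq_of_subset_of_forall_sdiff_eq_zero hK.measurableSet
        (hU.subset.trans inter_subset_left) fun x hx => ?_,
      ← (hasSum_integral_iUnion himg hd hint).tsum_eq]
    · refine tsum_congr fun k => ?_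
      rw [sbd2_int (dom_open A h.isOpen _) (h.hol _) (hm k) (hD k) (hi k),
        sbd2_vol h.inj hμ (hm k) (hW k)]
      exact setIntegral_congr_fun (hm k) (key k)
    · obtain ⟨i, z, hz, rfl⟩ := A.cover x
      have h2 : (Jg A P i z).det = 0 := by_contra fun h3 => hx.2 (hU.symm.subset
        ⟨hx.1, (reg_iff h.isOpen h.hol ⟨hz, hx.1.1⟩).2 h3⟩)
      have h3 := he i z ⟨hz, hx.1.1⟩
      rw [h2, norm_zero, zero_pow two_ne_zero, zero_eq_mul] at h3
      rw [h3.resolve_left (norm_ne_zero_iff.2 ((A.C i).σ_det z hz)), Complex.ofReal_zero, mul_zero]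

end Pool.Agent.BP
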