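import Pool.Agent.P.MP_63735c_ag.SBD1
import Pool.Agent.P.MP_63735c_ag.ABPU
import Pool.Agent.P.MP_63735c_ag.ABInt
import Pool.Agent.P.MP_63735c_ag.BPE0
import Pool.Agent.P.MP_63735c_ag.ZBA1

/-! The theorem of Stokes for compact support on an atlas. -/

open scoped ComplexOrder ContDiff Matrix Topology ENNReal
open Set Metric MeasureTheory Filter

namespace Pool.Agent.BP

open Pool.Agent.SPF Pool.Agent.AB Pool.Agent.CK Pool.Agent.SE Pool.Agent.NL

variable {N : ℕ} {X : Type} [TopologicalSpace X] [T2Space X] [MeasurableSpace X] [BorelSpace X]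
  {A : Atlas X N} {Ω : Set X} {Ω' : Set (E N)} {P : X → E N} {μ : Measure X}

theorem stokesA (hinj : ∀ i, InjOn (A.p i) (A.C i).W) (hμ : IsVolume A μ) [IsFiniteMeasure μ]
    (hΩ : IsOpen Ω) {C : Set X} (hC : IsCompact C) (hs : C ⊆ Ω) {Y : A.ι → E N → E N}
    (hY : ∀ i, ContDiffOn ℝ ∞ (Y i) (dom A Ω i))
    (h0 : ∀ i, ∀ z ∈ dom A Ω i, A.p i z ∉ C → Y i z = 0)
    (hc : ∀ i k O φ, IsChange (A.C i) (A.C k) O φ → (∀ w ∈ O, A.p k (φ w) = A.p i w) →
      ∀ z ∈ O, A.p i z ∈ Ω →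
        (jac φ z).map star *ᵥ Y i z = ((‖(jac φ z).det‖ ^ 2 : ℝ) : ℂ) • Y k (φ z))
    {G : X → ℂ} (hG : ∀ i, ∀ z ∈ dom A Ω i,
      ∑ b, dzb b (fun w => Y i w b) z = (‖((A.C i).σ z).det‖ : ℝ) * G (A.p i z)) :
    ∫ x in C, G x ∂μ = 0 := by
  have h1 := ZB.dens_zero hinj hμ hΩ hC hs (V := fun i z => star (Y i z)) (u := fun x => star (G x))
    (fun i => contDiffOn_pi.2 fun b => reg_star (contDiffOn_pi.1 (hY i) b))
    (fun i k O φ a1 a2 z hz hx => ?_) (fun i z hz hx => by rw [h0 i z hz hx, star_zero])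
    fun i z hz => ?_
  · have h2 : ∫ x in Ω, G x ∂μ = 0 := by
      have h3 := integral_conj (𝕜 := ℂ) (μ := μ.restrict Ω) (f := G)
      exact star_eq_zero.1 (h3.symm.trans h1)
    rw [← h2]
    refine (setIntegral_eq_of_subset_of_forall_sdiff_eq_zero hΩ.measurableSet hs ?_).symm
    rintro x ⟨hx, hx'⟩
    obtain ⟨i, z, hz, rfl⟩ := A.cover x
    have h4 := hG i z ⟨hz, hx⟩
    rw [Finset.sum_eq_zero fun b _ => (dz_zero_off (dom_open A hΩ i)
      (C := (dom A (Ω \ C) i)ᶜ) (dom_open A (hΩ.sdiff hC.isClosed) i).isClosed_compl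
      (fun w hw hw' => by rw [h0 i w hw (not_not.1 hw').2.2, Pi.zero_apply]) b z ⟨hz, hx⟩
      (not_not.2 ⟨hz, hx, hx'⟩)).2] at h4
    exact (mul_eq_zero.1 h4.symm).resolve_left
      (Complex.ofReal_ne_zero.2 (norm_ne_zero_iff.2 ((A.C i).σ_det z hz)))
  · have h2 := congrArg star (hc i k O φ a1 a2 z hz hx)
    rw [star_smul, Complex.star_def, Complex.conj_ofReal] at h2
    rw [← h2]
    funext a
    simp [Matrix.mulVec, dotProduct]
  · have h2 := congrArg star (hG i z hz)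
    rw [star_mul', Complex.star_def, Complex.conj_ofReal, ← Complex.star_def, star_sum] at h2
    rw [← h2]
    exact Finset.sum_congr rfl fun b _ => (star_dz _ z b).2

end Pool.Agent.BP
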