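import Pool.Agent.P.MP_63735c_ag.SBD2
import Pool.Agent.P.MP_63735c_ag.SBD3a
import Pool.Agent.P.MP_63735c_ag.BPT6c

/-! The trace of a holomorphic function on an atlas. -/

open scoped ComplexOrder ContDiff Matrix Topology ENNReal
open Set Metric MeasureTheory Filter

namespace Pool.Agent.BP

open Pool.Agent.SPF Pool.Agent.AB Pool.Agent.CK Pool.Agent.SE Pool.Agent.NL

variable {N : ℕ} {X : Type} [TopologicalSpace X] [T2Space X] [MeasurableSpace X] [BorelSpace X]
  {A : Atlas X N} {Ω : Set X} {Ω' : Set (E N)} {P : X → E N} {μ : Measure X}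

omit [TopologicalSpace X] [T2Space X] [MeasurableSpace X] [BorelSpace X] in
theorem fsA_sum {F : Type} [AddCommMonoid F] {d : ℕ} {q : Fin d → X} {y : E N}
    (hi : Function.Injective q) (e : Ω ∩ P ⁻¹' {y} = range q) (u : X → F) :
    fsA Ω P u y = ∑ l, u (q l) := by
  rw [fsA, e, finsum_mem_range hi, finsum_eq_sum_of_fintype]

theorem sbd3_div {Ω : Set (E N)} {P : E N → E N} (hΩ : IsOpen Ω) (hP : DifferentiableOn ℂ P Ω)
    {u r : E N → ℂ} (hu : DifferentiableOn ℂ u Ω) (hr : ContDiff ℝ ∞ r) (a : Fin N) :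
    (∀ b, ContDiffOn ℝ ∞
      (fun z => u z * (jac P z).det * (star ((jac P z).adjugate b a) * r (P z))) Ω) ∧
    ∀ z ∈ Ω, u z * dzb a r (P z) * (‖(jac P z).det‖ ^ 2 : ℝ) =
      ∑ b, dzb b (fun z => u z * (jac P z).det *
        (star ((jac P z).adjugate b a) * r (P z))) z := by
  have hus := bpt6c_smooth hΩ hu
  have hdh := bpt6c_det hΩ hP
  have hds := bpt6c_smooth hΩ hdh
  have hrs : ContDiffOn ℝ ∞ (fun z => r (P z)) Ω := hr.comp_contDiffOn (smooth_of_hol hΩ hP)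
  have has : ∀ b, ContDiffOn ℝ ∞ (fun w => (jac P w).adjugate b a) Ω := fun b =>
    adj_smooth (fun c e => bpt6c_smooth hΩ (jac_hol hΩ hP c e)) b a
  refine ⟨fun b => (hus.mul hds).mul ((abint_star (has b)).mul hrs), fun z hz => ?_⟩
  have hn := hΩ.mem_nhds hz
  have e : ∀ b, dzb b (fun z => u z * (jac P z).det *
      (star ((jac P z).adjugate b a) * r (P z))) z = u z * (jac P z).det *
        (star (dz b (fun w => (jac P w).adjugate b a) z) * r (P z) +
          ∑ c, star (jac P z c b * (jac P z).adjugate b a) * dzb c r (P z)) := by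
    intro b
    rw [(dz_mul (diffAt hΩ (hus.mul hds) hz) (diffAt hΩ ((abint_star (has b)).mul hrs) hz) b).2,
      (dz_of_diff ((hu.fun_mul hdh).differentiableAt hn) b).2, zero_mul, zero_add,
      (dz_mul (diffAt hΩ (abint_star (has b)) hz) (diffAt hΩ hrs hz) b).2, ← (star_dz _ z b).1,
      (dz_comp (hr.differentiable (by simp) _) (hP.differentiableAt hn) b).2,
      Finset.mul_sum]
    congr 2
    exact Finset.sum_congr rfl fun c _ => by rw [star_mul, mul_assoc]
  have e2 : ∀ c, ∑ b, star (jac P z c b * (jac P z).adjugate b a) * dzb c r (P z) =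
      if c = a then star (jac P z).det * dzb c r (P z) else 0 := by
    intro c
    rw [← Finset.sum_mul, ← star_sum, ← Matrix.mul_apply, Matrix.mul_adjugate, Matrix.smul_apply,
      Matrix.one_apply]
    split_ifs <;> simp
  simp only [e, ← Finset.mul_sum, Finset.sum_add_distrib]
  rw [← Finset.sum_mul, ← star_sum, bpt6c_piola hΩ hP hz, star_zero, zero_mul, zero_add,
    Finset.sum_comm]
  simp only [e2, Finset.sum_ite_eq', Finset.mem_univ, if_true]
  rw [Complex.ofReal_pow, ← Complex.mul_conj']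
  simp only [Complex.star_def]
  ring

theorem PrA.weak (h : PrA A Ω Ω' P) (hμ : IsVolume A μ) [IsFiniteMeasure μ] {u : X → ℂ}
    (hu : HolOn A Ω u) {B : Set (E N)} (hB : IsOpen B) (hs : B ⊆ Ω') {r : E N → ℂ} (hr : Tst B r)
    (a : Fin N) : ∫ y in B, fsA Ω P u y * dzb a r y = 0 := by
  have hΩ := h.isOpen
  have hC : IsCompact (tsupport r) := hr.cpt
  have r0 : ∀ z ∈ (univ : Set (E N)), z ∉ tsupport r → r z = 0 :=
    fun z _ hz => image_eq_zero_of_notMem_tsupport hz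
  have d0 : ∀ z, z ∉ tsupport r → dzb a r z = 0 := fun z hz =>
    (dz_zero_off isOpen_univ (isClosed_tsupport r) r0 a z trivial hz).2
  obtain ⟨δ, hδ, he⟩ := exists_den h.inj hΩ h.hol
  have hc : ContinuousOn (fun x => u x * dzb a r (P x)) Ω := (hu.cont hΩ).mul
    ((dz_smooth isOpen_univ hr.smooth.contDiffOn a).2.continuousOn.comp (h.hol.cont hΩ)
      (mapsTo_univ _ _))
  have hd := fun i => sbd3_div (dom_open A hΩ i) (h.hol i) (hu i) hr.smooth a
  rw [int_eq_cpt hB hC hr.sub fun z _ hz => by rw [d0 z hz, mul_zero]]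
  have e1 : ∀ y, fsA Ω P u y * dzb a r y = fsA Ω P (fun z => u z * dzb a r (P z)) y := by
    intro y
    rw [fsA, fsA, finsum_mem_mul]
    exact finsum_mem_congr rfl fun z hz => by rw [show P z = y from hz.2]
  simp only [e1]
  rw [(h.area_c hμ hδ he hc hC (hr.sub.trans hs)).2]
  refine stokesA h.inj hμ hΩ (h.proper _ hC (hr.sub.trans hs)) inter_subset_left
    (Y := fun i z b => u (A.p i z) * (Jg A P i z).det *
      (star ((Jg A P i z).adjugate b a) * r (P (A.p i z))))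
    (fun i => contDiffOn_pi.2 (hd i).1) (fun i z hz hz' => funext fun b => ?_)
    (fun i k O φ hc hp z hz hx => funext fun c => ?_) fun i z hz => ?_
  · rw [r0 _ trivial fun h1 => hz' ⟨hz.2, h1⟩, mul_zero, mul_zero, Pi.zero_apply]
  · have e : (jac φ z * (Jg A P i z).adjugate) c a =
        (jac φ z).det * (Jg A P k (φ z)).adjugate c a := by
      rw [h.hol.jg hΩ hc hp hz hx, Matrix.adjugate_mul_distrib, ← Matrix.mul_assoc,
        Matrix.mul_adjugate, Matrix.smul_mul, Matrix.one_mul, Matrix.smul_apply, smul_eq_mul]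
    have e' := congrArg star e
    rw [Matrix.mul_apply, star_sum] at e'
    simp only [star_mul'] at e'
    have e2 : ∀ b, star (jac φ z c b) * (u (A.p i z) * (Jg A P i z).det *
        (star ((Jg A P i z).adjugate b a) * r (P (A.p i z)))) = u (A.p i z) * (Jg A P i z).det *
        r (P (A.p i z)) * (star (jac φ z c b) * star ((Jg A P i z).adjugate b a)) := fun b => by ring
    simp only [Matrix.mulVec, dotProduct, Matrix.map_apply, e2, ← Finset.mul_sum, e', Pi.smul_apply,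
      smul_eq_mul, hp z hz]
    rw [h.hol.jg hΩ hc hp hz hx, Matrix.det_mul, Complex.ofReal_pow, ← Complex.mul_conj']
    simp only [Complex.star_def]
    ring
  · refine ((hd i).2 z hz).symm.trans ?_
    rw [show jac (fun z => P (A.p i z)) z = Jg A P i z from rfl, he i z hz]
    push_cast
    ring

omit [MeasurableSpace X] [BorelSpace X] in
theorem sbd3_loc (h : PrA A Ω Ω' P) {u : X → ℂ} (hu : HolOn A Ω u) {w : E N}
    (hw : w ∈ RVA A Ω Ω' P) : ∃ O, IsOpen O ∧ w ∈ O ∧ DifferentiableOn ℂ (fsA Ω P u) O := by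
  obtain ⟨d, O, c, q, h1, h2, -, h4, h5⟩ := h.sheets hw
  refine ⟨O, h1, h2, DifferentiableOn.congr (f := fun y => ∑ l, u (A.p (c l) (q l y)))
    (DifferentiableOn.fun_sum fun l _ => (hu (c l)).comp (h4 l) fun y hy => ?_)
    fun y hy => fsA_sum (h5 y hy).2.1 (h5 y hy).2.2 u⟩
  exact ⟨(h5 y hy).1 l, ((h5 y hy).2.2.symm.subset ⟨l, rfl⟩).1⟩

theorem PrA.trace (h : PrA A Ω Ω' P) (hμ : IsVolume A μ) [IsFiniteMeasure μ] {u : X → ℂ}
    (hu : HolOn A Ω u) :
    ∃ t : E N → ℂ, DifferentiableOn ℂ t Ω' ∧ EqOn t (fsA Ω P u) (RVA A Ω Ω' P) := by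
  obtain ⟨δ, hδ, he⟩ := exists_den h.inj h.isOpen h.hol
  have ex : ∀ w, ∃ (R : ℝ) (g : E N → ℂ), w ∈ Ω' → 0 < R ∧ ball w R ⊆ Ω' ∧
      DifferentiableOn ℂ g (ball w R) ∧ g =ᵐ[volume.restrict (ball w R)] fsA Ω P u := by
    intro w
    by_cases hw : w ∈ Ω'
    swap
    · exact ⟨0, 0, fun h1 => absurd h1 hw⟩
    obtain ⟨ε, hε, h1⟩ := nhds_basis_closedBall.mem_iff.1 (h.isOpen'.mem_nhds hw)
    have e : 2 * (ε / 2) = ε := by ring
    obtain ⟨g, h2, h3⟩ := weyl (f := fsA Ω P u) (z := w) (half_pos hε)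
      (by
        rw [e]
        exact (h.area_c hμ hδ he (hu.cont h.isOpen) (isCompact_closedBall w ε) h1).1.mono_set
          ball_subset_closedBall)
      (by
        rw [e]
        exact fun r hr a => h.weak hμ hu isOpen_ball (ball_subset_closedBall.trans h1) hr a)
    exact ⟨ε / 2, g, fun _ => ⟨half_pos hε,
      (ball_subset_closedBall.trans (closedBall_subset_closedBall (half_le_self hε.le))).trans h1,
      h2, h3⟩⟩
  choose R g hg using ex
  have key : ∀ w ∈ Ω', ∀ {O : Set (E N)} {f : E N → ℂ}, IsOpen O → w ∈ O → ContinuousOn f O →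
      f =ᵐ[volume.restrict O] fsA Ω P u → g w w = f w := by
    intro w hw O f h1 h2 h3 h4
    obtain ⟨h5, -, h6, h7⟩ := hg w hw
    exact Measure.eqOn_open_of_ae_eq (μ := volume) (U := ball w (R w) ∩ O)
      (EventuallyEq.trans (ae_restrict_of_ae_restrict_of_subset inter_subset_left h7)
        (ae_restrict_of_ae_restrict_of_subset inter_subset_right h4.symm))
      (isOpen_ball.inter h1) (h6.continuousOn.mono inter_subset_left) (h3.mono inter_subset_right)
      ⟨mem_ball_self h5, h2⟩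
  refine ⟨fun w => g w w, fun w hw => ?_, fun w hw => ?_⟩
  · obtain ⟨h5, h8, h6, h7⟩ := hg w hw
    have hn := ball_mem_nhds w h5
    refine ((h6.differentiableAt hn).congr_of_eventuallyEq ?_).differentiableWithinAt
    filter_upwards [hn] with y hy using key y (h8 hy) isOpen_ball hy h6.continuousOn h7
  · obtain ⟨O, h1, h2, h3⟩ := sbd3_loc h hu hw
    exact key w hw.1 h1 h2 h3.continuousOn EventuallyEq.rfl

omit [MeasurableSpace X] [BorelSpace X] in
theorem PrA.exists_der (h : PrA A Ω Ω' P) {u : X → ℂ} (hu : HolOn A Ω u) (v : E N) :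
    ∃ D : X → ℂ, (∀ i, ∀ z ∈ dom A Ω i, (Jg A P i z).det ≠ 0 →
      D (A.p i z) = fderiv ℂ (fun w => u (A.p i w)) z ((Jg A P i z)⁻¹ *ᵥ v)) ∧
      ∀ t : E N → ℂ, EqOn t (fsA Ω P u) (RVA A Ω Ω' P) → ∀ w ∈ RVA A Ω Ω' P,
        fderiv ℂ t w v = fsA Ω P D w := by
  choose ci zi hz hp using A.cover
  have key : ∀ i, ∀ z ∈ dom A Ω i, (Jg A P i z).det ≠ 0 →
      fderiv ℂ (fun w => u (A.p (ci (A.p i z)) w)) (zi (A.p i z))
        ((Jg A P (ci (A.p i z)) (zi (A.p i z)))⁻¹ *ᵥ v) =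
      fderiv ℂ (fun w => u (A.p i w)) z ((Jg A P i z)⁻¹ *ᵥ v) := by
    intro i z hd h0
    obtain ⟨O, φ, hc, hO, e, he⟩ := A.trans i _ z hd.1 _ (hz (A.p i z)) (hp _).symm
    have hn := hc.isOpen.mem_nhds hO
    have e1 : (fun w => u (A.p i w)) =ᶠ[𝓝 z] (fun w => u (A.p (ci (A.p i z)) w)) ∘ φ := by
      filter_upwards [hn] with w hw using congrArg u (he w hw).symm
    have e2 := h.hol.jg h.isOpen hc he hO hd.2
    rw [e2, Matrix.det_mul] at h0
    rw [e1.fderiv_eq, fderiv_comp z ((hu _).differentiableAt ((dom_open A h.isOpen _).mem_nhds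
      ⟨hc.maps hO, by rw [mem_preimage, he z hO]; exact hd.2⟩)) (hc.hol.differentiableAt hn),
      ContinuousLinearMap.comp_apply, ← bpt6c_jac, e2, Matrix.mul_inv_rev, Matrix.mulVec_mulVec,
      Matrix.mul_nonsing_inv_cancel_left _ _ (right_ne_zero_of_mul h0).isUnit, e]
  refine ⟨fun x => fderiv ℂ (fun w => u (A.p (ci x) w)) (zi x) ((Jg A P (ci x) (zi x))⁻¹ *ᵥ v),
    key, fun t ht w hw => ?_⟩
  obtain ⟨d, O, c, q, h1, h2, h3, h4, h5⟩ := h.sheets hw
  have hn := h1.mem_nhds h2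
  have hm : ∀ l, ∀ y ∈ O, A.p (c l) (q l y) ∈ Ω ∧ P (A.p (c l) (q l y)) = y := fun l y hy =>
    (h5 y hy).2.2.symm.subset ⟨l, rfl⟩
  have hw' : ∀ l, dom A Ω (c l) ∈ 𝓝 (q l w) := fun l =>
    (dom_open A h.isOpen _).mem_nhds ⟨(h5 w h2).1 l, (hm l w h2).1⟩
  have e : t =ᶠ[𝓝 w] fun y => ∑ l, u (A.p (c l) (q l y)) := by
    filter_upwards [hn] with y hy
    rw [ht (h3 hy), fsA_sum (h5 y hy).2.1 (h5 y hy).2.2]
  have hq : ∀ l, HasFDerivAt (q l) (fderiv ℂ (q l) w) w := fun l =>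
    ((h4 l).differentiableAt hn).hasFDerivAt
  have hd : ∀ l, HasFDerivAt (fun y => u (A.p (c l) (q l y)))
      ((fderiv ℂ (fun z => u (A.p (c l) z)) (q l w)).comp (fderiv ℂ (q l) w)) w := fun l =>
    ((hu (c l)).differentiableAt (hw' l)).hasFDerivAt.comp w (hq l)
  rw [e.fderiv_eq, (HasFDerivAt.fun_sum fun l _ => hd l).fderiv,
    fsA_sum (h5 w h2).2.1 (h5 w h2).2.2, sum_apply]
  refine Finset.sum_congr rfl fun l _ => ?_
  have hdet := hw.2 _ (hm l w h2).1 (hm l w h2).2 (c l) _ ((h5 w h2).1 l) rfl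
  rw [ContinuousLinearMap.comp_apply, key _ _ (mem_of_mem_nhds (hw' l)) hdet]
  congr 1
  have e1 : (fun y => P (A.p (c l) (q l y))) =ᶠ[𝓝 w] id := by
    filter_upwards [hn] with y hy using (hm l y hy).2
  have e2 := (((h.hol (c l)).differentiableAt (hw' l)).hasFDerivAt.comp w
    (hq l)).unique ((hasFDerivAt_id w).congr_of_eventuallyEq e1)
  have e3 : Jg A P (c l) (q l w) *ᵥ fderiv ℂ (q l) w v = v := by
    rw [Jg, bpt6c_jac]
    exact DFunLike.congr_fun e2 v
  conv_rhs => rw [← e3]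
  rw [Matrix.mulVec_mulVec, Matrix.nonsing_inv_mul _ hdet.isUnit, Matrix.one_mulVec]

theorem PrA.degree (h : PrA A Ω Ω' P) (hμ : IsVolume A μ) [IsFiniteMeasure μ] :
    ∃ d : E N → ℕ, (∀ w ∈ Ω', ∀ᶠ y in 𝓝 w, d y = d w) ∧
      ∀ w ∈ RVA A Ω Ω' P, (Ω ∩ P ⁻¹' {w}).Finite ∧ (Ω ∩ P ⁻¹' {w}).ncard = d w := by
  obtain ⟨t, h1, h2⟩ := h.trace hμ (u := fun _ => 1) fun _ => differentiableOn_const _
  have h3 : ∀ w ∈ RVA A Ω Ω' P, (Ω ∩ P ⁻¹' {w}).Finite ∧ t w = (Ω ∩ P ⁻¹' {w}).ncard := by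
    intro w hw
    obtain ⟨d, O, c, q, -, h4, -, -, h5⟩ := h.sheets hw
    rw [h2 hw, fsA_sum (h5 w h4).2.1 (h5 w h4).2.2, (h5 w h4).2.2,
      ncard_range_of_injective (h5 w h4).2.1]
    exact ⟨finite_range _, by simp⟩
  have hc : ∀ w ∈ Ω', ContinuousAt t w := fun w hw =>
    h1.continuousOn.continuousAt (h.isOpen'.mem_nhds hw)
  have h4 : ∀ w, ∃ n : ℕ, w ∈ Ω' → t w = n := by
    intro w
    by_cases hw : w ∈ Ω'
    swap
    · exact ⟨0, fun h5 => absurd h5 hw⟩
    have h5 := (hc w hw).continuousWithinAt.mem_closure (t := range (Nat.cast : ℕ → ℂ))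
      (h.rv_dense hw) fun y hy => ⟨_, (h3 y hy).2.symm⟩
    rw [(Nat.isClosedEmbedding_coe_real.isClosed_range |> fun h6 => by
      have h7 := Complex.isometry_ofReal.isClosedEmbedding.isClosedMap _ h6
      rw [← range_comp] at h7
      exact h7.closure_eq : closure (range (Nat.cast : ℕ → ℂ)) = range Nat.cast)] at h5
    obtain ⟨n, hn⟩ := h5
    exact ⟨n, fun _ => hn.symm⟩
  choose d hd using h4
  refine ⟨d, fun w hw => ?_, fun w hw => ⟨(h3 w hw).1, ?_⟩⟩
  · filter_upwards [h.isOpen'.mem_nhds hw, (hc w hw).eventually (ball_mem_nhds _ one_pos)]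
      with y hy h5
    rw [hd y hy, hd w hw, ← Complex.ofReal_natCast, ← Complex.ofReal_natCast,
      Complex.isometry_ofReal.dist_eq, Real.dist_eq, abs_lt] at h5
    have h6 : (d y : ℝ) < d w + 1 := by linarith [h5.2]
    have h7 : (d w : ℝ) < d y + 1 := by linarith [h5.1]
    have h8 : d y < d w + 1 := by exact_mod_cast h6
    have h9 : d w < d y + 1 := by exact_mod_cast h7
    omega
  · exact_mod_cast (h3 w hw).2.symm.trans (hd w hw.1)

end Pool.Agent.BP
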