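import Pool.Agent.P.MP_63735c_ag.SBD3
import Pool.Agent.P.MP_63735c_ag.BPTr

/-! The canonical trace on an atlas. -/

open scoped ComplexOrder ContDiff Matrix Topology ENNReal
open Set Metric MeasureTheory Filter

namespace Pool.Agent.BP

open Pool.Agent.SPF Pool.Agent.AB Pool.Agent.CK Pool.Agent.SE Pool.Agent.NL

variable {N : ℕ} {X : Type} [TopologicalSpace X] [T2Space X] [MeasurableSpace X] [BorelSpace X]
  {A : Atlas X N} {Ω : Set X} {Ω' : Set (E N)} {P : X → E N} {μ : Measure X}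

omit [T2Space X] [MeasurableSpace X] [BorelSpace X] in
theorem trA_congr {Ω₂ : Set X} {O : Set (E N)} {w : E N} (hO : O ∈ 𝓝 w)
    (he : Ω ∩ P ⁻¹' O = Ω₂ ∩ P ⁻¹' O) (h : X → ℂ) : trA A Ω P h w = trA A Ω₂ P h w := by
  have h0 : ∀ y ∈ O, ∀ z, P z = y → (z ∈ Ω ↔ z ∈ Ω₂) := fun y hy z e =>
    ⟨fun hz => (he.subset ⟨hz, show P z ∈ O from e ▸ hy⟩).1,
      fun hz => (he.symm.subset ⟨hz, show P z ∈ O from e ▸ hy⟩).1⟩
  have h1 : 𝓝[RVA A Ω univ P] w = 𝓝[RVA A Ω₂ univ P] w := by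
    refine nhdsWithin_eq_iff_eventuallyEq.2 (eventuallyEq_set.2 ?_)
    filter_upwards [hO] with y hy
    exact and_congr_right fun _ => ⟨fun H z hz e => H z ((h0 y hy z e).2 hz) e,
      fun H z hz e => H z ((h0 y hy z e).1 hz) e⟩
  have h2 : fsA Ω P h =ᶠ[𝓝[RVA A Ω₂ univ P] w] fsA Ω₂ P h := by
    filter_upwards [mem_nhdsWithin_of_mem_nhds hO] with y hy
    have : Ω ∩ P ⁻¹' {y} = Ω₂ ∩ P ⁻¹' {y} :=
      Set.ext fun z => and_congr_left fun e => h0 y hy z e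
    rw [fsA, fsA, this]
  rw [trA, trA, h1, limUnder, limUnder, map_congr h2]

omit [T2Space X] [MeasurableSpace X] [BorelSpace X] in
theorem sbd4_nhds (hP : PrA A Ω Ω' P) {w : E N} (hw : w ∈ Ω') :
    𝓝[RVA A Ω univ P] w = 𝓝[RVA A Ω Ω' P] w := by
  refine nhdsWithin_eq_iff_eventuallyEq.2 (eventuallyEq_set.2 ?_)
  filter_upwards [hP.isOpen'.mem_nhds hw] with y hy
  exact and_congr_left fun _ => ⟨fun _ => hy, fun _ => trivial⟩

omit [MeasurableSpace X] [BorelSpace X] in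
theorem sbd4_sheet (hP : PrA A Ω Ω' P) {w : E N} (hw : w ∈ RVA A Ω Ω' P) :
    ∃ (d : ℕ) (q : Fin d → X), Function.Injective q ∧ Ω ∩ P ⁻¹' {w} = range q := by
  obtain ⟨d, O, c, q, -, hO, -, -, hq⟩ := hP.sheets hw
  exact ⟨d, _, (hq w hO).2⟩

omit [T2Space X] [MeasurableSpace X] [BorelSpace X] in
theorem sbd4_sep (hP : PrA A Ω Ω' P) {z : X} (hz : z ∈ Ω) (T : Finset X) (hT : ∀ q ∈ T, q ∈ Ω) :
    ∃ h : X → ℂ, HolOn A Ω h ∧ h z = 1 ∧ ∀ q ∈ T, q ≠ z → h q = 0 := by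
  classical
  obtain ⟨M, v, h1, h2, -⟩ := hP.emb
  obtain ⟨g, h3, h4, h5⟩ := bptr_sep (v z) ((T.image v).erase (v z)) (Finset.notMem_erase _ _)
  exact ⟨fun x => g (v x), fun i => h3.comp_differentiableOn (h2 i), h4, fun q hq e =>
    h5 _ (Finset.mem_erase.2 ⟨fun e' => e (h1 (hT q hq) hz e'), Finset.mem_image_of_mem v hq⟩)⟩

theorem sbd4_enorm {a b c : ℂ} {g : ℝ} (h : ‖a‖ ^ 2 * ‖c‖ ^ 2 ≤ ‖b‖ * g) :
    ‖a‖ₑ ^ 2 * ‖c‖ₑ ^ 2 ≤ ‖b‖ₑ * ENNReal.ofReal g := by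
  rw [← ofReal_norm, ← ofReal_norm, ← ofReal_norm, ← ENNReal.ofReal_pow (norm_nonneg _),
    ← ENNReal.ofReal_pow (norm_nonneg _), ← ENNReal.ofReal_mul (by positivity),
    ← ENNReal.ofReal_mul (norm_nonneg _)]
  exact ENNReal.ofReal_le_ofReal h

variable [IsFiniteMeasure μ]

theorem sbd4_main (hP : PrA A Ω Ω' P) (hμ : IsVolume A μ) {h : X → ℂ} (hh : HolOn A Ω h) :
    DifferentiableOn ℂ (trA A Ω P h) Ω' ∧ EqOn (trA A Ω P h) (fsA Ω P h) (RVA A Ω Ω' P) := by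
  obtain ⟨t, ht, he⟩ := hP.trace hμ hh
  have h1 : EqOn (trA A Ω P h) t Ω' := fun w hw => by
    have := mem_closure_iff_nhdsWithin_neBot.1 (hP.rv_dense hw)
    rw [trA, sbd4_nhds hP hw]
    refine Tendsto.limUnder_eq (Tendsto.congr' (eventuallyEq_of_mem self_mem_nhdsWithin he) ?_)
    exact (ht.continuousOn.continuousAt (hP.isOpen'.mem_nhds hw)).continuousWithinAt
  exact ⟨ht.congr h1, fun w hw => (h1 hw.1).trans (he hw)⟩

theorem trA_hol (hP : PrA A Ω Ω' P) (hμ : IsVolume A μ) {h : X → ℂ} (hh : HolOn A Ω h) :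
    DifferentiableOn ℂ (trA A Ω P h) Ω' := (sbd4_main hP hμ hh).1

theorem sbd4_lim (hP : PrA A Ω Ω' P) (hμ : IsVolume A μ) {w : E N} (hw : w ∈ Ω') :
    ∃ (d : ℕ) (q : E N → Fin d → X),
      (∀ᶠ x in 𝓝[RVA A Ω Ω' P] w, Ω ∩ P ⁻¹' {x} = range (q x)) ∧
      ∀ U : Ultrafilter (E N), ↑U ≤ 𝓝[RVA A Ω Ω' P] w → ∃ y, Tendsto q U (𝓝 y) ∧
        (∀ i, y i ∈ Ω ∧ P (y i) = w) ∧
        ∀ h : X → ℂ, HolOn A Ω h → trA A Ω P h w = ∑ i, h (y i) := by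
  obtain ⟨d, hd, hc⟩ := hP.degree hμ
  have h1 : ∀ x, x ∈ RVA A Ω Ω' P ∧ d x = d w → ∃ q : Fin (d w) → X, Function.Injective q ∧
      Ω ∩ P ⁻¹' {x} = range q := by
    intro x hx
    obtain ⟨d', q, hq⟩ := sbd4_sheet hP hx.1
    have e : d' = d w := by
      rw [← hx.2, ← (hc x hx.1).2, hq.2, ncard_range_of_injective hq.1]
      simp
    subst e
    exact ⟨_, hq⟩
  have h2 : ∀ᶠ x in 𝓝[RVA A Ω Ω' P] w, x ∈ RVA A Ω Ω' P ∧ d x = d w :=
    eventually_mem_nhdsWithin.and (mem_nhdsWithin_of_mem_nhds (hd w hw))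
  have : Nonempty (Fin (d w) → X) := by
    have := mem_closure_iff_nhdsWithin_neBot.1 (hP.rv_dense hw)
    obtain ⟨x, hx⟩ := h2.exists
    exact ⟨(h1 x hx).choose⟩
  choose! q hq using h1
  refine ⟨d w, q, h2.mono fun x hx => (hq x hx).2, fun U hU => ?_⟩
  obtain ⟨r, hr, hb⟩ := nhds_basis_closedBall.mem_iff.1 (hP.isOpen'.mem_nhds hw)
  have hK := hP.proper _ (isCompact_closedBall w r) hb
  have h3 : ∀ᶠ x in (U : Filter (E N)), ∀ i, q x i ∈ Ω ∩ P ⁻¹' {x} :=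
    (h2.filter_mono hU).mono fun x hx i => (hq x hx).2.symm.subset (mem_range_self i)
  have hw' : Tendsto id (U : Filter (E N)) (𝓝 w) := hU.trans nhdsWithin_le_nhds
  obtain ⟨y, hy, hl⟩ := (isCompact_univ_pi fun _ : Fin (d w) => hK).ultrafilter_le_nhds (U.map q)
    (by
      rw [Ultrafilter.coe_map, le_principal_iff, mem_map]
      filter_upwards [h3, hw' (closedBall_mem_nhds w hr)] with x h4 h5 i _
      refine ⟨(h4 i).1, ?_⟩
      have e : P (q x i) = x := (h4 i).2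
      rw [mem_preimage, e]
      exact h5)
  have hl' : Tendsto q U (𝓝 y) := hl
  have hi : ∀ i, Tendsto (fun x => q x i) U (𝓝 (y i)) := tendsto_pi_nhds.1 hl'
  have hm : ∀ i, Ω ∈ 𝓝 (y i) := fun i => hP.isOpen.mem_nhds (hy i trivial).1
  refine ⟨y, hl', fun i => ⟨(hy i trivial).1, ?_⟩, fun h hh => ?_⟩
  · exact tendsto_nhds_unique ((((hP.hol.cont hP.isOpen).continuousAt (hm i)).tendsto.comp
      (hi i)).congr' (h3.mono fun x hx => (hx i).2)) hw'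
  · have h4 := sbd4_main hP hμ hh
    refine tendsto_nhds_unique (f := trA A Ω P h) (l := (U : Filter (E N)))
      ((h4.1.continuousOn.continuousAt (hP.isOpen'.mem_nhds hw)).tendsto.comp hw') ?_
    refine (tendsto_finsetSum _ fun i _ =>
      ((hh.cont hP.isOpen).continuousAt (hm i)).tendsto.comp (hi i)).congr' ?_
    filter_upwards [hU h2] with x hx
    rw [h4.2 hx.1, fsA_sum (hq x hx).1 (hq x hx).2]
    rfl

theorem trA_fam (hP : PrA A Ω Ω' P) (hμ : IsVolume A μ) (hN : 1 ≤ N) {w : E N} (hw : w ∈ Ω') :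
    ∃ (d : ℕ) (y : Fin d → X), (∀ i, y i ∈ Ω ∧ P (y i) = w) ∧
      (∀ z ∈ Ω, P z = w → ∃ i, y i = z) ∧
      ∀ h : X → ℂ, HolOn A Ω h → trA A Ω P h w = ∑ i, h (y i) := by
  classical
  obtain ⟨d, q, hq, hl⟩ := sbd4_lim hP hμ hw
  have := mem_closure_iff_nhdsWithin_neBot.1 (hP.rv_dense hw)
  obtain ⟨y, -, hy, hs⟩ := hl (Ultrafilter.of _) (Ultrafilter.of_le _)
  refine ⟨d, y, hy, fun z hz e => ?_, hs⟩
  have h1 := mem_closure_iff_nhdsWithin_neBot.1 (hP.rv_pull hN hz)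
  set F := 𝓝[{x | x ∈ Ω ∧ P x ∈ RVA A Ω Ω' P}] z with hF
  set V := Ultrafilter.of F
  have hV : (V : Filter X) ≤ F := Ultrafilter.of_le _
  have hz' : Tendsto id (V : Filter X) (𝓝 z) := hV.trans nhdsWithin_le_nhds
  have hm : ∀ᶠ x in (V : Filter X), x ∈ Ω ∧ P x ∈ RVA A Ω Ω' P := hV self_mem_nhdsWithin
  have hle : Tendsto P V (𝓝[RVA A Ω Ω' P] w) := tendsto_nhdsWithin_iff.2
    ⟨e ▸ ((hP.hol.cont hP.isOpen).continuousAt (hP.isOpen.mem_nhds hz)).tendsto.comp hz',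
      hm.mono fun x hx => hx.2⟩
  obtain ⟨y', hy1, hy2, hs'⟩ := hl (V.map P) hle
  have h2 : ∀ᶠ x in (V : Filter X), ∃ i ∈ (univ : Set (Fin d)), q (P x) i = x := by
    filter_upwards [hm, hle.eventually hq] with x h3 h4
    obtain ⟨i, hi⟩ := h4.subset ⟨h3.1, rfl⟩
    exact ⟨i, trivial, hi⟩
  obtain ⟨j, -, hj⟩ := (Ultrafilter.eventually_exists_mem_iff finite_univ).1 h2
  have h3 : y' j = z := tendsto_nhds_unique
    (Tendsto.congr' hj (tendsto_map'_iff.1 (tendsto_pi_nhds.1 hy1 j))) hz'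
  by_contra hc
  have hT : ∀ x ∈ Finset.univ.image y ∪ Finset.univ.image y', x ∈ Ω := fun x hx => by
    rcases Finset.mem_union.1 hx with hx | hx <;> obtain ⟨i, -, rfl⟩ := Finset.mem_image.1 hx
    · exact (hy i).1
    · exact (hy2 i).1
  obtain ⟨h, h4, h5, h6⟩ := sbd4_sep hP hz _ hT
  have h7 : ∑ i, h (y' i) = 0 := by
    rw [← hs' h h4, hs h h4]
    exact Finset.sum_eq_zero fun i _ => h6 _ (by simp) fun e' => hc ⟨i, e'⟩
  have h8 := (Finset.sum_eq_zero_iff_of_nonneg fun i _ => ?_).1 h7 j (Finset.mem_univ j)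
  · rw [h3, h5] at h8
    exact one_ne_zero h8
  · by_cases e' : y' i = z
    · rw [e', h5]
      exact zero_le_one
    · exact (h6 _ (by simp) e').ge

theorem sbd4_fib (hP : PrA A Ω Ω' P) (hμ : IsVolume A μ) {w : E N} (hw : w ∈ RVA A Ω Ω' P) {d : ℕ}
    (hd : trA A Ω P (fun _ => 1) w = d) :
    ∃ q : Fin d → X, Function.Injective q ∧ Ω ∩ P ⁻¹' {w} = range q := by
  obtain ⟨d', q, hq⟩ := sbd4_sheet hP hw
  rw [(sbd4_main hP hμ (h := fun _ => 1) fun _ => differentiableOn_const _).2 hw,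
    fsA_sum hq.1 hq.2] at hd
  obtain rfl : d' = d := by simpa using hd
  exact ⟨_, hq⟩

theorem trA_deg (hP : PrA A Ω Ω' P) (hμ : IsVolume A μ) {S : Set (E N)} (hS : MeasurableSet S)
    (hs : S ⊆ Ω') {d : ℕ} (hd : ∀ w ∈ S, trA A Ω P (fun _ => 1) w = d) {G : X → ℝ}
    (hG : ∀ i, ∀ z ∈ dom A Ω i,
      ‖(Jg A P i z).det‖ ^ 2 ≤ ‖((A.C i).σ z).det‖ * G (A.p i z)) :
    d * volume S ≤ ∫⁻ x in Ω ∩ P ⁻¹' S, ENNReal.ofReal (G x) ∂μ := by
  have h1 := hP.area_le hμ hS hs (u := fun _ => 1) (G := fun x => ENNReal.ofReal (G x))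
    (u' := fun _ _ => 1) (fun _ => measurable_const) fun i z hz _ => ⟨rfl, by
      have := sbd4_enorm (c := 1) (by simpa using hG i z hz)
      simpa using this⟩
  rw [← setLIntegral_const]
  refine le_trans (lintegral_mono_ae ((hP.ae hS hs).mono fun w hw => ?_)) h1
  obtain ⟨q, h2, h3⟩ := sbd4_fib hP hμ hw.1 (hd w hw.2)
  rw [fsA_sum h2 h3]
  simp

theorem trA_grad (hP : PrA A Ω Ω' P) (hμ : IsVolume A μ) {S : Set (E N)} (hS : MeasurableSet S)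
    (hs : S ⊆ Ω') {d : ℕ} (hd : ∀ w ∈ S, trA A Ω P (fun _ => 1) w = d) {h : X → ℂ}
    (hh : HolOn A Ω h) (v : E N) {G : X → ℝ} (hG : ∀ i, ∀ z ∈ dom A Ω i, ∀ u, Jg A P i z *ᵥ u = v →
      ‖(Jg A P i z).det‖ ^ 2 * ‖fderiv ℂ (fun w => h (A.p i w)) z u‖ ^ 2 ≤
        ‖((A.C i).σ z).det‖ * G (A.p i z)) :
    ∫⁻ w in S, ‖fderiv ℂ (trA A Ω P h) w v‖ₑ ^ 2 ≤
      d * ∫⁻ x in Ω ∩ P ⁻¹' S, ENNReal.ofReal (G x) ∂μ := by
  obtain ⟨D, hD, hD'⟩ := hP.exists_der hh v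
  have h1 := hP.area_le hμ hS hs (u := fun x => ‖D x‖ₑ ^ 2) (G := fun x => ENNReal.ofReal (G x))
    (u' := fun i z => ‖fderiv ℂ (fun w => h (A.p i w)) z ((Jg A P i z)⁻¹ *ᵥ v)‖ₑ ^ 2)
    (fun i => (bptr_meas (fun w => P (A.p i w)) (fun w => h (A.p i w)) v).enorm.pow_const 2)
    fun i z hz h0 => ⟨by rw [hD i z hz h0], sbd4_enorm (hG i z hz _ (by
      rw [Matrix.mulVec_mulVec, Matrix.mul_nonsing_inv _ (isUnit_iff_ne_zero.2 h0),
        Matrix.one_mulVec]))⟩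
  refine le_trans ?_ (mul_le_mul_right h1 _)
  rw [← lintegral_const_mul' _ _ (ENNReal.natCast_ne_top d)]
  refine lintegral_mono_ae ((hP.ae hS hs).mono fun w hw => ?_)
  obtain ⟨q, h2, h3⟩ := sbd4_fib hP hμ hw.1 (hd w hw.2)
  rw [hD' _ (sbd4_main hP hμ hh).2 w hw.1, fsA_sum h2 h3, fsA_sum h2 h3]
  exact bptr_cs _

end Pool.Agent.BP
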