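import Pool.Agent.P.MP_63735c_ag.SBD0
import Pool.Agent.P.MP_63735c_ag.BPD2

/-! The limit set and its scales. -/

open scoped ComplexOrder ContDiff Matrix Topology ENNReal
open Set Metric MeasureTheory Filter

namespace Pool.Agent.BP

open Pool.Agent.SPF Pool.Agent.AB Pool.Agent.CK Pool.Agent.SE Pool.Agent.NL

variable {N n : ℕ} {X Z : Type} [TopologicalSpace X] [TopologicalSpace Z] {A : Atlas X N}
  {K : Form11 A} {F : Fib A n} {φ : X → ℝ} {j : X → Z}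

theorem sbd5_bad (n : ℕ) {M : ℕ} (c : E M) {R ε : ℝ} (hR : 0 < R) (hε : 0 < ε) :
    volume {p : (Fin n → E M) × ℝ | R / 2 ≤ ‖c‖ ∧ (∀ a, (∀ b, ‖p.1 a b‖ ≤ 1) ∧
      ‖p.1 a ⬝ᵥ c - 0‖ ≤ (M + 1) * ε) ∧ p.2 ∈ Icc (‖c‖ - ε) (‖c‖ + ε)} ≤
      ENNReal.ofReal ((2 * (M + 1) / R) ^ (2 * n) * 2 * ε * ε ^ (2 * n)) *
        ((NNReal.pi : ℝ≥0∞) ^ M) ^ n := by
  by_cases hc : R / 2 ≤ ‖c‖
  swap
  · simp [hc]
  obtain ⟨b₀, hb⟩ : ∃ b, R / 2 ≤ ‖c b‖ := by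
    by_contra h
    push Not at h
    exact absurd ((pi_norm_lt_iff (by positivity)).2 h) (not_lt.2 hc)
  have hb0 : 0 < ‖c b₀‖ := lt_of_lt_of_le (by positivity) hb
  have e : {p : (Fin n → E M) × ℝ | R / 2 ≤ ‖c‖ ∧ (∀ a, (∀ b, ‖p.1 a b‖ ≤ 1) ∧
      ‖p.1 a ⬝ᵥ c - 0‖ ≤ (M + 1) * ε) ∧ p.2 ∈ Icc (‖c‖ - ε) (‖c‖ + ε)} =
      (Set.pi univ fun _ => {x : E M | (∀ b, ‖x b‖ ≤ 1) ∧ ‖x ⬝ᵥ c - 0‖ ≤ (M + 1) * ε}) ×ˢ
        Icc (‖c‖ - ε) (‖c‖ + ε) := by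
    ext p
    simp [hc]
  rw [e, Measure.volume_eq_prod, Measure.prod_prod, volume_pi_pi, Real.volume_Icc]
  have h1 : volume {x : E M | (∀ b, ‖x b‖ ≤ 1) ∧ ‖x ⬝ᵥ c - 0‖ ≤ (M + 1) * ε} ≤
      ENNReal.ofReal ((2 * (M + 1) / R * ε) ^ 2) * (NNReal.pi : ℝ≥0∞) ^ M := by
    refine (bpt9_row c b₀ (norm_pos_iff.1 hb0) _ (by positivity)).trans ?_
    gcongr
    calc (M + 1) * ε / ‖c b₀‖ ≤ (M + 1) * ε / (R / 2) := by gcongr
      _ = 2 * (M + 1) / R * ε := by field_simp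
  refine (mul_le_mul_left (Finset.prod_le_prod' fun a _ => h1) _).trans (le_of_eq ?_)
  rw [Finset.prod_const, Finset.card_univ, Fintype.card_fin, mul_pow,
    ← ENNReal.ofReal_pow (by positivity), mul_right_comm, ← ENNReal.ofReal_mul (by positivity)]
  congr 2
  rw [← pow_mul, mul_pow]
  ring

theorem planeS (n M : ℕ) (hn : 1 ≤ n) {S : Set (E M)} {C ε₀ : ℝ} (h0 : 0 < ε₀)
    (hS : ∀ ε, 0 < ε → ε ≤ ε₀ → ∃ T : Finset (E M), (T.card : ℝ) * ε ^ (2 * n) ≤ C ∧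
      S ⊆ ⋃ c ∈ T, closedBall c ε) {R : ℝ} (hR : 0 < R) :
    ∃ (L : E M →L[ℂ] E n) (r : ℝ), R ≤ r ∧ r ≤ 2 * R ∧ ∀ w ∈ S, L w = 0 → ‖w‖ ≠ r := by
  by_contra hcon
  push Not at hcon
  set κ : ℝ := (2 * (M + 1) / R) ^ (2 * n) * 2 with hκ
  have hκ0 : 0 < κ := by positivity
  obtain ⟨ε, hε, h1, h2, h3⟩ : ∃ ε : ℝ, 0 < ε ∧ ε ≤ ε₀ ∧ ε ≤ R / 2 ∧ κ * ε * C < R := by
    have hq : 0 < κ * (|C| + 1) := by positivity
    refine ⟨min (min ε₀ (R / 2)) (R / (κ * (|C| + 1))), by positivity,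
      (min_le_left _ _).trans (min_le_left _ _), (min_le_left _ _).trans (min_le_right _ _), ?_⟩
    set ε := min (min ε₀ (R / 2)) (R / (κ * (|C| + 1)))
    have e0 : 0 < ε := by positivity
    have e1 : ε * (κ * (|C| + 1)) ≤ R := (le_div_iff₀ hq).1 (min_le_right _ _)
    have e2 : C < |C| + 1 := (le_abs_self C).trans_lt (lt_add_one _)
    have e3 : κ * ε * C < κ * ε * (|C| + 1) := mul_lt_mul_of_pos_left e2 (by positivity)
    linarith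
  obtain ⟨T, hT, hZT⟩ := hS ε hε h1
  have hs : (Set.pi univ fun _ : Fin n => Set.pi univ fun _ : Fin M => closedBall (0 : ℂ) 1) ×ˢ
      Icc R (2 * R) ⊆ ⋃ c ∈ T, {p : (Fin n → E M) × ℝ | R / 2 ≤ ‖c‖ ∧
        (∀ a, (∀ b, ‖p.1 a b‖ ≤ 1) ∧ ‖p.1 a ⬝ᵥ c - 0‖ ≤ (M + 1) * ε) ∧
        p.2 ∈ Icc (‖c‖ - ε) (‖c‖ + ε)} := by
    rintro ⟨B, r⟩ ⟨hA, hr⟩
    have hA' : ∀ a b, ‖B a b‖ ≤ 1 := fun a b => by
      simpa using hA a (mem_univ _) b (mem_univ _)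
    obtain ⟨z, hz, hz1, hz2⟩ := hcon (LinearMap.toContinuousLinearMap (Matrix.of B).mulVecLin) r
      hr.1 hr.2
    obtain ⟨c, hc, hzc⟩ := mem_iUnion₂.1 (hZT hz)
    rw [mem_closedBall, dist_eq_norm] at hzc
    have h4 := (abs_norm_sub_norm_le z c).trans hzc
    rw [hz2, abs_le] at h4
    have h5 := hr.1
    refine mem_iUnion₂.2 ⟨c, hc, by linarith [h4.2], fun a => ⟨hA' a, ?_⟩,
      by linarith [h4.1], by linarith [h4.2]⟩
    have e : B a ⬝ᵥ c - 0 = -∑ b, B a b * (z - c) b := by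
      have : B a ⬝ᵥ z = 0 := congrFun hz1 a
      change _ = -(B a ⬝ᵥ (z - c))
      rw [dotProduct_sub, this, zero_sub, neg_neg, sub_zero]
    have h6 : ‖∑ b, B a b * (z - c) b‖ ≤ M * ε := by
      refine (norm_sum_le _ _).trans ((Finset.sum_le_card_nsmul _ _ ε fun b _ => ?_).trans ?_)
      · rw [norm_mul]
        exact (mul_le_of_le_one_left (norm_nonneg _) (hA' a b)).trans
          ((norm_le_pi_norm _ b).trans hzc)
      · simp
    change ‖B a ⬝ᵥ c - 0‖ ≤ _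
    rw [e, norm_neg]
    linarith
  have h8 := (measure_mono (μ := volume) hs).trans ((measure_biUnion_finset_le T _).trans
    (Finset.sum_le_card_nsmul _ _ _ fun c _ => sbd5_bad n c hR hε))
  rw [Measure.volume_eq_prod, Measure.prod_prod, volume_pi_pi, Real.volume_Icc] at h8
  simp only [volume_pi_pi, Complex.volume_closedBall, Finset.prod_const, Finset.card_univ,
    Fintype.card_fin, ENNReal.ofReal_one, one_pow, one_mul, nsmul_eq_mul] at h8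
  have hpi : ((NNReal.pi : ℝ≥0∞) ^ M) ^ n ≠ 0 :=
    pow_ne_zero _ (pow_ne_zero _ (ENNReal.coe_ne_zero.2 NNReal.pi_ne_zero))
  have hpi' : ((NNReal.pi : ℝ≥0∞) ^ M) ^ n ≠ ⊤ :=
    ENNReal.pow_ne_top (ENNReal.pow_ne_top ENNReal.coe_ne_top)
  rw [mul_comm, ← mul_assoc, ENNReal.mul_le_mul_iff_left hpi hpi', ← ENNReal.ofReal_natCast,
    ← ENNReal.ofReal_mul (Nat.cast_nonneg _), ENNReal.ofReal_le_ofReal_iff (by positivity),
    ← hκ] at h8
  have h9 := mul_le_mul_of_nonneg_left hT (show 0 ≤ κ * ε by positivity)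
  linarith

theorem Fib.limS_closed (U : Filter X) : IsClosed (F.LimS j U) := by
  refine isClosed_of_closure_subset fun y hy O hO => ?_
  obtain ⟨y₁, h1, h2⟩ := mem_closure_iff_nhds.1 hy _ (interior_mem_nhds.2 hO)
  exact h2 O (mem_interior_iff_mem_nhds.1 h1)

theorem Fib.limS_trap [CompactSpace Z] (U : Ultrafilter X) {O : Set Z} (hO : IsOpen O)
    (h : F.LimS j U ⊆ O) : ∀ᶠ x in (U : Filter X), ∀ y, F.r x y → j y ∈ O := by
  have key : ∀ᶠ x in (U : Filter X), ¬ ∃ y, j y ∈ Oᶜ ∧ F.r x y := by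
    refine hO.isClosed_compl.isCompact.induction_on
      (p := fun s => ∀ᶠ x in (U : Filter X), ¬ ∃ y, j y ∈ s ∧ F.r x y) (by simp)
      (fun s t hst ht => ht.mono fun x hx ⟨y, h1, h2⟩ => hx ⟨y, hst h1, h2⟩)
      (fun s t hs ht => ?_) fun y hy => ?_
    · filter_upwards [hs, ht] with x h1 h2
      rintro ⟨y, h3 | h3, h4⟩
      exacts [h1 ⟨y, h3, h4⟩, h2 ⟨y, h3, h4⟩]
    · by_contra hc
      refine hy (h fun O' hO' => by_contra fun h1 => hc ⟨O', mem_nhdsWithin_of_mem_nhds hO', ?_⟩)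
      exact Ultrafilter.eventually_not.2 h1
  exact key.mono fun x hx y hy => by_contra fun hc => hx ⟨y, hc, hy⟩

theorem sbd5_cpt [T2Space Z] {W : Set X} (e : Em A K W φ j) {o : E e.M} {r r' : ℝ}
    (h : IsCompact (e.O ∩ e.z ⁻¹' closedBall o r)) (hr : r' ≤ r) :
    IsCompact (e.O ∩ e.z ⁻¹' closedBall o r') := by
  have h2 := h.of_isClosed_subset ((e.cont.mono inter_subset_left).preimage_isClosed_of_isClosed
    h.isClosed (isClosed_closedBall (x := o) (ε := r'))) inter_subset_left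
  rwa [inter_assoc, ← preimage_inter, inter_eq_right.2 (closedBall_subset_closedBall hr)] at h2

theorem sbd5_shrink [CompactSpace Z] [T2Space Z] {W : Set X} {y : Z}
    (h : ∃ e : Em A K W φ j, y ∈ e.O) {B₀ : Set Z} (hB : B₀ ∈ 𝓝 y) :
    ∃ (e : Em A K W φ j) (r : ℝ), y ∈ e.O ∧ 0 < r ∧
      IsCompact (e.O ∩ e.z ⁻¹' closedBall (e.z y) (2 * r)) ∧ e.O ⊆ B₀ := by
  obtain ⟨e, hy⟩ := h
  obtain ⟨Q, hQ, h1, h0⟩ := exists_compact_subset (e.opn.inter isOpen_interior)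
    ⟨hy, mem_interior_iff_mem_nhds.2 hB⟩
  have h2 := h0.trans inter_subset_left
  have h3 := interior_subset.trans h2
  have h4 : IsClosed (e.z '' (Q \ interior Q)) := ((hQ.diff isOpen_interior).image_of_continuousOn
    (e.cont.mono (sdiff_subset.trans h2))).isClosed
  obtain ⟨r, hr, h5⟩ := nhds_basis_closedBall.mem_iff.1 (h4.isOpen_compl.mem_nhds
    (show e.z y ∉ _ from fun ⟨w, hw, e'⟩ => hw.2 (e.inj (h2 hw.1) hy e' ▸ h1)))
  refine ⟨{ e with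
    O := interior Q
    opn := isOpen_interior
    cont := e.cont.mono h3
    inj := e.inj.mono h3
    hol := fun i => (e.hol i).mono fun w hw => ⟨hw.1, h3 hw.2⟩
    imm := fun i w hw => e.imm i w ⟨hw.1, h3 hw.2⟩
    low := fun i w hw => e.low i w ⟨hw.1, h3 hw.2⟩
    s_hol := fun i => (e.s_hol i).mono fun w hw => ⟨hw.1, hw.2.1, h3 hw.2.2⟩
    s_bd := fun w hw => e.s_bd w ⟨hw.1, h3 hw.2⟩ }, r / 2, h1, by positivity, ?_,
    fun w hw => interior_subset (h0 (interior_subset hw)).2⟩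
  have h6 : interior Q ∩ e.z ⁻¹' closedBall (e.z y) (2 * (r / 2)) =
      Q ∩ e.z ⁻¹' closedBall (e.z y) r := by
    rw [mul_div_cancel₀ _ two_ne_zero]
    exact Subset.antisymm (inter_subset_inter_left _ interior_subset) fun w hw =>
      ⟨by_contra fun hn => h5 hw.2 ⟨w, ⟨hw.1, hn⟩, rfl⟩, hw.2⟩
  exact h6 ▸ hQ.of_isClosed_subset ((e.cont.mono h2).preimage_isClosed_of_isClosed hQ.isClosed
    isClosed_closedBall) inter_subset_left

/-- The limit set has a small packing number. -/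
theorem sbd5_pack {e : Em A K F.W φ j} (hP : F.PackS e) (U : Ultrafilter X) (hU : F.W ∈ U)
    {o : E e.M} {R : ℝ} (h0 : 0 < R) (hR : IsCompact (e.O ∩ e.z ⁻¹' closedBall o (2 * R))) :
    ∃ B : ℝ, ∀ ε, 0 < ε → ε ≤ R → ∀ {κ : Type} (T : Finset κ) (w : κ → Z),
      (∀ t ∈ T, w t ∈ e.O ∧ e.z (w t) ∈ ball o R ∧ w t ∈ F.LimS j U) →
        (∀ t ∈ T, ∀ t' ∈ T, t ≠ t' → ε < dist (e.z (w t)) (e.z (w t'))) →
          T.card * (ε / 2) ^ (2 * n) ≤ B := by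
  classical
  obtain ⟨B, hB⟩ := hP o R h0 hR
  refine ⟨B, fun ε hε hε' κ T w h1 h2 => ?_⟩
  have h3 : ∀ᶠ x in (U : Filter X), ∀ t ∈ T,
      ∃ y', j y' ∈ e.O ∩ e.z ⁻¹' (ball (e.z (w t)) (ε / 4) ∩ ball o R) ∧ F.r x y' :=
    (eventually_all_finset T).2 fun t ht => (h1 t ht).2.2 _
      ((e.cont.isOpen_inter_preimage e.opn (isOpen_ball.inter isOpen_ball)).mem_nhds
        ⟨(h1 t ht).1, mem_ball_self (by positivity), (h1 t ht).2.1⟩)
  obtain ⟨x, hx, h4⟩ := (Eventually.and hU h3).exists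
  have : Nonempty X := ⟨x⟩
  choose! v hv hr using h4
  have h6 : ∀ t ∈ T, ∀ t' ∈ T, t ≠ t' → ε / 2 ≤ dist (e.v (v t)) (e.v (v t')) :=
    fun t ht t' ht' hne => by
      have a1 := mem_ball'.1 (hv t ht).2.1
      have a2 := mem_ball.1 (hv t' ht').2.1
      linarith [h2 t ht t' ht' hne, dist_triangle4 (e.z (w t)) (e.v (v t)) (e.v (v t')) (e.z (w t'))]
  rw [← Finset.card_image_of_injOn (f := v) fun t ht t' ht' e' => by_contra fun hne => by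
    have := h6 t ht t' ht' hne
    rw [e', dist_self] at this
    linarith]
  refine hB x hx _ (by positivity) (by linarith) _ (fun a ha => ?_) fun a ha b hb hab => ?_
  · obtain ⟨t, ht, rfl⟩ := Finset.mem_image.1 ha
    exact ⟨(hv t ht).1, ball_subset_closedBall (hv t ht).2.2, hr t ht⟩
  · obtain ⟨t, ht, rfl⟩ := Finset.mem_image.1 ha
    obtain ⟨t', ht', rfl⟩ := Finset.mem_image.1 hb
    exact h6 t ht t' ht' fun e' => hab (by rw [e'])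

theorem Fib.exists_sz' [CompactSpace Z] [T2Space Z] (hN : N = 2 * n) (hn : 1 ≤ n)
    (hP : ∀ e : Em A K F.W φ j, F.PackS e) (U : Ultrafilter X) (hU : F.W ∈ U) {y : Z}
    (hE : ∃ e : Em A K F.W φ j, y ∈ e.O) {B₀ : Set Z} (hB₀ : B₀ ∈ 𝓝 y) :
    ∃ e : Sz A K F.W φ j n, y ∈ e.core ∧ Disjoint e.shell (F.LimS j U) ∧ e.O ⊆ B₀ := by
  obtain ⟨e, r₀, hy, h0, hc, hs⟩ := sbd5_shrink hE hB₀
  let ε : Fin n ⊕ Fin n ≃ Fin N := finSumFinEquiv.trans (finCongr (by omega))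
  obtain ⟨B, hB⟩ := sbd5_pack (hP e) U hU h0 hc
  obtain ⟨R, hR, rfl⟩ : ∃ R : ℝ, 0 < R ∧ r₀ = 4 * R := ⟨r₀ / 4, by positivity, by ring⟩
  have : Nonempty Z := ⟨y⟩
  obtain ⟨L, r, hr1, hr2, hr⟩ := planeS n e.M hn (C := B * 2 ^ (2 * n))
    (S := (fun w => e.z w - e.z y) ''
      {w | w ∈ e.O ∧ e.z w ∈ ball (e.z y) (4 * R) ∧ w ∈ F.LimS j U}) h0
    (fun δ hδ hδ' => by
      obtain ⟨T, h1, h2⟩ := cover_of_sep (C := B / (δ / 2) ^ (2 * n))
        (Z := (fun w => e.z w - e.z y) ''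
          {w | w ∈ e.O ∧ e.z w ∈ ball (e.z y) (4 * R) ∧ w ∈ F.LimS j U}) hδ
        fun T h1 h2 => by
          choose! w hw e' using fun t (ht : t ∈ T) => h1 ht
          refine (le_div_iff₀ (by positivity)).2 (hB δ hδ hδ' T w hw fun t ht t' ht' hne => ?_)
          have := h2 t ht t' ht' hne
          rwa [← e' t ht, ← e' t' ht', dist_sub_right] at this
      refine ⟨T, ?_, h2⟩
      rwa [le_div_iff₀ (by positivity), div_pow, ← mul_div_assoc,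
        div_le_iff₀ (by positivity)] at h1) hR
  have hK := (sbd5_cpt e hc (show 3 * R ≤ 2 * (4 * R) by linarith)).inter_right
    (Fib.limS_closed (F := F) (j := j) U)
  have hz := e.cont.mono (show e.O ∩ e.z ⁻¹' closedBall (e.z y) (3 * R) ∩ F.LimS j U ⊆ e.O from
    fun w hw => hw.1.1)
  obtain ⟨η, hη, h1⟩ := hK.exists_forall_le' (a := 0)
    (f := fun w => dist (L (e.z w)) (L (e.z y)) + |dist (e.z w) (e.z y) - r|) (by fun_prop)
    fun w hw => by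
      refine lt_of_le_of_ne (by positivity) fun e' => ?_
      obtain ⟨a1, a2⟩ := (add_eq_zero_iff_of_nonneg dist_nonneg (abs_nonneg _)).1 e'.symm
      rw [dist_eq_norm, norm_eq_zero, ← map_sub] at a1
      rw [abs_eq_zero, sub_eq_zero, dist_eq_norm] at a2
      exact hr _ ⟨w, ⟨hw.1.1, closedBall_subset_ball (by linarith) hw.1.2, hw.2⟩, rfl⟩ a1 a2
  obtain ⟨ρ, hρ, b1, b2⟩ : ∃ ρ : ℝ, 0 < ρ ∧ 3 * ρ < η ∧ ρ < R :=
    ⟨min (η / 4) (R / 2), by positivity, by linarith [min_le_left (η / 4) (R / 2)],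
      by linarith [min_le_right (η / 4) (R / 2)]⟩
  refine ⟨⟨e, ε, L, L (e.z y), e.z y, ρ, r - ρ, r + ρ, hρ, by linarith,
    sbd5_cpt e hc (by linarith)⟩,
    ⟨hy, mem_ball_self hρ, mem_ball_self (show 0 < r - ρ by linarith)⟩, disjoint_left.2 ?_, hs⟩
  rintro w ⟨a0, a1, a2, a3⟩ hw
  have a5 : dist (L (e.z w)) (L (e.z y)) ≤ 2 * ρ := a1
  have a6 : dist (e.z w) (e.z y) ≤ r + ρ := a2
  have a7 : r - ρ ≤ dist (e.z w) (e.z y) := not_lt.1 a3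
  have a4 := h1 w ⟨⟨a0, show dist (e.z w) (e.z y) ≤ 3 * R by linarith⟩, hw⟩
  have a8 : |dist (e.z w) (e.z y) - r| ≤ ρ := abs_le.2 ⟨by linarith, by linarith⟩
  linarith

theorem Fib.exists_sz [CompactSpace Z] [T2Space Z] (hN : N = 2 * n) (hn : 1 ≤ n)
    (hP : ∀ e : Em A K F.W φ j, F.PackS e) (hE : ∀ y : Z, ∃ e : Em A K F.W φ j, y ∈ e.O)
    (U : Ultrafilter X) (hU : F.W ∈ U) (y : Z) :
    ∃ e : Sz A K F.W φ j n, y ∈ e.core ∧ Disjoint e.shell (F.LimS j U) :=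
  (Fib.exists_sz' hN hn hP U hU (hE y) univ_mem).imp fun _ h => ⟨h.1, h.2.1⟩

end Pool.Agent.BP
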