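import Pool.Agent.P.MP_63735c_ag.SBD1
import Pool.Agent.P.MP_63735c_ag.BPDpx

/-! The packing bound in a local embedding. -/

open scoped ComplexOrder ContDiff Matrix Topology ENNReal
open Set Metric MeasureTheory Filter

namespace Pool.Agent.BP

open Pool.Agent.SPF Pool.Agent.AB Pool.Agent.CK Pool.Agent.SE Pool.Agent.NL

variable {N n : ℕ} {X Z : Type} [TopologicalSpace X] [TopologicalSpace Z] [MeasurableSpace X]
  {A : Atlas X N} {K : Form11 A} {F : Fib A n} {φ : X → ℝ} {j : X → Z} {μ : Measure X}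
  {h : X → Mat n} {c₀ : ℝ}

omit [MeasurableSpace X] in
theorem sbd6_key (hinj : ∀ i, InjOn (A.p i) (A.C i).W) {Ψ : E n → X} (hW : ∀ τ, Ψ τ ∈ F.W)
    (hl : ∀ τ, ∃ (i : A.ι) (f : E n → E N), ∀ᶠ t in 𝓝 τ, DifferentiableAt ℂ f t ∧
      f t ∈ (A.C i).W ∧ A.p i (f t) = Ψ t ∧ jac f t = Vf A F.g i (f t))
    {M : ℕ} {U : Set X} (hU : IsOpen U) {v : X → E M} (hv : HolV A U v) {τ : E n}
    (hτ : Ψ τ ∈ U) : Continuous Ψ ∧ ∃ i z, z ∈ dom A F.W i ∧ z ∈ dom A U i ∧ A.p i z = Ψ τ ∧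
      (∀ᶠ t in 𝓝 τ, DifferentiableAt ℂ (fun t => v (Ψ t)) t) ∧ ∀ τ', Ψ τ' = Ψ τ →
        jac (fun t => v (Ψ t)) τ' = jac (fun w => v (A.p i w)) z * Vf A F.g i z := by
  obtain ⟨i, z, hz, ez⟩ := A.cover (Ψ τ)
  obtain ⟨hΨ, q, h1, h2⟩ := bpdp_lift hinj hW hl i
  have aux : ∀ t ∈ Ψ ⁻¹' (A.p i '' (A.C i).W), Ψ t ∈ U →
      DifferentiableAt ℂ (fun t => v (Ψ t)) t ∧
        jac (fun t => v (Ψ t)) t = jac (fun w => v (A.p i w)) (q t) * Vf A F.g i (q t) :=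
    fun t ht htU => by
      have a1 : (fun t => v (Ψ t)) =ᶠ[𝓝 t] (fun w => v (A.p i w)) ∘ q := by
        filter_upwards [h1.opn.mem_nhds ht] with s hs
        rw [Function.comp_apply, (h2 s hs).2.1]
      have a2 : q t ∈ dom A U i := ⟨(h2 t ht).1, by
        rw [mem_preimage, (h2 t ht).2.1]
        exact htU⟩
      have a3 := (hv i).differentiableAt ((dom_open A hU i).mem_nhds a2)
      have a4 := (h1.hol t ht).self_of_nhds
      refine ⟨(a3.comp t a4).congr_of_eventuallyEq a1, ?_⟩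
      rw [← (h2 t ht).2.2, ← bpdp_comp a3 a4]
      simp only [jac, a1.fderiv_eq]
  refine ⟨hΨ, i, z, ⟨hz, ?_⟩, ⟨hz, ?_⟩, ez, ?_, fun τ' e => ?_⟩
  · rw [mem_preimage, ez]
    exact hW τ
  · rw [mem_preimage, ez]
    exact hτ
  · filter_upwards [h1.opn.mem_nhds (show τ ∈ _ from ⟨z, hz, ez⟩),
      (hU.preimage hΨ).mem_nhds hτ] with t h3 h4
    exact (aux t h3 h4).1
  · have b1 : τ' ∈ Ψ ⁻¹' (A.p i '' (A.C i).W) := ⟨z, hz, ez.trans e.symm⟩
    have b2 : q τ' = z := hinj i (h2 τ' b1).1 hz ((h2 τ' b1).2.1.trans (e.trans ez.symm))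
    rw [(aux τ' b1 (e ▸ hτ)).2, b2]

omit [MeasurableSpace X] in
theorem Fib.packS0 [T2Space Z] (hj : Continuous j) (hinj : ∀ i, InjOn (A.p i) (A.C i).W)
    (hK : ∀ i, ∀ z ∈ (A.C i).W, (K.h i z).PosDef)
    (h_eq : ∀ i, ∀ z ∈ dom A F.W i,
      h (A.p i z) = (Vf A F.g i z)ᵀ * K.h i z * (Vf A F.g i z).map star)
    (tor : ∀ x ∈ F.W, ∃ (Ψ : E n → X) (κ : Measure (E n)), Cell Ψ κ ∧
      (∀ y, F.r x y ↔ ∃ τ, Ψ τ = y) ∧
      (∀ τ, ∃ (i : A.ι) (f : E n → E N), ∀ᶠ t in 𝓝 τ, DifferentiableAt ℂ f t ∧ f t ∈ (A.C i).W ∧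
        A.p i (f t) = Ψ t ∧ jac f t = Vf A F.g i (f t)) ∧
      ∫⁻ τ, ENNReal.ofReal (h (Ψ τ)).det.re ∂κ ≤ ENNReal.ofReal c₀) (e : Em A K F.W φ j) :
    F.PackS e := by
  intro o R hR hC
  obtain ⟨c, hc, H⟩ := bpdp_low n
  have hk := e.C_pos
  refine ⟨4 ^ n / c * (e.C ^ n * max c₀ 0), fun x hx ρ hρ hρR S hS hsep => ?_⟩
  obtain ⟨Ψ, κ, hκ, hr', hl, hv⟩ := tor x hx
  have hW : ∀ τ, Ψ τ ∈ F.W := fun τ => by
    obtain ⟨j, hj⟩ := F.cov x hx
    exact F.U_sub j ((F.rel j x hj _).1 ((hr' _).2 ⟨τ, rfl⟩)).1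
  have hU : IsOpen (j ⁻¹' e.O) := e.opn.preimage hj
  have key := fun τ (hτ : Ψ τ ∈ j ⁻¹' e.O) => sbd6_key hinj hW hl hU e.hol hτ
  have hΨ : Continuous Ψ := by
    obtain ⟨i, -⟩ := hl 0
    exact (bpdp_lift hinj hW hl i).1
  set O := Ψ ⁻¹' (j ⁻¹' e.O) with hO
  set q : E n → E e.M := fun t => e.z (j (Ψ t)) with hq
  have hq1 : BpdpQ Ψ O q := ⟨hU.preimage hΨ, fun τ hτ => by
    obtain ⟨-, i, z, -, -, -, a, -⟩ := key τ hτ
    exact a, fun τ τ' e' hτ => by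
    obtain ⟨-, i, z, -, -, -, -, a⟩ := key τ hτ
    refine ⟨?_, ?_, (a τ rfl).trans (a τ' e'.symm).symm⟩
    · rw [hO, mem_preimage, ← e']
      exact hτ
    · simp only [hq, e']⟩
  have ht : ρ ^ 2 / 4 < R ^ 2 := by nlinarith
  let T : X → Set (E n) := fun y => {τ | τ ∈ O ∧ nsq (q τ - e.v y) < ρ ^ 2 / 4}
  have low : ∀ y ∈ S, ENNReal.ofReal (c * (ρ ^ 2 / 4) ^ n) ≤
      ∫⁻ τ in T y, ENNReal.ofReal (bpdpD q τ) ∂κ := fun y hy => by
    obtain ⟨hyO, hyC, hyr⟩ := hS y hy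
    obtain ⟨τ₀, h0⟩ := (hr' _).1 hyr
    have h1 : τ₀ ∈ O := by
      rw [hO, mem_preimage, h0]
      exact hyO
    have h2 : q τ₀ = e.v y := by simp only [hq, h0]
    obtain ⟨-, i, z, a1, a2, -, -, a3⟩ := key τ₀ h1
    have h3 := H hq1 hκ τ₀ h1 ((injective_iff_map_eq_zero _).2 fun v hv => bpdp_inj a1 (by
      rw [← bpt2_jac, a3 τ₀ rfl, ← Matrix.mulVec_mulVec, bpt2_jac] at hv
      exact (injective_iff_map_eq_zero _).1 (e.imm i z a2) _ hv)) (R ^ 2) _ (by positivity) ht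
    rw [h2] at h3
    refine h3 ?_
    have k0 : IsClosed {w : E e.M | nsq (w - e.v y) ≤ R ^ 2} :=
      isClosed_le (nsq_smooth.continuous.comp (continuous_sub_right _)) continuous_const
    have k1 : {w : E e.M | nsq (w - e.v y) ≤ R ^ 2} ⊆ closedBall o (2 * R) := fun w hw => by
      have b1 : dist w (e.v y) ≤ R := by
        rw [dist_eq_norm]
        exact (abs_le_of_sq_le_sq' ((nsq_le _).1.trans hw) hR.le).2
      have b2 : dist (e.v y) o ≤ R := hyC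
      rw [mem_closedBall]
      linarith [dist_triangle w (e.v y) o]
    have k2 := (e.cont.mono inter_subset_left).preimage_isClosed_of_isClosed hC.isClosed k0
    rw [inter_assoc, ← preimage_inter, inter_eq_right.2 k1] at k2
    exact k2.preimage (hj.comp hΨ)
  have up : ∀ τ ∈ O, bpdpD q τ ≤ e.C ^ n * (h (Ψ τ)).det.re := fun τ hτ => by
    obtain ⟨-, i, z, a1, a2, a0, -, a5⟩ := key τ hτ
    have a3 : h (Ψ τ) = (Vf A F.g i z)ᵀ * K.h i z * (Vf A F.g i z).map star := by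
      rw [← a0, h_eq i _ a1]
    have a4 : ∀ v, hr ((jac q τ)ᵀ * (jac q τ).map star) v = nsq (jac q τ *ᵥ v) := fun v => by
      have b := lev_nsq (hq1.hol τ hτ)
      rw [← b.2.1, b.2.2.2, bpt2_jac]
    refine det_mono ?_ hk.le ?_ fun v => ?_
    · have := Matrix.posSemidef_self_mul_conjTranspose (jac q τ)ᵀ
      exact this
    · rw [a3]
      refine posDef_of_hq (Matrix.isHermitian_mul_mul_conjTranspose (Vf A F.g i z)ᵀ
        (hK i _ a1.1).1) fun u hu => ?_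
      rw [hq_conj]
      exact hq_pos (hK i _ a1.1) fun e => hu (bpdp_inj a1 e)
    · rw [a4, a3, hr, hq_conj, a5 τ rfl, ← Matrix.mulVec_mulVec, bpt2_jac]
      exact e.low i z a2 _
  have mT : ∀ y, MeasurableSet (T y) := fun y => (hq1.opn' _ _).measurableSet
  have dT : (S : Set X).PairwiseDisjoint T := fun z hz y hy hzy =>
    disjoint_left.2 fun τ h1 h2 => by
      have b : ∀ w, τ ∈ T w → dist (q τ) (e.v w) < ρ / 2 := fun w hw => by
        rw [dist_eq_norm]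
        refine lt_of_pow_lt_pow_left₀ 2 (by positivity) ((nsq_le _).1.trans_lt (hw.2.trans_eq ?_))
        ring
      linarith [hsep z hz y hy hzy, dist_triangle_left (e.v z) (e.v y) (q τ), b z h1, b y h2]
  have tot : (S.card : ℝ≥0∞) * ENNReal.ofReal (c * (ρ ^ 2 / 4) ^ n) ≤
      ENNReal.ofReal (e.C ^ n * max c₀ 0) :=
    calc _ = ∑ _z ∈ S, ENNReal.ofReal (c * (ρ ^ 2 / 4) ^ n) := by simp
      _ ≤ ∑ z ∈ S, ∫⁻ τ in T z, ENNReal.ofReal (e.C ^ n * (h (Ψ τ)).det.re) ∂κ :=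
        Finset.sum_le_sum fun z hz => (low z hz).trans (setLIntegral_mono' (mT z) fun τ hτ =>
          ENNReal.ofReal_le_ofReal (up τ hτ.1))
      _ = ∫⁻ τ in ⋃ z ∈ S, T z, ENNReal.ofReal (e.C ^ n * (h (Ψ τ)).det.re) ∂κ :=
        (lintegral_biUnion_finset dT (fun z _ => mT z) _).symm
      _ ≤ ∫⁻ τ, ENNReal.ofReal (e.C ^ n * (h (Ψ τ)).det.re) ∂κ := setLIntegral_le_lintegral _ _
      _ ≤ _ := by
        simp only [ENNReal.ofReal_mul (show (0 : ℝ) ≤ e.C ^ n by positivity)]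
        rw [lintegral_const_mul' _ _ ENNReal.ofReal_ne_top]
        gcongr
        exact hv.trans (ENNReal.ofReal_le_ofReal (le_max_left _ _))
  rw [← ENNReal.ofReal_natCast, ← ENNReal.ofReal_mul (Nat.cast_nonneg _),
    ENNReal.ofReal_le_ofReal_iff (by positivity)] at tot
  calc (S.card : ℝ) * ρ ^ (2 * n) = 4 ^ n / c * (S.card * (c * (ρ ^ 2 / 4) ^ n)) := by
        rw [div_pow, pow_mul]
        field_simp
    _ ≤ _ := by gcongr

theorem Fib.packS [T2Space Z] (hj : Continuous j) (hinj : ∀ i, InjOn (A.p i) (A.C i).W)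
    (hK : ∀ i, ∀ z ∈ (A.C i).W, (K.h i z).PosDef) (hT : F.Tor μ K h c₀) (e : Em A K F.W φ j) :
    F.PackS e := Fib.packS0 hj hinj hK hT.h_eq hT.tor e

end Pool.Agent.BP
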