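import Pool.Agent.P.MP_63735c_ag.SBD1
import Pool.Agent.P.MP_63735c_ag.BPDa

/-! The pointwise area bounds. -/

open scoped ComplexOrder ContDiff Matrix Topology ENNReal
open Set Metric MeasureTheory Filter

namespace Pool.Agent.BP

open Pool.Agent.SPF Pool.Agent.AB Pool.Agent.CK Pool.Agent.SE Pool.Agent.NL

variable {N n : ℕ} {X Z : Type} [TopologicalSpace X] [TopologicalSpace Z] [MeasurableSpace X]
  {A : Atlas X N} {K : Form11 A} {F : Fib A n} {φ : X → ℝ} {j : X → Z} {μ : Measure X}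
  {h : X → Mat n} {c₀ : ℝ}

theorem sbd7_blk (B C D : Mat n) : ‖(Matrix.fromBlocks 0 B C D).det‖ = ‖B.det‖ * ‖C.det‖ := by
  let S : Matrix (Fin n ⊕ Fin n) (Fin n ⊕ Fin n) ℂ := Matrix.fromBlocks 0 1 1 0
  have hS : ‖S.det‖ = 1 := by
    have h1 : S * S = 1 := by simp [S, Matrix.fromBlocks_multiply]
    have h2 := congrArg (fun M => ‖Matrix.det M‖) h1
    simp only [Matrix.det_mul, norm_mul, Matrix.det_one, norm_one] at h2
    nlinarith [norm_nonneg S.det]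
  have e : Matrix.fromBlocks 0 B C D = S * Matrix.fromBlocks C D 0 B := by
    simp [S, Matrix.fromBlocks_multiply]
  rw [e, Matrix.det_mul, norm_mul, hS, one_mul, Matrix.det_fromBlocks_zero₂₁, norm_mul, mul_comm]

theorem sbd7_det (ε : Fin n ⊕ Fin n ≃ Fin N) {s P : Mat N} (hs : sᵀ = -s) (hd : s.det ≠ 0)
    {J Y : Matrix (Fin n) (Fin N) ℂ} (hP : ∀ u, P *ᵥ u = (kap ε).symm (J *ᵥ u, Y *ᵥ u))
    (h0 : J * (s⁻¹ * Jᵀ) = 0) : ‖P.det‖ ^ 2 = ‖s.det‖ * ‖(Y * (s⁻¹ * Jᵀ)).det‖ ^ 2 := by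
  have h1 : P.submatrix ε id = Matrix.fromRows J Y := by
    ext a b
    have h2 := congrArg (kap ε) (hP (Pi.single b 1))
    rw [ContinuousLinearEquiv.apply_symm_apply] at h2
    simp only [Matrix.mulVec_single_one] at h2
    rcases a with a | a
    · exact congrFun (congrArg Prod.fst h2) a
    · exact congrFun (congrArg Prod.snd h2) a
  have h2 : (s⁻¹)ᵀ = -s⁻¹ := by
    rw [Matrix.transpose_nonsing_inv, hs]
    refine Matrix.inv_eq_right_inv ?_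
    rw [neg_mul_neg, Matrix.mul_nonsing_inv _ hd.isUnit]
  have h3 : (P * (s⁻¹ * Pᵀ)).submatrix ε ε = Matrix.fromBlocks 0 (-(Y * (s⁻¹ * Jᵀ))ᵀ)
      (Y * (s⁻¹ * Jᵀ)) (Y * (s⁻¹ * Yᵀ)) := by
    have h4 : (P * (s⁻¹ * Pᵀ)).submatrix ε ε =
        P.submatrix ε id * (s⁻¹ * (P.submatrix ε id)ᵀ) := rfl
    rw [h4, h1, Matrix.transpose_fromRows, Matrix.mul_fromCols, Matrix.fromRows_mul_fromCols, h0,
      Matrix.transpose_mul, Matrix.transpose_mul, Matrix.transpose_transpose, h2, Matrix.mul_neg,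
      Matrix.neg_mul, neg_neg, Matrix.mul_assoc]
  have h5 := congrArg (fun M => ‖Matrix.det M‖) h3
  simp only [Matrix.det_submatrix_equiv_self, sbd7_blk, Matrix.det_neg, Matrix.det_transpose,
    norm_mul, norm_pow, norm_neg, norm_one, one_pow, one_mul] at h5
  rw [Matrix.det_mul, Matrix.det_mul, Matrix.det_transpose, Matrix.det_nonsing_inv,
    Ring.inverse_eq_inv', norm_mul, norm_mul, norm_inv] at h5
  have h6 := norm_ne_zero_iff.2 hd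
  rw [sq, sq, ← h5]
  field_simp

theorem sbd7_inv (l : E N ≃L[ℂ] E n × E n) {P : Mat N} {J Y : Matrix (Fin n) (Fin N) ℂ}
    {V : Matrix (Fin N) (Fin n) ℂ} (hP : ∀ u, P *ᵥ u = l.symm (J *ᵥ u, Y *ᵥ u)) (hd : P.det ≠ 0)
    (h0 : J * V = 0) {u w : E N} (hu : P *ᵥ u = l.symm (J *ᵥ w, 0)) (r : E N) :
    (Y * V).det * (r ⬝ᵥ u) =
      (Y * V).det * (r ⬝ᵥ w) - ∑ k, (Y *ᵥ w) k * (Y.updateRow k r * V).det := by
  have h1 : (Y * V).det • u = (Y * V).det • w - V *ᵥ ((Y * V).adjugate *ᵥ (Y *ᵥ w)) := by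
    refine Matrix.mulVec_injective_iff_isUnit.2 ((Matrix.isUnit_iff_isUnit_det _).2 hd.isUnit) ?_
    have h2 : Y *ᵥ (V *ᵥ ((Y * V).adjugate *ᵥ (Y *ᵥ w))) = (Y * V).det • (Y *ᵥ w) := by
      rw [Matrix.mulVec_mulVec, Matrix.mulVec_mulVec, Matrix.mul_adjugate, Matrix.smul_mulVec,
        Matrix.one_mulVec]
    change P *ᵥ _ = P *ᵥ _
    rw [Matrix.mulVec_smul, hu, hP, Matrix.mulVec_sub, Matrix.mulVec_sub, h2, Matrix.mulVec_mulVec,
      h0, Matrix.zero_mulVec, sub_zero, Matrix.mulVec_smul, Matrix.mulVec_smul, sub_self,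
      ← map_smul, Prod.smul_mk, smul_zero]
  have h3 := congrArg (r ⬝ᵥ ·) h1
  simp only [dotProduct_sub, dotProduct_smul, smul_eq_mul] at h3
  rw [h3, Matrix.dotProduct_mulVec, Matrix.dotProduct_mulVec, dotProduct_comm]
  congr 1
  refine Finset.sum_congr rfl fun k _ => ?_
  rw [Matrix.updateRow_mul, ← Matrix.cramer_transpose_apply, Matrix.cramer_eq_adjugate_mulVec,
    ← Matrix.adjugate_transpose, Matrix.mulVec_transpose, mul_comm]

theorem sbd7_pos {s H : Mat N} (hd : s.det ≠ 0) (hH : H.PosDef) {J : Matrix (Fin n) (Fin N) ℂ}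
    (hJ : ∀ v, ∃ u, J *ᵥ u = v) : ((s⁻¹ * Jᵀ)ᵀ * H * (s⁻¹ * Jᵀ).map star).PosDef := by
  refine posDef_of_hq (Matrix.isHermitian_mul_mul_conjTranspose _ hH.1) fun t ht => ?_
  rw [hq_conj]
  refine hq_pos hH fun h0 => ht ?_
  obtain ⟨u, hu⟩ := hJ (star t)
  have h3 : t ᵥ* J = 0 := by
    rw [← Matrix.mulVec_transpose, ← Matrix.mul_nonsing_inv_cancel_left s Jᵀ hd.isUnit,
      ← Matrix.mulVec_mulVec, h0, Matrix.mulVec_zero]
  refine dotProduct_self_star_eq_zero.1 ?_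
  rw [← hu, Matrix.dotProduct_mulVec, h3, zero_dotProduct]

theorem sbd7_le {H : Mat N} {V : Matrix (Fin N) (Fin n) ℂ} (hh : (Vᵀ * H * V.map star).PosDef)
    {Y : Matrix (Fin n) (Fin N) ℂ} {D : ℝ} (hD : 0 ≤ D) (hY : ∀ u, nsq (Y *ᵥ u) ≤ D * hr H u) :
    ‖(Y * V).det‖ ^ 2 ≤ D ^ n * (Vᵀ * H * V.map star).det.re := by
  have h1 := (bpda_la (G := (Y * V)ᵀ) hh hD fun t => by
    rw [Matrix.vecMul_transpose, ← Matrix.mulVec_mulVec, hr, hq_conj]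
    exact hY _).1
  rwa [Matrix.det_transpose] at h1

theorem sbd7_grad {M : ℕ} (l : E N ≃L[ℂ] E n × E n) {P H : Mat N} (hH : H.PosDef)
    {J Y : Matrix (Fin n) (Fin N) ℂ} {V : Matrix (Fin N) (Fin n) ℂ} {G : Matrix (Fin M) (Fin N) ℂ}
    (hh : (Vᵀ * H * V.map star).PosDef) (hP : ∀ u, P *ᵥ u = l.symm (J *ᵥ u, Y *ᵥ u))
    (hd : P.det ≠ 0) (h0 : J * V = 0) {D : ℝ} (hD : 0 ≤ D)
    (hY : ∀ u, nsq (Y *ᵥ u) + nsq (G *ᵥ u) ≤ D * hr H u) {u w : E N}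
    (hu : P *ᵥ u = l.symm (J *ᵥ w, 0)) : ‖(Y * V).det‖ ^ 2 * ‖G *ᵥ u‖ ^ 2 ≤
      (n + 1) ^ 2 * D ^ (n + 1) * ((Vᵀ * H * V.map star).det.re * hr H w) := by
  have n0 : ∀ {k : ℕ} (x : E k), 0 ≤ nsq x := fun x => (sq_nonneg _).trans (nsq_le x).1
  have n1 : ∀ {k : ℕ} (x : E k) c, ‖x c‖ ^ 2 ≤ nsq x := fun x c =>
    (pow_le_pow_left₀ (norm_nonneg _) (norm_le_pi_norm x c) 2).trans (nsq_le x).1
  have p1 : 0 ≤ D ^ n * (Vᵀ * H * V.map star).det.re :=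
    mul_nonneg (pow_nonneg hD _) (Complex.nonneg_iff.1 hh.det_pos.le).1
  have p2 : 0 ≤ D * hr H w := mul_nonneg hD (hq_nonneg hH.posSemidef w)
  set R := √(D ^ n * (Vᵀ * H * V.map star).det.re)
  set T := √(D * hr H w)
  have a1 : ‖(Y * V).det‖ ≤ R := Real.le_sqrt_of_sq_le
    (sbd7_le hh hD fun x => (le_add_of_nonneg_right (n0 _)).trans (hY x))
  have a2 : ∀ k c, ‖(Y.updateRow k (G c) * V).det‖ ≤ R := fun k c => Real.le_sqrt_of_sq_le
    (sbd7_le hh hD fun x => le_trans (by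
      rw [Matrix.updateRow_mulVec]
      refine le_trans ?_ (add_le_add_right (n1 (G *ᵥ x) c) _)
      rw [nsq, nsq, ← Finset.add_sum_erase _ _ (Finset.mem_univ k), Function.update_self, add_comm]
      refine add_le_add_left ((Finset.sum_congr rfl fun a ha => ?_).trans_le
        (Finset.sum_le_sum_of_subset_of_nonneg (Finset.erase_subset k _)
          fun _ _ _ => sq_nonneg _)) _
      rw [Function.update_of_ne (Finset.ne_of_mem_erase ha)]) (hY x))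
  have a3 : ∀ k, ‖(Y *ᵥ w) k‖ ≤ T := fun k => Real.le_sqrt_of_sq_le
    ((n1 _ k).trans ((le_add_of_nonneg_right (n0 _)).trans (hY w)))
  have a4 : ∀ c, ‖G c ⬝ᵥ w‖ ≤ T := fun c => Real.le_sqrt_of_sq_le
    ((n1 (G *ᵥ w) c).trans ((le_add_of_nonneg_left (n0 _)).trans (hY w)))
  have hR : 0 ≤ R := Real.sqrt_nonneg _
  have hT : 0 ≤ T := Real.sqrt_nonneg _
  have a5 : ‖(Y * V).det • (G *ᵥ u)‖ ≤ (n + 1) * (R * T) := by
    refine (pi_norm_le_iff_of_nonneg (by positivity)).2 fun c => ?_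
    change ‖(Y * V).det * (G c ⬝ᵥ u)‖ ≤ _
    rw [sbd7_inv l hP hd h0 hu, add_mul, one_mul, add_comm]
    refine (norm_sub_le _ _).trans (add_le_add ?_ ((norm_sum_le _ _).trans
      ((Finset.sum_le_card_nsmul _ _ (R * T) fun k _ => ?_).trans_eq (by simp))))
    · rw [norm_mul]
      exact mul_le_mul a1 (a4 c) (norm_nonneg _) hR
    · rw [norm_mul, mul_comm]
      exact mul_le_mul (a2 k c) (a3 k) (norm_nonneg _) hR
  have a6 := pow_le_pow_left₀ (norm_nonneg _) a5 2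
  rw [norm_smul, mul_pow, mul_pow, mul_pow, Real.sq_sqrt p1, Real.sq_sqrt p2] at a6
  exact a6.trans_eq (by ring)

omit [MeasurableSpace X] in
/-- The matrices at a point. -/
theorem Fib.area0 (hj : Continuous j) (e : Sz A K F.W φ j n) : ∃ D : ℝ, 0 ≤ D ∧
    ∀ i, ∀ w ∈ dom A (F.W ∩ j ⁻¹' e.O) i, ∃ Y : Matrix (Fin n) (Fin N) ℂ,
      (∀ u, Jg A (F.Pz e) i w *ᵥ u = e.l.symm (Jg A F.g i w *ᵥ u, Y *ᵥ u)) ∧
      ∀ u, nsq (Y *ᵥ u) + nsq (Jg A e.v i w *ᵥ u) ≤ D * hr (K.h i w) u := by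
  have hC := e.C_pos
  refine ⟨(n * ‖e.L‖ ^ 2 + 1) * e.C, by positivity, fun i w hw => ?_⟩
  have d1 := (F.g_hol i).differentiableAt ((dom_open A F.W_open i).mem_nhds ⟨hw.1, hw.2.1⟩)
  have d2 := (e.hol i).differentiableAt
    ((dom_open A (e.opn.preimage hj) i).mem_nhds ⟨hw.1, hw.2.2⟩)
  have d3 := e.L.hasFDerivAt.comp w d2.hasFDerivAt
  refine ⟨Jg A (fun x => e.L (e.v x)) i w, fun u => ?_, fun u => ?_⟩
  · have := (e.l.symm : E n × E n →L[ℂ] E N).hasFDerivAt.comp w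
      (d1.hasFDerivAt.prodMk d3.differentiableAt.hasFDerivAt)
    rw [Jg, Jg, Jg, bpt2_jac, bpt2_jac, bpt2_jac]
    exact congrArg (· u) this.fderiv
  · have h1 := e.low i w ⟨hw.1, hw.2.2⟩ u
    rw [Jg, Jg, bpt2_jac, bpt2_jac]
    have h2 : fderiv ℂ (fun y => e.L (e.v (A.p i y))) w u =
        e.L (fderiv ℂ (fun y => e.v (A.p i y)) w u) := congrArg (· u) d3.fderiv
    rw [h2]
    set t := fderiv ℂ (fun y => e.v (A.p i y)) w u
    have h3 : nsq (e.L t) ≤ n * ‖e.L‖ ^ 2 * nsq t := by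
      refine (nsq_le _).2.trans ?_
      rw [mul_assoc]
      refine mul_le_mul_of_nonneg_left ((pow_le_pow_left₀ (norm_nonneg _) (e.L.le_opNorm t) 2).trans
        ?_) (Nat.cast_nonneg n)
      rw [mul_pow]
      exact mul_le_mul_of_nonneg_left (nsq_le t).1 (sq_nonneg _)
    calc _ ≤ (n * ‖e.L‖ ^ 2 + 1) * nsq t := by linarith
      _ ≤ _ := by
        rw [mul_assoc]
        exact mul_le_mul_of_nonneg_left h1 (by positivity)

omit [MeasurableSpace X] in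
/-- The bound for the determinant. -/
theorem Fib.area1 (hj : Continuous j) (hK : ∀ i, ∀ z ∈ (A.C i).W, (K.h i z).PosDef)
    (iso : ∀ i, ∀ z ∈ dom A F.W i, Jg A F.g i z * Vf A F.g i z = 0)
    (h_eq : ∀ i, ∀ z ∈ dom A F.W i,
      h (A.p i z) = (Vf A F.g i z)ᵀ * K.h i z * (Vf A F.g i z).map star) (e : Sz A K F.W φ j n) :
    ∃ B : ℝ, 0 ≤ B ∧ ∀ i, ∀ w ∈ dom A (F.W ∩ j ⁻¹' e.O) i,
      ‖(Jg A (F.Pz e) i w).det‖ ^ 2 ≤ ‖((A.C i).σ w).det‖ * (B * (h (A.p i w)).det.re) := by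
  obtain ⟨D, hD, h1⟩ := F.area0 hj e
  refine ⟨D ^ n, by positivity, fun i w hw => ?_⟩
  obtain ⟨Y, h2, h3⟩ := h1 i w hw
  have hw' : w ∈ dom A F.W i := ⟨hw.1, hw.2.1⟩
  have hs := (A.C i).σ_det w hw.1
  rw [sbd7_det e.ε ((A.C i).σ_skew w hw.1) hs h2 (iso i w hw'), h_eq i w hw']
  refine mul_le_mul_of_nonneg_left (sbd7_le (sbd7_pos hs (hK i w hw.1) fun v => ?_) hD fun u =>
    (le_add_of_nonneg_right ((sq_nonneg _).trans (nsq_le _).1)).trans (h3 u)) (norm_nonneg _)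
  exact (F.g_sub i w hw' v).imp fun u hu => (bpt2_jac _ _ _).trans hu

theorem Fib.areaS (hj : Continuous j) (hK : ∀ i, ∀ z ∈ (A.C i).W, (K.h i z).PosDef)
    (hT : F.Tor μ K h c₀) (hl : F.Lift K h) (e : Sz A K F.W φ j n) : F.AreaS e h := by
  obtain ⟨B, hB, h0⟩ := F.area1 hj hK hT.iso hT.h_eq e
  obtain ⟨D, hD, h1⟩ := F.area0 hj e
  obtain ⟨C, hC, h4⟩ := hl
  refine ⟨B + (n + 1) ^ 2 * D ^ (n + 1) * C, by positivity, fun i w hw => ?_⟩
  obtain ⟨Y, h2, h3⟩ := h1 i w hw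
  have hw' : w ∈ dom A F.W i := ⟨hw.1, hw.2.1⟩
  have hs := (A.C i).σ_det w hw.1
  have hh := sbd7_pos hs (hK i w hw.1) fun v =>
    (F.g_sub i w hw' v).imp fun u hu => (bpt2_jac _ _ _).trans hu
  have hp : (h (A.p i w)).PosDef := hT.h_eq i w hw' ▸ hh
  refine ⟨(h0 i w hw).trans (mul_le_mul_of_nonneg_left (mul_le_mul_of_nonneg_right
    (le_add_of_nonneg_right (by positivity)) (Complex.nonneg_iff.1 hp.det_pos.le).1)
    (norm_nonneg _)), fun v u hu => ?_⟩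
  have h5 : 0 ≤ hr (h (A.p i w)).adjugateᵀ v := hq_nonneg (adj_psd hp.posSemidef).transpose v
  rcases eq_or_ne (Jg A (F.Pz e) i w).det 0 with hd | hd
  · rw [hd, norm_zero, zero_pow two_ne_zero, zero_mul]
    positivity
  obtain ⟨u', rfl, h6⟩ := h4 i w hw.1 hw.2.1 v
  have h7 := sbd7_grad e.l (hK i w hw.1) hh h2 hd (hT.iso i w hw') hD h3 hu
  rw [sbd7_det e.ε ((A.C i).σ_skew w hw.1) hs h2 (hT.iso i w hw'), mul_assoc, ← bpt2_jac]
  refine mul_le_mul_of_nonneg_left (h7.trans ?_) (norm_nonneg _)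
  rw [hT.h_eq i w hw'] at h6
  refine (mul_le_mul_of_nonneg_left h6 (by positivity)).trans ?_
  rw [← mul_assoc, ← hT.h_eq i w hw']
  exact mul_le_mul_of_nonneg_right (le_add_of_nonneg_left hB) h5

end Pool.Agent.BP
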