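import Pool.Agent.P.MP_63735c_ag.SBD4
import Pool.Agent.P.MP_63735c_ag.BPD2

/-! Traces on a scale. -/

open scoped ComplexOrder ContDiff Matrix Topology ENNReal
open Set Metric MeasureTheory Filter

namespace Pool.Agent.BP

open Pool.Agent.SPF Pool.Agent.AB Pool.Agent.CK Pool.Agent.SE Pool.Agent.NL

variable {N n : ℕ} {X Z : Type} [TopologicalSpace X] [TopologicalSpace Z] {A : Atlas X N}
  {K : Form11 A} {F : Fib A n} {φ : X → ℝ} {j : X → Z}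

namespace Fib

/-- The part of the box over the tube `k`. -/
def SoS (F : Fib A n) (e : Sz A K F.W φ j n) (M : Set X) (k : F.J) : Set X :=
  j ⁻¹' e.box ∩ (F.U k ∩ M)

/-- The target. -/
def TaS (F : Fib A n) (e : Sz A K F.W φ j n) (M : Set X) (k : F.J) : Set (E N) :=
  e.l ⁻¹' ((F.g '' (F.U k ∩ M)) ×ˢ ball e.a (2 * e.ρ))

open Classical in
/-- The trace. -/
noncomputable def TrZ (F : Fib A n) (e : Sz A K F.W φ j n) (M : Set X) (h : X → ℂ) (x : X)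
    (a : E n) : ℂ :=
  if hx : ∃ k, x ∈ F.U k then trA A (F.SoS e M hx.choose) (F.Pz e) h (e.l.symm (F.g x, a)) else 0

/-- The degree. -/
noncomputable def degZ (F : Fib A n) (e : Sz A K F.W φ j n) (M : Set X) (x : X) : ℕ :=
  ⌊(F.TrZ e M (fun _ => 1) x e.a).re⌋₊

/-- The standing assumptions on a scale. -/
structure Ok (F : Fib A n) (e : Sz A K F.W φ j n) (M : Set X) : Prop where
  N_pos : 1 ≤ N
  cont : Continuous j
  j_inj : Function.Injective j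
  inj : ∀ i, InjOn (A.p i) (A.C i).W
  sat : F.Sat M
  dis : ∀ x ∈ M, j x ∉ e.shell

variable {e : Sz A K F.W φ j n} {M : Set X} {k : F.J} {x : X} {a : E n} {h : X → ℂ}

theorem soS_sub : F.SoS e M k ⊆ F.W ∩ j ⁻¹' e.O := fun _ hz => ⟨F.U_sub k hz.2.1, hz.1.1⟩

theorem sbd8_l (z : X) : e.l (F.Pz e z) = (F.g z, e.L (e.v z)) := e.l.apply_symm_apply _

theorem sbd8_hol : HolV A (F.W ∩ j ⁻¹' e.O) (F.Pz e) := fun i =>
  e.l.symm.differentiable.comp_differentiableOn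
    (((F.g_hol i).mono fun _ hz => ⟨hz.1, hz.2.1⟩).prodMk
      (e.L.differentiable.comp_differentiableOn ((e.hol i).mono fun _ hz => ⟨hz.1, hz.2.2⟩)))

theorem sbd8_mono (hh : HolOn A (F.W ∩ j ⁻¹' e.O) h) : HolOn A (F.SoS e M k) h :=
  fun i => (hh i).mono fun _ hz => ⟨hz.1, soS_sub hz.2⟩

theorem sbd8_open (hM : F.Sat M) (k : F.J) : IsOpen (F.TaS e M k) :=
  ((F.g_open ((F.U_open k).inter hM.opn) fun _ hy => F.U_sub k hy.1).prod isOpen_ball).preimage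
    e.l.continuous

theorem sbd8_mem (hx : x ∈ F.U k ∩ M) (ha : a ∈ ball e.a (2 * e.ρ)) :
    e.l.symm (F.g x, a) ∈ F.TaS e M k := by
  rw [TaS, mem_preimage, e.l.apply_symm_apply]
  exact ⟨⟨x, hx, rfl⟩, ha⟩

theorem sbd8_sub (k k' : F.J) :
    F.SoS e M k ∩ F.Pz e ⁻¹' (e.l ⁻¹' ((F.g '' (F.U k ∩ F.U k' ∩ M)) ×ˢ univ)) ⊆ F.SoS e M k' := by
  rintro z ⟨hz, ht⟩
  rw [mem_preimage, mem_preimage, sbd8_l] at ht
  obtain ⟨y, hy, he⟩ := ht.1
  have hr := (F.rel k y hy.1.1 _).2 ⟨hz.2.1, he.symm⟩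
  exact ⟨hz.1, ((F.rel k' y hy.1.2 _).1 hr).1, hz.2.2⟩

theorem Ok.prA [T2Space X] [T2Space Z] (H : F.Ok e M) (k : F.J) :
    PrA A (F.SoS e M k) (F.TaS e M k) (F.Pz e) := by
  obtain ⟨h1, h2, -, -, h5, h6, -⟩ := e.cbox_cpt
  have hM := H.sat
  have hd : ∀ i, dom A (F.SoS e M k) i ⊆ dom A (j ⁻¹' e.O) i := fun _ _ hz => ⟨hz.1, hz.2.1.1⟩
  have ho := (h5.preimage H.cont).inter ((F.U_open k).inter hM.opn)
  refine ⟨H.inj, ho, sbd8_open hM k, fun i => (sbd8_hol i).mono fun _ hz => ⟨hz.1, soS_sub hz.2⟩,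
    fun z hz => ?_, fun C hC hs => ?_, e.M, e.v, fun y hy y' hy' c => H.j_inj (e.inj hy.1.1 hy'.1.1 c),
    fun i => (e.hol i).mono (hd i), fun i z hz => e.imm i z (hd i hz)⟩
  · rw [TaS, mem_preimage, sbd8_l]
    exact ⟨⟨_, hz.2, rfl⟩, hz.1.2.1⟩
  · have hC1 : IsCompact ((fun w => (e.l w).1) '' C) :=
      hC.image (continuous_fst.comp e.l.continuous)
    have hs1 : (fun w => (e.l w).1) '' C ⊆ F.g '' (F.U k ∩ M) := by
      rintro _ ⟨w, hw, rfl⟩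
      exact (hs hw).1
    have hK := F.prop k _ hC1 (hs1.trans (by
      rintro _ ⟨y, hy, rfl⟩
      exact F.maps k hy.1))
    have hKM : F.U k ∩ F.g ⁻¹' ((fun w => (e.l w).1) '' C) ⊆ M := by
      intro y hy
      obtain ⟨y', hy', he⟩ := hs1 hy.2
      exact hM.sat y' hy'.2 y ((F.rel k y' hy'.1 y).2 ⟨hy.1, he.symm⟩)
    have hD := hK.inter_right (h1.isClosed.preimage H.cont)
    have hE := (((sbd8_hol (F := F) (e := e)).cont (F.W_open.inter (e.opn.preimage H.cont))).mono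
      fun z hz => ⟨F.U_sub k hz.1.1, h2 hz.2⟩).preimage_isClosed_of_isClosed hD.isClosed hC.isClosed
    have hc := hD.of_isClosed_subset hE inter_subset_left
    refine (congrArg IsCompact (Set.Subset.antisymm ?_ ?_)).mp hc
    · rintro z ⟨⟨hz2, hz1⟩, hz3⟩
      have hm : z ∈ M := hKM hz2
      have ht := hs hz3
      rw [TaS, mem_preimage, sbd8_l] at ht
      refine ⟨⟨⟨hz1.1, ht.2, ?_⟩, hz2.1, hm⟩, hz3⟩
      by_contra hn
      exact H.dis z hm ⟨hz1.1, hz1.2.1, hz1.2.2, fun hb => hn (ball_subset_ball e.lt.le hb)⟩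
    · rintro z ⟨hz, hz3⟩
      refine ⟨⟨⟨hz.2.1, _, hz3, ?_⟩, h6 hz.1⟩, hz3⟩
      show (e.l (F.Pz e z)).1 = _
      rw [sbd8_l]

theorem TrZ_eq (hM : F.Sat M) (hx : x ∈ F.U k ∩ M) (h : X → ℂ) (a : E n) :
    F.TrZ e M h x a = trA A (F.SoS e M k) (F.Pz e) h (e.l.symm (F.g x, a)) := by
  have hx' : ∃ k, x ∈ F.U k := ⟨k, hx.1⟩
  have hj := hx'.choose_spec
  rw [TrZ, dif_pos hx']
  refine trA_congr (O := e.l ⁻¹' ((F.g '' (F.U k ∩ F.U hx'.choose ∩ M)) ×ˢ univ)) ?_ ?_ h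
  · refine IsOpen.mem_nhds (IsOpen.preimage e.l.continuous (IsOpen.prod (F.g_open
      (((F.U_open k).inter (F.U_open _)).inter hM.opn) fun _ hy => F.U_sub k hy.1.1)
        isOpen_univ)) ?_
    rw [mem_preimage, e.l.apply_symm_apply]
    exact ⟨⟨x, ⟨⟨hx.1, hj⟩, hx.2⟩, rfl⟩, trivial⟩
  · refine Set.Subset.antisymm (fun z hz => ⟨?_, hz.2⟩) fun z hz => ⟨sbd8_sub k _ hz, hz.2⟩
    rw [inter_comm (F.U k)] at hz
    exact sbd8_sub _ k hz

variable [T2Space X] [T2Space Z] [MeasurableSpace X] [BorelSpace X] {μ : Measure X}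
  [IsFiniteMeasure μ]

omit [T2Space Z] in
theorem sbd8_nat {Ω : Set X} {Ω' : Set (E N)} {P : X → E N} (hP : PrA A Ω Ω' P)
    (hμ : IsVolume A μ) (hN : 1 ≤ N) {w : E N} (hw : w ∈ Ω') :
    ∃ d : ℕ, trA A Ω P (fun _ => 1) w = d := by
  obtain ⟨d, y, -, -, h3⟩ := trA_fam hP hμ hN hw
  exact ⟨d, by rw [h3 _ fun _ => differentiableOn_const _]; simp⟩

omit [T2Space Z] in
theorem sbd8_lc {Ω : Set X} {Ω' : Set (E N)} {P : X → E N} (hP : PrA A Ω Ω' P)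
    (hμ : IsVolume A μ) (hN : 1 ≤ N) {w : E N} (hw : w ∈ Ω') :
    ∀ᶠ w' in 𝓝 w, trA A Ω P (fun _ => 1) w' = trA A Ω P (fun _ => 1) w := by
  have hn := hP.isOpen'.mem_nhds hw
  have hc := ((trA_hol hP hμ (h := fun _ => 1) fun _ =>
    differentiableOn_const _).continuousOn.continuousAt hn).eventually (ball_mem_nhds _ one_pos)
  obtain ⟨d, hd⟩ := sbd8_nat hP hμ hN hw
  filter_upwards [hn, hc] with w' h1 h2
  obtain ⟨d', hd'⟩ := sbd8_nat hP hμ hN h1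
  rw [hd, hd'] at h2 ⊢
  have h3 : dist (d' : ℂ) (d : ℂ) < 1 := h2
  have h4 : ((d' : ℂ) - d) = (((d' : ℝ) - d : ℝ) : ℂ) := by push_cast; rfl
  rw [dist_eq_norm, h4, Complex.norm_real, Real.norm_eq_abs, abs_lt] at h3
  have h5 : d < d' + 1 := by exact_mod_cast (by linarith [h3.1] : (d : ℝ) < d' + 1)
  have h6 : d' < d + 1 := by exact_mod_cast (by linarith [h3.2] : (d' : ℝ) < d + 1)
  rw [show d' = d by omega]

theorem Ok.deg_eq (H : F.Ok e M) (hμ : IsVolume A μ) (hx : x ∈ M) (ha : a ∈ ball e.a (2 * e.ρ)) :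
    F.TrZ e M (fun _ => 1) x a = F.degZ e M x := by
  obtain ⟨k, hj⟩ := F.cov x (H.sat.sub hx)
  have hxj : x ∈ F.U k ∩ M := ⟨hj, hx⟩
  have h0 : e.a ∈ ball e.a (2 * e.ρ) := mem_ball_self (by linarith [e.ρ_pos])
  have hc : ContinuousOn (fun b => ⌊(trA A (F.SoS e M k) (F.Pz e) (fun _ => 1)
      (e.l.symm (F.g x, b))).re⌋₊) (ball e.a (2 * e.ρ)) := by
    intro b hb
    have h1 : ContinuousAt (fun b => e.l.symm (F.g x, b)) b :=
      (e.l.symm.continuous.comp (continuous_const.prodMk continuous_id)).continuousAt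
    have h2 := h1.eventually (sbd8_lc (H.prA k) hμ H.N_pos (sbd8_mem hxj hb))
    refine ContinuousAt.continuousWithinAt (tendsto_const_nhds.congr' ?_)
    filter_upwards [h2] with c hc
    rw [hc]
  have hk := (convex_ball e.a (2 * e.ρ)).isPreconnected.constant hc ha h0
  obtain ⟨d, hd'⟩ := sbd8_nat (H.prA k) hμ H.N_pos (sbd8_mem hxj ha)
  rw [degZ, TrZ_eq H.sat hxj, TrZ_eq H.sat hxj, ← hk, hd']
  simp

theorem Ok.deg_lc (H : F.Ok e M) (hμ : IsVolume A μ) (hx : x ∈ M) :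
    ∀ᶠ y in 𝓝 x, F.degZ e M y = F.degZ e M x := by
  have hM := H.sat
  obtain ⟨k, hj⟩ := F.cov x (hM.sub hx)
  have hxj : x ∈ F.U k ∩ M := ⟨hj, hx⟩
  have h0 : e.a ∈ ball e.a (2 * e.ρ) := mem_ball_self (by linarith [e.ρ_pos])
  have h1 : ContinuousAt (fun y => e.l.symm (F.g y, e.a)) x :=
    e.l.symm.continuous.continuousAt.comp
      ((F.g_cont.continuousAt (F.W_open.mem_nhds (hM.sub hx))).prodMk continuousAt_const)
  filter_upwards [h1.eventually (sbd8_lc (H.prA k) hμ H.N_pos (sbd8_mem hxj h0)),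
    ((F.U_open k).inter hM.opn).mem_nhds hxj] with y h2 h3
  rw [degZ, degZ, TrZ_eq hM hxj, TrZ_eq hM h3, h2]

omit [T2Space X] [T2Space Z] [MeasurableSpace X] [BorelSpace X] in
theorem degZ_inv (hM : F.Sat M) (hx : x ∈ M) {y : X} (hy : F.r x y) :
    F.degZ e M y = F.degZ e M x := by
  obtain ⟨k, hj⟩ := F.cov x (hM.sub hx)
  obtain ⟨h1, h2⟩ := (F.rel k x hj y).1 hy
  rw [degZ, degZ, TrZ_eq hM ⟨hj, hx⟩, TrZ_eq hM ⟨h1, hM.sat x hx y hy⟩, h2]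

theorem Ok.fam (H : F.Ok e M) (hμ : IsVolume A μ) (hx : x ∈ M) (ha : a ∈ ball e.a (2 * e.ρ)) :
    ∃ y : Fin (F.degZ e M x) → X, (∀ k, j (y k) ∈ e.box ∧ F.r x (y k) ∧ e.L (e.v (y k)) = a) ∧
      (∀ z, j z ∈ e.box → F.r x z → e.L (e.v z) = a → ∃ k, y k = z) ∧
      ∀ h, HolOn A (F.W ∩ j ⁻¹' e.O) h → F.TrZ e M h x a = ∑ k, h (y k) := by
  have hM := H.sat
  obtain ⟨k, hj⟩ := F.cov x (hM.sub hx)
  have hxj : x ∈ F.U k ∩ M := ⟨hj, hx⟩
  obtain ⟨d, y, h1, h2, h3⟩ := trA_fam (H.prA k) hμ H.N_pos (sbd8_mem hxj ha)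
  have h4 := H.deg_eq hμ hx ha
  rw [TrZ_eq hM hxj, h3 _ fun _ => differentiableOn_const _] at h4
  have h5 : d = F.degZ e M x := by simpa using h4
  subst h5
  refine ⟨y, fun l => ?_, fun z hz hr hl => h2 z ?_ ?_, fun h hh => ?_⟩
  · have h6 := e.l.symm.injective (h1 l).2
    exact ⟨(h1 l).1.1, (F.rel k x hj _).2 ⟨(h1 l).1.2.1, congrArg Prod.fst h6⟩,
      congrArg Prod.snd h6⟩
  · exact ⟨hz, ((F.rel k x hj _).1 hr).1, hM.sat x hx _ hr⟩
  · rw [Pz, ((F.rel k x hj _).1 hr).2, hl]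
  · rw [TrZ_eq hM hxj, h3 h (sbd8_mono hh)]

theorem Ok.hol_a (H : F.Ok e M) (hμ : IsVolume A μ) (hh : HolOn A (F.W ∩ j ⁻¹' e.O) h)
    (hx : x ∈ M) : DifferentiableOn ℂ (F.TrZ e M h x) (ball e.a (2 * e.ρ)) := by
  obtain ⟨k, hj⟩ := F.cov x (H.sat.sub hx)
  have hxj : x ∈ F.U k ∩ M := ⟨hj, hx⟩
  have h1 : DifferentiableOn ℂ (fun b => e.l.symm (F.g x, b)) (ball e.a (2 * e.ρ)) :=
    (e.l.symm.differentiable.comp
      ((differentiable_const _).prodMk differentiable_id)).differentiableOn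
  exact ((trA_hol (H.prA k) hμ (sbd8_mono hh)).comp h1
    fun b hb => sbd8_mem hxj hb).congr fun b _ => TrZ_eq H.sat hxj h b

theorem Ok.loc (H : F.Ok e M) (hμ : IsVolume A μ) (hh : HolOn A (F.W ∩ j ⁻¹' e.O) h)
    (ha : a ∈ ball e.a (2 * e.ρ)) {i : A.ι} {z : E N} (hz : z ∈ dom A (F.U k ∩ M) i) :
    DifferentiableAt ℂ (fun y => F.TrZ e M h (A.p i y) a) z ∧
      ∀ v, fderiv ℂ (fun y => F.TrZ e M h (A.p i y) a) z v =
        fderiv ℂ (trA A (F.SoS e M k) (F.Pz e) h) (e.l.symm (F.g (A.p i z), a))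
          (e.l.symm (Jg A F.g i z *ᵥ v, 0)) := by
  have hM := H.sat
  have hn := (A.C i).isOpen.mem_nhds hz.1
  have hp : ContinuousAt (A.p i) z := (A.cont i).continuousAt hn
  have he : (fun y => F.TrZ e M h (A.p i y) a) =ᶠ[𝓝 z] fun y =>
      trA A (F.SoS e M k) (F.Pz e) h (e.l.symm (F.g (A.p i y), a)) := by
    filter_upwards [hp.eventually (((F.U_open k).inter hM.opn).mem_nhds hz.2)] with y hy
    exact TrZ_eq hM hy h a
  have hg : DifferentiableAt ℂ (fun y => F.g (A.p i y)) z :=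
    (F.g_hol i).differentiableAt (((A.cont i).isOpen_inter_preimage (A.C i).isOpen
      F.W_open).mem_nhds ⟨hz.1, F.U_sub k hz.2.1⟩)
  have ht := ((trA_hol (H.prA k) hμ (sbd8_mono hh)).differentiableAt
    ((sbd8_open hM k).mem_nhds (sbd8_mem hz.2 ha))).hasFDerivAt
  have h1 := e.l.symm.hasFDerivAt.comp z (hg.hasFDerivAt.prodMk (hasFDerivAt_const a z))
  have h2 := (ht.comp z h1).congr_of_eventuallyEq he
  refine ⟨h2.differentiableAt, fun v => ?_⟩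
  rw [h2.fderiv, Jg, jac_mulVec]
  rfl

end Fib

end Pool.Agent.BP
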