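import Pool.Agent.P.MP_63735c_ag.SBD8
import Pool.Agent.P.MP_63735c_ag.BPD3b

/-! Bounds for degree and gradient of the traces. -/

open scoped ComplexOrder ContDiff Matrix Topology ENNReal
open Set Metric MeasureTheory Filter

namespace Pool.Agent.BP

open Pool.Agent.SPF Pool.Agent.AB Pool.Agent.CK Pool.Agent.SE Pool.Agent.NL

variable {N n : ℕ} {X Z : Type} [TopologicalSpace X] [TopologicalSpace Z] [T2Space X] [T2Space Z]
  [MeasurableSpace X] [BorelSpace X] {A : Atlas X N} {K : Form11 A} {F : Fib A n} {φ : X → ℝ}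
  {j : X → Z} {μ : Measure X} [IsFiniteMeasure μ] {h : X → Mat n} {c₀ : ℝ}

section
variable {e : Sz A K F.W φ j n} {M : Set X}

theorem sbd9_loc (H : F.Ok e M) (hμ : IsVolume A μ) {k : F.J} {x : X} (hx : x ∈ F.U k ∩ M) :
    ∀ᶠ b in 𝓝 (F.g x), b ∈ F.g '' (F.U k ∩ M) ∧ b ∈ F.T k ∧ ∀ a ∈ ball e.a (2 * e.ρ),
      trA A (F.SoS e M k) (F.Pz e) (fun _ => 1) (e.l.symm (b, a)) = F.degZ e M x := by
  rw [← Fib.g_map (H.sat.sub hx.2), eventually_map]
  filter_upwards [((F.U_open k).inter H.sat.opn).mem_nhds hx, H.deg_lc hμ hx.2] with y h1 h2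
  refine ⟨mem_image_of_mem _ h1, F.maps k h1.1, fun a ha => ?_⟩
  rw [← Fib.TrZ_eq H.sat h1, H.deg_eq hμ h1.2 ha, h2]

omit [T2Space X] [T2Space Z] [MeasurableSpace X] [BorelSpace X] in
theorem sbd9_sub (k : F.J) (O Bl : Set (E n)) :
    F.SoS e M k ∩ F.Pz e ⁻¹' (e.l ⁻¹' (O ×ˢ Bl)) ⊆ F.U k ∩ F.g ⁻¹' O := by
  rintro z ⟨h1, h2⟩
  refine ⟨h1.2.1, ?_⟩
  simp only [mem_preimage, Fib.Pz, ContinuousLinearEquiv.apply_symm_apply, mem_prod] at h2
  exact h2.1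

omit [TopologicalSpace X] [T2Space X] [BorelSpace X] [IsFiniteMeasure μ] in
theorem sbd9_int {S S' : Set X} (hs : S ⊆ S') {B : ℝ} (hB : 0 ≤ B) (f : X → ℝ) :
    ∫⁻ x in S, ENNReal.ofReal (B * f x) ∂μ ≤
      ENNReal.ofReal B * ∫⁻ x in S', ENNReal.ofReal (f x) ∂μ := by
  simp only [ENNReal.ofReal_mul hB]
  rw [lintegral_const_mul' _ _ ENNReal.ofReal_ne_top]
  exact mul_le_mul_right (lintegral_mono_set hs) _

theorem sbd9_deg (H : F.Ok e M) (hμ : IsVolume A μ) (fub : ∀ k, ∀ O ⊆ F.T k, MeasurableSet O →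
      ∫⁻ x in F.U k ∩ F.g ⁻¹' O, ENNReal.ofReal (h x).det.re ∂μ ≤ ENNReal.ofReal c₀ * volume O)
    (hA : ∃ B : ℝ, 0 ≤ B ∧ ∀ i, ∀ w ∈ dom A (F.W ∩ j ⁻¹' e.O) i,
      ‖(Jg A (F.Pz e) i w).det‖ ^ 2 ≤ ‖((A.C i).σ w).det‖ * (B * (h (A.p i w)).det.re)) :
    ∃ B, ∀ x ∈ M, F.degZ e M x ≤ B := by
  obtain ⟨c, -, hc, hl⟩ := lint_equiv e.l
  obtain ⟨B, hB0, hB⟩ := hA
  have hV : volume (ball e.a (2 * e.ρ)) ≠ 0 :=
    (measure_ball_pos _ _ (by linarith [e.ρ_pos])).ne'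
  obtain ⟨m, hm⟩ := ENNReal.exists_nat_gt
    (ENNReal.div_ne_top (ENNReal.mul_ne_top hc (ENNReal.mul_ne_top (ENNReal.ofReal_ne_top (r := B))
      (ENNReal.ofReal_ne_top (r := c₀)))) hV)
  refine ⟨m, fun x hx => ?_⟩
  obtain ⟨k, hk⟩ := F.cov x (H.sat.sub hx)
  obtain ⟨η, hη, hO⟩ := Metric.eventually_nhds_iff_ball.1 (sbd9_loc H hμ ⟨hk, hx⟩)
  have h1 := trA_deg (H.prA k) hμ (bpd3b_meas e.l (F.g x) e.a η (2 * e.ρ))
    (fun w hw => ⟨(hO _ hw.1).1, hw.2⟩) (d := F.degZ e M x) (fun w hw => by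
      simpa using (hO _ hw.1).2.2 _ hw.2) (G := fun y => B * (h y).det.re)
    fun i z hz => hB i z ⟨hz.1, Fib.soS_sub hz.2⟩
  have h2 := (h1.trans (sbd9_int (sbd9_sub k _ _) hB0 _)).trans
    (mul_le_mul_right (fub k _ (fun b hb => (hO b hb).2.1) measurableSet_ball) _)
  have h3 := hl (ball (F.g x) η ×ˢ ball e.a (2 * e.ρ)) fun _ => 1
  rw [setLIntegral_one, setLIntegral_one, Measure.volume_eq_prod, Measure.prod_prod] at h3
  have h4 : F.degZ e M x * volume (ball e.a (2 * e.ρ)) * volume (ball (F.g x) η) ≤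
      c * (ENNReal.ofReal B * ENNReal.ofReal c₀) * volume (ball (F.g x) η) := by
    rw [mul_assoc, mul_comm (volume _), h3, mul_left_comm, mul_assoc, mul_assoc]
    exact mul_le_mul_right h2 c
  rw [ENNReal.mul_le_mul_iff_left (measure_ball_pos _ _ hη).ne' measure_ball_lt_top.ne,
    ← ENNReal.le_div_iff_mul_le (Or.inl hV) (Or.inl measure_ball_lt_top.ne)] at h4
  exact_mod_cast (h4.trans_lt hm).le

omit [T2Space X] [T2Space Z] [MeasurableSpace X] [BorelSpace X] in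
theorem sbd9_hol {u : E e.M → ℂ} (hu : Differentiable ℂ u) {S : Set X} (hS : S ⊆ j ⁻¹' e.O) :
    HolOn A S fun x => u (e.v x) := fun i =>
  hu.comp_differentiableOn ((e.hol i).mono fun _ hz => ⟨hz.1, hS hz.2⟩)

omit [T2Space X] [MeasurableSpace X] [BorelSpace X] in
theorem sbd9_pt (H : F.Ok e M) (hA : F.AreaS e h) {u : E e.M → ℂ} (hu : Differentiable ℂ u) :
    ∃ B : ℝ, 0 ≤ B ∧ ∀ k v i, ∀ z ∈ dom A (F.SoS e M k) i, ∀ t,
      Jg A (F.Pz e) i z *ᵥ t = e.l.symm (v, 0) →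
        ‖(Jg A (F.Pz e) i z).det‖ ^ 2 * ‖fderiv ℂ (fun w => u (e.v (A.p i w))) z t‖ ^ 2 ≤
          ‖((A.C i).σ z).det‖ * (B * hr (h (A.p i z)).adjugateᵀ v) := by
  obtain ⟨B, hB0, hB⟩ := hA
  obtain ⟨C, hC⟩ := (e.cbox_cpt.1.image_of_continuousOn
    (e.cont.mono e.cbox_cpt.2.1)).exists_bound_of_continuousOn
      ((CL.hol_smooth isOpen_univ hu.differentiableOn).2.2.continuousOn.mono (subset_univ _))
  refine ⟨C ^ 2 * B, mul_nonneg (sq_nonneg _) hB0, fun k v i z hz t ht => ?_⟩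
  have h1 := (hB i z ⟨hz.1, Fib.soS_sub hz.2⟩).2 v t ht
  have h2 : DifferentiableAt ℂ (fun w => e.v (A.p i w)) z :=
    (e.hol i).differentiableAt ((dom_open A (e.opn.preimage H.cont) i).mem_nhds ⟨hz.1, hz.2.1.1⟩)
  have h3 : ‖fderiv ℂ (fun w => u (e.v (A.p i w))) z t‖ ≤
      C * ‖fderiv ℂ (fun w => e.v (A.p i w)) z t‖ := by
    rw [fderiv_fun_comp z (hu _) h2, ContinuousLinearMap.comp_apply]
    exact (ContinuousLinearMap.le_opNorm _ _).trans (mul_le_mul_of_nonneg_right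
      (hC _ (mem_image_of_mem _ (e.cbox_cpt.2.2.2.2.2.1 hz.2.1))) (norm_nonneg _))
  have h4 := mul_le_mul_of_nonneg_left (pow_le_pow_left₀ (norm_nonneg _) h3 2)
    (sq_nonneg ‖(Jg A (F.Pz e) i z).det‖)
  have h5 := mul_le_mul_of_nonneg_left h1 (sq_nonneg C)
  refine h4.trans (le_trans (le_of_eq ?_) (h5.trans (le_of_eq ?_))) <;> ring

theorem sbd9_grad (H : F.Ok e M) (hμ : IsVolume A μ) (hT : F.Tor μ K h c₀) (hA : F.AreaS e h)
    {f : E e.M → ℂ} (hf : Differentiable ℂ f) :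
    ∃ B : ℝ, ∀ k, ∀ x ∈ F.U k ∩ M, ∀ a ∈ ball e.a e.ρ, ∀ v,
      ‖fderiv ℂ (trA A (F.SoS e M k) (F.Pz e) fun y => f (e.v y)) (e.l.symm (F.g x, a))
        (e.l.symm (v, 0))‖ ^ 2 ≤ B * hr (F.om x) v := by
  obtain ⟨c, -, hc, hl⟩ := lint_equiv e.l
  obtain ⟨B, hB0, hB⟩ := sbd9_pt H hA hf
  obtain ⟨D, hD⟩ :=
    sbd9_deg H hμ hT.fub_det (hA.imp fun _ a => ⟨a.1, fun i w hw => (a.2 i w hw).1⟩)
  have hV : volume (ball (0 : E n) e.ρ) ≠ 0 := (measure_ball_pos _ _ e.ρ_pos).ne'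
  set Q : ℝ≥0∞ := c * D * ENNReal.ofReal B * ENNReal.ofReal c₀ with hQ
  have hQ' : Q / volume (ball (0 : E n) e.ρ) ≠ ⊤ :=
    ENNReal.div_ne_top (ENNReal.mul_ne_top (ENNReal.mul_ne_top (ENNReal.mul_ne_top hc
      (ENNReal.natCast_ne_top D)) ENNReal.ofReal_ne_top) ENNReal.ofReal_ne_top) hV
  refine ⟨(Q / volume (ball (0 : E n) e.ρ)).toReal, fun k x hx a ha v => ?_⟩
  have hP := H.prA k
  have h0 := F.om_psd x (H.sat.sub hx.2) v
  have hh : HolOn A (F.SoS e M k) fun y => f (e.v y) := sbd9_hol hf fun _ hy => hy.1.1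
  have hba : ball a e.ρ ⊆ ball e.a (2 * e.ρ) := ball_subset_ball' (by
    rw [mem_ball] at ha
    linarith)
  set T := trA A (F.SoS e M k) (F.Pz e) fun y => f (e.v y) with hT'
  set u := e.l.symm (v, 0) with hu
  have key : ∀ ε > 0, ‖fderiv ℂ T (e.l.symm (F.g x, a)) u‖ ^ 2 ≤
      (Q / volume (ball (0 : E n) e.ρ)).toReal * (hr (F.om x) v + ε) := by
    intro ε hε
    have hco : ContinuousAt (fun b => hr (F.o k b) v) (F.g x) :=
      Complex.continuous_re.continuousAt.comp ((hq_contOn (F.o_cont k) continuousOn_const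
        continuousOn_const).continuousAt ((F.T_open k).mem_nhds (F.maps k hx.1)))
    have hev : ∀ᶠ b in 𝓝 (F.g x), hr (F.o k b) v < hr (F.om x) v + ε :=
      hco.eventually_lt continuousAt_const (by rw [F.o_eq k x hx.1]; linarith)
    obtain ⟨η, hη, hO⟩ := Metric.eventually_nhds_iff_ball.1 ((sbd9_loc H hμ hx).and hev)
    have hs : e.l ⁻¹' (ball (F.g x) η ×ˢ ball a e.ρ) ⊆ F.TaS e M k :=
      fun w hw => ⟨(hO _ hw.1).1.1, hba hw.2⟩
    have h1 := bpd3b_mv (Φ := fun q => fderiv ℂ T (e.l.symm q) u) (b := F.g x) (a := a) (r := η)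
      e.ρ_pos ((measurable_fderiv_apply_const ℂ T u).comp e.l.symm.continuous.measurable)
      (((CL.hol_smooth hP.isOpen' (trA_hol hP hμ hh)).2.2.clm_apply
        (differentiableOn_const u)).comp e.l.symm.differentiableOn fun q hq => hs (by simpa using hq))
    rw [hl _ fun w => ‖fderiv ℂ T w u‖ₑ ^ 2, Measure.addHaar_ball_center] at h1
    have h2 := trA_grad hP hμ (bpd3b_meas e.l (F.g x) a η e.ρ) hs (d := F.degZ e M x)
      (fun w hw => by simpa using (hO _ hw.1).1.2.2 _ (hba hw.2)) hh u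
      (G := fun y => B * hr (h y).adjugateᵀ v) (hB k v)
    have h3 : ∫⁻ y in F.SoS e M k ∩ F.Pz e ⁻¹' (e.l ⁻¹' (ball (F.g x) η ×ˢ ball a e.ρ)),
        ENNReal.ofReal (B * hr (h y).adjugateᵀ v) ∂μ ≤ ENNReal.ofReal B * (ENNReal.ofReal c₀ *
          (ENNReal.ofReal (hr (F.om x) v + ε) * volume (ball (F.g x) η))) := by
      refine (sbd9_int (sbd9_sub k _ _) hB0 _).trans (mul_le_mul_right
        ((hT.fub_adj k _ (fun b hb => (hO b hb).1.2.1) measurableSet_ball v).trans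
          (mul_le_mul_right ?_ _)) _)
      rw [← setLIntegral_const]
      exact setLIntegral_mono' measurableSet_ball fun b hb =>
        ENNReal.ofReal_le_ofReal (hO b hb).2.le
    have h4 : ENNReal.ofReal (‖fderiv ℂ T (e.l.symm (F.g x, a)) u‖ ^ 2) *
        volume (ball (0 : E n) e.ρ) * volume (ball (F.g x) η) ≤
        Q * ENNReal.ofReal (hr (F.om x) v + ε) * volume (ball (F.g x) η) := by
      refine h1.trans ((mul_le_mul_right (h2.trans (mul_le_mul' (Nat.cast_le.2 (hD x hx.2)) h3))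
        c).trans (le_of_eq ?_))
      rw [hQ]
      ring
    rw [ENNReal.mul_le_mul_iff_left (measure_ball_pos _ _ hη).ne' measure_ball_lt_top.ne,
      ← ENNReal.le_div_iff_mul_le (Or.inl hV) (Or.inl measure_ball_lt_top.ne),
      ENNReal.mul_div_right_comm, ENNReal.ofReal_le_iff_le_toReal
        (ENNReal.mul_ne_top hQ' ENNReal.ofReal_ne_top), ENNReal.toReal_mul,
      ENNReal.toReal_ofReal (by linarith)] at h4
    exact h4
  have hq0 : 0 ≤ (Q / volume (ball (0 : E n) e.ρ)).toReal := ENNReal.toReal_nonneg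
  generalize (Q / volume (ball (0 : E n) e.ρ)).toReal = q at key hq0
  refine le_of_forall_pos_le_add fun δ hδ => (key (δ / (q + 1)) (by positivity)).trans ?_
  rw [mul_add, ← mul_div_assoc]
  refine add_le_add_right ((div_le_iff₀ (by positivity)).2 ?_) _
  nlinarith

end

theorem Fib.Ok.exists_trS {e : Sz A K F.W φ j n} {M : Set X} (H : F.Ok e M) (hμ : IsVolume A μ)
    (hT : F.Tor μ K h c₀) (hA : F.AreaS e h) : ∃ deg Tr, F.TrS e M deg Tr := by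
  refine ⟨F.degZ e M, F.TrZ e M, fun x hx a ha => H.fam hμ hx ha,
    fun x hx y hy => Fib.degZ_inv H.sat hx hy, fun x hx => H.deg_lc hμ hx,
    sbd9_deg H hμ hT.fub_det (hA.imp fun _ a => ⟨a.1, fun i w hw => (a.2 i w hw).1⟩),
    fun f hf x hx => H.hol_a hμ hf hx,
    fun f hf a ha i z hz => ?_, fun f hf => ?_⟩
  · obtain ⟨k, hk⟩ := F.cov _ (H.sat.sub hz.2)
    exact (H.loc hμ hf ha (k := k) ⟨hz.1, hk, hz.2⟩).1.differentiableWithinAt
  · obtain ⟨B, hB⟩ := sbd9_grad H hμ hT hA hf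
    refine ⟨B, fun a ha i z hz v => ?_⟩
    obtain ⟨k, hk⟩ := F.cov _ (H.sat.sub hz.2)
    rw [(H.loc hμ (sbd9_hol hf inter_subset_right)
      (ball_subset_ball (by linarith [e.ρ_pos]) ha) (k := k) ⟨hz.1, hk, hz.2⟩).2, Fib.Om, hr, hq_conj]
    exact hB k _ ⟨hk, hz.2⟩ a ha _

end Pool.Agent.BP
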