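import Pool.Agent.P.MP_63735c_ag.SBD5
import Pool.Agent.P.MP_63735c_ag.SBD6
import Pool.Agent.P.MP_63735c_ag.SBD7
import Pool.Agent.P.MP_63735c_ag.SBD9
import Pool.Agent.P.MP_63735c_ag.BPD4

/-! The germ along an ultrafilter. -/

open scoped ComplexOrder ContDiff Matrix Topology ENNReal
open Set Metric MeasureTheory Filter

namespace Pool.Agent.BP

open Pool.Agent.SPF Pool.Agent.AB Pool.Agent.CK Pool.Agent.SE Pool.Agent.NL

section

variable {N n : ℕ} {X Z : Type} [TopologicalSpace X] [TopologicalSpace Z] {A : Atlas X N}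
  {K : Form11 A} {F : Fib A n} {φ : X → ℝ} {j : X → Z}

theorem sbda_eps [T2Space Z] (e : Sz A K F.W φ j n) {K₁ K₂ : Set Z} (h1 : IsClosed K₁)
    (h2 : K₁ ⊆ interior K₂) : ∃ ε : ℝ, 0 < ε ∧ ∀ y ∈ e.cbox, ∀ w ∈ e.cbox, w ∈ K₁ →
      ‖e.z y - e.z w‖ ≤ ε → y ∈ K₂ := by
  obtain ⟨c1, c2, -⟩ := e.cbox_cpt
  have h3 : IsCompact (e.z '' (e.cbox ∩ K₁)) :=
    (c1.inter_right h1).image_of_continuousOn (e.cont.mono (inter_subset_left.trans c2))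
  have h4 : IsCompact (e.z '' (e.cbox \ interior K₂)) :=
    (c1.diff isOpen_interior).image_of_continuousOn (e.cont.mono (sdiff_subset.trans c2))
  obtain ⟨ε, h5, h6⟩ := h3.exists_cthickening_subset_open h4.isClosed.isOpen_compl (by
    rintro _ ⟨a, ha, rfl⟩ ⟨b, hb, hab⟩
    rw [e.inj (c2 hb.1) (c2 ha.1) hab] at hb
    exact hb.2 (h2 ha.2))
  refine ⟨ε, h5, fun y hy w hw hK h7 => interior_subset (by_contra fun h8 => ?_)⟩
  exact h6 (mem_cthickening_of_dist_le (e.z y) (e.z w) ε _ ⟨w, ⟨hw, hK⟩, rfl⟩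
    (by rwa [dist_eq_norm])) ⟨y, ⟨hy, h8⟩, rfl⟩

/-- The monomials in the coordinates of the embedding. -/
noncomputable abbrev sbda_mo (e : Sz A K F.W φ j n) {D : ℕ} (α : Fin e.M → Fin D) : X → ℂ :=
  fun x => mon α (e.v x)

theorem sbda_hol (e : Sz A K F.W φ j n) {D : ℕ} (α : Fin e.M → Fin D) :
    HolOn A (F.W ∩ j ⁻¹' e.O) (sbda_mo e α) := fun i =>
  (mon_diff α).comp_differentiableOn ((e.hol i).mono fun _ hz => ⟨hz.1, hz.2.2⟩)

theorem sbda_fam {e : Sz A K F.W φ j n} {M : Set X} {deg : X → ℕ} {Tr : (X → ℂ) → X → E n → ℂ}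
    (h : F.TrS e M deg Tr) {x : X} (hx : x ∈ M) {d : ℕ} (hd : deg x = d) {a : E n}
    (ha : a ∈ ball e.a (2 * e.ρ)) : ∃ y : Fin d → X,
    (∀ k, j (y k) ∈ e.box ∧ F.r x (y k) ∧ e.L (e.v (y k)) = a) ∧
    (∀ z, j z ∈ e.box → F.r x z → e.L (e.v z) = a → ∃ k, y k = z) ∧
    ∀ h, HolOn A (F.W ∩ j ⁻¹' e.O) h → Tr h x a = ∑ k, h (y k) := by
  subst hd
  exact h.fam x hx a ha

/-- One scale: finitely many traces control the position of a class. -/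
theorem sbda_net [T2Space Z] {e : Sz A K F.W φ j n} {M : Set X} {deg : X → ℕ}
    {Tr : (X → ℂ) → X → E n → ℂ} (h : F.TrS e M deg Tr) (d : ℕ) {K₁ K₂ : Set Z}
    (h1 : IsClosed K₁) (h2 : K₁ ⊆ interior K₂) :
    ∃ (S : Finset (E n)) (δ B : ℝ), 0 < δ ∧ (∀ a ∈ S, a ∈ ball e.a e.ρ) ∧
      (∀ x ∈ M, deg x = d → ∀ (α : Fin e.M → Fin (2 * d + 1)), ∀ a ∈ S,
        ‖Tr (sbda_mo e α) x a‖ ≤ B) ∧
      ∀ x ∈ M, deg x = d → ∀ x₁ ∈ M, deg x₁ = d → (∀ y, F.r x₁ y → j y ∈ K₁) →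
        (∀ (α : Fin e.M → Fin (2 * d + 1)), ∀ a ∈ S,
          ‖Tr (sbda_mo e α) x a - Tr (sbda_mo e α) x₁ a‖ ≤ δ) →
        ∀ z, j z ∈ e.core → F.r x z → j z ∈ K₂ := by
  obtain ⟨c1, c2, -, -, -, c6, -, c8⟩ := e.cbox_cpt
  obtain ⟨ε, hε, h3⟩ := sbda_eps e h1 h2
  obtain ⟨δ, hδ, h4⟩ := ps_close e.M d (‖e.o‖ + e.r₂) hε
  have h5 : ∀ α : Fin e.M → Fin (2 * d + 1), ∃ B, ∀ z ∈ e.cbox, ‖mon α (e.z z)‖ ≤ B := fun α =>
    c1.exists_bound_of_continuousOn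
      ((mon_diff α).continuous.comp_continuousOn (e.cont.mono c2))
  choose B₀ hB₀ using h5
  obtain ⟨B₁, hB₁⟩ := (finite_range B₀).bddAbove
  set B := d * |B₁| + 1 with hB
  have hB0 : 0 < B := by positivity
  have hρ := e.ρ_pos
  have h6 : ∀ x ∈ M, deg x = d → ∀ (α : Fin e.M → Fin (2 * d + 1)), ∀ a ∈ ball e.a (2 * e.ρ),
      ‖Tr (sbda_mo e α) x a‖ ≤ B := by
    intro x hx hd α a ha
    obtain ⟨y, y1, -, y3⟩ := sbda_fam h hx hd ha
    rw [y3 _ (sbda_hol e α)]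
    refine (norm_sum_le_of_le _ (n := fun _ => |B₁|) fun k _ => (hB₀ α _ (c6 (y1 k).1)).trans
      ((hB₁ ⟨α, rfl⟩).trans (le_abs_self _))).trans ?_
    simp [hB]
  obtain ⟨S, s1, s2, s3⟩ := CL.exists_net (fun a : E n => a) (ball e.a e.ρ) (x0 := e.a) (R := e.ρ)
    (δ := δ / 3 * e.ρ / B) (by positivity) fun a ha => (mem_ball_iff_norm.1 ha).le
  have hb : ball e.a e.ρ ⊆ ball e.a (2 * e.ρ) := ball_subset_ball (by linarith)
  refine ⟨s1.toFinset, δ / 3, B, by positivity, fun a ha => s2 (s1.mem_toFinset.1 ha),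
    fun x hx hd α a ha => h6 x hx hd α a (hb (s2 (s1.mem_toFinset.1 ha))),
    fun x hx hd x₁ hx₁ hd₁ hK hc z hz hr => ?_⟩
  have ha : e.L (e.v z) ∈ ball e.a e.ρ := hz.2.1
  obtain ⟨k, hk, h7⟩ := s3 _ ha
  have h8 : ∀ x ∈ M, deg x = d → ∀ (α : Fin e.M → Fin (2 * d + 1)),
      ‖Tr (sbda_mo e α) x (e.L (e.v z)) - Tr (sbda_mo e α) x k‖ ≤ δ / 3 := by
    intro x hx hd α
    refine (CL.hol_lip (by linarith : e.ρ < 2 * e.ρ) (h.hol_a _ (sbda_hol e α) x hx)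
      (h6 x hx hd α) ha (s2 hk)).trans ?_
    refine (mul_le_mul_of_nonneg_left h7 (div_nonneg hB0.le (by linarith))).trans_eq ?_
    rw [show 2 * e.ρ - e.ρ = e.ρ by ring]
    field_simp
  obtain ⟨y, y1, y2, y3⟩ := sbda_fam h hx hd (hb ha)
  obtain ⟨w, w1, -, w3⟩ := sbda_fam h hx₁ hd₁ (hb ha)
  have h9 : ∀ u ∈ e.box, ‖e.z u‖ ≤ ‖e.o‖ + e.r₂ := fun u hu =>
    norm_le_norm_add_const_of_dist_le (mem_ball.1 hu.2.2).le
  obtain ⟨i, rfl⟩ := y2 z (c8 hz) hr rfl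
  obtain ⟨l, hl⟩ := h4 (fun k => e.v (y k)) (fun k => e.v (w k))
    (fun k => ⟨h9 _ (y1 k).1, h9 _ (w1 k).1⟩) (fun α => by
      rw [← y3 _ (sbda_hol e α), ← w3 _ (sbda_hol e α)]
      have a1 := h8 x hx hd α
      have a2 := h8 x₁ hx₁ hd₁ α
      have a3 := hc α k (s1.mem_toFinset.2 hk)
      rw [← dist_eq_norm] at a1 a2 a3 ⊢
      have a4 := dist_triangle4 (Tr (sbda_mo e α) x (e.L (e.v (y i)))) (Tr (sbda_mo e α) x k)
        (Tr (sbda_mo e α) x₁ k) (Tr (sbda_mo e α) x₁ (e.L (e.v (y i))))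
      rw [dist_comm] at a2
      exact a4.trans (by linarith)) i
  exact h3 _ (c6 (y1 i).1) _ (c6 (w1 l).1) (hK _ (w1 l).2.1) hl

/-- The frame. -/
theorem sbda_frame {e : Sz A K F.W φ j n} {M : Set X} {deg : X → ℕ} {Tr : (X → ℂ) → X → E n → ℂ}
    (h : F.TrS e M deg Tr) (hM : M ⊆ F.W) (d : ℕ) (hφ : ∀ x ∈ F.W, ∀ y, F.r x y → φ y = φ x) :
    ∃ (w : X → ℂ) (c C : ℝ), 0 < c ∧ (∀ i, DifferentiableOn ℂ (fun z => w (A.p i z)) (dom A M i)) ∧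
      ∀ y ∈ M, deg y = d → c ≤ ‖w y‖ ^ 2 * Real.exp (-(d * φ y)) ∧
        ‖w y‖ ^ 2 * Real.exp (-(d * φ y)) ≤ C := by
  obtain ⟨Q, hQ, h4⟩ := exists_newton d
  have h6 : ∀ k : ℕ, HolOn A (F.W ∩ j ⁻¹' e.O) fun z => e.s z ^ k := fun k i => (e.s_hol i).pow k
  have ha : e.a ∈ ball e.a (2 * e.ρ) := mem_ball_self (by linarith [e.ρ_pos])
  have hc := e.c_pos
  refine ⟨fun x => Q fun k => Tr (fun z => e.s z ^ ((k : ℕ) + 1)) x e.a, e.c ^ d, e.C ^ d,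
    by positivity, fun i => hQ.comp_differentiableOn
      (differentiableOn_pi.2 fun k => h.hol_x _ (h6 _) _ ha i), fun x hx hd => ?_⟩
  obtain ⟨y, y1, -, y3⟩ := sbda_fam h hx hd ha
  have h7 : ∀ k, y k ∈ F.W ∩ j ⁻¹' e.O := fun k =>
    ⟨(Fib.r_mem (hM hx) (y1 k).2.1).1, (y1 k).1.1⟩
  have h8 : ‖Q fun k => Tr (fun z => e.s z ^ ((k : ℕ) + 1)) x e.a‖ ^ 2 * Real.exp (-(d * φ x)) =
      ∏ k, ‖e.s (y k)‖ ^ 2 * Real.exp (-φ (y k)) := by
    simp only [y3 _ (h6 _)]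
    rw [h4, norm_prod, ← Finset.prod_pow, ← mul_neg, Real.exp_nat_mul,
      ← Fin.prod_const, ← Finset.prod_mul_distrib]
    refine Finset.prod_congr rfl fun k _ => ?_
    rw [hφ x (hM hx) _ (y1 k).2.1]
  rw [h8, ← Fin.prod_const, ← Fin.prod_const]
  exact ⟨Finset.prod_le_prod (fun k _ => hc.le) fun k _ => (e.s_bd _ (h7 k)).1,
    Finset.prod_le_prod (fun k _ => by positivity) fun k _ => (e.s_bd _ (h7 k)).2⟩

end

variable {N n : ℕ} {X Z : Type} [TopologicalSpace X] [TopologicalSpace Z] [T2Space X] [T2Space Z]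
  [MeasurableSpace X] [BorelSpace X] {A : Atlas X N} {K : Form11 A} {F : Fib A n} {φ : X → ℝ}
  {j : X → Z} {μ : Measure X} [IsFiniteMeasure μ] {h : X → Mat n} {c₀ : ℝ}

theorem Fib.exists_germS [CompactSpace Z] (hj : Continuous j) (hi : Function.Injective j)
    (hN : N = 2 * n) (hn : 1 ≤ n) (hinj : ∀ i, InjOn (A.p i) (A.C i).W) (hμ : IsVolume A μ)
    (hK : ∀ i, ∀ z ∈ (A.C i).W, (K.h i z).PosDef) (hT : F.Tor μ K h c₀) (hl : F.Lift K h)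
    (hφ : ∀ x ∈ F.W, ∀ y, F.r x y → φ y = φ x) (hE : ∀ y : Z, ∃ e : Em A K F.W φ j, y ∈ e.O)
    (U : Ultrafilter X) (hU : F.W ∈ U) : Nonempty (GermS A F.W F.Om φ U) := by
  classical
  obtain ⟨x, -, hUx⟩ := isCompact_univ.ultrafilter_le_nhds (U.map j) (by simp)
  choose e₀ e1 e2 using Fib.exists_sz hN hn (fun e => Fib.packS hj hinj hK hT e) hE U hU
  have hco : ∀ e : Sz A K F.W φ j n, IsOpen e.core := fun e => e.cbox_cpt.2.2.2.2.2.2.1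
  have hL : IsCompact (F.LimS j U) := (Fib.limS_closed _).isCompact
  obtain ⟨t, ht⟩ := hL.elim_finite_subcover _ (fun y => hco (e₀ y))
    fun y _ => mem_iUnion.2 ⟨y, e1 y⟩
  let ι := (insert x t : Finset Z)
  let e : ι → Sz A K F.W φ j n := fun i => e₀ i
  let i₀ : ι := ⟨x, Finset.mem_insert_self _ _⟩
  set O : Set Z := (⋃ i, (e i).core) \ ⋃ i, (e i).shell with hOd
  have hO : IsOpen O := (isOpen_iUnion fun i => hco _).sdiff
    (isClosed_iUnion_of_finite fun i => (e i).cbox_cpt.2.2.1.isClosed)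
  have hLO : F.LimS j U ⊆ O := fun y hy => by
    obtain ⟨i, hi, h1⟩ := mem_iUnion₂.1 (ht hy)
    exact ⟨mem_iUnion.2 ⟨⟨i, Finset.mem_insert_of_mem hi⟩, h1⟩, fun h2 => by
      obtain ⟨k, hk⟩ := mem_iUnion.1 h2
      exact disjoint_left.1 (e2 k) hk hy⟩
  set M := {y | y ∈ F.W ∧ ∀ y', F.r y y' → y' ∈ j ⁻¹' O}
  have hM : F.Sat M := Fib.sat_of_open (hO.preimage hj)
  have hMU : ∀ᶠ y in (U : Filter X), y ∈ M := (Fib.limS_trap U hO hLO).mp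
    (mem_of_superset hU fun y hy h => ⟨hy, h⟩)
  choose deg Tr hS using fun i => Fib.Ok.exists_trS (e := e i) (M := M)
    ⟨by omega, hj, hi, hinj, hM,
      fun y hy h => (hy.2 y (F.eqv.refl y)).2 (mem_iUnion.2 ⟨i, h⟩)⟩ hμ hT
    (Fib.areaS hj hK hT hl (e i))
  have hd : ∀ i, ∃ d, ∀ᶠ y in (U : Filter X), deg i y = d := fun i => by
    obtain ⟨B, hB⟩ := (hS i).bdd
    obtain ⟨d, -, h⟩ := (Ultrafilter.eventually_exists_mem_iff (finite_Iic B)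
      (P := fun d y => deg i y = d)).1 (hMU.mono fun y hy => ⟨_, hB y hy, rfl⟩)
    exact ⟨d, h⟩
  choose d hd using hd
  set Nb := {y | y ∈ M ∧ ∀ i, deg i y = d i}
  have hNU : ∀ᶠ y in (U : Filter X), y ∈ Nb := hMU.and (eventually_all.2 hd)
  have hNo : IsOpen Nb := isOpen_iff_mem_nhds.2 fun y hy => by
    filter_upwards [hM.opn.mem_nhds hy.1, eventually_all.2 fun i => (hS i).lc y hy.1] with y' a b
    exact ⟨a, fun i => (b i).trans (hy.2 i)⟩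
  obtain ⟨K₂, k1, k2, k3⟩ := exists_compact_between hL hO hLO
  obtain ⟨K₁, k4, k5, k6⟩ := exists_compact_between hL isOpen_interior k2
  choose S δ B s1 s2 s3 s4 using fun i => sbda_net (hS i) (d i) k4.isClosed k6
  let κ := Σ i : ι, (Fin (e i).M → Fin (2 * d i + 1)) × S i
  let G₀ : κ → X → ℂ := fun k y => Tr k.1 (sbda_mo (e k.1) k.2.1) y k.2.2
  choose b hb using fun k : κ => CL.clhol_lim U (a := G₀ k) (M := B k.1)
    (hNU.mono fun y hy => s3 k.1 y hy.1 (hy.2 _) _ _ k.2.2.2)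
  let q := (Fintype.equivFin κ).symm
  let G : X → E (Fintype.card κ) := fun y m => G₀ (q m) y - b (q m)
  have hG : Tendsto (fun y => nsq (G y)) U (𝓝 0) := by
    have h1 : Tendsto G U (𝓝 0) :=
      tendsto_pi_nhds.2 fun m => tendsto_sub_nhds_zero_iff.2 (hb (q m))
    have h2 : nsq (0 : E (Fintype.card κ)) = 0 := by simp [nsq]
    exact h2 ▸ (nsq_smooth.continuous.tendsto _).comp h1
  obtain ⟨δ₀, d1, d2⟩ : ∃ δ₀ : ℝ, 0 < δ₀ ∧ ∀ i, δ₀ ≤ (δ i / 2) ^ 2 := by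
    obtain ⟨i, hi⟩ := @Finite.exists_min ι ℝ _ ⟨i₀⟩ _ fun i => (δ i / 2) ^ 2
    exact ⟨_, by have := s1 i; positivity, hi⟩
  have hc : ∀ y, nsq (G y) ≤ δ₀ → ∀ k : κ, ‖G₀ k y - b k‖ ≤ δ k.1 / 2 := fun y hy k => by
    have h1 := norm_le_pi_norm (G y) (q.symm k)
    have h2 : G y (q.symm k) = G₀ k y - b k := by simp only [G, Equiv.apply_symm_apply]
    exact h2 ▸ h1.trans (abs_le_of_sq_le_sq' ((nsq_le _).1.trans (hy.trans (d2 k.1)))
      (by have := s1 k.1; positivity)).2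
  obtain ⟨x₁, x1, x2, x3⟩ := (hNU.and ((Fib.limS_trap U isOpen_interior k5).and
    (hG.eventually (ge_mem_nhds d1)))).exists
  have trap : ∀ y ∈ Nb, nsq (G y) ≤ δ₀ → ∀ y', F.r y y' → y' ∈ j ⁻¹' K₂ := fun y hy h y' hr => by
    obtain ⟨i, hz⟩ := mem_iUnion.1 (hy.1.2 y' hr).1
    refine s4 i y hy.1 (hy.2 i) x₁ x1.1 (x1.2 i) (fun w hw => interior_subset (x2 w hw))
      (fun α a ha => ?_) y' hz hr
    have a1 := hc y h ⟨i, α, a, ha⟩
    have a2 := hc x₁ x3 ⟨i, α, a, ha⟩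
    exact (norm_sub_le_norm_sub_add_norm_sub _ (b ⟨i, α, a, ha⟩) _).trans
      (by rw [norm_sub_rev (b _)]; exact (add_le_add a1 a2).trans_eq (add_halves _))
  obtain ⟨w, c, C₁, w1, w2, w3⟩ := sbda_frame (hS i₀) hM.sub (d i₀) hφ
  choose C₂ hC₂ using fun k : κ => (hS k.1).grad _ (mon_diff k.2.1)
  have hb2 : ∀ k : κ, (k.2.2 : E n) ∈ ball (e k.1).a (2 * (e k.1).ρ) := fun k =>
    ball_subset_ball (by linarith [(e k.1).ρ_pos]) (s2 k.1 _ k.2.2.2)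
  have hsub : ∀ i, dom A Nb i ⊆ dom A M i := fun i z hz => ⟨hz.1, hz.2.1⟩
  have hhol : ∀ k i, DifferentiableOn ℂ (fun z => G₀ k (A.p i z)) (dom A M i) := fun k i =>
    (hS k.1).hol_x _ (sbda_hol (e k.1) k.2.1) _ (hb2 k) i
  refine ⟨{
    M := Fintype.card κ
    Nb := Nb
    G := G
    Wf := w
    d := d i₀
    δ := δ₀
    c := c
    C := max C₁ (∑ m, C₂ (q m))
    opn := hNo
    sub := fun y hy => hy.1.1
    d_pos := ?_
    δ_pos := d1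
    c_pos := w1
    G_hol := fun i => differentiableOn_pi.2 fun m => ((hhol (q m) i).mono (hsub i)).sub_const _
    closed := fun y hy h => ?_
    grad := fun i z hz v => ?_
    Wf_hol := fun i => (w2 i).mono (hsub i)
    Wf_bd := fun y hy => ⟨(w3 y hy.1 (hy.2 _)).1, (w3 y hy.1 (hy.2 _)).2.trans (le_max_left _ _)⟩
    near := fun ρ hρ => (hNU.and (hG.eventually (gt_mem_nhds hρ))).frequently }⟩
  · obtain ⟨y, hy, hz⟩ := (hNU.and (show ∀ᶠ y in (U : Filter X), j y ∈ (e i₀).core from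
      hUx ((hco (e i₀)).mem_nhds (e1 x)))).exists
    obtain ⟨-, -, -, -, -, -, -, c8⟩ := (e i₀).cbox_cpt
    obtain ⟨y', -, y2, -⟩ := sbda_fam (hS i₀) hy.1 (hy.2 i₀) (c8 hz).2.1
    obtain ⟨k, -⟩ := y2 y (c8 hz) (F.eqv.refl _) rfl
    exact k.pos
  · have h1 : y ∈ M := ⟨hy, fun y' hr => k3 (Fib.closed_orb (k1.isClosed.preimage hj) hy
      (closure_mono (fun u hu => And.intro hu.1.1.1 (trap u hu.1 hu.2)) h) y' hr)⟩
    refine ⟨h1, fun i => ?_⟩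
    obtain ⟨u, u1, u2⟩ := ((mem_closure_iff_frequently.1 h).and_eventually ((hS i).lc y h1)).exists
    exact u2.symm.trans (u1.1.2 i)
  · have h0 : 0 ≤ hr (F.Om i z) v := by
      rw [Fib.Om, hr, hq_conj]
      exact F.om_psd _ hz.2.1.1 _
    have h1 : ∀ m, DifferentiableAt ℂ (fun y => G₀ (q m) (A.p i y)) z := fun m =>
      (hhol (q m) i).differentiableAt ((dom_open A hM.opn i).mem_nhds (hsub i hz))
    refine le_trans ?_ (mul_le_mul_of_nonneg_right (le_max_right _ _) h0)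
    rw [Finset.sum_mul, nsq]
    refine Finset.sum_le_sum fun m _ => ?_
    rw [show fderiv ℂ (fun y => G (A.p i y)) z = _ from
      fderiv_pi fun m => (h1 m).sub_const (b (q m)), ContinuousLinearMap.pi_apply,
      fderiv_sub_const]
    exact hC₂ (q m) _ (s2 _ _ (q m).2.2.2) i z (hsub i hz) v

end Pool.Agent.BP
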