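import Pool.Agent.P.MP_63735c_ag.SBE0
import Pool.Agent.P.MP_63735c_ag.BPE1

/-! The truncated logarithmic weight. -/

open scoped ComplexOrder ContDiff Matrix Topology ENNReal
open Set Metric MeasureTheory Filter

namespace Pool.Agent.SB

open Pool.Agent.SPF Pool.Agent.CL Pool.Agent.NL Pool.Agent.CK Pool.Agent.AB Pool.Agent.SE
  Pool.Agent.BP

variable {N : ℕ} {X : Type} [TopologicalSpace X] [MeasurableSpace X] {A : Atlas X N}
  {μ : Measure X} {L : Line A} {U : Up A μ L} {x : Filter X}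

theorem UG.lam_bd (H : UG U x) (c : E H.M) (ε : ℝ) (y : X) : H.lam c ε y ≤ 0 ∧
    (y ∈ H.O → H.lam c ε y ≤ Real.log ((H.t c y + ε) / H.τ) + 1) ∧
    (H.lam c ε y < 0 → y ∈ H.O ∧ Real.log ((H.t c y + ε) / H.τ) ≤ H.lam c ε y) := by
  by_cases hy : y ∈ H.O
  · rw [UG.lam, indicator_of_mem hy]
    exact ⟨(rho_bd _).1, fun _ => (rho_bd _).2.1, fun h => ⟨hy, (rho_bd _).2.2.1 h⟩⟩
  · rw [UG.lam, indicator_of_notMem hy]
    exact ⟨le_rfl, fun h => (hy h).elim, fun h => (lt_irrefl _ h).elim⟩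

theorem UG.lam_lev (H : UG U x) : ∃ C₁ : ℝ, 0 ≤ C₁ ∧ ∀ (c : E H.M) (ε : ℝ),
    ‖c - H.a‖ ≤ H.δ / 2 → 0 < ε → U.D.Smo (H.lam c ε) ∧ ∀ i, ∀ z ∈ U.D.W i, ∀ v,
      -(C₁ * U.th i z v) ≤ (hq (lev (fun y => H.lam c ε (A.p i y)) z) v v).re := by
  obtain ⟨D, hD0, hD⟩ := rho_deriv
  have hτ := H.τ_pos
  have hC := H.C_pos
  refine ⟨D * Real.exp 1 / H.τ * (H.M * H.C), by positivity, fun c ε hc hε => ?_⟩
  have ht0 : ∀ y, 0 ≤ H.t c y := fun y => (sq_nonneg _).trans (norm_sq_le_nsq _)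
  have h0 : ∀ y ∈ H.O, H.δ < ‖H.F y - H.a‖ → rho (Real.log ((H.t c y + ε) / H.τ)) = 0 := by
    intro y _ hy
    refine (rho_bd _).2.2.2 (Real.log_nonneg ((one_le_div hτ).2 ?_))
    have h1 : H.δ / 2 ≤ ‖H.F y - c‖ := by
      linarith [norm_sub_le_norm_sub_add_norm_sub (H.F y) c H.a]
    have h2 : ‖H.F y - c‖ ^ 2 ≤ H.t c y := norm_sq_le_nsq _
    have h3 := H.δ_pos
    unfold UG.τ
    nlinarith
  constructor
  · intro i z hz
    rcases H.ind h0 hz with ⟨h1, -, h2⟩ | ⟨-, h2⟩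
    · refine (ContDiffAt.congr_of_eventuallyEq ?_ h2).contDiffWithinAt
      exact rho_smooth.contDiffAt.comp z ((((H.t_calc c hz.1 h1).1.add contDiffAt_const).div_const
        _).log (div_pos (add_pos_of_nonneg_of_pos (ht0 _) hε) hτ).ne')
    · exact (contDiffAt_const.congr_of_eventuallyEq h2).contDiffWithinAt
  intro i z hz v
  have hth : 0 ≤ U.th i z v := U.G_lev i z hz.1 hz.2 v
  rcases H.ind h0 hz with ⟨h1, -, h2⟩ | ⟨-, h2⟩
  swap
  · rw [UG.lam, (lev_congr h2).self_of_nhds, lev_const, hq_zero, Complex.zero_re]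
    exact neg_nonpos.2 (by positivity)
  obtain ⟨t1, t2⟩ := H.t_calc c hz.1 h1
  obtain ⟨t2, t3, t4⟩ := t2 v
  have hp : 0 < H.t c (A.p i z) + ε := add_pos_of_nonneg_of_pos (ht0 _) hε
  have hev : ∀ᶠ t in 𝓝 (H.t c (A.p i z)), 0 < t + ε :=
    (continuous_add_const ε).continuousAt.eventually (eventually_gt_nhds hp)
  rw [UG.lam, (lev_congr h2).self_of_nhds,
    lev_chain (f := fun y => H.t c (A.p i y)) (hev.mono fun t ht => (bpe1_der hτ ht).1)
      (bpe1_der hτ hp).2 t1]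
  obtain ⟨d1, d2, d3⟩ := hD (Real.log ((H.t c (A.p i z) + ε) / H.τ))
  refine le_trans ?_ (bpe1_ineq (B := D * Real.exp 1 / H.τ) hp d1 (sq_nonneg _)
    (t2.trans (mul_le_mul_of_nonneg_right (le_add_of_nonneg_right hε.le) t3))
    (by positivity) ?_)
  · rw [mul_assoc, neg_le_neg_iff]
    exact mul_le_mul_of_nonneg_left t4 (by positivity)
  rcases lt_or_ge (Real.log ((H.t c (A.p i z) + ε) / H.τ)) (-1) with h | h
  · rw [d3 h]
    exact neg_nonpos.2 (by positivity)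
  refine le_trans (neg_le_neg ?_) d2
  rw [Real.le_log_iff_exp_le (div_pos hp hτ), Real.exp_neg,
    inv_le_iff_one_le_mul₀ (Real.exp_pos 1)] at h
  calc D = D * 1 := (mul_one D).symm
    _ ≤ D * ((H.t c (A.p i z) + ε) / H.τ * Real.exp 1) := mul_le_mul_of_nonneg_left h hD0
    _ = _ := by ring

end Pool.Agent.SB
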