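import Pool.Agent.P.MP_63735c_ag.BPPolX
import Pool.Agent.P.MP_63735c_ag.BPE0

/-! Points in the closure of a chart (objects of the proof). -/

open scoped ComplexOrder ContDiff Matrix Topology ENNReal
open Set Metric MeasureTheory Filter

namespace Pool.Agent.SB

open Pool.Agent.SPF Pool.Agent.NL Pool.Agent.CK Pool.Agent.AB Pool.Agent.SE Pool.Agent.BP

variable {N : ℕ} {X : Type} [TopologicalSpace X] {A : Atlas X N} {L : Line A} {i : A.ι} {z₀ : E N}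
  {r : ℝ}

/-- A ball in which the chart `i` is dense and over which the weight and `det σ` extend. -/
structure EP (L : Line A) (i : A.ι) (z₀ : E N) (r : ℝ) : Prop where
  pos : 0 < r
  dense : ball z₀ r ⊆ closure (A.C i).W
  cpt : ∀ S, IsCompact S → S ⊆ ball z₀ r → ∀ C, IsCompact C →
    IsCompact (S ∩ ((A.C i).W ∩ A.p i ⁻¹' C))
  psi : ∃ ψ : E N → ℝ, ContDiffOn ℝ ∞ ψ (ball z₀ r) ∧ EqOn ψ (L.ψ i) (ball z₀ r ∩ (A.C i).W)
  det : ∃ D : E N → ℂ, DifferentiableOn ℂ D (ball z₀ r) ∧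
    ∀ z ∈ ball z₀ r ∩ (A.C i).W, D z = ((A.C i).σ z).det

/-- Every section has bounded norm. -/
def SecBd (L : Line A) : Prop :=
  ∀ j s, L.IsSection j s → ∃ C : ℝ, ∀ i, ∀ z ∈ (A.C i).W,
    ‖s i z‖ ^ 2 * Real.exp (-(j * L.ψ i z)) ≤ C

/-- Finitely many small balls cover `X`. -/
def Cov (L : Line A) : Prop :=
  ∀ ε : A.ι → E N → ℝ, (∀ i z, 0 < ε i z) → ∃ t : Finset (A.ι × E N),
    (∀ q ∈ t, ∃ r, EP L q.1 q.2 r) ∧
      ∀ x, ∃ q ∈ t, ∃ w ∈ ball q.2 (ε q.1 q.2) ∩ (A.C q.1).W, A.p q.1 w = x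

theorem EP.mono (h : EP L i z₀ r) {z : E N} {s : ℝ} (hs : 0 < s) (hb : ball z s ⊆ ball z₀ r) :
    EP L i z s := by
  obtain ⟨ψ, h1, h2⟩ := h.psi
  obtain ⟨D, h3, h4⟩ := h.det
  exact ⟨hs, hb.trans h.dense, fun S hS h5 => h.cpt S hS (h5.trans hb),
    ⟨ψ, h1.mono hb, h2.mono (inter_subset_inter_left _ hb)⟩,
    D, h3.mono hb, fun y hy => h4 y ⟨hb hy.1, hy.2⟩⟩

/-- A ball in a chart. -/
theorem EP.of_sub [T2Space X] (L : Line A) (hr : 0 < r) (h : ball z₀ r ⊆ (A.C i).W) :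
    EP L i z₀ r := by
  refine ⟨hr, h.trans subset_closure, fun S hS h1 C hC => ?_,
    ⟨L.ψ i, (L.ψ_smooth i).mono h, fun _ _ => rfl⟩, _, ?_, fun _ _ => rfl⟩
  · have e : S ∩ ((A.C i).W ∩ A.p i ⁻¹' C) = S ∩ A.p i ⁻¹' C :=
      Subset.antisymm (fun z hz => ⟨hz.1, hz.2.2⟩) fun z hz => ⟨hz.1, h (h1 hz.1), hz.2⟩
    rw [e]
    exact hS.of_isClosed_subset (((A.cont i).mono (h1.trans h)).preimage_isClosed_of_isClosed
      hS.isClosed hC.isClosed) inter_subset_left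
  · simp only [Matrix.det_apply, Units.smul_def]
    refine DifferentiableOn.fun_sum fun τ _ => DifferentiableOn.const_smul (fun x hx => ?_) _
    exact (HasFDerivAt.finsetProd fun a _ => (((A.C i).σ_hol (τ a) a).differentiableAt
      ((A.C i).isOpen.mem_nhds (h hx))).hasFDerivAt).differentiableAt.differentiableWithinAt

theorem EP.ne (h : EP L i z₀ r) {s : ℝ} (hs : 0 < s) : (ball z₀ s ∩ (A.C i).W).Nonempty :=
  mem_closure_iff.1 (h.dense (mem_ball_self h.pos)) _ isOpen_ball (mem_ball_self hs)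

/-- The extension of `det σ` is not identically zero. -/
theorem EP.det_ne (h : EP L i z₀ r) {s : ℝ} (hs : 0 < s) (hr : s ≤ r) :
    ∃ D : E N → ℂ, DifferentiableOn ℂ D (ball z₀ s) ∧ (∃ z ∈ ball z₀ s, D z ≠ 0) ∧
      ∀ z ∈ ball z₀ s ∩ (A.C i).W, D z = ((A.C i).σ z).det := by
  obtain ⟨D, h1, h2⟩ := (h.mono hs (ball_subset_ball hr)).det
  obtain ⟨z, hz⟩ := h.ne hs
  exact ⟨D, h1, ⟨z, hz.1, h2 z hz ▸ (A.C i).σ_det z hz.2⟩, h2⟩

/-- Bounds on a smaller ball. -/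
theorem EP.bds (h : EP L i z₀ r) {R : ℝ} (hR : R < r) : ∃ B : ℝ, 0 < B ∧
    ∀ z ∈ closedBall z₀ R, z ∈ (A.C i).W → ‖((A.C i).σ z).det‖ ≤ B ∧ |L.ψ i z| ≤ B ∧
      ∀ v, (hq ((A.C i).η z) v v).re ≤ B * ‖v‖ ^ 2 := by
  obtain ⟨ψ, h1, h2⟩ := h.psi
  obtain ⟨D, h3, h4⟩ := h.det
  have hs : closedBall z₀ R ⊆ ball z₀ r := closedBall_subset_ball hR
  have hc := isCompact_closedBall z₀ R
  obtain ⟨B₀, k0⟩ := hc.exists_bound_of_continuousOn (h3.continuousOn.mono hs)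
  obtain ⟨B₁, k1⟩ := hc.exists_bound_of_continuousOn (h1.continuousOn.mono hs)
  obtain ⟨B₂, hB, k2⟩ := cpt_upper (h := lev ψ) hc
    fun a b => (lev_smooth isOpen_ball h1 a b).continuousOn.mono hs
  refine ⟨|B₀| + |B₁| + B₂, by positivity, fun z hz hW => ⟨?_, ?_, fun v => ?_⟩⟩
  · rw [← h4 z ⟨hs hz, hW⟩]
    linarith [k0 z hz, le_abs_self B₀, abs_nonneg B₁]
  · have := k1 z hz
    rw [Real.norm_eq_abs, h2 ⟨hs hz, hW⟩] at this
    linarith [le_abs_self B₁, abs_nonneg B₀]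
  · have e1 : lev ψ z = lev (L.ψ i) z := (lev_congr (h2.eventuallyEq_of_mem
      ((isOpen_ball.inter (A.C i).isOpen).mem_nhds ⟨hs hz, hW⟩))).self_of_nhds
    have e2 : lev (L.ψ i) z = (A.C i).η z := Matrix.ext fun a b => L.curv i z hW a b
    have := (Complex.re_le_norm _).trans (k2 z hz v v).1
    rw [e1, e2] at this
    nlinarith [abs_nonneg B₀, abs_nonneg B₁, sq_nonneg ‖v‖]

/-- The pole set seen from the ball. -/
theorem EP.pol (hP : EP L i z₀ r) {W : Set X} {ψ : X → ℝ} (h : PolX A W ψ) (hd : Dense W) {R : ℝ}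
    (hR : 0 < R) (hr' : R < r) :
    ∃ ψ' : E N → ℝ, Pol z₀ R (ball z₀ R ∩ ((A.C i).W ∩ A.p i ⁻¹' W)) ψ' ∧
      ∀ z ∈ ball z₀ R ∩ ((A.C i).W ∩ A.p i ⁻¹' W), |ψ (A.p i z)| ≤ |ψ' z| := by
  obtain ⟨M, hM, hpsh⟩ := h.psh
  obtain ⟨B, hB0, hη⟩ := hP.bds hr'
  have hn : ∀ z : E N, ∀ᶠ w in 𝓝 z, DifferentiableAt ℂ (fun w : E N => w - z₀) w :=
    fun z => Eventually.of_forall fun w => differentiableAt_id.sub_const z₀
  have hneg : ∀ z ∈ ball z₀ R, M * B * nsq (z - z₀) + -(M * B * (N * R ^ 2)) ≤ 0 := by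
    intro z hz'
    have h1 : ‖z - z₀‖ ≤ R := (mem_ball_iff_norm.1 hz').le
    have h2 : nsq (z - z₀) ≤ N * R ^ 2 := (nsq_le _).2.trans (by gcongr)
    have h3 := mul_le_mul_of_nonneg_left h2 (mul_nonneg hM hB0.le)
    linarith
  have hs : ∀ z, ContDiffAt ℝ ∞ (fun w => M * B * nsq (w - z₀)) z :=
    fun z => contDiffAt_const.mul (lev_nsq (hn z)).1
  refine ⟨fun z => ψ (A.p i z) + (M * B * nsq (z - z₀) + -(M * B * (N * R ^ 2))),
    ⟨isOpen_ball.inter ((A.cont i).isOpen_inter_preimage (A.C i).isOpen h.isOpen),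
      inter_subset_left, fun z hz' => ((h.smooth i z hz'.2.1 hz'.2.2).add
        ((hs z).add contDiffAt_const)).contDiffWithinAt, fun z hz' => ?_, fun z hz' v => ?_,
      fun c z hz' hcl => ⟨hz', ?_⟩, ?_⟩, fun z hz' => ?_⟩
  · have := h.le _ hz'.2.2
    have := hneg z hz'.1
    linarith
  · have h1 := hpsh i z hz'.2.1 hz'.2.2 v
    have h2 := (lev_nsq (hn z)).2.2.2 v
    rw [fderiv_sub_const, fderiv_fun_id] at h2
    have h3 := mul_le_mul_of_nonneg_left (((hη z (ball_subset_closedBall hz'.1) hz'.2.1).2.2 v).trans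
      (mul_le_mul_of_nonneg_left (nsq_le v).1 hB0.le)) hM
    rw [hr, lev_add (h.smooth i z hz'.2.1 hz'.2.2) ((hs z).add contDiffAt_const),
      lev_add (hs z) contDiffAt_const, lev_const, add_zero, lev_smul (lev_nsq (hn z)).1, hq_add,
      hq_smul, Complex.add_re, Complex.re_ofReal_mul]
    simp only [hr, ContinuousLinearMap.id_apply] at h1 h2 h3
    rw [h2]
    linarith
  · have h1 := (hP.cpt _ (isCompact_closedBall z₀ R) (closedBall_subset_ball hr') _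
      (h.cpt c)).isClosed
    have h2 := closure_minimal (fun y hy => mem_inter (ball_subset_closedBall hy.1.1)
      (mem_inter hy.1.2.1 (show _ ∧ _ from
        ⟨hy.1.2.2, hy.2.trans (add_le_of_nonpos_right (hneg y hy.1.1))⟩))) h1 hcl
    exact ⟨h2.2.1, h2.2.2.1⟩
  · have h16 : ball z₀ (R / 16) ⊆ ball z₀ R := ball_subset_ball (by linarith)
    obtain ⟨_, ⟨z, hz', rfl⟩, hw⟩ := hd.inter_open_nonempty _
      (A.opn i _ (isOpen_ball.inter (A.C i).isOpen) inter_subset_right)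
      ((hP.ne (show 0 < R / 16 by linarith)).image _)
    exact ⟨z, ⟨h16 hz'.1, hz'.2, hw⟩, hz'.1⟩
  · have h1 := h.le _ hz'.2.2
    have h2 := hneg z hz'.1
    rw [abs_of_nonpos (by linarith), abs_of_nonpos (by linarith)]
    linarith

/-- The norm of a section does not depend on the chart. -/
theorem sec_norm {j : ℕ} {s : A.ι → E N → ℂ} (h : L.IsSection j s) {k : A.ι} {z y : E N}
    (hz : z ∈ (A.C i).W) (hy : y ∈ (A.C k).W) (e : A.p i z = A.p k y) :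
    ‖s i z‖ ^ 2 * Real.exp (-(j * L.ψ i z)) = ‖s k y‖ ^ 2 * Real.exp (-(j * L.ψ k y)) := by
  rw [h.2 i k z hz y hy e, ← mul_neg, ← mul_neg, Real.exp_nat_mul, Real.exp_nat_mul,
    L.ψ_eq i k z hz y hy e, norm_mul, norm_pow]
  ring

variable [MeasurableSpace X] [BorelSpace X] {μ : Measure X}

theorem sbep_dense (U : Up A μ L) (hμ : IsVolume A μ) : Dense U.W := by
  intro x
  obtain ⟨i, z, hz, rfl⟩ := A.cover x
  refine closure_mono ?_ (mem_closure_image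
    ((A.cont i).continuousAt ((A.C i).isOpen.mem_nhds hz)) (U.dense_chart hμ i hz))
  rintro _ ⟨y, hy, rfl⟩
  exact hy.2

/-- The complement of `U.W` seen from the ball. -/
theorem EP.up (hP : EP L i z₀ r) (U : Up A μ L) (hμ : IsVolume A μ) {R : ℝ} (hR : 0 < R)
    (hr' : R < r) : ∃ ψ' : E N → ℝ, Pol z₀ R (ball z₀ R ∩ U.D.W i) ψ' := by
  obtain ⟨z, hz⟩ := hP.ne hR
  have hd := sbep_dense U hμ
  have hp : PolX A U.W U.ψ := ⟨U.hW, (hd.inter_open_nonempty _ isOpen_univ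
      ⟨A.p i z, trivial⟩).mono inter_subset_right,
    fun i z hz hx => (U.ψ_smo i).contDiffAt ((U.D.isOpen i).mem_nhds ⟨hz, hx⟩), U.ψ_le,
    ⟨U.M, U.M_nonneg, U.ψ_lev⟩, fun c => U.ψ_cpt (-c)⟩
  exact (hP.pol hp hd hR hr').imp fun _ h => h.1

end Pool.Agent.SB
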