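import Pool.Agent.P.MP_63735c_ag.BPE0

/-! Division by a holomorphic function that is not identically zero. -/

open scoped ComplexOrder ContDiff Matrix Topology ENNReal
open Set Metric MeasureTheory Filter

namespace Pool.Agent.SB

open Pool.Agent.SPF Pool.Agent.CL Pool.Agent.NL Pool.Agent.CK Pool.Agent.AB Pool.Agent.SE

variable {N : ℕ} {D : E N → ℂ} {z₀ : E N} {r : ℝ}

/-- The order of vanishing on one line. -/
theorem sbeh_ord (hD : DifferentiableOn ℂ D (ball z₀ r)) (hne : ∃ z ∈ ball z₀ r, D z ≠ 0) :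
    ∃ (v : E N) (m : ℕ) (c t₀ : ℝ), 0 < c ∧ 0 < t₀ ∧
      ∀ t : ℂ, ‖t‖ ≤ t₀ → c * ‖t‖ ^ m ≤ ‖D (z₀ + t • v)‖ := by
  obtain ⟨z, hz, hne⟩ := hne
  obtain ⟨v, rfl⟩ : ∃ v, z = z₀ + v := ⟨z - z₀, by abel⟩
  have hv : ‖v‖ < r := by simpa using hz
  have h0 := norm_nonneg v
  have hr : 0 < ‖v‖ + r := by linarith
  have h1 : 1 < 2 * r / (‖v‖ + r) := (one_lt_div hr).2 (by linarith)
  have hm : MapsTo (fun t : ℂ => z₀ + t • v) (ball 0 (2 * r / (‖v‖ + r))) (ball z₀ r) := by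
    intro t ht
    have h2 : ‖t‖ * (‖v‖ + r) < 2 * r := (lt_div_iff₀ hr).1 (mem_ball_zero_iff.1 ht)
    rw [mem_ball_iff_norm, add_sub_cancel_left, norm_smul]
    nlinarith [norm_nonneg t]
  have hg : AnalyticOnNhd ℂ (fun t : ℂ => D (z₀ + t • v)) (ball 0 (2 * r / (‖v‖ + r))) :=
    (hD.comp (f := fun t : ℂ => z₀ + t • v) (by fun_prop) hm).analyticOnNhd isOpen_ball
  have hb : (0 : ℂ) ∈ ball (0 : ℂ) (2 * r / (‖v‖ + r)) := mem_ball_self (by linarith)
  obtain ⟨m, h, h2, h3, h4⟩ := (hg 0 hb).exists_eventuallyEq_pow_smul_nonzero_iff.2 fun h => by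
    have := hg.eqOn_zero_of_preconnected_of_eventuallyEq_zero (convex_ball _ _).isPreconnected hb h
      (mem_ball_zero_iff.2 (show ‖(1 : ℂ)‖ < _ by rwa [norm_one]))
    exact hne (by simpa using this)
  have hp : 0 < ‖h 0‖ := norm_pos_iff.2 h3
  have h5 : ∀ᶠ t in 𝓝 (0 : ℂ), ‖h 0‖ / 2 < ‖h t‖ :=
    continuousAt_const.eventually_lt h2.continuousAt.norm (half_lt_self hp)
  obtain ⟨t₀, ht₀, h6⟩ := nhds_basis_closedBall.mem_iff.1 (h4.and h5)
  refine ⟨v, m, ‖h 0‖ / 2, t₀, half_pos hp, ht₀, fun t ht => ?_⟩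
  obtain ⟨h7, h8⟩ := h6 (mem_closedBall_zero_iff.2 ht)
  rw [h7, norm_smul, sub_zero, norm_pow, mul_comm]
  exact mul_le_mul_of_nonneg_left h8.le (by positivity)

/-- The mass of `‖D‖` on small balls. -/
theorem sbeh_low (hD : DifferentiableOn ℂ D (ball z₀ r)) (hne : ∃ z ∈ ball z₀ r, D z ≠ 0) :
    ∃ (a : ℕ) (c r₁ : ℝ), 0 < c ∧ 0 < r₁ ∧ ∀ ρ, 0 < ρ → ρ < r₁ →
      ENNReal.ofReal (c * ρ ^ a) ≤ ∫⁻ z in ball z₀ (ρ ^ 2), ENNReal.ofReal ‖D z‖ := by
  have hr : 0 < r := nonempty_ball.1 ⟨_, hne.choose_spec.1⟩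
  obtain ⟨v, m, c, t₀, hc, ht₀, h⟩ := sbeh_ord hD hne
  have h1 : ContDiffAt ℝ 1 D z₀ := (smoothAt_of_hol' (mem_of_superset (ball_mem_nhds z₀ hr)
    fun y hy => hD.differentiableAt (isOpen_ball.mem_nhds hy))).of_le (by simp)
  obtain ⟨K, T, hT, hK⟩ := h1.exists_lipschitzOnWith
  obtain ⟨r₂, hr₂, h2⟩ := Metric.mem_nhds_iff.1 hT
  have hK0 : (0 : ℝ) ≤ K := K.2
  obtain ⟨κ, hκ, hκ1, hκ2⟩ : ∃ κ : ℝ, 0 < κ ∧ κ ≤ 1 ∧ κ * ‖v‖ ≤ 1 / 2 := by
    have := norm_nonneg v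
    refine ⟨1 / (2 * (‖v‖ + 1)), by positivity, (div_le_one (by positivity)).2 (by linarith), ?_⟩
    rw [div_mul_eq_mul_div, div_le_div_iff₀ (by positivity) (by positivity)]
    linarith
  obtain ⟨e, he, he1, he2⟩ : ∃ e : ℝ, 0 < e ∧ e ≤ 1 / 2 ∧ K * e ≤ c * κ ^ m / 2 := by
    refine ⟨min (1 / 2) (c * κ ^ m / 2 / (K + 1)), by positivity, min_le_left _ _, ?_⟩
    have h3 := (le_div_iff₀ (by positivity)).1
      (min_le_right (1 / 2 : ℝ) (c * κ ^ m / 2 / (K + 1)))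
    have h4 : 0 < min (1 / 2 : ℝ) (c * κ ^ m / 2 / (K + 1)) := by positivity
    nlinarith
  have hV : 0 < (volume (ball (0 : E N) 1)).toReal :=
    ENNReal.toReal_pos (measure_ball_pos _ _ one_pos).ne' measure_ball_lt_top.ne
  refine ⟨2 * m + (2 * m + 2) * (N * 2),
    c * κ ^ m / 2 * (e ^ (N * 2) * (volume (ball (0 : E N) 1)).toReal), min 1 (min t₀ r₂),
    by positivity, by positivity, fun ρ hρ hρ1 => ?_⟩
  have a1 : ρ < 1 := hρ1.trans_le (min_le_left _ _)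
  have a2 : ρ < t₀ := hρ1.trans_le ((min_le_right _ _).trans (min_le_left _ _))
  have a3 : ρ < r₂ := hρ1.trans_le ((min_le_right _ _).trans (min_le_right _ _))
  have a4 : ρ ^ 2 ≤ ρ := by nlinarith
  have a5 : 0 < ρ ^ 2 := by positivity
  have a6 : ρ ^ (2 * m) ≤ 1 := pow_le_one₀ hρ.le a1.le
  have a7 : 0 < ρ ^ (2 * m) := by positivity
  have n1 : ‖((κ * ρ ^ 2 : ℝ) : ℂ)‖ = κ * ρ ^ 2 := by
    rw [Complex.norm_real, Real.norm_of_nonneg (by positivity)]
  have b1 := h ((κ * ρ ^ 2 : ℝ) : ℂ) (by rw [n1]; nlinarith)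
  rw [n1, mul_pow, ← pow_mul] at b1
  obtain ⟨y, hy⟩ : ∃ y, y = z₀ + ((κ * ρ ^ 2 : ℝ) : ℂ) • v := ⟨_, rfl⟩
  rw [← hy] at b1
  have b2 : dist y z₀ ≤ ρ ^ 2 / 2 := by
    rw [hy, dist_eq_norm, add_sub_cancel_left, norm_smul, n1]
    nlinarith
  have s1 : e * ρ ^ (2 * m + 2) ≤ ρ ^ 2 / 2 := by
    rw [pow_add]
    nlinarith [mul_le_mul he1 a6 a7.le (by norm_num)]
  have s0 : 0 < e * ρ ^ (2 * m + 2) := by positivity
  have b3 : ball y (e * ρ ^ (2 * m + 2)) ⊆ ball z₀ (ρ ^ 2) := ball_subset_ball' (by linarith)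
  have b4 : ball z₀ (ρ ^ 2) ⊆ T := (ball_subset_ball (by linarith)).trans h2
  have b5 : ∀ z ∈ ball y (e * ρ ^ (2 * m + 2)),
      ENNReal.ofReal (c * κ ^ m / 2 * ρ ^ (2 * m)) ≤ ENNReal.ofReal ‖D z‖ := by
    intro z hz
    refine ENNReal.ofReal_le_ofReal ?_
    have c1 := hK.dist_le_mul y (b4 (b3 (mem_ball_self s0))) z (b4 (b3 hz))
    have c2 : dist y z ≤ e * ρ ^ (2 * m) := by
      refine (mem_ball'.1 hz).le.trans (mul_le_mul_of_nonneg_left ?_ he.le)
      rw [pow_add]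
      nlinarith
    have c3 := norm_sub_norm_le (D y) (D z)
    rw [← dist_eq_norm] at c3
    have c4 := mul_le_mul_of_nonneg_left c2 hK0
    have c5 := mul_le_mul_of_nonneg_right he2 a7.le
    nlinarith
  refine le_trans ?_ ((setLIntegral_mono' measurableSet_ball b5).trans (lintegral_mono_set b3))
  have hf : Module.finrank ℝ (E N) = N * 2 := by simp [Module.finrank_pi_fintype]
  rw [setLIntegral_const, Measure.addHaar_ball_of_pos _ _ s0, hf,
    ← ENNReal.ofReal_toReal (measure_ball_lt_top (x := (0 : E N)) (r := 1)).ne,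
    ← ENNReal.ofReal_mul (by positivity), ← ENNReal.ofReal_mul (by positivity),
    ENNReal.toReal_ofReal hV.le]
  refine ENNReal.ofReal_le_ofReal (le_of_eq ?_)
  rw [mul_pow e, ← pow_mul, pow_add]
  ring

/-- A Lipschitz bound from an integral with the weight `‖D‖`. -/
theorem sbeh_div (hD : DifferentiableOn ℂ D (ball z₀ r)) (hne : ∃ z ∈ ball z₀ r, D z ≠ 0) :
    ∃ a r' : ℝ, 0 < a ∧ 0 < r' ∧ ∀ (f : E N → ℂ) (b : ℝ), 0 ≤ b →
      DifferentiableOn ℂ f (ball z₀ r) →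
      ∫⁻ y in ball z₀ r, ENNReal.ofReal (‖f y‖ ^ 2 * ‖D y‖) ≤ ENNReal.ofReal (b ^ 2) →
        f z₀ = 0 → ∀ z ∈ ball z₀ r', ‖f z‖ ≤ a * b * ‖z - z₀‖ := by
  have hr : 0 < r := nonempty_ball.1 ⟨_, hne.choose_spec.1⟩
  obtain ⟨v, m, c, t₀, hc, ht₀, h⟩ := sbeh_ord hD hne
  have hs : closedBall z₀ (r / 2) ⊆ ball z₀ r := closedBall_subset_ball (half_lt_self hr)
  have hDc := hD.continuousOn.mono hs
  obtain ⟨B, hB⟩ := (isCompact_closedBall z₀ (r / 2)).exists_bound_of_continuousOn hDc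
  have hB0 : 0 ≤ B := (norm_nonneg _).trans (hB z₀ (mem_closedBall_self (by positivity)))
  obtain ⟨a, ha, hA⟩ := hol_l2 N (show 0 < r / 4 by positivity)
  obtain ⟨t, ht, ht1, ht2⟩ : ∃ t : ℝ, 0 < t ∧ t ≤ t₀ ∧ t * ‖v‖ ≤ r / 8 := by
    have := norm_nonneg v
    have h1 := (le_div_iff₀ (by positivity)).1 (min_le_right t₀ (r / 8 / (‖v‖ + 1)))
    have h2 : 0 < min t₀ (r / 8 / (‖v‖ + 1)) := by positivity
    exact ⟨_, h2, min_le_left _ _, by nlinarith⟩
  have hc1 : 0 < c * t ^ m / 2 := by positivity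
  obtain ⟨δ, hδ, hu⟩ := Metric.uniformContinuousOn_iff.1
    ((isCompact_closedBall z₀ (r / 2)).uniformContinuousOn_of_continuous hDc) _ hc1
  have hr' : 0 < min δ (r / 8) := by positivity
  refine ⟨a * (B + 1) / (c * t ^ m / 2) / min δ (r / 8), min δ (r / 8), by positivity, hr',
    fun f b hb hf hi h0 z hz => ?_⟩
  have k1 : ∀ w ∈ ball z₀ (r / 4), ‖f w * D w‖ ≤ a * ((B + 1) * b) := by
    intro w hw
    have s1 : ball w (r / 4) ⊆ closedBall z₀ (r / 2) :=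
      (ball_subset_ball' (by linarith [mem_ball.1 hw])).trans ball_subset_closedBall
    have d1 : DifferentiableOn ℂ (fun y => f y * D y) (ball w (r / 4)) :=
      (hf.fun_mul hD).mono (s1.trans hs)
    have hm : AEStronglyMeasurable (fun y => ‖f y * D y‖ ^ 2) (volume.restrict (ball w (r / 4))) :=
      (d1.continuousOn.norm.pow 2).aestronglyMeasurable measurableSet_ball
    have hn : 0 ≤ᵐ[volume.restrict (ball w (r / 4))] fun y => ‖f y * D y‖ ^ 2 :=
      Eventually.of_forall fun _ => sq_nonneg _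
    have h1 : ∫⁻ y in ball w (r / 4), ENNReal.ofReal (‖f y * D y‖ ^ 2) ≤
        ENNReal.ofReal (((B + 1) * b) ^ 2) := by
      calc _ ≤ ∫⁻ y in ball w (r / 4), ENNReal.ofReal B * ENNReal.ofReal (‖f y‖ ^ 2 * ‖D y‖) := by
            refine setLIntegral_mono' measurableSet_ball fun y hy => ?_
            rw [← ENNReal.ofReal_mul hB0, norm_mul]
            refine ENNReal.ofReal_le_ofReal ?_
            nlinarith [mul_le_mul_of_nonneg_left (hB y (s1 hy))
              (mul_nonneg (sq_nonneg ‖f y‖) (norm_nonneg (D y)))]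
        _ ≤ ENNReal.ofReal B * ENNReal.ofReal (b ^ 2) := by
            rw [lintegral_const_mul' _ _ ENNReal.ofReal_ne_top]
            exact mul_le_mul_right ((lintegral_mono_set (s1.trans hs)).trans hi) _
        _ ≤ _ := by
            rw [← ENNReal.ofReal_mul hB0]
            exact ENNReal.ofReal_le_ofReal (by nlinarith [sq_nonneg b, sq_nonneg (B * b)])
    refine (hA _ w _ (by positivity) d1 ⟨hm, (hasFiniteIntegral_iff_ofReal hn).2
      (h1.trans_lt ENNReal.ofReal_lt_top)⟩ ?_).1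
    rw [integral_eq_lintegral_of_nonneg_ae hn hm]
    exact ENNReal.toReal_le_of_le_ofReal (sq_nonneg _) h1
  have k2 : ∀ w ∈ ball z₀ (min δ (r / 8)), ‖f w‖ ≤ a * (B + 1) / (c * t ^ m / 2) * b := by
    intro w hw
    have w1 : dist w z₀ < δ := (mem_ball.1 hw).trans_le (min_le_left _ _)
    have w2 : dist w z₀ < r / 8 := (mem_ball.1 hw).trans_le (min_le_right _ _)
    have w3 : ∀ (y : E N) (s : ℂ), dist y z₀ < r / 8 → ‖s‖ ≤ t → y + s • v ∈ ball z₀ (r / 4) := by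
      intro y s hy hs'
      have e1 := dist_triangle (y + s • v) y z₀
      rw [dist_self_add_left, norm_smul] at e1
      have e2 := mul_le_mul_of_nonneg_right hs' (norm_nonneg v)
      exact mem_ball.2 (by linarith)
    have w4 : ball z₀ (r / 4) ⊆ closedBall z₀ (r / 2) :=
      ball_subset_closedBall.trans (closedBall_subset_closedBall (by linarith))
    have d1 : DifferentiableOn ℂ (fun s : ℂ => f (w + s • v)) (closedBall 0 t) :=
      hf.comp (f := fun s : ℂ => w + s • v) (by fun_prop) fun s hs' =>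
        hs (w4 (w3 w s w2 (mem_closedBall_zero_iff.1 hs')))
    have d2 := Complex.norm_le_of_forall_mem_frontier_norm_le (isBounded_ball (x := (0 : ℂ)) (r := t))
      (DiffContOnCl.mk_ball (d1.mono ball_subset_closedBall) d1.continuousOn)
      (C := a * (B + 1) / (c * t ^ m / 2) * b) (fun s hs' => ?_)
      (subset_closure (mem_ball_self ht))
    · simpa using d2
    rw [frontier_ball _ ht.ne', mem_sphere_zero_iff_norm] at hs'
    have e1 := h s (hs'.le.trans ht1)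
    have e2 := w3 w s w2 hs'.le
    have e3 := hu _ (w4 (w3 z₀ s (by simpa using hr) hs'.le)) _ (w4 e2)
      (by rwa [dist_add_right, dist_comm])
    have e4 := norm_sub_norm_le (D (z₀ + s • v)) (D (w + s • v))
    rw [← dist_eq_norm] at e4
    rw [hs'] at e1
    have e5 := k1 _ e2
    rw [norm_mul] at e5
    rw [div_mul_eq_mul_div, le_div_iff₀ hc1]
    nlinarith [mul_le_mul_of_nonneg_left (show c * t ^ m / 2 ≤ ‖D (w + s • v)‖ by linarith)
      (norm_nonneg (f (w + s • v)))]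
  have k3 := Complex.dist_le_div_mul_dist_of_mapsTo_ball (hf.mono (ball_subset_ball
    ((min_le_right δ (r / 8)).trans (by linarith)))) (fun w hw => by
      rw [h0, mem_closedBall_zero_iff]
      exact k2 w hw) hz
  rw [h0, dist_zero_right, dist_eq_norm] at k3
  exact k3.trans_eq (by ring)

end Pool.Agent.SB
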