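import Pool.Agent.P.MP_63735c_ag.SBEP
import Pool.Agent.P.MP_63735c_ag.SBEH
import Pool.Agent.P.MP_63735c_ag.BPE4

/-! Most of the mass of a small ball has `G` and `ψ` not too negative. -/

open scoped ComplexOrder ContDiff Matrix Topology ENNReal
open Set Metric MeasureTheory Filter

namespace Pool.Agent.SB

open Pool.Agent.SPF Pool.Agent.NL Pool.Agent.CK Pool.Agent.AB Pool.Agent.SE Pool.Agent.BP

variable {N : ℕ} {X : Type} [TopologicalSpace X] [MeasurableSpace X] {A : Atlas X N}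
  {μ : Measure X} {L : Line A}

theorem EP.vol_big [BorelSpace X] {i : A.ι} {z₀ : E N} {r : ℝ} (hP : EP L i z₀ r) (U : Up A μ L)
    (hμ : IsVolume A μ) (k : ℕ) : ∃ (a : ℕ) (c r₁ : ℝ), 0 < c ∧ 0 < r₁ ∧ ∀ ρ, 0 < ρ → ρ < r₁ →
      ∃ (S : Set (E N)) (b : ℝ), MeasurableSet S ∧
        ENNReal.ofReal (c * ρ ^ a) ≤ ∫⁻ z in S, ENNReal.ofReal ‖((A.C i).σ z).det‖ ∧
          ∀ z ∈ S, z ∈ ball z₀ (ρ ^ 2) ∧ z ∈ U.D.W i ∧ Real.log ρ ≤ k * U.G (A.p i z) ∧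
            b ≤ U.ψ (A.p i z) := by
  have hr := hP.pos
  obtain ⟨ψ', hp⟩ := hP.up U hμ (half_pos hr) (half_lt_self hr)
  obtain ⟨R, hR, hRr, hnull⟩ : ∃ R, 0 < R ∧ R ≤ r ∧ volume (ball z₀ R \ U.D.W i) = 0 :=
    ⟨r / 2 / 16, by positivity, by linarith,
      measure_mono_null (fun z hz => by exact ⟨hz.1, fun h => hz.2 h.2⟩) hp.null⟩
  obtain ⟨D, hD, hne, hDe⟩ := hP.det_ne hR hRr
  obtain ⟨a, c₀, r₀, hc₀, hr₀, hv⟩ := sbeh_low hD hne
  obtain ⟨ν, hν⟩ : ∃ ν : Measure (E N), ν = volume.withDensity fun z => ENNReal.ofReal ‖D z‖ :=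
    ⟨_, rfl⟩
  have hνS : ∀ S, MeasurableSet S → S ⊆ ball z₀ R ∩ (A.C i).W →
      ν S = ∫⁻ z in S, ENNReal.ofReal ‖((A.C i).σ z).det‖ := fun S hS h => by
    rw [hν, withDensity_apply _ hS]
    exact setLIntegral_congr_fun hS fun z hz => by simp only [hDe z (h hz)]
  have hν0 : ν (ball z₀ R \ U.D.W i) = 0 := hν ▸ withDensity_absolutelyContinuous _ _ hnull
  have hI := U.G_int ((a + 1) * k)
  obtain ⟨I, hI0, hIe⟩ : ∃ I : ℝ, 0 ≤ I ∧ ∫⁻ y in U.W, ENNReal.ofReal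
      (Real.exp (-((((a + 1) * k : ℕ) : ℝ) * U.G y))) ∂μ = ENNReal.ofReal I :=
    ⟨_, integral_nonneg fun y => (Real.exp_pos _).le, (ofReal_integral_eq_lintegral_ofReal hI
      (Eventually.of_forall fun y => (Real.exp_pos _).le)).symm⟩
  refine ⟨a, c₀ / 2, min (min 1 R) (min r₀ (c₀ / (4 * (I + 1)))), by positivity, by positivity,
    fun ρ hρ hρ1 => ?_⟩
  have a1 : ρ < 1 := hρ1.trans_le ((min_le_left _ _).trans (min_le_left _ _))
  have a2 : ρ < R := hρ1.trans_le ((min_le_left _ _).trans (min_le_right _ _))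
  have a3 : ρ * (4 * (I + 1)) < c₀ :=
    (lt_div_iff₀ (by positivity)).1 (hρ1.trans_le ((min_le_right _ _).trans (min_le_right _ _)))
  have a4 : ρ < r₀ := hρ1.trans_le ((min_le_right _ _).trans (min_le_left _ _))
  have hsub : ball z₀ (ρ ^ 2) ⊆ ball z₀ R := ball_subset_ball (by nlinarith)
  have hO : IsOpen (ball z₀ (ρ ^ 2) ∩ U.D.W i) := isOpen_ball.inter (U.D.isOpen i)
  have cG : ContinuousOn (fun z => (k : ℝ) * U.G (A.p i z)) (ball z₀ (ρ ^ 2) ∩ U.D.W i) :=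
    continuousOn_const.mul ((U.G_smo i).continuousOn.mono inter_subset_right)
  have cψ : ContinuousOn (fun z => U.ψ (A.p i z)) (ball z₀ (ρ ^ 2) ∩ U.D.W i) :=
    (U.ψ_smo i).continuousOn.mono inter_subset_right
  set O := ball z₀ (ρ ^ 2) ∩ U.D.W i with hOe
  have hOs : O ⊆ ball z₀ R ∩ (A.C i).W := fun z hz => ⟨hsub hz.1, hz.2.1⟩
  have mB : MeasurableSet (O ∩ {z | (k : ℝ) * U.G (A.p i z) < Real.log ρ}) :=
    (cG.isOpen_inter_preimage hO isOpen_Iio).measurableSet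
  have hP : 0 < ρ ^ a := by positivity
  have hB : ν (O ∩ {z | (k : ℝ) * U.G (A.p i z) < Real.log ρ}) ≤
      ENNReal.ofReal (c₀ / 4 * ρ ^ a) := by
    have h1 : ν (O ∩ {z | (k : ℝ) * U.G (A.p i z) < Real.log ρ}) ≤
        ENNReal.ofReal (ρ ^ (a + 1)) * ENNReal.ofReal I := by
      rw [hνS _ mB (inter_subset_left.trans hOs), ← hIe,
        ← lintegral_const_mul' _ _ ENNReal.ofReal_ne_top]
      refine le_trans ?_ (lintegral_mono_set
        (s := A.p i '' (O ∩ {z | (k : ℝ) * U.G (A.p i z) < Real.log ρ}))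
        (by rintro _ ⟨z, hz', rfl⟩; exact hz'.1.2.2))
      rw [vol_lint U.hinj hμ mB fun z hz' => hz'.1.2.1]
      refine setLIntegral_mono' mB fun z hz' => ?_
      rw [← ENNReal.ofReal_mul (by positivity), ← ENNReal.ofReal_mul (by positivity)]
      refine ENNReal.ofReal_le_ofReal (le_mul_of_one_le_right (norm_nonneg _) ?_)
      have h2 : (k : ℝ) * U.G (A.p i z) < Real.log ρ := hz'.2
      rw [← Real.exp_log (pow_pos hρ (a + 1)), ← Real.exp_add, Real.log_pow]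
      refine Real.one_le_exp ?_
      have h3 : (0 : ℝ) ≤ ((a + 1 : ℕ) : ℝ) := Nat.cast_nonneg _
      rw [Nat.cast_mul]
      nlinarith [mul_nonneg h3 (sub_pos.2 h2).le]
    refine h1.trans ?_
    rw [← ENNReal.ofReal_mul (by positivity)]
    refine ENNReal.ofReal_le_ofReal ?_
    rw [pow_succ]
    nlinarith [mul_le_mul_of_nonneg_left (show ρ * I ≤ c₀ / 4 by nlinarith) hP.le]
  have hS : ENNReal.ofReal (c₀ / 2 * ρ ^ a) <
      ν (⋃ n : ℕ, (O ∩ {z | Real.log ρ ≤ k * U.G (A.p i z)}) ∩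
        (O ∩ {z | -(n : ℝ) ≤ U.ψ (A.p i z)})) := by
    by_contra h0
    have h1 : ball z₀ (ρ ^ 2) ⊆ ((ball z₀ R \ U.D.W i) ∪
        (O ∩ {z | (k : ℝ) * U.G (A.p i z) < Real.log ρ})) ∪
        ⋃ n : ℕ, (O ∩ {z | Real.log ρ ≤ k * U.G (A.p i z)}) ∩
          (O ∩ {z | -(n : ℝ) ≤ U.ψ (A.p i z)}) := by
      intro z hz'
      by_cases h2 : z ∈ U.D.W i
      · have h3 : z ∈ O := ⟨hz', h2⟩
        rcases lt_or_ge ((k : ℝ) * U.G (A.p i z)) (Real.log ρ) with h4 | h4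
        · exact Or.inl (Or.inr ⟨h3, h4⟩)
        · obtain ⟨n, hn⟩ := exists_nat_ge (-U.ψ (A.p i z))
          exact Or.inr (mem_iUnion.2 ⟨n, ⟨h3, h4⟩, h3, neg_le.1 hn⟩)
      · exact Or.inl (Or.inl ⟨hsub hz', h2⟩)
    have h2 := (measure_mono (μ := ν) h1).trans ((measure_union_le _ _).trans
      (add_le_add ((measure_union_le _ _).trans (add_le_add hν0.le hB)) (not_lt.1 h0)))
    have h3 : ENNReal.ofReal (c₀ * ρ ^ a) ≤ ν (ball z₀ (ρ ^ 2)) := by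
      rw [hν, withDensity_apply _ measurableSet_ball]
      exact hv ρ hρ a4
    have h4 := h3.trans h2
    rw [zero_add, ← ENNReal.ofReal_add (by positivity) (by positivity),
      ENNReal.ofReal_le_ofReal_iff (by positivity)] at h4
    nlinarith [mul_pos hc₀ hP]
  have hm : Monotone fun n : ℕ => (O ∩ {z | Real.log ρ ≤ k * U.G (A.p i z)}) ∩
      (O ∩ {z | -(n : ℝ) ≤ U.ψ (A.p i z)}) := fun n m hnm z hz' =>
    ⟨hz'.1, hz'.2.1, le_trans (b := -(n : ℝ)) (neg_le_neg (Nat.cast_le.2 hnm)) hz'.2.2⟩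
  rw [hm.measure_iUnion] at hS
  obtain ⟨n, hn⟩ := lt_iSup_iff.1 hS
  have mS := (bpe4_meas hO cG (Real.log ρ)).inter (bpe4_meas hO cψ (-(n : ℝ)))
  exact ⟨_, -(n : ℝ), mS, hn.le.trans_eq (hνS _ mS fun z hz' => hOs hz'.1.1),
    fun z hz' => ⟨hz'.1.1.1, hz'.1.1.2, hz'.1.2, hz'.2.2⟩⟩

end Pool.Agent.SB
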