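import Pool.Agent.P.MP_63735c_ag.SBE1
import Pool.Agent.P.MP_63735c_ag.BPE5

/-! The curvature of the total weight. -/

open scoped ComplexOrder ContDiff Matrix Topology ENNReal
open Set Metric MeasureTheory Filter

namespace Pool.Agent.SB

open Pool.Agent.SPF Pool.Agent.CL Pool.Agent.NL Pool.Agent.CK Pool.Agent.AB Pool.Agent.SE
  Pool.Agent.BP

variable {N : ℕ} {X : Type} [TopologicalSpace X] [MeasurableSpace X] {A : Atlas X N}
  {μ : Measure X} {L : Line A} {U : Up A μ L} {x : Filter X}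

theorem UG.Φ_lev (H : UG U x) (γ : ℕ) : ∃ k e : ℕ, 1 ≤ e ∧ ∀ ε, 0 < ε →
    U.D.Smo (H.Φ (H.d * e) k γ ε) ∧ ∀ i, ∀ z ∈ U.D.W i, ∀ v,
      U.th i z v + ‖v ⬝ᵥ dr (fun y => U.l2 (A.p i y)) z‖ ^ 2 ≤
        (hq (lev (fun y => H.Φ (H.d * e) k γ ε (A.p i y)) z) v v).re := by
  obtain ⟨C₁, hC₁, hlam⟩ := H.lam_lev
  obtain ⟨-, hr, -, -, hrl⟩ := U.l2_calc
  refine ⟨⌈γ * C₁⌉₊ + 1, ⌈γ * C₁⌉₊ + 1 + ⌈U.M⌉₊ + 1, by omega, fun ε hε => ?_⟩
  set k : ℕ := ⌈γ * C₁⌉₊ + 1 with hk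
  set e : ℕ := k + ⌈U.M⌉₊ + 1 with he
  obtain ⟨hls, hll⟩ := hlam H.a ε (by
    rw [sub_self, norm_zero]
    have := H.δ_pos
    positivity) hε
  have hφ := U.pot
  refine ⟨fun i => ?_, fun i z hz v => ?_⟩
  · exact (((contDiffOn_const.mul (hφ.smo i)).add (contDiffOn_const.mul (U.G_smo i))).add
      (contDiffOn_const.mul (hls i))).add (hr i)
  · have hn := (U.D.isOpen i).mem_nhds hz
    have s1 : ContDiffAt ℝ ∞ (fun y => U.φ (A.p i y)) z := (hφ.smo i).contDiffAt hn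
    have s2 : ContDiffAt ℝ ∞ (fun y => U.G (A.p i y)) z := (U.G_smo i).contDiffAt hn
    have s3 : ContDiffAt ℝ ∞ (fun y => H.lam H.a ε (A.p i y)) z := (hls i).contDiffAt hn
    have s4 : ContDiffAt ℝ ∞ (fun y => (1 + U.l (A.p i y))⁻¹) z := (hr i).contDiffAt hn
    have t1 : ContDiffAt ℝ ∞ (fun y => ((H.d * e : ℕ) : ℝ) * U.φ (A.p i y)) z :=
      contDiffAt_const.mul s1
    have t2 : ContDiffAt ℝ ∞ (fun y => (k : ℝ) * U.G (A.p i y)) z := contDiffAt_const.mul s2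
    have t3 : ContDiffAt ℝ ∞ (fun y => (γ : ℝ) * H.lam H.a ε (A.p i y)) z :=
      contDiffAt_const.mul s3
    have key : lev (fun y => H.Φ (H.d * e) k γ ε (A.p i y)) z =
        (((H.d * e : ℕ) : ℝ) : ℂ) • (((U.m : ℝ) : ℂ) • (A.C i).η z) +
          ((k : ℝ) : ℂ) • lev (fun y => U.G (A.p i y)) z +
          ((γ : ℝ) : ℂ) • lev (fun y => H.lam H.a ε (A.p i y)) z +
          lev (fun y => (1 + U.l (A.p i y))⁻¹) z := by
      rw [← hφ.lev i z hz, ← lev_smul s1, ← lev_smul s2, ← lev_smul s3, ← lev_add t1 t2,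
        ← lev_add (t1.add t2) t3, ← lev_add ((t1.add t2).add t3) s4]
      rfl
    have h0 := hq_nonneg ((A.C i).η_psd z hz.1) v
    have h1 := U.G_lev i z hz.1 hz.2 v
    have h2 := hll i z hz v
    have h3 := hrl i z hz v
    have hk1 : (γ : ℝ) * C₁ + 1 ≤ k := by
      rw [hk]
      push_cast
      linarith [Nat.le_ceil ((γ : ℝ) * C₁)]
    have he1 : (k : ℝ) + U.M ≤ e := by
      rw [he]
      push_cast
      linarith [Nat.le_ceil U.M]
    have he2 : (e : ℝ) ≤ ((H.d * e : ℕ) : ℝ) * (U.m : ℝ) := by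
      have : e ≤ H.d * e * U.m :=
        (Nat.le_mul_of_pos_left e H.d_pos).trans (Nat.le_mul_of_pos_right _ U.m_pos)
      exact_mod_cast this
    have hγ : (0 : ℝ) ≤ γ := Nat.cast_nonneg γ
    rw [key]
    simp only [hq_add, hq_smul, Complex.add_re, Complex.re_ofReal_mul]
    unfold Up.th at h2 ⊢
    have a1 := mul_le_mul_of_nonneg_left h2 hγ
    have a2 := mul_nonneg (sub_nonneg.2 hk1) h1
    have a3 := mul_nonneg (sub_nonneg.2 (he1.trans he2)) h0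
    nlinarith [a1, a2, a3, h3]

end Pool.Agent.SB
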