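import Pool.Agent.P.MP_63735c_ag.SBE1
import Pool.Agent.P.MP_63735c_ag.BPE8

/-! The cut off frame. -/

open scoped ComplexOrder ContDiff Matrix Topology ENNReal
open Set Metric MeasureTheory Filter

namespace Pool.Agent.SB

open Pool.Agent.SPF Pool.Agent.CL Pool.Agent.NL Pool.Agent.CK Pool.Agent.AB Pool.Agent.SE
  Pool.Agent.BP

variable {N : ℕ} {X : Type} [TopologicalSpace X] [MeasurableSpace X] {A : Atlas X N}
  {μ : Measure X} {L : Line A} {U : Up A μ L} {x : Filter X}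

theorem sbe8_pow (H : UG U x) (e : ℕ) (y : X) :
    ‖H.w y ^ e‖ ^ 2 * Real.exp (-((H.d * e : ℕ) * U.φ y)) =
      (‖H.w y‖ ^ 2 * Real.exp (-(H.d * U.φ y))) ^ e := by
  rw [mul_pow, ← Real.exp_nat_mul, norm_pow, ← pow_mul, ← pow_mul, mul_comm e 2]
  congr 2
  push_cast
  ring

theorem sbe8_far (H : UG U x) {y : X} (h : H.δ < ‖H.F y - H.a‖) :
    2 - 2 * H.t H.a y / H.τ < 0 := by
  have h1 := norm_sq_le_nsq (H.F y - H.a)
  have h2 := H.δ_pos
  have h3 := H.τ_pos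
  rw [sub_neg, lt_div_iff₀ h3]
  unfold UG.t
  unfold UG.τ
  nlinarith

theorem UG.sR_bd (H : UG U x) (e : ℕ) (R : ℝ) (y : X) :
    ‖H.sR e R y‖ ^ 2 * Real.exp (-((H.d * e : ℕ) * U.φ y)) ≤ H.C ^ e ∧
      (y ∈ H.O → 2 * H.t H.a y ≤ H.τ → U.l2 y ≤ R →
        H.c ^ e ≤ ‖H.sR e R y‖ ^ 2 * Real.exp (-((H.d * e : ℕ) * U.φ y))) := by
  have hC := H.C_pos
  have hc := H.c_pos
  have hτ := H.τ_pos
  by_cases hy : y ∈ H.O
  swap
  · rw [UG.sR, indicator_of_notMem hy]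
    exact ⟨by simpa using pow_nonneg hC.le e, fun h => absurd h hy⟩
  have h1 := sbe8_pow H e y
  have h2 := H.w_bd y hy
  rw [UG.sR, indicator_of_mem hy, norm_mul, mul_pow, mul_assoc, h1, Complex.norm_real,
    Real.norm_eq_abs, sq_abs, mul_pow]
  refine ⟨?_, fun _ h3 h4 => ?_⟩
  · refine (mul_le_of_le_one_left (by positivity) ?_).trans
      (pow_le_pow_left₀ (by positivity) h2.2 e)
    exact mul_le_one₀ (bpe8_sq _) (sq_nonneg _) (bpe8_sq _)
  · rw [Real.smoothTransition.one_of_one_le (by linarith), Real.smoothTransition.one_of_one_le (by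
      have : 2 * H.t H.a y / H.τ ≤ 1 := (div_le_one hτ).2 h3
      linarith), one_pow, one_mul, one_mul]
    exact pow_le_pow_left₀ hc.le h2.1 e

open Classical in
theorem UG.sR_db [T2Space X] (H : UG U x) (e : ℕ) : ∃ B : ℝ, 0 ≤ B ∧ ∀ R, U.D.S (H.sR e R) ∧
    ∃ c : X → ℝ, U.D.Cc c ∧ (∀ y, 0 ≤ c y) ∧
      (∀ y, c y * Real.exp (-((H.d * e : ℕ) * U.φ y)) ≤
        (if R ≤ U.l2 y then B else 0) + (if y ∈ H.O ∧ H.τ ≤ 2 * H.t H.a y then B else 0)) ∧
      ∀ i, ∀ z ∈ U.D.W i, ∀ v, ‖v ⬝ᵥ star (db (fun y => H.sR e R (A.p i y)) z)‖ ^ 2 ≤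
        c (A.p i z) * (U.th i z v + ‖v ⬝ᵥ dr (fun y => U.l2 (A.p i y)) z‖ ^ 2) := by
  obtain ⟨s, D, hD, hsc, hs⟩ := bpe8_step
  have hC := H.C_pos
  have hτ := H.τ_pos
  obtain ⟨B', hB'⟩ : ∃ B' : ℝ, B' = 4 * (H.M * H.C) / H.τ := ⟨_, rfl⟩
  have hB0 : 0 ≤ B' := by rw [hB']; positivity
  obtain ⟨l1, -, l3, -, -⟩ := U.l2_calc
  have hS : ContDiff ℝ ∞ Real.smoothTransition := Real.smoothTransition.contDiff
  refine ⟨2 * H.C ^ e * D * (1 + B'), by positivity, fun R => ?_⟩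
  obtain ⟨c₀, hc₀⟩ : ∃ c₀ : X → ℝ, c₀ = fun y => 2 * ‖H.w y ^ e‖ ^ 2 *
      (s (R + 1 - U.l2 y) ^ 2 * Real.smoothTransition (2 - 2 * H.t H.a y / H.τ) ^ 2 +
        Real.smoothTransition (R + 1 - U.l2 y) ^ 2 * s (2 - 2 * H.t H.a y / H.τ) ^ 2 * B') :=
    ⟨_, rfl⟩
  have c0 : ∀ y, 0 ≤ c₀ y := fun y => by rw [hc₀]; positivity
  have cs : ∀ {F : Type} [Zero F] {h : X → F}, (∀ y, R + 1 - U.l2 y < 0 → h y = 0) →
      U.D.Cs (H.O.indicator h) := by
    intro F _ h h0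
    refine ⟨_, l3 (R + 1), fun y hy => (man_M (A := A)).symm ▸ hy.1, fun y hy => ?_⟩
    by_cases hO : y ∈ H.O
    · rw [indicator_of_mem hO]
      exact h0 y (sub_neg.2 (lt_of_not_ge fun h1 => hy ⟨H.sub hO, h1⟩))
    · exact indicator_of_notMem hO _
  have f1 : ∀ y ∈ H.O, H.δ < ‖H.F y - H.a‖ → ((Real.smoothTransition (R + 1 - U.l2 y) *
      Real.smoothTransition (2 - 2 * H.t H.a y / H.τ) : ℝ) : ℂ) * H.w y ^ e = 0 := fun y _ h => by
    rw [Real.smoothTransition.zero_of_nonpos (sbe8_far H h).le]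
    simp
  have f2 : ∀ y ∈ H.O, H.δ < ‖H.F y - H.a‖ → c₀ y = 0 := fun y _ h => by
    rw [hc₀]
    simp only [Real.smoothTransition.zero_of_nonpos (sbe8_far H h).le,
      (hs _).2.2.1 (sbe8_far H h)]
    simp
  have loc : ∀ i, ∀ z ∈ U.D.W i, A.p i z ∈ H.O →
      (∀ᶠ y in 𝓝 z, y ∈ (A.C i).W ∧ A.p i y ∈ H.O) →
      ContDiffAt ℝ ∞ (fun y => U.l2 (A.p i y)) z ∧ ContDiffAt ℝ ∞ (fun y => H.t H.a (A.p i y)) z ∧
        ∀ᶠ y in 𝓝 z, DifferentiableAt ℂ (fun y => H.w (A.p i y) ^ e) y := by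
    intro i z hz hO hev
    refine ⟨(l1 i).contDiffAt ((U.D.isOpen i).mem_nhds hz), (H.t_calc H.a hz.1 hO).1, ?_⟩
    filter_upwards [hev.eventually_nhds] with y hy
    exact ((H.w_hol i).differentiableAt hy).fun_pow e
  refine ⟨⟨fun i z hz => ContDiffAt.contDiffWithinAt ?_, cs fun y hy => ?_⟩, H.O.indicator c₀,
    ⟨fun i z hz => ContinuousAt.continuousWithinAt ?_, cs fun y hy => ?_⟩,
    fun y => indicator_nonneg (fun y _ => c0 y) y, fun y => ?_, fun i z hz v => ?_⟩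
  · rcases H.ind f1 hz with ⟨hO, hev, he⟩ | ⟨-, he⟩
    · obtain ⟨a1, a2, a3⟩ := loc i z hz hO hev
      refine ContDiffAt.congr_of_eventuallyEq ?_ he
      refine ContDiffAt.mul (Complex.ofRealCLM.contDiff.contDiffAt.comp z ?_) (smoothAt_of_hol' a3)
      exact (hS.contDiffAt.comp z (contDiffAt_const.sub a1)).mul
        (hS.contDiffAt.comp z (contDiffAt_const.sub ((contDiffAt_const.mul a2).div_const _)))
    · exact contDiffAt_const.congr_of_eventuallyEq he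
  · rw [Real.smoothTransition.zero_of_nonpos hy.le]
    simp
  · rcases H.ind f2 hz with ⟨hO, hev, he⟩ | ⟨-, he⟩
    · obtain ⟨a1, a2, a3⟩ := loc i z hz hO hev
      refine ContinuousAt.congr ?_ he.symm
      have b1 : ContinuousAt (fun y => R + 1 - U.l2 (A.p i y)) z :=
        continuousAt_const.sub a1.continuousAt
      have b2 : ContinuousAt (fun y => 2 - 2 * H.t H.a (A.p i y) / H.τ) z :=
        continuousAt_const.sub ((continuousAt_const.mul a2.continuousAt).div_const _)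
      rw [hc₀]
      exact (continuousAt_const.mul (a3.self_of_nhds.continuousAt.norm.pow 2)).mul
        ((((hsc.continuousAt.comp b1).pow 2).mul ((hS.continuous.continuousAt.comp b2).pow 2)).add
          ((((hS.continuous.continuousAt.comp b1).pow 2).mul
            ((hsc.continuousAt.comp b2).pow 2)).mul continuousAt_const))
    · exact continuousAt_const.congr he.symm
  · rw [hc₀]
    simp only [Real.smoothTransition.zero_of_nonpos hy.le, (hs _).2.2.1 hy]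
    simp
  · have hB : 0 ≤ 2 * H.C ^ e * D * (1 + B') := by positivity
    by_cases hO : y ∈ H.O
    swap
    · rw [indicator_of_notMem hO, zero_mul]
      positivity
    have h1 : ‖H.w y ^ e‖ ^ 2 * Real.exp (-((H.d * e : ℕ) * U.φ y)) ≤ H.C ^ e := by
      rw [sbe8_pow]
      exact pow_le_pow_left₀ (by positivity) (H.w_bd y hO).2 e
    have h2 : s (R + 1 - U.l2 y) ^ 2 * Real.smoothTransition (2 - 2 * H.t H.a y / H.τ) ^ 2 ≤
        if R ≤ U.l2 y then D * (1 + B') else 0 := by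
      split_ifs with h
      · exact (mul_le_of_le_one_right (sq_nonneg _) (bpe8_sq _)).trans
          ((hs _).2.1.trans (le_mul_of_one_le_right hD (by linarith)))
      · rw [(hs _).2.2.2 (by linarith [not_le.1 h])]
        simp
    have h3 : Real.smoothTransition (R + 1 - U.l2 y) ^ 2 * s (2 - 2 * H.t H.a y / H.τ) ^ 2 * B' ≤
        if y ∈ H.O ∧ H.τ ≤ 2 * H.t H.a y then D * (1 + B') else 0 := by
      split_ifs with h
      · exact mul_le_mul ((mul_le_of_le_one_left (sq_nonneg _) (bpe8_sq _)).trans (hs _).2.1)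
          (by linarith) hB0 hD
      · have h4 : 2 * H.t H.a y / H.τ < 1 := (div_lt_one hτ).2 (not_le.1 fun h5 => h ⟨hO, h5⟩)
        rw [(hs _).2.2.2 (by linarith)]
        simp
    rw [indicator_of_mem hO, hc₀]
    refine (le_of_eq (mul_right_comm _ _ _)).trans ?_
    rw [mul_assoc 2]
    refine (mul_le_mul (mul_le_mul_of_nonneg_left h1 zero_le_two) (add_le_add h2 h3)
      (by positivity) (by positivity)).trans (le_of_eq ?_)
    split_ifs <;> ring
  · have t0 : 0 ≤ U.th i z v := U.G_lev i z hz.1 hz.2 v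
    rcases H.ind f1 hz with ⟨hO, hev, he⟩ | ⟨hO, he⟩
    swap
    · have e1 : db (fun y => H.sR e R (A.p i y)) z = 0 :=
        (db_congr he).eq_of_nhds.trans (db_const 0)
      rw [e1, indicator_of_notMem hO]
      simp
    obtain ⟨a1, a2, a3⟩ := loc i z hz hO hev
    have d1 := a1.differentiableAt (by simp)
    have d2 := a2.differentiableAt (by simp)
    have r1 : HasDerivAt (fun u => Real.smoothTransition (R + 1 - u))
        (s (R + 1 - U.l2 (A.p i z)) * -1) (U.l2 (A.p i z)) :=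
      (hs _).1.comp _ ((hasDerivAt_id _).const_sub _)
    have r2 : HasDerivAt (fun u => Real.smoothTransition (2 - 2 * u / H.τ))
        (s (2 - 2 * H.t H.a (A.p i z) / H.τ) * -(2 * 1 / H.τ)) (H.t H.a (A.p i z)) :=
      (hs _).1.comp _ ((((hasDerivAt_id _).const_mul 2).div_const _).const_sub _)
    have g1 := r1.differentiableAt.comp z d1
    have g2 := r2.differentiableAt.comp z d2
    have e1 : db (fun y => H.sR e R (A.p i y)) z = _ := (db_congr he).eq_of_nhds.trans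
      (db_mul (ablev_red (g1.fun_mul g2)) (a3.self_of_nhds.restrictScalars ℝ))
    have e2 := bpe8_mul (f := fun y => Real.smoothTransition (R + 1 - U.l2 (A.p i y)))
      (g := fun y => Real.smoothTransition (2 - 2 * H.t H.a (A.p i y) / H.τ)) g1 g2
    have e3 := dr_chain (f := fun y => U.l2 (A.p i y)) r1 d1
    have e4 := dr_chain (f := fun y => H.t H.a (A.p i y)) r2 d2
    rw [e3, e4] at e2
    obtain ⟨k1, k2, k3⟩ := (H.t_calc H.a hz.1 hO).2 v
    rw [e1, db_hol a3.self_of_nhds, smul_zero, add_zero, star_smul, star_db, e2,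
      indicator_of_mem hO, hc₀]
    simp only [smul_smul, dotProduct_smul, dotProduct_add, smul_eq_mul,
      ← Complex.ofReal_mul]
    generalize v ⬝ᵥ dr (fun y => U.l2 (A.p i y)) z = P at *
    generalize v ⬝ᵥ dr (fun y => H.t H.a (A.p i y)) z = Q at *
    have k4 : s (2 - 2 * H.t H.a (A.p i z) / H.τ) ^ 2 * ((2 / H.τ) ^ 2 * ‖Q‖ ^ 2) ≤
        s (2 - 2 * H.t H.a (A.p i z) / H.τ) ^ 2 * (B' * U.th i z v) := by
      rcases lt_or_ge (2 - 2 * H.t H.a (A.p i z) / H.τ) 0 with h | h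
      · rw [(hs _).2.2.1 h]
        simp
      refine mul_le_mul_of_nonneg_left ?_ (sq_nonneg _)
      have h5 : H.t H.a (A.p i z) ≤ H.τ := by
        rw [sub_nonneg, div_le_iff₀ hτ] at h
        linarith
      have h6 := k1.trans (mul_le_mul h5 k3 k2 hτ.le)
      refine (mul_le_mul_of_nonneg_left h6 (sq_nonneg _)).trans (le_of_eq ?_)
      rw [hB']
      field_simp
      ring
    generalize s (2 - 2 * H.t H.a (A.p i z) / H.τ) = s₂ at *
    generalize s (R + 1 - U.l2 (A.p i z)) = s₁ at *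
    generalize Real.smoothTransition (2 - 2 * H.t H.a (A.p i z) / H.τ) = S₂ at *
    generalize Real.smoothTransition (R + 1 - U.l2 (A.p i z)) = S₁ at *
    rw [norm_mul, norm_star, mul_pow]
    generalize ‖H.w (A.p i z) ^ e‖ = w₀
    rw [mul_comm 2 (w₀ ^ 2), mul_assoc (w₀ ^ 2), mul_assoc (w₀ ^ 2)]
    refine mul_le_mul_of_nonneg_left ?_ (sq_nonneg w₀)
    have n1 := norm_add_le (((S₂ * (s₁ * -1) : ℝ) : ℂ) * P)
      (((S₁ * (s₂ * -(2 * 1 / H.τ)) : ℝ) : ℂ) * Q)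
    have n2 : ‖((S₂ * (s₁ * -1) : ℝ) : ℂ) * P‖ ^ 2 = s₁ ^ 2 * S₂ ^ 2 * ‖P‖ ^ 2 := by
      rw [norm_mul, Complex.norm_real, Real.norm_eq_abs, mul_pow, sq_abs]
      ring
    have n3 : ‖((S₁ * (s₂ * -(2 * 1 / H.τ)) : ℝ) : ℂ) * Q‖ ^ 2 =
        S₁ ^ 2 * (s₂ ^ 2 * ((2 / H.τ) ^ 2 * ‖Q‖ ^ 2)) := by
      rw [norm_mul, Complex.norm_real, Real.norm_eq_abs, mul_pow, sq_abs]
      ring
    have n4 := mul_le_mul_of_nonneg_left k4 (sq_nonneg S₁)
    have n5 : 0 ≤ s₁ ^ 2 * S₂ ^ 2 * U.th i z v := by positivity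
    have n6 : 0 ≤ S₁ ^ 2 * s₂ ^ 2 * B' * ‖P‖ ^ 2 := by positivity
    refine (pow_le_pow_left₀ (norm_nonneg _) n1 2).trans (add_sq_le.trans ?_)
    rw [n2, n3]
    linarith

end Pool.Agent.SB
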