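import Pool.Agent.P.MP_63735c_ag.SBE5
import Pool.Agent.P.MP_63735c_ag.SBE7
import Pool.Agent.P.MP_63735c_ag.SBE8
import Pool.Agent.P.MP_63735c_ag.BPE9

/-! Holomorphic functions close to the frame in the singular weight. -/

open scoped ComplexOrder ContDiff Matrix Topology ENNReal
open Set Metric MeasureTheory Filter

namespace Pool.Agent.SB

open Pool.Agent.SPF Pool.Agent.CL Pool.Agent.NL Pool.Agent.CK Pool.Agent.AB Pool.Agent.SE
  Pool.Agent.BP Pool.Agent.CS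

variable {N : ℕ} {X : Type} [TopologicalSpace X] [MeasurableSpace X] {A : Atlas X N}
  {μ : Measure X} {L : Line A} {U : Up A μ L} {x : Filter X}

theorem sbe9_lam (H : UG U x) {ε : ℝ} (hε : 0 < ε) (hτ : ε ≤ H.τ) (y : X) :
    Real.exp (-H.lam H.a ε y) ≤ H.τ / ε ∧
      (H.τ ≤ 2 * H.t H.a y → Real.exp (-H.lam H.a ε y) ≤ 2) := by
  have hp := H.τ_pos
  have ht : 0 ≤ H.t H.a y := (sq_nonneg _).trans (norm_sq_le_nsq _)
  obtain ⟨h0, -, h1⟩ := H.lam_bd H.a ε y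
  rcases h0.lt_or_eq with h | h
  · have h2 : Real.exp (-H.lam H.a ε y) ≤ H.τ / (H.t H.a y + ε) := by
      have h3 : 0 < (H.t H.a y + ε) / H.τ := by positivity
      calc Real.exp (-H.lam H.a ε y) ≤ Real.exp (-Real.log ((H.t H.a y + ε) / H.τ)) :=
            Real.exp_le_exp.2 (neg_le_neg (h1 h).2)
        _ = H.τ / (H.t H.a y + ε) := by rw [Real.exp_neg, Real.exp_log h3, inv_div]
    refine ⟨h2.trans (div_le_div_of_nonneg_left hp.le hε (by linarith)), fun h4 => h2.trans ?_⟩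
    rw [div_le_iff₀ (by positivity)]
    linarith
  · rw [h, neg_zero, Real.exp_zero]
    exact ⟨(one_le_div hε).2 hτ, fun _ => one_le_two⟩

theorem UG.l2_out [T2Space X] [BorelSpace X] (H : UG U x) (hμ : IsVolume A μ)
    {K : Form11 A} (hK : ∀ i, ∀ z ∈ (A.C i).W, (K.h i z).PosDef) (hb : Bd11 A K)
    (γ : ℕ) :
    ∃ (e : ℕ) (C₀ : ℝ), 1 ≤ e ∧ 0 < C₀ ∧ ∀ ε, 0 < ε → ε ≤ H.τ → ∀ R₀, ∃ R, R₀ ≤ R ∧
      ∃ g : X → ℂ, U.D.Hol g ∧ ∀ i, ∫⁻ z in U.D.W i, ENNReal.ofReal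
        (Real.exp (-((H.d * e : ℕ) * U.φ (A.p i z) + γ * H.lam H.a ε (A.p i z))) *
          ‖((A.C i).σ z).det‖ * ‖g (A.p i z) - H.sR e R (A.p i z)‖ ^ 2) ≤ ENNReal.ofReal C₀ := by
  classical
  obtain ⟨k, e, he, hΦ⟩ := H.Φ_lev γ
  obtain ⟨B, hB, hsR⟩ := H.sR_db e
  obtain ⟨K', h1, h2, h3⟩ := sbe5_cut U hK hb
  set f : X → ℝ≥0∞ := fun y => ENNReal.ofReal (Real.exp (-(k * U.G y))) with hf
  have hJ : ∫⁻ y in U.W, f y ∂μ ≠ ⊤ := (U.G_int k).lintegral_lt_top.ne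
  have hfm : AEMeasurable f (μ.restrict U.W) :=
    (U.G_int k).aestronglyMeasurable.aemeasurable.ennreal_ofReal
  set J : ℝ := (∫⁻ y in U.W, f y ∂μ).toReal with hJd
  have hJ0 : 0 ≤ J := ENNReal.toReal_nonneg
  refine ⟨e, Real.exp 1 * (1 + B * 2 ^ γ * J), he, by positivity, fun ε hε hτ R₀ => ?_⟩
  have hp := H.τ_pos
  obtain ⟨R, hR, S, hSm, hS, hS1⟩ := bpe9_tail U hJ
    (a := ENNReal.ofReal (B * (H.τ / ε) ^ γ)) ENNReal.ofReal_ne_top R₀
  obtain ⟨hs, c, hc, hc0, hcB, hsc⟩ := hsR R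
  obtain ⟨hΦs, hΦl⟩ := hΦ ε hε
  have hth : ∀ i, ∀ z ∈ U.D.W i, ∀ v, 0 ≤ U.th i z v := fun i z hz v => U.G_lev i z hz.1 hz.2 v
  obtain ⟨g, hg, hgl⟩ := l2_gen hμ h1 h2 h3 hΦs
    (fun i z hz v => (add_nonneg (hth i z hz v) (sq_nonneg _)).trans (hΦl i z hz v)) hs hc hc0
    (fun i z hz v => (hsc i z hz v).trans
      (mul_le_mul_of_nonneg_left (hΦl i z hz v) (hc0 _)))
  have hl : ∀ y ∈ U.W, 0 ≤ (1 + U.l y)⁻¹ ∧ (1 + U.l y)⁻¹ ≤ 1 := fun y hy => by
    have h := U.l_calc.2.1 y hy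
    exact ⟨by positivity, inv_le_one_of_one_le₀ (by linarith)⟩
  have hpt : ∀ y ∈ U.W, ENNReal.ofReal (c y * Real.exp (-H.Φ (H.d * e) k γ ε y)) ≤
      S.indicator (fun y => ENNReal.ofReal (B * (H.τ / ε) ^ γ) * f y) y +
        ENNReal.ofReal (B * 2 ^ γ) * f y := by
    intro y hy
    obtain ⟨ha, hb⟩ := sbe9_lam H hε hτ y
    set E := Real.exp (-(k * U.G y)) with hE
    set P := Real.exp (-H.lam H.a ε y) with hP
    have hE0 : 0 ≤ E := (Real.exp_pos _).le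
    have hP0 : 0 ≤ P := (Real.exp_pos _).le
    have h4 : Real.exp (-H.Φ (H.d * e) k γ ε y) ≤
        Real.exp (-((H.d * e : ℕ) * U.φ y)) * (P ^ γ * E) := by
      rw [hP, hE, ← Real.exp_nat_mul, ← Real.exp_add, ← Real.exp_add]
      refine Real.exp_le_exp.2 ?_
      have := (hl y hy).1
      unfold UG.Φ
      linarith
    have h5 : c y * Real.exp (-H.Φ (H.d * e) k γ ε y) ≤
        ((if R ≤ U.l2 y then B else 0) +
          (if y ∈ H.O ∧ H.τ ≤ 2 * H.t H.a y then B else 0)) * (P ^ γ * E) := by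
      refine (mul_le_mul_of_nonneg_left h4 (hc0 y)).trans ?_
      rw [← mul_assoc]
      exact mul_le_mul_of_nonneg_right (hcB y) (by positivity)
    refine (ENNReal.ofReal_le_ofReal h5).trans ?_
    rw [add_mul]
    refine ENNReal.ofReal_add_le.trans (add_le_add ?_ ?_)
    · split_ifs with h
      · rw [indicator_of_mem (hS y hy h), hf, ← ENNReal.ofReal_mul (by positivity), mul_assoc]
        refine ENNReal.ofReal_le_ofReal (mul_le_mul_of_nonneg_left ?_ hB)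
        exact mul_le_mul_of_nonneg_right (pow_le_pow_left₀ hP0 ha γ) hE0
      · simp
    · split_ifs with h
      · rw [hf, ← ENNReal.ofReal_mul (by positivity), mul_assoc]
        refine ENNReal.ofReal_le_ofReal (mul_le_mul_of_nonneg_left ?_ hB)
        exact mul_le_mul_of_nonneg_right (pow_le_pow_left₀ hP0 (hb h.2) γ) hE0
      · simp
  have hint : ∫⁻ y in U.W, ENNReal.ofReal (c y * Real.exp (-H.Φ (H.d * e) k γ ε y)) ∂μ ≤
      ENNReal.ofReal (1 + B * 2 ^ γ * J) := by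
    refine (setLIntegral_mono' U.hW.measurableSet hpt).trans ?_
    rw [lintegral_add_right' _ (hfm.const_mul _), lintegral_indicator hSm,
      lintegral_const_mul' _ _ ENNReal.ofReal_ne_top,
      lintegral_const_mul' _ _ ENNReal.ofReal_ne_top,
      ENNReal.ofReal_add zero_le_one (by positivity), ENNReal.ofReal_one,
      ENNReal.ofReal_mul (q := J) (by positivity), hJd, ENNReal.ofReal_toReal hJ]
    exact add_le_add hS1 le_rfl
  refine ⟨R, hR, g, hg, fun i => ?_⟩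
  rw [ENNReal.ofReal_mul (Real.exp_pos _).le]
  refine le_trans ?_ (mul_le_mul_right ((hgl i).trans hint) _)
  rw [← lintegral_const_mul' _ _ ENNReal.ofReal_ne_top]
  refine setLIntegral_mono' (U.D.isOpen i).measurableSet fun z hz => ?_
  rw [← ENNReal.ofReal_mul (Real.exp_pos _).le, ← mul_assoc, ← mul_assoc, ← Real.exp_add]
  refine ENNReal.ofReal_le_ofReal (mul_le_mul_of_nonneg_right
    (mul_le_mul_of_nonneg_right (Real.exp_le_exp.2 ?_) (norm_nonneg _)) (sq_nonneg _))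
  have h6 := (hl _ hz.2).2
  have h7 : (k : ℝ) * U.G (A.p i z) ≤ 0 :=
    mul_nonpos_of_nonneg_of_nonpos (Nat.cast_nonneg _) (U.G_le _ hz.2)
  unfold UG.Φ
  linarith

end Pool.Agent.SB
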