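import Pool.Agent.P.MP_63735c_ag.SBE3
import Pool.Agent.P.MP_63735c_ag.SBE4
import Pool.Agent.P.MP_63735c_ag.SBE9
import Pool.Agent.P.MP_63735c_ag.SBEA
import Pool.Agent.P.MP_63735c_ag.BPEB

/-! A section whose norm is bounded below near `z₀`. -/

open scoped ComplexOrder ContDiff Matrix Topology ENNReal
open Set Metric MeasureTheory Filter

namespace Pool.Agent.SB

open Pool.Agent.SPF Pool.Agent.NL Pool.Agent.CK Pool.Agent.AB Pool.Agent.SE Pool.Agent.BP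
  Pool.Agent.CS

variable {N : ℕ} {X : Type} [TopologicalSpace X] [MeasurableSpace X] {A : Atlas X N}
  {μ : Measure X} {L : Line A} {U : Up A μ L} {x : Filter X}

theorem UG.exists_sec [T2Space X] [BorelSpace X] (H : UG U x) (hμ : IsVolume A μ) {K : Form11 A}
    (hK : ∀ i, ∀ z ∈ (A.C i).W, (K.h i z).PosDef) (hKb : Bd11 A K) (hSb : SecBd L) {i : A.ι}
    {z₀ : E N} {r : ℝ} (hP : EP L i z₀ r) (hx : x ≤ map (A.p i) (𝓝[(A.C i).W] z₀)) :
    ∃ (j : ℕ) (S : A.ι → E N → ℂ) (c ε : ℝ), 1 ≤ j ∧ L.IsSection j S ∧ 0 < c ∧ 0 < ε ∧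
      ∀ z ∈ ball z₀ ε ∩ (A.C i).W, c ≤ ‖S i z‖ ^ 2 * Real.exp (-(j * L.ψ i z)) := by
  by_contra hcon
  have ball_in : ∀ i, ∀ z ∈ (A.C i).W, ∃ r > 0, closedBall z r ⊆ (A.C i).W := fun i z hz =>
    nhds_basis_closedBall.mem_iff.1 ((A.C i).isOpen.mem_nhds hz)
  have hr := hP.pos
  have hr' : r / 128 < r := by linarith
  obtain ⟨hnull, hext⟩ := hP.ext U hμ hSb
  obtain ⟨D, hD, hne, hDe⟩ := hP.det_ne (show 0 < r / 128 by positivity) hr'.le
  obtain ⟨k, C, r₁, hC, hr₁, h3⟩ := H.sch_pt hP hx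
  obtain ⟨n, c, r₂, hc, hr₂, h4⟩ := hP.vol_big U hμ k
  obtain ⟨e, C₀, he, hC₀, h9⟩ := H.l2_out hμ hK hKb (n + 1)
  have hCe : 0 ≤ H.C ^ e := pow_nonneg H.C_pos.le e
  obtain ⟨B, hB, hA⟩ := hP.loc_l2 U (H.d * e) hC₀.le hCe hr'
  obtain ⟨a, r₀, ha, hr₀, hL⟩ := sbeh_div hD hne
  obtain ⟨B₁, hB₁, hb⟩ := hP.bds hr'
  have hτ := H.τ_pos
  have hce : 0 < H.c ^ e := pow_pos H.c_pos e
  set κ := (Real.exp (-1) * H.τ / (C + 1)) ^ (n + 1) * (H.c ^ e / 4) with hκ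
  have hκ0 : 0 < κ := by positivity
  have small : ∀ {f : ℝ → ℝ} {t : ℝ}, Continuous f → f 0 < t → ∀ᶠ ρ in 𝓝[>] 0, f ρ < t :=
    fun hf ht => nhdsWithin_le_nhds (hf.continuousAt.eventually_lt continuousAt_const ht)
  obtain ⟨ρ, ⟨q0, q1, q2, q3, q4, q5, q6, q7⟩⟩ := (eventually_mem_nhdsWithin.and
    ((small continuous_id hr₁).and ((small continuous_id hr₂).and ((small continuous_id hτ).and
    ((small (f := fun ρ => 2 * (C * ρ)) (by fun_prop) (by simpa using hτ)).and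
    ((small (f := fun ρ => ρ ^ 2) (t := min r₀ (r / 128)) (by fun_prop)
      (by simpa using ⟨hr₀, hr⟩)).and
    ((small (f := fun ρ => (a * B * ρ ^ 2) ^ 2 * Real.exp ((H.d * e : ℕ) * (U.m * B₁)))
      (t := H.c ^ e / 4) (by fun_prop) (by simpa using hce)).and
    (small (f := fun ρ => C₀ * ρ) (t := κ * c) (by fun_prop)
      (by simpa using mul_pos hκ0 hc))))))))).exists
  have hρ : 0 < ρ := q0
  obtain ⟨S, b, hS, hv, hs⟩ := h4 ρ hρ q2
  obtain ⟨R₀, hR₀⟩ := U.l2_calc.2.2.2.1 b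
  obtain ⟨R, hR, g, hg, hi⟩ := h9 ρ hρ q3.le R₀
  have hq0 : ∀ y, ((n + 1 : ℕ) : ℝ) * H.lam H.a ρ y ≤ 0 := fun y =>
    mul_nonpos_of_nonneg_of_nonpos (Nat.cast_nonneg _) (H.lam_bd H.a ρ y).1
  obtain ⟨T, hT, hTe⟩ := U.ext_sec hμ (sbea_ext U hμ) hg (H.d * e) fun i' z hz' => by
    obtain ⟨r', hr', hW'⟩ := ball_in i' z hz'
    obtain ⟨B', -, hA'⟩ := U.loc_l2 (H.d * e) hC₀.le hCe hW'
    exact ⟨r', hr', ball_subset_closedBall.trans hW', ((hA' g _ _ hq0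
      (fun y => (H.sR_bd e R y).1) (hi i')).trans_lt ENNReal.ofReal_lt_top).ne⟩
  obtain ⟨f, hf, hfe⟩ := hext _ T hT
  have hT0 : f z₀ = 0 := by
    by_contra h
    have hp : 0 < ‖f z₀‖ := norm_pos_iff.2 h
    have hn : ball z₀ (r / 128) ∈ 𝓝 z₀ := ball_mem_nhds _ (by positivity)
    obtain ⟨ε, hε, h5⟩ := Metric.mem_nhds_iff.1 (inter_mem hn (continuousAt_const.eventually_lt
      (hf.differentiableAt hn).continuousAt.norm (half_lt_self hp)))
    refine hcon ⟨U.m * (H.d * e), T, (‖f z₀‖ / 2) ^ 2 * Real.exp (-((U.m * (H.d * e) : ℕ) * B₁)), ε,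
      Nat.mul_pos U.m_pos (Nat.mul_pos H.d_pos he), hT, by positivity, hε, fun z hz => ?_⟩
    obtain ⟨h6, h7⟩ := h5 hz.1
    rw [← hfe ⟨h6, hz.2⟩]
    exact mul_le_mul (pow_le_pow_left₀ (by positivity) (le_of_lt h7) 2)
      (Real.exp_le_exp.2 (neg_le_neg (mul_le_mul_of_nonneg_left
        (abs_le.1 (hb z (ball_subset_closedBall h6) hz.2).2.1).2 (Nat.cast_nonneg _))))
      (Real.exp_nonneg _) (sq_nonneg _)
  have hae : ball z₀ (r / 128) =ᵐ[volume] (ball z₀ (r / 128) ∩ U.D.W i : Set (E N)) :=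
    ae_eq_set.2 ⟨measure_mono_null (fun y hy => by exact ⟨hy.1, fun h => hy.2 ⟨hy.1, h⟩⟩) hnull,
      measure_mono_null (fun y hy => (hy.2 hy.1.1).elim) measure_empty⟩
  have hlip := hL f B hB.le hf (by
    rw [setLIntegral_congr hae, setLIntegral_congr_fun
      (measurableSet_ball.inter (U.D.isOpen i).measurableSet)
      (g := fun y => ENNReal.ofReal (‖g (A.p i y) * U.s i y ^ (H.d * e)‖ ^ 2 *
        ‖((A.C i).σ y).det‖))
      fun y hy => by simp only [hfe ⟨hy.1, hy.2.1⟩, hDe y ⟨hy.1, hy.2.1⟩, hTe i y hy.2]]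
    exact hA g _ _ hq0 (fun y => (H.sR_bd e R y).1) (hi i)) hT0
  have low : ∀ z ∈ S, κ / ρ ^ (n + 1) * ‖((A.C i).σ z).det‖ ≤
      Real.exp (-((H.d * e : ℕ) * U.φ (A.p i z) + (n + 1 : ℕ) * H.lam H.a ρ (A.p i z))) *
        ‖((A.C i).σ z).det‖ * ‖g (A.p i z) - H.sR e R (A.p i z)‖ ^ 2 := by
    intro z hzS
    obtain ⟨s1, s2, s3, s4⟩ := hs z hzS
    obtain ⟨o1, o2⟩ := h3 ρ hρ q1 z s1 s2 s3
    have hz1 : z ∈ ball z₀ r₀ := ball_subset_ball (q5.le.trans (min_le_left _ _)) s1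
    have hz2 : z ∈ ball z₀ (r / 128) := ball_subset_ball (q5.le.trans (min_le_right _ _)) s1
    obtain ⟨-, b2, -⟩ := hb z (ball_subset_closedBall hz2) s2.1
    have w1 := (H.sR_bd e R (A.p i z)).2 o1 (by linarith) ((hR₀ _ s2.2 s4).trans hR)
    have w2 : ‖g (A.p i z)‖ ^ 2 * Real.exp (-((H.d * e : ℕ) * U.φ (A.p i z))) ≤ H.c ^ e / 4 := by
      have e1 : ‖g (A.p i z)‖ ^ 2 * Real.exp (-((H.d * e : ℕ) * U.φ (A.p i z))) =
          ‖f z‖ ^ 2 * Real.exp ((H.d * e : ℕ) * (-(U.m * L.ψ i z))) := by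
        rw [hfe ⟨hz2, s2.1⟩, hTe i z s2, ← mul_neg, Real.exp_nat_mul, Real.exp_nat_mul,
          U.φ_eq i z s2.1 s2.2, norm_mul, norm_pow]
        ring
      rw [e1]
      refine le_trans (mul_le_mul (pow_le_pow_left₀ (norm_nonneg _) ((hlip z hz1).trans
        (mul_le_mul_of_nonneg_left (mem_ball_iff_norm.1 s1).le (by positivity))) 2)
        (Real.exp_le_exp.2 (mul_le_mul_of_nonneg_left ?_ (Nat.cast_nonneg _)))
        (Real.exp_nonneg _) (sq_nonneg _)) q6.le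
      rw [← mul_neg]
      exact mul_le_mul_of_nonneg_left ((neg_le_abs _).trans b2) (Nat.cast_nonneg _)
    have w3 := bpeb_sq _ _ (Real.exp_nonneg _) w1 w2
    have ht : 0 ≤ H.t H.a (A.p i z) := (sq_nonneg _).trans (norm_sq_le_nsq _)
    have w4 : Real.exp (-1) * H.τ / (C + 1) / ρ ≤ Real.exp (-H.lam H.a ρ (A.p i z)) := by
      have l1 := (H.lam_bd H.a ρ (A.p i z)).2.1 o1
      have l2 : Real.log ((H.t H.a (A.p i z) + ρ) / H.τ) ≤ Real.log ((C + 1) * ρ / H.τ) :=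
        Real.log_le_log (by positivity) (div_le_div_of_nonneg_right (by linarith) hτ.le)
      calc _ = Real.exp (-1 - Real.log ((C + 1) * ρ / H.τ)) := by
            rw [Real.exp_sub, Real.exp_log (by positivity)]
            field_simp
        _ ≤ _ := Real.exp_le_exp.2 (by linarith)
    calc _ = (Real.exp (-1) * H.τ / (C + 1) / ρ) ^ (n + 1) * ‖((A.C i).σ z).det‖ *
          (H.c ^ e / 4) := by
          rw [hκ, div_pow _ ρ]
          ring
      _ ≤ Real.exp (-H.lam H.a ρ (A.p i z)) ^ (n + 1) * ‖((A.C i).σ z).det‖ *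
          (‖g (A.p i z) - H.sR e R (A.p i z)‖ ^ 2 *
            Real.exp (-((H.d * e : ℕ) * U.φ (A.p i z)))) := by gcongr
      _ = _ := by
          rw [← Real.exp_nat_mul, neg_add, Real.exp_add, mul_neg]
          ring
  have fin : ENNReal.ofReal (κ / ρ ^ (n + 1)) * ENNReal.ofReal (c * ρ ^ n) ≤
      ENNReal.ofReal C₀ := by
    refine le_trans ?_ ((lintegral_mono_set fun z hz => (hs z hz).2.1).trans (hi i))
    refine le_trans ?_ (setLIntegral_mono' hS fun z hz => ENNReal.ofReal_le_ofReal (low z hz))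
    simp only [ENNReal.ofReal_mul (show 0 ≤ κ / ρ ^ (n + 1) by positivity)]
    rw [lintegral_const_mul' _ _ ENNReal.ofReal_ne_top]
    exact mul_le_mul_right hv _
  rw [← ENNReal.ofReal_mul (by positivity), ENNReal.ofReal_le_ofReal_iff hC₀.le] at fin
  have e2 : κ / ρ ^ (n + 1) * (c * ρ ^ n) = κ * c / ρ := by
    rw [pow_succ]
    field_simp
  rw [e2, div_le_iff₀ hρ] at fin
  exact absurd q7 (not_lt.2 fin)

end Pool.Agent.SB
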