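import Pool.Agent.P.MP_63735c_ag.SECv

/-! The Friedrichs commutator of a first order operator. -/

open scoped ComplexOrder ContDiff Matrix Topology ENNReal InnerProductSpace
open Set Metric MeasureTheory Filter

namespace Pool.Agent.SE

open Pool.Agent.SPF Pool.Agent.AB

variable {N : ℕ} {ρ : Type} [Fintype ρ] {W C : Set (E N)} {a b : Fin N → E N → Matrix ρ ρ ℂ}
  {c : E N → Matrix ρ ρ ℂ}

section
variable {F : Type} [NormedAddCommGroup F] {A : ℝ} {T T' : (E N → ℝ) → (E N → ρ → ℂ) → E N → F}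

/-- Operators with a bound that is uniform in the kernel. -/
def secmOB (A : ℝ) (T : (E N → ℝ) → (E N → ρ → ℂ) → E N → F) : Prop :=
  ∃ B : ℝ, 0 ≤ B ∧ ∀ (d : ℝ) (k : E N → ℝ) (f : E N → ρ → ℂ) (C : Set (E N)), Ker d A k →
    Tst univ f → IsCompact C →
      Continuous (T k f) ∧ ∫ x in C, ‖T k f x‖ ^ 2 ≤ B * ∫ x, ‖f x‖ ^ 2

theorem secm_int {u : E N → F} (hC : IsCompact C) (hu : ContinuousOn u C) :
    IntegrableOn (fun x => ‖u x‖ ^ 2) C volume :=
  (hu.norm.pow 2).integrableOn_compact hC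

theorem secm_add {u v : E N → F} (hC : IsCompact C) (hu : Continuous u) (hv : Continuous v) :
    ∫ x in C, ‖u x + v x‖ ^ 2 ≤ 2 * (∫ x in C, ‖u x‖ ^ 2) + 2 * ∫ x in C, ‖v x‖ ^ 2 := by
  have h1 := (secm_int hC hu.continuousOn).const_mul 2
  have h2 := (secm_int hC hv.continuousOn).const_mul 2
  rw [← integral_const_mul, ← integral_const_mul, ← integral_add h1 h2]
  refine integral_mono (secm_int hC (hu.add hv).continuousOn) (h1.add h2) fun x => ?_
  have h3 := pow_le_pow_left₀ (norm_nonneg _) (norm_add_le (u x) (v x)) 2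
  have h4 := sq_nonneg (‖u x‖ - ‖v x‖)
  show ‖u x + v x‖ ^ 2 ≤ 2 * ‖u x‖ ^ 2 + 2 * ‖v x‖ ^ 2
  nlinarith

theorem secm_supp {F' : Type} [NormedAddCommGroup F'] {u : E N → F} {v : E N → F'} {M : ℝ}
    (hC : IsCompact C) (hu : Continuous u) (hv : ContinuousOn v C) (h0 : ∀ x ∉ C, u x = 0)
    (h : ∀ x ∈ C, ‖u x‖ ≤ M * ‖v x‖) : ∫ x, ‖u x‖ ^ 2 ≤ M ^ 2 * ∫ x in C, ‖v x‖ ^ 2 := by
  rw [← setIntegral_eq_integral_of_forall_compl_eq_zero (s := C) (fun x hx => by simp [h0 x hx]),
    ← integral_const_mul]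
  refine setIntegral_mono_on (secm_int hC hu.continuousOn) ((secm_int hC hv).const_mul _)
    hC.measurableSet fun x hx => ?_
  rw [← mul_pow]
  exact pow_le_pow_left₀ (norm_nonneg _) (h x hx) 2

theorem secmOB.add (h : secmOB A T) (h' : secmOB A T') :
    secmOB A fun k f x => T k f x + T' k f x := by
  obtain ⟨B, hB, h⟩ := h
  obtain ⟨B', hB', h'⟩ := h'
  refine ⟨2 * B + 2 * B', by positivity, fun d k f C hk hf hC => ?_⟩
  obtain ⟨c1, b1⟩ := h d k f C hk hf hC
  obtain ⟨c2, b2⟩ := h' d k f C hk hf hC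
  exact ⟨c1.add c2, (secm_add hC c1 c2).trans (by linarith)⟩

theorem secmOB.neg (h : secmOB A T) : secmOB A fun k f x => -T k f x := by
  obtain ⟨B, hB, h⟩ := h
  refine ⟨B, hB, fun d k f C hk hf hC => ⟨(h d k f C hk hf hC).1.neg, ?_⟩⟩
  simpa only [norm_neg] using (h d k f C hk hf hC).2

theorem secmOB.sum {κ : Type} (s : Finset κ) {S : κ → (E N → ℝ) → (E N → ρ → ℂ) → E N → F}
    (h : ∀ i, secmOB A (S i)) : secmOB A fun k f x => ∑ i ∈ s, S i k f x := by
  classical
  induction s using Finset.induction_on with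
  | empty => exact ⟨0, le_rfl, fun _ _ _ _ _ _ _ => ⟨continuous_const, by simp⟩⟩
  | insert i s hi ih => simpa only [Finset.sum_insert hi] using (h i).add ih

theorem secmOB.congr (h : secmOB A T)
    (e : ∀ d k f, Ker d A k → Tst univ f → ∀ x, T' k f x = T k f x) : secmOB A T' := by
  obtain ⟨B, hB, h⟩ := h
  refine ⟨B, hB, fun d k f C hk hf hC => ?_⟩
  rw [show T' k f = T k f from funext (e d k f hk hf)]
  exact h d k f C hk hf hC

theorem secmOB.pi {T : (E N → ℝ) → (E N → ρ → ℂ) → E N → ρ → ℂ}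
    (h : ∀ r, secmOB A fun k f x => T k f x r) : secmOB A T := by
  choose B hB h using h
  refine ⟨∑ r, B r, Finset.sum_nonneg fun r _ => hB r, fun d k f C hk hf hC => ?_⟩
  have h1 := fun r => (h r d k f C hk hf hC).1
  have h2 := fun r (_ : r ∈ Finset.univ) => secm_int hC (h1 r).continuousOn
  refine ⟨continuous_pi h1, ?_⟩
  rw [Finset.sum_mul]
  refine le_trans ?_ (Finset.sum_le_sum fun r _ => (h r d k f C hk hf hC).2)
  rw [← integral_finsetSum _ h2]
  exact integral_mono (secm_int hC (continuous_pi h1).continuousOn) (integrable_finsetSum _ h2)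
    fun x => norm_sq_le_sum _

theorem secm_comp {S : (E N → ℝ) → (E N → ℂ) → E N → F} {B : ℝ} (hB : 0 ≤ B) (s : ρ)
    (h : ∀ (d : ℝ) (k : E N → ℝ) (f : E N → ℂ) (C : Set (E N)), Ker d A k → Tst univ f →
      IsCompact C → Continuous (S k f) ∧ ∫ x in C, ‖S k f x‖ ^ 2 ≤ B * ∫ x, ‖f x‖ ^ 2) :
    secmOB A fun k (f : E N → ρ → ℂ) => S k fun y => f y s := by
  refine ⟨B, hB, fun d k f C hk hf hC => ?_⟩
  obtain ⟨h1, h2⟩ := h d k _ C hk (tst_comp hf s).1 hC
  have h3 : Integrable fun x => ‖f x‖ ^ 2 :=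
    (integrableOn_iff_integrable_of_support_subset fun x hx => subset_tsupport f fun e =>
      hx (by simp [e])).1 (secm_int hf.cpt hf.smooth.continuous.continuousOn)
  have h4 : ∫ x, ‖f x s‖ ^ 2 ≤ ∫ x, ‖f x‖ ^ 2 :=
    integral_mono_of_nonneg (Eventually.of_forall fun x => sq_nonneg _) h3
      (Eventually.of_forall fun x => pow_le_pow_left₀ (norm_nonneg _) (norm_le_pi_norm (f x) s) 2)
  exact ⟨h1, h2.trans (mul_le_mul_of_nonneg_left h4 hB)⟩

end

theorem secm_ob (ha : ∀ l r s, Tst univ fun z => a l z r s)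
    (hb : ∀ l r s, Tst univ fun z => b l z r s) (hc : ∀ r s, Tst univ fun z => c z r s) (A : ℝ) :
    secmOB A fun k f x => op a b c (cvv k f) x - cvv k (op a b c f) x := by
  have ct : ∀ {g : E N → ℂ}, Tst univ g → Continuous g := fun h => h.smooth.continuous
  have h1 : ∀ {g : E N → ℂ}, Tst univ g → ∀ (l : Fin N) (s : ρ),
      secmOB A (fun k (f : E N → ρ → ℂ) x => g x * dz l (cv k fun y => f y s) x -
        cv k (fun y => g y * dz l (fun y => f y s) y) x) ∧
      secmOB A (fun k (f : E N → ρ → ℂ) x => g x * dzb l (cv k fun y => f y s) x -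
        cv k (fun y => g y * dzb l (fun y => f y s) y) x) := fun {g} hg l s => by
    obtain ⟨B, hB, h⟩ := cm_nd hg A
    refine ⟨secm_comp (S := fun k f x => g x * dz l (cv k f) x -
        cv k (fun y => g y * dz l f y) x) hB s fun d k f C hk hf hC => ⟨?_, (h d k f l C hk hf hC).1⟩,
      secm_comp (S := fun k f x => g x * dzb l (cv k f) x -
        cv k (fun y => g y * dzb l f y) x) hB s fun d k f C hk hf hC =>
          ⟨?_, (h d k f l C hk hf hC).2⟩⟩
    · exact ((ct hg).mul (contDiffOn_univ.1 (dz_smooth isOpen_univ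
        (abmol2_cv hk hf).contDiffOn l).1).continuous).sub
        (abmol2_cv hk (abmol2_mul hg (hf.dz_tst l).1)).continuous
    · exact ((ct hg).mul (contDiffOn_univ.1 (dz_smooth isOpen_univ
        (abmol2_cv hk hf).contDiffOn l).2).continuous).sub
        (abmol2_cv hk (abmol2_mul hg (hf.dz_tst l).2)).continuous
  have h2 : ∀ {g : E N → ℂ}, Tst univ g → ∀ s : ρ,
      secmOB A (fun k (f : E N → ρ → ℂ) x => g x * cv k (fun y => f y s) x +
        -cv k (fun y => g y * f y s) x) := fun {g} hg s => by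
    obtain ⟨B, hB, h⟩ := cm_zero hg
    exact (secm_comp (S := fun k f x => g x * cv k f x) hB s fun d k f C hk hf hC =>
      ⟨(ct hg).mul (abmol2_cv hk hf).continuous, (h d A k f C hk hf hC).1⟩).add
      (secm_comp (S := fun k f x => cv k (fun y => g y * f y) x) hB s fun d k f C hk hf hC =>
        ⟨(abmol2_cv hk (abmol2_mul hg hf)).continuous, (h d A k f C hk hf hC).2⟩).neg
  refine secmOB.pi fun r => ((secmOB.sum Finset.univ fun l =>
    (secmOB.sum Finset.univ fun s => (h1 (ha l r s) l s).1).add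
      (secmOB.sum Finset.univ fun s => (h1 (hb l r s) l s).2)).add
    (secmOB.sum Finset.univ fun s => h2 (hc r s) s)).congr fun d k f hk hf x => ?_
  have c1 := fun l s => (ct (ha l r s)).mul (ct ((tst_comp hf s).1.dz_tst l).1)
  have c2 := fun l s => (ct (hb l r s)).mul (ct ((tst_comp hf s).1.dz_tst l).2)
  have c3 := fun s => (ct (hc r s)).mul (ct (tst_comp hf s).1)
  have s1 := fun l => continuous_finsetSum Finset.univ fun s _ => c1 l s
  have s2 := fun l => continuous_finsetSum Finset.univ fun s _ => c2 l s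
  simp only [op, cvv, dzv, dbv, Matrix.mulVec, dotProduct, Pi.sub_apply, Pi.add_apply,
    Finset.sum_apply]
  erw [cv_add hk (continuous_finsetSum Finset.univ fun l _ => (s1 l).add (s2 l))
      (continuous_finsetSum Finset.univ fun s _ => c3 s),
    cv_sum _ hk fun l _ => (s1 l).add (s2 l), cv_sum _ hk fun s _ => c3 s,
    Finset.sum_congr rfl fun l _ => (cv_add hk (s1 l) (s2 l) x).trans
      (congrArg₂ (· + ·) (cv_sum _ hk (fun s _ => c1 l s) x) (cv_sum _ hk (fun s _ => c2 l s) x))]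
  simp only [Finset.sum_add_distrib, Finset.sum_sub_distrib, Finset.sum_neg_distrib, Pi.mul_def]
  ring

/-- The case of compactly supported coefficients. -/
theorem op_cm0 (ha : ∀ l r s, Tst univ fun z => a l z r s)
    (hb : ∀ l r s, Tst univ fun z => b l z r s) (hc : ∀ r s, Tst univ fun z => c z r s) (A : ℝ) :
    ∃ B : ℝ, 0 ≤ B ∧ ∀ (d : ℝ) (k : E N → ℝ) (f : E N → ρ → ℂ) (C : Set (E N)), Ker d A k →
      Tst univ f → IsCompact C →
        ∫ x in C, ‖op a b c (cvv k f) x - cvv k (op a b c f) x‖ ^ 2 ≤ B * ∫ x, ‖f x‖ ^ 2 := by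
  obtain ⟨B, hB, h⟩ := secm_ob ha hb hc A
  exact ⟨B, hB, fun d k f C hk hf hC => (h d k f C hk hf hC).2⟩

theorem op_cm {τ : E N → ℝ} (hW : IsOpen W) (ha : ∀ l, SmM W (a l)) (hb : ∀ l, SmM W (b l))
    (hc : SmM W c) (hτ : Tst W τ) (hC : IsCompact C) (h : C ⊆ W) (A : ℝ) :
    ∃ B : ℝ, 0 ≤ B ∧ ∀ (d : ℝ) (k : E N → ℝ) (f : E N → ρ → ℂ), Ker d A k → ContDiffOn ℝ ∞ f W →
      ∫ x in C, ‖op a b c (cvv k fun y => τ y • f y) x -
        cvv k (fun y => τ y • op a b c f y) x‖ ^ 2 ≤ B * ∫ x in tsupport τ, ‖f x‖ ^ 2 := by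
  have hK : IsCompact (tsupport τ) := hτ.cpt
  obtain ⟨χ, e, hχ, -, he, h1⟩ := exists_bump hW (hC.union hK) (union_subset h hτ.sub)
  have t : ∀ {m : E N → Matrix ρ ρ ℂ}, SmM W m → ∀ r s, Tst univ fun z => (χ z • m z) r s :=
    fun hm r s => tst_mono (tst_smul hW hχ (hm r s)).1 (subset_univ _)
  obtain ⟨B, hB, H⟩ := secm_ob (a := fun l z => χ z • a l z) (b := fun l z => χ z • b l z)
    (c := fun z => χ z • c z) (fun l => t (ha l)) (fun l => t (hb l)) (t hc) A
  have hop : ∀ g, ∀ x ∈ C ∪ tsupport τ, op (fun l z => χ z • a l z) (fun l z => χ z • b l z)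
      (fun z => χ z • c z) g x = op a b c g x := fun g x hx => by
    simp only [op, h1 x hx x (mem_ball_self he), one_smul]
  have hτc := ofReal_smooth (hτ.smooth.contDiffOn (s := W))
  obtain ⟨S, hS⟩ : ∃ S : E N → Matrix ρ ρ ℂ, S = fun z => ∑ l, (dz l (fun y => (τ y : ℂ)) z • a l z +
    dzb l (fun y => (τ y : ℂ)) z • b l z) := ⟨_, rfl⟩
  have hSs : SmM W S := hS ▸ SmM.sum _ fun l _ =>
    (SmM.smul (dz_smooth hW hτc l).1 (ha l)).add (SmM.smul (dz_smooth hW hτc l).2 (hb l))
  have hS0 : ∀ y ∉ tsupport τ, S y = 0 := fun y hy => by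
    have := fun l => dz_zero_off (f := fun y => (τ y : ℂ)) isOpen_univ (isClosed_tsupport τ)
      (fun z _ hz => by simp [image_eq_zero_of_notMem_tsupport hz]) l y trivial hy
    simp only [hS, (this _).1, (this _).2, zero_smul, add_zero, Finset.sum_const_zero]
  obtain ⟨M, -, hM⟩ := hp_upper hK fun r s => (hSs r s).continuousOn.mono hτ.sub
  obtain ⟨L, hL⟩ := hτ.smooth.continuous.bounded_above_of_compact_support hτ.cpt
  refine ⟨2 * (B * L ^ 2) + 2 * (Fintype.card ρ * M ^ 2), by positivity, fun d k f hk hf => ?_⟩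
  have hF := tst_mono (tst_smul hW hτ hf).1 (subset_univ _)
  have hO := (tst_smul hW hτ (op_smooth hW ha hb hc hf)).1
  have hG : Tst univ fun y => S y *ᵥ f y := by
    have e1 : (fun y => S y *ᵥ f y) = fun y => χ y • S y *ᵥ f y := funext fun y => by
      by_cases hy : y ∈ tsupport τ
      · rw [h1 y (Or.inr hy) y (mem_ball_self he), one_smul]
      · rw [hS0 y hy, Matrix.zero_mulVec, smul_zero]
    rw [e1]
    exact tst_mono (tst_smul hW hχ (hSs.mulVec hf)).1 (subset_univ _)
  have e2 : op (fun l z => χ z • a l z) (fun l z => χ z • b l z) (fun z => χ z • c z)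
      (fun y => τ y • f y) = fun y => τ y • op a b c f y + S y *ᵥ f y := funext fun y => by
    by_cases hy : y ∈ tsupport τ
    · have := op_smul (a := a) (b := b) (c := c) (diffAt hW hτc (hτ.sub hy))
        (diffAt hW hf (hτ.sub hy))
      simp only [Complex.coe_smul] at this
      rw [hop _ y (Or.inr hy), this, hS]
    · rw [hS0 y hy, image_eq_zero_of_notMem_tsupport hy, Matrix.zero_mulVec, zero_smul, add_zero]
      refine op_zero ?_
      filter_upwards [(isClosed_tsupport τ).isOpen_compl.mem_nhds hy] with z hz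
      rw [image_eq_zero_of_notMem_tsupport hz, zero_smul]
  obtain ⟨c1, b1⟩ := H d k _ C hk hF hC
  have c2 : Continuous (cvv k fun y => S y *ᵥ f y) :=
    continuous_pi fun r => (abmol2_cv hk (tst_comp hG r).1).continuous
  have b2 := cvv_l2 hk hG hC
  have hfK := hf.continuousOn.mono hτ.sub
  have b3 := secm_supp (M := L) hK hF.smooth.continuous hfK
    (fun x hx => by rw [image_eq_zero_of_notMem_tsupport hx, zero_smul])
    (fun x _ => by rw [norm_smul]; exact mul_le_mul_of_nonneg_right (hL x) (norm_nonneg _))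
  have b4 := secm_supp hK hG.smooth.continuous hfK
    (fun x hx => by rw [hS0 x hx, Matrix.zero_mulVec]) (fun x hx => (hM x hx _ 0).1)
  have b5 := mul_le_mul_of_nonneg_left b3 hB
  have b6 := mul_le_mul_of_nonneg_left b4 (Nat.cast_nonneg (α := ℝ) (Fintype.card ρ))
  refine le_of_eq_of_le (setIntegral_congr_fun hC.measurableSet fun x hx => ?_)
    ((secm_add hC c1 c2).trans (by linarith))
  simp only
  rw [hop _ x (Or.inl hx), e2, cvv_add hk hO.smooth.continuous hG.smooth.continuous,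
    sub_add_eq_sub_sub, sub_add_cancel]


end Pool.Agent.SE
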