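import Pool.Agent.P.MP_63735c_ag.SEOp
import Pool.Agent.P.MP_63735c_ag.ABMol2

/-! Mollification of vector valued functions. -/

open scoped ComplexOrder ContDiff Matrix Topology ENNReal InnerProductSpace
open Set Metric MeasureTheory Filter

namespace Pool.Agent.SE

open Pool.Agent.SPF Pool.Agent.AB

variable {N : ℕ} {ρ : Type} {W C : Set (E N)} {d A : ℝ} {k : E N → ℝ}

/-- Componentwise convolution. -/
noncomputable def cvv (k : E N → ℝ) (f : E N → ρ → ℂ) (x : E N) : ρ → ℂ :=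
  fun r => cv k (fun y => f y r) x

theorem secv_sq {F : Type} [NormedAddCommGroup F] {f : E N → F} (hf : Continuous f)
    (hc : HasCompactSupport f) : Integrable fun y => ‖f y‖ ^ 2 := by
  have hu : Continuous fun y => ‖f y‖ ^ 2 := hf.norm.pow 2
  exact hu.integrable_of_hasCompactSupport (hc.comp_left (g := fun t : F => ‖t‖ ^ 2) (by simp))

theorem secv_zero {a f : E N → ℂ} {M : ℝ} (ha : Continuous a) (hM : ∀ x, ‖a x‖ ≤ M)
    (h : Ker d A k) (hf : Continuous f) (hc : HasCompactSupport f) (hC : IsCompact C) :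
    ∫ x in C, ‖a x * cv k f x‖ ^ 2 ≤ M ^ 2 * ∫ x, ‖f x‖ ^ 2 ∧
      ∫ x in C, ‖cv k (fun y => a y * f y) x‖ ^ 2 ≤ M ^ 2 * ∫ x, ‖f x‖ ^ 2 := by
  have hp : ∀ x (t : ℂ), ‖a x * t‖ ^ 2 ≤ M ^ 2 * ‖t‖ ^ 2 := fun x t => by
    rw [norm_mul, mul_pow]
    exact mul_le_mul_of_nonneg_right (pow_le_pow_left₀ (norm_nonneg _) (hM x) 2) (sq_nonneg _)
  have hv : Continuous (cv k f) := (cv_smooth h hf.locallyIntegrable).continuous
  have haf : Continuous fun y => a y * f y := ha.mul hf
  have hcf : HasCompactSupport fun y => a y * f y := hc.mul_left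
  constructor
  · calc _ ≤ ∫ x in C, M ^ 2 * ‖cv k f x‖ ^ 2 :=
          setIntegral_mono_on (((ha.mul hv).norm.pow 2).continuousOn.integrableOn_compact hC)
            ((continuous_const.mul (hv.norm.pow 2)).continuousOn.integrableOn_compact hC)
            hC.measurableSet fun x _ => hp x _
      _ ≤ _ := by
          rw [integral_const_mul]
          exact mul_le_mul_of_nonneg_left (cv_l2 h hf hc hC) (sq_nonneg _)
  · refine (cv_l2 h haf hcf hC).trans ?_
    rw [← integral_const_mul]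
    exact integral_mono (secv_sq haf hcf) ((secv_sq hf hc).const_mul _) fun x => hp x _

theorem secv_nd {a : E N → ℂ} (ha : Tst univ a) (A : ℝ) : ∃ B : ℝ, 0 ≤ B ∧ ∀ (d : ℝ)
    (k : E N → ℝ) (f : E N → ℂ) (j : Fin N) (C : Set (E N)), Ker d A k → Tst univ f →
      IsCompact C → ∫ x in C, ‖a x * dz j (cv k f) x - cv k (fun y => a y * dz j f y) x‖ ^ 2 ≤
        B * ∫ x, ‖f x‖ ^ 2 := by
  obtain ⟨B, hB, h1⟩ := cm_l2 ha A
  obtain ⟨M, -, hM⟩ := abmol2_bd ha
  refine ⟨3 * (B + M ^ 2 + M ^ 2), by positivity, fun d k f j C h hf hC => ?_⟩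
  have ta := (ha.dz_tst j).1
  have tf := (hf.dz_tst j).1
  have t1 := abmol2_mul ta hf
  have t2 := abmol2_mul ha tf
  obtain ⟨h2, h3⟩ := secv_zero ta.smooth.continuous
    (fun x => (dz_norm_le a x j).1.trans (hM x)) h hf.smooth.continuous hf.cpt hC
  have e : ∀ x, a x * dz j (cv k f) x - cv k (fun y => a y * dz j f y) x =
      cm k a f j x - dz j a x * cv k f x + cv k (fun y => dz j a y * f y) x := fun x => by
    have e1 : (dz j fun y => a y * f y) = fun y => dz j a y * f y + a y * dz j f y :=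
      funext fun y => (dz_mul (abmol2_diff ha.smooth y) (abmol2_diff hf.smooth y) j).1
    rw [cm, (dz_mul (abmol2_diff ha.smooth x) (abmol2_diff (abmol2_cv h hf) x) j).1,
      (dz_cv h (abmol2_mul ha hf) j x).1, e1, cv_add h t1.smooth.continuous t2.smooth.continuous]
    ring
  have c1 := cm_cont h ha hf j
  have c2 : Continuous fun x => dz j a x * cv k f x :=
    ta.smooth.continuous.mul (abmol2_cv h hf).continuous
  have c3 := (abmol2_cv h t1).continuous
  have i1 : IntegrableOn (fun x => ‖cm k a f j x‖ ^ 2) C :=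
    (c1.norm.pow 2).continuousOn.integrableOn_compact hC
  have i2 : IntegrableOn (fun x => ‖dz j a x * cv k f x‖ ^ 2) C :=
    (c2.norm.pow 2).continuousOn.integrableOn_compact hC
  have i3 : IntegrableOn (fun x => ‖cv k (fun y => dz j a y * f y) x‖ ^ 2) C :=
    (c3.norm.pow 2).continuousOn.integrableOn_compact hC
  have i4 : IntegrableOn (fun x => ‖cm k a f j x‖ ^ 2 + ‖dz j a x * cv k f x‖ ^ 2) C := i1.add i2
  have i5 : IntegrableOn (fun x => ‖cm k a f j x‖ ^ 2 + ‖dz j a x * cv k f x‖ ^ 2 +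
      ‖cv k (fun y => dz j a y * f y) x‖ ^ 2) C := i4.add i3
  simp only [e]
  calc _ ≤ ∫ x in C, 3 * (‖cm k a f j x‖ ^ 2 + ‖dz j a x * cv k f x‖ ^ 2 +
          ‖cv k (fun y => dz j a y * f y) x‖ ^ 2) := by
        refine setIntegral_mono_on
          ((((c1.sub c2).add c3).norm.pow 2).continuousOn.integrableOn_compact hC)
          (i5.const_mul 3) hC.measurableSet fun x _ => ?_
        refine (pow_le_pow_left₀ (norm_nonneg _) ((norm_add_le _ _).trans
          (add_le_add (norm_sub_le _ _) le_rfl)) 2).trans ?_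
        generalize ‖cm k a f j x‖ = p, ‖dz j a x * cv k f x‖ = q,
          ‖cv k (fun y => dz j a y * f y) x‖ = r
        nlinarith [sq_nonneg (p - q), sq_nonneg (p - r), sq_nonneg (q - r)]
    _ ≤ _ := by
        rw [integral_const_mul, integral_add i4 i3, integral_add i1 i2]
        linarith [h1 d k f j C h hf hC]

theorem secv_star {a : E N → ℂ} (ha : Tst univ a) : Tst univ fun y => star (a y) :=
  ⟨Complex.conjCLE.contDiff.comp ha.smooth, ha.cpt.comp_left (g := star) (star_zero ℂ),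
    subset_univ _⟩

theorem secv_cv_star (k : E N → ℝ) (f : E N → ℂ) (x : E N) :
    star (cv k f x) = cv k (fun y => star (f y)) x := by
  rw [cv, cv, Complex.star_def, ← integral_conj]
  simp

/-- The Friedrichs commutators in non-divergence form. -/
theorem cm_nd {a : E N → ℂ} (ha : Tst univ a) (A : ℝ) : ∃ B : ℝ, 0 ≤ B ∧ ∀ (d : ℝ) (k : E N → ℝ)
    (f : E N → ℂ) (j : Fin N) (C : Set (E N)), Ker d A k → Tst univ f → IsCompact C →
      ∫ x in C, ‖a x * dz j (cv k f) x - cv k (fun y => a y * dz j f y) x‖ ^ 2 ≤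
        B * ∫ x, ‖f x‖ ^ 2 ∧
      ∫ x in C, ‖a x * dzb j (cv k f) x - cv k (fun y => a y * dzb j f y) x‖ ^ 2 ≤
        B * ∫ x, ‖f x‖ ^ 2 := by
  obtain ⟨B, hB, h1⟩ := secv_nd ha A
  obtain ⟨B', hB', h2⟩ := secv_nd (secv_star ha) A
  refine ⟨B + B', by positivity, fun d k f j C h hf hC => ?_⟩
  have h0 : 0 ≤ ∫ x, ‖f x‖ ^ 2 := integral_nonneg fun _ => by positivity
  have h3 := h2 d k _ j C h (secv_star hf) hC
  have e : ∀ x, ‖a x * dzb j (cv k f) x - cv k (fun y => a y * dzb j f y) x‖ =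
      ‖star (a x) * dz j (cv k fun y => star (f y)) x -
        cv k (fun y => star (a y) * dz j (fun y => star (f y)) y) x‖ := fun x => by
    rw [← norm_star, star_sub, star_mul', (star_dz _ _ _).2, secv_cv_star]
    simp only [secv_cv_star, star_mul', (star_dz _ _ _).2]
  simp only [norm_star] at h3
  simp only [e]
  constructor
  · nlinarith [h1 d k f j C h hf hC, mul_nonneg hB' h0]
  · nlinarith [mul_nonneg hB h0]

theorem cm_zero {a : E N → ℂ} (ha : Tst univ a) : ∃ B : ℝ, 0 ≤ B ∧ ∀ (d A : ℝ) (k : E N → ℝ)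
    (f : E N → ℂ) (C : Set (E N)), Ker d A k → Tst univ f → IsCompact C →
      ∫ x in C, ‖a x * cv k f x‖ ^ 2 ≤ B * ∫ x, ‖f x‖ ^ 2 ∧
      ∫ x in C, ‖cv k (fun y => a y * f y) x‖ ^ 2 ≤ B * ∫ x, ‖f x‖ ^ 2 := by
  obtain ⟨M, hM⟩ := ha.smooth.continuous.bounded_above_of_compact_support ha.cpt
  exact ⟨M ^ 2, sq_nonneg _, fun d A k f C h hf hC =>
    secv_zero ha.smooth.continuous hM h hf.smooth.continuous hf.cpt hC⟩

variable [Fintype ρ] {f g : E N → ρ → ℂ}

theorem cvv_tst {d₀ : ℝ} (h : Ker d A k) (hf : Tst W f) (hC : IsCompact C) (hs : tsupport f ⊆ C)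
    (hd : d ≤ d₀) (hW : cthickening d₀ C ⊆ W) :
    Tst W (cvv k f) ∧ tsupport (cvv k f) ⊆ cthickening d₀ C := by
  have h1 : tsupport (cvv k f) ⊆ cthickening d₀ C := by
    refine closure_minimal (fun x hx => by_contra fun hx' => hx ?_) isClosed_cthickening
    funext r
    have h2 : ∀ y ∈ ball x d, f y r = (fun _ => (0 : ℂ)) y := fun y hy => by
      have h3 : y ∉ tsupport f := fun h3 => hx' (mem_cthickening_of_dist_le x y _ _ (hs h3)
        (by rw [dist_comm]; exact (mem_ball.1 hy).le.trans hd))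
      rw [image_eq_zero_of_notMem_tsupport h3]
      rfl
    rw [cvv, cv_local h h2]
    simp [cv]
  refine ⟨⟨contDiff_pi.2 fun r => cv_smooth h ?_, hC.cthickening.of_isClosed_subset
    (isClosed_tsupport _) h1, h1.trans hW⟩, h1⟩
  exact ((continuous_apply r).comp hf.smooth.continuous).locallyIntegrable

omit [Fintype ρ] in
theorem cvv_add (h : Ker d A k) (hf : Continuous f) (hg : Continuous g) (x : E N) :
    cvv k (fun y => f y + g y) x = cvv k f x + cvv k g x := by
  funext r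
  exact cv_add h ((continuous_apply r).comp hf) ((continuous_apply r).comp hg) x

omit [Fintype ρ] in
theorem cvv_smul (k : E N → ℝ) (f : E N → ρ → ℂ) (t : ℂ) (x : E N) :
    cvv k (fun y => t • f y) x = t • cvv k f x := by
  funext r
  exact abmol1_cmul k t (fun y => f y r) x

theorem cvv_l2 (h : Ker d A k) (hf : Tst univ f) (hC : IsCompact C) :
    ∫ x in C, ‖cvv k f x‖ ^ 2 ≤ Fintype.card ρ * ∫ x, ‖f x‖ ^ 2 := by
  have hi := secv_sq hf.smooth.continuous hf.cpt
  have t : ∀ r, Tst univ fun y => f y r := fun r => (tst_comp hf r).1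
  have c : ∀ r, Continuous (cv k fun y => f y r) := fun r => (abmol2_cv h (t r)).continuous
  have i : ∀ r, IntegrableOn (fun x => ‖cv k (fun y => f y r) x‖ ^ 2) C := fun r =>
    ((c r).norm.pow 2).continuousOn.integrableOn_compact hC
  have cc : Continuous (cvv k f) := continuous_pi c
  calc _ ≤ ∫ x in C, ∑ r, ‖cv k (fun y => f y r) x‖ ^ 2 :=
        setIntegral_mono_on ((cc.norm.pow 2).continuousOn.integrableOn_compact hC)
          (integrable_finsetSum _ fun r _ => i r) hC.measurableSet fun x _ => norm_sq_le_sum _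
    _ ≤ ∑ _r : ρ, ∫ x, ‖f x‖ ^ 2 := by
        rw [integral_finsetSum _ fun r _ => i r]
        refine Finset.sum_le_sum fun r _ =>
          (cv_l2 h (t r).smooth.continuous (t r).cpt hC).trans ?_
        exact integral_mono (secv_sq (t r).smooth.continuous (t r).cpt) hi fun x =>
          pow_le_pow_left₀ (norm_nonneg _) (norm_le_pi_norm (f x) r) 2
    _ = _ := by simp

theorem cvv_unif (hf : Tst univ f) {γ : ℝ} (hγ : 0 < γ) :
    ∃ d₀ : ℝ, 0 < d₀ ∧ ∀ (d A : ℝ) (k : E N → ℝ), d ≤ d₀ → Ker d A k → ∀ x,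
      ‖cvv k f x - f x‖ ≤ γ ∧ ∀ l, ‖dzv l (cvv k f) x - dzv l f x‖ ≤ γ ∧
        ‖dbv l (cvv k f) x - dbv l f x‖ ≤ γ := by
  have h0 : ∀ {u : E N → ℂ}, Tst univ u → ∀ᶠ d₀ in 𝓝[>] (0 : ℝ), ∀ (d A : ℝ) (k : E N → ℝ),
      d ≤ d₀ → Ker d A k → ∀ x, ‖cv k u x - u x‖ ≤ γ := fun hu => by
    obtain ⟨d1, p1, h1⟩ := cv_unif hu.smooth.continuous hu.cpt hγ
    filter_upwards [Ioc_mem_nhdsGT p1] with d0 h0 d A k hd using h1 d A k (hd.trans h0.2)
  have t : ∀ r, Tst univ fun y => f y r := fun r => (tst_comp hf r).1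
  have h1 := eventually_all.2 fun r => (h0 (t r)).and (eventually_all.2 fun l : Fin N =>
    (h0 ((t r).dz_tst l).1).and (h0 ((t r).dz_tst l).2))
  obtain ⟨d0, h2, h3⟩ := (h1.and self_mem_nhdsWithin).exists
  refine ⟨d0, h3, fun d A k hd h x => ⟨?_, fun l => ⟨?_, ?_⟩⟩⟩
  · exact (pi_norm_le_iff_of_nonneg hγ.le).2 fun r => (h2 r).1 d A k hd h x
  · refine (pi_norm_le_iff_of_nonneg hγ.le).2 fun r => ?_
    have := ((h2 r).2 l).1 d A k hd h x
    rwa [← (dz_cv h (t r) l x).1] at this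
  · refine (pi_norm_le_iff_of_nonneg hγ.le).2 fun r => ?_
    have := ((h2 r).2 l).2 d A k hd h x
    rwa [← (dz_cv h (t r) l x).2] at this


end Pool.Agent.SE
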