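import Pool.Agent.P.MP_63735c_ag.ABMeas

/-! Hermitian bundles given by a matrix cocycle, their smooth sections and the L2 product
(objects of the proof, not in any statement). -/

open scoped ComplexOrder ContDiff Matrix Topology ENNReal InnerProductSpace
open Set Metric MeasureTheory Filter

namespace Pool.Agent.SE

open Pool.Agent.SPF Pool.Agent.AB

variable {N : ℕ} {ρ : Type}

/-- Componentwise `dz`. -/
noncomputable def dzv (a : Fin N) (f : E N → ρ → ℂ) (z : E N) : ρ → ℂ :=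
  fun r => dz a (fun y => f y r) z

/-- Componentwise `dzb`. -/
noncomputable def dbv (a : Fin N) (f : E N → ρ → ℂ) (z : E N) : ρ → ℂ :=
  fun r => dzb a (fun y => f y r) z

/-- A matrix function with smooth entries. -/
def SmM (W : Set (E N)) (m : E N → Matrix ρ ρ ℂ) : Prop :=
  ∀ r s, ContDiffOn ℝ ∞ (fun z => m z r s) W

variable [Fintype ρ]

/-- The hermitian product, linear in the second slot. -/
def hp (H : Matrix ρ ρ ℂ) (u v : ρ → ℂ) : ℂ := star u ⬝ᵥ H *ᵥ v

/-- A first order operator in a chart. -/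
noncomputable def op (a b : Fin N → E N → Matrix ρ ρ ℂ) (c : E N → Matrix ρ ρ ℂ)
    (f : E N → ρ → ℂ) (z : E N) : ρ → ℂ :=
  ∑ l, (a l z *ᵥ dzv l f z + b l z *ᵥ dbv l f z) + c z *ᵥ f z

theorem hp_add_left (H : Matrix ρ ρ ℂ) (u u' v : ρ → ℂ) :
    hp H (u + u') v = hp H u v + hp H u' v := by simp [hp, add_dotProduct]

theorem hp_smul_left (H : Matrix ρ ρ ℂ) (c : ℂ) (u v : ρ → ℂ) :
    hp H (c • u) v = star c * hp H u v := by simp [hp]

theorem hp_star {H : Matrix ρ ρ ℂ} (h : H.IsHermitian) (u v : ρ → ℂ) :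
    star (hp H u v) = hp H v u := by
  rw [hp, hp, ← Matrix.star_dotProduct_star, star_star, Matrix.star_mulVec, h.eq,
    Matrix.dotProduct_mulVec (star v), dotProduct_comm]

theorem hp_conj (G H : Matrix ρ ρ ℂ) (u v : ρ → ℂ) :
    hp (Gᴴ * H * G) u v = hp H (G *ᵥ u) (G *ᵥ v) := by
  rw [hp, hp, Matrix.star_mulVec, ← Matrix.mulVec_mulVec, ← Matrix.mulVec_mulVec,
    Matrix.dotProduct_mulVec]

theorem hp_contOn {Z : Type} [TopologicalSpace Z] {W : Set Z} {H : Z → Matrix ρ ρ ℂ}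
    {u v : Z → ρ → ℂ} (hH : ∀ r s, ContinuousOn (fun z => H z r s) W) (hu : ContinuousOn u W)
    (hv : ContinuousOn v W) : ContinuousOn (fun z => hp (H z) (u z) (v z)) W := by
  simp only [hp, dotProduct, Matrix.mulVec, Pi.star_apply]
  exact continuousOn_finsetSum _ fun r _ => (continuousOn_pi.1 hu r).star.mul
    (continuousOn_finsetSum _ fun s _ => (hH r s).mul (continuousOn_pi.1 hv s))

/-- A hermitian bundle over a manifold with a smooth volume. -/
structure Bun (Y : Type) [TopologicalSpace Y] [MeasurableSpace Y] (N : ℕ) (ρ : Type) [Fintype ρ]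
    [DecidableEq ρ] extends Man Y N where
  cover : toMan.M = univ
  Ψ : ι → E N → ℝ
  ν : Measure Y
  Ψ_smooth : ∀ i, ContDiffOn ℝ ∞ (Ψ i) (W i)
  den : toMan.Den ν Ψ
  G : ι → ι → E N → Matrix ρ ρ ℂ
  H : ι → E N → Matrix ρ ρ ℂ
  G_smooth : ∀ i j, ∀ z ∈ W i, p i z ∈ p j '' W j → ∀ r s,
    ContDiffAt ℝ ∞ (fun t => G i j t r s) z
  G_self : ∀ i, ∀ z ∈ W i, G i i z = 1
  G_mul : ∀ i j k, ∀ z ∈ W i, ∀ y ∈ W j, p i z = p j y → p i z ∈ p k '' W k →
    G j k y * G i j z = G i k z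
  H_smooth : ∀ i, SmM (W i) (H i)
  H_pos : ∀ i, ∀ z ∈ W i, (H i z).PosDef
  H_cpt : ∀ i j, ∀ z ∈ W i, ∀ y ∈ W j, p i z = p j y → H i z = (G i j z)ᴴ * H j y * G i j z

variable [DecidableEq ρ] {Y : Type} [TopologicalSpace Y] [MeasurableSpace Y]

namespace Bun

variable (B : Bun Y N ρ)

/-- Smooth compatible families. -/
structure Fam (V : B.ι → E N → ρ → ℂ) : Prop where
  smooth : ∀ i, ContDiffOn ℝ ∞ (V i) (B.W i)
  cpt : ∀ i j, ∀ z ∈ B.W i, ∀ y ∈ B.W j, B.p i z = B.p j y → V j y = B.G i j z *ᵥ V i z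

/-- The families that vanish outside the chart domains. -/
def subm : Submodule ℂ (B.ι → E N → ρ → ℂ) where
  carrier := {V | B.Fam V ∧ ∀ i, ∀ z ∉ B.W i, V i z = 0}
  add_mem' := fun {V V'} h h' => ⟨⟨fun i => (h.1.1 i).add (h'.1.1 i), fun i j z hz y hy e => by
    simp only [Pi.add_apply, Matrix.mulVec_add, h.1.2 i j z hz y hy e, h'.1.2 i j z hz y hy e]⟩,
    fun i z hz => by simp [h.2 i z hz, h'.2 i z hz]⟩
  zero_mem' := ⟨⟨fun _ => contDiffOn_const, fun _ _ _ _ _ _ _ => by simp⟩, fun _ _ _ => rfl⟩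
  smul_mem' := fun c V h => ⟨⟨fun i => (h.1.1 i).const_smul c, fun i j z hz y hy e => by
    simp only [Pi.smul_apply, Matrix.mulVec_smul, h.1.2 i j z hz y hy e]⟩,
    fun i z hz => by simp [h.2 i z hz]⟩

/-- Smooth sections. -/
def Sec : Type := B.subm

instance : AddCommGroup B.Sec := inferInstanceAs (AddCommGroup B.subm)
instance : Module ℂ B.Sec := inferInstanceAs (Module ℂ B.subm)

variable {B}

/-- The representative of a section in a chart. -/
def Sec.v (V : B.Sec) (i : B.ι) : E N → ρ → ℂ := (V : B.subm).1 i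

theorem Sec.fam (V : B.Sec) : B.Fam V.v := (V : B.subm).2.1
theorem Sec.smooth (V : B.Sec) (i : B.ι) : ContDiffOn ℝ ∞ (V.v i) (B.W i) := V.fam.1 i
theorem Sec.out (V : B.Sec) {i : B.ι} {z : E N} (hz : z ∉ B.W i) : V.v i z = 0 :=
  (V : B.subm).2.2 i z hz

theorem Sec.ext' {V V' : B.Sec} (h : ∀ i, ∀ z ∈ B.W i, V.v i z = V'.v i z) : V = V' :=
  Subtype.ext (funext fun i => funext fun z => by
    by_cases hz : z ∈ B.W i
    exacts [h i z hz, (V.out hz).trans (V'.out hz).symm])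

@[simp] theorem v_add (V V' : B.Sec) (i : B.ι) (z : E N) : (V + V').v i z = V.v i z + V'.v i z :=
  rfl
@[simp] theorem v_sub (V V' : B.Sec) (i : B.ι) (z : E N) : (V - V').v i z = V.v i z - V'.v i z :=
  rfl
@[simp] theorem v_neg (V : B.Sec) (i : B.ι) (z : E N) : (-V).v i z = -V.v i z := rfl
@[simp] theorem v_zero (i : B.ι) (z : E N) : (0 : B.Sec).v i z = 0 := rfl
@[simp] theorem v_smul (c : ℂ) (V : B.Sec) (i : B.ι) (z : E N) : (c • V).v i z = c • V.v i z := rfl
@[simp] theorem v_sum {κ : Type} (s : Finset κ) (V : κ → B.Sec) (i : B.ι) (z : E N) :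
    (∑ k ∈ s, V k).v i z = ∑ k ∈ s, (V k).v i z := by
  classical
  induction s using Finset.induction_on with
  | empty => rfl
  | insert a s ha ih => rw [Finset.sum_insert ha, Finset.sum_insert ha, v_add, ih]

variable (B) in
open Classical in
/-- The section given by a smooth compatible family. -/
noncomputable def sec (V : B.ι → E N → ρ → ℂ) : B.Sec :=
  if h : B.Fam V then
    (⟨fun i => (B.W i).indicator (V i),
      ⟨fun i => (h.1 i).congr fun _ hz => indicator_of_mem hz _, fun i j z hz y hy e => by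
        rw [indicator_of_mem hz, indicator_of_mem hy, h.2 i j z hz y hy e]⟩,
      fun _ _ hz => indicator_of_notMem hz _⟩ : B.subm)
  else 0

theorem sec_v {V : B.ι → E N → ρ → ℂ} (h : B.Fam V) {i : B.ι} {z : E N} (hz : z ∈ B.W i) :
    (B.sec V).v i z = V i z := by
  rw [sec, dif_pos h]
  exact indicator_of_mem hz _

variable (B) in
/-- A linear operator given by formulas in the charts. -/
noncomputable def lin (F : B.Sec → B.ι → E N → ρ → ℂ) (hF : ∀ V, B.Fam (F V))
    (ha : ∀ V V' i, ∀ z ∈ B.W i, F (V + V') i z = F V i z + F V' i z)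
    (hs : ∀ (c : ℂ) V i, ∀ z ∈ B.W i, F (c • V) i z = c • F V i z) : B.Sec →ₗ[ℂ] B.Sec where
  toFun V := B.sec (F V)
  map_add' V V' := Sec.ext' fun i z hz => by
    rw [v_add, sec_v (hF _) hz, sec_v (hF _) hz, sec_v (hF _) hz, ha V V' i z hz]
  map_smul' c V := Sec.ext' fun i z hz => by
    rw [RingHom.id_apply, v_smul, sec_v (hF _) hz, sec_v (hF _) hz, hs c V i z hz]

theorem lin_v {F : B.Sec → B.ι → E N → ρ → ℂ} {hF ha hs} (V : B.Sec) {i : B.ι} {z : E N}
    (hz : z ∈ B.W i) : (B.lin F hF ha hs V).v i z = F V i z := sec_v (hF V) hz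

variable (B) in
theorem exists_ch (x : Y) : ∃ q : B.ι × E N, q.2 ∈ B.W q.1 ∧ B.p q.1 q.2 = x := by
  obtain ⟨i, z, h⟩ := Man.exists_chart (D := B.toMan) (x := x) (B.cover ▸ mem_univ x)
  exact ⟨(i, z), h⟩

/-- The pointwise product of two sections. -/
noncomputable def hG (V V' : B.Sec) (x : Y) : ℂ :=
  let q := (B.exists_ch x).choose
  hp (B.H q.1 q.2) (V.v q.1 q.2) (V'.v q.1 q.2)

theorem hG_chart (V V' : B.Sec) {i : B.ι} {z : E N} (hz : z ∈ B.W i) :
    hG V V' (B.p i z) = hp (B.H i z) (V.v i z) (V'.v i z) := by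
  obtain ⟨h1, h2⟩ := (B.exists_ch (B.p i z)).choose_spec
  rw [hG, B.H_cpt i _ z hz _ h1 h2.symm, hp_conj, ← V.fam.2 i _ z hz _ h1 h2.symm,
    ← V'.fam.2 i _ z hz _ h1 h2.symm]

theorem hG_nonneg (V : B.Sec) (x : Y) : 0 ≤ (hG V V x).re :=
  (B.H_pos _ _ (B.exists_ch x).choose_spec.1).posSemidef.re_dotProduct_nonneg _

theorem Ψ_cont (B : Bun Y N ρ) (i : B.ι) : ContinuousOn (B.Ψ i) (B.W i) :=
  (B.Ψ_smooth i).continuousOn

variable [CompactSpace Y]

theorem hG_cc (V V' : B.Sec) : B.Cc (hG V V') :=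
  ⟨fun i => (hp_contOn (fun r s => (B.H_smooth i r s).continuousOn) (V.smooth i).continuousOn
    (V'.smooth i).continuousOn).congr fun _ hz => hG_chart V V' hz,
    univ, isCompact_univ, B.cover.ge, fun x hx => (hx (mem_univ x)).elim⟩

variable [T2Space Y] [BorelSpace Y]

theorem hG_int (V V' : B.Sec) : Integrable (hG V V') B.ν :=
  (hG_cc V V').integrable B.den B.Ψ_cont

variable (B) in
/-- The L2 product. -/
@[reducible] noncomputable def core : InnerProductSpace.Core ℂ B.Sec where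
  inner V V' := ∫ x, hG V V' x ∂B.ν
  conj_inner_symm V V' := by
    rw [← integral_conj]
    exact integral_congr_ae (Eventually.of_forall fun x =>
      hp_star (B.H_pos _ _ (B.exists_ch x).choose_spec.1).1 _ _)
  re_inner_nonneg V := by
    rw [← integral_re (hG_int V V)]
    exact integral_nonneg (hG_nonneg V)
  add_left V V' U := by
    rw [← integral_add (hG_int _ _) (hG_int _ _)]
    exact integral_congr_ae (Eventually.of_forall fun x => hp_add_left _ _ _ _)
  smul_left V V' c := by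
    rw [← integral_const_mul]
    exact integral_congr_ae (Eventually.of_forall fun x => hp_smul_left _ _ _ _)
  definite V h := by
    have hc : Continuous fun x => (hG V V x).re := Complex.continuous_re.comp (hG_cc V V).continuous
    have h1 : ∫ x, (hG V V x).re ∂B.ν = 0 :=
      (integral_re (hG_int V V)).trans (by rw [h]; rfl)
    rw [integral_eq_zero_iff_of_nonneg (hG_nonneg V) (hG_int V V).re] at h1
    refine Sec.ext' fun i z hz => by_contra fun hne => ?_
    refine B.den.pos B.Ψ_cont (isOpen_ne_fun hc continuous_const) (B.cover ▸ subset_univ _)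
      ⟨B.p i z, ?_⟩ h1
    rw [mem_ofPred_eq, hG_chart V V hz]
    exact ((B.H_pos i z hz).re_dotProduct_pos hne).ne'

noncomputable instance : NormedAddCommGroup B.Sec :=
  @InnerProductSpace.Core.toNormedAddCommGroup ℂ _ _ _ _ B.core

noncomputable instance : InnerProductSpace ℂ B.Sec := InnerProductSpace.ofCore B.core.toCore

theorem inner_def (V V' : B.Sec) : ⟪V, V'⟫_ℂ = ∫ x, hG V V' x ∂B.ν := rfl

theorem norm_sq (V : B.Sec) : ‖V‖ ^ 2 = ∫ x, (hG V V x).re ∂B.ν :=
  (InnerProductSpace.norm_sq_eq_re_inner (𝕜 := ℂ) V).trans (integral_re (hG_int V V)).symm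

end Bun

/-- A finite partition of unity. -/
structure PU (B : Bun Y N ρ) where
  m : ℕ
  c : Fin m → B.ι
  τ : Fin m → E N → ℝ
  tst : ∀ a, Tst (B.W (c a)) (τ a)
  nonneg : ∀ a z, 0 ≤ τ a z
  sum : ∀ x, ∑ a, B.ext (c a) (τ a) x = 1

namespace Bun

variable (B : Bun Y N ρ)

/-- The section given by a test function in the chart `i`. -/
noncomputable def ex (i : B.ι) (f : E N → ρ → ℂ) : B.Sec :=
  B.sec fun j y => B.ext i (fun z => B.G i j z *ᵥ f z) (B.p j y)

/-- `V` vanishes outside the image of `C`. -/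
def Supp (V : B.Sec) (i : B.ι) (C : Set (E N)) : Prop :=
  ∀ j, ∀ y ∈ B.W j, B.p j y ∉ B.p i '' C → V.v j y = 0

/-- Holomorphic sections. -/
def Hol : Set B.Sec := {V | ∀ i, DifferentiableOn ℂ (V.v i) (B.W i)}

/-- `D` is a first order operator with coefficients `a, b, c` in the chart `i`. -/
structure Loc (D : B.Sec →ₗ[ℂ] B.Sec) (i : B.ι) (a b : Fin N → E N → Matrix ρ ρ ℂ)
    (c : E N → Matrix ρ ρ ℂ) : Prop where
  sa : ∀ l, SmM (B.W i) (a l)
  sb : ∀ l, SmM (B.W i) (b l)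
  sc : SmM (B.W i) c
  eq : ∀ V, ∀ z ∈ B.W i, (D V).v i z = op a b c (V.v i) z

/-- `U` is the multiplication by `m` in the chart `i`. -/
structure Loc0 (U : B.Sec →ₗ[ℂ] B.Sec) (i : B.ι) (m : E N → Matrix ρ ρ ℂ) : Prop where
  sm : SmM (B.W i) m
  eq : ∀ V, ∀ z ∈ B.W i, (U V).v i z = m z *ᵥ V.v i z

/-- A symmetric first order operator that controls the antiholomorphic derivatives. -/
structure Ell [CompactSpace Y] [T2Space Y] [BorelSpace Y] (D : B.Sec →ₗ[ℂ] B.Sec) : Prop where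
  loc : ∀ i, ∃ a b c, B.Loc D i a b c
  symm : ∀ V V', ⟪D V, V'⟫_ℂ = ⟪V, D V'⟫_ℂ
  gar : ∀ i C, IsCompact C → C ⊆ B.W i → ∃ A : ℝ, 0 < A ∧ ∀ (V : B.Sec) r,
    ∫ z in C, ‖db (fun y => V.v i y r) z‖ ^ 2 ≤ A * ‖D V‖ ^ 2

end Bun

end Pool.Agent.SE
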