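import Pool.Agent.P.MP_63735c_ag.SEDir2
import Pool.Agent.P.MP_63735c_ag.SRTop

/-! The Dolbeault-Dirac operator on sections: symmetry and the basic estimates. -/

open scoped ComplexOrder ContDiff Matrix Topology ENNReal InnerProductSpace Kronecker
open Set Metric MeasureTheory Filter TopologicalSpace

namespace Pool.Agent.SE

open Pool.Agent.SPF Pool.Agent.AB

variable {N : ℕ} {ρ Y : Type} [Fintype ρ] [DecidableEq ρ] [TopologicalSpace Y] [MeasurableSpace Y]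

namespace Geo

variable (X : Geo Y N ρ)

/-- The gradient term. -/
noncomputable def q1 (i : X.ι) (f : E N → ρ → ℂ) (z : E N) : ℂ :=
  hp (((X.K i z)⁻¹)ᵀ ⊗ₖ X.H i z) (fun q => dbv q.1 f z q.2) fun q => dbv q.1 f z q.2

/-- The curvature term. -/
noncomputable def q2 (i : X.ι) (f : E N → ρ → ℂ) (z : E N) : ℂ :=
  hp ((lev (X.ψ i) z)ᵀ ⊗ₖ (X.H i z * Matrix.diagonal fun r => (X.d r : ℂ)))
    (fun q => ((X.C.mat ℂ).i q.1 *ᵥ f z) q.2) fun q => ((X.C.mat ℂ).i q.1 *ᵥ f z) q.2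

/-- The integrand of the basic identity. -/
noncomputable def qq (i : X.ι) (f : E N → ρ → ℂ) (z : E N) : ℝ :=
  wt (X.Ψ i) z * ((X.q1 i f z).re + (X.q2 i f z).re)

variable {X} {i : X.ι} {z : E N} {f : E N → ρ → ℂ} {C : Set (E N)}

theorem q1_pd (hz : z ∈ X.W i) : (((X.K i z)⁻¹)ᵀ ⊗ₖ X.H i z).PosDef :=
  ((X.kah i).pos z hz).inv.transpose.kronecker (H_pos hz)

theorem H_d (i : X.ι) (z : E N) : (X.H i z * Matrix.diagonal fun r => (X.d r : ℂ)) =
    (Matrix.diagonal fun r => ((X.ww i z (X.d r) * X.d r : ℝ) : ℂ)) *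
      (X.C.mat ℂ).gam (X.K i z)ᵀ := by
  rw [H, mul_assoc, ← (dg_gam (X := X) (fun m => (m : ℂ)) _).eq, ← mul_assoc,
    Matrix.diagonal_mul_diagonal]
  simp only [Complex.ofReal_mul, Complex.ofReal_natCast]

theorem q_nonneg (hz : z ∈ X.W i) (f : E N → ρ → ℂ) : 0 ≤ X.q1 i f z ∧ 0 ≤ X.q2 i f z := by
  refine ⟨(q1_pd hz).posSemidef.dotProduct_mulVec_nonneg _, ?_⟩
  rw [q2, H_d]
  exact ((X.ψ_psd i z hz).transpose.kronecker (X.dg_psd ((X.kah i).pos z hz).transpose.posSemidef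
    (c := fun m => X.ww i z m * m) fun m =>
      mul_nonneg (ww_pos _ _ _).le m.cast_nonneg).1).dotProduct_mulVec_nonneg _

theorem q2_ge {r0 : ρ} (h0 : ∀ a s, X.C.e a r0 s = 0) (hz : z ∈ X.W i) (f : E N → ρ → ℂ) :
    X.ww i z (X.d r0) * X.d r0 * (hq (lev (X.ψ i) z)
      (fun k => ((X.C.mat ℂ).i k *ᵥ f z) r0) fun k => ((X.C.mat ℂ).i k *ᵥ f z) r0).re ≤
        (X.q2 i f z).re := by
  have h := ((X.ψ_psd i z hz).transpose.kronecker ((X.dg_psd
    ((X.kah i).pos z hz).transpose.posSemidef (c := fun m => X.ww i z m * m)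
      fun m => mul_nonneg (ww_pos _ _ _).le m.cast_nonneg).2 r0 h0)).re_dotProduct_nonneg
        fun q => ((X.C.mat ℂ).i q.1 *ᵥ f z) q.2
  have h1 : ∀ (A B : Matrix ρ ρ ℂ) u v, hp (A - B) u v = hp A u v - hp B u v := fun A B u v => by
    simp [hp, Matrix.sub_mulVec]
  have h2 : ∀ (c : ℂ) u v, hp (Matrix.diagonal (Pi.single r0 c)) u v = c * (star (u r0) * v r0) :=
    fun c u v => by simp [hp, dotProduct, Matrix.mulVec_diagonal, Pi.single_apply, mul_left_comm]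
  change 0 ≤ (hp _ _ _).re at h
  rw [hp_kron _ _ fun k => (X.C.mat ℂ).i k *ᵥ f z] at h
  simp only [h1, h2, mul_sub, Finset.sum_sub_distrib, Complex.sub_re, sub_nonneg] at h
  rw [q2, H_d, hp_kron _ _ fun k => (X.C.mat ℂ).i k *ᵥ f z, ← Complex.re_ofReal_mul, hq_sum_eq]
  refine le_trans (le_of_eq (congrArg _ ?_)) h
  rw [Finset.sum_comm, Finset.mul_sum]
  refine Finset.sum_congr rfl fun l _ => ?_
  rw [Finset.mul_sum]
  exact Finset.sum_congr rfl fun k _ => by rw [Matrix.transpose_apply]; ring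

theorem qq_nonneg (hz : z ∈ X.W i) (f : E N → ρ → ℂ) : 0 ≤ X.qq i f z :=
  mul_nonneg (wt_pos _ _).le (add_nonneg (Complex.nonneg_iff.1 (q_nonneg hz f).1).1
    (Complex.nonneg_iff.1 (q_nonneg hz f).2).1)

theorem rep_qq {V : ρ → Sm (X.dom i)} (hf : VRep V f) :
    Sm.Rep (∑ l, (X.L i).hp (dv ((X.L i).db l) V) ((X.L i).W l V) + ∑ l, ∑ k,
      (X.L i).hp ((X.C.mat _).i k *ᵥ V) ((X.L i).Th l k *ᵥ (X.C.mat _).i l *ᵥ V))
      fun z => X.qq i f z := fun x => by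
  have h1 : ∀ k, VRep ((X.C.mat _).i k *ᵥ V) fun z => (X.C.mat ℂ).i k *ᵥ f z := fun k y => by
    rw [(Chg.comp_e _ _).2, hf]
  have h2 : ∀ l k, VRep ((X.L i).Th l k *ᵥ (X.C.mat _).i l *ᵥ V) fun z => lev (X.ψ i) z l k •
      (Matrix.diagonal fun r => (X.d r : ℂ)) *ᵥ (X.C.mat ℂ).i l *ᵥ f z := fun l k y => by
    rw [evr_mulVec, ev_Th, h1]
    ext r
    simp only [Matrix.mulVec_diagonal, Pi.smul_apply, smul_eq_mul]
    ring
  have h3 : ∀ (H : Matrix ρ ρ ℂ) (c : ℂ) u v, hp H u (c • v) = c * hp H u v := fun H c u v => by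
    simp [hp, Matrix.mulVec_smul]
  obtain ⟨h4, h5⟩ := q_nonneg (i := i) x.2 f
  change evr x _ = ((X.qq i f x : ℝ) : ℂ)
  rw [qq, Complex.ofReal_mul, Complex.ofReal_add, ← Complex.eq_re_of_ofReal_le h4,
    ← Complex.eq_re_of_ofReal_le h5, q1, q2, hp_kron _ _ fun l => dbv l f x,
    hp_kron _ _ fun k => (X.C.mat ℂ).i k *ᵥ f x, Finset.sum_comm (f := fun l k =>
      (lev (X.ψ i) x)ᵀ l k * _)]
  have h6 : ∀ l, VRep (dv ((X.L i).db l) V) (dbv l f) := fun l => (hf.dv l).2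
  simp only [map_add, map_sum, fun l => ev_hp Subset.rfl (h6 l) (ev_W Subset.rfl hf l) x,
    fun l k => ev_hp Subset.rfl (h1 k) (h2 l k) x, h3, ← Finset.mul_sum, ← mul_add]
  simp only [Wp, hp, Matrix.mulVec_sum, dotProduct_sum, Matrix.mulVec_smul, dotProduct_smul,
    smul_eq_mul, Matrix.transpose_apply, Matrix.mulVec_mulVec, mul_assoc]

theorem qq_cont (V : X.bun.Sec) (i : X.ι) : ContinuousOn (X.qq i (V.v i)) (X.W i) :=
  Complex.continuous_re.comp_continuousOn (rep_qq (sv_rep V i)).smooth.continuousOn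

theorem rep_hp (U V : X.bun.Sec) {u v : ρ → Sm (X.dom i)} (hu : VRep u (U.v i))
    (hv : VRep v (V.v i)) : ((X.L i).hp u v).Rep fun z =>
      (wt (X.bun.Ψ i) z : ℂ) * hp (X.bun.H i z) (U.v i z) (V.v i z) := ev_hp _ hu hv

theorem zc_supp {V : X.bun.Sec} (hV : X.bun.Supp V i C) (h : C ⊆ X.W i) {v : ρ → Sm (X.dom i)}
    (hv : VRep v (V.v i)) (r : ρ) : v r ∈ Zc (X.dom i) C := fun x hx =>
  (congrFun (hv x) r).trans (congrFun (hV.zero h hx) r)

variable (X) [CompactSpace Y] [T2Space Y] [BorelSpace Y]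

omit [CompactSpace Y] [T2Space Y] [BorelSpace Y] in
theorem exists_e [Nonempty Y] (hN : Even N) {r0 : ρ} (h0 : ∀ a s, X.C.e a r0 s = 0)
    (hd : X.d r0 = 0) : ∃ e : X.bun.Sec, e ≠ 0 ∧ X.D e = 0 ∧ X.P e = e ∧ X.Q e = e := by
  obtain ⟨τ, t0, t1, t2⟩ := Car.exists_top X.hC X.hd h0
  have t3 : ∀ c : ℕ → ℂ, (Matrix.diagonal fun r => c (X.d r)) *ᵥ τ = c 0 • τ := fun c =>
    funext fun r => by
      rw [Matrix.mulVec_diagonal, Pi.smul_apply, smul_eq_mul]
      by_cases h : τ r = 0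
      · rw [h, mul_zero, mul_zero]
      · rw [t1 r h, hd]
  have he : ∀ i, ∀ z ∈ X.W i, (X.bun.sec fun _ _ => τ).v i z = τ := fun i z hz =>
    Bun.sec_v ⟨fun _ => contDiffOn_const, fun i j z hz y hy e => by
      change _ = X.G i j z *ᵥ τ
      rw [G, ← Matrix.mulVec_mulVec, t2, Matrix.mulVec_smul, t3 (X.gg i j z), smul_smul, gg,
        pow_zero, one_mul, mul_inv_cancel₀ (det_ne hz ⟨y, hy, e.symm⟩), one_smul]⟩ hz
  generalize X.bun.sec (fun _ _ => τ) = e at he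
  refine ⟨e, fun h => ?_, Bun.Sec.ext' fun i z hz => ?_, Bun.Sec.ext' fun i z hz => ?_,
    Bun.Sec.ext' fun i z hz => ?_⟩
  · obtain ⟨⟨i, z⟩, hz, -⟩ := X.bun.exists_ch (Classical.arbitrary Y)
    exact t0 ((he i z hz).symm.trans (by rw [h, Bun.v_zero]))
  · have h1 := fun l => dzv_congr (mem_of_superset ((X.isOpen i).mem_nhds hz) (he i)) l
    have h2 : ∀ l, dzv l (fun _ : E N => τ) z = 0 ∧ dbv l (fun _ : E N => τ) z = 0 := fun l =>
      ⟨funext fun _ => (dz_const l _).1, funext fun _ => (dz_const l _).2⟩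
    rw [(X.D_loc i).eq _ z hz, Bun.v_zero, op, he i z hz, cc, Matrix.sum_mulVec]
    simp only [(h1 _).1, (h1 _).2, (h2 _).1, (h2 _).2, ← Matrix.mulVec_mulVec,
      fun l => t3 fun m => m * dr (X.ψ i) z l]
    simp
  · rw [(X.P_loc i).eq _ z hz, he i z hz, t2, Matrix.det_neg, Fintype.card_fin, hN.neg_one_pow,
      Matrix.det_one, one_mul, one_smul]
  · rw [Q, (X.F_loc _ i).eq _ z hz, he i z hz, t3 fun m => (-1) ^ m, pow_zero, one_smul]

theorem P_symm (V V' : X.bun.Sec) : ⟪X.P V, V'⟫_ℂ = ⟪V, X.P V'⟫_ℂ :=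
  Bun.sym0 (fun i => ⟨_, X.P_loc i, fun z _ => by
    change _ * X.H i z = X.H i z * _
    rw [Car.gam_h X.hC, Matrix.conjTranspose_neg, Matrix.conjTranspose_one, H, ← mul_assoc,
      ← (dg_gam (X := X) (fun m => (X.ww i z m : ℂ)) _).eq, mul_assoc,
      Car.par_gam, mul_assoc]⟩) V V'

theorem Q_symm (V V' : X.bun.Sec) : ⟪X.Q V, V'⟫_ℂ = ⟪V, X.Q V'⟫_ℂ :=
  Bun.sym0 (fun i => ⟨_, X.F_loc _ i, fun z _ => by
    have : (Matrix.diagonal fun r => (-1 : ℂ) ^ X.d r)ᴴ = Matrix.diagonal fun r => (-1) ^ X.d r := by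
      simp [Pi.star_def]
    rw [this]
    exact ((Matrix.commute_diagonal _ _).mul_right (dg_gam (fun m => (-1) ^ m) _)).eq⟩) V V'

theorem D_symm (U V : X.bun.Sec) : ⟪X.D U, V⟫_ℂ = ⟪U, X.D V⟫_ℂ := by
  obtain ⟨P⟩ := exists_PU X.bun
  rw [← P.decomp U, map_sum, sum_inner, sum_inner]
  refine Finset.sum_congr rfl fun a _ => ?_
  obtain ⟨h1, h2⟩ := tst_smul (X.isOpen _) (P.tst a) (U.smooth (P.c a))
  have hU := Bun.ex_supp (B := X.bun) h1 h2
  have hC : IsCompact (tsupport (P.τ a)) := (P.tst a).cpt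
  have h := (P.tst a).sub
  generalize X.bun.ex _ _ = U at hU ⊢
  generalize P.c a = i at hU h
  have hD := hU.map (fun j => ⟨_, _, _, X.D_loc j⟩) hC h
  have hu := zc_supp hU h (sv_rep U i)
  have h3 := (zc_hp (X.L i) (zc_supp hD h (rep_D (sv_rep U i))) (sv V i)).1
  have h4 := (zc_hp (X.L i) hu ((X.L i).D (sv V i))).1
  rw [Bun.inner_supp h hD, Bun.inner_supp h hU]
  refine (sint_rep (rep_hp _ _ (rep_D (sv_rep U i)) (sv_rep V i))).symm.trans
    (Eq.trans ?_ (sint_rep (rep_hp _ _ (sv_rep U i) (rep_D (sv_rep V i)))))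
  rw [← (sint_d hC h (fun k => (zc_hp (X.L i) (zc_mulVec ((X.C.mat _).i k) hu) (sv V i)).1) h3).2,
    ← (sint_d hC h (fun k => (zc_hp (X.L i) hu ((X.C.mat _).i k *ᵥ sv V i)).1) h4).1]
  congr 1
  exact sub_eq_sub_iff_add_eq_add.1 ((X.L i).hp_D _ _) |>.trans (add_comm _ _)

/-- The Bochner-Kodaira-Nakano identity. -/
theorem bkn (P : PU X.bun) (V : X.bun.Sec) :
    ‖X.D V‖ ^ 2 = ∑ a, ∫ z in X.W (P.c a), P.τ a z * X.qq (P.c a) (V.v (P.c a)) z := by
  have hθ : ∀ a, X.Smo (X.ext (P.c a) (P.τ a)) := fun a => (Man.ext_S (P.tst a)).1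
  have hF : ∀ a, X.bun.Fam fun j => X.Np j (fun t => X.ext (P.c a) (P.τ a) (X.p j t)) (V.v j) :=
    fun a => ⟨fun j => contDiffOn_pi.2 fun r => Sm.Rep.smooth (O := X.dom j) fun x => congrFun
      (ev_N Subset.rfl (sv_rep V j) (Sm.rep_mk _ (ofReal_smooth (hθ a j))) x) r,
      fun i j z hz y hy e => (op_cpt V.fam (hθ a) hz hy e).2⟩
  have h0 : ∑ a, X.bun.sec (fun j => X.Np j (fun t => X.ext (P.c a) (P.τ a) (X.p j t)) (V.v j)) =
      0 := Bun.Sec.ext' fun j y hy => by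
    have : ∀ l, ∑ a, dr (fun t => X.ext (P.c a) (P.τ a) (X.p j t)) y l = 0 := fun l => by
      refine (dz_sum _ (fun a _ => diffAt (X.isOpen j) (ofReal_smooth (hθ a j)) hy) l).1.symm.trans ?_
      simp only [← Complex.ofReal_sum, show ∀ x, ∑ a, X.ext (P.c a) (P.τ a) x = 1 from P.sum]
      exact (dz_const l _).1
    simp only [Bun.v_sum, fun a => Bun.sec_v (hF a) hy, Np]
    rw [Finset.sum_comm]
    simp only [← Finset.sum_smul, this, zero_smul, Finset.sum_const_zero, Bun.v_zero]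
  apply Complex.ofReal_injective
  rw [Complex.ofReal_pow, ← add_zero (((∑ a, _ : ℝ) : ℂ)), ← inner_zero_right (𝕜 := ℂ) V, ← h0,
    inner_sum, Complex.ofReal_sum, ← Finset.sum_add_distrib,
    show ((‖X.D V‖ : ℝ) : ℂ) ^ 2 = ⟪X.D V, X.D V⟫_ℂ from
      (inner_self_eq_norm_sq_to_K (𝕜 := ℂ) (X.D V)).symm,
    X.D_symm, P.inner]
  refine Finset.sum_congr rfl fun a _ => ?_
  have hC : IsCompact (tsupport (P.τ a)) := (P.tst a).cpt
  have h := (P.tst a).sub
  have hN : X.bun.Supp (X.bun.sec fun j =>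
      X.Np j (fun t => X.ext (P.c a) (P.τ a) (X.p j t)) (V.v j)) (P.c a) (tsupport (P.τ a)) := by
    intro j y hy hx
    have : (fun t => X.ext (P.c a) (P.τ a) (X.p j t)) =ᶠ[𝓝 y] fun _ => 0 := by
      filter_upwards [Man.contAt_p hy ((Man.cpt_img (D := X.toMan) hC
        h).1.isClosed.isOpen_compl.mem_nhds hx)] with t ht
      exact Man.ext_zero (fun _ _ => image_eq_zero_of_notMem_tsupport) ht
    simp [Bun.sec_v (hF a) hy, Np, (dr_congr this).self_of_nhds, dr_const]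
  have ht := Sm.rep_mk (O := X.dom (P.c a)) _ (ofReal_smooth (hθ a (P.c a)))
  have hn : VRep _ (Bun.Sec.v (X.bun.sec _) (P.c a)) := fun x =>
    (ev_N Subset.rfl (sv_rep V _) ht x).trans (Bun.sec_v (hF a) x.2).symm
  generalize Sm.mk _ _ = τ at ht hn
  replace ht : τ.Rep fun z => P.τ a z := fun x =>
    (ht x).trans (congrArg _ (Man.ext_apply (D := X.toMan) x.2))
  have hz : ∀ b, τ * b ∈ Zc (X.dom (P.c a)) (tsupport (P.τ a)) := fun b =>
    Ideal.mul_mem_right _ _ fun x hx => (ht x).trans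
      (Complex.ofReal_eq_zero.2 (image_eq_zero_of_notMem_tsupport hx))
  have hb := eq_sub_iff_add_eq.1 ((X.L (P.c a)).bkn_cut (τ := τ)
    (Sm.ext fun x => by rw [Sm.ev_star, ht, Complex.star_def, Complex.conj_ofReal]) (sv V _))
  have h1 := (sint_d hC h (fun _ => hz _) (hz _)).1.symm.trans ((congrArg sint hb).trans
    (sint_add hC h (hz _) (zc_hp _ (zc_supp hN h hn) _).2))
  refine (sint_rep fun x => ?_).symm.trans (h1.trans (congrArg₂ _ ((sint_rep fun x => ?_).trans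
    integral_ofReal) ((sint_rep (rep_hp _ _ (sv_rep V _) hn)).trans ?_)))
  · rw [map_mul, ht, rep_hp _ _ (sv_rep V _) (rep_D (rep_D (sv_rep V _)))]
    simp only [Complex.ofReal_mul, mul_assoc]
  · rw [map_mul, ht, rep_qq (sv_rep V _)]
    exact (Complex.ofReal_mul _ _).symm
  · rw [← inner_conj_symm, Bun.inner_supp h hN, ← integral_conj]
    refine setIntegral_congr_fun (X.isOpen _).measurableSet fun z hz => ?_
    simp only [map_mul, Complex.conj_ofReal]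
    exact congrArg _ (hp_star (H_pos hz).1 _ _).symm

omit [CompactSpace Y] [T2Space Y] [BorelSpace Y] in
theorem qq_int {τ : E N → ℝ} (hτ : Tst (X.W i) τ) (V : X.bun.Sec) :
    IntegrableOn (fun z => τ z * X.qq i (V.v i) z) (X.W i) volume :=
  intOn (X.isOpen i) hτ.cpt hτ.sub (hτ.smooth.continuous.continuousOn.mul (qq_cont V i))
    fun _ _ hz => by rw [image_eq_zero_of_notMem_tsupport hz, zero_mul]

theorem ell : X.bun.Ell X.D := by
  refine ⟨fun i => ⟨_, _, _, X.D_loc i⟩, X.D_symm, fun i C hC h => ?_⟩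
  obtain ⟨χ, d, h1, h2, hd, h3⟩ := exists_bump (X.isOpen i) hC h
  obtain ⟨m, c, τ, h4, h5, h6⟩ := Man.exists_pu (D := X.toMan) (θ := fun x => 1 - X.ext i χ x)
    ⟨fun j => contDiffOn_const.sub ((Man.ext_S h1).1 j), univ, isCompact_univ, X.cover.ge,
      fun x hx => (hx (mem_univ x)).elim⟩ fun x => sub_nonneg.2 (abpu_bd h2 x)
  let P : PU X.bun := ⟨m + 1, Fin.cons i c, Fin.cons χ τ, Fin.cases h1 h4,
    Fin.cases (fun z => (h2 z).1) h5, fun x => by
      rw [Fin.sum_univ_succ]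
      exact add_eq_of_eq_sub' (h6 x).symm⟩
  obtain ⟨e, he, h7⟩ := hp_lower (H := fun z => ((X.K i z)⁻¹)ᵀ ⊗ₖ X.H i z) hC
    (fun r s => (((X.kah i).inv_smooth s.1 r.1).mul (X.bun.H_smooth i r.2 s.2)).continuousOn.mono h)
    fun z hz => q1_pd (h hz)
  obtain ⟨w, hw, h8⟩ := hC.exists_forall_le' ((Man.abmeas_wt (X.bun.Ψ_cont i)).mono h)
    (a := 0) fun z _ => wt_pos _ z
  refine ⟨(w * e)⁻¹, by positivity, fun V r => ?_⟩
  rw [le_inv_mul_iff₀ (by positivity), ← integral_const_mul, X.bkn P V]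
  refine le_trans ?_ (Finset.single_le_sum (fun a _ => setIntegral_nonneg
    (X.isOpen _).measurableSet fun z hz => mul_nonneg (P.nonneg a z) (qq_nonneg hz _))
      (Finset.mem_univ (0 : Fin (m + 1))))
  refine le_trans ?_ (setIntegral_mono_set (X.qq_int h1 V) ((ae_restrict_iff'
    (X.isOpen i).measurableSet).2 (Eventually.of_forall fun z hz =>
      mul_nonneg (h2 z).1 (qq_nonneg hz _))) h.eventuallyLE)
  refine setIntegral_mono_on (((((db_smooth (X.isOpen i) (contDiffOn_pi.1 (V.smooth i)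
    r)).continuousOn.mono h).norm.pow 2).integrableOn_compact hC).const_mul _)
      ((X.qq_int h1 V).mono_set h) hC.measurableSet fun z hz => ?_
  change _ ≤ χ z * X.qq i (V.v i) z
  rw [h3 z hz z (mem_ball_self hd), one_mul, mul_assoc]
  refine mul_le_mul (h8 z hz) (le_add_of_le_of_nonneg (le_trans ?_ (h7 z hz _))
    (Complex.nonneg_iff.1 (q_nonneg (h hz) _).2).1) (by positivity) (wt_pos _ _).le
  gcongr
  exact (pi_norm_le_iff_of_nonneg (norm_nonneg _)).2 fun l =>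
    norm_le_pi_norm (fun q : Fin N × ρ => dbv q.1 (V.v i) z q.2) (l, r)

theorem l2 {r0 : ρ} (h0 : ∀ a s, X.C.e a r0 s = 0) {s : X.bun.Sec} {f : X.ι → E N → ℂ}
    (hs : ∀ i, ∀ z ∈ X.W i, s.v i z = Pi.single r0 (f i z)) {c : Y → ℝ} (hc : Continuous c)
    (hc0 : ∀ x, 0 ≤ c x) (h : ∀ i, ∀ z ∈ X.W i, ∀ ξ : E N,
      ‖ξ ⬝ᵥ star (db (f i) z)‖ ^ 2 * X.ww i z (X.d r0) ≤
        c (X.p i z) * X.d r0 * (hq (lev (X.ψ i) z) ξ ξ).re) (β : X.bun.Sec) :
    ‖⟪X.D s, β⟫_ℂ‖ ≤ √(∫ x, c x ∂X.ν) * ‖X.D β‖ := by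
  have h1 : ∀ i, ∀ z ∈ X.W i, ‖Bun.hG (X.D s) β (X.p i z)‖ = X.ww i z (X.d r0) *
      ‖(fun k => ((X.C.mat ℂ).i k *ᵥ β.v i z) r0) ⬝ᵥ star (db (f i) z)‖ := fun i z hz => by
    have a1 : (X.L i).del (sv s i) = 0 := LD.del_vac _ fun a => funext fun r => Sm.ext fun x => by
      have := congrFun ((Chg.comp_e (φ := evr x) (C := X.C) a (sv s i)).2) r
      rw [sv_rep, hs i x x.2, ← mul_one (f i x), ← smul_eq_mul, Pi.single_smul, Matrix.mulVec_smul,
        Car.i_single X.hC h0, smul_zero] at this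
      exact this.trans (map_zero _).symm
    have a2 := rep_hp β _ (sv_rep β i) (rep_D (sv_rep s i)) ⟨z, hz⟩
    have a3 : ∀ k, VRep ((X.C.mat _).i k *ᵥ sv β i) fun z => (X.C.mat ℂ).i k *ᵥ β.v i z :=
      fun k y => by rw [(Chg.comp_e _ _).2, sv_rep]
    have a4 : ∀ k, dbv k (s.v i) z = Pi.single r0 (db (f i) z k) := fun k => by
      rw [(dzv_congr (mem_of_superset ((X.isOpen i).mem_nhds hz) (hs i)) k).2]
      ext r
      by_cases hr : r = r0 <;> simp [dbv, db, hr, (dz_const k _).2]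
    rw [LD.D, a1, sub_zero, LD.hp_T_eq, map_sum] at a2
    have a5 := (Finset.sum_congr rfl fun k _ =>
      ev_hp Subset.rfl (a3 k) ((sv_rep s i).dv k).2 ⟨z, hz⟩).symm.trans a2
    rw [← Finset.mul_sum] at a5
    refine (congrArg _ (Bun.hG_chart (B := X.bun) _ _ hz)).trans ?_
    rw [← norm_star, hp_star (X.bun.H_pos i z hz).1,
      ← mul_left_cancel₀ (Complex.ofReal_ne_zero.2 (wt_pos _ _).ne') a5, ← norm_star (_ ⬝ᵥ _),
      ← Real.norm_of_nonneg (ww_pos _ _ _).le, ← Complex.norm_real, ← norm_mul]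
    simp only [a4, hp, H, X.gam_single h0, dotProduct_single]
    simp [dotProduct, Finset.mul_sum, mul_left_comm]
  have h5 : ∀ (t : ℝ) i, ∀ z ∈ X.W i, 2 * t * ‖Bun.hG (X.D s) β (X.p i z)‖ - t * t * c (X.p i z) ≤
      (X.q2 i (β.v i) z).re := fun t i z hz => by
    have b2 := mul_le_mul_of_nonneg_left (h i z hz fun k => ((X.C.mat ℂ).i k *ᵥ β.v i z) r0)
      (ww_pos i z (X.d r0)).le
    have b3 := mul_le_mul_of_nonneg_left (q2_ge h0 hz (β.v i)) (hc0 (X.p i z))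
    have b4 := (Complex.nonneg_iff.1 (q_nonneg hz (β.v i)).2).1
    have b5 : ‖Bun.hG (X.D s) β (X.p i z)‖ ^ 2 ≤ c (X.p i z) * (X.q2 i (β.v i) z).re := by
      rw [h1 i z hz]
      linarith
    have b6 := mul_nonneg (mul_self_nonneg t) (hc0 (X.p i z))
    refine sub_le_iff_le_add.2 (abs_le_of_sq_le_sq' ?_ (add_nonneg b4 b6)).2
    nlinarith [mul_le_mul_of_nonneg_left b5 (mul_self_nonneg t),
      sq_nonneg ((X.q2 i (β.v i) z).re - t * t * c (X.p i z))]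
  obtain ⟨P⟩ := exists_PU X.bun
  have hcs : ∀ w : Y → ℝ, X.Cs w := fun w =>
    ⟨univ, isCompact_univ, X.cover.ge, fun x hx => (hx (mem_univ x)).elim⟩
  have c1 : X.Cc fun x => ‖Bun.hG (X.D s) β x‖ :=
    (Bun.hG_cc (X.D s) β).map continuous_norm norm_zero
  have c2 : X.Cc c := Man.cc_of_cont hc.continuousOn (hcs c)
  have h2 : ∀ t : ℝ, 0 ≤ (∫ x, c x ∂X.ν) * (t * t) +
      -(2 * ∫ x, ‖Bun.hG (X.D s) β x‖ ∂X.ν) * t + ‖X.D β‖ ^ 2 := fun t => by
    have c3 : X.Cc fun x => 2 * t * ‖Bun.hG (X.D s) β x‖ - t * t * c x :=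
      ⟨fun i => (continuousOn_const.mul (c1.1 i)).sub (continuousOn_const.mul (c2.1 i)), hcs _⟩
    have h3 : ∫ x, _ ∂X.ν = _ := P.int c3
    rw [integral_sub ((c1.integrable X.den X.bun.Ψ_cont).const_mul _)
      ((c2.integrable X.den X.bun.Ψ_cont).const_mul _), integral_const_mul,
      integral_const_mul] at h3
    have h4 := h3.trans_le ((Finset.sum_le_sum fun a _ => ?_).trans (X.bkn P β).ge)
    · linarith
    refine setIntegral_mono_on (intOn (X.isOpen _) (P.tst a).cpt (P.tst a).sub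
      (((P.tst a).smooth.continuous.continuousOn.mul (Man.abmeas_wt (X.bun.Ψ_cont _))).smul
        (c3.1 _)) fun _ _ hz => by rw [image_eq_zero_of_notMem_tsupport hz, zero_mul, zero_smul])
      (X.qq_int (P.tst a) β) (X.isOpen _).measurableSet fun z hz => ?_
    rw [smul_eq_mul, mul_assoc]
    refine mul_le_mul_of_nonneg_left (mul_le_mul_of_nonneg_left (le_add_of_nonneg_of_le
      (Complex.nonneg_iff.1 (q_nonneg hz _).1).1 ?_) (wt_pos _ _).le) (P.nonneg a z)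
    exact h5 t _ z hz
  have h3 := discrim_le_zero h2
  refine (norm_integral_le_integral_norm _).trans (senorm_sqrt (integral_nonneg hc0)
    (norm_nonneg _) ?_)
  rw [discrim] at h3
  change (∫ x, ‖Bun.hG (X.D s) β x‖ ∂X.ν) ^ 2 ≤ _
  linarith

end Geo

end Pool.Agent.SE
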