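import Pool.Agent.P.MP_63735c_ag.SEGeo
import Pool.Agent.P.MP_63735c_ag.SPA3

/-! The local algebra on the ring of smooth functions of a chart. -/

open scoped ComplexOrder ContDiff Matrix Topology ENNReal InnerProductSpace
open Set Metric MeasureTheory Filter TopologicalSpace

namespace Pool.Agent.SE

open Pool.Agent.SPF Pool.Agent.AB

variable {N : ℕ} {ρ Y : Type} [Fintype ρ] [DecidableEq ρ]

section Alg

variable {R R' : Type} [CommRing R] [StarRing R] [Algebra ℂ R] [CommRing R'] [StarRing R']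
  [Algebra ℂ R'] {C : Car (Matrix ρ ρ ℤ) N}

omit [StarRing R] in
theorem der_det_inv (δ : Derivation ℂ R R) {J J' : Matrix (Fin N) (Fin N) R} (h : J * J' = 1) :
    δ J.det = J.det * (J' * J.map δ).trace := by
  have h1 : J.adjugate = J.det • J' := by
    rw [← mul_one J.adjugate, ← h, ← mul_assoc, Matrix.adjugate_mul, smul_mul_assoc, one_mul]
  rw [a3_der_det, Matrix.trace_mul_comm, Matrix.trace, Finset.mul_sum]
  refine Finset.sum_congr rfl fun i _ => ?_
  rw [← Matrix.cramer_transpose_apply, Matrix.cramer_eq_adjugate_mulVec,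
    ← Matrix.adjugate_transpose, h1]
  simp [Matrix.mulVec, dotProduct, Matrix.mul_apply, Finset.mul_sum, mul_comm, mul_left_comm,
    mul_assoc]

theorem chg_lam {L : LD R C} {L' : LD R' C} {φ : R' →+* R} {J J' : Matrix (Fin N) (Fin N) R}
    {g : R} {r : ρ} (chain : ∀ b a, L.d b (φ a) = ∑ c, J c b * φ (L'.d c a)) (inv : J * J' = 1)
    (db_J : ∀ k a b, L.db k (J a b) = 0) (db_g : ∀ k, L.db k g = 0) (hu : IsUnit (L.w r))
    (hw : L.w r = g * star g * (J.det * star J.det) * φ (L'.w r)) (b : Fin N) :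
    (∑ c, J c b * φ (L'.lam c r)) * g + L.d b g =
      (L.lam b r - (J' * J.map (L.d b)).trace) * g := by
  have h1 : L.d b (star g) = 0 := by rw [← L.star_db, db_g, star_zero]
  have h2 : L.d b (star J.det) = 0 := by
    have : J.map (L.db b) = 0 := by
      ext a c
      exact db_J b a c
    rw [← L.star_db, der_det_inv _ inv, this, mul_zero, Matrix.trace_zero, mul_zero, star_zero]
  have h3 : L.d b (φ (L'.w r)) = (∑ c, J c b * φ (L'.lam c r)) * φ (L'.w r) := by
    simp only [chain, L'.d_w, map_mul, Finset.sum_mul, mul_assoc]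
  have h4 := L.d_w b r
  rw [hw] at h4 hu
  simp only [Derivation.leibniz, smul_eq_mul, h1, h2, h3, der_det_inv _ inv] at h4
  have h5 : IsUnit (star g * (J.det * star J.det) * φ (L'.w r)) :=
    isUnit_of_mul_isUnit_right (x := g) (by simpa only [mul_assoc] using hu)
  refine h5.mul_right_cancel ?_
  linear_combination h4

theorem LD.map_hp (L : LD R C) {φ : R →+* ℂ} (h : ∀ a, φ (star a) = star (φ a)) (U V : ρ → R) :
    φ (L.hp U V) = SE.hp ((Matrix.diagonal L.w * L.G).map φ) (φ ∘ U) (φ ∘ V) := by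
  simp only [LD.hp, SE.hp, dotProduct, Matrix.mulVec, map_sum, map_mul, Pi.star_apply, h,
    Function.comp_apply, Matrix.map_apply]

end Alg

/-- Evaluation as a ring homomorphism. -/
noncomputable def evr {O : Opens (E N)} (x : O) : Sm O →+* ℂ := (Sm.ev x).toRingHom

/-- `V` is the restriction of `f`. -/
def VRep {O : Opens (E N)} (V : ρ → Sm O) (f : E N → ρ → ℂ) : Prop := ∀ x : O, evr x ∘ V = f x

/-- A smooth vector function as a vector of smooth functions. -/
noncomputable def mkV {O : Opens (E N)} (f : E N → ρ → ℂ) (hf : ContDiffOn ℝ ∞ f O) : ρ → Sm O :=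
  fun r => Sm.mk (fun z => f z r) (contDiffOn_pi.1 hf r)

section
variable {O : Opens (E N)} {V U : ρ → Sm O} {f u : E N → ρ → ℂ}

omit [DecidableEq ρ] in
theorem vrep_mk (hf : ContDiffOn ℝ ∞ f O) : VRep (mkV f hf) f := fun _ => rfl

omit [Fintype ρ] [DecidableEq ρ] in
theorem VRep.dv (h : VRep V f) (l : Fin N) :
    VRep (dv (Sm.d l) V) (dzv l f) ∧ VRep (dv (Sm.db l) V) (dbv l f) :=
  ⟨fun x => funext fun r => Sm.Rep.d (fun y => congrFun (h y) r) l x,
    fun x => funext fun r => Sm.Rep.db (fun y => congrFun (h y) r) l x⟩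

omit [DecidableEq ρ] in
theorem evr_mulVec (x : O) (A : Matrix ρ ρ (Sm O)) (V : ρ → Sm O) :
    evr x ∘ (A *ᵥ V) = A.map (evr x) *ᵥ (evr x ∘ V) :=
  funext fun r => RingHom.map_mulVec _ _ _ r

end

variable [TopologicalSpace Y] [MeasurableSpace Y]

namespace Geo

variable (X : Geo Y N ρ) (i : X.ι)

/-- The logarithm of the weight. -/
noncomputable def uu (r : ρ) (z : E N) : ℝ := X.d r * X.ψ i z

theorem uu_smooth (r : ρ) : ContDiffOn ℝ ∞ (X.uu i r) (X.W i) :=
  contDiffOn_const.mul (X.ψ_smooth i)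

theorem uu_eq {a : Fin N} {r s : ρ} (e : X.C.e a r s ≠ 0) : X.uu i r = X.uu i s :=
  funext fun z => by rw [uu, uu, X.hd a r s e]

/-- The chart domain. -/
def dom : Opens (E N) := ⟨X.W i, X.isOpen i⟩

/-- The antiholomorphic derivative with a raised index. -/
noncomputable def Wp (l : Fin N) (f : E N → ρ → ℂ) (z : E N) : ρ → ℂ :=
  ∑ k, (X.K i z)⁻¹ k l • dbv k f z

/-- The local data on an open part of a chart. -/
noncomputable def ld {O : Opens (E N)} (h : (O : Set (E N)) ⊆ X.W i) : LD (Sm O) X.C where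
  hC := X.hC
  d := Sm.d
  db := Sm.db
  star_d := Sm.star_d
  d_db := Sm.d_db
  d_d := Sm.d_d
  M := Matrix.of fun a b => Sm.mk (fun z => X.K i z b a) (((X.kah i).smooth b a).mono h)
  M' := Matrix.of fun a b => Sm.mk (fun z => (X.K i z)⁻¹ b a) (((X.kah i).inv_smooth b a).mono h)
  inv := by
    ext a b x
    have := congrFun (congrFun (Matrix.nonsing_inv_mul _ ((Matrix.isUnit_iff_isUnit_det _).1
      ((X.kah i).pos x (h x.2)).isUnit)) b) a
    simpa [Matrix.mul_apply, Matrix.one_apply, apply_ite (Sm.ev x), mul_comm, eq_comm] using this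
  herm := by
    ext a b x
    exact ((X.kah i).pos x (h x.2)).1.apply b a
  closed l a b := by
    ext x
    rw [Matrix.of_apply, Matrix.of_apply, (Sm.rep_mk _ _).d l x, (Sm.rep_mk _ _).d b x]
    exact (X.kah i).closed x (h x.2) b a l
  w r := Sm.mk (fun z => (wt (X.uu i r) z : ℂ)) (ofReal_smooth ((wt_smooth (X.uu_smooth i r)).mono h))
  lam l r := -Sm.d l (Sm.mk (fun z => (X.uu i r z : ℂ)) (ofReal_smooth ((X.uu_smooth i r).mono h)))
  star_w r := by
    ext x
    simp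
  d_w l r := by
    ext x
    have := congrFun (dr_wt (diffAt (X.isOpen i) (X.uu_smooth i r) (h x.2))) l
    rw [(Sm.rep_mk _ _).d l x, map_mul, map_neg, (Sm.rep_mk _ _).d l x]
    simpa [dr, mul_comm] using this
  lam_symm l k r := by rw [map_neg, map_neg, Sm.d_d]
  w_eq a r s e := by simp only [X.uu_eq i e]
  lam_eq l a r s e := by simp only [X.uu_eq i e]

variable {X i} {O : Opens (E N)} (h : (O : Set (E N)) ⊆ X.W i) {V U : ρ → Sm O}
  {f u : E N → ρ → ℂ}

theorem ev_lam (x : O) (l : Fin N) (r : ρ) :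
    evr x ((X.ld i h).lam l r) = -(X.d r * dr (X.ψ i) x l) := by
  have h1 := diffAt (X.isOpen i) (ofReal_smooth (X.ψ_smooth i)) (h x.2)
  refine (map_neg _ _).trans (congrArg Neg.neg (((Sm.rep_mk _ _).d l x).trans ?_))
  simp only [uu, Complex.ofReal_mul, Complex.ofReal_natCast, dr]
  rw [(dz_mul (differentiableAt_const _) h1 l).1, (dz_const l _).1, zero_mul, zero_add]

theorem ev_Th (x : O) (l k : Fin N) : ((X.ld i h).Th l k).map (evr x) =
    Matrix.diagonal fun r => X.d r * lev (X.ψ i) x l k := by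
  have hx := (X.isOpen i).mem_nhds (h x.2)
  have h1 := (X.ψ_smooth i).contDiffAt hx
  rw [LD.Th, Matrix.diagonal_map (map_zero _)]
  congr 1
  funext r
  have h2 : lev (X.uu i r) x l k = X.d r * lev (X.ψ i) x l k :=
    (congrFun (congrFun (lev_smul h1 (X.d r : ℝ)) l) k).trans (by simp)
  rw [← h2, lev_apply, ← ((Sm.rep_mk _ (ofReal_smooth ((X.uu_smooth i r).mono h))).db k).d l x,
    Sm.d_db]
  simp [ld, evr]

theorem ev_H (x : O) : (Matrix.diagonal (X.ld i h).w * (X.ld i h).G).map (evr x) =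
    (wt (X.Ψ i) x : ℂ) • X.H i x := by
  rw [Matrix.map_mul, LD.G, Car.mat_gam, Matrix.diagonal_map (map_zero _), H, ← smul_mul_assoc,
    ← Matrix.diagonal_smul]
  congr 2
  funext r
  change ((wt (X.uu i r) x : ℝ) : ℂ) = _
  rw [wt, uu, ← wt_ww, Complex.ofReal_mul]
  rfl

theorem ev_hp (hu : VRep U u) (hf : VRep V f) (x : O) :
    evr x ((X.ld i h).hp U V) = wt (X.Ψ i) x * hp (X.H i x) (u x) (f x) := by
  rw [LD.map_hp _ fun _ => rfl, ev_H, hu, hf, hp, hp, Matrix.smul_mulVec, dotProduct_smul,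
    smul_eq_mul]

theorem ev_W (hf : VRep V f) (l : Fin N) : VRep ((X.ld i h).W l V) (X.Wp i l f) := fun x => by
  ext r
  simp only [LD.W, Wp, Function.comp_apply, Finset.sum_apply, Pi.smul_apply, smul_eq_mul, map_sum,
    map_mul, ← (hf.dv _).2 x]
  rfl

theorem ev_D (hf : VRep V f) : VRep ((X.ld i h).D V) (op X.ca (X.cb i) (X.cc i) f) := fun x => by
  have h1 : ∀ k, ((X.ld i h).up k).map (evr x) = X.cb i k x := fun k => by
    ext r s
    simp [LD.up, cb, Car.ev, Matrix.sum_apply, Car.mat_e, ld, evr]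
  have h2 : ∀ l, evr x ∘ (X.ld i h).dl l V = dzv l f x - (Matrix.diagonal fun r =>
      X.d r * dr (X.ψ i) x l) *ᵥ f x := fun l => by
    ext r
    rw [Function.comp_apply, LD.dl_apply, map_add, map_mul, ev_lam, ← (hf.dv l).1 x, ← hf x,
      Pi.sub_apply, Matrix.mulVec_diagonal, neg_mul, sub_eq_add_neg]
    rfl
  have h3 : evr x ∘ (X.ld i h).D V = evr x ∘ (X.ld i h).T V - evr x ∘ (X.ld i h).del V := by
    ext r
    simp [LD.D]
  have h4 : ∀ k, evr x ∘ dv ((X.ld i h).db k) V = dbv k f x := fun k => (hf.dv k).2 x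
  simp only [h3, LD.T, LD.del, Chg.comp_sum, (Chg.comp_e _ _).2, h2]
  simp only [evr_mulVec, h1, h4, op, ca, cc, Matrix.mulVec_sub, Matrix.neg_mulVec,
    Matrix.sum_mulVec, Matrix.mulVec_mulVec, Finset.sum_add_distrib, Finset.sum_sub_distrib,
    Finset.sum_neg_distrib]
  abel

/-- The contraction of `Wp` with the derivative of a function. -/
noncomputable def Np (X : Geo Y N ρ) (i : X.ι) (t : E N → ℝ) (f : E N → ρ → ℂ) (z : E N) : ρ → ℂ :=
  ∑ l, dr t z l • X.Wp i l f z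

theorem ev_N (hf : VRep V f) {τ : Sm O} {t : E N → ℝ} (ht : τ.Rep fun z => t z) :
    VRep ((X.ld i h).Nt τ V) (X.Np i t f) := fun x => by
  ext r
  simp only [LD.Nt, Np, Function.comp_apply, Finset.sum_apply, Pi.smul_apply, smul_eq_mul, map_sum,
    map_mul, ← ev_W h hf _ x, dr, ← ht.d _ x]
  rfl

/-- The overlap of two charts. -/
def ov (X : Geo Y N ρ) (i j : X.ι) : Opens (E N) :=
  ⟨X.W i ∩ X.p i ⁻¹' (X.p j '' X.W j),
    (X.cont i).isOpen_inter_preimage (X.isOpen i) (X.isOpen_img j)⟩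

variable {j : X.ι}

theorem ov_Ch {z : E N} (hz : z ∈ X.ov i j) : X.Ch i j z (X.ch i j) := by
  obtain ⟨h1, y, hy, e⟩ := hz
  exact ch_Ch h1 hy e.symm

theorem ov_hol : DifferentiableOn ℂ (X.ch i j) (X.ov i j) := fun _ hz =>
  (ov_Ch hz).self_of_nhds.1.differentiableWithinAt

theorem ov_maps : MapsTo (X.ch i j) (X.ov i j) (X.dom j) := fun _ hz => (ov_Ch hz).self_of_nhds.2.1

theorem chg (i j : X.ι) : ∃ (J J' : Matrix (Fin N) (Fin N) (Sm (X.ov i j))) (g : ρ → Sm (X.ov i j)),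
    Chg (X.ld i inter_subset_left) (X.ld j (O := X.dom j) Subset.rfl)
      (Sm.pull (X.ch i j) ov_hol ov_maps).toRingHom J J' g ∧
    ∀ x : X.ov i j, (Matrix.diagonal g * (X.C.mat _).gam J).map (evr x) = X.G i j x := by
  let J : Matrix (Fin N) (Fin N) (Sm (X.ov i j)) := Matrix.of (Sm.J (X.ch i j) ov_hol)
  have hJ : ∀ x : X.ov i j, J.map (evr x) = jac (X.ch i j) x := fun x => rfl
  have hdet : ∀ x : X.ov i j, evr x J.det = (jac (X.ch i j) x).det := fun x => by
    rw [RingHom.map_det, ← hJ]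
    rfl
  have hd0 : ∀ x : X.ov i j, Sm.ev x J.det ≠ 0 := fun x h0 =>
    det_ne x.2.1 x.2.2 ((hdet x).symm.trans h0)
  have hg : ∀ r, DifferentiableOn ℂ (fun z => X.gg i j z (X.d r)) (X.ov i j) :=
    fun r z hz => ((hol_ev hz.1 hz.2).self_of_nhds.2 _).differentiableWithinAt
  have hinv : J * (J.det.inv hd0 • J.adjugate) = 1 := by
    rw [mul_smul_comm, Matrix.mul_adjugate, smul_smul, mul_comm, Sm.mul_inv, one_smul]
  have hdg : ∀ k r, Sm.db k (Sm.mkH _ (hg r)) = 0 := fun k r => (Sm.rep_mkH _ _).db_eq_zero (hg r) k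
  refine ⟨J, _, fun r => Sm.mkH _ (hg r), ⟨Sm.pull_star _ _, fun b a => Sm.d_pull _ _ a b, hinv,
    fun k a b => Sm.db_J ov_hol a b k, fun l a b => ?_, ?_, hdg, fun a r s e => ?_, fun b r =>
    chg_lam (fun b a => Sm.d_pull _ _ a b) hinv (fun k a b => Sm.db_J ov_hol a b k) (hdg · r)
      ?_ ?_ b⟩,
    fun x => ?_⟩
  · have : ∀ a b, J a b = Sm.d b (Sm.mkH _ (differentiableOn_pi.1 ov_hol a)) := fun a b => by
      ext x
      have hx := (ov_Ch x.2).self_of_nhds.1
      rw [(Sm.rep_mkH _ _).d b x, (dz_of_diff (differentiableAt_pi.1 hx a) b).1,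
        (hasFDerivAt_pi'.1 hx.hasFDerivAt a).fderiv]
      rfl
    rw [this, this]
    exact Sm.d_d _ _ _
  · ext a b x
    have h1 := congrFun (congrFun (X.K_cpt i j x x.2.1 _ (ov_Ch x.2)) b) a
    simp only [Matrix.mul_apply, Finset.sum_mul, Matrix.transpose_apply, Matrix.map_apply] at h1
    change X.K i x b a = _
    simp only [h1, Matrix.mul_apply, map_sum, map_mul, Finset.sum_mul,
      Matrix.conjTranspose_apply, Matrix.map_apply, Sm.ev_star]
    rw [Finset.sum_comm]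
    refine Finset.sum_congr rfl fun c _ => Finset.sum_congr rfl fun e _ => ?_
    rw [mul_comm, mul_comm (jac _ _ _ _), ← mul_assoc]
    exact congrArg₂ _ (congrArg₂ _ rfl (Sm.ev_pull ov_hol ov_maps ((X.ld j Subset.rfl).M e c) x).symm)
      rfl
  · simp only [X.hd a r s e]
  · exact IsUnit.of_mul_eq_one _ (Sm.mul_inv _ fun x => Complex.ofReal_ne_zero.2 (wt_pos _ _).ne')
  · ext x
    obtain ⟨-, h2, h3⟩ := (ov_Ch x.2).self_of_nhds
    have h6 : wt (X.uu i r) x = ‖X.gg i j x (X.d r)‖ ^ 2 *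
        ‖(jac (X.ch i j) x).det‖ ^ 2 * wt (X.uu j r) (X.ch i j x) := by
      rw [wt, wt, uu, uu, ← wt_ww, ← wt_ww, ww_eq x.2.1 h2 h3.symm,
        X.Ψ_cpt i j x x.2.1 _ (ov_Ch x.2)]
      ring
    simp only [map_mul, Sm.ev_star]
    rw [show Sm.ev x J.det = _ from hdet x]
    refine (congrArg ((↑) : ℝ → ℂ) h6).trans ?_
    rw [Complex.ofReal_mul, Complex.ofReal_mul, Complex.ofReal_pow, Complex.ofReal_pow,
      ← Complex.mul_conj', ← Complex.mul_conj']
    exact congrArg₂ _ rfl (Sm.ev_pull ov_hol ov_maps ((X.ld j Subset.rfl).w r) x).symm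
  · rw [Matrix.map_mul, Car.mat_gam, Matrix.diagonal_map (map_zero _)]
    rfl

/-- The operators are compatible with changes of charts. -/
theorem op_cpt {V : X.ι → E N → ρ → ℂ} (hV : X.bun.Fam V) {θ : Y → ℝ} (hθ : X.Smo θ) {z y : E N}
    (hz : z ∈ X.W i) (hy : y ∈ X.W j) (e : X.p i z = X.p j y) :
    op X.ca (X.cb j) (X.cc j) (V j) y = X.G i j z *ᵥ op X.ca (X.cb i) (X.cc i) (V i) z ∧
      X.Np j (fun t => θ (X.p j t)) (V j) y =
        X.G i j z *ᵥ X.Np i (fun t => θ (X.p i t)) (V i) z := by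
  obtain ⟨J, J', g, hc, hG⟩ := chg i j
  have hi := vrep_mk (O := X.ov i j) ((hV.smooth i).mono inter_subset_left)
  have hj := vrep_mk (O := X.dom j) (hV.smooth j)
  have hp : ∀ (x : X.ov i j) (U : ρ → Sm (X.dom j)),
      evr x ∘ (Sm.pull (X.ch i j) ov_hol ov_maps).toRingHom ∘ U = evr ⟨_, ov_maps x.2⟩ ∘ U :=
    fun x U => funext fun r => Sm.ev_pull _ _ _ x
  have he : (Sm.pull (X.ch i j) ov_hol ov_maps).toRingHom ∘ mkV (O := X.dom j) (V j) (hV.smooth j) =
      (Matrix.diagonal g * (X.C.mat _).gam J) *ᵥ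
        mkV (V i) ((hV.smooth i).mono inter_subset_left) := by
    ext r x
    obtain ⟨-, h2, h3⟩ := (ov_Ch x.2).self_of_nhds
    have h4 := evr_mulVec x (Matrix.diagonal g * (X.C.mat _).gam J)
      (mkV (V i) ((hV.smooth i).mono inter_subset_left))
    rw [hG, hi] at h4
    exact (congrFun ((hp x _).trans ((hj _).trans (hV.cpt i j x x.2.1 _ h2 h3.symm))) r).trans
      (congrFun h4 r).symm
  let x : X.ov i j := ⟨z, hz, y, hy, e.symm⟩
  have ht := Sm.rep_mk (O := X.dom j) _ (ofReal_smooth (hθ j))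
  have h1 := congrArg (evr x ∘ ·) (hc.D_eq he)
  have h2 := congrArg (evr x ∘ ·) (hc.Nt_eq he (Sm.mk _ (ofReal_smooth (hθ j))))
  have ht' : Sm.Rep (Sm.pull (X.ch i j) ov_hol ov_maps (Sm.mk _ (ofReal_smooth (hθ j))))
      fun t => θ (X.p i t) := fun w => by
    rw [ht.pull ov_hol ov_maps w]
    simp only [(ov_Ch w.2).self_of_nhds.2.2]
  simp only [hp, evr_mulVec, hG] at h1 h2
  rw [ev_D _ hj, ev_D _ hi] at h1
  rw [ev_N _ hj ht] at h2
  simp only [x, ch_eq hy e] at h1 h2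
  exact ⟨h1, h2.trans (congrArg _ (ev_N _ hi ht' x))⟩

end Geo

end Pool.Agent.SE
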