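import Pool.Agent.P.MP_63735c_ag.SEOp

/-! Sections supported in a chart. -/

open scoped ComplexOrder ContDiff Matrix Topology ENNReal InnerProductSpace
open Set Metric MeasureTheory Filter

namespace Pool.Agent.SE

open Pool.Agent.SPF Pool.Agent.AB

variable {N : ℕ} {ρ Y : Type} [Fintype ρ] [DecidableEq ρ] [TopologicalSpace Y] [MeasurableSpace Y]
  [T2Space Y] {B : Bun Y N ρ} {i : B.ι} {C : Set (E N)} {f g : E N → ρ → ℂ} {V V' : B.Sec}

namespace Bun

theorem ex_fam (hf : Tst (B.W i) f) :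
    B.Fam fun j y => B.ext i (fun z => B.G i j z *ᵥ f z) (B.p j y) := by
  refine ⟨fun j y hy => ContDiffAt.contDiffWithinAt ?_, fun j k z hz y hy e => ?_⟩
  · obtain ⟨h1, -⟩ := Man.cpt_img (D := B.toMan) hf.cpt.isCompact hf.sub
    have h0 : ∀ z ∈ B.W i, z ∉ tsupport f → B.G i j z *ᵥ f z = 0 := fun z _ hz => by
      rw [image_eq_zero_of_notMem_tsupport hz, Matrix.mulVec_zero]
    by_cases hx : B.p j y ∈ B.p i '' tsupport f
    · obtain ⟨z, hz, e⟩ := hx
      have hs : ContDiffAt ℝ ∞ (fun t => B.G i j t *ᵥ f t) z := contDiffAt_pi.2 fun r => by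
        simp only [Matrix.mulVec, dotProduct]
        exact ContDiffAt.sum fun s _ => (B.G_smooth i j z (hf.sub hz) ⟨y, hy, e.symm⟩ r s).mul
          (contDiffAt_pi.1 hf.smooth.contDiffAt s)
      refine Man.smoAt hy (hf.sub hz) e.symm (hs.congr_of_eventuallyEq ?_)
      filter_upwards [(B.isOpen i).mem_nhds (hf.sub hz)] with t ht
      exact Man.ext_apply ht
    · refine (contDiffAt_const (c := (0 : ρ → ℂ))).congr_of_eventuallyEq ?_
      filter_upwards [Man.contAt_p hy (h1.isClosed.isOpen_compl.mem_nhds hx)] with t ht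
      exact Man.ext_zero h0 ht
  · by_cases h : B.p j z ∈ B.p i '' B.W i
    · obtain ⟨t, ht, e'⟩ := h
      rw [← e, ← e', Man.ext_apply ht, Man.ext_apply ht, Matrix.mulVec_mulVec,
        B.G_mul i j k t ht z hz e' ⟨y, hy, (e'.trans e).symm⟩]
    · rw [← e, Man.ext_out h, Man.ext_out h, Matrix.mulVec_zero]

theorem seex_v (hf : Tst (B.W i) f) {j : B.ι} {y : E N} (hy : y ∈ B.W j) :
    (B.ex i f).v j y = B.ext i (fun z => B.G i j z *ᵥ f z) (B.p j y) := sec_v (ex_fam hf) hy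

theorem ex_self (hf : Tst (B.W i) f) {z : E N} (hz : z ∈ B.W i) : (B.ex i f).v i z = f z := by
  rw [seex_v hf hz, Man.ext_apply hz, B.G_self i z hz, Matrix.one_mulVec]

theorem ex_supp (hf : Tst (B.W i) f) (hC : tsupport f ⊆ C) : B.Supp (B.ex i f) i C := by
  intro j y hy hx
  rw [seex_v hf hy]
  exact Man.ext_zero (fun z _ hz => by
    rw [image_eq_zero_of_notMem_tsupport fun h => hz (hC h), Matrix.mulVec_zero]) hx

omit [T2Space Y] in
theorem Supp.ext (h : B.Supp V i C) (h' : B.Supp V' i C) (hC : C ⊆ B.W i)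
    (e : ∀ z ∈ B.W i, V.v i z = V'.v i z) : V = V' := by
  refine Sec.ext' fun j y hy => ?_
  by_cases hx : B.p j y ∈ B.p i '' C
  · obtain ⟨z, hz, e'⟩ := hx
    rw [V.fam.2 i j z (hC hz) y hy e', V'.fam.2 i j z (hC hz) y hy e', e z (hC hz)]
  · rw [h j y hy hx, h' j y hy hx]

omit [T2Space Y] in
theorem Supp.sub (h : B.Supp V i C) (h' : B.Supp V' i C) : B.Supp (V - V') i C := by
  intro j y hy hx
  rw [v_sub, h j y hy hx, h' j y hy hx, sub_zero]

omit [T2Space Y] in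
theorem Supp.mono {C' : Set (E N)} (h : B.Supp V i C) (hC : C ⊆ C') : B.Supp V i C' := by
  exact fun j y hy hx => h j y hy fun h' => hx (image_mono hC h')

omit [T2Space Y] in
theorem Supp.zero (h : B.Supp V i C) (hC : C ⊆ B.W i) {z : E N} (hz : z ∉ C) : V.v i z = 0 := by
  by_cases hw : z ∈ B.W i
  · exact h i z hw fun ⟨t, ht, e⟩ => hz (B.inj i (hC ht) hw e ▸ ht)
  · exact V.out hw

theorem Supp.map {D : B.Sec →ₗ[ℂ] B.Sec} (hD : ∀ j, ∃ a b c, B.Loc D j a b c) (hC : IsCompact C)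
    (hs : C ⊆ B.W i) (h : B.Supp V i C) : B.Supp (D V) i C := by
  intro j y hy hx
  obtain ⟨a, b, c, hl⟩ := hD j
  obtain ⟨h1, -⟩ := Man.cpt_img (D := B.toMan) hC hs
  rw [hl.eq V y hy]
  refine op_zero ?_
  filter_upwards [Man.contAt_p hy (h1.isClosed.isOpen_compl.mem_nhds hx),
    (B.isOpen j).mem_nhds hy] with t ht ht'
  exact h j t ht' ht

theorem ex_add (hf : Tst (B.W i) f) (hg : Tst (B.W i) g) :
    B.ex i (fun y => f y + g y) = B.ex i f + B.ex i g := by
  have ht := (tst_add hf hg).1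
  refine Supp.ext (ex_supp ht ht.sub) (fun j y hy hx => ?_) Subset.rfl fun z hz => ?_
  · rw [v_add, ex_supp hf hf.sub j y hy hx, ex_supp hg hg.sub j y hy hx, add_zero]
  · rw [v_add, ex_self ht hz, ex_self hf hz, ex_self hg hz]

theorem ex_smul (hf : Tst (B.W i) f) (t : ℂ) : B.ex i (fun y => t • f y) = t • B.ex i f := by
  have ht := (tst_const_smul hf t).1
  refine Supp.ext (ex_supp ht ht.sub) (fun j y hy hx => ?_) Subset.rfl fun z hz => ?_
  · rw [v_smul, ex_supp hf hf.sub j y hy hx, smul_zero]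
  · rw [v_smul, ex_self ht hz, ex_self hf hz]

/-- The operator applied to a section supported in a chart. -/
theorem Loc.ex_v {D : B.Sec →ₗ[ℂ] B.Sec} {a b : Fin N → E N → Matrix ρ ρ ℂ}
    {c : E N → Matrix ρ ρ ℂ} (hD : B.Loc D i a b c) (hf : Tst (B.W i) f) {z : E N}
    (hz : z ∈ B.W i) : (D (B.ex i f)).v i z = op a b c f z := by
  rw [hD.eq _ z hz]
  refine op_congr ?_
  filter_upwards [(B.isOpen i).mem_nhds hz] with t ht
  exact ex_self hf ht

theorem ex_mul {τ : E N → ℝ} (hτ : Tst (B.W i) τ) (V : B.Sec) {j : B.ι} {y : E N}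
    (hy : y ∈ B.W j) :
    (B.ex i fun z => τ z • V.v i z).v j y = B.ext i τ (B.p j y) • V.v j y := by
  rw [seex_v (tst_smul (B.isOpen i) hτ (V.smooth i)).1 hy]
  by_cases h : B.p j y ∈ B.p i '' B.W i
  · obtain ⟨z, hz, e⟩ := h
    rw [← e, Man.ext_apply hz, Man.ext_apply hz, V.fam.2 i j z hz y hy e, Matrix.mulVec_smul]
  · rw [Man.ext_out h, Man.ext_out h, zero_smul]

end Bun

theorem PU.decomp (P : PU B) (V : B.Sec) :
    ∑ a, B.ex (P.c a) (fun z => P.τ a z • V.v (P.c a) z) = V := by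
  refine Bun.Sec.ext' fun j y hy => ?_
  rw [Bun.v_sum]
  simp only [Bun.ex_mul (P.tst _) V hy]
  rw [← Finset.sum_smul, P.sum, one_smul]


end Pool.Agent.SE
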