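import Pool.Agent.P.MP_63735c_ag.SEOp
import Pool.Agent.P.MP_63735c_ag.ABPU
import Pool.Agent.P.MP_63735c_ag.ABInt

/-! The norm of a section and integrals in charts. -/

open scoped ComplexOrder ContDiff Matrix Topology ENNReal InnerProductSpace
open Set Metric MeasureTheory Filter

namespace Pool.Agent.SE

open Pool.Agent.SPF Pool.Agent.AB

variable {N : ℕ} {ρ Y : Type} [Fintype ρ] [DecidableEq ρ] [TopologicalSpace Y] [MeasurableSpace Y]
  [CompactSpace Y] [T2Space Y] [BorelSpace Y] {B : Bun Y N ρ}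
  {i : B.ι} {C : Set (E N)}

omit [BorelSpace Y] in
theorem senorm_pu (B : Bun Y N ρ) : Nonempty (PU B) := by
  obtain ⟨m, c, τ, h1, h2, h3⟩ := Man.exists_pu (D := B.toMan) (θ := fun _ => (1 : ℝ))
    ⟨fun _ => contDiffOn_const, univ, isCompact_univ, B.cover.ge,
      fun x hx => (hx (mem_univ x)).elim⟩ fun _ => zero_le_one
  exact ⟨⟨m, c, τ, h1, h2, fun x => (h3 x).symm⟩⟩

theorem exists_PU (B : Bun Y N ρ) : Nonempty (PU B) := senorm_pu B

theorem PU.int (P : PU B) {F : Type} [NormedAddCommGroup F] [NormedSpace ℝ F]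
    [SecondCountableTopology F] {f : Y → F} (hf : B.Cc f) : ∫ x, f x ∂B.ν =
      ∑ a, ∫ z in B.W (P.c a), (P.τ a z * wt (B.Ψ (P.c a)) z) • f (B.p (P.c a) z) := by
  have e : ∀ x, f x = ∑ a, B.ext (P.c a) (P.τ a) x • f x := fun x => by
    rw [← Finset.sum_smul, P.sum, one_smul]
  have hc : ∀ a, B.Cc fun x => B.ext (P.c a) (P.τ a) x • f x := fun a =>
    (Man.ext_S (P.tst a)).cc.map₂ hf.1 (l := fun t u => t • u) continuous_smul
      fun u => zero_smul _ u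
  rw [integral_congr_ae (Eventually.of_forall e),
    integral_finsetSum _ fun a _ => (hc a).integrable B.den B.Ψ_cont]
  refine Finset.sum_congr rfl fun a _ => ?_
  rw [B.den.int_supp (B.Ψ_cont (P.c a)) fun x hx => by rw [Man.ext_out hx, zero_smul]]
  refine setIntegral_congr_fun (B.isOpen _).measurableSet fun z hz => ?_
  simp only [Man.ext_apply hz, smul_smul, mul_comm]

theorem PU.inner (P : PU B) (V V' : B.Sec) : ⟪V, V'⟫_ℂ =
    ∑ a, ∫ z in B.W (P.c a), ((P.τ a z * wt (B.Ψ (P.c a)) z : ℝ) : ℂ) *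
      hp (B.H (P.c a) z) (V.v (P.c a) z) (V'.v (P.c a) z) := by
  rw [Bun.inner_def, P.int (Bun.hG_cc V V')]
  refine Finset.sum_congr rfl fun a _ => ?_
  refine setIntegral_congr_fun (B.isOpen _).measurableSet fun z hz => ?_
  simp only [Bun.hG_chart V V' hz, Complex.real_smul]

theorem senorm_sqrt {A x y : ℝ} (hA : 0 ≤ A) (hy : 0 ≤ y) (h : x ^ 2 ≤ A * y ^ 2) :
    x ≤ √A * y :=
  (Real.le_sqrt_of_sq_le h).trans_eq (by rw [Real.sqrt_mul hA, Real.sqrt_sq hy])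

omit [CompactSpace Y] [T2Space Y] [BorelSpace Y] in
theorem senorm_sq (hC : IsCompact C) (h : C ⊆ B.W i) (V : B.Sec) :
    IntegrableOn (fun z => ‖V.v i z‖ ^ 2) C volume :=
  (((V.smooth i).continuousOn.mono h).norm.pow 2).integrableOn_compact hC

omit [CompactSpace Y] [T2Space Y] [BorelSpace Y] in
theorem senorm_cont (V : B.Sec) (i : B.ι) : ContinuousOn
    (fun z => wt (B.Ψ i) z * (hp (B.H i z) (V.v i z) (V.v i z)).re) (B.W i) :=
  (Man.abmeas_wt (B.Ψ_cont i)).mul (Complex.continuous_re.comp_continuousOn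
    (hp_contOn (fun r s => (B.H_smooth i r s).continuousOn) (V.smooth i).continuousOn
      (V.smooth i).continuousOn))

omit [CompactSpace Y] [T2Space Y] [BorelSpace Y] in
theorem senorm_up (hC : IsCompact C) (h : C ⊆ B.W i) : ∃ A : ℝ, 0 < A ∧ ∀ z ∈ C, ∀ u,
    wt (B.Ψ i) z * (hp (B.H i z) u u).re ≤ A * ‖u‖ ^ 2 := by
  obtain ⟨A, hA, h1⟩ := hp_upper hC fun r s => (B.H_smooth i r s).continuousOn.mono h
  obtain ⟨L, hL⟩ := hC.exists_bound_of_continuousOn ((Man.abmeas_wt (B.Ψ_cont i)).mono h)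
  refine ⟨(|L| + 1) * A, by positivity, fun z hz u => ?_⟩
  have h2 : (hp (B.H i z) u u).re ≤ A * ‖u‖ * ‖u‖ := (Complex.re_le_norm _).trans (h1 z hz u u).2
  have h3 : wt (B.Ψ i) z ≤ |L| + 1 := by
    linarith [le_abs_self L, le_abs_self (wt (B.Ψ i) z), show |wt (B.Ψ i) z| ≤ L from hL z hz]
  calc _ ≤ wt (B.Ψ i) z * (A * ‖u‖ * ‖u‖) := mul_le_mul_of_nonneg_left h2 (wt_pos _ _).le
    _ ≤ (|L| + 1) * (A * ‖u‖ * ‖u‖) := mul_le_mul_of_nonneg_right h3 (by positivity)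
    _ = _ := by ring

omit [CompactSpace Y] [T2Space Y] in
theorem senorm_set (hC : IsCompact C) (h : C ⊆ B.W i) (V : B.Sec) :
    ∫ x in B.p i '' C, (Bun.hG V V x).re ∂B.ν =
      ∫ z in C, wt (B.Ψ i) z * (hp (B.H i z) (V.v i z) (V.v i z)).re := by
  rw [B.den.int (B.Ψ_cont i) hC.measurableSet h]
  refine setIntegral_congr_fun hC.measurableSet fun z hz => ?_
  simp only [Bun.hG_chart V V (h hz), smul_eq_mul]

omit [CompactSpace Y] [T2Space Y] [BorelSpace Y] in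
theorem senorm_off {V : B.Sec} (hV : B.Supp V i C) (V' : B.Sec) {x : Y} (hx : x ∉ B.p i '' C) :
    Bun.hG V V' x = 0 := by
  obtain ⟨⟨j, y⟩, hy, rfl⟩ := B.exists_ch x
  rw [Bun.hG_chart V V' hy, hV j y hy hx]
  simp [hp]

theorem senorm_sum {m : ℕ} {A x : Fin m → ℝ} (hA : ∀ a, 0 < A a) (hx : ∀ a, 0 ≤ x a) :
    0 < 1 + ∑ a, A a ∧ ∑ a, A a * x a ≤ (1 + ∑ a, A a) * ∑ a, x a := by
  have h0 : 0 ≤ ∑ a, A a := Finset.sum_nonneg fun a _ => (hA a).le
  refine ⟨by linarith, ?_⟩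
  rw [Finset.mul_sum]
  refine Finset.sum_le_sum fun a _ => mul_le_mul_of_nonneg_right ?_ (hx a)
  linarith [Finset.single_le_sum (fun a _ => (hA a).le) (Finset.mem_univ a)]

theorem PU.upper (P : PU B) : ∃ A : ℝ, 0 < A ∧ ∀ V : B.Sec,
    ‖V‖ ^ 2 ≤ A * ∑ a, ∫ z in tsupport (P.τ a), ‖V.v (P.c a) z‖ ^ 2 := by
  have key : ∀ a, ∃ A : ℝ, 0 < A ∧ ∀ V : B.Sec, ∫ z in B.W (P.c a),
      (P.τ a z * wt (B.Ψ (P.c a)) z) • (Bun.hG V V (B.p (P.c a) z)).re ≤
        A * ∫ z in tsupport (P.τ a), ‖V.v (P.c a) z‖ ^ 2 := by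
    intro a
    have hC : IsCompact (tsupport (P.τ a)) := (P.tst a).cpt
    have h := (P.tst a).sub
    obtain ⟨A, hA, h1⟩ := senorm_up hC h
    obtain ⟨T, hT⟩ := (P.tst a).smooth.continuous.bounded_above_of_compact_support (P.tst a).cpt
    refine ⟨(|T| + 1) * A, by positivity, fun V => ?_⟩
    rw [int_eq_cpt (B.isOpen _) hC h fun z _ hz => by
      rw [image_eq_zero_of_notMem_tsupport hz, zero_mul, zero_smul], ← integral_const_mul,
      setIntegral_congr_fun hC.measurableSet (g := fun z => P.τ a z * (wt (B.Ψ (P.c a)) z *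
        (hp (B.H (P.c a) z) (V.v (P.c a) z) (V.v (P.c a) z)).re)) fun z hz => by
          simp only [Bun.hG_chart V V (h hz), smul_eq_mul, mul_assoc]]
    refine setIntegral_mono_on (((P.tst a).smooth.continuous.continuousOn.mul
      ((senorm_cont V _).mono h)).integrableOn_compact hC) ((senorm_sq hC h V).const_mul _)
      hC.measurableSet fun z hz => ?_
    have h3 : P.τ a z ≤ |T| + 1 := by
      linarith [le_abs_self T, le_abs_self (P.τ a z), show |P.τ a z| ≤ T from hT z]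
    calc _ ≤ P.τ a z * (A * ‖V.v (P.c a) z‖ ^ 2) :=
          mul_le_mul_of_nonneg_left (h1 z hz _) (P.nonneg a z)
      _ ≤ (|T| + 1) * (A * ‖V.v (P.c a) z‖ ^ 2) := mul_le_mul_of_nonneg_right h3 (by positivity)
      _ = _ := by ring
  choose A hA h using key
  refine ⟨1 + ∑ a, A a, (senorm_sum hA fun _ => le_rfl).1, fun V => ?_⟩
  rw [Bun.norm_sq, P.int ((Bun.hG_cc V V).map Complex.continuous_re rfl)]
  exact (Finset.sum_le_sum fun a _ => h a V).trans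
    (senorm_sum hA fun a => integral_nonneg fun _ => by positivity).2

namespace Bun

theorem lower (hC : IsCompact C) (h : C ⊆ B.W i) :
    ∃ A : ℝ, 0 < A ∧ ∀ V : B.Sec, ∫ z in C, ‖V.v i z‖ ^ 2 ≤ A * ‖V‖ ^ 2 := by
  obtain ⟨e, he, h1⟩ := hp_lower hC (fun r s => (B.H_smooth i r s).continuousOn.mono h)
    fun z hz => B.H_pos i z (h hz)
  obtain ⟨d, hd, h2⟩ := hC.exists_forall_le' ((Man.abmeas_wt (B.Ψ_cont i)).mono h)
    (a := 0) fun z _ => wt_pos _ z
  refine ⟨(d * e)⁻¹, by positivity, fun V => ?_⟩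
  rw [le_inv_mul_iff₀ (by positivity), norm_sq, ← integral_const_mul]
  refine le_trans ?_ (setIntegral_le_integral (s := B.p i '' C) (hG_int V V).re
    (Eventually.of_forall (hG_nonneg V)))
  refine le_trans ?_ (senorm_set hC h V).ge
  refine setIntegral_mono_on ((senorm_sq hC h V).const_mul _)
    (((senorm_cont V i).mono h).integrableOn_compact hC) hC.measurableSet fun z hz => ?_
  rw [mul_assoc]
  exact mul_le_mul (h2 z hz) (h1 z hz _) (by positivity) (wt_pos _ _).le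

theorem inner_supp {V : B.Sec} (h : C ⊆ B.W i) (hV : B.Supp V i C) (V' : B.Sec) : ⟪V, V'⟫_ℂ =
    ∫ z in B.W i, (wt (B.Ψ i) z : ℂ) * hp (B.H i z) (V.v i z) (V'.v i z) := by
  rw [inner_def, B.den.int_supp (B.Ψ_cont i) fun x hx =>
    senorm_off hV V' fun hx' => hx (image_mono h hx')]
  refine setIntegral_congr_fun (B.isOpen _).measurableSet fun z hz => ?_
  simp only [hG_chart V V' hz, Complex.real_smul]

theorem upper (hC : IsCompact C) (h : C ⊆ B.W i) :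
    ∃ A : ℝ, 0 < A ∧ ∀ V : B.Sec, B.Supp V i C → ‖V‖ ^ 2 ≤ A * ∫ z in C, ‖V.v i z‖ ^ 2 := by
  obtain ⟨A, hA, h1⟩ := senorm_up hC h
  refine ⟨A, hA, fun V hV => ?_⟩
  rw [norm_sq, ← setIntegral_eq_integral_of_forall_compl_eq_zero (s := B.p i '' C)
    fun x hx => by rw [senorm_off hV V hx, Complex.zero_re], senorm_set hC h, ← integral_const_mul]
  exact setIntegral_mono_on (((senorm_cont V i).mono h).integrableOn_compact hC)
    ((senorm_sq hC h V).const_mul _) hC.measurableSet fun z hz => h1 z hz _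

theorem upper_sup (hC : IsCompact C) (h : C ⊆ B.W i) : ∃ A : ℝ, 0 < A ∧ ∀ (V : B.Sec) (L : ℝ),
    0 ≤ L → B.Supp V i C → (∀ z ∈ C, ‖V.v i z‖ ≤ L) → ‖V‖ ≤ A * L := by
  obtain ⟨A, hA, h1⟩ := upper hC h
  have h0 : 0 ≤ volume.real C := measureReal_nonneg
  refine ⟨√(A * (volume.real C + 1)), by positivity, fun V L hL hV hb =>
    senorm_sqrt (by positivity) hL ((h1 V hV).trans ?_)⟩
  have h2 : ∫ z in C, ‖V.v i z‖ ^ 2 ≤ ∫ _ in C, L ^ 2 :=
    setIntegral_mono_on (senorm_sq hC h V) (continuousOn_const.integrableOn_compact hC)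
      hC.measurableSet fun z hz => pow_le_pow_left₀ (norm_nonneg _) (hb z hz) 2
  rw [setIntegral_const, smul_eq_mul] at h2
  rw [mul_assoc]
  refine mul_le_mul_of_nonneg_left (h2.trans ?_) hA.le
  exact mul_le_mul_of_nonneg_right (by linarith) (sq_nonneg L)

/-- Operators of order zero are bounded. -/
theorem ord0 {U : B.Sec → B.Sec} (h : ∀ i, ∃ m : E N → Matrix ρ ρ ℂ, SmM (B.W i) m ∧
    ∀ V, ∀ z ∈ B.W i, (U V).v i z = m z *ᵥ V.v i z) :
    ∃ A : ℝ, 0 < A ∧ ∀ V, ‖U V‖ ≤ A * ‖V‖ := by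
  obtain ⟨P⟩ := exists_PU B
  obtain ⟨A, hA, h1⟩ := P.upper
  have key : ∀ a, ∃ M : ℝ, 0 < M ∧ ∀ V : B.Sec,
      ∫ z in tsupport (P.τ a), ‖(U V).v (P.c a) z‖ ^ 2 ≤ M * ‖V‖ ^ 2 := by
    intro a
    have hC : IsCompact (tsupport (P.τ a)) := (P.tst a).cpt
    have hs := (P.tst a).sub
    obtain ⟨m, m1, m2⟩ := h (P.c a)
    obtain ⟨M, hM, h2⟩ := hp_upper hC fun r s => (m1 r s).continuousOn.mono hs
    obtain ⟨L, hL, h3⟩ := lower hC hs
    refine ⟨M ^ 2 * L, by positivity, fun V => ?_⟩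
    rw [mul_assoc]
    refine le_trans ?_ (mul_le_mul_of_nonneg_left (h3 V) (sq_nonneg M))
    rw [← integral_const_mul]
    refine setIntegral_mono_on (senorm_sq hC hs _) ((senorm_sq hC hs V).const_mul _)
      hC.measurableSet fun z hz => ?_
    rw [m2 V z (hs hz), ← mul_pow]
    exact pow_le_pow_left₀ (norm_nonneg _) (h2 z hz _ 0).1 2
  choose M hM h2 using key
  have h3 : 0 < 1 + ∑ a, M a := (senorm_sum hM fun _ => le_rfl).1
  refine ⟨√(A * (1 + ∑ a, M a)), by positivity, fun V =>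
    senorm_sqrt (by positivity) (norm_nonneg _) ((h1 _).trans ?_)⟩
  rw [mul_assoc]
  refine mul_le_mul_of_nonneg_left ((Finset.sum_le_sum fun a _ => h2 a V).trans ?_) hA.le
  rw [← Finset.sum_mul]
  exact mul_le_mul_of_nonneg_right (by linarith) (sq_nonneg _)

theorem comm_bdd {D U : B.Sec →ₗ[ℂ] B.Sec} (h : ∀ i, ∃ a b c m, B.Loc D i a b c ∧ B.Loc0 U i m ∧
    ∀ l, ∀ z ∈ B.W i, a l z * m z = m z * a l z ∧ b l z * m z = m z * b l z) :
    ∃ A : ℝ, 0 < A ∧ ∀ V, ‖D (U V) - U (D V)‖ ≤ A * ‖V‖ := by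
  refine ord0 (U := fun V => D (U V) - U (D V)) fun i => ?_
  obtain ⟨a, b, c, m, hD, hU, hc⟩ := h i
  have hW := B.isOpen i
  refine ⟨fun z => ∑ l, (a l z * dzM l m z + b l z * dbM l m z) + (c z * m z - m z * c z),
    (SmM.sum _ fun l _ => ((hD.sa l).mul (hU.sm.dzM hW l).1).add
      ((hD.sb l).mul (hU.sm.dzM hW l).2)).add ((hD.sc.mul hU.sm).sub (hU.sm.mul hD.sc)),
    fun V z hz => ?_⟩
  have e : (U V).v i =ᶠ[𝓝 z] fun y => m y *ᵥ V.v i y := by
    filter_upwards [hW.mem_nhds hz] with y hy using hU.eq V y hy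
  rw [v_sub, hD.eq _ z hz, hU.eq _ z hz, hD.eq _ z hz, op_congr e]
  exact op_mulVec (fun r s => diffAt hW (hU.sm r s) hz) (diffAt hW (V.smooth i) hz)
    fun l => hc l z hz

theorem sym0 {U : B.Sec →ₗ[ℂ] B.Sec} (h : ∀ i, ∃ m, B.Loc0 U i m ∧
    ∀ z ∈ B.W i, (m z)ᴴ * B.H i z = B.H i z * m z) (V V' : B.Sec) :
    ⟪U V, V'⟫_ℂ = ⟪V, U V'⟫_ℂ := by
  rw [inner_def, inner_def]
  refine integral_congr_ae (Eventually.of_forall fun x => ?_)
  obtain ⟨⟨i, z⟩, hz, rfl⟩ := B.exists_ch x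
  obtain ⟨m, hU, hm⟩ := h i
  simp only
  rw [hG_chart _ _ hz, hG_chart _ _ hz, hU.eq _ z hz, hU.eq _ z hz, hp, hp, Matrix.star_mulVec,
    ← Matrix.dotProduct_mulVec, Matrix.mulVec_mulVec, Matrix.mulVec_mulVec, hm z hz]

omit [CompactSpace Y] [T2Space Y] [BorelSpace Y] in
/-- A compatible family of matrices acts on sections. -/
theorem exists_mul {m : B.ι → E N → Matrix ρ ρ ℂ} (hm : ∀ i, SmM (B.W i) (m i))
    (hc : ∀ i j, ∀ z ∈ B.W i, ∀ y ∈ B.W j, B.p i z = B.p j y →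
      m j y * B.G i j z = B.G i j z * m i z) :
    ∃ U : B.Sec →ₗ[ℂ] B.Sec, ∀ i, B.Loc0 U i (m i) := by
  refine ⟨B.lin (fun V i z => m i z *ᵥ V.v i z)
    (fun V => ⟨fun i => (hm i).mulVec (V.smooth i), fun i j z hz y hy e => ?_⟩)
    (fun V V' i z _ => ?_) (fun c V i z _ => ?_), fun i => ⟨hm i, fun V z hz => lin_v V hz⟩⟩
  · rw [V.fam.2 i j z hz y hy e, Matrix.mulVec_mulVec, Matrix.mulVec_mulVec, hc i j z hz y hy e]
  · rw [v_add, Matrix.mulVec_add]
  · rw [v_smul, Matrix.mulVec_smul]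

end Bun

end Pool.Agent.SE
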