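import Mathlib

/-! Canonical anticommutation relations and second quantisation. -/

open scoped Matrix

namespace Pool.Agent.SE

variable {N : ℕ} {A A' R R' : Type} [Ring A] [Ring A'] [CommRing R] [CommRing R'] [Algebra R A]
  [Algebra R' A']

/-- Creation and annihilation operators in a ring. -/
structure Car (A : Type) [Ring A] (N : ℕ) where
  e : Fin N → A
  i : Fin N → A
  e2 : ∀ a, e a * e a = 0
  i2 : ∀ a, i a * i a = 0
  ee : ∀ a b, e a * e b = -(e b * e a)
  ii : ∀ a b, i a * i b = -(i b * i a)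
  ie : ∀ a b, i a * e b = (if a = b then 1 else 0) - e b * i a

namespace Car

variable (C : Car A N)

/-- Products of the occupation projections. -/
def pl (l : List (Fin N)) : A := (l.map fun a => C.i a * C.e a).prod

/-- The projection on the vacuum. -/
def vac : A := C.pl (List.finRange N)

/-- The creation operator of a vector. -/
def ev (v : Fin N → R) : A := ∑ a, v a • C.e a

/-- The annihilation operator of a covector. -/
def iv (v : Fin N → R) : A := ∑ a, v a • C.i a

/-- The recursion for the second quantisation. -/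
def gl (m : Fin N → A) (B : A) : List (Fin N) → A
  | [] => B
  | a :: l => gl m B l + m a * gl m B l * C.i a

/-- Second quantisation of a matrix. -/
def gam (M : Matrix (Fin N) (Fin N) R) : A :=
  C.gl (fun b => C.ev fun a => M a b) C.vac (List.finRange N)

/-- Transport along a ring homomorphism. -/
def map (φ : A →+* A') : Car A' N where
  e a := φ (C.e a)
  i a := φ (C.i a)
  e2 a := by rw [← map_mul, C.e2, map_zero]
  i2 a := by rw [← map_mul, C.i2, map_zero]
  ee a b := by rw [← map_mul, C.ee, map_neg, map_mul]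
  ii a b := by rw [← map_mul, C.ii, map_neg, map_mul]
  ie a b := by
    rw [← map_mul, C.ie, map_sub, map_mul]
    split_ifs <;> simp

theorem pl_cons (a : Fin N) (l : List (Fin N)) : C.pl (a :: l) = C.i a * C.e a * C.pl l := by
  simp [pl]

theorem ie_ne {a b : Fin N} (h : a ≠ b) : C.i a * C.e b = -(C.e b * C.i a) := by
  rw [C.ie, if_neg h, zero_sub]

theorem ie_self (a : Fin N) : C.i a * C.e a = 1 - C.e a * C.i a := by rw [C.ie, if_pos rfl]

theorem n_e {a b : Fin N} (h : a ≠ b) : C.i a * C.e a * C.e b = C.e b * (C.i a * C.e a) := by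
  rw [mul_assoc, C.ee, mul_neg, ← mul_assoc, C.ie_ne h, neg_mul, neg_neg, mul_assoc]

theorem i_n {a b : Fin N} (h : a ≠ b) : C.i a * (C.i b * C.e b) = C.i b * C.e b * C.i a := by
  rw [← mul_assoc, C.ii, neg_mul, mul_assoc, C.ie_ne h, mul_neg, neg_neg, mul_assoc]

theorem i_pl {a : Fin N} : ∀ {l : List (Fin N)}, a ∈ l → C.i a * C.pl l = 0
  | b :: l, h => by
    rw [pl_cons, ← mul_assoc]
    by_cases hab : a = b
    · rw [hab, ← mul_assoc, C.i2, zero_mul, zero_mul]
    · rw [C.i_n hab, mul_assoc, i_pl ((List.mem_cons.1 h).resolve_left hab), mul_zero]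

theorem pl_e' {a : Fin N} : ∀ {l : List (Fin N)}, a ∉ l → C.pl l * C.e a = C.e a * C.pl l
  | [], _ => by simp [pl]
  | b :: l, h => by
    rw [List.mem_cons, not_or] at h
    rw [pl_cons, mul_assoc, pl_e' h.2, ← mul_assoc, C.n_e (Ne.symm h.1), mul_assoc]

theorem pl_e {a : Fin N} : ∀ {l : List (Fin N)}, a ∈ l → C.pl l * C.e a = 0
  | b :: l, h => by
    rw [pl_cons, mul_assoc]
    by_cases hl : a ∈ l
    · rw [pl_e hl, mul_zero]
    · rw [C.pl_e' hl, (List.mem_cons.1 h).resolve_right hl, ← mul_assoc, mul_assoc (C.i b), C.e2,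
        mul_zero, zero_mul]

theorem i_vac (a : Fin N) : C.i a * C.vac = 0 := C.i_pl (List.mem_finRange a)

theorem vac_e (a : Fin N) : C.vac * C.e a = 0 := C.pl_e (List.mem_finRange a)

theorem pl_mul {x : A} (h : ∀ a, C.i a * x = 0) : ∀ l, C.pl l * x = x
  | [] => by simp [pl]
  | a :: l => by
    rw [pl_cons, mul_assoc, pl_mul h l, ie_self, sub_mul, one_mul, mul_assoc, h, mul_zero, sub_zero]

theorem mul_pl {x : A} (h : ∀ a, x * C.e a = 0) : ∀ l, x * C.pl l = x
  | [] => by simp [pl]
  | a :: l => by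
    rw [pl_cons, ← mul_assoc, ie_self, mul_sub, ← mul_assoc, h, zero_mul, sub_zero, mul_one,
      mul_pl h l]

theorem vac_vac : C.vac * C.vac = C.vac := C.pl_mul C.i_vac _

theorem gl_mul {x : A} (B : A) : ∀ {l : List (Fin N)}, (∀ b ∈ l, x * C.e b = C.e b * x) →
    C.gl C.e (x * B) l = x * C.gl C.e B l
  | [], _ => rfl
  | a :: l, h => by
    rw [gl, gl, gl_mul B fun b hb => h b (List.mem_cons_of_mem _ hb), mul_add, ← mul_assoc,
      ← h a List.mem_cons_self]
    simp only [mul_assoc]

theorem gl_one : ∀ {l : List (Fin N)}, l.Nodup → C.gl C.e (C.pl l) l = 1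
  | [], _ => by simp [pl, gl]
  | a :: l, h => by
    rw [List.nodup_cons] at h
    rw [gl, pl_cons, C.gl_mul _ fun b hb => C.n_e (a := a) fun hab => h.1 (hab ▸ hb), gl_one h.2, mul_one,
      ie_self, mul_sub, ← mul_assoc, C.e2, zero_mul, sub_zero, mul_one, sub_add_cancel]

/-- The vacuum is cyclic. -/
theorem cyc {Z : A} (h0 : Z * C.vac = 0) (h : ∀ b, ∃ x, Z * C.e b = x * Z) : Z = 0 := by
  have : ∀ l, Z * C.gl C.e C.vac l = 0 := by
    intro l
    induction l with
    | nil => exact h0
    | cons a l ih =>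
      obtain ⟨x, hx⟩ := h a
      rw [gl, mul_add, ih, zero_add, ← mul_assoc, ← mul_assoc, hx, mul_assoc x, ih, mul_zero,
        zero_mul]
  have h1 := this (List.finRange N)
  rwa [vac, C.gl_one (List.nodup_finRange N), mul_one] at h1

theorem e_ev (a : Fin N) (v : Fin N → R) : C.e a * C.ev v = -(C.ev v * C.e a) := by
  simp only [ev, Finset.mul_sum, Finset.sum_mul, mul_smul_comm, smul_mul_assoc, C.ee a, smul_neg,
    Finset.sum_neg_distrib]

theorem ev_ev (u v : Fin N → R) : C.ev u * C.ev v = -(C.ev v * C.ev u) := by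
  rw [ev, Finset.sum_mul, Finset.mul_sum, ← Finset.sum_neg_distrib]
  simp only [mul_smul_comm, smul_mul_assoc, e_ev, smul_neg]

/-- A symmetric combination of anticommuting products vanishes. -/
theorem sym_zero {x : Fin N → A} (h2 : ∀ a, x a * x a = 0) (h : ∀ a b, x a * x b = -(x b * x a))
    {c : Fin N → Fin N → R} (hc : ∀ a b, c a b = c b a) :
    ∑ a, ∑ b, c a b • (x a * x b) = 0 := by
  rw [← Finset.sum_product']
  refine Finset.sum_involution (fun p _ => p.swap) (fun p _ => ?_) (fun p _ hp he => hp ?_)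
    (fun p _ => by simp) (fun p _ => rfl)
  · simp only [Prod.fst_swap, Prod.snd_swap]
    rw [h p.1, hc p.1, smul_neg, neg_add_cancel]
  · have : p.2 = p.1 := congrArg Prod.fst he
    rw [this, h2, smul_zero]

theorem ev2 (v : Fin N → R) : C.ev v * C.ev v = 0 := by
  simp only [ev, Finset.sum_mul_sum, smul_mul_smul_comm]
  exact sym_zero C.e2 C.ee fun a b => mul_comm _ _

theorem i_ev (a : Fin N) (v : Fin N → R) : C.i a * C.ev v = v a • (1 : A) - C.ev v * C.i a := by
  simp [ev, Finset.mul_sum, Finset.sum_mul, C.ie a, smul_sub]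

theorem iv_e (v : Fin N → R) (a : Fin N) : C.iv v * C.e a = v a • (1 : A) - C.e a * C.iv v := by
  simp [iv, Finset.mul_sum, Finset.sum_mul, C.ie _ a, smul_sub]

theorem vac_ev (v : Fin N → R) : C.vac * C.ev v = 0 := by
  simp [ev, Finset.mul_sum, vac_e]

theorem iv_vac (v : Fin N → R) : C.iv v * C.vac = 0 := by
  simp [iv, Finset.sum_mul, i_vac]

theorem gl_e {m : Fin N → A} (h2 : ∀ a, m a * m a = 0) (h : ∀ a b, m a * m b = -(m b * m a)) :
    ∀ {l : List (Fin N)}, l.Nodup → ∀ b,
      C.gl m C.vac l * C.e b = if b ∈ l then m b * C.gl m C.vac l else 0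
  | [], _, b => by simp [gl, vac_e]
  | a :: l, hl, b => by
    rw [List.nodup_cons] at hl
    have ih := gl_e h2 h hl.2 b
    rw [gl, add_mul, mul_assoc _ (C.i a), C.ie, mul_sub, ← mul_assoc, mul_assoc (m a) _ (C.e b), ih]
    by_cases hab : a = b
    · subst hab
      simp [hl.1, mul_add, ← mul_assoc, h2]
    · by_cases hb : b ∈ l
      · simp [hb, hab, mul_add, ← mul_assoc, h a b]
      · simp [hb, hab, Ne.symm hab]

theorem gam_e (M : Matrix (Fin N) (Fin N) R) (b : Fin N) :
    C.gam M * C.e b = C.ev (fun a => M a b) * C.gam M := by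
  rw [gam, C.gl_e (fun _ => C.ev2 _) (fun _ _ => C.ev_ev _ _) (List.nodup_finRange N),
    if_pos (List.mem_finRange b)]

theorem gam_vac (M : Matrix (Fin N) (Fin N) R) : C.gam M * C.vac = C.vac := by
  rw [gam]
  induction List.finRange N with
  | nil => exact C.vac_vac
  | cons a l ih => rw [gl, add_mul, ih, mul_assoc, i_vac, mul_zero, add_zero]

theorem vac_gam (M : Matrix (Fin N) (Fin N) R) : C.vac * C.gam M = C.vac := by
  rw [gam]
  induction List.finRange N with
  | nil => exact C.vac_vac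
  | cons a l ih =>
    rw [gl, mul_add, ih, ← mul_assoc, ← mul_assoc, vac_ev, zero_mul, zero_mul, add_zero]

theorem gam_unique {M : Matrix (Fin N) (Fin N) R} {Z : A} (h0 : Z * C.vac = C.vac)
    (h : ∀ b, Z * C.e b = C.ev (fun a => M a b) * Z) : Z = C.gam M :=
  sub_eq_zero.1 (C.cyc (by rw [sub_mul, h0, gam_vac, sub_self]) fun b =>
    ⟨_, by rw [sub_mul, h, gam_e, mul_sub]⟩)

theorem gam_ev (M : Matrix (Fin N) (Fin N) R) (v : Fin N → R) :
    C.gam M * C.ev v = C.ev (M *ᵥ v) * C.gam M := by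
  rw [ev, Finset.mul_sum]
  simp only [mul_smul_comm, gam_e, ← smul_mul_assoc, ← Finset.sum_mul]
  congr 1
  simp only [ev, Finset.smul_sum, smul_smul, Matrix.mulVec, dotProduct, Finset.sum_smul]
  rw [Finset.sum_comm]
  simp only [mul_comm]

theorem gam_mul (M M' : Matrix (Fin N) (Fin N) R) : C.gam (M * M') = C.gam M * C.gam M' :=
  (C.gam_unique (by rw [mul_assoc, gam_vac, gam_vac]) fun b => by
    rw [mul_assoc, gam_e, ← mul_assoc, gam_ev, mul_assoc]
    rfl).symm

theorem gam_one : C.gam (1 : Matrix (Fin N) (Fin N) R) = 1 :=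
  (C.gam_unique (one_mul _) fun b => by simp [ev, Matrix.one_apply]).symm

theorem i_gam (M : Matrix (Fin N) (Fin N) R) (a : Fin N) :
    C.i a * C.gam M = C.gam M * C.iv (M a) := by
  refine sub_eq_zero.1 (C.cyc ?_ fun b => ⟨-C.ev fun a => M a b, ?_⟩)
  · rw [sub_mul, mul_assoc, mul_assoc, gam_vac, i_vac, iv_vac, mul_zero, sub_zero]
  · rw [sub_mul, mul_assoc, gam_e, ← mul_assoc, i_ev, mul_assoc (C.gam M), iv_e, mul_sub (C.gam M),
      ← mul_assoc, gam_e]
    simp only [mul_smul_comm, smul_mul_assoc, sub_mul, mul_sub, neg_mul, mul_assoc, one_mul,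
      mul_one]
    abel

theorem iv_gam (M : Matrix (Fin N) (Fin N) R) (v : Fin N → R) :
    C.iv v * C.gam M = C.gam M * C.iv (v ᵥ* M) := by
  rw [iv, Finset.sum_mul]
  simp only [smul_mul_assoc, i_gam, ← mul_smul_comm, ← Finset.mul_sum]
  congr 1
  simp only [iv, Finset.smul_sum, smul_smul, Matrix.vecMul, dotProduct, Finset.sum_smul]
  rw [Finset.sum_comm]

/-- The parity operator anticommutes with the generators. -/
theorem par_e (a : Fin N) :
    C.gam (-1 : Matrix (Fin N) (Fin N) R) * C.e a = -(C.e a * C.gam (-1 : Matrix _ _ R)) := by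
  simp [gam_e, ev, Matrix.one_apply]

theorem par_i (a : Fin N) :
    C.gam (-1 : Matrix (Fin N) (Fin N) R) * C.i a = -(C.i a * C.gam (-1 : Matrix _ _ R)) := by
  simp [i_gam, iv, Matrix.one_apply]

theorem par_par : C.gam (-1 : Matrix (Fin N) (Fin N) R) * C.gam (-1 : Matrix _ _ R) = 1 := by
  rw [← gam_mul, neg_mul_neg, one_mul, gam_one]

theorem par_gam (M : Matrix (Fin N) (Fin N) R) :
    C.gam (-1 : Matrix (Fin N) (Fin N) R) * C.gam M = C.gam M * C.gam (-1 : Matrix _ _ R) := by
  rw [← gam_mul, ← gam_mul, neg_one_mul, mul_neg_one]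

theorem commute_vac {x : A} (he : ∀ a, Commute x (C.e a)) (hi : ∀ a, Commute x (C.i a)) :
    Commute x C.vac :=
  Commute.list_prod_right _ _ fun y hy => by
    obtain ⟨a, -, rfl⟩ := List.mem_map.1 hy
    exact (hi a).mul_right (he a)

theorem commute_gam {x : A} (he : ∀ a, Commute x (C.e a)) (hi : ∀ a, Commute x (C.i a))
    (M : Matrix (Fin N) (Fin N) R) : Commute x (C.gam M) := by
  rw [gam]
  induction List.finRange N with
  | nil => exact C.commute_vac he hi
  | cons a l ih =>
    exact ih.add_right (((Commute.sum_right _ _ _ fun b _ => (he b).smul_right _).mul_right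
      ih).mul_right (hi a))

theorem map_vac (φ : A →+* A') : (C.map φ).vac = φ C.vac := by
  simp [vac, pl, map, map_list_prod, Function.comp_def]

/-- Naturality. -/
theorem map_gam (φ : A →+* A') (ψ : R → R') (h : ∀ (r : R) x, φ (r • x) = ψ r • φ x)
    (M : Matrix (Fin N) (Fin N) R) : (C.map φ).gam (M.map ψ) = φ (C.gam M) :=
  ((C.map φ).gam_unique (by rw [map_vac, ← map_mul, gam_vac]) fun b => by
    change _ * φ _ = _
    rw [← map_mul, gam_e, map_mul, ev, map_sum]
    simp only [h]
    rfl).symm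

section Anti

variable {τ : A →+ A} {σ : R → R} (hm : ∀ x y, τ (x * y) = τ y * τ x) (h1 : τ 1 = 1)
  (he : ∀ a, τ (C.e a) = C.i a) (hi : ∀ a, τ (C.i a) = C.e a)
include hm h1 he hi

theorem anti_vac : τ C.vac = C.vac := by
  have h2 : C.vac * τ C.vac = τ C.vac :=
    C.pl_mul (fun a => by rw [← he, ← hm, vac_e, map_zero]) _
  have h3 : ∀ l, C.vac * τ (C.pl l) = C.vac := by
    intro l
    induction l with
    | nil => rw [pl, List.map_nil, List.prod_nil, h1, mul_one]
    | cons a l ih =>
      rw [pl_cons, hm, ← mul_assoc, ih, hm, he, hi, ie_self, mul_sub, ← mul_assoc, vac_e, zero_mul,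
        sub_zero, mul_one]
  exact h2.symm.trans (h3 _)

theorem anti_gam (hs : ∀ (r : R) x, τ (r • x) = σ r • τ x) (M : Matrix (Fin N) (Fin N) R) :
    τ (C.gam M) = C.gam (Mᵀ.map σ) := by
  have hv := C.anti_vac hm h1 he hi
  refine C.gam_unique (by rw [← hv, ← hm, vac_gam]) fun b => ?_
  rw [← hi, ← hm, i_gam, hm, iv, map_sum]
  simp only [hs, hi]
  rfl

end Anti

end Car

end Pool.Agent.SE
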