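import Pool.Agent.P.MP_63735c_ag.SEFock

/-! Derivatives of the second quantisation, matrix models. -/

open scoped Matrix ComplexOrder Kronecker MatrixOrder

namespace Pool.Agent.SE

namespace Car

section Der

variable {N : ℕ} {A R : Type} [Ring A] [CommRing R] [Algebra R A] (C : Car A N)

/-- `D` is a derivation over `d` that kills the generators. -/
structure IsDer (d : R → R) (D : A →+ A) : Prop where
  mul : ∀ x y, D (x * y) = D x * y + x * D y
  smul : ∀ (r : R) x, D (r • x) = d r • x + r • D x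
  e : ∀ a, D (C.e a) = 0
  i : ∀ a, D (C.i a) = 0

variable {C} {d : R → R} {D : A →+ A}

theorem IsDer.one (h : C.IsDer d D) : D 1 = 0 := by simpa using h.mul 1 1

theorem IsDer.vac (h : C.IsDer d D) : D C.vac = 0 := by
  rw [Car.vac]
  induction List.finRange N with
  | nil => exact h.one
  | cons a l ih => simp [pl_cons, h.mul, h.e, h.i, ih]

theorem IsDer.ev (h : C.IsDer d D) (v : Fin N → R) : D (C.ev v) = C.ev fun a => d (v a) := by
  simp [Car.ev, h.smul, h.e]

theorem IsDer.iv (h : C.IsDer d D) (v : Fin N → R) : D (C.iv v) = C.iv fun a => d (v a) := by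
  simp [Car.iv, h.smul, h.i]

theorem IsDer.gam (h : C.IsDer d D) (M : Matrix (Fin N) (Fin N) R) :
    D (C.gam M) = ∑ b, C.ev (fun a => d (M a b)) * C.gam M * C.i b := by
  refine sub_eq_zero.1 (C.cyc ?_ fun c => ⟨C.ev fun a => M a c, ?_⟩)
  · have := h.mul (C.gam M) C.vac
    rw [gam_vac, h.vac, mul_zero, add_zero] at this
    simp [sub_mul, ← this, Finset.sum_mul, mul_assoc, i_vac]
  · have := h.mul (C.gam M) (C.e c)
    rw [gam_e, h.mul, h.e, h.ev, mul_zero, add_zero] at this
    have h2 : ∀ b, C.ev (fun a => d (M a b)) * C.gam M * C.i b * C.e c =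
        (if b = c then C.ev (fun a => d (M a b)) * C.gam M else 0) +
        C.ev (fun a => M a c) * (C.ev (fun a => d (M a b)) * C.gam M * C.i b) := by
      intro b
      rw [mul_assoc, C.ie, mul_sub, ← mul_assoc, mul_assoc _ _ (C.e c), gam_e, ← mul_assoc,
        C.ev_ev (fun a => d (M a b))]
      simp [mul_assoc]
    simp only [sub_mul, ← this, Finset.sum_mul, h2, Finset.sum_add_distrib, Finset.sum_ite_eq',
      Finset.mem_univ, if_true, mul_sub, Finset.mul_sum]
    abel

variable {d : Fin N → R → R} {D : Fin N → A →+ A} {M M' : Matrix (Fin N) (Fin N) R}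

/-- KA. -/
theorem ka (h : ∀ k, C.IsDer (d k) (D k)) (hs : ∀ k a b, d k (M a b) = d a (M k b)) :
    ∑ k, C.e k * D k (C.gam M) = 0 := by
  simp only [(h _).gam, Finset.mul_sum, ← mul_assoc]
  rw [Finset.sum_comm]
  refine Finset.sum_eq_zero fun b _ => ?_
  simp only [← Finset.sum_mul, Car.ev, Finset.mul_sum, mul_smul_comm]
  rw [sym_zero C.e2 C.ee fun k a => hs k a b, zero_mul, zero_mul]

/-- The adjoint form of KA. -/
theorem ka' (h : ∀ k, C.IsDer (d k) (D k)) (hs : ∀ l a b, d l (M a b) = d b (M a l)) :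
    ∑ l, D l (C.gam M) * C.i l = 0 := by
  have : ∀ l, D l (C.gam M) * C.i l =
      ∑ a, C.e a * C.gam M * ∑ b, d b (M a l) • (C.i b * C.i l) := by
    intro l
    simp only [(h _).gam, Car.ev, Finset.sum_mul, Finset.mul_sum, smul_mul_assoc, mul_smul_comm,
      mul_assoc, hs l]
    exact Finset.sum_comm
  simp only [this]
  rw [Finset.sum_comm]
  refine Finset.sum_eq_zero fun a _ => ?_
  rw [← Finset.mul_sum, Finset.sum_comm, sym_zero C.i2 C.ii fun b l => hs b a l, mul_zero]

theorem gam_up (hM : M * M' = 1) (k : Fin N) :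
    C.gam M * C.ev (fun a => M' a k) = C.e k * C.gam M := by
  have : M *ᵥ (fun a => M' a k) = fun a => (M * M') a k := rfl
  rw [gam_ev, this, hM]
  simp [Car.ev, Matrix.one_apply]

theorem up_gam (hM : M' * M = 1) (a : Fin N) : C.iv (M' a) * C.gam M = C.gam M * C.i a := by
  have : M' a ᵥ* M = (M' * M) a := rfl
  rw [iv_gam, this, hM]
  simp [Car.iv, Matrix.one_apply]

theorem smul_gam (hM : M * M' = 1) (l k : Fin N) : M' l k • C.gam M =
    C.gam M * C.i l * C.ev (fun a => M' a k) + C.e k * C.gam M * C.i l := by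
  rw [mul_assoc, i_ev, mul_sub, ← mul_assoc, gam_up hM]
  simp

/-- The divergence of the inverse metric times the metric on multivectors. -/
theorem div_gam (h : ∀ k, C.IsDer (d k) (D k)) (hs : ∀ l a b, d l (M a b) = d b (M a l))
    (hM : M * M' = 1) (k : Fin N) : ∑ l, D l (M' l k • C.gam M) =
      C.gam M * ∑ l, C.i l * C.ev fun a => d l (M' a k) := by
  simp only [smul_gam hM, map_add, (h _).mul, (h _).e, (h _).i, (h _).ev, mul_zero, zero_mul,
    add_zero, zero_add, Finset.sum_add_distrib, ← Finset.sum_mul, ka' h hs, mul_assoc (C.e k)]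
  simp only [mul_assoc, ← Finset.mul_sum, ka' h hs, mul_zero, add_zero]

/-- PI. -/
theorem piola (h : ∀ k, C.IsDer (d k) (D k)) (hs : ∀ l a b, d l (M a b) = d b (M a l))
    (hM : M' * M = 1) : ∑ a, C.iv (M' a) * D a (C.gam M) =
      C.gam M * C.iv fun b => (M' * M.map (d b)).trace := by
  have h1 : ∀ a b, C.iv (M' a) * (C.ev (fun c => d a (M c b)) * C.gam M * C.i b) =
      (∑ c, M' a c * d b (M c a)) • (C.gam M * C.i b) -
        ∑ c, C.e c * C.gam M * (d a (M c b) • (C.i a * C.i b)) := by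
    intro a b
    rw [Car.ev, Finset.sum_mul, Finset.sum_mul, Finset.mul_sum, Finset.sum_smul,
      ← Finset.sum_sub_distrib]
    refine Finset.sum_congr rfl fun c _ => ?_
    rw [smul_mul_assoc, smul_mul_assoc, mul_smul_comm, ← mul_assoc, ← mul_assoc, iv_e, sub_mul,
      mul_assoc (C.e c), up_gam hM, sub_mul, smul_sub, ← hs a]
    simp [mul_assoc, smul_smul, mul_comm]
  have h2 : ∑ a, ∑ b, ∑ c, C.e c * C.gam M * (d a (M c b) • (C.i a * C.i b)) = 0 := by
    rw [Finset.sum_congr rfl fun a _ => Finset.sum_comm, Finset.sum_comm]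
    refine Finset.sum_eq_zero fun c _ => ?_
    simp only [← Finset.mul_sum]
    rw [sym_zero C.i2 C.ii fun a b => hs a c b, mul_zero]
  simp only [(h _).gam, Finset.mul_sum, h1, Finset.sum_sub_distrib, h2, sub_zero]
  rw [Finset.sum_comm, Car.iv, Finset.mul_sum]
  simp [← Finset.sum_smul, Matrix.trace, Matrix.mul_apply]

end Der

section Mat

variable {N : ℕ} {ρ : Type} [Fintype ρ] [DecidableEq ρ] (C : Car (Matrix ρ ρ ℤ) N)
  {R R' : Type} [CommRing R] [CommRing R']

/-- The model over the ring `R`. -/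
def mat (R : Type) [CommRing R] : Car (Matrix ρ ρ R) N := C.map (Int.castRingHom R).mapMatrix

theorem mat_e (a : Fin N) (r s : ρ) : (C.mat R).e a r s = C.e a r s := rfl

theorem mat_i (a : Fin N) (r s : ρ) : (C.mat R).i a r s = C.i a r s := rfl

theorem mat_map (ψ : R →+* R') : (C.mat R).map ψ.mapMatrix = C.mat R' := by
  simp only [mat, map, mk.injEq]
  constructor <;> ext a r s <;> simp

theorem mat_vac (ψ : R →+* R') : (C.mat R).vac.map ψ = (C.mat R').vac := by
  rw [← C.mat_map ψ, map_vac]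
  rfl

theorem mat_gam (ψ : R →+* R') (M : Matrix (Fin N) (Fin N) R) :
    ((C.mat R).gam M).map ψ = (C.mat R').gam (M.map ψ) := by
  rw [← C.mat_map ψ, map_gam _ _ ψ fun r x => by ext; simp]
  rfl

/-- Entrywise action of an additive map. -/
def dm {S : Type} [CommRing S] [Algebra S R] (δ : Derivation S R R) :
    Matrix ρ ρ R →+ Matrix ρ ρ R := AddMonoidHom.mapMatrix δ.toLinearMap.toAddMonoidHom

omit [Fintype ρ] [DecidableEq ρ] in
theorem dm_apply {S : Type} [CommRing S] [Algebra S R] (δ : Derivation S R R) (x : Matrix ρ ρ R)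
    (r s : ρ) : dm δ x r s = δ (x r s) := rfl

theorem mat_isDer {S : Type} [CommRing S] [Algebra S R] (δ : Derivation S R R) :
    (C.mat R).IsDer δ (dm δ) where
  mul x y := by
    ext r s
    simp [dm_apply, Matrix.mul_apply, Finset.sum_add_distrib, mul_comm, add_comm]
  smul c x := by
    ext r s
    simp [dm_apply, mul_comm, add_comm]
  e a := by
    ext r s
    simp [dm_apply, mat_e]
  i a := by
    ext r s
    simp [dm_apply, mat_i]

variable {C} (hC : ∀ a, C.i a = (C.e a)ᵀ)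
include hC

theorem mat_et (a : Fin N) : ((C.mat R).e a)ᵀ = (C.mat R).i a := by
  ext r s
  simp [mat_e, mat_i, hC]

theorem mat_it (a : Fin N) : ((C.mat R).i a)ᵀ = (C.mat R).e a := by
  rw [← mat_et hC, Matrix.transpose_transpose]

theorem mat_eh [StarRing R] (a : Fin N) : ((C.mat R).e a)ᴴ = (C.mat R).i a := by
  ext r s
  simp [mat_e, mat_i, hC]

theorem mat_ih [StarRing R] (a : Fin N) : ((C.mat R).i a)ᴴ = (C.mat R).e a := by
  rw [← mat_eh hC, Matrix.conjTranspose_conjTranspose]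

theorem gam_t (M : Matrix (Fin N) (Fin N) R) : ((C.mat R).gam M)ᵀ = (C.mat R).gam Mᵀ :=
  (C.mat R).anti_gam (τ := (Matrix.transposeAddEquiv ρ ρ R).toAddMonoidHom) (σ := id)
    Matrix.transpose_mul Matrix.transpose_one (mat_et hC) (mat_it hC) (fun _ _ => rfl) M

theorem vac_h [StarRing R] : (C.mat R).vacᴴ = (C.mat R).vac :=
  (C.mat R).anti_vac (τ := (Matrix.conjTransposeAddEquiv ρ ρ R).toAddMonoidHom)
    Matrix.conjTranspose_mul Matrix.conjTranspose_one (mat_eh hC) (mat_ih hC)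

theorem gam_h [StarRing R] (M : Matrix (Fin N) (Fin N) R) :
    ((C.mat R).gam M)ᴴ = (C.mat R).gam Mᴴ :=
  (C.mat R).anti_gam (τ := (Matrix.conjTransposeAddEquiv ρ ρ R).toAddMonoidHom) (σ := star)
    Matrix.conjTranspose_mul Matrix.conjTranspose_one (mat_eh hC) (mat_ih hC)
    Matrix.conjTranspose_smul M

theorem gam_psd {M : Matrix (Fin N) (Fin N) ℂ} (h : M.PosSemidef) :
    ((C.mat ℂ).gam M).PosSemidef ∧ ((C.mat ℂ).gam M - (C.mat ℂ).vac).PosSemidef := by
  obtain ⟨B, rfl⟩ := CStarAlgebra.nonneg_iff_eq_star_mul_self.1 h.nonneg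
  rw [Matrix.star_eq_conjTranspose, gam_mul, ← gam_h hC]
  refine ⟨Matrix.posSemidef_conjTranspose_mul_self _, ?_⟩
  have := Matrix.posSemidef_conjTranspose_mul_self ((C.mat ℂ).gam B - (C.mat ℂ).vac)
  rwa [Matrix.conjTranspose_sub, vac_h hC, sub_mul, mul_sub, mul_sub, vac_gam, vac_vac, sub_self,
    sub_zero, gam_h hC, gam_vac, ← gam_h hC] at this

theorem gam_pd {M : Matrix (Fin N) (Fin N) ℂ} (h : M.PosDef) : ((C.mat ℂ).gam M).PosDef := by
  refine (gam_psd hC h.posSemidef).1.posDef_iff_isUnit.2 (IsUnit.of_mul_eq_one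
    ((C.mat ℂ).gam M⁻¹) ?_)
  rw [← gam_mul, Matrix.mul_nonsing_inv _ ((Matrix.isUnit_iff_isUnit_det _).1 h.isUnit), gam_one]

end Mat

end Car

/-- A graded matrix model exists. -/
theorem exists_car (N : ℕ) : ∃ (ρ : Type) (_ : Fintype ρ) (_ : DecidableEq ρ)
    (C : Car (Matrix ρ ρ ℤ) N) (d : ρ → ℕ) (r0 : ρ), (∀ a, C.i a = (C.e a)ᵀ) ∧
      (∀ a r s, C.e a r s ≠ 0 → d r = d s + 1) ∧ d r0 = 0 := by
  induction N with
  | zero =>
    exact ⟨Unit, inferInstance, inferInstance, ⟨finZeroElim, finZeroElim, finZeroElim, finZeroElim,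
      finZeroElim, finZeroElim, finZeroElim⟩, 0, (), finZeroElim, finZeroElim, rfl⟩
  | succ N ih =>
    obtain ⟨ρ, _, _, C, d, r0, h1, h2, h3⟩ := ih
    refine ⟨ρ ⊕ ρ, inferInstance, inferInstance,
      ⟨Fin.cons (Matrix.fromBlocks 0 0 1 0) fun a => Matrix.fromBlocks (C.e a) 0 0 (-C.e a),
        Fin.cons (Matrix.fromBlocks 0 1 0 0) fun a => Matrix.fromBlocks (C.i a) 0 0 (-C.i a),
        fun a => ?_, fun a => ?_, fun a b => ?_, fun a b => ?_, fun a b => ?_⟩,
      Sum.elim d fun r => d r + 1, Sum.inl r0, fun a => ?_, fun a r s => ?_, h3⟩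
    · induction a using Fin.cases <;> simp [Matrix.fromBlocks_multiply, C.e2]
    · induction a using Fin.cases <;> simp [Matrix.fromBlocks_multiply, C.i2]
    · induction a using Fin.cases <;> induction b using Fin.cases <;>
        simp [Matrix.fromBlocks_multiply, Matrix.fromBlocks_neg]
      exact C.ee _ _
    · induction a using Fin.cases <;> induction b using Fin.cases <;>
        simp [Matrix.fromBlocks_multiply, Matrix.fromBlocks_neg]
      exact C.ii _ _
    · rw [eq_sub_iff_add_eq]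
      induction a using Fin.cases <;> induction b using Fin.cases <;>
        simp [Matrix.fromBlocks_multiply, Matrix.fromBlocks_add, Fin.succ_ne_zero,
          (Fin.succ_ne_zero _).symm, C.ie]
      split_ifs <;> simp
    · induction a using Fin.cases <;> simp [Matrix.fromBlocks_transpose, h1]
    · induction a using Fin.cases <;> rcases r with r | r <;> rcases s with s | s <;>
        simp +contextual [Matrix.one_apply]
      all_goals exact h2 _ r s

/-- Two commuting families, the second one raises the degree. -/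
theorem exists_fock (N M : ℕ) : ∃ (ρ : Type) (_ : Fintype ρ) (_ : DecidableEq ρ)
    (C : Car (Matrix ρ ρ ℤ) N) (B : Car (Matrix ρ ρ ℤ) M) (d : ρ → ℕ) (r0 : ρ),
      (∀ a, C.i a = (C.e a)ᵀ) ∧ (∀ j, B.i j = (B.e j)ᵀ) ∧
      (∀ a j, Commute (B.e j) (C.e a) ∧ Commute (B.e j) (C.i a) ∧
        Commute (B.i j) (C.e a) ∧ Commute (B.i j) (C.i a)) ∧
      (∀ a r s, C.e a r s ≠ 0 → d r = d s) ∧ (∀ j r s, B.e j r s ≠ 0 → d r = d s + 1) ∧
      d r0 = 0 ∧ ∀ a s, C.e a r0 s = 0 := by
  obtain ⟨ρ, _, _, C, d, r0, h1, h2, h3⟩ := exists_car N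
  obtain ⟨ρ', _, _, B, d', r0', h1', h2', h3'⟩ := exists_car M
  let φ : Matrix ρ ρ ℤ →+* Matrix (ρ × ρ') (ρ × ρ') ℤ :=
    { toFun := fun x => x ⊗ₖ 1, map_one' := Matrix.one_kronecker_one
      map_mul' := fun x y => by rw [← Matrix.mul_kronecker_mul, one_mul]
      map_zero' := Matrix.zero_kronecker _, map_add' := fun x y => Matrix.add_kronecker _ _ _ }
  let ψ : Matrix ρ' ρ' ℤ →+* Matrix (ρ × ρ') (ρ × ρ') ℤ :=
    { toFun := fun x => 1 ⊗ₖ x, map_one' := Matrix.one_kronecker_one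
      map_mul' := fun x y => by rw [← Matrix.mul_kronecker_mul, one_mul]
      map_zero' := Matrix.kronecker_zero _, map_add' := fun x y => Matrix.kronecker_add _ _ _ }
  have hc : ∀ x y, Commute (ψ y) (φ x) := fun x y => by
    change (1 ⊗ₖ y) * (x ⊗ₖ 1) = (x ⊗ₖ 1) * (1 ⊗ₖ y)
    simp only [← Matrix.mul_kronecker_mul, one_mul, mul_one]
  refine ⟨ρ × ρ', inferInstance, inferInstance, C.map φ, B.map ψ, fun r => d' r.2, (r0, r0'),
    fun a => ?_, fun j => ?_, fun a j => ⟨hc _ _, hc _ _, hc _ _, hc _ _⟩, fun a r s h => ?_,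
    fun j r s h => h2' j _ _ (right_ne_zero_of_mul h), h3', fun a s => ?_⟩
  · ext r s
    change C.i a r.1 s.1 * (1 : Matrix ρ' ρ' ℤ) r.2 s.2 = C.e a s.1 r.1 * (1 : Matrix _ _ ℤ) s.2 r.2
    simp [h1, Matrix.one_apply, eq_comm]
  · ext r s
    change (1 : Matrix ρ ρ ℤ) r.1 s.1 * B.i j r.2 s.2 = (1 : Matrix _ _ ℤ) s.1 r.1 * B.e j s.2 r.2
    simp [h1', Matrix.one_apply, eq_comm]
  · have : (1 : Matrix ρ' ρ' ℤ) r.2 s.2 ≠ 0 := right_ne_zero_of_mul h
    by_contra hn
    exact this (Matrix.one_apply_ne fun he => hn (congrArg d' he))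
  · exact mul_eq_zero_of_left (of_not_not fun h => by simpa [h3] using h2 a r0 s.1 h) _

end Pool.Agent.SE
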