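import Pool.Agent.P.MP_63735c_ag.SEFock2

/-! Further identities in the Fock algebra. -/

open scoped Matrix ContDiff

namespace Pool.Agent.SE

namespace Car

section Alg

variable {N : ℕ} {A R : Type} [Ring A] [CommRing R] [Algebra R A] (C : Car A N)

theorem ev_add (u v : Fin N → R) : C.ev (u + v) = C.ev u + C.ev v := by
  simp [ev, add_smul, Finset.sum_add_distrib]

theorem iv_add (u v : Fin N → R) : C.iv (u + v) = C.iv u + C.iv v := by
  simp [iv, add_smul, Finset.sum_add_distrib]

theorem ev_smul (c : R) (v : Fin N → R) : C.ev (c • v) = c • C.ev v := by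
  simp [ev, Finset.smul_sum, smul_smul]

theorem iv_smul (c : R) (v : Fin N → R) : C.iv (c • v) = c • C.iv v := by
  simp [iv, Finset.smul_sum, smul_smul]

theorem ev_single (a : Fin N) : C.ev (Pi.single a (1 : R)) = C.e a := by
  simp [ev, Pi.single_apply]

theorem iv_single (a : Fin N) : C.iv (Pi.single a (1 : R)) = C.i a := by
  simp [iv, Pi.single_apply]

theorem iv2 (v : Fin N → R) : C.iv v * C.iv v = 0 := by
  simp only [iv, Finset.sum_mul_sum, smul_mul_smul_comm]
  exact sym_zero C.i2 C.ii fun a b => mul_comm _ _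

theorem iv_iv (u v : Fin N → R) : C.iv u * C.iv v = -(C.iv v * C.iv u) := by
  have := C.iv2 (u + v)
  rw [iv_add, add_mul, mul_add, mul_add, iv2, iv2, zero_add, add_zero] at this
  exact eq_neg_of_add_eq_zero_left this

theorem iv_ev (u v : Fin N → R) : C.iv u * C.ev v = (u ⬝ᵥ v) • (1 : A) - C.ev v * C.iv u := by
  rw [ev, Finset.mul_sum, Finset.sum_mul, dotProduct, Finset.sum_smul, ← Finset.sum_sub_distrib]
  simp only [mul_smul_comm, smul_mul_assoc, iv_e, smul_sub, smul_smul, mul_comm]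

/-- The square of the Koszul operator. -/
theorem koszul_sq (u v : Fin N → R) :
    (C.ev v + C.iv u) * (C.ev v + C.iv u) = (u ⬝ᵥ v) • (1 : A) := by
  rw [add_mul, mul_add, mul_add, ev2, iv2, iv_ev]
  abel

theorem commute_ev {x : A} (he : ∀ a, Commute x (C.e a)) (v : Fin N → R) : Commute x (C.ev v) :=
  Commute.sum_right _ _ _ fun b _ => (he b).smul_right _

theorem commute_iv {x : A} (hi : ∀ a, Commute x (C.i a)) (v : Fin N → R) : Commute x (C.iv v) :=
  Commute.sum_right _ _ _ fun b _ => (hi b).smul_right _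

theorem par_ev (v : Fin N → R) :
    C.gam (-1 : Matrix (Fin N) (Fin N) R) * C.ev v = -(C.ev v * C.gam (-1 : Matrix _ _ R)) := by
  simp [ev, Finset.mul_sum, Finset.sum_mul, par_e]

theorem par_iv (v : Fin N → R) :
    C.gam (-1 : Matrix (Fin N) (Fin N) R) * C.iv v = -(C.iv v * C.gam (-1 : Matrix _ _ R)) := by
  simp [iv, Finset.mul_sum, Finset.sum_mul, par_i]

/-- Iterated contraction. -/
def il (l : List (Fin N → R)) : A := (l.map C.iv).prod

theorem il_nil : C.il ([] : List (Fin N → R)) = 1 := rfl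

theorem il_cons (u : Fin N → R) (l : List (Fin N → R)) : C.il (u :: l) = C.iv u * C.il l := by
  simp [il]

theorem il_append (l l' : List (Fin N → R)) : C.il (l ++ l') = C.il l * C.il l' := by
  simp [il]

theorem il_gam (M : Matrix (Fin N) (Fin N) R) : ∀ l : List (Fin N → R),
    C.il l * C.gam M = C.gam M * C.il (l.map fun u => u ᵥ* M)
  | [] => by simp [il]
  | u :: l => by
    rw [List.map_cons, il_cons, il_cons, mul_assoc, il_gam M l, ← mul_assoc, iv_gam, mul_assoc]

theorem vac_il_gam (M : Matrix (Fin N) (Fin N) R) (l : List (Fin N → R)) :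
    C.vac * C.il l * C.gam M = C.vac * C.il (l.map fun u => u ᵥ* M) := by
  rw [mul_assoc, il_gam, ← mul_assoc, vac_gam]

theorem vac_il_par : ∀ l : List (Fin N → R),
    C.vac * C.il l * C.gam (-1 : Matrix (Fin N) (Fin N) R) = (-1 : R) ^ l.length • (C.vac * C.il l) := by
  intro l
  have : ∀ l : List (Fin N → R), C.il (l.map fun u => u ᵥ* (-1 : Matrix (Fin N) (Fin N) R)) =
      (-1 : R) ^ l.length • C.il l := by
    intro l
    induction l with
    | nil => simp
    | cons u l ih =>
      rw [List.map_cons, il_cons, il_cons, ih, Matrix.vecMul_neg, Matrix.vecMul_one,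
        ← neg_one_smul R u, iv_smul, smul_mul_smul_comm, List.length_cons, pow_succ']
  rw [vac_il_gam, this, mul_smul_comm]

/-- A left ideal that contains all contractions contains `1`. -/
theorem one_mem {S : Set A} (hadd : ∀ x ∈ S, ∀ y ∈ S, x + y ∈ S) (hm : ∀ a, ∀ x ∈ S, C.e a * x ∈ S)
    (h : ∀ l : List (Fin N), C.vac * (l.map C.i).prod ∈ S) : (1 : A) ∈ S := by
  have : ∀ l l' : List (Fin N), C.gl C.e C.vac l * (l'.map C.i).prod ∈ S := by
    intro l
    induction l with
    | nil => exact h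
    | cons a l ih =>
      intro l'
      rw [gl, add_mul, mul_assoc, mul_assoc]
      exact hadd _ (ih _) _ (hm _ _ (by simpa using ih (a :: l')))
  have h1 := this (List.finRange N) []
  rwa [vac, C.gl_one (List.nodup_finRange N), List.map_nil, List.prod_nil, mul_one] at h1

end Alg

section Mat

variable {N : ℕ} {ρ : Type} [Fintype ρ] [DecidableEq ρ] {R : Type} [CommRing R]

/-- A vector all of whose contractions vanish is zero. -/
theorem eq_zero_of_il (C : Car (Matrix ρ ρ R) N) {V : ρ → R}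
    (h : ∀ l : List (Fin N), (C.vac * C.il (l.map fun a => Pi.single a (1 : R))) *ᵥ V = 0) :
    V = 0 := by
  have := C.one_mem (S := {x | x *ᵥ V = 0})
    (fun x hx y hy => by rw [Set.mem_ofPred_eq, Matrix.add_mulVec, hx, hy, add_zero])
    (fun a x hx => by rw [Set.mem_ofPred_eq, ← Matrix.mulVec_mulVec, hx, Matrix.mulVec_zero])
    fun l => by simpa [il, Function.comp_def, iv_single] using h l
  simpa using this

variable {C : Car (Matrix ρ ρ ℤ) N} {d : ρ → ℕ}

theorem diag_e (hd : ∀ a r s, C.e a r s ≠ 0 → d r = d s) (c : ℕ → R) (a : Fin N) :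
    Commute (Matrix.diagonal fun r => c (d r)) ((C.mat R).e a) := by
  ext r s
  by_cases h : C.e a r s = 0
  · simp [mat_e, h]
  · simp [hd a r s h, mul_comm]

theorem diag_i (hC : ∀ a, C.i a = (C.e a)ᵀ) (hd : ∀ a r s, C.e a r s ≠ 0 → d r = d s) (c : ℕ → R)
    (a : Fin N) : Commute (Matrix.diagonal fun r => c (d r)) ((C.mat R).i a) := by
  ext r s
  by_cases h : C.e a s r = 0
  · simp [mat_i, hC, h]
  · simp [hd a s r h, mul_comm]

theorem diag_gam (hC : ∀ a, C.i a = (C.e a)ᵀ) (hd : ∀ a r s, C.e a r s ≠ 0 → d r = d s)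
    (c : ℕ → R) (M : Matrix (Fin N) (Fin N) R) :
    Commute (Matrix.diagonal fun r => c (d r)) ((C.mat R).gam M) :=
  (C.mat R).commute_gam (diag_e hd c) (diag_i hC hd c) M

theorem diag_vac (hC : ∀ a, C.i a = (C.e a)ᵀ) (hd : ∀ a r s, C.e a r s ≠ 0 → d r = d s)
    (c : ℕ → R) : Commute (Matrix.diagonal fun r => c (d r)) (C.mat R).vac :=
  (C.mat R).commute_vac (diag_e hd c) (diag_i hC hd c)

theorem raise_e (hd : ∀ a r s, C.e a r s ≠ 0 → d r = d s + 1) (c : ℕ → R) (a : Fin N) :
    (Matrix.diagonal fun r => c (d r)) * (C.mat R).e a =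
      (C.mat R).e a * Matrix.diagonal fun r => c (d r + 1) := by
  ext r s
  by_cases h : C.e a r s = 0
  · simp [mat_e, h]
  · simp [hd a r s h, mul_comm]

theorem raise_i (hC : ∀ a, C.i a = (C.e a)ᵀ) (hd : ∀ a r s, C.e a r s ≠ 0 → d r = d s + 1)
    (c : ℕ → R) (a : Fin N) : (C.mat R).i a * (Matrix.diagonal fun r => c (d r)) =
      (Matrix.diagonal fun r => c (d r + 1)) * (C.mat R).i a := by
  ext r s
  by_cases h : C.e a s r = 0
  · simp [mat_i, hC, h]
  · simp [hd a s r h, mul_comm]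

theorem mat_commute {x y : Matrix ρ ρ ℤ} (h : Commute x y) :
    Commute ((Int.castRingHom R).mapMatrix x) ((Int.castRingHom R).mapMatrix y) := h.map _

/-- The basis vector `r0` is a vacuum vector. -/
theorem i_single (hC : ∀ a, C.i a = (C.e a)ᵀ) {r0 : ρ} (h : ∀ a s, C.e a r0 s = 0) (a : Fin N) :
    (C.mat R).i a *ᵥ Pi.single r0 1 = 0 := by
  ext s
  simp [mat_i, hC, h]

theorem vac_mulVec (C : Car (Matrix ρ ρ R) N) {V : ρ → R} (h : ∀ a, C.i a *ᵥ V = 0) :
    C.vac *ᵥ V = V := by
  rw [vac]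
  induction List.finRange N with
  | nil => simp [pl]
  | cons a l ih =>
    rw [pl_cons, ← Matrix.mulVec_mulVec, ih, ie_self, Matrix.sub_mulVec, ← Matrix.mulVec_mulVec, h,
      Matrix.mulVec_zero, sub_zero, Matrix.one_mulVec]

theorem gam_mulVec (C : Car (Matrix ρ ρ R) N) {V : ρ → R} (h : ∀ a, C.i a *ᵥ V = 0)
    (M : Matrix (Fin N) (Fin N) R) : C.gam M *ᵥ V = V := by
  rw [← C.vac_mulVec h, Matrix.mulVec_mulVec, gam_vac]

/-- The entries of `gam` are polynomials in the entries of the matrix. -/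
theorem gam_mem {X : Type} (C : Car (Matrix ρ ρ ℤ) N) (S : Subring (X → R))
    {M : X → Matrix (Fin N) (Fin N) R} (h : ∀ a b, (fun x => M x a b) ∈ S) (r s : ρ) :
    (fun x => (C.mat R).gam (M x) r s) ∈ S := by
  have : (fun x => (C.mat R).gam (M x) r s) =
      ((C.mat S).gam (Matrix.of fun a b => (⟨_, h a b⟩ : S)) r s).1 := by
    funext x
    exact (congrFun (congrFun (C.mat_gam ((Pi.evalRingHom (fun _ => R) x).comp S.subtype)
      (Matrix.of fun a b => (⟨_, h a b⟩ : S))) r) s).symm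
  rw [this]
  exact Subtype.prop _

theorem gam_contDiffOn {X : Type} [NormedAddCommGroup X] [NormedSpace ℝ X] {W : Set X}
    (C : Car (Matrix ρ ρ ℤ) N) {M : X → Matrix (Fin N) (Fin N) ℂ}
    (h : ∀ a b, ContDiffOn ℝ ∞ (fun x => M x a b) W) (r s : ρ) :
    ContDiffOn ℝ ∞ (fun x => (C.mat ℂ).gam (M x) r s) W :=
  C.gam_mem (R := ℂ)
    { carrier := {f : X → ℂ | ContDiffOn ℝ ∞ f W}
      mul_mem' := fun ha hb => ContDiffOn.mul ha hb
      one_mem' := contDiffOn_const
      add_mem' := fun ha hb => ContDiffOn.add ha hb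
      zero_mem' := contDiffOn_const
      neg_mem' := fun ha => ContDiffOn.neg ha } h r s

theorem gam_differentiableAt {𝕜 X : Type} [NontriviallyNormedField 𝕜] [NormedAlgebra 𝕜 ℂ]
    [NormedAddCommGroup X] [NormedSpace 𝕜 X] {z : X}
    (C : Car (Matrix ρ ρ ℤ) N) {M : X → Matrix (Fin N) (Fin N) ℂ}
    (h : ∀ a b, DifferentiableAt 𝕜 (fun x => M x a b) z) (r s : ρ) :
    DifferentiableAt 𝕜 (fun x => (C.mat ℂ).gam (M x) r s) z :=
  C.gam_mem (R := ℂ)
    { carrier := {f : X → ℂ | DifferentiableAt 𝕜 f z}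
      mul_mem' := fun ha hb => DifferentiableAt.mul ha hb
      one_mem' := differentiableAt_const _
      add_mem' := fun ha hb => DifferentiableAt.add ha hb
      zero_mem' := differentiableAt_const _
      neg_mem' := fun ha => DifferentiableAt.neg ha } h r s

end Mat

end Car

end Pool.Agent.SE
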