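import Pool.Agent.P.MP_63735c_ag.SEDefs

/-! Calculus for vector valued functions and first order operators. -/

open scoped ComplexOrder ContDiff Matrix Topology ENNReal InnerProductSpace
open Set Metric MeasureTheory Filter

namespace Pool.Agent.SE

open Pool.Agent.SPF Pool.Agent.AB

variable {N : ℕ} {ρ : Type} {W C : Set (E N)} {f g : E N → ρ → ℂ} {z : E N}
  {m : E N → Matrix ρ ρ ℂ}

/-- Entrywise `dz`. -/
noncomputable def dzM (l : Fin N) (m : E N → Matrix ρ ρ ℂ) (z : E N) : Matrix ρ ρ ℂ :=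
  Matrix.of fun r s => dz l (fun y => m y r s) z

/-- Entrywise `dzb`. -/
noncomputable def dbM (l : Fin N) (m : E N → Matrix ρ ρ ℂ) (z : E N) : Matrix ρ ρ ℂ :=
  Matrix.of fun r s => dzb l (fun y => m y r s) z

theorem dzv_congr (h : f =ᶠ[𝓝 z] g) (l : Fin N) :
    dzv l f z = dzv l g z ∧ dbv l f z = dbv l g z := by
  have h1 : ∀ r, (fun y => f y r) =ᶠ[𝓝 z] fun y => g y r := fun r => h.fun_comp fun u => u r
  exact ⟨funext fun r => (dz_congr (h1 r) l).self_of_nhds,
    funext fun r => (dzb_congr (h1 r) l).self_of_nhds⟩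

theorem SmM.dzM (hW : IsOpen W) (hm : SmM W m) (l : Fin N) :
    SmM W (dzM l m) ∧ SmM W (dbM l m) := by
  exact ⟨fun r s => (dz_smooth hW (hm r s) l).1, fun r s => (dz_smooth hW (hm r s) l).2⟩

theorem SmM.const (M : Matrix ρ ρ ℂ) : SmM W fun _ : E N => M := by
  exact fun _ _ => contDiffOn_const

theorem SmM.add {m' : E N → Matrix ρ ρ ℂ} (hm : SmM W m) (hm' : SmM W m') :
    SmM W fun z => m z + m' z := by
  exact fun r s => (hm r s).add (hm' r s)

theorem SmM.sub {m' : E N → Matrix ρ ρ ℂ} (hm : SmM W m) (hm' : SmM W m') :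
    SmM W fun z => m z - m' z := by
  exact fun r s => (hm r s).sub (hm' r s)

theorem SmM.smul {t : E N → ℂ} (ht : ContDiffOn ℝ ∞ t W) (hm : SmM W m) :
    SmM W fun z => t z • m z := by
  exact fun r s => ht.mul (hm r s)

theorem SmM.sum {κ : Type} (s : Finset κ) {M : κ → E N → Matrix ρ ρ ℂ}
    (hM : ∀ j ∈ s, SmM W (M j)) : SmM W fun z => ∑ j ∈ s, M j z := by
  intro r t
  simp only [Matrix.sum_apply]
  exact ContDiffOn.sum fun j hj => hM j hj r t

theorem tst_mono {F : Type} [NormedAddCommGroup F] [NormedSpace ℝ F] {r : E N → F}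
    {W' : Set (E N)} (hr : Tst W r) (h : W ⊆ W') : Tst W' r := by
  exact ⟨hr.smooth, hr.cpt, hr.sub.trans h⟩

/-- The product of a test function and a function that is smooth on `W`. -/
theorem tst_smul {F : Type} [NormedAddCommGroup F] [NormedSpace ℝ F] {τ : E N → ℝ} {r : E N → F}
    (hW : IsOpen W) (hτ : Tst W τ) (hr : ContDiffOn ℝ ∞ r W) :
    Tst W (fun y => τ y • r y) ∧ tsupport (fun y => τ y • r y) ⊆ tsupport τ := by
  have h1 : tsupport (fun y => τ y • r y) ⊆ tsupport τ := tsupport_smul_subset_left τ r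
  refine ⟨⟨contDiff_iff_contDiffAt.2 fun x => ?_,
    hτ.cpt.isCompact.of_isClosed_subset (isClosed_tsupport _) h1, h1.trans hτ.sub⟩, h1⟩
  by_cases hx : x ∈ W
  · exact hτ.smooth.contDiffAt.smul (hr.contDiffAt (hW.mem_nhds hx))
  · have h2 : x ∉ tsupport (fun y => τ y • r y) := fun h => hx (hτ.sub (h1 h))
    exact contDiffAt_const.congr_of_eventuallyEq (notMem_tsupport_iff_eventuallyEq.1 h2)

variable [Fintype ρ] {a b : Fin N → E N → Matrix ρ ρ ℂ} {c : E N → Matrix ρ ρ ℂ}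

theorem tst_comp (hf : Tst W f) (r : ρ) :
    Tst W (fun y => f y r) ∧ tsupport (fun y => f y r) ⊆ tsupport f := by
  have h1 : tsupport (fun y => f y r) ⊆ tsupport f :=
    closure_mono fun x hx h => hx (congrFun h r)
  exact ⟨⟨contDiff_pi.1 hf.smooth r,
    hf.cpt.isCompact.of_isClosed_subset (isClosed_tsupport _) h1, h1.trans hf.sub⟩, h1⟩

theorem tst_add (hf : Tst W f) (hg : Tst W g) : Tst W (fun y => f y + g y) ∧
    tsupport (fun y => f y + g y) ⊆ tsupport f ∪ tsupport g := by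
  have h1 : tsupport (fun y => f y + g y) ⊆ tsupport f ∪ tsupport g := tsupport_add f g
  exact ⟨⟨hf.smooth.add hg.smooth, hf.cpt.add hg.cpt, h1.trans (union_subset hf.sub hg.sub)⟩, h1⟩

theorem tst_const_smul (hf : Tst W f) (t : ℂ) : Tst W (fun y => t • f y) ∧
    tsupport (fun y => t • f y) ⊆ tsupport f := by
  have h1 : tsupport (fun y => t • f y) ⊆ tsupport f := tsupport_smul_subset_right (fun _ => t) f
  exact ⟨⟨hf.smooth.const_smul t,
    hf.cpt.isCompact.of_isClosed_subset (isClosed_tsupport _) h1, h1.trans hf.sub⟩, h1⟩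

theorem norm_sq_le_sum (u : ρ → ℂ) : ‖u‖ ^ 2 ≤ ∑ r, ‖u r‖ ^ 2 := by
  have h0 : 0 ≤ ∑ r, ‖u r‖ ^ 2 := Finset.sum_nonneg fun r _ => sq_nonneg _
  refine (Real.le_sqrt (norm_nonneg _) h0).1 ((pi_norm_le_iff_of_nonneg (Real.sqrt_nonneg _)).2
    fun r => Real.le_sqrt_of_sq_le ?_)
  exact Finset.single_le_sum (f := fun r => ‖u r‖ ^ 2) (fun r _ => sq_nonneg _) (Finset.mem_univ r)

theorem SmM.mul {m' : E N → Matrix ρ ρ ℂ} (hm : SmM W m) (hm' : SmM W m') :
    SmM W fun z => m z * m' z := by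
  intro r s
  simp only [Matrix.mul_apply]
  exact ContDiffOn.sum fun j _ => (hm r j).mul (hm' j s)

theorem SmM.inv [DecidableEq ρ] (hm : SmM W m) (h : ∀ z ∈ W, (m z).det ≠ 0) :
    SmM W fun z => (m z)⁻¹ := by
  have hd : ∀ A : E N → Matrix ρ ρ ℂ, SmM W A → ContDiffOn ℝ ∞ (fun z => (A z).det) W := by
    intro A hA
    simp only [Matrix.det_apply']
    exact ContDiffOn.sum fun σ _ => contDiffOn_const.mul (contDiffOn_prod fun i _ => hA _ _)
  intro a b
  have h2 : ContDiffOn ℝ ∞ (fun z => (m z).adjugate a b) W := by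
    simp only [Matrix.adjugate_apply]
    refine hd _ fun c d => ?_
    simp only [Matrix.updateRow_apply]
    split_ifs
    · exact contDiffOn_const
    · exact hm c d
  refine (((hd m hm).inv h).mul h2).congr fun z _ => ?_
  simp [Matrix.inv_def]

theorem SmM.mulVec (hm : SmM W m) (hf : ContDiffOn ℝ ∞ f W) :
    ContDiffOn ℝ ∞ (fun z => m z *ᵥ f z) W := by
  refine contDiffOn_pi.2 fun r => ?_
  simp only [Matrix.mulVec, dotProduct]
  exact ContDiffOn.sum fun s _ => (hm r s).mul (contDiffOn_pi.1 hf s)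

theorem dzv_smooth (hW : IsOpen W) (hf : ContDiffOn ℝ ∞ f W) (l : Fin N) :
    ContDiffOn ℝ ∞ (dzv l f) W ∧ ContDiffOn ℝ ∞ (dbv l f) W := by
  exact ⟨contDiffOn_pi.2 fun r => (dz_smooth hW (contDiffOn_pi.1 hf r) l).1,
    contDiffOn_pi.2 fun r => (dz_smooth hW (contDiffOn_pi.1 hf r) l).2⟩

theorem dzv_add (hf : DifferentiableAt ℝ f z) (hg : DifferentiableAt ℝ g z) (l : Fin N) :
    dzv l (fun y => f y + g y) z = dzv l f z + dzv l g z ∧
      dbv l (fun y => f y + g y) z = dbv l f z + dbv l g z := by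
  have h := fun r => dz_add (differentiableAt_pi.1 hf r) (differentiableAt_pi.1 hg r) l
  exact ⟨funext fun r => (h r).1, funext fun r => (h r).2⟩

theorem dzv_sub (hf : DifferentiableAt ℝ f z) (hg : DifferentiableAt ℝ g z) (l : Fin N) :
    dzv l (fun y => f y - g y) z = dzv l f z - dzv l g z ∧
      dbv l (fun y => f y - g y) z = dbv l f z - dbv l g z := by
  have h := fun r => dz_sub (differentiableAt_pi.1 hf r) (differentiableAt_pi.1 hg r) l
  exact ⟨funext fun r => (h r).1, funext fun r => (h r).2⟩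

theorem dzv_smul {t : E N → ℂ} (ht : DifferentiableAt ℝ t z) (hf : DifferentiableAt ℝ f z)
    (l : Fin N) : dzv l (fun y => t y • f y) z = dz l t z • f z + t z • dzv l f z ∧
      dbv l (fun y => t y • f y) z = dzb l t z • f z + t z • dbv l f z := by
  have h := fun r => dz_mul ht (differentiableAt_pi.1 hf r) l
  exact ⟨funext fun r => (h r).1, funext fun r => (h r).2⟩

theorem dzv_const_smul (hf : DifferentiableAt ℝ f z) (t : ℂ) (l : Fin N) :
    dzv l (fun y => t • f y) z = t • dzv l f z ∧ dbv l (fun y => t • f y) z = t • dbv l f z := by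
  have h := dzv_smul (differentiableAt_const t) hf l
  rwa [(dz_const l t).1, (dz_const l t).2, zero_smul, zero_add, zero_add] at h

theorem dzv_mulVec (hm : ∀ r s, DifferentiableAt ℝ (fun y => m y r s) z)
    (hf : DifferentiableAt ℝ f z) (l : Fin N) :
    dzv l (fun y => m y *ᵥ f y) z = dzM l m z *ᵥ f z + m z *ᵥ dzv l f z ∧
      dbv l (fun y => m y *ᵥ f y) z = dbM l m z *ᵥ f z + m z *ᵥ dbv l f z := by
  have h := fun r => dz_sum Finset.univ (F := fun s y => m y r s * f y s)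
    (fun s _ => (hm r s).mul (differentiableAt_pi.1 hf s)) l
  have h2 := fun r s => dz_mul (hm r s) (differentiableAt_pi.1 hf s) l
  refine ⟨funext fun r => ((h r).1.trans (Finset.sum_congr rfl fun s _ => (h2 r s).1)).trans ?_,
    funext fun r => ((h r).2.trans (Finset.sum_congr rfl fun s _ => (h2 r s).2)).trans ?_⟩
  · exact Finset.sum_add_distrib
  · exact Finset.sum_add_distrib

theorem op_congr (h : f =ᶠ[𝓝 z] g) : op a b c f z = op a b c g z := by
  simp only [op, fun l => (dzv_congr h l).1, fun l => (dzv_congr h l).2, h.self_of_nhds]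

theorem op_zero (h : ∀ᶠ y in 𝓝 z, f y = 0) : op a b c f z = 0 := by
  rw [op_congr (g := fun _ => 0) h]
  have h1 : ∀ l, dzv l (fun _ : E N => (0 : ρ → ℂ)) z = 0 := fun l =>
    funext fun _ => (dz_const l 0).1
  have h2 : ∀ l, dbv l (fun _ : E N => (0 : ρ → ℂ)) z = 0 := fun l =>
    funext fun _ => (dz_const l 0).2
  simp [op, h1, h2]

theorem op_add (hf : DifferentiableAt ℝ f z) (hg : DifferentiableAt ℝ g z) :
    op a b c (fun y => f y + g y) z = op a b c f z + op a b c g z := by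
  simp only [op, fun l => (dzv_add hf hg l).1, fun l => (dzv_add hf hg l).2, Matrix.mulVec_add,
    Finset.sum_add_distrib]
  abel

theorem op_sub (hf : DifferentiableAt ℝ f z) (hg : DifferentiableAt ℝ g z) :
    op a b c (fun y => f y - g y) z = op a b c f z - op a b c g z := by
  simp only [op, fun l => (dzv_sub hf hg l).1, fun l => (dzv_sub hf hg l).2, Matrix.mulVec_sub,
    Finset.sum_add_distrib, Finset.sum_sub_distrib]
  abel

theorem op_const_smul (hf : DifferentiableAt ℝ f z) (t : ℂ) :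
    op a b c (fun y => t • f y) z = t • op a b c f z := by
  simp only [op, fun l => (dzv_const_smul hf t l).1, fun l => (dzv_const_smul hf t l).2,
    Matrix.mulVec_smul, smul_add, Finset.smul_sum]

theorem op_smul {t : E N → ℂ} (ht : DifferentiableAt ℝ t z) (hf : DifferentiableAt ℝ f z) :
    op a b c (fun y => t y • f y) z =
      t z • op a b c f z + (∑ l, (dz l t z • a l z + dzb l t z • b l z)) *ᵥ f z := by
  simp only [op, fun l => (dzv_smul ht hf l).1, fun l => (dzv_smul ht hf l).2, Matrix.mulVec_add,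
    Matrix.mulVec_smul, smul_add, Finset.smul_sum, Matrix.sum_mulVec, Matrix.add_mulVec,
    Matrix.smul_mulVec, Finset.sum_add_distrib]
  abel

/-- The commutator with a multiplication that commutes with the symbol has order zero. -/
theorem op_mulVec (hm : ∀ r s, DifferentiableAt ℝ (fun y => m y r s) z)
    (hf : DifferentiableAt ℝ f z)
    (hc : ∀ l, a l z * m z = m z * a l z ∧ b l z * m z = m z * b l z) :
    op a b c (fun y => m y *ᵥ f y) z - m z *ᵥ op a b c f z =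
      (∑ l, (a l z * dzM l m z + b l z * dbM l m z) + (c z * m z - m z * c z)) *ᵥ f z := by
  simp only [op, fun l => (dzv_mulVec hm hf l).1, fun l => (dzv_mulVec hm hf l).2,
    Matrix.mulVec_add, Matrix.mulVec_mulVec, Matrix.mulVec_sum, Matrix.sum_mulVec,
    Matrix.add_mulVec, Matrix.sub_mulVec, fun l => (hc l).1, fun l => (hc l).2,
    Finset.sum_add_distrib]
  abel

theorem op_smooth (hW : IsOpen W) (ha : ∀ l, SmM W (a l)) (hb : ∀ l, SmM W (b l)) (hc : SmM W c)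
    (hf : ContDiffOn ℝ ∞ f W) : ContDiffOn ℝ ∞ (op a b c f) W := by
  exact (ContDiffOn.sum fun l _ => ((ha l).mulVec (dzv_smooth hW hf l).1).add
    ((hb l).mulVec (dzv_smooth hW hf l).2)).add (hc.mulVec hf)

section
variable {Z : Type} [TopologicalSpace Z] {K : Set Z} {H : Z → Matrix ρ ρ ℂ}

theorem hp_upper (hK : IsCompact K) (hc : ∀ r s, ContinuousOn (fun z => H z r s) K) :
    ∃ A : ℝ, 0 < A ∧ ∀ z ∈ K, ∀ u v, ‖H z *ᵥ u‖ ≤ A * ‖u‖ ∧ ‖hp (H z) u v‖ ≤ A * ‖u‖ * ‖v‖ := by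
  obtain ⟨B, hB⟩ := hK.exists_bound_of_continuousOn (f := fun z => (fun r s => H z r s : ρ → ρ → ℂ))
    (continuousOn_pi.2 fun r => continuousOn_pi.2 fun s => hc r s)
  have hd : ∀ u v : ρ → ℂ, ‖u ⬝ᵥ v‖ ≤ (Fintype.card ρ + 1) * ‖u‖ * ‖v‖ := fun u v =>
    calc ‖u ⬝ᵥ v‖ ≤ ∑ k, ‖u k * v k‖ := norm_sum_le _ _
      _ ≤ ∑ _k : ρ, ‖u‖ * ‖v‖ := Finset.sum_le_sum fun k _ => by
        rw [norm_mul]
        exact mul_le_mul (norm_le_pi_norm u k) (norm_le_pi_norm v k) (norm_nonneg _)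
          (norm_nonneg _)
      _ ≤ _ := by
        rw [Finset.sum_const, Finset.card_univ, nsmul_eq_mul]
        nlinarith [mul_nonneg (norm_nonneg u) (norm_nonneg v)]
  obtain ⟨n, hn⟩ : ∃ n : ℝ, n = Fintype.card ρ + 1 := ⟨_, rfl⟩
  have h0 : 1 ≤ n := by rw [hn]; linarith [Nat.cast_nonneg (α := ℝ) (Fintype.card ρ)]
  rw [← hn] at hd
  refine ⟨n * (n * (|B| + 1)), by positivity, fun z hz u v => ?_⟩
  have h1 : ∀ u, ‖H z *ᵥ u‖ ≤ n * (|B| + 1) * ‖u‖ := fun u => by
    refine (pi_norm_le_iff_of_nonneg (by positivity)).2 fun r => (hd _ u).trans ?_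
    have h2 : ‖fun s => H z r s‖ ≤ |B| + 1 :=
      (norm_le_pi_norm _ r).trans ((hB z hz).trans (by linarith [le_abs_self B]))
    gcongr
  refine ⟨(h1 u).trans (mul_le_mul_of_nonneg_right
    (le_mul_of_one_le_left (by positivity) h0) (norm_nonneg _)), (hd _ _).trans ?_⟩
  rw [norm_star]
  calc n * ‖u‖ * ‖H z *ᵥ v‖ ≤ n * ‖u‖ * (n * (|B| + 1) * ‖v‖) := by gcongr; exact h1 v
    _ = _ := by ring

theorem hp_lower (hK : IsCompact K) (hc : ∀ r s, ContinuousOn (fun z => H z r s) K)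
    (h0 : ∀ z ∈ K, (H z).PosDef) :
    ∃ e : ℝ, 0 < e ∧ ∀ z ∈ K, ∀ u, e * ‖u‖ ^ 2 ≤ (hp (H z) u u).re := by
  have hf : ContinuousOn (fun p : Z × (ρ → ℂ) => (hp (H p.1) p.2 p.2).re) (K ×ˢ sphere 0 1) :=
    Complex.continuous_re.comp_continuousOn (hp_contOn
      (fun r s => (hc r s).comp continuousOn_fst fun p h => h.1) continuousOn_snd continuousOn_snd)
  obtain ⟨e, he0, he1⟩ := (hK.prod (isCompact_sphere (0 : ρ → ℂ) 1)).exists_forall_le' hf (a := 0)
    fun p h => (Complex.pos_iff.1 ((h0 p.1 h.1).dotProduct_mulVec_pos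
      (ne_zero_of_mem_unit_sphere ⟨p.2, h.2⟩))).1
  refine ⟨e, he0, fun z hz u => ?_⟩
  rcases eq_or_ne u 0 with rfl | hu
  · simp [hp]
  have h2 : ‖u‖ ≠ 0 := norm_ne_zero_iff.2 hu
  have h1 := he1 (z, ((‖u‖⁻¹ : ℝ) : ℂ) • u) ⟨hz, by
    rw [mem_sphere_zero_iff_norm, norm_smul, Complex.norm_real, norm_inv, norm_norm,
      inv_mul_cancel₀ h2]⟩
  have h3 : ∀ (t : ℂ) (v w : ρ → ℂ), hp (H z) v (t • w) = t * hp (H z) v w := fun t v w => by
    simp [hp, Matrix.mulVec_smul]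
  simp only [hp_smul_left, h3, Complex.star_def, Complex.conj_ofReal,
    Complex.re_ofReal_mul] at h1
  calc e * ‖u‖ ^ 2 ≤ ‖u‖⁻¹ * (‖u‖⁻¹ * (hp (H z) u u).re) * ‖u‖ ^ 2 := by gcongr
    _ = _ := by field_simp

end

theorem op_bound (hC : IsCompact C) (h : C ⊆ W) (ha : ∀ l, SmM W (a l)) (hb : ∀ l, SmM W (b l))
    (hc : SmM W c) : ∃ A : ℝ, 0 < A ∧ ∀ (f : E N → ρ → ℂ), ∀ z ∈ C, ∀ L : ℝ, ‖f z‖ ≤ L →
      (∀ l, ‖dzv l f z‖ ≤ L ∧ ‖dbv l f z‖ ≤ L) → ‖op a b c f z‖ ≤ A * L := by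
  have hu : ∀ m : E N → Matrix ρ ρ ℂ, SmM W m → ∃ A : ℝ, 0 < A ∧ ∀ z ∈ C, ∀ u,
      ‖m z *ᵥ u‖ ≤ A * ‖u‖ := fun m hm => by
    obtain ⟨A, h0, h1⟩ := hp_upper hC fun r s => (hm r s).continuousOn.mono h
    exact ⟨A, h0, fun z hz u => (h1 z hz u u).1⟩
  choose A hA hA' using fun l => hu _ (ha l)
  choose B hB hB' using fun l => hu _ (hb l)
  obtain ⟨D, hD, hD'⟩ := hu _ hc
  have h0 : 0 ≤ ∑ l, (A l + B l) := Finset.sum_nonneg fun l _ => (add_pos (hA l) (hB l)).le
  refine ⟨∑ l, (A l + B l) + D, by linarith, fun f z hz L h1 h2 => ?_⟩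
  rw [add_mul, Finset.sum_mul]
  refine (norm_add_le _ _).trans (add_le_add ((norm_sum_le _ _).trans
    (Finset.sum_le_sum fun l _ => (norm_add_le _ _).trans ?_))
    ((hD' z hz _).trans (mul_le_mul_of_nonneg_left h1 hD.le)))
  rw [add_mul]
  exact add_le_add ((hA' l z hz _).trans (mul_le_mul_of_nonneg_left (h2 l).1 (hA l).le))
    ((hB' l z hz _).trans (mul_le_mul_of_nonneg_left (h2 l).2 (hB l).le))


end Pool.Agent.SE
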