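import Pool.Agent.P.MP_63735c_ag.SEHo
import Pool.Agent.P.MP_63735c_ag.SENorm
import Pool.Agent.P.MP_63735c_ag.SEEx

/-! Holomorphic limits on the manifold. -/

open scoped ComplexOrder ContDiff Matrix Topology ENNReal InnerProductSpace
open Set Metric MeasureTheory Filter

namespace Pool.Agent.SE

open Pool.Agent.SPF Pool.Agent.AB

variable {N : ℕ} {ρ Y : Type} [Fintype ρ] [DecidableEq ρ] [TopologicalSpace Y] [MeasurableSpace Y]
  [CompactSpace Y] [T2Space Y] [BorelSpace Y] {B : Bun Y N ρ}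
  {D : B.Sec →ₗ[ℂ] B.Sec}

namespace Bun

theorem segl_comp {i : B.ι} {C : Set (E N)} (hC : IsCompact C) (h : C ⊆ B.W i) :
    ∃ A : ℝ, 0 < A ∧ ∀ (V V' : B.Sec) (r : ρ),
      ∫ z in C, ‖V.v i z r - V'.v i z r‖ ^ 2 ≤ A * ‖V - V'‖ ^ 2 := by
  obtain ⟨A, hA, hl⟩ := lower hC h
  refine ⟨A, hA, fun V V' r => le_trans ?_ (hl (V - V'))⟩
  have hc : ContinuousOn ((V - V').v i) C := ((V - V').smooth i).continuousOn.mono h
  refine integral_mono_of_nonneg (Eventually.of_forall fun z => by positivity)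
    ((hc.norm.pow 2).integrableOn_compact hC) (Eventually.of_forall fun z => ?_)
  exact pow_le_pow_left₀ (norm_nonneg _) (norm_le_pi_norm ((V - V').v i z) r) 2

theorem segl_sq {u : ℕ → B.Sec} (hu : Tendsto u atTop (𝓝 0)) (A : ℝ) :
    Tendsto (fun k => A * ‖u k‖ ^ 2) atTop (𝓝 0) := by
  simpa using (hu.norm.pow 2).const_mul A

theorem segl_loc (h : B.Ell D) {u : ℕ → B.Sec} (hu : CauchySeq u)
    (hd : Tendsto (fun k => D (u k)) atTop (𝓝 0)) (i : B.ι) (r : ρ) :
    ∃ g, DifferentiableOn ℂ g (B.W i) ∧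
      ∀ C, IsCompact C → C ⊆ B.W i → L2to (fun k y => (u k).v i y r) g C := by
  refine ho_loc (B.isOpen i) (fun k => contDiffOn_pi.1 ((u k).smooth i) r) (fun C hC hs => ?_)
    fun C hC hs => ?_
  · obtain ⟨A, hA, hl⟩ := segl_comp hC hs
    intro ε hε
    obtain ⟨M, hM⟩ := Metric.cauchySeq_iff.1 hu (√(ε / A)) (by positivity)
    refine ⟨M, fun k hk l hl' => (hl _ _ r).trans ?_⟩
    have h1 := hM k hk l hl'
    rw [dist_eq_norm] at h1
    have h2 := pow_le_pow_left₀ (norm_nonneg _) h1.le 2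
    rw [Real.sq_sqrt (by positivity), le_div_iff₀ hA] at h2
    linarith
  · obtain ⟨A, -, hg⟩ := h.gar i C hC hs
    exact squeeze_zero (fun k => integral_nonneg fun z => by positivity) (fun k => hg (u k) r)
      (segl_sq hd A)

theorem segl_piece {i : B.ι} {τ : E N → ℝ} (hτ : Tst (B.W i) τ) {u : ℕ → B.Sec}
    {g : E N → ρ → ℂ} (hg : ContDiffOn ℝ ∞ g (B.W i))
    (hl : ∀ r, L2to (fun k y => (u k).v i y r) (fun y => g y r) (tsupport τ)) :
    Tendsto (fun k => (B.ex i fun z => τ z • (u k).v i z) - B.ex i fun z => τ z • g z) atTop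
      (𝓝 0) := by
  have hC : IsCompact (tsupport τ) := hτ.cpt
  obtain ⟨A, hA, hup⟩ := upper hC hτ.sub
  obtain ⟨T, hT⟩ := hC.exists_bound_of_continuousOn hτ.smooth.continuous.continuousOn
  have h1 := fun k => tst_smul (B.isOpen i) hτ ((u k).smooth i)
  have h2 := tst_smul (B.isOpen i) hτ hg
  have hlim : Tendsto (fun k => A * (T ^ 2 *
      ∑ r, ∫ z in tsupport τ, ‖(u k).v i z r - g z r‖ ^ 2)) atTop (𝓝 0) := by
    simpa using ((tendsto_finsetSum Finset.univ fun r _ => hl r).const_mul (T ^ 2)).const_mul A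
  rw [tendsto_zero_iff_norm_tendsto_zero]
  have hsq : Tendsto (fun k => ‖(B.ex i fun z => τ z • (u k).v i z) -
      B.ex i fun z => τ z • g z‖ ^ 2) atTop (𝓝 0) := by
    refine squeeze_zero (fun k => by positivity) (fun k => ?_) hlim
    refine (hup _ ((ex_supp (h1 k).1 (h1 k).2).sub (ex_supp h2.1 h2.2))).trans ?_
    refine mul_le_mul_of_nonneg_left ?_ hA.le
    have hi : ∀ r, IntegrableOn (fun z => ‖(u k).v i z r - g z r‖ ^ 2) (tsupport τ) := fun r =>
      ((((continuousOn_pi.1 ((u k).smooth i).continuousOn r).sub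
        (continuousOn_pi.1 hg.continuousOn r)).mono hτ.sub).norm.pow 2).integrableOn_compact hC
    rw [← integral_finsetSum _ fun r _ => hi r, ← integral_const_mul]
    refine integral_mono_of_nonneg (Eventually.of_forall fun z => by positivity)
      ((integrable_finsetSum _ fun r _ => hi r).const_mul _) ?_
    filter_upwards [ae_restrict_mem hC.measurableSet] with z hz
    rw [v_sub, ex_self (h1 k).1 (hτ.sub hz), ex_self h2.1 (hτ.sub hz), ← smul_sub, norm_smul,
      mul_pow]
    exact mul_le_mul (pow_le_pow_left₀ (norm_nonneg _) (hT z hz) 2)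
      (norm_sq_le_sum ((u k).v i z - g z)) (by positivity) (by positivity)
  simpa using hsq.sqrt

theorem Ell.ho (h : B.Ell D) {u : ℕ → B.Sec} (hu : CauchySeq u)
    (hd : Tendsto (fun k => D (u k)) atTop (𝓝 0)) : ∃ V ∈ B.Hol, Tendsto u atTop (𝓝 V) := by
  choose g hg hl using segl_loc h hu hd
  obtain ⟨P⟩ := exists_PU B
  have hs : ∀ i, ContDiffOn ℝ ∞ (fun z r => g i r z) (B.W i) := fun i =>
    contDiffOn_pi.2 fun r =>
      (Lib.SCV.contDiffOn_of_differentiableOn (B.isOpen i) (hg i r)).restrict_scalars ℝ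
  set V : B.Sec := ∑ a, B.ex (P.c a) fun z => P.τ a z • fun r => g (P.c a) r z with hV
  have h0 : Tendsto (fun k => u k - V) atTop (𝓝 0) := by
    have h1 := tendsto_finsetSum Finset.univ fun a _ =>
      segl_piece (P.tst a) (hs (P.c a)) fun r => hl (P.c a) r _ (P.tst a).cpt (P.tst a).sub
    rw [Finset.sum_const_zero] at h1
    refine h1.congr fun k => ?_
    rw [Finset.sum_sub_distrib, P.decomp]
  refine ⟨V, fun i => differentiableOn_pi.2 fun r => (hg i r).congr fun z hz => ?_,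
    tendsto_sub_nhds_zero_iff.1 h0⟩
  refine l2_unique (f := fun k y => (u k).v i y r) (B.isOpen i)
    (fun k => continuousOn_pi.1 ((u k).smooth i).continuousOn r)
    (continuousOn_pi.1 (V.smooth i).continuousOn r) (hg i r).continuousOn (fun C hC hs' => ?_)
    (hl i r) hz
  obtain ⟨A, -, hA⟩ := segl_comp hC hs'
  exact squeeze_zero (fun k => integral_nonneg fun z => by positivity) (fun k => hA _ _ r)
    (segl_sq h0 A)

end Bun

end Pool.Agent.SE
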