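import Pool.Agent.P.MP_63735c_ag.ABWeyl
import Pool.Agent.P.MP_63735c_ag.ABInt

/-! Limits of almost holomorphic functions. -/

open scoped ComplexOrder ContDiff Matrix Topology ENNReal InnerProductSpace
open Set Metric MeasureTheory Filter

namespace Pool.Agent.SE

open Pool.Agent.SPF Pool.Agent.AB

variable {N : ℕ} {W : Set (E N)} {f : ℕ → E N → ℂ} {g g' : E N → ℂ}

/-- Convergence in the mean on `C`. -/
def L2to (f : ℕ → E N → ℂ) (g : E N → ℂ) (C : Set (E N)) : Prop :=
  Tendsto (fun k => ∫ z in C, ‖f k z - g z‖ ^ 2) atTop (𝓝 0)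

/-- Cauchy in the mean on `C`. -/
def L2c (f : ℕ → E N → ℂ) (C : Set (E N)) : Prop :=
  ∀ ε : ℝ, 0 < ε → ∃ M, ∀ k ≥ M, ∀ l ≥ M, ∫ z in C, ‖f k z - f l z‖ ^ 2 ≤ ε

section Aux

variable {α : Type} [MeasurableSpace α] {μ : Measure α}

theorem seho_nsq {h : α → ℂ} (hh : MemLp h 2 μ) : ‖hh.toLp h‖ ^ 2 = ∫ x, ‖h x‖ ^ 2 ∂μ := by
  rw [← real_inner_self_eq_norm_sq, L2.inner_def]
  refine integral_congr_ae ?_
  filter_upwards [hh.coeFn_toLp] with x hx
  rw [hx, real_inner_self_eq_norm_sq]

theorem seho_lim {h : ℕ → α → ℂ} (hh : ∀ k, MemLp (h k) 2 μ)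
    (hc : ∀ ε : ℝ, 0 < ε → ∃ M, ∀ k ≥ M, ∀ l ≥ M, ∫ x, ‖h k x - h l x‖ ^ 2 ∂μ ≤ ε) :
    ∃ F : α → ℂ, MemLp F 2 μ ∧ Tendsto (fun k => ∫ x, ‖h k x - F x‖ ^ 2 ∂μ) atTop (𝓝 0) := by
  have h1 : CauchySeq fun k => (hh k).toLp (h k) := by
    refine Metric.cauchySeq_iff.2 fun ε hε => ?_
    obtain ⟨M, hM⟩ := hc ((ε / 2) ^ 2) (by positivity)
    refine ⟨M, fun k hk l hl => ?_⟩
    have e := seho_nsq ((hh k).sub (hh l))
    rw [MemLp.toLp_sub (hh k) (hh l)] at e
    rw [dist_eq_norm]
    have h2 : ‖(hh k).toLp (h k) - (hh l).toLp (h l)‖ ^ 2 ≤ (ε / 2) ^ 2 := e.trans_le (hM k hk l hl)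
    have h3 := (pow_le_pow_iff_left₀ (norm_nonneg _) (by positivity) two_ne_zero).1 h2
    linarith
  obtain ⟨U, hU⟩ := cauchySeq_tendsto_of_complete h1
  refine ⟨U, Lp.memLp U, ?_⟩
  have h2 := (tendsto_iff_norm_sub_tendsto_zero.1 hU).pow 2
  rw [zero_pow two_ne_zero] at h2
  refine h2.congr fun k => ?_
  have e := seho_nsq ((hh k).sub (Lp.memLp U))
  rw [MemLp.toLp_sub (hh k) (Lp.memLp U), Lp.toLp_coeFn] at e
  exact e

theorem seho_mul {h : ℕ → α → ℂ} {r : α → ℂ} (hh : ∀ k, MemLp (h k) 2 μ) (hr : MemLp r 2 μ)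
    (h0 : Tendsto (fun k => ∫ x, ‖h k x‖ ^ 2 ∂μ) atTop (𝓝 0)) :
    Tendsto (fun k => ∫ x, h k x * r x ∂μ) atTop (𝓝 0) := by
  have h1 : Tendsto (fun k => (hh k).toLp (h k)) atTop (𝓝 0) := by
    rw [tendsto_zero_iff_norm_tendsto_zero]
    have h2 := h0.sqrt
    rw [Real.sqrt_zero] at h2
    refine h2.congr fun k => ?_
    rw [← seho_nsq (hh k), Real.sqrt_sq (norm_nonneg _)]
  have h2 := (tendsto_const_nhds (x := hr.star.toLp _)).inner (𝕜 := ℂ) h1
  rw [inner_zero_right] at h2
  refine h2.congr fun k => ?_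
  rw [L2.inner_def]
  refine integral_congr_ae ?_
  filter_upwards [hr.star.coeFn_toLp, (hh k).coeFn_toLp] with x h3 h4
  rw [h3, h4]
  simp

theorem seho_sub {h : ℕ → α → ℝ} {s t : Set α} (hst : s ⊆ t) (hi : ∀ k, IntegrableOn (h k) t μ)
    (hp : ∀ k x, 0 ≤ h k x) (h0 : Tendsto (fun k => ∫ x in t, h k x ∂μ) atTop (𝓝 0)) :
    Tendsto (fun k => ∫ x in s, h k x ∂μ) atTop (𝓝 0) :=
  squeeze_zero (fun k => integral_nonneg (hp k))
    (fun k => setIntegral_mono_set (hi k) (Eventually.of_forall (hp k)) hst.eventuallyLE) h0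

end Aux

theorem seho_int {C : Set (E N)} {F : Type} [NormedAddCommGroup F] {h : E N → F}
    (hC : IsCompact C) (hh : ContinuousOn h C) : IntegrableOn (fun x => ‖h x‖ ^ 2) C volume :=
  (hh.norm.pow 2).integrableOn_compact hC

theorem seho_mem {C : Set (E N)} {h : E N → ℂ} (hC : IsCompact C) (hh : ContinuousOn h C) :
    MemLp h 2 (volume.restrict C) :=
  (memLp_two_iff_integrable_sq_norm (hh.aestronglyMeasurable hC.measurableSet)).2 (seho_int hC hh)

theorem ho_ball {z : E N} {R : ℝ} (hR : 0 < R) (hW : IsOpen W) (hs : closedBall z (2 * R) ⊆ W)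
    (hf : ∀ k, ContDiffOn ℝ ∞ (f k) W) (hc : L2c f (closedBall z (2 * R)))
    (hd : Tendsto (fun k => ∫ y in closedBall z (2 * R), ‖db (f k) y‖ ^ 2) atTop (𝓝 0)) :
    ∃ g, DifferentiableOn ℂ g (ball z R) ∧ ∀ C, IsCompact C → C ⊆ ball z R → L2to f g C := by
  have hB : IsCompact (closedBall z (2 * R)) := isCompact_closedBall _ _
  have hO : ball z (2 * R) ⊆ closedBall z (2 * R) := ball_subset_closedBall
  have hle : volume.restrict (ball z (2 * R)) ≤ volume.restrict (closedBall z (2 * R)) :=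
    Measure.restrict_mono hO le_rfl
  have hm : ∀ k, MemLp (f k) 2 (volume.restrict (closedBall z (2 * R))) :=
    fun k => seho_mem hB ((hf k).continuousOn.mono hs)
  obtain ⟨F, hF, hlim⟩ := seho_lim hm hc
  have hi : ∀ k, IntegrableOn (fun x => ‖f k x - F x‖ ^ 2) (closedBall z (2 * R)) volume :=
    fun k => (memLp_two_iff_integrable_sq_norm ((hm k).sub hF).1).1 ((hm k).sub hF)
  have : IsFiniteMeasure (volume.restrict (closedBall z (2 * R))) :=
    isFiniteMeasure_restrict.2 hB.measure_lt_top.ne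
  have hF1 : IntegrableOn F (ball z (2 * R)) volume :=
    (hF.integrable one_le_two).mono_measure hle
  obtain ⟨G, hG, hGF⟩ := weyl hR hF1 fun r hr a => by
    have m1 : MemLp r 2 (volume.restrict (ball z (2 * R))) :=
      (seho_mem hB hr.smooth.continuous.continuousOn).mono_measure hle
    have m2 : MemLp (dzb a r) 2 (volume.restrict (ball z (2 * R))) :=
      (seho_mem hB (hr.dz_tst a).2.smooth.continuous.continuousOn).mono_measure hle
    have c3 : ∀ k, ContinuousOn (dzb a (f k)) (closedBall z (2 * R)) :=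
      fun k => (dz_smooth hW (hf k) a).2.continuousOn.mono hs
    have m3 : ∀ k, MemLp (dzb a (f k)) 2 (volume.restrict (ball z (2 * R))) :=
      fun k => (seho_mem hB (c3 k)).mono_measure hle
    have m4 : ∀ k, MemLp (fun x => f k x - F x) 2 (volume.restrict (ball z (2 * R))) :=
      fun k => ((hm k).sub hF).mono_measure hle
    have t1 := seho_mul m4 m2 (seho_sub hO hi (fun _ _ => by positivity) hlim)
    have t2 := seho_mul m3 m1 (seho_sub hO (fun k => seho_int hB (c3 k)) (fun _ _ => by positivity)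
      (squeeze_zero (fun k => integral_nonneg fun _ => by positivity) (fun k =>
        integral_mono (seho_int hB (c3 k))
          (seho_int hB ((db_smooth hW (hf k)).continuousOn.mono hs)) fun y =>
          pow_le_pow_left₀ (norm_nonneg _) (norm_le_pi_norm (db (f k) y) a) 2) hd))
    have t3 := (t1.add t2).neg
    rw [add_zero, neg_zero] at t3
    refine tendsto_nhds_unique tendsto_const_nhds (t3.congr fun k => ?_)
    have hk : ContDiffOn ℝ ∞ (f k) (ball z (2 * R)) := (hf k).mono (hO.trans hs)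
    have hr' : ContDiffOn ℝ ∞ r (ball z (2 * R)) := hr.smooth.contDiffOn
    have e1 := (int_dz isOpen_ball hr.cpt hr.sub (hk.mul hr')
      (fun y _ hy => by rw [image_eq_zero_of_notMem_tsupport hy, mul_zero]) a).2
    have i1 : Integrable (fun x => (f k x - F x) * dzb a r x) (volume.restrict (ball z (2 * R))) :=
      (m4 k).integrable_mul m2
    have i2 : Integrable (fun x => dzb a (f k) x * r x) (volume.restrict (ball z (2 * R))) :=
      (m3 k).integrable_mul m1
    have i3 : Integrable (fun x => F x * dzb a r x) (volume.restrict (ball z (2 * R))) :=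
      (hF.mono_measure hle).integrable_mul m2
    have i4 : Integrable (fun x => (f k x - F x) * dzb a r x + dzb a (f k) x * r x)
        (volume.restrict (ball z (2 * R))) := i1.add i2
    rw [neg_eq_iff_add_eq_zero, ← integral_add i1 i2, ← integral_add i4 i3, ← e1]
    refine setIntegral_congr_fun measurableSet_ball fun y hy => ?_
    simp only [(dz_mul (diffAt isOpen_ball hk hy) (diffAt isOpen_ball hr' hy) a).2]
    ring
  refine ⟨G, hG, fun C hC hCs => ?_⟩
  have hCB : C ⊆ closedBall z (2 * R) :=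
    hCs.trans (ball_subset_closedBall.trans (closedBall_subset_closedBall (by linarith)))
  refine (seho_sub hCB hi (fun _ _ => by positivity) hlim).congr fun k => integral_congr_ae ?_
  filter_upwards [ae_restrict_of_ae_restrict_of_subset hCs hGF] with y hy
  rw [hy]

theorem l2_unique (hW : IsOpen W) (hf : ∀ k, ContinuousOn (f k) W) (hg : ContinuousOn g W)
    (hg' : ContinuousOn g' W) (h : ∀ C, IsCompact C → C ⊆ W → L2to f g C)
    (h' : ∀ C, IsCompact C → C ⊆ W → L2to f g' C) : EqOn g g' W := by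
  intro z hz
  obtain ⟨ε, hε, hs⟩ := nhds_basis_closedBall.mem_iff.1 (hW.mem_nhds hz)
  have hB : IsCompact (closedBall z ε) := isCompact_closedBall _ _
  have hO : ball z ε ⊆ closedBall z ε := ball_subset_closedBall
  have i0 : IntegrableOn (fun y => ‖g y - g' y‖ ^ 2) (closedBall z ε) volume :=
    seho_int hB ((hg.sub hg').mono hs)
  have t := ((h _ hB hs).add (h' _ hB hs)).const_mul 2
  rw [add_zero, mul_zero] at t
  have e : ∫ y in closedBall z ε, ‖g y - g' y‖ ^ 2 = 0 := by
    refine le_antisymm (ge_of_tendsto' t fun k => ?_) (integral_nonneg fun _ => by positivity)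
    have i1 : IntegrableOn (fun y => ‖f k y - g y‖ ^ 2) (closedBall z ε) volume :=
      seho_int hB (((hf k).sub hg).mono hs)
    have i2 : IntegrableOn (fun y => ‖f k y - g' y‖ ^ 2) (closedBall z ε) volume :=
      seho_int hB (((hf k).sub hg').mono hs)
    rw [← integral_add i1 i2, ← integral_const_mul]
    refine integral_mono i0 ((i1.add i2).const_mul 2) fun y => ?_
    have h1 : ‖g y - g' y‖ ≤ ‖f k y - g y‖ + ‖f k y - g' y‖ := by
      rw [norm_sub_rev (f k y) (g y)]
      exact norm_sub_le_norm_sub_add_norm_sub _ _ _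
    have h2 := pow_le_pow_left₀ (norm_nonneg _) h1 2
    change ‖g y - g' y‖ ^ 2 ≤ 2 * (‖f k y - g y‖ ^ 2 + ‖f k y - g' y‖ ^ 2)
    nlinarith [sq_nonneg (‖f k y - g y‖ - ‖f k y - g' y‖)]
  rw [integral_eq_zero_iff_of_nonneg (fun _ => by positivity) i0] at e
  refine Measure.eqOn_open_of_ae_eq (μ := volume) ?_ isOpen_ball (hg.mono (hO.trans hs))
    (hg'.mono (hO.trans hs)) (mem_ball_self hε)
  filter_upwards [ae_restrict_of_ae_restrict_of_subset hO e] with y hy
  simpa [sub_eq_zero] using hy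

theorem ho_loc (hW : IsOpen W) (hf : ∀ k, ContDiffOn ℝ ∞ (f k) W)
    (hc : ∀ C, IsCompact C → C ⊆ W → L2c f C)
    (hd : ∀ C, IsCompact C → C ⊆ W →
      Tendsto (fun k => ∫ y in C, ‖db (f k) y‖ ^ 2) atTop (𝓝 0)) :
    ∃ g, DifferentiableOn ℂ g W ∧ ∀ C, IsCompact C → C ⊆ W → L2to f g C := by
  have key : ∀ z : E N, ∃ (R : ℝ) (G : E N → ℂ), z ∈ W → 0 < R ∧ ball z R ⊆ W ∧
      DifferentiableOn ℂ G (ball z R) ∧ ∀ C, IsCompact C → C ⊆ ball z R → L2to f G C := by
    intro z
    by_cases hz : z ∈ W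
    · obtain ⟨ε, hε, hs⟩ := nhds_basis_closedBall.mem_iff.1 (hW.mem_nhds hz)
      have hs' : closedBall z (2 * (ε / 2)) ⊆ W := by rwa [mul_div_cancel₀ _ two_ne_zero]
      obtain ⟨G, h1, h2⟩ := ho_ball (half_pos hε) hW hs' hf (hc _ (isCompact_closedBall _ _) hs')
        (hd _ (isCompact_closedBall _ _) hs')
      exact ⟨ε / 2, G, fun _ => ⟨half_pos hε, ball_subset_closedBall.trans
        ((closedBall_subset_closedBall (by linarith)).trans hs), h1, h2⟩⟩
    · exact ⟨0, 0, fun h => absurd h hz⟩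
  choose R G hG using key
  have he : ∀ z ∈ W, EqOn (fun y => G y y) (G z) (ball z (R z)) := by
    intro z hz y hy
    obtain ⟨-, a2, a3, a4⟩ := hG z hz
    obtain ⟨b1, -, b3, b4⟩ := hG y (a2 hy)
    exact l2_unique (f := f) (W := ball z (R z) ∩ ball y (R y)) (isOpen_ball.inter isOpen_ball)
      (fun k => (hf k).continuousOn.mono (inter_subset_left.trans a2))
      (b3.continuousOn.mono inter_subset_right) (a3.continuousOn.mono inter_subset_left)
      (fun C hC hs => b4 C hC (hs.trans inter_subset_right))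
      (fun C hC hs => a4 C hC (hs.trans inter_subset_left)) ⟨hy, mem_ball_self b1⟩
  have hg : DifferentiableOn ℂ (fun y => G y y) W := fun z hz =>
    ((((hG z hz).2.2.1.congr (he z hz)).differentiableAt
      (ball_mem_nhds z (hG z hz).1))).differentiableWithinAt
  have hi : ∀ K, IsCompact K → K ⊆ W → ∀ k,
      IntegrableOn (fun y => ‖f k y - G y y‖ ^ 2) K volume :=
    fun K hK hs k => seho_int hK (((hf k).continuousOn.sub hg.continuousOn).mono hs)
  refine ⟨fun y => G y y, hg, fun C hC hs => ?_⟩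
  have main : ∃ K, IsCompact K ∧ K ⊆ W ∧ C ⊆ K ∧ L2to f (fun y => G y y) K := by
    refine hC.induction_on
      (p := fun s => ∃ K, IsCompact K ∧ K ⊆ W ∧ s ⊆ K ∧ L2to f (fun y => G y y) K) ?_ ?_ ?_ ?_
    · exact ⟨∅, isCompact_empty, empty_subset _, le_rfl, by simp [L2to]⟩
    · rintro s t hst ⟨K, h1, h2, h3, h4⟩
      exact ⟨K, h1, h2, hst.trans h3, h4⟩
    · rintro s t ⟨K, h1, h2, h3, h4⟩ ⟨K', h1', h2', h3', h4'⟩
      refine ⟨K ∪ K', h1.union h1', union_subset h2 h2', union_subset_union h3 h3', ?_⟩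
      have t := Tendsto.add h4 h4'
      rw [add_zero] at t
      refine squeeze_zero (fun k => integral_nonneg fun _ => by positivity) (fun k => ?_) t
      rw [← integral_add_measure (hi K h1 h2 k) (hi K' h1' h2' k)]
      exact integral_mono_measure (Measure.restrict_union_le _ _)
        (Eventually.of_forall fun _ => by positivity)
        (Integrable.add_measure (hi K h1 h2 k) (hi K' h1' h2' k))
    · intro x hx
      obtain ⟨a1, a2, -, a4⟩ := hG x (hs hx)
      have hb : closedBall x (R x / 2) ⊆ ball x (R x) := closedBall_subset_ball (by linarith)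
      refine ⟨closedBall x (R x / 2),
        mem_nhdsWithin_of_mem_nhds (closedBall_mem_nhds x (half_pos a1)), _,
        isCompact_closedBall _ _, hb.trans a2, le_rfl, ?_⟩
      refine Tendsto.congr (fun k => ?_) (a4 _ (isCompact_closedBall _ _) hb)
      refine setIntegral_congr_fun measurableSet_closedBall fun y hy => ?_
      have e : G y y = G x y := he x (hs hx) (hb hy)
      simp only [e]
  obtain ⟨K, h1, h2, h3, h4⟩ := main
  exact seho_sub h3 (hi K h1 h2) (fun _ _ => by positivity) h4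


end Pool.Agent.SE
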