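import Pool.Agent.P.MP_63735c_ag.SEFock3
import Pool.Agent.P.MP_63735c_ag.SENorm
import Pool.Agent.P.MP_63735c_ag.ABLev

/-! Smooth generators of a line bundle and the Koszul matrix. -/

open scoped ComplexOrder ContDiff Matrix Topology
open Set Filter

namespace Pool.Agent.SE

open Pool.Agent.SPF Pool.Agent.AB

section
variable {ρ : Type} [Fintype ρ] [DecidableEq ρ] {m : ℕ} (B : Car (Matrix ρ ρ ℤ) m)

/-- The Koszul matrix. -/
noncomputable def kos (b c : Fin m → ℂ) : Matrix ρ ρ ℂ := (B.mat ℂ).ev b + (B.mat ℂ).iv c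

variable {B} {b c : Fin m → ℂ} {d : ρ → ℕ}

theorem kos_sq (h : c ⬝ᵥ b = 1) : kos B b c * kos B b c = 1 := by
  rw [kos, Car.koszul_sq, h, one_smul]

theorem kos_comm {x : Matrix ρ ρ ℂ} (he : ∀ j, Commute x ((B.mat ℂ).e j))
    (hi : ∀ j, Commute x ((B.mat ℂ).i j)) : Commute x (kos B b c) :=
  (Car.commute_ev _ he b).add_right (Car.commute_iv _ hi c)

theorem kos_diag (hB : ∀ j, B.i j = (B.e j)ᵀ) (hup : ∀ j r s, B.e j r s ≠ 0 → d r = d s + 1)
    {g g' : ℂ} (hg : g * g' = 1) :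
    kos B (g • b) (g' • c) * (Matrix.diagonal fun r => g ^ d r) =
      (Matrix.diagonal fun r => g ^ d r) * kos B b c := by
  have h1 : (Matrix.diagonal fun r => g ^ (d r + 1)) = g • Matrix.diagonal fun r => g ^ d r := by
    rw [← Matrix.diagonal_smul]
    congr 1
    funext r
    simp [pow_succ']
  simp only [kos, Car.ev, Car.iv, add_mul, mul_add, Finset.sum_mul, Finset.mul_sum, smul_mul_assoc,
    mul_smul_comm, Car.raise_e hup (g ^ ·), Car.raise_i hB hup (g ^ ·), h1, smul_smul,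
    Pi.smul_apply, smul_eq_mul]
  congr 1 <;> refine Finset.sum_congr rfl fun j _ => ?_
  · rw [mul_comm]
  · rw [mul_right_comm, mul_comm g', hg, one_mul]

theorem kos_smooth {N : ℕ} {W : Set (E N)} {b c : E N → Fin m → ℂ} (hb : ContDiffOn ℝ ∞ b W)
    (hc : ContDiffOn ℝ ∞ c W) : SmM W fun z => kos B (b z) (c z) :=
  (SmM.sum _ fun j _ => SmM.smul (contDiffOn_pi.1 hb j) (SmM.const _)).add
    (SmM.sum _ fun j _ => SmM.smul (contDiffOn_pi.1 hc j) (SmM.const _))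

theorem mat_comm {x y : Matrix ρ ρ ℤ} (h : Commute x y) :
    Commute ((Int.castRingHom ℂ).mapMatrix x) ((Int.castRingHom ℂ).mapMatrix y) := h.map _

end

variable {N : ℕ} {Y : Type} [TopologicalSpace Y] [T2Space Y] [CompactSpace Y] {D : Man Y N}

/-- A line bundle on a compact manifold has finitely many smooth generators. -/
theorem exists_gen (hM : D.M = univ) {g : D.ι → D.ι → Y → ℂ}
    (hol : ∀ i j, ∀ z ∈ D.W i, D.p i z ∈ D.p j '' D.W j →
      DifferentiableAt ℂ (fun w => g i j (D.p i w)) z)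
    (mul : ∀ i j k x, x ∈ D.p i '' D.W i → x ∈ D.p j '' D.W j → x ∈ D.p k '' D.W k →
      g j k x * g i j x = g i k x) (one : ∀ i, ∀ x ∈ D.p i '' D.W i, g i i x = 1) :
    ∃ (m : ℕ) (b c : D.ι → E N → Fin m → ℂ), (∀ i, ContDiffOn ℝ ∞ (b i) (D.W i)) ∧
      (∀ i, ContDiffOn ℝ ∞ (c i) (D.W i)) ∧ (∀ i, ∀ z ∈ D.W i, c i z ⬝ᵥ b i z = 1) ∧
      ∀ i j, ∀ z ∈ D.W i, ∀ y ∈ D.W j, D.p i z = D.p j y →
        b j y = g i j (D.p i z) • b i z ∧ c j y = g j i (D.p i z) • c i z := by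
  obtain ⟨m, s, τ, hτ, -, h1⟩ := Man.exists_pu (D := D) (θ := fun _ => 1)
    ⟨fun _ => contDiffOn_const, univ, isCompact_univ, hM.ge, fun x hx => (hx (mem_univ x)).elim⟩
    fun _ => zero_le_one
  let θ : Fin m → Y → ℝ := fun a => D.ext (s a) (τ a)
  have hθ (a) : D.Smo fun x => (θ a x : ℂ) := (Man.ext_S (hτ a)).ofReal.1
  have h0 (a x) (hx : x ∉ D.p (s a) '' D.W (s a)) : θ a x = 0 := Man.ext_out hx
  have hβ (x) : ∑ a, (θ a x : ℂ) * θ a x ≠ 0 := by
    have : ∑ a, θ a x * θ a x ≠ 0 := fun e => by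
      rw [Finset.sum_eq_zero_iff_of_nonneg fun a _ => mul_self_nonneg _] at e
      have := h1 x
      rw [Finset.sum_eq_zero fun a ha => mul_self_eq_zero.1 (e a ha)] at this
      exact one_ne_zero this
    exact_mod_cast this
  have hs (i j) (z) (hz : z ∈ D.W i) (hx : D.p i z ∈ D.p j '' D.W j) :
      ContDiffAt ℝ ∞ (fun w => g i j (D.p i w)) z := by
    refine smoothAt_of_hol' ?_
    filter_upwards [(D.isOpen i).mem_nhds hz,
      (Man.contAt_p hz).preimage_mem_nhds ((D.isOpen_img j).mem_nhds hx)] with w h h'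
    exact hol i j w h h'
  have key (a j) (f : Y → ℂ) (hf : ∀ y ∈ D.W j, D.p j y ∈ D.p (s a) '' D.W (s a) →
      ContDiffAt ℝ ∞ (fun w => f (D.p j w)) y) :
      ContDiffOn ℝ ∞ (fun y => f (D.p j y) * θ a (D.p j y)) (D.W j) := by
    intro y hy
    refine ContDiffAt.contDiffWithinAt ?_
    by_cases hx : D.p j y ∈ D.p (s a) '' tsupport (τ a)
    · exact (hf y hy (image_mono (hτ a).sub hx)).mul
        ((hθ a j).contDiffAt ((D.isOpen j).mem_nhds hy))
    · refine (contDiffAt_const (c := 0)).congr_of_eventuallyEq ?_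
      filter_upwards [(Man.contAt_p hy).preimage_mem_nhds
        ((Man.cpt_img (hτ a).cpt (hτ a).sub).1.isClosed.isOpen_compl.mem_nhds hx)] with w hw
      have : θ a (D.p j w) = 0 :=
        Man.ext_zero (fun z _ hz => image_eq_zero_of_notMem_tsupport hz) hw
      simp [this]
  refine ⟨m, fun j y a => g (s a) j (D.p j y) * θ a (D.p j y), fun j y a =>
    g j (s a) (D.p j y) * θ a (D.p j y) * (∑ a, (θ a (D.p j y) : ℂ) * θ a (D.p j y))⁻¹,
    fun j => contDiffOn_pi.2 fun a => key a j _ fun y hy hx => ?_,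
    fun j => contDiffOn_pi.2 fun a => (key a j _ fun y hy hx => hs j _ y hy hx).mul
      ((ContDiffOn.sum fun a _ => (hθ a j).mul (hθ a j)).inv fun _ _ => hβ _),
    fun j y hy => ?_, fun i j z hz y hy e => ⟨funext fun a => ?_, funext fun a => ?_⟩⟩
  · obtain ⟨z, hz, e⟩ := hx
    exact Man.smoAt hy hz e.symm (hs _ j z hz ⟨y, hy, e.symm⟩)
  · rw [← mul_inv_cancel₀ (hβ (D.p j y)), Finset.sum_mul]
    refine Finset.sum_congr rfl fun a _ => ?_
    by_cases hx : D.p j y ∈ D.p (s a) '' D.W (s a)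
    · have := mul j (s a) j _ ⟨y, hy, rfl⟩ hx ⟨y, hy, rfl⟩
      rw [one j _ ⟨y, hy, rfl⟩] at this
      linear_combination (θ a (D.p j y) : ℂ) * θ a (D.p j y) *
        (∑ a, (θ a (D.p j y) : ℂ) * θ a (D.p j y))⁻¹ * this
    · simp [h0 a _ hx]
  · simp only [Pi.smul_apply, smul_eq_mul, ← e]
    by_cases hx : D.p i z ∈ D.p (s a) '' D.W (s a)
    · rw [← mul (s a) i j _ hx ⟨z, hz, rfl⟩ ⟨y, hy, e.symm⟩, mul_assoc]
    · simp [h0 a _ hx]
  · simp only [Pi.smul_apply, smul_eq_mul, ← e]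
    by_cases hx : D.p i z ∈ D.p (s a) '' D.W (s a)
    · rw [← mul j i (s a) _ ⟨y, hy, e.symm⟩ ⟨z, hz, rfl⟩ hx]
      ring
    · simp [h0 a _ hx]

end Pool.Agent.SE
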