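import Pool.Agent.P.MP_63735c_ag.SEKos1
import Pool.Agent.P.MP_63735c_ag.SEPkg

/-! The index argument with the Koszul operator. -/

open scoped ComplexOrder ContDiff Matrix Topology InnerProductSpace
open Set Filter

namespace Pool.Agent.SE

open Pool.Agent.SPF Pool.Agent.AB

variable {N m : ℕ} {ρ Y : Type} [Fintype ρ] [DecidableEq ρ] [TopologicalSpace Y]
  [MeasurableSpace Y] {B : Bun Y N ρ}

namespace Bun

theorem Loc0.comp {U U' : B.Sec →ₗ[ℂ] B.Sec} {i : B.ι} {a a' : E N → Matrix ρ ρ ℂ}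
    (h : B.Loc0 U i a) (h' : B.Loc0 U' i a') (V : B.Sec) {z : E N} (hz : z ∈ B.W i) :
    (U (U' V)).v i z = (a z * a' z) *ᵥ V.v i z := by
  rw [h.eq _ z hz, h'.eq _ z hz, Matrix.mulVec_mulVec]

variable [CompactSpace Y] [T2Space Y] [BorelSpace Y]

theorem koszul {D P Q : B.Sec →ₗ[ℂ] B.Sec} (hD : B.Ell D) {C : Car (Matrix ρ ρ ℤ) N}
    {K : Car (Matrix ρ ρ ℤ) m} {d : ρ → ℕ} (hC : ∀ a, C.i a = (C.e a)ᵀ)
    (hK : ∀ j, K.i j = (K.e j)ᵀ)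
    (hc : ∀ a j, Commute (K.e j) (C.e a) ∧ Commute (K.e j) (C.i a) ∧
      Commute (K.i j) (C.e a) ∧ Commute (K.i j) (C.i a))
    (hd : ∀ a r s, C.e a r s ≠ 0 → d r = d s) (hup : ∀ j r s, K.e j r s ≠ 0 → d r = d s + 1)
    {b c : B.ι → E N → Fin m → ℂ} (hb : ∀ i, ContDiffOn ℝ ∞ (b i) (B.W i))
    (hc' : ∀ i, ContDiffOn ℝ ∞ (c i) (B.W i)) (h1 : ∀ i, ∀ z ∈ B.W i, c i z ⬝ᵥ b i z = 1)
    (hG : ∀ i j, ∀ z ∈ B.W i, ∀ y ∈ B.W j, B.p i z = B.p j y →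
      ∃ (g g' t : ℂ) (J : Matrix (Fin N) (Fin N) ℂ), g * g' = 1 ∧ b j y = g • b i z ∧
        c j y = g' • c i z ∧ B.G i j z = (Matrix.diagonal fun r => g ^ d r * t) * (C.mat ℂ).gam J)
    (hl : ∀ i, ∃ a a' a₀, B.Loc D i a a' a₀ ∧ ∀ x : Matrix ρ ρ ℂ,
      (∀ l, Commute x ((C.mat ℂ).e l)) → (∀ l, Commute x ((C.mat ℂ).i l)) →
        ∀ l, ∀ z ∈ B.W i, Commute x (a l z) ∧ Commute x (a' l z))
    (hP : ∀ i, B.Loc0 P i fun _ => (C.mat ℂ).gam (-1 : Matrix (Fin N) (Fin N) ℂ))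
    (hQ : ∀ i, B.Loc0 Q i fun _ => Matrix.diagonal fun r => (-1 : ℂ) ^ d r)
    (sP : ∀ V V', ⟪P V, V'⟫_ℂ = ⟪V, P V'⟫_ℂ) (sQ : ∀ V V', ⟪Q V, V'⟫_ℂ = ⟪V, Q V'⟫_ℂ)
    (hDP : ∀ V, D (P V) = -P (D V)) (hDQ : ∀ V, D (Q V) = Q (D V)) {e : B.Sec} (he : e ≠ 0)
    (hDe : D e = 0) (hPe : P e = e) (hQe : Q e = e) :
    ∃ V ∈ B.Hol, V ≠ 0 ∧ (Q V = -V ∨ P V = -V) := by
  have ke (u v : Fin m → ℂ) (l) : Commute (kos K u v) ((C.mat ℂ).e l) :=
    (kos_comm (fun j => (mat_comm (hc l j).1).symm) fun j => (mat_comm (hc l j).2.2.1).symm).symm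
  have ki (u v : Fin m → ℂ) (l) : Commute (kos K u v) ((C.mat ℂ).i l) :=
    (kos_comm (fun j => (mat_comm (hc l j).2.1).symm) fun j => (mat_comm (hc l j).2.2.2).symm).symm
  have kg (u v : Fin m → ℂ) (J : Matrix (Fin N) (Fin N) ℂ) :
      Commute (kos K u v) ((C.mat ℂ).gam J) := (C.mat ℂ).commute_gam (ke u v) (ki u v) J
  obtain ⟨U, hU⟩ := exists_mul (B := B) (m := fun i z => kos K (b i z) (c i z))
    (fun i => kos_smooth (hb i) (hc' i)) fun i j z hz y hy e => by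
      obtain ⟨g, g', t, J, h0, e1, e2, e3⟩ := hG i j z hz y hy e
      have e4 : (Matrix.diagonal fun r => g ^ d r * t) = t • Matrix.diagonal fun r => g ^ d r := by
        rw [← Matrix.diagonal_smul]
        exact congrArg _ (funext fun r => mul_comm _ _)
      rw [e1, e2, e3, e4, smul_mul_assoc, mul_smul_comm, smul_mul_assoc, ← mul_assoc,
        kos_diag hK hup h0, mul_assoc, mul_assoc, (kg _ _ J).eq]
  obtain ⟨A, hA, bU⟩ := ord0 (U := U) fun i => ⟨_, (hU i).sm, (hU i).eq⟩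
  obtain ⟨A', hA', bD⟩ := comm_bdd (D := D) (U := U) fun i => by
    obtain ⟨a, a', a₀, h, h'⟩ := hl i
    exact ⟨a, a', a₀, _, h, hU i, fun l z hz =>
      ⟨(h' _ (ke _ _) (ki _ _) l z hz).1.eq.symm, (h' _ (ke _ _) (ki _ _) l z hz).2.eq.symm⟩⟩
  refine idx hD.pkg P Q U (C := A + A') (fun V => Sec.ext' fun i z hz => ?_)
    (fun V => Sec.ext' fun i z hz => ?_) (fun V => Sec.ext' fun i z hz => ?_) sP sQ hDP hDQ
    (fun V => Sec.ext' fun i z hz => ?_) (fun V => Sec.ext' fun i z hz => ?_)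
    (fun V => Sec.ext' fun i z hz => ?_) (fun V => (bU V).trans ?_) (fun V => (bD V).trans ?_)
    he hDe hPe hQe
  · rw [(hP i).comp (hP i) V hz, Car.par_par, Matrix.one_mulVec]
  · rw [(hQ i).comp (hQ i) V hz, Matrix.diagonal_mul_diagonal]
    simp [← mul_pow]
  · rw [(hP i).comp (hQ i) V hz, (hQ i).comp (hP i) V hz,
      (Car.diag_gam hC hd (fun k => (-1 : ℂ) ^ k) _).eq]
  · rw [(hU i).comp (hU i) V hz, kos_sq (h1 i z hz), Matrix.one_mulVec]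
  · have := kos_diag (B := K) (b := b i z) (c := c i z) hK hup (g := -1) (g' := -1) (by simp)
    rw [v_neg, (hU i).comp (hQ i) V hz, (hQ i).comp (hU i) V hz, ← this, ← Matrix.neg_mulVec,
      kos, kos, Car.ev_smul, Car.iv_smul, ← smul_add, neg_one_smul, neg_mul, neg_neg]
  · rw [(hU i).comp (hP i) V hz, (hP i).comp (hU i) V hz, (kg _ _ _).eq]
  · gcongr
    exact le_add_of_nonneg_right hA'.le
  · gcongr
    exact le_add_of_nonneg_left hA.le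

end Bun

end Pool.Agent.SE
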