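import Pool.Agent.P.MP_63735c_ag.SEFock3

/-! The Dolbeault-Dirac operator over a star ring with derivations. -/

open scoped Matrix

namespace Pool.Agent.SE

/-- Local data. -/
structure LD (R : Type) [CommRing R] [StarRing R] [Algebra ℂ R] {N : ℕ} {ρ : Type} [Fintype ρ]
    [DecidableEq ρ] (C : Car (Matrix ρ ρ ℤ) N) where
  hC : ∀ a, C.i a = (C.e a)ᵀ
  d : Fin N → Derivation ℂ R R
  db : Fin N → Derivation ℂ R R
  star_d : ∀ l a, star (d l a) = db l (star a)
  d_db : ∀ l k a, d l (db k a) = db k (d l a)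
  d_d : ∀ l k a, d l (d k a) = d k (d l a)
  M : Matrix (Fin N) (Fin N) R
  M' : Matrix (Fin N) (Fin N) R
  inv : M * M' = 1
  herm : Mᴴ = M
  closed : ∀ l a b, d l (M a b) = d b (M a l)
  w : ρ → R
  lam : Fin N → ρ → R
  star_w : ∀ r, star (w r) = w r
  d_w : ∀ l r, d l (w r) = lam l r * w r
  lam_symm : ∀ l k r, d l (lam k r) = d k (lam l r)
  w_eq : ∀ a r s, C.e a r s ≠ 0 → w r = w s
  lam_eq : ∀ l a r s, C.e a r s ≠ 0 → lam l r = lam l s

variable {R : Type} [CommRing R] [StarRing R] [Algebra ℂ R] {N : ℕ} {ρ : Type} [Fintype ρ]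
  [DecidableEq ρ] {C : Car (Matrix ρ ρ ℤ) N}

/-- Componentwise action of a derivation. -/
def dv (δ : Derivation ℂ R R) (V : ρ → R) : ρ → R := fun r => δ (V r)

omit [StarRing R] [DecidableEq ρ] in
theorem dv_mulVec (δ : Derivation ℂ R R) (x : Matrix ρ ρ R) (V : ρ → R) :
    dv δ (x *ᵥ V) = Car.dm δ x *ᵥ V + x *ᵥ dv δ V := by
  ext r
  simp [dv, Matrix.mulVec, dotProduct, Car.dm_apply, Finset.sum_add_distrib, mul_comm, add_comm]

omit [StarRing R] [Fintype ρ] [DecidableEq ρ] in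
theorem dv_add (δ : Derivation ℂ R R) (U V : ρ → R) : dv δ (U + V) = dv δ U + dv δ V := by
  ext r
  simp [dv]

omit [StarRing R] [Fintype ρ] [DecidableEq ρ] in
theorem dv_smul (δ : Derivation ℂ R R) (c : R) (V : ρ → R) :
    dv δ (c • V) = δ c • V + c • dv δ V := by
  ext r
  simp [dv, mul_comm, add_comm]

omit [StarRing R] [Fintype ρ] [DecidableEq ρ] in
theorem dv_sum {κ : Type} (s : Finset κ) (δ : Derivation ℂ R R) (V : κ → ρ → R) :
    dv δ (∑ k ∈ s, V k) = ∑ k ∈ s, dv δ (V k) := by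
  ext r
  simp [dv]

omit [StarRing R] [DecidableEq ρ] in
theorem der_dot (δ : Derivation ℂ R R) (U V : ρ → R) :
    δ (U ⬝ᵥ V) = dv δ U ⬝ᵥ V + U ⬝ᵥ dv δ V := by
  simp [dv, dotProduct, Finset.sum_add_distrib, mul_comm, add_comm]

omit [StarRing R] [Algebra ℂ R] in
theorem symv_zero {x : Fin N → Matrix ρ ρ R} (h2 : ∀ a, x a * x a = 0)
    (h : ∀ a b, x a * x b = -(x b * x a)) {V : Fin N → Fin N → ρ → R}
    (hc : ∀ a b, V a b = V b a) : ∑ a, ∑ b, x a *ᵥ x b *ᵥ V a b = 0 := by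
  ext r
  have : ∀ s, (∑ a, ∑ b, V a b s • (x a * x b)) r s = 0 := fun s => by
    rw [Car.sym_zero h2 h fun a b => congrFun (hc a b) s]
    rfl
  simp only [Matrix.sum_apply, Matrix.smul_apply, smul_eq_mul] at this
  simp only [Matrix.mulVec_mulVec, Finset.sum_apply, Pi.zero_apply]
  simp only [Matrix.mulVec, dotProduct]
  rw [Finset.sum_congr rfl fun a _ => Finset.sum_comm, Finset.sum_comm]
  exact Finset.sum_eq_zero fun s _ => by simpa only [mul_comm] using this s

omit [StarRing R] [Algebra ℂ R] in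
theorem diag_comm (hC : ∀ a, C.i a = (C.e a)ᵀ) {c : ρ → R}
    (h : ∀ a r s, C.e a r s ≠ 0 → c r = c s) (a : Fin N) :
    Commute (Matrix.diagonal c) ((C.mat R).e a) ∧ Commute (Matrix.diagonal c) ((C.mat R).i a) := by
  constructor
  · ext r s
    by_cases h0 : C.e a r s = 0
    · simp [Car.mat_e, h0]
    · simp [h a r s h0, mul_comm]
  · ext r s
    by_cases h0 : C.e a s r = 0
    · simp [Car.mat_i, hC, h0]
    · simp [h a s r h0, mul_comm]

namespace LD

variable (L : LD R C)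

/-- The metric on multivectors. -/
def G : Matrix ρ ρ R := (C.mat R).gam L.M

/-- The creation operator with a raised index. -/
def up (k : Fin N) : Matrix ρ ρ R := (C.mat R).ev fun a => L.M' a k

/-- The antiholomorphic derivative with a raised index. -/
def W (l : Fin N) (V : ρ → R) : ρ → R := ∑ k, L.M' l k • dv (L.db k) V

/-- The Dolbeault operator. -/
def T (V : ρ → R) : ρ → R := ∑ k, L.up k *ᵥ dv (L.db k) V

/-- The weighted derivative. -/
def dl (l : Fin N) (V : ρ → R) : ρ → R := dv (L.d l) V + Matrix.diagonal (L.lam l) *ᵥ V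

/-- The weighted divergence. -/
def del (V : ρ → R) : ρ → R := ∑ l, (C.mat R).i l *ᵥ L.dl l V

/-- The Dirac operator. -/
def D (V : ρ → R) : ρ → R := L.T V - L.del V

/-- The curvature. -/
def Th (l k : Fin N) : Matrix ρ ρ R := Matrix.diagonal fun r => -L.db k (L.lam l r)

/-- The weighted product, linear in the second slot. -/
def hp (U V : ρ → R) : R := star U ⬝ᵥ (Matrix.diagonal L.w * L.G) *ᵥ V

theorem star_db (l : Fin N) (a : R) : star (L.db l a) = L.d l (star a) := by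
  rw [← star_star (L.d l _), L.star_d, star_star]

theorem db_db (l k : Fin N) (a : R) : L.db l (L.db k a) = L.db k (L.db l a) := by
  rw [← star_star a, ← L.star_d, ← L.star_d, L.d_d, L.star_d, L.star_d]

theorem inv' : L.M' * L.M = 1 := mul_eq_one_comm.1 L.inv

theorem closed' (k a b : Fin N) : L.db k (L.M a b) = L.db a (L.M k b) := by
  have h : ∀ a b, L.M a b = star (L.M b a) := fun a b => by
    conv_lhs => rw [← L.herm, Matrix.conjTranspose_apply]
  rw [h a b, h k b, ← L.star_d, ← L.star_d, L.closed]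

theorem G_inv : (C.mat R).gam L.M' * L.G = 1 := by rw [G, ← Car.gam_mul, L.inv', Car.gam_one]

theorem G_h : L.Gᴴ = L.G := by rw [G, Car.gam_h L.hC, L.herm]

theorem w_G : Commute (Matrix.diagonal L.w) L.G :=
  (C.mat R).commute_gam (fun a => (diag_comm L.hC L.w_eq a).1)
    (fun a => (diag_comm L.hC L.w_eq a).2) _

theorem T_eq (V : ρ → R) : L.T V = ∑ l, (C.mat R).e l *ᵥ L.W l V := by
  simp only [T, W, up, Car.ev, Matrix.sum_mulVec, Matrix.mulVec_sum, Matrix.smul_mulVec,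
    Matrix.mulVec_smul]
  exact Finset.sum_comm

theorem G_T (V : ρ → R) : L.G *ᵥ L.T V = ∑ k, (C.mat R).e k *ᵥ dv (L.db k) (L.G *ᵥ V) := by
  have := Car.ka (fun k => C.mat_isDer (L.db k)) L.closed'
  simp only [T, G, up, dv_mulVec, Matrix.mulVec_sum, Matrix.mulVec_add, Matrix.mulVec_mulVec,
    Finset.sum_add_distrib, Car.gam_up L.inv]
  rw [← Matrix.sum_mulVec _ fun k => (C.mat R).e k * Car.dm (L.db k) _, this, Matrix.zero_mulVec,
    zero_add]

omit [StarRing R] in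
theorem dv_e (δ : Derivation ℂ R R) (a : Fin N) (V : ρ → R) :
    dv δ ((C.mat R).e a *ᵥ V) = (C.mat R).e a *ᵥ dv δ V := by
  rw [dv_mulVec, (C.mat_isDer δ).e, Matrix.zero_mulVec, zero_add]

omit [StarRing R] in
theorem dv_i (δ : Derivation ℂ R R) (a : Fin N) (V : ρ → R) :
    dv δ ((C.mat R).i a *ᵥ V) = (C.mat R).i a *ᵥ dv δ V := by
  rw [dv_mulVec, (C.mat_isDer δ).i, Matrix.zero_mulVec, zero_add]

theorem T_T (V : ρ → R) : L.T (L.T V) = 0 := by
  have : L.G *ᵥ L.T (L.T V) = 0 := by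
    simp only [G_T, dv_sum, dv_e, Matrix.mulVec_sum]
    exact symv_zero (C.mat R).e2 (C.mat R).ee fun a b => funext fun r => L.db_db _ _ _
  rw [← Matrix.one_mulVec (L.T _), ← L.G_inv, ← Matrix.mulVec_mulVec, this, Matrix.mulVec_zero]

theorem dl_apply (l : Fin N) (V : ρ → R) (r : ρ) : L.dl l V r = L.d l (V r) + L.lam l r * V r := by
  simp [dl, dv, Matrix.mulVec_diagonal]

theorem dl_mulVec {x : Matrix ρ ρ R} (l : Fin N) (h : Commute (Matrix.diagonal (L.lam l)) x)
    (V : ρ → R) : L.dl l (x *ᵥ V) = Car.dm (L.d l) x *ᵥ V + x *ᵥ L.dl l V := by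
  rw [dl, dl, dv_mulVec, Matrix.mulVec_mulVec, h.eq, Matrix.mulVec_add, Matrix.mulVec_mulVec,
    add_assoc]

theorem dl_i (l a : Fin N) (V : ρ → R) :
    L.dl l ((C.mat R).i a *ᵥ V) = (C.mat R).i a *ᵥ L.dl l V := by
  rw [L.dl_mulVec l (diag_comm L.hC (L.lam_eq l) a).2, (C.mat_isDer _).i, Matrix.zero_mulVec,
    zero_add]

theorem dl_sum {κ : Type} (s : Finset κ) (l : Fin N) (V : κ → ρ → R) :
    L.dl l (∑ k ∈ s, V k) = ∑ k ∈ s, L.dl l (V k) := by
  simp only [dl, dv_sum, Matrix.mulVec_sum, Finset.sum_add_distrib]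

theorem del_del (V : ρ → R) : L.del (L.del V) = 0 := by
  simp only [del, dl_sum, dl_i, Matrix.mulVec_sum]
  refine symv_zero (C.mat R).i2 (C.mat R).ii fun a b => funext fun r => ?_
  simp only [dl_apply, map_add, Derivation.leibniz, smul_eq_mul, L.d_d a b, L.lam_symm a b]
  ring

theorem T_sub (U V : ρ → R) : L.T (U - V) = L.T U - L.T V := by
  have : ∀ δ : Derivation ℂ R R, dv δ (U - V) = dv δ U - dv δ V := fun δ => by
    ext r
    simp [dv]
  simp only [T, this, Matrix.mulVec_sub, Finset.sum_sub_distrib]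

theorem del_sub (U V : ρ → R) : L.del (U - V) = L.del U - L.del V := by
  have : ∀ l, L.dl l (U - V) = L.dl l U - L.dl l V := fun l => by
    ext r
    simp only [dl_apply, Pi.sub_apply, map_sub]
    ring
  simp only [del, this, Matrix.mulVec_sub, Finset.sum_sub_distrib]

theorem db_dl (l k : Fin N) (V : ρ → R) :
    dv (L.db k) (L.dl l V) = L.dl l (dv (L.db k) V) - L.Th l k *ᵥ V := by
  ext r
  simp only [dv, dl_apply, Th, Pi.sub_apply, Matrix.mulVec_diagonal, map_add, Derivation.leibniz,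
    smul_eq_mul, L.d_db]
  ring

theorem Th_i (l k a : Fin N) : Commute (L.Th l k) ((C.mat R).i a) :=
  (diag_comm L.hC (fun b r s h => by rw [L.lam_eq l b r s h]) a).2

/-- The square of the Dirac operator. -/
theorem D_D (V : ρ → R) : L.D (L.D V) = ∑ l, ∑ k,
    (L.up k *ᵥ L.Th l k *ᵥ (C.mat R).i l *ᵥ V - L.M' l k • L.dl l (dv (L.db k) V) -
      ((C.mat R).i l * (C.mat R).ev fun a => L.d l (L.M' a k)) *ᵥ dv (L.db k) V) := by
  have h1 : ∀ l k, L.dl l (L.up k *ᵥ dv (L.db k) V) =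
      ((C.mat R).ev fun a => L.d l (L.M' a k)) *ᵥ dv (L.db k) V +
        L.up k *ᵥ L.dl l (dv (L.db k) V) := fun l k => by
    rw [up, L.dl_mulVec l ((C.mat R).commute_ev (fun a => (diag_comm L.hC (L.lam_eq l) a).1) _),
      (C.mat_isDer _).ev]
  rw [D, D, T_sub, del_sub, T_T, del_del, zero_sub, sub_zero]
  simp only [T, del, dv_sum, dl_sum, dv_i, db_dl, h1, Matrix.mulVec_sum]
  rw [Finset.sum_comm, ← Finset.sum_neg_distrib, ← Finset.sum_sub_distrib]
  refine Finset.sum_congr rfl fun l _ => ?_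
  rw [← Finset.sum_neg_distrib, ← Finset.sum_sub_distrib]
  refine Finset.sum_congr rfl fun k _ => ?_
  simp only [Matrix.mulVec_add, Matrix.mulVec_sub, Matrix.mulVec_mulVec, (L.Th_i l k l).eq]
  rw [up, Car.i_ev _ l fun a => L.M' a k, Matrix.sub_mulVec, Matrix.smul_mulVec, Matrix.one_mulVec]
  abel

theorem hp_star (U V : ρ → R) : star (L.hp U V) = L.hp V U := by
  have h : (Matrix.diagonal L.w * L.G)ᴴ = Matrix.diagonal L.w * L.G := by
    rw [Matrix.conjTranspose_mul, G_h, Matrix.diagonal_conjTranspose, L.w_G.eq]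
    congr 2
    exact funext L.star_w
  rw [hp, hp, ← Matrix.star_dotProduct_star, star_star, Matrix.star_mulVec, h,
    Matrix.dotProduct_mulVec (star V), dotProduct_comm]

theorem star_dv (l : Fin N) (V : ρ → R) : star (dv (L.db l) V) = dv (L.d l) (star V) :=
  funext fun _ => L.star_db _ _

theorem w_dl (l : Fin N) (V : ρ → R) :
    dv (L.d l) (Matrix.diagonal L.w *ᵥ V) = Matrix.diagonal L.w *ᵥ L.dl l V := by
  ext r
  simp only [dv, dl_apply, Matrix.mulVec_diagonal, Derivation.leibniz, smul_eq_mul, L.d_w]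
  ring

theorem hp_e (a : Fin N) (U V : ρ → R) : star U ⬝ᵥ Matrix.diagonal L.w *ᵥ (C.mat R).e a *ᵥ V =
    star ((C.mat R).i a *ᵥ U) ⬝ᵥ Matrix.diagonal L.w *ᵥ V := by
  rw [Matrix.mulVec_mulVec, (diag_comm L.hC L.w_eq a).1.eq, ← Matrix.mulVec_mulVec,
    Matrix.dotProduct_mulVec, Matrix.star_mulVec, Car.mat_ih L.hC]

theorem hp_w (U V : ρ → R) : star U ⬝ᵥ Matrix.diagonal L.w *ᵥ V =
    star (Matrix.diagonal L.w *ᵥ U) ⬝ᵥ V := by
  simp [dotProduct, Matrix.mulVec_diagonal, L.star_w, mul_assoc, mul_left_comm]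

/-- The adjoint of `T` is `-del`, up to a divergence. -/
theorem hp_T (U V : ρ → R) :
    L.hp U (L.T V) + L.hp (L.del U) V = ∑ k, L.db k (L.hp ((C.mat R).i k *ᵥ U) V) := by
  have h : ∀ k (X : ρ → R), dv (L.db k) (star X) = star (dv (L.d k) X) := fun k X =>
    funext fun r => (L.star_d k (X r)).symm
  simp only [hp, ← Matrix.mulVec_mulVec, G_T, del, Matrix.mulVec_sum, dotProduct_sum, hp_e,
    star_sum, sum_dotProduct, ← Finset.sum_add_distrib]
  simp only [hp_w, der_dot, h, w_dl, dl_i, add_comm]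

theorem hp_sub_left (U U' V : ρ → R) : L.hp (U - U') V = L.hp U V - L.hp U' V := by
  simp [hp]

theorem hp_sub_right (U V V' : ρ → R) : L.hp U (V - V') = L.hp U V - L.hp U V' := by
  simp [hp, Matrix.mulVec_sub]

/-- Symmetry up to a divergence. -/
theorem hp_D (U V : ρ → R) : L.hp (L.D U) V - L.hp U (L.D V) =
    ∑ k, L.d k (L.hp U ((C.mat R).i k *ᵥ V)) - ∑ k, L.db k (L.hp ((C.mat R).i k *ᵥ U) V) := by
  have h := congrArg star (L.hp_T V U)
  simp only [star_add, star_sum, hp_star, star_db] at h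
  rw [← h, ← hp_T, D, D, hp_sub_left, hp_sub_right]
  ring

/-- The Bochner-Kodaira-Nakano identity up to a divergence. -/
theorem bkn (U V : ρ → R) : L.hp U (L.D (L.D V)) =
    ∑ l, L.hp (dv (L.db l) U) (L.W l V) +
      ∑ l, ∑ k, L.hp ((C.mat R).i k *ᵥ U) (L.Th l k *ᵥ (C.mat R).i l *ᵥ V) -
      ∑ l, L.d l (L.hp U (L.W l V)) := by
  have h1 : ∀ k X, L.hp U (L.up k *ᵥ X) = L.hp ((C.mat R).i k *ᵥ U) X := fun k X => by
    rw [hp, hp, ← Matrix.mulVec_mulVec, ← Matrix.mulVec_mulVec, Matrix.mulVec_mulVec _ L.G, G, up,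
      Car.gam_up L.inv, ← Matrix.mulVec_mulVec, hp_e]
  have h2 : ∀ l k X, L.d l (L.hp U (L.M' l k • X)) = L.hp (dv (L.db l) U) (L.M' l k • X) +
      (star U ⬝ᵥ (Matrix.diagonal L.w * Car.dm (L.d l) (L.M' l k • L.G)) *ᵥ X +
        L.hp U (L.M' l k • L.dl l X)) := fun l k X => by
    have : ∀ Y, L.G *ᵥ (L.M' l k • Y) = (L.M' l k • L.G) *ᵥ Y := fun Y => by
      rw [Matrix.mulVec_smul, Matrix.smul_mulVec]
    simp only [hp, ← Matrix.mulVec_mulVec, this]
    rw [der_dot, star_dv, w_dl, G, L.dl_mulVec l (((C.mat R).commute_gam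
      (fun a => (diag_comm L.hC (L.lam_eq l) a).1) (fun a => (diag_comm L.hC (L.lam_eq l) a).2)
      _).smul_right _), Matrix.mulVec_add, dotProduct_add]
  have h3 : ∑ l, ∑ k, star U ⬝ᵥ (Matrix.diagonal L.w * Car.dm (L.d l) (L.M' l k • L.G)) *ᵥ
      dv (L.db k) V = ∑ l, ∑ k,
      L.hp U (((C.mat R).i l * (C.mat R).ev fun a => L.d l (L.M' a k)) *ᵥ dv (L.db k) V) := by
    rw [Finset.sum_comm, Finset.sum_comm (f := fun l k => L.hp U _)]
    refine Finset.sum_congr rfl fun k _ => ?_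
    simp only [hp, Matrix.mulVec_mulVec, ← dotProduct_sum, ← Matrix.sum_mulVec, mul_assoc,
      ← Finset.mul_sum]
    rw [G, Car.div_gam (fun k => C.mat_isDer (L.d k)) L.closed L.inv]
  have h4 : ∀ X (Y : Fin N → ρ → R), L.hp X (∑ k, Y k) = ∑ k, L.hp X (Y k) := fun X Y => by
    simp only [hp, Matrix.mulVec_sum, dotProduct_sum]
  simp only [D_D, W, h4, hp_sub_right, h1, map_sum, h2, Finset.sum_add_distrib,
    Finset.sum_sub_distrib, h3]
  ring

end LD

end Pool.Agent.SE
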