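import Pool.Agent.P.MP_63735c_ag.SECm
import Pool.Agent.P.MP_63735c_ag.SENorm
import Pool.Agent.P.MP_63735c_ag.SEEx

/-! The smoothing operator of one chart. -/

open scoped ComplexOrder ContDiff Matrix Topology ENNReal InnerProductSpace
open Set Metric MeasureTheory Filter

namespace Pool.Agent.SE

open Pool.Agent.SPF Pool.Agent.AB

variable {N : ℕ} {ρ Y : Type} [Fintype ρ] [DecidableEq ρ] [TopologicalSpace Y] [MeasurableSpace Y]
  [CompactSpace Y] [T2Space Y] [BorelSpace Y] {B : Bun Y N ρ}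
  {i : B.ι} {τ : E N → ℝ} {d d₀ A : ℝ} {k : E N → ℝ} {D : B.Sec →ₗ[ℂ] B.Sec}

theorem serp_sq {x y T : ℝ} (hT : 0 ≤ T) (hy : 0 ≤ y) (h : x ^ 2 ≤ T * y ^ 2) : x ≤ √T * y := by
  have h1 := Real.le_sqrt_of_sq_le h
  rwa [Real.sqrt_mul hT, Real.sqrt_sq hy] at h1

theorem serp_tend {X : Type} [NormedAddCommGroup X] {u : ℕ → X} {x : X} {T : ℝ} (hT : 0 < T)
    (h : ∀ γ : ℝ, 0 < γ → ∀ᶠ n in atTop, ‖u n - x‖ ≤ T * γ) : Tendsto u atTop (𝓝 x) := by
  refine Metric.tendsto_nhds.2 fun ε hε => (h (ε / 2 / T) (by positivity)).mono fun n hn => ?_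
  rw [mul_div_cancel₀ _ hT.ne'] at hn
  rw [dist_eq_norm]
  linarith

namespace Bun

omit [CompactSpace Y] [T2Space Y] [BorelSpace Y] in
variable (B) in
/-- Cut off, mollify, extend. -/
noncomputable def Rp (i : B.ι) (τ k : E N → ℝ) (V : B.Sec) : B.Sec :=
  B.ex i (cvv k fun y => τ y • V.v i y)

section
variable (hτ : Tst (B.W i) τ) (hd : cthickening d₀ (tsupport τ) ⊆ B.W i)
include hτ hd

theorem Rp_tst (hk : Ker d A k) (hle : d ≤ d₀) (V : B.Sec) :
    Tst (B.W i) (cvv k fun y => τ y • V.v i y) ∧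
      B.Supp (B.Rp i τ k V) i (cthickening d₀ (tsupport τ)) := by
  have h1 := tst_smul (B.isOpen i) hτ (V.smooth i)
  have h2 := cvv_tst hk h1.1 hτ.cpt h1.2 hle hd
  exact ⟨h2.1, ex_supp h2.1 h2.2⟩

theorem Rp_add (hk : Ker d A k) (hle : d ≤ d₀) (V V' : B.Sec) :
    B.Rp i τ k (V + V') = B.Rp i τ k V + B.Rp i τ k V' := by
  have e : (cvv k fun y => τ y • (V + V').v i y) =
      fun x => cvv k (fun y => τ y • V.v i y) x + cvv k (fun y => τ y • V'.v i y) x := by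
    funext x
    rw [← cvv_add hk (tst_smul (B.isOpen i) hτ (V.smooth i)).1.smooth.continuous
      (tst_smul (B.isOpen i) hτ (V'.smooth i)).1.smooth.continuous]
    simp only [v_add, smul_add]
  rw [Rp, e]
  exact ex_add (Rp_tst hτ hd hk hle V).1 (Rp_tst hτ hd hk hle V').1

theorem Rp_smul (hk : Ker d A k) (hle : d ≤ d₀) (t : ℂ) (V : B.Sec) :
    B.Rp i τ k (t • V) = t • B.Rp i τ k V := by
  have e : (cvv k fun y => τ y • (t • V).v i y) =
      fun x => t • cvv k (fun y => τ y • V.v i y) x := by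
    funext x
    rw [← cvv_smul]
    simp only [v_smul, smul_comm t]
  rw [Rp, e]
  exact ex_smul (Rp_tst hτ hd hk hle V).1 t

theorem Rp_bdd : ∃ C : ℝ, 0 ≤ C ∧ ∀ (d A : ℝ) (k : E N → ℝ) (V : B.Sec), Ker d A k → d ≤ d₀ →
    ‖B.Rp i τ k V‖ ≤ C * ‖V‖ := by
  have hK : IsCompact (tsupport τ) := hτ.cpt
  have hC : IsCompact (cthickening d₀ (tsupport τ)) := hK.cthickening
  obtain ⟨A₁, p1, h1⟩ := upper hC hd
  obtain ⟨A₂, p2, h2⟩ := lower hK hτ.sub
  obtain ⟨M, hM⟩ := hτ.smooth.continuous.bounded_above_of_compact_support hτ.cpt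
  refine ⟨√(A₁ * (Fintype.card ρ * (M ^ 2 * A₂))), Real.sqrt_nonneg _, fun d A k V hk hle => ?_⟩
  refine serp_sq (by positivity) (norm_nonneg _) ?_
  have hf := tst_smul (B.isOpen i) hτ (V.smooth i)
  have hR := Rp_tst hτ hd hk hle V
  have e1 : ∫ z in cthickening d₀ (tsupport τ), ‖(B.Rp i τ k V).v i z‖ ^ 2 =
      ∫ z in cthickening d₀ (tsupport τ), ‖cvv k (fun y => τ y • V.v i y) z‖ ^ 2 :=
    setIntegral_congr_fun hC.measurableSet fun z hz => by
      simp only [Rp, ex_self hR.1 (hd hz)]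
  have e2 : ∫ z in tsupport τ, ‖τ z • V.v i z‖ ^ 2 = ∫ z, ‖τ z • V.v i z‖ ^ 2 :=
    setIntegral_eq_integral_of_forall_compl_eq_zero fun z hz => by
      simp [image_eq_zero_of_notMem_tsupport hz]
  have hV : ContinuousOn (fun z => ‖V.v i z‖ ^ 2) (tsupport τ) :=
    (((V.smooth i).continuousOn.mono hτ.sub).norm).pow 2
  have e3 : ∫ z in tsupport τ, ‖τ z • V.v i z‖ ^ 2 ≤
      M ^ 2 * ∫ z in tsupport τ, ‖V.v i z‖ ^ 2 := by
    rw [← integral_const_mul]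
    refine setIntegral_mono_on
      ((hf.1.smooth.continuous.norm.pow 2).continuousOn.integrableOn_compact hK)
      ((continuousOn_const.mul hV).integrableOn_compact hK) hK.measurableSet fun z _ => ?_
    rw [norm_smul, mul_pow]
    exact mul_le_mul_of_nonneg_right (pow_le_pow_left₀ (norm_nonneg _) (hM z) 2) (sq_nonneg _)
  have e4 := cvv_l2 hk (tst_mono hf.1 (subset_univ _)) hC
  have e5 := h1 _ hR.2
  rw [e1] at e5
  rw [← e2] at e4
  calc _ ≤ _ := e5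
    _ ≤ A₁ * (Fintype.card ρ * (M ^ 2 * (A₂ * ‖V‖ ^ 2))) := by
        refine mul_le_mul_of_nonneg_left (e4.trans ?_) p1.le
        refine mul_le_mul_of_nonneg_left (e3.trans ?_) (Nat.cast_nonneg _)
        exact mul_le_mul_of_nonneg_left (h2 V) (sq_nonneg _)
    _ = _ := by ring

theorem Rp_cm (hD : ∀ j, ∃ a b c, B.Loc D j a b c) (A : ℝ) :
    ∃ C : ℝ, 0 ≤ C ∧ ∀ (d : ℝ) (k : E N → ℝ) (V : B.Sec), Ker d A k → d ≤ d₀ →
      ‖D (B.Rp i τ k V) - B.Rp i τ k (D V)‖ ≤ C * ‖V‖ := by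
  have hK : IsCompact (tsupport τ) := hτ.cpt
  have hC : IsCompact (cthickening d₀ (tsupport τ)) := hK.cthickening
  obtain ⟨A₁, p1, h1⟩ := upper hC hd
  obtain ⟨A₂, p2, h2⟩ := lower hK hτ.sub
  obtain ⟨a, b, c, hL⟩ := hD i
  obtain ⟨M, p3, h3⟩ := op_cm (B.isOpen i) hL.sa hL.sb hL.sc hτ hC hd A
  refine ⟨√(A₁ * (M * A₂)), Real.sqrt_nonneg _, fun d k V hk hle => ?_⟩
  refine serp_sq (by positivity) (norm_nonneg _) ?_
  have hR := Rp_tst hτ hd hk hle V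
  have hR' := Rp_tst hτ hd hk hle (D V)
  have e0 : (fun y => τ y • (D V).v i y) = fun y => τ y • op a b c (V.v i) y := by
    funext y
    by_cases hy : y ∈ B.W i
    · rw [hL.eq V y hy]
    · rw [image_eq_zero_of_notMem_tsupport fun h => hy (hτ.sub h), zero_smul, zero_smul]
  have e1 : ∫ z in cthickening d₀ (tsupport τ),
      ‖(D (B.Rp i τ k V) - B.Rp i τ k (D V)).v i z‖ ^ 2 =
      ∫ z in cthickening d₀ (tsupport τ), ‖op a b c (cvv k fun y => τ y • V.v i y) z -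
        cvv k (fun y => τ y • op a b c (V.v i) y) z‖ ^ 2 :=
    setIntegral_congr_fun hC.measurableSet fun z hz => by
      simp only [Rp, v_sub, ex_self hR'.1 (hd hz), hL.ex_v hR.1 (hd hz)]
      rw [e0]
  have e5 := h1 _ ((hR.2.map hD hC hd).sub hR'.2)
  rw [e1] at e5
  calc _ ≤ _ := e5
    _ ≤ A₁ * (M * (A₂ * ‖V‖ ^ 2)) :=
        mul_le_mul_of_nonneg_left ((h3 d k _ hk (V.smooth i)).trans
          (mul_le_mul_of_nonneg_left (h2 V) p3)) p1.le
    _ = _ := by ring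

theorem Rp_lim (hD : ∀ j, ∃ a b c, B.Loc D j a b c) {d : ℕ → ℝ} {k : ℕ → E N → ℝ}
    (hk : ∀ n, Ker (d n) A (k n)) (hle : ∀ n, d n ≤ d₀) (h0 : Tendsto d atTop (𝓝 0)) (V : B.Sec) :
    Tendsto (fun n => B.Rp i τ (k n) V) atTop (𝓝 (B.ex i fun y => τ y • V.v i y)) ∧
      Tendsto (fun n => D (B.Rp i τ (k n) V)) atTop (𝓝 (D (B.ex i fun y => τ y • V.v i y))) := by
  have hK : IsCompact (tsupport τ) := hτ.cpt
  have hC : IsCompact (cthickening d₀ (tsupport τ)) := hK.cthickening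
  obtain ⟨A₁, p1, h1⟩ := upper_sup hC hd
  obtain ⟨a, b, c, hL⟩ := hD i
  obtain ⟨M, p3, h3⟩ := op_bound hC hd hL.sa hL.sb hL.sc
  have hf := tst_smul (B.isOpen i) hτ (V.smooth i)
  have hS := ex_supp hf.1 (hf.2.trans (self_subset_cthickening (δ := d₀) (tsupport τ)))
  refine ⟨serp_tend p1 fun γ hγ => ?_, serp_tend (mul_pos p1 p3) fun γ hγ => ?_⟩
  · obtain ⟨d₁, p4, h4⟩ := cvv_unif (tst_mono hf.1 (subset_univ _)) hγ
    refine (h0.eventually (ge_mem_nhds p4)).mono fun n hn => ?_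
    have hR := Rp_tst hτ hd (hk n) (hle n) V
    refine h1 _ γ hγ.le (hR.2.sub hS) fun z hz => ?_
    rw [v_sub, Rp, ex_self hR.1 (hd hz), ex_self hf.1 (hd hz)]
    exact (h4 _ _ _ hn (hk n) z).1
  · obtain ⟨d₁, p4, h4⟩ := cvv_unif (tst_mono hf.1 (subset_univ _)) hγ
    refine (h0.eventually (ge_mem_nhds p4)).mono fun n hn => ?_
    have hR := Rp_tst hτ hd (hk n) (hle n) V
    rw [mul_assoc]
    refine h1 _ (M * γ) (by positivity) ((hR.2.map hD hC hd).sub (hS.map hD hC hd))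
      fun z hz => ?_
    have d1 := hR.1.smooth.differentiable (by simp) z
    have d2 := hf.1.smooth.differentiable (by simp) z
    have h5 := h4 _ _ _ hn (hk n) z
    rw [v_sub, Rp, hL.ex_v hR.1 (hd hz), hL.ex_v hf.1 (hd hz), ← op_sub d1 d2]
    refine h3 _ z hz γ h5.1 fun l => ?_
    rw [(dzv_sub d1 d2 l).1, (dzv_sub d1 d2 l).2]
    exact h5.2 l

end

end Bun

end Pool.Agent.SE
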