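import Pool.Agent.P.MP_63735c_ag.ABT1
import Pool.Agent.P.MP_63735c_ag.CLHol

/-! Twisted holomorphic tensors and their pull-backs to a tube. -/

open scoped ComplexOrder ContDiff Matrix Topology
open Set Metric Filter

namespace Pool.Agent.SE

open Pool.Agent.SPF Pool.Agent.NL Pool.Agent.AB

variable {N n : ℕ} {Y : Type} [TopologicalSpace Y] {κ : Type}

/-- Covariant tensors. -/
abbrev Ten (N : ℕ) (κ : Type) := MultilinearMap ℂ (fun _ : κ => E N) ℂ

/-- `exp (-k ψ)` is a metric of curvature `k η` on the line bundle with transition functions `c`. -/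
structure Herm (A : Atlas Y N) (k : ℝ) (c : A.ι → A.ι → E N → ℂ) (ψ : A.ι → E N → ℝ) : Prop where
  smooth : ∀ i, ContDiffOn ℝ ∞ (ψ i) (A.C i).W
  lev : ∀ i, ∀ z ∈ (A.C i).W, lev (ψ i) z = (A.C i).η z
  cpt : ∀ i j, ∀ z ∈ (A.C i).W, ∀ y ∈ (A.C j).W, A.p i z = A.p j y →
    Real.exp (-k * ψ i z) = ‖c i j z‖ ^ 2 * Real.exp (-k * ψ j y)

/-- A holomorphic covariant tensor with values in the line bundle given by `c`. -/
structure Tens (A : Atlas Y N) (c : A.ι → A.ι → E N → ℂ) (α : A.ι → E N → Ten N κ) : Prop where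
  hol : ∀ i v, DifferentiableOn ℂ (fun z => α i z v) (A.C i).W
  cpt : ∀ i j O φ, IsChange (A.C i) (A.C j) O φ → (∀ w ∈ O, A.p j (φ w) = A.p i w) →
    ∀ z ∈ O, ∀ v, α j (φ z) (fun l => jac φ z *ᵥ v l) = c i j z * α i z v

variable {A : Atlas Y N} {c : A.ι → A.ι → E N → ℂ} {α : A.ι → E N → Ten N κ} {T : Set (E n)}
  {Ψ : E n × E n → Y}

theorem Herm.ne {k : ℝ} {ψ : A.ι → E N → ℝ} (h : Herm A k c ψ) {i j : A.ι} {z y : E N}
    (hz : z ∈ (A.C i).W) (hy : y ∈ (A.C j).W) (he : A.p i z = A.p j y) : c i j z ≠ 0 := fun h0 =>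
  (Real.exp_pos _).ne' (by rw [h.cpt i j z hz y hy he, h0]; simp)

/-- The identity theorem. -/
theorem Tens.zero [PreconnectedSpace Y] (hα : Tens A c α)
    (hc : ∀ i j, ∀ z ∈ (A.C i).W, ∀ y ∈ (A.C j).W, A.p i z = A.p j y → c i j z ≠ 0) {M : Set Y}
    (hM : IsOpen M) (hne : M.Nonempty) (h0 : ∀ i, ∀ z ∈ (A.C i).W, A.p i z ∈ M → α i z = 0) :
    ∀ i, ∀ z ∈ (A.C i).W, α i z = 0 := by
  let Z : Set Y := {x | ∃ j, ∃ y ∈ (A.C j).W, A.p j y = x ∧ ∀ᶠ t in 𝓝 y, α j t = 0}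
  have key : ∀ i, ∀ z ∈ (A.C i).W, A.p i z ∈ Z → ∀ᶠ t in 𝓝 z, α i t = 0 := by
    rintro i z hz ⟨j, y, hy, he, h⟩
    obtain ⟨O, φ, h1, h2, rfl, h4⟩ := A.trans i j z hz y hy he.symm
    have hn := h1.isOpen.mem_nhds h2
    filter_upwards [hn, (h1.hol.differentiableAt hn).continuousAt.eventually h] with t ht ht'
    ext v
    have := hα.cpt i j O φ h1 h4 t ht v
    rw [ht', _root_.zero_apply] at this
    exact (mul_eq_zero.1 this.symm).resolve_left
      (hc i j t (h1.sub ht) _ (h1.maps ht) (h4 t ht).symm)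
  have ho : ∀ i O, IsOpen O → O ⊆ (A.C i).W → (∀ t ∈ O, α i t = 0) → A.p i '' O ⊆ Z := by
    rintro i O hO hs h _ ⟨t, ht, rfl⟩
    exact ⟨i, t, hs ht, rfl, mem_of_superset (hO.mem_nhds ht) h⟩
  have hZ : IsClopen Z := by
    refine ⟨isClosed_of_closure_subset fun x hx => ?_, isOpen_iff_mem_nhds.2 ?_⟩
    · obtain ⟨i, z, hz, rfl⟩ := A.cover x
      obtain ⟨r, hr, hB⟩ := Metric.isOpen_iff.1 (A.C i).isOpen z hz
      obtain ⟨_, ⟨t, ht, rfl⟩, h⟩ := mem_closure_iff.1 hx _ (A.opn i _ isOpen_ball hB)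
        ⟨z, mem_ball_self hr, rfl⟩
      refine ho i _ isOpen_ball hB (fun s hs => ?_) ⟨z, mem_ball_self hr, rfl⟩
      ext v
      exact CL.hol_ident isOpen_ball (convex_ball z r).isPreconnected ((hα.hol i v).mono hB)
        (differentiableOn_const (0 : ℂ)) ht
        ((key i t (hB ht) h).mono fun s hs => by simp only [hs, _root_.zero_apply]) hs
    · rintro _ ⟨j, y, hy, rfl, h⟩
      obtain ⟨O, h1, h2, h3⟩ := _root_.mem_nhds_iff.1 (inter_mem h ((A.C j).isOpen.mem_nhds hy))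
      exact mem_of_superset ((A.opn j O h2 fun t ht => (h1 ht).2).mem_nhds ⟨y, h3, rfl⟩)
        (ho j O h2 (fun t ht => (h1 ht).2) fun t ht => (h1 ht).1)
  have hu : Z = univ := by
    obtain ⟨x, hx⟩ := hne
    obtain ⟨i, z, hz, rfl⟩ := A.cover x
    exact hZ.eq_univ ⟨_, ho i _ ((A.cont i).isOpen_inter_preimage (A.C i).isOpen hM)
      inter_subset_left (fun t ht => h0 i t ht.1 ht.2) ⟨z, ⟨hz, hx⟩, rfl⟩⟩
  exact fun i z hz => (key i z hz (hu ▸ mem_univ _)).self_of_nhds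

/-- Evaluation on holomorphic vector fields. -/
theorem Tens.diffAt [Fintype κ] (hα : Tens A c α) {V : Type} [NormedAddCommGroup V]
    [NormedSpace ℂ V] {i : A.ι} {f : V → E N} {v : κ → V → E N} {s : V} (hs : f s ∈ (A.C i).W)
    (hf : DifferentiableAt ℂ f s) (hv : ∀ l, DifferentiableAt ℂ (v l) s) :
    DifferentiableAt ℂ (fun t => α i (f t) fun l => v l t) s := by
  classical
  have he : (fun t => α i (f t) fun l => v l t) = fun t => ∑ a : κ → Fin N,
      (∏ l, v l t (a l)) * α i (f t) fun l => Pi.single (a l) 1 := by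
    funext t
    have h1 : (fun l => v l t) = fun l => ∑ a, v l t a • (Pi.single a 1 : E N) := by
      funext l b
      simp [Finset.sum_apply, Pi.single_apply]
    rw [h1, MultilinearMap.map_sum]
    exact Finset.sum_congr rfl fun a _ => (α i (f t)).map_smul_univ _ _
  rw [he]
  refine DifferentiableAt.fun_sum fun a _ => DifferentiableAt.mul ?_
    (((hα.hol i _).differentiableAt ((A.C i).isOpen.mem_nhds hs)).comp s hf)
  exact (HasFDerivAt.finsetProd fun l _ =>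
    (differentiableAt_pi.1 (hv l) (a l)).hasFDerivAt).differentiableAt

/-- A multilinear map that vanishes on tuples with more vertical entries sees only the
horizontal parts of the other entries. -/
theorem most_vert [Fintype κ] [DecidableEq κ]
    (β : MultilinearMap ℂ (fun _ : κ => E n × E n) ℂ) {S : Finset κ}
    (h : ∀ l ∉ S, ∀ x : κ → E n × E n, (∀ m ∈ insert l S, (x m).1 = 0) → β x = 0)
    {x x' : κ → E n × E n} (h1 : ∀ l, (x l).1 = (x' l).1) (h2 : ∀ l ∈ S, x l = x' l)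
    (h3 : ∀ l ∈ S, (x' l).1 = 0) : β x = β x' := by
  have he : x = (x - x') + x' := (sub_add_cancel x x').symm
  rw [he, β.map_add_univ, Finset.sum_eq_single ∅ (fun s _ hs => ?_) (by simp)]
  · simp
  obtain ⟨l, hl⟩ := Finset.nonempty_iff_ne_empty.2 hs
  by_cases hS : l ∈ S
  · exact β.map_coord_zero l (by simp [hl, h2 l hS])
  refine h l hS _ fun m hm => ?_
  by_cases hs' : m ∈ s
  · simp [hs', h1 m]
  · rw [Finset.piecewise_eq_of_notMem _ _ _ hs']
    exact h3 m ((Finset.mem_insert.1 hm).resolve_left fun e => hs' (e ▸ hl))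

/-- The map `Ψ` read in the chart `i`. -/
noncomputable def lf (A : Atlas Y N) (Ψ : E n × E n → Y) (i : A.ι) (s : E n × E n) : E N :=
  Function.invFunOn (A.p i) (A.C i).W (Ψ s)

/-- The pull-back of a tensor. -/
noncomputable def pb (α : A.ι → E N → Ten N κ) (Ψ : E n × E n → Y) (i : A.ι) (s : E n × E n) :
    MultilinearMap ℂ (fun _ : κ => E n × E n) ℂ :=
  (α i (lf A Ψ i s)).compLinearMap fun _ => (fderiv ℂ (lf A Ψ i) s : E n × E n →ₗ[ℂ] E N)

theorem pb_apply (i : A.ι) (s : E n × E n) (x : κ → E n × E n) :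
    pb α Ψ i s x = α i (lf A Ψ i s) fun l => fderiv ℂ (lf A Ψ i) s (x l) := rfl

variable (hinj : ∀ i, InjOn (A.p i) (A.C i).W)
include hinj

theorem lf_eq {i : A.ι} {z : E N} {s : E n × E n} (hz : z ∈ (A.C i).W) (he : A.p i z = Ψ s) :
    lf A Ψ i s = z := by
  rw [lf, ← he, (hinj i).leftInvOn_invFunOn hz]

theorem lf_loc (h : A.IsUnif T Ψ) {q : E n × E n} (hq : q.1 ∈ T) {i : A.ι} {z : E N}
    (hz : z ∈ (A.C i).W) (he : A.p i z = Ψ q) : ∀ᶠ s in 𝓝 q, DifferentiableAt ℂ (lf A Ψ i) s ∧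
      lf A Ψ i s ∈ (A.C i).W ∧ A.p i (lf A Ψ i s) = Ψ s := by
  obtain ⟨j, O, f, hO, hw, hf, hs⟩ := h q hq
  obtain ⟨O', φ, h1, h2, -, h4⟩ :=
    A.trans j i (f q) (hs q hw).1 z hz ((hs q hw).2.1.trans he.symm)
  have hn : ∀ᶠ s in 𝓝 q, s ∈ O ∧ f s ∈ O' := (show ∀ᶠ s in 𝓝 q, s ∈ O from hO.mem_nhds hw).and
    ((hf.differentiableAt (hO.mem_nhds hw)).continuousAt.eventually (h1.isOpen.mem_nhds h2))
  have hp : ∀ s, s ∈ O ∧ f s ∈ O' → A.p i (φ (f s)) = Ψ s := fun s hs' =>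
    (h4 _ hs'.2).trans (hs s hs'.1).2.1
  filter_upwards [hn.eventually_nhds] with s hs'
  have h0 := hs'.self_of_nhds
  rw [lf_eq hinj (h1.maps h0.2) (hp s h0)]
  refine ⟨DifferentiableAt.congr_of_eventuallyEq (f := fun t => φ (f t))
    ((h1.hol.differentiableAt (h1.isOpen.mem_nhds h0.2)).comp s
      (hf.differentiableAt (hO.mem_nhds h0.1))) ?_, h1.maps h0.2, hp s h0⟩
  exact hs'.mono fun t ht => lf_eq hinj (h1.maps ht.2) (hp t ht)

theorem pb_diffAt [Fintype κ] (hα : Tens A c α) (h : A.IsUnif T Ψ) {q : E n × E n} (hq : q.1 ∈ T)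
    {i : A.ι} {z : E N} (hz : z ∈ (A.C i).W) (he : A.p i z = Ψ q) (x : κ → E n × E n) :
    DifferentiableAt ℂ (fun s => pb α Ψ i s x) q := by
  have h1 := lf_loc hinj h hq hz he
  obtain ⟨O, hO, ho, hqO⟩ := _root_.eventually_nhds_iff.1 h1
  have h2 := (CL.hol_smooth ho fun s hs => (hO s hs).1.differentiableWithinAt).2.2
  exact hα.diffAt (v := fun l s => fderiv ℂ (lf A Ψ i) s (x l)) (hO q hqO).2.1 (hO q hqO).1
    fun l => (h2.differentiableAt (ho.mem_nhds hqO)).clm_apply (differentiableAt_const _)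

theorem pb_cpt (hα : Tens A c α) (h : A.IsUnif T Ψ) {q : E n × E n} (hq : q.1 ∈ T) {i j : A.ι}
    {z y : E N} (hz : z ∈ (A.C i).W) (hy : y ∈ (A.C j).W) (he : A.p i z = Ψ q)
    (he' : A.p j y = Ψ q) (x : κ → E n × E n) : pb α Ψ j q x = c i j z * pb α Ψ i q x := by
  obtain ⟨O, φ, h1, h2, -, h4⟩ := A.trans i j z hz y hy (he.trans he'.symm)
  have h5 := lf_loc hinj h hq hz he
  have h6 := lf_eq hinj hz he
  have h7 : lf A Ψ j =ᶠ[𝓝 q] fun s => φ (lf A Ψ i s) := by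
    filter_upwards [h5, h5.self_of_nhds.1.continuousAt.eventually
      (h1.isOpen.mem_nhds (h6.symm ▸ h2))] with s a b
    exact lf_eq hinj (h1.maps b) ((h4 _ b).trans a.2.2)
  rw [pb_apply, pb_apply, h7.fderiv_eq, h7.self_of_nhds, fderiv_fun_comp q
    (h6.symm ▸ h1.hol.differentiableAt (h1.isOpen.mem_nhds h2)) h5.self_of_nhds.1, h6,
    ← hα.cpt i j O φ h1 h4 z h2]
  simp only [jac_mulVec, ContinuousLinearMap.comp_apply, h6]

/-- Two points over the same point of the tube differ by a unipotent map. -/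
theorem pb_deck (h : Tube A T Ψ) {q q' : E n × E n} (hq : q.1 ∈ T) (hq' : q'.1 ∈ T) {i : A.ι}
    {z : E N} (hz : z ∈ (A.C i).W) (he : A.p i z = Ψ q) (he' : A.p i z = Ψ q') :
    ∃ J : E n × E n → E n × E n, (∀ u, (J u).1 = u.1) ∧ (∀ u, u.1 = 0 → J u = u) ∧
      ∀ x, pb α Ψ i q x = pb α Ψ i q' fun l => J (x l) := by
  obtain ⟨χ, V, hV, hqV, rfl, hd, hs⟩ := hol_first h.unif h.isOpen hq hq' (he.symm.trans he')
  have hn := hV.mem_nhds hqV
  have h1 : ∀ u, (fderiv ℂ χ q u).1 = u.1 := fun u => by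
    have h2 : (fun s => (χ s).1) =ᶠ[𝓝 q] Prod.fst := mem_of_superset hn fun s hs' => by
      obtain ⟨a, b, e, -⟩ := hs s hs'
      exact (h.proj_apply b (χ s).2).symm.trans ((congrArg (proj T Ψ) e).trans (h.proj_apply a s.2))
    have h3 := (hd.differentiableAt hn).hasFDerivAt.fst.fderiv
    rw [h2.fderiv_eq, fderiv_fst] at h3
    exact (congrArg (fun L => L u) h3).symm
  refine ⟨fderiv ℂ χ q, h1, fun u hu => Prod.ext (h1 u) ?_, fun x => ?_⟩
  · obtain ⟨β, v⟩ := u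
    obtain rfl : β = 0 := hu
    funext a
    have := (hs q hqV).2.2.2.2 (Pi.single a 1) v
    rwa [h1, single_one_dotProduct, single_one_dotProduct] at this
  · have h2 : lf A Ψ i =ᶠ[𝓝 q] fun s => lf A Ψ i (χ s) := mem_of_superset hn fun s hs' => by
      simp only [mem_ofPred_eq, lf, (hs s hs').2.2.1]
    rw [pb_apply, pb_apply, h2.fderiv_eq, h2.self_of_nhds, fderiv_fun_comp q
      (lf_loc hinj h.unif hq' hz he').self_of_nhds.1 (hd.differentiableAt hn)]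
    rfl

theorem pb_ne (h : A.IsUnif T Ψ) (hT : IsOpen T) {i : A.ι} {z : E N} (hz : z ∈ (A.C i).W)
    (hx : A.p i z ∈ Ψ '' (T ×ˢ univ)) (h0 : α i z ≠ 0) :
    ∃ q : E n × E n, q.1 ∈ T ∧ A.p i z = Ψ q ∧ ∃ x, pb α Ψ i q x ≠ 0 := by
  obtain ⟨w, hw, he⟩ := hx
  obtain ⟨χ, hχ⟩ := unif_inv h hT hz hw.1 he.symm
  obtain ⟨a, b, e⟩ := hχ.self_of_nhds
  obtain ⟨v, hv⟩ : ∃ v, α i z v ≠ 0 := by
    by_contra hc
    exact h0 (MultilinearMap.ext fun v => not_not.1 fun h' => hc ⟨v, h'⟩)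
  refine ⟨χ z, b, e.symm, fun l => fderiv ℂ χ z (v l), ?_⟩
  have h1 : (fun y => lf A Ψ i (χ y)) =ᶠ[𝓝 z] id := by
    filter_upwards [hχ, (A.C i).isOpen.mem_nhds hz] with y hy hy'
    exact lf_eq hinj hy' hy.2.2.symm
  have h2 := fderiv_fun_comp z (lf_loc hinj h b hz e.symm).self_of_nhds.1 a
  rw [h1.fderiv_eq, fderiv_id] at h2
  rw [pb_apply, lf_eq hinj hz e.symm]
  refine fun h3 => hv (Eq.trans (congrArg _ (funext fun l => ?_)) h3)
  exact congrArg (fun L => L (v l)) h2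

end Pool.Agent.SE
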