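import Pool.Agent.P.MP_63735c_ag.HSExt2

/-! The Pfaffian, up to a constant. -/

open scoped Matrix

namespace Pool.Agent.SE

open Pool.Agent.SPF Pool.Agent.HS ExteriorAlgebra

variable {N n : ℕ}

/-- The two-form with matrix `s` on the model space. -/
noncomputable def srpfSig (s : Matrix (Fin N) (Fin N) ℂ) : ExteriorAlgebra ℂ (E N) :=
  ext1Sig (fun a => ι ℂ (Pi.basisFun ℂ (Fin N) a)) s

theorem srpf_map (J s : Matrix (Fin N) (Fin N) ℂ) :
    ExteriorAlgebra.map (Matrix.toLin' Jᵀ) (srpfSig s) = srpfSig (Jᵀ * s * J) := by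
  have h1 : ∀ a, ExteriorAlgebra.map (Matrix.toLin' Jᵀ) (ι ℂ (Pi.basisFun ℂ (Fin N) a)) =
      ∑ c, J a c • ι ℂ (Pi.basisFun ℂ (Fin N) c) := fun a => by
    rw [map_apply_ι]
    simp only [← map_smul, ← map_sum]
    congr 1
    ext l
    simp [Finset.sum_apply, Pi.single_apply]
  simp only [srpfSig, ext1Sig, map_smul, map_sum, map_mul, h1, Finset.sum_mul, Finset.mul_sum,
    smul_mul_smul_comm, Finset.smul_sum, smul_smul, Matrix.mul_apply, Matrix.transpose_apply,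
    Finset.sum_smul]
  have h2 : ∀ g : Fin N → Fin N → Fin N → Fin N → ExteriorAlgebra ℂ (E N),
      ∑ a, ∑ b, ∑ d, ∑ c, g a b c d = ∑ c, ∑ d, ∑ b, ∑ a, g a b c d := fun g => by
    calc _ = ∑ b, ∑ d, ∑ c, ∑ a, g a b c d := by
          rw [Finset.sum_comm]
          refine Finset.sum_congr rfl fun b _ => ?_
          rw [Finset.sum_comm]
          exact Finset.sum_congr rfl fun d _ => Finset.sum_comm
      _ = ∑ d, ∑ c, ∑ b, ∑ a, g a b c d := by
          rw [Finset.sum_comm]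
          exact Finset.sum_congr rfl fun d _ => Finset.sum_comm
      _ = _ := Finset.sum_comm
  rw [h2]
  refine Finset.sum_congr rfl fun c _ => Finset.sum_congr rfl fun d _ =>
    Finset.sum_congr rfl fun b _ => Finset.sum_congr rfl fun a _ => ?_
  congr 1
  ring

theorem srpf_deg (hN : N = 2 * n) (s : Matrix (Fin N) (Fin N) ℂ) :
    srpfSig s ^ n ∈ ⋀[ℂ]^N (E N) := by
  have m2 : srpfSig s ^ n ∈ ⋀[ℂ]^(2 * n) (E N) := deg_pow (deg_sum _ _ _ _) n
  rwa [← hN] at m2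

theorem srpf_diff (φ : ExteriorAlgebra ℂ (E N) →ₗ[ℂ] ℂ) (f : E N → Matrix (Fin N) (Fin N) ℂ)
    (z : E N) (hf : ∀ a b, DifferentiableAt ℂ (fun y => f y a b) z) (k : ℕ)
    (x : ExteriorAlgebra ℂ (E N)) :
    DifferentiableAt ℂ (fun y => φ (srpfSig (f y) ^ k * x)) z := by
  induction k generalizing x with
  | zero => simp
  | succ k ih =>
    have h : (fun y => φ (srpfSig (f y) ^ (k + 1) * x)) = fun y => (1 / 2 : ℂ) * ∑ a, ∑ b,
        f y a b * φ (srpfSig (f y) ^ k * (ι ℂ (Pi.basisFun ℂ (Fin N) a) *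
          ι ℂ (Pi.basisFun ℂ (Fin N) b) * x)) := by
      funext y
      rw [pow_succ, mul_assoc]
      generalize srpfSig (f y) ^ k = w
      simp only [srpfSig, ext1Sig, smul_mul_assoc, mul_smul_comm, Finset.sum_mul, Finset.mul_sum,
        map_smul, map_sum, smul_eq_mul]
    rw [h]
    exact (DifferentiableAt.fun_sum fun a _ => DifferentiableAt.fun_sum fun b _ =>
      (hf a b).mul (ih _)).const_mul _

theorem srpf_double : ∃ Z ∈ ⋀[ℂ]^(2 * N) (Fin N ⊕ Fin N → ℂ),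
    ∀ (s : Matrix (Fin N) (Fin N) ℂ) (p : ℂ),
      srpfSig s ^ n = p • ιMulti ℂ N (Pi.basisFun ℂ (Fin N)) →
        form20 s ^ n * form02 (s.map star) ^ n = (p * p) • Z := by
  let e := Pi.basisFun ℂ (Fin N)
  let L := fun f : Fin N → Fin N ⊕ Fin N => e.constr ℂ fun a => (Pi.single (f a) 1 : _ → ℂ)
  have m : ∀ f, ExteriorAlgebra.map (L f) (ιMulti ℂ N e) ∈ ⋀[ℂ]^N (Fin N ⊕ Fin N → ℂ) :=
    fun f => by
      rw [map_apply_ιMulti]
      exact ιMulti_range ℂ N ⟨_, rfl⟩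
  have a1 : ∀ s, ExteriorAlgebra.map (L Sum.inl) (srpfSig s) = form20 s := fun s => by
    simp only [srpfSig, L, e, ext1Sig, map_smul, map_sum, map_mul, map_apply_ι,
      Module.Basis.constr_basis, form20, xz]
  have a2 : ∀ s, ExteriorAlgebra.map (L Sum.inr) (srpfSig s) = form02 (s.map star) := fun s => by
    simp only [srpfSig, L, e, ext1Sig, map_smul, map_sum, map_mul, map_apply_ι,
      Module.Basis.constr_basis, form02, xb, Matrix.map_apply, star_star]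
  refine ⟨ExteriorAlgebra.map (L Sum.inl) (ιMulti ℂ N e) *
    ExteriorAlgebra.map (L Sum.inr) (ιMulti ℂ N e), ?_, fun s p hp => ?_⟩
  · rw [two_mul]
    exact deg_mul (m Sum.inl) (m Sum.inr)
  · rw [← a1, ← a2, ← map_pow, ← map_pow, hp, map_smul, map_smul, smul_mul_smul_comm]

theorem srpf_std (hN : N = 2 * n) : ∃ s : Matrix (Fin N) (Fin N) ℂ, sᵀ = -s ∧ s.det ≠ 0 ∧
    s.map star = s := by
  let e : Fin n ⊕ Fin n ≃ Fin N := finSumFinEquiv.trans (finCongr (by omega))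
  refine ⟨Matrix.reindex e e (Matrix.J (Fin n) ℂ), ?_, ?_, ?_⟩
  · rw [Matrix.transpose_reindex, Matrix.J_transpose]
    rfl
  · rw [Matrix.det_reindex_self]
    exact (Matrix.isUnit_det_J _ _).ne_zero
  · ext a b
    simp only [Matrix.map_apply, Matrix.reindex_apply, Matrix.submatrix_apply]
    generalize e.symm a = u
    generalize e.symm b = v
    cases u <;> cases v <;> simp [Matrix.J, Matrix.one_apply, apply_ite star]

theorem srpf_sq (hN : N = 2 * n) : ιMulti ℂ N (Pi.basisFun ℂ (Fin N)) ≠ 0 ∧ ∃ κ : ℂ, κ ≠ 0 ∧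
    ∀ (s : Matrix (Fin N) (Fin N) ℂ) (p : ℂ), sᵀ = -s →
      srpfSig s ^ n = p • ιMulti ℂ N (Pi.basisFun ℂ (Fin N)) → p * p = κ * s.det := by
  obtain ⟨Z, hZ, hp⟩ := srpf_double (N := N) (n := n)
  obtain ⟨z, rfl⟩ := top_mem (bas N) hZ
  obtain ⟨w, hw⟩ := top_mem (bas N) (deg_pow (deg11 (1 : Matrix (Fin N) (Fin N) ℂ)) N)
  obtain ⟨s₀, b1, b2, b3⟩ := srpf_std hN
  obtain ⟨p₀, hp₀⟩ := top_mem (Pi.basisFun ℂ (Fin N)) (srpf_deg hN s₀)
  have t0 := top_ne_zero hN b1 b2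
  have t3 := hp s₀ p₀ hp₀
  rw [b3] at t3
  rw [t3, smul_smul] at t0
  have t1 := right_ne_zero_of_smul t0
  have t2 := left_ne_zero_of_smul t0
  have z0 : z ≠ 0 := right_ne_zero_of_mul t2
  have p0 : p₀ * p₀ ≠ 0 := left_ne_zero_of_mul t2
  set M : Matrix (Fin N ⊕ Fin N) (Fin N ⊕ Fin N) ℂ := Matrix.fromBlocks 1 1 1 (-1)
  set c : ℂ := ((2 * n).choose n : ℕ) * (2 * Complex.I * -(2 * Complex.I)) ^ n with hc
  have c0 : c ≠ 0 := mul_ne_zero (Nat.cast_ne_zero.2 (Nat.choose_pos (by omega)).ne')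
    (pow_ne_zero _ (by simp))
  have key : ∀ (s : Matrix (Fin N) (Fin N) ℂ) (p : ℂ), sᵀ = -s →
      srpfSig s ^ n = p • ιMulti ℂ N (Pi.basisFun ℂ (Fin N)) →
        p * p = M.det * w / (c * z) * s.det := fun s p hs h => by
    have p2 := hp s p h
    have q1 := mixed_pow (h := s) (s := s) (t := s.map star) (j := 0) (m := n) (by omega)
      (2 * Complex.I) (-(2 * Complex.I))
    rw [← hc, pow_zero, one_mul, one_mul, ← ph_skew hs, ← map_pow, ← hN,
      ph_top _ (deg_pow (deg11 s) N), form11_pow, hw, p2, smul_smul, smul_smul, smul_smul,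
      smul_smul] at q1
    have q2 := smul_left_injective ℂ t1 q1
    field_simp
    linear_combination -q2
  refine ⟨fun h0 => p0 ?_, _, fun h0 => p0 ?_, key⟩
  · have h1 := hp s₀ 0 (by rw [hp₀, h0, smul_zero, smul_zero])
    rw [b3, t3, smul_smul, mul_zero, zero_smul] at h1
    exact absurd h1 t0
  · rw [key s₀ p₀ b1 hp₀, h0, zero_mul]

theorem exists_pfaff {N n : ℕ} (hN : N = 2 * n) :
    ∃ (pf : Matrix (Fin N) (Fin N) ℂ → ℂ) (κ : ℝ), 0 < κ ∧
      (∀ J s, pf (Jᵀ * s * J) = J.det * pf s) ∧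
      (∀ s, sᵀ = -s → ‖pf s‖ ^ 2 = κ * ‖s.det‖) ∧
      ∀ (f : E N → Matrix (Fin N) (Fin N) ℂ) z,
        (∀ a b, DifferentiableAt ℂ (fun y => f y a b) z) →
          DifferentiableAt ℂ (fun y => pf (f y)) z := by
  obtain ⟨h0, κ, k0, hκ⟩ := srpf_sq hN
  obtain ⟨φ, hφ⟩ := Module.Projective.exists_dual_eq_one ℂ h0
  refine ⟨fun s => φ (srpfSig s ^ n), ‖κ‖, norm_pos_iff.2 k0, fun J s => ?_, fun s hs => ?_,
    fun f z hf => ?_⟩
  · simp only
    rw [← srpf_map, ← map_pow, top_map (Pi.basisFun ℂ (Fin N)) _ (srpf_deg hN s),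
      LinearMap.det_toLin', Matrix.det_transpose, map_smul, smul_eq_mul]
  · obtain ⟨p, hp⟩ := top_mem (Pi.basisFun ℂ (Fin N)) (srpf_deg hN s)
    simp only
    rw [hp, map_smul, hφ, smul_eq_mul, mul_one, ← norm_mul, ← hκ s p hs hp, norm_mul, sq]
  · simpa only [mul_one] using srpf_diff φ f z hf n 1

end Pool.Agent.SE
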