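import Pool.Agent.P.MP_63735c_ag.SEKos
import Pool.Agent.P.MP_63735c_ag.SRPf
import Pool.Agent.P.MP_63735c_ag.SETb1

/-! From holomorphic multivectors to holomorphic forms. -/

open scoped ComplexOrder ContDiff Matrix Topology
open Set Metric MeasureTheory Filter

namespace Pool.Agent.SE

open Pool.Agent.SPF Pool.Agent.AB Pool.Agent.NL

variable {N : ℕ} {ρ : Type} [Fintype ρ] [DecidableEq ρ]

/-- The contraction as a linear map. -/
noncomputable def ivL (C : Car (Matrix ρ ρ ℂ) N) : E N →ₗ[ℂ] Matrix ρ ρ ℂ where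
  toFun := C.iv
  map_add' := C.iv_add
  map_smul' := C.iv_smul

/-- The form attached to a multivector. -/
theorem exists_alt (C : Car (Matrix ρ ρ ℂ) N) (p : ℕ) (s : Mat N) (u : ρ → ℂ) (r : ρ) :
    ∃ α : E N [⋀^Fin p]→ₗ[ℂ] ℂ, ∀ v,
      α v = ((C.vac * C.il (List.ofFn fun l => v l ᵥ* s)) *ᵥ u) r := by
  let f : Matrix ρ ρ ℂ →ₗ[ℂ] ℂ :=
    { toFun := fun x => ((C.vac * x) *ᵥ u) r
      map_add' := fun x y => by rw [mul_add, Matrix.add_mulVec, Pi.add_apply]
      map_smul' := fun c x => by rw [mul_smul_comm, Matrix.smul_mulVec]; rfl }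
  refine ⟨((f ∘ₗ (ExteriorAlgebra.lift ℂ ⟨ivL C, C.iv2⟩).toLinearMap).compAlternatingMap
    (ExteriorAlgebra.ιMulti ℂ p)).compLinearMap s.vecMulLinear, fun v => ?_⟩
  simp only [AlternatingMap.compLinearMap_apply, LinearMap.compAlternatingMap_apply,
    LinearMap.comp_apply, AlgHom.toLinearMap_apply, ExteriorAlgebra.ιMulti_apply, map_list_prod,
    List.map_ofFn, Car.il, Function.comp_def, ExteriorAlgebra.lift_ι_apply]
  rfl

theorem il_diffAt (C : Car (Matrix ρ ρ ℂ) N) {z : E N} : ∀ l : List (E N → E N),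
    (∀ u ∈ l, DifferentiableAt ℂ u z) → ∀ r s,
      DifferentiableAt ℂ (fun y => C.il (l.map fun u => u y) r s) z
  | [], _, r, s => differentiableAt_const _
  | u :: l, h, r, s => by
    simp only [List.map_cons, Car.il_cons, Matrix.mul_apply, Car.iv, Matrix.sum_apply,
      Matrix.smul_apply, smul_eq_mul]
    exact DifferentiableAt.fun_sum fun t _ => (DifferentiableAt.fun_sum fun a _ =>
      (differentiableAt_pi.1 (h u List.mem_cons_self) a).mul_const _).mul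
        (il_diffAt C l (fun w hw => h w (List.mem_cons_of_mem _ hw)) t s)

theorem diag_il {C : Car (Matrix ρ ρ ℤ) N} (hC : ∀ a, C.i a = (C.e a)ᵀ) {d : ρ → ℕ}
    (hd : ∀ a r s, C.e a r s ≠ 0 → d r = d s) (c : ℕ → ℂ) (l : List (E N)) (u : ρ → ℂ) (r : ρ) :
    (((C.mat ℂ).vac * (C.mat ℂ).il l) *ᵥ ((Matrix.diagonal fun r => c (d r)) *ᵥ u)) r =
      c (d r) * (((C.mat ℂ).vac * (C.mat ℂ).il l) *ᵥ u) r := by
  have h : Commute (Matrix.diagonal fun r => c (d r)) ((C.mat ℂ).vac * (C.mat ℂ).il l) :=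
    (Car.diag_vac hC hd c).mul_right (Commute.list_prod_right _ _ fun y hy => by
      obtain ⟨w, -, rfl⟩ := List.mem_map.1 hy
      exact (C.mat ℂ).commute_iv (Car.diag_i hC hd c) w)
  rw [Matrix.mulVec_mulVec, ← h.eq, ← Matrix.mulVec_mulVec, Matrix.mulVec_diagonal]

variable {X : Type} [TopologicalSpace X] {A : Atlas X N}

theorem Line.ten (L : Line A) {C : Car (Matrix ρ ρ ℤ) N} (hC : ∀ a, C.i a = (C.e a)ᵀ) {d : ρ → ℕ}
    (hd : ∀ a r s, C.e a r s ≠ 0 → d r = d s) (hno : NoOdd A) {u : A.ι → E N → ρ → ℂ}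
    (hu : ∀ i, DifferentiableOn ℂ (u i) (A.C i).W)
    (hc : ∀ i j O φ, IsChange (A.C i) (A.C j) O φ → (∀ w ∈ O, A.p j (φ w) = A.p i w) → ∀ z ∈ O,
      u j (φ z) = ((Matrix.diagonal fun r => L.g i j (A.p i z) ^ d r) *
        (C.mat ℂ).gam (jac φ z)) *ᵥ u i z) {i0 : A.ι} {z0 : E N} (hz0 : z0 ∈ (A.C i0).W)
    (h1 : u i0 z0 ≠ 0) (h : -u i0 z0 = (Matrix.diagonal fun r => (-1 : ℂ) ^ d r) *ᵥ u i0 z0 ∨
      -u i0 z0 = (C.mat ℂ).gam (-1 : Mat N) *ᵥ u i0 z0) :
    ∃ (k p : ℕ) (α : A.ι → E N → Ten N (Fin p)), 1 ≤ k ∧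
      Tens A (fun i j z => L.g i j (A.p i z) ^ k) α ∧ ∃ i, ∃ z ∈ (A.C i).W, α i z ≠ 0 := by
  obtain ⟨l0, h2⟩ := not_forall.1 (mt (C.mat ℂ).eq_zero_of_il h1)
  obtain ⟨r, h3⟩ := Function.ne_iff.1 h2
  choose α hα using fun i z => exists_alt (C.mat ℂ) l0.length ((A.C i).σ z) (u i z) r
  have hne : α i0 z0 (fun l => Pi.single (l0.get l) 1 ᵥ* ((A.C i0).σ z0)⁻¹) ≠ 0 := by
    rw [hα]
    simp only [Matrix.vecMul_vecMul, Matrix.nonsing_inv_mul _ ((A.C i0).σ_det z0 hz0).isUnit,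
      Matrix.vecMul_one]
    rwa [show (List.ofFn fun l => (Pi.single (l0.get l) 1 : E N)) = l0.map fun a => Pi.single a 1
      from by rw [← List.ofFn_get l0, List.map_ofFn]; simp [Function.comp_def]]
  have hol : ∀ i v, DifferentiableOn ℂ (fun z => α i z v) (A.C i).W := fun i v z hz => by
    have hn := (A.C i).isOpen.mem_nhds hz
    have h4 := il_diffAt (C.mat ℂ) (z := z) (List.ofFn fun l y => v l ᵥ* (A.C i).σ y)
      fun u hu => by
        obtain ⟨l, rfl⟩ := List.mem_ofFn.1 hu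
        refine differentiableAt_pi.2 fun b => ?_
        simp only [Matrix.vecMul, dotProduct]
        exact DifferentiableAt.fun_sum fun a _ =>
          (((A.C i).σ_hol a b).differentiableAt hn).const_mul _
    simp only [List.map_ofFn, Function.comp_def] at h4
    simp only [hα, Matrix.mulVec, dotProduct, Matrix.mul_apply]
    exact (DifferentiableAt.fun_sum fun s _ => (DifferentiableAt.fun_sum fun t _ =>
      (h4 t s).const_mul _).fun_mul (differentiableAt_pi.1 ((hu i).differentiableAt hn) s)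
        ).differentiableWithinAt
  have cpt : ∀ i j O φ, IsChange (A.C i) (A.C j) O φ → (∀ w ∈ O, A.p j (φ w) = A.p i w) →
      ∀ z ∈ O, ∀ v, α j (φ z) (fun l => jac φ z *ᵥ v l) = L.g i j (A.p i z) ^ d r * α i z v := by
    intro i j O φ a b z hz v
    rw [hα, hα, hc i j O φ a b z hz, ← Matrix.mulVec_mulVec _ (Matrix.diagonal _),
      diag_il hC hd (fun m => L.g i j (A.p i z) ^ m), Matrix.mulVec_mulVec, Car.vac_il_gam,
      List.map_ofFn, a.σ_eq z hz]
    simp only [Function.comp_def, ← Matrix.vecMul_vecMul, Matrix.vecMul_transpose]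
  refine (Nat.eq_zero_or_pos (d r)).elim (fun hr => (hne ?_).elim) fun hr =>
    ⟨d r, _, fun i z => (α i z).toMultilinearMap, hr, ⟨hol, cpt⟩, i0, z0, hz0,
      fun e => hne (DFunLike.congr_fun e _)⟩
  rcases h with e1 | e1
  · have e2 := fun l => diag_il hC hd (fun m => (-1) ^ m) l (u i0 z0) r
    simp only [← e1, hr, pow_zero, one_mul, Matrix.mulVec_neg, Pi.neg_apply] at e2
    rw [hα]
    exact self_eq_neg.1 (e2 _).symm
  · rcases Nat.even_or_odd l0.length with hp | hp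
    · rw [hα]
      refine congrFun (self_eq_neg.1 ?_) r
      rw [← Matrix.mulVec_neg, e1, Matrix.mulVec_mulVec, Car.vac_il_par, List.length_ofFn,
        hp.neg_one_pow, one_smul]
    · rw [hno _ hp α ⟨hol, fun i j O φ a b z hz v => ?_⟩ i0 z0 hz0]
      · rfl
      have := cpt i j O φ a b z hz v
      simp only [hr, pow_zero, one_mul, jac_mulVec] at this
      exact this.symm

theorem pf_ne {pf : Mat N → ℂ} {κ : ℝ} (hκ : 0 < κ) (h : ∀ s, sᵀ = -s → ‖pf s‖ ^ 2 = κ * ‖s.det‖)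
    (C : Chart N) {z : E N} (hz : z ∈ C.W) : pf (C.σ z) ≠ 0 := fun h0 => by
  have := h _ (C.σ_skew z hz)
  rw [h0, norm_zero, zero_pow two_ne_zero] at this
  exact (mul_pos hκ (norm_pos_iff.2 (C.σ_det z hz))).ne this

theorem Res.ten {n : ℕ} (hN : N = 2 * n) [Nonempty X] {L : Line A} {Y : Type} [TopologicalSpace Y]
    [CompactSpace Y] [T2Space Y] (Z : Res L Y) (hno : NoOdd A) :
    ∃ (k p : ℕ) (α : A.ι → E N → Ten N (Fin p)), 1 ≤ k ∧
      Tens A (fun i j z => L.g i j (A.p i z) ^ k) α ∧ ∃ i, ∃ z ∈ (A.C i).W, α i z ≠ 0 := by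
  borelize Y
  obtain ⟨ρ, _, _, C, hC, d, hd, V, hV, h0, h⟩ := Z.idx (hN ▸ even_two_mul n)
  obtain ⟨pf, κ, hκ, p1, p2, p3⟩ := exists_pfaff hN
  have p0 := pf_ne hκ p2
  obtain ⟨i0, z0, hz0, h1⟩ : ∃ i, ∃ z ∈ (A.C i).W, V.v (.inl i) z ≠ 0 := by
    by_contra hn
    refine h0 (Bun.Sec.ext' fun k z hz => by_contra fun h1 => ?_)
    have h2 := ((V.smooth k).continuousOn.isOpen_inter_preimage (Z.dm_open isClosed_empty k)
      (isOpen_compl_singleton (x := 0)))
    obtain ⟨x, y, hy, e⟩ := Z.j_dense.exists_mem_open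
      ((Z.man isClosed_empty).opn k _ h2 inter_subset_left) ⟨_, z, ⟨hz, h1⟩, rfl⟩
    obtain ⟨i, w, hw, rfl⟩ := A.cover x
    refine hn ⟨i, w, hw, fun h3 => hy.2 ?_⟩
    exact (V.fam.cpt (.inl i) k w hw y hy.1 ((Z.p_eq i w hw).trans e.symm)).trans
      (by rw [h3, Matrix.mulVec_zero])
  refine L.ten hC hd hno (u := fun i z => (pf ((A.C i).σ z))⁻¹ • V.v (.inl i) z)
    (fun i z hz => ?_) (fun i j O φ a b z hz => ?_) hz0 (smul_ne_zero (inv_ne_zero (p0 _ hz0)) h1)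
    (h.imp (fun h => ?_) fun h => ?_)
  · exact ((p3 _ z fun a b => ((A.C i).σ_hol a b).differentiableAt
      ((A.C i).isOpen.mem_nhds hz)).fun_inv (p0 _ hz)).differentiableWithinAt.fun_smul
        (hV (.inl i) z hz)
  · have e1 := fun m => Res.gg_pf (Z := Z) (hS := isClosed_empty) (h := empty_subset _) (hC := hC)
      (hd := hd) p1 (a.sub hz) (a.maps hz) (b z hz).symm m
    have e2 := V.fam.cpt (.inl i) (.inl j) z (a.sub hz) _ (a.maps hz)
      ((Z.p_congr (a.sub hz) (a.maps hz)).2 (b z hz).symm)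
    change _ = Geo.G _ _ _ _ *ᵥ _ at e2
    rw [Geo.G, Res.jac_ch a b hz] at e2
    rw [e2, ← Matrix.mulVec_mulVec, ← Matrix.mulVec_mulVec, Matrix.mulVec_smul]
    funext r
    simp only [Pi.smul_apply, Matrix.mulVec_diagonal, smul_eq_mul]
    rw [eq_mul_inv_iff_mul_eq₀ (p0 _ (a.sub hz)) |>.2 (e1 _), ← mul_assoc, ← mul_assoc,
      ← mul_assoc, mul_comm (_⁻¹), inv_mul_cancel_right₀ (p0 _ (a.maps hz))]
    exact mul_assoc _ _ _
  · have e1 := ((Z.geo _ _ C hC d hd).F_loc (fun m => (-1) ^ m) (.inl i0)).eq V z0 hz0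
    rw [show Geo.F _ _ V = -V from h] at e1
    rw [Matrix.mulVec_smul, ← smul_neg]
    exact congrArg _ e1
  · have e1 := ((Z.geo _ _ C hC d hd).P_loc (.inl i0)).eq V z0 hz0
    rw [h] at e1
    rw [Matrix.mulVec_smul, ← smul_neg]
    exact congrArg _ e1

end Pool.Agent.SE
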