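import Pool.Agent.P.MP_63735c_ag.SF0

/-! The values of sections at the points of a singular space. -/

open scoped ComplexOrder ContDiff Matrix Topology ENNReal
open Set Metric MeasureTheory Filter

namespace Pool.Agent.ZB

open Pool.Agent.BP Pool.Agent.SPF Pool.Agent.AB Pool.Agent.CK Pool.Agent.SE Pool.Agent.NL

variable {N : ℕ} {X : Type} [TopologicalSpace X] {R : Set X} {A : Atlas R N} {B : Amb R A}
  {K : Form11 A} {L : Line A} {k : ℕ} {s t T : A.ι → E N → ℂ} {x y : X} {i : A.ι} {z : E N}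

theorem sf1_nn (hs : L.IsSection k s) (y : R) : 0 ≤ nrm L k s y := sect_nonneg (nrm_norm hs) y

theorem vanS_iff (hs : L.IsSection k s) :
    VanS L k s x ↔ Tendsto (nrm L k s) (nr R x) (𝓝 0) := by
  rw [Metric.tendsto_nhds]
  refine ⟨fun h ε hε => eventually_comap.2 ((h _ (half_pos hε)).mono fun y hy u hu => ?_),
    fun h ε hε => (eventually_comap.1 (h ε hε)).mono fun y hy i z hz e => ?_⟩
  · obtain ⟨i, z, hz, rfl⟩ := A.cover u
    rw [dist_zero_right, Real.norm_of_nonneg (sf1_nn hs _), nrm_eq hs hz]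
    exact (hy i z hz hu).trans_lt (half_lt_self hε)
  · have := hy _ e
    rw [dist_zero_right, Real.norm_of_nonneg (sf1_nn hs _), nrm_eq hs hz] at this
    exact this.le

theorem nr_reg (y : R) : nr R y = 𝓝 y := (nhds_induced Subtype.val y).symm

theorem vanS_reg (hs : L.IsSection k s) (hz : z ∈ (A.C i).W) :
    VanS L k s (A.p i z : X) ↔ s i z = 0 := by
  rw [vanS_iff hs, nr_reg, ← van_iff hs hz, ← not_iff_not, van_nrm hs]
  have h := (nrm_cont hs).tendsto (A.p i z)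
  exact ⟨fun a => (sf1_nn hs _).lt_of_ne fun e => a (e ▸ h),
    fun a b => a.ne' (tendsto_nhds_unique h b)⟩

theorem gl_rat (hT : L.IsSection k T) (ht : L.IsSection k t) (hz : z ∈ (A.C i).W) :
    gl A (fun i z => T i z / t i z) (A.p i z) = T i z / t i z :=
  gl_eq fun j y hy he => by
    rw [hT.2 i j z hz y hy he.symm, ht.2 i j z hz y hy he.symm,
      mul_div_mul_left _ _ (pow_ne_zero _ (fb4_g L hz hy he.symm))]

theorem rat_reg (hT : L.IsSection k T) (ht : L.IsSection k t) (hz : z ∈ (A.C i).W)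
    (h : t i z ≠ 0) : rat A T t (A.p i z) = T i z / t i z := by
  have hn := (A.C i).isOpen.mem_nhds hz
  rw [rat, nr_reg]
  refine Tendsto.limUnder_eq ?_
  rw [← bpd2_map hz, tendsto_map'_iff]
  exact Tendsto.congr' (mem_of_superset hn fun w hw => (gl_rat hT ht hw).symm)
    (((hT.1 i).continuousOn.continuousAt hn).div ((ht.1 i).continuousOn.continuousAt hn) h)

theorem sf1_pow (a : ℂ) (p : ℝ) (k l : ℕ) : ‖a ^ l‖ ^ 2 * Real.exp (-((k * l : ℕ) * p)) =
    (‖a‖ ^ 2 * Real.exp (-(k * p))) ^ l := by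
  rw [mul_pow, ← Real.exp_nat_mul, norm_pow, ← pow_mul, ← pow_mul, mul_comm l 2]
  push_cast
  ring_nf

theorem VanS.pow (h : VanS L k s x) {l : ℕ} (hl : 1 ≤ l) :
    VanS L (k * l) (fun i z => s i z ^ l) x := fun ε hε =>
  (h _ (lt_min hε one_pos)).mono fun y hy i z hz e => by
    have h1 := hy i z hz e
    rw [sf1_pow]
    exact (pow_le_of_le_one (by positivity) (h1.trans (min_le_right _ _)) (by omega)).trans
      (h1.trans (min_le_left _ _))

theorem sf1_lin (hT : L.IsSection k T) (ht : L.IsSection k t) (c : ℂ) :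
    L.IsSection k fun i z => T i z - c * t i z :=
  ⟨fun i => (hT.1 i).sub ((ht.1 i).const_mul c), fun i j z hz y hy e => by
    simp only [hT.2 i j z hz y hy e, ht.2 i j z hz y hy e]
    ring⟩

section

variable {κ : Type} {u : κ → A.ι → E N → ℂ} (M : Mod B K L k u x)

theorem Mod.ev (hy : y ∈ M.O) : ∀ᶠ v : R in nr R y, (v : X) ∈ M.O :=
  preimage_mem_comap (M.opn.mem_nhds hy)

theorem Mod.cont' (hy : y ∈ M.O) (l : κ) : ContinuousAt (fun v => M.F l (B.z M.α v)) y :=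
  ((M.F_hol l).continuousOn.continuousAt (isOpen_ball.mem_nhds (ball_subset_ball
    (by linarith [M.r_pos]) (M.maps hy)))).comp
      ((B.cont M.α).continuousAt ((B.V_open M.α).mem_nhds (M.sub hy)))

theorem Mod.tend (hy : y ∈ M.O) (l : κ) :
    Tendsto (fun v : R => M.F l (B.z M.α v)) (nr R y) (𝓝 (M.F l (B.z M.α y))) :=
  (M.cont' hy l).tendsto.comp tendsto_comap

theorem Mod.van [(nr R y).NeBot] (hy : y ∈ M.O) {l : κ} (hs : L.IsSection k (u l)) :
    VanS L k (u l) y ↔ M.F l (B.z M.α y) = 0 := by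
  have h1 := ((M.tend hy l).norm.pow 2)
  rw [vanS_iff hs]
  refine ⟨fun h => ?_, fun h => ?_⟩
  · have h2 := le_of_tendsto_of_tendsto (h1.const_mul M.c) h
      ((M.ev hy).mono fun v hv => (M.nrm_bd hs hv).1)
    exact norm_eq_zero.1 (pow_eq_zero_iff two_ne_zero |>.1
      (le_antisymm (nonpos_of_mul_nonpos_right h2 M.c_pos) (sq_nonneg _)))
  · refine squeeze_zero' (Eventually.of_forall (sf1_nn hs))
      ((M.ev hy).mono fun v hv => (M.nrm_bd hs hv).2) ?_
    simpa [h] using h1.const_mul M.C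

theorem Mod.rat (hy : y ∈ M.O) {a b : κ} (ha : L.IsSection k (u a)) (hb : L.IsSection k (u b))
    (h : M.F b (B.z M.α y) ≠ 0) : Tendsto (gl A fun i z => u a i z / u b i z) (nr R y)
      (𝓝 (M.F a (B.z M.α y) / M.F b (B.z M.α y))) := by
  refine ((M.tend hy a).div (M.tend hy b) h).congr' ((M.ev hy).mono fun v hv => ?_)
  obtain ⟨i, z, hz, rfl⟩ := A.cover v
  have h0 : M.e i z ≠ 0 := fun e => by
    have := (M.e_bd i z hz hv).1
    rw [e, norm_zero, zero_pow two_ne_zero, zero_mul] at this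
    exact this.not_gt M.c_pos
  rw [gl_rat ha hb hz, M.s_eq a i z hz hv, M.s_eq b i z hz hv, mul_div_mul_right _ _ h0]
  rfl

end

namespace Sg

variable (S : Sg B K L)
include S

theorem neBot (x : X) : (nr R x).NeBot :=
  (comap_neBot_iff_frequently.2 (mem_closure_iff_frequently.1
    (by rw [Subtype.range_coe]; exact S.dense x)))

/-- The local model of a quotient. -/
theorem two (hT : L.IsSection k T) (ht : L.IsSection k t) (h : ¬ VanS L k t x) :
    ∃ f : X → ℂ, ContinuousAt f x ∧ (f x = 0 ↔ VanS L k T x) ∧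
      ∀ᶠ y in 𝓝 x, Tendsto (gl A fun i z => T i z / t i z) (nr R y) (𝓝 (f y)) := by
  have hu : ∀ b : Bool, L.IsSection k (cond b T t) := by
    rintro (_ | _)
    exacts [ht, hT]
  obtain ⟨M⟩ := exists_mod S.kah S.nor S.car hu x
  have := S.neBot x
  have h0 : M.F false (B.z M.α x) ≠ 0 := fun e => h ((M.van M.mem (hu false)).2 e)
  refine ⟨fun y => M.F true (B.z M.α y) / M.F false (B.z M.α y),
    (M.F_cont true).div (M.F_cont false) h0, ?_, ?_⟩
  · rw [div_eq_zero_iff, or_iff_left h0]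
    exact (M.van M.mem (hu true)).symm
  · filter_upwards [M.opn.mem_nhds M.mem, (M.F_cont false).eventually_ne h0] with y a b
    exact M.rat a (hu true) (hu false) b

theorem nvan_lb (ht : L.IsSection k t) (h : ¬ VanS L k t x) :
    ∃ c : ℝ, 0 < c ∧ ∀ᶠ y in nr R x, c ≤ nrm L k t y := by
  obtain ⟨M⟩ := exists_mod S.kah S.nor S.car (s := fun _ : Unit => t) (fun _ => ht) x
  have := S.neBot x
  have h0 : 0 < M.c * ‖M.F () (B.z M.α x)‖ ^ 2 := mul_pos M.c_pos
    (pow_pos (norm_pos_iff.2 fun e => h ((M.van M.mem (l := ()) ht).2 e)) 2)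
  refine ⟨_, half_pos h0, ?_⟩
  filter_upwards [M.ev M.mem, (((M.tend M.mem ()).norm.pow 2).const_mul M.c).eventually_const_lt
    (half_lt_self h0)] with y a b
  exact b.le.trans (M.nrm_bd (l := ()) ht a).1

theorem nvan_of_lb (ht : L.IsSection k t) {c : ℝ} (hc : 0 < c)
    (h : ∀ᶠ y in nr R x, c ≤ nrm L k t y) : ¬ VanS L k t x := fun e =>
  have := S.neBot x
  hc.not_ge (ge_of_tendsto ((vanS_iff ht).1 e) h)

theorem nvan_open (ht : L.IsSection k t) : IsOpen {x : X | ¬ VanS L k t x} :=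
  isOpen_iff_mem_nhds.2 fun x hx => by
    obtain ⟨c, hc, h⟩ := S.nvan_lb ht hx
    filter_upwards [(eventually_comap.1 h).eventually_nhds] with y hy
    exact S.nvan_of_lb ht hc (eventually_comap.2 hy)

theorem nvan_pow (hs : L.IsSection k s) (h : ¬ VanS L k s x) (l : ℕ) :
    ¬ VanS L (k * l) (fun i z => s i z ^ l) x := by
  obtain ⟨c, hc, h1⟩ := S.nvan_lb hs h
  refine S.nvan_of_lb (sec_pow hs l) (pow_pos hc l) (h1.mono fun y hy => ?_)
  obtain ⟨i, z, hz, rfl⟩ := A.cover y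
  rw [nrm_eq hs hz] at hy
  rw [nrm_eq (sec_pow hs l) hz, sf1_pow]
  exact pow_le_pow_left₀ hc.le hy l

theorem rat_tendsto (hT : L.IsSection k T) (ht : L.IsSection k t) (h : ¬ VanS L k t x) :
    Tendsto (gl A fun i z => T i z / t i z) (nr R x) (𝓝 (rat A T t x)) := by
  obtain ⟨f, -, -, h1⟩ := S.two hT ht h
  exact tendsto_nhds_limUnder ⟨_, h1.self_of_nhds⟩

theorem rat_cont (hT : L.IsSection k T) (ht : L.IsSection k t) (h : ¬ VanS L k t x) :
    ContinuousAt (rat A T t) x := by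
  obtain ⟨f, h0, -, h1⟩ := S.two hT ht h
  refine h0.congr (h1.mono fun y hy => ?_)
  have := S.neBot y
  exact hy.limUnder_eq.symm

theorem rat_zero (hT : L.IsSection k T) (ht : L.IsSection k t) (h : ¬ VanS L k t x) :
    rat A T t x = 0 ↔ VanS L k T x := by
  obtain ⟨f, -, h0, h1⟩ := S.two hT ht h
  have := S.neBot x
  rwa [rat, h1.self_of_nhds.limUnder_eq]

theorem rat_sum {κ : Type} [Fintype κ] {u : κ → A.ι → E N → ℂ} (hu : ∀ a, L.IsSection k (u a))
    (c : κ → ℂ) (hT : L.IsSection k T) (e : ∀ i, ∀ z ∈ (A.C i).W, T i z = ∑ a, c a * u a i z)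
    (ht : L.IsSection k t) (h : ¬ VanS L k t x) : rat A T t x = ∑ a, c a * rat A (u a) t x := by
  have := S.neBot x
  refine tendsto_nhds_unique (S.rat_tendsto hT ht h) ((tendsto_finsetSum _ fun a _ =>
    (S.rat_tendsto (hu a) ht h).const_mul (c a)).congr fun y => ?_)
  obtain ⟨i, z, hz, rfl⟩ := A.cover y
  simp only [gl_rat hT ht hz, gl_rat (hu _) ht hz, e i z hz, Finset.sum_div, mul_div_assoc]

theorem rat_lin (hT : L.IsSection k T) (ht : L.IsSection k t) (h : ¬ VanS L k t x) (c : ℂ) :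
    rat A (fun i z => T i z - c * t i z) t x = rat A T t x - c := by
  have := S.neBot x
  obtain ⟨b, hb, h1⟩ := S.nvan_lb ht h
  refine tendsto_nhds_unique (S.rat_tendsto (sf1_lin hT ht c) ht h)
    (((S.rat_tendsto hT ht h).sub_const c).congr' (h1.mono fun y hy => ?_))
  obtain ⟨i, z, hz, rfl⟩ := A.cover y
  have h0 : t i z ≠ 0 := fun e => (van_nrm ht _).2 (hb.trans_le hy) ((van_iff ht hz).2 e)
  rw [gl_rat hT ht hz, gl_rat (sf1_lin hT ht c) ht hz, sub_div, mul_div_cancel_right₀ _ h0]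

theorem rat_self (ht : L.IsSection k t) (h : ¬ VanS L k t x) : rat A t t x = 1 := by
  have h1 := S.rat_lin ht ht h 1
  rw [(S.rat_zero (sf1_lin ht ht 1) ht h).2 fun ε hε => Eventually.of_forall fun _ _ _ _ _ => by
    simpa using hε.le] at h1
  exact (sub_eq_zero.1 h1.symm)

theorem sep_of_rat (hT : L.IsSection k T) (ht : L.IsSection k t) (hx : ¬ VanS L k t x)
    (hy : ¬ VanS L k t y) (h : rat A T t x ≠ rat A T t y) : SepS L k x y := by
  have h1 := sf1_lin hT ht (rat A T t y)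
  refine ⟨_, h1, (S.rat_zero h1 ht hy).1 (by rw [S.rat_lin hT ht hy, sub_self]), fun e => h ?_⟩
  rwa [← S.rat_zero h1 ht hx, S.rat_lin hT ht hx, sub_eq_zero] at e

theorem bpf_mul (h : BpfS L k) (l : ℕ) : BpfS L (k * l) := fun x => by
  obtain ⟨s, h1, h2⟩ := h x
  exact ⟨_, sec_pow h1 l, S.nvan_pow h1 h2 l⟩

theorem sep_mul (h : SepS L k x y) {l : ℕ} (hl : 1 ≤ l) : SepS L (k * l) x y := by
  obtain ⟨s, h1, h2, h3⟩ := h
  exact ⟨_, sec_pow h1 l, h2.pow hl, S.nvan_pow h1 h3 l⟩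

theorem sep_symm (hb : BpfS L k) (h : SepS L k x y) : SepS L k y x := by
  obtain ⟨s, h1, h2, h3⟩ := h
  obtain ⟨t, h4, h5⟩ := hb y
  by_cases h6 : VanS L k t x
  · exact ⟨t, h4, h6, h5⟩
  · refine S.sep_of_rat h1 h4 h5 h6 fun e => h3 ?_
    rw [← S.rat_zero h1 h4 h6, ← e, S.rat_zero h1 h4 h5]
    exact h2

theorem sep_open (hb : BpfS L k) : IsOpen {p : X × X | SepS L k p.1 p.2} := by
  refine isOpen_iff_mem_nhds.2 ?_
  rintro ⟨x, y⟩ ⟨s, h1, h2, h3⟩
  obtain ⟨t, h4, h5, h6⟩ : ∃ t, L.IsSection k t ∧ ¬ VanS L k t y ∧ ¬ VanS L k t x := by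
    obtain ⟨t, h4, h5⟩ := hb y
    by_cases h6 : VanS L k t x
    · have e : (fun i z => s i z - -1 * t i z) = fun i z => t i z - -1 * s i z := by
        funext i z
        ring
      have h7 := sf1_lin h1 h4 (-1)
      refine ⟨_, h7, ?_, ?_⟩
      · rw [← S.rat_zero h7 h4 h5, S.rat_lin h1 h4 h5, (S.rat_zero h1 h4 h5).2 h2]
        simp
      · rw [← S.rat_zero h7 h1 h3, e, S.rat_lin h4 h1 h3, (S.rat_zero h4 h1 h3).2 h6]
        simp
    · exact ⟨t, h4, h5, h6⟩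
  have c1 : ContinuousAt (fun p : X × X => rat A s t p.1) (x, y) :=
    (S.rat_cont h1 h4 h6).comp_of_eq continuousAt_fst rfl
  have c2 : ContinuousAt (fun p : X × X => rat A s t p.2) (x, y) :=
    (S.rat_cont h1 h4 h5).comp_of_eq continuousAt_snd rfl
  filter_upwards [(c1.sub c2).eventually_ne (y := 0) (by
    simpa [(S.rat_zero h1 h4 h5).2 h2, S.rat_zero h1 h4 h6] using h3),
    prod_mem_nhds ((S.nvan_open h4).mem_nhds h6) ((S.nvan_open h4).mem_nhds h5)] with p a b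
  exact S.sep_of_rat h1 h4 b.1 b.2 (sub_ne_zero.1 a)

theorem fibre_eq (hb : BpfS L k) (x : X) : FibreS L k x = {y | ¬ SepS L k x y} :=
  Set.ext fun _ => ⟨fun h ⟨s, a, b, c⟩ => c ((h s a).1 b), fun h s a =>
    ⟨fun b => by_contra fun c => h ⟨s, a, b, c⟩,
      fun b => by_contra fun c => h (S.sep_symm hb ⟨s, a, b, c⟩)⟩⟩

/-- A lower bound on a compact set. -/
theorem cpt_lb {κ : Type} [Fintype κ] {u : κ → A.ι → E N → ℂ} (hu : ∀ a, L.IsSection k (u a))
    {C : Set X} (hC : IsCompact C) (h : ∀ x ∈ C, ∃ a, ¬ VanS L k (u a) x) :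
    ∃ (c : ℝ) (O : Set X), 0 < c ∧ IsOpen O ∧ C ⊆ O ∧
      ∀ y : R, (y : X) ∈ O → c ≤ ∑ a, nrm L k (u a) y := by
  refine hC.induction_on (p := fun C => ∃ (c : ℝ) (O : Set X), 0 < c ∧ IsOpen O ∧ C ⊆ O ∧
      ∀ y : R, (y : X) ∈ O → c ≤ ∑ a, nrm L k (u a) y)
    ⟨1, ∅, one_pos, isOpen_empty, subset_rfl, fun _ h => h.elim⟩
    (fun _ _ e ⟨c, O, a1, a2, a3, a4⟩ => ⟨c, O, a1, a2, e.trans a3, a4⟩)
    (fun _ _ ⟨c, O, a1, a2, a3, a4⟩ ⟨c', O', b1, b2, b3, b4⟩ => ⟨min c c', O ∪ O', lt_min a1 b1,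
      a2.union b2, union_subset_union a3 b3, fun y hy => hy.elim
        (fun e => (min_le_left _ _).trans (a4 y e)) fun e => (min_le_right _ _).trans (b4 y e)⟩)
    fun x hx => ?_
  obtain ⟨a, ha⟩ := h x hx
  obtain ⟨c, hc, h1⟩ := S.nvan_lb (hu a) ha
  obtain ⟨O, o1, o2, o3⟩ := _root_.eventually_nhds_iff.1 (eventually_comap.1 h1)
  exact ⟨O, nhdsWithin_le_nhds (o2.mem_nhds o3), c, O, hc, o2, subset_rfl, fun y hy =>
    (o1 _ hy y rfl).trans (Finset.single_le_sum (f := fun a => nrm L k (u a) y)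
      (fun a _ => sf1_nn (hu a) y) (Finset.mem_univ a))⟩

end Sg

theorem nsepS_trans {u : X} (h1 : ¬ SepS L k x y) (h2 : ¬ SepS L k y u) : ¬ SepS L k x u :=
  fun ⟨s, a, b, c⟩ => h1 ⟨s, a, by_contra fun d => h2 ⟨s, a, b, d⟩, c⟩

end Pool.Agent.ZB
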