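import Pool.Agent.P.MP_63735c_ag.SF1
import Pool.Agent.P.MP_63735c_ag.SF3
import Pool.Agent.P.MP_63735c_ag.FB5

/-! Separation of two points of the singular space. -/

open scoped ComplexOrder ContDiff Matrix Topology ENNReal
open Set Metric MeasureTheory Filter

namespace Pool.Agent.ZB

open Pool.Agent.BP Pool.Agent.SPF Pool.Agent.AB Pool.Agent.CK Pool.Agent.SE Pool.Agent.NL

section

variable {N : ℕ} {X : Type} [TopologicalSpace X] {A : Atlas X N} {L : Line A}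

theorem sf5_sb (h : Bdd L) : SB.SecBd L := fun j s hs => by
  obtain ⟨b, hb⟩ := h j s hs
  refine ⟨b, fun i z hz => ?_⟩
  have h1 := hb (A.p i z)
  rwa [nrm_eq hs hz] at h1

theorem sf5_near {M : ℕ} {O : Set X} (F : X → E M) {u : X} (hu : u ∈ O) : Near O F u (F u) :=
  fun ε hε => (frequently_pure.2 ⟨hu, by simpa using hε⟩).filter_mono (pure_le_nhds u)

variable [MeasurableSpace X] {μ : Measure X} {U : Up A μ L} {x : X} {t : A.ι → E N → ℂ}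

theorem sf5_small (H : UG U x) {u : X} (hu : H.t H.a u ≤ H.τ / 8) : ‖H.F u - H.a‖ ≤ H.δ / 2 := by
  have hδ := H.δ_pos
  have h1 : ‖H.F u - H.a‖ ^ 2 ≤ H.τ / 8 := (norm_sq_le_nsq _).trans hu
  refine (abs_le_of_sq_le_sq' ?_ (by positivity)).2
  unfold UG.τ at h1
  nlinarith [sq_nonneg H.δ]

theorem sf5_tri (H : UG U x) {u : X} (hu : H.t H.a u ≤ H.τ / 8) (y : X) :
    H.t H.a y ≤ 2 * H.t (H.F u) y + H.τ / 4 := by
  have h1 := bpe3_add (H.F y - H.F u) (H.F u - H.a)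
  rw [sub_add_sub_cancel] at h1
  unfold UG.t at hu ⊢
  linarith

/-- The same germ, centred at one of its points. -/
noncomputable def sf5_ctr (H : UG U x) {u : X} (h1 : u ∈ H.O) (h2 : H.t H.a u ≤ H.τ / 8) :
    UG U u := fb5_ctr H u (H.F u) (sf5_small H h2) (sf5_near H.F h1)

theorem sf5_exp (H : UG U x) {u : X} (hu : H.t H.a u ≤ H.τ / 8) {ε : ℝ} (hε : 0 < ε) {y : X}
    (hy : H.τ ≤ 2 * H.t H.a y) : Real.exp (-H.lam (H.F u) ε y) ≤ 8 :=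
  fb5_exp H _ hε (by norm_num) (by linarith [sf5_tri H hu y])

/-- The approximate value at a pole. -/
theorem sf5_use (H : UG U x) {h : E H.M → ℂ} (hd : Differentiable ℂ h)
    (h1 : ∀ y ∈ H.O, ‖h (H.F y)‖ ≤ 1) (ht : L.IsSection (U.m * H.d) t)
    (hw : ∀ i, ∀ z ∈ U.D.W i, t i z = H.w (A.p i z) * U.s i z ^ H.d) (e : ℕ) {i : A.ι}
    {z₀ : E N} (hz : z₀ ∈ (A.C i).W) {u : X} (u1 : u ∈ H.O) (u2 : H.t H.a u ≤ H.τ / 8) {η : ℝ}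
    (hη : 0 < η) : ∃ θ₀ > 0, ∀ θ ≤ θ₀, ∀ (R : ℝ) (T : A.ι → E N → ℂ),
      (sf5_ctr H u1 u2).Apx (H.d * e) T ((fb5_frm H h hd h1).sR e R) R θ i z₀ →
      ‖T i z₀ - (2 + h (H.F u)) ^ e * t i z₀ ^ e‖ ≤ η := by
  have hτ := H.τ_pos
  have cont : ContinuousAt (fun p : E H.M × E N => ((2 + h p.1) * t i p.2) ^ e) (H.F u, z₀) := by
    have c1 : ContinuousAt (fun p : E H.M × E N => t i p.2) (H.F u, z₀) :=
      ContinuousAt.comp (f := Prod.snd) (x := (H.F u, z₀))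
        ((ht.1 i).continuousOn.continuousAt ((A.C i).isOpen.mem_nhds hz)) continuousAt_snd
    have c2 : Continuous fun p : E H.M × E N => 2 + h p.1 :=
      continuous_const.add (hd.continuous.comp continuous_fst)
    exact (c2.continuousAt.mul c1).pow e
  obtain ⟨θ₁, p₁, q₁⟩ := fb5_cont cont (half_pos hη)
  refine ⟨min θ₁ (min (η / 2) (H.τ / 8)), by positivity, fun θ hθ R T a => ?_⟩
  have θ1 : θ ≤ θ₁ := hθ.trans (min_le_left _ _)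
  have θ3 : θ ≤ η / 2 := hθ.trans ((min_le_right _ _).trans (min_le_left _ _))
  have θ4 : θ ≤ H.τ / 8 := hθ.trans ((min_le_right _ _).trans (min_le_right _ _))
  obtain ⟨z, a1, a2, a3, a4, a5, a6⟩ := a
  have a4' : H.t (H.F u) (A.p i z) ≤ θ := a4
  have s1 : (fb5_frm H h hd h1).sR e R (A.p i z) =
      ((2 + h (H.F (A.p i z))) * H.w (A.p i z)) ^ e :=
    fb5_sR (fb5_frm H h hd h1) e a3 (by
      have : 2 * H.t H.a (A.p i z) ≤ H.τ := by linarith [sf5_tri H u2 (A.p i z)]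
      exact this) a5
  have s2 : (fb5_frm H h hd h1).sR e R (A.p i z) * U.s i z ^ (H.d * e) =
      ((2 + h (H.F (A.p i z))) * t i z) ^ e := by
    rw [s1, hw i z a2, pow_mul, ← mul_pow, mul_assoc]
  rw [s2] at a6
  have s3 := q₁ (H.F (A.p i z)) z (((norm_sq_le_nsq _).trans a4').trans θ1)
    (ball_subset_ball θ1 a1)
  rw [← mul_pow]
  linarith [norm_sub_le_norm_sub_add_norm_sub (T i z₀)
    (((2 + h (H.F (A.p i z))) * t i z) ^ e) (((2 + h (H.F u)) * t i z₀) ^ e)]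

end

section

variable {N : ℕ} {X : Type} [TopologicalSpace X] {R : Set X} {A : Atlas R N} {L : Line A}

theorem sf5_div {k : ℕ} {T t : A.ι → E N → ℂ} (hT : L.IsSection k T) (ht : L.IsSection k t)
    {i : A.ι} {z : E N} (hz : z ∈ (A.C i).W) (h : t i z ≠ 0) {v : ℂ} {η : ℝ}
    (h1 : ‖T i z - v * t i z‖ ≤ η * ‖t i z‖) : ‖rat A T t (A.p i z) - v‖ ≤ η := by
  have h2 : T i z / t i z - v = (T i z - v * t i z) / t i z := by field_simp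
  rwa [rat_reg hT ht hz h, h2, norm_div, div_le_iff₀ (norm_pos_iff.2 h)]

end

variable {N : ℕ} {X : Type} [TopologicalSpace X] [T2Space X] [CompactSpace X] {R : Set X}
  [MeasurableSpace R] [BorelSpace R] {A : Atlas R N} {B : Amb R A} {K : Form11 A} {L : Line A}
  {μ : Measure R} {U : Up A μ L} {t : A.ι → E N → ℂ}

/-- Approximate values at regular points close to `x₁` and `x₂`. -/
theorem sep_apx (S : Sg B K L) {k m : ℕ} {c : Fin m → A.ι} {ζ : Fin m → E N}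
    {u : Fin m → A.ι → E N → ℂ} (hu : ∀ a, L.IsSection k (u a))
    (hs : ∀ T, L.IsSection k T → ∀ i, ∀ y ∈ (A.C i).W, T i y = ∑ a, T (c a) (ζ a) * u a i y)
    (ht : L.IsSection k t) {x₁ x₂ : X} (h1 : ¬ VanS L k t x₁) (h2 : ¬ VanS L k t x₂) {v₁ v₂ : ℂ}
    (hv : v₁ ≠ v₂) {b : ℝ} (h : ∀ η > 0, ∃ᶠ y in nr R x₁ ×ˢ nr R x₂, ∃ T, L.IsSection k T ∧
      (∀ a, ‖T (c a) (ζ a)‖ ≤ b) ∧ ‖rat A T t y.1 - v₁‖ ≤ η ∧ ‖rat A T t y.2 - v₂‖ ≤ η) :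
    SepS L k x₁ x₂ := by
  by_contra hc
  have key : ∀ x, ¬ VanS L k t x → ∀ η > 0, ∀ᶠ y : R in nr R x, ∀ T, L.IsSection k T →
      (∀ a, ‖T (c a) (ζ a)‖ ≤ b) → ‖rat A T t y - rat A T t x‖ ≤ η := by
    intro x hx η hη
    have c1 : ContinuousAt (fun y => ∑ a, |b| * ‖rat A (u a) t y - rat A (u a) t x‖) x :=
      tendsto_finsetSum _ fun a _ =>
        continuousAt_const.mul ((S.rat_cont (hu a) ht hx).sub continuousAt_const).norm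
    have c2 : ∀ᶠ y in 𝓝 x, ∑ a, |b| * ‖rat A (u a) t y - rat A (u a) t x‖ < η :=
      c1.eventually_lt continuousAt_const (by simpa using hη)
    have c3 : ∀ᶠ y in 𝓝 x, ¬ VanS L k t y := (S.nvan_open ht).mem_nhds hx
    refine (tendsto_comap.eventually (c2.and c3)).mono fun y hy T hT hb => ?_
    rw [S.rat_sum hu _ hT (hs T hT) ht hy.2, S.rat_sum hu _ hT (hs T hT) ht hx,
      ← Finset.sum_sub_distrib]
    refine (norm_sum_le _ _).trans ((Finset.sum_le_sum fun a _ => ?_).trans hy.1.le)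
    rw [← mul_sub, norm_mul]
    exact mul_le_mul_of_nonneg_right ((hb a).trans (le_abs_self b)) (norm_nonneg _)
  have hp : 0 < ‖v₁ - v₂‖ := norm_pos_iff.2 (sub_ne_zero.2 hv)
  have hη : 0 < ‖v₁ - v₂‖ / 5 := by positivity
  obtain ⟨y, ⟨T, hT, hb, a1, a2⟩, b1, b2⟩ := ((h _ hη).and_eventually
    ((key x₁ h1 _ hη).prod_mk (key x₂ h2 _ hη))).exists
  have e : rat A T t x₁ = rat A T t x₂ :=
    by_contra fun hne => hc (S.sep_of_rat hT ht h1 h2 hne)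
  have d1 := b1 T hT hb
  have d2 := b2 T hT hb
  rw [e] at d1
  have e1 : v₁ - v₂ = (rat A T t y.1 - rat A T t x₂) - (rat A T t y.1 - v₁) +
      ((rat A T t y.2 - v₂) - (rat A T t y.2 - rat A T t x₂)) := by ring
  have e2 := norm_add_le ((rat A T t y.1 - rat A T t x₂) - (rat A T t y.1 - v₁))
    ((rat A T t y.2 - v₂) - (rat A T t y.2 - rat A T t x₂))
  rw [← e1] at e2
  linarith [norm_sub_le (rat A T t y.1 - rat A T t x₂) (rat A T t y.1 - v₁),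
    norm_sub_le (rat A T t y.2 - v₂) (rat A T t y.2 - rat A T t x₂)]

theorem sep_farS (hμ : IsVolume A μ) (S : Sg B K L) (hc : SB.Cov L) {u₁ u₂ : R} (H₁ : UG U u₁)
    (H₂ : UG U u₂) (hd : Disjoint H₁.O H₂.O) (ht : L.IsSection (U.m * H₁.d) t)
    (hw : ∀ i, ∀ z ∈ U.D.W i, t i z = H₁.w (A.p i z) * U.s i z ^ H₁.d) {x₁ x₂ : X}
    (v₁ : ¬ VanS L (U.m * H₁.d) t x₁) (v₂ : ¬ VanS L (U.m * H₁.d) t x₂)
    (n₁ : ∃ᶠ u in nr R x₁, u ∈ H₁.O ∧ H₁.t H₁.a u ≤ H₁.τ / 8)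
    (n₂ : ∃ᶠ u in nr R x₂, u ∈ H₂.O ∧ H₂.t H₂.a u ≤ H₂.τ / 8) :
    ∃ e : ℕ, 1 ≤ e ∧ SepS L (U.m * (H₁.d * e)) x₁ x₂ := by
  obtain ⟨C₁, hC₁, hW⟩ := wt_two H₁ H₂ (4 * N + 1)
  obtain ⟨e, he, hT⟩ := twoS U hμ S.kah.isKahler.posDef S.kah.isKahler.bd11 hC₁
  refine ⟨e, he, ?_⟩
  obtain ⟨m, c, ζ, u, hζ, hu, hs⟩ := sec_spanS U hμ hc (sf5_sb (bdd_of S.kah S.nor S.car))
    dense_univ (U.m * (H₁.d * e))
  have hd0 : Differentiable ℂ fun _ : E H₁.M => (0 : ℂ) := differentiable_const _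
  have h0 : ∀ y ∈ H₁.O, ‖(fun _ : E H₁.M => (0 : ℂ)) (H₁.F y)‖ ≤ 1 := fun _ _ => by simp
  obtain ⟨b, hb⟩ := hT u₁ (fb5_frm H₁ _ hd0 h0) ((8 * 1) ^ (4 * N + 1)) m c ζ fun a => (hζ a).1
  have hp := sec_pow ht e
  have w₁ := S.nvan_pow ht v₁ e
  have w₂ := S.nvan_pow ht v₂ e
  rw [mul_assoc] at hp w₁ w₂
  refine sep_apx S hu hs hp w₁ w₂ (v₁ := (2 + 0) ^ e) (v₂ := 0) (pow_ne_zero _ (by norm_num))
    (b := b) fun η hη => ?_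
  have m₁ := n₁.and_eventually (tendsto_comap.eventually ((S.nvan_open hp).mem_nhds w₁))
  have m₂ := n₂.and_eventually (tendsto_comap.eventually ((S.nvan_open hp).mem_nhds w₂))
  refine (frequently_prod_and.2 ⟨m₁, m₂⟩).mono ?_
  rintro ⟨y₁, y₂⟩ ⟨⟨⟨a₁, a₂⟩, a₃⟩, ⟨b₁, b₂⟩, b₃⟩
  obtain ⟨i₁, z₁, hz₁, rfl⟩ := A.cover y₁
  obtain ⟨i₂, z₂, hz₂, rfl⟩ := A.cover y₂
  have t₁ : t i₁ z₁ ^ e ≠ 0 := fun h => a₃ ((vanS_reg hp hz₁).2 h)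
  have t₂ : t i₂ z₂ ^ e ≠ 0 := fun h => b₃ ((vanS_reg hp hz₂).2 h)
  have p₁ : 0 < η * ‖t i₁ z₁ ^ e‖ := mul_pos hη (norm_pos_iff.2 t₁)
  have p₂ : 0 < η * ‖t i₂ z₂ ^ e‖ := mul_pos hη (norm_pos_iff.2 t₂)
  obtain ⟨θ, hθ, q⟩ := sf5_use H₁ hd0 h0 ht hw e hz₁ a₁ a₂ p₁
  obtain ⟨r, T, hS, hB, r₁, v, -, -, r₃, -, -, r₆⟩ := hb _ _ (sf5_ctr H₁ a₁ a₂) (sf5_ctr H₂ b₁ b₂)
    (fun ε y => ((4 * N + 1 : ℕ) : ℝ) *
      (H₁.lam (H₁.F (A.p i₁ z₁)) ε y + H₂.lam (H₂.F (A.p i₂ z₂)) ε y))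
    H₁.τ H₂.τ H₁.τ_pos H₂.τ_pos
    (fun ε hε => ⟨hW _ _ (sf5_small H₁ a₂) (sf5_small H₂ b₂) ε hε,
      fun y hy => (fb5_pole H₁ H₂ _ _ ε _ y).1 hy, fun y hy => (fb5_pole H₁ H₂ _ _ ε _ y).2 hy,
      fun y hy h => fb5_two _ (sf5_exp H₁ a₂ hε h) (by
        rw [(H₂.lam_exp _ hε y).2 (disjoint_left.1 hd hy)]
        simp)⟩) i₁ z₁ hz₁ rfl i₂ z₂ hz₂ rfl _ (lt_min hθ p₂)
  refine ⟨T, hS, hB, sf5_div hS hp hz₁ t₁ (q _ (min_le_left _ _) r T r₁),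
    sf5_div hS hp hz₂ t₂ ?_⟩
  have r₄ : A.p i₂ v ∉ (fb5_frm H₁ _ hd0 h0).O := disjoint_right.1 hd r₃
  rw [UG.sR, indicator_of_notMem r₄, zero_mul] at r₆
  rw [zero_mul]
  exact r₆.trans (min_le_right _ _)

theorem sep_nearS (hμ : IsVolume A μ) (S : Sg B K L) (hc : SB.Cov L) {u₀ : R} (H : UG U u₀)
    {b : ℝ} (hB : ∀ y ∈ H.O, ‖H.F y‖ ≤ b) (ht : L.IsSection (U.m * H.d) t)
    (hw : ∀ i, ∀ z ∈ U.D.W i, t i z = H.w (A.p i z) * U.s i z ^ H.d) :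
    ∃ e : ℕ, 1 ≤ e ∧ ∀ (x₁ x₂ : X) (c₁ c₂ : E H.M), c₁ ≠ c₂ →
      (∀ ε > 0, ∃ᶠ u in nr R x₁, u ∈ H.O ∧ H.t H.a u ≤ H.τ / 8 ∧ ‖H.F u - c₁‖ < ε) →
      (∀ ε > 0, ∃ᶠ u in nr R x₂, u ∈ H.O ∧ H.t H.a u ≤ H.τ / 8 ∧ ‖H.F u - c₂‖ < ε) →
      ¬ VanS L (U.m * H.d) t x₁ → ¬ VanS L (U.m * H.d) t x₂ →
      SepS L (U.m * (H.d * e)) x₁ x₂ := by
  obtain ⟨C₁, hC₁, hW⟩ := wt_two H H (4 * N + 1)
  obtain ⟨e, he, hT⟩ := twoS U hμ S.kah.isKahler.posDef S.kah.isKahler.bd11 hC₁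
  refine ⟨e, he, fun x₁ x₂ c₁ c₂ hne n₁ n₂ v₁ v₂ => ?_⟩
  obtain ⟨m, c, ζ, u, hζ, hu, hs⟩ := sec_spanS U hμ hc (sf5_sb (bdd_of S.kah S.nor S.car))
    dense_univ (U.m * (H.d * e))
  obtain ⟨k, hk⟩ := Function.ne_iff.1 hne
  have hD : 0 < ‖c₁ k - c₂ k‖ := norm_pos_iff.2 (sub_ne_zero.2 hk)
  set s := (|b| + ‖c₂‖) * ‖c₁ k - c₂ k‖ + 1 with hs'
  have hS0 : 0 < s := by positivity
  set h : E H.M → ℂ := fun u => ((s⁻¹ : ℝ) : ℂ) * ((u k - c₂ k) * star (c₁ k - c₂ k)) with hh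
  have hd : Differentiable ℂ h := by
    rw [hh]
    fun_prop
  have h1 : ∀ y ∈ H.O, ‖h (H.F y)‖ ≤ 1 := fun y hy => by
    have b1 : ‖H.F y k - c₂ k‖ ≤ |b| + ‖c₂‖ := (norm_sub_le _ _).trans (add_le_add
      ((norm_le_pi_norm _ k).trans ((hB y hy).trans (le_abs_self b))) (norm_le_pi_norm _ k))
    simp only [hh, norm_mul, norm_star, Complex.norm_real, Real.norm_eq_abs]
    rw [abs_of_pos (inv_pos.2 hS0), inv_mul_le_iff₀ hS0]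
    nlinarith [mul_le_mul_of_nonneg_right b1 hD.le]
  have hv₁ : h c₁ = ((s⁻¹ * ‖c₁ k - c₂ k‖ ^ 2 : ℝ) : ℂ) := by
    simp only [hh, Complex.star_def, Complex.mul_conj']
    push_cast
    ring
  have hv₂ : h c₂ = 0 := by simp [hh]
  have hv : (2 + h c₁) ^ e ≠ (2 + h c₂) ^ e := fun k2 => by
    rw [hv₁, hv₂, add_zero] at k2
    have k3 : (2 + s⁻¹ * ‖c₁ k - c₂ k‖ ^ 2) ^ e = (2 : ℝ) ^ e := by exact_mod_cast k2
    have k4 : (2 : ℝ) ^ e < (2 + s⁻¹ * ‖c₁ k - c₂ k‖ ^ 2) ^ e :=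
      pow_lt_pow_left₀ (by linarith [mul_pos (inv_pos.2 hS0) (pow_pos hD 2)]) zero_le_two
        (by omega)
    exact k4.ne' k3
  have cont : ∀ (c : E H.M) (η : ℝ), 0 < η → ∃ ε > 0, ∀ u, ‖u - c‖ < ε →
      ‖(2 + h u) ^ e - (2 + h c) ^ e‖ ≤ η := fun c η hη => by
    obtain ⟨ε, hε, q⟩ := Metric.continuousAt_iff.1
      (((continuous_const.add hd.continuous).pow e).continuousAt (x := c)) η hη
    exact ⟨ε, hε, fun u hu => by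
      have q1 := q (x := u) (by rwa [dist_eq_norm])
      rw [dist_eq_norm] at q1
      exact q1.le⟩
  clear_value h
  obtain ⟨b', hb⟩ := hT u₀ (fb5_frm H h hd h1) ((8 * 8) ^ (4 * N + 1)) m c ζ fun a => (hζ a).1
  have hp := sec_pow ht e
  have w₁ := S.nvan_pow ht v₁ e
  have w₂ := S.nvan_pow ht v₂ e
  rw [mul_assoc] at hp w₁ w₂
  refine sep_apx S hu hs hp w₁ w₂ hv (b := b') fun η hη => ?_
  obtain ⟨ε₁, p₁, q₁⟩ := cont c₁ _ (half_pos hη)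
  obtain ⟨ε₂, p₂, q₂⟩ := cont c₂ _ (half_pos hη)
  have m₁ := (n₁ ε₁ p₁).and_eventually (tendsto_comap.eventually ((S.nvan_open hp).mem_nhds w₁))
  have m₂ := (n₂ ε₂ p₂).and_eventually (tendsto_comap.eventually ((S.nvan_open hp).mem_nhds w₂))
  refine (frequently_prod_and.2 ⟨m₁, m₂⟩).mono ?_
  rintro ⟨y₁, y₂⟩ ⟨⟨⟨a₁, a₂, a₄⟩, a₃⟩, ⟨b₁, b₂, b₄⟩, b₃⟩
  obtain ⟨i₁, z₁, hz₁, rfl⟩ := A.cover y₁
  obtain ⟨i₂, z₂, hz₂, rfl⟩ := A.cover y₂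
  have t₁ : t i₁ z₁ ^ e ≠ 0 := fun h => a₃ ((vanS_reg hp hz₁).2 h)
  have t₂ : t i₂ z₂ ^ e ≠ 0 := fun h => b₃ ((vanS_reg hp hz₂).2 h)
  obtain ⟨θ₁, o₁, s₁⟩ := sf5_use H hd h1 ht hw e hz₁ a₁ a₂
    (mul_pos (half_pos hη) (norm_pos_iff.2 t₁))
  obtain ⟨θ₂, o₂, s₂⟩ := sf5_use H hd h1 ht hw e hz₂ b₁ b₂
    (mul_pos (half_pos hη) (norm_pos_iff.2 t₂))
  obtain ⟨r, T, hS, hB', r₁, r₂⟩ := hb _ _ (sf5_ctr H a₁ a₂) (sf5_ctr H b₁ b₂)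
    (fun ε y => ((4 * N + 1 : ℕ) : ℝ) *
      (H.lam (H.F (A.p i₁ z₁)) ε y + H.lam (H.F (A.p i₂ z₂)) ε y))
    H.τ H.τ H.τ_pos H.τ_pos
    (fun ε hε => ⟨hW _ _ (sf5_small H a₂) (sf5_small H b₂) ε hε,
      fun y hy => (fb5_pole H H _ _ ε _ y).1 hy, fun y hy => (fb5_pole H H _ _ ε _ y).2 hy,
      fun y _ hy => fb5_two _ (sf5_exp H a₂ hε hy) (sf5_exp H b₂ hε hy)⟩)
    i₁ z₁ hz₁ rfl i₂ z₂ hz₂ rfl _ (lt_min o₁ o₂)
  have d₁ := sf5_div hS hp hz₁ t₁ (s₁ _ (min_le_left _ _) r T r₁)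
  have d₂ := sf5_div hS hp hz₂ t₂ (s₂ _ (min_le_right _ _) r T r₂)
  exact ⟨T, hS, hB', (norm_sub_le_norm_sub_add_norm_sub _ _ _).trans
    ((add_le_add d₁ (q₁ _ a₄)).trans (add_halves η).le),
    (norm_sub_le_norm_sub_add_norm_sub _ _ _).trans
      ((add_le_add d₂ (q₂ _ b₄)).trans (add_halves η).le)⟩

end Pool.Agent.ZB
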