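import Pool.Agent.P.MP_63735c_ag.SF5
import Pool.Agent.P.MP_63735c_ag.SF6
import Pool.Agent.P.MP_63735c_ag.FB7

/-! The limit sets in a singular space are the fibres. -/

open scoped ComplexOrder ContDiff Matrix Topology ENNReal
open Set Metric MeasureTheory Filter

namespace Pool.Agent.ZB

open Pool.Agent.BP Pool.Agent.SPF Pool.Agent.AB Pool.Agent.CK Pool.Agent.SE Pool.Agent.NL

section

variable {N n : ℕ} {X : Type} [TopologicalSpace X] {R : Set X} {A : Atlas R N}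

theorem LocS.G_cont {F : Fib A n} {U : Filter R} {V₀ B : Set X} (Q : LocS F U V₀ B) {y : R}
    (hy : y ∈ Q.M) : ContinuousAt Q.G y := by
  obtain ⟨i, z, hz, rfl⟩ := A.cover y
  rw [ContinuousAt, ← bpd2_map hz, tendsto_map'_iff]
  exact ((Q.G_hol i).differentiableAt (((A.cont i).isOpen_inter_preimage (A.C i).isOpen
    Q.sat.opn).mem_nhds ⟨hz, hy⟩)).continuousAt

omit [TopologicalSpace X] in
theorem sf7_pick {m : ℕ} {G : R → E m} {U : Filter R} [U.NeBot] {p : R → Prop}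
    (h2 : ∀ᶠ u in U, p u) {b : E m} (h3 : Tendsto G U (𝓝 b)) {δ η : ℝ} (h4 : 0 < δ) (hη : 0 < η) :
    ∃ y, p y ∧ ‖G y - b‖ < η ∧
      ∀ᶠ c in 𝓝 b, ‖c - G y‖ < 2 * δ ∧ nsq (c - G y) ≤ δ ^ 2 / 4 / 8 := by
  have h0 : Continuous fun q : E m × E m => q.2 - q.1 := continuous_snd.sub continuous_fst
  have h1 : ∀ᶠ q : E m × E m in 𝓝 (b, b), ‖q.2 - q.1‖ < 2 * δ ∧ nsq (q.2 - q.1) ≤ δ ^ 2 / 4 / 8 :=
    (h0.norm.continuousAt.eventually_lt continuousAt_const (by simpa using h4)).and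
      (((nsq_smooth.continuous.comp h0).continuousAt.eventually_lt continuousAt_const
        (by simpa [nsq] using pow_pos h4 2)).mono fun _ h => h.le)
  obtain ⟨y, a1, a2, a3⟩ := (h2.and ((h3.eventually (ball_mem_nhds b hη)).and
    (h3.eventually h1.curry_nhds))).exists
  exact ⟨y, a1, mem_ball_iff_norm.1 a2, a3⟩

variable [MeasurableSpace R] {B : Amb R A} {μ : Measure R} {L : Line A} {K : Form11 A}
  {Γ : CtxS B μ K L n} {x y : X} {U : Filter R} {V₀ B₀ : Set X}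

/-- Coordinates and a section without zero near the limit set. -/
structure LocU (Γ : CtxS B μ K L n) (x : X) (U : Filter R) (V₀ B₀ : Set X)
    extends LocS Γ.F U V₀ B₀ where
  t : A.ι → E N → ℂ
  w : R → ℂ
  c : ℝ
  C' : ℝ
  sec : L.IsSection (Γ.U.m * Γ.d) t
  nv : ∀ y ∈ Γ.Z x, ¬ VanS L (Γ.U.m * Γ.d) t y
  c_pos : 0 < c
  w_hol : Γ.U.D.Hol w
  w_eq : ∀ i, ∀ z ∈ Γ.U.D.W i, t i z = w (A.p i z) * Γ.U.s i z ^ Γ.d
  w_bd : ∀ u ∈ M, c ≤ ‖w u‖ ^ 2 * Real.exp (-(Γ.d * Γ.U.φ u)) ∧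
    ‖w u‖ ^ 2 * Real.exp (-(Γ.d * Γ.U.φ u)) ≤ C'

/-- The germ with centre at a regular point. -/
noncomputable def LocU.ug (Q : LocU Γ x U V₀ B₀) {v : R} (h2 : InS Γ.F Q.V v) {δ : ℝ} (h4 : 0 < δ)
    (h5 : δ ≤ Q.δ) : UG Γ.U v where
  M := Q.m
  O := {u | u ∈ Q.M ∧ ‖Q.G u - Q.G v‖ < 2 * δ}
  F := Q.G
  a := Q.G v
  δ := δ
  C := Q.C / Γ.a + |Q.C'|
  w := Q.w
  d := Γ.d
  c := Q.c
  isOpen := isOpen_iff_mem_nhds.2 fun u hu => inter_mem (Q.sat.opn.mem_nhds hu.1)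
    (((Q.toLocS.G_cont hu.1).sub continuousAt_const).norm.eventually_lt continuousAt_const hu.2)
  sub := fun u hu => Γ.W_eq ▸ Q.sat.sub hu.1
  δ_pos := h4
  C_pos := add_pos_of_pos_of_nonneg (div_pos Q.C_pos Γ.a_pos) (abs_nonneg _)
  F_hol := fun i => (Q.G_hol i).mono fun _ hz => ⟨hz.1, hz.2.1⟩
  closed := fun u hu hn => by
    by_cases h : u ∈ Q.M
    · have h6 : δ < ‖Q.G u - Q.G v‖ := by linarith [not_lt.1 fun h' => hn ⟨h, h'⟩]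
      exact (continuousAt_const.eventually_lt
        ((Q.toLocS.G_cont h).sub continuousAt_const).norm h6).mono fun _ a _ => a
    · filter_upwards [isClosed_closure.isOpen_compl.mem_nhds fun hc =>
        h (Q.closed v h2 u (Γ.W_eq ▸ hu) hc)] with u' a3 a4
      linarith [not_le.1 fun hc => a3 (subset_closure ⟨a4.1, hc⟩), a4.2]
  dF := fun i z hz hO v => by
    have a0 : A.p i z ∈ Γ.U.W := Γ.W_eq ▸ Q.sat.sub hO.1
    have a1 : 0 ≤ Γ.U.th i z v := Γ.U.G_lev i z hz a0 v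
    have a2 := (norm_sq_le_nsq _).trans (Q.grad i z ⟨hz, hO.1⟩ v)
    have a3 : Q.C * hr (Γ.F.Om i z) v ≤ Q.C / Γ.a * Γ.U.th i z v := by
      rw [div_mul_eq_mul_div, le_div_iff₀ Γ.a_pos, mul_assoc, mul_comm _ Γ.a]
      exact mul_le_mul_of_nonneg_left (Γ.th i z ⟨hz, a0⟩ v) Q.C_pos.le
    nlinarith [abs_nonneg Q.C']
  w_hol := fun i => (Q.w_hol i).mono fun _ hz => ⟨hz.1, Γ.W_eq ▸ Q.sat.sub hz.2.1⟩
  d_pos := Γ.d_pos
  c_pos := Q.c_pos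
  w_bd := fun u hu => ⟨(Q.w_bd u hu.1).1, (Q.w_bd u hu.1).2.trans ((le_abs_self _).trans
    (le_add_of_nonneg_left (div_pos Q.C_pos Γ.a_pos).le))⟩
  near := sf5_near _ ⟨Q.mem v h2, by simpa using h4⟩

end

variable {N n : ℕ} {X : Type} [TopologicalSpace X] [T2Space X] [CompactSpace X] {R : Set X}
  [MeasurableSpace R] [BorelSpace R] {A : Atlas R N} {B : Amb R A} {K : Form11 A} {L : Line A}
  {μ : Measure R} [IsFiniteMeasure μ] (Γ : CtxS B μ K L n) {x y : X} {V₀ B₀ : Set X}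

omit [T2Space X] [CompactSpace X] [BorelSpace R] [IsFiniteMeasure μ] in
theorem CtxS.bpf_mul (l : ℕ) : BpfS L (Γ.U.m * (Γ.d * l)) :=
  mul_assoc Γ.U.m Γ.d l ▸ Γ.sg.bpf_mul Γ.bpf l

omit [T2Space X] [CompactSpace X] [BorelSpace R] [IsFiniteMeasure μ] in
theorem CtxS.ult (x : X) : ∃ U : Ultrafilter R, (U : Filter R) ≤ nr R x ∧ Γ.F.W ∈ U := by
  have : (nr R x ⊓ 𝓟 Γ.F.W).NeBot := frequently_mem_iff_neBot.1 (frequently_comap.2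
    ((mem_closure_iff_frequently.1 (Γ.sg.dense.denseRange_val.dense_image continuous_subtype_val
      Γ.F.W_dense x)).mono fun _ ⟨u, a, b⟩ => ⟨u, b, a⟩))
  have h := Ultrafilter.of_le (nr R x ⊓ 𝓟 Γ.F.W)
  exact ⟨_, h.trans inf_le_left, le_principal_iff.1 (h.trans inf_le_right)⟩

omit [T2Space X] [CompactSpace X] [BorelSpace R] [IsFiniteMeasure μ] in
theorem CtxS.nsep_r {x y : R} (hx : x ∈ Γ.F.W) (h : Γ.F.r x y) (l : ℕ) :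
    ¬ SepS L (Γ.U.m * l) (x : X) y := by
  rintro ⟨s, h1, h2, h3⟩
  obtain ⟨w, w1, w2, -⟩ := Γ.U.ratio h1
  obtain ⟨Ψ, κ, -, p1, p2, -⟩ := Γ.tor.tor x hx
  have hW : ∀ u, Γ.F.r x u → u ∈ Γ.U.W := fun u hu => Γ.W_eq ▸ (Fib.r_mem hx hu).1
  have hd : Differentiable ℂ fun τ => w (Ψ τ) := fun τ => by
    obtain ⟨i, f, hf⟩ := p2 τ
    obtain ⟨a1, a2, a3, -⟩ := hf.self_of_nhds
    exact (((w1 i).differentiableAt ((Γ.U.D.isOpen i).mem_nhds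
      ⟨a2, hW _ ((p1 _).2 ⟨τ, a3.symm⟩)⟩)).comp τ a1).congr_of_eventuallyEq
        (hf.mono fun u hu => congrArg w hu.2.2.1.symm)
  obtain ⟨j, hj⟩ := Γ.F.cov x hx
  have hc := Γ.F.prop j {Γ.F.g x} isCompact_singleton (singleton_subset_iff.2 (Γ.F.maps j hj))
  have hw : ContinuousOn w Γ.U.D.M := Man.contOn fun i => (w1 i).continuousOn
  rw [man_M] at hw
  have hb := (hc.image_of_continuousOn (hw.mono fun u hu =>
    Γ.W_eq ▸ Γ.F.U_sub j hu.1)).isBounded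
  obtain ⟨τ, e1⟩ := (p1 x).1 (Γ.F.eqv.refl x)
  obtain ⟨τ', e2⟩ := (p1 y).1 h
  have := hd.apply_eq_apply_of_bounded (hb.subset (by
    rintro _ ⟨u, rfl⟩
    exact ⟨_, (Γ.F.rel j x hj _).1 ((p1 _).2 ⟨u, rfl⟩), rfl⟩)) τ τ'
  rw [e1, e2] at this
  obtain ⟨i, z, hz, rfl⟩ := A.cover x
  obtain ⟨i', z', hz', rfl⟩ := A.cover y
  have a1 := (vanS_reg h1 hz').1 h2
  rw [w2 i' z' ⟨hz', hW _ h⟩, mul_eq_zero, or_iff_left (pow_ne_zero _ (fb4_s Γ.U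
    ⟨hz', hW _ h⟩))] at a1
  exact h3 ((vanS_reg h1 hz).2 (by rw [w2 i z ⟨hz, Γ.W_eq ▸ hx⟩, this, a1, zero_mul]))

omit [T2Space X] [CompactSpace X] [BorelSpace R] [IsFiniteMeasure μ] in
theorem CtxS.lim_sub {U : Filter R} [U.NeBot] (hU : U ≤ nr R x) (hW : Γ.F.W ∈ U) :
    Γ.F.LimS Subtype.val U ⊆ Γ.Z x := by
  intro y hy l _ h
  obtain ⟨u, hu, v, hv, h1⟩ := mem_nhds_prod_iff.1 ((Γ.sg.sep_open (Γ.bpf_mul l)).mem_nhds
    (show (x, y) ∈ _ from h))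
  obtain ⟨x', ⟨y', a1, a2⟩, a3⟩ :=
    ((hy v hv).and (inter_mem hW (hU (preimage_mem_comap hu)))).exists
  exact Γ.nsep_r a3.1 a2 _ (h1 (mk_mem_prod a3.2 a1))

omit [T2Space X] [CompactSpace X] [BorelSpace R] [IsFiniteMeasure μ] in
theorem CtxS.Z_eq (h : y ∈ Γ.Z x) : Γ.Z y = Γ.Z x ∧ x ∈ Γ.Z y := by
  have h1 : x ∈ Γ.Z y := fun l hl a => h l hl (Γ.sg.sep_symm (Γ.bpf_mul l) a)
  exact ⟨Set.ext fun u => ⟨fun a l hl => nsepS_trans (h l hl) (a l hl),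
    fun a l hl => nsepS_trans (h1 l hl) (a l hl)⟩, h1⟩

omit [T2Space X] [CompactSpace X] [BorelSpace R] [IsFiniteMeasure μ] in
theorem CtxS.Z_self (x : X) : x ∈ Γ.Z x := fun _ _ ⟨_, _, a, b⟩ => b a

omit [T2Space X] [MeasurableSpace R] [BorelSpace R] in
theorem sf7_in {F : Fib A n} (U : Ultrafilter R) (hW : F.W ∈ U) {V : Set X}
    (hV : IsOpen V) (h : F.LimS Subtype.val U ⊆ V) : ∀ᶠ u in (U : Filter R), InS F V u :=
  (Fib.limS_trap U hV h).mp (mem_of_superset hW fun _ a b => ⟨a, b⟩)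

theorem CtxS.loc (U : Ultrafilter R) (hU : (U : Filter R) ≤ nr R x) (hW : Γ.F.W ∈ U)
    (hV : IsOpen V₀) (hL : Γ.F.LimS Subtype.val U ⊆ V₀) (hB : B₀ ∈ 𝓝 x) :
    Nonempty (LocU Γ x U V₀ B₀) := by
  obtain ⟨t, ht, h0⟩ := Γ.bpf x
  have nv : ∀ y ∈ Γ.Z x, ¬ VanS L (Γ.U.m * Γ.d) t y := fun y hy h =>
    hy 1 le_rfl ⟨t, by rwa [mul_one], by rwa [mul_one], by rwa [mul_one]⟩
  obtain ⟨c, O, hc, o1, o2, h1⟩ := Γ.sg.cpt_lb (u := fun _ : Unit => t) (fun _ => ht)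
    (Fib.limS_closed (F := Γ.F) (j := Subtype.val) U).isCompact
    fun y hy => ⟨(), nv y (Γ.lim_sub hU hW hy)⟩
  obtain ⟨C, hC⟩ := bdd_of Γ.sg.kah Γ.sg.nor Γ.sg.car _ t ht
  obtain ⟨w, w1, w2, w3⟩ := Γ.U.ratio ht
  obtain ⟨Q⟩ := exists_locS Γ.hN Γ.n_pos Γ.U.hinj Γ.vol Γ.K_pos Γ.tor Γ.lift Γ.em U hU hW
    (hV.inter o1) (subset_inter hL o2) hB
  refine ⟨{ Q with
    sub := fun y hy => (Q.sub y hy).1
    t := t
    w := w
    c := c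
    C' := C
    sec := ht
    nv := nv
    c_pos := hc
    w_hol := w1
    w_eq := w2
    w_bd := fun u hu => ?_ }⟩
  rw [w3 u (Γ.W_eq ▸ Q.sat.sub hu)]
  exact ⟨by simpa using h1 u (Q.sub u hu).2, hC u⟩

theorem CtxS.lim_eq (U : Ultrafilter R) (hU : (U : Filter R) ≤ nr R x) (hW : Γ.F.W ∈ U) :
    Γ.F.LimS Subtype.val U = Γ.Z x := by
  refine (Γ.lim_sub hU hW).antisymm fun y hy => by_contra fun hn => ?_
  obtain ⟨C, c1, c2, c3⟩ := exists_compact_between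
    (Fib.limS_closed (F := Γ.F) (j := Subtype.val) U).isCompact
    isOpen_compl_singleton (subset_compl_singleton_iff.2 hn)
  obtain ⟨U', hU', hW'⟩ := Γ.ult y
  obtain ⟨Q⟩ := Γ.loc U hU hW isOpen_interior c2 univ_mem
  obtain ⟨Q'⟩ := Γ.loc U' hU' hW' isOpen_univ (subset_univ _)
    (c1.isClosed.isOpen_compl.mem_nhds fun h => c3 h rfl)
  have i1 := sf7_in U hW Q.V_open Q.lim
  have i2 := sf7_in U' hW' Q'.V_open Q'.lim
  have hδ := Q'.δ_pos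
  have d1 : 0 < Q'.δ / 4 := by positivity
  obtain ⟨v, v1, -, v2⟩ := sf7_pick i1 Q.tend Q.δ_pos one_pos
  obtain ⟨v', v3, v4, v5⟩ := sf7_pick i2 Q'.tend d1 (half_pos hδ)
  obtain ⟨e, he, h⟩ := sep_farS Γ.vol Γ.sg Γ.cov (Q.ug v1 Q.δ_pos le_rfl)
    (Q'.ug v3 d1 (by linarith))
    (disjoint_left.2 fun u h1 h2 => by
      obtain ⟨u', a1, a2⟩ := Q'.pass u h2.1 (by
        linarith [norm_sub_le_norm_sub_add_norm_sub (Q'.G u) (Q'.G v') Q'.a, h2.2])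
      exact a1 (interior_subset (Q.sub _ (Q.sat.sat u h1.1 u' a2)))) Q.sec Q.w_eq
    (Q.nv x (Γ.Z_self x)) (Q.nv y hy)
    (((i1.and (Q.tend.eventually v2)).mono fun u a =>
      ⟨⟨Q.mem u a.1, a.2.1⟩, a.2.2⟩).frequently.filter_mono hU)
    (((i2.and (Q'.tend.eventually v5)).mono fun u a =>
      ⟨⟨Q'.mem u a.1, a.2.1⟩, a.2.2⟩).frequently.filter_mono hU')
  exact hy e he h

theorem CtxS.near (x : X) : ∃ O, IsOpen O ∧ Γ.Z x ⊆ O ∧ ∃ e : ℕ, 1 ≤ e ∧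
    ∀ x₁ ∈ O, ∀ x₂ ∈ O, x₂ ∉ Γ.Z x₁ → SepS L (Γ.U.m * (Γ.d * e)) x₁ x₂ := by
  obtain ⟨U, hU, hW⟩ := Γ.ult x
  obtain ⟨Q⟩ := Γ.loc U hU hW isOpen_univ (subset_univ _) univ_mem
  have hI := sf7_in U hW Q.V_open Q.lim
  obtain ⟨v, v1, -, v2⟩ := sf7_pick hI Q.tend Q.δ_pos one_pos
  let H := Q.ug v1 Q.δ_pos le_rfl
  obtain ⟨e, he, hs⟩ := sep_nearS Γ.vol Γ.sg Γ.cov H (fun u hu => Q.bdd u hu.1) Q.sec Q.w_eq
  let P : R → Prop := fun u => u ∈ H.O ∧ H.t H.a u ≤ H.τ / 8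
  have key : ∀ z ∈ Γ.Z x, ∀ᶠ u in nr R z ⊓ 𝓟 Γ.F.W, P u := fun z hz => by
    refine mem_iff_ultrafilter.2 fun U' h' => ?_
    have hU' := h'.trans inf_le_left
    have hW' : Γ.F.W ∈ U' := le_principal_iff.1 (h'.trans inf_le_right)
    have hI' := sf7_in U' hW' Q.V_open (by
      rw [Γ.lim_eq U' hU' hW', (Γ.Z_eq hz).1, ← Γ.lim_eq U hU hW]
      exact Q.lim)
    have hM := hI'.mono Q.mem
    obtain ⟨b, hb⟩ := CL.clhol_lim U' (hM.mono Q.bdd)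
    obtain rfl : b = Q.a := by_contra fun hne => by
      have h0 : 0 < ‖b - Q.a‖ / 8 := div_pos (norm_pos_iff.2 (sub_ne_zero.2 hne)) (by norm_num)
      have h1 : 0 < min Q.δ (‖b - Q.a‖ / 8) := lt_min Q.δ_pos h0
      obtain ⟨p, p1, p2, p3⟩ := sf7_pick hI Q.tend h1 h0
      obtain ⟨q, q1, q2, q3⟩ := sf7_pick hI' hb h1 h0
      obtain ⟨e, he, h⟩ := sep_farS Γ.vol Γ.sg Γ.cov (Q.ug p1 h1 (min_le_left _ _))
        (Q.ug q1 h1 (min_le_left _ _))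
        (disjoint_left.2 fun u a1 a2 => by
          have a3 := norm_sub_le_norm_sub_add_norm_sub b (Q.G u) Q.a
          have a4 := norm_sub_le_norm_sub_add_norm_sub (Q.G u) (Q.G q) b
          rw [norm_sub_rev b (Q.G u)] at a3
          linarith [a1.2, a2.2, min_le_right Q.δ (‖b - Q.a‖ / 8),
            norm_sub_le_norm_sub_add_norm_sub (Q.G u) (Q.G p) Q.a]) Q.sec Q.w_eq
        (Q.nv x (Γ.Z_self x)) (Q.nv z hz)
        (((hI.and (Q.tend.eventually p3)).mono fun u a =>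
          ⟨⟨Q.mem u a.1, a.2.1⟩, a.2.2⟩).frequently.filter_mono hU)
        (((hI'.and (hb.eventually q3)).mono fun u a =>
          ⟨⟨Q.mem u a.1, a.2.1⟩, a.2.2⟩).frequently.filter_mono hU')
      exact hz e he h
    filter_upwards [hM, hb.eventually v2] with u a1 a2
    exact ⟨⟨a1, a2.1⟩, a2.2⟩
  refine ⟨{z | ∀ᶠ u in nr R z ⊓ 𝓟 Γ.F.W, P u} ∩ {z | ¬ VanS L (Γ.U.m * Γ.d) Q.t z},
    IsOpen.inter ?_ (Γ.sg.nvan_open Q.sec),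
    fun z hz => ⟨key z hz, Q.nv z hz⟩, e, he, fun x₁ h1 x₂ h2 hne => ?_⟩
  · simp only [eventually_inf_principal, eventually_comap]
    exact isOpen_setOfPred_eventually_nhds
  obtain ⟨U₁, u1, w1⟩ := Γ.ult x₁
  obtain ⟨U₂, u2, w2⟩ := Γ.ult x₂
  have p1 : ∀ᶠ u in (U₁ : Filter R), P u := le_inf u1 (le_principal_iff.2 w1) h1.1
  have p2 : ∀ᶠ u in (U₂ : Filter R), P u := le_inf u2 (le_principal_iff.2 w2) h2.1
  obtain ⟨c₁, t1⟩ := CL.clhol_lim U₁ (p1.mono fun u hu => Q.bdd u hu.1.1)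
  obtain ⟨c₂, t2⟩ := CL.clhol_lim U₂ (p2.mono fun u hu => Q.bdd u hu.1.1)
  refine hs x₁ x₂ c₁ c₂ (fun h => hne ?_)
    (fun ε hε => ((p1.and (t1.eventually (ball_mem_nhds _ hε))).mono fun u a =>
      ⟨a.1.1, a.1.2, mem_ball_iff_norm.1 a.2⟩).frequently.filter_mono u1)
    (fun ε hε => ((p2.and (t2.eventually (ball_mem_nhds _ hε))).mono fun u a =>
      ⟨a.1.1, a.1.2, mem_ball_iff_norm.1 a.2⟩).frequently.filter_mono u2) h1.2 h2.2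
  obtain ⟨z, z1, z2⟩ := Q.cl U₁ U₂ (p1.mono fun u hu => hu.1.1) (p2.mono fun u hu => hu.1.1) c₁
    t1 (h ▸ t2)
  rw [Γ.lim_eq U₁ u1 w1] at z1
  rw [Γ.lim_eq U₂ u2 w2] at z2
  exact (Γ.Z_eq z1).1 ▸ (Γ.Z_eq z2).2

theorem CtxS.fibre : ∃ l : ℕ, 1 ≤ l ∧ ∀ x, FibreS L (Γ.U.m * (Γ.d * l)) x = Γ.Z x := by
  have h1 : ∀ p : X × X, ∃ O ∈ 𝓝 p, ∃ e : ℕ, 1 ≤ e ∧
      ∀ u ∈ O, u.2 ∉ Γ.Z u.1 → SepS L (Γ.U.m * (Γ.d * e)) u.1 u.2 := fun p => by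
    by_cases h : p.2 ∈ Γ.Z p.1
    · obtain ⟨O, o1, o2, e, he, h2⟩ := Γ.near p.1
      exact ⟨O ×ˢ O, (o1.prod o1).mem_nhds ⟨o2 (Γ.Z_self _), o2 h⟩, e, he,
        fun u hu => h2 _ hu.1 _ hu.2⟩
    · obtain ⟨e, he, h2⟩ : ∃ e : ℕ, 1 ≤ e ∧ SepS L (Γ.U.m * (Γ.d * e)) p.1 p.2 := by
        simpa [CtxS.Z] using h
      exact ⟨_, (Γ.sg.sep_open (Γ.bpf_mul e)).mem_nhds h2, e, he, fun u hu _ => hu⟩
  choose O o1 e he h2 using h1
  obtain ⟨t, -, ht⟩ := isCompact_univ.elim_nhds_subcover O fun p _ => o1 p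
  have hl : 1 ≤ ∏ p ∈ t, e p := Finset.one_le_prod' fun p _ => he p
  refine ⟨_, hl, fun x => ?_⟩
  rw [Γ.sg.fibre_eq (Γ.bpf_mul _)]
  refine Subset.antisymm (fun y hy => by_contra fun hn => hy ?_) fun y hy => hy _ hl
  obtain ⟨p, hp, h3⟩ := mem_iUnion₂.1 (ht (mem_univ (x, y)))
  obtain ⟨l, h4⟩ := Finset.dvd_prod_of_mem e hp
  have h5 := Γ.sg.sep_mul (h2 p _ h3 hn) (l := l) (Nat.pos_of_ne_zero fun h => by simp [h4, h] at hl)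
  rwa [h4, ← mul_assoc Γ.d, ← mul_assoc]

end Pool.Agent.ZB
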