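import Pool.Agent.P.MP_63735c_ag.ZBPt
import Pool.Agent.P.MP_63735c_ag.BPB8

/-! The Kähler form of the resolution bounds the forms that extend. -/

open scoped ComplexOrder ContDiff Matrix Topology ENNReal
open Set Metric MeasureTheory Filter

namespace Pool.Agent.ZB

open Pool.Agent.BP Pool.Agent.SPF Pool.Agent.AB Pool.Agent.CK Pool.Agent.SE Pool.Agent.NL

variable {N : ℕ} {X : Type} [TopologicalSpace X] {A : Atlas X N} {K : Form11 A} {L : Line A}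
  {Y : Type} [TopologicalSpace Y] {Z : Res L Y}

theorem resK_compat (Z : Res L Y) (i j : A.ι) (O : Set (E N)) (φ : E N → E N)
    (h : IsChange (A.C i) (A.C j) O φ) (he : ∀ w ∈ O, A.p j (φ w) = A.p i w) (z : E N)
    (hz : z ∈ O) :
    Z.K (Z.c i) z = (jac φ z)ᵀ * Z.K (Z.c j) (φ z) * (jac φ z).map star := by
  have h1 : ∀ w ∈ O, DifferentiableAt ℂ φ w ∧ φ w ∈ Z.W (Z.c j) ∧
      Z.p (Z.c j) (φ w) = Z.p (Z.c i) w := fun w hw =>
    ⟨h.hol.differentiableAt (h.isOpen.mem_nhds hw), Z.sub j (h.maps hw), by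
      rw [Z.p_eq j _ (h.maps hw), Z.p_eq i _ (h.sub hw), he w hw]⟩
  exact Z.K_eq _ _ z (Z.sub i (h.sub hz)) φ (eventually_of_mem (h.isOpen.mem_nhds hz) h1)

/-- The Kähler form of `Y` on `X`. -/
def resK (Z : Res L Y) : Form11 A where
  h i := Z.K (Z.c i)
  smooth i a b := (Z.K_smooth _ a b).mono (Z.sub i)
  herm i z hz := (Z.K_pos _ z (Z.sub i hz)).1
  closed i z hz := Z.K_closed _ z (Z.sub i hz)
  compat := resK_compat Z

theorem resK_pos (Z : Res L Y) (i : A.ι) (z : E N) (hz : z ∈ (A.C i).W) :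
    ((resK Z).h i z).PosDef := Z.K_pos _ z (Z.sub i hz)

theorem zbb11b_low (Z : Res L Y) {i : A.ι} {w : E N} (hw : w ∈ Z.W (Z.c i)) :
    ∃ c : ℝ, 0 < c ∧ ∀ᶠ z in 𝓝 w, ∀ v, ‖v‖ ^ 2 ≤ c * hr ((resK Z).h i z) v := by
  obtain ⟨C, hC, h1, h2⟩ := exists_compact_subset (Z.isOpen _) hw
  obtain ⟨c, hc, h3⟩ := cpt_lower (h := Z.K (Z.c i)) hC
    (fun a b => (Z.K_smooth _ a b).continuousOn.mono h2)
    fun z hz u hu => hq_pos (Z.K_pos _ z (h2 hz)) hu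
  exact ⟨c⁻¹, inv_pos.2 hc, eventually_of_mem (mem_interior_iff_mem_nhds.1 h1) fun z hz v =>
    (le_inv_mul_iff₀ hc).2 (h3 z hz v)⟩

theorem zbb11b_ext {κ : Type} [Finite κ] {f : κ → A.ι → E N → ℂ} (hf : ∀ a, Upto Z (f a))
    {i : A.ι} {w : E N} (hw : w ∈ Z.W (Z.c i)) : ∃ (C : Set (E N)) (g : E N → κ → ℂ),
      IsCompact C ∧ C ∈ 𝓝 w ∧ (∀ a, ContinuousOn (fun z => g z a) C) ∧
        ∀ z ∈ C, z ∈ (A.C i).W → ∀ a, f a i z = g z a := by
  choose r g hr hg he using fun a => hf a i w hw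
  obtain ⟨C, hC, h1, h2⟩ := exists_compact_subset
    (isOpen_iInter_of_finite fun a => isOpen_ball (x := w) (ε := r a))
    (mem_iInter.2 fun a => mem_ball_self (hr a))
  exact ⟨C, fun z a => g a z, hC, mem_interior_iff_mem_nhds.1 h1,
    fun a => (hg a).continuousOn.mono (h2.trans (iInter_subset _ a)),
    fun z hz hz' a => (he a ⟨mem_iInter.1 (h2 hz) a, hz'⟩).symm⟩

variable [T2Space Y] [CompactSpace Y]

theorem zbb11b_unif (h : Full Z) (q : A.ι → E N → E N → ℝ)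
    (ht : ∀ i j O φ, IsChange (A.C i) (A.C j) O φ → (∀ w ∈ O, A.p j (φ w) = A.p i w) →
      ∀ z ∈ O, ∀ v, q i z v = q j (φ z) (jac φ z *ᵥ v))
    (hl : ∀ i, ∀ w ∈ Z.W (Z.c i), ∃ B : ℝ, 0 ≤ B ∧ ∀ᶠ z in 𝓝 w, z ∈ (A.C i).W →
      ∀ v, q i z v ≤ B * ‖v‖ ^ 2) :
    ∃ C : ℝ, 0 < C ∧ ∀ i, ∀ z ∈ (A.C i).W, ∀ v, q i z v ≤ C * hr ((resK Z).h i z) v := by
  obtain ⟨C, hC, h1⟩ := h.unif
    (fun C x => ∀ i, ∀ z ∈ (A.C i).W, A.p i z = x → ∀ v, q i z v ≤ C * hr ((resK Z).h i z) v)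
    (fun C C' x e a i z hz hx v => (a i z hz hx v).trans (mul_le_mul_of_nonneg_right e
      (hq_nonneg (resK_pos Z i z hz).posSemidef v)))
    fun i w hw => by
      obtain ⟨c, hc, h2⟩ := zbb11b_low Z hw
      obtain ⟨B, hB, h3⟩ := hl i w hw
      refine ⟨B * c, ?_⟩
      filter_upwards [h2, h3] with z a b hz k y hy e v
      obtain ⟨O, φ, hch, hO, rfl, hp⟩ := A.trans k i y hy z hz e
      rw [ht k i O φ hch hp y hO, (resK Z).compat k i O φ hch hp y hO, hr, hq_conj, mul_assoc]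
      exact (b hz _).trans (mul_le_mul_of_nonneg_left (a _) hB)
  exact ⟨C, hC, fun i z hz => h1 _ i z hz rfl⟩

theorem Full.K_le (h : Full Z) (hK : ∀ a b, Upto Z fun i z => K.h i z a b) :
    ∃ C : ℝ, 0 < C ∧ ∀ i, ∀ z ∈ (A.C i).W, ∀ v,
      hr (K.h i z) v ≤ C * hr ((resK Z).h i z) v := by
  refine zbb11b_unif h (fun i z v => hr (K.h i z) v) (fun i j O φ hch hp z hz v => ?_)
    fun i w hw => ?_
  · rw [K.compat i j O φ hch hp z hz, hr, hq_conj]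
  · obtain ⟨C, g, hC, h1, h2, h3⟩ := zbb11b_ext (κ := Fin N × Fin N)
      (f := fun a i z => K.h i z a.1 a.2) (fun a => hK a.1 a.2) hw
    obtain ⟨B, hB, h4⟩ := bppolx_bd (h := fun z => Matrix.of fun a b => g z (a, b)) hC
      fun a b => h2 (a, b)
    refine ⟨B * N, by positivity, eventually_of_mem h1 fun z hz hz' v => ?_⟩
    have h5 : K.h i z = Matrix.of fun a b => g z (a, b) := Matrix.ext fun a b => h3 z hz hz' (a, b)
    rw [h5, mul_assoc]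
    exact (h4 z hz v).trans (mul_le_mul_of_nonneg_left (nsq_le v).2 hB)

theorem Full.β_le (h : Full Z) {β : A.ι → E N → E N} (hβ : Is10 A β)
    (hu : ∀ a, Upto Z fun i z => β i z a) : ∃ C : ℝ, 0 < C ∧ ∀ i, ∀ z ∈ (A.C i).W, ∀ v,
      ‖β i z ⬝ᵥ v‖ ^ 2 ≤ C * hr ((resK Z).h i z) v := by
  refine zbb11b_unif h (fun i z v => ‖β i z ⬝ᵥ v‖ ^ 2) (fun i j O φ hch hp z hz v => ?_)
    fun i w hw => ?_
  · rw [hβ.2 i j O φ hch hp z hz, ← Matrix.dotProduct_mulVec]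
  · obtain ⟨C, g, hC, h1, h2, h3⟩ := zbb11b_ext (f := fun a i z => β i z a) hu hw
    obtain ⟨B, hB⟩ := hC.exists_bound_of_continuousOn (continuousOn_pi.2 h2)
    refine ⟨(N * B) ^ 2, sq_nonneg _, eventually_of_mem h1 fun z hz hz' v => ?_⟩
    have h5 : ‖β i z‖ ≤ B := (funext (h3 z hz hz') : β i z = g z) ▸ hB z hz
    rw [← mul_pow]
    exact pow_le_pow_left₀ (norm_nonneg _) ((dot_norm_le _ _).trans (by gcongr)) 2

end Pool.Agent.ZB
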