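import Pool.Agent.P.MP_63735c_ag.ZBB4

/-! Fubini for the fibration. -/

open scoped ComplexOrder ContDiff Matrix Topology ENNReal
open Set Metric MeasureTheory Filter

namespace Pool.Agent.ZB

open Pool.Agent.BP Pool.Agent.SPF Pool.Agent.AB Pool.Agent.CK Pool.Agent.SE Pool.Agent.NL

variable {N n : ℕ} {X : Type} [TopologicalSpace X] {A : Atlas X N} {K : Form11 A} {L : Line A}
  {S : Sys K L n} {Y : Type} [TopologicalSpace Y] (B : Base S Y)
  [T2Space X] [MeasurableSpace X] [BorelSpace X] {μ : Measure X}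

theorem bpb5_kap (ε : Fin n ⊕ Fin n ≃ Fin N) : MeasurePreserving (kap ε) volume volume :=
  (volume_measurePreserving_sumPiEquivProdPi fun _ : Fin n ⊕ Fin n => ℂ).comp
    (volume_measurePreserving_piCongrLeft (fun _ : Fin N => ℂ) ε).symm

omit [T2Space X] in
theorem bpb5_loc (hμ : IsVolume A μ) {T s} (h : S.Sect T s) {w₀ : E n × E n} (hw : w₀.1 ∈ T) :
    ∃ O ∈ 𝓝 w₀, IsOpen O ∧ ∀ D ⊆ O, MeasurableSet D →
      MeasurableSet ((fun w : E n × E n => S.Φ (s w.1) w.2) '' D) ∧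
        μ ((fun w : E n × E n => S.Φ (s w.1) w.2) '' D) = volume D := by
  have hN := S.hN
  let ε : Fin n ⊕ Fin n ≃ Fin N := finSumFinEquiv.trans (finCongr (by omega))
  let κ := kap ε
  obtain ⟨i, e, hwe, hd, -, hs⟩ := h.loc hw
  refine ⟨e.source, e.open_source.mem_nhds hwe, e.open_source, fun D hD hm => ?_⟩
  have hm' : MeasurableSet (κ ⁻¹' D) := hm.preimage κ.continuous.measurable
  have hder : ∀ x ∈ κ ⁻¹' D, HasFDerivWithinAt (fun x => e (κ x))
      (((fderiv ℂ e (κ x)).comp (κ : E N →L[ℂ] E n × E n)).restrictScalars ℝ) (κ ⁻¹' D) x :=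
    fun x hx => (((hd.differentiableAt (e.open_source.mem_nhds (hD hx))).hasFDerivAt.comp x
      κ.hasFDerivAt).restrictScalars ℝ).hasFDerivWithinAt
  have hi : InjOn (fun x => e (κ x)) (κ ⁻¹' D) := fun x hx y hy hxy =>
    κ.injective (e.injOn (hD hx) (hD hy) hxy)
  have him : (fun x => e (κ x)) '' (κ ⁻¹' D) = e '' D := by
    rw [← image_image e κ, image_preimage_eq _ κ.surjective]
  have e2 : (fun w : E n × E n => S.Φ (s w.1) w.2) '' D = A.p i '' (e '' D) := by
    rw [image_image]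
    exact image_congr fun w h1 => (hs w (hD h1)).2.2.1.symm
  have e3 : e '' D ⊆ (A.C i).W := by
    rintro _ ⟨w, h1, rfl⟩
    exact (hs w (hD h1)).2.1
  have e4 := hm.image_of_continuousOn_injOn (e.continuousOn.mono hD) (e.injOn.mono hD)
  refine ⟨e2 ▸ Man.meas_img (D := man A S.inj isOpen_univ) (i := i) e4
    fun z hz => ⟨e3 hz, mem_univ _⟩, ?_⟩
  rw [e2, hμ i _ e3 e4, ← him, lintegral_image_eq_lintegral_abs_det_fderiv_mul volume hm' hder hi,
    ← (bpb5_kap ε).measure_preimage hm.nullMeasurableSet, ← setLIntegral_one]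
  refine setLIntegral_congr_fun hm' fun x hx => ?_
  obtain ⟨-, a1, -, a2, a3⟩ := hs _ (hD hx)
  have k := vol_det ε (fderiv ℂ e (κ x)) ((A.C i).σ_skew _ a1) fun β τ τ' => by
    rw [a2, S.sigma_Vf a1, a3]
  rw [← ofReal_norm, ← ENNReal.ofReal_mul (abs_nonneg _), k, ENNReal.ofReal_one]

omit [T2Space X] in
theorem bpb5_img (hμ : IsVolume A μ) {T s} (h : S.Sect T s) {D : Set (E n × E n)}
    (hm : MeasurableSet D) (hD : ∀ w ∈ D, w.1 ∈ T)
    (hi : InjOn (fun w : E n × E n => S.Φ (s w.1) w.2) D) :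
    μ ((fun w : E n × E n => S.Φ (s w.1) w.2) '' D) = volume D := by
  rcases D.eq_empty_or_nonempty with rfl | hne
  · simp
  choose! O h1 h2 h3 using fun w (hw : w ∈ D) => bpb5_loc hμ h (hD w hw)
  obtain ⟨c, hc, hcc, hcov⟩ := TopologicalSpace.countable_cover_nhdsWithin
    (f := O) (s := D) fun w hw => mem_nhdsWithin_of_mem_nhds (h1 w hw)
  have hcn : c.Nonempty := by
    obtain ⟨w, hw⟩ := hne
    obtain ⟨v, hv, -⟩ := mem_iUnion₂.1 (hcov hw)
    exact ⟨v, hv⟩
  obtain ⟨q, rfl⟩ := hcc.exists_eq_range hcn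
  have hq' : ∀ m, q m ∈ D := fun m => hc ⟨m, rfl⟩
  let P : ℕ → Set (E n × E n) := fun m => D ∩ disjointed (fun m => O (q m)) m
  have hP : ∀ m, MeasurableSet (P m) := fun m =>
    hm.inter (MeasurableSet.disjointed (fun m => (h2 _ (hq' m)).measurableSet) m)
  have hPd : Pairwise (Function.onFun Disjoint P) := fun a b hab =>
    (disjoint_disjointed _ hab).mono inter_subset_right inter_subset_right
  have hPU : D = ⋃ m, P m := by
    rw [← inter_iUnion, iUnion_disjointed, eq_comm, inter_eq_left]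
    simpa only [biUnion_range] using hcov
  have h4 := fun m => h3 _ (hq' m) (P m) (inter_subset_right.trans (disjointed_subset _ m)) (hP m)
  conv_lhs => rw [hPU, image_iUnion]
  conv_rhs => rw [hPU]
  rw [measure_iUnion (fun a b hab => (hPd hab).image hi inter_subset_left inter_subset_left)
    fun m => (h4 m).1, measure_iUnion hPd hP]
  exact tsum_congr fun m => (h4 m).2

namespace Base

theorem fub (hμ : IsVolume A μ) {k : B.ι} {O : Set (E n)} (hO : MeasurableSet O) (hs : O ⊆ B.W k)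
    {u : X → ℝ≥0∞} (hu : Measurable u) :
    ∫⁻ x in S.W ∩ B.f ⁻¹' (B.p k '' O), u x ∂μ =
      ∫⁻ b in O, ENNReal.ofReal (B.vol (B.p k b)) * ∫⁻ x, u x ∂B.fm (B.p k b) := by
  have ht := B.tub k
  let Ψ : E n × E n → X := fun w => S.Φ (B.s k w.1) w.2
  let G : E n × (Fin N → ℝ) → E n × E n := fun w => (w.1, lt (B.lam k w.1) w.2)
  have hG : ContinuousOn G (O ×ˢ cube N) := fun w hw => (continuousAt_fst.prodMk
    (lt_contAt (fun a j => ((ht.hol a j).continuousOn.continuousAt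
      (ht.isOpen.mem_nhds (hs hw.1))).comp continuousAt_fst) continuousAt_snd)).continuousWithinAt
  have hm : MeasurableSet (G '' O ×ˢ cube N) := by
    refine (hO.prod (cube_vol N).1).image_of_continuousOn_injOn hG ?_
    rintro ⟨b, t⟩ hw ⟨c, t'⟩ - he
    obtain ⟨rfl, h2⟩ := Prod.mk.inj he
    exact Prod.ext rfl ((ht.bij b (hs hw.1)).1 h2)
  set D := G '' O ×ˢ cube N with hDd
  have hD : ∀ w ∈ D, w.1 ∈ B.W k := by
    rintro _ ⟨w, hw, rfl⟩
    exact hs hw.1
  have hi : InjOn Ψ D := by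
    rintro _ ⟨⟨b, t⟩, hw, rfl⟩ _ ⟨⟨c, t'⟩, hw', rfl⟩ he
    have h1 := (B.Θ_mem (hs hw.1) t).2
    have h2 := (B.Θ_mem (hs hw'.1) t').2
    have h3 : B.Θ k b t = B.Θ k c t' := he
    rw [mem_preimage, mem_singleton_iff] at h1 h2
    obtain rfl : b = c := B.inj k (hs hw.1) (hs hw'.1) (by rw [← h1, ← h2, h3])
    obtain rfl : t = t' := (B.fib_eq (hs hw.1)).2 hw.2 hw'.2 h3
    rfl
  have him : S.W ∩ B.f ⁻¹' (B.p k '' O) = Ψ '' D := by
    ext x
    constructor
    · rintro ⟨hx, b, hb, he⟩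
      obtain ⟨t, h1, h2⟩ : x ∈ B.Θ k b '' cube N := (B.fib_eq (hs hb)).1 ▸ ⟨hx, he.symm⟩
      exact ⟨_, ⟨(b, t), ⟨hb, h1⟩, rfl⟩, h2⟩
    · rintro ⟨_, ⟨⟨b, t⟩, hw, rfl⟩, rfl⟩
      exact ⟨(B.Θ_mem (hs hw.1) t).1, b, hw.1, (B.Θ_mem (hs hw.1) t).2.symm⟩
  have hc : ContinuousOn Ψ D := S.Φ_cont.comp
    ((ht.toSect.cont.comp continuousOn_fst hD).prodMk continuousOn_snd)
    fun w hw => ⟨ht.mem _ (hD w hw), mem_univ _⟩
  have ha := hc.aemeasurable (μ := volume) hm
  have hr' : μ.restrict (Ψ '' D) = (volume.restrict D).map Ψ := by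
    ext Z hZ
    have h1 : Ψ ⁻¹' Z ∩ D = Subtype.val '' (D.domRestrict Ψ ⁻¹' Z) := by
      ext w
      exact ⟨fun hw => ⟨⟨w, hw.2⟩, hw.1, rfl⟩, fun ⟨v, hv, e⟩ => e ▸ ⟨hv, v.2⟩⟩
    rw [Measure.restrict_apply hZ, Measure.map_apply_of_aemeasurable ha hZ,
      Measure.restrict_apply' hm, ← image_preimage_inter]
    exact bpb5_img hμ ht.toSect (h1 ▸ hm.subtype_image (hc.domRestrict.measurable hZ))
      (fun w hw => hD w hw.2) (hi.mono inter_subset_right)
  rw [him, hr', lintegral_map' hu.aemeasurable ha, ← lintegral_indicator hm, Measure.volume_eq_prod,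
    lintegral_prod _ ((aemeasurable_indicator_iff (f := fun a => u (Ψ a)) hm).2
      (hu.comp_aemeasurable ha)),
    ← lintegral_indicator hO]
  refine lintegral_congr fun b => ?_
  by_cases hb : b ∈ O
  · rw [indicator_of_mem hb, B.fm_lint hu (hs hb), B.vol_chart (hs hb)]
    refine Eq.trans ?_ (cell_int (ht.bij b (hs hb)) fun τ => u (Ψ (b, τ))).2
    rw [← lintegral_indicator ((cube_vol N).1.image_of_continuousOn_injOn
      (lt_cont _).continuousOn (ht.bij b (hs hb)).1.injOn)]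
    refine lintegral_congr fun τ => ?_
    by_cases hτ : τ ∈ lt (B.lam k b) '' cube N
    · obtain ⟨t, h1, rfl⟩ := hτ
      rw [indicator_of_mem (mem_image_of_mem _ h1),
        indicator_of_mem (show _ ∈ D from ⟨(b, t), ⟨hb, h1⟩, rfl⟩)]
    · rw [indicator_of_notMem hτ, indicator_of_notMem]
      rintro ⟨⟨c, t⟩, hw, he⟩
      obtain ⟨rfl, h2⟩ := Prod.mk.inj he
      exact hτ ⟨t, hw.2, h2⟩
  · rw [indicator_of_notMem hb, ← lintegral_zero (μ := (volume : Measure (E n)))]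
    refine lintegral_congr fun τ => indicator_of_notMem ?_ _
    rintro ⟨⟨c, t⟩, hw, he⟩
    obtain ⟨rfl, -⟩ := Prod.mk.inj he
    exact hb hw.1

variable [MeasurableSpace Y] [BorelSpace Y]

theorem f_meas (μ : Measure X) : AEMeasurable B.f (μ.restrict S.W) := by
  exact B.f_cont.aemeasurable B.W_open.measurableSet

theorem den_vol (hμ : IsVolume A μ) : B.Den (B.ν μ) fun k b => -Real.log (B.vol (B.p k b)) := by
  intro k O hs hO
  rw [ν, Measure.map_apply_of_aemeasurable (B.f_meas μ) (Man.meas_img hO hs),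
    Measure.restrict_apply' B.W_open.measurableSet, inter_comm, ← setLIntegral_one,
    B.fub hμ hO hs measurable_const]
  refine lintegral_congr fun b => ?_
  have := B.fm_prob (B.p k b)
  rw [lintegral_const, measure_univ, mul_one, mul_one, wt, neg_neg, Real.exp_log (B.vol_pos _)]

end Base

end Pool.Agent.ZB
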