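import Pool.Agent.P.MP_63735c_ag.ZBB12
import Pool.Agent.P.MP_63735c_ag.ZBB10

/-! The average of a larger Kähler form on the fibres. -/

open scoped ComplexOrder ContDiff Matrix Topology ENNReal
open Set Metric MeasureTheory Filter

namespace Pool.Agent.ZB

open Pool.Agent.BP Pool.Agent.SPF Pool.Agent.AB Pool.Agent.CK Pool.Agent.SE Pool.Agent.NL

variable {N n : ℕ} {X : Type} [TopologicalSpace X] {A : Atlas X N} {K K' : Form11 A} {L : Line A}

theorem le_of_det {H G : Mat n} (hH : H.PosDef) (hG : G.PosDef) {C κ : ℝ} (hC : 0 < C)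
    (h : ∀ v, hr H v ≤ C * hr G v) (hd : G.det.re = κ * H.det.re) (v : E n) :
    hr G v ≤ κ * C ^ (n - 1) * hr H v := by
  obtain ⟨P, d, hP, h1, h2, h3⟩ := bpt1_sim hH.1 hG
  have h4 : ∀ i, 0 ≤ d i ∧ d i ≤ C := fun i => by
    obtain ⟨v, a, b⟩ := h3 i
    have := h v
    rw [a, b, mul_one] at this
    exact ⟨a ▸ bpt1_hr_nonneg hH.posSemidef v, this⟩
  rw [h1, h2, bpt1_det, bpt1_det, Finset.prod_const_one, ← mul_assoc,
    mul_left_inj' (pow_ne_zero _ (norm_ne_zero_iff.2 hP))] at hd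
  have hκ : 0 ≤ κ := le_of_not_gt fun hk => by
    have := mul_nonpos_of_nonpos_of_nonneg hk.le
      (Finset.prod_nonneg fun i (_ : i ∈ Finset.univ) => (h4 i).1)
    linarith
  rw [h1, h2, bpt1_hr, bpt1_hr, Finset.mul_sum]
  refine Finset.sum_le_sum fun i _ => ?_
  rw [← mul_assoc]
  refine mul_le_mul_of_nonneg_right ?_ (sq_nonneg _)
  rw [hd, ← Finset.prod_erase_mul _ _ (Finset.mem_univ i), mul_assoc]
  refine mul_le_mul_of_nonneg_left (mul_le_mul_of_nonneg_right ?_ (h4 i).1) hκ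
  simpa using Finset.prod_le_prod (s := Finset.univ.erase i) (fun j _ => (h4 j).1)
    fun j _ => (h4 j).2

/-- The form `K'` on the Hamiltonian fields. -/
noncomputable def zbb13_h (S : Sys K L n) (K' : Form11 A) (x : X) : Mat n :=
  (Vf A S.g (A.cover x).choose (A.cover x).choose_spec.choose)ᵀ *
    K'.h (A.cover x).choose (A.cover x).choose_spec.choose *
      (Vf A S.g (A.cover x).choose (A.cover x).choose_spec.choose).map star

theorem zbb13_eq (S : Sys K L n) (K' : Form11 A) (i : A.ι) (z : E N) (hz : z ∈ (A.C i).W)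
    (hU : A.p i z ∈ S.U) :
    zbb13_h S K' (A.p i z) = (Vf A S.g i z)ᵀ * K'.h i z * (Vf A S.g i z).map star := by
  obtain ⟨hy, he⟩ := (A.cover (A.p i z)).choose_spec.choose_spec
  obtain ⟨O, φ, hc, hO, hφ, hp⟩ := A.trans i _ z hz _ hy he.symm
  have e : (jac φ z * Vf A S.g i z).map star = (jac φ z).map star * (Vf A S.g i z).map star :=
    Matrix.map_mul (f := starRingEnd ℂ)
  rw [K'.compat i _ O φ hc hp z hO, zbb13_h, ← hφ, (S.Vf_change hc hp hO hU).2, e,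
    Matrix.transpose_mul]
  simp only [Matrix.mul_assoc]

/-- The same system with another form. -/
noncomputable def zbb13_S (S : Sys K L n) (hK : ∀ i, ∀ z ∈ (A.C i).W, (K'.h i z).PosDef) :
    Sys K' L n :=
  { S with
    h := zbb13_h S K'
    K_pos := hK
    h_eq := zbb13_eq S K'
    reg := by
      obtain ⟨x, hx, h1, h2⟩ := S.reg
      obtain ⟨i, z, hz, rfl⟩ := A.cover x
      refine ⟨_, hx, ?_, h2⟩
      rw [zbb13_eq S K' i z hz hx]
      refine (hK i z hz).mul_mul_conjTranspose_same (B := (Vf A S.g i z)ᵀ) fun τ τ' he =>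
        (S.h_pos_iff hz hx).1.1 h1 ?_
      simpa only [Matrix.vecMul_transpose] using he }

theorem zbb13_W (S : Sys K L n) (hK : ∀ i, ∀ z ∈ (A.C i).W, (K'.h i z).PosDef) :
    (zbb13_S S hK).W = S.W := by
  ext x
  obtain ⟨i, z, hz, rfl⟩ := A.cover x
  exact and_congr_right fun hx => and_congr_left fun _ =>
    ((zbb13_S S hK).h_pos_iff hz hx).1.trans (S.h_pos_iff hz hx).1.symm

/-- The same base for the other form. -/
noncomputable def zbb13_B {S : Sys K L n} {Y : Type} [TopologicalSpace Y] (B : Base S Y)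
    (hK : ∀ i, ∀ z ∈ (A.C i).W, (K'.h i z).PosDef) : Base (zbb13_S S hK) Y :=
  { B with
    γ_f := by rw [zbb13_W]; exact B.γ_f
    W_open := by rw [zbb13_W]; exact B.W_open
    W_inv := by rw [zbb13_W]; exact B.W_inv
    f_cont := by rw [zbb13_W]; exact B.f_cont
    f_open := by rw [zbb13_W]; exact B.f_open
    f_eq := by rw [zbb13_W]; exact B.f_eq
    f_proper := by rw [zbb13_W]; exact B.f_proper
    s_mem := by rw [zbb13_W]; exact B.s_mem }

theorem zbb13_int [MeasurableSpace X] [BorelSpace X] {S : Sys K L n} {Y : Type} [TopologicalSpace Y]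
    (B : Base S Y) (y : Y) (τ : E n) (C : ℝ) : Integrable (fun x => C * hr (S.h x) τ) (B.fm y) ∧
      ∫ x, C * hr (S.h x) τ ∂B.fm y = C * hr (B.H y) τ := by
  have h : Integrable (fun x => hq (S.h x) τ τ) (B.fm y) := by
    obtain ⟨k, b, hb, rfl⟩ := B.cover y
    exact (B.fm_int hb ((Base.bpb6_hq' τ τ).comp_continuousOn (Base.bpb6_hc S))).1
  refine ⟨h.re.const_mul C, ?_⟩
  rw [integral_const_mul, hr, B.hq_H]
  exact congrArg _ (Complex.reCLM.integral_comp_comm h)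

variable [T2Space X] [PreconnectedSpace X] [MeasurableSpace X] [BorelSpace X] {μ : Measure X}
  {S : Sys K L n} {Y : Type} [TopologicalSpace Y] [MeasurableSpace Y] {β : A.ι → E N → E N}

theorem Kit.avg_bd (T : Kit S μ Y) (hK : ∀ i, ∀ z ∈ (A.C i).W, (K'.h i z).PosDef)
    (h1 : ∃ C : ℝ, 0 < C ∧ ∀ i, ∀ z ∈ (A.C i).W, ∀ v, hr (K.h i z) v ≤ C * hr (K'.h i z) v)
    (hβ : Is10 A β)
    (h2 : ∃ C : ℝ, 0 < C ∧ ∀ i, ∀ z ∈ (A.C i).W, ∀ v, ‖β i z ⬝ᵥ v‖ ^ 2 ≤ C * hr (K'.h i z) v) :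
    ∃ C : ℝ, ∀ y τ, ∫ x, ‖S.bv β x ⬝ᵥ τ‖ ^ 2 ∂T.fm y ≤ C * hr (T.H y) τ := by
  obtain ⟨C₁, c1, h1⟩ := h1
  obtain ⟨C₂, c2, h2⟩ := h2
  obtain ⟨x₀, hx₀⟩ := T.pol.ne
  let B := zbb13_B T.toBase hK
  have h3 : ∀ y, T.vol y * (B.H y).det.re = T.vol (T.f x₀) * (B.H (T.f x₀)).det.re := fun y => by
    obtain ⟨x, hx, rfl⟩ := T.bpb10_surj y
    exact T.pol.const (u := fun x => T.vol (T.f x) * (B.H (T.f x)).det.re) (fun x hx =>
      (T.f_cont.continuousAt (T.W_open.mem_nhds hx)).eventually (B.c_loc (T.f x))) hx₀ hx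
  have h4 : ∀ y τ C (u : X → ℝ), (∀ x ∈ S.U, 0 ≤ u x) → (∀ i, ∀ z ∈ (A.C i).W, A.p i z ∈ S.U →
      u (A.p i z) ≤ C * hr (K'.h i z) (Vf A S.g i z *ᵥ τ)) →
      ∫ x, u x ∂T.fm y ≤ C * hr (B.H y) τ := fun y τ C u h0 hu => by
    refine (integral_mono_of_nonneg ((T.fm_ae y).mono fun x hx => h0 x hx.1.1)
      (zbb13_int B y τ C).1 ((T.fm_ae y).mono fun x hx => ?_)).trans (zbb13_int B y τ C).2.le
    obtain ⟨i, z, hz, rfl⟩ := A.cover x
    exact (hu i z hz hx.1.1).trans_eq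
      (congrArg (fun t => C * t.re) ((zbb13_S S hK).hq_h hz hx.1.1 τ τ).symm)
  refine ⟨C₂ * (T.vol (T.f x₀) * (B.H (T.f x₀)).det.re / T.c₀ * C₁ ^ (n - 1)), fun y τ => ?_⟩
  refine (h4 y τ C₂ _ (fun _ _ => sq_nonneg _) fun i z hz hU => ?_).trans ?_
  · rw [S.bv_eq hβ hz hU, ← Matrix.dotProduct_mulVec]
    exact h2 i z hz _
  rw [mul_assoc]
  refine mul_le_mul_of_nonneg_left (le_of_det (T.H_pos y).1 (B.H_pos y).1 c1 (fun v => ?_) ?_ τ)
    c2.le
  · have h5 := (zbb13_int T.toBase y v 1).2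
    simp only [one_mul] at h5
    refine h5.ge.trans (h4 y v C₁ _ (fun x hx => hq_nonneg (S.h_psd hx) v) fun i z hz hU => ?_)
    rw [hr, S.hq_h hz hU]
    exact h1 i z hz _
  · rw [← h3 y, div_mul_eq_mul_div, eq_div_iff T.c₀_pos.ne', ← T.c_eq y]
    ring

end Pool.Agent.ZB
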