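import Pool.Agent.P.MP_63735c_ag.BPC6
import Pool.Agent.P.MP_63735c_ag.ZBPt

/-! Locally constant cocycles on the resolution. -/

open scoped ComplexOrder ContDiff Matrix Topology ENNReal
open Set Metric MeasureTheory Filter

namespace Pool.Agent.ZB

open Pool.Agent.BP Pool.Agent.SPF Pool.Agent.AB Pool.Agent.CK Pool.Agent.SE Pool.Agent.NL

variable {N : ℕ} {X : Type} [TopologicalSpace X] [PreconnectedSpace X] {A : Atlas X N}
  {L : Line A} {Y : Type} [TopologicalSpace Y] {Z : Res L Y} {W : Set X} {ψ : X → ℝ}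

theorem res_conn (Z : Res L Y) : PreconnectedSpace Y :=
  Z.j_dense.preconnectedSpace Z.j_cont

omit [PreconnectedSpace X] in
theorem res_dense (Z : Res L Y) (hW : Dense W) : Dense (Z.j '' W) :=
  Z.j_dense.dense_image Z.j_cont hW

omit [PreconnectedSpace X] in
lemma zbc6_push {i : Z.ι} {z : E N} (hz : z ∈ Z.W i) {P : Y → Prop}
    (h : ∀ᶠ w in 𝓝 z, P (Z.p i w)) : ∀ᶠ y in 𝓝 (Z.p i z), P y := by
  obtain ⟨O, h1, h2, h3⟩ := _root_.eventually_nhds_iff.1 (h.and ((Z.isOpen i).eventually_mem hz))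
  refine mem_of_superset ((Z.opn i O h2 fun w hw => (h1 w hw).2).mem_nhds ⟨z, h3, rfl⟩) ?_
  rintro _ ⟨w, hw, rfl⟩
  exact (h1 w hw).1

omit [PreconnectedSpace X] in
lemma zbc6_pull {i : Z.ι} {z : E N} (hz : z ∈ Z.W i) {P : Y → Prop}
    (h : ∀ᶠ y in 𝓝 (Z.p i z), P y) : ∀ᶠ w in 𝓝 z, P (Z.p i w) :=
  ((Z.cont i).continuousAt ((Z.isOpen i).mem_nhds hz)).eventually h

theorem Full.ext_lc [T2Space X] [T2Space Y] (hF : Full Z) (h : PolX A W ψ) {O : Set Y}
    (hO : IsOpen O) {u : X → ℝ} (hu : ∀ x ∈ Z.j ⁻¹' O ∩ W, ∀ᶠ y in 𝓝 x, u y = u x) :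
    ∃ c : Y → ℝ, (∀ x ∈ O, ∀ᶠ y in 𝓝 x, c y = c x) ∧ ∀ x ∈ Z.j ⁻¹' O ∩ W, c (Z.j x) = u x := by
  have key : ∀ y, ∃ c, y ∈ O → ∀ᶠ v in 𝓝 y, ∀ x ∈ W, v = Z.j x → u x = c := by
    intro y
    by_cases hy : y ∈ O
    swap
    · exact ⟨0, fun h => absurd h hy⟩
    obtain ⟨P, rfl, hB⟩ := hF.pt y
    have h0 := P.r_pos
    have hz := hB (mem_closedBall_self (by linarith))
    obtain ⟨r, hr0, hb⟩ := Metric.eventually_nhds_iff_ball.1 (zbc6_pull hz (hO.eventually_mem hy))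
    have hR : 0 < min r P.r := lt_min hr0 h0
    have hR' := min_le_right r P.r
    obtain ⟨ψ', hp⟩ := P.pol h hR hR'
    obtain ⟨z₁, hz₁⟩ := hp.ne
    refine ⟨u (A.p P.i z₁), fun _ => zbc6_push hz ?_⟩
    filter_upwards [ball_mem_nhds P.z₀ (show 0 < min r P.r / 16 by linarith)] with z hz' x hW e
    obtain ⟨hi, rfl⟩ := hF.mem (hB (ball_subset_closedBall (ball_subset_ball (by linarith) hz'))) e
    refine hp.conn (u := fun z => u (A.p P.i z)) (fun w hw => ?_)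
      ⟨⟨ball_subset_ball (by linarith) hz', hi, hW⟩, hz'⟩ hz₁
    refine bpc6_pull (P := fun y => u y = u (A.p P.i w)) hw.2.1 (hu _ ⟨?_, hw.2.2⟩)
    rw [mem_preimage, ← Z.p_eq _ _ hw.2.1]
    exact hb w (ball_subset_ball (min_le_left _ _) hw.1)
  choose c hc using key
  refine ⟨c, fun x hx => ?_, fun x hx => ((hc _ hx.1).self_of_nhds x hx.2 rfl).symm⟩
  filter_upwards [(hc x hx).eventually_nhds, hO.eventually_mem hx] with y h1 h2
  obtain ⟨w, ⟨h3, h4⟩, v, h5, rfl⟩ :=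
    mem_closure_iff_nhds.1 (res_dense Z h.dense y) _ (inter_mem h1 (hc y h2))
  exact (h4 v h5 rfl).symm.trans (h3 v h5 rfl)

omit [PreconnectedSpace X] in
lemma zbc6_diff {U : Set Y} (hU : IsOpen U) {k : Y → ℂ} (hk : HolY Z U k) {i : Z.ι} {z : E N}
    (hz : z ∈ Z.W i) (hx : Z.p i z ∈ U) :
    ∀ᶠ w in 𝓝 z, DifferentiableAt ℂ (fun w => k (Z.p i w)) w := by
  have ho := (Z.cont i).isOpen_inter_preimage (Z.isOpen i) hU
  exact (ho.eventually_mem ⟨hz, hx⟩).mono fun w hw => (hk i).differentiableAt (ho.mem_nhds hw)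

omit [PreconnectedSpace X] in
theorem HolY.lc_of_max {U : Set Y} (hU : IsOpen U) {k : Y → ℂ} (hk : HolY Z U k) {x : Y}
    (hx : x ∈ U) (hm : ∀ᶠ y in 𝓝 x, (k y).im ≤ (k x).im) : ∀ᶠ y in 𝓝 x, k y = k x := by
  obtain ⟨i, z, hz, rfl⟩ := Z.cover x
  have hd := zbc6_diff hU hk hz hx
  have h1 : ∀ᶠ w in 𝓝 z, Complex.exp (-Complex.I * k (Z.p i w)) =
      Complex.exp (-Complex.I * k (Z.p i z)) := by
    refine Complex.eventually_eq_of_isLocalMax_norm
      (f := fun w => Complex.exp (-Complex.I * k (Z.p i w)))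
      (hd.mono fun w hw => (hw.const_mul _).cexp) ?_
    filter_upwards [zbc6_pull hz hm] with w hw
    simpa [Complex.norm_exp] using hw
  have h2 : ∀ᶠ w in 𝓝 z, dist (k (Z.p i w)) (k (Z.p i z)) < 1 :=
    Metric.tendsto_nhds.1 hd.self_of_nhds.continuousAt 1 one_pos
  refine zbc6_push (P := fun y => k y = k (Z.p i z)) hz ?_
  filter_upwards [h1, h2] with w a1 a2
  obtain ⟨n, hn⟩ := Complex.exp_eq_exp_iff_exists_int.1 a1
  have e : k (Z.p i w) - k (Z.p i z) = ((-(n * (2 * Real.pi)) : ℝ) : ℂ) := by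
    push_cast
    linear_combination Complex.I * hn +
      (k (Z.p i w) - k (Z.p i z) + n * (2 * Real.pi)) * Complex.I_sq
  rw [dist_eq_norm, e, Complex.norm_real, Real.norm_eq_abs, abs_neg, abs_mul,
    abs_of_pos Real.two_pi_pos] at a2
  have a3 : |(n : ℝ)| < 1 := by nlinarith [abs_nonneg (n : ℝ), Real.pi_gt_three]
  have a4 : n = 0 := Int.abs_lt_one_iff.1 (by exact_mod_cast a3)
  rw [a4] at e
  simpa [sub_eq_zero] using e

theorem H1Y.lc [CompactSpace Y] (h : H1Y Z) {κ : Type} {U : κ → Set Y} {c : κ → κ → Y → ℝ}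
    (hU : ∀ a, IsOpen (U a)) (hc : ∀ x, ∃ a, x ∈ U a)
    (hl : ∀ a b, ∀ x ∈ U a ∩ U b, ∀ᶠ y in 𝓝 x, c a b y = c a b x)
    (hz : ∀ a b d, ∀ x ∈ U a ∩ U b ∩ U d, c a b x + c b d x = c a d x) :
    ∃ r : κ → Y → ℝ, (∀ a, ∀ x ∈ U a, ∀ᶠ y in 𝓝 x, r a y = r a x) ∧
      ∀ a b, ∀ x ∈ U a ∩ U b, c a b x = r a x - r b x := by
  have := res_conn Z
  obtain ⟨k, hk, he⟩ := h κ U (fun a b x => (c a b x : ℂ)) hU hc
    (fun a b i z hz' => ((differentiableAt_const (c a b (Z.p i z) : ℂ)).congr_of_eventuallyEq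
      ((zbc6_pull hz'.1 (hl a b _ hz'.2)).mono fun w hw => congrArg Complex.ofReal hw)
      ).differentiableWithinAt)
    fun a b d x hx => by exact_mod_cast hz a b d x hx
  choose s hs using hc
  have hv : ∀ a, ∀ x ∈ U a, (k (s x) x).im = (k a x).im := fun a x hx => by
    have := congrArg Complex.im (he (s x) a x ⟨hs x, hx⟩)
    rw [Complex.ofReal_im, Complex.sub_im] at this
    linarith
  have hcont : Continuous fun x => (k (s x) x).im := by
    refine continuous_iff_continuousAt.2 fun x => ?_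
    have c1 : ContinuousAt (k (s x)) x := by
      obtain ⟨i, z, hz', rfl⟩ := Z.cover x
      exact fun t ht => zbc6_push (P := fun y => k (s (Z.p i z)) y ∈ t) hz'
        ((zbc6_diff (hU _) (hk _) hz' (hs _)).self_of_nhds.continuousAt ht)
    refine (Complex.continuous_im.continuousAt.comp c1).congr ?_
    exact ((hU _).eventually_mem (hs x)).mono fun y hy => (hv _ y hy).symm
  refine ⟨fun a x => (k a x).re, fun a x hx => ?_, fun a b x hx => ?_⟩
  · obtain ⟨x₀, -, h0⟩ := isCompact_univ.exists_isMaxOn ⟨x, mem_univ x⟩ hcont.continuousOn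
    have loc : ∀ a, ∀ y ∈ U a, (k (s y) y).im = (k (s x₀) x₀).im → ∀ᶠ w in 𝓝 y, k a w = k a y := by
      intro a y hy e
      refine (hk a).lc_of_max (hU a) hy (((hU a).eventually_mem hy).mono fun w hw => ?_)
      rw [← hv a w hw, ← hv a y hy, e]
      exact h0 (mem_univ w)
    have ho : IsOpen {y | (k (s y) y).im = (k (s x₀) x₀).im} := by
      refine isOpen_iff_mem_nhds.2 fun y hy => ?_
      filter_upwards [loc _ y (hs y) hy, (hU _).eventually_mem (hs y)] with w a1 a2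
      rw [hv _ w a2, a1]
      exact hy
    have hu := IsClopen.eq_univ ⟨isClosed_eq hcont continuous_const, ho⟩ ⟨x₀, rfl⟩
    have hx' : x ∈ {y | (k (s y) y).im = (k (s x₀) x₀).im} := hu ▸ mem_univ x
    exact (loc a x hx hx').mono fun w hw => congrArg Complex.re hw
  · have := congrArg Complex.re (he a b x hx)
    rwa [Complex.ofReal_re, Complex.sub_re] at this

end Pool.Agent.ZB
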