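import Pool.Agent.P.MP_63735c_ag.ZBC5
import Pool.Agent.P.MP_63735c_ag.ZBC6
import Pool.Agent.P.MP_63735c_ag.BPC7

/-! The global potential. -/

open scoped ComplexOrder ContDiff Matrix Topology ENNReal
open Set Metric MeasureTheory Filter

namespace Pool.Agent.ZB

open Pool.Agent.BP Pool.Agent.SPF Pool.Agent.AB Pool.Agent.CK Pool.Agent.SE Pool.Agent.NL

variable {N : ℕ} {X : Type} [TopologicalSpace X] [T2Space X] [PreconnectedSpace X]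
  [MeasurableSpace X] [BorelSpace X] {A : Atlas X N} {μ : Measure X} {W : Set X} {ψ : X → ℝ}
  {ξ : A.ι → E N → E N} {Ω : A.ι → E N → Mat N} {a C : ℝ} {L : Line A}
  {Y : Type} [TopologicalSpace Y] [T2Space Y] [CompactSpace Y] {Z : Res L Y}

omit [CompactSpace Y] in
lemma zbc7_loc (hF : Full Z) (h : UX A W ξ Ω a C) (hP : PolX A W ψ)
    (hinj : ∀ i, InjOn (A.p i) (A.C i).W) (hμ : IsVolume A μ) (y : Y) :
    ∃ (O : Set Y) (G : X → ℝ), IsOpen O ∧ y ∈ O ∧ LocP A μ W ξ (Z.j ⁻¹' O) G := by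
  obtain ⟨P, e, hB⟩ := hF.pt y
  obtain ⟨r, G, h0, hr, hL⟩ := P.locP h hP hinj hμ
  have hb : ball P.z₀ r ⊆ Z.W (Z.c P.i) := (ball_subset_closedBall.trans
    (closedBall_subset_closedBall (by linarith [P.r_pos]))).trans hB
  exact ⟨_, G, Z.opn _ _ isOpen_ball hb, ⟨P.z₀, mem_ball_self h0, e⟩, (hF.pre hb).symm ▸ hL⟩

omit [T2Space X] [PreconnectedSpace X] [BorelSpace X] [T2Space Y] in
lemma zbc7_of_loc {G : X → ℝ}
    (h : ∀ y : Y, ∃ O, IsOpen O ∧ y ∈ O ∧ LocP A μ W ξ (Z.j ⁻¹' O) G) : LocP A μ W ξ univ G := by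
  choose O ho hx hL using h
  obtain ⟨t, -, ht⟩ := isCompact_univ.elim_nhds_subcover O fun x _ => (ho x).mem_nhds (hx x)
  choose c hc using fun x => (hL x).bd
  obtain ⟨b, hb⟩ := (t.finite_toSet.image c).bddAbove
  refine ⟨isOpen_univ, fun i z hz hy => (hL _).smooth i z hz ⟨hx _, hy.2⟩,
    fun i z hz hy => (hL _).dr_eq i z hz ⟨hx _, hy.2⟩, ⟨b, fun y hy => ?_⟩, fun k => ?_⟩
  · obtain ⟨x, h1, h2⟩ := mem_iUnion₂.1 (ht (mem_univ (Z.j y)))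
    exact (hc x y ⟨h2, hy.2⟩).trans (hb ⟨x, h1, rfl⟩)
  · refine ((integrableOn_finset_iUnion (s := t) (t := fun x => Z.j ⁻¹' O x ∩ W)).2
      fun x _ => (hL x).int k).mono_set fun y hy => ?_
    obtain ⟨x, h1, h2⟩ := mem_iUnion₂.1 (ht (mem_univ (Z.j y)))
    exact mem_iUnion₂.2 ⟨x, h1, h2, hy.2⟩

theorem Full.pot (hF : Full Z) (h : UX A W ξ Ω a C) (hP : PolX A W ψ)
    (hinj : ∀ i, InjOn (A.p i) (A.C i).W) (hμ : IsVolume A μ) (h1 : H1Y Z) :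
    ∃ G, LocP A μ W ξ univ G ∧ ∀ y ∈ W, G y ≤ 0 := by
  choose O G ho hx hL using zbc7_loc hF h hP hinj hμ
  choose c hc hc' using fun x y => hF.ext_lc hP ((ho x).inter (ho y))
    (u := fun t => G x t - G y t) fun t ht => (hL x).lc hP.isOpen (hL y) ht
  obtain ⟨r, hr, hr'⟩ := h1.lc (c := c) ho (fun x => ⟨x, hx x⟩) hc (by
    intro x y u t ht
    obtain ⟨_, ⟨s, hs, rfl⟩, e1, e2, e3, e4⟩ := ((mem_closure_iff_frequently.1
      (res_dense Z hP.dense t)).and_eventually ((hc x y t ht.1).and ((hc y u t ⟨ht.1.2, ht.2⟩).and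
        ((hc x u t ⟨ht.1.1, ht.2⟩).and
          ((((ho x).inter (ho y)).inter (ho u)).mem_nhds ht))))).exists
    rw [← e1, ← e2, ← e3, hc' x y s ⟨e4.1, hs⟩, hc' y u s ⟨⟨e4.1.2, e4.2⟩, hs⟩,
      hc' x u s ⟨⟨e4.1.1, e4.2⟩, hs⟩]
    ring)
  have hG : LocP A μ W ξ univ fun y => G (Z.j y) y - r (Z.j y) (Z.j y) := by
    refine zbc7_of_loc (Z := Z) fun x => ?_
    obtain ⟨O', h2, h3, h4⟩ := _root_.eventually_nhds_iff.1
      ((hr x x (hx x)).and ((ho x).mem_nhds (hx x)))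
    refine ⟨O', h3, h4, (hL x).shift hP.isOpen (h3.preimage Z.j_cont) (fun y hy => (h2 _ hy).2)
      (c := r x x) fun y hy => ?_⟩
    have e1 := hr' x (Z.j y) (Z.j y) ⟨(h2 _ hy.1).2, hx _⟩
    have e2 := hc' x (Z.j y) y ⟨⟨(h2 _ hy.1).2, hx _⟩, hy.2⟩
    rw [← (h2 _ hy.1).1]
    linarith
  obtain ⟨b, hb⟩ := hG.bd
  exact ⟨fun y => G (Z.j y) y - r (Z.j y) (Z.j y) - b,
    hG.shift hP.isOpen isOpen_univ Subset.rfl fun _ _ => rfl,
    fun y hy => sub_nonpos.2 (hb y ⟨trivial, hy⟩)⟩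

end Pool.Agent.ZB
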