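import Pool.Agent.P.MP_63735c_ag.ZBB4
import Pool.Agent.P.MP_63735c_ag.BPT12
import Pool.Agent.P.MP_63735c_ag.BPT1
import Pool.Agent.P.MP_63735c_ag.CLHol

/-! The average of the Kähler form. -/

open scoped ComplexOrder ContDiff Matrix Topology ENNReal
open Set Metric MeasureTheory Filter

namespace Pool.Agent.ZB

open Pool.Agent.BP Pool.Agent.SPF Pool.Agent.AB Pool.Agent.CK Pool.Agent.SE Pool.Agent.NL

variable {N n : ℕ} {X : Type} [TopologicalSpace X] {A : Atlas X N} {K : Form11 A} {L : Line A}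
  {S : Sys K L n} {Y : Type} [TopologicalSpace Y] (B : Base S Y)

theorem bpb6_part {P Q G : Type} [NormedAddCommGroup P] [NormedSpace ℝ P] [NormedAddCommGroup Q]
    [NormedSpace ℝ Q] [NormedAddCommGroup G] [NormedSpace ℝ G] {F : P × Q → G} {w : P × Q}
    (hF : DifferentiableAt ℝ F w) :
    (∀ β, fderiv ℝ F w (β, 0) = fderiv ℝ (fun b => F (b, w.2)) w.1 β) ∧
      ∀ s, fderiv ℝ F w (0, s) = fderiv ℝ (fun t => F (w.1, t)) w.2 s := by
  have h1 : HasFDerivAt (fun b => F (b, w.2))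
      ((fderiv ℝ F w).comp (ContinuousLinearMap.inl ℝ P Q)) w.1 :=
    HasFDerivAt.comp (g := F) (f := fun b : P => (b, w.2)) w.1 hF.hasFDerivAt
      (hasFDerivAt_prodMk_left w.1 w.2)
  have h2 : HasFDerivAt (fun t => F (w.1, t))
      ((fderiv ℝ F w).comp (ContinuousLinearMap.inr ℝ P Q)) w.2 :=
    HasFDerivAt.comp (g := F) (f := fun t : Q => (w.1, t)) w.2 hF.hasFDerivAt
      (hasFDerivAt_prodMk_right w.1 w.2)
  rw [h1.fderiv, h2.fderiv]
  exact ⟨fun _ => rfl, fun _ => rfl⟩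

theorem bpb6_det {H : Mat n} (h : H.PosDef) : H.det = (H.det.re : ℂ) ∧ 0 < H.det.re :=
  ⟨Complex.ext rfl (by simpa using (Complex.pos_iff.1 h.det_pos).2.symm),
    (Complex.pos_iff.1 h.det_pos).1⟩

namespace Base

theorem bpb6_c {k : B.ι} {w : E n × (Fin N → ℝ)} (hw : w.1 ∈ B.W k) :
    ContDiffAt ℝ ∞ (fun w : E n × (Fin N → ℝ) => (w.1, lt (B.lam k w.1) w.2)) w ∧
      DifferentiableAt ℂ (fun b => lt (B.lam k b) w.2) w.1 := by
  have h := (B.isOpen k).mem_nhds hw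
  constructor
  · refine contDiffAt_fst.prodMk (contDiffAt_pi.2 fun a => ?_)
    simp only [lt, Matrix.mulVec, dotProduct]
    refine ContDiffAt.sum fun j _ => ContDiffAt.mul ?_ ?_
    · exact ((CL.hol_smooth (B.isOpen k) (B.lam_hol k a j)).2.1.contDiffAt h).comp w contDiffAt_fst
    · exact Complex.ofRealCLM.contDiff.contDiffAt.comp w
        ((contDiffAt_pi.1 contDiffAt_snd) j)
  · refine differentiableAt_pi.2 fun a => ?_
    simp only [lt, Matrix.mulVec, dotProduct]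
    exact DifferentiableAt.fun_sum fun j _ => ((B.lam_hol k a j).differentiableAt h).mul_const _

theorem Θ_lift {k : B.ι} {b : E n} (hb : b ∈ B.W k) (t : Fin N → ℝ) :
    ∃ (j : A.ι) (F : E n × (Fin N → ℝ) → E N), ∀ᶠ w in 𝓝 (b, t), w.1 ∈ B.W k ∧
      ContDiffAt ℝ ∞ F w ∧ F w ∈ (A.C j).W ∧ A.p j (F w) = B.Θ k w.1 w.2 ∧
      (∀ s, fderiv ℝ F w (0, s) = Vf A S.g j (F w) *ᵥ lt (B.lam k w.1) s) ∧
      (∀ β, fderiv ℝ F w (Complex.I • β, 0) = Complex.I • fderiv ℝ F w (β, 0)) ∧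
      ∀ β, Jg A S.g j (F w) *ᵥ fderiv ℝ F w (β, 0) = β := by
  obtain ⟨j, e, h0, h1, -, h2⟩ := (B.tub k).toSect.loc (w₀ := (b, lt (B.lam k b) t)) hb
  refine ⟨j, fun w => e (w.1, lt (B.lam k w.1) w.2), ?_⟩
  have h3 : ∀ᶠ w : E n × (Fin N → ℝ) in 𝓝 (b, t), (w.1, lt (B.lam k w.1) w.2) ∈ e.source :=
    (B.bpb6_c (w := (b, t)) hb).1.continuousAt.eventually (e.open_source.mem_nhds h0)
  filter_upwards [h3] with w hw
  obtain ⟨a1, a2, a3, a4, a5⟩ := h2 _ hw
  obtain ⟨c1, c2⟩ := B.bpb6_c (w := w) a1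
  have hn := e.open_source.mem_nhds hw
  have hs : ContDiffAt ℝ ∞ (fun w : E n × (Fin N → ℝ) => e (w.1, lt (B.lam k w.1) w.2)) w :=
    ((CL.hol_smooth e.open_source h1).2.1.contDiffAt hn).comp w c1
  obtain ⟨p1, p2⟩ := bpb6_part (hs.differentiableAt (by simp))
  have he := (h1.differentiableAt hn).hasFDerivAt
  have q1 : HasFDerivAt (fun b => e (b, lt (B.lam k b) w.2))
      ((fderiv ℂ e (w.1, lt (B.lam k w.1) w.2)).comp ((ContinuousLinearMap.id ℂ _).prod
        (fderiv ℂ (fun b => lt (B.lam k b) w.2) w.1))) w.1 :=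
    HasFDerivAt.comp (g := e) (f := fun b => (b, lt (B.lam k b) w.2)) w.1 he
      ((hasFDerivAt_id w.1).prodMk c2.hasFDerivAt)
  have q2 : HasFDerivAt (fun t => e (w.1, lt (B.lam k w.1) t))
      (((fderiv ℂ e (w.1, lt (B.lam k w.1) w.2)).restrictScalars ℝ).comp
        ((0 : (Fin N → ℝ) →L[ℝ] E n).prod (bpt10_L (B.lam k w.1)))) w.2 :=
    HasFDerivAt.comp (g := e) (f := fun t => (w.1, lt (B.lam k w.1) t)) w.2 (he.restrictScalars ℝ)
      ((hasFDerivAt_const w.1 w.2).prodMk (bpt10_L (B.lam k w.1)).hasFDerivAt)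
  refine ⟨a1, hs, a2, a3, fun s => ?_, fun β => ?_, fun β => ?_⟩
  · rw [p2, q2.fderiv]
    exact a4 _
  · rw [p1, p1, (q1.restrictScalars ℝ).fderiv]
    exact map_smul (_ : E n →L[ℂ] E N) Complex.I β
  · rw [p1, (q1.restrictScalars ℝ).fderiv]
    exact a5 _ _

theorem Θ_smooth {u : X → ℂ}
    (hu : ∀ i, ∀ z ∈ (A.C i).W, A.p i z ∈ S.W → ContDiffAt ℝ ∞ (fun w => u (A.p i w)) z)
    (k : B.ι) : ContDiffOn ℝ ∞ (fun w : E n × (Fin N → ℝ) => u (B.Θ k w.1 w.2))
      (B.W k ×ˢ univ) := by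
  rintro ⟨b, t⟩ hw
  obtain ⟨j, F, hF⟩ := B.Θ_lift hw.1 t
  obtain ⟨-, a1, a2, a3, -⟩ := hF.self_of_nhds
  refine (((hu j _ a2 (a3 ▸ (B.Θ_mem hw.1 t).1)).comp _ a1).congr_of_eventuallyEq ?_).contDiffWithinAt
  filter_upwards [hF] with w h
  rw [Function.comp_apply, h.2.2.2.1]

theorem orb_lift {x : X} (hx : x ∈ S.U) (τ : E n) : ∃ (j : A.ι) (F : E n → E N), ∀ᶠ w in 𝓝 τ,
    DifferentiableAt ℂ F w ∧ F w ∈ (A.C j).W ∧ A.p j (F w) = S.Φ x w ∧
      jac F w = Vf A S.g j (F w) := by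
  obtain ⟨i, z, hz, rfl⟩ := A.cover x
  obtain ⟨j, F, hF⟩ := S.lift i z hz hx τ
  have hd : Differentiable ℂ fun t : E n => ((z, t) : E N × E n) := by fun_prop
  refine ⟨j, fun t => F (z, t), ?_⟩
  filter_upwards [hd.continuous.continuousAt.eventually hF] with t ht
  refine ⟨ht.1.comp t (hd t), ht.2.1, ht.2.2.1, ?_⟩
  ext a c
  have h1 : fderiv ℂ (fun t => F (z, t)) t (Pi.single c 1) = fderiv ℂ F (z, t) (0, Pi.single c 1) :=
    congrArg (fun D => D (Pi.single c 1))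
      (ht.1.hasFDerivAt.comp t (hasFDerivAt_prodMk_right z t)).fderiv
  rw [jac, Matrix.of_apply, h1, ht.2.2.2, Matrix.mulVec_single_one]
  rfl

theorem bpb6_orb {k : B.ι} {b : E n} (hb : b ∈ B.W k) :
    (∀ a c, ContDiff ℝ ∞ fun τ => S.h (S.Φ (B.s k b) τ) a c) ∧
      Per (B.lam k b) (fun τ => S.h (S.Φ (B.s k b) τ)) ∧
      ∀ τ a c d, dz d (fun w => S.h (S.Φ (B.s k b) w) a c) τ =
        dz a (fun w => S.h (S.Φ (B.s k b) w) d c) τ := by
  have hx := (B.s_mem k b hb).1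
  refine ⟨fun a c => contDiff_iff_contDiffAt.2 fun τ => ?_, fun τ t => ?_, fun τ a c d => ?_⟩
  · obtain ⟨j, F, hF⟩ := orb_lift hx τ
    obtain ⟨-, a1, a2, -⟩ := hF.self_of_nhds
    refine ((S.h_smooth a1 (a2 ▸ S.Φ_mem _ hx τ) a c).comp τ
      (smoothAt_of_hol (hF.mono fun w h => h.1))).congr_of_eventuallyEq ?_
    filter_upwards [hF] with w h
    rw [Function.comp_apply, h.2.2.1]
  · beta_reduce
    rw [add_comm, ← S.Φ_add _ hx, (B.lam_per k b hb _).2 ⟨t, rfl⟩]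
  · obtain ⟨j, F, hF⟩ := orb_lift hx τ
    have he : ∀ a c, (fun w => S.h (S.Φ (B.s k b) w) a c) =ᶠ[𝓝 τ]
        fun t => ((jac F t)ᵀ * K.h j (F t) * (jac F t).map star) a c := fun a c => by
      filter_upwards [hF] with w h
      rw [← h.2.2.1, S.h_eq j _ h.2.1 (h.2.2.1 ▸ S.Φ_mem _ hx w), h.2.2.2]
    rw [(dz_congr (he a c) d).self_of_nhds, (dz_congr (he d c) a).self_of_nhds]
    exact kah_pull (A.C j).isOpen ⟨K.smooth j, S.K_pos j, K.closed j⟩ (hF.mono fun w h => h.1)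
      hF.self_of_nhds.2.1 a c d

theorem bpb6_hc (S : Sys K L n) : ContinuousOn S.h S.W :=
  continuousOn_pi.2 fun a => continuousOn_pi.2 fun c => (S.h_cont a c).mono fun _ h => h.1

theorem bpb6_ct {k : B.ι} {b : E n} (hb : b ∈ B.W k) : Continuous fun t => S.h (B.Θ k b t) :=
  continuous_matrix fun a c => ((B.bpb6_orb hb).1 a c).continuous.comp (bpt10_cont _)

variable [MeasurableSpace X] [BorelSpace X]

theorem H_chart {k : B.ι} {b : E n} (hb : b ∈ B.W k) :
    B.H (B.p k b) = Matrix.of fun a c => ∫ t in cube N, S.h (B.Θ k b t) a c := by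
  ext a c
  exact (B.fm_int hb ((S.h_cont a c).mono fun _ h => h.1)).2

omit [MeasurableSpace X] [BorelSpace X] in
theorem bpb6_hq {M : (Fin N → ℝ) → Mat n} (hM : Continuous M) (τ τ' : E n) :
    (Continuous fun t => hq (M t) τ τ') ∧
    ∫ t in cube N, hq (M t) τ τ' = hq (Matrix.of fun a c => ∫ t in cube N, M t a c) τ τ' := by
  have h : ∀ a c, Continuous fun t => τ a * M t a c * star (τ' c) := fun a c =>
    (continuous_const.mul (hM.matrix_elem a c)).mul continuous_const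
  simp only [hq_sum_eq]
  refine ⟨continuous_finsetSum _ fun a _ => continuous_finsetSum _ fun c _ => h a c, ?_⟩
  rw [integral_finsetSum _ fun a _ => cube_int (continuous_finsetSum _ fun c _ => h a c)]
  refine Finset.sum_congr rfl fun a _ => ?_
  rw [integral_finsetSum _ fun c _ => cube_int (h a c)]
  simp only [integral_mul_const, integral_const_mul, Matrix.of_apply]

omit [MeasurableSpace X] [BorelSpace X] in
theorem bpb6_re {f : (Fin N → ℝ) → ℂ} (hf : Continuous f) :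
    ∫ t in cube N, (f t).re = (∫ t in cube N, f t).re :=
  Complex.reCLM.integral_comp_comm (cube_int hf)

omit [MeasurableSpace X] [BorelSpace X] in
theorem bpb6_hq' (τ τ' : E n) : Continuous fun M : Mat n => hq M τ τ' := by
  simp only [hq_sum_eq]
  fun_prop

theorem hq_H (y : Y) (τ τ' : E n) : hq (B.H y) τ τ' = ∫ x, hq (S.h x) τ τ' ∂B.fm y := by
  obtain ⟨k, b, hb, rfl⟩ := B.cover y
  rw [B.H_chart hb, ← (bpb6_hq (B.bpb6_ct hb) τ τ').2]
  exact (B.fm_int hb ((bpb6_hq' τ τ').comp_continuousOn (bpb6_hc S))).2.symm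

theorem H_pos (y : Y) : (B.H y).PosDef ∧ (B.om y).PosDef ∧
    (B.om y).det.re * (B.H y).det.re = 1 := by
  have h : (B.H y).PosDef := by
    obtain ⟨k, b, hb, rfl⟩ := B.cover y
    have hp : ∀ t, (S.h (B.Θ k b t)).PosDef := fun t => (B.Θ_mem hb t).1.2.1
    rw [B.H_chart hb]
    refine posDef_of_hq ?_ fun u hu => ?_
    · ext a c
      rw [Matrix.conjTranspose_apply, Matrix.of_apply, Matrix.of_apply, Complex.star_def,
        ← integral_conj]
      exact integral_congr_ae (Eventually.of_forall fun t => (hp t).1.apply a c)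
    · obtain ⟨h1, h2⟩ := bpb6_hq (B.bpb6_ct hb) u u
      rw [← h2, ← bpb6_re h1, setIntegral_pos_iff_support_of_nonneg_ae
        (Eventually.of_forall fun t => (hq_pos (hp t) hu).le)
        (cube_int (Complex.continuous_re.comp h1)),
        Function.support_eq_univ fun t => (hq_pos (hp t) hu).ne', univ_inter, (cube_vol N).2]
      exact one_pos
  refine ⟨h, h.inv.transpose, ?_⟩
  rw [om, Matrix.det_transpose, Matrix.det_nonsing_inv, Ring.inverse_eq_inv', (bpb6_det h).1,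
    ← Complex.ofReal_inv, Complex.ofReal_re, Complex.ofReal_re, inv_mul_cancel₀ (bpb6_det h).2.ne']

theorem H_smo (a c : Fin n) : B.Smo (fun y => B.H y a c) ∧ B.Smo fun y => B.om y a c := by
  have h : ∀ a c, B.Smo fun y => B.H y a c := fun a c k =>
    (cube_param (B.isOpen k) (B.Θ_smooth (u := fun x => S.h x a c)
      (fun i z hz hW => S.h_smooth hz hW.1 a c) k)).1.congr fun b hb => by
        beta_reduce
        rw [B.H_chart hb]
        rfl
  refine ⟨h a c, fun k => ?_⟩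
  simp only [om, Matrix.transpose_apply, Matrix.inv_def, Ring.inverse_eq_inv', Matrix.smul_apply,
    smul_eq_mul]
  exact ((bpt1_det_smooth fun a c => h a c k).inv fun b _ => (B.H_pos _).1.det_pos.ne').mul
    (adj_smooth (fun a c => h a c k) c a)

theorem int_det (y : Y) : ∫ x, (S.h x).det.re ∂B.fm y = (B.H y).det.re := by
  obtain ⟨k, b, hb, rfl⟩ := B.cover y
  obtain ⟨h1, h2, h3⟩ := B.bpb6_orb hb
  rw [(B.fm_int (u := fun x => (S.h x).det.re) hb
    ((Complex.continuous_re.comp continuous_id.matrix_det).comp_continuousOn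
    (bpb6_hc S))).2.trans (bpb6_re (B.bpb6_ct hb).matrix_det), B.H_chart hb]
  exact congrArg Complex.re (null_lag (B.lam_bij k b hb) h1 h2 h3).1

theorem int_adj (y : Y) (v : E n) :
    ∫ x, hr (S.h x).adjugateᵀ v ∂B.fm y = (B.H y).det.re * hr (B.om y) v := by
  have hp := (B.H_pos y).1
  have e : (B.H y).adjugateᵀ = (B.H y).det • B.om y := by
    rw [om, Matrix.inv_def, Ring.inverse_eq_inv', Matrix.transpose_smul, smul_smul,
      mul_inv_cancel₀ hp.det_pos.ne', one_smul]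
  have e2 : (B.H y).det.re * hr (B.om y) v = hr (B.H y).adjugateᵀ v := by
    rw [e, hr, hr, hq_smul, (bpb6_det hp).1, Complex.re_ofReal_mul, Complex.ofReal_re]
  rw [e2]
  obtain ⟨k, b, hb, rfl⟩ := B.cover y
  obtain ⟨h1, h2, h3⟩ := B.bpb6_orb hb
  obtain ⟨h4, h5⟩ := bpb6_hq (B.bpb6_ct hb).matrix_adjugate.matrix_transpose v v
  rw [(B.fm_int (u := fun x => hr (S.h x).adjugateᵀ v) hb
    ((Complex.continuous_re.comp ((bpb6_hq' v v).comp
    continuous_id.matrix_adjugate.matrix_transpose)).comp_continuousOn (bpb6_hc S))).2.trans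
      (bpb6_re h4), h5, B.H_chart hb]
  congr 2
  ext a c
  exact (null_lag (B.lam_bij k b hb) h1 h2 h3).2 c a

end Base

end Pool.Agent.ZB
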