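import Pool.Agent.P.MP_63735c_ag.SBDA
import Pool.Agent.P.MP_63735c_ag.SBEP
import Pool.Agent.P.MP_63735c_ag.SBE0
import Pool.Agent.P.MP_63735c_ag.ZBA0
import Pool.Agent.P.MP_63735c_ag.ZBC4
import Pool.Agent.P.MP_63735c_ag.ZBD0

/-! The germ along the points of a chart. -/

open scoped ComplexOrder ContDiff Matrix Topology ENNReal
open Set Metric MeasureTheory Filter

namespace Pool.Agent.ZB

open Pool.Agent.BP Pool.Agent.SPF Pool.Agent.AB Pool.Agent.CK Pool.Agent.SE Pool.Agent.NL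

section

variable {N n : ℕ} {X : Type} [TopologicalSpace X]

theorem germS_ug [MeasurableSpace X] {A : Atlas X N} {μ : Measure X} {L : Line A} {U : Up A μ L}
    {Om : A.ι → E N → Mat N} {x : Filter X} (H : GermS A U.W Om U.φ x) {a : ℝ} (ha : 0 < a)
    (h : ∀ i, ∀ z ∈ dom A U.W i, ∀ v, a * hr (Om i z) v ≤ U.th i z v) : Nonempty (SB.UG U x) := by
  have n1 : ∀ v : E H.M, ‖v‖ ^ 2 ≤ nsq v := fun v => norm_sq_le_nsq v
  have n2 : ∀ v : E H.M, nsq v ≤ H.M * ‖v‖ ^ 2 := fun v => nsq_le_norm_sq v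
  have hδ := H.δ_pos
  have hM : (0 : ℝ) ≤ H.M := Nat.cast_nonneg _
  have hC : 0 ≤ |H.C| / a := div_nonneg (abs_nonneg _) ha.le
  refine ⟨⟨H.M, H.Nb, H.G, 0, √(H.δ / (H.M + 1)), |H.C| / a + |H.C| + 1, H.Wf, H.d, H.c, H.opn, H.sub,
    Real.sqrt_pos.2 (by positivity), by positivity, H.G_hol, fun y hy hn => ?_,
    fun i z hz hO v => ?_, H.Wf_hol, H.d_pos, H.c_pos, fun y hy => ⟨(H.Wf_bd y hy).1,
      (H.Wf_bd y hy).2.trans (by linarith [le_abs_self H.C])⟩, fun ε hε => ?_⟩⟩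
  · filter_upwards [isClosed_closure.isOpen_compl.mem_nhds fun hc => hn (H.closed y hy hc)]
      with y' hy' hO
    have h1 : H.δ < nsq (H.G y') := not_le.1 fun hc => hy' (subset_closure ⟨hO, hc⟩)
    rw [sub_zero, Real.sqrt_lt (by positivity) (norm_nonneg _), div_lt_iff₀ (by positivity)]
    nlinarith [n2 (H.G y'), sq_nonneg ‖H.G y'‖]
  · have h0 : 0 ≤ U.th i z v := U.G_lev i z hz (H.sub hO) v
    have h1 := (n1 _).trans (H.grad i z ⟨hz, hO⟩ v)
    have h2 : 0 < H.C := H.c_pos.trans_le ((H.Wf_bd _ hO).1.trans (H.Wf_bd _ hO).2)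
    have h3 : H.C * hr (Om i z) v ≤ H.C / a * U.th i z v := by
      rw [div_mul_eq_mul_div, le_div_iff₀ ha, mul_assoc, mul_comm _ a]
      exact mul_le_mul_of_nonneg_left (h i z ⟨hz, H.sub hO⟩ v) h2.le
    rw [abs_of_pos h2]
    nlinarith
  · refine (H.near (ε ^ 2) (by positivity)).mono fun y hy => ⟨hy.1, ?_⟩
    rw [sub_zero]
    exact lt_of_pow_lt_pow_left₀ 2 hε.le ((n1 _).trans_lt hy.2)

/-- A local embedding near every point. -/
theorem Sys.em {R : Set X} {A : Atlas R N} {B : Amb R A} {K : Form11 A} {L : Line A}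
    (S : Sys K L n) (hK : KahS B K) (hN : Normal B) (hC : Cartier L) (x : X) :
    ∃ e : Em A K S.W S.φ Subtype.val, x ∈ e.O := by
  obtain ⟨M⟩ := exists_mod hK hN hC (s := fun _ : Unit => S.s₀) (fun _ => S.sec) x
  have hb : closedBall (B.z M.α x) M.r ⊆ ball (B.z M.α x) (2 * M.r) :=
    closedBall_subset_ball (by linarith [M.r_pos])
  obtain ⟨c, hc, h1⟩ := cpt_lower (isCompact_closedBall (B.z M.α x) M.r)
    (fun a b => (M.H_smooth a b).continuousOn.mono hb) fun w hw u hu => hq_pos (M.H_pos w (hb hw)) hu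
  have key : ∀ y ∈ S.W ∩ Subtype.val ⁻¹' M.O, M.F () (B.z M.α y) ≠ 0 ∧
      M.c ≤ ‖(M.F () (B.z M.α y))⁻¹‖ ^ 2 * Real.exp (-S.φ y) ∧
      ‖(M.F () (B.z M.α y))⁻¹‖ ^ 2 * Real.exp (-S.φ y) ≤ M.C := by
    intro y hy
    obtain ⟨i, w, hw, rfl⟩ := A.cover y
    have e1 := S.φ_eq i w hw hy.1.1
    rw [M.s_eq () i w hw hy.2] at e1
    have h0 : M.F () (B.z M.α (A.p i w)) ≠ 0 := fun h => by
      rw [h] at e1
      simp at e1
    have h2 := norm_ne_zero_iff.2 h0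
    have e2 : ‖(M.F () (B.z M.α (A.p i w)))⁻¹‖ ^ 2 * Real.exp (-S.φ (A.p i w)) =
        ‖M.e i w‖ ^ 2 * Real.exp (-(S.m * L.ψ i w)) := by
      rw [e1, norm_mul, norm_inv]
      field_simp
    exact ⟨h0, e2 ▸ M.e_bd i w hw hy.2⟩
  have hM : (0 : ℝ) ≤ B.M M.α / c := by positivity
  refine ⟨⟨B.M M.α, M.O, B.z M.α, fun y => (M.F () (B.z M.α y))⁻¹, M.c,
    B.M M.α / c + |M.C| + 1, M.opn, (B.cont _).mono M.sub, (B.inj _).mono M.sub,
    fun i w hw => (B.hol _ i w hw.1 (M.sub hw.2)).1.differentiableWithinAt,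
    fun i w hw => (B.hol _ i w hw.1 (M.sub hw.2)).2, fun i w hw u => ?_, fun i w hw => ?_,
    M.c_pos, by positivity, fun y hy => ⟨(key y hy).2.1,
      (key y hy).2.2.trans (by linarith [le_abs_self M.C])⟩⟩, M.mem⟩
  · have h2 := h1 _ (ball_subset_closedBall (M.maps hw.2))
      (fderiv ℂ (fun w => B.z M.α (A.p i w)) w u)
    have h3 : hr (K.h i w) u = (hq (M.H (B.z M.α (A.p i w)))
        (fderiv ℂ (fun w => B.z M.α (A.p i w)) w u)
        (fderiv ℂ (fun w => B.z M.α (A.p i w)) w u)).re := by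
      rw [M.K_eq i w hw.1 hw.2, hr, hq_conj, bpt2_jac]
    rw [← h3] at h2
    have h4 : 0 ≤ hr (K.h i w) u := le_trans (by positivity) h2
    have h5 := mul_le_mul_of_nonneg_left h2 hM
    rw [← mul_assoc, div_mul_cancel₀ _ hc.ne'] at h5
    refine (nsq_le _).2.trans (h5.trans (mul_le_mul_of_nonneg_right ?_ h4))
    linarith [abs_nonneg M.C]
  · have h2 : DifferentiableAt ℂ (fun w => M.F () (B.z M.α (A.p i w))) w :=
      ((M.F_hol ()).differentiableAt (isOpen_ball.mem_nhds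
        (hb (ball_subset_closedBall (M.maps hw.2.2))))).comp w (B.hol _ i w hw.1 (M.sub hw.2.2)).1
    exact (h2.fun_inv (key _ hw.2).1).differentiableWithinAt

end

variable {N n : ℕ} {X : Type} [TopologicalSpace X] [T2Space X] [CompactSpace X] {R : Set X}
  [PreconnectedSpace R] [MeasurableSpace R] [BorelSpace R] {A : Atlas R N} {B : Amb R A}
  {K : Form11 A} {L : Line A} {μ : Measure R} [IsFiniteMeasure μ] {S : Sys K L n} {Y : Type}
  [TopologicalSpace Y] [MeasurableSpace Y]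

theorem Kit.hG [S.Bd] (T : Kit S μ Y) (hK : KahS B K) (hN : Normal B) (hC : Cartier L)
    (hμ : IsVolume A μ) {U : Up A μ L} {a : ℝ} (ha : 0 < a) (e1 : U.W = S.W) (e2 : U.φ = S.φ)
    (e3 : ∀ i, ∀ z ∈ (A.C i).W, A.p i z ∈ S.W → ∀ v, U.th i z v = a * hr (T.Om i z) v)
    (i : A.ι) (z₀ : E N) (r : ℝ) (hP : SB.EP L i z₀ r) :
    ∃ x : Filter R, x ≤ map (A.p i) (𝓝[(A.C i).W] z₀) ∧ Nonempty (SB.UG U x) := by
  obtain ⟨F, h1, h2, h3, h4, h5⟩ := T.exists_fib hμ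
  have hd : Dense S.W := T.pol.dense
  have hne : (map (A.p i) (𝓝[(A.C i).W] z₀) ⊓ 𝓟 S.W).NeBot := by
    refine inf_principal_neBot_iff.2 fun O hO => ?_
    obtain ⟨ε, hε, h6⟩ := Metric.mem_nhdsWithin_iff.1 (mem_map.1 hO)
    obtain ⟨_, ⟨z, hz, rfl⟩, hw⟩ := hd.inter_open_nonempty _
      (A.opn i _ (isOpen_ball.inter (A.C i).isOpen) inter_subset_right) ((hP.ne hε).image _)
    exact ⟨_, h6 hz, hw⟩
  obtain ⟨𝒰, h𝒰⟩ := Ultrafilter.exists_le (map (A.p i) (𝓝[(A.C i).W] z₀) ⊓ 𝓟 S.W)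
  have hl : F.Lift K S.h := by
    unfold Fib.Lift
    rw [h1, h2]
    exact S.exists_lift
  obtain ⟨H⟩ := Fib.exists_germS continuous_subtype_val Subtype.val_injective S.hN S.n_pos S.inj hμ
    S.K_pos h4 hl h5.inv (fun y => h1 ▸ S.em hK hN hC y) 𝒰
    (h1 ▸ le_principal_iff.1 (h𝒰.trans inf_le_right))
  have h6 : F.Om = T.Om := by
    funext i z
    rw [Fib.Om, h2, h3]
    rfl
  rw [h1, h6, ← e1, ← e2] at H
  exact ⟨𝒰, h𝒰.trans inf_le_left, germS_ug H ha fun i z hz v => (e3 i z hz.1 (e1 ▸ hz.2) v).ge⟩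

end Pool.Agent.ZB
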