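import Pool.Agent.P.MP_63735c_ag.SBEC
import Pool.Agent.P.MP_63735c_ag.ZBG
import Pool.Agent.P.MP_63735c_ag.ZBA8
import Pool.Agent.P.MP_63735c_ag.ZBB11a
import Pool.Agent.P.MP_63735c_ag.ZBB11b
import Pool.Agent.P.MP_63735c_ag.ZBB11d
import Pool.Agent.P.MP_63735c_ag.ZBB13
import Pool.Agent.P.MP_63735c_ag.ZBC8

/-! Base point freeness on a singular space. -/

open scoped ComplexOrder ContDiff Matrix Topology ENNReal
open Set Metric MeasureTheory Filter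

namespace Pool.Agent.ZB

open Pool.Agent.BP Pool.Agent.SPF Pool.Agent.AB Pool.Agent.CK Pool.Agent.SE Pool.Agent.NL

variable {N n : ℕ}

section

variable {X : Type} [TopologicalSpace X] {A : Atlas X N} {L : Line A}

theorem Pt.ep (P : Pt L) : SB.EP L P.i P.z₀ P.r := by
  have hb : ball P.z₀ P.r ⊆ ball P.z₀ (2 * P.r) := ball_subset_ball (by linarith [P.r_pos])
  refine ⟨P.r_pos, P.dense, fun S hS h1 C hC => ?_, ⟨P.ψ, P.ψ_smooth.mono hb,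
    P.ψ_eq.mono inter_subset_right⟩, _, P.det_hol.mono hb, fun z hz => by rw [P.s_eq hz.2]⟩
  have h2 := (P.cpt C hC).inter_left hS.isClosed
  rwa [← inter_assoc, inter_eq_left.2 (h1.trans ball_subset_closedBall)] at h2

theorem Cov.sb (h : Cov L) : SB.Cov L := by
  classical
  intro ε h0
  obtain ⟨t, ht, h1⟩ := h (fun P => ε P.i P.z₀) fun P => h0 _ _
  refine ⟨ht.toFinset.image fun P => (P.i, P.z₀), fun q hq => ?_, fun x => ?_⟩
  · obtain ⟨P, -, rfl⟩ := Finset.mem_image.1 hq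
    exact ⟨_, P.ep⟩
  · obtain ⟨P, hP, h2⟩ := h1 x
    exact ⟨_, Finset.mem_image_of_mem _ (ht.mem_toFinset.2 hP), h2⟩

theorem Bdd.sb (h : Bdd L) : SB.SecBd L := fun j s hs => by
  obtain ⟨b, hb⟩ := h j s hs
  refine ⟨b, fun i z hz => ?_⟩
  have h1 := hb (A.p i z)
  rwa [nrm_eq hs hz] at h1

end

variable {X : Type} [TopologicalSpace X] [T2Space X] [CompactSpace X] {R : Set X}
  [PreconnectedSpace R] [MeasurableSpace R] [BorelSpace R] {A : Atlas R N} {B : Amb R A}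
  {K : Form11 A} {L : Line A} {μ : Measure R} [IsFiniteMeasure μ] {Y : Type} [TopologicalSpace Y]
  [T2Space Y] [CompactSpace Y] {Z : Res L Y}

theorem Sys.bpf (S : Sys K L n) [S.Bd] (hμ : IsVolume A μ) (hK : KahS B K) (hN : Normal B)
    (hC : Cartier L) (P : Over B Z) (h1 : H1Y Z) (h2 : H02Y Z)
    (hη : ∃ i, ∃ z ∈ (A.C i).W, (A.C i).η z ≠ 0) :
    ∃ j : ℕ, 1 ≤ j ∧ ∃ (r : ℕ) (s : Fin r → A.ι → E N → ℂ), (∀ l, L.IsSection j (s l)) ∧
      ∃ c : ℝ, 0 < c ∧ ∀ i, ∀ z ∈ (A.C i).W,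
        c ≤ ∑ l, ‖s l i z‖ ^ 2 * Real.exp (-(j * L.ψ i z)) := by
  obtain ⟨Y', _, _, ⟨Bs⟩⟩ := S.exists_base
  borelize Y'
  obtain ⟨T⟩ := Bs.exists_kit hμ
  have hF := P.toFull
  obtain ⟨a, β, ha, b1, b2, b3⟩ :=
    hF.exists_beta S.inj hμ T.pol S.K_pos (P.upto_gam hK) h2 hη
  obtain ⟨ξ, C, hξ⟩ := T.exists_xi ha b1 b3
    (T.avg_bd (resK_pos Z) (hF.K_le (P.upto_K hK)) b1 (hF.β_le b1 b2))
  obtain ⟨U, e1, e2, -, -, e3⟩ := T.exists_up hF hμ h1 hξ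
  exact SB.bpf_of_up U hμ S.K_pos hK.isKahler.bd11 (bdd_of hK hN hC).sb hF.cov.sb
    (T.hG hK hN hC hμ ha e1 e2 e3)

end Pool.Agent.ZB
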