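import Pool.Agent.P.MP_63735c_ag.ZBHyp

/-! Fibres of a complete linear system on a singular space, Lagrangian subsets. -/

open scoped Matrix Topology

namespace Pool.Agent.ZB

open Pool.Agent.SPF Pool.Agent.SE Pool.Agent.BP

variable {N : ℕ} {X : Type} [TopologicalSpace X] {R : Set X} {A : Atlas R N}

/-- The norm of the section `s` of the `k`-th power of `L` tends to zero at the point `x`. -/
def VanS (L : Line A) (k : ℕ) (s : A.ι → E N → ℂ) (x : X) : Prop :=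
  ∀ ε > 0, ∀ᶠ y in 𝓝 x, ∀ i, ∀ z ∈ (A.C i).W, (A.p i z : X) = y →
    ‖s i z‖ ^ 2 * Real.exp (-(k * L.ψ i z)) ≤ ε

/-- The fibre through `x` of the map given by all sections of the `k`-th power of `L`: the points
of `X` at which the same sections vanish. -/
def FibreS (L : Line A) (k : ℕ) (x : X) : Set X :=
  {y | ∀ s, L.IsSection k s → (VanS L k s y ↔ VanS L k s x)}

/-- Every holomorphic function near a fibre is, near that fibre, a holomorphic function of finitely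
many quotients of sections of the `k`-th power of `L`. -/
def IsSteinS (L : Line A) (k : ℕ) : Prop :=
  ∀ (x : X) (V : Set X) (h : R → ℂ), IsOpen V → FibreS L k x ⊆ V →
    HolOn A (Subtype.val ⁻¹' V) h →
    ∃ (r : ℕ) (s₀ : A.ι → E N → ℂ) (s : Fin r → A.ι → E N → ℂ) (O : Set X) (C B : Set (E r))
      (u : E r → ℂ), L.IsSection k s₀ ∧ (∀ l, L.IsSection k (s l)) ∧ IsOpen O ∧ FibreS L k x ⊆ O ∧
      (∀ y ∈ O, ¬ VanS L k s₀ y) ∧ IsClosed C ∧ C ⊆ B ∧ IsOpen B ∧ DifferentiableOn ℂ u B ∧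
      ∀ i, ∀ z ∈ (A.C i).W, (A.p i z : X) ∈ O →
        (fun l => s l i z / s₀ i z) ∈ C ∧ h (A.p i z) = u fun l => s l i z / s₀ i z

/-- Wherever `S` is a complex submanifold `γ` of an ambient space, it has dimension `n` and, on
open sets close to the point, it has a lift `δ` to `Y` on which the extension `s` of `σ` is zero. -/
def IsLagS {B : Amb R A} {L : Line A} {Y : Type} [TopologicalSpace Y] {Z : Res L Y} (P : Over B Z)
    (n : ℕ) (S : Set X) : Prop :=
  ∀ α (d : ℕ) (γ : E d → E (B.M α)) (t : E d), ∀ x ∈ S ∩ B.V α,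
    (∀ᶠ u in 𝓝 t, DifferentiableAt ℂ γ u) → Function.Injective (fderiv ℂ γ t) →
    Filter.map γ (𝓝 t) = Filter.map (B.z α) (𝓝[S] x) →
      d = n ∧ ∃ᶠ u in 𝓝 t, ∃ (i : A.ι) (δ : E d → E N) (s : E N → Matrix (Fin N) (Fin N) ℂ),
        ContinuousOn s (Z.W (Z.c i)) ∧ Set.EqOn s (A.C i).σ (A.C i).W ∧ ∀ᶠ v in 𝓝 u,
          DifferentiableAt ℂ δ v ∧ δ v ∈ Z.W (Z.c i) ∧ P.ρ (Z.p (Z.c i) (δ v)) ∈ B.V α ∧
          B.z α (P.ρ (Z.p (Z.c i) (δ v))) = γ v ∧ (jac δ v)ᵀ * s (δ v) * jac δ v = 0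

end Pool.Agent.ZB
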