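import Pool.Agent.P.MP_63735c_ag.SBD5
import Pool.Agent.P.MP_63735c_ag.ZBB11b
import Pool.Agent.P.MP_63735c_ag.FB9
import Pool.Agent.P.MP_63735c_ag.NR0

/-! Local embeddings of the singular space and of its resolution. -/

open scoped ComplexOrder ContDiff Matrix Topology ENNReal
open Set Metric MeasureTheory Filter

namespace Pool.Agent.ZB

open Pool.Agent.BP Pool.Agent.SPF Pool.Agent.AB Pool.Agent.CK Pool.Agent.SE Pool.Agent.NL

variable {N : ℕ}

section

variable {X : Type} [TopologicalSpace X] {A : Atlas X N}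

/-- A local embedding without frame. -/
structure Em0 (A : Atlas X N) (K : Form11 A) {T : Type} [TopologicalSpace T] (j : X → T)
    (O : Set T) {M : ℕ} (z : T → E M) : Prop where
  opn : IsOpen O
  cont : ContinuousOn z O
  inj : InjOn z O
  hol : HolV A (j ⁻¹' O) fun x => z (j x)
  imm : ∀ i, ∀ w ∈ dom A (j ⁻¹' O) i, Function.Injective (fderiv ℂ (fun w => z (j (A.p i w))) w)
  low : ∃ C : ℝ, 0 < C ∧ ∀ i, ∀ w ∈ dom A (j ⁻¹' O) i, ∀ u,
    nsq (fderiv ℂ (fun w => z (j (A.p i w))) w u) ≤ C * hr (K.h i w) u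

/-- The embedding with the trivial frame. -/
noncomputable def Em0.em {K : Form11 A} {T : Type} [TopologicalSpace T] {j : X → T} {O : Set T}
    {M : ℕ} {z : T → E M} (h : Em0 A K j O z) (W : Set X) : Em A K W 0 j where
  M := M
  O := O
  z := z
  s := fun _ => (√h.low.choose : ℝ)
  c := h.low.choose
  C := h.low.choose
  opn := h.opn
  cont := h.cont
  inj := h.inj
  hol := h.hol
  imm := h.imm
  low := h.low.choose_spec.2
  s_hol := fun _ => differentiableOn_const _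
  c_pos := h.low.choose_spec.1
  C_pos := h.low.choose_spec.1
  s_bd := fun _ _ => by
    rw [Complex.norm_real, Real.norm_eq_abs, sq_abs, Real.sq_sqrt h.low.choose_spec.1.le]
    simp

theorem Em0.mono {K : Form11 A} {T : Type} [TopologicalSpace T] {j : X → T} {O O' : Set T}
    {M : ℕ} {z : T → E M} (h : Em0 A K j O z) (hO : IsOpen O') (hs : O' ⊆ O) : Em0 A K j O' z :=
  ⟨hO, h.cont.mono hs, h.inj.mono hs, fun i => (h.hol i).mono fun _ hw => ⟨hw.1, hs hw.2⟩,
    fun i w hw => h.imm i w ⟨hw.1, hs hw.2⟩,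
    h.low.imp fun _ a => ⟨a.1, fun i w hw => a.2 i w ⟨hw.1, hs hw.2⟩⟩⟩

variable {L : Line A} {Y : Type} [TopologicalSpace Y] {Z : Res L Y} {M : ℕ} {f : Y → E M}
  {V : Set Y}

/-- `f` is holomorphic on the part `V` of `Y`. -/
def HolR (Z : Res L Y) (V : Set Y) (f : Y → E M) : Prop :=
  ∀ i, ∀ w ∈ Z.W (Z.c i), Z.p (Z.c i) w ∈ V → DifferentiableAt ℂ (fun v => f (Z.p (Z.c i) v)) w

theorem sle_ev (f : Y → E M) {i : A.ι} {w : E N} (hw : w ∈ (A.C i).W) :
    (fun v => f (Z.j (A.p i v))) =ᶠ[𝓝 w] fun v => f (Z.p (Z.c i) v) :=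
  mem_of_superset ((A.C i).isOpen.mem_nhds hw) fun v hv => congrArg f (Z.p_eq i v hv).symm

theorem HolR.diff (hf : HolR Z V f) {i : A.ι} {w : E N} (hw : w ∈ (A.C i).W)
    (h : Z.j (A.p i w) ∈ V) : DifferentiableAt ℂ (fun v => f (Z.j (A.p i v))) w :=
  (hf i w (Z.sub i hw) ((Z.p_eq i w hw).symm ▸ h)).congr_of_eventuallyEq (sle_ev f hw)

theorem sle_map (Z : Res L Y) {k : Z.ι} {w : E N} (hw : w ∈ Z.W k) :
    map (Z.p k) (𝓝 w) = 𝓝 (Z.p k w) := by
  refine le_antisymm ((Z.cont k).continuousAt ((Z.isOpen k).mem_nhds hw)) fun s hs => ?_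
  obtain ⟨O, o1, o2, o3⟩ := _root_.mem_nhds_iff.1 (inter_mem hs ((Z.isOpen k).mem_nhds hw))
  exact mem_of_superset ((Z.opn k O o2 fun v hv => (o1 hv).2).mem_nhds ⟨w, o3, rfl⟩)
    (image_subset_iff.2 fun v hv => (o1 hv).1)

variable [T2Space Y] [CompactSpace Y]

theorem sle_low (h : Full Z) (hV : IsOpen V) {Q : Set Y} (hQ : IsClosed Q) (hs : Q ⊆ V)
    (hf : HolR Z V f) : ∃ C : ℝ, 0 < C ∧ ∀ i, ∀ w ∈ (A.C i).W, Z.j (A.p i w) ∈ Q → ∀ u,
      nsq (fderiv ℂ (fun w => f (Z.j (A.p i w))) w u) ≤ C * hr ((resK Z).h i w) u := by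
  classical
  obtain ⟨C, hC, h1⟩ := zbb11b_unif h (fun i w u => if Z.j (A.p i w) ∈ Q then
    nsq (fderiv ℂ (fun w => f (Z.j (A.p i w))) w u) else 0) (fun i k O φ hch hp z hz v => by
      rw [hp z hz]
      split_ifs with a
      · have h2 := hf.diff (hch.maps hz) ((hp z hz).symm ▸ hs a)
        rw [bpt2_jac, Filter.EventuallyEq.fderiv_eq (f := (fun w => f (Z.j (A.p k w))) ∘ φ)
          (mem_of_superset (hch.isOpen.mem_nhds hz) fun v hv => by simp [hp v hv]),
          fderiv_comp z h2 (hch.lin3_diff hz)]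
        rfl
      · rfl) fun i w hw => by
      have hc := (Z.cont _).continuousAt ((Z.isOpen _).mem_nhds hw)
      by_cases a : Z.p (Z.c i) w ∈ Q
      · have h2 := (fb9_cd (γ := fun v => f (Z.p (Z.c i) v)) (t := w) (by
          filter_upwards [(Z.isOpen _).mem_nhds hw, hc (hV.mem_nhds (hs a))] with v a1 a2
          exact hf i v a1 a2)).continuousAt_fderiv one_ne_zero
        set b := ‖fderiv ℂ (fun v => f (Z.p (Z.c i) v)) w‖ + 1
        refine ⟨M * b ^ 2, by positivity, ?_⟩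
        filter_upwards [h2.norm.eventually_lt continuousAt_const (lt_add_one _)] with z a1 a2 v
        split_ifs
        · rw [(sle_ev f a2).fderiv_eq, mul_assoc, ← mul_pow]
          refine (nsq_le _).2.trans (mul_le_mul_of_nonneg_left (pow_le_pow_left₀ (norm_nonneg _)
            ((ContinuousLinearMap.le_opNorm _ _).trans ?_) 2) (Nat.cast_nonneg _))
          exact mul_le_mul_of_nonneg_right a1.le (norm_nonneg _)
        · positivity
      · refine ⟨0, le_rfl, ?_⟩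
        filter_upwards [hc (hQ.isOpen_compl.mem_nhds a)] with z a1 a2 v
        rw [if_neg (Z.p_eq i z a2 ▸ a1), zero_mul]
  exact ⟨C, hC, fun i w hw a u => (if_pos a).ge.trans (h1 i w hw u)⟩

/-- The chart coordinate together with a holomorphic map. -/
theorem emY (h : Full Z) (hV : IsOpen V) (hc : ContinuousOn f V) (hf : HolR Z V f) {i : A.ι}
    {w₀ : E N} (hw : w₀ ∈ Z.W (Z.c i)) (h0 : Z.p (Z.c i) w₀ ∈ V) :
    ∃ (O : Set Y) (ζ : Y → E N), Z.p (Z.c i) w₀ ∈ O ∧ O ⊆ V ∧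
      (∀ y ∈ O, ζ y ∈ Z.W (Z.c i) ∧ Z.p (Z.c i) (ζ y) = y) ∧
      (∀ w ∈ Z.W (Z.c i), ζ (Z.p (Z.c i) w) = w) ∧
      Em0 A (resK Z) Z.j O fun y => ap (ζ y) (f y) := by
  let ζ : Y → E N := Function.invFunOn (Z.p (Z.c i)) (Z.W (Z.c i))
  have z1 : ∀ w ∈ Z.W (Z.c i), ζ (Z.p (Z.c i) w) = w := (Z.inj _).leftInvOn_invFunOn
  have hV' : IsOpen (V ∩ Z.p (Z.c i) '' Z.W (Z.c i)) :=
    hV.inter (Z.opn _ _ (Z.isOpen _) subset_rfl)
  obtain ⟨Q, hQ, q1, q2⟩ := exists_compact_subset hV' ⟨h0, w₀, hw, rfl⟩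
  have q3 := interior_subset.trans q2
  have z2 : ∀ y ∈ interior Q, ζ y ∈ Z.W (Z.c i) ∧ Z.p (Z.c i) (ζ y) = y := fun y hy => by
    obtain ⟨w, a, rfl⟩ := (q3 hy).2
    rw [z1 w a]
    exact ⟨a, rfl⟩
  have z3 : HolR Z (V ∩ Z.p (Z.c i) '' Z.W (Z.c i)) fun y => ap (ζ y) (f y) :=
    fun k v hv ⟨a, w, b, e⟩ => by
      obtain ⟨φ, -, p2⟩ := Z.trans _ _ v hv w b e.symm
      exact (spl N M).symm.differentiableAt.comp v ((p2.self_of_nhds.1.congr_of_eventuallyEq
        (p2.mono fun u hu => (congrArg ζ hu.2.2.symm).trans (z1 _ hu.2.1))).prodMk (hf k v hv a))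
  refine ⟨interior Q, ζ, q1, fun y hy => (q3 hy).1, z2, z1, isOpen_interior, fun y hy => ?_,
    fun y hy y' hy' e => ?_, fun k w hw => (z3.diff hw.1 (q3 hw.2)).differentiableWithinAt,
    fun k w hw => ?_, (sle_low h hV' hQ.isClosed q2 z3).imp fun C a =>
      ⟨a.1, fun k w hw => a.2 k w hw.1 (interior_subset hw.2)⟩⟩
  · obtain ⟨w, a, rfl⟩ := (q3 hy).2
    refine ((spl N M).symm.continuous.continuousAt.comp (ContinuousAt.prodMk ?_
      (hc.continuousAt (hV.mem_nhds (q3 hy).1)))).continuousWithinAt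
    rw [ContinuousAt, ← sle_map Z a, tendsto_map'_iff, z1 w a]
    exact tendsto_id.congr' (mem_of_superset ((Z.isOpen _).mem_nhds a) fun u hu => (z1 u hu).symm)
  · have := congrArg (pr1 N M) e
    rw [pr1_ap, pr1_ap] at this
    rw [← (z2 y hy).2, this, (z2 y' hy').2]
  · obtain ⟨a1, a2⟩ := h.mem (z2 _ hw.2).1 (z2 _ hw.2).2
    obtain ⟨O, φ, hch, hO, -, hp⟩ := A.trans k i w hw.1 _ a1 a2.symm
    have a3 := ((pr1 N M).hasFDerivAt.comp w (z3.diff hw.1 (q3 hw.2)).hasFDerivAt).fderiv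
    rw [Filter.EventuallyEq.fderiv_eq (f := φ) (mem_of_superset (hch.isOpen.mem_nhds hO)
      fun v hv => by
        simp only [mem_ofPred_eq, Function.comp, pr1_ap]
        rw [← hp v hv, ← Z.p_eq i _ (hch.maps hv), z1 _ (Z.sub i (hch.maps hv))])] at a3
    refine Function.Injective.of_comp (f := pr1 N M) fun u v e => ?_
    refine Matrix.mulVec_injective_of_isUnit
      ((Matrix.isUnit_iff_isUnit_det _).2 (hch.det_ne hO).isUnit) ?_
    rw [bpt2_jac, bpt2_jac, a3]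
    exact e

end

variable {X : Type} [TopologicalSpace X] {R : Set X} {A : Atlas R N} {B : Amb R A} {L : Line A}
  {Y : Type} [TopologicalSpace Y] {Z : Res L Y}

theorem Over.holR (P : Over B Z) (α : B.κ) {M : ℕ} (π : E (B.M α) →L[ℂ] E M) :
    IsOpen (P.ρ ⁻¹' B.V α) ∧ ContinuousOn (fun y => π (B.z α (P.ρ y))) (P.ρ ⁻¹' B.V α) ∧
      HolR Z (P.ρ ⁻¹' B.V α) fun y => π (B.z α (P.ρ y)) :=
  ⟨(B.V_open α).preimage P.cont,
    π.continuous.comp_continuousOn ((B.cont α).comp P.cont.continuousOn fun _ h => h),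
    fun _ w hw h => π.differentiableAt.comp w (P.hol α _ w hw h)⟩

/-- The ambient coordinates, measured with the form of the resolution. -/
theorem emX [T2Space X] [CompactSpace X] [T2Space Y] [CompactSpace Y] (P : Over B Z) {α : B.κ}
    {x : X} (hx : x ∈ B.V α) :
    ∃ O, x ∈ O ∧ O ⊆ B.V α ∧ Em0 A (resK Z) Subtype.val O (B.z α) := by
  obtain ⟨Q, hQ, q1, q2⟩ := exists_compact_subset (B.V_open α) hx
  have q3 := interior_subset.trans q2
  obtain ⟨a1, -, a2⟩ := P.holR α (ContinuousLinearMap.id ℂ _)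
  obtain ⟨C, hC, h⟩ := sle_low P.toFull a1 (hQ.isClosed.preimage P.cont) (preimage_mono q2) a2
  simp only [ContinuousLinearMap.id_apply, mem_preimage, P.ρ_j] at h
  exact ⟨_, q1, q3, isOpen_interior, (B.cont α).mono q3, (B.inj α).mono q3,
    fun i w hw => (B.hol α i w hw.1 (q3 hw.2)).1.differentiableWithinAt,
    fun i w hw => (B.hol α i w hw.1 (q3 hw.2)).2,
    C, hC, fun i w hw => h i w hw.1 (interior_subset hw.2)⟩

/-- The limit set in `X` is the image of the limit set in `Y`. -/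
theorem Over.lim [T2Space X] [CompactSpace Y] (P : Over B Z) {n : ℕ} (F : Fib A n)
    (U : Ultrafilter R) : F.LimS Subtype.val U = P.ρ '' F.LimS Z.j U := by
  refine Subset.antisymm (fun x hx => by_contra fun hn => ?_) ?_
  · obtain ⟨V, O, v1, o1, v2, o2, hd⟩ := ((Fib.limS_closed (F := F) (j := Z.j) U).isCompact.image
      P.cont).separation_of_notMem hn
    obtain ⟨u, a, y, b, c⟩ := ((Fib.limS_trap U (v1.preimage P.cont) (image_subset_iff.1 v2)).and
      (hx O (o1.mem_nhds o2))).exists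
    exact disjoint_left.1 hd (P.ρ_j y ▸ a y c) b
  · rintro _ ⟨y, hy, rfl⟩ O hO
    exact (hy _ (P.cont.continuousAt hO)).mono fun u ⟨v, a, b⟩ => ⟨v, P.ρ_j v ▸ a, b⟩

end Pool.Agent.ZB
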