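import Pool.Agent.P.MP_63735c_ag.BPT9

/-! Generic slices of a set of dimension at most n. -/

open scoped ComplexOrder ContDiff Matrix Topology ENNReal
open Set Metric MeasureTheory Filter

namespace Pool.Agent.ZB

open Pool.Agent.BP Pool.Agent.SPF Pool.Agent.AB Pool.Agent.CK Pool.Agent.SE Pool.Agent.NL

theorem sl_null {n M : ℕ} {S : Set (E M)} {C ε₀ : ℝ} (h0 : 0 < ε₀)
    (hS : ∀ ε, 0 < ε → ε ≤ ε₀ → ∃ T : Finset (E M), (T.card : ℝ) * ε ^ (2 * n) ≤ C ∧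
      S ⊆ ⋃ c ∈ T, closedBall c ε) (L : E M →L[ℂ] E n) (o : E M) :
    ∀ᵐ a : E n, ∀ᵐ r : ℝ, ∀ w ∈ S, L w = a → ‖w - o‖ ≠ r := by
  have hv : volume (ball (0 : E n) 1) ≠ ⊤ := measure_ball_lt_top.ne
  have hr : Module.finrank ℝ (E n) = 2 * n := by simp [finrank_real_of_complex]
  have hL := norm_nonneg L
  have key : ∀ ε, 0 < ε → ε ≤ ε₀ →
      (volume.prod volume) {p : E n × ℝ | ¬ ∀ w ∈ S, L w = p.1 → ‖w - o‖ ≠ p.2} ≤
        ENNReal.ofReal (C * ‖L‖ ^ (2 * n) * 2 * ε) * volume (ball (0 : E n) 1) := fun ε h1 h2 => by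
    obtain ⟨T, t1, t2⟩ := hS ε h1 h2
    have h3 : {p : E n × ℝ | ¬ ∀ w ∈ S, L w = p.1 → ‖w - o‖ ≠ p.2} ⊆
        ⋃ c ∈ T, closedBall (L c) (‖L‖ * ε) ×ˢ closedBall ‖c - o‖ ε := by
      intro p hp
      simp only [mem_ofPred_eq, not_forall, not_not] at hp
      obtain ⟨w, hw, e1, e2⟩ := hp
      obtain ⟨c, hc, h4⟩ := mem_iUnion₂.1 (t2 hw)
      have h5 := mem_closedBall_iff_norm.1 h4
      refine mem_iUnion₂.2 ⟨c, hc, mem_closedBall_iff_norm.2 ?_, mem_closedBall_iff_norm.2 ?_⟩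
      · rw [← e1, ← map_sub]
        exact (L.le_opNorm _).trans (mul_le_mul_of_nonneg_left h5 hL)
      · rw [← e2]
        exact (abs_norm_sub_norm_le _ _).trans (by rwa [sub_sub_sub_cancel_right])
    refine (measure_mono h3).trans ((measure_biUnion_finset_le _ _).trans ?_)
    simp only [Measure.prod_prod, Real.volume_closedBall,
      Measure.addHaar_closedBall volume _ (mul_nonneg hL h1.le), hr, Finset.sum_const, nsmul_eq_mul]
    rw [mul_right_comm, ← mul_assoc, ← ENNReal.ofReal_mul (by positivity), ← ENNReal.ofReal_natCast,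
      ← ENNReal.ofReal_mul (by positivity)]
    refine mul_le_mul_left (ENNReal.ofReal_le_ofReal ?_) _
    have := mul_le_mul_of_nonneg_right t1 (show 0 ≤ ‖L‖ ^ (2 * n) * 2 * ε by positivity)
    rw [mul_pow]
    linarith
  refine Measure.ae_ae_of_ae_prod (μ := volume) (ν := volume)
    (p := fun p : E n × ℝ => ∀ w ∈ S, L w = p.1 → ‖w - o‖ ≠ p.2) (nonpos_iff_eq_zero.1 ?_)
  have h6 : Tendsto (fun ε : ℝ => ENNReal.ofReal (C * ‖L‖ ^ (2 * n) * 2 * ε) *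
      volume (ball (0 : E n) 1)) (𝓝[>] 0) (𝓝 0) := by
    have h7 : Tendsto (fun ε : ℝ => C * ‖L‖ ^ (2 * n) * 2 * ε) (𝓝[>] 0) (𝓝 0) := by
      simpa using ((continuous_const_mul (C * ‖L‖ ^ (2 * n) * 2)).tendsto 0).mono_left
        nhdsWithin_le_nhds
    simpa using ENNReal.Tendsto.mul_const (ENNReal.tendsto_ofReal h7) (Or.inr hv)
  exact ge_of_tendsto h6 (mem_of_superset (Ioc_mem_nhdsGT h0) fun ε hε => key ε hε.1 hε.2)

end Pool.Agent.ZB
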