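import Pool.Agent.P.MP_63735c_ag.SBD5
import Pool.Agent.P.MP_63735c_ag.SLN

/-! Almost every fibre of a projection carries a scale. -/

open scoped ComplexOrder ContDiff Matrix Topology ENNReal
open Set Metric MeasureTheory Filter

namespace Pool.Agent.ZB

open Pool.Agent.BP Pool.Agent.SPF Pool.Agent.AB Pool.Agent.CK Pool.Agent.SE Pool.Agent.NL

variable {N n : ℕ} {X Z : Type} [TopologicalSpace X] [TopologicalSpace Z] [T2Space Z]
  {A : Atlas X N} {K : Form11 A} {F : Fib A n} {φ : X → ℝ} {j : X → Z}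

theorem sl_sz {e : Em A K F.W φ j} (hP : F.PackS e) (U : Ultrafilter X) (hU : F.W ∈ U)
    (L : E e.M →L[ℂ] E n) {o : E e.M} {R : ℝ} (hR : 0 < R)
    (hc : IsCompact (e.O ∩ e.z ⁻¹' closedBall o (8 * R))) :
    ∀ᵐ a : E n, ∃ ρ r₁ r₂ : ℝ, 0 < ρ ∧ R ≤ r₁ ∧ r₁ < r₂ ∧ r₂ ≤ 8 * R ∧ ∀ y ∈ e.O, y ∈ F.LimS j U →
      L (e.z y) ∈ closedBall a (2 * ρ) → e.z y ∈ closedBall o r₂ → e.z y ∈ ball o r₁ := by
  have h0 : 0 < 4 * R := by positivity
  obtain ⟨B, hB⟩ := sbd5_pack hP U hU (o := o) h0 (by rwa [← mul_assoc, show (2 : ℝ) * 4 = 8 by norm_num])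
  have : Nonempty Z ∨ IsEmpty Z := (isEmpty_or_nonempty Z).symm
  rcases this with this | this
  swap
  · exact Eventually.of_forall fun a => ⟨1, R, 2 * R, one_pos, le_rfl, by linarith, by linarith,
      fun y => this.elim y⟩
  filter_upwards [sl_null (n := n) (C := B * 2 ^ (2 * n))
    (S := e.z '' {w | w ∈ e.O ∧ e.z w ∈ ball o (4 * R) ∧ w ∈ F.LimS j U}) h0
    (fun δ hδ hδ' => by
      obtain ⟨T, h1, h2⟩ := cover_of_sep (C := B / (δ / 2) ^ (2 * n))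
        (Z := e.z '' {w | w ∈ e.O ∧ e.z w ∈ ball o (4 * R) ∧ w ∈ F.LimS j U}) hδ
        fun T h1 h2 => by
          choose! w hw e' using fun t (ht : t ∈ T) => h1 ht
          refine (le_div_iff₀ (by positivity)).2 (hB δ hδ hδ' T w hw fun t ht t' ht' hne => ?_)
          have := h2 t ht t' ht' hne
          rwa [← e' t ht, ← e' t' ht'] at this
      refine ⟨T, ?_, h2⟩
      rwa [le_div_iff₀ (by positivity), div_pow, ← mul_div_assoc,
        div_le_iff₀ (by positivity)] at h1) L o] with a ha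
  obtain ⟨r, ⟨hr1, hr2⟩, hr⟩ := Measure.exists_mem_of_measure_ne_zero_of_ae
    (s := Icc (2 * R) (3 * R)) (by
      rw [Real.volume_Icc]
      exact (ENNReal.ofReal_pos.2 (by linarith)).ne') (ae_restrict_of_ae ha)
  have hK := (sbd5_cpt e hc (show 7 / 2 * R ≤ 8 * R by linarith)).inter_right
    (Fib.limS_closed (F := F) (j := j) U)
  have hz := e.cont.mono (show e.O ∩ e.z ⁻¹' closedBall o (7 / 2 * R) ∩ F.LimS j U ⊆ e.O from
    fun w hw => hw.1.1)
  obtain ⟨η, hη, h1⟩ := hK.exists_forall_le' (a := 0)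
    (f := fun w => dist (L (e.z w)) a + |dist (e.z w) o - r|) (by fun_prop)
    fun w hw => by
      refine lt_of_le_of_ne (by positivity) fun e' => ?_
      obtain ⟨a1, a2⟩ := (add_eq_zero_iff_of_nonneg dist_nonneg (abs_nonneg _)).1 e'.symm
      rw [dist_eq_zero] at a1
      rw [abs_eq_zero, sub_eq_zero, dist_eq_norm] at a2
      exact hr _ ⟨w, ⟨hw.1.1, closedBall_subset_ball (by linarith) hw.1.2, hw.2⟩, rfl⟩ a1 a2
  obtain ⟨ρ, hρ, b1, b2⟩ : ∃ ρ : ℝ, 0 < ρ ∧ 3 * ρ < η ∧ ρ ≤ R / 2 :=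
    ⟨min (η / 4) (R / 2), by positivity, by linarith [min_le_left (η / 4) (R / 2)],
      min_le_right _ _⟩
  refine ⟨ρ, r - ρ, r + ρ, hρ, by linarith, by linarith, by linarith,
    fun w a0 hw a1 a2 => by_contra fun a3 => ?_⟩
  have a5 : dist (L (e.z w)) a ≤ 2 * ρ := a1
  have a6 : dist (e.z w) o ≤ r + ρ := a2
  have a7 : r - ρ ≤ dist (e.z w) o := not_lt.1 a3
  have a4 := h1 w ⟨⟨a0, show dist (e.z w) o ≤ 7 / 2 * R by linarith⟩, hw⟩
  have a8 : |dist (e.z w) o - r| ≤ ρ := abs_le.2 ⟨by linarith, by linarith⟩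
  linarith

end Pool.Agent.ZB
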