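import Pool.Agent.P.MP_63735c_ag.SBDA

/-! The limit set in a box is a finite family of points with holomorphic traces. -/

open scoped ComplexOrder ContDiff Matrix Topology ENNReal
open Set Metric MeasureTheory Filter

namespace Pool.Agent.ZB

open Pool.Agent.BP Pool.Agent.SPF Pool.Agent.AB Pool.Agent.CK Pool.Agent.SE Pool.Agent.NL

variable {N n : ℕ} {X Z : Type} [TopologicalSpace X] [TopologicalSpace Z] [T2Space X] [T2Space Z]
  [CompactSpace Z] [MeasurableSpace X] [BorelSpace X] {A : Atlas X N} {K : Form11 A} {F : Fib A n}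
  {φ : X → ℝ} {j : X → Z} {μ : Measure X} [IsFiniteMeasure μ] {h : X → Mat n} {c₀ : ℝ}

theorem sl_fam (hj : Continuous j) (hi : Function.Injective j) (hN : 1 ≤ N)
    (hinj : ∀ i, InjOn (A.p i) (A.C i).W) (hμ : IsVolume A μ)
    (hK : ∀ i, ∀ z ∈ (A.C i).W, (K.h i z).PosDef) (hT : F.Tor μ K h c₀) (U : Ultrafilter X)
    (hU : F.W ∈ U) (e : Sz A K F.W φ j n) (hs : Disjoint e.shell (F.LimS j U)) :
    ∃ (d : ℕ) (Y : E n → Fin d → Z), (∀ a ∈ ball e.a e.ρ, ∀ k,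
      Y a k ∈ e.cbox ∧ Y a k ∈ F.LimS j U ∧ e.L (e.z (Y a k)) = a) ∧
      (∀ u : E e.M → ℂ, Differentiable ℂ u →
        DifferentiableOn ℂ (fun a => ∑ k, u (e.z (Y a k))) (ball e.a e.ρ)) ∧
      ∀ y ∈ e.core, y ∈ F.LimS j U → ∃ k, Y (e.L (e.z y)) k = y := by
  obtain ⟨c1, c2, c3, -, -, c6, c7, c8⟩ := e.cbox_cpt
  have hρ := e.ρ_pos
  have hb : ball e.a e.ρ ⊆ ball e.a (2 * e.ρ) := ball_subset_ball (by linarith)
  set M := {x | x ∈ F.W ∧ ∀ y, F.r x y → y ∈ j ⁻¹' e.shellᶜ}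
  have H : F.Ok e M := ⟨hN, hj, hi, hinj, Fib.sat_of_open (c3.isClosed.isOpen_compl.preimage hj),
    fun x hx => hx.2 x (F.eqv.refl x)⟩
  have hM : ∀ᶠ x in (U : Filter X), x ∈ M := (Fib.limS_trap U c3.isClosed.isOpen_compl
    hs.symm.subset_compl_right).mp (mem_of_superset hU fun x a b => ⟨a, b⟩)
  obtain ⟨D, hD⟩ := sbd9_deg H hμ hT.fub_det (Fib.area1 hj hK hT.iso hT.h_eq e)
  obtain ⟨d, -, hd⟩ := Ultrafilter.eq_pure_of_finite_mem (f := U.map (F.degZ e M)) (finite_Iic D)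
    (hM.mono hD)
  have h1 : ∀ᶠ x in (U : Filter X), x ∈ M ∧ F.degZ e M x = d :=
    hM.and (show {d} ∈ U.map (F.degZ e M) from hd ▸ Ultrafilter.mem_pure.2 rfl)
  have : Nonempty X := h1.exists.elim fun x _ => ⟨x⟩
  have h2 : ∀ x, x ∈ M ∧ F.degZ e M x = d → ∀ a ∈ ball e.a (2 * e.ρ), ∃ y : Fin d → X,
      (∀ k, j (y k) ∈ e.box ∧ F.r x (y k) ∧ e.L (e.v (y k)) = a) ∧
      (∀ z, j z ∈ e.box → F.r x z → e.L (e.v z) = a → ∃ k, y k = z) ∧ ∀ u : E e.M → ℂ,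
        Differentiable ℂ u → F.TrZ e M (fun x => u (e.v x)) x a = ∑ k, u (e.v (y k)) := by
    rintro x ⟨hx, rfl⟩ a ha
    obtain ⟨y, y1, y2, y3⟩ := H.fam hμ hx ha
    exact ⟨y, y1, y2, fun u hu => y3 _ (sbd9_hol hu inter_subset_right)⟩
  choose! w w1 w2 w3 using h2
  have : Nonempty Z := this.map j
  choose! Y Y1 Y2 using fun a (ha : a ∈ ball e.a (2 * e.ρ)) k => c1.ultrafilter_le_nhds
    (U.map fun x => j (w x a k)) (le_principal_iff.2 (h1.mono fun x hx => c6 (w1 x hx a ha k).1))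
  have Y3 : ∀ a ∈ ball e.a (2 * e.ρ), ∀ k, Tendsto (fun x => e.v (w x a k)) U (𝓝 (e.z (Y a k))) :=
    fun a ha k => (e.cont.continuousAt (e.opn.mem_nhds (c2 (Y1 a ha k)))).tendsto.comp (Y2 a ha k)
  have h3 : ∀ u : E e.M → ℂ, Differentiable ℂ u → ∃ B : ℝ, 0 < B ∧ ∀ x, x ∈ M ∧ F.degZ e M x = d →
      DifferentiableOn ℂ (F.TrZ e M (fun x => u (e.v x)) x) (ball e.a (2 * e.ρ)) ∧
        ∀ a ∈ ball e.a (2 * e.ρ), ‖F.TrZ e M (fun x => u (e.v x)) x a‖ ≤ B := fun u hu => by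
    obtain ⟨B, hB⟩ := c1.exists_bound_of_continuousOn
      (hu.continuous.comp_continuousOn (e.cont.mono c2))
    refine ⟨d * |B| + 1, by positivity, fun x hx =>
      ⟨H.hol_a hμ (sbd9_hol hu inter_subset_right) hx.1, fun a ha => ?_⟩⟩
    rw [w3 x hx a ha u hu]
    refine (norm_sum_le_of_le _ (n := fun _ => |B|) fun k _ =>
      (hB _ (c6 (w1 x hx a ha k).1)).trans (le_abs_self _)).trans ?_
    simp
  refine ⟨d, Y, fun a ha k => ⟨Y1 a (hb ha) k, fun O hO => ?_, ?_⟩, fun u hu => ?_,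
    fun y hy hL => by_contra fun hn => ?_⟩
  · filter_upwards [h1, Y2 a (hb ha) k hO] with x hx a1
    exact ⟨_, a1, (w1 x hx a (hb ha) k).2.1⟩
  · exact tendsto_nhds_unique ((e.L.continuous.tendsto _).comp (Y3 a (hb ha) k))
      (tendsto_const_nhds.congr' (h1.mono fun x hx => (w1 x hx a (hb ha) k).2.2.symm))
  · obtain ⟨B, -, hB⟩ := h3 u hu
    obtain ⟨g, g1, g2⟩ := CL.hol_ulim U isOpen_ball (h1.mono hB)
    refine (g1.mono hb).congr fun a ha => tendsto_nhds_unique ?_ (g2 a (hb ha)).1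
    exact (tendsto_finsetSum _ fun k _ => (hu.continuous.tendsto _).comp (Y3 a (hb ha) k)).congr'
      (h1.mono fun x hx => (w3 x hx a (hb ha) u hu).symm)
  push Not at hn
  have ha : e.L (e.z y) ∈ ball e.a e.ρ := hy.2.1
  set a := e.L (e.z y)
  obtain ⟨ε, hε, e1⟩ : ∃ ε : ℝ, 0 < ε ∧ ∀ k, 3 * ε < ‖e.z y - e.z (Y a k)‖ :=
    (eventually_mem_nhdsWithin.and (eventually_all.2 fun k => nhdsWithin_le_nhds
      ((continuous_const_mul (3 : ℝ)).continuousAt.eventually_lt continuousAt_const (by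
        simpa [sub_eq_zero] using fun e' =>
          hn k (e.inj hy.1 (c2 (Y1 a (hb ha) k)) e').symm)) : ∀ᶠ ε in 𝓝[>] (0 : ℝ), _)).exists
  obtain ⟨δ, hδ, h4⟩ := ps_close e.M d (‖e.o‖ + e.r₂) hε
  choose B B0 hB using fun α : Fin e.M → Fin (2 * d + 1) => h3 _ (mon_diff α)
  have hz := e.cont.continuousAt (e.opn.mem_nhds hy.1)
  obtain ⟨x, ⟨hx, a1⟩, y', ⟨⟨a2, a3⟩, a4⟩, a5⟩ := ((h1.and (eventually_all.2 fun k =>
    (Y3 a (hb ha) k).eventually (ball_mem_nhds _ hε))).and (hL _ (inter_mem (inter_mem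
      (c7.mem_nhds hy) (hz (ball_mem_nhds _ hε))) (eventually_all.2 fun α =>
        (e.L.continuous.continuousAt.comp hz) (closedBall_mem_nhds _
          (show 0 < δ * e.ρ / B α from div_pos (mul_pos hδ hρ) (B0 α))))))).exists
  have ha' : e.L (e.v y') ∈ ball e.a e.ρ := a2.2.1
  obtain ⟨i, hi⟩ := w2 x hx _ (hb ha') y' (c8 a2) a5 rfl
  have h9 : ∀ u ∈ e.box, ‖e.z u‖ ≤ ‖e.o‖ + e.r₂ := fun u hu =>
    norm_le_norm_add_const_of_dist_le (mem_ball.1 hu.2.2).le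
  obtain ⟨l, hl⟩ := h4 (fun k => e.v (w x (e.L (e.v y')) k)) (fun k => e.v (w x a k))
    (fun k => ⟨h9 _ (w1 x hx _ (hb ha') k).1, h9 _ (w1 x hx _ (hb ha) k).1⟩) (fun α => by
      rw [← w3 x hx _ (hb ha') _ (mon_diff α), ← w3 x hx _ (hb ha) _ (mon_diff α)]
      refine (CL.hol_lip (by linarith : e.ρ < 2 * e.ρ) (hB α x hx).1 (hB α x hx).2 ha' ha).trans
        ((mul_le_mul_of_nonneg_left (mem_closedBall_iff_norm.1 (a4 α))
          (div_nonneg (B0 α).le (by linarith))).trans_eq ?_)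
      have := B0 α
      rw [show 2 * e.ρ - e.ρ = e.ρ by ring]
      field_simp) i
  rw [hi] at hl
  have a6 := mem_ball_iff_norm.1 (a1 l)
  have a7 := mem_ball_iff_norm'.1 a3
  linarith [e1 l, norm_sub_le_norm_sub_add_norm_sub (e.z y) (e.v y') (e.z (Y a l)),
    norm_sub_le_norm_sub_add_norm_sub (e.v y') (e.v (w x a l)) (e.z (Y a l))]

end Pool.Agent.ZB
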