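import Pool.Agent.P.MP_63735c_ag.SLB
import Pool.Agent.P.MP_63735c_ag.SLC
import Pool.Agent.P.MP_63735c_ag.SLS

/-! The limit set has a holomorphic branch close to almost every fibre. -/

open scoped ComplexOrder ContDiff Matrix Topology ENNReal
open Set Metric MeasureTheory Filter

namespace Pool.Agent.ZB

open Pool.Agent.BP Pool.Agent.SPF Pool.Agent.AB Pool.Agent.CK Pool.Agent.SE Pool.Agent.NL

variable {N n : ℕ} {X Z : Type} [TopologicalSpace X] [TopologicalSpace Z] [T2Space X] [T2Space Z]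
  [CompactSpace Z] [MeasurableSpace X] [BorelSpace X] {A : Atlas X N} {K : Form11 A} {F : Fib A n}
  {φ : X → ℝ} {j : X → Z} {μ : Measure X} [IsFiniteMeasure μ] {h : X → Mat n} {c₀ : ℝ}

/-- Over a ball inside `D` the set `S` contains the graph of `q` as an open part. -/
def Brch {W : Set X} (e : Em A K W φ j) (L : E e.M →L[ℂ] E n) (S : Set Z) (D : Set (E n)) : Prop :=
  ∃ (a₁ : E n) (ρ : ℝ) (q : E n → E e.M), 0 < ρ ∧ ball a₁ ρ ⊆ D ∧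
    DifferentiableOn ℂ q (ball a₁ ρ) ∧ ∀ a ∈ ball a₁ ρ, ∃ y ∈ e.O, y ∈ S ∧ e.z y = q a ∧
      L (q a) = a ∧ ∀ᶠ y' in 𝓝 y, y' ∈ S → q (L (e.z y')) = e.z y'

theorem sl_loc (hj : Continuous j) (hi : Function.Injective j) (hN : 1 ≤ N)
    (hinj : ∀ i, InjOn (A.p i) (A.C i).W) (hμ : IsVolume A μ)
    (hK : ∀ i, ∀ z ∈ (A.C i).W, (K.h i z).PosDef) (hT : F.Tor μ K h c₀) (U : Ultrafilter X)
    (hU : F.W ∈ U) (e : Sz A K F.W φ j n) (hd : Disjoint e.shell (F.LimS j U)) {y : Z}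
    (hy : y ∈ e.core) (h0 : y ∈ F.LimS j U) {D : Set (E n)} (hD : D ∈ 𝓝 (e.L (e.z y))) :
    Brch e.toEm e.L (F.LimS j U) D := by
  obtain ⟨d, Y, h1, h2, h3⟩ := sl_fam hj hi hN hinj hμ hK hT U hU e hd
  obtain ⟨k₀, -⟩ := h3 y hy h0
  have hc := e.cbox_cpt.2.2.2.2.2.2.1
  obtain ⟨a₁, ε, ρ, q, b1, b2, b3, b4, b5⟩ := sl_branch (Y := fun a k => e.z (Y a k))
    (b := ‖e.o‖ + e.r₂) k₀.pos (isOpen_interior.inter isOpen_ball)
    ⟨_, mem_interior_iff_mem_nhds.2 hD, hy.2.1⟩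
    (fun a ha k => norm_le_norm_add_const_of_dist_le (h1 a ha.2 k).1.2.2)
    fun u hu => (h2 u hu).mono inter_subset_right
  refine ⟨a₁, ρ, q, b2, fun a ha => interior_subset (b3 ha).1, b4, fun a ha => ?_⟩
  obtain ⟨c1, ⟨k, c2⟩, -⟩ := b5 a ha
  obtain ⟨d1, d2, d3⟩ := h1 a (b3 ha).2 k
  have d4 : Y a k ∈ e.core := ⟨d1.1, (show e.L (e.z (Y a k)) ∈ _ from d3.symm ▸ (b3 ha).2),
    by_contra fun c => disjoint_left.1 hd ⟨d1.1, d1.2.1, d1.2.2, c⟩ d2⟩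
  have d5 := e.cont.continuousAt (e.opn.mem_nhds d1.1)
  refine ⟨Y a k, d1.1, d2, c2, c2 ▸ d3, ?_⟩
  filter_upwards [hc.mem_nhds d4, d5.eventually (isOpen_ball.mem_nhds (c2 ▸ c1)),
    (e.L.continuous.continuousAt.comp d5).eventually
      (isOpen_ball.mem_nhds (show e.L (e.z (Y a k)) ∈ _ from d3.symm ▸ ha))] with y' f1 f2 f3 f4
  obtain ⟨l, hl⟩ := h3 y' f1 f4
  exact ((b5 _ f3).2.2 l (hl.symm ▸ f2)).symm.trans (congrArg e.z hl)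

theorem sl_gen (hj : Continuous j) (hi : Function.Injective j) (hN : N = 2 * n) (hn : 1 ≤ n)
    (hinj : ∀ i, InjOn (A.p i) (A.C i).W) (hμ : IsVolume A μ)
    (hK : ∀ i, ∀ z ∈ (A.C i).W, (K.h i z).PosDef) (hT : F.Tor μ K h c₀) (U : Ultrafilter X)
    (hU : F.W ∈ U) (e : Em A K F.W φ j) (L : E e.M →L[ℂ] E n) {o : E e.M} {R : ℝ} (hR : 0 < R)
    (hc : IsCompact (e.O ∩ e.z ⁻¹' closedBall o (8 * R))) :
    ∀ᵐ a : E n, ∀ y ∈ e.O, y ∈ F.LimS j U → e.z y ∈ ball o R → L (e.z y) = a →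
      ∀ D ∈ 𝓝 a, Brch e L (F.LimS j U) D := by
  filter_upwards [sl_sz (Fib.packS hj hinj hK hT e) U hU L hR hc] with a ha y hy h0 h1 h2 D hD
  obtain ⟨ρ, r₁, r₂, b1, b2, b3, b4, b5⟩ := ha
  subst h2
  exact sl_loc hj hi (by omega) hinj hμ hK hT U hU
    ⟨e, finSumFinEquiv.trans (finCongr (by omega)), L, L (e.z y), o, ρ, r₁, r₂, b1, b3,
      sbd5_cpt e hc b4⟩
    (disjoint_left.2 fun w hw a => hw.2.2.2 (b5 w hw.1 a hw.2.1 hw.2.2.1))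
    ⟨hy, mem_ball_self b1, ball_subset_ball b2 h1⟩ h0 hD

end Pool.Agent.ZB
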