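import Pool.Agent.P.MP_63735c_ag.SLT
import Pool.Agent.P.MP_63735c_ag.ZBPt

/-! A branch of the limit set in the resolution is isotropic. -/

open scoped ComplexOrder ContDiff Matrix Topology ENNReal
open Set Metric MeasureTheory Filter

namespace Pool.Agent.ZB

open Pool.Agent.BP Pool.Agent.SPF Pool.Agent.AB Pool.Agent.CK Pool.Agent.SE Pool.Agent.NL

variable {N n : ℕ} {X : Type} [TopologicalSpace X] [MeasurableSpace X] {A : Atlas X N} {L : Line A}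
  {Y : Type} [TopologicalSpace Y] [T2Space Y] [CompactSpace Y] {Z : Res L Y} {K : Form11 A}
  {F : Fib A n} {φ : X → ℝ} {μ : Measure X} {h : X → Mat n} {c₀ : ℝ}

theorem sl_iso (hF : Full Z) (hinj : ∀ i, InjOn (A.p i) (A.C i).W) (hT : F.Tor μ K h c₀)
    (U : Ultrafilter X) (hU : F.W ∈ U) (e : Em A K F.W φ Z.j) {i : A.ι} (pr : E e.M →L[ℂ] E N)
    (hp : ∀ y ∈ e.O, pr (e.z y) ∈ Z.W (Z.c i) ∧ Z.p (Z.c i) (pr (e.z y)) = y)
    {s : E N → Matrix (Fin N) (Fin N) ℂ} (hs : ContinuousOn s (Z.W (Z.c i)))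
    (he : EqOn s (A.C i).σ (A.C i).W) {y₀ : Y} (hy : y₀ ∈ e.O) (h0 : y₀ ∈ F.LimS Z.j U)
    (π : E e.M →L[ℂ] E n) {q : E n → E e.M}
    (h2 : ∀ᶠ a in 𝓝 (π (e.z y₀)), DifferentiableAt ℂ q a)
    (h4 : ∀ᶠ y in 𝓝 y₀, y ∈ F.LimS Z.j U → q (π (e.z y)) = e.z y) (a b : E n) :
    pr (fderiv ℂ q (π (e.z y₀)) a) ⬝ᵥ s (pr (e.z y₀)) *ᵥ pr (fderiv ℂ q (π (e.z y₀)) b) = 0 := by
  by_contra hc
  let B : E e.M × E e.M × E e.M → ℂ := fun w => pr (fderiv ℂ q (π w.1) a + w.2.1) ⬝ᵥ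
    s (pr w.1) *ᵥ pr (fderiv ℂ q (π w.1) b + w.2.2)
  have c1 : ContinuousAt (fun w : E e.M × E e.M × E e.M => fderiv ℂ q (π w.1)) (e.z y₀, 0, 0) :=
    ContinuousAt.comp (g := fderiv ℂ q) ((fb9_cd h2).continuousAt_fderiv one_ne_zero)
      (π.continuous.comp continuous_fst).continuousAt
  have c2 : ContinuousAt (fun w : E e.M × E e.M × E e.M => s (pr w.1)) (e.z y₀, 0, 0) :=
    ContinuousAt.comp (g := s) (hs.continuousAt ((Z.isOpen _).mem_nhds (hp _ hy).1))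
      (pr.continuous.comp continuous_fst).continuousAt
  have c3 : ContinuousAt B (e.z y₀, 0, 0) := by
    have e1 : ∀ (v : E n) (f : E e.M × E e.M × E e.M → E e.M), Continuous f → ∀ x, ContinuousAt
        (fun w : E e.M × E e.M × E e.M => pr (fderiv ℂ q (π w.1) v + f w) x) (e.z y₀, 0, 0) :=
      fun v f hf x => (continuous_apply x).continuousAt.comp (pr.continuous.continuousAt.comp
        ((c1.clm_apply continuousAt_const).add hf.continuousAt))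
    have e2 : ∀ x, ContinuousAt (fun w : E e.M × E e.M × E e.M =>
        ∑ y, s (pr w.1) x y * pr (fderiv ℂ q (π w.1) b + w.2.2) y) (e.z y₀, 0, 0) := fun x =>
      tendsto_finsetSum _ fun y _ => (continuousAt_pi.1 (continuousAt_pi.1 c2 x) y).mul
        (e1 b (fun w => w.2.2) (by fun_prop) y)
    exact tendsto_finsetSum _ fun x _ => (e1 a (fun w => w.2.1) (by fun_prop) x).mul (e2 x)
  have c4 : ∀ᶠ w in 𝓝 ((e.z y₀, 0, 0) : E e.M × E e.M × E e.M), B w ≠ 0 :=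
    c3.eventually_ne (by simpa only [B, add_zero] using hc)
  obtain ⟨ε, hε, c5⟩ := Metric.eventually_nhds_iff.1 c4
  have n1 := (sq_nonneg _).trans (nsq_le a).1
  have n2 := (sq_nonneg _).trans (nsq_le b).1
  obtain ⟨κ, hκ, k1⟩ : ∃ κ : ℝ, 0 < κ ∧ κ * (nsq a + nsq b + 1) = ε ^ 2 :=
    ⟨ε ^ 2 / (nsq a + nsq b + 1), by positivity, div_mul_cancel₀ _ (by positivity)⟩
  obtain ⟨y, ⟨x, hx, rfl, hz⟩, f1, f2⟩ := ((tanS Z.j_cont hinj hT U hU e hy h0 π h2 h4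
    hκ).and_eventually ((show ∀ᶠ y in 𝓝 y₀, y ∈ e.O from e.opn.mem_nhds hy).and
      ((e.cont.continuousAt (e.opn.mem_nhds hy)).eventually (ball_mem_nhds _ hε)))).exists
  obtain ⟨g1, g2⟩ := hF.mem (hp _ f1).1 (hp _ f1).2
  generalize hw : pr (e.z (Z.j x)) = w at g1 g2
  subst g2
  replace hz := hz i w g1 rfl
  have g3 : w ∈ dom A (Z.j ⁻¹' e.O) i := ⟨g1, f1⟩
  have g4 := (dom_open A (e.opn.preimage Z.j_cont) i).mem_nhds g3
  have g5 := (pr.hasFDerivAt.comp w ((e.hol i).differentiableAt g4).hasFDerivAt).unique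
    ((hasFDerivAt_id w).congr_of_eventuallyEq (mem_of_superset g4 fun v hv =>
      Z.inj _ (hp _ hv.2).1 (Z.sub i hv.1) ((hp _ hv.2).2.trans (Z.p_eq i v hv.1).symm)))
  have g6 : ∀ v, pr (fderiv ℂ (fun w => e.v (A.p i w)) w v) = v := fun v =>
    congrArg (fun T : E N →L[ℂ] E N => T v) g5
  have d1 := LinearMap.injective_iff_surjective.1 (slt_inj e ⟨g1, hx⟩ f1 hz)
  obtain ⟨τ, e1⟩ := d1 a
  obtain ⟨τ', e2⟩ := d1 b
  have d2 := hz τ
  have d3 := hz τ'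
  rw [show π (fderiv ℂ (fun w => e.v (A.p i w)) w (Vf A F.g i w *ᵥ τ)) = a from e1] at d2
  rw [show π (fderiv ℂ (fun w => e.v (A.p i w)) w (Vf A F.g i w *ᵥ τ')) = b from e2] at d3
  have d4 : ∀ v : E e.M, nsq v < ε ^ 2 → dist v 0 < ε := fun v hv => by
    rw [dist_zero_right]
    exact lt_of_pow_lt_pow_left₀ 2 hε.le ((nsq_le v).1.trans_lt hv)
  refine c5 (y := (_, _, _)) (max_lt f2 (max_lt (d4 _ (d2.trans_lt (by nlinarith)))
    (d4 _ (d3.trans_lt (by nlinarith))))) ?_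
  have d5 : (A.C i).σ w * Vf A F.g i w = (Jg A F.g i w)ᵀ :=
    Matrix.mul_nonsing_inv_cancel_left _ _ ((A.C i).σ_det w g1).isUnit
  simp only [B, add_sub_cancel, g6]
  rw [hw, he g1, Matrix.mulVec_mulVec, d5, dotProduct_comm, Matrix.mulVec_transpose,
    ← Matrix.dotProduct_mulVec, Matrix.mulVec_mulVec, hT.iso i w ⟨g1, hx⟩, Matrix.zero_mulVec,
    dotProduct_zero]

end Pool.Agent.ZB
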