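import Pool.Agent.P.MP_63735c_ag.SF0
import Pool.Agent.P.MP_63735c_ag.SLE
import Pool.Agent.P.MP_63735c_ag.SLG
import Pool.Agent.P.MP_63735c_ag.SLI

/-! The limit sets in a singular space are Lagrangian. -/

open scoped ComplexOrder ContDiff Matrix Topology ENNReal
open Set Metric MeasureTheory Filter

namespace Pool.Agent.ZB

open Pool.Agent.BP Pool.Agent.SPF Pool.Agent.AB Pool.Agent.CK Pool.Agent.SE Pool.Agent.NL

/-- A projection that is a local isomorphism on a submanifold. -/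
theorem slz_str {M d : ℕ} {γ : E d → E M} {t : E d} (h2 : ∀ᶠ u in 𝓝 t, DifferentiableAt ℂ γ u)
    (h3 : Function.Injective (fderiv ℂ γ t)) : ∃ (π : E M →L[ℂ] E d) (g : E d → E d),
      map (fun u => π (γ u)) (𝓝 t) = 𝓝 (π (γ t)) ∧ ∀ᶠ u in 𝓝 t, g (π (γ u)) = u := by
  obtain ⟨l, hl⟩ := LinearMap.exists_leftInverse_of_injective
    (fderiv ℂ γ t : E d →ₗ[ℂ] E M) (LinearMap.ker_eq_bot.2 h3)
  let π : E M →L[ℂ] E d := LinearMap.toContinuousLinearMap l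
  have a1 : ContDiffAt ℂ 1 (fun u => π (γ u)) t := π.contDiff.contDiffAt.comp t (fb9_cd h2)
  have a2 : HasFDerivAt (fun u => π (γ u))
      ((ContinuousLinearEquiv.refl ℂ (E d) : E d ≃L[ℂ] E d) : E d →L[ℂ] E d) t :=
    (π.hasFDerivAt.comp t h2.self_of_nhds.hasFDerivAt).congr_fderiv
      (ContinuousLinearMap.ext fun v => LinearMap.congr_fun hl v)
  have a3 := a1.hasStrictFDerivAt' a2 one_ne_zero
  exact ⟨π, _, a3.map_nhds_eq_of_equiv, a3.eventually_left_inverse⟩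

theorem slz_mat {N d : ℕ} {δ : E d → E N} {v : E d} {s : Matrix (Fin N) (Fin N) ℂ}
    (h : ∀ a b, fderiv ℂ δ v a ⬝ᵥ s *ᵥ fderiv ℂ δ v b = 0) : (jac δ v)ᵀ * s * jac δ v = 0 := by
  ext a b
  have := h (Pi.single a 1) (Pi.single b 1)
  rw [← bpt2_jac, ← bpt2_jac, Matrix.mulVec_mulVec, ← Matrix.vecMul_transpose,
    ← Matrix.dotProduct_mulVec, Matrix.mulVec_mulVec, ← Matrix.mul_assoc] at this
  simpa using this

variable {N n : ℕ} {Y : Type} [TopologicalSpace Y] [T2Space Y] [CompactSpace Y]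

/-- A local embedding of `Y` with a compact ball and two projections. -/
theorem slz_em {X : Type} [TopologicalSpace X] {A : Atlas X N} {L : Line A} {Z : Res L Y}
    (h : Full Z) (W : Set X) {f : Y → E n} {V : Set Y} (hV : IsOpen V) (hc : ContinuousOn f V)
    (hf : HolR Z V f) {y : Y} (hy : y ∈ V) :
    ∃ (e : Em A (resK Z) W 0 Z.j) (i : A.ι) (L' : E e.M →L[ℂ] E n) (pr : E e.M →L[ℂ] E N) (r : ℝ),
      0 < r ∧ y ∈ e.O ∧ e.O ⊆ V ∧ IsCompact (e.O ∩ e.z ⁻¹' closedBall (e.z y) (8 * r)) ∧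
      (∀ y' ∈ e.O, L' (e.z y') = f y') ∧
      ∀ y' ∈ e.O, pr (e.z y') ∈ Z.W (Z.c i) ∧ Z.p (Z.c i) (pr (e.z y')) = y' := by
  obtain ⟨i, w, hw, rfl⟩ := h.cover y
  obtain ⟨O, ζ, a1, a2, a3, -, a5⟩ := emY h hV hc hf hw hy
  obtain ⟨O', r, b1, b2, b3, b4, b5⟩ := slt_shrink a5.opn a5.cont a5.inj a1
  refine ⟨(a5.mono b1 b3).em W, i, pr2 N n, pr1 N n, r / 4, by positivity, b2, b3.trans a2,
    (show 2 * r = 8 * (r / 4) by ring) ▸ b5, fun y' _ => pr2_ap _ _, fun y' hy' => ?_⟩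
  exact (show ζ y' = pr1 N n (ap (ζ y') (f y')) from (pr1_ap _ _).symm) ▸ a3 y' (b3 hy')

variable {X : Type} [TopologicalSpace X] [T2Space X] [CompactSpace X] {R : Set X}
  [MeasurableSpace R] [BorelSpace R] {A : Atlas R N} {B : Amb R A} {L : Line A} {μ : Measure R}
  [IsFiniteMeasure μ] {Z : Res L Y}

theorem lim_lagS (P : Over B Z) (hN : N = 2 * n) (hn : 1 ≤ n)
    (hinj : ∀ i, InjOn (A.p i) (A.C i).W) (hμ : IsVolume A μ) {F : Fib A n} {h : R → Mat n}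
    {c₀ : ℝ} (hT : F.Tor μ (resK Z) h c₀) (U : Ultrafilter R) (hU : F.W ∈ U) :
    IsLagS P n (F.LimS Subtype.val U) := by
  intro α d γ t x hx h2 h3 h4
  obtain ⟨O, o1, -, o3⟩ := emX P hx.2
  obtain rfl : d = n :=
    lim_dimS continuous_subtype_val hinj (resK_pos Z) hT U hU (o3.em F.W) o1 hx.1 h2 h3 h4
  refine ⟨rfl, frequently_iff.2 fun {S} hS => ?_⟩
  obtain ⟨π, g, b1, b2⟩ := slz_str h2 h3
  obtain ⟨S₁, s1, s2, s3⟩ := _root_.mem_nhds_iff.1 (inter_mem hS (h2.and b2))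
  obtain ⟨O₁, c1, c2, c3⟩ := mem_nhdsWithin.1
    (show γ '' S₁ ∈ map (B.z α) (𝓝[F.LimS Subtype.val U] x) from
      h4 ▸ image_mem_map (s2.mem_nhds s3))
  obtain ⟨Q, hQ, q1, q2⟩ := exists_compact_subset (c1.inter (B.V_open α)) ⟨c2, hx.2⟩
  obtain ⟨-, d2, d3⟩ := P.holR α π
  have hV := (c1.inter (B.V_open α)).preimage P.cont
  choose e i L' pr r e1 e2 e3 e4 e5 e6 using fun y : P.ρ ⁻¹' (O₁ ∩ B.V α) =>
    slz_em P.toFull F.W hV (d2.mono fun _ a => a.2) (fun i w hw a => d3 i w hw a.2) y.2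
  obtain ⟨T, hT'⟩ := ((Fib.limS_closed (F := F) (j := Z.j) U).inter
    (hQ.isClosed.preimage P.cont)).isCompact.elim_finite_subcover
      (fun y => (e y).O ∩ (e y).z ⁻¹' ball ((e y).z y) (r y))
      (fun y => (e y).cont.isOpen_inter_preimage (e y).opn isOpen_ball) fun y hy =>
        mem_iUnion.2 ⟨⟨y, q2 hy.2⟩, e2 _, mem_ball_self (e1 _)⟩
  have f1 : (fun u => π (γ u)) '' (S₁ ∩ γ ⁻¹' (B.z α '' (F.LimS Subtype.val U ∩ Q))) ∈
      𝓝 (π (γ t)) := b1 ▸ image_mem_map (inter_mem (s2.mem_nhds s3)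
    (show _ ∈ map γ (𝓝 t) from h4 ▸ image_mem_map
      (inter_mem_nhdsWithin _ (mem_interior_iff_mem_nhds.1 q1))))
  obtain ⟨a, f2, f3⟩ := (Measure.dense_of_ae ((eventually_all_finset T).2 fun y _ =>
    sl_gen Z.j_cont Z.j_inj hN hn hinj hμ (resK_pos Z) hT U hU (e y) (L' y) (e1 y)
      (e4 y))).inter_open_nonempty _ isOpen_interior ⟨_, mem_interior_iff_mem_nhds.2 f1⟩
  obtain ⟨u, ⟨-, x', ⟨g1, g2⟩, g3⟩, g4⟩ := interior_subset f2
  obtain ⟨y', g5, rfl⟩ := P.lim F U ▸ g1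
  obtain ⟨y, g6, g7⟩ := mem_iUnion₂.1 (hT' ⟨g5, g2⟩)
  obtain ⟨a₁, ρ, q, k1, k2, k3, k4⟩ := f3 y g6 y' g7.1 g5 g7.2
    ((e5 y y' g7.1).trans (g3 ▸ g4)) _ (mem_interior_iff_mem_nhds.1 f2)
  obtain ⟨u₁, ⟨l1, -⟩, rfl⟩ := k2 (mem_ball_self k1)
  obtain ⟨s, m1, m2⟩ := P.σ_ext (i y)
  have m3 : ContinuousOn s (Z.W (Z.c (i y))) :=
    continuousOn_pi.2 fun a => continuousOn_pi.2 fun b => (m1 a b).continuousOn
  refine ⟨u₁, (s1 l1).1, i y, fun v => pr y (q (π (γ v))), s, m3, m2, ?_⟩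
  filter_upwards [s2.mem_nhds l1, (π.continuous.continuousAt.comp
    (s1 l1).2.1.continuousAt).eventually (ball_mem_nhds _ k1)] with v n1 n2
  obtain ⟨w, w1, w2, w3, w4, w5⟩ := k4 _ n2
  have p0 : L' y ((e y).z w) = π (γ v) := w3 ▸ w4
  have p1 : ∀ᶠ a in 𝓝 (π (γ v)), DifferentiableAt ℂ q a :=
    k3.eventually_differentiableAt (isOpen_ball.mem_nhds n2)
  have p2 := (pr y).hasFDerivAt.comp v (p1.self_of_nhds.hasFDerivAt.comp v
    (π.hasFDerivAt.comp v (s1 n1).2.1.hasFDerivAt))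
  have p3 : pr y (q (π (γ v))) = pr y ((e y).z w) := congrArg _ w3.symm
  obtain ⟨v', p4, p5⟩ := c3 ⟨(e3 y w1).1, P.lim F U ▸ mem_image_of_mem _ w2⟩
  have p6 : v' = v := by
    rw [← (s1 p4).2.2, p5, ← e5 y w w1, p0, (s1 n1).2.2]
  refine ⟨p2.differentiableAt, p3 ▸ (e6 y w w1).1, ?_, ?_, slz_mat fun a b => ?_⟩
  · rw [p3, (e6 y w w1).2]
    exact (e3 y w1).2
  · rw [p3, (e6 y w w1).2, ← p5, p6]
  · have := sl_iso P.toFull hinj hT U hU (e y) (pr y) (e6 y) m3 m2 w1 w2 (L' y) (p0 ▸ p1) w5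
      (π (fderiv ℂ γ v a)) (π (fderiv ℂ γ v b))
    rw [p0, ← p3] at this
    rw [show fderiv ℂ (fun v => pr y (q (π (γ v)))) v = _ from p2.fderiv]
    exact this

end Pool.Agent.ZB
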