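import Pool.Agent.P.MP_63735c_ag.SF1
import Pool.Agent.P.MP_63735c_ag.NR4

/-! The map given by finitely many quotients of sections on a singular space. -/

open scoped ComplexOrder ContDiff Matrix Topology ENNReal
open Set Metric MeasureTheory Filter

namespace Pool.Agent.ZB

open Pool.Agent.BP Pool.Agent.SPF Pool.Agent.AB Pool.Agent.CK Pool.Agent.SE Pool.Agent.NL

variable {N r : ℕ} {X : Type} [TopologicalSpace X] {R : Set X} {A : Atlas R N} {B : Amb R A}
  {K : Form11 A} {L : Line A} {k : ℕ} {s : Fin r → A.ι → E N → ℂ} {t : A.ι → E N → ℂ} {x : X}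

/-- The quotients of the sections `s l` by the section `t`. -/
noncomputable def gS (A : Atlas R N) (s : Fin r → A.ι → E N → ℂ) (t : A.ι → E N → ℂ) (y : X) :
    E r := fun l => rat A (s l) t y

theorem gS_reg (hs : ∀ l, L.IsSection k (s l)) (ht : L.IsSection k t) {i : A.ι} {z : E N}
    (hz : z ∈ (A.C i).W) (h : t i z ≠ 0) : gS A s t (A.p i z) = fun l => s l i z / t i z :=
  funext fun l => rat_reg (hs l) ht hz h

theorem sn8_nrm (hs : ∀ l, L.IsSection k (s l)) (ht : L.IsSection k t) {i : A.ι} {z : E N}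
    (hz : z ∈ (A.C i).W) (h : t i z ≠ 0) :
    nrm L k t (A.p i z) * nsq (fun l => s l i z / t i z) = ∑ l, nrm L k (s l) (A.p i z) := by
  rw [nsq, Finset.mul_sum]
  refine Finset.sum_congr rfl fun l _ => ?_
  have : ‖t i z‖ ≠ 0 := norm_ne_zero_iff.2 h
  rw [nrm_eq ht hz, nrm_eq (hs l) hz, norm_div]
  field_simp

namespace Sg

variable (S : Sg B K L) (hs : ∀ l, L.IsSection k (s l)) (ht : L.IsSection k t)
include S hs ht

theorem gS_cont (h : ¬ VanS L k t x) : ContinuousAt (gS A s t) x :=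
  continuousAt_pi.2 fun l => S.rat_cont (hs l) ht h

theorem gS_fib (sp : ∀ T, L.IsSection k T → ∃ c : Fin r → ℂ, ∀ i, ∀ y ∈ (A.C i).W,
    T i y = ∑ a, c a * s a i y) (h : ¬ VanS L k t x) (y : X) :
    y ∈ FibreS L k x ↔ ¬ VanS L k t y ∧ gS A s t y = gS A s t x := by
  constructor
  · intro hy
    have n1 : ¬ VanS L k t y := fun e => h ((hy _ ht).1 e)
    refine ⟨n1, funext fun l => ?_⟩
    have a1 := sf1_lin (hs l) ht (rat A (s l) t x)
    have a2 := (hy _ a1).2 ((S.rat_zero a1 ht h).1 (by rw [S.rat_lin (hs l) ht h, sub_self]))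
    rwa [← S.rat_zero a1 ht n1, S.rat_lin (hs l) ht n1, sub_eq_zero] at a2
  · rintro ⟨n1, hy⟩ T hT
    obtain ⟨c, hc⟩ := sp T hT
    have e : ∀ a, rat A (s a) t y = rat A (s a) t x := congrFun hy
    rw [← S.rat_zero hT ht n1, ← S.rat_zero hT ht h, S.rat_sum hs c hT hc ht n1,
      S.rat_sum hs c hT hc ht h]
    simp only [e]

theorem gS_closed [CompactSpace X] (sp : ∀ T, L.IsSection k T → ∃ c : Fin r → ℂ, ∀ i,
    ∀ y ∈ (A.C i).W, T i y = ∑ a, c a * s a i y) (hb : BpfS L k) (b : E r) (τ : ℝ) :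
    IsClosed {y | ¬ VanS L k t y ∧ nsq (gS A s t y - b) ≤ τ} := by
  obtain ⟨c, O, c0, -, hO, hc⟩ := S.cpt_lb hs isCompact_univ fun x _ => by_contra fun hn => by
    obtain ⟨T, a1, a2⟩ := hb x
    obtain ⟨c, hc⟩ := sp T a1
    push Not at hn
    have := S.rat_sum hs c a1 hc a1 a2
    simp [S.rat_self a1 a2, fun a => (S.rat_zero (hs a) a1 a2).2 (hn a)] at this
  refine isClosed_of_closure_subset fun y hy => ?_
  have hn : Continuous fun w : E r => nsq (w - b) :=
    nsq_smooth.continuous.comp (continuous_id.sub continuous_const)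
  have n1 : ¬ VanS L k t y := fun e => by
    obtain ⟨D, hD⟩ : ∃ D, D = 2 * |τ| + 2 * nsq b + 1 := ⟨_, rfl⟩
    have D0 : 0 < D := by linarith [abs_nonneg τ, nr4_nonneg b]
    obtain ⟨Q, q1, q2, q3⟩ := _root_.eventually_nhds_iff.1 (eventually_comap.1
      (((vanS_iff ht).1 e).eventually_lt_const (div_pos c0 D0)))
    obtain ⟨y', y1, y2, y3⟩ := mem_closure_iff.1 hy Q q2 q3
    have := S.neBot y'
    obtain ⟨c', c1, c2⟩ := S.nvan_lb ht y2
    have l1 : Tendsto (fun v : R => nsq fun l => gl A (fun i z => s l i z / t i z) v) (nr R y')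
        (𝓝 (nsq (gS A s t y'))) := (nsq_smooth.continuous.tendsto _).comp
      (tendsto_pi_nhds.2 fun l => S.rat_tendsto (hs l) ht y2)
    have l2 : nsq (gS A s t y' - b + b) ≤ 2 * nsq (gS A s t y' - b) + 2 * nsq b := by
      have := nr4_sub (gS A s t y' - b) (-b)
      rwa [sub_neg_eq_add, show nsq (-b) = nsq b by simp [nsq]] at this
    rw [sub_add_cancel] at l2
    obtain ⟨v, ⟨v1, v2⟩, v3⟩ := ((c2.and (l1.eventually_lt_const (show _ < D by
      linarith [le_abs_self τ]))).and (preimage_mem_comap (q2.mem_nhds y1))).exists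
    obtain ⟨i, z, hz, rfl⟩ := A.cover v
    have h0 : t i z ≠ 0 := fun e => (van_nrm ht _).2 (c1.trans_le v1) ((van_iff ht hz).2 e)
    simp only [gl_rat (hs _) ht hz] at v2
    have a1 := (hc _ (hO (mem_univ _))).trans_eq (sn8_nrm hs ht hz h0).symm
    have a2 := (lt_div_iff₀ D0).1 (q1 _ v3 _ rfl)
    exact (a1.trans (mul_le_mul_of_nonneg_left v2.le (sf1_nn ht _))).not_gt a2
  exact ⟨n1, ContinuousWithinAt.closure_le hy
    (hn.continuousAt.comp (S.gS_cont hs ht n1)).continuousWithinAt continuousWithinAt_const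
    fun _ h => h.2⟩

omit hs ht in
/-- A holomorphic function is bounded on a closed set. -/
theorem hol_bd [CompactSpace X] {V C : Set X} (hV : IsOpen V) (hC : IsClosed C) (hCV : C ⊆ V)
    {h : R → ℂ} (hh : HolOn A (Subtype.val ⁻¹' V) h) :
    ∃ b : ℝ, 0 ≤ b ∧ ∀ y : R, (y : X) ∈ C → ‖h y‖ ≤ b := by
  obtain ⟨b, b0, hb⟩ := CS.cpt_unif (X := X)
    (fun b x => x ∈ C → ∀ hx : x ∈ R, ‖h ⟨x, hx⟩‖ ≤ b)
    (fun _ _ _ e h a hx => (h a hx).trans e) fun x => by
      by_cases hx : x ∈ C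
      · obtain ⟨α, hα⟩ := B.cover x
        obtain ⟨F, f1, f2⟩ := S.nor α x hα V hV (hCV hx) h hh
        refine ⟨‖F (B.z α x)‖ + 1, ?_⟩
        filter_upwards [f2, ((f1.self_of_nhds.continuousAt.comp ((B.cont α).continuousAt
          ((B.V_open α).mem_nhds hα))).norm).eventually_lt continuousAt_const
            (lt_add_one ‖F (B.z α x)‖)] with y a1 a2 _ hy
        rw [a1 hy]
        exact a2.le
      · exact ⟨0, mem_of_superset (hC.isOpen_compl.mem_nhds hx) fun y hy a => (hy a).elim⟩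
  exact ⟨b, b0, fun y hy => hb y hy y.2⟩

end Sg

end Pool.Agent.ZB
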