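import Pool.Agent.P.MP_63735c_ag.SN7
import Pool.Agent.P.MP_63735c_ag.SN8

/-! Functions near a fibre in a singular space come from the image. -/

open scoped ComplexOrder ContDiff Matrix Topology ENNReal
open Set Metric MeasureTheory Filter

namespace Pool.Agent.ZB

open Pool.Agent.BP Pool.Agent.SPF Pool.Agent.AB Pool.Agent.CK Pool.Agent.SE Pool.Agent.NL

variable {N : ℕ} {X : Type} [TopologicalSpace X] [T2Space X] [CompactSpace X] {R : Set X}
  [PreconnectedSpace R] [MeasurableSpace R] [BorelSpace R] {A : Atlas R N} {B : Amb R A}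
  {K : Form11 A} {L : Line A} {μ : Measure R} [IsFiniteMeasure μ]

/-- The identity over a small ball. -/
theorem snz_id (U : Up A μ L) (hμ : IsVolume A μ) (S : Sg B K L) (hc : SB.Cov L) {d : ℕ}
    (hd : 1 ≤ d) (r : ℕ) : ∃ e : ℕ, 1 ≤ e ∧ ∀ (s : Fin r → A.ι → E N → ℂ) (t : A.ι → E N → ℂ)
      (b : E r) (τ C : ℝ) (h : R → ℂ), (∀ l, L.IsSection (U.m * d) (s l)) →
      L.IsSection (U.m * d) t → (∃ x, ¬ VanS L (U.m * d) t x) → 0 < τ → τ ≤ 1 →
      (∀ i, ∀ z ∈ (A.C i).W, t i z ≠ 0 → nsq ((fun l => s l i z / t i z) - b) ≤ 4 * τ →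
        DifferentiableAt ℂ (fun w => h (A.p i w)) z ∧ ‖h (A.p i z)‖ ≤ C) →
      ∃ (m : ℕ) (T : Fin m → A.ι → E N → ℂ) (u : E r → E m),
        (∀ a, L.IsSection (U.m * d * e) (T a)) ∧ DifferentiableOn ℂ u (Bl 0 (τ / 4)) ∧
        ∀ i, ∀ z ∈ (A.C i).W, t i z ≠ 0 → (fun l => s l i z / t i z) - b ∈ Bl 0 (τ / 4) →
          h (A.p i z) * t i z ^ e = ∑ a, u ((fun l => s l i z / t i z) - b) a * T a i z := by
  have hB := bdd_of S.kah S.nor S.car
  have hS : SB.SecBd L := fun j s hs => (hB j s hs).imp fun b hb i z hz => nrm_eq hs hz ▸ hb _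
  obtain ⟨j, hj1, hj⟩ := sn_lim N r
  obtain ⟨j', hj'⟩ : ∃ j', j' = ⌈U.M⌉₊ + U.m * d := ⟨_, rfl⟩
  refine ⟨j' + j, by omega, fun s t b τ C h hs ht ⟨x, hx⟩ τ0 τ1 hh => ?_⟩
  obtain ⟨U', m', M', hU⟩ := up_cut U hμ hc hS ht (by
    obtain ⟨c, c0, c1⟩ := S.nvan_lb ht hx
    have := S.neBot x
    exact c1.exists.imp fun y hy => (c0.trans_le hy).ne')
  have hM : U'.M ≤ (d * j' : ℕ) := by
    have : (j' : ℝ) ≤ (d * j' : ℕ) := Nat.cast_le.2 (Nat.le_mul_of_pos_left _ hd)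
    rw [M']
    refine le_trans ?_ this
    rw [hj', Nat.cast_add]
    linarith [Nat.le_ceil U.M]
  rw [← m'] at hs ht ⊢
  obtain ⟨w₀, w1, w2, w3⟩ := U'.ratio ht
  have hg : ∀ i, ∀ z ∈ U'.D.W i, gS A s t (A.p i z) - b = (fun l => s l i z / t i z) - b :=
    fun i z hz => by rw [gS_reg hs ht hz.1 (hU i z hz)]
  have hq : ∀ i, ∀ z ∈ (A.C i).W, t i z ≠ 0 →
      DifferentiableAt ℂ (fun z => (fun l => s l i z / t i z) - b) z := fun i z hz h0 =>
    (differentiableAt_pi.2 fun l => by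
      simp only [div_eq_mul_inv]
      exact (((hs l).1 i).differentiableAt ((A.C i).isOpen.mem_nhds hz)).mul
        (((ht.1 i).differentiableAt ((A.C i).isOpen.mem_nhds hz)).inv h0)).sub_const b
  let G : Gm U' r := ⟨fun y => gS A s t y - b, fun i z hz =>
    (hq i z hz.1 (hU i z hz)).differentiableWithinAt.congr (hg i) (hg i z hz)⟩
  obtain ⟨C₁, hC₁⟩ := hB _ t ht
  choose C₂ hC₂ using fun l => hB _ _ (hs l)
  obtain ⟨m, T, u, T1, u1, u2⟩ := hj G (d * j') d w₀ (fun y => h y * w₀ y ^ j') 0 τ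
    (C ^ 2 * |C₁| ^ j') (C₁ * (1 + 2 * nsq b) + 2 * ∑ l, C₂ l) hμ S.kah.isKahler.posDef
    S.kah.isKahler.bd11 hc hS hM w1 (fun y hy => by
      obtain ⟨i, z, hz, rfl⟩ := A.cover y
      have a1 := sn8_nrm hs ht hz (hU i z ⟨hz, hy⟩)
      have a2 := mul_le_mul_of_nonneg_left (nr4_sub (fun l => s l i z / t i z) b)
        (sf1_nn ht (A.p i z))
      have a3 := mul_le_mul_of_nonneg_right (hC₁ (A.p i z))
        (show 0 ≤ 1 + 2 * nsq b by linarith [nr4_nonneg b])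
      have a4 := Finset.sum_le_sum fun l (_ : l ∈ Finset.univ) => hC₂ l (A.p i z)
      rw [w3 _ hy, show G.g (A.p i z) = _ from hg i z ⟨hz, hy⟩]
      linarith)
    ⟨by simp, τ0, τ1, by positivity, fun i z hz a => by
      rw [sub_zero, show G.g (A.p i z) = _ from hg i z hz] at a
      exact (hh i z hz.1 (hU i z hz) a).1.mul
        (((w1 i).differentiableAt ((U'.D.isOpen i).mem_nhds hz)).pow j'), fun y hy a => by
      obtain ⟨i, z, hz, rfl⟩ := A.cover y
      rw [sub_zero, show G.g (A.p i z) = _ from hg i z ⟨hz, hy⟩] at a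
      have a1 := pow_le_pow_left₀ (norm_nonneg _) (hh i z hz (hU i z ⟨hz, hy⟩) a).2 2
      have a2 : ‖w₀ (A.p i z)‖ ^ 2 ≤ |C₁| * Real.exp (d * U'.φ (A.p i z)) := by
        rw [← div_le_iff₀ (Real.exp_pos _), div_eq_mul_inv, ← Real.exp_neg, w3 _ hy]
        exact (hC₁ _).trans (le_abs_self _)
      have a3 := pow_le_pow_left₀ (sq_nonneg _) a2 j'
      rw [mul_pow, ← Real.exp_nat_mul] at a3
      refine le_of_eq_of_le ?_ ((mul_le_mul a1 a3 (by positivity) (sq_nonneg _)).trans_eq ?_)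
      · rw [norm_mul, norm_pow]
        ring
      · push_cast
        ring_nf⟩
  rw [show U'.m * (d * j' + d * j) = U'.m * d * (j' + j) by ring] at T1
  refine ⟨m, T, u, T1, u1, fun i z hz h0 hb => ?_⟩
  have := mem_closure_iff_nhdsWithin_neBot.1 (U'.dense_chart hμ i hz)
  have hn := (A.C i).isOpen.mem_nhds hz
  have c1 := (hq i z hz h0).continuousAt
  have c2 := (Bl_open 0 (τ / 4)).mem_nhds hb
  have c3 : nsq ((fun l => s l i z / t i z) - b) ≤ 4 * τ := by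
    have : nsq (_ - 0) < τ / 4 := hb
    rw [sub_zero] at this
    linarith
  refine tendsto_nhds_unique_of_eventuallyEq (l := 𝓝[U'.D.W i] z)
    (((hh i z hz h0 c3).1.continuousAt.mul
      (((ht.1 i).continuousOn.continuousAt hn).pow _)).mono_left nhdsWithin_le_nhds)
    ((tendsto_finsetSum _ fun a _ => ((continuousAt_pi.1
      ((u1.continuousOn.continuousAt c2).comp_of_eq c1 rfl) a).mul
        (((T1 a).1 i).continuousOn.continuousAt hn)).tendsto).mono_left nhdsWithin_le_nhds) ?_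
  filter_upwards [self_mem_nhdsWithin, nhdsWithin_le_nhds (c1 c2)] with w hw a
  have a1 := u2 i w hw (by rw [show G.g (A.p i w) = _ from hg i w hw]; exact a)
  rw [show G.g (A.p i w) = _ from hg i w hw] at a1
  refine Eq.trans ?_ a1
  simp only [Pi.mul_apply, Pi.pow_apply, w2 i w hw]
  ring

theorem nr_steinS (U : Up A μ L) (hμ : IsVolume A μ) (S : Sg B K L) (hc : SB.Cov L) {d : ℕ}
    (hd : 1 ≤ d) (hb : BpfS L (U.m * d)) : ∃ e : ℕ, 1 ≤ e ∧
      ((∀ x, FibreS L (U.m * d * e) x = FibreS L (U.m * d) x) → IsSteinS L (U.m * d * e)) := by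
  have hS : SB.SecBd L := fun j s hs => (bdd_of S.kah S.nor S.car j s hs).imp
    fun b hb i z hz => nrm_eq hs hz ▸ hb _
  obtain ⟨r, c, ζ, s, -, hs, s3⟩ := sec_spanS U hμ hc hS dense_univ (U.m * d)
  obtain ⟨e, he, ht⟩ := snz_id U hμ S hc hd r
  refine ⟨e, he, fun hF x V h hV hxV hh => ?_⟩
  rw [hF] at hxV ⊢
  obtain ⟨t, t1, t2⟩ := hb x
  obtain ⟨b, hbd⟩ : ∃ b, b = gS A s t x := ⟨_, rfl⟩
  have hfib := S.gS_fib hs t1 (fun T hT => ⟨_, s3 T hT⟩) t2
  have hcl := S.gS_closed hs t1 (fun T hT => ⟨_, s3 T hT⟩) hb b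
  rw [← hbd] at hfib
  have hn : ContinuousOn (fun y => nsq (gS A s t y - b)) {y | ¬ VanS L (U.m * d) t y} :=
    fun y hy => (nsq_smooth.continuous.continuousAt.comp
      ((S.gS_cont hs t1 hy).sub continuousAt_const)).continuousWithinAt
  obtain ⟨τ, τ0, τ1, τ2⟩ : ∃ τ : ℝ, 0 < τ ∧ τ ≤ 1 ∧
      {y | ¬ VanS L (U.m * d) t y ∧ nsq (gS A s t y - b) ≤ 4 * τ} ⊆ V := by
    obtain ⟨a, d0, d1⟩ := ((hcl 4).isCompact.diff hV).exists_forall_le' (a := 0)
      (hn.mono fun y hy => hy.1.1) fun y hy =>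
        (pow_pos (norm_pos_iff.2 (sub_ne_zero.2 fun e =>
          hy.2 (hxV ((hfib y).2 ⟨hy.1.1, e⟩)))) 2).trans_le (norm_sq_le_nsq _)
    refine ⟨min 1 (a / 8), by positivity, min_le_left _ _, fun y ⟨a1, a2⟩ => by_contra fun a3 => ?_⟩
    have := d1 y ⟨⟨a1, by linarith [min_le_left 1 (a / 8)]⟩, a3⟩
    linarith [min_le_right 1 (a / 8)]
  obtain ⟨C, -, hC⟩ := S.hol_bd hV (hcl _) τ2 hh
  obtain ⟨m, T, u, T1, u1, u2⟩ := ht s t b τ C h hs t1 ⟨x, t2⟩ τ0 τ1 fun i z hz h0 a => by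
    have a1 : (A.p i z : X) ∈ {y | ¬ VanS L (U.m * d) t y ∧ nsq (gS A s t y - b) ≤ 4 * τ} :=
      ⟨fun e => h0 ((vanS_reg t1 hz).1 e), by rwa [gS_reg hs t1 hz h0]⟩
    exact ⟨(hh i).differentiableAt (((A.cont i).isOpen_inter_preimage (A.C i).isOpen
      (hV.preimage continuous_subtype_val)).mem_nhds ⟨hz, τ2 a1⟩), hC _ a1⟩
  obtain ⟨e, rfl⟩ : ∃ e', e = e' + 1 := ⟨e - 1, by omega⟩
  have hp : Differentiable ℂ fun w => pr1 r m w - b := (pr1 r m).differentiable.sub_const b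
  refine ⟨r + m, fun i z => t i z ^ (e + 1),
    fun l i z => ap (fun a => s a i z * t i z ^ e) (fun a => T a i z) l,
    {y | ¬ VanS L (U.m * d) t y} ∩ (fun y => nsq (gS A s t y - b)) ⁻¹' Iio (τ / 8),
    {w | nsq (pr1 r m w - b) ≤ τ / 8}, (fun w => pr1 r m w - b) ⁻¹' Bl 0 (τ / 4),
    fun w => ∑ a, u (pr1 r m w - b) a * pr2 r m w a, sec_pow t1 _, fun l => ?_,
    hn.isOpen_inter_preimage (S.nvan_open t1) isOpen_Iio, fun y hy => ?_,
    fun y hy => S.nvan_pow t1 hy.1 _,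
    isClosed_le (nsq_smooth.continuous.comp hp.continuous) continuous_const, fun w hw => ?_,
    (Bl_open _ _).preimage hp.continuous, ?_, fun i z hz hO => ?_⟩
  · obtain ⟨a | a, rfl⟩ := finSumFinEquiv.surjective l
    · have := nr8_mul (hs a) (sec_pow t1 e)
      rw [show U.m * d + U.m * d * e = U.m * d * (e + 1) by ring] at this
      simpa [ap, spl] using this
    · simpa [ap, spl] using T1 a
  · obtain ⟨a1, a2⟩ := (hfib y).1 hy
    refine ⟨a1, ?_⟩
    simpa [a2, nsq] using τ0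
  · have : nsq (pr1 r m w - b) ≤ τ / 8 := hw
    show nsq (pr1 r m w - b - 0) < τ / 4
    rw [sub_zero]
    linarith
  · exact DifferentiableOn.fun_sum fun a _ => (differentiableOn_pi.1 (u1.comp
      hp.differentiableOn fun w hw => hw) a).mul (differentiableOn_pi.1 (pr2 r m).differentiableOn a)
  · have n1 : t i z ≠ 0 := fun e => hO.1 ((vanS_reg t1 hz).2 e)
    have n2 : nsq (gS A s t (A.p i z) - b) < τ / 8 := hO.2
    rw [gS_reg hs t1 hz n1] at n2
    have e1 : (fun l => ap (fun a => s a i z * t i z ^ e) (fun a => T a i z) l /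
        t i z ^ (e + 1)) = ap (fun l => s l i z / t i z) fun a => T a i z / t i z ^ (e + 1) := by
      funext l
      obtain ⟨a | a, rfl⟩ := finSumFinEquiv.surjective l
      · simp [ap, spl]
        field_simp
        ring
      · simp [ap, spl]
    refine ⟨?_, ?_⟩
    · rw [e1, mem_ofPred_eq, pr1_ap]
      exact n2.le
    · rw [e1, ← mul_div_cancel_right₀ (h _) (pow_ne_zero (e + 1) n1)]
      refine (congrArg (· / _) (u2 i z hz n1 (show nsq (_ - 0) < τ / 4 by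
        rw [sub_zero]; linarith))).trans ?_
      simp only [Finset.sum_div, mul_div_assoc, pr1_ap, pr2_ap]

end Pool.Agent.ZB
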