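import Pool.Agent.P.MP_63735c_ag.SF7
import Pool.Agent.P.MP_63735c_ag.SF8
import Pool.Agent.P.MP_63735c_ag.SLZ
import Pool.Agent.P.MP_63735c_ag.SNZ

/-! A power of the line bundle defines a Lagrangian fibration of the singular space. -/

open scoped ComplexOrder ContDiff Matrix Topology ENNReal
open Set Metric MeasureTheory Filter

namespace Pool.Agent.ZB

open Pool.Agent.BP Pool.Agent.SPF Pool.Agent.AB Pool.Agent.CK Pool.Agent.SE Pool.Agent.NL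

variable {N n : ℕ} {X : Type} [TopologicalSpace X] [T2Space X] [CompactSpace X] {R : Set X}
  [MeasurableSpace R] [BorelSpace R] {A : Atlas R N} {B : Amb R A} {K : Form11 A} {L : Line A}
  {μ : Measure R} [IsFiniteMeasure μ] {Y : Type} [TopologicalSpace Y] [T2Space Y] [CompactSpace Y]
  {Z : Res L Y}

theorem CtxS.full [PreconnectedSpace R] (Γ : CtxS B μ K L n) (P : Over B Z) {F' : Fib A n}
    {h' : R → Mat n} {c' : ℝ} (e1 : F'.W = Γ.F.W) (e2 : F'.r = Γ.F.r) (hT : F'.Tor μ (resK Z) h' c') :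
    ∃ k : ℕ, 1 ≤ k ∧ BpfS L k ∧ IsSteinS L k ∧
      ∀ x, IsConnected (FibreS L k x) ∧ IsLagS P n (FibreS L k x) := by
  obtain ⟨l, hl, h⟩ := Γ.fibre
  obtain ⟨e, he, h1⟩ := nr_steinS Γ.U Γ.vol Γ.sg Γ.cov (Nat.mul_pos Γ.d_pos hl) (Γ.bpf_mul l)
  have hb := Γ.sg.bpf_mul (Γ.bpf_mul l) e
  have h2 : ∀ x, FibreS L (Γ.U.m * (Γ.d * l) * e) x = FibreS L (Γ.U.m * (Γ.d * l)) x := fun x => by
    refine Subset.antisymm ?_ ?_
    · rw [Γ.sg.fibre_eq hb, Γ.sg.fibre_eq (Γ.bpf_mul l)]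
      exact fun y hy a => hy (Γ.sg.sep_mul a he)
    · rw [h, Γ.sg.fibre_eq hb, mul_assoc, mul_assoc]
      exact fun y hy => hy _ (Nat.mul_pos hl he)
  refine ⟨_, Nat.mul_pos (Nat.mul_pos Γ.U.m_pos (Nat.mul_pos Γ.d_pos hl)) he, hb, h1 h2,
    fun x => ?_⟩
  obtain ⟨U, hU, hW⟩ := Γ.ult x
  have h3 : F'.LimS Subtype.val U = Γ.F.LimS (Subtype.val : R → X) U := by
    unfold Fib.LimS
    rw [e2]
  rw [h2, h, ← Γ.lim_eq U hU hW]
  refine ⟨⟨⟨x, fun O hO => ?_⟩, lim_connS continuous_subtype_val Γ.U.hinj Γ.tor U hW⟩,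
    h3 ▸ lim_lagS P Γ.hN Γ.n_pos Γ.U.hinj Γ.vol hT U (e1 ▸ hW)⟩
  filter_upwards [hU (preimage_mem_comap hO)] with y hy using ⟨y, hy, Γ.F.eqv.refl y⟩

end Pool.Agent.ZB
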