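import Pool.Agent.P.MP_63735c_ag.BPTr
import Pool.Agent.P.MP_63735c_ag.BPT7
import Pool.Agent.P.MP_63735c_ag.CLHol

/-! A holomorphic branch of a family of points with holomorphic traces. -/

open scoped ComplexOrder ContDiff Matrix Topology ENNReal
open Set Metric MeasureTheory Filter

namespace Pool.Agent.ZB

open Pool.Agent.BP Pool.Agent.SPF Pool.Agent.AB Pool.Agent.CK Pool.Agent.SE Pool.Agent.NL

/-- A map with attracting fixed points `0` and `1`. -/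
noncomputable def slbG (u : ℂ) : ℂ := 3 * u ^ 2 - 2 * u ^ 3

theorem slb_it (l : ℕ) : Differentiable ℂ slbG^[l] ∧ ∀ u : ℂ, slbG^[l] (1 - u) = 1 - slbG^[l] u ∧
    (‖u‖ ≤ 1 / 8 → ‖slbG^[l] u‖ ≤ (1 / 2) ^ l * (1 / 8)) := by
  have hd : Differentiable ℂ slbG := by
    unfold slbG
    fun_prop
  refine ⟨hd.iterate l, ?_⟩
  induction l with
  | zero => exact fun u => ⟨rfl, fun h => by simpa using h⟩
  | succ l ih =>
    intro u
    rw [Function.iterate_succ_apply', Function.iterate_succ_apply', (ih u).1]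
    refine ⟨by unfold slbG; ring, fun h => ?_⟩
    have h1 := (ih u).2 h
    set v := slbG^[l] u
    have h2 : (1 / 2 : ℝ) ^ l ≤ 1 := pow_le_one₀ (by norm_num) (by norm_num)
    have h3 : ‖3 * v - 2 * v ^ 2‖ ≤ 1 / 2 := by
      refine (norm_sub_le _ _).trans ?_
      simp only [norm_mul, norm_pow, Complex.norm_ofNat]
      nlinarith [norm_nonneg v]
    rw [show slbG v = v * (3 * v - 2 * v ^ 2) by unfold slbG; ring, norm_mul,
      pow_succ (1 / 2 : ℝ)]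
    nlinarith [norm_nonneg v, norm_nonneg (3 * v - 2 * v ^ 2)]

theorem slb_lim {u : ℂ} (p : Prop) [Decidable p] (h : ‖u - if p then 1 else 0‖ ≤ 1 / 8) :
    (∀ l, ‖slbG^[l] u‖ ≤ 2) ∧ Tendsto (fun l => slbG^[l] u) atTop (𝓝 (if p then 1 else 0)) := by
  have h1 : ∀ l, ‖slbG^[l] u - if p then 1 else 0‖ ≤ (1 / 2) ^ l * (1 / 8) := fun l => by
    split_ifs at h ⊢
    · have := (slb_it l).2 (1 - u)
      rw [sub_sub_cancel] at this
      rw [this.1, sub_sub_cancel_left, norm_neg]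
      exact this.2 (by rwa [norm_sub_rev])
    · rw [sub_zero] at h ⊢
      exact ((slb_it l).2 u).2 h
  refine ⟨fun l => ?_, tendsto_iff_norm_sub_tendsto_zero.2 (squeeze_zero (fun _ => norm_nonneg _)
    h1 (by simpa only [zero_mul] using (tendsto_pow_atTop_nhds_zero_of_lt_one (r := (1 / 2 : ℝ)) (by norm_num)
      (by norm_num)).mul_const (1 / 8)))⟩
  have h2 : (1 / 2 : ℝ) ^ l ≤ 1 := pow_le_one₀ (by norm_num) (by norm_num)
  have h3 : ‖(if p then 1 else 0 : ℂ)‖ ≤ 1 := by split_ifs <;> simp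
  linarith [norm_sub_norm_le (slbG^[l] u) (if p then 1 else 0), h1 l]

theorem sl_branch {n M d : ℕ} (hd : 1 ≤ d) {D : Set (E n)} (hD : IsOpen D) (hne : D.Nonempty)
    {Y : E n → Fin d → E M} {b : ℝ} (hb : ∀ a ∈ D, ∀ k, ‖Y a k‖ ≤ b)
    (hT : ∀ u : E M → ℂ, Differentiable ℂ u → DifferentiableOn ℂ (fun a => ∑ k, u (Y a k)) D) :
    ∃ (a₁ : E n) (ε ρ : ℝ) (q : E n → E M), 0 < ε ∧ 0 < ρ ∧ ball a₁ ρ ⊆ D ∧
      DifferentiableOn ℂ q (ball a₁ ρ) ∧ ∀ a ∈ ball a₁ ρ, q a ∈ ball (q a₁) ε ∧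
        (∃ k, Y a k = q a) ∧ ∀ k, Y a k ∈ ball (q a₁) ε → Y a k = q a := by
  classical
  let P : E n → Finset (E M) := fun a => Finset.univ.image (Y a)
  have hP : ∀ a k, Y a k ∈ P a := fun a k => Finset.mem_image_of_mem _ (Finset.mem_univ k)
  obtain ⟨a₁, h1, hmax⟩ : ∃ a₁ ∈ D, ∀ a ∈ D, (P a).card ≤ (P a₁).card := by
    have hB : BddAbove ((fun a => (P a).card) '' D) := ⟨d, by
      rintro _ ⟨a, -, rfl⟩
      simpa using Finset.card_image_le (s := Finset.univ) (f := Y a)⟩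
    obtain ⟨a₁, h1, e⟩ := Nat.sSup_mem (hne.image _) hB
    exact ⟨a₁, h1, fun a ha => (le_csSup hB ⟨a, ha, rfl⟩).trans_eq e.symm⟩
  set c := Y a₁ ⟨0, hd⟩
  obtain ⟨h, g1, g2, g3⟩ := bptr_sep c ((P a₁).erase c) (Finset.notMem_erase _ _)
  have hev : ∀ᶠ ε in 𝓝[>] (0 : ℝ), ∀ p ∈ P a₁, (∀ p' ∈ P a₁, ‖p - p'‖ ≤ 3 * ε → p = p') ∧
      ∀ w, ‖w - p‖ ≤ ε → ‖h w - h p‖ ≤ 1 / 8 := by
    refine (Finset.eventually_all _).2 fun p _ => ((Finset.eventually_all _).2 fun p' _ => ?_).and ?_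
    · by_cases e : p = p'
      · exact Eventually.of_forall fun _ _ => e
      · filter_upwards [Ioo_mem_nhdsGT (show 0 < ‖p - p'‖ / 3 from
          div_pos (norm_pos_iff.2 (sub_ne_zero.2 e)) three_pos)] with ε a1 a2
        linarith [a1.2]
    · obtain ⟨δ, d1, d2⟩ := Metric.continuousAt_iff.1 (g1.continuous.continuousAt (x := p)) (1 / 8)
        (by norm_num)
      filter_upwards [Ioo_mem_nhdsGT d1] with ε a1 w a2
      exact (dist_eq_norm _ _).ge.trans (d2 ((dist_eq_norm _ _).trans_lt (a2.trans_lt a1.2))).le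
  obtain ⟨ε, hε, e1⟩ := (eventually_mem_nhdsWithin.and hev).exists
  replace hε : 0 < ε := hε
  obtain ⟨δ, hδ, hcl⟩ := ps_close M d b (half_pos (half_pos hε))
  obtain ⟨ρ, hρ, r1⟩ := Metric.eventually_nhds_iff_ball.1 (Filter.Eventually.and (hD.mem_nhds h1)
    (eventually_all.2 fun α : Fin M → Fin (2 * d + 1) =>
      ((hT _ (mon_diff α)).continuousOn.continuousAt (hD.mem_nhds h1)).eventually
        (closedBall_mem_nhds _ hδ)))
  have c1 : ∀ a ∈ ball a₁ ρ, (∀ k, ∃ j, ‖Y a k - Y a₁ j‖ ≤ ε / 2 / 2) ∧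
      ∀ j, ∃ k, ‖Y a₁ j - Y a k‖ ≤ ε / 2 / 2 := fun a ha =>
    ⟨hcl _ _ (fun i => ⟨hb a (r1 a ha).1 i, hb a₁ h1 i⟩) fun α =>
      mem_closedBall_iff_norm.1 ((r1 a ha).2 α),
    hcl _ _ (fun i => ⟨hb a₁ h1 i, hb a (r1 a ha).1 i⟩) fun α =>
      mem_closedBall_iff_norm'.1 ((r1 a ha).2 α)⟩
  have tri : ∀ {p p' w : E M}, p ∈ P a₁ → p' ∈ P a₁ → ‖p - w‖ ≤ ε / 2 / 2 → ‖p' - w‖ ≤ 2 * ε →
      p = p' := fun {p p' w} a1 a2 a3 a4 => (e1 p a1).1 p' a2 (by
    have := norm_sub_le_norm_sub_add_norm_sub p w p'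
    rw [norm_sub_rev w] at this
    linarith)
  have c2 : ∀ a ∈ ball a₁ ρ, ∃ w, ‖c - w‖ ≤ ε / 2 / 2 ∧ (∃ k, Y a k = w) ∧
      ∀ k, ‖c - Y a k‖ ≤ 2 * ε → Y a k = w := fun a ha => by
    have c3 : ∀ p ∈ P a₁, ∃ w ∈ P a, ‖p - w‖ ≤ ε / 2 / 2 := fun p hp => by
      obtain ⟨j, -, rfl⟩ := Finset.mem_image.1 hp
      exact ((c1 a ha).2 j).elim fun k hk => ⟨_, hP a k, hk⟩
    choose! f f1 f2 using c3
    have c4 := Finset.surjOn_of_injOn_of_card_le f f1 (fun p hp p' hp' e =>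
      tri hp hp' (f2 p hp) (e ▸ (f2 p' hp').trans (by linarith))) (hmax a (r1 a ha).1)
    refine ⟨f c, f2 c (hP _ _), by simpa [P] using f1 c (hP _ _), fun k hk => ?_⟩
    obtain ⟨p, hp, e⟩ := c4 (hP a k)
    rw [← e, tri hp (hP _ _) (f2 p hp) (e ▸ hk)]
  choose! q q1 q2 q3 using c2
  have q0 : q a₁ = c := (q3 a₁ (mem_ball_self hρ) _ (by rw [sub_self, norm_zero]; positivity)).symm
  have c5 : ∀ a ∈ ball a₁ ρ, ∀ k, ‖h (Y a k) - if Y a k = q a then 1 else 0‖ ≤ 1 / 8 :=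
    fun a ha k => by
      obtain ⟨j, hj⟩ := (c1 a ha).1 k
      have a1 := (e1 _ (hP a₁ j)).2 _ (hj.trans (by linarith))
      rw [norm_sub_rev] at hj
      split_ifs with e
      · rwa [tri (hP a₁ j) (hP _ _) hj (e ▸ (q1 a ha).trans (by linarith)), g2] at a1
      · rwa [g3 _ (Finset.mem_erase.2 ⟨fun e' => e (q3 a ha k
          (e' ▸ hj.trans (by linarith))), hP a₁ j⟩)] at a1
  have c6 : ∀ u : E M → ℂ, Differentiable ℂ u → DifferentiableOn ℂ
      (fun a => (∑ k, if Y a k = q a then 1 else 0) * u (q a)) (ball a₁ ρ) := fun u hu => by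
    obtain ⟨m, hm⟩ := (isCompact_closedBall (0 : E M) b).exists_bound_of_continuousOn
      hu.continuous.continuousOn
    obtain ⟨g, a1, a2⟩ := CL.hol_ulim (hyperfilter ℕ) (isOpen_ball (x := a₁) (ε := ρ))
      (f := fun l a => ∑ k, slbG^[l] (h (Y a k)) * u (Y a k)) (M := ∑ _k : Fin d, 2 * m)
      (Eventually.of_forall fun l => ⟨(hT _ (((slb_it l).1.comp g1).mul hu)).mono
        fun a ha => (r1 a ha).1, fun a ha => norm_sum_le_of_le _ fun k _ => by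
          rw [norm_mul]
          exact mul_le_mul ((slb_lim _ (c5 a ha k)).1 l)
            (hm _ (mem_closedBall_zero_iff.2 (hb a (r1 a ha).1 k))) (norm_nonneg _) zero_le_two⟩)
    refine a1.congr fun a ha => tendsto_nhds_unique ?_ (a2 a ha).1
    rw [Finset.sum_mul]
    refine tendsto_finsetSum _ fun k _ => ?_
    have := (((slb_lim _ (c5 a ha k)).2).mul_const (u (Y a k))).mono_left
      (hyperfilter_le_cofinite.trans Nat.cofinite_eq_atTop.le)
    split_ifs at this ⊢ with e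
    · rwa [← e]
    · simpa using this
  have c7 : ∀ a ∈ ball a₁ ρ, (∑ k, if Y a k = q a then 1 else 0 : ℂ) ≠ 0 := fun a ha => by
    obtain ⟨k, hk⟩ := q2 a ha
    rw [Finset.sum_boole, Nat.cast_ne_zero, Finset.card_ne_zero]
    exact ⟨k, by simpa using hk⟩
  refine ⟨a₁, ε, ρ, q, hε, hρ, fun a ha => (r1 a ha).1, differentiableOn_pi.2 fun j => ?_,
    fun a ha => ⟨?_, q2 a ha, fun k hk => q3 a ha k ?_⟩⟩
  · have a1 := c6 (fun _ => 1) (differentiable_const _)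
    simp only [mul_one] at a1
    exact ((c6 (fun w => w j) (by fun_prop)).mul (a1.inv c7)).congr fun a ha => by
      simp only [Pi.mul_apply, Pi.inv_apply]
      rw [mul_comm _ (q a j), mul_inv_cancel_right₀ (c7 a ha)]
  · rw [q0, mem_ball_iff_norm']
    linarith [q1 a ha]
  · rw [q0, mem_ball_iff_norm'] at hk
    linarith

end Pool.Agent.ZB
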