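import Pool.Agent.P.MP_63735c_ag.SBD5
import Pool.Agent.P.MP_63735c_ag.SBD6
import Pool.Agent.P.MP_63735c_ag.FB9

/-! Tangent planes and dimension of a limit set in a local embedding. -/

open scoped ComplexOrder ContDiff Matrix Topology ENNReal
open Set Metric MeasureTheory Filter

namespace Pool.Agent.ZB

open Pool.Agent.BP Pool.Agent.SPF Pool.Agent.AB Pool.Agent.CK Pool.Agent.SE Pool.Agent.NL

variable {N n d : ℕ} {X Z : Type} [TopologicalSpace X] [TopologicalSpace Z] [T2Space Z]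
  [CompactSpace Z] [MeasurableSpace X] {A : Atlas X N} {K : Form11 A} {F : Fib A n} {φ : X → ℝ}
  {j : X → Z} {μ : Measure X} {h : X → Mat n} {c₀ : ℝ}

/-- A class has a point where it is almost tangent to the limit set. -/
theorem tanS (hj : Continuous j) (hinj : ∀ i, InjOn (A.p i) (A.C i).W) (hT : F.Tor μ K h c₀)
    (U : Ultrafilter X) (hU : F.W ∈ U) (e : Em A K F.W φ j) {y₀ : Z} (hy : y₀ ∈ e.O)
    (h0 : y₀ ∈ F.LimS j U) (π : E e.M →L[ℂ] E d) {ξ : E d → E e.M}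
    (h2 : ∀ᶠ s in 𝓝 (π (e.z y₀)), DifferentiableAt ℂ ξ s)
    (h4 : ∀ᶠ y in 𝓝 y₀, y ∈ F.LimS j U → ξ (π (e.z y)) = e.z y) {κ : ℝ} (hκ : 0 < κ) :
    ∃ᶠ y in 𝓝 y₀, ∃ x ∈ F.W, j x = y ∧ ∀ i, ∀ w ∈ (A.C i).W, A.p i w = x → ∀ τ,
      nsq (fderiv ℂ (fun w => e.v (A.p i w)) w (Vf A F.g i w *ᵥ τ) - fderiv ℂ ξ (π (e.z y))
        (π (fderiv ℂ (fun w => e.v (A.p i w)) w (Vf A F.g i w *ᵥ τ)))) ≤
        κ * nsq (π (fderiv ℂ (fun w => e.v (A.p i w)) w (Vf A F.g i w *ᵥ τ))) := by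
  refine frequently_iff.2 fun {S} hS => ?_
  have hz : ∀ y ∈ e.O, ContinuousAt e.z y := fun y a => e.cont.continuousAt (e.opn.mem_nhds a)
  have h3 := h4.self_of_nhds h0
  obtain ⟨Q, hQ, q1, hb⟩ := local_compact_nhds (inter_mem (inter_mem hS (e.opn.mem_nhds hy))
    (inter_mem h4 ((π.continuous.continuousAt.comp (hz _ hy)).eventually h2.eventually_nhds)))
  replace hQ : y₀ ∈ interior Q := mem_interior_iff_mem_nhds.2 hQ
  have hd : ∀ y ∈ Q, ∀ᶠ s in 𝓝 (π (e.z y)), DifferentiableAt ℂ ξ s := fun y a => (q1 a).2.2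
  have hO : Q ⊆ e.O := fun y a => (q1 a).1.2
  let u : Z → ℝ := fun y => nsq (e.z y - ξ (π (e.z y))) + -κ * nsq (π (e.z y) - π (e.z y₀))
  have hu : ContinuousOn u Q := fun y a => by
    have a1 := hz y (hO a)
    have a2 : ContinuousAt (fun y => π (e.z y)) y := π.continuous.continuousAt.comp a1
    exact ((nsq_smooth.continuous.continuousAt.comp (a1.sub
      ((hd y a).self_of_nhds.continuousAt.comp (f := fun y => π (e.z y)) a2))).add
        (continuousAt_const.mul (nsq_smooth.continuous.continuousAt.comp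
          (a2.sub continuousAt_const)))).continuousWithinAt
  have hs := hb.diff (isOpen_interior (s := Q))
  have n0 : ∀ M, nsq (0 : E M) = 0 := fun M => by simp [nsq]
  obtain ⟨m, hm, hm'⟩ := (hs.inter_right (Fib.limS_closed (F := F) (j := j) U)).exists_forall_le'
    (f := fun y => -u y) (a := 0) (hu.mono fun y a => a.1.1).neg fun y a => by
      have e1 : ξ (π (e.z y)) = e.z y := (q1 a.1.1).2.1 a.2
      have a1 : π (e.z y) - π (e.z y₀) ≠ 0 := fun e' => a.1.2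
        (e.inj hy (hO a.1.1) (by rw [← e1, sub_eq_zero.1 e', h3]) ▸ hQ)
      have a2 := (nsq_le (π (e.z y) - π (e.z y₀))).1
      have a3 := norm_pos_iff.2 a1
      simp only [u, e1, sub_self, n0]
      nlinarith [mul_pos hκ (pow_pos a3 2)]
  have k2 := Fib.limS_trap (F := F) (j := j) U ((hu.mono sdiff_subset).preimage_isClosed_of_isClosed
    hs.isClosed (isClosed_Ici (a := -(m / 2)))).isOpen_compl fun y a b => by
      have a1 := hm' y ⟨b.1, a⟩
      have a2 : -(m / 2) ≤ u y := b.2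
      linarith
  have k4 := h0 _ (((hu.mono interior_subset).isOpen_inter_preimage isOpen_interior
    (isOpen_Ioi (a := -(m / 2)))).mem_nhds ⟨hQ, by
      simp only [mem_preimage, mem_Ioi, u, h3, sub_self, n0]
      linarith⟩)
  obtain ⟨x, ⟨hx, b1⟩, x', hx', b2⟩ := ((show ∀ᶠ x in (U : Filter X), x ∈ F.W
    from hU).and k2 |>.and k4).exists
  have b3 : j x' ∈ Q := interior_subset hx'.1
  obtain ⟨k, hk⟩ := F.cov x hx
  have c1 : IsCompact {y | F.r x y} := by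
    have := F.prop k {F.g x} isCompact_singleton (singleton_subset_iff.2 (F.maps k hk))
    exact (congrArg IsCompact (Set.ext fun y => (F.rel k x hk y).symm)).mp this
  obtain ⟨y, hy', hmax⟩ := (c1.inter_right (hb.isClosed.preimage hj)).exists_isMaxOn
    ⟨x', b2, b3⟩ (hu.comp hj.continuousOn fun _ a => a.2)
  have c2 : j y ∈ interior Q := by_contra fun a => b1 _ hy'.1 ⟨⟨hy'.2, a⟩,
    (show -(m / 2) < u (j x') from hx'.2).le.trans (hmax ⟨b2, b3⟩)⟩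
  refine ⟨_, (q1 hy'.2).1.1, y, (Fib.r_mem hx hy'.1).1, rfl, fun i w hw ew τ => ?_⟩
  obtain ⟨Ψ, κ', -, hr', hl, -⟩ := hT.tor x hx
  obtain ⟨hΨ, q, hq1, hq2⟩ := bpdp_lift hinj (fun τ => (Fib.r_mem hx ((hr' _).2 ⟨τ, rfl⟩)).1) hl i
  obtain ⟨τ₁, e1⟩ := (hr' _).1 hy'.1
  have d1 : τ₁ ∈ Ψ ⁻¹' (A.p i '' (A.C i).W) := ⟨w, hw, ew.trans e1.symm⟩
  have d2 : q τ₁ = w := hinj i (hq2 τ₁ d1).1 hw ((hq2 τ₁ d1).2.1.trans (e1.trans ew.symm))
  subst d2 ew
  have d5 : ∀ᶠ t in 𝓝 τ₁, j (Ψ t) ∈ interior Q :=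
    (hj.comp hΨ).continuousAt (isOpen_interior.mem_nhds (show j (Ψ τ₁) ∈ _ from e1 ▸ c2))
  have d6 : ∀ᶠ t in 𝓝 τ₁, F.r x (A.p i (q t)) ∧ j (A.p i (q t)) ∈ Q ∧ HasFDerivAt
      (fun t => e.v (A.p i (q t))) ((fderiv ℂ (fun w => e.v (A.p i w)) (q t)).comp
        (fderiv ℂ q t)) t := by
    filter_upwards [d5, hq1.opn.mem_nhds d1, hq1.hol τ₁ d1] with t a1 a2 a3
    have a4 : j (A.p i (q t)) ∈ Q := (hq2 t a2).2.1 ▸ interior_subset a1
    exact ⟨(hr' _).2 ⟨t, (hq2 t a2).2.1.symm⟩, a4, ((e.hol i).differentiableAt ((dom_open A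
      (e.opn.preimage hj) i).mem_nhds ⟨(hq2 t a2).1, hO a4⟩)).hasFDerivAt.comp t a3.hasFDerivAt⟩
  set v : E n → E e.M := fun t => e.v (A.p i (q t))
  have f1 := lev_nsq (F := fun t => v t - ξ (π (v t))) (z := τ₁) (d6.mono fun t a =>
    a.2.2.differentiableAt.sub ((hd _ a.2.1).self_of_nhds.comp t
      (π.differentiableAt.comp t a.2.2.differentiableAt)))
  have f2 := lev_nsq (F := fun t => π (v t) - π (e.z y₀)) (z := τ₁)
    (d6.mono fun t a => (π.differentiableAt.comp t a.2.2.differentiableAt).sub_const _)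
  have f3 : IsLocalMax (fun t => u (j (A.p i (q t)))) τ₁ := d6.mono fun t a => hmax ⟨a.1, a.2.1⟩
  have f4 := lev_max (f1.1.add (contDiffAt_const.mul f2.1)) f3 τ
  have d4 := d6.self_of_nhds.2.2
  have g1 := π.hasFDerivAt.comp τ₁ d4
  have g2 : HasFDerivAt (fun t => v t - ξ (π (v t))) _ τ₁ :=
    d4.sub ((hd _ hy'.2).self_of_nhds.hasFDerivAt.comp τ₁ g1)
  have g3 : HasFDerivAt (fun t => π (v t) - π (e.z y₀)) _ τ₁ := g1.sub_const _
  have f5 := f1.2.2.2 τ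
  have f6 := f2.2.2.2 τ
  rw [g2.fderiv] at f5
  rw [g3.fderiv] at f6
  rw [BP.hr, lev_add f1.1 (contDiffAt_const.mul f2.1), lev_smul f2.1, hq_add, hq_smul,
    Complex.add_re, Complex.re_ofReal_mul] at f4
  simp only [BP.hr, _root_.sub_apply, ContinuousLinearMap.comp_apply] at f5 f6
  rw [f5, f6, ← bpt2_jac q, (hq2 τ₁ d1).2.2] at f4
  linarith

/-- The same embedding on a smaller set. -/
def slt_res {W : Set X} (e : Em A K W φ j) {O : Set Z} (hO : IsOpen O) (h3 : O ⊆ e.O) :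
    Em A K W φ j :=
  { e with
    O := O
    opn := hO
    cont := e.cont.mono h3
    inj := e.inj.mono h3
    hol := fun i => (e.hol i).mono fun _ hw => ⟨hw.1, h3 hw.2⟩
    imm := fun i w hw => e.imm i w ⟨hw.1, h3 hw.2⟩
    low := fun i w hw => e.low i w ⟨hw.1, h3 hw.2⟩
    s_hol := fun i => (e.s_hol i).mono fun _ hw => ⟨hw.1, hw.2.1, h3 hw.2.2⟩
    s_bd := fun w hw => e.s_bd w ⟨hw.1, h3 hw.2⟩ }

omit [MeasurableSpace X] in
theorem slt_shrink {M : ℕ} {z : Z → E M} {O : Set Z} (hO : IsOpen O) (hc : ContinuousOn z O)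
    (hi : InjOn z O) {y : Z} (hy : y ∈ O) : ∃ (O' : Set Z) (r : ℝ), IsOpen O' ∧ y ∈ O' ∧ O' ⊆ O ∧
      0 < r ∧ IsCompact (O' ∩ z ⁻¹' closedBall (z y) (2 * r)) := by
  obtain ⟨Q, hQ, h1, h2⟩ := exists_compact_subset hO hy
  have h4 : IsClosed (z '' (Q \ interior Q)) := ((hQ.diff isOpen_interior).image_of_continuousOn
    (hc.mono (sdiff_subset.trans h2))).isClosed
  obtain ⟨r, hr, h5⟩ := nhds_basis_closedBall.mem_iff.1 (h4.isOpen_compl.mem_nhds
    (show z y ∉ _ from fun ⟨w, hw, e'⟩ => hw.2 (hi (h2 hw.1) hy e' ▸ h1)))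
  refine ⟨interior Q, r / 2, isOpen_interior, h1, interior_subset.trans h2, by positivity, ?_⟩
  have h6 : interior Q ∩ z ⁻¹' closedBall (z y) (2 * (r / 2)) = Q ∩ z ⁻¹' closedBall (z y) r := by
    rw [mul_div_cancel₀ _ two_ne_zero]
    exact Subset.antisymm (inter_subset_inter_left _ interior_subset) fun w hw =>
      ⟨by_contra fun hn => h5 hw.2 ⟨w, ⟨hw.1, hn⟩, rfl⟩, hw.2⟩
  exact h6 ▸ hQ.of_isClosed_subset ((hc.mono h2).preimage_isClosed_of_isClosed hQ.isClosed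
    isClosed_closedBall) inter_subset_left

omit [MeasurableSpace X] in
theorem slt_le (hP : ∀ e : Em A K F.W φ j, F.PackS e) (U : Ultrafilter X)
    (hU : F.W ∈ U) (e : Em A K F.W φ j) {y₀ : Z} (hy : y₀ ∈ e.O) {γ : E d → E e.M} {t : E d}
    (h2 : ∀ᶠ u in 𝓝 t, DifferentiableAt ℂ γ u) (h3 : Function.Injective (fderiv ℂ γ t))
    (h4 : ∀ O ∈ 𝓝 y₀, ∀ᶠ u in 𝓝 t, γ u ∈ e.z '' (O ∩ F.LimS j U)) : d ≤ n := by
  by_contra hd
  push Not at hd
  obtain ⟨c, hc, s, hs, hA⟩ := fb8_anti h2 h3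
  obtain ⟨O, r₀, o1, o2, o3, h0, o4⟩ := slt_shrink e.opn e.cont e.inj hy
  obtain ⟨B, hB⟩ := sbd5_pack (hP (slt_res e o1 o3)) U hU h0 o4
  obtain ⟨r, hr, hrs⟩ := nhds_basis_closedBall.mem_iff.1 (inter_mem hs (h4 _ (inter_mem
    (o1.mem_nhds o2) (e.cont.continuousAt (e.opn.mem_nhds hy) (ball_mem_nhds _ h0)))))
  have hp : 0 < (c * r / 8) ^ (2 * n) := by positivity
  obtain ⟨K, hK⟩ := exists_nat_gt (max (max 1 (c * r / 4 / r₀)) (B / (c * r / 8) ^ (2 * n)))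
  have k1 : (1 : ℝ) < K := ((le_max_left _ _).trans (le_max_left _ _)).trans_lt hK
  have k2 : c * r / 4 / r₀ < K := ((le_max_right _ _).trans (le_max_left _ _)).trans_lt hK
  have k3 : B / (c * r / 8) ^ (2 * n) < K := (le_max_right _ _).trans_lt hK
  have k0 : (0 : ℝ) < K := by linarith
  have hm (a : Fin d → Fin K × Fin K) : t + (r / (2 * K) : ℝ) • fb8G a ∈ closedBall t r := by
    rw [mem_closedBall, dist_eq_norm, add_sub_cancel_left, norm_smul,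
      Real.norm_of_nonneg (by positivity), div_mul_eq_mul_div, div_le_iff₀ (by positivity)]
    exact mul_le_mul_of_nonneg_left (fb8_le a) hr.le
  choose w w1 w2 using fun a => (hrs (hm a)).2
  have h6 := hB (c * r / 4 / K) (by positivity)
    (by rw [div_le_iff₀ k0, mul_comm r₀]; exact ((div_lt_iff₀ h0).1 k2).le)
    (Finset.univ : Finset (Fin d → Fin K × Fin K)) w
    (fun a _ => ⟨(w1 a).1.1, (w1 a).1.2, (w1 a).2⟩) fun a _ b _ hab => by
      refine lt_of_lt_of_le ?_ ((hA _ (hrs (hm a)).1 _ (hrs (hm b)).1).trans_eq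
        (((dist_eq_norm _ _).symm).trans (congrArg₂ dist (w2 a).symm (w2 b).symm)))
      rw [add_sub_add_left_eq_sub, ← smul_sub, norm_smul, Real.norm_of_nonneg (by positivity)]
      have e1 : 0 < c * r / 4 / K := by positivity
      have e2 : c * (r / (2 * K)) = 2 * (c * r / 4 / K) := by field_simp; ring
      rw [← mul_assoc, e2]
      nlinarith [fb8_ge hab]
  obtain ⟨l, rfl⟩ := Nat.exists_eq_add_of_lt hd
  simp only [Finset.card_univ, Fintype.card_pi, Fintype.card_prod, Fintype.card_fin,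
    Finset.prod_const, Nat.cast_pow, Nat.cast_mul] at h6
  have e3 : ((K : ℝ) * K) ^ (n + l + 1) * (c * r / 4 / K / 2) ^ (2 * n) =
      (K * K) ^ l * K * (K * (c * r / 8) ^ (2 * n)) := by
    have : (K : ℝ) * (c * r / 4 / K / 2) = c * r / 8 := by field_simp; ring
    rw [← this, mul_pow (K : ℝ) _ (2 * n), pow_mul (K : ℝ), pow_two]
    ring
  have e4 : (1 : ℝ) ≤ (K * K) ^ l * K :=
    one_le_mul_of_one_le_of_one_le (one_le_pow₀ (by nlinarith)) k1.le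
  rw [div_lt_iff₀ hp] at k3
  rw [e3] at h6
  nlinarith [mul_pos k0 hp]

omit [T2Space Z] [CompactSpace Z] [MeasurableSpace X] in
/-- An almost tangent class projects injectively. -/
theorem slt_inj (e : Em A K F.W φ j) {π : E e.M →L[ℂ] E d} {D : E d →L[ℂ] E e.M} {i : A.ι}
    {w : E N} (h1 : w ∈ dom A F.W i) (h2 : j (A.p i w) ∈ e.O) {κ : ℝ} (h3 : ∀ τ,
      nsq (fderiv ℂ (fun w => e.v (A.p i w)) w (Vf A F.g i w *ᵥ τ) -
        D (π (fderiv ℂ (fun w => e.v (A.p i w)) w (Vf A F.g i w *ᵥ τ)))) ≤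
        κ * nsq (π (fderiv ℂ (fun w => e.v (A.p i w)) w (Vf A F.g i w *ᵥ τ)))) :
    Function.Injective ((π : E e.M →ₗ[ℂ] E d) ∘ₗ
      (fderiv ℂ (fun w => e.v (A.p i w)) w : E N →ₗ[ℂ] E e.M) ∘ₗ (Vf A F.g i w).mulVecLin) :=
  (injective_iff_map_eq_zero _).2 fun τ a => by
    have c1 := h3 τ
    have c2 : π (fderiv ℂ (fun w => e.v (A.p i w)) w (Vf A F.g i w *ᵥ τ)) = 0 := a
    have c3 : nsq (0 : E d) = 0 := by simp [nsq]
    rw [c2, map_zero, sub_zero, c3, mul_zero] at c1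
    exact bpdp_inj h1 (e.imm i w ⟨h1.1, h2⟩ ((norm_eq_zero.1 (pow_eq_zero_iff two_ne_zero |>.1
      (le_antisymm ((nsq_le _).1.trans c1) (sq_nonneg _)))).trans (map_zero _).symm))

theorem lim_dimS (hj : Continuous j) (hinj : ∀ i, InjOn (A.p i) (A.C i).W)
    (hK : ∀ i, ∀ z ∈ (A.C i).W, (K.h i z).PosDef) (hT : F.Tor μ K h c₀) (U : Ultrafilter X)
    (hU : F.W ∈ U) (e : Em A K F.W φ j) {y₀ : Z} (hy : y₀ ∈ e.O) (h0 : y₀ ∈ F.LimS j U)
    {γ : E d → E e.M} {t : E d} (h2 : ∀ᶠ u in 𝓝 t, DifferentiableAt ℂ γ u)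
    (h3 : Function.Injective (fderiv ℂ γ t))
    (h4 : map γ (𝓝 t) = map e.z (𝓝[F.LimS j U] y₀)) : d = n := by
  refine le_antisymm (slt_le (Fib.packS hj hinj hK hT) U hU e hy h2 h3 fun O hO =>
    show _ ∈ map γ (𝓝 t) from h4 ▸ image_mem_map (inter_comm O _ ▸ inter_mem_nhdsWithin _ hO)) ?_
  obtain ⟨π, ξ, b1, -, -, b4⟩ := fb9_str h2 h3
  have a1 : γ t = e.z y₀ := tendsto_nhds_unique (f := id) (l := pure (e.z y₀))
    ((map_mono (pure_le_nhdsWithin h0)).trans (h4.ge.trans h2.self_of_nhds.continuousAt))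
    (pure_le_nhds _)
  obtain ⟨y, ⟨x, hx, rfl, c1⟩, c2⟩ := ((tanS hj hinj hT U hU e hy h0 π (a1 ▸ b1)
    (eventually_nhdsWithin_iff.1 (show ∀ᶠ z in map e.z (𝓝[F.LimS j U] y₀), ξ (π z) = z from
      h4 ▸ b4)) one_pos).and_eventually (e.opn.mem_nhds hy)).exists
  obtain ⟨i, w, hw, rfl⟩ := A.cover x
  simpa using LinearMap.finrank_le_finrank_of_injective (slt_inj e ⟨hw, hx⟩ c2 (c1 i w hw rfl))

end Pool.Agent.ZB
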