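import Pool.Agent.P.MP_63735c_ag.NR8
import Pool.Agent.P.MP_63735c_ag.SBEA

/-! Objects of the proof that functions near a fibre come from the image (not in any statement). -/

open scoped ComplexOrder ContDiff Matrix Topology ENNReal
open Set Metric MeasureTheory Filter

namespace Pool.Agent.ZB

open Pool.Agent.BP Pool.Agent.SPF Pool.Agent.AB Pool.Agent.CK Pool.Agent.SE Pool.Agent.NL

variable {N r : ℕ} {X : Type} [TopologicalSpace X] [MeasurableSpace X] {A : Atlas X N}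
  {μ : Measure X} {L : Line A}

/-- The zeros of a section are removed from `U.W`. -/
theorem up_cut [PreconnectedSpace X] [T2Space X] [BorelSpace X] (U : Up A μ L) (hμ : IsVolume A μ)
    (hc : SB.Cov L) (hb : SB.SecBd L) {k : ℕ} {s : A.ι → E N → ℂ} (hs : L.IsSection k s)
    (h0 : ∃ x, nrm L k s x ≠ 0) : ∃ U' : Up A μ L, U'.m = U.m ∧ U'.M = U.M + k ∧
      ∀ i, ∀ z ∈ U'.D.W i, s i z ≠ 0 := by
  obtain ⟨C, hC⟩ := hb k s hs
  have hu := nrm_norm hs
  have hO : IsOpen (U.W ∩ {x | nrm L k s x ≠ 0}) := U.hW.inter (sect_open hu)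
  have hp : ∀ x, nrm L k s x ≠ 0 → 0 < nrm L k s x := fun x h =>
    (sect_nonneg hu x).lt_of_ne' h
  have hle : ∀ x, nrm L k s x ≠ 0 → Real.log (nrm L k s x) ≤ Real.log (|C| + 1) := fun x h => by
    refine Real.log_le_log (hp x h) ?_
    obtain ⟨i, z, hz, rfl⟩ := A.cover x
    rw [nrm_eq hs hz]
    linarith [hC i z hz, le_abs_self C]
  obtain ⟨ψ, hψ⟩ : ∃ ψ : X → ℝ, ψ = fun y =>
    U.ψ y + (Real.log (nrm L k s y) + -Real.log (|C| + 1)) := ⟨_, rfl⟩
  have key : ∀ i, ∀ z ∈ (A.C i).W, A.p i z ∈ U.W ∩ {x | nrm L k s x ≠ 0} →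
      ContDiffAt ℝ ∞ (fun w => ψ (A.p i w)) z ∧ ∀ v,
        -((U.M + k) * hr ((A.C i).η z) v) ≤ hr (lev (fun w => ψ (A.p i w)) z) v := by
    intro i z hz hx
    have s1 := (U.ψ_smo i).contDiffAt ((U.D.isOpen i).mem_nhds ⟨hz, hx.1⟩)
    obtain ⟨s2, s3⟩ := lev_log_sect hu hz hx.2
    subst hψ
    refine ⟨s1.add (s2.add contDiffAt_const), fun v => ?_⟩
    have e1 := lev_add s1 (s2.add (contDiffAt_const (c := -Real.log (|C| + 1))))
    rw [lev_add s2 contDiffAt_const, s3, lev_const, add_zero] at e1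
    have e2 := U.ψ_lev i z hz hx.1 v
    refine le_of_le_of_eq ?_ (congrArg (fun m => hr m v) e1).symm
    simp only [hr, hq_add, hq_smul, Complex.add_re, Complex.re_ofReal_mul]
    exact le_of_eq_of_le (by ring) (add_le_add e2 le_rfl)
  have hcp : ∀ c, IsCompact {y | y ∈ U.W ∩ {x | nrm L k s x ≠ 0} ∧ c ≤ ψ y} := fun c => by
    have c1 : ContinuousOn U.ψ U.W := man_M (A := A) (hinj := U.hinj) (hM := U.hW) ▸
      Man.contOn fun i => (U.ψ_smo i).continuousOn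
    have c2 := (U.ψ_cpt c).inter_right (isClosed_le (continuous_const
      (y := Real.exp (c + Real.log (|C| + 1)))) (sect_cont hu))
    have c3 : ContinuousOn ψ ({y | y ∈ U.W ∧ c ≤ U.ψ y} ∩
        {y | Real.exp (c + Real.log (|C| + 1)) ≤ nrm L k s y}) := by
      rw [hψ]
      exact (c1.mono fun y hy => hy.1.1).add (((sect_cont hu).continuousOn.log
        fun y hy => ((Real.exp_pos _).trans_le hy.2).ne').add continuousOn_const)
    refine (congrArg IsCompact (Set.ext fun y => ?_)).mp (c2.of_isClosed_subset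
      (c3.preimage_isClosed_of_isClosed c2.isClosed (isClosed_Ici (a := c))) inter_subset_left)
    refine ⟨fun h => ⟨⟨h.1.1.1, ((Real.exp_pos _).trans_le h.1.2).ne'⟩, h.2⟩, fun h => ?_⟩
    have a1 := hle y h.1.2
    have a2 := U.ψ_le y h.1.1
    have a3 := h.2
    rw [hψ] at a3
    exact ⟨⟨⟨h.1.1, by linarith⟩, (Real.le_log_iff_exp_le (hp y h.1.2)).1 (by linarith)⟩, h.2⟩
  have hψ1 : ∀ y ∈ U.W ∩ {x | nrm L k s x ≠ 0}, ψ y ≤ -1 := fun y hy => by
    rw [hψ]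
    linarith [hle y hy.2, U.ψ_le y hy.1]
  have hM : 0 ≤ U.M + k := add_nonneg U.M_nonneg (Nat.cast_nonneg _)
  have hP : PolX A (U.W ∩ {x | nrm L k s x ≠ 0}) ψ :=
    ⟨hO, ((SB.sbep_dense U hμ).inter_open_nonempty _ (sect_open hu) h0).mono fun _ h => h.symm,
      fun i z hz hx => (key i z hz hx).1, hψ1, ⟨_, hM, fun i z hz hx => (key i z hz hx).2⟩,
      fun c => hcp (-c)⟩
  have hn : ∀ i, μ (A.p i '' ((A.C i).W \ A.p i ⁻¹' (U.W ∩ {x | nrm L k s x ≠ 0}))) = 0 := by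
    intro i
    rw [hμ i _ sdiff_subset (sdiff_self_inter ▸ (A.C i).isOpen.measurableSet.diff
      ((A.cont i).isOpen_inter_preimage (A.C i).isOpen hO).measurableSet)]
    refine setLIntegral_measure_zero _ _ (measure_null_of_locally_null _ fun z hz => ?_)
    obtain ⟨R, hR, -, h1⟩ := hP.loc hz.1 (hP.dense _)
    obtain ⟨ψ', -, h2, -⟩ := h1 R hR le_rfl
    refine ⟨_, inter_mem_nhdsWithin _ (ball_mem_nhds z (show 0 < R / 16 by positivity)),
      measure_mono_null (fun y hy => ?_) h2.null⟩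
    exact ⟨hy.2, fun h => hy.1.2 h.2⟩
  refine ⟨⟨U.hinj, U.m, U.s, _, hO, U.φ, ψ, U.G, U.M + k, U.m_pos, U.sec, ?_,
    fun i z hz hx => U.φ_eq i z hz hx.1, hM,
    fun i z hz => (key i z hz.1 hz.2).1.contDiffWithinAt, hψ1,
    fun i z hz hx => (key i z hz hx).2, hcp,
    fun i => (U.G_smo i).mono fun z hz => ⟨hz.1, hz.2.1⟩, fun y hy => U.G_le y hy.1,
    fun i z hz hx => U.G_lev i z hz hx.1, fun k => (U.G_int k).mono_set inter_subset_left⟩,
    rfl, rfl, fun i z hz h => hz.2.2 ?_⟩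
  · obtain ⟨t, -, ht⟩ := hc (fun _ _ => 1) fun _ _ => one_pos
    refine measure_mono_null (fun x hx => ?_)
      ((measure_biUnion_null_iff t.countable_toSet).2 fun q _ => hn q.1)
    obtain ⟨q, hq, w, hw, rfl⟩ := ht x
    exact mem_biUnion hq ⟨w, ⟨hw.2, hx⟩, rfl⟩
  · rw [nrm_eq hs hz.1, h]
    simp

/-- A holomorphic map on `U.W`. -/
structure Gm (U : Up A μ L) (r : ℕ) where
  g : X → E r
  hol : ∀ i, DifferentiableOn ℂ (fun z => g (A.p i z)) (U.D.W i)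

/-- The manifold. -/
noncomputable abbrev pD (U : Up A μ L) (b : E r) (τ : ℝ) : Man (X × E r) (N + r) :=
  mprod U.D (Bl_open b τ)

/-- The exhaustion. -/
noncomputable def ex (U : Up A μ L) (b : E r) (τ : ℝ) (y : X × E r) : ℝ := bet b τ y + U.l2 y.1

namespace Gm

variable {U : Up A μ L} (S : Gm U r)

/-- The Fubini-Study potential. -/
noncomputable def φ (x : X) : ℝ := Real.log (1 + nsq (S.g x))

/-- The squared distance to the graph. -/
noncomputable def T (y : X × E r) : ℝ := nsq (S.g y.1 - y.2)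

/-- The weight. -/
noncomputable def Φ (j k γ : ℕ) (ε : ℝ) (b : E r) (τ : ℝ) (y : X × E r) : ℝ :=
  j * S.φ y.1 + j * bet b τ y + γ * rho (Real.log (S.T y + ε)) + (k * U.φ y.1 + (1 + U.l y.1)⁻¹)

/-- The function `h`, cut off near the graph and inside the manifold. -/
noncomputable def cf (h : X → ℂ) (b : E r) (τ R : ℝ) : X × E r → ℂ :=
  {y | y.1 ∈ U.W ∧ y.2 ∈ Bl b τ}.indicator fun y =>
    ((Real.smoothTransition (R + 1 - ex U b τ y) *
      Real.smoothTransition (2 - 2 * S.T y / τ) : ℝ) : ℂ) * h y.1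

/-- The weighted distance in a chart. -/
noncomputable def dist (j k γ : ℕ) (ε : ℝ) (b : E r) (τ : ℝ) (G s : X × E r → ℂ) (i : A.ι) :
    ℝ≥0∞ :=
  ∫⁻ z in (pD U b τ).W i, ENNReal.ofReal (Real.exp (-S.Φ j k γ ε b τ ((pD U b τ).p i z)) *
    ‖((A.C i).σ (pr1 N r z)).det‖ * ‖G ((pD U b τ).p i z) - s ((pD U b τ).p i z)‖ ^ 2)

/-- `h` is holomorphic and of bounded norm over the ball. -/
structure Good (k : ℕ) (h : X → ℂ) (b : E r) (τ C : ℝ) : Prop where
  b_le : ‖b‖ ≤ 1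
  τ_pos : 0 < τ
  τ_le : τ ≤ 1
  C_nonneg : 0 ≤ C
  hol : ∀ i, ∀ z ∈ U.D.W i, nsq (S.g (A.p i z) - b) ≤ 4 * τ →
    DifferentiableAt ℂ (fun w => h (A.p i w)) z
  bd : ∀ x ∈ U.W, nsq (S.g x - b) ≤ 4 * τ → ‖h x‖ ^ 2 ≤ C * Real.exp (k * U.φ x)

theorem g_hol {i : A.ι} {z : E N} (hz : z ∈ U.D.W i) :
    ∀ᶠ w in 𝓝 z, DifferentiableAt ℂ (fun y => S.g (A.p i y)) w :=
  mem_of_superset ((U.D.isOpen i).mem_nhds hz) fun _ hw =>
    (S.hol i).differentiableAt ((U.D.isOpen i).mem_nhds hw)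

theorem φ_nn (x : X) : 0 ≤ S.φ x := Real.log_nonneg (by linarith [nr4_nonneg (S.g x)])

end Gm

theorem bet_nn {X : Type} {b : E r} {τ : ℝ} (h1 : τ ≤ 1) {y : X × E r} (hy : y.2 ∈ Bl b τ) :
    0 ≤ bet b τ y := neg_nonneg.2 (Real.log_nonpos (sub_pos.2 hy).le
      (by linarith [nr4_nonneg (y.2 - b)]))

theorem l2_nn (U : Up A μ L) {x : X} (hx : x ∈ U.W) : 0 ≤ U.l2 x :=
  Real.log_nonneg (by linarith [U.l_calc.2.1 x hx])

/-- A function of the first factor. -/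
theorem sn0_pr {f : E N → ℝ} {z : E (N + r)} (hf : ContDiffAt ℝ ∞ f (pr1 N r z)) :
    ContDiffAt ℝ ∞ (fun y => f (pr1 N r y)) z ∧ ∀ v,
      hr (lev (fun y => f (pr1 N r y)) z) v = hr (lev f (pr1 N r z)) (pr1 N r v) ∧
      v ⬝ᵥ dr (fun y => f (pr1 N r y)) z = pr1 N r v ⬝ᵥ dr f (pr1 N r z) := by
  refine ⟨hf.comp z ((pr1 N r).restrictScalars ℝ).contDiff.contDiffAt, fun v => ⟨?_, ?_⟩⟩
  · rw [lev_comp hf (Eventually.of_forall fun _ => (pr1 N r).differentiableAt), hr, hq_conj,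
      bpt2_jac, (pr1 N r).fderiv]
  · rw [dr_comp (hf.differentiableAt (by simp)) (pr1 N r).differentiableAt, dotProduct_comm,
      ← Matrix.dotProduct_mulVec, dotProduct_comm, bpt2_jac, (pr1 N r).fderiv]

end Pool.Agent.ZB
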