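import Pool.Agent.P.MP_63735c_ag.SN0
import Pool.Agent.P.MP_63735c_ag.CSAmb

/-! The estimate on the product and a complete metric. -/

open scoped ComplexOrder ContDiff Matrix Topology ENNReal
open Set Metric MeasureTheory Filter

namespace Pool.Agent.ZB

open Pool.Agent.BP Pool.Agent.SPF Pool.Agent.AB Pool.Agent.CK Pool.Agent.SE Pool.Agent.NL
  Pool.Agent.CS

variable {N r : ℕ} {X : Type} [TopologicalSpace X] [MeasurableSpace X] {A : Atlas X N}
  {μ : Measure X} {L : Line A}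

theorem pd_M (U : Up A μ L) (b : E r) (τ : ℝ) (y : X × E r) :
    y ∈ (pD U b τ).M ↔ y.1 ∈ U.W ∧ y.2 ∈ Bl b τ := by
  rw [nr3_mem, man_M]

theorem pd_l2 [BorelSpace X] [T2Space X] [IsFiniteMeasure μ] (U : Up A μ L) (hμ : IsVolume A μ)
    {b : E r} {τ : ℝ} (hτ : τ ≤ 1) {K : A.ι → E (N + r) → Mat (N + r)}
    (h1 : ∀ i, Kah ((pD U b τ).W i) (K i)) (h2 : (pD U b τ).Cpt K) (h3 : (pD U b τ).Cut K)
    {Φ : X × E r → ℝ} (hΦ : (pD U b τ).Smo Φ)
    (hp : ∀ i, ∀ z ∈ (pD U b τ).W i, ∀ v, 0 ≤ hr ((pD U b τ).levG Φ i z) v)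
    {s : X × E r → ℂ} (hs : (pD U b τ).S s) {c : X × E r → ℝ} (hc : (pD U b τ).Cc c)
    (hc0 : ∀ y, 0 ≤ c y)
    (hsc : ∀ i, ∀ z ∈ (pD U b τ).W i, ∀ v, ‖v ⬝ᵥ star (db (fun y => s ((pD U b τ).p i y)) z)‖ ^ 2 ≤
      c ((pD U b τ).p i z) * hr ((pD U b τ).levG Φ i z) v) {f : X → ℝ≥0∞}
    (hC : ∀ y, y.1 ∈ U.W → y.2 ∈ Bl b τ → ENNReal.ofReal (c y * Real.exp (-Φ y)) ≤ f y.1) :
    ∃ G, (pD U b τ).Hol G ∧ ∀ i, ∫⁻ z in (pD U b τ).W i,
      ENNReal.ofReal (Real.exp (-Φ ((pD U b τ).p i z)) * ‖((A.C i).σ (pr1 N r z)).det‖ *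
        ‖G ((pD U b τ).p i z) - s ((pD U b τ).p i z)‖ ^ 2) ≤
      (∫⁻ x in U.W, f x ∂μ) * volume (Bl b τ) := by
  let Ψ₀ : A.ι → E N → ℝ := fun i z => (-1) * Real.log ‖((A.C i).σ z).det‖
  have hΨ₀ : ∀ i, ∀ z ∈ (A.C i).W, ContDiffAt ℝ ∞ (Ψ₀ i) z ∧ lev (Ψ₀ i) z = 0 := fun i z hz =>
    ⟨contDiffAt_const.mul (abd_det (A.C i) hz).1, by
      rw [lev_smul (abd_det (A.C i) hz).1, (abd_det (A.C i) hz).2, smul_zero]⟩
  have hw₀ : ∀ i, ∀ z ∈ (A.C i).W, wt (Ψ₀ i) z = ‖((A.C i).σ z).det‖ := by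
    intro i z hz
    simp only [wt, Ψ₀, neg_mul, one_mul, neg_neg]
    exact Real.exp_log (norm_pos_iff.2 ((A.C i).σ_det z hz))
  have hd₀ : (U.D).Den μ Ψ₀ := by
    intro i T hT hm
    refine (hμ i T (hT.trans inter_subset_left) hm).trans
      (setLIntegral_congr_fun hm fun z hz => ?_)
    rw [hw₀ i z (hT hz).1, ofReal_norm]
  obtain ⟨G, hG, hb⟩ := l2_man (mprod_den hd₀ (fun i z hz =>
    (hΨ₀ i z hz.1).1.continuousAt.continuousWithinAt) (Bl_open b τ)) (fun i z hz =>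
      ⟨(hΨ₀ i _ hz.1.1).1.comp z ((pr1 N r).restrictScalars ℝ).contDiff.contDiffAt, by
        rw [lev_comp (hΨ₀ i _ hz.1.1).1 (Eventually.of_forall fun _ => (pr1 N r).differentiableAt),
          (hΨ₀ i _ hz.1.1).2, Matrix.mul_zero, Matrix.zero_mul]⟩) h1 h2 h3 hΦ hp hs hc hc0 hsc
  refine ⟨G, hG, fun i => le_trans (le_of_eq ?_) ((hb i).trans ?_)⟩
  · refine setLIntegral_congr_fun ((pD U b τ).isOpen i).measurableSet fun z hz => ?_
    simp only [← hw₀ i _ hz.1.1]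
    rfl
  · rw [mprod_M, man_M]
    refine (setLIntegral_mono' (g := fun y => f y.1)
      (U.hW.measurableSet.prod (Bl_open b τ).measurableSet) fun y hy => hC y hy.1 hy.2).trans ?_
    rw [← Measure.prod_restrict]
    refine (lintegral_prod_le _).trans_eq ?_
    simp only [lintegral_const, Measure.restrict_apply_univ]
    exact lintegral_mul_const' _ _ (nr5_vol b hτ)

theorem sn1_lam (U : Up A μ L) {K : Form11 A}
    (hK : ∀ i, ∀ z ∈ (A.C i).W, (K.h i z).PosDef) (hB : Bd11 A K) :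
    ∃ (K' : A.ι → E N → Mat N) (C : ℝ), (∀ i, Kah (U.D.W i) (K' i)) ∧ U.D.Cpt K' ∧ 0 ≤ C ∧
      ∀ i, ∀ z ∈ U.D.W i, ∀ v, |hr (lev (fun y => U.l (A.p i y)) z) v| ≤ C * hr (K' i z) v ∧
        ‖v ⬝ᵥ dr (fun y => U.l (A.p i y)) z‖ ^ 2 ≤ hr (K' i z) v := by
  obtain ⟨hl, -, H0⟩ := U.l_calc
  obtain ⟨C₀, hC₀, hb⟩ := hB
  obtain ⟨C, hCe⟩ : ∃ C, C = U.M * C₀ := ⟨_, rfl⟩
  have hC : 0 ≤ C := hCe ▸ mul_nonneg U.M_nonneg hC₀
  have H : ∀ i, ∀ z ∈ U.D.W i, ∀ v, (hq (lev (fun y => U.l (A.p i y)) z) v v).re +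
      ‖v ⬝ᵥ dr (fun y => U.l (A.p i y)) z‖ ^ 2 ≤ C * (hq (K.h i z) v v).re := by
    intro i z hz v
    refine (H0 i z hz v).trans ?_
    have a := (le_abs_self _).trans (hb i z hz.1 v)
    rw [ev11_hq, ev11_hq] at a
    rw [hCe, mul_assoc]
    exact mul_le_mul_of_nonneg_left (by linarith) U.M_nonneg
  have hs : ∀ i, ∀ z ∈ U.D.W i, ContDiffAt ℝ ∞ (fun y => U.l (A.p i y)) z := fun i z hz =>
    (hl i).contDiffAt ((U.D.isOpen i).mem_nhds hz)
  have hv : ∀ i z v, (hq (((C + 1 : ℝ) : ℂ) • K.h i z +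
      ((-1 : ℝ) : ℂ) • lev (fun y => U.l (A.p i y)) z) v v).re =
      (C + 1) * (hq (K.h i z) v v).re - (hq (lev (fun y => U.l (A.p i y)) z) v v).re := by
    intro i z v
    rw [hq_add, hq_smul, hq_smul, Complex.add_re, Complex.re_ofReal_mul, Complex.re_ofReal_mul]
    ring
  refine ⟨fun i z => ((C + 1 : ℝ) : ℂ) • K.h i z + ((-1 : ℝ) : ℂ) • lev (fun y => U.l (A.p i y)) z,
    C + 1, fun (i : A.ι) => ?_, fun i j z hz φ hφ => ?_, by linarith, ?_⟩
  · have hW := U.D.isOpen i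
    have s1 : ∀ a b, ContDiffOn ℝ ∞ (fun z => K.h i z a b) (U.D.W i) :=
      fun a b => (K.smooth i a b).mono inter_subset_left
    have s2 := lev_smooth hW (hl i)
    refine ⟨fun a b => (contDiffOn_const.mul (s1 a b)).add (contDiffOn_const.mul (s2 a b)),
      fun z hz => posDef_of_hq ?_ fun v hv0 => ?_, fun z hz a b c => ?_⟩
    · exact ((K.herm i z hz.1).smul (Complex.conj_ofReal _)).add
        ((lev_herm (hs i z hz)).smul (Complex.conj_ofReal _))
    · have := H i z hz v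
      have := hq_pos (hK i z hz.1) hv0
      refine lt_of_lt_of_eq ?_ (hv i z v).symm
      nlinarith [sq_nonneg ‖v ⬝ᵥ dr (fun y => U.l (A.p i y)) z‖]
    · have key : ∀ a b c, dz c (fun w => (((C + 1 : ℝ) : ℂ) • K.h i w +
          ((-1 : ℝ) : ℂ) • lev (fun y => U.l (A.p i y)) w) a b) z =
          ((C + 1 : ℝ) : ℂ) * dz c (fun w => K.h i w a b) z +
            ((-1 : ℝ) : ℂ) * dz c (fun w => lev (fun y => U.l (A.p i y)) w a b) z := by
        intro a b c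
        have d1 := diffAt hW (s1 a b) hz
        have d2 := diffAt hW (s2 a b) hz
        refine (dz_add (d1.const_mul _) (d2.const_mul _) c).1.trans ?_
        rw [(dz_mul (differentiableAt_const _) d1 c).1, (dz_mul (differentiableAt_const _) d2 c).1,
          (dz_const c _).1, (dz_const c _).1, zero_mul, zero_mul, zero_add, zero_add]
        rfl
      rw [key, key, K.closed i z hz.1, lev_closed (hs i z hz)]
  · have e1 := man_cpt_form (hinj := U.hinj) (hM := U.hW) K i j z hz φ hφ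
    have e2 := Man.levG_cpt hl i j z hz φ hφ
    simp only [Matrix.mul_add, Matrix.add_mul, Matrix.mul_smul, Matrix.smul_mul]
    rw [← e1]
    exact congrArg (fun m => ((C + 1 : ℝ) : ℂ) • K.h i z + ((-1 : ℝ) : ℂ) • m) e2
  · intro (i : A.ι) z hz v
    have a1 := H i z hz v
    have a2 := hq_nonneg (hK i z hz.1).posSemidef v
    have a3 := sq_nonneg ‖v ⬝ᵥ dr (fun y => U.l (A.p i y)) z‖
    simp only [hr]
    rw [hv]
    generalize (hq (lev (fun y => U.l (A.p i y)) z) v v).re = m at *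
    generalize (hq (K.h i z) v v).re = κ at *
    generalize ‖v ⬝ᵥ dr (fun y => U.l (A.p i y)) z‖ ^ 2 = n at *
    have a4 : κ ≤ (C + 1) * κ - m := by linarith
    have a5 := mul_le_mul_of_nonneg_left a4 hC
    have a6 := mul_nonneg hC a2
    exact ⟨abs_le.2 ⟨by nlinarith, by nlinarith⟩, by linarith⟩

theorem pd_cut [T2Space X] (U : Up A μ L) {K₀ : Form11 A}
    (hK : ∀ i, ∀ z ∈ (A.C i).W, (K₀.h i z).PosDef) (hB : Bd11 A K₀) (b : E r) {τ : ℝ} (hτ : 0 < τ) :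
    ∃ K' : A.ι → E (N + r) → Mat (N + r), (∀ i, Kah ((pD U b τ).W i) (K' i)) ∧
      (pD U b τ).Cpt K' ∧ (pD U b τ).Cut K' := by
  obtain ⟨K, C, k1, k2, hC, k3⟩ := sn1_lam U hK hB
  obtain ⟨hl1, hl0, -⟩ := U.l_calc
  obtain ⟨l, hl⟩ : ∃ l : X × E r → ℝ, l = fun y =>
    (1 / 2 : ℝ) * (U.l y.1 + bet b τ y) + Real.log τ / 2 := ⟨_, rfl⟩
  have key : ∀ (i : A.ι), ∀ z ∈ (pD U b τ).W i,
      ContDiffAt ℝ ∞ (fun y => l ((pD U b τ).p i y)) z ∧
      ContDiffAt ℝ ∞ (fun y => bet b τ ((pD U b τ).p i y)) z ∧ ∀ v,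
        0 ≤ hr ((pD U b τ).levG (bet b τ) i z) v ∧
        |hr ((pD U b τ).levG l i z) v| ≤ (C + 1) * (hr (K i (pr1 N r z)) (pr1 N r v) +
          hr ((pD U b τ).levG (bet b τ) i z) v) ∧
        ‖v ⬝ᵥ dr (fun y => l ((pD U b τ).p i y)) z‖ ^ 2 ≤ hr (K i (pr1 N r z)) (pr1 N r v) +
          hr ((pD U b τ).levG (bet b τ) i z) v ∧
        (pr2 N r v ≠ 0 → 0 < hr ((pD U b τ).levG (bet b τ) i z) v) := by
    intro i z hz
    have hG : ∀ᶠ w in 𝓝 z, DifferentiableAt ℂ (fun y => pr2 N r y - b) w :=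
      Eventually.of_forall fun w => (pr2 N r).differentiableAt.sub_const b
    obtain ⟨s2, a2⟩ := nr_ball hG (show nsq (pr2 N r z - b) < τ from hz.2)
    obtain ⟨s3, a3⟩ := sn0_pr (r := r) (z := z) (f := fun y => U.l (A.p i y))
      ((hl1 i).contDiffAt ((U.D.isOpen i).mem_nhds hz.1))
    subst hl
    refine ⟨(contDiffAt_const.mul (s3.add s2)).add contDiffAt_const, s2, fun v => ?_⟩
    obtain ⟨c4, c5⟩ := nr3_half s3 s2 (Real.log τ / 2) v
    have c7 := a2 v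
    rw [fderiv_sub_const, (pr2 N r).fderiv] at c7
    have hpos : 0 < τ - nsq (pr2 N r z - b) := sub_pos.2 hz.2
    have c8 : 0 ≤ nsq (pr2 N r v) / (τ - nsq (pr2 N r z - b)) := div_nonneg (nr3_nsq _) hpos.le
    have c9 : pr2 N r v ≠ 0 → 0 < nsq (pr2 N r v) / (τ - nsq (pr2 N r z - b)) := fun h =>
      div_pos ((pow_pos (norm_pos_iff.2 h) 2).trans_le (norm_sq_le_nsq _)) hpos
    have c11 := sq_nonneg ‖v ⬝ᵥ dr (fun w => -Real.log (τ - nsq (pr2 N r w - b))) z‖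
    obtain ⟨d1, d2⟩ := k3 i _ hz.1 (pr1 N r v)
    have d3 := hq_nonneg ((k1 i).pos _ hz.1).posSemidef (pr1 N r v)
    rw [(a3 v).1] at c4
    rw [(a3 v).2] at c5
    have e : hr ((pD U b τ).levG (bet b τ) i z) v =
        hr (lev (fun w => -Real.log (τ - nsq (pr2 N r w - b))) z) v := rfl
    rw [e]
    obtain ⟨d4, d5⟩ := abs_le.1 d1
    have d6 := mul_nonneg hC (show 0 ≤ hr (lev (fun w =>
      -Real.log (τ - nsq (pr2 N r w - b))) z) v by linarith)
    have d7 := mul_nonneg hC d3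
    refine ⟨by linarith, ?_, c5.trans (by linarith), fun h => by linarith [c9 h]⟩
    exact le_of_eq_of_le (congrArg abs c4) (abs_le.2 ⟨by linarith, by linarith⟩)
  have sl : (pD U b τ).Smo l := fun i z hz => (key i z hz).1.contDiffWithinAt
  have sΨ : (pD U b τ).Smo (bet b τ) := fun i z hz => (key i z hz).2.1.contDiffWithinAt
  have hv : ∀ (i : A.ι) z v, hr ((jac (pr1 N r) z)ᵀ * K i (pr1 N r z) *
      (jac (pr1 N r) z).map star + (pD U b τ).levG (bet b τ) i z) v =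
      hr (K i (pr1 N r z)) (pr1 N r v) + hr ((pD U b τ).levG (bet b τ) i z) v := by
    intro i z v
    rw [hr, hq_add, Complex.add_re, hq_conj, bpt2_jac, (pr1 N r).fderiv]
  have hM := pd_M U b τ
  refine ⟨fun i z => (jac (pr1 N r) z)ᵀ * K i (pr1 N r z) * (jac (pr1 N r) z).map star +
    (pD U b τ).levG (bet b τ) i z, fun (i : A.ι) => ?_, fun i j z hz f hf => ?_,
    cut_of_lam (C := C + 1) (by linarith) sl (fun y hy => ?_) (fun c => ?_) ?_⟩
  · have hW := (pD U b τ).isOpen i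
    have s1 : ∀ a b', ContDiffOn ℝ ∞ (fun z => ((jac (pr1 N r) z)ᵀ * K i (pr1 N r z) *
        (jac (pr1 N r) z).map star) a b') ((pD U b τ).W i) := by
      intro a b'
      simp only [Matrix.mul_apply, fun z => nr3_jac (pr1 N r) z 0]
      refine ContDiffOn.sum fun c _ => ContDiffOn.mul (ContDiffOn.sum fun e _ =>
        contDiffOn_const.mul ?_) contDiffOn_const
      exact ((k1 i).smooth e c).comp ((pr1 N r).restrictScalars ℝ).contDiff.contDiffOn
        fun z hz => hz.1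
    have s2 := lev_smooth hW (sΨ i)
    refine ⟨fun a b' => (s1 a b').add (s2 a b'),
      fun z hz => posDef_of_hq ?_ fun v hv0 => ?_, fun z hz a b' c => ?_⟩
    · refine Matrix.IsHermitian.add ?_ (lev_herm (key i z hz).2.1)
      have e := Matrix.isHermitian_mul_mul_conjTranspose (jac (pr1 N r) z)ᵀ
        ((k1 i).pos _ hz.1).1
      exact e
    · refine lt_of_lt_of_eq ?_ (hv i z v).symm
      obtain ⟨c1, -, -, c3⟩ := (key i z hz).2.2 v
      by_cases h2 : pr2 N r v = 0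
      · have h1 : pr1 N r v ≠ 0 := fun h1 => hv0 (by
          rw [← ap_pr v, h1, h2]
          exact map_zero (spl N r).symm)
        exact add_pos_of_pos_of_nonneg (hq_pos ((k1 i).pos _ hz.1) h1) c1
      · exact add_pos_of_nonneg_of_pos (hq_nonneg ((k1 i).pos _ hz.1).posSemidef _) (c3 h2)
    · have e1 := kah_pull (U.D.isOpen i) (k1 i)
        (F := pr1 N r) (y := z) (Eventually.of_forall fun _ => (pr1 N r).differentiableAt)
        hz.1 a b' c
      have e2 := lev_closed (key i z hz).2.1 a b' c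
      exact (dz_add (diffAt hW (s1 a b') hz) (diffAt hW (s2 a b') hz) c).1.trans
        ((congrArg₂ (· + ·) e1 e2).trans
          (dz_add (diffAt hW (s1 c b') hz) (diffAt hW (s2 c b') hz) a).1.symm)
  · have e1 := nr3_cpt (Bl_open b τ) k2 i j z hz f hf
    have e2 := Man.levG_cpt sΨ i j z hz f hf
    rw [Matrix.mul_add, Matrix.add_mul]
    exact congrArg₂ (· + ·) e1 e2
  · have h2 : nsq (y.2 - b) < τ := ((hM y).1 hy).2
    have a1 := hl0 _ ((hM y).1 hy).1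
    have a2 : Real.log (τ - nsq (y.2 - b)) ≤ Real.log τ :=
      Real.log_le_log (by linarith) (by linarith [nr3_nsq (y.2 - b)])
    rw [hl]
    simp only [bet]
    linarith
  · have he : 0 < τ * Real.exp (-(2 * c)) := mul_pos hτ (Real.exp_pos _)
    refine ⟨{x | x ∈ U.W ∧ -Real.exp (2 * c) ≤ U.ψ x} ×ˢ
      {w | nsq (w - b) ≤ τ - τ * Real.exp (-(2 * c))}, (U.ψ_cpt _).prod (nr3_ball b _),
      fun y hy => (hM y).2 ⟨hy.1.1, ?_⟩, fun y hy hw => ?_⟩
    · have h2 : nsq (y.2 - b) ≤ τ - τ * Real.exp (-(2 * c)) := hy.2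
      show nsq (y.2 - b) < τ
      linarith
    · obtain ⟨h1, h2⟩ := (hM y).1 hw
      have h2' : nsq (y.2 - b) < τ := h2
      have a1 := hl0 _ h1
      have a2 : Real.log (τ - nsq (y.2 - b)) ≤ Real.log τ :=
        Real.log_le_log (by linarith) (by linarith [nr3_nsq (y.2 - b)])
      rw [hl]
      simp only [bet]
      by_cases h3 : -Real.exp (2 * c) ≤ U.ψ y.1
      · have h4 : τ - τ * Real.exp (-(2 * c)) < nsq (y.2 - b) :=
          lt_of_not_ge fun h => hy ⟨⟨h1, h3⟩, h⟩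
        have a3 : Real.log (τ - nsq (y.2 - b)) < Real.log (τ * Real.exp (-(2 * c))) :=
          Real.log_lt_log (by linarith) (by linarith)
        rw [Real.log_mul hτ.ne' (Real.exp_ne_zero _), Real.log_exp] at a3
        linarith
      · have a4 : 2 * c < U.l y.1 :=
          (Real.lt_log_iff_exp_lt (by linarith [U.ψ_le _ h1])).2 (by linarith [not_le.1 h3])
        linarith
  · intro (i : A.ι) z hz v
    obtain ⟨-, c1, c2, -⟩ := (key i z hz).2.2 v
    have c4 := hv i z v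
    exact ⟨le_of_le_of_eq c1 (congrArg _ c4.symm), le_of_le_of_eq c2 c4.symm⟩

end Pool.Agent.ZB
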