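import Pool.Agent.P.MP_63735c_ag.SN1

/-! The curvature of the weight. -/

open scoped ComplexOrder ContDiff Matrix Topology ENNReal
open Set Metric MeasureTheory Filter

namespace Pool.Agent.ZB

open Pool.Agent.BP Pool.Agent.SPF Pool.Agent.AB Pool.Agent.CK Pool.Agent.SE Pool.Agent.NL

variable {N r : ℕ} {X : Type} [TopologicalSpace X] [MeasurableSpace X] {A : Atlas X N}
  {μ : Measure X} {L : Line A} {U : Up A μ L} {k : ℕ}

/-- The first part of the form that is dominated by the curvature. -/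
noncomputable def Gm.Q (S : Gm U r) (b : E r) (τ : ℝ) (i : A.ι) (z v : E (N + r)) : ℝ :=
  hr ((pD U b τ).levG (fun y => S.φ y.1) i z) v + hr ((pD U b τ).levG (bet b τ) i z) v

/-- The second part. -/
noncomputable def QP (U : Up A μ L) (r : ℕ) (i : A.ι) (z v : E (N + r)) : ℝ :=
  ‖v ⬝ᵥ dr (fun y => U.l2 (A.p i (pr1 N r y))) z‖ ^ 2

theorem sn2_G (S : Gm U r) {b : E r} {τ : ℝ} {i : A.ι} {z : E (N + r)}
    (hz : z ∈ (pD U b τ).W i) :
    (∀ᶠ w in 𝓝 z, DifferentiableAt ℂ (fun y => S.g (A.p i (pr1 N r y))) w) ∧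
      (∀ᶠ w in 𝓝 z, DifferentiableAt ℂ (fun y => pr2 N r y - b) w) ∧
      ∀ᶠ w in 𝓝 z, DifferentiableAt ℂ (fun y => S.g (A.p i (pr1 N r y)) - pr2 N r y) w := by
  have h : ∀ᶠ w in 𝓝 z, DifferentiableAt ℂ (fun y => S.g (A.p i (pr1 N r y))) w :=
    ((pr1 N r).continuous.continuousAt.eventually (S.g_hol hz.1)).mono fun w hw =>
      hw.comp w (pr1 N r).differentiableAt
  exact ⟨h, Eventually.of_forall fun w => (pr2 N r).differentiableAt.sub_const b,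
    h.mono fun w hw => hw.sub (pr2 N r).differentiableAt⟩

theorem Gm.Q_bd (S : Gm U r) {b : E r} {τ : ℝ} (hb : ‖b‖ ≤ 1) (h1 : τ ≤ 1) {i : A.ι}
    {z : E (N + r)} (hz : z ∈ (pD U b τ).W i) (v : E (N + r)) : 0 ≤ S.Q b τ i z v ∧
      ‖v ⬝ᵥ dr (fun y => bet b τ ((pD U b τ).p i y)) z‖ ^ 2 ≤ S.Q b τ i z v ∧
      (S.T ((pD U b τ).p i z) ≤ 1 →
        nsq (fderiv ℂ (fun y => S.g (A.p i (pr1 N r y)) - pr2 N r y) z v) ≤
          2 * (1 + 9 * r) ^ 2 * S.Q b τ i z v) := by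
  obtain ⟨g1, g2, -⟩ := sn2_G S hz
  have a1 : nsq (fderiv ℂ (fun y => S.g (A.p i (pr1 N r y))) z v) ≤
      (1 + nsq (S.g (A.p i (pr1 N r z)))) ^ 2 * hr ((pD U b τ).levG (fun y => S.φ y.1) i z) v :=
    (nr_fs g1).2 v
  have hB : nsq (pr2 N r z - b) < τ := hz.2
  have a2 : hr ((pD U b τ).levG (bet b τ) i z) v =
      nsq (fderiv ℂ (fun y => pr2 N r y - b) z v) / (τ - nsq (pr2 N r z - b)) +
        ‖v ⬝ᵥ dr (fun y => bet b τ ((pD U b τ).p i y)) z‖ ^ 2 := (nr_ball g2 hB).2 v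
  rw [fderiv_sub_const, (pr2 N r).fderiv] at a2
  have n1 := nr4_nonneg (S.g (A.p i (pr1 N r z)))
  have n2 := nr4_nonneg (pr2 N r z - b)
  have n3 := nr4_nonneg (pr2 N r v)
  have a3 : 0 ≤ hr ((pD U b τ).levG (fun y => S.φ y.1) i z) v :=
    nonneg_of_mul_nonneg_right ((nr4_nonneg _).trans a1) (by positivity)
  have a4 : nsq (pr2 N r v) ≤ nsq (pr2 N r v) / (τ - nsq (pr2 N r z - b)) :=
    le_div_self n3 (by linarith) (by linarith)
  have a5 := sq_nonneg ‖v ⬝ᵥ dr (fun y => bet b τ ((pD U b τ).p i y)) z‖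
  unfold Gm.Q
  refine ⟨by linarith, by linarith, fun hT => ?_⟩
  have b1 : nsq (S.g (A.p i (pr1 N r z))) ≤ 9 * r := nr4_nine hb hT (hB.le.trans h1)
  rw [fderiv_fun_sub g1.self_of_nhds (pr2 N r).differentiableAt, (pr2 N r).fderiv,
    sub_apply]
  refine (nr4_sub _ _).trans ?_
  have b2 : (1 + nsq (S.g (A.p i (pr1 N r z)))) ^ 2 ≤ (1 + 9 * r) ^ 2 := by gcongr
  have b3 := mul_le_mul_of_nonneg_right b2 a3
  have b4 : (1 : ℝ) ≤ (1 + 9 * r) ^ 2 := one_le_pow₀ (by linarith)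
  have b5 := mul_le_mul_of_nonneg_right b4
    (show 0 ≤ hr ((pD U b τ).levG (bet b τ) i z) v by linarith)
  linarith

theorem sn2_lev (r γ : ℕ) : ∃ j : ℕ, 1 ≤ j ∧ ∀ {N : ℕ} {X : Type} [TopologicalSpace X]
    [MeasurableSpace X] {A : Atlas X N} {μ : Measure X} {L : Line A} {U : Up A μ L} (S : Gm U r)
    (k : ℕ) (b : E r) (τ ε : ℝ), U.M ≤ k → ‖b‖ ≤ 1 → τ ≤ 1 →
    0 < ε → (pD U b τ).Smo (S.Φ j k γ ε b τ) ∧ ∀ i, ∀ z ∈ (pD U b τ).W i, ∀ v,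
      S.Q b τ i z v + QP U r i z v ≤ hr ((pD U b τ).levG (S.Φ j k γ ε b τ) i z) v := by
  obtain ⟨D, hD, hl⟩ := nr_lam
  refine ⟨⌈γ * (D * (2 * (1 + 9 * r : ℝ) ^ 2))⌉₊ + 1, by omega, ?_⟩
  intro N X _ _ A μ L U S k b τ ε hk hb h1 hε
  obtain ⟨j, hj⟩ : ∃ j : ℕ, j = ⌈γ * (D * (2 * (1 + 9 * r : ℝ) ^ 2))⌉₊ + 1 := ⟨_, rfl⟩
  have hj' : γ * (D * (2 * (1 + 9 * r : ℝ) ^ 2)) + 1 ≤ j := by
    rw [hj]
    push_cast
    linarith [Nat.le_ceil (γ * (D * (2 * (1 + 9 * r : ℝ) ^ 2)))]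
  rw [← hj]
  obtain ⟨u1, u2, -, -, u3⟩ := U.l2_calc
  have lw : ∀ i, ∀ z ∈ (pD U b τ).W i, ContDiffAt ℝ ∞
      (fun y => k * U.φ (A.p i (pr1 N r y)) + (1 + U.l (A.p i (pr1 N r y)))⁻¹) z ∧ ∀ v,
      QP U r i z v ≤ hr (lev (fun y => k * U.φ (A.p i (pr1 N r y)) +
        (1 + U.l (A.p i (pr1 N r y)))⁻¹) z) v := by
    intro (i : A.ι) z hz
    have hn := (U.D.isOpen i).mem_nhds hz.1
    have s1 : ContDiffAt ℝ ∞ (fun y => U.φ (A.p i y)) (pr1 N r z) := (U.pot.smo i).contDiffAt hn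
    have s2 : ContDiffAt ℝ ∞ (fun y => (1 + U.l (A.p i y))⁻¹) (pr1 N r z) := (u2 i).contDiffAt hn
    have s3 : ContDiffAt ℝ ∞ (fun y => U.l2 (A.p i y)) (pr1 N r z) := (u1 i).contDiffAt hn
    obtain ⟨a1, a2⟩ := sn0_pr ((contDiffAt_const (c := (k : ℝ)).mul s1).add s2)
    refine ⟨a1, fun v => ?_⟩
    rw [(a2 v).1, QP, ((sn0_pr s3).2 v).2, lev_add (contDiffAt_const.mul s1) s2, lev_smul s1,
      U.pot.lev i _ hz.1]
    have b1 := u3 i _ hz.1 (pr1 N r v)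
    have b2 := hq_nonneg ((A.C i).η_psd _ hz.1.1) (pr1 N r v)
    have b3 : (k : ℝ) ≤ k * U.m :=
      le_mul_of_one_le_right (Nat.cast_nonneg _) (Nat.one_le_cast.2 U.m_pos)
    simp only [hr, hq_add, hq_smul, Complex.add_re, Complex.re_ofReal_mul]
    nlinarith [mul_le_mul_of_nonneg_right (hk.trans b3) b2]
  have loc : ∀ i, ∀ z ∈ (pD U b τ).W i,
      ContDiffAt ℝ ∞ (fun y => S.φ ((pD U b τ).p i y).1) z ∧
      ContDiffAt ℝ ∞ (fun y => bet b τ ((pD U b τ).p i y)) z ∧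
      ContDiffAt ℝ ∞ (fun y => rho (Real.log (S.T ((pD U b τ).p i y) + ε))) z := fun i z hz =>
    ⟨(nr_fs (sn2_G S hz).1).1, (nr_ball (sn2_G S hz).2.1 hz.2).1, (hl (sn2_G S hz).2.2 hε).1⟩
  refine ⟨fun i z hz => ?_, fun i z hz v => ?_⟩
  · obtain ⟨a1, a2, a3⟩ := loc i z hz
    exact ((((contDiffAt_const.mul a1).add (contDiffAt_const.mul a2)).add
      (contDiffAt_const.mul a3)).add (lw i z hz).1).contDiffWithinAt
  · obtain ⟨a1, a2, a3⟩ := loc i z hz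
    obtain ⟨a4, a5⟩ := lw i z hz
    obtain ⟨q1, -, q3⟩ := S.Q_bd hb h1 hz v
    have e : (pD U b τ).levG (S.Φ j k γ ε b τ) i z =
        ((j : ℝ) : ℂ) • (pD U b τ).levG (fun y => S.φ y.1) i z +
          ((j : ℝ) : ℂ) • (pD U b τ).levG (bet b τ) i z + ((γ : ℝ) : ℂ) •
          lev (fun y => rho (Real.log (S.T ((pD U b τ).p i y) + ε))) z +
          lev (fun y => k * U.φ (A.p i (pr1 N r y)) + (1 + U.l (A.p i (pr1 N r y)))⁻¹) z := by
      refine (lev_add (((contDiffAt_const.mul a1).add (contDiffAt_const.mul a2)).add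
        (contDiffAt_const.mul a3)) a4).trans ?_
      rw [lev_add ((contDiffAt_const.mul a1).add (contDiffAt_const.mul a2))
        (contDiffAt_const.mul a3), lev_add (contDiffAt_const.mul a1) (contDiffAt_const.mul a2),
        lev_smul a1, lev_smul a2, lev_smul a3]
      rfl
    have b1 : -(D * (2 * (1 + 9 * r : ℝ) ^ 2 * S.Q b τ i z v)) ≤
        hr (lev (fun y => rho (Real.log (S.T ((pD U b τ).p i y) + ε))) z) v := by
      refine le_trans (neg_le_neg ?_) ((hl (sn2_G S hz).2.2 hε).2 v)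
      split_ifs with h
      · exact mul_le_mul_of_nonneg_left (q3 h) hD
      · positivity
    have b2 := mul_le_mul_of_nonneg_left b1 (Nat.cast_nonneg (α := ℝ) γ)
    have b3 := mul_le_mul_of_nonneg_right hj' q1
    have b4 := a5 v
    rw [e]
    simp only [hr, hq_add, hq_smul, Complex.add_re, Complex.re_ofReal_mul]
    unfold Gm.Q hr at *
    linarith

end Pool.Agent.ZB
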