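import Pool.Agent.P.MP_63735c_ag.SN2

/-! The derivative of the cut off function. -/

open scoped ComplexOrder ContDiff Matrix Topology ENNReal
open Set Metric MeasureTheory Filter

namespace Pool.Agent.ZB

open Pool.Agent.BP Pool.Agent.SPF Pool.Agent.AB Pool.Agent.CK Pool.Agent.SE Pool.Agent.NL

variable {N r : ℕ} {X : Type} [TopologicalSpace X] [MeasurableSpace X] {A : Atlas X N}
  {μ : Measure X} {L : Line A} {U : Up A μ L} {k : ℕ} {S : Gm U r} {h : X → ℂ} {b : E r} {τ C : ℝ}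

theorem sn3_far (H : S.Good k h b τ C) {y : X × E r} (hy : τ < S.T y) : 2 - 2 * S.T y / τ < 0 := by
  rw [sub_neg, lt_div_iff₀ H.τ_pos]
  linarith

theorem sn3_near {y : X × E r} (h2 : y.2 ∈ Bl b τ) (hy : S.T y ≤ τ) :
    nsq (S.g y.1 - b) < 4 * τ := by
  have a := nr4_tri (S.g y.1) y.2 b
  have a2 : nsq (y.2 - b) < τ := h2
  unfold Gm.T at hy
  linarith

theorem Gm.Good.cf_bd (H : S.Good k h b τ C) (R : ℝ) (y : X × E r) :
    ‖S.cf h b τ R y‖ ^ 2 ≤ C * Real.exp (k * U.φ y.1) ∧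
    (y.1 ∈ U.W → y.2 ∈ Bl b τ → ex U b τ y ≤ R → 2 * S.T y ≤ τ → S.cf h b τ R y = h y.1) := by
  have hC := H.C_nonneg
  refine ⟨?_, fun h1 h2 h3 h4 => ?_⟩
  · by_cases hy : y ∈ {y : X × E r | y.1 ∈ U.W ∧ y.2 ∈ Bl b τ}
    swap
    · rw [Gm.cf, indicator_of_notMem hy, norm_zero, zero_pow two_ne_zero]
      positivity
    rw [Gm.cf, indicator_of_mem hy]
    rcases lt_or_ge τ (S.T y) with h1 | h1
    · rw [Real.smoothTransition.zero_of_nonpos (sn3_far H h1).le, mul_zero, Complex.ofReal_zero,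
        zero_mul, norm_zero, zero_pow two_ne_zero]
      positivity
    rw [norm_mul, Complex.norm_real, Real.norm_of_nonneg
      (mul_nonneg (Real.smoothTransition.nonneg _) (Real.smoothTransition.nonneg _))]
    exact (pow_le_pow_left₀ (mul_nonneg (mul_nonneg (Real.smoothTransition.nonneg _)
      (Real.smoothTransition.nonneg _)) (norm_nonneg _)) (mul_le_of_le_one_left (norm_nonneg _)
      (mul_le_one₀ (Real.smoothTransition.le_one _) (Real.smoothTransition.nonneg _)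
        (Real.smoothTransition.le_one _))) 2).trans (H.bd _ hy.1 (sn3_near hy.2 h1).le)
  · rw [Gm.cf, indicator_of_mem (show y ∈ {y : X × E r | y.1 ∈ U.W ∧ y.2 ∈ Bl b τ} from ⟨h1, h2⟩),
      Real.smoothTransition.one_of_one_le (by linarith), Real.smoothTransition.one_of_one_le (by
      have : 2 * S.T y / τ ≤ 1 := (div_le_one H.τ_pos).2 h4
      linarith)]
    simp

theorem sn3_mem {i : A.ι} {z : E (N + r)} (hz : z ∈ (pD U b τ).W i) :
    (pD U b τ).p i z ∈ {y : X × E r | y.1 ∈ U.W ∧ y.2 ∈ Bl b τ} := ⟨hz.1.2, hz.2⟩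

theorem sn3_l2 {i : A.ι} {z : E (N + r)} (hz : z ∈ (pD U b τ).W i) :
    ContDiffAt ℝ ∞ (fun y => U.l2 (A.p i (pr1 N r y))) z :=
  (sn0_pr (f := fun y => U.l2 (A.p i y))
    ((U.l2_calc.1 i).contDiffAt ((U.D.isOpen i).mem_nhds hz.1))).1

theorem sn3_loc (S : Gm U r) (h : X → ℂ) (R : ℝ) {i : A.ι} {z : E (N + r)}
    (hz : z ∈ (pD U b τ).W i) : ContDiffAt ℝ ∞ (fun y => ex U b τ ((pD U b τ).p i y)) z ∧
      ContDiffAt ℝ ∞ (fun y => S.T ((pD U b τ).p i y)) z ∧
      (fun y => S.cf h b τ R ((pD U b τ).p i y)) =ᶠ[𝓝 z] fun y =>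
        ((Real.smoothTransition (R + 1 - ex U b τ ((pD U b τ).p i y)) *
          Real.smoothTransition (2 - 2 * S.T ((pD U b τ).p i y) / τ) : ℝ) : ℂ) *
            h (A.p i (pr1 N r y)) := by
  refine ⟨(nr_ball (sn2_G S hz).2.1 hz.2).1.add (sn3_l2 hz), ?_, ?_⟩
  · exact nsq_smooth.contDiffAt.comp z (smoothAt_of_hol (sn2_G S hz).2.2)
  · filter_upwards [((pD U b τ).isOpen i).mem_nhds hz] with y hy
    rw [Gm.cf, indicator_of_mem (sn3_mem hy)]
    rfl

theorem sn3_zero (H : S.Good k h b τ C) (R : ℝ) {i : A.ι} {z : E (N + r)} (hz : z ∈ (pD U b τ).W i)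
    (hT : τ < S.T ((pD U b τ).p i z)) :
    (fun y => S.cf h b τ R ((pD U b τ).p i y)) =ᶠ[𝓝 z] fun _ => 0 := by
  obtain ⟨-, a2, he⟩ := sn3_loc S h R hz
  filter_upwards [he, a2.continuousAt.eventually (lt_mem_nhds hT)] with y e1 e2
  rw [e1, Real.smoothTransition.zero_of_nonpos (sn3_far H e2).le]
  simp

theorem sn3_hol (H : S.Good k h b τ C) {i : A.ι} {z : E (N + r)} (hz : z ∈ (pD U b τ).W i)
    (hT : S.T ((pD U b τ).p i z) ≤ τ) :
    ∀ᶠ y in 𝓝 z, DifferentiableAt ℂ (fun y => h (A.p i (pr1 N r y))) y := by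
  have a0 : ContinuousAt (fun y => S.g (A.p i (pr1 N r y)) - b) z :=
    (sn2_G S hz).1.self_of_nhds.continuousAt.sub continuousAt_const
  have a1 : ContinuousAt (fun y => nsq (S.g (A.p i (pr1 N r y)) - b)) z :=
    ContinuousAt.comp (g := nsq) nsq_smooth.continuous.continuousAt a0
  have a2 : nsq (S.g (A.p i (pr1 N r z)) - b) < 4 * τ := sn3_near (y := (pD U b τ).p i z) hz.2 hT
  filter_upwards [((pD U b τ).isOpen i).mem_nhds hz, a1.eventually (gt_mem_nhds a2)] with y hy e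
  exact (H.hol i _ hy.1 e.le).comp y (pr1 N r).differentiableAt

theorem sn3_cs (H : S.Good k h b τ C) (R : ℝ) {F : Type} [Zero F]
    {u : X × E r → F} (h1 : ∀ y, R + 1 - ex U b τ y < 0 → u y = 0) :
    (pD U b τ).Cs ({y | y.1 ∈ U.W ∧ y.2 ∈ Bl b τ}.indicator u) := by
  have hτ := H.τ_le
  have he := Real.exp_pos (-(R + 1))
  refine ⟨_, (U.l2_calc.2.2.1 (R + 1)).prod (nr3_ball b (τ - Real.exp (-(R + 1)))),
    fun y hy => (pd_M U b τ y).2 ⟨hy.1.1, lt_of_le_of_lt hy.2 (sub_lt_self τ he)⟩, fun y hy => ?_⟩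
  by_cases hO : y ∈ {y : X × E r | y.1 ∈ U.W ∧ y.2 ∈ Bl b τ}
  swap
  · exact indicator_of_notMem hO _
  rw [indicator_of_mem hO]
  have hB : nsq (y.2 - b) < τ := hO.2
  refine h1 y ?_
  have a1 := bet_nn hτ hO.2
  have a2 := l2_nn U hO.1
  unfold ex
  rcases lt_or_ge (R + 1) (U.l2 y.1) with h3 | h3
  · linarith
  have h4 : τ - nsq (y.2 - b) < Real.exp (-(R + 1)) := by
    by_contra h5
    exact hy ⟨⟨hO.1, h3⟩, show nsq (y.2 - b) ≤ _ by linarith [not_lt.1 h5]⟩
  have h5 := (Real.log_lt_iff_lt_exp (by linarith)).2 h4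
  unfold bet
  linarith

theorem Gm.Good.cf_db [T2Space X] (H : S.Good k h b τ C) : ∃ B : ℝ, 0 ≤ B ∧ ∀ R,
    (pD U b τ).S (S.cf h b τ R) ∧ ∃ c : X × E r → ℝ, (pD U b τ).Cc c ∧ (∀ y, 0 ≤ c y) ∧
      (∀ y, c y ≤ Real.exp (k * U.φ y.1) *
        ((if R ≤ ex U b τ y then B else 0) + (if τ ≤ 2 * S.T y then B else 0))) ∧
      ∀ i, ∀ z ∈ (pD U b τ).W i, ∀ v,
        ‖v ⬝ᵥ star (db (fun y => S.cf h b τ R ((pD U b τ).p i y)) z)‖ ^ 2 ≤
          c ((pD U b τ).p i z) * (S.Q b τ i z v + QP U r i z v) := by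
  obtain ⟨s, D, hD, hsc, hs⟩ := bpe8_step
  have hτ := H.τ_pos
  have hC := H.C_nonneg
  obtain ⟨B', hB'⟩ : ∃ B' : ℝ, B' = 8 * (1 + 9 * r) ^ 2 / τ := ⟨_, rfl⟩
  have hB0 : 0 ≤ B' := by rw [hB']; positivity
  have hS : ContDiff ℝ ∞ Real.smoothTransition := Real.smoothTransition.contDiff
  refine ⟨C * 2 * (D * (2 + B')), by positivity, fun R => ?_⟩
  obtain ⟨c₀, hc₀⟩ : ∃ c₀ : X × E r → ℝ, c₀ = fun y => C * Real.exp (k * U.φ y.1) * 2 *
      (s (R + 1 - ex U b τ y) ^ 2 * Real.smoothTransition (2 - 2 * S.T y / τ) ^ 2 * 2 +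
        Real.smoothTransition (R + 1 - ex U b τ y) ^ 2 * s (2 - 2 * S.T y / τ) ^ 2 * B') :=
    ⟨_, rfl⟩
  have c0 : ∀ y, 0 ≤ c₀ y := fun y => by rw [hc₀]; positivity
  have mem := fun i z hz => sn3_mem (U := U) (b := b) (τ := τ) (i := i) (z := z) hz
  have loc := fun i z hz => sn3_loc S h R (b := b) (τ := τ) (i := i) (z := z) hz
  have far := fun i z hz => sn3_zero H R (i := i) (z := z) hz
  have near := fun i z hz => sn3_hol H (i := i) (z := z) hz
  have cs : (pD U b τ).Cs (S.cf h b τ R) := by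
    unfold Gm.cf
    refine sn3_cs H R fun y hy => ?_
    rw [Real.smoothTransition.zero_of_nonpos hy.le]
    simp
  have cs' : (pD U b τ).Cs ({y : X × E r | y.1 ∈ U.W ∧ y.2 ∈ Bl b τ}.indicator c₀) := by
    refine sn3_cs H R fun y hy => ?_
    rw [hc₀]
    simp only [Real.smoothTransition.zero_of_nonpos hy.le, (hs _).2.2.1 hy]
    simp
  refine ⟨⟨fun i z hz => ContDiffAt.contDiffWithinAt ?_, cs⟩,
    {y : X × E r | y.1 ∈ U.W ∧ y.2 ∈ Bl b τ}.indicator c₀, ⟨fun i => ?_, cs'⟩,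
    fun y => indicator_nonneg (fun y _ => c0 y) y, fun y => ?_, fun i z hz v => ?_⟩
  · rcases lt_or_ge τ (S.T ((pD U b τ).p i z)) with hT | hT
    · exact contDiffAt_const.congr_of_eventuallyEq (far i z hz hT)
    obtain ⟨a1, a2, he⟩ := loc i z hz
    refine ContDiffAt.congr_of_eventuallyEq ?_ he
    refine ContDiffAt.mul (Complex.ofRealCLM.contDiff.contDiffAt.comp z ?_)
      (smoothAt_of_hol' (near i z hz hT))
    exact (hS.contDiffAt.comp z (contDiffAt_const.sub a1)).mul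
      (hS.contDiffAt.comp z (contDiffAt_const.sub ((contDiffAt_const.mul a2).div_const _)))
  · refine ContinuousOn.congr (f := fun z => c₀ ((pD U b τ).p i z)) (fun z hz => ?_)
      fun z hz => indicator_of_mem (mem i z hz) _
    obtain ⟨a1, a2, -⟩ := loc i z hz
    have b1 : ContinuousAt (fun y => R + 1 - ex U b τ ((pD U b τ).p i y)) z :=
      continuousAt_const.sub a1.continuousAt
    have b2 : ContinuousAt (fun y => 2 - 2 * S.T ((pD U b τ).p i y) / τ) z :=
      continuousAt_const.sub ((continuousAt_const.mul a2.continuousAt).div_const _)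
    have b3 : ContinuousAt (fun y => U.φ (A.p i (pr1 N r y))) z := (sn0_pr (f := fun y =>
      U.φ (A.p i y)) ((U.pot.smo i).contDiffAt ((U.D.isOpen i).mem_nhds hz.1))).1.continuousAt
    rw [hc₀]
    exact (((continuousAt_const.mul (continuousAt_const.mul b3).rexp).mul continuousAt_const).mul
      (((((hsc.continuousAt.comp b1).pow 2).mul
        ((hS.continuous.continuousAt.comp b2).pow 2)).mul continuousAt_const).add
        ((((hS.continuous.continuousAt.comp b1).pow 2).mul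
          ((hsc.continuousAt.comp b2).pow 2)).mul continuousAt_const))).continuousWithinAt
  · by_cases hO : y ∈ {y : X × E r | y.1 ∈ U.W ∧ y.2 ∈ Bl b τ}
    swap
    · rw [indicator_of_notMem hO]
      positivity
    have h2 : s (R + 1 - ex U b τ y) ^ 2 * Real.smoothTransition (2 - 2 * S.T y / τ) ^ 2 * 2 ≤
        if R ≤ ex U b τ y then D * (2 + B') else 0 := by
      split_ifs with h
      · exact mul_le_mul ((mul_le_of_le_one_right (sq_nonneg _) (bpe8_sq _)).trans (hs _).2.1)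
          (by linarith) zero_le_two hD
      · rw [(hs _).2.2.2 (by linarith [not_le.1 h])]
        simp
    have h3 : Real.smoothTransition (R + 1 - ex U b τ y) ^ 2 * s (2 - 2 * S.T y / τ) ^ 2 * B' ≤
        if τ ≤ 2 * S.T y then D * (2 + B') else 0 := by
      split_ifs with h
      · exact mul_le_mul ((mul_le_of_le_one_left (sq_nonneg _) (bpe8_sq _)).trans (hs _).2.1)
          (by linarith) hB0 hD
      · have h4 : 2 * S.T y / τ < 1 := (div_lt_one hτ).2 (not_le.1 h)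
        rw [(hs _).2.2.2 (by linarith)]
        simp
    rw [indicator_of_mem hO, hc₀]
    refine (mul_le_mul_of_nonneg_left (add_le_add h2 h3) (by positivity)).trans (le_of_eq ?_)
    split_ifs <;> ring
  · obtain ⟨q1, q2, q3⟩ := S.Q_bd H.b_le H.τ_le hz v
    have q4 : 0 ≤ QP U r i z v := sq_nonneg _
    rw [indicator_of_mem (mem i z hz)]
    rcases lt_or_ge τ (S.T ((pD U b τ).p i z)) with hT | hT
    · rw [(db_congr (far i z hz hT)).eq_of_nhds, db_const]
      simpa using mul_nonneg (c0 _) (add_nonneg q1 q4)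
    obtain ⟨a1, a2, he⟩ := loc i z hz
    rw [(db_congr he).eq_of_nhds]
    refine (nr4_core R τ (fun t => (hs t).1) (a1.differentiableAt (by simp))
      (a2.differentiableAt (by simp)) (near i z hz hT).self_of_nhds v).trans ?_
    have k1 := H.bd _ hz.1.2 (sn3_near (y := (pD U b τ).p i z) hz.2 hT).le
    have k0 : ‖v ⬝ᵥ dr (fun y => ex U b τ ((pD U b τ).p i y)) z‖ ^ 2 ≤
        2 * (S.Q b τ i z v + QP U r i z v) := by
      have e1 := dr_add ((nr_ball (sn2_G S hz).2.1 hz.2).1.differentiableAt (by simp))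
        ((sn3_l2 hz).differentiableAt (by simp))
      refine le_of_eq_of_le (congrArg (fun u => ‖v ⬝ᵥ u‖ ^ 2) e1) ?_
      simp only [dotProduct_add]
      exact (pow_le_pow_left₀ (norm_nonneg _) (norm_add_le _ _) 2).trans (add_sq_le.trans
        (mul_le_mul_of_nonneg_left (add_le_add q2 le_rfl) zero_le_two))
    have k2 : ‖v ⬝ᵥ dr (fun y => S.T ((pD U b τ).p i y)) z‖ ^ 2 ≤
        τ * (2 * (1 + 9 * r) ^ 2 * S.Q b τ i z v) := (nr_grad (sn2_G S hz).2.2 v).trans
      (mul_le_mul hT (q3 (hT.trans H.τ_le)) (nr4_nonneg _) hτ.le)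
    have k3 : (2 / τ) ^ 2 * ‖v ⬝ᵥ dr (fun y => S.T ((pD U b τ).p i y)) z‖ ^ 2 ≤
        B' * (S.Q b τ i z v + QP U r i z v) := by
      refine (mul_le_mul_of_nonneg_left k2 (sq_nonneg _)).trans (le_of_eq_of_le ?_
        (mul_le_mul_of_nonneg_left (le_add_of_nonneg_right q4) hB0))
      rw [hB']
      field_simp
      ring
    refine (mul_le_mul k1 (mul_le_mul_of_nonneg_left (add_le_add
      (mul_le_mul_of_nonneg_left k0 (by positivity)) (mul_le_mul_of_nonneg_left k3 (by positivity)))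
      zero_le_two) (by positivity) (by positivity)).trans (le_of_eq ?_)
    rw [hc₀]
    change _ = C * Real.exp (k * U.φ (A.p i (pr1 N r z))) * 2 * _ * _
    ring

end Pool.Agent.ZB
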