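import Pool.Agent.P.MP_63735c_ag.SN3
import Pool.Agent.P.MP_63735c_ag.BPE9

/-! Holomorphic functions on the product that are close to `h` along the graph. -/

open scoped ComplexOrder ContDiff Matrix Topology ENNReal
open Set Metric MeasureTheory Filter

namespace Pool.Agent.ZB

open Pool.Agent.BP Pool.Agent.SPF Pool.Agent.AB Pool.Agent.CK Pool.Agent.SE Pool.Agent.NL
  Pool.Agent.CS

theorem sn_out (r γ : ℕ) : ∃ j : ℕ, 1 ≤ j ∧ ∀ {N : ℕ} {X : Type} [TopologicalSpace X]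
    [MeasurableSpace X] [BorelSpace X] [T2Space X] {A : Atlas X N} {L : Line A} {μ : Measure X}
    [IsFiniteMeasure μ] {K : Form11 A} {U : Up A μ L} (S : Gm U r) (k : ℕ) (h : X → ℂ) (b : E r)
    (τ C : ℝ), U.M ≤ k → IsVolume A μ → (∀ i, ∀ z ∈ (A.C i).W, (K.h i z).PosDef) → Bd11 A K →
    S.Good k h b τ C → ∃ C₀ : ℝ, 0 < C₀ ∧ ∀ ε, 0 < ε → ε ≤ 1 → ∀ R₀, ∃ R, R₀ ≤ R ∧
      ∃ G, (pD U b τ).Hol G ∧
        ∀ i, S.dist j k γ ε b τ G (S.cf h b τ R) i ≤ ENNReal.ofReal C₀ := by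
  obtain ⟨j, hj, hΦ⟩ := sn2_lev r γ
  refine ⟨j, hj, ?_⟩
  intro N X _ _ _ _ A L μ _ K U S k h b τ C hk hμ hK hKb H
  obtain ⟨B, hB, hcf⟩ := H.cf_db
  obtain ⟨K', k1, k2, k3⟩ := pd_cut U hK hKb b H.τ_pos
  have hτ := H.τ_pos
  have hτ1 := H.τ_le
  obtain ⟨C₁, hC₁⟩ : ∃ C₁, C₁ = B + B * Real.exp (-(γ * Real.log (τ / 2))) := ⟨_, rfl⟩
  have hC0 : 0 ≤ C₁ := by
    rw [hC₁]
    positivity
  have hv : (ENNReal.ofReal C₁ * μ univ + 1) * volume (Bl b τ) ≠ ⊤ := ENNReal.mul_ne_top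
    (ENNReal.add_ne_top.2 ⟨ENNReal.mul_ne_top ENNReal.ofReal_ne_top (measure_ne_top μ _),
      ENNReal.one_ne_top⟩) (nr5_vol b hτ1)
  refine ⟨((ENNReal.ofReal C₁ * μ univ + 1) * volume (Bl b τ)).toReal + 1, by positivity,
    fun ε hε hε1 R₀ => ?_⟩
  have hγ : (0 : ℝ) ≤ γ := Nat.cast_nonneg _
  have hl0 : 0 ≤ -(γ * Real.log ε) :=
    neg_nonneg.2 (mul_nonpos_of_nonneg_of_nonpos hγ (Real.log_nonpos hε.le hε1))
  obtain ⟨R₁, hR, Z, hZ, hZ1, hZ2⟩ := bpe9_tail U (f := fun _ => 1) (by simp)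
    (a := ENNReal.ofReal (B * Real.exp (-(γ * Real.log ε)))) ENNReal.ofReal_ne_top R₀
  refine ⟨R₁ + -(γ * Real.log ε), by linarith, ?_⟩
  obtain ⟨hs, c, hc, hc0, hcb, hsc⟩ := hcf (R₁ + -(γ * Real.log ε))
  obtain ⟨sm, hl⟩ := hΦ S k b τ ε hk H.b_le hτ1 hε
  obtain ⟨G, hG, hd⟩ := pd_l2 U hμ hτ1 k1 k2 k3 sm
    (fun i z hz v => (add_nonneg (S.Q_bd H.b_le hτ1 hz v).1 (sq_nonneg _)).trans (hl i z hz v))
    hs hc hc0
    (fun i z hz v => (hsc i z hz v).trans (mul_le_mul_of_nonneg_left (hl i z hz v) (hc0 _)))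
    (f := fun x => ENNReal.ofReal C₁ +
      Z.indicator (fun _ => ENNReal.ofReal (B * Real.exp (-(γ * Real.log ε)))) x) fun y hx hy => by
      have p1 := S.φ_nn y.1
      have p2 := bet_nn hτ1 hy
      have p3 : 0 ≤ S.T y := nr5_nsq _
      have hj' : (1 : ℝ) ≤ j := by exact_mod_cast hj
      have p4 : 0 ≤ (j : ℝ) * S.φ y.1 := by positivity
      have p5 : bet b τ y ≤ j * bet b τ y := le_mul_of_one_le_left p2 hj'
      have p6 : 0 ≤ (1 + U.l y.1)⁻¹ := by
        have := U.l_calc.2.1 _ hx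
        positivity
      obtain ⟨P, hP⟩ : ∃ P, P = Real.exp (k * U.φ y.1 + -S.Φ j k γ ε b τ y) := ⟨_, rfl⟩
      have r1 := mul_le_mul_of_nonneg_left (nr5_rho hε hε1 (t := S.T y + ε) (by linarith)) hγ
      have q1 : (if R₁ + -(γ * Real.log ε) ≤ ex U b τ y then B else 0) * P ≤
          B + Z.indicator (fun _ => B * Real.exp (-(γ * Real.log ε))) y.1 := by
        have a0 : 0 ≤ Z.indicator (fun _ => B * Real.exp (-(γ * Real.log ε))) y.1 :=
          indicator_nonneg (fun _ _ => by positivity) _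
        split_ifs with hR
        swap
        · rw [zero_mul]
          positivity
        rcases le_or_gt R₁ (U.l2 y.1) with h1 | h1
        · rw [indicator_of_mem (hZ1 _ hx h1), hP]
          refine le_add_of_nonneg_of_le hB (mul_le_mul_of_nonneg_left (Real.exp_le_exp.2 ?_) hB)
          unfold Gm.Φ
          linarith
        · refine le_add_of_le_of_nonneg (mul_le_of_le_one_right hB ?_) a0
          rw [hP, Real.exp_le_one_iff]
          unfold ex at hR
          unfold Gm.Φ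
          linarith
      have q2 : (if τ ≤ 2 * S.T y then B else 0) * P ≤ B * Real.exp (-(γ * Real.log (τ / 2))) := by
        split_ifs with hT
        · rw [hP]
          refine mul_le_mul_of_nonneg_left (Real.exp_le_exp.2 ?_) hB
          have := mul_le_mul_of_nonneg_left (nr5_rho (a := τ / 2) (by linarith) (by linarith)
            (t := S.T y + ε) (by linarith)) hγ
          unfold Gm.Φ
          linarith
        · rw [zero_mul]
          positivity
      have q3 := mul_le_mul_of_nonneg_right (hcb y) (Real.exp_pos (-S.Φ j k γ ε b τ y)).le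
      rw [mul_right_comm, ← Real.exp_add, ← hP, mul_comm P, add_mul] at q3
      refine (ENNReal.ofReal_le_ofReal (q := C₁ + Z.indicator
        (fun _ => B * Real.exp (-(γ * Real.log ε))) y.1) (by linarith)).trans
        (ENNReal.ofReal_add_le.trans (add_le_add le_rfl (le_of_eq ?_)))
      by_cases h1 : y.1 ∈ Z <;> simp [h1]
  refine ⟨G, hG, fun i => (hd i).trans ?_⟩
  rw [ENNReal.ofReal_add ENNReal.toReal_nonneg zero_le_one, ENNReal.ofReal_toReal hv]
  refine le_add_right (mul_le_mul_left ?_ _)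
  rw [lintegral_add_left measurable_const, lintegral_indicator hZ, setLIntegral_const]
  refine add_le_add (mul_le_mul_right (measure_mono (subset_univ _)) _) (le_of_eq_of_le ?_ hZ2)
  simp

end Pool.Agent.ZB
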