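import Pool.Agent.P.MP_63735c_ag.SN3

/-! The slices of a holomorphic function on the product. -/

open scoped ComplexOrder ContDiff Matrix Topology ENNReal
open Set Metric MeasureTheory Filter

namespace Pool.Agent.ZB

open Pool.Agent.BP Pool.Agent.SPF Pool.Agent.AB Pool.Agent.CK Pool.Agent.SE Pool.Agent.NL

variable {N r : ℕ}

theorem sn5_ton {s : Set (E N)} {t : Set (E r)} (hs : IsOpen s) (ht : IsOpen t)
    {f : E (N + r) → ℝ} (hf : ContinuousOn f {z | pr1 N r z ∈ s ∧ pr2 N r z ∈ t}) :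
    ∫⁻ a in s, ∫⁻ w in t, ENNReal.ofReal (f (ap a w)) =
      ∫⁻ z in {z | pr1 N r z ∈ s ∧ pr2 N r z ∈ t}, ENNReal.ofReal (f z) := by
  have h1 : ContinuousOn (fun q : E N × E r => f (ap q.1 q.2)) (s ×ˢ t) :=
    hf.comp (f := fun q : E N × E r => ap q.1 q.2) (spl N r).symm.continuous.continuousOn
      fun q hq => ⟨by rw [pr1_ap]; exact hq.1, by rw [pr2_ap]; exact hq.2⟩
  have h2 := setLIntegral_prod (μ := volume) (ν := volume)
    (fun q : E N × E r => ENNReal.ofReal (f (ap q.1 q.2)))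
    (h1.aemeasurable (hs.prod ht).measurableSet).ennreal_ofReal
  have h3 := (spl_mp N r).setLIntegral_comp_preimage_emb
    (spl N r).toHomeomorph.measurableEmbedding
    (fun q : E N × E r => ENNReal.ofReal (f (ap q.1 q.2))) (s ×ˢ t)
  refine h2.symm.trans (h3.symm.trans (lintegral_congr fun z => ?_))
  exact congrArg (fun u => ENNReal.ofReal (f u)) (ap_pr z)

variable {X : Type} [TopologicalSpace X] [MeasurableSpace X] {A : Atlas X N}
  {μ : Measure X} {L : Line A} {U : Up A μ L} {k : ℕ} {S : Gm U r} {h : X → ℂ} {b : E r} {τ C : ℝ}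
  {G : X × E r → ℂ}

theorem pd_hol1 (hG : (pD U b τ).Hol G) {w : E r} (hw : w ∈ Bl b τ) :
    U.D.Hol fun x => G (x, w) := fun (i : A.ι) => by
  refine ((hG i).comp (s := U.D.W i) (nr6_ap 0 w).1.differentiableOn fun z hz =>
    ⟨by rw [pr1_ap]; exact hz, by rw [pr2_ap]; exact hw⟩).congr fun z _ => ?_
  change _ = G (A.p i (pr1 N r (ap z w)), pr2 N r (ap z w))
  rw [pr1_ap, pr2_ap]
  rfl

theorem pd_hol2 (hG : (pD U b τ).Hol G) {i : A.ι} {a : E N} (ha : a ∈ U.D.W i) :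
    DifferentiableOn ℂ (fun w => G (A.p i a, w)) (Bl b τ) := by
  refine ((hG i).comp (s := Bl b τ) (f := fun w => ap a w) ((spl N r).symm.differentiable.comp
    ((differentiable_const _).prodMk differentiable_id)).differentiableOn fun z hz =>
    ⟨by rw [pr1_ap]; exact ha, by rw [pr2_ap]; exact hz⟩).congr fun z _ => ?_
  change _ = G (A.p i (pr1 N r (ap a z)), pr2 N r (ap a z))
  rw [pr1_ap, pr2_ap]

theorem Gm.Good.slice [BorelSpace X] [IsFiniteMeasure μ] (H : S.Good k h b τ C)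
    (hμ : IsVolume A μ) (j γ : ℕ) (C₀ : ℝ) : ∃ C₁ : ℝ, 0 ≤ C₁ ∧ ∀ ε R G, (pD U b τ).Hol G →
      ∀ i, S.dist j k γ ε b τ G (S.cf h b τ R) i ≤ ENNReal.ofReal C₀ → ∀ w ∈ Bl b (τ / 4),
        ∫⁻ a in U.D.W i, ENNReal.ofReal (Real.exp (-(j * S.φ (A.p i a) + k * U.φ (A.p i a))) *
          ‖((A.C i).σ a).det‖ * ‖G (A.p i a, w)‖ ^ 2) ≤ ENNReal.ofReal C₁ := by
  have hτ := H.τ_pos
  have hC := H.C_nonneg
  obtain ⟨δ, hδ, hδ1⟩ : ∃ δ : ℝ, 0 < δ ∧ r * δ ^ 2 ≤ τ / 8 := by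
    refine ⟨√(τ / 8 / (r + 1)), Real.sqrt_pos.2 (by positivity), ?_⟩
    rw [Real.sq_sqrt (by positivity), ← mul_div_assoc, div_le_iff₀ (by positivity)]
    linarith
  obtain ⟨c, hc, hmv⟩ := CL.mv_rad (N := r)
  obtain ⟨κ, hκ⟩ : ∃ κ, κ = c * (δ ^ r) ^ 2 := ⟨_, rfl⟩
  have hκ0 : 0 < κ := by rw [hκ]; positivity
  obtain ⟨a₀, ha₀⟩ : ∃ a₀, a₀ = 2 * Real.exp (j * -Real.log (τ / 4) + 1) := ⟨_, rfl⟩
  have ha0 : 0 ≤ a₀ := by rw [ha₀]; positivity
  obtain ⟨V, hV⟩ : ∃ V, V = ENNReal.ofReal a₀ * ENNReal.ofReal C₀ +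
    ENNReal.ofReal (2 * C) * (μ univ * volume (ball (0 : E r) δ)) := ⟨_, rfl⟩
  have hVt : V ≠ ⊤ := hV ▸ ENNReal.add_ne_top.2
    ⟨ENNReal.mul_ne_top ENNReal.ofReal_ne_top ENNReal.ofReal_ne_top,
      ENNReal.mul_ne_top ENNReal.ofReal_ne_top
        (ENNReal.mul_ne_top (measure_ne_top μ _) measure_ball_lt_top.ne)⟩
  refine ⟨κ⁻¹ * V.toReal, by positivity, fun ε R G hG i hi w hw => ?_⟩
  have hw' : nsq (w - b) < τ / 4 := hw
  have hb : ∀ u ∈ ball w δ, nsq (u - b) ≤ 3 * τ / 4 := fun u hu => by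
    have a1 := nr4_tri u w b
    have a2 := (nsq_le (u - w)).2
    have a3 : ‖u - w‖ ^ 2 ≤ δ ^ 2 :=
      pow_le_pow_left₀ (norm_nonneg _) (mem_ball_iff_norm.1 hu).le 2
    linarith [mul_le_mul_of_nonneg_left a3 (Nat.cast_nonneg (α := ℝ) r)]
  have hb' : ball w δ ⊆ Bl b τ := fun u hu => (hb u hu).trans_lt (by linarith)
  obtain ⟨ρ, hρ⟩ : ∃ ρ : E N → ℝ, ρ = fun a =>
    Real.exp (-(j * S.φ (A.p i a) + k * U.φ (A.p i a))) * ‖((A.C i).σ a).det‖ := ⟨_, rfl⟩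
  have hρ0 : ∀ a, 0 ≤ ρ a := fun a => by rw [hρ]; positivity
  have hZ : {z | pr1 N r z ∈ U.D.W i ∧ pr2 N r z ∈ ball w δ} ⊆ (pD U b τ).W i :=
    fun z hz => ⟨hz.1, hb' hz.2⟩
  have hZm : MeasurableSet {z | pr1 N r z ∈ U.D.W i ∧ pr2 N r z ∈ ball w δ} :=
    (((U.D.isOpen i).preimage (pr1 N r).continuous).inter
      (isOpen_ball.preimage (pr2 N r).continuous)).measurableSet
  have cd : ContinuousOn (fun z => ‖((A.C i).σ (pr1 N r z)).det‖)
      {z | pr1 N r z ∈ U.D.W i ∧ pr2 N r z ∈ ball w δ} :=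
    (bpe0_det i).comp (pr1 N r).continuous.continuousOn fun z hz => hz.1.1
  have cρ : ContinuousOn ρ (U.D.W i) := by
    have c1 : ContinuousOn (fun a => S.φ (A.p i a)) (U.D.W i) := fun a ha =>
      (nr_fs (S.g_hol ha)).1.continuousAt.continuousWithinAt
    rw [hρ]
    exact ((continuousOn_const.mul c1).add (continuousOn_const.mul
      (U.pot.smo i).continuousOn)).neg.rexp.mul ((bpe0_det i).mono inter_subset_left)
  have e1 := sn5_ton (U.D.isOpen i) isOpen_ball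
    (f := fun z => ρ (pr1 N r z) * ‖G (A.p i (pr1 N r z), pr2 N r z)‖ ^ 2)
    ((cρ.comp (pr1 N r).continuous.continuousOn fun z hz => hz.1).mul
      (((hG i).continuousOn.mono hZ).norm.pow 2))
  have e2 := sn5_ton (U.D.isOpen i) isOpen_ball cd
  simp only [pr1_ap, pr2_ap] at e1 e2
  have e3 : ∫⁻ z in {z | pr1 N r z ∈ U.D.W i ∧ pr2 N r z ∈ ball w δ},
      ENNReal.ofReal ‖((A.C i).σ (pr1 N r z)).det‖ ≤ μ univ * volume (ball (0 : E r) δ) := by
    rw [← e2]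
    simp only [setLIntegral_const]
    rw [lintegral_mul_const' _ _ measure_ball_lt_top.ne, Measure.addHaar_ball_center]
    refine mul_le_mul_left (le_of_eq_of_le ?_ (measure_mono (subset_univ (A.p i '' U.D.W i)))) _
    rw [hμ i (U.D.W i) inter_subset_left (U.D.isOpen i).measurableSet]
    simp only [ofReal_norm]
  have e4 : ∫⁻ z in {z | pr1 N r z ∈ U.D.W i ∧ pr2 N r z ∈ ball w δ}, ENNReal.ofReal
      (ρ (pr1 N r z) * ‖G (A.p i (pr1 N r z), pr2 N r z)‖ ^ 2) ≤ V := by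
    refine (setLIntegral_mono' hZm (g := fun z => ENNReal.ofReal a₀ * ENNReal.ofReal
      (Real.exp (-S.Φ j k γ ε b τ ((pD U b τ).p i z)) * ‖((A.C i).σ (pr1 N r z)).det‖ *
        ‖G ((pD U b τ).p i z) - S.cf h b τ R ((pD U b τ).p i z)‖ ^ 2) +
      ENNReal.ofReal (2 * C) * ENNReal.ofReal ‖((A.C i).σ (pr1 N r z)).det‖)
      fun z hz => ?_).trans ?_
    swap
    · rw [lintegral_add_right' _ ((cd.aemeasurable hZm).ennreal_ofReal.const_mul _),
        lintegral_const_mul' _ _ ENNReal.ofReal_ne_top,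
        lintegral_const_mul' _ _ ENNReal.ofReal_ne_top, hV]
      exact add_le_add (mul_le_mul_right ((lintegral_mono_set hZ).trans hi) _)
        (mul_le_mul_right e3 _)
    rw [← ENNReal.ofReal_mul ha0, ← ENNReal.ofReal_mul (by positivity),
      ← ENNReal.ofReal_add (by positivity) (by positivity)]
    refine ENNReal.ofReal_le_ofReal ?_
    have b1 := (H.cf_bd R ((pD U b τ).p i z)).1
    have b2 : bet b τ ((pD U b τ).p i z) ≤ -Real.log (τ / 4) :=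
      neg_le_neg (Real.log_le_log (by positivity) (by
        change _ ≤ τ - nsq (pr2 N r z - b)
        linarith [hb _ hz.2]))
    have b3 : 2 * Real.exp (-(j * S.φ (A.p i (pr1 N r z)) + k * U.φ (A.p i (pr1 N r z)))) ≤
        a₀ * Real.exp (-S.Φ j k γ ε b τ ((pD U b τ).p i z)) := by
      rw [ha₀, mul_assoc, ← Real.exp_add]
      refine mul_le_mul_of_nonneg_left (Real.exp_le_exp.2 ?_) zero_le_two
      have a1 := mul_le_mul_of_nonneg_left b2 (Nat.cast_nonneg (α := ℝ) j)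
      have a2 := mul_nonneg (Nat.cast_nonneg (α := ℝ) γ)
        (neg_nonneg.2 (rho_bd (Real.log (S.T ((pD U b τ).p i z) + ε))).1)
      have a3 : S.Φ j k γ ε b τ ((pD U b τ).p i z) = j * S.φ (A.p i (pr1 N r z)) +
          j * bet b τ ((pD U b τ).p i z) + γ * rho (Real.log (S.T ((pD U b τ).p i z) + ε)) +
          (k * U.φ (A.p i (pr1 N r z)) + (1 + U.l (A.p i (pr1 N r z)))⁻¹) := rfl
      have a4 : (1 + U.l (A.p i (pr1 N r z)))⁻¹ ≤ 1 :=
        inv_le_one_of_one_le₀ (by linarith [U.l_calc.2.1 _ hz.1.2])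
      rw [a3]
      linarith
    have b4 : Real.exp (-(j * S.φ (A.p i (pr1 N r z)) + k * U.φ (A.p i (pr1 N r z)))) *
        (C * Real.exp (k * U.φ (A.p i (pr1 N r z)))) ≤ C := by
      rw [mul_left_comm, ← Real.exp_add]
      refine mul_le_of_le_one_right hC (Real.exp_le_one_iff.2 ?_)
      linarith [mul_nonneg (Nat.cast_nonneg (α := ℝ) j) (S.φ_nn (A.p i (pr1 N r z)))]
    rw [hρ]
    change _ * ‖G ((pD U b τ).p i z)‖ ^ 2 ≤ _
    change _ ≤ C * Real.exp (k * U.φ (A.p i (pr1 N r z))) at b1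
    have b5 := Real.exp_nonneg (-(j * S.φ (A.p i (pr1 N r z)) + k * U.φ (A.p i (pr1 N r z))))
    have b6 := norm_nonneg ((A.C i).σ (pr1 N r z)).det
    beta_reduce
    generalize Real.exp (-(j * S.φ (A.p i (pr1 N r z)) + k * U.φ (A.p i (pr1 N r z)))) = p at *
    generalize Real.exp (-S.Φ j k γ ε b τ ((pD U b τ).p i z)) = q at *
    generalize G ((pD U b τ).p i z) = g at *
    generalize S.cf h b τ R ((pD U b τ).p i z) = s at *
    generalize ‖((A.C i).σ (pr1 N r z)).det‖ = d at *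
    have b7 : ‖g‖ ^ 2 ≤ 2 * ‖g - s‖ ^ 2 + 2 * ‖s‖ ^ 2 := by
      have h2 := norm_add_le (g - s) s
      rw [sub_add_cancel] at h2
      exact (pow_le_pow_left₀ (norm_nonneg _) h2 2).trans (add_sq_le.trans_eq (by ring))
    have b8 := (mul_le_mul_of_nonneg_left b1 b5).trans b4
    calc p * d * ‖g‖ ^ 2 ≤ p * d * (2 * ‖g - s‖ ^ 2 + 2 * ‖s‖ ^ 2) := by gcongr
      _ = 2 * p * (d * ‖g - s‖ ^ 2) + 2 * (p * ‖s‖ ^ 2) * d := by ring
      _ ≤ a₀ * q * (d * ‖g - s‖ ^ 2) + 2 * C * d := by gcongr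
      _ = _ := by ring
  rw [ENNReal.ofReal_mul (inv_pos.2 hκ0).le, ENNReal.ofReal_toReal hVt]
  refine le_trans ?_ (mul_le_mul_right (e1.le.trans e4) _)
  rw [← lintegral_const_mul' _ _ ENNReal.ofReal_ne_top]
  refine setLIntegral_mono' (U.D.isOpen i).measurableSet fun a ha => ?_
  have m1 : ENNReal.ofReal (κ * ‖G (A.p i a, w)‖ ^ 2) ≤
      ∫⁻ u in ball w δ, ENNReal.ofReal (‖G (A.p i a, u)‖ ^ 2) := by
    by_cases ht : ∫⁻ u in ball w δ, ENNReal.ofReal (‖G (A.p i a, u)‖ ^ 2) = ⊤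
    · exact ht ▸ le_top
    refine ENNReal.ofReal_le_of_le_toReal (le_of_eq_of_le ?_ (hmv _ w δ _ hδ ENNReal.toReal_nonneg
      ((pd_hol2 hG ha).mono hb') (ENNReal.ofReal_toReal ht).ge))
    rw [hκ]
    ring
  simp only [ENNReal.ofReal_mul (hρ0 a)]
  rw [lintegral_const_mul' _ _ ENNReal.ofReal_ne_top]
  refine le_of_eq_of_le ?_ (mul_le_mul_right (mul_le_mul_right m1 _) _)
  rw [← ENNReal.ofReal_mul (hρ0 a), ← ENNReal.ofReal_mul (inv_pos.2 hκ0).le, hρ]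
  congr 1
  field_simp

end Pool.Agent.ZB
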