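import Pool.Agent.P.MP_63735c_ag.SN3

/-! The value on the graph. -/

open scoped ComplexOrder ContDiff Matrix Topology ENNReal
open Set Metric MeasureTheory Filter

namespace Pool.Agent.ZB

open Pool.Agent.BP Pool.Agent.SPF Pool.Agent.AB Pool.Agent.CK Pool.Agent.SE Pool.Agent.NL

variable {N r : ℕ} {X : Type} [TopologicalSpace X] [MeasurableSpace X] {A : Atlas X N}
  {μ : Measure X} {L : Line A} {U : Up A μ L} {k : ℕ} {S : Gm U r} {h : X → ℂ} {b : E r} {τ C : ℝ}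

theorem Gm.Good.graph (H : S.Good k h b τ C) (j : ℕ) (C₀ : ℝ) {i : A.ι} {z : E N}
    (hx : z ∈ U.D.W i) (hb : S.g (A.p i z) ∈ Bl b (τ / 4)) {θ : ℝ} (hθ : 0 < θ) :
    ∀ᶠ ε in 𝓝[>] (0 : ℝ), ∀ R G, ε⁻¹ ≤ R → (pD U b τ).Hol G →
      S.dist j k (N + r + 1) ε b τ G (S.cf h b τ R) i ≤ ENNReal.ofReal C₀ →
        ‖G (A.p i z, S.g (A.p i z)) - h (A.p i z)‖ ≤ θ := by
  have hτ := H.τ_pos
  have hz : z ∈ (A.C i).W := hx.1
  obtain ⟨y₀, hy₀⟩ : ∃ y₀, y₀ = ap z (S.g (A.p i z)) := ⟨_, rfl⟩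
  have q1 : pr1 N r y₀ = z := by rw [hy₀, pr1_ap]
  have q2 : pr2 N r y₀ = S.g (A.p i z) := by rw [hy₀, pr2_ap]
  have hb' : nsq (S.g (A.p i z) - b) < τ / 4 := hb
  have hW : y₀ ∈ (pD U b τ).W i := ⟨by rw [q1]; exact hx, by
    rw [q2]; exact lt_trans hb' (by linarith)⟩
  have d1 : DifferentiableAt ℂ (fun y => S.g (A.p i (pr1 N r y))) y₀ :=
    DifferentiableAt.comp (g := fun y => S.g (A.p i y)) y₀
      (by rw [q1]; exact (S.g_hol hx).self_of_nhds) (pr1 N r).differentiableAt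
  have d2 := d1.sub (pr2 N r).differentiableAt
  obtain ⟨Λ, hΛ, d3⟩ := d2.isBigO_sub.exists_pos
  have d4 : ∀ᶠ y in 𝓝 y₀, nsq (S.g (A.p i (pr1 N r y)) - b) < τ / 4 :=
    (nsq_smooth.continuous.continuousAt.comp (d1.continuousAt.sub continuousAt_const)).eventually_lt
      continuousAt_const (by
        change nsq (S.g (A.p i (pr1 N r y₀)) - b) < τ / 4
        rw [q1]; exact hb')
  have d5 : ∀ᶠ y in 𝓝 y₀, nsq (pr2 N r y - b) < τ / 4 :=
    (nr6_cont b).continuousAt.eventually_lt continuousAt_const (by rw [q2]; exact hb')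
  obtain ⟨K, k1, k2, k3⟩ := exists_compact_subset (A.C i).isOpen hz
  obtain ⟨c, B₀, hc, -, hcb⟩ := cpt_bds L k1 k3
  have d6 : ∀ᶠ y in 𝓝 y₀, pr1 N r y ∈ K := (pr1 N r).continuous.continuousAt
    (by rw [q1]; exact mem_interior_iff_mem_nhds.1 k2)
  have d7 : ∀ᶠ y in 𝓝 y₀, U.l2 (A.p i (pr1 N r y)) < U.l2 (A.p i z) + 1 :=
    (sn3_l2 hW).continuousAt.eventually_lt continuousAt_const (by rw [q1]; exact lt_add_one _)
  have d8 : ∀ᶠ y in 𝓝 y₀, U.φ (A.p i (pr1 N r y)) < U.φ (A.p i z) + 1 :=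
    (sn0_pr (f := fun y => U.φ (A.p i y)) ((U.pot.smo i).contDiffAt ((U.D.isOpen i).mem_nhds
      hW.1))).1.continuousAt.eventually_lt continuousAt_const (by rw [q1]; exact lt_add_one _)
  obtain ⟨δ, hδ, hall⟩ := Metric.eventually_nhds_iff_ball.1 (((d3.bound.and d4).and
    (d5.and (d6.and (d7.and d8)))).and (((pD U b τ).isOpen i).mem_nhds hW))
  obtain ⟨c₀, hc₀, hmv⟩ := CL.mv_rad (N := N + r)
  obtain ⟨a, ha⟩ : ∃ a, a = Real.exp (j * Real.log (1 + r * 2 ^ 2) + j * -Real.log (τ / 2) +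
      (N + r + 1 : ℕ) + (k * (U.φ (A.p i z) + 1) + 1)) * (r * Λ ^ 2 + 1) ^ (N + r + 1) / c :=
    ⟨_, rfl⟩
  have ha0 : 0 < a := by rw [ha]; positivity
  have t0 : ∀ q : ℝ, 0 < q → ∀ p : ℝ, ∀ᶠ ε in 𝓝[>] (0 : ℝ), p * ε < q := fun q hq p =>
    nhdsWithin_le_nhds ((continuous_const.mul continuous_id).continuousAt.eventually_lt
      continuousAt_const (by simpa using hq))
  filter_upwards [self_mem_nhdsWithin, t0 _ (pow_pos hδ 2) 1, t0 _ hτ (2 * (r * Λ ^ 2)),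
    t0 _ (mul_pos hc₀ (pow_pos hθ 2)) (a * |C₀|),
    t0 _ one_pos (-Real.log (τ / 2) + (U.l2 (A.p i z) + 1))] with ε e0 e1 e2 e3 e4 R G hR hG hi
  have e0 : 0 < ε := e0
  have hs := Real.sqrt_pos.2 e0
  have hsδ : √ε ≤ δ := Real.sqrt_le_iff.2 ⟨hδ.le, by linarith⟩
  have hT : ∀ y ∈ ball y₀ √ε, S.T ((pD U b τ).p i y) ≤ r * Λ ^ 2 * ε := fun y hy => by
    have a1 := (hall y (ball_subset_ball hsδ hy)).1.1.1
    simp only [Pi.sub_apply, q1, q2, sub_self, sub_zero] at a1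
    have a2 : ‖y - y₀‖ ^ 2 ≤ ε := by
      rw [← Real.sq_sqrt e0.le]
      exact pow_le_pow_left₀ (norm_nonneg _) (mem_ball_iff_norm.1 hy).le 2
    refine (nsq_le _).2.trans ?_
    rw [mul_assoc]
    refine mul_le_mul_of_nonneg_left ((pow_le_pow_left₀ (norm_nonneg _) a1 2).trans ?_)
      (Nat.cast_nonneg r)
    rw [mul_pow]
    gcongr
  have hβ : ∀ y ∈ ball y₀ √ε, bet b τ ((pD U b τ).p i y) ≤ -Real.log (τ / 2) := fun y hy => by
    have a1 := (hall y (ball_subset_ball hsδ hy)).1.2.1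
    exact neg_le_neg (Real.log_le_log (half_pos hτ) (by
      change _ ≤ τ - nsq (pr2 N r y - b)
      linarith))
  have h3 := hmv (fun y => G (A.p i (pr1 N r y), pr2 N r y) - h (A.p i (pr1 N r y))) y₀ √ε
    (a * ε ^ (N + r + 1) * |C₀| + 0 * (volume (ball y₀ √ε)).toReal) hs (by positivity)
    (fun y hy => by
      obtain ⟨⟨⟨-, a1⟩, -⟩, a2⟩ := hall y (ball_subset_ball hsδ hy)
      exact (((hG i).differentiableAt (((pD U b τ).isOpen i).mem_nhds a2)).sub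
        ((H.hol i _ a2.1 (by linarith)).comp y
          (pr1 N r).differentiableAt)).differentiableWithinAt)
    (nr6_int measurableSet_ball (fun y hy => (hall y (ball_subset_ball hsδ hy)).2)
      measure_ball_lt_top.ne (by positivity) le_rfl (fun y _ => by positivity)
      (fun y hy => ?_) hi)
  · rw [q1, q2, zero_mul, add_zero, mul_pow, ← pow_mul, mul_comm (N + r) 2, pow_mul,
      Real.sq_sqrt e0.le, pow_succ ε] at h3
    refine le_of_sq_le_sq ?_ hθ.le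
    have a1 : 0 < ε ^ (N + r) := by positivity
    refine le_of_mul_le_mul_left (le_of_mul_le_mul_right ?_ a1) hc₀
    have a2 := mul_le_mul_of_nonneg_right e3.le a1.le
    linarith
  obtain ⟨⟨⟨-, a1⟩, -, a3, a10, a11⟩, a2⟩ := hall y (ball_subset_ball hsδ hy)
  have a4 := hT y hy
  have a5 := hβ y hy
  have a6 : S.cf h b τ R ((pD U b τ).p i y) = h (A.p i (pr1 N r y)) :=
    (H.cf_bd R _).2 a2.1.2 a2.2 ((add_le_add a5 a10.le).trans
      (((le_div_iff₀ e0).2 e4.le).trans ((one_div ε).trans_le hR))) (by linarith)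
  have a7 : S.φ (A.p i (pr1 N r y)) ≤ Real.log (1 + r * 2 ^ 2) := by
    have b0 := (sq_nonneg _).trans (nsq_le (S.g (A.p i (pr1 N r y)))).1
    refine Real.log_le_log (by linarith) (add_le_add le_rfl ((nsq_le _).2.trans ?_))
    have b1 := (nsq_le _).1.trans a1.le
    have b2 := H.τ_le
    have b3 := H.b_le
    have b4 := norm_add_le (S.g (A.p i (pr1 N r y)) - b) b
    rw [sub_add_cancel] at b4
    have b5 : ‖S.g (A.p i (pr1 N r y)) - b‖ ≤ 1 := by
      nlinarith [norm_nonneg (S.g (A.p i (pr1 N r y)) - b)]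
    gcongr
    linarith
  have a8 : rho (Real.log (S.T ((pD U b τ).p i y) + ε)) ≤ Real.log ((r * Λ ^ 2 + 1) * ε) + 1 := by
    have b0 : 0 ≤ S.T ((pD U b τ).p i y) := (sq_nonneg _).trans (nsq_le _).1
    refine (rho_bd _).2.1.trans (add_le_add (Real.log_le_log (by linarith) (by linarith)) le_rfl)
  have a9 : 1 ≤ a * ε ^ (N + r + 1) * (Real.exp (-S.Φ j k (N + r + 1) ε b τ ((pD U b τ).p i y)) *
      ‖((A.C i).σ (pr1 N r y)).det‖) := by
    have b1 : S.Φ j k (N + r + 1) ε b τ ((pD U b τ).p i y) = j * S.φ (A.p i (pr1 N r y)) +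
        j * bet b τ ((pD U b τ).p i y) +
        (N + r + 1 : ℕ) * rho (Real.log (S.T ((pD U b τ).p i y) + ε)) +
        (k * U.φ (A.p i (pr1 N r y)) + (1 + U.l (A.p i (pr1 N r y)))⁻¹) := rfl
    have b2 : Real.exp (S.Φ j k (N + r + 1) ε b τ ((pD U b τ).p i y)) ≤
        a * ε ^ (N + r + 1) * c := by
      have b3 : ((r * Λ ^ 2 + 1) * ε) ^ (N + r + 1) =
          Real.exp ((N + r + 1 : ℕ) * Real.log ((r * Λ ^ 2 + 1) * ε)) := by
        rw [Real.exp_nat_mul, Real.exp_log (by positivity)]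
      rw [ha, mul_right_comm, div_mul_cancel₀ _ hc.ne', mul_assoc, ← mul_pow, b3, ← Real.exp_add,
        b1]
      refine Real.exp_le_exp.2 ?_
      have b4 := mul_le_mul_of_nonneg_left a7 (Nat.cast_nonneg (α := ℝ) j)
      have b5 := mul_le_mul_of_nonneg_left a5 (Nat.cast_nonneg (α := ℝ) j)
      have b6 := mul_le_mul_of_nonneg_left a8 (Nat.cast_nonneg (α := ℝ) (N + r + 1))
      rw [mul_add, mul_one] at b6
      have b8 := mul_le_mul_of_nonneg_left a11.le (Nat.cast_nonneg (α := ℝ) k)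
      have b9 : (1 + U.l (A.p i (pr1 N r y)))⁻¹ ≤ 1 :=
        inv_le_one_of_one_le₀ (by linarith [U.l_calc.2.1 _ a2.1.2])
      exact (add_le_add (add_le_add (add_le_add b4 b5) b6) (add_le_add b8 b9)).trans_eq (by ring)
    have b7 := (hcb _ a3).1
    rw [Real.exp_neg, mul_left_comm, ← div_eq_inv_mul, one_le_div (Real.exp_pos _)]
    exact b2.trans (by gcongr)
  rw [a6, add_zero, ← mul_assoc]
  exact le_mul_of_one_le_left (sq_nonneg _) a9

end Pool.Agent.ZB
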