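import Pool.Agent.P.MP_63735c_ag.SN4
import Pool.Agent.P.MP_63735c_ag.SN5
import Pool.Agent.P.MP_63735c_ag.SN6
import Pool.Agent.P.MP_63735c_ag.SF2

/-! The limit of the solutions. -/

open scoped ComplexOrder ContDiff Matrix Topology ENNReal
open Set Metric MeasureTheory Filter

namespace Pool.Agent.ZB

open Pool.Agent.BP Pool.Agent.SPF Pool.Agent.AB Pool.Agent.CK Pool.Agent.SE Pool.Agent.NL
  Pool.Agent.CS

theorem sn_lim (N r : ℕ) : ∃ j : ℕ, 1 ≤ j ∧ ∀ {X : Type} [TopologicalSpace X] [MeasurableSpace X]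
    [BorelSpace X] [T2Space X] {A : Atlas X N} {L : Line A} {μ : Measure X} [IsFiniteMeasure μ]
    {K : Form11 A} {U : Up A μ L} (S : Gm U r) (k d : ℕ) (w₀ h : X → ℂ) (b : E r) (τ C C' : ℝ),
    IsVolume A μ → (∀ i, ∀ z ∈ (A.C i).W, (K.h i z).PosDef) → Bd11 A K → SB.Cov L → SB.SecBd L →
    U.M ≤ k → U.D.Hol w₀ →
    (∀ y ∈ U.W, ‖w₀ y‖ ^ 2 * Real.exp (-(d * U.φ y)) * (1 + nsq (S.g y)) ≤ C') →
    S.Good k h b τ C → ∃ (m : ℕ) (t : Fin m → A.ι → E N → ℂ) (u : E r → E m),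
      (∀ a, L.IsSection (U.m * (k + d * j)) (t a)) ∧ DifferentiableOn ℂ u (Bl b (τ / 4)) ∧
      ∀ i, ∀ z ∈ U.D.W i, S.g (A.p i z) ∈ Bl b (τ / 4) →
        h (A.p i z) * w₀ (A.p i z) ^ j * U.s i z ^ (k + d * j) =
          ∑ a, u (S.g (A.p i z)) a * t a i z := by
  obtain ⟨j, hj1, hj⟩ := sn_out r (N + r + 1)
  refine ⟨j, hj1, ?_⟩
  intro X _ _ _ _ A L μ _ K U S k d w₀ h b τ C C' hμ hK hKb hc hS hk hw hC' H
  obtain ⟨m, c, ζ, t, t1, t2, t3⟩ :=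
    sec_spanS U hμ hc hS (SB.sbep_dense U hμ) (U.m * (k + d * j))
  obtain ⟨C₀, -, h1⟩ := hj S k h b τ C hk hμ hK hKb H
  choose! R R1 G G1 G2 using fun ε (hε : 0 < ε ∧ ε ≤ 1) => h1 ε hε.1 hε.2 ε⁻¹
  obtain ⟨C₁, hC₁, h2⟩ := H.slice hμ j (N + r + 1) C₀
  have hs : Bl b (τ / 4) ⊆ Bl b τ := fun w hw =>
    (show nsq (w - b) < τ / 4 from hw).trans (by linarith [H.τ_pos])
  have h0 : 0 ≤ |C'| ^ j * C₁ := by positivity
  have hd : ∀ ε, 0 < ε ∧ ε ≤ 1 → ∀ w ∈ Bl b (τ / 4), ∀ i, U.dist (k + d * j) (fun _ => 0)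
      (fun x => G ε (x, w) * w₀ x ^ j) (fun _ => 0) i ≤ ENNReal.ofReal (|C'| ^ j * C₁) := by
    intro ε he w hw' i
    rw [ENNReal.ofReal_mul (by positivity)]
    refine le_trans ?_ (mul_le_mul_right (h2 ε _ _ (G1 ε he) i (G2 ε he i) w hw') _)
    rw [← lintegral_const_mul' _ _ ENNReal.ofReal_ne_top]
    refine setLIntegral_mono' (U.D.isOpen i).measurableSet fun z hz => ?_
    rw [← ENNReal.ofReal_mul (by positivity)]
    refine ENNReal.ofReal_le_ofReal ?_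
    have a0 := nr4_nonneg (S.g (A.p i z))
    have a1 : ‖w₀ (A.p i z)‖ ^ 2 * Real.exp (-(d * U.φ (A.p i z))) ≤
        |C'| * Real.exp (-S.φ (A.p i z)) := by
      rw [Gm.φ, Real.exp_neg (Real.log _), Real.exp_log (by positivity), ← div_eq_mul_inv,
        le_div_iff₀ (by positivity)]
      exact (hC' _ hz.2).trans (le_abs_self _)
    have a2 := pow_le_pow_left₀ (by positivity) a1 j
    rw [mul_pow, mul_pow, ← Real.exp_nat_mul, ← Real.exp_nat_mul] at a2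
    have a3 := mul_le_mul_of_nonneg_right a2 (show 0 ≤ Real.exp (-(k * U.φ (A.p i z))) *
      ‖((A.C i).σ z).det‖ * ‖G ε (A.p i z, w)‖ ^ 2 by positivity)
    refine le_of_eq_of_le ?_ (a3.trans_eq ?_)
    · rw [show -(((k + d * j : ℕ) : ℝ) * U.φ (A.p i z) + 0) =
        j * -(d * U.φ (A.p i z)) + -(k * U.φ (A.p i z)) by push_cast; ring, Real.exp_add, sub_zero,
        norm_mul, norm_pow]
      ring
    · rw [show -(j * S.φ (A.p i z) + k * U.φ (A.p i z)) =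
        j * -S.φ (A.p i z) + -(k * U.φ (A.p i z)) by ring, Real.exp_add]
      ring
  have hT : ∀ ε, 0 < ε ∧ ε ≤ 1 → ∀ w ∈ Bl b (τ / 4), ∃ T, L.IsSection (U.m * (k + d * j)) T ∧
      ∀ i, ∀ z ∈ U.D.W i, T i z = G ε (A.p i z, w) * w₀ (A.p i z) ^ j * U.s i z ^ (k + d * j) := by
    intro ε he w hw'
    refine U.ext_sec hμ (SB.sbea_ext U hμ) (g := fun x => G ε (x, w) * w₀ x ^ j)
      (fun i => (pd_hol1 (G1 ε he) (hs hw') i).mul ((hw i).pow j)) _ fun i z hz => ?_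
    obtain ⟨r', hr', hW'⟩ := nhds_basis_closedBall.mem_iff.1 ((A.C i).isOpen.mem_nhds hz)
    obtain ⟨B', -, hA'⟩ := U.loc_l2 (k + d * j) h0 le_rfl hW'
    exact ⟨r', hr', ball_subset_closedBall.trans hW',
      ((hA' (fun x => G ε (x, w) * w₀ x ^ j) (fun _ => 0) (fun _ => 0) (fun _ => le_rfl)
        (fun _ => by simp) (hd ε he w hw' i)).trans_lt ENNReal.ofReal_lt_top).ne⟩
  choose B hB using fun a => coef_bd U hμ (t1 a).1 (k + d * j) h0 le_rfl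
  obtain ⟨B₀, hB₀⟩ := (finite_range B).bddAbove
  let 𝒰 := Ultrafilter.of (𝓝[>] (0 : ℝ))
  have hU : (𝒰 : Filter ℝ) ≤ 𝓝[>] 0 := Ultrafilter.of_le _
  have hε : ∀ᶠ ε in (𝒰 : Filter ℝ), 0 < ε ∧ ε ≤ 1 := hU (Ioc_mem_nhdsGT one_pos)
  obtain ⟨u, u1, u2⟩ := CL.hol_ulim 𝒰 (Bl_open b (τ / 4)) (M := |B₀|)
    (f := fun ε w a => G ε (A.p (c a) (ζ a), w) * w₀ (A.p (c a) (ζ a)) ^ j *
      U.s (c a) (ζ a) ^ (k + d * j)) (hε.mono fun ε he =>
      ⟨differentiableOn_pi.2 fun a =>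
        (((pd_hol2 (G1 ε he) (t1 a)).mono hs).mul_const _).mul_const _,
      fun w hw' => (pi_norm_le_iff_of_nonneg (abs_nonneg _)).2 fun a => by
        obtain ⟨T, T1, T2⟩ := hT ε he w hw'
        rw [← T2 _ _ (t1 a)]
        exact (hB a (fun x => G ε (x, w) * w₀ x ^ j) (fun _ => 0) (fun _ => 0) (T (c a))
          (fun _ => le_rfl) (fun _ => by simp) (hd ε he w hw' _) (T1.1 _) (T2 _)).trans
            ((hB₀ ⟨a, rfl⟩).trans (le_abs_self _))⟩)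
  refine ⟨m, t, u, t2, u1, fun i z hz hg => ?_⟩
  have l1 : Tendsto (fun ε => G ε (A.p i z, S.g (A.p i z))) 𝒰 (𝓝 (h (A.p i z))) :=
    Metric.tendsto_nhds.2 fun θ hθ => by
      filter_upwards [hε, hU (H.graph j C₀ hz hg (half_pos hθ))] with ε he h2
      exact (dist_eq_norm _ _).trans_lt
        ((h2 _ _ (R1 ε he) (G1 ε he) (G2 ε he i)).trans_lt (half_lt_self hθ))
  refine tendsto_nhds_unique ((l1.mul_const _).mul_const _) ((tendsto_finsetSum _ fun a _ =>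
    (tendsto_pi_nhds.1 (u2 _ hg).1 a).mul_const (t a i z)).congr' (hε.mono fun ε he => ?_))
  obtain ⟨T, T1, T2⟩ := hT ε he _ hg
  beta_reduce
  rw [← T2 i z hz, t3 T T1 i z hz.1]
  exact Finset.sum_congr rfl fun a _ => by rw [T2 _ _ (t1 a)]

end Pool.Agent.ZB
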