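import Pool.Agent.P.MP_63735c_ag.SPAlg

/-! Frame identities. -/

open scoped Matrix

namespace Pool.Agent.SPF

variable {R : Type} [CommRing R] [StarRing R] [Algebra ℂ R] {α κ : Type} [Fintype α] [Fintype κ]
  [DecidableEq α] [DecidableEq κ]

namespace Dat

variable (D : Dat R α κ)

lemma star_db (a : α) (f : R) : star (D.db a f) = D.d a (star f) := by
  have h := D.star_d a (star f)
  rw [star_star] at h
  rw [← h, star_star]

lemma dbdb (a b : α) (f : R) : D.db a (D.db b f) = D.db b (D.db a f) := by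
  apply star_injective
  rw [star_db, star_db, star_db, star_db, D.dd]

lemma closb (a b c : α) : D.db c (D.η a b) = D.db b (D.η a c) := by
  rw [← D.herm b a, ← D.star_d, D.clos b a c, D.star_d, D.herm]

lemma g_herm (i j : κ) : star (D.g i j) = D.g j i := D.herm _ _

lemma h_mul_g : D.h * D.g = 1 := D.hg

lemma g_mul_h : D.g * D.h = 1 := mul_eq_one_comm.1 D.h_mul_g

lemma h_herm (i j : κ) : star (D.h i j) = D.h j i := by
  have hg : D.gᴴ = D.g := by
    ext a b
    exact D.g_herm b a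
  have h1 : D.hᴴ * D.g = 1 := by
    rw [← hg, ← Matrix.conjTranspose_mul, D.g_mul_h, Matrix.conjTranspose_one]
  have h2 : D.hᴴ = D.h := by
    rw [← mul_one D.hᴴ, ← D.g_mul_h, ← mul_assoc, h1, one_mul]
  exact congrFun (congrFun h2 j) i

lemma a1_gh (i j : κ) : ∑ l, D.g i l * D.h l j = if i = j then 1 else 0 := by
  have h := congrFun (congrFun D.g_mul_h i) j
  rwa [Matrix.mul_apply, Matrix.one_apply] at h

lemma a1_hg (i j : κ) : ∑ l, D.h i l * D.g l j = if i = j then 1 else 0 := by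
  have h := congrFun (congrFun D.h_mul_g i) j
  rwa [Matrix.mul_apply, Matrix.one_apply] at h

lemma e_ι (i j : κ) : D.e i (D.ι j) = if i = j then 1 else 0 := by
  have h := D.a1_gh j i
  rw [if_congr eq_comm rfl rfl] at h
  exact h

lemma η_ι (b : α) (j : κ) : D.η b (D.ι j) = ∑ i, D.e i b * D.g i j := by
  simp only [e, Finset.sum_mul]
  rw [Finset.sum_comm]
  simp only [mul_assoc, ← Finset.mul_sum, a1_hg, mul_ite, mul_one, mul_zero,
    Finset.sum_ite_eq', Finset.mem_univ, if_true]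

lemma a1_η (b c : α) : D.η b c = ∑ i, D.e i b * D.η (D.ι i) c := by
  rw [D.F1 b c, Finset.sum_comm]
  simp only [e, Finset.sum_mul]

lemma a1_η' (b c : α) : D.η b c = ∑ j, D.η b (D.ι j) * star (D.e j c) := by
  rw [← D.herm c b, D.a1_η c b, star_sum]
  refine Finset.sum_congr rfl fun j _ => ?_
  rw [star_mul, D.herm]

lemma η_eq (b c : α) : D.η b c = ∑ i, ∑ j, D.e i b * D.g i j * star (D.e j c) := by
  rw [D.a1_η' b c, Finset.sum_comm]
  refine Finset.sum_congr rfl fun j _ => ?_
  rw [η_ι, Finset.sum_mul]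

lemma a1_iso (c c' : α) : ∑ a, ∑ b, D.η a c * D.π a b * D.η b c' = 0 := by
  have h := congrFun (congrFun D.iso c) c'
  simp only [Matrix.mul_apply, Matrix.transpose_apply, Matrix.zero_apply, Finset.sum_mul] at h
  rw [Finset.sum_comm]
  exact h

lemma Xη (k : κ) (c : α) : ∑ a, D.Xc k a * D.η a c = 0 := by
  have : ∑ a, D.Xc k a * D.η a c =
      ∑ l, (∑ a, ∑ b, D.η a c * D.π a b * D.η b (D.ι l)) * D.h l k := by
    simp only [Xc, e, Finset.sum_mul, Finset.mul_sum]
    rw [Finset.sum_comm (s := (Finset.univ : Finset κ))]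
    refine Finset.sum_congr rfl fun a _ => ?_
    rw [Finset.sum_comm (s := (Finset.univ : Finset κ))]
    refine Finset.sum_congr rfl fun b _ => Finset.sum_congr rfl fun l _ => ?_
    ring
  rw [this]
  simp only [a1_iso, zero_mul, Finset.sum_const_zero]

lemma Xe (k j : κ) : ∑ a, D.Xc k a * D.e j a = 0 := by
  have : ∑ a, D.Xc k a * D.e j a = ∑ l, (∑ a, D.Xc k a * D.η a (D.ι l)) * D.h l j := by
    simp only [e, Finset.sum_mul, Finset.mul_sum, mul_assoc]
    rw [Finset.sum_comm]
  rw [this]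
  simp only [Xη, zero_mul, Finset.sum_const_zero]

lemma F2 (i j : κ) : ∑ a, ∑ b, D.π a b * D.e i a * D.e j b = 0 := by
  rw [← D.Xe j i]
  refine Finset.sum_congr rfl fun a _ => ?_
  rw [Xc, Finset.sum_mul]
  refine Finset.sum_congr rfl fun b _ => ?_
  ring

lemma ηXb (l : κ) (b : α) : ∑ c, D.η b c * star (D.Xc l c) = 0 := by
  have h := congrArg star (D.Xη l b)
  rw [star_sum, star_zero] at h
  rw [← h]
  refine Finset.sum_congr rfl fun c _ => ?_
  rw [star_mul, D.herm]

lemma G_eq (a b : α) : D.G a b = ∑ k, ∑ l, D.Xc k a * D.g k l * star (D.Xc l b) := by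
  have h1 : ∀ c', ∑ c, D.π a c * D.η c c' = ∑ k, ∑ l, D.Xc k a * D.g k l * star (D.e l c') := by
    intro c'
    simp only [Xc, Finset.sum_mul]
    have : ∀ c, D.π a c * D.η c c' =
        ∑ k, ∑ l, D.π a c * D.e k c * D.g k l * star (D.e l c') := by
      intro c
      rw [D.η_eq c c']
      simp only [Finset.mul_sum, mul_assoc]
    simp only [this]
    rw [Finset.sum_comm]
    refine Finset.sum_congr rfl fun k _ => ?_
    rw [Finset.sum_comm]
  rw [G, Finset.sum_comm]
  simp only [← Finset.sum_mul, h1]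
  simp only [Finset.sum_mul]
  rw [Finset.sum_comm]
  refine Finset.sum_congr rfl fun k _ => ?_
  rw [Finset.sum_comm]
  refine Finset.sum_congr rfl fun l _ => ?_
  rw [Xc.eq_1 D l b, star_sum, Finset.mul_sum]
  refine Finset.sum_congr rfl fun c _ => ?_
  rw [star_mul]
  ring

lemma star_X (k : κ) (f : R) : star (D.X k f) = D.Xb k (star f) := by
  rw [X_apply, Xb_apply, star_sum]
  refine Finset.sum_congr rfl fun a _ => ?_
  rw [star_mul', D.star_d]

lemma a1_cancel (y : κ → R) (h : ∀ j, ∑ i, y i * D.g i j = 0) (m : κ) : y m = 0 := by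
  have h1 : ∑ j, (∑ i, y i * D.g i j) * D.h j m = y m := by
    simp only [Finset.sum_mul]
    rw [Finset.sum_comm]
    simp only [mul_assoc, ← Finset.mul_sum, a1_gh, mul_ite, mul_one, mul_zero,
      Finset.sum_ite_eq', Finset.mem_univ, if_true]
  rw [← h1]
  simp only [h, zero_mul, Finset.sum_const_zero]

/-- A (0,1) field in the null space kills the coframe. -/
lemma ker_kills (w : α → R) (hw : ∀ b, ∑ c, D.η b c * w c = 0) (i : κ) (b : α) :
    ∑ c, w c * D.db c (D.e i b) = 0 := by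
  let Wd : Derivation ℂ R R := ∑ c, w c • D.db c
  have hW : ∀ f, Wd f = ∑ c, w c * D.db c f := by
    intro f
    simp [Wd, der_sum_apply]
  have h1 : ∀ b j, Wd (D.η b (D.ι j)) = -∑ c, D.η b c * D.db (D.ι j) (w c) := by
    intro b j
    have h := congrArg (D.db (D.ι j)) (hw b)
    rw [map_sum, map_zero] at h
    simp only [Derivation.leibniz, smul_eq_mul, Finset.sum_add_distrib] at h
    rw [hW, eq_neg_iff_add_eq_zero, add_comm, ← h]
    congr 1
    refine Finset.sum_congr rfl fun c _ => ?_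
    rw [D.closb b (D.ι j) c]
  have h2 : ∀ j, Wd (D.η b (D.ι j)) = ∑ m, D.e m b * Wd (D.g m j) := by
    intro j
    have h3 : ∀ m, Wd (D.g m j) = -∑ c, D.η (D.ι m) c * D.db (D.ι j) (w c) := fun m => h1 _ j
    simp only [h3, h1, mul_neg, Finset.sum_neg_distrib, Finset.mul_sum]
    rw [Finset.sum_comm]
    congr 1
    refine Finset.sum_congr rfl fun c _ => ?_
    rw [D.a1_η b c, Finset.sum_mul]
    simp only [mul_assoc]
  rw [← hW]
  refine D.a1_cancel (fun m => Wd (D.e m b)) (fun j => ?_) i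
  have h4 := h2 j
  rw [D.η_ι b j, map_sum] at h4
  simp only [Derivation.leibniz, smul_eq_mul, Finset.sum_add_distrib, add_eq_left] at h4
  rw [← h4]
  exact Finset.sum_congr rfl fun m _ => mul_comm _ _

lemma db_e (c : α) (i : κ) (b : α) :
    D.db c (D.e i b) = ∑ m, star (D.e m c) * D.db (D.ι m) (D.e i b) := by
  have key : ∀ F : α → R, ∑ c', ((if c' = c then 1 else 0) -
      ∑ m, if c' = D.ι m then star (D.e m c) else 0) * F c' =
        F c - ∑ m, star (D.e m c) * F (D.ι m) := by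
    intro F
    simp only [sub_mul, Finset.sum_sub_distrib, Finset.sum_mul, ite_mul, one_mul, zero_mul,
      Finset.sum_ite_eq', Finset.mem_univ, if_true]
    rw [Finset.sum_comm]
    simp only [Finset.sum_ite_eq', Finset.mem_univ, if_true]
  have h := D.ker_kills (fun c' => (if c' = c then 1 else 0) -
      ∑ m, if c' = D.ι m then star (D.e m c) else 0) (fun b => ?_) i b
  · rw [key] at h
    exact sub_eq_zero.1 h
  · simp only [mul_comm (D.η b _)]
    rw [key, sub_eq_zero, D.a1_η' b c]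
    exact Finset.sum_congr rfl fun m _ => mul_comm _ _

lemma Xb_e (l i : κ) (b : α) : D.Xb l (D.e i b) = 0 := by
  rw [Xb_apply]
  exact D.ker_kills _ (D.ηXb l) i b

lemma Xb_Xc (l k : κ) (a : α) : D.Xb l (D.Xc k a) = 0 := by
  have h : ∀ b, D.Xb l (D.π a b) = 0 := by
    intro b
    simp only [Xb_apply, D.hol, mul_zero, Finset.sum_const_zero]
  rw [Xc, map_sum]
  simp only [Derivation.leibniz, Xb_e, h, smul_zero, add_zero, Finset.sum_const_zero]

lemma a1_XbX (k l : κ) (f : R) : D.Xb l (D.X k f) =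
    ∑ a, ∑ b, D.Xc k a * star (D.Xc l b) * D.d a (D.db b f) := by
  rw [X_apply, map_sum]
  refine Finset.sum_congr rfl fun a _ => ?_
  rw [Derivation.leibniz, Xb_Xc, smul_zero, add_zero, smul_eq_mul, Xb_apply, Finset.mul_sum]
  refine Finset.sum_congr rfl fun b _ => ?_
  rw [D.ddb, mul_assoc]

lemma comm (k l : κ) (f : R) : D.X k (D.Xb l f) = D.Xb l (D.X k f) := by
  have h0 : ∀ b, D.X k (star (D.Xc l b)) = 0 := by
    intro b
    apply star_injective
    rw [star_X, star_star, Xb_Xc, star_zero]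
  rw [a1_XbX, Finset.sum_comm, Xb_apply, map_sum]
  refine Finset.sum_congr rfl fun b _ => ?_
  rw [Derivation.leibniz, h0, smul_zero, add_zero, smul_eq_mul, X_apply, Finset.mul_sum]
  refine Finset.sum_congr rfl fun a _ => ?_
  ring

lemma Xg (k i j : κ) : D.X k (D.g i j) = -∑ m, D.A k m i * D.g m j := by
  have h1 : ∀ c, D.d c (D.g i j) =
      ∑ m, (D.e m c * D.d (D.ι i) (D.g m j) + D.g m j * D.d (D.ι i) (D.e m c)) := by
    intro c
    have : D.d c (D.g i j) = D.d (D.ι i) (D.η c (D.ι j)) := D.clos _ _ _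
    rw [this, D.η_ι c j, map_sum]
    simp only [Derivation.leibniz, smul_eq_mul]
  rw [X_apply]
  simp only [h1, Finset.mul_sum]
  rw [Finset.sum_comm, ← Finset.sum_neg_distrib]
  refine Finset.sum_congr rfl fun m _ => ?_
  simp only [mul_add, Finset.sum_add_distrib, ← mul_assoc, ← Finset.sum_mul, Xe, zero_mul,
    zero_add, A, neg_mul, neg_neg]
  rw [Finset.sum_mul]
  refine Finset.sum_congr rfl fun c _ => ?_
  ring

lemma a1_G (F : α → α → R) : ∑ a, ∑ b, D.G a b * F a b =
    ∑ k, ∑ l, D.g k l * ∑ a, ∑ b, D.Xc k a * star (D.Xc l b) * F a b := by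
  simp only [G_eq, Finset.sum_mul, Finset.mul_sum]
  have h : ∀ a, ∑ b, ∑ k, ∑ l, D.Xc k a * D.g k l * star (D.Xc l b) * F a b =
      ∑ k, ∑ l, ∑ b, D.g k l * (D.Xc k a * star (D.Xc l b) * F a b) := by
    intro a
    rw [Finset.sum_comm]
    refine Finset.sum_congr rfl fun k _ => ?_
    rw [Finset.sum_comm]
    refine Finset.sum_congr rfl fun l _ => Finset.sum_congr rfl fun b _ => ?_
    ring
  simp only [h]
  rw [Finset.sum_comm]
  refine Finset.sum_congr rfl fun k _ => ?_
  rw [Finset.sum_comm]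

lemma lap_eq (f : R) : D.lap f = ∑ k, ∑ l, D.g k l * D.Xb l (D.X k f) := by
  rw [lap, a1_G]
  simp only [a1_XbX]

lemma gam_eq (f₁ f₂ : R) : D.gam f₁ f₂ = ∑ k, ∑ l, D.g k l * D.X k f₁ * D.Xb l f₂ := by
  have h := D.a1_G fun a b => D.d a f₁ * D.db b f₂
  simp only [← mul_assoc] at h
  rw [gam, h]
  refine Finset.sum_congr rfl fun k _ => Finset.sum_congr rfl fun l _ => ?_
  rw [mul_assoc, X_apply, Xb_apply, Finset.sum_mul_sum]
  congr 1
  refine Finset.sum_congr rfl fun a _ => Finset.sum_congr rfl fun b _ => ?_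
  ring

end Dat

end Pool.Agent.SPF
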