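import Pool.Agent.P.MP_63735c_ag.SPA1

/-! The cubic tensor. -/

open scoped Matrix

namespace Pool.Agent.SPF

variable {R : Type} [CommRing R] [StarRing R] [Algebra ℂ R] {α κ : Type} [Fintype α] [Fintype κ]
  [DecidableEq α] [DecidableEq κ]

namespace Dat

variable (D : Dat R α κ)

omit [StarRing R] in
lemma a2_der {β : Type} [Fintype β] (δ : Derivation ℂ R R) (f g : β → R) :
    δ (∑ b, f b * g b) = ∑ b, f b * δ (g b) + ∑ b, g b * δ (f b) := by
  rw [map_sum, ← Finset.sum_add_distrib]
  exact Finset.sum_congr rfl fun b _ => by rw [Derivation.leibniz, smul_eq_mul, smul_eq_mul]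

omit [StarRing R] [Algebra ℂ R] in
lemma a2_cancel {a b : Matrix κ κ R} (h : a * b = 1) (v : κ → R) (j : κ) :
    ∑ p, (∑ q, v q * a q p) * b p j = v j := by
  have h1 : Matrix.vecMul (Matrix.vecMul v a) b = v := by
    rw [Matrix.vecMul_vecMul, h, Matrix.vecMul_one]
  exact congrFun h1 j

lemma T_symm (k i j : κ) : D.T k i j = D.T i k j := by
  have h := congrArg (D.db (D.ι j)) (D.F2 k i)
  rw [map_zero, map_sum] at h
  have h1 : ∀ a, D.db (D.ι j) (∑ b, D.π a b * D.e k a * D.e i b) =
      ∑ b, -(D.π b a * D.e k a * D.db (D.ι j) (D.e i b)) +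
        ∑ b, D.π a b * D.e i b * D.db (D.ι j) (D.e k a) := by
    intro a
    rw [map_sum, ← Finset.sum_add_distrib]
    refine Finset.sum_congr rfl fun b _ => ?_
    rw [Derivation.leibniz, Derivation.leibniz, D.hol, D.skew b a]
    simp only [smul_eq_mul]
    ring
  simp only [h1, Finset.sum_add_distrib] at h
  have h2 : ∑ a, ∑ b, -(D.π b a * D.e k a * D.db (D.ι j) (D.e i b)) = -D.T k i j := by
    rw [Finset.sum_comm]
    simp only [T, Xc, Finset.sum_mul, Finset.sum_neg_distrib]
  have h3 : ∑ a, ∑ b, D.π a b * D.e i b * D.db (D.ι j) (D.e k a) = D.T i k j := by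
    simp only [T, Xc, Finset.sum_mul]
  rw [h2, h3] at h
  linear_combination -h

lemma Tg (k j m : κ) :
    ∑ i, D.T k i j * D.g i m = ∑ b, D.Xc k b * D.db (D.ι j) (D.η b (D.ι m)) := by
  have h1 : ∀ b, D.Xc k b * D.db (D.ι j) (D.η b (D.ι m)) =
      ∑ i, D.Xc k b * D.e i b * D.db (D.ι j) (D.g i m) +
        ∑ i, D.Xc k b * D.db (D.ι j) (D.e i b) * D.g i m := by
    intro b
    rw [D.η_ι, a2_der, mul_add, Finset.mul_sum, Finset.mul_sum]
    congr 1 <;> exact Finset.sum_congr rfl fun i _ => by ring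
  simp only [h1, Finset.sum_add_distrib]
  rw [Finset.sum_comm, Finset.sum_comm (f := fun b i => D.Xc k b * D.db (D.ι j) (D.e i b) * D.g i m)]
  simp only [← Finset.sum_mul, D.Xe, zero_mul, Finset.sum_const_zero, zero_add, T]

lemma T_eq (k i j : κ) : D.T k i j = ∑ p, D.u k i p * D.g p j := by
  exact (a2_cancel D.h_mul_g (D.T k i) j).symm

lemma sym1 (k i p : κ) : D.u k i p = D.u i k p := by
  simp only [u, D.T_symm k i]

lemma sym2 (k i p : κ) : D.u k i p = D.u k p i := by
  have hS : ∀ j m, ∑ i', D.T k i' j * D.g i' m = ∑ i', D.T k i' m * D.g i' j := by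
    intro j m
    rw [D.Tg, D.Tg]
    exact Finset.sum_congr rfl fun b _ => by rw [D.closb]
  have hu : ∀ i p, D.u k i p =
      ∑ j, ∑ m, (∑ i', D.T k i' j * D.g i' m) * D.h m i * D.h j p := by
    intro i p
    refine Finset.sum_congr rfl fun j _ => ?_
    rw [← Finset.sum_mul, a2_cancel D.g_mul_h (fun i' => D.T k i' j) i]
  rw [hu, hu, Finset.sum_comm]
  refine Finset.sum_congr rfl fun m _ => Finset.sum_congr rfl fun j _ => ?_
  rw [hS j m]
  ring

lemma a2_core (δ : Derivation ℂ R R) (hc : ∀ c f, D.db c (δ f) = δ (D.db c f)) (l k i : κ) :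
    ∑ b, D.Xc k b * D.Xb l (δ (D.e i b)) =
      -∑ m, (∑ c, star (D.e m c) * δ (star (D.Xc l c))) * D.T k i m := by
  have h1 : ∀ b, D.Xb l (δ (D.e i b)) =
      -∑ m, (∑ c, star (D.e m c) * δ (star (D.Xc l c))) * D.db (D.ι m) (D.e i b) := by
    intro b
    have h2 := congrArg δ (D.Xb_e l i b)
    rw [map_zero, D.Xb_apply, a2_der] at h2
    have h3 : ∑ c, D.db c (D.e i b) * δ (star (D.Xc l c)) =
        ∑ m, (∑ c, star (D.e m c) * δ (star (D.Xc l c))) * D.db (D.ι m) (D.e i b) := by
      simp only [Finset.sum_mul]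
      rw [Finset.sum_comm]
      refine Finset.sum_congr rfl fun c _ => ?_
      rw [D.db_e c i b, Finset.sum_mul]
      exact Finset.sum_congr rfl fun m _ => by ring
    rw [h3] at h2
    rw [D.Xb_apply]
    simp only [hc]
    linear_combination h2
  simp only [h1]
  have h4 : ∀ y : κ → R, ∑ b, D.Xc k b * -∑ m, y m * D.db (D.ι m) (D.e i b) =
      -∑ m, y m * D.T k i m := by
    intro y
    simp only [T, mul_neg, Finset.sum_neg_distrib, Finset.mul_sum]
    rw [Finset.sum_comm]
    congr 1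
    exact Finset.sum_congr rfl fun m _ => Finset.sum_congr rfl fun b _ => by ring
  exact h4 _

lemma a2_XbT (l k i j : κ) : D.Xb l (D.T k i j) = -∑ m, star (D.A l m j) * D.T k i m := by
  have h1 : ∀ m, ∑ c, star (D.e m c) * D.db (D.ι j) (star (D.Xc l c)) = star (D.A l m j) := by
    intro m
    have h2 := congrArg (D.d (D.ι j)) (D.Xe l m)
    rw [map_zero, a2_der] at h2
    have h3 : ∑ c, D.e m c * D.d (D.ι j) (D.Xc l c) = D.A l m j := by
      unfold A
      linear_combination h2
    have h4 := congrArg star h3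
    simpa only [star_sum, star_mul', D.star_d] using h4
  conv_lhs => unfold T
  rw [a2_der]
  simp only [D.Xb_Xc, mul_zero, Finset.sum_const_zero, add_zero]
  rw [D.a2_core (D.db (D.ι j)) (fun c f => D.dbdb c _ f)]
  simp only [h1]

lemma a2_Xbg (l i j : κ) : D.Xb l (D.g i j) = -∑ m, star (D.A l m j) * D.g i m := by
  have h := congrArg star (D.Xg l j i)
  simpa only [D.star_X, D.g_herm, star_neg, star_sum, star_mul'] using h

lemma Xbu (l k i p : κ) : D.Xb l (D.u k i p) = 0 := by
  have h0 : ∀ j, ∑ q, D.Xb l (D.u k i q) * D.g q j = 0 := by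
    intro j
    have h1 := congrArg (D.Xb l) (D.T_eq k i j)
    rw [a2_der, D.a2_XbT] at h1
    have h2 : ∑ q, D.u k i q * D.Xb l (D.g q j) = -∑ m, star (D.A l m j) * D.T k i m := by
      simp only [D.a2_Xbg, D.T_eq k i, Finset.mul_sum, mul_neg, Finset.sum_neg_distrib]
      rw [Finset.sum_comm]
      congr 1
      exact Finset.sum_congr rfl fun m _ => Finset.sum_congr rfl fun q _ => by ring
    have h3 : ∑ q, D.g q j * D.Xb l (D.u k i q) = ∑ q, D.Xb l (D.u k i q) * D.g q j :=
      Finset.sum_congr rfl fun q _ => mul_comm _ _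
    rw [h2, h3] at h1
    linear_combination -h1
  rw [← a2_cancel D.g_mul_h (fun q => D.Xb l (D.u k i q)) p]
  simp only [h0, zero_mul, Finset.sum_const_zero]

lemma XbA (l k m i : κ) : D.Xb l (D.A k m i) =
    -∑ p, (∑ s, star (D.u l p s) * D.g i s) * ∑ r, D.u k m r * D.g r p := by
  have h1 : ∀ p, ∑ c, star (D.e p c) * D.d (D.ι i) (star (D.Xc l c)) =
      -∑ s, star (D.u l p s) * D.g i s := by
    intro p
    have h2 := congrArg (D.db (D.ι i)) (D.Xe l p)
    rw [map_zero, a2_der] at h2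
    have h3 : ∑ c, D.e p c * D.db (D.ι i) (D.Xc l c) = -∑ s, D.u l p s * D.g s i := by
      rw [← D.T_eq]
      unfold T
      linear_combination h2
    have h4 := congrArg star h3
    simpa only [star_sum, star_mul', star_neg, D.star_db, D.g_herm] using h4
  unfold A
  rw [map_neg, a2_der]
  simp only [D.Xb_Xc, mul_zero, Finset.sum_const_zero, add_zero]
  rw [D.a2_core (D.d (D.ι i)) (fun c f => (D.ddb _ c f).symm), neg_neg]
  simp only [h1, ← D.T_eq, neg_mul, Finset.sum_neg_distrib]

/-- The leafwise data of a chart. -/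
noncomputable def leaf : Leaf R κ where
  X := D.X
  Xb := D.Xb
  g := D.g
  A := D.A
  u := D.u
  star_X := D.star_X
  comm := D.comm
  herm := D.g_herm
  Xg := D.Xg
  sym1 := D.sym1
  sym2 := D.sym2
  Xbu := D.Xbu
  XbA := D.XbA

end Dat

end Pool.Agent.SPF
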