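import Pool.Agent.P.MP_63735c_ag.SPLoc2

/-! Affinely good maps. -/

open Set Filter Topology
open scoped ComplexOrder ContDiff Matrix

namespace Pool.Agent.SPF

variable {N n : ℕ}

/-- The action of a linear map of the parameter on states. -/
noncomputable def affT (L : E n →L[ℂ] E n) :
    E N × (Fin n → Fin n → ℂ) →L[ℂ] E N × (Fin n → Fin n → ℂ) :=
  (ContinuousLinearMap.fst ℂ _ _).prod (ContinuousLinearMap.pi fun k =>
    ∑ q, L (Pi.single k 1) q •
      (ContinuousLinearMap.proj q).comp (ContinuousLinearMap.snd ℂ (E N) (Fin n → Fin n → ℂ)))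

lemma affT_fst (L : E n →L[ℂ] E n) (y : E N × (Fin n → Fin n → ℂ)) : (affT L y).1 = y.1 := rfl

lemma affT_snd (L : E n →L[ℂ] E n) (y : E N × (Fin n → Fin n → ℂ)) (k i : Fin n) :
    (affT L y).2 k i = ∑ q, L (Pi.single k 1) q * y.2 q i := by
  simp [affT, Finset.sum_apply]

lemma aff_lin (L : E n →L[ℂ] E n) (s : E n) (q : Fin n) :
    L s q = ∑ k, s k * L (Pi.single k 1) q := by
  have hv : s = ∑ k, s k • (Pi.single k 1 : E n) := by
    ext b; simp [Finset.sum_apply, Pi.single_apply]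
  conv_lhs => rw [hv]
  simp only [map_sum, map_smul, Finset.sum_apply, Pi.smul_apply, smul_eq_mul]

lemma aff_con (L : E n →L[ℂ] E n) (y : E N × (Fin n → Fin n → ℂ)) (s : E n) (j : Fin n) :
    ∑ k, s k * (affT L y).2 k j = ∑ q, L s q * y.2 q j := by
  simp only [affT_snd, aff_lin L s, Finset.mul_sum, Finset.sum_mul, mul_assoc]
  exact Finset.sum_comm

lemma aff_V (C : Chart N) (ι : Fin n → Fin N) (L : E n →L[ℂ] E n)
    (y : E N × (Fin n → Fin n → ℂ)) :
    (affT L).comp ((C.V ι y).comp L) = C.V ι (affT L y) := by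
  refine ContinuousLinearMap.ext fun s => Prod.ext (funext fun c => ?_)
    (funext fun k => funext fun i => ?_)
  · rw [ContinuousLinearMap.comp_apply, ContinuousLinearMap.comp_apply, affT_fst, sys_V1, sys_V1]
    simp only [aff_con, affT_fst]
  · rw [ContinuousLinearMap.comp_apply, ContinuousLinearMap.comp_apply, affT_snd, sys_V2]
    simp only [aff_con, affT_fst, sys_V2]
    obtain ⟨τ, hτ⟩ : ∃ τ : Fin n → ℂ, ∀ p, ∑ q, L s q * y.2 q p = τ p := ⟨_, fun _ => rfl⟩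
    simp only [hτ, affT_snd, mul_neg, Finset.sum_neg_distrib, Finset.mul_sum, Finset.sum_mul]
    rw [sys_cyc]
    exact congrArg _ (Finset.sum_congr rfl fun _ _ => Finset.sum_congr rfl fun _ _ =>
      Finset.sum_congr rfl fun _ _ => by ring)

lemma aff_sol {C : Chart N} {ι : Fin n → Fin N} (L : E n →L[ℂ] E n)
    {Y : E n → E N × (Fin n → Fin n → ℂ)} {s : E n}
    (h : HasFDerivAt Y (C.V ι (Y (L s))) (L s)) :
    HasFDerivAt (fun u => affT L (Y (L u))) (C.V ι (affT L (Y (L s)))) s := by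
  rw [← aff_V]
  exact (affT L).hasFDerivAt.comp s (h.comp s L.hasFDerivAt)

lemma aff_jac {C : Chart N} {ι : Fin n → Fin N} {Y : E n → E N × (Fin n → Fin n → ℂ)} {s : E n}
    (h : HasFDerivAt Y (C.V ι (Y s)) s) (a : Fin N) (q : Fin n) :
    jac (fun u => (Y u).1) s a q = ∑ p, (Y s).2 q p * C.X ι (Y s).1 p a := by
  have hF : HasFDerivAt (fun u => (Y u).1)
      ((ContinuousLinearMap.fst ℂ _ _).comp (C.V ι (Y s))) s := h.fst
  rw [jac, Matrix.of_apply, hF.fderiv, ContinuousLinearMap.comp_apply, C.V_apply]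
  simp [Pi.single_apply]

lemma aff_mf {C : Chart N} {ι : Fin n → Fin N} {Y : E n → E N × (Fin n → Fin n → ℂ)} {s : E n}
    (h : HasFDerivAt Y (C.V ι (Y s)) s) (hU : (Y s).1 ∈ C.U ι) :
    C.mf ι (fun u => (Y u).1) s = (Y s).2 := by
  funext k j
  rw [← Chart.lin3_coef hU ((Y s).2 k) j]
  simp only [Chart.mf, aff_jac h, Matrix.mulVec, dotProduct, Finset.sum_apply, Pi.smul_apply,
    smul_eq_mul]

lemma aff_exists (K : Matrix (Fin n) (Fin n) ℂ) (hK : K.det ≠ 0) :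
    ∃ L : E n ≃L[ℂ] E n, ∀ k q, L (Pi.single k 1) q = K k q := by
  have h : IsUnit (Kᵀ).det := by rw [Matrix.det_transpose]; exact hK.isUnit
  refine ⟨(Matrix.toLinearEquiv' Kᵀ (Matrix.invertibleOfIsUnitDet _ h)).toContinuousLinearEquiv,
    fun k q => ?_⟩
  change (Kᵀ *ᵥ Pi.single k 1) q = _
  simp

lemma aff_mat (L : E n →L[ℂ] E n) (y : E N × (Fin n → Fin n → ℂ)) :
    Matrix.of (affT L y).2 = (Matrix.of fun k q => L (Pi.single k 1) q) * Matrix.of y.2 := by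
  ext k i
  simp only [Matrix.of_apply, affT_snd, Matrix.mul_apply]

lemma aff_det (L : E n ≃L[ℂ] E n) :
    (Matrix.of fun k q => (L : E n →L[ℂ] E n) (Pi.single k 1) q).det ≠ 0 := by
  have h : (Matrix.of fun k q => (L : E n →L[ℂ] E n) (Pi.single k 1) q) *
      (Matrix.of fun k q => (L.symm : E n →L[ℂ] E n) (Pi.single k 1) q) = 1 := by
    ext k i
    simp only [Matrix.of_apply, Matrix.mul_apply]
    rw [← aff_lin]
    simp [Matrix.one_apply, Pi.single_apply, eq_comm]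
  exact (Matrix.isUnit_det_of_right_inverse h).ne_zero

lemma aff_gram_det {C : Chart N} {ι : Fin n → Fin N} {z : E N} (hz : z ∈ C.U ι)
    {m : Fin n → Fin n → ℂ} (h : ∀ i j, ∑ k, m k i * star (m k j) = C.g ι z i j) :
    (Matrix.of m).det ≠ 0 := by
  intro h0
  have h1 : C.g ι z = (Matrix.of m)ᵀ * Matrix.of fun k j => star (m k j) := by
    ext i j
    rw [← h]
    simp [Matrix.mul_apply]
  exact Chart.ac_ne hz (by rw [Chart.ac, h1, Matrix.det_mul, Matrix.det_transpose, h0, zero_mul])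

lemma aff_ev (M : E n ≃L[ℂ] E n) {t : E n} {P : E n → Prop} (h : ∀ᶠ s in 𝓝 (M.symm t), P s) :
    ∀ᶠ s in 𝓝 t, P (M.symm s) := M.symm.continuous.continuousAt.eventually h

lemma aff_ev' (M : E n ≃L[ℂ] E n) {t : E n} {P : E n → Prop} (h : ∀ᶠ s in 𝓝 t, P s) :
    ∀ᶠ s in 𝓝 (M.symm t), P (M s) := by
  refine M.continuous.continuousAt.eventually ?_
  rwa [M.apply_symm_apply]

lemma aff_of_good {C : Chart N} {g : E n → E N} (L : E n ≃L[ℂ] E n) {t : E n}
    (h : C.Good g (L t)) : C.AGood (fun s => g (L s)) t := by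
  refine ⟨L.symm, ?_⟩
  simpa only [L.apply_symm_apply, L.symm_symm] using h

lemma aff_jac_mulVec {φ : E N → E N} (z v : E N) : jac φ z *ᵥ v = fderiv ℂ φ z v := by
  have hv : v = ∑ k, v k • (Pi.single k 1 : E N) := by
    ext b; simp [Finset.sum_apply, Pi.single_apply]
  funext a
  conv_rhs => rw [hv]
  simp only [map_sum, map_smul, Finset.sum_apply, Pi.smul_apply, smul_eq_mul, jac, Matrix.mulVec,
    dotProduct, Matrix.of_apply]
  exact Finset.sum_congr rfl fun _ _ => mul_comm _ _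

namespace Chart

variable {C : Chart N} {f : E n → E N} {t : E n}

lemma AGood.eventually (h : C.AGood f t) : ∀ᶠ s in 𝓝 t, C.AGood f s := by
  obtain ⟨M, hM⟩ := h
  filter_upwards [aff_ev M (Eventually.eventually_nhds hM)] with s hs using ⟨M, hs⟩

lemma AGood.congr {f' : E n → E N} (h : C.AGood f t) (he : f =ᶠ[𝓝 t] f') : C.AGood f' t := by
  obtain ⟨M, hM⟩ := h
  refine ⟨M, ?_⟩
  have h1 : (fun s => f (M s)) =ᶠ[𝓝 (M.symm t)] fun s => f' (M s) := aff_ev' M he
  filter_upwards [hM, h1.eventuallyEq_nhds] with s hs h2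
  have h3 : f (M s) = f' (M s) := h2.eq_of_nhds
  have h4 : jac (fun s => f' (M s)) s = jac (fun s => f (M s)) s := by
    simp only [jac, h2.fderiv_eq]
  refine ⟨h3 ▸ hs.1, h3 ▸ hs.2.1, h2.differentiableAt_iff.1 hs.2.2.1, ?_⟩
  rw [h4, ← h3]
  exact hs.2.2.2

lemma AGood.basic (hN : N = 2 * n) (hC : C.Iso) (h : C.AGood f t) :
    f t ∈ C.W ∧ (C.η (f t)).rank = n ∧ DifferentiableAt ℂ f t ∧
      ∀ v, v ∈ C.null (f t) ↔ ∃ τ, fderiv ℂ f t τ = v := by
  obtain ⟨M, hM⟩ := h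
  obtain ⟨h1, h2, h3, h4⟩ := hM.self_of_nhds
  have h5 := (inj_range hN hC h1 h2 (fderiv ℂ (fun s => f (M s)) (M.symm t))
    (J := jac (fun s => f (M s)) (M.symm t)) (fun _ _ => rfl) h4).2
  simp only [M.apply_symm_apply] at h1 h2 h5
  have h6 : HasFDerivAt f ((fderiv ℂ (fun s => f (M s)) (M.symm t)).comp
      (M.symm : E n →L[ℂ] E n)) t := by
    have h7 := h3.hasFDerivAt.comp t M.symm.hasFDerivAt
    simpa only [Function.comp_def, M.apply_symm_apply] using h7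
  refine ⟨h1, h2, h6.differentiableAt, fun v => ?_⟩
  rw [← h5, h6.fderiv, LinearMap.mem_range]
  constructor
  · rintro ⟨τ, rfl⟩
    exact ⟨M τ, by simp⟩
  · rintro ⟨τ, rfl⟩
    exact ⟨M.symm τ, rfl⟩

lemma AGood.sol (hN : N = 2 * n) (hC : C.Iso) (h : C.AGood f t) {ι : Fin n → Fin N}
    (hU : f t ∈ C.U ι) : (Matrix.of (C.mf ι f t)).det ≠ 0 ∧
      ∀ᶠ s in 𝓝 t, HasFDerivAt (fun s => (f s, C.mf ι f s)) (C.V ι (f s, C.mf ι f s)) s := by
  obtain ⟨M, hM⟩ := h
  have hU' : (fun s => f (M s)) (M.symm t) ∈ C.U ι := by simpa only [M.apply_symm_apply] using hU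
  obtain ⟨m, hm0, hm⟩ := Chart.sol_of_good hN hC ι hM hU'
  let Z : E n → E N × (Fin n → Fin n → ℂ) := fun u =>
    affT (M.symm : E n →L[ℂ] E n) (f (M (M.symm u)), m (M.symm u))
  have hZ1 : (fun u => (Z u).1) = f := funext fun u => congrArg f (M.apply_symm_apply u)
  have hZ : ∀ᶠ s in 𝓝 t, HasFDerivAt Z (C.V ι (Z s)) s := by
    filter_upwards [aff_ev M hm] with s hs
    exact aff_sol (Y := fun u => (f (M u), m u)) (M.symm : E n →L[ℂ] E n) hs
  have hc : ContinuousAt f t := by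
    rw [← hZ1]
    exact hZ.self_of_nhds.continuousAt.fst
  have he : (fun s => (f s, C.mf ι f s)) =ᶠ[𝓝 t] Z := by
    filter_upwards [hZ, hc.eventually ((C.isOpen_U ι).mem_nhds hU)] with s h1 h2
    have h3 := aff_mf h1 (by rw [congrFun hZ1 s]; exact h2)
    rw [hZ1] at h3
    exact Prod.ext (congrFun hZ1 s).symm h3
  refine ⟨?_, ?_⟩
  · have h1 : C.mf ι f t = (Z t).2 := congrArg Prod.snd he.eq_of_nhds
    rw [h1, aff_mat, Matrix.det_mul]
    exact mul_ne_zero (aff_det M.symm) (aff_gram_det hU' hm0)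
  · filter_upwards [hZ, he.eventuallyEq_nhds] with s h1 h2
    have h3 : (f s, C.mf ι f s) = Z s := h2.eq_of_nhds
    rw [h3]
    exact h1.congr_of_eventuallyEq h2

lemma agood_of_sol (hN : N = 2 * n) (hC : C.Iso) (ι : Fin n → Fin N)
    {Y : E n → E N × (Fin n → Fin n → ℂ)} {t₀ : E n} {δ : ℝ}
    (hY : ∀ t ∈ Metric.ball t₀ δ, (Y t).1 ∈ C.U ι ∧ HasFDerivAt Y (C.V ι (Y t)) t)
    (h0 : (Matrix.of (Y t₀).2).det ≠ 0) :
    ∀ t ∈ Metric.ball t₀ δ, C.AGood (fun s => (Y s).1) t := by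
  intro t ht
  have ht₀ : t₀ ∈ Metric.ball t₀ δ := Metric.mem_ball_self (Metric.pos_of_mem_ball ht)
  obtain ⟨m0, hm0⟩ := exists_gram (hY t₀ ht₀).1
  obtain ⟨L, hL⟩ := aff_exists (Matrix.of m0 * (Matrix.of (Y t₀).2)⁻¹) (by
    rw [Matrix.det_mul]
    exact mul_ne_zero (aff_gram_det (hY t₀ ht₀).1 hm0)
      (Matrix.isUnit_nonsing_inv_det _ h0.isUnit).ne_zero)
  let P : E n → Prop := fun s => ∀ i j, ∑ k, (affT (L : E n →L[ℂ] E n) (Y s)).2 k i *
    star ((affT (L : E n →L[ℂ] E n) (Y s)).2 k j) = C.g ι (Y s).1 i j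
  have hP0 : P t₀ := by
    have h1 : Matrix.of (affT (L : E n →L[ℂ] E n) (Y t₀)).2 = Matrix.of m0 := by
      have h2 : (Matrix.of fun k q => (L : E n →L[ℂ] E n) (Pi.single k 1) q) =
          Matrix.of m0 * (Matrix.of (Y t₀).2)⁻¹ := Matrix.ext hL
      rw [aff_mat, h2, Matrix.mul_assoc, Matrix.nonsing_inv_mul _ h0.isUnit, Matrix.mul_one]
    have h3 : (affT (L : E n →L[ℂ] E n) (Y t₀)).2 = m0 := Matrix.of.injective h1
    intro i j
    rw [h3]
    exact hm0 i j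
  have step : ∀ u ∈ Metric.ball t₀ δ, P u →
      C.Good (fun s => (Y (L s)).1) (L.symm u) ∧ ∀ᶠ s in 𝓝 u, P s := by
    intro u hu hPu
    obtain ⟨ε, hε, hb⟩ := Metric.eventually_nhds_iff_ball.1
      (aff_ev' L (Metric.isOpen_ball.mem_nhds hu))
    have hZ : ∀ s ∈ Metric.ball (L.symm u) ε,
        (affT (L : E n →L[ℂ] E n) (Y (L s))).1 ∈ C.U ι ∧
          HasFDerivAt (fun v => affT (L : E n →L[ℂ] E n) (Y (L v)))
            (C.V ι (affT (L : E n →L[ℂ] E n) (Y (L s)))) s := fun s hs =>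
      ⟨(hY _ (hb s hs)).1, aff_sol (L : E n →L[ℂ] E n) (hY _ (hb s hs)).2⟩
    have hG := Chart.good_of_sol hN hC ι hZ (by
      simp only [L.apply_symm_apply]
      exact hPu)
    refine ⟨hG _ (Metric.mem_ball_self hε), ?_⟩
    filter_upwards [aff_ev L (Metric.ball_mem_nhds (L.symm u) hε)] with s hs
    have h1 := (hG _ hs).self_of_nhds
    have h3 := aff_jac (Y := fun v => affT (L : E n →L[ℂ] E n) (Y (L v))) (hZ _ hs).2
    have h2 := (gram_iff (hZ _ hs).1 h1.2.1.le _ h3).1 h1.2.2.2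
    simp only [L.apply_symm_apply] at h2
    exact h2
  have hall : Metric.ball t₀ δ ⊆ {u | ∀ᶠ s in 𝓝 u, P s} := by
    refine (convex_ball t₀ δ).isPreconnected.subset_of_closure_inter_subset
      isOpen_setOfPred_eventually_nhds ⟨t₀, ht₀, (step t₀ ht₀ hP0).2⟩ ?_
    rintro u ⟨hu1, hu⟩
    refine (step u hu fun i j => ?_).2
    have hc : ContinuousAt Y u := (hY u hu).2.continuousAt
    have hT : ContinuousAt (fun s => (affT (L : E n →L[ℂ] E n) (Y s)).2) u :=
      ((affT (L : E n →L[ℂ] E n)).continuous.continuousAt.comp hc).snd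
    have hk : ∀ k i, ContinuousAt (fun s => (affT (L : E n →L[ℂ] E n) (Y s)).2 k i) u :=
      fun k i => continuousAt_pi.1 (continuousAt_pi.1 hT k) i
    have c1 : ContinuousAt (fun s => ∑ k, (affT (L : E n →L[ℂ] E n) (Y s)).2 k i *
        star ((affT (L : E n →L[ℂ] E n) (Y s)).2 k j)) u :=
      tendsto_finsetSum _ fun k _ => (hk k i).mul (hk k j).star
    have c2 : ContinuousAt (fun s => C.g ι (Y s).1 i j) u :=
      ContinuousAt.comp (g := fun z => C.η z (ι i) (ι j))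
        ((C.η_smooth _ _).continuousOn.continuousAt (C.isOpen.mem_nhds (hY u hu).1.1)) hc.fst
    refine tendsto_nhds_unique_of_frequently_eq c1 c2 ?_
    exact (mem_closure_iff_frequently.1 hu1).mono fun s hs => hs.self_of_nhds i j
  exact ⟨L, (step t ht (hall ht).self_of_nhds).1⟩

end Chart

lemma IsChange.agood {C C' : Chart N} {O : Set (E N)} {φ : E N → E N} (h : IsChange C C' O φ)
    {f : E n → E N} {t : E n} (hf : C.AGood f t) (ht : f t ∈ O) :
    C'.AGood (fun s => φ (f s)) t := by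
  obtain ⟨M, hM⟩ := hf
  exact ⟨M, h.good hM (by simpa only [M.apply_symm_apply] using ht)⟩

lemma IsChange.pair {C C' : Chart N} {O : Set (E N)} {φ : E N → E N} (h : IsChange C C' O φ)
    {F : E n × E n → E N} {w : E n × E n} (hF : DifferentiableAt ℂ F w) (hw : F w ∈ O)
    (β τ : E n) : C'.pair (fun s => φ (F s)) w β τ = C.pair F w β τ := by
  have h1 : fderiv ℂ (fun s => φ (F s)) w = (fderiv ℂ φ (F w)).comp (fderiv ℂ F w) :=
    fderiv_comp w (h.lin3_diff hw) hF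
  simp only [Chart.pair, h1, ContinuousLinearMap.comp_apply, ← aff_jac_mulVec, h.σ_eq _ hw]
  rw [← Matrix.mulVec_mulVec, ← Matrix.mulVec_mulVec, Matrix.dotProduct_mulVec _ (jac φ (F w))ᵀ,
    Matrix.vecMul_transpose]

variable {X : Type} [TopologicalSpace X] {A : Atlas X N}

lemma Atlas.AGoodAt.toLift (hN : N = 2 * n) (hI : ∀ i, (A.C i).Iso) {Φ : E n → X} {t : E n}
    (h : A.AGoodAt Φ t) : A.Lift Φ t := by
  obtain ⟨i, f, hf, hp⟩ := h
  refine ⟨i, f, ?_⟩
  filter_upwards [hf.eventually, hp] with s h1 h2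
  exact ⟨(h1.basic hN (hI i)).1, (h1.basic hN (hI i)).2.2.1, h2⟩

lemma Atlas.AGoodAt.lift (hN : N = 2 * n) (hI : ∀ i, (A.C i).Iso) {Φ : E n → X} {t : E n}
    (h : A.AGoodAt Φ t) {j : A.ι} {y : E N} (hy : y ∈ (A.C j).W) (hp : A.p j y = Φ t) :
    ∃ f : E n → E N, (A.C j).AGood f t ∧ f t = y ∧ ∀ᶠ s in 𝓝 t, A.p j (f s) = Φ s := by
  obtain ⟨i, f, hf, he⟩ := h
  have h0 := hf.basic hN (hI i)
  obtain ⟨O, φ, hc, hO, hφ, hw⟩ := A.trans i j (f t) h0.1 y hy (he.self_of_nhds.trans hp.symm)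
  refine ⟨fun s => φ (f s), hc.agood hf hO, hφ, ?_⟩
  filter_upwards [he, h0.2.2.1.continuousAt.preimage_mem_nhds (hc.isOpen.mem_nhds hO)] with s a b
  exact (hw _ b).trans a

/-- An entire leaf map whose derivative at the origin is the frame. -/
theorem Atlas.exists_agood [T2Space X] (hN : N = 2 * n) (A : Atlas X N)
    (hI : ∀ i, (A.C i).Iso) (hG : A.Complete n) (i : A.ι) {ι : Fin n → Fin N} {z : E N}
    (hz : z ∈ (A.C i).U ι) :
    ∃ (Φ : E n → X) (f : E n → E N), (∀ t, A.AGoodAt Φ t) ∧ (A.C i).AGood f 0 ∧ f 0 = z ∧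
      (A.C i).mf ι f 0 = (fun k j => if k = j then 1 else 0) ∧
        ∀ᶠ s in 𝓝 (0 : E n), A.p i (f s) = Φ s := by
  have hr := le_antisymm (Chart.rank_le hN (hI i) hz.1) (Chart.le_rank hz)
  obtain ⟨Φ, h0, hΦ⟩ := hG i z hz.1 hr
  obtain ⟨f, hf, hfz, hp⟩ := (hΦ 0).lift hz.1 h0.symm
  have hf' : (A.C i).AGood f 0 := ⟨ContinuousLinearEquiv.refl ℂ _, hf⟩
  obtain ⟨hd, hs⟩ := hf'.sol hN (hI i) (ι := ι) (hfz ▸ hz)
  obtain ⟨L, hL⟩ := aff_exists (Matrix.of ((A.C i).mf ι f 0))⁻¹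
    (Matrix.isUnit_nonsing_inv_det _ hd.isUnit).ne_zero
  have hL0 : L 0 = 0 := map_zero L
  refine ⟨fun s => Φ (L s), fun s => f (L s), fun t => ?_, aff_of_good L (by rw [hL0]; exact hf),
    by simp only [hL0, hfz], ?_, L.continuous.continuousAt.eventually (hL0 ▸ hp)⟩
  · obtain ⟨j, g, hg, hq⟩ := hΦ (L t)
    exact ⟨j, fun s => g (L s), aff_of_good L hg, L.continuous.continuousAt.eventually hq⟩
  · have h1 : HasFDerivAt (fun s => (f s, (A.C i).mf ι f s))
        ((A.C i).V ι (f ((L : E n →L[ℂ] E n) 0), (A.C i).mf ι f ((L : E n →L[ℂ] E n) 0)))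
        ((L : E n →L[ℂ] E n) 0) := by
      rw [map_zero]
      exact hs.self_of_nhds
    have h2 := aff_mf (aff_sol (Y := fun s => (f s, (A.C i).mf ι f s)) _ h1) (by
      rw [affT_fst, map_zero, hfz]
      exact hz)
    have h3 : (Matrix.of fun k q => (L : E n →L[ℂ] E n) (Pi.single k 1) q) =
        (Matrix.of ((A.C i).mf ι f 0))⁻¹ := Matrix.ext hL
    have h4 := aff_mat (L : E n →L[ℂ] E n) (f 0, (A.C i).mf ι f 0)
    rw [h3, Matrix.nonsing_inv_mul _ hd.isUnit] at h4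
    rw [map_zero] at h2
    refine h2.trans (funext fun k => funext fun j => ?_)
    exact (congrFun (congrFun h4 k) j).trans (Matrix.one_apply)

end Pool.Agent.SPF
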