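import Mathlib

/-! Differential algebra set-up: a ring with commuting derivations and a rank `n` form. -/

open scoped Matrix

namespace Pool.Agent.SPF

variable {R : Type} [CommRing R] [StarRing R] [Algebra ℂ R] {α κ : Type} [Fintype α] [Fintype κ]
  [DecidableEq α] [DecidableEq κ]

/-- The form `g ⊗ g ⊗ g` on 3-tensors. -/
def ip3 {R : Type} [CommRing R] [StarRing R] (g : Matrix κ κ R) (v w : κ → κ → κ → R) : R :=
  ∑ m, ∑ j, ∑ q, ∑ m', ∑ j', ∑ q', v m j q * star (w m' j' q') * g m m' * g j j' * g q q'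

/-- The contraction `P m s` of two slots. -/
def pc3 {R : Type} [CommRing R] [StarRing R] (g : Matrix κ κ R) (u : κ → κ → κ → R) (m s : κ) : R :=
  ∑ j, ∑ q, ∑ j', ∑ q', u m j q * star (u s j' q') * g j j' * g q q'

/-- The quartic term. -/
def qt3 {R : Type} [CommRing R] [StarRing R] (g : Matrix κ κ R) (u : κ → κ → κ → R) : R :=
  ∑ m, ∑ s, ∑ i, ∑ t, pc3 g u m s * g i s * pc3 g u i t * g m t

/-- The form `g` on vectors. -/
def ip1 {R : Type} [CommRing R] [StarRing R] (g : Matrix κ κ R) (v w : κ → R) : R :=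
  ∑ k, ∑ l, v k * g k l * star (w l)

lemma der_sum_apply {R : Type} [CommRing R] [Algebra ℂ R] {β : Type} (s : Finset β)
    (D : β → Derivation ℂ R R) (f : R) : (∑ b ∈ s, D b) f = ∑ b ∈ s, D b f := by
  classical
  induction s using Finset.induction_on with
  | empty => simp
  | insert b s hb ih => simp [Finset.sum_insert hb, ih]

/-- Chart data. -/
structure Dat (R : Type) [CommRing R] [StarRing R] [Algebra ℂ R] (α κ : Type) [Fintype α]
    [Fintype κ] [DecidableEq α] [DecidableEq κ] where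
  d : α → Derivation ℂ R R
  db : α → Derivation ℂ R R
  star_d : ∀ a f, star (d a f) = db a (star f)
  ddb : ∀ a b f, d a (db b f) = db b (d a f)
  dd : ∀ a b f, d a (d b f) = d b (d a f)
  ι : κ → α
  η : Matrix α α R
  π : Matrix α α R
  σ : Matrix α α R
  h : Matrix κ κ R
  herm : ∀ a b, star (η a b) = η b a
  clos : ∀ a b c, d c (η a b) = d a (η c b)
  skew : ∀ a b, π a b = -π b a
  hol : ∀ a b c, db c (π a b) = 0
  πσ : π * σ = 1
  σclos : ∀ a b c, d a (σ b c) + d b (σ c a) + d c (σ a b) = 0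
  hg : h * η.submatrix ι ι = 1
  iso : ηᵀ * π * η = 0
  F1 : ∀ b c, η b c = ∑ i, ∑ j, η b (ι i) * h i j * η (ι j) c

namespace Dat

variable (D : Dat R α κ)

def g : Matrix κ κ R := D.η.submatrix D.ι D.ι

def e (i : κ) (b : α) : R := ∑ j, D.η b (D.ι j) * D.h j i

def Xc (k : κ) (a : α) : R := ∑ b, D.π a b * D.e k b

noncomputable def X (k : κ) : Derivation ℂ R R := ∑ a, D.Xc k a • D.d a

noncomputable def Xb (k : κ) : Derivation ℂ R R := ∑ a, star (D.Xc k a) • D.db a

def A (k m i : κ) : R := -∑ c, D.Xc k c * D.d (D.ι i) (D.e m c)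

def T (k i j : κ) : R := ∑ b, D.Xc k b * D.db (D.ι j) (D.e i b)

def u (k i p : κ) : R := ∑ j, D.T k i j * D.h j p

def G (a b : α) : R := ∑ c, ∑ c', D.π a c * D.η c c' * star (D.π b c')

def lap (f : R) : R := ∑ a, ∑ b, D.G a b * D.d a (D.db b f)

def gam (f₁ f₂ : R) : R := ∑ a, ∑ b, D.G a b * D.d a f₁ * D.db b f₂

def W (f : R) : R := f * D.lap f - D.gam f f

def S : R := ip3 D.g D.u D.u

def trA (k : κ) : R := ∑ i, D.A k i i

lemma X_apply (k : κ) (f : R) : D.X k f = ∑ a, D.Xc k a * D.d a f := by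
  simp [X, der_sum_apply]

lemma Xb_apply (k : κ) (f : R) : D.Xb k f = ∑ a, star (D.Xc k a) * D.db a f := by
  simp [Xb, der_sum_apply]

end Dat

/-- Leafwise data: the identities that enter the inequality of Lu. -/
structure Leaf (R : Type) [CommRing R] [StarRing R] [Algebra ℂ R] (κ : Type) [Fintype κ] where
  X : κ → Derivation ℂ R R
  Xb : κ → Derivation ℂ R R
  g : Matrix κ κ R
  A : κ → κ → κ → R
  u : κ → κ → κ → R
  star_X : ∀ k f, star (X k f) = Xb k (star f)
  comm : ∀ k l f, X k (Xb l f) = Xb l (X k f)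
  herm : ∀ i j, star (g i j) = g j i
  Xg : ∀ k i j, X k (g i j) = -∑ m, A k m i * g m j
  sym1 : ∀ k i p, u k i p = u i k p
  sym2 : ∀ k i p, u k i p = u k p i
  Xbu : ∀ l k i p, Xb l (u k i p) = 0
  XbA : ∀ l k m i, Xb l (A k m i) =
    -∑ p, (∑ s, star (u l p s) * g i s) * ∑ r, u k m r * g r p

/-- Covariant derivative of `u`. -/
def Leaf.nab (L : Leaf R κ) (k m j q : κ) : R :=
  L.X k (L.u m j q) - ∑ i, L.A k m i * L.u i j q - ∑ i, L.A k j i * L.u m i q -
    ∑ i, L.A k q i * L.u m j i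

end Pool.Agent.SPF
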