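import Mathlib

/-! Holomorphic symplectic orbifold atlases with a closed semipositive (1,1)-form. -/

open scoped ComplexOrder ContDiff Matrix

namespace Pool.Agent.SPF

/-- The model space. -/
abbrev E (N : ℕ) := Fin N → ℂ

variable {N : ℕ}

/-- Wirtinger derivative in `z_a`. -/
noncomputable def dz (a : Fin N) (f : E N → ℂ) (z : E N) : ℂ :=
  (fderiv ℝ f z (Pi.single a 1) - Complex.I * fderiv ℝ f z (Pi.single a Complex.I)) / 2

/-- Jacobian matrix of a holomorphic map. -/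
noncomputable def jac {M : ℕ} (φ : E M → E N) (z : E M) : Matrix (Fin N) (Fin M) ℂ :=
  Matrix.of fun c a => fderiv ℂ φ z (Pi.single a 1) c

/-- An open set of `ℂ^N` with a holomorphic symplectic form `1/2 ∑ σ_ab dz_a dz_b` and a smooth
closed semipositive (1,1)-form `i ∑ η_ab dz_a dzbar_b`. -/
structure Chart (N : ℕ) where
  W : Set (E N)
  σ : E N → Matrix (Fin N) (Fin N) ℂ
  η : E N → Matrix (Fin N) (Fin N) ℂ
  isOpen : IsOpen W
  σ_hol : ∀ a b, DifferentiableOn ℂ (fun z => σ z a b) W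
  σ_skew : ∀ z ∈ W, (σ z)ᵀ = -σ z
  σ_det : ∀ z ∈ W, (σ z).det ≠ 0
  σ_closed : ∀ z ∈ W, ∀ a b c,
    dz a (fun w => σ w b c) z + dz b (fun w => σ w c a) z + dz c (fun w => σ w a b) z = 0
  η_smooth : ∀ a b, ContDiffOn ℝ ∞ (fun z => η z a b) W
  η_psd : ∀ z ∈ W, (η z).PosSemidef
  η_closed : ∀ z ∈ W, ∀ a b c, dz c (fun w => η w a b) z = dz a (fun w => η w c b) z

/-- `φ` is a holomorphic map from the open part `O` of `C` to `C'` that pulls both forms back. -/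
structure IsChange (C C' : Chart N) (O : Set (E N)) (φ : E N → E N) : Prop where
  isOpen : IsOpen O
  sub : O ⊆ C.W
  hol : DifferentiableOn ℂ φ O
  maps : Set.MapsTo φ O C'.W
  σ_eq : ∀ z ∈ O, C.σ z = (jac φ z)ᵀ * C'.σ (φ z) * jac φ z
  η_eq : ∀ z ∈ O, C.η z = (jac φ z)ᵀ * C'.η (φ z) * (jac φ z).map star

/-- An orbifold atlas on `X`: uniformizing charts `p i`, local changes of charts, and for each chart
a finite set of automorphisms whose orbits contain the fibres of `p i`. -/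
structure Atlas (X : Type) [TopologicalSpace X] (N : ℕ) where
  ι : Type
  C : ι → Chart N
  p : ι → E N → X
  G : ι → Set (E N → E N)
  cont : ∀ i, ContinuousOn (p i) (C i).W
  opn : ∀ i O, IsOpen O → O ⊆ (C i).W → IsOpen (p i '' O)
  cover : ∀ x, ∃ i, ∃ z ∈ (C i).W, p i z = x
  trans : ∀ i j, ∀ z ∈ (C i).W, ∀ y ∈ (C j).W, p i z = p j y →
    ∃ O φ, IsChange (C i) (C j) O φ ∧ z ∈ O ∧ φ z = y ∧ ∀ w ∈ O, p j (φ w) = p i w
  G_fin : ∀ i, (G i).Finite
  G_iso : ∀ i, ∀ g ∈ G i, IsChange (C i) (C i) (C i).W g ∧ ∀ w ∈ (C i).W, p i (g w) = p i w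
  G_fib : ∀ i, ∀ z ∈ (C i).W, ∀ y ∈ (C i).W, p i z = p i y → ∃ g ∈ G i, g z = y

/-- The exterior algebra on `dz_a`, `dzbar_a`. -/
abbrev Ext (N : ℕ) := ExteriorAlgebra ℂ (Fin N ⊕ Fin N → ℂ)

/-- The generator `dz_a`. -/
noncomputable def xz (a : Fin N) : Ext N := ExteriorAlgebra.ι ℂ (Pi.single (Sum.inl a) 1)

/-- The generator `dzbar_a`. -/
noncomputable def xb (a : Fin N) : Ext N := ExteriorAlgebra.ι ℂ (Pi.single (Sum.inr a) 1)

/-- The (2,0)-form with matrix `s`. -/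
noncomputable def form20 (s : Matrix (Fin N) (Fin N) ℂ) : Ext N :=
  (1 / 2 : ℂ) • ∑ a, ∑ b, s a b • (xz a * xz b)

/-- The conjugate (0,2)-form. -/
noncomputable def form02 (s : Matrix (Fin N) (Fin N) ℂ) : Ext N :=
  (1 / 2 : ℂ) • ∑ a, ∑ b, star (s a b) • (xb a * xb b)

/-- The (1,1)-form with matrix `h`. -/
noncomputable def form11 (h : Matrix (Fin N) (Fin N) ℂ) : Ext N :=
  Complex.I • ∑ a, ∑ b, h a b • (xz a * xb b)

/-- `η^2 σ^(n-1) σbar^(n-1) = F σ^n σbar^n` in every chart. -/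
def IsDensity {X : Type} [TopologicalSpace X] (n : ℕ) (A : Atlas X N) (F : X → ℝ) : Prop :=
  ∀ i, ∀ z ∈ (A.C i).W,
    form11 ((A.C i).η z) ^ 2 * form20 ((A.C i).σ z) ^ (n - 1) * form02 ((A.C i).σ z) ^ (n - 1) =
      (F (A.p i z) : ℂ) • (form20 ((A.C i).σ z) ^ n * form02 ((A.C i).σ z) ^ n)

/-- The null space of `η` at `z`, as a space of tangent vectors. -/
def Chart.null (C : Chart N) (z : E N) : Submodule ℂ (E N) := LinearMap.ker (C.η z).vecMulLinear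

/-- Near `z` the null space of `η` has a holomorphic frame of `n` vector fields on which `σ`
vanishes. -/
def Chart.HolFrame (C : Chart N) (n : ℕ) (z : E N) : Prop :=
  ∃ (O : Set (E N)) (v : Fin n → E N → E N), IsOpen O ∧ z ∈ O ∧ O ⊆ C.W ∧
    (∀ k, DifferentiableOn ℂ (v k) O) ∧ ∀ w ∈ O, LinearIndependent ℂ (fun k => v k w) ∧
      Submodule.span ℂ (Set.range fun k => v k w) = C.null w ∧
      ∀ k l, v k w ⬝ᵥ C.σ w *ᵥ v l w = 0

/-- `Φ : ℂ^n → X` lifts locally to holomorphic immersions whose tangent space is the null space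
of `η`. -/
def Atlas.IsLeafMap {X : Type} [TopologicalSpace X] (A : Atlas X N) {n : ℕ} (Φ : E n → X) : Prop :=
  ∀ t, ∃ (i : A.ι) (O : Set (E n)) (f : E n → E N), IsOpen O ∧ t ∈ O ∧ DifferentiableOn ℂ f O ∧
    ∀ s ∈ O, f s ∈ (A.C i).W ∧ A.p i (f s) = Φ s ∧ Function.Injective (fderiv ℂ f s) ∧
      LinearMap.range (fderiv ℂ f s : E n →ₗ[ℂ] E N) = (A.C i).null (f s)

/-- `Ψ : T × ℂ^n → X` lifts locally to holomorphic maps with invertible derivative that send the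
directions of the second factor onto the null space of `η`, and `σ (dΨ (β, τ), dΨ (0, τ')) = β · τ'`:
the translations of the second factor are the Hamiltonian flows of the coordinates of `T`. -/
def Atlas.IsUnif {X : Type} [TopologicalSpace X] (A : Atlas X N) {n : ℕ} (T : Set (E n))
    (Ψ : E n × E n → X) : Prop :=
  ∀ w : E n × E n, w.1 ∈ T → ∃ (i : A.ι) (O : Set (E n × E n)) (f : E n × E n → E N),
    IsOpen O ∧ w ∈ O ∧ DifferentiableOn ℂ f O ∧ ∀ s ∈ O, f s ∈ (A.C i).W ∧ A.p i (f s) = Ψ s ∧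
      Function.Bijective (fderiv ℂ f s) ∧
      (∀ v, v ∈ (A.C i).null (f s) ↔ ∃ τ, fderiv ℂ f s (0, τ) = v) ∧
      ∀ β τ τ', fderiv ℂ f s (β, τ) ⬝ᵥ (A.C i).σ (f s) *ᵥ fderiv ℂ f s (0, τ') = β ⬝ᵥ τ'

/-- `u` is the squared norm of a holomorphic section of a hermitian line bundle of curvature
`k η`: locally `u = |f|^2 exp (-k ψ)` with `f` holomorphic and `η` the Levi form of `ψ`. -/
def Atlas.IsSectionNorm {X : Type} [TopologicalSpace X] (A : Atlas X N) (k : ℝ) (u : X → ℝ) :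
    Prop :=
  ∀ i, ∀ z ∈ (A.C i).W, ∃ (O : Set (E N)) (ψ : E N → ℝ) (f : E N → ℂ), IsOpen O ∧ z ∈ O ∧
    O ⊆ (A.C i).W ∧ ContDiffOn ℝ ∞ ψ O ∧ DifferentiableOn ℂ f O ∧ ∀ w ∈ O,
      (∀ a b, dz a (fun y => star (dz b (fun x => (ψ x : ℂ)) y)) w = (A.C i).η w a b) ∧
        u (A.p i w) = ‖f w‖ ^ 2 * Real.exp (-k * ψ w)

end Pool.Agent.SPF
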