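import Pool.Agent.P.MP_63735c_ag.SPDefs

/-! Exterior algebra: powers of a symplectic form. -/

open Set Filter Topology
open scoped ComplexOrder ContDiff Matrix

namespace Pool.Agent.SPF

variable {N n : ℕ} {s : Matrix (Fin N) (Fin N) ℂ}

section
variable {R : Type} [Ring R] [Algebra ℂ R]

/-- generators with contractions -/
structure Ext1Sys (x : Fin N → R) (i : Fin N → R →ₗ[ℂ] R) : Prop where
  sq : ∀ a, x a * x a = 0
  anti : ∀ a b, x a * x b = -(x b * x a)
  con : ∀ a b y, i a (x b * y) = (if a = b then y else 0) - x b * i a y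

/-- the two-form -/
noncomputable def ext1Sig (x : Fin N → R) (s : Matrix (Fin N) (Fin N) ℂ) : R :=
  (1 / 2 : ℂ) • ∑ a, ∑ b, s a b • (x a * x b)

variable {x : Fin N → R} {i : Fin N → R →ₗ[ℂ] R} {t : Matrix (Fin N) (Fin N) ℂ} {τ : R}

lemma ext1_comm (h : Ext1Sys x i) (c : Fin N) : Commute (x c) (ext1Sig x s) := by
  refine Commute.smul_right (Commute.sum_right _ _ _ fun a _ => Commute.sum_right _ _ _
    fun b _ => Commute.smul_right ?_ _) _
  show x c * (x a * x b) = x a * x b * x c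
  rw [← mul_assoc, h.anti c a, neg_mul, mul_assoc, h.anti c b, mul_neg, neg_neg, mul_assoc]

lemma ext1_sig (h : Ext1Sys x i) (hs : sᵀ = -s) (a : Fin N) (y : R) :
    i a (ext1Sig x s * y) = (∑ b, s a b • x b) * y + ext1Sig x s * i a y := by
  have hs' : ∀ b c, s b c = -s c b := fun b c => congrFun (congrFun hs c) b
  have e : ∀ b c, i a (s b c • (x b * x c) * y) = (if a = b then s b c • (x c * y) else 0) -
      (if a = c then s b c • (x b * y) else 0) + s b c • (x b * x c) * i a y := by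
    intro b c
    rw [smul_mul_assoc, map_smul, mul_assoc, h.con, h.con, smul_mul_assoc, mul_assoc]
    split_ifs <;> simp [mul_sub, smul_sub] <;> abel
  have e1 : ∑ b, ∑ c, (if a = b then s b c • (x c * y) else 0) = ∑ c, s a c • (x c * y) := by
    rw [Finset.sum_comm]; simp
  have e2 : ∑ b, ∑ c, (if a = c then s b c • (x b * y) else 0) = -∑ c, s a c • (x c * y) := by
    rw [← Finset.sum_neg_distrib]
    refine Finset.sum_congr rfl fun b _ => ?_
    rw [Finset.sum_ite_eq, if_pos (Finset.mem_univ _), hs' b a, neg_smul]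
  unfold ext1Sig
  rw [smul_mul_assoc, smul_mul_assoc, map_smul]
  simp only [Finset.sum_mul, map_sum, e, Finset.sum_add_distrib, Finset.sum_sub_distrib, e1, e2]
  simp only [smul_mul_assoc]
  rw [sub_neg_eq_add, smul_add, ← two_smul ℂ, smul_smul]
  norm_num

lemma ext1_pow (h : Ext1Sys x i) (hs : sᵀ = -s) (hτ : ∀ a, i a τ = 0) (a : Fin N) (k : ℕ) :
    i a (ext1Sig x s ^ (k + 1) * τ) =
      ((k : ℂ) + 1) • ((∑ b, s a b • x b) * (ext1Sig x s ^ k * τ)) := by
  have hc : Commute (∑ b, s a b • x b) (ext1Sig x s) :=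
    Commute.sum_left _ _ _ fun b _ => (ext1_comm h b).smul_left _
  induction k with
  | zero => rw [zero_add, pow_one, ext1_sig h hs, hτ]; simp
  | succ k ih =>
    rw [pow_succ', mul_assoc, ext1_sig h hs, ih, mul_smul_comm, ← mul_assoc (ext1Sig x s),
      ← hc.eq, mul_assoc, ← mul_assoc (ext1Sig x s), ← pow_succ', Nat.cast_succ, add_comm,
      add_smul ((k : ℂ) + 1), one_smul]

lemma ext1_euler (h : Ext1Sys x i) (hs : sᵀ = -s) (hτ : ∀ a, i a τ = 0) (k : ℕ) :
    ∑ a, x a * i a (ext1Sig x s ^ k * τ) = ((2 * k : ℕ) : ℂ) • (ext1Sig x s ^ k * τ) := by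
  cases k with
  | zero => simp [hτ]
  | succ k =>
    have e : ∑ a, x a * ∑ b, s a b • x b = (2 : ℂ) • ext1Sig x s := by
      unfold ext1Sig
      rw [smul_smul]
      simp [Finset.mul_sum]
    simp only [ext1_pow h hs hτ, mul_smul_comm, ← mul_assoc]
    rw [← Finset.smul_sum, ← Finset.sum_mul, ← Finset.sum_mul, e, smul_mul_assoc, smul_mul_assoc,
      smul_smul, ← pow_succ']
    congr 1
    push_cast
    ring

lemma ext1_zero (h : Ext1Sys x i) {y : R} {m : ℕ} (hm : m ≠ N)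
    (hy : ∑ a, x a * i a y = (m : ℂ) • y) (h0 : ∀ c, x c * y = 0) : y = 0 := by
  have e : ∑ c, i c (x c * y) = (N : ℂ) • y - (m : ℂ) • y := by
    simp only [h.con, if_true, Finset.sum_sub_distrib, hy]
    simp [Nat.cast_smul_eq_nsmul]
  simp only [h0, map_zero, Finset.sum_const_zero] at e
  rw [← sub_smul] at e
  refine (smul_eq_zero.1 e.symm).resolve_left fun h1 => hm ?_
  exact_mod_cast (sub_eq_zero.1 h1).symm

lemma ext1_up (h : Ext1Sys x i) {y : R} {m : ℕ} (hy : ∑ a, x a * i a y = (m : ℂ) • y)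
    (b : Fin N) : ∑ a, x a * i a (x b * y) = ((m + 1 : ℕ) : ℂ) • (x b * y) := by
  have e : ∀ a, x a * i a (x b * y) = (if a = b then x b * y else 0) + x b * (x a * i a y) := by
    intro a
    rw [h.con, mul_sub, ← mul_assoc, h.anti a b, neg_mul, sub_neg_eq_add, mul_assoc]
    split_ifs with hab
    · rw [hab]
    · rw [mul_zero]
  simp only [e, Finset.sum_add_distrib, ← Finset.mul_sum, hy]
  rw [Finset.sum_ite_eq', if_pos (Finset.mem_univ _), mul_smul_comm, Nat.cast_succ, add_smul,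
    one_smul, add_comm]

lemma ext1_big (h : Ext1Sys x i) (S : Finset (Fin N)) : ∀ (y : R) (m : ℕ), N < m →
    ∑ a, x a * i a y = (m : ℂ) • y → (∀ c ∉ S, x c * y = 0) → y = 0 := by
  induction S using Finset.strongInduction with
  | H S ih =>
    intro y m hm hy h0
    refine ext1_zero h hm.ne' hy fun c => ?_
    by_cases hc : c ∈ S
    · refine ih (S.erase c) (Finset.erase_ssubset hc) _ (m + 1) (by omega) (ext1_up h hy c)
        fun d hd => ?_
      by_cases hdc : d = c
      · rw [hdc, ← mul_assoc, h.sq, zero_mul]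
      · rw [← mul_assoc, h.anti d c, neg_mul, mul_assoc,
          h0 d fun h1 => hd (Finset.mem_erase.2 ⟨hdc, h1⟩), mul_zero, neg_zero]
    · exact h0 c hc

lemma ext1_inv (ht : t * s = 1) (c : Fin N) : ∑ a, t c a • ∑ b, s a b • x b = x c := by
  simp only [Finset.smul_sum, smul_smul]
  rw [Finset.sum_comm]
  simp only [← Finset.sum_smul, ← Matrix.mul_apply, ht, Matrix.one_apply]
  simp

lemma ext1_ne (h : Ext1Sys x i) (hs : sᵀ = -s) (ht : t * s = 1) (hτ : ∀ a, i a τ = 0)
    (h0 : τ ≠ 0) (k : ℕ) (hk : 2 * k ≤ N) : ext1Sig x s ^ k * τ ≠ 0 := by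
  induction k with
  | zero => simpa using h0
  | succ k ih =>
    intro h1
    refine ih (by omega) (ext1_zero h (by omega) (ext1_euler h hs hτ k) fun c => ?_)
    rw [← ext1_inv (x := x) ht c, Finset.sum_mul]
    refine Finset.sum_eq_zero fun a _ => ?_
    have h2 := ext1_pow h hs hτ a k
    rw [h1, map_zero] at h2
    rw [smul_mul_assoc, (smul_eq_zero.1 h2.symm).resolve_left (Nat.cast_add_one_ne_zero k),
      smul_zero]

lemma ext1_two (h : Ext1Sys x i) (hN : N = 2 * n) (hn : 1 ≤ n) (hs : sᵀ = -s) (ht : t * s = 1)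
    (h1 : ∀ a, i a 1 = 0) (a c : Fin N) :
    (n : ℂ) • (x a * x c * ext1Sig x s ^ (n - 1)) = t c a • ext1Sig x s ^ n := by
  obtain ⟨k, rfl⟩ := Nat.exists_eq_add_of_le' hn
  have h2 : x a * (ext1Sig x s ^ (k + 1) * 1) = 0 :=
    ext1_big h Finset.univ _ _ (by omega) (ext1_up h (ext1_euler h hs h1 (k + 1)) a)
      fun c hc => absurd (Finset.mem_univ c) hc
  have h3 : ∀ b, (if b = a then ext1Sig x s ^ (k + 1) else 0) =
      ((k : ℂ) + 1) • (x a * (∑ d, s b d • x d) * ext1Sig x s ^ k) := by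
    intro b
    have h4 := h.con b a (ext1Sig x s ^ (k + 1) * 1)
    rw [h2, map_zero, ext1_pow h hs h1, mul_one, mul_one, mul_smul_comm, ← mul_assoc] at h4
    exact sub_eq_zero.1 h4.symm
  have h5 : ∑ b, t c b • (if b = a then ext1Sig x s ^ (k + 1) else 0) =
      t c a • ext1Sig x s ^ (k + 1) := by simp
  rw [← h5, Nat.add_sub_cancel, Nat.cast_succ, ← ext1_inv (x := x) ht c, Finset.mul_sum,
    Finset.sum_mul, Finset.smul_sum]
  refine Finset.sum_congr rfl fun b _ => ?_
  rw [h3, mul_smul_comm, smul_mul_assoc, smul_comm]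

end

/-- contraction with a coordinate -/
noncomputable def ext1Con (j : Fin N ⊕ Fin N) : Ext N →ₗ[ℂ] Ext N :=
  CliffordAlgebra.contractLeft (LinearMap.proj j)

lemma ext1_con (j l : Fin N ⊕ Fin N) (y : Ext N) :
    ext1Con j (ExteriorAlgebra.ι ℂ (Pi.single l 1) * y) =
      (if j = l then y else 0) - ExteriorAlgebra.ι ℂ (Pi.single l 1) * ext1Con j y := by
  refine (CliffordAlgebra.contractLeft_ι_mul _ _ _).trans ?_
  congr 1
  rw [LinearMap.proj_apply, Pi.single_apply]
  split_ifs <;> simp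

lemma ext1_con_one (j : Fin N ⊕ Fin N) : ext1Con j 1 = 0 := CliffordAlgebra.contractLeft_one _ _

lemma ext1_anti (u v : Fin N ⊕ Fin N → ℂ) : ExteriorAlgebra.ι ℂ u * ExteriorAlgebra.ι ℂ v =
    -(ExteriorAlgebra.ι ℂ v * ExteriorAlgebra.ι ℂ u) :=
  eq_neg_of_add_eq_zero_left (ExteriorAlgebra.ι_add_mul_swap u v)

lemma ext1_sysz : Ext1Sys (xz (N := N)) fun a => ext1Con (Sum.inl a) :=
  ⟨fun _ => ExteriorAlgebra.ι_sq_zero _, fun _ _ => ext1_anti _ _, fun a b y => by
    simpa [xz] using ext1_con (Sum.inl a) (Sum.inl b) y⟩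

lemma ext1_sysb : Ext1Sys (xb (N := N)) fun a => ext1Con (Sum.inr a) :=
  ⟨fun _ => ExteriorAlgebra.ι_sq_zero _, fun _ _ => ext1_anti _ _, fun a b y => by
    simpa [xb] using ext1_con (Sum.inr a) (Sum.inr b) y⟩

lemma ext1_skew (hs : sᵀ = -s) : (s.map star)ᵀ = -s.map star := by
  ext a b
  have h : s b a = -s a b := congrFun (congrFun hs a) b
  simp [h]

lemma ext1_star_inv (hd : s.det ≠ 0) : s⁻¹.map star * s.map star = 1 := by
  have h := Matrix.map_mul (L := s⁻¹) (M := s) (f := starRingEnd ℂ)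
  rw [Matrix.nonsing_inv_mul _ (Ne.isUnit hd), Matrix.map_one _ (map_zero _) (map_one _)] at h
  exact h.symm

lemma ext1_cross (a : Fin N) (k : ℕ) : ext1Con (Sum.inl a) (form02 s ^ k) = 0 := by
  have h : ∀ b y, ext1Con (Sum.inl a) (xb b * y) = -(xb b * ext1Con (Sum.inl a) y) := fun b y => by
    simpa [xb] using ext1_con (Sum.inl a) (Sum.inr b) y
  induction k with
  | zero => rw [pow_zero]; exact ext1_con_one _
  | succ k ih =>
    rw [pow_succ']
    nth_rewrite 1 [form02]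
    simp only [smul_mul_assoc, Finset.sum_mul, map_smul, map_sum, mul_assoc, h, ih]
    simp

lemma top_ne_zero (hN : N = 2 * n) (hs : sᵀ = -s) (hd : s.det ≠ 0) :
    form20 s ^ n * form02 s ^ n ≠ 0 := by
  have h := ext1_ne ext1_sysb (ext1_skew hs) (ext1_star_inv hd) (fun _ => ext1_con_one _)
    one_ne_zero n hN.ge
  rw [mul_one] at h
  exact ext1_ne ext1_sysz hs (Matrix.nonsing_inv_mul _ (Ne.isUnit hd))
    (fun a => ext1_cross a n) h n hN.ge

lemma xz_xz (hN : N = 2 * n) (hn : 1 ≤ n) (hs : sᵀ = -s) (hd : s.det ≠ 0) (a c : Fin N) :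
    (n : ℂ) • (xz a * xz c * form20 s ^ (n - 1)) = s⁻¹ c a • form20 s ^ n :=
  ext1_two ext1_sysz hN hn hs (Matrix.nonsing_inv_mul _ (Ne.isUnit hd))
    (fun _ => ext1_con_one _) a c

lemma xb_xb (hN : N = 2 * n) (hn : 1 ≤ n) (hs : sᵀ = -s) (hd : s.det ≠ 0) (b d : Fin N) :
    (n : ℂ) • (xb b * xb d * form02 s ^ (n - 1)) = star (s⁻¹ d b) • form02 s ^ n :=
  ext1_two ext1_sysb hN hn (ext1_skew hs) (ext1_star_inv hd) (fun _ => ext1_con_one _) b d

end Pool.Agent.SPF
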