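import Pool.Agent.P.MP_63735c_ag.SPDat
import Pool.Agent.P.MP_63735c_ag.SPLin3

/-! Solutions of the frame system give good maps. -/

open Set Filter Topology
open scoped ComplexOrder ContDiff Matrix

namespace Pool.Agent.SPF

variable {N n : ℕ}

lemma good1_leib {R : Type} [CommRing R] [Algebra ℂ R] (δ : Derivation ℂ R R)
    (A B : Matrix (Fin n) (Fin n) R) : (A * B).map δ = A.map δ * B + A * B.map δ := by
  ext i j
  simp only [Matrix.map_apply, Matrix.mul_apply, Matrix.add_apply, map_sum, Derivation.leibniz,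
    smul_eq_mul, ← Finset.sum_add_distrib]
  exact Finset.sum_congr rfl fun k _ => by ring

lemma good1_alg {R : Type} [CommRing R] [Algebra ℂ R] (δ : Derivation ℂ R R)
    (g h m m' B : Matrix (Fin n) (Fin n) R) (hg : h * g = 1) (dg : g.map δ = -(Bᵀ * g))
    (dm : m.map δ = -(m * B)) (dm' : m'.map δ = 0) : (m' * (h * mᵀ)).map δ = 0 := by
  have gh : g * h = 1 := mul_eq_one_comm.1 hg
  have h1 : (h * g).map δ = 0 := by
    rw [hg]
    ext i j
    rw [Matrix.map_apply, Matrix.one_apply]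
    split_ifs
    · exact δ.map_one_eq_zero
    · exact map_zero δ
  rw [good1_leib, dg] at h1
  have h2 : h.map δ = h * Bᵀ := by
    have h3 : h.map δ * g = h * Bᵀ * g := by
      rw [Matrix.mul_neg, ← sub_eq_add_neg, sub_eq_zero] at h1
      rw [h1, Matrix.mul_assoc]
    calc h.map δ = h.map δ * g * h := by rw [Matrix.mul_assoc, gh, Matrix.mul_one]
      _ = h * Bᵀ := by rw [h3, Matrix.mul_assoc, gh, Matrix.mul_one]
  have h4 : mᵀ.map δ = -(Bᵀ * mᵀ) := by
    rw [Matrix.transpose_map, dm, Matrix.transpose_neg, Matrix.transpose_mul]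
  rw [good1_leib, good1_leib, dm', h2, h4, Matrix.zero_mul, zero_add, Matrix.mul_neg,
    Matrix.mul_assoc, add_neg_cancel, Matrix.mul_zero]

lemma good1_const {O : TopologicalSpace.Opens (E n)} (hO : IsPreconnected (O : Set (E n)))
    (a : Sm O) (h1 : ∀ q, Sm.d q a = 0) (h2 : ∀ q, Sm.db q a = 0) (x y : O) :
    Sm.ev x a = Sm.ev y a := by
  rw [a.ev_eq, a.ev_eq]
  refine O.isOpen.is_const_of_fderiv_eq_zero (𝕜 := ℝ) hO
    (fun z hz => (a.hasF ⟨z, hz⟩).differentiableAt.differentiableWithinAt) (fun z hz => ?_) x.2 y.2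
  ext v
  rw [fderiv_eq_wirt]
  refine Finset.sum_eq_zero fun q _ => ?_
  rw [← a.rep_fn.d q ⟨z, hz⟩, ← a.rep_fn.db q ⟨z, hz⟩, h1, h2, map_zero, mul_zero, mul_zero,
    add_zero]

theorem Chart.good_of_sol {C : Chart N} (hN : N = 2 * n) (hC : C.Iso)
    (ι : Fin n → Fin N) {Y : E n → E N × (Fin n → Fin n → ℂ)} {t₀ : E n} {δ : ℝ}
    (hY : ∀ t ∈ Metric.ball t₀ δ, (Y t).1 ∈ C.U ι ∧ HasFDerivAt Y (C.V ι (Y t)) t)
    (h0 : ∀ i j, ∑ k, (Y t₀).2 k i * star ((Y t₀).2 k j) = C.g ι (Y t₀).1 i j) :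
    ∀ t ∈ Metric.ball t₀ δ, C.Good (fun s => (Y s).1) t := by
  intro t ht
  have ht₀ : t₀ ∈ Metric.ball t₀ δ := Metric.mem_ball_self (Metric.pos_of_mem_ball ht)
  let O : TopologicalSpace.Opens (E n) := ⟨Metric.ball t₀ δ, Metric.isOpen_ball⟩
  let L := Chart.top hN hC ι
  let f : E n → E N := fun s => (Y s).1
  have hF : ∀ s ∈ Metric.ball t₀ δ, HasFDerivAt f
      ((ContinuousLinearMap.fst ℂ _ _).comp (C.V ι (Y s))) s := fun s hs => (hY s hs).2.fst
  have hf : DifferentiableOn ℂ f O := fun s hs =>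
    (hF s hs).differentiableAt.differentiableWithinAt
  have hm : MapsTo f O L.O := fun s hs => (hY s hs).1
  have hJ : ∀ s ∈ Metric.ball t₀ δ, ∀ a q,
      jac f s a q = ∑ p, (Y s).2 q p * C.X ι (f s) p a := by
    intro s hs a q
    rw [jac, Matrix.of_apply, (hF s hs).fderiv, ContinuousLinearMap.comp_apply, C.V_apply]
    simp [Pi.single_apply, f]
  have hM : ∀ s ∈ Metric.ball t₀ δ, ∀ k i, HasFDerivAt (fun s => (Y s).2 k i)
      ((ContinuousLinearMap.proj i).comp ((ContinuousLinearMap.proj k).comp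
        ((ContinuousLinearMap.snd ℂ _ _).comp (C.V ι (Y s))))) s := fun s hs k i =>
    hasFDerivAt_pi'.1 (hasFDerivAt_pi'.1 (hY s hs).2.snd k) i
  have hMd : ∀ k i, DifferentiableOn ℂ (fun s => (Y s).2 k i) O := fun k i s hs =>
    (hM s hs k i).differentiableAt.differentiableWithinAt
  let P := Sm.pull f hf hm
  let m : Matrix (Fin n) (Fin n) (Sm O) := Matrix.of fun k i => Sm.mkH _ (hMd k i)
  have rm : ∀ k i, (m k i).Rep fun s => (Y s).2 k i := fun k i => Sm.rep_mkH _ (hMd k i)
  have dP : ∀ q (a : Sm L.O), Sm.d q (P a) = ∑ p, m q p * P (L.dat.X p a) := by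
    intro q a
    have hJ' : ∀ c, Sm.J f hf c q = ∑ p, m q p * P (L.dat.Xc p c) := by
      intro c
      ext x
      rw [Sm.ev_J, hJ x x.2, map_sum]
      refine Finset.sum_congr rfl fun p _ => ?_
      rw [map_mul, rm q p x, (L.rX p c).pull hf hm x]
    rw [Sm.d_pull]
    simp only [hJ', Dat.X_apply, map_sum, map_mul, Finset.sum_mul, Finset.mul_sum,
      Chart.Loc.dat_d]
    rw [Finset.sum_comm]
    exact Finset.sum_congr rfl fun p _ => Finset.sum_congr rfl fun c _ => mul_assoc _ _ _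
  let g : Matrix (Fin n) (Fin n) (Sm O) := L.dat.g.map P
  let h : Matrix (Fin n) (Fin n) (Sm O) := L.dat.h.map P
  have hg : h * g = 1 := by
    have := congrArg (fun Z : Matrix (Fin n) (Fin n) (Sm L.O) => Z.map P) L.dat.h_mul_g
    simp only [Matrix.map_mul] at this
    rw [this]
    exact Matrix.map_one _ (map_zero P) (map_one P)
  let Nm : Matrix (Fin n) (Fin n) (Sm O) := m.map star * (h * mᵀ)
  have dN : ∀ q k k', Sm.d q (Nm k k') = 0 := by
    intro q k k'
    let B : Matrix (Fin n) (Fin n) (Sm O) := Matrix.of fun r i => ∑ p, m q p * P (L.dat.A p r i)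
    have key := good1_alg (Sm.d q) g h m (m.map star) B hg ?_ ?_ ?_
    · exact congrFun (congrFun key k) k'
    · refine Matrix.ext fun i j => ?_
      change Sm.d q (P (L.dat.g i j)) =
        -∑ r, (∑ p, m q p * P (L.dat.A p r i)) * P (L.dat.g r j)
      rw [dP]
      simp only [Dat.Xg, map_neg, map_sum, map_mul, Finset.sum_mul, Finset.mul_sum, mul_neg,
        Finset.sum_neg_distrib]
      rw [Finset.sum_comm]
      exact congrArg Neg.neg
        (Finset.sum_congr rfl fun r _ => Finset.sum_congr rfl fun p _ => (mul_assoc _ _ _).symm)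
    · refine Matrix.ext fun k i => ?_
      change Sm.d q (m k i) = -∑ r, m k r * ∑ p, m q p * P (L.dat.A p r i)
      ext x
      rw [(rm k i).d q x, (dz_of_diff (hM x x.2 k i).differentiableAt q).1, (hM x x.2 k i).fderiv]
      have e1 : ∀ p r, Sm.ev x (P (L.dat.A p r i)) = C.A ι (Y x).1 p r i := fun p r =>
        (L.rA p r i).pull hf hm x
      simp only [ContinuousLinearMap.comp_apply, C.V_apply, ContinuousLinearMap.coe_snd',
        ContinuousLinearMap.proj_apply, map_neg, map_sum, map_mul, rm _ _ x, e1, Finset.mul_sum]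
      rw [Finset.sum_eq_single q (fun b _ hb => by simp [hb]) (by simp),
        Finset.sum_comm]
      refine congrArg Neg.neg
        (Finset.sum_congr rfl fun r _ => Finset.sum_congr rfl fun p _ => ?_)
      rw [Pi.single_eq_same]
      ring
    · refine Matrix.ext fun k i => ?_
      change Sm.d q (star (m k i)) = 0
      have e1 := Sm.star_d q (star (m k i))
      rw [star_star, (rm k i).db_eq_zero (hMd k i) q] at e1
      exact star_eq_zero.1 e1
  have hherm : ∀ k k', star (Nm k k') = Nm k' k := by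
    intro k k'
    have e1 : ∀ i j, star (h i j) = h j i := fun i j => by
      change star (P (L.dat.h i j)) = P (L.dat.h j i)
      rw [← Sm.pull_star, Dat.h_herm]
    simp only [Nm, Matrix.mul_apply, Matrix.map_apply, Matrix.transpose_apply, star_sum, star_mul',
      star_star, e1, Finset.mul_sum]
    rw [Finset.sum_comm]
    exact Finset.sum_congr rfl fun l _ => Finset.sum_congr rfl fun i _ => by ring
  have dbN : ∀ q k k', Sm.db q (Nm k k') = 0 := by
    intro q k k'
    rw [← hherm, ← Sm.star_d, dN, star_zero]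
  have evN : ∀ x : O, Nm.map (Sm.ev x) =
      (Matrix.of (Y x).2).map star * ((C.g ι (f x))⁻¹ * (Matrix.of (Y x).2)ᵀ) := by
    intro x
    ext k k'
    have e1 : ∀ i j, Sm.ev x (h i j) = (C.g ι (f x))⁻¹ i j := fun i j =>
      (L.rh i j).pull hf hm x
    simp only [Nm, Matrix.mul_apply, Matrix.map_apply, Matrix.transpose_apply, map_sum, map_mul,
      Sm.ev_star, rm _ _ x, e1, Matrix.of_apply]
  have gram : ∀ x : O, (∀ i j, ∑ k, (Y x).2 k i * star ((Y x).2 k j) = C.g ι (f x) i j) ↔
      Nm.map (Sm.ev x) = 1 := by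
    intro x
    have hu : IsUnit (C.g ι (f x)).det := isUnit_iff_ne_zero.2 (Chart.ac_ne (hY x x.2).1)
    have e1 : (∀ i j, ∑ k, (Y x).2 k i * star ((Y x).2 k j) = C.g ι (f x) i j) ↔
        (Matrix.of (Y x).2)ᵀ * (Matrix.of (Y x).2).map star = C.g ι (f x) :=
      ⟨fun H => Matrix.ext H, fun H i j => congrFun (congrFun H i) j⟩
    rw [e1, evN, mul_eq_one_comm, Matrix.mul_assoc]
    constructor
    · intro H
      rw [H, Matrix.nonsing_inv_mul _ hu]
    · intro H
      have := congrArg (fun Z => C.g ι (f x) * Z) H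
      simpa only [← Matrix.mul_assoc, Matrix.mul_nonsing_inv _ hu, Matrix.one_mul,
        Matrix.mul_one] using this
  have hpre : IsPreconnected (O : Set (E n)) := (convex_ball t₀ δ).isPreconnected
  filter_upwards [Metric.isOpen_ball.mem_nhds ht] with s hs
  have hU := (hY s hs).1
  have hr := Chart.rank_le hN hC hU.1
  refine ⟨hU.1, le_antisymm hr (Chart.le_rank hU), (hF s hs).differentiableAt, ?_⟩
  refine (Chart.gram_iff hU hr (Y s).2 (hJ s hs)).2 ((gram ⟨s, hs⟩).2 ?_)
  rw [← (gram ⟨t₀, ht₀⟩).1 h0]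
  ext k k'
  exact good1_const hpre (Nm k k') (fun q => dN q k k') (fun q => dbN q k k') _ _

end Pool.Agent.SPF
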