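import Pool.Agent.P.MP_63735c_ag.SPDat
import Pool.Agent.P.MP_63735c_ag.SPLin3

/-! Good maps give solutions of the frame system. -/

open Set Filter Topology
open scoped ComplexOrder ContDiff Matrix

namespace Pool.Agent.SPF

variable {N n : ℕ}

lemma good2_hasF {F : E n → ℂ} {t : E n} (h : DifferentiableAt ℂ F t) (v : E n) :
    fderiv ℂ F t v = ∑ q, v q * dz q F t := by
  have hv : v = ∑ q, v q • (Pi.single q 1 : E n) := by
    ext b; simp [Finset.sum_apply, Pi.single_apply]
  conv_lhs => rw [hv]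
  simp [map_sum, (dz_of_diff h _).1]

theorem Chart.sol_of_good {C : Chart N} (hN : N = 2 * n) (hC : C.Iso)
    (ι : Fin n → Fin N) {f : E n → E N} {t₀ : E n} (hf : C.Good f t₀) (hU : f t₀ ∈ C.U ι) :
    ∃ m : E n → Fin n → Fin n → ℂ,
      (∀ i j, ∑ k, m t₀ k i * star (m t₀ k j) = C.g ι (f t₀) i j) ∧
        ∀ᶠ t in 𝓝 t₀, HasFDerivAt (fun s => (f s, m s)) (C.V ι (f t, m t)) t := by
  have hc : ContinuousAt f t₀ := hf.self_of_nhds.2.2.1.continuousAt
  obtain ⟨O, hO, ho, ht⟩ := eventually_nhds_iff.1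
    (hf.and (hc.eventually ((C.isOpen_U ι).mem_nhds hU)))
  let O' : TopologicalSpace.Opens (E n) := ⟨O, ho⟩
  let L := Chart.top hN hC ι
  have hφ : DifferentiableOn ℂ f O' := fun s hs => (hO s hs).1.2.2.1.differentiableWithinAt
  have hm : MapsTo f O' L.O := fun s hs => (hO s hs).2
  let m : E n → Fin n → Fin n → ℂ := fun s k j => ∑ b, C.σ (f s) (ι j) b * jac f s b k
  have mh : ∀ k j, DifferentiableOn ℂ (fun s => m s k j) O' := fun k j =>
    DifferentiableOn.fun_sum fun b _ =>
      ((C.σ_hol _ _).comp hφ fun s hs => (hO s hs).1.1).mul (jac_hol ho hφ b k)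
  have hJ : ∀ s ∈ O, ∀ a k, jac f s a k = ∑ i, m s k i * C.X ι (f s) i a := by
    intro s hs a k
    have := congrFun (eq_sum_X hN hC (hO s hs).2
      (col_mem_null hC (hO s hs).1.1 (hO s hs).1.2.2.2 k)) a
    rw [this, Finset.sum_apply]
    rfl
  have hg : ∀ s ∈ O, ∀ i j, ∑ k, m s k i * star (m s k j) = C.g ι (f s) i j := fun s hs =>
    (gram_iff (hO s hs).2 (hO s hs).1.2.1.le (m s) (hJ s hs)).1 (hO s hs).1.2.2.2
  refine ⟨m, hg t₀ ht, ?_⟩
  let M : Fin n → Fin n → Sm O' := fun k j => Sm.mkH _ (mh k j)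
  have rM : ∀ k j, (M k j).Rep fun s => m s k j := fun k j => Sm.rep_mkH _ _
  have e1 : ∀ i j, ∑ k, M k i * star (M k j) = Sm.pull f hφ hm (L.dat.g i j) := by
    intro i j
    ext x
    rw [(L.rg i j).pull hφ hm x]
    simpa [rM _ _ x] using hg x x.2 i j
  have e2 : ∀ (x : O') q i j, ∑ k, dz q (fun s => m s k i) x * star (m x k j) =
      -∑ p, ∑ r, m x q p * C.A ι (f x) p r i * C.g ι (f x) r j := by
    intro x q i j
    have h1 := congrArg (fun a => Sm.ev x (Sm.d q a)) (e1 i j)
    have h2 : ∀ k, Sm.d q (star (M k j)) = 0 := fun k => by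
      have h3 := Sm.star_d q (star (M k j))
      rw [star_star, (rM k j).db_eq_zero (mh k j), star_eq_zero] at h3
      exact h3
    simp only [map_sum, Derivation.leibniz, h2, smul_eq_mul, mul_zero, zero_add, map_mul,
      Sm.ev_star, Sm.d_pull, Sm.ev_J, Sm.ev_pull, rM _ _ x, (rM _ _).d _ x, hJ x x.2] at h1
    have h4 : ∀ p, ∑ c, C.X ι (f x) p c * Sm.ev ⟨f x, hm x.2⟩ (Sm.d c (L.dat.g i j)) =
        -∑ r, C.A ι (f x) p r i * C.g ι (f x) r j := fun p => by
      have h5 := congrArg (Sm.ev ⟨f x, hm x.2⟩) (L.dat.Xg p i j)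
      simpa only [Dat.X_apply, map_sum, map_mul, map_neg, L.rX _ _ _, L.rA _ _ _ _, L.rg _ _ _,
        Loc.dat_d] using h5
    calc _ = ∑ k, star (m x k j) * dz q (fun s => m s k i) x :=
          Finset.sum_congr rfl fun k _ => mul_comm _ _
      _ = ∑ p, m x q p *
            ∑ c, C.X ι (f x) p c * Sm.ev ⟨f x, hm x.2⟩ (Sm.d c (L.dat.g i j)) := by
          rw [h1]
          simp only [Finset.sum_mul, Finset.mul_sum, mul_assoc]
          exact Finset.sum_comm
      _ = _ := by
          simp only [h4, mul_neg, Finset.sum_neg_distrib, Finset.mul_sum, mul_assoc]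
  have e3 : ∀ (x : O') q k i, dz q (fun s => m s k i) x =
      -∑ p, ∑ r, m x q p * m x k r * C.A ι (f x) p r i := by
    intro x q k i
    let B : Matrix (Fin n) (Fin n) ℂ := Matrix.of fun k j => star (m x k j)
    have hB : B.det ≠ 0 := by
      intro h0
      have h1 : C.g ι (f x) = (Matrix.of (m x))ᵀ * B := by
        ext i j
        rw [← hg x x.2]
        simp [B, Matrix.mul_apply]
      exact ac_ne (hO x x.2).2 (by rw [Chart.ac, h1, Matrix.det_mul, h0, mul_zero])
    have h2 : (fun k => dz q (fun s => m s k i) x +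
        ∑ p, ∑ r, m x q p * m x k r * C.A ι (f x) p r i) ᵥ* B = 0 := by
      ext j
      simp only [Matrix.vecMul, dotProduct, B, Matrix.of_apply, add_mul, Finset.sum_add_distrib,
        e2 x q i j, Pi.zero_apply, ← hg x x.2, Finset.sum_mul, Finset.mul_sum]
      rw [neg_add_eq_zero]
      conv_rhs => rw [Finset.sum_comm]
      refine Finset.sum_congr rfl fun p _ => ?_
      rw [Finset.sum_comm]
      exact Finset.sum_congr rfl fun _ _ => Finset.sum_congr rfl fun _ _ => by ring
    exact eq_neg_of_add_eq_zero_left (congrFun (Matrix.eq_zero_of_vecMul_eq_zero hB h2) k)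
  filter_upwards [ho.mem_nhds ht] with t htO
  have d1 : DifferentiableAt ℂ f t := (hO t htO).1.2.2.1
  have d2 : ∀ k i, DifferentiableAt ℂ (fun s => m s k i) t := fun k i =>
    (mh k i).differentiableAt (ho.mem_nhds htO)
  have d3 : HasFDerivAt m (ContinuousLinearMap.pi fun k => ContinuousLinearMap.pi fun i =>
      fderiv ℂ (fun s => m s k i) t) t :=
    hasFDerivAt_pi.2 fun k => hasFDerivAt_pi.2 fun i => (d2 k i).hasFDerivAt
  refine (d1.hasFDerivAt.prodMk d3).congr_fderiv ?_
  refine ContinuousLinearMap.ext fun v => ?_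
  rw [V_apply]
  refine Prod.ext ?_ ?_
  · ext a
    have hv : v = ∑ q, v q • (Pi.single q 1 : E n) := by
      ext b; simp [Finset.sum_apply, Pi.single_apply]
    change fderiv ℂ f t v a = _
    conv_lhs => rw [hv]
    simp only [map_sum, map_smul, Finset.sum_apply, Pi.smul_apply, smul_eq_mul]
    refine Finset.sum_congr rfl fun q _ => ?_
    have := hJ t htO a q
    rw [jac, Matrix.of_apply] at this
    rw [this, Finset.mul_sum]
    exact Finset.sum_congr rfl fun _ _ => by ring
  · ext k i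
    change fderiv ℂ (fun s => m s k i) t v = _
    rw [good2_hasF (d2 k i)]
    simp only [e3 ⟨t, htO⟩, mul_neg, Finset.sum_neg_distrib, Finset.mul_sum, mul_assoc]

end Pool.Agent.SPF
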