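import Pool.Agent.P.MP_63735c_ag.SPFlow
import Pool.Agent.P.MP_63735c_ag.SPSys
import Pool.Agent.P.MP_63735c_ag.SPGood1
import Pool.Agent.P.MP_63735c_ag.SPGood2

/-! Good maps exist and extend to balls of uniform radius. -/

open Set Filter Topology
open scoped ComplexOrder ContDiff Matrix

namespace Pool.Agent.SPF

variable {N n : ℕ}

namespace Chart

variable {C : Chart N}

lemma ext_flow (hN : N = 2 * n) (hC : C.Iso) (h : C.Hol n) (ι : Fin n → Fin N)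
    {K : Set (E N × (Fin n → Fin n → ℂ))} (hK : IsCompact K) (hKU : K ⊆ C.U ι ×ˢ univ) :
    ∃ δ : ℝ, 0 < δ ∧ ∀ y ∈ K, ∀ t₀ : E n, ∃ f : E n → E N × (Fin n → Fin n → ℂ), f t₀ = y ∧
      ∀ t ∈ Metric.ball t₀ δ, (f t).1 ∈ C.U ι ∧ HasFDerivAt f (C.V ι (f t)) t := by
  obtain ⟨δ, hδ, hf⟩ := frob_exists ((C.isOpen_U ι).prod isOpen_univ) (C.V_hol ι h)
    (fun y hy s t => V_symm hN hC h ι y hy.1 s t) hK hKU
  refine ⟨δ, hδ, fun y hy t₀ => ?_⟩
  obtain ⟨f, h0, h1⟩ := hf y hy t₀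
  exact ⟨f, h0, fun t ht => ⟨(h1 t ht).1.1, (h1 t ht).2⟩⟩

theorem exists_good (hN : N = 2 * n) (hC : C.Iso) (h : C.Hol n) {z : E N} (hz : z ∈ C.W)
    (hr : (C.η z).rank = n) : ∃ f : E n → E N, f 0 = z ∧ C.Good f 0 := by
  obtain ⟨ι, hι⟩ := exists_U hz hr.ge
  obtain ⟨m, hm⟩ := exists_gram hι
  obtain ⟨δ, hδ, hf⟩ := ext_flow hN hC h ι (isCompact_singleton (x := (z, m)))
    (singleton_subset_iff.2 ⟨hι, trivial⟩)
  obtain ⟨Y, h0, hY⟩ := hf _ rfl 0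
  exact ⟨fun s => (Y s).1, by simp [h0],
    good_of_sol hN hC ι hY (by rw [h0]; exact hm) 0 (Metric.mem_ball_self hδ)⟩

theorem extend_good (hN : N = 2 * n) (hC : C.Iso) (h : C.Hol n) (ι : Fin n → Fin N)
    {K : Set (E N)} (hK : IsCompact K) (hKU : K ⊆ C.U ι) :
    ∃ δ : ℝ, 0 < δ ∧ ∀ (f : E n → E N) (t : E n), C.Good f t → f t ∈ K →
      ∃ f' : E n → E N, (∀ s ∈ Metric.ball t δ, C.Good f' s) ∧ f' =ᶠ[𝓝 t] f := by
  obtain ⟨B, hB0, hB⟩ := C.bounds hK fun z hz => (hKU hz).1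
  obtain ⟨δ, hδ, hf⟩ := ext_flow hN hC h ι
    (hK.prod (isCompact_closedBall (0 : Fin n → Fin n → ℂ) (B + 1)))
    (prod_mono hKU (subset_univ _))
  refine ⟨δ, hδ, fun f t hg ht => ?_⟩
  obtain ⟨m, hm, hs⟩ := sol_of_good hN hC ι hg (hKU ht)
  have hb : m t ∈ Metric.closedBall (0 : Fin n → Fin n → ℂ) (B + 1) := by
    rw [mem_closedBall_zero_iff, pi_norm_le_iff_of_nonneg (by linarith)]
    intro k
    rw [pi_norm_le_iff_of_nonneg (by linarith)]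
    intro i
    have h1 : ∑ k, ‖m t k i‖ ^ 2 = (C.g ι (f t) i i).re := by
      rw [← hm i i, Complex.re_sum]
      refine Finset.sum_congr rfl fun k _ => ?_
      rw [Complex.star_def, Complex.mul_conj, Complex.ofReal_re, Complex.normSq_eq_norm_sq]
    have h2 : ‖m t k i‖ ^ 2 ≤ B := by
      refine (Finset.single_le_sum (f := fun k => ‖m t k i‖ ^ 2) (fun _ _ => sq_nonneg _)
        (Finset.mem_univ k)).trans ?_
      rw [h1]
      exact (Complex.re_le_norm _).trans (hB _ ht (ι i) (ι i) (ι i)).2.1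
    nlinarith [norm_nonneg (m t k i)]
  obtain ⟨Y, h0, hY⟩ := hf (f t, m t) ⟨ht, hb⟩ t
  refine ⟨fun s => (Y s).1, good_of_sol hN hC ι hY (by rw [h0]; exact hm), ?_⟩
  have := frob_unique ((C.isOpen_U ι).prod isOpen_univ) (C.V_hol ι h) (f₁ := Y)
    (f₂ := fun s => (f s, m s)) (t₀ := t) h0 (by rw [h0]; exact ⟨hKU ht, trivial⟩)
    (by filter_upwards [Metric.ball_mem_nhds t hδ] with s hs using (hY s hs).2) hs
  filter_upwards [this] with s h1
  rw [h1]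

end Chart

end Pool.Agent.SPF
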