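import Pool.Agent.P.MP_63735c_ag.SPBound
import Pool.Agent.P.MP_63735c_ag.SPCov

/-! A good map on a ball stays in a compact part of the rank n locus. -/

open Set Filter Topology
open scoped ComplexOrder ContDiff Matrix

namespace Pool.Agent.SPF

variable {N n : ℕ} {X : Type} [TopologicalSpace X] [T2Space X] {A : Atlas X N}

/-- A good germ lifts to any chart over its value. -/
theorem Atlas.GoodAt.lift {Φ : E n → X} {t : E n} (h : A.GoodAt Φ t) {j : A.ι} {y : E N}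
    (hy : y ∈ (A.C j).W) (hp : A.p j y = Φ t) :
    ∃ f : E n → E N, (A.C j).Good f t ∧ f t = y ∧ ∀ᶠ s in 𝓝 t, A.p j (f s) = Φ s := by
  obtain ⟨i, f, hf, he⟩ := h
  have h0 := hf.self_of_nhds
  obtain ⟨O, φ, hc, hO, hφ, hw⟩ := A.trans i j (f t) h0.1 y hy (he.self_of_nhds.trans hp.symm)
  refine ⟨φ ∘ f, hc.good hf hO, hφ, ?_⟩
  filter_upwards [he, h0.2.2.1.continuousAt.preimage_mem_nhds (hc.isOpen.mem_nhds hO)] with s a b
  exact (hw _ b).trans a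

omit [T2Space X] in
theorem lip_cont {Φ : E n → X} {t : E n} (h : A.GoodAt Φ t) : ContinuousAt Φ t := by
  obtain ⟨i, f, hf, he⟩ := h
  have h0 := hf.self_of_nhds
  have h1 : ContinuousAt (fun s => A.p i (f s)) t :=
    ((A.cont i).continuousAt ((A.C i).isOpen.mem_nhds h0.1)).comp h0.2.2.1.continuousAt
  exact h1.congr he

omit [T2Space X] in
theorem lip_wcont (B : Cov A) (α : B.T) (ι : Fin n → Fin N) : ContinuousOn (B.w α ι) (B.K α) :=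
  (B.smooth α).continuous.continuousOn.mul
    (((A.C (B.c α)).a_smooth ι).continuousOn.mono (B.sub α))

/-- the logarithmic derivative of the weight is bounded at active triples -/
theorem lip_deriv (hN : N = 2 * n) (hI : ∀ i, (A.C i).Iso) (B : Cov A) :
    ∃ D : ℝ, 0 ≤ D ∧ ∀ α (ι : Fin n → Fin N) z, B.Active α ι z → ∀ (Φ : E n → X) t,
      A.GoodAt Φ t → A.p (B.c α) z = Φ t → 0 < B.w α ι z ∧ ∃ (f : E n → E N) (L : E n →L[ℝ] ℝ),
        f t = z ∧ (∀ᶠ s in 𝓝 t, f s ∈ B.K α ∧ A.p (B.c α) (f s) = Φ s) ∧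
          HasFDerivAt (fun s => B.w α ι (f s)) L t ∧ ‖L‖ ≤ D * B.w α ι z := by
  have := B.fin
  obtain ⟨c, hc, hact⟩ := B.active_bound hN fun i z hz => Chart.rank_le hN (hI i) hz
  choose M₁ h₁ H₁ using fun α => Chart.grad_bound hN (hI (B.c α)) (B.cpt α) (B.sub α)
  choose M₂ h₂ H₂ using fun α =>
    (A.C (B.c α)).cutoff_bound (B.cpt α) (B.sub α) (B.smooth α) hc
  obtain ⟨D₀, hD₀⟩ := (Set.finite_range fun α => M₁ α + M₂ α).bddAbove
  have hD : ∀ α, M₁ α + M₂ α ≤ |D₀| := fun α => (hD₀ ⟨α, rfl⟩).trans (le_abs_self _)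
  have hD0 := abs_nonneg D₀
  generalize |D₀| = D at hD hD0
  refine ⟨2 * n * D + 2 * n * (D + 1) / c, by positivity, fun α ι z hz Φ t hg hp => ?_⟩
  have hzW := B.sub α hz.1
  obtain ⟨f, hf, rfl, he⟩ := hg.lift hzW hp
  have h0 := hf.self_of_nhds
  obtain ⟨hU, hM, hρ⟩ := hact α ι _ hz h0.2.1
  have ha : 0 < (A.C (B.c α)).a ι (f t) := hU.2
  have hρ0 : 0 < B.ρ α (f t) := hc.trans_le hρ
  have b₁ := h₁ α
  have b₂ := h₂ α
  have b₃ := hD α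
  obtain ⟨L₁, d₁, n₁⟩ := Chart.good_deriv hf (ψ := B.ρ α)
    ((B.smooth α).differentiable (by simp) _) (M := D + 1) (by positivity)
    ((H₂ α _ hz.1).1.trans (by nlinarith))
  obtain ⟨L₂, d₂, n₂⟩ := Chart.good_deriv hf (ψ := (A.C (B.c α)).a ι)
    ((((A.C (B.c α)).a_smooth ι).contDiffAt
      ((A.C (B.c α)).isOpen.mem_nhds hzW)).differentiableAt (by simp))
    (M := M₁ α * (A.C (B.c α)).a ι (f t)) (by positivity) (H₁ α ι _ hz.1 hU hM)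
  refine ⟨mul_pos hρ0 ha, f, _, rfl, ?_, d₁.mul d₂, ?_⟩
  · filter_upwards [he, d₁.continuousAt.eventually_ne hρ0.ne'] with s a b
    exact ⟨B.supp α _ b, a⟩
  · show _ ≤ _ * (B.ρ α (f t) * (A.C (B.c α)).a ι (f t))
    generalize B.ρ α (f t) = ρ at *
    generalize (A.C (B.c α)).a ι (f t) = a at *
    have e₁ : ‖ρ • L₂‖ ≤ 2 * n * D * (ρ * a) := by
      rw [norm_smul, Real.norm_of_nonneg hρ0.le]
      calc ρ * ‖L₂‖ ≤ ρ * (2 * n * (M₁ α * a)) := by gcongr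
        _ ≤ ρ * (2 * n * (D * a)) := by gcongr; linarith
        _ = _ := by ring
    have e₂ : ‖a • L₁‖ ≤ 2 * n * (D + 1) / c * (ρ * a) := by
      rw [norm_smul, Real.norm_of_nonneg ha.le]
      calc a * ‖L₁‖ ≤ a * (2 * n * (D + 1)) := by gcongr
        _ = 2 * n * (D + 1) / c * (c * a) := by field_simp
        _ ≤ _ := by gcongr
    calc _ ≤ ‖ρ • L₂‖ + ‖a • L₁‖ := norm_add_le _ _
      _ ≤ _ := by rw [add_mul]; exact add_le_add e₁ e₂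

theorem lip_closed (B : Cov A) {γ : ℝ → X} (hγ : ContinuousOn γ (Icc 0 1)) {v : ℝ → ℝ}
    (hv : Continuous v) : IsClosed ({s : ℝ | ∃ α, ∃ ι : Fin n → Fin N, ∃ z ∈ B.K α,
      A.p (B.c α) z = γ s ∧ v s ≤ B.w α ι z} ∩ Icc 0 1) := by
  have := B.fin
  have e : {s : ℝ | ∃ α, ∃ ι : Fin n → Fin N, ∃ z ∈ B.K α,
      A.p (B.c α) z = γ s ∧ v s ≤ B.w α ι z} ∩ Icc 0 1 = ⋃ α, ⋃ ι : Fin n → Fin N, Prod.fst ''
        ({q ∈ Icc (0 : ℝ) 1 ×ˢ B.K α | A.p (B.c α) q.2 = γ q.1} ∩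
          {q ∈ Icc (0 : ℝ) 1 ×ˢ B.K α | v q.1 ≤ B.w α ι q.2}) := by
    ext s
    simp only [mem_iUnion]
    constructor
    · rintro ⟨⟨α, ι, z, hz, h1, h2⟩, hs⟩
      exact ⟨α, ι, (s, z), ⟨⟨⟨hs, hz⟩, h1⟩, ⟨hs, hz⟩, h2⟩, rfl⟩
    · rintro ⟨α, ι, q, ⟨⟨hq, h1⟩, -, h2⟩, rfl⟩
      exact ⟨⟨α, ι, q.2, hq.2, h1, h2⟩, hq.1⟩
  rw [e]
  refine isClosed_iUnion_of_finite fun α => isClosed_iUnion_of_finite fun ι => ?_
  have hK : IsCompact (Icc (0 : ℝ) 1 ×ˢ B.K α) := isCompact_Icc.prod (B.cpt α)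
  have c₁ : IsClosed {q ∈ Icc (0 : ℝ) 1 ×ˢ B.K α | A.p (B.c α) q.2 = γ q.1} :=
    hK.isClosed.isClosed_eq
      (((A.cont _).mono (B.sub α)).comp continuousOn_snd fun q hq => hq.2)
      (hγ.comp continuousOn_fst fun q hq => hq.1)
  have c₂ : IsClosed {q ∈ Icc (0 : ℝ) 1 ×ˢ B.K α | v q.1 ≤ B.w α ι q.2} :=
    hK.isClosed.isClosed_le (hv.comp continuous_fst).continuousOn
      ((lip_wcont B α ι).comp continuousOn_snd fun q hq => hq.2)
  exact ((hK.of_isClosed_subset (c₁.inter c₂) fun q hq => hq.1.1).image continuous_fst).isClosed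

theorem lip_right {u : ℝ → ℝ} {u' s₀ κ : ℝ} (h : HasDerivAt u u' s₀) (hp : 0 < u' + κ * u s₀) :
    ∀ᶠ s in 𝓝[>] s₀, u s₀ * Real.exp (κ * s₀) ≤ u s * Real.exp (κ * s) := by
  have h1 : HasDerivAt (fun s => Real.exp (κ * s)) (Real.exp (κ * s₀) * κ) s₀ := by
    simpa using ((hasDerivAt_id s₀).const_mul κ).exp
  have h2 := (hasDerivAt_iff_tendsto_slope.1 (h.mul h1)).mono_left (nhdsGT_le_nhdsNE s₀)
  have h3 : 0 < u' * Real.exp (κ * s₀) + u s₀ * (Real.exp (κ * s₀) * κ) := by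
    have := mul_pos hp (Real.exp_pos (κ * s₀))
    linarith
  filter_upwards [h2.eventually (lt_mem_nhds h3), self_mem_nhdsWithin] with s a b
  rw [slope_def_field] at a
  have h4 := (div_pos_iff_of_pos_right (sub_pos.2 b)).1 a
  exact (sub_pos.1 h4).le

theorem Cov.lower_bound (hN : N = 2 * n) (hI : ∀ i, (A.C i).Iso) (B : Cov A) (x₀ : X) (R : ℝ) :
    ∃ τ : ℝ, 0 < τ ∧ ∀ r ≤ R, ∀ Φ : E n → X, Φ 0 = x₀ →
      (∀ t ∈ Metric.ball (0 : E n) r, A.GoodAt Φ t) → ∀ t ∈ Metric.ball (0 : E n) r,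
        ∃ α, ∃ ι : Fin n → Fin N, ∃ z ∈ B.K α, A.p (B.c α) z = Φ t ∧ τ ≤ B.w α ι z := by
  obtain ⟨D, hD, H⟩ := lip_deriv hN hI B
  obtain ⟨α₀, ι₀, z₀, ha₀, hp₀⟩ := B.exists_active hN x₀
  by_cases hw : 0 < B.w α₀ ι₀ z₀
  swap
  · refine ⟨1, one_pos, fun r _ Φ h0 hg t ht => absurd ?_ hw⟩
    exact (H _ _ _ ha₀ Φ 0 (hg 0 (Metric.mem_ball_self (Metric.pos_of_mem_ball ht)))
      (hp₀.trans h0.symm)).1
  refine ⟨B.w α₀ ι₀ z₀ * Real.exp (-((D * R + 1) * 1)), by positivity,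
    fun r hr Φ h0 hg t ht => ?_⟩
  have htR : ‖t‖ ≤ R := (mem_ball_zero_iff.1 ht).le.trans hr
  have hb : ∀ s ∈ Icc (0 : ℝ) 1, s • t ∈ Metric.ball (0 : E n) r := fun s hs => by
    rw [mem_ball_zero_iff, norm_smul, Real.norm_of_nonneg hs.1]
    exact (mul_le_of_le_one_left (norm_nonneg _) hs.2).trans_lt (mem_ball_zero_iff.1 ht)
  have hl : Continuous fun s : ℝ => s • t := by fun_prop
  have hγ : ContinuousOn (fun s : ℝ => Φ (s • t)) (Icc 0 1) := fun s hs =>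
    (ContinuousAt.comp (f := fun s : ℝ => s • t) (lip_cont (hg _ (hb s hs)))
      hl.continuousAt).continuousWithinAt
  have hcl := lip_closed (n := n) B hγ
    (v := fun s => B.w α₀ ι₀ z₀ * Real.exp (-((D * R + 1) * s))) (by fun_prop)
  have key := hcl.Icc_subset_of_forall_mem_nhdsWithin
    ⟨α₀, ι₀, z₀, ha₀.1, by rw [zero_smul, h0, hp₀], by simp⟩ ?_ (right_mem_Icc.2 zero_le_one)
  · simpa only [mem_ofPred_eq, one_smul] using key
  rintro s₀ ⟨⟨β, ι', y, hy, hpy, hle⟩, hs⟩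
  obtain ⟨α, ι, z, ha, hp⟩ := B.exists_active hN (Φ (s₀ • t))
  have h1 := hle.trans (ha.2 β ι' y hy (hpy.trans hp.symm))
  obtain ⟨hpos, f, L, rfl, hev, hL, hn⟩ := H _ _ _ ha Φ _ (hg _ (hb s₀ (Ico_subset_Icc_self hs))) hp
  have hd : HasDerivAt (fun s : ℝ => s • t) t s₀ := by
    simpa using (hasDerivAt_id s₀).smul_const t
  have h2 : HasDerivAt (fun s : ℝ => B.w α ι (f (s • t))) (L t) s₀ :=
    HasFDerivAt.comp_hasDerivAt s₀ (f := fun s : ℝ => s • t) hL hd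
  have h3 : |L t| ≤ D * B.w α ι (f (s₀ • t)) * R :=
    (L.le_opNorm t).trans (mul_le_mul hn htR (norm_nonneg _) (by positivity))
  have h4 := lip_right (κ := D * R + 1) h2 (by nlinarith [neg_abs_le (L t)])
  filter_upwards [h4, nhdsWithin_le_nhds (hl.continuousAt.eventually hev)] with s a b
  refine ⟨α, ι, _, b.1, b.2, ?_⟩
  have h5 : B.w α₀ ι₀ z₀ ≤ B.w α ι (f (s₀ • t)) * Real.exp ((D * R + 1) * s₀) := by
    rw [Real.exp_neg, ← div_eq_mul_inv, div_le_iff₀ (Real.exp_pos _)] at h1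
    exact h1
  show B.w α₀ ι₀ z₀ * Real.exp (-((D * R + 1) * s)) ≤ _
  rw [Real.exp_neg, ← div_eq_mul_inv, div_le_iff₀ (Real.exp_pos _)]
  exact h5.trans a

end Pool.Agent.SPF
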