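import Pool.Agent.P.MP_63735c_ag.SPExtend
import Pool.Agent.P.MP_63735c_ag.SPIdent
import Pool.Agent.P.MP_63735c_ag.SPLip

/-! Entire leaf maps. -/

open Set Filter Topology
open scoped ComplexOrder ContDiff Matrix

namespace Pool.Agent.SPF

variable {N n : ℕ} {X : Type} [TopologicalSpace X]

lemma Atlas.GoodAt.toLift {A : Atlas X N} {Φ : E n → X} {t : E n} (h : A.GoodAt Φ t) :
    A.Lift Φ t := by
  obtain ⟨i, f, hf, hp⟩ := h
  refine ⟨i, f, ?_⟩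
  filter_upwards [hf, hp] with s h1 h2 using ⟨h1.1, h1.2.2.1, h2⟩

lemma Atlas.leaf_of_good (hN : N = 2 * n) {A : Atlas X N} (hI : ∀ i, (A.C i).Iso) {Φ : E n → X}
    (h : ∀ t, A.GoodAt Φ t) : A.IsLeafMap Φ := by
  intro t
  obtain ⟨i, f, hf, hp⟩ := h t
  obtain ⟨O, hO, ho, ht⟩ := eventually_nhds_iff.1 (hf.and hp)
  refine ⟨i, O, f, ho, ht, fun s hs => (hO s hs).1.2.2.1.differentiableWithinAt, fun s hs => ?_⟩
  obtain ⟨⟨h1, h2, -, h4⟩, h5⟩ := hO s hs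
  have := Chart.inj_range hN (hI i) h1 h2 (fderiv ℂ f s) (J := jac f s) (fun _ _ => rfl) h4
  exact ⟨h1, h5, this.1, this.2⟩

theorem Atlas.exists_goodAt [T2Space X] [CompactSpace X] (hN : N = 2 * n) (A : Atlas X N)
    (hI : ∀ i, (A.C i).Iso)
    (hH : ∀ i, (A.C i).Hol n) (i : A.ι) {z : E N} (hz : z ∈ (A.C i).W)
    (hr : ((A.C i).η z).rank = n) :
    ∃ Φ : E n → X, Φ 0 = A.p i z ∧ ∀ t, A.GoodAt Φ t := by
  obtain ⟨B⟩ := A.exists_cov
  have := B.fin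
  obtain ⟨f₀, h0, hf₀⟩ := Chart.exists_good hN (hI i) (hH i) hz hr
  suffices h : ∃ Φ : E n → X, Φ 0 = (fun s => A.p i (f₀ s)) 0 ∧ ∀ t, A.GoodAt Φ t by
    obtain ⟨Φ, h1, h2⟩ := h
    exact ⟨Φ, by simp only [h1, h0], h2⟩
  refine continuation (F := E n) A.GoodAt ?_ ?_ (fun s => A.p i (f₀ s)) ?_ ?_
  · rintro Φ Ψ t h ⟨j, f, hf, hp⟩
    refine ⟨j, f, hf, ?_⟩
    filter_upwards [h, hp] with s h1 h2 using h2.trans h1
  · intro Ω Φ Ψ t₀ ho hc hΦ hΨ ht h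
    exact A.lift_ident ho hc.isPreconnected (fun t ht => (hΦ t ht).toLift)
      (fun t ht => (hΨ t ht).toLift) ht h
  · filter_upwards [hf₀.eventually_nhds] with t ht
    exact ⟨i, f₀, ht, Eventually.of_forall fun _ => rfl⟩
  · intro R
    obtain ⟨τ, hτ, hl⟩ := B.lower_bound hN hI (A.p i (f₀ 0)) R
    have key : ∀ q : B.T × (Fin n → Fin N), ∃ δ : ℝ, 0 < δ ∧ ∀ (f : E n → E N) (t : E n),
        (A.C (B.c q.1)).Good f t → f t ∈ {y | y ∈ B.K q.1 ∧ τ ≤ B.w q.1 q.2 y} →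
          ∃ f' : E n → E N, (∀ s ∈ Metric.ball t δ, (A.C (B.c q.1)).Good f' s) ∧
            f' =ᶠ[𝓝 t] f := by
      rintro ⟨α, ι⟩
      refine Chart.extend_good hN (hI _) (hH _) ι ?_ ?_
      · have hc : ContinuousOn (B.w α ι) (B.K α) :=
          (B.smooth α).continuous.continuousOn.mul
            (((A.C (B.c α)).a_smooth ι).continuousOn.mono (B.sub α))
        exact (B.cpt α).of_isClosed_subset
          (hc.preimage_isClosed_of_isClosed (B.cpt α).isClosed isClosed_Ici) fun _ h => h.1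
      · rintro y ⟨hy, hw⟩
        refine ⟨B.sub α hy, lt_of_le_of_ne (Chart.a_nonneg (B.sub α hy) ι) fun h => ?_⟩
        simp only [Cov.w, ← h, mul_zero] at hw
        exact absurd hw (not_le.2 hτ)
    choose δ hδ hk using key
    obtain ⟨δ₀, hδ₀, hle⟩ : ∃ δ₀ : ℝ, 0 < δ₀ ∧ ∀ q, δ₀ ≤ δ q := by
      rcases isEmpty_or_nonempty (B.T × (Fin n → Fin N)) with h | h
      · exact ⟨1, one_pos, fun q => h.elim q⟩
      · obtain ⟨q, hq⟩ := Finite.exists_min δ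
        exact ⟨δ q, hδ q, hq⟩
    refine ⟨δ₀, hδ₀, fun r hr Φ h0 hΦ t ht => ?_⟩
    obtain ⟨α, ι, y, hy, hp, hw⟩ := hl r hr Φ h0 hΦ t ht
    obtain ⟨f, hf, hft, hfp⟩ := (hΦ t ht).lift (B.sub α hy) hp
    obtain ⟨f', hf', he⟩ := hk (α, ι) f t hf (by rw [hft]; exact ⟨hy, hw⟩)
    refine ⟨fun s => A.p (B.c α) (f' s), fun s hs => ⟨B.c α, f',
      hf' s (Metric.ball_subset_ball (hle _) hs), Eventually.of_forall fun _ => rfl⟩, ?_⟩
    filter_upwards [he, hfp] with s h1 h2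
    rw [h1, h2]

theorem Atlas.exists_leaf [T2Space X] [CompactSpace X] (hN : N = 2 * n) (A : Atlas X N)
    (hI : ∀ i, (A.C i).Iso)
    (hH : ∀ i, (A.C i).Hol n) (i : A.ι) {z : E N} (hz : z ∈ (A.C i).W)
    (hr : ((A.C i).η z).rank = n) :
    ∃ Φ : E n → X, Φ 0 = A.p i z ∧ A.IsLeafMap Φ := by
  obtain ⟨Φ, h1, h2⟩ := A.exists_goodAt hN hI hH i hz hr
  exact ⟨Φ, h1, A.leaf_of_good hN hI h2⟩

end Pool.Agent.SPF
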