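import Pool.Agent.P.MP_63735c_ag.SPLoc2

/-! The pairing is constant along the leaves. -/

open Set Filter Topology
open scoped ComplexOrder ContDiff Matrix

namespace Pool.Agent.SPF

variable {N n : ℕ}

/-- The algebra behind the vanishing of the derivative. -/
lemma norm_alg (μ σ v' : Fin n → ℂ) (A : Fin n → Fin n → Fin n → ℂ) (P Q : Fin n → Fin n → ℂ)
    (h : ∀ j i, P j i + Q j i = ∑ r, A j i r * v' r) :
    ∑ i, ((-∑ j, ∑ r, σ j * μ r * A j r i) * v' i + μ i * (∑ j, σ j * P j i + ∑ j, σ j * Q j i)) =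
      0 := by
  have e : ∀ i, ∑ j, σ j * P j i + ∑ j, σ j * Q j i = ∑ j, σ j * ∑ r, A j i r * v' r := by
    intro i
    rw [← Finset.sum_add_distrib]
    exact Finset.sum_congr rfl fun j _ => by rw [← mul_add, h]
  simp only [e, Finset.sum_add_distrib, neg_mul, Finset.sum_neg_distrib, Finset.sum_mul,
    Finset.mul_sum]
  rw [neg_add_eq_zero, sys_cyc, Finset.sum_comm]
  exact Finset.sum_congr rfl fun _ _ => Finset.sum_congr rfl fun _ _ =>
    Finset.sum_congr rfl fun _ _ => by ring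

lemma norm_alg2 (t : Fin n → ℂ) (κ m : Fin n → Fin n → ℂ) (e v : Fin N → ℂ)
    (X : Fin n → Fin N → ℂ) (D : Fin N → Fin n → Fin N → ℂ) (h : ∀ p, ∑ a, X p a * e a = 0) :
    ∑ a, e a * ∑ q, ∑ p, (t q * κ q p * X p a + t q * m q p * ∑ c, v c * D c p a) =
      ∑ j, (∑ q, t q * m q j) * ∑ c, v c * ∑ a, D c j a * e a := by
  have e1 : ∀ a, e a * ∑ q, ∑ p, (t q * κ q p * X p a + t q * m q p * ∑ c, v c * D c p a) =
      ∑ p, ((∑ q, t q * κ q p) * (X p a * e a) +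
        (∑ q, t q * m q p) * ∑ c, v c * (D c p a * e a)) := by
    intro a
    rw [Finset.sum_comm, Finset.mul_sum]
    refine Finset.sum_congr rfl fun p _ => ?_
    rw [Finset.sum_add_distrib, ← Finset.sum_mul, ← Finset.sum_mul]
    simp only [← mul_assoc (v _), ← Finset.sum_mul]
    ring
  simp only [e1]
  rw [Finset.sum_comm]
  refine Finset.sum_congr rfl fun p _ => ?_
  rw [Finset.sum_add_distrib, ← Finset.mul_sum, ← Finset.mul_sum, h, mul_zero, zero_add,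
    Finset.sum_comm]
  simp only [Finset.mul_sum]

lemma norm_Xe {C : Chart N} (hN : N = 2 * n) (hC : C.Iso) (ι : Fin n → Fin N) {z : E N}
    (hz : z ∈ C.U ι) (p i : Fin n) : ∑ a, C.X ι z p a * C.e ι z i a = 0 := by
  let L := Chart.top hN hC ι
  let x : L.O := ⟨z, hz⟩
  have hb := congrArg (Sm.ev x) (L.dat.Xe p i)
  simpa only [map_sum, map_mul, map_zero, L.rX _ _ x, L.re _ _ x] using hb

lemma norm_curl {C : Chart N} (hN : N = 2 * n) (hC : C.Iso) (ι : Fin n → Fin N) {z : E N}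
    (hz : z ∈ C.U ι) (j i : Fin n) (b : Fin N) :
    ∑ a, dz b (fun w => C.X ι w j a) z * C.e ι z i a +
      ∑ c, C.X ι z j c * dz c (fun w => C.e ι w i b) z = ∑ r, C.A ι z j i r * C.e ι z r b := by
  let L := Chart.top hN hC ι
  let x : L.O := ⟨z, hz⟩
  have h1 := congrArg (Sm.ev x) (L.dat.a5_curl j i b)
  have h2 := congrArg (L.dat.d b) (L.dat.Xe j i)
  rw [map_zero, map_sum] at h2
  simp only [a5_leib, Finset.sum_add_distrib] at h2
  have h3 := congrArg (Sm.ev x) h2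
  simp only [map_sub, map_add, map_sum, map_mul, map_zero, Chart.Loc.dat_d, L.rX _ _ x,
    L.re _ _ x, L.rA _ _ _ x, (L.re _ _).d _ x, (L.rX _ _).d _ x] at h1 h3
  linear_combination h1 + h3

lemma norm_slice {F : Type} [NormedAddCommGroup F] [NormedSpace ℂ F] {Y : E n × E n → F}
    {b ξ : E n} {L : E n →L[ℂ] F} (hY : DifferentiableAt ℂ Y (b, ξ))
    (hL : HasFDerivAt (fun s => Y (b, s)) L ξ) (τ : E n) : fderiv ℂ Y (b, ξ) (0, τ) = L τ := by
  have h1 := hY.hasFDerivAt.comp ξ (hasFDerivAt_prodMk_right (𝕜 := ℂ) b ξ)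
  have h2 := hL.unique h1
  rw [h2]
  rfl

lemma norm_second {F : Type} [NormedAddCommGroup F] [NormedSpace ℂ F] [FiniteDimensional ℂ F]
    {Y : E n × E n → F} {Ω : Set (E n × E n)} (hΩ : IsOpen Ω) (hY : DifferentiableOn ℂ Y Ω)
    {V : F → E n →L[ℂ] F} (hV : ∀ w ∈ Ω, ∀ τ, fderiv ℂ Y w (0, τ) = V (Y w) τ) {b ξ : E n}
    (hw : (b, ξ) ∈ Ω) (hd : DifferentiableAt ℂ V (Y (b, ξ))) (β : E n) :
    HasFDerivAt (fun s => fderiv ℂ Y (b, s) (β, 0))
      (fderiv ℂ V (Y (b, ξ)) (fderiv ℂ Y (b, ξ) (β, 0))) ξ := by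
  have : CompleteSpace F := FiniteDimensional.complete ℂ F
  have hc : ContDiffAt ℂ ∞ Y (b, ξ) := (flow_smooth hΩ hY).contDiffAt (hΩ.mem_nhds hw)
  have hsym : IsSymmSndFDerivAt ℂ Y (b, ξ) := hc.isSymmSndFDerivAt (by
    rw [minSmoothness_of_isRCLikeNormedField]
    exact WithTop.coe_le_coe.2 (le_top : (2 : ℕ∞) ≤ ⊤))
  have hD : DifferentiableAt ℂ (fderiv ℂ Y) (b, ξ) :=
    (hc.fderiv_right (m := 1) (WithTop.coe_le_coe.2 (le_top : (1 + 1 : ℕ∞) ≤ ⊤))).differentiableAt (by simp)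
  have h1 := (ContinuousLinearMap.apply ℂ F ((β, 0) : E n × E n)).hasFDerivAt.comp ξ
    (hD.hasFDerivAt.comp ξ (hasFDerivAt_prodMk_right (𝕜 := ℂ) b ξ))
  refine HasFDerivAt.congr_fderiv h1 (ContinuousLinearMap.ext fun t => ?_)
  have h2 := (ContinuousLinearMap.apply ℂ F ((0, t) : E n × E n)).hasFDerivAt.comp (b, ξ)
    hD.hasFDerivAt
  have h3 := (ContinuousLinearMap.apply ℂ F t).hasFDerivAt.comp (b, ξ)
    (hd.hasFDerivAt.comp (b, ξ) (hY.differentiableAt (hΩ.mem_nhds hw)).hasFDerivAt)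
  have h4 := h2.unique (h3.congr_of_eventuallyEq
    (Filter.mem_of_superset (hΩ.mem_nhds hw) fun w hw' => hV w hw' t))
  have h5 := congrArg (fun L => L ((β, 0) : E n × E n)) h4
  exact (hsym.eq _ _).trans h5

theorem Chart.pair_const {C : Chart N} (hN : N = 2 * n) (hC : C.Iso) (hH : C.Hol n)
    (ι : Fin n → Fin N) {Y : E n × E n → E N × (Fin n → Fin n → ℂ)} {B : Set (E n)}
    (hB : IsOpen B) {ξ₁ : E n} {δ : ℝ} (hY : DifferentiableOn ℂ Y (B ×ˢ Metric.ball ξ₁ δ))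
    (hs : ∀ b ∈ B, ∀ ξ ∈ Metric.ball ξ₁ δ, (Y (b, ξ)).1 ∈ C.U ι ∧
      HasFDerivAt (fun s => Y (b, s)) (C.V ι (Y (b, ξ))) ξ) :
    ∀ b ∈ B, ∀ ξ ∈ Metric.ball ξ₁ δ, ∀ β τ,
      C.pair (fun w => (Y w).1) (b, ξ) β τ = C.pair (fun w => (Y w).1) (b, ξ₁) β τ := by
  intro b hb ξ₀ hξ₀ β τ
  have hΩ : IsOpen (B ×ˢ Metric.ball ξ₁ δ) := hB.prod Metric.isOpen_ball
  have hV : ∀ w ∈ B ×ˢ Metric.ball ξ₁ δ, ∀ t, fderiv ℂ Y w (0, t) = C.V ι (Y w) t :=
    fun w hw t => norm_slice (hY.differentiableAt (hΩ.mem_nhds hw)) (hs w.1 hw.1 w.2 hw.2).2 t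
  let g : E n → ℂ := fun s => ∑ i, (∑ k, τ k * (Y (b, s)).2 k i) *
    ∑ a, (fderiv ℂ Y (b, s) (β, 0)).1 a * C.e ι (Y (b, s)).1 i a
  have hg : ∀ s ∈ Metric.ball ξ₁ δ, C.pair (fun w => (Y w).1) (b, s) β τ = g s := by
    intro s hs'
    have hw : (b, s) ∈ B ×ˢ Metric.ball ξ₁ δ := ⟨hb, hs'⟩
    have h1 : ∀ v, fderiv ℂ (fun w => (Y w).1) (b, s) v = (fderiv ℂ Y (b, s) v).1 := by
      intro v
      rw [(hY.differentiableAt (hΩ.mem_nhds hw)).hasFDerivAt.fst.fderiv]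
      rfl
    have h2 : (C.V ι (Y (b, s)) τ).1 =
        ∑ j, (∑ q, τ q * (Y (b, s)).2 q j) • C.X ι (Y (b, s)).1 j := by
      funext c
      rw [sys_V1, Finset.sum_apply]
      rfl
    unfold Chart.pair
    rw [h1, h1, hV _ hw, h2, Matrix.mulVec_sum, dotProduct_sum]
    refine Finset.sum_congr rfl fun i _ => ?_
    rw [Matrix.mulVec_smul, Chart.σ_X (hs b hb s hs').1.1, dotProduct_smul]
    rfl
  have hd : ∀ s ∈ Metric.ball ξ₁ δ, HasFDerivAt g (0 : E n →L[ℂ] ℂ) s := by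
    intro s hs'
    have hw : (b, s) ∈ B ×ˢ Metric.ball ξ₁ δ := ⟨hb, hs'⟩
    obtain ⟨hU, hYs⟩ := hs b hb s hs'
    have hu := norm_second hΩ hY hV hw ((C.V_hol ι hH).differentiableAt
      (((C.isOpen_U ι).prod isOpen_univ).mem_nhds ⟨hU, trivial⟩)) β
    have hm := fun k i => hasFDerivAt_pi'.1 (hasFDerivAt_pi'.1 hYs.snd k) i
    have hv := fun a => hasFDerivAt_pi'.1 hu.fst a
    have hed : ∀ i a, DifferentiableAt ℂ (fun z => C.e ι z i a) (Y (b, s)).1 := fun i a =>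
      (hH ι i a).differentiableAt ((C.isOpen_U ι).mem_nhds hU)
    have he := fun i a => (hed i a).hasFDerivAt.comp s hYs.fst
    have h1 := HasFDerivAt.fun_sum (u := Finset.univ) fun i _ =>
      (HasFDerivAt.fun_sum (u := Finset.univ) fun k _ => (hm k i).const_mul (τ k)).fun_mul
        (HasFDerivAt.fun_sum (u := Finset.univ) fun a _ => (hv a).fun_mul (he i a))
    refine HasFDerivAt.congr_fderiv h1 (ContinuousLinearMap.ext fun t => ?_)
    simp only [sum_apply, add_apply, smul_apply, ContinuousLinearMap.comp_apply,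
      ContinuousLinearMap.proj_apply, ContinuousLinearMap.coe_fst', ContinuousLinearMap.coe_snd',
      smul_eq_mul, Function.comp_apply, zero_apply, good2_hasF (hed _ _),
      sys_V3, sys_V2, sys_D1 hH ι _ hU, sys_mu]
    generalize fderiv ℂ Y (b, s) (β, 0) = u
    generalize Y (b, s) = y at hU ⊢
    rw [← norm_alg (fun i => ∑ k, τ k * y.2 k i) (fun j => ∑ q, t q * y.2 q j)
      (fun r => ∑ a, u.1 a * C.e ι y.1 r a) (C.A ι y.1)
      (fun j i => ∑ c, u.1 c * ∑ a, dz c (fun w => C.X ι w j a) y.1 * C.e ι y.1 i a)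
      (fun j i => ∑ a, u.1 a * ∑ c, C.X ι y.1 j c * dz c (fun w => C.e ι w i a) y.1) ?_]
    · refine Finset.sum_congr rfl fun i _ => ?_
      rw [add_comm, mul_comm]
      congr 2
      rw [Finset.sum_add_distrib, add_comm]
      congr 1
      · exact norm_alg2 t u.2 y.2 (C.e ι y.1 i) u.1 (C.X ι y.1)
          (fun c p a => dz c (fun w => C.X ι w p a) y.1) fun p => norm_Xe hN hC ι hU p i
      · simp only [Finset.mul_sum _ _ (u.1 _)]
        rw [Finset.sum_comm]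
        refine Finset.sum_congr rfl fun j _ => ?_
        rw [Finset.mul_sum]
        refine Finset.sum_congr rfl fun a _ => ?_
        rw [← Finset.mul_sum]
        ring
    · intro j i
      rw [← Finset.sum_add_distrib]
      simp only [← mul_add, norm_curl hN hC ι hU]
      simp only [Finset.mul_sum]
      rw [Finset.sum_comm]
      exact Finset.sum_congr rfl fun _ _ => Finset.sum_congr rfl fun _ _ => by ring
  rw [hg _ hξ₀, hg _ (Metric.mem_ball_self (Metric.nonempty_ball.1 ⟨_, hξ₀⟩))]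
  exact Metric.isOpen_ball.is_const_of_fderiv_eq_zero (𝕜 := ℂ) (convex_ball ξ₁ δ).isPreconnected
    (fun s hs' => (hd s hs').differentiableAt.differentiableWithinAt)
    (fun s hs' => (hd s hs').fderiv) hξ₀
    (Metric.mem_ball_self (Metric.nonempty_ball.1 ⟨_, hξ₀⟩))

end Pool.Agent.SPF
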