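import Pool.Agent.P.MP_63735c_ag.SPFlow2
import Pool.Agent.P.MP_63735c_ag.SPAff
import Pool.Agent.P.MP_63735c_ag.SPNorm

/-! Propagation of a normalized joint lift. -/

open Set Filter Topology
open scoped ComplexOrder ContDiff Matrix

namespace Pool.Agent.SPF

variable {N n : ℕ} {X : Type} [TopologicalSpace X] [T2Space X] {A : Atlas X N}

/-- One step: a holomorphic family of initial germs gives joint lifts on a ball whose radius
depends only on the state. -/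
theorem Atlas.nlift_step (hN : N = 2 * n) (hI : ∀ i, (A.C i).Iso) (hH : ∀ i, (A.C i).Hol n)
    (j : A.ι) (ι : Fin n → Fin N) {y₀ : E N × (Fin n → Fin n → ℂ)} (h0 : y₀.1 ∈ (A.C j).U ι) :
    ∃ r δ : ℝ, 0 < r ∧ 0 < δ ∧ ∀ (Ψ : E n × E n → X) (b₀ ξ₁ : E n)
      (y : E n → E N × (Fin n → Fin n → ℂ)), y b₀ ∈ Metric.ball y₀ r →
      (∀ᶠ b in 𝓝 b₀, DifferentiableAt ℂ y b ∧ (∀ ξ, A.AGoodAt (fun s => Ψ (b, s)) ξ) ∧
        (∃ f : E n → E N, (A.C j).AGood f ξ₁ ∧ (f ξ₁, (A.C j).mf ι f ξ₁) = y b ∧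
          ∀ᶠ s in 𝓝 ξ₁, A.p j (f s) = Ψ (b, s)) ∧
        ∀ β τ, (fderiv ℂ y b β).1 ⬝ᵥ (A.C j).σ (y b).1 *ᵥ ((A.C j).V ι (y b) τ).1 = β ⬝ᵥ τ) →
      ∀ ξ ∈ Metric.ball ξ₁ δ, A.NLift Ψ (b₀, ξ) := by
  have hΩ : IsOpen ((A.C j).U ι ×ˢ (univ : Set (Fin n → Fin n → ℂ))) :=
    ((A.C j).isOpen_U ι).prod isOpen_univ
  obtain ⟨r, δ, Fl, hr, hδ, hFl, hF⟩ := frob_family hΩ ((A.C j).V_hol ι (hH j))
    (fun y hy s t => Chart.V_symm hN (hI j) (hH j) ι y hy.1 s t) (y₀ := y₀) ⟨h0, trivial⟩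
  refine ⟨r, δ, hr, hδ, fun Ψ b₀ ξ₁ y hy hev ξ hξ => ?_⟩
  have hcont : ContinuousAt y b₀ := hev.self_of_nhds.1.continuousAt
  have hball : ∀ᶠ b in 𝓝 b₀, y b ∈ Metric.ball y₀ r :=
    hcont.eventually_mem (Metric.isOpen_ball.mem_nhds hy)
  obtain ⟨B, hBsub, hB, hb₀⟩ := eventually_nhds_iff.1 (hev.and hball)
  obtain ⟨Y, hYdef⟩ : ∃ Y : E n × E n → E N × (Fin n → Fin n → ℂ),
      Y = fun w => Fl (y w.1, w.2 - ξ₁) := ⟨_, rfl⟩
  have hmem : ∀ s ∈ Metric.ball ξ₁ δ, s - ξ₁ ∈ Metric.ball (0 : E n) δ := fun s hs => by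
    rw [mem_ball_zero_iff]; exact mem_ball_iff_norm.1 hs
  have hself : ξ₁ ∈ Metric.ball ξ₁ δ := Metric.mem_ball_self hδ
  have hYd : DifferentiableOn ℂ Y (B ×ˢ Metric.ball ξ₁ δ) := by
    rw [hYdef]
    refine hFl.comp (f := fun w : E n × E n => (y w.1, w.2 - ξ₁)) ?_ ?_
    · intro w hw
      exact (((hBsub w.1 hw.1).1.1.comp w differentiableAt_fst).prodMk
        (differentiableAt_snd.sub_const ξ₁)).differentiableWithinAt
    · intro w hw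
      exact ⟨(hBsub w.1 hw.1).2, hmem _ hw.2⟩
  have hsol : ∀ b ∈ B, ∀ s ∈ Metric.ball ξ₁ δ, (Y (b, s)).1 ∈ (A.C j).U ι ∧
      HasFDerivAt (fun s => Y (b, s)) ((A.C j).V ι (Y (b, s))) s := by
    intro b hb s hs
    obtain ⟨h1, h2⟩ := (hF (y b) (hBsub b hb).2).2 _ (hmem s hs)
    rw [hYdef]
    refine ⟨h1.1, ?_⟩
    have h3 := h2.comp s ((hasFDerivAt_id s).sub_const ξ₁)
    rw [ContinuousLinearMap.comp_id] at h3
    exact h3
  have hY1 : ∀ b ∈ B, Y (b, ξ₁) = y b := by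
    intro b hb
    rw [hYdef]
    simp only [sub_self]
    exact (hF (y b) (hBsub b hb).2).1
  have hkey : ∀ b ∈ B, ∀ s ∈ Metric.ball ξ₁ δ,
      (A.C j).AGood (fun s => (Y (b, s)).1) s ∧ A.p j (Y (b, s)).1 = Ψ (b, s) := by
    intro b hb
    obtain ⟨⟨-, hAG, ⟨f, hf, hfy, hfp⟩, -⟩, -⟩ := hBsub b hb
    have hU : f ξ₁ ∈ (A.C j).U ι := by
      have h1 := (hsol b hb ξ₁ hself).1
      rw [hY1 b hb, ← hfy] at h1
      exact h1
    obtain ⟨hdet, hfsol⟩ := hf.sol hN (hI j) hU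
    have hag : ∀ s ∈ Metric.ball ξ₁ δ, (A.C j).AGood (fun s => (Y (b, s)).1) s :=
      Chart.agood_of_sol hN (hI j) ι (Y := fun s => Y (b, s)) (hsol b hb)
        (by simp only [hY1 b hb, ← hfy]; exact hdet)
    have huniq : (fun s => Y (b, s)) =ᶠ[𝓝 ξ₁] fun s => (f s, (A.C j).mf ι f s) :=
      frob_unique hΩ ((A.C j).V_hol ι (hH j)) (by simp only [hY1 b hb, hfy])
        ⟨(hsol b hb ξ₁ hself).1, trivial⟩
        (by
          filter_upwards [Metric.isOpen_ball.mem_nhds hself] with s hs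
          exact (hsol b hb s hs).2) hfsol
    have hid := A.lift_ident Metric.isOpen_ball (convex_ball ξ₁ δ).isPreconnected
      (Φ := fun s => A.p j (Y (b, s)).1) (Ψ := fun s => Ψ (b, s))
      (fun t ht => ⟨j, fun s => (Y (b, s)).1, by
        filter_upwards [Metric.isOpen_ball.mem_nhds ht] with s hs
        exact ⟨(hsol b hb s hs).1.1, (hsol b hb s hs).2.differentiableAt.fst, rfl⟩⟩)
      (fun t _ => (hAG t).toLift hN hI) hself
      (by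
        filter_upwards [huniq, hfp] with s h1 h2
        simp only [h1]
        exact h2)
    exact fun s hs => ⟨hag s hs, hid hs⟩
  have hopen : IsOpen (B ×ˢ Metric.ball ξ₁ δ) := hB.prod Metric.isOpen_ball
  refine ⟨j, fun w => (Y w).1, ?_⟩
  filter_upwards [hopen.mem_nhds (show (b₀, ξ) ∈ B ×ˢ Metric.ball ξ₁ δ from ⟨hb₀, hξ⟩)]
  rintro ⟨b, s⟩ ⟨hb, hs⟩
  refine ⟨(hsol b hb s hs).1.1, (hYd.differentiableAt (hopen.mem_nhds ⟨hb, hs⟩)).fst,
    (hkey b hb s hs).2, (hkey b hb s hs).1, fun β τ => ?_⟩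
  rw [Chart.pair_const hN (hI j) (hH j) ι hB hYd hsol b hb s hs β τ]
  obtain ⟨⟨hd, -, -, hpair⟩, -⟩ := hBsub b hb
  have hD : HasFDerivAt (fun w => (Y w).1) (fderiv ℂ (fun w => (Y w).1) (b, ξ₁)) (b, ξ₁) :=
    (hYd.differentiableAt (hopen.mem_nhds
      (show (b, ξ₁) ∈ B ×ˢ Metric.ball ξ₁ δ from ⟨hb, hself⟩))).fst.hasFDerivAt
  have e1 : fderiv ℂ (fun w => (Y w).1) (b, ξ₁) (β, 0) = (fderiv ℂ y b β).1 := by
    have h1 := HasFDerivAt.comp (f := fun e : E n => (e, ξ₁)) b hD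
      (hasFDerivAt_prodMk_left (𝕜 := ℂ) b ξ₁)
    have h2 : HasFDerivAt ((fun w => (Y w).1) ∘ fun e : E n => (e, ξ₁))
        ((ContinuousLinearMap.fst ℂ _ _).comp (fderiv ℂ y b)) b := by
      refine hd.hasFDerivAt.fst.congr_of_eventuallyEq ?_
      filter_upwards [hB.mem_nhds hb] with c hc
      simp only [Function.comp, hY1 c hc]
    have h3 := congrArg (fun L : E n →L[ℂ] E N => L β) (h1.unique h2)
    simpa using h3
  have e2 : fderiv ℂ (fun w => (Y w).1) (b, ξ₁) (0, τ) = ((A.C j).V ι (y b) τ).1 := by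
    have h1 := HasFDerivAt.comp (f := fun e : E n => (b, e)) ξ₁ hD
      (hasFDerivAt_prodMk_right (𝕜 := ℂ) b ξ₁)
    have h2 := (hsol b hb ξ₁ hself).2.fst
    rw [hY1 b hb] at h2
    have h3 := congrArg (fun L : E n →L[ℂ] E N => L τ) (h1.unique h2)
    simpa using h3
  unfold Chart.pair
  rw [e1, e2]
  simp only [hY1 b hb]
  exact hpair β τ

end Pool.Agent.SPF
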