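import Pool.Agent.P.MP_63735c_ag.SPJoint

/-! A normalized joint lift at one point of a slice gives one at all points. -/

open Set Filter Topology
open scoped ComplexOrder ContDiff Matrix

namespace Pool.Agent.SPF

variable {N n : ℕ} {X : Type} [TopologicalSpace X] [T2Space X] {A : Atlas X N}

/-- Two holomorphic lifts of the same germ differ by a change of charts. -/
theorem Atlas.lift_eq {i j : A.ι} {f₁ f₂ : E n → E N} {t : E n}
    (h : ∀ᶠ s in 𝓝 t, f₁ s ∈ (A.C i).W ∧ f₂ s ∈ (A.C j).W ∧ DifferentiableAt ℂ f₁ s ∧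
      DifferentiableAt ℂ f₂ s ∧ A.p i (f₁ s) = A.p j (f₂ s)) :
    ∃ O φ, IsChange (A.C i) (A.C j) O φ ∧ f₁ t ∈ O ∧ (∀ w ∈ O, A.p j (φ w) = A.p i w) ∧
      (fun s => φ (f₁ s)) =ᶠ[𝓝 t] f₂ := by
  obtain ⟨a1, b1, a2, -, a3⟩ := h.self_of_nhds
  obtain ⟨O, φ, hφ, hO, -, hp⟩ := A.trans i j _ a1 _ b1 a3
  have hev : ∀ᶠ s in 𝓝 t, f₁ s ∈ O := a2.continuousAt.eventually (hφ.isOpen.mem_nhds hO)
  obtain ⟨r, hr, hB⟩ := Metric.eventually_nhds_iff_ball.1 (h.and hev)
  have hd₁ : DifferentiableOn ℂ (φ ∘ f₁) (Metric.ball t r) :=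
    hφ.hol.comp (fun s hs => (hB s hs).1.2.2.1.differentiableWithinAt) fun s hs => (hB s hs).2
  have hd₂ : DifferentiableOn ℂ f₂ (Metric.ball t r) :=
    fun s hs => (hB s hs).1.2.2.2.1.differentiableWithinAt
  have hm : MapsTo (φ ∘ f₁) (Metric.ball t r) (A.C j).W := fun s hs => hφ.maps (hB s hs).2
  have hdg : ∀ g ∈ A.G j, DifferentiableOn ℂ (g ∘ φ ∘ f₁) (Metric.ball t r) :=
    fun g hg => (A.G_iso j g hg).1.hol.comp hd₁ hm
  obtain ⟨g, hg, s, hs, he⟩ := spident_fin (A.G_fin j) (fun g => g ∘ φ ∘ f₁) f₂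
    (Metric.ball t r) Metric.isOpen_ball ⟨t, Metric.mem_ball_self hr⟩
    (fun g hg => (hdg g hg).continuousOn) hd₂.continuousOn
    (fun s hs => A.G_fib j _ (hm hs) _ (hB s hs).1.2.1
      ((hp _ (hB s hs).2).trans (hB s hs).1.2.2.2.2))
  have hall := spident_scv Metric.isOpen_ball (convex_ball t r) (hdg g hg) hd₂ hs he
  refine ⟨_, g ∘ φ, hφ.comp (A.G_iso j g hg).1, ⟨hO, hφ.maps hO⟩, fun w hw => ?_, ?_⟩
  · exact ((A.G_iso j g hg).2 _ hw.2).trans (hp w hw.1)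
  · exact hall.eventuallyEq_of_mem (Metric.ball_mem_nhds t hr)

lemma joint2_right {F : E n × E n → E N} {b ξ : E n} (h : DifferentiableAt ℂ F (b, ξ)) :
    HasFDerivAt (fun s => F (b, s))
      ((fderiv ℂ F (b, ξ)).comp (ContinuousLinearMap.inr ℂ (E n) (E n))) ξ :=
  h.hasFDerivAt.comp ξ (hasFDerivAt_prodMk_right b ξ)

lemma joint2_left {F : E n × E n → E N} {b ξ : E n} (h : DifferentiableAt ℂ F (b, ξ)) :
    HasFDerivAt (fun s => F (s, ξ))
      ((fderiv ℂ F (b, ξ)).comp (ContinuousLinearMap.inl ℂ (E n) (E n))) b :=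
  h.hasFDerivAt.comp b (hasFDerivAt_prodMk_left b ξ)

lemma joint2_mf (C : Chart N) (ι : Fin n → Fin N) {f g : E n → E N} {t : E n}
    (h : f =ᶠ[𝓝 t] g) : C.mf ι f t = C.mf ι g t := by
  funext k j
  simp only [Chart.mf, jac, h.fderiv_eq, h.eq_of_nhds]

lemma joint2_diff (C : Chart N) (ι : Fin n → Fin N) {F : E n × E n → E N} {Ω : Set (E n × E n)}
    (hΩ : IsOpen Ω) (hF : DifferentiableOn ℂ F Ω) (hm : MapsTo F Ω C.W) {b ξ : E n}
    (hb : (b, ξ) ∈ Ω) :
    DifferentiableAt ℂ (fun c => (F (c, ξ), C.mf ι (fun s => F (c, s)) ξ)) b := by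
  have h1 : DifferentiableAt ℂ (fun c : E n => F (c, ξ)) b :=
    (joint2_left (hF.differentiableAt (hΩ.mem_nhds hb))).differentiableAt
  have hl : DifferentiableAt ℂ (fun c : E n => (c, ξ)) b := by fun_prop
  have h2 : DifferentiableAt ℂ (fderiv ℂ F) (b, ξ) :=
    (((flow_smooth hΩ hF).contDiffAt (hΩ.mem_nhds hb)).fderiv_right (m := 1)
      (by norm_cast)).differentiableAt one_ne_zero
  have h3 : DifferentiableAt ℂ (fun c : E n => fderiv ℂ F (c, ξ)) b := h2.comp b hl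
  refine h1.prodMk (differentiableAt_pi.2 fun k => differentiableAt_pi.2 fun j => ?_)
  have h4 : DifferentiableAt ℂ (fun c : E n => ∑ a, C.σ (F (c, ξ)) (ι j) a *
      fderiv ℂ F (c, ξ) (0, Pi.single k 1) a) b := by
    refine DifferentiableAt.fun_sum fun a _ => DifferentiableAt.mul ?_ ?_
    · exact ((C.σ_hol (ι j) a).differentiableAt (C.isOpen.mem_nhds (hm hb))).comp b h1
    · exact differentiableAt_pi.1 (h3.clm_apply (differentiableAt_const _)) a
  refine h4.congr_of_eventuallyEq ?_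
  filter_upwards [hl.continuousAt.eventually (hΩ.mem_nhds hb)] with c hc
  simp only [Chart.mf, jac, (joint2_right (hF.differentiableAt (hΩ.mem_nhds hc))).fderiv,
    Matrix.of_apply, ContinuousLinearMap.comp_apply, ContinuousLinearMap.inr_apply]

theorem Atlas.nlift_all (hN : N = 2 * n) (hI : ∀ i, (A.C i).Iso) (hH : ∀ i, (A.C i).Hol n)
    {Ψ : E n × E n → X} {b₀ : E n} (hΨ : ∀ᶠ b in 𝓝 b₀, ∀ ξ, A.AGoodAt (fun s => Ψ (b, s)) ξ)
    (h0 : A.NLift Ψ (b₀, 0)) (ξ : E n) : A.NLift Ψ (b₀, ξ) := by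
  have hr : ∀ b t : E n, ContinuousAt (fun s : E n => (b, s)) t := fun b t => by fun_prop
  have hl : ∀ b t : E n, ContinuousAt (fun s : E n => (s, t)) b := fun b t => by fun_prop
  have hop : IsOpen {t | A.NLift Ψ (b₀, t)} := by
    refine isOpen_iff_mem_nhds.2 fun t ht => ?_
    obtain ⟨i, F, hF⟩ := ht
    filter_upwards [(hr b₀ t).eventually hF.eventually_nhds] with s hs using ⟨i, F, hs⟩
  have hcl : IsClosed {t | A.NLift Ψ (b₀, t)} := by
    refine isClosed_of_closure_subset fun t ht => ?_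
    obtain ⟨j, f, hf, hpf⟩ := hΨ.self_of_nhds t
    obtain ⟨hW, hrk, hdf, -⟩ := hf.basic hN (hI j)
    obtain ⟨ι, hU⟩ := Chart.exists_U (n := n) hW hrk.ge
    obtain ⟨r, δ, hr0, hδ, hstep⟩ :=
      Atlas.nlift_step hN hI hH j ι (y₀ := (f t, (A.C j).mf ι f t)) hU
    have hc : ContinuousAt (fun s => (f s, (A.C j).mf ι f s)) t :=
      (hf.sol hN (hI j) hU).2.self_of_nhds.continuousAt
    have hev : ∀ᶠ s in 𝓝 t, (f s, (A.C j).mf ι f s) ∈ Metric.ball (f t, (A.C j).mf ι f t) r ∧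
        s ∈ Metric.ball t δ ∧ f s ∈ (A.C j).U ι ∧
        ∀ᶠ u in 𝓝 s, (A.C j).AGood f u ∧ A.p j (f u) = Ψ (b₀, u) :=
      (hc.eventually (Metric.ball_mem_nhds _ hr0)).and
        (Filter.Eventually.and (Metric.ball_mem_nhds t hδ)
          ((hdf.continuousAt.eventually (((A.C j).isOpen_U ι).mem_nhds hU)).and
            (hf.eventually.and hpf).eventually_nhds))
    obtain ⟨ξ₁, ⟨i, F, hF⟩, e1, e2, e3, e4⟩ :=
      ((mem_closure_iff_frequently.1 ht).and_eventually hev).exists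
    obtain ⟨O, φ, hφ, hO, hp, he⟩ := Atlas.lift_eq (A := A) (i := i) (j := j)
      (f₁ := fun s => F (b₀, s)) (f₂ := f) (t := ξ₁) (by
        filter_upwards [(hr b₀ ξ₁).eventually hF, e4] with s h1 h2
        obtain ⟨h3, -, h4, -⟩ := h2.1.basic hN (hI j)
        exact ⟨h1.1, h3, (joint2_right h1.2.1).differentiableAt, h4, h1.2.2.1.trans h2.2.symm⟩)
    have hFc : ContinuousAt F (b₀, ξ₁) := hF.self_of_nhds.2.1.continuousAt
    have hF'c : ContinuousAt (fun s => φ (F s)) (b₀, ξ₁) :=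
      (hφ.lin3_diff hO).continuousAt.comp hFc
    have hU' : φ (F (b₀, ξ₁)) ∈ (A.C j).U ι := by
      rw [he.eq_of_nhds]; exact e3
    obtain ⟨Ω, hΩ, ho, hm⟩ := eventually_nhds_iff.1 (hF.and
      ((hFc.eventually (hφ.isOpen.mem_nhds hO)).and
        (hF'c.eventually (((A.C j).isOpen_U ι).mem_nhds hU'))))
    have hd : ∀ s ∈ Ω, DifferentiableAt ℂ (fun s => φ (F s)) s := fun s hs =>
      (hφ.lin3_diff (hΩ s hs).2.1).comp s (hΩ s hs).1.2.1
    refine hstep Ψ b₀ ξ₁ (fun c => (φ (F (c, ξ₁)), (A.C j).mf ι (fun s => φ (F (c, s))) ξ₁))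
      ?_ ?_ t (Metric.mem_ball_comm.1 e2)
    · show (_, _) ∈ _
      rw [joint2_mf _ ι he, he.eq_of_nhds]
      exact e1
    · filter_upwards [hΨ, (hl b₀ ξ₁).eventually (ho.mem_nhds hm)] with b h1 h2
      have hy := joint2_diff (A.C j) ι ho (fun s hs => (hd s hs).differentiableWithinAt)
        (fun s hs => hφ.maps (hΩ s hs).2.1) h2
      have hg : (A.C j).AGood (fun s => φ (F (b, s))) ξ₁ :=
        hφ.agood (hΩ _ h2).1.2.2.2.1 (hΩ _ h2).2.1
      refine ⟨hy, h1, ⟨_, hg, rfl, ?_⟩, fun β τ => ?_⟩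
      · filter_upwards [(hr b ξ₁).eventually (ho.mem_nhds h2)] with s hs
        exact (hp _ (hΩ _ hs).2.1).trans (hΩ _ hs).1.2.2.1
      · have a1 := hy.hasFDerivAt.fst.unique (joint2_left (hd _ h2))
        have a2 := (hg.sol hN (hI j) (hΩ _ h2).2.2).2.self_of_nhds.fst.unique
          (joint2_right (hd _ h2))
        have a3 := congrArg (· β) a1
        have a4 := congrArg (· τ) a2
        simp only [ContinuousLinearMap.comp_apply, ContinuousLinearMap.coe_fst',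
          ContinuousLinearMap.inl_apply, ContinuousLinearMap.inr_apply] at a3 a4
        rw [a3, a4, ← (hΩ _ h2).1.2.2.2.2 β τ,
          ← hφ.pair (hΩ _ h2).1.2.1 (hΩ _ h2).2.1 β τ]
        rfl
  have := IsClopen.eq_univ ⟨hcl, hop⟩ ⟨0, h0⟩
  exact (this.ge (mem_univ ξ) :)

end Pool.Agent.SPF
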