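import Pool.Agent.P.MP_63735c_ag.SPDefs

/-! Local objects attached to a chart (used only inside the proofs). -/

open scoped ComplexOrder ContDiff Matrix Topology

namespace Pool.Agent.SPF

variable {N n : ℕ}

/-- Wirtinger derivative in `zbar_a`. -/
noncomputable def dzb (a : Fin N) (f : E N → ℂ) (z : E N) : ℂ :=
  (fderiv ℝ f z (Pi.single a 1) + Complex.I * fderiv ℝ f z (Pi.single a Complex.I)) / 2

/-- `∑ G_ab d_a dbar_b f` at `z`. -/
noncomputable def lapM (G : Matrix (Fin N) (Fin N) ℂ) (f : E N → ℂ) (z : E N) : ℂ :=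
  ∑ a, ∑ b, G a b * dz a (dzb b f) z

/-- `∑ G_ab d_a f₁ dbar_b f₂` at `z`. -/
noncomputable def gamM (G : Matrix (Fin N) (Fin N) ℂ) (f₁ f₂ : E N → ℂ) (z : E N) : ℂ :=
  ∑ a, ∑ b, G a b * dz a f₁ z * dzb b f₂ z

/-- The value of `∑ G_ab d_a dbar_b log f` at `z`. -/
noncomputable def dlogM (G : Matrix (Fin N) (Fin N) ℂ) (f : E N → ℂ) (z : E N) : ℝ :=
  ((f z * lapM G f z - gamM G f f z) / f z ^ 2).re

namespace Chart

variable (C : Chart N)

/-- The Poisson tensor. -/
noncomputable def π (z : E N) : Matrix (Fin N) (Fin N) ℂ := (C.σ z)⁻¹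

/-- The leafwise cometric. -/
noncomputable def G (z : E N) : Matrix (Fin N) (Fin N) ℂ := C.π z * C.η z * (C.π z)ᴴ

/-- The image of `η` is isotropic for `π`. -/
def Iso : Prop := ∀ z ∈ C.W, (C.η z)ᵀ * C.π z * C.η z = 0

/-- Principal block. -/
noncomputable def g (ι : Fin n → Fin N) (z : E N) : Matrix (Fin n) (Fin n) ℂ :=
  (C.η z).submatrix ι ι

/-- Principal minor, as a complex number. -/
noncomputable def ac (ι : Fin n → Fin N) (z : E N) : ℂ := (C.g ι z).det

/-- Principal minor, as a real number. -/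
noncomputable def a (ι : Fin n → Fin N) (z : E N) : ℝ := (C.ac ι z).re

/-- Where the principal minor is positive. -/
def U (ι : Fin n → Fin N) : Set (E N) := {z | z ∈ C.W ∧ 0 < C.a ι z}

/-- The minor `ι` is the largest one at `z`. -/
def Max (ι : Fin n → Fin N) (z : E N) : Prop := ∀ ι' : Fin n → Fin N, C.a ι' z ≤ C.a ι z

/-- The curvature function. -/
noncomputable def S (ι : Fin n → Fin N) (z : E N) : ℝ := dlogM (C.G z) (C.ac ι) z

/-- The coframe `e^i_b`. -/
noncomputable def e (ι : Fin n → Fin N) (z : E N) (i : Fin n) (b : Fin N) : ℂ :=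
  ∑ j, C.η z b (ι j) * (C.g ι z)⁻¹ j i

/-- The frame `X^k` of the null space. -/
noncomputable def X (ι : Fin n → Fin N) (z : E N) (k : Fin n) : E N :=
  fun a => ∑ b, C.π z a b * C.e ι z k b

/-- The connection coefficients `A^(k m)_i`. -/
noncomputable def A (ι : Fin n → Fin N) (z : E N) (k m i : Fin n) : ℂ :=
  -∑ c, C.X ι z k c * dz (ι i) (fun w => C.e ι w m c) z

/-- All coframes are holomorphic. -/
def Hol (n : ℕ) : Prop :=
  ∀ (ι : Fin n → Fin N) i b, DifferentiableOn ℂ (fun z => C.e ι z i b) (C.U ι)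

/-- Near `t`, `f` is a holomorphic map into the rank `n` locus that is isometric for `G`. -/
def Good (f : E n → E N) (t : E n) : Prop :=
  ∀ᶠ s in 𝓝 t, f s ∈ C.W ∧ (C.η (f s)).rank = n ∧ DifferentiableAt ℂ f s ∧
    jac f s * (jac f s)ᴴ = C.G (f s)

/-- The first order system on states z, m solved by good maps. -/
noncomputable def V (ι : Fin n → Fin N) (y : E N × (Fin n → Fin n → ℂ)) :
    E n →L[ℂ] E N × (Fin n → Fin n → ℂ) :=
  ∑ q, (ContinuousLinearMap.proj q : E n →L[ℂ] ℂ).smulRight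
    (fun a => ∑ p, y.2 q p * C.X ι y.1 p a,
      fun k i => -∑ p, ∑ r, y.2 q p * y.2 k r * C.A ι y.1 p r i)

end Chart

/-- A finite family of charts with compact sets and cutoff functions. -/
structure Cov {X : Type} [TopologicalSpace X] (A : Atlas X N) where
  T : Type
  fin : Finite T
  c : T → A.ι
  K : T → Set (E N)
  ρ : T → E N → ℝ
  cpt : ∀ α, IsCompact (K α)
  sub : ∀ α, K α ⊆ (A.C (c α)).W
  smooth : ∀ α, ContDiff ℝ ∞ (ρ α)
  nonneg : ∀ α z, 0 ≤ ρ α z
  le_one : ∀ α z, ρ α z ≤ 1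
  supp : ∀ α z, ρ α z ≠ 0 → z ∈ K α
  one : ∀ x, ∃ α, ∃ z ∈ K α, A.p (c α) z = x ∧ ρ α z = 1

/-- `Φ` lifts near `t` to a holomorphic map into a chart. -/
def Atlas.Lift {X : Type} [TopologicalSpace X] (A : Atlas X N) (Φ : E n → X) (t : E n) : Prop :=
  ∃ (i : A.ι) (f : E n → E N), ∀ᶠ s in 𝓝 t,
    f s ∈ (A.C i).W ∧ DifferentiableAt ℂ f s ∧ A.p i (f s) = Φ s

/-- `Φ` lifts near `t` to a good map into a chart. -/
def Atlas.GoodAt {X : Type} [TopologicalSpace X] (A : Atlas X N) (Φ : E n → X) (t : E n) : Prop :=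
  ∃ (i : A.ι) (f : E n → E N), (A.C i).Good f t ∧ ∀ᶠ s in 𝓝 t, A.p i (f s) = Φ s

end Pool.Agent.SPF
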