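import Pool.Agent.P.MP_63735c_ag.SPLoc
import Pool.Agent.Lib.SCV.Smooth

/-! The star ring of smooth complex functions on an open set, with its Wirtinger derivations. -/

open Set Filter Topology TopologicalSpace
open scoped ContDiff

namespace Pool.Agent.SPF

variable {N M : ℕ}

/-- Extension by zero. -/
noncomputable def ext0 (O : Opens (E N)) (f : O → ℂ) : E N → ℂ := Function.extend Subtype.val f 0

lemma ext0_apply (O : Opens (E N)) (f : O → ℂ) {x : E N} (hx : x ∈ O) : ext0 O f x = f ⟨x, hx⟩ :=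
  Subtype.val_injective.extend_apply f 0 ⟨x, hx⟩

/-- Smooth functions on `O`. -/
def SmAlg (O : Opens (E N)) : StarSubalgebra ℂ (O → ℂ) where
  carrier := {f | ContDiffOn ℝ ∞ (ext0 O f) O}
  mul_mem' := fun {a b} ha hb => (ContDiffOn.mul ha hb).congr fun x hx => by
    simp [ext0_apply O _ hx]
  add_mem' := fun {a b} ha hb => (ContDiffOn.add ha hb).congr fun x hx => by
    simp [ext0_apply O _ hx]
  algebraMap_mem' := fun r => (contDiffOn_const (c := r)).congr fun x hx => by
    simp [ext0_apply O _ hx]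
  star_mem' := fun {a} ha => (Complex.conjCLE.contDiff.comp_contDiffOn ha).congr fun x hx => by
    simp [ext0_apply O _ hx]

/-- The type of smooth functions on `O`. -/
def Sm (O : Opens (E N)) : Type := SmAlg O

namespace Sm

variable {O : Opens (E N)} {O' : Opens (E M)}

noncomputable instance : CommRing (Sm O) := inferInstanceAs (CommRing (SmAlg O))
noncomputable instance : Algebra ℂ (Sm O) := inferInstanceAs (Algebra ℂ (SmAlg O))
noncomputable instance : StarRing (Sm O) := inferInstanceAs (StarRing (SmAlg O))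

/-- The total function attached to a smooth function. -/
noncomputable def fn (a : Sm O) : E N → ℂ := ext0 O (a : SmAlg O).1

lemma smooth (a : Sm O) : ContDiffOn ℝ ∞ a.fn O := (a : SmAlg O).2

/-- Evaluation at a point. -/
noncomputable def ev (x : O) : Sm O →ₐ[ℂ] ℂ :=
  (Pi.evalAlgHom ℂ (fun _ : O => ℂ) x).comp (SmAlg O).toSubalgebra.val

@[simp] lemma ev_star (x : O) (a : Sm O) : ev x (star a) = star (ev x a) := rfl

lemma fn_apply (a : Sm O) {x : E N} (hx : x ∈ O) : a.fn x = ev ⟨x, hx⟩ a := ext0_apply O _ hx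

lemma ev_eq (a : Sm O) (x : O) : ev x a = a.fn x := (a.fn_apply x.2).symm

@[ext] lemma ext {a b : Sm O} (h : ∀ x, ev x a = ev x b) : a = b := Subtype.ext (funext h)

/-- The element given by a smooth function. -/
noncomputable def mk (f : E N → ℂ) (hf : ContDiffOn ℝ ∞ f O) : Sm O :=
  (⟨fun x => f x, hf.congr fun _ hx => ext0_apply O _ hx⟩ : SmAlg O)

@[simp] lemma ev_mk (f : E N → ℂ) (hf : ContDiffOn ℝ ∞ f O) (x : O) : ev x (mk f hf) = f x := rfl

/-- `a` is the restriction of `f`. -/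
def Rep (a : Sm O) (f : E N → ℂ) : Prop := ∀ x : O, ev x a = f x

lemma rep_fn (a : Sm O) : a.Rep a.fn := a.ev_eq

lemma rep_mk (f : E N → ℂ) (hf : ContDiffOn ℝ ∞ f O) : (mk f hf).Rep f := fun _ => rfl

lemma Rep.eventuallyEq {a : Sm O} {f : E N → ℂ} (h : a.Rep f) (x : O) : a.fn =ᶠ[𝓝 x.1] f := by
  filter_upwards [O.isOpen.mem_nhds x.2] with y hy
  rw [a.fn_apply hy, h]

lemma Rep.smooth {a : Sm O} {f : E N → ℂ} (h : a.Rep f) : ContDiffOn ℝ ∞ f O :=
  a.smooth.congr fun x hx => by rw [a.fn_apply hx, h]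

lemma Rep.contDiffAt {a : Sm O} {f : E N → ℂ} (h : a.Rep f) (x : O) : ContDiffAt ℝ ∞ f x :=
  h.smooth.contDiffAt (O.isOpen.mem_nhds x.2)

lemma hasF (a : Sm O) (x : O) : HasFDerivAt a.fn (fderiv ℝ a.fn x) x.1 :=
  ((a.rep_fn.contDiffAt x).differentiableAt (by simp)).hasFDerivAt

lemma smooth_fderiv (a : Sm O) : ContDiffOn ℝ ∞ (fderiv ℝ a.fn) O :=
  a.smooth.fderiv_of_isOpen O.isOpen (by simp)

lemma Rep.fderiv_eq {a : Sm O} {f : E N → ℂ} (h : a.Rep f) (x : O) {L : E N →L[ℝ] ℂ}
    (hf : HasFDerivAt f L x.1) : fderiv ℝ a.fn x = L :=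
  (hf.congr_of_eventuallyEq (h.eventuallyEq x)).fderiv

/-- Directional derivative as a function. -/
noncomputable def der0 (v : E N) (a : Sm O) : Sm O :=
  mk (fun x => fderiv ℝ a.fn x v) (a.smooth_fderiv.clm_apply contDiffOn_const)

lemma der0_add (v : E N) (a b : Sm O) : der0 v (a + b) = der0 v a + der0 v b := by
  ext x
  have := Rep.fderiv_eq (a := a + b) (fun y => by simp [← ev_eq]) x ((a.hasF x).add (b.hasF x))
  simp [der0, this]

lemma der0_smul (v : E N) (c : ℂ) (a : Sm O) : der0 v (c • a) = c • der0 v a := by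
  ext x
  have := Rep.fderiv_eq (a := c • a) (fun y => by simp [← ev_eq]) x ((a.hasF x).const_smul c)
  simp [der0, this]

lemma der0_mul (v : E N) (a b : Sm O) : der0 v (a * b) = a * der0 v b + b * der0 v a := by
  ext x
  have := Rep.fderiv_eq (a := a * b) (fun y => by simp [← ev_eq]) x ((a.hasF x).mul (b.hasF x))
  simp [der0, this, ← ev_eq]

/-- Real directional derivative as a derivation. -/
noncomputable def der (v : E N) : Derivation ℂ (Sm O) (Sm O) :=
  Derivation.mk'
    { toFun := der0 v, map_add' := der0_add v, map_smul' := der0_smul v }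
    (fun a b => der0_mul v a b)

lemma ev_der (v : E N) (a : Sm O) (x : O) : ev x (der v a) = fderiv ℝ a.fn x v := rfl

lemma Rep.der {a : Sm O} {f : E N → ℂ} (h : a.Rep f) (v : E N) :
    (der v a).Rep fun x => fderiv ℝ f x v := fun x => by
  rw [ev_der, (h.eventuallyEq x).fderiv_eq]

lemma der_comm (v w : E N) (a : Sm O) : der v (der w a) = der w (der v a) := by
  ext x
  have key : ∀ v w : E N, ev x (der v (der w a)) = fderiv ℝ (fderiv ℝ a.fn) x v w := by
    intro v w
    have h1 := ((a.smooth_fderiv.contDiffAt (O.isOpen.mem_nhds x.2)).differentiableAt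
      (by simp)).hasFDerivAt
    have h2 := h1.clm_apply (hasFDerivAt_const w x.1)
    rw [ev_der, (a.rep_fn.der w).fderiv_eq x h2]
    simp
  rw [key, key]
  exact ((a.rep_fn.contDiffAt x).isSymmSndFDerivAt (by
    rw [minSmoothness_of_isRCLikeNormedField]; exact WithTop.coe_le_coe.2 le_top)).eq v w

lemma star_der (v : E N) (a : Sm O) : star (der v a) = der v (star a) := by
  ext x
  have := Rep.fderiv_eq (a := star a) (f := fun y => Complex.conjCLE (a.fn y))
    (fun y => by simp [← ev_eq]) x (Complex.conjCLE.hasFDerivAt.comp x.1 (a.hasF x))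
  simp [ev_der, this]

/-- The derivation `d/dz_i`. -/
noncomputable def d (i : Fin N) : Derivation ℂ (Sm O) (Sm O) :=
  (1 / 2 : ℂ) • (der (Pi.single i 1) - Complex.I • der (Pi.single i Complex.I))

/-- The derivation `d/dzbar_i`. -/
noncomputable def db (i : Fin N) : Derivation ℂ (Sm O) (Sm O) :=
  (1 / 2 : ℂ) • (der (Pi.single i 1) + Complex.I • der (Pi.single i Complex.I))

lemma Rep.d {a : Sm O} {f : E N → ℂ} (h : a.Rep f) (i : Fin N) : (d i a).Rep (dz i f) := fun x => by
  simp [Sm.d, dz, h.der _ x]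
  ring

lemma Rep.db {a : Sm O} {f : E N → ℂ} (h : a.Rep f) (i : Fin N) :
    (db i a).Rep (dzb i f) := fun x => by
  simp [Sm.db, dzb, h.der _ x]
  ring

lemma star_d (i : Fin N) (a : Sm O) : star (d i a) = db i (star a) := by
  ext x
  simp [d, db, ← star_der]
  ring

lemma d_db (i j : Fin N) (a : Sm O) : d i (db j a) = db j (d i a) := by
  ext x
  simp [d, db, der_comm (Pi.single j 1), der_comm (Pi.single j Complex.I)]
  ring

lemma d_d (i j : Fin N) (a : Sm O) : d i (d j a) = d j (d i a) := by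
  ext x
  simp [d, der_comm (Pi.single j 1), der_comm (Pi.single j Complex.I)]
  ring

end Sm

/-- A real derivative in terms of the Wirtinger derivatives. -/
lemma fderiv_eq_wirt (f : E N → ℂ) (z v : E N) :
    fderiv ℝ f z v = ∑ a, (v a * dz a f z + star (v a) * dzb a f z) := by
  have hv : v = ∑ a, ((v a).re • (Pi.single a 1 : E N) + (v a).im • (Pi.single a Complex.I : E N)) := by
    ext b
    simp [Finset.sum_apply, Pi.single_apply, Finset.sum_add_distrib]
  conv_lhs => rw [hv]
  rw [map_sum]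
  refine Finset.sum_congr rfl fun a _ => ?_
  rw [map_add, map_smul, map_smul, dz, dzb, Complex.real_smul, Complex.real_smul]
  have h1 : v a = (v a).re + (v a).im * Complex.I := (Complex.re_add_im _).symm
  have h2 : star (v a) = (v a).re - (v a).im * Complex.I := by
    apply Complex.ext <;> simp
  rw [h2]
  conv_rhs => rw [h1]
  simp only [Complex.add_re, Complex.add_im, Complex.ofReal_re, Complex.ofReal_im, Complex.mul_re,
    Complex.mul_im, Complex.I_re, Complex.I_im, mul_zero, mul_one, sub_zero, add_zero, zero_add]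
  linear_combination (-((v a).im : ℂ) * fderiv ℝ f z (Pi.single a Complex.I)) * Complex.I_sq * (-1)

lemma dz_of_diff {f : E N → ℂ} {z : E N} (hf : DifferentiableAt ℂ f z) (a : Fin N) :
    dz a f z = fderiv ℂ f z (Pi.single a 1) ∧ dzb a f z = 0 := by
  have h1 : (Pi.single a Complex.I : E N) = Complex.I • (Pi.single a 1 : E N) := by
    ext b; simp [Pi.single_apply]
  rw [dz, dzb, hf.fderiv_restrictScalars ℝ, h1]
  simp only [ContinuousLinearMap.coe_restrictScalars', map_smul, smul_eq_mul]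
  constructor
  · linear_combination (-(fderiv ℂ f z (Pi.single a 1)) / 2) * Complex.I_sq
  · linear_combination (fderiv ℂ f z (Pi.single a 1) / 2) * Complex.I_sq

/-- Cauchy-Riemann. -/
lemma diff_of_dzb {f : E N → ℂ} {z : E N} (hf : DifferentiableAt ℝ f z) (h : ∀ a, dzb a f z = 0) :
    DifferentiableAt ℂ f z := by
  refine (hasFDerivAt_of_restrictScalars ℝ (f' := ∑ a, dz a f z •
    (ContinuousLinearMap.proj a : E N →L[ℂ] ℂ)) hf.hasFDerivAt ?_).differentiableAt
  ext v
  simp [fderiv_eq_wirt, h, mul_comm]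

/-- Chain rule for Wirtinger derivatives along a holomorphic map. -/
lemma dz_comp {f : E N → ℂ} {φ : E M → E N} {z : E M} (hf : DifferentiableAt ℝ f (φ z))
    (hφ : DifferentiableAt ℂ φ z) (a : Fin M) :
    dz a (fun w => f (φ w)) z = ∑ c, jac φ z c a * dz c f (φ z) ∧
      dzb a (fun w => f (φ w)) z = ∑ c, star (jac φ z c a) * dzb c f (φ z) := by
  have h1 : (Pi.single a Complex.I : E M) = Complex.I • (Pi.single a 1 : E M) := by
    ext b; simp [Pi.single_apply]
  have h2 := (hf.hasFDerivAt.comp z (hφ.hasFDerivAt.restrictScalars ℝ)).fderiv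
  have h3 : (fun w => f (φ w)) = f ∘ φ := rfl
  rw [dz, dzb, h3, h2, h1]
  simp only [ContinuousLinearMap.comp_apply, ContinuousLinearMap.coe_restrictScalars', map_smul,
    fderiv_eq_wirt f, Finset.mul_sum, ← Finset.sum_sub_distrib, ← Finset.sum_add_distrib,
    Finset.sum_div, jac, Matrix.of_apply, Pi.smul_apply, smul_eq_mul, star_mul', Complex.star_def,
    Complex.conj_I]
  constructor <;> refine Finset.sum_congr rfl fun c _ => ?_
  · linear_combination (-(fderiv ℂ φ z (Pi.single a 1) c * dz c f (φ z)) / 2 +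
      (starRingEnd ℂ) (fderiv ℂ φ z (Pi.single a 1) c) * dzb c f (φ z) / 2) * Complex.I_sq
  · linear_combination ((fderiv ℂ φ z (Pi.single a 1) c * dz c f (φ z)) / 2 -
      (starRingEnd ℂ) (fderiv ℂ φ z (Pi.single a 1) c) * dzb c f (φ z) / 2) * Complex.I_sq

lemma smooth_of_hol {φ : E M → E N} {s : Set (E M)} (hs : IsOpen s) (hφ : DifferentiableOn ℂ φ s) :
    ContDiffOn ℝ ∞ φ s :=
  contDiffOn_pi.2 fun c => (Lib.SCV.contDiffOn_of_differentiableOn hs
    (differentiableOn_pi.1 hφ c)).restrict_scalars ℝ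

lemma jac_hol {φ : E M → E N} {s : Set (E M)} (hs : IsOpen s) (hφ : DifferentiableOn ℂ φ s)
    (c : Fin N) (a : Fin M) : DifferentiableOn ℂ (fun z => jac φ z c a) s := by
  refine (Lib.SCV.differentiableOn_fderiv_apply hs (differentiableOn_pi.1 hφ c)
    (Pi.single a 1)).congr fun z hz => ?_
  have := (hφ.differentiableAt (hs.mem_nhds hz)).hasFDerivAt
  rw [(hasFDerivAt_pi'.1 this c).fderiv]
  rfl

namespace Sm

variable {O : Opens (E N)} {O' : Opens (E M)}

/-- Inverse of a nowhere vanishing function. -/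
noncomputable def inv (a : Sm O) (h : ∀ x, ev x a ≠ 0) : Sm O :=
  mk (fun x => (a.fn x)⁻¹) (a.smooth.inv fun x hx => by rw [fn_apply _ hx]; exact h _)

@[simp] lemma ev_inv (a : Sm O) (h : ∀ x, ev x a ≠ 0) (x : O) : ev x (a.inv h) = (ev x a)⁻¹ := by
  simp [inv, ev_eq a]

lemma mul_inv (a : Sm O) (h : ∀ x, ev x a ≠ 0) : a * a.inv h = 1 := by
  ext x; simp [h x]

/-- A holomorphic function as an element. -/
noncomputable def mkH (f : E N → ℂ) (hf : DifferentiableOn ℂ f O) : Sm O :=
  mk f ((Lib.SCV.contDiffOn_of_differentiableOn O.isOpen hf).restrict_scalars ℝ)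

lemma rep_mkH (f : E N → ℂ) (hf : DifferentiableOn ℂ f O) : (mkH f hf).Rep f := fun _ => rfl

lemma Rep.db_eq_zero {a : Sm O} {f : E N → ℂ} (h : a.Rep f) (hf : DifferentiableOn ℂ f O)
    (i : Fin N) : Sm.db i a = 0 := by
  ext x
  rw [h.db i x, (dz_of_diff (hf.differentiableAt (O.isOpen.mem_nhds x.2)) i).2, map_zero]

lemma Rep.hol {a : Sm O} {f : E N → ℂ} (h : a.Rep f) (hd : ∀ i, Sm.db i a = 0) :
    DifferentiableOn ℂ f O := fun x hx =>
  (diff_of_dzb ((h.contDiffAt ⟨x, hx⟩).differentiableAt (by simp)) fun i => by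
    rw [← h.db i ⟨x, hx⟩, hd, map_zero]).differentiableWithinAt

/-- Pull back along a holomorphic map. -/
noncomputable def pull (φ : E M → E N) (hφ : DifferentiableOn ℂ φ O') (hm : MapsTo φ O' O) :
    Sm O →ₐ[ℂ] Sm O' where
  toFun a := mk (fun x => a.fn (φ x)) (a.smooth.comp (smooth_of_hol O'.isOpen hφ) hm)
  map_one' := by ext x; simp [fn_apply _ (hm x.2)]
  map_mul' a b := by ext x; simp [fn_apply _ (hm x.2)]
  map_zero' := by ext x; simp [fn_apply _ (hm x.2)]
  map_add' a b := by ext x; simp [fn_apply _ (hm x.2)]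
  commutes' r := by ext x; simp [fn_apply _ (hm x.2)]

variable {φ : E M → E N} (hφ : DifferentiableOn ℂ φ O') (hm : MapsTo φ O' O)

lemma ev_pull (a : Sm O) (x : O') : ev x (pull φ hφ hm a) = ev ⟨φ x, hm x.2⟩ a := by
  rw [← a.fn_apply (hm x.2)]; rfl

lemma Rep.pull {a : Sm O} {f : E N → ℂ} (h : a.Rep f) :
    (pull φ hφ hm a).Rep fun x => f (φ x) := fun x => by rw [ev_pull, h]

lemma pull_star (a : Sm O) : pull φ hφ hm (star a) = star (pull φ hφ hm a) := by
  ext x; simp [ev_pull]

/-- The Jacobian matrix as a matrix of smooth functions. -/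
noncomputable def J (φ : E M → E N) (hφ : DifferentiableOn ℂ φ O') (c : Fin N) (a : Fin M) :
    Sm O' := mkH (fun z => jac φ z c a) (jac_hol O'.isOpen hφ c a)

@[simp] lemma ev_J (c : Fin N) (a : Fin M) (x : O') : ev x (J φ hφ c a) = jac φ x c a := rfl

lemma db_J (c : Fin N) (a b : Fin M) : db b (J φ hφ c a) = 0 :=
  (rep_mkH _ _).db_eq_zero (jac_hol O'.isOpen hφ c a) b

lemma d_pull (a : Sm O) (i : Fin M) :
    d i (pull φ hφ hm a) = ∑ c, J φ hφ c i * pull φ hφ hm (d c a) := by
  ext x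
  rw [(a.rep_fn.pull hφ hm).d i x, (dz_comp (a.hasF ⟨_, hm x.2⟩).differentiableAt
    (hφ.differentiableAt (O'.isOpen.mem_nhds x.2)) i).1]
  simp [ev_pull, a.rep_fn.d _ _]

lemma db_pull (a : Sm O) (i : Fin M) :
    db i (pull φ hφ hm a) = ∑ c, star (J φ hφ c i) * pull φ hφ hm (db c a) := by
  ext x
  rw [(a.rep_fn.pull hφ hm).db i x, (dz_comp (a.hasF ⟨_, hm x.2⟩).differentiableAt
    (hφ.differentiableAt (O'.isOpen.mem_nhds x.2)) i).2]
  simp [ev_pull, a.rep_fn.db _ _]

end Sm

end Pool.Agent.SPF
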