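import Pool.Agent.P.MP_63735c_ag.SQHess
import Pool.Agent.P.MP_63735c_ag.SQA
import Pool.Agent.P.MP_63735c_ag.SPBound

/-! The curvature function is bounded by ambient constants. -/

open Set Filter Topology
open scoped ComplexOrder ContDiff Matrix

namespace Pool.Agent.SPF

variable {N M n : ℕ}

section
variable {κ α : Type} [Fintype κ] [Fintype α] [DecidableEq κ]

omit [DecidableEq κ] in
lemma sqb1_contr {β : Type} [Fintype β] (F : β → κ → ℂ) (W : κ → ℂ) (γ : β → ℂ) :
    ∑ r, (∑ c, F r c * W c) * γ r = ∑ c, W c * ∑ r, F r c * γ r := by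
  simp only [Finset.sum_mul, Finset.mul_sum]
  rw [Finset.sum_comm]
  exact Finset.sum_congr rfl fun c _ => Finset.sum_congr rfl fun r _ => by ring

omit [DecidableEq κ] in
lemma sqb1_S (γ : Matrix κ κ ℂ) (hγ : ∀ i j, star (γ i j) = γ j i) (u : κ → κ → κ → ℂ)
    (h1 : ∀ k i p, u k i p = u i k p) (h2 : ∀ k i p, u k i p = u k p i) :
    ip3 γ u u = ∑ i, ∑ p, ip1 γ (fun k => ∑ r, u i k r * γ r p) (fun k => ∑ r, u p k r * γ r i) := by
  rw [ip3]
  refine Finset.sum_congr rfl fun i _ => ?_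
  refine (Dat.a4_reorder fun p k l a b =>
    u i k a * star (u b l p) * γ i b * γ k l * γ a p).trans ?_
  refine Finset.sum_congr rfl fun p _ => ?_
  rw [ip1]
  refine Finset.sum_congr rfl fun k _ => Finset.sum_congr rfl fun l _ => ?_
  rw [star_sum, Finset.sum_mul, Finset.sum_mul]
  refine Finset.sum_congr rfl fun a _ => ?_
  rw [Finset.mul_sum]
  refine Finset.sum_congr rfl fun b _ => ?_
  rw [star_mul', hγ, h1 p l b, h2 l p b, h1 l b p]
  ring

omit [DecidableEq κ] in
lemma sqb1_sym1 (F : Matrix κ κ ℂ) (u : κ → κ → κ → ℂ) (h1 : ∀ k i p, u k i p = u i k p)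
    (i j k : κ) : ∑ a, ∑ b, ∑ c, F i a * F j b * F k c * u a b c =
      ∑ a, ∑ b, ∑ c, F j a * F i b * F k c * u a b c := by
  rw [Finset.sum_comm]
  refine Finset.sum_congr rfl fun a _ => Finset.sum_congr rfl fun b _ =>
    Finset.sum_congr rfl fun c _ => ?_
  rw [h1 b a c]
  ring

omit [DecidableEq κ] in
lemma sqb1_sym2 (F : Matrix κ κ ℂ) (u : κ → κ → κ → ℂ) (h2 : ∀ k i p, u k i p = u k p i)
    (i j k : κ) : ∑ a, ∑ b, ∑ c, F i a * F j b * F k c * u a b c =
      ∑ a, ∑ b, ∑ c, F i a * F k b * F j c * u a b c := by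
  refine Finset.sum_congr rfl fun a _ => ?_
  rw [Finset.sum_comm]
  refine Finset.sum_congr rfl fun b _ => Finset.sum_congr rfl fun c _ => ?_
  rw [h2 a c b]
  ring

omit [DecidableEq κ] in
lemma sqb1_left (g f F γ : Matrix κ κ ℂ) (u Θ : κ → κ → κ → ℂ)
    (hP : ∀ c p, ∑ r, F r c * γ r p = ∑ m, g c m * star (f m p))
    (hΘ : ∀ a q m, ∑ b, (∑ c, u a b c * g c q) * g b m = Θ a q m) (i p l : κ) :
    ∑ k, (∑ r, (∑ a, ∑ b, ∑ c, F i a * F k b * F r c * u a b c) * γ r p) * γ k l =
      ∑ a, F i a * ∑ q, ∑ m, star (f q p) * star (f m l) * Θ a q m := by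
  have e1 : ∀ k r, ∑ a, ∑ b, ∑ c, F i a * F k b * F r c * u a b c =
      ∑ c, F r c * ∑ a, ∑ b, F i a * F k b * u a b c := by
    intro k r
    simp only [Finset.mul_sum]
    refine (Finset.sum_congr rfl fun a _ => Finset.sum_comm).trans (Finset.sum_comm.trans ?_)
    refine Finset.sum_congr rfl fun c _ => Finset.sum_congr rfl fun a _ =>
      Finset.sum_congr rfl fun b _ => ?_
    ring
  have e2 : ∀ k, ∑ c, (∑ a, ∑ b, F i a * F k b * u a b c) * (∑ q, g c q * star (f q p)) =
      ∑ b, F k b * ∑ a, F i a * ∑ q, (∑ c, u a b c * g c q) * star (f q p) := by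
    intro k
    simp only [Finset.mul_sum, Finset.sum_mul]
    refine Finset.sum_comm.trans ?_
    refine (Finset.sum_congr rfl fun q _ => Finset.sum_comm).trans ?_
    refine (Finset.sum_congr rfl fun q _ => Finset.sum_congr rfl fun a _ =>
      Finset.sum_comm).trans ?_
    refine Finset.sum_comm.trans ?_
    refine (Finset.sum_congr rfl fun a _ => Finset.sum_comm).trans ?_
    refine Finset.sum_comm.trans ?_
    refine Finset.sum_congr rfl fun b _ => Finset.sum_congr rfl fun a _ =>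
      Finset.sum_congr rfl fun q _ => Finset.sum_congr rfl fun c _ => ?_
    ring
  have e3 : ∀ k, ∑ r, (∑ a, ∑ b, ∑ c, F i a * F k b * F r c * u a b c) * γ r p =
      ∑ b, F k b * ∑ a, F i a * ∑ q, (∑ c, u a b c * g c q) * star (f q p) := by
    intro k
    simp only [e1]
    rw [sqb1_contr (fun r c => F r c) (fun c => ∑ a, ∑ b, F i a * F k b * u a b c)
      (fun r => γ r p)]
    simp only [hP]
    exact e2 k
  simp only [e3]
  rw [sqb1_contr (fun k b => F k b)
    (fun b => ∑ a, F i a * ∑ q, (∑ c, u a b c * g c q) * star (f q p)) (fun k => γ k l)]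
  simp only [hP, ← hΘ]
  have e4 : ∀ b, (∑ a, F i a * ∑ q, (∑ c, u a b c * g c q) * star (f q p)) *
      ∑ m, g b m * star (f m l) =
      ∑ a, ∑ q, ∑ m, F i a * (star (f q p) * star (f m l) * ((∑ c, u a b c * g c q) * g b m)) := by
    intro b
    rw [Finset.sum_mul]
    refine Finset.sum_congr rfl fun a _ => ?_
    rw [mul_assoc, Finset.sum_mul, Finset.mul_sum]
    refine Finset.sum_congr rfl fun q _ => ?_
    rw [Finset.mul_sum, Finset.mul_sum]
    exact Finset.sum_congr rfl fun m _ => by ring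
  simp only [e4]
  rw [a3_comm4]
  refine Finset.sum_congr rfl fun a _ => ?_
  rw [Finset.mul_sum]
  refine Finset.sum_congr rfl fun q _ => ?_
  rw [Finset.mul_sum]
  refine Finset.sum_congr rfl fun m _ => ?_
  rw [Finset.mul_sum, Finset.mul_sum]

omit [DecidableEq κ] in
lemma sqb1_right (f F : Matrix κ κ ℂ) (Θ : κ → κ → κ → ℂ) (e Xc Hj : κ → α → ℂ)
    (Dη : α → α → α → ℂ) (hf : ∀ q p, f q p = ∑ s, e q s * Hj p s)
    (htau : ∀ a s c, ∑ x, Xc a x * Dη s x c =
      ∑ q, ∑ m, star (e q s) * star (e m c) * Θ a q m) (i p : κ) (w : κ → ℂ) :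
    ∑ x, ∑ c, (∑ a, F i a * Xc a x) * (∑ s, star (Hj p s) * Dη s x c) *
        star (∑ l, w l * Hj l c) =
      ∑ l, (∑ a, F i a * ∑ q, ∑ m, star (f q p) * star (f m l) * Θ a q m) * star (w l) := by
  have e3 : ∀ q, ∑ s, star (e q s) * star (Hj p s) = star (f q p) := by
    intro q
    simp only [hf, star_sum, star_mul']
  have e4 : ∀ m, ∑ c, star (e m c) * star (∑ l, w l * Hj l c) =
      ∑ l, star (f m l) * star (w l) := by
    intro m
    simp only [hf, star_sum, star_mul', Finset.mul_sum, Finset.sum_mul]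
    rw [Finset.sum_comm]
    exact Finset.sum_congr rfl fun l _ => Finset.sum_congr rfl fun c _ => by ring
  have e1 : ∀ W : α → ℂ, ∑ x, ∑ c, (∑ a, F i a * Xc a x) * (∑ s, star (Hj p s) * Dη s x c) * W c =
      ∑ a, F i a * ∑ s, ∑ c, star (Hj p s) * W c * ∑ x, Xc a x * Dη s x c := by
    intro W
    have h1 : ∀ x c, (∑ a, F i a * Xc a x) * (∑ s, star (Hj p s) * Dη s x c) * W c =
        ∑ a, ∑ s, F i a * (star (Hj p s) * W c * (Xc a x * Dη s x c)) := by
      intro x c
      rw [Finset.sum_mul, Finset.sum_mul]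
      refine Finset.sum_congr rfl fun a _ => ?_
      rw [Finset.mul_sum, Finset.sum_mul]
      exact Finset.sum_congr rfl fun s _ => by ring
    simp only [h1]
    simp only [Finset.mul_sum]
    refine (Finset.sum_congr rfl fun x _ => Finset.sum_comm).trans (Finset.sum_comm.trans ?_)
    refine Finset.sum_congr rfl fun a _ => ?_
    refine (Finset.sum_congr rfl fun x _ => Finset.sum_comm).trans (Finset.sum_comm.trans ?_)
    exact Finset.sum_congr rfl fun s _ => Finset.sum_comm
  have e2 : ∀ (A W : α → ℂ) (a : κ),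
      ∑ s, ∑ c, A s * W c * ∑ q, ∑ m, star (e q s) * star (e m c) * Θ a q m =
      ∑ q, ∑ m, (∑ s, star (e q s) * A s) * (∑ c, star (e m c) * W c) * Θ a q m := by
    intro A W a
    have h1 : ∀ q m, (∑ s, star (e q s) * A s) * (∑ c, star (e m c) * W c) * Θ a q m =
        ∑ s, ∑ c, A s * W c * (star (e q s) * star (e m c) * Θ a q m) := by
      intro q m
      rw [Finset.sum_mul, Finset.sum_mul]
      refine Finset.sum_congr rfl fun s _ => ?_
      rw [Finset.mul_sum, Finset.sum_mul]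
      exact Finset.sum_congr rfl fun c _ => by ring
    simp only [h1]
    simp only [Finset.mul_sum]
    refine (Finset.sum_congr rfl fun s _ => Finset.sum_comm).trans (Finset.sum_comm.trans ?_)
    refine Finset.sum_congr rfl fun q _ => ?_
    exact (Finset.sum_congr rfl fun s _ => Finset.sum_comm).trans Finset.sum_comm
  rw [e1 fun c => star (∑ l, w l * Hj l c)]
  simp only [htau]
  have e5 : ∀ a, ∑ s, ∑ c, star (Hj p s) * star (∑ l, w l * Hj l c) *
      ∑ q, ∑ m, star (e q s) * star (e m c) * Θ a q m =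
      ∑ l, (∑ q, ∑ m, star (f q p) * star (f m l) * Θ a q m) * star (w l) := by
    intro a
    rw [e2 (fun s => star (Hj p s)) (fun c => star (∑ l, w l * Hj l c)) a]
    simp only [e3, e4]
    simp only [Finset.mul_sum, Finset.sum_mul]
    refine (Finset.sum_congr rfl fun q _ => Finset.sum_comm).trans (Finset.sum_comm.trans ?_)
    refine Finset.sum_congr rfl fun l _ => Finset.sum_congr rfl fun q _ =>
      Finset.sum_congr rfl fun m _ => ?_
    ring
  simp only [e5]
  refine (sqb1_contr (fun l a => ∑ q, ∑ m, star (f q p) * star (f m l) * Θ a q m)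
    (fun a => F i a) (fun l => star (w l))).symm.trans ?_
  exact Finset.sum_congr rfl fun l _ => congrArg (· * star (w l))
    (Finset.sum_congr rfl fun a _ => mul_comm _ _)

end

theorem AmbChart.S_bound (hN : N = 2 * n) (D : AmbChart M) {K : Set (E M)} (hK : IsCompact K)
    (hKW : K ⊆ D.W) : ∃ B : ℝ, 0 ≤ B ∧ ∀ (C : Chart N) (e : Emb C D) (ι : Fin n → Fin N), C.Iso →
      ∀ y ∈ e.O, y ∈ C.U ι → e.j y ∈ K → C.S ι y ≤ B := by
  obtain ⟨B, hB, hH⟩ := D.hess (N := N) hK hKW
  refine ⟨n * (n * B), by positivity, fun C e ι hC y hy hU hyK => ?_⟩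
  let L : C.Loc ι := ⟨⟨_, e.isOpen.inter (C.isOpen_U ι)⟩, hN, hC, fun _ hx => hx.2⟩
  let x : L.O := ⟨y, hy, hU⟩
  let j : Fin M → Sm L.O := fun a => Sm.mkH (fun w => e.j w a)
    ((differentiableOn_pi.1 e.hol a).mono fun _ hx => hx.1)
  have rj : ∀ a, (j a).Rep fun w => e.j w a := fun a => Sm.rep_mkH _ _
  have hdj : DifferentiableAt ℂ e.j y := e.hol.differentiableAt (e.isOpen.mem_nhds hy)
  have hdz : ∀ a c, dz c (fun w => e.j w a) y = jac e.j y a c := by
    intro a c
    rw [(dz_of_diff (differentiableAt_pi.1 hdj a) c).1, fderiv_apply hdj a]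
    rfl
  have hHj : ∀ a s, Sm.ev x (L.dat.H j a s) = e.H a y s := by
    intro a s
    simp only [Dat.H, map_sum, map_mul, Chart.Loc.dat_π, Chart.Loc.dat_d, L.rπ _ _ x,
      (rj a).d _ x, Emb.H]
    exact Finset.sum_congr rfl fun c _ => by rw [← hdz]
  set G := D.G (e.j y) with hG
  have hpsd : G.PosSemidef := e.G_psd hy
  have hrk : G.rank ≤ n := (e.rank_G hy).trans_le (Chart.rank_le hN hC hU.1)
  obtain ⟨J0, hJ0⟩ := exists_mnr_pos (n := n) hpsd ((Chart.le_rank hU).trans (e.rank_G hy).ge)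
  have : Nonempty (Fin n → Fin M) := ⟨J0⟩
  obtain ⟨J, hJ⟩ := Finite.exists_max fun J : Fin n → Fin M => mnr G J
  have hJpos : 0 < mnr G J := hJ0.trans_le (hJ J0)
  set γ : Matrix (Fin n) (Fin n) ℂ := G.submatrix J J with hγ
  have hγpsd : γ.PosSemidef := hpsd.submatrix J
  have hγdet : γ.det ≠ 0 := by
    rw [hγ, mnr_eq hpsd J]
    exact_mod_cast hJpos.ne'
  let φ : Fin n → Fin M → ℂ := fun k a => Sm.ev x (L.dat.X k (j a))
  have hφ1 : ∀ k a, φ k a = ∑ s, C.e ι y k s * e.H a y s := by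
    intro k a
    have h := congrArg (Sm.ev x) (L.dat.X_j j k a)
    simp only [map_sum, map_mul, L.re _ _ x, hHj] at h
    exact h
  have hφ2 : ∀ k a, φ k a = ∑ c, C.X ι y k c * jac e.j y a c := by
    intro k a
    refine (L.ev_X k (rj a) x).trans ?_
    exact Finset.sum_congr rfl fun c _ => by rw [← hdz]
  have hGφ : ∀ a b, G a b = ∑ k, ∑ l, φ k a * C.g ι y k l * star (φ l b) := by
    intro a b
    have h := congrArg (Sm.ev x) (L.dat.γ_eq j a b)
    simp only [Dat.γ, map_sum, map_mul, Sm.ev_star, hHj, Chart.Loc.dat_η, L.rη _ _ x,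
      L.rg _ _ x] at h
    exact (e.G_apply hy a b).trans h
  let f : Matrix (Fin n) (Fin n) ℂ := Matrix.of fun k l => φ k (J l)
  let P : Matrix (Fin n) (Fin n) ℂ := C.g ι y * f.map star
  have hγf : ∀ a b, γ a b = ∑ k, ∑ l, f k a * C.g ι y k l * star (f l b) := fun a b => hGφ _ _
  have hγP : γ = fᵀ * P := by
    ext a b
    rw [hγf]
    simp only [P, Matrix.mul_apply, Matrix.transpose_apply, Matrix.map_apply, Finset.mul_sum,
      mul_assoc]
  have hfdet : IsUnit f.det := by
    rw [hγP, Matrix.det_mul, Matrix.det_transpose] at hγdet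
    exact isUnit_iff_ne_zero.2 (left_ne_zero_of_mul hγdet)
  let F : Matrix (Fin n) (Fin n) ℂ := f⁻¹
  have hFf : F * f = 1 := Matrix.nonsing_inv_mul f hfdet
  have hFγ : Fᵀ * γ = P := by
    rw [hγP, ← Matrix.mul_assoc, ← Matrix.transpose_mul, Matrix.mul_nonsing_inv f hfdet,
      Matrix.transpose_one, Matrix.one_mul]
  have hPγ : P * γ⁻¹ = Fᵀ := by
    rw [← hFγ, Matrix.mul_assoc, Matrix.mul_nonsing_inv γ (isUnit_iff_ne_zero.2 hγdet),
      Matrix.mul_one]
  have hP : ∀ c p, ∑ r, F r c * γ r p = ∑ m, C.g ι y c m * star (f m p) := fun c p =>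
    congrFun (congrFun hFγ c) p
  let Y : Fin n → E N := fun i s => ∑ a, F i a * C.X ι y a s
  have hYn : ∀ i, Y i ∈ C.null y := by
    intro i
    have h : Y i = ∑ a, F i a • C.X ι y a := by
      funext s
      simp only [Y, Finset.sum_apply, Pi.smul_apply, smul_eq_mul]
    rw [h]
    exact Submodule.sum_mem _ fun a _ => Submodule.smul_mem _ _ (Chart.X_mem_null hC hU a)
  have hY1 : ∀ i, ‖jac e.j y *ᵥ Y i‖ ≤ 1 := by
    intro i
    refine (pi_norm_le_iff_of_nonneg zero_le_one).2 fun a => ?_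
    have h : (jac e.j y *ᵥ Y i) a = coef G J i a := by
      have h1 : (jac e.j y *ᵥ Y i) a = ∑ k, φ k a * F i k := by
        simp only [Matrix.mulVec, dotProduct, Y, hφ2, Finset.mul_sum, Finset.sum_mul]
        rw [Finset.sum_comm]
        exact Finset.sum_congr rfl fun k _ => Finset.sum_congr rfl fun c _ => by ring
      have h2 : ∀ l, G a (J l) = ∑ k, P k l * φ k a := by
        intro l
        rw [hGφ]
        refine Finset.sum_congr rfl fun k _ => ?_
        simp only [P, Matrix.mul_apply, Matrix.map_apply, Finset.sum_mul]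
        exact Finset.sum_congr rfl fun m _ => by
          change _ = C.g ι y k m * star (φ m (J l)) * φ k a
          ring
      rw [h1, coef]
      simp only [h2]
      rw [sqb1_contr (fun l k => P k l)]
      refine Finset.sum_congr rfl fun k _ => ?_
      exact congrArg _ (congrFun (congrFun hPγ k) i).symm
    rw [h]
    exact coef_le_one hpsd hrk hJpos hJ i a
  let u : Fin n → Fin n → Fin n → ℂ := fun a b c => Sm.ev x (L.dat.u a b c)
  let Θ : Fin n → Fin n → Fin n → ℂ := fun a q m =>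
    ∑ s, C.X ι y a s * dzb (ι q) (fun y' => C.η y' s (ι m)) y
  have hΘ : ∀ a q m, ∑ b, (∑ c, u a b c * C.g ι y c q) * C.g ι y b m = Θ a q m := by
    intro a q m
    have h := congrArg (Sm.ev x) (L.dat.Tg a q m)
    simp only [L.dat.T_eq, map_sum, map_mul, L.rg _ _ x, L.rX _ _ x, Chart.Loc.dat_db,
      Chart.Loc.dat_ι, Chart.Loc.dat_η, (L.rη _ _).db _ x] at h
    exact h
  have htau : ∀ a s c, ∑ t, C.X ι y a t * dzb s (fun y' => C.η y' t c) y =
      ∑ q, ∑ m, star (C.e ι y q s) * star (C.e ι y m c) * Θ a q m := by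
    intro a s c
    have h := congrArg (Sm.ev x) (L.dat.tau a s c)
    simp only [map_sum, map_mul, Sm.ev_star, L.re _ _ x, L.rX _ _ x, Chart.Loc.dat_db,
      Chart.Loc.dat_ι, Chart.Loc.dat_η, (L.rη _ _).db _ x] at h
    exact h
  let T : Fin n → Fin n → Fin n → ℂ := fun i k p =>
    ∑ r, (∑ a, ∑ b, ∑ c, F i a * F k b * F r c * u a b c) * γ r p
  have hT : ∀ i p, (ip1 γ (fun k => T i k p) (fun k => T i k p)).re ≤ B := by
    intro i p
    refine ip1_le_of_dual hγpsd _ hB fun w => ?_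
    have h := (hH C e y hy hyK (Y i) (hYn i) (J p) fun c => ∑ l, w l * e.H (J l) y c).1
    have h1 : ∑ s, ∑ c, Y i s * (∑ t, star (e.H (J p) y t) * dzb t (fun y' => C.η y' s c) y) *
        star (∑ l, w l * e.H (J l) y c) = ip1 γ (fun k => T i k p) w := by
      refine (sqb1_right f F Θ (C.e ι y) (C.X ι y) (fun l => e.H (J l) y)
        (fun t s c => dzb t (fun y' => C.η y' s c) y) (fun q p => hφ1 q (J p)) htau i p w).trans ?_
      rw [ip1, Finset.sum_comm]
      refine Finset.sum_congr rfl fun l _ => ?_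
      rw [← Finset.sum_mul, sqb1_left (C.g ι y) f F γ u Θ hP hΘ i p l]
    have h2 : ∑ b, ∑ c, (∑ l, w l * e.H (J l) y b) * C.η y b c *
        star (∑ l, w l * e.H (J l) y c) = ip1 γ w w := by
      have h3 : ∀ k l, γ k l =
          ∑ b, ∑ c, e.H (J k) y b * C.η y b c * star (e.H (J l) y c) := fun k l =>
        e.G_apply hy _ _
      simp only [ip1, h3, star_sum, star_mul', Finset.mul_sum, Finset.sum_mul]
      refine (Finset.sum_congr rfl fun b _ => Finset.sum_comm).trans ?_
      refine Finset.sum_comm.trans ?_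
      refine (Finset.sum_congr rfl fun l _ => Finset.sum_congr rfl fun b _ =>
        Finset.sum_comm).trans ?_
      refine (Finset.sum_congr rfl fun l _ => Finset.sum_comm).trans ?_
      refine Finset.sum_comm.trans ?_
      refine Finset.sum_congr rfl fun k _ => Finset.sum_congr rfl fun l _ =>
        Finset.sum_congr rfl fun b _ => Finset.sum_congr rfl fun c _ => ?_
      ring
    rw [h1, h2] at h
    refine h.trans (mul_le_mul_of_nonneg_right ?_
      (Complex.nonneg_iff.1 (ip1_nonneg hγpsd w)).1)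
    exact mul_le_of_le_one_right hB (pow_le_one₀ (norm_nonneg _) (hY1 i))
  have hS : C.S ι y = (∑ i, ∑ p, ip1 γ (fun k => T i k p) (fun k => T p k i)).re := by
    refine (L.S_eq x).trans ?_
    rw [Dat.S, ev_ip3, L.map_g x]
    refine congrArg Complex.re ((ip3_frame (C.g ι y) γ f F hFf hγf u).trans ?_)
    exact sqb1_S γ (fun i j => hγpsd.1.apply j i) _
      (sqb1_sym1 F u fun k i p => congrArg (Sm.ev x) (L.dat.sym1 k i p))
      (sqb1_sym2 F u fun k i p => congrArg (Sm.ev x) (L.dat.sym2 k i p))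
  rw [hS]
  refine (Complex.re_le_norm _).trans ((norm_sum_le _ _).trans ?_)
  have h1 : ∀ i, ‖∑ p, ip1 γ (fun k => T i k p) (fun k => T p k i)‖ ≤ n * B := by
    intro i
    refine (norm_sum_le _ _).trans ?_
    have h2 : ∀ p, ‖ip1 γ (fun k => T i k p) (fun k => T p k i)‖ ≤ B := by
      intro p
      refine (pow_le_pow_iff_left₀ (norm_nonneg _) hB two_ne_zero).1 ?_
      refine (ip1_cs hγpsd _ _).trans ?_
      rw [sq B]
      exact mul_le_mul (hT i p) (hT p i) (Complex.nonneg_iff.1 (ip1_nonneg hγpsd _)).1 hB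
    refine (Finset.sum_le_sum fun p _ => h2 p).trans ?_
    rw [Finset.sum_const, Finset.card_univ, Fintype.card_fin, nsmul_eq_mul]
  refine (Finset.sum_le_sum fun i _ => h1 i).trans ?_
  rw [Finset.sum_const, Finset.card_univ, Fintype.card_fin, nsmul_eq_mul]

end Pool.Agent.SPF
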