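import Pool.Agent.P.MP_63735c_ag.SQHess
import Pool.Agent.P.MP_63735c_ag.SQA
import Pool.Agent.P.MP_63735c_ag.SPBound

/-! Gradient bound for a maximal ambient minor. -/

open Set Filter Topology
open scoped ComplexOrder ContDiff Matrix

namespace Pool.Agent.SPF

variable {N M n : ℕ}

lemma b2_alg (g γ f : Matrix (Fin n) (Fin n) ℂ) (P : Fin n → Fin n → Fin n → ℂ)
    (hγ : ∀ a b, γ a b = ∑ k, ∑ l, f k a * g k l * star (f l b)) (hu : IsUnit γ.det)
    (hsym : ∀ p l q, ∑ k, ∑ m, g k m * star (f m l) * P k p q =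
      ∑ k, ∑ m, g k m * star (f m q) * P k p l) :
    ∃ t : Fin n → ℂ, ip1 g (fun k => ∑ i, ∑ l, γ⁻¹ l i * P k i l)
        (fun k => ∑ i, ∑ l, γ⁻¹ l i * P k i l) = ip1 γ t t ∧
      ∀ l, ∑ i, t i * γ i l =
        ∑ p, ∑ k, (∑ q, (∑ m, g k m * star (f m q)) * γ⁻¹ q p) * P k p l := by
  have h1 : γ = fᵀ * (g * f.map star) := by
    ext a b
    rw [hγ]
    simp only [Matrix.mul_apply, Matrix.transpose_apply, Matrix.map_apply, Finset.mul_sum,
      mul_assoc]
  have h2 : fᵀ * (g * f.map star * γ⁻¹) = 1 := by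
    rw [← Matrix.mul_assoc, ← h1, Matrix.mul_nonsing_inv _ hu]
  have h3 : f * (g * f.map star * γ⁻¹)ᵀ = 1 := by
    have h := congrArg Matrix.transpose (mul_eq_one_comm.1 h2)
    rwa [Matrix.transpose_mul, Matrix.transpose_transpose, Matrix.transpose_one] at h
  set s : Fin n → ℂ := fun k => ∑ i, ∑ l, γ⁻¹ l i * P k i l with hs
  set t : Fin n → ℂ := (g * f.map star * γ⁻¹)ᵀ *ᵥ s with ht
  have h4 : ∀ k, ∑ i, f k i * t i = s k := by
    intro k
    have h : f *ᵥ t = s := by rw [ht, Matrix.mulVec_mulVec, h3, Matrix.one_mulVec]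
    exact congrFun h k
  have h5 : ∀ l, ∑ i, t i * γ i l = ∑ k, ∑ m, s k * g k m * star (f m l) := by
    intro l
    simp only [hγ, ← h4, Finset.mul_sum, Finset.sum_mul]
    rw [Finset.sum_comm]
    refine Finset.sum_congr rfl fun k _ => ?_
    rw [Finset.sum_comm]
    refine Finset.sum_congr rfl fun m _ => Finset.sum_congr rfl fun i _ => ?_
    ring
  refine ⟨t, ?_, fun l => ?_⟩
  · unfold ip1
    rw [Finset.sum_comm (f := fun k l => t k * γ k l * star (t l))]
    have h6 : ∀ l, ∑ k, t k * γ k l * star (t l) =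
        ∑ k, ∑ m, s k * g k m * (star (f m l) * star (t l)) := by
      intro l
      rw [← Finset.sum_mul, h5, Finset.sum_mul]
      refine Finset.sum_congr rfl fun k _ => ?_
      rw [Finset.sum_mul]
      exact Finset.sum_congr rfl fun m _ => mul_assoc _ _ _
    rw [Finset.sum_congr rfl fun l _ => h6 l, Finset.sum_comm (γ := Fin n)
      (f := fun l k => ∑ m, s k * g k m * (star (f m l) * star (t l)))]
    refine Finset.sum_congr rfl fun k _ => ?_
    rw [Finset.sum_comm]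
    refine Finset.sum_congr rfl fun m _ => ?_
    rw [← Finset.mul_sum, ← h4 m, star_sum]
    congr 1
    exact Finset.sum_congr rfl fun l _ => star_mul' _ _
  · rw [h5]
    have h7 : ∑ k, ∑ m, s k * g k m * star (f m l) =
        ∑ p, ∑ q, γ⁻¹ q p * ∑ k, ∑ m, g k m * star (f m l) * P k p q := by
      simp only [hs, Finset.mul_sum, Finset.sum_mul]
      rw [a3_comm4, a3_comm4]
      iterate 4 refine Finset.sum_congr rfl fun _ _ => ?_
      ring
    rw [h7]
    refine Finset.sum_congr rfl fun p _ => ?_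
    simp only [hsym p l, Finset.mul_sum, Finset.sum_mul]
    rw [Finset.sum_comm]
    refine Finset.sum_congr rfl fun k _ => Finset.sum_congr rfl fun q _ =>
      Finset.sum_congr rfl fun m _ => ?_
    ring

lemma b2_dz {C : Chart N} {D : AmbChart M} (e : Emb C D) {y : E N} (hy : y ∈ e.O) (a : Fin M)
    (c : Fin N) : dz c (fun y' => e.j y' a) y = jac e.j y a c := by
  have h := (e.hol.differentiableAt (e.isOpen.mem_nhds hy)).hasFDerivAt
  have h1 := hasFDerivAt_pi'.1 h a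
  rw [(dz_of_diff h1.differentiableAt c).1, h1.fderiv]
  rfl

lemma b2_pair (A : Fin N → Fin N → ℂ) (H : Fin n → Fin N → ℂ) (w : Fin n → ℂ) :
    ∑ l, (∑ x, ∑ c, A x c * star (H l c)) * star (w l) =
      ∑ x, ∑ c, A x c * star (∑ l, w l * H l c) := by
  simp only [star_sum, star_mul', Finset.mul_sum, Finset.sum_mul]
  rw [Finset.sum_comm]
  refine Finset.sum_congr rfl fun x _ => ?_
  rw [Finset.sum_comm]
  refine Finset.sum_congr rfl fun c _ => Finset.sum_congr rfl fun l _ => ?_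
  ring

lemma b2_comb (F : Fin n → ℂ) (Y : Fin n → Fin N → ℂ) (A : Fin N → Fin N → ℂ) :
    ∑ k, F k * ∑ x, ∑ c, Y k x * A x c = ∑ x, ∑ c, (∑ k, F k * Y k x) * A x c := by
  simp only [Finset.mul_sum, Finset.sum_mul]
  rw [Finset.sum_comm]
  refine Finset.sum_congr rfl fun x _ => ?_
  rw [Finset.sum_comm]
  refine Finset.sum_congr rfl fun c _ => Finset.sum_congr rfl fun l _ => ?_
  ring

lemma b2_comb2 (F : Fin n → ℂ) (Y : Fin n → Fin N → ℂ) (Q A : Fin N → Fin N → ℂ) :
    ∑ k, F k * ∑ x, ∑ c, (∑ s, Y k s * Q s x) * A x c =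
      ∑ x, ∑ c, (∑ s, (∑ k, F k * Y k s) * Q s x) * A x c := by
  rw [b2_comb F (fun k x => ∑ s, Y k s * Q s x) A]
  refine Finset.sum_congr rfl fun x _ => Finset.sum_congr rfl fun c _ => ?_
  congr 1
  simp only [Finset.mul_sum, Finset.sum_mul]
  rw [Finset.sum_comm]
  refine Finset.sum_congr rfl fun s _ => Finset.sum_congr rfl fun l _ => ?_
  ring

lemma b2_form (η : Matrix (Fin N) (Fin N) ℂ) (H : Fin n → Fin N → ℂ) (w : Fin n → ℂ)
    (γ : Matrix (Fin n) (Fin n) ℂ) (h : ∀ i l, γ i l = ∑ x, ∑ c, H i x * η x c * star (H l c)) :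
    ∑ b, ∑ c, (∑ i, w i * H i b) * η b c * star (∑ l, w l * H l c) = ip1 γ w w := by
  rw [← b2_pair (fun b c => (∑ i, w i * H i b) * η b c) H w, ip1, Finset.sum_comm
    (f := fun k l => w k * γ k l * star (w l))]
  refine Finset.sum_congr rfl fun l _ => ?_
  rw [← Finset.sum_mul]
  congr 1
  simp only [h, mul_assoc]
  exact (b2_comb w H fun x c => η x c * star (H l c)).symm

lemma b2_norm {z : Fin n → ℂ} {T : ℝ} (h : ∀ p, ‖z p‖ ^ 2 ≤ T) : ‖∑ p, z p‖ ^ 2 ≤ n ^ 2 * T := by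
  calc ‖∑ p, z p‖ ^ 2 ≤ (∑ p, ‖z p‖) ^ 2 := pow_le_pow_left₀ (norm_nonneg _) (norm_sum_le _ _) 2
    _ ≤ (Finset.univ : Finset (Fin n)).card * ∑ p, ‖z p‖ ^ 2 := sq_sum_le_card_mul_sum_sq
    _ ≤ (Finset.univ : Finset (Fin n)).card * ∑ _p : Fin n, T :=
      mul_le_mul_of_nonneg_left (Finset.sum_le_sum fun p _ => h p) (Nat.cast_nonneg _)
    _ = n ^ 2 * T := by
      rw [Finset.sum_const, Finset.card_univ, Fintype.card_fin, nsmul_eq_mul]
      ring

theorem AmbChart.grad_bound (hN : N = 2 * n) (D : AmbChart M) {K : Set (E M)} (hK : IsCompact K)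
    (hKW : K ⊆ D.W) : ∃ B : ℝ, 0 ≤ B ∧ ∀ (C : Chart N) (e : Emb C D) (J : Fin n → Fin M), C.Iso →
      ∀ y ∈ e.O, (C.η y).rank = n → e.j y ∈ K → MaxM (D.G (e.j y)) J →
        (gamM (C.G y) (fun y' => (D.b J (e.j y') : ℂ)) (fun y' => (D.b J (e.j y') : ℂ)) y).re ≤
          (B * D.b J (e.j y)) ^ 2 := by
  obtain ⟨B, hB, hH⟩ := D.hess (N := N) hK hKW
  have hQ0 : 0 ≤ (n : ℝ) ^ 2 * B := by positivity
  refine ⟨Real.sqrt ((n : ℝ) ^ 2 * B), Real.sqrt_nonneg _, fun C e J hC y hy hr hyK hm => ?_⟩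
  have hyW := e.sub hy
  obtain ⟨ι, hι⟩ := Chart.exists_U (n := n) hyW hr.ge
  let L : C.Loc ι := ⟨⟨e.O ∩ C.U ι, e.isOpen.inter (C.isOpen_U ι)⟩, hN, hC, inter_subset_right⟩
  let x : L.O := ⟨y, hy, hι⟩
  have hO : (L.O : Set (E N)) ⊆ e.O := inter_subset_left
  have hjh : ∀ a, DifferentiableOn ℂ (fun y' => e.j y' a) L.O := fun a =>
    (differentiableOn_pi.1 e.hol a).mono hO
  let j : Fin M → Sm L.O := fun a => Sm.mkH _ (hjh a)
  have rj : ∀ a, (j a).Rep fun y' => e.j y' a := fun a => Sm.rep_mkH _ _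
  have hj : ∀ a c, L.dat.db c (j a) = 0 := fun a c => (rj a).db_eq_zero (hjh a) c
  have rH : ∀ a c, (L.dat.H j a c).Rep fun y' => e.H a y' c := by
    intro a c x'
    simp only [Dat.H, Emb.H, map_sum, map_mul, Chart.Loc.dat_π, Chart.Loc.dat_d, L.rπ _ _ x',
      (rj a).d _ x', b2_dz e (hO x'.2)]
  have rγ : ∀ a b, (L.dat.γ j a b).Rep fun y' => D.G (e.j y') a b := by
    intro a b x'
    simp only [Dat.γ, map_sum, map_mul, Sm.ev_star, Chart.Loc.dat_η, L.rη _ _ x', rH _ _ x',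
      e.G_apply (hO x'.2)]
  set Γ : Matrix (Fin n) (Fin n) (Sm L.O) := Matrix.of fun i l => L.dat.γ j (J i) (J l) with hΓ
  have rdet : Γ.det.Rep fun y' => (D.b J (e.j y') : ℂ) := by
    intro x'
    rw [AlgHom.map_det]
    refine Eq.trans ?_ (mnr_eq (e.G_psd (hO x'.2)) J)
    congr 1
    ext i l
    exact rγ (J i) (J l) x'
  have hstar : star Γ.det = Γ.det := by
    ext x'
    rw [Sm.ev_star, rdet x']
    exact Complex.conj_ofReal _
  have hpsd := e.G_psd hy
  have hrk : (D.G (e.j y)).rank = n := (e.rank_G hy).trans hr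
  have hb : 0 < mnr (D.G (e.j y)) J := by
    obtain ⟨J', hJ'⟩ := exists_mnr_pos (n := n) hpsd hrk.ge
    exact hJ'.trans_le (hm J')
  set γ : Matrix (Fin n) (Fin n) ℂ := (D.G (e.j y)).submatrix J J with hγ
  have hdet : γ.det = (D.b J (e.j y) : ℂ) := mnr_eq hpsd J
  have hu : IsUnit γ.det := by
    rw [hdet]
    exact isUnit_iff_ne_zero.2 (Complex.ofReal_ne_zero.2 hb.ne')
  have hγpsd : γ.PosSemidef := hpsd.submatrix J
  let fa : Fin n → Fin M → ℂ := fun k a => Sm.ev x (L.dat.X k (j a))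
  have hG : ∀ a b, D.G (e.j y) a b = ∑ k, ∑ l, fa k a * C.g ι y k l * star (fa l b) := by
    intro a b
    have h := congrArg (Sm.ev x) (L.dat.γ_eq j a b)
    simp only [map_sum, map_mul, Sm.ev_star, L.rg _ _ x, rγ a b x] at h
    exact h
  let P : Fin n → Fin n → Fin n → ℂ := fun k i l => Sm.ev x (L.dat.X k (L.dat.γ j (J i) (J l)))
  obtain ⟨t, ht1, ht2⟩ := b2_alg (C.g ι y) γ (Matrix.of fun k l => fa k (J l)) P
    (fun a b => hG (J a) (J b)) hu (fun p l q => by
      have h := congrArg (Sm.ev x) (L.dat.γ_symm j hj (J p) (J l) (J q))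
      simp only [map_sum, map_mul, Sm.ev_star, L.rg _ _ x] at h
      exact h)
  have hX : ∀ k, Sm.ev x (L.dat.X k Γ.det) =
      (D.b J (e.j y) : ℂ) * ∑ i, ∑ l, γ⁻¹ l i * P k i l := by
    intro k
    have hmap : (Sm.ev x).mapMatrix Γ = γ := by
      ext i l
      exact rγ (J i) (J l) x
    have hadj : ∀ l i, Sm.ev x (Γ.adjugate l i) = (D.b J (e.j y) : ℂ) * γ⁻¹ l i := by
      intro l i
      have h1 : Sm.ev x (Γ.adjugate l i) = γ.adjugate l i := by
        rw [← hmap, ← AlgHom.map_adjugate]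
        rfl
      rw [h1, Matrix.inv_def, Matrix.smul_apply, smul_eq_mul, ← mul_assoc, ← hdet,
        Ring.mul_inverse_cancel _ hu, one_mul]
    rw [der_det]
    simp only [map_sum, map_mul, hadj, Finset.mul_sum, mul_assoc]
    rfl
  have hg : gamM (C.G y) (fun y' => (D.b J (e.j y') : ℂ)) (fun y' => (D.b J (e.j y') : ℂ)) y =
      ip1 γ t t * ((D.b J (e.j y) ^ 2 : ℝ) : ℂ) := by
    refine (L.rgam rdet rdet x).symm.trans ?_
    rw [Dat.gam_eq, ← ht1, ip1, map_sum, Finset.sum_mul]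
    refine Finset.sum_congr rfl fun k _ => ?_
    rw [map_sum, Finset.sum_mul]
    refine Finset.sum_congr rfl fun l _ => ?_
    have h1 : L.dat.Xb l Γ.det = star (L.dat.X l Γ.det) := by rw [L.dat.star_X, hstar]
    rw [h1, map_mul, map_mul, Sm.ev_star, hX, hX, L.rg _ _ x, star_mul', Complex.star_def,
      Complex.conj_ofReal, Complex.ofReal_pow]
    ring
  let F : Fin n → Fin n → ℂ := fun p k =>
    ∑ q, (∑ m, C.g ι y k m * star (fa m (J q))) * γ⁻¹ q p
  let Y : Fin n → E N := fun p c => ∑ k, F p k * C.X ι y k c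
  have hYn : ∀ p, Y p ∈ C.null y := by
    intro p
    have h : Y p = ∑ k, F p k • C.X ι y k := by
      funext c
      simp only [Y, Finset.sum_apply, Pi.smul_apply, smul_eq_mul]
    rw [h]
    exact Submodule.sum_mem _ fun k _ => Submodule.smul_mem _ _ (Chart.X_mem_null hC hι k)
  have hfa : ∀ k a, fa k a = ∑ c, C.X ι y k c * jac e.j y a c := by
    intro k a
    have h := L.ev_X k (rj a) x
    simp only [b2_dz e (hO x.2)] at h
    exact h
  have hY1 : ∀ p, ‖jac e.j y *ᵥ Y p‖ ≤ 1 := by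
    intro p
    refine (pi_norm_le_iff_of_nonneg zero_le_one).2 fun a => ?_
    have h : (jac e.j y *ᵥ Y p) a = coef (D.G (e.j y)) J p a := by
      have h1 : (jac e.j y *ᵥ Y p) a = ∑ k, F p k * fa k a := by
        simp only [Matrix.mulVec, dotProduct, Y, hfa, Finset.mul_sum]
        rw [Finset.sum_comm]
        refine Finset.sum_congr rfl fun k _ => Finset.sum_congr rfl fun c _ => ?_
        ring
      rw [h1, coef]
      simp only [F, hG a, Finset.sum_mul]
      rw [Finset.sum_comm]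
      refine Finset.sum_congr rfl fun q _ => Finset.sum_congr rfl fun k _ =>
        Finset.sum_congr rfl fun m _ => ?_
      rw [← hγ]
      ring
    rw [h]
    exact coef_le_one hpsd hrk.le hb hm p a
  have hP : ∀ k p l, P k p l =
      ∑ b, ∑ c, C.X ι y k b * (∑ s, e.H (J p) y s * dz s (fun y' => C.η y' b c) y) *
          star (e.H (J l) y c) +
        ∑ b, ∑ c, (∑ s, C.X ι y k s * dz s (fun y' => e.H (J p) y' b) y) * C.η y b c *
          star (e.H (J l) y c) := by
    intro k p l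
    have h := congrArg (Sm.ev x) (L.dat.X_γ j hj k (J p) (J l))
    simp only [map_add, map_sum, map_mul, Sm.ev_star, L.rX _ _ x, rH _ _ x, Chart.Loc.dat_d,
      Chart.Loc.dat_η, (L.rη _ _).d _ x, L.rη _ _ x, L.ev_X k (rH _ _) x] at h
    exact h
  have hdual : (ip1 γ t t).re ≤ (n : ℝ) ^ 2 * B := by
    refine ip1_le_of_dual hγpsd t hQ0 fun w => ?_
    let Hw : E N := fun c => ∑ l, w l * e.H (J l) y c
    have h1 : ip1 γ t w = ∑ p,
        (∑ b, ∑ c, Y p b * (∑ s, e.H (J p) y s * dz s (fun y' => C.η y' b c) y) * star (Hw c) +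
          ∑ b, ∑ c, (∑ s, Y p s * dz s (fun y' => e.H (J p) y' b) y) * C.η y b c *
            star (Hw c)) := by
      rw [ip1, Finset.sum_comm]
      have h2 : ∀ l, ∑ k, t k * γ k l * star (w l) = ∑ p, (∑ k, F p k * P k p l) * star (w l) := by
        intro l
        rw [← Finset.sum_mul, ht2, Finset.sum_mul]
        rfl
      rw [Finset.sum_congr rfl fun l _ => h2 l, Finset.sum_comm]
      refine Finset.sum_congr rfl fun p _ => ?_
      rw [← b2_pair (fun b c => Y p b * ∑ s, e.H (J p) y s * dz s (fun y' => C.η y' b c) y)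
          (fun l => e.H (J l) y) w,
        ← b2_pair (fun b c => (∑ s, Y p s * dz s (fun y' => e.H (J p) y' b) y) * C.η y b c)
          (fun l => e.H (J l) y) w, ← Finset.sum_add_distrib]
      refine Finset.sum_congr rfl fun l _ => ?_
      rw [← add_mul]
      congr 1
      simp only [hP, mul_add, Finset.sum_add_distrib, mul_assoc]
      rw [b2_comb (F p) (C.X ι y), b2_comb2 (F p) (C.X ι y)]
    have h3 : ∑ b, ∑ c, Hw b * C.η y b c * star (Hw c) = ip1 γ w w :=
      b2_form (C.η y) (fun l => e.H (J l) y) w γ fun i l => e.G_apply hy (J i) (J l)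
    have h4 : 0 ≤ (ip1 γ w w).re := (Complex.nonneg_iff.1 (ip1_nonneg hγpsd w)).1
    rw [h1, mul_assoc]
    refine b2_norm fun p => ?_
    refine (hH C e y hy hyK (Y p) (hYn p) (J p) Hw).2.trans ?_
    rw [h3]
    refine mul_le_mul_of_nonneg_right ?_ h4
    exact mul_le_of_le_one_right hB (pow_le_one₀ (norm_nonneg _) (hY1 p))
  rw [hg, Complex.re_mul_ofReal, mul_pow, Real.sq_sqrt hQ0]
  exact mul_le_mul_of_nonneg_right hdual (sq_nonneg _)

end Pool.Agent.SPF
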