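import Pool.Agent.P.MP_63735c_ag.SQMat
import Pool.Agent.P.MP_63735c_ag.SPHess

/-! First derivatives of the form along Hamiltonian fields, with ambient constants. -/

open Set Filter Topology
open scoped ComplexOrder ContDiff Matrix

namespace Pool.Agent.SPF

variable {N M : ℕ}

/-- A hermitian form with coefficients in a star ring. -/
def sqhF {R : Type} [CommRing R] [StarRing R] (η : Fin N → Fin N → R) (p q : Fin N → R) : R :=
  ∑ b, ∑ c, p b * η b c * star (q c)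

lemma sqh_sd {O : TopologicalSpace.Opens (E M)} (a : Fin M) (f : Sm O) :
    Sm.d a (star f) = star (Sm.db a f) := by
  have := Sm.star_d a (star f)
  rw [star_star] at this
  rw [← this, star_star]

lemma sqh_main {O : TopologicalSpace.Opens (E M)} (x : O) (a : Fin M) (η : Fin N → Fin N → Sm O)
    (hp : ∀ y : O, (Matrix.of fun b c => Sm.ev y (η b c)).PosSemidef) (V w : Fin N → Sm O)
    (hV : ∀ c, ∑ b, Sm.ev x (V b) * Sm.ev x (η b c) = 0) (ζ : Sm O) (z0 : Sm.ev x ζ = 0)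
    (z1 : Sm.ev x (Sm.d a ζ) = 1) (z2 : Sm.ev x (Sm.db a ζ) = 0) {T : ℝ} (hT : 0 ≤ T)
    (hA : (Sm.ev x (Sm.d a (Sm.db a (sqhF η V V)))).re ≤ T) :
    ‖Sm.ev x (Sm.d a (sqhF η V w))‖ ^ 2 ≤ T * (Sm.ev x (sqhF η w w)).re ∧
      ‖Sm.ev x (Sm.db a (sqhF η V w))‖ ^ 2 ≤ T * (Sm.ev x (sqhF η w w)).re := by
  have ev0 : ∀ (p q : Fin N → Sm O) (y : O), Sm.ev y (sqhF η p q) =
      ∑ b, ∑ c, Sm.ev y (p b) * Sm.ev y (η b c) * star (Sm.ev y (q c)) := by
    intro p q y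
    simp only [sqhF, map_sum, map_mul, Sm.ev_star]
  have stF : ∀ p q : Fin N → Sm O, star (sqhF η p q) = sqhF η q p := by
    intro p q
    ext y
    rw [Sm.ev_star, ev0, ev0, Finset.sum_comm, star_sum]
    refine Finset.sum_congr rfl fun b _ => ?_
    rw [star_sum]
    refine Finset.sum_congr rfl fun c _ => ?_
    have h : star (Sm.ev y (η c b)) = Sm.ev y (η b c) := (hp y).1.apply b c
    rw [star_mul', star_mul', star_star, h]
    ring
  have nul : ∀ q : Fin N → Sm O, Sm.ev x (sqhF η V q) = 0 := by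
    intro q
    rw [ev0, Finset.sum_comm]
    refine Finset.sum_eq_zero fun c _ => ?_
    rw [← Finset.sum_mul, hV, zero_mul]
  have nul' : Sm.ev x (sqhF η w V) = 0 := by rw [← stF, Sm.ev_star, nul, star_zero]
  have sd : ∀ f : Sm O, Sm.ev x (Sm.db a (star f)) = star (Sm.ev x (Sm.d a f)) := by
    intro f
    rw [← Sm.star_d, Sm.ev_star]
  have sdb : ∀ f : Sm O, Sm.ev x (Sm.d a (star f)) = star (Sm.ev x (Sm.db a f)) := by
    intro f
    rw [sqh_sd, Sm.ev_star]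
  have main : ∀ l : Sm O, Sm.ev x l = 0 → 0 ≤ (Sm.ev x (Sm.d a (Sm.db a (sqhF η V V))) +
      star (Sm.ev x (Sm.d a l)) * Sm.ev x (Sm.d a (sqhF η V w)) +
      star (Sm.ev x (Sm.db a l)) * Sm.ev x (Sm.db a (sqhF η V w)) +
      Sm.ev x (Sm.db a l) * star (Sm.ev x (Sm.db a (sqhF η V w))) +
      Sm.ev x (Sm.d a l) * star (Sm.ev x (Sm.d a (sqhF η V w))) +
      (Sm.ev x (Sm.d a l) * star (Sm.ev x (Sm.d a l)) +
        Sm.ev x (Sm.db a l) * star (Sm.ev x (Sm.db a l))) * Sm.ev x (sqhF η w w)).re := by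
    intro l hl
    have hl' : Sm.ev x (star l) = 0 := by rw [Sm.ev_star, hl, star_zero]
    have h := hess_core x a (sqhF η V V + star l * sqhF η V w + l * sqhF η w V +
      l * star l * sqhF η w w) ?_ ?_
    · rw [hess_ring (Sm.d a) (Sm.db a) (Sm.ev x) hl hl' (nul w) nul', ← stF V w, sd, sdb, sd,
        sdb] at h
      exact h
    · intro y
      have := hess_psd (hp y) (fun b => Sm.ev y (V b) + Sm.ev y l * Sm.ev y (w b))
      simp only [map_add, map_mul, Sm.ev_star, ev0, Finset.mul_sum, ← Finset.sum_add_distrib]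
      refine le_of_le_of_eq this (Finset.sum_congr rfl fun b _ => Finset.sum_congr rfl fun c _ => ?_)
      rw [star_add, star_mul', Matrix.of_apply]
      ring
    · simp only [map_add, map_mul, hl, hl', nul, zero_mul, add_zero]
  have hS : 0 ≤ Sm.ev x (sqhF η w w) := by
    rw [ev0]
    exact hess_psd (hp x) fun b => Sm.ev x (w b)
  constructor
  · refine hess_quad hS hT hA fun τ => ?_
    have h := main (τ • ζ) (by rw [map_smul, z0, smul_zero])
    simp only [Derivation.map_smul, map_smul, z1, z2, smul_eq_mul, mul_one, mul_zero, star_zero,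
      zero_mul, add_zero] at h
    exact h
  · refine hess_quad hS hT hA fun τ => ?_
    have h := main (τ • star ζ) (by rw [map_smul, Sm.ev_star, z0, star_zero, smul_zero])
    simp only [Derivation.map_smul, map_smul, sd, sdb, z1, z2, smul_eq_mul, mul_one, mul_zero,
      star_zero, star_one, zero_mul, add_zero, zero_add] at h
    exact h

lemma sqh_d_db_pull {O₁ : TopologicalSpace.Opens (E N)} {O₂ : TopologicalSpace.Opens (E M)}
    {φ : E M → E N} (hφ : DifferentiableOn ℂ φ O₂) (hm : MapsTo φ O₂ O₁) (u : Sm O₁)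
    (a b : Fin M) : Sm.d a (Sm.db b (Sm.pull φ hφ hm u)) =
      ∑ c, ∑ d, Sm.J φ hφ c a * star (Sm.J φ hφ d b) * Sm.pull φ hφ hm (Sm.d c (Sm.db d u)) := by
  have h0 : ∀ d, Sm.d a (star (Sm.J φ hφ d b)) = 0 := by
    intro d
    rw [sqh_sd, Sm.db_J, star_zero]
  rw [Sm.db_pull, map_sum, Finset.sum_comm]
  refine Finset.sum_congr rfl fun d _ => ?_
  rw [Derivation.leibniz, h0, smul_zero, add_zero, smul_eq_mul, Sm.d_pull, Finset.mul_sum]
  exact Finset.sum_congr rfl fun c _ => by ring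

lemma sqh_bdd {κ : Type} [Fintype κ] {K : Set (E M)} (hK : IsCompact K) (f : κ → E M → ℂ)
    (hf : ∀ i, ContinuousOn (f i) K) : ∃ β : ℝ, 0 ≤ β ∧ ∀ z ∈ K, ∀ i, ‖f i z‖ ≤ β := by
  obtain ⟨β, hβ⟩ := hK.exists_bound_of_continuousOn (f := fun z i => f i z)
    (continuousOn_pi.2 hf)
  exact ⟨max β 0, le_max_right _ _, fun z hz i =>
    ((norm_le_pi_norm (fun i => f i z) i).trans (hβ z hz)).trans (le_max_left _ _)⟩

lemma sqh_sum_le (f : Fin M → ℂ) {β : ℝ} (h : ∀ c, ‖f c‖ ≤ β) : ‖∑ c, f c‖ ≤ M * β := by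
  refine (norm_sum_le _ _).trans ((Finset.sum_le_sum fun c _ => h c).trans ?_)
  simp

lemma sqh_mul_le {x y : ℂ} {s t : ℝ} (hx : ‖x‖ ≤ s) (hy : ‖y‖ ≤ t) : ‖x * y‖ ≤ s * t := by
  rw [norm_mul]
  exact mul_le_mul hx hy (norm_nonneg _) ((norm_nonneg _).trans hx)

lemma sqh_star_le {x : ℂ} {s : ℝ} (hx : ‖x‖ ≤ s) : ‖star x‖ ≤ s := by
  rwa [norm_star]

/-- The pure second derivative for a holomorphic field. -/
lemma sqh_pure {O : TopologicalSpace.Opens (E N)} (x : O) (a : Fin N) (Θ : Fin M → Fin M → Sm O)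
    (V : Fin M → Sm O) (hV : ∀ b, Sm.db a (V b) = 0) {q q' t0 t1 t2 : ℝ}
    (h0 : ∀ b, ‖Sm.ev x (V b)‖ ≤ q) (h1 : ∀ b, ‖Sm.ev x (Sm.d a (V b))‖ ≤ q')
    (k0 : ∀ b c, ‖Sm.ev x (Θ b c)‖ ≤ t0) (k1 : ∀ b c, ‖Sm.ev x (Sm.d a (Θ b c))‖ ≤ t1)
    (k1' : ∀ b c, ‖Sm.ev x (Sm.db a (Θ b c))‖ ≤ t1)
    (k2 : ∀ b c, ‖Sm.ev x (Sm.d a (Sm.db a (Θ b c)))‖ ≤ t2) :
    (Sm.ev x (Sm.d a (Sm.db a (sqhF Θ V V)))).re ≤
      M * (M * (q * t2 * q + q' * t1 * q + q * t1 * q' + q' * t0 * q')) := by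
  refine (Complex.re_le_norm _).trans ?_
  simp only [sqhF, map_sum]
  refine sqh_sum_le _ fun b => sqh_sum_le _ fun c => ?_
  have e1 : Sm.d a (star (V c)) = 0 := by rw [sqh_sd, hV, star_zero]
  have e2 : Sm.d a (star (Sm.d a (V c))) = 0 := by
    rw [sqh_sd, ← Sm.d_db, hV, map_zero, star_zero]
  have e : Sm.d a (Sm.db a (V b * Θ b c * star (V c))) =
      V b * Sm.d a (Sm.db a (Θ b c)) * star (V c) + Sm.d a (V b) * Sm.db a (Θ b c) * star (V c) +
        V b * Sm.d a (Θ b c) * star (Sm.d a (V c)) +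
        Sm.d a (V b) * Θ b c * star (Sm.d a (V c)) := by
    simp only [Derivation.leibniz, smul_eq_mul, map_add, hV, ← Sm.star_d, e1, e2, mul_zero,
      add_zero]
    ring
  rw [e]
  simp only [map_add, map_mul, Sm.ev_star]
  refine norm_add_le_of_le (norm_add_le_of_le (norm_add_le_of_le ?_ ?_) ?_) ?_
  · exact sqh_mul_le (sqh_mul_le (h0 b) (k2 b c)) (sqh_star_le (h0 c))
  · exact sqh_mul_le (sqh_mul_le (h1 b) (k1' b c)) (sqh_star_le (h0 c))
  · exact sqh_mul_le (sqh_mul_le (h0 b) (k1 b c)) (sqh_star_le (h1 c))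
  · exact sqh_mul_le (sqh_mul_le (h1 b) (k0 b c)) (sqh_star_le (h1 c))

/-- The derivative of the pushed field along a Hamiltonian field. -/
lemma sqh_push {C : Chart N} {D : AmbChart M} (e : Emb C D) {y : E N} (hy : y ∈ e.O) (v : E N)
    (a b : Fin M) :
    ∑ x, ((∑ s, e.H a y s * dz s (fun y' => jac e.j y' b x) y) * v x +
      jac e.j y b x * ∑ s, v s * dz s (fun y' => e.H a y' x) y) =
      ∑ c, (jac e.j y *ᵥ v) c * dz c (fun z => D.π z a b) (e.j y) := by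
  let O : TopologicalSpace.Opens (E N) := ⟨e.O, e.isOpen⟩
  let W : TopologicalSpace.Opens (E M) := ⟨D.W, D.isOpen⟩
  let y0 : O := ⟨y, hy⟩
  let jb : Sm O := Sm.mkH (fun y' => e.j y' b) (differentiableOn_pi.1 e.hol b)
  have rJ : ∀ x, (Sm.J (O' := O) e.j e.hol b x).Rep fun y' => jac e.j y' b x := fun x _ => rfl
  have hJ : ∀ x, Sm.J (O' := O) e.j e.hol b x = Sm.d x jb := by
    intro x
    ext z
    have hd := e.hol.differentiableAt (e.isOpen.mem_nhds z.2)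
    rw [(Sm.rep_mkH _ _).d x z, (dz_of_diff (differentiableAt_pi.1 hd b) x).1,
      (hasFDerivAt_pi'.1 hd.hasFDerivAt b).fderiv]
    rfl
  let Hs : Fin N → Sm O := fun x => Sm.mkH (fun y' => e.H a y' x) (e.H_hol a x)
  have rH : ∀ x, (Hs x).Rep fun y' => e.H a y' x := fun x _ => rfl
  let p : Sm W := Sm.mkH (fun z => D.π z a b) (D.π_hol a b)
  have hp : ∑ x, Sm.J (O' := O) e.j e.hol b x * Hs x = Sm.pull (O' := O) e.j e.hol e.maps p := by
    ext z
    rw [Sm.ev_pull, map_sum]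
    exact e.jac_H z.2 a b
  have key : ∀ s, ∑ x, (jac e.j y b x * dz s (fun y' => e.H a y' x) y +
      e.H a y x * dz x (fun y' => jac e.j y' b s) y) =
      ∑ c, jac e.j y c s * dz c (fun z => D.π z a b) (e.j y) := by
    intro s
    have h := congrArg (fun f => Sm.ev y0 (Sm.d s f)) hp
    have h2 : ∀ x, Sm.d s (Sm.J (O' := O) e.j e.hol b x) = Sm.d x (Sm.J (O' := O) e.j e.hol b s) := by
      intro x
      rw [hJ, hJ, Sm.d_d]
    simp only [Sm.d_pull, map_sum, Derivation.leibniz, smul_eq_mul, map_add, map_mul, h2,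
      Sm.ev_J, Sm.ev_pull, (rJ _).d _ y0, (rH _).d _ y0, rH _ y0,
      (Sm.rep_mkH (O := W) _ (D.π_hol a b)).d _ _, p] at h
    exact h
  have e1 : ∑ c, (jac e.j y *ᵥ v) c * dz c (fun z => D.π z a b) (e.j y) =
      ∑ s, v s * ∑ c, jac e.j y c s * dz c (fun z => D.π z a b) (e.j y) := by
    simp only [Matrix.mulVec, dotProduct, Finset.sum_mul, Finset.mul_sum]
    rw [Finset.sum_comm]
    exact Finset.sum_congr rfl fun _ _ => Finset.sum_congr rfl fun _ _ => by ring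
  rw [e1]
  simp only [← key, Finset.sum_add_distrib, mul_add, Finset.sum_mul, Finset.mul_sum]
  rw [add_comm]
  congr 1
  · rw [Finset.sum_comm]
    exact Finset.sum_congr rfl fun _ _ => Finset.sum_congr rfl fun _ _ => by ring
  · exact Finset.sum_congr rfl fun _ _ => Finset.sum_congr rfl fun _ _ => by ring

theorem AmbChart.hess (D : AmbChart M) {K : Set (E M)} (hK : IsCompact K) (hKW : K ⊆ D.W) :
    ∃ B : ℝ, 0 ≤ B ∧ ∀ (C : Chart N) (e : Emb C D), ∀ y ∈ e.O, e.j y ∈ K → ∀ v ∈ C.null y,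
      ∀ (a : Fin M) (w : E N),
      ‖∑ x, ∑ c, v x * (∑ s, star (e.H a y s) * dzb s (fun y' => C.η y' x c) y) * star (w c)‖ ^ 2 ≤
          B * ‖jac e.j y *ᵥ v‖ ^ 2 * (∑ b, ∑ c, w b * C.η y b c * star (w c)).re ∧
        ‖∑ x, ∑ c, v x * (∑ s, e.H a y s * dz s (fun y' => C.η y' x c) y) * star (w c) +
            ∑ x, ∑ c, (∑ s, v s * dz s (fun y' => e.H a y' x) y) * C.η y x c * star (w c)‖ ^ 2 ≤
          B * ‖jac e.j y *ᵥ v‖ ^ 2 * (∑ b, ∑ c, w b * C.η y b c * star (w c)).re := by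
  obtain ⟨β1, p1, b1⟩ := sqh_bdd hK (fun (i : Fin M × Fin M) z => D.π z i.1 i.2)
    fun i => (D.π_hol _ _).continuousOn.mono hKW
  obtain ⟨β2, p2, b2⟩ := sqh_bdd hK
    (fun (i : Fin M × Fin M × Fin M) => dz i.1 fun z => D.π z i.2.1 i.2.2)
    fun i => (hol_dz D.isOpen (D.π_hol _ _) _).continuousOn.mono hKW
  obtain ⟨β3, p3, b3⟩ := sqh_bdd hK (fun (i : Fin M × Fin M) z => D.η z i.1 i.2)
    fun i => (D.η_smooth _ _).continuousOn.mono hKW
  obtain ⟨β4, p4, b4⟩ := sqh_bdd hK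
    (fun (i : Fin M × Fin M × Fin M) => dz i.1 fun z => D.η z i.2.1 i.2.2)
    fun i => (smooth_dz D.isOpen (D.η_smooth _ _) _).continuousOn.mono hKW
  obtain ⟨β5, p5, b5⟩ := sqh_bdd hK
    (fun (i : Fin M × Fin M × Fin M) => dzb i.1 fun z => D.η z i.2.1 i.2.2)
    fun i => (smooth_dzb D.isOpen (D.η_smooth _ _) _).continuousOn.mono hKW
  obtain ⟨β6, p6, b6⟩ := sqh_bdd hK
    (fun (i : (Fin M × Fin M) × Fin M × Fin M) => dz i.1.1 (dzb i.1.2 fun z => D.η z i.2.1 i.2.2))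
    fun i => (smooth_dz D.isOpen (smooth_dzb D.isOpen (D.η_smooth _ _) _) _).continuousOn.mono hKW
  refine ⟨M * (M * (M * (M * (β1 * β1 * β6)) + 2 * (M * β2 * (M * (β1 * (β4 + β5)))) +
    M * β2 * β3 * (M * β2))), by positivity, fun C e y hy hyK v hv a w => ?_⟩
  let O : TopologicalSpace.Opens (E N) := ⟨e.O, e.isOpen⟩
  let W : TopologicalSpace.Opens (E M) := ⟨D.W, D.isOpen⟩
  let φ : E 1 → E N := fun s => y + s 0 • e.H a y
  have hφd : ∀ s, HasFDerivAt φ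
      ((ContinuousLinearMap.proj 0 : E 1 →L[ℂ] ℂ).smulRight (e.H a y)) s := fun s =>
    ((hasFDerivAt_apply (𝕜 := ℂ) (0 : Fin 1) s).smul_const (e.H a y)).const_add y
  have hφ0 : φ 0 = y := by simp [φ]
  have hjφ : ∀ s c, jac φ s c 0 = e.H a y c := by
    intro s c
    simp [jac, (hφd s).fderiv]
  have hφc : Continuous φ := continuous_iff_continuousAt.2 fun s => (hφd s).continuousAt
  let O₁ : TopologicalSpace.Opens (E 1) := ⟨φ ⁻¹' e.O, e.isOpen.preimage hφc⟩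
  have h01 : (0 : E 1) ∈ O₁ := by
    change φ 0 ∈ e.O
    rwa [hφ0]
  let x : O₁ := ⟨0, h01⟩
  let y0 : O := ⟨y, hy⟩
  let z0 : W := ⟨e.j y, e.maps hy⟩
  have hφ : DifferentiableOn ℂ φ O₁ := fun s _ => (hφd s).differentiableAt.differentiableWithinAt
  have hm : MapsTo φ O₁ O := fun s hs => hs
  have hψ : DifferentiableOn ℂ (e.j ∘ φ) O₁ := e.hol.comp hφ hm
  have hmψ : MapsTo (e.j ∘ φ) O₁ W := fun s hs => e.maps hs
  have evφ : ∀ f : Sm O, Sm.ev x (Sm.pull φ hφ hm f) = Sm.ev y0 f := fun f => by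
    rw [Sm.ev_pull]
    exact congrArg (fun t => Sm.ev t f) (Subtype.ext hφ0)
  have evψ : ∀ f : Sm W, Sm.ev x (Sm.pull (e.j ∘ φ) hψ hmψ f) = Sm.ev z0 f := fun f => by
    rw [Sm.ev_pull]
    exact congrArg (fun t => Sm.ev t f) (Subtype.ext (congrArg e.j hφ0))
  have hjψ : ∀ c, jac (e.j ∘ φ) x c 0 = D.π (e.j y) a c := by
    intro c
    have h1 : DifferentiableAt ℂ e.j (φ 0) := by
      rw [hφ0]
      exact e.hol.differentiableAt (e.isOpen.mem_nhds hy)
    rw [lin3_jac_comp h1 (hφd 0).differentiableAt, Matrix.mul_apply, hφ0, ← e.jac_H hy a c]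
    simp only [hjφ]
    rfl
  let η0 : Fin N → Fin N → Sm O := fun b c =>
    Sm.mk (fun y' => C.η y' b c) ((C.η_smooth b c).mono e.sub)
  have rη : ∀ b c, (η0 b c).Rep fun y' => C.η y' b c := fun b c _ => rfl
  let Θ0 : Fin M → Fin M → Sm W := fun b c => Sm.mk (fun z => D.η z b c) (D.η_smooth b c)
  have rΘ : ∀ b c, (Θ0 b c).Rep fun z => D.η z b c := fun b c _ => rfl
  have rJ : ∀ b c, (Sm.J (O' := O) e.j e.hol b c).Rep fun y' => jac e.j y' b c := fun _ _ _ => rfl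
  have hζ : Differentiable ℂ (fun s : E 1 => s 0) := by fun_prop
  let ζ : Sm O₁ := Sm.mkH (fun s => s 0) hζ.differentiableOn
  have rζ : ζ.Rep (fun s => s 0) := Sm.rep_mkH _ _
  have ζ0 : Sm.ev x ζ = 0 := rζ x
  have ζ1 : Sm.ev x (Sm.d 0 ζ) = 1 := by
    rw [rζ.d 0 x, (dz_of_diff (hζ _) 0).1, (hasFDerivAt_apply (𝕜 := ℂ) (0 : Fin 1) x.1).fderiv]
    simp
  have ζ2 : Sm.db 0 ζ = 0 := rζ.db_eq_zero hζ.differentiableOn 0
  obtain ⟨u, hu⟩ : ∃ u : E N, ∀ b, ∑ s, v s * dz s (fun y' => e.H a y' b) y = u b :=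
    ⟨_, fun _ => rfl⟩
  let V0 : Fin N → Sm O₁ := fun b => algebraMap ℂ _ (v b) + algebraMap ℂ _ (u b) * ζ
  let w0 : Fin N → Sm O₁ := fun b => algebraMap ℂ _ (w b)
  let η1 : Fin N → Fin N → Sm O₁ := fun b c => Sm.pull φ hφ hm (η0 b c)
  let Θ : Fin M → Fin M → Sm O₁ := fun b c => Sm.pull (e.j ∘ φ) hψ hmψ (Θ0 b c)
  let V : Fin M → Sm O₁ := fun b => ∑ c, Sm.pull φ hφ hm (Sm.J (O' := O) e.j e.hol b c) * V0 c
  have v0 : ∀ b, Sm.ev x (V0 b) = v b := fun b => by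
    simp only [V0, map_add, map_mul, AlgHom.commutes, ζ0, mul_zero, add_zero]
    rfl
  have v1 : ∀ b, Sm.ev x (Sm.d 0 (V0 b)) = u b := fun b => by
    simp only [V0, map_add, map_mul, Derivation.leibniz, Derivation.map_algebraMap, smul_eq_mul,
      AlgHom.commutes, ζ1, mul_zero, add_zero, zero_add, mul_one]
    rfl
  have v2 : ∀ b, Sm.db 0 (V0 b) = 0 := fun b => by
    simp only [V0, map_add, Derivation.leibniz, Derivation.map_algebraMap, smul_eq_mul, ζ2,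
      mul_zero, add_zero]
  have w1 : ∀ b, Sm.ev x (w0 b) = w b := fun b => AlgHom.commutes _ _
  have w2 : ∀ b, Sm.d 0 (star (w0 b)) = 0 := fun b => by
    rw [sqh_sd, Derivation.map_algebraMap, star_zero]
  have w3 : ∀ b, Sm.db 0 (star (w0 b)) = 0 := fun b => by
    rw [← Sm.star_d, Derivation.map_algebraMap, star_zero]
  have hF : sqhF η1 V0 V0 = sqhF Θ V V := by
    ext s
    have h1 : ∀ b c, C.η (φ s) b c = ∑ b', ∑ c', jac e.j (φ s) b' b * D.η (e.j (φ s)) b' c' *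
        star (jac e.j (φ s) c' c) := by
      intro b c
      rw [e.η_eq _ s.2, Matrix.mul_apply, Finset.sum_comm]
      simp only [Matrix.mul_apply, Matrix.transpose_apply, Matrix.map_apply, Finset.sum_mul]
    simp only [sqhF, η1, Θ, V, map_sum, map_mul, Sm.ev_star, Sm.ev_pull, rη _ _ _, rΘ _ _ _,
      Sm.ev_J, h1, Function.comp_apply, star_sum, star_mul', Finset.sum_mul, Finset.mul_sum]
    calc _ = ∑ b, ∑ b', ∑ c, ∑ c', Sm.ev s (V0 b) * (jac e.j (φ s) b' b * D.η (e.j (φ s)) b' c' *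
            star (jac e.j (φ s) c' c)) * star (Sm.ev s (V0 c)) :=
          Finset.sum_congr rfl fun _ _ => Finset.sum_comm
      _ = ∑ b', ∑ b, ∑ c', ∑ c, Sm.ev s (V0 b) * (jac e.j (φ s) b' b * D.η (e.j (φ s)) b' c' *
            star (jac e.j (φ s) c' c)) * star (Sm.ev s (V0 c)) := by
          rw [Finset.sum_comm]
          exact Finset.sum_congr rfl fun _ _ => Finset.sum_congr rfl fun _ _ => Finset.sum_comm
      _ = _ := by
          refine Finset.sum_congr rfl fun _ _ => ?_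
          rw [Finset.sum_comm]
          refine Finset.sum_congr rfl fun _ _ => ?_
          rw [Finset.sum_comm]
          exact Finset.sum_congr rfl fun _ _ => Finset.sum_congr rfl fun _ _ => by ring
  have hq : ∀ b, ‖(jac e.j y *ᵥ v) b‖ ≤ ‖jac e.j y *ᵥ v‖ := norm_le_pi_norm _
  have hA := sqh_pure x 0 Θ V (q := ‖jac e.j y *ᵥ v‖) (q' := M * (‖jac e.j y *ᵥ v‖ * β2))
    (t0 := β3) (t1 := M * (β1 * (β4 + β5))) (t2 := M * (M * (β1 * β1 * β6))) ?_ ?_ ?_ ?_ ?_ ?_ ?_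
  · rw [← hF] at hA
    have hp : ∀ s : O₁, (Matrix.of fun b c => Sm.ev s (η1 b c)).PosSemidef := by
      intro s
      have h1 : (Matrix.of fun b c => Sm.ev s (η1 b c)) = C.η (φ s) := by
        ext b c
        exact Sm.ev_pull hφ hm _ s
      rw [h1]
      exact C.η_psd (φ s) (e.sub s.2)
    have hn : ∀ c, ∑ b, Sm.ev x (V0 b) * Sm.ev x (η1 b c) = 0 := by
      intro c
      have h1 : v ᵥ* C.η y = 0 := hv
      simp only [v0, η1, evφ]
      exact congrFun h1 c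
    have hr := sqh_main x 0 η1 hp V0 w0 hn ζ ζ0 ζ1 (by rw [ζ2, map_zero]) (by positivity) hA
    have e0 : Sm.ev x (sqhF η1 w0 w0) = ∑ b, ∑ c, w b * C.η y b c * star (w c) := by
      simp only [sqhF, η1, map_sum, map_mul, Sm.ev_star, w1, evφ, rη _ _ y0]
      rfl
    have e1 : Sm.ev x (Sm.db 0 (sqhF η1 V0 w0)) = ∑ x, ∑ c, v x *
        (∑ s, star (e.H a y s) * dzb s (fun y' => C.η y' x c) y) * star (w c) := by
      simp only [sqhF, η1, map_sum, Derivation.leibniz, smul_eq_mul, map_mul, v2, w3,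
        mul_zero, zero_add, add_zero, Sm.db_pull, Sm.ev_star, Sm.ev_J, hjφ, evφ, v0, w1,
        (rη _ _).db _ y0]
      exact Finset.sum_congr rfl fun _ _ => Finset.sum_congr rfl fun _ _ => mul_comm _ _
    have e2 : Sm.ev x (Sm.d 0 (sqhF η1 V0 w0)) = ∑ x, ∑ c, v x *
        (∑ s, e.H a y s * dz s (fun y' => C.η y' x c) y) * star (w c) +
          ∑ x, ∑ c, u x * C.η y x c * star (w c) := by
      simp only [sqhF, η1, map_sum, Derivation.leibniz, smul_eq_mul, map_add, map_mul, w2,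
        mul_zero, zero_add, Sm.d_pull, Sm.ev_star, Sm.ev_J, hjφ, evφ, v0, v1, w1,
        (rη _ _).d _ y0, rη _ _ y0, ← Finset.sum_add_distrib]
      exact Finset.sum_congr rfl fun _ _ => Finset.sum_congr rfl fun _ _ => by ring
    rw [e0, e1, e2] at hr
    simp only [hu]
    exact ⟨hr.2.trans_eq (by ring), hr.1.trans_eq (by ring)⟩
  · intro b
    simp only [V, map_sum, Derivation.leibniz, v2, Sm.db_pull, Sm.db_J, map_zero, mul_zero,
      Finset.sum_const_zero, smul_zero, add_zero]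
  · intro b
    refine le_of_eq_of_le (congrArg _ ?_) (hq b)
    simp only [V, map_sum, map_mul, evφ, v0, Sm.ev_J]
    rfl
  · intro b
    have h1 : Sm.ev x (Sm.d 0 (V b)) =
        ∑ c, (jac e.j y *ᵥ v) c * dz c (fun z => D.π z a b) (e.j y) := by
      rw [← sqh_push e hy v a b]
      simp only [V, map_sum, Derivation.leibniz, smul_eq_mul, map_add, map_mul, Sm.d_pull, evφ, v0,
        v1, Sm.ev_J, hjφ, (rJ _ _).d _ y0, hu]
      exact Finset.sum_congr rfl fun _ _ => by ring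
    rw [h1]
    exact sqh_sum_le _ fun c => sqh_mul_le (hq c) (b2 _ hyK (c, a, b))
  · intro b c
    rw [evψ]
    exact b3 _ hyK (b, c)
  · intro b c
    simp only [Θ, Sm.d_pull, map_sum, map_mul, Sm.ev_J, evψ, hjψ, (rΘ _ _).d _ z0]
    exact sqh_sum_le _ fun d => sqh_mul_le (b1 _ hyK (a, d))
      ((b4 _ hyK (d, b, c)).trans (le_add_of_nonneg_right p5))
  · intro b c
    simp only [Θ, Sm.db_pull, map_sum, map_mul, Sm.ev_star, Sm.ev_J, evψ, hjψ, (rΘ _ _).db _ z0]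
    exact sqh_sum_le _ fun d => sqh_mul_le (sqh_star_le (b1 _ hyK (a, d)))
      ((b5 _ hyK (d, b, c)).trans (le_add_of_nonneg_left p4))
  · intro b c
    simp only [Θ, sqh_d_db_pull, map_sum, map_mul, Sm.ev_star, Sm.ev_J, evψ, hjψ,
      ((rΘ _ _).db _).d _ z0]
    exact sqh_sum_le _ fun d => sqh_sum_le _ fun d' => sqh_mul_le
      (sqh_mul_le (b1 _ hyK (a, d)) (sqh_star_le (b1 _ hyK (a, d')))) (b6 _ hyK ((d, d'), b, c))

end Pool.Agent.SPF
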