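import Pool.Agent.P.MP_63735c_ag.SQDefs
import Pool.Agent.P.MP_63735c_ag.SPLoc2

/-! Local objects for the embedded setting (used only inside the proofs). -/

open Set Filter Topology
open scoped ComplexOrder ContDiff Matrix

namespace Pool.Agent.SPF

variable {N M n : ℕ}

/-- Principal minor of a matrix. -/
noncomputable def mnr (H : Matrix (Fin M) (Fin M) ℂ) (J : Fin n → Fin M) : ℝ :=
  (H.submatrix J J).det.re

/-- The minor is the largest one. -/
def MaxM (H : Matrix (Fin M) (Fin M) ℂ) (J : Fin n → Fin M) : Prop :=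
  ∀ J' : Fin n → Fin M, mnr H J' ≤ mnr H J

/-- Coefficients of the rows on the rows of the principal block. -/
noncomputable def coef (H : Matrix (Fin M) (Fin M) ℂ) (J : Fin n → Fin M) (i : Fin n) (b : Fin M) :
    ℂ := ∑ j, H b (J j) * (H.submatrix J J)⁻¹ j i

/-- The ambient cometric. -/
noncomputable def AmbChart.G (D : AmbChart M) (w : E M) : Matrix (Fin M) (Fin M) ℂ :=
  D.π w * D.η w * (D.π w)ᴴ

/-- Minor of the ambient cometric. -/
noncomputable def AmbChart.b (D : AmbChart M) (J : Fin n → Fin M) (w : E M) : ℝ := mnr (D.G w) J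

/-- A holomorphic immersion of a part of a chart that is compatible with the ambient data. -/
structure Emb (C : Chart N) (D : AmbChart M) where
  O : Set (E N)
  j : E N → E M
  isOpen : IsOpen O
  sub : O ⊆ C.W
  hol : DifferentiableOn ℂ j O
  maps : MapsTo j O D.W
  inj : ∀ y ∈ O, Function.Injective (fderiv ℂ j y)
  π_eq : ∀ y ∈ O, D.π (j y) = jac j y * C.π y * (jac j y)ᵀ
  η_eq : ∀ y ∈ O, C.η y = (jac j y)ᵀ * D.η (j y) * (jac j y).map star

/-- The Hamiltonian field of an ambient coordinate. -/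
noncomputable def Emb.H {C : Chart N} {D : AmbChart M} (e : Emb C D) (a : Fin M) (y : E N) : E N :=
  fun x => ∑ c, C.π y c x * jac e.j y a c

variable {X : Type} [TopologicalSpace X] {R : Set X} {A : Atlas R N}

/-- The immersion attached to a chart and a local embedding. -/
def Amb.emb (B : Amb R A) (α : B.κ) (i : A.ι) : Emb (A.C i) (B.D α) where
  O := {y | y ∈ (A.C i).W ∧ (A.p i y : X) ∈ B.V α}
  j := fun y => B.z α (A.p i y)
  isOpen := (continuous_subtype_val.comp_continuousOn (A.cont i)).isOpen_inter_preimage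
    (A.C i).isOpen (B.V_open α)
  sub := fun _ h => h.1
  hol := fun y h => (B.hol α i y h.1 h.2).1.differentiableWithinAt
  maps := fun _ h => B.maps α h.2
  inj := fun y h => (B.hol α i y h.1 h.2).2
  π_eq := fun y h => B.π_eq α i y h.1 h.2
  η_eq := fun y h => B.η_eq α i y h.1 h.2

/-- The rank n locus. -/
def Atlas.Rk {Y : Type} [TopologicalSpace Y] (A : Atlas Y N) (n : ℕ) (x : Y) : Prop :=
  ∃ i, ∃ y ∈ (A.C i).W, A.p i y = x ∧ ((A.C i).η y).rank = n

/-- A finite family of local embeddings with compact sets and cutoff functions. -/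
structure Cov2 (B : Amb R A) where
  T : Type
  fin : Finite T
  c : T → B.κ
  K : T → Set X
  ρ : ∀ t, E (B.M (c t)) → ℝ
  cpt : ∀ t, IsCompact (K t)
  sub : ∀ t, K t ⊆ B.V (c t)
  smooth : ∀ t, ContDiff ℝ ∞ (ρ t)
  nonneg : ∀ t w, 0 ≤ ρ t w
  le_one : ∀ t w, ρ t w ≤ 1
  nhds : ∀ t, ∀ x ∈ K t, ρ t (B.z (c t) x) ≠ 0 → K t ∈ 𝓝 x
  one : ∀ x, ∃ t, x ∈ K t ∧ ρ t (B.z (c t) x) = 1

/-- The weight. -/
noncomputable def Cov2.w {B : Amb R A} (P : Cov2 B) (t : P.T) (J : Fin n → Fin (B.M (P.c t)))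
    (x : X) : ℝ :=
  P.ρ t (B.z (P.c t) x) * (B.D (P.c t)).b J (B.z (P.c t) x)

/-- A pair that is largest at a point. -/
def Cov2.Active {B : Amb R A} (P : Cov2 B) (t : P.T) (J : Fin n → Fin (B.M (P.c t))) (x : X) :
    Prop :=
  x ∈ P.K t ∧ ∀ t' (J' : Fin n → Fin (B.M (P.c t'))), x ∈ P.K t' → P.w t' J' x ≤ P.w t J x

end Pool.Agent.SPF
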