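import Pool.Agent.P.MP_63735c_ag.SQLoc

/-! Minors of semipositive matrices, and pointwise facts on immersions. -/

open Set Filter Topology
open scoped ComplexOrder ContDiff Matrix

namespace Pool.Agent.SPF

variable {N M n : ℕ}

section
variable {H : Matrix (Fin M) (Fin M) ℂ} {J : Fin n → Fin M}

lemma mnr_nonneg (hH : H.PosSemidef) (J : Fin n → Fin M) : 0 ≤ mnr H J :=
  (Complex.nonneg_iff.1 (hH.submatrix J).det_nonneg).1

lemma mnr_eq (hH : H.PosSemidef) (J : Fin n → Fin M) :
    (H.submatrix J J).det = (mnr H J : ℂ) :=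
  Complex.ext rfl (Complex.nonneg_iff.1 (hH.submatrix J).det_nonneg).2.symm

lemma mnr_eq_zero (h : H.rank < n) (J : Fin n → Fin M) : mnr H J = 0 := by
  have h2 : (H.submatrix J J).det = 0 := by
    by_contra h3
    have h4 := Matrix.rank_of_isUnit _
      ((Matrix.isUnit_iff_isUnit_det _).2 (isUnit_iff_ne_zero.2 h3))
    rw [Fintype.card_fin] at h4
    have h5 := Matrix.rank_submatrix_le H J J
    omega
  rw [mnr, h2, Complex.zero_re]

lemma exists_mnr_pos (hH : H.PosSemidef) (h : n ≤ H.rank) : ∃ J : Fin n → Fin M, 0 < mnr H J := by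
  obtain ⟨κ, a, ha, hsp, hli⟩ := exists_linearIndependent' ℂ H.col
  haveI : Finite κ := Finite.of_injective a ha
  haveI := Fintype.ofFinite κ
  have hc : Fintype.card (Fin n) ≤ Fintype.card κ := by
    rw [Fintype.card_fin, ← finrank_span_eq_card hli, hsp, ← Matrix.rank_eq_finrank_span_cols]
    exact h
  obtain ⟨f⟩ := Function.Embedding.nonempty_of_card_le hc
  have hli' : LinearIndependent ℂ fun j => H.col (a (f j)) := hli.comp f f.injective
  refine ⟨fun j => a (f j), ?_⟩
  have hne : (H.submatrix (fun j => a (f j)) (fun j => a (f j))).det ≠ 0 := by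
    intro h0
    obtain ⟨x, hx, hx0⟩ := Matrix.exists_mulVec_eq_zero_iff.2 h0
    let P : Matrix (Fin M) (Fin n) ℂ :=
      (1 : Matrix (Fin M) (Fin M) ℂ).submatrix id fun j => a (f j)
    have hP : H * P = H.submatrix id fun j => a (f j) := by
      ext i j
      simp [P, Matrix.mul_apply, Matrix.one_apply]
    have hg : Pᴴ * (H * P) = H.submatrix (fun j => a (f j)) (fun j => a (f j)) := by
      rw [hP]
      ext i j
      simp [P, Matrix.mul_apply, Matrix.one_apply]
    have h1 : star (P *ᵥ x) ⬝ᵥ H *ᵥ (P *ᵥ x) = 0 := by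
      rw [Matrix.star_mulVec, Matrix.mulVec_mulVec, ← Matrix.dotProduct_mulVec,
        Matrix.mulVec_mulVec, hg, hx0, dotProduct_zero]
    have h2 := (hH.dotProduct_mulVec_zero_iff _).1 h1
    rw [Matrix.mulVec_mulVec, hP] at h2
    refine hx (funext (Fintype.linearIndependent_iff.1 hli' x ?_))
    funext i
    have h3 := congrFun h2 i
    simpa [Matrix.mulVec, dotProduct, mul_comm] using h3
  refine lt_of_le_of_ne (mnr_nonneg hH _) fun h0 => hne ?_
  rw [mnr_eq hH, ← h0, Complex.ofReal_zero]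

lemma mat_unit (hH : H.PosSemidef) (h0 : 0 < mnr H J) : IsUnit (H.submatrix J J).det := by
  rw [mnr_eq hH]
  exact isUnit_iff_ne_zero.2 (Complex.ofReal_ne_zero.2 h0.ne')

lemma mat_F1 (hH : H.PosSemidef) (h : H.rank ≤ n) (h0 : 0 < mnr H J) (b c : Fin M) :
    H b c = ∑ i, ∑ j, H b (J i) * (H.submatrix J J)⁻¹ i j * H (J j) c := by
  have hu := mat_unit hH h0
  have hli : LinearIndependent ℂ fun j => H.col (J j) := by
    refine Fintype.linearIndependent_iff.2 fun x hx => ?_
    have h1 : H.submatrix J J *ᵥ x = 0 := by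
      funext i
      have h3 := congrFun hx (J i)
      simpa [Matrix.mulVec, dotProduct, mul_comm] using h3
    exact congrFun (Matrix.eq_zero_of_mulVec_eq_zero hu.ne_zero h1)
  have hsp : Submodule.span ℂ (Set.range fun j => H.col (J j))
      = Submodule.span ℂ (Set.range H.col) := by
    refine Submodule.eq_of_le_of_finrank_le
      (Submodule.span_mono (Set.range_comp_subset_range J H.col)) ?_
    rw [finrank_span_eq_card hli, Fintype.card_fin, ← Matrix.rank_eq_finrank_span_cols]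
    exact h
  have hc : H.col c ∈ Submodule.span ℂ (Set.range fun j => H.col (J j)) := by
    rw [hsp]
    exact Submodule.subset_span ⟨c, rfl⟩
  obtain ⟨y, hy⟩ := (Submodule.mem_span_range_iff_exists_fun ℂ).1 hc
  have hy' : ∀ b, H b c = ∑ i, H b (J i) * y i := fun b => by
    have h3 := congrFun hy b
    simpa [mul_comm] using h3.symm
  have h1 : (fun j => H (J j) c) = H.submatrix J J *ᵥ y := funext fun j => hy' (J j)
  have h2 : y = (H.submatrix J J)⁻¹ *ᵥ fun j => H (J j) c := by
    rw [h1, Matrix.mulVec_mulVec, Matrix.nonsing_inv_mul _ hu, Matrix.one_mulVec]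
  rw [hy' b]
  refine Finset.sum_congr rfl fun i _ => ?_
  rw [congrFun h2 i, Matrix.mulVec, dotProduct, Finset.mul_sum]
  exact Finset.sum_congr rfl fun j _ => (mul_assoc _ _ _).symm

lemma mat_det_conj (hH : H.PosSemidef) (h : H.rank ≤ n) (h0 : 0 < mnr H J)
    (Q : Matrix (Fin M) (Fin n) ℂ) :
    (Qᵀ * H * Q.map star).det =
      (Matrix.of fun i j => ∑ c, coef H J i c * Q c j).det *
        star (Matrix.of fun i j => ∑ c, coef H J i c * Q c j).det * (H.submatrix J J).det := by
  have hu := mat_unit hH h0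
  let K : Matrix (Fin M) (Fin n) ℂ := H.submatrix id J
  let Em : Matrix (Fin n) (Fin M) ℂ := Matrix.of fun i c => coef H J i c
  have hE : Emᵀ = K * (H.submatrix J J)⁻¹ := rfl
  have hK : Kᴴ = H.submatrix J id := by
    rw [Matrix.conjTranspose_submatrix, hH.1.eq]
  have hE' : Em.map star = (H.submatrix J J)⁻¹ * Kᴴ := by
    have e1 : Em.map star = Emᵀᴴ := rfl
    rw [e1, hE, Matrix.conjTranspose_mul, (hH.submatrix J).1.inv.eq]
  have hη : H = Emᵀ * H.submatrix J J * Em.map star := by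
    rw [hE, hE', Matrix.mul_assoc K, Matrix.nonsing_inv_mul _ hu, Matrix.mul_one, hK]
    ext b c
    rw [mat_F1 hH h h0 b c, Matrix.mul_apply]
    refine Finset.sum_congr rfl fun i _ => ?_
    rw [Matrix.mul_apply, Finset.mul_sum]
    exact Finset.sum_congr rfl fun j _ => mul_assoc _ _ _
  have hQ : (Matrix.of fun i j => ∑ c, coef H J i c * Q c j) = Em * Q := rfl
  have hs : (Em * Q).map star = Em.map star * Q.map star :=
    Matrix.map_mul (f := starRingEnd ℂ)
  have h1 : Qᵀ * H * Q.map star = (Em * Q)ᵀ * H.submatrix J J * (Em * Q).map star := by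
    rw [hs, Matrix.transpose_mul]
    conv_lhs => rw [hη]
    simp only [Matrix.mul_assoc]
  have h2 : ((Em * Q).map star).det = star (Em * Q).det :=
    ((starRingEnd ℂ).map_det (Em * Q)).symm
  rw [h1, hQ, Matrix.det_mul, Matrix.det_mul, Matrix.det_transpose, h2]
  ring

lemma coef_le_one (hH : H.PosSemidef) (h : H.rank ≤ n) (h0 : 0 < mnr H J) (hm : MaxM H J)
    (i : Fin n) (b : Fin M) : ‖coef H J i b‖ ≤ 1 := by
  have hu := mat_unit hH h0
  have h00 := mat_det_conj hH h h0
    ((1 : Matrix (Fin M) (Fin M) ℂ).submatrix id (Function.update J i b))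
  have h1 : ((1 : Matrix (Fin M) (Fin M) ℂ).submatrix id (Function.update J i b))ᵀ * H *
      ((1 : Matrix (Fin M) (Fin M) ℂ).submatrix id (Function.update J i b)).map star
      = H.submatrix (Function.update J i b) (Function.update J i b) := by
    ext p q
    simp [Matrix.mul_apply, Matrix.one_apply]
  have h2 : (Matrix.of fun p q => ∑ c, coef H J p c *
      ((1 : Matrix (Fin M) (Fin M) ℂ).submatrix id (Function.update J i b)) c q)
      = (1 : Matrix (Fin n) (Fin n) ℂ).updateCol i fun p => coef H J p b := by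
    ext p q
    have e1 : (∑ c, coef H J p c *
        ((1 : Matrix (Fin M) (Fin M) ℂ).submatrix id (Function.update J i b)) c q)
        = coef H J p (Function.update J i b q) := by
      simp [Matrix.one_apply]
    rw [Matrix.of_apply, e1, Matrix.updateCol_apply]
    by_cases hq : q = i
    · rw [if_pos hq, hq, Function.update_self]
    · rw [if_neg hq, Function.update_of_ne hq]
      have e2 : coef H J p (J q) = (H.submatrix J J * (H.submatrix J J)⁻¹) q p := rfl
      rw [e2, Matrix.mul_nonsing_inv _ hu, Matrix.one_apply, Matrix.one_apply]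
      simp only [eq_comm]
  have h3 : ((1 : Matrix (Fin n) (Fin n) ℂ).updateCol i fun p => coef H J p b).det
      = coef H J i b := by
    rw [← Matrix.cramer_apply, Matrix.cramer_one]
    rfl
  rw [h1, h2, h3, Complex.star_def, Complex.mul_conj, mnr_eq hH J, ← Complex.ofReal_mul] at h00
  have h4 : mnr H (Function.update J i b) = Complex.normSq (coef H J i b) * mnr H J := by
    rw [mnr, h00, Complex.ofReal_re]
  have h5 := hm (Function.update J i b)
  rw [h4, Complex.normSq_eq_norm_sq] at h5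
  have h6 : ‖coef H J i b‖ ^ 2 ≤ 1 := le_of_mul_le_mul_right (by linarith) h0
  exact (sq_le_one_iff₀ (norm_nonneg _)).1 h6

lemma mnr_conj_le {M' : ℕ} (hH : H.PosSemidef) (h : H.rank ≤ n) (hm : MaxM H J)
    (L : Matrix (Fin M') (Fin M) ℂ) {B : ℝ} (hB : ∀ a c, ‖L a c‖ ≤ B) (J' : Fin n → Fin M') :
    mnr (L * H * Lᴴ) J' ≤ (n.factorial * (M * B) ^ n) ^ 2 * mnr H J := by
  rcases (mnr_nonneg hH J).eq_or_lt with h0 | h0
  · have h1 : H.rank < n := by
      by_contra h2
      obtain ⟨ι', h3⟩ := exists_mnr_pos hH (not_lt.1 h2)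
      exact absurd (h3.trans_le (hm ι')) (by rw [← h0]; exact lt_irrefl _)
    have h5 := (Matrix.rank_mul_le_left (L * H) Lᴴ).trans (Matrix.rank_mul_le_right L H)
    rw [mnr_eq_zero (h5.trans_lt h1), ← h0, mul_zero]
  · let Q : Matrix (Fin M) (Fin n) ℂ := Matrix.of fun c j => L (J' j) c
    have hQ : (L * H * Lᴴ).submatrix J' J' = Qᵀ * H * Q.map star := by
      ext p q
      simp [Q, Matrix.mul_apply]
    rw [mnr, hQ, mat_det_conj hH h h0 Q, Complex.star_def, Complex.mul_conj, mnr_eq hH J,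
      ← Complex.ofReal_mul, Complex.ofReal_re, Complex.normSq_eq_norm_sq]
    refine mul_le_mul_of_nonneg_right (pow_le_pow_left₀ (norm_nonneg _) ?_ 2) h0.le
    have h1 := Matrix.det_le (A := Matrix.of fun i j => ∑ c, coef H J i c * Q c j)
      (abv := NormedField.toAbsoluteValue ℂ) (x := M * B) fun i j => by
        change ‖∑ c, coef H J i c * Q c j‖ ≤ M * B
        calc ‖∑ c, coef H J i c * Q c j‖ ≤ ∑ c, ‖coef H J i c * Q c j‖ := norm_sum_le _ _
          _ ≤ ∑ _c : Fin M, B := Finset.sum_le_sum fun c _ => by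
              rw [norm_mul]
              exact (mul_le_of_le_one_left (norm_nonneg _)
                (coef_le_one hH h h0 hm i c)).trans (hB _ _)
          _ = M * B := by simp
    rw [Fintype.card_fin, nsmul_eq_mul] at h1
    exact h1

/-- An isotropic subspace for a skew matrix of rank below 2 n. -/
lemma rank_lt_of_iso {P Θ : Matrix (Fin M) (Fin M) ℂ} (hP : Pᵀ = -P) (hr : P.rank < 2 * n)
    (h : Θᵀ * P * Θ = 0) : (P * Θ).rank < n := by
  let S := LinearMap.range P.mulVecLin
  let T := (Θᵀ).mulVecLin.domRestrict S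
  have h1 := LinearMap.finrank_range_add_finrank_ker T
  have h2 : Module.finrank ℂ (LinearMap.range T) = (P * Θ).rank := by
    have e1 : LinearMap.range T = LinearMap.range (Θᵀ * P).mulVecLin := by
      rw [LinearMap.range_domRestrict, Matrix.mulVecLin_mul, LinearMap.range_comp]
    have e2 : (Θᵀ * P)ᵀ = (-1 : Matrix (Fin M) (Fin M) ℂ) * (P * Θ) := by
      rw [Matrix.transpose_mul, Matrix.transpose_transpose, hP]
      simp
    have e3 : IsUnit (-1 : Matrix (Fin M) (Fin M) ℂ).det :=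
      (Matrix.isUnit_iff_isUnit_det _).1 isUnit_one.neg
    rw [e1, ← Matrix.rank_mul_eq_right_of_isUnit_det _ (P * Θ) e3, ← e2, Matrix.rank_transpose]
    rfl
  have hle : LinearMap.range (P * Θ).mulVecLin ≤ S := by
    rw [Matrix.mulVecLin_mul]
    exact LinearMap.range_comp_le_range _ _
  have h3 : (P * Θ).rank ≤ Module.finrank ℂ (LinearMap.ker T) := by
    have e1 : (P * Θ).rank = Module.finrank ℂ
        ((LinearMap.range (P * Θ).mulVecLin).comap S.subtype) :=
      (Submodule.comapSubtypeEquivOfLe hle).finrank_eq.symm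
    rw [e1]
    refine Submodule.finrank_mono ?_
    rintro ⟨v, hv⟩ ⟨w, hw⟩
    have hw' : (P * Θ) *ᵥ w = v := hw
    change Θᵀ *ᵥ v = 0
    rw [← hw', Matrix.mulVec_mulVec, ← Matrix.mul_assoc, h, Matrix.zero_mulVec]
  have h4 : Module.finrank ℂ S = P.rank := rfl
  omega

end

namespace Emb

variable {C : Chart N} {D : AmbChart M} (e : Emb C D) {y : E N}

lemma G_eq (hy : y ∈ e.O) : D.G (e.j y) = jac e.j y * C.G y * (jac e.j y)ᴴ := by
  have h1 : (jac e.j y).map star = ((jac e.j y)ᵀ)ᴴ := rfl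
  rw [AmbChart.G, Chart.G, e.π_eq y hy, e.η_eq y hy, h1, Matrix.conjTranspose_mul,
    Matrix.conjTranspose_mul]
  simp only [Matrix.mul_assoc]

lemma G_psd (hy : y ∈ e.O) : (D.G (e.j y)).PosSemidef := by
  rw [e.G_eq hy]
  exact (Chart.G_psd (e.sub hy)).mul_mul_conjTranspose_same _

lemma rank_G (hy : y ∈ e.O) : (D.G (e.j y)).rank = (C.η y).rank := by
  have h2 : (fderiv ℂ e.j y : E N →ₗ[ℂ] E M) = Matrix.toLin' (jac e.j y) := by
    refine (Pi.basisFun ℂ (Fin N)).ext fun k => ?_
    funext a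
    simp [jac]
  have h3 : LinearMap.ker (Matrix.toLin' (jac e.j y)) = ⊥ := by
    rw [← h2]
    exact LinearMap.ker_eq_bot.2 (e.inj y hy)
  obtain ⟨g, hg⟩ := LinearMap.exists_leftInverse_of_injective _ h3
  have hL : LinearMap.toMatrix' g * jac e.j y = 1 := by
    have h4 := congrArg LinearMap.toMatrix' hg
    rwa [LinearMap.toMatrix'_comp, LinearMap.toMatrix'_toLin', LinearMap.toMatrix'_id] at h4
  have hu : IsUnit (C.π y).det := Matrix.isUnit_det_of_right_inverse (Chart.π_mul_σ (e.sub hy))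
  have h5 : (C.G y).rank = (C.η y).rank := by
    rw [Chart.G, Matrix.rank_mul_eq_left_of_isUnit_det,
      Matrix.rank_mul_eq_right_of_isUnit_det _ _ hu]
    rw [Matrix.det_conjTranspose]
    exact hu.star
  have h6 : C.G y = LinearMap.toMatrix' g * D.G (e.j y) * (LinearMap.toMatrix' g)ᴴ := by
    rw [e.G_eq hy, ← Matrix.mul_assoc, ← Matrix.mul_assoc, hL, Matrix.one_mul, Matrix.mul_assoc,
      ← Matrix.conjTranspose_mul, hL, Matrix.conjTranspose_one, Matrix.mul_one]
  rw [← h5]
  refine le_antisymm ?_ ?_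
  · rw [e.G_eq hy]
    exact (Matrix.rank_mul_le_left _ _).trans (Matrix.rank_mul_le_right _ _)
  · conv_lhs => rw [h6]
    exact (Matrix.rank_mul_le_left _ _).trans (Matrix.rank_mul_le_right _ _)

lemma mat_H (a : Fin M) (x : Fin N) : e.H a y x = (jac e.j y * C.π y) a x := by
  rw [Emb.H, Matrix.mul_apply]
  exact Finset.sum_congr rfl fun c _ => mul_comm _ _

lemma G_apply (hy : y ∈ e.O) (a b : Fin M) :
    D.G (e.j y) a b = ∑ x, ∑ c, e.H a y x * C.η y x c * star (e.H b y c) := by
  have h1 : D.G (e.j y) = (jac e.j y * C.π y) * C.η y * (jac e.j y * C.π y)ᴴ := by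
    rw [e.G_eq hy, Chart.G, Matrix.conjTranspose_mul]
    simp only [Matrix.mul_assoc]
  rw [h1, Matrix.mul_apply, Finset.sum_comm]
  refine Finset.sum_congr rfl fun c _ => ?_
  rw [Matrix.mul_apply, Finset.sum_mul, Matrix.conjTranspose_apply]
  simp only [e.mat_H]

lemma iso (hC : C.Iso) (hy : y ∈ e.O) :
    (D.η (e.j y) * (D.π (e.j y))ᴴ)ᵀ * D.π (e.j y) * (D.η (e.j y) * (D.π (e.j y))ᴴ) = 0 := by
  have h1 : (jac e.j y).map star = ((jac e.j y)ᵀ)ᴴ := rfl
  have h2 : (jac e.j y)ᵀ * (D.η (e.j y) * (D.π (e.j y))ᴴ) =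
      C.η y * ((C.π y)ᴴ * (jac e.j y)ᴴ) := by
    rw [e.π_eq y hy, e.η_eq y hy, h1, Matrix.conjTranspose_mul, Matrix.conjTranspose_mul]
    simp only [Matrix.mul_assoc]
  have h3 : ∀ Θ : Matrix (Fin M) (Fin M) ℂ, Θᵀ * D.π (e.j y) * Θ =
      ((jac e.j y)ᵀ * Θ)ᵀ * C.π y * ((jac e.j y)ᵀ * Θ) := fun Θ => by
    rw [e.π_eq y hy, Matrix.transpose_mul, Matrix.transpose_transpose]
    simp only [Matrix.mul_assoc]
  have h4 : ∀ Z : Matrix (Fin N) (Fin M) ℂ, (C.η y * Z)ᵀ * C.π y * (C.η y * Z) =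
      Zᵀ * ((C.η y)ᵀ * C.π y * C.η y) * Z := fun Z => by
    rw [Matrix.transpose_mul]
    simp only [Matrix.mul_assoc]
  rw [h3, h2, h4, hC y (e.sub hy), Matrix.mul_zero, Matrix.zero_mul]

lemma H_hol (a : Fin M) (x : Fin N) : DifferentiableOn ℂ (fun y => e.H a y x) e.O :=
  DifferentiableOn.fun_sum fun c _ =>
    ((C.π_hol c x).mono e.sub).mul (jac_hol e.isOpen e.hol a c)

lemma jac_H (hy : y ∈ e.O) (a b : Fin M) : (jac e.j y *ᵥ e.H a y) b = D.π (e.j y) a b := by
  rw [e.π_eq y hy, Matrix.mul_apply, Matrix.mulVec, dotProduct]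
  refine Finset.sum_congr rfl fun x _ => ?_
  rw [e.mat_H, Matrix.transpose_apply, mul_comm]

end Emb

lemma AmbChart.G_smooth (D : AmbChart M) (a b : Fin M) :
    ContDiffOn ℝ ∞ (fun w => D.G w a b) D.W := by
  have hπ : ∀ a b, ContDiffOn ℝ ∞ (fun w => D.π w a b) D.W := fun a b =>
    (Lib.SCV.contDiffOn_of_differentiableOn D.isOpen (D.π_hol a b)).restrict_scalars ℝ
  simp only [AmbChart.G, Matrix.mul_apply, Matrix.conjTranspose_apply]
  exact ContDiffOn.sum fun j _ => (ContDiffOn.sum fun i _ =>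
    (hπ a i).mul (D.η_smooth i j)).mul (reg_star (hπ b j))

lemma AmbChart.b_smooth (D : AmbChart M) (J : Fin n → Fin M) : ContDiffOn ℝ ∞ (D.b J) D.W :=
  Complex.reCLM.contDiff.comp_contDiffOn
    (reg_det (𝕜 := ℝ) (M := fun w => (D.G w).submatrix J J) fun a b => D.G_smooth (J a) (J b))

end Pool.Agent.SPF
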