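import Pool.Agent.P.MP_63735c_ag.SQBound1
import Pool.Agent.P.MP_63735c_ag.SQLu
import Pool.Agent.P.MP_63735c_ag.SQCov

/-! The global maximum principle in the embedded setting. -/

open Set Filter Topology
open scoped ComplexOrder ContDiff Matrix

namespace Pool.Agent.SPF

section
variable {N n : ℕ} {X : Type} [TopologicalSpace X] {R : Set X} {A : Atlas R N}

open Classical in
/-- The curvature function read on the space. -/
noncomputable def sqmS (A : Atlas R N) (n : ℕ) (x : X) : ℝ :=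
  if h : ∃ q : A.ι × (Fin n → Fin N) × E N, q.2.2 ∈ (A.C q.1).U q.2.1 ∧ (A.p q.1 q.2.2 : X) = x then
    (A.C h.choose.1).S h.choose.2.1 h.choose.2.2 else 0

lemma sqm_eq (hN : N = 2 * n) (hI : ∀ i, (A.C i).Iso) {i : A.ι} {ι : Fin n → Fin N} {y : E N}
    (hy : y ∈ (A.C i).U ι) : sqmS A n (A.p i y) = (A.C i).S ι y := by
  have h : ∃ q : A.ι × (Fin n → Fin N) × E N,
      q.2.2 ∈ (A.C q.1).U q.2.1 ∧ (A.p q.1 q.2.2 : X) = A.p i y := ⟨(i, ι, y), hy, rfl⟩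
  rw [sqmS, dif_pos h]
  obtain ⟨h1, h2⟩ := h.choose_spec
  obtain ⟨O, φ, h3, h4, h5, -⟩ := A.trans _ i _ h1.1 y hy.1 (Subtype.ext h2)
  rw [h3.S_eq hN (hI _) (hI i) h4 h1 (h5.symm ▸ hy), h5]

lemma sqm_cases (hN : N = 2 * n) (hI : ∀ i, (A.C i).Iso) (x : X) : sqmS A n x = 0 ∨
    ∃ (i : A.ι) (ι : Fin n → Fin N), ∃ y ∈ (A.C i).U ι, (A.p i y : X) = x ∧
      sqmS A n x = (A.C i).S ι y := by
  by_cases h : ∃ q : A.ι × (Fin n → Fin N) × E N,
      q.2.2 ∈ (A.C q.1).U q.2.1 ∧ (A.p q.1 q.2.2 : X) = x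
  · obtain ⟨⟨i, ι, y⟩, h1, rfl⟩ := h
    exact Or.inr ⟨i, ι, y, h1, rfl, sqm_eq hN hI h1⟩
  · exact Or.inl (dif_neg h)

lemma sqm_nonneg (hN : N = 2 * n) (hI : ∀ i, (A.C i).Iso) (x : X) : 0 ≤ sqmS A n x := by
  rcases sqm_cases hN hI x with h | ⟨i, ι, y, hy, -, h⟩
  · exact h.ge
  · rw [h]; exact Chart.S_nonneg hN (hI i) hy

lemma sqm_contP {i : A.ι} {y : E N} (hy : y ∈ (A.C i).W) :
    ContinuousAt (fun y' => (A.p i y' : X)) y :=
  continuous_subtype_val.continuousAt.comp ((A.cont i).continuousAt ((A.C i).isOpen.mem_nhds hy))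

lemma sqm_nhds (hR : IsOpen R) {i : A.ι} {y : E N} (hy : y ∈ (A.C i).W) :
    𝓝 (A.p i y : X) ≤ map (fun y' => (A.p i y' : X)) (𝓝 y) := by
  intro s hs
  obtain ⟨O, h1, h2, h3⟩ := mem_nhds_iff.1 (inter_mem (mem_map.1 hs) ((A.C i).isOpen.mem_nhds hy))
  have h4 := hR.isOpenMap_subtype_val _ (A.opn i O h2 fun _ h => (h1 h).2)
  refine mem_of_superset (h4.mem_nhds ⟨_, ⟨y, h3, rfl⟩, rfl⟩) ?_
  rintro _ ⟨_, ⟨w, hw, rfl⟩, rfl⟩
  exact (h1 hw).1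

lemma sqm_contAt (hN : N = 2 * n) (hR : IsOpen R) (hI : ∀ i, (A.C i).Iso) {i : A.ι}
    {ι : Fin n → Fin N} {y : E N} (hy : y ∈ (A.C i).U ι) :
    ContinuousAt (sqmS A n) (A.p i y : X) := by
  have hn := ((A.C i).isOpen_U ι).mem_nhds hy
  have h1 : Tendsto (fun y' => sqmS A n (A.p i y')) (𝓝 y) (𝓝 (sqmS A n (A.p i y))) := by
    rw [sqm_eq hN hI hy]
    refine (((A.C i).S_smooth ι).continuousOn.continuousAt hn).tendsto.congr' ?_
    filter_upwards [hn] with w hw using (sqm_eq hN hI hw).symm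
  exact (tendsto_map' (f := sqmS A n) h1).mono_left (sqm_nhds hR hy.1)

lemma sqm_chart (hN : N = 2 * n) (hd : Dense R) (hI : ∀ i, (A.C i).Iso) (B : Amb R A)
    {α : B.κ} {x : X} (hx : x ∈ B.V α) {J : Fin n → Fin (B.M α)}
    (h : (B.D α).b J (B.z α x) ≠ 0) :
    ∃ (i : A.ι) (ι : Fin n → Fin N), ∃ y ∈ (A.C i).U ι, (A.p i y : X) = x := by
  obtain ⟨hR, i, y, hy, h1, h2⟩ := B.rk_of_b hN hd hI hx h
  obtain ⟨ι, hU⟩ := Chart.exists_U (n := n) hy h2.ge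
  exact ⟨i, ι, y, hU, congrArg Subtype.val h1⟩

lemma sqm_b_nonneg (hN : N = 2 * n) (hd : Dense R) (hI : ∀ i, (A.C i).Iso) (B : Amb R A)
    {α : B.κ} {x : X} (hx : x ∈ B.V α) (J : Fin n → Fin (B.M α)) :
    0 ≤ (B.D α).b J (B.z α x) := by
  by_cases h : (B.D α).b J (B.z α x) = 0
  · exact h.ge
  · obtain ⟨i, ι, y, hy, rfl⟩ := sqm_chart hN hd hI B hx h
    exact mnr_nonneg ((B.emb α i).G_psd (y := y) ⟨hy.1, hx⟩) J

variable {B : Amb R A}

lemma sqm_w_nonneg (hN : N = 2 * n) (hd : Dense R) (hI : ∀ i, (A.C i).Iso) (P : Cov2 B) (t : P.T)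
    (J : Fin n → Fin (B.M (P.c t))) {x : X} (hx : x ∈ P.K t) : 0 ≤ P.w t J x :=
  mul_nonneg (P.nonneg t _) (sqm_b_nonneg hN hd hI B (P.sub t hx) J)

lemma sqm_cpt (P : Cov2 B) (t : P.T) : IsCompact (B.z (P.c t) '' P.K t) :=
  (P.cpt t).image_of_continuousOn ((B.cont _).mono (P.sub t))

lemma sqm_sub (P : Cov2 B) (t : P.T) : B.z (P.c t) '' P.K t ⊆ (B.D (P.c t)).W := by
  rintro _ ⟨x, hx, rfl⟩
  exact B.maps _ (P.sub t hx)

lemma sqm_cont (hN : N = 2 * n) (hR : IsOpen R) (hd : Dense R) (hI : ∀ i, (A.C i).Iso)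
    (P : Cov2 B) (t : P.T) (J : Fin n → Fin (B.M (P.c t))) {ε : ℝ} (hε : 0 < ε) :
    ContinuousOn (fun x => sqmS A n x * P.w t J x ^ ε) (P.K t) := by
  obtain ⟨M, hM0, hM⟩ := (B.D (P.c t)).S_bound hN (sqm_cpt P t) (sqm_sub P t)
  have hb : ∀ x ∈ P.K t, sqmS A n x ≤ M := fun x hx => by
    rcases sqm_cases hN hI x with h | ⟨i, ι, y, hy, rfl, h⟩
    · exact h.trans_le hM0
    · rw [h]
      exact hM _ (B.emb (P.c t) i) ι (hI i) y ⟨hy.1, P.sub t hx⟩ hy ⟨_, hx, rfl⟩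
  intro x hx
  have hc : ContinuousWithinAt (fun x => P.w t J x ^ ε) (P.K t) x :=
    (P.w_cont t J x hx).rpow_const (Or.inr hε.le)
  by_cases h : P.w t J x = 0
  · have h2 : Tendsto (fun x => M * P.w t J x ^ ε) (𝓝[P.K t] x) (𝓝 0) := by
      have := hc.tendsto.const_mul M
      rwa [h, Real.zero_rpow hε.ne', mul_zero] at this
    rw [ContinuousWithinAt, h, Real.zero_rpow hε.ne', mul_zero]
    refine squeeze_zero' ?_ ?_ h2
    · filter_upwards [self_mem_nhdsWithin] with w hw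
      exact mul_nonneg (sqm_nonneg hN hI w) (Real.rpow_nonneg (sqm_w_nonneg hN hd hI P t J hw) ε)
    · filter_upwards [self_mem_nhdsWithin] with w hw
      exact mul_le_mul_of_nonneg_right (hb w hw)
        (Real.rpow_nonneg (sqm_w_nonneg hN hd hI P t J hw) ε)
  · obtain ⟨i, ι, y, hy, rfl⟩ := sqm_chart hN hd hI B (P.sub t hx) (right_ne_zero_of_mul h)
    exact (sqm_contAt hN hR hI hy).continuousWithinAt.mul hc

lemma sqm_bound [T2Space X] (hN : N = 2 * n) (hR : IsOpen R) (hd : Dense R)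
    (hI : ∀ i, (A.C i).Iso) (P : Cov2 B) : ∃ M : ℝ, ∀ ε : ℝ, 0 < ε → ε ≤ 1 →
      ∀ (t : P.T) (J : Fin n → Fin (B.M (P.c t))), ∀ x ∈ P.K t,
        sqmS A n x * P.w t J x ^ ε ≤ ε * M := by
  have := P.fin
  obtain ⟨c, hc, hact⟩ := P.exists_active hN hR hd hI
  choose M hM0 hM using fun t : P.T =>
    (B.D (P.c t)).S_le_of_max hN (sqm_cpt P t) (sqm_sub P t) (P.smooth t) hc
  obtain ⟨M', hM'⟩ := Finite.exists_le M
  choose b hb using fun j : Σ t : P.T, (Fin n → Fin (B.M (P.c t))) =>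
    (P.cpt j.1).bddAbove_image (P.w_cont j.1 j.2)
  obtain ⟨b', hb'⟩ := Finite.exists_le b
  refine ⟨M' * max 1 b', fun ε hε hε1 t' J' x' hx' => ?_⟩
  have hcp : IsCompact (⋃ j : Σ t : P.T, (Fin n → Fin (B.M (P.c t))),
      (fun x => sqmS A n x * P.w j.1 j.2 x ^ ε) '' P.K j.1) :=
    isCompact_iUnion fun j => (P.cpt j.1).image_of_continuousOn (sqm_cont hN hR hd hI P j.1 j.2 hε)
  obtain ⟨v, hv, hmax⟩ := hcp.exists_isGreatest ⟨_, mem_iUnion.2 ⟨⟨t', J'⟩, x', hx', rfl⟩⟩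
  obtain ⟨⟨t, J⟩, x, hx, rfl⟩ := mem_iUnion.1 hv
  replace hmax : ∀ (t' : P.T) (J' : Fin n → Fin (B.M (P.c t'))), ∀ x' ∈ P.K t',
      sqmS A n x' * P.w t' J' x' ^ ε ≤ sqmS A n x * P.w t J x ^ ε := fun t' J' x' hx' =>
    hmax (mem_iUnion.2 ⟨⟨t', J'⟩, x', hx', rfl⟩)
  refine (hmax t' J' x' hx').trans ?_
  have hM1 : 0 ≤ M' := (hM0 t).trans (hM' t)
  have hb1 : (1 : ℝ) ≤ max 1 b' := le_max_left _ _
  rcases le_or_gt (sqmS A n x * P.w t J x ^ ε) 0 with h | h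
  · exact h.trans (by positivity)
  have w0 := sqm_w_nonneg hN hd hI P t J hx
  have hw : P.w t J x ≠ 0 := fun h' => by
    rw [h', Real.zero_rpow hε.ne', mul_zero] at h; exact h.false
  have hS : 0 < sqmS A n x :=
    (sqm_nonneg hN hI x).lt_of_ne' fun h' => by rw [h', zero_mul] at h; exact h.false
  have hA : P.Active t J x := ⟨hx, fun t' J' hx' =>
    (Real.rpow_le_rpow_iff (sqm_w_nonneg hN hd hI P t' J' hx') w0 hε).1
      (le_of_mul_le_mul_left (hmax t' J' x hx') hS)⟩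
  obtain ⟨i, ι, y, hy, rfl⟩ := sqm_chart hN hd hI B (P.sub t hx) (right_ne_zero_of_mul hw)
  obtain ⟨hb0, -, hcρ⟩ := (hact (A.p i y) ⟨i, y, hy.1, rfl,
    le_antisymm (Chart.rank_le hN (hI i) hy.1) (Chart.le_rank hy)⟩).2 t J hA
  have hloc : IsLocalMax (fun y' => (A.C i).S ι y' * (P.ρ t ((B.emb (P.c t) i).j y') *
      (B.D (P.c t)).b J ((B.emb (P.c t) i).j y')) ^ ε) y := by
    filter_upwards [((A.C i).isOpen_U ι).mem_nhds hy,
      sqm_contP hy.1 (P.nhds t _ hx (hc.trans_le hcρ).ne')] with w h1 h2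
    have := hmax t J _ h2
    rwa [sqm_eq hN hI h1, sqm_eq hN hI hy] at this
  have h3 := (hM t _ (B.emb (P.c t) i) ι J (hI i) y ⟨hy.1, P.sub t hx⟩ hy ⟨_, hx, rfl⟩ ε hε hb0 hcρ
    hloc).trans (mul_le_mul_of_nonneg_left (hM' t) hε.le)
  have h4 : P.w t J (A.p i y) ≤ max 1 b' :=
    ((hb ⟨t, J⟩ ⟨_, hx, rfl⟩).trans (hb' _)).trans (le_max_right _ _)
  have h5 : P.w t J (A.p i y) ^ ε ≤ max 1 b' :=
    (Real.rpow_le_rpow w0 h4 hε.le).trans (Real.rpow_le_self_of_one_le hb1 hε1)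
  rw [sqm_eq hN hI hy, ← mul_assoc]
  exact mul_le_mul h3 h5 (Real.rpow_nonneg w0 ε) (by positivity)

end

variable {N n : ℕ} {X : Type} [TopologicalSpace X] [T2Space X] [CompactSpace X] {R : Set X}
  {A : Atlas R N}

theorem Amb.S_eq_zero (hN : N = 2 * n) (hR : IsOpen R) (hd : Dense R) (hI : ∀ i, (A.C i).Iso)
    (B : Amb R A) (i : A.ι) (ι : Fin n → Fin N) (y : E N) (hy : y ∈ (A.C i).U ι) :
    (A.C i).S ι y = 0 := by
  obtain ⟨P⟩ := B.exists_cov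
  obtain ⟨M, hM⟩ := sqm_bound hN hR hd hI P
  obtain ⟨t, hx, hρ⟩ := P.one (A.p i y)
  have hO : y ∈ (B.emb (P.c t) i).O := ⟨hy.1, P.sub t hx⟩
  obtain ⟨J, hb⟩ := exists_mnr_pos (n := n) ((B.emb (P.c t) i).G_psd hO)
    (by rw [(B.emb (P.c t) i).rank_G hO]; exact Chart.le_rank hy)
  have hw : 0 < P.w t J (A.p i y) := by
    rw [Cov2.w, hρ, one_mul]; exact hb
  have hS := Chart.S_nonneg hN (hI i) hy
  have key : ∀ ε : ℝ, 0 < ε → ε ≤ 1 →
      (A.C i).S ι y * min 1 (P.w t J (A.p i y)) ≤ ε * M := fun ε hε hε1 => by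
    have := hM ε hε hε1 t J _ hx
    rw [sqm_eq hN hI hy] at this
    refine (mul_le_mul_of_nonneg_left ?_ hS).trans this
    rcases le_total 1 (P.w t J (A.p i y)) with h | h
    · exact (min_le_left _ _).trans (Real.one_le_rpow h hε.le)
    · exact (min_le_right _ _).trans (Real.self_le_rpow_of_le_one hw.le h hε1)
  have hm : 0 < min 1 (P.w t J (A.p i y)) := lt_min one_pos hw
  have h4 : (A.C i).S ι y * min 1 (P.w t J (A.p i y)) ≤ 0 := by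
    have ht : Tendsto (fun ε : ℝ => ε * M) (𝓝[>] 0) (𝓝 0) := by
      have h5 : Continuous fun ε : ℝ => ε * M := by fun_prop
      have := (h5.tendsto 0).mono_left (nhdsWithin_le_nhds (s := Ioi 0))
      rwa [zero_mul] at this
    refine ge_of_tendsto ht ?_
    filter_upwards [Ioc_mem_nhdsGT one_pos] with ε hε using key ε hε.1 hε.2
  exact le_antisymm (nonpos_of_mul_nonpos_left h4 hm) hS

end Pool.Agent.SPF
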