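import Pool.Agent.P.MP_63735c_ag.ZBM

open MeasureTheory Pool.Agent.SPF Pool.Agent.NL Pool.Agent.CK Pool.Agent.HS Pool.Agent.SE
  Pool.Agent.ZB

namespace Pool.Agent.ZB.Kept

theorem semiample_kept (n : ℕ) (hn : 1 ≤ n) (X : Type) [TopologicalSpace X] [T2Space X] [CompactSpace X]
    (R : Set X) (hR : IsOpen R) (hd : Dense R) [PreconnectedSpace R] (A : Atlas R (2 * n))
    (B : Amb R A) (hinj : ∀ i, Set.InjOn (A.p i) (A.C i).W) (hN : Normal B) (hO : NoOdd A)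
    [MeasurableSpace R] [BorelSpace R] (μ : Measure R) [IsFiniteMeasure μ] (hμ : IsVolume A μ)
    (K : Form11 A) (hK : KahS B K) (H : BBF n A μ K) (hL : H.Isotropic) (L : Line A)
    (hC : Cartier L) (hη : ∃ i, ∃ z ∈ (A.C i).W, (A.C i).η z ≠ 0) (Y : Type) [TopologicalSpace Y]
    [T2Space Y] [CompactSpace Y] (Z : Res L Y) (P : Over B Z) (h1 : H1Y Z) (h2 : H02Y Z) :
    ∃ j : ℕ, 1 ≤ j ∧ ∃ (r : ℕ) (s : Fin r → A.ι → E (2 * n) → ℂ), (∀ l, L.IsSection j (s l)) ∧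
      ∃ c : ℝ, 0 < c ∧ ∀ i, ∀ z ∈ (A.C i).W,
        c ≤ ∑ l, ‖s l i z‖ ^ 2 * Real.exp (-(j * L.ψ i z)) := by
  obtain ⟨hI, ⟨S⟩⟩ := exists_sec hn hR hd hinj hO hμ hK.isKahler hL hη Z
  obtain ⟨S', hb⟩ := exists_sys rfl hn hinj hμ hK hN hC hI S
  exact S'.bpf hμ hK hN hC P h1 h2 hη

end Pool.Agent.ZB.Kept
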