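import Pool.Agent.P.MP_63735c_ag.TaInerB

/-! Anti-invariant functions: local frames of the torsion line bundle. -/

noncomputable section

namespace Pool.Agent.P.MP_63735c_ag.Ta

variable {K : Type} [Field K] [Algebra ℂ K] {x y : Fin 4 → K} {O : Subalgebra ℂ K} {θ θ' a : K}

/-- `θ` is invariant under `N` and changes sign under the other elements of `G`. -/
def Anti (x y : Fin 4 → K) (θ : K) : Prop :=
  θ ≠ 0 ∧ (∀ g ∈ NN x y, g θ = θ) ∧ ∀ g ∈ GG x y, g ∉ NN x y → g θ = -θ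

theorem Anti.sq_fixed (h : Anti x y θ) : ∀ g ∈ GG x y, g (θ ^ 2) = θ ^ 2 := by
  intro g hg
  by_cases hN : g ∈ NN x y
  · rw [map_pow, h.2.1 g hN]
  · rw [map_pow, h.2.2 g hg hN, neg_sq]

theorem anti_shift (p : (Fin 4 → ℂ) × (Fin 4 → ℂ)) (hp : p ∈ Pc 4 ⊓ Pe) :
    ((fun i => p.1 (i + 2), fun i => p.2 (i + 2)) : (Fin 4 → ℂ) × (Fin 4 → ℂ)) ∈ Pc 4 ⊓ Pe := by
  obtain ⟨⟨h1, h2, h3, h4⟩, h5⟩ := hp
  refine ⟨⟨h2, h1, (mul_comm _ _).trans h3, ?_⟩, fun i => (h5 _).trans (h5 _).symm⟩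
  change p.1 2 ^ 4 = 1
  rw [← one_mul (p.1 2 ^ 4), ← h4, ← mul_pow, h3, one_pow, h4]

theorem anti_NN_le : NN x y ≤ GG x y := (normalIn_dg le_rfl anti_shift).1

variable {h : Ell x y}

theorem Ell.XPt.exists_anti (hO : h.XPt O) : ∃ θ, Anti x y θ ∧ Un O (θ ^ 2) := by
  have := h.finite_GG
  obtain ⟨O', hA, hd⟩ := hO.exists_over
  obtain ⟨c, hB, hC⟩ := hO.common hA hd
  obtain ⟨g₀, hg₀, hN₀⟩ := h.exists_not_mem_NN
  obtain ⟨f, hf, hu⟩ := dedekind (h.stable_CC c) anti_NN_le hC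
    (fun g hg hi => inO_false h hA hg (Inert.toLoc (h.stable_CC c g hg) hC hi)) hg₀ hN₀
  have hN₁ : g₀⁻¹ ∉ NN x y := fun h1 => hN₀ (by simpa using inv_mem h1)
  have key : ∀ g ∈ GG x y, g ∉ NN x y → g f = g₀ f := fun g hg hN => by
    have h1 := hf.2 _ (h.mul_mem_NN (inv_mem hg₀) hg hN₁ hN)
    conv_rhs => rw [← h1]
    rw [← AlgEquiv.mul_apply, mul_inv_cancel_left]
  have hθ : Anti x y (g₀ f - f) := by
    refine ⟨hu.2.1, fun g hg => ?_, fun g hg hN => ?_⟩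
    · rw [map_sub, hf.2 g hg, ← AlgEquiv.mul_apply,
        key _ (mul_mem (anti_NN_le hg) hg₀) fun h1 => hN₀ ((mul_mem_cancel_left hg).1 h1)]
    · rw [map_sub, key g hg hN, ← AlgEquiv.mul_apply, hf.2 _ (h.mul_mem_NN hg hg₀ hN hN₀), neg_sub]
  refine ⟨_, hθ, hd.2 _ (hB.le ⟨pow_mem (sub_mem (h.stable_CC c g₀ hg₀ f hf.1) hf.1) 2,
    hθ.sq_fixed⟩) (hu.pow 2)⟩

theorem Ell.XPt.anti_div (hO : h.XPt O) (h1 : Anti x y θ) (h2 : Anti x y θ') (u1 : Un O (θ ^ 2))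
    (u2 : Un O (θ' ^ 2)) : θ / θ' ∈ O := by
  refine hO.normal (fun g hg => ?_) (IsIntegral.of_pow two_pos ?_)
  · by_cases hN : g ∈ NN x y
    · rw [map_div₀, h1.2.1 g hN, h2.2.1 g hN]
    · rw [map_div₀, h1.2.2 g hg hN, h2.2.2 g hg hN, neg_div_neg_eq]
  · rw [div_pow]
    exact isIntegral_algebraMap (x := (⟨_, (u1.div u2).1⟩ : O))

theorem Ell.const_of_anti (h : Ell x y) {m : ℕ}
    (ha : ∀ θ O, Anti x y θ → h.XPt O → Un O (θ ^ 2) → a * θ ^ m ∈ O) :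
    ∃ c : ℂ, a = algebraMap ℂ K c := by
  refine h.const_of_apt fun O' hA => ?_
  obtain ⟨O, hO, hd⟩ := h.exists_under hA
  obtain ⟨θ, hθ, hu⟩ := hO.exists_anti
  have hu' := hu.mono hd.1
  have h1 : Un O' (θ ^ m) := (Un.of_pow ((h.apt_nrm hA).of_sq hu'.1) two_pos hu').pow m
  have h2 := mul_mem (hd.1 (ha θ O hθ hO hu)) h1.2.2
  rwa [mul_inv_cancel_right₀ h1.2.1] at h2

theorem Ell.not_un_anti (h : Ell x y) :
    ¬ ∀ θ O, Anti x y θ → h.XPt O → Un O (θ ^ 2) → Un O (a * θ) := by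
  intro H
  obtain ⟨c, rfl⟩ := h.const_of_anti (a := a) (m := 1) fun θ O h1 h2 h3 => by
    rw [pow_one]
    exact (H θ O h1 h2 h3).1
  obtain ⟨P, hP⟩ := Ideal.exists_maximal (h.BB 0)
  have hO : h.XPt (locAt (h.BB 0) P) := ⟨0, isLocOf_locAt P⟩
  obtain ⟨θ, hθ, hu⟩ := hO.exists_anti
  obtain ⟨g, hg, hN⟩ := h.exists_not_mem_NN
  have h1 := H θ _ hθ hO hu
  have h2 := hO.fixed h1.1 g hg
  rw [map_mul, g.commutes, hθ.2.2 g hg hN, mul_neg] at h2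
  have : CharZero K := charZero_of_injective_algebraMap (algebraMap ℂ K).injective
  exact h1.2.1 (CharZero.neg_eq_self_iff.1 h2)

end Pool.Agent.P.MP_63735c_ag.Ta
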