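import Pool.Agent.P.MP_63735c_ag.TaDefs

/-! Common vocabulary of the proof: subalgebras of one field `K`, their local rings, invariants,
etale inclusions, filtrations and their graded rings. -/

open Polynomial

noncomputable section

namespace Pool.Agent.P.MP_63735c_ag.Ta

variable {K : Type} [Field K] [Algebra ℂ K]

/-- `f` is a unit of `O`. -/
def Un (O : Subalgebra ℂ K) (f : K) : Prop := f ∈ O ∧ f ≠ 0 ∧ f⁻¹ ∈ O

/-- `O` is the local ring of `C` at a prime ideal. -/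
structure IsLocOf (C O : Subalgebra ℂ K) : Prop where
  le : C ≤ O
  add : ∀ f ∈ O, ∀ g ∈ O, Un O (f + g) → Un O f ∨ Un O g
  frac : ∀ f ∈ O, ∃ b ∈ C, Un O b ∧ b * f ∈ C

/-- `O'` dominates `O`. -/
def Dom (O O' : Subalgebra ℂ K) : Prop := O ≤ O' ∧ ∀ f ∈ O, Un O' f → Un O f

/-- `C[1/s]`. -/
def away (C : Subalgebra ℂ K) (s : K) : Subalgebra ℂ K :=
  Algebra.adjoin ℂ (insert s⁻¹ (C : Set K))

/-- The local ring of `C` at `P`. -/
def locAt (C : Subalgebra ℂ K) (P : Ideal C) [hP : P.IsPrime] : Subalgebra ℂ K where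
  carrier := {f | ∃ b : C, b ∉ P ∧ (b : K) * f ∈ C}
  mul_mem' := by
    rintro f g ⟨b, hb, hf⟩ ⟨c, hc, hg⟩
    refine ⟨b * c, fun h => (hP.mem_or_mem h).elim hb hc, ?_⟩
    have := mul_mem hf hg
    rwa [show (b : K) * f * (c * g) = ((b * c : C) : K) * (f * g) by push_cast; ring] at this
  add_mem' := by
    rintro f g ⟨b, hb, hf⟩ ⟨c, hc, hg⟩
    refine ⟨b * c, fun h => (hP.mem_or_mem h).elim hb hc, ?_⟩
    have := add_mem (mul_mem c.2 hf) (mul_mem b.2 hg)
    rwa [show (c : K) * (b * f) + b * (c * g) = ((b * c : C) : K) * (f + g) by push_cast; ring]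
      at this
  algebraMap_mem' r := ⟨1, (Ideal.ne_top_iff_one P).1 hP.ne_top, by simp⟩

/-- The elements of `C` fixed by `H`. -/
def inv (H : Subgroup (K ≃ₐ[ℂ] K)) (C : Subalgebra ℂ K) : Subalgebra ℂ K where
  carrier := {f | f ∈ C ∧ ∀ g ∈ H, g f = f}
  mul_mem' := fun ha hb => ⟨mul_mem ha.1 hb.1, fun g hg => by rw [map_mul, ha.2 g hg, hb.2 g hg]⟩
  add_mem' := fun ha hb => ⟨add_mem ha.1 hb.1, fun g hg => by rw [map_add, ha.2 g hg, hb.2 g hg]⟩
  algebraMap_mem' r := ⟨C.algebraMap_mem r, fun g _ => g.commutes r⟩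

theorem mem_inv {H : Subgroup (K ≃ₐ[ℂ] K)} {C : Subalgebra ℂ K} {f : K} :
    f ∈ inv H C ↔ f ∈ C ∧ ∀ g ∈ H, g f = f := Iff.rfl

/-- `H` maps `C` to itself. -/
def Stable (H : Subgroup (K ≃ₐ[ℂ] K)) (C : Subalgebra ℂ K) : Prop := ∀ g ∈ H, ∀ f ∈ C, g f ∈ C

/-- `H` is normalised by `G`. -/
def NormalIn (H G : Subgroup (K ≃ₐ[ℂ] K)) : Prop := H ≤ G ∧ ∀ g ∈ G, ∀ h ∈ H, g * h * g⁻¹ ∈ H

/-- `g` acts trivially on `C` modulo the maximal ideal of `O`. -/
def Inert (g : K ≃ₐ[ℂ] K) (C O : Subalgebra ℂ K) : Prop := ∀ f ∈ C, ¬ Un O (g f - f)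

/-- `B ⊆ D` is etale. -/
def Et (B D : Subalgebra ℂ K) : Prop :=
  ∃ h : B ≤ D, (Subalgebra.inclusion h).toRingHom.Etale

/-- `O` contains every element of `K` that is integral over it. -/
def Nrm (O : Subalgebra ℂ K) : Prop := ∀ f : K, IsIntegral O f → f ∈ O

/-- The Cech differential on `K`-valued cochains. -/
def kd {ι : Type} (n : ℕ) (c : (Fin (n + 1) → ι) → K) (t : Fin (n + 2) → ι) : K :=
  ∑ k : Fin (n + 2), (-1) ^ (k : ℕ) * c (t ∘ k.succAbove)

/-- Exactness in degree `n + 1` of the complex of cochains with `c t ∈ A n t`. -/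
def KZ {ι : Type} (A : ∀ n : ℕ, (Fin (n + 1) → ι) → Subalgebra ℂ K) (n : ℕ) : Prop :=
  ∀ c : (Fin (n + 2) → ι) → K, (∀ t, c t ∈ A (n + 1) t) → kd (n + 1) c = 0 →
    ∃ b : (Fin (n + 1) → ι) → K, (∀ t, b t ∈ A n t) ∧ kd n b = c

/-- A multiplicative family of subspaces of `K`. -/
structure Filt (K : Type) [Field K] [Algebra ℂ K] where
  V : ℕ → Submodule ℂ K
  one_mem : (1 : K) ∈ V 0
  mul_mem : ∀ {k l : ℕ} {f g : K}, f ∈ V k → g ∈ V l → f * g ∈ V (k + l)
  pos : ∃ k, 0 < k ∧ ∃ h ∈ V k, h ≠ 0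

namespace Filt

variable (F : Filt K)

/-- The graded ring `⨁ V k T ^ k ⊆ K[T]`. -/
def S : Subalgebra ℂ K[X] where
  carrier := {p | ∀ k, p.coeff k ∈ F.V k}
  mul_mem' := by
    intro p q hp hq k
    rw [coeff_mul]
    refine Submodule.sum_mem _ fun c hc => ?_
    rw [← Finset.HasAntidiagonal.mem_antidiagonal.1 hc]
    exact F.mul_mem (hp _) (hq _)
  add_mem' := fun hp hq k => by rw [coeff_add]; exact add_mem (hp k) (hq k)
  algebraMap_mem' r k := by
    rw [Polynomial.algebraMap_apply, coeff_C]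
    split_ifs with h
    · rw [h, Algebra.algebraMap_eq_smul_one]
      exact Submodule.smul_mem _ _ F.one_mem
    · exact zero_mem _

/-- The element `f T ^ k` of the graded ring. -/
def hom {k : ℕ} {f : K} (hf : f ∈ F.V k) : F.S :=
  ⟨monomial k f, fun l => by
    rw [coeff_monomial]
    split_ifs with h
    · exact h ▸ hf
    · exact zero_mem _⟩

/-- The homogeneous part of degree `k`. -/
def gr (k : ℕ) : Submodule ℂ F.S where
  carrier := {p | ∀ l, l ≠ k → (p : K[X]).coeff l = 0}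
  add_mem' := fun hp hq l hl => by simp [hp l hl, hq l hl]
  zero_mem' := fun l _ => by simp
  smul_mem' := fun c p hp l hl => by simp [hp l hl]

theorem hom_mem {k : ℕ} {f : K} (hf : f ∈ F.V k) : F.hom hf ∈ F.gr k := fun l hl => by
  simp [hom, coeff_monomial, hl.symm]

theorem eq_hom {k : ℕ} {p : F.S} (hp : p ∈ F.gr k) : p = F.hom (p.2 k) := by
  ext l
  by_cases h : l = k
  · simp [hom, h]
  · simp [hom, coeff_monomial, Ne.symm h, hp l h]

instance : SetLike.GradedMonoid F.gr where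
  one_mem := fun l hl => by simp [coeff_one, hl]
  mul_mem := by
    intro i j p q hp hq l hl
    rw [MulMemClass.coe_mul, coeff_mul]
    refine Finset.sum_eq_zero fun c hc => ?_
    have := Finset.HasAntidiagonal.mem_antidiagonal.1 hc
    by_cases h : c.1 = i
    · rw [hq c.2 (by rintro rfl; exact hl (by rw [← this, h])), mul_zero]
    · rw [hp c.1 h, zero_mul]

theorem isInternal : DirectSum.IsInternal F.gr := by
  classical
  have key : ∀ (x : DirectSum ℕ fun k => F.gr k) (l : ℕ),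
      ((DirectSum.coeAddMonoidHom F.gr x : F.S) : K[X]).coeff l = ((x l : F.S) : K[X]).coeff l := by
    intro x l
    induction x using DirectSum.induction_on with
    | zero => simp
    | of i y =>
      rw [DirectSum.coeAddMonoidHom_of]
      by_cases h : l = i
      · subst h
        simp
      · rw [DirectSum.of_eq_of_ne _ _ _ h, y.2 l h]
        simp
    | add x y hx hy => simp [hx, hy]
  constructor
  · intro x y hxy
    ext l m
    by_cases h : m = l
    · rw [h, ← key, ← key, hxy]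
    · rw [(x l).2 m h, (y l).2 m h]
  · intro p
    refine ⟨∑ k ∈ (p : K[X]).support, DirectSum.of (fun k => F.gr k) k ⟨_, F.hom_mem (p.2 k)⟩, ?_⟩
    rw [map_sum]
    ext1
    simp only [DirectSum.coeAddMonoidHom_of, AddSubmonoidClass.coe_finsetSum, hom]
    exact (as_sum_support _).symm

instance : GradedAlgebra F.gr where
  toDecomposition := F.isInternal.chooseDecomposition

/-- The ring `V 0`. -/
def zero : Subalgebra ℂ K where
  carrier := F.V 0
  mul_mem' := fun hf hg => F.mul_mem hf hg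
  add_mem' := fun hf hg => add_mem hf hg
  algebraMap_mem' r := by
    rw [Algebra.algebraMap_eq_smul_one]
    exact Submodule.smul_mem _ _ F.one_mem

/-- The coordinate ring `{f / h ^ n}` of the chart `h ≠ 0`, for `h ∈ V k`. -/
def chart (k : ℕ) (h : K) : Subalgebra ℂ K :=
  Algebra.adjoin ℂ {f | ∃ n : ℕ, h ^ n * f ∈ F.V (n * k)}

/-- The graded ring is of finite type over `ℂ`. -/
def FG : Prop := Algebra.FiniteType ℂ F.S

/-- The charts of the `h i ∈ V k` cover. -/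
def Covers {ι : Type} (k : ℕ) (h : ι → K) : Prop :=
  ∀ l, 0 < l → ∀ f ∈ F.V l, f ≠ 0 → ∀ O, IsLocOf (F.chart l f) O → ∃ i, Un O (h i ^ l / f ^ k)

/-- The invariant filtration. -/
def inv (G : Subgroup (K ≃ₐ[ℂ] K))
    (hp : ∃ k, 0 < k ∧ ∃ h ∈ F.V k, h ≠ 0 ∧ ∀ g ∈ G, g h = h) : Filt K where
  V k :=
    { carrier := {f | f ∈ F.V k ∧ ∀ g ∈ G, g f = f}
      add_mem' := fun ha hb =>
        ⟨add_mem ha.1 hb.1, fun g hg => by rw [map_add, ha.2 g hg, hb.2 g hg]⟩
      zero_mem' := ⟨zero_mem _, fun g _ => map_zero g⟩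
      smul_mem' := fun c _ ha =>
        ⟨Submodule.smul_mem _ c ha.1, fun g hg => by rw [map_smul, ha.2 g hg]⟩ }
  one_mem := ⟨F.one_mem, fun g _ => map_one g⟩
  mul_mem := fun ha hb => ⟨F.mul_mem ha.1 hb.1, fun g hg => by rw [map_mul, ha.2 g hg, hb.2 g hg]⟩
  pos := by
    obtain ⟨k, hk, h, h1, h2, h3⟩ := hp
    exact ⟨k, hk, h, ⟨h1, h3⟩, h2⟩

end Filt

/-- Ring-level data of a resolution of `Spec D` by a `Proj` with vanishing higher cohomology. -/
def RatRing (D : Subalgebra ℂ K) : Prop :=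
  ∃ W : Filt K, W.zero = D ∧ W.FG ∧
    (∃ k, 0 < k ∧ ∃ h ∈ W.V k, h ≠ 0 ∧ ∃ s ∈ D, s ≠ 0 ∧ W.chart k h = away D s) ∧
    ∃ (r k : ℕ) (h : Fin r → K), 0 < k ∧ (∀ i, h i ∈ W.V k ∧ h i ≠ 0) ∧ W.Covers k h ∧
      (∀ i, Algebra.FormallySmooth ℂ (W.chart k (h i))) ∧
      ∀ n, KZ (fun m (t : Fin (m + 1) → Fin r) => W.chart ((m + 1) * k) (∏ j, h (t j))) n

end Pool.Agent.P.MP_63735c_ag.Ta
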