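import Mathlib

set_option autoImplicit false

namespace Pool.Agent.MonoCech

variable {J A : Type} [AddCommGroup A]

/-- The Cech differential on ordered tuples. -/
def d {n : ℕ} (b : (Fin n → J) → A) (l : Fin (n + 1) → J) : A :=
  ∑ k : Fin (n + 1), (-1 : ℤ) ^ (k : ℕ) • b fun i => l (k.succAbove i)

theorem d_cons {n : ℕ} (b : (Fin (n + 1) → J) → A) (a : J) (l : Fin (n + 1) → J) :
    d b (Fin.cons a l : Fin (n + 2) → J) = b l - d (fun l' => b (Fin.cons a l')) l := by
  unfold d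
  rw [Fin.sum_univ_succ, sub_eq_add_neg, ← Finset.sum_neg_distrib]
  congr 1
  · simp
  · refine Finset.sum_congr rfl fun k _ => ?_
    rw [Fin.val_succ, pow_succ, mul_neg_one, neg_smul]
    congr 3
    funext i
    refine Fin.cases ?_ (fun j => ?_) i <;> simp

theorem d_zero (b : (Fin 0 → J) → A) (l : Fin 1 → J) : d b l = b Fin.elim0 := by
  unfold d
  rw [Fin.sum_univ_one]
  simp only [Fin.val_zero, pow_zero, one_smul]
  congr 1
  exact Subsingleton.elim _ _

theorem d_sub {n : ℕ} (b c : (Fin n → J) → A) (l : Fin (n + 1) → J) :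
    d (fun x => b x - c x) l = d b l - d c l := by
  simp [d, smul_sub, Finset.sum_sub_distrib]

theorem d_add {n : ℕ} (b c : (Fin n → J) → A) (l : Fin (n + 1) → J) :
    d (fun x => b x + c x) l = d b l + d c l := by
  simp [d, smul_add, Finset.sum_add_distrib]

theorem d_congr {n : ℕ} {b c : (Fin n → J) → A} {l : Fin (n + 1) → J}
    (h : ∀ k : Fin (n + 1), (b fun i => l (k.succAbove i)) = c fun i => l (k.succAbove i)) :
    d b l = d c l :=
  Finset.sum_congr rfl fun k _ => by rw [h k]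

theorem d_d : ∀ {n : ℕ} (b : (Fin n → J) → A) (l : Fin (n + 2) → J), d (d b) l = 0
  | 0, b, l => by
    rw [← Fin.cons_self_tail l, d_cons, d_zero, d_zero, d_zero, sub_self]
  | n + 1, b, l => by
    rw [← Fin.cons_self_tail l, d_cons]
    simp only [d_cons]
    rw [d_sub, d_d, sub_zero, sub_self]

/-- Tuples inside one of the sets of the family. -/
def In (F : List (Set J)) {n : ℕ} (l : Fin n → J) : Prop := ∃ S ∈ F, ∀ i, l i ∈ S

theorem In.face {F : List (Set J)} {n : ℕ} {l : Fin (n + 1) → J} (h : In F l) (k : Fin (n + 1)) :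
    In F fun i => l (k.succAbove i) := by
  obtain ⟨S, hS, h⟩ := h
  exact ⟨S, hS, fun i => h _⟩

/-- The union of the simplices on the sets of the family is nonempty with no reduced cohomology. -/
def Acyc (A : Type) [AddCommGroup A] (F : List (Set J)) : Prop :=
  (∃ S ∈ F, S.Nonempty) ∧ ∀ (n : ℕ) (b : (Fin (n + 1) → J) → A), (∀ l, In F l → d b l = 0) →
    ∃ e : (Fin n → J) → A, ∀ l, In F l → b l = d e l

theorem acyc_cone {F : List (Set J)} (a : J) (h0 : F ≠ []) (h : ∀ S ∈ F, a ∈ S) : Acyc A F := by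
  obtain ⟨S, hS⟩ := List.exists_mem_of_ne_nil F h0
  refine ⟨⟨S, hS, a, h S hS⟩, fun n b hb => ⟨fun l => b (Fin.cons a l), fun l hl => ?_⟩⟩
  obtain ⟨T, hT, hl⟩ := hl
  have := hb (Fin.cons a l) ⟨T, hT, fun i => Fin.cases (h T hT) (fun j => hl j) i⟩
  rwa [d_cons, sub_eq_zero] at this

theorem acyc_congr {F G : List (Set J)} (h1 : ∀ S ∈ F, S.Nonempty → ∃ T ∈ G, S ⊆ T)
    (h2 : ∀ S ∈ G, S.Nonempty → ∃ T ∈ F, S ⊆ T) (h : Acyc A F) : Acyc A G := by
  have k : ∀ {F G : List (Set J)}, (∀ S ∈ F, S.Nonempty → ∃ T ∈ G, S ⊆ T) →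
      ∀ {n : ℕ} (l : Fin (n + 1) → J), In F l → In G l := by
    rintro F G h n l ⟨S, hS, hl⟩
    obtain ⟨T, hT, hs⟩ := h S hS ⟨_, hl 0⟩
    exact ⟨T, hT, fun i => hs (hl i)⟩
  obtain ⟨⟨S, hS, hne⟩, h⟩ := h
  obtain ⟨T, hT, hs⟩ := h1 S hS hne
  refine ⟨⟨T, hT, hne.mono hs⟩, fun n b hb => ?_⟩
  obtain ⟨e, he⟩ := h n b fun l hl => hb l (k h1 l hl)
  exact ⟨e, fun l hl => he l (k h2 l hl)⟩

theorem acyc_cons {F : List (Set J)} {S : Set J} (h1 : Acyc A F)
    (h2 : Acyc A (F.map fun T => S ∩ T)) : Acyc A (S :: F) := by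
  classical
  obtain ⟨⟨S', hS', a, ha⟩, h2⟩ := h2
  obtain ⟨T, hT, rfl⟩ := List.mem_map.1 hS'
  refine ⟨⟨S, List.mem_cons_self, a, ha.1⟩, fun n b hb => ?_⟩
  obtain ⟨e1, he1⟩ := h1.2 n b fun l ⟨U, hU, hl⟩ => hb l ⟨U, List.mem_cons_of_mem _ hU, hl⟩
  obtain ⟨e2, he2⟩ := (acyc_cone (A := A) (F := [S]) a (by simp) (by simpa using ha.1)).2 n b
    fun l ⟨U, hU, hl⟩ => hb l ⟨U, by simp at hU; simp [hU], hl⟩
  have h3 : ∀ l, In (F.map fun T => S ∩ T) l → d (fun x => e1 x - e2 x) l = 0 := by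
    rintro l ⟨U, hU, hl⟩
    obtain ⟨W, hW, rfl⟩ := List.mem_map.1 hU
    rw [d_sub, ← he1 l ⟨W, hW, fun i => (hl i).2⟩, ← he2 l ⟨S, by simp, fun i => (hl i).1⟩, sub_self]
  cases n with
  | zero =>
    have h4 := h3 (fun _ => a) ⟨_, hS', fun _ => ha⟩
    rw [d_zero, sub_eq_zero] at h4
    refine ⟨e1, fun l ⟨U, hU, hl⟩ => ?_⟩
    rcases List.mem_cons.1 hU with rfl | hU
    · rw [he2 l ⟨U, by simp, hl⟩, d_zero, d_zero, h4]
    · exact he1 l ⟨U, hU, hl⟩
  | succ n =>
    obtain ⟨e3, he3⟩ := h2 n _ h3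
    refine ⟨fun x => if In F x then e1 x else e2 x + d e3 x, fun l ⟨U, hU, hl⟩ => ?_⟩
    rcases List.mem_cons.1 hU with rfl | hU
    · rw [he2 l ⟨U, by simp, hl⟩, ← add_zero (d e2 l), ← d_d e3 l, ← d_add]
      refine d_congr fun k => ?_
      split_ifs with h
      · obtain ⟨W, hW, hw⟩ := h
        rw [← he3 _ ⟨U ∩ W, List.mem_map_of_mem hW, fun i => ⟨hl _, hw i⟩⟩, add_sub_cancel]
      · rfl
    · rw [he1 l ⟨U, hU, hl⟩]
      exact d_congr fun k => (if_pos (In.face ⟨U, hU, hl⟩ k)).symm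

/-- Cocycles of positive degree vanishing on an acyclic (or empty) subcomplex are coboundaries of
cochains vanishing on it. -/
theorem rel_exact [Nonempty J] {F : List (Set J)} (h : F = [] ∨ Acyc A F) {n : ℕ}
    (c : (Fin (n + 2) → J) → A) (hc : ∀ l, In F l → c l = 0) (hd : ∀ l, d c l = 0) :
    ∃ b : (Fin (n + 1) → J) → A, (∀ l, In F l → b l = 0) ∧ ∀ l, c l = d b l := by
  obtain ⟨a⟩ := ‹Nonempty J›
  have h1 : ∀ l, c l = d (fun l' => c (Fin.cons a l')) l := fun l => by
    have := hd (Fin.cons a l)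
    rwa [d_cons, sub_eq_zero] at this
  rcases h with rfl | h
  · exact ⟨_, fun l ⟨S, hS, _⟩ => by simp at hS, h1⟩
  · obtain ⟨e, he⟩ := h.2 n (fun l' => c (Fin.cons a l')) fun l hl => by rw [← h1, hc l hl]
    refine ⟨fun x => c (Fin.cons a x) - d e x, fun l hl => sub_eq_zero.2 (he l hl), fun l => ?_⟩
    rw [d_sub, d_d, sub_zero, ← h1]

/-- Cech exactness in positive degree for cochains of monomial type. -/
theorem mono_exact [Nonempty J] [Finite J] {M : Type} (F : M → List (Set J))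
    (h : ∀ m, F m = [] ∨ Acyc A (F m)) {n : ℕ} (c : (Fin (n + 2) → J) → M →₀ A)
    (hc : ∀ l m, In (F m) l → c l m = 0) (hd : ∀ l, d c l = 0) :
    ∃ b : (Fin (n + 1) → J) → M →₀ A, (∀ l m, In (F m) l → b l m = 0) ∧ ∀ l, c l = d b l := by
  classical
  have ev : ∀ {k : ℕ} (x : (Fin k → J) → M →₀ A) (l : Fin (k + 1) → J) (m : M),
      d x l m = d (fun y => x y m) l := fun x l m => by
    simp [d, Finsupp.finsetSum_apply]
  have H : ∀ m, ∃ b : (Fin (n + 1) → J) → A, ((∀ l, c l m = 0) → ∀ l, b l = 0) ∧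
      (∀ l, In (F m) l → b l = 0) ∧ ∀ l, c l m = d b l := fun m => by
    by_cases h0 : ∀ l, c l m = 0
    · exact ⟨fun _ => 0, fun _ _ => rfl, fun _ _ => rfl, fun l => by simp [d, h0]⟩
    · obtain ⟨b, h1, h2⟩ := rel_exact (h m) (fun l => c l m) (fun l => hc l m)
        fun l => by rw [← ev, hd, Finsupp.zero_apply]
      exact ⟨b, fun h => absurd h h0, h1, h2⟩
  choose b h0 h1 h2 using H
  have hf : ∀ l, (Function.support fun m => b m l).Finite := fun l =>
    (Set.finite_iUnion fun l' => (c l').hasFiniteSupport).subset fun m hm => by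
      by_contra hn
      exact hm (h0 m (fun l' => by
        by_contra h'
        exact hn (Set.mem_iUnion.2 ⟨l', h'⟩)) l)
  refine ⟨fun l => Finsupp.ofSupportFinite _ (hf l), fun l m hl => h1 m l hl, fun l => ?_⟩
  ext m
  rw [ev, h2]
  rfl

/-- The subset of `Fin N` with the given bits. -/
def bits (N s : ℕ) : Set (Fin N) := {j | s.testBit j}

/-- A sufficient test for acyclicity. -/
def chk (N : ℕ) : ℕ → List ℕ → Bool
  | 0, _ => false
  | f + 1, F =>
    match F.filter fun s => (List.range N).any s.testBit with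
    | [] => false
    | s :: G => ((List.range N).any fun j => (s :: G).all fun t => t.testBit j) ||
        (chk N f G && chk N f (G.map fun t => s &&& t))

theorem acyc_of_chk (N : ℕ) : ∀ (f : ℕ) (F : List ℕ), chk N f F = true → Acyc A (F.map (bits N))
  | 0, _, h => by simp [chk] at h
  | f + 1, F, h => by
    have key : Acyc A ((F.filter fun s => (List.range N).any s.testBit).map (bits N)) := by
      unfold chk at h
      split at h
      · simp at h
      · rename_i s G e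
        rw [e]
        rcases Bool.or_eq_true_iff.1 h with h | h
        · obtain ⟨j, hj, h⟩ := List.any_eq_true.1 h
          refine acyc_cone ⟨j, List.mem_range.1 hj⟩ (by simp) fun S hS => ?_
          obtain ⟨t, ht, rfl⟩ := List.mem_map.1 hS
          exact List.all_eq_true.1 h t ht
        · obtain ⟨h1, h2⟩ := Bool.and_eq_true_iff.1 h
          refine acyc_cons (acyc_of_chk N f G h1) ?_
          have := acyc_of_chk N f _ h2
          rw [List.map_map] at this ⊢
          rwa [show (fun T => bits N s ∩ T) ∘ bits N = bits N ∘ fun t => s &&& t from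
            funext fun t => by ext j; simp [bits]]
    refine acyc_congr (fun S hS _ => ⟨S, ?_, subset_rfl⟩) (fun S hS hne => ⟨S, ?_, subset_rfl⟩) key
    · obtain ⟨t, ht, rfl⟩ := List.mem_map.1 hS
      exact List.mem_map_of_mem (List.mem_of_mem_filter ht)
    · obtain ⟨t, ht, rfl⟩ := List.mem_map.1 hS
      obtain ⟨j, hj⟩ := hne
      exact List.mem_map_of_mem (List.mem_filter.2
        ⟨ht, List.any_eq_true.2 ⟨j, List.mem_range.2 j.2, hj⟩⟩)

/-- The sets of charts along the rays where a monomial has a pole. -/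
def fam {r : ℕ} (N : ℕ) (st : Fin r → ℕ) (v : Fin r → ℤ) : List (Set (Fin N)) :=
  (((List.finRange r).filter fun ρ => decide (v ρ < 0)).map st).map (bits N)

theorem in_fam {r N n : ℕ} (st : Fin r → ℕ) (v : Fin r → ℤ) (l : Fin n → Fin N) :
    In (fam N st v) l ↔ ∃ ρ, v ρ < 0 ∧ ∀ i, (st ρ).testBit (l i) := by
  simp [In, fam, bits]

/-- The seven rays of the resolution of `1/4(1,1,3,3)` (the last three multiplied by 4, 2, 4). -/
def ray4 (m : Fin 4 → ℤ) : Fin 7 → ℤ :=
  ![m 0, m 1, m 2, m 3, m 0 + m 1 + 3 * m 2 + 3 * m 3, m 0 + m 1 + m 2 + m 3,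
    3 * m 0 + 3 * m 1 + m 2 + m 3]

/-- For each ray the set of the maximal cones containing it. The cones are, in this order,
`0162 0163 6502 6503 6512 6513 5402 5403 5412 5413 4230 4231`. -/
def star4 : Fin 7 → ℕ := ![1231, 2867, 3413, 3754, 4032, 1020, 63]

theorem acyc4 (m : Fin 4 → ℤ) :
    fam 12 star4 (ray4 m) = [] ∨ Acyc A (fam 12 star4 (ray4 m)) := by
  have H : ∀ z : Fin 7 → Bool, ((!z 4 || !z 6 || z 5) && (!z 0 || !z 1 || !z 5 || z 6) &&
      (!z 2 || !z 3 || !z 5 || z 4) && (!z 0 || !z 1 || !z 2 || !z 3 || z 5) &&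
      (!z 0 || !z 1 || !z 4 || z 5) && (!z 2 || !z 3 || !z 6 || z 5)) = true →
      (((List.finRange 7).filter z).map star4 = [] ∨
        chk 12 8 (((List.finRange 7).filter z).map star4) = true) := by
    decide +kernel
  have := H (fun ρ => decide (ray4 m ρ < 0)) (by simp [ray4]; omega)
  exact this.imp (fun h => by rw [fam, h]; rfl) (acyc_of_chk 12 8 _)

/-- The five rays of the resolution of `1/2(1,1,1,1)` (the last multiplied by 2). -/
def ray2 (m : Fin 4 → ℤ) : Fin 5 → ℤ := ![m 0, m 1, m 2, m 3, m 0 + m 1 + m 2 + m 3]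

/-- Cone `j` has the last ray and the rays `i ≠ j`. -/
def star2 : Fin 5 → ℕ := ![14, 13, 11, 7, 15]

theorem acyc2 (m : Fin 4 → ℤ) :
    fam 4 star2 (ray2 m) = [] ∨ Acyc A (fam 4 star2 (ray2 m)) := by
  have H : ∀ z : Fin 5 → Bool, (z 0 → z 1 → z 2 → z 3 → z 4) →
      (((List.finRange 5).filter z).map star2 = [] ∨
        chk 4 6 (((List.finRange 5).filter z).map star2) = true) := by
    decide +kernel
  exact (H (fun ρ => decide (ray2 m ρ < 0)) (by simp [ray2]; omega)).imp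
    (fun h => by rw [fam, h]; rfl) (acyc_of_chk 4 6 _)

end Pool.Agent.MonoCech
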