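import Pool.Agent.P.MP_63735c_ag.TaTrs
import Pool.Agent.P.MP_63735c_ag.TaCech

/-! Controls for the definitions: isomorphism of line bundles, pull-back, the Cech complex. -/

open CategoryTheory AlgebraicGeometry TopologicalSpace

noncomputable section

namespace Pool.Agent.P.MP_63735c_ag.Ta

variable {X B : Scheme.{0}} {L M N : LB X}

theorem ca_self (h : L.IsLB) (i : L.ι) {W : X.Opens} (hi : W ≤ L.U i) :
    res (le_inf hi hi) (L.g i i) = 1 :=
  (tor_isUnit_res _ (h.2.1 i i)).mul_left_cancel ((h.2.2 i i i W hi hi hi).trans (mul_one _).symm)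

theorem ca_refl (h : L.IsLB) : L.Iso L :=
  ⟨L.g, h.2.1, fun i j a b W hi hj ha hb =>
    (h.2.2 i a b W hi ha hb).trans (h.2.2 i j b W hi hj hb).symm⟩

theorem ca_symm (h : L.Iso M) : M.Iso L := by
  obtain ⟨u, hu, hr⟩ := h
  choose v hv using fun i a => (hu i a).exists_right_inv
  refine ⟨fun a i => res (le_inf inf_le_right inf_le_left) (v i a),
    fun a i => tor_isUnit_res _ (IsUnit.of_mul_eq_one_right _ (hv i a)),
    fun a b i j W ha hb hi hj => ?_⟩
  have h1 := congrArg (res (le_inf hi ha)) (hv i a)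
  have h2 := congrArg (res (le_inf hj hb)) (hv j b)
  have h3 := hr i j a b W hi hj ha hb
  simp only [tor_res_mul, tor_res_one, tor_res_res] at h1 h2 ⊢
  linear_combination (-(res (le_inf hi ha) (v i a) * res (le_inf hj hb) (v j b))) * h3 +
    (res (le_inf ha hb) (M.g a b) * res (le_inf hj hb) (v j b)) * h1 -
    (res (le_inf hi ha) (v i a) * res (le_inf hi hj) (L.g i j)) * h2

theorem ca_trans (hL : L.IsLB) (hM : M.IsLB) (hN : N.IsLB) (h : L.Iso M) (h' : M.Iso N) :
    L.Iso N := by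
  obtain ⟨u, hu, hr⟩ := h
  obtain ⟨v, hv, hs⟩ := h'
  have cov : ∀ W : X.Opens, W ≤ ⨆ a, W ⊓ M.U a := fun W => by
    rw [← inf_iSup_eq, hM.1, inf_top_eq]
  have key : ∀ i c, ∃ w : Γ(X, L.U i ⊓ N.U c), ∀ a (W : X.Opens) (hi : W ≤ L.U i) (hc : W ≤ N.U c)
      (ha : W ≤ M.U a), res (le_inf hi hc) w = res (le_inf hi ha) (u i a) *
        res (le_inf ha hc) (v a c) := fun i c => by
    obtain ⟨w, hw, -⟩ := X.sheaf.existsUnique_gluing' (fun a => (L.U i ⊓ N.U c) ⊓ M.U a)
      (L.U i ⊓ N.U c) (fun a => homOfLE inf_le_left) (cov _)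
      (fun a => res (inf_le_inf inf_le_left le_rfl) (u i a) *
        res (le_inf inf_le_right (inf_le_left.trans inf_le_right)) (v a c)) fun a b => by
        have p : ((L.U i ⊓ N.U c) ⊓ M.U a) ⊓ ((L.U i ⊓ N.U c) ⊓ M.U b) ≤ L.U i :=
          inf_le_left.trans (inf_le_left.trans inf_le_left)
        have q : ((L.U i ⊓ N.U c) ⊓ M.U a) ⊓ ((L.U i ⊓ N.U c) ⊓ M.U b) ≤ N.U c :=
          inf_le_left.trans (inf_le_left.trans inf_le_right)
        have h1 := hr i i a b _ p p (inf_le_left.trans inf_le_right)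
          (inf_le_right.trans inf_le_right)
        have h2 := hs a b c c _ (inf_le_left.trans inf_le_right) (inf_le_right.trans inf_le_right)
          q q
        rw [ca_self hL i p, one_mul] at h1
        rw [ca_self hN c q, mul_one] at h2
        show res inf_le_left (_ * _) = res inf_le_right (_ * _)
        simp only [tor_res_mul, tor_res_res]
        rw [h2, ← h1, mul_assoc]
    refine ⟨w, fun a W hi hc ha => ?_⟩
    have := congrArg (res (le_inf (le_inf hi hc) ha)) (show res inf_le_left w = _ from hw a)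
    exact (tor_res_res _ _ _).symm.trans (this.trans ((tor_res_mul _ _ _).trans
      (congrArg₂ (· * ·) (tor_res_res _ _ _) (tor_res_res _ _ _))))
  choose w hw using key
  refine ⟨w, fun i c => ?_, fun i j c d W hi hj hc hd => ?_⟩
  · refine X.toRingedSpace.isUnit_of_isUnit_germ _ _ fun x hx => ?_
    obtain ⟨a, ha⟩ := Opens.mem_iSup.1 (cov _ hx)
    have := ((tor_isUnit_res (le_inf (inf_le_left.trans inf_le_left) inf_le_right) (hu i a)).mul
      (tor_isUnit_res (le_inf inf_le_right (inf_le_left.trans inf_le_right)) (hv a c))).map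
      (X.presheaf.germ _ x ha).hom
    rw [← hw i c a _ (inf_le_left.trans inf_le_left) (inf_le_left.trans inf_le_right)
      inf_le_right] at this
    exact X.presheaf.germ_res_apply (homOfLE _) x ha (w i c) ▸ this
  · refine X.sheaf.eq_of_locally_eq' (fun a => W ⊓ M.U a) W (fun a => homOfLE inf_le_left) (cov W)
      _ _ fun a => ?_
    show res inf_le_left (_ * _) = res inf_le_left (_ * _)
    have h1 := hr i j a a (W ⊓ M.U a) (inf_le_left.trans hi) (inf_le_left.trans hj) inf_le_right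
      inf_le_right
    have h2 := hs a a c d (W ⊓ M.U a) inf_le_right inf_le_right (inf_le_left.trans hc)
      (inf_le_left.trans hd)
    rw [ca_self hM a inf_le_right, mul_one] at h1
    rw [ca_self hM a inf_le_right, one_mul] at h2
    simp only [tor_res_mul, tor_res_res]
    rw [hw i c a _ (inf_le_left.trans hi) (inf_le_left.trans hc) inf_le_right,
      hw j d a _ (inf_le_left.trans hj) (inf_le_left.trans hd) inf_le_right, mul_assoc, h2, h1,
      mul_assoc]

theorem ca_triv : L.Iso (triv X) ↔ ∃ s, L.IsSection s ∧ ∀ i, IsUnit (s i) := by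
  constructor
  · intro h
    obtain ⟨h, hu, hh⟩ : ∃ h : ∀ i (_ : Unit), Γ(X, L.U i ⊓ ⊤), (∀ i a, IsUnit (h i a)) ∧
      ∀ i j a b (W : X.Opens) (hi : W ≤ L.U i) (hj : W ≤ L.U j) (ha : W ≤ ⊤) (hb : W ≤ ⊤),
        res (le_inf hi ha) (h i a) * res (le_inf ha hb) 1 =
          res (le_inf hi hj) (L.g i j) * res (le_inf hj hb) (h j b) := h
    refine ⟨fun i => res (le_inf le_rfl le_top) (h i ()), fun i j => ?_,
      fun i => tor_isUnit_res _ (hu i ())⟩
    have := hh i j () () (L.U i ⊓ L.U j) inf_le_left inf_le_right le_top le_top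
    rw [tor_res_self _ (L.g i j), tor_res_one, mul_one] at this
    simp only [tor_res_res]
    exact this
  · rintro ⟨s, hs, hu⟩
    show ∃ h : ∀ i (_ : Unit), Γ(X, L.U i ⊓ ⊤), (∀ i a, IsUnit (h i a)) ∧
      ∀ i j a b (W : X.Opens) (hi : W ≤ L.U i) (hj : W ≤ L.U j) (ha : W ≤ ⊤) (hb : W ≤ ⊤),
        res (le_inf hi ha) (h i a) * res (le_inf ha hb) 1 =
          res (le_inf hi hj) (L.g i j) * res (le_inf hj hb) (h j b)
    refine ⟨fun i _ => res inf_le_left (s i), fun i _ => tor_isUnit_res _ (hu i),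
      fun i j a b W hi hj ha hb => ?_⟩
    rw [tor_res_one, mul_one, tor_res_res, tor_res_res]
    exact Sec.res (U := L.U) (g := L.g) hs i j hi hj

theorem ca_pull {A : LB B} (h : A.IsLB) (f : X ⟶ B) : (A.pull f).IsLB := by
  refine ⟨?_, fun i j => (h.2.1 i j).map _, fun i j k W hi hj hk => ?_⟩
  · refine top_le_iff.1 fun y _ => ?_
    obtain ⟨a, ha⟩ := Opens.mem_iSup.1 (h.1.ge (Set.mem_univ (f y)))
    exact Opens.mem_iSup.2 ⟨a, ha⟩
  have hW : W ≤ f ⁻¹ᵁ ((A.U i ⊓ A.U j) ⊓ A.U k) := fun x hx => ⟨⟨hi hx, hj hx⟩, hk hx⟩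
  have e : ∀ (V : B.Opens) (V' : X.Opens) (h1 : (A.U i ⊓ A.U j) ⊓ A.U k ≤ V) (h2 : W ≤ V')
      (h3 : V' ≤ f ⁻¹ᵁ V) (z : Γ(B, V)), res h2 (f.appLE V V' h3 z) = f.appLE _ W hW (res h1 z) :=
    fun V V' h1 h2 h3 z => (ConcreteCategory.congr_hom (f.appLE_map h3 (homOfLE h2).op) z).trans
      (ConcreteCategory.congr_hom (f.map_appLE hW (homOfLE h1).op) z).symm
  have := congrArg (f.appLE _ W hW) (h.2.2 i j k _ (inf_le_left.trans inf_le_left)
    (inf_le_left.trans inf_le_right) inf_le_right)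
  rw [map_mul] at this
  exact (congrArg₂ (· * ·) (e _ _ _ _ _ _) (e _ _ _ _ _ _)).trans (this.trans (e _ _ _ _ _ _).symm)

theorem ca_pow_one (L : LB X) : L.pow 1 = L := by
  simp only [LB.pow, pow_one]

theorem ca_induces {A : LB B} (h : A.IsLB) (h' : A.Ample) (f : X ⟶ B) (hf : Surjective f)
    (hB : Nontrivial B) : (A.pull f).Induces :=
  ⟨B, f, A, 1, hf, hB, h, h', le_rfl, by rw [ca_pow_one]; exact ca_refl (ca_pull h f)⟩

theorem ca_dd {ι : Type} (U : ι → X.Opens) (n : ℕ)
    (c : ∀ t : Fin (n + 1) → ι, Γ(X, ⨅ j, U (t j))) : cechD U (n + 1) (cechD U n c) = 0 := by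
  funext t
  have := MonoCech.d_d (fun u : Fin (n + 1) → Fin (n + 3) =>
    res (le_iInf fun j => iInf_le (fun j => U (t j)) (u j)) (c (t ∘ u))) id
  simp only [MonoCech.d, id, zsmul_eq_mul, Int.cast_pow, Int.cast_neg, Int.cast_one] at this
  rw [Pi.zero_apply, ← this, cechD]
  refine Finset.sum_congr rfl fun k _ => congrArg _ ?_
  rw [cechD, res, map_sum]
  refine Finset.sum_congr rfl fun l _ => ?_
  rw [map_mul, map_pow, map_neg, map_one]
  exact congrArg _ (tor_res_res _ _ _)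

end Pool.Agent.P.MP_63735c_ag.Ta
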