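import Pool.Agent.P.MP_63735c_ag.TaInd
import Pool.Agent.P.MP_63735c_ag.TaCa

/-! Controls for the definitions: an ample bundle has positive volume, its inverse is not nef. -/

open CategoryTheory AlgebraicGeometry TopologicalSpace

noncomputable section

namespace Pool.Agent.P.MP_63735c_ag.Ta

variable {X : Scheme.{0}} {π : X ⟶ Spec (CommRingCat.of ℂ)} [IsIntegral X]

variable (π) in
theorem cb_emb : letI := fieldAlg π; ∃ E : Emb π X.functionField, ∀ f, E.φ f = f := by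
  let _ := fieldAlg π
  exact ⟨⟨RingHom.id _, fun x =>
    { (algebraMap (X.presheaf.stalk x) X.functionField).range with
      algebraMap_mem' := fun c => reg_germ (U := ⊤) trivial _ x trivial },
    fun x f => ⟨fun h => ⟨f, h, rfl⟩, fun ⟨_, h, e⟩ => e ▸ h⟩, fun _ => rfl⟩, fun _ => rfl⟩

variable {K : Type} [Field K] [Algebra ℂ K] {E : Emb π K} {L A B : LB X} {θ : L.ι → K}
  {ϑ : A.ι → K} {β : B.ι → K}

theorem cb_rep (E : Emb π K) (h : L.IsLB) : ∃ θ, E.Rep L θ := by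
  classical
  obtain ⟨o, ho⟩ := Opens.mem_iSup.1 (h.1.ge (Set.mem_univ (genericPoint X)))
  have nz : ∀ i j (hi : genericPoint X ∈ L.U i ⊓ L.U j),
      E.φ (X.presheaf.germ _ _ hi (L.g i j)) ≠ 0 := fun i j hi =>
    (repb_un E hi (h.2.1 i j) hi).2.1
  refine ⟨fun i => if hi : genericPoint X ∈ L.U i ⊓ L.U o then
    E.φ (X.presheaf.germ _ _ hi (L.g i o)) else 1, h.1, fun i => ?_, fun i j hU => ?_⟩
  · beta_reduce
    split_ifs with hi
    exacts [nz _ _ hi, one_ne_zero]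
  have hi : genericPoint X ∈ L.U i ⊓ L.U o := ⟨hU.1, ho⟩
  have hj : genericPoint X ∈ L.U j ⊓ L.U o := ⟨hU.2, ho⟩
  have hW : genericPoint X ∈ (L.U i ⊓ L.U j) ⊓ L.U o := ⟨hU, ho⟩
  have := congrArg (fun t => E.φ (X.presheaf.germ _ _ hW t)) (h.2.2 i j o _
    (inf_le_left.trans inf_le_left) (inf_le_left.trans inf_le_right) inf_le_right)
  simp only [map_mul, ml_germ_res] at this
  simp only [dif_pos hi, dif_pos hj]
  rw [eq_div_iff (nz _ _ hj), this]

theorem cb_ratio (h : E.Rep L θ) {i j : L.ι} {x : X} (hi : x ∈ L.U i) (hj : x ∈ L.U j) :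
    θ i / θ j ∈ E.O x := by
  have hx : x ∈ L.U i ⊓ L.U j := ⟨hi, hj⟩
  rw [← h.2.2 i j (ml_gen_mem hx)]
  exact repb_mem E _ _ hx

theorem cb_sec (h : E.Rep L θ) {s : ∀ i, Γ(X, L.U i)} (hs : L.IsSection s) :
    ∃ a : K, (∀ i x, x ∈ L.U i → a * θ i ∈ E.O x) ∧
      ∀ x, x ∈ ⨆ i, X.basicOpen (s i) ↔ ∃ i, x ∈ L.U i ∧ Un (E.O x) (a * θ i) := by
  obtain ⟨a, h1, h2⟩ := h.section_val hs
  refine ⟨a, h2, fun x => ?_⟩
  rw [Opens.mem_iSup]
  refine exists_congr fun i => ⟨fun hx => ?_, fun hx => ?_⟩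
  · have hU := ml_gen_mem (X.basicOpen_le (s i) hx)
    rw [← h1 i hU]
    exact (E.mem_basicOpen hU _ x).1 hx
  · have hU := ml_gen_mem hx.1
    rw [← h1 i hU] at hx
    exact (E.mem_basicOpen hU _ x).2 hx

theorem cb_isSec (h : E.Rep L θ) {s : ∀ i, Γ(X, L.U i)} {a : K}
    (hs : ∀ i (hi : genericPoint X ∈ L.U i), E.φ (X.presheaf.germ _ _ hi (s i)) = a * θ i) :
    L.IsSection s := fun i j => repb_ext E fun hU => by
  rw [map_mul, map_mul, ml_germ_res, ml_germ_res, hs, hs, h.2.2 i j hU]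
  have := h.2.1 j
  field_simp

/-- A section of the inverse of `B` over the set where `a` does not vanish extends after
multiplication by a power of `a`. -/
theorem cb_ext [CompactSpace X] (hA : E.Rep A ϑ) (hB : E.Rep B β) {a f : K}
    (ha : ∀ i x, x ∈ A.U i → a * ϑ i ∈ E.O x)
    (hf : ∀ l i x, x ∈ B.U l → x ∈ A.U i → Un (E.O x) (a * ϑ i) → f / β l ∈ E.O x) :
    ∃ k₀ : ℕ, ∀ k ≥ k₀, ∀ l i x, x ∈ B.U l → x ∈ A.U i → f / β l * (a * ϑ i) ^ k ∈ E.O x := by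
  have loc : ∀ x : X, ∃ (V : X.Opens) (k : ℕ), x ∈ V ∧ ∀ y ∈ V, ∀ l i, y ∈ B.U l → y ∈ A.U i →
      f / β l * (a * ϑ i) ^ k ∈ E.O y := fun x => by
    obtain ⟨i, hi⟩ := Opens.mem_iSup.1 (hA.1.ge (Set.mem_univ x))
    obtain ⟨l, hl⟩ := Opens.mem_iSup.1 (hB.1.ge (Set.mem_univ x))
    obtain ⟨_, ⟨V, hV, rfl⟩, xV, hle⟩ := X.isBasis_affineOpens.exists_subset_of_mem_open
      (show x ∈ (B.U l ⊓ A.U i : X.Opens) from ⟨hl, hi⟩) (B.U l ⊓ A.U i).isOpen
    have gV := ml_gen_mem xV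
    obtain ⟨σ, hσ⟩ := E.exists_section (U := V) (f := a * ϑ i) fun y hy => ha i y (hle hy).2
    obtain ⟨k, hk⟩ : ∃ k : ℕ, ∀ y ∈ V, f / β l * (a * ϑ i) ^ k ∈ E.O y := by
      by_cases h0 : genericPoint X ∈ X.basicOpen σ
      · obtain ⟨τ, hτ⟩ := E.exists_section (U := X.basicOpen σ) (f := f / β l) fun y hy => by
          have := (E.mem_basicOpen gV σ y).1 hy
          rw [hσ] at this
          exact hf l i y (hle this.1).1 (hle this.1).2 this.2
        have := IsAffineOpen.isLocalization_basicOpen hV σ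
        obtain ⟨⟨p, _, k, rfl⟩, e⟩ := IsLocalization.surj (Submonoid.powers σ) τ
        have e' : τ * res (X.basicOpen_le σ) (σ ^ k) = res (X.basicOpen_le σ) p := e
        have e2 := congrArg (fun t => E.φ (X.presheaf.germ _ _ h0 t)) e'
        simp only [map_mul, ml_germ_res, map_pow, hτ, hσ] at e2
        exact ⟨k, fun y hy => e2 ▸ repb_mem E gV p hy⟩
      · have z : a * ϑ i = 0 := by
          by_contra hc
          refine h0 ((E.mem_basicOpen gV σ _).2 ⟨gV, ?_⟩)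
          rw [← E.embS_germ gV gV, E.un_embS]
          refine Ne.isUnit (G₀ := X.functionField) fun c => hc ?_
          rw [← hσ gV]
          exact (congrArg E.φ c).trans (map_zero _)
        exact ⟨1, fun y _ => by rw [z, pow_one, mul_zero]; exact zero_mem _⟩
    refine ⟨V, k, xV, fun y hy l' i' hl' hi' => ?_⟩
    have := mul_mem (mul_mem (hk y hy) (cb_ratio hB (hle hy).1 hl'))
      (pow_mem (cb_ratio hA hi' (hle hy).2) k)
    have a1 := hA.2.1 i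
    have a2 := hB.2.1 l
    have a3 := hB.2.1 l'
    rwa [show f / β l * (a * ϑ i) ^ k * (β l / β l') * (ϑ i' / ϑ i) ^ k =
      f / β l' * (a * ϑ i') ^ k by simp only [mul_pow, div_pow]; field_simp] at this
  choose V k hx hk using loc
  obtain ⟨T, hT⟩ := isCompact_univ.elim_finite_subcover (fun x => (V x : Set X))
    (fun x => (V x).isOpen) fun x _ => Set.mem_iUnion.2 ⟨x, hx x⟩
  refine ⟨T.sup k, fun m hm l i y hl hi => ?_⟩
  obtain ⟨x, h1, h2⟩ := Set.mem_iUnion₂.1 (hT (Set.mem_univ y))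
  obtain ⟨c, rfl⟩ := Nat.exists_eq_add_of_le ((Finset.le_sup h1).trans hm)
  rw [pow_add, ← mul_assoc]
  exact mul_mem (hk x y h2 l i hl hi) (pow_mem (ha i y hi) c)

theorem cb_frac (E : Emb π K) (hφ : Function.Surjective E.φ) {W : X.Opens} (hW : IsAffineOpen W)
    (h : genericPoint X ∈ W) (z : K) :
    ∃ q : K, q ≠ 0 ∧ (∀ x ∈ W, q ∈ E.O x) ∧ ∀ x ∈ W, q * z ∈ E.O x := by
  have : Nonempty W := ⟨⟨_, h⟩⟩
  have := functionField_isFractionRing_of_isAffineOpen X W hW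
  obtain ⟨z, rfl⟩ := hφ z
  obtain ⟨⟨p, q, hq⟩, e⟩ := IsLocalization.surj (nonZeroDivisors Γ(X, W)) z
  have e' : z * X.presheaf.germ W _ h q = X.presheaf.germ W _ h p := e
  refine ⟨E.φ (X.presheaf.germ W _ h q), fun c => nonZeroDivisors.ne_zero hq ?_,
    fun x hx => repb_mem E h q hx, fun x hx => ?_⟩
  · exact repb_ext E fun _ => by rw [c, map_zero, map_zero]
  · rw [← map_mul, mul_comm, e']
    exact repb_mem E h p hx

theorem cb_not_volZero (π : X ⟶ Spec (CommRingCat.of ℂ)) (h : A.IsLB) (hA : A.Ample) :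
    ¬ VolZero π A := by
  classical
  let _ := fieldAlg π
  obtain ⟨E, hE⟩ := cb_emb π
  obtain ⟨ϑ, hϑ⟩ := cb_rep E h
  have := hA.1
  rintro ⟨d, hd, hv⟩
  obtain ⟨n, hn, s, hs, haff, hx⟩ := hA.2 (genericPoint X)
  obtain ⟨a, ha, hW⟩ := cb_sec (hϑ.pow n) hs
  have a0 : a ≠ 0 := by
    obtain ⟨i, -, hi⟩ := (hW _).1 hx
    exact left_ne_zero_of_mul hi.2.1
  let S : Set X.functionField := {f | ∀ x ∈ ⨆ i, X.basicOpen (s i), f ∈ E.O x}
  have : Algebra.IsAlgebraic (Algebra.adjoin ℂ S) X.functionField := ⟨fun z => by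
    obtain ⟨q, q0, q1, q2⟩ := cb_frac E (fun f => ⟨f, hE f⟩) haff hx z
    exact IsAlgebraic.of_mul (mem_nonZeroDivisors_of_ne_zero q0)
      (isAlgebraic_algebraMap (⟨q, Algebra.subset_adjoin (s := S) q1⟩ : Algebra.adjoin ℂ S))
      (isAlgebraic_algebraMap (⟨q * z, Algebra.subset_adjoin (s := S) q2⟩ : Algebra.adjoin ℂ S))⟩
  obtain ⟨t, ht, hb⟩ := exists_isTranscendenceBasis_subset (R := ℂ) S
  obtain ⟨e⟩ : Nonempty (Fin d ≃ t) := by
    rw [← Cardinal.eq, hb.cardinalMk_eq_trdeg, hd, Cardinal.mk_fin]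
  let f : Fin d → X.functionField := fun l => e l
  have hf : AlgebraicIndependent ℂ f := hb.1.comp e e.injective
  choose k hk using fun l => cb_ext (hϑ.pow n) E.rep_triv (f := f l) ha
    fun _ i x _ hi hu => by simpa using ht (e l).2 x ((hW x).2 ⟨i, hi, hu⟩)
  obtain ⟨κ, hκ⟩ : ∃ κ, ∀ l, k l ≤ κ := ⟨_, fun l => Finset.le_sup (Finset.mem_univ l)⟩
  have c0 : 0 < n * (κ * d + 1) := by positivity
  obtain ⟨m₀, hm⟩ := Filter.eventually_atTop.1 (hv (1 / (2 * (n * (κ * d + 1) : ℕ) ^ d))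
    (by positivity))
  let ε : Fin ((m₀ + 1) ^ d) ≃ (Fin d → Fin (m₀ + 1)) := finFunctionFinEquiv.symm
  let g : (Fin d → Fin (m₀ + 1)) → X.functionField := fun α => ∏ l, f l ^ (α l : ℕ)
  have hg : ∀ α i x, x ∈ A.U i →
      g α * a ^ ((κ * d + 1) * m₀) * ϑ i ^ (n * (κ * d + 1) * m₀) ∈ E.O x := fun α i x hi => by
    obtain ⟨c, hc⟩ : ∃ c, (κ * d + 1) * m₀ = κ * ∑ l, (α l : ℕ) + c := by
      refine Nat.exists_eq_add_of_le ?_
      have : ∑ l, (α l : ℕ) ≤ d * m₀ := by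
        simpa using Finset.sum_le_card_nsmul Finset.univ (fun l => (α l : ℕ)) m₀
          fun l _ => Nat.lt_succ_iff.1 (α l).2
      nlinarith [Nat.mul_le_mul_left κ this]
    have h1 : ∏ l, (f l * (a * ϑ i ^ n) ^ κ) ^ (α l : ℕ) ∈ E.O x :=
      prod_mem fun l _ => pow_mem (by simpa using hk l κ (hκ l) () i x trivial hi) _
    have h2 := mul_mem h1 (pow_mem (ha i x hi) c)
    simp only [mul_pow (f _), Finset.prod_mul_distrib, Finset.prod_pow_eq_pow_sum] at h2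
    rwa [← pow_mul, mul_assoc, ← pow_add, ← hc, mul_pow, ← pow_mul, ← mul_assoc n,
      ← mul_assoc] at h2
  choose σ hσ using fun α i => E.exists_section (U := A.U i) (hg α i)
  have hli : LinearIndependent ℂ g := by
    have h1 := ((MvPolynomial.basisMonomials (Fin d) ℂ).linearIndependent.comp
      (fun α : Fin d → Fin (m₀ + 1) => Finsupp.equivFunOnFinite.symm fun l => (α l : ℕ))
      fun α γ c => funext fun l => Fin.ext (congrFun (Finsupp.equivFunOnFinite.symm.injective c) l)).map'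
      (MvPolynomial.aeval f).toLinearMap (LinearMap.ker_eq_bot.2 hf)
    refine (funext fun α => ?_ : _ = g) ▸ h1
    simp [g, MvPolynomial.aeval_monomial, Finsupp.prod_fintype]
  have := hm (n * (κ * d + 1) * m₀) (Nat.le_mul_of_pos_left _ c0) _ (fun j => σ (ε j))
    (fun j => cb_isSec (hϑ.pow _) (hσ (ε j)))
    fun c hc => by
      obtain ⟨i, hi⟩ := repb_gen hϑ
      have e1 := congrArg (fun t => E.φ (X.presheaf.germ _ _ hi t)) (hc i)
      simp only [map_sum, map_mul, map_zero, E.φ_germ_const, hσ, ← mul_assoc,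
        ← Finset.sum_mul] at e1
      have e2 := (mul_eq_zero.1 ((mul_eq_zero.1 e1).resolve_right
        (pow_ne_zero _ (hϑ.2.1 i)))).resolve_right (pow_ne_zero _ a0)
      exact funext (Fintype.linearIndependent_iff.1 (hli.comp ε ε.injective) c
        (by simpa only [Algebra.smul_def, Function.comp] using e2))
  have p : (0 : ℝ) < ((n * (κ * d + 1) : ℕ) : ℝ) ^ d := by positivity
  rw [Nat.cast_mul _ m₀, mul_pow, Nat.cast_pow] at this
  have q : (m₀ : ℝ) ^ d ≤ ((m₀ + 1 : ℕ) : ℝ) ^ d := by gcongr; omega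
  have q0 : (0 : ℝ) < ((m₀ + 1 : ℕ) : ℝ) ^ d := by positivity
  rw [show 1 / (2 * ((n * (κ * d + 1) : ℕ) : ℝ) ^ d) * (((n * (κ * d + 1) : ℕ) : ℝ) ^ d *
    (m₀ : ℝ) ^ d) = (m₀ : ℝ) ^ d / 2 by field_simp] at this
  linarith

theorem cb_const (E : Emb π K) [IsProper π] {z : K} (h : ∀ x, z ∈ E.O x) :
    ∃ c : ℂ, z = algebraMap ℂ K c := by
  obtain ⟨s, hs⟩ := E.exists_section (U := ⊤) (f := z) fun x _ => h x
  obtain ⟨c, rfl⟩ := exists_const π s
  exact ⟨c, (hs trivial).symm.trans (E.φ_germ_const (U := ⊤) trivial c)⟩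

theorem cb_not_nef (π : X ⟶ Spec (CommRingCat.of ℂ)) [IsProper π] (hX : Nontrivial X)
    (hL : L.IsLB) (h : A.IsLB) (hA : A.Ample) (hi : (L.mul A).Iso (triv X)) : ¬ L.Nef := by
  classical
  let _ := fieldAlg π
  obtain ⟨E, hE⟩ := cb_emb π
  rintro ⟨B, hB, hn⟩
  obtain ⟨θ, hθ⟩ := cb_rep E hL
  obtain ⟨ϑ, hϑ⟩ := cb_rep E h
  obtain ⟨β, hβ⟩ := cb_rep E hB
  have := hA.1
  obtain ⟨c, hc⟩ := ((hθ.mul hϑ).iso_iff E.rep_triv).1 hi
  have hc' : ∀ i j x, x ∈ L.U i → x ∈ A.U j → Un (E.O x) (c * (θ i * ϑ j)) := fun i j x a b => by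
    simpa using hc (i, j) () x ⟨a, b⟩ trivial
  obtain ⟨n, -, s, hs, haff, hx⟩ := hA.2 (genericPoint X)
  obtain ⟨a, ha, hW⟩ := cb_sec (hϑ.pow n) hs
  have a0 : a ≠ 0 := by
    obtain ⟨i, -, hi⟩ := (hW _).1 hx
    exact left_ne_zero_of_mul hi.2.1
  choose q q0 q1 q2 using fun l => cb_frac E (fun f => ⟨f, hE f⟩) haff hx (β l)⁻¹
  obtain ⟨T, hT⟩ := isCompact_univ.elim_finite_subcover (fun l => (B.U l : Set X))
    (fun l => (B.U l).isOpen) fun x _ =>
      Set.mem_iUnion.2 (Opens.mem_iSup.1 (hB.1.ge (Set.mem_univ x)))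
  obtain ⟨k, hk⟩ := cb_ext (hϑ.pow n) hβ (f := ∏ l ∈ T, q l) ha fun l i x hl hi hu => by
    have hxW := (hW x).2 ⟨i, hi, hu⟩
    obtain ⟨l', h1, h2⟩ := Set.mem_iUnion₂.1 (hT (Set.mem_univ x))
    have := mul_mem (mul_mem (q2 l' x hxW) (cb_ratio hβ h2 hl))
      (prod_mem fun j (_ : j ∈ T.erase l') => q1 j x hxW)
    have b0 := hβ.2.1 l'
    rw [← Finset.mul_prod_erase T q h1]
    rwa [show q l' * (β l')⁻¹ * (β l' / β l) * ∏ j ∈ T.erase l', q j =
      (q l' * ∏ j ∈ T.erase l', q j) / β l by field_simp] at this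
  obtain ⟨f, hf⟩ : ∃ f, f = ∏ l ∈ T, q l := ⟨_, rfl⟩
  have f0 : f ≠ 0 := hf ▸ Finset.prod_ne_zero_iff.2 fun l _ => q0 l
  rw [← hf] at hk
  obtain ⟨e, -, s', hs', haff', hx'⟩ := (hn (n * k)).2 (genericPoint X)
  obtain ⟨b, hb, hW'⟩ := cb_sec (((hθ.pow (n * k)).mul hβ).pow e) hs'
  have b0 : b ≠ 0 := by
    obtain ⟨i, -, hi⟩ := (hW' _).1 hx'
    exact left_ne_zero_of_mul hi.2.1
  have ch : ∀ x : X, ∃ i j l, x ∈ L.U i ∧ x ∈ A.U j ∧ x ∈ B.U l := fun x => by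
    obtain ⟨i, hi⟩ := Opens.mem_iSup.1 (hL.1.ge (Set.mem_univ x))
    obtain ⟨j, hj⟩ := Opens.mem_iSup.1 (h.1.ge (Set.mem_univ x))
    obtain ⟨l, hl⟩ := Opens.mem_iSup.1 (hB.1.ge (Set.mem_univ x))
    exact ⟨i, j, l, hi, hj, hl⟩
  have c0 : c ≠ 0 := by
    obtain ⟨i, j, -, hi, hj, -⟩ := ch (genericPoint X)
    exact left_ne_zero_of_mul (hc' i j _ hi hj).2.1
  have id1 : ∀ i j l, b * (θ i ^ (n * k) * β l) ^ e * (f / β l * (a * ϑ j ^ n) ^ k) ^ e =
      b * (f * a ^ k / c ^ (n * k)) ^ e * ((c * (θ i * ϑ j)) ^ (n * k)) ^ e := fun i j l => by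
    have b1 := hβ.2.1 l
    rw [mul_assoc, mul_assoc b, ← mul_pow, ← mul_pow]
    refine congrArg (fun t => b * t ^ e) ?_
    simp only [mul_pow, ← pow_mul]
    field_simp
  obtain ⟨γ, hγ⟩ := cb_const E (z := b * (f * a ^ k / c ^ (n * k)) ^ e) fun x => by
    obtain ⟨i, j, l, hi, hj, hl⟩ := ch x
    have h1 := mul_mem (hb (i, l) x ⟨hi, hl⟩) (pow_mem (hk k le_rfl l j x hl hj) e)
    have h2 := ((hc' i j x hi hj).pow (n * k)).pow e
    have h3 := mul_mem h1 h2.2.2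
    rwa [id1, mul_inv_cancel_right₀ h2.2.1] at h3
  have γ0 : γ ≠ 0 := fun z => by
    rw [z, map_zero] at hγ
    exact mul_ne_zero b0 (pow_ne_zero _ (div_ne_zero (mul_ne_zero f0 (pow_ne_zero _ a0))
      (pow_ne_zero _ c0))) hγ
  have htop : ⨆ i, X.basicOpen (s' i) = ⊤ := top_le_iff.1 fun x _ => by
    obtain ⟨i, j, l, hi, hj, hl⟩ := ch x
    refine (hW' x).2 ⟨(i, l), ⟨hi, hl⟩, Un.of_mul_left (hb (i, l) x ⟨hi, hl⟩)
      (pow_mem (hk k le_rfl l j x hl hj) e) ?_⟩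
    have := (un_const (O := E.O x) γ0).mul (((hc' i j x hi hj).pow (n * k)).pow e)
    rwa [← hγ, ← id1 i j l] at this
  rw [htop] at haff'
  have : IsAffine X := @IsAffine.of_isIso _ _ X.topIso.inv _ haff'
  exact not_subsingleton X (tor_not_affine (tor_unit_or π (exists_const π)) (𝟙 X)
    fun x => ⟨x, rfl⟩)

theorem cb_triv (π : X ⟶ Spec (CommRingCat.of ℂ)) [IsProper π] (hX : Nontrivial X) :
    ¬ (triv X).Ample := fun h => by
  let _ := fieldAlg π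
  obtain ⟨E, -⟩ := cb_emb π
  have t := E.rep_triv
  exact cb_not_nef π hX t.isLB t.isLB h
    (((t.mul t).iso_iff t).2 ⟨1, fun _ _ _ _ _ => by simpa using un_one⟩)
    (tor_nef t.1 (((t.pow 2).iso_iff t).2 ⟨1, fun _ _ _ _ _ => by simpa using un_one⟩) t.isLB h)

theorem cb_nontrivial [LocallyOfFinitePresentation π] (h : PrimitiveSymplectic π) :
    Nontrivial X := by
  by_contra hc
  have := not_nontrivial_iff_subsingleton.1 hc
  have := h.1
  let _ := fieldAlg π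
  obtain ⟨E, hE⟩ := cb_emb π
  obtain ⟨σ, h0, -⟩ := h.2.2.2.2.2
  refine h0 (LinearMap.ext fun D => ?_)
  have : D = 0 := Derivation.ext fun z => by
    obtain ⟨c, rfl⟩ := cb_const E (z := z) fun x => by
      obtain ⟨U, hU, s, rfl⟩ := X.presheaf.exists_germ_eq z
      rw [← hE (X.presheaf.germ U _ hU s)]
      exact repb_mem E hU s (Subsingleton.elim (genericPoint X) x ▸ hU)
    exact D.map_algebraMap c
  rw [this, map_zero, map_zero]

theorem cb_some [LocallyOfFinitePresentation π] (h : PrimitiveSymplectic π) :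
    ∃ A : LB X, A.IsLB ∧ A.Induces := by
  obtain ⟨A, h1, h2⟩ := h.2.1
  exact ⟨_, ca_pull h1 (𝟙 X), ca_induces h1 h2 (𝟙 X) inferInstance (cb_nontrivial h)⟩

end Pool.Agent.P.MP_63735c_ag.Ta
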