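import Pool.Agent.P.MP_63735c_ag.TaCa

/-! Control for the Cech condition: it fails for the punctured plane. -/

open CategoryTheory AlgebraicGeometry TopologicalSpace

noncomputable section

namespace Pool.Agent.P.MP_63735c_ag.Ta

theorem cc_swap {R : Type} [CommRing R] (z : Fin 2 → R) :
    ∀ a b : Fin 2, a ≠ b → z 0 * z 1 = z a * z b := by
  intro a b h
  fin_cases a <;> fin_cases b
  exacts [absurd rfl h, rfl, mul_comm _ _, absurd rfl h]

theorem cc_inj {X : Scheme.{0}} [IsIntegral X] {W : X.Opens} (h : Nonempty W) {s t : Γ(X, ⊤)}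
    (e : res (W := W) le_top s = res le_top t) : s = t :=
  map_injective_of_isIntegral X (homOfLE le_top) e

theorem cc_fail {X : Scheme.{0}} [IsIntegral X] (z : Fin 2 → Γ(X, ⊤)) (h0 : ∀ i, z i ≠ 0)
    (S : Set Γ(X, ⊤)) (loc : ∀ i V, V = X.basicOpen (z i) → ∀ s : Γ(X, V),
      ∃ n : ℕ, ∃ p ∈ S, s * res le_top (z i) ^ n = res le_top p)
    (h : ∀ n m : ℕ, ∀ p ∈ S, ∀ q ∈ S,
      z 0 ^ n * z 1 ^ m ≠ z 0 ^ (n + 1) * (z 1 * q) - z 1 ^ (m + 1) * (z 0 * p)) :
    ¬ CechZero (fun i => X.basicOpen (z i)) 0 := by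
  intro hc
  have can : ∀ (W : X.Opens) (s : Γ(X, W)), res le_top (z 0 * z 1) * s = 0 → s = 0 := fun W s e => by
    by_cases hW : Nonempty W
    · exact (mul_eq_zero.1 e).resolve_left fun c => mul_ne_zero (h0 0) (h0 1)
        (cc_inj hW (c.trans (map_zero _).symm))
    · have : W = ⊥ := eq_bot_iff.2 fun x hx => absurd ⟨⟨x, hx⟩⟩ hW
      subst this
      exact Subsingleton.elim _ _
  have ex : ∀ t : Fin 2 → Fin 2, ∃ c : Γ(X, ⨅ j, X.basicOpen (z (t j))),
      res le_top (z 0 * z 1) * c = ((t 1 : ℕ) : Γ(X, _)) - ((t 0 : ℕ) : Γ(X, _)) := fun t => by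
    by_cases e : t 0 = t 1
    · exact ⟨0, by rw [e, sub_self, mul_zero]⟩
    have u : ∀ j, IsUnit (res (W := ⨅ j, X.basicOpen (z (t j))) le_top (z (t j))) := fun j => by
      rw [← tor_res_res (iInf_le (fun j => X.basicOpen (z (t j))) j) le_top]
      exact tor_isUnit_res _ (X.toRingedSpace.isUnit_res_basicOpen (z (t j)))
    obtain ⟨v, hv⟩ := ((u 0).mul (u 1)).exists_right_inv
    exact ⟨v * _, by rw [cc_swap z _ _ e, tor_res_mul, ← mul_assoc, hv, one_mul]⟩
  choose c hc' using ex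
  obtain ⟨b, hb⟩ := hc c (funext fun t => can _ _ (by
    have k : ∀ l : Fin 3, res le_top (z 0 * z 1) * res (le_iInf fun j =>
        iInf_le (fun j => X.basicOpen (z (t j))) (l.succAbove j)) (c (t ∘ l.succAbove)) =
        ((t (l.succAbove 1) : ℕ) : Γ(X, _)) - ((t (l.succAbove 0) : ℕ) : Γ(X, _)) := fun l => by
      have := congrArg (res (le_iInf fun j =>
        iInf_le (fun j => X.basicOpen (z (t j))) (l.succAbove j))) (hc' (t ∘ l.succAbove))
      exact ((tor_res_mul _ _ _).trans (congrArg₂ (· * ·) (tor_res_res _ _ _) rfl)).symm.trans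
        (this.trans ((map_sub _ _ _).trans
          (congrArg₂ (· - ·) (map_natCast _ _) (map_natCast _ _))))
    have k0 := k 0
    have k1 := k 1
    have k2 := k 2
    rw [cechD, Fin.sum_univ_three]
    change _ = ((t 2 : ℕ) : Γ(X, _)) - ((t 1 : ℕ) : Γ(X, _)) at k0
    change _ = ((t 2 : ℕ) : Γ(X, _)) - ((t 0 : ℕ) : Γ(X, _)) at k1
    change _ = ((t 1 : ℕ) : Γ(X, _)) - ((t 0 : ℕ) : Γ(X, _)) at k2
    simp only [Fin.val_zero, pow_zero, Fin.val_one, pow_one, Fin.val_two]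
    linear_combination k0 - k1 + k2))
  have fin : ∀ (t : Fin 1 → Fin 2) (W : X.Opens) (hW : W ≤ ⨅ j, X.basicOpen (z (t j))),
      ∃ n : ℕ, ∃ p ∈ S, res hW (b t) * res le_top (z (t 0)) ^ n = res le_top p := fun t W hW => by
    obtain ⟨n, p, hp, e⟩ := loc (t 0) _ (iInf_unique fun j => X.basicOpen (z (t j))) (b t)
    have := congrArg (res hW) e
    rw [tor_res_mul, tor_res_pow, tor_res_res, tor_res_res] at this
    exact ⟨n, p, hp, this⟩
  obtain ⟨m, q, hq, q'⟩ := fin (id ∘ (0 : Fin 2).succAbove) _ (le_iInf fun j =>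
    iInf_le (fun j => X.basicOpen (z (id j))) ((0 : Fin 2).succAbove j))
  obtain ⟨n, p, hp, p'⟩ := fin (id ∘ (1 : Fin 2).succAbove) _ (le_iInf fun j =>
    iInf_le (fun j => X.basicOpen (z (id j))) ((1 : Fin 2).succAbove j))
  have e1 := hc' id
  rw [← hb, cechD, Fin.sum_univ_two, tor_res_mul] at e1
  change _ * res _ (z 1) ^ m = _ at q'
  change _ * res _ (z 0) ^ n = _ at p'
  have ne : Nonempty (⨅ j, X.basicOpen (z (id j)) : X.Opens) := by
    have : Nonempty (X.basicOpen (z 0 * z 1)) := by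
      by_contra c
      exact mul_ne_zero (h0 0) (h0 1) ((basicOpen_eq_bot_iff _).1
        (eq_bot_iff.2 fun x hx => absurd ⟨⟨x, hx⟩⟩ c))
    obtain ⟨x, hx⟩ := this
    rw [X.basicOpen_mul] at hx
    refine ⟨x, (le_iInf fun j => ?_ : _ ≤ ⨅ j, X.basicOpen (z (id j))) hx⟩
    fin_cases j
    exacts [inf_le_left, inf_le_right]
  refine h n m p hp q hq (cc_inj ne (Eq.trans ?_ (map_sub _ _ _).symm))
  change res _ _ = res _ _ - res _ _
  simp only [tor_res_mul, tor_res_pow]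
  change _ * ((-1) ^ 0 * _ + (-1) ^ 1 * _) = ((1 : ℕ) : Γ(X, _)) - ((0 : ℕ) : Γ(X, _)) at e1
  rw [Nat.cast_one, Nat.cast_zero] at e1
  generalize res (W := ⨅ j, X.basicOpen (z (id j))) le_top (z 0) = x at *
  generalize res (W := ⨅ j, X.basicOpen (z (id j))) le_top (z 1) = y at *
  linear_combination (-(x ^ n * y ^ m)) * e1 + (x ^ (n + 1) * y) * q' - (y ^ (m + 1) * x) * p'

theorem cc_poly (n m : ℕ) (p q : MvPolynomial (Fin 2) ℂ) :
    MvPolynomial.X 0 ^ n * MvPolynomial.X 1 ^ m ≠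
      MvPolynomial.X 0 ^ (n + 1) * q - MvPolynomial.X 1 ^ (m + 1) * p := fun c => by
  have := congrArg (MvPolynomial.coeff (Finsupp.single 0 n + Finsupp.single 1 m)) c
  rw [MvPolynomial.X_pow_eq_monomial, MvPolynomial.X_pow_eq_monomial,
    MvPolynomial.X_pow_eq_monomial, MvPolynomial.X_pow_eq_monomial, MvPolynomial.monomial_mul,
    MvPolynomial.coeff_sub, MvPolynomial.coeff_monomial_mul', MvPolynomial.coeff_monomial_mul',
    MvPolynomial.coeff_monomial, if_pos rfl, if_neg, if_neg] at this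
  · simp at this
  · exact fun k => by simpa using k 1
  · exact fun k => by simpa using k 0

theorem cc_plane : ∃ (Y : Scheme.{0}) (U : Fin 2 → Y.Opens), (∀ i, IsAffineOpen (U i)) ∧
    ⨆ i, U i = ⊤ ∧ ¬ CechZero U 0 := by
  let R := CommRingCat.of (MvPolynomial (Fin 2) ℂ)
  let e := (Scheme.ΓSpecIso R).commRingCatIsoToRingEquiv
  let x : Fin 2 → Γ(Spec R, ⊤) := fun i => e.symm (MvPolynomial.X i)
  have x0 : ∀ i, x i ≠ 0 := fun i => e.symm.map_ne_zero_iff.2 (MvPolynomial.X_ne_zero i)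
  let W : (Spec R).Opens := ⨆ i, (Spec R).basicOpen (x i)
  have le : ∀ i, (Spec R).basicOpen (x i) ≤ W.ι.opensRange := fun i => by
    rw [W.opensRange_ι]; exact le_iSup (fun i => (Spec R).basicOpen (x i)) i
  have ne : Nonempty W := by
    by_contra c
    exact x0 0 ((basicOpen_eq_bot_iff _).1 (eq_bot_iff.2 fun y hy =>
      absurd ⟨⟨y, W.opensRange_ι ▸ le 0 hy⟩⟩ c))
  have : IsIntegral W := @isIntegral_of_isOpenImmersion _ _ W.ι _ _ ne
  have inj : Function.Injective W.ι.appTop := fun s t c =>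
    cc_inj (W := W.ι ''ᵁ ⊤) (W.ι_image_top.symm ▸ ne) c
  refine ⟨W, fun i => W.toScheme.basicOpen (W.ι.appTop (x i)), fun i => ?_, ?_,
    cc_fail _ (fun i c => x0 i (inj (c.trans (map_zero _).symm))) (Set.range W.ι.appTop)
      (fun i V hV s => ?_) ?_⟩
  · beta_reduce
    rw [← W.ι.preimage_basicOpen_top]
    exact ((isAffineOpen_top _).basicOpen _).preimage_of_isOpenImmersion _ (le i)
  · simp only [← W.ι.preimage_basicOpen_top]
    rw [← W.ι.preimage_iSup, W.ι_preimage_self]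
  · have := (isAffineOpen_top (Spec R)).isLocalization_of_eq_basicOpen (x i)
      (homOfLE (le_top : W.ι ''ᵁ V ≤ ⊤)) (by
        rw [hV, ← W.ι.preimage_basicOpen_top, W.ι.image_preimage_eq_opensRange_inf,
          inf_eq_right.2 (le i)])
    let _ := ((Spec R).presheaf.map (homOfLE (le_top : W.ι ''ᵁ V ≤ ⊤)).op).hom.toAlgebra
    obtain ⟨⟨p, _, n, rfl⟩, k⟩ := IsLocalization.surj (S := Γ(Spec R, W.ι ''ᵁ V))
      (Submonoid.powers (x i)) s
    have r : ∀ a, res (X := W) (W := V) le_top (W.ι.appTop a) =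
        res (X := Spec R) (W := W.ι ''ᵁ V) le_top a := fun a =>
      tor_res_res (X := Spec R) (W.ι.image_mono le_top) le_top a
    refine ⟨n, _, ⟨p, rfl⟩, ?_⟩
    rw [r, r]
    exact (congrArg (s * ·) (map_pow _ _ _).symm).trans k
  · rintro n m _ ⟨p, rfl⟩ _ ⟨q, rfl⟩ c
    simp only [← map_mul, ← map_pow, ← map_sub] at c
    have c' := congrArg e (inj c)
    simp only [x, map_sub, map_mul, map_pow, RingEquiv.apply_symm_apply] at c'
    exact cc_poly n m _ _ c'

end Pool.Agent.P.MP_63735c_ag.Ta
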