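import Pool.Agent.P.MP_63735c_ag.TaCb

/-! Control for the symplectic condition: the dimension is even and positive. -/

open CategoryTheory AlgebraicGeometry TensorProduct

noncomputable section

namespace Pool.Agent.P.MP_63735c_ag.Ta

variable {K : Type} [Field K] [Algebra ℂ K]

theorem cd_basis {d : ℕ} (hd : Algebra.trdeg ℂ K = d) :
    Nonempty (Module.Basis (Fin d) K (Derivation ℂ K K)) := by
  obtain ⟨t, hb⟩ := exists_isTranscendenceBasis ℂ K
  obtain ⟨e⟩ : Nonempty (Fin d ≃ t) := by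
    rw [← Cardinal.eq, hb.cardinalMk_eq_trdeg, hd, Cardinal.mk_fin]
  have hf : IsTranscendenceBasis ℂ fun l => (e l : K) := (isTranscendenceBasis_equiv e).2 hb
  let P := MvPolynomial (Fin d) ℂ
  let _ : Algebra P K := (MvPolynomial.aeval fun l => (e l : K)).toRingHom.toAlgebra
  have : IsScalarTower ℂ P K := .of_algebraMap_eq fun c =>
    ((MvPolynomial.aeval fun l => (e l : K)).commutes c).symm
  have : FaithfulSMul P K := (faithfulSMul_iff_algebraMap_injective _ _).2 hf.1
  have : Algebra.IsAlgebraic P K := hf.isAlgebraic.of_ringHom_of_comp_eq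
    (f := hf.1.aevalEquiv.toRingEquiv.toRingHom) (g := RingHom.id K)
    hf.1.aevalEquiv.surjective Function.injective_id (by
      exact RingHom.ext fun a => hf.1.algebraMap_aevalEquiv a)
  let _ := FractionRing.liftAlgebra P K
  have : Algebra.IsAlgebraic (FractionRing P) K :=
    (IsFractionRing.comap_isAlgebraic_iff (A := P)).1 inferInstance
  have : Algebra.FormallyEtale P (FractionRing P) := .of_isLocalization (nonZeroDivisors P)
  have : Algebra.FormallyEtale (FractionRing P) K := .of_isSeparable _ _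
  have : Algebra.FormallyEtale P K := .comp P (FractionRing P) K
  exact ⟨(((KaehlerDifferential.mvPolynomialBasis ℂ (Fin d)).baseChange K).map
    (KaehlerDifferential.tensorKaehlerEquivOfFormallyEtale ℂ P K)).dualBasis.map
    (KaehlerDifferential.linearMapEquivDerivation ℂ K)⟩

omit [Algebra ℂ K] in
theorem cd_even [CharZero K] {V : Type} [AddCommGroup V] [Module K V] {d : ℕ} (b : Module.Basis (Fin d) K V)
    {σ : LinearMap.BilinForm K V} (h1 : σ.IsAlt) (h2 : ∀ v, (∀ w, σ v w = 0) → v = 0) : Even d := by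
  have : FiniteDimensional K V := b.finiteDimensional_of_finite
  have hn : (LinearMap.BilinForm.toMatrix b σ).det ≠ 0 :=
    (LinearMap.BilinForm.nondegenerate_iff_det_ne_zero b).1
      (h1.isRefl.nondegenerate_iff_separatingLeft.2 h2)
  have ht : (LinearMap.BilinForm.toMatrix b σ).transpose = -LinearMap.BilinForm.toMatrix b σ := by
    ext i j
    simp only [Matrix.transpose_apply, Matrix.neg_apply, LinearMap.BilinForm.toMatrix_apply]
    exact (h1.neg_eq _ _).symm
  have hd := congrArg Matrix.det ht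
  rw [Matrix.det_transpose, Matrix.det_neg, Fintype.card_fin] at hd
  by_contra hc
  rw [(Nat.not_even_iff_odd.1 hc).neg_one_pow, neg_one_mul] at hd
  exact hn (self_eq_neg.1 hd)

theorem cd_const {S : Set (Subring K)} (h : UniqueSymplectic S) {f : K} (hf : ∀ O ∈ S, f ∈ O) :
    ∃ c : ℂ, f = algebraMap ℂ K c := by
  obtain ⟨σ, h0, -, -, h⟩ := h
  obtain ⟨a, r⟩ := (h σ).2 ⟨1, by simp⟩
  obtain ⟨c, hc⟩ := (h (f • σ)).1 ⟨a.smul f, fun O hO D E hD hE =>
    mul_mem (hf O hO) (r O hO D E hD hE)⟩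
  refine ⟨c, ?_⟩
  by_contra k
  refine h0 (LinearMap.ext fun D => LinearMap.ext fun E => ?_)
  have : f * σ D E = algebraMap ℂ K c * σ D E := LinearMap.congr_fun₂ hc D E
  exact (mul_eq_mul_right_iff.1 this).resolve_left k

theorem cd_field {S : Set (Subring K)} (h : UniqueSymplectic S) (hS : S.Nonempty → ⊤ ∈ S) {d : ℕ}
    (hd : Algebra.trdeg ℂ K = d) : ∃ n, 1 ≤ n ∧ d = 2 * n := by
  obtain ⟨b⟩ := cd_basis hd
  have : CharZero K := (algebraMap ℂ K).charZero_iff (algebraMap ℂ K).injective |>.1 inferInstance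
  have hc := @cd_const K _ _ S h
  obtain ⟨σ, h0, -, hn, h⟩ := h
  have nt : ∃ D : Derivation ℂ K K, D ≠ 0 := by
    by_contra c
    push Not at c
    exact h0 (LinearMap.ext fun D => by rw [c D, map_zero, map_zero])
  have top : ⊤ ∈ S := hS (Set.nonempty_iff_ne_empty.2 fun e => by
    obtain ⟨D, hD⟩ := nt
    refine hD (Derivation.ext fun z => ?_)
    obtain ⟨c, rfl⟩ := hc (f := z) (by simp [e])
    exact D.map_algebraMap c)
  obtain ⟨n, rfl⟩ := cd_even b ((h σ).2 ⟨1, by simp⟩).1 fun D hD => by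
    by_contra c
    obtain ⟨f, hf⟩ := DFunLike.ne_iff.1 c
    obtain ⟨E, -, u, -, e⟩ := hn ⊤ top D (fun _ _ => trivial)
      ⟨f, trivial, (D f)⁻¹, trivial, mul_inv_cancel₀ hf⟩
    rw [hD, zero_mul] at e
    exact zero_ne_one e
  refine ⟨n, Nat.pos_of_ne_zero ?_, (two_mul n).symm⟩
  rintro rfl
  obtain ⟨D, hD⟩ := nt
  exact hD (b.ext_elem fun i => i.elim0)

theorem cd_dim {X : Scheme.{0}} {π : X ⟶ Spec (CommRingCat.of ℂ)} [IsIntegral X]
    [LocallyOfFinitePresentation π] (h : PrimitiveSymplectic π) {d : ℕ}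
    (hd : letI := fieldAlg π; Algebra.trdeg ℂ X.functionField = d) : ∃ n, 1 ≤ n ∧ d = 2 * n := by
  let _ := fieldAlg π
  refine cd_field h.2.2.2.2.2 ?_ hd
  rintro ⟨_, x, hx, rfl⟩
  exact ⟨genericPoint X, ml_gen_mem hx, eq_top_iff.2 fun z _ => by
    obtain ⟨U, hU, s, rfl⟩ := X.presheaf.exists_germ_eq z
    exact reg_germ hU s _ hU⟩

end Pool.Agent.P.MP_63735c_ag.Ta
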