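import Pool.Agent.P.MP_63735c_ag.TaInvB

/-! Galois extensions of rings (Chase, Harrison, Rosenberg). -/

noncomputable section

namespace Pool.Agent.P.MP_63735c_ag.Ta

variable {K : Type} [Field K] [Algebra ℂ K] {C D O O' : Subalgebra ℂ K}
  {G H : Subgroup (K ≃ₐ[ℂ] K)} [Finite G] {r : ℕ} {a b : Fin r → K}

/-- Galois coordinates of `D` over its `G`-invariants, where `G` acts through `G / H`. -/
def Dual (G H : Subgroup (K ≃ₐ[ℂ] K)) (D : Subalgebra ℂ K) {r : ℕ} (a b : Fin r → K) : Prop :=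
  (∀ k, a k ∈ D ∧ b k ∈ D) ∧
    ∀ g ∈ G, (g ∈ H → ∑ k, a k * g (b k) = 1) ∧ (g ∉ H → ∑ k, a k * g (b k) = 0)

/-- Functions of the form `g ↦ ∑ a k * g (b k)` with `a k, b k ∈ D`. -/
def ChrRep (D : Subalgebra ℂ K) (φ : (K ≃ₐ[ℂ] K) → K) : Prop :=
  ∃ (ι : Type) (_ : Fintype ι) (a b : ι → K), (∀ k, a k ∈ D ∧ b k ∈ D) ∧
    ∀ g, φ g = ∑ k, a k * g (b k)

theorem chrRep_prod {ι : Type} (t : Finset ι) (φ : ι → (K ≃ₐ[ℂ] K) → K)
    (h : ∀ i ∈ t, ChrRep D (φ i)) : ChrRep D (∏ i ∈ t, φ i) := by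
  refine Finset.prod_induction φ (ChrRep D) ?_
    ⟨Unit, inferInstance, 1, 1, fun _ => ⟨one_mem _, one_mem _⟩, fun g => by simp⟩ h
  rintro φ ψ ⟨ι, _, a, b, h1, h2⟩ ⟨κ, _, c, d, h3, h4⟩
  refine ⟨ι × κ, inferInstance, fun k => a k.1 * c k.2, fun k => b k.1 * d k.2,
    fun k => ⟨mul_mem (h1 _).1 (h3 _).1, mul_mem (h1 _).2 (h3 _).2⟩, fun g => ?_⟩
  rw [Pi.mul_apply, h2, h4, Finset.sum_mul_sum, Fintype.sum_prod_type]
  exact Finset.sum_congr rfl fun i _ => Finset.sum_congr rfl fun j _ => by rw [map_mul]; ring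

theorem exists_dual (hD : Stable G D) (hfix : ∀ g ∈ H, ∀ f ∈ D, g f = f)
    (h : ∀ g ∈ G, g ∉ H → ∃ (n : ℕ) (u f : Fin n → K), (∀ j, u j ∈ D ∧ f j ∈ D) ∧
      ∑ j, u j * (g (f j) - f j) = 1) : ∃ (r : ℕ) (a b : Fin r → K), Dual G H D a b := by
  classical
  have := Fintype.ofFinite G
  choose n u f h1 h2 using fun g : {g : G // g.1 ∉ H} => h g.1.1 g.1.2 g.2
  obtain ⟨ι, _, a, b, h3, h4⟩ := chrRep_prod (D := D) Finset.univ
    (fun (i : {g : G // g.1 ∉ H}) g => ∑ j, u i j * (i.1.1 (f i j) - g (f i j))) fun i _ =>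
    ⟨Option (Fin (n i)), inferInstance, fun k => k.elim (∑ j, u i j * i.1.1 (f i j)) fun j => -u i j,
      fun k => k.elim 1 (f i), fun k => by
        cases k with
        | none => exact ⟨sum_mem fun j _ => mul_mem (h1 i j).1 (hD _ i.1.2 _ (h1 i j).2), one_mem _⟩
        | some j => exact ⟨neg_mem (h1 i j).1, (h1 i j).2⟩,
      fun g => by simp [mul_add, sub_eq_add_neg, Finset.sum_add_distrib]⟩
  let e := (Fintype.equivFin ι).symm
  refine ⟨_, a ∘ e, b ∘ e, fun k => h3 _, fun g hg => ?_⟩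
  rw [show ∑ k, (a ∘ e) k * g ((b ∘ e) k) = ∑ k, a k * g (b k) from
    e.sum_comp fun k => a k * g (b k), ← h4, Finset.prod_apply]
  refine ⟨fun hH => Finset.prod_eq_one fun i _ => ?_,
    fun hH => Finset.prod_eq_zero (Finset.mem_univ ⟨⟨g, hg⟩, hH⟩) (by simp)⟩
  rw [← h2 i]
  exact Finset.sum_congr rfl fun j _ => by rw [hfix g hH _ (h1 i j).2]

/-- Near a point whose inertia group lies in `H` there are Galois coordinates. -/
theorem eq_lemma (hC : Stable G C) (hH : NormalIn H G) (h : IsLocOf C O)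
    (hin : ∀ g ∈ G, Inert g C O → g ∈ H) :
    ∃ s ∈ inv G C, Un O s ∧ ∃ (r : ℕ) (a b : Fin r → K), Dual G H (inv H (away C s)) a b := by
  classical
  have := Fintype.ofFinite G
  have hS := stable_inv hH hC
  have hj : ∀ g ∈ G, ∀ f ∈ inv H C, g f - f ∈ inv H C := fun g hg f hf => sub_mem (hS g hg f hf) hf
  have hO : ∀ (i : {g : G // g.1 ∉ H} × G), ∀ f ∈ inv H C, i.2.1 (i.1.1.1 f - f) ∈ C :=
    fun i f hf => hC _ i.2.2 _ (hj _ i.1.1.2 f hf).1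
  let W : {g : G // g.1 ∉ H} × G → Submodule ℂ (inv H C) := fun i =>
    { carrier := {f | ¬ Un O (i.2.1 (i.1.1.1 f - f))}
      add_mem' := fun {x y} hx hy hu => by
        refine (h.add _ (h.le (hO i x x.2)) _ (h.le (hO i y y.2)) ?_).elim hx hy
        refine Eq.mp (congrArg _ ?_) hu
        simp only [AddMemClass.coe_add, map_add, map_sub]
        ring
      zero_mem' := fun hu => hu.2.1 (by simp)
      smul_mem' := fun c x hx hu => hx <| by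
        refine Un.of_mul_right (O.algebraMap_mem c) (h.le (hO i x x.2)) ?_
        refine Eq.mp (congrArg _ ?_) hu
        rw [SetLike.val_smul, map_smul, ← smul_sub, map_smul, Algebra.smul_def] }
  obtain ⟨f, hf⟩ := Submodule.exists_forall_notMem_of_forall_ne_top W fun ⟨g, k⟩ hW => by
    obtain ⟨f, h1, h2⟩ := dedekind hC hH.1 h hin
      (mul_mem (mul_mem k.2 g.1.2) (inv_mem k.2)) fun hk => g.2 (by
        simpa [mul_assoc] using hH.2 _ (inv_mem k.2) _ hk)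
    have h3 : (⟨k.1⁻¹ f, hS _ (inv_mem k.2) f h1⟩ : inv H C) ∈ W (g, k) := hW ▸ Submodule.mem_top
    refine h3 ?_
    simpa using h2
  have hu : ∀ i : {g : G // g.1 ∉ H} × G, Un O (i.2.1 (i.1.1.1 f - f)) := fun i => not_not.1 (hf i)
  have hs : (∏ i : {g : G // g.1 ∉ H} × G, i.2.1 (i.1.1.1 f - f)) ∈ inv G C := by
    refine ⟨prod_mem fun i _ => hO i f f.2, fun k hk => ?_⟩
    rw [map_prod]
    exact Fintype.prod_equiv ((Equiv.refl _).prodCongr (Equiv.mulLeft ⟨k, hk⟩)) _ _ fun i => rfl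
  have hs' := Un.prod Finset.univ fun i _ => hu i
  refine ⟨_, hs, hs', exists_dual (stable_inv hH (stable_away hC hs.2)) (fun g hg x hx => hx.2 g hg)
    fun g hg hg' => ⟨1, fun _ => (g f - f)⁻¹, fun _ => f, fun _ => ⟨⟨?_, fun k hk => ?_⟩,
      le_away f.2.1, f.2.2⟩, ?_⟩⟩
  · have h1 := Finset.mul_prod_erase Finset.univ
      (fun i : {g : G // g.1 ∉ H} × G => i.2.1 (i.1.1.1 f - f)) (Finset.mem_univ (⟨⟨g, hg⟩, hg'⟩, 1))
    have h2 : g f - f ≠ 0 := (hu (⟨⟨g, hg⟩, hg'⟩, 1)).2.1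
    rw [show (g f - (f : K))⁻¹ = (∏ i ∈ Finset.univ.erase (⟨⟨g, hg⟩, hg'⟩, 1),
        (fun i : {g : G // g.1 ∉ H} × G => i.2.1 (i.1.1.1 f - f)) i) *
        (∏ i : {g : G // g.1 ∉ H} × G, i.2.1 (i.1.1.1 f - f))⁻¹ by
      rw [eq_mul_inv_iff_mul_eq₀ hs'.2.1, inv_mul_eq_iff_eq_mul₀ h2]
      exact h1.symm]
    exact mul_mem (le_away (prod_mem fun i _ => hO i f f.2)) inv_mem_away
  · rw [map_inv₀, (hj g hg f f.2).2 k hk]
  · have h2 : g f - f ≠ 0 := (hu (⟨⟨g, hg⟩, hg'⟩, 1)).2.1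
    simp [h2]

end Pool.Agent.P.MP_63735c_ag.Ta
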