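import Mathlib

/-! Smoothness descends along faithfully flat etale ring maps. -/

open scoped TensorProduct
open KaehlerDifferential Algebra

namespace Pool.Agent.P.MP_63735c_ag.Ta

theorem desc_flat (P A B : Type*) [CommRing P] [CommRing A] [CommRing B] [Algebra P A]
    [Algebra P B] [Algebra A B] [IsScalarTower P A B] [Module.FaithfullyFlat A B]
    [Module.Flat P B] : Module.Flat P A := by
  rw [Module.Flat.iff_lTensor_preserves_injective_linearMap]
  intro N M _ _ _ _ f hf
  have h := Module.Flat.lTensor_preserves_injective_linearMap (M := B) f hf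
  change Function.Injective (f.baseChange A)
  rw [← Module.FaithfullyFlat.lTensor_injective_iff_injective A B]
  have e : ∀ x, TensorProduct.AlgebraTensorModule.cancelBaseChange P A A B M
      (LinearMap.lTensor B (f.baseChange A) x) =
      LinearMap.lTensor B f (TensorProduct.AlgebraTensorModule.cancelBaseChange P A A B N x) :=
    fun x => by
      obtain ⟨y, rfl⟩ := (TensorProduct.AlgebraTensorModule.cancelBaseChange P A A B N).symm.surjective x
      induction y with
      | zero => simp
      | add x y h1 h2 => simp only [map_add, h1, h2]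
      | tmul b n => simp
  intro x y hxy
  apply (TensorProduct.AlgebraTensorModule.cancelBaseChange P A A B N).injective
  apply h
  rw [← e, ← e, hxy]

section

variable {R A : Type*} (B : Type*) [CommRing R] [CommRing A] [CommRing B] [Algebra R A]
  [Algebra R B] [Algebra A B] [IsScalarTower R A B] [FinitePresentation R A] [Etale A B]
  [Module.FaithfullyFlat A B] [Smooth R B]

include B in
theorem desc_core {κ : Type*} [Finite κ] (a : κ → A) (b : Module.Basis κ A Ω[A⁄R])
    (hb : ∀ i, b i = D R A (a i)) : Smooth R A := by
  let P := MvPolynomial κ R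
  let f : P →ₐ[R] A := MvPolynomial.aeval a
  algebraize [f.toRingHom, (algebraMap A B).comp f.toRingHom]
  have : IsScalarTower R P B := .to₁₂₄ _ _ A _
  have hX : ∀ i, algebraMap P A (MvPolynomial.X i) = a i := fun i => MvPolynomial.aeval_X a i
  have : FinitePresentation P A := .of_restrict_scalars_finitePresentation R P A
  have : FinitePresentation P B := .trans P A B
  have : FormallyUnramified P A := by
    refine ⟨subsingleton_of_forall_eq 0 fun x => ?_⟩
    obtain ⟨y, rfl⟩ := map_surjective R P A x
    refine (exact_mapBaseChange_map R P A y).2 ?_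
    change y ∈ LinearMap.range (mapBaseChange R P A)
    refine (top_le_iff.1 ?_ : LinearMap.range (mapBaseChange R P A) = ⊤) ▸ Submodule.mem_top
    rw [← b.span_eq, Submodule.span_le]
    rintro _ ⟨i, rfl⟩
    exact ⟨1 ⊗ₜ D R P (MvPolynomial.X i), by rw [mapBaseChange_tmul, one_smul, map_D, hX, hb]⟩
  have : FormallyUnramified P B := .comp P A B
  have hi : Function.Injective (mapBaseChange R P B) := by
    let c := (b.baseChange B).map (tensorKaehlerEquivOfFormallyEtale R A B)
    let d := (mvPolynomialBasis R κ).baseChange B
    have : mapBaseChange R P B = (d.equiv c (Equiv.refl κ)).toLinearMap := d.ext fun i => by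
      rw [LinearEquiv.coe_coe, Module.Basis.equiv_apply]
      have h : mapBaseChange R P B (1 ⊗ₜ D R P (MvPolynomial.X i)) = D R B (algebraMap A B (a i)) := by
        rw [mapBaseChange_tmul, one_smul, map_D, IsScalarTower.algebraMap_apply P A B, hX]
      simp only [c, d, hb, Module.Basis.baseChange_apply, mvPolynomialBasis_apply, Equiv.refl_apply,
        Module.Basis.map_apply, tensorKaehlerEquivOfFormallyEtale_apply, mapBaseChange_tmul, one_smul,
        map_D]
      exact h
    rw [this]
    exact (d.equiv c (Equiv.refl κ)).injective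
  have : FormallySmooth P B := by
    refine ⟨inferInstance, subsingleton_of_forall_eq 0 fun x => ?_⟩
    obtain ⟨y, rfl⟩ := (H1Cotangent.exact_map_δ R P B x).1
      (hi (((H1Cotangent.exact_δ_mapBaseChange R P B _).2 ⟨x, rfl⟩).trans (map_zero _).symm))
    rw [Subsingleton.elim y 0, map_zero]
  have : Smooth P B := ⟨inferInstance, inferInstance⟩
  have : Module.Flat P A := desc_flat P A B
  have : Etale P A := .of_formallyUnramified_of_flat
  exact ⟨.comp R P A, inferInstance⟩

include B in
theorem desc_smooth : Smooth R A := by
  have : Module.Flat B (B ⊗[A] Ω[A⁄R]) := .of_linearEquiv (tensorKaehlerEquivOfFormallyEtale R A B)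
  have : Module.Flat A Ω[A⁄R] := .of_flat_tensorProduct _ _ B
  refine ⟨smoothLocus_eq_univ_iff.1 (Set.eq_univ_iff_forall.2 fun ⟨p, _⟩ => ?_), inferInstance⟩
  have : Module.Flat (Localization.AtPrime p) Ω[Localization.AtPrime p⁄R] :=
    .of_linearEquiv (tensorKaehlerEquivOfFormallyEtale R A (Localization.AtPrime p)).symm
  have : Module.FinitePresentation (Localization.AtPrime p) Ω[Localization.AtPrime p⁄R] :=
    .of_equiv (tensorKaehlerEquivOfFormallyEtale R A (Localization.AtPrime p))
  obtain ⟨κ, a, b, hb⟩ := Module.exists_basis_of_span_of_flat _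
    (span_range_map_derivation_of_isLocalization R _ (Localization.AtPrime p) p.primeCompl)
  let e : (κ →₀ A) →ₗ[A] Ω[A⁄R] := Finsupp.linearCombination A fun i : κ ↦ D R A (a i)
  let l₁ : (κ →₀ A) →ₗ[A] (κ →₀ Localization.AtPrime p) :=
    Finsupp.mapRange.linearMap (Algebra.linearMap A (Localization.AtPrime p))
  let l₂ : Ω[A⁄R] →ₗ[A] Ω[Localization.AtPrime p⁄R] := map R R A (Localization.AtPrime p)
  let eₚ : (κ →₀ Localization.AtPrime p) →ₗ[Localization.AtPrime p] Ω[Localization.AtPrime p⁄R] :=
    IsLocalizedModule.mapExtendScalars p.primeCompl l₁ l₂ (Localization.AtPrime p) e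
  have : eₚ = b.repr.symm := by
    ext i
    trans IsLocalizedModule.map p.primeCompl l₁ l₂ e <| l₁ <| Finsupp.single i 1
    · simp [eₚ, -IsLocalizedModule.map_apply, l₁]
    · simp [l₂, e, hb]
  have heₚ : Function.Bijective eₚ := this ▸ b.repr.symm.bijective
  have : Finite κ := Module.Finite.finite_basis b
  obtain ⟨g, hg, h⟩ := Module.FinitePresentation.exists_notMem_bijective e p l₁ l₂ heₚ
  let l₁ₜ : (κ →₀ A) →ₗ[A] (κ →₀ Localization.Away g) :=
    Finsupp.mapRange.linearMap (Algebra.linearMap A _)
  let l₂ₜ : Ω[A⁄R] →ₗ[A] Ω[Localization.Away g⁄R] := map R R A (Localization.Away g)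
  rw [← IsLocalizedModule.map_bijective_iff_localizedModuleMap_bijective l₁ₜ l₂ₜ] at h
  let eₜ' : (κ →₀ Localization.Away g) →ₗ[Localization.Away g] Ω[Localization.Away g⁄R] :=
    IsLocalizedModule.mapExtendScalars (Submonoid.powers g) l₁ₜ l₂ₜ (Localization.Away g) e
  refine (basicOpen_subset_smoothLocus_iff_smooth (f := g)).2 ?_ hg
  have : FinitePresentation A (Localization.Away g) := IsLocalization.Away.finitePresentation g
  have : FinitePresentation R (Localization.Away g) := .trans R A _
  have : Smooth R (Localization.Away g ⊗[A] B) := by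
    let _ : Algebra B (Localization.Away g ⊗[A] B) := Algebra.TensorProduct.rightAlgebra
    have : IsLocalization.Away (algebraMap A B g) (Localization.Away g ⊗[A] B) := by
      have := IsLocalization.tensorRight (R := A) (S := B) (A := Localization.Away g) (.powers g)
      simpa using this
    have : Smooth B (Localization.Away g ⊗[A] B) := .of_isLocalization_Away (algebraMap A B g)
    have : IsScalarTower R B (Localization.Away g ⊗[A] B) := .of_algebraMap_eq fun r => by
      rw [IsScalarTower.algebraMap_apply R A B, ← IsScalarTower.algebraMap_apply A B,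
        ← IsScalarTower.algebraMap_apply]
    exact .comp R B _
  refine desc_core (Localization.Away g ⊗[A] B) (fun i => algebraMap A _ (a i))
    (.ofRepr (LinearEquiv.ofBijective eₜ' h).symm) fun i => ?_
  change IsLocalizedModule.map (.powers g) l₁ₜ l₂ₜ e (Finsupp.single i 1) = _
  rw [show Finsupp.single i (1 : Localization.Away g) = l₁ₜ (Finsupp.single i 1) by simp [l₁ₜ],
    IsLocalizedModule.map_apply]
  simp [l₂ₜ, e]

end

/-- Smoothness descends along a faithfully flat etale map. -/
theorem smooth_descent {B C : Type} [CommRing B] [CommRing C] [Algebra ℂ B] [Algebra ℂ C]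
    [Algebra B C] [IsScalarTower ℂ B C] [Algebra.FiniteType ℂ B] [Algebra.Etale B C]
    [Module.FaithfullyFlat B C] [Algebra.FormallySmooth ℂ C] : Algebra.FormallySmooth ℂ B := by
  have : FinitePresentation ℂ B := FinitePresentation.of_finiteType.1 inferInstance
  have : Smooth ℂ C := ⟨inferInstance, .trans ℂ B C⟩
  exact (desc_smooth (R := ℂ) (A := B) C).formallySmooth

end Pool.Agent.P.MP_63735c_ag.Ta
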