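import Pool.Agent.P.MP_63735c_ag.TaChr
import Pool.Agent.P.MP_63735c_ag.TaDesc

/-! Galois extensions of rings (Chase, Harrison, Rosenberg). -/

noncomputable section

open scoped TensorProduct

namespace Pool.Agent.P.MP_63735c_ag.Ta

section main

variable {A B G : Type*} [CommRing A] [CommRing B] [Algebra A B] [Group G] [Finite G]
  [MulSemiringAction G B] [SMulCommClass G A B]

open Classical in
theorem chr_main (hi : Function.Injective (algebraMap A B))
    (hv : ∀ b : B, (∀ g : G, g • b = b) → ∃ a, algebraMap A B a = b)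
    {n : ℕ} (x y : Fin n → B) (hxy : ∀ g : G, ∑ i, x i * g • y i = if g = 1 then 1 else 0) :
    Algebra.Etale A B ∧ Module.FaithfullyFlat A B := by
  have := Fintype.ofFinite G
  have hs : ∀ (g : G) (a : A), g • algebraMap A B a = algebraMap A B a := fun g a => by
    rw [Algebra.algebraMap_eq_smul_one, smul_comm, smul_one]
  have h1 : ∀ b : B, ∃ a, algebraMap A B a = ∑ g : G, g • b := fun b => hv _ fun k => by
    rw [Finset.smul_sum]
    exact Fintype.sum_equiv (Equiv.mulLeft k) _ _ fun g => (mul_smul k g b).symm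
  choose t ht using h1
  let tr : B →ₗ[A] A :=
    { toFun := t
      map_add' := fun a b => hi (by simp [ht, Finset.sum_add_distrib])
      map_smul' := fun a b => hi (by
        simp only [ht, RingHom.id_apply, smul_eq_mul, map_mul, Finset.mul_sum]
        exact Finset.sum_congr rfl fun g _ => by rw [smul_comm, Algebra.smul_def]) }
  have htr : ∀ b, algebraMap A B (tr b) = ∑ g : G, g • b := ht
  have e1 : ∀ b : B, ∑ i, tr (y i * b) • x i = b := fun b => by
    simp only [Algebra.smul_def, htr, Finset.sum_mul, smul_mul']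
    rw [Finset.sum_comm]
    have : ∀ g : G, ∑ i, g • y i * g • b * x i = (if g = 1 then 1 else 0) * g • b := fun g => by
      rw [← hxy, Finset.sum_mul]
      exact Finset.sum_congr rfl fun i _ => by ring
    simp [this]
  have e2 : ∀ b : B, ∑ i, tr (b * x i) • y i = b := fun b => by
    simp only [Algebra.smul_def, htr, Finset.sum_mul, smul_mul']
    rw [Finset.sum_comm]
    have : ∀ g : G, ∑ i, g • b * g • x i * y i = (if g = 1 then 1 else 0) * g • b := fun g => by
      have h2 := congrArg (g • ·) (hxy g⁻¹)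
      simp only [Finset.smul_sum, smul_mul', smul_inv_smul, inv_eq_one, smul_ite, smul_one,
        smul_zero] at h2
      rw [← h2, Finset.sum_mul]
      exact Finset.sum_congr rfl fun i _ => by ring
    simp [this]
  let s : (Fin n → A) →ₗ[A] B := Fintype.linearCombination A x
  let j : B →ₗ[A] (Fin n → A) := LinearMap.pi fun i => tr ∘ₗ LinearMap.mulLeft A (y i)
  have hsj : s ∘ₗ j = LinearMap.id := LinearMap.ext fun b => by
    simpa [s, j, Fintype.linearCombination_apply] using e1 b
  have hP : Module.Projective A B := Module.Projective.of_split j s hsj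
  have hF : Module.Finite A B := Module.Finite.of_surjective s fun b =>
    ⟨j b, LinearMap.congr_fun hsj b⟩
  have hfp : Module.FinitePresentation A B := Module.finitePresentation_of_projective A B
  have hU : Algebra.FormallyUnramified A B := by
    refine Algebra.FormallyUnramified.iff_exists_tensorProduct.2
      ⟨∑ i, x i ⊗ₜ y i, fun b => ?_, ?_⟩
    · rw [sub_mul, sub_eq_zero, Finset.mul_sum, Finset.mul_sum]
      simp only [Algebra.TensorProduct.tmul_mul_tmul, one_mul]
      calc ∑ i, x i ⊗ₜ[A] (b * y i) = ∑ i, ∑ k, tr (b * y i * x k) • (x i ⊗ₜ[A] y k) := by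
            refine Finset.sum_congr rfl fun i _ => ?_
            conv_lhs => rw [← e2 (b * y i), TensorProduct.tmul_sum]
            simp only [TensorProduct.tmul_smul]
        _ = ∑ k, (b * x k) ⊗ₜ[A] y k := by
            rw [Finset.sum_comm]
            refine Finset.sum_congr rfl fun k _ => ?_
            conv_rhs => rw [← e1 (b * x k), TensorProduct.sum_tmul]
            refine Finset.sum_congr rfl fun i _ => ?_
            rw [TensorProduct.smul_tmul', show b * y i * x k = y i * (b * x k) by ring]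
    · simpa using hxy 1
  refine ⟨Algebra.Etale.of_formallyUnramified_of_flat, ?_⟩
  have : FaithfulSMul A B := (faithfulSMul_iff_algebraMap_injective A B).2 hi
  exact Module.FaithfullyFlat.of_comap_surjective (Algebra.IsIntegral.comap_surjective A B)

end main

variable {K : Type} [Field K] [Algebra ℂ K] {C D O O' : Subalgebra ℂ K}
  {G H : Subgroup (K ≃ₐ[ℂ] K)} [Finite G] {r : ℕ} {a b : Fin r → K}

theorem chrb_both (hD : Stable G D) (hfix : ∀ g ∈ H, ∀ f ∈ D, g f = f) (h : Dual G H D a b) :
    letI := (Subalgebra.inclusion (inv_le (G := G) (C := D))).toRingHom.toAlgebra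
    Algebra.Etale (inv G D) D ∧ Module.FaithfullyFlat (inv G D) D := by
  classical
  let _ := (Subalgebra.inclusion (inv_le (G := G) (C := D))).toRingHom.toAlgebra
  let _ : MulSemiringAction G D :=
    { smul := fun g f => ⟨g.1 f, hD g g.2 f f.2⟩
      one_smul := fun _ => rfl
      mul_smul := fun _ _ _ => rfl
      smul_zero := fun g => Subtype.ext (map_zero g.1)
      smul_add := fun g x y => Subtype.ext (map_add g.1 x.1 y.1)
      smul_one := fun g => Subtype.ext (map_one g.1)
      smul_mul := fun g x y => Subtype.ext (map_mul g.1 x.1 y.1) }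
  have : SMulCommClass G (inv G D) D := ⟨fun g x y => Subtype.ext <| by
    change g.1 (x.1 * y.1) = x.1 * g.1 y.1
    rw [map_mul, x.2.2 g g.2]⟩
  have : Finite (MulSemiringAction.toAlgAut G (inv G D) D).range :=
    (Set.finite_range (MulSemiringAction.toAlgAut G (inv G D) D)).to_subtype
  refine chr_main (G := (MulSemiringAction.toAlgAut G (inv G D) D).range)
    (Subalgebra.inclusion_injective _)
    (fun f hf => ⟨⟨f, f.2, fun g hg => congrArg Subtype.val (hf ⟨_, ⟨g, hg⟩, rfl⟩)⟩, rfl⟩)
    (fun k => ⟨a k, (h.1 k).1⟩) (fun k => ⟨b k, (h.1 k).2⟩) ?_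
  intro k
  obtain ⟨g, hk⟩ := k.2
  have hv : ∀ f : D, ((k • f : D) : K) = g.1 f := fun f =>
    congrArg Subtype.val (AlgEquiv.congr_fun hk f).symm
  apply Subtype.ext
  simp only [AddSubmonoidClass.coe_finsetSum, MulMemClass.coe_mul, hv]
  split_ifs with h1
  · refine Eq.trans (Finset.sum_congr rfl fun i _ => ?_) ((h.2 1 (one_mem _)).1 (one_mem _))
    rw [← hv ⟨b i, (h.1 i).2⟩, h1]
    rfl
  · refine (h.2 g g.2).2 fun hg => h1 (Subtype.ext (AlgEquiv.ext fun f => Subtype.ext ?_))
    exact (hv f).trans (hfix g hg f f.2)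

theorem Dual.et (hD : Stable G D) (hH : H ≤ G) (hfix : ∀ g ∈ H, ∀ f ∈ D, g f = f)
    (h : Dual G H D a b) : Et (inv G D) D :=
  ⟨inv_le, (chrb_both hD hfix h).1⟩

theorem Dual.formallySmooth (hD : Stable G D) (hH : H ≤ G) (hfix : ∀ g ∈ H, ∀ f ∈ D, g f = f)
    (h : Dual G H D a b) (h1 : Algebra.FiniteType ℂ D) (h2 : Algebra.FormallySmooth ℂ D) :
    Algebra.FormallySmooth ℂ (inv G D) := by
  let _ := (Subalgebra.inclusion (inv_le (G := G) (C := D))).toRingHom.toAlgebra
  obtain ⟨_, _⟩ := chrb_both hD hfix h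
  have : IsScalarTower ℂ (inv G D) D := .of_algebraMap_eq fun _ => rfl
  have := ft_inv hD h1
  exact smooth_descent (C := D)

theorem et_of_inert (hC : Stable G C) (hH : NormalIn H G) (h : IsLocOf C O)
    (hin : ∀ g ∈ G, Inert g C O → g ∈ H) :
    ∃ s ∈ inv G C, Un O s ∧ Et (inv G C) (inv H (away C s)) := by
  obtain ⟨s, hs, hu, r, a, b, hd⟩ := eq_lemma hC hH h hin
  have h1 := hd.et (stable_inv hH (stable_away hC hs.2)) hH.1 fun g hg x hx => hx.2 g hg
  rw [inv_inv_of_le hH.1, inv_away hs hu.2.1] at h1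
  exact ⟨s, hs, hu, (et_away hs hu.2.1).trans h1⟩

/-- An invariant derivation that is regular on the invariants is regular on `D`. -/
theorem Dual.deriv_mem (hD : Stable G D) (h : Dual G ⊥ D a b) (δ : Derivation ℂ K K)
    (hc : ∀ g ∈ G, ∀ f, g (δ f) = δ (g f)) (hle : D ≤ O') (hB : ∀ f ∈ inv G D, δ f ∈ O') :
    ∀ f ∈ D, δ f ∈ O' := by
  classical
  have := Fintype.ofFinite G
  have e : ∀ g : G, ∑ k, a k * g.1 (b k) = if g = 1 then 1 else 0 := fun g => by
    split_ifs with hg
    · exact (h.2 g g.2).1 (by simp [hg])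
    · exact (h.2 g g.2).2 (by simpa using hg)
  have key : ∀ c, ∑ k, ∑ l, a k * a l * δ (∑ g : G, g.1 (b k * b l * c)) =
      δ c + 2 * (∑ k, a k * δ (b k)) * c := fun c => by
    have h1 : ∀ g : G, ∑ k, ∑ l, a k * a l * δ (g.1 (b k * b l * c)) =
        (∑ k, a k * g.1 (b k)) * ((∑ k, a k * g.1 (b k)) * δ (g.1 c) +
          (∑ k, a k * δ (g.1 (b k))) * g.1 c) +
        (∑ k, a k * δ (g.1 (b k))) * ((∑ k, a k * g.1 (b k)) * g.1 c) := fun g => by
      simp only [Finset.sum_mul, Finset.mul_sum, mul_add, ← Finset.sum_add_distrib, map_mul,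
        Derivation.leibniz, smul_eq_mul]
      exact Finset.sum_congr rfl fun k _ => Finset.sum_congr rfl fun l _ => by ring
    simp only [map_sum, Finset.mul_sum _ _ (a _ * a _)]
    rw [Finset.sum_congr rfl fun k _ => Finset.sum_comm, Finset.sum_comm]
    simp only [h1, e]
    rw [Finset.sum_eq_single 1 (fun g _ hg => by simp [hg]) (by simp)]
    simp only [if_true, OneMemClass.coe_one, AlgEquiv.one_apply]
    ring
  have hm : ∀ c ∈ D, δ c + 2 * (∑ k, a k * δ (b k)) * c ∈ O' := fun c hc => by
    rw [← key]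
    refine sum_mem fun k _ => sum_mem fun l _ => mul_mem (hle (mul_mem (h.1 k).1 (h.1 l).1))
      (hB _ ⟨sum_mem fun g _ => hD _ g.2 _ (mul_mem (mul_mem (h.1 k).2 (h.1 l).2) hc), fun g hg => ?_⟩)
    rw [map_sum]
    exact Fintype.sum_equiv (Equiv.mulLeft (⟨g, hg⟩ : G)) _ _ fun _ => rfl
  intro f hf
  have h1 := sub_mem (hm f hf) (mul_mem (hm 1 (one_mem _)) (hle hf))
  simpa using h1

end Pool.Agent.P.MP_63735c_ag.Ta
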