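import Pool.Agent.P.MP_63735c_ag.TaDefs

/-! Global functions on an integral proper scheme are constant. -/

open CategoryTheory AlgebraicGeometry

namespace Pool.Agent.P.MP_63735c_ag.Ta

theorem exists_const {X : Scheme.{0}} (π : X ⟶ Spec (CommRingCat.of ℂ)) [IsIntegral X]
    [UniversallyClosed π] (v : Γ(X, ⊤)) : ∃ c, v = const π ⊤ c := by
  let F := (Scheme.ΓSpecIso (CommRingCat.of ℂ)).inv ≫ π.appTop
  have hF : F.hom.IsIntegral := by
    apply RingHom.isIntegral_respectsIso.2 (e := (Scheme.ΓSpecIso _).symm.commRingCatIsoToRingEquiv)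
    exact isIntegral_appTop_of_universallyClosed π
  obtain ⟨c, hc⟩ := (IsAlgClosed.ringHom_bijective_of_isIntegral F.hom hF).2 v
  refine ⟨c, hc.symm.trans ?_⟩
  change π.app ⊤ _ = _
  rw [Scheme.Hom.app_eq_appLE]
  rfl

end Pool.Agent.P.MP_63735c_ag.Ta
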