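import Mathlib

/-!
Statement definitions for the scheme form of the torsion example: line bundles by transition
functions, ampleness, nefness, volume, Cech cohomology of the structure sheaf, rational
singularities, reflexive 2-forms and projective primitive symplectic varieties.
-/

open CategoryTheory AlgebraicGeometry

noncomputable section

namespace Pool.Agent.P.MP_63735c_ag.Ta

/-! ### Line bundles -/

section bundles

variable {X B : Scheme.{0}}

/-- Restriction of a regular function to a smaller open set. -/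
abbrev res {U W : X.Opens} (h : W ≤ U) (s : Γ(X, U)) : Γ(X, W) :=
  X.presheaf.map (homOfLE h).op s

/-- Open sets `U i` with regular functions `g i j` on the overlaps. -/
structure LB (X : Scheme.{0}) where
  ι : Type
  U : ι → X.Opens
  g : ∀ i j, Γ(X, U i ⊓ U j)

/-- The data are the transition functions of a line bundle: the `U i` cover `X`, the `g i j` are
units and `g i j * g j k = g i k` on triple overlaps. -/
def LB.IsLB (L : LB X) : Prop :=
  ⨆ i, L.U i = ⊤ ∧ (∀ i j, IsUnit (L.g i j)) ∧
    ∀ i j k (W : X.Opens) (hi : W ≤ L.U i) (hj : W ≤ L.U j) (hk : W ≤ L.U k),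
      res (le_inf hi hj) (L.g i j) * res (le_inf hj hk) (L.g j k) = res (le_inf hi hk) (L.g i k)

/-- The trivial bundle `O_X`. -/
def triv (X : Scheme.{0}) : LB X := ⟨Unit, fun _ => ⊤, fun _ _ => 1⟩

/-- The tensor power `L ^ m`. -/
def LB.pow (L : LB X) (m : ℕ) : LB X := ⟨L.ι, L.U, fun i j => L.g i j ^ m⟩

/-- The tensor product `L ⊗ M`. -/
def LB.mul (L M : LB X) : LB X :=
  ⟨L.ι × M.ι, fun a => L.U a.1 ⊓ M.U a.2, fun a b =>
    res (inf_le_inf inf_le_left inf_le_left) (L.g a.1 b.1) *
      res (inf_le_inf inf_le_right inf_le_right) (M.g a.2 b.2)⟩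

/-- The pull-back `f^* A`. -/
def LB.pull (A : LB B) (f : X ⟶ B) : LB X :=
  ⟨A.ι, fun i => f ⁻¹ᵁ A.U i, fun i j => f.appLE (A.U i ⊓ A.U j) _ le_rfl (A.g i j)⟩

/-- An isomorphism `L ≅ M`, written in the local frames: units `h i a` on `U i ∩ V a` with
`h i a * g a b = g i j * h j b`. -/
def LB.Iso (L M : LB X) : Prop :=
  ∃ h : ∀ i a, Γ(X, L.U i ⊓ M.U a), (∀ i a, IsUnit (h i a)) ∧
    ∀ i j a b (W : X.Opens) (hi : W ≤ L.U i) (hj : W ≤ L.U j) (ha : W ≤ M.U a) (hb : W ≤ M.U b),
      res (le_inf hi ha) (h i a) * res (le_inf ha hb) (M.g a b) =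
        res (le_inf hi hj) (L.g i j) * res (le_inf hj hb) (h j b)

/-- A global section of `L`: `s i = g i j * s j` on overlaps. -/
def LB.IsSection (L : LB X) (s : ∀ i, Γ(X, L.U i)) : Prop :=
  ∀ i j, res inf_le_left (s i) = L.g i j * res inf_le_right (s j)

/-- `L` is ample (Stacks, Tag 01PS): `X` is quasi-compact and every point lies in an affine open
set of the form `X_s` (where `s` does not vanish), `s` a section of some `L ^ n`, `n > 0`. -/
def LB.Ample (L : LB X) : Prop :=
  CompactSpace X ∧ ∀ x : X, ∃ n > 0, ∃ s, (L.pow n).IsSection s ∧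
    IsAffineOpen (⨆ i, X.basicOpen (s i)) ∧ x ∈ ⨆ i, X.basicOpen (s i)

/-- `L` is nef: for some line bundle `A`, all `L ^ k ⊗ A` (`k ≥ 0`) are ample, so the class of `L`
is the limit of the ample classes `L + A / k`. -/
def LB.Nef (L : LB X) : Prop :=
  ∃ A : LB X, A.IsLB ∧ ∀ k, ((L.pow k).mul A).Ample

/-- `L ^ m ≅ f^* A` for some `m ≥ 1`, some surjective morphism `f` onto a scheme with more than
one point and some ample line bundle `A` on it. Necessary for `L` to induce a fibration. -/
def LB.Induces (L : LB X) : Prop :=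
  ∃ (B : Scheme.{0}) (f : X ⟶ B) (A : LB B) (m : ℕ), Surjective f ∧ Nontrivial B ∧ A.IsLB ∧
    A.Ample ∧ 1 ≤ m ∧ (L.pow m).Iso (A.pull f)

end bundles

/-! ### Cohomology of the structure sheaf, rational singularities -/

/-- The Cech differential of the structure sheaf for the family of open sets `U`. -/
def cechD {Y : Scheme.{0}} {ι : Type} (U : ι → Y.Opens) (n : ℕ)
    (c : ∀ t : Fin (n + 1) → ι, Γ(Y, ⨅ j, U (t j))) (t : Fin (n + 2) → ι) : Γ(Y, ⨅ j, U (t j)) :=
  ∑ k : Fin (n + 2), (-1) ^ (k : ℕ) *
    res (le_iInf fun j => iInf_le (fun j => U (t j)) (k.succAbove j)) (c (t ∘ k.succAbove))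

/-- The Cech cohomology group `H^{n+1}(U, O)` vanishes. -/
def CechZero {Y : Scheme.{0}} {ι : Type} (U : ι → Y.Opens) (n : ℕ) : Prop :=
  ∀ c, cechD U (n + 1) c = 0 → ∃ b, cechD U n b = c

/-- Rational singularities, checked on etale neighbourhoods: every point lies in the image of an
etale morphism from an affine scheme `V` with a resolution `p : Y ⟶ V` (proper, birational, `Y`
smooth over `ℂ`) such that `H^i(Y, O) = 0` for all `i > 0`, that is `R^i p_* O = 0`; the
cohomology is computed on a finite affine cover of `Y`. -/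
def RationalSing {X : Scheme.{0}} (π : X ⟶ Spec (CommRingCat.of ℂ)) : Prop :=
  ∀ x : X, ∃ (V Y : Scheme.{0}) (e : V ⟶ X) (p : Y ⟶ V), Etale e ∧ x ∈ Set.range e ∧ IsAffine V ∧
    IsProper p ∧ Scheme.BirationalOver p (𝟙 V) ∧ Smooth (p ≫ e ≫ π) ∧
    ∃ (r : ℕ) (U : Fin r → Y.Opens), (∀ i, IsAffineOpen (U i)) ∧ ⨆ i, U i = ⊤ ∧ ∀ n, CechZero U n

/-! ### Rational 2-forms

`K` is the function field and `O ⊆ K` the local ring of a smooth point. Rational vector fields are
the `ℂ`-derivations of `K`, rational 2-forms the alternating `K`-bilinear forms on them. -/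

section forms

variable {K : Type} [Field K] [Algebra ℂ K]

/-- The vector field `D` is regular at the point with local ring `O`. -/
def Tangent (O : Subring K) (D : Derivation ℂ K K) : Prop := ∀ f ∈ O, D f ∈ O

/-- The form is regular at the point: it takes regular values on regular vector fields. -/
def RegAt (O : Subring K) (ω : LinearMap.BilinForm K (Derivation ℂ K K)) : Prop :=
  ∀ D E, Tangent O D → Tangent O E → ω D E ∈ O

/-- The form is nondegenerate at the point: a regular vector field `D` that does not vanish at the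
point (some `D f` is a unit of `O`) pairs to a unit of `O` with some regular vector field. -/
def NondegAt (O : Subring K) (ω : LinearMap.BilinForm K (Derivation ℂ K K)) : Prop :=
  ∀ D, Tangent O D → (∃ f ∈ O, ∃ u ∈ O, D f * u = 1) → ∃ E, Tangent O E ∧ ∃ u ∈ O, ω D E * u = 1

/-- `dω = 0`, by the invariant formula for the exterior derivative. -/
def Closed (ω : LinearMap.BilinForm K (Derivation ℂ K K)) : Prop :=
  ∀ A B C, A (ω B C) - B (ω A C) + C (ω A B) - ω ⁅A, B⁆ C + ω ⁅A, C⁆ B - ω ⁅B, C⁆ A = 0

/-- The alternating forms that are regular at all the local rings in `S` are the complex multiples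
of one nonzero form `σ`, which is closed and nondegenerate at each of them. -/
def UniqueSymplectic (S : Set (Subring K)) : Prop :=
  ∃ σ : LinearMap.BilinForm K (Derivation ℂ K K), σ ≠ 0 ∧ Closed σ ∧ (∀ O ∈ S, NondegAt O σ) ∧
    ∀ ω : LinearMap.BilinForm K (Derivation ℂ K K),
      (ω.IsAlt ∧ ∀ O ∈ S, RegAt O ω) ↔ ∃ c : ℂ, ω = algebraMap ℂ K c • σ

end forms

/-! ### Varieties over `ℂ` -/

section varieties

variable {X : Scheme.{0}} (π : X ⟶ Spec (CommRingCat.of ℂ))

/-- The constant function `c` on `U`. -/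
def const (U : X.Opens) (c : ℂ) : Γ(X, U) :=
  π.appLE ⊤ U le_top ((Scheme.ΓSpecIso (CommRingCat.of ℂ)).inv c)

variable [IsIntegral X]

/-- The function field as a `ℂ`-algebra. -/
abbrev fieldAlg : Algebra ℂ X.functionField :=
  ((Scheme.ΓSpecIso (CommRingCat.of ℂ)).inv ≫ π.appTop ≫
    X.presheaf.germ ⊤ (genericPoint X) trivial).hom.toAlgebra

/-- `L` has volume zero: `h^0(L ^ m) / m ^ d → 0`, where `d` is the dimension of `X` (the
transcendence degree of its function field) and `h^0` is the largest number `r` of linearly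
independent sections. -/
def VolZero (L : LB X) : Prop :=
  ∃ d : ℕ, (letI := fieldAlg π; Algebra.trdeg ℂ X.functionField = d) ∧
    ∀ ε > (0 : ℝ), ∀ᶠ m : ℕ in Filter.atTop, ∀ (r : ℕ) (s : Fin r → ∀ i, Γ(X, L.U i)),
      (∀ k, (L.pow m).IsSection (s k)) →
      (∀ c : Fin r → ℂ, (∀ i, ∑ k, const π _ (c k) * s k i = 0) → c = 0) → (r : ℝ) ≤ ε * m ^ d

/-- `X` is a projective primitive symplectic variety: proper over `ℂ` with an ample line bundle,
normal, with rational singularities, `H^1(X, O) = 0` (Cech cohomology of all open covers), and the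
reflexive 2-forms (rational 2-forms regular on the smooth locus) are the multiples of one form
that is symplectic on the smooth locus. -/
def PrimitiveSymplectic [LocallyOfFinitePresentation π] : Prop :=
  IsProper π ∧ (∃ A : LB X, A.IsLB ∧ A.Ample) ∧
    (∀ x : X, IsIntegrallyClosed (X.presheaf.stalk x)) ∧ RationalSing π ∧
    (∀ (ι : Type) (U : ι → X.Opens), ⨆ i, U i = ⊤ → CechZero U 0) ∧
    letI := fieldAlg π
    UniqueSymplectic ((fun x : X => (algebraMap (X.presheaf.stalk x) X.functionField).range) ''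
      π.smoothLocus)

end varieties

end Pool.Agent.P.MP_63735c_ag.Ta
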