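import Pool.Agent.P.MP_63735c_ag.TaEll

/-! Existence of the function field of `E ^ 4`. -/

open Polynomial

noncomputable section

namespace Pool.Agent.P.MP_63735c_ag.Ta

theorem tae_congr {R M ι : Type} [Semiring R] [AddCommMonoid M] [Module R M] {v w : ι → M}
    (h : LinearIndependent R v) (e : ∀ i, v i = w i) : LinearIndependent R w :=
  _root_.funext e ▸ h

theorem tae_zpow {F K : Type} [Field F] [Field K] [Algebra F K] {t : K} (ht : Transcendental F t) :
    LinearIndependent F fun m : ℤ => t ^ m := by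
  have h0 : t ≠ 0 := fun h => ht (h ▸ isAlgebraic_zero)
  have h1 : LinearIndependent F fun n : ℕ => t ^ n := by
    have := (basisMonomials F).linearIndependent.map' (aeval t).toLinearMap
      (LinearMap.ker_eq_bot.2 (transcendental_iff_injective.1 ht))
    simpa [Function.comp_def] using this
  refine linearIndependent_iff_finset_linearIndependent.2 fun s => ?_
  obtain ⟨N, hN⟩ := s.bddBelow
  have h2 := (h1.comp (fun m : s => (m.1 - N).toNat) fun a b h => Subtype.ext (by
    have := hN a.2
    have := hN b.2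
    simp only at h
    omega)).map' (LinearMap.mulLeft F (t ^ N))
      (LinearMap.ker_eq_bot.2 (mul_right_injective₀ (zpow_ne_zero N h0)))
  refine tae_congr h2 fun m => ?_
  have := hN m.2
  simp only [Function.comp_apply, LinearMap.mulLeft_apply]
  rw [← zpow_natCast, ← zpow_add₀ h0]
  congr 1
  omega

theorem tae_nsq (F : Type) [Field F] [CharZero F] (r : RatFunc F) :
    r ^ 2 ≠ RatFunc.X ^ 4 + 1 := fun h => by
  have h1 : algebraMap F[X] (RatFunc F) (X ^ 4 + 1) = RatFunc.X ^ 4 + 1 := by simp
  obtain ⟨c, rfl⟩ := IsIntegrallyClosed.algebraMap_eq_of_integral (R := F[X]) (x := r)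
    (IsIntegral.of_pow two_pos (by rw [h, ← h1]; exact isIntegral_algebraMap))
  rw [← h1, ← map_pow] at h
  have h2 : (c - X ^ 2) * (c + X ^ 2) = 1 := by
    linear_combination IsFractionRing.injective F[X] (RatFunc F) h
  obtain ⟨a, -, ha⟩ := Polynomial.isUnit_iff.1 (IsUnit.of_mul_eq_one _ h2)
  obtain ⟨b, -, hb⟩ := Polynomial.isUnit_iff.1 (IsUnit.of_mul_eq_one_right _ h2)
  have h3 : (C b - C a : F[X]) = C 2 * X ^ 2 := by
    rw [ha, hb, map_ofNat]
    ring
  have := congrArg (coeff · 2) h3
  simp at this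

theorem tae_step (F : Type) [Field F] [Algebra ℂ F] :
    ∃ (K : Type) (_ : Field K) (_ : Algebra ℂ K) (_ : Algebra F K) (_ : IsScalarTower ℂ F K)
      (x y : K), x ≠ 0 ∧ y ^ 2 = x ^ 4 + 1 ∧
        LinearIndependent F fun w : ℤ × Bool => x ^ w.1 * if w.2 then y else 1 := by
  have : CharZero F := charZero_of_injective_algebraMap (algebraMap ℂ F).injective
  have : Fact (∀ r : RatFunc F, r ^ 2 ≠ (RatFunc.X ^ 4 + 1) + 0 * r) :=
    ⟨fun r => by simpa using tae_nsq F r⟩
  let K := QuadraticAlgebra (RatFunc F) (RatFunc.X ^ 4 + 1) 0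
  have h1 : LinearIndependent (RatFunc F) fun e : Bool =>
      if e then (QuadraticAlgebra.omega : K) else 1 := by
    refine Fintype.linearIndependent_iff.2 fun g hg e => ?_
    have h2 := congrArg QuadraticAlgebra.re hg
    have h3 := congrArg QuadraticAlgebra.im hg
    cases e
    · simpa [K, QuadraticAlgebra.re_one] using h2
    · simpa [K, QuadraticAlgebra.im_one] using h3
  refine ⟨K, inferInstance, inferInstance, inferInstance, inferInstance,
    algebraMap (RatFunc F) K RatFunc.X, QuadraticAlgebra.omega, ?_, ?_, ?_⟩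
  · simpa using RatFunc.X_ne_zero
  · rw [sq, QuadraticAlgebra.omega_mul_omega_eq_algebraMap]
    simp [K]
  · have := linearIndependent_smul (tae_zpow (RatFunc.transcendental_X (K := F))) h1
    simpa [Algebra.smul_def] using this

theorem tae_tower (n : ℕ) : ∃ (K : Type) (_ : Field K) (_ : Algebra ℂ K) (x y : Fin n → K),
    (∀ i, x i ≠ 0) ∧ (∀ i, y i ^ 2 = x i ^ 4 + 1) ∧ LinearIndependent ℂ
      fun w : Fin n → ℤ × Bool => ∏ i, (x i ^ (w i).1 * if (w i).2 then y i else 1) := by
  induction n with
  | zero =>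
    exact ⟨ℂ, inferInstance, inferInstance, Fin.elim0, Fin.elim0, by simp, by simp,
      linearIndependent_unique_iff.2 (by simp)⟩
  | succ n ih =>
    obtain ⟨F, _, _, x, y, h1, h2, h3⟩ := ih
    obtain ⟨K, _, _, _, _, a, b, h4, h5, h6⟩ := tae_step F
    refine ⟨K, inferInstance, inferInstance, Fin.cons a fun i => algebraMap F K (x i),
      Fin.cons b fun i => algebraMap F K (y i), fun i => ?_, fun i => ?_, ?_⟩
    · refine Fin.cases h4 (fun i => ?_) i
      simpa using h1 i
    · refine Fin.cases h5 (fun i => ?_) i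
      simpa using congrArg (algebraMap F K) (h2 i)
    · have := (linearIndependent_smul h3 h6).comp
        (fun w : Fin (n + 1) → ℤ × Bool => (Fin.tail w, w 0)) fun a b h => by
          obtain ⟨e1, e2⟩ := Prod.mk.inj h
          rw [← Fin.cons_self_tail a, ← Fin.cons_self_tail b, e1, e2]
      refine tae_congr this fun w => ?_
      simp only [Function.comp_apply, Fin.prod_univ_succ, Algebra.smul_def, Fin.tail, map_prod,
        map_mul, map_zpow₀, apply_ite (algebraMap F K), map_one, Fin.cons_zero, Fin.cons_succ]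
      exact mul_comm _ _

theorem exists_ell : ∃ (K : Type) (_ : Field K) (_ : Algebra ℂ K) (x y : Fin 4 → K), Ell x y := by
  obtain ⟨F, _, _, x, y, -, h2, h3⟩ := tae_tower 4
  let K := IntermediateField.adjoin ℂ (Set.range x ∪ Set.range y)
  let x' : Fin 4 → K := fun i => ⟨x i, IntermediateField.subset_adjoin _ _ (Or.inl ⟨i, rfl⟩)⟩
  let y' : Fin 4 → K := fun i => ⟨y i, IntermediateField.subset_adjoin _ _ (Or.inr ⟨i, rfl⟩)⟩
  refine ⟨K, inferInstance, inferInstance, x', y', fun i => Subtype.ext (h2 i), ?_, fun f => ?_⟩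
  · refine LinearIndependent.of_comp K.val.toLinearMap ?_
    have := h3.comp (fun (w : Ix) i => (w.1 i, w.2 i)) fun a b h =>
      Prod.ext (_root_.funext fun i => (Prod.ext_iff.1 (congrFun h i)).1)
        (_root_.funext fun i => (Prod.ext_iff.1 (congrFun h i)).2)
    refine tae_congr this fun w => ?_
    show _ = K.val (mon x' y' w)
    simp only [Function.comp_apply, mon, map_mul, map_prod, map_zpow₀, apply_ite K.val, map_one]
    rfl
  · have e : (RR x' y').map K.val = Algebra.adjoin ℂ (Set.range x ∪ Set.range y) := by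
      rw [RR, AlgHom.map_adjoin, Set.image_union, ← Set.range_comp, ← Set.range_comp]
      rfl
    obtain ⟨r, hr, s, hs, h⟩ := IntermediateField.mem_adjoin_iff_div.1 f.2
    rw [← e] at hr hs
    obtain ⟨a, ha, rfl⟩ := hr
    obtain ⟨b, hb, rfl⟩ := hs
    by_cases h0 : b = 0
    · exact ⟨0, zero_mem _, 1, one_mem _, one_ne_zero, Subtype.ext (by simpa [h0] using h)⟩
    · exact ⟨a, ha, b, hb, h0, Subtype.ext (by simpa using h)⟩

end Pool.Agent.P.MP_63735c_ag.Ta
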