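import Pool.Agent.P.MP_63735c_ag.TaLocC

/-! The function field of the fourth power of the curve `w ^ 2 = t ^ 4 + 1`: monomials. -/

noncomputable section

namespace Pool.Agent.P.MP_63735c_ag.Ta

variable {K : Type} [Field K] [Algebra ℂ K] {t w t' w' : Fin 4 → K} {f : K}

/-- Exponents of monomials `t ^ m * w ^ e`. -/
abbrev Ix : Type := (Fin 4 → ℤ) × (Fin 4 → Bool)

/-- The monomial `t ^ m * w ^ e`. -/
def mon (t w : Fin 4 → K) (μ : Ix) : K := ∏ i, t i ^ μ.1 i * if μ.2 i then w i else 1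

/-- The span of a set of monomials. -/
def Sp (t w : Fin 4 → K) (T : Set Ix) : Submodule ℂ K := Submodule.span ℂ (mon t w '' T)

/-- The affine coordinate ring `ℂ[t, w]`. -/
def RR (t w : Fin 4 → K) : Subalgebra ℂ K := Algebra.adjoin ℂ (Set.range t ∪ Set.range w)

/-- Exponents with `lo ≤ m` and `m + 2 e ≤ hi`. -/
def Box (lo hi : Fin 4 → ℤ) : Set Ix :=
  {μ | ∀ i, lo i ≤ μ.1 i ∧ μ.1 i + (if μ.2 i then 2 else 0) ≤ hi i}

/-- `K` is the function field of `E ^ 4` with coordinates `t`, `w`. -/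
structure Ell (t w : Fin 4 → K) : Prop where
  rel : ∀ i, w i ^ 2 = t i ^ 4 + 1
  indep : LinearIndependent ℂ (mon t w)
  frac : ∀ f : K, ∃ a ∈ RR t w, ∃ b ∈ RR t w, b ≠ 0 ∧ f = a / b

theorem t_mem_RR (i : Fin 4) : t i ∈ RR t w := Algebra.subset_adjoin (Or.inl ⟨i, rfl⟩)

theorem w_mem_RR (i : Fin 4) : w i ∈ RR t w := Algebra.subset_adjoin (Or.inr ⟨i, rfl⟩)

theorem mon_mem_Sp {T : Set Ix} {μ : Ix} (h : μ ∈ T) : mon t w μ ∈ Sp t w T :=
  Submodule.subset_span ⟨μ, h, rfl⟩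

theorem Sp_mono {T T' : Set Ix} (h : T ⊆ T') : Sp t w T ≤ Sp t w T' :=
  Submodule.span_mono (Set.image_mono h)

theorem mem_Sp {T : Set Ix} : f ∈ Sp t w T ↔
    ∃ a : Ix →₀ ℂ, (∀ μ, μ ∉ T → a μ = 0) ∧ Finsupp.linearCombination ℂ (mon t w) a = f := by
  rw [Sp, Finsupp.mem_span_image_iff_linearCombination]
  simp only [Finsupp.mem_supported']

omit [Algebra ℂ K] in
theorem ell_mon_t (t w : Fin 4 → K) (i : Fin 4) :
    mon t w (fun j => if j = i then 1 else 0, fun _ => false) = t i := by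
  rw [mon, Finset.prod_eq_single i] <;> simp +contextual

omit [Algebra ℂ K] in
theorem ell_mon_w (t w : Fin 4 → K) (i : Fin 4) :
    mon t w (fun _ => 0, fun j => decide (j = i)) = w i := by
  rw [mon, Finset.prod_eq_single i] <;> simp +contextual

omit [Algebra ℂ K] in
theorem ell_mon_one (t w : Fin 4 → K) : mon t w (fun _ => 0, fun _ => false) = 1 := by
  simp [mon]

theorem Ell.t_ne (h : Ell t w) (i : Fin 4) : t i ≠ 0 := by
  rw [← ell_mon_t t w i]
  exact h.indep.ne_zero _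

theorem Ell.w_ne (h : Ell t w) (i : Fin 4) : w i ≠ 0 := by
  rw [← ell_mon_w t w i]
  exact h.indep.ne_zero _

theorem Ell.mon_mul_zpow (h : Ell t w) (μ : Ix) (m : Fin 4 → ℤ) :
    mon t w μ * ∏ i, t i ^ m i = mon t w (μ.1 + m, μ.2) := by
  rw [mon, mon, ← Finset.prod_mul_distrib]
  refine Finset.prod_congr rfl fun i _ => ?_
  simp only [Pi.add_apply, zpow_add₀ (h.t_ne i)]
  ring

theorem Ell.mem_inter (h : Ell t w) {ι : Type} [Nonempty ι] {T : ι → Set Ix}
    (hf : ∀ i, f ∈ Sp t w (T i)) : f ∈ Sp t w (⋂ i, T i) := by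
  obtain ⟨i0⟩ := ‹Nonempty ι›
  obtain ⟨a, -, ha⟩ := mem_Sp.1 (hf i0)
  refine mem_Sp.2 ⟨a, fun μ hμ => ?_, ha⟩
  obtain ⟨i, hi⟩ : ∃ i, μ ∉ T i := by simpa using hμ
  obtain ⟨b, hb, hb'⟩ := mem_Sp.1 (hf i)
  rw [h.indep (ha.trans hb'.symm)]
  exact hb μ hi

theorem ell_mul_mem {T T' U : Set Ix} {g : K} (hf : f ∈ Sp t w T) (hg : g ∈ Sp t w T')
    (H : ∀ μ ∈ T, ∀ ν ∈ T', mon t w μ * mon t w ν ∈ Sp t w U) : f * g ∈ Sp t w U := by
  have h1 := Submodule.mul_mem_mul hf hg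
  rw [Sp, Sp, Submodule.span_mul_span] at h1
  refine Submodule.span_le.2 ?_ h1
  rintro _ ⟨_, ⟨μ, hμ, rfl⟩, _, ⟨ν, hν, rfl⟩, rfl⟩
  exact H μ hμ ν hν

theorem Ell.ell_mon_mul (h : Ell t w) (μ ν : Ix) {U : Set Ix}
    (H : ∀ p : Fin 4 → Bool, (∀ i, p i = true → μ.2 i = true ∧ ν.2 i = true) →
      ((fun i => μ.1 i + ν.1 i + if p i then 4 else 0, fun i => xor (μ.2 i) (ν.2 i)) : Ix) ∈ U) :
    mon t w μ * mon t w ν ∈ Sp t w U := by
  classical
  have e : mon t w μ * mon t w ν = ∏ i, ∑ b : Bool,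
      if b = true → μ.2 i = true ∧ ν.2 i = true then
        t i ^ (μ.1 i + ν.1 i + if b then 4 else 0) * (if xor (μ.2 i) (ν.2 i) then w i else 1)
      else 0 := by
    rw [mon, mon, ← Finset.prod_mul_distrib]
    refine Finset.prod_congr rfl fun i _ => ?_
    have hr := h.rel i
    have h4 : t i ^ (4 : ℤ) = t i ^ 4 := zpow_ofNat _ 4
    rw [Fintype.sum_bool]
    cases μ.2 i <;> cases ν.2 i <;> simp [zpow_add₀ (h.t_ne i), h4]
    · ring
    · ring
    · linear_combination t i ^ μ.1 i * t i ^ ν.1 i * hr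
  rw [e, Finset.prod_univ_sum]
  refine Submodule.sum_mem _ fun p _ => ?_
  by_cases hp : ∀ i, p i = true → μ.2 i = true ∧ ν.2 i = true
  · rw [Finset.prod_congr rfl fun i _ => if_pos (hp i)]
    exact mon_mem_Sp (H p hp)
  · obtain ⟨i, hi⟩ := not_forall.1 hp
    rw [Finset.prod_eq_zero (Finset.mem_univ i) (if_neg hi)]
    exact zero_mem _

theorem Ell.box_mul (h : Ell t w) {lo hi lo' hi' : Fin 4 → ℤ} {g : K} (hf : f ∈ Sp t w (Box lo hi))
    (hg : g ∈ Sp t w (Box lo' hi')) : f * g ∈ Sp t w (Box (lo + lo') (hi + hi')) := by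
  refine ell_mul_mem hf hg fun μ hμ ν hν => h.ell_mon_mul μ ν fun p hp i => ?_
  have h1 := hμ i
  have h2 := hν i
  have h3 := hp i
  simp only [Pi.add_apply]
  rcases Bool.eq_false_or_eq_true (p i) with a | a <;>
    rcases Bool.eq_false_or_eq_true (μ.2 i) with b | b <;>
    rcases Bool.eq_false_or_eq_true (ν.2 i) with c | c <;>
    simp [a, b, c] at h1 h2 h3 ⊢ <;> omega

theorem Ell.mem_RR (h : Ell t w) : f ∈ RR t w ↔ f ∈ Sp t w {μ | ∀ i, 0 ≤ μ.1 i} := by
  constructor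
  · intro hf
    induction hf using Algebra.adjoin_induction with
    | mem x hx =>
      rcases hx with ⟨i, rfl⟩ | ⟨i, rfl⟩
      · rw [← ell_mon_t t w i]
        refine mon_mem_Sp fun j => ?_
        by_cases hj : j = i <;> simp [hj]
      · rw [← ell_mon_w t w i]
        exact mon_mem_Sp fun j => le_rfl
    | algebraMap r =>
      rw [Algebra.algebraMap_eq_smul_one, ← ell_mon_one t w]
      exact Submodule.smul_mem _ _ (mon_mem_Sp fun j => le_rfl)
    | add x y _ _ hx hy => exact add_mem hx hy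
    | mul x y _ _ hx hy =>
      refine ell_mul_mem hx hy fun μ hμ ν hν => h.ell_mon_mul μ ν fun p _ i => ?_
      have h1 := hμ i
      have h2 := hν i
      show 0 ≤ μ.1 i + ν.1 i + if p i then 4 else 0
      split_ifs <;> omega
  · intro hf
    refine (Submodule.span_le (p := Subalgebra.toSubmodule (RR t w))).2 ?_ hf
    rintro _ ⟨μ, hμ, rfl⟩
    refine Subalgebra.prod_mem (RR t w) fun i _ => Subalgebra.mul_mem _ ?_ ?_
    · obtain ⟨n, hn⟩ := Int.eq_ofNat_of_zero_le (hμ i)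
      rw [hn, zpow_natCast]
      exact Subalgebra.pow_mem _ (t_mem_RR i) n
    · split_ifs
      · exact w_mem_RR i
      · exact Subalgebra.one_mem _

/-- A fixed vector of a diagonal automorphism is a combination of fixed monomials. -/
theorem Ell.fixed_mem (h : Ell t w) {T : Set Ix} (hf : f ∈ Sp t w T) (g : K ≃ₐ[ℂ] K) (l : Ix → ℂ)
    (hl : ∀ μ, g (mon t w μ) = l μ • mon t w μ) (hg : g f = f) :
    f ∈ Sp t w (T ∩ {μ | l μ = 1}) := by
  obtain ⟨a, ha, rfl⟩ := mem_Sp.1 hf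
  refine mem_Sp.2 ⟨a, fun μ hμ => ?_, rfl⟩
  by_contra h0
  have hs : ∑ ν ∈ a.support, (a ν * (l ν - 1)) • mon t w ν = 0 := by
    rw [Finsupp.linearCombination_apply, Finsupp.sum, map_sum] at hg
    rw [← sub_eq_zero.2 hg, ← Finset.sum_sub_distrib]
    refine Finset.sum_congr rfl fun ν _ => ?_
    rw [map_smul, hl, smul_smul, ← sub_smul, mul_sub, mul_one]
  have h1 := linearIndependent_iff'.1 h.indep _ _ hs μ (Finsupp.mem_support_iff.2 h0)
  refine hμ ⟨by_contra fun hT => h0 (ha μ hT), ?_⟩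
  exact sub_eq_zero.1 ((mul_eq_zero.1 h1).resolve_left h0)

theorem Ell.algInd_t (h : Ell t w) : AlgebraicIndependent ℂ t := by
  have li := h.indep.comp (fun d : Fin 4 →₀ ℕ => ((fun i => (d i : ℤ), fun _ => false) : Ix))
    fun d d' hd => Finsupp.ext fun i => Int.natCast_inj.1 (congrFun (congrArg Prod.fst hd) i)
  refine algebraicIndependent_iff.2 fun p hp => ?_
  rw [MvPolynomial.aeval_def, MvPolynomial.eval₂_eq'] at hp
  have h1 := linearIndependent_iff'.1 li p.support (fun d => p.coeff d) (by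
    rw [← hp]
    refine Finset.sum_congr rfl fun d _ => ?_
    simp [mon, Algebra.smul_def])
  ext d
  by_contra h0
  exact h0 (h1 d (MvPolynomial.mem_support_iff.2 h0))

theorem Ell.algInd_w (h : Ell t w) : AlgebraicIndependent ℂ w := by
  have h1 := h.algInd_t.polynomial_aeval_of_transcendental
    (f := fun _ => (Polynomial.X ^ 4 + Polynomial.C 1 : Polynomial ℂ)) fun _ =>
      Polynomial.transcendental _ (by rw [Polynomial.natDegree_X_pow_add_C]; norm_num)
        (by rw [(Polynomial.monic_X_pow_add_C (1 : ℂ) (by norm_num : 4 ≠ 0)).leadingCoeff]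
            exact one_mem _)
  let A := Algebra.adjoin ℂ (Set.range w)
  let v : Fin 4 → A := fun i => ⟨w i, Algebra.subset_adjoin ⟨i, rfl⟩⟩
  have h2 : AlgebraicIndependent ℂ fun i => v i ^ 2 := by
    refine AlgebraicIndependent.of_comp A.val ?_
    have e : (A.val ∘ fun i => v i ^ 2) = fun i => t i ^ 4 + 1 := funext fun i => h.rel i
    rw [e]
    simpa using h1
  have h3 : ∀ (a : K) (ha : a ∈ A), (⟨a, ha⟩ : A) ∈ Algebra.adjoin ℂ (Set.range v) := by
    intro a ha
    induction ha using Algebra.adjoin_induction with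
    | mem x hx =>
      obtain ⟨i, rfl⟩ := hx
      exact Algebra.subset_adjoin ⟨i, rfl⟩
    | algebraMap r => exact Subalgebra.algebraMap_mem _ r
    | add x y _ _ hx hy => exact Subalgebra.add_mem _ hx hy
    | mul x y _ _ hx hy => exact Subalgebra.mul_mem _ hx hy
  have : FaithfulSMul ℂ A :=
    (faithfulSMul_iff_algebraMap_injective ℂ A).2 (algebraMap ℂ A).injective
  have : Algebra.IsAlgebraic (Algebra.adjoin ℂ (Set.range v)) A :=
    ⟨fun a => isAlgebraic_algebraMap (⟨a, h3 a.1 a.2⟩ : Algebra.adjoin ℂ (Set.range v))⟩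
  exact (Algebra.IsAlgebraic.isTranscendenceBasis_of_le_trdeg_of_finite ℂ v
    h2.cardinalMk_le_trdeg).1.map' (f := A.val) Subtype.val_injective

theorem Ell.hom_ext (h : Ell t w) {g g' : K ≃ₐ[ℂ] K} (h1 : ∀ i, g (t i) = g' (t i))
    (h2 : ∀ i, g (w i) = g' (w i)) : g = g' := by
  have key : ∀ a ∈ RR t w, g a = g' a := by
    intro a ha
    induction ha using Algebra.adjoin_induction with
    | mem x hx =>
      rcases hx with ⟨i, rfl⟩ | ⟨i, rfl⟩
      · exact h1 i
      · exact h2 i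
    | algebraMap r => rw [g.commutes, g'.commutes]
    | add x y _ _ hx hy => rw [map_add, map_add, hx, hy]
    | mul x y _ _ hx hy => rw [map_mul, map_mul, hx, hy]
  ext f
  obtain ⟨a, ha, b, hb, -, rfl⟩ := h.frac f
  rw [map_div₀, map_div₀, key a ha, key b hb]

theorem ft_RR : Algebra.FiniteType ℂ (RR t w) := by
  exact .adjoin_of_finite ((Set.finite_range t).union (Set.finite_range w))

end Pool.Agent.P.MP_63735c_ag.Ta
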