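import Pool.Agent.P.MP_63735c_ag.TaEll

/-! The presentation of `ℂ[t, w]`: automorphisms, smoothness. -/

noncomputable section

namespace Pool.Agent.P.MP_63735c_ag.Ta

variable {K : Type} [Field K] [Algebra ℂ K] {t w t' w' : Fin 4 → K}

/-- Monomials with natural exponents in any commutative ring. -/
def ellbMon {B : Type} [CommRing B] (u v : Fin 4 → B) (μ : (Fin 4 → ℕ) × (Fin 4 → Bool)) : B :=
  ∏ i, u i ^ μ.1 i * if μ.2 i then v i else 1

theorem ellb_update {B : Type} [CommRing B] (u v : Fin 4 → B) (m : Fin 4 → ℕ) (e : Fin 4 → Bool)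
    (j : Fin 4) (k : ℕ) (β : Bool) :
    ellbMon u v (Function.update m j k, Function.update e j β) =
      (u j ^ k * if β then v j else 1) *
        ∏ i ∈ Finset.univ.erase j, (u i ^ m i * if e i then v i else 1) := by
  unfold ellbMon
  rw [← Finset.mul_prod_erase _ _ (Finset.mem_univ j)]
  simp only [Function.update_self]
  congr 1
  refine Finset.prod_congr rfl fun i hi => ?_
  simp only [Function.update_of_ne (Finset.ne_of_mem_erase hi)]

theorem ellb_span {B : Type} [CommRing B] [Algebra ℂ B] {u v : Fin 4 → B}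
    (hr : ∀ i, v i ^ 2 = u i ^ 4 + 1) {p : B}
    (hp : p ∈ Algebra.adjoin ℂ (Set.range u ∪ Set.range v)) :
    p ∈ Submodule.span ℂ (Set.range (ellbMon u v)) := by
  set S := Submodule.span ℂ (Set.range (ellbMon u v)) with hS
  have hm : ∀ μ, ellbMon u v μ ∈ S := fun μ => Submodule.subset_span ⟨μ, rfl⟩
  have gen : ∀ q : B, (∀ μ, q * ellbMon u v μ ∈ S) → ∀ s ∈ S, q * s ∈ S := by
    intro q hq s hs
    induction hs using Submodule.span_induction with
    | mem x hx => obtain ⟨μ, rfl⟩ := hx; exact hq μ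
    | zero => rw [mul_zero]; exact S.zero_mem
    | add x y _ _ hx hy => rw [mul_add]; exact S.add_mem hx hy
    | smul c x _ hx => rw [mul_smul_comm]; exact S.smul_mem c hx
  have self : ∀ (m : Fin 4 → ℕ) (e : Fin 4 → Bool) (j : Fin 4), ellbMon u v (m, e) =
      (u j ^ m j * if e j then v j else 1) *
        ∏ i ∈ Finset.univ.erase j, (u i ^ m i * if e i then v i else 1) := by
    intro m e j
    rw [← ellb_update, Function.update_eq_self, Function.update_eq_self]
  have key : ∀ s ∈ S, p * s ∈ S := by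
    induction hp using Algebra.adjoin_induction with
    | mem x hx =>
      refine gen x ?_
      rintro ⟨m, e⟩
      rcases hx with ⟨j, rfl⟩ | ⟨j, rfl⟩
      · have h1 := hm (Function.update m j (m j + 1), Function.update e j (e j))
        rw [ellb_update] at h1
        rw [self m e j]
        rwa [pow_succ', mul_assoc (u j), mul_assoc (u j)] at h1
      · rw [self m e j]
        cases he : e j
        · have h1 := hm (Function.update m j (m j), Function.update e j true)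
          rw [ellb_update] at h1
          refine (congrArg (· ∈ S) ?_).mp h1
          simp only [if_true, Bool.false_eq_true, if_false]
          ring
        · have h1 := hm (Function.update m j (m j + 4), Function.update e j false)
          have h2 := hm (Function.update m j (m j), Function.update e j false)
          rw [ellb_update] at h1 h2
          refine (congrArg (· ∈ S) ?_).mp (S.add_mem h1 h2)
          simp only [if_true, Bool.false_eq_true, if_false]
          linear_combination (-(u j ^ m j) *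
            ∏ i ∈ Finset.univ.erase j, (u i ^ m i * if e i then v i else 1)) * hr j
    | algebraMap c => intro s hs; rw [← Algebra.smul_def]; exact S.smul_mem c hs
    | add x y _ _ hx hy => intro s hs; rw [add_mul]; exact S.add_mem (hx s hs) (hy s hs)
    | mul x y _ _ hx hy => intro s hs; rw [mul_assoc]; exact hx _ (hy s hs)
  have h1 : ellbMon u v (0, fun _ => false) = 1 := by simp [ellbMon]
  simpa using key 1 (h1 ▸ hm _)

theorem Ell.ellb_indep (h : Ell t w) : LinearIndependent ℂ (ellbMon t w) := by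
  have h1 := h.indep.comp
    (fun μ : (Fin 4 → ℕ) × (Fin 4 → Bool) => ((fun i => (μ.1 i : ℤ), μ.2) : Ix)) (by
      rintro ⟨m, e⟩ ⟨m', e'⟩ hh
      obtain ⟨h1, h2⟩ := Prod.mk.inj hh
      refine Prod.ext (funext fun i => ?_) h2
      exact_mod_cast congrFun h1 i)
  refine (congrArg (fun z : (Fin 4 → ℕ) × (Fin 4 → Bool) → K => LinearIndependent ℂ z)
    (funext fun μ => ?_)).mp h1
  simp [mon, ellbMon]

/-- Universal property of `ℂ[t, w]`. -/
theorem Ell.exists_hom (h : Ell t w) {A : Type} [CommRing A] [Algebra ℂ A] (a b : Fin 4 → A)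
    (hr : ∀ i, b i ^ 2 = a i ^ 4 + 1) :
    ∃ g : RR t w →ₐ[ℂ] A, (∀ i, g ⟨t i, t_mem_RR i⟩ = a i) ∧ ∀ i, g ⟨w i, w_mem_RR i⟩ = b i := by
  let u : Fin 4 → K × A := fun i => (t i, a i)
  let v : Fin 4 → K × A := fun i => (w i, b i)
  have huv : ∀ i, v i ^ 2 = u i ^ 4 + 1 := fun i => Prod.ext (h.rel i) (hr i)
  let S : Subalgebra ℂ (K × A) := Algebra.adjoin ℂ (Set.range u ∪ Set.range v)
  have hmap : S.map (AlgHom.fst ℂ K A) = RR t w := by
    rw [AlgHom.map_adjoin, Set.image_union, ← Set.range_comp, ← Set.range_comp]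
    rfl
  let F : S →ₐ[ℂ] RR t w := ((AlgHom.fst ℂ K A).comp S.val).codRestrict (RR t w)
    fun z => hmap ▸ Subalgebra.mem_map.2 ⟨z.1, z.2, rfl⟩
  have hF : Function.Bijective F := by
    constructor
    · rw [injective_iff_map_eq_zero]
      intro z hz
      obtain ⟨c, hc⟩ := Finsupp.mem_span_range_iff_exists_finsupp.1 (ellb_span huv z.2)
      have h1 : (AlgHom.fst ℂ K A) z.1 = 0 := congrArg Subtype.val hz
      have h2 : ∀ μ, (AlgHom.fst ℂ K A) (ellbMon u v μ) = ellbMon t w μ := by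
        intro μ
        unfold ellbMon
        rw [map_prod]
        refine Finset.prod_congr rfl fun i _ => ?_
        rw [map_mul, map_pow]
        cases μ.2 i <;> rfl
      rw [← hc, map_finsuppSum] at h1
      simp only [map_smul, h2] at h1
      have h3 : c = 0 := linearIndependent_iff.1 h.ellb_indep c
        (by rwa [Finsupp.linearCombination_apply])
      apply Subtype.ext
      rw [← hc, h3, Finsupp.sum_zero_index]
      rfl
    · rintro ⟨f, hf⟩
      obtain ⟨z, hz, rfl⟩ := Subalgebra.mem_map.1 (hmap.symm ▸ hf : f ∈ S.map (AlgHom.fst ℂ K A))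
      exact ⟨⟨z, hz⟩, rfl⟩
  let E := AlgEquiv.ofBijective F hF
  refine ⟨((AlgHom.snd ℂ K A).comp S.val).comp E.symm.toAlgHom, fun i => ?_, fun i => ?_⟩
  · have h1 : E.symm ⟨t i, t_mem_RR i⟩ = ⟨u i, Algebra.subset_adjoin (Or.inl ⟨i, rfl⟩)⟩ :=
      E.symm_apply_eq.2 rfl
    exact congrArg (fun z : S => z.1.2) h1
  · have h1 : E.symm ⟨w i, w_mem_RR i⟩ = ⟨v i, Algebra.subset_adjoin (Or.inr ⟨i, rfl⟩)⟩ :=
      E.symm_apply_eq.2 rfl
    exact congrArg (fun z : S => z.1.2) h1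

theorem ellb_ext {A : Type} [CommRing A] [Algebra ℂ A] {g g' : RR t w →ₐ[ℂ] A}
    (h1 : ∀ i, g ⟨t i, t_mem_RR i⟩ = g' ⟨t i, t_mem_RR i⟩)
    (h2 : ∀ i, g ⟨w i, w_mem_RR i⟩ = g' ⟨w i, w_mem_RR i⟩) : g = g' := by
  refine AlgHom.ext_of_eq_adjoin (s := Set.range t ∪ Set.range w) rfl ?_
  rintro x (⟨i, rfl⟩ | ⟨i, rfl⟩)
  exacts [h1 i, h2 i]

theorem Ell.ellb_isFrac (h : Ell t w) : IsFractionRing (RR t w) K :=
  IsFractionRing.of_field _ _ fun z => by
    obtain ⟨a, ha, b, hb, -, rfl⟩ := h.frac z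
    exact ⟨⟨a, ha⟩, ⟨b, hb⟩, rfl⟩

theorem Ell.exists_aut (h : Ell t w) (h' : Ell t' w') :
    ∃ g : K ≃ₐ[ℂ] K, (∀ i, g (t i) = t' i) ∧ ∀ i, g (w i) = w' i := by
  obtain ⟨g, g1, g2⟩ := h.exists_hom (A := RR t' w') (fun i => ⟨t' i, t_mem_RR i⟩)
    (fun i => ⟨w' i, w_mem_RR i⟩) fun i => Subtype.ext (h'.rel i)
  obtain ⟨g', g1', g2'⟩ := h'.exists_hom (A := RR t w) (fun i => ⟨t i, t_mem_RR i⟩)
    (fun i => ⟨w i, w_mem_RR i⟩) fun i => Subtype.ext (h.rel i)
  have e1 : g.comp g' = AlgHom.id ℂ _ :=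
    ellb_ext (fun i => by rw [AlgHom.comp_apply, g1', g1]; rfl)
      fun i => by rw [AlgHom.comp_apply, g2', g2]; rfl
  have e2 : g'.comp g = AlgHom.id ℂ _ :=
    ellb_ext (fun i => by rw [AlgHom.comp_apply, g1, g1']; rfl)
      fun i => by rw [AlgHom.comp_apply, g2, g2']; rfl
  have := h.ellb_isFrac
  have := h'.ellb_isFrac
  let E : RR t w ≃ₐ[ℂ] RR t' w' := AlgEquiv.ofAlgHom g g' e1 e2
  refine ⟨IsFractionRing.algEquivOfAlgEquiv E, fun i => ?_, fun i => ?_⟩
  · exact (IsFractionRing.algEquivOfAlgEquiv_algebraMap (K := K) (L := K) E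
      ⟨t i, t_mem_RR i⟩).trans (congrArg Subtype.val (g1 i))
  · exact (IsFractionRing.algEquivOfAlgEquiv_algebraMap (K := K) (L := K) E
      ⟨w i, w_mem_RR i⟩).trans (congrArg Subtype.val (g2 i))

theorem ellb_newton {B : Type} [CommRing B] {a b e u : B} (he : b ^ 2 = a ^ 4 + 1 + e)
    (h2 : e ^ 2 = 0) (hu : 4 * u = 1) :
    (b - 2 * u * e * b) ^ 2 = (a - u * e * a) ^ 4 + 1 := by
  linear_combination (1 - 4 * u * e) * he - e * hu +
    (4 * u ^ 2 * b ^ 2 - a ^ 4 * (6 * u ^ 2 - 4 * u ^ 3 * e + u ^ 4 * e ^ 2) - 4 * u) * h2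

theorem Ell.formallySmooth (h : Ell t w) : Algebra.FormallySmooth ℂ (RR t w) := by
  refine Algebra.FormallySmooth.of_comp_surjective fun B _ _ I hI g => ?_
  choose a ha using fun i => Ideal.Quotient.mk_surjective (g ⟨t i, t_mem_RR i⟩)
  choose b hb using fun i => Ideal.Quotient.mk_surjective (g ⟨w i, w_mem_RR i⟩)
  let e : Fin 4 → B := fun i => b i ^ 2 - a i ^ 4 - 1
  have he0 : ∀ i, Ideal.Quotient.mk I (e i) = 0 := by
    intro i
    have h1 : (⟨w i, w_mem_RR i⟩ : RR t w) ^ 2 = ⟨t i, t_mem_RR i⟩ ^ 4 + 1 :=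
      Subtype.ext (h.rel i)
    have h2 := congrArg g h1
    rw [map_add, map_pow, map_pow, map_one] at h2
    simp only [e, map_sub, map_pow, map_one, ha, hb, h2]
    ring
  have he2 : ∀ i, e i ^ 2 = 0 := fun i => by
    have h1 := Ideal.pow_mem_pow (Ideal.Quotient.eq_zero_iff_mem.1 (he0 i)) 2
    rwa [hI, Ideal.mem_bot] at h1
  let u : B := algebraMap ℂ B 4⁻¹
  have hu : 4 * u = 1 := by
    rw [show (4 : B) = algebraMap ℂ B 4 from (map_ofNat _ 4).symm, ← map_mul,
      mul_inv_cancel₀ (by norm_num), map_one]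
  obtain ⟨f, f1, f2⟩ := h.exists_hom (fun i => a i - u * e i * a i)
    (fun i => b i - 2 * u * e i * b i) fun i => ellb_newton (by simp only [e]; ring) (he2 i) hu
  refine ⟨f, ellb_ext (fun i => ?_) fun i => ?_⟩
  · rw [AlgHom.comp_apply, f1, Ideal.Quotient.mkₐ_eq_mk]
    simp only [map_sub, map_mul, he0, ha, mul_zero, zero_mul, sub_zero]
  · rw [AlgHom.comp_apply, f2, Ideal.Quotient.mkₐ_eq_mk]
    simp only [map_sub, map_mul, he0, hb, mul_zero, zero_mul, sub_zero]

theorem Ell.ellb_frac (h : Ell t w) {R : Subalgebra ℂ K}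
    (h1 : ∀ i, ∃ a ∈ R, ∃ b ∈ R, b ≠ 0 ∧ t i = a / b)
    (h2 : ∀ i, ∃ a ∈ R, ∃ b ∈ R, b ≠ 0 ∧ w i = a / b) (f : K) :
    ∃ a ∈ R, ∃ b ∈ R, b ≠ 0 ∧ f = a / b := by
  have key : ∀ p ∈ RR t w, ∃ a ∈ R, ∃ b ∈ R, b ≠ 0 ∧ p = a / b := by
    intro p hp
    induction hp using Algebra.adjoin_induction with
    | mem x hx =>
      rcases hx with ⟨j, rfl⟩ | ⟨j, rfl⟩
      exacts [h1 j, h2 j]
    | algebraMap c => exact ⟨_, R.algebraMap_mem c, 1, R.one_mem, one_ne_zero, (div_one _).symm⟩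
    | add x y _ _ hx hy =>
      obtain ⟨a, ha, b, hb, hb0, rfl⟩ := hx
      obtain ⟨c, hc, d, hd, hd0, rfl⟩ := hy
      exact ⟨_, R.add_mem (R.mul_mem ha hd) (R.mul_mem hb hc), _, R.mul_mem hb hd,
        mul_ne_zero hb0 hd0, div_add_div _ _ hb0 hd0⟩
    | mul x y _ _ hx hy =>
      obtain ⟨a, ha, b, hb, hb0, rfl⟩ := hx
      obtain ⟨c, hc, d, hd, hd0, rfl⟩ := hy
      exact ⟨_, R.mul_mem ha hc, _, R.mul_mem hb hd, mul_ne_zero hb0 hd0, div_mul_div_comm _ _ _ _⟩
  obtain ⟨p, hp, q, hq, hq0, rfl⟩ := h.frac f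
  obtain ⟨a, ha, b, hb, hb0, rfl⟩ := key p hp
  obtain ⟨c, hc, d, hd, hd0, rfl⟩ := key q hq
  have hc0 : c ≠ 0 := fun h0 => hq0 (by rw [h0, zero_div])
  exact ⟨_, R.mul_mem ha hd, _, R.mul_mem hb hc, mul_ne_zero hb0 hc0, div_div_div_eq _ _ _ _⟩

/-- Permuting and rescaling the coordinates. -/
theorem Ell.perm (h : Ell t w) (p : Equiv.Perm (Fin 4)) (c e : Fin 4 → ℂ) (hc : ∀ i, c i ^ 4 = 1)
    (he : ∀ i, e i ^ 2 = 1) : Ell (fun i => c i • t (p i)) fun i => e i • w (p i) := by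
  have c0 : ∀ i, c i ≠ 0 := fun i h0 => by simpa [h0] using hc i
  have e0 : ∀ i, e i ≠ 0 := fun i h0 => by simpa [h0] using he i
  refine ⟨fun i => ?_, ?_, h.ellb_frac (fun i => ?_) fun i => ?_⟩
  · rw [smul_pow, smul_pow, hc, he, one_smul, one_smul, h.rel]
  · have h1 := (h.indep.comp (fun μ : Ix => ((μ.1 ∘ p.symm, μ.2 ∘ p.symm) : Ix)) (by
      rintro ⟨m, ε⟩ ⟨m', ε'⟩ hh
      obtain ⟨h1, h2⟩ := Prod.mk.inj hh
      exact Prod.ext (p.symm.surjective.injective_comp_right h1)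
        (p.symm.surjective.injective_comp_right h2))).units_smul
      fun μ : Ix => Units.mk0 (∏ i, c i ^ μ.1 i * if μ.2 i then e i else 1)
        (Finset.prod_ne_zero_iff.2 fun i _ => mul_ne_zero (zpow_ne_zero _ (c0 i))
          (by split_ifs; exacts [e0 i, one_ne_zero]))
    refine (congrArg (fun z : Ix → K => LinearIndependent ℂ z) (funext fun μ => ?_)).mp h1
    rw [Pi.smul_apply', Units.smul_mk0, Function.comp_apply]
    unfold mon
    rw [← Equiv.prod_comp p (fun i => t i ^ (μ.1 ∘ p.symm) i *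
      if (μ.2 ∘ p.symm) i then w i else 1), Algebra.smul_def, map_prod, ← Finset.prod_mul_distrib]
    refine Finset.prod_congr rfl fun i _ => ?_
    simp only [Function.comp_apply, Equiv.symm_apply_apply, Algebra.smul_def, mul_zpow, map_mul,
      map_zpow₀]
    split_ifs
    · ring
    · rw [map_one]; ring
  · refine ⟨t i, ?_, 1, Subalgebra.one_mem _, one_ne_zero, (div_one _).symm⟩
    have h1 := Subalgebra.smul_mem _ (t_mem_RR (t := fun i => c i • t (p i))
      (w := fun i => e i • w (p i)) (p.symm i)) (c (p.symm i))⁻¹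
    rwa [smul_smul, inv_mul_cancel₀ (c0 _), one_smul, p.apply_symm_apply] at h1
  · refine ⟨w i, ?_, 1, Subalgebra.one_mem _, one_ne_zero, (div_one _).symm⟩
    have h1 := Subalgebra.smul_mem _ (w_mem_RR (t := fun i => c i • t (p i))
      (w := fun i => e i • w (p i)) (p.symm i)) (e (p.symm i))⁻¹
    rwa [smul_smul, inv_mul_cancel₀ (e0 _), one_smul, p.apply_symm_apply] at h1

/-- The coordinate `t` or `1 / t`. -/
def tt (x : Fin 4 → K) (ε : Fin 4 → Bool) (i : Fin 4) : K := if ε i then (x i)⁻¹ else x i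

/-- The coordinate `w` or `w / t ^ 2`. -/
def ww (x y : Fin 4 → K) (ε : Fin 4 → Bool) (i : Fin 4) : K := if ε i then y i / x i ^ 2 else y i

theorem Ell.mon_chart (h : Ell t w) (ε : Fin 4 → Bool) (μ : Ix) :
    mon (tt t ε) (ww t w ε) μ =
      mon t w (fun i => if ε i then -μ.1 i - (if μ.2 i then 2 else 0) else μ.1 i, μ.2) := by
  unfold mon tt ww
  refine Finset.prod_congr rfl fun i _ => ?_
  have h0 := h.t_ne i
  simp only
  split_ifs
  · rw [zpow_sub₀ h0, inv_zpow', zpow_ofNat]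
    ring
  · rw [sub_zero, inv_zpow']
  · rfl
  · rfl

theorem Ell.chart (h : Ell t w) (ε : Fin 4 → Bool) : Ell (tt t ε) (ww t w ε) := by
  refine ⟨fun i => ?_, ?_, h.ellb_frac (fun i => ?_) fun i => ?_⟩
  · have h0 := h.t_ne i
    unfold tt ww
    split_ifs
    · rw [div_pow, h.rel]
      field_simp
      ring
    · exact h.rel i
  · have h1 := h.indep.comp (fun μ : Ix =>
      ((fun i => if ε i then -μ.1 i - (if μ.2 i then 2 else 0) else μ.1 i, μ.2) : Ix)) (by
        rintro ⟨m, e⟩ ⟨m', e'⟩ hh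
        obtain ⟨h1, h2⟩ := Prod.mk.inj hh
        subst h2
        refine Prod.ext (funext fun i => ?_) rfl
        have h3 := congrFun h1 i
        simp only at h3 ⊢
        split_ifs at h3 <;> omega)
    exact (funext fun μ => (h.mon_chart ε μ).symm :
      _ = mon (tt t ε) (ww t w ε)) ▸ h1
  · have h1 := t_mem_RR (t := tt t ε) (w := ww t w ε) i
    by_cases hε : ε i = true
    · refine ⟨1, Subalgebra.one_mem _, _, h1, ?_, ?_⟩
      · rw [tt, if_pos hε]; exact inv_ne_zero (h.t_ne i)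
      · rw [tt, if_pos hε, one_div, inv_inv]
    · exact ⟨_, h1, 1, Subalgebra.one_mem _, one_ne_zero, by rw [tt, if_neg hε, div_one]⟩
  · have h1 := t_mem_RR (t := tt t ε) (w := ww t w ε) i
    have h2 := w_mem_RR (t := tt t ε) (w := ww t w ε) i
    have h0 := h.t_ne i
    by_cases hε : ε i = true
    · refine ⟨_, h2, _, Subalgebra.pow_mem _ h1 2, ?_, ?_⟩
      · rw [tt, if_pos hε]; exact pow_ne_zero _ (inv_ne_zero h0)
      · rw [tt, ww, if_pos hε, if_pos hε]
        field_simp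
    · exact ⟨_, h2, 1, Subalgebra.one_mem _, one_ne_zero, by rw [ww, if_neg hε, div_one]⟩

end Pool.Agent.P.MP_63735c_ag.Ta
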