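import Pool.Agent.P.MP_63735c_ag.TaEllB

/-! Normality of `ℂ[t, w]` and extension over codimension two. -/

noncomputable section

namespace Pool.Agent.P.MP_63735c_ag.Ta

open MvPolynomial

variable {K : Type} [Field K] [Algebra ℂ K] {t w : Fin 4 → K} {f : K} {O : Subalgebra ℂ K}

/-- The product of the `w i` with `e i`. -/
def ellc_W (w : Fin 4 → K) (e : Fin 4 → Bool) : K := ∏ i, if e i then w i else 1

/-- The square of `ellc_W` as a polynomial. -/
def ellc_q (e : Fin 4 → Bool) : MvPolynomial (Fin 4) ℂ := ∏ i, if e i then X i ^ 4 + 1 else 1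

theorem ellc_W_mem (e : Fin 4 → Bool) : ellc_W w e ∈ RR t w := by
  refine prod_mem fun i _ => ?_
  split_ifs
  · exact w_mem_RR i
  · exact one_mem _

theorem ellc_aeval_mem (p : MvPolynomial (Fin 4) ℂ) : aeval t p ∈ RR t w := by
  induction p using MvPolynomial.induction_on with
  | C a => rw [aeval_C]; exact Subalgebra.algebraMap_mem _ a
  | add p q hp hq => rw [map_add]; exact add_mem hp hq
  | mul_X p i hp => rw [map_mul, aeval_X]; exact mul_mem hp (t_mem_RR i)

theorem ellc_W_sq (h : Ell t w) (e : Fin 4 → Bool) : ellc_W w e ^ 2 = aeval t (ellc_q e) := by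
  unfold ellc_W ellc_q
  rw [map_prod, ← Finset.prod_pow]
  refine Finset.prod_congr rfl fun i _ => ?_
  split_ifs
  · simp [h.rel i]
  · simp

omit [Algebra ℂ K] in
theorem ellc_mon (m : Fin 4 → ℕ) (e : Fin 4 → Bool) :
    mon t w (fun i => (m i : ℤ), e) = (∏ i, t i ^ m i) * ellc_W w e := by
  unfold mon ellc_W
  rw [← Finset.prod_mul_distrib]
  simp

theorem ellc_repr (h : Ell t w) (hf : f ∈ RR t w) :
    ∃ p : (Fin 4 → Bool) → MvPolynomial (Fin 4) ℂ, f = ∑ e, aeval t (p e) * ellc_W w e := by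
  classical
  rw [h.mem_RR] at hf
  induction hf using Submodule.span_induction with
  | mem x hx =>
    obtain ⟨⟨m, e⟩, hm, rfl⟩ := hx
    have h1 : m = fun i => (((m i).toNat : ℕ) : ℤ) :=
      funext fun i => (Int.toNat_of_nonneg (hm i)).symm
    refine ⟨Pi.single e (∏ i, X i ^ (m i).toNat), ?_⟩
    rw [Finset.sum_eq_single e (fun b _ hb => by simp [Pi.single_eq_of_ne hb]) (by simp),
      Pi.single_eq_same, map_prod]
    simp only [map_pow, aeval_X]
    rw [← ellc_mon, ← h1]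
  | zero => exact ⟨0, by simp⟩
  | add x y _ _ hx hy =>
    obtain ⟨p, rfl⟩ := hx
    obtain ⟨q, rfl⟩ := hy
    exact ⟨p + q, by simp [add_mul, Finset.sum_add_distrib]⟩
  | smul c x _ hx =>
    obtain ⟨p, rfl⟩ := hx
    exact ⟨c • p, by simp [Finset.smul_sum]⟩

theorem ellc_sum_mem (p : (Fin 4 → Bool) → MvPolynomial (Fin 4) ℂ) :
    ∑ e, aeval t (p e) * ellc_W w e ∈ RR t w :=
  sum_mem fun e _ => mul_mem (ellc_aeval_mem _) (ellc_W_mem e)

theorem ellc_uniq (h : Ell t w) {p : (Fin 4 → Bool) → MvPolynomial (Fin 4) ℂ}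
    (hp : ∑ e, aeval t (p e) * ellc_W w e = 0) (e : Fin 4 → Bool) : p e = 0 := by
  classical
  let ι : (Fin 4 → Bool) × (Fin 4 →₀ ℕ) → Ix := fun x => (fun i => (x.2 i : ℤ), x.1)
  have hι : Function.Injective ι := by
    rintro ⟨a, m⟩ ⟨b, n⟩ hab
    obtain ⟨h1, h2⟩ := Prod.ext_iff.1 hab
    refine Prod.ext h2 (Finsupp.ext fun i => ?_)
    exact Int.ofNat_inj.1 (congrFun h1 i)
  have li := h.indep.comp ι hι
  let S : Finset (Fin 4 →₀ ℕ) := Finset.univ.biUnion fun e => (p e).support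
  have hS : ∀ e, (p e).support ⊆ S := fun e =>
    Finset.subset_biUnion_of_mem (fun e => (p e).support) (Finset.mem_univ e)
  have key := linearIndependent_iff'.1 li (Finset.univ ×ˢ S) (fun x => coeff x.2 (p x.1)) (by
    rw [Finset.sum_product, ← hp]
    refine Finset.sum_congr rfl fun a _ => ?_
    rw [aeval_def, eval₂_eq', Finset.sum_subset (hS a) (fun x _ hx => by
      rw [notMem_support_iff.1 hx]; simp), Finset.sum_mul]
    refine Finset.sum_congr rfl fun m _ => ?_
    simp only [Function.comp, ι]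
    rw [ellc_mon, Algebra.smul_def, mul_assoc])
  ext m
  by_cases hm : m ∈ (p e).support
  · exact key (e, m) (Finset.mem_product.2 ⟨Finset.mem_univ _, hS e hm⟩)
  · exact notMem_support_iff.1 hm

theorem ellc_relPrime {a b : MvPolynomial (Fin 4) ℂ} {i : Fin 4} (ha0 : a ≠ 0) (hb0 : b ≠ 0)
    (ha : ∀ j, j ≠ i → degreeOf j a = 0) (hb : degreeOf i b = 0) : IsRelPrime a b := by
  rintro d ⟨c, rfl⟩ ⟨c', rfl⟩
  have hd := left_ne_zero_of_mul ha0
  have h1 : ∀ j, degreeOf j d = 0 := by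
    intro j
    by_cases hj : j = i
    · rw [degreeOf_mul_eq hd (right_ne_zero_of_mul hb0)] at hb
      rw [hj]
      omega
    · have := ha j hj
      rw [degreeOf_mul_eq hd (right_ne_zero_of_mul ha0)] at this
      omega
  have h2 : d.vars = ∅ := Finset.eq_empty_of_forall_notMem fun j hj =>
    mem_vars_iff_degreeOf_ne_zero.1 hj (h1 j)
  rw [vars_eq_empty_iff_eq_C] at h2
  rw [h2] at hd ⊢
  exact (IsUnit.mk0 _ fun h0 => hd (by rw [h0, map_zero])).map C

theorem ellc_ne (i : Fin 4) : (X i ^ 4 + 1 : MvPolynomial (Fin 4) ℂ) ≠ 0 := fun h0 => by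
  simpa using congrArg (eval fun _ => (0 : ℂ)) h0

theorem ellc_deg {i j : Fin 4} (hij : j ≠ i) :
    degreeOf j (X i ^ 4 + 1 : MvPolynomial (Fin 4) ℂ) = 0 := by
  have := degreeOf_add_le j (X i ^ 4 : MvPolynomial (Fin 4) ℂ) 1
  rw [degreeOf_X_pow_of_ne 4 hij, degreeOf_one] at this
  simpa using this

theorem ellc_sqfree1 (i : Fin 4) : Squarefree (X i ^ 4 + 1 : MvPolynomial (Fin 4) ℂ) := by
  rintro d ⟨c, hc⟩
  have h1 : d ∣ X i ^ 4 + 1 := ⟨d * c, by rw [hc, mul_assoc]⟩
  have h2 : d ∣ 4 * X i ^ 3 := by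
    have := congrArg (pderiv i) hc
    simp only [map_add, Derivation.leibniz_pow, pderiv_X_self, Derivation.map_one_eq_zero,
      Derivation.leibniz, smul_eq_mul, nsmul_eq_mul] at this
    refine ⟨d * pderiv i c + 2 * c * pderiv i d, ?_⟩
    push_cast at this
    linear_combination this
  have h3 : d ∣ C 4 := by
    have : (C 4 : MvPolynomial (Fin 4) ℂ) = (X i ^ 4 + 1) * 4 - 4 * X i ^ 3 * X i := by
      rw [show (C 4 : MvPolynomial (Fin 4) ℂ) = 4 from rfl]
      ring
    rw [this]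
    exact dvd_sub (h1.mul_right _) (h2.mul_right _)
  exact isUnit_of_dvd_unit h3 ((IsUnit.mk0 (4 : ℂ) (by norm_num)).map C)

theorem ellc_sqfree (e : Fin 4 → Bool) : Squarefree (ellc_q e) := by
  refine Finset.squarefree_prod_of_pairwise_isCoprime (fun i _ j _ hij => ?_) fun i _ => ?_
  · simp only [Function.onFun]
    split_ifs
    · exact ellc_relPrime (ellc_ne i) (ellc_ne j) (fun k hk => ellc_deg hk) (ellc_deg hij)
    · exact isRelPrime_one_right
    · exact isRelPrime_one_left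
    · exact isRelPrime_one_left
  · split_ifs
    · exact ellc_sqfree1 i
    · exact squarefree_one

theorem ellc_dvd {d p q : MvPolynomial (Fin 4) ℂ} (hd : d ≠ 0) (hq : Squarefree q)
    (h : d ^ 2 ∣ p ^ 2 * q) : d ∣ p := by
  obtain ⟨p', d', c, hr, rfl, rfl⟩ := UniqueFactorizationMonoid.exists_reduced_factors' p d hd
  have hc : c ^ 2 ≠ 0 := pow_ne_zero 2 (left_ne_zero_of_mul hd)
  rw [mul_pow, mul_pow, mul_assoc, mul_dvd_mul_iff_left hc] at h
  have h1 : d' ^ 2 ∣ q := (hr.symm.pow (m := 2) (n := 2)).dvd_of_dvd_mul_left h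
  have h2 : IsUnit d' := hq d' (by rwa [← sq])
  exact mul_dvd_mul_left c h2.dvd

/-- The sign of `s` at `e`. -/
def ellc_chi (s e : Fin 4 → Bool) : ℂ := ∏ i, if e i then (if s i then -1 else 1) else 1

theorem ellc_orth (e e' : Fin 4 → Bool) :
    ∑ s, ellc_chi s e * ellc_chi s e' = if e' = e then 16 else 0 := by
  classical
  simp only [ellc_chi, ← Finset.prod_mul_distrib]
  have := Finset.prod_univ_sum (fun _ : Fin 4 => (Finset.univ : Finset Bool))
    fun i b => ((if e i then (if b then -1 else 1) else 1) *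
      (if e' i then (if b then -1 else 1) else 1) : ℂ)
  rw [Fintype.piFinset_univ] at this
  rw [← this]
  split_ifs with hee
  · subst hee
    rw [Finset.prod_congr rfl (g := fun _ => 2) fun i _ => by
      cases e' i <;> norm_num]
    norm_num
  · obtain ⟨i, hi⟩ := Function.ne_iff.1 hee
    refine Finset.prod_eq_zero (Finset.mem_univ i) ?_
    revert hi
    cases e i <;> cases e' i <;> simp

theorem ellc_sign (h : Ell t w) (s : Fin 4 → Bool) : ∃ g : K ≃ₐ[ℂ] K,
    (∀ p : MvPolynomial (Fin 4) ℂ, g (aeval t p) = aeval t p) ∧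
      ∀ e, g (ellc_W w e) = ellc_chi s e • ellc_W w e := by
  obtain ⟨g, h1, h2⟩ := h.exists_aut (h.perm 1 (fun _ => 1) (fun i => if s i then -1 else 1)
    (fun _ => one_pow _) fun i => by split_ifs <;> norm_num)
  refine ⟨g, fun p => ?_, fun e => ?_⟩
  · induction p using MvPolynomial.induction_on with
    | C a => rw [aeval_C, g.commutes]
    | add p q hp hq => rw [map_add, map_add, hp, hq]
    | mul_X p i hp => rw [map_mul, map_mul, hp, aeval_X, h1]; simp
  · unfold ellc_W ellc_chi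
    rw [map_prod, ← Finset.prod_smul]
    refine Finset.prod_congr rfl fun i _ => ?_
    split_ifs with h3 h4
    · simp [h2, h4]
    · simp [h2, h4]
    · simp

theorem Ell.nrm (h : Ell t w) : Nrm (RR t w) := by
  classical
  intro f hf
  have hinj : Function.Injective (aeval t : MvPolynomial (Fin 4) ℂ →ₐ[ℂ] K) := h.algInd_t
  let P := MvPolynomial (Fin 4) ℂ
  let : Algebra P K := (aeval t : P →ₐ[ℂ] K).toRingHom.toAlgebra
  let : Algebra P (RR t w) :=
    ((aeval t : P →ₐ[ℂ] K).codRestrict (RR t w) ellc_aeval_mem).toRingHom.toAlgebra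
  have : IsScalarTower P (RR t w) K := IsScalarTower.of_algebraMap_eq fun _ => rfl
  have hA : ∀ p : P, algebraMap P K p = aeval t p := fun _ => rfl
  have hW : ∀ e, IsIntegral P (ellc_W w e) := fun e => by
    apply IsIntegral.of_pow (n := 2) (by norm_num)
    rw [ellc_W_sq h, ← hA]
    exact isIntegral_algebraMap
  have : Algebra.IsIntegral P (RR t w) := ⟨fun r => by
    rw [← isIntegral_algHom_iff (IsScalarTower.toAlgHom P (RR t w) K) Subtype.val_injective]
    obtain ⟨p, hp⟩ := ellc_repr h r.2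
    change IsIntegral P (r : K)
    rw [hp]
    exact IsIntegral.sum _ fun e _ => (isIntegral_algebraMap (x := p e)).mul (hW e)⟩
  have hfP : IsIntegral P f := isIntegral_trans f hf
  obtain ⟨a, ha, b, hb, hb0, hab⟩ := h.frac f
  have hb1 : (⟨b, hb⟩ : RR t w) ≠ 0 := fun h0 => hb0 (congrArg Subtype.val h0)
  obtain ⟨c, d, hd, hdc⟩ := (Algebra.IsIntegral.isIntegral (R := P)
    (⟨b, hb⟩ : RR t w)).isAlgebraic.exists_smul_eq_mul ⟨a, ha⟩ (mem_nonZeroDivisors_of_ne_zero hb1)
  have hd1 : aeval t d ≠ 0 := fun h0 => hd (hinj (by rw [h0, map_zero]))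
  have hdf : aeval t d * f = c := by
    have h1 : aeval t d * a = b * c := by
      have := congrArg Subtype.val hdc
      rwa [Algebra.smul_def] at this
    rw [hab, ← mul_div_assoc, h1, mul_div_cancel_left₀ _ hb0]
  obtain ⟨p, hp⟩ := ellc_repr h c.2
  have hx : ∀ e, IsIntegral P (aeval t (p e) * ellc_W w e / aeval t d) := by
    intro e
    choose g hg1 hg2 using ellc_sign h
    have h1 : ∀ s, IsIntegral P (g s f) := fun s =>
      hfP.map ({ (g s : K →+* K) with commutes' := hg1 s } : K →ₐ[P] K)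
    have h2 : ∀ s, aeval t d * g s f =
        ∑ e', ellc_chi s e' • (aeval t (p e') * ellc_W w e') := fun s => by
      rw [← hg1 s d, ← map_mul, hdf, hp, map_sum]
      exact Finset.sum_congr rfl fun e' _ => by rw [map_mul, hg1, hg2, mul_smul_comm]
    have h3 : aeval t (p e) * ellc_W w e / aeval t d =
        ∑ s, algebraMap P K (C (16⁻¹ * ellc_chi s e)) * g s f := by
      rw [div_eq_iff hd1, Finset.sum_mul]
      have h4 : ∀ s, algebraMap P K (C (16⁻¹ * ellc_chi s e)) * g s f * aeval t d =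
          ∑ e', (16⁻¹ * (ellc_chi s e * ellc_chi s e')) • (aeval t (p e') * ellc_W w e') :=
        fun s => by
          rw [hA, aeval_C, mul_assoc, mul_comm (g s f), h2, ← Algebra.smul_def, Finset.smul_sum]
          exact Finset.sum_congr rfl fun e' _ => by rw [smul_smul, mul_assoc]
      simp only [h4]
      rw [Finset.sum_comm, Finset.sum_eq_single e]
      · rw [← Finset.sum_smul, ← Finset.mul_sum, ellc_orth, if_pos rfl]
        norm_num
      · intro e' _ he'
        rw [← Finset.sum_smul, ← Finset.mul_sum, ellc_orth, if_neg he', mul_zero, zero_smul]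
      · simp
    rw [h3]
    exact IsIntegral.sum _ fun s _ => isIntegral_algebraMap.mul (h1 s)
  have hdv : ∀ e, d ∣ p e := by
    intro e
    refine ellc_dvd hd (ellc_sqfree e) ?_
    have : FaithfulSMul P K := (faithfulSMul_iff_algebraMap_injective P K).2 hinj
    let l : FractionRing P →ₐ[P] K := IsFractionRing.liftAlgHom (g := Algebra.ofId P K) hinj
    have hl : ∀ x : P, l (algebraMap P (FractionRing P) x) = aeval t x := fun x => l.commutes x
    have h1 : IsIntegral P (algebraMap P (FractionRing P) (p e ^ 2 * ellc_q e) /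
        algebraMap P (FractionRing P) (d ^ 2)) := by
      rw [← isIntegral_algHom_iff l l.toRingHom.injective, map_div₀, hl, hl, map_mul, map_pow,
        map_pow, ← ellc_W_sq h, ← mul_pow, ← div_pow]
      exact (hx e).pow 2
    obtain ⟨y, hy⟩ := IsIntegrallyClosed.isIntegral_iff.1 h1
    have hd2 : algebraMap P (FractionRing P) (d ^ 2) ≠ 0 :=
      (map_ne_zero_iff _ (IsFractionRing.injective P _)).2 (pow_ne_zero 2 hd)
    rw [eq_div_iff hd2, ← map_mul] at hy
    exact ⟨y, by rw [← IsFractionRing.injective P _ hy, mul_comm]⟩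
  choose s hs using hdv
  have : f = ∑ e, aeval t (s e) * ellc_W w e := by
    apply mul_left_cancel₀ hd1
    rw [hdf, hp, Finset.mul_sum]
    exact Finset.sum_congr rfl fun e _ => by rw [hs e, map_mul, mul_assoc]
  rw [this]
  exact ellc_sum_mem s

theorem Ell.hartogs (h : Ell t w) {n : ℕ} (h0 : (t 0 * w 0) ^ n * f ∈ RR t w)
    (h1 : (t 1 * w 1) ^ n * f ∈ RR t w) : f ∈ RR t w := by
  let u : Fin 4 → MvPolynomial (Fin 4) ℂ := fun i => (X i ^ 2 * (X i ^ 4 + 1)) ^ n
  have hu0 : ∀ i, (X i ^ 2 * (X i ^ 4 + 1) : MvPolynomial (Fin 4) ℂ) ≠ 0 := fun i =>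
    mul_ne_zero (pow_ne_zero 2 (X_ne_zero i)) (ellc_ne i)
  have hu : ∀ i, u i ≠ 0 := fun i => pow_ne_zero n (hu0 i)
  have hdeg : ∀ i j, j ≠ i → degreeOf j (u i) = 0 := fun i j hij => by
    rw [degreeOf_pow_eq _ _ _ (hu0 i), degreeOf_mul_eq (pow_ne_zero 2 (X_ne_zero i)) (ellc_ne i),
      degreeOf_X_pow_of_ne 2 hij, ellc_deg hij]
    simp
  have hrel : IsRelPrime (u 0) (u 1) :=
    ellc_relPrime (hu 0) (hu 1) (hdeg 0) (hdeg 1 0 (by decide))
  have hm : ∀ i, (t i * w i) ^ n * f ∈ RR t w → aeval t (u i) * f ∈ RR t w := fun i hi => by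
    have := mul_mem (pow_mem (mul_mem (t_mem_RR (w := w) i) (w_mem_RR i)) n) hi
    rwa [← mul_assoc, ← mul_pow, show t i * w i * (t i * w i) = t i ^ 2 * w i ^ 2 by ring, h.rel,
      show (t i ^ 2 * (t i ^ 4 + 1)) ^ n = aeval t (u i) by simp [u]] at this
  obtain ⟨p, hp⟩ := ellc_repr h (hm 0 h0)
  obtain ⟨q, hq⟩ := ellc_repr h (hm 1 h1)
  have hz : ∀ e, u 1 * p e - u 0 * q e = 0 := by
    refine ellc_uniq h ?_
    have : ∀ e, aeval t (u 1 * p e - u 0 * q e) * ellc_W w e =
        aeval t (u 1) * (aeval t (p e) * ellc_W w e) -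
          aeval t (u 0) * (aeval t (q e) * ellc_W w e) := fun e => by
      rw [map_sub, map_mul, map_mul]
      ring
    simp only [this]
    rw [Finset.sum_sub_distrib, ← Finset.mul_sum, ← Finset.mul_sum, ← hp, ← hq]
    ring
  have hdv : ∀ e, u 0 ∣ p e := fun e =>
    hrel.dvd_of_dvd_mul_left ⟨q e, sub_eq_zero.1 (hz e)⟩
  choose s hs using hdv
  have hinj : Function.Injective (aeval t : MvPolynomial (Fin 4) ℂ →ₐ[ℂ] K) := h.algInd_t
  have hd1 : aeval t (u 0) ≠ 0 := fun h0 => hu 0 (hinj (by rw [h0, map_zero]))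
  have : f = ∑ e, aeval t (s e) * ellc_W w e := by
    apply mul_left_cancel₀ hd1
    rw [hp, Finset.mul_sum]
    exact Finset.sum_congr rfl fun e _ => by rw [hs e, map_mul, mul_assoc]
  rw [this]
  exact ellc_sum_mem s

theorem Ell.hartogs_loc (h : Ell t w) (hO : IsLocOf (RR t w) O)
    (hf : ∀ O', IsLocOf O O' → Un O' (t 0 * w 0) ∨ Un O' (t 1 * w 1) → f ∈ O') : f ∈ O := by
  have hm : ∀ i, t i * w i ∈ O := fun i => hO.le (mul_mem (t_mem_RR i) (w_mem_RR i))
  have key : ∀ i, (∀ O', IsLocOf O O' → Un O' (t i * w i) → f ∈ O') →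
      ∃ n : ℕ, (t i * w i) ^ n * f ∈ O := by
    intro i hi
    have : (⟨t i * w i, hm i⟩ : O) ∈ (locb_den O f).radical := by
      rw [Ideal.radical_eq_sInf, Submodule.mem_sInf]
      rintro Q ⟨hQ, hP⟩
      by_contra hn
      obtain ⟨b, hb, hbf⟩ := hi _ (isLocOf_locAt Q) ((un_locAt Q ⟨t i * w i, hm i⟩).2 hn)
      exact hb (hQ hbf)
    obtain ⟨n, hn⟩ := this
    exact ⟨n, hn⟩
  obtain ⟨n0, h0⟩ := key 0 fun O' h1 h2 => hf O' h1 (Or.inl h2)
  obtain ⟨n1, h1⟩ := key 1 fun O' h1 h2 => hf O' h1 (Or.inr h2)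
  obtain ⟨b0, hb0, ub0, h2⟩ := hO.frac _ h0
  obtain ⟨b1, hb1, ub1, h3⟩ := hO.frac _ h1
  have h4 : b0 * b1 * f ∈ RR t w := by
    refine h.hartogs (n := n0 + n1) ?_ ?_
    · have := mul_mem (mul_mem hb1 (pow_mem (mul_mem (t_mem_RR (w := w) 0) (w_mem_RR 0)) n1)) h2
      rwa [show b1 * (t 0 * w 0) ^ n1 * (b0 * ((t 0 * w 0) ^ n0 * f)) =
        (t 0 * w 0) ^ (n0 + n1) * (b0 * b1 * f) by ring] at this
    · have := mul_mem (mul_mem hb0 (pow_mem (mul_mem (t_mem_RR (w := w) 1) (w_mem_RR 1)) n0)) h3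
      rwa [show b0 * (t 1 * w 1) ^ n0 * (b1 * ((t 1 * w 1) ^ n1 * f)) =
        (t 1 * w 1) ^ (n0 + n1) * (b0 * b1 * f) by ring] at this
  have h5 := mul_mem (ub0.mul ub1).2.2 (hO.le h4)
  rwa [← mul_assoc, inv_mul_cancel₀ (ub0.mul ub1).2.1, one_mul] at h5

end Pool.Agent.P.MP_63735c_ag.Ta
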