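import Pool.Agent.P.MP_63735c_ag.TaLocB

/-! Units, local rings, localisations and etale inclusions of subalgebras of a field. -/

noncomputable section

namespace Pool.Agent.P.MP_63735c_ag.Ta

variable {K : Type} [Field K] [Algebra ℂ K] {B C D O O' : Subalgebra ℂ K} {f g s : K}

theorem le_away : C ≤ away C s := fun _ hf => Algebra.subset_adjoin (Set.mem_insert_of_mem _ hf)

theorem inv_mem_away : s⁻¹ ∈ away C s := Algebra.subset_adjoin (Set.mem_insert _ _)

theorem away_le (h : C ≤ O) (hs : s⁻¹ ∈ O) : away C s ≤ O :=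
  Algebra.adjoin_le (Set.insert_subset hs h)

theorem mem_away (hs : s ∈ C) (h0 : s ≠ 0) : f ∈ away C s ↔ ∃ n : ℕ, s ^ n * f ∈ C := by
  constructor
  · intro hf
    induction hf using Algebra.adjoin_induction with
    | mem x hx =>
      rcases hx with rfl | hx
      · exact ⟨1, by rw [pow_one, mul_inv_cancel₀ h0]; exact one_mem _⟩
      · exact ⟨0, by rwa [pow_zero, one_mul]⟩
    | algebraMap r => exact ⟨0, by rw [pow_zero, one_mul]; exact C.algebraMap_mem r⟩
    | add x y _ _ hx hy =>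
      obtain ⟨n, hn⟩ := hx
      obtain ⟨m, hm⟩ := hy
      refine ⟨n + m, ?_⟩
      rw [show s ^ (n + m) * (x + y) = s ^ m * (s ^ n * x) + s ^ n * (s ^ m * y) by ring]
      exact add_mem (mul_mem (pow_mem hs m) hn) (mul_mem (pow_mem hs n) hm)
    | mul x y _ _ hx hy =>
      obtain ⟨n, hn⟩ := hx
      obtain ⟨m, hm⟩ := hy
      refine ⟨n + m, ?_⟩
      rw [show s ^ (n + m) * (x * y) = s ^ n * x * (s ^ m * y) by ring]
      exact mul_mem hn hm
  · rintro ⟨n, hn⟩
    rw [show f = s⁻¹ ^ n * (s ^ n * f) by rw [inv_pow, inv_mul_cancel_left₀ (pow_ne_zero n h0)]]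
    exact mul_mem (pow_mem inv_mem_away n) (le_away hn)

theorem IsLocOf.away (h : IsLocOf C O) (hu : Un O s) : IsLocOf (away C s) O :=
  h.of_le le_away (away_le h.le hu.2.2)

theorem IsLocOf.of_away (hs : s ∈ C) (h0 : s ≠ 0) (h : IsLocOf (Ta.away C s) O) : IsLocOf C O := by
  refine ⟨le_away.trans h.le, h.add, fun f hf => ?_⟩
  obtain ⟨b, hb, hu, hbf⟩ := h.frac f hf
  obtain ⟨n, hn⟩ := (mem_away hs h0).1 hb
  obtain ⟨m, hm⟩ := (mem_away hs h0).1 hbf
  have hsu : Un O s := ⟨h.le (le_away hs), h0, h.le inv_mem_away⟩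
  refine ⟨s ^ m * (s ^ n * b), mul_mem (pow_mem hs m) hn,
    (hsu.pow m).mul ((hsu.pow n).mul hu), ?_⟩
  rw [show s ^ m * (s ^ n * b) * f = s ^ n * (s ^ m * (b * f)) by ring]
  exact mul_mem (pow_mem hs n) hm

theorem ft_away (hC : Algebra.FiniteType ℂ C) : Algebra.FiniteType ℂ (away C s) := by
  classical
  obtain ⟨t, rfl⟩ := (Subalgebra.fg_iff_finiteType C).2 hC
  refine (Subalgebra.fg_iff_finiteType _).1 ⟨insert s⁻¹ t, ?_⟩
  rw [away, Algebra.adjoin_insert_adjoin, Finset.coe_insert]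

theorem Et.trans (h : Et B C) (h' : Et C D) : Et B D := by
  obtain ⟨h1, e1⟩ := h
  obtain ⟨h2, e2⟩ := h'
  exact ⟨h1.trans h2, RingHom.Etale.stableUnderComposition _ _ e1 e2⟩

theorem et_away (hs : s ∈ C) (h0 : s ≠ 0) : Et C (away C s) := by
  refine ⟨le_away, ?_⟩
  let _ := (Subalgebra.inclusion (le_away (C := C) (s := s))).toRingHom.toAlgebra
  have : IsLocalization.Away (⟨s, hs⟩ : C) (away C s) := by
    refine IsLocalization.Away.mk _ ?_ (fun x => ?_) fun a b hab => ⟨0, ?_⟩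
    · exact (un_iff_isUnit (le_away hs)).1 ⟨le_away hs, h0, inv_mem_away⟩
    · obtain ⟨n, hn⟩ := (mem_away hs h0).1 x.2
      exact ⟨n, ⟨_, hn⟩, Subtype.ext (mul_comm (x : K) (s ^ n))⟩
    · rw [Subalgebra.inclusion_injective _ hab]
  exact Algebra.Etale.of_isLocalizationAway (⟨s, hs⟩ : C)

theorem Et.finiteType (h : Et B D) (hB : Algebra.FiniteType ℂ B) : Algebra.FiniteType ℂ D := by
  obtain ⟨h1, e1⟩ := h
  let _ := (Subalgebra.inclusion h1).toRingHom.toAlgebra
  have : IsScalarTower ℂ B D := IsScalarTower.of_algebraMap_eq fun _ => rfl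
  have : Algebra.Etale B D := e1
  exact Algebra.FiniteType.trans hB inferInstance

theorem Et.formallySmooth (h : Et B D) (hB : Algebra.FormallySmooth ℂ B) :
    Algebra.FormallySmooth ℂ D := by
  obtain ⟨h1, e1⟩ := h
  let _ := (Subalgebra.inclusion h1).toRingHom.toAlgebra
  have : IsScalarTower ℂ B D := IsScalarTower.of_algebraMap_eq fun _ => rfl
  have : Algebra.Etale B D := e1
  exact Algebra.FormallySmooth.comp ℂ B D

theorem locc_le_away (hD : Algebra.FiniteType ℂ D) (hDO : D ≤ O) (h : IsLocOf C O) :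
    ∃ b ∈ C, Un O b ∧ D ≤ away C b := by
  classical
  obtain ⟨t, rfl⟩ := (Subalgebra.fg_iff_finiteType D).2 hD
  choose! b hb hu hbx using h.frac
  have ht : ∀ x ∈ t, x ∈ O := fun x hx => hDO (Algebra.subset_adjoin hx)
  have h1 : ∏ x ∈ t, b x ∈ C := prod_mem fun x hx => hb x (ht x hx)
  have h2 : Un O (∏ x ∈ t, b x) := Un.prod t fun x hx => hu x (ht x hx)
  refine ⟨_, h1, h2, Algebra.adjoin_le fun x hx => (mem_away h1 h2.2.1).2 ⟨1, ?_⟩⟩
  rw [pow_one, ← Finset.prod_erase_mul t b hx, mul_assoc]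
  exact mul_mem (prod_mem fun y hy => hb y (ht y (Finset.mem_of_mem_erase hy))) (hbx x (ht x hx))

/-- Two finitely generated rings with a common local ring have a common principal open set. -/
theorem common_away (hC : Algebra.FiniteType ℂ C) (hD : Algebra.FiniteType ℂ D) (h1 : IsLocOf C O)
    (h2 : IsLocOf D O) : ∃ s ∈ C, ∃ s' ∈ D, Un O s ∧ Un O s' ∧ away C s = away D s' := by
  obtain ⟨b, hb, hu, hle⟩ := locc_le_away hD h2.le h1
  obtain ⟨b', hb', hu', hle'⟩ := locc_le_away (ft_away (s := b) hC) (h1.away hu).le h2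
  obtain ⟨n, hn⟩ := (mem_away hb hu.2.1).1 (hle hb')
  have h0 := hu.2.1
  have h0' := hu'.2.1
  refine ⟨b * (b ^ n * b'), mul_mem hb hn, b', hb', hu.mul ((hu.pow n).mul hu'), hu',
    le_antisymm (away_le (le_away.trans hle') ?_) (away_le (hle.trans (away_le le_away ?_)) ?_)⟩
  · rw [mul_inv, mul_inv, ← inv_pow]
    exact mul_mem (hle' inv_mem_away) (mul_mem (pow_mem (hle' inv_mem_away) n) inv_mem_away)
  · rw [show b⁻¹ = b ^ n * b' * (b * (b ^ n * b'))⁻¹ by field_simp]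
    exact mul_mem (le_away hn) inv_mem_away
  · rw [show b'⁻¹ = b * b ^ n * (b * (b ^ n * b'))⁻¹ by field_simp]
    exact mul_mem (le_away (mul_mem hb (pow_mem hb n))) inv_mem_away

/-- Principal parts on an affine scheme come from one rational function. -/
theorem cousin (a : Subalgebra ℂ K → K) (h : ∀ O, IsLocOf C O → ∃ s ∈ C, Un O s ∧
    ∀ O', IsLocOf C O' → Un O' s → a O - a O' ∈ O') : ∃ b, ∀ O, IsLocOf C O → b - a O ∈ O := by
  classical
  choose σ hσ hu hd using h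
  have htop : Ideal.span {c : C | ∃ O, ∃ hO : IsLocOf C O, σ O hO = c} = ⊤ := by
    by_contra hne
    obtain ⟨P, hP, hle⟩ := Ideal.exists_le_maximal _ hne
    have := hP.isPrime
    exact (un_locAt P ⟨_, hσ _ (isLocOf_locAt P)⟩).1 (hu _ _)
      (hle (Ideal.subset_span ⟨_, isLocOf_locAt P, rfl⟩))
  obtain ⟨t, ht, htop'⟩ := (Ideal.span_eq_top_iff_finite _).1 htop
  choose Q hQ hσQ using fun k : t => ht k.2
  have h0 : ∀ k : t, ((k : C) : K) ≠ 0 := fun k => hσQ k ▸ (hu _ (hQ k)).2.1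
  have hkl : ∀ p : t × t, ∃ n : ℕ,
      (((p.1 : C) : K) * ((p.2 : C) : K)) ^ n * (a (Q p.1) - a (Q p.2)) ∈ C := by
    rintro ⟨k, l⟩
    have hm : ((k : C) : K) * ((l : C) : K) ∈ C := mul_mem (k : C).2 (l : C).2
    have hn := mul_ne_zero (h0 k) (h0 l)
    refine (mem_away hm hn).1 (mem_of_loc fun O' hO' => ?_)
    have h1 := hO'.of_away hm hn
    have h2 : Un O' (((k : C) : K) * ((l : C) : K)) := ⟨h1.le hm, hn, hO'.le inv_mem_away⟩
    have h3 := hd _ (hQ k) O' h1 (hσQ k ▸ h2.of_mul_left (h1.le (k : C).2) (h1.le (l : C).2))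
    have h4 := hd _ (hQ l) O' h1 (hσQ l ▸ h2.of_mul_right (h1.le (k : C).2) (h1.le (l : C).2))
    simpa only [sub_sub_sub_cancel_right] using sub_mem h3 h4
  choose n hn using hkl
  obtain ⟨N, hN0, hN⟩ : ∃ N, 0 < N ∧ ∀ k l : t,
      (((k : C) : K) * ((l : C) : K)) ^ N * (a (Q k) - a (Q l)) ∈ C := by
    refine ⟨Finset.univ.sup n + 1, Nat.succ_pos _, fun k l => ?_⟩
    obtain ⟨d, hd'⟩ := Nat.exists_eq_add_of_le
      ((Finset.le_sup (f := n) (Finset.mem_univ (k, l))).trans (Nat.le_succ _))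
    rw [Nat.succ_eq_add_one] at hd'
    rw [hd', add_comm, pow_add, mul_assoc]
    exact mul_mem (pow_mem (mul_mem (k : C).2 (l : C).2) d) (hn (k, l))
  have h1 := (Ideal.eq_top_iff_one _).1 (Ideal.span_pow_eq_top _ htop' N)
  rw [Set.image_eq_range, Ideal.mem_span_range_iff_exists_fun] at h1
  obtain ⟨e, he⟩ := h1
  have he' : ∑ k : t, (e k : K) * ((k : C) : K) ^ N = 1 := by
    simpa using congrArg (fun c : C => (c : K)) he
  refine ⟨∑ k : t, (e k : K) * ((k : C) : K) ^ N * a (Q k), fun O hO => ?_⟩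
  obtain ⟨l, -, hl⟩ := hO.sum Finset.univ (a := fun k : t => (e k : K) * ((k : C) : K) ^ N)
    (fun k _ => hO.le (mul_mem (e k).2 (pow_mem (k : C).2 N))) (he' ▸ un_one)
  have hl' : Un O (((l : C) : K) ^ N) :=
    hl.of_mul_right (hO.le (e l).2) (hO.le (pow_mem (l : C).2 N))
  have h2 := hd _ (hQ l) O hO (hσQ l ▸ hl'.of_pow (hO.le (l : C).2) hN0)
  have h3 : ∑ k : t, (e k : K) * ((k : C) : K) ^ N * a (Q k) - a O =
      ∑ k : t, (e k : K) * ((((l : C) : K) ^ N)⁻¹ *
        ((((k : C) : K) * ((l : C) : K)) ^ N * (a (Q k) - a (Q l)))) + (a (Q l) - a O) := by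
    have h4 : ∀ k : t, (e k : K) * ((((l : C) : K) ^ N)⁻¹ *
        ((((k : C) : K) * ((l : C) : K)) ^ N * (a (Q k) - a (Q l)))) =
        (e k : K) * ((k : C) : K) ^ N * a (Q k) - (e k : K) * ((k : C) : K) ^ N * a (Q l) := by
      intro k
      have := hl'.2.1
      rw [mul_pow]
      field_simp
    rw [Finset.sum_congr rfl fun k _ => h4 k, Finset.sum_sub_distrib, ← Finset.sum_mul, he']
    ring
  rw [h3]
  exact add_mem (sum_mem fun k _ => mul_mem (hO.le (e k).2)
    (mul_mem hl'.2.2 (hO.le (hN k l)))) h2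

/-- `Inert` passes from a stable ring to its local ring. -/
theorem Inert.toLoc {e : K ≃ₐ[ℂ] K} (he : ∀ f ∈ C, e f ∈ C) (h : IsLocOf C O) (hi : Inert e C O) :
    (∀ f ∈ O, e f ∈ O) ∧ Inert e O O := by
  have key : ∀ b ∈ C, Un O b → Un O (e b) := fun b hb hu => by
    refine (h.add (e b) (h.le (he b hb)) (-(e b - b)) (neg_mem (h.le (sub_mem (he b hb) hb)))
      (by rwa [show e b + -(e b - b) = b by ring])).resolve_right fun h1 => hi b hb ?_
    simpa only [neg_neg] using h1.neg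
  refine ⟨fun f hf => ?_, fun f hf hu => ?_⟩
  · obtain ⟨b, hb, hu, hbf⟩ := h.frac f hf
    have h1 := key b hb hu
    rw [show e f = (e b)⁻¹ * e (b * f) by rw [map_mul, inv_mul_cancel_left₀ h1.2.1]]
    exact mul_mem h1.2.2 (h.le (he _ hbf))
  · obtain ⟨b, hb, hub, hbf⟩ := h.frac f hf
    have h1 := hu.mul (hub.mul (key b hb hub))
    have h2 : e (b * f) - b * f ∈ O := h.le (sub_mem (he _ hbf) hbf)
    have h3 : e b - b ∈ O := h.le (sub_mem (he _ hb) hb)
    rw [show (e f - f) * (b * e b) = b * (e (b * f) - b * f) + -(b * f) * (e b - b) by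
      rw [map_mul]; ring] at h1
    rcases h.add _ (mul_mem (h.le hb) h2) _ (mul_mem (neg_mem (h.le hbf)) h3) h1 with h4 | h4
    · exact hi _ hbf (h4.of_mul_right (h.le hb) h2)
    · exact hi _ hb (h4.of_mul_right (neg_mem (h.le hbf)) h3)

/-- It is enough to check `Inert` on generators. -/
theorem inert_adjoin {e : K ≃ₐ[ℂ] K} {T : Set K} (h : IsLocOf (Algebra.adjoin ℂ T) O)
    (hT : ∀ f ∈ T, e f ∈ O ∧ ¬ Un O (e f - f)) : Inert e (Algebra.adjoin ℂ T) O := by
  intro f hf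
  suffices e f ∈ O ∧ ¬ Un O (e f - f) from this.2
  induction hf using Algebra.adjoin_induction with
  | mem x hx => exact hT x hx
  | algebraMap r =>
    rw [e.commutes, sub_self]
    exact ⟨O.algebraMap_mem r, fun h0 => h0.2.1 rfl⟩
  | add x y hx hy ix iy =>
    rw [map_add, show e x + e y - (x + y) = (e x - x) + (e y - y) by ring]
    exact ⟨add_mem ix.1 iy.1, fun hu =>
      (h.add _ (sub_mem ix.1 (h.le hx)) _ (sub_mem iy.1 (h.le hy)) hu).elim ix.2 iy.2⟩
  | mul x y hx hy ix iy =>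
    have h1 := sub_mem ix.1 (h.le hx)
    have h2 := sub_mem iy.1 (h.le hy)
    rw [map_mul, show e x * e y - x * y = e x * (e y - y) + y * (e x - x) by ring]
    exact ⟨mul_mem ix.1 iy.1, fun hu =>
      (h.add _ (mul_mem ix.1 h2) _ (mul_mem (h.le hy) h1) hu).elim
        (fun h3 => iy.2 (h3.of_mul_right ix.1 h2)) fun h3 => ix.2 (h3.of_mul_right (h.le hy) h1)⟩

end Pool.Agent.P.MP_63735c_ag.Ta
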