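import Pool.Agent.P.MP_63735c_ag.TaML
import Pool.Agent.P.MP_63735c_ag.TaLocC

/-! An integral scheme over `ℂ` whose function field is embedded in a field `K`. -/

open CategoryTheory AlgebraicGeometry

noncomputable section

namespace Pool.Agent.P.MP_63735c_ag.Ta

/-- An embedding `φ` of the function field into `K`, with the local rings as subalgebras. -/
structure Emb {X : Scheme.{0}} (π : X ⟶ Spec (CommRingCat.of ℂ)) [IsIntegral X] (K : Type)
    [Field K] [Algebra ℂ K] where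
  φ : X.functionField →+* K
  O : X → Subalgebra ℂ K
  mem_O : ∀ x f, f ∈ O x ↔ ∃ z ∈ (algebraMap (X.presheaf.stalk x) X.functionField).range, φ z = f
  φ_const : ∀ c : ℂ, φ (letI := fieldAlg π; algebraMap ℂ X.functionField c) = algebraMap ℂ K c

variable {X : Scheme.{0}} {π : X ⟶ Spec (CommRingCat.of ℂ)} [IsIntegral X] {K : Type} [Field K]
  [Algebra ℂ K] (E : Emb π K)

/-- `C` is the ring of regular functions on `U`. -/
def Emb.IsRing (U : X.Opens) (C : Subalgebra ℂ K) : Prop := ∀ f, f ∈ C ↔ ∀ x ∈ U, f ∈ E.O x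

/-- The embedding of a stalk into `K`. -/
def Emb.embS (x : X) : X.presheaf.stalk x →+* K :=
  E.φ.comp (algebraMap (X.presheaf.stalk x) X.functionField)

theorem Emb.embS_inj (x : X) : Function.Injective (E.embS x) :=
  E.φ.injective.comp (IsFractionRing.injective (X.presheaf.stalk x) X.functionField)

theorem Emb.mem_iff_embS {x : X} {f : K} : f ∈ E.O x ↔ ∃ a, E.embS x a = f := by
  rw [E.mem_O]
  exact ⟨fun ⟨_, ⟨a, ha⟩, h⟩ => ⟨a, by rw [← h, ← ha]; rfl⟩, fun ⟨a, h⟩ => ⟨_, ⟨a, rfl⟩, h⟩⟩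

/-- The stalk is isomorphic to `O x`. -/
def Emb.embE (x : X) : X.presheaf.stalk x ≃+* E.O x :=
  RingEquiv.ofBijective ((E.embS x).codRestrict (E.O x) fun a => E.mem_iff_embS.2 ⟨a, rfl⟩)
    ⟨fun _ _ h => E.embS_inj x (congrArg Subtype.val h), fun f =>
      (E.mem_iff_embS.1 f.2).imp fun _ h => Subtype.ext h⟩

theorem Emb.coe_embE (x : X) (a : X.presheaf.stalk x) : (E.embE x a : K) = E.embS x a := rfl

theorem Emb.embS_germ {U : X.Opens} {x : X} (hx : x ∈ U) (h : genericPoint X ∈ U) (s : Γ(X, U)) :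
    E.embS x (X.presheaf.germ U x hx s) = E.φ (X.presheaf.germ U _ h s) :=
  haveI : Nonempty U := ⟨⟨x, hx⟩⟩
  congrArg E.φ (X.algebraMap_germ_eq_germToFunctionField hx s)

theorem Emb.un_embS {x : X} (a : X.presheaf.stalk x) : Un (E.O x) (E.embS x a) ↔ IsUnit a := by
  constructor
  · rintro ⟨-, h0, h⟩
    obtain ⟨b, hb⟩ := E.mem_iff_embS.1 h
    exact IsUnit.of_mul_eq_one b (E.embS_inj x (by rw [map_mul, hb, mul_inv_cancel₀ h0, map_one]))
  · intro h
    obtain ⟨b, hb⟩ := h.exists_right_inv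
    have e : E.embS x a * E.embS x b = 1 := by rw [← map_mul, hb, map_one]
    exact ⟨E.mem_iff_embS.2 ⟨a, rfl⟩, left_ne_zero_of_mul_eq_one e,
      E.mem_iff_embS.2 ⟨b, eq_inv_of_mul_eq_one_right e⟩⟩

theorem Emb.φ_germ_const {U : X.Opens} (h : genericPoint X ∈ U) (c : ℂ) :
    E.φ (X.presheaf.germ U _ h (const π U c)) = algebraMap ℂ K c := by
  rw [← E.φ_const c]
  exact congrArg E.φ (X.presheaf.germ_res_apply (homOfLE le_top) _ h _)

theorem Emb.mem_smoothLocus_iff [LocallyOfFinitePresentation π] {x : X} :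
    x ∈ π.smoothLocus ↔ Algebra.FormallySmooth ℂ (E.O x) := by
  rw [Scheme.Hom.mem_smoothLocus]
  let p : PrimeSpectrum (CommRingCat.of ℂ) := π x
  let e0 : ℂ ≃ₐ[ℂ] Localization.AtPrime p.asIdeal := IsLocalization.atUnits _ p.asIdeal.primeCompl
    fun y hy => Ne.isUnit fun h => hy (h ▸ zero_mem _)
  let e : ℂ ≃+* (Spec (CommRingCat.of ℂ)).presheaf.stalk (π x) :=
    e0.toRingEquiv.trans (Spec.stalkIso (CommRingCat.of ℂ) p).symm.commRingCatIsoToRingEquiv
  have key : ∀ c : ℂ, E.embE x ((π.stalkMap x).hom (e c)) = algebraMap ℂ (E.O x) c := by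
    intro c
    apply Subtype.ext
    have e1 : e c = (Spec (CommRingCat.of ℂ)).presheaf.germ ⊤ (π x) trivial
        ((Scheme.ΓSpecIso (CommRingCat.of ℂ)).inv c) :=
      (congrArg (Spec.stalkIso (CommRingCat.of ℂ) p).inv (e0.commutes c)).trans
        (congrArg (fun g => g.hom c) (Spec.algebraMap_stalkIso_inv (R := CommRingCat.of ℂ) p))
    rw [E.coe_embE, e1]
    exact (congrArg (E.embS x) (π.germ_stalkMap_apply ⊤ x trivial _)).trans
      ((E.embS_germ (U := ⊤) trivial trivial _).trans (E.φ_const c))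
  constructor
  · intro h
    have e2 : algebraMap ℂ (E.O x) =
        ((E.embE x).toRingHom.comp (π.stalkMap x).hom).comp e.toRingHom :=
      RingHom.ext fun c => (key c).symm
    rw [← RingHom.formallySmooth_algebraMap, e2]
    exact (RingHom.FormallySmooth.of_bijective e.bijective).comp
      (h.comp (RingHom.FormallySmooth.of_bijective (E.embE x).bijective))
  intro h
  have e2 : (π.stalkMap x).hom = ((E.embE x).symm.toRingHom.comp (algebraMap ℂ (E.O x))).comp
      e.symm.toRingHom := by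
    ext a
    obtain ⟨c, rfl⟩ := e.surjective a
    apply (E.embE x).injective
    rw [key]
    simp
  rw [e2]
  exact (RingHom.FormallySmooth.of_bijective e.symm.bijective).comp
    ((RingHom.formallySmooth_algebraMap.2 h).comp
      (RingHom.FormallySmooth.of_bijective (E.embE x).symm.bijective))

theorem Emb.mem_smoothLocus [LocallyOfFinitePresentation π] {x : X}
    (h : Algebra.FormallySmooth ℂ (E.O x)) : x ∈ π.smoothLocus :=
  E.mem_smoothLocus_iff.2 h

theorem Emb.isIntegrallyClosed {x : X}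
    (h : ∀ f ∈ E.φ.range, IsIntegral (E.O x) f → f ∈ E.O x) :
    IsIntegrallyClosed (X.presheaf.stalk x) := by
  rw [isIntegrallyClosed_iff X.functionField]
  intro z hz
  have := hz.map_of_comp_eq (E.embE x).toRingHom E.φ (U := K) (by ext a; rfl)
  obtain ⟨a, ha⟩ := E.mem_iff_embS.1 (h _ ⟨z, rfl⟩ this)
  exact ⟨a, E.φ.injective ha⟩

theorem Emb.mem_basicOpen {U : X.Opens} (h : genericPoint X ∈ U) (s : Γ(X, U)) (x : X) :
    x ∈ X.basicOpen s ↔ x ∈ U ∧ Un (E.O x) (E.φ (X.presheaf.germ U _ h s)) := by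
  constructor
  · intro hx
    have hU := X.basicOpen_le s hx
    rw [← E.embS_germ hU h, E.un_embS]
    exact ⟨hU, (X.mem_basicOpen s x hU).1 hx⟩
  · rintro ⟨hU, hx⟩
    rw [← E.embS_germ hU h, E.un_embS] at hx
    exact (X.mem_basicOpen s x hU).2 hx

theorem Emb.isOpen_un (f : K) : IsOpen {x : X | Un (E.O x) f} := by
  refine isOpen_iff_forall_mem_open.2 fun x hx => ?_
  obtain ⟨a, rfl⟩ := E.mem_iff_embS.1 hx.1
  obtain ⟨U, hU, s, rfl⟩ := X.presheaf.exists_germ_eq a
  have hg := ml_gen_mem hU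
  rw [E.embS_germ hU hg] at hx ⊢
  exact ⟨X.basicOpen s, fun y hy => ((E.mem_basicOpen hg s y).1 hy).2, (X.basicOpen s).isOpen,
    (E.mem_basicOpen hg s x).2 ⟨hU, hx⟩⟩

theorem Emb.exists_section {U : X.Opens} {f : K} (hf : ∀ x ∈ U, f ∈ E.O x) :
    ∃ s : Γ(X, U), ∀ h : genericPoint X ∈ U, E.φ (X.presheaf.germ U _ h s) = f := by
  by_cases hU : genericPoint X ∈ U
  · obtain ⟨z, -, rfl⟩ := (E.mem_O _ _).1 (hf _ hU)
    obtain ⟨s, hs⟩ := Reg.exists_section (U := U) (z := z) fun x hx => by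
      obtain ⟨w, hw, e⟩ := (E.mem_O _ _).1 (hf x hx)
      exact E.φ.injective e ▸ hw
    exact ⟨s, fun h => by rw [hs h]⟩
  · exact ⟨0, fun h => absurd h hU⟩

end Pool.Agent.P.MP_63735c_ag.Ta
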