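import Pool.Agent.P.MP_63735c_ag.TaEmb

/-! An integral scheme over `ℂ` whose function field is embedded in a field `K`. -/

open CategoryTheory AlgebraicGeometry

noncomputable section

namespace Pool.Agent.P.MP_63735c_ag.Ta

variable {X : Scheme.{0}} {π : X ⟶ Spec (CommRingCat.of ℂ)} [IsIntegral X] {K : Type} [Field K]
  [Algebra ℂ K] (E : Emb π K)

theorem embb_un {x : X} (a : X.presheaf.stalk x) :
    Un (E.O x) (E.φ (algebraMap _ X.functionField a)) ↔ IsUnit a := by
  constructor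
  · rintro ⟨-, h0, hi⟩
    obtain ⟨_, ⟨b, rfl⟩, hb⟩ := (E.mem_O x _).1 hi
    refine IsUnit.of_mul_eq_one b ?_
    apply IsFractionRing.injective _ X.functionField
    apply E.φ.injective
    rw [map_mul, map_mul, hb, mul_inv_cancel₀ h0, map_one, map_one]
  · intro h
    obtain ⟨b, hb⟩ := h.exists_right_inv
    refine un_of_mul_eq_one ((E.mem_O x _).2 ⟨_, ⟨a, rfl⟩, rfl⟩)
      ((E.mem_O x _).2 ⟨_, ⟨b, rfl⟩, rfl⟩) ?_
    rw [← map_mul, ← map_mul, hb, map_one, map_one]

theorem embb_mem {U : X.Opens} (h0 : genericPoint X ∈ U) {C : Subalgebra ℂ K} (hC : E.IsRing U C)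
    (s : Γ(X, U)) : E.φ (X.presheaf.germ U _ h0 s) ∈ C :=
  (hC _).2 fun x hx => (E.mem_O x _).2 ⟨_, reg_germ h0 s x hx, rfl⟩

/-- The ring of sections maps onto the coordinate ring. -/
def embb_hom {U : X.Opens} (h0 : genericPoint X ∈ U) {C : Subalgebra ℂ K} (hC : E.IsRing U C) :
    Γ(X, U) →+* C :=
  (E.φ.comp (X.presheaf.germ U _ h0).hom).codRestrict C (embb_mem E h0 hC)

theorem embb_bij {U : X.Opens} (h0 : genericPoint X ∈ U) {C : Subalgebra ℂ K}
    (hC : E.IsRing U C) : Function.Bijective (embb_hom E h0 hC) := by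
  constructor
  · intro s t h
    exact germ_injective_of_isIntegral X _ h0 (E.φ.injective (congrArg Subtype.val h))
  · intro c
    obtain ⟨s, hs⟩ := E.exists_section ((hC _).1 c.2)
    exact ⟨s, Subtype.ext (hs h0)⟩

omit [IsIntegral X] in
theorem embb_basic {U : X.Opens} (hU : IsAffineOpen U) (P : PrimeSpectrum Γ(X, U)) (s : Γ(X, U)) :
    hU.fromSpec P ∈ X.basicOpen s ↔ s ∉ P.asIdeal := by
  have := hU.fromSpec_preimage_basicOpen s
  exact (SetLike.ext_iff.1 this P).trans (PrimeSpectrum.mem_basicOpen s P)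

/-- The points of an affine open set and the local rings of its coordinate ring. -/
theorem Emb.isLocOf {U : X.Opens} (hU : IsAffineOpen U) {C : Subalgebra ℂ K} (hC : E.IsRing U C)
    {x : X} (hx : x ∈ U) : IsLocOf C (E.O x) := by
  have h0 := ml_gen_mem hx
  have : Nonempty U := ⟨⟨x, hx⟩⟩
  refine ⟨fun f hf => (hC f).1 hf x hx, ?_, ?_⟩
  · intro f hf g hg hu
    obtain ⟨_, ⟨a, rfl⟩, rfl⟩ := (E.mem_O x _).1 hf
    obtain ⟨_, ⟨b, rfl⟩, rfl⟩ := (E.mem_O x _).1 hg
    rw [← map_add, ← map_add, embb_un] at hu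
    rw [embb_un, embb_un]
    exact IsLocalRing.isUnit_or_isUnit_of_isUnit_add hu
  · intro f hf
    obtain ⟨_, ⟨a, rfl⟩, rfl⟩ := (E.mem_O x _).1 hf
    let _ := X.presheaf.algebra_section_stalk ⟨x, hx⟩
    have hl := hU.isLocalization_stalk ⟨x, hx⟩
    obtain ⟨⟨s, t⟩, hst⟩ := IsLocalization.surj (hU.primeIdealOf ⟨x, hx⟩).asIdeal.primeCompl
      (S := X.presheaf.stalk x) a
    have ht := IsLocalization.map_units (X.presheaf.stalk x) t
    have e : ∀ r : Γ(X, U), algebraMap _ X.functionField (algebraMap _ (X.presheaf.stalk x) r) =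
        X.presheaf.germ U _ h0 r := fun r => X.algebraMap_germ_eq_germToFunctionField hx r
    refine ⟨_, embb_mem E h0 hC t, ?_, ?_⟩
    · rw [← e, embb_un]
      exact ht
    · rw [← e, ← map_mul, ← map_mul, mul_comm, hst, e]
      exact embb_mem E h0 hC s

theorem Emb.exists_point {U : X.Opens} (hU : IsAffineOpen U) (h0 : genericPoint X ∈ U)
    {C O : Subalgebra ℂ K} (hC : E.IsRing U C) (hO : IsLocOf C O) : ∃ x ∈ U, E.O x = O := by
  let P : PrimeSpectrum Γ(X, U) := ⟨hO.ctr.comap (embb_hom E h0 hC), inferInstance⟩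
  have hx : hU.fromSpec P ∈ U := by
    have := Set.mem_range_self (f := hU.fromSpec) P
    rwa [hU.range_fromSpec] at this
  refine ⟨_, hx, (E.isLocOf hU hC hx).ext hO fun c hc => ?_⟩
  obtain ⟨s, hs⟩ := (embb_bij E h0 hC).2 ⟨c, hc⟩
  have hs' : E.φ (X.presheaf.germ U _ h0 s) = c := congrArg Subtype.val hs
  have h1 := (E.mem_basicOpen h0 s _).symm.trans (embb_basic hU P s)
  rw [hs', and_iff_right hx] at h1
  rw [h1]
  change ¬ ¬ Un O (E.φ (X.presheaf.germ U _ h0 s)) ↔ _
  rw [hs', not_not]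

/-- An etale extension of a coordinate ring gives an etale neighbourhood. -/
theorem Emb.etale_nbhd {U : X.Opens} (hU : IsAffineOpen U) {C D O' : Subalgebra ℂ K}
    (hC : E.IsRing U C) {x : X} (hx : x ∈ U) (het : Et C D) (hO : IsLocOf D O')
    (hd : Dom (E.O x) O') {R : Type} [CommRing R] [Algebra ℂ R] (j : R ≃ₐ[ℂ] D) :
    ∃ e : Spec (CommRingCat.of R) ⟶ X, Etale e ∧ x ∈ Set.range e ∧
      e ≫ π = Spec.map (CommRingCat.ofHom (algebraMap ℂ R)) := by
  have h0 := ml_gen_mem hx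
  obtain ⟨hle, het⟩ := het
  let f : Γ(X, U) →+* R := (j.symm : D →+* R).comp
    ((Subalgebra.inclusion hle).toRingHom.comp (embb_hom E h0 hC))
  have hf : ∀ s, (j (f s) : K) = E.φ (X.presheaf.germ U _ h0 s) := fun s =>
    congrArg Subtype.val (j.apply_symm_apply _)
  have hfe : f.Etale :=
    RingHom.Etale.stableUnderComposition _ _
      (RingHom.Etale.stableUnderComposition _ _ (RingHom.Etale.of_bijective (embb_bij E h0 hC)) het)
      (RingHom.Etale.of_bijective j.symm.bijective)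
  let g : Γ(X, U) ⟶ CommRingCat.of R := CommRingCat.ofHom f
  have : Etale (Spec.map g) := HasRingHomProperty.Spec_iff.2 hfe
  refine ⟨Spec.map g ≫ hU.fromSpec, inferInstance, ?_, ?_⟩
  · let Q : PrimeSpectrum R := ⟨hO.ctr.comap (j : R →+* D), inferInstance⟩
    refine ⟨Q, ?_⟩
    have hP : Spec.map g Q = hU.primeIdealOf ⟨x, hx⟩ := by
      refine PrimeSpectrum.ext (Ideal.ext fun s => ?_)
      have h1 := embb_basic hU (hU.primeIdealOf ⟨x, hx⟩) s
      rw [hU.fromSpec_primeIdealOf, E.mem_basicOpen h0, and_iff_right hx] at h1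
      have h2 : E.φ (X.presheaf.germ U _ h0 s) ∈ E.O x := (hC _).1 (embb_mem E h0 hC s) x hx
      change ¬ Un O' (j (f s) : K) ↔ _
      rw [hf, ← not_iff_not, not_not, ← h1]
      exact ⟨hd.2 _ h2, fun h => h.mono hd.1⟩
    exact (congrArg hU.fromSpec hP).trans (hU.fromSpec_primeIdealOf ⟨x, hx⟩)
  · have h1 := IsAffineOpen.SpecMap_appLE_fromSpec π (isAffineOpen_top _) hU le_top
    rw [IsAffineOpen.fromSpec_top, Scheme.isoSpec_Spec_inv, ← Spec.map_comp] at h1
    rw [Category.assoc, ← h1, ← Spec.map_comp]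
    congr 1
    ext c
    apply j.injective
    apply Subtype.ext
    exact (hf (const π U c)).trans ((E.φ_germ_const h0 c).trans
      (congrArg Subtype.val (j.commutes c)).symm)

end Pool.Agent.P.MP_63735c_ag.Ta
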