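import Pool.Agent.P.MP_63735c_ag.TaEmb

/-! An integral scheme over `ℂ` whose function field is embedded in a field `K`. -/

open CategoryTheory AlgebraicGeometry

noncomputable section

namespace Pool.Agent.P.MP_63735c_ag.Ta

variable {X : Scheme.{0}} {π : X ⟶ Spec (CommRingCat.of ℂ)} [IsIntegral X] {K : Type} [Field K]
  [Algebra ℂ K] (E : Emb π K)

theorem embc_reg {U : X.Opens} {z : X.functionField} :
    Reg U z ↔ ∀ x ∈ U, E.φ z ∈ E.O x := by
  refine forall₂_congr fun x _ => ?_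
  rw [E.mem_O]
  constructor
  · exact fun h => ⟨z, h, rfl⟩
  · rintro ⟨w, hw, e⟩
    rwa [← E.φ.injective e]

theorem Emb.cechZero {ι : Type} {U : ι → X.Opens} (hne : ∀ i, genericPoint X ∈ U i)
    {A : ∀ n : ℕ, (Fin (n + 1) → ι) → Subalgebra ℂ K}
    (hA : ∀ n t, E.IsRing (⨅ j, U (t j)) (A n t)) {n : ℕ} (h : KZ A n) : CechZero U n := by
  intro c hc
  have hg : ∀ (m : ℕ) (t : Fin m → ι), genericPoint X ∈ ⨅ j, U (t j) :=
    fun m t => ml_mem_iInf.2 fun j => hne _
  obtain ⟨b, hb, hbc⟩ := h (fun t => E.φ (X.presheaf.germ _ _ (hg _ t) (c t)))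
    (fun t => (hA _ t _).2 ((embc_reg E).1 (reg_germ _ _))) (funext fun t => by
      have h1 := ml_germ_cechD U (n + 1) c (fun t => X.presheaf.germ _ _ (hg _ t) (c t))
        (fun _ _ => rfl) t (hg _ t)
      rw [hc, Pi.zero_apply, map_zero] at h1
      have h2 := congrArg E.φ h1
      rw [map_zero, map_sum] at h2
      rw [kd, Pi.zero_apply, h2]
      refine Finset.sum_congr rfl fun k _ => ?_
      rw [map_mul, map_pow, map_neg, map_one])
  have hz : ∀ t, ∃ z : X.functionField, E.φ z = b t := fun t => by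
    obtain ⟨z, -, e⟩ := (E.mem_O _ _).1 ((hA _ t _).1 (hb t) _ (hg _ t))
    exact ⟨z, e⟩
  choose z hz using hz
  choose s hs using fun t : Fin (n + 1) → ι => Reg.exists_section (U := ⨅ j, U (t j)) (z := z t)
    ((embc_reg E).2 (by rw [hz]; exact (hA _ t _).1 (hb t)))
  refine ⟨s, funext fun t => ml_ext fun h' => E.φ.injective ?_⟩
  rw [ml_germ_cechD U n s z hs, map_sum]
  refine Eq.trans ?_ (congrFun hbc t)
  refine Finset.sum_congr rfl fun k _ => ?_
  rw [map_mul, map_pow, map_neg, map_one, hz]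

theorem Emb.cechZero_zero {ι : Type} {U : ι → X.Opens}
    (h : ∀ a : ι → K, (∀ i, a i ∈ E.φ.range) → (∀ i j x, x ∈ U i → x ∈ U j → a i - a j ∈ E.O x) →
      ∃ b ∈ E.φ.range, ∀ i x, x ∈ U i → b - a i ∈ E.O x) : CechZero U 0 := by
  refine ML.cechZero fun a ha => ?_
  obtain ⟨_, ⟨b, rfl⟩, hb⟩ := h (fun i => E.φ (a i)) (fun i => ⟨_, rfl⟩) fun i j x hi hj => by
    rw [← map_sub]
    exact (embc_reg E).1 (ha i j) x ⟨hi, hj⟩
  exact ⟨b, fun i => (embc_reg E).2 fun x hx => by rw [map_sub]; exact hb i x hx⟩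

end Pool.Agent.P.MP_63735c_ag.Ta
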