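import Pool.Agent.P.MP_63735c_ag.TaLocC

/-! Charts of a filtration and finite generation. -/

noncomputable section

namespace Pool.Agent.P.MP_63735c_ag.Ta.Filt

variable {K : Type} [Field K] [Algebra ℂ K] (F : Filt K) {k k' : ℕ} {f h h' : K}
  {O : Subalgebra ℂ K} {G : Subgroup (K ≃ₐ[ℂ] K)}

theorem mem_zero : f ∈ F.zero ↔ f ∈ F.V 0 := Iff.rfl

theorem pow_mem (hf : f ∈ F.V k) (n : ℕ) : f ^ n ∈ F.V (n * k) := by
  induction n with
  | zero => simpa using F.one_mem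
  | succ n ih =>
    rw [pow_succ, Nat.succ_mul]
    exact F.mul_mem ih hf

theorem mem_chart (hh : h ∈ F.V k) : f ∈ F.chart k h ↔ ∃ n : ℕ, h ^ n * f ∈ F.V (n * k) := by
  refine ⟨fun hf => ?_, fun hf => Algebra.subset_adjoin hf⟩
  induction hf using Algebra.adjoin_induction with
  | mem x hx => exact hx
  | algebraMap r =>
    refine ⟨0, ?_⟩
    rw [pow_zero, one_mul, zero_mul, Algebra.algebraMap_eq_smul_one]
    exact Submodule.smul_mem _ _ F.one_mem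
  | add x y _ _ hx hy =>
    obtain ⟨n, hn⟩ := hx
    obtain ⟨m, hm⟩ := hy
    refine ⟨n + m, ?_⟩
    have h1 := F.mul_mem hn (F.pow_mem hh m)
    have h2 := F.mul_mem (F.pow_mem hh n) hm
    rw [show h ^ (n + m) * (x + y) = h ^ n * x * h ^ m + h ^ n * (h ^ m * y) by ring, add_mul]
    exact add_mem h1 h2
  | mul x y _ _ hx hy =>
    obtain ⟨n, hn⟩ := hx
    obtain ⟨m, hm⟩ := hy
    refine ⟨n + m, ?_⟩
    rw [show h ^ (n + m) * (x * y) = h ^ n * x * (h ^ m * y) by ring, add_mul]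
    exact F.mul_mem hn hm

theorem div_mem_chart (h0 : h ≠ 0) {n : ℕ} (hf : f ∈ F.V (n * k)) : f / h ^ n ∈ F.chart k h := by
  refine Algebra.subset_adjoin ⟨n, ?_⟩
  rwa [mul_div_cancel₀ _ (pow_ne_zero n h0)]

theorem zero_le_chart : F.zero ≤ F.chart k h := by
  intro f hf
  refine Algebra.subset_adjoin ⟨0, ?_⟩
  rw [pow_zero, one_mul, zero_mul]
  exact hf

theorem filt_ratio_mem (hh : h ∈ F.V k) (h0' : h' ≠ 0) : h ^ k' / h' ^ k ∈ F.chart k' h' :=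
  F.div_mem_chart h0' (by rw [mul_comm]; exact F.pow_mem hh k')

theorem filt_mul_ratio (hh : h ∈ F.V k) (h0' : h' ≠ 0) (hk' : 0 < k') (hf : f ∈ F.chart k h) :
    ∃ n : ℕ, f * (h ^ k' / h' ^ k) ^ n ∈ F.chart k' h' := by
  obtain ⟨n, hn⟩ := (F.mem_chart hh).1 hf
  obtain ⟨j, rfl⟩ := Nat.exists_eq_succ_of_ne_zero hk'.ne'
  refine ⟨n, ?_⟩
  have h1 := F.mul_mem hn (F.pow_mem hh (j * n))
  have e : f * (h ^ (j + 1) / h' ^ k) ^ n = h ^ n * f * h ^ (j * n) / h' ^ (k * n) := by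
    rw [div_pow, ← pow_mul, ← pow_mul]
    ring
  rw [Nat.succ_eq_add_one, e]
  refine F.div_mem_chart h0' ?_
  rwa [show k * n * (j + 1) = n * k + j * n * k by ring]

theorem filt_chart_le_mul (hh : h ∈ F.V k) (hh' : h' ∈ F.V k') :
    F.chart k h ≤ F.chart (k + k') (h * h') := by
  intro f hf
  obtain ⟨n, hn⟩ := (F.mem_chart hh).1 hf
  refine Algebra.subset_adjoin ⟨n, ?_⟩
  rw [show (h * h') ^ n * f = h ^ n * f * h' ^ n by ring, mul_add]
  exact F.mul_mem hn (F.pow_mem hh' n)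

/-- Change of chart. -/
theorem switch (hh : h ∈ F.V k) (h0 : h ≠ 0) (hk : 0 < k) (hh' : h' ∈ F.V k') (hk' : 0 < k')
    (hO : IsLocOf (F.chart k h) O) (hu : Un O (h' ^ k / h ^ k')) : IsLocOf (F.chart k' h') O := by
  have h0' : h' ≠ 0 := by
    rintro rfl
    exact hu.2.1 (by rw [zero_pow hk.ne', zero_div])
  have hv : Un O (h ^ k' / h' ^ k) := by
    have := hu.inv
    rwa [inv_div] at this
  have hvc := F.filt_ratio_mem hh h0' (k' := k')
  refine ⟨fun g hg => ?_, hO.add, fun g hg => ?_⟩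
  · obtain ⟨n, hn⟩ := F.filt_mul_ratio hh' h0 hk hg
    have h1 := O.mul_mem (hO.le hn) (hu.pow n).2.2
    rwa [mul_inv_cancel_right₀ (hu.pow n).2.1] at h1
  · obtain ⟨b, hb, hbu, hbg⟩ := hO.frac g hg
    obtain ⟨n, hn⟩ := F.filt_mul_ratio hh h0' hk' hb
    obtain ⟨m, hm⟩ := F.filt_mul_ratio hh h0' hk' hbg
    refine ⟨b * (h ^ k' / h' ^ k) ^ n * (h ^ k' / h' ^ k) ^ m,
      Subalgebra.mul_mem _ hn (Subalgebra.pow_mem _ hvc m), (hbu.mul (hv.pow n)).mul (hv.pow m), ?_⟩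
    rw [show b * (h ^ k' / h' ^ k) ^ n * (h ^ k' / h' ^ k) ^ m * g =
      b * g * (h ^ k' / h' ^ k) ^ m * (h ^ k' / h' ^ k) ^ n by ring]
    exact Subalgebra.mul_mem _ hm (Subalgebra.pow_mem _ hvc n)

theorem un_of_charts (hh : h ∈ F.V k) (h0 : h ≠ 0) (hh' : h' ∈ F.V k') (h0' : h' ≠ 0)
    (h1 : F.chart k h ≤ O) (h2 : F.chart k' h' ≤ O) : Un O (h' ^ k / h ^ k') := by
  refine ⟨h1 (F.filt_ratio_mem hh' h0), div_ne_zero (pow_ne_zero _ h0') (pow_ne_zero _ h0), ?_⟩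
  rw [inv_div]
  exact h2 (F.filt_ratio_mem hh h0')

theorem isLocOf_chart_mul (hh : h ∈ F.V k) (h0 : h ≠ 0) (hk : 0 < k) (hh' : h' ∈ F.V k')
    (h0' : h' ≠ 0) (hk' : 0 < k') :
    IsLocOf (F.chart (k + k') (h * h')) O ↔ IsLocOf (F.chart k h) O ∧ IsLocOf (F.chart k' h') O := by
  have hm := F.mul_mem hh hh'
  have hm0 := mul_ne_zero h0 h0'
  have hkk : 0 < k + k' := Nat.add_pos_left hk k'
  constructor
  · intro hO
    have l1 := (F.filt_chart_le_mul hh hh').trans hO.le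
    have l2 : F.chart k' h' ≤ O := by
      have := F.filt_chart_le_mul hh' hh
      rw [add_comm k' k, mul_comm h' h] at this
      exact this.trans hO.le
    exact ⟨F.switch hm hm0 hkk hh hk hO (F.un_of_charts hm hm0 hh h0 hO.le l1),
      F.switch hm hm0 hkk hh' hk' hO (F.un_of_charts hm hm0 hh' h0' hO.le l2)⟩
  · rintro ⟨hO, hO'⟩
    refine F.switch hh h0 hk hm hkk hO ?_
    have e : (h * h') ^ k / h ^ (k + k') = h' ^ k / h ^ k' := by
      rw [mul_pow, pow_add, mul_div_mul_left _ _ (pow_ne_zero k h0)]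
    rw [e]
    exact F.un_of_charts hh h0 hh' h0' hO.le hO'.le

theorem mem_inv_V (hp) : f ∈ (F.inv G hp).V k ↔ f ∈ F.V k ∧ ∀ g ∈ G, g f = f := Iff.rfl

theorem chart_inv (hp) (hh : h ∈ (F.inv G hp).V k) (h0 : h ≠ 0) :
    (F.inv G hp).chart k h = Ta.inv G (F.chart k h) := by
  ext f
  rw [(F.inv G hp).mem_chart hh, mem_inv, F.mem_chart hh.1]
  constructor
  · rintro ⟨n, hn⟩
    refine ⟨⟨n, hn.1⟩, fun g hg => ?_⟩
    have := hn.2 g hg
    rw [map_mul, map_pow, hh.2 g hg] at this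
    exact mul_left_cancel₀ (pow_ne_zero n h0) this
  · rintro ⟨⟨n, hn⟩, hf⟩
    exact ⟨n, hn, fun g hg => by rw [map_mul, map_pow, hh.2 g hg, hf g hg]⟩

theorem stable_chart (hV : ∀ g ∈ G, ∀ k, ∀ f ∈ F.V k, g f ∈ F.V k) (hh : h ∈ F.V k)
    (hg : ∀ g ∈ G, g h = h) : Stable G (F.chart k h) := by
  intro g hG f hf
  obtain ⟨n, hn⟩ := (F.mem_chart hh).1 hf
  refine (F.mem_chart hh).2 ⟨n, ?_⟩
  have := hV g hG _ _ hn
  rwa [map_mul, map_pow, hg g hG] at this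

end Pool.Agent.P.MP_63735c_ag.Ta.Filt
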