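import Pool.Agent.P.MP_63735c_ag.TaFilt

/-! Charts of a filtration and finite generation. -/

noncomputable section

namespace Pool.Agent.P.MP_63735c_ag.Ta.Filt

variable {K : Type} [Field K] [Algebra ℂ K] (F : Filt K) {k k' : ℕ} {f h h' : K}
  {O : Subalgebra ℂ K} {G : Subgroup (K ≃ₐ[ℂ] K)}

theorem filtb_induction {P : F.S → Prop} (h0 : P 0) (hadd : ∀ p q, P p → P q → P (p + q))
    (hhom : ∀ (k : ℕ) (f : K) (hf : f ∈ F.V k), P (F.hom hf)) (p : F.S) : P p := by
  have e : p = ∑ k ∈ (p : Polynomial K).support, F.hom (p.2 k) := by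
    ext1
    simp only [AddSubmonoidClass.coe_finsetSum, hom]
    exact Polynomial.as_sum_support _
  rw [e]
  exact Finset.sum_induction _ P hadd h0 (fun k _ => hhom k _ _)

theorem filtb_artin {A B : Type} [CommRing A] [CommRing B] [Algebra ℂ A] [Algebra ℂ B]
    (φ : A →ₐ[ℂ] B) (hφ : Function.Injective φ) (hB : Algebra.FiniteType ℂ B)
    (hint : ∀ b, φ.toRingHom.IsIntegralElem b) : Algebra.FiniteType ℂ A := by
  let _ := φ.toRingHom.toAlgebra
  have : IsScalarTower ℂ A B := IsScalarTower.of_algebraMap_eq (fun r => (φ.commutes r).symm)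
  have : Algebra.IsIntegral A B := ⟨hint⟩
  have : Algebra.FiniteType A B := Algebra.FiniteType.of_restrictScalars_finiteType ℂ A B
  have : Module.Finite A B := Algebra.IsIntegral.finite
  exact ⟨fg_of_fg_of_fg ℂ A B hB.out Module.Finite.fg_top hφ⟩

/-- Evaluation of the graded ring at `T = a`. -/
def filtb_ev (a : K) : F.S →ₐ[ℂ] K :=
  ((Polynomial.aeval a : Polynomial K →ₐ[K] K).restrictScalars ℂ).comp F.S.val

theorem filtb_ev_hom (a : K) (hf : f ∈ F.V k) : F.filtb_ev a (F.hom hf) = f * a ^ k := by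
  simp [filtb_ev, hom]

theorem filtb_range (hF : F.FG) (a : K) (C : Subalgebra ℂ K) (e : (F.filtb_ev a).range = C) :
    Algebra.FiniteType ℂ C := by
  subst e
  have : Algebra.FiniteType ℂ F.S := hF
  exact Algebra.FiniteType.of_surjective (F.filtb_ev a).rangeRestrict
    (F.filtb_ev a).rangeRestrict_surjective

/-- The degree zero part of the graded ring is the ring `V 0`. -/
theorem exists_zeroEquiv :
    ∃ j : F.gr 0 ≃ₐ[ℂ] F.zero, ∀ p : F.gr 0, (j p : K) = ((p : F.S) : Polynomial K).coeff 0 := by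
  let φ : F.gr 0 →ₐ[ℂ] F.zero :=
    { toFun := fun p => ⟨((p : F.S) : Polynomial K).coeff 0, (p : F.S).2 0⟩
      map_one' := by ext; simp
      map_mul' := fun p q => by ext; simp
      map_zero' := by ext; simp
      map_add' := fun p q => by ext; simp
      commutes' := fun r => by ext; simp }
  refine ⟨AlgEquiv.ofBijective φ ⟨fun p q e => ?_, fun f => ⟨⟨_, F.hom_mem f.2⟩, ?_⟩⟩, fun _ => rfl⟩
  · have e' : ((p : F.S) : Polynomial K).coeff 0 = ((q : F.S) : Polynomial K).coeff 0 :=
      congrArg Subtype.val e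
    ext l
    by_cases hl : l = 0
    · rw [hl, e']
    · rw [p.2 l hl, q.2 l hl]
  · ext
    simp [φ, hom]

variable {F}

theorem FG.zero (hF : F.FG) : Algebra.FiniteType ℂ F.zero := by
  refine F.filtb_range hF 0 _ (le_antisymm ?_ fun f hf => ⟨F.hom (k := 0) hf, ?_⟩)
  · rintro _ ⟨p, rfl⟩
    have e : F.filtb_ev 0 p = (p : Polynomial K).coeff 0 := by
      simp [filtb_ev, Polynomial.coeff_zero_eq_eval_zero]
    show F.filtb_ev 0 p ∈ F.V 0
    rw [e]
    exact p.2 0
  · exact (F.filtb_ev_hom (k := 0) 0 hf).trans (by rw [pow_zero, mul_one])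

theorem FG.chart (hF : F.FG) (hh : h ∈ F.V k) (h0 : h ≠ 0) (hk : 0 < k) :
    Algebra.FiniteType ℂ (F.chart k h) := by
  let F' : Filt K :=
    { V := fun n => F.V (n * k)
      one_mem := by simpa using F.one_mem
      mul_mem := fun hf hg => by rw [add_mul]; exact F.mul_mem hf hg
      pos := ⟨1, one_pos, h, by simpa using hh, h0⟩ }
  let φ : F'.S →ₐ[ℂ] F.S :=
    (((Polynomial.expand K k).restrictScalars ℂ).comp F'.S.val).codRestrict F.S (by
      intro p n
      show (Polynomial.expand K k (p : Polynomial K)).coeff n ∈ F.V n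
      rw [Polynomial.coeff_expand hk]
      split_ifs with hd
      · have := p.2 (n / k)
        change _ ∈ F.V (n / k * k) at this
        rwa [Nat.div_mul_cancel hd] at this
      · exact zero_mem _)
  have hφ : ∀ p : F'.S, (φ p : Polynomial K) = Polynomial.expand K k (p : Polynomial K) :=
    fun _ => rfl
  have hF' : F'.FG := by
    refine filtb_artin φ (fun p q e => ?_) hF ?_
    · have e' := congrArg Subtype.val e
      rw [hφ, hφ] at e'
      exact Subtype.ext (Polynomial.expand_injective hk e')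
    · refine F.filtb_induction (RingHom.isIntegralElem_zero _) (fun p q hp hq => hp.add _ hq) ?_
      intro l f hf
      have hp : f ^ k ∈ F'.V l := by
        have := F.pow_mem hf k
        rwa [mul_comm] at this
      refine ⟨Polynomial.X ^ k - Polynomial.C (F'.hom hp),
        Polynomial.monic_X_pow_sub_C _ hk.ne', ?_⟩
      rw [Polynomial.eval₂_sub, Polynomial.eval₂_X_pow, Polynomial.eval₂_C, sub_eq_zero]
      ext1
      show _ = (φ (F'.hom hp) : Polynomial K)
      rw [hφ]
      simp [hom, Polynomial.monomial_pow, Polynomial.expand_monomial]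
  refine F'.filtb_range hF' h⁻¹ _ (le_antisymm ?_ (Algebra.adjoin_le ?_))
  · rintro _ ⟨p, rfl⟩
    show F'.filtb_ev h⁻¹ p ∈ F.chart k h
    induction p using F'.filtb_induction with
    | h0 => rw [map_zero]; exact zero_mem _
    | hadd p q hp hq => rw [map_add]; exact add_mem hp hq
    | hhom n g hg =>
      rw [filtb_ev_hom]
      refine Algebra.subset_adjoin ⟨n, ?_⟩
      have e : h ^ n * (g * h⁻¹ ^ n) = g := by
        rw [inv_pow, mul_left_comm, mul_inv_cancel₀ (pow_ne_zero n h0), mul_one]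
      rw [e]
      exact hg
  · rintro f ⟨n, hn⟩
    refine ⟨F'.hom (k := n) hn, ?_⟩
    refine (F'.filtb_ev_hom (k := n) h⁻¹ hn).trans ?_
    rw [inv_pow, mul_right_comm, mul_inv_cancel₀ (pow_ne_zero n h0), one_mul]

theorem fg_of_gen (h0 : Algebra.FiniteType ℂ F.zero) (T : Set (ℕ × K)) (hT : T.Finite)
    (hm : ∀ p ∈ T, p.2 ∈ F.V p.1)
    (hgen : ∀ k, 0 < k → F.V k ≤ Submodule.span ℂ
      {f | ∃ p ∈ T, 0 < p.1 ∧ p.1 ≤ k ∧ ∃ b ∈ F.V (k - p.1), f = p.2 * b}) : F.FG := by
  obtain ⟨G0, hG0⟩ := (Subalgebra.fg_iff_finiteType F.zero).2 h0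
  let A : Subalgebra ℂ (Polynomial K) := Algebra.adjoin ℂ
    ((Polynomial.C '' (G0 : Set K)) ∪ (fun p : ℕ × K => Polynomial.monomial p.1 p.2) '' T)
  have key : ∀ k, ∀ f ∈ F.V k, Polynomial.monomial k f ∈ A := by
    intro k
    induction k using Nat.strong_induction_on with
    | _ k ih =>
    intro f hf
    rcases Nat.eq_zero_or_pos k with rfl | hk
    · have h1 : f ∈ Algebra.adjoin ℂ (G0 : Set K) := by rw [hG0]; exact hf
      have h2 : Algebra.adjoin ℂ (G0 : Set K) ≤ A.comap Polynomial.CAlgHom :=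
        Algebra.adjoin_le fun g hg => Algebra.subset_adjoin (Or.inl ⟨g, hg, rfl⟩)
      exact h2 h1
    · have h2 : Submodule.span ℂ
          {f | ∃ p ∈ T, 0 < p.1 ∧ p.1 ≤ k ∧ ∃ b ∈ F.V (k - p.1), f = p.2 * b} ≤
          A.toSubmodule.comap ((Polynomial.monomial k : K →ₗ[K] _).restrictScalars ℂ) := by
        refine Submodule.span_le.2 ?_
        rintro _ ⟨p, hp, h1, h2, b, hb, rfl⟩
        show Polynomial.monomial k (p.2 * b) ∈ A
        have e : Polynomial.monomial k (p.2 * b) =
            Polynomial.monomial p.1 p.2 * Polynomial.monomial (k - p.1) b := by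
          rw [Polynomial.monomial_mul_monomial, Nat.add_sub_cancel' h2]
        rw [e]
        exact A.mul_mem (Algebra.subset_adjoin (Or.inr ⟨p, hp, rfl⟩)) (ih _ (by omega) b hb)
      exact h2 (hgen k hk hf)
  have e : A = F.S := by
    refine le_antisymm (Algebra.adjoin_le ?_) fun p hp => ?_
    · rintro _ (⟨g, hg, rfl⟩ | ⟨p, hp, rfl⟩)
      · have h1 : g ∈ F.zero := by rw [← hG0]; exact Algebra.subset_adjoin hg
        exact (F.hom (k := 0) h1).2
      · exact (F.hom (hm p hp)).2
    · rw [Polynomial.as_sum_support p]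
      exact A.sum_mem fun k _ => key k _ (hp k)
  have hA : A.FG := Subalgebra.fg_def.2 ⟨_, (G0.finite_toSet.image _).union (hT.image _), rfl⟩
  rw [e] at hA
  exact (Subalgebra.fg_iff_finiteType F.S).1 hA

/-- Artin-Tate for the graded ring. -/
theorem FG.inv [Finite G] (hF : F.FG) (hV : ∀ g ∈ G, ∀ k, ∀ f ∈ F.V k, g f ∈ F.V k) (hp) :
    (F.inv G hp).FG := by
  classical
  have hle : (F.inv G hp).S ≤ F.S := fun p h k => (h k).1
  refine filtb_artin (Subalgebra.inclusion hle) (Subalgebra.inclusion_injective hle) hF ?_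
  intro p
  have _ := Fintype.ofFinite G
  have hsm : ∀ (g : G) (q : Polynomial K) (n : ℕ),
      (g • q).coeff n = (g : K ≃ₐ[ℂ] K) (q.coeff n) := fun g q n => Polynomial.coeff_smul _ _ _
  have h1 : MulSemiringAction.charpoly G (p : Polynomial K) ∈
      Polynomial.lifts F.S.val.toRingHom := by
    rw [MulSemiringAction.charpoly_eq]
    refine Subsemiring.prod_mem _ fun g _ => ?_
    refine ⟨Polynomial.X - Polynomial.C ⟨g • (p : Polynomial K), fun n => ?_⟩, by simp⟩
    rw [hsm]
    exact hV g g.2 n _ (p.2 n)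
  have h2 : MulSemiringAction.charpoly G (p : Polynomial K) ∈
      Polynomial.lifts (F.inv G hp).S.val.toRingHom := by
    rw [Polynomial.lifts_iff_coeff_lifts] at h1 ⊢
    intro n
    obtain ⟨c, hc⟩ := h1 n
    refine ⟨⟨c, fun l => ⟨c.2 l, fun g hg => ?_⟩⟩, hc⟩
    have h3 := MulSemiringAction.smul_coeff_charpoly (G := G) (p : Polynomial K) n ⟨g, hg⟩
    rw [← hc] at h3
    have h4 := congrArg (fun q => Polynomial.coeff q l) h3
    simp only [hsm] at h4
    exact h4
  obtain ⟨q, hq, -, hm⟩ := Polynomial.lifts_and_natDegree_eq_and_monic h2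
    (MulSemiringAction.monic_charpoly G _)
  refine ⟨q, hm, ?_⟩
  ext1
  have h5 := Polynomial.hom_eval₂ q (Subalgebra.inclusion hle).toRingHom F.S.val.toRingHom p
  refine h5.trans ?_
  have h6 : F.S.val.toRingHom.comp (Subalgebra.inclusion hle).toRingHom =
      (F.inv G hp).S.val.toRingHom := rfl
  rw [h6, ← Polynomial.eval_map, hq]
  exact MulSemiringAction.eval_charpoly (G := G) (p : Polynomial K)

end Pool.Agent.P.MP_63735c_ag.Ta.Filt
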