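import Pool.Agent.P.MP_63735c_ag.TaDefs

/-! Rational 2-forms on a finite quotient, through a frame upstairs and trace identities. -/

set_option linter.unusedSectionVars false

noncomputable section

namespace Pool.Agent.P.MP_63735c_ag.Ta

/-- Vector fields. -/
abbrev Der (K : Type) [Field K] [Algebra ℂ K] : Type := Derivation ℂ K K

section galois

variable {G K : Type} [Group G] [Field K] [MulSemiringAction G K]

/-- The derivation commutes with the group. -/
def InvD [Algebra ℂ K] (G : Type) [Group G] [MulSemiringAction G K] (D : Der K) : Prop :=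
  ∀ (g : G) z, g • D z = D (g • z)

open Classical in
/-- Galois coordinates. -/
def Chr (G : Type) [Group G] [MulSemiringAction G K] {n : ℕ} (x y : Fin n → K) : Prop :=
  ∀ g : G, ∑ k, x k * g • y k = if g = 1 then 1 else 0

variable [Fintype G] {n : ℕ} {x y : Fin n → K}

theorem Chr.sum {A : Type} [AddCommMonoid A] [Module K A] (h : Chr G x y) (a : G → A) :
    ∑ k, x k • ∑ g, (g • y k) • a g = a 1 := by
  classical
  simp only [Finset.smul_sum, smul_smul]
  rw [Finset.sum_comm]
  simp only [← Finset.sum_smul, h _]
  simp

omit [Fintype G] in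
theorem Chr.symm (h : Chr G x y) : Chr G y x := fun g => by
  have := congrArg (g • ·) (h g⁻¹)
  simp only [Finset.smul_sum, smul_mul', smul_inv_smul] at this
  simp only [mul_comm (y _), this]
  by_cases hg : g = 1 <;> simp [hg]

end galois

section main

variable {F K : Type} (G : Type) [Field F] [Field K] [Algebra ℂ F] [Algebra ℂ K] [Algebra F K]
  [IsScalarTower ℂ F K] [Group G] [Fintype G] [MulSemiringAction G K] [SMulCommClass G F K]
  [SMulCommClass G ℂ K] [Algebra.IsInvariant F K G]

include G in
theorem etale_of_inv : Algebra.FormallyEtale F K :=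
  have : CharZero F := charZero_of_injective_algebraMap (algebraMap ℂ F).injective
  have := Algebra.IsInvariant.isIntegral F K G
  .of_isSeparable F K

include G in
theorem exists_up (D : Der F) : ∃ D' : Der K, ∀ f, D' (algebraMap F K f) = algebraMap F K (D f) := by
  have := etale_of_inv (F := F) (K := K) G
  refine ⟨((KaehlerDifferential.isBaseChange_of_formallyEtale ℂ F K).lift
    ((Algebra.linearMap F K).comp D.liftKaehlerDifferential)).compDer
      (KaehlerDifferential.D ℂ K), fun f => ?_⟩
  change IsBaseChange.lift _ _ (KaehlerDifferential.D ℂ K _) = _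
  rw [← KaehlerDifferential.map_D ℂ ℂ F K, IsBaseChange.lift_eq]
  simp

include G in
theorem der_ext {D D' : Der K} (h : ∀ f, D (algebraMap F K f) = D' (algebraMap F K f)) : D = D' := by
  have := etale_of_inv (F := F) (K := K) G
  have e : D.liftKaehlerDifferential = D'.liftKaehlerDifferential :=
    (KaehlerDifferential.isBaseChange_of_formallyEtale ℂ F K).algHom_ext _ _ fun z => by
      have : (D.liftKaehlerDifferential.restrictScalars F).comp (KaehlerDifferential.map ℂ ℂ F K) =
          (D'.liftKaehlerDifferential.restrictScalars F).comp (KaehlerDifferential.map ℂ ℂ F K) :=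
        Derivation.liftKaehlerDifferential_unique _ _ (Derivation.ext fun f => by simpa using h f)
      exact LinearMap.congr_fun this z
  ext z
  rw [← D.liftKaehlerDifferential_comp_D, e, D'.liftKaehlerDifferential_comp_D]

variable (K) in
/-- The extension of a derivation to the Galois cover. -/
def up : Der F →ₗ[F] Der K where
  toFun D := (exists_up G D).choose
  map_add' D E := der_ext (F := F) G fun f => by
    rw [Derivation.add_apply, (exists_up G _).choose_spec, (exists_up G _).choose_spec,
      (exists_up G _).choose_spec, Derivation.add_apply, map_add]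
  map_smul' c D := der_ext (F := F) G fun f => by
    rw [Derivation.smul_apply, (exists_up G _).choose_spec, (exists_up G _).choose_spec,
      Derivation.smul_apply, smul_eq_mul, map_mul, Algebra.smul_def, RingHom.id_apply]

theorem up_apply (D : Der F) (f : F) : up K G D (algebraMap F K f) = algebraMap F K (D f) :=
  (exists_up G D).choose_spec f

theorem up_inj : Function.Injective (up K G : Der F → Der K) := fun D E h => by
  ext f
  apply (algebraMap F K).injective
  rw [← up_apply G, h, up_apply]

theorem up_lie (D E : Der F) : up K G ⁅D, E⁆ = ⁅up K G D, up K G E⁆ :=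
  der_ext (F := F) G fun f => by simp only [Derivation.commutator_apply, up_apply, map_sub]

variable {G}

/-- The conjugate of a derivation. -/
def conjD (g : G) (D : Der K) : Der K :=
  Derivation.mk'
    { toFun := fun z => g • D (g⁻¹ • z)
      map_add' := fun a b => by rw [smul_add, map_add, smul_add]
      map_smul' := fun c a => by rw [smul_comm, D.map_smul, smul_comm, RingHom.id_apply] }
    fun a b => by simp [smul_mul', smul_add]

omit [Fintype G] in
theorem conjD_apply (g : G) (D : Der K) (z : K) : conjD g D z = g • D (g⁻¹ • z) := rfl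

theorem conjD_up (g : G) (D : Der F) : conjD g (up K G D) = up K G D :=
  der_ext (F := F) G fun f => by rw [conjD_apply, smul_algebraMap, up_apply, smul_algebraMap]

theorem up_inv (D : Der F) : InvD G (up K G D) := fun g z => by
  conv_rhs => rw [← conjD_up g D, conjD_apply, inv_smul_smul]

theorem exists_down {D : Der K} (h : InvD G D) : ∃ E : Der F, up K G E = D := by
  choose e he using fun f : F => Algebra.IsInvariant.isInvariant (A := F) (G := G)
    (D (algebraMap F K f)) fun g => by rw [h, smul_algebraMap]
  have hi := (algebraMap F K).injective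
  refine ⟨Derivation.mk'
    { toFun := e
      map_add' := fun a b => hi (by rw [map_add, he, he, he, map_add, map_add])
      map_smul' := fun c a => hi (by
        rw [he, RingHom.id_apply, Algebra.smul_def, map_mul, ← IsScalarTower.algebraMap_apply,
          ← Algebra.smul_def, D.map_smul, Algebra.smul_def c (e a), map_mul, he,
          ← IsScalarTower.algebraMap_apply, Algebra.smul_def]) }
    fun a b => hi (by simp [he]), der_ext (F := F) G fun f => ?_⟩
  rw [up_apply]
  exact he f

variable (F G) in
theorem exists_tr (z : K) : ∃ f : F, algebraMap F K f = ∑ g : G, g • z :=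
  Algebra.IsInvariant.isInvariant _ fun g : G => by
    rw [Finset.smul_sum]
    exact Fintype.sum_equiv (Equiv.mulLeft g) _ _ fun h => (mul_smul g h z).symm

variable (F G) in
/-- The trace. -/
def tr (z : K) : F := (exists_tr F G z).choose

theorem tr_eq (z : K) : algebraMap F K (tr F G z) = ∑ g : G, g • z := (exists_tr F G z).choose_spec

variable (F G) in
theorem exists_trD (y : K) (D : Der K) :
    ∃ E : Der F, up K G E = ∑ g : G, (g • y) • conjD g D :=
  exists_down fun g z => by
    have ev : ∀ z, (∑ g : G, (g • y) • conjD g D) z = ∑ g : G, (g • y) * g • D (g⁻¹ • z) :=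
      fun z => by
        rw [← Derivation.coeFnAddMonoidHom_apply, map_sum, Finset.sum_apply]
        rfl
    rw [ev, ev, Finset.smul_sum]
    refine Fintype.sum_equiv (Equiv.mulLeft g) _ _ fun h => ?_
    simp [smul_mul', mul_smul]

variable (F G) in
/-- The trace of the vector field `y D`. -/
def trD (y : K) (D : Der K) : Der F := (exists_trD F G y D).choose

theorem up_trD (y : K) (D : Der K) : up K G (trD F G y D) = ∑ g : G, (g • y) • conjD g D :=
  (exists_trD F G y D).choose_spec

theorem trD_apply (y : K) (D : Der K) (f : F) :
    trD F G y D f = tr F G (y * D (algebraMap F K f)) := by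
  apply (algebraMap F K).injective
  rw [← up_apply G, up_trD, tr_eq, ← Derivation.coeFnAddMonoidHom_apply, map_sum, Finset.sum_apply]
  refine Finset.sum_congr rfl fun g _ => ?_
  change (g • y) * g • D (g⁻¹ • _) = _
  rw [smul_algebraMap, smul_mul']

theorem tr_add (a b : K) : tr F G (a + b) = tr F G a + tr F G b :=
  (algebraMap F K).injective (by simp [tr_eq, Finset.sum_add_distrib])

theorem tr_mul (f : F) (a : K) : tr F G (algebraMap F K f * a) = f * tr F G a :=
  (algebraMap F K).injective (by simp [tr_eq, Finset.mul_sum, smul_mul'])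

theorem tr_sum {ι : Type} (s : Finset ι) (a : ι → K) :
    tr F G (∑ i ∈ s, a i) = ∑ i ∈ s, tr F G (a i) :=
  (algebraMap F K).injective (by
    simp only [tr_eq, map_sum, Finset.smul_sum]
    exact Finset.sum_comm)

variable {n : ℕ} {x y : Fin n → K}

theorem Chr.expand (h : Chr G x y) (z : K) :
    ∑ k, x k * algebraMap F K (tr F G (y k * z)) = z := by
  simpa [tr_eq, smul_mul'] using h.sum fun g => g • z

theorem Chr.expandD (h : Chr G x y) (D : Der K) : ∑ k, x k • up K G (trD F G (y k) D) = D := by
  simp only [up_trD]
  rw [h.sum]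
  ext z
  simp [conjD_apply]

/-- Extension of a linear functional on the vector fields downstairs. -/
theorem Chr.functional (h : Chr G x y) (l : Der F →ₗ[F] K) {ι : Type} [Fintype ι] (a : ι → K)
    (d : ι → Der K) (D : Der F) (hD : up K G D = ∑ i, a i • d i) :
    l D = ∑ i, a i * ∑ k, x k * l (trD F G (y k) (d i)) := by
  have h1 : ∀ k, tr F G (y k) • D =
      ∑ i, ∑ j, tr F G (x j * (y k * a i)) • trD F G (y j) (d i) := fun k => by
    ext f
    have ev : ∀ {κ : Type} [Fintype κ] (E : κ → Der F), (∑ i, E i) f = ∑ i, E i f := fun E => by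
      rw [← Derivation.coeFnAddMonoidHom_apply, map_sum, Finset.sum_apply]
      rfl
    have h2 : algebraMap F K (D f) = ∑ i, a i * d i (algebraMap F K f) := by
      rw [← up_apply G, hD, ← Derivation.coeFnAddMonoidHom_apply, map_sum, Finset.sum_apply]
      rfl
    simp only [ev, Derivation.smul_apply, smul_eq_mul, trD_apply, ← tr_mul, ← tr_sum]
    rw [mul_comm, ← tr_mul, h2, Finset.sum_mul]
    refine congrArg _ (Finset.sum_congr rfl fun i _ => ?_)
    have h4 := congrArg (· * d i (algebraMap F K f)) (h.symm.expand (F := F) (y k * a i))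
    simp only [Finset.sum_mul] at h4
    rw [mul_comm _ (y k), ← mul_assoc, ← h4]
    exact Finset.sum_congr rfl fun j _ => by ring
  have h3 : l D = ∑ k, x k * l (tr F G (y k) • D) := by
    have := h.expand (F := F) 1
    simp only [mul_one] at this
    simp only [map_smul, Algebra.smul_def, ← mul_assoc, ← Finset.sum_mul, this, one_mul]
  rw [h3]
  simp only [h1, map_sum, map_smul, Algebra.smul_def, Finset.mul_sum]
  rw [Finset.sum_comm]
  refine Finset.sum_congr rfl fun i _ => ?_
  rw [Finset.sum_comm]
  refine Finset.sum_congr rfl fun j _ => ?_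
  simp only [← mul_assoc, ← Finset.sum_mul, mul_comm (x j) (y _)]
  simp only [mul_assoc (y _), h.expand, mul_comm (x j)]

theorem tr_mem {B : Subring K} (hB : ∀ (g : G), ∀ b ∈ B, g • b ∈ B) {z : K} (hz : z ∈ B) :
    algebraMap F K (tr F G z) ∈ B := by
  rw [tr_eq]
  exact sum_mem fun g _ => hB g z hz

/-- A derivation that keeps the invariants of a Galois ring keeps the ring. -/
theorem Chr.up_mem (h : Chr G x y) {B : Subring K} (hB : ∀ (g : G), ∀ b ∈ B, g • b ∈ B)
    (hx : ∀ k, x k ∈ B) (hy : ∀ k, y k ∈ B) {D : Der F}
    (hD : Tangent (B.comap (algebraMap F K)) D) {s : K} (hs : s ∈ B) : up K G D s ∈ B := by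
  have h0 : ∑ k, y k * x k = 1 := by simpa using h.symm 1
  have h1 : ∀ k, up K G D (x k * s) = ∑ l, (x l * algebraMap F K (D (tr F G (y l * (x k * s)))) +
      algebraMap F K (tr F G (y l * (x k * s))) * up K G D (x l)) := fun k => by
    conv_lhs => rw [← h.expand (F := F) (x k * s), map_sum]
    simp only [Derivation.leibniz, up_apply, smul_eq_mul]
  have h2 : ∑ k, y k * up K G D (x k * s) = up K G D s + s * ∑ k, y k * up K G D (x k) := by
    simp only [Derivation.leibniz, smul_eq_mul, mul_add, Finset.sum_add_distrib, ← mul_assoc,
      ← Finset.sum_mul, h0, one_mul, Finset.mul_sum, mul_comm (y _) s]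
  have h3 : ∑ k, y k * up K G D (x k * s) = ∑ k, y k * ∑ l,
      x l * algebraMap F K (D (tr F G (y l * (x k * s)))) + s * ∑ k, y k * up K G D (x k) := by
    simp only [h1, Finset.sum_add_distrib, mul_add]
    congr 1
    simp only [Finset.mul_sum]
    rw [Finset.sum_comm]
    refine Finset.sum_congr rfl fun l _ => ?_
    simp only [← mul_assoc, ← Finset.sum_mul, mul_comm (y l) (x _)]
    simp only [mul_assoc (x _), h.symm.expand, mul_comm (y l)]
  rw [← add_right_cancel (h3.symm.trans h2)]
  exact sum_mem fun k _ => mul_mem (hy k) (sum_mem fun l _ => mul_mem (hx l)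
    (hD _ (tr_mem hB (mul_mem (hy l) (mul_mem (hx k) hs)))))

end main

end Pool.Agent.P.MP_63735c_ag.Ta
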