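import Pool.Agent.P.MP_63735c_ag.TaForm

/-! The unique symplectic form of a finite quotient with a closed invariant frame upstairs. -/

set_option linter.unusedSectionVars false

noncomputable section

namespace Pool.Agent.P.MP_63735c_ag.Ta

theorem antisym_sum {K : Type} [Field K] [CharZero K] {c t : Fin 4 → Fin 4 → K}
    (hc : ∀ i j, c j i = -c i j) (ht : ∀ i j, t j i = t i j) : ∑ i, ∑ j, c i j * t i j = 0 := by
  have : ∑ i, ∑ j, c i j * t i j = -∑ i, ∑ j, c i j * t i j := by
    conv_lhs => rw [Finset.sum_comm]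
    simp only [← Finset.sum_neg_distrib]
    exact Finset.sum_congr rfl fun i _ => Finset.sum_congr rfl fun j _ => by
      rw [hc, ht, neg_mul]
  exact self_eq_neg.1 this

/-- A frame of vector fields with closed dual 1-forms. -/
structure Frame (K : Type) [Field K] [Algebra ℂ K] where
  d : Fin 4 → Der K
  w : Fin 4 → Der K →ₗ[K] K
  dual : ∀ i j, w i (d j) = if i = j then 1 else 0
  span : ∀ D, D = ∑ i, w i D • d i
  closed : ∀ i D E, w i ⁅D, E⁆ = D (w i E) - E (w i D)

namespace Frame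

variable {F K : Type} {G : Type} [Field F] [Field K] [Algebra ℂ F] [Algebra ℂ K] [Algebra F K]
  [IsScalarTower ℂ F K] [Group G] [Fintype G] [MulSemiringAction G K] [SMulCommClass G F K]
  [SMulCommClass G ℂ K] [Algebra.IsInvariant F K G] (Φ : Frame K)

variable (G) in
/-- A Galois ring upstairs on which the frame is regular. -/
structure Good (B : Subring K) : Prop where
  stab : ∀ (g : G), ∀ b ∈ B, g • b ∈ B
  const : ∀ c, algebraMap ℂ K c ∈ B
  chr : ∃ (n : ℕ) (x y : Fin n → K), (∀ k, x k ∈ B) ∧ (∀ k, y k ∈ B) ∧ Chr G x y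
  dmem : ∀ i, ∀ b ∈ B, Φ.d i b ∈ B
  wmem : ∀ D : Der K, (∀ b ∈ B, D b ∈ B) → ∀ i, Φ.w i D ∈ B

/-- The bilinear form with coefficients `c`. -/
def form (c : Fin 4 → Fin 4 → K) (D E : Der K) : K := ∑ i, ∑ j, c i j * (Φ.w i D * Φ.w j E)

theorem form_sum_left {ι : Type} [Fintype ι] (c : Fin 4 → Fin 4 → K) (a : ι → K) (D : ι → Der K)
    (E : Der K) : Φ.form c (∑ k, a k • D k) E = ∑ k, a k * Φ.form c (D k) E := by
  simp only [form, map_sum, map_smul, smul_eq_mul, Finset.mul_sum, Finset.sum_mul]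
  rw [Finset.sum_congr rfl fun i _ => Finset.sum_comm, Finset.sum_comm]
  exact Finset.sum_congr rfl fun k _ => Finset.sum_congr rfl fun i _ =>
    Finset.sum_congr rfl fun j _ => by ring

theorem form_sum_right {ι : Type} [Fintype ι] (c : Fin 4 → Fin 4 → K) (a : ι → K) (D : Der K)
    (E : ι → Der K) : Φ.form c D (∑ k, a k • E k) = ∑ k, a k * Φ.form c D (E k) := by
  simp only [form, map_sum, map_smul, smul_eq_mul, Finset.mul_sum]
  rw [Finset.sum_congr rfl fun i _ => Finset.sum_comm, Finset.sum_comm]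
  exact Finset.sum_congr rfl fun k _ => Finset.sum_congr rfl fun i _ =>
    Finset.sum_congr rfl fun j _ => by ring

theorem form_d_right (c : Fin 4 → Fin 4 → K) (D : Der K) (j : Fin 4) :
    Φ.form c D (Φ.d j) = ∑ i, c i j * Φ.w i D := by
  simp [form, Φ.dual]

theorem form_d (c : Fin 4 → Fin 4 → K) (i j : Fin 4) : Φ.form c (Φ.d i) (Φ.d j) = c i j := by
  simp [form_d_right, Φ.dual]

variable {n : ℕ} {x y : Fin n → K}

theorem coef_eq (h : Chr G x y) (c : Fin 4 → Fin 4 → K) (i j : Fin 4) :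
    c i j = ∑ k, x k * ∑ l, x l * Φ.form c (up K G (trD F G (y k) (Φ.d i)))
      (up K G (trD F G (y l) (Φ.d j))) := by
  simp only [← form_sum_right, h.expandD]
  rw [← form_sum_left, h.expandD, form_d]

theorem coef_unique (h : Chr G x y) {c c' : Fin 4 → Fin 4 → K}
    (e : ∀ D E : Der F, Φ.form c (up K G D) (up K G E) = Φ.form c' (up K G D) (up K G E)) :
    c = c' := by
  funext i j
  rw [Φ.coef_eq (F := F) h c, Φ.coef_eq (F := F) h c']
  simp only [e]

theorem exists_coef (h : Chr G x y) (ω : LinearMap.BilinForm F (Der F)) :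
    ∃ c, ∀ D E, algebraMap F K (ω D E) = Φ.form c (up K G D) (up K G E) := by
  refine ⟨fun i j => ∑ k, x k * ∑ l, x l *
    algebraMap F K (ω (trD F G (y k) (Φ.d i)) (trD F G (y l) (Φ.d j))), fun D E => ?_⟩
  have h1 := h.functional ((Algebra.linearMap F K).comp (ω.flip E)) _ _ D (Φ.span _)
  have h2 := fun D' => h.functional ((Algebra.linearMap F K).comp (ω D')) _ _ E (Φ.span _)
  simp only [LinearMap.comp_apply, Algebra.linearMap_apply, LinearMap.BilinForm.flip_apply] at h1 h2
  rw [h1, form]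
  refine Finset.sum_congr rfl fun i _ => ?_
  conv_lhs => simp only [fun k => h2 (trD F G (y k) (Φ.d i))]
  simp only [Finset.mul_sum, Finset.sum_mul]
  rw [Finset.sum_comm]
  exact Finset.sum_congr rfl fun j _ => Finset.sum_congr rfl fun k _ =>
    Finset.sum_congr rfl fun l _ => by ring

theorem smul_form {M : G → Fin 4 → Fin 4 → ℂ}
    (hM : ∀ g D, InvD G D → ∀ i, g • Φ.w i D = ∑ k, algebraMap ℂ K (M g i k) * Φ.w k D)
    (c : Fin 4 → Fin 4 → ℂ) (g : G) {D E : Der K} (hD : InvD G D) (hE : InvD G E) :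
    g • Φ.form (fun i j => algebraMap ℂ K (c i j)) D E =
      Φ.form (fun a b => algebraMap ℂ K (∑ i, ∑ j, c i j * (M g i a * M g j b))) D E := by
  simp only [form, Finset.smul_sum, smul_mul', smul_algebraMap, hM g D hD, hM g E hE, map_sum,
    map_mul, Finset.mul_sum, Finset.sum_mul]
  rw [Finset.sum_congr rfl fun i _ => Finset.sum_comm, Finset.sum_comm]
  conv_rhs => rw [Finset.sum_comm]
  refine Finset.sum_congr rfl fun b _ => ?_
  rw [Finset.sum_congr rfl fun i _ => Finset.sum_comm, Finset.sum_comm]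
  exact Finset.sum_congr rfl fun a _ => Finset.sum_congr rfl fun i _ =>
    Finset.sum_congr rfl fun j _ => by ring

variable {Φ}

theorem Good.tangent {B : Subring K} (h : Φ.Good G B) {y : K} (hy : y ∈ B) (i : Fin 4) :
    Tangent (B.comap (algebraMap F K)) (trD F G y (Φ.d i)) := fun f hf => by
  rw [trD_apply]
  exact tr_mem h.stab (mul_mem hy (h.dmem i _ hf))

theorem Good.w_mem {B : Subring K} (h : Φ.Good G B) {D : Der F}
    (hD : Tangent (B.comap (algebraMap F K)) D) (i : Fin 4) : Φ.w i (up K G D) ∈ B := by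
  obtain ⟨n, x, y, hx, hy, hc⟩ := h.chr
  exact h.wmem _ (fun b hb => hc.up_mem h.stab hx hy hD hb) i

variable (Φ)

theorem closed_form {c : Fin 4 → Fin 4 → ℂ} (hc : ∀ i j, c j i = -c i j) (A B C : Der K) :
    A (Φ.form (fun i j => algebraMap ℂ K (c i j)) B C) -
      B (Φ.form (fun i j => algebraMap ℂ K (c i j)) A C) +
      C (Φ.form (fun i j => algebraMap ℂ K (c i j)) A B) -
      Φ.form (fun i j => algebraMap ℂ K (c i j)) ⁅A, B⁆ C +
      Φ.form (fun i j => algebraMap ℂ K (c i j)) ⁅A, C⁆ B -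
      Φ.form (fun i j => algebraMap ℂ K (c i j)) ⁅B, C⁆ A = 0 := by
  have : CharZero K := charZero_of_injective_algebraMap (algebraMap ℂ K).injective
  rw [← antisym_sum (c := fun i j => algebraMap ℂ K (c i j))
    (t := fun i j => Φ.w i B * A (Φ.w j C) + A (Φ.w i C) * Φ.w j B - Φ.w i A * B (Φ.w j C) -
      B (Φ.w i C) * Φ.w j A + Φ.w i A * C (Φ.w j B) + C (Φ.w i B) * Φ.w j A)
    (fun i j => by rw [hc, map_neg]) fun i j => by ring]
  simp only [form, map_sum, Derivation.leibniz, Derivation.map_algebraMap, Φ.closed, smul_eq_mul,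
    ← Finset.sum_add_distrib, ← Finset.sum_sub_distrib]
  exact Finset.sum_congr rfl fun i _ => Finset.sum_congr rfl fun j _ => by ring

theorem uniqueSymplectic (M : G → Fin 4 → Fin 4 → ℂ)
    (hM : ∀ g D, InvD G D → ∀ i, g • Φ.w i D = ∑ k, algebraMap ℂ K (M g i k) * Φ.w k D)
    (J J' : Fin 4 → Fin 4 → ℂ) (hJ : ∀ i j, J j i = -J i j)
    (hJ' : ∀ i k, ∑ j, J i j * J' j k = if i = k then 1 else 0)
    (hinv : ∀ g a b, ∑ i, ∑ j, J i j * (M g i a * M g j b) = J a b)
    (huniq : ∀ c : Fin 4 → Fin 4 → ℂ, (∀ i j, c j i = -c i j) →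
      (∀ g a b, ∑ i, ∑ j, c i j * (M g i a * M g j b) = c a b) → ∃ t, ∀ i j, c i j = t * J i j)
    (h0 : ∃ B, Φ.Good G B) (S : Set (Subring F))
    (h1 : ∀ O ∈ S, ∃ B : Subring K, O = B.comap (algebraMap F K) ∧
      (IsLocalRing O ∧ Φ.Good G B ∨ (∀ c, algebraMap ℂ K c ∈ B) ∧ ∀ D, Tangent O D →
        (∀ i, Φ.w i (up K G D) ∈ B) ∧ ∀ f ∈ O, ∀ u ∈ O, D f * u ≠ 1))
    (h2 : ∀ z, (∀ B, Φ.Good G B → B.comap (algebraMap F K) ∈ S → z ∈ B) →
      ∃ c, z = algebraMap ℂ K c) : UniqueSymplectic S := by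
  have : CharZero K := charZero_of_injective_algebraMap (algebraMap ℂ K).injective
  have hi := (algebraMap F K).injective
  have hc := (algebraMap ℂ K).injective
  obtain ⟨B0, n0, x0, y0, -, -, c0⟩ : ∃ B : Subring K, ∃ (n : ℕ) (x y : Fin n → K),
    (∀ k, x k ∈ B) ∧ (∀ k, y k ∈ B) ∧ Chr G x y := h0.imp fun B h => h.chr
  choose s hs using fun D E : Der F => Algebra.IsInvariant.isInvariant (A := F) (G := G)
    (Φ.form (fun i j => algebraMap ℂ K (J i j)) (up K G D) (up K G E)) fun g => by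
      rw [Φ.smul_form hM J g (up_inv D) (up_inv E)]
      simp only [hinv]
  let σ : LinearMap.BilinForm F (Der F) := LinearMap.mk₂ F s
    (fun a b c => hi (by simp [hs, form, add_mul, mul_add, Finset.sum_add_distrib]))
    (fun a b c => hi (by
      simp only [hs, form, map_smul, smul_eq_mul, map_mul, ← algebraMap_smul K a, Finset.mul_sum]
      exact Finset.sum_congr rfl fun i _ => Finset.sum_congr rfl fun j _ => by ring))
    (fun a b c => hi (by simp [hs, form, mul_add, Finset.sum_add_distrib]))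
    (fun a b c => hi (by
      simp only [hs, form, map_smul, smul_eq_mul, map_mul, ← algebraMap_smul K a, Finset.mul_sum]
      exact Finset.sum_congr rfl fun i _ => Finset.sum_congr rfl fun j _ => by ring))
  have hσ : ∀ D E, algebraMap F K (σ D E) =
    Φ.form (fun i j => algebraMap ℂ K (J i j)) (up K G D) (up K G E) := hs
  have reg : ∀ B, Φ.Good G B → RegAt (B.comap (algebraMap F K)) σ := fun B h D E hD hE => by
    rw [Subring.mem_comap, hσ]
    exact sum_mem fun i _ => sum_mem fun j _ =>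
      mul_mem (h.const _) (mul_mem (h.w_mem hD i) (h.w_mem hE j))
  have reg' : ∀ O ∈ S, RegAt O σ ∧ ∀ c, algebraMap ℂ F c ∈ O := fun O hO => by
    obtain ⟨B, rfl, h | h⟩ := h1 O hO
    · exact ⟨reg B h.2, fun c => by
        rw [Subring.mem_comap, ← IsScalarTower.algebraMap_apply]
        exact h.2.const _⟩
    · refine ⟨fun D E hD hE => ?_, fun c => by
        rw [Subring.mem_comap, ← IsScalarTower.algebraMap_apply]
        exact h.1 _⟩
      rw [Subring.mem_comap, hσ]
      exact sum_mem fun i _ => sum_mem fun j _ =>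
        mul_mem (h.1 _) (mul_mem ((h.2 D hD).1 i) ((h.2 E hE).1 j))
  refine ⟨σ, fun h => ?_, fun A B C => hi ?_, fun O hO D hD ⟨f, hf, u, hu, hfu⟩ => ?_,
    fun ω => ⟨fun ⟨ha, hr⟩ => ?_, ?_⟩⟩
  · have e := Φ.coef_unique (F := F) c0 (c := fun i j => algebraMap ℂ K (J i j))
      (c' := fun _ _ => 0) fun D E => by
        rw [← hσ, h]
        simp [form]
    have e1 : ∀ j, J 0 j = 0 := fun j => hc ((congrFun (congrFun e 0) j).trans (map_zero _).symm)
    simpa [e1] using hJ' 0 0
  · simp only [map_sub, map_add, ← up_apply G, hσ, up_lie, map_zero]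
    exact Φ.closed_form hJ _ _ _
  · obtain ⟨B, rfl, ⟨_, h⟩ | h⟩ := h1 O hO
    swap
    · exact absurd hfu ((h.2 D hD).2 f hf u hu)
    obtain ⟨n, x, y, hx, hy, hxy⟩ := h.chr
    by_contra hn
    let a : Fin 4 × Fin n → B.comap (algebraMap F K) := fun p =>
      ⟨σ D (trD F G (y p.2) (Φ.d p.1)), reg B h _ _ hD (h.tangent (hy _) _)⟩
    have ha : ∀ p, a p ∈ IsLocalRing.maximalIdeal _ := fun p hp => by
      obtain ⟨v, hv⟩ := hp.exists_right_inv
      exact hn ⟨_, h.tangent (hy _) _, v, v.2, congrArg Subtype.val hv⟩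
    let b : Fin 4 × Fin n → K := fun p => x p.2 * ∑ i, algebraMap ℂ K (J' p.1 i) *
      (Φ.d i (algebraMap F K f) * algebraMap F K u)
    have hb : ∀ p, b p ∈ B := fun p => mul_mem (hx _) (sum_mem fun i _ =>
      mul_mem (h.const _) (mul_mem (h.dmem i _ hf) hu))
    have e1 : ∀ j, ∑ k, x k * algebraMap F K (a (j, k)) =
        ∑ i, algebraMap ℂ K (J i j) * Φ.w i (up K G D) := fun j => by
      simp only [a, hσ]
      rw [← form_sum_right, hxy.expandD, form_d_right]
    have e2 : ∑ p, algebraMap F K (a p) * b p = 1 := by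
      have e3 : up K G D (algebraMap F K f) = ∑ i, Φ.w i (up K G D) * Φ.d i (algebraMap F K f) := by
        conv_lhs => rw [Φ.span (up K G D), ← Derivation.coeFnAddMonoidHom_apply, map_sum,
          Finset.sum_apply]
        rfl
      have e4 : ∀ i k, ∑ j, algebraMap ℂ K (J i j) * algebraMap ℂ K (J' j k) =
          if i = k then 1 else 0 := fun i k => by
        simp only [← map_mul, ← map_sum, hJ']
        split_ifs <;> simp
      rw [← map_one (algebraMap F K), ← hfu, map_mul, ← up_apply G, e3, Fintype.sum_prod_type]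
      simp only [b, ← mul_assoc, ← Finset.sum_mul, mul_comm _ (x _), e1]
      simp only [Finset.sum_mul, Finset.mul_sum]
      rw [Finset.sum_comm]
      refine Finset.sum_congr rfl fun i _ => ?_
      rw [Finset.sum_comm]
      have e5 : ∀ k, ∑ j, algebraMap ℂ K (J k j) * Φ.w k (up K G D) *
          (algebraMap ℂ K (J' j i) * Φ.d i (algebraMap F K f)) * algebraMap F K u =
          (if k = i then 1 else 0) * (Φ.w k (up K G D) * Φ.d i (algebraMap F K f) *
            algebraMap F K u) := fun k => by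
        rw [← e4, Finset.sum_mul]
        exact Finset.sum_congr rfl fun j _ => by ring
      simp [e5]
    have e6 : ∑ p, a p * ⟨tr F G (b p), tr_mem h.stab (hb p)⟩ = (Fintype.card G : ℕ) := by
      apply Subtype.ext
      apply hi
      have := tr_eq (F := F) (G := G) (1 : K)
      rw [← e2, tr_sum] at this
      simpa [tr_mul, e2] using this
    have e7 : ((Fintype.card G : ℕ) : B.comap (algebraMap F K)) ∈ IsLocalRing.maximalIdeal _ :=
      e6 ▸ Ideal.sum_mem _ fun p _ => Ideal.mul_mem_right _ _ (ha p)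
    refine e7 (IsUnit.of_mul_eq_one ⟨algebraMap ℂ F (Fintype.card G : ℂ)⁻¹, ?_⟩ (Subtype.ext ?_))
    · rw [Subring.mem_comap, ← IsScalarTower.algebraMap_apply]
      exact h.const _
    · change ((Fintype.card G : ℕ) : F) * _ = 1
      rw [← map_natCast (algebraMap ℂ F), ← map_mul,
        mul_inv_cancel₀ (Nat.cast_ne_zero.2 Fintype.card_ne_zero), map_one]
  · obtain ⟨c, hcω⟩ := Φ.exists_coef c0 ω
    choose c' hc' using fun i j => h2 (c i j) fun B h hB => by
      obtain ⟨n, x, y, hx, hy, hxy⟩ := h.chr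
      rw [Φ.coef_eq (F := F) hxy c]
      refine sum_mem fun k _ => mul_mem (hx k) (sum_mem fun l _ => mul_mem (hx l) ?_)
      rw [← hcω]
      exact hr _ hB _ _ (h.tangent (hy k) i) (h.tangent (hy l) j)
    obtain rfl : c = fun i j => algebraMap ℂ K (c' i j) := funext₂ hc'
    have a1 := Φ.coef_unique (F := F) c0 (c := fun i j => algebraMap ℂ K (c' j i))
      (c' := fun i j => algebraMap ℂ K (-c' i j)) fun D E => by
        have e1 := hcω E D
        rw [← ha.neg_eq, map_neg, hcω, neg_eq_iff_eq_neg] at e1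
        simp only [form, map_neg, neg_mul, Finset.sum_neg_distrib] at e1 ⊢
        rw [e1, neg_neg, Finset.sum_comm]
        simp only [mul_comm (Φ.w _ (up K G D))]
    have a2 := fun g => Φ.coef_unique (F := F) c0
      (c := fun a b => algebraMap ℂ K (∑ i, ∑ j, c' i j * (M g i a * M g j b)))
      (c' := fun i j => algebraMap ℂ K (c' i j)) fun D E => by
        rw [← Φ.smul_form hM c' g (up_inv D) (up_inv E), ← hcω, smul_algebraMap]
    obtain ⟨t, ht⟩ := huniq c' (fun i j => hc (congrFun (congrFun a1 i) j))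
      fun g a b => hc (congrFun (congrFun (a2 g) a) b)
    refine ⟨t, LinearMap.ext₂ fun D E => hi ?_⟩
    rw [hcω, LinearMap.smul_apply, LinearMap.smul_apply, smul_eq_mul, map_mul, hσ,
      ← IsScalarTower.algebraMap_apply]
    simp only [form, ht, map_mul, Finset.mul_sum, mul_assoc]
  · rintro ⟨t, rfl⟩
    refine ⟨fun D => hi ?_, fun O hO D E hD hE => ?_⟩
    · rw [LinearMap.smul_apply, LinearMap.smul_apply, smul_eq_mul, map_mul, hσ, map_zero, form,
        antisym_sum (fun i j => by rw [hJ, map_neg]) fun i j => mul_comm _ _, mul_zero]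
    · exact mul_mem ((reg' O hO).2 t) ((reg' O hO).1 D E hD hE)

end Frame

end Pool.Agent.P.MP_63735c_ag.Ta
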