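import Pool.Agent.P.MP_63735c_ag.TaEllB

/-! The group of order 16 and the diagonal groups. -/

noncomputable section

namespace Pool.Agent.P.MP_63735c_ag.Ta

variable {K : Type} [Field K] [Algebra ℂ K] {x y : Fin 4 → K} {g g' : K ≃ₐ[ℂ] K} {s s' : Bool}
  {c e c' e' : Fin 4 → ℂ}

/-- The identity or the permutation `(0 2)(1 3)`. -/
def sw (s : Bool) (i : Fin 4) : Fin 4 := if s then i + 2 else i

/-- The sign of `s`. -/
def sg (s : Bool) : ℂ := if s then -1 else 1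

/-- `g` is the monomial automorphism with data `s`, `c`, `e`. -/
structure Act (x y : Fin 4 → K) (g : K ≃ₐ[ℂ] K) (s : Bool) (c e : Fin 4 → ℂ) : Prop where
  c4 : ∀ i, c i ^ 4 = 1
  e2 : ∀ i, e i ^ 2 = 1
  ax : ∀ i, g (x i) = c i • x (sw s i)
  ay : ∀ i, g (y i) = e i • y (sw s i)

theorem grp_sw_sw (s s' : Bool) (i : Fin 4) : sw s (sw s' i) = sw (xor s s') i := by
  revert s s' i
  decide

theorem grp_sw_inv (s : Bool) (i : Fin 4) : sw s (sw s i) = i := by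
  revert s i
  decide

theorem grp_sw_false (i : Fin 4) : sw false i = i := rfl

theorem act_one : Act x y 1 false 1 1 := by
  refine ⟨fun i => ?_, fun i => ?_, fun i => ?_, fun i => ?_⟩ <;> simp [sw]

theorem Act.mul (h : Act x y g s c e) (h' : Act x y g' s' c' e') :
    Act x y (g * g') (xor s s') (fun i => c' i * c (sw s' i)) fun i => e' i * e (sw s' i) := by
  refine ⟨fun i => ?_, fun i => ?_, fun i => ?_, fun i => ?_⟩
  · rw [mul_pow, h'.c4, h.c4, mul_one]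
  · rw [mul_pow, h'.e2, h.e2, mul_one]
  · rw [AlgEquiv.mul_apply, h'.ax, map_smul, h.ax, smul_smul, grp_sw_sw]
  · rw [AlgEquiv.mul_apply, h'.ay, map_smul, h.ay, smul_smul, grp_sw_sw]

theorem Act.inv (h : Act x y g s c e) :
    Act x y g⁻¹ s (fun i => c (sw s i) ^ 3) fun i => e (sw s i) := by
  have k : ∀ z, g (g⁻¹ z) = z := fun z => g.apply_symm_apply z
  refine ⟨fun i => ?_, fun i => h.e2 _, fun i => g.injective ?_, fun i => g.injective ?_⟩
  · rw [← pow_mul, mul_comm, pow_mul, h.c4, one_pow]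
  · rw [k, map_smul, h.ax, smul_smul, grp_sw_inv, ← pow_succ, h.c4, one_smul]
  · rw [k, map_smul, h.ay, smul_smul, grp_sw_inv, ← pow_two, h.e2, one_smul]

/-- The group `G` of order 16. -/
def GG (x y : Fin 4 → K) : Subgroup (K ≃ₐ[ℂ] K) where
  carrier := {g | ∃ s c e, Act x y g s c e ∧ c 1 = c 0 ∧ c 3 = c 2 ∧ e 1 = e 0 ∧ e 3 = e 2 ∧
    c 0 * c 2 = sg s ∧ e 0 * e 2 = sg s}
  one_mem' := ⟨false, 1, 1, act_one, rfl, rfl, rfl, rfl, by simp [sg], by simp [sg]⟩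
  mul_mem' := by
    rintro g g' ⟨s, c, e, h, h1, h2, h3, h4, h5, h6⟩ ⟨s', c', e', h', k1, k2, k3, k4, k5, k6⟩
    refine ⟨_, _, _, h.mul h', ?_⟩
    have a1 : (1 : Fin 4) + 2 = 3 := rfl
    have a2 : (2 : Fin 4) + 2 = 0 := rfl
    have a3 : (3 : Fin 4) + 2 = 1 := rfl
    cases s <;> cases s' <;> simp [sw, sg, a1, a2, a3, h1, h2, h3, h4, k1, k2, k3, k4] at * <;>
      constructor <;> grind
  inv_mem' := by
    rintro g ⟨s, c, e, h, h1, h2, h3, h4, h5, h6⟩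
    refine ⟨_, _, _, h.inv, ?_⟩
    have a1 : (1 : Fin 4) + 2 = 3 := rfl
    have a2 : (2 : Fin 4) + 2 = 0 := rfl
    have a3 : (3 : Fin 4) + 2 = 1 := rfl
    cases s <;> simp [sw, sg, a1, a2, a3, h1, h2, h3, h4] at * <;> constructor <;> grind

/-- The diagonal automorphisms with data in `P`. -/
def dg (x y : Fin 4 → K) (P : Submonoid ((Fin 4 → ℂ) × (Fin 4 → ℂ))) : Subgroup (K ≃ₐ[ℂ] K) where
  carrier := {g | ∃ c e, Act x y g false c e ∧ (c, e) ∈ P}
  one_mem' := ⟨1, 1, act_one, P.one_mem⟩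
  mul_mem' := by
    rintro g g' ⟨c, e, h, h1⟩ ⟨c', e', h', h2⟩
    exact ⟨_, _, h.mul h', P.mul_mem h2 h1⟩
  inv_mem' := by
    rintro g ⟨c, e, h, h1⟩
    refine ⟨_, _, h.inv, ?_⟩
    refine Eq.mp (congrArg (· ∈ P) (Eq.symm ?_)) (P.pow_mem h1 3)
    ext i
    · simp [sw]
    · have := h.e2 i
      simp only [sw, Prod.pow_snd, Pi.pow_apply]
      grind

/-- `c = (ζ, ζ, ζ⁻¹, ζ⁻¹)` with `ζ ^ n = 1`. -/
def Pc (n : ℕ) : Submonoid ((Fin 4 → ℂ) × (Fin 4 → ℂ)) where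
  carrier := {p | p.1 1 = p.1 0 ∧ p.1 3 = p.1 2 ∧ p.1 0 * p.1 2 = 1 ∧ p.1 0 ^ n = 1}
  one_mem' := by simp
  mul_mem' := by
    rintro p q ⟨h1, h2, h3, h4⟩ ⟨k1, k2, k3, k4⟩
    simp only [Set.mem_ofPred_eq, Prod.fst_mul, Pi.mul_apply, h1, h2, k1, k2, mul_pow, h4, k4]
    exact ⟨trivial, trivial, by rw [mul_mul_mul_comm, h3, k3, mul_one], mul_one 1⟩

/-- `e = (η, η, η, η)`. -/
def Pe : Submonoid ((Fin 4 → ℂ) × (Fin 4 → ℂ)) where
  carrier := {p | ∀ i, p.2 i = p.2 0}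
  one_mem' := by simp
  mul_mem' := fun {p q} hp hq i => by simp only [Prod.snd_mul, Pi.mul_apply, hp i, hq i]

/-- The automorphisms that fix the coordinates `ww ε`. -/
def Pw (ε : Fin 4 → Bool) : Submonoid ((Fin 4 → ℂ) × (Fin 4 → ℂ)) where
  carrier := {p | ∀ i, p.2 i = if ε i then p.1 i ^ 2 else 1}
  one_mem' := by simp
  mul_mem' := fun {p q} hp hq i => by
    simp only [Prod.snd_mul, Prod.fst_mul, Pi.mul_apply, hp i, hq i]
    split_ifs <;> simp [mul_pow]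

/-- The subgroup `N` of index two. -/
abbrev NN (x y : Fin 4 → K) : Subgroup (K ≃ₐ[ℂ] K) := dg x y (Pc 4 ⊓ Pe)

theorem grp_conj (h : Act x y g s c e) (h' : Act x y g' false c' e') :
    Act x y (g * g' * g⁻¹) false (fun i => c' (sw s i)) fun i => e' (sw s i) := by
  have k := (h.mul h').mul h.inv
  have e1 : xor (xor s false) s = false := by cases s <;> rfl
  have e2 : (fun i => c (sw s i) ^ 3 * (c' (sw s i) * c (sw false (sw s i)))) =
      fun i => c' (sw s i) := by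
    funext i
    rw [grp_sw_false]
    linear_combination c' (sw s i) * h.c4 (sw s i)
  have e3 : (fun i => e (sw s i) * (e' (sw s i) * e (sw false (sw s i)))) =
      fun i => e' (sw s i) := by
    funext i
    rw [grp_sw_false]
    linear_combination e' (sw s i) * h.e2 (sw s i)
  rw [e1, e2, e3] at k
  exact k

theorem grp_ne_zero {z : ℂ} {n : ℕ} (h : z ^ (n + 1) = 1) : z ≠ 0 := by
  rintro rfl
  simp at h

theorem grp_roots (n : ℕ) : {z : ℂ | z ^ (n + 1) = 1}.Finite :=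
  (Polynomial.nthRoots (n + 1) (1 : ℂ)).finite_toSet.subset fun _ hz =>
    (Polynomial.mem_nthRoots n.succ_pos).2 hz

theorem Ell.exists_act (h : Ell x y) (s : Bool) (hc : ∀ i, c i ^ 4 = 1) (he : ∀ i, e i ^ 2 = 1) :
    ∃ g, Act x y g s c e := by
  obtain ⟨g, h1, h2⟩ := h.exists_aut
    (h.perm (Function.Involutive.toPerm (sw s) (grp_sw_inv s)) c e hc he)
  exact ⟨g, hc, he, h1, h2⟩

theorem Ell.act_ext (h : Ell x y) (h1 : Act x y g s c e) (h2 : Act x y g' s c e) : g = g' := by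
  exact h.hom_ext (fun i => by rw [h1.ax, h2.ax]) fun i => by rw [h1.ay, h2.ay]

theorem Ell.act_unique (h : Ell x y) (h1 : Act x y g s c e) (h2 : Act x y g s' c' e') :
    s = s' ∧ c = c' ∧ e = e' := by
  have k := h.algInd_t.linearIndependent.eq_of_smul_apply_eq_smul_apply _ _ _ _
    (grp_ne_zero (h1.c4 0)) ((h1.ax 0).symm.trans (h2.ax 0))
  have hs : s = s' := by
    revert k
    cases s <;> cases s' <;> decide
  subst hs
  refine ⟨rfl, funext fun i => ?_, funext fun i => ?_⟩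
  · exact smul_left_injective ℂ (h.t_ne _) ((h1.ax i).symm.trans (h2.ax i))
  · exact smul_left_injective ℂ (h.w_ne _) ((h1.ay i).symm.trans (h2.ay i))

theorem grp_finite (h : Ell x y) : {g : K ≃ₐ[ℂ] K | ∃ s c e, Act x y g s c e}.Finite := by
  have h1 : {c : Fin 4 → ℂ | ∀ i, c i ∈ {z : ℂ | z ^ (3 + 1) = 1}}.Finite :=
    Set.Finite.pi' fun _ => grp_roots 3
  have h2 : {c : Fin 4 → ℂ | ∀ i, c i ∈ {z : ℂ | z ^ (1 + 1) = 1}}.Finite :=
    Set.Finite.pi' fun _ => grp_roots 1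
  have h3 := (Set.finite_univ (α := Bool)).prod (h1.prod h2)
  refine (h3.biUnion (t := fun p => {g | Act x y g p.1 p.2.1 p.2.2}) fun p _ =>
    Set.Subsingleton.finite fun g hg g' hg' => h.act_ext hg hg').subset ?_
  rintro g ⟨s, c, e, hg⟩
  exact Set.mem_biUnion (x := (s, c, e)) ⟨Set.mem_univ _, hg.c4, hg.e2⟩ hg

theorem Ell.finite_GG (h : Ell x y) : Finite (GG x y) := by
  exact ((grp_finite h).subset fun g ⟨s, c, e, hg, _⟩ => ⟨s, c, e, hg⟩ :
    (GG x y : Set (K ≃ₐ[ℂ] K)).Finite).to_subtype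

theorem Ell.finite_dg (h : Ell x y) (P) : Finite (dg x y P) := by
  exact ((grp_finite h).subset fun g ⟨c, e, hg, _⟩ => ⟨false, c, e, hg⟩ :
    (dg x y P : Set (K ≃ₐ[ℂ] K)).Finite).to_subtype

theorem dg_mono {P Q} (h : P ≤ Q) : dg x y P ≤ dg x y Q := by
  rintro g ⟨c, e, h1, h2⟩
  exact ⟨c, e, h1, h h2⟩

/-- Subgroups of `N` are normal in `G` when their data are symmetric. -/
theorem normalIn_dg {P} (h1 : P ≤ Pc 4 ⊓ Pe)
    (h2 : ∀ p ∈ P, (fun i => p.1 (i + 2), fun i => p.2 (i + 2)) ∈ P) :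
    NormalIn (dg x y P) (GG x y) := by
  constructor
  · rintro g ⟨c, e, hg, hp⟩
    obtain ⟨⟨k1, k2, k3, -⟩, k4⟩ := h1 hp
    have k5 : ∀ i, e i = e 0 := k4
    refine ⟨false, c, e, hg, k1, k2, k5 1, (k5 3).trans (k5 2).symm, k3, ?_⟩
    rw [k5 2, ← pow_two, hg.e2]
    rfl
  · rintro g ⟨s, c, e, hg, -⟩ g' ⟨c', e', hg', hp⟩
    refine ⟨_, _, grp_conj hg hg', ?_⟩
    cases s
    · exact hp
    · exact h2 _ hp

theorem normalIn_dg_dg {P Q} (h : P ≤ Q) : NormalIn (dg x y P) (dg x y Q) := by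
  refine ⟨dg_mono h, ?_⟩
  rintro g ⟨c, e, hg, -⟩ g' ⟨c', e', hg', hp⟩
  exact ⟨_, _, grp_conj hg hg', hp⟩

theorem Ell.mem_NN (h : Ell x y) (hg : g ∈ GG x y) (ha : Act x y g s c e) :
    g ∈ NN x y ↔ s = false := by
  constructor
  · rintro ⟨c', e', h1, -⟩
    exact (h.act_unique ha h1).1
  · rintro rfl
    obtain ⟨s', c', e', h1, k1, k2, k3, k4, k5, k6⟩ := hg
    obtain ⟨rfl, rfl, rfl⟩ := h.act_unique ha h1
    have k7 : e 2 = e 0 := by
      have k8 : e 0 * e 2 = 1 := k6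
      linear_combination e 0 * k8 - e 2 * ha.e2 0
    refine ⟨c, e, ha, ⟨k1, k2, k5, ha.c4 0⟩, fun i => ?_⟩
    show e i = e 0
    fin_cases i
    · rfl
    · exact k3
    · exact k7
    · exact k4.trans k7

theorem Ell.exists_not_mem_NN (h : Ell x y) : ∃ g ∈ GG x y, g ∉ NN x y := by
  obtain ⟨g, hg⟩ := h.exists_act (c := ![1, 1, -1, -1]) (e := ![1, 1, -1, -1]) true
    (fun i => by fin_cases i <;> norm_num) fun i => by fin_cases i <;> norm_num
  have h1 : g ∈ GG x y := ⟨true, _, _, hg, rfl, rfl, rfl, rfl, by simp [sg], by simp [sg]⟩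
  exact ⟨g, h1, fun h2 => Bool.noConfusion ((h.mem_NN h1 hg).1 h2)⟩

theorem Ell.mul_mem_NN (h : Ell x y) (hg : g ∈ GG x y) (hg' : g' ∈ GG x y) (h1 : g ∉ NN x y)
    (h2 : g' ∉ NN x y) : g * g' ∈ NN x y := by
  obtain ⟨s, c, e, ha, -⟩ := id hg
  obtain ⟨s', c', e', ha', -⟩ := id hg'
  rw [h.mem_NN hg ha] at h1
  rw [h.mem_NN hg' ha'] at h2
  rw [h.mem_NN (mul_mem hg hg') (ha.mul ha')]
  cases s <;> cases s' <;> simp at h1 h2 ⊢

theorem Act.tt (h : Act x y g false c e) (ε : Fin 4 → Bool) (i : Fin 4) :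
    g (tt x ε i) = (if ε i then c i ^ 3 else c i) • tt x ε i := by
  have h1 : g (x i) = c i • x i := h.ax i
  have h2 : (c i)⁻¹ = c i ^ 3 := inv_eq_of_mul_eq_one_right (by rw [← pow_succ', h.c4])
  unfold Ta.tt
  split_ifs
  · rw [map_inv₀, h1, smul_inv₀, h2]
  · exact h1

theorem Act.ww (h : Act x y g false c e) (ε : Fin 4 → Bool) (i : Fin 4) :
    g (ww x y ε i) = (if ε i then e i * c i ^ 2 else e i) • ww x y ε i := by
  have h1 : g (x i) = c i • x i := h.ax i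
  have h3 : g (y i) = e i • y i := h.ay i
  have h2 : (c i ^ 2)⁻¹ = c i ^ 2 := inv_eq_of_mul_eq_one_right (by rw [← pow_add, h.c4])
  unfold Ta.ww
  split_ifs
  · rw [map_div₀, map_pow, h1, h3, smul_pow, div_eq_mul_inv, smul_inv₀, h2, smul_mul_smul_comm,
      div_eq_mul_inv]
  · exact h3

theorem Act.mon (h : Act x y g s c e) (μ : Ix) :
    g (mon x y μ) = (∏ i, c i ^ μ.1 i * if μ.2 i then e i else 1) •
      mon x y (fun i => μ.1 (sw s i), fun i => μ.2 (sw s i)) := by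
  have k := Equiv.prod_comp (Function.Involutive.toPerm (sw s) (grp_sw_inv s))
    fun i => x i ^ μ.1 (sw s i) * if μ.2 (sw s i) then y i else 1
  simp only [Function.Involutive.coe_toPerm, grp_sw_inv] at k
  unfold Ta.mon
  rw [← k, map_prod, Algebra.smul_def, map_prod, ← Finset.prod_mul_distrib]
  refine Finset.prod_congr rfl fun i _ => ?_
  rw [map_mul, map_mul, map_zpow₀, map_zpow₀, h.ax, Algebra.smul_def, mul_zpow]
  split_ifs
  · rw [h.ay, Algebra.smul_def]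
    ring
  · rw [map_one, map_one]
    ring

theorem stable_RR (P) (ε : Fin 4 → Bool) : Stable (dg x y P) (RR (tt x ε) (ww x y ε)) := by
  rintro g ⟨c, e, hg, -⟩ f hf
  have k : RR (tt x ε) (ww x y ε) ≤ (RR (tt x ε) (ww x y ε)).comap (g : K →ₐ[ℂ] K) := by
    refine Algebra.adjoin_le ?_
    rintro _ (⟨i, rfl⟩ | ⟨i, rfl⟩)
    · show g _ ∈ RR _ _
      rw [hg.tt]
      exact Subalgebra.smul_mem _ (t_mem_RR i) _
    · show g _ ∈ RR _ _
      rw [hg.ww]
      exact Subalgebra.smul_mem _ (w_mem_RR i) _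
  exact k hf

end Pool.Agent.P.MP_63735c_ag.Ta
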