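import Pool.Agent.P.MP_63735c_ag.TaPtsC

/-! Principal parts on `X` come from invariant rational functions. -/

noncomputable section

namespace Pool.Agent.P.MP_63735c_ag.Ta

variable {K : Type} [Field K] [Algebra ℂ K] {x y : Fin 4 → K}

theorem h1k_unique (h : Ell x y) {O₁ O₂ O' : Subalgebra ℂ K} (h1 : h.XPt O₁) (h2 : h.XPt O₂)
    (hO : APt x y O') (d1 : Dom O₁ O') (d2 : Dom O₂ O') : O₁ = O₂ := by
  obtain ⟨ε, hε⟩ := hO
  obtain ⟨c, hc⟩ := id h1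
  have hc2 : IsLocOf (h.BB c) O₂ := by
    rw [← h.chart_WW] at hc ⊢
    exact (h2.chart_iff hε d2 (h.bc_mem_WW c) (h.bc_ne c) (by norm_num)).2
      ((h1.chart_iff hε d1 (h.bc_mem_WW c) (h.bc_ne c) (by norm_num)).1 hc)
  exact hc.ext hc2 fun b hb => ⟨fun hu => d2.2 b (hc2.le hb) (hu.mono d1.1),
    fun hu => d1.2 b (hc.le hb) (hu.mono d2.1)⟩

theorem h1k_map {O : Subalgebra ℂ K} {g : K ≃ₐ[ℂ] K} {z : K}
    (hz : z ∈ O.map ((g⁻¹ : K ≃ₐ[ℂ] K) : K →ₐ[ℂ] K)) : g z ∈ O := by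
  obtain ⟨w, hw, rfl⟩ := hz
  exact (g.apply_symm_apply w).symm ▸ hw

theorem h1k_le : dg x y (Pc 1 ⊓ Pe) ≤ GG x y := by
  rintro g ⟨c, e, hA, ⟨h1, h2, h3, -⟩, he⟩
  refine ⟨false, c, e, hA, h1, h2, he 1, (he 3).trans (he 2).symm, h3, ?_⟩
  have h4 : e 2 = e 0 := he 2
  rw [h4, ← sq]
  exact hA.e2 0

/-- Principal parts on the sixteen charts that are fixed by `y ↦ -y` come from one element. -/
theorem h1k_glue (h : Ell x y) (b : (Fin 4 → Bool) → K)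
    (hb : ∀ I, ∀ g ∈ dg x y (Pc 1 ⊓ Pe), g (b I) = b I)
    (hd : ∀ I J O, IsLocOf (Rε x y I) O → IsLocOf (Rε x y J) O → b I - b J ∈ O) :
    ∃ β, ∀ I, β - b I ∈ Rε x y I := by
  obtain ⟨ν, hν⟩ := h.exists_act (c := fun _ => 1) (e := fun _ => -1) false (by simp) (by simp)
  have hνm : ν ∈ dg x y (Pc 1 ⊓ Pe) := ⟨_, _, hν, ⟨rfl, rfl, mul_one 1, pow_one 1⟩, fun _ => rfl⟩
  have key : ∀ I J, ∃ A : Ix →₀ ℂ, Finsupp.linearCombination ℂ (mon x y) A = b I - b J ∧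
      ∀ μ, A μ ≠ 0 → (∀ i, I i = J i → ¬ Pole μ.1 μ.2 i (I i)) ∧
        ∀ i, μ.2 i = true → ∃ l, l ≠ i ∧ μ.2 l = true := fun I J => by
    have h1 : b I - b J ∈ h.VV.chart (1 + 1) (be x I * be x J) := mem_of_loc fun O hO => by
      rw [h.VV.isLocOf_chart_mul (h.be_mem I) (h.be_ne I) one_pos (h.be_mem J) (h.be_ne J) one_pos,
        h.chart_be, h.chart_be] at hO
      exact hd I J O hO.1 hO.2
    obtain ⟨A, hA, e⟩ := mem_Sp.1 (h.fixed_mem (h.chart_be_be I J h1) ν _ hν.mon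
      (by rw [map_sub, hb I ν hνm, hb J ν hνm]))
    refine ⟨A, e, fun μ hμ => ?_⟩
    obtain ⟨h2, h3⟩ := not_not.1 fun hn => hμ (hA μ hn)
    refine ⟨h2, fun i hi => ?_⟩
    by_contra hn
    push Not at hn
    have h4 : (∏ l, (1 : ℂ) ^ μ.1 l * if μ.2 l then (-1 : ℂ) else 1) = 1 := h3
    rw [Finset.prod_eq_single i (fun l _ hl => by simp [hn l hl]) (by simp)] at h4
    norm_num [hi] at h4
  choose A hA hA' using key
  obtain ⟨β, hβ⟩ := h1core (fun μ : Ix => μ.1) (fun μ => μ.2) (fun I => A I fun _ => false)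
    (fun μ ⟨I, hI⟩ => (hA' _ _ μ hI).2) fun μ i s hp I J hI hJ => by
      have h1 : A I (fun _ => false) - A J (fun _ => false) = A I J :=
        h.indep (by rw [map_sub, hA, hA, hA, sub_sub_sub_cancel_right])
      by_contra hn
      refine (hA' I J μ ?_).1 i (hI.trans hJ.symm) (hI ▸ hp)
      rw [← h1, Finsupp.sub_apply]
      exact sub_ne_zero.2 hn
  refine ⟨b (fun _ => false) + Finsupp.linearCombination ℂ (mon x y) β, fun I => ?_⟩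
  refine (h.mem_Rε I).2 (mem_Sp.2 ⟨β - A I fun _ => false, fun μ hμ => ?_, ?_⟩)
  · obtain ⟨i, hi⟩ := not_forall.1 hμ
    rw [Finsupp.sub_apply, hβ μ i _ (not_not.1 hi) I rfl, sub_self]
  · rw [map_sub, hA]
    ring

theorem Ell.mittag (h : Ell x y) {ι : Type} (U : ι → Set (Subalgebra ℂ K))
    (hU : ∀ O, h.XPt O → ∃ (i : ι) (k : ℕ) (f : K), 0 < k ∧ f ∈ h.WW.V k ∧ f ≠ 0 ∧
      IsLocOf (h.WW.chart k f) O ∧ ∀ O', IsLocOf (h.WW.chart k f) O' → O' ∈ U i)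
    (a : ι → K) (ha : ∀ i, ∀ g ∈ GG x y, g (a i) = a i)
    (hr : ∀ i j O, h.XPt O → O ∈ U i → O ∈ U j → a i - a j ∈ O) :
    ∃ b : K, (∀ g ∈ GG x y, g b = b) ∧ ∀ i O, h.XPt O → O ∈ U i → b - a i ∈ O := by
  classical
  have := h.finite_GG
  have := h.finite_dg (Pc 1 ⊓ Pe)
  obtain ⟨Good, hG⟩ : ∃ Good : Subalgebra ℂ K → ι → Prop,
      ∀ O' i, Good O' i ↔ ∃ O, h.XPt O ∧ Dom O O' ∧ O ∈ U i := ⟨_, fun _ _ => Iff.rfl⟩
  have g1 : ∀ O' i j, APt x y O' → Good O' i → Good O' j → a i - a j ∈ O' := by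
    intro O' i j hO hi hj
    obtain ⟨O, h1, h2, h3⟩ := (hG _ _).1 hi
    obtain ⟨O₂, k1, k2, k3⟩ := (hG _ _).1 hj
    obtain rfl := h1k_unique h h1 k1 hO h2 k2
    exact h2.1 (hr i j O h1 h3 k3)
  have g2 : ∀ ε O', IsLocOf (Rε x y ε) O' → ∃ i, ∃ s ∈ Rε x y ε, Un O' s ∧
      ∀ O'', IsLocOf (Rε x y ε) O'' → Un O'' s → Good O'' i := by
    intro ε O' hO
    obtain ⟨O, h1, h2⟩ := h.exists_under ⟨ε, hO⟩
    obtain ⟨i, k, f, hk, hf, f0, h3, h4⟩ := hU O h1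
    refine ⟨i, f / be x ε ^ k, ?_, (h1.chart_iff hO h2 hf f0 hk).1 h3, fun O'' hO'' hu => ?_⟩
    · rw [← h.chart_be]
      exact h.VV.div_mem_chart (h.be_ne ε) (by rw [mul_one]; exact hf.1)
    · obtain ⟨O₂, k1, k2⟩ := h.exists_under ⟨ε, hO''⟩
      exact (hG _ _).2 ⟨O₂, k1, k2, h4 _ ((k1.chart_iff hO'' k2 hf f0 hk).2 hu)⟩
  have g3 : ∀ O' i, ∀ g ∈ GG x y, Good O' i → Good (O'.map (g : K →ₐ[ℂ] K)) i := by
    intro O' i g hg hi
    obtain ⟨O, h1, h2, h3⟩ := (hG _ _).1 hi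
    exact (hG _ _).2 ⟨O, h1, h1.dom_map h2 hg, h3⟩
  have g4 : ∀ ε, ∃ b, ∀ O' i, IsLocOf (Rε x y ε) O' → Good O' i → b - a i ∈ O' := fun ε => by
    choose j s hs hu hg using g2 ε
    obtain ⟨b, hb⟩ := cousin (C := Rε x y ε)
      (fun O' => if hO : IsLocOf (Rε x y ε) O' then a (j O' hO) else 0) fun O' hO =>
        ⟨s O' hO, hs O' hO, hu O' hO, fun O'' hO'' hu' => by
          rw [dif_pos hO, dif_pos hO'']
          exact g1 O'' _ _ ⟨ε, hO''⟩ (hg O' hO O'' hO'' hu') (hg O'' hO'' O'' hO'' (hu O'' hO''))⟩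
    refine ⟨b, fun O' i hO hi => ?_⟩
    have h1 := hb O' hO
    rw [dif_pos hO] at h1
    have := add_mem h1 (g1 O' _ _ ⟨ε, hO⟩ (hg O' hO O' hO (hu O' hO)) hi)
    rwa [sub_add_sub_cancel] at this
  choose b hb using g4
  have g5 : ∀ ε O' i, IsLocOf (Rε x y ε) O' → Good O' i →
      avg (dg x y (Pc 1 ⊓ Pe)) (b ε) - a i ∈ O' := fun ε O' i hO hi =>
    avg_sub_mem (fun g hg => ha i g (h1k_le hg)) fun g hg => h1k_map (hb ε _ i (by
      have := hO.map g⁻¹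
      rwa [(stable_RR _ ε).map_eq (inv_mem hg)] at this) (g3 _ _ _ (h1k_le (inv_mem hg)) hi))
  obtain ⟨β, hβ⟩ := h1k_glue h (fun ε => avg (dg x y (Pc 1 ⊓ Pe)) (b ε)) (fun ε => avg_fixed _)
    fun I J O hI hJ => by
      obtain ⟨i, s, -, hu, hg⟩ := g2 I O hI
      have := sub_mem (g5 I O i hI (hg O hI hu)) (g5 J O i hJ (hg O hI hu))
      rwa [sub_sub_sub_cancel_right] at this
  refine ⟨avg (GG x y) β, avg_fixed β, fun i O hO hi => hO.mem_of_over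
    (fun g hg => by rw [map_sub, avg_fixed β g hg, ha i g hg]) fun O' hO' hd =>
      avg_sub_mem (ha i) fun g hg => h1k_map ?_⟩
  obtain ⟨ε, hε⟩ := h.apt_map hO' (inv_mem hg)
  have := add_mem (hε.le (hβ ε))
    (g5 ε _ i hε (g3 _ _ _ (inv_mem hg) ((hG _ _).2 ⟨O, hO, hd, hi⟩)))
  rwa [sub_add_sub_cancel] at this

end Pool.Agent.P.MP_63735c_ag.Ta
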