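import Pool.Agent.P.MP_63735c_ag.TaProj

/-! `H^1(O) = 0` on `Proj` of a ring of invariants, from the vanishing on a standard cover
upstairs. -/

open CategoryTheory AlgebraicGeometry TopologicalSpace

noncomputable section

namespace Pool.Agent.P.MP_63735c_ag.Ta

variable {C σ : Type} [CommRing C] [SetLike σ C] [AddSubgroupClass σ C]
  (𝒜 : ℕ → σ) [GradedRing 𝒜]

lemma h1_exists_pos (x : Proj 𝒜) : ∃ m > 0, ∃ r ∈ 𝒜 m, r ∉ x.asHomogeneousIdeal := by
  classical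
  by_contra hn
  push Not at hn
  refine x.not_irrelevant_le fun z hz => ?_
  rw [← DirectSum.sum_support_decompose 𝒜 z]
  refine Ideal.sum_mem _ fun n _ => ?_
  rcases Nat.eq_zero_or_pos n with rfl | h0
  · rw [HomogeneousIdeal.mem_irrelevant_iff, GradedRing.proj_apply] at hz
    rw [hz]; exact zero_mem _
  · exact hn n h0 _ (DirectSum.decompose 𝒜 z n).2

lemma h1_exists_basic (U : (Proj 𝒜).Opens) (x : Proj 𝒜) (hx : x ∈ U) :
    ∃ m > 0, ∃ g ∈ 𝒜 m, x ∈ Proj.basicOpen 𝒜 g ∧ Proj.basicOpen 𝒜 g ≤ U := by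
  obtain ⟨_, ⟨f, rfl⟩, h1, h2⟩ := Opens.isBasis_iff_nbhd.1 (Proj.isBasis_basicOpen 𝒜) hx
  rw [Proj.basicOpen_eq_iSup_proj] at h1 h2
  obtain ⟨d, hd⟩ := Opens.mem_iSup.1 h1
  obtain ⟨m, hm, r, hr, hrx⟩ := h1_exists_pos 𝒜 x
  refine ⟨d + m, by omega, GradedRing.proj 𝒜 d f * r,
    SetLike.mul_mem_graded (DirectSum.decompose 𝒜 f d).2 hr, ?_, ?_⟩ <;> rw [Proj.basicOpen_mul]
  · exact ⟨hd, hrx⟩
  · exact inf_le_left.trans ((le_iSup (fun i => Proj.basicOpen 𝒜 (GradedRing.proj 𝒜 i f)) d).trans h2)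

/-- every open cover is refined by finitely many `D₊(g)` with `g` of one positive degree -/
lemma h1_refine [CompactSpace (Proj 𝒜)] {ι : Type} (U : ι → (Proj 𝒜).Opens) (hU : ⨆ i, U i = ⊤) :
    ∃ (κ : Type) (_ : Fintype κ) (n : ℕ) (g : κ → C) (τ : κ → ι), 0 < n ∧ (∀ k, g k ∈ 𝒜 n) ∧
      ⨆ k, Proj.basicOpen 𝒜 (g k) = ⊤ ∧ ∀ k, Proj.basicOpen 𝒜 (g k) ≤ U (τ k) := by
  classical
  choose τ hτ using fun x : Proj 𝒜 => Opens.mem_iSup.1 (hU.ge (Set.mem_univ x))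
  choose m hm g hg hx hle using fun x : Proj 𝒜 => h1_exists_basic 𝒜 _ x (hτ x)
  obtain ⟨t, ht⟩ := isCompact_univ.elim_finite_subcover
    (fun x : Proj 𝒜 => (Proj.basicOpen 𝒜 (g x) : Set (Proj 𝒜))) (fun x => Opens.isOpen _)
    fun x _ => Set.mem_iUnion.2 ⟨x, hx x⟩
  have hpos : ∀ k : t, 0 < ∏ l ∈ Finset.univ.erase k, m l.1 := fun k =>
    Finset.prod_pos fun l _ => hm _
  refine ⟨t, inferInstance, ∏ l : t, m l.1, fun k => g k ^ ∏ l ∈ Finset.univ.erase k, m l.1,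
    fun k => τ k, Finset.prod_pos fun l _ => hm _, fun k => ?_, ?_, fun k => ?_⟩
  · rw [← Finset.prod_erase_mul _ _ (Finset.mem_univ k)]
    exact SetLike.pow_mem_graded _ (hg k)
  · refine top_le_iff.1 fun x _ => ?_
    obtain ⟨y, hy, h⟩ := Set.mem_iUnion₂.1 (ht (Set.mem_univ x))
    refine Opens.mem_iSup.2 ⟨⟨y, hy⟩, ?_⟩
    rw [Proj.basicOpen_pow _ _ _ (hpos _)]
    exact h
  · rw [Proj.basicOpen_pow _ _ _ (hpos _)]
    exact hle _

lemma h1_radical {κ : Type} {n : ℕ} {g : κ → C} (hg : ∀ k, g k ∈ 𝒜 n)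
    (h : ⨆ k, Proj.basicOpen 𝒜 (g k) = ⊤) {m : ℕ} (hm : 0 < m) {r : C} (hr : r ∈ 𝒜 m) :
    r ∈ (Ideal.span (Set.range g)).radical := by
  have hI : (Ideal.span (Set.range g)).IsHomogeneous 𝒜 :=
    Ideal.homogeneous_span 𝒜 _ (by rintro _ ⟨k, rfl⟩; exact ⟨n, hg k⟩)
  rw [hI.radical_eq, Submodule.mem_sInf]
  rintro P ⟨h1, h2, h3⟩
  by_contra hrP
  let x : ProjectiveSpectrum 𝒜 := ⟨⟨P, h1⟩, h3, fun hle => hrP (hle (by
    rw [HomogeneousIdeal.mem_irrelevant_iff, GradedRing.proj_apply,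
      DirectSum.decompose_of_mem_ne 𝒜 hr hm.ne']))⟩
  obtain ⟨k, hk⟩ := Opens.mem_iSup.1 (h.ge (Set.mem_univ (show Proj 𝒜 from x)))
  exact hk (h2 (Ideal.subset_span ⟨k, rfl⟩))

variable {K : Type} [Field K] [Algebra ℂ K] (θ : C →+* K)

/-- Charts upstairs: rings `B i` with frames `u i`, a finite group `G` with `C` its invariants,
and an involution `s` for whose invariant cocycles the standard cover has no cohomology. -/
structure H1Data (G I : Type) [Group G] [MulSemiringAction G K] where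
  B : I → Subalgebra ℂ K
  B2 : I → I → Subalgebra ℂ K
  u : I → K
  Φ : ∀ i, C →+* B i
  s : G
  u_ne : ∀ i, u i ≠ 0
  Φ_mul : ∀ i m, ∀ c ∈ 𝒜 m, (Φ i c : K) * u i ^ m = θ c
  cov : ∀ i (P : Ideal (B i)), P.IsPrime → ∃ m > 0, ∃ r ∈ 𝒜 m, Φ i r ∉ P
  le_left : ∀ i j, B i ≤ B2 i j
  le_right : ∀ i j, B j ≤ B2 i j
  trans : ∀ i j, u j / u i ∈ B i
  stable : ∀ (g : G) (m : ℕ) (z : K), (∀ i, z / u i ^ m ∈ B i) → ∀ i, g • z / u i ^ m ∈ B i
  desc : ∀ (m : ℕ) (z : K), (∀ i, z / u i ^ m ∈ B i) → (∀ g : G, g • z = z) → ∃ c ∈ 𝒜 m, θ c = z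
  inv : ∀ (g : G) m, ∀ c ∈ 𝒜 m, g • θ c = θ c
  frac : ∀ z : K, (∀ g : G, g • z = z) → ∃ n, ∃ a ∈ 𝒜 n, ∃ b ∈ 𝒜 n, b ≠ 0 ∧ z * θ b = θ a
  s_mem : ∀ i, ∀ z ∈ B i, s • z ∈ B i
  s_u : ∀ i, s • u i = u i
  s_s : s * s = 1
  core : ∀ a : I → K, (∀ i, s • a i = a i) → (∀ i j, a i - a j ∈ B2 i j) →
    ∃ b, ∀ i, b - a i ∈ B i

variable {𝒜 θ} {G I : Type} [Group G] [Fintype G] [MulSemiringAction G K]

omit [AddSubgroupClass σ C] [GradedRing 𝒜] in
lemma H1Data.ring (D : H1Data 𝒜 θ G I) {κ : Type} [Fintype κ] {n : ℕ} {g : κ → C}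
    (hg : ∀ k, g k ∈ 𝒜 n)
    (hrad : ∀ m > 0, ∀ r ∈ 𝒜 m, r ∈ (Ideal.span (Set.range g)).radical) (a : κ → K)
    (ha : ∀ k, ∀ γ : G, γ • a k = a k) (N : ℕ)
    (hN : ∀ k l, ∃ c ∈ 𝒜 (N * (n + n)), (a k - a l) * (θ (g k) * θ (g l)) ^ N = θ c) :
    ∃ b : K, (∀ γ : G, γ • b = b) ∧ ∀ k, ∃ c ∈ 𝒜 (N * n), (b - a k) * θ (g k) ^ N = θ c := by
  have : CharZero K := charZero_of_injective_algebraMap (algebraMap ℂ K).injective
  have hγ : ∀ i k, (D.Φ i (g k) : K) = θ (g k) / D.u i ^ n := fun i k => by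
    rw [← D.Φ_mul i n _ (hg k), mul_div_cancel_right₀ _ (pow_ne_zero _ (D.u_ne i))]
  have hnat : ∀ (q : ℕ) i, (q : K)⁻¹ ∈ D.B i := fun q i => by
    have := (D.B i).algebraMap_mem (q : ℂ)⁻¹
    rwa [map_inv₀, map_natCast] at this
  have h1 : ∀ i, ∃ e : κ → K, (∀ k, e k ∈ D.B i) ∧ (∀ k, D.s • e k = e k) ∧
      ∑ k, e k * (θ (g k) / D.u i ^ n) ^ N = 1 := by
    intro i
    have htop : Ideal.span (Set.range fun k => D.Φ i (g k) ^ N) = ⊤ := by
      by_contra hne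
      obtain ⟨P, hP, hle⟩ := Ideal.exists_le_maximal _ hne
      obtain ⟨m, hm, r, hr, hrP⟩ := D.cov i P hP.isPrime
      have : (Ideal.span (Set.range g)).radical ≤ P.comap (D.Φ i) := by
        rw [(Ideal.comap_isPrime (D.Φ i) P).radical_le_iff, Ideal.span_le]
        rintro _ ⟨k, rfl⟩
        exact hP.isPrime.mem_of_pow_mem N (hle (Ideal.subset_span ⟨k, rfl⟩))
      exact hrP (this (hrad m hm r hr))
    obtain ⟨e, he⟩ := Ideal.mem_span_range_iff_exists_fun.1 ((Ideal.eq_top_iff_one _).1 htop)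
    have he' : ∑ k, (e k : K) * (θ (g k) / D.u i ^ n) ^ N = 1 := by
      have := congrArg (D.B i).val he
      simpa [hγ] using this
    have he'' : ∑ k, D.s • (e k : K) * (θ (g k) / D.u i ^ n) ^ N = 1 := by
      have := congrArg (D.s • ·) he'
      simpa [Finset.smul_sum, smul_div₀', D.inv _ _ _ (hg _), D.s_u] using this
    refine ⟨fun k => ((2 : ℕ) : K)⁻¹ * (e k + D.s • (e k : K)), fun k =>
      mul_mem (hnat 2 i) (add_mem (e k).2 (D.s_mem i _ (e k).2)), fun k => ?_, ?_⟩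
    · rw [smul_mul', smul_add, smul_smul, D.s_s, one_smul, add_comm, smul_inv'']
      congr 2
      exact map_natCast (MulSemiringAction.toRingHom G K D.s) 2
    · simp only [mul_assoc, add_mul, ← Finset.mul_sum, Finset.sum_add_distrib, he', he'']
      norm_num
  choose e heB hes he using h1
  choose c hc hca using hN
  let A : I → K := fun i => ∑ k, e i k * (θ (g k) / D.u i ^ n) ^ N * a k
  have hA : ∀ i l, (A i - a l) * (θ (g l) / D.u i ^ n) ^ N ∈ D.B i := by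
    intro i l
    have : (A i - a l) * (θ (g l) / D.u i ^ n) ^ N = ∑ k, e i k * D.Φ i (c k l) := by
      have h2 : A i - a l = ∑ k, e i k * (θ (g k) / D.u i ^ n) ^ N * (a k - a l) := by
        simp only [A, mul_sub, Finset.sum_sub_distrib, ← Finset.sum_mul, he, one_mul]
      rw [h2, Finset.sum_mul]
      refine Finset.sum_congr rfl fun k _ => ?_
      have h3 := D.Φ_mul i _ _ (hc k l)
      have h4 := D.u_ne i
      rw [← hca, ← eq_div_iff (pow_ne_zero _ h4)] at h3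
      rw [h3]
      simp only [div_pow]
      field_simp
      ring
    rw [this]
    exact sum_mem fun k _ => mul_mem (heB i k) (D.Φ i _).2
  obtain ⟨b, hb⟩ := D.core A (fun i => by
    simp [A, Finset.smul_sum, smul_div₀', D.inv _ _ _ (hg _), D.s_u, hes, ha]) fun i j => by
    have : A i - A j = ∑ l, e i l * ((A i - a l) * (θ (g l) / D.u i ^ n) ^ N -
        (D.u j / D.u i) ^ (n * N) * ((A j - a l) * (θ (g l) / D.u j ^ n) ^ N)) := by
      rw [← mul_one (A i - A j), ← he i, Finset.mul_sum]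
      refine Finset.sum_congr rfl fun l _ => ?_
      have h4 := D.u_ne i
      have h5 := D.u_ne j
      simp only [div_pow, pow_mul]
      field_simp
      ring
    rw [this]
    exact sum_mem fun l _ => mul_mem (D.le_left i j (heB i l)) (sub_mem (D.le_left i j (hA i l))
      (mul_mem (pow_mem (D.le_left i j (D.trans i j)) _) (D.le_right i j (hA j l))))
  have hR : ∀ l i, (b - a l) * θ (g l) ^ N / D.u i ^ (N * n) ∈ D.B i := by
    intro l i
    have : (b - a l) * θ (g l) ^ N / D.u i ^ (N * n) =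
        (b - A i) * (D.Φ i (g l) : K) ^ N + (A i - a l) * (θ (g l) / D.u i ^ n) ^ N := by
      have h4 := D.u_ne i
      rw [hγ]
      simp only [div_pow, mul_comm N, pow_mul]
      field_simp
      ring
    rw [this]
    exact add_mem (mul_mem (hb i) (pow_mem (D.Φ i _).2 _)) (hA i l)
  have hcard : (Fintype.card G : K) ≠ 0 := Nat.cast_ne_zero.2 Fintype.card_ne_zero
  have hinv : ∀ γ : G, γ • ((Fintype.card G : K)⁻¹ * ∑ δ : G, δ • b) =
      (Fintype.card G : K)⁻¹ * ∑ δ : G, δ • b := fun γ => by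
    rw [smul_mul', smul_inv'', Finset.smul_sum]
    congr 1
    · exact congrArg _ (map_natCast (MulSemiringAction.toRingHom G K γ) _)
    · simp only [smul_smul]
      exact Fintype.sum_equiv (Equiv.mulLeft γ) _ _ fun _ => rfl
  refine ⟨_, hinv, fun l => ?_⟩
  obtain ⟨c', h1, h2⟩ := D.desc (N * n)
    (((Fintype.card G : K)⁻¹ * ∑ δ : G, δ • b - a l) * θ (g l) ^ N) (fun i => by
      have : ((Fintype.card G : K)⁻¹ * ∑ δ : G, δ • b - a l) * θ (g l) ^ N / D.u i ^ (N * n) =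
          (Fintype.card G : K)⁻¹ * ∑ δ : G, δ • ((b - a l) * θ (g l) ^ N) / D.u i ^ (N * n) := by
        simp only [smul_mul', smul_sub, smul_pow', D.inv _ _ _ (hg _), ha, ← Finset.sum_div,
          ← Finset.sum_mul, Finset.sum_sub_distrib, Finset.sum_const, Finset.card_univ,
          nsmul_eq_mul]
        field_simp
      rw [this]
      exact mul_mem (hnat _ i) (sum_mem fun δ _ => D.stable δ _ _ (hR l) i))
    fun γ => by rw [smul_mul', smul_sub, hinv, ha, smul_pow', D.inv _ _ _ (hg _)]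
  exact ⟨c', h1, h2.symm⟩

theorem H1Data.cechZero [IsDomain C] [IsIntegral (Proj 𝒜)] [CompactSpace (Proj 𝒜)]
    (D : H1Data 𝒜 θ G I) (hθ : ∀ n, ∀ a ∈ 𝒜 n, θ a = 0 → a = 0) (ι : Type)
    (U : ι → (Proj 𝒜).Opens) (hU : ⨆ i, U i = ⊤) : CechZero U 0 := by
  obtain ⟨κ, _, n, g, τ, hn, hg, hcov, hτ⟩ := h1_refine 𝒜 U hU
  refine (ML.of_refine (fun a ha => ?_) hcov τ hτ).cechZero
  have h1 : ∀ k l, ∃ N : ℕ, ∃ c ∈ 𝒜 (N * (n + n)),
      (pjField 𝒜 θ hθ (a k) - pjField 𝒜 θ hθ (a l)) * (θ (g k) * θ (g l)) ^ N = θ c := by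
    intro k l
    have := ha k l
    rw [← Proj.basicOpen_mul, pj_reg_basicOpen 𝒜 θ hθ (by omega : 0 < n + n)
      (SetLike.mul_mem_graded (hg k) (hg l))] at this
    simpa using this
  choose N c hc hca using h1
  obtain ⟨b, hb, h2⟩ := D.ring hg (fun m hm r hr => h1_radical 𝒜 hg hcov hm hr)
    (fun k => pjField 𝒜 θ hθ (a k)) (fun k γ => by
      obtain ⟨m, p, hp, q, hq, h0, h⟩ := (pj_mem_range 𝒜 θ hθ).1 ⟨a k, rfl⟩
      have h3 := congrArg (γ • ·) h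
      simp only [smul_mul', D.inv _ _ _ hp, D.inv _ _ _ hq] at h3
      exact mul_right_cancel₀ (fun h' => h0 (hθ _ _ hq h')) (h3.trans h.symm))
    (∑ p : κ × κ, N p.1 p.2) fun k l => by
      obtain ⟨d, hd⟩ := Nat.exists_eq_add_of_le
        (Finset.single_le_sum (f := fun p : κ × κ => N p.1 p.2) (fun _ _ => Nat.zero_le _)
          (Finset.mem_univ (k, l)))
      rw [hd]
      refine ⟨c k l * (g k * g l) ^ d, ?_, ?_⟩
      · rw [add_mul]
        exact SetLike.mul_mem_graded (hc k l)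
          (SetLike.pow_mem_graded d (SetLike.mul_mem_graded (hg k) (hg l)))
      · rw [map_mul, ← hca, map_pow, map_mul, pow_add, mul_assoc]
  obtain ⟨b, rfl⟩ := (pj_mem_range 𝒜 θ hθ).2 (D.frac b hb)
  refine ⟨b, fun k => (pj_reg_basicOpen 𝒜 θ hθ hn (hg k)).2 ?_⟩
  obtain ⟨c', h3, h4⟩ := h2 k
  exact ⟨_, c', h3, by rw [map_sub, h4]⟩

end Pool.Agent.P.MP_63735c_ag.Ta
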