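import Mathlib

/-! Weight by weight vanishing of `H^1` on the standard cover of `(P^1)^4` for even twists. -/

namespace Pool.Agent.P.MP_63735c_ag.Ta

/-- The monomial `x ^ m * y ^ e` has a pole along the divisor `x i = 0` (`s = false`) or
`x i = ∞` (`s = true`). -/
def Pole (m : Fin 4 → ℤ) (e : Fin 4 → Bool) (i : Fin 4) (s : Bool) : Prop :=
  if s then (if e i then -2 else 0) < m i else m i < 0

lemma h1core_conn {k : Type} (m : Fin 4 → ℤ) (e : Fin 4 → Bool)
    (he : ∀ i, e i = true → ∃ l, l ≠ i ∧ e l = true) (f : (Fin 4 → Bool) → k) (z : k)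
    (hf : ∀ i s, Pole m e i s → ∀ I J, I i = s → J i = s → f I = f J) :
    ∃ κ, (κ = z ∨ ∃ I, κ = f I) ∧ ∀ i s, Pole m e i s → ∀ I, I i = s → f I = κ := by
  classical
  by_cases h0 : ∃ i s, Pole m e i s
  swap
  · exact ⟨z, Or.inl rfl, fun i s h => absurd ⟨i, s, h⟩ h0⟩
  obtain ⟨i, s, h⟩ := h0
  refine ⟨f fun _ => s, Or.inr ⟨_, rfl⟩, fun j u hj I hI => ?_⟩
  by_cases hji : j = i
  · subst hji
    by_cases hus : u = s
    · exact hf j s h _ _ (hI.trans hus) rfl
    have hej : e j = true := by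
      by_contra hn
      cases u <;> cases s <;> simp [Pole, hn] at h hj hus <;> omega
    obtain ⟨l, hl, hel⟩ := he j hej
    obtain ⟨v, hv⟩ : ∃ v, Pole m e l v := by
      by_cases hm : m l < 0
      · exact ⟨false, by simpa [Pole] using hm⟩
      · exact ⟨true, by simp [Pole, hel]; omega⟩
    rw [hf j u hj I (Function.update I l v) hI (by rw [Function.update_of_ne hl.symm, hI]),
      hf l v hv _ (Function.update (fun _ => s) l v) (by simp) (by simp)]
    exact hf j s h _ _ (by rw [Function.update_of_ne hl.symm]) rfl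
  · rw [hf j u hj I (Function.update I i s) hI (by rw [Function.update_of_ne hji, hI])]
    exact hf i s h _ _ (by simp) rfl

/-- Principal parts on the sixteen charts come from one element. -/
theorem h1core {k W : Type} [AddCommGroup k] (m : W → Fin 4 → ℤ) (e : W → Fin 4 → Bool)
    (a : (Fin 4 → Bool) → W →₀ k)
    (he : ∀ w, (∃ I, a I w ≠ 0) → ∀ i, e w i = true → ∃ l, l ≠ i ∧ e w l = true)
    (ha : ∀ w i s, Pole (m w) (e w) i s → ∀ I J, I i = s → J i = s → a I w = a J w) :
    ∃ b : W →₀ k, ∀ w i s, Pole (m w) (e w) i s → ∀ I, I i = s → b w = a I w := by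
  classical
  have key : ∀ w, ∃ κ, ((∀ I, a I w = 0) → κ = 0) ∧
      ∀ i s, Pole (m w) (e w) i s → ∀ I, I i = s → a I w = κ := by
    intro w
    by_cases hw : ∃ I, a I w ≠ 0
    · obtain ⟨κ, -, h⟩ := h1core_conn (m w) (e w) (he w hw) (fun I => a I w) 0 (ha w)
      obtain ⟨I, hI⟩ := hw
      exact ⟨κ, fun h0 => absurd (h0 I) hI, h⟩
    · push Not at hw
      exact ⟨0, fun _ => rfl, fun _ _ _ I _ => hw I⟩
  choose κ h1 h2 using key
  have hfin : (Function.support κ).Finite := by
    refine (Set.finite_iUnion fun I => (a I).support.finite_toSet).subset fun w hw => ?_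
    by_contra hn
    refine hw (h1 w fun I => ?_)
    by_contra hs
    exact hn (Set.mem_iUnion.2 ⟨I, Finsupp.mem_support_iff.2 hs⟩)
  exact ⟨Finsupp.ofSupportFinite κ hfin, fun w i s h I hI => (h2 w i s h I hI).symm⟩

end Pool.Agent.P.MP_63735c_ag.Ta
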