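import Pool.Agent.P.MP_63735c_ag.TaDefs

/-! A 2-torsion line bundle is nef, has volume zero and induces no fibration. -/

open CategoryTheory AlgebraicGeometry TopologicalSpace

noncomputable section

namespace Pool.Agent.P.MP_63735c_ag.Ta

variable {X : Scheme.{0}}

lemma tor_res_res {U V W : X.Opens} (h : W ≤ V) (h' : V ≤ U) (s : Γ(X, U)) :
    res h (res h' s) = res (h.trans h') s := by
  simp only [res, ← ConcreteCategory.comp_apply, ← X.presheaf.map_comp]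
  rfl

lemma tor_res_self {U : X.Opens} (h : U ≤ U) (s : Γ(X, U)) : res h s = s := by
  have : (homOfLE h).op = 𝟙 _ := rfl
  simp only [res, this, X.presheaf.map_id]
  rfl

lemma tor_isUnit_res {U W : X.Opens} (h : W ≤ U) {s : Γ(X, U)} (hs : IsUnit s) :
    IsUnit (res h s) := hs.map (X.presheaf.map (homOfLE h).op).hom

lemma tor_res_mul {U W : X.Opens} (h : W ≤ U) (s t : Γ(X, U)) :
    res h (s * t) = res h s * res h t := map_mul _ s t

lemma tor_res_pow {U W : X.Opens} (h : W ≤ U) (s : Γ(X, U)) (n : ℕ) :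
    res h (s ^ n) = res h s ^ n := map_pow _ s n

lemma tor_res_one {U W : X.Opens} (h : W ≤ U) : res h (1 : Γ(X, U)) = 1 := map_one _

/-- sections, with the data unbundled -/
def Sec {ι : Type} (U : ι → X.Opens) (g : ∀ i j, Γ(X, U i ⊓ U j)) (s : ∀ i, Γ(X, U i)) : Prop :=
  ∀ i j, res inf_le_left (s i) = g i j * res inf_le_right (s j)

variable {ι : Type} {U : ι → X.Opens} {g : ∀ i j, Γ(X, U i ⊓ U j)}

lemma Sec.res {s : ∀ i, Γ(X, U i)} (hs : Sec U g s) (i j) {W : X.Opens}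
    (hi : W ≤ U i) (hj : W ≤ U j) : res hi (s i) = res (le_inf hi hj) (g i j) * res hj (s j) := by
  have := congrArg (Ta.res (le_inf hi hj)) (hs i j)
  rwa [tor_res_mul, tor_res_res, tor_res_res] at this

lemma tor_unit_section {L : LB X} (h : (L.pow 2).Iso (triv X)) :
    ∃ t : ∀ i, Γ(X, L.U i), Sec L.U (fun i j => L.g i j ^ 2) t ∧ ∀ i, IsUnit (t i) := by
  obtain ⟨h, hu, hh⟩ : ∃ h : ∀ i (_ : Unit), Γ(X, L.U i ⊓ ⊤), (∀ i a, IsUnit (h i a)) ∧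
    ∀ i j a b (W : X.Opens) (hi : W ≤ L.U i) (hj : W ≤ L.U j) (ha : W ≤ ⊤) (hb : W ≤ ⊤),
      res (le_inf hi ha) (h i a) * res (le_inf ha hb) 1 =
        res (le_inf hi hj) (L.g i j ^ 2) * res (le_inf hj hb) (h j b) := h
  refine ⟨fun i => res (le_inf le_rfl le_top) (h i ()), fun i j => ?_,
    fun i => tor_isUnit_res _ (hu i ())⟩
  have := hh i j () () (L.U i ⊓ L.U j) inf_le_left inf_le_right le_top le_top
  rw [tor_res_self _ (L.g i j ^ 2), tor_res_one, mul_one] at this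
  simp only [tor_res_res]
  exact this

lemma tor_multiple (hM : ⨆ i, U i = ⊤) {s t : ∀ i, Γ(X, U i)} (hs : Sec U g s)
    (ht : Sec U g t) (hu : ∀ i, IsUnit (t i)) :
    ∃ c : Γ(X, ⊤), ∀ i, s i = res le_top c * t i := by
  choose u hu' using fun i => (hu i).exists_right_inv
  obtain ⟨c, hc, -⟩ := X.sheaf.existsUnique_gluing' U ⊤ (fun i => homOfLE le_top) hM.ge
    (fun i => s i * u i) fun i j => by
      have h1 := congrArg (res (inf_le_left : U i ⊓ U j ≤ _)) (hu' i)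
      have h2 := congrArg (res (inf_le_right : U i ⊓ U j ≤ _)) (hu' j)
      show res inf_le_left (s i * u i) = res inf_le_right (s j * u j)
      simp only [tor_res_mul, tor_res_one] at h1 h2 ⊢
      rw [ht i j] at h1
      rw [hs i j]
      linear_combination (res inf_le_right (s j) * res inf_le_right (u j)) * h1 -
        (g i j * res inf_le_right (s j) * res inf_le_left (u i)) * h2
  refine ⟨c, fun i => ?_⟩
  have : res le_top c = s i * u i := hc i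
  rw [this, mul_assoc, mul_comm (u i), hu', mul_one]

lemma tor_dichotomy (hΓ : ∀ c : Γ(X, ⊤), c = 0 ∨ IsUnit c) (hM : ⨆ i, U i = ⊤)
    {s t : ∀ i, Γ(X, U i)} (hs : Sec U g s) (ht : Sec U g t) (hu : ∀ i, IsUnit (t i)) :
    (∀ i, s i = 0) ∨ ∀ i, IsUnit (s i) := by
  obtain ⟨c, hc⟩ := tor_multiple hM hs ht hu
  rcases hΓ c with rfl | h
  · exact Or.inl fun i => by simp [hc i]
  · exact Or.inr fun i => hc i ▸ (tor_isUnit_res _ h).mul (hu i)

theorem tor_nef {L A : LB X} (hL : ⨆ i, L.U i = ⊤) (h2 : (L.pow 2).Iso (triv X)) (hA : A.IsLB)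
    (hA' : A.Ample) : L.Nef := by
  obtain ⟨t, ht, hu⟩ := tor_unit_section h2
  refine ⟨A, hA, fun k => ⟨hA'.1, fun x => ?_⟩⟩
  obtain ⟨n, hn, s, hs, haff, hx⟩ : ∃ n > 0, ∃ s : ∀ a, Γ(X, A.U a),
    Sec A.U (fun a b => A.g a b ^ n) s ∧ IsAffineOpen (⨆ i, X.basicOpen (s i)) ∧
      x ∈ ⨆ i, X.basicOpen (s i) := hA'.2 x
  obtain ⟨σ, hσ0⟩ : ∃ σ : ∀ a : L.ι × A.ι, Γ(X, L.U a.1 ⊓ A.U a.2), ∀ a, σ a =
    res inf_le_left (t a.1) ^ (k * n) * res inf_le_right (s a.2) ^ 2 := ⟨_, fun _ => rfl⟩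
  have hσ : ⨆ a, X.basicOpen (σ a) = ⨆ a, X.basicOpen (s a) := by
    have h1 : ∀ a, X.basicOpen (σ a) = L.U a.1 ⊓ X.basicOpen (s a.2) := fun a => by
      rw [hσ0, X.basicOpen_mul, X.basicOpen_of_isUnit ((tor_isUnit_res _ (hu _)).pow _),
        X.basicOpen_pow _ two_pos, res, X.basicOpen_res, ← inf_assoc, inf_idem, inf_assoc,
        inf_eq_right.2 (X.basicOpen_le (s a.2))]
    simp only [h1]
    rw [iSup_prod, iSup_comm]
    refine iSup_congr fun a => ?_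
    simp only
    rw [← iSup_inf_eq, hL, top_inf_eq]
  have hsec : Sec (fun a : L.ι × A.ι => L.U a.1 ⊓ A.U a.2) (fun a b =>
      (res (inf_le_inf inf_le_left inf_le_left) (L.g a.1 b.1 ^ k) *
        res (inf_le_inf inf_le_right inf_le_right) (A.g a.2 b.2)) ^ (2 * n)) σ := fun a b => by
    have h3 := ht.res a.1 b.1 (W := (L.U a.1 ⊓ A.U a.2) ⊓ (L.U b.1 ⊓ A.U b.2))
      (inf_le_left.trans inf_le_left) (inf_le_right.trans inf_le_left)
    have h4 := hs.res a.2 b.2 (W := (L.U a.1 ⊓ A.U a.2) ⊓ (L.U b.1 ⊓ A.U b.2))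
      (inf_le_left.trans inf_le_right) (inf_le_right.trans inf_le_right)
    simp only [hσ0, tor_res_mul, tor_res_pow, tor_res_res] at h3 h4 ⊢
    rw [h3, h4]
    ring
  rw [← hσ] at haff hx
  exact ⟨2 * n, by omega, σ, hsec, haff, hx⟩

lemma tor_not_affine (hΓ : ∀ c : Γ(X, ⊤), c = 0 ∨ IsUnit c) {B : Scheme.{0}} (f : X ⟶ B)
    (hf : Function.Surjective f) [IsAffine B] : Subsingleton B := by
  have key : ∀ (b b' : B) (U : B.Opens), b ∈ U → b' ∈ U := by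
    intro b b' U hb
    obtain ⟨r, h1, h2⟩ := (isAffineOpen_top B).exists_basicOpen_le ⟨b, hb⟩ trivial
    obtain ⟨x, rfl⟩ := hf b
    obtain ⟨y, rfl⟩ := hf b'
    have h3 := f.preimage_basicOpen_top r
    rcases hΓ (f.appTop r) with h | h
    · rw [h, X.basicOpen_zero] at h3
      exact absurd (h3.le (show x ∈ f ⁻¹ᵁ B.basicOpen r from h2)) (by simp)
    · rw [X.basicOpen_of_isUnit h] at h3
      exact h1 (h3.ge (Set.mem_univ y))
  exact ⟨fun b b' => (inseparable_iff_forall_isOpen.2 fun U hU =>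
    ⟨key b b' ⟨U, hU⟩, key b' b ⟨U, hU⟩⟩).eq⟩

theorem tor_not_induces [Nonempty X] (hΓ : ∀ c : Γ(X, ⊤), c = 0 ∨ IsUnit c) {L : LB X}
    (hL : ⨆ i, L.U i = ⊤) (h2 : (L.pow 2).Iso (triv X)) : ¬ L.Induces := by
  rintro ⟨B, f, A, m, hf, hB, hA, hA', -, hiso⟩
  obtain ⟨G, hG⟩ : ∃ G : ∀ a b, Γ(X, f ⁻¹ᵁ A.U a ⊓ f ⁻¹ᵁ A.U b), ∀ a b, G a b =
    f.appLE (A.U a ⊓ A.U b) _ le_rfl (A.g a b) := ⟨_, fun _ _ => rfl⟩
  obtain ⟨h, hu, hh⟩ : ∃ h : ∀ i a, Γ(X, L.U i ⊓ f ⁻¹ᵁ A.U a), (∀ i a, IsUnit (h i a)) ∧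
    ∀ i j a b (W : X.Opens) (hi : W ≤ L.U i) (hj : W ≤ L.U j) (ha : W ≤ f ⁻¹ᵁ A.U a)
      (hb : W ≤ f ⁻¹ᵁ A.U b), res (le_inf hi ha) (h i a) * res (le_inf ha hb) (G a b) =
        res (le_inf hi hj) (L.g i j ^ m) * res (le_inf hj hb) (h j b) := by
    simp only [hG]
    exact hiso
  obtain ⟨t, ht, htu⟩ := tor_unit_section h2
  obtain ⟨x⟩ := ‹Nonempty X›
  obtain ⟨n, hn, s, hs, haff, hx⟩ : ∃ n > 0, ∃ s : ∀ a, Γ(B, A.U a),
    Sec A.U (fun a b => A.g a b ^ n) s ∧ IsAffineOpen (⨆ i, B.basicOpen (s i)) ∧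
      f x ∈ ⨆ i, B.basicOpen (s i) := hA'.2 (f x)
  have hcov : ∀ y : X, ∃ a : L.ι × A.ι, y ∈ L.U a.1 ⊓ f ⁻¹ᵁ A.U a.2 := fun y => by
    obtain ⟨i, hi⟩ := Opens.mem_iSup.1 (hL.ge (Set.mem_univ y))
    obtain ⟨a, ha⟩ := Opens.mem_iSup.1 (hA.1.ge (Set.mem_univ (f y)))
    exact ⟨(i, a), hi, ha⟩
  obtain ⟨s', hs0⟩ : ∃ s' : ∀ a, Γ(X, f ⁻¹ᵁ A.U a), ∀ a, s' a = f.app _ (s a) := ⟨_, fun _ => rfl⟩
  have hpull : ∀ (V W : B.Opens) (V' : X.Opens) (h1 : V ≤ W) (h2 : V' ≤ f ⁻¹ᵁ V)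
      (h3 : V' ≤ f ⁻¹ᵁ W) (z : Γ(B, W)), f.appLE V V' h2 (res h1 z) = res h3 (f.app W z) :=
    fun V W V' h1 h2 h3 z => ConcreteCategory.congr_hom (f.map_appLE h2 (homOfLE h1).op) z
  have hs' : Sec (fun a => f ⁻¹ᵁ A.U a) (fun a b => G a b ^ n) s' := fun a b => by
    have hle : f ⁻¹ᵁ A.U a ⊓ f ⁻¹ᵁ A.U b ≤ f ⁻¹ᵁ (A.U a ⊓ A.U b) := fun _ h => h
    have := congrArg (f.appLE (A.U a ⊓ A.U b) (f ⁻¹ᵁ A.U a ⊓ f ⁻¹ᵁ A.U b) hle) (hs a b)
    rw [map_mul, map_pow, hpull _ _ _ _ _ inf_le_left, hpull _ _ _ _ _ inf_le_right] at this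
    simp only [hs0, hG]
    exact this
  obtain ⟨σ, hσ⟩ : ∃ σ : ∀ a : L.ι × A.ι, Γ(X, L.U a.1 ⊓ f ⁻¹ᵁ A.U a.2), ∀ a, σ a =
    h a.1 a.2 ^ (2 * n) * res inf_le_right (s' a.2) ^ 2 := ⟨_, fun _ => rfl⟩
  have hb : ∀ a, X.basicOpen (σ a) = L.U a.1 ⊓ f ⁻¹ᵁ B.basicOpen (s a.2) := fun a => by
    rw [hσ, X.basicOpen_mul, X.basicOpen_of_isUnit ((hu _ _).pow _), X.basicOpen_pow _ two_pos,
      res, X.basicOpen_res, ← inf_assoc, inf_idem, inf_assoc, f.preimage_basicOpen, hs0]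
    exact congrArg _ (inf_eq_right.2 (X.basicOpen_le _))
  rcases tor_dichotomy hΓ (U := fun a : L.ι × A.ι => L.U a.1 ⊓ f ⁻¹ᵁ A.U a.2)
    (g := fun a b => res (inf_le_inf inf_le_left inf_le_left) (L.g a.1 b.1) ^ (2 * (m * n)))
    (top_le_iff.1 fun y _ => Opens.mem_iSup.2 (hcov y)) (s := σ)
    (t := fun a => res inf_le_left (t a.1) ^ (m * n)) (fun a b => by
      have h3 := hh a.1 b.1 a.2 b.2 ((L.U a.1 ⊓ f ⁻¹ᵁ A.U a.2) ⊓ (L.U b.1 ⊓ f ⁻¹ᵁ A.U b.2))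
        (inf_le_left.trans inf_le_left) (inf_le_right.trans inf_le_left)
        (inf_le_left.trans inf_le_right) (inf_le_right.trans inf_le_right)
      have h4 := hs'.res a.2 b.2 (W := (L.U a.1 ⊓ f ⁻¹ᵁ A.U a.2) ⊓ (L.U b.1 ⊓ f ⁻¹ᵁ A.U b.2))
        (inf_le_left.trans inf_le_right) (inf_le_right.trans inf_le_right)
      have h5 := congrArg (· ^ (2 * n)) h3
      simp only [hσ, tor_res_mul, tor_res_pow, tor_res_res] at h4 h5 ⊢
      rw [h4]
      linear_combination (res (inf_le_right.trans inf_le_right) (s' b.2) ^ 2) * h5)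
    (fun a b => by
      have h3 := ht.res a.1 b.1 (W := (L.U a.1 ⊓ f ⁻¹ᵁ A.U a.2) ⊓ (L.U b.1 ⊓ f ⁻¹ᵁ A.U b.2))
        (inf_le_left.trans inf_le_left) (inf_le_right.trans inf_le_left)
      simp only [tor_res_pow, tor_res_res] at h3 ⊢
      rw [h3]
      ring)
    (fun a => (tor_isUnit_res _ (htu _)).pow _) with h0 | h1
  · obtain ⟨a, ha⟩ := Opens.mem_iSup.1 hx
    obtain ⟨i, hi⟩ := Opens.mem_iSup.1 (hL.ge (Set.mem_univ x))
    have := hb (i, a)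
    rw [h0 (i, a), X.basicOpen_zero] at this
    exact absurd (this.ge ⟨hi, ha⟩) (by simp)
  · have htop : ⨆ a, B.basicOpen (s a) = ⊤ := top_le_iff.1 fun b _ => by
      obtain ⟨y, rfl⟩ := hf.surj b
      obtain ⟨a, ha⟩ := hcov y
      have := hb a
      rw [X.basicOpen_of_isUnit (h1 a)] at this
      exact Opens.mem_iSup.2 ⟨a.2, (this.le ha).2⟩
    rw [htop] at haff
    have : IsAffine B := @IsAffine.of_isIso _ _ B.topIso.inv _ haff
    exact not_subsingleton B (tor_not_affine hΓ f hf.surj)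

variable (π : X ⟶ Spec (CommRingCat.of ℂ))

lemma tor_res_const {U W : X.Opens} (h : W ≤ U) (c : ℂ) : res h (const π U c) = const π W c :=
  ConcreteCategory.congr_hom (π.appLE_map le_top (homOfLE h).op) _

lemma tor_unit_or (hΓ : ∀ c : Γ(X, ⊤), ∃ κ, c = const π ⊤ κ) (c : Γ(X, ⊤)) :
    c = 0 ∨ IsUnit c := by
  obtain ⟨κ, rfl⟩ := hΓ c
  by_cases h : κ = 0
  · exact Or.inl (by simp [const, h])
  · exact Or.inr (((Ne.isUnit h).map (Scheme.ΓSpecIso (CommRingCat.of ℂ)).inv.hom).map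
      (π.appLE ⊤ ⊤ le_top).hom)

theorem tor_volZero [IsIntegral X] (hΓ : ∀ c : Γ(X, ⊤), ∃ κ, c = const π ⊤ κ) {L : LB X}
    (hL : ⨆ i, L.U i = ⊤) (h2 : (L.pow 2).Iso (triv X)) {d : ℕ} (hd : 0 < d)
    (htr : letI := fieldAlg π; Algebra.trdeg ℂ X.functionField = d) : VolZero π L := by
  obtain ⟨t, ht, hu⟩ := tor_unit_section h2
  refine ⟨d, htr, fun ε hε => ?_⟩
  have hlim : Filter.Tendsto (fun m : ℕ => ε * (m : ℝ) ^ d) Filter.atTop Filter.atTop :=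
    ((Filter.tendsto_pow_atTop hd.ne').comp tendsto_natCast_atTop_atTop).const_mul_atTop hε
  filter_upwards [hlim.eventually_ge_atTop 1] with m hm r s hs hli
  refine le_trans ?_ hm
  rcases r with _ | _ | r
  · simp
  · simp
  exfalso
  have hs' : ∀ k, Sec L.U (fun i j => L.g i j ^ m) (s k) := hs
  have hunit : ∀ i, IsUnit (s 0 i) := by
    rcases tor_dichotomy (tor_unit_or π hΓ) (g := fun i j => L.g i j ^ (2 * m)) hL
      (s := fun i => s 0 i ^ 2) (t := fun i => t i ^ m) (fun i j => by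
        simp only [tor_res_pow]
        rw [hs' 0 i j]; ring) (fun i j => by
        simp only [tor_res_pow]
        rw [ht i j]; ring) (fun i => (hu i).pow _) with h | h
    · have := hli (Pi.single 0 1) fun i => by
        rw [Finset.sum_eq_single 0 (fun k _ hk => by simp [Pi.single_eq_of_ne hk, const])
          (by simp), (IsReduced.component_reduced (L.U i)).eq_zero (s 0 i) ⟨2, h i⟩, mul_zero]
      simpa using congrFun this 0
    · exact fun i => (isUnit_pow_iff two_ne_zero).1 (h i)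
  obtain ⟨c, hc⟩ := tor_multiple hL (hs' 1) (hs' 0) hunit
  obtain ⟨κ, rfl⟩ := hΓ c
  have := hli (Fin.cons κ (Fin.cons (-1) 0)) fun i => by
    rw [Fin.sum_univ_succ, Fin.sum_univ_succ]
    have h1 := hc i
    rw [tor_res_const] at h1
    simp [h1, const]
  simpa using congrFun this 1

end Pool.Agent.P.MP_63735c_ag.Ta
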