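import Pool.Agent.P.MP_63735c_ag.TaRepB
import Pool.Agent.P.MP_63735c_ag.TaTrs
import Pool.Agent.P.MP_63735c_ag.TaConst

/-! A 2-torsion line bundle on a proper integral scheme is not a pull-back of an ample one. -/

open CategoryTheory AlgebraicGeometry

noncomputable section

namespace Pool.Agent.P.MP_63735c_ag.Ta

theorem not_induces {X : Scheme.{0}} (π : X ⟶ Spec (CommRingCat.of ℂ)) [IsIntegral X] [IsProper π]
    {L : LB X} (hL : L.IsLB) (h2 : (L.pow 2).Iso (triv X)) : ¬ L.Induces :=
  tor_not_induces (tor_unit_or π (exists_const π)) hL.1 h2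

end Pool.Agent.P.MP_63735c_ag.Ta
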