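import Pool.Agent.P.MP_63735c_ag.TaPtsC
import Pool.Agent.P.MP_63735c_ag.TaChrB

/-! Inertia groups. -/

noncomputable section

namespace Pool.Agent.P.MP_63735c_ag.Ta

variable {K : Type} [Field K] [Algebra ℂ K] {x y : Fin 4 → K} {O O' : Subalgebra ℂ K}
  {g : K ≃ₐ[ℂ] K} {ε : Fin 4 → Bool} {s : Bool} {c e : Fin 4 → ℂ}

/-- `g` fixes the point `O` and acts trivially on its residue field. -/
def InO (g : K ≃ₐ[ℂ] K) (O : Subalgebra ℂ K) : Prop := (∀ f ∈ O, g f ∈ O) ∧ Inert g O O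

/-- The inertia group of the point is trivial. -/
def Free (x y : Fin 4 → K) (O : Subalgebra ℂ K) : Prop := ∀ g ∈ GG x y, InO g O → g = 1

theorem InO.mul {C : Subalgebra ℂ K} (hO : IsLocOf C O) {g' : K ≃ₐ[ℂ] K} (h1 : InO g O)
    (h2 : InO g' O) : InO (g * g') O := by
  refine ⟨fun f hf => h1.1 _ (h2.1 f hf), fun f hf hu => ?_⟩
  have e1 : (g * g') f - f = (g (g' f) - g' f) + (g' f - f) := by
    rw [AlgEquiv.mul_apply]
    ring
  rw [e1] at hu
  exact (hO.add _ (sub_mem (h1.1 _ (h2.1 f hf)) (h2.1 f hf)) _ (sub_mem (h2.1 f hf) hf) hu).elim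
    (h1.2 _ (h2.1 f hf)) (h2.2 f hf)

theorem InO.smul_eq (h : InO g O) {f : K} (hf : Un O f) {a : ℂ} (ha : g f = a • f) : a = 1 := by
  by_contra hne
  refine h.2 f hf.1 ?_
  rw [ha, show a • f - f = (a - 1) • f by rw [sub_smul, one_smul]]
  exact hf.smul (sub_ne_zero.2 hne)

theorem iner_not_un {f : K} (hf : f ∈ O) (hn : ¬ Un O f) {a : ℂ} (ha : g f = a • f) :
    g f ∈ O ∧ ¬ Un O (g f - f) := by
  refine ⟨ha ▸ O.smul_mem hf a, fun hu => hn ?_⟩
  rw [ha, show a • f - f = algebraMap ℂ K (a - 1) * f by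
    rw [← Algebra.smul_def, sub_smul, one_smul]] at hu
  exact Un.of_mul_right (O.algebraMap_mem _) hf hu

theorem iner_fixed {f : K} (hf : f ∈ O) (ha : g f = f) : g f ∈ O ∧ ¬ Un O (g f - f) := by
  rw [ha, sub_self]
  exact ⟨hf, fun hu => hu.2.1 rfl⟩

theorem iner_inO (hO : IsLocOf (Rε x y ε) O) (ha : Act x y g false c e)
    (h1 : ∀ i, g (tt x ε i) ∈ O ∧ ¬ Un O (g (tt x ε i) - tt x ε i))
    (h2 : ∀ i, g (ww x y ε i) ∈ O ∧ ¬ Un O (g (ww x y ε i) - ww x y ε i)) : InO g O := by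
  have hg : g ∈ dg x y ⊤ := ⟨c, e, ha, Submonoid.mem_top _⟩
  refine Inert.toLoc (stable_RR ⊤ ε g hg) hO (inert_adjoin hO ?_)
  rintro f (⟨i, rfl⟩ | ⟨i, rfl⟩)
  · exact h1 i
  · exact h2 i

theorem not_un_tt_or (h : Ell x y) (hO : IsLocOf (Rε x y ε) O) (i : Fin 4) :
    Un O (tt x ε i) ∨ Un O (ww x y ε i) := by
  have ht : tt x ε i ∈ O := hO.le (t_mem_RR i)
  have hw : ww x y ε i ∈ O := hO.le (w_mem_RR i)
  have e1 : -tt x ε i ^ 4 + ww x y ε i ^ 2 = 1 := by
    rw [(h.chart ε).rel i]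
    ring
  rcases hO.add _ (neg_mem (pow_mem ht 4)) _ (pow_mem hw 2) (e1 ▸ un_one) with h1 | h1
  · exact Or.inl (Un.of_pow ht (n := 4) (by norm_num) (by simpa only [neg_neg] using h1.neg))
  · exact Or.inr (Un.of_pow hw (by norm_num) h1)

theorem inO_false (h : Ell x y) (hO : APt x y O) (hg : g ∈ GG x y) (hi : InO g O) :
    g ∈ NN x y := by
  obtain ⟨ε, hO⟩ := hO
  obtain ⟨s, c, e, ha, -, -, -, -, h5, h6⟩ := id hg
  rw [h.mem_NN hg ha]
  cases s with
  | false => rfl
  | true =>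
    exfalso
    have h2 : Act x y (g * g) false (fun i => c i * c (sw true i)) fun i => e i * e (sw true i) :=
      ha.mul ha
    have hi2 := InO.mul hO hi hi
    have a0 : sw true 0 = 2 := rfl
    have hc : c 0 * c 2 = -1 := h5
    have he : e 0 * e 2 = -1 := h6
    rcases not_un_tt_or h hO 0 with hu | hu
    · have := hi2.smul_eq hu (h2.tt ε 0)
      rw [a0, hc] at this
      split_ifs at this <;> norm_num at this
    · have := hi2.smul_eq hu (h2.ww ε 0)
      rw [a0, hc, he] at this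
      split_ifs at this <;> norm_num at this

/-- At a point where all `t` vanish the inertia group fixes the `w`. -/
theorem inO_t (h : Ell x y) (hO : IsLocOf (Rε x y ε) O) (ht : ∀ i, ¬ Un O (tt x ε i))
    (ha : Act x y g false c e) : InO g O ↔ (c, e) ∈ Pw ε := by
  constructor
  · intro hi i
    have h1 := hi.smul_eq ((not_un_tt_or h hO i).resolve_left (ht i)) (ha.ww ε i)
    have h4 := ha.c4 i
    change e i = if ε i then c i ^ 2 else 1
    split_ifs at h1 ⊢
    · linear_combination c i ^ 2 * h1 - e i * h4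
    · exact h1
  · intro hp
    refine iner_inO hO ha (fun i => iner_not_un (hO.le (t_mem_RR i)) (ht i) (ha.tt ε i))
      fun i => iner_fixed (hO.le (w_mem_RR i)) ?_
    have h1 : e i = if ε i then c i ^ 2 else 1 := hp i
    have h4 := ha.c4 i
    have h2 : (if ε i then e i * c i ^ 2 else e i) = 1 := by
      split_ifs at h1 ⊢
      · rw [h1]
        linear_combination h4
      · exact h1
    rw [ha.ww ε i, h2, one_smul]

/-- At a point where all `w` vanish the inertia group fixes the `t`. -/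
theorem inO_w (h : Ell x y) (hO : IsLocOf (Rε x y ε) O) (hw : ∀ i, ¬ Un O (ww x y ε i))
    (ha : Act x y g false c e) : InO g O ↔ c = 1 := by
  constructor
  · intro hi
    funext i
    have h1 := hi.smul_eq ((not_un_tt_or h hO i).resolve_right (hw i)) (ha.tt ε i)
    have h4 := ha.c4 i
    change c i = 1
    split_ifs at h1
    · linear_combination h4 - c i * h1
    · exact h1
  · intro hc
    refine iner_inO hO ha (fun i => iner_fixed (hO.le (t_mem_RR i)) ?_)
      fun i => iner_not_un (hO.le (w_mem_RR i)) (hw i) (ha.ww ε i)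
    rw [ha.tt ε i, hc]
    simp

theorem free_or (h : Ell x y) (hO : IsLocOf (Rε x y ε) O) :
    Free x y O ∨ (∀ i, ¬ Un O (tt x ε i)) ∨ ∀ i, ¬ Un O (ww x y ε i) := by
  by_cases hf : Free x y O
  · exact Or.inl hf
  right
  obtain ⟨g, hg, hi, hne⟩ : ∃ g ∈ GG x y, InO g O ∧ g ≠ 1 := by
    by_contra hn
    exact hf fun g hg hi => by_contra fun h1 => hn ⟨g, hg, hi, h1⟩
  obtain ⟨c, e, ha, ⟨h1, h2, h3, -⟩, he⟩ := inO_false h ⟨ε, hO⟩ hg hi
  have h1 : c 1 = c 0 := h1
  have h2 : c 3 = c 2 := h2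
  have h3 : c 0 * c 2 = 1 := h3
  have he : ∀ i, e i = e 0 := he
  have key : ∀ i, c i = 1 ↔ c 0 = 1 := by
    have k2 : c 2 = 1 ↔ c 0 = 1 :=
      ⟨fun k => by rwa [k, mul_one] at h3, fun k => by rwa [k, one_mul] at h3⟩
    intro i
    fin_cases i
    · exact Iff.rfl
    · exact h1 ▸ Iff.rfl
    · exact k2
    · exact h2 ▸ k2
  by_cases h0 : c 0 = 1
  · right
    intro i hu
    have hc : c = 1 := funext fun j => (key j).2 h0
    have k1 := hi.smul_eq hu (ha.ww ε i)
    have k2 : e i = 1 := by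
      rw [hc] at k1
      split_ifs at k1
      · simpa using k1
      · exact k1
    have hee : e = 1 := funext fun j => (he j).trans ((he i).symm.trans k2)
    rw [hc, hee] at ha
    exact hne (h.act_ext ha act_one)
  · left
    intro i hu
    have k1 := hi.smul_eq hu (ha.tt ε i)
    have h4 := ha.c4 i
    refine h0 ((key i).1 ?_)
    split_ifs at k1
    · linear_combination h4 - c i * k1
    · exact k1

theorem free_of_un (h : Ell x y) (hO : IsLocOf (Rε x y ε) O) {i : Fin 4}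
    (hu : Un O (tt x ε i * ww x y ε i)) : Free x y O := by
  have ht : tt x ε i ∈ O := hO.le (t_mem_RR i)
  have hw : ww x y ε i ∈ O := hO.le (w_mem_RR i)
  rcases free_or h hO with h1 | h1 | h1
  · exact h1
  · exact absurd (Un.of_mul_left ht hw hu) (h1 i)
  · exact absurd (Un.of_mul_right ht hw hu) (h1 i)

end Pool.Agent.P.MP_63735c_ag.Ta
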