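import Pool.Agent.P.MP_63735c_ag.TaIner

/-! Inertia groups. -/

noncomputable section

namespace Pool.Agent.P.MP_63735c_ag.Ta

variable {K : Type} [Field K] [Algebra ℂ K] {x y : Fin 4 → K} {O O' : Subalgebra ℂ K}
  {g : K ≃ₐ[ℂ] K} {ε : Fin 4 → Bool} {s : Bool} {c e : Fin 4 → ℂ}

/-- At a point that is not free some inert element acts by `-1` on the tangent space. -/
theorem exists_neg (h : Ell x y) (hO : APt x y O) (hf : ¬ Free x y O) :
    ∃ g ∈ GG x y, InO g O ∧ ∃ c e, Act x y g false c e ∧ ∀ i, c i = -e i := by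
  obtain ⟨ε, hO⟩ := hO
  rcases free_or h hO with h1 | h1 | h1
  · exact absurd h1 hf
  · obtain ⟨g, hg⟩ := h.exists_act (c := fun _ => -1) (e := fun _ => 1) false
      (fun _ => by norm_num) fun _ => by norm_num
    refine ⟨g, ⟨false, _, _, hg, rfl, rfl, rfl, rfl, by simp [sg], by simp [sg]⟩,
      (inO_t h hO h1 hg).2 fun i => ?_, _, _, hg, fun _ => rfl⟩
    simp
  · obtain ⟨g, hg⟩ := h.exists_act (c := 1) (e := fun _ => -1) false
      (fun _ => by simp) fun _ => by norm_num
    exact ⟨g, ⟨false, _, _, hg, rfl, rfl, rfl, rfl, by simp [sg], by simp [sg]⟩,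
      (inO_w h hO h1 hg).2 rfl, _, _, hg, fun _ => by simp⟩

/-- A point where all `w` vanish lies in the chart of finite `x`. -/
theorem isLocOf_zero (h : Ell x y) (hO : IsLocOf (Rε x y ε) O) (hw : ∀ i, ¬ Un O (ww x y ε i)) :
    IsLocOf (Rε x y fun _ => false) O ∧ ∀ i, ¬ Un O (ww x y (fun _ => false) i) := by
  have hx : ∀ i, Un O (x i) := fun i => by
    have h1 := (not_un_tt_or h hO i).resolve_right (hw i)
    unfold tt at h1
    split_ifs at h1
    · simpa using h1.inv
    · exact h1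
  have hb : ∀ ε', Un O (be x ε') := fun ε' => Un.prod _ fun i _ => by
    split_ifs
    · exact hx i
    · exact un_one
  refine ⟨?_, fun i hi => hw i ?_⟩
  · rw [← h.chart_be] at hO ⊢
    exact h.VV.switch (h.be_mem ε) (h.be_ne ε) one_pos (h.be_mem _) one_pos hO
      (((hb _).pow 1).div ((hb ε).pow 1))
  · have hy : Un O (y i) := by simpa [ww] using hi
    unfold ww
    split_ifs
    · exact hy.div ((hx i).pow 2)
    · exact hy

/-- Galois coordinates near a free point. -/
theorem exists_dual_free (h : Ell x y) {a : Fin 5} (hO : IsLocOf (h.CC a) O) (hf : Free x y O) :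
    ∃ u ∈ h.BB a, Un O u ∧ ∃ (r : ℕ) (p q : Fin r → K),
      Dual (GG x y) ⊥ (away (h.CC a) u) p q := by
  have := h.finite_GG
  have hn : NormalIn ⊥ (GG x y) := ⟨bot_le, fun g _ k hk => by
    rw [Subgroup.mem_bot.1 hk, mul_one, mul_inv_cancel]
    exact one_mem _⟩
  obtain ⟨u, hu, hun, r, p, q, hd⟩ := eq_lemma (h.stable_CC a) hn hO fun g hg hi =>
    Subgroup.mem_bot.2 (hf g hg (hi.toLoc (h.stable_CC a g hg) hO))
  rw [inv_bot] at hd
  exact ⟨u, hu, hun, r, p, q, hd⟩

theorem Ell.XPt.formallySmooth {h : Ell x y} (hO : h.XPt O) (hO' : APt x y O') (hd : Dom O O')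
    (hf : Free x y O') : Algebra.FormallySmooth ℂ O := by
  have := h.finite_GG
  obtain ⟨a, h1, h2⟩ := hO.common hO' hd
  obtain ⟨u, hu, hun, r, p, q, hD⟩ := exists_dual_free h h2 hf
  have h3 := hD.formallySmooth (stable_away (h.stable_CC a) hu.2) bot_le
    (fun g hg f _ => by rw [Subgroup.mem_bot.1 hg]; rfl) (ft_away (h.ft_CC a))
    ((et_away hu.1 hun.2.1).formallySmooth (h.smooth_CC a))
  rw [inv_away hu hun.2.1] at h3
  exact (h1.away (hd.2 u (h1.le hu) hun)).formallySmooth h3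

end Pool.Agent.P.MP_63735c_ag.Ta
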