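import Pool.Agent.P.MP_63735c_ag.TaLocC

/-! Invariants of a finite group: finiteness, lying over, inertia. -/

noncomputable section

namespace Pool.Agent.P.MP_63735c_ag.Ta

variable {K : Type} [Field K] [Algebra ℂ K] {C D O O' : Subalgebra ℂ K} {f s : K}
  {G H : Subgroup (K ≃ₐ[ℂ] K)}

theorem inv_le : inv G C ≤ C := fun _ h => h.1

theorem inv_bot : inv ⊥ C = C := by
  refine le_antisymm inv_le fun f hf => ⟨hf, fun g hg => ?_⟩
  rw [Subgroup.mem_bot.1 hg]
  rfl

theorem inv_inv_of_le (h : H ≤ G) : inv G (inv H C) = inv G C :=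
  le_antisymm (fun _ hf => ⟨hf.1.1, hf.2⟩) fun _ hf => ⟨⟨hf.1, fun g hg => hf.2 g (h hg)⟩, hf.2⟩

theorem stable_inv (hH : NormalIn H G) (hC : Stable G C) : Stable G (inv H C) := by
  intro g hg f hf
  refine ⟨hC g hg f hf.1, fun h hh => ?_⟩
  have h1 := hf.2 _ (hH.2 g⁻¹ (inv_mem hg) h hh)
  rw [inv_inv, AlgEquiv.mul_apply, AlgEquiv.mul_apply] at h1
  have h2 := congrArg g h1
  rwa [← AlgEquiv.mul_apply g g⁻¹, mul_inv_cancel, AlgEquiv.one_apply] at h2

theorem stable_away (hC : Stable G C) (hs : ∀ g ∈ G, g s = s) : Stable G (away C s) := by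
  intro g hg f hf
  induction hf using Algebra.adjoin_induction with
  | mem x hx =>
    rcases hx with rfl | hx
    · rw [map_inv₀, hs g hg]
      exact inv_mem_away
    · exact le_away (hC g hg x hx)
  | algebraMap r =>
    rw [g.commutes]
    exact Subalgebra.algebraMap_mem _ r
  | add x y _ _ hx hy =>
    rw [map_add]
    exact add_mem hx hy
  | mul x y _ _ hx hy =>
    rw [map_mul]
    exact mul_mem hx hy

theorem inv_away (hs : s ∈ inv G C) (h0 : s ≠ 0) : inv G (away C s) = away (inv G C) s := by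
  ext f
  rw [mem_away hs h0, mem_inv, mem_away hs.1 h0]
  constructor
  · rintro ⟨⟨n, hn⟩, hf⟩
    exact ⟨n, hn, fun g hg => by rw [map_mul, map_pow, hs.2 g hg, hf g hg]⟩
  · rintro ⟨n, hn, hf⟩
    refine ⟨⟨n, hn⟩, fun g hg => ?_⟩
    have := hf g hg
    rw [map_mul, map_pow, hs.2 g hg] at this
    exact mul_left_cancel₀ (pow_ne_zero n h0) this

theorem Stable.map_eq (hC : Stable G C) {g : K ≃ₐ[ℂ] K} (hg : g ∈ G) :
    C.map (g : K →ₐ[ℂ] K) = C := by
  refine le_antisymm ?_ fun f hf => ?_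
  · rintro _ ⟨f, hf, rfl⟩
    exact hC g hg f hf
  · refine ⟨g⁻¹ f, hC _ (inv_mem hg) f hf, ?_⟩
    show g (g⁻¹ f) = f
    rw [← AlgEquiv.mul_apply, mul_inv_cancel, AlgEquiv.one_apply]

variable [Finite G]

/-- The average over `G`. -/
def avg (G : Subgroup (K ≃ₐ[ℂ] K)) (f : K) : K := (Nat.card G : ℂ)⁻¹ • ∑ᶠ g : G, (g : K ≃ₐ[ℂ] K) f

theorem avg_fixed (f : K) : ∀ g ∈ G, g (avg G f) = avg G f := by
  intro g hg
  let := Fintype.ofFinite G
  unfold avg
  rw [map_smul, finsum_eq_sum_of_fintype, map_sum]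
  congr 1
  exact Fintype.sum_equiv (Equiv.mulLeft (⟨g, hg⟩ : G)) _ _ fun h => rfl

theorem avg_sub_mem {a : K} (ha : ∀ g ∈ G, g a = a) (h : ∀ g ∈ G, g (f - a) ∈ O) :
    avg G f - a ∈ O := by
  let := Fintype.ofFinite G
  have hc : (Nat.card G : ℂ) ≠ 0 := Nat.cast_ne_zero.2 Nat.card_pos.ne'
  have e : avg G f - a = (Nat.card G : ℂ)⁻¹ • ∑ g : G, (g : K ≃ₐ[ℂ] K) (f - a) := by
    unfold avg
    have e2 : ∑ g : G, (g : K ≃ₐ[ℂ] K) (f - a) =
        ∑ g : G, (g : K ≃ₐ[ℂ] K) f - (Nat.card G : ℂ) • a := by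
      rw [Finset.sum_congr rfl fun (g : G) _ => (map_sub (g : K ≃ₐ[ℂ] K) f a).trans
        (by rw [ha g g.2]), Finset.sum_sub_distrib, Finset.sum_const, Finset.card_univ,
        Nat.card_eq_fintype_card, Nat.cast_smul_eq_nsmul]
    rw [finsum_eq_sum_of_fintype, e2, smul_sub, smul_smul, inv_mul_cancel₀ hc, one_smul]
  rw [e]
  exact O.smul_mem (sum_mem fun (g : G) _ => h g g.2) _

theorem isIntegral_inv (hC : Stable G C) (hf : f ∈ C) : IsIntegral (inv G C) f := by
  let := Fintype.ofFinite G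
  have h1 : MulSemiringAction.charpoly G f ∈ Polynomial.lifts (algebraMap C K) := by
    rw [MulSemiringAction.charpoly_eq]
    refine Subsemiring.prod_mem _ fun g _ => ?_
    refine ⟨Polynomial.X - Polynomial.C ⟨_, hC g g.2 f hf⟩, ?_⟩
    simp only [Polynomial.coe_mapRingHom, Polynomial.map_sub, Polynomial.map_X, Polynomial.map_C]
    rfl
  have h2 : MulSemiringAction.charpoly G f ∈ Polynomial.lifts (algebraMap (inv G C) K) := by
    rw [Polynomial.lifts_iff_coeff_lifts] at h1 ⊢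
    intro n
    obtain ⟨c, hc⟩ := h1 n
    have hm : (MulSemiringAction.charpoly G f).coeff n ∈ C := by
      rw [← hc]
      exact c.2
    exact ⟨⟨(MulSemiringAction.charpoly G f).coeff n, hm, fun g hg =>
      MulSemiringAction.smul_coeff_charpoly f n (⟨g, hg⟩ : G)⟩, rfl⟩
  obtain ⟨p, hp, -, hm⟩ :=
    Polynomial.lifts_and_natDegree_eq_and_monic h2 (MulSemiringAction.monic_charpoly G f)
  refine ⟨p, hm, ?_⟩
  rw [← Polynomial.eval_map, hp, MulSemiringAction.eval_charpoly]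

theorem inv_isIntegral_incl (hC : Stable G C) :
    letI := (Subalgebra.inclusion (inv_le (G := G) (C := C))).toRingHom.toAlgebra
    Algebra.IsIntegral (inv G C) C := by
  let := (Subalgebra.inclusion (inv_le (G := G) (C := C))).toRingHom.toAlgebra
  have : IsScalarTower (inv G C) C K := IsScalarTower.of_algebraMap_eq fun _ => rfl
  exact ⟨fun c => (isIntegral_algebraMap_iff (B := K) Subtype.val_injective).1
    (isIntegral_inv hC c.2)⟩

theorem ft_inv (hC : Stable G C) (h : Algebra.FiniteType ℂ C) :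
    Algebra.FiniteType ℂ (inv G C) := by
  let := (Subalgebra.inclusion (inv_le (G := G) (C := C))).toRingHom.toAlgebra
  have : IsScalarTower ℂ (inv G C) C := IsScalarTower.of_algebraMap_eq fun _ => rfl
  have := inv_isIntegral_incl hC
  have : Algebra.FiniteType (inv G C) C := Algebra.FiniteType.of_restrictScalars_finiteType ℂ _ _
  have : Module.Finite (inv G C) C := Algebra.IsIntegral.finite
  exact ⟨fg_of_fg_of_fg ℂ (inv G C) C h.out Module.Finite.fg_top
    (Subalgebra.inclusion_injective inv_le)⟩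

theorem inv_exists_over (hC : Stable G C) (h : IsLocOf (inv G C) O) (J : Ideal C)
    (hJ : ∀ c : inv G C, (⟨c, c.2.1⟩ : C) ∈ J → ¬ Un O (c : K)) :
    ∃ (Q : Ideal C) (_ : Q.IsPrime), J ≤ Q ∧ Dom O (locAt C Q) := by
  let := (Subalgebra.inclusion (inv_le (G := G) (C := C))).toRingHom.toAlgebra
  have := inv_isIntegral_incl hC
  obtain ⟨Q, hJQ, hQ, hc⟩ := Ideal.exists_ideal_over_prime_of_isIntegral h.ctr J
    (fun c hc => hJ c hc)
  have key : ∀ c (hc : c ∈ inv G C), Un O c ↔ (⟨c, hc.1⟩ : C) ∉ Q := by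
    intro c hcm
    have : (⟨c, hcm⟩ : inv G C) ∈ h.ctr ↔ (⟨c, hcm.1⟩ : C) ∈ Q := by
      rw [← hc]
      rfl
    rw [← this, h.mem_ctr, not_not]
  refine ⟨Q, hQ, hJQ, fun f hf => ?_, fun f hf hu => ?_⟩
  · obtain ⟨b, hb, hub, hbf⟩ := h.frac f hf
    exact ⟨⟨b, hb.1⟩, (key b hb).1 hub, hbf.1⟩
  · obtain ⟨b, hb, hub, hbf⟩ := h.frac f hf
    have h1 : Un (locAt C Q) b := (un_locAt Q ⟨b, hb.1⟩).2 ((key b hb).1 hub)
    have h2 := (un_locAt Q ⟨b * f, hbf.1⟩).1 (h1.mul hu)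
    exact Un.of_mul_right hub.1 hf ((key _ hbf).2 h2)

theorem lies_over (hC : Stable G C) (h : IsLocOf (inv G C) O) :
    ∃ O', IsLocOf C O' ∧ Dom O O' := by
  obtain ⟨Q, hQ, -, hd⟩ := inv_exists_over hC h ⊥ fun c hc hu =>
    hu.2.1 (congrArg Subtype.val (Ideal.mem_bot.1 hc))
  exact ⟨_, isLocOf_locAt Q, hd⟩

/-- An invariant function that is regular at all points over `O` lies in `O`. -/
theorem mem_of_over (hC : Stable G C) (h : IsLocOf (inv G C) O) (hf : ∀ g ∈ G, g f = f)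
    (H : ∀ O', IsLocOf C O' → Dom O O' → f ∈ O') : f ∈ O := by
  let J : Ideal C :=
    { carrier := {c | (c : K) * f ∈ C}
      add_mem' := fun {a b} ha hb => by
        show ((a : K) + b) * f ∈ C
        rw [add_mul]
        exact add_mem ha hb
      zero_mem' := by
        show (0 : K) * f ∈ C
        rw [zero_mul]
        exact zero_mem _
      smul_mem' := fun c a ha => by
        show ((c : K) * a) * f ∈ C
        rw [mul_assoc]
        exact mul_mem c.2 ha }
  by_cases hJ : ∀ c : inv G C, (⟨c, c.2.1⟩ : C) ∈ J → ¬ Un O (c : K)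
  · obtain ⟨Q, hQ, hJQ, hd⟩ := inv_exists_over hC h J hJ
    obtain ⟨b, hb, hbf⟩ := H _ (isLocOf_locAt Q) hd
    exact absurd (hJQ hbf) hb
  · push Not at hJ
    obtain ⟨c, hc, hu⟩ := hJ
    have h1 : (c : K) * f ∈ inv G C :=
      ⟨hc, fun g hg => by rw [map_mul, c.2.2 g hg, hf g hg]⟩
    have h2 := mul_mem hu.2.2 (h.le h1)
    rwa [← mul_assoc, inv_mul_cancel₀ hu.2.1, one_mul] at h2

end Pool.Agent.P.MP_63735c_ag.Ta
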