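import Pool.Agent.P.MP_63735c_ag.TaInv

/-! Invariants of a finite group: finiteness, lying over, inertia. -/

noncomputable section

namespace Pool.Agent.P.MP_63735c_ag.Ta

variable {K : Type} [Field K] [Algebra ℂ K] {C D O O' : Subalgebra ℂ K} {f s : K}
  {G H : Subgroup (K ≃ₐ[ℂ] K)}

theorem invb_un (hf : f ∈ inv G O) (hu : Un O f) : Un (inv G O) f :=
  ⟨hf, hu.2.1, hu.2.2, fun g hg => by rw [map_inv₀, hf.2 g hg]⟩

/-- The character `c ↦ x c` modulo the centre of `O`. -/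
def invbChi (hC : Stable G C) (h : IsLocOf C O) (x : K ≃ₐ[ℂ] K) (hx : x ∈ G) :
    C →* (C ⧸ h.ctr) where
  toFun c := Ideal.Quotient.mk h.ctr ⟨x c, hC x hx c c.2⟩
  map_one' := by
    rw [← map_one (Ideal.Quotient.mk h.ctr)]
    exact congrArg _ (Subtype.ext (by simp))
  map_mul' a b := by
    rw [← map_mul]
    exact congrArg _ (Subtype.ext (by simp))

theorem invbChi_apply (hC : Stable G C) (h : IsLocOf C O) (x : K ≃ₐ[ℂ] K) (hx : x ∈ G) (c : C) :
    invbChi hC h x hx c = Ideal.Quotient.mk h.ctr ⟨x c, hC x hx c c.2⟩ := rfl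

variable [Finite G]

/-- At a point fixed by all of `G` the invariants of the local ring are a local ring. -/
theorem IsLocOf.inv (hC : Stable G C) (h : IsLocOf C O) (hin : ∀ g ∈ G, Inert g C O) :
    IsLocOf (inv G C) (inv G O) ∧ Dom (inv G O) O := by
  classical
  have := Fintype.ofFinite G
  refine ⟨⟨fun f hf => ⟨h.le hf.1, hf.2⟩, fun a ha b hb hab => ?_, fun f hf => ?_⟩,
    inv_le, fun f hf hu => invb_un hf hu⟩
  · exact (h.add a ha.1 b hb.1 (hab.mono inv_le)).imp (invb_un ha) (invb_un hb)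
  · obtain ⟨b, hb, hu, hbf⟩ := h.frac f hf.1
    have hgb : ∀ g : G, (g : K ≃ₐ[ℂ] K) b ∈ C := fun g => hC g g.2 b hb
    have hun : ∀ g : G, Un O ((g : K ≃ₐ[ℂ] K) b) := by
      intro g
      have h1 : Un O ((g : K ≃ₐ[ℂ] K) b + -((g : K ≃ₐ[ℂ] K) b - b)) := by simpa using hu
      refine (h.add _ (h.le (hgb g)) _ (neg_mem (h.le (sub_mem (hgb g) hb))) h1).resolve_right
        fun h2 => hin g g.2 b hb ?_
      simpa using h2.neg
    have hfix : ∀ g ∈ G, g (∏ x : G, (x : K ≃ₐ[ℂ] K) b) = ∏ x : G, (x : K ≃ₐ[ℂ] K) b := by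
      intro g hg
      rw [map_prod]
      exact Fintype.prod_equiv (Equiv.mulLeft (⟨g, hg⟩ : G)) _ _ fun x => rfl
    have hN : (∏ x : G, (x : K ≃ₐ[ℂ] K) b) ∈ C := prod_mem fun x _ => hgb x
    refine ⟨∏ x : G, (x : K ≃ₐ[ℂ] K) b, ⟨hN, hfix⟩,
      invb_un ⟨h.le hN, hfix⟩ (Un.prod _ fun x _ => hun x), ?_, fun g hg => ?_⟩
    · rw [← Finset.prod_erase_mul _ _ (Finset.mem_univ (1 : G)), mul_assoc]
      exact mul_mem (prod_mem fun x _ => hgb x) hbf
    · rw [map_mul, hfix g hg, hf.2 g hg]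

/-- Independence of characters: inertia in the ring of `H`-invariants. -/
theorem dedekind (hC : Stable G C) (hH : H ≤ G) (h : IsLocOf C O)
    (hin : ∀ g ∈ G, Inert g C O → g ∈ H) {g : K ≃ₐ[ℂ] K} (hg : g ∈ G) (hg' : g ∉ H) :
    ∃ f ∈ inv H C, Un O (g f - f) := by
  classical
  have : Finite H := Finite.of_injective _ (Subgroup.inclusion_injective hH)
  have := Fintype.ofFinite H
  have : Nontrivial (C ⧸ h.ctr) := Ideal.Quotient.nontrivial_iff.2 h.ctr_isPrime.ne_top
  have : CharZero (C ⧸ h.ctr) := charZero_of_injective_algebraMap (algebraMap ℂ _).injective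
  by_contra hn
  have hn' : ∀ f ∈ inv H C, ¬ Un O (g f - f) := fun f hf hu => hn ⟨f, hf, hu⟩
  have hne : ∀ x : H, invbChi hC h (g * x) (mul_mem hg (hH x.2)) ≠ invbChi hC h 1 (one_mem G) := by
    intro x hx
    have h1 : g * (x : K ≃ₐ[ℂ] K) ∈ H := by
      refine hin _ (mul_mem hg (hH x.2)) fun c hc => ?_
      have h2 := DFunLike.congr_fun hx ⟨c, hc⟩
      rw [invbChi_apply, invbChi_apply, Ideal.Quotient.eq] at h2
      exact h2
    exact hg' ((Subgroup.mul_mem_cancel_right H x.2).1 h1)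
  have hli := linearIndependent_iff.1 (linearIndependent_monoidHom C (C ⧸ h.ctr))
    (∑ x : H, Finsupp.single (invbChi hC h (g * x) (mul_mem hg (hH x.2))) 1 -
      ∑ x : H, Finsupp.single (invbChi hC h x (hH x.2)) 1) (by
    funext c
    have ht : (∑ x : H, (x : K ≃ₐ[ℂ] K) c) ∈ inv H C := by
      refine ⟨sum_mem fun x _ => hC x (hH x.2) c c.2, fun y hy => ?_⟩
      rw [map_sum]
      exact Fintype.sum_equiv (Equiv.mulLeft (⟨y, hy⟩ : H)) _ _ fun x => rfl
    have h3 := hn' _ ht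
    simp only [map_sub, map_sum, Finsupp.linearCombination_single, one_smul, Pi.sub_apply,
      Finset.sum_apply, Pi.zero_apply, invbChi_apply]
    rw [← map_sum, ← map_sum, ← map_sub, Ideal.Quotient.eq_zero_iff_mem, h.mem_ctr]
    simpa [map_sum] using h3)
  have h4 := DFunLike.congr_fun hli (invbChi hC h 1 (one_mem G))
  rw [Finsupp.sub_apply, Finsupp.finsetSum_apply, Finsupp.finsetSum_apply,
    Finset.sum_eq_zero fun x _ => Finsupp.single_eq_of_ne (hne x).symm] at h4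
  simp only [Finsupp.single_apply, Finset.sum_boole, Finsupp.coe_zero, Pi.zero_apply, zero_sub,
    neg_eq_zero, Nat.cast_eq_zero, Finset.card_eq_zero, Finset.filter_eq_empty_iff] at h4
  exact h4 (Finset.mem_univ 1) rfl

end Pool.Agent.P.MP_63735c_ag.Ta
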