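import Pool.Agent.P.MP_63735c_ag.TaH1Abs
import Pool.Agent.P.MP_63735c_ag.TaEmb

/-! `Proj` of a graded `ℂ`-algebra as a scheme over `ℂ`. -/

open CategoryTheory AlgebraicGeometry HomogeneousLocalization

noncomputable section

namespace Pool.Agent.P.MP_63735c_ag.Ta

variable {C : Type} [CommRing C] [Algebra ℂ C] (𝒜 : ℕ → Submodule ℂ C) [GradedAlgebra 𝒜]

/-- The structure morphism. -/
def kitStr : Proj 𝒜 ⟶ Spec (CommRingCat.of ℂ) :=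
  Proj.toSpecZero 𝒜 ≫ Spec.map (CommRingCat.ofHom (algebraMap ℂ (𝒜 0)))

theorem kit_const_away {k : ℕ} {g : C} (hg : g ∈ 𝒜 k) (hk : 0 < k) (c : ℂ) :
    const (kitStr 𝒜) (Proj.basicOpen 𝒜 g) c =
      Proj.awayToSection 𝒜 g (fromZeroRingHom 𝒜 _ (algebraMap ℂ (𝒜 0) c)) := by
  have hV := Proj.isAffineOpen_basicOpen 𝒜 g hg hk
  have h1 := IsAffineOpen.SpecMap_appLE_fromSpec (kitStr 𝒜) (isAffineOpen_top _) hV le_top
  have h2 : hV.fromSpec = Spec.map (Proj.awayToSection 𝒜 g) ≫ Proj.awayι 𝒜 g hg hk := by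
    rw [← cancel_epi hV.isoSpec.hom, IsAffineOpen.isoSpec_hom, IsAffineOpen.toSpecΓ_fromSpec,
      ← Category.assoc]
    exact ((Proj.basicOpenIsoSpec 𝒜 g hg hk).hom_inv_id_assoc _).symm
  rw [IsAffineOpen.fromSpec_top, Scheme.isoSpec_Spec_inv, ← Spec.map_comp, h2] at h1
  have h3 : (Spec.map (Proj.awayToSection 𝒜 g) ≫ Proj.awayι 𝒜 g hg hk) ≫ kitStr 𝒜 =
      Spec.map (CommRingCat.ofHom (algebraMap ℂ (𝒜 0)) ≫
        CommRingCat.ofHom (fromZeroRingHom 𝒜 _) ≫ Proj.awayToSection 𝒜 g) := by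
    rw [kitStr, Category.assoc, Proj.awayι_toSpecZero_assoc, Spec.map_comp, Spec.map_comp,
      Category.assoc]
  exact congrArg (fun φ => φ.hom c) (Spec.map_injective (h1.trans h3))

theorem kit_fromZero {k : ℕ} {g : C} (hg : g ∈ 𝒜 k) (a : 𝒜 0) :
    fromZeroRingHom 𝒜 (Submonoid.powers g) a = Away.mk 𝒜 hg 0 a (by simp) := by
  apply val_injective
  simp only [Away.val_mk, pow_zero]
  rfl

theorem kit_isProper_zero (h : Algebra.FiniteType ℂ C) : IsProper (Proj.toSpecZero 𝒜) := by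
  have : Algebra.FiniteType (𝒜 0) C := RingHom.finiteType_algebraMap.1
    (RingHom.FiniteType.of_comp_finiteType (f := algebraMap ℂ (𝒜 0))
      (show (algebraMap ℂ C).FiniteType from RingHom.finiteType_algebraMap.2 h))
  infer_instance

theorem kit_lfp (h : Algebra.FiniteType ℂ C) : LocallyOfFinitePresentation (kitStr 𝒜) := by
  have := kit_isProper_zero 𝒜 h
  have h1 : (algebraMap ℂ (𝒜 0)).FiniteType := by
    have : algebraMap ℂ (𝒜 0) = (GradedRing.projZeroRingHom' 𝒜).comp (algebraMap ℂ C) :=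
      RingHom.ext fun c => (GradedRing.projZeroRingHom'_apply_coe 𝒜 (algebraMap ℂ (𝒜 0) c)).symm
    rw [this]
    exact (RingHom.FiniteType.of_surjective _ (GradedRing.projZeroRingHom'_surjective 𝒜)).comp
      (RingHom.finiteType_algebraMap.2 h)
  have : LocallyOfFiniteType (Spec.map (CommRingCat.ofHom (algebraMap ℂ (𝒜 0)))) :=
    HasRingHomProperty.Spec_iff.2 h1
  have : LocallyOfFiniteType (kitStr 𝒜) := by
    unfold kitStr
    infer_instance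
  infer_instance

theorem kit_isProper (h : Algebra.FiniteType ℂ C)
    (h0 : ∀ a ∈ 𝒜 0, ∃ c : ℂ, algebraMap ℂ C c = a) : IsProper (kitStr 𝒜) := by
  have := kit_isProper_zero 𝒜 h
  have : IsClosedImmersion (Spec.map (CommRingCat.ofHom (algebraMap ℂ (𝒜 0)))) :=
    IsClosedImmersion.spec_of_surjective _ fun p => (h0 p p.2).imp fun _ hc => Subtype.ext hc
  unfold kitStr
  infer_instance

variable [IsDomain C] [IsIntegral (Proj 𝒜)] {K : Type} [Field K] (θ : C →+* K)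
  (hθ : ∀ n, ∀ a ∈ 𝒜 n, θ a = 0 → a = 0)

theorem kit_field_const (c : ℂ) : pjField 𝒜 θ hθ
    (letI := fieldAlg (kitStr 𝒜); algebraMap ℂ (Proj 𝒜).functionField c) = θ (algebraMap ℂ C c) := by
  obtain ⟨k, hk, g, hg, g0⟩ := h1_exists_pos 𝒜 (genericPoint (Proj 𝒜))
  have hx : genericPoint (Proj 𝒜) ∈ Proj.basicOpen 𝒜 g := g0
  have e1 : (letI := fieldAlg (kitStr 𝒜); algebraMap ℂ (Proj 𝒜).functionField c) =
      (Proj 𝒜).presheaf.germ _ _ hx (const (kitStr 𝒜) (Proj.basicOpen 𝒜 g) c) :=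
    ((Proj 𝒜).presheaf.germ_res_apply (homOfLE le_top) _ hx _).symm
  rw [e1, kit_const_away 𝒜 hg hk, kit_fromZero 𝒜 hg, pjField_away, pow_zero, div_one]
  rfl

theorem kit_const_mem (c : ℂ) (x : Proj 𝒜) :
    (letI := fieldAlg (kitStr 𝒜); algebraMap ℂ (Proj 𝒜).functionField c) ∈
      (algebraMap ((Proj 𝒜).presheaf.stalk x) (Proj 𝒜).functionField).range :=
  (pj_mem_stalk 𝒜 (algebraMap C (FractionRing C))
    fun _ _ _ h => (map_eq_zero_iff _ (IsFractionRing.injective _ _)).1 h).2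
    ⟨0, _, (algebraMap ℂ (𝒜 0) c).2, 1, SetLike.GradedOne.one_mem,
      (Ideal.ne_top_iff_one _).1 x.isPrime.ne_top, by
        rw [kit_field_const, map_one, mul_one]; rfl⟩

theorem kit_exists_emb [Algebra ℂ K] (hc : ∀ c, θ (algebraMap ℂ C c) = algebraMap ℂ K c)
    (π : Proj 𝒜 ⟶ Spec (CommRingCat.of ℂ)) (hπ : π = kitStr 𝒜) :
    ∃ E : Emb π K, E.φ = pjField 𝒜 θ hθ := by
  subst hπ
  exact ⟨⟨pjField 𝒜 θ hθ, fun x =>
    { ((algebraMap ((Proj 𝒜).presheaf.stalk x) (Proj 𝒜).functionField).range.map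
        (pjField 𝒜 θ hθ)) with
      algebraMap_mem' := fun c =>
        ⟨_, kit_const_mem 𝒜 c x, (kit_field_const 𝒜 θ hθ c).trans (hc c)⟩ },
    fun _ _ => Iff.rfl, fun c => (kit_field_const 𝒜 θ hθ c).trans (hc c)⟩, rfl⟩

theorem kit_mem_O [Algebra ℂ K] {π : Proj 𝒜 ⟶ Spec (CommRingCat.of ℂ)} {E : Emb π K}
    (hE : E.φ = pjField 𝒜 θ hθ) {x : Proj 𝒜} {f : K} : f ∈ E.O x ↔
    ∃ n, ∃ a ∈ 𝒜 n, ∃ b ∈ 𝒜 n, b ∉ x.asHomogeneousIdeal ∧ f * θ b = θ a := by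
  rw [E.mem_O, hE]
  constructor
  · rintro ⟨z, hz, rfl⟩
    exact (pj_mem_stalk 𝒜 θ hθ).1 hz
  · rintro ⟨n, a, ha, b, hb, hx, e⟩
    obtain ⟨z, rfl⟩ := (pj_mem_range 𝒜 θ hθ).2
      ⟨n, a, ha, b, hb, fun h0 => hx (h0 ▸ zero_mem _), e⟩
    exact ⟨z, (pj_mem_stalk 𝒜 θ hθ).2 ⟨n, a, ha, b, hb, hx, e⟩, rfl⟩

theorem kit_ring [Algebra ℂ K] {π : Proj 𝒜 ⟶ Spec (CommRingCat.of ℂ)} {E : Emb π K}
    (hE : E.φ = pjField 𝒜 θ hθ) {k : ℕ} {g : C} (hg : g ∈ 𝒜 k) (hk : 0 < k) (g0 : g ≠ 0) {f : K} :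
    (∃ n, ∃ a ∈ 𝒜 (n • k), f * θ g ^ n = θ a) ↔ ∀ x ∈ Proj.basicOpen 𝒜 g, f ∈ E.O x := by
  constructor
  · rintro ⟨n, a, ha, e⟩ x hx
    exact (kit_mem_O 𝒜 θ hθ hE).2 ⟨_, a, ha, g ^ n, SetLike.pow_mem_graded n hg,
      fun e => hx (x.isPrime.mem_of_pow_mem n e), by rw [map_pow, e]⟩
  · intro hf
    obtain ⟨z, -, rfl⟩ := (E.mem_O _ _).1 (hf _ (pj_generic_mem 𝒜 g0))
    rw [hE]
    refine (pj_reg_basicOpen 𝒜 θ hθ hk hg).1 fun x hx => ?_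
    obtain ⟨w, hw, e⟩ := (E.mem_O _ _).1 (hf x hx)
    exact E.φ.injective e ▸ hw

theorem kit_mem [Algebra ℂ K] {π : Proj 𝒜 ⟶ Spec (CommRingCat.of ℂ)} {E : Emb π K}
    (hE : E.φ = pjField 𝒜 θ hθ) {k : ℕ} {g : C} (hg : g ∈ 𝒜 k) (g0 : g ≠ 0) (x : Proj 𝒜)
    (hx : ∀ m, ∀ r ∈ 𝒜 m, θ r ^ k / θ g ^ m ∈ E.O x) : x ∈ Proj.basicOpen 𝒜 g := by
  have h0 : θ g ≠ 0 := fun e => g0 (hθ _ _ hg e)
  obtain ⟨m, hm, r, hr, hrx⟩ := h1_exists_pos 𝒜 x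
  obtain ⟨n, a, ha, b, hb, hbx, e⟩ := (kit_mem_O 𝒜 θ hθ hE).1 (hx m r hr)
  have e' : r ^ k * b = g ^ m * a := by
    have m1 : r ^ k * b ∈ 𝒜 (m * k + n) :=
      mul_comm k m ▸ SetLike.mul_mem_graded (SetLike.pow_mem_graded k hr) hb
    have m2 : g ^ m * a ∈ 𝒜 (m * k + n) := SetLike.mul_mem_graded (SetLike.pow_mem_graded m hg) ha
    refine sub_eq_zero.1 (hθ _ _ (sub_mem m1 m2) ?_)
    rw [map_sub, map_mul, map_mul, map_pow, map_pow, ← e]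
    field_simp
    ring
  intro hm'
  have : r ^ k * b ∈ x.asHomogeneousIdeal.toIdeal :=
    e' ▸ Ideal.mul_mem_right _ _ (Ideal.pow_mem_of_mem _ hm' m hm)
  exact (x.isPrime.mem_or_mem this).elim (fun h => hrx (x.isPrime.mem_of_pow_mem k h)) hbx

include hθ in
theorem kit_birational {k : ℕ} {g : C} (hg : g ∈ 𝒜 k) (hk : 0 < k) (g0 : g ≠ 0) (s : 𝒜 0)
    (h1 : ∃ n, ∃ a ∈ 𝒜 (n • k), θ s * θ a = θ g ^ n)
    (h2 : ∀ n, ∀ a ∈ 𝒜 (n • k), ∃ m, ∃ b ∈ 𝒜 0, θ a / θ g ^ n * θ s ^ m = θ b) :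
    Scheme.BirationalOver (Proj.toSpecZero 𝒜) (𝟙 _) := by
  have h0 : θ g ≠ 0 := fun e => g0 (hθ _ _ hg e)
  have hM : (0 : C) ∉ Submonoid.powers g := fun ⟨n, hn⟩ => pow_ne_zero n g0 hn
  obtain ⟨ev, hev⟩ : ∃ ev : Away 𝒜 g →+* K,
      ∀ n a ha, ev (Away.mk 𝒜 hg n a ha) = θ a / θ g ^ n :=
    ⟨pjEv 𝒜 θ hθ hM, fun n a ha => (pjEv_mk 𝒜 θ hθ hM _).trans (by simp)⟩
  have hinj : Function.Injective ev := (injective_iff_map_eq_zero _).2 fun z hz => by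
    obtain ⟨n, a, ha, rfl⟩ := Away.mk_surjective 𝒜 hg z
    rw [hev, div_eq_zero_iff, or_iff_left (pow_ne_zero _ h0)] at hz
    obtain rfl := hθ _ _ ha hz
    apply val_injective
    simp [Localization.mk_zero]
  have hz : ∀ a : 𝒜 0, ev (algebraMap (𝒜 0) (Away 𝒜 g) a) = θ a := fun a => by
    refine (congrArg ev (kit_fromZero 𝒜 hg a)).trans ?_
    rw [hev, pow_zero, div_one]
  have hloc : IsLocalization.Away s (Away 𝒜 g) := by
    refine IsLocalization.Away.mk _ ?_ (fun z => ?_) fun a b hab => ⟨0, ?_⟩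
    · obtain ⟨n, a, ha, e⟩ := h1
      refine IsUnit.of_mul_eq_one (Away.mk 𝒜 hg n a ha) (hinj ?_)
      rw [map_mul, hz, hev, map_one, ← mul_div_assoc, e, div_self (pow_ne_zero _ h0)]
    · obtain ⟨n, a, ha, rfl⟩ := Away.mk_surjective 𝒜 hg z
      obtain ⟨m, b, hb, e⟩ := h2 n a ha
      refine ⟨m, ⟨b, hb⟩, hinj ?_⟩
      rw [map_mul, map_pow, hz, hz, hev, e]
    · have := congrArg ev hab
      rw [hz, hz, ← sub_eq_zero, ← map_sub] at this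
      rw [Subtype.ext (sub_eq_zero.1 (hθ 0 _ (sub_mem a.2 b.2) this))]
  have : Nontrivial (Away 𝒜 g) := ev.domain_nontrivial
  have : IsDomain (𝒜 0) := Function.Injective.isDomain (algebraMap (𝒜 0) C) Subtype.val_injective
  have i1 : IsOpenImmersion
      (Spec.map (CommRingCat.ofHom (fromZeroRingHom 𝒜 (Submonoid.powers g)))) :=
    IsOpenImmersion.of_isLocalization (S := Away 𝒜 g) s
  have dom : ∀ {Y : Scheme.{0}} [IsIntegral Y] (j : Spec (CommRingCat.of (Away 𝒜 g)) ⟶ Y)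
      [IsOpenImmersion j], IsDominant j := fun j _ =>
    ⟨j.isOpenEmbedding.isOpen_range.dense (Set.range_nonempty _)⟩
  have i2 := dom (Proj.awayι 𝒜 _ hg hk)
  have i3 := dom (Spec.map (CommRingCat.ofHom (fromZeroRingHom 𝒜 (Submonoid.powers g))))
  exact (Scheme.Hom.birationalOver _ _ _ (Proj.awayι_toSpecZero 𝒜 _ hg hk)).symm.trans
    (Scheme.Hom.birationalOver _ _ _ (Category.comp_id _))

end Pool.Agent.P.MP_63735c_ag.Ta
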