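import Pool.Agent.P.MP_63735c_ag.TaEmbB
import Pool.Agent.P.MP_63735c_ag.TaFiltB
import Pool.Agent.P.MP_63735c_ag.TaKit1

/-! The `Proj` of a filtration. -/

open CategoryTheory AlgebraicGeometry

noncomputable section

namespace Pool.Agent.P.MP_63735c_ag.Ta.Filt

variable {K : Type} [Field K] [Algebra ℂ K] (F : Filt K) {k k' : ℕ} {h h' : K}

/-- The scheme of the filtration. -/
abbrev X : Scheme.{0} := Proj F.gr

/-- Evaluation at `T = 1`. -/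
def kitEv : F.S →+* K := (Polynomial.evalRingHom 1).comp F.S.val.toRingHom

theorem kitEv_hom (hh : h ∈ F.V k) : F.kitEv (F.hom hh) = h := by
  simp [kitEv, hom]

theorem kit_hom_ne (hh : h ∈ F.V k) (h0 : h ≠ 0) : F.hom hh ≠ 0 := fun e =>
  h0 (by rw [← F.kitEv_hom hh, e, map_zero])

theorem kitEv_mem {p : F.S} (hp : p ∈ F.gr k) : F.kitEv p ∈ F.V k := by
  rw [F.eq_hom hp, kitEv_hom]
  exact p.2 k

theorem kit_hom_ev {p : F.S} (hp : p ∈ F.gr k) : F.hom (F.kitEv_mem hp) = p := by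
  have : F.kitEv p = (p : Polynomial K).coeff k := by
    conv_lhs => rw [F.eq_hom hp]
    exact F.kitEv_hom _
  conv_rhs => rw [F.eq_hom hp]
  exact Subtype.ext (congrArg (Polynomial.monomial k) this)

theorem kitEv_eq_zero : ∀ n, ∀ a ∈ F.gr n, F.kitEv a = 0 → a = 0 := fun n a ha e => by
  by_contra h0
  rw [← F.kit_hom_ev ha] at h0
  exact h0 (Subtype.ext (by simp [hom, e]))

theorem kit_pos : ∃ n > 0, ∃ g ∈ F.gr n, g ≠ 0 := by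
  obtain ⟨k, hk, h, hh, h0⟩ := F.pos
  exact ⟨k, hk, _, F.hom_mem hh, F.kit_hom_ne hh h0⟩

instance isIntegral : IsIntegral F.X := pj_isIntegral F.gr F.kit_pos

/-- The structure morphism. -/
def str : F.X ⟶ Spec (CommRingCat.of ℂ) :=
  Proj.toSpecZero F.gr ≫ Spec.map (CommRingCat.ofHom (algebraMap ℂ (F.gr 0)))

/-- The open set where `h` does not vanish. -/
def D (hh : h ∈ F.V k) : F.X.Opens := Proj.basicOpen F.gr (F.hom hh)

theorem isAffineOpen_D (hh : h ∈ F.V k) (hk : 0 < k) : IsAffineOpen (F.D hh) :=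
  Proj.isAffineOpen_basicOpen F.gr _ (F.hom_mem hh) hk

theorem generic_mem_D (hh : h ∈ F.V k) (h0 : h ≠ 0) : genericPoint F.X ∈ F.D hh :=
  pj_generic_mem F.gr (F.kit_hom_ne hh h0)

theorem D_mul (hh : h ∈ F.V k) (hh' : h' ∈ F.V k') : F.D (F.mul_mem hh hh') = F.D hh ⊓ F.D hh' := by
  have : F.hom (F.mul_mem hh hh') = F.hom hh * F.hom hh' :=
    Subtype.ext (Polynomial.monomial_mul_monomial _ _ _ _).symm
  rw [D, this, Proj.basicOpen_mul]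
  rfl

theorem exists_D {U : F.X.Opens} {x : F.X} (hx : x ∈ U) :
    ∃ (k : ℕ) (h : K) (hh : h ∈ F.V k), 0 < k ∧ h ≠ 0 ∧ x ∈ F.D hh ∧ F.D hh ≤ U := by
  obtain ⟨m, hm, g, hg, h1, h2⟩ := h1_exists_basic F.gr U x hx
  refine ⟨m, _, F.kitEv_mem hg, hm, fun e => h1 (F.kitEv_eq_zero _ _ hg e ▸ zero_mem _), ?_, ?_⟩ <;>
    rwa [D, F.kit_hom_ev hg]

/-- The local rings of `Proj` inside `K`. -/
structure Kit (E : Emb F.str K) : Prop where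
  ring : ∀ {k : ℕ} {h : K} (hh : h ∈ F.V k), 0 < k → h ≠ 0 → E.IsRing (F.D hh) (F.chart k h)
  mem : ∀ {k : ℕ} {h : K} (hh : h ∈ F.V k), 0 < k → h ≠ 0 → ∀ x, F.chart k h ≤ E.O x → x ∈ F.D hh
  range : ∀ f, f ∈ E.φ.range ↔ ∃ k, ∃ a ∈ F.V k, ∃ b ∈ F.V k, b ≠ 0 ∧ f = a / b

theorem exists_kit : ∃ E, F.Kit E := by
  obtain ⟨E, hE⟩ := kit_exists_emb F.gr F.kitEv F.kitEv_eq_zero (fun c => by simp [kitEv]) F.str rfl
  refine ⟨E, fun {k h} hh hk h0 f => ?_, fun {k h} hh hk h0 x hx => ?_, fun f => ?_⟩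
  · refine ((F.mem_chart hh).trans ⟨?_, ?_⟩).trans
      (kit_ring F.gr F.kitEv F.kitEv_eq_zero hE (F.hom_mem hh) hk (F.kit_hom_ne hh h0))
    · rintro ⟨n, hn⟩
      exact ⟨n, _, F.hom_mem hn, by rw [kitEv_hom, kitEv_hom, mul_comm]⟩
    · rintro ⟨n, a, ha, e⟩
      rw [kitEv_hom, mul_comm] at e
      exact ⟨n, e ▸ F.kitEv_mem ha⟩
  · refine kit_mem F.gr F.kitEv F.kitEv_eq_zero hE (F.hom_mem hh) (F.kit_hom_ne hh h0) x
      fun m r hr => ?_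
    rw [kitEv_hom]
    exact hx (F.div_mem_chart h0 (mul_comm k m ▸ F.pow_mem (F.kitEv_mem hr) k))
  · rw [hE]
    refine (pj_mem_range F.gr F.kitEv F.kitEv_eq_zero).trans ⟨?_, ?_⟩
    · rintro ⟨n, a, ha, b, hb, b0, e⟩
      have : F.kitEv b ≠ 0 := fun h => b0 (F.kitEv_eq_zero _ _ hb h)
      exact ⟨n, _, F.kitEv_mem ha, _, F.kitEv_mem hb, this, eq_div_of_mul_eq this e⟩
    · rintro ⟨n, a, ha, b, hb, b0, rfl⟩
      exact ⟨n, _, F.hom_mem ha, _, F.hom_mem hb, F.kit_hom_ne hb b0, by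
        rw [kitEv_hom, kitEv_hom, div_mul_cancel₀ _ b0]⟩

theorem birational (hh : h ∈ F.V k) (hk : 0 < k) (h0 : h ≠ 0) {s : K} (hs : s ∈ F.zero)
    (hs0 : s ≠ 0) (e : F.chart k h = away F.zero s) :
    Scheme.BirationalOver (Proj.toSpecZero F.gr) (𝟙 _) := by
  refine kit_birational F.gr F.kitEv F.kitEv_eq_zero (F.hom_mem hh) hk (F.kit_hom_ne hh h0)
    ⟨F.hom hs, F.hom_mem hs⟩ ?_ fun n a ha => ?_
  · obtain ⟨n, hn⟩ := (F.mem_chart hh).1 (e ▸ inv_mem_away : s⁻¹ ∈ F.chart k h)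
    refine ⟨n, _, F.hom_mem hn, ?_⟩
    rw [kitEv_hom, kitEv_hom, kitEv_hom]
    field_simp
  · obtain ⟨m, hm⟩ := (mem_away hs hs0).1
      (e ▸ F.div_mem_chart h0 (F.kitEv_mem ha) : F.kitEv a / h ^ n ∈ away F.zero s)
    refine ⟨m, _, F.hom_mem hm, ?_⟩
    rw [kitEv_hom, kitEv_hom, kitEv_hom, mul_comm]

variable {F}

theorem FG.isProper_zero (hF : F.FG) : IsProper (Proj.toSpecZero F.gr) :=
  kit_isProper_zero F.gr hF

theorem FG.lfp (hF : F.FG) : LocallyOfFinitePresentation F.str := kit_lfp F.gr hF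

theorem FG.isProper (hF : F.FG) (h0 : ∀ f ∈ F.V 0, ∃ c : ℂ, f = algebraMap ℂ K c) :
    IsProper F.str := by
  refine kit_isProper F.gr hF fun p hp => ?_
  obtain ⟨c, hc⟩ := h0 _ (F.kitEv_mem hp)
  refine ⟨c, sub_eq_zero.1 (F.kitEv_eq_zero 0 _ (sub_mem (algebraMap ℂ (F.gr 0) c).2 hp) ?_)⟩
  rw [map_sub, hc, sub_eq_zero]
  simp [kitEv]

variable {E : Emb F.str K}

theorem Kit.loc (hE : F.Kit E) (hh : h ∈ F.V k) (hk : 0 < k) (h0 : h ≠ 0) {x : F.X}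
    (hx : x ∈ F.D hh) : IsLocOf (F.chart k h) (E.O x) :=
  E.isLocOf (F.isAffineOpen_D hh hk) (hE.ring hh hk h0) hx

theorem Kit.pt (hE : F.Kit E) (hh : h ∈ F.V k) (hk : 0 < k) (h0 : h ≠ 0) {O : Subalgebra ℂ K}
    (hO : IsLocOf (F.chart k h) O) : ∃ x ∈ F.D hh, E.O x = O :=
  E.exists_point (F.isAffineOpen_D hh hk) (F.generic_mem_D hh h0) (hE.ring hh hk h0) hO

theorem Kit.mem_D_iff (hE : F.Kit E) (hh : h ∈ F.V k) (hk : 0 < k) (h0 : h ≠ 0) (hh' : h' ∈ F.V k')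
    (hk' : 0 < k') (h0' : h' ≠ 0) {x : F.X} (hx : x ∈ F.D hh) :
    x ∈ F.D hh' ↔ Un (E.O x) (h' ^ k / h ^ k') :=
  ⟨fun hx' => F.un_of_charts hh h0 hh' h0' (hE.loc hh hk h0 hx).le (hE.loc hh' hk' h0' hx').le,
    fun hu => hE.mem hh' hk' h0' x (F.switch hh h0 hk hh' hk' (hE.loc hh hk h0 hx) hu).le⟩

theorem Kit.cover (hE : F.Kit E) {ι : Type} {h : ι → K} (hh : ∀ i, h i ∈ F.V k ∧ h i ≠ 0)
    (hk : 0 < k) (hc : F.Covers k h) : ⨆ i, F.D (hh i).1 = ⊤ := by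
  refine eq_top_iff.2 fun x _ => ?_
  obtain ⟨l, f, hf, hl, f0, hx, -⟩ := F.exists_D (U := ⊤) (x := x) trivial
  obtain ⟨i, hi⟩ := hc l hl f hf f0 _ (hE.loc hf hl f0 hx)
  exact TopologicalSpace.Opens.mem_iSup.2 ⟨i, (hE.mem_D_iff hf hl f0 (hh i).1 hk (hh i).2 hx).2 hi⟩

end Pool.Agent.P.MP_63735c_ag.Ta.Filt
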