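import Pool.Agent.P.MP_63735c_ag.TaBase

/-! Units, local rings, localisations and etale inclusions of subalgebras of a field. -/

noncomputable section

namespace Pool.Agent.P.MP_63735c_ag.Ta

variable {K : Type} [Field K] [Algebra ℂ K] {B C D O O' : Subalgebra ℂ K} {f g s : K}

theorem un_one : Un O 1 := ⟨one_mem _, one_ne_zero, by simp⟩

theorem Un.mul (hf : Un O f) (hg : Un O g) : Un O (f * g) :=
  ⟨mul_mem hf.1 hg.1, mul_ne_zero hf.2.1 hg.2.1, by rw [mul_inv]; exact mul_mem hf.2.2 hg.2.2⟩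

theorem Un.inv (hf : Un O f) : Un O f⁻¹ := ⟨hf.2.2, inv_ne_zero hf.2.1, by simpa using hf.1⟩

theorem Un.div (hf : Un O f) (hg : Un O g) : Un O (f / g) := by
  rw [div_eq_mul_inv]
  exact hf.mul hg.inv

theorem Un.pow (hf : Un O f) (n : ℕ) : Un O (f ^ n) :=
  ⟨pow_mem hf.1 n, pow_ne_zero n hf.2.1, by rw [← inv_pow]; exact pow_mem hf.2.2 n⟩

theorem Un.neg (hf : Un O f) : Un O (-f) :=
  ⟨neg_mem hf.1, neg_ne_zero.2 hf.2.1, by rw [inv_neg]; exact neg_mem hf.2.2⟩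

theorem Un.mono (hf : Un O f) (h : O ≤ O') : Un O' f := ⟨h hf.1, hf.2.1, h hf.2.2⟩

theorem un_of_mul_eq_one (hf : f ∈ O) (hg : g ∈ O) (h : f * g = 1) : Un O f :=
  ⟨hf, left_ne_zero_of_mul_eq_one h, by rwa [← eq_inv_of_mul_eq_one_right h]⟩

theorem Un.of_mul_left (hf : f ∈ O) (hg : g ∈ O) (h : Un O (f * g)) : Un O f :=
  un_of_mul_eq_one hf (mul_mem hg h.2.2) (by rw [← mul_assoc, mul_inv_cancel₀ h.2.1])

theorem Un.of_mul_right (hf : f ∈ O) (hg : g ∈ O) (h : Un O (f * g)) : Un O g :=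
  Un.of_mul_left hg hf (by rwa [mul_comm])

theorem Un.of_pow (hf : f ∈ O) {n : ℕ} (hn : 0 < n) (h : Un O (f ^ n)) : Un O f := by
  obtain ⟨m, rfl⟩ := Nat.exists_eq_succ_of_ne_zero hn.ne'
  rw [pow_succ] at h
  exact Un.of_mul_right (pow_mem hf m) hf h

theorem un_const {c : ℂ} (hc : c ≠ 0) : Un O (algebraMap ℂ K c) :=
  un_of_mul_eq_one (O.algebraMap_mem c) (O.algebraMap_mem c⁻¹)
    (by rw [← map_mul, mul_inv_cancel₀ hc, map_one])

theorem Un.smul (hf : Un O f) {c : ℂ} (hc : c ≠ 0) : Un O (c • f) := by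
  rw [Algebra.smul_def]
  exact (un_const hc).mul hf

theorem Un.prod {ι : Type} (t : Finset ι) {a : ι → K} (h : ∀ i ∈ t, Un O (a i)) :
    Un O (∏ i ∈ t, a i) :=
  Finset.prod_induction a (Un O) (fun _ _ => Un.mul) un_one h

theorem un_iff_isUnit (hf : f ∈ O) : Un O f ↔ IsUnit (⟨f, hf⟩ : O) := by
  constructor
  · intro h
    exact IsUnit.of_mul_eq_one ⟨f⁻¹, h.2.2⟩ (Subtype.ext (mul_inv_cancel₀ h.2.1))
  · intro h
    obtain ⟨g, hg⟩ := h.exists_right_inv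
    exact un_of_mul_eq_one hf g.2 (congrArg Subtype.val hg)

theorem Dom.trans {O'' : Subalgebra ℂ K} (h : Dom O O') (h' : Dom O' O'') : Dom O O'' :=
  ⟨h.1.trans h'.1, fun f hf hu => h.2 f hf (h'.2 f (h.1 hf) hu)⟩

theorem IsLocOf.sum (h : IsLocOf C O) {ι : Type} (t : Finset ι) {a : ι → K}
    (ha : ∀ i ∈ t, a i ∈ O) (hu : Un O (∑ i ∈ t, a i)) : ∃ i ∈ t, Un O (a i) := by
  classical
  induction t using Finset.induction_on with
  | empty => exact absurd rfl hu.2.1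
  | insert i t hi ih =>
    rw [Finset.sum_insert hi] at hu
    have h1 : ∀ j ∈ t, a j ∈ O := fun j hj => ha j (Finset.mem_insert_of_mem hj)
    rcases h.add _ (ha i (Finset.mem_insert_self i t)) _ (sum_mem h1) hu with h2 | h2
    · exact ⟨i, Finset.mem_insert_self i t, h2⟩
    · obtain ⟨j, hj, h3⟩ := ih h1 h2
      exact ⟨j, Finset.mem_insert_of_mem hj, h3⟩

theorem IsLocOf.span (h : IsLocOf C O) {T : Set K} (hT : ∀ a ∈ T, a ∈ O)
    (hf : f ∈ Submodule.span ℂ T) (hu : Un O f) : ∃ a ∈ T, Un O a := by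
  by_contra hn
  have key : ∀ x ∈ Submodule.span ℂ T, x ∈ O ∧ ¬ Un O x := by
    intro x hx
    induction hx using Submodule.span_induction with
    | mem x hx => exact ⟨hT x hx, fun h1 => hn ⟨x, hx, h1⟩⟩
    | zero => exact ⟨zero_mem _, fun h0 => h0.2.1 rfl⟩
    | add x y _ _ hx hy =>
      exact ⟨add_mem hx.1 hy.1, fun h1 => (h.add x hx.1 y hy.1 h1).elim hx.2 hy.2⟩
    | smul c x _ hx =>
      refine ⟨O.smul_mem hx.1 c, fun h1 => hx.2 ?_⟩
      rw [Algebra.smul_def] at h1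
      exact Un.of_mul_right (O.algebraMap_mem c) hx.1 h1
  exact (key f hf).2 hu

theorem IsLocOf.isLocalRing (h : IsLocOf C O) : IsLocalRing O := by
  refine IsLocalRing.of_isUnit_or_isUnit_of_isUnit_add fun a b hab => ?_
  have h1 : Un O ((a : K) + b) := (un_iff_isUnit (a + b).2).2 hab
  exact (h.add a a.2 b b.2 h1).imp (un_iff_isUnit a.2).1 (un_iff_isUnit b.2).1

/-- The prime ideal of `C` below the maximal ideal of `O`. -/
def IsLocOf.ctr (h : IsLocOf C O) : Ideal C where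
  carrier := {c | ¬ Un O (c : K)}
  add_mem' := fun {a b} ha hb hab => (h.add a (h.le a.2) b (h.le b.2) hab).elim ha hb
  zero_mem' := fun h0 => h0.2.1 rfl
  smul_mem' := fun c a ha hu => ha (Un.of_mul_right (h.le c.2) (h.le a.2) hu)

theorem IsLocOf.mem_ctr (h : IsLocOf C O) {c : C} : c ∈ h.ctr ↔ ¬ Un O (c : K) := Iff.rfl

instance IsLocOf.ctr_isPrime (h : IsLocOf C O) : h.ctr.IsPrime where
  ne_top' := (Ideal.ne_top_iff_one _).2 fun h1 => h1 un_one
  mem_or_mem' := fun {a b} hab => by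
    by_contra hn
    rw [not_or] at hn
    exact hab ((not_not.1 hn.1).mul (not_not.1 hn.2))

theorem un_locAt (P : Ideal C) [P.IsPrime] (c : C) : Un (locAt C P) (c : K) ↔ c ∉ P := by
  have hP : P.IsPrime := inferInstance
  have h1 : (1 : C) ∉ P := (Ideal.ne_top_iff_one P).1 hP.ne_top
  constructor
  · rintro ⟨-, h0, b, hb, hbc⟩ hc
    apply hb
    have e : b = ⟨_, hbc⟩ * c := Subtype.ext (by
      show (b : K) = b * (c : K)⁻¹ * c
      rw [inv_mul_cancel_right₀ h0])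
    rw [e]
    exact P.mul_mem_left _ hc
  · intro hc
    have h0 : (c : K) ≠ 0 := fun e => hc (by
      have : c = 0 := Subtype.ext e
      rw [this]
      exact P.zero_mem)
    refine ⟨⟨1, h1, by simp⟩, h0, c, hc, ?_⟩
    rw [mul_inv_cancel₀ h0]
    exact one_mem _

theorem isLocOf_locAt (P : Ideal C) [P.IsPrime] : IsLocOf C (locAt C P) := by
  have hP : P.IsPrime := inferInstance
  have h1 : (1 : C) ∉ P := (Ideal.ne_top_iff_one P).1 hP.ne_top
  have le : C ≤ locAt C P := fun c hc => ⟨1, h1, by simpa using hc⟩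
  refine ⟨le, ?_, ?_⟩
  · rintro f hf g hg hu
    obtain ⟨b, hb, hbf⟩ := id hf
    obtain ⟨c, hc, hcg⟩ := id hg
    have ub := ((un_locAt P b).2 hb).mul ((un_locAt P c).2 hc)
    have hx : (b : K) * c * f ∈ C := by
      rw [show (b : K) * c * f = c * (b * f) by ring]
      exact mul_mem c.2 hbf
    have hy : (b : K) * c * g ∈ C := by
      rw [mul_assoc]
      exact mul_mem b.2 hcg
    have h2 := ub.mul hu
    rw [mul_add] at h2
    have h3 : (⟨_, hx⟩ + ⟨_, hy⟩ : C) ∉ P := (un_locAt P (⟨_, hx⟩ + ⟨_, hy⟩)).1 h2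
    by_cases h4 : (⟨_, hx⟩ : C) ∈ P
    · right
      have h5 : (⟨_, hy⟩ : C) ∉ P := fun h5 => h3 (P.add_mem h4 h5)
      exact Un.of_mul_right ub.1 hg ((un_locAt P ⟨_, hy⟩).2 h5)
    · left
      exact Un.of_mul_right ub.1 hf ((un_locAt P ⟨_, hx⟩).2 h4)
  · rintro f ⟨b, hb, hbf⟩
    exact ⟨b, b.2, (un_locAt P b).2 hb, hbf⟩

theorem IsLocOf.ext (h : IsLocOf C O) (h' : IsLocOf C O') (hu : ∀ c ∈ C, Un O c ↔ Un O' c) :
    O = O' := by
  have key : ∀ {A A' : Subalgebra ℂ K}, IsLocOf C A → IsLocOf C A' →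
      (∀ c ∈ C, Un A c → Un A' c) → A ≤ A' := by
    intro A A' hA hA' hc f hf
    obtain ⟨b, hb, ub, hbf⟩ := hA.frac f hf
    have ub' := hc b hb ub
    have := mul_mem ub'.2.2 (hA'.le hbf)
    rwa [inv_mul_cancel_left₀ ub'.2.1] at this
  exact le_antisymm (key h h' fun c hc => (hu c hc).1) (key h' h fun c hc => (hu c hc).2)

theorem IsLocOf.eq_locAt (h : IsLocOf C O) : O = locAt C h.ctr := by
  refine h.ext (isLocOf_locAt h.ctr) fun c hc => ?_
  rw [un_locAt h.ctr ⟨c, hc⟩, h.mem_ctr, not_not]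

theorem IsLocOf.isLocalization (h : IsLocOf C O) :
    letI := (Subalgebra.inclusion h.le).toRingHom.toAlgebra
    IsLocalization.AtPrime O h.ctr := by
  letI := (Subalgebra.inclusion h.le).toRingHom.toAlgebra
  refine (isLocalization_iff _ _).2 ⟨?_, ?_, ?_⟩
  · rintro ⟨y, hy⟩
    have h1 : Un O (y : K) := not_not.1 hy
    exact (un_iff_isUnit h1.1).1 h1
  · intro z
    obtain ⟨b, hb, ub, hbz⟩ := h.frac z z.2
    refine ⟨(⟨_, hbz⟩, ⟨⟨b, hb⟩, fun hn => hn ub⟩), Subtype.ext ?_⟩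
    exact mul_comm (z : K) b
  · intro x y e
    have : x = y := Subtype.ext (congrArg (fun z : O => (z : K)) e)
    exact ⟨1, by rw [this]⟩

theorem IsLocOf.trans (h : IsLocOf C O) (h' : IsLocOf O O') : IsLocOf C O' := by
  refine ⟨h.le.trans h'.le, h'.add, fun f hf => ?_⟩
  obtain ⟨b, hb, ub, hbf⟩ := h'.frac f hf
  obtain ⟨c, hc, uc, hcb⟩ := h.frac b hb
  obtain ⟨d, hd, ud, hdf⟩ := h.frac _ hbf
  refine ⟨d * (c * b), mul_mem hd hcb, (ud.mono h'.le).mul ((uc.mono h'.le).mul ub), ?_⟩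
  rw [show d * (c * b) * f = c * (d * (b * f)) by ring]
  exact mul_mem hc hdf

theorem IsLocOf.of_le (h : IsLocOf C O) (h1 : C ≤ D) (h2 : D ≤ O) : IsLocOf D O := by
  refine ⟨h2, h.add, fun f hf => ?_⟩
  obtain ⟨b, hb, ub, hbf⟩ := h.frac f hf
  exact ⟨b, h1 hb, ub, h1 hbf⟩

end Pool.Agent.P.MP_63735c_ag.Ta
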