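import Pool.Agent.P.MP_63735c_ag.TaLoc

/-! Units, local rings, localisations and etale inclusions of subalgebras of a field. -/

noncomputable section

namespace Pool.Agent.P.MP_63735c_ag.Ta

variable {K : Type} [Field K] [Algebra ℂ K] {B C D O O' : Subalgebra ℂ K} {f g s : K}

theorem IsLocOf.formallySmooth (h : IsLocOf C O) (hC : Algebra.FormallySmooth ℂ C) :
    Algebra.FormallySmooth ℂ O := by
  let := (Subalgebra.inclusion h.le).toRingHom.toAlgebra
  have : IsScalarTower ℂ C O := IsScalarTower.of_algebraMap_eq fun _ => rfl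
  have := h.isLocalization
  have : Algebra.FormallySmooth C O :=
    Algebra.FormallySmooth.of_isLocalization (Rₘ := O) h.ctr.primeCompl
  exact Algebra.FormallySmooth.comp ℂ C O

theorem formallySmooth_of_loc (hC : Algebra.FiniteType ℂ C)
    (h : ∀ O, IsLocOf C O → Algebra.FormallySmooth ℂ O) : Algebra.FormallySmooth ℂ C := by
  have : Algebra.FinitePresentation ℂ C := Algebra.FinitePresentation.of_finiteType.1 hC
  rw [← Algebra.smoothLocus_eq_univ_iff, Set.eq_univ_iff_forall]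
  intro p
  have hl := isLocOf_locAt (C := C) p.asIdeal
  let := (Subalgebra.inclusion hl.le).toRingHom.toAlgebra
  have : IsScalarTower ℂ C (locAt C p.asIdeal) := IsScalarTower.of_algebraMap_eq fun _ => rfl
  have h1 := hl.isLocalization
  have he : hl.ctr.primeCompl = p.asIdeal.primeCompl := by
    ext c
    change ¬ ¬ Un (locAt C p.asIdeal) (c : K) ↔ c ∉ p.asIdeal
    rw [not_not, un_locAt]
  have h2 : IsLocalization p.asIdeal.primeCompl (locAt C p.asIdeal) := by
    rw [← he]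
    exact h1
  have := h _ hl
  exact Algebra.FormallySmooth.of_equiv
    ((IsLocalization.algEquiv p.asIdeal.primeCompl (locAt C p.asIdeal)
      (Localization.AtPrime p.asIdeal)).restrictScalars ℂ)

/-- The ideal of denominators. -/
def locb_den (C : Subalgebra ℂ K) (f : K) : Ideal C where
  carrier := {c | (c : K) * f ∈ C}
  add_mem' := fun {a b} ha hb => by
    change ((a + b : C) : K) * f ∈ C
    rw [AddMemClass.coe_add, add_mul]
    exact add_mem ha hb
  zero_mem' := by
    change ((0 : C) : K) * f ∈ C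
    simp
  smul_mem' := fun c a ha => by
    change ((c * a : C) : K) * f ∈ C
    rw [MulMemClass.coe_mul, mul_assoc]
    exact mul_mem c.2 ha

/-- A proper ideal of denominators lies in a maximal ideal. -/
theorem mem_of_loc (h : ∀ O, IsLocOf C O → f ∈ O) : f ∈ C := by
  by_cases ht : locb_den C f = ⊤
  · have h1 : (1 : C) ∈ locb_den C f := ht ▸ Submodule.mem_top
    have h2 : ((1 : C) : K) * f ∈ C := h1
    simpa using h2
  · obtain ⟨P, hP, hle⟩ := Ideal.exists_le_maximal _ ht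
    have := hP.isPrime
    obtain ⟨b, hb, hbf⟩ := h _ (isLocOf_locAt P)
    exact absurd (hle hbf) hb

theorem IsLocOf.nrm (h : IsLocOf C O) (hC : Nrm C) : Nrm O := by
  intro f hf
  let := (Subalgebra.inclusion h.le).toRingHom.toAlgebra
  have : IsScalarTower C O K := IsScalarTower.of_algebraMap_eq fun _ => rfl
  have := h.isLocalization
  obtain ⟨m, hm⟩ := hf.exists_multiple_integral_of_isLocalization h.ctr.primeCompl
  have h1 : ((m : C) : K) * f ∈ C := hC _ hm
  have h2 : Un O ((m : C) : K) := not_not.1 m.2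
  have h3 := mul_mem h2.2.2 (h.le h1)
  rwa [← mul_assoc, inv_mul_cancel₀ h2.2.1, one_mul] at h3

theorem Nrm.of_sq (h : Nrm O) (hf : f ^ 2 ∈ O) : f ∈ O := by
  apply h
  apply IsIntegral.of_pow (n := 2) (by norm_num)
  exact isIntegral_algebraMap (x := (⟨f ^ 2, hf⟩ : O))

/-- A derivation of `K` that maps `C` into its local ring `O` maps `O` into `O`. -/
theorem IsLocOf.deriv_mem (h : IsLocOf C O) (δ : Derivation ℂ K K) (hO : O ≤ O')
    (hδ : ∀ f ∈ C, δ f ∈ O') : ∀ f ∈ O, δ f ∈ O' := by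
  intro f hf
  obtain ⟨b, hb, hu, hbf⟩ := h.frac f hf
  have h1 : δ f = b⁻¹ * (δ (b * f) - f * δ b) := by
    rw [Derivation.leibniz, smul_eq_mul, smul_eq_mul, add_sub_cancel_right, ← mul_assoc,
      inv_mul_cancel₀ hu.2.1, one_mul]
  rw [h1]
  exact mul_mem (hO hu.2.2) (sub_mem (hδ _ hbf) (mul_mem (hO hf) (hδ _ hb)))

theorem lies_under (hB : B ≤ C) (h : IsLocOf C O') : ∃ O, IsLocOf B O ∧ Dom O O' := by
  let P : Ideal B := h.ctr.comap (Subalgebra.inclusion hB).toRingHom
  have hP : P.IsPrime := Ideal.comap_isPrime _ _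
  have hm : ∀ b : B, b ∉ P ↔ Un O' (b : K) := fun b => not_not
  refine ⟨locAt B P, isLocOf_locAt P, ?_, ?_⟩
  · rintro f ⟨b, hb, hbf⟩
    have h2 := (hm b).1 hb
    have h3 := mul_mem h2.2.2 (h.le (hB hbf))
    rwa [← mul_assoc, inv_mul_cancel₀ h2.2.1, one_mul] at h3
  · rintro f hf hu
    obtain ⟨b, hb, hbf⟩ := id hf
    have h1 : Un O' ((b : K) * f) := ((hm b).1 hb).mul hu
    have h2 : Un (locAt B P) ((b : K) * f) :=
      (un_locAt P ⟨_, hbf⟩).2 ((hm ⟨_, hbf⟩).2 h1)
    exact Un.of_mul_right ((isLocOf_locAt P).le b.2) hf h2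

theorem locb_mem_map (e : K ≃ₐ[ℂ] K) : e f ∈ O.map (e : K →ₐ[ℂ] K) ↔ f ∈ O := by
  rw [Subalgebra.mem_map]
  constructor
  · rintro ⟨x, hx, hxf⟩
    have : x = f := e.injective hxf
    exact this ▸ hx
  · intro hf
    exact ⟨f, hf, rfl⟩

theorem un_map (e : K ≃ₐ[ℂ] K) : Un (O.map (e : K →ₐ[ℂ] K)) (e f) ↔ Un O f := by
  unfold Un
  rw [← map_inv₀, locb_mem_map, locb_mem_map, map_ne_zero]

theorem IsLocOf.map (h : IsLocOf C O) (e : K ≃ₐ[ℂ] K) :
    IsLocOf (C.map (e : K →ₐ[ℂ] K)) (O.map (e : K →ₐ[ℂ] K)) := by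
  refine ⟨Subalgebra.map_mono h.le, ?_, ?_⟩
  · intro f hf g hg hu
    obtain ⟨f, rfl⟩ := e.surjective f
    obtain ⟨g, rfl⟩ := e.surjective g
    rw [← map_add, un_map] at hu
    rw [un_map, un_map]
    exact h.add f ((locb_mem_map e).1 hf) g ((locb_mem_map e).1 hg) hu
  · intro f hf
    obtain ⟨f, rfl⟩ := e.surjective f
    obtain ⟨b, hb, hu, hbf⟩ := h.frac f ((locb_mem_map e).1 hf)
    refine ⟨e b, (locb_mem_map e).2 hb, (un_map e).2 hu, ?_⟩
    rw [← map_mul]
    exact (locb_mem_map e).2 hbf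

end Pool.Agent.P.MP_63735c_ag.Ta
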