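import Pool.Agent.P.MP_63735c_ag.TaDefs

/-! Regular rational functions on an integral scheme and the Mittag-Leffler form of `H^1 = 0`. -/

open CategoryTheory AlgebraicGeometry TopologicalSpace

noncomputable section

namespace Pool.Agent.P.MP_63735c_ag.Ta

variable {X : Scheme.{0}} [IsIntegral X]

/-- The rational function `z` is regular at every point of `U`. -/
def Reg (U : X.Opens) (z : X.functionField) : Prop :=
  ∀ x ∈ U, z ∈ (algebraMap (X.presheaf.stalk x) X.functionField).range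

lemma Reg.mono {U W : X.Opens} {z : X.functionField} (h : Reg U z) (hW : W ≤ U) : Reg W z :=
  fun x hx => h x (hW hx)

lemma Reg.sub {U : X.Opens} {z w : X.functionField} (h : Reg U z) (h' : Reg U w) :
    Reg U (z - w) := fun x hx => sub_mem (h x hx) (h' x hx)

lemma Reg.add {U : X.Opens} {z w : X.functionField} (h : Reg U z) (h' : Reg U w) :
    Reg U (z + w) := fun x hx => add_mem (h x hx) (h' x hx)

lemma Reg.mul {U : X.Opens} {z w : X.functionField} (h : Reg U z) (h' : Reg U w) :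
    Reg U (z * w) := fun x hx => mul_mem (h x hx) (h' x hx)

lemma Reg.neg {U : X.Opens} {z : X.functionField} (h : Reg U z) : Reg U (-z) :=
  fun x hx => neg_mem (h x hx)

lemma ml_gen_mem {U : X.Opens} {x : X} (hx : x ∈ U) : genericPoint X ∈ U :=
  ((genericPoint_spec X).mem_open_set_iff U.isOpen).mpr ⟨x, trivial, hx⟩

omit [IsIntegral X] in
lemma ml_mem_iInf {ι : Type} [Finite ι] {U : ι → X.Opens} {x : X} :
    x ∈ ⨅ i, U i ↔ ∀ i, x ∈ U i := by
  rw [← SetLike.mem_coe, Opens.coe_iInf, Set.mem_iInter]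
  rfl

lemma reg_germ {U : X.Opens} (h : genericPoint X ∈ U) (s : Γ(X, U)) :
    Reg U (X.presheaf.germ U _ h s) := fun x hx =>
  haveI : Nonempty U := ⟨⟨x, hx⟩⟩
  ⟨X.presheaf.germ U x hx s, X.algebraMap_germ_eq_germToFunctionField hx s⟩

lemma ml_germ_res {U W : X.Opens} (hW : W ≤ U) (h : genericPoint X ∈ W) (s : Γ(X, U)) :
    X.presheaf.germ W _ h (res hW s) = X.presheaf.germ U _ (hW h) s :=
  X.presheaf.germ_res_apply (homOfLE hW) _ h s

lemma ml_subsingleton {U : X.Opens} (h : genericPoint X ∉ U) : Subsingleton Γ(X, U) := by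
  have : U = ⊥ := eq_bot_iff.2 fun x hx => absurd (ml_gen_mem hx) h
  subst this
  infer_instance

/-- sections are determined by their germs at the generic point -/
lemma ml_ext {U : X.Opens} {s t : Γ(X, U)}
    (h : ∀ hU : genericPoint X ∈ U, X.presheaf.germ U _ hU s = X.presheaf.germ U _ hU t) :
    s = t := by
  by_cases hU : genericPoint X ∈ U
  · exact germ_injective_of_isIntegral X _ hU (h hU)
  · exact (ml_subsingleton hU).elim _ _

/-- a rational function regular on `U` comes from a section -/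
lemma Reg.exists_section {U : X.Opens} {z : X.functionField} (h : Reg U z) :
    ∃ s : Γ(X, U), ∀ hU : genericPoint X ∈ U, X.presheaf.germ U _ hU s = z := by
  have key : ∀ x : U, ∃ V : X.Opens, x.1 ∈ V ∧ V ≤ U ∧ ∃ s : Γ(X, V),
      ∀ hV : genericPoint X ∈ V, X.presheaf.germ V _ hV s = z := by
    rintro ⟨x, hx⟩
    obtain ⟨g, hg⟩ := h x hx
    obtain ⟨V, hV, s, rfl⟩ := X.presheaf.exists_germ_eq g
    have : Nonempty V := ⟨⟨x, hV⟩⟩
    refine ⟨V ⊓ U, ⟨hV, hx⟩, inf_le_right, res inf_le_left s, fun h' => ?_⟩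
    rw [ml_germ_res, ← hg, X.algebraMap_germ_eq_germToFunctionField hV s]
  choose V hx hV s hs using key
  have hcov : U ≤ iSup V := fun x hx' => Opens.mem_iSup.2 ⟨⟨x, hx'⟩, hx _⟩
  obtain ⟨t, ht, -⟩ := X.sheaf.existsUnique_gluing' V U (fun x => homOfLE (hV x)) hcov s
    fun a b => ml_ext fun h' => by
      have h1 := ml_germ_res (inf_le_left : V a ⊓ V b ≤ V a) h' (s a)
      have h2 := ml_germ_res (inf_le_right : V a ⊓ V b ≤ V b) h' (s b)
      rw [hs] at h1 h2
      exact h1.trans h2.symm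
  refine ⟨t, fun hU => ?_⟩
  have h1 := ml_germ_res (hV ⟨_, hU⟩) (hx ⟨_, hU⟩) t
  rw [← h1, ← hs ⟨_, hU⟩ (hx ⟨_, hU⟩), ← ht ⟨_, hU⟩]
  rfl

/-- Mittag-Leffler property of a family of open sets. -/
def ML {ι : Type} (U : ι → X.Opens) : Prop :=
  ∀ a : ι → X.functionField, (∀ i j, Reg (U i ⊓ U j) (a i - a j)) →
    ∃ b : X.functionField, ∀ i, Reg (U i) (b - a i)

lemma ML.of_refine {ι κ : Type} {U : ι → X.Opens} {V : κ → X.Opens} (h : ML V)
    (hV : ⨆ k, V k = ⊤) (τ : κ → ι) (hτ : ∀ k, V k ≤ U (τ k)) : ML U := by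
  intro a ha
  obtain ⟨b, hb⟩ := h (fun k => a (τ k)) fun k l => (ha _ _).mono (inf_le_inf (hτ k) (hτ l))
  refine ⟨b, fun i x hx => ?_⟩
  obtain ⟨k, hk⟩ := Opens.mem_iSup.1 (hV.ge (Set.mem_univ x))
  have := add_mem (hb k x hk) (ha (τ k) i x ⟨hτ k hk, hx⟩)
  rwa [sub_add_sub_cancel] at this

lemma ml_germ_cechD {ι : Type} (U : ι → X.Opens) (n : ℕ)
    (c : ∀ t : Fin (n + 1) → ι, Γ(X, ⨅ j, U (t j))) (w : (Fin (n + 1) → ι) → X.functionField)
    (hw : ∀ t h', X.presheaf.germ _ _ h' (c t) = w t) (t : Fin (n + 2) → ι)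
    (h' : genericPoint X ∈ ⨅ j, U (t j)) :
    X.presheaf.germ _ _ h' (cechD U n c t) =
      ∑ k : Fin (n + 2), (-1) ^ (k : ℕ) * w (t ∘ k.succAbove) := by
  rw [cechD, map_sum]
  refine Finset.sum_congr rfl fun k _ => ?_
  rw [map_mul, map_pow, map_neg, map_one, ml_germ_res]
  exact congrArg _ (hw _ _)

lemma ML.cechZero {ι : Type} {U : ι → X.Opens} (h : ML U) : CechZero U 0 := by
  classical
  intro c hc
  by_cases h0 : ∃ i, genericPoint X ∈ U i
  swap
  · refine ⟨0, funext fun t => ml_ext fun h' => absurd ⟨t 0, ml_mem_iInf.1 h' 0⟩ h0⟩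
  obtain ⟨o, ho⟩ := h0
  let w : (Fin 2 → ι) → X.functionField := fun t =>
    if h' : genericPoint X ∈ ⨅ j, U (t j) then X.presheaf.germ _ _ h' (c t) else 0
  have hw : ∀ t h', X.presheaf.germ _ _ h' (c t) = w t := fun t h' => by
    simp only [w]; rw [dif_pos h']
  have hwr : ∀ t, Reg (⨅ j, U (t j)) (w t) := fun t x hx => by
    rw [← hw t (ml_gen_mem hx)]
    exact reg_germ _ _ x hx
  have key : ∀ i j, genericPoint X ∈ U i → genericPoint X ∈ U j →
      w ![i, j] = w ![o, j] - w ![o, i] := by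
    intro i j hi hj
    have h' : genericPoint X ∈ ⨅ k, U (![o, i, j] k) :=
      ml_mem_iInf.2 fun k => by fin_cases k <;> assumption
    have h1 := congrArg (X.presheaf.germ _ _ h') (congrFun hc ![o, i, j])
    rw [ml_germ_cechD U _ c w hw, Fin.sum_univ_three, Pi.zero_apply, map_zero] at h1
    have e0 : ![o, i, j] ∘ (0 : Fin 3).succAbove = ![i, j] := by
      funext k; fin_cases k <;> rfl
    have e1 : ![o, i, j] ∘ (1 : Fin 3).succAbove = ![o, j] := by
      funext k; fin_cases k <;> rfl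
    have e2 : ![o, i, j] ∘ (2 : Fin 3).succAbove = ![o, i] := by
      funext k; fin_cases k <;> rfl
    rw [e0, e1, e2] at h1
    simp only [Fin.val_zero, pow_zero, Fin.val_one, pow_one, Fin.val_two] at h1
    linear_combination h1
  obtain ⟨b, hb⟩ := h (fun i => w ![o, i]) fun i j x hx => by
    rw [← key j i (ml_gen_mem hx.2) (ml_gen_mem hx.1)]
    exact hwr _ x (ml_mem_iInf.2 fun k => by fin_cases k; exacts [hx.2, hx.1])
  choose s hs using fun t : Fin 1 → ι =>
    ((hb (t 0)).neg.mono (iInf_le (fun j => U (t j)) 0)).exists_section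
  refine ⟨s, funext fun t => ml_ext fun h' => ?_⟩
  have ht : t = ![t 0, t 1] := by funext k; fin_cases k <;> rfl
  have hk := key _ _ (ml_mem_iInf.1 h' 0) (ml_mem_iInf.1 h' 1)
  rw [← ht] at hk
  rw [ml_germ_cechD U 0 s _ hs, hw, Fin.sum_univ_two, hk]
  simp

end Pool.Agent.P.MP_63735c_ag.Ta
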