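import Pool.Agent.P.MP_63735c_ag.TaQuot

/-! Adaptors: invariant rings inside a field, etale charts of a scheme. -/

open CategoryTheory AlgebraicGeometry

noncomputable section

namespace Pool.Agent.P.MP_63735c_ag.Ta

theorem ringRes_of_et {K : Type} [Field K] [Algebra ℂ K] {t : Fin 4 → K}
    (ht : AlgebraicIndependent ℂ t) {R : Subalgebra ℂ (MvPolynomial (Fin 4) ℂ)} (H : RingRes R)
    {D : Subalgebra ℂ K} (hle : R.map (MvPolynomial.aeval t) ≤ D)
    (het : (Subalgebra.inclusion hle).toRingHom.Etale) : RingRes D :=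
  RingRes.of_smooth (Subalgebra.inclusion hle) ((RingHom.etale_iff_formallyUnramified_and_smooth _).1 het).2
    (RingRes.of_smooth (R.equivMapOfInjective _ ht).toAlgHom
      (.of_bijective (R.equivMapOfInjective _ ht).bijective) H)

theorem Rq_rev : Rq 4 ![3, 3, 1, 1] = Rq 4 ![1, 1, 3, 3] := by
  ext f
  refine forall₂_congr fun m _ => ?_
  simp [Fin.sum_univ_four]
  omega

theorem map_Rq_eq_adjoin {K : Type} [CommRing K] [Algebra ℂ K] (t : Fin 4 → K) (n : ℕ) (w : Fin 4 → ℕ) :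
    (Rq n w).map (MvPolynomial.aeval t) =
      Algebra.adjoin ℂ {x | ∃ m : Fin 4 → ℕ, n ∣ ∑ i, w i * m i ∧ x = ∏ i, t i ^ m i} := by
  refine le_antisymm ?_ (Algebra.adjoin_le ?_)
  · rintro _ ⟨f, hf, rfl⟩
    change MvPolynomial.aeval t f ∈ _
    rw [f.as_sum, map_sum]
    refine sum_mem fun m hm => ?_
    rw [MvPolynomial.aeval_monomial, Finsupp.prod_fintype _ _ fun _ => pow_zero _]
    exact mul_mem (algebraMap_mem _ _) (Algebra.subset_adjoin ⟨m, hf m hm, rfl⟩)
  · rintro _ ⟨m, hm, rfl⟩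
    refine ⟨MvPolynomial.monomial (Finsupp.equivFunOnFinite.symm m) 1, fun y hy => ?_, ?_⟩
    · rwa [Finset.mem_singleton.1 (MvPolynomial.support_monomial_subset hy)]
    · change MvPolynomial.aeval t _ = _
      rw [MvPolynomial.aeval_monomial, Finsupp.prod_fintype _ _ fun _ => pow_zero _, map_one, one_mul]
      rfl

/-- An etale chart given by a ring map from the sections over an affine open set. -/
theorem chart_of_ring {X : Scheme.{0}} (π : X ⟶ Spec (CommRingCat.of ℂ)) {U : X.Opens}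
    (hU : IsAffineOpen U) {D : Type} [CommRing D] [Algebra ℂ D] (φ : Γ(X, U) →+* D)
    (h1 : φ.Etale) (h2 : ∀ c, φ (const π U c) = algebraMap ℂ D c) (H : RingRes D) {x : X}
    (hx : x ∈ U) (q : PrimeSpectrum D)
    (hq : q.asIdeal.comap φ = (hU.primeIdealOf ⟨x, hx⟩).asIdeal) :
    ∃ (V : Scheme.{0}) (e : V ⟶ X), Etale e ∧ x ∈ Set.range e ∧ IsAffine V ∧ HasRes (e ≫ π) := by
  have : Etale (Spec.map (CommRingCat.ofHom φ)) := HasRingHomProperty.Spec_iff.2 h1
  refine ⟨_, Spec.map (CommRingCat.ofHom φ) ≫ hU.fromSpec, inferInstance, ⟨q, ?_⟩, inferInstance, ?_⟩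
  · have e : Spec.map (CommRingCat.ofHom φ) q = hU.primeIdealOf ⟨x, hx⟩ := PrimeSpectrum.ext hq
    rw [Scheme.Hom.comp_apply, e, hU.fromSpec_primeIdealOf]
  · have e : hU.fromSpec ≫ π =
        Spec.map ((Scheme.ΓSpecIso (CommRingCat.of ℂ)).inv ≫ π.appLE ⊤ U le_top) := by
      rw [Spec.map_comp, ← Scheme.isoSpec_Spec_inv, ← IsAffineOpen.fromSpec_top,
        IsAffineOpen.SpecMap_appLE_fromSpec]
    rw [Category.assoc, e, ← Spec.map_comp]
    have e2 : ((Scheme.ΓSpecIso (CommRingCat.of ℂ)).inv ≫ π.appLE ⊤ U le_top) ≫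
        CommRingCat.ofHom φ = CommRingCat.ofHom (algebraMap ℂ D) := by
      ext c
      exact h2 c
    rwa [e2]

end Pool.Agent.P.MP_63735c_ag.Ta
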