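import Pool.Agent.P.MP_63735c_ag.TaLocC
import Pool.Agent.P.MP_63735c_ag.TaRatK

/-! The toric resolutions of `1/2(1,1,1,1)` and `1/4(1,1,3,3)` after an etale base change. -/

noncomputable section

namespace Pool.Agent.P.MP_63735c_ag.Ta

variable {K : Type} [Field K] [Algebra ℂ K]

/-- The ring generated by the monomials `t ^ m`, `m ∈ ℕ⁴`, with `n ∣ m 0 + m 1 - m 2 - m 3`. -/
def PM (t : Fin 4 → K) (n : ℕ) : Subalgebra ℂ K :=
  Algebra.adjoin ℂ {f | ∃ m : Fin 4 → ℕ, (n : ℤ) ∣ m 0 + m 1 - m 2 - m 3 ∧ f = ∏ i, t i ^ m i}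

theorem ringRes_two {t : Fin 4 → K} (ht : AlgebraicIndependent ℂ t) {D : Subalgebra ℂ K}
    (h : Et (PM t 2) D) : RingRes D := by
  have e : (Rq 2 ![1, 1, 1, 1]).map (MvPolynomial.aeval t) = PM t 2 := by
    rw [map_Rq_eq_adjoin, PM]
    congr 1
    ext f
    refine exists_congr fun m => and_congr_left' ?_
    simp [Fin.sum_univ_four]
    omega
  rw [← e] at h
  exact ringRes_of_et ht ringRes2 h.1 h.2

theorem ringRes_four {t : Fin 4 → K} (ht : AlgebraicIndependent ℂ t) {D : Subalgebra ℂ K}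
    (h : Et (PM t 4) D) : RingRes D := by
  have e : (Rq 4 ![1, 1, 3, 3]).map (MvPolynomial.aeval t) = PM t 4 := by
    rw [map_Rq_eq_adjoin, PM]
    congr 1
    ext f
    refine exists_congr fun m => and_congr_left' ?_
    simp [Fin.sum_univ_four]
    omega
  rw [← e] at h
  exact ringRes_of_et ht ringRes4 h.1 h.2

theorem ringRes_smooth {D : Subalgebra ℂ K} (h1 : Algebra.FiniteType ℂ D)
    (h2 : Algebra.FormallySmooth ℂ D) : RingRes D :=
  haveI : Algebra.Smooth ℂ D := ⟨h2, Algebra.FinitePresentation.of_finiteType.1 h1⟩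
  ringRes_of_smooth D

end Pool.Agent.P.MP_63735c_ag.Ta
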