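import Pool.Agent.P.MP_63735c_ag.TaInerB
import Pool.Agent.P.MP_63735c_ag.TaTor

/-! Etale neighbourhoods of the points of `X`. -/

noncomputable section

namespace Pool.Agent.P.MP_63735c_ag.Ta

variable {K : Type} [Field K] [Algebra ℂ K] {x y : Fin 4 → K} {O O' : Subalgebra ℂ K}

theorem nbhd_act {g : K ≃ₐ[ℂ] K} {c e : Fin 4 → ℂ} (ha : Act x y g false c e) (ε : Fin 4 → Bool) :
    Act (tt x ε) (ww x y ε) g false (fun i => if ε i then c i ^ 3 else c i)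
      fun i => if ε i then e i * c i ^ 2 else e i := by
  refine ⟨fun i => ?_, fun i => ?_, fun i => ha.tt ε i, fun i => ha.ww ε i⟩
  · have := ha.c4 i
    split_ifs <;> grind
  · have := ha.c4 i
    have := ha.e2 i
    split_ifs <;> grind

theorem nbhd_fixed (h : Ell x y) (ε : Fin 4 → Bool) {P} {f : K}
    (hf : f ∈ inv (dg x y P) (Rε x y ε)) {B : Subalgebra ℂ K}
    (hB : ∀ (m : Fin 4 → ℕ) (b : Fin 4 → Bool), (∀ c e : Fin 4 → ℂ, (∀ i, c i ^ 4 = 1) →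
      (∀ i, e i ^ 2 = 1) → (c, e) ∈ P → ∏ i, ((if ε i then c i ^ 3 else c i) ^ m i *
        if b i then (if ε i then e i * c i ^ 2 else e i) else 1) = 1) →
      ∏ i, (tt x ε i ^ m i * if b i then ww x y ε i else 1) ∈ B) : f ∈ B := by
  have h1 := (h.chart ε).mem_RR.1 hf.1
  let ι := {p : (Fin 4 → ℂ) × (Fin 4 → ℂ) // (∀ i, p.1 i ^ 4 = 1) ∧ (∀ i, p.2 i ^ 2 = 1) ∧ p ∈ P}
  have : Nonempty ι := ⟨⟨1, by simp, by simp, P.one_mem⟩⟩
  have h2 := (h.chart ε).mem_inter (f := f) (T := fun p : ι => {μ : Ix | ∀ i, 0 ≤ μ.1 i} ∩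
      {μ | ∏ i, ((if ε i then p.1.1 i ^ 3 else p.1.1 i) ^ μ.1 i *
        if μ.2 i then (if ε i then p.1.2 i * p.1.1 i ^ 2 else p.1.2 i) else 1) = 1}) fun p => by
    obtain ⟨g, hg⟩ := h.exists_act false p.2.1 p.2.2.1
    exact (h.chart ε).fixed_mem h1 g _ (fun μ => (nbhd_act hg ε).mon μ)
      (hf.2 g ⟨_, _, hg, p.2.2.2⟩)
  refine (Submodule.span_le (p := Subalgebra.toSubmodule B)).2 ?_ h2
  rintro _ ⟨μ, hμ, rfl⟩
  rw [Set.mem_iInter] at hμ
  have h0 := (hμ (Classical.arbitrary ι)).1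
  obtain ⟨m, hm⟩ : ∃ m : Fin 4 → ℕ, ∀ i, μ.1 i = m i :=
    ⟨fun i => (μ.1 i).toNat, fun i => (Int.toNat_of_nonneg (h0 i)).symm⟩
  have := hB m μ.2 fun c e hc he hp => by
    have := (hμ ⟨(c, e), hc, he, hp⟩).2
    simpa only [Set.mem_ofPred_eq, hm, zpow_natCast] using this
  change mon _ _ μ ∈ B
  simpa only [mon, hm, zpow_natCast] using this

theorem nbhd_le {P} {ε : Fin 4 → Bool} {t : Fin 4 → K} {n : ℕ} (ht : ∀ i, t i ∈ Rε x y ε)
    (hP : ∀ g ∈ dg x y P, ∃ ζ : ℂ, ζ ^ n = 1 ∧ ζ ≠ 0 ∧ g (t 0) = ζ • t 0 ∧ g (t 1) = ζ • t 1 ∧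
      g (t 2) = ζ⁻¹ • t 2 ∧ g (t 3) = ζ⁻¹ • t 3) : PM t n ≤ inv (dg x y P) (Rε x y ε) := by
  refine Algebra.adjoin_le ?_
  rintro _ ⟨m, ⟨k, hk⟩, rfl⟩
  refine ⟨prod_mem fun i _ => pow_mem (ht i) _, fun g hg => ?_⟩
  obtain ⟨ζ, h1, h0, a0, a1, a2, a3⟩ := hP g hg
  have e : ζ ^ m 0 * ζ ^ m 1 * ζ⁻¹ ^ m 2 * ζ⁻¹ ^ m 3 = 1 := by
    have : ζ ^ ((m 0 : ℤ) + m 1 - m 2 - m 3) = 1 := by
      rw [hk, zpow_mul, zpow_natCast, h1, one_zpow]
    rw [zpow_sub₀ h0, zpow_sub₀ h0, zpow_add₀ h0] at this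
    simpa only [zpow_natCast, inv_pow, div_eq_mul_inv] using this
  simp only [Fin.prod_univ_four, map_mul, map_pow, a0, a1, a2, a3, smul_pow, smul_mul_smul_comm, e,
    one_smul]

theorem nbhd_I {a : ℕ} (h : Complex.I ^ a = 1) : 4 ∣ a :=
  (Complex.isPrimitiveRoot_I.pow_eq_one_iff_dvd a).1 h

theorem nbhd_neg {a : ℕ} (h : (-1 : ℂ) ^ a = 1) : 2 ∣ a :=
  even_iff_two_dvd.1 ((neg_one_pow_eq_one_iff_even (by norm_num)).1 h)

theorem inv_Pc (h : Ell x y) (ε : Fin 4 → Bool) {n : ℕ} (hn : n = 2 ∨ n = 4 ∧ ∀ i, ε i = ε 0) :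
    inv (dg x y (Pc n)) (Rε x y ε) = PM (tt x ε) n := by
  refine le_antisymm (fun f hf => nbhd_fixed h ε hf fun m b H => ?_)
    (nbhd_le (fun i => t_mem_RR i) ?_)
  · have hb : ∀ j, b j = false := fun j => by
      have := H 1 (fun i => if i = j then -1 else 1) (by simp)
        (fun i => by split_ifs <;> simp) (by simp [Pc])
      rw [Finset.prod_eq_single j (fun i _ hi => by simp [hi]) (by simp)] at this
      by_contra hj
      rw [Bool.not_eq_false] at hj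
      norm_num [hj] at this
    simp only [hb, Bool.false_eq_true, if_false, mul_one] at H ⊢
    refine Algebra.subset_adjoin ⟨m, ?_, rfl⟩
    rcases hn with rfl | ⟨rfl, hε⟩
    · have := H (fun _ => -1) 1 (by norm_num) (by simp) (by simp [Pc])
      have e : ∀ i, (if ε i then (-1 : ℂ) ^ 3 else -1) = -1 := fun i => by split_ifs <;> norm_num
      simp only [e, Fin.prod_univ_four, ← pow_add] at this
      have := nbhd_neg this
      omega
    · have := H ![Complex.I, Complex.I, Complex.I ^ 3, Complex.I ^ 3] 1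
        (fun i => by fin_cases i <;> simp [pow_succ]) (by simp) (by simp [Pc])
      simp only [Fin.prod_univ_four, hε 1, hε 2, hε 3, Matrix.cons_val] at this
      split_ifs at this <;> simp only [← pow_mul, ← pow_add] at this <;>
        have := nbhd_I this <;> omega
  · rintro g ⟨c, e, ha, h1, h2, h3, h4⟩
    simp only at h1 h2 h3 h4
    have c4 := ha.c4 0
    have h0 : c 0 ≠ 0 := left_ne_zero_of_mul_eq_one h3
    have h5 : c 2 = (c 0)⁻¹ := eq_inv_of_mul_eq_one_right h3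
    simp only [ha.tt, h1, h2, h5]
    rcases hn with rfl | ⟨rfl, hε⟩
    · have h6 : (c 0)⁻¹ = c 0 := inv_eq_of_mul_eq_one_right (by rw [← h4, sq])
      have h7 : c 0 ^ 3 = c 0 := by grind
      exact ⟨c 0, h4, h0, by simp only [h6, h7, ite_self, and_self]⟩
    · simp only [hε 1, hε 2, hε 3]
      split_ifs
      · exact ⟨c 0 ^ 3, by grind, pow_ne_zero _ h0, by simp only [inv_pow, and_self]⟩
      · exact ⟨c 0, h4, h0, by simp only [and_self]⟩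

theorem inv_Pe (h : Ell x y) : inv (dg x y Pe) (Rε x y fun _ => false) = PM y 2 := by
  refine le_antisymm (fun f hf => nbhd_fixed h _ hf fun m b H => ?_)
    (nbhd_le (fun i => w_mem_RR (w := ww x y fun _ => false) i) ?_)
  · simp only [Bool.false_eq_true, if_false, tt, ww] at H ⊢
    rw [Finset.prod_mul_distrib]
    refine mul_mem (prod_mem fun j _ => ?_) ?_
    · have := H (fun i => if i = j then Complex.I else 1) 1 (fun i => by split_ifs <;> simp)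
        (by simp) (by simp [Pe])
      rw [Finset.prod_eq_single j (fun i _ hi => by simp [hi]) (by simp)] at this
      obtain ⟨k, hk⟩ := nbhd_I (a := m j) (by simpa using this)
      rw [hk, pow_mul, show x j ^ 4 = y j ^ 2 - 1 by rw [h.rel j]; ring]
      refine pow_mem (sub_mem (Algebra.subset_adjoin ?_) (one_mem _)) _
      refine ⟨Pi.single j 2, ?_, ?_⟩
      · fin_cases j <;> simp
      · rw [Finset.prod_eq_single j (fun i _ hi => by simp [hi]) (by simp)]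
        simp
    · have := H 1 (fun _ => -1) (by simp) (by simp) (by simp [Pe])
      have e : ∀ (a : ℂ) (i), (if b i then a else 1) = a ^ if b i then 1 else 0 := fun a i => by
        split_ifs <;> simp
      simp only [Pi.one_apply, one_pow, one_mul, e, Fin.prod_univ_four, ← pow_add] at this
      have := nbhd_neg this
      refine Algebra.subset_adjoin ⟨fun i => if b i then 1 else 0, by beta_reduce; omega, ?_⟩
      refine Finset.prod_congr rfl fun i _ => ?_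
      cases hb : b i <;> simp [hb]
  · rintro g ⟨c, e, ha, h1⟩
    have h2 : ∀ i, e i = e 0 := h1
    have h4 := ha.e2 0
    have h6 : (e 0)⁻¹ = e 0 := inv_eq_of_mul_eq_one_right (by rw [← h4, sq])
    refine ⟨e 0, h4, fun h0 => by simp [h0] at h4, ?_⟩
    simp only [h6, ha.ay, h2 1, h2 2, h2 3]
    exact ⟨rfl, rfl, rfl, rfl⟩

/-- Two descriptions of the quotient by the inertia group `H` are glued. -/
theorem nbhd_of {G G' H : Subgroup (K ≃ₐ[ℂ] K)} [Finite G] [Finite G'] {C R : Subalgebra ℂ K}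
    (hC : Stable G C) (hR : Stable G' R) (fC : Algebra.FiniteType ℂ C) (fR : Algebra.FiniteType ℂ R)
    (n1 : NormalIn H G) (n2 : NormalIn H G') (hO : IsLocOf (inv G C) O) (hd : Dom O O')
    (l1 : IsLocOf C O') (l2 : IsLocOf R O') (i0 : ∀ g ∈ H, InO g O')
    (i1 : ∀ g ∈ G, InO g O' → g ∈ H) (i2 : ∀ g ∈ G', InO g O' → g ∈ H) :
    ∃ D O'', Et (inv G C) D ∧ Et (inv G' R) D ∧ Algebra.FiniteType ℂ D ∧ IsLocOf D O'' ∧
      Dom O O'' := by
  have : Finite H := Finite.of_injective _ (Subgroup.inclusion_injective n1.1)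
  obtain ⟨s, hs, us, e1⟩ := et_of_inert hC n1 l1 fun g hg hi => i1 g hg (hi.toLoc (hC g hg) l1)
  obtain ⟨s', hs', us', e2⟩ := et_of_inert hR n2 l2 fun g hg hi => i2 g hg (hi.toLoc (hR g hg) l2)
  have s1 : Stable H (away C s) := fun g hg => stable_away hC hs.2 g (n1.1 hg)
  have s2 : Stable H (away R s') := fun g hg => stable_away hR hs'.2 g (n2.1 hg)
  have k1 := ((l1.away us).inv s1 fun g hg f hf => (i0 g hg).2 f ((l1.away us).le hf)).1
  have k2 := ((l2.away us').inv s2 fun g hg f hf => (i0 g hg).2 f ((l2.away us').le hf)).1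
  have f1 := ft_inv s1 (ft_away fC)
  obtain ⟨u, hu, u', hu', v, v', e⟩ := common_away f1 (ft_inv s2 (ft_away fR)) k1 k2
  refine ⟨_, _, e1.trans (et_away hu v.2.1), e ▸ e2.trans (et_away hu' v'.2.1), ft_away f1,
    k1.away v, fun f hf => ⟨hd.1 hf, fun g hg => ?_⟩, fun f hf hu => hd.2 f hf (hu.mono inv_le)⟩
  obtain ⟨b, hb, ub, hbf⟩ := hO.frac f hf
  have := hbf.2 g (n1.1 hg)
  rw [map_mul, hb.2 g (n1.1 hg)] at this
  exact mul_left_cancel₀ ub.2.1 this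

theorem nbhd_t (h : Ell x y) {c : Fin 5} (hO : IsLocOf (h.BB c) O) (hd : Dom O O')
    (l1 : IsLocOf (h.CC c) O') {ε : Fin 4 → Bool} (l2 : IsLocOf (Rε x y ε) O')
    (ht : ∀ i, ¬ Un O' (tt x ε i)) {n : ℕ}
    (hn : (n = 2 ∧ ¬ ∀ i, ε i = ε 0) ∨ n = 4 ∧ ∀ i, ε i = ε 0) :
    ∃ D O'', Et (h.BB c) D ∧ Et (PM (tt x ε) n) D ∧ IsLocOf D O'' ∧ Dom O O'' := by
  have := h.finite_GG
  have := h.finite_dg (Pc n)
  have a1 : (1 : Fin 4) + 2 = 3 := rfl
  have a2 : (2 : Fin 4) + 2 = 0 := rfl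
  have a3 : (3 : Fin 4) + 2 = 1 := rfl
  have sq : ∀ p ∈ Pc n, p.1 0 ^ 4 = 1 ∧ ∀ i, p.1 i ^ 2 = p.1 0 ^ 2 := by
    rintro p ⟨h1, h2, h3, h4⟩
    have h5 : p.1 0 ^ 4 = 1 := by rcases hn with ⟨rfl, -⟩ | ⟨rfl, -⟩ <;> grind
    refine ⟨h5, fun i => ?_⟩
    fin_cases i <;> simp only [Fin.zero_eta, Fin.mk_one, Fin.reduceFinMk] <;> grind
  rw [← inv_Pc h ε (hn.imp And.left id)]
  refine (nbhd_of (H := dg x y (Pc n ⊓ Pw ε)) (h.stable_CC c)
    (stable_RR (Pc n) ε) (h.ft_CC c) ft_RR (normalIn_dg ?_ ?_) (normalIn_dg_dg inf_le_left) hO hd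
    l1 l2 ?_ ?_ ?_).imp fun _ => Exists.imp fun _ k => ⟨k.1, k.2.1, k.2.2.2⟩
  · rintro p ⟨hp, hw⟩
    obtain ⟨h5, h6⟩ := sq p hp
    obtain ⟨h1, h2, h3, h4⟩ := hp
    refine ⟨⟨h1, h2, h3, h5⟩, fun i => ?_⟩
    rw [hw i, hw 0, h6 i]
    rcases hn with ⟨rfl, -⟩ | ⟨rfl, hε⟩
    · simp only [h4, ite_self]
    · rw [hε i]
  · rintro p ⟨hp, hw⟩
    obtain ⟨h5, h6⟩ := sq p hp
    obtain ⟨h1, h2, h3, h4⟩ := hp
    refine ⟨⟨?_, ?_, ?_, ?_⟩, fun i => ?_⟩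
    · simpa [a1] using h2
    · simpa [a2, a3] using h1
    · simpa [a2, mul_comm] using h3
    · have : (p.1 0 * p.1 2) ^ n = 1 := by rw [h3, one_pow]
      simpa [mul_pow, h4] using this
    · change p.2 (i + 2) = if ε i then p.1 (i + 2) ^ 2 else 1
      rw [hw (i + 2), h6 (i + 2)]
      rcases hn with ⟨rfl, -⟩ | ⟨rfl, hε⟩
      · simp only [h4, ite_self]
      · rw [hε i, hε (i + 2)]
  · rintro g ⟨a, e, ha, -, hw⟩
    exact (inO_t h l2 ht ha).2 hw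
  · intro g hg hi
    obtain ⟨a, e, ha, ⟨h1, h2, h3, h4⟩, he⟩ := inO_false h ⟨ε, l2⟩ hg hi
    have hw := (inO_t h l2 ht ha).1 hi
    refine ⟨a, e, ha, ⟨h1, h2, h3, ?_⟩, hw⟩
    rcases hn with ⟨rfl, hε⟩ | ⟨rfl, -⟩
    · obtain ⟨i, hi⟩ := not_forall.1 hε
      have b1 : e i = e 0 := he i
      have b2 : e i = if ε i then a i ^ 2 else 1 := hw i
      have b3 : e 0 = if ε 0 then a 0 ^ 2 else 1 := hw 0
      have b4 : a i ^ 2 = a 0 ^ 2 := by
        simp only at h1 h2 h3 h4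
        fin_cases i <;> simp only [Fin.zero_eta, Fin.mk_one, Fin.reduceFinMk] <;> grind
      change a 0 ^ 2 = 1
      grind
    · exact h4
  · rintro g ⟨a, e, ha, hp⟩ hi
    exact ⟨a, e, ha, hp, (inO_t h l2 ht ha).1 hi⟩

theorem nbhd_w (h : Ell x y) {c : Fin 5} (hO : IsLocOf (h.BB c) O) (hd : Dom O O')
    (l1 : IsLocOf (h.CC c) O') (l2 : IsLocOf (Rε x y fun _ => false) O')
    (hw : ∀ i, ¬ Un O' (ww x y (fun _ => false) i)) :
    ∃ D O'', Et (h.BB c) D ∧ Et (PM y 2) D ∧ IsLocOf D O'' ∧ Dom O O'' := by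
  have := h.finite_GG
  have := h.finite_dg Pe
  have one : ∀ p ∈ Pc 1, p.1 = 1 := by
    rintro p ⟨h1, h2, h3, h4⟩
    funext i
    fin_cases i <;> simp only [Fin.zero_eta, Fin.mk_one, Fin.reduceFinMk, Pi.one_apply] <;> grind
  have two : ∀ e n, ((1, e) : (Fin 4 → ℂ) × (Fin 4 → ℂ)) ∈ Pc n := fun e n => by simp [Pc]
  rw [← inv_Pe h]
  refine (nbhd_of (H := dg x y (Pc 1 ⊓ Pe)) (h.stable_CC c)
    (stable_RR Pe _) (h.ft_CC c) ft_RR (normalIn_dg ?_ ?_) (normalIn_dg_dg inf_le_right) hO hd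
    l1 l2 ?_ ?_ ?_).imp fun _ => Exists.imp fun _ k => ⟨k.1, k.2.1, k.2.2.2⟩
  · rintro ⟨a, e⟩ ⟨hp, he⟩
    obtain rfl : a = 1 := one _ hp
    exact ⟨two e 4, he⟩
  · rintro ⟨a, e⟩ ⟨hp, he⟩
    obtain rfl : a = 1 := one _ hp
    exact ⟨two _ 1, fun i => (he (i + 2)).trans (he (0 + 2)).symm⟩
  · rintro g ⟨a, e, ha, hp, -⟩
    exact (inO_w h l2 hw ha).2 (one _ hp)
  · intro g hg hi
    obtain ⟨a, e, ha, -, he⟩ := inO_false h ⟨_, l2⟩ hg hi
    obtain rfl := (inO_w h l2 hw ha).1 hi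
    exact ⟨1, e, ha, two e 1, he⟩
  · rintro g ⟨a, e, ha, he⟩ hi
    obtain rfl := (inO_w h l2 hw ha).1 hi
    exact ⟨1, e, ha, two e 1, he⟩

theorem Ell.nbhd (h : Ell x y) {c : Fin 5} (hO : IsLocOf (h.BB c) O) :
    ∃ D O', Et (h.BB c) D ∧ IsLocOf D O' ∧ Dom O O' ∧ RingRes D := by
  have := h.finite_GG
  obtain ⟨O', l1, hd⟩ := lies_over (h.stable_CC c) hO
  obtain ⟨ε, l2⟩ := h.apt_of_CC l1
  rcases free_or h l2 with hf | ht | hw
  · obtain ⟨s, hs, us, e⟩ := et_of_inert (H := ⊥) (h.stable_CC c)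
      ⟨bot_le, fun g _ k hk => by simp [Subgroup.mem_bot.1 hk]⟩ l1 fun g hg hi =>
        Subgroup.mem_bot.2 (hf g hg (hi.toLoc (h.stable_CC c g hg) l1))
    rw [inv_bot] at e
    exact ⟨_, O', e, l1.away us, hd, ringRes_smooth (ft_away (h.ft_CC c))
      ((et_away hs.1 us.2.1).formallySmooth (h.smooth_CC c))⟩
  · by_cases hε : ∀ i, ε i = ε 0
    · obtain ⟨D, O'', e1, e2, k1, k2⟩ := nbhd_t h hO hd l1 l2 ht (Or.inr ⟨rfl, hε⟩)
      exact ⟨D, O'', e1, k1, k2, ringRes_four (h.chart ε).algInd_t e2⟩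
    · obtain ⟨D, O'', e1, e2, k1, k2⟩ := nbhd_t h hO hd l1 l2 ht (Or.inl ⟨rfl, hε⟩)
      exact ⟨D, O'', e1, k1, k2, ringRes_two (h.chart ε).algInd_t e2⟩
  · obtain ⟨l3, hw'⟩ := isLocOf_zero h l2 hw
    obtain ⟨D, O'', e1, e2, k1, k2⟩ := nbhd_w h hO hd l1 l3 hw'
    exact ⟨D, O'', e1, k1, k2, ringRes_two h.algInd_w e2⟩

end Pool.Agent.P.MP_63735c_ag.Ta
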