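import Pool.Agent.P.MP_63735c_ag.TaPts

/-! Points of `A` over points of `X`. -/

noncomputable section

namespace Pool.Agent.P.MP_63735c_ag.Ta

variable {K : Type} [Field K] [Algebra ℂ K] {x y : Fin 4 → K} {f : K}
  {O O' : Subalgebra ℂ K} {g : K ≃ₐ[ℂ] K} {k : ℕ}

theorem Ell.ptsd_exists_V (h : Ell x y) (hf : f ∈ RR x y) : ∃ k, f ∈ h.VV.V k := by
  rw [h.mem_RR] at hf
  induction hf using Submodule.span_induction with
  | mem u hu =>
    obtain ⟨μ, hμ, rfl⟩ := hu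
    refine ⟨∑ i, (μ.1 i).toNat + 2, mon_mem_Sp fun i => ⟨hμ i, ?_⟩⟩
    have h1 : (μ.1 i).toNat ≤ ∑ j, (μ.1 j).toNat :=
      Finset.single_le_sum (f := fun j => (μ.1 j).toNat) (fun _ _ => Nat.zero_le _)
        (Finset.mem_univ i)
    have h2 := Int.self_le_toNat (μ.1 i)
    generalize ∑ j, (μ.1 j).toNat = n at h1 ⊢
    beta_reduce
    split_ifs <;> omega
  | zero => exact ⟨0, zero_mem _⟩
  | add u v _ _ hu hv =>
    obtain ⟨k, hk⟩ := hu
    obtain ⟨l, hl⟩ := hv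
    exact ⟨max k l, add_mem (h.VV_mono (le_max_left k l) hk) (h.VV_mono (le_max_right k l) hl)⟩
  | smul c u _ hu =>
    obtain ⟨k, hk⟩ := hu
    exact ⟨k, Submodule.smul_mem _ c hk⟩

theorem Ell.ptsd_prod_V (h : Ell x y) {ι : Type} (s : Finset ι) (u : ι → K)
    (hu : ∀ i, u i ∈ h.VV.V k) : ∃ l, ∏ i ∈ s, u i ∈ h.VV.V l := by
  classical
  induction s using Finset.induction_on with
  | empty => exact ⟨0, by rw [Finset.prod_empty]; exact h.VV.one_mem⟩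
  | insert i s hi ih =>
    obtain ⟨l, hl⟩ := ih
    exact ⟨k + l, by rw [Finset.prod_insert hi]; exact h.VV.mul_mem (hu i) hl⟩

theorem Ell.fixed_iff (h : Ell x y) : (∀ g ∈ GG x y, g f = f) ↔
    ∃ k, ∃ a ∈ h.WW.V k, ∃ b ∈ h.WW.V k, b ≠ 0 ∧ f = a / b := by
  classical
  refine ⟨fun hf => ?_, ?_⟩
  · have := h.finite_GG
    let := Fintype.ofFinite (GG x y)
    obtain ⟨a, ha, b, hb, hb0, hab⟩ := h.frac f
    obtain ⟨k, hk⟩ := h.ptsd_exists_V ha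
    obtain ⟨l, hl⟩ := h.ptsd_exists_V hb
    have hu : ∀ g : GG x y, (g : K ≃ₐ[ℂ] K) b ∈ h.VV.V l := fun g => h.VV_stable g g.2 l b hl
    obtain ⟨m, hm⟩ := h.ptsd_prod_V Finset.univ _ hu
    obtain ⟨n, hn⟩ := h.ptsd_prod_V (Finset.univ.erase 1) _ hu
    have hB0 : ∏ g : GG x y, (g : K ≃ₐ[ℂ] K) b ≠ 0 :=
      Finset.prod_ne_zero_iff.2 fun g _ => (map_ne_zero _).2 hb0
    have hB : ∀ g ∈ GG x y, g (∏ g : GG x y, (g : K ≃ₐ[ℂ] K) b) =
        ∏ g : GG x y, (g : K ≃ₐ[ℂ] K) b := fun g hg => by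
      rw [map_prod]
      exact Fintype.prod_equiv (Equiv.mulLeft (⟨g, hg⟩ : GG x y)) _ _ fun _ => rfl
    have hA : f * ∏ g : GG x y, (g : K ≃ₐ[ℂ] K) b =
        a * ∏ g ∈ Finset.univ.erase (1 : GG x y), (g : K ≃ₐ[ℂ] K) b := by
      rw [← Finset.mul_prod_erase _ _ (Finset.mem_univ (1 : GG x y)), ← mul_assoc, hab]
      congr 1
      exact div_mul_cancel₀ a hb0
    refine ⟨max (k + n) m, f * ∏ g : GG x y, (g : K ≃ₐ[ℂ] K) b, ⟨?_, fun g hg => ?_⟩, _,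
      ⟨h.VV_mono (le_max_right _ _) hm, hB⟩, hB0, (mul_div_cancel_right₀ f hB0).symm⟩
    · rw [hA]
      exact h.VV_mono (le_max_left _ _) (h.VV.mul_mem hk hn)
    · rw [map_mul, hf g hg, hB g hg]
  · rintro ⟨k, a, ha, b, hb, -, rfl⟩ g hg
    rw [map_div₀, ha.2 g hg, hb.2 g hg]

theorem Ell.ptsd_trdeg_lt (h : Ell x y) : Algebra.trdeg ℂ K < Cardinal.aleph0 := by
  have : Algebra.IsAlgebraic (Algebra.adjoin ℂ (Set.range x ∪ Set.range y)) K := ⟨fun f => by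
    obtain ⟨a, ha, b, hb, hb0, rfl⟩ := h.frac f
    have h1 : IsAlgebraic (RR x y) a := isAlgebraic_algebraMap (⟨a, ha⟩ : RR x y)
    have h2 : IsAlgebraic (RR x y) b := isAlgebraic_algebraMap (⟨b, hb⟩ : RR x y)
    rw [div_eq_mul_inv]
    exact h1.mul h2.inv⟩
  exact (Algebra.IsAlgebraic.trdeg_le_cardinalMk ℂ (Set.range x ∪ Set.range y)).trans_lt
    ((Set.finite_range x).union (Set.finite_range y)).lt_aleph0

theorem Ell.trdeg (h : Ell x y) {F : Type} [Field F] [Algebra ℂ F] (φ : F →ₐ[ℂ] K)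
    (hφ : ∀ f, f ∈ φ.range ↔ ∀ g ∈ GG x y, g f = f) :
    ∃ d : ℕ, 0 < d ∧ Algebra.trdeg ℂ F = d := by
  have := h.finite_GG
  obtain ⟨d, hd⟩ := Cardinal.lt_aleph0.1
    ((trdeg_le_of_injective φ φ.injective).trans_lt h.ptsd_trdeg_lt)
  refine ⟨d, Nat.pos_of_ne_zero ?_, hd⟩
  rintro rfl
  have hF : Algebra.IsAlgebraic ℂ F := trdeg_eq_zero_iff.1 (hd.trans Nat.cast_zero)
  have : Algebra.IsIntegral ℂ (inv (GG x y) (⊤ : Subalgebra ℂ K)) := ⟨fun u => by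
    obtain ⟨z, hz⟩ := (hφ u).2 u.2.2
    refine (isIntegral_algebraMap_iff (B := K) Subtype.val_injective).1 ?_
    have h1 := (hF.isAlgebraic z).isIntegral.map φ
    have h2 : φ z = u := hz
    rw [h2] at h1
    exact h1⟩
  have h1 : IsIntegral (inv (GG x y) (⊤ : Subalgebra ℂ K)) (x 0) :=
    isIntegral_inv (fun _ _ _ _ => trivial) trivial
  exact h.algInd_t.transcendental 0 (isIntegral_trans _ h1).isAlgebraic

end Pool.Agent.P.MP_63735c_ag.Ta
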