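import Pool.Agent.P.MP_63735c_ag.TaEmbB
import Pool.Agent.P.MP_63735c_ag.TaTor

/-! From ring-level resolutions to rational singularities. -/

open CategoryTheory AlgebraicGeometry

noncomputable section

namespace Pool.Agent.P.MP_63735c_ag.Ta

variable {K : Type} [Field K] [Algebra ℂ K]

theorem Emb.rationalSing {X : Scheme.{0}} {π : X ⟶ Spec (CommRingCat.of ℂ)} [IsIntegral X]
    (E : Emb π K) (h : ∀ x : X, ∃ (U : X.Opens) (C D O' : Subalgebra ℂ K), IsAffineOpen U ∧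
      E.IsRing U C ∧ x ∈ U ∧ Et C D ∧ IsLocOf D O' ∧ Dom (E.O x) O' ∧ RingRes D) :
    RationalSing π := by
  refine rationalSing_of_hasRes π fun x => ?_
  obtain ⟨U, C, D, O', hU, hC, hx, het, hO, hd, hR⟩ := h x
  obtain ⟨e, h1, h2, h3⟩ := E.etale_nbhd hU hC hx het hO hd (AlgEquiv.refl : D ≃ₐ[ℂ] D)
  exact ⟨_, e, h1, h2, inferInstance, h3 ▸ hR⟩

end Pool.Agent.P.MP_63735c_ag.Ta
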