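import Pool.Agent.P.MP_63735c_ag.TaGrp
import Pool.Agent.P.MP_63735c_ag.TaLocB
import Pool.Agent.P.MP_63735c_ag.TaFormB

/-! The invariant frame on `E ^ 4`. -/

noncomputable section

namespace Pool.Agent.P.MP_63735c_ag.Ta

variable {K : Type} [Field K] [Algebra ℂ K] {x y : Fin 4 → K}

theorem Ell.der_rel (h : Ell x y) (D : Der K) (i : Fin 4) :
    y i * D (y i) = 2 * x i ^ 3 * D (x i) := by
  have : CharZero K := charZero_of_injective_algebraMap (algebraMap ℂ K).injective
  have h1 := congrArg D (h.rel i)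
  simp only [map_add, Derivation.leibniz_pow, Derivation.map_one_eq_zero, smul_eq_mul,
    nsmul_eq_mul] at h1
  apply mul_left_cancel₀ (two_ne_zero' K)
  push_cast at h1
  linear_combination h1

theorem Ell.der_ext (h : Ell x y) {D E : Der K} (e : ∀ i, D (x i) = E (x i)) : D = E := by
  have h1 : Set.EqOn D E (RR x y) := Derivation.eqOn_adjoin (by
    rintro _ (⟨i, rfl⟩ | ⟨i, rfl⟩)
    · exact e i
    · exact mul_left_cancel₀ (h.w_ne i) (by rw [h.der_rel, h.der_rel, e]))
  ext f
  obtain ⟨a, ha, b, hb, -, rfl⟩ := h.frac f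
  rw [Derivation.leibniz_div, Derivation.leibniz_div, h1 ha, h1 hb]

open TrivSqZeroExt in
theorem Ell.exists_d (h : Ell x y) (i : Fin 4) :
    ∃ D : Der K, ∀ j, D (x j) = if j = i then y j else 0 := by
  have f1 : ∀ a b : K, (inl a + inr b : TrivSqZeroExt K K).fst = a := fun a b => by
    rw [fst_add, fst_inl, fst_inr, add_zero]
  have f2 : ∀ a b : K, (inl a + inr b : TrivSqZeroExt K K).snd = b := fun a b => by
    rw [snd_add, snd_inl, snd_inr, zero_add]
  obtain ⟨g, g1, g2⟩ := h.exists_hom (A := TrivSqZeroExt K K)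
    (fun j => inl (x j) + inr (if j = i then y j else 0))
    (fun j => inl (y j) + inr (if j = i then 2 * x j ^ 3 else 0)) fun j => by
      ext
      · rw [fst_add (_ ^ _), fst_pow, fst_pow, f1, f1, fst_one, h.rel]
      · rw [snd_add (_ ^ _), snd_pow, snd_pow, f1, f1, f2, f2, snd_one]
        split_ifs <;> simp
        ring
  have hg : ∀ r : RR x y, (g r).fst = r := fun ⟨r, hr⟩ => by
    induction hr using Algebra.adjoin_induction with
    | mem z hz =>
      rcases hz with ⟨j, rfl⟩ | ⟨j, rfl⟩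
      · exact (congrArg fst (g1 j)).trans (f1 _ _)
      · exact (congrArg fst (g2 j)).trans (f1 _ _)
    | algebraMap c => exact congrArg fst (g.commutes c)
    | add a b ha hb ia ib =>
      exact (congrArg fst (map_add g ⟨a, ha⟩ ⟨b, hb⟩)).trans (by rw [fst_add, ia, ib])
    | mul a b ha hb ia ib =>
      exact (congrArg fst (map_mul g ⟨a, ha⟩ ⟨b, hb⟩)).trans (by rw [fst_mul, ia, ib])
  have : IsFractionRing (RR x y) K := IsFractionRing.of_field _ _ fun f => by
    obtain ⟨a, ha, b, hb, -, e⟩ := h.frac f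
    exact ⟨⟨a, ha⟩, ⟨b, hb⟩, e⟩
  have hu : ∀ b : nonZeroDivisors (RR x y), IsUnit (g b) := fun b =>
    isUnit_iff_isUnit_fst.2 (by
      rw [hg]
      exact (Subtype.coe_ne_coe.2 (nonZeroDivisors.coe_ne_zero b)).isUnit)
  let l : K →ₐ[ℂ] TrivSqZeroExt K K := IsLocalization.liftAlgHom (M := nonZeroDivisors (RR x y)) hu
  have hl : ∀ r : RR x y, l r = g r := fun r => IsLocalization.lift_eq hu r
  have hf : ∀ f, (l f).fst = f := fun f => by
    obtain ⟨a, ha, b, hb, h0, rfl⟩ := h.frac f
    have ha' : (l a).fst = a := (congrArg fst (hl ⟨a, ha⟩)).trans (hg ⟨a, ha⟩)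
    have hb' : (l b).fst = b := (congrArg fst (hl ⟨b, hb⟩)).trans (hg ⟨b, hb⟩)
    have := congrArg (fun z => (l z).fst) (div_mul_cancel₀ a h0)
    simp only [map_mul, fst_mul, ha', hb'] at this
    exact eq_div_of_mul_eq h0 this
  refine ⟨Derivation.mk'
    { toFun := fun f => (l f).snd
      map_add' := fun a b => by rw [map_add, snd_add]
      map_smul' := fun c a => by rw [map_smul, snd_smul, RingHom.id_apply] }
    fun a b => by simp [snd_mul, hf, mul_comm], fun j => ?_⟩
  exact (congrArg snd ((hl ⟨x j, t_mem_RR j⟩).trans (g1 j))).trans (f2 _ _)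

/-- The translation invariant frame. -/
def Ell.frame (h : Ell x y) : Frame K where
  d i := (h.exists_d i).choose
  w i :=
    { toFun := fun D => D (x i) / y i
      map_add' := fun a b => by rw [Derivation.add_apply, add_div]
      map_smul' := fun c a => by
        rw [Derivation.smul_apply, smul_eq_mul, RingHom.id_apply, smul_eq_mul, mul_div_assoc] }
  dual i j := by
    change (h.exists_d j).choose (x i) / y i = _
    rw [(h.exists_d j).choose_spec]
    split_ifs <;> simp [h.w_ne]
  span D := h.der_ext fun j => by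
    rw [← Derivation.coeFnAddMonoidHom_apply (∑ i, _), map_sum, Finset.sum_apply]
    simp [(h.exists_d _).choose_spec, h.w_ne]
  closed i D E := by
    change ⁅D, E⁆ (x i) / y i = D (E (x i) / y i) - E (D (x i) / y i)
    have h1 := h.der_rel D i
    have h2 := h.der_rel E i
    have h3 := h.w_ne i
    simp only [Derivation.commutator_apply, Derivation.leibniz_div, smul_eq_mul]
    field_simp
    apply mul_left_cancel₀ h3
    linear_combination E (x i) * h1 - D (x i) * h2

theorem Ell.w_apply (h : Ell x y) (i : Fin 4) (D : Der K) : h.frame.w i D = D (x i) / y i := rfl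

theorem Ell.d_x (h : Ell x y) (i j : Fin 4) :
    h.frame.d i (x j) = if j = i then y j else 0 := (h.exists_d i).choose_spec j

theorem Ell.der_tt (h : Ell x y) (ε : Fin 4 → Bool) (D : Der K) (i : Fin 4) :
    D (tt x ε i) = (if ε i then -1 else 1) * h.frame.w i D * ww x y ε i := by
  have h1 := h.w_ne i
  have h2 := h.t_ne i
  unfold tt ww
  rw [h.w_apply]
  split_ifs
  · rw [Derivation.leibniz_inv, smul_eq_mul]
    field_simp
  · field_simp

theorem Ell.der_ww (h : Ell x y) (ε : Fin 4 → Bool) (D : Der K) (i : Fin 4) :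
    D (ww x y ε i) = (if ε i then -1 else 1) * h.frame.w i D * (2 * tt x ε i ^ 3) := by
  apply mul_left_cancel₀ ((h.chart ε).w_ne i)
  rw [(h.chart ε).der_rel, h.der_tt]
  ring

theorem Ell.d_mem (h : Ell x y) {ε : Fin 4 → Bool} {O : Subalgebra ℂ K}
    (hO : IsLocOf (RR (tt x ε) (ww x y ε)) O) (i : Fin 4) : ∀ f ∈ O, h.frame.d i f ∈ O := by
  have h1 : ∀ j, (if ε j then -1 else 1) * h.frame.w j (h.frame.d i) ∈ O := fun j => by
    rw [h.frame.dual]
    split_ifs <;> simp
  refine hO.deriv_mem _ le_rfl fun f hf => ?_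
  induction hf using Algebra.adjoin_induction with
  | mem z hz =>
    rcases hz with ⟨j, rfl⟩ | ⟨j, rfl⟩
    · rw [h.der_tt]
      exact mul_mem (h1 j) (hO.le (w_mem_RR j))
    · rw [h.der_ww]
      exact mul_mem (h1 j) (mul_mem (ofNat_mem O 2) (pow_mem (hO.le (t_mem_RR j)) 3))
  | algebraMap c =>
    rw [Derivation.map_algebraMap]
    exact zero_mem _
  | add a b _ _ ia ib =>
    rw [map_add]
    exact add_mem ia ib
  | mul a b ha hb ia ib =>
    rw [Derivation.leibniz]
    exact add_mem (mul_mem (hO.le ha) ib) (mul_mem (hO.le hb) ia)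

theorem Ell.w_mem (h : Ell x y) {ε : Fin 4 → Bool} {O : Subalgebra ℂ K}
    (hO : RR (tt x ε) (ww x y ε) ≤ O) {D : Der K} (hD : ∀ f ∈ O, D f ∈ O) (i : Fin 4) :
    h.frame.w i D ∈ O := by
  have : CharZero K := charZero_of_injective_algebraMap (algebraMap ℂ K).injective
  have h1 := hO (t_mem_RR i)
  have h2 := hO (w_mem_RR i)
  have e : h.frame.w i D = (if ε i then -1 else 1) * (ww x y ε i * D (tt x ε i) -
      algebraMap ℂ K 2⁻¹ * (tt x ε i * D (ww x y ε i))) := by
    have h3 := (h.chart ε).rel i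
    rw [h.der_tt, h.der_ww, map_inv₀, map_ofNat]
    split_ifs <;> linear_combination -h.frame.w i D * h3
  rw [e]
  refine mul_mem ?_ (sub_mem (mul_mem h2 (hD _ h1))
    (mul_mem (algebraMap_mem _ _) (mul_mem h1 (hD _ h2))))
  split_ifs <;> simp

theorem Act.map_w (h : Ell x y) {g : K ≃ₐ[ℂ] K} {s : Bool} {c e : Fin 4 → ℂ}
    (ha : Act x y g s c e) {D : Der K} (hD : ∀ z, g (D z) = D (g z)) (i : Fin 4) :
    g (h.frame.w i D) = (c i * e i) • h.frame.w (sw s i) D := by
  have h1 : algebraMap ℂ K (e i) * algebraMap ℂ K (e i) = 1 := by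
    rw [← map_mul, ← pow_two, ha.e2, map_one]
  rw [h.w_apply, h.w_apply, map_div₀, hD, ha.ax, ha.ay, D.map_smul]
  simp only [Algebra.smul_def, map_mul]
  rw [mul_div_mul_comm, div_eq_mul_inv, ← eq_inv_of_mul_eq_one_left h1]

end Pool.Agent.P.MP_63735c_ag.Ta
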