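import Pool.Agent.P.MP_63735c_ag.TaInerB
import Pool.Agent.P.MP_63735c_ag.TaSym1

/-! The reflexive 2-forms of `X`. -/

noncomputable section

namespace Pool.Agent.P.MP_63735c_ag.Ta

variable {K : Type} [Field K] [Algebra ℂ K] {x y : Fin 4 → K}

/-- The functions that are regular at all points of `A` over `O`. -/
def ovr (x y : Fin 4 → K) (O : Subalgebra ℂ K) : Subring K where
  carrier := {f | ∀ O', APt x y O' → Dom O O' → f ∈ O'}
  mul_mem' ha hb O' h1 h2 := mul_mem (ha O' h1 h2) (hb O' h1 h2)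
  one_mem' _ _ _ := one_mem _
  add_mem' ha hb O' h1 h2 := add_mem (ha O' h1 h2) (hb O' h1 h2)
  zero_mem' _ _ _ := zero_mem _
  neg_mem' ha O' h1 h2 := neg_mem (ha O' h1 h2)

theorem Ell.good (h : Ell x y) {O O' : Subalgebra ℂ K} (hO : h.XPt O) (hO' : APt x y O')
    (hd : Dom O O') (hf : Free x y O') : h.frame.Good (GG x y) (ovr x y O) := by
  obtain ⟨c, c1, c2⟩ := hO.common hO' hd
  obtain ⟨u, u1, u2, r, p, q, d1, d2⟩ := exists_dual_free h c2 hf
  have h1 : ∀ f ∈ away (h.CC c) u, f ∈ ovr x y O := fun f hf O'' k1 k2 =>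
    away_le (Ell.XPt.isLocOf_CC c1 k1 k2).le (k2.1 (hd.2 u (c1.le u1) u2).2.2) hf
  refine ⟨fun g f hf O'' k1 k2 => ?_, fun a O'' _ _ => algebraMap_mem _ _,
    ⟨r, p, q, fun k => h1 _ (d1 k).1, fun k => h1 _ (d1 k).2, fun g => ?_⟩,
    fun i f hf O'' k1 k2 => ?_, fun D hD i O'' k1 k2 => ?_⟩
  · have := hf _ (h.apt_map k1 g⁻¹.2) (hO.dom_map k2 g⁻¹.2)
    rw [← inv_smul_smul g f] at this
    exact (locb_mem_map _).1 this
  · split_ifs with hg
    · exact (d2 g g.2).1 (by simp [hg])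
    · exact (d2 g g.2).2 fun k => hg (Subtype.ext (Subgroup.mem_bot.1 k))
  · obtain ⟨ε, k⟩ := id k1
    exact h.d_mem k i f (hf _ k1 k2)
  · obtain ⟨ε, k⟩ := id k1
    exact h.w_mem k.le ((Ell.XPt.isLocOf_CC c1 k1 k2).deriv_mem D le_rfl fun f hf =>
      hD f (h1 f (le_away hf)) _ k1 k2) i

theorem Ell.apt_top (h : Ell x y) : IsLocOf (Rε x y fun _ => false) ⊤ := by
  refine ⟨le_top, fun f _ g _ hu => ?_, fun f _ => ?_⟩
  · by_cases hf : f = 0
    · exact Or.inr (by simpa [hf] using hu)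
    · exact Or.inl ⟨trivial, hf, trivial⟩
  · obtain ⟨a, ha, b, hb, h0, rfl⟩ := (h.chart fun _ => false).frac f
    exact ⟨b, hb, ⟨trivial, h0, trivial⟩, by rwa [mul_div_cancel₀ _ h0]⟩

theorem Ell.mem_of_free (h : Ell x y) {O : Subalgebra ℂ K} (hO : APt x y O) {f : K}
    (hf : ∀ O', IsLocOf O O' → Free x y O' → f ∈ O') : f ∈ O := by
  obtain ⟨ε, k⟩ := hO
  exact (h.chart ε).hartogs_loc k fun O' k1 k2 => hf O' k1
    (k2.elim (free_of_un h (k.trans k1)) (free_of_un h (k.trans k1)))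

/-- The matrix of the invariant form. -/
def symJ : Fin 4 → Fin 4 → ℂ := ![![0, 0, 0, 1], ![0, 0, -1, 0], ![0, 1, 0, 0], ![-1, 0, 0, 0]]

theorem Ell.uniqueSymplectic (h : Ell x y) {F : Type} [Field F] [Algebra ℂ F] (φ : F →ₐ[ℂ] K)
    (hφ : ∀ f, f ∈ φ.range ↔ ∀ g ∈ GG x y, g f = f) (S : Set (Subring F))
    (h1 : ∀ Q ∈ S, ∃ O, h.XPt O ∧ Algebra.FormallySmooth ℂ O ∧ ∀ f, f ∈ O ↔ ∃ z ∈ Q, φ z = f)
    (h2 : ∀ O, h.XPt O → Algebra.FormallySmooth ℂ O → ∃ Q ∈ S, ∀ f, f ∈ O ↔ ∃ z ∈ Q, φ z = f) :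
    UniqueSymplectic S := by
  have := h.finite_GG
  have := Fintype.ofFinite (GG x y)
  let := φ.toRingHom.toAlgebra
  have : IsScalarTower ℂ F K := IsScalarTower.of_algebraMap_eq fun c => (φ.commutes c).symm
  have fx : ∀ z, ∀ g ∈ GG x y, g (φ z) = φ z := fun z => (hφ _).1 ⟨z, rfl⟩
  have : SMulCommClass (GG x y) F K := ⟨fun g a b => by
    change g.1 (φ a * b) = φ a * g.1 b
    rw [map_mul, fx a g g.2]⟩
  have : Algebra.IsInvariant F K (GG x y) := ⟨fun b hb => (hφ b).2 fun g hg => hb ⟨g, hg⟩⟩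
  have m1 : ∀ {O}, h.XPt O → ∀ z, z ∈ (ovr x y O).comap (algebraMap F K) ↔ φ z ∈ O :=
    fun hO z => ⟨hO.mem_of_over (fx z), fun k _ _ k2 => k2.1 k⟩
  have m2 : ∀ {O} {Q : Subring F}, h.XPt O → (∀ f, f ∈ O ↔ ∃ z ∈ Q, φ z = f) →
      Q = (ovr x y O).comap (algebraMap F K) := fun hO hQ => Subring.ext fun z => by
    rw [m1 hO, hQ]
    exact ⟨fun k => ⟨z, k, rfl⟩, fun ⟨z', k, e⟩ => φ.toRingHom.injective e ▸ k⟩
  choose s c e ha k1 k2 k3 k4 k5 k6 using fun g : GG x y => g.2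
  refine h.frame.uniqueSymplectic (G := GG x y) (K := K)
    (fun g i k => if k = sw (s g) i then c g i * e g i else 0) (fun g D hD i => ?_) symJ (-symJ)
    (fun i j => ?_) (fun i k => ?_) (fun g a b => ?_) (fun m m0 hm => ?_) ?_ S (fun Q hQ => ?_)
    fun z hz => h.const_of_apt fun O hO => h.mem_of_free hO fun O' n1 n2 => ?_
  · refine ((ha g).map_w h (hD g) i).trans ?_
    simp [apply_ite (algebraMap ℂ K), Algebra.smul_def]
  · fin_cases i <;> fin_cases j <;> simp [symJ]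
  · fin_cases i <;> fin_cases k <;> simp [symJ, Fin.sum_univ_four]
  · have e1 : c g 0 * e g 0 * (c g 2 * e g 2) = 1 := by
      rw [mul_mul_mul_comm, k5, k6]
      unfold sg
      split_ifs <;> simp
    have e2 : c g 2 * e g 2 * (c g 0 * e g 0) = 1 := by rw [mul_comm, e1]
    cases hs : s g <;> fin_cases a <;> fin_cases b <;>
      simp [symJ, Fin.sum_univ_four, sw, k1, k2, k3, k4, e1, e2]
  · obtain ⟨g1, a1⟩ := h.exists_act (c := ![Complex.I, Complex.I, -Complex.I, -Complex.I]) (e := 1)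
      false (fun i => by fin_cases i <;> simp [Even.neg_pow (show Even 4 by decide)]) (by simp)
    obtain ⟨g2, a2⟩ := h.exists_act (c := ![-1, -1, 1, 1]) (e := ![-1, -1, 1, 1])
      true (fun i => by fin_cases i <;> norm_num) (fun i => by fin_cases i <;> norm_num)
    have b1 : g1 ∈ GG x y := ⟨_, _, _, a1, by simp [sg]⟩
    have b2 : g2 ∈ GG x y := ⟨_, _, _, a2, by simp [sg]⟩
    obtain ⟨p1, p2, p3⟩ := h.act_unique (ha ⟨g1, b1⟩) a1
    obtain ⟨q1, q2, q3⟩ := h.act_unique (ha ⟨g2, b2⟩) a2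
    have r1 := hm ⟨g1, b1⟩ 0 1
    have r2 := hm ⟨g1, b1⟩ 2 3
    have r3 := hm ⟨g2, b2⟩ 0 2
    have r4 := hm ⟨g2, b2⟩ 1 3
    have r5 := hm ⟨g2, b2⟩ 0 3
    simp [p1, p2, p3, q1, q2, q3, sw, Fin.sum_univ_four] at r1 r2 r3 r4 r5
    have := m0 0 0
    have := m0 1 1
    have := m0 2 2
    have := m0 3 3
    have := m0 0 1
    have := m0 0 2
    have := m0 0 3
    have := m0 1 2
    have := m0 1 3
    have := m0 2 3
    refine ⟨m 0 3, fun i j => ?_⟩
    fin_cases i <;> fin_cases j <;> simp [symJ] <;> grind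
  · obtain ⟨O, n1, n2⟩ := h.exists_under ⟨_, h.apt_top⟩
    exact ⟨_, h.good n1 ⟨_, h.apt_top⟩ n2 (free_of_un h h.apt_top (i := 0)
      ⟨trivial, mul_ne_zero ((h.chart _).t_ne 0) ((h.chart _).w_ne 0), trivial⟩)⟩
  · obtain ⟨O, hO, -, hOQ⟩ := h1 Q hQ
    obtain rfl := m2 hO hOQ
    obtain ⟨O', n1, n2⟩ := hO.exists_over
    obtain ⟨a, hO1⟩ := id hO
    refine ⟨_, rfl, (em (Free x y O')).imp (fun hf => ⟨?_, h.good hO n1 n2 hf⟩)
      fun hn => ⟨fun a _ _ _ => algebraMap_mem _ _, fun D hD => ?_⟩⟩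
    · have hu : ∀ a : (ovr x y O).comap (algebraMap F K), Un O (φ a) → IsUnit a := fun a ha =>
        IsUnit.of_mul_eq_one ⟨a.1⁻¹, (m1 hO _).2 (by rw [map_inv₀]; exact ha.2.2)⟩
          (Subtype.ext (mul_inv_cancel₀ fun e => ha.2.1 (by rw [e, map_zero])))
      refine IsLocalRing.of_isUnit_or_isUnit_one_sub_self fun a => ?_
      exact (hO1.add _ ((m1 hO _).1 a.2) _ ((m1 hO _).1 (1 - a).2) (by simpa using un_one)).imp
        (hu a) (hu (1 - a))
    have t1 : ∀ f ∈ O, up K (GG x y) D f ∈ O := fun f hf => by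
      obtain ⟨z, rfl⟩ := (hφ f).2 (hO.fixed hf)
      exact (congrArg (· ∈ O) (up_apply (K := K) (GG x y) D z)).mpr
        ((m1 hO _).1 (hD z ((m1 hO z).2 hf)))
    have t2 : ∀ i, h.frame.w i (up K (GG x y) D) ∈ ovr x y O := fun i P p1 p2 =>
      h.mem_of_free p1 fun P' p3 p4 => by
        obtain ⟨O1, p5, p6⟩ := lies_under inv_le ((Ell.XPt.isLocOf_CC hO1 p1 p2).trans p3)
        have p7 : O ≤ O1 := fun f hf => by
          obtain ⟨b, b1, b2, b3⟩ := hO1.frac f hf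
          have b4 := p6.2 b (p5.le b1) (b2.mono (p2.1.trans p3.le))
          have := mul_mem b4.2.2 (p5.le b3)
          rwa [inv_mul_cancel_left₀ b4.2.1] at this
        have p8 := p5.deriv_mem (up K (GG x y) D) le_rfl fun f hf => p7 (t1 f (hO1.le hf))
        exact (h.good ⟨a, p5⟩ (p1.trans p3) p6 p4).w_mem (fun z hz => (m1 ⟨a, p5⟩ _).2
          ((congrArg (· ∈ O1) (up_apply (K := K) (GG x y) D z)).mp
            (p8 _ ((m1 ⟨a, p5⟩ z).1 hz)))) i _ (p1.trans p3) p6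
    refine ⟨t2, fun f hf u hu hfu => ?_⟩
    obtain ⟨g, g1, g2, c', e', g3, g4⟩ := exists_neg h n1 hn
    obtain ⟨ε, n3⟩ := id n1
    have v1 : up K (GG x y) D (φ f) =
        ∑ i, h.frame.w i (up K (GG x y) D) * h.frame.d i (φ f) := by
      conv_lhs => rw [h.frame.span (up K (GG x y) D), ← Derivation.coeFnAddMonoidHom_apply,
        map_sum, Finset.sum_apply]
      rfl
    have v2 : Un O' (up K (GG x y) D (φ f)) :=
      un_of_mul_eq_one (n2.1 (t1 _ ((m1 hO f).1 hf))) (hu _ n1 n2) (by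
        rw [show up K (GG x y) D (φ f) = φ (D f) from up_apply (GG x y) D f]
        exact (map_mul φ _ _).symm.trans (by rw [hfu, map_one]))
    have v3 := fun i => h.d_mem n3 i _ (hf _ n1 n2)
    obtain ⟨i, -, v4⟩ := n3.sum _ (fun i _ => mul_mem (t2 i _ n1 n2) (v3 i)) (v1 ▸ v2)
    have v5 := g2.smul_eq (Un.of_mul_left (t2 i _ n1 n2) (v3 i) v4)
      (g3.map_w h (up_inv (G := GG x y) D ⟨g, g1⟩) i)
    have := g3.e2 i
    rw [g4] at v5
    grind
  · obtain ⟨O1, p1, p2⟩ := h.exists_under (hO.trans n1)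
    obtain ⟨Q, q1, q2⟩ := h2 O1 p1 (p1.formallySmooth (hO.trans n1) p2 n2)
    exact hz _ (h.good p1 (hO.trans n1) p2 n2) (m2 p1 q2 ▸ q1) _ (hO.trans n1) p2

end Pool.Agent.P.MP_63735c_ag.Ta
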