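import Pool.Agent.P.MP_63735c_ag.TaE
import Pool.Agent.P.MP_63735c_ag.TaKit
import Pool.Agent.P.MP_63735c_ag.TaEmbC
import Pool.Agent.P.MP_63735c_ag.TaRat
import Pool.Agent.P.MP_63735c_ag.TaInd
import Pool.Agent.P.MP_63735c_ag.TaPtsD
import Pool.Agent.P.MP_63735c_ag.TaH1
import Pool.Agent.P.MP_63735c_ag.TaNbhd
import Pool.Agent.P.MP_63735c_ag.TaAnti
import Pool.Agent.P.MP_63735c_ag.TaSym

/-! Assembly. -/

open CategoryTheory AlgebraicGeometry TopologicalSpace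

noncomputable section

namespace Pool.Agent.P.MP_63735c_ag.Ta

variable {K : Type} [Field K] [Algebra ℂ K] {x y : Fin 4 → K} {h : Ell x y} {E : Emb h.WW.str K}
  (hE : h.WW.Kit E)

/-- The five affine charts of `X`. -/
abbrev Ell.U (h : Ell x y) (c : Fin 5) : h.WW.X.Opens := h.WW.D (h.bc_mem_WW c)

include hE

theorem main_cover : ⨆ c, h.U c = ⊤ :=
  hE.cover (fun c => ⟨h.bc_mem_WW c, h.bc_ne c⟩) (by norm_num) h.covers_bc

theorem main_loc {c : Fin 5} {p : h.WW.X} (hp : p ∈ h.U c) : IsLocOf (h.BB c) (E.O p) :=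
  h.chart_WW c ▸ hE.loc (h.bc_mem_WW c) (by norm_num) (h.bc_ne c) hp

theorem main_xpt (p : h.WW.X) : h.XPt (E.O p) := by
  obtain ⟨c, hc⟩ := Opens.mem_iSup.1 ((main_cover hE).ge (Set.mem_univ p))
  exact ⟨c, main_loc hE hc⟩

theorem main_pt {O : Subalgebra ℂ K} (hO : h.XPt O) : ∃ p, E.O p = O := by
  obtain ⟨c, hc⟩ := hO
  obtain ⟨p, -, hp⟩ := hE.pt (h.bc_mem_WW c) (by norm_num) (h.bc_ne c) (h.chart_WW c ▸ hc)
  exact ⟨p, hp⟩

theorem main_range (f : K) : f ∈ E.φ.range ↔ ∀ g ∈ GG x y, g f = f :=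
  (hE.range f).trans h.fixed_iff.symm

theorem main_ample [IsProper h.WW.str] : ∃ A : LB h.WW.X, A.IsLB ∧ A.Ample := by
  have hdiv : ∀ i j p, p ∈ h.U i → bc x j * (bc x i)⁻¹ ∈ E.O p := fun i j p hi => by
    have := h.WW.div_mem_chart (k := 4) (n := 1) (h.bc_ne i) (h.bc_mem_WW j)
    rw [pow_one, h.chart_WW, div_eq_mul_inv] at this
    exact (main_loc hE hi).le this
  obtain ⟨g, hg⟩ := E.exists_rep h.U (main_cover hE) (fun c => (bc x c)⁻¹)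
    (fun c => inv_ne_zero (h.bc_ne c)) fun i j p hi _ => by
      rw [div_inv_eq_mul, mul_comm]
      exact hdiv i j p hi
  refine ⟨_, hg.isLB, QuasiCompact.compactSpace_of_compactSpace h.WW.str, fun p => ?_⟩
  obtain ⟨c, hc⟩ := Opens.mem_iSup.1 ((main_cover hE).ge (Set.mem_univ p))
  obtain ⟨s, hs, hs'⟩ := (hg.pow 1).exists_section (bc x c) fun i q hq => by
    rw [pow_one]
    exact hdiv i c q hq
  have e : ⨆ i, h.WW.X.basicOpen (s i) = h.U c := by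
    ext q
    refine (hs' q).trans ⟨fun ⟨i, hi, hu⟩ => ?_, fun hq => ⟨c, hq, ?_⟩⟩
    · refine (hE.mem_D_iff (h.bc_mem_WW i) (by norm_num) (h.bc_ne i) (h.bc_mem_WW c) (by norm_num)
        (h.bc_ne c) hi).2 ?_
      rw [← div_pow, div_eq_mul_inv]
      simpa using hu.pow 4
    · simp only [pow_one, mul_inv_cancel₀ (h.bc_ne c)]
      exact un_one
  exact ⟨1, one_pos, s, hs, e ▸ h.WW.isAffineOpen_D _ (by norm_num), e ▸ hc⟩

theorem main_h1 {ι : Type} (U : ι → h.WW.X.Opens) (hU : ⨆ i, U i = ⊤) : CechZero U 0 := by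
  refine E.cechZero_zero fun a ha hr => ?_
  have key : ∀ {i p k f} (hf : f ∈ h.WW.V k), 0 < k → f ≠ 0 → h.WW.D hf ≤ U i →
      IsLocOf (h.WW.chart k f) (E.O p) → p ∈ U i :=
    fun hf hk h0 hle hp => hle (hE.mem hf hk h0 _ hp.le)
  obtain ⟨b, hb, hb'⟩ := h.mittag (fun i => {O | ∀ p, E.O p = O → p ∈ U i}) (fun O hO => by
      obtain ⟨p, rfl⟩ := main_pt hE hO
      obtain ⟨i, hi⟩ := Opens.mem_iSup.1 (hU.ge (Set.mem_univ p))
      obtain ⟨k, f, hf, hk, h0, hp, hle⟩ := h.WW.exists_D hi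
      exact ⟨i, k, f, hk, hf, h0, hE.loc hf hk h0 hp, fun O' hO' q hq =>
        key hf hk h0 hle (hq ▸ hO')⟩)
    a (fun i => (main_range hE _).1 (ha i)) fun i j O hO hi hj => by
      obtain ⟨p, rfl⟩ := main_pt hE hO
      exact hr i j p (hi p rfl) (hj p rfl)
  refine ⟨b, (main_range hE b).2 hb, fun i p hp => hb' i _ (main_xpt hE p) fun q hq => ?_⟩
  obtain ⟨k, f, hf, hk, h0, hp', hle⟩ := h.WW.exists_D hp
  exact key hf hk h0 hle (hq ▸ hE.loc hf hk h0 hp')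

theorem main_rational : RationalSing h.WW.str := by
  refine E.rationalSing fun p => ?_
  obtain ⟨c, hc⟩ := Opens.mem_iSup.1 ((main_cover hE).ge (Set.mem_univ p))
  obtain ⟨D, O', h1, h2, h3, h4⟩ := h.nbhd (main_loc hE hc)
  exact ⟨h.U c, h.BB c, D, O', h.WW.isAffineOpen_D _ (by norm_num),
    h.chart_WW c ▸ hE.ring _ (by norm_num) (h.bc_ne c), hc, h1, h2, h3, h4⟩

theorem main_line : ∃ L : LB h.WW.X, L.IsLB ∧ ¬ L.Iso (triv _) ∧ (L.pow 2).Iso (triv _) := by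
  let U : {θ // Anti x y θ} → h.WW.X.Opens := fun θ => ⟨_, E.isOpen_un (θ.1 ^ 2)⟩
  have hU : ⨆ θ, U θ = ⊤ := eq_top_iff.2 fun p _ => by
    obtain ⟨θ, h1, h2⟩ := (main_xpt hE p).exists_anti
    exact Opens.mem_iSup.2 ⟨⟨θ, h1⟩, h2⟩
  obtain ⟨g, hg⟩ := E.exists_rep U hU (fun θ => θ.1) (fun θ => θ.2.1)
    fun i j p hi hj => (main_xpt hE p).anti_div i.2 j.2 hi hj
  refine ⟨_, hg.isLB, fun hi => ?_, ((hg.pow 2).iso_iff E.rep_triv).2 ⟨1, fun i _ p hi _ => ?_⟩⟩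
  · obtain ⟨a, ha⟩ := (hg.iso_iff E.rep_triv).1 hi
    refine h.not_un_anti (a := a) fun θ O hθ hO hu => ?_
    obtain ⟨p, rfl⟩ := main_pt hE hO
    simpa using ha ⟨θ, hθ⟩ () p hu trivial
  · have hi' : Un (E.O p) (i.1 ^ 2) := hi
    simpa using hi'

omit hE in
theorem main : ∃ (X : Scheme.{0}) (π : X ⟶ Spec (CommRingCat.of ℂ)) (_ : IsIntegral X)
    (_ : LocallyOfFinitePresentation π), PrimitiveSymplectic π ∧
    ∃ L : LB X, L.IsLB ∧ ¬ L.Iso (triv X) ∧ (L.pow 2).Iso (triv X) ∧ L.Nef ∧ VolZero π L ∧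
      ¬ L.Induces := by
  obtain ⟨K, _, _, x, y, h⟩ := exists_ell
  obtain ⟨E, hE⟩ := h.WW.exists_kit
  have hl := h.fg_WW.lfp
  have hp : IsProper h.WW.str := h.fg_WW.isProper fun f hf => h.VV_zero hf.1
  obtain ⟨A, hA, hA'⟩ := main_ample hE
  obtain ⟨L, h1, h2, h3⟩ := main_line hE
  let _ := fieldAlg h.WW.str
  let φ : h.WW.X.functionField →ₐ[ℂ] K := ⟨E.φ, E.φ_const⟩
  have hφ : ∀ f, f ∈ φ.range ↔ ∀ g ∈ GG x y, g f = f := main_range hE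
  obtain ⟨d, hd, hd'⟩ := h.trdeg φ hφ
  refine ⟨h.WW.X, h.WW.str, inferInstance, hl, ⟨hp, ⟨A, hA, hA'⟩, fun p => ?_, main_rational hE,
    fun ι U hU => main_h1 hE U hU, ?_⟩, L, h1, h2, h3, tor_nef h1.1 h3 hA hA',
    tor_volZero _ (exists_const _) h1.1 h3 hd hd', not_induces h.WW.str h1 h3⟩
  · exact E.isIntegrallyClosed fun f hf hi => (main_xpt hE p).normal ((main_range hE f).1 hf) hi
  · refine h.uniqueSymplectic φ hφ _ ?_ fun O hO hs => ?_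
    · rintro _ ⟨p, hp, rfl⟩
      exact ⟨_, main_xpt hE p, E.mem_smoothLocus_iff.1 hp, E.mem_O p⟩
    · obtain ⟨p, rfl⟩ := main_pt hE hO
      exact ⟨_, ⟨p, E.mem_smoothLocus hs, rfl⟩, E.mem_O p⟩

end Pool.Agent.P.MP_63735c_ag.Ta
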