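import Pool.Agent.P.MP_63735c_ag.TaML

/-! The function field of `Proj` of a graded domain inside a field `K`. -/

open CategoryTheory AlgebraicGeometry TopologicalSpace HomogeneousLocalization

noncomputable section

namespace Pool.Agent.P.MP_63735c_ag.Ta

variable {C σ : Type} [CommRing C] [IsDomain C] [SetLike σ C] [AddSubgroupClass σ C]
  (𝒜 : ℕ → σ) [GradedRing 𝒜]

instance pj_isPrime (x : Proj 𝒜) : x.asHomogeneousIdeal.toIdeal.IsPrime := x.isPrime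

/-- the zero ideal as a point -/
def pjBot (h : ∃ n > 0, ∃ g ∈ 𝒜 n, g ≠ 0) : Proj 𝒜 :=
  show ProjectiveSpectrum 𝒜 from ⟨⊥, by simpa using Ideal.isPrime_bot, fun hle => by
    obtain ⟨n, hn, g, hg, h0⟩ := h
    have : g ∈ HomogeneousIdeal.irrelevant 𝒜 := by
      rw [HomogeneousIdeal.mem_irrelevant_iff, GradedRing.proj_apply,
        DirectSum.decompose_of_mem_ne 𝒜 hg hn.ne']
    exact h0 (Ideal.mem_bot.1 (hle this))⟩

lemma pjBot_generic (h : ∃ n > 0, ∃ g ∈ 𝒜 n, g ≠ 0) : IsGenericPoint (pjBot 𝒜 h) Set.univ :=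
  Set.eq_univ_of_forall fun y =>
    (ProjectiveSpectrum.le_iff_mem_closure 𝒜 (pjBot 𝒜 h) y).1
      (show (⊥ : HomogeneousIdeal 𝒜) ≤ _ from bot_le)

lemma pj_isDomain_atPrime (x : Proj 𝒜) : IsDomain (AtPrime 𝒜 x.asHomogeneousIdeal.toIdeal) :=
  haveI : IsDomain (Localization x.asHomogeneousIdeal.toIdeal.primeCompl) :=
    IsLocalization.isDomain_localization (Ideal.primeCompl_le_nonZeroDivisors _)
  Function.Injective.isDomain (algebraMap _ (Localization x.asHomogeneousIdeal.toIdeal.primeCompl))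
    (fun _ _ h => val_injective _ h)

theorem pj_isIntegral (h : ∃ n > 0, ∃ g ∈ 𝒜 n, g ≠ 0) : IsIntegral (Proj 𝒜) := by
  have : IrreducibleSpace (Proj 𝒜) :=
    (irreducibleSpace_def _).2 (pjBot_generic 𝒜 h).isIrreducible
  have : ∀ x : Proj 𝒜, _root_.IsReduced ((Proj 𝒜).presheaf.stalk x) := fun x =>
    have := pj_isDomain_atPrime 𝒜 x
    isReduced_of_injective (Proj.stalkIso 𝒜 x).hom.hom
      (Proj.stalkIso 𝒜 x).commRingCatIsoToRingEquiv.injective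
  have := isReduced_of_isReduced_stalk (Proj 𝒜)
  exact isIntegral_of_irreducibleSpace_of_isReduced _

variable {K : Type} [Field K] (θ : C →+* K) (hθ : ∀ n, ∀ a ∈ 𝒜 n, θ a = 0 → a = 0)

omit [AddSubgroupClass σ C] [GradedRing 𝒜] in
include hθ in
lemma pj_ev_mk {M : Submonoid C} (hM : (0 : C) ∉ M) (f : NumDenSameDeg 𝒜 M) :
    θ (HomogeneousLocalization.mk f).num / θ (HomogeneousLocalization.mk f).den =
      θ f.num / θ f.den := by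
  have h := (HomogeneousLocalization.mk f).eq_num_div_den
  rw [val_mk, Localization.mk_eq_mk_iff, Localization.r_iff_exists] at h
  obtain ⟨c, hc⟩ := h
  have h1 := mul_left_cancel₀ (fun h0 : (c : C) = 0 => hM (h0 ▸ c.2)) hc
  rw [div_eq_div_iff (fun h0 => hM (hθ _ _ (den_mem_deg _) h0 ▸ den_mem _))
    (fun h0 => hM (hθ _ _ f.den.2 h0 ▸ f.den_mem)), ← map_mul, ← map_mul]
  congr 1
  simp only at h1
  linear_combination -h1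

/-- the value in `K` of a homogeneous fraction -/
def pjEv {M : Submonoid C} (hM : (0 : C) ∉ M) : HomogeneousLocalization 𝒜 M →+* K where
  toFun z := θ z.num / θ z.den
  map_one' := by rw [one_eq]; exact (pj_ev_mk 𝒜 θ hθ hM 1).trans (by simp)
  map_zero' := by rw [zero_eq]; exact (pj_ev_mk 𝒜 θ hθ hM 0).trans (by simp)
  map_mul' a b := by
    obtain ⟨a, rfl⟩ := mk_surjective a
    obtain ⟨b, rfl⟩ := mk_surjective b
    rw [← mk_mul, pj_ev_mk 𝒜 θ hθ hM, pj_ev_mk 𝒜 θ hθ hM, pj_ev_mk 𝒜 θ hθ hM]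
    simp [div_mul_div_comm]
  map_add' a b := by
    obtain ⟨a, rfl⟩ := mk_surjective a
    obtain ⟨b, rfl⟩ := mk_surjective b
    rw [← mk_add, pj_ev_mk 𝒜 θ hθ hM, pj_ev_mk 𝒜 θ hθ hM, pj_ev_mk 𝒜 θ hθ hM,
      div_add_div _ _ (fun h0 => hM (hθ _ _ a.den.2 h0 ▸ a.den_mem))
        (fun h0 => hM (hθ _ _ b.den.2 h0 ▸ b.den_mem))]
    simp [add_comm, mul_comm]

lemma pjEv_mk {M : Submonoid C} (hM : (0 : C) ∉ M) (f : NumDenSameDeg 𝒜 M) :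
    pjEv 𝒜 θ hθ hM (HomogeneousLocalization.mk f) = θ f.num / θ f.den :=
  pj_ev_mk 𝒜 θ hθ hM f

/-- the value in `K` of a germ -/
def pjStalk (x : Proj 𝒜) : (Proj 𝒜).presheaf.stalk x →+* K :=
  (pjEv 𝒜 θ hθ (M := x.asHomogeneousIdeal.toIdeal.primeCompl)
    (fun h => h (zero_mem _))).comp (Proj.stalkIso 𝒜 x).hom.hom

lemma pjStalk_germ (U : (Proj 𝒜).Opens) (x : Proj 𝒜) (hx : x ∈ U) (s : Γ(Proj 𝒜, U)) :
    pjStalk 𝒜 θ hθ x ((Proj 𝒜).presheaf.germ U x hx s) =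
      pjEv 𝒜 θ hθ (M := x.asHomogeneousIdeal.toIdeal.primeCompl) (fun h => h (zero_mem _))
        (s.1 ⟨x, hx⟩) :=
  congrArg (pjEv 𝒜 θ hθ (M := x.asHomogeneousIdeal.toIdeal.primeCompl) (fun h => h (zero_mem _)))
    (Proj.stalkIso'_germ 𝒜 U x hx s)

/-- the fraction `a / b` as a section over `D₊(b)` -/
def pjFrac {n : ℕ} {a b : C} (ha : a ∈ 𝒜 n) (hb : b ∈ 𝒜 n) : Γ(Proj 𝒜, Proj.basicOpen 𝒜 b) :=
  ⟨fun y => HomogeneousLocalization.mk ⟨n, ⟨a, ha⟩, ⟨b, hb⟩, y.2⟩, fun y =>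
    ⟨ProjectiveSpectrum.basicOpen 𝒜 b, y.2, ⟨𝟙 _, ⟨n, ⟨⟨a, ha⟩, ⟨b, hb⟩, _, fun _ => rfl⟩⟩⟩⟩⟩

lemma pjStalk_frac {n : ℕ} {a b : C} (ha : a ∈ 𝒜 n) (hb : b ∈ 𝒜 n) (x : Proj 𝒜)
    (hx : x ∈ Proj.basicOpen 𝒜 b) :
    pjStalk 𝒜 θ hθ x ((Proj 𝒜).presheaf.germ _ x hx (pjFrac 𝒜 ha hb)) = θ a / θ b :=
  (pjStalk_germ 𝒜 θ hθ _ x hx _).trans (pjEv_mk 𝒜 θ hθ _ _)

omit [IsDomain C] in
lemma pj_exists_frac (x : Proj 𝒜) (s : (Proj 𝒜).presheaf.stalk x) :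
    ∃ (n : ℕ) (a b : C) (ha : a ∈ 𝒜 n) (hb : b ∈ 𝒜 n) (hx : x ∈ Proj.basicOpen 𝒜 b),
      s = (Proj 𝒜).presheaf.germ _ x hx (pjFrac 𝒜 ha hb) := by
  obtain ⟨z, rfl⟩ := (Proj.stalkIso' 𝒜 x).symm.surjective s
  obtain ⟨f, rfl⟩ := mk_surjective z
  exact ⟨f.deg, f.num, f.den, f.num.2, f.den.2, f.den_mem, Proj.stalkIso'_symm_mk 𝒜 x f⟩

variable [IsIntegral (Proj 𝒜)]

/-- the function field inside `K` -/
def pjField : (Proj 𝒜).functionField →+* K := pjStalk 𝒜 θ hθ (genericPoint _)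

lemma pjField_injective : Function.Injective (pjField 𝒜 θ hθ) := RingHom.injective _

lemma pj_generic_mem {b : C} (hb : b ≠ 0) : genericPoint (Proj 𝒜) ∈ Proj.basicOpen 𝒜 b := by
  have h : ∃ n > 0, ∃ g ∈ 𝒜 n, g ≠ 0 := by
    classical
    by_contra hn
    push Not at hn
    refine (genericPoint (Proj 𝒜)).not_irrelevant_le fun z hz => ?_
    rw [← DirectSum.sum_support_decompose 𝒜 z]
    refine Ideal.sum_mem _ fun n _ => ?_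
    rcases Nat.eq_zero_or_pos n with rfl | h0
    · rw [HomogeneousIdeal.mem_irrelevant_iff, GradedRing.proj_apply] at hz
      rw [hz]; exact zero_mem _
    · rw [hn n h0 _ (DirectSum.decompose 𝒜 z n).2]; exact zero_mem _
  exact ml_gen_mem (x := pjBot 𝒜 h) (fun h0 => hb (Ideal.mem_bot.1 h0))

lemma pjField_frac {n : ℕ} {a b : C} (ha : a ∈ 𝒜 n) (hb : b ∈ 𝒜 n)
    (hx : genericPoint (Proj 𝒜) ∈ Proj.basicOpen 𝒜 b) :
    pjField 𝒜 θ hθ ((Proj 𝒜).presheaf.germ _ _ hx (pjFrac 𝒜 ha hb)) = θ a / θ b :=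
  pjStalk_frac 𝒜 θ hθ ha hb _ hx

lemma pjField_algebraMap (x : Proj 𝒜) (s : (Proj 𝒜).presheaf.stalk x) :
    pjField 𝒜 θ hθ (algebraMap _ (Proj 𝒜).functionField s) = pjStalk 𝒜 θ hθ x s := by
  obtain ⟨n, a, b, ha, hb, hx, rfl⟩ := pj_exists_frac 𝒜 x s
  have : Nonempty (Proj.basicOpen 𝒜 b) := ⟨⟨x, hx⟩⟩
  rw [Scheme.algebraMap_germ_eq_germToFunctionField, pjStalk_frac]
  exact pjField_frac 𝒜 θ hθ ha hb _

lemma pj_mem_range {w : K} : w ∈ (pjField 𝒜 θ hθ).range ↔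
    ∃ n, ∃ a ∈ 𝒜 n, ∃ b ∈ 𝒜 n, b ≠ 0 ∧ w * θ b = θ a := by
  constructor
  · rintro ⟨z, rfl⟩
    obtain ⟨n, a, b, ha, hb, hx, rfl⟩ := pj_exists_frac 𝒜 _ z
    have h0 : b ≠ 0 := fun h0 => hx (h0 ▸ zero_mem _)
    exact ⟨n, a, ha, b, hb, h0, by
      rw [pjField_frac, div_mul_cancel₀ _ fun h => h0 (hθ _ _ hb h)]⟩
  · rintro ⟨n, a, ha, b, hb, h0, h⟩
    exact ⟨_, (pjField_frac 𝒜 θ hθ ha hb (pj_generic_mem 𝒜 h0)).trans
      (by rw [← h, mul_div_cancel_right₀ _ fun h => h0 (hθ _ _ hb h)])⟩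

lemma pj_mem_stalk {x : Proj 𝒜} {z : (Proj 𝒜).functionField} :
    z ∈ (algebraMap ((Proj 𝒜).presheaf.stalk x) (Proj 𝒜).functionField).range ↔
      ∃ n, ∃ a ∈ 𝒜 n, ∃ b ∈ 𝒜 n, b ∉ x.asHomogeneousIdeal ∧ pjField 𝒜 θ hθ z * θ b = θ a := by
  constructor
  · rintro ⟨s, rfl⟩
    obtain ⟨n, a, b, ha, hb, hx, rfl⟩ := pj_exists_frac 𝒜 _ s
    have h0 : b ≠ 0 := fun h0 => hx (h0 ▸ zero_mem _)
    exact ⟨n, a, ha, b, hb, hx, by
      rw [pjField_algebraMap, pjStalk_frac, div_mul_cancel₀ _ fun h => h0 (hθ _ _ hb h)]⟩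
  · rintro ⟨n, a, ha, b, hb, hx, h⟩
    have h0 : b ≠ 0 := fun h0 => hx (h0 ▸ zero_mem _)
    have hx' : x ∈ Proj.basicOpen 𝒜 b := hx
    refine ⟨(Proj 𝒜).presheaf.germ _ x hx' (pjFrac 𝒜 ha hb), pjField_injective 𝒜 θ hθ ?_⟩
    rw [pjField_algebraMap, pjStalk_frac, ← h, mul_div_cancel_right₀ _ fun h => h0 (hθ _ _ hb h)]

lemma pjField_away {n : ℕ} {g : C} (hg : g ∈ 𝒜 n) (k : ℕ) (a : C) (ha : a ∈ 𝒜 (k • n))
    (hx : genericPoint (Proj 𝒜) ∈ Proj.basicOpen 𝒜 g) :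
    pjField 𝒜 θ hθ ((Proj 𝒜).presheaf.germ _ _ hx
      (Proj.awayToSection 𝒜 g (Away.mk 𝒜 hg k a ha))) = θ a / θ g ^ k := by
  refine (pjStalk_germ 𝒜 θ hθ _ _ hx _).trans ?_
  rw [← map_pow]
  exact pjEv_mk 𝒜 θ hθ (M := (genericPoint (Proj 𝒜)).asHomogeneousIdeal.toIdeal.primeCompl) _
    ⟨k • n, ⟨a, ha⟩, ⟨g ^ k, SetLike.pow_mem_graded k hg⟩,
    fun h => hx ((genericPoint (Proj 𝒜)).isPrime.mem_of_pow_mem k h)⟩

lemma pj_reg_basicOpen {n : ℕ} (hn : 0 < n) {g : C} (hg : g ∈ 𝒜 n) {z : (Proj 𝒜).functionField} :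
    Reg (Proj.basicOpen 𝒜 g) z ↔ ∃ k, ∃ a ∈ 𝒜 (k • n), pjField 𝒜 θ hθ z * θ g ^ k = θ a := by
  constructor
  · intro h
    by_cases h0 : g = 0
    · exact ⟨1, 0, zero_mem _, by simp [h0]⟩
    obtain ⟨s, hs⟩ := h.exists_section
    obtain ⟨w, rfl⟩ := (Proj.basicOpenIsoAway 𝒜 g hg hn).commRingCatIsoToRingEquiv.surjective s
    obtain ⟨k, a, ha, rfl⟩ := Away.mk_surjective 𝒜 hg w
    refine ⟨k, a, ha, ?_⟩
    rw [← hs (pj_generic_mem 𝒜 h0)]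
    have := pjField_away 𝒜 θ hθ hg k a ha (pj_generic_mem 𝒜 h0)
    refine (congrArg (· * θ g ^ k) this).trans ?_
    exact div_mul_cancel₀ _ (pow_ne_zero _ fun h => h0 (hθ _ _ hg h))
  · rintro ⟨k, a, ha, h⟩ x hx
    exact (pj_mem_stalk 𝒜 θ hθ).2 ⟨_, a, ha, g ^ k, SetLike.pow_mem_graded k hg,
      fun h' => hx (x.isPrime.mem_of_pow_mem k h'), by rw [map_pow, h]⟩

end Pool.Agent.P.MP_63735c_ag.Ta
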