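import Pool.Agent.P.MP_63735c_ag.TaGrp
import Pool.Agent.P.MP_63735c_ag.TaEllC
import Pool.Agent.P.MP_63735c_ag.TaFiltB
import Pool.Agent.P.MP_63735c_ag.TaInvB
import Pool.Agent.P.MP_63735c_ag.TaH1Core

/-! The filtrations of `A = E ^ 4` and of `X = A / G`, their charts and points. -/

noncomputable section

namespace Pool.Agent.P.MP_63735c_ag.Ta

variable {K : Type} [Field K] [Algebra ℂ K] {x y : Fin 4 → K} (h : Ell x y) {f : K}
  {O O' : Subalgebra ℂ K} {g : K ≃ₐ[ℂ] K} {k : ℕ}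

/-- Functions on `E ^ 4` with poles of order at most `k` along the divisors at infinity. -/
def Ell.VV : Filt K where
  V k := Sp x y (Box 0 fun _ => k)
  one_mem := by
    have := mon_mem_Sp (t := x) (w := y) (T := Box 0 fun _ => (0 : ℕ)) (μ := (0, fun _ => false))
      fun i => by simp
    simpa [mon] using this
  mul_mem := fun {k l} _ _ hf hg => by
    have := h.box_mul hf hg
    refine Sp_mono ?_ this
    intro μ hμ i
    simpa using hμ i
  pos := ⟨1, one_pos, 1, by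
    have := mon_mem_Sp (t := x) (w := y) (T := Box 0 fun _ => (1 : ℕ)) (μ := (0, fun _ => false))
      fun i => by simp
    simpa [mon] using this, one_ne_zero⟩

/-- The standard affine charts of `A`. -/
abbrev Rε (x y : Fin 4 → K) (ε : Fin 4 → Bool) : Subalgebra ℂ K := RR (tt x ε) (ww x y ε)

/-- The section of degree one that defines the chart `ε`. -/
def be (x : Fin 4 → K) (ε : Fin 4 → Bool) : K := ∏ i, if ε i then x i else 1

/-- Five invariant sections of degree four without common zero. -/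
def bc (x : Fin 4 → K) (c : Fin 5) : K := ∏ i, (1 + ((c : ℕ) : K) * x i ^ 4)

omit [Algebra ℂ K] in
theorem pts_mon_false (m : Fin 4 → ℤ) : mon x y (m, fun _ => false) = ∏ i, x i ^ m i := by
  simp [mon]

omit [Algebra ℂ K] in
theorem pts_be_pow (ε : Fin 4 → Bool) (n : ℕ) :
    be x ε ^ n = ∏ i, x i ^ (if ε i then (n : ℤ) else 0) := by
  rw [be, ← Finset.prod_pow]
  refine Finset.prod_congr rfl fun i _ => ?_
  split_ifs <;> simp

include h in
theorem Ell.pts_shift {T T' : Set Ix} (m : Fin 4 → ℤ) (hT : ∀ μ ∈ T, (μ.1 + m, μ.2) ∈ T')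
    (hf : f ∈ Sp x y T) : f * ∏ i, x i ^ m i ∈ Sp x y T' := by
  induction hf using Submodule.span_induction with
  | mem _ hx =>
    obtain ⟨μ, hμ, rfl⟩ := hx
    rw [h.mon_mul_zpow]
    exact mon_mem_Sp (hT μ hμ)
  | zero =>
    rw [zero_mul]
    exact zero_mem _
  | add a b _ _ ha hb =>
    rw [add_mul]
    exact add_mem ha hb
  | smul c a _ ha =>
    rw [smul_mul_assoc]
    exact Submodule.smul_mem _ c ha

include h in
theorem Ell.pts_zpow_add (m m' : Fin 4 → ℤ) :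
    (∏ i, x i ^ m i) * ∏ i, x i ^ m' i = ∏ i, x i ^ (m i + m' i) := by
  rw [← Finset.prod_mul_distrib]
  exact Finset.prod_congr rfl fun i _ => (zpow_add₀ (h.t_ne i) _ _).symm

include h in
theorem Ell.pts_unshift {T T' : Set Ix} (m : Fin 4 → ℤ) (hT : ∀ μ ∈ T, (μ.1 - m, μ.2) ∈ T')
    (hf : (∏ i, x i ^ m i) * f ∈ Sp x y T) : f ∈ Sp x y T' := by
  have h1 := h.pts_shift (T' := T') (-m) (fun μ hμ => by
    rw [← sub_eq_add_neg]
    exact hT μ hμ) hf
  rwa [mul_right_comm, h.pts_zpow_add, Finset.prod_eq_one (fun i _ => by simp), one_mul] at h1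

theorem Ell.pts_zpow_mem {m : Fin 4 → ℤ} (hm : ∀ i, 0 ≤ m i ∧ m i ≤ k) :
    ∏ i, x i ^ m i ∈ h.VV.V k := by
  rw [← pts_mon_false (y := y)]
  exact mon_mem_Sp fun i => by simpa using hm i

theorem pts_const {T : Set Ix} (hT : ∀ μ ∈ T, μ = (0, fun _ => false)) (hf : f ∈ Sp x y T) :
    ∃ c : ℂ, f = algebraMap ℂ K c := by
  have h1 : f ∈ Submodule.span ℂ {(1 : K)} := by
    refine Submodule.span_mono ?_ hf
    rintro _ ⟨μ, hμ, rfl⟩
    rw [hT μ hμ]
    simp [mon]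
  obtain ⟨c, rfl⟩ := Submodule.mem_span_singleton.1 h1
  exact ⟨c, (Algebra.algebraMap_eq_smul_one c).symm⟩

theorem Ell.VV_mono {l : ℕ} (hkl : k ≤ l) : h.VV.V k ≤ h.VV.V l :=
  Sp_mono fun _ hμ i => ⟨(hμ i).1, (hμ i).2.trans (Int.ofNat_le.2 hkl)⟩

theorem Ell.be_mem (ε : Fin 4 → Bool) : be x ε ∈ h.VV.V 1 := by
  rw [← pow_one (be x ε), pts_be_pow]
  refine h.pts_zpow_mem fun i => ?_
  split_ifs <;> simp

include h in
theorem Ell.be_ne (ε : Fin 4 → Bool) : be x ε ≠ 0 := by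
  refine Finset.prod_ne_zero_iff.2 fun i _ => ?_
  split_ifs
  · exact h.t_ne i
  · exact one_ne_zero

theorem Ell.bc_mem (c : Fin 5) : bc x c ∈ h.VV.V 4 := by
  rw [bc, Finset.prod_one_add]
  refine Submodule.sum_mem _ fun t _ => ?_
  have e : ∏ i ∈ t, ((c : ℕ) : K) * x i ^ 4 =
      (((c : ℕ) : ℂ) ^ t.card) • ∏ i, x i ^ (if i ∈ t then (4 : ℤ) else 0) := by
    rw [Finset.prod_mul_distrib, Finset.prod_const, Algebra.smul_def, map_pow, map_natCast]
    congr 1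
    rw [← Finset.prod_ite_mem_eq]
    refine Finset.prod_congr rfl fun i _ => ?_
    split_ifs
    · exact (zpow_natCast _ 4).symm
    · simp
  rw [e]
  refine Submodule.smul_mem _ _ (h.pts_zpow_mem fun i => ?_)
  split_ifs <;> simp

include h in
theorem Ell.bc_ne (c : Fin 5) : bc x c ≠ 0 := by
  refine Finset.prod_ne_zero_iff.2 fun i _ h0 => ?_
  have h1 := transcendental_iff.1 (h.algInd_t.transcendental i)
    (1 + Polynomial.C ((c : ℕ) : ℂ) * Polynomial.X ^ 4) (by simpa using h0)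
  have h2 := congrArg (Polynomial.eval 0) h1
  simp at h2

theorem bc_fixed (c : Fin 5) : ∀ g ∈ GG x y, g (bc x c) = bc x c := by
  rintro g ⟨s, a, e, ha, -⟩
  have h1 : ∀ i, g (1 + ((c : ℕ) : K) * x i ^ 4) = 1 + ((c : ℕ) : K) * x (sw s i) ^ 4 := fun i => by
    rw [map_add, map_one, map_mul, map_natCast, map_pow, ha.ax, smul_pow, ha.c4, one_smul]
  rw [bc, map_prod, Finset.prod_congr rfl fun i _ => h1 i]
  cases s
  · rfl
  · exact Fintype.prod_equiv (Equiv.addRight 2) _ _ fun i => rfl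

theorem Ell.VV_stable : ∀ g ∈ GG x y, ∀ k, ∀ f ∈ h.VV.V k, g f ∈ h.VV.V k := by
  rintro g ⟨s, a, e, ha, -⟩ k f hf
  induction hf using Submodule.span_induction with
  | mem _ hx =>
    obtain ⟨μ, hμ, rfl⟩ := hx
    rw [ha.mon]
    exact Submodule.smul_mem _ _ (mon_mem_Sp fun i => hμ (sw s i))
  | zero =>
    rw [map_zero]
    exact zero_mem _
  | add a b _ _ ha hb =>
    rw [map_add]
    exact add_mem ha hb
  | smul c a _ ha =>
    rw [map_smul]
    exact Submodule.smul_mem _ c ha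

include h in
theorem Ell.mem_Rε (ε : Fin 4 → Bool) :
    f ∈ Rε x y ε ↔ f ∈ Sp x y {μ | ∀ i, ¬ Pole μ.1 μ.2 i (ε i)} := by
  rw [(h.chart ε).mem_RR]
  have e : mon (tt x ε) (ww x y ε) '' {μ | ∀ i, 0 ≤ μ.1 i} =
      mon x y '' {μ | ∀ i, ¬ Pole μ.1 μ.2 i (ε i)} := by
    ext a
    constructor
    · rintro ⟨μ, hμ, rfl⟩
      refine ⟨_, fun i => ?_, (h.mon_chart ε μ).symm⟩
      have := hμ i
      simp only [Pole]
      split_ifs <;> omega
    · rintro ⟨μ, hμ, rfl⟩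
      refine ⟨(fun i => if ε i then -μ.1 i - (if μ.2 i then 2 else 0) else μ.1 i, μ.2),
        fun i => ?_, ?_⟩
      · have := hμ i
        simp only [Pole] at this ⊢
        split_ifs at this ⊢ <;> omega
      · rw [h.mon_chart]
        congr 1
        refine Prod.ext (funext fun i => ?_) rfl
        simp only
        split_ifs <;> omega
  rw [Sp, Sp, e]

theorem Ell.chart_be (ε : Fin 4 → Bool) : h.VV.chart 1 (be x ε) = Rε x y ε := by
  ext f
  rw [h.mem_Rε]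
  constructor
  · intro hf
    obtain ⟨n, hn⟩ := (h.VV.mem_chart (h.be_mem ε)).1 hf
    rw [pts_be_pow] at hn
    refine h.pts_unshift _ (fun μ hμ i => ?_) hn
    have := hμ i
    simp only [Pole, Pi.sub_apply, Pi.zero_apply, mul_one] at this ⊢
    split_ifs at this ⊢ <;> omega
  · intro hf
    refine (Submodule.span_le (p := (h.VV.chart 1 (be x ε)).toSubmodule)).2 ?_ hf
    rintro _ ⟨μ, hμ, rfl⟩
    refine (h.VV.mem_chart (h.be_mem ε)).2 ⟨∑ i, (μ.1 i).natAbs + 2, ?_⟩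
    rw [pts_be_pow, mul_comm _ (mon x y μ), h.mon_mul_zpow]
    refine mon_mem_Sp fun i => ?_
    have h1 := hμ i
    have h2 : (μ.1 i).natAbs ≤ ∑ i, (μ.1 i).natAbs :=
      Finset.single_le_sum (f := fun i => (μ.1 i).natAbs) (fun _ _ => Nat.zero_le _)
        (Finset.mem_univ i)
    generalize ∑ i, (μ.1 i).natAbs = N at h2 ⊢
    simp only [Pole, Pi.add_apply, Pi.zero_apply, mul_one] at h1 ⊢
    split_ifs at h1 ⊢ <;> omega

theorem Ell.chart_be_be (ε ε' : Fin 4 → Bool) (hf : f ∈ h.VV.chart (1 + 1) (be x ε * be x ε')) :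
    f ∈ Sp x y {μ | ∀ i, ε i = ε' i → ¬ Pole μ.1 μ.2 i (ε i)} := by
  obtain ⟨n, hn⟩ := (h.VV.mem_chart (h.VV.mul_mem (h.be_mem ε) (h.be_mem ε'))).1 hf
  rw [mul_pow, pts_be_pow, pts_be_pow, h.pts_zpow_add] at hn
  refine h.pts_unshift _ (fun μ hμ i hi => ?_) hn
  have := hμ i
  simp only [Pole, Pi.sub_apply, Pi.zero_apply, ← hi] at this ⊢
  split_ifs at this ⊢ <;> omega

include h in
theorem Ell.const_of_mem (hf : ∀ ε, f ∈ Rε x y ε) : ∃ c : ℂ, f = algebraMap ℂ K c := by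
  refine pts_const (fun μ hμ => ?_) (h.mem_inter fun ε => (h.mem_Rε ε).1 (hf ε))
  have key : ∀ i, μ.1 i = 0 ∧ μ.2 i = false := fun i => by
    have h1 := Set.mem_iInter.1 hμ (fun _ => false) i
    have h2 := Set.mem_iInter.1 hμ (fun _ => true) i
    cases h3 : μ.2 i <;> simp [Pole, h3] at h1 h2 ⊢ <;> omega
  exact Prod.ext (funext fun i => (key i).1) (funext fun i => (key i).2)

theorem Ell.VV_zero (hf : f ∈ h.VV.V 0) : ∃ c : ℂ, f = algebraMap ℂ K c :=
  h.const_of_mem fun ε => h.chart_be ε ▸ h.VV.zero_le_chart hf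

theorem Ell.fg_VV : h.VV.FG := by
  have h0 : h.VV.zero = ⊥ := by
    refine le_antisymm (fun f hf => ?_) bot_le
    obtain ⟨c, rfl⟩ := h.VV_zero hf
    exact Subalgebra.algebraMap_mem _ c
  have hfin : {p : ℕ × Ix | p.1 ≤ 2 ∧ p.2 ∈ Box 0 fun _ => (p.1 : ℤ)}.Finite := by
    refine ((Set.finite_Iic 2).prod ((Set.Finite.pi' fun _ : Fin 4 => Set.finite_Icc (0 : ℤ) 2).prod
      (Set.finite_univ (α := Fin 4 → Bool)))).subset ?_
    rintro p ⟨h1, h2⟩
    refine ⟨h1, fun i => ?_, trivial⟩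
    have := h2 i
    simp only [Pi.zero_apply, Set.mem_Icc] at this ⊢
    split_ifs at this <;> omega
  refine h.VV.fg_of_gen ?_ _ (hfin.image fun p => (p.1, mon x y p.2)) ?_ ?_
  · rw [h0]
    exact (Subalgebra.fg_iff_finiteType _).1 Subalgebra.fg_bot
  · rintro _ ⟨p, hp, rfl⟩
    exact mon_mem_Sp hp.2
  · intro k hk
    refine Submodule.span_le.2 ?_
    rintro _ ⟨μ, hμ, rfl⟩
    refine Submodule.subset_span ?_
    by_cases h2 : k ≤ 2
    · refine ⟨_, ⟨(k, μ), ⟨h2, hμ⟩, rfl⟩, hk, le_rfl, 1, ?_, (mul_one _).symm⟩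
      rw [Nat.sub_self]
      exact h.VV.one_mem
    · let m : Fin 4 → ℤ := fun i => if 1 ≤ μ.1 i then 1 else 0
      refine ⟨_, ⟨(1, (m, fun _ => false)), ⟨by norm_num, fun i => ?_⟩, rfl⟩, one_pos, hk,
        mon x y (μ.1 - m, μ.2), mon_mem_Sp fun i => ?_, ?_⟩
      · simp only [m]
        split_ifs <;> simp at *
      · have := hμ i
        simp only [m, Pi.zero_apply, Pi.sub_apply] at this ⊢
        split_ifs at this ⊢ <;> omega
      · simp only
        rw [pts_mon_false, mul_comm, h.mon_mul_zpow, sub_add_cancel]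

theorem Ell.covers_be : h.VV.Covers 1 (be x) := by
  classical
  intro l hl f hf h0 O hO
  have hd : ∀ {n : ℕ} {a : K}, a ∈ h.VV.V (n * l) → a / f ^ n ∈ O := fun ha =>
    hO.le (h.VV.div_mem_chart h0 ha)
  have hd1 : ∀ {a : K}, a ∈ h.VV.V l → a / f ^ 1 ∈ O := fun ha => hd (by rwa [one_mul])
  have h1 : f / f ^ 1 ∈ Submodule.span ℂ ((fun a => a / f ^ 1) '' (mon x y '' Box 0 fun _ => l)) := by
    simp only [div_eq_mul_inv]
    exact Submodule.apply_mem_span_image_of_mem_span (LinearMap.mulRight ℂ (f ^ 1)⁻¹) hf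
  obtain ⟨_, ⟨_, ⟨μ, hμ, rfl⟩, rfl⟩, hu⟩ := hO.span (by
    rintro _ ⟨_, ⟨μ, hμ, rfl⟩, rfl⟩
    exact hd1 (mon_mem_Sp hμ)) h1 (by rw [pow_one, div_self h0]; exact un_one)
  let S : Fin 4 → Finset ℤ := fun i => if μ.2 i then {2 * μ.1 i + 4, 2 * μ.1 i} else {2 * μ.1 i}
  have hS : ∀ p ∈ Fintype.piFinset S, ∀ i, 0 ≤ p i ∧ p i ≤ (2 * l : ℕ) := fun p hp i => by
    have h2 := Fintype.mem_piFinset.1 hp i
    have h3 := hμ i
    simp only [S, Pi.zero_apply] at h2 h3
    split_ifs at h2 h3 <;> simp only [Finset.mem_insert, Finset.mem_singleton] at h2 <;> omega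
  have e : mon x y μ ^ 2 = ∑ p ∈ Fintype.piFinset S, ∏ i, x i ^ p i := by
    rw [← Finset.prod_univ_sum S fun i j => x i ^ j, mon, ← Finset.prod_pow]
    refine Finset.prod_congr rfl fun i _ => ?_
    have h2 : x i ^ (2 * μ.1 i) = (x i ^ μ.1 i) ^ 2 := by
      rw [mul_comm, zpow_mul]
      exact zpow_natCast _ 2
    simp only [S]
    split_ifs
    · rw [Finset.sum_pair (by omega), zpow_add₀ (h.t_ne i), h2, mul_pow, h.rel,
        show x i ^ (4 : ℤ) = x i ^ 4 from zpow_natCast _ 4]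
      ring
    · rw [Finset.sum_singleton, h2, mul_one]
  have hu2 := hu.pow 2
  simp only [pow_one] at hu2
  rw [div_pow, e, Finset.sum_div] at hu2
  obtain ⟨p, hp, hup⟩ := hO.sum _ (fun p hp => hd (h.pts_zpow_mem (hS p hp))) hu2
  let ε : Fin 4 → Bool := fun i => decide ((l : ℤ) ≤ p i)
  refine ⟨ε, Un.of_mul_left (g := (∏ i, x i ^ (p i - if ε i then (l : ℤ) else 0)) / f ^ 1)
    (hd1 ?_) (hd1 (h.pts_zpow_mem fun i => ?_)) ?_⟩
  · simpa using h.VV.pow_mem (h.be_mem ε) l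
  · have := hS p hp i
    simp only [ε, decide_eq_true_eq]
    split_ifs <;> omega
  · rw [div_mul_div_comm, pts_be_pow, h.pts_zpow_add, ← pow_add]
    simpa using hup

/-- The filtration of `X`. -/
def Ell.WW : Filt K := h.VV.inv (GG x y) ⟨4, by norm_num, bc x 0, h.bc_mem 0, h.bc_ne 0, bc_fixed 0⟩

/-- The `G`-stable affine charts of `A`. -/
def Ell.CC (c : Fin 5) : Subalgebra ℂ K := h.VV.chart 4 (bc x c)

/-- The affine charts of `X`. -/
def Ell.BB (c : Fin 5) : Subalgebra ℂ K := inv (GG x y) (h.CC c)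

/-- The local rings of `A`. -/
def APt (x y : Fin 4 → K) (O : Subalgebra ℂ K) : Prop := ∃ ε, IsLocOf (Rε x y ε) O

/-- The local rings of `X`. -/
def Ell.XPt (O : Subalgebra ℂ K) : Prop := ∃ c, IsLocOf (h.BB c) O

theorem Ell.bc_mem_WW (c : Fin 5) : bc x c ∈ h.WW.V 4 := ⟨h.bc_mem c, bc_fixed c⟩

theorem Ell.chart_WW (c : Fin 5) : h.WW.chart 4 (bc x c) = h.BB c :=
  h.VV.chart_inv _ (h.bc_mem_WW c) (h.bc_ne c)

theorem Ell.stable_CC (c : Fin 5) : Stable (GG x y) (h.CC c) :=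
  h.VV.stable_chart h.VV_stable (h.bc_mem c) (bc_fixed c)

theorem Ell.fg_WW : h.WW.FG :=
  haveI := h.finite_GG
  h.fg_VV.inv h.VV_stable _

theorem Ell.ft_CC (c : Fin 5) : Algebra.FiniteType ℂ (h.CC c) :=
  h.fg_VV.chart (h.bc_mem c) (h.bc_ne c) (by norm_num)

theorem Ell.ft_BB (c : Fin 5) : Algebra.FiniteType ℂ (h.BB c) :=
  haveI := h.finite_GG
  ft_inv (h.stable_CC c) (h.ft_CC c)

end Pool.Agent.P.MP_63735c_ag.Ta
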