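import Pool.Agent.P.MP_63735c_ag.TaPts

/-! Points of `A` over points of `X`. -/

noncomputable section

namespace Pool.Agent.P.MP_63735c_ag.Ta

variable {K : Type} [Field K] [Algebra ℂ K] {x y : Fin 4 → K} (h : Ell x y) {f : K}
  {O O' : Subalgebra ℂ K} {g : K ≃ₐ[ℂ] K} {k : ℕ}

theorem Ell.apt_of_chart (hf : f ∈ h.VV.V k) (h0 : f ≠ 0) (hk : 0 < k)
    (hO : IsLocOf (h.VV.chart k f) O) : APt x y O := by
  obtain ⟨ε, hu⟩ := h.covers_be k hk f hf h0 O hO
  exact ⟨ε, h.chart_be ε ▸ h.VV.switch hf h0 hk (h.be_mem ε) one_pos hO hu⟩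

theorem Ell.apt_of_CC {c : Fin 5} (hO : IsLocOf (h.CC c) O) : APt x y O :=
  h.apt_of_chart (h.bc_mem c) (h.bc_ne c) (by norm_num) hO

/-- The factors of `bc / be ^ 4`. -/
def ptsb_fac (x : Fin 4 → K) (ε : Fin 4 → Bool) (c : Fin 5) (i : Fin 4) : K :=
  if ε i then tt x ε i ^ 4 + ((c : ℕ) : K) else 1 + ((c : ℕ) : K) * tt x ε i ^ 4

include h in
theorem Ell.ptsb_eq (ε : Fin 4 → Bool) (c : Fin 5) :
    bc x c ^ 1 / be x ε ^ 4 = ∏ i, ptsb_fac x ε c i := by
  rw [pow_one, bc, be, ← Finset.prod_pow, ← Finset.prod_div_distrib]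
  refine Finset.prod_congr rfl fun i _ => ?_
  have := h.t_ne i
  by_cases hε : ε i
  · simp only [ptsb_fac, tt, hε, if_true]
    field_simp
  · simp [ptsb_fac, tt, hε]

/-- Pigeonhole: at every point one of the five sections does not vanish. -/
theorem Ell.exists_CC (hO : APt x y O) : ∃ c, IsLocOf (h.CC c) O := by
  obtain ⟨ε, hO⟩ := hO
  have ht : ∀ i, tt x ε i ∈ O := fun i => hO.le (t_mem_RR i)
  have hc : ∀ c : Fin 5, ((c : ℕ) : K) ∈ O := fun c => natCast_mem O _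
  have hm : ∀ c i, ptsb_fac x ε c i ∈ O := by
    intro c i
    unfold ptsb_fac
    split_ifs
    · exact add_mem (pow_mem (ht i) 4) (hc c)
    · exact add_mem (one_mem _) (mul_mem (hc c) (pow_mem (ht i) 4))
  have hd : ∀ c c' : Fin 5, c ≠ c' → Un O (((c : ℕ) : K) - ((c' : ℕ) : K)) := by
    intro c c' hne
    have h1 : ((c : ℕ) : ℂ) - ((c' : ℕ) : ℂ) ≠ 0 :=
      sub_ne_zero.2 fun e => hne (Fin.ext (Nat.cast_injective e))
    have := un_const (O := O) h1
    rwa [map_sub, map_natCast, map_natCast] at this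
  have key : ∃ c, ∀ i, Un O (ptsb_fac x ε c i) := by
    by_contra hno
    push Not at hno
    choose j hj using hno
    obtain ⟨c, c', hne, he⟩ := Fintype.exists_ne_map_eq_of_card_lt j (by simp)
    have h1 := hj c
    have h2 := hj c'
    rw [← he] at h2
    by_cases hε : ε (j c)
    · have e : ((c : ℕ) : K) - ((c' : ℕ) : K) = ptsb_fac x ε c (j c) + -ptsb_fac x ε c' (j c) := by
        simp only [ptsb_fac, hε, if_true]
        ring
      have hu := hd c c' hne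
      rw [e] at hu
      rcases hO.add _ (hm _ _) _ (neg_mem (hm _ _)) hu with hu | hu
      · exact h1 hu
      · exact h2 (by simpa using hu.neg)
    · have e : ((c : ℕ) : K) - ((c' : ℕ) : K) = ((c : ℕ) : K) * ptsb_fac x ε c' (j c) +
          (-((c' : ℕ) : K)) * ptsb_fac x ε c (j c) := by
        simp only [ptsb_fac, hε, Bool.false_eq_true, if_false]
        ring
      have hu := hd c c' hne
      rw [e] at hu
      rcases hO.add _ (mul_mem (hc c) (hm _ _)) _ (mul_mem (neg_mem (hc c')) (hm _ _)) hu with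
        hu | hu
      · exact h2 (Un.of_mul_right (hc c) (hm _ _) hu)
      · exact h1 (Un.of_mul_right (neg_mem (hc c')) (hm _ _) hu)
  obtain ⟨c, hu⟩ := key
  refine ⟨c, h.VV.switch (h.be_mem ε) (h.be_ne ε) one_pos (h.bc_mem c) (by norm_num)
    (h.chart_be ε ▸ hO) ?_⟩
  rw [h.ptsb_eq ε c]
  exact Un.prod _ fun i _ => hu i

theorem Ell.covers_bc : h.WW.Covers 4 (bc x) := by
  intro l hl f hf h0 O hO
  haveI := h.finite_GG
  have hO1 := hO
  rw [Ell.WW, h.VV.chart_inv _ hf h0] at hO1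
  obtain ⟨O', hO', hd⟩ := lies_over (h.VV.stable_chart h.VV_stable hf.1 hf.2) hO1
  obtain ⟨c, hc⟩ := h.exists_CC (h.apt_of_chart hf.1 h0 hl hO')
  exact ⟨c, hd.2 _ (hO.le (h.WW.filt_ratio_mem (h.bc_mem_WW c) h0))
    (h.VV.un_of_charts hf.1 h0 (h.bc_mem c) (h.bc_ne c) hO'.le hc.le)⟩

theorem Ell.xpt_of_chart (hf : f ∈ h.WW.V k) (h0 : f ≠ 0) (hk : 0 < k)
    (hO : IsLocOf (h.WW.chart k f) O) : h.XPt O := by
  obtain ⟨c, hu⟩ := h.covers_bc k hk f hf h0 O hO
  exact ⟨c, h.chart_WW c ▸ h.WW.switch hf h0 hk (h.bc_mem_WW c) (by norm_num) hO hu⟩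

include h in
theorem Ell.apt_nrm (hO : APt x y O) : Nrm O := by
  obtain ⟨ε, hO⟩ := hO
  exact hO.nrm (h.chart ε).nrm

theorem Ell.smooth_CC (c : Fin 5) : Algebra.FormallySmooth ℂ (h.CC c) := by
  refine formallySmooth_of_loc (h.ft_CC c) fun O hO => ?_
  obtain ⟨ε, hε⟩ := h.apt_of_CC hO
  exact hε.formallySmooth (h.chart ε).formallySmooth

include h in
theorem Ell.apt_map (hO : APt x y O) (hg : g ∈ GG x y) : APt x y (O.map (g : K →ₐ[ℂ] K)) := by
  obtain ⟨c, hc⟩ := h.exists_CC hO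
  have := hc.map g
  rw [(h.stable_CC c).map_eq hg] at this
  exact h.apt_of_CC this

theorem APt.trans (hO : APt x y O) (h' : IsLocOf O O') : APt x y O' := by
  obtain ⟨ε, hO⟩ := hO
  exact ⟨ε, hO.trans h'⟩

end Pool.Agent.P.MP_63735c_ag.Ta
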