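import Pool.Agent.P.MP_63735c_ag.TaPtsB

/-! Points of `A` over points of `X`. -/

noncomputable section

namespace Pool.Agent.P.MP_63735c_ag.Ta

variable {K : Type} [Field K] [Algebra ℂ K] {x y : Fin 4 → K} {h : Ell x y} {f : K}
  {O O' : Subalgebra ℂ K} {g : K ≃ₐ[ℂ] K} {k : ℕ}

theorem Ell.XPt.fixed (hO : h.XPt O) (hf : f ∈ O) : ∀ g ∈ GG x y, g f = f := by
  intro g hg
  obtain ⟨c, hc⟩ := hO
  obtain ⟨b, hb, hu, hbf⟩ := hc.frac f hf
  have h1 := hbf.2 g hg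
  rw [map_mul, hb.2 g hg] at h1
  exact mul_left_cancel₀ hu.2.1 h1

theorem Ell.XPt.exists_over (hO : h.XPt O) : ∃ O', APt x y O' ∧ Dom O O' := by
  obtain ⟨c, hc⟩ := hO
  have := h.finite_GG
  obtain ⟨O', h1, h2⟩ := lies_over (h.stable_CC c) hc
  exact ⟨O', h.apt_of_CC h1, h2⟩

theorem Ell.exists_under (h : Ell x y) (hO : APt x y O') : ∃ O, h.XPt O ∧ Dom O O' := by
  obtain ⟨c, hc⟩ := h.exists_CC hO
  obtain ⟨O, h1, h2⟩ := lies_under (B := h.BB c) inv_le hc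
  exact ⟨O, ⟨c, h1⟩, h2⟩

theorem ptsc_CC {c : Fin 5} (hO : IsLocOf (h.BB c) O) (hO' : APt x y O')
    (hd : Dom O O') : IsLocOf (h.CC c) O' := by
  obtain ⟨c', hc'⟩ := h.exists_CC hO'
  refine h.VV.switch (h.bc_mem c') (h.bc_ne c') (by norm_num) (h.bc_mem c) (by norm_num) hc' ?_
  refine ⟨hc'.le (h.VV.filt_ratio_mem (h.bc_mem c) (h.bc_ne c')),
    div_ne_zero (pow_ne_zero _ (h.bc_ne c)) (pow_ne_zero _ (h.bc_ne c')), ?_⟩
  rw [inv_div]
  refine hd.1 (hO.le ?_)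
  rw [← h.chart_WW]
  exact h.WW.filt_ratio_mem (h.bc_mem_WW c') (h.bc_ne c)

theorem Ell.XPt.common (hO : h.XPt O) (hO' : APt x y O') (hd : Dom O O') :
    ∃ c, IsLocOf (h.BB c) O ∧ IsLocOf (h.CC c) O' := by
  obtain ⟨c, hc⟩ := hO
  exact ⟨c, hc, ptsc_CC hc hO' hd⟩

theorem Ell.XPt.isLocOf_CC {c : Fin 5} (hO : IsLocOf (h.BB c) O) (hO' : APt x y O')
    (hd : Dom O O') : IsLocOf (h.CC c) O' :=
  ptsc_CC hO hO' hd

theorem Ell.XPt.dom_map (hO : h.XPt O) (hd : Dom O O') (hg : g ∈ GG x y) :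
    Dom O (O'.map (g : K →ₐ[ℂ] K)) := by
  refine ⟨fun f hf => ?_, fun f hf hu => ?_⟩
  · rw [← hO.fixed hf g hg]
    exact (locb_mem_map g).2 (hd.1 hf)
  · rw [← hO.fixed hf g hg, un_map] at hu
    exact hd.2 f hf hu

theorem Ell.XPt.mem_of_over (hO : h.XPt O) (hf : ∀ g ∈ GG x y, g f = f)
    (H : ∀ O', APt x y O' → Dom O O' → f ∈ O') : f ∈ O := by
  obtain ⟨c, hc⟩ := hO
  have := h.finite_GG
  exact Ta.mem_of_over (h.stable_CC c) hc hf fun O' h1 h2 => H O' (h.apt_of_CC h1) h2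

theorem Ell.XPt.normal (hO : h.XPt O) (hf : ∀ g ∈ GG x y, g f = f) (hi : IsIntegral O f) :
    f ∈ O := by
  refine hO.mem_of_over hf fun O' h1 h2 => h.apt_nrm h1 f ?_
  let := (Subalgebra.inclusion h2.1).toRingHom.toAlgebra
  have : IsScalarTower O O' K := IsScalarTower.of_algebraMap_eq fun _ => rfl
  exact hi.tower_top

theorem Ell.const_of_apt (h : Ell x y) (hf : ∀ O, APt x y O → f ∈ O) :
    ∃ c : ℂ, f = algebraMap ℂ K c :=
  h.const_of_mem fun ε => mem_of_loc fun O hO => hf O ⟨ε, hO⟩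

/-- A point of `X` under `O'` lies in the chart `f ≠ 0` iff `f` does not vanish at `O'`. -/
theorem Ell.XPt.chart_iff (hO : h.XPt O) {ε : Fin 4 → Bool} (hO' : IsLocOf (Rε x y ε) O')
    (hd : Dom O O') (hf : f ∈ h.WW.V k) (h0 : f ≠ 0) (hk : 0 < k) :
    IsLocOf (h.WW.chart k f) O ↔ Un O' (f / be x ε ^ k) := by
  obtain ⟨c, hc, hc'⟩ := hO.common ⟨ε, hO'⟩ hd
  have hb := h.bc_ne c
  have he := h.be_ne ε
  have hR : h.VV.chart 1 (be x ε) ≤ O' := by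
    rw [h.chart_be]
    exact hO'.le
  have hW : IsLocOf (h.WW.chart 4 (bc x c)) O := by
    rw [h.chart_WW]
    exact hc
  have hu : Un O' (bc x c ^ 1 / be x ε ^ 4) :=
    h.VV.un_of_charts (h.be_mem ε) he (h.bc_mem c) hb hR hc'.le
  constructor
  · intro hl
    have h1 : Un O (f ^ 4 / bc x c ^ k) :=
      h.WW.un_of_charts (h.bc_mem_WW c) hb hf h0 hW.le hl.le
    have h2 := (h1.mono hd.1).mul (hu.pow k)
    have e : f ^ 4 / bc x c ^ k * (bc x c ^ 1 / be x ε ^ 4) ^ k = (f / be x ε ^ k) ^ 4 := by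
      rw [pow_one, div_pow, div_pow, ← pow_mul, ← pow_mul, mul_comm 4 k,
        div_mul_div_cancel₀ (pow_ne_zero k hb)]
    rw [e] at h2
    refine Un.of_pow (hR (h.VV.div_mem_chart he ?_)) (by norm_num) h2
    rw [mul_one]
    exact hf.1
  · intro hl
    have h2 := (hl.pow 4).div (hu.pow k)
    have e : (f / be x ε ^ k) ^ 4 / (bc x c ^ 1 / be x ε ^ 4) ^ k = f ^ 4 / bc x c ^ k := by
      rw [pow_one, div_pow, div_pow, ← pow_mul, ← pow_mul, mul_comm 4 k,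
        div_div_div_cancel_right₀ (pow_ne_zero _ he)]
    rw [e] at h2
    exact h.WW.switch (h.bc_mem_WW c) hb (by norm_num) hf hk hW
      (hd.2 _ (hW.le (h.WW.filt_ratio_mem hf hb)) h2)

end Pool.Agent.P.MP_63735c_ag.Ta
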