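import Pool.Agent.P.MP_63735c_ag.TaToric

/-! The quotient singularities `1/4(1,1,3,3)` and `1/2(1,1,1,1)` are rational. -/

open CategoryTheory AlgebraicGeometry AddMonoidAlgebra

noncomputable section

namespace Pool.Agent.P.MP_63735c_ag.Ta

open Pool.Agent.MonoCech

/-- `Spec B` has a resolution with no higher cohomology. -/
abbrev RingRes (B : Type) [CommRing B] [Algebra ℂ B] : Prop :=
  HasRes (Spec.map (CommRingCat.ofHom (algebraMap ℂ B)))

theorem RingRes.of_smooth {R B : Type} [CommRing R] [Algebra ℂ R] [CommRing B] [Algebra ℂ B]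
    (φ : R →ₐ[ℂ] B) (h : φ.toRingHom.Smooth) (H : RingRes R) : RingRes B := by
  have : Smooth (Spec.map (CommRingCat.ofHom φ.toRingHom)) := HasRingHomProperty.Spec_iff.2 h
  have h1 := HasRes.pull (Spec.map (CommRingCat.ofHom φ.toRingHom)) H
  rwa [← Spec.map_comp, ← CommRingCat.ofHom_comp, show φ.toRingHom.comp (algebraMap ℂ R) =
    algebraMap ℂ B from φ.comp_algebraMap] at h1

theorem ringRes_of_smooth (B : Type) [CommRing B] [Algebra ℂ B] [Algebra.Smooth ℂ B] :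
    RingRes B :=
  have : Smooth (Spec.map (CommRingCat.ofHom (algebraMap ℂ B))) :=
    HasRingHomProperty.Spec_iff.2 (RingHom.smooth_algebraMap.2 ‹_›)
  HasRes.of_smooth _

/-- Polynomials all of whose monomials have weight divisible by `n`. -/
def Rq (n : ℕ) (w : Fin 4 → ℕ) : Subalgebra ℂ (MvPolynomial (Fin 4) ℂ) where
  carrier := {f | ∀ m ∈ f.support, n ∣ ∑ i, w i * m i}
  mul_mem' := fun {a b} ha hb m hm => by
    obtain ⟨x, hx, y, hy, rfl⟩ := Finset.mem_add.1 (MvPolynomial.support_mul a b hm)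
    simpa [mul_add, Finset.sum_add_distrib] using dvd_add (ha x hx) (hb y hy)
  add_mem' := fun {a b} ha hb m hm =>
    (Finset.mem_union.1 (MvPolynomial.support_add hm)).elim (ha m) (hb m)
  algebraMap_mem' := fun c m hm => by
    rw [Finset.mem_singleton.1 (MvPolynomial.support_monomial_subset hm)]
    simp

/-- Exponents as integer vectors. -/
def toZ : (Fin 4 →₀ ℕ) →+ Z4 where
  toFun a i := a i
  map_zero' := by ext; simp
  map_add' a b := by ext; simp

theorem Tor.ringRes {r N : ℕ} (T : Tor r N) (n : ℕ) (w : Fin 4 → ℕ) (E : Z4 →+ Z4)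
    (hE : Function.Injective E) (h1 : ∀ m, (∀ ρ, 0 ≤ T.ray ρ m) → ∃ a, toZ a = E m ∧
      n ∣ ∑ i, w i * a i)
    (h2 : ∀ a : Fin 4 →₀ ℕ, n ∣ ∑ i, w i * a i → ∃ m, (∀ ρ, 0 ≤ T.ray ρ m) ∧ E m = toZ a) :
    RingRes (Rq n w) := by
  have hZ : Function.Injective toZ := fun a b e => Finsupp.ext fun i =>
    Nat.cast_injective (R := ℤ) (congrFun e i)
  let ψ : T.A 0 →+* Lau := ((mapDomainRingHom ℂ E).comp T.pr).comp (algebraMap (T.A 0) T.S)
  let θ : Rq n w →+* Lau := (mapDomainRingHom ℂ toZ).comp (Rq n w).val.toRingHom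
  have hψ : Function.Injective ψ := (injective_iff_map_eq_zero _).2 fun a ha =>
    Subtype.ext (T.pr_inj a.2 (mapDomain_injective hE (ha.trans (mapDomain_zero _).symm)))
  have hθ : Function.Injective θ := (mapDomain_injective hZ).comp Subtype.val_injective
  obtain ⟨e, he⟩ := equiv_of_range θ ψ hθ hψ fun l => by
    constructor
    · rintro ⟨⟨f, hf⟩, rfl⟩
      refine sup_ind (Q := fun a => n ∣ ∑ i, w i * a i)
        (mot := fun f => ∃ b, ψ b = mapDomainRingHom ℂ toZ f) ⟨0, by simp⟩ ?_ (fun a c ha => ?_) f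
        fun a ha => hf a (Finsupp.mem_support_iff.2 ha)
      · rintro _ _ ⟨a, ha⟩ ⟨b, hb⟩
        exact ⟨a + b, by rw [map_add, map_add, ha, hb]⟩
      · obtain ⟨m, hm, e⟩ := h2 a ha
        refine ⟨⟨single ⟨(m, 0), fun ρ => by simpa using hm ρ⟩ c, single_mem_gradeBy T.deg _ _⟩, ?_⟩
        refine (congrArg (mapDomain E) (T.pr_single _ c)).trans (mapDomain_single.trans ?_)
        exact (congrArg (single · c) e).trans mapDomain_single.symm
    · rintro ⟨a, rfl⟩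
      refine sup_ind (Q := fun m => ∀ ρ, 0 ≤ T.ray ρ m)
        (mot := fun l => ∃ b, θ b = mapDomainRingHom ℂ E l) ⟨0, by simp⟩ ?_ (fun m c hm => ?_)
        (T.pr a) fun m hm ρ => by simpa using (T.pr_range 0 _).1 ⟨a, a.2, rfl⟩ m hm ρ
      · rintro _ _ ⟨a, ha⟩ ⟨b, hb⟩
        exact ⟨a + b, by rw [map_add, map_add, ha, hb]⟩
      · obtain ⟨x, e, hx⟩ := h1 m hm
        refine ⟨⟨MvPolynomial.monomial x c, fun y hy => ?_⟩, ?_⟩
        · rwa [Finset.mem_singleton.1 (MvPolynomial.support_monomial_subset hy)]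
        · exact mapDomain_single.trans ((congrArg (single · c) e).trans mapDomain_single.symm)
  refine RingRes.of_smooth ⟨e.toRingHom, fun c => hθ ((he _).trans ?_)⟩
    (.of_bijective e.bijective) T.hasRes
  refine (congrArg (mapDomain E) (T.pr_single 0 c)).trans (mapDomain_single.trans ?_)
  rw [map_zero, map_zero, ← map_zero toZ]
  exact mapDomain_single.symm

/-- A linear form on the lattice. -/
def lin (c : Z4) : Z4 →+ ℤ where
  toFun m := c 0 * m 0 + c 1 * m 1 + c 2 * m 2 + c 3 * m 3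
  map_zero' := by simp
  map_add' a b := by simp only [Pi.add_apply]; ring

theorem lin_apply (c m : Z4) : lin c m = c 0 * m 0 + c 1 * m 1 + c 2 * m 2 + c 3 * m 3 := rfl

theorem span_of (c w : Fin 4 → Z4)
    (h : ∀ a b, ∑ i, c i a * w i b = if a = b then 1 else 0) (m : Z4) :
    m = ∑ i, lin (c i) m • w i := by
  funext b
  have : m b = ∑ a, m a * ∑ i, c i a * w i b := by simp [h]
  rw [this]
  simp only [Finset.sum_apply, Pi.smul_apply, lin_apply, Fin.sum_univ_four, smul_eq_mul]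
  ring

theorem fam_congr {r N : ℕ} (st : Fin r → ℕ) {v v' : Fin r → ℤ} (h : ∀ ρ, v ρ < 0 ↔ v' ρ < 0) :
    fam N st v = fam N st v' := by
  simp only [fam, h]

/-- The rays for `1/4(1,1,3,3)`. -/
def c4 : Fin 7 → Z4 := ![![4, -1, -3, -3], ![0, 1, 0, 0], ![0, 0, 1, 0], ![0, 0, 0, 1],
  ![1, 0, 0, 0], ![2, 0, -1, -1], ![3, 0, -2, -2]]

/-- The cones for `1/4(1,1,3,3)`. -/
def i4 : Fin 12 → Fin 4 → Fin 7 := ![![0, 1, 6, 2], ![0, 1, 6, 3], ![6, 5, 0, 2], ![6, 5, 0, 3],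
  ![6, 5, 1, 2], ![6, 5, 1, 3], ![5, 4, 0, 2], ![5, 4, 0, 3], ![5, 4, 1, 2], ![5, 4, 1, 3],
  ![4, 2, 3, 0], ![4, 2, 3, 1]]

/-- The dual bases for `1/4(1,1,3,3)`. -/
def w4 : Fin 12 → Fin 4 → Z4 :=
  ![![![-2, 0, 0, -3], ![-2, 1, 0, -3], ![3, 0, 0, 4], ![0, 0, 1, -1]],
    ![![-2, 0, -3, 0], ![-2, 1, -3, 0], ![3, 0, 4, 0], ![0, 0, -1, 1]],
    ![![-1, 2, 0, -2], ![2, -1, 0, 3], ![0, -1, 0, 0], ![0, 0, 1, -1]],
    ![![-1, 2, -2, 0], ![2, -1, 3, 0], ![0, -1, 0, 0], ![0, 0, -1, 1]],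
    ![![-1, 0, 0, -2], ![2, 0, 0, 3], ![0, 1, 0, 0], ![0, 0, 1, -1]],
    ![![-1, 0, -2, 0], ![2, 0, 3, 0], ![0, 1, 0, 0], ![0, 0, -1, 1]],
    ![![0, 3, 0, -1], ![1, -2, 0, 2], ![0, -1, 0, 0], ![0, 0, 1, -1]],
    ![![0, 3, -1, 0], ![1, -2, 2, 0], ![0, -1, 0, 0], ![0, 0, -1, 1]],
    ![![0, 0, 0, -1], ![1, 0, 0, 2], ![0, 1, 0, 0], ![0, 0, 1, -1]],
    ![![0, 0, -1, 0], ![1, 0, 2, 0], ![0, 1, 0, 0], ![0, 0, -1, 1]],
    ![![1, 4, 0, 0], ![0, -3, 1, 0], ![0, -3, 0, 1], ![0, -1, 0, 0]],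
    ![![1, 0, 0, 0], ![0, 0, 1, 0], ![0, 0, 0, 1], ![0, 1, 0, 0]]]

/-- The resolution of `1/4(1,1,3,3)`. -/
def tor4 : Tor 7 12 where
  ray ρ := lin (c4 ρ)
  h := ![0, 0, 0, 0, 2, 3, 2]
  u := ![![6, 0, 0, 8], ![6, 0, 8, 0], ![4, 1, 0, 5], ![4, 1, 5, 0], ![4, 0, 0, 5], ![4, 0, 5, 0],
    ![2, 5, 0, 1], ![2, 5, 1, 0], ![2, 0, 0, 1], ![2, 0, 1, 0], ![2, 8, 0, 0], ![2, 0, 0, 0]]
  st := star4
  idx := i4
  w := w4
  m0 := ![2, 1, 1, 1]
  j0 := 0
  hu := by simp only [lin_apply]; decide +kernel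
  tight := by simp only [lin_apply]; decide +kernel
  cone := by decide +kernel
  dual := by simp only [lin_apply]; decide +kernel
  span j := span_of (fun i => c4 (i4 j i)) (w4 j) (by revert j; decide +kernel)
  pos := by simp only [lin_apply]; decide +kernel
  cover m k hk h := by
    have H : ∀ z : Fin 7 → Bool, ((!z 4 || !z 6) && (!z 0 || !z 1 || !z 5) &&
        (!z 0 || !z 1 || !z 4) && (!z 2 || !z 3 || !z 5) && (!z 2 || !z 3 || !z 6) &&
        (!z 0 || !z 1 || !z 2 || !z 3)) = true →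
        ∃ j : Fin 12, ∀ ρ, z ρ = true → (star4 ρ).testBit j = true := by
      decide +kernel
    have h4 := h 4
    have h5 := h 5
    have h6 := h 6
    obtain ⟨j, hj⟩ := H (fun ρ => decide (lin (c4 ρ) m = k * ![0, 0, 0, 0, 2, 3, 2] ρ)) (by
      simp [lin_apply, c4] at h4 h5 h6 ⊢
      omega)
    exact ⟨j, fun ρ hρ => hj ρ (decide_eq_true hρ)⟩
  acyc m := by
    rw [fam_congr (v' := ray4 fun i => lin (c4 (i.castLE (by norm_num))) m) star4 fun ρ => by
      fin_cases ρ <;> simp [ray4, lin_apply, c4] <;> omega]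
    exact acyc4 _

/-- The rays for `1/2(1,1,1,1)`. -/
def c2 : Fin 5 → Z4 := ![![2, -1, -1, -1], ![0, 1, 0, 0], ![0, 0, 1, 0], ![0, 0, 0, 1], ![1, 0, 0, 0]]

/-- The cones for `1/2(1,1,1,1)`. -/
def i2 : Fin 4 → Fin 4 → Fin 5 := ![![4, 1, 2, 3], ![4, 0, 2, 3], ![4, 0, 1, 3], ![4, 0, 1, 2]]

/-- The dual bases for `1/2(1,1,1,1)`. -/
def w2 : Fin 4 → Fin 4 → Z4 :=
  ![![![1, 0, 0, 0], ![0, 1, 0, 0], ![0, 0, 1, 0], ![0, 0, 0, 1]],
    ![![1, 2, 0, 0], ![0, -1, 0, 0], ![0, -1, 1, 0], ![0, -1, 0, 1]],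
    ![![1, 0, 2, 0], ![0, 0, -1, 0], ![0, 1, -1, 0], ![0, 0, -1, 1]],
    ![![1, 0, 0, 2], ![0, 0, 0, -1], ![0, 1, 0, -1], ![0, 0, 1, -1]]]

/-- The resolution of `1/2(1,1,1,1)`. -/
def tor2 : Tor 5 4 where
  ray ρ := lin (c2 ρ)
  h := ![0, 0, 0, 0, 1]
  u := ![![1, 0, 0, 0], ![1, 2, 0, 0], ![1, 0, 2, 0], ![1, 0, 0, 2]]
  st := star2
  idx := i2
  w := w2
  m0 := ![2, 1, 1, 1]
  j0 := 0
  hu := by simp only [lin_apply]; decide +kernel
  tight := by simp only [lin_apply]; decide +kernel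
  cone := by decide +kernel
  dual := by simp only [lin_apply]; decide +kernel
  span j := span_of (fun i => c2 (i2 j i)) (w2 j) (by revert j; decide +kernel)
  pos := by simp only [lin_apply]; decide +kernel
  cover m k hk h := by
    have H : ∀ z : Fin 5 → Bool, (!z 0 || !z 1 || !z 2 || !z 3) = true →
        ∃ j : Fin 4, ∀ ρ, z ρ = true → (star2 ρ).testBit j = true := by
      decide +kernel
    have h4 := h 4
    obtain ⟨j, hj⟩ := H (fun ρ => decide (lin (c2 ρ) m = k * ![0, 0, 0, 0, 1] ρ)) (by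
      simp [lin_apply, c2] at h4 ⊢
      omega)
    exact ⟨j, fun ρ hρ => hj ρ (decide_eq_true hρ)⟩
  acyc m := by
    rw [fam_congr (v' := ray2 fun i => lin (c2 (i.castLE (by norm_num))) m) star2 fun ρ => by
      fin_cases ρ <;> simp [ray2, lin_apply, c2] <;> omega]
    exact acyc2 _

/-- The exponent vector of a monomial. -/
def expo (c : Z4) : Z4 →+ Z4 where
  toFun m := ![lin c m, m 1, m 2, m 3]
  map_zero' := by ext i; fin_cases i <;> simp
  map_add' a b := by ext i; fin_cases i <;> simp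

theorem expo_inj {c : Z4} (hc : c 0 ≠ 0) : Function.Injective (expo c) :=
  (injective_iff_map_eq_zero _).2 fun m h => by
    have h0 : lin c m = 0 := congrFun h 0
    have h1 : m 1 = 0 := congrFun h 1
    have h2 : m 2 = 0 := congrFun h 2
    have h3 : m 3 = 0 := congrFun h 3
    rw [lin_apply, h1, h2, h3] at h0
    ext i
    fin_cases i <;> simp_all

theorem exists_toZ {x : Z4} (h : ∀ i, 0 ≤ x i) : ∃ a, toZ a = x :=
  ⟨Finsupp.equivFunOnFinite.symm fun i => (x i).toNat, funext fun i => Int.toNat_of_nonneg (h i)⟩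

theorem ringRes4 : RingRes (Rq 4 ![1, 1, 3, 3]) := by
  refine tor4.ringRes _ _ (expo (c4 0)) (expo_inj (by decide)) (fun m hm => ?_) fun a ha => ?_
  · have h0 := hm 0
    have h1 := hm 1
    have h2 := hm 2
    have h3 := hm 3
    simp [tor4, lin_apply, c4] at h0 h1 h2 h3
    obtain ⟨a, ha⟩ := exists_toZ (x := expo (c4 0) m) fun i => by
      fin_cases i <;> simp [expo, lin_apply, c4] <;> omega
    refine ⟨a, ha, ?_⟩
    have e0 : (a 0 : ℤ) = lin (c4 0) m := congrFun ha 0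
    have e1 : (a 1 : ℤ) = m 1 := congrFun ha 1
    have e2 : (a 2 : ℤ) = m 2 := congrFun ha 2
    have e3 : (a 3 : ℤ) = m 3 := congrFun ha 3
    simp [lin_apply, c4] at e0
    simp [Fin.sum_univ_four]
    omega
  · obtain ⟨k, hk⟩ := ha
    simp [Fin.sum_univ_four] at hk
    refine ⟨![k, a 1, a 2, a 3], fun ρ => ?_, funext fun i => ?_⟩
    · fin_cases ρ <;> simp [tor4, lin_apply, c4] <;> omega
    · fin_cases i <;> simp [expo, toZ, lin_apply, c4]
      omega

theorem ringRes2 : RingRes (Rq 2 ![1, 1, 1, 1]) := by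
  refine tor2.ringRes _ _ (expo (c2 0)) (expo_inj (by decide)) (fun m hm => ?_) fun a ha => ?_
  · have h0 := hm 0
    have h1 := hm 1
    have h2 := hm 2
    have h3 := hm 3
    simp [tor2, lin_apply, c2] at h0 h1 h2 h3
    obtain ⟨a, ha⟩ := exists_toZ (x := expo (c2 0) m) fun i => by
      fin_cases i <;> simp [expo, lin_apply, c2] <;> omega
    refine ⟨a, ha, ?_⟩
    have e0 : (a 0 : ℤ) = lin (c2 0) m := congrFun ha 0
    have e1 : (a 1 : ℤ) = m 1 := congrFun ha 1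
    have e2 : (a 2 : ℤ) = m 2 := congrFun ha 2
    have e3 : (a 3 : ℤ) = m 3 := congrFun ha 3
    simp [lin_apply, c2] at e0
    simp [Fin.sum_univ_four]
    omega
  · obtain ⟨k, hk⟩ := ha
    simp [Fin.sum_univ_four] at hk
    refine ⟨![k, a 1, a 2, a 3], fun ρ => ?_, funext fun i => ?_⟩
    · fin_cases ρ <;> simp [tor2, lin_apply, c2] <;> omega
    · fin_cases i <;> simp [expo, toZ, lin_apply, c2]
      omega

end Pool.Agent.P.MP_63735c_ag.Ta
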