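import Pool.Agent.P.MP_63735c_ag.TaEmb

/-! Line bundles whose transition functions are ratios of elements of `K`. -/

open CategoryTheory AlgebraicGeometry

noncomputable section

namespace Pool.Agent.P.MP_63735c_ag.Ta

variable {X : Scheme.{0}} {π : X ⟶ Spec (CommRingCat.of ℂ)} [IsIntegral X] {K : Type} [Field K]
  [Algebra ℂ K] {E : Emb π K} {L M : LB X} {θ : L.ι → K} {ϑ : M.ι → K}

/-- The transition functions of `L` are `θ i / θ j`. -/
def Emb.Rep (E : Emb π K) (L : LB X) (θ : L.ι → K) : Prop :=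
  ⨆ i, L.U i = ⊤ ∧ (∀ i, θ i ≠ 0) ∧
    ∀ i j (h : genericPoint X ∈ L.U i ⊓ L.U j), E.φ (X.presheaf.germ _ _ h (L.g i j)) = θ i / θ j

theorem Emb.exists_rep (E : Emb π K) {ι : Type} (U : ι → X.Opens) (hU : ⨆ i, U i = ⊤) (θ : ι → K)
    (h0 : ∀ i, θ i ≠ 0) (h : ∀ i j x, x ∈ U i → x ∈ U j → θ i / θ j ∈ E.O x) :
    ∃ g, E.Rep ⟨ι, U, g⟩ θ := by
  choose g hg using fun i j =>
    E.exists_section (U := U i ⊓ U j) (f := θ i / θ j) fun x hx => h i j x hx.1 hx.2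
  exact ⟨g, hU, h0, hg⟩

theorem Emb.rep_triv (E : Emb π K) : E.Rep (triv X) fun _ => 1 := by
  refine ⟨iSup_const (ι := Unit), fun _ => one_ne_zero, fun i j h => ?_⟩
  change E.φ (X.presheaf.germ _ _ h 1) = 1 / 1
  rw [map_one, map_one, div_one]

theorem Emb.Rep.isLB (h : E.Rep L θ) : L.IsLB := by
  obtain ⟨h1, h2, h3⟩ := h
  refine ⟨h1, fun i j => ?_, fun i j k W hi hj hk => ?_⟩
  · refine IsUnit.of_mul_eq_one (res (le_inf inf_le_right inf_le_left) (L.g j i)) ?_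
    refine ml_ext fun hU => E.φ.injective ?_
    rw [map_mul, map_mul, ml_germ_res, h3, h3, map_one, map_one, div_mul_div_cancel₀ (h2 j),
      div_self (h2 i)]
  · refine ml_ext fun hU => E.φ.injective ?_
    rw [map_mul, map_mul, ml_germ_res, ml_germ_res, ml_germ_res, h3, h3, h3,
      div_mul_div_cancel₀ (h2 j)]

theorem Emb.Rep.pow (h : E.Rep L θ) (n : ℕ) : E.Rep (L.pow n) fun i => θ i ^ n := by
  obtain ⟨h1, h2, h3⟩ := h
  refine ⟨h1, fun i => pow_ne_zero n (h2 i), fun i j hU => ?_⟩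
  change E.φ (X.presheaf.germ (L.U i ⊓ L.U j) _ hU (L.g i j ^ n)) = θ i ^ n / θ j ^ n
  rw [map_pow, map_pow, h3, div_pow]

theorem Emb.Rep.mul (h : E.Rep L θ) (h' : E.Rep M ϑ) :
    E.Rep (L.mul M) fun a => θ a.1 * ϑ a.2 := by
  obtain ⟨h1, h2, h3⟩ := h
  obtain ⟨k1, k2, k3⟩ := h'
  refine ⟨eq_top_iff.2 fun x _ => ?_, fun a => mul_ne_zero (h2 a.1) (k2 a.2), fun a b hU => ?_⟩
  · obtain ⟨i, hi⟩ := TopologicalSpace.Opens.mem_iSup.1 (h1.ge (Set.mem_univ x))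
    obtain ⟨a, ha⟩ := TopologicalSpace.Opens.mem_iSup.1 (k1.ge (Set.mem_univ x))
    exact TopologicalSpace.Opens.mem_iSup.2 ⟨(i, a), hi, ha⟩
  · change E.φ (X.presheaf.germ ((L.U a.1 ⊓ M.U a.2) ⊓ (L.U b.1 ⊓ M.U b.2)) _ hU
      (res (inf_le_inf inf_le_left inf_le_left) (L.g a.1 b.1) *
        res (inf_le_inf inf_le_right inf_le_right) (M.g a.2 b.2))) =
      θ a.1 * ϑ a.2 / (θ b.1 * ϑ b.2)
    rw [map_mul, map_mul, ml_germ_res, ml_germ_res, h3, k3, mul_div_mul_comm]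

end Pool.Agent.P.MP_63735c_ag.Ta
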