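import Pool.Agent.P.MP_63735c_ag.TaRep

/-! Line bundles whose transition functions are ratios of elements of `K`. -/

open CategoryTheory AlgebraicGeometry

noncomputable section

namespace Pool.Agent.P.MP_63735c_ag.Ta

variable {X : Scheme.{0}} {π : X ⟶ Spec (CommRingCat.of ℂ)} [IsIntegral X] {K : Type} [Field K]
  [Algebra ℂ K] {E : Emb π K} {L M : LB X} {θ : L.ι → K} {ϑ : M.ι → K}

theorem repb_ext (E : Emb π K) {U : X.Opens} {s t : Γ(X, U)}
    (h : ∀ hU : genericPoint X ∈ U,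
      E.φ (X.presheaf.germ U _ hU s) = E.φ (X.presheaf.germ U _ hU t)) : s = t :=
  ml_ext fun hU => E.φ.injective (h hU)

theorem repb_mem (E : Emb π K) {U : X.Opens} (hU : genericPoint X ∈ U) (s : Γ(X, U)) {x : X}
    (hx : x ∈ U) : E.φ (X.presheaf.germ U _ hU s) ∈ E.O x :=
  (E.mem_O x _).2 ⟨_, reg_germ hU s x hx, rfl⟩

theorem repb_un (E : Emb π K) {U : X.Opens} (hU : genericPoint X ∈ U) {s : Γ(X, U)}
    (hs : IsUnit s) {x : X} (hx : x ∈ U) : Un (E.O x) (E.φ (X.presheaf.germ U _ hU s)) := by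
  obtain ⟨t, ht⟩ := hs.exists_right_inv
  refine un_of_mul_eq_one (repb_mem E hU s hx) (repb_mem E hU t hx) ?_
  rw [← map_mul, ← map_mul, ht, map_one, map_one]

theorem repb_isUnit (E : Emb π K) {U : X.Opens} {s : Γ(X, U)} {f : K}
    (hs : ∀ hU : genericPoint X ∈ U, E.φ (X.presheaf.germ U _ hU s) = f)
    (hf : ∀ x ∈ U, Un (E.O x) f) : IsUnit s := by
  obtain ⟨t, ht⟩ := E.exists_section (U := U) (f := f⁻¹) fun x hx => (hf x hx).2.2
  refine IsUnit.of_mul_eq_one t (repb_ext E fun hU => ?_)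
  rw [map_mul, map_mul, hs, ht, map_one, map_one, mul_inv_cancel₀ (hf _ hU).2.1]

theorem repb_gen (h : E.Rep L θ) : ∃ i, genericPoint X ∈ L.U i :=
  TopologicalSpace.Opens.mem_iSup.1 (h.1.ge trivial)

theorem Emb.Rep.exists_section (h : E.Rep L θ) (a : K) (ha : ∀ i x, x ∈ L.U i → a * θ i ∈ E.O x) :
    ∃ s, L.IsSection s ∧
      ∀ x, x ∈ ⨆ i, X.basicOpen (s i) ↔ ∃ i, x ∈ L.U i ∧ Un (E.O x) (a * θ i) := by
  choose s hs using fun i => E.exists_section (U := L.U i) (f := a * θ i) (ha i)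
  refine ⟨s, fun i j => repb_ext E fun hU => ?_, fun x => ?_⟩
  · rw [map_mul, map_mul, ml_germ_res, ml_germ_res, hs, hs, h.2.2 i j hU]
    have := h.2.1 j
    field_simp
  · rw [TopologicalSpace.Opens.mem_iSup]
    refine exists_congr fun i => ⟨fun hx => ?_, fun hx => ?_⟩
    · have hU := ml_gen_mem (X.basicOpen_le (s i) hx)
      rw [← hs i hU]
      exact (E.mem_basicOpen hU _ x).1 hx
    · have hU := ml_gen_mem hx.1
      rw [← hs i hU] at hx
      exact (E.mem_basicOpen hU _ x).2 hx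

theorem Emb.Rep.section_val (h : E.Rep L θ) {s : ∀ i, Γ(X, L.U i)} (hs : L.IsSection s) :
    ∃ a : K, (∀ i (hi : genericPoint X ∈ L.U i), E.φ (X.presheaf.germ _ _ hi (s i)) = a * θ i) ∧
      ∀ i x, x ∈ L.U i → a * θ i ∈ E.O x := by
  obtain ⟨j, hj⟩ := repb_gen h
  have key : ∀ i (hi : genericPoint X ∈ L.U i), E.φ (X.presheaf.germ _ _ hi (s i)) =
      E.φ (X.presheaf.germ _ _ hj (s j)) / θ j * θ i := fun i hi => by
    have hU : genericPoint X ∈ L.U i ⊓ L.U j := ⟨hi, hj⟩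
    have h1 := congrArg (fun t => E.φ (X.presheaf.germ _ _ hU t)) (hs i j)
    simp only [map_mul, ml_germ_res] at h1
    rw [h.2.2 i j hU] at h1
    rw [h1]
    ring
  refine ⟨_, key, fun i x hx => ?_⟩
  rw [← key i (ml_gen_mem hx)]
  exact repb_mem E _ _ hx

theorem Emb.Rep.iso_iff (h : E.Rep L θ) (h' : E.Rep M ϑ) :
    L.Iso M ↔ ∃ a : K, ∀ i j x, x ∈ L.U i → x ∈ M.U j → Un (E.O x) (a * θ i / ϑ j) := by
  constructor
  · rintro ⟨u, hu, hr⟩
    obtain ⟨i0, hi0⟩ := repb_gen h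
    obtain ⟨j0, hj0⟩ := repb_gen h'
    have h0 : genericPoint X ∈ L.U i0 ⊓ M.U j0 := ⟨hi0, hj0⟩
    refine ⟨E.φ (X.presheaf.germ _ _ h0 (u i0 j0)) * ϑ j0 / θ i0, fun i j x hi hj => ?_⟩
    have hx : x ∈ L.U i ⊓ M.U j := ⟨hi, hj⟩
    have hg := ml_gen_mem hx
    have hW : genericPoint X ∈ (L.U i ⊓ M.U j) ⊓ (L.U i0 ⊓ M.U j0) := ⟨hg, h0⟩
    have h1 := congrArg (fun t => E.φ (X.presheaf.germ _ _ hW t))
      (hr i i0 j j0 _ (inf_le_left.trans inf_le_left) (inf_le_right.trans inf_le_left)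
        (inf_le_left.trans inf_le_right) (inf_le_right.trans inf_le_right))
    simp only [map_mul, ml_germ_res] at h1
    rw [h.2.2, h'.2.2] at h1
    have h2 : E.φ (X.presheaf.germ _ _ h0 (u i0 j0)) * ϑ j0 / θ i0 * θ i / ϑ j =
        E.φ (X.presheaf.germ _ _ hg (u i j)) := by
      have a1 := h.2.1 i0
      have a2 := h'.2.1 j0
      have a3 := h'.2.1 j
      field_simp at h1 ⊢
      linear_combination -h1
    rw [h2]
    exact repb_un E hg (hu i j) hx
  · rintro ⟨a, ha⟩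
    choose u hu using fun i j => E.exists_section (U := L.U i ⊓ M.U j) (f := a * θ i / ϑ j)
      fun x hx => (ha i j x hx.1 hx.2).1
    refine ⟨u, fun i j => repb_isUnit E (hu i j) fun x hx => ha i j x hx.1 hx.2,
      fun i j b c W hi hj hb hc => repb_ext E fun hW => ?_⟩
    simp only [map_mul, ml_germ_res]
    rw [hu, hu, h.2.2, h'.2.2]
    have a1 := h.2.1 j
    have a2 := h'.2.1 b
    have a3 := h'.2.1 c
    field_simp

theorem Emb.Rep.volZero (h : E.Rep L θ)
    (hd : ∃ d : ℕ, 0 < d ∧ (letI := fieldAlg π; Algebra.trdeg ℂ X.functionField = d))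
    (hc : ∀ (m : ℕ) (a : K), (∀ i x, x ∈ L.U i → a * θ i ^ m ∈ E.O x) →
      ∃ c : ℂ, a = algebraMap ℂ K c) : VolZero π L := by
  obtain ⟨d, hd0, hd⟩ := hd
  refine ⟨d, hd, fun ε hε => ?_⟩
  have ht : Filter.Tendsto (fun m : ℕ => ε * (m : ℝ) ^ d) Filter.atTop Filter.atTop :=
    ((Filter.tendsto_pow_atTop hd0.ne').comp tendsto_natCast_atTop_atTop).const_mul_atTop hε
  filter_upwards [ht.eventually_ge_atTop 1] with m hm r s hs hli
  choose a ha hb using fun k => (h.pow m).section_val (hs k)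
  choose c hc' using fun k => hc m (a k) (hb k)
  have hl : LinearIndependent ℂ c := Fintype.linearIndependent_iff.2 fun g hg k => by
    refine congrFun (hli g fun i => repb_ext E fun hU => ?_) k
    have e1 : ∀ k, E.φ (X.presheaf.germ (L.U i) _ hU (s k i)) = algebraMap ℂ K (c k) * θ i ^ m :=
      fun k => (ha k i hU).trans (by rw [hc'])
    have e2 : ∑ k, algebraMap ℂ K (g k) * algebraMap ℂ K (c k) = 0 := by
      simpa using congrArg (algebraMap ℂ K) hg
    simp only [map_sum, map_mul, map_zero, E.φ_germ_const, e1, ← mul_assoc]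
    rw [← Finset.sum_mul, e2, zero_mul]
  have h1 := hl.fintype_card_le_finrank
  rw [Fintype.card_fin, Module.finrank_self] at h1
  exact le_trans (by exact_mod_cast h1) hm

end Pool.Agent.P.MP_63735c_ag.Ta
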