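import Pool.Agent.P.MP_63735c_ag.TaDefs
import Pool.Agent.P.MP_63735c_ag.TaCech

/-! Rational resolutions of affine schemes and their smooth base change. -/

open CategoryTheory AlgebraicGeometry Limits TensorProduct

noncomputable section

namespace Pool.Agent.P.MP_63735c_ag.Ta

open Pool.Agent.MonoCech

/-- `V` has a resolution with no higher cohomology. -/
def HasRes {V : Scheme.{0}} (π : V ⟶ Spec (CommRingCat.of ℂ)) : Prop :=
  ∃ (Y : Scheme.{0}) (p : Y ⟶ V), IsProper p ∧ Scheme.BirationalOver p (𝟙 V) ∧ Smooth (p ≫ π) ∧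
    ∃ (r : ℕ) (U : Fin r → Y.Opens), (∀ i, IsAffineOpen (U i)) ∧ ⨆ i, U i = ⊤ ∧ ∀ n, CechZero U n

theorem rationalSing_of_hasRes {X : Scheme.{0}} (π : X ⟶ Spec (CommRingCat.of ℂ))
    (h : ∀ x : X, ∃ (V : Scheme.{0}) (e : V ⟶ X), Etale e ∧ x ∈ Set.range e ∧ IsAffine V ∧
      HasRes (e ≫ π)) : RationalSing π := fun x => by
  obtain ⟨V, e, h1, h2, h3, Y, p, h4⟩ := h x
  exact ⟨V, Y, e, p, h1, h2, h3, h4⟩

theorem res_res' {X : Scheme.{0}} {U W Z : X.Opens} (h : W ≤ U) (h' : Z ≤ W) (s : Γ(X, U)) :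
    res h' (res h s) = res (h'.trans h) s := by
  rw [res, res, ← CommRingCat.comp_apply, ← Functor.map_comp]
  rfl

theorem res_bij {X : Scheme.{0}} {U W : X.Opens} (h : W ≤ U) (h' : U ≤ W) :
    Function.Bijective (res h) := by
  obtain rfl := le_antisymm h h'
  have : res h = id := funext fun s => by
    rw [res, show homOfLE h = 𝟙 _ from rfl, op_id, X.presheaf.map_id]; rfl
  rw [this]
  exact Function.bijective_id

/-- Cech vanishing, tested after embedding all the section rings in one group. -/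
theorem cechZero_of_embed {Y : Scheme.{0}} {ι L : Type} [AddCommGroup L] (U : ι → Y.Opens)
    (W : Y.Opens) (hW : ∀ i, W ≤ U i) (Ψ : Γ(Y, W) →+ L) (n : ℕ)
    (inj : ∀ t : Fin (n + 2) → ι, Function.Injective
      fun s : Γ(Y, ⨅ j, U (t j)) => Ψ (res (le_iInf fun _ => hW _) s))
    (ex : ∀ c : (Fin (n + 2) → ι) → L,
      (∀ t, ∃ s : Γ(Y, ⨅ j, U (t j)), Ψ (res (le_iInf fun _ => hW _) s) = c t) →
      (∀ l, d c l = 0) → ∃ b : (Fin (n + 1) → ι) → L,
        (∀ t, ∃ s : Γ(Y, ⨅ j, U (t j)), Ψ (res (le_iInf fun _ => hW _) s) = b t) ∧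
          ∀ l, c l = d b l) : CechZero U n := by
  have key : ∀ (k : ℕ) (c : ∀ t : Fin (k + 1) → ι, Γ(Y, ⨅ j, U (t j))) (l : Fin (k + 2) → ι),
      Ψ (res (le_iInf fun _ => hW _) (cechD U k c l)) =
        d (fun t => Ψ (res (le_iInf fun _ => hW _) (c t))) l := by
    intro k c l
    unfold cechD d
    rw [res, map_sum, map_sum]
    refine Finset.sum_congr rfl fun j _ => ?_
    rw [map_mul, map_pow, map_neg, map_one, ← map_zsmul, zsmul_eq_mul]
    push_cast
    congr 2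
    exact res_res' _ _ _
  intro c hc
  obtain ⟨b, hb, hd⟩ := ex _ (fun t => ⟨c t, rfl⟩) fun l => by
    rw [← key, hc]
    simp
  choose s hs using hb
  refine ⟨s, funext fun l => inj l ?_⟩
  dsimp only
  rw [key, hd]
  simp only [hs]

theorem HasRes.of_smooth {V : Scheme.{0}} [IsAffine V] (π : V ⟶ Spec (CommRingCat.of ℂ))
    [Smooth π] : HasRes π := by
  refine ⟨V, 𝟙 V, inferInstance, .refl _, inferInstance, 1, fun _ => ⊤,
    fun _ => isAffineOpen_top V, iSup_const, fun n => ?_⟩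
  refine cechZero_of_embed _ ⊤ (fun _ => le_rfl) (AddMonoidHom.id _) n
    (fun t => (res_bij _ le_top).1) fun c _ hd => ?_
  obtain ⟨b, -, hb⟩ := rel_exact (F := []) (Or.inl rfl) c (fun l ⟨S, hS, _⟩ => by simp at hS) hd
  exact ⟨b, fun t => (res_bij _ le_top).2 (b t), hb⟩

theorem ker_le_range_baseChange {R B M0 M1 M2 N0 N1 N2 : Type} [CommRing R] [CommRing B]
    [Algebra R B] [Module.Flat R B] [AddCommGroup M0] [AddCommGroup M1] [AddCommGroup M2]
    [AddCommGroup N0] [AddCommGroup N1] [AddCommGroup N2] [Module R M0] [Module R M1]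
    [Module R M2] [Module R N1] [Module R N2] [Module B N0] [Module B N1]
    [Module B N2] [IsScalarTower R B N1] [IsScalarTower R B N2] (d0 : M0 → M1)
    (d1 : M1 →ₗ[R] M2) (e0 : N0 →ₗ[B] N1) (e1 : N1 →ₗ[B] N2) (f0 : M0 → N0) {f1 : M1 →ₗ[R] N1}
    {f2 : M2 →ₗ[R] N2} (h1 : IsBaseChange B f1) (h2 : IsBaseChange B f2)
    (c0 : ∀ x, e0 (f0 x) = f1 (d0 x)) (c1 : ∀ x, e1 (f1 x) = f2 (d1 x))
    (hex : ∀ y, d1 y = 0 → ∃ x, d0 x = y) (y : N1) (hy : e1 y = 0) : ∃ x, e0 x = y := by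
  obtain ⟨z, rfl⟩ := h1.equiv.surjective y
  have k : ∀ z, h2.equiv (d1.lTensor B z) = e1 (h1.equiv z) := fun z => by
    induction z with
    | zero => simp
    | tmul b m => simp [IsBaseChange.equiv_tmul, c1]
    | add a b ha hb => simp [ha, hb]
  have hz : d1.lTensor B z = 0 := h2.equiv.injective (by rw [k, hy, map_zero])
  obtain ⟨w, rfl⟩ := (Module.Flat.lTensor_exact B (LinearMap.exact_subtype_ker_map d1) z).1 hz
  clear hy hz
  induction w with
  | zero => exact ⟨0, by simp⟩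
  | tmul b m =>
    obtain ⟨x, hx⟩ := hex m.1 m.2
    exact ⟨b • f0 x, by simp [IsBaseChange.equiv_tmul, c0, hx]⟩
  | add a b ha hb =>
    obtain ⟨x, hx⟩ := ha
    obtain ⟨x', hx'⟩ := hb
    exact ⟨x + x', by simp [hx, hx']⟩

/-- Sections over an open set as an algebra over the global functions of the base. -/
abbrev secAlg {Y V : Scheme.{0}} (p : Y ⟶ V) (O : Y.Opens) : Algebra Γ(V, ⊤) Γ(Y, O) :=
  (p.appLE ⊤ O le_top).hom.toAlgebra

theorem res_appLE {Y V : Scheme.{0}} (p : Y ⟶ V) {A : V.Opens} {O O' : Y.Opens} (h : O' ≤ O)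
    (e : O ≤ p ⁻¹ᵁ A) (r : Γ(V, A)) : res h (p.appLE A O e r) = p.appLE A O' (h.trans e) r := by
  rw [res, ← CommRingCat.comp_apply, Scheme.Hom.appLE_map]

theorem appLE_res {Y V : Scheme.{0}} (p : Y ⟶ V) {A A' : V.Opens} {O : Y.Opens} (h : A' ≤ A)
    (e : O ≤ p ⁻¹ᵁ A') (r : Γ(V, A)) :
    p.appLE A' O e (res h r) = p.appLE A O (e.trans (p.preimage_mono h)) r := by
  rw [res, ← CommRingCat.comp_apply, Scheme.Hom.map_appLE]

/-- The Cech differential is linear over the base. -/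
def cechL {Y V : Scheme.{0}} (p : Y ⟶ V) {ι : Type} (U : ι → Y.Opens) (n : ℕ) :
    letI := secAlg p
    (∀ t : Fin (n + 1) → ι, Γ(Y, ⨅ j, U (t j))) →ₗ[Γ(V, ⊤)]
      ∀ t : Fin (n + 2) → ι, Γ(Y, ⨅ j, U (t j)) :=
  letI := secAlg p
  { toFun := cechD U n
    map_add' := fun a b => funext fun t => by
      simp only [cechD, Pi.add_apply, res, map_add, mul_add, Finset.sum_add_distrib]
    map_smul' := fun r a => funext fun t => by
      simp only [cechD, Pi.smul_apply, Algebra.smul_def, RingHom.id_apply, Finset.mul_sum]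
      refine Finset.sum_congr rfl fun j _ => ?_
      rw [res, map_mul, mul_left_comm]
      exact congrArg (· * _) (res_appLE p _ _ r) }

theorem CechZero.pull {Y Y' V W : Scheme.{0}} [IsAffine V] [IsAffine W] {g : Y' ⟶ Y} {p' : Y' ⟶ W}
    {p : Y ⟶ V} {q : W ⟶ V} (H : IsPullback g p' p q) [Flat q] [IsSeparated p] {ι : Type}
    [Finite ι] (U : ι → Y.Opens) (hU : ∀ i, IsAffineOpen (U i)) (n : ℕ) (h : CechZero U n) :
    CechZero (fun i => g ⁻¹ᵁ U i) n := by
  let := secAlg p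
  let := secAlg p'
  let := secAlg (p' ≫ q)
  let := secAlg q ⊤
  have : Module.Flat Γ(V, ⊤) Γ(W, ⊤) :=
    q.flat_appLE (isAffineOpen_top V) (isAffineOpen_top W) le_top
  have : Y.IsSeparated := ⟨by
    rw [← terminal.comp_from p]
    infer_instance⟩
  have tw : ∀ O : Y'.Opens, IsScalarTower Γ(V, ⊤) Γ(W, ⊤) Γ(Y', O) := fun O =>
    .of_algebraMap_eq fun r => by
      change (p' ≫ q).appLE ⊤ O le_top r = p'.appLE ⊤ O le_top (q.appLE ⊤ ⊤ le_top r)
      rw [← CommRingCat.comp_apply, Scheme.Hom.appLE_comp_appLE]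
  have pre : ∀ {k : ℕ} (t : Fin k → ι), ⨅ j, g ⁻¹ᵁ U (t j) = g ⁻¹ᵁ ⨅ j, U (t j) := fun t => by
    ext y
    simp [TopologicalSpace.Opens.coe_iInf]
  have cm : ∀ (O : Y.Opens) (O' : Y'.Opens) (e : O' ≤ g ⁻¹ᵁ O) (r : Γ(V, ⊤)),
      g.appLE O O' e (p.appLE ⊤ O le_top r) = (p' ≫ q).appLE ⊤ O' le_top r := fun O O' e r => by
    rw [← CommRingCat.comp_apply, Scheme.Hom.appLE_comp_appLE]
    simp only [H.w]
  let f : ∀ {k : ℕ} (t : Fin k → ι),
      Γ(Y, ⨅ j, U (t j)) →ₗ[Γ(V, ⊤)] Γ(Y', ⨅ j, g ⁻¹ᵁ U (t j)) := fun t =>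
    { toFun := g.appLE _ _ (pre t).le
      map_add' := map_add _
      map_smul' := fun r a => by
        rw [Algebra.smul_def, map_mul, RingHom.id_apply, Algebra.smul_def]
        congr 1
        exact cm _ _ _ r }
  have bc : ∀ {k : ℕ} (t : Fin (k + 1) → ι), IsBaseChange Γ(W, ⊤) (f t) := fun t => by
    let := (g.appLE _ _ (pre t).le).hom.toAlgebra
    have : IsScalarTower Γ(V, ⊤) Γ(Y, ⨅ j, U (t j)) Γ(Y', ⨅ j, g ⁻¹ᵁ U (t j)) :=
      .of_algebraMap_eq fun r => (cm _ _ _ r).symm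
    have h1 := (isIso_pushoutSection_iff H le_top le_top ((pre t).trans (inf_top_eq _).symm)).1
      (isIso_pushoutSection_of_isAffineOpen H le_top le_top _ (isAffineOpen_top V)
        (isAffineOpen_top W) (IsAffineOpen.iInf fun j => hU (t j)))
    exact (CommRingCat.isPushout_iff_isPushout.1 h1.flip).out
  have cD : ∀ (k : ℕ) (x : ∀ t : Fin (k + 1) → ι, Γ(Y, ⨅ j, U (t j))),
      cechD (fun i => g ⁻¹ᵁ U i) k (fun t => f t (x t)) = fun t => f t (cechD U k x t) := by
    intro k x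
    funext t
    change _ = g.appLE _ _ (pre t).le (cechD U k x t)
    unfold cechD
    rw [map_sum]
    refine Finset.sum_congr rfl fun j _ => ?_
    rw [map_mul, map_pow, map_neg, map_one, appLE_res]
    congr 1
    exact res_appLE g _ _ _
  intro y hy
  have b1 := IsBaseChange.pi _ (bc (k := n + 1))
  have b2 := IsBaseChange.pi _ (bc (k := n + 2))
  exact ker_le_range_baseChange (cechD U n) (cechL p U (n + 1))
    (cechL p' (fun i => g ⁻¹ᵁ U i) n) (cechL p' (fun i => g ⁻¹ᵁ U i) (n + 1))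
    (fun x t => f t (x t)) b1 b2 (fun x => cD n x) (fun x => cD (n + 1) x) h y hy

theorem birational_iff {Y V : Scheme.{0}} (p : Y ⟶ V) : Scheme.BirationalOver p (𝟙 V) ↔
    ∃ (T : Scheme.{0}) (a : T ⟶ Y), IsOpenImmersion a ∧ IsDominant a ∧
      IsOpenImmersion (a ≫ p) ∧ IsDominant (a ≫ p) := by
  constructor
  · rintro ⟨f, hf⟩
    have e : f.source.ι ≫ p = f.iso.hom ≫ f.target.ι := by simpa using Eq.symm hf
    have := Opens.isDominant_ι f.dense_target
    exact ⟨_, f.source.ι, inferInstance, Opens.isDominant_ι f.dense_source,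
      e ▸ inferInstance, e ▸ inferInstance⟩
  · rintro ⟨T, a, _, _, _, _⟩
    exact (a.birationalOver p _ rfl).symm.trans ((a ≫ p).birationalOver _ _ (Category.comp_id _))

theorem isDominant_of_isPullback {T T' Y Y' : Scheme.{0}} {a' : T' ⟶ Y'} {b : T' ⟶ T} {g : Y' ⟶ Y}
    {a : T ⟶ Y} (H : IsPullback a' b g a) [IsDominant a] (hg : IsOpenMap g) : IsDominant a' := by
  refine ⟨?_⟩
  have e : Set.range a' = g ⁻¹' Set.range a := by
    rw [← Scheme.Pullback.range_fst, ← H.isoPullback_hom_fst, Scheme.Hom.comp_base,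
      TopCat.coe_comp, Set.range_comp, Set.range_eq_univ.2 H.isoPullback.hom.surjective,
      Set.image_univ]
  rw [DenseRange, e]
  exact a.denseRange.preimage hg

theorem HasRes.pull {V W : Scheme.{0}} [IsAffine V] [IsAffine W]
    {π : V ⟶ Spec (CommRingCat.of ℂ)} (q : W ⟶ V) [Smooth q] (h : HasRes π) : HasRes (q ≫ π) := by
  obtain ⟨Y, p, _, h1, _, r, U, h2, h3, h4⟩ := h
  have H := IsPullback.of_hasPullback p q
  have : IsAffineHom (pullback.fst p q) := MorphismProperty.pullback_fst _ _ inferInstance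
  refine ⟨pullback p q, pullback.snd p q, inferInstance, ?_, ?_, r,
    fun i => pullback.fst p q ⁻¹ᵁ U i, fun i => (h2 i).preimage _,
    (pullback.fst p q).iSup_preimage_eq_top h3, fun n => CechZero.pull H U h2 n (h4 n)⟩
  · obtain ⟨T, a, _, _, _, _⟩ := (birational_iff p).1 h1
    have H1 := IsPullback.of_hasPullback (pullback.fst p q) a
    have H2 := (H1.flip.paste_vert H).flip
    exact (birational_iff _).2 ⟨_, pullback.fst (pullback.fst p q) a, inferInstance,
      isDominant_of_isPullback H1 (pullback.fst p q).isOpenMap,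
      MorphismProperty.of_isPullback H2.flip ‹_›, isDominant_of_isPullback H2 q.isOpenMap⟩
  · rw [← Category.assoc, ← pullback.condition, Category.assoc]
    infer_instance

end Pool.Agent.P.MP_63735c_ag.Ta
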