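import Pool.Agent.P.MP_63735c_ag.TaRes

/-! Toric resolutions of affine toric fourfolds as `Proj` of a monoid algebra. -/

open CategoryTheory AlgebraicGeometry AddMonoidAlgebra HomogeneousLocalization

noncomputable section

namespace Pool.Agent.P.MP_63735c_ag.Ta

open Pool.Agent.MonoCech

/-- The lattice of monomials. -/
abbrev Z4 : Type := Fin 4 → ℤ

/-- Laurent polynomials. -/
abbrev Lau : Type := AddMonoidAlgebra ℂ Z4

theorem sup_ind {M : Type} {Q : M → Prop} {mot : AddMonoidAlgebra ℂ M → Prop} (h0 : mot 0)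
    (ha : ∀ x y, mot x → mot y → mot (x + y)) (hs : ∀ m c, Q m → mot (single m c))
    (x : AddMonoidAlgebra ℂ M) (hx : ∀ m, x.coeff m ≠ 0 → Q m) : mot x := by
  rw [← sum_coeff_single x, Finsupp.sum]
  exact Finset.sum_induction _ mot ha h0 fun m hm => hs m _ (hx m (Finsupp.mem_support_iff.1 hm))

theorem exists_of_mapDomain {M N : Type} (f : M → N) (x : AddMonoidAlgebra ℂ M) (n : N)
    (h : (mapDomain f x).coeff n ≠ 0) : ∃ m, x.coeff m ≠ 0 ∧ f m = n := by
  classical
  obtain ⟨m, hm, e⟩ := Finset.mem_image.1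
    (Finsupp.mapDomain_support (f := f) (s := x.coeff) (Finsupp.mem_support_iff.2 h))
  exact ⟨m, Finsupp.mem_support_iff.1 hm, e⟩

theorem equiv_of_range {A B L : Type} [CommRing A] [CommRing B] [CommRing L] (ψ : A →+* L)
    (θ : B →+* L) (h1 : Function.Injective ψ) (h2 : Function.Injective θ)
    (h : ∀ l, (∃ a, ψ a = l) ↔ ∃ b, θ b = l) : ∃ e : B ≃+* A, ∀ b, ψ (e b) = θ b := by
  choose f hf using fun b => (h (θ b)).2 ⟨b, rfl⟩
  let φ : B →+* A :=
    { toFun := f
      map_one' := h1 (by rw [hf, map_one, map_one])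
      map_mul' := fun a b => h1 (by rw [hf, map_mul, map_mul, hf, hf])
      map_zero' := h1 (by rw [hf, map_zero, map_zero])
      map_add' := fun a b => h1 (by rw [hf, map_add, map_add, hf, hf]) }
  refine ⟨.ofBijective φ ⟨fun a b e => h2 ?_, fun a => ?_⟩, hf⟩
  · rw [← hf, ← hf]
    exact congrArg ψ e
  · obtain ⟨b, hb⟩ := (h (ψ a)).1 ⟨a, rfl⟩
    exact ⟨b, h1 ((hf b).trans hb)⟩

/-- A unimodular fan with `r` rays and `N` maximal cones, and a strictly convex support function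
`h` with vertices `u`. -/
structure Tor (r N : ℕ) where
  ray : Fin r → Z4 →+ ℤ
  h : Fin r → ℤ
  u : Fin N → Z4
  st : Fin r → ℕ
  idx : Fin N → Fin 4 → Fin r
  w : Fin N → Fin 4 → Z4
  m0 : Z4
  j0 : Fin N
  hu : ∀ j ρ, h ρ ≤ ray ρ (u j)
  tight : ∀ j ρ, ray ρ (u j) = h ρ ↔ (st ρ).testBit j
  cone : ∀ (j : Fin N) ρ, (st ρ).testBit j ↔ ∃ i, idx j i = ρ
  dual : ∀ j i i', ray (idx j i) (w j i') = if i = i' then 1 else 0
  span : ∀ j m, m = ∑ i, ray (idx j i) m • w j i
  pos : ∀ ρ, 0 < ray ρ m0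
  cover : ∀ (m : Z4) (k : ℤ), 0 < k → (∀ ρ, k * h ρ ≤ ray ρ m) →
    ∃ j : Fin N, ∀ ρ, ray ρ m = k * h ρ → (st ρ).testBit j
  acyc : ∀ m, fam N st (fun ρ => ray ρ m) = [] ∨ Acyc ℂ (fam N st fun ρ => ray ρ m)

namespace Tor

variable {r N : ℕ} (T : Tor r N)

/-- Lattice points of the cone over the polyhedron. -/
def Mo : AddSubmonoid (Z4 × ℕ) where
  carrier := {p | ∀ ρ, (p.2 : ℤ) * T.h ρ ≤ T.ray ρ p.1}
  zero_mem' := fun ρ => by simp
  add_mem' := fun {a b} ha hb ρ => by
    have := ha ρ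
    have := hb ρ
    simp only [Prod.snd_add, Prod.fst_add, Nat.cast_add, map_add, add_mul]
    omega

/-- The degree. -/
def deg : T.Mo →+ ℕ := (AddMonoidHom.snd _ _).comp T.Mo.subtype

/-- The exponent. -/
def ex : T.Mo →+ Z4 := (AddMonoidHom.fst _ _).comp T.Mo.subtype

/-- The graded ring. -/
abbrev S : Type := AddMonoidAlgebra ℂ T.Mo

/-- The grading. -/
abbrev A : ℕ → Submodule ℂ T.S := gradeBy ℂ T.deg

/-- Forgetting the degree. -/
def pr : T.S →+* Lau := mapDomainRingHom ℂ T.ex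

/-- A monomial. -/
abbrev mon (p : T.Mo) : T.S := single p 1

theorem mon_mem (p : T.Mo) : T.mon p ∈ T.A (T.deg p) := single_mem_gradeBy _ _ _

theorem mon_add (p q : T.Mo) : T.mon (p + q) = T.mon p * T.mon q := by
  rw [single_mul_single, one_mul]

theorem pr_single (p : T.Mo) (c : ℂ) : T.pr (single p c) = single (T.ex p) c := mapDomain_single

theorem le (p : T.Mo) (ρ : Fin r) : (T.deg p : ℤ) * T.h ρ ≤ T.ray ρ (T.ex p) := p.2 ρ

theorem ext {p q : T.Mo} (h1 : T.ex p = T.ex q) (h2 : T.deg p = T.deg q) : p = q :=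
  Subtype.ext (Prod.ext h1 h2)

theorem ray_inj {m m' : Z4} (h : ∀ ρ, T.ray ρ m = T.ray ρ m') : m = m' := by
  rw [T.span T.j0 m, T.span T.j0 m']
  simp only [← T.span, h]

instance : UniqueSums T.Mo :=
  .of_injective_addHom T.Mo.subtype.toAddHom Subtype.val_injective inferInstance

instance : IsDomain T.S := NoZeroDivisors.to_isDomain _

instance : AddMonoid.FG T.Mo := by
  let σ : T.Mo →+ (Fin r → ℕ) × ℕ :=
    { toFun := fun p => (fun ρ => (T.ray ρ (T.ex p) - T.deg p * T.h ρ).toNat, T.deg p)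
      map_zero' := by ext <;> simp
      map_add' := fun p q => by
        ext ρ
        · have := T.le p ρ
          have := T.le q ρ
          simp only [map_add, Nat.cast_add, add_mul, Prod.fst_add, Pi.add_apply]
          omega
        · simp }
  have hσ : Function.Injective σ := fun p q e => by
    have e2 : T.deg p = T.deg q := congrArg (fun x : (Fin r → ℕ) × ℕ => x.2) e
    refine T.ext (T.ray_inj fun ρ => ?_) e2
    have e1 : (T.ray ρ (T.ex p) - T.deg p * T.h ρ).toNat =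
      (T.ray ρ (T.ex q) - T.deg q * T.h ρ).toNat := congrFun (congrArg Prod.fst e) ρ
    have := T.le p ρ
    have := T.le q ρ
    rw [e2] at *
    omega
  have hf : (AddMonoidHom.mrange σ).FG := AddSubmonoid.fg_of_subtractive (by
    rintro _ ⟨p, rfl⟩ y ⟨q, e⟩
    have e2 : T.deg q = T.deg p + y.2 := congrArg Prod.snd e
    have e1 : ∀ ρ, T.ray ρ (T.ex q - T.ex p) - y.2 * T.h ρ = y.1 ρ := fun ρ => by
      have : (T.ray ρ (T.ex q) - T.deg q * T.h ρ).toNat =
        (T.ray ρ (T.ex p) - T.deg p * T.h ρ).toNat + y.1 ρ := congrFun (congrArg Prod.fst e) ρ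
      have h1 := T.le p ρ
      have h2 := T.le q ρ
      rw [e2, Nat.cast_add, add_mul] at this h2
      rw [map_sub]
      omega
    refine ⟨⟨(T.ex q - T.ex p, y.2), fun ρ => by have := e1 ρ; dsimp only; omega⟩, ?_⟩
    ext ρ
    · change (T.ray ρ (T.ex q - T.ex p) - y.2 * T.h ρ).toNat = _
      rw [e1, Int.toNat_natCast]
    · rfl)
  have := (AddMonoid.fg_iff_addSubmonoid_fg _).2 hf
  let e := AddEquiv.ofBijective σ.mrangeRestrict
    ⟨fun a b h => hσ (congrArg Subtype.val h), σ.mrangeRestrict_surjective⟩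
  exact AddMonoid.fg_of_surjective e.symm.toAddMonoidHom e.symm.surjective

instance : Algebra.FiniteType (T.A 0) T.S :=
  have : IsScalarTower ℂ (T.A 0) T.S :=
    .of_algebraMap_eq (R := ℂ) (S := T.A 0) (A := T.S) fun _ => rfl
  .of_restrictScalars_finiteType ℂ _ _

theorem pr_inj {k : ℕ} {a : T.S} (ha : a ∈ T.A k) (h : T.pr a = 0) : a = 0 := by
  ext p
  by_contra hp
  have h1 := Finsupp.mapDomain_apply' (f := T.ex) {q | T.deg q = k} a.coeff (fun q hq => ha q hq)
    (fun q hq q' hq' e => T.ext e (hq.trans hq'.symm)) (ha p (Finsupp.mem_support_iff.2 hp))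
  have h2 : Finsupp.mapDomain T.ex a.coeff = 0 := congrArg coeff h
  rw [h2] at h1
  exact hp h1.symm

theorem pr_range (k : ℕ) (l : Lau) : (∃ a ∈ T.A k, T.pr a = l) ↔
    ∀ m, l.coeff m ≠ 0 → ∀ ρ, (k : ℤ) * T.h ρ ≤ T.ray ρ m := by
  constructor
  · rintro ⟨a, ha, rfl⟩ m hm ρ
    obtain ⟨p, hp, rfl⟩ := exists_of_mapDomain _ _ _ hm
    rw [← ha p (Finsupp.mem_support_iff.2 hp)]
    exact T.le p ρ
  · refine sup_ind (mot := fun l => ∃ a ∈ T.A k, T.pr a = l) ⟨0, zero_mem _, map_zero _⟩ ?_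
      (fun m c hm => ⟨single ⟨(m, k), hm⟩ c, single_mem_gradeBy T.deg _ _, T.pr_single _ _⟩) l
    rintro _ _ ⟨a, ha, rfl⟩ ⟨b, hb, rfl⟩
    exact ⟨a + b, add_mem ha hb, map_add _ _ _⟩

theorem unit (p : T.Mo) : T.pr (T.mon p) * single (-T.ex p) 1 = 1 := by
  rw [pr_single, single_mul_single, add_neg_cancel, one_mul, AddMonoidAlgebra.one_def]

/-- Functions on the chart of a monomial as Laurent polynomials. -/
def psi (p : T.Mo) : Away T.A (T.mon p) →+* Lau :=
  (Localization.awayLift T.pr _ (IsUnit.of_mul_eq_one _ (T.unit p))).comp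
    (algebraMap _ (Localization.Away (T.mon p)))

theorem psi_mk (p : T.Mo) (n : ℕ) (a : T.S) (ha : a ∈ T.A (n • T.deg p)) :
    T.psi p (Away.mk _ (T.mon_mem p) n a ha) = T.pr a * single (-(n • T.ex p)) 1 := by
  change Localization.awayLift _ _ (IsUnit.of_mul_eq_one _ (T.unit p))
    (Localization.mk a ⟨T.mon p ^ n, n, rfl⟩) = _
  rw [Localization.awayLift_mk (hv := T.unit p), single_pow, one_pow, smul_neg]

theorem psi_inj (p : T.Mo) : Function.Injective (T.psi p) := by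
  refine (injective_iff_map_eq_zero _).2 fun z hz => ?_
  obtain ⟨n, a, ha, rfl⟩ := Away.mk_surjective _ (T.mon_mem p) z
  rw [psi_mk, mul_eq_zero, single_eq_zero] at hz
  obtain rfl := T.pr_inj ha (hz.resolve_right one_ne_zero)
  ext
  simp [Localization.mk_zero]

theorem psi_zero (p : T.Mo) (a : T.A 0) : T.psi p (fromZeroRingHom _ _ a) = T.pr a := by
  have : fromZeroRingHom _ _ a = Away.mk _ (T.mon_mem p) 0 a (by simp) := by
    ext
    simp [fromZeroRingHom]
  rw [this, psi_mk]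
  simp [← AddMonoidAlgebra.one_def]

theorem psi_awayMap (p q : T.Mo) (z : Away T.A (T.mon p)) :
    T.psi (p + q) (awayMap _ (T.mon_mem q) (T.mon_add p q) z) = T.psi p z := by
  obtain ⟨n, a, ha, rfl⟩ := Away.mk_surjective _ (T.mon_mem p) z
  have e : awayMap _ (T.mon_mem q) (T.mon_add p q) (Away.mk _ (T.mon_mem p) n a ha) =
      Away.mk _ (T.mon_mem (p + q)) n (a * T.mon q ^ n) (by
        rw [map_add, smul_add]
        exact SetLike.mul_mem_graded ha (SetLike.pow_mem_graded n (T.mon_mem q))) := by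
    ext
    exact val_awayMap_mk ..
  rw [e, psi_mk, psi_mk, map_mul, map_pow, pr_single, single_pow, mul_assoc, single_mul_single]
  simp

theorem psi_awayMap' {p q x : T.Mo} (h : x = p + q) (h' : T.mon x = T.mon p * T.mon q)
    (z : Away T.A (T.mon p)) : T.psi x (awayMap _ (T.mon_mem q) h' z) = T.psi p z := by
  subst h
  exact T.psi_awayMap p q z

theorem psi_range (p : T.Mo) (l : Lau) : (∃ z, T.psi p z = l) ↔
    ∀ m, l.coeff m ≠ 0 → ∀ ρ, T.ray ρ (T.ex p) = T.deg p * T.h ρ → 0 ≤ T.ray ρ m := by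
  constructor
  · rintro ⟨z, rfl⟩ m hm ρ hρ
    obtain ⟨n, a, ha, rfl⟩ := Away.mk_surjective _ (T.mon_mem p) z
    rw [psi_mk, coeff_mul_single_apply, mul_one, neg_neg] at hm
    have := (T.pr_range _ _).1 ⟨a, ha, rfl⟩ _ hm ρ
    rw [map_add, map_nsmul, hρ] at this
    simp only [smul_eq_mul, Nat.cast_mul, nsmul_eq_mul, mul_assoc] at this
    omega
  · refine sup_ind (mot := fun l => ∃ z, T.psi p z = l) ⟨0, map_zero _⟩ ?_ (fun m c hm => ?_) l
    · rintro _ _ ⟨a, rfl⟩ ⟨b, rfl⟩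
      exact ⟨a + b, map_add _ _ _⟩
    · obtain ⟨n, hn⟩ := Finite.exists_le fun ρ => (T.ray ρ m).natAbs
      have hq : (m + n • T.ex p, n • T.deg p) ∈ T.Mo := fun ρ => by
        have h1 := T.le p ρ
        have h2 := hn ρ
        dsimp only
        rw [map_add, map_nsmul]
        simp only [smul_eq_mul, Nat.cast_mul, nsmul_eq_mul, mul_assoc]
        rcases h1.eq_or_lt with h1 | h1
        · have := hm ρ h1.symm
          rw [h1]
          omega
        · have : (n : ℤ) * (T.deg p * T.h ρ + 1) ≤ n * T.ray ρ (T.ex p) :=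
            mul_le_mul_of_nonneg_left h1 (Int.natCast_nonneg n)
          rw [mul_add] at this
          omega
      refine ⟨Away.mk _ (T.mon_mem p) n (single ⟨_, hq⟩ c) (single_mem_gradeBy T.deg _ _), ?_⟩
      rw [psi_mk, pr_single, single_mul_single, mul_one]
      exact congrArg (single · c) (add_neg_cancel_right _ _)

/-- The vertices. -/
def vt (j : Fin N) : T.Mo := ⟨(T.u j, 1), fun ρ => by simpa using T.hu j ρ⟩

/-- An interior monomial of degree zero. -/
def p0 : T.Mo := ⟨(T.m0, 0), fun ρ => by simpa using (T.pos ρ).le⟩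

/-- The charts. -/
abbrev U (j : Fin N) : (Proj T.A).Opens := Proj.basicOpen T.A (T.mon (T.vt j))

theorem deg_sum (s : Finset (Fin N)) : T.deg (∑ j ∈ s, T.vt j) = s.card := by
  rw [map_sum, Finset.card_eq_sum_ones]
  rfl

theorem tight_sum (s : Finset (Fin N)) (ρ : Fin r) :
    T.ray ρ (T.ex (∑ j ∈ s, T.vt j)) = T.deg (∑ j ∈ s, T.vt j) * T.h ρ ↔
      ∀ j ∈ s, (T.st ρ).testBit j := by
  rw [deg_sum, map_sum, map_sum, ← nsmul_eq_mul, ← Finset.sum_const, eq_comm,
    Finset.sum_eq_sum_iff_of_le (g := fun j => T.ray ρ (T.ex (T.vt j))) fun j _ => T.hu j ρ]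
  exact forall₂_congr fun j _ => eq_comm.trans (T.tight j ρ)

theorem open_sum (s : Finset (Fin N)) :
    Proj.basicOpen T.A (T.mon (∑ j ∈ s, T.vt j)) = ⨅ j ∈ s, T.U j := by
  classical
  induction s using Finset.induction_on with
  | empty => simp [← AddMonoidAlgebra.one_def]
  | insert a s ha ih => rw [Finset.sum_insert ha, mon_add, Proj.basicOpen_mul, ih,
      Finset.iInf_insert]

theorem covers : ⨆ j, T.U j = ⊤ := by
  refine top_le_iff.1 fun x _ => TopologicalSpace.Opens.mem_iSup.2 ?_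
  by_contra! H
  simp only [Proj.mem_basicOpen, not_not] at H
  refine x.not_irrelevant_le ((HomogeneousIdeal.irrelevant_le _).2 fun k hk a ha => ?_)
  refine sup_ind (Q := fun p => T.deg p = k) (mot := fun a => a ∈ x.asHomogeneousIdeal.toIdeal)
    (zero_mem _) (fun _ _ => add_mem) (fun p c hp => ?_) a
    fun p hp => ha p (Finsupp.mem_support_iff.2 hp)
  obtain ⟨j, hj⟩ := T.cover (T.ex p) (T.deg p) (by omega) (T.le p)
  obtain ⟨n, hn⟩ := Finite.exists_le fun ρ => (T.ray ρ (T.u j) - T.h ρ).natAbs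
  have hq : ((n + 1) • T.ex p - T.u j, (n + 1) * T.deg p - 1) ∈ T.Mo := fun ρ => by
    have h1 := T.le p ρ
    have h2 := hn ρ
    have h3 : 1 ≤ (n + 1) * T.deg p := Nat.mul_pos n.succ_pos (by omega)
    dsimp only
    rw [map_sub, map_nsmul, Nat.cast_sub h3]
    simp only [Nat.cast_mul, nsmul_eq_mul, sub_mul, mul_assoc, Nat.cast_one, one_mul]
    rcases h1.eq_or_lt with h1 | h1
    · rw [h1, (T.tight j ρ).2 (hj ρ h1.symm)]
    · have : ((n + 1 : ℕ) : ℤ) * (T.deg p * T.h ρ + 1) ≤ (n + 1 : ℕ) * T.ray ρ (T.ex p) :=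
        mul_le_mul_of_nonneg_left h1 (Int.natCast_nonneg _)
      rw [mul_add] at this
      omega
  have e : (n + 1) • p = T.vt j + ⟨_, hq⟩ := T.ext
    (by rw [map_nsmul, map_add]; exact (add_sub_cancel _ _).symm)
    (by
      have h3 : 1 ≤ (n + 1) * T.deg p := Nat.mul_pos n.succ_pos (by omega)
      rw [map_nsmul, map_add]
      exact (Nat.add_sub_cancel' h3).symm)
  refine x.isPrime.mem_of_pow_mem (n + 1) ?_
  rw [single_pow, e, ← one_mul (c ^ (n + 1)), ← single_mul_single]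
  exact Ideal.mul_mem_right _ _ (H j)

theorem dense {f : T.S} (hf : f ≠ 0) :
    Dense (Proj.basicOpen T.A f : Set (Proj T.A)) := by
  let x : Proj T.A := ⟨⊥, by simpa using Ideal.isPrime_bot, fun h => by
    have := h (HomogeneousIdeal.mem_irrelevant_of_mem _ one_pos (T.mon_mem (T.vt T.j0)))
    exact one_ne_zero (single_eq_zero.1 this)⟩
  refine (Proj.isBasis_basicOpen T.A).dense_iff.2 ?_
  rintro _ ⟨_, ⟨g, rfl⟩, rfl⟩ ⟨y, hy⟩
  refine ⟨x, fun h => ?_, hf⟩
  obtain rfl : g = 0 := h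
  simp at hy

/-- The monomial whose chart is the torus. -/
def big : T.Mo := ∑ j, T.vt j + T.p0

theorem big_pos : 0 < T.deg T.big := by
  rw [big, map_add, deg_sum]
  exact Nat.add_pos_left (Finset.card_pos.2 ⟨T.j0, Finset.mem_univ _⟩) _

theorem psi_big (l : Lau) : ∃ z, T.psi T.big z = l := by
  refine (T.psi_range _ l).2 fun m _ ρ h => absurd h (ne_of_gt ?_)
  have h1 := T.le (∑ j, T.vt j) ρ
  have h2 : 0 < T.ray ρ (T.ex T.p0) := T.pos ρ
  have h3 : T.deg T.p0 = 0 := rfl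
  rw [big, map_add, map_add, map_add, h3, add_zero]
  omega

theorem isLoc : IsLocalization.Away (⟨T.mon T.p0, T.mon_mem T.p0⟩ : T.A 0)
    (Away T.A (T.mon T.big)) := by
  refine IsLocalization.Away.mk _ ?_ (fun z => ?_) fun a b e => ⟨0, ?_⟩
  · obtain ⟨z, hz⟩ := T.psi_big (single (-T.ex T.p0) 1)
    refine IsUnit.of_mul_eq_one z (T.psi_inj _ ?_)
    rw [map_mul, hz, algebraMap_eq, psi_zero, map_one]
    exact T.unit _
  · obtain ⟨n, hn⟩ := Finite.exists_le fun x : (T.psi _ z).coeff.support × Fin r =>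
      (T.ray x.2 x.1).natAbs
    obtain ⟨a, ha, e⟩ := (T.pr_range 0 (T.psi _ z * single (n • T.m0) 1)).2 fun m hm ρ => by
      rw [coeff_mul_single_apply, mul_one] at hm
      have h1 := hn (⟨_, Finsupp.mem_support_iff.2 hm⟩, ρ)
      have h2 : (n : ℤ) * 1 ≤ n * T.ray ρ T.m0 :=
        mul_le_mul_of_nonneg_left (T.pos ρ) (Int.natCast_nonneg _)
      dsimp only at h1
      rw [map_add, map_neg, map_nsmul, nsmul_eq_mul] at h1
      omega
    refine ⟨n, ⟨a, ha⟩, T.psi_inj _ ?_⟩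
    rw [map_mul, map_pow, algebraMap_eq, psi_zero, psi_zero, e, pr_single, single_pow, one_pow]
    rfl
  · have := congrArg (T.psi _) e
    rw [algebraMap_eq, psi_zero, psi_zero, ← sub_eq_zero, ← map_sub] at this
    rw [Subtype.ext (sub_eq_zero.1 (T.pr_inj (sub_mem a.2 b.2) this))]

theorem birational : Scheme.BirationalOver (Proj.toSpecZero T.A) (𝟙 _) := by
  have := T.isLoc
  refine (birational_iff _).2 ⟨_, Proj.awayι T.A _ (T.mon_mem T.big) T.big_pos, inferInstance,
    ⟨?_⟩, ?_, ⟨?_⟩⟩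
  · have := T.dense (f := T.mon T.big) (single_ne_zero.2 one_ne_zero)
    rwa [← Proj.opensRange_awayι T.A _ (T.mon_mem T.big) T.big_pos] at this
  · rw [Proj.awayι_toSpecZero]
    exact IsOpenImmersion.of_isLocalization (⟨T.mon T.p0, T.mon_mem T.p0⟩ : T.A 0)
  · rw [Proj.awayι_toSpecZero]
    refine (PrimeSpectrum.denseRange_comap_iff_ker_le_nilRadical _).2 fun a ha => ?_
    have h1 : T.pr a = 0 := by
      rw [← T.psi_zero T.big, show fromZeroRingHom _ _ a = 0 from ha, map_zero]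
    rw [show a = 0 from Subtype.ext (T.pr_inj a.2 h1)]
    exact zero_mem _

theorem cech (n : ℕ) : CechZero T.U n := by
  classical
  let e := (Proj.basicOpenIsoAway T.A _ (T.mon_mem T.big) T.big_pos).commRingCatIsoToRingEquiv
  have hb : ∀ s : Finset (Fin N), T.big = ∑ j ∈ s, T.vt j + (∑ j ∈ sᶜ, T.vt j + T.p0) := fun s => by
    rw [big, ← add_assoc, Finset.sum_add_sum_compl]
  have hW : ∀ j, Proj.basicOpen T.A (T.mon T.big) ≤ T.U j := fun j => by
    rw [hb {j}, mon_add, Proj.basicOpen_mul, Finset.sum_singleton]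
    exact inf_le_left
  let Ψ : Γ(Proj T.A, Proj.basicOpen T.A (T.mon T.big)) →+ Z4 →₀ ℂ :=
    coeffAddEquiv.toAddMonoidHom.comp ((T.psi T.big).comp e.symm.toRingHom).toAddMonoidHom
  have key : ∀ {k : ℕ} (t : Fin (k + 1) → Fin N), ∃ (p : T.Mo)
      (f : Away T.A (T.mon p) → Γ(Proj T.A, ⨅ j, T.U (t j))), Function.Bijective f ∧
      (∀ z, Ψ (res (le_iInf fun _ => hW _) (f z)) = (T.psi p z).coeff) ∧
      ∀ ρ, T.ray ρ (T.ex p) = T.deg p * T.h ρ ↔ ∀ i, (T.st ρ).testBit (t i) := by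
    intro k t
    have h1 : Proj.basicOpen T.A (T.mon (∑ j ∈ Finset.univ.image t, T.vt j)) = ⨅ j, T.U (t j) := by
      rw [open_sum, Finset.iInf_finset_image]
      simp
    have h2 : 0 < T.deg (∑ j ∈ Finset.univ.image t, T.vt j) := by
      rw [deg_sum]
      exact Finset.card_pos.2 ⟨t 0, Finset.mem_image_of_mem _ (Finset.mem_univ _)⟩
    refine ⟨_, fun z => res h1.ge (Proj.awayToSection T.A _ z), (res_bij h1.ge h1.le).comp
      (Proj.basicOpenIsoAway T.A _ (T.mon_mem _) h2).commRingCatIsoToRingEquiv.bijective,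
      fun z => ?_, fun ρ => by rw [tight_sum]; simp⟩
    have h3 := (congrArg T.mon (hb (Finset.univ.image t))).trans (T.mon_add _ _)
    have h4 := congrArg (fun φ => φ.hom z) (Proj.awayMap_awayToSection T.A (T.mon_mem _) h3)
    rw [res_res']
    change (T.psi T.big (e.symm _)).coeff = _
    rw [show res _ (Proj.awayToSection T.A _ z) = e (awayMap _ (T.mon_mem _) h3 z) from h4.symm,
      e.symm_apply_apply]
    exact congrArg coeff (T.psi_awayMap' (hb _) h3 z)
  refine cechZero_of_embed T.U _ hW Ψ n (fun t => ?_) fun c hc hd => ?_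
  · obtain ⟨p, f, h1, h2, -⟩ := key t
    intro a b hab
    obtain ⟨a, rfl⟩ := h1.2 a
    obtain ⟨b, rfl⟩ := h1.2 b
    dsimp only at hab
    rw [h2, h2] at hab
    rw [T.psi_inj p (coeff_injective hab)]
  · have : Nonempty (Fin N) := ⟨T.j0⟩
    obtain ⟨b, h1, h2⟩ := mono_exact _ T.acyc c (fun l m hm => by
      obtain ⟨p, f, h1, h2, h3⟩ := key l
      obtain ⟨s, hs⟩ := hc l
      obtain ⟨z, rfl⟩ := h1.2 s
      obtain ⟨ρ, h4, h5⟩ := (in_fam _ _ _).1 hm
      by_contra h6
      rw [← hs, h2] at h6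
      exact absurd ((T.psi_range p _).1 ⟨z, rfl⟩ m h6 ρ ((h3 ρ).2 h5)) (not_le.2 h4)) hd
    refine ⟨b, fun t => ?_, h2⟩
    obtain ⟨p, f, -, h3, h4⟩ := key t
    obtain ⟨z, hz⟩ := (T.psi_range p (.ofCoeff (b t))).2 fun m hm ρ hρ => not_lt.1 fun h =>
      hm (h1 t m ((in_fam _ _ _).2 ⟨ρ, h, (h4 ρ).1 hρ⟩))
    exact ⟨f z, by rw [h3, hz]⟩

/-- The monomials of a chart. -/
def eta (j : Fin N) : (Fin 4 →₀ ℕ) →+ Z4 where
  toFun a := ∑ i, a i • T.w j i
  map_zero' := by simp
  map_add' a b := by simp [add_smul, Finset.sum_add_distrib]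

theorem ray_eta (j : Fin N) (a : Fin 4 →₀ ℕ) (i : Fin 4) :
    T.ray (T.idx j i) (T.eta j a) = a i := by
  change T.ray _ (∑ i, a i • T.w j i) = _
  simp only [map_sum, map_nsmul, T.dual]
  simp

theorem smooth_chart (j : Fin N) :
    ((fromZeroRingHom T.A (.powers (T.mon (T.vt j)))).comp (algebraMap ℂ (T.A 0))).Smooth := by
  have h1 : Function.Injective (T.eta j) := fun a b e => Finsupp.ext fun i => by
    have := congrArg (T.ray (T.idx j i)) e
    rwa [ray_eta, ray_eta, Nat.cast_inj] at this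
  have ht : ∀ ρ, T.ray ρ (T.ex (T.vt j)) = T.deg (T.vt j) * T.h ρ ↔ ∃ i, T.idx j i = ρ := fun ρ => by
    rw [← T.cone, ← T.tight, show T.deg (T.vt j) = 1 from rfl, Nat.cast_one, one_mul]
    rfl
  obtain ⟨e, he⟩ := equiv_of_range (B := MvPolynomial (Fin 4) ℂ) (T.psi (T.vt j))
    (mapDomainRingHom ℂ (T.eta j)) (T.psi_inj _) (mapDomain_injective h1) fun l => by
      rw [psi_range]
      constructor
      · refine sup_ind (mot := fun l => ∃ b, mapDomainRingHom ℂ (T.eta j) b = l) ⟨0, map_zero _⟩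
          ?_ (fun m c hm => ?_) l
        · rintro _ _ ⟨a, rfl⟩ ⟨b, rfl⟩
          exact ⟨a + b, map_add _ _ _⟩
        · refine ⟨single (Finsupp.equivFunOnFinite.symm fun i => (T.ray (T.idx j i) m).toNat) c,
            mapDomain_single.trans (congrArg (single · c) ?_)⟩
          refine Eq.trans ?_ (T.span j m).symm
          change ∑ i, _ • T.w j i = _
          refine Finset.sum_congr rfl fun i _ => ?_
          rw [Finsupp.equivFunOnFinite_symm_apply_apply, ← natCast_zsmul,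
            Int.toNat_of_nonneg (hm _ ((ht _).2 ⟨i, rfl⟩))]
      · rintro ⟨b, rfl⟩ m hm ρ hρ
        obtain ⟨a, -, rfl⟩ := exists_of_mapDomain _ _ _ hm
        obtain ⟨i, rfl⟩ := (ht ρ).1 hρ
        rw [ray_eta]
        exact Int.natCast_nonneg _
  have : (fromZeroRingHom T.A (.powers (T.mon (T.vt j)))).comp (algebraMap ℂ (T.A 0)) =
      e.toRingHom.comp (algebraMap ℂ _) := RingHom.ext fun c => T.psi_inj _ (by
    change T.psi _ (fromZeroRingHom _ _ _) = T.psi _ (e _)
    rw [he, psi_zero]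
    exact (T.pr_single 0 c).trans (by
      rw [map_zero, ← map_zero (T.eta j)]
      exact mapDomain_single.symm))
  rw [this]
  exact (RingHom.smooth_algebraMap.2 ⟨inferInstance, inferInstance⟩).comp (.of_bijective e.bijective)

theorem hasRes : HasRes (Spec.map (CommRingCat.ofHom (algebraMap ℂ (T.A 0)))) := by
  refine ⟨Proj T.A, Proj.toSpecZero T.A, inferInstance, T.birational, ?_, N, T.U,
    fun j => Proj.isAffineOpen_basicOpen _ _ (T.mon_mem _) one_pos, T.covers, T.cech⟩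
  refine IsZariskiLocalAtSource.of_iSup_eq_top T.U T.covers fun j => ?_
  refine (MorphismProperty.cancel_left_of_respectsIso @Smooth
    (Proj.basicOpenIsoSpec T.A _ (T.mon_mem (T.vt j)) one_pos).inv _).1 ?_
  rw [Proj.basicOpenIsoSpec_inv_ι_assoc, Proj.awayι_toSpecZero_assoc, ← Spec.map_comp]
  exact HasRingHomProperty.Spec_iff.2 (T.smooth_chart j)

end Tor

end Pool.Agent.P.MP_63735c_ag.Ta
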