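import Pool.Agent.P.MP_63735c_ag.Main

set_option autoImplicit false

open Pool.Agent.P.MP_63735c_ag

/-- A primitive symplectic quotient of an abelian fourfold with a nontrivial flat 2-torsion line
bundle, which induces no fibration. -/
theorem Pool.Agent.P.MP_63735c_ag.VariantTorsion.result :
    ∃ Γ : Subgroup (Equiv.Perm V), IsPrimitiveSymplecticQuotient Γ ∧
      ∃ L : Cocycle (Orb Γ), IsLineBundle (Hol Γ) L ∧ ¬Iso (Hol Γ) L (triv _) ∧
        Iso (Hol Γ) (L.pow 2) (triv _) ∧ (∀ i j, ∀ x ∈ L.U i ∩ L.U j, ‖L.g i j x‖ = 1) ∧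
        ¬WeaklyInduces (Hol Γ) L :=
  Pool.Agent.P.MP_63735c_ag.main
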