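import Pool.Agent.P.MP_63735c_ag.BPA6
import Pool.Agent.P.MP_63735c_ag.BPA4

/-! Hamiltonian flows on a space that need not be compact. -/

open scoped ComplexOrder ContDiff Matrix
open Set Metric Filter Topology

namespace Pool.Agent.ZB

open Pool.Agent.BP Pool.Agent.SPF Pool.Agent.NL Pool.Agent.CK Pool.Agent.AB Pool.Agent.SE

variable {N n : ℕ} {X : Type} [TopologicalSpace X] {A : Atlas X N} {U : Set X} {g : X → E n}
  {φ : X → ℝ} {Φ Ψ : E n → X} {t : E n}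

/-- Commuting Hamiltonians that leave `φ` invariant. -/
structure Ham (A : Atlas X N) (U : Set X) (g : X → E n) (φ : X → ℝ) : Prop extends HolU A U g where
  φ_smooth : ∀ i, ∀ z ∈ (A.C i).W, A.p i z ∈ U → ContDiffAt ℝ ∞ (fun w => φ (A.p i w)) z
  poi : ∀ i, ∀ z ∈ (A.C i).W, A.p i z ∈ U → Jg A g i z * Vf A g i z = 0
  inv : ∀ i, ∀ z ∈ (A.C i).W, A.p i z ∈ U → dr (fun w => φ (A.p i w)) z ᵥ* Vf A g i z = 0

theorem Ham.mono (h : Ham A U g φ) {U' : Set X} (hU : IsOpen U') (hs : U' ⊆ U) : Ham A U' g φ :=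
  ⟨⟨h.inj, hU, fun i z hz hx => h.g_hol i z hz (hs hx)⟩, fun i z hz hx => h.φ_smooth i z hz (hs hx),
    fun i z hz hx => h.poi i z hz (hs hx), fun i z hz hx => h.inv i z hz (hs hx)⟩

theorem sol_mono {U' : Set X} (h : Sol A U' g Φ t) (hs : U' ⊆ U) : Sol A U g Φ t := by
  obtain ⟨i, f, hf⟩ := h
  exact ⟨i, f, hf.mono fun s a => ⟨a.1, hs a.2.1, a.2.2⟩⟩

theorem sol_cut {U' : Set X} (h : Sol A U g Φ t) (hU : IsOpen U') (ht : Φ t ∈ U') :
    Sol A U' g Φ t := by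
  obtain ⟨i, f, hf⟩ := h
  have h0 := hf.self_of_nhds
  have h1 : ContinuousAt (fun s => A.p i (f s)) t :=
    ((A.cont i).continuousAt ((A.C i).isOpen.mem_nhds h0.1)).comp h0.2.2.2.continuousAt
  refine ⟨i, f, ?_⟩
  filter_upwards [hf, h1.eventually (hU.mem_nhds (mem_of_eq_of_mem h0.2.2.1 ht))] with s a b
  exact ⟨a.1, b, a.2.2⟩

/-- Solutions from a point stay in a compact set for a bounded time. -/
def Prop0 (A : Atlas X N) (U : Set X) (g : X → E n) : Prop :=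
  ∀ x ∈ U, ∀ ρ : ℝ, ∃ C, IsCompact C ∧ C ⊆ U ∧ x ∈ C ∧ ∀ r ≤ ρ, ∀ Φ : E n → X, Φ 0 = x →
    (∀ t ∈ ball (0 : E n) r, Sol A U g Φ t) → ∀ t ∈ ball (0 : E n) r, Φ t ∈ C

theorem Ham.const (hH : Ham A U g φ) (h : Sol A U g Φ t) :
    HasFDerivAt (fun s => φ (Φ s)) (0 : E n →L[ℝ] ℝ) t ∧
      HasFDerivAt (fun s => g (Φ s)) (0 : E n →L[ℂ] E n) t := by
  obtain ⟨i, f, hf⟩ := h
  obtain ⟨h1, h2, -, h4⟩ := hf.self_of_nhds
  constructor
  · have h5 := (hH.φ_smooth i _ h1 h2).differentiableAt (by simp)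
    have h6 := h5.hasFDerivAt.comp t (h4.restrictScalars ℝ)
    refine (h6.congr_fderiv (ContinuousLinearMap.ext fun τ => ?_)).congr_of_eventuallyEq
      (hf.mono fun s hs => congrArg φ hs.2.2.1.symm)
    have h7 : Vl A g i (f t) τ ⬝ᵥ dr (fun w => φ (A.p i w)) (f t) = 0 := by
      rw [dotProduct_comm, Vl_apply, Matrix.dotProduct_mulVec, hH.inv i _ h1 h2, zero_dotProduct]
    have h8 := fderiv_eq_wirt (fun w => (φ (A.p i w) : ℂ)) (f t) (Vl A g i (f t) τ)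
    rw [test_fderiv h5, Finset.sum_add_distrib] at h8
    have h9 : ∑ a, star (Vl A g i (f t) τ a) * dzb a (fun w => (φ (A.p i w) : ℂ)) (f t) =
        star (Vl A g i (f t) τ ⬝ᵥ dr (fun w => φ (A.p i w)) (f t)) := by
      rw [← star_db, dotProduct, star_sum]
      exact Finset.sum_congr rfl fun a _ => by simp [db]
    rw [h9, h7, star_zero, add_zero] at h8
    exact Complex.ofReal_eq_zero.1 (h8.trans h7)
  · have h6 := (hH.g_hol i _ h1 h2).hasFDerivAt.comp t h4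
    refine (h6.congr_fderiv (ContinuousLinearMap.ext fun τ => ?_)).congr_of_eventuallyEq
      (hf.mono fun s hs => congrArg g hs.2.2.1.symm)
    rw [ContinuousLinearMap.comp_apply, Vl_apply, ← jac_mulVec, Matrix.mulVec_mulVec]
    exact (congrArg (· *ᵥ τ) (hH.poi i _ h1 h2)).trans (Matrix.zero_mulVec τ)

theorem Ham.loc (hH : Ham A U g φ) {i : A.ι} {z : E N} (hz : z ∈ (A.C i).W) (hU : A.p i z ∈ U) :
    ∃ (r δ : ℝ) (Fl : E N × E n → E N), 0 < r ∧ 0 < δ ∧ ball z r ⊆ (A.C i).W ∧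
      DifferentiableOn ℂ Fl (ball z r ×ˢ ball 0 δ) ∧ ∀ y ∈ ball z r, Fl (y, 0) = y ∧
        ∀ t ∈ ball (0 : E n) δ, Fl (y, t) ∈ (A.C i).W ∧ A.p i (Fl (y, t)) ∈ U ∧
          HasFDerivAt (fun s => Fl (y, s)) (Vl A g i (Fl (y, t))) t ∧
          Sol A U g (fun s => A.p i (Fl (y, s))) t := by
  obtain ⟨r, δ, Fl, hr, hδ, h1, h2⟩ := frob_family (hH.isOpen i) (hH.Vl_hol i)
    (fun y hy => hH.comm (hH.poi i) hy.1 hy.2) ⟨hz, hU⟩
  refine ⟨r, δ, Fl, hr, hδ, fun y hy => ?_, h1, fun y hy => ⟨(h2 y hy).1, fun t ht =>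
    ⟨((h2 y hy).2 t ht).1.1, ((h2 y hy).2 t ht).1.2, ((h2 y hy).2 t ht).2, i,
      fun s => Fl (y, s), ?_⟩⟩⟩
  · exact (h2 y hy).1 ▸ ((h2 y hy).2 0 (mem_ball_self hδ)).1.1
  · filter_upwards [isOpen_ball.mem_nhds ht] with s hs
    exact ⟨((h2 y hy).2 s hs).1.1, ((h2 y hy).2 s hs).1.2, rfl, ((h2 y hy).2 s hs).2⟩

theorem bpa5_unif (hH : Ham A U g φ) {C : Set X} (hC : IsCompact C) (h : C ⊆ U) :
    ∃ δ : ℝ, 0 < δ ∧ ∀ x ∈ C, ∃ Ψ : E n → X, Ψ 0 = x ∧ ∀ s ∈ ball (0 : E n) δ, Sol A U g Ψ s := by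
  refine hC.induction_on (p := fun S => ∃ δ : ℝ, 0 < δ ∧ ∀ x ∈ S, ∃ Ψ : E n → X, Ψ 0 = x ∧
    ∀ s ∈ ball (0 : E n) δ, Sol A U g Ψ s) ⟨1, one_pos, fun _ hx => hx.elim⟩
    (fun _ _ hs ⟨δ, h1, h2⟩ => ⟨δ, h1, fun x hx => h2 x (hs hx)⟩) ?_ fun x hx => ?_
  · rintro S S' ⟨δ, h1, h2⟩ ⟨δ', h1', h2'⟩
    refine ⟨min δ δ', lt_min h1 h1', ?_⟩
    rintro x (hx | hx)
    · exact (h2 x hx).imp fun _ a => ⟨a.1, fun s hs => a.2 s (ball_subset_ball (min_le_left _ _) hs)⟩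
    · exact (h2' x hx).imp fun _ a =>
        ⟨a.1, fun s hs => a.2 s (ball_subset_ball (min_le_right _ _) hs)⟩
  · obtain ⟨i, z, hz, rfl⟩ := A.cover x
    obtain ⟨r, δ, Fl, hr, hδ, h1, -, h2⟩ := hH.loc hz (h hx)
    refine ⟨A.p i '' ball z r, mem_nhdsWithin_of_mem_nhds
      ((A.opn i _ isOpen_ball h1).mem_nhds ⟨z, mem_ball_self hr, rfl⟩), δ, hδ, ?_⟩
    rintro _ ⟨y, hy, rfl⟩
    exact ⟨_, by rw [(h2 y hy).1], fun s hs => ((h2 y hy).2 s hs).2.2.2⟩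

theorem Ham.exists_flow [T2Space X] (hH : Ham A U g φ) (hp : Prop0 A U g) :
    ∃ Φ, Flow A U g Φ := by
  have key : ∀ x, ∃ Φ : E n → X, x ∈ U → Φ 0 = x ∧ ∀ t, Sol A U g Φ t := fun x => by
    by_cases hx : x ∈ U
    swap
    · exact ⟨fun _ => x, fun h => (hx h).elim⟩
    obtain ⟨δ₀, hδ₀, h0⟩ := bpa5_unif hH isCompact_singleton (singleton_subset_iff.2 hx)
    obtain ⟨Φ₀, e₀, h₀⟩ := h0 x rfl
    obtain ⟨Φ, h2, h3⟩ := continuation (Sol A U g) (fun _ _ _ e h => h.congr e)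
      (fun _ _ _ _ a b c d e f => sol_eq hH.toHolU a b.isPreconnected c d e f.self_of_nhds) Φ₀
      (mem_of_superset (ball_mem_nhds 0 hδ₀) h₀) fun ρ => by
        obtain ⟨C, c1, c2, -, c3⟩ := hp x hx ρ
        obtain ⟨δ, hδ, h1⟩ := bpa5_unif hH c1 c2
        refine ⟨δ, hδ, fun r hr Φ e hΦ t ht => ?_⟩
        obtain ⟨Ψ, e1, h5⟩ := h1 (Φ t) (c3 r hr Φ (e.trans e₀) hΦ t ht)
        have h6 : ∀ s ∈ ball t δ, Sol A U g (fun u => Ψ (-t + u)) s := fun s hs =>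
          (h5 _ (by rwa [mem_ball_zero_iff, neg_add_eq_sub, ← mem_ball_iff_norm])).shift
        exact ⟨_, h6, (h6 t (mem_ball_self hδ)).uniq hH.toHolU (hΦ t ht) (by simpa using e1)⟩
    exact ⟨Φ, fun _ => ⟨h2.trans e₀, h3⟩⟩
  choose Φ hΦ using key
  exact ⟨Φ, fun x hx => (hΦ x hx).1, fun x hx => (hΦ x hx).2⟩

section

variable [T2Space X] {Φ : X → E n → X} {x : X}

omit [T2Space X] in
theorem flow_inv (hF : Flow A U g Φ) (hH : Ham A U g φ) (hx : x ∈ U) (τ : E n) :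
    g (Φ x τ) = g x ∧ φ (Φ x τ) = φ x := by
  have h := fun s => hH.const (hF.sol x hx s)
  have h1 := is_const_of_fderiv_eq_zero (fun s => (h s).2.differentiableAt)
    (fun s => (h s).2.fderiv) τ 0
  have h2 := is_const_of_fderiv_eq_zero (fun s => (h s).1.differentiableAt)
    (fun s => (h s).1.fderiv) τ 0
  rw [hF.zero x hx] at h1 h2
  exact ⟨h1, h2⟩

theorem bpa6_step (hF : Flow A U g Φ) (hH : Ham A U g φ) {j : A.ι} {y : E N}
    (hy : y ∈ (A.C j).W) (hU : A.p j y ∈ U) : ∃ r δ : ℝ, 0 < r ∧ 0 < δ ∧ ball y r ⊆ (A.C j).W ∧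
      ∀ {i : A.ι} {z : E N} {τ : E n} {G : E N → E N}, G z ∈ ball y r →
        (∀ᶠ w in 𝓝 z, DifferentiableAt ℂ G w ∧ A.p i w ∈ U ∧ A.p j (G w) = Φ (A.p i w) τ) →
        ∀ t ∈ ball τ δ, JL A Φ i z t := by
  obtain ⟨r, δ, Fl, hr, hδ, h1, h2, h3⟩ := hH.loc hy hU
  refine ⟨r, δ, hr, hδ, h1, fun {i z τ G} hG h4 t ht =>
    ⟨j, fun w => Fl (G w.1, w.2 - τ), ?_⟩⟩
  have h5 : ∀ᶠ w in 𝓝 z, G w ∈ ball y r :=
    h4.self_of_nhds.1.continuousAt.eventually (isOpen_ball.mem_nhds hG)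
  filter_upwards [continuousAt_fst.eventually (h4.and h5),
    continuousAt_snd.eventually (isOpen_ball.mem_nhds ht)] with w ⟨⟨a1, a2, a3⟩, a4⟩ a5
  have a6 : w.2 - τ ∈ ball (0 : E n) δ := by rwa [mem_ball_zero_iff, ← mem_ball_iff_norm]
  refine ⟨(h2.differentiableAt ((isOpen_ball.prod isOpen_ball).mem_nhds ⟨a4, a6⟩)).comp w
    ((a1.comp w differentiableAt_fst).prodMk (by fun_prop)), ((h3 _ a4).2 _ a6).1, ?_⟩
  have a7 : A.p j (G w.1) ∈ U := a3 ▸ (hF.sol _ a2 τ).mem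
  have a8 := sol_eq hH.toHolU isOpen_ball (convex_ball 0 δ).isPreconnected
    (fun s hs => ((h3 _ a4).2 s hs).2.2.2) (fun s _ => hF.sol _ a7 s) (mem_ball_self hδ)
    (by rw [(h3 _ a4).1, hF.zero _ a7]) a6
  refine a8.trans ?_
  rw [a3, hF.add hH.toHolU a2, add_sub_cancel]

theorem bpa6_jl (hF : Flow A U g Φ) (hH : Ham A U g φ) {i : A.ι} {z : E N}
    (hz : z ∈ (A.C i).W) (hU : A.p i z ∈ U) (τ : E n) : JL A Φ i z τ := by
  have hO : IsOpen {t | JL A Φ i z t} := isOpen_iff_mem_nhds.2 fun t ⟨j, F, h⟩ => by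
    have hc : ContinuousAt (fun s : E n => (z, s)) t := by fun_prop
    exact mem_of_superset (hc.eventually h.eventually_nhds) fun s hs => ⟨j, F, hs⟩
  have h0 : JL A Φ i z 0 := by
    obtain ⟨r, δ, hr, hδ, -, h⟩ := bpa6_step hF hH hz hU
    exact h (G := id) (mem_ball_self hr) ((hH.ev hz hU).mono fun w hw =>
      ⟨differentiableAt_id, hw.2, (hF.zero _ hw.2).symm⟩) 0 (mem_ball_self hδ)
  refine isPreconnected_univ.subset_of_closure_inter_subset hO ⟨0, trivial, h0⟩ ?_ (mem_univ τ)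
  rintro t ⟨ht, -⟩
  obtain ⟨j, y, hy, e⟩ := A.cover (Φ (A.p i z) t)
  obtain ⟨r, δ, hr, hδ, h1, h2⟩ := bpa6_step hF hH hy (e ▸ (hF.sol _ hU t).mem)
  have h3 : ∀ᶠ s in 𝓝 t, Φ (A.p i z) s ∈ A.p j '' ball y r :=
    (spident_cont A (hF.sol _ hU t).lift).eventually
      ((A.opn j _ isOpen_ball h1).mem_nhds ⟨y, mem_ball_self hr, e⟩)
  obtain ⟨s, ⟨⟨y', hy', e'⟩, hs⟩, k, F, h4⟩ :=
    mem_closure_iff_nhds.1 ht _ (h3.and (ball_mem_nhds t hδ))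
  have h5 := h4.self_of_nhds
  obtain ⟨O, c, c1, c2, c3, c4⟩ := A.trans k j _ h5.2.1 y' (h1 hy') (h5.2.2.trans e'.symm)
  have hc : ContinuousAt (fun w : E N => (w, s)) z := by fun_prop
  refine h2 (G := fun w => c (F (w, s))) (by rwa [c3]) ?_ t (mem_ball_comm.1 hs)
  filter_upwards [hc.eventually (h4.and (h5.1.continuousAt.eventually (c1.isOpen.mem_nhds c2))),
    hH.ev hz hU] with w ⟨a, b⟩ d
  exact ⟨(c1.hol.differentiableAt (c1.isOpen.mem_nhds b)).comp w (a.1.comp w (by fun_prop)), d.2,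
    (c4 _ b).trans a.2.2⟩

theorem flow_lift (hF : Flow A U g Φ) (hH : Ham A U g φ) {i : A.ι} {z : E N}
    (hz : z ∈ (A.C i).W) (hU : A.p i z ∈ U) (τ : E n) : ∃ (j : A.ι) (F : E N × E n → E N),
    ∀ᶠ w in 𝓝 (z, τ), DifferentiableAt ℂ F w ∧ F w ∈ (A.C j).W ∧
      A.p j (F w) = Φ (A.p i w.1) w.2 ∧ ∀ τ', fderiv ℂ F w (0, τ') = Vf A g j (F w) *ᵥ τ' := by
  obtain ⟨j, F, h⟩ := bpa6_jl hF hH hz hU τ
  refine ⟨j, F, ?_⟩
  filter_upwards [h.eventually_nhds, continuousAt_fst.eventually (hH.ev hz hU)] with w hw hw'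
  have h0 := hw.self_of_nhds
  refine ⟨h0.1, h0.2.1, h0.2.2, fun τ' => ?_⟩
  obtain ⟨f, e, hf⟩ := (hF.sol _ hw'.2 w.2).chart hH.toHolU h0.2.1 h0.2.2
  have hc : ContinuousAt (fun s : E n => (w.1, s)) w.2 := by fun_prop
  have h1 : (fun s => F (w.1, s)) =ᶠ[𝓝 w.2] f := by
    filter_upwards [hf, hc.eventually hw] with s a b
    exact hH.inj j b.2.1 a.1 (b.2.2.trans a.2.2.1.symm)
  have h2 := (h0.1.hasFDerivAt.comp w.2 (hasFDerivAt_prodMk_right w.1 w.2)).unique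
    (hf.self_of_nhds.2.2.2.congr_of_eventuallyEq h1)
  rw [e] at h2
  rw [← Vl_apply, ← h2]
  rfl

end

theorem sec_ham [T2Space X] {L : Line A} (S : Sec L n) (hc : IsPreconnected S.U)
    (hinj : ∀ i, InjOn (A.p i) (A.C i).W)
    (h1 : ∀ i, ∀ z ∈ (A.C i).W, A.p i z ∈ S.U → (Vf A S.g i z)ᵀ * (A.C i).η z = 0)
    (h2 : ∀ i, ∀ z ∈ (A.C i).W, A.p i z ∈ S.U →
      (((A.C i).σ z)⁻¹ *ᵥ dr (fun w => S.φ (A.p i w)) z) ᵥ* (A.C i).η z = 0) :
    Ham A S.U S.g S.φ := by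
  have hH := S.holU hinj
  obtain ⟨b, hb⟩ := S.T_ne
  obtain ⟨j, y, hy, he⟩ := A.cover (S.Ψ (b, 0))
  have hyU : A.p j y ∈ S.U := he ▸ S.tube_mem hb 0
  obtain ⟨χ, hχ⟩ := unif_inv S.unif S.T_open hy (w := (b, 0)) hb he
  have hV : ∀ w ∈ (A.C j).W, A.p j w ∈ S.U → ∀ τ,
      (Vf A S.g j w *ᵥ τ) ᵥ* (A.C j).η w = 0 := fun w hw hw' τ => by
    rw [← Matrix.vecMul_transpose, Matrix.vecMul_vecMul, h1 j w hw hw', Matrix.vecMul_zero]
  refine ⟨hH, fun i z hz hU => S.φ_smooth hz hU, fun i z hz hU => ?_,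
    fun i z hz hU => ?_⟩
  · ext l k
    refine bpa4_glue S.U_open hc (fun i z => (Jg A S.g i z * Vf A S.g i z) l k)
      (fun i j O φ hd he z hz hU => ?_) (fun i => ?_) hy hyU ?_ i z hz hU
    · rw [hH.Jg_law hd he hz hU, hH.Vf_law hd he hz hU, Matrix.mul_assoc]
    · simp only [Matrix.mul_apply]
      exact DifferentiableOn.fun_sum fun a _ => (hH.Jg_hol i l a).mul (hH.Vf_hol i a k)
    · filter_upwards [hχ] with w hw hw1 hw2
      have := null_iso hinj S.unif hw.2.1 hw1 hw.2.2.symm (hV w hw1 hw2 (Pi.single k 1))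
        (hV w hw1 hw2 (Pi.single l 1))
      rw [σ_Vf S.g hw1, Matrix.mulVec_mulVec, dotProduct_single_one,
        Matrix.mulVec_single_one] at this
      exact this
  · ext l
    refine bpa4_glue S.U_open hc
      (fun i z => (dr (fun w => S.φ (A.p i w)) z ᵥ* Vf A S.g i z) l)
      (fun i j O φ hd he z hz hU => ?_) (fun i => bpa4_hol S hinj i (h1 i) l) hy hyU ?_ i z hz hU
    · have e1 : (fun w => S.φ (A.p i w)) =ᶠ[𝓝 z] fun w => (fun x => S.φ (A.p j x)) (φ w) := by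
        filter_upwards [hd.isOpen.mem_nhds hz] with w hw
        rw [he w hw]
      have e2 := dr_comp ((S.φ_smooth (hd.maps hz) (by rwa [he z hz])).differentiableAt (by simp))
        (hd.hol.differentiableAt (hd.isOpen.mem_nhds hz))
      rw [(dr_congr e1).eq_of_nhds, e2, hH.Vf_law hd he hz hU, Matrix.vecMul_vecMul]
    · filter_upwards [hχ] with w hw hw1 hw2
      have := null_iso hinj S.unif hw.2.1 hw1 hw.2.2.symm (hV w hw1 hw2 (Pi.single l 1))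
        (h2 j w hw1 hw2)
      rw [Matrix.mulVec_mulVec, Matrix.mul_nonsing_inv _ ((A.C j).σ_det w hw1).isUnit,
        Matrix.one_mulVec, dotProduct_comm, Matrix.dotProduct_mulVec,
        dotProduct_single_one] at this
      exact this

end Pool.Agent.ZB
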