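import Pool.Agent.P.MP_63735c_ag.ZBA2
import Pool.Agent.P.MP_63735c_ag.ZBA5

/-! The quotients of bounded sections commute. -/

open scoped ComplexOrder ContDiff Matrix Topology ENNReal
open Set Metric MeasureTheory Filter

namespace Pool.Agent.ZB

open Pool.Agent.SPF Pool.Agent.AB Pool.Agent.CK Pool.Agent.SE Pool.Agent.NL Pool.Agent.BP
  Pool.Agent.CS

variable {N n : ℕ} {X : Type} [TopologicalSpace X] {A : Atlas X N} {L : Line A} {i : A.ι}
  {z : E N} {K : Form11 A}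

/-- The atlas with `η` replaced by `K`. -/
def atK (K : Form11 A) (hK : ∀ i, ∀ z ∈ (A.C i).W, (K.h i z).PosDef) : Atlas X N where
  ι := A.ι
  C i := { A.C i with
    η := K.h i
    η_smooth := K.smooth i
    η_psd := fun z hz => (hK i z hz).posSemidef
    η_closed := K.closed i }
  p := A.p
  G := A.G
  cont := A.cont
  opn := A.opn
  cover := A.cover
  trans i j z hz y hy he := by
    obtain ⟨O, φ, h1, h2, h3, h4⟩ := A.trans i j z hz y hy he
    exact ⟨O, φ, ⟨h1.isOpen, h1.sub, h1.hol, h1.maps, h1.σ_eq, K.compat i j O φ h1 h4⟩, h2, h3, h4⟩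
  G_fin := A.G_fin
  G_iso i g hg := by
    obtain ⟨h1, h2⟩ := A.G_iso i g hg
    exact ⟨⟨h1.isOpen, h1.sub, h1.hol, h1.maps, h1.σ_eq, K.compat i i _ g h1 h2⟩, h2⟩
  G_fib := A.G_fib

theorem sec_φ_bd (S : Sec L n) (hb : ∃ b, ∀ x, nrm L S.m (S.s 0) x ≤ b) :
    ∃ c, ∀ x ∈ S.U, c ≤ S.φ x := by
  obtain ⟨M, hM⟩ := hb
  refine ⟨-Real.log M, fun x hU => neg_le_neg ?_⟩
  exact Real.log_le_log (lt_of_le_of_ne (sect_nonneg (nrm_norm (S.sec 0)) x) (Ne.symm hU)) (hM x)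

theorem sec_φ_le (S : Sec L n) (c : ℝ) (x : X) :
    x ∈ S.U ∧ S.φ x ≤ c ↔ Real.exp (-c) ≤ nrm L S.m (S.s 0) x := by
  constructor
  · rintro ⟨hU, hc⟩
    have h0 := lt_of_le_of_ne (sect_nonneg (nrm_norm (S.sec 0)) x) (Ne.symm hU)
    exact (Real.le_log_iff_exp_le h0).1 (neg_le.1 hc)
  · intro hx
    have h0 := (Real.exp_pos _).trans_le hx
    exact ⟨h0.ne', neg_le.1 ((Real.le_log_iff_exp_le h0).2 hx)⟩

theorem sec_closed (S : Sec L n) (c : ℝ) : IsClosed {x | x ∈ S.U ∧ S.φ x ≤ c} := by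
  simp only [sec_φ_le]
  exact isClosed_le continuous_const (sect_cont (nrm_norm (S.sec 0)))

theorem sec_conn [T2Space X] [PreconnectedSpace X] (S : Sec L n)
    (hinj : ∀ i, InjOn (A.p i) (A.C i).W) (hK : ∀ i, ∀ z ∈ (A.C i).W, (K.h i z).PosDef)
    (b11 : Bd11 A K) (hl : ∃ l C, HX.Lam (man A hinj isOpen_univ) K.h l C)
    (hb : ∃ b, ∀ x, nrm L S.m (S.s 0) x ≤ b) : IsPreconnected S.U := by
  obtain ⟨c, hc⟩ := sec_φ_bd S hb
  obtain ⟨b, hb⟩ := S.T_ne
  obtain ⟨l, C, hl⟩ := hl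
  obtain ⟨D, hD, hD'⟩ := b11
  have hW : ∀ i, (man A hinj isOpen_univ).W i = (A.C i).W := fun i => inter_univ _
  have l1 : ∀ i, ∀ z ∈ (A.C i).W, ContDiffAt ℝ ∞ (fun z => l (A.p i z)) z := fun i z hz =>
    ContDiffOn.contDiffAt (s := (A.C i).W) (hW i ▸ hl.smo i) ((A.C i).isOpen.mem_nhds hz)
  have l2 : Continuous l := by
    have h1 := Man.contOn (D := man A hinj isOpen_univ) (w := l) fun i => (hl.smo i).continuousOn
    rwa [man_M, continuousOn_univ] at h1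
  have hC := hl.C_nonneg
  refine PolX.conn (A := atK K hK) (ψ := fun x => c - 1 + (-1 * S.φ x + -1 * l x))
    ⟨S.U_open, ⟨_, S.tube_mem hb 0⟩, fun i z hz hU => contDiffAt_const.add
      ((contDiffAt_const.mul (S.φ_smooth hz hU)).add (contDiffAt_const.mul (l1 i z hz))),
    fun x hx => ?_, ⟨S.m * D + C, by positivity, fun i z hz hU v => ?_⟩, fun d => ?_⟩
  · have := hc x hx
    have := hl.nonneg x
    linarith
  · have a1 := S.φ_smooth hz hU
    have a2 := l1 i z hz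
    have a3 := hl.le i z (hW i ▸ hz) v
    have a4 := (le_abs_self _).trans (hD' i z hz v)
    rw [bpb8_ev, bpb8_ev] at a4
    have a5 := mul_le_mul_of_nonneg_left a4 (Nat.cast_nonneg (α := ℝ) S.m)
    change -(_ * hr (K.h i z) v) ≤
      hr (lev (fun w => c - 1 + (-1 * S.φ (A.p i w) + -1 * l (A.p i w))) z) v
    rw [hr, hr, lev_add contDiffAt_const ((contDiffAt_const.mul a1).add (contDiffAt_const.mul a2)),
      lev_const, zero_add, lev_add (contDiffAt_const.mul a1) (contDiffAt_const.mul a2),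
      lev_smul a1, lev_smul a2, S.φ_lev hz hU, hq_add, hq_smul, hq_smul, hq_smul,
      ← Complex.ofReal_natCast, Complex.add_re, Complex.re_ofReal_mul, Complex.re_ofReal_mul,
      Complex.re_ofReal_mul]
    have a6 : (hq (lev (fun w => l (A.p i w)) z) v v).re ≤ C * (hq (K.h i z) v v).re :=
      le_trans (le_add_of_nonneg_right (sq_nonneg _)) a3
    simp only [hr] at a5
    linarith
  · obtain ⟨T, hT, hT'⟩ := hl.proper d
    have h1 : ContinuousOn (fun x => c - 1 + (-1 * S.φ x + -1 * l x))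
        {x | x ∈ S.U ∧ S.φ x ≤ c + d} :=
      continuousOn_const.add ((continuousOn_const.mul ((sect_cont (nrm_norm (S.sec 0))).continuousOn.log
        fun x hx => hx.1).neg).add (continuous_const.mul l2).continuousOn)
    have h2 := h1.preimage_isClosed_of_isClosed (sec_closed S _) (isClosed_Ici (a := -d))
    refine hT.of_isClosed_subset ((congrArg IsClosed (Subset.antisymm ?_ ?_)).mp h2) fun x hx => ?_
    · exact fun x hx => ⟨hx.1.1, hx.2⟩
    · exact fun x hx => ⟨⟨hx.1, by linarith [hx.2, hl.nonneg x]⟩, hx.2⟩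
    · by_contra h
      linarith [hT' x h, hx.2, hc x hx.1]

theorem sec_null' (S : Sec L n)
    (h1 : ∀ l, (((A.C i).σ z)⁻¹ *ᵥ cov1 S.m (L.ψ i) (S.s l i) z) ᵥ* (A.C i).η z = 0) (hz : z ∈ (A.C i).W) (hU : A.p i z ∈ S.U) :
    (Vf A S.g i z)ᵀ * (A.C i).η z = 0 ∧
      (((A.C i).σ z)⁻¹ *ᵥ dr (fun w => S.φ (A.p i w)) z) ᵥ* (A.C i).η z = 0 := by
  have h0 := (S.U_iff hz).1 hU
  refine ⟨?_, ?_⟩
  · ext l b
    have h2 : Jg A S.g i z l = (S.s 0 i z ^ 2)⁻¹ • (S.s 0 i z • cov1 S.m (L.ψ i) (S.s l.succ i) z -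
        S.s l.succ i z • cov1 S.m (L.ψ i) (S.s 0 i) z) := by
      funext a
      have h3 := S.Jg_eq hz hU l a
      simp only [Pi.smul_apply, Pi.sub_apply, smul_eq_mul, cov1]
      rw [eq_inv_mul_iff_mul_eq₀ (pow_ne_zero 2 h0), h3]
      ring
    have h4 : ((Vf A S.g i z)ᵀ * (A.C i).η z) l b =
        ((((A.C i).σ z)⁻¹ *ᵥ Jg A S.g i z l) ᵥ* (A.C i).η z) b := rfl
    rw [h4, h2, Matrix.mulVec_smul, Matrix.mulVec_sub, Matrix.mulVec_smul, Matrix.mulVec_smul,
      Matrix.smul_vecMul, Matrix.sub_vecMul, Matrix.smul_vecMul, Matrix.smul_vecMul, h1, h1]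
    simp
  · rw [S.dr_φ hz hU, Matrix.mulVec_smul, Matrix.smul_vecMul, h1, smul_zero]

theorem sec_ham' [T2Space X] [PreconnectedSpace X] [MeasurableSpace X] [BorelSpace X]
    {μ : Measure X} [IsFiniteMeasure μ] (S : Sec L n) (hinj : ∀ i, InjOn (A.p i) (A.C i).W)
    (hμ : IsVolume A μ) (hI : ∀ i, (A.C i).Iso) (hK : ∀ i, ∀ z ∈ (A.C i).W, (K.h i z).PosDef)
    (b20 : Bd20 A K) (b11 : Bd11 A K) (hl : ∃ l C, HX.Lam (man A hinj isOpen_univ) K.h l C)
    (hb : ∀ l, ∃ b, ∀ x, nrm L S.m (S.s l) x ≤ b) : Ham A S.U S.g S.φ ∧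
      ∀ i, ∀ z ∈ (A.C i).W, A.p i z ∈ S.U → (Vf A S.g i z)ᵀ * (A.C i).η z = 0 := by
  have h1 := fun i z hz hU => sec_null' (i := i) (z := z) S
    (fun l => sec_null0 hinj hμ hI hK b20 b11 hl (S.sec l) (hb l) hz) hz hU
  exact ⟨sec_ham S (sec_conn S hinj hK b11 hl (hb 0)) hinj (fun i z hz hU => (h1 i z hz hU).1)
    fun i z hz hU => (h1 i z hz hU).2, fun i z hz hU => (h1 i z hz hU).1⟩

/-- The points where the Hamiltonian fields are independent. -/
def Ur (S : Sec L n) (K : Form11 A) : Set X := {x | x ∈ S.U ∧ (S.h K x).PosDef}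

theorem h_cont (S : Sec L n) (hinj : ∀ i, InjOn (A.p i) (A.C i).W) (K : Form11 A) :
    ContinuousOn (S.h K) S.U := by
  have h1 := Man.contOn (D := man A hinj S.U_open) (w := S.h K) fun i =>
    continuousOn_pi.2 fun a => continuousOn_pi.2 fun b => ContinuousOn.congr
      (f := fun w => ∑ d, (∑ c, Vf A S.g i w c a * K.h i w c d) * star (Vf A S.g i w d b))
      (continuousOn_finsetSum _ fun d _ => (continuousOn_finsetSum _ fun c _ =>
        ((S.holU hinj).Vf_hol i c a).continuousOn.mul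
          ((K.smooth i c d).continuousOn.mono inter_subset_left)).mul
            ((S.holU hinj).Vf_hol i d b).continuousOn.star)
      fun w hw => congrFun (congrFun (S.h_eq hinj K hw.1 hw.2) a) b
  rwa [man_M] at h1

theorem det_cont' (S : Sec L n) (hinj : ∀ i, InjOn (A.p i) (A.C i).W) (K : Form11 A) :
    ContinuousOn (fun x => (S.h K x).det.re) S.U :=
  Complex.continuous_re.comp_continuousOn
    (continuous_id.matrix_det.comp_continuousOn (h_cont S hinj K))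

theorem h_psd (S : Sec L n) (hinj : ∀ i, InjOn (A.p i) (A.C i).W)
    (hK : ∀ i, ∀ z ∈ (A.C i).W, (K.h i z).PosDef) {x : X} (hx : x ∈ S.U) :
    (S.h K x).PosSemidef := by
  obtain ⟨i, z, hz, rfl⟩ := A.cover x
  rw [S.h_eq hinj K hz hx]
  exact bpb8a_psd (hK i z hz).posSemidef _

theorem mem_Ur (S : Sec L n) (hinj : ∀ i, InjOn (A.p i) (A.C i).W)
    (hK : ∀ i, ∀ z ∈ (A.C i).W, (K.h i z).PosDef) {x : X} :
    x ∈ Ur S K ↔ x ∈ S.U ∧ 0 < (S.h K x).det.re :=
  and_congr_right fun hx => ⟨fun h => (Complex.pos_iff.1 h.det_pos).1, fun h =>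
    (h_psd S hinj hK hx).posDef_iff_det_ne_zero.2 fun h0 => by
      rw [h0, Complex.zero_re] at h
      exact h.false⟩

theorem Ur_open (S : Sec L n) (hinj : ∀ i, InjOn (A.p i) (A.C i).W)
    (hK : ∀ i, ∀ z ∈ (A.C i).W, (K.h i z).PosDef) : IsOpen (Ur S K) := by
  rw [show Ur S K = S.U ∩ (fun x => (S.h K x).det.re) ⁻¹' Ioi 0 from
    Set.ext fun x => mem_Ur S hinj hK]
  exact (det_cont' S hinj K).isOpen_inter_preimage S.U_open isOpen_Ioi

end Pool.Agent.ZB
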