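import Pool.Agent.P.MP_63735c_ag.BPT4b
import Pool.Agent.P.MP_63735c_ag.BPC1

/-! The divergence theorem off a pluripolar set. -/

open scoped ComplexOrder ContDiff Matrix Topology ENNReal
open Set Metric MeasureTheory Filter

namespace Pool.Agent.ZB

open Pool.Agent.BP Pool.Agent.SPF Pool.Agent.AB Pool.Agent.CK Pool.Agent.SE Pool.Agent.NL

variable {N : ℕ} {z₀ : E N} {R : ℝ} {W : Set (E N)} {ψ : E N → ℝ}

theorem pol_div0 (h : Pol z₀ R W ψ) {V : E N → E N} (hV : ContDiffOn ℝ ∞ V W) {B : ℝ}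
    (hb : ∀ z ∈ W, ‖V z‖ ≤ B ∧ ‖dv V z‖ ≤ B)
    (h0 : ∀ z ∈ W, z ∉ closedBall z₀ (R / 64) → V z = 0) : ∫ z in W, dv V z = 0 := by
  have hR := h.R_pos
  obtain ⟨w, hw⟩ := h.ne
  have hB : 0 ≤ B := (norm_nonneg _).trans (hb w hw.1).1
  have hO := h.isOpen.inter (isOpen_ball (x := z₀) (ε := R / 32))
  have hm := hO.measurableSet
  set O := W ∩ ball z₀ (R / 32) with hOd
  have hOs : O ⊆ ball z₀ (R / 32) := inter_subset_right
  have hbR : ball z₀ (R / 32) ⊆ ball z₀ R := ball_subset_ball (by linarith)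
  have hcb : closedBall z₀ (R / 64) ⊆ ball z₀ (R / 32) := closedBall_subset_ball (by linarith)
  have hVa : ∀ a, ContDiffOn ℝ ∞ (fun y => V y a) W := fun a => contDiffOn_pi.1 hV a
  have hVO : ContDiffOn ℝ ∞ V O := hV.mono inter_subset_left
  have e0 : ∫ z in W, dv V z = ∫ z in O, dv V z := by
    refine setIntegral_eq_of_subset_of_forall_sdiff_eq_zero h.isOpen.measurableSet
      inter_subset_left fun z hz => Finset.sum_eq_zero fun a _ => ?_
    exact (dz_zero_off h.isOpen isClosed_closedBall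
      (fun y h1 h2 => by rw [h0 y h1 h2]; rfl) a z hz.1 fun hc => hz.2 ⟨hz.1, hcb hc⟩).1
  rw [e0]
  have hf : volume O ≠ ⊤ := ((measure_mono hOs).trans_lt measure_ball_lt_top).ne
  have cd : ContinuousOn (dv V) O := continuousOn_finsetSum _ fun a _ =>
    ((dz_smooth h.isOpen (hVa a) a).1.continuousOn).mono inter_subset_left
  have hδ : ∀ n : ℕ, (0 : ℝ) < 1 / (n + 1) := fun n => by positivity
  choose θ c sθ h01 hone hsupp hint using fun n : ℕ => h.cut n (pow_pos (hδ n) 2)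
  have sΘ : ∀ n, ContDiffOn ℝ ∞ (fun y => (θ n y : ℂ)) O :=
    fun n => ofReal_smooth ((sθ n).mono (hOs.trans hbR))
  have nΘ : ∀ n y, ‖(θ n y : ℂ)‖ ≤ 1 := fun n y => by
    rw [Complex.norm_real, Real.norm_eq_abs, abs_of_nonneg (h01 n y).1]
    exact (h01 n y).2
  have bΘ : ∀ n, ∀ᵐ z ∂volume.restrict O, ‖(θ n z : ℂ) * dv V z‖ ≤ B := fun n =>
    (ae_restrict_iff' hm).2 (Eventually.of_forall fun z hz => by
      rw [norm_mul]
      exact (mul_le_of_le_one_left (norm_nonneg _) (nΘ n z)).trans (hb z hz.1).2)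
  have mΘ : ∀ n, AEStronglyMeasurable (fun z => (θ n z : ℂ) * dv V z) (volume.restrict O) :=
    fun n => ((sΘ n).continuousOn.mul cd).aestronglyMeasurable hm
  have t1 : Tendsto (fun n => ∫ z in O, (θ n z : ℂ) * dv V z) atTop (𝓝 (∫ z in O, dv V z)) := by
    refine tendsto_integral_of_dominated_convergence _ mΘ (integrableOn_const (C := B) hf) bΘ
      ((ae_restrict_iff' hm).2 (Eventually.of_forall fun z hz => ?_))
    refine tendsto_const_nhds.congr' ?_
    filter_upwards [tendsto_natCast_atTop_atTop.eventually_ge_atTop (-ψ z)] with n hn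
    rw [hone n z hz.1 (by linarith), Complex.ofReal_one, one_mul]
  refine tendsto_nhds_unique t1 (squeeze_zero_norm
    (a := fun n : ℕ => N * B * (volume.real O + 1) * (1 / (n + 1))) (fun n => ?_) ?_)
  swap
  · simpa using (tendsto_one_div_add_atTop_nhds_zero_nat (𝕜 := ℝ)).const_mul
      (N * B * (volume.real O + 1))
  have hC : IsCompact (closedBall z₀ (R / 64) ∩ closure {y | y ∈ W ∧ -c n ≤ ψ y}) :=
    (isCompact_closedBall _ _).inter_right isClosed_closure
  have hCO : closedBall z₀ (R / 64) ∩ closure {y | y ∈ W ∧ -c n ≤ ψ y} ⊆ O := fun z hz =>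
    ⟨h.closed _ z (hbR (hcb hz.1)) hz.2, hcb hz.1⟩
  have hp : ∀ a, ContDiffOn ℝ ∞ (fun y => (θ n y : ℂ) * V y a) O := fun a =>
    (sΘ n).mul ((hVa a).mono inter_subset_left)
  have hp0 : ∀ a, ∀ z ∈ O, z ∉ closedBall z₀ (R / 64) ∩ closure {y | y ∈ W ∧ -c n ≤ ψ y} →
      (θ n z : ℂ) * V z a = 0 := fun a z hzO hz => by
    by_cases hr0 : z ∈ closedBall z₀ (R / 64)
    · by_cases hθ : θ n z = 0
      · rw [hθ, Complex.ofReal_zero, zero_mul]
      · exact absurd ⟨hr0, subset_closure (hsupp n z hθ)⟩ hz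
    · rw [h0 z hzO.1 hr0, Pi.zero_apply, mul_zero]
  have j1 : ∀ a, IntegrableOn (dz a fun y => (θ n y : ℂ) * V y a) O volume := fun a =>
    intOn hO hC hCO (dz_smooth hO (hp a) a).1.continuousOn
      fun z h1 h2 => (dz_zero_off hO hC.isClosed (hp0 a) a z h1 h2).1
  have e1 : ∫ z in O, dv (fun y => (θ n y : ℂ) • V y) z = 0 := by
    exact (integral_finsetSum _ fun a _ => j1 a).trans
      (Finset.sum_eq_zero fun a _ => (int_dz hO hC hCO (hp a) (hp0 a) a).1)
  have j2 : IntegrableOn (dv fun y => (θ n y : ℂ) • V y) O volume :=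
    integrable_finsetSum _ fun a _ => j1 a
  have j0 : IntegrableOn (fun z => (θ n z : ℂ) * dv V z) O volume :=
    Integrable.mono' (integrableOn_const (C := B) hf) (mΘ n) (bΘ n)
  have cθ : ContinuousOn (fun z => ‖fderiv ℝ (θ n) z‖ ^ 2) (closedBall z₀ (R / 32)) :=
    ((((sθ n).continuousOn_fderiv_of_isOpen isOpen_ball (by simp)).norm).pow 2).mono
      (closedBall_subset_ball (by linarith))
  have j3 : IntegrableOn (fun z => ‖fderiv ℝ (θ n) z‖ ^ 2) (ball z₀ (R / 32)) volume :=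
    (cθ.integrableOn_compact (isCompact_closedBall _ _)).mono_set ball_subset_closedBall
  have j4 : ∫ z in O, ‖fderiv ℝ (θ n) z‖ ^ 2 ≤ (1 / (n + 1)) ^ 2 :=
    (setIntegral_mono_set j3 (Eventually.of_forall fun z => sq_nonneg _)
      hOs.eventuallyLE).trans (hint n)
  have j5 := j3.mono_set hOs
  have hn : (0 : ℝ) < n + 1 := by positivity
  have hbd : ∀ z ∈ O, ‖(θ n z : ℂ) * dv V z - dv (fun y => (θ n y : ℂ) • V y) z‖ ≤
      N * B * (1 / (n + 1) + (n + 1) * ‖fderiv ℝ (θ n) z‖ ^ 2) := fun z hz => by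
    have hd := diffAt isOpen_ball (sθ n) (hbR (hOs hz))
    have g1 : ∀ a, ‖dr (θ n) z a‖ ≤ ‖fderiv ℝ (θ n) z‖ := fun a => by
      refine (dz_norm_le _ z a).1.trans ?_
      have := (Complex.ofRealCLM.hasFDerivAt.comp z hd.hasFDerivAt).fderiv
      have e2 : (fun y => (θ n y : ℂ)) = ⇑Complex.ofRealCLM ∘ θ n := rfl
      rw [e2, this]
      refine (ContinuousLinearMap.opNorm_comp_le _ _).trans ?_
      rw [Complex.ofRealCLM_norm, one_mul]
    have g2 : ‖fderiv ℝ (θ n) z‖ ≤ 1 / (n + 1) + (n + 1) * ‖fderiv ℝ (θ n) z‖ ^ 2 := by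
      refine le_of_mul_le_mul_left ?_ hn
      have e : ((n : ℝ) + 1) * (1 / (n + 1) + (n + 1) * ‖fderiv ℝ (θ n) z‖ ^ 2) =
          1 + ((n + 1) * ‖fderiv ℝ (θ n) z‖) ^ 2 := by field_simp
      rw [e]
      nlinarith [sq_nonneg (1 - (n + 1) * ‖fderiv ℝ (θ n) z‖),
        sq_nonneg ((n + 1) * ‖fderiv ℝ (θ n) z‖)]
    rw [dv_smul hd (diffAt hO hVO hz), sub_add_cancel_right, norm_neg, dotProduct]
    calc _ ≤ ∑ _a : Fin N, ‖fderiv ℝ (θ n) z‖ * B :=
          (norm_sum_le _ _).trans (Finset.sum_le_sum fun a _ => by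
            rw [norm_mul]
            exact mul_le_mul (g1 a) ((norm_le_pi_norm (V z) a).trans (hb z hz.1).1)
              (norm_nonneg _) (norm_nonneg _))
      _ = N * B * ‖fderiv ℝ (θ n) z‖ := by simp; ring
      _ ≤ _ := mul_le_mul_of_nonneg_left g2 (by positivity)
  have j6 : IntegrableOn (fun z => N * B * (1 / ((n : ℝ) + 1) +
      (n + 1) * ‖fderiv ℝ (θ n) z‖ ^ 2)) O volume :=
    ((integrableOn_const hf).add (j5.const_mul _)).const_mul _
  rw [← sub_zero (∫ z in O, (θ n z : ℂ) * dv V z), ← e1, ← integral_sub j0 j2]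
  refine (norm_integral_le_of_norm_le j6 ((ae_restrict_iff' hm).2
    (Eventually.of_forall hbd))).trans ?_
  have j7 : Integrable (fun _ : E N => 1 / ((n : ℝ) + 1)) (volume.restrict O) :=
    integrableOn_const hf
  rw [integral_const_mul, integral_add j7 (j5.const_mul _), integral_const_mul,
    setIntegral_const, smul_eq_mul, mul_assoc (N * B)]
  refine mul_le_mul_of_nonneg_left ?_ (by positivity)
  have g := mul_le_mul_of_nonneg_left j4 hn.le
  have e : ((n : ℝ) + 1) * (1 / (n + 1)) ^ 2 = 1 / (n + 1) := by field_simp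
  rw [e] at g
  linarith

end Pool.Agent.ZB
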