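import Pool.Agent.P.MP_63735c_ag.ZBB6
import Pool.Agent.P.MP_63735c_ag.BPT11

/-! The special Kähler metric. -/

open scoped ComplexOrder ContDiff Matrix Topology ENNReal
open Set Metric MeasureTheory Filter

namespace Pool.Agent.ZB

open Pool.Agent.BP Pool.Agent.SPF Pool.Agent.AB Pool.Agent.CK Pool.Agent.SE Pool.Agent.NL

variable {N n : ℕ} {X : Type} [TopologicalSpace X] {A : Atlas X N} {K : Form11 A} {L : Line A}
  {S : Sys K L n} {Y : Type} [TopologicalSpace Y] (B : Base S Y)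

namespace Base

/-- `F` is a smooth lift of `Θ` near `w`. -/
def Lf (k : B.ι) (j : A.ι) (F : E n × (Fin N → ℝ) → E N) (w : E n × (Fin N → ℝ)) : Prop :=
  ∀ᶠ y in 𝓝 w, y.1 ∈ B.W k ∧ ContDiffAt ℝ ∞ F y ∧ F y ∈ (A.C j).W ∧ A.p j (F y) = B.Θ k y.1 y.2

theorem bpb7_glob {ϖ : A.ι → E N → E N → E N → ℂ}
    (hq2 : ∀ i j O φ, IsChange (A.C i) (A.C j) O φ → (∀ w ∈ O, A.p j (φ w) = A.p i w) →
      ∀ z ∈ O, ∀ u v, ϖ i z u v = ϖ j (φ z) (jac φ z *ᵥ u) (jac φ z *ᵥ v))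
    (hs : ∀ j, ∀ z ∈ (A.C j).W, ∀ u v,
      ContDiffAt ℝ ∞ (fun q : E N × E N × E N => ϖ j q.1 q.2.1 q.2.2) (z, u, v))
    (k : B.ι) (u v : E n × (Fin N → ℝ)) : ∃ G : E n × (Fin N → ℝ) → ℂ,
      (∀ j F w, B.Lf k j F w → G =ᶠ[𝓝 w] fun y => ϖ j (F y) (fderiv ℝ F y u) (fderiv ℝ F y v)) ∧
      ContDiffOn ℝ ∞ G (B.W k ×ˢ univ) ∧ ∀ b ∈ B.W k, ∀ s,
        IntegrableOn (fun t => fderiv ℝ G (b, t) (0, s)) (cube N) ∧
        ∫ t in cube N, fderiv ℝ G (b, t) (0, s) = 0 := by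
  have h1 : ∀ w, ∃ c, ∀ j F, B.Lf k j F w →
      c = ϖ j (F w) (fderiv ℝ F w u) (fderiv ℝ F w v) := fun w => by
    by_cases h : ∃ i F, B.Lf k i F w
    · obtain ⟨i, F, hF⟩ := h
      refine ⟨ϖ i (F w) (fderiv ℝ F w u) (fderiv ℝ F w v), fun j F' hF' => ?_⟩
      have a := hF.self_of_nhds
      have a' := hF'.self_of_nhds
      obtain ⟨O, φ, c1, c2, c3, c4⟩ := A.trans i j _ a.2.2.1 _ a'.2.2.1 (a.2.2.2.trans a'.2.2.2.symm)
      have he : F' =ᶠ[𝓝 w] φ ∘ F := by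
        filter_upwards [hF, hF', a.2.1.continuousAt.eventually (c1.isOpen.mem_nhds c2)]
          with y p1 p2 p3
        exact S.inj j p2.2.2.1 (c1.maps p3) (p2.2.2.2.trans (p1.2.2.2.symm.trans (c4 _ p3).symm))
      have hd := ((c1.lin3_diff c2).hasFDerivAt.restrictScalars ℝ).comp w
        (a.2.1.differentiableAt (by simp)).hasFDerivAt
      rw [hq2 i j O φ c1 c4 _ c2, c3, he.fderiv_eq, hd.fderiv, jac_mulVec, jac_mulVec]
      rfl
    · exact ⟨0, fun j F hF => (h ⟨j, F, hF⟩).elim⟩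
  choose G hG using h1
  have h2 : ∀ j F w, B.Lf k j F w →
      G =ᶠ[𝓝 w] fun y => ϖ j (F y) (fderiv ℝ F y u) (fderiv ℝ F y v) := fun j F w h =>
    (Filter.Eventually.eventually_nhds h).mono fun y hy => hG y j F hy
  have h3 : ∀ b ∈ B.W k, ∀ t, ∃ j F, B.Lf k j F (b, t) := fun b hb t => by
    obtain ⟨j, F, hF⟩ := B.Θ_lift hb t
    exact ⟨j, F, hF.mono fun y hy => ⟨hy.1, hy.2.1, hy.2.2.1, hy.2.2.2.1⟩⟩
  have h4 : ∀ b ∈ B.W k, ∀ t, ContDiffAt ℝ ∞ G (b, t) := fun b hb t => by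
    obtain ⟨j, F, hF⟩ := h3 b hb t
    have a := hF.self_of_nhds
    have d : ContDiffAt ℝ ∞ (fderiv ℝ F) (b, t) := a.2.1.fderiv_right (by simp)
    have d' : ContDiffAt ℝ ∞ (fun y => (F y, fderiv ℝ F y u, fderiv ℝ F y v)) (b, t) :=
      a.2.1.prodMk ((d.clm_apply contDiffAt_const).prodMk (d.clm_apply contDiffAt_const))
    have d2 := ContDiffAt.comp (b, t) (g := fun q : E N × E N × E N => ϖ j q.1 q.2.1 q.2.2)
      (hs j _ a.2.2.1 _ _) d'
    exact d2.congr_of_eventuallyEq (h2 j F _ hF)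
  refine ⟨G, h2, fun w hw => (h4 w.1 hw.1 w.2).contDiffWithinAt, fun b hb s => ?_⟩
  have h5 : ContDiff ℝ ∞ fun t => G (b, t) := contDiff_iff_contDiffAt.2 fun t =>
    (h4 b hb t).comp t (contDiffAt_const.prodMk contDiffAt_id)
  have h6 : ∀ t, fderiv ℝ G (b, t) (0, s) = fderiv ℝ (fun t => G (b, t)) t s := fun t => by
    have := ((h4 b hb t).differentiableAt (by simp)).hasFDerivAt.comp t
      (hasFDerivAt_prodMk_right b t)
    exact (congrArg (fun T : (Fin N → ℝ) →L[ℝ] ℂ => T s) this.fderiv).symm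
  simp only [h6]
  refine ⟨cube_int ((h5.continuous_fderiv (by simp)).clm_apply continuous_const),
    cube_deriv (h5.of_le (by exact_mod_cast le_top)) (fun t q => ?_) s⟩
  obtain ⟨j, F, hF⟩ := h3 b hb (t + fun j => (q j : ℝ))
  set c : E n × (Fin N → ℝ) := (0, fun j => (q j : ℝ)) with hc
  have e : (b, t) + c = (b, t + fun j => (q j : ℝ)) := by simp [hc]
  have ht : Tendsto (fun y => y + c) (𝓝 (b, t)) (𝓝 (b, t + fun j => (q j : ℝ))) :=
    e ▸ (continuous_add_const c).continuousAt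
  have hF' : B.Lf k j (fun y => F (y + c)) (b, t) := by
    filter_upwards [ht.eventually hF] with y hy
    have e1 : (y + c).1 = y.1 := add_zero _
    rw [e1] at hy
    exact ⟨hy.1, hy.2.1.comp y (contDiffAt_id.add contDiffAt_const), hy.2.2.1,
      hy.2.2.2.trans (B.Θ_per hy.1 y.2 q)⟩
  rw [hG _ j F hF, hG _ j _ hF', fderiv_comp_add_right, e]

theorem bpb7_tri {M : E N → Mat N} {W : Set (E N)} (hW : IsOpen W)
    (hM : ∀ a b, ContDiffOn ℝ ∞ (fun z => M z a b) W) {z : E N} (hz : z ∈ W)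
    {f g : E N × E N × E N → E N} (hf : ContDiff ℝ ∞ f) (hg : ContDiff ℝ ∞ g) (u v : E N) :
    ContDiffAt ℝ ∞ (fun q : E N × E N × E N => f q ⬝ᵥ M q.1 *ᵥ g q) (z, u, v) := by
  simp only [dotProduct, Matrix.mulVec]
  exact ContDiffAt.sum fun a _ => (contDiff_pi.1 hf a).contDiffAt.mul (ContDiffAt.sum fun b _ =>
    (ContDiffAt.comp (f := Prod.fst) (z, u, v) ((hM a b).contDiffAt (hW.mem_nhds hz))
      contDiffAt_fst).mul (contDiff_pi.1 hg b).contDiffAt)

theorem bpb7_K (k : B.ι) (u v : E n × (Fin N → ℝ)) : ∃ G : E n × (Fin N → ℝ) → ℂ,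
    (∀ j F w, B.Lf k j F w →
      G =ᶠ[𝓝 w] fun y => k2 (K.h j (F y)) (fderiv ℝ F y u) (fderiv ℝ F y v)) ∧
    ContDiffOn ℝ ∞ G (B.W k ×ˢ univ) ∧ ∀ b ∈ B.W k, ∀ s,
      IntegrableOn (fun t => fderiv ℝ G (b, t) (0, s)) (cube N) ∧
      ∫ t in cube N, fderiv ℝ G (b, t) (0, s) = 0 := by
  have hs : ContDiff ℝ ∞ fun z : E N => star z :=
    contDiff_pi.2 fun a => Complex.conjCLE.contDiff.comp (contDiff_apply ℝ ℂ a)
  refine B.bpb7_glob (ϖ := fun j z => k2 (K.h j z)) (fun i j O φ h1 h2 z hz u v => ?_)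
    (fun j z hz u v => ?_) k u v
  · simp only [k2, K.compat i j O φ h1 h2 z hz, hq_conj]
  · exact (bpb7_tri (A.C j).isOpen (K.smooth j) hz contDiff_snd.fst
      (hs.comp contDiff_snd.snd) u v).sub (bpb7_tri (A.C j).isOpen (K.smooth j) hz
        contDiff_snd.snd (hs.comp contDiff_snd.fst) u v)

theorem lam_closed {k : B.ι} {b : E n} (hb : b ∈ B.W k) (a c : Fin n) (j : Fin N) :
    dz c (fun w => B.lam k w a j) b = dz a (fun w => B.lam k w c j) b := by
  obtain ⟨G, h1, -, h2⟩ := B.bpb7_glob (ϖ := fun j z u v => u ⬝ᵥ (A.C j).σ z *ᵥ v)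
    (fun i j O φ h1 _ z hz u v => by
      rw [h1.σ_eq z hz, ← Matrix.mulVec_mulVec, ← Matrix.mulVec_mulVec, Matrix.dotProduct_mulVec,
        Matrix.vecMul_transpose])
    (fun j z hz u v => bpb7_tri (A.C j).isOpen (fun a b => (Lib.SCV.contDiffOn_of_differentiableOn
      (A.C j).isOpen ((A.C j).σ_hol a b)).restrict_scalars ℝ) hz contDiff_snd.fst
        contDiff_snd.snd u v) k (Pi.single c 1, 0) (Pi.single a 1, 0)
  have hd : ∀ a, DifferentiableAt ℂ (fun w => B.lam k w a j) b := fun a =>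
    (B.lam_hol k a j).differentiableAt ((B.isOpen k).mem_nhds hb)
  have h3 : ∀ t, fderiv ℝ G (b, t) (0, Pi.single j 1) =
      dz a (fun w => B.lam k w c j) b - dz c (fun w => B.lam k w a j) b := fun t => by
    obtain ⟨i, F, hF⟩ := B.Θ_lift hb t
    have a0 := hF.self_of_nhds
    have e1 : ∀ a : Fin n, ∀ᶠ y in 𝓝 (b, t), fderiv ℝ F y (Pi.single a 1, 0) ⬝ᵥ (A.C i).σ (F y) *ᵥ
        fderiv ℝ F y (0, Pi.single j 1) = B.lam k y.1 a j := fun a => hF.mono fun y hy => by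
      rw [hy.2.2.2.2.1, S.sigma_Vf hy.2.2.1, hy.2.2.2.2.2.2]
      simp [lt, Matrix.mulVec, dotProduct, Pi.single_apply, apply_ite]
    have e2 : ∀ᶠ y in 𝓝 (b, t), fderiv ℝ F y (0, Pi.single j 1) ⬝ᵥ (A.C i).σ (F y) *ᵥ
        fderiv ℝ F y (Pi.single c 1, 0) = -B.lam k y.1 c j := by
      filter_upwards [hF, e1 c] with y hy h
      rw [← h, Matrix.dotProduct_mulVec, ← Matrix.mulVec_transpose, (A.C i).σ_skew _ hy.2.2.1,
        Matrix.neg_mulVec, neg_dotProduct, dotProduct_comm]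
    have e3 : ∀ a c : Fin n, fderiv ℝ (fun y : E n × (Fin N → ℝ) => B.lam k y.1 a j) (b, t)
        (Pi.single c 1, 0) = dz c (fun w => B.lam k w a j) b := fun a c => by
      have := ((hd a).hasFDerivAt.restrictScalars ℝ).comp (b, t)
        (hasFDerivAt_fst (𝕜 := ℝ) (F := Fin N → ℝ))
      rw [(dz_of_diff (hd a) c).1]
      exact congrArg (fun T : E n × (Fin N → ℝ) →L[ℝ] ℂ => T (Pi.single c 1, 0)) this.fderiv
    have h := pb_sigma a0.2.1 (A.C i) a0.2.2.1 (Pi.single c 1, 0) (Pi.single a 1, 0)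
      (0, Pi.single j 1)
    rw [EventuallyEq.fderiv_eq (e1 a), EventuallyEq.fderiv_eq e2, fderiv_fun_neg,
      _root_.neg_apply, e3, e3, ← (h1 i F _ (hF.mono fun y hy =>
        ⟨hy.1, hy.2.1, hy.2.2.1, hy.2.2.2.1⟩)).fderiv_eq] at h
    linear_combination h
  have h4 := (h2 b hb (Pi.single j 1)).2
  simp only [h3, integral_const, measureReal_def, Measure.restrict_apply_univ, (cube_vol N).2,
    ENNReal.toReal_one, one_smul] at h4
  exact (sub_eq_zero.1 h4).symm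

variable [MeasurableSpace X] [BorelSpace X]

theorem skw_const {k : B.ι} {b b' : E n} (hb : b ∈ B.W k) (hb' : b' ∈ B.W k) :
    skw (B.lam k b) (B.H (B.p k b)) = skw (B.lam k b') (B.H (B.p k b')) := by
  have key : ∀ s s' : Fin N → ℝ,
      k2 (B.H (B.p k b)) (lt (B.lam k b) s) (lt (B.lam k b) s') =
        k2 (B.H (B.p k b')) (lt (B.lam k b') s) (lt (B.lam k b') s') := fun s s' => by
    obtain ⟨G, g1, g2, -⟩ := B.bpb7_K k (0, s) (0, s')
    have e1 : ∀ c ∈ B.W k, k2 (B.H (B.p k c)) (lt (B.lam k c) s) (lt (B.lam k c) s') =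
        ∫ t in cube N, G (c, t) := fun c hc => by
      have hh : ∀ τ τ', ContinuousOn (fun x => hq (S.h x) τ τ') S.W := fun τ τ' => by
        simp only [hq_sum_eq]
        exact continuousOn_finsetSum _ fun a _ => continuousOn_finsetSum _ fun e _ =>
          (continuousOn_const.mul ((S.h_cont a e).mono fun x hx => hx.1)).mul continuousOn_const
      rw [k2, B.hq_H, B.hq_H, ← integral_sub (B.fm_int hc (hh _ _)).1 (B.fm_int hc (hh _ _)).1,
        (B.fm_int hc ((hh _ _).fun_sub (hh _ _))).2]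
      refine integral_congr_ae (ae_of_all _ fun t => ?_)
      obtain ⟨i, F, hF⟩ := B.Θ_lift hc t
      have a := hF.self_of_nhds
      have hU : A.p i (F (c, t)) ∈ S.U := a.2.2.2.1 ▸ (B.Θ_mem hc t).1.1
      have := (g1 i F _ (hF.mono fun y hy => ⟨hy.1, hy.2.1, hy.2.2.1, hy.2.2.2.1⟩)).self_of_nhds
      simp only [this, k2, a.2.2.2.2.1, ← S.hq_h a.2.2.1 hU, a.2.2.2.1]
    obtain ⟨p1, p2⟩ := cube_param (B.isOpen k) g2
    rw [e1 b hb, e1 b' hb']
    refine (B.isOpen k).is_const_of_fderiv_eq_zero (𝕜 := ℝ) (B.convex k).isPreconnected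
      (p1.differentiableOn (by simp)) (fun c hc => ?_) hb hb'
    ext1 β
    obtain ⟨G₁, q1, -, q2⟩ := B.bpb7_K k (0, s') (β, 0)
    obtain ⟨G₂, r1, -, r2⟩ := B.bpb7_K k (β, 0) (0, s)
    have e2 : ∀ t, fderiv ℝ G (c, t) (β, 0) =
        -fderiv ℝ G₁ (c, t) (0, s) - fderiv ℝ G₂ (c, t) (0, s') := fun t => by
      obtain ⟨i, F, hF⟩ := B.Θ_lift hc t
      have a := hF.self_of_nhds
      have hl : B.Lf k i F (c, t) := hF.mono fun y hy => ⟨hy.1, hy.2.1, hy.2.2.1, hy.2.2.2.1⟩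
      have h := pb_kah a.2.1 (A.C i).isOpen ⟨K.smooth i, S.K_pos i, K.closed i⟩ a.2.2.1
        (β, 0) (0, s) (0, s')
      rw [← (g1 i F _ hl).fderiv_eq, ← (q1 i F _ hl).fderiv_eq, ← (r1 i F _ hl).fderiv_eq] at h
      linear_combination h
    rw [p2 c hc]
    simp only [e2]
    rw [integral_sub (q2 c hc s).1.fun_neg (r2 c hc s').1, integral_neg, (q2 c hc s).2,
      (r2 c hc s').2]
    simp
  have e : ∀ (l : Matrix (Fin n) (Fin N) ℂ) (H : Mat n) (i j : Fin N), skw l H i j =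
      Complex.I * k2 H (lt l (Pi.single i 1)) (lt l (Pi.single j 1)) := fun l H i j => by
    have e1 : ∀ i : Fin N, (fun j => ((Pi.single i 1 : Fin N → ℝ) j : ℂ)) = Pi.single i 1 :=
      fun i => funext fun j => by simp [Pi.single_apply, apply_ite]
    simp only [k2, lt, e1, ← hq_conj, skw]
    generalize lᵀ * H * l.map star = M
    simp [hq]
  ext i j
  rw [e, e, key]

theorem exists_Q (k : B.ι) : ∃ Q : Mat N, Q.map star = -Q ∧ Qᴴ = Q ∧ ∀ b ∈ B.W k,
    B.lam k b * Q * (B.lam k b)ᴴ = B.om (B.p k b) ∧ B.lam k b * Q * (B.lam k b)ᵀ = 0 := by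
  by_cases h : (B.W k).Nonempty
  · obtain ⟨b₀, h₀⟩ := h
    obtain ⟨h1, h2, -, -⟩ := skw_unit S.hN (B.lam_bij k b₀ h₀) (B.H_pos (B.p k b₀)).1
    set E₀ := skw (B.lam k b₀) (B.H (B.p k b₀)) with hE
    have h3 : E₀⁻¹.map star = E₀⁻¹ := by
      refine (Matrix.inv_eq_left_inv ?_).symm
      have : (E₀⁻¹ * E₀).map (starRingEnd ℂ) = _ := Matrix.map_mul
      rw [Matrix.nonsing_inv_mul _ h1, Matrix.map_one _ (map_zero _) (map_one _)] at this
      rw [this]
      exact congrArg _ h2.symm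
    have h4 : E₀⁻¹ᵀ = -E₀⁻¹ := by
      have e0 : E₀ᵀ = -E₀ := by
        simp only [hE, skw, Matrix.transpose_smul, Matrix.transpose_sub,
          Matrix.transpose_transpose, ← smul_neg, neg_sub]
      rw [Matrix.transpose_nonsing_inv, e0]
      refine Matrix.inv_eq_left_inv ?_
      rw [neg_mul_neg, Matrix.nonsing_inv_mul _ h1]
    have h5 : (-Complex.I • E₀⁻¹).map star = -(-Complex.I • E₀⁻¹) := by
      ext i j
      have := congrFun (congrFun h3 i) j
      simp only [Matrix.map_apply] at this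
      simp only [Matrix.map_apply, Matrix.smul_apply, Matrix.neg_apply, smul_eq_mul, star_mul',
        this]
      simp
    refine ⟨-Complex.I • E₀⁻¹, h5, ?_, fun b hb => ?_⟩
    · rw [bpt11_ct, h5, Matrix.transpose_neg, Matrix.transpose_smul, h4, smul_neg, neg_neg]
    · rw [hE, B.skw_const h₀ hb]
      exact (skw_unit S.hN (B.lam_bij k b hb) (B.H_pos (B.p k b)).1).2.2
  · exact ⟨0, by simp, by simp, fun b hb => (h ⟨b, hb⟩).elim⟩

theorem om_kah (k : B.ι) : Kah (B.W k) fun b => B.om (B.p k b) := by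
  refine ⟨fun a c => (B.H_smo a c).2 k, fun b _ => (B.H_pos _).2.1, fun w hw a b c => ?_⟩
  obtain ⟨Q, -, -, hQ⟩ := B.exists_Q k
  have hd : ∀ a j, DifferentiableAt ℂ (fun y => B.lam k y a j) w := fun a j =>
    (B.lam_hol k a j).differentiableAt ((B.isOpen k).mem_nhds hw)
  have hr : ∀ a j, DifferentiableAt ℝ (fun y => B.lam k y a j) w := fun a j =>
    (hd a j).restrictScalars ℝ
  have key : ∀ a c, dz c (fun y => B.om (B.p k y) a b) w =
      ∑ e, (∑ j, dz c (fun y => B.lam k y a j) w * Q j e) * star (B.lam k w b e) := by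
    intro a c
    have e : (fun y => B.om (B.p k y) a b) =ᶠ[𝓝 w] fun y =>
        ∑ e, (∑ j, B.lam k y a j * Q j e) * star (B.lam k y b e) := by
      filter_upwards [(B.isOpen k).mem_nhds hw] with y hy
      rw [← (hQ y hy).1]
      rfl
    have d1 : ∀ e, DifferentiableAt ℝ (fun y => ∑ j, B.lam k y a j * Q j e) w :=
      fun e => DifferentiableAt.fun_sum fun j _ => (hr a j).mul_const _
    rw [(dz_congr e c).eq_of_nhds,
      (dz_sum _ (fun e _ => (d1 e).fun_mul (ablev_star (hr b e))) c).1]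
    refine Finset.sum_congr rfl fun e _ => ?_
    rw [(dz_mul (d1 e) (ablev_star (hr b e)) c).1, ← (star_dz _ w c).2, (dz_of_diff (hd b e) c).2,
      star_zero, mul_zero, add_zero, (dz_sum _ (fun j _ => (hr a j).mul_const _) c).1]
    refine congrArg (· * _) (Finset.sum_congr rfl fun j _ => ?_)
    rw [(dz_mul (hr a j) (differentiableAt_const _) c).1, (dz_const c _).1, mul_zero, add_zero]
  simp only [key, B.lam_closed hw a c]

theorem om_ric {k : B.ι} {b : E n} (hb : b ∈ B.W k) (v : E n) :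
    hr (lev (fun c => Real.log (B.om (B.p k c)).det.re) b) v ≤ 0 := by
  obtain ⟨Q, h1, h2, h3⟩ := B.exists_Q k
  have ho := (B.isOpen k).mem_nhds hb
  have e : (fun c => Real.log (B.om (B.p k c)).det.re) =ᶠ[𝓝 b]
      fun c => Real.log (B.lam k c * Q * (B.lam k c)ᴴ).det.re := by
    filter_upwards [ho] with c hc
    rw [(h3 c hc).1]
  rw [(lev_congr e).eq_of_nhds]
  refine ric_le S.hN (fun a j => ?_) (B.lam_bij k b hb) h1 h2 ?_ (h3 b hb).2 v
  · filter_upwards [ho] with c hc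
    exact (B.lam_hol k a j).differentiableAt ((B.isOpen k).mem_nhds hc)
  · rw [(h3 b hb).1]
    exact (B.H_pos _).2.1

theorem c_loc (y : Y) :
    ∀ᶠ y' in 𝓝 y, B.vol y' * (B.H y').det.re = B.vol y * (B.H y).det.re := by
  obtain ⟨k, b, hb, rfl⟩ := B.cover y
  filter_upwards [(B.opn k _ (B.isOpen k) subset_rfl).mem_nhds ⟨b, hb, rfl⟩]
  rintro _ ⟨c, hc, rfl⟩
  have h0 : ∀ y, 0 ≤ 2 ^ n * B.vol y * (B.H y).det.re := fun y =>
    (mul_pos (mul_pos (by positivity) (B.vol_pos y))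
      (Complex.pos_iff.1 (B.H_pos y).1.det_pos).1).le
  have h1 := skw_det S.hN (B.lam_bij k b hb) (B.H_pos (B.p k b)).1
  rw [B.skw_const hb hc, ← skw_det S.hN (B.lam_bij k c hc) (B.H_pos (B.p k c)).1,
    ← B.vol_chart hb, ← B.vol_chart hc, sq_eq_sq₀ (h0 _) (h0 _), mul_assoc, mul_assoc] at h1
  exact (mul_left_cancel₀ (by positivity) h1).symm

end Base

end Pool.Agent.ZB
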