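import Pool.Agent.P.MP_63735c_ag.ZBB2
import Pool.Agent.P.MP_63735c_ag.BPT10

/-! The fibres and their invariant measures. -/

open scoped ComplexOrder ContDiff Matrix Topology ENNReal
open Set Metric MeasureTheory Filter

namespace Pool.Agent.ZB

open Pool.Agent.BP Pool.Agent.SPF Pool.Agent.AB Pool.Agent.CK Pool.Agent.SE Pool.Agent.NL

variable {N n : ℕ} {X : Type} [TopologicalSpace X] {A : Atlas X N} {K : Form11 A} {L : Line A}
  {S : Sys K L n} {Y : Type} [TopologicalSpace Y] (B : Base S Y)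

theorem bpb4_fd {l : Matrix (Fin n) (Fin N) ℂ} (hl : Function.Bijective (lt l))
    {Λ : Submodule ℤ (E n)} (h : ∀ τ, τ ∈ Λ ↔ ∃ t : Fin N → ℤ, τ = lt l fun j => (t j : ℝ)) :
    IsAddFundamentalDomain Λ.toAddSubgroup (lt l '' cube N) volume := by
  let e := LinearEquiv.ofBijective (ltL l) hl
  have h1 := ZSpan.isAddFundamentalDomain' ((Pi.basisFun ℝ (Fin N)).map e) volume
  rw [← ZSpan.map_fundamentalDomain, ZSpan.fundamentalDomain_pi_basisFun] at h1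
  have h2 : Submodule.span ℤ (range ((Pi.basisFun ℝ (Fin N)).map e)) = Λ := by
    ext τ
    rw [h, Submodule.mem_span_range_iff_exists_fun]
    refine exists_congr fun t => ?_
    have h3 : (lt l fun j => (t j : ℝ)) = ∑ j, t j • ((Pi.basisFun ℝ (Fin N)).map e) j := by
      rw [lt_eq_sum]
      refine Finset.sum_congr rfl fun j _ => ?_
      rw [Int.cast_smul_eq_zsmul, lt_col, Module.Basis.map_apply, Pi.basisFun_apply]
      congr 1
      change _ = lt l _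
      congr 1
      funext k
      by_cases hk : k = j <;> simp [hk]
    rw [h3, eq_comm]
  rwa [h2] at h1

/-- Two bases of one lattice give the same covolume and the same averages. -/
theorem bpb4_eq {l l' : Matrix (Fin n) (Fin N) ℂ} (hl : Function.Bijective (lt l))
    (hl' : Function.Bijective (lt l')) {Λ : Submodule ℤ (E n)}
    (h : ∀ τ, τ ∈ Λ ↔ ∃ t : Fin N → ℤ, τ = lt l fun j => (t j : ℝ))
    (h' : ∀ τ, τ ∈ Λ ↔ ∃ t : Fin N → ℤ, τ = lt l' fun j => (t j : ℝ)) :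
    cov l = cov l' ∧ ∀ u : E n → ℝ≥0∞, (∀ v ∈ Λ, ∀ τ, u (v + τ) = u τ) →
      ∫⁻ t in cube N, u (lt l t) = ∫⁻ t in cube N, u (lt l' t) := by
  have hc : Countable Λ.toAddSubgroup := by
    refine (countable_range fun t : Fin N → ℤ => lt l fun j => (t j : ℝ)).mono
      (s₁ := (Λ.toAddSubgroup : Set (E n))) fun τ hτ => ?_
    obtain ⟨t, ht⟩ := (h τ).1 hτ
    exact ⟨t, ht.symm⟩
  have h1 : cov l = cov l' := congrArg ENNReal.toReal
    ((bpb4_fd hl h).measure_eq (bpb4_fd hl' h'))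
  refine ⟨h1, fun u hu => ?_⟩
  have h2 := (bpb4_fd hl h).setLIntegral_eq (bpb4_fd hl' h') u fun g τ => hu g g.2 τ
  rw [(cell_int hl u).2, (cell_int hl' u).2, ← h1] at h2
  exact (ENNReal.mul_right_inj (ENNReal.ofReal_pos.2 (cell_int hl u).1).ne'
    ENNReal.ofReal_ne_top).1 h2

namespace Base

theorem M_eq : B.M = univ := by
  refine eq_univ_of_forall fun y => ?_
  obtain ⟨k, b, hb, rfl⟩ := B.cover y
  exact Man.mem_M hb

theorem ch_spec (y : Y) : B.γ y ∈ B.W (B.ch y) ∧ B.p (B.ch y) (B.γ y) = y := by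
  obtain ⟨b, hb, he⟩ := (B.cover y).choose_spec
  have h1 : B.γ y = b := by
    conv_lhs => rw [← he]
    exact B.γ_p _ b hb
  rw [h1]
  exact ⟨hb, he⟩

theorem tub (k : B.ι) : S.Tub (B.W k) (B.s k) (B.lam k) := by
  refine ⟨⟨B.isOpen k, fun b hb => (B.s_mem k b hb).1, fun b hb => ?_, B.s_lift k⟩, B.convex k,
    B.lam_hol k, B.lam_bij k, B.lam_per k⟩
  rw [← B.γ_f _ (B.s_mem k b hb), B.f_s k b hb, B.γ_p k b hb]

theorem ch_id {k k' : B.ι} {b : E n} (hb : b ∈ B.W k) (hb' : b ∈ B.W k') (h : B.p k b = B.p k' b) :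
    ∀ᶠ c in 𝓝 b, c ∈ B.W k ∧ c ∈ B.W k' ∧ B.p k c = B.p k' c := by
  filter_upwards [(Man.contAt_p hb).eventually ((B.opn k' _ (B.isOpen k') Subset.rfl).mem_nhds
    ⟨b, hb', h.symm⟩), (B.isOpen k).mem_nhds hb] with c ⟨c', h1, h2⟩ h3
  have h4 : c' = c := by rw [← B.γ_p k' c' h1, h2, B.γ_p k c h3]
  exact ⟨h3, h4 ▸ h1, h4 ▸ h2.symm⟩

theorem cpt_of (u : Y → Mat n) : B.Cpt fun k b => u (B.p k b) := by
  intro i j z hz φ hφ
  have he : φ =ᶠ[𝓝 z] id := by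
    filter_upwards [hφ, (B.isOpen i).mem_nhds hz] with w h1 h2
    rw [← B.γ_p j _ h1.2.1, h1.2.2, B.γ_p i w h2, id]
  have hj : jac φ z = 1 := by
    ext a c
    simp [jac, he.fderiv_eq, Matrix.one_apply, Pi.single_apply]
  simp [hj, hφ.self_of_nhds.2.2]

theorem f_Φ {x : X} (hx : x ∈ S.W) (τ : E n) : B.f (S.Φ x τ) = B.f x := by
  exact ((B.f_eq x hx _ (B.W_inv x hx τ)).2 ⟨τ, rfl⟩).symm

theorem Θ_mem {k : B.ι} {b : E n} (hb : b ∈ B.W k) (t : Fin N → ℝ) : B.Θ k b t ∈ B.fib (B.p k b) := by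
  exact ⟨B.W_inv _ (B.s_mem k b hb) _, (B.f_Φ (B.s_mem k b hb) _).trans (B.f_s k b hb)⟩

theorem Θ_per {k : B.ι} {b : E n} (hb : b ∈ B.W k) (t : Fin N → ℝ) (q : Fin N → ℤ) :
    B.Θ k b (t + fun j => (q j : ℝ)) = B.Θ k b t := by
  rw [Θ, Θ, add_comm, lt_add, ← S.Φ_add _ (B.s_mem k b hb).1, (B.lam_per k b hb _).2 ⟨q, rfl⟩]

theorem Θ_cont (k : B.ι) : ContinuousOn (fun w : E n × (Fin N → ℝ) => B.Θ k w.1 w.2)
    (B.W k ×ˢ univ) := by
  exact fun w hw => ((B.tub k).contAt hw.1).continuousWithinAt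

theorem fib_eq {k : B.ι} {b : E n} (hb : b ∈ B.W k) :
    B.fib (B.p k b) = B.Θ k b '' cube N ∧ InjOn (B.Θ k b) (cube N) := by
  have hs := B.s_mem k b hb
  refine ⟨Subset.antisymm (fun x hx => ?_) ?_, fun t ht t' ht' he => ?_⟩
  · obtain ⟨τ, rfl⟩ := (B.f_eq _ hs x hx.1).1 ((B.f_s k b hb).trans hx.2.symm)
    obtain ⟨t, rfl⟩ := (B.lam_bij k b hb).2 τ
    refine ⟨fun j => Int.fract (t j), fun j _ => ⟨Int.fract_nonneg _, Int.fract_lt_one _⟩, ?_⟩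
    rw [Θ, lt_fract _ t, ← S.Φ_add _ hs.1, (B.lam_per k b hb _).2 ⟨_, rfl⟩]
  · rintro _ ⟨t, -, rfl⟩
    exact B.Θ_mem hb t
  · have h1 := congrArg (fun y => S.Φ y (-lt (B.lam k b) t')) he
    simp only [Θ, S.Φ_add _ hs.1, add_neg_cancel, S.Φ_zero _ hs.1, ← sub_eq_add_neg,
      ← lt_sub] at h1
    obtain ⟨q, hq'⟩ := (B.lam_per k b hb _).1 h1
    funext j
    have h2 : t j - t' j = q j := congrFun ((B.lam_bij k b hb).1 hq') j
    have a1 := ht j trivial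
    have a2 := ht' j trivial
    have h3 : (-1 : ℝ) < q j ∧ (q j : ℝ) < 1 := ⟨by linarith [a1.1, a2.2], by linarith [a1.2, a2.1]⟩
    have h4 : q j = 0 := by
      have b1 : (-1 : ℤ) < q j := by exact_mod_cast h3.1
      have b2 : q j < 1 := by exact_mod_cast h3.2
      omega
    rw [h4, Int.cast_zero] at h2
    linarith

theorem fib_cpt (y : Y) : IsCompact (B.fib y) ∧ (B.fib y).Nonempty := by
  refine ⟨B.f_proper _ isCompact_singleton, B.Θ (B.ch y) (B.γ y) 0, ?_⟩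
  have h1 := B.Θ_mem (B.ch_spec y).1 0
  rwa [(B.ch_spec y).2] at h1

theorem loc {i : A.ι} {z : E N} (hz : z ∈ (A.C i).W) (hW : A.p i z ∈ S.W) {k : B.ι} {b : E n}
    (hb : b ∈ B.W k) (he : B.f (A.p i z) = B.p k b) : S.g (A.p i z) = b ∧
      ∀ᶠ w in 𝓝 z, w ∈ (A.C i).W ∧ A.p i w ∈ S.W ∧ S.g (A.p i w) ∈ B.W k ∧
        B.f (A.p i w) = B.p k (S.g (A.p i w)) ∧ DifferentiableAt ℂ (fun t => S.g (A.p i t)) w := by
  refine ⟨by rw [← B.γ_f _ hW, he, B.γ_p k b hb], ?_⟩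
  have c1 : ContinuousAt (A.p i) z := (A.cont i).continuousAt ((A.C i).isOpen.mem_nhds hz)
  have c2 := (B.f_cont.continuousAt (B.W_open.mem_nhds hW)).comp c1
  filter_upwards [(A.C i).isOpen.mem_nhds hz, c1.eventually (B.W_open.mem_nhds hW),
    c2.eventually ((B.opn k _ (B.isOpen k) Subset.rfl).mem_nhds ⟨b, hb, he.symm⟩)]
    with w h1 h2 ⟨c, h3, h4⟩
  have h5 : S.g (A.p i w) = c := by
    rw [← B.γ_f _ h2, ← B.γ_p k c h3, h4]
    rfl
  exact ⟨h1, h2, h5 ▸ h3, h5 ▸ h4.symm, S.g_hol i w h1 h2.1⟩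

theorem dn_f {F : Type} {u : X → F} (hu : ∀ x ∈ S.W, ∀ τ, u (S.Φ x τ) = u x) {x : X}
    (hx : x ∈ S.W) : B.dn u (B.f x) = u x := by
  obtain ⟨h1, h2⟩ := B.ch_spec (B.f x)
  obtain ⟨τ, hτ⟩ := (B.f_eq x hx _ (B.s_mem _ _ h1)).1 (by rw [B.f_s _ _ h1, h2])
  rw [dn, hτ, hu x hx]

theorem dn_smo {u : X → ℝ} (hu : ∀ x ∈ S.W, ∀ τ, u (S.Φ x τ) = u x)
    (hs : ∀ i, ∀ z ∈ (A.C i).W, A.p i z ∈ S.W → ContDiffAt ℝ ∞ (fun w => u (A.p i w)) z) :
    B.Smo (B.dn u) := by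
  intro k b hb
  obtain ⟨i, F, hF⟩ := B.s_lift k b hb
  have h0 := hF.self_of_nhds
  have h1 := (hs i _ h0.2.1 (h0.2.2.symm ▸ B.s_mem k b hb)).comp b
    (smoothAt_of_hol (hF.mono fun c hc => hc.1))
  refine (h1.congr_of_eventuallyEq ?_).contDiffWithinAt
  filter_upwards [hF, (B.isOpen k).mem_nhds hb] with c h2 h3
  rw [← B.f_s k c h3, B.dn_f hu (B.s_mem k c h3), Function.comp_apply, h2.2.2]

theorem up_smooth {F : Type} [NormedAddCommGroup F] [NormedSpace ℝ F] {u : Y → F} (hu : B.Smo u)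
    {i : A.ι} {z : E N} (hz : z ∈ (A.C i).W) (hW : A.p i z ∈ S.W) :
    ContDiffAt ℝ ∞ (fun w => u (B.f (A.p i w))) z := by
  obtain ⟨k, b, hb, he⟩ := B.cover (B.f (A.p i z))
  obtain ⟨h1, h2⟩ := B.loc hz hW hb he.symm
  have h3 : ContDiffAt ℝ ∞ (fun c => u (B.p k c)) (S.g (A.p i z)) :=
    h1 ▸ (hu k).contDiffAt ((B.isOpen k).mem_nhds hb)
  refine (h3.comp z (smoothAt_of_hol (h2.mono fun w hw => hw.2.2.2.2))).congr_of_eventuallyEq ?_
  exact h2.mono fun w hw => congrArg u hw.2.2.2.1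

theorem up_lev {u : Y → ℝ} (hu : B.Smo u) {i : A.ι} {z : E N} (hz : z ∈ (A.C i).W)
    (hW : A.p i z ∈ S.W) {k : B.ι} {b : E n} (hb : b ∈ B.W k) (he : B.f (A.p i z) = B.p k b) :
    dr (fun w => u (B.f (A.p i w))) z = dr (fun c => u (B.p k c)) b ᵥ* Jg A S.g i z ∧
      lev (fun w => u (B.f (A.p i w))) z =
        (Jg A S.g i z)ᵀ * B.levG u k b * (Jg A S.g i z).map star := by
  obtain ⟨rfl, h2⟩ := B.loc hz hW hb he
  have h3 : ContDiffAt ℝ ∞ (fun c => u (B.p k c)) (S.g (A.p i z)) :=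
    (hu k).contDiffAt ((B.isOpen k).mem_nhds hb)
  have h4 : (fun w => u (B.f (A.p i w))) =ᶠ[𝓝 z] fun w => u (B.p k (S.g (A.p i w))) :=
    h2.mono fun w hw => congrArg u hw.2.2.2.1
  rw [(dr_congr h4).self_of_nhds, (lev_congr h4).self_of_nhds]
  exact ⟨dr_comp (f := fun c => u (B.p k c)) (h3.differentiableAt (by simp))
    h2.self_of_nhds.2.2.2.2, lev_comp (f := fun c => u (B.p k c)) h3
    (h2.mono fun w hw => hw.2.2.2.2)⟩

theorem eta_eq {i : A.ι} {z : E N} (hz : z ∈ (A.C i).W) (hW : A.p i z ∈ S.W) {k : B.ι} {b : E n}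
    (hb : b ∈ B.W k) (he : B.f (A.p i z) = B.p k b) : (S.m : ℂ) • (A.C i).η z =
      (Jg A S.g i z)ᵀ * B.levG (B.dn S.φ) k b * (Jg A S.g i z).map star := by
  have hu : ∀ x ∈ S.W, ∀ τ, S.φ (S.Φ x τ) = S.φ x := fun x hx => S.φ_Φ x hx.1
  rw [← (B.up_lev (B.dn_smo hu fun i z hz h => S.φ_smooth i z hz h.1) hz hW hb he).2,
    ← S.φ_lev i z hz hW.1]
  refine (lev_congr ?_).self_of_nhds
  exact (B.loc hz hW hb he).2.mono fun w hw => (B.dn_f hu hw.2.1).symm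

theorem bpb4_ch {k : B.ι} {b : E n} (hb : b ∈ B.W k) : ∃ τ₀, b ∈ B.W (B.ch (B.p k b)) ∧
    B.s (B.ch (B.p k b)) b = S.Φ (B.s k b) τ₀ ∧ ∀ τ, τ ∈ S.per (B.s_mem k b hb).1 ↔
      ∃ t : Fin N → ℤ, τ = lt (B.lam (B.ch (B.p k b)) b) fun j => (t j : ℝ) := by
  obtain ⟨h1, h2⟩ := B.ch_spec (B.p k b)
  rw [B.γ_p k b hb] at h1 h2
  obtain ⟨τ₀, h3⟩ := (B.f_eq _ (B.s_mem k b hb) _ (B.s_mem _ b h1)).1
    (by rw [B.f_s k b hb, B.f_s _ b h1, h2])
  refine ⟨τ₀, h1, h3, fun τ => ?_⟩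
  rw [← B.lam_per _ b h1, h3, S.per_Φ (B.s_mem k b hb).1, S.mem_per]

theorem Θ_cont' {k : B.ι} {b : E n} (hb : b ∈ B.W k) : Continuous (B.Θ k b) :=
  (B.Θ_cont k).comp_continuous (continuous_const.prodMk continuous_id) fun _ => ⟨hb, mem_univ _⟩

theorem vol_chart {k : B.ι} {b : E n} (hb : b ∈ B.W k) : B.vol (B.p k b) = cov (B.lam k b) := by
  obtain ⟨τ, h1, h2, h3⟩ := B.bpb4_ch hb
  rw [vol, B.γ_p k b hb]
  exact (bpb4_eq (B.lam_bij _ b h1) (B.lam_bij k b hb) h3 (B.lam_per k b hb)).1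

theorem vol_pos (y : Y) : 0 < B.vol y := by
  exact (cell_int (B.lam_bij _ _ (B.ch_spec y).1) 0).1

variable [MeasurableSpace X] [BorelSpace X]

theorem fm_chart {k : B.ι} {b : E n} (hb : b ∈ B.W k) :
    B.fm (B.p k b) = (volume.restrict (cube N)).map (B.Θ k b) := by
  obtain ⟨τ₀, h1, h2, h3⟩ := B.bpb4_ch hb
  have hs := (B.s_mem k b hb).1
  obtain ⟨t₀, rfl⟩ := (B.lam_bij k b hb).2 τ₀
  rw [fm, B.γ_p k b hb]
  refine Measure.ext_of_lintegral _ fun u hu => ?_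
  rw [lintegral_map hu (B.Θ_cont' h1).measurable, lintegral_map hu (B.Θ_cont' hb).measurable,
    ← cube_lshift (u := fun t => u (B.Θ k b t)) (fun t q => by rw [B.Θ_per hb]) t₀]
  have h4 := (bpb4_eq (B.lam_bij _ b h1) (B.lam_bij k b hb) h3 (B.lam_per k b hb)).2
    (fun τ => u (S.Φ (B.s k b) (τ + lt (B.lam k b) t₀))) fun v hv τ => by
      rw [add_assoc, ← S.Φ_add _ hs, (S.mem_per hs).1 hv]
  simp only [Θ, h2, S.Φ_add _ hs, lt_add, add_comm (lt (B.lam k b) t₀)]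
  exact h4

theorem fm_prob (y : Y) : IsProbabilityMeasure (B.fm y) := by
  have : IsProbabilityMeasure (volume.restrict (cube N)) :=
    ⟨by rw [Measure.restrict_apply_univ, (cube_vol N).2]⟩
  exact Measure.isProbabilityMeasure_map (B.Θ_cont' (B.ch_spec y).1).measurable.aemeasurable

theorem fm_ae [T2Space X] (y : Y) : ∀ᵐ x ∂B.fm y, x ∈ B.fib y := by
  refine (ae_map_iff (B.Θ_cont' (B.ch_spec y).1).measurable.aemeasurable
    (B.fib_cpt y).1.isClosed.measurableSet).2 (Eventually.of_forall fun t => ?_)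
  have h1 := B.Θ_mem (B.ch_spec y).1 t
  rwa [(B.ch_spec y).2] at h1

theorem fm_int {F : Type} [NormedAddCommGroup F] [NormedSpace ℝ F] [SecondCountableTopology F]
    {u : X → F} {k : B.ι} {b : E n} (hb : b ∈ B.W k) (hu : ContinuousOn u S.W) :
    Integrable u (B.fm (B.p k b)) ∧ ∫ x, u x ∂B.fm (B.p k b) = ∫ t in cube N, u (B.Θ k b t) := by
  have hm := (B.Θ_cont' hb).measurable
  have h1 : ∀ᵐ x ∂(volume.restrict (cube N)).map (B.Θ k b), x ∈ S.W :=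
    (ae_map_iff hm.aemeasurable B.W_open.measurableSet).2
      (Eventually.of_forall fun t => (B.Θ_mem hb t).1)
  have h2 : AEStronglyMeasurable u ((volume.restrict (cube N)).map (B.Θ k b)) := by
    rw [← Measure.restrict_eq_self_of_ae_mem h1]
    exact hu.aestronglyMeasurable B.W_open.measurableSet
  rw [B.fm_chart hb]
  exact ⟨(integrable_map_measure h2 hm.aemeasurable).2 (cube_int
    (hu.comp_continuous (B.Θ_cont' hb) fun t => (B.Θ_mem hb t).1)), integral_map hm.aemeasurable h2⟩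

theorem fm_lint {u : X → ℝ≥0∞} (hu : Measurable u) {k : B.ι} {b : E n} (hb : b ∈ B.W k) :
    ∫⁻ x, u x ∂B.fm (B.p k b) = ∫⁻ t in cube N, u (B.Θ k b t) := by
  rw [B.fm_chart hb, lintegral_map hu (B.Θ_cont' hb).measurable]

end Base

end Pool.Agent.ZB
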