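import Pool.Agent.P.MP_63735c_ag.ZBB7
import Pool.Agent.P.MP_63735c_ag.BPB9

/-! Compactness of the superlevel sets. -/

open scoped ComplexOrder ContDiff Matrix Topology ENNReal
open Set Metric MeasureTheory Filter

namespace Pool.Agent.ZB

open Pool.Agent.BP Pool.Agent.SPF Pool.Agent.AB Pool.Agent.CK Pool.Agent.SE Pool.Agent.NL

variable {N n : ℕ} {X : Type} [TopologicalSpace X] {A : Atlas X N} {K : Form11 A} {L : Line A}

lemma bpb9_det (S : Sys K L n) : ContinuousOn (fun x => (S.h x).det.re) S.U :=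
  Complex.continuous_re.comp_continuousOn (continuous_id.matrix_det.comp_continuousOn
    (continuousOn_pi.2 fun a => continuousOn_pi.2 fun b => S.h_cont a b))

variable {S : Sys K L n} {Y : Type} [TopologicalSpace Y] (B : Base S Y) [T2Space X]
  [MeasurableSpace X] [BorelSpace X]

theorem Base.cpt_sup [hB : S.Bd] (a c : ℝ) {δ : ℝ} (hδ : 0 < δ) :
    ∃ C, IsCompact C ∧ C ⊆ S.W ∧ ∀ x ∈ S.W, S.φ x ≤ a → δ ≤ (B.H (B.f x)).det.re →
      B.vol (B.f x) ≤ c → x ∈ C := by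
  set K₁ := {x | x ∈ S.U ∧ S.φ x ≤ a} ∩ (fun x => (S.h x).det.re) ⁻¹' Ici δ
  have hK₁ : IsCompact K₁ := by
    convert hB.reg_cpt a δ hδ using 1
    exact Set.ext fun x => and_assoc
  have hpos : ∀ x ∈ K₁, (S.h x).PosDef := fun x hx =>
    (S.h_psd hx.1.1).posDef_iff_det_ne_zero.2 fun h0 => by
      have h1 : δ ≤ (S.h x).det.re := hx.2
      rw [h0, Complex.zero_re] at h1
      linarith
  have hev : ∀ᶠ ρ in 𝓝 (0 : ℝ), ∀ y ∈ K₁, ∀ τ, S.Φ y τ = y → ‖τ‖ < 2 * ρ → τ = 0 := by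
    refine hK₁.eventually_forall_of_forall_eventually fun y hy => ?_
    obtain ⟨r, hr, h⟩ := Sys.no_short hy.1.1 (hpos y hy)
    filter_upwards [prod_mem_nhds (Iio_mem_nhds hr) h] with z hz τ h1 h2
    exact hz.2.2.2 τ h1 (by linarith [show z.1 < r from hz.1])
  obtain ⟨r, hs, hr⟩ := ((hev.filter_mono nhdsWithin_le_nhds).and
    (self_mem_nhdsWithin (s := Ioi (0 : ℝ)))).exists
  obtain ⟨R, hR⟩ := cover_rad n S.n_pos hr c
  have hc : ∀ T : Set (E n), ContinuousOn (fun w : X × E n => S.Φ w.1 w.2) (K₁ ×ˢ T) := fun T =>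
    S.Φ_cont.mono (prod_mono (fun x hx => hx.1.1) (subset_univ _))
  set K₂ := K₁ ∩ ⋂ τ, Prod.fst '' {w ∈ K₁ ×ˢ closedBall τ R | S.Φ w.1 w.2 = w.1}
  have hK₂ : IsCompact K₂ := hK₁.inter_right (isClosed_iInter fun τ => by
    have h1 := hK₁.prod (isCompact_closedBall τ R)
    exact ((h1.of_isClosed_subset (h1.isClosed.isClosed_eq (hc _) continuousOn_fst)
      (sep_subset _ _)).image continuous_fst).isClosed)
  refine ⟨_, (hK₂.prod (isCompact_closedBall (0 : E n) R)).image_of_continuousOn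
    ((hc _).mono (prod_mono inter_subset_left subset_rfl)), ?_, fun x hx h1 h2 h3 => ?_⟩
  · rintro _ ⟨⟨y, τ⟩, ⟨hy, -⟩, rfl⟩
    refine S.W_Φ ⟨hy.1.1.1, hpos y hy.1, bpb9_span (R := R) fun τ' => ?_⟩ τ
    obtain ⟨w, hw, rfl⟩ := mem_iInter.1 hy.2 τ'
    exact ⟨w.2, hw.2, by rw [← dist_eq_norm, dist_comm]; exact hw.1.2⟩
  obtain ⟨hb, hp⟩ := B.ch_spec (B.f x)
  have hi := (B.fm_int hb ((bpb9_det S).mono fun x hx => hx.1)).1
  rw [hp] at hi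
  have := B.fm_prob (B.f x)
  obtain ⟨y, hy, hd⟩ := exists_notMem_null_integral_le hi (B.fm_ae (B.f x))
  have hy : y ∈ B.fib (B.f x) := not_not.1 hy
  rw [B.int_det] at hd
  obtain ⟨τ, hτ⟩ := (B.f_eq y hy.1 x hx).1 hy.2
  obtain ⟨τ₀, hτ₀⟩ := (B.f_eq _ (B.s_mem _ _ hb) y hy.1).1
    ((B.f_s _ _ hb).trans (hp.trans hy.2.symm))
  have hyK : y ∈ K₁ := ⟨⟨hy.1.1, by rw [← S.φ_Φ y hy.1.1 τ, ← hτ]; exact h1⟩, h2.trans hd⟩
  have hper : ∀ t : Fin N → ℤ,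
      S.Φ y (lt (B.lam (B.ch (B.f x)) (B.γ (B.f x))) fun j => (t j : ℝ)) = y := fun t => by
    rw [hτ₀, S.per_Φ (B.s_mem _ _ hb).1]
    exact (B.lam_per _ _ hb _).2 ⟨t, rfl⟩
  have hcov := hR N _ (B.lam_bij _ _ hb) h3 fun t ht => by
    have h4 := hs y hyK _ (hper t) ht
    rw [← bpb9_zero (B.lam (B.ch (B.f x)) (B.γ (B.f x)))] at h4
    funext j
    exact_mod_cast congrFun ((B.lam_bij _ _ hb).1 h4) j
  obtain ⟨t, ht⟩ := hcov τ
  refine ⟨(y, τ - _), ⟨⟨hyK, mem_iInter.2 fun τ' => ?_⟩, mem_closedBall_zero_iff.2 ht⟩, ?_⟩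
  · obtain ⟨s, hs⟩ := hcov τ'
    exact ⟨(y, _), ⟨⟨hyK, by rw [mem_closedBall, dist_comm, dist_eq_norm]; exact hs⟩, hper s⟩, rfl⟩
  · change S.Φ y _ = x
    conv_lhs => rw [← hper t, S.Φ_add y hy.1.1, add_sub_cancel, ← hτ]

end Pool.Agent.ZB
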