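import Pool.Agent.P.MP_63735c_ag.BPC5
import Pool.Agent.P.MP_63735c_ag.ZBPt

/-! Local potentials near a point of the resolution. -/

open scoped ComplexOrder ContDiff Matrix Topology ENNReal
open Set Metric MeasureTheory Filter

namespace Pool.Agent.ZB

open Pool.Agent.BP Pool.Agent.SPF Pool.Agent.AB Pool.Agent.CK Pool.Agent.SE Pool.Agent.NL

variable {N : ℕ} {X : Type} [TopologicalSpace X] [T2Space X] [PreconnectedSpace X]
  [MeasurableSpace X] [BorelSpace X] {A : Atlas X N} {μ : Measure X} {W : Set X} {ψ : X → ℝ}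
  {ξ : A.ι → E N → E N} {Ω : A.ι → E N → Mat N} {a C : ℝ} {L : Line A}

omit [T2Space X] [PreconnectedSpace X] in
/-- Integrability on the manifold from integrability where the density is bounded. -/
theorem zbc5_int (hinj : ∀ i, InjOn (A.p i) (A.C i).W) (hμ : IsVolume A μ) {i : A.ι}
    {S : Set (E N)} (hS : IsOpen S) (hSW : S ⊆ (A.C i).W) {B : ℝ}
    (hBd : ∀ z ∈ S, ‖((A.C i).σ z).det‖ ≤ B)
    {f : X → ℝ} (hc : ContinuousOn (fun z => f (A.p i z)) S)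
    (hf : IntegrableOn (fun z => f (A.p i z)) S volume) : IntegrableOn f (A.p i '' S) μ := by
  let Ψ : A.ι → E N → ℝ := fun i z => -Real.log ‖((A.C i).σ z).det‖
  have hw : ∀ i, ∀ z ∈ (A.C i).W, wt (Ψ i) z = ‖((A.C i).σ z).det‖ := fun i z hz => by
    simp only [wt, Ψ, neg_neg]
    exact Real.exp_log (norm_pos_iff.2 ((A.C i).σ_det z hz))
  have hd : (man A hinj isOpen_univ).Den μ Ψ := by
    intro i S hS hm
    refine (hμ i S (hS.trans inter_subset_left) hm).trans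
      (setLIntegral_congr_fun hm fun z hz => ?_)
    rw [hw i z (hS hz).1, ofReal_norm]
  have hΨ : ContinuousOn (Ψ i) (A.C i).W :=
    ((det_cont (A.C i)).norm.log fun z hz => (norm_pos_iff.2 ((A.C i).σ_det z hz)).ne').neg
  have hs : S ⊆ (man A hinj isOpen_univ).W i := fun z hz => ⟨hSW hz, mem_univ _⟩
  refine (hd.intOn (i := i) (hΨ.mono inter_subset_left) hS.measurableSet hs f).2 ?_
  refine (hf.norm.const_mul B).mono' ?_ ?_
  · exact (((Man.abmeas_wt hΨ).mono fun z hz => (hs hz).1).smul hc).aestronglyMeasurable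
      hS.measurableSet
  · filter_upwards [ae_restrict_mem hS.measurableSet] with z hz
    rw [hw i z (hs hz).1, norm_smul, norm_norm]
    exact mul_le_mul_of_nonneg_right (hBd z hz) (norm_nonneg _)

theorem Pt.locP (P : Pt L) (h : UX A W ξ Ω a C) (hP : PolX A W ψ)
    (hinj : ∀ i, InjOn (A.p i) (A.C i).W) (hμ : IsVolume A μ) : ∃ (r : ℝ) (G : X → ℝ), 0 < r ∧
      r ≤ P.r ∧ LocP A μ W ξ (A.p P.i '' (ball P.z₀ r ∩ (A.C P.i).W)) G := by
  obtain ⟨ψ', hp⟩ := P.pol hP P.r_pos le_rfl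
  obtain ⟨B, -, hB⟩ := P.bds
  have h2 : ball P.z₀ P.r ⊆ ball P.z₀ (2 * P.r) := ball_subset_ball (by linarith [P.r_pos])
  have hD : PotD P.z₀ P.r (ball P.z₀ P.r ∩ dom A W P.i) ψ' (ξ P.i) (Ω P.i) (lev P.ψ) a C :=
    { hp with
      a_pos := h.a_pos
      ξ_smooth := fun z hz => (h.smooth P.i z hz.2.1 hz.2.2).contDiffWithinAt
      Ω_psd := fun z hz => h.psd P.i z hz.2.1 hz.2.2
      e_smooth := fun b c => (lev_smooth isOpen_ball P.ψ_smooth b c).mono h2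
      e_herm := fun z hz => lev_herm (P.ψ_smooth.contDiffAt (isOpen_ball.mem_nhds (h2 hz)))
      eq := fun z hz b c => by rw [P.lev_eq hz.2.1]; exact h.eq P.i z hz.2.1 hz.2.2 b c
      bd := fun z hz => h.bd P.i z hz.2.1 hz.2.2 }
  obtain ⟨r, G₀, hr0, hrR, hs, hdr, ⟨c, hc⟩, hint⟩ :=
    hD.pot fun z hz => h.closed P.i z hz.2.1 hz.2.2
  have hrb : ball P.z₀ r ⊆ ball P.z₀ P.r := ball_subset_ball (by linarith [P.r_pos])
  have ho : IsOpen (ball P.z₀ P.r ∩ dom A W P.i ∩ ball P.z₀ r) := hp.isOpen.inter isOpen_ball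
  have hinv : ∀ z ∈ (A.C P.i).W, Function.invFunOn (A.p P.i) (A.C P.i).W (A.p P.i z) = z :=
    fun z hz => (hinj P.i).leftInvOn_invFunOn hz
  have key : ∀ j, ∀ z ∈ (A.C j).W, A.p j z ∈ A.p P.i '' (ball P.z₀ r ∩ (A.C P.i).W) ∩ W →
      ∃ O φ, IsChange (A.C j) (A.C P.i) O φ ∧ z ∈ O ∧ (∀ w ∈ O, A.p P.i (φ w) = A.p j w) ∧
        φ z ∈ ball P.z₀ P.r ∩ dom A W P.i ∩ ball P.z₀ r ∧
        (fun w => G₀ (Function.invFunOn (A.p P.i) (A.C P.i).W (A.p j w))) =ᶠ[𝓝 z]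
          fun w => G₀ (φ w) := by
    rintro j z hz ⟨⟨y, hy, e⟩, hW⟩
    obtain ⟨O, φ, hφ, hzO, rfl, h4⟩ := A.trans j P.i z hz y hy.2 e.symm
    refine ⟨O, φ, hφ, hzO, h4, ⟨⟨hrb hy.1, hy.2, by rw [mem_preimage, e]; exact hW⟩, hy.1⟩, ?_⟩
    filter_upwards [hφ.isOpen.mem_nhds hzO] with w hw
    rw [← h4 w hw, hinv _ (hφ.maps hw)]
  refine ⟨r, fun y => G₀ (Function.invFunOn (A.p P.i) (A.C P.i).W y), hr0,
    by linarith [P.r_pos], A.opn P.i _ (isOpen_ball.inter (A.C P.i).isOpen) inter_subset_right,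
    fun j z hz hy => ?_, fun j z hz hy => ?_, ⟨c, ?_⟩, fun k => ?_⟩
  · obtain ⟨O, φ, hφ, hzO, -, h5, h6⟩ := key j z hz hy
    exact ((hs.contDiffAt (ho.mem_nhds h5)).comp z
      ((smooth_of_hol hφ.isOpen hφ.hol).contDiffAt (hφ.isOpen.mem_nhds hzO))).congr_of_eventuallyEq h6
  · obtain ⟨O, φ, hφ, hzO, h4, h5, h6⟩ := key j z hz hy
    rw [(dr_congr h6).self_of_nhds, dr_comp ((hs.contDiffAt (ho.mem_nhds h5)).differentiableAt
      (by simp)) (hφ.hol.differentiableAt (hφ.isOpen.mem_nhds hzO)), hdr _ h5,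
      h.cov j P.i O φ hφ h4 z hzO hy.2]
  · rintro _ ⟨⟨y, hy, rfl⟩, hW⟩
    rw [hinv y hy.2]
    exact hc y ⟨⟨hrb hy.1, hy.2, hW⟩, hy.1⟩
  · have he : EqOn (fun z => Real.exp (-(k * G₀ z)))
        (fun z => Real.exp (-(k * G₀ (Function.invFunOn (A.p P.i) (A.C P.i).W (A.p P.i z)))))
        (ball P.z₀ P.r ∩ dom A W P.i ∩ ball P.z₀ r) := fun z hz => by
      simp only [hinv z hz.1.2.1]
    refine (zbc5_int hinj hμ ho (fun z hz => hz.1.2.1)
      (fun z hz => (hB z ⟨ball_subset_closedBall hz.1.1, hz.1.2.1⟩).1)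
      (f := fun y => Real.exp (-(k * G₀ (Function.invFunOn (A.p P.i) (A.C P.i).W y))))
      (((continuousOn_const.mul hs.continuousOn).neg.rexp).congr he.symm)
      ((hint k).congr_fun he ho.measurableSet)).mono_set ?_
    rintro _ ⟨⟨y, hy, rfl⟩, hW⟩
    exact ⟨y, ⟨⟨hrb hy.1, hy.2, hW⟩, hy.1⟩, rfl⟩

end Pool.Agent.ZB
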