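import Pool.Agent.P.MP_63735c_ag.BPHyp
import Pool.Agent.P.MP_63735c_ag.SRDefs
import Pool.Agent.P.MP_63735c_ag.SQDefs
import Pool.Agent.P.MP_63735c_ag.CKDefs

/-! Hypotheses on a singular space, its line bundle and its resolution. -/

open scoped ComplexOrder ContDiff Matrix Topology

namespace Pool.Agent.ZB

open Pool.Agent.SPF Pool.Agent.CK Pool.Agent.SE Pool.Agent.BP

section

variable {N : ℕ} {X : Type} [TopologicalSpace X] {A : Atlas X N} {L : Line A} {Y : Type}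
  [TopologicalSpace Y]

/-- The charts `c i` cover `Y`, the chart `i` of `A` is the whole part of the chart `c i` in the
image of `j`, and `σ` extends holomorphically to `Y`. -/
structure Full (Z : Res L Y) : Prop where
  full : ∀ i, ∀ w ∈ Z.W (Z.c i), Z.p (Z.c i) w ∈ Set.range Z.j → w ∈ (A.C i).W
  cover : ∀ y, ∃ i, ∃ w ∈ Z.W (Z.c i), Z.p (Z.c i) w = y
  σ_ext : ∀ i, ∃ s : E N → Matrix (Fin N) (Fin N) ℂ,
    (∀ a b, DifferentiableOn ℂ (fun w => s w a b) (Z.W (Z.c i))) ∧ Set.EqOn s (A.C i).σ (A.C i).W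

/-- `f` is holomorphic on the part `U` of `Y`. -/
def HolY (Z : Res L Y) (U : Set Y) (f : Y → ℂ) : Prop :=
  ∀ k, DifferentiableOn ℂ (fun w => f (Z.p k w)) (Z.W k ∩ Z.p k ⁻¹' U)

/-- Every holomorphic Cech 1-cocycle on every open cover of `Y` splits. -/
def H1Y (Z : Res L Y) : Prop :=
  ∀ (κ : Type) (U : κ → Set Y) (c : κ → κ → Y → ℂ), (∀ a, IsOpen (U a)) → (∀ x, ∃ a, x ∈ U a) →
    (∀ a b, HolY Z (U a ∩ U b) (c a b)) →
    (∀ a b d, ∀ x ∈ U a ∩ U b ∩ U d, c a b x + c b d x = c a d x) →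
    ∃ k : κ → Y → ℂ, (∀ a, HolY Z (U a) (k a)) ∧ ∀ a b, ∀ x ∈ U a ∩ U b, c a b x = k a x - k b x

/-- The coefficients `f i` extend smoothly to the charts of `Y`. -/
def Upto (Z : Res L Y) (f : A.ι → E N → ℂ) : Prop :=
  ∀ i, ∀ w ∈ Z.W (Z.c i), ∃ (r : ℝ) (g : E N → ℂ), 0 < r ∧ ContDiffOn ℝ ∞ g (Metric.ball w r) ∧
    Set.EqOn g (f i) (Metric.ball w r ∩ (A.C i).W)

/-- A smooth (2,0)-form on `Y` that is closed for `∂` is `c σ + ∂ β`, `β` smooth on `Y`. -/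
def H02Y (Z : Res L Y) : Prop :=
  ∀ γ, Is20 A γ → (∀ a b, Upto Z fun i z => γ i z a b) →
    (∀ i, ∀ z ∈ (A.C i).W, ∀ a b c, dz a (fun w => γ i w b c) z +
      dz b (fun w => γ i w c a) z + dz c (fun w => γ i w a b) z = 0) →
    ∃ (c : ℂ) (β : A.ι → E N → E N), Is10 A β ∧ (∀ a, Upto Z fun i z => β i z a) ∧
      ∀ i, ∀ z ∈ (A.C i).W, ∀ a b,
        γ i z a b = c * (A.C i).σ z a b + dz a (fun w => β i w b) z - dz b (fun w => β i w a) z

end

variable {N : ℕ} {X : Type} [TopologicalSpace X] {R : Set X} {A : Atlas R N}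

/-- Near every point of `X` the form `K` is the restriction of a smooth positive form on the
ambient space of a local embedding. -/
def KahS (B : Amb R A) (K : Form11 A) : Prop :=
  ∀ x : X, ∃ (α : B.κ) (r : ℝ) (H : E (B.M α) → Matrix (Fin (B.M α)) (Fin (B.M α)) ℂ),
    x ∈ B.V α ∧ 0 < r ∧ (∀ a b, ContDiffOn ℝ ∞ (fun w => H w a b) (Metric.ball (B.z α x) r)) ∧
    (∀ w ∈ Metric.ball (B.z α x) r, (H w).PosDef) ∧ ∀ᶠ x' in 𝓝 x, ∀ i, ∀ y ∈ (A.C i).W,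
      (A.p i y : X) = x' → K.h i y = (jac (fun y' => B.z α (A.p i y')) y)ᵀ * H (B.z α x') *
        (jac (fun y' => B.z α (A.p i y')) y).map star

/-- A function that is holomorphic on `R` near a point of `X` is the restriction of a holomorphic
function on the ambient space. -/
def Normal (B : Amb R A) : Prop :=
  ∀ α, ∀ x ∈ B.V α, ∀ O : Set X, IsOpen O → x ∈ O → ∀ f : R → ℂ,
    HolOn A (Subtype.val ⁻¹' O) f → ∃ F : E (B.M α) → ℂ,
      (∀ᶠ w in 𝓝 (B.z α x), DifferentiableAt ℂ F w) ∧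
        ∀ᶠ y in 𝓝 x, ∀ h : y ∈ R, f ⟨y, h⟩ = F (B.z α y)

/-- Near every point of `X` the bundle `L` has a holomorphic frame on `R` whose norm is bounded
above and below. -/
def Cartier (L : Line A) : Prop :=
  ∀ x : X, ∃ (O : Set X) (e : A.ι → E N → ℂ) (c C : ℝ), IsOpen O ∧ x ∈ O ∧ 0 < c ∧
    (∀ i, DifferentiableOn ℂ (e i) ((A.C i).W ∩ {y | (A.p i y : X) ∈ O})) ∧
    ∀ i, ∀ z ∈ (A.C i).W, (A.p i z : X) ∈ O →
      (c ≤ ‖e i z‖ ^ 2 * Real.exp (-L.ψ i z) ∧ ‖e i z‖ ^ 2 * Real.exp (-L.ψ i z) ≤ C) ∧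
        ∀ j, ∀ y ∈ (A.C j).W, A.p i z = A.p j y → e j y = L.g i j (A.p i z) * e i z

/-- A holomorphic map `ρ : Y → X` that is the identity on `R`. -/
structure Over (B : Amb R A) {L : Line A} {Y : Type} [TopologicalSpace Y] (Z : Res L Y)
    extends Full Z where
  ρ : Y → X
  cont : Continuous ρ
  ρ_j : ∀ x, ρ (Z.j x) = x
  hol : ∀ α k, ∀ w ∈ Z.W k, ρ (Z.p k w) ∈ B.V α →
    DifferentiableAt ℂ (fun v => B.z α (ρ (Z.p k v))) w

end Pool.Agent.ZB
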